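import Mathlib
import Pool.Agent.Work.MP_974d84_co_log.Cluster

/-!
# Circular flows of cubic graphs of high cyclic connectivity: basic notions
-/

set_option linter.unusedSectionVars false

namespace Pool.Agent.K5

open Finset SimpleGraph Pool.Agent.Exp Pool.Agent.Log5 Pool.Agent.Log5.Clu

/-- The isoperimetric function. -/
noncomputable def gf (C : ℝ) (a : ℕ) : ℝ := min ((a : ℝ) + 2) (C * (1 + Real.log a) ^ 2)

variable {V : Type} [Fintype V] [DecidableEq V] (G : SimpleGraph V) [DecidableRel G.Adj]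

/-- Disjoint minimal violators of the isoperimetric inequality; every set outside them is
isoperimetric. -/
structure Cores (C : ℝ) {r : ℕ} (S : Fin r → Finset V) : Prop where
  disj : ∀ i j, i ≠ j → Disjoint (S i) (S j)
  ne : ∀ i, (S i).Nonempty
  viol : ∀ i, (dd G (S i) : ℝ) < gf C (S i).card
  sub : ∀ i, ∀ A ⊂ S i, A.Nonempty → gf C A.card ≤ dd G A
  out : ∀ A : Finset V, A.Nonempty → (∀ i, Disjoint A (S i)) → gf C A.card ≤ dd G A

/-- The number of edges from `A` to `B`. -/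
def ee (A B : Finset V) : ℕ :=
  ((univ : Finset (V × V)).filter fun p => p.1 ∈ A ∧ p.2 ∈ B ∧ G.Adj p.1 p.2).card

/-- Every part of `Z` outside `O` has an edge to the rest of `Z`. -/
def ModJ (O Z : Finset V) : Prop :=
  ∀ A ⊆ Z \ O, A.Nonempty → A ≠ Z → ∃ u ∈ A, ∃ v ∈ Z, v ∉ A ∧ G.Adj u v

/-- Closed bonds of the region `Y`. -/
structure RBond (Y : Finset V) (c : V → V) (Z : Finset V) : Prop where
  sub : Z ⊆ Y
  ne : Z.Nonempty
  joined : Joined G Z
  modj : ModJ G Yᶜ Zᶜ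
  clo : Clo c Z

/-- The regions: the cores and the rest. -/
def Region {r : ℕ} (S : Fin r → Finset V) (R : Finset V) : Prop :=
  (∃ i, R = S i) ∨ R = (univ.biUnion S)ᶜ

/-- The vertices which are moved into `R`. -/
def pre (c : V → V) (R : Finset V) : Finset V := univ.filter fun v => c v ∈ R

/-- No core is split. -/
def Sat {r : ℕ} (S : Fin r → Finset V) (X : Finset V) : Prop :=
  ∀ i, S i ⊆ X ∨ Disjoint (S i) X

/-- Facts about the cores of a graph of cyclic connectivity `k`. -/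
structure Facts (C : ℝ) (N k : ℕ) {r : ℕ} (S : Fin r → Finset V) : Prop where
  large : ∀ i, k ≤ (S i).card
  joined : ∀ i, Joined G (S i)
  bdry : ∀ i, N * dd G (S i) ≤ (S i).card
  ratio : ∀ i, ∀ A ⊆ S i, 3 * A.card ≤ 2 * (S i).card →
    100 * ee G A (S i)ᶜ ≤ 123 * ee G A (S i \ A)
  light : ∀ X : Finset V, X.Nonempty → (∀ j, 3 * (X ∩ S j).card ≤ 2 * (S j).card) →
    gf C X.card ≤ 4 * dd G X
  half : ∀ i, ∀ A ⊆ S i, (S i).card ≤ 2 * A.card → gf C (S i).card ≤ 10 * dd G A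
  sep : ∀ X : Finset V, Sat S X → (∃ i, S i ⊆ X) → (∃ i, Disjoint (S i) X) → k ≤ dd G X

/-- The smeared sites: `w t` is a probability measure near `t`, with small values. -/
structure Smear (j₀ : ℕ) (T : Finset V) (w : V → V → ℝ) : Prop where
  nonneg : ∀ t v, 0 ≤ w t v
  small : ∀ t v, w t v ≤ 1 / 2 ^ j₀
  ball : ∀ t v, w t v ≠ 0 → v ∈ Bl G.Adj j₀ t
  total : ∀ t ∈ T, ∑ v, w t v = 1
  disj : ∀ t ∈ T, ∀ t' ∈ T, t ≠ t' → Disjoint (Bl G.Adj j₀ t) (Bl G.Adj j₀ t')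

/-- The cut size without the edges at `D`. -/
def ds (D X : Finset V) : ℕ :=
  ((univ : Finset (V × V)).filter fun p =>
    p.1 ∈ X ∧ p.2 ∉ X ∧ p.1 ∉ D ∧ p.2 ∉ D ∧ G.Adj p.1 p.2).card

/-- Small sets around far apart vertices. -/
structure Triples (R : ℕ) (T : Finset V) (X : V → Finset V) : Prop where
  mem : ∀ t ∈ T, t ∈ X t
  ball : ∀ t ∈ T, X t ⊆ Bl G.Adj 1 t
  card : ∀ t ∈ T, (X t).card ≤ 3
  disj : ∀ t ∈ T, ∀ t' ∈ T, t ≠ t' → Disjoint (Bl G.Adj R t) (Bl G.Adj R t')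

/-- The set `P` splits the ball of radius `r` at `t`. -/
def Sp (r : ℕ) (P : Finset V) (t : V) : Prop := ∃ x ∈ Bl G.Adj r t, ¬ (x ∈ P ↔ t ∈ P)

/-- The bonds of the outer region and of the cores. -/
def Fm {r : ℕ} (S : Fin r → Finset V) (P : Finset V) : Prop :=
  RBond G (univ.biUnion S)ᶜ id P ∨ ∃ i, P ⊆ S i ∧ P.Nonempty ∧ Joined G P ∧
    Joined G (S i \ P) ∧ 2 * P.card ≤ (S i).card

end Pool.Agent.K5
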