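import Mathlib
import Pool.Agent.Work.MP_974d84_co_k5.Defs5

/-!
# Numerical facts about the isoperimetric function
-/

set_option linter.unusedSectionVars false

namespace Pool.Agent.K5

open Filter

theorem exists_large (M : ℝ) : ∃ x₀ : ℝ, 1 ≤ x₀ ∧ ∀ x : ℝ, x₀ ≤ x →
    M * (1 + Real.log x) ^ 2 ≤ x ∧ M ≤ Real.log x := by
  have h1 : ∀ᶠ x : ℝ in atTop, |Real.log x ^ 2| ≤ (1 / (4 * (|M| + 1))) * |x| := by
    have := (Real.isLittleO_pow_log_id_atTop (n := 2)).def
      (show (0 : ℝ) < 1 / (4 * (|M| + 1)) by positivity)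
    simpa using this
  have h2 : ∀ᶠ x : ℝ in atTop, max M 1 ≤ Real.log x := Real.tendsto_log_atTop.eventually_ge_atTop _
  obtain ⟨x₀, hx₀⟩ := Filter.eventually_atTop.1 (h1.and h2)
  refine ⟨max x₀ 1, le_max_right _ _, fun x hx => ?_⟩
  obtain ⟨h3, h4⟩ := hx₀ x ((le_max_left _ _).trans hx)
  have hx1 : 1 ≤ x := (le_max_right _ _).trans hx
  have h5 : 1 ≤ Real.log x := (le_max_right _ _).trans h4
  have h6 : M ≤ Real.log x := (le_max_left _ _).trans h4
  refine ⟨?_, h6⟩
  have hM : 0 < 4 * (|M| + 1) := by positivity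
  rw [abs_of_nonneg (sq_nonneg (Real.log x)), abs_of_nonneg (show 0 ≤ x by linarith)] at h3
  have h7 : (1 + Real.log x) ^ 2 ≤ 4 * Real.log x ^ 2 := by
    have := pow_le_pow_left₀ (by linarith : 0 ≤ 1 + Real.log x)
      (by linarith : 1 + Real.log x ≤ 2 * Real.log x) 2
    calc (1 + Real.log x) ^ 2 ≤ (2 * Real.log x) ^ 2 := this
      _ = _ := by ring
  have h8 : 4 * (|M| + 1) * Real.log x ^ 2 ≤ x := by
    have := mul_le_mul_of_nonneg_left h3 hM.le
    calc 4 * (|M| + 1) * Real.log x ^ 2 ≤ 4 * (|M| + 1) * (1 / (4 * (|M| + 1)) * x) := this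
      _ = x := by field_simp
  have h9 : M * (1 + Real.log x) ^ 2 ≤ (|M| + 1) * (4 * Real.log x ^ 2) := by
    refine (mul_le_mul_of_nonneg_right (show M ≤ |M| + 1 by linarith [le_abs_self M])
      (sq_nonneg _)).trans ?_
    exact mul_le_mul_of_nonneg_left h7 (by positivity)
  linarith

theorem gf_le (C : ℝ) (a : ℕ) : gf C a ≤ C * (1 + Real.log a) ^ 2 := min_le_right _ _

theorem gf_le' (C : ℝ) (a : ℕ) : gf C a ≤ (a : ℝ) + 2 := min_le_left _ _

/-- The increments of `gf`. -/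
theorem gf_diff {C : ℝ} (hC : 100 ≤ C) : ∃ k₁ : ℕ, 7 ≤ k₁ ∧ ∀ n a : ℕ, k₁ ≤ n → 1 ≤ a →
    3 * a ≤ 2 * n → gf C n - gf C (n - a) ≤ gf C a / 10 := by
  obtain ⟨x₁, hx₁, h₁⟩ := exists_large 3600
  obtain ⟨x₂, hx₂, h₂⟩ := exists_large (60 * C)
  obtain ⟨x₃, hx₃, h₃⟩ := exists_large C
  refine ⟨⌈x₁⌉₊ + ⌈x₂⌉₊ + 3 * ⌈x₃⌉₊ + 7, by omega, fun n a hn ha han => ?_⟩
  have hnx₁ : x₁ ≤ n := (Nat.le_ceil x₁).trans (by exact_mod_cast (by omega : ⌈x₁⌉₊ ≤ n))
  have hnx₂ : x₂ ≤ n := (Nat.le_ceil x₂).trans (by exact_mod_cast (by omega : ⌈x₂⌉₊ ≤ n))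
  have hna : x₃ ≤ ((n - a : ℕ) : ℝ) :=
    (Nat.le_ceil x₃).trans (by exact_mod_cast (by omega : ⌈x₃⌉₊ ≤ n - a))
  have hn0 : (0 : ℝ) < n := by exact_mod_cast (by omega : 0 < n)
  have ha0 : (0 : ℝ) < a := by exact_mod_cast (by omega : 0 < a)
  have hC0 : (0 : ℝ) < C := by linarith
  set L : ℝ := 1 + Real.log n with hL
  set L' : ℝ := 1 + Real.log ((n - a : ℕ) : ℝ) with hL'
  obtain ⟨a1, a2⟩ := h₁ n hnx₁
  obtain ⟨b1, -⟩ := h₂ n hnx₂
  obtain ⟨c1, -⟩ := h₃ _ hna
  have hL160 : 160 ≤ L := by rw [hL]; linarith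
  have hsub : ((n - a : ℕ) : ℝ) = n - a := by
    rw [Nat.cast_sub (by omega)]
  have hd0 : (0 : ℝ) < ((n - a : ℕ) : ℝ) := by linarith
  have h3 : (n : ℝ) ≤ 3 * ((n - a : ℕ) : ℝ) := by
    rw [hsub]
    have : (3 * a : ℝ) ≤ 2 * n := by exact_mod_cast han
    linarith
  -- the value at `n - a`
  have hg1 : gf C (n - a) = C * L' ^ 2 := by
    unfold gf
    rw [min_eq_right]
    linarith
  have hg2 : gf C n ≤ C * L ^ 2 := gf_le C n
  have hLL : L - L' ≤ 3 * a / n := by
    have h4 : L - L' = Real.log (n / ((n - a : ℕ) : ℝ)) := by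
      rw [Real.log_div hn0.ne' hd0.ne', hL, hL']
      ring
    rw [h4]
    have h5 := Real.log_le_sub_one_of_pos (show 0 < (n : ℝ) / ((n - a : ℕ) : ℝ) by positivity)
    refine h5.trans ?_
    rw [div_sub_one hd0.ne', div_le_div_iff₀ hd0 hn0]
    have h6 : (n : ℝ) - ((n - a : ℕ) : ℝ) = a := by rw [hsub]; ring
    rw [h6]
    calc (a : ℝ) * n ≤ a * (3 * ((n - a : ℕ) : ℝ)) := mul_le_mul_of_nonneg_left h3 ha0.le
      _ = 3 * a * ((n - a : ℕ) : ℝ) := by ring
  have hL'L : L' ≤ L := by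
    rw [hL, hL']
    have := Real.log_le_log hd0 (show ((n - a : ℕ) : ℝ) ≤ n by rw [hsub]; linarith)
    linarith
  have hL'1 : 1 ≤ L' := by
    rw [hL']
    have : 0 ≤ Real.log ((n - a : ℕ) : ℝ) := Real.log_nonneg (hx₃.trans hna)
    linarith
  have hΔ : gf C n - gf C (n - a) ≤ 6 * C * a * L / n := by
    rw [hg1]
    have h4 : L ^ 2 - L' ^ 2 ≤ (3 * a / n) * (2 * L) := by
      have h5 : L ^ 2 - L' ^ 2 = (L - L') * (L + L') := by ring
      rw [h5]
      exact mul_le_mul hLL (by linarith) (by linarith) (by positivity)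
    calc gf C n - C * L' ^ 2 ≤ C * L ^ 2 - C * L' ^ 2 := by linarith
      _ = C * (L ^ 2 - L' ^ 2) := by ring
      _ ≤ C * ((3 * a / n) * (2 * L)) := mul_le_mul_of_nonneg_left h4 hC0.le
      _ = 6 * C * a * L / n := by ring
  refine hΔ.trans ?_
  have hla : 0 ≤ Real.log a := Real.log_nonneg (by exact_mod_cast ha)
  have key : 6 * C * a * L / n ≤ min ((a : ℝ) + 2) (C * (1 + Real.log a) ^ 2) / 10 := by
    rw [le_div_iff₀ (by norm_num : (0 : ℝ) < 10), le_min_iff]
    constructor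
    · rw [div_mul_eq_mul_div, div_le_iff₀ hn0]
      have h4 : 60 * C * L ≤ n := by
        have h5 : L ≤ L ^ 2 := le_self_pow₀ (by linarith) (by norm_num)
        have h6 : 60 * C * L ≤ 60 * C * L ^ 2 := mul_le_mul_of_nonneg_left h5 (by positivity)
        linarith
      calc 6 * C * a * L * 10 = a * (60 * C * L) := by ring
        _ ≤ a * n := mul_le_mul_of_nonneg_left h4 ha0.le
        _ ≤ (a + 2) * n := mul_le_mul_of_nonneg_right (by linarith) hn0.le
    · rw [div_mul_eq_mul_div, div_le_iff₀ hn0]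
      have h4 : 60 * a * L ≤ n * (1 + Real.log a) ^ 2 := by
        by_cases h5 : (a : ℝ) ^ 2 ≤ n
        · have h6 : 60 * a * L ≤ n := by
            have h7 : (60 * a * L) ^ 2 ≤ (n : ℝ) ^ 2 := by
              calc (60 * a * L) ^ 2 = (a : ℝ) ^ 2 * (3600 * L ^ 2) := by ring
                _ ≤ (n : ℝ) * n := mul_le_mul h5 a1 (by positivity) hn0.le
                _ = (n : ℝ) ^ 2 := by ring
            exact (sq_le_sq₀ (by positivity) hn0.le).1 h7
          have h8 : (n : ℝ) ≤ n * (1 + Real.log a) ^ 2 := by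
            have : 1 ≤ (1 + Real.log a) ^ 2 := one_le_pow₀ (by linarith)
            exact le_mul_of_one_le_right hn0.le this
          linarith
        · push Not at h5
          have h6 : Real.log n ≤ 2 * Real.log a := by
            have := Real.log_le_log hn0 h5.le
            rwa [Real.log_pow, Nat.cast_ofNat] at this
          have h7 : L / 2 ≤ 1 + Real.log a := by
            rw [hL]
            linarith
          have hL0 : 0 ≤ L := by linarith
          have h8 : L ^ 2 / 4 ≤ (1 + Real.log a) ^ 2 := by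
            have := pow_le_pow_left₀ (by linarith : 0 ≤ L / 2) h7 2
            calc L ^ 2 / 4 = (L / 2) ^ 2 := by ring
              _ ≤ _ := this
          have h9 : (3 * a : ℝ) ≤ 2 * n := by exact_mod_cast han
          have h10 : 60 * a * L ≤ 40 * n * L :=
            mul_le_mul_of_nonneg_right (by linarith) hL0
          have h11 : 40 * n * L ≤ n * (L ^ 2 / 4) := by
            have h13 : 40 * L ≤ L ^ 2 / 4 := by
              have := mul_le_mul_of_nonneg_right hL160 hL0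
              linarith [sq L]
            calc 40 * n * L = n * (40 * L) := by ring
              _ ≤ _ := mul_le_mul_of_nonneg_left h13 hn0.le
          have h12 : n * (L ^ 2 / 4) ≤ n * (1 + Real.log a) ^ 2 :=
            mul_le_mul_of_nonneg_left h8 hn0.le
          linarith
      calc 6 * C * a * L * 10 = C * (60 * a * L) := by ring
        _ ≤ C * (n * (1 + Real.log a) ^ 2) := mul_le_mul_of_nonneg_left h4 hC0.le
        _ = C * (1 + Real.log a) ^ 2 * n := by ring
  exact key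

end Pool.Agent.K5
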