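import Mathlib
import Pool.Agent.Work.MP_974d84_co_log.Defs

/-!
# Cores: smallest sets with a cycle and few leaving edges

`Viol G g S`: `S` has a cycle and fewer than `g |S|` leaving edges.  `Core G g S`: a smallest such
set.  There is a maximal family of disjoint cores.  Inside a core `C` every set `Y` with at most
half of the vertices has at most `4 e(Y, C - Y)` leaving edges.  Every set `S` can be rounded to a
set which does not split the cores.
-/

set_option linter.unusedSectionVars false

namespace Pool.Agent.K5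

open Finset SimpleGraph Pool.Agent.Exp Pool.Agent.Log5
open Pool.Agent.Work.MP_314beb_co (cut)

variable {V : Type} [Fintype V] [DecidableEq V] (G : SimpleGraph V) [DecidableRel G.Adj]

/-- The set has a cycle and few leaving edges. -/
def Viol (g : ℕ → ℝ) (S : Finset V) : Prop :=
  ¬ (G.induce (S : Set V)).IsAcyclic ∧ (dd G S : ℝ) < g S.card

/-- A smallest violating set. -/
def Core (g : ℕ → ℝ) (S : Finset V) : Prop :=
  Viol G g S ∧ ∀ T, T ⊆ S → T ≠ S → ¬ Viol G g T

/-- What is used of the bound. -/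
structure Bnd (g : ℕ → ℝ) (s : ℕ) : Prop where
  le_self : ∀ x : ℕ, s ≤ x → g x ≤ x
  tree : ∀ x y : ℕ, s ≤ x → y ≤ x → g (x + y) - g x ≤ y / 2
  cyc : ∀ x y : ℕ, s ≤ y → y ≤ x → g (x + y) - g x ≤ g y / 2

/-- A maximal family of disjoint cores. -/
structure CoreFam (g : ℕ → ℝ) (𝒞 : Finset (Finset V)) : Prop where
  core : ∀ C ∈ 𝒞, Core G g C
  disj : ∀ C ∈ 𝒞, ∀ D ∈ 𝒞, C ≠ D → Disjoint C D
  max : ∀ S, Viol G g S → ∃ C ∈ 𝒞, ¬ Disjoint C S

variable {G}

theorem not_acyclic_nonempty {S : Finset V} (h : ¬ (G.induce (S : Set V)).IsAcyclic) :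
    S.Nonempty := by
  rw [nonempty_iff_ne_empty]
  rintro rfl
  apply h
  intro v
  exact absurd v.2 (by simp)

theorem Viol.exists_core {g : ℕ → ℝ} {S : Finset V} (h : Viol G g S) :
    ∃ T, T ⊆ S ∧ Core G g T := by
  classical
  have key : ∃ m : ℕ, ∃ T : Finset V, T ⊆ S ∧ Viol G g T ∧ T.card = m :=
    ⟨_, S, Subset.refl S, h, rfl⟩
  obtain ⟨T, hT, hv, hm⟩ := Nat.find_spec key
  refine ⟨T, hT, hv, fun U hU hne hUv => hne ?_⟩
  have h1 := Nat.find_min' key ⟨U, hU.trans hT, hUv, rfl⟩
  rw [← hm] at h1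
  exact eq_of_subset_of_card_le hU h1

variable (G) in
theorem exists_coreFam (g : ℕ → ℝ) : ∃ 𝒞 : Finset (Finset V), CoreFam G g 𝒞 := by
  classical
  set P : Finset (Finset V) → Prop := fun 𝒞 => (∀ C ∈ 𝒞, Core G g C) ∧
    ∀ C ∈ 𝒞, ∀ D ∈ 𝒞, C ≠ D → Disjoint C D with hP
  have h0 : P ∅ := ⟨fun C hC => absurd hC (notMem_empty C),
    fun C hC => absurd hC (notMem_empty C)⟩
  obtain ⟨𝒞, h𝒞, hmax⟩ := Finset.exists_max_image (univ.filter P) Finset.card
    ⟨∅, mem_filter.2 ⟨mem_univ _, h0⟩⟩
  obtain ⟨-, h1, h2⟩ := mem_filter.1 h𝒞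
  refine ⟨𝒞, h1, h2, fun S hS => ?_⟩
  by_contra hcon
  push Not at hcon
  obtain ⟨T, hTS, hT⟩ := hS.exists_core
  have hdT : ∀ C ∈ 𝒞, Disjoint C T := fun C hC => (hcon C hC).mono_right hTS
  have hTn : T.Nonempty := not_acyclic_nonempty hT.1.1
  have hT𝒞 : T ∉ 𝒞 := fun h5 => by
    have h6 := hdT T h5
    rw [disjoint_self_iff_empty] at h6
    exact hTn.ne_empty h6
  have h3 : P (insert T 𝒞) := by
    refine ⟨fun C hC => ?_, fun C hC D hD hne => ?_⟩
    · rcases mem_insert.1 hC with rfl | hC
      · exact hT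
      · exact h1 C hC
    · rcases mem_insert.1 hC with hC' | hC'
      · rcases mem_insert.1 hD with hD' | hD'
        · exact absurd (hC'.trans hD'.symm) hne
        · rw [hC']
          exact (hdT D hD').symm
      · rcases mem_insert.1 hD with hD' | hD'
        · rw [hD']
          exact hdT C hC'
        · exact h2 C hC' D hD' hne
  have h4 := hmax _ (mem_filter.2 ⟨mem_univ _, h3⟩)
  rw [card_insert_of_notMem hT𝒞] at h4
  omega

/-! ### Leaving edges -/

theorem dd_eq_interedges (X : Finset V) : dd G X = (G.interedges X Xᶜ).card :=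
  (dd_interedges G X).symm

theorem dd_union {X Y : Finset V} (h : Disjoint X Y) :
    dd G (X ∪ Y) + 2 * (G.interedges X Y).card = dd G X + dd G Y := by
  classical
  have hXc : Xᶜ = Y ∪ (X ∪ Y)ᶜ := by
    ext v
    simp only [mem_compl, mem_union]
    constructor
    · intro h1
      by_cases h2 : v ∈ Y
      · exact Or.inl h2
      · exact Or.inr fun h3 => h3.elim h1 h2
    · rintro (h1 | h1) h2
      · exact Finset.disjoint_left.1 h h2 h1
      · exact h1 (Or.inl h2)
  have hYc : Yᶜ = X ∪ (X ∪ Y)ᶜ := by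
    ext v
    simp only [mem_compl, mem_union]
    constructor
    · intro h1
      by_cases h2 : v ∈ X
      · exact Or.inl h2
      · exact Or.inr fun h3 => h3.elim h2 h1
    · rintro (h1 | h1) h2
      · exact Finset.disjoint_left.1 h h1 h2
      · exact h1 (Or.inr h2)
  have hd1 : Disjoint Y (X ∪ Y)ᶜ := by
    rw [Finset.disjoint_left]
    intro v h1 h2
    exact (mem_compl.1 h2) (mem_union_right _ h1)
  have hd2 : Disjoint X (X ∪ Y)ᶜ := by
    rw [Finset.disjoint_left]
    intro v h1 h2
    exact (mem_compl.1 h2) (mem_union_left _ h1)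
  have split_right : ∀ A B C : Finset V, Disjoint B C →
      (G.interedges A (B ∪ C)).card = (G.interedges A B).card + (G.interedges A C).card := by
    intro A B C hBC
    have h1 : G.interedges A (B ∪ C) = G.interedges A B ∪ G.interedges A C := by
      ext p
      simp only [mem_interedges_iff, mem_union]
      tauto
    rw [h1, card_union_of_disjoint]
    rw [Finset.disjoint_left]
    intro p h2 h3
    exact Finset.disjoint_left.1 hBC (G.mem_interedges_iff.1 h2).2.1 (G.mem_interedges_iff.1 h3).2.1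
  have split_left : ∀ A B C : Finset V, Disjoint A B →
      (G.interedges (A ∪ B) C).card = (G.interedges A C).card + (G.interedges B C).card := by
    intro A B C hAB
    have h1 : G.interedges (A ∪ B) C = G.interedges A C ∪ G.interedges B C := by
      ext p
      simp only [mem_interedges_iff, mem_union]
      tauto
    rw [h1, card_union_of_disjoint]
    rw [Finset.disjoint_left]
    intro p h2 h3
    exact Finset.disjoint_left.1 hAB (G.mem_interedges_iff.1 h2).1 (G.mem_interedges_iff.1 h3).1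
  have e1 := split_right X Y (X ∪ Y)ᶜ hd1
  have e2 := split_right Y X (X ∪ Y)ᶜ hd2
  have e3 := split_left X Y (X ∪ Y)ᶜ h
  have e4 : (G.interedges Y X).card = (G.interedges X Y).card := by
    refine card_bij' (fun p _ => (p.2, p.1)) (fun p _ => (p.2, p.1)) ?_ ?_ ?_ ?_
    · intro p hp
      rw [mem_interedges_iff] at hp ⊢
      exact ⟨hp.2.1, hp.1, hp.2.2.symm⟩
    · intro p hp
      rw [mem_interedges_iff] at hp ⊢
      exact ⟨hp.2.1, hp.1, hp.2.2.symm⟩
    · intro p _; rfl
    · intro p _; rfl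
  rw [dd_eq_interedges, dd_eq_interedges X, dd_eq_interedges Y, e3, hXc, hYc, e1, e2]
  have : (X ∪ (Y ∪ (X ∪ Y)ᶜ)) = univ := by
    ext v
    simp only [mem_union, mem_compl, mem_univ, iff_true]
    tauto
  omega

theorem dd_symmDiff (A B : Finset V) : dd G (symmDiff A B) ≤ dd G A + dd G B := by
  classical
  unfold dd
  have h1 : cut G (symmDiff A B) ⊆ (cut G A ∪ (cut G A).image Prod.swap) ∪
      (cut G B ∪ (cut G B).image Prod.swap) := by
    intro p hp
    rw [mem_cut] at hp
    simp only [mem_union, mem_image, mem_cut]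
    by_cases a1 : p.1 ∈ A <;> by_cases a2 : p.2 ∈ A <;> by_cases b1 : p.1 ∈ B <;>
      by_cases b2 : p.2 ∈ B <;> simp only [mem_symmDiff] at hp <;> first
      | (exfalso; tauto)
      | exact Or.inl (Or.inl ⟨a1, a2, hp.2.2⟩)
      | exact Or.inl (Or.inr ⟨(p.2, p.1), ⟨a2, a1, hp.2.2.symm⟩, rfl⟩)
      | exact Or.inr (Or.inl ⟨b1, b2, hp.2.2⟩)
      | exact Or.inr (Or.inr ⟨(p.2, p.1), ⟨b2, b1, hp.2.2.symm⟩, rfl⟩)
  have key : ∀ p ∈ cut G (symmDiff A B), ∃ q, (q = p ∨ q = (p.2, p.1)) ∧
      (q ∈ cut G A ∨ q ∈ cut G B) := by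
    intro p hp
    have h2 := h1 hp
    simp only [mem_union, mem_image] at h2
    rcases h2 with (h2 | ⟨q, h2, rfl⟩) | (h2 | ⟨q, h2, rfl⟩)
    · exact ⟨p, Or.inl rfl, Or.inl h2⟩
    · exact ⟨q, Or.inr rfl, Or.inl h2⟩
    · exact ⟨p, Or.inl rfl, Or.inr h2⟩
    · exact ⟨q, Or.inr rfl, Or.inr h2⟩
  choose! f hf1 hf2 using key
  have hinj : Set.InjOn f (cut G (symmDiff A B) : Set (V × V)) := by
    intro p hp q hq hpq
    have hp' := mem_cut (G := G) |>.1 (mem_coe.1 hp)
    have hq' := mem_cut (G := G) |>.1 (mem_coe.1 hq)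
    rcases hf1 p (mem_coe.1 hp) with h3 | h3 <;> rcases hf1 q (mem_coe.1 hq) with h4 | h4
    · rw [← h3, hpq, h4]
    · rw [h3, h4] at hpq
      exfalso
      apply hq'.2.1
      have : q.2 = p.1 := congrArg Prod.fst hpq.symm
      rw [this]
      exact hp'.1
    · rw [h3, h4] at hpq
      exfalso
      apply hp'.2.1
      have : p.2 = q.1 := congrArg Prod.fst hpq
      rw [this]
      exact hq'.1
    · rw [h3, h4] at hpq
      exact Prod.ext (congrArg Prod.snd hpq) (congrArg Prod.fst hpq)
  calc (cut G (symmDiff A B)).card = ((cut G (symmDiff A B)).image f).card :=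
        (card_image_of_injOn hinj).symm
    _ ≤ (cut G A ∪ cut G B).card := by
        refine card_le_card fun q hq => ?_
        obtain ⟨p, hp, rfl⟩ := mem_image.1 hq
        exact mem_union.2 (hf2 p hp)
    _ ≤ _ := card_union_le _ _

theorem dd_biUnion {ι : Type*} [DecidableEq ι] (s : Finset ι) (Y : ι → Finset V)
    (hd : ∀ i ∈ s, ∀ j ∈ s, i ≠ j → Disjoint (Y i) (Y j)) :
    dd G (s.biUnion Y) ≤ ∑ i ∈ s, dd G (Y i) := by
  induction s using Finset.induction_on with
  | empty =>
    rw [biUnion_empty, sum_empty]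
    unfold dd
    rw [Nat.le_zero, card_eq_zero]
    ext p
    simp [mem_cut]
  | insert i s hi ih =>
    rw [biUnion_insert, sum_insert hi]
    have h1 : Disjoint (Y i) (s.biUnion Y) := by
      rw [disjoint_biUnion_right]
      intro j hj
      exact hd i (mem_insert_self i s) j (mem_insert_of_mem hj) fun h5 => hi (h5 ▸ hj)
    have h2 := dd_union (G := G) h1
    have h3 := ih fun j hj l hl => hd j (mem_insert_of_mem hj) l (mem_insert_of_mem hl)
    omega

/-! ### Inside a core -/

section core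

variable {g : ℕ → ℝ} {s k : ℕ} {C : Finset V}

/-- Proper subsets of cores. -/
theorem Core.le_of_ne (h3 : ∀ v, G.degree v = 3) (hg : Bnd g s) (hC : Core G g C)
    {X : Finset V} (hX : X ⊆ C) (hne : X ≠ C) (hs : s ≤ X.card) (hX0 : X.Nonempty) :
    g X.card ≤ dd G X := by
  by_cases h1 : (G.induce (X : Set V)).IsAcyclic
  · have h2 := dd_of_acyclic G h3 hX0 h1
    have h4 : ((X.card : ℕ) : ℝ) ≤ dd G X := by exact_mod_cast (by omega : X.card ≤ dd G X)
    exact (hg.le_self _ hs).trans h4
  · by_contra h2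
    exact hC.2 X hX hne ⟨h1, not_le.1 h2⟩

/-- **Inside a core**: a set with at most half of the vertices has at most four times as many
leaving edges as edges to the rest of the core. -/
theorem Core.inner (h3 : ∀ v, G.degree v = 3) (hg : Bnd g s) (hs : 1 ≤ s) (hG : Gir G (2 * s))
    (hC : Core G g C) {Y : Finset V} (hY : Y ⊆ C) (hY2 : 2 * Y.card ≤ C.card) :
    dd G Y ≤ 4 * (G.interedges Y (C \ Y)).card := by
  classical
  rcases Y.eq_empty_or_nonempty with rfl | hY0
  · have : dd G (∅ : Finset V) = 0 := by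
      unfold dd
      rw [card_eq_zero]
      ext p
      simp [mem_cut]
    omega
  have hCs : 2 * s ≤ C.card := by
    by_contra h1
    exact hC.1.1 (hG C (by omega))
  have hcard : (C \ Y).card + Y.card = C.card := card_sdiff_add_card_eq_card hY
  have hX0 : (C \ Y).Nonempty := by
    rw [← card_pos]
    omega
  have hXne : C \ Y ≠ C := by
    intro h1
    have := hY0.card_pos
    rw [h1] at hcard
    omega
  have h1 : g (C \ Y).card ≤ dd G (C \ Y) :=
    hC.le_of_ne h3 hg sdiff_subset hXne (by omega) hX0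
  have h2 : (dd G C : ℝ) < g C.card := hC.1.2
  have h4 := dd_union (G := G) (X := Y) (Y := C \ Y) disjoint_sdiff
  rw [union_sdiff_of_subset hY] at h4
  have h4' : (dd G C : ℝ) + 2 * (G.interedges Y (C \ Y)).card = dd G Y + dd G (C \ Y) := by
    exact_mod_cast h4
  have h5 : g C.card - g (C \ Y).card ≤ (dd G Y : ℝ) / 2 := by
    rw [← hcard]
    by_cases hac : (G.induce (Y : Set V)).IsAcyclic
    · have h6 := dd_of_acyclic G h3 hY0 hac
      have h7 : ((Y.card : ℕ) : ℝ) ≤ dd G Y := by exact_mod_cast (by omega : Y.card ≤ dd G Y)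
      have h8 := hg.tree (C \ Y).card Y.card (by omega) (by omega)
      linarith
    · have hYs : s ≤ Y.card := by
        by_contra h6
        exact hac (hG Y (by omega))
      have h6 : g Y.card ≤ dd G Y := by
        refine hC.le_of_ne h3 hg hY (fun h7 => ?_) hYs hY0
        rw [h7] at hY2
        have := card_pos.2 (not_acyclic_nonempty hC.1.1)
        omega
      have h8 := hg.cyc (C \ Y).card Y.card hYs (by omega)
      linarith
  have h6 : (dd G Y : ℝ) ≤ 4 * (G.interedges Y (C \ Y)).card := by linarith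
  exact_mod_cast h6

/-- Cores are connected. -/
theorem Core.joined (h3 : ∀ v, G.degree v = 3) (hk : 3 ≤ k) (hc : CycConn G k) (hg : Bnd g s)
    (hs : 1 ≤ s) (hG : Gir G (2 * s)) (hC : Core G g C) : Joined G C := by
  classical
  intro A hA hA0 hAne
  by_contra hcon
  push Not at hcon
  have hB0 : (C \ A).Nonempty := by
    rw [sdiff_nonempty]
    exact fun h => hAne (Subset.antisymm hA h)
  have hcard : (C \ A).card + A.card = C.card := card_sdiff_add_card_eq_card hA
  have hno : ∀ x ∈ A, ∀ y ∈ C \ A, ¬ G.Adj x y := fun x hx y hy =>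
    hcon x hx y (mem_sdiff.1 hy).1 (mem_sdiff.1 hy).2
  rcases le_total A.card (C \ A).card with h | h
  · have h1 := hC.inner h3 hg hs hG hA (by omega)
    have h2 : (G.interedges A (C \ A)).card = 0 := by
      rw [card_eq_zero]
      ext p
      rw [mem_interedges_iff]
      constructor
      · rintro ⟨h5, h6, h7⟩
        exact absurd h7 (hno _ h5 _ h6)
      · intro h5
        exact absurd h5 (notMem_empty p)
    have h4 := three_le_dd G h3 hk hc hA0 (by
      obtain ⟨y, hy⟩ := hB0
      exact ⟨y, mem_compl.2 (mem_sdiff.1 hy).2⟩)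
    omega
  · have h1 := hC.inner (Y := C \ A) h3 hg hs hG sdiff_subset (by omega)
    have h0 : C \ (C \ A) = A := by
      rw [sdiff_sdiff_right_self, inf_eq_inter, inter_eq_right]
      exact hA
    rw [h0] at h1
    have h2 : (G.interedges (C \ A) A).card = 0 := by
      rw [card_eq_zero]
      ext p
      rw [mem_interedges_iff]
      constructor
      · rintro ⟨h5, h6, h7⟩
        exact absurd h7.symm (hno _ h6 _ h5)
      · intro h5
        exact absurd h5 (notMem_empty p)
    have h4 := three_le_dd G h3 hk hc hB0 (by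
      obtain ⟨y, hy⟩ := hA0
      exact ⟨y, mem_compl.2 fun h5 => (mem_sdiff.1 h5).2 hy⟩)
    omega

end core

/-! ### Rounding -/

/-- The smaller part of the core `C` cut by `S`. -/
def small (S C : Finset V) : Finset V :=
  if 2 * (C ∩ S).card ≤ C.card then C ∩ S else C \ S

theorem small_subset (S C : Finset V) : small S C ⊆ C := by
  unfold small
  split_ifs
  · exact inter_subset_left
  · exact sdiff_subset

theorem small_card (S C : Finset V) : 2 * (small S C).card ≤ C.card := by
  unfold small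
  split_ifs with h
  · exact h
  · have h1 : (C \ S).card + (C ∩ S).card = C.card := card_sdiff_add_card_inter C S
    omega

theorem interedges_small (S C : Finset V) :
    (G.interedges (small S C) (C \ small S C)).card = (G.interedges (C ∩ S) (C \ S)).card := by
  unfold small
  split_ifs
  · have : C \ (C ∩ S) = C \ S := by rw [sdiff_inter_self_left]
    rw [this]
  · have : C \ (C \ S) = C ∩ S := by rw [sdiff_sdiff_right_self, inf_eq_inter]
    rw [this]
    refine card_bij' (fun p _ => (p.2, p.1)) (fun p _ => (p.2, p.1)) ?_ ?_ ?_ ?_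
    · intro p hp
      rw [mem_interedges_iff] at hp ⊢
      exact ⟨hp.2.1, hp.1, hp.2.2.symm⟩
    · intro p hp
      rw [mem_interedges_iff] at hp ⊢
      exact ⟨hp.2.1, hp.1, hp.2.2.symm⟩
    · intro p _; rfl
    · intro p _; rfl

section round

variable {g : ℕ → ℝ} {s : ℕ} {𝒞 : Finset (Finset V)}

/-- The edges of `S` inside the cores. -/
theorem sum_inner_le (hd : ∀ C ∈ 𝒞, ∀ D ∈ 𝒞, C ≠ D → Disjoint C D) (S : Finset V) :
    ∑ C ∈ 𝒞, (G.interedges (C ∩ S) (C \ S)).card ≤ dd G S := by
  classical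
  rw [← card_biUnion]
  · unfold dd
    refine card_le_card fun p hp => ?_
    obtain ⟨C, -, h1⟩ := mem_biUnion.1 hp
    rw [mem_interedges_iff] at h1
    rw [mem_cut]
    exact ⟨(mem_inter.1 h1.1).2, (mem_sdiff.1 h1.2.1).2, h1.2.2⟩
  · intro C hC D hD hne
    rw [Function.onFun, Finset.disjoint_left]
    intro p h1 h2
    rw [mem_interedges_iff] at h1 h2
    exact Finset.disjoint_left.1 (hd C hC D hD hne) (mem_inter.1 h1.1).1 (mem_inter.1 h2.1).1

/-- **The smaller parts of the cores.** -/
theorem sum_small_le (h3 : ∀ v, G.degree v = 3) (hg : Bnd g s) (hs : 1 ≤ s) (hG : Gir G (2 * s))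
    (h : CoreFam G g 𝒞) (S : Finset V) : ∑ C ∈ 𝒞, dd G (small S C) ≤ 4 * dd G S := by
  refine le_trans ?_ (Nat.mul_le_mul_left 4 (sum_inner_le (G := G) h.disj S))
  rw [mul_sum]
  refine sum_le_sum fun C hC => ?_
  have h1 := (h.core C hC).inner h3 hg hs hG (small_subset S C) (small_card S C)
  rwa [interedges_small] at h1

/-- The set `S`, with every core moved to the side of its larger part. -/
def rnd (𝒞 : Finset (Finset V)) (S : Finset V) : Finset V := symmDiff S (𝒞.biUnion (small S))

theorem small_disj (hd : ∀ C ∈ 𝒞, ∀ D ∈ 𝒞, C ≠ D → Disjoint C D) (S : Finset V) :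
    ∀ C ∈ 𝒞, ∀ D ∈ 𝒞, C ≠ D → Disjoint (small S C) (small S D) := fun C hC D hD hne =>
  (hd C hC D hD hne).mono (small_subset S C) (small_subset S D)

/-- **Rounding.** -/
theorem dd_rnd_le (h3 : ∀ v, G.degree v = 3) (hg : Bnd g s) (hs : 1 ≤ s) (hG : Gir G (2 * s))
    (h : CoreFam G g 𝒞) (S : Finset V) : dd G (rnd 𝒞 S) ≤ 5 * dd G S := by
  classical
  have h1 := dd_symmDiff (G := G) S (𝒞.biUnion (small S))
  have h2 := dd_biUnion (G := G) 𝒞 (small S) (small_disj h.disj S)
  have h4 := sum_small_le h3 hg hs hG h S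
  unfold rnd
  omega

/-- The rounded set does not split the cores. -/
theorem rnd_noSplit (hd : ∀ C ∈ 𝒞, ∀ D ∈ 𝒞, C ≠ D → Disjoint C D) (S : Finset V) {C : Finset V}
    (hC : C ∈ 𝒞) : C ⊆ rnd 𝒞 S ∨ Disjoint C (rnd 𝒞 S) := by
  classical
  have hm : ∀ v ∈ C, (v ∈ 𝒞.biUnion (small S) ↔ v ∈ small S C) := by
    intro v hv
    rw [mem_biUnion]
    constructor
    · rintro ⟨D, hD, h1⟩
      by_cases hDC : D = C
      · exact hDC ▸ h1
      · exact absurd hv (Finset.disjoint_left.1 (hd D hD C hC hDC) (small_subset S D h1))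
    · exact fun h1 => ⟨C, hC, h1⟩
  by_cases h1 : 2 * (C ∩ S).card ≤ C.card
  · right
    rw [Finset.disjoint_left]
    intro v hv hv2
    unfold rnd at hv2
    rw [mem_symmDiff, hm v hv] at hv2
    unfold small at hv2
    rw [if_pos h1, mem_inter] at hv2
    tauto
  · left
    intro v hv
    unfold rnd
    rw [mem_symmDiff, hm v hv]
    unfold small
    rw [if_neg h1, mem_sdiff]
    tauto

end round

end Pool.Agent.K5
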