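import Pool.Agent.Work.MP_974d84_co_k5.Defs5

/-!
# The isoperimetric function
-/

namespace Pool.Agent.K5

/-- `gf` is monotone. -/
theorem gf_mono {C : ℝ} (hC : 100 ≤ C) {a b : ℕ} (ha : 1 ≤ a) (hab : a ≤ b) : gf C a ≤ gf C b := by
  have ha' : (1 : ℝ) ≤ a := by exact_mod_cast ha
  have hab' : (a : ℝ) ≤ b := by exact_mod_cast hab
  have h1 : 0 ≤ Real.log a := Real.log_nonneg ha'
  have h2 : Real.log a ≤ Real.log b := Real.log_le_log (by linarith) hab'
  unfold gf
  refine min_le_min (by linarith) ?_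
  exact mul_le_mul_of_nonneg_left (pow_le_pow_left₀ (by linarith) (by linarith) 2) (by linarith)

/-- The square of `1 + log` grows more slowly than the identity. -/
theorem sq_log_ratio {x y : ℝ} (hx : Real.exp 1 ≤ x) (hxy : x ≤ y) :
    x * (1 + Real.log y) ^ 2 ≤ y * (1 + Real.log x) ^ 2 := by
  have hx0 : 0 < x := lt_of_lt_of_le (Real.exp_pos 1) hx
  have hy0 : 0 < y := lt_of_lt_of_le hx0 hxy
  have hlx : 1 ≤ Real.log x := by
    rw [Real.le_log_iff_exp_le hx0]
    exact hx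
  have ht1 : 1 ≤ y / x := by rwa [le_div_iff₀ hx0, one_mul]
  have hs1 : 1 ≤ Real.sqrt (y / x) := by
    rw [show (1 : ℝ) = Real.sqrt 1 by rw [Real.sqrt_one]]
    exact Real.sqrt_le_sqrt ht1
  have hss : Real.sqrt (y / x) ^ 2 = y / x := Real.sq_sqrt (by linarith)
  have hlog : Real.log (y / x) ≤ 2 * (Real.sqrt (y / x) - 1) := by
    have h1 : Real.log (y / x) = 2 * Real.log (Real.sqrt (y / x)) := by
      conv_lhs => rw [← hss]
      rw [Real.log_pow]
      norm_num
    rw [h1]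
    have := Real.log_le_sub_one_of_pos (lt_of_lt_of_le one_pos hs1)
    linarith
  have hy : Real.log y = Real.log x + Real.log (y / x) := by
    rw [Real.log_div hy0.ne' hx0.ne']
    ring
  have h2 : 1 + Real.log y ≤ (1 + Real.log x) * Real.sqrt (y / x) := by
    rw [hy]
    nlinarith
  have h3 : 0 ≤ 1 + Real.log y := by
    have : 0 ≤ Real.log (y / x) := Real.log_nonneg ht1
    rw [hy]
    linarith
  have h4 : (1 + Real.log y) ^ 2 ≤ ((1 + Real.log x) * Real.sqrt (y / x)) ^ 2 :=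
    pow_le_pow_left₀ h3 h2 2
  rw [mul_pow, hss] at h4
  calc x * (1 + Real.log y) ^ 2 ≤ x * ((1 + Real.log x) ^ 2 * (y / x)) :=
        mul_le_mul_of_nonneg_left h4 hx0.le
    _ = y * (1 + Real.log x) ^ 2 := by field_simp

/-- `gf C a / a` is nonincreasing. -/
theorem gf_ratio {C : ℝ} (hC : 100 ≤ C) {a b : ℕ} (ha : 1 ≤ a) (hab : a ≤ b) :
    (a : ℝ) * gf C b ≤ b * gf C a := by
  have ha' : (1 : ℝ) ≤ a := by exact_mod_cast ha
  have hab' : (a : ℝ) ≤ b := by exact_mod_cast hab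
  have hla : 0 ≤ Real.log a := Real.log_nonneg ha'
  by_cases h : (a : ℝ) + 2 ≤ C * (1 + Real.log a) ^ 2
  · have h1 : gf C a = a + 2 := min_eq_left h
    have h2 : gf C b ≤ b + 2 := min_le_left _ _
    rw [h1]
    have h3 : (a : ℝ) * gf C b ≤ a * (b + 2) := mul_le_mul_of_nonneg_left h2 (by linarith)
    linarith
  · have h' : C * (1 + Real.log a) ^ 2 < a + 2 := not_le.1 h
    have h1 : gf C a = C * (1 + Real.log a) ^ 2 := min_eq_right h'.le
    have h2 : gf C b ≤ C * (1 + Real.log b) ^ 2 := min_le_right _ _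
    have h3 : (3 : ℝ) ≤ a := by
      have h4 : (1 : ℝ) ≤ (1 + Real.log a) ^ 2 := by nlinarith
      nlinarith
    have h5 : Real.exp 1 ≤ a := by
      have := Real.exp_one_lt_d9
      linarith
    have h6 := sq_log_ratio h5 hab'
    rw [h1]
    calc (a : ℝ) * gf C b ≤ a * (C * (1 + Real.log b) ^ 2) :=
          mul_le_mul_of_nonneg_left h2 (by linarith)
      _ = C * (a * (1 + Real.log b) ^ 2) := by ring
      _ ≤ C * (b * (1 + Real.log a) ^ 2) := mul_le_mul_of_nonneg_left h6 (by linarith)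
      _ = b * (C * (1 + Real.log a) ^ 2) := by ring

/-- `gf` is subadditive. -/
theorem gf_subadd {C : ℝ} (hC : 100 ≤ C) {a b : ℕ} (ha : 1 ≤ a) (hb : 1 ≤ b) :
    gf C (a + b) ≤ gf C a + gf C b := by
  have ha' : (1 : ℝ) ≤ a := by exact_mod_cast ha
  have hb' : (1 : ℝ) ≤ b := by exact_mod_cast hb
  have h1 := gf_ratio hC ha (Nat.le_add_right a b)
  have h2 := gf_ratio hC hb (Nat.le_add_left b a)
  push_cast at h1 h2
  have h3 : ((a : ℝ) + b) * gf C (a + b) ≤ ((a : ℝ) + b) * (gf C a + gf C b) := by linarith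
  exact le_of_mul_le_mul_left h3 (by linarith)

/-- `gf` is at least three. -/
theorem three_le_gf {C : ℝ} (hC : 100 ≤ C) {a : ℕ} (ha : 1 ≤ a) : 3 ≤ gf C a := by
  have ha' : (1 : ℝ) ≤ a := by exact_mod_cast ha
  have hla : 0 ≤ Real.log a := Real.log_nonneg ha'
  refine le_min (by linarith) ?_
  have h4 : (1 : ℝ) ≤ (1 + Real.log a) ^ 2 := by nlinarith
  nlinarith

end Pool.Agent.K5
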