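import Mathlib
import Pool.Agent.Work.MP_974d84_co_k5.Cores
import Pool.Agent.Work.MP_974d84_co_k5.Gf
import Pool.Agent.Work.MP_974d84_co_k5.CoreNum

/-!
# Facts about cores: ratio, light, half
-/

set_option linter.unusedSectionVars false

namespace Pool.Agent.K5

open Finset SimpleGraph Pool.Agent.Exp Pool.Agent.Log5 Pool.Agent.Log5.Clu

variable {V : Type} [Fintype V] [DecidableEq V] {G : SimpleGraph V} [DecidableRel G.Adj]

/-! ### The number of edges between two sets -/

theorem ee_sum (A B : Finset V) : ee G A B = ∑ u ∈ A, (B.filter fun v => G.Adj u v).card := by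
  classical
  unfold ee
  rw [card_filter, ← univ_product_univ, sum_product]
  have h1 : ∀ u : V, (∑ v, if u ∈ A ∧ v ∈ B ∧ G.Adj u v then 1 else 0) =
      if u ∈ A then (B.filter fun v => G.Adj u v).card else 0 := by
    intro u
    by_cases hu : u ∈ A
    · rw [if_pos hu, card_filter]
      rw [← sum_subset (subset_univ B)]
      · refine sum_congr rfl fun v hv => ?_
        simp [hu, hv]
      · intro v _ hv
        simp [hv]
    · simp [hu]
  simp only [h1]
  rw [sum_ite_mem, univ_inter]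

theorem ee_interedges (A B : Finset V) : ee G A B = (G.interedges A B).card := by
  unfold ee
  congr 1
  ext p
  simp [mem_interedges_iff]

theorem dd_ee (A : Finset V) : dd G A = ee G A Aᶜ := by
  rw [ee_interedges, dd_interedges]

theorem ee_comm (A B : Finset V) : ee G A B = ee G B A := by
  rw [ee_interedges, ee_interedges]
  refine card_bij' (fun p _ => (p.2, p.1)) (fun p _ => (p.2, p.1)) ?_ ?_ ?_ ?_
  · intro p hp
    rw [mem_interedges_iff] at hp ⊢
    exact ⟨hp.2.1, hp.1, hp.2.2.symm⟩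
  · intro p hp
    rw [mem_interedges_iff] at hp ⊢
    exact ⟨hp.2.1, hp.1, hp.2.2.symm⟩
  · intro p _; rfl
  · intro p _; rfl

theorem ee_union_left {A B : Finset V} (h : Disjoint A B) (D : Finset V) :
    ee G (A ∪ B) D = ee G A D + ee G B D := by
  rw [ee_sum, ee_sum, ee_sum, sum_union h]

theorem ee_union_right {A B : Finset V} (h : Disjoint A B) (D : Finset V) :
    ee G D (A ∪ B) = ee G D A + ee G D B := by
  rw [ee_comm, ee_union_left h, ee_comm A, ee_comm B]

theorem ee_mono {A A' B B' : Finset V} (hA : A ⊆ A') (hB : B ⊆ B') :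
    ee G A B ≤ ee G A' B' := by
  unfold ee
  refine card_le_card fun p hp => ?_
  simp only [mem_filter, mem_univ, true_and] at hp ⊢
  exact ⟨hA hp.1, hB hp.2.1, hp.2.2⟩

theorem ee_biUnion_left {ι : Type*} [DecidableEq ι] (s : Finset ι) (A : ι → Finset V)
    (h : ∀ i ∈ s, ∀ j ∈ s, i ≠ j → Disjoint (A i) (A j)) (D : Finset V) :
    ee G (s.biUnion A) D = ∑ i ∈ s, ee G (A i) D := by
  rw [ee_sum, sum_biUnion fun i hi j hj hij => h i hi j hj hij]
  exact sum_congr rfl fun i _ => (ee_sum _ _).symm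

theorem dd_inner {S A : Finset V} (hA : A ⊆ S) : dd G A = ee G A (S \ A) + ee G A Sᶜ := by
  rw [dd_ee, ← ee_union_right]
  · congr 1
    ext v
    simp only [mem_compl, mem_union, mem_sdiff]
    constructor
    · intro h1
      by_cases h2 : v ∈ S
      · exact Or.inl ⟨h2, h1⟩
      · exact Or.inr h2
    · rintro (h1 | h1) h2
      · exact h1.2 h2
      · exact h1 (hA h2)
  · rw [Finset.disjoint_left]
    intro v h1 h2
    exact (mem_compl.1 h2) (mem_sdiff.1 h1).1

/-- The leaving edges of the two parts of a set. -/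
theorem dd_parts {S A : Finset V} (hA : A ⊆ S) :
    dd G S + ee G A (S \ A) = dd G (S \ A) + ee G A Sᶜ := by
  have h1 : dd G S = ee G A Sᶜ + ee G (S \ A) Sᶜ := by
    rw [dd_ee, ← ee_union_left disjoint_sdiff, union_sdiff_of_subset hA]
  have h2 := dd_inner (G := G) (S := S) (A := S \ A) sdiff_subset
  rw [sdiff_sdiff_right_self, inf_eq_inter, inter_eq_right.2 hA, ee_comm] at h2
  omega

/-! ### The facts -/

section

variable {C : ℝ} {r : ℕ} {S : Fin r → Finset V}

theorem ratio_of (hC : 100 ≤ C) (hS : Cores G C S) {i : Fin r} {A : Finset V} (hA : A ⊆ S i)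
    (hA3 : 3 * A.card ≤ 2 * (S i).card)
    (hd : 1 ≤ A.card → gf C (S i).card - gf C ((S i).card - A.card) ≤ gf C A.card / 10) :
    100 * ee G A (S i)ᶜ ≤ 123 * ee G A (S i \ A) := by
  rcases A.eq_empty_or_nonempty with rfl | hA0
  · rw [ee_sum, sum_empty]
    omega
  have hc1 := hA0.card_pos
  have hcard : (S i \ A).card = (S i).card - A.card := card_sdiff_of_subset hA
  have hne : A ≠ S i := fun h => by rw [h] at hA3 hc1; omega
  have hU0 : (S i \ A).Nonempty := by
    rw [← card_pos, hcard]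
    omega
  have h1 : gf C (S i \ A).card ≤ dd G (S i \ A) := by
    refine hS.sub i _ ⟨sdiff_subset, fun h => ?_⟩ hU0
    obtain ⟨v, hv⟩ := hA0
    exact (mem_sdiff.1 (h (hA hv))).2 hv
  have h2 : gf C A.card ≤ dd G A :=
    hS.sub i _ (ssubset_of_subset_of_ne hA hne) hA0
  have h3 := hS.viol i
  have h4 := hd hc1
  rw [hcard] at h1
  have h5 : (dd G (S i) : ℝ) + ee G A (S i \ A) = dd G (S i \ A) + ee G A (S i)ᶜ := by
    exact_mod_cast dd_parts hA
  have h6 : (dd G A : ℝ) = ee G A (S i \ A) + ee G A (S i)ᶜ := by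
    exact_mod_cast dd_inner hA
  have h7 : (0 : ℝ) ≤ ee G A (S i \ A) := Nat.cast_nonneg _
  have h8 : (100 : ℝ) * ee G A (S i)ᶜ ≤ 123 * ee G A (S i \ A) := by linarith
  exact_mod_cast h8

theorem light_of (hC : 100 ≤ C) (hS : Cores G C S) (X : Finset V) (hX : X.Nonempty)
    (hX3 : ∀ j, 3 * (X ∩ S j).card ≤ 2 * (S j).card)
    (hr : ∀ j, 100 * ee G (X ∩ S j) (S j)ᶜ ≤ 123 * ee G (X ∩ S j) (S j \ (X ∩ S j))) :
    gf C X.card ≤ 4 * dd G X := by
  classical
  set U : Finset V := univ.biUnion S with hU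
  set Y : Finset V := X \ U with hY
  set Z : Finset V := univ.biUnion fun j => X ∩ S j with hZ
  set h : ℕ → ℝ := fun a => if a = 0 then 0 else gf C a with hh
  have hsub : ∀ a b : ℕ, h (a + b) ≤ h a + h b := by
    intro a b
    simp only [hh]
    by_cases ha : a = 0
    · simp [ha]
    · by_cases hb : b = 0
      · simp [hb]
      · rw [if_neg ha, if_neg hb, if_neg (by omega)]
        exact gf_subadd hC (by omega) (by omega)
  have hdis : ∀ i ∈ (univ : Finset (Fin r)), ∀ j ∈ (univ : Finset (Fin r)), i ≠ j →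
      Disjoint (X ∩ S i) (X ∩ S j) := fun i _ j _ hij =>
    (hS.disj i j hij).mono inter_subset_right inter_subset_right
  have hZY : Disjoint Z Y := by
    rw [Finset.disjoint_left]
    intro v h1 h2
    obtain ⟨j, -, h3⟩ := mem_biUnion.1 h1
    exact (mem_sdiff.1 h2).2 (mem_biUnion.2 ⟨j, mem_univ _, (mem_inter.1 h3).2⟩)
  have hXZY : X = Z ∪ Y := by
    ext v
    simp only [hZ, hY, hU, mem_union, mem_biUnion, mem_univ, true_and, mem_inter, mem_sdiff]
    constructor
    · intro h1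
      by_cases h2 : ∃ j, v ∈ S j
      · obtain ⟨j, hj⟩ := h2
        exact Or.inl ⟨j, h1, hj⟩
      · exact Or.inr ⟨h1, h2⟩
    · rintro (⟨j, h1, -⟩ | h1)
      · exact h1
      · exact h1.1
  -- the cardinalities
  have hcard : X.card = ∑ j, (X ∩ S j).card + Y.card := by
    conv_lhs => rw [hXZY]
    rw [card_union_of_disjoint hZY, hZ, card_biUnion hdis]
  have hg : gf C X.card ≤ ∑ j, h (X ∩ S j).card + h Y.card := by
    have h1 : gf C X.card = h X.card := by
      simp only [hh]
      rw [if_neg hX.card_pos.ne']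
    rw [h1, hcard]
    refine (hsub _ _).trans ?_
    have h2 := Finset.le_sum_of_subadditive h (by simp [hh]) hsub univ fun j => (X ∩ S j).card
    linarith
  -- the leaving edges
  have e1 : ∑ j, ee G (X ∩ S j) (S j \ (X ∩ S j)) + ee G Y Xᶜ ≤ dd G X := by
    have h1 : dd G X = ∑ j, ee G (X ∩ S j) Xᶜ + ee G Y Xᶜ := by
      rw [dd_ee]
      conv_lhs => rw [show ee G X Xᶜ = ee G (Z ∪ Y) Xᶜ by rw [← hXZY]]
      rw [ee_union_left hZY, hZ, ee_biUnion_left _ _ hdis]
    rw [h1]
    refine Nat.add_le_add_right (sum_le_sum fun j _ => ee_mono (Subset.refl _) ?_) _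
    intro v hv
    rw [mem_sdiff, mem_inter] at hv
    rw [mem_compl]
    exact fun h2 => hv.2 ⟨h2, hv.1⟩
  have e2 : dd G Y ≤ ∑ j, ee G (X ∩ S j) (S j)ᶜ + ee G Y Xᶜ := by
    have h1 : Yᶜ = Z ∪ Xᶜ := by
      ext v
      simp only [hZ, hY, hU, mem_compl, mem_union, mem_biUnion, mem_univ, true_and, mem_inter,
        mem_sdiff]
      constructor
      · intro h1
        by_cases h2 : v ∈ X
        · by_cases h3 : ∃ j, v ∈ S j
          · obtain ⟨j, hj⟩ := h3
            exact Or.inl ⟨j, h2, hj⟩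
          · exact absurd ⟨h2, h3⟩ h1
        · exact Or.inr h2
      · rintro (⟨j, h1, h2⟩ | h1) h3
        · exact h3.2 ⟨j, h2⟩
        · exact h1 h3.1
    have h2 : Disjoint Z Xᶜ := by
      rw [Finset.disjoint_left]
      intro v h1 h2
      obtain ⟨j, -, h3⟩ := mem_biUnion.1 h1
      exact (mem_compl.1 h2) (mem_inter.1 h3).1
    rw [dd_ee, h1, ee_union_right h2, ee_comm Y Z, hZ, ee_biUnion_left _ _ hdis]
    refine Nat.add_le_add_right (sum_le_sum fun j _ => ee_mono (Subset.refl _) ?_) _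
    intro v hv
    rw [mem_compl]
    exact fun h3 => (mem_sdiff.1 hv).2 (mem_biUnion.2 ⟨j, mem_univ _, h3⟩)
  have e3 : ∀ j, h (X ∩ S j).card ≤
      (ee G (X ∩ S j) (S j \ (X ∩ S j)) : ℝ) + ee G (X ∩ S j) (S j)ᶜ := by
    intro j
    simp only [hh]
    by_cases h1 : (X ∩ S j).card = 0
    · rw [if_pos h1]
      positivity
    · rw [if_neg h1]
      have h2 : (X ∩ S j).Nonempty := card_pos.1 (Nat.pos_of_ne_zero h1)
      have h3 : X ∩ S j ≠ S j := fun h4 => by
        have h5 := hX3 j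
        rw [h4] at h5 h1
        omega
      have h4 := hS.sub j _ (ssubset_of_subset_of_ne inter_subset_right h3) h2
      rw [dd_inner (inter_subset_right : X ∩ S j ⊆ S j)] at h4
      exact_mod_cast h4
  have e4 : h Y.card ≤ dd G Y := by
    simp only [hh]
    by_cases h1 : Y.card = 0
    · rw [if_pos h1]
      positivity
    · rw [if_neg h1]
      refine hS.out Y (card_pos.1 (Nat.pos_of_ne_zero h1)) fun i => ?_
      rw [Finset.disjoint_left]
      intro v h2 h3
      exact (mem_sdiff.1 h2).2 (mem_biUnion.2 ⟨i, mem_univ _, h3⟩)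
  have e5 : ∑ j, h (X ∩ S j).card ≤
      ∑ j, (ee G (X ∩ S j) (S j \ (X ∩ S j)) : ℝ) + ∑ j, (ee G (X ∩ S j) (S j)ᶜ : ℝ) := by
    rw [← sum_add_distrib]
    exact sum_le_sum fun j _ => e3 j
  have e6 : (100 : ℝ) * ∑ j, (ee G (X ∩ S j) (S j)ᶜ : ℝ) ≤
      123 * ∑ j, (ee G (X ∩ S j) (S j \ (X ∩ S j)) : ℝ) := by
    rw [mul_sum, mul_sum]
    exact sum_le_sum fun j _ => by exact_mod_cast hr j
  have e7 : (∑ j, (ee G (X ∩ S j) (S j \ (X ∩ S j)) : ℝ)) + ee G Y Xᶜ ≤ dd G X := by
    exact_mod_cast e1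
  have e8 : (dd G Y : ℝ) ≤ ∑ j, (ee G (X ∩ S j) (S j)ᶜ : ℝ) + ee G Y Xᶜ := by
    exact_mod_cast e2
  have e9 : (0 : ℝ) ≤ ee G Y Xᶜ := Nat.cast_nonneg _
  have e10 : (0 : ℝ) ≤ ∑ j, (ee G (X ∩ S j) (S j \ (X ∩ S j)) : ℝ) :=
    sum_nonneg fun j _ => Nat.cast_nonneg _
  linarith

theorem half_of (hC : 100 ≤ C) (h3 : ∀ v, G.degree v = 3) (hS : Cores G C S) {i : Fin r}
    (hn : 8 ≤ (S i).card) {A : Finset V} (hA : A ⊆ S i) (hA2 : (S i).card ≤ 2 * A.card) :
    gf C (S i).card ≤ 10 * dd G A := by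
  classical
  by_cases hne : A = S i
  · rw [hne]
    obtain ⟨v, hv⟩ : (S i).Nonempty := card_pos.1 (by omega)
    have hc : ((S i).erase v).card = (S i).card - 1 := card_erase_of_mem hv
    have h1 : gf C ((S i).erase v).card ≤ dd G ((S i).erase v) := by
      refine hS.sub i _ ⟨erase_subset v _, fun h => ?_⟩ (card_pos.1 (by omega))
      exact notMem_erase v _ (h hv)
    have h2 : dd G ((S i).erase v) ≤ dd G (S i) + 6 := by
      have h4 : Disjoint {v} ((S i).erase v) := by
        rw [disjoint_singleton_left]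
        exact notMem_erase v _
      have h5 := dd_union (G := G) h4
      have h6 : {v} ∪ (S i).erase v = S i := by
        rw [← insert_eq, insert_erase hv]
      rw [h6, ← ee_interedges, ee_sum, sum_singleton] at h5
      have h7 : (((S i).erase v).filter fun w => G.Adj v w).card ≤ 3 := by
        rw [← h3 v, ← card_neighborFinset_eq_degree]
        refine card_le_card fun w hw => ?_
        rw [mem_neighborFinset]
        exact (mem_filter.1 hw).2
      omega
    have h4 : gf C (S i).card ≤ gf C ((S i).card - 1) + gf C 1 := by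
      have := gf_subadd hC (a := (S i).card - 1) (b := 1) (by omega) le_rfl
      rwa [show (S i).card - 1 + 1 = (S i).card by omega] at this
    have h5 : gf C 1 ≤ 3 := by
      refine (gf_le' C 1).trans ?_
      norm_num
    have h6 : (10 : ℝ) ≤ gf C (S i).card := by
      unfold gf
      rw [le_min_iff]
      constructor
      · have : (8 : ℝ) ≤ (S i).card := by exact_mod_cast hn
        linarith
      · have h7 : 0 ≤ Real.log (S i).card := Real.log_nonneg (by exact_mod_cast (by omega))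
        have h8 : 1 ≤ (1 + Real.log (S i).card) ^ 2 := one_le_pow₀ (by linarith)
        nlinarith
    have h2' : (dd G ((S i).erase v) : ℝ) ≤ dd G (S i) + 6 := by exact_mod_cast h2
    rw [hc] at h1
    have h7 : (1 : ℝ) ≤ dd G (S i) := by linarith
    linarith
  · have h1 : gf C A.card ≤ dd G A :=
      hS.sub i _ (ssubset_of_subset_of_ne hA hne) (card_pos.1 (by omega))
    have h2 : gf C (S i).card ≤ gf C (2 * A.card) := gf_mono hC (by omega) hA2
    have h4 : gf C (2 * A.card) ≤ gf C A.card + gf C A.card := by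
      rw [two_mul]
      exact gf_subadd hC (by omega) (by omega)
    have h5 : (0 : ℝ) ≤ dd G A := Nat.cast_nonneg _
    linarith

end

/-- The facts `ratio`, `light` and `half`. -/
theorem facts_A {C : ℝ} (hC : 100 ≤ C) : ∃ k₁ : ℕ, ∀ k, k₁ ≤ k → ∀ {V : Type} [Fintype V]
    [DecidableEq V] (G : SimpleGraph V) [DecidableRel G.Adj], (∀ v, G.degree v = 3) →
    ∀ {r : ℕ} (S : Fin r → Finset V), Cores G C S → (∀ i, k ≤ (S i).card) →
    (∀ i, ∀ A ⊆ S i, 3 * A.card ≤ 2 * (S i).card →
      100 * ee G A (S i)ᶜ ≤ 123 * ee G A (S i \ A)) ∧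
    (∀ X : Finset V, X.Nonempty → (∀ j, 3 * (X ∩ S j).card ≤ 2 * (S j).card) →
      gf C X.card ≤ 4 * dd G X) ∧
    (∀ i, ∀ A ⊆ S i, (S i).card ≤ 2 * A.card → gf C (S i).card ≤ 10 * dd G A) := by
  obtain ⟨k₁, hk₁, hd⟩ := gf_diff hC
  refine ⟨k₁ + 8, fun k hk V _ _ G _ h3 r S hS hl => ?_⟩
  have hr : ∀ i, ∀ A ⊆ S i, 3 * A.card ≤ 2 * (S i).card →
      100 * ee G A (S i)ᶜ ≤ 123 * ee G A (S i \ A) := by
    intro i A hA hA3
    have h1 := hl i
    exact ratio_of hC hS hA hA3 fun h2 => hd _ _ (by omega) h2 hA3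
  refine ⟨hr, fun X hX hX3 => light_of hC hS X hX hX3 fun j => hr j _ inter_subset_right (hX3 j),
    fun i A hA hA2 => ?_⟩
  have h1 := hl i
  exact half_of hC h3 hS (by omega) hA hA2

end Pool.Agent.K5
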