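import Mathlib
import Pool.Agent.Work.MP_974d84_co.Hoffman
import Pool.Agent.Work.MP_974d84_co_k5.CoreFactsA

/-!
# Hoffman's theorem with a boundary, modulo five

`P` is a set of vertices, every vertex of `P` has three neighbours in `P` or two neighbours in `P`
and a nonzero boundary value `φ v` (leaving `P`). Signs `x` on `P` with
`|x(Y) + q(Y)| ≤ (3 / 5) e(Y, P \ Y)`, `q = (2 / 5) (φ - 5 / 2)`, give a nowhere-zero flow modulo
five on `P` with this boundary.
-/

set_option linter.unusedSectionVars false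

namespace Pool.Agent.K5

open Finset SimpleGraph Pool.Agent.Exp Pool.Agent.Log5 Pool.Agent.Log5.Clu

/-- The charge of a boundary value. -/
noncomputable def q5 (a : ZMod 5) : ℝ := if a = 0 then 0 else (2 * (a.val : ℝ) - 5) / 5

/-- Twice the charge, times five over two, an integer. -/
def hq (a : ZMod 5) : ℤ := if a = 0 then 0 else 2 * (a.val : ℤ) - 5

theorem q5_eq (a : ZMod 5) : q5 a = (hq a : ℝ) / 5 := by
  unfold q5 hq
  split_ifs
  · simp
  · push_cast
    ring

variable {V : Type} [Fintype V] [DecidableEq V] {G : SimpleGraph V} [DecidableRel G.Adj]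

section

variable (G) (P : Finset V) (σ : V → V → ℤ)

/-- The capacities. -/
def capH (v w : V) : ℤ := if v ∈ P ∧ w ∈ P ∧ G.Adj v w then (3 - σ v w) / 2 else 0

end

/-- An antisymmetric sign on pairs. -/
theorem exists_sgn (V : Type) [Fintype V] : ∃ σ : V → V → ℤ, (∀ v w, v ≠ w → σ v w = - σ w v) ∧
    ∀ v w, σ v w = 1 ∨ σ v w = -1 := by
  classical
  let e := Fintype.equivFin V
  refine ⟨fun v w => if e v < e w then 1 else -1, fun v w hvw => ?_, fun v w => ?_⟩
  · have h1 : e v ≠ e w := fun h => hvw (e.injective h)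
    rcases lt_or_gt_of_ne h1 with h | h
    · simp only [if_pos h, if_neg (not_lt_of_gt h)]
      norm_num
    · simp only [if_pos h, if_neg (not_lt_of_gt h)]
  · by_cases h : e v < e w
    · exact Or.inl (if_pos h)
    · exact Or.inr (if_neg h)

/-- **Hoffman's theorem with a boundary, modulo five.** -/
theorem ext_hoff (P : Finset V) (φ : V → ZMod 5)
    (hdeg : ∀ v ∈ P, (P.filter fun w => G.Adj v w).card = if φ v = 0 then 3 else 2)
    (x : V → ℤ) (hx : ∀ v ∈ P, x v = 1 ∨ x v = -1)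
    (hcut : ∀ Y ⊆ P, |∑ v ∈ Y, ((x v : ℝ) + q5 (φ v))| ≤ 3 / 5 * ee G Y (P \ Y)) :
    ∃ f : V → V → ZMod 5, (∀ v w, f v w = - f w v) ∧
      (∀ v w, ¬ (v ∈ P ∧ w ∈ P ∧ G.Adj v w) → f v w = 0) ∧
      (∀ v ∈ P, ∀ w ∈ P, G.Adj v w → f v w ≠ 0) ∧
      ∀ v ∈ P, ∑ w, f v w + φ v = 0 := by
  classical
  obtain ⟨σ, hσa, hσ1⟩ := exists_sgn V
  -- the signs on the inner edges
  let I : V → V → Prop := fun v w => v ∈ P ∧ w ∈ P ∧ G.Adj v w
  have hIs : ∀ v w, I v w ↔ I w v := fun v w =>
    ⟨fun h => ⟨h.2.1, h.1, h.2.2.symm⟩, fun h => ⟨h.2.1, h.1, h.2.2.symm⟩⟩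
  let s : V → V → ℤ := fun v w => if I v w then σ v w else 0
  have hs : MP974d84.Anti s := by
    intro v w
    by_cases h : I v w
    · simp only [s, if_pos h, if_pos ((hIs v w).1 h)]
      exact hσa v w h.2.2.ne
    · simp only [s, if_neg h, if_neg (fun h' => h ((hIs v w).2 h'))]
      norm_num
  -- the degree inside `P`
  have hdegI : ∀ v ∈ P, ∑ w, (if I v w then (1 : ℤ) else 0) = if φ v = 0 then 3 else 2 := by
    intro v hv
    have h1 := hdeg v hv
    have h2 : (univ.filter fun w => I v w) = P.filter fun w => G.Adj v w := by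
      ext w
      simp [I, hv]
    rw [← sum_filter, sum_const, h2, h1]
    split_ifs <;> simp
  -- parity
  have hpar : ∀ v, ∃ k : ℤ, 2 * k = if v ∈ P then
      -5 * x v - hq (φ v) - ∑ w, s v w else 0 := by
    intro v
    by_cases hv : v ∈ P
    · rw [if_pos hv]
      have h1 : ∃ m : ℤ, ∑ w, s v w = (∑ w, if I v w then (1 : ℤ) else 0) + 2 * m := by
        have h2 : ∀ w, ∃ m : ℤ, s v w = (if I v w then (1 : ℤ) else 0) + 2 * m := by
          intro w
          by_cases h : I v w
          · rcases hσ1 v w with h3 | h3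
            · exact ⟨0, by simp only [s, if_pos h, h3]; norm_num⟩
            · exact ⟨-1, by simp only [s, if_pos h, h3]; norm_num⟩
          · exact ⟨0, by simp only [s, if_neg h]; norm_num⟩
        choose m hm using h2
        exact ⟨∑ w, m w, by rw [mul_sum, ← sum_add_distrib]; exact sum_congr rfl fun w _ => hm w⟩
      obtain ⟨m, hm⟩ := h1
      rw [hdegI v hv] at hm
      rw [hm]
      have h3 : ∃ j : ℤ, x v = 1 + 2 * j := by
        rcases hx v hv with h | h
        · exact ⟨0, by rw [h]; norm_num⟩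
        · exact ⟨-1, by rw [h]; norm_num⟩
      obtain ⟨j, hj⟩ := h3
      by_cases h0 : φ v = 0
      · refine ⟨-4 - 5 * j - m, ?_⟩
        simp only [hq, if_pos h0, hj]
        ring
      · refine ⟨-1 - 5 * j - (φ v).val - m, ?_⟩
        simp only [hq, if_neg h0, hj]
        ring
    · exact ⟨0, by rw [if_neg hv]; norm_num⟩
  choose d hd using hpar
  have hdP : ∀ v ∈ P, 2 * d v = -5 * x v - hq (φ v) - ∑ w, s v w := fun v hv => by
    rw [hd v, if_pos hv]
  have hdN : ∀ v, v ∉ P → d v = 0 := fun v hv => by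
    have := hd v
    rw [if_neg hv] at this
    omega
  -- sums over subsets of `P`
  have hsumP : ∀ Y ⊆ P, 2 * ∑ v ∈ Y, d v = -(∑ v ∈ Y, (5 * x v + hq (φ v))) -
      ∑ v ∈ Y, ∑ w ∈ P \ Y, s v w := by
    intro Y hY
    have h1 : ∀ v, ∑ w, s v w = ∑ w ∈ Y, s v w + ∑ w ∈ P \ Y, s v w := by
      intro v
      rw [← sum_union disjoint_sdiff, union_sdiff_of_subset hY]
      symm
      refine sum_subset (subset_univ P) fun w _ hw => ?_
      exact if_neg fun h => hw h.2.1
    rw [mul_sum]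
    have h2 : ∑ v ∈ Y, 2 * d v = ∑ v ∈ Y, (-(5 * x v + hq (φ v)) - ∑ w ∈ P \ Y, s v w) -
        ∑ v ∈ Y, ∑ w ∈ Y, s v w := by
      rw [← sum_sub_distrib]
      refine sum_congr rfl fun v hv => ?_
      rw [hdP v (hY hv), h1 v]
      ring
    rw [h2, MP974d84.anti_inner hs Y, sum_sub_distrib, sum_neg_distrib]
    ring
  -- the cut condition over the integers
  have hcutZ : ∀ Y ⊆ P, |∑ v ∈ Y, (5 * x v + hq (φ v))| ≤ 3 * (ee G Y (P \ Y) : ℤ) := by
    intro Y hY
    have h1 := hcut Y hY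
    have h2 : ∑ v ∈ Y, ((x v : ℝ) + q5 (φ v)) =
        ((∑ v ∈ Y, (5 * x v + hq (φ v)) : ℤ) : ℝ) / 5 := by
      push_cast
      rw [sum_div]
      refine sum_congr rfl fun v _ => ?_
      rw [q5_eq]
      ring
    rw [h2, abs_div, abs_of_pos (by norm_num : (0 : ℝ) < 5)] at h1
    have h3 : ((|∑ v ∈ Y, (5 * x v + hq (φ v))| : ℤ) : ℝ) ≤ ((3 * (ee G Y (P \ Y) : ℤ) : ℤ) : ℝ) := by
      push_cast at h1 ⊢
      linarith
    exact_mod_cast h3
  have heeI : ∀ Y ⊆ P, (ee G Y (P \ Y) : ℤ) = ∑ v ∈ Y, ∑ w ∈ P \ Y, if I v w then (1 : ℤ) else 0 := by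
    intro Y hY
    rw [ee_sum]
    push_cast
    refine sum_congr rfl fun v hv => ?_
    rw [card_filter]
    push_cast
    refine sum_congr rfl fun w hw => ?_
    have : G.Adj v w ↔ I v w := ⟨fun h => ⟨hY hv, (mem_sdiff.1 hw).1, h⟩, fun h => h.2.2⟩
    simp only [this]
  have hcs : ∀ Z : Finset V, 2 * MP974d84.cs (capH G P σ) Z =
      3 * (ee G (Z ∩ P) (P \ (Z ∩ P)) : ℤ) - ∑ v ∈ Z ∩ P, ∑ w ∈ P \ (Z ∩ P), s v w := by
    intro Z
    rw [heeI _ inter_subset_right, MP974d84.cs]
    have h1 : ∑ v ∈ Z, ∑ w ∈ Zᶜ, capH G P σ v w =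
        ∑ v ∈ Z ∩ P, ∑ w ∈ P \ (Z ∩ P), capH G P σ v w := by
      have h2 : ∀ v, ∑ w ∈ Zᶜ, capH G P σ v w = ∑ w ∈ P \ Z, capH G P σ v w := by
        intro v
        symm
        refine sum_subset (fun w hw => mem_compl.2 (mem_sdiff.1 hw).2) fun w hw hw' => ?_
        refine if_neg fun h => hw' (mem_sdiff.2 ⟨h.2.1, mem_compl.1 hw⟩)
      have h3 : P \ (Z ∩ P) = P \ Z := by
        ext w
        simp only [mem_sdiff, mem_inter]
        tauto
      rw [h3]
      simp only [h2]
      symm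
      refine sum_subset inter_subset_left fun v hv hv' => ?_
      refine sum_eq_zero fun w _ => if_neg fun h => hv' (mem_inter.2 ⟨hv, h.1⟩)
    rw [h1, mul_sum, mul_sum, ← sum_sub_distrib]
    refine sum_congr rfl fun v _ => ?_
    rw [mul_sum, mul_sum, ← sum_sub_distrib]
    refine sum_congr rfl fun w _ => ?_
    unfold capH
    by_cases h : v ∈ P ∧ w ∈ P ∧ G.Adj v w
    · have h' : I v w := h
      simp only [s, if_pos h, if_pos h']
      rcases hσ1 v w with h4 | h4 <;> rw [h4] <;> norm_num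
    · have h' : ¬ I v w := h
      simp only [s, if_neg h, if_neg h']
      norm_num
  have htot : ∑ v, d v = 0 := by
    have h1 : ∑ v, d v = ∑ v ∈ P, d v := by
      symm
      exact sum_subset (subset_univ P) fun v _ hv => hdN v hv
    have h2 := hsumP P (Subset.refl P)
    have h3 := hcutZ P (Subset.refl P)
    rw [heeI P (Subset.refl P)] at h3
    have hPP : P \ P = ∅ := Finset.sdiff_self P
    rw [hPP] at h2 h3
    simp only [sum_empty, sum_const_zero, mul_zero] at h2 h3
    have h4 := abs_nonpos_iff.1 h3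
    rw [h1]
    omega
  have hcutd : ∀ Z : Finset V, ∑ v ∈ Z, d v ≤ MP974d84.cs (capH G P σ) Z := by
    intro Z
    have h1 : ∑ v ∈ Z, d v = ∑ v ∈ Z ∩ P, d v := by
      symm
      refine sum_subset inter_subset_left fun v hv hv' => hdN v fun h => hv' (mem_inter.2 ⟨hv, h⟩)
    have h2 := hsumP (Z ∩ P) inter_subset_right
    have h3 := hcutZ (Z ∩ P) inter_subset_right
    have h4 := hcs Z
    have h5 := neg_abs_le (∑ v ∈ Z ∩ P, (5 * x v + hq (φ v)))
    rw [h1]
    omega
  have hcap0 : ∀ v w, (0 : ℤ) ≤ capH G P σ v w := by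
    intro v w
    unfold capH
    split_ifs
    · rcases hσ1 v w with h4 | h4 <;> rw [h4] <;> norm_num
    · exact le_rfl
  obtain ⟨k, hkA, hku, hkd⟩ := MP974d84.hoffman (capH G P σ) d (fun _ _ => 0)
    (fun _ _ => by norm_num) hcap0 htot hcutd
  have hk0 : ∀ v w, ¬ I v w → k v w = 0 := by
    intro v w h
    have h1 := hku v w
    have h2 := hku w v
    have h3 := hkA v w
    have h4 : capH G P σ v w = 0 := if_neg h
    have h5 : capH G P σ w v = 0 := if_neg fun h' => h ((hIs v w).2 h')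
    omega
  -- the values
  let F : V → V → ℤ := fun v w => if I v w then k v w + (5 + σ v w) / 2 else 0
  have hF : ∀ v w, I v w → 1 ≤ F v w ∧ F v w ≤ 4 ∧ F v w + F w v = 5 ∧
      2 * F v w = 2 * k v w + 5 + s v w := by
    intro v w h
    have h' := (hIs v w).1 h
    have h1 := hku v w
    have h2 := hku w v
    have h3 := hkA v w
    have h4 : capH G P σ v w = (3 - σ v w) / 2 := if_pos h
    have h5 : capH G P σ w v = (3 - σ w v) / 2 := if_pos h'
    have h6 := hσa v w h.2.2.ne
    simp only [F, s, if_pos h, if_pos h']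
    rcases hσ1 v w with h7 | h7
    · have h8 : σ w v = -1 := by omega
      rw [h4, h7] at h1
      rw [h5, h8] at h2
      rw [h7, h8]
      norm_num at h1 h2 ⊢
      omega
    · have h8 : σ w v = 1 := by omega
      rw [h4, h7] at h1
      rw [h5, h8] at h2
      rw [h7, h8]
      norm_num at h1 h2 ⊢
      omega
  have hF0 : ∀ v w, ¬ I v w → F v w = 0 := fun v w h => if_neg h
  refine ⟨fun v w => ((F v w : ℤ) : ZMod 5), fun v w => ?_, fun v w h => ?_, fun v hv w hw h => ?_,
    fun v hv => ?_⟩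
  · by_cases h : I v w
    · have h1 := (hF v w h).2.2.1
      have h2 : ((F v w : ℤ) : ZMod 5) + ((F w v : ℤ) : ZMod 5) = 0 := by
        rw [← Int.cast_add, h1]
        rfl
      exact eq_neg_of_add_eq_zero_left h2
    · simp only [hF0 v w h, hF0 w v fun h' => h ((hIs v w).2 h')]
      simp
  · simp only [hF0 v w h]
    simp
  · have h1 := hF v w ⟨hv, hw, h⟩
    intro h2
    have h3 : (5 : ℤ) ∣ F v w := (ZMod.intCast_zmod_eq_zero_iff_dvd _ 5).1 h2
    omega
  · have h1 : ∑ w, ((F v w : ℤ) : ZMod 5) = ((∑ w, F v w : ℤ) : ZMod 5) := by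
      rw [Int.cast_sum]
    rw [h1]
    have h2 : 2 * ∑ w, F v w = 2 * d v + 5 * (∑ w, if I v w then (1 : ℤ) else 0) + ∑ w, s v w := by
      rw [← hkd v, MP974d84.dv, mul_sum, mul_sum, mul_sum, ← sum_add_distrib, ← sum_add_distrib]
      refine sum_congr rfl fun w _ => ?_
      by_cases h : I v w
      · rw [(hF v w h).2.2.2]
        simp only [if_pos h]
        ring
      · rw [hF0 v w h, hk0 v w h]
        simp only [s, if_neg h]
        norm_num
    rw [hdP v hv, hdegI v hv] at h2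
    by_cases h0 : φ v = 0
    · rw [if_pos h0] at h2
      have h3 : hq (φ v) = 0 := if_pos h0
      rw [h3] at h2
      rw [h0, add_zero]
      refine (ZMod.intCast_zmod_eq_zero_iff_dvd _ 5).2 ?_
      rcases hx v hv with h4 | h4 <;> rw [h4] at h2 <;> push_cast <;> omega
    · rw [if_neg h0] at h2
      have h3 : hq (φ v) = 2 * ((φ v).val : ℤ) - 5 := if_neg h0
      rw [h3] at h2
      have h5 : φ v = (((φ v).val : ℤ) : ZMod 5) := by
        rw [Int.cast_natCast, ZMod.natCast_zmod_val]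
      rw [h5, ← Int.cast_add]
      refine (ZMod.intCast_zmod_eq_zero_iff_dvd _ 5).2 ?_
      rcases hx v hv with h4 | h4 <;> rw [h4] at h2 <;> push_cast <;> omega

end Pool.Agent.K5
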