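import Mathlib

/-!
# Hoffman's theorem over the reals
-/

set_option linter.unusedSectionVars false

namespace Pool.Agent.K5

open Finset

section hoffman

variable {V : Type*} [Fintype V] [DecidableEq V]

theorem anti_inner {f : V → V → ℝ} (hf : ∀ a b, f a b = - f b a) (Z : Finset V) :
    ∑ v ∈ Z, ∑ w ∈ Z, f v w = 0 := by
  have h1 : ∑ v ∈ Z, ∑ w ∈ Z, f v w = ∑ v ∈ Z, ∑ w ∈ Z, f w v := sum_comm
  have h2 : ∑ v ∈ Z, ∑ w ∈ Z, f w v = - ∑ v ∈ Z, ∑ w ∈ Z, f v w := by
    rw [← sum_neg_distrib]
    refine sum_congr rfl fun v _ => ?_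
    rw [← sum_neg_distrib]
    exact sum_congr rfl fun w _ => hf w v
  linarith

theorem anti_cut {f : V → V → ℝ} (hf : ∀ a b, f a b = - f b a) (Z : Finset V) :
    ∑ v ∈ Z, ∑ w, f v w = ∑ v ∈ Z, ∑ w ∈ Zᶜ, f v w := by
  have : ∀ v, ∑ w, f v w = ∑ w ∈ Z, f v w + ∑ w ∈ Zᶜ, f v w := by
    intro v
    rw [← sum_add_sum_compl Z]
  simp only [this, sum_add_distrib, anti_inner hf Z, zero_add]

/-- **Hoffman's theorem** over the reals. -/
theorem hoffman_real (u : V → V → ℝ) (hu : ∀ a b, 0 ≤ u a b) (d : V → ℝ) (hd : ∑ v, d v = 0)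
    (hcut : ∀ Z : Finset V, ∑ v ∈ Z, d v ≤ ∑ v ∈ Z, ∑ w ∈ Zᶜ, u v w) :
    ∃ f : V → V → ℝ, (∀ a b, f a b = - f b a) ∧ (∀ a b, f a b ≤ u a b) ∧
      ∀ v, ∑ w, f v w = d v := by
  classical
  set K : Set (V → V → ℝ) := {f | (∀ a b, f a b = - f b a) ∧ ∀ a b, f a b ≤ u a b} with hK
  have hKne : (0 : V → V → ℝ) ∈ K := ⟨by simp, fun a b => hu a b⟩
  have hKcl : IsClosed K := by
    rw [hK, Set.ofPred_and]
    have hcont : ∀ a b : V, Continuous fun f : V → V → ℝ => f a b := fun a b =>
      (continuous_apply b).comp (continuous_apply a)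
    refine IsClosed.inter ?_ ?_
    · simp only [Set.ofPred_forall]
      exact isClosed_iInter fun a => isClosed_iInter fun b =>
        isClosed_eq (hcont a b) (hcont b a).neg
    · simp only [Set.ofPred_forall]
      exact isClosed_iInter fun a => isClosed_iInter fun b =>
        isClosed_le (hcont a b) continuous_const
  have hKc : IsCompact K := by
    refine IsCompact.of_isClosed_subset
      (s := Set.pi Set.univ fun a => Set.pi Set.univ fun b => Set.Icc (- u b a) (u a b)) ?_ hKcl ?_
    · exact isCompact_univ_pi fun a => isCompact_univ_pi fun b => isCompact_Icc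
    · intro f hf a _ b _
      have h1 := hf.1 a b
      have h2 := hf.2 b a
      exact ⟨by linarith, hf.2 a b⟩
  set Φ : (V → V → ℝ) → ℝ := fun f => ∑ v, (d v - ∑ w, f v w) ^ 2 with hΦ
  have hΦc : Continuous Φ := by
    refine continuous_finsetSum _ fun v _ => ?_
    refine (continuous_const.sub (continuous_finsetSum _ fun w _ => ?_)).pow 2
    exact (continuous_apply w).comp (continuous_apply v)
  obtain ⟨f, hf, hmin⟩ := hKc.exists_isMinOn ⟨0, hKne⟩ hΦc.continuousOn
  refine ⟨f, hf.1, hf.2, ?_⟩
  set r : V → ℝ := fun v => d v - ∑ w, f v w with hr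
  -- no slack from positive to nonpositive
  have hslack : ∀ a b, r b < r a → f a b = u a b := by
    intro a b hab
    by_contra hne
    have hlt : f a b < u a b := lt_of_le_of_ne (hf.2 a b) hne
    have hne' : a ≠ b := by
      rintro rfl
      exact lt_irrefl _ hab
    set ε : ℝ := min (u a b - f a b) ((r a - r b) / 2) with hε
    have hε0 : 0 < ε := lt_min (by linarith) (by linarith)
    have hε1 : ε ≤ u a b - f a b := min_le_left _ _
    have hε2 : ε ≤ (r a - r b) / 2 := min_le_right _ _
    set g : V → V → ℝ := fun x y => f x y + ((if x = a ∧ y = b then ε else 0)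
      - if x = b ∧ y = a then ε else 0) with hg
    have hgK : g ∈ K := by
      refine ⟨fun x y => ?_, fun x y => ?_⟩
      · simp only [hg]
        rw [hf.1 x y]
        have e1 : (x = a ∧ y = b) ↔ (y = b ∧ x = a) := and_comm
        have e2 : (x = b ∧ y = a) ↔ (y = a ∧ x = b) := and_comm
        simp only [e1, e2]
        ring
      · simp only [hg]
        by_cases h1 : x = a ∧ y = b
        · rw [if_pos h1, if_neg fun h => hne' (h1.1.symm.trans h.1), h1.1, h1.2]
          linarith
        · rw [if_neg h1]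
          have := hf.2 x y
          split_ifs <;> linarith
    have hrow : ∀ v, ∑ w, g v w = ∑ w, f v w
        + ((if v = a then ε else 0) - if v = b then ε else 0) := by
      intro v
      simp only [hg, sum_add_distrib, sum_sub_distrib]
      congr 2
      · by_cases hv : v = a
        · simp [hv]
        · simp [hv]
      · by_cases hv : v = b
        · simp [hv]
        · simp [hv]
    have h2 := hmin hgK
    simp only [hΦ, Set.mem_ofPred_eq] at h2
    have h3 : ∀ v, (d v - ∑ w, g v w) ^ 2 = (r v) ^ 2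
        + ((if v = a then ε ^ 2 - 2 * ε * r a else 0) + if v = b then ε ^ 2 + 2 * ε * r b else 0) := by
      intro v
      rw [hrow v]
      by_cases h4 : v = a
      · subst h4
        simp only [if_true, hne', if_false, hr]
        ring
      · by_cases h5 : v = b
        · subst h5
          simp only [if_true, h4, if_false, hr]
          ring
        · simp only [h4, h5, if_false, hr]
          ring
    rw [sum_congr rfl fun v _ => h3 v, sum_add_distrib, sum_add_distrib] at h2
    simp only [sum_ite_eq', mem_univ, if_true] at h2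
    have h4 : ∑ v, (d v - ∑ w, f v w) ^ 2 = ∑ v, (r v) ^ 2 := rfl
    rw [h4] at h2
    have h5 : 0 ≤ 2 * ε * (ε - (r a - r b)) := by nlinarith
    have h6 : 0 ≤ ε - (r a - r b) := by
      by_contra h
      push Not at h
      have : 2 * ε * (ε - (r a - r b)) < 0 := mul_neg_of_pos_of_neg (by linarith) h
      linarith
    linarith
  set Z : Finset V := univ.filter fun v => 0 < r v with hZ
  have h1 : ∑ v ∈ Z, ∑ w, f v w = ∑ v ∈ Z, ∑ w ∈ Zᶜ, u v w := by
    rw [anti_cut hf.1]
    refine sum_congr rfl fun v hv => sum_congr rfl fun w hw => hslack v w ?_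
    have hv' : 0 < r v := (mem_filter.1 hv).2
    have hw' : r w ≤ 0 := by
      rw [mem_compl, hZ, mem_filter] at hw
      push Not at hw
      exact hw (mem_univ _)
    linarith
  have h2 := hcut Z
  rw [← h1] at h2
  have h3 : ∑ v ∈ Z, r v ≤ 0 := by
    simp only [hr, sum_sub_distrib]
    linarith
  have hZe : Z = ∅ := by
    by_contra hne
    obtain ⟨v, hv⟩ := nonempty_iff_ne_empty.2 hne
    have : 0 < ∑ v ∈ Z, r v := sum_pos (fun v hv => (mem_filter.1 hv).2) ⟨v, hv⟩
    linarith
  have h4 : ∀ v, r v ≤ 0 := by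
    intro v
    by_contra h
    push Not at h
    have : v ∈ Z := mem_filter.2 ⟨mem_univ _, h⟩
    rw [hZe] at this
    exact absurd this (notMem_empty v)
  have h5 : ∑ v, r v = 0 := by
    have e : ∑ v, ∑ w, f v w = 0 := by
      have := anti_inner hf.1 univ
      exact this
    simp only [hr, sum_sub_distrib, hd, e]
    ring
  intro v
  have h6 : ∀ w ∈ (univ : Finset V), 0 ≤ - r w := fun w _ => by
    have := h4 w
    linarith
  have h7 := (sum_eq_zero_iff_of_nonneg h6).1 (by rw [sum_neg_distrib, h5, neg_zero]) v (mem_univ v)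
  simp only [hr] at h7
  linarith

end hoffman

end Pool.Agent.K5
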