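import Mathlib
import Pool.Agent.Work.MP_974d84_co.Hoffman
import Pool.Agent.Work.MP_974d84_co_k5.HoffReal
import Pool.Agent.Work.MP_974d84_co_k5.ExtHoff

/-!
# Hoffman's theorem with a real boundary

`P` is a set of vertices, every vertex of `P` has three neighbours in `P` or two neighbours in `P`
and a nonzero real boundary value `φ v`. Signs `x` on `P` with
`r |x(Y) + q(Y)| ≤ (r - 2) e(Y, P \ Y)`, `q = sign φ - 2 φ / r`, give a real `f` on the edges
inside `P` with `1 ≤ |f| ≤ r - 1` and with divergence `φ` modulo `r`, or exactly `φ` if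
`|φ(Z)| < r + e(Z, P \ Z)` for all `Z`.
-/

set_option linter.unusedSectionVars false

namespace Pool.Agent.K5

open Finset SimpleGraph Pool.Agent.Exp Pool.Agent.Log5 Pool.Agent.Log5.Clu

/-- The sign of a boundary value. -/
noncomputable def sgr (a : ℝ) : ℤ := if 0 < a then 1 else if a < 0 then -1 else 0

/-- The charge of a boundary value. -/
noncomputable def qr (r a : ℝ) : ℝ := (sgr a : ℝ) - 2 * a / r

theorem sgr_zero : sgr 0 = 0 := by simp [sgr]

theorem sgr_pm {a : ℝ} (h : a ≠ 0) : sgr a = 1 ∨ sgr a = -1 := by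
  unfold sgr
  rcases lt_or_gt_of_ne h with h1 | h1
  · right
    rw [if_neg (not_lt.2 h1.le), if_pos h1]
  · left
    rw [if_pos h1]

variable {V : Type} [Fintype V] [DecidableEq V] {G : SimpleGraph V} [DecidableRel G.Adj]

theorem inner_cut (P : Finset V) (s : V → V → ℝ)
    (hs0 : ∀ v w, ¬ (v ∈ P ∧ w ∈ P ∧ G.Adj v w) → s v w = 0) (Z : Finset V) :
    ∑ v ∈ Z, ∑ w ∈ Zᶜ, s v w = ∑ v ∈ Z ∩ P, ∑ w ∈ P \ (Z ∩ P), s v w := by
  have h2 : ∀ v, ∑ w ∈ Zᶜ, s v w = ∑ w ∈ P \ Z, s v w := by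
    intro v
    symm
    refine sum_subset (fun w hw => mem_compl.2 (mem_sdiff.1 hw).2) fun w hw hw' => ?_
    refine hs0 v w fun h => hw' (mem_sdiff.2 ⟨h.2.1, mem_compl.1 hw⟩)
  have h3 : P \ (Z ∩ P) = P \ Z := by
    ext w
    simp only [mem_sdiff, mem_inter]
    tauto
  rw [h3]
  simp only [h2]
  symm
  refine sum_subset inter_subset_left fun v hv hv' => ?_
  refine sum_eq_zero fun w _ => hs0 v w fun h => hv' (mem_inter.2 ⟨hv, h.1⟩)

theorem ee_ind (P : Finset V) {Y : Finset V} (hY : Y ⊆ P) : (ee G Y (P \ Y) : ℤ) =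
    ∑ v ∈ Y, ∑ w ∈ P \ Y, if v ∈ P ∧ w ∈ P ∧ G.Adj v w then (1 : ℤ) else 0 := by
  rw [ee_sum]
  push_cast
  refine sum_congr rfl fun v hv => ?_
  rw [card_filter]
  push_cast
  refine sum_congr rfl fun w hw => ?_
  have : G.Adj v w ↔ (v ∈ P ∧ w ∈ P ∧ G.Adj v w) :=
    ⟨fun h => ⟨hY hv, (mem_sdiff.1 hw).1, h⟩, fun h => h.2.2⟩
  simp only [← this]

/-- The real part. -/
theorem ext_real_g {r : ℝ} (hr : 2 < r) (P : Finset V) (y : V → ℝ)
    (hcut : ∀ Y ⊆ P, r * |∑ v ∈ Y, y v| ≤ (r - 2) * ee G Y (P \ Y)) :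
    ∃ g : V → V → ℝ, (∀ v w, g v w = - g w v) ∧
      (∀ v w, ¬ (v ∈ P ∧ w ∈ P ∧ G.Adj v w) → g v w = 0) ∧
      (∀ v w, |g v w| ≤ r / 2 - 1) ∧ ∀ v ∈ P, ∑ w, g v w = - (r / 2) * y v := by
  classical
  have hPP : (ee G P (P \ P) : ℝ) = 0 := by
    rw [Finset.sdiff_self, ee_sum]
    simp
  have htot : ∑ v ∈ P, y v = 0 := by
    have h1 := hcut P (Subset.refl P)
    rw [hPP, mul_zero] at h1
    have h2 : |∑ v ∈ P, y v| ≤ 0 := by
      by_contra h
      push Not at h
      have : 0 < r * |∑ v ∈ P, y v| := mul_pos (by linarith) h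
      linarith
    exact abs_nonpos_iff.1 h2
  have hc0 : 0 ≤ r / 2 - 1 := by linarith
  obtain ⟨g, hg1, hg2, hg3⟩ := hoffman_real
    (fun v w => if v ∈ P ∧ w ∈ P ∧ G.Adj v w then r / 2 - 1 else 0)
    (fun v w => by
      show (0 : ℝ) ≤ if v ∈ P ∧ w ∈ P ∧ G.Adj v w then r / 2 - 1 else 0
      split_ifs
      · exact hc0
      · exact le_rfl)
    (fun v => if v ∈ P then - (r / 2) * y v else 0) (by
      rw [sum_ite_mem, univ_inter, ← mul_sum, htot, mul_zero]) (by
      intro Z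
      rw [inner_cut P _ (fun v w h => if_neg h)]
      have h1 : ∑ v ∈ Z, (if v ∈ P then - (r / 2) * y v else 0) =
          - (r / 2) * ∑ v ∈ Z ∩ P, y v := by
        rw [sum_ite_mem, mul_sum]
      have h2 : ∑ v ∈ Z ∩ P, ∑ w ∈ P \ (Z ∩ P),
          (if v ∈ P ∧ w ∈ P ∧ G.Adj v w then r / 2 - 1 else 0) =
          (r / 2 - 1) * ee G (Z ∩ P) (P \ (Z ∩ P)) := by
        have h3 : ((ee G (Z ∩ P) (P \ (Z ∩ P)) : ℤ) : ℝ) = _ :=
          congrArg (Int.cast : ℤ → ℝ) (ee_ind (G := G) P (inter_subset_right : Z ∩ P ⊆ P))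
        rw [Int.cast_natCast] at h3
        rw [h3]
        push_cast
        rw [mul_sum]
        refine sum_congr rfl fun v _ => ?_
        rw [mul_sum]
        refine sum_congr rfl fun w _ => ?_
        split_ifs <;> ring
      rw [h1, h2]
      have h4 := hcut (Z ∩ P) inter_subset_right
      have h5 := neg_abs_le (∑ v ∈ Z ∩ P, y v)
      nlinarith)
  have hg0 : ∀ v w, ¬ (v ∈ P ∧ w ∈ P ∧ G.Adj v w) → g v w = 0 := by
    intro v w h
    have h1 := hg2 v w
    have h2 := hg2 w v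
    have h3 := hg1 v w
    simp only [if_neg h, if_neg fun h' : w ∈ P ∧ v ∈ P ∧ G.Adj w v =>
      h ⟨h'.2.1, h'.1, h'.2.2.symm⟩] at h1 h2
    linarith
  have hgu : ∀ v w, g v w ≤ r / 2 - 1 := by
    intro v w
    refine (hg2 v w).trans ?_
    show (if v ∈ P ∧ w ∈ P ∧ G.Adj v w then r / 2 - 1 else 0) ≤ r / 2 - 1
    split_ifs
    · exact le_rfl
    · exact hc0
  refine ⟨g, hg1, hg0, fun v w => abs_le.2 ⟨?_, hgu v w⟩, fun v hv => ?_⟩
  · have := hgu w v
    rw [hg1 v w]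
    linarith
  · rw [hg3 v, if_pos hv]

/-- The values from the two parts. -/
theorem ext_real_f {r : ℝ} (hr : 2 < r) (P : Finset V) (φ : V → ℝ) (x : V → ℤ)
    (hcut : ∀ Y ⊆ P, r * |∑ v ∈ Y, ((x v : ℝ) + qr r (φ v))| ≤ (r - 2) * ee G Y (P \ Y))
    (o : V → V → ℤ) (ho : ∀ v w, o v w = - o w v)
    (ho0 : ∀ v w, ¬ (v ∈ P ∧ w ∈ P ∧ G.Adj v w) → o v w = 0)
    (ho1 : ∀ v w, v ∈ P ∧ w ∈ P ∧ G.Adj v w → o v w = 1 ∨ o v w = -1) :
    ∃ f : V → V → ℝ, (∀ v w, f v w = - f w v) ∧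
      (∀ v w, ¬ (v ∈ P ∧ w ∈ P ∧ G.Adj v w) → f v w = 0) ∧
      (∀ v ∈ P, ∀ w ∈ P, G.Adj v w → 1 ≤ |f v w| ∧ |f v w| ≤ r - 1) ∧
      ∀ v ∈ P, ∑ w, f v w = φ v + r / 2 * ((∑ w, o v w - x v - sgr (φ v) : ℤ) : ℝ) := by
  obtain ⟨g, hg1, hg2, hg3, hg4⟩ := ext_real_g (G := G) hr P _ hcut
  refine ⟨fun v w => r / 2 * o v w + g v w, fun v w => ?_, fun v w h => ?_,
    fun v hv w hw h => ?_, fun v hv => ?_⟩
  · show r / 2 * (o v w : ℝ) + g v w = -(r / 2 * (o w v : ℝ) + g w v)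
    rw [ho v w, hg1 v w]
    push_cast
    ring
  · show r / 2 * (o v w : ℝ) + g v w = 0
    rw [ho0 v w h, hg2 v w h]
    simp
  · show 1 ≤ |r / 2 * (o v w : ℝ) + g v w| ∧ |r / 2 * (o v w : ℝ) + g v w| ≤ r - 1
    have h1 := abs_le.1 (hg3 v w)
    rcases ho1 v w ⟨hv, hw, h⟩ with h5 | h5
    · rw [h5]
      push_cast
      rw [abs_of_nonneg (by linarith)]
      constructor <;> linarith
    · rw [h5]
      push_cast
      rw [abs_of_nonpos (by linarith)]
      constructor <;> linarith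
  · show ∑ w, (r / 2 * (o v w : ℝ) + g v w) = _
    rw [sum_add_distrib, ← mul_sum, hg4 v hv]
    unfold qr
    have hr0 : r ≠ 0 := by linarith
    push_cast
    field_simp
    ring

/-- **Extension modulo `r`.** -/
theorem ext_real_mod {r : ℝ} (hr : 2 < r) (P : Finset V) (φ : V → ℝ)
    (hdeg : ∀ v ∈ P, (P.filter fun w => G.Adj v w).card = if φ v = 0 then 3 else 2)
    (x : V → ℤ) (hx : ∀ v ∈ P, x v = 1 ∨ x v = -1)
    (hcut : ∀ Y ⊆ P, r * |∑ v ∈ Y, ((x v : ℝ) + qr r (φ v))| ≤ (r - 2) * ee G Y (P \ Y)) :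
    ∃ f : V → V → ℝ, (∀ v w, f v w = - f w v) ∧
      (∀ v w, ¬ (v ∈ P ∧ w ∈ P ∧ G.Adj v w) → f v w = 0) ∧
      (∀ v ∈ P, ∀ w ∈ P, G.Adj v w → 1 ≤ |f v w| ∧ |f v w| ≤ r - 1) ∧
      ∀ v ∈ P, ∃ k : ℤ, ∑ w, f v w = φ v + r * k := by
  classical
  obtain ⟨σ, hσa, hσ1⟩ := exists_sgn V
  let I : V → V → Prop := fun v w => v ∈ P ∧ w ∈ P ∧ G.Adj v w
  have hIs : ∀ v w, I v w ↔ I w v := fun v w =>
    ⟨fun h => ⟨h.2.1, h.1, h.2.2.symm⟩, fun h => ⟨h.2.1, h.1, h.2.2.symm⟩⟩
  let s : V → V → ℤ := fun v w => if I v w then σ v w else 0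
  have hs : ∀ v w, s v w = - s w v := by
    intro v w
    by_cases h : I v w
    · simp only [s, if_pos h, if_pos ((hIs v w).1 h)]
      exact hσa v w h.2.2.ne
    · simp only [s, if_neg h, if_neg (fun h' => h ((hIs v w).2 h'))]
      norm_num
  obtain ⟨f, h1, h2, h3, h4⟩ := ext_real_f (G := G) hr P φ x hcut s hs
    (fun v w h => if_neg h) (fun v w h => by
      simp only [s]
      rw [if_pos h]
      exact hσ1 v w)
  refine ⟨f, h1, h2, h3, fun v hv => ?_⟩
  have hpar : ∃ m : ℤ, ∑ w, s v w = ((P.filter fun w => G.Adj v w).card : ℤ) + 2 * m := by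
    have h5 : ∀ w, ∃ m : ℤ, s v w = (if I v w then (1 : ℤ) else 0) + 2 * m := by
      intro w
      by_cases h : I v w
      · rcases hσ1 v w with h3 | h3
        · exact ⟨0, by simp only [s, if_pos h, h3]; norm_num⟩
        · exact ⟨-1, by simp only [s, if_pos h, h3]; norm_num⟩
      · exact ⟨0, by simp only [s, if_neg h]; norm_num⟩
    choose m hm using h5
    refine ⟨∑ w, m w, ?_⟩
    have h6 : ((P.filter fun w => G.Adj v w).card : ℤ) = ∑ w, if I v w then (1 : ℤ) else 0 := by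
      have h7 : (univ.filter fun w => I v w) = P.filter fun w => G.Adj v w := by
        ext w
        simp [I, hv]
      rw [← sum_filter, sum_const, h7]
      simp
    rw [h6, mul_sum, ← sum_add_distrib]
    exact sum_congr rfl fun w _ => hm w
  obtain ⟨m, hm⟩ := hpar
  rw [hdeg v hv] at hm
  have h5 : ∃ k : ℤ, ∑ w, s v w - x v - sgr (φ v) = 2 * k := by
    by_cases h0 : φ v = 0
    · rw [if_pos h0] at hm
      rw [h0, sgr_zero]
      rcases hx v hv with h | h
      · exact ⟨m + 1, by push_cast at hm; omega⟩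
      · exact ⟨m + 2, by push_cast at hm; omega⟩
    · rw [if_neg h0] at hm
      rcases sgr_pm h0 with h' | h' <;> rcases hx v hv with h | h
      · exact ⟨m, by push_cast at hm; omega⟩
      · exact ⟨m + 1, by push_cast at hm; omega⟩
      · exact ⟨m + 1, by push_cast at hm; omega⟩
      · exact ⟨m + 2, by push_cast at hm; omega⟩
  obtain ⟨k, hk⟩ := h5
  refine ⟨k, ?_⟩
  rw [h4 v hv, hk]
  push_cast
  ring

/-- **Exact extension**, if no set needs more than the lifting of a flow modulo `r` can give. -/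
theorem ext_real_exact {r : ℝ} (hr : 2 < r) (P : Finset V) (φ : V → ℝ)
    (hdeg : ∀ v ∈ P, (P.filter fun w => G.Adj v w).card = if φ v = 0 then 3 else 2)
    (x : V → ℤ) (hx : ∀ v ∈ P, x v = 1 ∨ x v = -1)
    (hcut : ∀ Y ⊆ P, r * |∑ v ∈ Y, ((x v : ℝ) + qr r (φ v))| ≤ (r - 2) * ee G Y (P \ Y))
    (h0 : ∑ v ∈ P, φ v = 0) (hφ : ∀ Z ⊆ P, |∑ v ∈ Z, φ v| < r + ee G Z (P \ Z)) :
    ∃ f : V → V → ℝ, (∀ v w, f v w = - f w v) ∧
      (∀ v w, ¬ (v ∈ P ∧ w ∈ P ∧ G.Adj v w) → f v w = 0) ∧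
      (∀ v ∈ P, ∀ w ∈ P, G.Adj v w → 1 ≤ |f v w| ∧ |f v w| ≤ r - 1) ∧
      ∀ v ∈ P, ∑ w, f v w = φ v := by
  classical
  obtain ⟨σ, hσa, hσ1⟩ := exists_sgn V
  let I : V → V → Prop := fun v w => v ∈ P ∧ w ∈ P ∧ G.Adj v w
  have hIs : ∀ v w, I v w ↔ I w v := fun v w =>
    ⟨fun h => ⟨h.2.1, h.1, h.2.2.symm⟩, fun h => ⟨h.2.1, h.1, h.2.2.symm⟩⟩
  let s : V → V → ℤ := fun v w => if I v w then σ v w else 0
  have hs : MP974d84.Anti s := by
    intro v w
    by_cases h : I v w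
    · simp only [s, if_pos h, if_pos ((hIs v w).1 h)]
      exact hσa v w h.2.2.ne
    · simp only [s, if_neg h, if_neg (fun h' => h ((hIs v w).2 h'))]
      norm_num
  have hs0 : ∀ v w, ¬ I v w → s v w = 0 := fun v w h => if_neg h
  -- the wanted divergence of the orientation
  let b : V → ℤ := fun v => x v + sgr (φ v)
  have hdegI : ∀ v ∈ P, ∑ w, (if I v w then (1 : ℤ) else 0) = if φ v = 0 then 3 else 2 := by
    intro v hv
    have h1 := hdeg v hv
    have h2 : (univ.filter fun w => I v w) = P.filter fun w => G.Adj v w := by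
      ext w
      simp [I, hv]
    rw [← sum_filter, sum_const, h2, h1]
    split_ifs <;> simp
  have hpar : ∀ v, ∃ k : ℤ, 2 * k = if v ∈ P then b v - ∑ w, s v w else 0 := by
    intro v
    by_cases hv : v ∈ P
    · rw [if_pos hv]
      have h1 : ∃ m : ℤ, ∑ w, s v w = (∑ w, if I v w then (1 : ℤ) else 0) + 2 * m := by
        have h2 : ∀ w, ∃ m : ℤ, s v w = (if I v w then (1 : ℤ) else 0) + 2 * m := by
          intro w
          by_cases h : I v w
          · rcases hσ1 v w with h3 | h3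
            · exact ⟨0, by simp only [s, if_pos h, h3]; norm_num⟩
            · exact ⟨-1, by simp only [s, if_pos h, h3]; norm_num⟩
          · exact ⟨0, by simp only [s, if_neg h]; norm_num⟩
        choose m hm using h2
        exact ⟨∑ w, m w, by rw [mul_sum, ← sum_add_distrib]; exact sum_congr rfl fun w _ => hm w⟩
      obtain ⟨m, hm⟩ := h1
      rw [hdegI v hv] at hm
      rw [hm]
      by_cases h0 : φ v = 0
      · rw [if_pos h0]
        have h5 : b v = x v := by simp only [b, h0, sgr_zero, add_zero]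
        rw [h5]
        rcases hx v hv with h | h
        · exact ⟨-1 - m, by omega⟩
        · exact ⟨-2 - m, by omega⟩
      · rw [if_neg h0]
        rcases sgr_pm h0 with h' | h' <;> rcases hx v hv with h | h
        · exact ⟨-m, by simp only [b, h, h']; omega⟩
        · exact ⟨-1 - m, by simp only [b, h, h']; omega⟩
        · exact ⟨-1 - m, by simp only [b, h, h']; omega⟩
        · exact ⟨-2 - m, by simp only [b, h, h']; omega⟩
    · exact ⟨0, by rw [if_neg hv]; norm_num⟩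
  choose d hd using hpar
  have hdP : ∀ v ∈ P, 2 * d v = b v - ∑ w, s v w := fun v hv => by
    rw [hd v, if_pos hv]
  have hdN : ∀ v, v ∉ P → d v = 0 := fun v hv => by
    have := hd v
    rw [if_neg hv] at this
    omega
  have hsumP : ∀ Y ⊆ P, 2 * ∑ v ∈ Y, d v = ∑ v ∈ Y, b v - ∑ v ∈ Y, ∑ w ∈ P \ Y, s v w := by
    intro Y hY
    have h1 : ∀ v, ∑ w, s v w = ∑ w ∈ Y, s v w + ∑ w ∈ P \ Y, s v w := by
      intro v
      rw [← sum_union disjoint_sdiff, union_sdiff_of_subset hY]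
      symm
      refine sum_subset (subset_univ P) fun w _ hw => ?_
      exact if_neg fun h => hw h.2.1
    rw [mul_sum]
    have h2 : ∑ v ∈ Y, 2 * d v = ∑ v ∈ Y, (b v - ∑ w ∈ P \ Y, s v w) -
        ∑ v ∈ Y, ∑ w ∈ Y, s v w := by
      rw [← sum_sub_distrib]
      refine sum_congr rfl fun v hv => ?_
      rw [hdP v (hY hv), h1 v]
      ring
    rw [h2, MP974d84.anti_inner hs Y, sum_sub_distrib]
    ring
  let u : V → V → ℤ := fun v w => if I v w then (1 - σ v w) / 2 else 0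
  have hu0 : ∀ v w, 0 ≤ u v w := by
    intro v w
    simp only [u]
    split_ifs
    · rcases hσ1 v w with h4 | h4 <;> rw [h4] <;> norm_num
    · exact le_rfl
  have hcs : ∀ Z : Finset V, 2 * MP974d84.cs u Z =
      (ee G (Z ∩ P) (P \ (Z ∩ P)) : ℤ) - ∑ v ∈ Z ∩ P, ∑ w ∈ P \ (Z ∩ P), s v w := by
    intro Z
    rw [ee_ind P inter_subset_right, MP974d84.cs]
    have h1 : ∑ v ∈ Z, ∑ w ∈ Zᶜ, u v w = ∑ v ∈ Z ∩ P, ∑ w ∈ P \ (Z ∩ P), u v w := by
      have h := inner_cut (G := G) P (fun v w => (u v w : ℝ)) (fun v w h => by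
        have h9 : u v w = 0 := if_neg h
        rw [h9]
        simp) Z
      exact_mod_cast h
    rw [h1, mul_sum, ← sum_sub_distrib]
    refine sum_congr rfl fun v _ => ?_
    rw [mul_sum, ← sum_sub_distrib]
    refine sum_congr rfl fun w _ => ?_
    by_cases h : v ∈ P ∧ w ∈ P ∧ G.Adj v w
    · have h' : I v w := h
      simp only [s, u, if_pos h', if_pos h]
      rcases hσ1 v w with h4 | h4 <;> rw [h4] <;> norm_num
    · have h' : ¬ I v w := h
      simp only [s, u, if_neg h', if_neg h]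
      norm_num
  have hr0 : (0 : ℝ) < r := by linarith
  -- the bound for the wanted divergence
  have hbY : ∀ Y ⊆ P, ∑ v ∈ Y, b v < ee G Y (P \ Y) + 2 := by
    intro Y hY
    have h1 := hcut Y hY
    have h2 := hφ Y hY
    have h3 : ((∑ v ∈ Y, b v : ℤ) : ℝ) = ∑ v ∈ Y, ((x v : ℝ) + qr r (φ v)) +
        2 / r * ∑ v ∈ Y, φ v := by
      push_cast
      rw [mul_sum, ← sum_add_distrib]
      refine sum_congr rfl fun v _ => ?_
      simp only [b, qr]
      push_cast
      ring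
    have h4 := le_abs_self (∑ v ∈ Y, ((x v : ℝ) + qr r (φ v)))
    have h5 := le_abs_self (∑ v ∈ Y, φ v)
    have h6 : r * ((∑ v ∈ Y, b v : ℤ) : ℝ) < r * (ee G Y (P \ Y) + 2) := by
      rw [h3, mul_add, ← mul_assoc, mul_div_cancel₀ _ hr0.ne']
      nlinarith
    have h7 := lt_of_mul_lt_mul_left h6 hr0.le
    have h8 : ((∑ v ∈ Y, b v : ℤ) : ℝ) < ((ee G Y (P \ Y) + 2 : ℤ) : ℝ) := by
      push_cast at h7 ⊢
      linarith
    exact_mod_cast h8
  have hPP : (ee G P (P \ P) : ℤ) = 0 := by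
    rw [Finset.sdiff_self, ee_sum]
    simp
  have htot : ∑ v, d v = 0 := by
    have h1 : ∑ v, d v = ∑ v ∈ P, d v := by
      symm
      exact sum_subset (subset_univ P) fun v _ hv => hdN v hv
    have h2 := hsumP P (Subset.refl P)
    rw [Finset.sdiff_self] at h2
    simp only [sum_empty, sum_const_zero, sub_zero] at h2
    have h3 : ((∑ v ∈ P, b v : ℤ) : ℝ) = 0 := by
      have h4 := hcut P (Subset.refl P)
      have h5 : (ee G P (P \ P) : ℝ) = 0 := by exact_mod_cast hPP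
      rw [h5, mul_zero] at h4
      have h6 : ∑ v ∈ P, ((x v : ℝ) + qr r (φ v)) = 0 := by
        refine abs_nonpos_iff.1 ?_
        by_contra h
        push Not at h
        have : 0 < r * |∑ v ∈ P, ((x v : ℝ) + qr r (φ v))| := mul_pos hr0 h
        linarith
      have h7 : ((∑ v ∈ P, b v : ℤ) : ℝ) = ∑ v ∈ P, ((x v : ℝ) + qr r (φ v)) +
          2 / r * ∑ v ∈ P, φ v := by
        push_cast
        rw [mul_sum, ← sum_add_distrib]
        refine sum_congr rfl fun v _ => ?_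
        simp only [b, qr]
        push_cast
        ring
      rw [h7, h6, h0]
      simp
    have h4 : ∑ v ∈ P, b v = 0 := by exact_mod_cast h3
    rw [h1]
    omega
  have hcutd : ∀ Z : Finset V, ∑ v ∈ Z, d v ≤ MP974d84.cs u Z := by
    intro Z
    have h1 : ∑ v ∈ Z, d v = ∑ v ∈ Z ∩ P, d v := by
      symm
      refine sum_subset inter_subset_left fun v hv hv' => hdN v fun h => hv' (mem_inter.2 ⟨hv, h⟩)
    have h2 := hsumP (Z ∩ P) inter_subset_right
    have h3 := hbY (Z ∩ P) inter_subset_right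
    have h4 := hcs Z
    rw [h1]
    omega
  obtain ⟨k, hkA, hku, hkd⟩ := MP974d84.hoffman u d (fun _ _ => 0) (fun _ _ => by norm_num) hu0
    htot hcutd
  have hk0 : ∀ v w, ¬ I v w → k v w = 0 := by
    intro v w h
    have h1 := hku v w
    have h2 := hku w v
    have h3 := hkA v w
    have h4 : u v w = 0 := if_neg h
    have h5 : u w v = 0 := if_neg fun h' => h ((hIs v w).2 h')
    omega
  obtain ⟨f, h1, h2, h3, h4⟩ := ext_real_f (G := G) hr P φ x hcut (fun v w => s v w + 2 * k v w)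
    (fun v w => by
      show s v w + 2 * k v w = -(s w v + 2 * k w v)
      rw [hs v w, hkA v w]
      ring)
    (fun v w h => by
      show s v w + 2 * k v w = 0
      rw [hs0 v w h, hk0 v w h]
      norm_num)
    (fun v w h => by
      show s v w + 2 * k v w = 1 ∨ s v w + 2 * k v w = -1
      have h' : I v w := h
      have h'' := (hIs v w).1 h'
      have e1 := hku v w
      have e2 := hku w v
      have e3 := hkA v w
      have e4 : u v w = (1 - σ v w) / 2 := if_pos h'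
      have e5 : u w v = (1 - σ w v) / 2 := if_pos h''
      have e6 := hσa v w h'.2.2.ne
      have e7 : s v w = σ v w := if_pos h'
      rw [e7]
      rcases hσ1 v w with e8 | e8
      · have e9 : σ w v = -1 := by omega
        rw [e4, e8] at e1
        rw [e5, e9] at e2
        rw [e8]
        norm_num at e1 e2
        omega
      · have e9 : σ w v = 1 := by omega
        rw [e4, e8] at e1
        rw [e5, e9] at e2
        rw [e8]
        norm_num at e1 e2
        omega)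
  refine ⟨f, h1, h2, h3, fun v hv => ?_⟩
  rw [h4 v hv]
  have h5 : ∑ w, (s v w + 2 * k v w) = b v := by
    have h6 := hkd v
    unfold MP974d84.dv at h6
    rw [sum_add_distrib, ← mul_sum, h6]
    have := hdP v hv
    omega
  rw [h5]
  simp only [b]
  push_cast
  ring

end Pool.Agent.K5
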