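import Mathlib
import Pool.Agent.Work.MP_974d84_co_k5.ExtRealB

/-!
# Hoffman's theorem with a real boundary: integral values
-/

set_option linter.unusedSectionVars false

namespace Pool.Agent.K5

open Finset SimpleGraph Pool.Agent.Exp Pool.Agent.Log5 Pool.Agent.Log5.Clu

variable {V : Type} [Fintype V] [DecidableEq V] {G : SimpleGraph V} [DecidableRel G.Adj]

/-- Integral values for a given orientation. -/
theorem ext_int_f {R : ℤ} (hR : 2 < R) (P : Finset V) (Φ : V → ℤ) (x : V → ℤ)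
    (hcut : ∀ Y ⊆ P, (R : ℝ) * |∑ v ∈ Y, ((x v : ℝ) + qr R (Φ v))| ≤
      ((R : ℝ) - 2) * ee G Y (P \ Y))
    (o : V → V → ℤ) (ho : ∀ v w, o v w = - o w v)
    (ho0 : ∀ v w, ¬ (v ∈ P ∧ w ∈ P ∧ G.Adj v w) → o v w = 0)
    (ho1 : ∀ v w, v ∈ P ∧ w ∈ P ∧ G.Adj v w → o v w = 1 ∨ o v w = -1)
    (k : V → ℤ) (hk : ∀ v ∈ P, ∑ w, o v w - x v - sgr (Φ v) = 2 * k v) :
    ∃ f : V → V → ℤ, (∀ v w, f v w = - f w v) ∧
      (∀ v w, ¬ (v ∈ P ∧ w ∈ P ∧ G.Adj v w) → f v w = 0) ∧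
      (∀ v ∈ P, ∀ w ∈ P, G.Adj v w → 1 ≤ |f v w| ∧ |f v w| ≤ R - 1) ∧
      ∀ v ∈ P, ∑ w, f v w = Φ v + R * k v := by
  classical
  have hRr : (2 : ℝ) < R := by exact_mod_cast hR
  have hR0 : (0 : ℝ) < R := by linarith
  let I : V → V → Prop := fun v w => v ∈ P ∧ w ∈ P ∧ G.Adj v w
  have hIs : ∀ v w, I v w ↔ I w v := fun v w =>
    ⟨fun h => ⟨h.2.1, h.1, h.2.2.symm⟩, fun h => ⟨h.2.1, h.1, h.2.2.symm⟩⟩
  let u : V → V → ℤ := fun v w => if I v w then (if o v w = 1 then R - 1 else -1) else 0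
  let d : V → ℤ := fun v => if v ∈ P then Φ v + R * k v else 0
  have hou : ∀ v w, 2 * u v w = (R - 2) * (if I v w then 1 else 0) + R * o v w := by
    intro v w
    by_cases h : I v w
    · simp only [u, if_pos h]
      rcases ho1 v w h with h1 | h1
      · rw [if_pos h1, h1]
        ring
      · rw [if_neg (by rw [h1]; norm_num), h1]
        ring
    · simp only [u, if_neg h, ho0 v w h]
      ring
  have hoA : MP974d84.Anti o := ho
  -- sums over subsets of `P`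
  have hoP : ∀ Y ⊆ P, ∑ v ∈ Y, ∑ w, o v w = ∑ v ∈ Y, ∑ w ∈ P \ Y, o v w := by
    intro Y hY
    have h1 : ∀ v, ∑ w, o v w = ∑ w ∈ Y, o v w + ∑ w ∈ P \ Y, o v w := by
      intro v
      rw [← sum_union disjoint_sdiff, union_sdiff_of_subset hY]
      symm
      refine sum_subset (subset_univ P) fun w _ hw => ?_
      exact ho0 v w fun h => hw h.2.1
    simp only [h1, sum_add_distrib, MP974d84.anti_inner hoA Y, zero_add]
  have hdY : ∀ Y ⊆ P, (2 : ℝ) * ((∑ v ∈ Y, (Φ v + R * k v) : ℤ) : ℝ) =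
      R * ((∑ v ∈ Y, ∑ w ∈ P \ Y, o v w : ℤ) : ℝ) -
        R * ∑ v ∈ Y, ((x v : ℝ) + qr R (Φ v)) := by
    intro Y hY
    rw [← hoP Y hY]
    push_cast
    rw [mul_sum, mul_sum, mul_sum, ← sum_sub_distrib]
    refine sum_congr rfl fun v hv => ?_
    have h1 : ((∑ w, o v w - x v - sgr (Φ v) : ℤ) : ℝ) = ((2 * k v : ℤ) : ℝ) := by
      rw [hk v (hY hv)]
    push_cast at h1
    unfold qr
    have h2 : (2 : ℝ) * (Φ v + R * k v) = 2 * Φ v + R * (2 * k v) := by ring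
    rw [h2, ← h1]
    field_simp
    ring
  have hcs : ∀ Z : Finset V, 2 * MP974d84.cs u Z =
      (R - 2) * (ee G (Z ∩ P) (P \ (Z ∩ P)) : ℤ) +
        R * ∑ v ∈ Z ∩ P, ∑ w ∈ P \ (Z ∩ P), o v w := by
    intro Z
    rw [ee_ind P inter_subset_right, MP974d84.cs]
    have h1 : ∑ v ∈ Z, ∑ w ∈ Zᶜ, u v w = ∑ v ∈ Z ∩ P, ∑ w ∈ P \ (Z ∩ P), u v w := by
      have h := inner_cut (G := G) P (fun v w => (u v w : ℝ)) (fun v w h => by
        have h9 : u v w = 0 := if_neg h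
        rw [h9]
        simp) Z
      exact_mod_cast h
    rw [h1, mul_sum, mul_sum, mul_sum, ← sum_add_distrib]
    refine sum_congr rfl fun v _ => ?_
    rw [mul_sum, mul_sum, mul_sum, ← sum_add_distrib]
    exact sum_congr rfl fun w _ => hou v w
  have hdZ : ∀ Z : Finset V, ∑ v ∈ Z, d v = ∑ v ∈ Z ∩ P, (Φ v + R * k v) := by
    intro Z
    simp only [d]
    rw [sum_ite_mem]
  have hPP : (ee G P (P \ P) : ℝ) = 0 := by
    rw [Finset.sdiff_self, ee_sum]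
    simp
  have hx0 : ∑ v ∈ P, ((x v : ℝ) + qr R (Φ v)) = 0 := by
    have h4 := hcut P (Subset.refl P)
    rw [hPP, mul_zero] at h4
    refine abs_nonpos_iff.1 ?_
    by_contra h
    push Not at h
    have : 0 < (R : ℝ) * |∑ v ∈ P, ((x v : ℝ) + qr R (Φ v))| := mul_pos hR0 h
    linarith
  have htot : ∑ v, d v = 0 := by
    rw [hdZ univ, univ_inter]
    have h1 := hdY P (Subset.refl P)
    rw [hx0, Finset.sdiff_self] at h1
    simp only [sum_empty, sum_const_zero, Int.cast_zero, mul_zero, sub_zero] at h1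
    have h2 : ((∑ v ∈ P, (Φ v + R * k v) : ℤ) : ℝ) = 0 := by linarith
    exact_mod_cast h2
  have hcutd : ∀ Z : Finset V, ∑ v ∈ Z, d v ≤ MP974d84.cs u Z := by
    intro Z
    rw [hdZ Z]
    have h1 := hdY (Z ∩ P) inter_subset_right
    have h2 := hcs Z
    have h3 : (2 : ℝ) * ((MP974d84.cs u Z : ℤ) : ℝ) =
        ((R : ℝ) - 2) * ee G (Z ∩ P) (P \ (Z ∩ P)) +
          R * ((∑ v ∈ Z ∩ P, ∑ w ∈ P \ (Z ∩ P), o v w : ℤ) : ℝ) := by
      have h4 := congrArg (Int.cast : ℤ → ℝ) h2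
      push_cast at h4 ⊢
      linarith
    have h4 := hcut (Z ∩ P) inter_subset_right
    have h5 := neg_abs_le (∑ v ∈ Z ∩ P, ((x v : ℝ) + qr R (Φ v)))
    have h6 : ((∑ v ∈ Z ∩ P, (Φ v + R * k v) : ℤ) : ℝ) ≤ ((MP974d84.cs u Z : ℤ) : ℝ) := by
      nlinarith
    exact_mod_cast h6
  obtain ⟨f, hfA, hfu, hfd⟩ := MP974d84.hoffman u d o hoA (fun v w => by
    simp only [u]
    by_cases h : I v w
    · rw [if_pos h]
      rcases ho1 v w h with h1 | h1
      · rw [if_pos h1, h1]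
        omega
      · rw [if_neg (by rw [h1]; norm_num), h1]
    · rw [if_neg h, ho0 v w h]) htot hcutd
  have hf0 : ∀ v w, ¬ I v w → f v w = 0 := by
    intro v w h
    have h1 := hfu v w
    have h2 := hfu w v
    have h3 := hfA v w
    have h4 : u v w = 0 := if_neg h
    have h5 : u w v = 0 := if_neg fun h' => h ((hIs v w).2 h')
    omega
  refine ⟨f, hfA, hf0, fun v hv w hw h => ?_, fun v hv => ?_⟩
  · have hI : I v w := ⟨hv, hw, h⟩
    have hI' := (hIs v w).1 hI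
    have h1 := hfu v w
    have h2 := hfu w v
    have h3 := hfA v w
    have h4 := ho v w
    simp only [u, if_pos hI, if_pos hI'] at h1 h2
    rcases ho1 v w hI with h5 | h5
    · have h6 : o w v = -1 := by omega
      rw [if_pos h5] at h1
      rw [if_neg (by rw [h6]; norm_num)] at h2
      rw [abs_of_nonneg (by omega)]
      omega
    · have h6 : o w v = 1 := by omega
      rw [if_neg (by rw [h5]; norm_num)] at h1
      rw [if_pos h6] at h2
      rw [abs_of_nonpos (by omega)]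
      omega
  · have h1 := hfd v
    unfold MP974d84.dv at h1
    rw [h1]
    exact if_pos hv

/-- Real or integral values for a given orientation. -/
theorem ext_all_f {r : ℝ} (hr : 2 < r) (P : Finset V) (φ : V → ℝ) (x : V → ℤ)
    (hcut : ∀ Y ⊆ P, r * |∑ v ∈ Y, ((x v : ℝ) + qr r (φ v))| ≤ (r - 2) * ee G Y (P \ Y))
    (o : V → V → ℤ) (ho : ∀ v w, o v w = - o w v)
    (ho0 : ∀ v w, ¬ (v ∈ P ∧ w ∈ P ∧ G.Adj v w) → o v w = 0)
    (ho1 : ∀ v w, v ∈ P ∧ w ∈ P ∧ G.Adj v w → o v w = 1 ∨ o v w = -1)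
    (k : V → ℤ) (hk : ∀ v ∈ P, ∑ w, o v w - x v - sgr (φ v) = 2 * k v) :
    ∃ f : V → V → ℝ, (∀ v w, f v w = - f w v) ∧
      (∀ v w, ¬ (v ∈ P ∧ w ∈ P ∧ G.Adj v w) → f v w = 0) ∧
      (∀ v ∈ P, ∀ w ∈ P, G.Adj v w → 1 ≤ |f v w| ∧ |f v w| ≤ r - 1) ∧
      (∀ v ∈ P, ∑ w, f v w = φ v + r * k v) ∧
      ((∃ R : ℤ, r = R) → (∀ v ∈ P, ∃ m : ℤ, φ v = m) → ∀ v w, ∃ m : ℤ, f v w = m) := by
  classical
  by_cases hint : (∃ R : ℤ, r = R) ∧ ∀ v ∈ P, ∃ m : ℤ, φ v = m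
  · obtain ⟨⟨R, hR⟩, hm⟩ := hint
    let Φ : V → ℤ := fun v => if h : v ∈ P then (hm v h).choose else 0
    have hΦ : ∀ v ∈ P, φ v = Φ v := by
      intro v hv
      simp only [Φ, dif_pos hv]
      exact (hm v hv).choose_spec
    have hR2 : 2 < R := by
      have : (2 : ℝ) < R := by rw [← hR]; exact hr
      exact_mod_cast this
    obtain ⟨F, h1, h2, h3, h4⟩ := ext_int_f (G := G) hR2 P Φ x (fun Y hY => by
      have h5 := hcut Y hY
      have h6 : ∑ v ∈ Y, ((x v : ℝ) + qr R (Φ v)) = ∑ v ∈ Y, ((x v : ℝ) + qr r (φ v)) :=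
        sum_congr rfl fun v hv => by rw [hΦ v (hY hv), hR]
      rw [h6, ← hR]
      exact h5) o ho ho0 ho1 k (fun v hv => by
      have h5 := hk v hv
      rw [hΦ v hv] at h5
      exact h5)
    refine ⟨fun v w => (F v w : ℝ), fun v w => ?_, fun v w h => ?_, fun v hv w hw h => ?_,
      fun v hv => ?_, fun _ _ v w => ⟨F v w, rfl⟩⟩
    · show (F v w : ℝ) = -(F w v : ℝ)
      rw [h1 v w]
      push_cast
      ring
    · show (F v w : ℝ) = 0
      rw [h2 v w h]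
      simp
    · have h5 := h3 v hv w hw h
      show 1 ≤ |(F v w : ℝ)| ∧ |(F v w : ℝ)| ≤ r - 1
      rw [hR]
      constructor
      · exact_mod_cast h5.1
      · exact_mod_cast h5.2
    · show ∑ w, (F v w : ℝ) = _
      rw [hΦ v hv, hR]
      exact_mod_cast h4 v hv
  · obtain ⟨f, h1, h2, h3, h4⟩ := ext_real_f (G := G) hr P φ x hcut o ho ho0 ho1
    refine ⟨f, h1, h2, h3, fun v hv => ?_, fun h5 h6 => absurd ⟨h5, h6⟩ hint⟩
    rw [h4 v hv, hk v hv]
    push_cast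
    ring

end Pool.Agent.K5
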