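import Mathlib
import Pool.Agent.Work.MP_974d84_co_k5.CoreNum
import Pool.Agent.Work.MP_974d84_co_k5.CoreFactsA

/-!
# Facts about cores: large, joined, bdry, sep
-/

set_option linter.unusedSectionVars false

namespace Pool.Agent.K5

open Finset SimpleGraph Pool.Agent.Exp Pool.Agent.Log5 Pool.Agent.Log5.Clu

variable {V : Type} [Fintype V] [DecidableEq V] {G : SimpleGraph V} [DecidableRel G.Adj]

theorem not_acyclic_mono {A B : Finset V} (hAB : A ⊆ B)
    (h : ¬ (G.induce (A : Set V)).IsAcyclic) : ¬ (G.induce (B : Set V)).IsAcyclic := by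
  intro hB
  exact h (hB.embedding (SimpleGraph.induceHomOfLE G (by exact_mod_cast hAB)))

/-- Cores contain circuits. -/
theorem core_not_acyclic (h3 : ∀ v, G.degree v = 3) {C : ℝ} {r : ℕ} {S : Fin r → Finset V}
    (hS : Cores G C S) (i : Fin r) : ¬ (G.induce (S i : Set V)).IsAcyclic := by
  intro h
  have h1 := dd_of_acyclic G h3 (hS.ne i) h
  have h2 := hS.viol i
  have h3 := gf_le' C (S i).card
  have h4 : (((S i).card + 2 : ℕ) : ℝ) ≤ dd G (S i) := by exact_mod_cast h1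
  push_cast at h4
  linarith

theorem large_of (h3 : ∀ v, G.degree v = 3) {k : ℕ} (hg : Gir G k) {C : ℝ} {r : ℕ}
    {S : Fin r → Finset V} (hS : Cores G C S) (i : Fin r) : k ≤ (S i).card := by
  by_contra h
  exact core_not_acyclic h3 hS i (hg _ (not_le.1 h))

theorem joined_of {C : ℝ} (hC : 100 ≤ C) {r : ℕ} {S : Fin r → Finset V}
    (hS : Cores G C S) (i : Fin r) : Joined G (S i) := by
  intro A hA hA0 hA1
  by_contra hcon
  push Not at hcon
  have hsub : A ⊂ S i := ⟨hA, fun h => hA1 (subset_antisymm hA h)⟩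
  have hB0 : (S i \ A).Nonempty := sdiff_nonempty.2 hsub.2
  have hsub2 : S i \ A ⊂ S i := by
    refine ⟨sdiff_subset, fun h => ?_⟩
    obtain ⟨x, hx⟩ := hA0
    exact (mem_sdiff.1 (h (hA hx))).2 hx
  have h1 := hS.sub i A hsub hA0
  have h2 := hS.sub i (S i \ A) hsub2 hB0
  have h0 := hS.viol i
  have hc : A.card + (S i \ A).card = (S i).card := by
    rw [card_sdiff_of_subset hA]
    have := card_le_card hA
    omega
  have h3 := gf_subadd hC (a := A.card) (b := (S i \ A).card) hA0.card_pos hB0.card_pos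
  rw [hc] at h3
  have h4 := dd_parts (G := G) hA
  have h5 := dd_inner (G := G) hA
  have h6 : ee G A (S i \ A) = 0 := by
    unfold ee
    rw [card_eq_zero, filter_eq_empty_iff]
    rintro ⟨u, v⟩ _ ⟨hu, hv, huv⟩
    exact hcon u hu v (mem_sdiff.1 hv).1 (mem_sdiff.1 hv).2 huv
  have h7 : dd G (S i) = dd G A + dd G (S i \ A) := by omega
  have h8 : (dd G (S i) : ℝ) = dd G A + dd G (S i \ A) := by exact_mod_cast h7
  linarith

theorem sep_of (h3 : ∀ v, G.degree v = 3) {k : ℕ} (hc : CycConn G k) {C : ℝ} {r : ℕ}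
    {S : Fin r → Finset V} (hS : Cores G C S) {X : Finset V} (h1 : ∃ i, S i ⊆ X)
    (h2 : ∃ i, Disjoint (S i) X) : k ≤ dd G X := by
  obtain ⟨i, hi⟩ := h1
  obtain ⟨j, hj⟩ := h2
  refine hc X (not_acyclic_mono hi (core_not_acyclic h3 hS i))
    (not_acyclic_mono (A := S j) ?_ (core_not_acyclic h3 hS j))
  intro v hv
  rw [mem_compl]
  exact fun h => disjoint_left.1 hj hv h

theorem facts_B {C : ℝ} (hC : 100 ≤ C) (N : ℕ) : ∃ k₀ : ℕ, ∀ k, k₀ ≤ k → ∀ {V : Type} [Fintype V]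
    [DecidableEq V] (G : SimpleGraph V) [DecidableRel G.Adj], (∀ v, G.degree v = 3) →
    CycConn G k → Gir G k → ∀ {r : ℕ} (S : Fin r → Finset V), Cores G C S →
    (∀ i, k ≤ (S i).card) ∧ (∀ i, Joined G (S i)) ∧ (∀ i, N * dd G (S i) ≤ (S i).card) ∧
    (∀ X : Finset V, (∃ i, S i ⊆ X) → (∃ i, Disjoint (S i) X) → k ≤ dd G X) := by
  obtain ⟨x₀, hx₀, h₀⟩ := exists_large (N * C)
  refine ⟨⌈x₀⌉₊ + 1, fun k hk V _ _ G _ h3 hc hg r S hS => ?_⟩
  refine ⟨large_of h3 hg hS, joined_of hC hS, fun i => ?_, fun X h1 h2 => sep_of h3 hc hS h1 h2⟩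
  have h1 := large_of h3 hg hS i
  have h2 : x₀ ≤ ((S i).card : ℝ) :=
    (Nat.le_ceil x₀).trans (by exact_mod_cast (by omega : ⌈x₀⌉₊ ≤ (S i).card))
  have h4 := (h₀ _ h2).1
  have h5 := hS.viol i
  have h6 := gf_le C (S i).card
  have h7 : (N : ℝ) * dd G (S i) ≤ (S i).card := by
    calc (N : ℝ) * dd G (S i) ≤ N * (C * (1 + Real.log (S i).card) ^ 2) :=
          mul_le_mul_of_nonneg_left (by linarith) (Nat.cast_nonneg N)
      _ = N * C * (1 + Real.log (S i).card) ^ 2 := by ring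
      _ ≤ (S i).card := h4
  exact_mod_cast h7

end Pool.Agent.K5
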