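import Mathlib
import Pool.Agent.Work.MP_974d84_co_k5.CoreFactsB

/-!
# Beads: a highly connected part with a boundary which is far apart

In a cubic graph of large girth which has a small cyclic edge cut there is a vertex set `P` all of
whose cyclic cuts are large, also in comparison with the number of the edges leaving `P`, and the
edges leaving `P` are far apart in `P`.
-/

set_option linter.unusedSectionVars false

namespace Pool.Agent.K5

open Finset SimpleGraph Pool.Agent.Exp Pool.Agent.Log5 Pool.Agent.Log5.Clu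

section

variable {V : Type} [Fintype V] [DecidableEq V] (G : SimpleGraph V) [DecidableRel G.Adj]

/-- A connected set of at most `D` vertices of `P` meets at most one edge leaving `P`. -/
def FarB (D : ℕ) (P : Finset V) : Prop :=
  ∀ Q ⊆ P, Q.card ≤ D → (G.induce (Q : Set V)).Connected → ee G Q Pᶜ ≤ 1

/-- An admissible push: a set `F` of at most `D * s` vertices of `X` whose removal saves `s`. -/
def Adm (D : ℕ) (X F : Finset V) (s : ℕ) : Prop :=
  F ⊆ X ∧ F.card ≤ D * s ∧ dd G (X \ F) + 2 * s ≤ dd G X + F.card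

variable {G}

theorem bead_sdiff {X F : Finset V} (hF : F ⊆ X) :
    dd G (X \ F) + 2 * ee G F Xᶜ = dd G X + dd G F := by
  have h1 := dd_parts (G := G) hF
  have h2 := dd_inner (G := G) hF
  omega

theorem bead_split {P Y : Finset V} (hY : Y ⊆ P) :
    dd G Y + dd G (P \ Y) = dd G P + 2 * ee G Y (P \ Y) := by
  have h1 := dd_parts (G := G) hY
  have h2 := dd_inner (G := G) hY
  omega

theorem bead_conn (h3 : ∀ v, G.degree v = 3) {Q : Finset V}
    (hQ : (G.induce (Q : Set V)).Connected) : dd G Q ≤ Q.card + 2 := by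
  have h1 := hQ.card_vert_le_card_edgeSet_add_one
  have h2 := inside_card G Q
  have h4 := Pool.Agent.Work.MP_314beb_co.sum_degree_eq_cut_add_inside G Q
  have h5 : ∑ v ∈ Q, G.degree v = 3 * Q.card := by
    rw [sum_congr rfl fun v _ => h3 v, sum_const, smul_eq_mul, mul_comm]
  have h6 : Nat.card (Q : Set V) = Q.card := by simp
  have h7 : Nat.card (G.induce (Q : Set V)).edgeSet =
      (G.induce (Q : Set V)).edgeFinset.card := by
    rw [Nat.card_eq_fintype_card, edgeFinset_card]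
  unfold dd
  omega

theorem bead_ee_le (h3 : ∀ v, G.degree v = 3) (F Z : Finset V) : ee G F Z ≤ 3 * F.card := by
  rw [ee_sum, mul_comm, ← smul_eq_mul, ← sum_const]
  refine sum_le_sum fun u _ => ?_
  rw [← h3 u, ← card_neighborFinset_eq_degree]
  refine card_le_card fun w hw => ?_
  rw [mem_neighborFinset]
  exact (mem_filter.1 hw).2

theorem bead_ee_compl {F P P₀ : Finset V} (hP : P ⊆ P₀) :
    ee G F Pᶜ = ee G F P₀ᶜ + ee G F (P₀ \ P) := by
  rw [← ee_union_right]
  · congr 1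
    ext v
    simp only [mem_compl, mem_union, mem_sdiff]
    constructor
    · intro h1
      by_cases h2 : v ∈ P₀
      · exact Or.inr ⟨h2, h1⟩
      · exact Or.inl h2
    · rintro (h1 | h1) h2
      · exact h1 (hP h2)
      · exact h1.2 h2
  · rw [Finset.disjoint_left]
    intro v h1 h2
    exact (mem_compl.1 h1) (mem_sdiff.1 h2).1

theorem bead_dd_le {P P₀ : Finset V} (hP : P ⊆ P₀) : dd G P ≤ dd G P₀ + ee G P (P₀ \ P) := by
  rw [dd_ee P, bead_ee_compl hP, dd_ee P₀]
  exact Nat.add_le_add_right (ee_mono hP (Subset.refl _)) _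

theorem adm_le (h3 : ∀ v, G.degree v = 3) {g : ℕ} (hg : Gir G g) {D : ℕ} {X F : Finset V} {s : ℕ}
    (h : Adm G D X F s) (hs : D * s < g) : s ≤ dd G X := by
  obtain ⟨hF, hc, hd⟩ := h
  rcases F.eq_empty_or_nonempty with rfl | hF0
  · rw [sdiff_empty, card_empty] at hd
    omega
  · have h1 := dd_of_acyclic G h3 hF0 (hg F (by omega))
    have h2 := bead_sdiff (G := G) hF
    have h4 : ee G F Xᶜ ≤ dd G X := by
      rw [dd_ee X]
      exact ee_mono hF (Subset.refl _)
    omega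

theorem adm_zero (D : ℕ) (X : Finset V) : Adm G D X ∅ 0 :=
  ⟨empty_subset _, by simp, by simp⟩

theorem exists_push (D L : ℕ) (X : Finset V) : ∃ F s, Adm G D X F s ∧ s ≤ L ∧
    ∀ F' s', Adm G D X F' s' → s' ≤ L → s' ≤ s := by
  classical
  let p : ℕ → Prop := fun s => ∃ F, Adm G D X F s
  obtain ⟨F, hF⟩ : p (Nat.findGreatest p L) :=
    Nat.findGreatest_spec (Nat.zero_le L) ⟨∅, adm_zero D X⟩
  exact ⟨F, _, hF, Nat.findGreatest_le L, fun F' s' h1 h2 => Nat.le_findGreatest h2 ⟨F', h1⟩⟩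

theorem adm_far (h3 : ∀ v, G.degree v = 3) {D L : ℕ} {X F : Finset V} {s : ℕ}
    (h : Adm G D X F s) (hs : s + 1 ≤ L)
    (hmax : ∀ F' s', Adm G D X F' s' → s' ≤ L → s' ≤ s) : FarB G D (X \ F) := by
  intro Q hQ hQc hconn
  by_contra hcon
  push Not at hcon
  obtain ⟨hF, hc, hd⟩ := h
  have hdis : Disjoint F Q := by
    rw [Finset.disjoint_left]
    intro v h1 h2
    exact (mem_sdiff.1 (hQ h2)).2 h1
  have h1 := bead_sdiff (G := G) hQ
  have h2 := bead_conn h3 hconn
  have h4 : X \ (F ∪ Q) = (X \ F) \ Q := by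
    rw [sdiff_sdiff_left, sup_eq_union]
  have h5 := hmax (F ∪ Q) (s + 1) ⟨union_subset hF (hQ.trans sdiff_subset), ?_, ?_⟩ hs
  · omega
  · rw [card_union_of_disjoint hdis, Nat.mul_succ]
    omega
  · rw [card_union_of_disjoint hdis, h4]
    omega

theorem adm_union {D : ℕ} {X F P F' : Finset V} {s n : ℕ} (h : Adm G (2 * D) X F s)
    (hP : P ⊆ X \ F) (hn : ee G P ((X \ F) \ P) ≤ n) (h' : Adm G D P F' (2 * n + 1)) :
    Adm G (2 * D) X (F ∪ F') (s + (n + 1)) := by
  obtain ⟨hF, hc, hd⟩ := h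
  obtain ⟨hF', hc', hd'⟩ := h'
  have hdis : Disjoint F F' := by
    rw [Finset.disjoint_left]
    intro v h1 h2
    exact (mem_sdiff.1 (hP (hF' h2))).2 h1
  have h4 : X \ (F ∪ F') = (X \ F) \ F' := by
    rw [sdiff_sdiff_left, sup_eq_union]
  have h1 := bead_sdiff (G := G) (hF'.trans hP)
  have h2 := bead_sdiff (G := G) hF'
  have h5 := bead_ee_compl (G := G) (F := F') hP
  have h6 : ee G F' ((X \ F) \ P) ≤ ee G P ((X \ F) \ P) := ee_mono hF' (Subset.refl _)
  refine ⟨union_subset hF (hF'.trans (hP.trans sdiff_subset)), ?_, ?_⟩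
  · rw [card_union_of_disjoint hdis]
    calc F.card + F'.card ≤ 2 * D * s + D * (2 * n + 1) := add_le_add hc hc'
      _ ≤ 2 * D * s + D * (2 * (n + 1)) := by
          refine Nat.add_le_add_left (Nat.mul_le_mul_left _ ?_) _
          omega
      _ = 2 * D * (s + (n + 1)) := by ring
  · rw [card_union_of_disjoint hdis, h4]
    omega

/-- The splitting process. -/
theorem bead_chain {P₀ : Finset V} {k₁ J : ℕ}
    (hcyc : ¬ (G.induce (P₀ : Set V)).IsAcyclic) {T B : ℕ → ℕ} (hB0 : B 0 = 0)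
    (hB : ∀ j, B (j + 1) = B j + T j) (hT : ∀ j, j ≤ J → 4 * T j ≤ k₁) :
    ∀ j, j ≤ J → (∃ i, i < j ∧ ∃ P ⊆ P₀, ¬ (G.induce (P : Set V)).IsAcyclic ∧
      ee G P (P₀ \ P) ≤ B i ∧ ∀ Y ⊆ P, ¬ (G.induce (Y : Set V)).IsAcyclic →
        ¬ (G.induce ((P \ Y : Finset V) : Set V)).IsAcyclic → T i ≤ ee G Y (P \ Y)) ∨
      ∃ P ⊆ P₀, ¬ (G.induce (P : Set V)).IsAcyclic ∧ ee G P (P₀ \ P) ≤ B j ∧
        (1 ≤ j → P ⊂ P₀) ∧ 2 ^ j * (2 * dd G P) + k₁ ≤ 2 * dd G P₀ + 2 ^ j * k₁ := by
  intro j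
  induction j with
  | zero =>
    intro _
    refine Or.inr ⟨P₀, Subset.refl _, hcyc, ?_, fun h => absurd h (by norm_num), ?_⟩
    · rw [hB0, sdiff_self, ee_comm, ee_sum]
      exact (Nat.le_of_eq (sum_empty))
    · simp
  | succ j ih =>
    intro hj
    rcases ih (by omega) with ⟨i, hi, h⟩ | ⟨P, hP, hPc, hPB, hPs, hPd⟩
    · exact Or.inl ⟨i, by omega, h⟩
    by_cases hcut : ∀ Y ⊆ P, ¬ (G.induce (Y : Set V)).IsAcyclic →
        ¬ (G.induce ((P \ Y : Finset V) : Set V)).IsAcyclic → T j ≤ ee G Y (P \ Y)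
    · exact Or.inl ⟨j, by omega, P, hP, hPc, hPB, hcut⟩
    right
    push Not at hcut
    obtain ⟨Y, hY, hYc, hYc', hYT⟩ := hcut
    have hsplit := bead_split (G := G) hY
    have hT' := hT j (by omega)
    -- the smaller part
    have key : ∀ Z ⊆ P, ¬ (G.induce (Z : Set V)).IsAcyclic →
        ¬ (G.induce ((P \ Z : Finset V) : Set V)).IsAcyclic → ee G Z (P \ Z) < T j →
        2 * dd G Z ≤ dd G P + 2 * T j → ∃ P' ⊆ P₀, ¬ (G.induce (P' : Set V)).IsAcyclic ∧
        ee G P' (P₀ \ P') ≤ B (j + 1) ∧ (1 ≤ j + 1 → P' ⊂ P₀) ∧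
        2 ^ (j + 1) * (2 * dd G P') + k₁ ≤ 2 * dd G P₀ + 2 ^ (j + 1) * k₁ := by
      intro Z hZ hZc hZc' hZT hZd
      refine ⟨Z, hZ.trans hP, hZc, ?_, fun _ => ?_, ?_⟩
      · have h1 : P₀ \ Z = (P₀ \ P) ∪ (P \ Z) := by
          ext v
          simp only [mem_sdiff, mem_union]
          constructor
          · rintro ⟨h1, h2⟩
            by_cases h3 : v ∈ P
            · exact Or.inr ⟨h3, h2⟩
            · exact Or.inl ⟨h1, h3⟩
          · rintro (⟨h1, h2⟩ | ⟨h1, h2⟩)
            · exact ⟨h1, fun h => h2 (hZ h)⟩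
            · exact ⟨hP h1, h2⟩
        have h2 : Disjoint (P₀ \ P) (P \ Z) := by
          rw [Finset.disjoint_left]
          intro v h1 h2
          exact (mem_sdiff.1 h1).2 (mem_sdiff.1 h2).1
        rw [h1, ee_union_right h2, hB]
        have h4 : ee G Z (P₀ \ P) ≤ ee G P (P₀ \ P) := ee_mono hZ (Subset.refl _)
        omega
      · refine ⟨hZ.trans hP, fun h => hZc' ?_⟩
        have h1 : P \ Z = ∅ := sdiff_eq_empty_iff_subset.2 (hP.trans h)
        rw [h1, coe_empty]
        exact SimpleGraph.IsAcyclic.of_subsingleton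
      · have h1 : 4 * dd G Z ≤ 2 * dd G P + k₁ := by omega
        have h2 := Nat.mul_le_mul_left (2 ^ j) h1
        have h4 : 2 ^ (j + 1) * (2 * dd G Z) = 2 ^ j * (4 * dd G Z) := by ring
        have h5 : 2 ^ j * (2 * dd G P + k₁) = 2 ^ j * (2 * dd G P) + 2 ^ j * k₁ := by ring
        have h6 : 2 ^ (j + 1) * k₁ = 2 ^ j * k₁ + 2 ^ j * k₁ := by ring
        omega
    by_cases hle : dd G Y ≤ dd G (P \ Y)
    · exact key Y hY hYc hYc' hYT (by omega)
    · refine key (P \ Y) sdiff_subset hYc' ?_ ?_ (by omega)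
      · rwa [sdiff_sdiff_right_self, inf_eq_inter, inter_eq_right.2 hY]
      · rw [sdiff_sdiff_right_self, inf_eq_inter, inter_eq_right.2 hY, ee_comm]
        exact hYT

end

/-- Numbers for the splitting process. -/
theorem bead_num {D : ℕ} (T₀ : ℕ) {T B : ℕ → ℕ} (hT : ∀ j, T j = T₀ * (12 * D + 1) ^ j)
    (hB0 : B 0 = 0) (hB : ∀ j, B (j + 1) = B j + T j) (j : ℕ) : 12 * D * B j ≤ T j := by
  induction j with
  | zero => rw [hB0]; simp
  | succ j ih =>
    have h1 : T (j + 1) = T j * (12 * D + 1) := by rw [hT, hT, pow_succ]; ring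
    rw [hB, h1]
    calc 12 * D * (B j + T j) = 12 * D * B j + 12 * D * T j := by ring
      _ ≤ T j + 12 * D * T j := Nat.add_le_add_right ih _
      _ = T j * (12 * D + 1) := by ring

/-- **Bead lemma.** A cubic graph of large girth which has a small cyclic edge cut contains a set
`P` such that the edges leaving `P` are far apart in `P` and all cyclic cuts of `P` are large, also
in comparison with the number of the edges leaving `P`. -/
theorem exists_bead' (D : ℕ) : ∃ K : ℕ, ∀ k₀ : ℕ, ∃ k₁ g : ℕ, k₀ ≤ k₁ ∧ ∀ {V : Type}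
    [Fintype V] [DecidableEq V] (G : SimpleGraph V) [DecidableRel G.Adj], (∀ v, G.degree v = 3) → Gir G g →
    ¬ CycConn G k₁ → ∃ P : Finset V, ¬ (G.induce (P : Set V)).IsAcyclic ∧
      ¬ (G.induce ((Pᶜ : Finset V) : Set V)).IsAcyclic ∧ FarB G D P ∧
      ∀ Y ⊆ P, ¬ (G.induce (Y : Set V)).IsAcyclic →
        ¬ (G.induce ((P \ Y : Finset V) : Set V)).IsAcyclic →
        k₀ ≤ ee G Y (P \ Y) ∧ dd G P ≤ K * ee G Y (P \ Y) := by
  set E : ℕ := D + 1 with hE
  set θ : ℕ := 12 * E + 1 with hθ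
  set J : ℕ := 4 * E + 2 with hJ
  refine ⟨(2 + 2 * E) * (8 * θ ^ J), fun k₀ => ?_⟩
  set T : ℕ → ℕ := fun j => 2 * (k₀ + 1) * θ ^ j with hT
  set B : ℕ → ℕ := fun j => ∑ i ∈ range j, T i with hB
  have hB0 : B 0 = 0 := by simp [hB]
  have hBs : ∀ j, B (j + 1) = B j + T j := fun j => sum_range_succ _ _
  set k₁ : ℕ := 4 * T J with hk₁
  have hTJ : ∀ j, j ≤ J → T j ≤ T J := fun j hj =>
    Nat.mul_le_mul_left _ (Nat.pow_le_pow_right (by omega) hj)
  have hT0 : ∀ j, 2 * (k₀ + 1) ≤ T j := fun j =>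
    Nat.le_mul_of_pos_right _ (Nat.pow_pos (by omega))
  have hk₁0 : 0 < k₁ := by
    have := hT0 J
    omega
  have hE1 : 1 ≤ E := by omega
  have hEk : k₁ ≤ E * k₁ := Nat.le_mul_of_pos_left _ hE1
  refine ⟨k₁, 2 * E * (2 * k₁ + 1) + 10 * (E * k₁) + 1, by have := hT0 J; omega,
    fun {V} _ _ G _ h3 hg hcc => ?_⟩
  classical
  -- the minimal cyclic side
  obtain ⟨X, hX, hXmin⟩ := exists_min_image ((univ : Finset (Finset V)).filter fun S : Finset V =>
      ¬ (G.induce (S : Set V)).IsAcyclic ∧ ¬ (G.induce ((Sᶜ : Finset V) : Set V)).IsAcyclic ∧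
        dd G S < k₁) card (by
    unfold CycConn at hcc
    push Not at hcc
    obtain ⟨S, h1, h2, h4⟩ := hcc
    exact ⟨S, mem_filter.2 ⟨mem_univ _, h1, h2, h4⟩⟩)
  obtain ⟨-, hXc, hXc', hXd⟩ := mem_filter.1 hX
  have hmin : ∀ Y ⊂ X, ¬ (G.induce (Y : Set V)).IsAcyclic → k₁ ≤ dd G Y := by
    intro Y hY hYc
    by_contra hlt
    have h1 := hXmin Y (mem_filter.2 ⟨mem_univ _, hYc,
      not_acyclic_mono (compl_subset_compl.2 hY.1) hXc', not_le.1 hlt⟩)
    exact absurd (card_lt_card hY) (not_lt.2 h1)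
  have hbig : ∀ P : Finset V, ¬ (G.induce (P : Set V)).IsAcyclic →
      2 * E * (2 * k₁ + 1) + 10 * (E * k₁) + 1 ≤ P.card := fun P hP => by
    by_contra h
    exact hP (hg P (not_le.1 h))
  -- the first push
  obtain ⟨F, s, hA, hsL, hmax⟩ := exists_push (G := G) (2 * E) (2 * k₁ + 1) X
  have hs : s ≤ dd G X := adm_le h3 hg hA (by
    have := Nat.mul_le_mul_left (2 * E) hsL
    omega)
  have hFc : F.card ≤ 2 * (E * k₁) := by
    refine hA.2.1.trans ?_
    rw [Nat.mul_assoc]
    exact Nat.mul_le_mul_left _ (Nat.mul_le_mul_left _ (by omega))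
  have hP₀d : dd G (X \ F) ≤ k₁ + 2 * (E * k₁) := by
    have := hA.2.2
    omega
  have hXF : (X \ F).card + F.card = X.card := card_sdiff_add_card_eq_card hA.1
  have hP₀c : ¬ (G.induce ((X \ F : Finset V) : Set V)).IsAcyclic := by
    intro hac
    have h1 := hbig X hXc
    have h2 := dd_of_acyclic G h3 (card_pos.1 (by omega)) hac
    omega
  -- the splitting process
  rcases bead_chain (G := G) (k₁ := k₁) (J := J) hP₀c hB0 hBs
      (fun j hj => Nat.mul_le_mul_left _ (hTJ j hj)) J le_rfl with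
    ⟨i, hi, P, hP, hPc, hPB, hcut⟩ | ⟨P, hP, hPc, -, hPs, hPd⟩
  · have hnum := bead_num (D := E) (2 * (k₀ + 1)) (T := T) (B := B) (fun j => rfl) hB0 hBs i
    have hTi := hTJ i hi.le
    have hT0i := hT0 i
    set n : ℕ := ee G P ((X \ F) \ P) with hn
    have hnT : 12 * (E * n) ≤ T i := by
      have := Nat.mul_le_mul_left (12 * E) hPB
      rw [Nat.mul_assoc] at this
      exact this.trans hnum
    have hEn : n ≤ E * n := Nat.le_mul_of_pos_left _ hE1
    -- the second push
    obtain ⟨F', s', hA', hsL', hmax'⟩ := exists_push (G := G) E (2 * n + 1) P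
    have hs' : s' ≤ 2 * n := by
      by_contra hlt
      have h1 : s' = 2 * n + 1 := by omega
      rw [h1] at hA'
      have h2 := hmax _ _ (adm_union hA hP le_rfl hA') (by omega)
      omega
    have hF'c : F'.card ≤ 2 * (E * n) := by
      refine hA'.2.1.trans ((Nat.mul_le_mul_left E hs').trans (le_of_eq ?_))
      ring
    have hfar := adm_far h3 hA' (by omega) hmax'
    have hP'd : dd G (P \ F') ≤ 2 * k₁ + 2 * (E * k₁) := by
      have h1 := hA'.2.2
      have h2 := bead_dd_le (G := G) hP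
      omega
    have hPF : (P \ F').card + F'.card = P.card := card_sdiff_add_card_eq_card hA'.1
    refine ⟨P \ F', ?_, ?_, ?_, ?_⟩
    · intro hac
      have h1 := hbig P hPc
      have h2 := dd_of_acyclic G h3 (card_pos.1 (by omega)) hac
      omega
    · exact not_acyclic_mono (compl_subset_compl.2
        (sdiff_subset.trans (hP.trans sdiff_subset))) hXc'
    · intro Q hQ hQc hconn
      exact hfar Q hQ (by omega) hconn
    · intro Y hY hYc hYc'
      have h1 : P \ (Y ∪ F') = (P \ F') \ Y := by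
        rw [union_comm, sdiff_sdiff_left, sup_eq_union]
      have h2 : Disjoint Y F' := by
        rw [Finset.disjoint_left]
        intro v h1 h2
        exact (mem_sdiff.1 (hY h1)).2 h2
      have h4 := hcut (Y ∪ F') (union_subset (hY.trans sdiff_subset) hA'.1)
        (not_acyclic_mono subset_union_left hYc) (by rwa [h1])
      rw [h1, ee_union_left h2] at h4
      have h5 := bead_ee_le h3 F' ((P \ F') \ Y)
      have h6 : k₀ + 1 ≤ ee G Y ((P \ F') \ Y) := by omega
      refine ⟨by omega, ?_⟩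
      calc dd G (P \ F') ≤ 2 * k₁ + 2 * (E * k₁) := hP'd
        _ = (2 + 2 * E) * (8 * θ ^ J) * (k₀ + 1) := by
            simp only [hk₁, hT]
            ring
        _ ≤ _ := Nat.mul_le_mul_left _ h6
  · exfalso
    have h1 : P ⊂ X := (hPs (by omega)).trans_subset sdiff_subset
    have h2 := hmin P h1 hPc
    have h4 : J < 2 ^ J := Nat.lt_two_pow_self
    have h5 : 2 ^ J * (2 * k₁) ≤ 2 ^ J * (2 * dd G P) :=
      Nat.mul_le_mul_left _ (Nat.mul_le_mul_left _ h2)
    have h6 : 2 ^ J * (2 * k₁) = 2 ^ J * k₁ + 2 ^ J * k₁ := by ring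
    have h7 : (4 * E + 3) * k₁ ≤ 2 ^ J * k₁ := Nat.mul_le_mul_right _ (by omega)
    have h8 : (4 * E + 3) * k₁ = 4 * (E * k₁) + 3 * k₁ := by ring
    omega

/-- The bead lemma without the comparison of the two bounds. -/
theorem exists_bead (D : ℕ) : ∃ K : ℕ, ∀ k₀ : ℕ, ∃ k₁ g : ℕ, ∀ {V : Type} [Fintype V]
    [DecidableEq V] (G : SimpleGraph V) [DecidableRel G.Adj], (∀ v, G.degree v = 3) → Gir G g →
    ¬ CycConn G k₁ → ∃ P : Finset V, ¬ (G.induce (P : Set V)).IsAcyclic ∧
      ¬ (G.induce ((Pᶜ : Finset V) : Set V)).IsAcyclic ∧ FarB G D P ∧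
      ∀ Y ⊆ P, ¬ (G.induce (Y : Set V)).IsAcyclic →
        ¬ (G.induce ((P \ Y : Finset V) : Set V)).IsAcyclic →
        k₀ ≤ ee G Y (P \ Y) ∧ dd G P ≤ K * ee G Y (P \ Y) := by
  obtain ⟨K, h⟩ := exists_bead' D
  exact ⟨K, fun k₀ => by
    obtain ⟨k₁, g, -, h'⟩ := h k₀
    exact ⟨k₁, g, h'⟩⟩

section

variable {V : Type} [Fintype V] [DecidableEq V] {G : SimpleGraph V} [DecidableRel G.Adj]

theorem bead_ee_union_le (Z A B : Finset V) : ee G Z (A ∪ B) ≤ ee G Z A + ee G Z B := by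
  rw [← union_sdiff_self_eq_union, ee_union_right disjoint_sdiff]
  exact Nat.add_le_add_left (ee_mono (Subset.refl _) sdiff_subset) _

/-- Joined sets are connected. -/
theorem bead_conn_of_joined {Q : Finset V} (hQ : Joined G Q) (h0 : Q.Nonempty) :
    (G.induce (Q : Set V)).Connected := by
  classical
  obtain ⟨x, hx⟩ := h0
  have key : ∀ y (hy : y ∈ Q), (G.induce (Q : Set V)).Reachable ⟨x, hx⟩ ⟨y, hy⟩ := by
    set A : Finset V := Q.filter fun y => ∃ hy : y ∈ Q,
      (G.induce (Q : Set V)).Reachable ⟨x, hx⟩ ⟨y, hy⟩ with hA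
    have hxA : x ∈ A := mem_filter.2 ⟨hx, hx, Reachable.refl _⟩
    by_cases hAQ : A = Q
    · intro y hy
      rw [← hAQ] at hy
      obtain ⟨-, h1, h2⟩ := mem_filter.1 hy
      exact h2
    · obtain ⟨u, hu, v, hv, hvA, huv⟩ := hQ A (filter_subset _ _) ⟨x, hxA⟩ hAQ
      obtain ⟨-, h1, h2⟩ := mem_filter.1 hu
      refine absurd (mem_filter.2 ⟨hv, hv, h2.trans ?_⟩) hvA
      exact Adj.reachable (by simpa using huv)
  have : Nonempty (Q : Set V) := ⟨⟨x, hx⟩⟩
  refine Connected.mk ?_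
  rintro ⟨y, hy⟩ ⟨z, hz⟩
  exact (key y hy).symm.trans (key z hz)

theorem FarB.joined {D : ℕ} {P : Finset V} (h : FarB G D P) {Q : Finset V} (hQ : Q ⊆ P)
    (hD : Q.card ≤ D) (hj : Joined G Q) : ee G Q Pᶜ ≤ 1 := by
  rcases Q.eq_empty_or_nonempty with rfl | h0
  · rw [ee_sum, sum_empty]
    exact Nat.zero_le _
  · exact h Q hQ hD (bead_conn_of_joined hj h0)

theorem FarB.mono {D E : ℕ} {P : Finset V} (h : FarB G E P) (hDE : D ≤ E) : FarB G D P :=
  fun Q hQ hQc hconn => h Q hQ (hQc.trans hDE) hconn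

/-- Every vertex of `P` has at most one neighbour outside `P`. -/
theorem FarB.one {D : ℕ} {P : Finset V} (h : FarB G D P) (hD : 1 ≤ D) {v : V} (hv : v ∈ P) :
    ee G {v} Pᶜ ≤ 1 := by
  refine h.joined (singleton_subset_iff.2 hv) (by rw [card_singleton]; exact hD) ?_
  intro A hA hA0 hA1
  exact absurd (subset_antisymm hA (by
    obtain ⟨x, hx⟩ := hA0
    have := mem_singleton.1 (hA hx)
    subst this
    exact singleton_subset_iff.2 hx)) hA1

/-- A set whose leaving edges are far apart contains circuits. -/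
theorem FarB.cyc (h3 : ∀ v, G.degree v = 3) {D : ℕ} {P : Finset V} (h : FarB G D P) (hD : 1 ≤ D)
    (hP : P.Nonempty) : ¬ (G.induce (P : Set V)).IsAcyclic := by
  intro hac
  have h1 := dd_of_acyclic G h3 hP hac
  have h2 : dd G P ≤ P.card := by
    rw [dd_ee, ee_sum, card_eq_sum_ones]
    refine sum_le_sum fun v hv => ?_
    have := h.one hD hv
    rwa [ee_sum, sum_singleton] at this
  omega

/-- Small sets below the girth of a set with a boundary which is far apart. -/
theorem sep_of_far (h3 : ∀ v, G.degree v = 3) {N : ℕ} {P₀ : Finset V} (h : FarB G N P₀)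
    (hg : ∀ S ⊆ P₀, S.card < N → (G.induce (S : Set V)).IsAcyclic) :
    ∀ S ⊆ P₀, S.card < N → S.card + 2 * ee G S P₀ᶜ ≤ dd G S := by
  classical
  have key : ∀ n, ∀ S ⊆ P₀, S.card = n → S.card < N → S.card + 2 * ee G S P₀ᶜ ≤ dd G S := by
    intro n
    induction n using Nat.strong_induction_on with
    | _ n ih =>
      intro S hS hn hN
      rcases S.eq_empty_or_nonempty with rfl | h0
      · rw [ee_sum, sum_empty, card_empty]
        exact Nat.zero_le _
      by_cases hj : Joined G S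
      · have h1 := dd_of_acyclic G h3 h0 (hg S hS hN)
        have h2 := h.joined hS (by omega) hj
        omega
      · unfold Exp.Joined at hj
        push Not at hj
        obtain ⟨A, hA, hA0, hA1, hAno⟩ := hj
        have hc := card_sdiff_add_card_eq_card hA
        have hA0' := hA0.card_pos
        have hB0 : (S \ A).Nonempty := sdiff_nonempty.2 fun h => hA1 (subset_antisymm hA h)
        have hB0' := hB0.card_pos
        have h1 := ih A.card (by omega) A (hA.trans hS) rfl (by omega)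
        have h2 := ih (S \ A).card (by omega) (S \ A) (sdiff_subset.trans hS) rfl (by omega)
        have h4 := bead_split (G := G) hA
        have h5 : ee G A (S \ A) = 0 := by
          unfold ee
          rw [card_eq_zero, filter_eq_empty_iff]
          rintro ⟨u, v⟩ _ ⟨hu, hv, huv⟩
          exact hAno u hu v (mem_sdiff.1 hv).1 (mem_sdiff.1 hv).2 huv
        have h6 : ee G S P₀ᶜ = ee G A P₀ᶜ + ee G (S \ A) P₀ᶜ := by
          rw [← ee_union_left disjoint_sdiff, union_sdiff_of_subset hA]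
        omega
  exact fun S hS hN => key S.card S hS rfl hN

end

end Pool.Agent.K5
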