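import Mathlib
import Pool.Agent.Work.MP_974d84_co_log.Cluster
import Pool.Agent.Work.MP_974d84_co_exp.Conf

/-!
# Clean cuts: choosing the sites such that all cyclic cuts keep many edges far from the sites
-/

set_option linter.unusedSectionVars false

namespace Pool.Agent.K5

open Finset SimpleGraph Pool.Agent.Work.MP_314beb_co Pool.Agent.Exp Pool.Agent.Log5 Pool.Agent.Log5.Clu

variable {V : Type} [Fintype V] [DecidableEq V] (G : SimpleGraph V) [DecidableRel G.Adj]

/-- The clean edges of a cut: edges without end in `T`. -/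
def cdd (T X : Finset V) : ℕ := ((cut G X).filter fun p => p.1 ∉ T ∧ p.2 ∉ T).card

/-- Closed under the edges of `G₁` (in both directions). -/
def GClo (G₁ : SimpleGraph V) (X : Finset V) : Prop := ∀ x y, G₁.Adj x y → (x ∈ X ↔ y ∈ X)

open Classical in
/-- Every ball of radius `r` meets at most `m` edges outside `G₁`. -/
def Few (G₁ : SimpleGraph V) (r m : ℕ) : Prop := ∀ v, ((univ : Finset (V × V)).filter
  fun p => p.1 ∈ Bl G.Adj r v ∧ G.Adj p.1 p.2 ∧ ¬ G₁.Adj p.1 p.2).card ≤ m

/-- The vertex lies in an acyclic set which is closed under the edges of `G₁`. -/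
def Tiny (G₁ : SimpleGraph V) (v : V) : Prop := ∃ U : Finset V, v ∈ U ∧ GClo G₁ U ∧
  (G.induce (U : Set V)).IsAcyclic

end Pool.Agent.K5
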