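import Mathlib
import Pool.Agent.Work.MP_974d84_co_log.BigOf
import Pool.Agent.Work.MP_974d84_co_log.Cluster
import Pool.Agent.Work.MP_974d84_co_log.Girth
import Pool.Agent.Work.MP_974d84_co_k5.CleanDefs

/-!
# Sparse sets of edges cut off only tiny acyclic parts
-/

set_option linter.unusedSectionVars false

namespace Pool.Agent.K5

open Finset SimpleGraph Pool.Agent.Exp Pool.Agent.Log5 Pool.Agent.Log5.Clu
open Pool.Agent.Work.MP_314beb_co

variable {V : Type} [Fintype V] [DecidableEq V] {G : SimpleGraph V} [DecidableRel G.Adj]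

/-- The component of `w` in `S`. -/
theorem exists_comp (H : SimpleGraph V) {S : Finset V} {w : V} (hw : w ∈ S) :
    ∃ A ⊆ S, w ∈ A ∧ Joined H A ∧ ∀ x ∈ A, ∀ y ∈ S, y ∉ A → ¬ H.Adj x y := by
  classical
  obtain ⟨A, hA, hmax⟩ := exists_max_image
    (S.powerset.filter fun A => w ∈ A ∧ Joined H A) card
    ⟨{w}, by
      rw [mem_filter, mem_powerset]
      exact ⟨singleton_subset_iff.2 hw, mem_singleton_self w, joined_singleton w⟩⟩
  rw [mem_filter, mem_powerset] at hA
  refine ⟨A, hA.1, hA.2.1, hA.2.2, fun x hx y hy hyA hxy => ?_⟩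
  have h1 := hmax (A ∪ {y}) (by
    rw [mem_filter, mem_powerset]
    exact ⟨union_subset hA.1 (singleton_subset_iff.2 hy), mem_union_left _ hA.2.1,
      joined_union hA.2.2 (joined_singleton y) hx (mem_singleton_self y) hxy⟩)
  rw [card_union_of_disjoint (disjoint_singleton_right.2 hyA), card_singleton] at h1
  omega

/-- Joined sets inside a closed set. -/
theorem joined_subset {H : SimpleGraph V} {S A B : Finset V} (hB : Joined H B) (hBS : B ⊆ S)
    (hA : ∀ x ∈ A, ∀ y ∈ S, y ∉ A → ¬ H.Adj x y) {z : V} (hzA : z ∈ A) (hzB : z ∈ B) : B ⊆ A := by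
  by_contra h
  obtain ⟨x, hx, y, hy, hyA, hxy⟩ := hB (B ∩ A) inter_subset_left ⟨z, mem_inter.2 ⟨hzB, hzA⟩⟩
    (fun h' => h (inter_eq_left.1 h'))
  exact hA x (mem_inter.1 hx).2 y (hBS hy) (fun h' => hyA (mem_inter.2 ⟨hy, h'⟩)) hxy

theorem acyclic_mono {A B : Finset V} (h : A ⊆ B) (hB : (G.induce (B : Set V)).IsAcyclic) :
    (G.induce (A : Set V)).IsAcyclic := by
  have h1 : Function.Injective (Set.inclusion (coe_subset.2 h)) :=
    Set.inclusion_injective _
  exact hB.comap (⟨Set.inclusion (coe_subset.2 h), fun {a b} hab => hab⟩ :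
    (G.induce (A : Set V)) →g (G.induce (B : Set V))) h1

theorem dd_joined_acyclic (h3 : ∀ v, G.degree v = 3) {A : Finset V} (hne : A.Nonempty)
    (hj : Joined G A) (hac : (G.induce (A : Set V)).IsAcyclic) : dd G A = A.card + 2 :=
  le_antisymm (dd_le_of_joined h3 hj hne) (dd_of_acyclic G h3 hne hac)

theorem subset_Bl {A : Finset V} (hj : Joined G A) {p : V} (hp : p ∈ A) {r : ℕ}
    (hr : A.card ≤ r) : A ⊆ Bl G.Adj r p := by
  by_contra h
  have h1 : ¬ A ⊆ Bl (RW G A) r p := fun h' =>
    h (h'.trans (Bl_rel (fun u v huv => huv.1) r p))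
  have h2 := Bl_grow hj hp r h1
  have h4 := card_le_card (Bl_RW_sub hp r (G := G))
  omega

/-- The edges which leave `A` and are not in `D`. -/
def ncut (G : SimpleGraph V) [DecidableRel G.Adj] (D : V → V → Prop) [DecidableRel D]
    (A : Finset V) : Finset (V × V) :=
  (cut G A).filter fun p => ¬ D p.1 p.2

theorem dd_eq_add (D : V → V → Prop) [DecidableRel D] (A : Finset V) :
    dd G A = ((cut G A).filter fun p => D p.1 p.2).card + (ncut G D A).card := by
  unfold dd ncut
  rw [← card_union_of_disjoint (disjoint_filter_filter_not _ _ _), filter_union_filter_not_eq]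

variable {D : V → V → Prop} [DecidableRel D]

/-- **Joined acyclic sets almost all of whose leaving edges are in a sparse set of edges are
tiny.** -/
theorem tiny (h3 : ∀ v, G.degree v = 3) {r m : ℕ} (hr : 3 * m ≤ r)
    (hD : ∀ v, ∀ A ⊆ Bl G.Adj r v, ((cut G A).filter fun p => D p.1 p.2).card ≤ m) :
    ∀ (n : ℕ) (U : Finset V), U.card = n → U.Nonempty → Joined G U →
      (G.induce (U : Set V)).IsAcyclic → (ncut G D U).card ≤ 1 → U.card + 1 ≤ m := by
  intro n
  induction n using Nat.strong_induction_on with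
  | _ n ih =>
  intro U hn hne hj hac hc
  -- the vertex of the exceptional edge
  obtain ⟨p, hp, hpe⟩ : ∃ p ∈ U, ∀ e ∈ ncut G D U, e.1 = p := by
    rcases (ncut G D U).eq_empty_or_nonempty with h | ⟨e, he⟩
    · obtain ⟨p, hp⟩ := hne
      exact ⟨p, hp, by rw [h]; simp⟩
    · refine ⟨e.1, ?_, fun e' he' => by rw [card_le_one.1 hc e' he' e he]⟩
      unfold ncut at he
      rw [mem_filter, mem_cut] at he
      exact he.1.1
  -- the components of the rest
  have hcomp : ∀ w ∈ U.erase p, ∃ A ⊆ U.erase p, w ∈ A ∧ Joined G A ∧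
      ∀ x ∈ A, ∀ y ∈ U.erase p, y ∉ A → ¬ G.Adj x y := fun w hw => exists_comp G hw
  choose! A hAs hAw hAj hAc using hcomp
  have hsmall : ∀ w ∈ U.erase p, (A w).card + 1 ≤ m := by
    intro w hw
    have hAU : A w ⊆ U := (hAs w hw).trans (erase_subset _ _)
    have hAne : (A w).Nonempty := ⟨w, hAw w hw⟩
    have hpA : p ∉ A w := fun h => notMem_erase p U (hAs w hw h)
    have hAac := acyclic_mono (G := G) hAU hac
    have hcard : (A w).card < n := by
      have h1 := card_le_card (hAs w hw)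
      rw [card_erase_of_mem hp] at h1
      have := card_pos.2 ⟨p, hp⟩
      omega
    refine ih (A w).card hcard (A w) rfl hAne (hAj w hw) hAac ?_
    -- the edges to `p`
    have hpI : insert p (A w) ⊆ U := insert_subset hp hAU
    have h1 : dd G (A w) = (A w).card + 2 := dd_joined_acyclic h3 hAne (hAj w hw) hAac
    have h2 := dd_of_acyclic G h3 (insert_nonempty p (A w)) (acyclic_mono (G := G) hpI hac)
    have h4 := dd_insert h3 hpA
    rw [card_insert_of_notMem hpA] at h2
    have h5 : nb G (A w) p ≤ 1 := by omega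
    refine le_trans (card_le_card_of_injOn (fun e => e.1) (t := (A w).filter fun x => G.Adj p x)
      ?_ ?_) h5
    · intro e he
      have he' : e ∈ ncut G D (A w) := he
      unfold ncut at he'
      rw [mem_filter, mem_cut] at he'
      obtain ⟨⟨e1, e2, e3⟩, e4⟩ := he'
      have hep : e.2 = p := by
        by_contra hep
        by_cases heU : e.2 ∈ U
        · exact hAc w hw e.1 e1 e.2 (mem_erase.2 ⟨hep, heU⟩) e2 e3
        · have h6 : e ∈ ncut G D U := by
            unfold ncut
            rw [mem_filter, mem_cut]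
            exact ⟨⟨hAU e1, heU, e3⟩, e4⟩
          have h7 := hpe e h6
          rw [h7] at e1
          exact hpA e1
      have : e.1 ∈ (A w).filter fun x => G.Adj p x := by
        rw [mem_filter]
        exact ⟨e1, by rw [← hep]; exact e3.symm⟩
      exact this
    · intro e he e' he' hee
      have h8 : ∀ e ∈ ncut G D (A w), e.2 = p := by
        intro e he
        unfold ncut at he
        rw [mem_filter, mem_cut] at he
        obtain ⟨⟨e1, e2, e3⟩, e4⟩ := he
        by_contra hep
        by_cases heU : e.2 ∈ U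
        · exact hAc w hw e.1 e1 e.2 (mem_erase.2 ⟨hep, heU⟩) e2 e3
        · have h6 : e ∈ ncut G D U := by
            unfold ncut
            rw [mem_filter, mem_cut]
            exact ⟨⟨hAU e1, heU, e3⟩, e4⟩
          have h7 := hpe e h6
          rw [h7] at e1
          exact hpA e1
      exact Prod.ext hee ((h8 e he).trans (h8 e' he').symm)
  -- the size of `U`
  have hU : U ⊆ insert p (((U.erase p).filter fun w => G.Adj p w).biUnion A) := by
    intro x hx
    by_cases hxp : x = p
    · rw [hxp]; exact mem_insert_self _ _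
    have hx' : x ∈ U.erase p := mem_erase.2 ⟨hxp, hx⟩
    have hAU : A x ⊆ U := (hAs x hx').trans (erase_subset _ _)
    have hpA : p ∉ A x := fun h => notMem_erase p U (hAs x hx' h)
    obtain ⟨u, hu, v, hv, hvA, huv⟩ := hj (A x) hAU ⟨x, hAw x hx'⟩
      (fun h => hpA (by rw [h]; exact hp))
    have hvp : v = p := by
      by_contra hvp
      exact hAc x hx' u hu v (mem_erase.2 ⟨hvp, hv⟩) hvA huv
    rw [hvp] at huv
    have hu' : u ∈ U.erase p := hAs x hx' hu
    refine mem_insert_of_mem (mem_biUnion.2 ⟨u, mem_filter.2 ⟨hu', huv.symm⟩, ?_⟩)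
    exact joined_subset (hAj x hx') (hAs x hx') (hAc u hu') (hAw u hu') hu (hAw x hx')
  have hcardU : U.card ≤ 1 + 3 * (m - 1) := by
    refine (card_le_card hU).trans ((card_insert_le _ _).trans ?_)
    have h1 : (((U.erase p).filter fun w => G.Adj p w).biUnion A).card ≤
        ((U.erase p).filter fun w => G.Adj p w).card * (m - 1) :=
      card_biUnion_le_card_mul _ _ _ fun w hw => by
        have := hsmall w (mem_filter.1 hw).1
        omega
    have h2 : ((U.erase p).filter fun w => G.Adj p w).card ≤ 3 := by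
      rw [← h3 p, ← card_neighborFinset_eq_degree]
      exact card_le_card fun w hw => (mem_neighborFinset G p w).2 (mem_filter.1 hw).2
    have h4 := Nat.mul_le_mul_right (m - 1) h2
    omega
  have hdd : dd G U = U.card + 2 := dd_joined_acyclic h3 hne hj hac
  have hsplit := dd_eq_add (G := G) D U
  -- `m` is positive
  have hm : 1 ≤ m := by
    by_contra hm
    have hm0 : m = 0 := by omega
    have h1 : U.card = 1 := by
      have := card_pos.2 ⟨p, hp⟩
      omega
    have h2 : U ⊆ Bl G.Adj r p := by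
      obtain ⟨x, hx⟩ := card_eq_one.1 h1
      rw [hx] at hp ⊢
      rw [mem_singleton.1 hp]
      exact singleton_subset_iff.2 (Bl_self r x)
    have h4 := hD p U h2
    omega
  have hball : U ⊆ Bl G.Adj r p := subset_Bl hj hp (by omega)
  have h4 := hD p U hball
  omega

/-- Joined sets which are left only by edges in `D` and which are unions of acyclic parts with
this property are tiny. -/
theorem tiny_union (h3 : ∀ v, G.degree v = 3) {r m k : ℕ} (hr : 3 * m ≤ r) (hk : 2 * m ≤ k)
    (hg : Gir G k)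
    (hD : ∀ v, ∀ A ⊆ Bl G.Adj r v, ((cut G A).filter fun p => D p.1 p.2).card ≤ m)
    {B : Finset V} (hne : B.Nonempty) (hj : Joined G B)
    (hB : ∀ x ∈ B, ∃ A ⊆ B, x ∈ A ∧ Joined G A ∧ (G.induce (A : Set V)).IsAcyclic ∧
      ncut G D A = ∅) : B.card + 2 ≤ m := by
  classical
  -- a joined acyclic set without exceptional edges
  have key : ∀ U : Finset V, U.Nonempty → Joined G U → (G.induce (U : Set V)).IsAcyclic →
      ncut G D U = ∅ → U.card + 2 ≤ m := by
    intro U hU hjU hac hcU
    have h1 := tiny h3 hr hD U.card U rfl hU hjU hac (by rw [hcU]; simp)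
    obtain ⟨p, hp⟩ := hU
    have h2 := hD p U (subset_Bl hjU hp (by omega))
    have h4 := dd_eq_add (G := G) D U
    rw [hcU, card_empty, dd_joined_acyclic h3 ⟨p, hp⟩ hjU hac] at h4
    omega
  have hun : ∀ A C : Finset V, ncut G D A = ∅ → ncut G D C = ∅ → ncut G D (A ∪ C) = ∅ := by
    intro A C hA hC
    rw [eq_empty_iff_forall_notMem] at hA hC ⊢
    intro e he
    unfold ncut at he hA hC
    simp only [mem_filter, mem_cut] at he hA hC
    obtain ⟨⟨e1, e2, e3⟩, e4⟩ := he
    rw [mem_union, not_or] at e2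
    rcases mem_union.1 e1 with e1 | e1
    · exact hA e ⟨⟨e1, e2.1, e3⟩, e4⟩
    · exact hC e ⟨⟨e1, e2.2, e3⟩, e4⟩
  obtain ⟨x, hx⟩ := hne
  obtain ⟨A0, a1, a2, a3, a4, a5⟩ := hB x hx
  obtain ⟨A, hA, hmax⟩ := exists_max_image
    (B.powerset.filter fun A => A.Nonempty ∧ Joined G A ∧ ncut G D A = ∅ ∧ A.card + 2 ≤ m) card
    ⟨A0, by
      rw [mem_filter, mem_powerset]
      exact ⟨a1, ⟨x, a2⟩, a3, a5, key A0 ⟨x, a2⟩ a3 a4 a5⟩⟩
  rw [mem_filter, mem_powerset] at hA
  obtain ⟨hAB, hAne, hAj, hAc, hAm⟩ := hA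
  by_cases h : A = B
  · rw [← h]; exact hAm
  exfalso
  obtain ⟨u, hu, v, hv, hvA, huv⟩ := hj A hAB hAne h
  obtain ⟨C, c1, c2, c3, c4, c5⟩ := hB v hv
  have hCm := key C ⟨v, c2⟩ c3 c4 c5
  have hAC : Joined G (A ∪ C) := joined_union hAj c3 hu c2 huv
  have hcard := card_union_le A C
  have hac : (G.induce ((A ∪ C : Finset V) : Set V)).IsAcyclic := hg _ (by omega)
  have hm2 := key (A ∪ C) (hAne.mono subset_union_left) hAC hac (hun A C hAc c5)
  have h1 := hmax (A ∪ C) (by
    rw [mem_filter, mem_powerset]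
    exact ⟨union_subset hAB c1, hAne.mono subset_union_left, hAC, hun A C hAc c5, hm2⟩)
  have h2 : insert v A ⊆ A ∪ C := insert_subset (mem_union_right _ c2) subset_union_left
  have h4 := card_le_card h2
  rw [card_insert_of_notMem hvA] at h4
  omega

open Classical in
theorem few_cut {G₁ : SimpleGraph V} {r m : ℕ} (hF : Few G G₁ r m) (v : V)
    (A : Finset V) (hA : A ⊆ Bl G.Adj r v) :
    ((cut G A).filter fun p => ¬ G₁.Adj p.1 p.2).card ≤ m := by
  refine le_trans (card_le_card fun p hp => ?_) (hF v)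
  rw [mem_filter, mem_cut] at hp
  rw [mem_filter]
  exact ⟨mem_univ _, hA hp.1.1, hp.1.2.2, hp.2⟩

open Classical in
theorem ncut_eq_empty {G₁ : SimpleGraph V} {A : Finset V}
    (h : ∀ x ∈ A, ∀ y, G₁.Adj x y → y ∈ A) : ncut G (fun x y => ¬ G₁.Adj x y) A = ∅ := by
  rw [eq_empty_iff_forall_notMem]
  intro e he
  unfold ncut at he
  rw [mem_filter, mem_cut, not_not] at he
  exact he.1.2.1 (h _ he.1.1 _ he.2)

/-- **Joined acyclic sets which are left only by edges outside `G₁` are tiny.** -/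
theorem closed_small (h3 : ∀ v, G.degree v = 3) {G₁ : SimpleGraph V} {m : ℕ}
    (hF : Few G G₁ (3 * m) m) {U : Finset V} (hU : U.Nonempty) (hJ : Joined G U)
    (hac : (G.induce (U : Set V)).IsAcyclic) (hcl : GClo G₁ U) : U.card + 2 ≤ m := by
  classical
  have hc : ncut G (fun x y => ¬ G₁.Adj x y) U = ∅ :=
    ncut_eq_empty fun x hx y hxy => (hcl x y hxy).1 hx
  have h1 := tiny h3 le_rfl (fun v A hA => few_cut hF v A hA) U.card U rfl hU hJ hac
    (by rw [hc]; simp)
  obtain ⟨p, hp⟩ := hU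
  have h2 := few_cut hF p U (subset_Bl hJ hp (by omega))
  have h4 := dd_eq_add (G := G) (fun x y => ¬ G₁.Adj x y) U
  rw [hc, card_empty, dd_joined_acyclic h3 ⟨p, hp⟩ hJ hac] at h4
  omega

/-- **Joined sets of tiny vertices are tiny.** -/
theorem tiny_small (h3 : ∀ v, G.degree v = 3) {G₁ : SimpleGraph V} (hG : G₁ ≤ G) {m k : ℕ}
    (hg : Gir G k) (hk : 2 * m ≤ k) (hF : Few G G₁ (3 * m) m) {Z : Finset V} (hZ : Z.Nonempty)
    (hJ : Joined G Z) (hT : ∀ v ∈ Z, Tiny G G₁ v) : Z.card + 2 ≤ m := by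
  classical
  obtain ⟨z, hz⟩ := hZ
  have hZS : Z ⊆ univ.filter (Tiny G G₁) := fun v hv => mem_filter.2 ⟨mem_univ v, hT v hv⟩
  obtain ⟨B, hBS, hzB, hBj, hBc⟩ := exists_comp G (hZS hz)
  have hZB : Z ⊆ B := joined_subset hJ hZS hBc hzB hz
  have h1 := tiny_union (D := fun x y => ¬ G₁.Adj x y) h3 le_rfl hk hg
    (fun v A hA => few_cut hF v A hA) ⟨z, hzB⟩ hBj (by
      intro x hx
      obtain ⟨U, hxU, hUc, hUa⟩ := (mem_filter.1 (hBS hx)).2
      obtain ⟨A, hAU, hxA, hAj, hAc⟩ := exists_comp G hxU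
      refine ⟨A, ?_, hxA, hAj, acyclic_mono hAU hUa, ?_⟩
      · have hAS : A ⊆ univ.filter (Tiny G G₁) := fun v hv =>
          mem_filter.2 ⟨mem_univ v, U, hAU hv, hUc, hUa⟩
        exact joined_subset hAj hAS hBc hx hxA
      · refine ncut_eq_empty fun a ha y hay => ?_
        by_contra hy
        exact hAc a ha y ((hUc a y hay).1 (hAU ha)) hy (hG hay))
  have h2 := card_le_card hZB
  omega

end Pool.Agent.K5
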