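import Mathlib
import Pool.Agent.Work.MP_974d84_co_k5.Bead
import Pool.Agent.Work.MP_974d84_co_k5.CleanA

/-!
# Beads inside a set of large girth with a boundary which is far apart

The relative form of the bead lemma: the number of the edges leaving the given set is arbitrary.
-/

set_option linter.unusedSectionVars false

namespace Pool.Agent.K5

open Finset SimpleGraph Pool.Agent.Exp Pool.Agent.Log5 Pool.Agent.Log5.Clu

section

variable {V : Type} [Fintype V] [DecidableEq V] {G : SimpleGraph V} [DecidableRel G.Adj]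

theorem joined_of_conn {Q : Finset V} (h : (G.induce (Q : Set V)).Connected) : Joined G Q := by
  intro A hA hne hneq
  obtain ⟨a, ha⟩ := hne
  obtain ⟨b, hb, hbA⟩ : ∃ b ∈ Q, b ∉ A := by
    by_contra hcon
    push Not at hcon
    exact hneq (Subset.antisymm hA hcon)
  by_contra hcon
  push Not at hcon
  have key : ∀ {x y : (Q : Set V)} (p : (G.induce (Q : Set V)).Walk x y), x.1 ∈ A → y.1 ∈ A := by
    intro x y p
    induction p with
    | nil => exact id
    | @cons u v w hadj p ih =>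
      intro hx
      refine ih ?_
      by_contra hy
      exact hcon _ hx _ v.2 hy hadj
  obtain ⟨p⟩ := h.preconnected ⟨a, hA ha⟩ ⟨b, hb⟩
  exact hbA (key p ha)

theorem conn_of_joined {Q : Finset V} (hne : Q.Nonempty) (h : Joined G Q) :
    (G.induce (Q : Set V)).Connected := by
  classical
  obtain ⟨a, ha⟩ := hne
  rw [connected_iff_exists_forall_reachable]
  refine ⟨⟨a, ha⟩, ?_⟩
  by_contra hcon
  push Not at hcon
  obtain ⟨⟨b, hb⟩, hbr⟩ := hcon
  obtain ⟨x, hx, y, hy, hyA, hxy⟩ := h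
    (Q.filter fun v => ∃ hv : v ∈ (Q : Set V), (G.induce (Q : Set V)).Reachable ⟨a, ha⟩ ⟨v, hv⟩)
    (filter_subset _ _) ⟨a, mem_filter.2 ⟨ha, ha, Reachable.refl _⟩⟩ (fun h' => by
      rw [filter_eq_self] at h'
      obtain ⟨_, h2⟩ := h' b hb
      exact hbr h2)
  obtain ⟨_, hx', hr⟩ := mem_filter.1 hx
  refine hyA (mem_filter.2 ⟨hy, hy, hr.trans (Adj.reachable ?_)⟩)
  exact hxy

theorem far_joined {D : ℕ} {P : Finset V} (h : FarB G D P) {Q : Finset V} (hQ : Q ⊆ P)
    (hc : Q.card ≤ D) (hj : Joined G Q) : ee G Q Pᶜ ≤ 1 := by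
  rcases Q.eq_empty_or_nonempty with rfl | hne
  · rw [ee_sum, sum_empty]
    exact Nat.zero_le _
  · exact h Q hQ hc (conn_of_joined hne hj)

/-- A nonempty set with a boundary which is far apart contains a circuit. -/
theorem far_cyclic (h3 : ∀ v, G.degree v = 3) {D : ℕ} (hD : 1 ≤ D) {P : Finset V}
    (h : FarB G D P) (hne : P.Nonempty) : ¬ (G.induce (P : Set V)).IsAcyclic := by
  intro hac
  have h1 := dd_of_acyclic G h3 hne hac
  have h2 : dd G P ≤ P.card := by
    rw [dd_ee, ee_sum, card_eq_sum_ones]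
    refine sum_le_sum fun u hu => ?_
    have h4 := far_joined h (Q := {u}) (singleton_subset_iff.2 hu) (by rw [card_singleton]; exact hD)
      (joined_singleton u)
    rw [ee_sum, sum_singleton] at h4
    exact h4
  omega

/-- Small sets inside a set of large girth with a boundary which is far apart. -/
theorem far_small (h3 : ∀ v, G.degree v = 3) {g : ℕ} {W : Finset V}
    (hg : ∀ Q ⊆ W, Q.card < g → (G.induce (Q : Set V)).IsAcyclic) (hW : FarB G g W) :
    ∀ (n : ℕ) (F : Finset V), F.card = n → F ⊆ W → n < g → 2 * ee G F Wᶜ + F.card ≤ dd G F := by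
  intro n
  induction n using Nat.strong_induction_on with
  | _ n ih =>
  intro F hn hF hng
  rcases F.eq_empty_or_nonempty with rfl | ⟨w, hw⟩
  · rw [ee_sum, sum_empty, card_empty]
    exact Nat.zero_le _
  obtain ⟨A, hA, hwA, hAj, hAc⟩ := exists_comp G hw
  have hAne : A.Nonempty := ⟨w, hwA⟩
  have hcard : (F \ A).card + A.card = F.card := card_sdiff_add_card_eq_card hA
  have hApos := hAne.card_pos
  have h0 : ee G A (F \ A) = 0 := by
    unfold ee
    rw [card_eq_zero, filter_eq_empty_iff]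
    rintro ⟨u, v⟩ _ ⟨hu, hv, huv⟩
    exact hAc u hu v (mem_sdiff.1 hv).1 (mem_sdiff.1 hv).2 huv
  have h1 := bead_split (G := G) hA
  have h2 := ih (F \ A).card (by omega) (F \ A) rfl (sdiff_subset.trans hF) (by omega)
  have h4 := dd_of_acyclic G h3 hAne (hg A (hA.trans hF) (by omega))
  have h5 := far_joined hW (hA.trans hF) (by omega) hAj
  have h6 : ee G F Wᶜ = ee G A Wᶜ + ee G (F \ A) Wᶜ := by
    rw [← ee_union_left disjoint_sdiff, union_sdiff_of_subset hA]
  omega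

theorem adm_le_in (h3 : ∀ v, G.degree v = 3) {g : ℕ} {W : Finset V}
    (hg : ∀ Q ⊆ W, Q.card < g → (G.induce (Q : Set V)).IsAcyclic) (hW : FarB G g W)
    {D : ℕ} {X F : Finset V} {s : ℕ} (hX : X ⊆ W) (h : Adm G D X F s) (hs : D * s < g) :
    s ≤ ee G X (W \ X) := by
  obtain ⟨hF, hc, hd⟩ := h
  have h1 := far_small h3 hg hW F.card F rfl (hF.trans hX) (by omega)
  have h2 := bead_sdiff (G := G) hF
  have h4 := bead_ee_compl (G := G) (F := F) hX
  have h5 : ee G F (W \ X) ≤ ee G X (W \ X) := ee_mono hF (Subset.refl _)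
  omega

/-- The splitting process. -/
theorem bead_chain_in {P₀ : Finset V} {k₁ J : ℕ} {n : Finset V → ℕ}
    (hn : ∀ P ⊆ P₀, ∀ Y ⊆ P, n Y + n (P \ Y) = n P + 2 * ee G Y (P \ Y))
    (hcyc : ¬ (G.induce (P₀ : Set V)).IsAcyclic) {T B : ℕ → ℕ} (hB0 : B 0 = 0)
    (hB : ∀ j, B (j + 1) = B j + T j) (hT : ∀ j, j ≤ J → 4 * T j ≤ k₁) :
    ∀ j, j ≤ J → (∃ i, i < j ∧ ∃ P ⊆ P₀, ¬ (G.induce (P : Set V)).IsAcyclic ∧
      ee G P (P₀ \ P) ≤ B i ∧ ∀ Y ⊆ P, ¬ (G.induce (Y : Set V)).IsAcyclic →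
        ¬ (G.induce ((P \ Y : Finset V) : Set V)).IsAcyclic → T i ≤ ee G Y (P \ Y)) ∨
      ∃ P ⊆ P₀, ¬ (G.induce (P : Set V)).IsAcyclic ∧ ee G P (P₀ \ P) ≤ B j ∧
        (1 ≤ j → P ⊂ P₀) ∧ 2 ^ j * (2 * n P) + k₁ ≤ 2 * n P₀ + 2 ^ j * k₁ := by
  intro j
  induction j with
  | zero =>
    intro _
    refine Or.inr ⟨P₀, Subset.refl _, hcyc, ?_, fun h => absurd h (by norm_num), ?_⟩
    · rw [hB0, sdiff_self, ee_comm, ee_sum]
      exact (Nat.le_of_eq (sum_empty))
    · simp
  | succ j ih =>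
    intro hj
    rcases ih (by omega) with ⟨i, hi, h⟩ | ⟨P, hP, hPc, hPB, hPs, hPd⟩
    · exact Or.inl ⟨i, by omega, h⟩
    by_cases hcut : ∀ Y ⊆ P, ¬ (G.induce (Y : Set V)).IsAcyclic →
        ¬ (G.induce ((P \ Y : Finset V) : Set V)).IsAcyclic → T j ≤ ee G Y (P \ Y)
    · exact Or.inl ⟨j, by omega, P, hP, hPc, hPB, hcut⟩
    right
    push Not at hcut
    obtain ⟨Y, hY, hYc, hYc', hYT⟩ := hcut
    have hsplit := hn P hP Y hY
    have hT' := hT j (by omega)
    -- the smaller part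
    have key : ∀ Z ⊆ P, ¬ (G.induce (Z : Set V)).IsAcyclic →
        ¬ (G.induce ((P \ Z : Finset V) : Set V)).IsAcyclic → ee G Z (P \ Z) < T j →
        2 * n Z ≤ n P + 2 * T j → ∃ P' ⊆ P₀, ¬ (G.induce (P' : Set V)).IsAcyclic ∧
        ee G P' (P₀ \ P') ≤ B (j + 1) ∧ (1 ≤ j + 1 → P' ⊂ P₀) ∧
        2 ^ (j + 1) * (2 * n P') + k₁ ≤ 2 * n P₀ + 2 ^ (j + 1) * k₁ := by
      intro Z hZ hZc hZc' hZT hZd
      refine ⟨Z, hZ.trans hP, hZc, ?_, fun _ => ?_, ?_⟩
      · have h1 : P₀ \ Z = (P₀ \ P) ∪ (P \ Z) := by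
          ext v
          simp only [mem_sdiff, mem_union]
          constructor
          · rintro ⟨h1, h2⟩
            by_cases h3 : v ∈ P
            · exact Or.inr ⟨h3, h2⟩
            · exact Or.inl ⟨h1, h3⟩
          · rintro (⟨h1, h2⟩ | ⟨h1, h2⟩)
            · exact ⟨h1, fun h => h2 (hZ h)⟩
            · exact ⟨hP h1, h2⟩
        have h2 : Disjoint (P₀ \ P) (P \ Z) := by
          rw [Finset.disjoint_left]
          intro v h1 h2
          exact (mem_sdiff.1 h1).2 (mem_sdiff.1 h2).1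
        rw [h1, ee_union_right h2, hB]
        have h4 : ee G Z (P₀ \ P) ≤ ee G P (P₀ \ P) := ee_mono hZ (Subset.refl _)
        omega
      · refine ⟨hZ.trans hP, fun h => hZc' ?_⟩
        have h1 : P \ Z = ∅ := sdiff_eq_empty_iff_subset.2 (hP.trans h)
        rw [h1, coe_empty]
        exact SimpleGraph.IsAcyclic.of_subsingleton
      · have h1 : 4 * n Z ≤ 2 * n P + k₁ := by omega
        have h2 := Nat.mul_le_mul_left (2 ^ j) h1
        have h4 : 2 ^ (j + 1) * (2 * n Z) = 2 ^ j * (4 * n Z) := by ring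
        have h5 : 2 ^ j * (2 * n P + k₁) = 2 ^ j * (2 * n P) + 2 ^ j * k₁ := by ring
        have h6 : 2 ^ (j + 1) * k₁ = 2 ^ j * k₁ + 2 ^ j * k₁ := by ring
        omega
    by_cases hle : n Y ≤ n (P \ Y)
    · exact key Y hY hYc hYc' hYT (by omega)
    · refine key (P \ Y) sdiff_subset hYc' ?_ ?_ (by omega)
      · rwa [sdiff_sdiff_right_self, inf_eq_inter, inter_eq_right.2 hY]
      · rw [sdiff_sdiff_right_self, inf_eq_inter, inter_eq_right.2 hY, ee_comm]
        exact hYT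

theorem bead_split_in {W P Y : Finset V} (hP : P ⊆ W) (hY : Y ⊆ P) :
    ee G Y (W \ Y) + ee G (P \ Y) (W \ (P \ Y)) = ee G P (W \ P) + 2 * ee G Y (P \ Y) := by
  have h1 : W \ Y = (W \ P) ∪ (P \ Y) := by
    ext v
    simp only [mem_sdiff, mem_union]
    constructor
    · rintro ⟨h1, h2⟩
      by_cases h3 : v ∈ P
      · exact Or.inr ⟨h3, h2⟩
      · exact Or.inl ⟨h1, h3⟩
    · rintro (⟨h1, h2⟩ | ⟨h1, h2⟩)
      · exact ⟨h1, fun h => h2 (hY h)⟩
      · exact ⟨hP h1, h2⟩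
  have h1' : W \ (P \ Y) = (W \ P) ∪ Y := by
    ext v
    simp only [mem_sdiff, mem_union]
    constructor
    · rintro ⟨h1, h2⟩
      by_cases h3 : v ∈ P
      · by_cases h4 : v ∈ Y
        · exact Or.inr h4
        · exact absurd ⟨h3, h4⟩ h2
      · exact Or.inl ⟨h1, h3⟩
    · rintro (⟨h1, h2⟩ | h1)
      · exact ⟨h1, fun h => h2 h.1⟩
      · exact ⟨hP (hY h1), fun h => h.2 h1⟩
  have h2 : Disjoint (W \ P) (P \ Y) := by
    rw [Finset.disjoint_left]
    intro v h1 h2
    exact (mem_sdiff.1 h1).2 (mem_sdiff.1 h2).1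
  have h2' : Disjoint (W \ P) Y := by
    rw [Finset.disjoint_left]
    intro v h1 h2
    exact (mem_sdiff.1 h1).2 (hY h2)
  have h4 : ee G P (W \ P) = ee G Y (W \ P) + ee G (P \ Y) (W \ P) := by
    rw [← ee_union_left disjoint_sdiff, union_sdiff_of_subset hY]
  rw [h1, h1', ee_union_right h2, ee_union_right h2', h4, ee_comm (P \ Y) Y]
  omega

end

/-- **Relative bead lemma.** A nonempty set which has large girth and whose boundary is far apart
contains a set `P` such that the edges leaving `P` are far apart in `P` and all cyclic cuts of `P`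
are large. -/
theorem exists_bead_in (D k₀ : ℕ) : ∃ g : ℕ, ∀ {V : Type} [Fintype V]
    [DecidableEq V] (G : SimpleGraph V) [DecidableRel G.Adj], (∀ v, G.degree v = 3) →
    ∀ W : Finset V, W.Nonempty → (∀ Q ⊆ W, Q.card < g → (G.induce (Q : Set V)).IsAcyclic) →
    FarB G g W → ∃ P ⊆ W, ¬ (G.induce (P : Set V)).IsAcyclic ∧ FarB G D P ∧
      ∀ Y ⊆ P, ¬ (G.induce (Y : Set V)).IsAcyclic →
        ¬ (G.induce ((P \ Y : Finset V) : Set V)).IsAcyclic → k₀ ≤ ee G Y (P \ Y) := by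
  set E : ℕ := D + 1 with hE
  set θ : ℕ := 12 * E + 1 with hθ
  set J : ℕ := 12 * E + 2 with hJ
  set T : ℕ → ℕ := fun j => 2 * (k₀ + 1) * θ ^ j with hT
  set B : ℕ → ℕ := fun j => ∑ i ∈ range j, T i with hB
  have hB0 : B 0 = 0 := by simp [hB]
  have hBs : ∀ j, B (j + 1) = B j + T j := fun j => sum_range_succ _ _
  set k₁ : ℕ := 4 * T J with hk₁
  have hTJ : ∀ j, j ≤ J → T j ≤ T J := fun j hj =>
    Nat.mul_le_mul_left _ (Nat.pow_le_pow_right (by omega) hj)
  have hT0 : ∀ j, 2 * (k₀ + 1) ≤ T j := fun j =>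
    Nat.le_mul_of_pos_right _ (Nat.pow_pos (by omega))
  have hk₁0 : 0 < k₁ := by
    have := hT0 J
    omega
  have hE1 : 1 ≤ E := by omega
  have hEk : k₁ ≤ E * k₁ := Nat.le_mul_of_pos_left _ hE1
  refine ⟨2 * E * (2 * k₁ + 1) + 10 * (E * k₁) + 1, fun {V} _ _ G _ h3 W hWne hg hWF => ?_⟩
  classical
  have hWc := far_cyclic h3 (by omega) hWF hWne
  -- the minimal cyclic subset
  obtain ⟨X, hX, hXmin⟩ := exists_min_image (W.powerset.filter fun S : Finset V =>
      ¬ (G.induce (S : Set V)).IsAcyclic ∧ ee G S (W \ S) < k₁) card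
    ⟨W, mem_filter.2 ⟨mem_powerset_self W, hWc, by
      rw [sdiff_self, ee_comm, ee_sum]
      exact lt_of_eq_of_lt sum_empty hk₁0⟩⟩
  obtain ⟨hXW, hXc, hXd⟩ := mem_filter.1 hX
  rw [mem_powerset] at hXW
  have hmin : ∀ Y ⊂ X, ¬ (G.induce (Y : Set V)).IsAcyclic → k₁ ≤ ee G Y (W \ Y) := by
    intro Y hY hYc
    by_contra hlt
    have h1 := hXmin Y (mem_filter.2 ⟨mem_powerset.2 (hY.1.trans hXW), hYc, not_le.1 hlt⟩)
    exact absurd (card_lt_card hY) (not_lt.2 h1)
  have hbig : ∀ P ⊆ W, ¬ (G.induce (P : Set V)).IsAcyclic →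
      2 * E * (2 * k₁ + 1) + 10 * (E * k₁) + 1 ≤ P.card := fun P hPW hP => by
    by_contra h
    exact hP (hg P hPW (not_le.1 h))
  -- the first push
  obtain ⟨F, s, hA, hsL, hmax⟩ := exists_push (G := G) (2 * E) (2 * k₁ + 1) X
  have hs : s ≤ ee G X (W \ X) := adm_le_in h3 hg hWF hXW hA (by
    have := Nat.mul_le_mul_left (2 * E) hsL
    omega)
  have hFc : F.card ≤ 2 * (E * k₁) := by
    refine hA.2.1.trans ?_
    rw [Nat.mul_assoc]
    exact Nat.mul_le_mul_left _ (Nat.mul_le_mul_left _ (by omega))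
  have hXF : (X \ F).card + F.card = X.card := card_sdiff_add_card_eq_card hA.1
  have hXbig := hbig X hXW hXc
  have hP₀W : X \ F ⊆ W := sdiff_subset.trans hXW
  have hP₀far : FarB G (2 * E) (X \ F) := adm_far h3 hA (by omega) hmax
  have hP₀c : ¬ (G.induce ((X \ F : Finset V) : Set V)).IsAcyclic :=
    far_cyclic h3 (by omega) hP₀far (card_pos.1 (by omega))
  have hP₀d : ee G (X \ F) (W \ (X \ F)) ≤ k₁ + 6 * (E * k₁) := by
    have h1 := bead_split_in (G := G) (W := W) (P := X) (Y := F) hXW hA.1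
    have h2 := bead_ee_le (G := G) h3 F (X \ F)
    have h4 : ee G F (X \ F) ≤ ee G F (W \ F) :=
      ee_mono (Subset.refl _) (sdiff_subset_sdiff hXW (Subset.refl _))
    omega
  -- the splitting process
  rcases bead_chain_in (G := G) (k₁ := k₁) (J := J) (n := fun P => ee G P (W \ P))
      (fun P hP Y hY => bead_split_in (hP.trans hP₀W) hY) hP₀c hB0 hBs
      (fun j hj => Nat.mul_le_mul_left _ (hTJ j hj)) J le_rfl with
    ⟨i, hi, P, hP, hPc, hPB, hcut⟩ | ⟨P, hP, hPc, -, hPs, hPd⟩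
  · have hnum := bead_num (D := E) (2 * (k₀ + 1)) (T := T) (B := B) (fun j => rfl) hB0 hBs i
    have hTi := hTJ i hi.le
    have hT0i := hT0 i
    set n : ℕ := ee G P ((X \ F) \ P) with hn
    have hnT : 12 * (E * n) ≤ T i := by
      have := Nat.mul_le_mul_left (12 * E) hPB
      rw [Nat.mul_assoc] at this
      exact this.trans hnum
    have hEn : n ≤ E * n := Nat.le_mul_of_pos_left _ hE1
    -- the second push
    obtain ⟨F', s', hA', hsL', hmax'⟩ := exists_push (G := G) E (2 * n + 1) P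
    have hs' : s' ≤ 2 * n := by
      by_contra hlt
      have h1 : s' = 2 * n + 1 := by omega
      rw [h1] at hA'
      have h2 := hmax _ _ (adm_union hA hP le_rfl hA') (by omega)
      omega
    have hF'c : F'.card ≤ 2 * (E * n) := by
      refine hA'.2.1.trans ((Nat.mul_le_mul_left E hs').trans (le_of_eq ?_))
      ring
    have hfar := adm_far h3 hA' (by omega) hmax'
    have hPF : (P \ F').card + F'.card = P.card := card_sdiff_add_card_eq_card hA'.1
    have hPbig := hbig P (hP.trans hP₀W) hPc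
    refine ⟨P \ F', sdiff_subset.trans (hP.trans hP₀W), far_cyclic h3 hE1 hfar
      (card_pos.1 (by omega)), ?_, ?_⟩
    · intro Q hQ hQc hconn
      exact hfar Q hQ (by omega) hconn
    · intro Y hY hYc hYc'
      have h1 : P \ (Y ∪ F') = (P \ F') \ Y := by
        rw [union_comm, sdiff_sdiff_left, sup_eq_union]
      have h2 : Disjoint Y F' := by
        rw [Finset.disjoint_left]
        intro v h1 h2
        exact (mem_sdiff.1 (hY h1)).2 h2
      have h4 := hcut (Y ∪ F') (union_subset (hY.trans sdiff_subset) hA'.1)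
        (not_acyclic_mono subset_union_left hYc) (by rwa [h1])
      rw [h1, ee_union_left h2] at h4
      have h5 := bead_ee_le h3 F' ((P \ F') \ Y)
      omega
  · exfalso
    have h1 : P ⊂ X := (hPs (by omega)).trans_subset sdiff_subset
    have h2 := hmin P h1 hPc
    have h4 : J < 2 ^ J := Nat.lt_two_pow_self
    have h5 : 2 ^ J * (2 * k₁) ≤ 2 ^ J * (2 * ee G P (W \ P)) :=
      Nat.mul_le_mul_left _ (Nat.mul_le_mul_left _ h2)
    have h6 : 2 ^ J * (2 * k₁) = 2 ^ J * k₁ + 2 ^ J * k₁ := by ring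
    have h7 : (12 * E + 3) * k₁ ≤ 2 ^ J * k₁ := Nat.mul_le_mul_right _ (by omega)
    have h8 : (12 * E + 3) * k₁ = 12 * (E * k₁) + 3 * k₁ := by ring
    have h9 : 2 ^ J * (2 * ee G P (W \ P)) + k₁ ≤ 2 * ee G (X \ F) (W \ (X \ F)) + 2 ^ J * k₁ := hPd
    omega

end Pool.Agent.K5
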