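import Mathlib
import Pool.Agent.Work.MP_974d84_co.Defs
import Pool.Agent.Work.MP_974d84_co_k5.ExtHoff

/-!
# Contractions: a flow of `G / P` and the extension property of `P` give a flow of `G`
-/

set_option linter.unusedSectionVars false

namespace Pool.Agent.K5

open Finset SimpleGraph Pool.Agent.Exp Pool.Agent.Log5 Pool.Agent.Log5.Clu MP974d84

variable {V : Type} [Fintype V] [DecidableEq V] (G : SimpleGraph V)

/-- A nowhere-zero flow of the graph obtained from `G` by contraction of the vertex set `P`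
(conservation at the new vertex is automatic). -/
def ContrFlow (P : Finset V) : Prop :=
  ∃ f : V → V → ZMod 5, (∀ u v, f u v = - f v u) ∧
    (∀ u v, f u v ≠ 0 ↔ G.Adj u v ∧ ¬ (u ∈ P ∧ v ∈ P)) ∧ ∀ v, v ∉ P → ∑ u, f v u = 0

/-- The boundary assignment `φ` extends to a nowhere-zero flow inside `P`. -/
def ExtFlow (P : Finset V) (φ : V → ZMod 5) : Prop :=
  ∃ f : V → V → ZMod 5, (∀ u v, f u v = - f v u) ∧
    (∀ u v, f u v ≠ 0 ↔ u ∈ P ∧ v ∈ P ∧ G.Adj u v) ∧ ∀ v ∈ P, ∑ u, f v u + φ v = 0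

/-- The zero-sum nowhere-zero boundary assignments of `P`. -/
def BdryOK (P : Finset V) (φ : V → ZMod 5) : Prop :=
  (∀ v ∈ P, φ v = 0 ↔ ∀ w, G.Adj v w → w ∈ P) ∧ ∑ v ∈ P, φ v = 0

variable {G}

theorem anti_inner5 {f : V → V → ZMod 5} (hf : ∀ u v, f u v = - f v u) (Z : Finset V) :
    ∑ v ∈ Z, ∑ w ∈ Z, f v w = 0 := by
  have h1 : ∑ v ∈ Z, ∑ w ∈ Z, f v w = ∑ v ∈ Z, ∑ w ∈ Z, f w v := sum_comm
  have h2 : ∑ v ∈ Z, ∑ w ∈ Z, f w v = - ∑ v ∈ Z, ∑ w ∈ Z, f v w := by
    rw [← sum_neg_distrib]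
    refine sum_congr rfl fun v _ => ?_
    rw [← sum_neg_distrib]
    exact sum_congr rfl fun w _ => hf w v
  have h3 : ∀ a : ZMod 5, a = -a → a = 0 := by decide
  exact h3 _ (h1.trans h2)

/-- **Glueing.** -/
theorem ext_glue {P : Finset V}
    (hb : ∀ v ∈ P, ∀ w w', w ∉ P → w' ∉ P → G.Adj v w → G.Adj v w' → w = w')
    (hf : ContrFlow G P) (hext : ∀ φ, BdryOK G P φ → ExtFlow G P φ) :
    HasNZFlow (ZMod 5) G := by
  classical
  obtain ⟨f, hfa, hfn, hfc⟩ := hf
  have hf0 : ∀ u v, u ∈ P → v ∈ P → f u v = 0 := fun u v hu hv => by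
    by_contra h
    exact ((hfn u v).1 h).2 ⟨hu, hv⟩
  let φ : V → ZMod 5 := fun v => ∑ w, f v w
  have hφ : BdryOK G P φ := by
    refine ⟨fun v hv => ?_, ?_⟩
    · constructor
      · intro h w hw
        by_contra hwP
        have h1 : ∑ u, f v u = f v w := by
          refine sum_eq_single w (fun u _ huw => ?_) fun h => absurd (mem_univ _) h
          by_contra hne
          have h2 := (hfn v u).1 hne
          have huP : u ∉ P := fun h3 => h2.2 ⟨hv, h3⟩
          exact huw (hb v hv u w huP hwP h2.1 hw)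
        have h2 : f v w ≠ 0 := (hfn v w).2 ⟨hw, fun h3 => hwP h3.2⟩
        exact h2 (h1 ▸ h)
      · intro h
        refine sum_eq_zero fun w _ => ?_
        by_contra hne
        have h2 := (hfn v w).1 hne
        exact h2.2 ⟨hv, h w h2.1⟩
    · have h1 : ∑ v ∈ P, ∑ w, f v w + ∑ v ∈ Pᶜ, ∑ w, f v w = ∑ v, ∑ w, f v w :=
        sum_add_sum_compl P _
      have h2 : ∑ v ∈ Pᶜ, ∑ w, f v w = 0 := sum_eq_zero fun v hv => hfc v (mem_compl.1 hv)
      have h3 : ∑ v, ∑ w, f v w = 0 := anti_inner5 hfa univ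
      rw [h2, h3, add_zero] at h1
      exact h1
  obtain ⟨g, hga, hgn, hgc⟩ := hext φ hφ
  have hg0 : ∀ u v, ¬ (u ∈ P ∧ v ∈ P) → g u v = 0 := fun u v h => by
    by_contra hne
    have := (hgn u v).1 hne
    exact h ⟨this.1, this.2.1⟩
  refine ⟨fun u v => f u v + g u v, fun u v => ?_, fun u v => ?_, fun v => ?_⟩
  · show f u v + g u v = -(f v u + g v u)
    rw [hfa u v, hga u v]
    ring
  · show f u v + g u v ≠ 0 ↔ G.Adj u v
    by_cases h : u ∈ P ∧ v ∈ P
    · rw [hf0 u v h.1 h.2, zero_add, hgn]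
      exact ⟨fun h1 => h1.2.2, fun h1 => ⟨h.1, h.2, h1⟩⟩
    · rw [hg0 u v h, add_zero, hfn]
      exact ⟨fun h1 => h1.1, fun h1 => ⟨h1, h⟩⟩
  · show ∑ u, (f v u + g v u) = 0
    rw [sum_add_distrib]
    by_cases hv : v ∈ P
    · have := hgc v hv
      rw [add_comm] at this
      exact this
    · rw [hfc v hv, zero_add]
      exact sum_eq_zero fun w _ => hg0 v w fun h => hv h.1

/-- Extension from signs. -/
theorem ext_of_signs [DecidableRel G.Adj] (h3 : ∀ v, G.degree v = 3) {P : Finset V}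
    (hb : ∀ v ∈ P, ∀ w w', w ∉ P → w' ∉ P → G.Adj v w → G.Adj v w' → w = w')
    {φ : V → ZMod 5} (hφ : BdryOK G P φ)
    (x : V → ℤ) (hx : ∀ v ∈ P, x v = 1 ∨ x v = -1)
    (hcut : ∀ Y ⊆ P, |∑ v ∈ Y, ((x v : ℝ) + q5 (φ v))| ≤ 3 / 5 * ee G Y (P \ Y)) :
    ExtFlow G P φ := by
  classical
  have hdeg : ∀ v ∈ P, (P.filter fun w => G.Adj v w).card = if φ v = 0 then 3 else 2 := by
    intro v hv
    have h1 : (univ.filter fun w => G.Adj v w).card = 3 := by
      rw [← h3 v, ← card_neighborFinset_eq_degree]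
      congr 1
      ext w
      simp
    have h2 : (univ.filter fun w => G.Adj v w).card =
        (P.filter fun w => G.Adj v w).card + (Pᶜ.filter fun w => G.Adj v w).card := by
      rw [← card_union_of_disjoint]
      · congr 1
        rw [← filter_union, union_compl]
      · exact disjoint_filter_filter disjoint_compl_right
    by_cases h0 : φ v = 0
    · rw [if_pos h0]
      have h4 := (hφ.1 v hv).1 h0
      have h5 : (Pᶜ.filter fun w => G.Adj v w) = ∅ := by
        refine filter_eq_empty_iff.2 fun w hw hvw => (mem_compl.1 hw) (h4 w hvw)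
      rw [h5, card_empty] at h2
      omega
    · rw [if_neg h0]
      have h4 : ∃ w, G.Adj v w ∧ w ∉ P := by
        by_contra hno
        push Not at hno
        exact h0 ((hφ.1 v hv).2 hno)
      obtain ⟨w, hw, hwP⟩ := h4
      have h5 : (Pᶜ.filter fun w => G.Adj v w) = {w} := by
        ext u
        simp only [mem_filter, mem_compl, mem_singleton]
        exact ⟨fun h => hb v hv u w h.1 hwP h.2 hw, fun h => h ▸ ⟨hwP, hw⟩⟩
      rw [h5, card_singleton] at h2
      omega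
  obtain ⟨f, h1, h2, h4, h5⟩ := ext_hoff P φ hdeg x hx hcut
  refine ⟨f, h1, fun u v => ⟨fun h => ?_, fun h => h4 u h.1 v h.2.1 h.2.2⟩, h5⟩
  by_contra h6
  exact h (h2 u v h6)

end Pool.Agent.K5
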