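import Mathlib
import Pool.Agent.Work.MP_974d84_co.Hoffman
import Pool.Agent.Work.Energy.Coset
import Pool.Agent.Work.MP_974d84_co_k5.ExtHoff

/-!
# Flows modulo five of a quotient of a graph

If every partition of `V` into `n` classes which is coarser than the classes of `c` is crossed by
at least `(5 / 3) (n - 1)` edges, then the graph obtained by identification of the vertices with
equal values of `c` has a nowhere-zero flow modulo five.
-/

set_option linter.unusedSectionVars false

namespace Pool.Agent.K5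

open Finset SimpleGraph Pool.Agent.Exp Pool.Agent.Log5 Pool.Agent.Log5.Clu

section quot

variable {V : Type} [Fintype V] [DecidableEq V] (G : SimpleGraph V) [DecidableRel G.Adj]
  {Q : Type} [Fintype Q] [DecidableEq Q] (c : V → Q)

/-- The number of edges from `X` to its complement. -/
def nq (X : Finset Q) : ℤ := ∑ v, ∑ w, if G.Adj v w ∧ c v ∈ X ∧ c w ∉ X then 1 else 0

theorem nq_swap (X : Finset Q) :
    nq G c X = ∑ v, ∑ w, if G.Adj v w ∧ c w ∈ X ∧ c v ∉ X then 1 else 0 := by
  unfold nq
  rw [sum_comm]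
  refine sum_congr rfl fun v _ => sum_congr rfl fun w _ => ?_
  simp only [G.adj_comm v w]

/-- Charges of the classes. -/
theorem quot_charges
    (hpart : ∀ p : Q → ℕ, 10 * (((univ.image p).card : ℝ) - 1) ≤
      3 * ((univ.filter fun e : V × V => G.Adj e.1 e.2 ∧ p (c e.1) ≠ p (c e.2)).card : ℝ))
    (x0 : Q → ℤ) (h0 : (2 : ℤ) ∣ ∑ q, x0 q) :
    ∃ x : Q → ℤ, (∀ q, ∃ k : ℤ, x q = x0 q + 2 * k) ∧ ∑ q, x q = 0 ∧
      ∀ X : Finset Q, 5 * |∑ q ∈ X, x q| ≤ 3 * nq G c X := by
  classical
  let E : Type := {e : V × V // G.Adj e.1 e.2 ∧ c e.1 ≠ c e.2}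
  let s : E → Q := fun e => c e.1.1
  let t : E → Q := fun e => c e.1.2
  have hsumE : ∀ F : V × V → ℝ, ∑ e : E, F e.1 =
      ∑ v, ∑ w, if G.Adj v w ∧ c v ≠ c w then F (v, w) else 0 := by
    intro F
    have h2 : ∑ e ∈ univ.filter (fun e : V × V => G.Adj e.1 e.2 ∧ c e.1 ≠ c e.2), F e =
        ∑ e : {e : V × V // G.Adj e.1 e.2 ∧ c e.1 ≠ c e.2}, F e.1 :=
      Finset.sum_subtype _ (fun e => by simp) F
    show ∑ e : {e : V × V // G.Adj e.1 e.2 ∧ c e.1 ≠ c e.2}, F e.1 = _
    rw [← h2, sum_filter, Fintype.sum_prod_type]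
  have hθ : ∀ p : Q → ℕ, ((univ.image p).card : ℝ) - 1 ≤
      (3 / 10 : ℝ) * ((univ.filter (fun e => p (s e) ≠ p (t e))).card : ℝ) := by
    intro p
    have h1 := hpart p
    have h2 : ((univ.filter (fun e : E => p (s e) ≠ p (t e))).card : ℝ) =
        ((univ.filter fun e : V × V => G.Adj e.1 e.2 ∧ p (c e.1) ≠ p (c e.2)).card : ℝ) := by
      rw [card_filter, card_filter]
      push_cast
      rw [hsumE (fun e => if p (c e.1) ≠ p (c e.2) then (1 : ℝ) else 0), Fintype.sum_prod_type]
      refine sum_congr rfl fun v _ => sum_congr rfl fun w _ => ?_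
      by_cases h3 : G.Adj v w
      · by_cases h4 : c v = c w
        · simp [h3, h4]
        · simp [h3, h4]
      · simp [h3]
    rw [h2]
    linarith
  obtain ⟨z, hz, hzv⟩ := Energy.coset s t (3 / 10) (by norm_num) hθ (q := 2) (by norm_num) x0
    (by exact_mod_cast h0)
  choose κ hκ using hzv
  have hnet : ∀ i, ((x0 i + 2 * κ i : ℤ) : ℝ) = Energy.net s t z i := by
    intro i
    rw [hκ i]
    push_cast
    ring
  have hcutsum : ∀ X : Finset Q, ((∑ i ∈ X, (x0 i + 2 * κ i) : ℤ) : ℝ)
      = ∑ e : E, z e * ((if s e ∈ X then 1 else 0) - if t e ∈ X then 1 else 0) := by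
    intro X
    rw [Int.cast_sum, sum_congr rfl fun i _ => hnet i]
    unfold Energy.net
    rw [sum_comm]
    refine sum_congr rfl fun e _ => ?_
    rw [← mul_sum]
    congr 1
    simp only [Energy.inc_apply]
    rw [sum_sub_distrib]
    congr 1
    · rw [sum_ite_eq]
    · rw [sum_ite_eq]
  refine ⟨fun i => x0 i + 2 * κ i, fun i => ⟨κ i, rfl⟩, ?_, fun X => ?_⟩
  · have h := hcutsum univ
    simp only [mem_univ, if_true, sub_self, mul_zero, sum_const_zero] at h
    exact_mod_cast h
  · have h1 : ∀ e : E, |z e * ((if s e ∈ X then (1 : ℝ) else 0) - if t e ∈ X then 1 else 0)|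
        ≤ 3 / 10 * ((if s e ∈ X ∧ t e ∉ X then 1 else 0)
          + if t e ∈ X ∧ s e ∉ X then 1 else 0) := by
      intro e
      have h2 := hz e
      have h3 : ((2 : ℕ) : ℝ) / 2 * (3 / 10) = 3 / 10 := by norm_num
      rw [h3] at h2
      rw [abs_mul]
      by_cases ha : s e ∈ X <;> by_cases hb' : t e ∈ X <;> simp [ha, hb'] <;> linarith
    have h2 : |((∑ i ∈ X, (x0 i + 2 * κ i) : ℤ) : ℝ)| ≤ 3 / 5 * ((nq G c X : ℤ) : ℝ) := by
      rw [hcutsum X]
      calc _ ≤ ∑ e : E, |z e * ((if s e ∈ X then (1 : ℝ) else 0) - if t e ∈ X then 1 else 0)| :=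
            abs_sum_le_sum_abs _ _
        _ ≤ ∑ e : E, 3 / 10 * ((if s e ∈ X ∧ t e ∉ X then (1 : ℝ) else 0)
            + if t e ∈ X ∧ s e ∉ X then 1 else 0) := sum_le_sum fun e _ => h1 e
        _ = 3 / 10 * (∑ e : E, (if s e ∈ X ∧ t e ∉ X then (1 : ℝ) else 0) +
            ∑ e : E, (if t e ∈ X ∧ s e ∉ X then (1 : ℝ) else 0)) := by
          rw [← mul_sum, sum_add_distrib]
        _ = 3 / 10 * (((nq G c X : ℤ) : ℝ) + ((nq G c X : ℤ) : ℝ)) := by
          congr 2
          · rw [hsumE (fun e => if c e.1 ∈ X ∧ c e.2 ∉ X then (1 : ℝ) else 0)]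
            unfold nq
            push_cast
            refine sum_congr rfl fun v _ => sum_congr rfl fun w _ => ?_
            by_cases h3 : G.Adj v w
            · by_cases h4 : c v = c w
              · simp [h3, h4]
              · simp [h3, h4]
            · simp [h3]
          · rw [hsumE (fun e => if c e.2 ∈ X ∧ c e.1 ∉ X then (1 : ℝ) else 0), nq_swap]
            push_cast
            refine sum_congr rfl fun v _ => sum_congr rfl fun w _ => ?_
            by_cases h3 : G.Adj v w
            · by_cases h4 : c v = c w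
              · simp [h3, h4]
              · simp [h3, h4]
            · simp [h3]
        _ = 3 / 5 * ((nq G c X : ℤ) : ℝ) := by ring
    have h3 : ((5 * |∑ i ∈ X, (x0 i + 2 * κ i)| : ℤ) : ℝ) ≤ ((3 * nq G c X : ℤ) : ℝ) := by
      push_cast at h2 ⊢
      linarith
    exact_mod_cast h3

/-- **Flow of the quotient.** -/
theorem quot_flow (hc : Function.Surjective c)
    (hpart : ∀ p : Q → ℕ, 10 * (((univ.image p).card : ℝ) - 1) ≤
      3 * ((univ.filter fun e : V × V => G.Adj e.1 e.2 ∧ p (c e.1) ≠ p (c e.2)).card : ℝ)) :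
    ∃ f : V → V → ZMod 5, (∀ u v, f u v = - f v u) ∧
      (∀ u v, f u v ≠ 0 ↔ G.Adj u v ∧ c u ≠ c v) ∧
      ∀ q, ∑ v ∈ univ.filter (fun v => c v = q), ∑ w, f v w = 0 := by
  classical
  obtain ⟨σ, hσa, hσ1⟩ := exists_sgn V
  let I : V → V → Prop := fun v w => G.Adj v w ∧ c v ≠ c w
  have hIs : ∀ v w, I v w ↔ I w v := fun v w =>
    ⟨fun h => ⟨h.1.symm, h.2.symm⟩, fun h => ⟨h.1.symm, h.2.symm⟩⟩
  let s : V → V → ℤ := fun v w => if I v w then σ v w else 0
  have hs : MP974d84.Anti s := by
    intro v w
    by_cases h : I v w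
    · simp only [s, if_pos h, if_pos ((hIs v w).1 h)]
      exact hσa v w h.1.ne
    · simp only [s, if_neg h, if_neg (fun h' => h ((hIs v w).2 h'))]
      norm_num
  let x0 : Q → ℤ := fun q => ∑ v ∈ univ.filter (fun v => c v = q), ∑ w, s v w
  have hx0 : ∑ q, x0 q = 0 := by
    have h1 : ∑ q, x0 q = ∑ v, ∑ w, s v w := sum_fiberwise _ _ _
    rw [h1]
    exact MP974d84.anti_inner hs univ
  obtain ⟨x, hx, hxt, hxc⟩ := quot_charges G c hpart x0 (by rw [hx0]; exact dvd_zero 2)
  choose k hk using hx
  choose r hr using hc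
  let d : V → ℤ := fun v => if v = r (c v) then 2 * x0 (c v) + 5 * k (c v) else 0
  have hdq : ∀ q, ∑ v ∈ univ.filter (fun v => c v = q), d v = 2 * x0 q + 5 * k q := by
    intro q
    rw [sum_eq_single (r q)]
    · simp only [d, hr, if_true]
    · intro v hv hvr
      have hv' : c v = q := (mem_filter.1 hv).2
      simp only [d]
      rw [if_neg]
      rw [hv']
      exact hvr
    · intro h
      exact absurd (mem_filter.2 ⟨mem_univ (r q), hr q⟩) h
  let B : ℤ := ∑ v, |d v|
  have hB0 : 0 ≤ B := sum_nonneg fun v _ => abs_nonneg _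
  let u : V → V → ℤ := fun v w => if I v w then (3 - σ v w) / 2 else if c v = c w then B else 0
  have hu0 : ∀ v w, 0 ≤ u v w := by
    intro v w
    simp only [u]
    split_ifs
    · rcases hσ1 v w with h4 | h4 <;> rw [h4] <;> norm_num
    · exact hB0
    · exact le_rfl
  have hdtot : ∑ v, d v = 0 := by
    have h1 : ∑ v, d v = ∑ q, ∑ v ∈ univ.filter (fun v => c v = q), d v :=
      (sum_fiberwise _ _ _).symm
    rw [h1]
    simp only [hdq]
    have h2 : ∑ q, x q = ∑ q, x0 q + 2 * ∑ q, k q := by
      rw [mul_sum, ← sum_add_distrib]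
      exact sum_congr rfl fun q _ => hk q
    rw [sum_add_distrib, ← mul_sum, ← mul_sum]
    omega
  have hcut : ∀ Z : Finset V, ∑ v ∈ Z, d v ≤ MP974d84.cs u Z := by
    intro Z
    by_cases hsplit : ∃ v ∈ Z, ∃ w, w ∉ Z ∧ c v = c w
    · obtain ⟨v, hv, w, hw, hvw⟩ := hsplit
      have h1 : B ≤ MP974d84.cs u Z := by
        have h2 : u v w = B := by
          simp only [u]
          rw [if_neg (fun h => h.2 hvw), if_pos hvw]
        unfold MP974d84.cs
        calc B = u v w := h2.symm
          _ ≤ ∑ w ∈ Zᶜ, u v w := single_le_sum (f := fun w => u v w) (fun w _ => hu0 v w)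
              (mem_compl.2 hw)
          _ ≤ ∑ v ∈ Z, ∑ w ∈ Zᶜ, u v w := single_le_sum (f := fun v => ∑ w ∈ Zᶜ, u v w)
              (fun v _ => sum_nonneg fun w _ => hu0 v w) hv
      have h3 : ∑ v ∈ Z, d v ≤ B := by
        calc ∑ v ∈ Z, d v ≤ ∑ v ∈ Z, |d v| := sum_le_sum fun v _ => le_abs_self _
          _ ≤ B := sum_le_sum_of_subset_of_nonneg (subset_univ Z) fun v _ _ => abs_nonneg _
      exact h3.trans h1
    · push Not at hsplit
      have hsat : ∀ v w, c v = c w → (v ∈ Z ↔ w ∈ Z) := by
        intro v w h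
        constructor
        · intro hv
          by_contra hw
          exact hsplit v hv w hw h
        · intro hw
          by_contra hv
          exact hsplit w hw v hv h.symm
      let X : Finset Q := Z.image c
      have hX : ∀ v, c v ∈ X ↔ v ∈ Z := by
        intro v
        constructor
        · intro h
          obtain ⟨w, hw, hwv⟩ := mem_image.1 h
          exact (hsat w v hwv).1 hw
        · exact fun h => mem_image_of_mem c h
      have hfib : ∀ F : V → ℤ, ∑ v ∈ Z, F v =
          ∑ q ∈ X, ∑ v ∈ univ.filter (fun v => c v = q), F v := by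
        intro F
        rw [← sum_fiberwise_of_maps_to (s := Z) (t := X) (g := c)
          (fun v hv => mem_image_of_mem c hv)]
        refine sum_congr rfl fun q hq => ?_
        congr 1
        ext v
        simp only [mem_filter, mem_univ, true_and]
        constructor
        · exact fun h => h.2
        · intro h
          exact ⟨(hX v).1 (by rw [h]; exact hq), h⟩
      have h1 : ∑ v ∈ Z, d v = ∑ q ∈ X, (2 * x0 q + 5 * k q) := by
        rw [hfib]
        exact sum_congr rfl fun q _ => hdq q
      have h2 : ∑ q ∈ X, x0 q = ∑ v ∈ Z, ∑ w ∈ Zᶜ, s v w := by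
        rw [← hfib (fun v => ∑ w, s v w)]
        have h3 : ∀ v, ∑ w, s v w = ∑ w ∈ Z, s v w + ∑ w ∈ Zᶜ, s v w := fun v =>
          (sum_add_sum_compl Z _).symm
        simp only [h3, sum_add_distrib]
        rw [MP974d84.anti_inner hs Z, zero_add]
      have h3 : ∑ q ∈ X, x q = ∑ q ∈ X, x0 q + 2 * ∑ q ∈ X, k q := by
        rw [mul_sum, ← sum_add_distrib]
        exact sum_congr rfl fun q _ => hk q
      have h4 : nq G c X = ∑ v ∈ Z, ∑ w ∈ Zᶜ, if I v w then (1 : ℤ) else 0 := by
        unfold nq
        symm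
        rw [← sum_subset (subset_univ Z)]
        · refine sum_congr rfl fun v hv => ?_
          rw [← sum_subset (subset_univ Zᶜ)]
          · refine sum_congr rfl fun w hw => ?_
            have hw' := mem_compl.1 hw
            have h5 : c v ∈ X := (hX v).2 hv
            have h6 : c w ∉ X := fun h => hw' ((hX w).1 h)
            have h7 : c v ≠ c w := fun h => h6 (h ▸ h5)
            simp only [I, h5, h6, h7, ne_eq, not_false_eq_true, and_true]
          · intro w _ hw
            have hw' : w ∈ Z := by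
              by_contra h
              exact hw (mem_compl.2 h)
            exact if_neg fun h => h.2.2 ((hX w).2 hw')
        · intro v _ hv
          refine sum_eq_zero fun w _ => ?_
          exact if_neg fun h => hv ((hX v).1 h.2.1)
      have h5 : 2 * MP974d84.cs u Z = 3 * nq G c X - ∑ v ∈ Z, ∑ w ∈ Zᶜ, s v w := by
        rw [h4, MP974d84.cs, mul_sum, mul_sum, ← sum_sub_distrib]
        refine sum_congr rfl fun v hv => ?_
        rw [mul_sum, mul_sum, ← sum_sub_distrib]
        refine sum_congr rfl fun w hw => ?_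
        by_cases h : I v w
        · simp only [u, s, if_pos h]
          rcases hσ1 v w with h4 | h4 <;> rw [h4] <;> norm_num
        · have h6 : c v ≠ c w := fun h7 => (mem_compl.1 hw) ((hsat v w h7).1 hv)
          simp only [u, s, if_neg h, if_neg h6]
          norm_num
      have h6 := hxc X
      have h7 := le_abs_self (∑ q ∈ X, x q)
      rw [h1, sum_add_distrib, ← mul_sum, ← mul_sum]
      omega
  obtain ⟨g, hgA, hgu, hgd⟩ := MP974d84.hoffman u d (fun _ _ => 0) (fun _ _ => by norm_num) hu0
    hdtot hcut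
  let h : V → V → ℤ := fun v w => if I v w then s v w + 2 * g v w else 0
  have hhA : MP974d84.Anti h := by
    intro v w
    by_cases hI : I v w
    · simp only [h, if_pos hI, if_pos ((hIs v w).1 hI)]
      rw [hs v w, hgA v w]
      ring
    · simp only [h, if_neg hI, if_neg (fun h' => hI ((hIs v w).2 h'))]
      norm_num
  have hhI : ∀ v w, I v w → h v w = 1 ∨ h v w = -1 ∨ h v w = 3 ∨ h v w = -3 := by
    intro v w hI
    have hI' := (hIs v w).1 hI
    have h1 := hgu v w
    have h2 := hgu w v
    have h3 := hgA v w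
    have h4 : u v w = (3 - σ v w) / 2 := if_pos hI
    have h5 : u w v = (3 - σ w v) / 2 := if_pos hI'
    have h6 := hσa v w hI.1.ne
    simp only [h, s, if_pos hI]
    rcases hσ1 v w with h7 | h7
    · have h8 : σ w v = -1 := by omega
      rw [h4, h7] at h1
      rw [h5, h8] at h2
      rw [h7]
      norm_num at h1 h2 ⊢
      omega
    · have h8 : σ w v = 1 := by omega
      rw [h4, h7] at h1
      rw [h5, h8] at h2
      rw [h7]
      norm_num at h1 h2 ⊢
      omega
  have hsum : ∀ q, ∑ v ∈ univ.filter (fun v => c v = q), ∑ w, h v w = 5 * x q := by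
    intro q
    set C := univ.filter (fun v => c v = q) with hC
    have h1 : ∀ v ∈ C, ∑ w, h v w = ∑ w, s v w + 2 * (∑ w, g v w - ∑ w ∈ C, g v w) := by
      intro v hv
      have hv' : c v = q := (mem_filter.1 hv).2
      have h2 : ∑ w, g v w - ∑ w ∈ C, g v w = ∑ w ∈ Cᶜ, g v w := by
        rw [← sum_add_sum_compl C (fun w => g v w)]
        ring
      have h3 : ∑ w ∈ Cᶜ, g v w = ∑ w, if I v w then g v w else 0 := by
        rw [← sum_subset (subset_univ Cᶜ)]
        · refine sum_congr rfl fun w hw => ?_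
          have hw' : c w ≠ q := fun h => (mem_compl.1 hw) (mem_filter.2 ⟨mem_univ _, h⟩)
          by_cases hI : I v w
          · rw [if_pos hI]
          · rw [if_neg hI]
            have h4 := hgu v w
            have h5 := hgu w v
            have h6 := hgA v w
            have h7 : c v ≠ c w := fun h => hw' (h ▸ hv')
            have h8 : u v w = 0 := by
              simp only [u]
              rw [if_neg hI, if_neg h7]
            have h9 : u w v = 0 := by
              simp only [u]
              rw [if_neg (fun h' => hI ((hIs v w).2 h')), if_neg h7.symm]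
            omega
        · intro w _ hw
          have hw' : c w = q := by
            by_contra h
            exact hw (mem_compl.2 fun h' => h (mem_filter.1 h').2)
          exact if_neg fun h => h.2 (hv'.trans hw'.symm)
      rw [h2, h3, mul_sum, ← sum_add_distrib]
      refine sum_congr rfl fun w _ => ?_
      by_cases hI : I v w
      · simp only [h, if_pos hI]
      · simp only [h, s, if_neg hI]
        norm_num
    rw [sum_congr rfl h1, sum_add_distrib, ← mul_sum, sum_sub_distrib,
      MP974d84.anti_inner hgA C, sub_zero]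
    have h2 : ∑ v ∈ C, ∑ w, g v w = 2 * x0 q + 5 * k q := by
      rw [← hdq q]
      exact sum_congr rfl fun v _ => hgd v
    have h3 : ∑ v ∈ C, ∑ w, s v w = x0 q := rfl
    rw [h2, h3, hk q]
    ring
  refine ⟨fun v w => ((h v w : ℤ) : ZMod 5), fun v w => ?_, fun v w => ⟨fun h1 => ?_, fun h1 => ?_⟩,
    fun q => ?_⟩
  · simp only
    rw [hhA v w]
    push_cast
    ring
  · by_contra h2
    apply h1
    have h3 : h v w = 0 := if_neg h2
    simp only [h3]
    simp
  · intro h2
    have h3 : (5 : ℤ) ∣ h v w := (ZMod.intCast_zmod_eq_zero_iff_dvd _ 5).1 h2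
    have h4 := hhI v w h1
    omega
  · have h1 : ∑ v ∈ univ.filter (fun v => c v = q), ∑ w, ((h v w : ℤ) : ZMod 5) =
        ((∑ v ∈ univ.filter (fun v => c v = q), ∑ w, h v w : ℤ) : ZMod 5) := by
      push_cast
      rfl
    rw [h1, hsum q]
    push_cast
    have h2 : (5 : ZMod 5) = 0 := rfl
    rw [h2, zero_mul]

end quot

end Pool.Agent.K5
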