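import Mathlib
import Pool.Agent.Work.MP_974d84_co.Defs
import Pool.Agent.Work.MP_974d84_co_exp.Base
import Pool.Agent.Work.MP_974d84_co_k5.CoreFactsB
import Pool.Agent.Work.MP_974d84_co_k5.QuotFlow
import Pool.Agent.Work.MP_974d84_co_k5.ExtGlue

/-!
# Graphs with disjoint sets all of whose boundary assignments extend

Let `G` be cubic and cyclically `k`-edge-connected, `k ≥ 5`, and let `P i` be disjoint vertex sets
with cycles all of whose zero-sum nowhere-zero boundary assignments extend. If every set `U` of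
vertices outside of the `P i` has `k |U| ≤ (3 k - 10) d(U)`, then `G` has a nowhere-zero flow
modulo five.
-/

set_option linter.unusedSectionVars false

namespace Pool.Agent.K5

open Finset SimpleGraph Pool.Agent.Exp Pool.Agent.Log5 Pool.Agent.Log5.Clu MP974d84

variable {V : Type} [Fintype V] [DecidableEq V] {G : SimpleGraph V} [DecidableRel G.Adj]

theorem cross_sum (p : V → ℕ) :
    (univ.filter fun e : V × V => G.Adj e.1 e.2 ∧ p e.1 ≠ p e.2).card =
      ∑ j ∈ univ.image p, dd G (univ.filter fun v => p v = j) := by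
  classical
  rw [card_eq_sum_card_fiberwise (f := fun e : V × V => p e.1) (t := univ.image p)
    (fun e _ => mem_image_of_mem p (mem_univ _))]
  refine sum_congr rfl fun j _ => ?_
  unfold dd
  congr 1
  ext e
  rw [mem_cut]
  simp only [mem_filter, mem_univ, true_and]
  constructor
  · rintro ⟨⟨h1, h2⟩, h3⟩
    exact ⟨h3, fun h => h2 (h3.trans h.symm), h1⟩
  · rintro ⟨h1, h2, h3⟩
    exact ⟨⟨h3, fun h => h2 (h ▸ h1)⟩, h1⟩

/-- **The partition inequality.** -/
theorem part_ineq (h3 : ∀ v, G.degree v = 3) {k : ℕ} (hk : 5 ≤ k) (hc : CycConn G k)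
    {m : ℕ} (hm : 0 < m) (P : Fin m → Finset V)
    (hcyc : ∀ i, ¬ (G.induce (P i : Set V)).IsAcyclic)
    (hrest : ∀ U : Finset V, (∀ i, Disjoint U (P i)) → k * U.card ≤ (3 * k - 10) * dd G U)
    (p : V → ℕ) (hp : ∀ i, ∀ u ∈ P i, ∀ v ∈ P i, p u = p v) :
    10 * (((univ.image p).card : ℝ) - 1) ≤
      3 * ((univ.filter fun e : V × V => G.Adj e.1 e.2 ∧ p e.1 ≠ p e.2).card : ℝ) := by
  classical
  have hne : ∀ i, (P i).Nonempty := by
    intro i
    by_contra h
    rw [not_nonempty_iff_eq_empty] at h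
    apply hcyc i
    rw [h]
    intro v
    exact absurd v.2 (by simp)
  let C : ℕ → Finset V := fun j => univ.filter fun v => p v = j
  let J := univ.image p
  let JB := J.filter fun j => ∃ i, P i ⊆ C j
  let JA := J.filter fun j => ¬ ∃ i, P i ⊆ C j
  have hPC : ∀ i, ∀ v ∈ P i, P i ⊆ C (p v) := fun i v hv w hw =>
    mem_filter.2 ⟨mem_univ _, hp i w hw v hv⟩
  have hJAB : JB.card + JA.card = J.card := card_filter_add_card_filter_not _
  have hJB : 1 ≤ JB.card := by
    obtain ⟨v, hv⟩ := hne ⟨0, hm⟩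
    refine card_pos.2 ⟨p v, mem_filter.2 ⟨mem_image_of_mem p (mem_univ v), ⟨0, hm⟩, ?_⟩⟩
    exact hPC _ v hv
  let U : Finset V := univ.filter fun v => p v ∈ JA
  have hU : ∀ i, Disjoint U (P i) := by
    intro i
    rw [Finset.disjoint_left]
    intro v hv hvi
    have h1 := (mem_filter.1 (mem_filter.1 hv).2).2
    exact h1 ⟨i, hPC i v hvi⟩
  have hUcard : JA.card ≤ U.card := by
    have h1 : JA ⊆ U.image p := by
      intro j hj
      obtain ⟨v, -, hv⟩ := mem_image.1 (mem_filter.1 hj).1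
      refine mem_image.2 ⟨v, mem_filter.2 ⟨mem_univ _, ?_⟩, hv⟩
      rw [hv]
      exact hj
    exact (card_le_card h1).trans card_image_le
  -- classes outside
  have hA3 : ∀ j ∈ JA, 3 ≤ dd G (C j) := by
    intro j hj
    obtain ⟨v, -, hv⟩ := mem_image.1 (mem_filter.1 hj).1
    refine three_le_dd G h3 (k := k) (by omega) hc ⟨v, mem_filter.2 ⟨mem_univ _, hv⟩⟩ ?_
    obtain ⟨w, hw⟩ := hne ⟨0, hm⟩
    refine ⟨w, mem_compl.2 fun h => ?_⟩
    have h1 := hPC _ w hw
    rw [(mem_filter.1 h).2] at h1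
    exact (mem_filter.1 hj).2 ⟨_, h1⟩
  have hBk : 2 ≤ JB.card → ∀ j ∈ JB, k ≤ dd G (C j) := by
    intro h2 j hj
    obtain ⟨i, hi⟩ := (mem_filter.1 hj).2
    obtain ⟨j', hj', hjj⟩ := exists_mem_ne (by omega : 1 < JB.card) j
    obtain ⟨i', hi'⟩ := (mem_filter.1 hj').2
    refine hc (C j) (not_acyclic_mono hi (hcyc i)) (not_acyclic_mono ?_ (hcyc i'))
    intro v hv
    refine mem_compl.2 fun h => hjj ?_
    rw [← (mem_filter.1 (hi' hv)).2, (mem_filter.1 h).2]
  have hSB : dd G U ≤ ∑ j ∈ JB, dd G (C j) := by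
    unfold dd
    rw [card_eq_sum_card_fiberwise (f := fun e : V × V => p e.2) (t := JB) (s := Pool.Agent.Work.MP_314beb_co.cut G U)]
    · refine sum_le_sum fun j _ => ?_
      have h1 := dd_compl G (C j)
      unfold dd at h1
      rw [← h1]
      refine card_le_card fun e he => ?_
      have h2 := (mem_cut G).1 (mem_filter.1 he).1
      have h4 := (mem_filter.1 he).2
      rw [mem_cut]
      refine ⟨mem_compl.2 fun h => ?_, fun h => (mem_compl.1 h) (mem_filter.2 ⟨mem_univ _, h4⟩),
        h2.2.2⟩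
      have h5 : p e.1 = j := (mem_filter.1 h).2
      have h6 : p e.1 ∈ JA := (mem_filter.1 h2.1).2
      apply h2.2.1
      refine mem_filter.2 ⟨mem_univ _, ?_⟩
      have h7 : p e.2 = p e.1 := h4.trans h5.symm
      rw [h7]
      exact h6
    · intro e he
      have h2 := (mem_cut G).1 (mem_coe.1 he)
      by_contra h
      apply h2.2.1
      refine mem_filter.2 ⟨mem_univ _, mem_filter.2 ⟨mem_image_of_mem p (mem_univ _), ?_⟩⟩
      intro h5
      exact h (mem_coe.2 (mem_filter.2 ⟨mem_image_of_mem p (mem_univ _), h5⟩))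
  have hN : (univ.filter fun e : V × V => G.Adj e.1 e.2 ∧ p e.1 ≠ p e.2).card =
      ∑ j ∈ JB, dd G (C j) + ∑ j ∈ JA, dd G (C j) := by
    rw [cross_sum p]
    exact (sum_filter_add_sum_filter_not _ _ _).symm
  have hSA : 3 * JA.card ≤ ∑ j ∈ JA, dd G (C j) := by
    have := sum_le_sum hA3
    rw [sum_const, smul_eq_mul] at this
    omega
  set SB := ∑ j ∈ JB, dd G (C j) with hSBdef
  set SA := ∑ j ∈ JA, dd G (C j) with hSAdef
  have hUk := hrest U hU
  -- over the integers
  obtain ⟨l, hl⟩ : ∃ l : ℕ, 3 * k - 10 = l := ⟨_, rfl⟩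
  have hl' : 3 * k = l + 10 := by omega
  have hl5 : 5 ≤ l := by omega
  rw [hl] at hUk
  have h1 : k * JA.card ≤ l * SB :=
    (Nat.mul_le_mul_left k hUcard).trans (hUk.trans (Nat.mul_le_mul_left l hSB))
  have hmain : JA.card + 10 * JB.card ≤ 3 * SB + 10 := by
    rcases Nat.lt_or_ge JB.card 2 with h2 | h2
    · have h4 : JA.card ≤ 3 * SB := by
        have h5 : l * JA.card ≤ l * (3 * SB) := by
          calc l * JA.card ≤ 3 * k * JA.card := Nat.mul_le_mul_right _ (by omega)
            _ = 3 * (k * JA.card) := by ring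
            _ ≤ 3 * (l * SB) := Nat.mul_le_mul_left 3 h1
            _ = l * (3 * SB) := by ring
        exact Nat.le_of_mul_le_mul_left h5 (by omega)
      omega
    · have hkb : JB.card * k ≤ SB := by
        have := sum_le_sum (hBk h2)
        rwa [sum_const, smul_eq_mul] at this
      rcases Nat.lt_or_ge (l * JB.card) JA.card with h4 | h4
      · have h5 : l * (JA.card + 10 * JB.card) ≤ l * (3 * SB) := by
          calc l * (JA.card + 10 * JB.card) = l * JA.card + 10 * (l * JB.card) := by ring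
            _ ≤ l * JA.card + 10 * JA.card := by omega
            _ = 3 * k * JA.card := by rw [hl']; ring
            _ = 3 * (k * JA.card) := by ring
            _ ≤ 3 * (l * SB) := Nat.mul_le_mul_left 3 h1
            _ = l * (3 * SB) := by ring
        have := Nat.le_of_mul_le_mul_left h5 (by omega)
        omega
      · have h5 : 3 * (JB.card * k) = l * JB.card + 10 * JB.card := by
          calc 3 * (JB.card * k) = (3 * k) * JB.card := by ring
            _ = (l + 10) * JB.card := by rw [hl']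
            _ = l * JB.card + 10 * JB.card := by ring
        omega
  have hfin : 10 * J.card ≤ 3 * (SB + SA) + 10 := by omega
  rw [hN]
  have hfinR : (10 : ℝ) * (J.card : ℝ) ≤ 3 * ((SB + SA : ℕ) : ℝ) + 10 := by exact_mod_cast hfin
  have hJ : (univ.image p).card = J.card := rfl
  rw [hJ]
  linarith

/-- **Glueing along several sets.** -/
theorem ext_glue_many {m : ℕ} {P : Fin m → Finset V}
    (hdis : ∀ i j, i ≠ j → Disjoint (P i) (P j))
    (hb : ∀ i, ∀ v ∈ P i, ∀ w w', w ∉ P i → w' ∉ P i → G.Adj v w → G.Adj v w' → w = w')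
    (f : V → V → ZMod 5) (hfa : ∀ u v, f u v = - f v u)
    (hfn : ∀ u v, f u v ≠ 0 ↔ G.Adj u v ∧ ¬ ∃ i, u ∈ P i ∧ v ∈ P i)
    (hfc : ∀ v, (∀ i, v ∉ P i) → ∑ u, f v u = 0)
    (hfP : ∀ i, ∑ v ∈ P i, ∑ u, f v u = 0)
    (hext : ∀ i φ, BdryOK G (P i) φ → ExtFlow G (P i) φ) : HasNZFlow (ZMod 5) G := by
  classical
  have huniq : ∀ i j v, v ∈ P i → v ∈ P j → i = j := by
    intro i j v hi hj
    by_contra h
    exact Finset.disjoint_left.1 (hdis i j h) hi hj
  have hbd : ∀ i, BdryOK G (P i) fun v => ∑ w, f v w := by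
    intro i
    refine ⟨fun v hv => ⟨fun h w hw => ?_, fun h => ?_⟩, hfP i⟩
    · by_contra hwP
      have h1 : ∑ u, f v u = f v w := by
        refine sum_eq_single w (fun u _ huw => ?_) fun h => absurd (mem_univ _) h
        by_contra hne
        have h2 := (hfn v u).1 hne
        have huP : u ∉ P i := fun h3 => h2.2 ⟨i, hv, h3⟩
        exact huw (hb i v hv u w huP hwP h2.1 hw)
      have h2 : f v w ≠ 0 := (hfn v w).2 ⟨hw, fun ⟨j, hj1, hj2⟩ => by
        have := huniq i j v hv hj1
        subst this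
        exact hwP hj2⟩
      exact h2 (h1 ▸ h)
    · refine sum_eq_zero fun w _ => ?_
      by_contra hne
      have h2 := (hfn v w).1 hne
      exact h2.2 ⟨i, hv, h w h2.1⟩
  choose g hga hgn hgc using fun i => hext i _ (hbd i)
  have hg0 : ∀ i u v, ¬ (u ∈ P i ∧ v ∈ P i) → g i u v = 0 := fun i u v h => by
    by_contra hne
    have := (hgn i u v).1 hne
    exact h ⟨this.1, this.2.1⟩
  refine ⟨fun u v => f u v + ∑ i, g i u v, fun u v => ?_, fun u v => ?_, fun v => ?_⟩
  · show f u v + ∑ i, g i u v = -(f v u + ∑ i, g i v u)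
    rw [hfa u v, neg_add, ← sum_neg_distrib]
    congr 1
    exact sum_congr rfl fun i _ => hga i u v
  · show f u v + ∑ i, g i u v ≠ 0 ↔ G.Adj u v
    by_cases h : ∃ i, u ∈ P i ∧ v ∈ P i
    · obtain ⟨i, hu, hv⟩ := h
      have h1 : f u v = 0 := by
        by_contra hne
        exact ((hfn u v).1 hne).2 ⟨i, hu, hv⟩
      have h2 : ∑ j, g j u v = g i u v := by
        refine sum_eq_single i (fun j _ hj => hg0 j u v fun h => hj ?_) fun h =>
          absurd (mem_univ _) h
        exact huniq j i u h.1 hu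
      rw [h1, h2, zero_add, hgn]
      exact ⟨fun h => h.2.2, fun h => ⟨hu, hv, h⟩⟩
    · have h2 : ∑ j, g j u v = 0 := sum_eq_zero fun j _ => hg0 j u v fun h' => h ⟨j, h'⟩
      rw [h2, add_zero, hfn]
      exact ⟨fun h1 => h1.1, fun h1 => ⟨h1, h⟩⟩
  · show ∑ u, (f v u + ∑ i, g i v u) = 0
    rw [sum_add_distrib, sum_comm]
    by_cases h : ∃ i, v ∈ P i
    · obtain ⟨i, hv⟩ := h
      have h2 : ∑ j, ∑ u, g j v u = ∑ u, g i v u := by
        refine sum_eq_single i (fun j _ hj => ?_) fun h => absurd (mem_univ _) h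
        exact sum_eq_zero fun u _ => hg0 j v u fun h => hj (huniq j i v h.1 hv)
      rw [h2, add_comm]
      exact hgc i v hv
    · have h2 : ∑ j, ∑ u, g j v u = 0 := by
        refine sum_eq_zero fun j _ => sum_eq_zero fun u _ => hg0 j v u fun h' => h ⟨j, h'.1⟩
      rw [h2, add_zero]
      exact hfc v fun i hi => h ⟨i, hi⟩

/-- **Flows of graphs with disjoint extendable sets.** -/
theorem flow_of_free (h3 : ∀ v, G.degree v = 3) {k : ℕ} (hk : 5 ≤ k) (hc : CycConn G k)
    {m : ℕ} (hm : 0 < m) (P : Fin m → Finset V)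
    (hdis : ∀ i j, i ≠ j → Disjoint (P i) (P j))
    (hcyc : ∀ i, ¬ (G.induce (P i : Set V)).IsAcyclic)
    (hb : ∀ i, ∀ v ∈ P i, ∀ w w', w ∉ P i → w' ∉ P i → G.Adj v w → G.Adj v w' → w = w')
    (hext : ∀ i φ, BdryOK G (P i) φ → ExtFlow G (P i) φ)
    (hrest : ∀ U : Finset V, (∀ i, Disjoint U (P i)) → k * U.card ≤ (3 * k - 10) * dd G U) :
    HasNZFlow (ZMod 5) G := by
  classical
  have huniq : ∀ i j v, v ∈ P i → v ∈ P j → i = j := by
    intro i j v hi hj
    by_contra h
    exact Finset.disjoint_left.1 (hdis i j h) hi hj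
  let c' : V → Fin m ⊕ V := fun v => if h : ∃ i, v ∈ P i then Sum.inl h.choose else Sum.inr v
  have hin : ∀ i v, v ∈ P i → c' v = Sum.inl i := by
    intro i v hv
    have h : ∃ i, v ∈ P i := ⟨i, hv⟩
    simp only [c', dif_pos h]
    rw [huniq _ i v h.choose_spec hv]
  have hout : ∀ v, (∀ i, v ∉ P i) → c' v = Sum.inr v := by
    intro v hv
    have h : ¬ ∃ i, v ∈ P i := fun ⟨i, hi⟩ => hv i hi
    simp only [c', dif_neg h]
  have hceq : ∀ u v, c' u = c' v ↔ u = v ∨ ∃ i, u ∈ P i ∧ v ∈ P i := by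
    intro u v
    constructor
    · intro h
      by_cases hu : ∃ i, u ∈ P i
      · obtain ⟨i, hi⟩ := hu
        by_cases hv : ∃ j, v ∈ P j
        · obtain ⟨j, hj⟩ := hv
          rw [hin i u hi, hin j v hj] at h
          have := Sum.inl.inj h
          subst this
          exact Or.inr ⟨i, hi, hj⟩
        · rw [hin i u hi, hout v fun j hj => hv ⟨j, hj⟩] at h
          exact absurd h (by simp)
      · by_cases hv : ∃ j, v ∈ P j
        · obtain ⟨j, hj⟩ := hv
          rw [hin j v hj, hout u fun j hj => hu ⟨j, hj⟩] at h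
          exact absurd h (by simp)
        · rw [hout u fun j hj => hu ⟨j, hj⟩, hout v fun j hj => hv ⟨j, hj⟩] at h
          exact Or.inl (Sum.inr.inj h)
    · rintro (rfl | ⟨i, hu, hv⟩)
      · rfl
      · rw [hin i u hu, hin i v hv]
  let Q : Type := {q : Fin m ⊕ V // q ∈ univ.image c'}
  let c : V → Q := fun v => ⟨c' v, mem_image_of_mem c' (mem_univ v)⟩
  have hc1 : ∀ u v, c u = c v ↔ c' u = c' v := fun u v => Subtype.ext_iff
  have hcs : Function.Surjective c := by
    rintro ⟨q, hq⟩
    obtain ⟨v, -, hv⟩ := mem_image.1 hq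
    exact ⟨v, Subtype.ext hv⟩
  have hpart : ∀ p : Q → ℕ, 10 * (((univ.image p).card : ℝ) - 1) ≤
      3 * ((univ.filter fun e : V × V => G.Adj e.1 e.2 ∧ p (c e.1) ≠ p (c e.2)).card : ℝ) := by
    intro p
    have h1 := part_ineq h3 hk hc hm P hcyc hrest (fun v => p (c v)) (fun i u hu v hv => by
      have : c u = c v := (hc1 u v).2 ((hceq u v).2 (Or.inr ⟨i, hu, hv⟩))
      simp only [this])
    have h2 : univ.image (fun v => p (c v)) = univ.image p := by
      ext j
      simp only [mem_image, mem_univ, true_and]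
      constructor
      · rintro ⟨v, hv⟩
        exact ⟨c v, hv⟩
      · rintro ⟨q, hq⟩
        obtain ⟨v, rfl⟩ := hcs q
        exact ⟨v, hq⟩
    rw [h2] at h1
    exact h1
  obtain ⟨f, hfa, hfn, hfc⟩ := quot_flow G c hcs hpart
  refine ext_glue_many hdis hb f hfa (fun u v => ?_) (fun v hv => ?_) (fun i => ?_) hext
  · rw [hfn u v]
    constructor
    · rintro ⟨h1, h2⟩
      exact ⟨h1, fun h4 => h2 ((hc1 u v).2 ((hceq u v).2 (Or.inr h4)))⟩
    · rintro ⟨h1, h2⟩
      refine ⟨h1, fun h4 => ?_⟩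
      rcases (hceq u v).1 ((hc1 u v).1 h4) with h5 | h5
      · exact h1.ne h5
      · exact h2 h5
  · have h1 := hfc (c v)
    have h2 : univ.filter (fun w => c w = c v) = {v} := by
      ext w
      simp only [mem_filter, mem_univ, true_and, mem_singleton]
      constructor
      · intro h
        rcases (hceq w v).1 ((hc1 w v).1 h) with h5 | ⟨i, _, h5⟩
        · exact h5
        · exact absurd h5 (hv i)
      · rintro rfl
        rfl
    rw [h2, sum_singleton] at h1
    exact h1
  · rcases (P i).eq_empty_or_nonempty with he | ⟨v, hv⟩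
    · rw [he, sum_empty]
    · have h1 := hfc (c v)
      have h2 : univ.filter (fun w => c w = c v) = P i := by
        ext w
        simp only [mem_filter, mem_univ, true_and]
        constructor
        · intro h
          rcases (hceq w v).1 ((hc1 w v).1 h) with h5 | ⟨j, h5, h6⟩
          · rw [h5]
            exact hv
          · have := huniq j i v h6 hv
            subst this
            exact h5
        · intro hw
          exact (hc1 w v).2 ((hceq w v).2 (Or.inr ⟨i, hw, hv⟩))
      rw [h2] at h1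
      exact h1

end Pool.Agent.K5
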