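import Mathlib
import Pool.Agent.Work.MP_974d84_co_k5.BeadIn
import Pool.Agent.Work.MP_974d84_co_k5.FreeSets

/-!
# Graphs with disjoint beads and a sparse rest

From the extension theorem (`ext_e` applied to `main_e`) and `flow_of_free`.
-/

set_option linter.unusedSectionVars false

namespace Pool.Agent.K5

open Finset SimpleGraph Pool.Agent.Exp Pool.Agent.Log5 Pool.Agent.Log5.Clu MP974d84

theorem far_one {V : Type} [Fintype V] [DecidableEq V] {G : SimpleGraph V} [DecidableRel G.Adj]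
    {D : ℕ} (hD : 1 ≤ D) {P : Finset V} (h : FarB G D P) :
    ∀ v ∈ P, ∀ w w', w ∉ P → w' ∉ P → G.Adj v w → G.Adj v w' → w = w' := by
  classical
  intro v hv w w' hw hw' hvw hvw'
  have h1 := h.one hD hv
  rw [ee_sum, sum_singleton] at h1
  exact card_le_one.1 h1 w (mem_filter.2 ⟨mem_compl.2 hw, hvw⟩) w'
    (mem_filter.2 ⟨mem_compl.2 hw', hvw'⟩)

/-- **(EP)**: the hypothesis is the conclusion of `ext_e`. -/
theorem free_main (hext : ∃ D K : ℕ, ∀ {V : Type} [Fintype V] [DecidableEq V] (G : SimpleGraph V)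
    [DecidableRel G.Adj], (∀ v, G.degree v = 3) → ∀ P : Finset V, FarB G D P →
    (∀ A ⊆ P, A.card < K → (G.induce (A : Set V)).IsAcyclic) →
    (∀ Y ⊆ P, ¬ (G.induce (Y : Set V)).IsAcyclic →
      ¬ (G.induce ((P \ Y : Finset V) : Set V)).IsAcyclic → K ≤ ee G Y (P \ Y)) →
    ∀ φ : V → ZMod 5, BdryOK G P φ → ExtFlow G P φ) :
    ∃ K : ℕ, ∀ {V : Type} [Fintype V] [DecidableEq V] (G : SimpleGraph V)
    [DecidableRel G.Adj], (∀ v, G.degree v = 3) → ∀ {k : ℕ}, 5 ≤ k → CycConn G k →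
    ∀ {m : ℕ}, 0 < m → ∀ P : Fin m → Finset V, (∀ i j, i ≠ j → Disjoint (P i) (P j)) →
    (∀ i, ¬ (G.induce (P i : Set V)).IsAcyclic) → (∀ i, FarB G K (P i)) →
    (∀ i, ∀ A ⊆ P i, A.card < K → (G.induce (A : Set V)).IsAcyclic) →
    (∀ i, ∀ Y ⊆ P i, ¬ (G.induce (Y : Set V)).IsAcyclic →
      ¬ (G.induce ((P i \ Y : Finset V) : Set V)).IsAcyclic → K ≤ ee G Y (P i \ Y)) →
    (∀ U : Finset V, (∀ i, Disjoint U (P i)) → k * U.card ≤ (3 * k - 10) * dd G U) →
    HasNZFlow (ZMod 5) G := by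
  obtain ⟨D, K, h⟩ := hext
  refine ⟨D + K + 1, fun {V} _ _ G _ h3 {k} hk hc {m} hm P hdis hcyc hfar hgir hcut hrest => ?_⟩
  refine flow_of_free h3 hk hc hm P hdis hcyc (fun i => far_one (by omega) (hfar i))
    (fun i φ hφ => ?_) hrest
  exact h G h3 (P i) ((hfar i).mono (by omega)) (fun A hA hA' => hgir i A hA (by omega))
    (fun Y hY h1 h2 => (by omega : K ≤ D + K + 1).trans (hcut i Y hY h1 h2)) φ hφ

end Pool.Agent.K5
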