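import Mathlib
import Pool.Agent.Work.MP_974d84_co_k5.Defs5

/-!
# Route W (circular flow numbers near 4): basic notions
-/

set_option linter.unusedSectionVars false

namespace Pool.Agent.K5

open Finset SimpleGraph Pool.Agent.Exp Pool.Agent.Log5 Pool.Agent.Log5.Clu

variable {V : Type} [Fintype V] [DecidableEq V]

/-- A cubic graph given by a permutation (the circuits of a 2-factor) and an involution (the
third edges). -/
structure Frame (G : SimpleGraph V) (μ : V → V) (π : Equiv.Perm V) : Prop where
  mu_mu : ∀ v, μ (μ v) = v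
  mu_ne : ∀ v, μ v ≠ π v
  mu_ne' : ∀ v, μ v ≠ π.symm v
  pi_ne : ∀ v, π v ≠ π.symm v
  adj : ∀ u v, G.Adj u v ↔ (v = μ u ∨ v = π u ∨ v = π.symm u)

/-- One step along the circuits. -/
def stp (π : Equiv.Perm V) (b : Bool) (v : V) : V := if b then π v else π.symm v

/-- Words: `none` is the third edge, `some b` is a step along the circuits. -/
def act (μ : V → V) (π : Equiv.Perm V) : List (Option Bool) → V → V
  | [], v => v
  | none :: w, v => μ (act μ π w v)
  | some b :: w, v => stp π b (act μ π w v)

/-- The inverse letter. -/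
def linv : Option Bool → Option Bool
  | none => none
  | some b => some (!b)

/-- Reduced words. -/
def Red (w : List (Option Bool)) : Prop := w.IsChain fun x y => x ≠ linv y

/-- The tree behind the third edge of a vertex: third edges and steps alternate. -/
def TT (μ : V → V) (π : Equiv.Perm V) (v : V) : List Bool → V
  | [] => μ v
  | b :: c => μ (stp π b (TT μ π v c))

/-- The zone of the window which starts in `a` (vertices `a, π a, .., π ^ (2 q) a`). -/
noncomputable def zone (G : SimpleGraph V) [DecidableRel G.Adj] (π : Equiv.Perm V) (R q : ℕ) (a : V) :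
    Finset V :=
  (range (2 * q + 1)).biUnion fun j => Bl G.Adj R ((π ^ j) a)

/-- Windows, given by their starts. -/
structure Win (G : SimpleGraph V) [DecidableRel G.Adj] (π : Equiv.Perm V) (R q B : ℕ)
    (A : Finset V) : Prop where
  disj : ∀ a ∈ A, ∀ a' ∈ A, a ≠ a' → Disjoint (zone G π R q a) (zone G π R q a')
  dense : ∀ v, ∃ n < B, (π ^ n) v ∈ A

/-- `Z` splits `U`. -/
def Cuts (U Z : Finset V) : Prop := ¬ (U ⊆ Z ∨ Disjoint U Z)

instance (U Z : Finset V) : Decidable (Cuts U Z) := by unfold Cuts; infer_instance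

/-- A favourable end of a defect of sign `s`. -/
def Fav (μ : V → V) (π : Equiv.Perm V) (J : ℕ) (y : V → ℤ) (s : ℤ) (v : V) : Prop :=
  ∀ c : List Bool, c.length < J → y (TT μ π v c) = - s

/-- The starts of the windows with a defect. -/
def Dfc (π : Equiv.Perm V) (A : Finset V) (y : V → ℤ) : Finset V :=
  A.filter fun a => y (π.symm a) = y a

/-- The pattern: alternating along the circuits except at the starts of the windows; favourable
places for both signs in every window; two defects near every vertex. -/
structure Pattern (μ : V → V) (π : Equiv.Perm V) (J q M : ℕ) (A : Finset V) (y : V → ℤ) :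
    Prop where
  sign : ∀ v, y v = 1 ∨ y v = -1
  alt : ∀ v, π v ∉ A → y (π v) = - y v
  fav : ∀ a ∈ A, ∀ s, (s = 1 ∨ s = -1) → ∃ c, 1 ≤ c ∧ c ≤ 2 * q ∧ y ((π ^ c) a) = s ∧
    Fav μ π J y s ((π ^ (c - 1)) a) ∧ Fav μ π J y s ((π ^ c) a)
  near : ∀ v, ∃ m n, m < n ∧ n < M ∧ (π ^ m) v ∈ Dfc π A y ∧ (π ^ n) v ∈ Dfc π A y

/-- The sets which have to be controlled: the bonds of the regions. -/
def RF (G : SimpleGraph V) [DecidableRel G.Adj] {r : ℕ} (S : Fin r → Finset V) (Z : Finset V) :
    Prop :=
  ∃ R, Region S R ∧ RBond G R id Z ∧ (R = univ → 2 * Z.card ≤ Fintype.card V)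

end Pool.Agent.K5
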