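import Mathlib
import Pool.Agent.Work.MP_974d84_co_k5.DefsW

/-!
# The extension theorem: basic notions
-/

set_option linter.unusedSectionVars false

namespace Pool.Agent.K5

open Finset SimpleGraph Pool.Agent.Exp Pool.Agent.Log5 Pool.Agent.Log5.Clu

variable {V : Type} [Fintype V] [DecidableEq V]

/-- Marked edges of a cubic graph with their charges (a mark is a vertex of degree two in the
middle of the edge which has been suppressed). -/
structure Marks (G : SimpleGraph V) (p : V → V → ℝ) : Prop where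
  symm : ∀ u v, p u v = p v u
  adj : ∀ u v, p u v ≠ 0 → G.Adj u v
  val : ∀ u v, p u v ≠ 0 → |p u v| = 2 / 5 ∨ |p u v| = 4 / 5

/-- Different marked edges are far apart. -/
def FarM (G : SimpleGraph V) [DecidableRel G.Adj] (D : ℕ) (p : V → V → ℝ) : Prop :=
  ∀ u v u' v', p u v ≠ 0 → p u' v' ≠ 0 → u' ∈ Bl G.Adj D u →
    (u' = u ∧ v' = v) ∨ (u' = v ∧ v' = u)

/-- The sign of the two ends of a mark of charge `t`. -/
noncomputable def sg (t : ℝ) : ℤ := if 0 < t then -1 else 1

open Classical in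
/-- The ends of the marked edges. -/
noncomputable def ends (p : V → V → ℝ) : Finset V := univ.filter fun u => ∃ v, p u v ≠ 0

open Classical in
/-- The charge at an end of a marked edge which has to be dispersed: half of the mark if the
marked edge is a third edge, otherwise what remains of the defect. -/
noncomputable def chm (μ : V → V) (p : V → V → ℝ) (u : V) : ℝ :=
  ∑ v, if p u v = 0 then 0 else if v = μ u then p u v / 2 else
    (sg (p u v) : ℝ) * (1 - |p u v|) / 2

open Classical in
/-- The root of the tree of an end of a marked edge. -/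
noncomputable def rtm (μ : V → V) (p : V → V → ℝ) (u : V) : V :=
  if p u (μ u) = 0 then u else μ u

open Classical in
/-- The smeared end of a marked edge: uniform on the leaves of level `jm`. -/
noncomputable def wmm (μ : V → V) (π : Equiv.Perm V) (p : V → V → ℝ) (jm : ℕ) (u v : V) : ℝ :=
  if ∃ c : List Bool, c.length = jm ∧ v = TT μ π (rtm μ p u) c then 1 / 2 ^ jm else 0

open Classical in
/-- The number of cut edges which are not marked. -/
noncomputable def dM (G : SimpleGraph V) (p : V → V → ℝ) (X : Finset V) : ℕ :=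
  ((univ : Finset (V × V)).filter fun e =>
    e.1 ∈ X ∧ e.2 ∉ X ∧ G.Adj e.1 e.2 ∧ p e.1 e.2 = 0).card

/-- The pattern: as `Pattern`, with equal signs at the two ends of a marked edge and favourable
trees behind them. -/
structure PatternE (μ : V → V) (π : Equiv.Perm V) (J q M : ℕ) (A : Finset V) (p : V → V → ℝ)
    (y : V → ℤ) : Prop where
  sign : ∀ v, y v = 1 ∨ y v = -1
  alt : ∀ v, π v ∉ A → p v (π v) = 0 → y (π v) = - y v
  markc : ∀ v, p v (π v) ≠ 0 → y v = sg (p v (π v)) ∧ y (π v) = sg (p v (π v)) ∧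
    Fav μ π J y (sg (p v (π v))) v ∧ Fav μ π J y (sg (p v (π v))) (π v)
  markt : ∀ v, p v (μ v) ≠ 0 → Fav μ π J y (- sg (p v (μ v))) v
  fav : ∀ a ∈ A, ∀ s, (s = 1 ∨ s = -1) → ∃ c, 1 ≤ c ∧ c ≤ 2 * q ∧ y ((π ^ c) a) = s ∧
    Fav μ π J y s ((π ^ (c - 1)) a) ∧ Fav μ π J y s ((π ^ c) a)
  near : ∀ v, ∃ m n, m < n ∧ n < M ∧ (π ^ m) v ∈ Dfc π A y ∧ (π ^ n) v ∈ Dfc π A y

open Classical in
/-- The windows which are far from the marks. -/
noncomputable def awayM (G : SimpleGraph V) [DecidableRel G.Adj] (π : Equiv.Perm V) (R q ρ : ℕ)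
    (p : V → V → ℝ) (A : Finset V) : Finset V :=
  A.filter fun a => ∀ u ∈ ends p, Disjoint (zone G π R q a) (Bl G.Adj ρ u)

/-- The part of a graph inside a vertex set. -/
def inn (G : SimpleGraph V) (P : Finset V) : SimpleGraph V where
  Adj u v := G.Adj u v ∧ u ∈ P ∧ v ∈ P
  symm := ⟨fun _ _ h => ⟨h.1.symm, h.2.2, h.2.1⟩⟩
  loopless := ⟨fun _ h => G.loopless.irrefl _ h.1⟩

/-- A bead: every vertex has at most one neighbour outside, the boundary vertices are far apart
inside, and all cyclic edge cuts inside are large. -/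
structure IsBead (G : SimpleGraph V) [DecidableRel G.Adj] (D K : ℕ) (P : Finset V) : Prop where
  cyc : ¬ (G.induce (P : Set V)).IsAcyclic
  one : ∀ v ∈ P, (univ.filter fun u => G.Adj v u ∧ u ∉ P).card ≤ 1
  far : ∀ v ∈ P, ∀ v' ∈ P, v ≠ v' → (∃ u, u ∉ P ∧ G.Adj v u) → (∃ u, u ∉ P ∧ G.Adj v' u) →
    v' ∉ Bl (inn G P).Adj D v
  cut : ∀ A ⊆ P, ¬ (G.induce (A : Set V)).IsAcyclic →
    ¬ (G.induce ((P \ A : Finset V) : Set V)).IsAcyclic → K ≤ ee G A (P \ A)

end Pool.Agent.K5
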