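import Mathlib
import Pool.Agent.Work.MP_974d84_co_k5.DefsE

/-!
# The real extension theorem: marks with arbitrary charges of absolute value at most one
-/

set_option linter.unusedSectionVars false

namespace Pool.Agent.K5.Re

open Finset SimpleGraph Pool.Agent.Exp Pool.Agent.Log5 Pool.Agent.Log5.Clu

variable {V : Type} [Fintype V] [DecidableEq V]

/-- Marked edges of a cubic graph with charges of absolute value at most one. -/
structure Marks (G : SimpleGraph V) (p : V → V → ℝ) : Prop where
  symm : ∀ u v, p u v = p v u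
  adj : ∀ u v, p u v ≠ 0 → G.Adj u v
  bd : ∀ u v, |p u v| ≤ 1

/-- The same marks with charges `2/5` and `-2/5`. -/
noncomputable def std (p : V → V → ℝ) (u v : V) : ℝ :=
  if p u v = 0 then 0 else if 0 < p u v then 2 / 5 else -(2 / 5)

theorem std_eq_zero {p : V → V → ℝ} {u v : V} : std p u v = 0 ↔ p u v = 0 := by
  unfold std
  constructor
  · intro h
    by_contra h0
    rw [if_neg h0] at h
    split_ifs at h <;> norm_num at h
  · intro h
    rw [if_pos h]

theorem sg_std (p : V → V → ℝ) (u v : V) : sg (std p u v) = sg (p u v) := by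
  unfold sg std
  by_cases h : p u v = 0
  · rw [if_pos h, h]
  · rw [if_neg h]
    by_cases h1 : 0 < p u v
    · rw [if_pos h1, if_pos h1, if_pos (by norm_num)]
    · rw [if_neg h1, if_neg h1, if_neg (by norm_num)]

theorem marks_std {G : SimpleGraph V} {p : V → V → ℝ} (hp : Marks G p) :
    K5.Marks G (std p) where
  symm u v := by unfold std; rw [hp.symm u v]
  adj u v h := hp.adj u v fun h0 => h (std_eq_zero.2 h0)
  val u v h := by
    have h0 : p u v ≠ 0 := fun h0 => h (std_eq_zero.2 h0)
    unfold std
    rw [if_neg h0]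
    split_ifs
    · left
      norm_num
    · left
      norm_num

theorem farM_std {G : SimpleGraph V} [DecidableRel G.Adj] {D : ℕ} {p : V → V → ℝ}
    (h : FarM G D p) : FarM G D (std p) := fun u v u' v' h1 h2 h3 =>
  h u v u' v' (fun h0 => h1 (std_eq_zero.2 h0)) (fun h0 => h2 (std_eq_zero.2 h0)) h3

theorem ends_std (p : V → V → ℝ) : ends (std p) = ends p := by
  unfold ends
  ext u
  simp only [mem_filter, mem_univ, true_and]
  constructor
  · rintro ⟨v, hv⟩
    exact ⟨v, fun h => hv (std_eq_zero.2 h)⟩
  · rintro ⟨v, hv⟩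
    exact ⟨v, fun h => hv (std_eq_zero.1 h)⟩

theorem awayM_std {G : SimpleGraph V} [DecidableRel G.Adj] (π : Equiv.Perm V) (R q ρ : ℕ)
    (p : V → V → ℝ) (A : Finset V) : awayM G π R q ρ (std p) A = awayM G π R q ρ p A := by
  unfold awayM
  rw [ends_std]

theorem pattern_std {μ : V → V} {π : Equiv.Perm V} {J q M : ℕ} {A : Finset V} {p : V → V → ℝ}
    {y : V → ℤ} (h : PatternE μ π J q M A (std p) y) : PatternE μ π J q M A p y where
  sign := h.sign
  alt v hv hp := h.alt v hv (std_eq_zero.2 hp)
  markc v hv := by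
    have h1 := h.markc v fun h0 => hv (std_eq_zero.1 h0)
    rw [sg_std] at h1
    exact h1
  markt v hv := by
    have h1 := h.markt v fun h0 => hv (std_eq_zero.1 h0)
    rw [sg_std] at h1
    exact h1
  fav := h.fav
  near := h.near

end Pool.Agent.K5.Re
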