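import Mathlib
import Pool.Agent.Work.MP_974d84_co_k5.DefsE
import Pool.Agent.Work.MP_974d84_co_k5.Bead

/-!
# Suppression of the boundary vertices of a bead: definitions
-/

set_option linter.unusedSectionVars false

namespace Pool.Agent.K5

open Finset SimpleGraph Pool.Agent.Exp Pool.Agent.Log5 Pool.Agent.Log5.Clu

variable {V : Type} [Fintype V] [DecidableEq V] (G : SimpleGraph V) [DecidableRel G.Adj]

/-- The vertices of `P` without neighbours outside `P`. -/
def unm (P : Finset V) : Finset V := P.filter fun v => ∀ u, G.Adj v u → u ∈ P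

/-- The marks: the vertices of `P` with a neighbour outside `P`. -/
def mks (P : Finset V) : Finset V := P.filter fun v => ∃ u, u ∉ P ∧ G.Adj v u

/-- The graph on the other vertices; the marks are suppressed. -/
def supG (P : Finset V) : SimpleGraph {v // v ∈ unm G P} where
  Adj u v := u ≠ v ∧ (G.Adj u v ∨ ∃ m ∈ mks G P, G.Adj m u ∧ G.Adj m v)
  symm := ⟨fun _ _ h => ⟨h.1.symm, h.2.imp (fun h => h.symm) fun ⟨m, hm, h1, h2⟩ => ⟨m, hm, h2, h1⟩⟩⟩
  loopless := ⟨fun _ h => h.1 rfl⟩

instance (P : Finset V) : DecidableRel (supG G P).Adj := fun u v =>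
  inferInstanceAs (Decidable (u ≠ v ∧ (G.Adj u v ∨ ∃ m ∈ mks G P, G.Adj m u ∧ G.Adj m v)))

/-- The charges of the marks as charges of the edges. -/
def supC (P : Finset V) (c : V → ℝ) (u v : {v // v ∈ unm G P}) : ℝ :=
  ∑ m ∈ mks G P, if u ≠ v ∧ G.Adj m u ∧ G.Adj m v then c m else 0

/-- The hypotheses: every vertex of `P` has at most one neighbour outside, marks are neither
adjacent nor have a common neighbour in `P`, no short circuits in `P`. -/
structure SupH (N : ℕ) (P : Finset V) : Prop where
  h3 : ∀ v, G.degree v = 3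
  far : FarB G 4 P
  gir : ∀ A ⊆ P, A.card < N → (G.induce (A : Set V)).IsAcyclic

end Pool.Agent.K5
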