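import Mathlib
import Pool.Agent.Work.MP_974d84_co_k5.SupDefs

/-!
# Suppressing the boundary of a bead: the marked edges are far apart
-/

set_option linter.unusedSectionVars false

namespace Pool.Agent.K5

open Finset SimpleGraph Pool.Agent.Exp Pool.Agent.Log5 Pool.Agent.Log5.Clu

variable {V : Type} [Fintype V] [DecidableEq V]



variable {G : SimpleGraph V} [DecidableRel G.Adj] {P : Finset V}

theorem mks_out {m : V} (hm : m ∈ mks G P) : m ∈ P ∧ ∃ u, G.Adj m u ∧ u ∉ P := by
  rw [mks, mem_filter] at hm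
  obtain ⟨u, hu, hmu⟩ := hm.2
  exact ⟨hm.1, u, hmu, hu⟩

theorem conn_insert {Q : Finset V} (hQ : (G.induce (Q : Set V)).Connected) {x y : V} (hy : y ∈ Q)
    (hxy : G.Adj y x) : (G.induce ((insert x Q : Finset V) : Set V)).Connected := by
  have h1 : ((insert x Q : Finset V) : Set V) = (Q : Set V) ∪ {x} := by
    ext v
    simp only [coe_insert, Set.mem_insert_iff, mem_coe, Set.mem_union, Set.mem_singleton_iff]
    tauto
  rw [h1]
  refine connected_induce_union hQ.preconnected ?_ (v := y) (w := x) (by exact_mod_cast hy)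
    (Set.mem_singleton x) hxy
  intro a b
  have hab : a = b := Subtype.ext (by
    have ha := a.2
    have hb := b.2
    rw [Set.mem_singleton_iff] at ha hb
    rw [ha, hb])
  rw [hab]

theorem conn_single (x : V) : (G.induce (({x} : Finset V) : Set V)).Connected := by
  have : Nonempty ((({x} : Finset V) : Set V)) := ⟨⟨x, by simp⟩⟩
  refine ⟨fun a b => ?_⟩
  have hab : a = b := Subtype.ext (by
    have ha := a.2
    have hb := b.2
    simp only [coe_singleton, Set.mem_singleton_iff] at ha hb
    rw [ha, hb])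
  rw [hab]

/-- A ball of the suppressed graph gives a small connected set. -/
theorem sup_chain {n : ℕ} {u v : {v // v ∈ unm G P}} (h : v ∈ Bl (supG G P).Adj n u) :
    ∃ Q : Finset V, Q ⊆ P ∧ (u : V) ∈ Q ∧ (v : V) ∈ Q ∧ Q.card ≤ 2 * n + 1 ∧
      (G.induce (Q : Set V)).Connected := by
  induction n generalizing v with
  | zero =>
    rw [mem_Bl_zero] at h
    subst h
    refine ⟨{(v : V)}, ?_, mem_singleton_self _, mem_singleton_self _, by simp, conn_single _⟩
    rw [singleton_subset_iff]
    exact (mem_filter.1 v.2).1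
  | succ n ih =>
    rw [mem_Bl_succ] at h
    rcases h with h | ⟨w, hw, hwv⟩
    · obtain ⟨Q, h1, h2, h3, h4, h5⟩ := ih h
      exact ⟨Q, h1, h2, h3, by omega, h5⟩
    · obtain ⟨Q, h1, h2, h3, h4, h5⟩ := ih hw
      have hvP : (v : V) ∈ P := (mem_filter.1 v.2).1
      rcases hwv.2 with hadj | ⟨m, hm, hmw, hmv⟩
      · refine ⟨insert (v : V) Q, ?_, mem_insert_of_mem h2, mem_insert_self _ _, ?_,
          conn_insert h5 h3 hadj⟩
        · rw [insert_subset_iff]
          exact ⟨hvP, h1⟩
        · have := card_insert_le (v : V) Q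
          omega
      · refine ⟨insert (v : V) (insert m Q), ?_, ?_, mem_insert_self _ _, ?_,
          conn_insert (conn_insert h5 h3 hmw.symm) (mem_insert_self _ _) hmv⟩
        · rw [insert_subset_iff, insert_subset_iff]
          exact ⟨hvP, (mks_out hm).1, h1⟩
        · exact mem_insert_of_mem (mem_insert_of_mem h2)
        · have h6 := card_insert_le (v : V) (insert m Q)
          have h7 := card_insert_le m Q
          omega

/-- A mark has at most two neighbours inside. -/
theorem mks_two (h3 : ∀ v, G.degree v = 3) {m u v u' v' : V} (hm : m ∈ mks G P) (huP : u ∈ P)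
    (hvP : v ∈ P) (hu'P : u' ∈ P) (hv'P : v' ∈ P) (hu : G.Adj m u) (hv : G.Adj m v)
    (hu' : G.Adj m u') (hv' : G.Adj m v') (huv : u ≠ v) (huv' : u' ≠ v') :
    (u' = u ∧ v' = v) ∨ (u' = v ∧ v' = u) := by
  obtain ⟨hmP, w, hw, hwP⟩ := mks_out hm
  have h1 : ({w, u, v} : Finset V) = G.neighborFinset m := by
    refine eq_of_subset_of_card_le ?_ ?_
    · intro x hx
      rw [mem_neighborFinset]
      simp only [mem_insert, mem_singleton] at hx
      rcases hx with rfl | rfl | rfl
      · exact hw
      · exact hu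
      · exact hv
    · rw [card_neighborFinset_eq_degree, h3]
      have hwu : w ≠ u := fun h => hwP (h ▸ huP)
      have hwv : w ≠ v := fun h => hwP (h ▸ hvP)
      rw [card_insert_of_notMem (by simp [hwu, hwv]), card_pair huv]
  have h2 : ∀ x, G.Adj m x → x ∈ P → x = u ∨ x = v := by
    intro x hx hxP
    have h4 : x ∈ ({w, u, v} : Finset V) := by
      rw [h1, mem_neighborFinset]
      exact hx
    simp only [mem_insert, mem_singleton] at h4
    rcases h4 with rfl | h4
    · exact absurd hxP hwP
    · exact h4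
  rcases h2 u' hu' hu'P with h4 | h4 <;> rcases h2 v' hv' hv'P with h5 | h5
  · exact absurd (h4.trans h5.symm) huv'
  · exact Or.inl ⟨h4, h5⟩
  · exact Or.inr ⟨h4, h5⟩
  · exact absurd (h4.trans h5.symm) huv'

theorem supC_ne {c : V → ℝ} {u v : {v // v ∈ unm G P}} (h : supC G P c u v ≠ 0) :
    ∃ m ∈ mks G P, u ≠ v ∧ G.Adj m u ∧ G.Adj m v := by
  by_contra hcon
  push Not at hcon
  apply h
  unfold supC
  refine sum_eq_zero fun m hm => if_neg ?_
  rintro ⟨h1, h2, h4⟩
  exact hcon m hm h1 h2 h4

/-- S5: the marked edges of the suppressed graph are far apart. -/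
theorem supG_far {N D D' : ℕ} (hS : SupH G N P) (hD : 2 * D' + 4 ≤ D) (hfar : FarB G D P)
    (c : V → ℝ) : FarM (supG G P) D' (supC G P c) := by
  have h3 := hS.h3
  intro u v u' v' h h' hB
  obtain ⟨m, hm, huv, hmu, hmv⟩ := supC_ne h
  obtain ⟨m', hm', huv', hmu', hmv'⟩ := supC_ne h'
  obtain ⟨Q, hQP, huQ, hu'Q, hQc, hQ⟩ := sup_chain hB
  have hin : ∀ w : {v // v ∈ unm G P}, (w : V) ∈ P := fun w => (mem_filter.1 w.2).1
  by_cases hmm : m = m'
  · subst hmm
    have h1 := mks_two h3 hm (hin u) (hin v) (hin u') (hin v') hmu hmv hmu' hmv'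
      (fun e => huv (Subtype.ext e)) (fun e => huv' (Subtype.ext e))
    rcases h1 with ⟨h1, h2⟩ | ⟨h1, h2⟩
    · exact Or.inl ⟨Subtype.ext h1, Subtype.ext h2⟩
    · exact Or.inr ⟨Subtype.ext h1, Subtype.ext h2⟩
  · exfalso
    obtain ⟨hmP, w, hw, hwP⟩ := mks_out hm
    obtain ⟨hmP', w', hw', hwP'⟩ := mks_out hm'
    have hc : (G.induce ((insert m' (insert m Q) : Finset V) : Set V)).Connected :=
      conn_insert (conn_insert hQ huQ hmu.symm) (mem_insert_of_mem hu'Q) hmu'.symm
    have h1 := hfar (insert m' (insert m Q)) (by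
      rw [insert_subset_iff, insert_subset_iff]
      exact ⟨hmP', hmP, hQP⟩) (by
      have h6 := card_insert_le m' (insert m Q)
      have h7 := card_insert_le m Q
      omega) hc
    have h2 : ({(m, w), (m', w')} : Finset (V × V)) ⊆
        (univ : Finset (V × V)).filter fun p => p.1 ∈ insert m' (insert m Q) ∧ p.2 ∈ Pᶜ ∧
          G.Adj p.1 p.2 := by
      intro p hp
      simp only [mem_insert, mem_singleton] at hp
      rw [mem_filter]
      rcases hp with rfl | rfl
      · exact ⟨mem_univ _, mem_insert_of_mem (mem_insert_self _ _), mem_compl.2 hwP, hw⟩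
      · exact ⟨mem_univ _, mem_insert_self _ _, mem_compl.2 hwP', hw'⟩
    have h4 := card_le_card h2
    rw [card_pair (fun e => hmm (congrArg Prod.fst e))] at h4
    unfold ee at h1
    omega

end Pool.Agent.K5
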