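import Mathlib
import Pool.Agent.Work.MP_974d84_co_log.Comp
import Pool.Agent.Work.MP_974d84_co_log.Girth
import Pool.Agent.Work.MP_974d84_co_thin.Final
import Pool.Agent.Work.MP_974d84_co_k5.SupDefs
import Pool.Agent.Work.MP_974d84_co_k5.SupFar
import Pool.Agent.Work.MP_974d84_co_k5.ExtGlue
import Pool.Agent.Work.MP_974d84_co_k5.CoreFactsA

/-!
# Suppression of the boundary vertices of a bead
-/

set_option linter.unusedSectionVars false
set_option linter.unusedVariables false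

namespace Pool.Agent.K5

open Finset SimpleGraph Pool.Agent.Exp Pool.Agent.Log5 Pool.Agent.Log5.Clu MP974d84

namespace SupE

variable {V : Type} [Fintype V] [DecidableEq V] (G : SimpleGraph V) [DecidableRel G.Adj]
  (P : Finset V)

/-- The inner vertices. -/
abbrev Wt : Type := {v // v ∈ unm G P}

/-- The hypotheses. -/
structure Hyp : Prop where
  h3 : ∀ v, G.degree v = 3
  one : ∀ v ∈ P, ∀ w w', w ∉ P → w' ∉ P → G.Adj v w → G.Adj v w' → w = w'
  far : ∀ m ∈ mks G P, ∀ m' ∈ mks G P, ¬ G.Adj m m'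
  tri : ∀ a ∈ P, ∀ b ∈ P, ∀ c ∈ P, G.Adj a b → G.Adj b c → ¬ G.Adj a c
  quad : ∀ a ∈ P, ∀ b ∈ P, ∀ c ∈ P, ∀ d ∈ P, a ≠ c → b ≠ d → G.Adj a b → G.Adj b c →
    G.Adj c d → ¬ G.Adj d a

variable {G P}

theorem mem_mks {m : V} : m ∈ mks G P ↔ m ∈ P ∧ ∃ w, G.Adj m w ∧ w ∉ P := by
  unfold mks
  rw [mem_filter]
  constructor
  · rintro ⟨h, w, h1, h2⟩
    exact ⟨h, w, h2, h1⟩
  · rintro ⟨h, w, h1, h2⟩
    exact ⟨h, w, h2, h1⟩

theorem wt_mem (u : Wt G P) : u.1 ∈ P := (mem_filter.1 u.2).1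

theorem wt_nb (u : Wt G P) : ∀ w, G.Adj u.1 w → w ∈ P := (mem_filter.1 u.2).2

theorem wt_mk {v : V} (hv : v ∈ P) (h : ∀ w, G.Adj v w → w ∈ P) : v ∈ unm G P :=
  mem_filter.2 ⟨hv, h⟩

/-- The number of the neighbours of `m` in a set of inner vertices. -/
def nw (m : V) (X : Finset (Wt G P)) : ℕ := (X.filter fun u => G.Adj m u.1).card

/-- The embedding of the inner vertices. -/
def emb : Wt G P ↪ V := ⟨fun u => u.1, fun _ _ h => Subtype.ext h⟩

theorem emb_apply (u : Wt G P) : emb u = u.1 := rfl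

theorem inner_not_mk (u : Wt G P) : u.1 ∉ mks G P := by
  intro h
  obtain ⟨_, w, h1, h2⟩ := mem_mks.1 h
  exact h2 (wt_nb u w h1)

theorem mk_or_inner {v : V} (hv : v ∈ P) (hm : v ∉ mks G P) : ∀ w, G.Adj v w → w ∈ P := by
  intro w hw
  by_contra h
  exact hm (mem_mks.2 ⟨hv, w, hw, h⟩)

theorem card_filter_emb (X : Finset (Wt G P)) (v : V) :
    ((X.map emb).filter fun w => G.Adj v w).card = (X.filter fun u => G.Adj v u.1).card := by
  rw [filter_map, card_map]
  rfl

theorem ee_sum' (A B : Finset V) :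
    ee G A B = ∑ u ∈ A, (B.filter fun v => G.Adj u v).card := Pool.Agent.K5.ee_sum A B

/-- A mark has two inner neighbours. -/
theorem nw_univ (h : Hyp G P) {m : V} (hm : m ∈ mks G P) :
    nw m (univ : Finset (Wt G P)) = 2 := by
  obtain ⟨hmP, w, hw, hwP⟩ := mem_mks.1 hm
  unfold nw
  rw [← card_filter_emb]
  have h1 : ((univ : Finset (Wt G P)).map emb).filter (fun w => G.Adj m w) =
      P.filter fun w => G.Adj m w := by
    ext x
    simp only [mem_filter, mem_map, mem_univ, true_and]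
    constructor
    · rintro ⟨⟨u, rfl⟩, h2⟩
      exact ⟨wt_mem u, h2⟩
    · rintro ⟨h2, h4⟩
      refine ⟨⟨⟨x, wt_mk h2 (mk_or_inner h2 fun h5 => h.far m hm x h5 h4)⟩, rfl⟩, h4⟩
  rw [h1]
  have h2 : (univ.filter fun w => G.Adj m w).card = 3 := by
    rw [← h.h3 m, ← card_neighborFinset_eq_degree]
    congr 1
    ext x
    simp
  have h4 : (univ.filter fun w => G.Adj m w).card =
      (P.filter fun w => G.Adj m w).card + (Pᶜ.filter fun w => G.Adj m w).card := by
    rw [← card_union_of_disjoint]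
    · congr 1
      rw [← filter_union, union_compl]
    · exact disjoint_filter_filter disjoint_compl_right
  have h5 : (Pᶜ.filter fun x => G.Adj m x) = {w} := by
    ext x
    simp only [mem_filter, mem_compl, mem_singleton]
    exact ⟨fun h6 => h.one m hmP x w h6.1 hwP h6.2 hw, fun h6 => h6 ▸ ⟨hwP, hw⟩⟩
  rw [h5, card_singleton] at h4
  omega

theorem nw_compl (h : Hyp G P) {m : V} (hm : m ∈ mks G P) (X : Finset (Wt G P)) :
    nw m X + nw m Xᶜ = 2 := by
  rw [← nw_univ h hm]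
  unfold nw
  rw [← card_union_of_disjoint]
  · congr 1
    rw [← filter_union, union_compl]
  · exact disjoint_filter_filter disjoint_compl_right

/-- The marks next to an inner vertex. -/
theorem uniq_mark (h : Hyp G P) {u v : Wt G P} (huv : u ≠ v) {m m' : V}
    (h1 : G.Adj m u.1) (h2 : G.Adj m v.1) (h4 : G.Adj m' u.1) (h5 : G.Adj m' v.1) : m = m' := by
  by_contra hne
  exact h.quad m (wt_nb u m h1.symm) u.1 (wt_mem u) m' (wt_nb u m' h4.symm) v.1 (wt_mem v) hne
    (fun h6 => huv (Subtype.ext h6)) h1 h4.symm h5 h2.symm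

theorem no_mark (h : Hyp G P) {u v : Wt G P} (huv : G.Adj u.1 v.1) {m : V}
    (h1 : G.Adj m u.1) : ¬ G.Adj m v.1 :=
  h.tri m (wt_nb u m h1.symm) u.1 (wt_mem u) v.1 (wt_mem v) h1 huv

/-- The `H`-neighbours in a set. -/
theorem card_nbH (h : Hyp G P) (X : Finset (Wt G P)) (u : Wt G P) :
    (X.filter fun v => (supG G P).Adj u v).card = (X.filter fun v => G.Adj u.1 v.1).card +
      ∑ m ∈ (mks G P).filter (fun m => G.Adj m u.1), nw m (X.erase u) := by
  have h1 : (X.filter fun v => (supG G P).Adj u v) = (X.filter fun v => G.Adj u.1 v.1) ∪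
      ((mks G P).filter fun m => G.Adj m u.1).biUnion
        fun m => (X.erase u).filter fun v => G.Adj m v.1 := by
    ext v
    rw [mem_filter, mem_union, mem_filter, mem_biUnion]
    constructor
    · rintro ⟨hv, hne, h2 | ⟨m, hm, h2, h4⟩⟩
      · exact Or.inl ⟨hv, h2⟩
      · exact Or.inr ⟨m, mem_filter.2 ⟨hm, h2⟩, mem_filter.2 ⟨mem_erase.2 ⟨hne.symm, hv⟩, h4⟩⟩
    · rintro (⟨hv, h2⟩ | ⟨m, hm, h2⟩)
      · exact ⟨hv, fun h4 => G.ne_of_adj h2 (h4 ▸ rfl), Or.inl h2⟩
      · obtain ⟨hm1, hm2⟩ := mem_filter.1 hm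
        obtain ⟨hv, h4⟩ := mem_filter.1 h2
        obtain ⟨hne, hv⟩ := mem_erase.1 hv
        exact ⟨hv, hne.symm, Or.inr ⟨m, hm1, hm2, h4⟩⟩
  rw [h1, card_union_of_disjoint, card_biUnion]
  · rfl
  · intro m hm m' hm' hne
    rw [Function.onFun, Finset.disjoint_left]
    intro v hv hv'
    obtain ⟨h2, h4⟩ := mem_filter.1 hv
    obtain ⟨_, h5⟩ := mem_filter.1 hv'
    exact hne (uniq_mark h (mem_erase.1 h2).1.symm (mem_filter.1 hm).2 h4 (mem_filter.1 hm').2 h5)
  · rw [Finset.disjoint_left]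
    intro v hv hv'
    obtain ⟨m, hm, h2⟩ := mem_biUnion.1 hv'
    exact no_mark h (mem_filter.1 hv).2 (mem_filter.1 hm).2 (mem_filter.1 h2).2

theorem sum_swap (X : Finset (Wt G P)) (K : Finset V) (F : V → Wt G P → ℝ) :
    ∑ u ∈ X, ∑ m ∈ K.filter (fun m => G.Adj m u.1), F m u =
      ∑ m ∈ K, ∑ u ∈ X.filter (fun u => G.Adj m u.1), F m u := by
  simp_rw [sum_filter]
  exact sum_comm

theorem sum_swap_nat (X : Finset (Wt G P)) (K : Finset V) (F : V → Wt G P → ℕ) :
    ∑ u ∈ X, ∑ m ∈ K.filter (fun m => G.Adj m u.1), F m u =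
      ∑ m ∈ K, ∑ u ∈ X.filter (fun u => G.Adj m u.1), F m u := by
  simp_rw [sum_filter]
  exact sum_comm

/-- Edges between two sets of inner vertices. -/
def A1 (X Z : Finset (Wt G P)) : ℕ := ∑ u ∈ X, (Z.filter fun v => G.Adj u.1 v.1).card

/-- The cut of `H`. -/
theorem dd_HG (h : Hyp G P) (X : Finset (Wt G P)) :
    dd (supG G P) X = A1 X Xᶜ + ∑ m ∈ mks G P, nw m X * nw m Xᶜ := by
  rw [dd_eq_sum]
  unfold nb
  have h1 : ∀ u ∈ X, (Xᶜ.filter fun v => (supG G P).Adj u v).card =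
      (Xᶜ.filter fun v => G.Adj u.1 v.1).card +
        ∑ m ∈ (mks G P).filter (fun m => G.Adj m u.1), nw m Xᶜ := by
    intro u hu
    rw [card_nbH h]
    congr 1
    refine sum_congr rfl fun m _ => ?_
    rw [erase_eq_of_notMem fun h2 => (mem_compl.1 h2) hu]
  rw [sum_congr rfl h1, sum_add_distrib, sum_swap_nat]
  congr 1
  refine sum_congr rfl fun m _ => ?_
  rw [sum_const, smul_eq_mul]
  rfl

/-- The inner degrees of `H`. -/
theorem inner_HG (h : Hyp G P) (X : Finset (Wt G P)) :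
    ∑ u ∈ X, nb (supG G P) X u = A1 X X + ∑ m ∈ mks G P, nw m X * (nw m X - 1) := by
  unfold nb
  rw [sum_congr rfl fun u _ => card_nbH h X u, sum_add_distrib, sum_swap_nat]
  congr 1
  refine sum_congr rfl fun m _ => ?_
  have h1 : ∀ u ∈ X.filter (fun u => G.Adj m u.1), nw m (X.erase u) = nw m X - 1 := by
    intro u hu
    unfold nw
    rw [filter_erase, card_erase_of_mem hu]
  rw [sum_congr rfl h1, sum_const, smul_eq_mul]
  rfl

/-- `H` is cubic. -/
theorem degree_HG (h : Hyp G P) (u : Wt G P) : (supG G P).degree u = 3 := by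
  rw [← card_neighborFinset_eq_degree]
  have h1 : (supG G P).neighborFinset u = (univ : Finset (Wt G P)).filter
      fun v => (supG G P).Adj u v := by
    ext v
    simp
  rw [h1, card_nbH h]
  have h2 : ∀ m ∈ (mks G P).filter (fun m => G.Adj m u.1),
      nw m ((univ : Finset (Wt G P)).erase u) = 1 := by
    intro m hm
    obtain ⟨hm1, hm2⟩ := mem_filter.1 hm
    have h4 := nw_univ h hm1
    have h5 : u ∈ (univ : Finset (Wt G P)).filter fun v => G.Adj m v.1 :=
      mem_filter.2 ⟨mem_univ _, hm2⟩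
    unfold nw at h4 ⊢
    rw [filter_erase, card_erase_of_mem h5, h4]
  rw [sum_congr rfl h2, sum_const, smul_eq_mul, mul_one]
  have h4 : (univ.filter fun w => G.Adj u.1 w).card = 3 := by
    rw [← h.h3 u.1, ← card_neighborFinset_eq_degree]
    congr 1
    ext x
    simp
  rw [← h4, ← card_filter_emb]
  have h5 : (univ.filter fun w => G.Adj u.1 w) =
      (((univ : Finset (Wt G P)).map emb).filter fun w => G.Adj u.1 w) ∪
        (mks G P).filter fun m => G.Adj m u.1 := by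
    ext x
    simp only [mem_filter, mem_union, mem_map, mem_univ, true_and]
    constructor
    · intro hx
      have hxP := wt_nb u x hx
      by_cases hm : x ∈ mks G P
      · exact Or.inr ⟨hm, hx.symm⟩
      · exact Or.inl ⟨⟨⟨x, wt_mk hxP (mk_or_inner hxP hm)⟩, rfl⟩, hx⟩
    · rintro (⟨_, hx⟩ | ⟨_, hx⟩)
      · exact hx
      · exact hx.symm
  rw [h5, card_union_of_disjoint]
  rw [Finset.disjoint_left]
  intro x hx hx'
  obtain ⟨y, _, rfl⟩ := mem_map.1 (mem_filter.1 hx).1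
  exact inner_not_mk y (mem_filter.1 hx').1

/-- The set of the inner vertices `X` and the marks `K`. -/
def mix (X : Finset (Wt G P)) (K : Finset V) : Finset V := X.map emb ∪ K

theorem mix_disj {X : Finset (Wt G P)} {K : Finset V} (hK : K ⊆ mks G P) :
    Disjoint (X.map emb) K := by
  rw [Finset.disjoint_left]
  intro x hx hx'
  obtain ⟨y, _, rfl⟩ := mem_map.1 hx
  exact inner_not_mk y (hK hx')

theorem card_mix {X : Finset (Wt G P)} {K : Finset V} (hK : K ⊆ mks G P) :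
    (mix X K).card = X.card + K.card := by
  unfold mix
  rw [card_union_of_disjoint (mix_disj hK), card_map]

/-- The edges between two such sets. -/
theorem ee_mix (h : Hyp G P) (X Z : Finset (Wt G P)) {K L : Finset V} (hK : K ⊆ mks G P)
    (hL : L ⊆ mks G P) : ∑ v ∈ mix X K, ((mix Z L).filter fun w => G.Adj v w).card =
      A1 X Z + ∑ m ∈ L, nw m X + ∑ m ∈ K, nw m Z := by
  have h1 : ∀ v, ((mix Z L).filter fun w => G.Adj v w).card =
      (Z.filter fun u => G.Adj v u.1).card + (L.filter fun w => G.Adj v w).card := by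
    intro v
    unfold mix
    rw [filter_union, card_union_of_disjoint (disjoint_filter_filter (mix_disj hL)),
      card_filter_emb]
  rw [sum_congr rfl fun v _ => h1 v]
  unfold mix
  rw [sum_union (mix_disj hK), sum_map]
  have h2 : ∑ u ∈ X, ((Z.filter fun w => G.Adj (emb u) w.1).card +
      (L.filter fun w => G.Adj (emb u) w).card) = A1 X Z + ∑ m ∈ L, nw m X := by
    rw [sum_add_distrib]
    congr 1
    have h4 : ∀ u ∈ X, (L.filter fun w => G.Adj (emb u) w).card =
        ∑ m ∈ L.filter (fun m => G.Adj m u.1), 1 := by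
      intro u _
      rw [← card_eq_sum_ones]
      congr 1
      ext w
      rw [mem_filter, mem_filter, emb_apply]
      exact ⟨fun h => ⟨h.1, h.2.symm⟩, fun h => ⟨h.1, h.2.symm⟩⟩
    rw [sum_congr rfl h4, sum_swap_nat]
    refine sum_congr rfl fun m _ => ?_
    rw [← card_eq_sum_ones]
    rfl
  have h4 : ∑ m ∈ K, ((Z.filter fun u => G.Adj m u.1).card + (L.filter fun w => G.Adj m w).card) =
      ∑ m ∈ K, nw m Z := by
    refine sum_congr rfl fun m hm => ?_
    have h5 : (L.filter fun w => G.Adj m w) = ∅ := by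
      rw [filter_eq_empty_iff]
      intro w hw hmw
      exact h.far m (hK hm) w (hL hw) hmw
    rw [h5, card_empty, add_zero]
    rfl
  rw [h2, h4]

/-! ### Girth and cyclic connectivity -/

open Classical in
/-- The marks between two vertices of `B`. -/
noncomputable def mB (B : Finset (Wt G P)) : Finset V := (mks G P).filter fun m => nw m B = 2

theorem mB_sub (B : Finset (Wt G P)) : mB B ⊆ mks G P := filter_subset _ _

theorem mB_nw {B : Finset (Wt G P)} {m : V} (hm : m ∈ mB B) : nw m B = 2 := (mem_filter.1 hm).2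

theorem mB_sum (B : Finset (Wt G P)) : ∑ m ∈ mB B, nw m B = 2 * (mB B).card := by
  have h1 : ∀ m ∈ mB B, nw m B = 2 := fun m hm => mB_nw hm
  rw [sum_congr rfl h1, sum_const, smul_eq_mul, mul_comm]

theorem nw_le (h : Hyp G P) {m : V} (hm : m ∈ mks G P) (X : Finset (Wt G P)) : nw m X ≤ 2 := by
  have := nw_compl h hm X
  omega

theorem nw_mono {m : V} {X Y : Finset (Wt G P)} (hXY : X ⊆ Y) : nw m X ≤ nw m Y :=
  card_le_card (filter_subset_filter _ hXY)

/-- The cut of the extended set. -/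
theorem dd_mix (h : Hyp G P) (B : Finset (Wt G P)) :
    dd G (mix B (mB B)) = dd (supG G P) B + (mB B).card := by
  have h1 := dd_sum h.h3 (mix B (mB B))
  have h2 := dd_sum (degree_HG h) B
  rw [inner_HG h] at h2
  have h4 : ∑ v ∈ mix B (mB B), nb G (mix B (mB B)) v = A1 B B + 2 * (mB B).card +
      2 * (mB B).card := by
    unfold nb
    rw [ee_mix h B B (mB_sub B) (mB_sub B)]
    rw [mB_sum]
  have h6 : ∑ m ∈ mks G P, nw m B * (nw m B - 1) = 2 * (mB B).card := by
    have h7 : ∀ m ∈ mks G P, nw m B * (nw m B - 1) = if nw m B = 2 then 2 else 0 := by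
      intro m hm
      have h8 := nw_le h hm B
      interval_cases nw m B <;> simp
    rw [sum_congr rfl h7, ← sum_filter, sum_const, smul_eq_mul, mul_comm]
    rfl
  rw [h4, card_mix (mB_sub B)] at h1
  rw [h6] at h2
  omega

/-- A set which is not acyclic contains a set of minimum degree two. -/
theorem exists_core {W : Type} [Fintype W] [DecidableEq W] {H : SimpleGraph W}
    [DecidableRel H.Adj] (h3 : ∀ v, H.degree v = 3) {S : Finset W}
    (hS : ¬ (H.induce (S : Set W)).IsAcyclic) :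
    ∃ B ⊆ S, B.Nonempty ∧ dd H B ≤ B.card := by
  classical
  unfold IsAcyclic at hS
  push Not at hS
  obtain ⟨v, w, hw⟩ := hS
  have h1 : (w.map (Embedding.induce (G := H) (S : Set W)).toHom).IsCycle :=
    hw.map (Embedding.induce (G := H) (S : Set W)).injective
  set c := w.map (Embedding.induce (G := H) (S : Set W)).toHom with hc
  refine ⟨c.support.toFinset, ?_, ⟨_, List.mem_toFinset.2 c.start_mem_support⟩, ?_⟩
  · intro x hx
    rw [List.mem_toFinset, hc, Walk.support_map, List.mem_map] at hx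
    obtain ⟨y, _, rfl⟩ := hx
    exact y.2
  · have h2 : ∀ x ∈ c.support.toFinset, 2 ≤ nb H c.support.toFinset x := by
      intro x hx
      rw [List.mem_toFinset] at hx
      have h4 := h1.ncard_neighborSet_toSubgraph_eq_two hx
      rw [← h4]
      unfold nb
      rw [← Set.ncard_coe_finset]
      refine Set.ncard_le_ncard ?_ (Set.toFinite _)
      intro y hy
      rw [Subgraph.mem_neighborSet] at hy
      rw [mem_coe, mem_filter, List.mem_toFinset]
      refine ⟨?_, hy.adj_sub⟩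
      have := c.toSubgraph.edge_vert hy.symm
      rwa [Walk.mem_verts_toSubgraph] at this
    have h4 := dd_sum h3 c.support.toFinset
    have h5 : 2 * c.support.toFinset.card ≤ ∑ x ∈ c.support.toFinset,
        nb H c.support.toFinset x := by
      rw [mul_comm, ← smul_eq_mul, ← sum_const]
      exact sum_le_sum h2
    omega

theorem not_acyclic_of_dd {W : Type} [Fintype W] [DecidableEq W] {H : SimpleGraph W}
    [DecidableRel H.Adj] (h3 : ∀ v, H.degree v = 3) {B : Finset W} (hB : B.Nonempty)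
    (h : dd H B ≤ B.card) : ¬ (H.induce (B : Set W)).IsAcyclic := by
  intro hac
  have := dd_of_acyclic H h3 hB hac
  omega

theorem mix_nonempty {B : Finset (Wt G P)} (hB : B.Nonempty) (K : Finset V) :
    (mix B K).Nonempty := by
  obtain ⟨b, hb⟩ := hB
  exact ⟨b.1, mem_union_left _ (mem_map.2 ⟨b, hb, rfl⟩)⟩

theorem acyclic_monoS {A B : Finset V} (h : A ⊆ B) (hB : (G.induce (B : Set V)).IsAcyclic) :
    (G.induce (A : Set V)).IsAcyclic := by
  have h1 : Function.Injective (Set.inclusion (coe_subset.2 h)) :=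
    Set.inclusion_injective _
  exact hB.comap (⟨Set.inclusion (coe_subset.2 h), fun {a b} hab => hab⟩ :
    (G.induce (A : Set V)) →g (G.induce (B : Set V))) h1

/-- A set of inner vertices with a cycle of `H` gives one with a cycle of `G`. -/
theorem lift_cyclic (h : Hyp G P) {S : Finset (Wt G P)}
    (hS : ¬ ((supG G P).induce (S : Set (Wt G P))).IsAcyclic) :
    ∃ B ⊆ S, B.Nonempty ∧ ¬ (G.induce ((mix B (mB B) : Finset V) : Set V)).IsAcyclic := by
  obtain ⟨B, hBS, hB, hd⟩ := exists_core (degree_HG h) hS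
  refine ⟨B, hBS, hB, not_acyclic_of_dd h.h3 (mix_nonempty hB _) ?_⟩
  rw [dd_mix h, card_mix (mB_sub B)]
  omega

theorem mB_card (h : Hyp G P) (B : Finset (Wt G P)) : (mB B).card ≤ 3 * B.card := by
  have h1 : 2 * (mB B).card = ∑ m ∈ mB B, nw m B := (mB_sum B).symm
  have h2 : ∑ m ∈ mB B, nw m B = ∑ u ∈ B, ((mB B).filter fun m => G.Adj m u.1).card := by
    have h4 := sum_swap_nat B (mB B) fun _ _ => 1
    simp only [sum_const, smul_eq_mul, mul_one] at h4
    rw [h4]
    rfl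
  have h4 : ∀ u ∈ B, ((mB B).filter fun m => G.Adj m u.1).card ≤ 3 := by
    intro u _
    rw [← h.h3 u.1, ← card_neighborFinset_eq_degree]
    refine card_le_card fun m hm => ?_
    rw [mem_neighborFinset]
    exact (mem_filter.1 hm).2.symm
  have h5 := sum_le_sum h4
  rw [sum_const, smul_eq_mul] at h5
  omega

theorem mix_sub (X : Finset (Wt G P)) {K : Finset V} (hK : K ⊆ mks G P) : mix X K ⊆ P := by
  intro v hv
  rcases mem_union.1 hv with hv | hv
  · obtain ⟨u, _, rfl⟩ := mem_map.1 hv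
    exact wt_mem u
  · exact (mem_mks.1 (hK hv)).1

/-- The girth. -/
theorem gir_HG (h : Hyp G P) {g : ℕ}
    (hg : ∀ A ⊆ P, A.card < 4 * g + 1 → (G.induce (A : Set V)).IsAcyclic) :
    Gir (supG G P) g := by
  intro A hA
  by_contra hac
  obtain ⟨B, hBA, _, hB⟩ := lift_cyclic h hac
  refine hB (hg _ (mix_sub B (mB_sub B)) ?_)
  rw [card_mix (mB_sub B)]
  have h1 := card_le_card hBA
  have h2 := mB_card h B
  omega

/-- The cut formula in `P`. -/
theorem ee_cut (h : Hyp G P) (X : Finset (Wt G P)) {K : Finset V} (hK : K ⊆ mks G P) :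
    ee G (mix X K) (P \ mix X K) = A1 X Xᶜ + ∑ m ∈ mks G P \ K, nw m X +
      ∑ m ∈ K, nw m Xᶜ := by
  have h1 : P \ mix X K = mix Xᶜ (mks G P \ K) := by
    ext v
    unfold mix
    simp only [mem_sdiff, mem_union, mem_map, mem_compl, not_or, not_exists, not_and]
    constructor
    · rintro ⟨hvP, h2, h4⟩
      by_cases hm : v ∈ mks G P
      · exact Or.inr ⟨hm, h4⟩
      · refine Or.inl ⟨⟨v, wt_mk hvP (mk_or_inner hvP hm)⟩, fun h5 => h2 _ h5 rfl, rfl⟩
    · rintro (⟨u, hu, rfl⟩ | ⟨hm, hv⟩)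
      · refine ⟨wt_mem u, fun x hx hxu => hu ?_, fun h4 => inner_not_mk u (hK h4)⟩
        have : x = u := Subtype.ext hxu
        exact this ▸ hx
      · refine ⟨(mem_mks.1 hm).1, fun x hx hxu => ?_, hv⟩
        exact inner_not_mk x (by rw [← emb_apply, hxu]; exact hm)
  rw [h1, ee_sum', ee_mix h X Xᶜ hK sdiff_subset]

/-- Cyclic connectivity. -/
theorem cyc_HG (h : Hyp G P) {K : ℕ} (hP : ∀ A ⊆ P, ¬ (G.induce (A : Set V)).IsAcyclic →
    ¬ (G.induce ((P \ A : Finset V) : Set V)).IsAcyclic → K ≤ ee G A (P \ A)) :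
    CycConn (supG G P) K := by
  intro S hS hS'
  obtain ⟨B, hBS, _, hB⟩ := lift_cyclic h hS
  obtain ⟨C, hCS, _, hC⟩ := lift_cyclic h hS'
  have hmSP : mix S (mB S) ⊆ P := by
    intro v hv
    rcases mem_union.1 hv with hv | hv
    · obtain ⟨u, _, rfl⟩ := mem_map.1 hv
      exact wt_mem u
    · exact (mem_mks.1 (mB_sub S hv)).1
  have h1 : mix B (mB B) ⊆ mix S (mB S) := by
    refine union_subset_union (map_subset_map.2 hBS) fun m hm => ?_
    obtain ⟨hm1, hm2⟩ := mem_filter.1 hm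
    have h2 := nw_mono (m := m) hBS
    have h4 := nw_le h hm1 S
    exact mem_filter.2 ⟨hm1, by omega⟩
  have h2 : mix C (mB C) ⊆ P \ mix S (mB S) := by
    intro v hv
    rw [mem_sdiff]
    rcases mem_union.1 hv with hv | hv
    · obtain ⟨u, hu, rfl⟩ := mem_map.1 hv
      refine ⟨wt_mem u, fun h4 => ?_⟩
      rcases mem_union.1 h4 with h4 | h4
      · obtain ⟨u', hu', h5⟩ := mem_map.1 h4
        have : u' = u := Subtype.ext h5
        exact (mem_compl.1 (hCS hu)) (this ▸ hu')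
      · exact inner_not_mk u (mB_sub S h4)
    · obtain ⟨hm1, hm2⟩ := mem_filter.1 hv
      refine ⟨(mem_mks.1 hm1).1, fun h4 => ?_⟩
      rcases mem_union.1 h4 with h4 | h4
      · obtain ⟨u', hu', rfl⟩ := mem_map.1 h4
        exact inner_not_mk u' hm1
      · have h5 := (mem_filter.1 h4).2
        have h6 := nw_mono (m := v) hCS
        have h7 := nw_compl h hm1 S
        omega
  have h4 := hP _ hmSP (fun h5 => hB (acyclic_monoS h1 h5)) (fun h5 => hC (acyclic_monoS h2 h5))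
  rw [ee_cut h S (mB_sub S)] at h4
  rw [dd_HG h]
  refine h4.trans (le_of_eq ?_)
  rw [add_assoc]
  congr 1
  rw [← sum_sdiff (mB_sub S) (f := fun m => nw m S * nw m Sᶜ)]
  congr 1
  · refine sum_congr rfl fun m hm => ?_
    obtain ⟨hm1, hm2⟩ := mem_sdiff.1 hm
    have h5 := nw_compl h hm1 S
    have h6 : nw m S ≠ 2 := fun h7 => hm2 (mem_filter.2 ⟨hm1, h7⟩)
    have h7 : nw m S = 0 ∨ nw m S = 1 := by omega
    rcases h7 with h7 | h7
    · rw [h7, zero_mul]
    · have h8 : nw m Sᶜ = 1 := by omega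
      rw [h7, h8]
  · refine sum_congr rfl fun m hm => ?_
    obtain ⟨hm1, hm2⟩ := mem_filter.1 hm
    have h5 := nw_compl h hm1 S
    have h6 : nw m Sᶜ = 0 := by omega
    rw [h6, mul_zero]

/-! ### The hypotheses from `FarB` and the girth -/

theorem dd_le_of_two (h3 : ∀ v, G.degree v = 3) {A : Finset V} (h : ∀ v ∈ A, 2 ≤ nb G A v) :
    dd G A ≤ A.card := by
  have h1 := dd_sum h3 A
  have h2 : 2 * A.card ≤ ∑ v ∈ A, nb G A v := by
    rw [mul_comm, ← smul_eq_mul, ← sum_const]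
    exact sum_le_sum h
  omega

theorem two_nb {A : Finset V} {v a b : V} (ha : a ∈ A) (hb : b ∈ A) (hab : a ≠ b)
    (h1 : G.Adj v a) (h2 : G.Adj v b) : 2 ≤ nb G A v := by
  unfold nb
  exact one_lt_card.2 ⟨a, mem_filter.2 ⟨ha, h1⟩, b, mem_filter.2 ⟨hb, h2⟩, hab⟩

theorem hyp_of (h3 : ∀ v, G.degree v = 3) (hF : FarB G 2 P)
    (hg : ∀ A ⊆ P, A.card < 5 → (G.induce (A : Set V)).IsAcyclic) : Hyp G P where
  h3 := h3
  one := by
    intro v hv w w' hw hw' h1 h2
    have h4 := (hF.mono (by norm_num : 1 ≤ 2)).one le_rfl hv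
    rw [ee_sum', sum_singleton, card_le_one] at h4
    exact h4 w (mem_filter.2 ⟨mem_compl.2 hw, h1⟩) w' (mem_filter.2 ⟨mem_compl.2 hw', h2⟩)
  far := by
    intro m hm m' hm' hmm
    obtain ⟨hmP, w, hw, hwP⟩ := mem_mks.1 hm
    obtain ⟨hmP', w', hw', hwP'⟩ := mem_mks.1 hm'
    have hne : m ≠ m' := G.ne_of_adj hmm
    have h1 : Joined G ({m, m'} : Finset V) := by
      intro A hA hA0 hA1
      by_cases hmA : m ∈ A
      · by_cases hmA' : m' ∈ A
        · refine absurd (subset_antisymm hA ?_) hA1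
          intro x hx
          rcases mem_insert.1 hx with rfl | hx
          · exact hmA
          · rw [mem_singleton.1 hx]
            exact hmA'
        · exact ⟨m, hmA, m', by simp, hmA', hmm⟩
      · have hmA' : m' ∈ A := by
          obtain ⟨x, hx⟩ := hA0
          rcases mem_insert.1 (hA hx) with rfl | h4
          · exact absurd hx hmA
          · rwa [mem_singleton.1 h4] at hx
        exact ⟨m', hmA', m, by simp, hmA, hmm.symm⟩
    have h2 : ({m, m'} : Finset V) ⊆ P := by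
      intro x hx
      rcases mem_insert.1 hx with rfl | hx
      · exact hmP
      · rw [mem_singleton.1 hx]
        exact hmP'
    have h4 := hF.joined h2 (by rw [card_pair hne]) h1
    rw [ee_sum', sum_pair hne] at h4
    have h5 : 0 < (Pᶜ.filter fun v => G.Adj m v).card :=
      card_pos.2 ⟨w, mem_filter.2 ⟨mem_compl.2 hwP, hw⟩⟩
    have h6 : 0 < (Pᶜ.filter fun v => G.Adj m' v).card :=
      card_pos.2 ⟨w', mem_filter.2 ⟨mem_compl.2 hwP', hw'⟩⟩
    omega
  tri := by
    intro a ha b hb c hc hab hbc hac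
    have hs : ({a, b, c} : Finset V) ⊆ P := by
      intro x hx
      simp only [mem_insert, mem_singleton] at hx
      rcases hx with rfl | rfl | rfl <;> assumption
    refine not_acyclic_of_dd h3 ⟨a, by simp⟩ (dd_le_of_two h3 ?_)
      (hg {a, b, c} hs (card_le_three.trans_lt (by norm_num)))
    intro x hx
    simp only [mem_insert, mem_singleton] at hx
    rcases hx with rfl | rfl | rfl
    · exact two_nb (a := b) (b := c) (by simp) (by simp) (G.ne_of_adj hbc) hab hac
    · exact two_nb (a := a) (b := c) (by simp) (by simp) (G.ne_of_adj hac) hab.symm hbc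
    · exact two_nb (a := a) (b := b) (by simp) (by simp) (G.ne_of_adj hab) hac.symm hbc.symm
  quad := by
    intro a ha b hb c hc d hd hac hbd hab hbc hcd hda
    have hs : ({a, b, c, d} : Finset V) ⊆ P := by
      intro x hx
      simp only [mem_insert, mem_singleton] at hx
      rcases hx with rfl | rfl | rfl | rfl <;> assumption
    refine not_acyclic_of_dd h3 ⟨a, by simp⟩ (dd_le_of_two h3 ?_)
      (hg {a, b, c, d} hs (card_le_four.trans_lt (by norm_num)))
    intro x hx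
    simp only [mem_insert, mem_singleton] at hx
    rcases hx with rfl | rfl | rfl | rfl
    · exact two_nb (a := b) (b := d) (by simp) (by simp) hbd hab hda.symm
    · exact two_nb (a := a) (b := c) (by simp) (by simp) hac hab.symm hbc
    · exact two_nb (a := b) (b := d) (by simp) (by simp) hbd hbc.symm hcd
    · exact two_nb (a := a) (b := c) (by simp) (by simp) hac hda hcd.symm

/-! ### The charges -/

theorem supC_eq (h : Hyp G P) (c : V → ℝ) {u v : Wt G P} {m : V} (hm : m ∈ mks G P)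
    (huv : u ≠ v) (h1 : G.Adj m u.1) (h2 : G.Adj m v.1) : supC G P c u v = c m := by
  unfold supC
  rw [sum_eq_single m]
  · rw [if_pos ⟨huv, h1, h2⟩]
  · intro m' _ hne
    rw [if_neg]
    rintro ⟨_, h4, h5⟩
    exact hne (uniq_mark h huv h4 h5 h1 h2)
  · intro h4
    exact absurd hm h4

theorem supC_zero (c : V → ℝ) {u v : Wt G P}
    (h : ¬ ∃ m ∈ mks G P, u ≠ v ∧ G.Adj m u.1 ∧ G.Adj m v.1) : supC G P c u v = 0 := by
  unfold supC
  refine sum_eq_zero fun m hm => ?_
  rw [if_neg]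
  exact fun h1 => h ⟨m, hm, h1⟩

theorem supC_map (h : Hyp G P) (c : V → ℝ) (f : ℝ → ℝ) (hf : f 0 = 0) (u v : Wt G P) :
    f (supC G P c u v) = supC G P (fun m => f (c m)) u v := by
  by_cases h1 : ∃ m ∈ mks G P, u ≠ v ∧ G.Adj m u.1 ∧ G.Adj m v.1
  · obtain ⟨m, hm, h2, h4, h5⟩ := h1
    rw [supC_eq h c hm h2 h4 h5, supC_eq h _ hm h2 h4 h5]
  · rw [supC_zero c h1, supC_zero _ h1, hf]

/-- The sum over a cut. -/
theorem supC_cut (c : V → ℝ) (X : Finset (Wt G P)) :
    ∑ u ∈ X, ∑ v ∈ Xᶜ, supC G P c u v = ∑ m ∈ mks G P, (nw m X : ℝ) * nw m Xᶜ * c m := by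
  have h1 : ∀ u ∈ X, ∀ v ∈ Xᶜ, supC G P c u v =
      ∑ m ∈ mks G P, if G.Adj m u.1 then (if G.Adj m v.1 then c m else 0) else 0 := by
    intro u hu v hv
    unfold supC
    refine sum_congr rfl fun m _ => ?_
    have hne : u ≠ v := fun h => (mem_compl.1 hv) (h ▸ hu)
    by_cases h1 : G.Adj m u.1 <;> by_cases h2 : G.Adj m v.1 <;> simp [hne, h1, h2]
  rw [sum_congr rfl fun u hu => sum_congr rfl fun v hv => h1 u hu v hv]
  have h2 : ∀ u ∈ X, ∑ v ∈ Xᶜ, ∑ m ∈ mks G P,
      (if G.Adj m u.1 then (if G.Adj m v.1 then c m else 0) else 0) =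
      ∑ m ∈ mks G P, if G.Adj m u.1 then (nw m Xᶜ : ℝ) * c m else 0 := by
    intro u _
    rw [sum_comm]
    refine sum_congr rfl fun m _ => ?_
    by_cases h4 : G.Adj m u.1
    · simp only [if_pos h4]
      rw [← sum_filter, sum_const, nsmul_eq_mul]
      rfl
    · simp only [if_neg h4, sum_const_zero]
  rw [sum_congr rfl h2, sum_comm]
  refine sum_congr rfl fun m _ => ?_
  rw [← sum_filter, sum_const, nsmul_eq_mul, mul_assoc]
  rfl

/-- The sum at one vertex. -/
theorem supC_row (h : Hyp G P) (c : V → ℝ) (u : Wt G P) :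
    ∑ v, supC G P c u v = ∑ m ∈ (mks G P).filter (fun m => G.Adj m u.1), c m := by
  have h1 : ∑ v, supC G P c u v = ∑ m ∈ mks G P, ∑ v : Wt G P,
      if u ≠ v ∧ G.Adj m u.1 ∧ G.Adj m v.1 then c m else 0 := by
    unfold supC
    exact sum_comm
  rw [h1, sum_filter]
  refine sum_congr rfl fun m hm => ?_
  by_cases h2 : G.Adj m u.1
  · rw [if_pos h2, ← sum_filter, sum_const, nsmul_eq_mul]
    have h4 : (univ.filter fun v : Wt G P => u ≠ v ∧ G.Adj m u.1 ∧ G.Adj m v.1) =
        ((univ : Finset (Wt G P)).filter fun v => G.Adj m v.1).erase u := by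
      ext v
      simp only [mem_filter, mem_univ, true_and, mem_erase]
      exact ⟨fun h5 => ⟨h5.1.symm, h5.2.2⟩, fun h5 => ⟨h5.1.symm, h2, h5.2⟩⟩
    have h5 : u ∈ (univ : Finset (Wt G P)).filter fun v => G.Adj m v.1 :=
      mem_filter.2 ⟨mem_univ _, h2⟩
    have h6 := nw_univ h hm
    unfold nw at h6
    rw [h4, card_erase_of_mem h5, h6]
    simp
  · rw [if_neg h2]
    refine sum_eq_zero fun v _ => ?_
    rw [if_neg fun h4 => h2 h4.2.1]

theorem supC_sum (h : Hyp G P) (c : V → ℝ) (X : Finset (Wt G P)) :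
    ∑ u ∈ X, ∑ v, supC G P c u v = ∑ m ∈ mks G P, (nw m X : ℝ) * c m := by
  rw [sum_congr rfl fun u _ => supC_row h c u, sum_swap X (mks G P) fun m _ => c m]
  refine sum_congr rfl fun m _ => ?_
  rw [sum_const, nsmul_eq_mul]
  rfl

/-! ### The labels of the marks -/

/-- The sign at a mark. -/
noncomputable def sgm (φ : V → ZMod 5) (m : V) : ℤ := if 0 < q5 (φ m) then -1 else 1

/-- The charge of a mark. -/
noncomputable def cm (φ : V → ZMod 5) (m : V) : ℝ := (sgm φ m : ℝ) + q5 (φ m)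

theorem cm_val {φ : V → ZMod 5} {m : V} (hm : φ m ≠ 0) :
    cm φ m = 2 / 5 ∨ cm φ m = -(2 / 5) ∨ cm φ m = 4 / 5 ∨ cm φ m = -(4 / 5) := by
  unfold cm sgm q5
  rw [if_neg hm]
  have h1 : (φ m).val = 1 ∨ (φ m).val = 2 ∨ (φ m).val = 3 ∨ (φ m).val = 4 := by
    have h2 := (φ m).val_lt
    have h4 : (φ m).val ≠ 0 := fun h => hm ((ZMod.val_eq_zero _).1 h)
    omega
  rcases h1 with h | h | h | h <;> rw [h] <;> norm_num

theorem cm_abs {φ : V → ZMod 5} {m : V} (hm : φ m ≠ 0) : |cm φ m| = 2 / 5 ∨ |cm φ m| = 4 / 5 := by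
  rcases cm_val hm with h | h | h | h <;> rw [h]
  · left; rw [abs_of_pos (by norm_num)]
  · left; rw [abs_neg, abs_of_pos (by norm_num)]
  · right; rw [abs_of_pos (by norm_num)]
  · right; rw [abs_neg, abs_of_pos (by norm_num)]

/-- The total charge is an even integer. -/
theorem cm_sum {φ : V → ZMod 5} (hφ : BdryOK G P φ) :
    ∃ t : ℤ, ∑ m ∈ mks G P, cm φ m = 2 * t := by
  have hne : ∀ m ∈ mks G P, φ m ≠ 0 := by
    intro m hm h
    obtain ⟨hmP, w, hw, hwP⟩ := mem_mks.1 hm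
    exact hwP ((hφ.1 m hmP).1 h w hw)
  have h1 : ∑ m ∈ mks G P, φ m = 0 := by
    rw [← hφ.2]
    refine sum_subset (fun m hm => (mem_mks.1 hm).1) fun m hmP hm => ?_
    exact (hφ.1 m hmP).2 fun w hw => mk_or_inner hmP hm w hw
  have h2 : ((∑ m ∈ mks G P, (φ m).val : ℕ) : ZMod 5) = 0 := by
    rw [Nat.cast_sum, ← h1]
    exact sum_congr rfl fun m _ => ZMod.natCast_zmod_val _
  obtain ⟨s, hs⟩ := (ZMod.natCast_eq_zero_iff _ _).1 h2
  have h4 : ∀ m ∈ mks G P, cm φ m = 2 * (((φ m).val : ℝ) / 5) -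
      2 * (if 0 < q5 (φ m) then 1 else 0) := by
    intro m hm
    unfold cm sgm
    by_cases h5 : 0 < q5 (φ m)
    · rw [if_pos h5, if_pos h5]
      unfold q5
      rw [if_neg (hne m hm)]
      push_cast
      ring
    · rw [if_neg h5, if_neg h5]
      unfold q5
      rw [if_neg (hne m hm)]
      push_cast
      ring
  refine ⟨s - ((mks G P).filter fun m => 0 < q5 (φ m)).card, ?_⟩
  rw [sum_congr rfl h4, sum_sub_distrib, ← mul_sum, ← mul_sum, ← sum_div]
  have h5 : ∑ m ∈ mks G P, ((φ m).val : ℝ) = 5 * s := by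
    have : ((∑ m ∈ mks G P, (φ m).val : ℕ) : ℝ) = ((5 * s : ℕ) : ℝ) := by rw [hs]
    push_cast at this
    exact this
  rw [h5, sum_boole]
  push_cast
  ring

/-- The marked edges. -/
theorem marks_sup (h : Hyp G P) {φ : V → ZMod 5} (hφ : BdryOK G P φ) :
    Marks (supG G P) (supC G P (cm φ)) where
  symm := by
    intro u v
    unfold supC
    refine sum_congr rfl fun m _ => ?_
    by_cases h1 : u ≠ v ∧ G.Adj m u.1 ∧ G.Adj m v.1
    · rw [if_pos h1, if_pos ⟨h1.1.symm, h1.2.2, h1.2.1⟩]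
    · rw [if_neg h1, if_neg fun h2 => h1 ⟨h2.1.symm, h2.2.2, h2.2.1⟩]
  adj := by
    intro u v hne
    by_contra hno
    refine hne (supC_zero _ ?_)
    rintro ⟨m, hm, h1, h2, h4⟩
    exact hno ⟨h1, Or.inr ⟨m, hm, h2, h4⟩⟩
  val := by
    intro u v hne
    by_cases h1 : ∃ m ∈ mks G P, u ≠ v ∧ G.Adj m u.1 ∧ G.Adj m v.1
    · obtain ⟨m, hm, h2, h4, h5⟩ := h1
      rw [supC_eq h _ hm h2 h4 h5]
      refine cm_abs fun h6 => ?_
      obtain ⟨hmP, w, hw, hwP⟩ := mem_mks.1 hm
      exact hwP ((hφ.1 m hmP).1 h6 w hw)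
    · exact absurd (supC_zero _ h1) hne

/-- The inequality at one mark. -/
theorem one_mark {n n' : ℕ} (hn : n + n' = 2) {c : ℝ} (hc : |c| ≤ 4 / 5) :
    3 / 5 * ((n : ℝ) * n') - (n : ℝ) * n' * |c| / 2 + n' / 2 * |c| ≤ 3 / 5 * n' := by
  have h0 := abs_nonneg c
  have h1 : n = 0 ∧ n' = 2 ∨ n = 1 ∧ n' = 1 ∨ n = 2 ∧ n' = 0 := by omega
  rcases h1 with ⟨h1, h2⟩ | ⟨h1, h2⟩ | ⟨h1, h2⟩ <;> rw [h1, h2] <;> push_cast <;> nlinarith

/-- **From the suppressed graph to `P`.** -/
theorem lift_signs (h : Hyp G P) {φ : V → ZMod 5} (hφ : BdryOK G P φ) (x : Wt G P → ℤ)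
    (hx : ∀ v, x v = 1 ∨ x v = -1)
    (hX : ∀ X : Finset (Wt G P), |∑ v ∈ X, ((x v : ℝ) + (∑ u, supC G P (cm φ) v u) / 2)| ≤
      3 / 5 * dd (supG G P) X - (∑ v ∈ X, ∑ u ∈ Xᶜ, |supC G P (cm φ) v u|) / 2) :
    ExtFlow G P φ := by
  classical
  have hne : ∀ m ∈ mks G P, φ m ≠ 0 := by
    intro m hm h
    obtain ⟨hmP, w, hw, hwP⟩ := mem_mks.1 hm
    exact hwP ((hφ.1 m hmP).1 h w hw)
  have hcm : ∀ m ∈ mks G P, |cm φ m| ≤ 4 / 5 := by
    intro m hm
    rcases cm_abs (hne m hm) with h1 | h1 <;> rw [h1]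
    norm_num
  set xV : V → ℤ := fun v => if hv : v ∈ unm G P then x ⟨v, hv⟩ else sgm φ v with hxV
  have hxw : ∀ u : Wt G P, xV u.1 = x u := by
    intro u
    simp only [hxV, dif_pos u.2]
  have hxm : ∀ m ∈ mks G P, xV m = sgm φ m := by
    intro m hm
    have h1 : m ∉ unm G P := fun h2 => inner_not_mk ⟨m, h2⟩ hm
    simp only [hxV, dif_neg h1]
  refine ext_of_signs h.h3 h.one hφ xV (fun v hv => ?_) fun Y hY => ?_
  · by_cases hm : v ∈ mks G P
    · rw [hxm v hm]
      unfold sgm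
      split_ifs
      · right; rfl
      · left; rfl
    · have h1 := hxw ⟨v, wt_mk hv (mk_or_inner hv hm)⟩
      rw [h1]
      exact hx _
  · set X : Finset (Wt G P) := univ.filter fun u => u.1 ∈ Y with hXd
    set K : Finset V := (mks G P).filter fun m => m ∈ Y with hK
    have hKs : K ⊆ mks G P := filter_subset _ _
    have hYm : Y = mix X K := by
      ext v
      unfold mix
      rw [mem_union, mem_map]
      constructor
      · intro hv
        by_cases hm : v ∈ mks G P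
        · exact Or.inr (mem_filter.2 ⟨hm, hv⟩)
        · exact Or.inl ⟨⟨v, wt_mk (hY hv) (mk_or_inner (hY hv) hm)⟩,
            mem_filter.2 ⟨mem_univ _, hv⟩, rfl⟩
      · rintro (⟨u, hu, rfl⟩ | hv)
        · exact (mem_filter.1 hu).2
        · exact (mem_filter.1 hv).2
    have hsum : ∑ v ∈ Y, ((xV v : ℝ) + q5 (φ v)) = ∑ u ∈ X, (x u : ℝ) + ∑ m ∈ K, cm φ m := by
      rw [hYm]
      unfold mix
      rw [sum_union (mix_disj hKs), sum_map]
      congr 1
      · refine sum_congr rfl fun u _ => ?_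
        have h1 : φ u.1 = 0 := (hφ.1 u.1 (wt_mem u)).2 (wt_nb u)
        rw [emb_apply, hxw, h1]
        unfold q5
        rw [if_pos rfl, add_zero]
      · refine sum_congr rfl fun m hm => ?_
        rw [hxm m (hKs hm)]
        rfl
    rw [hsum]
    have hcut : (ee G Y (P \ Y) : ℝ) = A1 X Xᶜ + ∑ m ∈ mks G P \ K, (nw m X : ℝ) +
        ∑ m ∈ K, (nw m Xᶜ : ℝ) := by
      rw [hYm, ee_cut h X hKs]
      push_cast
      rfl
    rw [hcut]
    have h1 := hX X
    rw [sum_add_distrib, ← sum_div, supC_sum h, dd_HG h] at h1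
    have h2 : ∑ v ∈ X, ∑ u ∈ Xᶜ, |supC G P (cm φ) v u| =
        ∑ m ∈ mks G P, (nw m X : ℝ) * nw m Xᶜ * |cm φ m| := by
      rw [← supC_cut]
      refine sum_congr rfl fun v _ => sum_congr rfl fun u _ => ?_
      exact supC_map h (cm φ) (fun t => |t|) abs_zero v u
    rw [h2] at h1
    push_cast at h1
    rw [← sum_sdiff hKs (f := fun m => (nw m X : ℝ) * cm φ m),
      ← sum_sdiff hKs (f := fun m => (nw m X : ℝ) * nw m Xᶜ),
      ← sum_sdiff hKs (f := fun m => (nw m X : ℝ) * nw m Xᶜ * |cm φ m|)] at h1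
    -- the two kinds of marks
    have e1 : ∑ m ∈ K, cm φ m = (∑ m ∈ K, (nw m X : ℝ) * cm φ m) / 2 +
        ∑ m ∈ K, (nw m Xᶜ : ℝ) / 2 * cm φ m := by
      rw [sum_div, ← sum_add_distrib]
      refine sum_congr rfl fun m hm => ?_
      have h4 : (nw m X : ℝ) + nw m Xᶜ = 2 := by exact_mod_cast nw_compl h (hKs hm) X
      have h5 : (nw m Xᶜ : ℝ) = 2 - nw m X := by linarith
      rw [h5]
      ring
    have e2 : |∑ m ∈ K, (nw m Xᶜ : ℝ) / 2 * cm φ m| ≤ ∑ m ∈ K, (nw m Xᶜ : ℝ) / 2 * |cm φ m| := by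
      refine (abs_sum_le_sum_abs _ _).trans (sum_le_sum fun m _ => ?_)
      rw [abs_mul, abs_of_nonneg (by positivity : (0 : ℝ) ≤ (nw m Xᶜ : ℝ) / 2)]
    have e3 : |(∑ m ∈ mks G P \ K, (nw m X : ℝ) * cm φ m) / 2| ≤
        ∑ m ∈ mks G P \ K, (nw m X : ℝ) / 2 * |cm φ m| := by
      rw [sum_div]
      refine (abs_sum_le_sum_abs _ _).trans (sum_le_sum fun m _ => le_of_eq ?_)
      rw [mul_div_right_comm, abs_mul, abs_of_nonneg (by positivity : (0 : ℝ) ≤ (nw m X : ℝ) / 2)]
    have e4 : 3 / 5 * ∑ m ∈ K, (nw m X : ℝ) * nw m Xᶜ -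
        (∑ m ∈ K, (nw m X : ℝ) * nw m Xᶜ * |cm φ m|) / 2 +
        ∑ m ∈ K, (nw m Xᶜ : ℝ) / 2 * |cm φ m| ≤ 3 / 5 * ∑ m ∈ K, (nw m Xᶜ : ℝ) := by
      rw [mul_sum, mul_sum, sum_div, ← sum_sub_distrib, ← sum_add_distrib]
      exact sum_le_sum fun m hm => one_mark (nw_compl h (hKs hm) X) (hcm m (hKs hm))
    have e5 : 3 / 5 * ∑ m ∈ mks G P \ K, (nw m X : ℝ) * nw m Xᶜ -
        (∑ m ∈ mks G P \ K, (nw m X : ℝ) * nw m Xᶜ * |cm φ m|) / 2 +
        ∑ m ∈ mks G P \ K, (nw m X : ℝ) / 2 * |cm φ m| ≤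
          3 / 5 * ∑ m ∈ mks G P \ K, (nw m X : ℝ) := by
      rw [mul_sum, mul_sum, sum_div, ← sum_sub_distrib, ← sum_add_distrib]
      refine sum_le_sum fun m hm => ?_
      have hm' := (mem_sdiff.1 hm).1
      have h4 := one_mark (n := nw m Xᶜ) (n' := nw m X)
        (by have := nw_compl h hm' X; omega) (hcm m hm')
      have h5 : (nw m X : ℝ) * nw m Xᶜ = (nw m Xᶜ : ℝ) * nw m X := mul_comm _ _
      rw [h5]
      exact h4
    rw [e1]
    rw [abs_le] at h1 e2 e3 ⊢
    obtain ⟨a1, a2⟩ := h1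
    obtain ⟨b1, b2⟩ := e2
    obtain ⟨c1, c2⟩ := e3
    constructor
    · linarith
    · linarith

end SupE

open SupE

/-- **E2.** The theorem for cubic graphs with marked edges gives the extension theorem: a part
with boundary edges which are far apart and with large cyclic cuts accepts every zero-sum
nowhere-zero boundary assignment. -/
theorem ext_e (hmain : ∃ D k : ℕ, ∀ {V : Type} [Fintype V] [DecidableEq V]
      (G : SimpleGraph V) [DecidableRel G.Adj], (∀ v, G.degree v = 3) → CycConn G k → Gir G k →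
      (∀ A : Finset V, A.Nonempty → Aᶜ.Nonempty → 2 ≤ dd G A) →
      ∀ F : SimpleGraph V, F ≤ G → (∀ v, (F.neighborSet v).ncard = 2) →
      ∀ p : V → V → ℝ, Marks G p → FarM G D p → (∃ t : ℤ, ∑ u, ∑ v, p u v = 4 * t) →
      ∃ x : V → ℤ, (∀ v, x v = 1 ∨ x v = -1) ∧
        ∀ X : Finset V, |∑ v ∈ X, ((x v : ℝ) + (∑ u, p v u) / 2)| ≤
          3 / 5 * dd G X - (∑ v ∈ X, ∑ u ∈ Xᶜ, |p v u|) / 2) :
    ∃ D K : ℕ, ∀ {V : Type} [Fintype V] [DecidableEq V] (G : SimpleGraph V)
    [DecidableRel G.Adj], (∀ v, G.degree v = 3) → ∀ P : Finset V, FarB G D P →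
    (∀ A ⊆ P, A.card < K → (G.induce (A : Set V)).IsAcyclic) →
    (∀ Y ⊆ P, ¬ (G.induce (Y : Set V)).IsAcyclic →
      ¬ (G.induce ((P \ Y : Finset V) : Set V)).IsAcyclic → K ≤ ee G Y (P \ Y)) →
    ∀ φ : V → ZMod 5, BdryOK G P φ → ExtFlow G P φ := by
  obtain ⟨D₀, k₀, hmain⟩ := hmain
  refine ⟨2 * D₀ + 4, 4 * k₀ + 8, fun {V} _ _ G _ h3 P hF hg hP φ hφ => ?_⟩
  have h : Hyp G P := hyp_of h3 (hF.mono (by omega)) fun A hA hc => hg A hA (by omega)
  have hS : SupH G (4 * k₀ + 8) P := ⟨h3, hF.mono (by omega), hg⟩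
  have hcyc : CycConn (supG G P) (4 * k₀ + 8) := cyc_HG h hP
  have h3' := degree_HG h
  obtain ⟨F, hFG, hF2⟩ := Pool.Agent.Thin5.exists_two_factor h3'
    (by omega : 3 ≤ 4 * k₀ + 8) hcyc
  obtain ⟨t, ht⟩ := cm_sum hφ
  obtain ⟨x, hx, hX⟩ := hmain (supG G P) h3'
    (fun S h1 h2 => (by omega : k₀ ≤ 4 * k₀ + 8).trans (hcyc S h1 h2))
    (gir_HG h fun A hA hc => hg A hA (by omega))
    (no_bridge h3' hcyc (by omega)) F hFG hF2 (supC G P (cm φ)) (marks_sup h hφ)
    (supG_far hS le_rfl hF (cm φ))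
    ⟨t, by
      rw [supC_sum h, sum_congr rfl fun m hm => by rw [nw_univ h hm], ← mul_sum, ht]
      push_cast
      ring⟩
  exact lift_signs h hφ x hx hX


end Pool.Agent.K5
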