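import Mathlib
import Pool.Agent.Work.MP_974d84_co_k5.SupE
import Pool.Agent.Work.MP_974d84_co_k5.ReDefs

/-!
# Real charges: suppression of the boundary vertices
-/

set_option linter.unusedSectionVars false
set_option linter.unusedVariables false

namespace Pool.Agent.K5.Re

open Finset SimpleGraph Pool.Agent.Exp Pool.Agent.Log5 Pool.Agent.Log5.Clu MP974d84
open Pool.Agent.K5 Pool.Agent.K5.SupE

variable {V : Type} [Fintype V] [DecidableEq V] {G : SimpleGraph V} [DecidableRel G.Adj]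
  {P : Finset V}

namespace SupR

/-- The sign at a mark of the charge `t`. -/
noncomputable def sgr (t : ℝ) : ℤ := if 0 < t then -1 else 1

/-- The charge of a mark. -/
noncomputable def cr (q : V → ℝ) (m : V) : ℝ := (sgr (q m) : ℝ) + q m

theorem cr_abs {q : V → ℝ} {m : V} (hm : |q m| ≤ 1) : |cr q m| ≤ 1 := by
  unfold cr sgr
  rw [abs_le] at hm ⊢
  by_cases h : 0 < q m
  · rw [if_pos h]
    push_cast
    constructor <;> linarith
  · rw [if_neg h]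
    push_cast
    constructor <;> linarith

/-- The total charge is an even integer. -/
theorem cr_sum {q : V → ℝ} {t : ℤ} (ht : ∑ m ∈ mks G P, q m + (mks G P).card = 2 * t) :
    ∃ t : ℤ, ∑ m ∈ mks G P, cr q m = 2 * t := by
  refine ⟨t - ((mks G P).filter fun m => 0 < q m).card, ?_⟩
  have h1 : ∀ m ∈ mks G P, cr q m = (q m + 1) - 2 * (if 0 < q m then 1 else 0) := by
    intro m _
    unfold cr sgr
    by_cases h : 0 < q m
    · rw [if_pos h, if_pos h]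
      push_cast
      ring
    · rw [if_neg h, if_neg h]
      push_cast
      ring
  rw [sum_congr rfl h1, sum_sub_distrib, ← mul_sum, sum_add_distrib, sum_const, nsmul_eq_mul,
    mul_one, sum_boole, ht]
  push_cast
  ring

/-- The marked edges. -/
theorem marks_sup (h : Hyp G P) {q : V → ℝ} (hq : ∀ m ∈ mks G P, |q m| ≤ 1) :
    Re.Marks (supG G P) (supC G P (cr q)) where
  symm := by
    intro u v
    unfold supC
    refine sum_congr rfl fun m _ => ?_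
    by_cases h1 : u ≠ v ∧ G.Adj m u.1 ∧ G.Adj m v.1
    · rw [if_pos h1, if_pos ⟨h1.1.symm, h1.2.2, h1.2.1⟩]
    · rw [if_neg h1, if_neg fun h2 => h1 ⟨h2.1.symm, h2.2.2, h2.2.1⟩]
  adj := by
    intro u v hne
    by_contra hno
    refine hne (supC_zero _ ?_)
    rintro ⟨m, hm, h1, h2, h4⟩
    exact hno ⟨h1, Or.inr ⟨m, hm, h2, h4⟩⟩
  bd := by
    intro u v
    by_cases h1 : ∃ m ∈ mks G P, u ≠ v ∧ G.Adj m u.1 ∧ G.Adj m v.1
    · obtain ⟨m, hm, h2, h4, h5⟩ := h1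
      rw [supC_eq h _ hm h2 h4 h5]
      exact cr_abs (hq m hm)
    · rw [supC_zero _ h1, abs_zero]
      exact zero_le_one

/-- The inequality at one mark. -/
theorem one_mark {n n' : ℕ} (hn : n + n' = 2) {c t : ℝ} (hc : 1 / 2 ≤ c) (ht : |t| ≤ 1) :
    c * ((n : ℝ) * n') - (n : ℝ) * n' * |t| / 2 + n' / 2 * |t| ≤ c * n' := by
  have h0 := abs_nonneg t
  have h1 : n = 0 ∧ n' = 2 ∨ n = 1 ∧ n' = 1 ∨ n = 2 ∧ n' = 0 := by omega
  rcases h1 with ⟨h1, h2⟩ | ⟨h1, h2⟩ | ⟨h1, h2⟩ <;> rw [h1, h2] <;> push_cast <;> nlinarith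

/-- **From the suppressed graph to `P`.** -/
theorem lift_signs (h : Hyp G P) {c : ℝ} (hc : 1 / 2 ≤ c) {q : V → ℝ}
    (hq : ∀ m ∈ mks G P, |q m| ≤ 1) (hq0 : ∀ v ∈ P, (∀ w, G.Adj v w → w ∈ P) → q v = 0)
    (x : Wt G P → ℤ) (hx : ∀ v, x v = 1 ∨ x v = -1)
    (hX : ∀ X : Finset (Wt G P), |∑ v ∈ X, ((x v : ℝ) + (∑ u, supC G P (cr q) v u) / 2)| ≤
      c * dd (supG G P) X - (∑ v ∈ X, ∑ u ∈ Xᶜ, |supC G P (cr q) v u|) / 2) :
    ∃ x : V → ℤ, (∀ v ∈ P, x v = 1 ∨ x v = -1) ∧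
      ∀ Y ⊆ P, |∑ v ∈ Y, ((x v : ℝ) + q v)| ≤ c * ee G Y (P \ Y) := by
  classical
  set xV : V → ℤ := fun v => if hv : v ∈ unm G P then x ⟨v, hv⟩ else sgr (q v) with hxV
  have hxw : ∀ u : Wt G P, xV u.1 = x u := by
    intro u
    simp only [hxV, dif_pos u.2]
  have hxm : ∀ m ∈ mks G P, xV m = sgr (q m) := by
    intro m hm
    have h1 : m ∉ unm G P := fun h2 => inner_not_mk ⟨m, h2⟩ hm
    simp only [hxV, dif_neg h1]
  refine ⟨xV, fun v hv => ?_, fun Y hY => ?_⟩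
  · by_cases hm : v ∈ mks G P
    · rw [hxm v hm]
      unfold sgr
      split_ifs
      · right; rfl
      · left; rfl
    · have h1 := hxw ⟨v, wt_mk hv (mk_or_inner hv hm)⟩
      rw [h1]
      exact hx _
  · set X : Finset (Wt G P) := univ.filter fun u => u.1 ∈ Y with hXd
    set K : Finset V := (mks G P).filter fun m => m ∈ Y with hK
    have hKs : K ⊆ mks G P := filter_subset _ _
    have hYm : Y = mix X K := by
      ext v
      unfold mix
      rw [mem_union, mem_map]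
      constructor
      · intro hv
        by_cases hm : v ∈ mks G P
        · exact Or.inr (mem_filter.2 ⟨hm, hv⟩)
        · exact Or.inl ⟨⟨v, wt_mk (hY hv) (mk_or_inner (hY hv) hm)⟩,
            mem_filter.2 ⟨mem_univ _, hv⟩, rfl⟩
      · rintro (⟨u, hu, rfl⟩ | hv)
        · exact (mem_filter.1 hu).2
        · exact (mem_filter.1 hv).2
    have hsum : ∑ v ∈ Y, ((xV v : ℝ) + q v) = ∑ u ∈ X, (x u : ℝ) + ∑ m ∈ K, cr q m := by
      rw [hYm]
      unfold mix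
      rw [sum_union (mix_disj hKs), sum_map]
      congr 1
      · refine sum_congr rfl fun u _ => ?_
        have h1 : q u.1 = 0 := hq0 u.1 (wt_mem u) (wt_nb u)
        rw [emb_apply, hxw, h1, add_zero]
      · refine sum_congr rfl fun m hm => ?_
        rw [hxm m (hKs hm)]
        rfl
    rw [hsum]
    have hcut : (ee G Y (P \ Y) : ℝ) = A1 X Xᶜ + ∑ m ∈ mks G P \ K, (nw m X : ℝ) +
        ∑ m ∈ K, (nw m Xᶜ : ℝ) := by
      rw [hYm, ee_cut h X hKs]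
      push_cast
      rfl
    rw [hcut]
    have h1 := hX X
    rw [sum_add_distrib, ← sum_div, supC_sum h, dd_HG h] at h1
    have h2 : ∑ v ∈ X, ∑ u ∈ Xᶜ, |supC G P (cr q) v u| =
        ∑ m ∈ mks G P, (nw m X : ℝ) * nw m Xᶜ * |cr q m| := by
      rw [← supC_cut]
      refine sum_congr rfl fun v _ => sum_congr rfl fun u _ => ?_
      exact supC_map h (cr q) (fun t => |t|) abs_zero v u
    rw [h2] at h1
    push_cast at h1
    rw [← sum_sdiff hKs (f := fun m => (nw m X : ℝ) * cr q m),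
      ← sum_sdiff hKs (f := fun m => (nw m X : ℝ) * nw m Xᶜ),
      ← sum_sdiff hKs (f := fun m => (nw m X : ℝ) * nw m Xᶜ * |cr q m|)] at h1
    -- the two kinds of marks
    have e1 : ∑ m ∈ K, cr q m = (∑ m ∈ K, (nw m X : ℝ) * cr q m) / 2 +
        ∑ m ∈ K, (nw m Xᶜ : ℝ) / 2 * cr q m := by
      rw [sum_div, ← sum_add_distrib]
      refine sum_congr rfl fun m hm => ?_
      have h4 : (nw m X : ℝ) + nw m Xᶜ = 2 := by exact_mod_cast nw_compl h (hKs hm) X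
      have h5 : (nw m Xᶜ : ℝ) = 2 - nw m X := by linarith
      rw [h5]
      ring
    have e2 : |∑ m ∈ K, (nw m Xᶜ : ℝ) / 2 * cr q m| ≤ ∑ m ∈ K, (nw m Xᶜ : ℝ) / 2 * |cr q m| := by
      refine (abs_sum_le_sum_abs _ _).trans (sum_le_sum fun m _ => ?_)
      rw [abs_mul, abs_of_nonneg (by positivity : (0 : ℝ) ≤ (nw m Xᶜ : ℝ) / 2)]
    have e3 : |(∑ m ∈ mks G P \ K, (nw m X : ℝ) * cr q m) / 2| ≤
        ∑ m ∈ mks G P \ K, (nw m X : ℝ) / 2 * |cr q m| := by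
      rw [sum_div]
      refine (abs_sum_le_sum_abs _ _).trans (sum_le_sum fun m _ => le_of_eq ?_)
      rw [mul_div_right_comm, abs_mul, abs_of_nonneg (by positivity : (0 : ℝ) ≤ (nw m X : ℝ) / 2)]
    have e4 : c * ∑ m ∈ K, (nw m X : ℝ) * nw m Xᶜ -
        (∑ m ∈ K, (nw m X : ℝ) * nw m Xᶜ * |cr q m|) / 2 +
        ∑ m ∈ K, (nw m Xᶜ : ℝ) / 2 * |cr q m| ≤ c * ∑ m ∈ K, (nw m Xᶜ : ℝ) := by
      rw [mul_sum, mul_sum, sum_div, ← sum_sub_distrib, ← sum_add_distrib]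
      exact sum_le_sum fun m hm => one_mark (nw_compl h (hKs hm) X) hc (cr_abs (hq m (hKs hm)))
    have e5 : c * ∑ m ∈ mks G P \ K, (nw m X : ℝ) * nw m Xᶜ -
        (∑ m ∈ mks G P \ K, (nw m X : ℝ) * nw m Xᶜ * |cr q m|) / 2 +
        ∑ m ∈ mks G P \ K, (nw m X : ℝ) / 2 * |cr q m| ≤
          c * ∑ m ∈ mks G P \ K, (nw m X : ℝ) := by
      rw [mul_sum, mul_sum, sum_div, ← sum_sub_distrib, ← sum_add_distrib]
      refine sum_le_sum fun m hm => ?_
      have hm' := (mem_sdiff.1 hm).1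
      have h4 := one_mark (n := nw m Xᶜ) (n' := nw m X)
        (by have := nw_compl h hm' X; omega) hc (cr_abs (hq m hm'))
      have h5 : (nw m X : ℝ) * nw m Xᶜ = (nw m Xᶜ : ℝ) * nw m X := mul_comm _ _
      rw [h5]
      exact h4
    rw [e1]
    rw [abs_le] at h1 e2 e3 ⊢
    obtain ⟨a1, a2⟩ := h1
    obtain ⟨b1, b2⟩ := e2
    obtain ⟨c1, c2⟩ := e3
    constructor
    · linarith
    · linarith

end SupR

open SupR

/-- **R3.** The signs of a part with prescribed real charges at the boundary vertices. -/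
theorem ext_signs_c {κ : ℕ} (hκ : 3 ≤ κ) {c : ℝ} (hc : 1 / 2 ≤ c)
    (hmain : ∃ D k : ℕ, ∀ {V : Type} [Fintype V] [DecidableEq V]
      (G : SimpleGraph V) [DecidableRel G.Adj], (∀ v, G.degree v = 3) → CycConn G κ → Gir G k →
      (∀ A : Finset V, A.Nonempty → Aᶜ.Nonempty → 2 ≤ dd G A) →
      ∀ F : SimpleGraph V, F ≤ G → (∀ v, (F.neighborSet v).ncard = 2) →
      ∀ p : V → V → ℝ, Re.Marks G p → FarM G D p → (∃ t : ℤ, ∑ u, ∑ v, p u v = 4 * t) →
      ∃ x : V → ℤ, (∀ v, x v = 1 ∨ x v = -1) ∧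
        ∀ X : Finset V, |∑ v ∈ X, ((x v : ℝ) + (∑ u, p v u) / 2)| ≤
          c * dd G X - (∑ v ∈ X, ∑ u ∈ Xᶜ, |p v u|) / 2) :
    ∃ D K : ℕ, ∀ {V : Type} [Fintype V] [DecidableEq V] (G : SimpleGraph V)
    [DecidableRel G.Adj], (∀ v, G.degree v = 3) → ∀ P : Finset V, FarB G D P →
    (∀ A ⊆ P, A.card < K → (G.induce (A : Set V)).IsAcyclic) →
    (∀ Y ⊆ P, ¬ (G.induce (Y : Set V)).IsAcyclic →
      ¬ (G.induce ((P \ Y : Finset V) : Set V)).IsAcyclic → κ ≤ ee G Y (P \ Y)) →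
    ∀ q : V → ℝ, (∀ v ∈ P, (∃ w, G.Adj v w ∧ w ∉ P) → |q v| ≤ 1) →
    (∀ v ∈ P, (∀ w, G.Adj v w → w ∈ P) → q v = 0) →
    (∃ t : ℤ, ∑ v ∈ P, q v + (P.filter fun v => ∃ w, G.Adj v w ∧ w ∉ P).card = 2 * t) →
    ∃ x : V → ℤ, (∀ v ∈ P, x v = 1 ∨ x v = -1) ∧ ∑ v ∈ P, ((x v : ℝ) + q v) = 0 ∧
      ∀ Y ⊆ P, |∑ v ∈ Y, ((x v : ℝ) + q v)| ≤ c * ee G Y (P \ Y) := by
  obtain ⟨D₀, k₀, hmain⟩ := hmain
  refine ⟨2 * D₀ + 4, 4 * k₀ + 8, fun {V} _ _ G _ h3 P hF hg hP q hq hq0 ht => ?_⟩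
  classical
  have h : Hyp G P := hyp_of h3 (hF.mono (by omega)) fun A hA hc => hg A hA (by omega)
  have hS : SupH G (4 * k₀ + 8) P := ⟨h3, hF.mono (by omega), hg⟩
  have hcyc : CycConn (supG G P) κ := cyc_HG h hP
  have h3' := degree_HG h
  obtain ⟨F, hFG, hF2⟩ := Pool.Agent.Thin5.exists_two_factor h3' hκ hcyc
  have hqm : ∀ m ∈ mks G P, |q m| ≤ 1 := fun m hm =>
    hq m (mem_mks.1 hm).1 (mem_mks.1 hm).2
  have hmk : (P.filter fun v => ∃ w, G.Adj v w ∧ w ∉ P) = mks G P := by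
    ext v
    rw [mem_filter, mem_mks]
  have hsum : ∑ m ∈ mks G P, q m = ∑ v ∈ P, q v :=
    sum_subset (fun m hm => (mem_mks.1 hm).1) fun m hmP hm =>
      hq0 m hmP fun w hw => mk_or_inner hmP hm w hw
  obtain ⟨t, ht⟩ := ht
  obtain ⟨s, hs⟩ := cr_sum (G := G) (P := P) (q := q) (t := t) (by
    rw [hsum, ← ht]
    congr 2
    convert congrArg Finset.card hmk.symm)
  obtain ⟨x, hx, hX⟩ := hmain (supG G P) h3' hcyc
    (gir_HG h fun A hA hc => hg A hA (by omega))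
    (no_bridge h3' hcyc (by omega)) F hFG hF2 (supC G P (cr q)) (SupR.marks_sup h hqm)
    (supG_far hS le_rfl hF (cr q))
    ⟨s, by
      rw [supC_sum h, sum_congr rfl fun m hm => by rw [nw_univ h hm], ← mul_sum, hs]
      push_cast
      ring⟩
  obtain ⟨y, hy, hY⟩ := SupR.lift_signs h hc hqm hq0 x hx hX
  refine ⟨y, hy, ?_, hY⟩
  have h1 := hY P subset_rfl
  rw [sdiff_self] at h1
  have h2 : ee G P ∅ = 0 := by
    unfold ee
    rw [card_eq_zero]
    ext v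
    simp
  rw [show (⊥ : Finset V) = ∅ from rfl, h2, Nat.cast_zero, mul_zero] at h1
  exact abs_nonpos_iff.1 h1

end Pool.Agent.K5.Re
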