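import Pool.Agent.Work.MP_974d84_co_k5.Lsv

/-! ROOM K5, theorem (BG), helper31: the rounding from signs, with prescribed signs. -/

open Finset

namespace Pool.Agent.K5.Lsv

/-- **Rounding from signs, signed form.** If every even set of indices has balanced signs with a
small discrepancy, then every fractional selection `u` for which the sum of the `t i * u i` is an
integer can be rounded with the same error, and the sum of the `t i * u i` is kept. -/
theorem round_signed {ι 𝒳 : Type*} [Fintype ι] [DecidableEq ι] (w : ι → 𝒳 → ℝ) (e : 𝒳 → ℝ)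
    (he : ∀ X, 0 ≤ e X)
    (h : ∀ T : Finset ι, Even T.card → ∃ ε : ι → ℤ, (∀ i, ε i = 1 ∨ ε i = -1) ∧
      ∑ i ∈ T, ε i = 0 ∧ ∀ X, |∑ i ∈ T, (ε i : ℝ) * w i X| ≤ e X)
    (t : ι → ℤ) (ht : ∀ i, t i = 1 ∨ t i = -1)
    (u : ι → ℝ) (hu : ∀ i, 0 ≤ u i ∧ u i ≤ 1) (n : ℤ) (hn : ∑ i, (t i : ℝ) * u i = n) :
    ∃ u' : ι → ℤ, (∀ i, u' i = 0 ∨ u' i = 1) ∧ ∑ i, t i * u' i = n ∧
      ∀ X, |∑ i, (t i : ℝ) * ((u' i : ℝ) - u i) * w i X| ≤ e X := by
  classical
  -- `v i = u i` if `t i = 1` and `v i = 1 - u i` if `t i = -1`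
  set v : ι → ℝ := fun i => if t i = 1 then u i else 1 - u i with hv
  set m : ℤ := n + ∑ i, (if t i = 1 then 0 else 1 : ℤ) with hm
  have h1 : ∀ i, v i = (t i : ℝ) * u i + ((if t i = 1 then 0 else 1 : ℤ) : ℝ) := by
    intro i
    rcases ht i with h2 | h2
    · simp [hv, h2]
    · simp [hv, h2]
      ring
  obtain ⟨v', h2, h3, h4⟩ := round w e he h v (fun i => by
    rcases ht i with h2 | h2
    · simp only [hv, h2, if_true]
      exact hu i
    · have h3 : ¬ ((-1 : ℤ) = 1) := by decide
      simp only [hv, h2, h3, if_false]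
      constructor <;> linarith [(hu i).1, (hu i).2]) m (by
    rw [sum_congr rfl fun i _ => h1 i, sum_add_distrib, hn, hm]
    push_cast
    rfl)
  refine ⟨fun i => if t i = 1 then v' i else 1 - v' i, fun i => ?_, ?_, fun X => ?_⟩
  · rcases ht i with h5 | h5
    · simp only [h5, if_true]
      exact h2 i
    · have h6 : ¬ ((-1 : ℤ) = 1) := by decide
      simp only [h5, h6, if_false]
      rcases h2 i with h7 | h7 <;> rw [h7] <;> simp
  · have h5 : ∀ i, t i * (if t i = 1 then v' i else 1 - v' i) =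
        v' i - (if t i = 1 then 0 else 1 : ℤ) := by
      intro i
      rcases ht i with h6 | h6
      · simp [h6]
      · simp [h6]
    rw [sum_congr rfl fun i _ => h5 i, sum_sub_distrib, h3, hm]
    ring
  · have h5 : ∀ i, (t i : ℝ) * ((((if t i = 1 then v' i else 1 - v' i : ℤ)) : ℝ) - u i) * w i X =
        ((v' i : ℝ) - v i) * w i X := by
      intro i
      rcases ht i with h6 | h6
      · simp [hv, h6]
      · have h7 : ¬ ((-1 : ℤ) = 1) := by decide
        simp only [hv, h6, h7, if_false]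
        push_cast
        ring
    have h6 : ∑ i, (t i : ℝ) * ((((fun i => if t i = 1 then v' i else 1 - v' i) i : ℤ) : ℝ) - u i) *
        w i X = ∑ i, ((v' i : ℝ) - v i) * w i X := sum_congr rfl fun i _ => h5 i
    rw [h6]
    exact h4 X

end Pool.Agent.K5.Lsv
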