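import Mathlib
import Pool.Agent.Work.MP_974d84_co_iso.Pick
import Pool.Agent.Work.MP_974d84_co_k5.DefsW

/-!
# The choice of the zones, for a general family of cuts
-/

set_option linter.unusedSectionVars false

namespace Pool.Agent.K5

open Finset SimpleGraph Pool.Agent.Exp Pool.Agent.Log5 Pool.Agent.Log5.Clu Pool.Agent.Iso5

theorem pick_zone_num {k L h D : ℕ} {κ M : ℝ} (hh : 0 < h) (hkD : k ≤ D) (hκ : 0 ≤ κ + 3)
    (hq : 2 * Real.exp ((κ + 3) * h) ≤ L) (hk : M ≤ Real.exp k) :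
    (M * Real.exp (κ * D)) * 2 ^ D * (2 / (L : ℝ)) ^ (D / h + 1) ≤ (1 / 3) ^ D := by
  have hq0 : (0 : ℝ) < L := lt_of_lt_of_le (by positivity) hq
  have hD : (k : ℝ) ≤ D := by exact_mod_cast hkD
  have e1 : 2 / (L : ℝ) ≤ Real.exp (-((κ + 3) * h)) := by
    rw [div_le_iff₀ hq0, Real.exp_neg, inv_mul_eq_div, le_div_iff₀ (Real.exp_pos _)]
    exact hq
  have e2 : (2 / (L : ℝ)) ^ (D / h + 1) ≤ Real.exp (-((κ + 3) * D)) := by
    refine (pow_le_pow_left₀ (by positivity) e1 _).trans ?_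
    rw [← Real.exp_nat_mul, Real.exp_le_exp]
    have h1 : D ≤ h * (D / h + 1) := by
      have e1 := Nat.div_add_mod D h
      have e2 := Nat.mod_lt D hh
      nlinarith
    have h2 : (D : ℝ) ≤ h * ((D / h + 1 : ℕ) : ℝ) := by exact_mod_cast h1
    nlinarith
  have e3 : (2 : ℝ) ^ D ≤ Real.exp (7 / 10 * D) := by
    have : (2 : ℝ) ≤ Real.exp (7 / 10) := by
      rw [← Real.log_le_iff_le_exp (by norm_num)]
      have := Real.log_two_lt_d9
      linarith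
    calc (2 : ℝ) ^ D ≤ (Real.exp (7 / 10)) ^ D := pow_le_pow_left₀ (by norm_num) this _
      _ = Real.exp (7 / 10 * D) := by rw [← Real.exp_nat_mul]; ring_nf
  have e4 : Real.exp (-(13 / 10 * D)) ≤ (1 / 3) ^ D := by
    have h1 : Real.exp (-(13 / 10)) ≤ 1 / 3 := by
      rw [Real.exp_neg, inv_le_comm₀ (Real.exp_pos _) (by norm_num), one_div, inv_inv]
      rw [← Real.log_le_iff_le_exp (by norm_num)]
      have h4 : Real.log 3 = Real.log 2 + Real.log (3 / 2) := by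
        rw [← Real.log_mul (by norm_num) (by norm_num)]
        norm_num
      have h5 : Real.log (3 / 2) ≤ 3 / 2 - 1 := Real.log_le_sub_one_of_pos (by norm_num)
      have h6 := Real.log_two_lt_d9
      linarith
    calc Real.exp (-(13 / 10 * D)) = (Real.exp (-(13 / 10))) ^ D := by
          rw [← Real.exp_nat_mul]; ring_nf
      _ ≤ (1 / 3) ^ D := pow_le_pow_left₀ (Real.exp_pos _).le h1 _
  calc (M * Real.exp (κ * D)) * 2 ^ D * (2 / (L : ℝ)) ^ (D / h + 1)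
      ≤ (Real.exp D * Real.exp (κ * D)) * Real.exp (7 / 10 * D) * Real.exp (-((κ + 3) * D)) := by
        have h1 : M ≤ Real.exp D := hk.trans (Real.exp_le_exp.2 hD)
        gcongr
    _ = Real.exp (-(13 / 10 * D)) := by
        rw [← Real.exp_add, ← Real.exp_add, ← Real.exp_add]
        ring_nf
    _ ≤ (1 / 3) ^ D := e4

variable {V : Type} [Fintype V] [DecidableEq V] {G : SimpleGraph V} [DecidableRel G.Adj]

/-- A joined set which is split by a cut contains an edge of the cut. -/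
theorem cut_of_split {U Z : Finset V} (hU : Joined G U)
    (h : ∃ x ∈ U, ∃ y ∈ U, x ∈ Z ∧ y ∉ Z) :
    ∃ x ∈ U, ∃ y ∈ U, x ∈ Z ∧ y ∉ Z ∧ G.Adj x y := by
  obtain ⟨x, hx, y, hy, hxZ, hyZ⟩ := h
  obtain ⟨a, ha, b, hb, hba, hab⟩ := hU (U ∩ Z) inter_subset_left
    ⟨x, mem_inter.2 ⟨hx, hxZ⟩⟩ (fun he => hyZ (mem_inter.1 (he ▸ hy)).2)
  refine ⟨a, (mem_inter.1 ha).1, b, hb, (mem_inter.1 ha).2, fun hbZ => hba ?_, hab⟩
  exact mem_inter.2 ⟨hb, hbZ⟩

/-- Few disjoint joined zones are split. -/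
theorem zone_card {κ : Type} [DecidableEq κ] (U : κ → Finset V) (hJ : ∀ x, Joined G (U x))
    (hU : ∀ x y, x ≠ y → Disjoint (U x) (U y)) (Z : Finset V) (X : Finset κ)
    (hX : ∀ i ∈ X, ∃ x ∈ U i, ∃ y ∈ U i, x ∈ Z ∧ y ∉ Z) : X.card ≤ dd G Z := by
  classical
  rcases X.eq_empty_or_nonempty with rfl | ⟨j, hj⟩
  · simp
  obtain ⟨v, -⟩ := hX j hj
  have key : ∀ i : κ, ∃ p : V × V, i ∈ X → p.1 ∈ U i ∧ p ∈ Pool.Agent.Work.MP_314beb_co.cut G Z := by
    intro i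
    by_cases hi : i ∈ X
    · obtain ⟨a, ha, b, -, haZ, hbZ, hab⟩ := cut_of_split (hJ i) (hX i hi)
      exact ⟨(a, b), fun _ => ⟨ha, (mem_cut G).2 ⟨haZ, hbZ, hab⟩⟩⟩
    · exact ⟨(v, v), fun h => absurd h hi⟩
  choose p hp using key
  refine card_le_card_of_injOn p (fun x hx => (hp x hx).2) ?_
  intro x hx y hy hxy
  by_contra hne
  have h1 := (hp x hx).1
  have h2 := (hp y hy).1
  rw [hxy] at h1
  exact disjoint_left.1 (hU x y hne) h1 h2

/-- The choice of the zones: one out of `L` candidates at every place, such that every large cut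
of the family splits few of the chosen zones. -/
theorem pick_zone_ex (h : ℕ) (hh : 0 < h) (κ : ℝ) : ∃ L : ℕ, 0 < L ∧ ∀ n N₀ : ℕ, ∃ D₀ : ℕ,
    ∀ {V : Type} [Fintype V] [DecidableEq V] (G : SimpleGraph V) [DecidableRel G.Adj]
    {I : Type} [Fintype I] [DecidableEq I] (U : I → Fin L → Finset V),
    (∀ i a, Joined G (U i a)) → (∀ i a, (U i a).card ≤ n) →
    (∀ i a j b, (i, a) ≠ (j, b) → Disjoint (U i a) (U j b)) →
    ∀ Fam : Finset (Finset V), (∀ Z ∈ Fam, D₀ ≤ dd G Z) →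
    (∀ v D, ((Fam.filter fun Z => v ∈ Z ∧ dd G Z = D).card : ℝ) ≤ N₀ * Real.exp (κ * D)) →
    ∃ t : I → Fin L, ∀ Z ∈ Fam,
      h * (univ.filter fun i => ∃ x ∈ U i (t i), ∃ y ∈ U i (t i), x ∈ Z ∧ y ∉ Z).card
        ≤ dd G Z := by
  classical
  -- the constants, with a nonnegative exponent
  set κ' : ℝ := max κ 0 with hκ'
  have hκ0 : 0 ≤ κ' := le_max_right _ _
  obtain ⟨L, hL⟩ := exists_nat_ge (2 * Real.exp ((κ' + 3) * h))
  have hLr : (0 : ℝ) < L := lt_of_lt_of_le (by positivity) hL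
  have hL0 : 0 < L := by exact_mod_cast hLr
  refine ⟨L, hL0, fun n N₀ => ?_⟩
  obtain ⟨k, hk⟩ := exists_nat_ge ((L : ℝ) * n * N₀ + 1)
  have hk0 : (0 : ℝ) ≤ (L : ℝ) * n * N₀ := by positivity
  have hk' : (L : ℝ) * n * N₀ ≤ Real.exp k := by
    have := Real.add_one_le_exp (k : ℝ)
    linarith
  have hk1 : 1 ≤ k := by
    have h5 : (1 : ℝ) ≤ k := by linarith
    exact_mod_cast h5
  refine ⟨k, ?_⟩
  intro V _ _ G _ I _ _ U hJ hn hU Fam hFD hcount
  have : Nonempty (Fin L) := ⟨⟨0, hL0⟩⟩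
  -- the pattern of a set
  let spl : I × Fin L → Finset V → Prop := fun p Z => ∃ x ∈ U p.1 p.2, ∃ y ∈ U p.1 p.2, x ∈ Z ∧ y ∉ Z
  let XX : Finset V → Finset (I × Fin L) := fun Z => univ.filter fun p => spl p Z
  let F : ℕ → Finset (Finset (I × Fin L)) := fun D =>
    (Fam.filter fun Z : Finset V => dd G Z = D).image XX
  let Lv : Finset ℕ := (range (Fintype.card (V × V) + 1)).filter fun D => k ≤ D
  have hloc : ∀ D, k ≤ D → ∀ i : I,
      (((F D).filter fun X => ∃ a, (i, a) ∈ X).card : ℝ) ≤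
        (L : ℝ) * n * N₀ * Real.exp (κ' * D) := by
    intro D hD i
    let P : Finset V := (univ : Finset (Fin L)).biUnion fun a => U i a
    let Fm : V → Finset (Finset V) := fun t₀ => Fam.filter fun Z => t₀ ∈ Z ∧ dd G Z = D
    have hFam : ∀ t₀, ((Fm t₀).card : ℝ) ≤ N₀ * Real.exp (κ' * D) := by
      intro t₀
      refine (hcount t₀ D).trans (mul_le_mul_of_nonneg_left (Real.exp_le_exp.2 ?_)
        (Nat.cast_nonneg _))
      exact mul_le_mul_of_nonneg_right (le_max_left _ _) (Nat.cast_nonneg _)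
    have hsub : ((F D).filter fun X => ∃ a, (i, a) ∈ X) ⊆
        P.biUnion fun t₀ => (Fm t₀).image XX := by
      intro X hX
      obtain ⟨hXF, a, ha⟩ := mem_filter.1 hX
      obtain ⟨Z, hZ, rfl⟩ := mem_image.1 hXF
      have hZ' := mem_filter.1 hZ
      obtain ⟨x, hx, y, hy, hxZ, hyZ⟩ := (mem_filter.1 ha).2
      exact mem_biUnion.2 ⟨x, mem_biUnion.2 ⟨a, mem_univ _, hx⟩,
        mem_image.2 ⟨Z, mem_filter.2 ⟨hZ'.1, hxZ, hZ'.2⟩, rfl⟩⟩
    have hP : P.card ≤ L * n := by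
      refine (card_biUnion_le_card_mul _ _ n ?_).trans (by simp)
      intro a _
      exact hn i a
    have hPr : (P.card : ℝ) ≤ L * n := by exact_mod_cast hP
    calc (((F D).filter fun X => ∃ a, (i, a) ∈ X).card : ℝ)
        ≤ ((P.biUnion fun t₀ => (Fm t₀).image XX).card : ℝ) := by
          exact_mod_cast card_le_card hsub
      _ ≤ ∑ t₀ ∈ P, (((Fm t₀).image XX).card : ℝ) := by exact_mod_cast card_biUnion_le
      _ ≤ ∑ t₀ ∈ P, (N₀ * Real.exp (κ' * D)) := sum_le_sum fun t₀ _ =>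
          le_trans (by exact_mod_cast card_image_le) (hFam t₀)
      _ = P.card * (N₀ * Real.exp (κ' * D)) := by rw [sum_const, nsmul_eq_mul]
      _ ≤ (L * n) * (N₀ * Real.exp (κ' * D)) :=
          mul_le_mul_of_nonneg_right hPr (by positivity)
      _ = (L : ℝ) * n * N₀ * Real.exp (κ' * D) := by ring
  obtain ⟨a, ha⟩ := choose_local (I := I) (A := Fin L) Lv F (fun D => D) (fun D => D / h + 1)
    (fun _ _ => Nat.le_add_left 1 _)
    (by
      intro D _ X hX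
      obtain ⟨Z, hZ, rfl⟩ := mem_image.1 hX
      have hZ' := mem_filter.1 hZ
      have := zone_card (G := G) (κ := I × Fin L) (fun p => U p.1 p.2)
        (fun p => hJ p.1 p.2) (fun x y hxy => hU x.1 x.2 y.1 y.2 hxy) Z (XX Z)
        fun p hp => (mem_filter.1 hp).2
      rw [hZ'.2] at this
      exact this)
    (by
      intro i
      refine le_trans (sum_le_sum fun D hD => ?_) (sum_third Lv fun D hD =>
        hk1.trans (mem_filter.1 hD).2)
      rw [Fintype.card_fin]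
      refine le_trans ?_ (pick_zone_num hh (mem_filter.1 hD).2 (by linarith) hL hk')
      have h1 := hloc D (mem_filter.1 hD).2 i
      refine mul_le_mul_of_nonneg_right (mul_le_mul_of_nonneg_right
        (le_trans (le_of_eq ?_) h1) (by positivity)) (by positivity)
      congr!)
  refine ⟨a, ?_⟩
  intro Z hZ
  have hkZ := hFD Z hZ
  have hLm : dd G Z ∈ Lv := by
    refine mem_filter.2 ⟨mem_range.2 ?_, hkZ⟩
    have : dd G Z ≤ Fintype.card (V × V) := card_le_univ _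
    omega
  have h1 := ha (dd G Z) hLm (XX Z) (mem_image.2 ⟨Z, mem_filter.2 ⟨hZ, rfl⟩, rfl⟩)
  have h2 : (univ.filter fun i => ∃ x ∈ U i (a i), ∃ y ∈ U i (a i), x ∈ Z ∧ y ∉ Z) ⊆
      (univ.filter fun i => (i, a i) ∈ XX Z) := by
    intro i hi
    exact mem_filter.2 ⟨mem_univ _, mem_filter.2 ⟨mem_univ _, (mem_filter.1 hi).2⟩⟩
  have h4 := card_le_card h2
  have h3 : (univ.filter fun i => ∃ x ∈ U i (a i), ∃ y ∈ U i (a i), x ∈ Z ∧ y ∉ Z).card
      ≤ dd G Z / h := by omega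
  calc h * (univ.filter fun i => ∃ x ∈ U i (a i), ∃ y ∈ U i (a i), x ∈ Z ∧ y ∉ Z).card
      ≤ h * (dd G Z / h) := Nat.mul_le_mul_left _ h3
    _ ≤ dd G Z := Nat.mul_div_le _ _

theorem cuts_iff {U Z : Finset V} : Cuts U Z ↔ ∃ x ∈ U, ∃ y ∈ U, x ∈ Z ∧ y ∉ Z := by
  unfold Cuts
  rw [not_or, Finset.not_subset, Finset.not_disjoint_iff]
  constructor
  · rintro ⟨⟨y, hy, hyZ⟩, x, hx, hxZ⟩
    exact ⟨x, hx, y, hy, hxZ, hyZ⟩
  · rintro ⟨x, hx, y, hy, hxZ, hyZ⟩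
    exact ⟨⟨y, hy, hyZ⟩, x, hx, hxZ⟩

/-- W3a: one candidate zone for every index. -/
theorem pick_zone (h : ℕ) (hh : 0 < h) (κ : ℝ) : ∃ L : ℕ, 0 < L ∧ ∀ n N₀ : ℕ, ∃ D₀ : ℕ,
    ∀ {V : Type} [Fintype V] [DecidableEq V] (G : SimpleGraph V) [DecidableRel G.Adj]
    {ι : Type} [Fintype ι] [DecidableEq ι] (U : ι → Fin L → Finset V),
    (∀ i a, Joined G (U i a)) → (∀ i a, (U i a).card ≤ n) →
    (∀ i a j b, (i, a) ≠ (j, b) → Disjoint (U i a) (U j b)) →
    ∀ Fam : Finset (Finset V), (∀ Z ∈ Fam, D₀ ≤ dd G Z) →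
    (∀ v D, ((Fam.filter fun Z => v ∈ Z ∧ dd G Z = D).card : ℝ) ≤ N₀ * Real.exp (κ * D)) →
    ∃ t : ι → Fin L, ∀ Z ∈ Fam,
      h * (univ.filter fun i => Cuts (U i (t i)) Z).card ≤ dd G Z := by
  classical
  obtain ⟨L, hL, hm⟩ := pick_zone_ex h hh κ
  refine ⟨L, hL, fun n N₀ => ?_⟩
  obtain ⟨D₀, hD⟩ := hm n N₀
  refine ⟨D₀, ?_⟩
  intro V _ _ G _ ι _ _ U hJ hn hU Fam hFD hcount
  obtain ⟨t, ht⟩ := hD G U hJ hn hU Fam hFD hcount
  refine ⟨t, fun Z hZ => le_trans (Nat.mul_le_mul_left _ (card_le_card fun i hi => ?_)) (ht Z hZ)⟩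
  rw [mem_filter] at hi ⊢
  exact ⟨hi.1, cuts_iff.1 hi.2⟩

end Pool.Agent.K5
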