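import Mathlib

/-!
# W2: maximal families of disjoint arcs
-/

set_option linter.unusedSectionVars false

namespace Pool.Agent.K5

open Finset

theorem exists_arcs {V : Type} [Fintype V] [DecidableEq V] {π : Equiv.Perm V} {M : ℕ}
    (hM : 0 < M) (hπ : ∀ v n, 0 < n → n < M → (π ^ n) v ≠ v) : ∃ I : Finset V,
      (∀ a ∈ I, ∀ b ∈ I, ∀ m < M, ∀ n < M, (π ^ m) a = (π ^ n) b → a = b ∧ m = n) ∧
      ∀ v, ∃ n < 2 * M, (π ^ n) v ∈ I := by
  classical
  -- cancellation
  have hcan : ∀ (a b : V) (m n : ℕ), m ≤ n → (π ^ m) a = (π ^ n) b → a = (π ^ (n - m)) b := by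
    intro a b m n hmn h
    have h1 : (π ^ n) b = (π ^ m) ((π ^ (n - m)) b) := by
      rw [← Equiv.Perm.mul_apply, ← pow_add]
      congr 2
      omega
    rw [h1] at h
    exact (π ^ m).injective h
  set P : Finset V → Prop := fun I =>
    ∀ a ∈ I, ∀ b ∈ I, ∀ m < M, ∀ n < M, (π ^ m) a = (π ^ n) b → a = b ∧ m = n with hP
  obtain ⟨I, hI⟩ := (Finset.univ.filter P).exists_maximal
    ⟨∅, by simp [hP]⟩
  have hIP : P I := (mem_filter.1 hI.prop).2
  have hmax : ∀ v, v ∉ I → ∃ a ∈ I, ∃ m < M, ∃ n < M, (π ^ m) a = (π ^ n) v := by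
    intro v hv
    by_contra hcon
    push Not at hcon
    have h1 : P (insert v I) := by
      intro a ha b hb m hm n hn h
      rw [mem_insert] at ha hb
      rcases ha with rfl | ha <;> rcases hb with rfl | hb
      · refine ⟨rfl, ?_⟩
        by_contra hmn
        rcases lt_or_gt_of_ne hmn with h2 | h2
        · exact hπ _ (n - m) (by omega) (by omega) (hcan _ _ m n h2.le h).symm
        · exact hπ _ (m - n) (by omega) (by omega) (hcan _ _ n m h2.le h.symm).symm
      · exact absurd h.symm (hcon b hb n hn m hm)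
      · exact absurd h (hcon a ha m hm n hn)
      · exact hIP a ha b hb m hm n hn h
    have h2 := hI.le_of_ge (mem_filter.2 ⟨mem_univ _, h1⟩) (subset_insert v I)
    exact hv (h2 (mem_insert_self v I))
  refine ⟨I, hIP, fun v => ?_⟩
  -- from a vertex which is not inside an arc
  have key : ∀ v, (∀ a ∈ I, ∀ j, 0 < j → j < M → v ≠ (π ^ j) a) → ∃ n < M, (π ^ n) v ∈ I := by
    intro v hv
    by_cases hvI : v ∈ I
    · exact ⟨0, hM, by simpa using hvI⟩
    · obtain ⟨a, ha, m, hm, n, hn, h⟩ := hmax v hvI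
      rcases le_or_gt m n with h1 | h1
      · refine ⟨n - m, by omega, ?_⟩
        rw [← hcan a v m n h1 h]
        exact ha
      · exact absurd (hcan v a n m h1.le h.symm) (hv a ha (m - n) (by omega) (by omega))
  by_cases hv : ∀ a ∈ I, ∀ j, 0 < j → j < M → v ≠ (π ^ j) a
  · obtain ⟨n, hn, h⟩ := key v hv
    exact ⟨n, by omega, h⟩
  · push Not at hv
    obtain ⟨a, ha, j, hj0, hjM, rfl⟩ := hv
    obtain ⟨n, hn, h⟩ := key ((π ^ M) a) (fun a' ha' j' h0 h1 h2 => by
      have h3 : (π ^ (M - 1)) a = (π ^ (j' - 1)) a' := by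
        have h4 : (π ^ M) a = (π ^ 1) ((π ^ (M - 1)) a) := by
          rw [← Equiv.Perm.mul_apply, ← pow_add]
          congr 2
          omega
        have h5 : (π ^ j') a' = (π ^ 1) ((π ^ (j' - 1)) a') := by
          rw [← Equiv.Perm.mul_apply, ← pow_add]
          congr 2
          omega
        rw [h4, h5] at h2
        exact (π ^ 1).injective h2
      have h6 := (hIP a ha a' ha' (M - 1) (by omega) (j' - 1) (by omega) h3).2
      omega)
    refine ⟨n + (M - j), by omega, ?_⟩
    have h7 : (π ^ (n + (M - j))) ((π ^ j) a) = (π ^ n) ((π ^ M) a) := by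
      rw [← Equiv.Perm.mul_apply, ← Equiv.Perm.mul_apply, ← pow_add, ← pow_add]
      congr 2
      omega
    rw [h7]
    exact h

end Pool.Agent.K5
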