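import Mathlib
import Pool.Agent.Work.MP_974d84_co_k5.Defs5
import Pool.Agent.Work.MP_974d84_co_log.BigOf
import Pool.Agent.Work.MP_974d84_co_log.Girth

/-!
# A site is smeared over the sphere of a ball which is a tree

The unit at `t` is sent along the three edges at `t`, `1 / 5` on the edge of `H` and `2 / 5` on the
two others, and then it is halved at every vertex.
-/

set_option linter.unusedSectionVars false
set_option autoImplicit false

namespace Pool.Agent.K5

open Finset SimpleGraph Pool.Agent.Exp Pool.Agent.Log5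

variable {V : Type} [Fintype V] [DecidableEq V] {G : SimpleGraph V} [DecidableRel G.Adj]

/-- A set between two consecutive balls is joined. -/
theorem joined_between {j : ℕ} {t : V} (hj : Joined G (Bl G.Adj j t)) {C : Finset V}
    (h1 : Bl G.Adj j t ⊆ C) (h2 : C ⊆ Bl G.Adj (j + 1) t) : Joined G C := by
  -- a vertex of `C` is in the ball or next to it
  have hnb : ∀ y ∈ C, y ∉ Bl G.Adj j t → ∃ x ∈ Bl G.Adj j t, G.Adj x y := by
    intro y hy hy'
    rcases mem_Bl_succ.1 (h2 hy) with h | h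
    · exact absurd h hy'
    · exact h
  intro A hA hne hAC
  by_cases h3 : Bl G.Adj j t ⊆ A
  · have h4 : ∃ y ∈ C, y ∉ A := by
      by_contra hcon
      push Not at hcon
      exact hAC (Subset.antisymm hA hcon)
    obtain ⟨y, hy, hyA⟩ := h4
    obtain ⟨x, hx, hxy⟩ := hnb y hy fun h => hyA (h3 h)
    exact ⟨x, h3 hx, y, hy, hyA, hxy⟩
  · by_cases h4 : (A ∩ Bl G.Adj j t).Nonempty
    · have h5 : A ∩ Bl G.Adj j t ≠ Bl G.Adj j t := fun h => h3 (by
        rw [← h]; exact inter_subset_left)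
      obtain ⟨x, hx, y, hy, hyA, hxy⟩ := hj _ inter_subset_right h4 h5
      rw [mem_inter] at hx
      refine ⟨x, hx.1, y, h1 hy, fun h => hyA ?_, hxy⟩
      rw [mem_inter]
      exact ⟨h, hy⟩
    · obtain ⟨y, hy⟩ := hne
      have hy' : y ∉ Bl G.Adj j t := fun h => h4 ⟨y, mem_inter.2 ⟨hy, h⟩⟩
      obtain ⟨x, hx, hxy⟩ := hnb y (hA hy) hy'
      exact ⟨y, hy, x, h1 hx, fun h => h4 ⟨x, mem_inter.2 ⟨h, hx⟩⟩, hxy.symm⟩

theorem joined_ball (j : ℕ) (t : V) : Joined G (Bl G.Adj j t) := by
  induction j with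
  | zero =>
    intro A hA hne hAC
    have h1 : Bl G.Adj 0 t = {t} := rfl
    rw [h1] at hA hAC
    exact absurd ((Finset.Nonempty.subset_singleton_iff hne).1 hA) hAC
  | succ j ih => exact joined_between ih (Bl_mono (Nat.le_succ j) t) (Subset.refl _)

/-- In a forest a vertex has at most one neighbour in a joined set. -/
theorem nb_le_one (h3 : ∀ v, G.degree v = 3) {k : ℕ} (hg : Gir G k) {C : Finset V}
    (hC : Joined G C) (hne : C.Nonempty) {v : V} (hv : v ∉ C) (hk : C.card + 1 < k) :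
    nb G C v ≤ 1 := by
  have h1 := dd_insert h3 hv
  have h2 := dd_le_of_joined h3 hC hne
  have hcard : (insert v C).card = C.card + 1 := card_insert_of_notMem hv
  have h4 := dd_of_acyclic G h3 (insert_nonempty v C) (hg (insert v C) (by omega))
  omega

section tree

variable {k j : ℕ} {t : V}

/-- A vertex outside a small ball has at most one neighbour in it. -/
theorem nb_out (h3 : ∀ v, G.degree v = 3) (hg : Gir G k) (hk : 3 * 2 ^ j < k) {v : V}
    (hv : v ∉ Bl G.Adj j t) : nb G (Bl G.Adj j t) v ≤ 1 :=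
  nb_le_one h3 hg (joined_ball j t) ⟨t, Bl_self j t⟩ hv (by
    have := Bl_card G h3 j t
    omega)

/-- A vertex of the sphere has two neighbours outside the ball. -/
theorem nb_sphere (h3 : ∀ v, G.degree v = 3) (hg : Gir G k) (hk : 3 * 2 ^ (j + 1) < k) {v : V}
    (hv : v ∈ Bl G.Adj (j + 1) t) (hv' : v ∉ Bl G.Adj j t) :
    nb G (Bl G.Adj (j + 1) t)ᶜ v = 2 := by
  set B := Bl G.Adj (j + 1) t with hB
  have h1 : Bl G.Adj j t ⊆ B.erase v := fun u hu =>
    mem_erase.2 ⟨fun h => hv' (h ▸ hu), Bl_mono (Nat.le_succ j) t hu⟩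
  have h2 : Joined G (B.erase v) := joined_between (joined_ball j t) h1 (erase_subset _ _)
  have hcard : B.card + 2 ≤ 3 * 2 ^ (j + 1) := Bl_card G h3 (j + 1) t
  have h4 : (B.erase v).card + 1 = B.card := card_erase_add_one hv
  have h5 := nb_le_one h3 hg h2 ⟨t, h1 (Bl_self j t)⟩ (notMem_erase v B) (by omega)
  rw [nb_erase_self] at h5
  have h6 : 1 ≤ nb G B v := by
    rcases mem_Bl_succ.1 hv with h | ⟨u, hu, huv⟩
    · exact absurd h hv'
    · unfold nb
      exact card_pos.2 ⟨u, mem_filter.2 ⟨Bl_mono (Nat.le_succ j) t hu, huv.symm⟩⟩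
  have h7 := nb_add (G := G) h3 B v
  omega

end tree

/-- The unit at `t` smeared over the sphere of radius `j`. -/
structure Sm (G : SimpleGraph V) (H : SimpleGraph V) (t : V) (j : ℕ) (φ : V → V → ℝ)
    (w : V → ℝ) : Prop where
  anti : ∀ u v, φ u v = - φ v u
  supp : ∀ u v, φ u v ≠ 0 → G.Adj u v ∧ u ∈ Bl G.Adj j t ∧ v ∈ Bl G.Adj j t
  b1 : ∀ u v, |φ u v| ≤ 2 / 5
  b2 : ∀ u v, H.Adj u v → |φ u v| ≤ 1 / 5
  w0 : ∀ v, 0 ≤ w v
  w1 : ∀ v, w v ≤ 4 / 5 / 2 ^ j
  ws : ∀ v, w v ≠ 0 → v ∈ Bl G.Adj j t ∧ (j = 0 ∨ v ∉ Bl G.Adj (j - 1) t)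
  tot : ∑ v, w v = 1
  div : ∀ v, ∑ u, φ v u = (if v = t then 1 else 0) - w v

/-- One more step: `g` is sent out of the ball. -/
theorem push (h3 : ∀ v, G.degree v = 3) {k : ℕ} (hg : Gir G k) {H : SimpleGraph V} {t : V}
    {j : ℕ} (hk : 3 * 2 ^ j < k) {φ : V → V → ℝ} {w : V → ℝ}
    (anti : ∀ u v, φ u v = - φ v u)
    (supp : ∀ u v, φ u v ≠ 0 → G.Adj u v ∧ u ∈ Bl G.Adj j t ∧ v ∈ Bl G.Adj j t)
    (b1 : ∀ u v, |φ u v| ≤ 2 / 5) (b2 : ∀ u v, H.Adj u v → |φ u v| ≤ 1 / 5)
    (tot : ∑ v, w v = 1) (div : ∀ v, ∑ u, φ v u = (if v = t then 1 else 0) - w v)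
    {g : V → V → ℝ} (g0 : ∀ u v, 0 ≤ g u v)
    (gs : ∀ u v, g u v ≠ 0 → G.Adj u v ∧ u ∈ Bl G.Adj j t ∧ v ∉ Bl G.Adj j t)
    (gH : ∀ u v, H.Adj u v → g u v ≤ 1 / 5) (gb : ∀ u v, g u v ≤ 2 / 5)
    (gw : ∀ u v, g u v ≤ 4 / 5 / 2 ^ (j + 1)) (gsum : ∀ u, ∑ v, g u v = w u) :
    Sm G H t (j + 1) (fun u v => φ u v + g u v - g v u) (fun v => ∑ u, g u v) := by
  have key : ∀ u v, φ u v + g u v - g v u = φ u v ∨ φ u v + g u v - g v u = g u v ∨
      φ u v + g u v - g v u = - g v u := by
    intro u v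
    by_cases hu : u ∈ Bl G.Adj j t
    · have e1 : g v u = 0 := by
        by_contra h
        exact (gs v u h).2.2 hu
      by_cases hv : v ∈ Bl G.Adj j t
      · have e2 : g u v = 0 := by
          by_contra h
          exact (gs u v h).2.2 hv
        left
        rw [e1, e2]
        ring
      · have e2 : φ u v = 0 := by
          by_contra h
          exact hv (supp u v h).2.2
        right
        left
        rw [e1, e2]
        ring
    · have e1 : g u v = 0 := by
        by_contra h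
        exact hu (gs u v h).2.1
      have e2 : φ u v = 0 := by
        by_contra h
        exact hu (supp u v h).2.1
      right
      right
      rw [e1, e2]
      ring
  refine ⟨fun u v => ?_, fun u v h => ?_, fun u v => ?_, fun u v huv => ?_, fun v => ?_,
    fun v => ?_, fun v h => ?_, ?_, fun v => ?_⟩
  · rw [anti u v]
    ring
  · have hsub : Bl G.Adj j t ⊆ Bl G.Adj (j + 1) t := Bl_mono (Nat.le_succ j) t
    have hout : ∀ u v, g u v ≠ 0 → G.Adj u v ∧ u ∈ Bl G.Adj (j + 1) t ∧
        v ∈ Bl G.Adj (j + 1) t := by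
      intro u v h
      obtain ⟨h1, h2, -⟩ := gs u v h
      exact ⟨h1, hsub h2, mem_Bl_succ.2 (Or.inr ⟨u, h2, h1⟩)⟩
    rcases key u v with h1 | h1 | h1
    · rw [h1] at h
      obtain ⟨h2, h4, h5⟩ := supp u v h
      exact ⟨h2, hsub h4, hsub h5⟩
    · rw [h1] at h
      exact hout u v h
    · rw [h1] at h
      obtain ⟨h2, h4, h5⟩ := hout v u (neg_ne_zero.1 h)
      exact ⟨h2.symm, h5, h4⟩
  · rcases key u v with h1 | h1 | h1 <;> rw [h1]
    · exact b1 u v
    · rw [abs_of_nonneg (g0 u v)]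
      exact gb u v
    · rw [abs_neg, abs_of_nonneg (g0 v u)]
      exact gb v u
  · rcases key u v with h1 | h1 | h1 <;> rw [h1]
    · exact b2 u v huv
    · rw [abs_of_nonneg (g0 u v)]
      exact gH u v huv
    · rw [abs_neg, abs_of_nonneg (g0 v u)]
      exact gH v u huv.symm
  · exact sum_nonneg fun u _ => g0 u v
  · -- at most one term
    by_cases hv : v ∈ Bl G.Adj j t
    · have h1 : ∑ u, g u v = 0 := by
        refine sum_eq_zero fun u _ => ?_
        by_contra h
        exact (gs u v h).2.2 hv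
      rw [h1]
      positivity
    · have h1 := nb_out h3 hg hk hv
      have h2 : ∑ u, g u v = ∑ u ∈ (Bl G.Adj j t).filter (fun u => G.Adj v u), g u v := by
        symm
        refine sum_subset (subset_univ _) fun u _ hu => ?_
        by_contra h
        obtain ⟨h4, h5, -⟩ := gs u v h
        exact hu (mem_filter.2 ⟨h5, h4.symm⟩)
      rw [h2]
      refine (sum_le_card_nsmul _ _ _ fun u _ => gw u v).trans ?_
      have h4 : ((Bl G.Adj j t).filter (fun u => G.Adj v u)).card ≤ 1 := h1
      rw [nsmul_eq_mul]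
      have h5 : (((Bl G.Adj j t).filter (fun u => G.Adj v u)).card : ℝ) ≤ 1 := by
        exact_mod_cast h4
      have h6 : (0 : ℝ) ≤ 4 / 5 / 2 ^ (j + 1) := by positivity
      calc _ ≤ (1 : ℝ) * (4 / 5 / 2 ^ (j + 1)) := mul_le_mul_of_nonneg_right h5 h6
        _ = 4 / 5 / 2 ^ (j + 1) := one_mul _
  · have h1 : ∃ u, g u v ≠ 0 := by
      by_contra hcon
      push Not at hcon
      exact h (sum_eq_zero fun u _ => hcon u)
    obtain ⟨u, hu⟩ := h1
    obtain ⟨h1, h2, h4⟩ := gs u v hu
    exact ⟨mem_Bl_succ.2 (Or.inr ⟨u, h2, h1⟩), Or.inr h4⟩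
  · show ∑ v, ∑ u, g u v = 1
    rw [sum_comm, sum_congr rfl fun u _ => gsum u]
    exact tot
  · show ∑ u, (φ v u + g v u - g u v) = (if v = t then 1 else 0) - ∑ u, g u v
    rw [sum_sub_distrib, sum_add_distrib, div v, gsum v]
    ring

/-- M8, file SmearEx.lean: non-backtracking dispersal from a vertex `t` of `H`-degree one -/
theorem smear_one {V : Type} [Fintype V] [DecidableEq V] {G : SimpleGraph V} [DecidableRel G.Adj]
    (h3 : ∀ v, G.degree v = 3) {k j₀ : ℕ} (hg : Gir G k) (hk : 3 * 2 ^ (j₀ + 2) ≤ k) (hj : 1 ≤ j₀)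
    (H : SimpleGraph V) (hH : H ≤ G) (t : V)
    (hHt : (H.neighborSet t).ncard = 1)
    (_hHv : ∀ v ∈ Bl G.Adj j₀ t, v ≠ t → (H.neighborSet v).ncard = 2) :
    ∃ (φ : V → V → ℝ) (w : V → ℝ), (∀ u v, φ u v = - φ v u) ∧
      (∀ u v, φ u v ≠ 0 → G.Adj u v ∧ u ∈ Bl G.Adj j₀ t ∧ v ∈ Bl G.Adj j₀ t) ∧
      (∀ u v, |φ u v| ≤ 2 / 5) ∧ (∀ u v, H.Adj u v → |φ u v| ≤ 1 / 5) ∧
      (∀ v, 0 ≤ w v) ∧ (∀ v, w v ≤ 1 / 2 ^ j₀) ∧ (∀ v, w v ≠ 0 → v ∈ Bl G.Adj j₀ t) ∧
      ∑ v, w v = 1 ∧ ∀ v, ∑ u, φ v u = (if v = t then 1 else 0) - w v := by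
  classical
  have main : ∀ j : ℕ, 1 ≤ j → j ≤ j₀ → ∃ φ w, Sm G H t j φ w := by
    intro j hj1
    induction j, hj1 using Nat.le_induction with
    | base =>
      intro _
      -- the first step
      obtain ⟨s, hs⟩ := Set.ncard_eq_one.1 hHt
      have hHs : ∀ v, H.Adj t v ↔ v = s := by
        intro v
        have : v ∈ H.neighborSet t ↔ v ∈ ({s} : Set V) := by rw [hs]
        simpa using this
      have hst : G.Adj t s := hH ((hHs s).2 rfl)
      have hball : ∀ v, v ∈ Bl G.Adj 0 t ↔ v = t := fun v => mem_Bl_zero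
      set g : V → V → ℝ := fun u v => if u = t ∧ G.Adj t v then (if v = s then 1 / 5 else 2 / 5)
        else 0 with hgdef
      have gneg : ∀ u v, g u v ≠ 0 → u = t ∧ G.Adj t v := by
        intro u v h
        by_contra hcon
        exact h (if_neg hcon)
      have gval : ∀ u v, 0 ≤ g u v ∧ g u v ≤ 2 / 5 := by
        intro u v
        simp only [hgdef]
        split_ifs <;> norm_num
      have hk0 : 3 * 2 ^ 0 < k := by
        have h1 : 2 ^ 0 < 2 ^ (j₀ + 2) := Nat.pow_lt_pow_right (by norm_num) (by omega)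
        omega
      refine ⟨_, _, push h3 hg (H := H) (t := t) (j := 0) hk0 (φ := fun _ _ => 0)
        (w := fun v => if v = t then 1 else 0) (fun _ _ => by simp) (fun u v h => absurd rfl h)
        (fun _ _ => by rw [abs_zero]; norm_num) (fun _ _ _ => by rw [abs_zero]; norm_num)
        (by simp) (fun v => by simp) (g := g) (fun u v => (gval u v).1) ?_ ?_
        (fun u v => (gval u v).2) (fun u v => (gval u v).2.trans (by norm_num)) ?_⟩
      · intro u v h
        obtain ⟨h1, h2⟩ := gneg u v h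
        rw [h1]
        refine ⟨h2, Bl_self 0 t, fun h5 => ?_⟩
        exact h2.ne ((hball v).1 h5).symm
      · intro u v huv
        by_cases h1 : u = t ∧ G.Adj t v
        · have h2 : v = s := (hHs v).1 (h1.1 ▸ huv)
          have h5 : g u v = 1 / 5 := by
            simp only [hgdef]
            rw [if_pos h1, if_pos h2]
          rw [h5]
        · have h5 : g u v = 0 := if_neg h1
          rw [h5]
          norm_num
      · intro u
        by_cases hu : u = t
        · rw [if_pos hu]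
          have h1 : ∀ v, g u v = if v ∈ G.neighborFinset t then
              (if v = s then 1 / 5 else 2 / 5) else 0 := by
            intro v
            simp only [hgdef, hu, true_and, mem_neighborFinset]
          rw [sum_congr rfl fun v _ => h1 v, sum_ite_mem, univ_inter]
          have h2 : s ∈ G.neighborFinset t := by rw [mem_neighborFinset]; exact hst
          rw [← insert_erase h2, sum_insert (notMem_erase _ _), if_pos rfl]
          have h5 : ∑ v ∈ (G.neighborFinset t).erase s, (if v = s then (1 / 5 : ℝ) else 2 / 5) =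
              ∑ v ∈ (G.neighborFinset t).erase s, (2 / 5 : ℝ) :=
            sum_congr rfl fun v hv => if_neg (ne_of_mem_erase hv)
          rw [h5, sum_const, card_erase_of_mem h2, card_neighborFinset_eq_degree, h3]
          norm_num
        · rw [if_neg hu]
          refine sum_eq_zero fun v _ => ?_
          exact if_neg fun h => hu h.1
    | succ j hj1 ih =>
      intro hjj
      obtain ⟨φ, w, h⟩ := ih (by omega)
      obtain ⟨i, rfl⟩ : ∃ i, j = i + 1 := ⟨j - 1, by omega⟩
      have hkj : 3 * 2 ^ (i + 1) < k := by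
        have h1 : 2 ^ (i + 1) < 2 ^ (j₀ + 2) := Nat.pow_lt_pow_right (by norm_num) (by omega)
        omega
      set g : V → V → ℝ := fun u v => if v ∈ (Bl G.Adj (i + 1) t)ᶜ ∧ G.Adj u v then w u / 2 else 0
        with hgdef
      have gcase : ∀ u v, g u v = w u / 2 ∨ g u v = 0 := by
        intro u v
        simp only [hgdef]
        split_ifs <;> simp
      have hwle : ∀ u, w u / 2 ≤ 4 / 5 / 2 ^ (i + 1 + 1) := by
        intro u
        have h1 := h.w1 u
        rw [pow_succ, ← div_div]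
        linarith
      have hpow : (4 / 5 : ℝ) / 2 ^ (i + 1 + 1) ≤ 1 / 5 := by
        have h1 : (4 : ℝ) ≤ 2 ^ (i + 1 + 1) := by
          calc (4 : ℝ) = 2 ^ 2 := by norm_num
            _ ≤ 2 ^ (i + 1 + 1) := pow_le_pow_right₀ (by norm_num) (by omega)
        rw [div_le_iff₀ (by positivity)]
        linarith
      have g0 : ∀ u v, 0 ≤ g u v := by
        intro u v
        rcases gcase u v with h1 | h1 <;> rw [h1]
        have := h.w0 u
        linarith
      have gw : ∀ u v, g u v ≤ 4 / 5 / 2 ^ (i + 1 + 1) := by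
        intro u v
        rcases gcase u v with h1 | h1 <;> rw [h1]
        · exact hwle u
        · positivity
      refine ⟨_, _, push h3 hg (H := H) (t := t) (j := i + 1) hkj h.anti h.supp h.b1 h.b2 h.tot
        h.div (g := g) g0 ?_ (fun u v _ => (gw u v).trans hpow)
        (fun u v => (gw u v).trans (hpow.trans (by norm_num))) gw ?_⟩
      · intro u v hne
        have h1 : v ∈ (Bl G.Adj (i + 1) t)ᶜ ∧ G.Adj u v := by
          by_contra hcon
          exact hne (if_neg hcon)
        have h2 : g u v = w u / 2 := if_pos h1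
        rw [h2] at hne
        have h5 : w u ≠ 0 := fun h6 => hne (by rw [h6]; simp)
        exact ⟨h1.2, (h.ws u h5).1, mem_compl.1 h1.1⟩
      · intro u
        by_cases hu : w u = 0
        · rw [hu]
          refine sum_eq_zero fun v _ => ?_
          rcases gcase u v with h1 | h1 <;> rw [h1]
          rw [hu]
          simp
        · obtain ⟨h1, h2⟩ := h.ws u hu
          have h5 : u ∉ Bl G.Adj i t := by
            rcases h2 with h2 | h2
            · omega
            · simpa using h2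
          have h6 := nb_sphere h3 hg hkj h1 h5
          have h7 : ∑ v, g u v = ∑ v ∈ ((Bl G.Adj (i + 1) t)ᶜ).filter (fun v => G.Adj u v),
              w u / 2 := by
            rw [sum_filter, ← sum_filter_add_sum_filter_not univ
              (fun v => v ∈ (Bl G.Adj (i + 1) t)ᶜ)]
            have e1 : ∑ v ∈ univ.filter (fun v => ¬ v ∈ (Bl G.Adj (i + 1) t)ᶜ), g u v = 0 :=
              sum_eq_zero fun v hv => if_neg fun h8 => (mem_filter.1 hv).2 h8.1
            rw [e1, add_zero]
            have e2 : univ.filter (fun v => v ∈ (Bl G.Adj (i + 1) t)ᶜ) = (Bl G.Adj (i + 1) t)ᶜ := by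
              ext v; simp
            rw [e2]
            refine sum_congr rfl fun v hv => ?_
            simp only [hgdef, hv, true_and]
          rw [h7, sum_const]
          have h8 : (((Bl G.Adj (i + 1) t)ᶜ).filter (fun v => G.Adj u v)).card = 2 := h6
          rw [h8, nsmul_eq_mul]
          push_cast
          ring
  obtain ⟨φ, w, h⟩ := main j₀ hj le_rfl
  refine ⟨φ, w, h.anti, h.supp, h.b1, h.b2, h.w0, fun v => (h.w1 v).trans ?_,
    fun v hv => (h.ws v hv).1, h.tot, h.div⟩
  have h1 : (0 : ℝ) < 2 ^ j₀ := by positivity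
  exact (div_le_div_iff_of_pos_right h1).2 (by norm_num)

end Pool.Agent.K5
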