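import Mathlib
import Pool.Agent.Work.MP_974d84_co_k5.DefsW
import Pool.Agent.Work.MP_974d84_co_k5.PickZone
import Pool.Agent.Work.MP_974d84_co_k5.BlocksW
import Pool.Agent.Work.MP_974d84_co_k5.SmearEx
import Pool.Agent.Work.MP_974d84_co_log.Transversal

/-!
# The windows
-/

set_option linter.unusedSectionVars false

namespace Pool.Agent.K5

open Finset SimpleGraph Pool.Agent.Exp Pool.Agent.Log5 Pool.Agent.Log5.Clu

variable {V : Type} [Fintype V] [DecidableEq V] {G : SimpleGraph V} [DecidableRel G.Adj]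
  {μ : V → V} {π : Equiv.Perm V}

theorem Frame.deg (hf : Frame G μ π) (v : V) : G.degree v = 3 := by
  have h1 : G.neighborFinset v = {μ v, π v, π.symm v} := by
    ext w
    rw [mem_neighborFinset, hf.adj, mem_insert, mem_insert, mem_singleton]
  rw [← card_neighborFinset_eq_degree, h1, card_insert_of_notMem, card_pair (hf.pi_ne v)]
  rw [mem_insert, mem_singleton, not_or]
  exact ⟨hf.mu_ne v, hf.mu_ne' v⟩

theorem Frame.adj_pi (hf : Frame G μ π) (v : V) : G.Adj v (π v) :=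
  (hf.adj v _).2 (Or.inr (Or.inl rfl))

theorem joined_zone (hf : Frame G μ π) (R q : ℕ) (a : V) : Joined G (zone G π R q a) := by
  unfold zone
  have key : ∀ n : ℕ, Joined G ((range (n + 1)).biUnion fun j => Bl G.Adj R ((π ^ j) a)) := by
    intro n
    induction n with
    | zero => simpa using joined_ball R a
    | succ n ih =>
      rw [range_add_one, biUnion_insert, union_comm]
      refine joined_union ih (joined_ball R _) (x := (π ^ n) a) (y := (π ^ (n + 1)) a) ?_ ?_ ?_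
      · exact mem_biUnion.2 ⟨n, mem_range.2 (by omega), Bl_self R _⟩
      · exact Bl_self R _
      · rw [pow_succ', Equiv.Perm.mul_apply]
        exact hf.adj_pi _
  exact key (2 * q)

theorem zone_card_le (hf : Frame G μ π) (R q : ℕ) (a : V) :
    (zone G π R q a).card ≤ (2 * q + 1) * (3 * 2 ^ R) := by
  unfold zone
  refine (card_biUnion_le_card_mul _ _ (3 * 2 ^ R) fun j _ => ?_).trans (by simp)
  have := Bl_card G hf.deg R ((π ^ j) a)
  omega

/-- Few windows are near to a given one. -/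
theorem zone_conf (hf : Frame G μ π) (R q : ℕ) (x : V) (T : Finset V)
    (hT : ∀ y ∈ T, ¬ Disjoint (zone G π R q x) (zone G π R q y)) :
    T.card ≤ (2 * q + 1) ^ 2 * (3 * 4 ^ R) := by
  classical
  have hsub : T ⊆ (range (2 * q + 1)).biUnion fun i => (range (2 * q + 1)).biUnion fun j =>
      (Bl G.Adj (R + R) ((π ^ i) x)).image fun z => (π ^ j).symm z := by
    intro y hy
    have h1 := hT y hy
    rw [Finset.not_disjoint_iff] at h1
    obtain ⟨z, hz1, hz2⟩ := h1
    unfold zone at hz1 hz2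
    obtain ⟨i, hi, hz1⟩ := mem_biUnion.1 hz1
    obtain ⟨j, hj, hz2⟩ := mem_biUnion.1 hz2
    refine mem_biUnion.2 ⟨i, hi, mem_biUnion.2 ⟨j, hj, mem_image.2 ⟨(π ^ j) y, ?_, ?_⟩⟩⟩
    · exact Bl_comp hz1 (Bl_symm (fun u v h => h.symm) hz2)
    · exact Equiv.symm_apply_apply _ _
  refine (card_le_card hsub).trans ?_
  refine (card_biUnion_le_card_mul _ _ ((2 * q + 1) * (3 * 4 ^ R)) fun i _ => ?_).trans ?_
  · refine (card_biUnion_le_card_mul _ _ (3 * 4 ^ R) fun j _ => ?_).trans (by simp)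
    refine card_image_le.trans ?_
    have h2 := Bl_card G hf.deg (R + R) ((π ^ i) x)
    have h4 : 2 ^ (R + R) = 4 ^ R := by
      rw [← two_mul, pow_mul]; norm_num
    rw [h4] at h2
    omega
  · rw [card_range]
    exact le_of_eq (by ring)

/-- W3: windows with disjoint zones, few of them split by every large set of the family. -/
theorem exists_windows (h R : ℕ) (hh : 0 < h) (κ : ℝ) : ∃ c : ℕ, 0 < c ∧ ∀ q, 1 ≤ q →
    ∀ N₀ : ℕ, ∃ D₀ : ℕ, ∀ {V : Type} [Fintype V] [DecidableEq V] (G : SimpleGraph V)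
    [DecidableRel G.Adj] {μ : V → V} {π : Equiv.Perm V}, Frame G μ π →
    (∀ v n, 0 < n → n < c * q ^ 2 → (π ^ n) v ≠ v) →
    ∀ Fam : Finset (Finset V), (∀ Z ∈ Fam, D₀ ≤ dd G Z) →
    (∀ v D, ((Fam.filter fun Z => v ∈ Z ∧ dd G Z = D).card : ℝ) ≤ N₀ * Real.exp (κ * D)) →
    ∃ A, Win G π R q (c * q ^ 2) A ∧
      ∀ Z ∈ Fam, h * (A.filter fun a => Cuts (zone G π R q a) Z).card ≤ dd G Z := by
  classical
  obtain ⟨L, hL0, hL⟩ := pick_zone h hh κ
  refine ⟨324 * L * 4 ^ R, by positivity, fun q hq N₀ => ?_⟩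
  obtain ⟨D₀, hD₀⟩ := hL ((2 * q + 1) * (3 * 2 ^ R)) N₀
  refine ⟨D₀, ?_⟩
  intro V _ _ G _ μ π hf hπ Fam hFD hcount
  set Δ : ℕ := (2 * q + 1) ^ 2 * (3 * 4 ^ R) with hΔ
  set M : ℕ := L * (4 * Δ) with hM
  have hΔ0 : 0 < Δ := by positivity
  have hM0 : 0 < M := by positivity
  have h3M : 3 * M ≤ 324 * L * 4 ^ R * q ^ 2 := by
    have h1 : (2 * q + 1) ^ 2 ≤ 9 * q ^ 2 := by nlinarith
    calc 3 * M = 36 * L * 4 ^ R * (2 * q + 1) ^ 2 := by rw [hM, hΔ]; ring
      _ ≤ 36 * L * 4 ^ R * (9 * q ^ 2) := Nat.mul_le_mul_left _ h1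
      _ = 324 * L * 4 ^ R * q ^ 2 := by ring
  obtain ⟨I, hI1, hI2⟩ := exists_arcs (π := π) hM0 fun v n hn hnM => hπ v n hn (by omega)
  -- the classes of starts
  let cl : {a // a ∈ I} × Fin L → Finset V := fun p =>
    (range (4 * Δ)).image fun m => (π ^ (p.2.val * (4 * Δ) + m)) p.1.1
  have hpos : ∀ (b : Fin L) (m : ℕ), m < 4 * Δ → b.val * (4 * Δ) + m < M := by
    intro b m hm
    have h1 : (b.val + 1) * (4 * Δ) ≤ L * (4 * Δ) := Nat.mul_le_mul_right _ b.2
    rw [add_mul, one_mul] at h1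
    omega
  obtain ⟨f, hf1, hf2⟩ := exists_transversal cl (by
      rintro ⟨⟨a, ha⟩, b⟩ ⟨⟨a', ha'⟩, b'⟩ hne
      rw [Finset.disjoint_left]
      intro v hv hv'
      obtain ⟨m, hm, rfl⟩ := mem_image.1 hv
      obtain ⟨m', hm', he⟩ := mem_image.1 hv'
      rw [mem_range] at hm hm'
      obtain ⟨h1, h2⟩ := hI1 a' ha' a ha _ (hpos b' m' hm') _ (hpos b m hm) he
      subst h1
      have h3 : b'.val = b.val := by
        have e1 : (b'.val * (4 * Δ) + m') / (4 * Δ) = b'.val := by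
          rw [mul_comm, Nat.mul_add_div (by omega), Nat.div_eq_of_lt hm', add_zero]
        have e2 : (b.val * (4 * Δ) + m) / (4 * Δ) = b.val := by
          rw [mul_comm, Nat.mul_add_div (by omega), Nat.div_eq_of_lt hm, add_zero]
        rw [← e1, ← e2]
        exact congrArg (· / (4 * Δ)) h2
      exact hne (by rw [Fin.ext h3]))
    (fun x y => ¬ Disjoint (zone G π R q x) (zone G π R q y))
    (fun x y h h' => h h'.symm) hΔ0 (fun x T hT => zone_conf hf R q x T hT)
    (by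
      rintro ⟨⟨a, ha⟩, b⟩
      have h1 : (cl ⟨⟨a, ha⟩, b⟩).card = 4 * Δ := by
        simp only [cl]
        rw [card_image_of_injOn, card_range]
        intro m hm m' hm' he
        rw [mem_coe, mem_range] at hm hm'
        have := (hI1 a ha a ha _ (hpos b m hm) _ (hpos b m' hm') he).2
        omega
      rw [h1])
  obtain ⟨t, ht⟩ := hD₀ G (ι := {a // a ∈ I}) (fun i b => zone G π R q (f (i, b)))
    (fun i b => joined_zone hf R q _) (fun i b => zone_card_le hf R q _)
    (fun i a j b hne => by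
      have := hf2 _ _ hne
      simpa only [not_not] using this) Fam hFD hcount
  refine ⟨univ.image fun i => f (i, t i), ⟨?_, ?_⟩, ?_⟩
  · intro a ha a' ha' hne
    obtain ⟨i, -, rfl⟩ := mem_image.1 ha
    obtain ⟨j, -, rfl⟩ := mem_image.1 ha'
    have := hf2 (i, t i) (j, t j) (fun h => hne (by rw [h]))
    simpa only [not_not] using this
  · intro v
    obtain ⟨n, hn, hnI⟩ := hI2 v
    obtain ⟨m, hm, he⟩ := mem_image.1 (hf1 (⟨_, hnI⟩, t ⟨_, hnI⟩))
    rw [mem_range] at hm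
    have hlt := hpos (t ⟨_, hnI⟩) m hm
    have e1 : ∀ x, (π ^ (x + n)) v = (π ^ x) ((π ^ n) v) := fun x => by
      rw [pow_add, Equiv.Perm.mul_apply]
    exact ⟨(t ⟨_, hnI⟩).val * (4 * Δ) + m + n, by omega, mem_image.2 ⟨⟨_, hnI⟩, mem_univ _,
      he.symm.trans (e1 _).symm⟩⟩
  · intro Z hZ
    refine le_trans (Nat.mul_le_mul_left h ?_) (ht Z hZ)
    rw [filter_image]
    refine card_image_le.trans (card_le_card fun i hi => ?_)
    rw [mem_filter] at hi ⊢
    refine ⟨mem_univ _, ?_⟩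
    exact hi.2

end Pool.Agent.K5
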