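import Mathlib
import Pool.Agent.Work.MP_974d84_co_log.Tree
import Pool.Agent.Work.MP_974d84_co_k5.DefsW

/-!
# W0: reduced words act freely on a cubic graph of large girth
-/

set_option linter.unusedSectionVars false

namespace Pool.Agent.K5

open Finset SimpleGraph Pool.Agent.Exp Pool.Agent.Log5 Pool.Agent.Log5.Clu

namespace Wd

variable {V : Type}

/-- A letter acts. -/
def ltr (μ : V → V) (π : Equiv.Perm V) : Option Bool → V → V
  | none, v => μ v
  | some b, v => stp π b v

theorem act_nil (μ : V → V) (π : Equiv.Perm V) (v : V) : act μ π [] v = v := rfl

theorem act_cons (μ : V → V) (π : Equiv.Perm V) (x : Option Bool) (w : List (Option Bool))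
    (v : V) : act μ π (x :: w) v = ltr μ π x (act μ π w v) := by
  cases x <;> rfl

theorem act_append (μ : V → V) (π : Equiv.Perm V) (u w : List (Option Bool)) (v : V) :
    act μ π (u ++ w) v = act μ π u (act μ π w v) := by
  induction u with
  | nil => rfl
  | cons x u ih => rw [List.cons_append, act_cons, act_cons, ih]

theorem linv_linv (x : Option Bool) : linv (linv x) = x := by
  rcases x with _ | b
  · rfl
  · cases b <;> rfl

theorem linv_inj {x y : Option Bool} (h : linv x = linv y) : x = y := by
  rw [← linv_linv x, h, linv_linv]

theorem stp_not (π : Equiv.Perm V) (b : Bool) (v : V) : stp π (!b) (stp π b v) = v := by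
  cases b <;> simp [stp]

/-- The inverse word. -/
def winv (w : List (Option Bool)) : List (Option Bool) := (w.map linv).reverse

theorem winv_cons (x : Option Bool) (w : List (Option Bool)) :
    winv (x :: w) = winv w ++ [linv x] := by
  simp [winv]

theorem length_winv (w : List (Option Bool)) : (winv w).length = w.length := by
  simp [winv]

theorem red_winv {w : List (Option Bool)} (h : Red w) : Red (winv w) := by
  unfold Red winv at *
  rw [List.isChain_reverse, List.isChain_map]
  refine h.imp fun x y hxy => ?_
  show linv y ≠ linv (linv x)
  rw [linv_linv]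
  intro h1
  exact hxy h1.symm

/-- The word of a tree vertex. -/
def tw : List Bool → List (Option Bool)
  | [] => [none]
  | b :: c => none :: some b :: tw c

theorem length_tw (c : List Bool) : (tw c).length = 2 * c.length + 1 := by
  induction c with
  | nil => rfl
  | cons b c ih =>
    show ((tw c).length + 1) + 1 = 2 * (c.length + 1) + 1
    omega

theorem act_tw (μ : V → V) (π : Equiv.Perm V) (v : V) (c : List Bool) :
    act μ π (tw c) v = TT μ π v c := by
  induction c with
  | nil => rfl
  | cons b c ih =>
    show μ (stp π b (act μ π (tw c) v)) = μ (stp π b (TT μ π v c))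
    rw [ih]

theorem act_rep_true (μ : V → V) (π : Equiv.Perm V) (n : ℕ) (v : V) :
    act μ π (List.replicate n (some true)) v = (π ^ n) v := by
  induction n with
  | zero => rfl
  | succ n ih =>
    rw [List.replicate_succ, act_cons, ih, pow_succ', Equiv.Perm.mul_apply]
    rfl

theorem act_rep_false (μ : V → V) (π : Equiv.Perm V) (n : ℕ) (v : V) :
    act μ π (List.replicate n (some false)) ((π ^ n) v) = v := by
  induction n with
  | zero => rfl
  | succ n ih =>
    have h1 : List.replicate (n + 1) (some false) = List.replicate n (some false) ++ [some false] := by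
      rw [← List.replicate_succ']
    rw [h1, act_append]
    have h2 : act μ π [some false] ((π ^ (n + 1)) v) = (π ^ n) v := by
      show stp π false ((π ^ (n + 1)) v) = (π ^ n) v
      rw [pow_succ', Equiv.Perm.mul_apply]
      simp [stp]
    rw [h2, ih]

theorem red_replicate (n : ℕ) (b : Bool) : Red (List.replicate n (some b)) := by
  unfold Red
  rw [List.isChain_iff_getElem]
  intro i hi
  simp only [List.getElem_replicate]
  cases b <;> simp [linv]

/-- A replicate, a tree word and a replicate. -/
theorem red_sandwich (m i : ℕ) (b b' : Bool) (c : List Bool) :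
    Red (List.replicate m (some b) ++ (tw c ++ List.replicate i (some b'))) := by
  have h1 : ∀ c : List Bool, Red (tw c ++ List.replicate i (some b')) := by
    intro c
    induction c with
    | nil =>
      show Red (none :: List.replicate i (some b'))
      cases i with
      | zero => simp [Red]
      | succ i =>
        rw [List.replicate_succ]
        unfold Red
        rw [List.isChain_cons_cons]
        refine ⟨by simp [linv], ?_⟩
        have := red_replicate (i + 1) b'
        rw [List.replicate_succ] at this
        exact this
    | cons b c ih =>
      show Red (none :: some b :: (tw c ++ List.replicate i (some b')))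
      have hh : ∃ t, tw c ++ List.replicate i (some b') = none :: t := by
        cases c with
        | nil => exact ⟨_, rfl⟩
        | cons b c => exact ⟨_, rfl⟩
      obtain ⟨t, ht⟩ := hh
      rw [ht] at ih ⊢
      unfold Red at ih ⊢
      rw [List.isChain_cons_cons, List.isChain_cons_cons]
      exact ⟨by simp [linv], by simp [linv], ih⟩
  have hh : ∃ t, tw c ++ List.replicate i (some b') = none :: t := by
    cases c with
    | nil => exact ⟨_, rfl⟩
    | cons b c => exact ⟨_, rfl⟩
  obtain ⟨t, ht⟩ := hh
  have h2 := h1 c
  rw [ht] at h2 ⊢
  induction m with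
  | zero => exact h2
  | succ m ih =>
    rw [List.replicate_succ, List.cons_append]
    cases m with
    | zero =>
      show Red (some b :: none :: t)
      unfold Red at h2 ⊢
      rw [List.isChain_cons_cons]
      exact ⟨by simp [linv], h2⟩
    | succ m =>
      rw [List.replicate_succ, List.cons_append] at ih ⊢
      unfold Red at ih ⊢
      rw [List.isChain_cons_cons]
      exact ⟨by cases b <;> simp [linv], ih⟩

theorem rep_none {m n : ℕ} {b : Bool} {s t : List (Option Bool)}
    (h : List.replicate m (some b) ++ none :: s = List.replicate n (some b) ++ none :: t) :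
    m = n ∧ s = t := by
  induction m generalizing n with
  | zero =>
    cases n with
    | zero =>
      simp only [List.replicate_zero, List.nil_append, List.cons.injEq, true_and] at h
      exact ⟨rfl, h⟩
    | succ n =>
      rw [List.replicate_succ] at h
      simp at h
  | succ m ih =>
    cases n with
    | zero =>
      rw [List.replicate_succ] at h
      simp at h
    | succ n =>
      rw [List.replicate_succ, List.replicate_succ, List.cons_append, List.cons_append,
        List.cons.injEq] at h
      obtain ⟨h1, h2⟩ := ih h.2
      exact ⟨by rw [h1], h2⟩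

theorem tw_rep {c d : List Bool} {i j : ℕ} {b : Bool}
    (h : tw c ++ List.replicate i (some b) = tw d ++ List.replicate j (some b)) :
    c = d ∧ i = j := by
  have hnone : ∀ (i : ℕ) (b : Bool), none ∉ List.replicate i (some b) := by
    intro i b h
    have := List.eq_of_mem_replicate h
    simp at this
  have hmem : ∀ c : List Bool, none ∈ tw c := by
    intro c
    cases c with
    | nil => simp [tw]
    | cons b c => simp [tw]
  induction c generalizing d with
  | nil =>
    cases d with
    | nil =>
      simp only [tw, List.cons_append, List.nil_append, List.cons.injEq, true_and] at h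
      have := congrArg List.length h
      simp only [List.length_replicate] at this
      exact ⟨rfl, this⟩
    | cons b' d =>
      exfalso
      simp only [tw, List.cons_append, List.nil_append, List.cons.injEq, true_and] at h
      have h1 : none ∈ List.replicate i (some b) := by
        rw [h]
        exact List.mem_cons_of_mem _ (List.mem_append_left _ (hmem d))
      exact hnone _ _ h1
  | cons b' c ih =>
    cases d with
    | nil =>
      exfalso
      simp only [tw, List.cons_append, List.nil_append, List.cons.injEq, true_and] at h
      have h1 : none ∈ List.replicate j (some b) := by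
        rw [← h]
        exact List.mem_cons_of_mem _ (List.mem_append_left _ (hmem c))
      exact hnone _ _ h1
    | cons b'' d =>
      simp only [tw, List.cons_append, List.cons.injEq, true_and, Option.some.injEq] at h
      obtain ⟨h1, h2⟩ := h
      obtain ⟨h3, h4⟩ := ih h2
      exact ⟨by rw [h1, h3], h4⟩

end Wd

open Wd

variable {V : Type} [Fintype V] [DecidableEq V] {G : SimpleGraph V} [DecidableRel G.Adj]
  {μ : V → V} {π : Equiv.Perm V}

theorem ltr_linv (hf : Frame G μ π) (x : Option Bool) (v : V) :
    ltr μ π (linv x) (ltr μ π x v) = v := by
  rcases x with _ | b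
  · exact hf.mu_mu v
  · exact stp_not π b v

theorem ltr_adj (hf : Frame G μ π) (x : Option Bool) (v : V) : G.Adj v (ltr μ π x v) := by
  rw [hf.adj]
  rcases x with _ | b
  · exact Or.inl rfl
  · cases b
    · exact Or.inr (Or.inr rfl)
    · exact Or.inr (Or.inl rfl)

theorem ltr_inj (hf : Frame G μ π) {x y : Option Bool} {v : V}
    (h : ltr μ π x v = ltr μ π y v) : x = y := by
  have h1 := hf.mu_ne v
  have h2 := hf.mu_ne' v
  have h3 := hf.pi_ne v
  rcases x with _ | b <;> rcases y with _ | b'
  · rfl
  · cases b'
    · exact absurd h h2
    · exact absurd h h1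
  · cases b
    · exact absurd h.symm h2
    · exact absurd h.symm h1
  · cases b <;> cases b'
    · rfl
    · exact absurd h.symm h3
    · exact absurd h h3
    · rfl

theorem act_winv (hf : Frame G μ π) (w : List (Option Bool)) (v : V) :
    act μ π (winv w) (act μ π w v) = v := by
  induction w with
  | nil => rfl
  | cons x w ih =>
    rw [winv_cons, act_append, act_cons μ π x w, act_cons, act_nil, ltr_linv hf, ih]

/-- Reduced words have no fixed points. -/
theorem act_ne (hf : Frame G μ π) {k : ℕ} (hg : Gir G k) {w : List (Option Bool)} (hw : Red w)
    (hne : w ≠ []) (hk : w.length + 1 < k) (v : V) : act μ π w v ≠ v := by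
  have hd : ∀ i < w.length, ∃ b, w.drop i = b :: w.drop (i + 1) := fun i hi =>
    ⟨w.get ⟨i, hi⟩, List.drop_eq_getElem_cons hi⟩
  have h := nonback_ne_of_gir hg (fun i => act μ π (w.drop (w.length - i)) v) w.length hk
    (fun i hi => by
      obtain ⟨b, hb⟩ := hd (w.length - (i + 1)) (by omega)
      have e1 : w.length - (i + 1) + 1 = w.length - i := by omega
      rw [e1] at hb
      rw [hb, act_cons]
      exact ltr_adj hf b _)
    (fun i hi => by
      obtain ⟨b, hb⟩ := hd (w.length - (i + 1)) (by omega)
      obtain ⟨b', hb'⟩ := hd (w.length - (i + 2)) (by omega)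
      have e1 : w.length - (i + 1) + 1 = w.length - i := by omega
      have e2 : w.length - (i + 2) + 1 = w.length - (i + 1) := by omega
      rw [e1] at hb
      rw [e2] at hb'
      rw [hb', act_cons, hb, act_cons]
      intro h0
      have hred : Red (b' :: b :: w.drop (w.length - i)) := by
        rw [← hb, ← hb']
        exact hw.suffix (List.drop_suffix _ _)
      have hbb : b' ≠ linv b := (List.isChain_cons_cons.1 hred).1
      have h1 : ltr μ π (linv b') (act μ π (w.drop (w.length - i)) v) =
          ltr μ π b (act μ π (w.drop (w.length - i)) v) := by
        conv_lhs => rw [h0]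
        exact ltr_linv hf b' _
      have h2 := ltr_inj hf h1
      exact hbb (by rw [← h2, linv_linv]))
    (List.length_pos_iff.2 hne)
  simp only [Nat.sub_zero, List.drop_length, Nat.sub_self, List.drop_zero, act_nil] at h
  exact h.symm

theorem act_uniq (hf : Frame G μ π) {k : ℕ} (hg : Gir G k)
    {w w' : List (Option Bool)} (hw : Red w) (hw' : Red w') (hk : w.length + w'.length + 1 < k)
    {v : V} (h : act μ π w v = act μ π w' v) : w = w' := by
  induction w generalizing w' with
  | nil =>
    by_contra hne
    exact act_ne hf hg hw' (fun h0 => hne h0.symm) (by simpa using hk) v h.symm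
  | cons x u ih =>
    cases w' with
    | nil =>
      exact absurd h (act_ne hf hg hw (by simp) (by simpa using hk) v)
    | cons y u' =>
      by_cases hxy : x = y
      · subst hxy
        rw [act_cons, act_cons] at h
        have h1 : act μ π u v = act μ π u' v := by
          rw [← ltr_linv hf x (act μ π u v), h, ltr_linv hf]
        simp only [List.length_cons] at hk
        have hu : Red u := List.IsChain.tail hw
        have hu' : Red u' := List.IsChain.tail hw'
        rw [ih hu hu' (by omega) h1]
      · exfalso
        have h1 : act μ π (winv (y :: u') ++ (x :: u)) v = v := by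
          rw [act_append, h, act_winv hf]
        refine act_ne hf hg ?_ (by simp) ?_ v h1
        · unfold Red
          rw [List.isChain_append]
          refine ⟨red_winv hw', hw, ?_⟩
          intro a ha b hb
          rw [winv_cons] at ha
          simp only [List.getLast?_append, List.getLast?_singleton, Option.some_or,
            Option.mem_def, Option.some.injEq] at ha
          simp only [List.head?_cons, Option.mem_def, Option.some.injEq] at hb
          rw [← ha, ← hb]
          intro h2
          exact hxy (linv_inj h2).symm
        · rw [List.length_append, length_winv]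
          omega

theorem pow_ne (hf : Frame G μ π) {k : ℕ} (hg : Gir G k) {n : ℕ} (hn : 0 < n)
    (hk : n + 1 < k) (v : V) : (π ^ n) v ≠ v := by
  rw [← act_rep_true μ π n v]
  exact act_ne hf hg (red_replicate n true) (by simp; omega) (by simpa using hk) v

/-- Two tree vertices of a window which are near to each other along the circuits agree. -/
theorem tree_uniq (hf : Frame G μ π) {k : ℕ} (hg : Gir G k) {a b : V}
    {i j m n : ℕ} {c d : List Bool} (hk : i + j + m + n + 2 * c.length + 2 * d.length + 8 < k)
    (h1 : (π ^ m) b = TT μ π ((π ^ i) a) c) (h2 : (π ^ n) b = TT μ π ((π ^ j) a) d) :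
    i = j ∧ m = n ∧ c = d := by
  have key : ∀ (i m : ℕ) (c : List Bool), (π ^ m) b = TT μ π ((π ^ i) a) c →
      act μ π (List.replicate m (some false) ++ (tw c ++ List.replicate i (some true))) a = b := by
    intro i m c h
    rw [act_append, act_append, act_rep_true, act_tw, ← h, act_rep_false]
  have h3 := act_uniq hf hg (red_sandwich m i false true c) (red_sandwich n j false true d)
    (by
      simp only [List.length_append, List.length_replicate, length_tw]
      omega) ((key i m c h1).trans (key j n d h2).symm)
  have hh : ∀ (c : List Bool) (i : ℕ), ∃ t, tw c ++ List.replicate i (some true) = none :: t := by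
    intro c i
    cases c with
    | nil => exact ⟨_, rfl⟩
    | cons b c => exact ⟨_, rfl⟩
  obtain ⟨t, ht⟩ := hh c i
  obtain ⟨t', ht'⟩ := hh d j
  have h4 := h3
  rw [ht, ht'] at h4
  obtain ⟨h5, h6⟩ := rep_none h4
  rw [h6] at ht
  obtain ⟨h7, h8⟩ := tw_rep (ht.trans ht'.symm)
  exact ⟨h8, h5, h7⟩

/-- Tree vertices of a window are far from the window along the circuits. -/
theorem tree_ne (hf : Frame G μ π) {k : ℕ} (hg : Gir G k) {a : V}
    {i m n : ℕ} {c : List Bool} (hk : i + m + n + 2 * c.length + 4 < k) :
    (π ^ m) (TT μ π ((π ^ i) a) c) ≠ (π ^ n) a := by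
  intro h
  have h1 : act μ π (List.replicate m (some true) ++ (tw c ++ List.replicate i (some true))) a =
      act μ π (List.replicate n (some true)) a := by
    rw [act_append, act_append, act_rep_true, act_tw, act_rep_true, act_rep_true, h]
  have h2 := act_uniq hf hg (red_sandwich m i true true c) (red_replicate n true)
    (by
      simp only [List.length_append, List.length_replicate, length_tw]
      omega) h1
  have h3 : none ∈ List.replicate n (some true) := by
    rw [← h2]
    refine List.mem_append_right _ (List.mem_append_left _ ?_)
    cases c with
    | nil => simp [tw]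
    | cons b c => simp [tw]
  have := List.eq_of_mem_replicate h3
  simp at this

/-- A word moves a vertex by at most its length. -/
theorem act_mem_Bl (hf : Frame G μ π) (w : List (Option Bool)) (v : V) :
    act μ π w v ∈ Bl G.Adj w.length v := by
  induction w with
  | nil => exact mem_Bl_zero.2 rfl
  | cons x w ih =>
    rw [act_cons, List.length_cons]
    exact mem_Bl_succ.2 (Or.inr ⟨_, ih, ltr_adj hf x _⟩)

theorem TT_mem_Bl (hf : Frame G μ π) (v : V) (c : List Bool) :
    TT μ π v c ∈ Bl G.Adj (2 * c.length + 1) v := by
  have h := act_mem_Bl hf (tw c) v
  rwa [act_tw, length_tw] at h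

theorem pow_mem_Bl (hf : Frame G μ π) (n : ℕ) (v : V) : (π ^ n) v ∈ Bl G.Adj n v := by
  have h := act_mem_Bl hf (List.replicate n (some true)) v
  rwa [act_rep_true, List.length_replicate] at h

theorem stp_adj (hf : Frame G μ π) (b : Bool) (v : V) : G.Adj v (stp π b v) :=
  ltr_adj hf (some b) v

theorem mu_adj (hf : Frame G μ π) (v : V) : G.Adj v (μ v) := ltr_adj hf none v

/-- Different tree vertices of one vertex are different. -/
theorem TT_inj (hf : Frame G μ π) {k : ℕ} (hg : Gir G k) {v : V} {c d : List Bool}
    (hk : 2 * c.length + 2 * d.length + 8 < k) (h : TT μ π v c = TT μ π v d) : c = d :=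
  (tree_uniq hf hg (a := v) (b := TT μ π v c) (i := 0) (j := 0) (m := 0) (n := 0) (by omega)
    rfl h).2.2

end Pool.Agent.K5
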