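import Mathlib
import Pool.Agent.Work.MP_974d84_co_iso.Near
import Pool.Agent.Work.MP_974d84_co_k5.DefsE
import Pool.Agent.Work.MP_974d84_co_k5.Words
import Pool.Agent.Work.MP_974d84_co_k5.Windows
import Pool.Agent.Work.MP_974d84_co_k5.PickZone
import Pool.Agent.Work.MP_974d84_co_k5.LsvT

/-!
# ROOM BG: the charges of the marks are carried by ordinary defects (rounding digit by digit)
-/

set_option linter.unusedSectionVars false
set_option linter.unusedVariables false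

namespace Pool.Agent.K5.BoxM

open Finset SimpleGraph Pool.Agent.Exp Pool.Agent.Log5 Pool.Agent.Log5.Clu Pool.Agent.K5

/-- The rounding of the charges of the candidates: the selected candidates are reserved. -/
theorem round_cand {V 𝒳 : Type*} [DecidableEq V] (A : Finset V)
    (W : V → ℤ → 𝒳 → ℝ) (e : 𝒳 → ℝ) (he : ∀ X, 0 ≤ e X) (t : V → ℤ)
    (ht : ∀ a, t a = 1 ∨ t a = -1)
    (h : ∀ T' ⊆ A, Even T'.card → ∃ ε : V → ℤ, (∀ v, ε v = 1 ∨ ε v = -1) ∧
      ∑ a ∈ T', ε a = 0 ∧ ∀ X, |∑ a ∈ T', (ε a : ℝ) * W a (-t a) X| ≤ e X)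
    (u : V → ℝ) (hu : ∀ a ∈ A, 0 ≤ u a ∧ u a ≤ 1) (n : ℤ) (hn : ∑ a ∈ A, (t a : ℝ) * u a = n) :
    ∃ Rm ⊆ A, ∑ a ∈ Rm, t a = n ∧ Even ((Rm.card : ℤ) - n) ∧
      ∀ X, |∑ a ∈ A, ((t a : ℝ) * u a) * W a (-t a) X + ∑ a ∈ Rm, ((-t a : ℤ) : ℝ) * W a (-t a) X|
        ≤ e X := by
  classical
  have hround := Lsv.round_signed (ι := {a // a ∈ A}) (𝒳 := 𝒳) (fun i X => W i (-t i) X) e he
    (fun T' hT' => by
      obtain ⟨ε, h1, h2, h3⟩ := h (T'.map (Function.Embedding.subtype _))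
        (fun a ha => by
          rw [mem_map] at ha
          obtain ⟨i, -, hi⟩ := ha
          rw [← hi]
          exact i.2)
        (by rw [card_map]; exact hT')
      refine ⟨fun i => ε i, fun i => h1 i, ?_, fun X => ?_⟩
      · rw [sum_map] at h2
        exact h2
      · have h4 := h3 X
        rw [sum_map] at h4
        exact h4)
    (fun i => t i) (fun i => ht i) (fun i => u i) (fun i => hu i i.2) n
    (by
      rw [← hn, ← sum_attach A]
      rfl)
  obtain ⟨u₀, h1, h2, h3⟩ := hround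
  set u' : V → ℤ := fun a => if ha : a ∈ A then u₀ ⟨a, ha⟩ else 0 with hu'
  have hu'A : ∀ i : {a // a ∈ A}, u' i = u₀ i := by
    intro i
    simp [hu']
  have hu01 : ∀ a, u' a = 0 ∨ u' a = 1 := by
    intro a
    by_cases ha : a ∈ A
    · simp only [hu', ha, dif_pos]
      exact h1 _
    · left
      simp [hu', ha]
  have hsum : ∑ a ∈ A, t a * u' a = n := by
    rw [← h2, ← sum_attach A]
    refine sum_congr rfl fun i _ => ?_
    rw [hu'A i]
  have herr : ∀ X, |∑ a ∈ A, (t a : ℝ) * ((u' a : ℝ) - u a) * W a (-t a) X| ≤ e X := by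
    intro X
    rw [← sum_attach A]
    refine le_trans (le_of_eq ?_) (h3 X)
    congr 1
    refine sum_congr rfl fun i _ => ?_
    rw [hu'A i]
  set Sl : Finset V := A.filter fun a => u' a = 1 with hSl
  have hfl : ∀ f : V → ℝ, ∑ a ∈ Sl, f a = ∑ a ∈ A, (u' a : ℝ) * f a := by
    intro f
    rw [hSl, sum_filter]
    refine sum_congr rfl fun a _ => ?_
    rcases hu01 a with h4 | h4 <;> simp [h4]
  have hflZ : ∀ f : V → ℤ, ∑ a ∈ Sl, f a = ∑ a ∈ A, u' a * f a := by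
    intro f
    rw [hSl, sum_filter]
    refine sum_congr rfl fun a _ => ?_
    rcases hu01 a with h4 | h4 <;> simp [h4]
  refine ⟨Sl, filter_subset _ _, ?_, ?_, fun X => ?_⟩
  · rw [hflZ, ← hsum]
    exact sum_congr rfl fun a _ => mul_comm _ _
  · have h5 : (Sl.card : ℤ) = ∑ a ∈ Sl, (1 : ℤ) := by simp
    rw [h5, ← hsum, hflZ, ← sum_sub_distrib]
    refine even_sum _ fun a _ => ?_
    rcases ht a with h7 | h7
    · simp [h7]
    · rw [h7]
      exact ⟨u' a, by ring⟩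
  · have h9 : ∑ x ∈ Sl, ((-t x : ℤ) : ℝ) * W x (-t x) X =
        -∑ a ∈ A, (t a : ℝ) * ((u' a : ℝ) - u a) * W a (-t a) X -
          ∑ a ∈ A, ((t a : ℝ) * u a) * W a (-t a) X := by
      rw [hfl, ← sum_neg_distrib, ← sum_sub_distrib]
      refine sum_congr rfl fun a _ => ?_
      push_cast
      ring
    have h10 : ∑ a ∈ A, ((t a : ℝ) * u a) * W a (-t a) X +
        ∑ x ∈ Sl, ((-t x : ℤ) : ℝ) * W x (-t x) X =
        -∑ a ∈ A, (t a : ℝ) * ((u' a : ℝ) - u a) * W a (-t a) X := by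
      rw [h9]
      ring
    rw [h10, abs_neg]
    exact herr X

section

variable {V : Type} [Fintype V] [DecidableEq V] {G : SimpleGraph V} [DecidableRel G.Adj]
variable {μ : V → V} {π : Equiv.Perm V} {p : V → V → ℝ} {D jm : ℕ}

theorem farm_uniq (hp : Marks G p) (hD : FarM G D p) {u v v' : V} (h : p u v ≠ 0)
    (h' : p u v' ≠ 0) : v' = v := by
  rcases hD u v u v' h h' (Bl_self _ _) with h1 | h1
  · exact h1.2
  · exact absurd (h1.1 ▸ hp.adj u v h) (G.loopless.irrefl _)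

theorem abs_sg (t : ℝ) : |(sg t : ℝ)| = 1 := by
  unfold sg
  split_ifs <;> simp

/-- The charge of an end is small. -/
theorem abs_chm (hp : Marks G p) (hD : FarM G D p) (u : V) : |chm μ p u| ≤ 2 / 5 := by
  classical
  unfold chm
  by_cases h : ∃ v, p u v ≠ 0
  · obtain ⟨v, hv⟩ := h
    rw [Finset.sum_eq_single v]
    · rw [if_neg hv]
      have h1 := hp.val u v hv
      split_ifs
      · rw [abs_div, abs_of_pos (by norm_num : (0 : ℝ) < 2)]
        rcases h1 with h1 | h1 <;> rw [h1] <;> norm_num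
      · rw [abs_div, abs_mul, abs_sg, one_mul, abs_of_pos (by norm_num : (0 : ℝ) < 2)]
        rcases h1 with h1 | h1 <;> rw [h1] <;> norm_num [abs_of_pos]
    · intro v' _ hne
      by_cases h0 : p u v' = 0
      · rw [if_pos h0]
      · exact absurd (farm_uniq hp hD hv h0) hne
    · intro h0
      exact absurd (mem_univ _) h0
  · push Not at h
    rw [Finset.sum_eq_zero fun v _ => by rw [if_pos (h v)]]
    norm_num

/-- At most two ends are near a vertex. -/
theorem ends_near (hp : Marks G p) (hD : FarM G D p) {ρ : ℕ} (hρ : ρ + ρ ≤ D) (x : V) :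
    ((ends p).filter fun u => x ∈ Bl G.Adj ρ u).card ≤ 2 := by
  classical
  rcases ((ends p).filter fun u => x ∈ Bl G.Adj ρ u).eq_empty_or_nonempty with h | ⟨u, hu⟩
  · rw [h]
    simp
  · obtain ⟨hu1, hu2⟩ := mem_filter.1 hu
    obtain ⟨v, hv⟩ := (mem_filter.1 hu1).2
    refine (card_le_card (t := {u, v}) fun u' hu' => ?_).trans card_le_two
    obtain ⟨hu1', hu2'⟩ := mem_filter.1 hu'
    obtain ⟨v', hv'⟩ := (mem_filter.1 hu1').2
    have h1 : u' ∈ Bl G.Adj ρ x := Bl_symm (fun _ _ h => h.symm) hu2'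
    have h2 : u' ∈ Bl G.Adj D u := Bl_mono hρ _ (Bl_comp hu2 h1)
    rw [mem_insert, mem_singleton]
    rcases hD u v u' v' hv hv' h2 with h3 | h3
    · exact Or.inl h3.1
    · exact Or.inr h3.1

/-- The leaves of the tree of an end. -/
noncomputable def lfm (μ : V → V) (π : Equiv.Perm V) (p : V → V → ℝ) (jm : ℕ)
    (x : V × (Fin jm → Bool)) : V := TT μ π (rtm μ p x.1) (List.ofFn x.2)

theorem lfm_ball (hf : Frame G μ π) (x : V × (Fin jm → Bool)) :
    lfm μ π p jm x ∈ Bl G.Adj (2 * jm + 2) x.1 := by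
  have h1 : rtm μ p x.1 ∈ Bl G.Adj 1 x.1 := by
    unfold rtm
    split_ifs
    · exact Bl_self _ _
    · exact mem_Bl_succ.2 (Or.inr ⟨x.1, Bl_self _ _, mu_adj hf _⟩)
  have h2 := TT_mem_Bl hf (rtm μ p x.1) (List.ofFn x.2)
  rw [List.length_ofFn] at h2
  exact Bl_mono (by omega) _ (Bl_comp h1 h2)

/-- Paths along the circuits from different leaves of one end do not meet. -/
theorem path_uniq (hf : Frame G μ π) {k M : ℕ} (hg : Gir G k) (hk : M + 4 * jm + 8 < k) {u : V}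
    {b b' : Fin jm → Bool} {i j : ℕ} (hi : i ≤ M) (hj : j ≤ M)
    (h : (π ^ i) (lfm μ π p jm (u, b)) = (π ^ j) (lfm μ π p jm (u, b'))) : i = j ∧ b = b' := by
  have key : ∀ {b b' : Fin jm → Bool} {i j : ℕ}, i ≤ j → j ≤ M →
      (π ^ i) (lfm μ π p jm (u, b)) = (π ^ j) (lfm μ π p jm (u, b')) → i = j ∧ b = b' := by
    intro b b' i j hij hj h
    have h1 : (π ^ (j - i)) (lfm μ π p jm (u, b')) = lfm μ π p jm (u, b) := by
      apply (π ^ i).injective
      rw [← Equiv.Perm.mul_apply, ← pow_add, show i + (j - i) = j by omega]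
      exact h.symm
    have h2 := tree_uniq hf hg (a := rtm μ p u) (b := lfm μ π p jm (u, b')) (i := 0) (j := 0)
      (m := j - i) (n := 0) (c := List.ofFn b) (d := List.ofFn b')
      (by rw [List.length_ofFn, List.length_ofFn]; omega) h1 rfl
    exact ⟨by omega, List.ofFn_injective h2.2.2⟩
  rcases le_total i j with hij | hij
  · exact key hij hj h
  · obtain ⟨h1, h2⟩ := key hij hi h.symm
    exact ⟨h1.symm, h2.symm⟩

/-- At most two paths go through a vertex. -/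
theorem path_fiber (hf : Frame G μ π) {k M : ℕ} (hg : Gir G k) (hk : M + 4 * jm + 8 < k)
    (hp : Marks G p) (hD : FarM G D p) (hMD : 2 * (2 * jm + 2 + M) ≤ D) (x : V)
    (F : Finset (V × (Fin jm → Bool)))
    (hF : ∀ z ∈ F, z.1 ∈ ends p ∧ ∃ i ≤ M, (π ^ i) (lfm μ π p jm z) = x) : F.card ≤ 2 := by
  classical
  refine le_trans ?_ (ends_near hp hD (ρ := 2 * jm + 2 + M) (by omega) x)
  refine card_le_card_of_injOn Prod.fst (fun z hz => ?_) ?_
  · obtain ⟨h1, i, hi, h2⟩ := hF z hz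
    refine mem_filter.2 ⟨h1, ?_⟩
    have h3 := Bl_comp (lfm_ball (p := p) hf z) (Bl_mono hi _ (pow_mem_Bl hf i (lfm μ π p jm z)))
    rwa [h2] at h3
  · rintro ⟨u, b⟩ hz ⟨u', b'⟩ hz' h
    simp only at h
    subst h
    obtain ⟨-, i, hi, h2⟩ := hF _ hz
    obtain ⟨-, j, hj, h3⟩ := hF _ hz'
    have h4 := path_uniq (p := p) hf hg hk hi hj (h2.trans h3.symm)
    rw [h4.2]

/-- The smeared end in terms of the leaves. -/
theorem sum_wmm_lfm (hf : Frame G μ π) {k : ℕ} (hg : Gir G k) (hk : 4 * jm + 8 < k) (u : V)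
    (X : Finset V) : ∑ v ∈ X, wmm μ π p jm u v =
      ∑ b : Fin jm → Bool, 1 / 2 ^ jm * (if lfm μ π p jm (u, b) ∈ X then (1 : ℝ) else 0) := by
  classical
  have hinj : ∀ b b' : Fin jm → Bool, lfm μ π p jm (u, b) = lfm μ π p jm (u, b') → b = b' :=
    fun b b' h => (path_uniq (p := p) hf hg (M := 0) (by omega) (i := 0) (j := 0) le_rfl le_rfl
      (by simpa using h)).2
  have h1 : ∀ v, wmm μ π p jm u v = ∑ b : Fin jm → Bool,
      1 / 2 ^ jm * (if lfm μ π p jm (u, b) = v then (1 : ℝ) else 0) := by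
    intro v
    unfold wmm
    by_cases h : ∃ c : List Bool, c.length = jm ∧ v = TT μ π (rtm μ p u) c
    · rw [if_pos h]
      obtain ⟨c, hc, hv⟩ := h
      subst hc
      have hv' : lfm μ π p c.length (u, c.get) = v := by
        unfold lfm
        rw [hv, List.ofFn_get]
      rw [Finset.sum_eq_single c.get]
      · rw [if_pos hv', mul_one]
      · intro b _ hb
        rw [if_neg, mul_zero]
        intro h2
        exact hb (hinj _ _ (h2.trans hv'.symm))
      · intro h2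
        exact absurd (mem_univ _) h2
    · rw [if_neg h, Finset.sum_eq_zero]
      intro b _
      rw [if_neg, mul_zero]
      intro h2
      exact h ⟨List.ofFn b, List.length_ofFn, h2.symm⟩
  rw [sum_congr rfl fun v _ => h1 v, sum_comm]
  refine sum_congr rfl fun b _ => ?_
  rw [← mul_sum, Finset.sum_ite_eq]

/-- A change along a circuit happens at one edge. -/
theorem exists_step (hf : Frame G μ π) (Z : Finset V) (v : V) (n : ℕ)
    (h : ¬ (v ∈ Z ↔ (π ^ n) v ∈ Z)) :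
    ∃ e ∈ Pool.Agent.Work.MP_314beb_co.cut G Z, ∃ i ≤ n, (π ^ i) v = e.1 := by
  classical
  induction n with
  | zero => exact absurd Iff.rfl h
  | succ n ih =>
    by_cases h1 : v ∈ Z ↔ (π ^ n) v ∈ Z
    · have h2 : ¬ ((π ^ n) v ∈ Z ↔ (π ^ (n + 1)) v ∈ Z) := fun h3 => h (h1.trans h3)
      have h4 : (π ^ (n + 1)) v = π ((π ^ n) v) := by
        rw [pow_succ', Equiv.Perm.mul_apply]
      by_cases h5 : (π ^ n) v ∈ Z
      · refine ⟨((π ^ n) v, (π ^ (n + 1)) v), (mem_cut G).2 ⟨h5, fun h6 => h2 ⟨fun _ => h6,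
          fun _ => h5⟩, ?_⟩, n, Nat.le_succ n, rfl⟩
        rw [h4]
        exact hf.adj_pi _
      · have h6 : (π ^ (n + 1)) v ∈ Z := by
          by_contra h7
          exact h2 ⟨fun h8 => absurd h8 h5, fun h8 => absurd h8 h7⟩
        refine ⟨((π ^ (n + 1)) v, (π ^ n) v), (mem_cut G).2 ⟨h6, h5, ?_⟩, n + 1, le_rfl, rfl⟩
        rw [h4]
        exact (hf.adj_pi _).symm
    · obtain ⟨e, he, i, hi, h2⟩ := ih h1
      exact ⟨e, he, i, by omega, h2⟩

/-- The indices of the leaves. -/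
noncomputable def idx (p : V → V → ℝ) (jm : ℕ) : Finset (V × (Fin jm → Bool)) :=
  ends p ×ˢ univ

/-- Few paths are cut. -/
theorem path_cut (hf : Frame G μ π) {k M : ℕ} (hg : Gir G k) (hk : M + 4 * jm + 8 < k)
    (hp : Marks G p) (hD : FarM G D p) (hMD : 2 * (2 * jm + 2 + M) ≤ D)
    (m : V × (Fin jm → Bool) → ℕ) (hm : ∀ z, m z ≤ M) (Z : Finset V) :
    ((idx p jm).filter fun z =>
      ¬ (lfm μ π p jm z ∈ Z ↔ (π ^ m z) (lfm μ π p jm z) ∈ Z)).card ≤ 2 * dd G Z := by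
  classical
  set F := (idx p jm).filter fun z =>
      ¬ (lfm μ π p jm z ∈ Z ↔ (π ^ m z) (lfm μ π p jm z) ∈ Z) with hF
  have key : ∀ z : V × (Fin jm → Bool), ∃ e : V × V, z ∈ F →
      e ∈ Pool.Agent.Work.MP_314beb_co.cut G Z ∧ ∃ i ≤ M, (π ^ i) (lfm μ π p jm z) = e.1 := by
    intro z
    by_cases hz : z ∈ F
    · obtain ⟨e, he, i, hi, h1⟩ := exists_step hf Z _ _ (mem_filter.1 hz).2
      exact ⟨e, fun _ => ⟨he, i, hi.trans (hm z), h1⟩⟩
    · exact ⟨(z.1, z.1), fun h => absurd h hz⟩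
  choose e he using key
  have h1 := Finset.card_le_mul_card_image (f := e) F 2 (fun x _ =>
    path_fiber hf hg hk hp hD hMD x.1 _ fun z hz => by
      obtain ⟨h2, h3⟩ := mem_filter.1 hz
      have h4 := (he z h2).2
      rw [h3] at h4
      exact ⟨(mem_product.1 (mem_filter.1 h2).1).1, h4⟩)
  refine h1.trans (Nat.mul_le_mul_left _ (card_le_card fun x hx => ?_))
  obtain ⟨z, hz, rfl⟩ := mem_image.1 hx
  exact (he z hz).1

/-- Few zones of candidates are cut. -/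
theorem zone_cut (hf : Frame G μ π) {R q B k M : ℕ} (hg : Gir G k) (hk : M + 4 * jm + 8 < k)
    (hp : Marks G p) (hD : FarM G D p) (hMD : 2 * (2 * jm + 2 + M) ≤ D) {A : Finset V}
    (hA : Win G π R q B A)
    (m : V × (Fin jm → Bool) → ℕ) (hm : ∀ z, m z ≤ M)
    (hmA : ∀ z, (π ^ m z) (lfm μ π p jm z) ∈ A) (Z : Finset V) :
    ((idx p jm).filter fun z =>
      Cuts (zone G π R q ((π ^ m z) (lfm μ π p jm z))) Z).card ≤ 2 * dd G Z := by
  classical
  set F := (idx p jm).filter fun z =>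
      Cuts (zone G π R q ((π ^ m z) (lfm μ π p jm z))) Z with hF
  have key : ∀ z : V × (Fin jm → Bool), ∃ e : V × V, z ∈ F →
      e ∈ Pool.Agent.Work.MP_314beb_co.cut G Z ∧ e.1 ∈ zone G π R q ((π ^ m z) (lfm μ π p jm z)) := by
    intro z
    by_cases hz : z ∈ F
    · obtain ⟨x, hx, y, -, hxZ, hyZ, hxy⟩ := cut_of_split (joined_zone hf R q _)
        (cuts_iff.1 (mem_filter.1 hz).2)
      exact ⟨(x, y), fun _ => ⟨(mem_cut G).2 ⟨hxZ, hyZ, hxy⟩, hx⟩⟩
    · exact ⟨(z.1, z.1), fun h => absurd h hz⟩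
  choose e he using key
  have h1 := Finset.card_le_mul_card_image (f := e) F 2 (fun x _ => by
    rcases (F.filter fun z => e z = x).eq_empty_or_nonempty with h | ⟨z₀, hz₀⟩
    · rw [h]
      simp
    · refine path_fiber hf hg hk hp hD hMD ((π ^ m z₀) (lfm μ π p jm z₀)) _ fun z hz => ?_
      obtain ⟨h2, h3⟩ := mem_filter.1 hz
      obtain ⟨h2', h3'⟩ := mem_filter.1 hz₀
      refine ⟨(mem_product.1 (mem_filter.1 h2).1).1, m z, hm z, ?_⟩
      by_contra hne
      have h4 := (he z h2).2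
      have h5 := (he z₀ h2').2
      rw [h3] at h4
      rw [h3'] at h5
      exact disjoint_left.1 (hA.disj _ (hmA z) _ (hmA z₀) hne) h4 h5)
  refine h1.trans (Nat.mul_le_mul_left _ (card_le_card fun x hx => ?_))
  obtain ⟨z, hz, rfl⟩ := mem_image.1 hx
  exact (he z hz).1

/-- The charge at the leaves may be moved to the candidates. -/
theorem transport (hf : Frame G μ π) {R q B k M : ℕ} (hg : Gir G k) (hk : M + 4 * jm + 8 < k)
    (hp : Marks G p) (hD : FarM G D p) (hMD : 2 * (2 * jm + 2 + M) ≤ D) {A : Finset V}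
    (hA : Win G π R q B A)
    (m : V × (Fin jm → Bool) → ℕ) (hm : ∀ z, m z ≤ M)
    (hmA : ∀ z, (π ^ m z) (lfm μ π p jm z) ∈ A) (Ω : V → ℝ) (Z : Finset V)
    (h0 : ∀ z, 0 ≤ Ω ((π ^ m z) (lfm μ π p jm z)))
    (h1 : ∀ z, Ω ((π ^ m z) (lfm μ π p jm z)) ≤ 1)
    (hΩ : ∀ z, ¬ Cuts (zone G π R q ((π ^ m z) (lfm μ π p jm z))) Z →
      Ω ((π ^ m z) (lfm μ π p jm z)) =
        if (π ^ m z) (lfm μ π p jm z) ∈ Z then 1 else 0) :
    |∑ u ∈ ends p, chm μ p u * ∑ v ∈ Z, wmm μ π p jm u v -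
      ∑ z ∈ idx p jm, chm μ p z.1 * (1 / 2 ^ jm) * Ω ((π ^ m z) (lfm μ π p jm z))| ≤
      8 / 5 / 2 ^ jm * dd G Z := by
  classical
  have e1 : ∑ u ∈ ends p, chm μ p u * ∑ v ∈ Z, wmm μ π p jm u v =
      ∑ z ∈ idx p jm, chm μ p z.1 * (1 / 2 ^ jm) *
        (if lfm μ π p jm z ∈ Z then (1 : ℝ) else 0) := by
    unfold idx
    rw [sum_product]
    refine sum_congr rfl fun u _ => ?_
    rw [sum_wmm_lfm hf hg (by omega) u Z, mul_sum]
    refine sum_congr rfl fun b _ => ?_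
    rw [mul_assoc]
  rw [e1, ← sum_sub_distrib]
  have e2 : ∀ z ∈ idx p jm, |chm μ p z.1 * (1 / 2 ^ jm) *
        (if lfm μ π p jm z ∈ Z then (1 : ℝ) else 0) -
        chm μ p z.1 * (1 / 2 ^ jm) * Ω ((π ^ m z) (lfm μ π p jm z))| ≤
      2 / 5 / 2 ^ jm * ((if ¬ (lfm μ π p jm z ∈ Z ↔ (π ^ m z) (lfm μ π p jm z) ∈ Z)
        then (1 : ℝ) else 0) +
        (if Cuts (zone G π R q ((π ^ m z) (lfm μ π p jm z))) Z then (1 : ℝ) else 0)) := by
    intro z _
    rw [← mul_sub, abs_mul, abs_mul, abs_of_pos (by positivity : (0 : ℝ) < 1 / 2 ^ jm)]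
    have h2 : |chm μ p z.1| * (1 / 2 ^ jm) ≤ 2 / 5 / 2 ^ jm := by
      rw [mul_one_div]
      exact div_le_div_of_nonneg_right (abs_chm hp hD z.1) (by positivity)
    have h3 : |(if lfm μ π p jm z ∈ Z then (1 : ℝ) else 0) - Ω ((π ^ m z) (lfm μ π p jm z))| ≤
        (if ¬ (lfm μ π p jm z ∈ Z ↔ (π ^ m z) (lfm μ π p jm z) ∈ Z) then (1 : ℝ) else 0) +
        (if Cuts (zone G π R q ((π ^ m z) (lfm μ π p jm z))) Z then (1 : ℝ) else 0) := by
      by_cases hc : Cuts (zone G π R q ((π ^ m z) (lfm μ π p jm z))) Z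
      · rw [if_pos hc]
        have h4 : (0 : ℝ) ≤ (if ¬ (lfm μ π p jm z ∈ Z ↔ (π ^ m z) (lfm μ π p jm z) ∈ Z)
            then (1 : ℝ) else 0) := by split_ifs <;> norm_num
        have h5 := h0 z
        have h6 := h1 z
        have h7 : |(if lfm μ π p jm z ∈ Z then (1 : ℝ) else 0) -
            Ω ((π ^ m z) (lfm μ π p jm z))| ≤ 1 := by
          rw [abs_le]
          split_ifs <;> constructor <;> linarith
        linarith
      · rw [if_neg hc, hΩ z hc]
        by_cases h4 : lfm μ π p jm z ∈ Z <;> by_cases h5 : (π ^ m z) (lfm μ π p jm z) ∈ Z <;>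
          simp [h4, h5]
    exact mul_le_mul h2 h3 (abs_nonneg _) (by positivity)
  refine (abs_sum_le_sum_abs _ _).trans ((sum_le_sum e2).trans ?_)
  rw [← mul_sum, sum_add_distrib]
  have e3 : ∑ z ∈ idx p jm, (if ¬ (lfm μ π p jm z ∈ Z ↔ (π ^ m z) (lfm μ π p jm z) ∈ Z)
        then (1 : ℝ) else 0) ≤ 2 * dd G Z := by
    rw [← sum_filter, sum_const, nsmul_eq_mul, mul_one]
    exact_mod_cast path_cut hf hg hk hp hD hMD m hm Z
  have e4 : ∑ z ∈ idx p jm, (if Cuts (zone G π R q ((π ^ m z) (lfm μ π p jm z))) Z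
        then (1 : ℝ) else 0) ≤ 2 * dd G Z := by
    rw [← sum_filter, sum_const, nsmul_eq_mul, mul_one]
    exact_mod_cast zone_cut hf hg hk hp hD hMD hA m hm hmA Z
  calc 2 / 5 / 2 ^ jm * (_ + _) ≤ 2 / 5 / 2 ^ jm * (2 * (dd G Z : ℝ) + 2 * dd G Z) :=
        mul_le_mul_of_nonneg_left (add_le_add e3 e4) (by positivity)
    _ = 8 / 5 / 2 ^ jm * dd G Z := by ring

/-- **Plan B for E6, E7a, E7b: the reserved defects of the marks.** `hsigns` is `signs_w` or
`signs_g` for this graph. -/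
theorem exists_Rm (hf : Frame G μ π) {R q B k M J : ℕ} (hg : Gir G k)
    (hk : M + 4 * jm + 8 < k) (hp : Marks G p) (hD : FarM G D p)
    (hMD : 2 * (2 * jm + 2 + M) ≤ D) {A : Finset V} (hA : Win G π R q B A) {y : V → ℤ}
    (hnear : ∀ v, ∃ m, m ≤ M ∧ (π ^ m) v ∈ Dfc π A y)
    {m₀ : ℤ} (hm₀ : ((Dfc π A y).card : ℝ) = ∑ u ∈ ends p, chm μ p u + 2 * m₀)
    {w : V → ℤ → V → ℝ} {δ b : ℝ} (hb : 0 ≤ b) (w1 : ∀ a s v, 0 ≤ w a s v)
    (w2 : ∀ a s v, w a s v ≤ δ)
    (w3 : ∀ a ∈ Dfc π A y, ∀ s, (s = 1 ∨ s = -1) → (∀ v, w a s v ≠ 0 → v ∈ zone G π R q a) ∧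
      ∑ v, w a s v = 1)
    {r : ℕ} {S : Fin r → Finset V}
    (hsigns : ∀ T ⊆ Dfc π A y, Even T.card → ∀ w : V → ℤ → V → ℝ,
      (∀ a s v, 0 ≤ w a s v) → (∀ a s v, w a s v ≤ δ) →
      (∀ a ∈ T, ∀ s, (s = 1 ∨ s = -1) → (∀ v, w a s v ≠ 0 → v ∈ zone G π R q a) ∧
        ∑ v, w a s v = 1) →
      ∃ ε : V → ℤ, (∀ v, ε v = 1 ∨ ε v = -1) ∧ ∑ a ∈ T, ε a = 0 ∧
        ∀ R, Region S R → ∀ X ⊆ R,
          |∑ a ∈ T, (ε a : ℝ) * ∑ v ∈ X, w a (ε a) v| ≤ b * dd G X) :
    ∃ (Rm : Finset V) (ηm : V → ℤ), Rm ⊆ Dfc π A y ∧ Even (Dfc π A y \ Rm).card ∧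
      (∀ v, ηm v = 1 ∨ ηm v = -1) ∧
      (∀ a ∈ Rm, ∃ u ∈ ends p, ∃ i ≤ M, ∃ v ∈ Bl G.Adj (2 * jm + 2) u, a = (π ^ i) v) ∧
      (∑ u ∈ ends p, chm μ p u + ∑ a ∈ Rm, (ηm a : ℝ) = 0) ∧
      ∀ R, Region S R → ∀ X ⊆ R,
        |∑ u ∈ ends p, chm μ p u * ∑ v ∈ X, wmm μ π p jm u v +
          ∑ a ∈ Rm, (ηm a : ℝ) * ∑ v ∈ X, w a (ηm a) v| ≤ (b + 8 / 5 / 2 ^ jm) * dd G X := by
  classical
  choose mm hmm hmD using hnear
  set m : V × (Fin jm → Bool) → ℕ := fun z => mm (lfm μ π p jm z) with hmdef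
  have hm : ∀ z, m z ≤ M := fun z => hmm _
  set cand : V × (Fin jm → Bool) → V := fun z => (π ^ m z) (lfm μ π p jm z) with hcand
  have hcD : ∀ z, cand z ∈ Dfc π A y := fun z => hmD _
  have hcA : ∀ z, cand z ∈ A := fun z => (mem_filter.1 (hcD z)).1
  -- the charges of the candidates
  set ch : V → ℝ := fun a => ∑ z ∈ (idx p jm).filter (fun z => cand z = a),
    chm μ p z.1 * (1 / 2 ^ jm) with hch
  have hch1 : ∀ a, |ch a| ≤ 1 := by
    intro a
    have h1 : ((idx p jm).filter fun z => cand z = a).card ≤ 2 :=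
      path_fiber hf hg hk hp hD hMD a _ fun z hz =>
        ⟨(mem_product.1 (mem_filter.1 hz).1).1, m z, hm z, (mem_filter.1 hz).2⟩
    have h2 : ∀ z ∈ (idx p jm).filter (fun z => cand z = a),
        |chm μ p z.1 * (1 / 2 ^ jm)| ≤ 2 / 5 := by
      intro z _
      rw [abs_mul, abs_of_pos (by positivity : (0 : ℝ) < 1 / 2 ^ jm)]
      have h3 := abs_chm (μ := μ) hp hD z.1
      have h4 : (1 : ℝ) / 2 ^ jm ≤ 1 := by
        rw [div_le_one (by positivity)]
        exact one_le_pow₀ (by norm_num)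
      calc |chm μ p z.1| * (1 / 2 ^ jm) ≤ 2 / 5 * 1 :=
            mul_le_mul h3 h4 (by positivity) (by norm_num)
        _ = 2 / 5 := by ring
    calc |ch a| ≤ ∑ z ∈ (idx p jm).filter (fun z => cand z = a),
            |chm μ p z.1 * (1 / 2 ^ jm)| := abs_sum_le_sum_abs _ _
      _ ≤ ∑ z ∈ (idx p jm).filter (fun z => cand z = a), (2 / 5 : ℝ) := sum_le_sum h2
      _ = ((idx p jm).filter fun z => cand z = a).card * (2 / 5 : ℝ) := by
          rw [sum_const, nsmul_eq_mul]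
      _ ≤ 2 * (2 / 5 : ℝ) := by
          have h5 : ((((idx p jm).filter fun z => cand z = a).card : ℕ) : ℝ) ≤ 2 := by
            exact_mod_cast h1
          linarith
      _ ≤ 1 := by norm_num
  set t : V → ℤ := fun a => if 0 ≤ ch a then 1 else -1 with ht
  have ht1 : ∀ a, t a = 1 ∨ t a = -1 := by
    intro a
    simp only [ht]
    split_ifs
    · exact Or.inl rfl
    · exact Or.inr rfl
  have ht2 : ∀ a, (t a : ℝ) * |ch a| = ch a := by
    intro a
    simp only [ht]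
    split_ifs with h
    · rw [abs_of_nonneg h]
      simp
    · rw [abs_of_neg (not_le.1 h)]
      simp
  set Ac : Finset V := (idx p jm).image cand with hAc
  have hAcD : Ac ⊆ Dfc π A y := by
    intro a ha
    obtain ⟨z, -, rfl⟩ := mem_image.1 ha
    exact hcD z
  have hfib : ∀ Ω : V → ℝ, ∑ a ∈ Ac, ch a * Ω a =
      ∑ z ∈ idx p jm, chm μ p z.1 * (1 / 2 ^ jm) * Ω (cand z) := by
    intro Ω
    rw [← sum_fiberwise_of_maps_to (s := idx p jm) (t := Ac) (g := cand)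
      (fun z hz => mem_image_of_mem _ hz)]
    refine sum_congr rfl fun a _ => ?_
    rw [hch, sum_mul]
    refine sum_congr rfl fun z hz => ?_
    rw [(mem_filter.1 hz).2]
  have htot : ∑ z ∈ idx p jm, chm μ p z.1 * (1 / 2 ^ jm) = ∑ u ∈ ends p, chm μ p u := by
    unfold idx
    rw [sum_product]
    refine sum_congr rfl fun u _ => ?_
    change ∑ _b : Fin jm → Bool, chm μ p u * (1 / 2 ^ jm) = chm μ p u
    rw [sum_const, nsmul_eq_mul, card_univ, Fintype.card_fun, Fintype.card_bool, Fintype.card_fin]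
    push_cast
    field_simp
  set n : ℤ := (Dfc π A y).card - 2 * m₀ with hn
  have hnr : (n : ℝ) = ∑ u ∈ ends p, chm μ p u := by
    rw [hn]
    push_cast
    linarith
  have hsum : ∑ a ∈ Ac, (t a : ℝ) * |ch a| = n := by
    rw [hnr, ← htot]
    have h1 := hfib fun _ => 1
    simp only [mul_one] at h1
    rw [sum_congr rfl fun a _ => ht2 a, h1]
  obtain ⟨Rm, hRA, hRs, hRe, hRX⟩ := round_cand Ac (𝒳 := {X : Finset V // ∃ R, Region S R ∧ X ⊆ R})
    (fun a s X => ∑ v ∈ X.1, w a s v) (fun X => b * dd G X.1) (fun X => by positivity) t ht1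
    (fun T' hT' hev => by
      obtain ⟨ε, h1, h2, h3⟩ := hsigns T' (hT'.trans hAcD) hev (fun a _ => w a (-t a))
        (fun a s v => w1 _ _ _) (fun a s v => w2 _ _ _)
        (fun a ha s hs => w3 a (hAcD (hT' ha)) _ (by
          rcases ht1 a with h4 | h4
          · right; simp [h4]
          · left; simp [h4]))
      exact ⟨ε, h1, h2, fun X => by
        obtain ⟨R, hR, hXR⟩ := X.2
        exact h3 R hR X.1 hXR⟩)
    (fun a => |ch a|) (fun a _ => ⟨abs_nonneg _, hch1 a⟩) n hsum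
  refine ⟨Rm, fun a => -t a, hRA.trans hAcD, ?_, fun v => ?_, fun a ha => ?_, ?_,
    fun R₁ hR₁ X hX => ?_⟩
  · have h1 : (Dfc π A y \ Rm).card + Rm.card = (Dfc π A y).card :=
      card_sdiff_add_card_eq_card (hRA.trans hAcD)
    have h2 : Even (((Dfc π A y \ Rm).card : ℤ)) := by
      have h3 : (((Dfc π A y \ Rm).card : ℕ) : ℤ) = 2 * m₀ - ((Rm.card : ℤ) - n) := by
        have h4 : (((Dfc π A y \ Rm).card : ℕ) : ℤ) + Rm.card = (Dfc π A y).card := by
          exact_mod_cast h1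
        rw [hn]
        linarith
      rw [h3]
      exact (even_two_mul _).sub hRe
    exact_mod_cast h2
  · rcases ht1 v with h4 | h4
    · right; simp [h4]
    · left; simp [h4]
  · obtain ⟨z, hz, rfl⟩ := mem_image.1 (hRA ha)
    exact ⟨z.1, (mem_product.1 hz).1, m z, hm z, lfm μ π p jm z, lfm_ball hf z, rfl⟩
  · rw [← hnr, ← hRs]
    push_cast
    rw [← sum_add_distrib]
    exact sum_eq_zero fun a _ => by ring
  · have h1 := hRX ⟨X, R₁, hR₁, hX⟩
    have h2 : ∑ a ∈ Ac, ((t a : ℝ) * |ch a|) * ∑ v ∈ X, w a (-t a) v =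
        ∑ z ∈ idx p jm, chm μ p z.1 * (1 / 2 ^ jm) * ∑ v ∈ X, w (cand z) (-t (cand z)) v := by
      rw [← hfib fun a => ∑ v ∈ X, w a (-t a) v]
      exact sum_congr rfl fun a _ => by rw [ht2 a]
    have hpm : ∀ a, -t a = 1 ∨ -t a = -1 := by
      intro a
      rcases ht1 a with h4 | h4
      · right; simp [h4]
      · left; simp [h4]
    have h3 := transport hf hg hk hp hD hMD hA m hm hcA (fun a => ∑ v ∈ X, w a (-t a) v) X
      (fun z => sum_nonneg fun v _ => w1 _ _ _)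
      (fun z => by
        have h4 := (w3 _ (hcD z) _ (hpm (cand z))).2
        rw [← h4]
        exact sum_le_sum_of_subset_of_nonneg (subset_univ _) fun v _ _ => w1 _ _ _)
      (fun z hz => by
        obtain ⟨h4, h5⟩ := w3 _ (hcD z) _ (hpm (cand z))
        have h6 : cand z ∈ zone G π R q (cand z) := by
          unfold zone
          rw [mem_biUnion]
          exact ⟨0, mem_range.2 (by omega), by simpa using Bl_self R (cand z)⟩
        rcases not_not.1 hz with h7 | h7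
        · rw [if_pos (h7 h6), ← h5]
          refine sum_subset (subset_univ _) fun v _ hv => ?_
          by_contra h8
          exact hv (h7 (h4 v h8))
        · rw [if_neg fun h8 => disjoint_left.1 h7 h6 h8]
          refine sum_eq_zero fun v hv => ?_
          by_contra h8
          exact disjoint_left.1 h7 (h4 v h8) hv)
    have h4 : ∑ u ∈ ends p, chm μ p u * ∑ v ∈ X, wmm μ π p jm u v +
        ∑ a ∈ Rm, ((-t a : ℤ) : ℝ) * ∑ v ∈ X, w a (-t a) v =
        (∑ u ∈ ends p, chm μ p u * ∑ v ∈ X, wmm μ π p jm u v -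
          ∑ z ∈ idx p jm, chm μ p z.1 * (1 / 2 ^ jm) *
            ∑ v ∈ X, w ((π ^ m z) (lfm μ π p jm z)) (-t ((π ^ m z) (lfm μ π p jm z))) v) +
        (∑ a ∈ Ac, ((t a : ℝ) * |ch a|) * ∑ v ∈ X, w a (-t a) v +
          ∑ a ∈ Rm, ((-t a : ℤ) : ℝ) * ∑ v ∈ X, w a (-t a) v) := by
      rw [h2]
      ring
    rw [h4]
    refine (abs_add_le _ _).trans ?_
    have h5 : (b + 8 / 5 / 2 ^ jm) * (dd G X : ℝ) = 8 / 5 / 2 ^ jm * dd G X + b * dd G X := by
      ring
    rw [h5]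
    exact add_le_add h3 h1

end

end Pool.Agent.K5.BoxM
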