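import Mathlib
import Pool.Agent.Work.MP_974d84_co_k5.BoxM
import Pool.Agent.Work.MP_974d84_co_k5.ReDefs

/-!
# The real extension theorem: the charges of the marks are carried by ordinary defects
-/

set_option linter.unusedSectionVars false
set_option linter.unusedVariables false

namespace Pool.Agent.K5.Re

open Finset SimpleGraph Pool.Agent.Exp Pool.Agent.Log5 Pool.Agent.Log5.Clu Pool.Agent.K5

open Pool.Agent.K5.BoxM (lfm lfm_ball path_uniq sum_wmm_lfm exists_step idx abs_sg round_cand)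

section

variable {V : Type} [Fintype V] [DecidableEq V] {G : SimpleGraph V} [DecidableRel G.Adj]
variable {μ : V → V} {π : Equiv.Perm V} {p : V → V → ℝ} {D jm : ℕ}

theorem farm_uniq (hp : Marks G p) (hD : FarM G D p) {u v v' : V} (h : p u v ≠ 0)
    (h' : p u v' ≠ 0) : v' = v := by
  rcases hD u v u v' h h' (Bl_self _ _) with h1 | h1
  · exact h1.2
  · exact absurd (h1.1 ▸ hp.adj u v h) (G.loopless.irrefl _)

/-- The charge of an end is small. -/
theorem abs_chm (hp : Marks G p) (hD : FarM G D p) (u : V) : |chm μ p u| ≤ 1 / 2 := by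
  classical
  unfold chm
  by_cases h : ∃ v, p u v ≠ 0
  · obtain ⟨v, hv⟩ := h
    have h1 := hp.bd u v
    have h2 := abs_nonneg (p u v)
    rw [Finset.sum_eq_single v]
    · rw [if_neg hv]
      split_ifs
      · rw [abs_div, abs_of_pos (by norm_num : (0 : ℝ) < 2)]
        linarith
      · rw [abs_div, abs_mul, abs_sg, one_mul, abs_of_pos (by norm_num : (0 : ℝ) < 2),
          abs_of_nonneg (by linarith)]
        linarith
    · intro v' _ hne
      by_cases h0 : p u v' = 0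
      · rw [if_pos h0]
      · exact absurd (farm_uniq hp hD hv h0) hne
    · intro h0
      exact absurd (mem_univ _) h0
  · push Not at h
    rw [Finset.sum_eq_zero fun v _ => by rw [if_pos (h v)]]
    norm_num

/-- At most two ends are near a vertex. -/
theorem ends_near (hp : Marks G p) (hD : FarM G D p) {ρ : ℕ} (hρ : ρ + ρ ≤ D) (x : V) :
    ((ends p).filter fun u => x ∈ Bl G.Adj ρ u).card ≤ 2 := by
  classical
  rcases ((ends p).filter fun u => x ∈ Bl G.Adj ρ u).eq_empty_or_nonempty with h | ⟨u, hu⟩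
  · rw [h]
    simp
  · obtain ⟨hu1, hu2⟩ := mem_filter.1 hu
    obtain ⟨v, hv⟩ := (mem_filter.1 hu1).2
    refine (card_le_card (t := {u, v}) fun u' hu' => ?_).trans card_le_two
    obtain ⟨hu1', hu2'⟩ := mem_filter.1 hu'
    obtain ⟨v', hv'⟩ := (mem_filter.1 hu1').2
    have h1 : u' ∈ Bl G.Adj ρ x := Bl_symm (fun _ _ h => h.symm) hu2'
    have h2 : u' ∈ Bl G.Adj D u := Bl_mono hρ _ (Bl_comp hu2 h1)
    rw [mem_insert, mem_singleton]
    rcases hD u v u' v' hv hv' h2 with h3 | h3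
    · exact Or.inl h3.1
    · exact Or.inr h3.1

/-- At most two paths go through a vertex. -/
theorem path_fiber (hf : Frame G μ π) {k M : ℕ} (hg : Gir G k) (hk : M + 4 * jm + 8 < k)
    (hp : Marks G p) (hD : FarM G D p) (hMD : 2 * (2 * jm + 2 + M) ≤ D) (x : V)
    (F : Finset (V × (Fin jm → Bool)))
    (hF : ∀ z ∈ F, z.1 ∈ ends p ∧ ∃ i ≤ M, (π ^ i) (lfm μ π p jm z) = x) : F.card ≤ 2 := by
  classical
  refine le_trans ?_ (ends_near hp hD (ρ := 2 * jm + 2 + M) (by omega) x)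
  refine card_le_card_of_injOn Prod.fst (fun z hz => ?_) ?_
  · obtain ⟨h1, i, hi, h2⟩ := hF z hz
    refine mem_filter.2 ⟨h1, ?_⟩
    have h3 := Bl_comp (lfm_ball (p := p) hf z) (Bl_mono hi _ (pow_mem_Bl hf i (lfm μ π p jm z)))
    rwa [h2] at h3
  · rintro ⟨u, b⟩ hz ⟨u', b'⟩ hz' h
    simp only at h
    subst h
    obtain ⟨-, i, hi, h2⟩ := hF _ hz
    obtain ⟨-, j, hj, h3⟩ := hF _ hz'
    have h4 := path_uniq (p := p) hf hg hk hi hj (h2.trans h3.symm)
    rw [h4.2]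

/-- Few paths are cut. -/
theorem path_cut (hf : Frame G μ π) {k M : ℕ} (hg : Gir G k) (hk : M + 4 * jm + 8 < k)
    (hp : Marks G p) (hD : FarM G D p) (hMD : 2 * (2 * jm + 2 + M) ≤ D)
    (m : V × (Fin jm → Bool) → ℕ) (hm : ∀ z, m z ≤ M) (Z : Finset V) :
    ((idx p jm).filter fun z =>
      ¬ (lfm μ π p jm z ∈ Z ↔ (π ^ m z) (lfm μ π p jm z) ∈ Z)).card ≤ 2 * dd G Z := by
  classical
  set F := (idx p jm).filter fun z =>
      ¬ (lfm μ π p jm z ∈ Z ↔ (π ^ m z) (lfm μ π p jm z) ∈ Z) with hF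
  have key : ∀ z : V × (Fin jm → Bool), ∃ e : V × V, z ∈ F →
      e ∈ Pool.Agent.Work.MP_314beb_co.cut G Z ∧ ∃ i ≤ M, (π ^ i) (lfm μ π p jm z) = e.1 := by
    intro z
    by_cases hz : z ∈ F
    · obtain ⟨e, he, i, hi, h1⟩ := exists_step hf Z _ _ (mem_filter.1 hz).2
      exact ⟨e, fun _ => ⟨he, i, hi.trans (hm z), h1⟩⟩
    · exact ⟨(z.1, z.1), fun h => absurd h hz⟩
  choose e he using key
  have h1 := Finset.card_le_mul_card_image (f := e) F 2 (fun x _ =>
    path_fiber hf hg hk hp hD hMD x.1 _ fun z hz => by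
      obtain ⟨h2, h3⟩ := mem_filter.1 hz
      have h4 := (he z h2).2
      rw [h3] at h4
      exact ⟨(mem_product.1 (mem_filter.1 h2).1).1, h4⟩)
  refine h1.trans (Nat.mul_le_mul_left _ (card_le_card fun x hx => ?_))
  obtain ⟨z, hz, rfl⟩ := mem_image.1 hx
  exact (he z hz).1

/-- Few zones of candidates are cut. -/
theorem zone_cut (hf : Frame G μ π) {R q B k M : ℕ} (hg : Gir G k) (hk : M + 4 * jm + 8 < k)
    (hp : Marks G p) (hD : FarM G D p) (hMD : 2 * (2 * jm + 2 + M) ≤ D) {A : Finset V}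
    (hA : Win G π R q B A)
    (m : V × (Fin jm → Bool) → ℕ) (hm : ∀ z, m z ≤ M)
    (hmA : ∀ z, (π ^ m z) (lfm μ π p jm z) ∈ A) (Z : Finset V) :
    ((idx p jm).filter fun z =>
      Cuts (zone G π R q ((π ^ m z) (lfm μ π p jm z))) Z).card ≤ 2 * dd G Z := by
  classical
  set F := (idx p jm).filter fun z =>
      Cuts (zone G π R q ((π ^ m z) (lfm μ π p jm z))) Z with hF
  have key : ∀ z : V × (Fin jm → Bool), ∃ e : V × V, z ∈ F →
      e ∈ Pool.Agent.Work.MP_314beb_co.cut G Z ∧ e.1 ∈ zone G π R q ((π ^ m z) (lfm μ π p jm z)) := by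
    intro z
    by_cases hz : z ∈ F
    · obtain ⟨x, hx, y, -, hxZ, hyZ, hxy⟩ := cut_of_split (joined_zone hf R q _)
        (cuts_iff.1 (mem_filter.1 hz).2)
      exact ⟨(x, y), fun _ => ⟨(mem_cut G).2 ⟨hxZ, hyZ, hxy⟩, hx⟩⟩
    · exact ⟨(z.1, z.1), fun h => absurd h hz⟩
  choose e he using key
  have h1 := Finset.card_le_mul_card_image (f := e) F 2 (fun x _ => by
    rcases (F.filter fun z => e z = x).eq_empty_or_nonempty with h | ⟨z₀, hz₀⟩
    · rw [h]
      simp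
    · refine path_fiber hf hg hk hp hD hMD ((π ^ m z₀) (lfm μ π p jm z₀)) _ fun z hz => ?_
      obtain ⟨h2, h3⟩ := mem_filter.1 hz
      obtain ⟨h2', h3'⟩ := mem_filter.1 hz₀
      refine ⟨(mem_product.1 (mem_filter.1 h2).1).1, m z, hm z, ?_⟩
      by_contra hne
      have h4 := (he z h2).2
      have h5 := (he z₀ h2').2
      rw [h3] at h4
      rw [h3'] at h5
      exact disjoint_left.1 (hA.disj _ (hmA z) _ (hmA z₀) hne) h4 h5)
  refine h1.trans (Nat.mul_le_mul_left _ (card_le_card fun x hx => ?_))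
  obtain ⟨z, hz, rfl⟩ := mem_image.1 hx
  exact (he z hz).1

/-- The charge at the leaves may be moved to the candidates. -/
theorem transport (hf : Frame G μ π) {R q B k M : ℕ} (hg : Gir G k) (hk : M + 4 * jm + 8 < k)
    (hp : Marks G p) (hD : FarM G D p) (hMD : 2 * (2 * jm + 2 + M) ≤ D) {A : Finset V}
    (hA : Win G π R q B A)
    (m : V × (Fin jm → Bool) → ℕ) (hm : ∀ z, m z ≤ M)
    (hmA : ∀ z, (π ^ m z) (lfm μ π p jm z) ∈ A) (Ω : V → ℝ) (Z : Finset V)
    (h0 : ∀ z, 0 ≤ Ω ((π ^ m z) (lfm μ π p jm z)))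
    (h1 : ∀ z, Ω ((π ^ m z) (lfm μ π p jm z)) ≤ 1)
    (hΩ : ∀ z, ¬ Cuts (zone G π R q ((π ^ m z) (lfm μ π p jm z))) Z →
      Ω ((π ^ m z) (lfm μ π p jm z)) =
        if (π ^ m z) (lfm μ π p jm z) ∈ Z then 1 else 0) :
    |∑ u ∈ ends p, chm μ p u * ∑ v ∈ Z, wmm μ π p jm u v -
      ∑ z ∈ idx p jm, chm μ p z.1 * (1 / 2 ^ jm) * Ω ((π ^ m z) (lfm μ π p jm z))| ≤
      2 / 2 ^ jm * dd G Z := by
  classical
  have e1 : ∑ u ∈ ends p, chm μ p u * ∑ v ∈ Z, wmm μ π p jm u v =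
      ∑ z ∈ idx p jm, chm μ p z.1 * (1 / 2 ^ jm) *
        (if lfm μ π p jm z ∈ Z then (1 : ℝ) else 0) := by
    unfold idx
    rw [sum_product]
    refine sum_congr rfl fun u _ => ?_
    rw [sum_wmm_lfm hf hg (by omega) u Z, mul_sum]
    refine sum_congr rfl fun b _ => ?_
    rw [mul_assoc]
  rw [e1, ← sum_sub_distrib]
  have e2 : ∀ z ∈ idx p jm, |chm μ p z.1 * (1 / 2 ^ jm) *
        (if lfm μ π p jm z ∈ Z then (1 : ℝ) else 0) -
        chm μ p z.1 * (1 / 2 ^ jm) * Ω ((π ^ m z) (lfm μ π p jm z))| ≤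
      1 / 2 / 2 ^ jm * ((if ¬ (lfm μ π p jm z ∈ Z ↔ (π ^ m z) (lfm μ π p jm z) ∈ Z)
        then (1 : ℝ) else 0) +
        (if Cuts (zone G π R q ((π ^ m z) (lfm μ π p jm z))) Z then (1 : ℝ) else 0)) := by
    intro z _
    rw [← mul_sub, abs_mul, abs_mul, abs_of_pos (by positivity : (0 : ℝ) < 1 / 2 ^ jm)]
    have h2 : |chm μ p z.1| * (1 / 2 ^ jm) ≤ 1 / 2 / 2 ^ jm := by
      rw [mul_one_div]
      exact div_le_div_of_nonneg_right (abs_chm hp hD z.1) (by positivity)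
    have h3 : |(if lfm μ π p jm z ∈ Z then (1 : ℝ) else 0) - Ω ((π ^ m z) (lfm μ π p jm z))| ≤
        (if ¬ (lfm μ π p jm z ∈ Z ↔ (π ^ m z) (lfm μ π p jm z) ∈ Z) then (1 : ℝ) else 0) +
        (if Cuts (zone G π R q ((π ^ m z) (lfm μ π p jm z))) Z then (1 : ℝ) else 0) := by
      by_cases hc : Cuts (zone G π R q ((π ^ m z) (lfm μ π p jm z))) Z
      · rw [if_pos hc]
        have h4 : (0 : ℝ) ≤ (if ¬ (lfm μ π p jm z ∈ Z ↔ (π ^ m z) (lfm μ π p jm z) ∈ Z)
            then (1 : ℝ) else 0) := by split_ifs <;> norm_num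
        have h5 := h0 z
        have h6 := h1 z
        have h7 : |(if lfm μ π p jm z ∈ Z then (1 : ℝ) else 0) -
            Ω ((π ^ m z) (lfm μ π p jm z))| ≤ 1 := by
          rw [abs_le]
          split_ifs <;> constructor <;> linarith
        linarith
      · rw [if_neg hc, hΩ z hc]
        by_cases h4 : lfm μ π p jm z ∈ Z <;> by_cases h5 : (π ^ m z) (lfm μ π p jm z) ∈ Z <;>
          simp [h4, h5]
    exact mul_le_mul h2 h3 (abs_nonneg _) (by positivity)
  refine (abs_sum_le_sum_abs _ _).trans ((sum_le_sum e2).trans ?_)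
  rw [← mul_sum, sum_add_distrib]
  have e3 : ∑ z ∈ idx p jm, (if ¬ (lfm μ π p jm z ∈ Z ↔ (π ^ m z) (lfm μ π p jm z) ∈ Z)
        then (1 : ℝ) else 0) ≤ 2 * dd G Z := by
    rw [← sum_filter, sum_const, nsmul_eq_mul, mul_one]
    exact_mod_cast path_cut hf hg hk hp hD hMD m hm Z
  have e4 : ∑ z ∈ idx p jm, (if Cuts (zone G π R q ((π ^ m z) (lfm μ π p jm z))) Z
        then (1 : ℝ) else 0) ≤ 2 * dd G Z := by
    rw [← sum_filter, sum_const, nsmul_eq_mul, mul_one]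
    exact_mod_cast zone_cut hf hg hk hp hD hMD hA m hm hmA Z
  calc 1 / 2 / 2 ^ jm * (_ + _) ≤ 1 / 2 / 2 ^ jm * (2 * (dd G Z : ℝ) + 2 * dd G Z) :=
        mul_le_mul_of_nonneg_left (add_le_add e3 e4) (by positivity)
    _ = 2 / 2 ^ jm * dd G Z := by ring

/-- **Plan B for E6, E7a, E7b: the reserved defects of the marks.** `hsigns` is `signs_w` or
`signs_g` for this graph. -/
theorem exists_Rm (hf : Frame G μ π) {R q B k M J : ℕ} (hg : Gir G k)
    (hk : M + 4 * jm + 8 < k) (hp : Marks G p) (hD : FarM G D p)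
    (hMD : 2 * (2 * jm + 2 + M) ≤ D) {A : Finset V} (hA : Win G π R q B A) {y : V → ℤ}
    (hnear : ∀ v, ∃ m, m ≤ M ∧ (π ^ m) v ∈ Dfc π A y)
    {m₀ : ℤ} (hm₀ : ((Dfc π A y).card : ℝ) = ∑ u ∈ ends p, chm μ p u + 2 * m₀)
    {w : V → ℤ → V → ℝ} {δ b : ℝ} (hb : 0 ≤ b) (w1 : ∀ a s v, 0 ≤ w a s v)
    (w2 : ∀ a s v, w a s v ≤ δ)
    (w3 : ∀ a ∈ Dfc π A y, ∀ s, (s = 1 ∨ s = -1) → (∀ v, w a s v ≠ 0 → v ∈ zone G π R q a) ∧
      ∑ v, w a s v = 1)
    {r : ℕ} {S : Fin r → Finset V}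
    (hsigns : ∀ T ⊆ Dfc π A y, Even T.card → ∀ w : V → ℤ → V → ℝ,
      (∀ a s v, 0 ≤ w a s v) → (∀ a s v, w a s v ≤ δ) →
      (∀ a ∈ T, ∀ s, (s = 1 ∨ s = -1) → (∀ v, w a s v ≠ 0 → v ∈ zone G π R q a) ∧
        ∑ v, w a s v = 1) →
      ∃ ε : V → ℤ, (∀ v, ε v = 1 ∨ ε v = -1) ∧ ∑ a ∈ T, ε a = 0 ∧
        ∀ R, Region S R → ∀ X ⊆ R,
          |∑ a ∈ T, (ε a : ℝ) * ∑ v ∈ X, w a (ε a) v| ≤ b * dd G X) :
    ∃ (Rm : Finset V) (ηm : V → ℤ), Rm ⊆ Dfc π A y ∧ Even (Dfc π A y \ Rm).card ∧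
      (∀ v, ηm v = 1 ∨ ηm v = -1) ∧
      (∀ a ∈ Rm, ∃ u ∈ ends p, ∃ i ≤ M, ∃ v ∈ Bl G.Adj (2 * jm + 2) u, a = (π ^ i) v) ∧
      (∑ u ∈ ends p, chm μ p u + ∑ a ∈ Rm, (ηm a : ℝ) = 0) ∧
      ∀ R, Region S R → ∀ X ⊆ R,
        |∑ u ∈ ends p, chm μ p u * ∑ v ∈ X, wmm μ π p jm u v +
          ∑ a ∈ Rm, (ηm a : ℝ) * ∑ v ∈ X, w a (ηm a) v| ≤ (b + 2 / 2 ^ jm) * dd G X := by
  classical
  choose mm hmm hmD using hnear
  set m : V × (Fin jm → Bool) → ℕ := fun z => mm (lfm μ π p jm z) with hmdef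
  have hm : ∀ z, m z ≤ M := fun z => hmm _
  set cand : V × (Fin jm → Bool) → V := fun z => (π ^ m z) (lfm μ π p jm z) with hcand
  have hcD : ∀ z, cand z ∈ Dfc π A y := fun z => hmD _
  have hcA : ∀ z, cand z ∈ A := fun z => (mem_filter.1 (hcD z)).1
  -- the charges of the candidates
  set ch : V → ℝ := fun a => ∑ z ∈ (idx p jm).filter (fun z => cand z = a),
    chm μ p z.1 * (1 / 2 ^ jm) with hch
  have hch1 : ∀ a, |ch a| ≤ 1 := by
    intro a
    have h1 : ((idx p jm).filter fun z => cand z = a).card ≤ 2 :=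
      path_fiber hf hg hk hp hD hMD a _ fun z hz =>
        ⟨(mem_product.1 (mem_filter.1 hz).1).1, m z, hm z, (mem_filter.1 hz).2⟩
    have h2 : ∀ z ∈ (idx p jm).filter (fun z => cand z = a),
        |chm μ p z.1 * (1 / 2 ^ jm)| ≤ 1 / 2 := by
      intro z _
      rw [abs_mul, abs_of_pos (by positivity : (0 : ℝ) < 1 / 2 ^ jm)]
      have h3 := abs_chm (μ := μ) hp hD z.1
      have h4 : (1 : ℝ) / 2 ^ jm ≤ 1 := by
        rw [div_le_one (by positivity)]
        exact one_le_pow₀ (by norm_num)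
      calc |chm μ p z.1| * (1 / 2 ^ jm) ≤ 1 / 2 * 1 :=
            mul_le_mul h3 h4 (by positivity) (by norm_num)
        _ = 1 / 2 := by ring
    calc |ch a| ≤ ∑ z ∈ (idx p jm).filter (fun z => cand z = a),
            |chm μ p z.1 * (1 / 2 ^ jm)| := abs_sum_le_sum_abs _ _
      _ ≤ ∑ z ∈ (idx p jm).filter (fun z => cand z = a), (1 / 2 : ℝ) := sum_le_sum h2
      _ = ((idx p jm).filter fun z => cand z = a).card * (1 / 2 : ℝ) := by
          rw [sum_const, nsmul_eq_mul]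
      _ ≤ 2 * (1 / 2 : ℝ) := by
          have h5 : ((((idx p jm).filter fun z => cand z = a).card : ℕ) : ℝ) ≤ 2 := by
            exact_mod_cast h1
          linarith
      _ ≤ 1 := by norm_num
  set t : V → ℤ := fun a => if 0 ≤ ch a then 1 else -1 with ht
  have ht1 : ∀ a, t a = 1 ∨ t a = -1 := by
    intro a
    simp only [ht]
    split_ifs
    · exact Or.inl rfl
    · exact Or.inr rfl
  have ht2 : ∀ a, (t a : ℝ) * |ch a| = ch a := by
    intro a
    simp only [ht]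
    split_ifs with h
    · rw [abs_of_nonneg h]
      simp
    · rw [abs_of_neg (not_le.1 h)]
      simp
  set Ac : Finset V := (idx p jm).image cand with hAc
  have hAcD : Ac ⊆ Dfc π A y := by
    intro a ha
    obtain ⟨z, -, rfl⟩ := mem_image.1 ha
    exact hcD z
  have hfib : ∀ Ω : V → ℝ, ∑ a ∈ Ac, ch a * Ω a =
      ∑ z ∈ idx p jm, chm μ p z.1 * (1 / 2 ^ jm) * Ω (cand z) := by
    intro Ω
    rw [← sum_fiberwise_of_maps_to (s := idx p jm) (t := Ac) (g := cand)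
      (fun z hz => mem_image_of_mem _ hz)]
    refine sum_congr rfl fun a _ => ?_
    rw [hch, sum_mul]
    refine sum_congr rfl fun z hz => ?_
    rw [(mem_filter.1 hz).2]
  have htot : ∑ z ∈ idx p jm, chm μ p z.1 * (1 / 2 ^ jm) = ∑ u ∈ ends p, chm μ p u := by
    unfold idx
    rw [sum_product]
    refine sum_congr rfl fun u _ => ?_
    change ∑ _b : Fin jm → Bool, chm μ p u * (1 / 2 ^ jm) = chm μ p u
    rw [sum_const, nsmul_eq_mul, card_univ, Fintype.card_fun, Fintype.card_bool, Fintype.card_fin]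
    push_cast
    field_simp
  set n : ℤ := (Dfc π A y).card - 2 * m₀ with hn
  have hnr : (n : ℝ) = ∑ u ∈ ends p, chm μ p u := by
    rw [hn]
    push_cast
    linarith
  have hsum : ∑ a ∈ Ac, (t a : ℝ) * |ch a| = n := by
    rw [hnr, ← htot]
    have h1 := hfib fun _ => 1
    simp only [mul_one] at h1
    rw [sum_congr rfl fun a _ => ht2 a, h1]
  obtain ⟨Rm, hRA, hRs, hRe, hRX⟩ := round_cand Ac (𝒳 := {X : Finset V // ∃ R, Region S R ∧ X ⊆ R})
    (fun a s X => ∑ v ∈ X.1, w a s v) (fun X => b * dd G X.1) (fun X => by positivity) t ht1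
    (fun T' hT' hev => by
      obtain ⟨ε, h1, h2, h3⟩ := hsigns T' (hT'.trans hAcD) hev (fun a _ => w a (-t a))
        (fun a s v => w1 _ _ _) (fun a s v => w2 _ _ _)
        (fun a ha s hs => w3 a (hAcD (hT' ha)) _ (by
          rcases ht1 a with h4 | h4
          · right; simp [h4]
          · left; simp [h4]))
      exact ⟨ε, h1, h2, fun X => by
        obtain ⟨R, hR, hXR⟩ := X.2
        exact h3 R hR X.1 hXR⟩)
    (fun a => |ch a|) (fun a _ => ⟨abs_nonneg _, hch1 a⟩) n hsum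
  refine ⟨Rm, fun a => -t a, hRA.trans hAcD, ?_, fun v => ?_, fun a ha => ?_, ?_,
    fun R₁ hR₁ X hX => ?_⟩
  · have h1 : (Dfc π A y \ Rm).card + Rm.card = (Dfc π A y).card :=
      card_sdiff_add_card_eq_card (hRA.trans hAcD)
    have h2 : Even (((Dfc π A y \ Rm).card : ℤ)) := by
      have h3 : (((Dfc π A y \ Rm).card : ℕ) : ℤ) = 2 * m₀ - ((Rm.card : ℤ) - n) := by
        have h4 : (((Dfc π A y \ Rm).card : ℕ) : ℤ) + Rm.card = (Dfc π A y).card := by
          exact_mod_cast h1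
        rw [hn]
        linarith
      rw [h3]
      exact (even_two_mul _).sub hRe
    exact_mod_cast h2
  · rcases ht1 v with h4 | h4
    · right; simp [h4]
    · left; simp [h4]
  · obtain ⟨z, hz, rfl⟩ := mem_image.1 (hRA ha)
    exact ⟨z.1, (mem_product.1 hz).1, m z, hm z, lfm μ π p jm z, lfm_ball hf z, rfl⟩
  · rw [← hnr, ← hRs]
    push_cast
    rw [← sum_add_distrib]
    exact sum_eq_zero fun a _ => by ring
  · have h1 := hRX ⟨X, R₁, hR₁, hX⟩
    have h2 : ∑ a ∈ Ac, ((t a : ℝ) * |ch a|) * ∑ v ∈ X, w a (-t a) v =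
        ∑ z ∈ idx p jm, chm μ p z.1 * (1 / 2 ^ jm) * ∑ v ∈ X, w (cand z) (-t (cand z)) v := by
      rw [← hfib fun a => ∑ v ∈ X, w a (-t a) v]
      exact sum_congr rfl fun a _ => by rw [ht2 a]
    have hpm : ∀ a, -t a = 1 ∨ -t a = -1 := by
      intro a
      rcases ht1 a with h4 | h4
      · right; simp [h4]
      · left; simp [h4]
    have h3 := transport hf hg hk hp hD hMD hA m hm hcA (fun a => ∑ v ∈ X, w a (-t a) v) X
      (fun z => sum_nonneg fun v _ => w1 _ _ _)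
      (fun z => by
        have h4 := (w3 _ (hcD z) _ (hpm (cand z))).2
        rw [← h4]
        exact sum_le_sum_of_subset_of_nonneg (subset_univ _) fun v _ _ => w1 _ _ _)
      (fun z hz => by
        obtain ⟨h4, h5⟩ := w3 _ (hcD z) _ (hpm (cand z))
        have h6 : cand z ∈ zone G π R q (cand z) := by
          unfold zone
          rw [mem_biUnion]
          exact ⟨0, mem_range.2 (by omega), by simpa using Bl_self R (cand z)⟩
        rcases not_not.1 hz with h7 | h7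
        · rw [if_pos (h7 h6), ← h5]
          refine sum_subset (subset_univ _) fun v _ hv => ?_
          by_contra h8
          exact hv (h7 (h4 v h8))
        · rw [if_neg fun h8 => disjoint_left.1 h7 h6 h8]
          refine sum_eq_zero fun v hv => ?_
          by_contra h8
          exact disjoint_left.1 h7 (h4 v h8) hv)
    have h4 : ∑ u ∈ ends p, chm μ p u * ∑ v ∈ X, wmm μ π p jm u v +
        ∑ a ∈ Rm, ((-t a : ℤ) : ℝ) * ∑ v ∈ X, w a (-t a) v =
        (∑ u ∈ ends p, chm μ p u * ∑ v ∈ X, wmm μ π p jm u v -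
          ∑ z ∈ idx p jm, chm μ p z.1 * (1 / 2 ^ jm) *
            ∑ v ∈ X, w ((π ^ m z) (lfm μ π p jm z)) (-t ((π ^ m z) (lfm μ π p jm z))) v) +
        (∑ a ∈ Ac, ((t a : ℝ) * |ch a|) * ∑ v ∈ X, w a (-t a) v +
          ∑ a ∈ Rm, ((-t a : ℤ) : ℝ) * ∑ v ∈ X, w a (-t a) v) := by
      rw [h2]
      ring
    rw [h4]
    refine (abs_add_le _ _).trans ?_
    have h5 : (b + 2 / 2 ^ jm) * (dd G X : ℝ) = 2 / 2 ^ jm * dd G X + b * dd G X := by
      ring
    rw [h5]
    exact add_le_add h3 h1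

end

end Pool.Agent.K5.Re
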