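import Mathlib
import Pool.Agent.Work.MP_974d84_co_k5.Defs5

/-!
# The final inequality: the strands and the local flows at their ends
-/

set_option linter.unusedSectionVars false
set_option linter.unusedVariables false

namespace Pool.Agent.K5

open Finset SimpleGraph Pool.Agent.Exp Pool.Agent.Log5 Pool.Agent.Log5.Clu

section flow

variable {V : Type} [Fintype V] [DecidableEq V]

/-- The net flow out of a set only passes the edges which leave the set. -/
theorem abs_netflow_le (G : SimpleGraph V) [DecidableRel G.Adj] {Ψ : V → V → ℝ}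
    (ha : ∀ u v, Ψ u v = - Ψ v u) {c : ℝ} (hb : ∀ u v, |Ψ u v| ≤ if G.Adj u v then c else 0)
    (X : Finset V) : |∑ u ∈ X, ∑ v, Ψ u v| ≤ c * dd G X := by
  classical
  have h1 : ∑ u ∈ X, ∑ v, Ψ u v = ∑ u ∈ X, ∑ v ∈ X, Ψ u v + ∑ u ∈ X, ∑ v ∈ Xᶜ, Ψ u v := by
    rw [← sum_add_distrib]
    exact sum_congr rfl fun u _ => (sum_add_sum_compl X _).symm
  have h2 : ∑ u ∈ X, ∑ v ∈ X, Ψ u v = 0 := by
    have e : ∑ u ∈ X, ∑ v ∈ X, Ψ u v = - ∑ u ∈ X, ∑ v ∈ X, Ψ u v := by
      conv_lhs => rw [sum_comm]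
      rw [← sum_neg_distrib]
      refine sum_congr rfl fun u _ => ?_
      rw [← sum_neg_distrib]
      exact sum_congr rfl fun v _ => ha v u
    linarith
  have h3 : ∑ u ∈ X, ∑ v ∈ Xᶜ, (if G.Adj u v then c else 0) = c * dd G X := by
    have e1 : (dd G X : ℝ) = ∑ u ∈ X, ∑ v ∈ Xᶜ, (if G.Adj u v then (1 : ℝ) else 0) := by
      rw [← dd_interedges, ← sum_product', ← sum_filter, sum_const, nsmul_eq_mul, mul_one]
      congr 2
    rw [e1, mul_sum]
    refine sum_congr rfl fun u _ => ?_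
    rw [mul_sum]
    refine sum_congr rfl fun v _ => ?_
    split_ifs <;> simp
  rw [h1, h2, zero_add, ← h3]
  refine (abs_sum_le_sum_abs _ _).trans (sum_le_sum fun u _ => ?_)
  exact (abs_sum_le_sum_abs _ _).trans (sum_le_sum fun v _ => hb u v)

end flow

theorem final_ineq {V : Type} [Fintype V] [DecidableEq V] {G : SimpleGraph V} [DecidableRel G.Adj]
    (h3 : ∀ v, G.degree v = 3) {H : SimpleGraph V} (hH : H ≤ G) {T : Finset V}
    (hdeg : ∀ v, (H.neighborSet v).ncard = if v ∈ T then 1 else 2) {x : V → ℤ}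
    (hx : ∀ v, x v = 1 ∨ x v = -1) (halt : ∀ u v, H.Adj u v → x u = - x v) {j₀ : ℕ}
    (hT : ∀ t ∈ T, ∀ t' ∈ T, t ≠ t' → Disjoint (Bl G.Adj j₀ t) (Bl G.Adj j₀ t'))
    {φ : V → V → V → ℝ} {w : V → V → ℝ} (h1 : ∀ t ∈ T, ∀ u v, φ t u v = - φ t v u)
    (h2 : ∀ t ∈ T, ∀ u v, φ t u v ≠ 0 → G.Adj u v ∧ u ∈ Bl G.Adj j₀ t ∧ v ∈ Bl G.Adj j₀ t)
    (h4 : ∀ t ∈ T, ∀ u v, |φ t u v| ≤ 2 / 5) (h5 : ∀ t ∈ T, ∀ u v, H.Adj u v → |φ t u v| ≤ 1 / 5)
    (h6 : ∀ t ∈ T, ∀ v, ∑ u, φ t v u = (if v = t then 1 else 0) - w t v) (X : Finset V) :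
    |∑ v ∈ X, (x v : ℝ)| ≤ 3 / 5 * dd G X + |∑ t ∈ T, (x t : ℝ) * ∑ v ∈ X, w t v| / 2 := by
  classical
  have hx1 : ∀ v, |(x v : ℝ)| = 1 := by
    intro v
    rcases hx v with h | h <;> rw [h] <;> simp
  set Θ : V → V → ℝ := fun u v => ∑ t ∈ T, (x t : ℝ) * φ t u v with hΘ
  set Ψ : V → V → ℝ := fun u v => (if H.Adj u v then (x u : ℝ) / 2 else 0) + Θ u v / 2 with hΨ
  -- at most one local flow passes an edge
  have hΘb : ∀ u v, ∀ b : ℝ, 0 ≤ b → (∀ t ∈ T, |φ t u v| ≤ b) → |Θ u v| ≤ b := by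
    intro u v b hb0 hb
    by_cases hex : ∃ t ∈ T, φ t u v ≠ 0
    · obtain ⟨t, ht, hne⟩ := hex
      have e : Θ u v = (x t : ℝ) * φ t u v := by
        refine sum_eq_single_of_mem t ht fun t' ht' htt' => ?_
        by_contra hcon
        have hne' : φ t' u v ≠ 0 := fun h => hcon (by rw [h, mul_zero])
        exact disjoint_left.1 (hT t' ht' t ht htt') (h2 t' ht' u v hne').2.1 (h2 t ht u v hne).2.1
      rw [e, abs_mul, hx1, one_mul]
      exact hb t ht
    · push Not at hex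
      have e : Θ u v = 0 := sum_eq_zero fun t ht => by rw [hex t ht, mul_zero]
      rw [e, abs_zero]
      exact hb0
  have hanti : ∀ u v, Ψ u v = - Ψ v u := by
    intro u v
    have e1 : Θ u v = - Θ v u := by
      simp only [hΘ]
      rw [← sum_neg_distrib]
      refine sum_congr rfl fun t ht => ?_
      rw [h1 t ht u v]
      ring
    have e2 : (if H.Adj u v then (x u : ℝ) / 2 else 0) = -(if H.Adj v u then (x v : ℝ) / 2 else 0) := by
      by_cases h : H.Adj u v
      · rw [if_pos h, if_pos h.symm, halt u v h]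
        push_cast
        ring
      · rw [if_neg h, if_neg fun h' => h h'.symm, neg_zero]
    simp only [hΨ]
    rw [e1, e2]
    ring
  have hbd : ∀ u v, |Ψ u v| ≤ if G.Adj u v then (3 / 5 : ℝ) else 0 := by
    intro u v
    by_cases hG : G.Adj u v
    · rw [if_pos hG]
      by_cases hHa : H.Adj u v
      · have e1 : |Θ u v| ≤ 1 / 5 := hΘb u v _ (by norm_num) fun t ht => h5 t ht u v hHa
        simp only [hΨ]
        rw [if_pos hHa]
        have e2 := abs_add_le ((x u : ℝ) / 2) (Θ u v / 2)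
        rw [abs_div, abs_div, hx1, abs_of_pos (by norm_num : (0 : ℝ) < 2)] at e2
        linarith
      · have e1 : |Θ u v| ≤ 2 / 5 := hΘb u v _ (by norm_num) fun t ht => h4 t ht u v
        simp only [hΨ]
        rw [if_neg hHa, zero_add, abs_div, abs_of_pos (by norm_num : (0 : ℝ) < 2)]
        linarith
    · rw [if_neg hG]
      have hHa : ¬ H.Adj u v := fun h => hG (hH h)
      have e1 : |Θ u v| ≤ 0 := hΘb u v 0 le_rfl fun t ht => by
        have : φ t u v = 0 := by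
          by_contra h
          exact hG (h2 t ht u v h).1
        rw [this, abs_zero]
      simp only [hΨ]
      rw [if_neg hHa, zero_add, abs_div, abs_of_pos (by norm_num : (0 : ℝ) < 2)]
      linarith
  have hdiv : ∀ u, ∑ v, Ψ u v = (x u : ℝ) - (∑ t ∈ T, (x t : ℝ) * w t u) / 2 := by
    intro u
    have e1 : ∑ v, (if H.Adj u v then (x u : ℝ) / 2 else 0)
        = (x u : ℝ) / 2 * (if u ∈ T then 1 else 2) := by
      have e : ((H.neighborSet u).ncard : ℝ) = if u ∈ T then 1 else 2 := by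
        rw [hdeg u]
        split_ifs <;> simp
      rw [← sum_filter, sum_const, nsmul_eq_mul, mul_comm, ← e]
      congr 2
      rw [← Set.ncard_coe_finset]
      congr 1
      ext v
      simp
    have e2 : ∑ v, Θ u v = (if u ∈ T then (x u : ℝ) else 0) - ∑ t ∈ T, (x t : ℝ) * w t u := by
      simp only [hΘ]
      rw [sum_comm]
      have : ∀ t ∈ T, ∑ v, (x t : ℝ) * φ t u v
          = (if u = t then (x t : ℝ) else 0) - (x t : ℝ) * w t u := by
        intro t ht
        rw [← mul_sum, h6 t ht u, mul_sub]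
        split_ifs <;> simp
      rw [sum_congr rfl this, sum_sub_distrib, sum_ite_eq]
    simp only [hΨ]
    rw [sum_add_distrib, e1, ← sum_div, e2]
    split_ifs <;> ring
  have hmain := abs_netflow_le G hanti hbd X
  have hsum : ∑ v ∈ X, (x v : ℝ) = ∑ u ∈ X, ∑ v, Ψ u v
      + (∑ t ∈ T, (x t : ℝ) * ∑ v ∈ X, w t v) / 2 := by
    rw [sum_congr rfl fun u _ => hdiv u, sum_sub_distrib, ← sum_div, sum_comm]
    have : ∑ t ∈ T, ∑ v ∈ X, (x t : ℝ) * w t v = ∑ t ∈ T, (x t : ℝ) * ∑ v ∈ X, w t v :=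
      sum_congr rfl fun t _ => by rw [mul_sum]
    rw [this]
    ring
  rw [hsum]
  refine (abs_add_le _ _).trans (add_le_add hmain ?_)
  rw [abs_div, abs_of_pos (by norm_num : (0 : ℝ) < 2)]

end Pool.Agent.K5
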