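import Mathlib
import Pool.Agent.Work.MP_974d84_co_k5.DefsE
import Pool.Agent.Work.MP_974d84_co_k5.FinalIneq

/-!
# E5: the final inequality with marked edges
-/

set_option linter.unusedSectionVars false

namespace Pool.Agent.K5

open Finset SimpleGraph Pool.Agent.Exp Pool.Agent.Log5 Pool.Agent.Log5.Clu

variable {V : Type} [Fintype V] [DecidableEq V] {G : SimpleGraph V} [DecidableRel G.Adj]

/-- A flow which does not use the marked edges. -/
theorem abs_netflow_m {p : V → V → ℝ} (hp : ∀ u v, p u v = p v u) {Ψ : V → V → ℝ}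
    (ha : ∀ u v, Ψ u v = - Ψ v u) {c : ℝ} (hc : 0 ≤ c)
    (hb : ∀ u v, G.Adj u v → p u v = 0 → |Ψ u v| ≤ c)
    (h0 : ∀ u v, ¬ (G.Adj u v ∧ p u v = 0) → Ψ u v = 0) (X : Finset V) :
    |∑ u ∈ X, ∑ v, Ψ u v| ≤ c * dM G p X := by
  classical
  let H : SimpleGraph V :=
    { Adj := fun u v => G.Adj u v ∧ p u v = 0
      symm := ⟨fun u v h => ⟨h.1.symm, by rw [hp]; exact h.2⟩⟩
      loopless := ⟨fun u h => G.loopless.irrefl u h.1⟩ }
  have h1 := abs_netflow_le H ha (c := c) (fun u v => by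
    by_cases h : G.Adj u v ∧ p u v = 0
    · rw [if_pos h]
      exact hb u v h.1 h.2
    · rw [if_neg h, h0 u v h, abs_zero]) X
  have h2 : dd H X = dM G p X := by
    unfold dd dM
    congr 1
    ext e
    rw [mem_cut]
    simp only [mem_filter, mem_univ, true_and]
    exact Iff.rfl
  rw [h2] at h1
  exact h1

/-- **F4.** The final inequality: labels `x`, charges `xx v = x v + (half of the mark at v)`,
strands along `A`, local flows `Θ`. -/
theorem final_e_core {p : V → V → ℝ} (hp : ∀ u v, p u v = p v u) {x : V → ℤ} (xx : V → ℝ)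
    (A : V → V → Prop) [DecidableRel A]
    (hA : ∀ u v, A u v → A v u ∧ G.Adj u v ∧ x u = - x v)
    (Θ : V → V → ℝ) (hΘ : ∀ u v, Θ u v = - Θ v u) {c : ℝ} (hc : 0 ≤ c)
    (hbd : ∀ u v, G.Adj u v → p u v = 0 → |(if A u v then (x u : ℝ) else 0) + Θ u v| ≤ c)
    (hΘ0 : ∀ u v, Θ u v ≠ 0 → G.Adj u v ∧ p u v = 0)
    (hAp : ∀ u v, A u v → p u v = 0)
    (ch ν : V → ℝ) (hdiv : ∀ v, ∑ u, Θ v u = ch v - ν v)
    (h5 : ∀ v, ((univ.filter fun u => A v u).card : ℝ) * x v + ch v = 2 * xx v)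
    (X : Finset V) :
    2 * |∑ v ∈ X, xx v| ≤ c * dM G p X + |∑ v ∈ X, ν v| := by
  classical
  set Ψ : V → V → ℝ := fun u v => (if A u v then (x u : ℝ) else 0) + Θ u v with hΨ
  have hanti : ∀ u v, Ψ u v = - Ψ v u := by
    intro u v
    have e2 : (if A u v then (x u : ℝ) else 0) = -(if A v u then (x v : ℝ) else 0) := by
      by_cases h : A u v
      · rw [if_pos h, if_pos (hA u v h).1, (hA u v h).2.2]
        push_cast
        ring
      · rw [if_neg h, if_neg fun h' => h (hA v u h').1, neg_zero]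
    simp only [hΨ]
    rw [hΘ, e2]
    ring
  have hdivΨ : ∀ u, ∑ v, Ψ u v = 2 * xx u - ν u := by
    intro u
    have e1 : ∑ v, (if A u v then (x u : ℝ) else 0)
        = ((univ.filter fun v => A u v).card : ℝ) * x u := by
      rw [← sum_filter, sum_const, nsmul_eq_mul]
    have e3 := h5 u
    have e4 := hdiv u
    simp only [hΨ]
    rw [sum_add_distrib, e1, e4]
    linarith
  have hmain := abs_netflow_m (G := G) hp hanti hc hbd (fun u v h => by
    have h1 : Θ u v = 0 := by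
      by_contra h'
      exact h (hΘ0 u v h')
    have h2 : ¬ A u v := fun h' => h ⟨(hA u v h').2.1, hAp u v h'⟩
    simp only [hΨ]
    rw [if_neg h2, h1, add_zero]) X
  have hsum : 2 * ∑ v ∈ X, xx v = ∑ u ∈ X, ∑ v, Ψ u v + ∑ v ∈ X, ν v := by
    rw [sum_congr rfl fun u _ => hdivΨ u, sum_sub_distrib, ← mul_sum]
    ring
  calc 2 * |∑ v ∈ X, xx v| = |2 * ∑ v ∈ X, xx v| := by
        rw [abs_mul]
        norm_num
    _ ≤ _ := by
        rw [hsum]
        exact (abs_add_le _ _).trans (by linarith)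

/-- The load of an edge which carries the strands, one flow `P` of a window and one flow `Q` of a
mark: `J ≥ 3`. -/
theorem load_total {J : ℕ} (hJ : 3 ≤ J) {base P Q : ℝ}
    (hP : |base + P| ≤ 1 + 1 / 2 ^ (J + 1)) (hQ : Q = 0 ∨
      (P = 0 ∧ |base + Q| ≤ 1 + 4 / 5 / 2 ^ (J + 1)) ∨ |Q| ≤ 4 / 5 / 2 ^ (J + 1)) :
    |base + (P + Q)| ≤ 28 / 25 := by
  have h1 : (1 : ℝ) / 2 ^ (J + 1) ≤ 1 / 16 := by
    rw [show (16 : ℝ) = 2 ^ 4 by norm_num]
    exact one_div_le_one_div_of_le (by positivity) (pow_le_pow_right₀ (by norm_num) (by omega))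
  have h2 : (4 : ℝ) / 5 / 2 ^ (J + 1) = 4 / 5 * (1 / 2 ^ (J + 1)) := by ring
  rw [h2] at hQ
  rcases hQ with h | ⟨h, h'⟩ | h
  · rw [h, add_zero]
    linarith
  · rw [h, zero_add]
    linarith
  · rw [← add_assoc]
    refine (abs_add_le _ _).trans ?_
    linarith

end Pool.Agent.K5
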