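import Mathlib
import Pool.Agent.Work.MP_974d84_co_k5.DefsW
import Pool.Agent.Work.MP_974d84_co_k5.Words

/-!
# W6: the flow of a defect end
-/

set_option linter.unusedSectionVars false

namespace Pool.Agent.K5

open Finset SimpleGraph Pool.Agent.Exp Pool.Agent.Log5 Pool.Agent.Log5.Clu

namespace LocalW

/-- The words of length `n`. -/
def wd : ℕ → Finset (List Bool)
  | 0 => {[]}
  | n + 1 => (wd n).image (List.cons true) ∪ (wd n).image (List.cons false)

/-- The words of length less than `n`. -/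
def wl : ℕ → Finset (List Bool)
  | 0 => ∅
  | n + 1 => wl n ∪ wd n

theorem mem_wd {n : ℕ} {c : List Bool} : c ∈ wd n ↔ c.length = n := by
  induction n generalizing c with
  | zero => simp [wd, List.length_eq_zero_iff]
  | succ n ih =>
    simp only [wd, mem_union, mem_image]
    constructor
    · rintro (⟨d, hd, rfl⟩ | ⟨d, hd, rfl⟩) <;> simp [ih.1 hd]
    · intro h
      cases c with
      | nil => simp at h
      | cons b c =>
        have : c ∈ wd n := ih.2 (by simpa using h)
        cases b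
        · exact Or.inr ⟨c, this, rfl⟩
        · exact Or.inl ⟨c, this, rfl⟩

theorem mem_wl {n : ℕ} {c : List Bool} : c ∈ wl n ↔ c.length < n := by
  induction n with
  | zero => simp [wl]
  | succ n ih =>
    rw [wl, mem_union, ih, mem_wd]
    omega

theorem sum_wd_succ (n : ℕ) (f : List Bool → ℝ) :
    ∑ c ∈ wd (n + 1), f c = ∑ c ∈ wd n, (f (true :: c) + f (false :: c)) := by
  have hd : Disjoint ((wd n).image (List.cons true)) ((wd n).image (List.cons false)) := by
    rw [Finset.disjoint_left]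
    intro c h1 h2
    obtain ⟨d, -, rfl⟩ := mem_image.1 h1
    obtain ⟨d', -, h⟩ := mem_image.1 h2
    simp at h
  rw [wd, sum_union hd, sum_image, sum_image, ← sum_add_distrib]
  · intro x _ y _ h
    simpa using h
  · intro x _ y _ h
    simpa using h

theorem sum_wl_succ (n : ℕ) (f : List Bool → ℝ) :
    ∑ c ∈ wl (n + 1), f c = ∑ c ∈ wl n, f c + ∑ c ∈ wd n, f c := by
  rw [wl, sum_union]
  rw [Finset.disjoint_left]
  intro c h1 h2
  rw [mem_wl] at h1
  rw [mem_wd] at h2
  omega

theorem sum_wl_succ' (n : ℕ) (f : List Bool → ℝ) :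
    ∑ c ∈ wl (n + 1), f c = f [] + ∑ c ∈ wl n, (f (true :: c) + f (false :: c)) := by
  induction n with
  | zero => simp [wl, wd]
  | succ n ih =>
    rw [sum_wl_succ, ih, sum_wd_succ, sum_wl_succ]
    ring

theorem card_wd (n : ℕ) : (wd n).card = 2 ^ n := by
  have h : ∀ n, ((wd n).card : ℝ) = 2 ^ n := by
    intro n
    induction n with
    | zero => simp [wd]
    | succ n ih =>
      have h1 := sum_wd_succ n fun _ => 1
      simp only [sum_const, nsmul_eq_mul, mul_one] at h1
      rw [h1, ih, pow_succ]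
      ring
  exact_mod_cast h n

/-- The word of a tree vertex, without its last letter. -/
def tr : List Bool → List (Option Bool)
  | [] => []
  | b :: c => some b :: none :: tr c

variable {V : Type} [Fintype V] [DecidableEq V] {μ : V → V} {π : Equiv.Perm V}

theorem act_tr (v : V) (c : List Bool) : act μ π (none :: tr c) v = TT μ π v c := by
  induction c with
  | nil => rfl
  | cons b c ih =>
    have : act μ π (none :: tr (b :: c)) v = μ (stp π b (act μ π (none :: tr c) v)) := rfl
    rw [this, ih]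
    rfl

theorem length_tr (c : List Bool) : (tr c).length = 2 * c.length := by
  induction c with
  | nil => rfl
  | cons b c ih =>
    simp only [tr, List.length_cons, ih]
    omega

theorem tr_inj {c c' : List Bool} (h : tr c = tr c') : c = c' := by
  induction c generalizing c' with
  | nil =>
    cases c' with
    | nil => rfl
    | cons b c' => simp [tr] at h
  | cons b c ih =>
    cases c' with
    | nil => simp [tr] at h
    | cons b' c' =>
      simp only [tr, List.cons.injEq, Option.some.injEq, true_and] at h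
      rw [h.1, ih h.2]

theorem red_tr (c : List Bool) : Red (none :: tr c) := by
  unfold Red
  induction c with
  | nil => simp [tr]
  | cons b c ih =>
    rw [tr, List.isChain_cons_cons, List.isChain_cons_cons]
    exact ⟨by simp [linv], by simp [linv], ih⟩

theorem red_some (b : Bool) (c : List Bool) : Red (some b :: none :: tr c) := by
  have h := red_tr c
  unfold Red at h ⊢
  rw [List.isChain_cons_cons]
  exact ⟨by simp [linv], h⟩

/-- The unit flow on an arc. -/
noncomputable def Ea (a b u u' : V) : ℝ :=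
  (if u = a ∧ u' = b then 1 else 0) - (if u = b ∧ u' = a then 1 else 0)

theorem Ea_anti (a b u u' : V) : Ea a b u u' = - Ea a b u' u := by
  unfold Ea
  have e1 : (u' = a ∧ u = b) ↔ (u = b ∧ u' = a) := and_comm
  have e2 : (u' = b ∧ u = a) ↔ (u = a ∧ u' = b) := and_comm
  rw [if_congr e1 rfl rfl, if_congr e2 rfl rfl]
  ring

theorem Ea_ne {a b u u' : V} (h : Ea a b u u' ≠ 0) : (u = a ∧ u' = b) ∨ (u = b ∧ u' = a) := by
  by_contra hc
  push Not at hc
  apply h
  unfold Ea
  rw [if_neg fun h => hc.1 h.1 h.2, if_neg fun h => hc.2 h.1 h.2, sub_zero]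

theorem Ea_one {a b : V} (h : a ≠ b) : Ea a b a b = 1 := by
  unfold Ea
  rw [if_pos ⟨rfl, rfl⟩, if_neg fun h' => h h'.1, sub_zero]

theorem Ea_abs (a b u u' : V) : |Ea a b u u'| ≤ 1 := by
  unfold Ea
  split_ifs <;> norm_num

theorem sum_Ea (a b u : V) : ∑ u', Ea a b u u' = (if u = a then 1 else 0) - (if u = b then 1 else 0) := by
  have h : ∀ a b : V, ∑ u', (if u = a ∧ u' = b then (1 : ℝ) else 0) = if u = a then 1 else 0 := by
    intro a b
    by_cases h : u = a <;> simp [h]
  unfold Ea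
  rw [sum_sub_distrib, h, h]

variable {G : SimpleGraph V} [DecidableRel G.Adj]

/-- W6, with the uniqueness of words as a hypothesis. -/
theorem end_flow_of (hf : Frame G μ π) {k j₀ : ℕ} (v : V)
    (hu : ∀ w w' : List (Option Bool), Red w → Red w' → w.length + w'.length + 1 < k →
      act μ π w v = act μ π w' v → w = w')
    (hk : 4 * j₀ + 12 ≤ k) : ∃ (φ : V → V → ℝ) (w : V → ℝ),
      (∀ u u', φ u u' = - φ u' u) ∧
      (∀ u u', |φ u u'| ≤ 1) ∧
      (∀ u u', φ u u' ≠ 0 → (u' = μ u ∧ ((∃ c : List Bool, c.length ≤ j₀ ∧ u = TT μ π v c) ∨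
          ∃ c : List Bool, c.length ≤ j₀ ∧ u' = TT μ π v c)) ∨
        (∃ (c : List Bool) (b : Bool), c.length < j₀ ∧ u = TT μ π v c ∧ u' = stp π b u ∧
          φ u u' = 1 / 2 ^ (c.length + 1)) ∨
        ∃ (c : List Bool) (b : Bool), c.length < j₀ ∧ u' = TT μ π v c ∧ u = stp π b u' ∧
          φ u u' = - (1 / 2 ^ (c.length + 1))) ∧
      (∀ u, 0 ≤ w u) ∧ (∀ u, w u ≤ 1 / 2 ^ j₀) ∧
      (∀ u, w u ≠ 0 → ∃ c : List Bool, c.length = j₀ ∧ u = TT μ π v c) ∧ ∑ u, w u = 1 ∧
      ∀ u, ∑ u', φ u u' = (if u = v then 1 else 0) - w u := by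
  classical
  have hmm := hf.mu_mu
  -- the vertices of the tree are distinct
  have T1 : ∀ c c' : List Bool, c.length ≤ j₀ → c'.length ≤ j₀ →
      TT μ π v c = TT μ π v c' → c = c' := by
    intro c c' hc hc' h
    rw [← act_tr v c, ← act_tr v c'] at h
    have h1 := hu _ _ (red_tr c) (red_tr c') (by
      simp only [List.length_cons, length_tr]; omega) h
    exact tr_inj (List.cons.inj h1).2
  have T2 : ∀ (c c' : List Bool) (b : Bool), c.length ≤ j₀ → c'.length ≤ j₀ →
      stp π b (TT μ π v c) ≠ TT μ π v c' := by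
    intro c c' b hc hc' h
    rw [← act_tr v c, ← act_tr v c'] at h
    have h1 := hu (some b :: none :: tr c) _ (red_some b c) (red_tr c') (by
      simp only [List.length_cons, length_tr]; omega) h
    have h2 := congrArg List.length h1
    simp only [List.length_cons, length_tr] at h2
    omega
  have T3 : ∀ c : List Bool, c.length ≤ j₀ → TT μ π v c ≠ v := by
    intro c hc h
    rw [← act_tr v c] at h
    have h1 := hu (none :: tr c) [] (red_tr c) (by unfold Red; simp) (by
      simp only [List.length_cons, length_tr, List.length_nil]; omega) h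
    simp at h1
  have T5 : ∀ c c' : List Bool, c.length ≤ j₀ → c'.length ≤ j₀ →
      μ (TT μ π v c) ≠ TT μ π v c' := by
    intro c c' hc hc' h
    cases c with
    | nil =>
      have : μ (TT μ π v []) = v := hmm v
      rw [this] at h
      exact T3 c' hc' h.symm
    | cons b c =>
      have : μ (TT μ π v (b :: c)) = stp π b (TT μ π v c) := hmm _
      rw [this] at h
      exact T2 c c' b (by simp only [List.length_cons] at hc; omega) hc' h
  have hst : ∀ (b : Bool) (a : V), stp π b a ≠ μ a := by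
    intro b a h
    cases b
    · exact hf.mu_ne' a h.symm
    · exact hf.mu_ne a h.symm
  have hss : ∀ (b b' : Bool) (a : V), stp π b a = stp π b' a → b = b' := by
    intro b b' a h
    cases b <;> cases b'
    · rfl
    · exact absurd h.symm (hf.pi_ne a)
    · exact absurd h (hf.pi_ne a)
    · rfl
  have hne : ∀ a, μ a ≠ a := by
    intro a h
    have h1 : G.Adj a (μ a) := (hf.adj a (μ a)).2 (Or.inl rfl)
    rw [h] at h1
    exact G.irrefl h1
  have hsn : ∀ (b : Bool) (a : V), a ≠ stp π b a := by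
    intro b a h
    have h1 : G.Adj a (stp π b a) := by
      rw [hf.adj]
      cases b
      · exact Or.inr (Or.inr rfl)
      · exact Or.inr (Or.inl rfl)
    rw [← h] at h1
    exact G.irrefl h1
  let A : V → V → ℝ := fun u u' =>
    ∑ c ∈ wl (j₀ + 1), 1 / 2 ^ c.length * Ea (μ (TT μ π v c)) (TT μ π v c) u u'
  let B : V → V → ℝ := fun u u' => ∑ p ∈ wl j₀ ×ˢ (univ : Finset Bool),
    1 / 2 ^ (p.1.length + 1) * Ea (TT μ π v p.1) (stp π p.2 (TT μ π v p.1)) u u'
  let w : V → ℝ := fun u => ∑ c ∈ wd j₀, if u = TT μ π v c then 1 / 2 ^ j₀ else 0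
  have hAanti : ∀ u u', A u u' = - A u' u := by
    intro u u'
    simp only [A]
    rw [← sum_neg_distrib]
    refine sum_congr rfl fun c _ => ?_
    rw [Ea_anti]; ring
  have hBanti : ∀ u u', B u u' = - B u' u := by
    intro u u'
    simp only [B]
    rw [← sum_neg_distrib]
    refine sum_congr rfl fun c _ => ?_
    rw [Ea_anti]; ring
  -- the values of `A`
  have hA1 : ∀ u u', A u u' ≠ 0 → (u' = μ u ∧
      ((∃ c : List Bool, c.length ≤ j₀ ∧ u = TT μ π v c) ∨
        ∃ c : List Bool, c.length ≤ j₀ ∧ u' = TT μ π v c)) ∧ |A u u'| ≤ 1 := by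
    intro u u' h
    obtain ⟨c, hc, hne0⟩ := exists_ne_zero_of_sum_ne_zero h
    have hcl : c.length ≤ j₀ := by
      have := mem_wl.1 hc
      omega
    have hE : Ea (μ (TT μ π v c)) (TT μ π v c) u u' ≠ 0 := right_ne_zero_of_mul hne0
    have hsing : A u u' = 1 / 2 ^ c.length * Ea (μ (TT μ π v c)) (TT μ π v c) u u' := by
      refine sum_eq_single c (fun c' hc' hcc' => ?_) fun h' => absurd hc h'
      have hcl' : c'.length ≤ j₀ := by
        have := mem_wl.1 hc'
        omega
      by_contra hcon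
      have hE' := right_ne_zero_of_mul hcon
      rcases Ea_ne hE with ⟨h1, h2⟩ | ⟨h1, h2⟩ <;> rcases Ea_ne hE' with ⟨h3, h4⟩ | ⟨h3, h4⟩
      · exact hcc' (T1 c' c hcl' hcl (h4.symm.trans h2))
      · exact T5 c c' hcl hcl' (h1.symm.trans h3)
      · exact T5 c' c hcl' hcl (h3.symm.trans h1)
      · exact hcc' (T1 c' c hcl' hcl (h3.symm.trans h1))
    refine ⟨?_, ?_⟩
    · rcases Ea_ne hE with ⟨h1, h2⟩ | ⟨h1, h2⟩
      · refine ⟨?_, Or.inr ⟨c, hcl, h2⟩⟩
        rw [h1, h2, hmm]
      · refine ⟨?_, Or.inl ⟨c, hcl, h1⟩⟩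
        rw [h1, h2]
    · rw [hsing, abs_mul]
      have h1 : |(1 : ℝ) / 2 ^ c.length| ≤ 1 := by
        rw [abs_of_nonneg (by positivity), div_le_one (by positivity)]
        exact one_le_pow₀ (by norm_num)
      have h2 := Ea_abs (μ (TT μ π v c)) (TT μ π v c) u u'
      calc |(1 : ℝ) / 2 ^ c.length| * |Ea (μ (TT μ π v c)) (TT μ π v c) u u'|
          ≤ 1 * 1 := mul_le_mul h1 h2 (abs_nonneg _) (by norm_num)
        _ = 1 := by norm_num
  -- the values of `B`
  have hBval : ∀ (c : List Bool) (b : Bool), c.length < j₀ →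
      B (TT μ π v c) (stp π b (TT μ π v c)) = 1 / 2 ^ (c.length + 1) := by
    intro c b hc
    have hmem : (c, b) ∈ wl j₀ ×ˢ (univ : Finset Bool) :=
      mem_product.2 ⟨mem_wl.2 hc, mem_univ _⟩
    have hsing : B (TT μ π v c) (stp π b (TT μ π v c)) = 1 / 2 ^ (c.length + 1) *
        Ea (TT μ π v c) (stp π b (TT μ π v c)) (TT μ π v c) (stp π b (TT μ π v c)) := by
      refine sum_eq_single (c, b) (fun p hp hpp => ?_) fun h' => absurd hmem h'
      have hpl : p.1.length < j₀ := mem_wl.1 (mem_product.1 hp).1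
      by_contra hcon
      rcases Ea_ne (right_ne_zero_of_mul hcon) with ⟨h1, h2⟩ | ⟨h1, h2⟩
      · have h3 : c = p.1 := T1 c p.1 hc.le hpl.le h1
        rw [← h3] at h2
        have h4 := hss b p.2 _ h2
        exact hpp (Prod.ext h3.symm h4.symm)
      · exact T2 c p.1 b hc.le hpl.le h2
    rw [hsing, Ea_one (hsn b _), mul_one]
  have hB1 : ∀ u u', B u u' ≠ 0 →
      (∃ (c : List Bool) (b : Bool), c.length < j₀ ∧ u = TT μ π v c ∧ u' = stp π b u ∧
          B u u' = 1 / 2 ^ (c.length + 1)) ∨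
        ∃ (c : List Bool) (b : Bool), c.length < j₀ ∧ u' = TT μ π v c ∧ u = stp π b u' ∧
          B u u' = - (1 / 2 ^ (c.length + 1)) := by
    intro u u' h
    obtain ⟨p, hp, hne0⟩ := exists_ne_zero_of_sum_ne_zero h
    have hpl : p.1.length < j₀ := mem_wl.1 (mem_product.1 hp).1
    rcases Ea_ne (right_ne_zero_of_mul hne0) with ⟨h1, h2⟩ | ⟨h1, h2⟩
    · left
      refine ⟨p.1, p.2, hpl, h1, by rw [h1, h2], ?_⟩
      rw [h1, h2]
      exact hBval p.1 p.2 hpl
    · right
      refine ⟨p.1, p.2, hpl, h2, by rw [h1, h2], ?_⟩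
      rw [hBanti, h1, h2, hBval p.1 p.2 hpl]
  have hAB : ∀ u u', B u u' ≠ 0 → A u u' = 0 := by
    intro u u' h
    by_contra hA0
    have h1 := (hA1 u u' hA0).1.1
    rcases hB1 u u' h with ⟨c, b, -, -, h2, -⟩ | ⟨c, b, -, -, h2, -⟩
    · exact hst b u (h2.symm.trans h1)
    · have h3 : μ u' = u := by rw [h1, hmm]
      exact hst b u' (h2.symm.trans h3.symm)
  have hpow1 : ∀ n : ℕ, (1 : ℝ) / 2 ^ n ≤ 1 := by
    intro n
    rw [div_le_one (by positivity)]
    exact one_le_pow₀ (by norm_num)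
  have hpow0 : ∀ n : ℕ, (0 : ℝ) ≤ 1 / 2 ^ n := fun n => by positivity
  refine ⟨fun u u' => A u u' + B u u', w, ?_, ?_, ?_, ?_, ?_, ?_, ?_, ?_⟩
  · intro u u'
    simp only
    rw [hAanti, hBanti]; ring
  · intro u u'
    simp only
    by_cases hB0 : B u u' = 0
    · rw [hB0, add_zero]
      by_cases hA0 : A u u' = 0
      · rw [hA0]; simp
      · exact (hA1 u u' hA0).2
    · rw [hAB u u' hB0, zero_add]
      rcases hB1 u u' hB0 with ⟨c, b, -, -, -, h2⟩ | ⟨c, b, -, -, -, h2⟩
      · rw [h2, abs_of_nonneg (hpow0 _)]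
        exact hpow1 _
      · rw [h2, abs_neg, abs_of_nonneg (hpow0 _)]
        exact hpow1 _
  · intro u u' h
    simp only at h ⊢
    by_cases hB0 : B u u' = 0
    · rw [hB0, add_zero] at h
      exact Or.inl (hA1 u u' h).1
    · rw [hAB u u' hB0, zero_add]
      exact Or.inr (hB1 u u' hB0)
  · intro u
    refine sum_nonneg fun c _ => ?_
    split_ifs
    · exact hpow0 _
    · exact le_rfl
  · intro u
    by_cases hex : ∃ c ∈ wd j₀, u = TT μ π v c
    · obtain ⟨c, hc, h1⟩ := hex
      have hcl := mem_wd.1 hc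
      have : w u = if u = TT μ π v c then 1 / 2 ^ j₀ else 0 := by
        refine sum_eq_single c (fun c' hc' hcc' => ?_) fun h' => absurd hc h'
        have hcl' := mem_wd.1 hc'
        rw [if_neg]
        intro h2
        exact hcc' (T1 c' c hcl'.le hcl.le (h2.symm.trans h1))
      rw [this, if_pos h1]
    · push Not at hex
      have : w u = 0 := sum_eq_zero fun c hc => by rw [if_neg (hex c hc)]
      rw [this]
      exact hpow0 _
  · intro u h
    obtain ⟨c, hc, h1⟩ := exists_ne_zero_of_sum_ne_zero h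
    refine ⟨c, mem_wd.1 hc, ?_⟩
    by_contra h2
    rw [if_neg h2] at h1
    exact h1 rfl
  · simp only [w]
    rw [sum_comm]
    have h1 : ∀ c ∈ wd j₀, ∑ u, (if u = TT μ π v c then (1 : ℝ) / 2 ^ j₀ else 0) = 1 / 2 ^ j₀ := by
      intro c _
      simp
    rw [sum_congr rfl h1, sum_const, card_wd, nsmul_eq_mul]
    push_cast
    rw [mul_one_div, div_self (by positivity)]
  · intro u
    simp only
    have hA2 : ∑ u', A u u' = ∑ c ∈ wl (j₀ + 1), 1 / 2 ^ c.length *
        ((if u = μ (TT μ π v c) then 1 else 0) - (if u = TT μ π v c then 1 else 0)) := by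
      simp only [A]
      rw [sum_comm]
      refine sum_congr rfl fun c _ => ?_
      rw [← mul_sum, sum_Ea]
    have hB2 : ∑ u', B u u' = ∑ c ∈ wl j₀, ∑ b : Bool, 1 / 2 ^ (c.length + 1) *
        ((if u = TT μ π v c then 1 else 0) - (if u = stp π b (TT μ π v c) then 1 else 0)) := by
      simp only [B]
      rw [sum_comm, sum_product]
      refine sum_congr rfl fun c _ => sum_congr rfl fun b _ => ?_
      rw [← mul_sum, sum_Ea]
    have hA3 : ∑ c ∈ wl (j₀ + 1), (1 : ℝ) / 2 ^ c.length *
        (if u = μ (TT μ π v c) then 1 else 0) = (if u = v then 1 else 0) +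
        ∑ c ∈ wl j₀, ∑ b : Bool, 1 / 2 ^ (c.length + 1) *
          (if u = stp π b (TT μ π v c) then 1 else 0) := by
      rw [sum_wl_succ']
      congr 1
      · have : μ (TT μ π v []) = v := hmm v
        rw [this]
        simp
      · refine sum_congr rfl fun c _ => ?_
        have h1 : ∀ b, μ (TT μ π v (b :: c)) = stp π b (TT μ π v c) := fun b => hmm _
        rw [Fintype.sum_bool, h1, h1]
        simp only [List.length_cons]
    have hA4 : ∑ c ∈ wl (j₀ + 1), (1 : ℝ) / 2 ^ c.length *
        (if u = TT μ π v c then 1 else 0) = ∑ c ∈ wl j₀, (1 : ℝ) / 2 ^ c.length *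
        (if u = TT μ π v c then 1 else 0) + w u := by
      rw [sum_wl_succ]
      congr 1
      simp only [w]
      refine sum_congr rfl fun c hc => ?_
      rw [mem_wd.1 hc]
      split_ifs <;> simp
    have hB3 : ∑ c ∈ wl j₀, ∑ _b : Bool, (1 : ℝ) / 2 ^ (c.length + 1) *
        (if u = TT μ π v c then 1 else 0) = ∑ c ∈ wl j₀, (1 : ℝ) / 2 ^ c.length *
        (if u = TT μ π v c then 1 else 0) := by
      refine sum_congr rfl fun c _ => ?_
      rw [Fintype.sum_bool, pow_succ]
      have h2 : (0 : ℝ) < 2 ^ c.length := by positivity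
      field_simp
      ring
    rw [sum_add_distrib, hA2, hB2]
    simp only [mul_sub, sum_sub_distrib]
    rw [hA3, hA4, hB3]
    ring

end LocalW

/-- W6: the flow of a defect end. The flow is the sum of the arcs of the tree
behind the third edge of `v` up to the level `j₀`, with the values `1 / 2 ^ level`. -/
theorem end_flow {V : Type} [Fintype V] [DecidableEq V] {G : SimpleGraph V} [DecidableRel G.Adj]
    {μ : V → V} {π : Equiv.Perm V} (hf : Frame G μ π) {k j₀ : ℕ} (hg : Gir G k)
    (hk : 4 * j₀ + 12 ≤ k) (v : V) : ∃ (φ : V → V → ℝ) (w : V → ℝ),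
      (∀ u u', φ u u' = - φ u' u) ∧
      (∀ u u', |φ u u'| ≤ 1) ∧
      (∀ u u', φ u u' ≠ 0 → (u' = μ u ∧ ((∃ c : List Bool, c.length ≤ j₀ ∧ u = TT μ π v c) ∨
          ∃ c : List Bool, c.length ≤ j₀ ∧ u' = TT μ π v c)) ∨
        (∃ (c : List Bool) (b : Bool), c.length < j₀ ∧ u = TT μ π v c ∧ u' = stp π b u ∧
          φ u u' = 1 / 2 ^ (c.length + 1)) ∨
        ∃ (c : List Bool) (b : Bool), c.length < j₀ ∧ u' = TT μ π v c ∧ u = stp π b u' ∧
          φ u u' = - (1 / 2 ^ (c.length + 1))) ∧
      (∀ u, 0 ≤ w u) ∧ (∀ u, w u ≤ 1 / 2 ^ j₀) ∧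
      (∀ u, w u ≠ 0 → ∃ c : List Bool, c.length = j₀ ∧ u = TT μ π v c) ∧ ∑ u, w u = 1 ∧
      ∀ u, ∑ u', φ u u' = (if u = v then 1 else 0) - w u :=
  LocalW.end_flow_of hf v (fun _ _ h1 h2 h3 h4 => act_uniq hf hg h1 h2 h3 h4) hk

end Pool.Agent.K5
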