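import Pool.Agent.Work.MP_974d84_co_k5.Words

/-!
# The support of the flow of a defect end: position and uniqueness
-/

set_option linter.unusedSectionVars false
set_option linter.unusedVariables false

namespace Pool.Agent.K5

open Finset SimpleGraph Pool.Agent.Exp Pool.Agent.Log5 Pool.Agent.Log5.Clu

/-- The edges which can be used by the flow of the end `v`. -/
def Sup {V : Type} (μ : V → V) (π : Equiv.Perm V) (j₀ : ℕ) (v u u' : V) : Prop :=
  (u' = μ u ∧ ((∃ c : List Bool, c.length ≤ j₀ ∧ u = TT μ π v c) ∨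
    ∃ c : List Bool, c.length ≤ j₀ ∧ u' = TT μ π v c)) ∨
  (∃ (c : List Bool) (b : Bool), c.length < j₀ ∧ u = TT μ π v c ∧ u' = stp π b u) ∨
  ∃ (c : List Bool) (b : Bool), c.length < j₀ ∧ u' = TT μ π v c ∧ u = stp π b u'

variable {V : Type} [Fintype V] [DecidableEq V] {G : SimpleGraph V} [DecidableRel G.Adj]
  {μ : V → V} {π : Equiv.Perm V}

theorem stp_flip {b : Bool} {u u' : V} (h : u = stp π b u') : u' = stp π (!b) u := by
  rw [h]
  cases b <;> simp [stp]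

theorem sup_edge {j₀ : ℕ} {v u u' : V} (h : Sup μ π j₀ v u u') :
    (u' = μ u ∨ ∃ b, u' = stp π b u) ∧
      ∃ c : List Bool, c.length ≤ j₀ ∧ (u = TT μ π v c ∨ u' = TT μ π v c) := by
  rcases h with ⟨h, ⟨c, hc, h1⟩ | ⟨c, hc, h1⟩⟩ | ⟨c, b, hc, h1, h2⟩ | ⟨c, b, hc, h1, h2⟩
  · exact ⟨Or.inl h, c, hc, Or.inl h1⟩
  · exact ⟨Or.inl h, c, hc, Or.inr h1⟩
  · exact ⟨Or.inr ⟨b, h2⟩, c, hc.le, Or.inl h1⟩
  · exact ⟨Or.inr ⟨!b, stp_flip h2⟩, c, hc.le, Or.inr h1⟩

theorem sup_adj (hf : Frame G μ π) {j₀ : ℕ} {v u u' : V} (h : Sup μ π j₀ v u u') :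
    G.Adj u u' := by
  rcases (sup_edge h).1 with h | ⟨b, h⟩
  · rw [h]
    exact mu_adj hf u
  · rw [h]
    exact stp_adj hf b u

theorem sup_mem (hf : Frame G μ π) {j₀ : ℕ} {v u u' : V} (h : Sup μ π j₀ v u u') :
    u ∈ Bl G.Adj (2 * j₀ + 2) v := by
  obtain ⟨c, hc, h1 | h1⟩ := (sup_edge h).2
  · rw [h1]
    exact Bl_mono (by omega) v (TT_mem_Bl hf v c)
  · have h2 : u' ∈ Bl G.Adj (2 * j₀ + 1) v := by
      rw [h1]
      exact Bl_mono (by omega) v (TT_mem_Bl hf v c)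
    exact mem_Bl_succ.2 (Or.inr ⟨u', h2, (sup_adj hf h).symm⟩)

theorem mem_zone_of {R q n : ℕ} (hn : n ≤ R) {a u : V} {i : ℕ} (hi : i ≤ 2 * q)
    (h : u ∈ Bl G.Adj n ((π ^ i) a)) : u ∈ zone G π R q a :=
  mem_biUnion.2 ⟨i, mem_range.2 (by omega), Bl_mono hn _ h⟩

theorem tree_zone (hf : Frame G μ π) {j₀ R q B k : ℕ} (hg : Gir G k)
    (hk : 4 * q + 4 * j₀ + 20 ≤ k) (hR : 2 * j₀ + 2 ≤ R) {A : Finset V} (hA : Win G π R q B A)
    {a a' : V} (ha : a ∈ A) (ha' : a' ∈ A) {i j : ℕ} (hi : i ≤ 2 * q) (hj : j ≤ 2 * q)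
    {c : List Bool} (hc : c.length ≤ j₀) :
    TT μ π ((π ^ i) a) c ≠ (π ^ j) a' ∧ TT μ π ((π ^ i) a) c ∈ zone G π R q a := by
  have h1 : TT μ π ((π ^ i) a) c ∈ zone G π R q a :=
    mem_zone_of (n := 2 * c.length + 1) (by omega) hi (TT_mem_Bl hf _ c)
  refine ⟨fun h => ?_, h1⟩
  by_cases haa : a = a'
  · subst haa
    exact tree_ne hf hg (a := a) (i := i) (m := 0) (n := j) (c := c) (by omega)
      (by rw [pow_zero]; exact h)
  · have h2 : (π ^ j) a' ∈ zone G π R q a' :=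
      mem_zone_of (n := 0) (Nat.zero_le _) hj (mem_Bl_zero.2 rfl)
    rw [← h] at h2
    exact Finset.disjoint_left.1 (hA.disj a ha a' ha' haa) h1 h2

theorem stp_trees (hf : Frame G μ π) {j₀ q k : ℕ} (hg : Gir G k)
    (hk : 4 * q + 4 * j₀ + 20 ≤ k) {a : V} {i i' : ℕ} (hi : i ≤ 2 * q) (hi' : i' ≤ 2 * q)
    {c d : List Bool} (hc : c.length ≤ j₀) (hd : d.length ≤ j₀) {b : Bool}
    (h : TT μ π ((π ^ i) a) c = stp π b (TT μ π ((π ^ i') a) d)) : False := by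
  cases b with
  | true =>
    have := (tree_uniq hf hg (a := a) (b := TT μ π ((π ^ i') a) d) (i := i) (j := i')
      (m := 1) (n := 0) (c := c) (d := d) (by omega)
      (by rw [pow_one, h]; rfl) (by rw [pow_zero]; rfl)).2.1
    omega
  | false =>
    have h2 : TT μ π ((π ^ i') a) d = π (TT μ π ((π ^ i) a) c) := by
      rw [h]
      exact (π.apply_symm_apply _).symm
    have := (tree_uniq hf hg (a := a) (b := TT μ π ((π ^ i) a) c) (i := i') (j := i)
      (m := 1) (n := 0) (c := d) (d := c) (by omega)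
      (by rw [pow_one, h2]) (by rw [pow_zero]; rfl)).2.1
    omega

theorem mu_trees (hf : Frame G μ π) {j₀ q k : ℕ} (hg : Gir G k)
    (hk : 4 * q + 4 * j₀ + 20 ≤ k) {a : V} {i i' : ℕ} (hi : i ≤ 2 * q) (hi' : i' ≤ 2 * q)
    {c d : List Bool} (hc : c.length ≤ j₀) (hd : d.length ≤ j₀)
    (h : TT μ π ((π ^ i) a) c = μ (TT μ π ((π ^ i') a) d)) : False := by
  cases d with
  | nil =>
    rw [TT, hf.mu_mu] at h
    exact tree_ne hf hg (a := a) (i := i) (m := 0) (n := i') (c := c) (by omega)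
      (by rw [pow_zero]; exact h)
  | cons b d =>
    rw [TT, hf.mu_mu] at h
    rw [List.length_cons] at hd
    exact stp_trees hf hg hk hi hi' hc (by omega) h

theorem sup_uniq (hf : Frame G μ π) {j₀ R q B k : ℕ} (hg : Gir G k)
    (hk : 4 * q + 4 * j₀ + 20 ≤ k) (hR : 2 * j₀ + 2 ≤ R) {A : Finset V} (hA : Win G π R q B A)
    {a a' : V} (ha : a ∈ A) (ha' : a' ∈ A) {i i' : ℕ} (hi : i ≤ 2 * q) (hi' : i' ≤ 2 * q)
    {u u' : V} (h : Sup μ π j₀ ((π ^ i) a) u u') (h' : Sup μ π j₀ ((π ^ i') a') u u') :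
    a = a' ∧ i = i' := by
  by_cases haa : a = a'
  · subst haa
    refine ⟨rfl, ?_⟩
    obtain ⟨hE, c, hc, h1⟩ := sup_edge h
    obtain ⟨-, d, hd, h2⟩ := sup_edge h'
    have same : TT μ π ((π ^ i) a) c = TT μ π ((π ^ i') a) d → i = i' := fun h3 =>
      (tree_uniq hf hg (a := a) (b := TT μ π ((π ^ i) a) c) (i := i) (j := i')
        (m := 0) (n := 0) (c := c) (d := d) (by omega) (by rw [pow_zero]; rfl)
        (by rw [pow_zero, ← h3]; rfl)).1
    rcases h1 with h1 | h1 <;> rcases h2 with h2 | h2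
    · exact same (h1.symm.trans h2)
    · exfalso
      rcases hE with hE | ⟨b, hE⟩
      · rw [h1, h2] at hE
        exact mu_trees hf hg hk hi' hi hd hc hE
      · rw [h1, h2] at hE
        exact stp_trees hf hg hk hi' hi hd hc hE
    · exfalso
      rcases hE with hE | ⟨b, hE⟩
      · rw [h1, h2] at hE
        exact mu_trees hf hg hk hi hi' hc hd hE
      · rw [h1, h2] at hE
        exact stp_trees hf hg hk hi hi' hc hd hE
    · exact same (h1.symm.trans h2)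
  · exfalso
    exact Finset.disjoint_left.1 (hA.disj a ha a' ha' haa)
      (mem_zone_of hR hi (sup_mem hf h)) (mem_zone_of hR hi' (sup_mem hf h'))

end Pool.Agent.K5
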