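import Mathlib
import Pool.Agent.Work.MP_974d84_co_k5.LoadsR
import Pool.Agent.Work.MP_974d84_co_k5.SupW
import Pool.Agent.Work.MP_974d84_co_iso.Near

/-!
# ROOM BG, E5: the supports of the flows of the ends of the marked edges
-/

set_option linter.unusedSectionVars false
set_option linter.unusedVariables false

namespace Pool.Agent.K5.Re

open Finset SimpleGraph Pool.Agent.Exp Pool.Agent.Log5 Pool.Agent.Log5.Clu

namespace SupE1

open LocalW LoadsE

/-- The word of a tree vertex of the root `μ u`, seen from `u`. -/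
def pw : List Bool → List (Option Bool)
  | [] => []
  | b :: c => none :: some b :: pw c

variable {V : Type} [Fintype V] [DecidableEq V] {G : SimpleGraph V} [DecidableRel G.Adj]
  {μ : V → V} {π : Equiv.Perm V}

theorem length_pw (c : List Bool) : (pw c).length = 2 * c.length := by
  induction c with
  | nil => rfl
  | cons b c ih =>
    simp only [pw, List.length_cons, ih]
    omega

theorem act_pw (hf : Frame G μ π) (u : V) (c : List Bool) :
    act μ π (pw c) u = TT μ π (μ u) c := by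
  induction c with
  | nil =>
    show u = μ (μ u)
    rw [hf.mu_mu]
  | cons b c ih =>
    show μ (stp π b (act μ π (pw c) u)) = μ (stp π b (TT μ π (μ u) c))
    rw [ih]

theorem red_pw (b : Bool) (c : List Bool) : Red (some b :: pw c) := by
  induction c generalizing b with
  | nil =>
    unfold Red pw
    simp
  | cons b' c ih =>
    have h := ih b'
    unfold Red at h ⊢
    rw [pw, List.isChain_cons_cons, List.isChain_cons_cons]
    exact ⟨by simp [linv], by simp [linv], h⟩

theorem red_pw' (c : List Bool) : Red (pw c) := by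
  have h := red_pw true c
  unfold Red at h ⊢
  exact h.tail

section third

variable (hf : Frame G μ π) {k jm : ℕ} (hg : Gir G k) (hk : 4 * jm + 24 ≤ k) {u : V}
  {c d : List Bool} (hc : c.length ≤ jm) (hd : d.length ≤ jm)

include hf hg hk hc hd

/-- The trees of the two ends of a marked third edge. -/
theorem A1 : TT μ π (μ u) c ≠ TT μ π u d := by
  intro h
  rw [← act_pw hf u c, ← act_tr u d] at h
  have h1 := act_uniq hf hg (red_pw' c) (red_tr d) (by
    simp only [List.length_cons, length_tr, length_pw]; omega) h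
  have h2 := congrArg List.length h1
  simp only [List.length_cons, length_tr, length_pw] at h2
  omega

theorem A2 {b : Bool} : stp π b (TT μ π (μ u) c) ≠ TT μ π u d := by
  intro h
  rw [← act_pw hf u c, ← act_tr u d] at h
  have h1 := act_uniq hf hg (w := some b :: pw c) (w' := none :: tr d) (red_pw b c) (red_tr d)
    (by simp only [List.length_cons, length_tr, length_pw]; omega) h
  simp at h1

theorem A3 (hne : c ≠ []) : TT μ π (μ u) c ≠ μ (TT μ π u d) := by
  intro h
  cases d with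
  | nil =>
    have h0 : μ (TT μ π u []) = u := hf.mu_mu u
    rw [h0, ← act_pw hf u c] at h
    have h1 := act_uniq hf hg (w := pw c) (w' := []) (red_pw' c) (by unfold Red; simp) (by
      simp only [List.length_nil, length_pw]; omega) h
    cases c with
    | nil => exact hne rfl
    | cons b c => simp [pw] at h1
  | cons b d =>
    have h0 : μ (TT μ π u (b :: d)) = stp π b (TT μ π u d) := hf.mu_mu _
    rw [h0, ← act_pw hf u c, ← act_tr u d] at h
    have h1 := act_uniq hf hg (w := pw c) (w' := some b :: none :: tr d) (red_pw' c)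
      (red_some b d) (by
        simp only [List.length_cons, length_tr, length_pw] at hd ⊢; omega) h
    cases c with
    | nil => exact hne rfl
    | cons b' c => simp [pw] at h1

/-- The trees of the two ends of a marked circuit edge. -/
theorem B1 : TT μ π u c ≠ TT μ π (π u) d := by
  intro h
  have h1 := (tree_uniq hf hg (a := u) (b := TT μ π u c) (i := 0) (j := 1) (m := 0) (n := 0)
    (c := c) (d := d) (by omega) rfl h).1
  omega

theorem B2 {b : Bool} : stp π b (TT μ π u c) ≠ TT μ π (π u) d := by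
  intro h
  exact stp_trees hf hg (q := 1) (j₀ := jm) (by omega) (a := u) (i := 1) (i' := 0) (by omega)
    (by omega) hd hc (b := b) h.symm

theorem B3 : TT μ π u c ≠ μ (TT μ π (π u) d) := by
  intro h
  exact mu_trees hf hg (q := 1) (j₀ := jm) (by omega) (a := u) (i := 0) (i' := 1) (by omega)
    (by omega) hc hd h

end third

variable {p : V → V → ℝ} {D : ℕ}

/-- A used edge starts or ends in a tree vertex. -/
theorem supM_edge (hf : Frame G μ π) {jm : ℕ} {u : V} {φ : V → V → ℝ}
    (hφ : SupM μ π p jm u φ) {a a' : V} (h0 : φ a a' ≠ 0) : ∃ c : List Bool, c.length ≤ jm ∧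
      (a = TT μ π (rtm μ p u) c ∨ a' = TT μ π (rtm μ p u) c) ∧
      ((a' = μ a ∧ (p u (μ u) ≠ 0 → c ≠ [])) ∨ ∃ b, a' = stp π b a) := by
  rcases hφ a a' h0 with ⟨h1, c, hc, h2, -, h3⟩ | ⟨c, b, hc, h1, h2, -⟩ | ⟨c, b, hc, h1, h2, -⟩
  · exact ⟨c, hc, h2, Or.inl ⟨h1, h3⟩⟩
  · exact ⟨c, hc.le, Or.inl h1, Or.inr ⟨b, h2⟩⟩
  · exact ⟨c, hc.le, Or.inr h1, Or.inr ⟨!b, stp_flip h2⟩⟩

theorem st_ne (hf : Frame G μ π) {b : Bool} {a : V} (h : stp π b a = μ a) : False := by
  cases b
  · exact hf.mu_ne' a h.symm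
  · exact hf.mu_ne a h.symm

/-- The other end of a mark is near. -/
theorem mark_adj (hf : Frame G μ π) (hp : Marks G p) {u v : V} (h : p u v ≠ 0) :
    v = μ u ∨ v = π u ∨ u = π v := by
  rcases (hf.adj u v).1 (hp.adj u v h) with h1 | h1 | h1
  · exact Or.inl h1
  · exact Or.inr (Or.inl h1)
  · right; right
    rw [h1, Equiv.apply_symm_apply]

/-- The root of the tree of an end of a marked circuit edge. -/
theorem rtm_of (hf : Frame G μ π) (hp : Marks G p) (hD : FarM G D p) {u v : V} (h : p u v ≠ 0)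
    (hv : v ≠ μ u) : rtm μ p u = u := by
  apply rtm_circ
  by_contra h1
  exact hv (mark_one hp hD h1 h)

/-- **Different ends of marked edges use different edges.** -/
theorem supM_uniq (hf : Frame G μ π) {k jm : ℕ} (hg : Gir G k) (hk : 4 * jm + 24 ≤ k)
    (hDm : 4 * jm + 10 ≤ D) (hp : Marks G p) (hD : FarM G D p) {u₀ u₁ : V} (h₀ : u₀ ∈ ends p)
    (h₁ : u₁ ∈ ends p) {φ₀ φ₁ : V → V → ℝ} (hφ₀ : SupM μ π p jm u₀ φ₀)
    (hφ₁ : SupM μ π p jm u₁ φ₁) {a a' : V} (g₀ : φ₀ a a' ≠ 0) (g₁ : φ₁ a a' ≠ 0) : u₀ = u₁ := by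
  by_contra hne
  obtain ⟨v₀, hv₀⟩ := mem_ends.1 h₀
  obtain ⟨v₁, hv₁⟩ := mem_ends.1 h₁
  have hnear : u₁ ∈ Bl G.Adj D u₀ := by
    obtain ⟨n, hn, h1, -⟩ := supM_near hf hφ₀ g₀
    obtain ⟨m, hm, h2, -⟩ := supM_near hf hφ₁ g₁
    exact Bl_mono (by omega) u₀ (Bl_comp h1 (Pool.Agent.Iso5.Bl_symm' h2))
  obtain ⟨h3, h4⟩ : u₁ = v₀ ∧ v₁ = u₀ := by
    rcases hD u₀ v₀ u₁ v₁ hv₀ hv₁ hnear with ⟨h, -⟩ | h
    · exact absurd h.symm hne
    · exact h
  obtain ⟨c, hc, c1, c2⟩ := supM_edge hf hφ₀ g₀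
  obtain ⟨d, hd, d1, d2⟩ := supM_edge hf hφ₁ g₁
  rw [← h3] at hv₀
  rw [h4] at hv₁
  rcases mark_adj hf hp hv₀ with h5 | h5 | h5
  · -- a third edge
    have r0 : rtm μ p u₀ = μ u₀ := rtm_third (by rw [← h5]; exact hv₀)
    have r1 : rtm μ p u₁ = u₀ := by
      have h6 : μ u₁ = u₀ := by rw [h5, hf.mu_mu]
      rw [rtm_third (by rw [h6]; exact hv₁), h6]
    rw [r0] at c1
    rw [r1] at d1
    have hp0 : p u₀ (μ u₀) ≠ 0 := by rw [← h5]; exact hv₀
    rcases c1 with c1 | c1 <;> rcases d1 with d1 | d1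
    · exact A1 (u := u₀) hf hg hk hc hd (c1.symm.trans d1)
    · rcases c2 with ⟨c2, c3⟩ | ⟨b, c2⟩
      · refine A3 (u := u₀) hf hg hk hc hd (c3 hp0) ?_
        rw [← c1, ← d1, c2, hf.mu_mu]
      · refine A2 (u := u₀) hf hg hk hc hd (b := b) ?_
        rw [← c1, ← d1, c2]
    · rcases c2 with ⟨c2, c3⟩ | ⟨b, c2⟩
      · refine A3 (u := u₀) hf hg hk hc hd (c3 hp0) ?_
        rw [← c1, ← d1, c2]
      · refine A2 (u := u₀) hf hg hk hc hd (b := !b) ?_
        rw [← c1, ← d1]
        exact (stp_flip c2).symm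
    · exact A1 (u := u₀) hf hg hk hc hd (c1.symm.trans d1)
  · -- a circuit edge
    have hn1 : u₁ ≠ μ u₀ := fun h => hf.mu_ne u₀ (h.symm.trans h5)
    have hn2 : u₀ ≠ μ u₁ := fun h => hn1 (by rw [h, hf.mu_mu])
    have r0 : rtm μ p u₀ = u₀ := rtm_of hf hp hD hv₀ hn1
    have r1 : rtm μ p u₁ = π u₀ := by rw [rtm_of hf hp hD hv₁ hn2, h5]
    rw [r0] at c1
    rw [r1] at d1
    rcases c1 with c1 | c1 <;> rcases d1 with d1 | d1
    · exact B1 (u := u₀) hf hg hk hc hd (c1.symm.trans d1)
    · rcases c2 with ⟨c2, -⟩ | ⟨b, c2⟩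
      · refine B3 (u := u₀) hf hg hk hc hd ?_
        rw [← c1, ← d1, c2, hf.mu_mu]
      · refine B2 (u := u₀) hf hg hk hc hd (b := b) ?_
        rw [← c1, ← d1, c2]
    · rcases c2 with ⟨c2, -⟩ | ⟨b, c2⟩
      · refine B3 (u := u₀) hf hg hk hc hd ?_
        rw [← c1, ← d1, c2]
      · refine B2 (u := u₀) hf hg hk hc hd (b := !b) ?_
        rw [← c1, ← d1]
        exact (stp_flip c2).symm
    · exact B1 (u := u₀) hf hg hk hc hd (c1.symm.trans d1)
  · -- a circuit edge, the other direction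
    have hn1 : u₀ ≠ μ u₁ := fun h => hf.mu_ne u₁ (h.symm.trans h5)
    have hn2 : u₁ ≠ μ u₀ := fun h => hn1 (by rw [h, hf.mu_mu])
    have r0 : rtm μ p u₀ = π u₁ := by rw [rtm_of hf hp hD hv₀ hn2, h5]
    have r1 : rtm μ p u₁ = u₁ := rtm_of hf hp hD hv₁ hn1
    rw [r0] at c1
    rw [r1] at d1
    rcases c1 with c1 | c1 <;> rcases d1 with d1 | d1
    · exact B1 (u := u₁) hf hg hk hd hc (d1.symm.trans c1)
    · rcases c2 with ⟨c2, -⟩ | ⟨b, c2⟩
      · refine B3 (u := u₁) hf hg hk hd hc ?_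
        rw [← c1, ← d1, c2]
      · refine B2 (u := u₁) hf hg hk hd hc (b := !b) ?_
        rw [← c1, ← d1]
        exact (stp_flip c2).symm
    · rcases c2 with ⟨c2, -⟩ | ⟨b, c2⟩
      · refine B3 (u := u₁) hf hg hk hd hc ?_
        rw [← c1, ← d1, c2, hf.mu_mu]
      · refine B2 (u := u₁) hf hg hk hd hc (b := b) ?_
        rw [← c1, ← d1, c2]
    · exact B1 (u := u₁) hf hg hk hd hc (d1.symm.trans c1)

/-- **The flows of the ends of the marked edges do not use marked edges.** -/
theorem supM_unmarked (hf : Frame G μ π) {k jm : ℕ} (hg : Gir G k) (hk : 4 * jm + 24 ≤ k)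
    (hDm : 4 * jm + 10 ≤ D) (hp : Marks G p) (hD : FarM G D p) {u : V} (hu : u ∈ ends p)
    {φ : V → V → ℝ} (hφ : SupM μ π p jm u φ) {a a' : V} (g : φ a a' ≠ 0) : p a a' = 0 := by
  by_contra hpa
  obtain ⟨v, hv⟩ := mem_ends.1 hu
  have hnear : a ∈ Bl G.Adj D u := by
    obtain ⟨n, hn, h1, -⟩ := supM_near hf hφ g
    exact Bl_mono (by omega) u h1
  have hcase := hD u v a a' hv hpa hnear
  obtain ⟨c, hc, c1, c2⟩ := supM_edge hf hφ g
  have T3' : ∀ x : V, TT μ π x c ≠ x := by
    intro x h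
    rw [← act_tr x c] at h
    have h1 := act_uniq hf hg (w := none :: tr c) (w' := []) (red_tr c) (by unfold Red; simp)
      (by simp only [List.length_cons, length_tr, List.length_nil]; omega) h
    simp at h1
  by_cases hvμ : v = μ u
  · have r0 : rtm μ p u = μ u := rtm_third (by rw [← hvμ]; exact hv)
    rw [r0] at c1
    have haa : a' = μ a := by
      rcases hcase with ⟨h1, h2⟩ | ⟨h1, h2⟩
      · rw [h1, h2, hvμ]
      · rw [h1, h2, hvμ, hf.mu_mu]
    have hcne : c ≠ [] := by
      rcases c2 with ⟨-, c3⟩ | ⟨b, c2⟩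
      · exact c3 (by rw [← hvμ]; exact hv)
      · exact (st_ne hf (c2.symm.trans haa)).elim
    have hX : TT μ π (μ u) c = u ∨ TT μ π (μ u) c = μ u := by
      rcases hcase with ⟨h1, h2⟩ | ⟨h1, h2⟩ <;> rcases c1 with c1 | c1
      · exact Or.inl (c1.symm.trans h1)
      · exact Or.inr (c1.symm.trans (h2.trans hvμ))
      · exact Or.inr (c1.symm.trans (h1.trans hvμ))
      · exact Or.inl (c1.symm.trans h2)
    rcases hX with h | h
    · refine A3 (u := u) (d := []) hf hg hk hc (Nat.zero_le _) hcne ?_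
      rw [h]
      exact (hf.mu_mu u).symm
    · exact T3' _ h
  · have r0 : rtm μ p u = u := rtm_of hf hp hD hv hvμ
    rw [r0] at c1
    have hX : TT μ π u c = u ∨ TT μ π u c = v := by
      rcases hcase with ⟨h1, h2⟩ | ⟨h1, h2⟩ <;> rcases c1 with c1 | c1
      · exact Or.inl (c1.symm.trans h1)
      · exact Or.inr (c1.symm.trans h2)
      · exact Or.inr (c1.symm.trans h1)
      · exact Or.inl (c1.symm.trans h2)
    rcases hX with h | h
    · exact T3' _ h
    · have h2 : ∃ b, v = stp π b u := by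
        rcases mark_adj hf hp hv with h5 | h5 | h5
        · exact absurd h5 hvμ
        · exact ⟨true, h5⟩
        · exact ⟨false, by rw [h5]; exact (Equiv.symm_apply_apply π v).symm⟩
      obtain ⟨b, hb⟩ := h2
      rw [hb, ← act_tr u c] at h
      have h1 := act_uniq hf hg (w := none :: tr c) (w' := [some b]) (red_tr c)
        (by unfold Red; simp)
        (by simp only [List.length_cons, length_tr, List.length_nil]; omega) h
      simp at h1

end SupE1

end Pool.Agent.K5.Re
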