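import Pool.Agent.Work.MP_974d84_co_k5.Charges
import Pool.Agent.Work.MP_974d84_co_k5.Defs5

/-!
# Charges modulo `q` on disjoint cores, every charge at most `q`

Every terminal gets a pendant copy, joined by `k` parallel edges.
-/

set_option linter.unusedSectionVars false

namespace Pool.Agent.K5

open Finset SimpleGraph Pool.Agent.Exp
open Pool.Agent.Work.MP_314beb_co

section weights

variable {ι : Type*} [Fintype ι] [DecidableEq ι]

/-- The weights with pendant terminals. -/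
def wpen {Q : Type*} [DecidableEq Q] (f : ι → Q) (k : ℕ) (w : Q → Q → ℤ) : ι ⊕ Q → ι ⊕ Q → ℤ
  | Sum.inl _, Sum.inl _ => 0
  | Sum.inl i, Sum.inr y => if f i = y then 2 * k else 0
  | Sum.inr x, Sum.inl j => if f j = x then 2 * k else 0
  | Sum.inr x, Sum.inr y => w x y

theorem wc_wpen {Q : Type*} [Fintype Q] [DecidableEq Q] (f : ι → Q) (k : ℕ) (w : Q → Q → ℤ)
    (X : Finset (ι ⊕ Q)) : wc (wpen f k w) X = wc w (univ.filter fun x => Sum.inr x ∈ X) +
      2 * k * ((univ.filter fun i => ¬ (Sum.inl i ∈ X ↔ Sum.inr (f i) ∈ X)).card : ℤ) := by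
  have e0 : ((univ.filter fun i => ¬ ((Sum.inl i : ι ⊕ Q) ∈ X ↔ Sum.inr (f i) ∈ X)).card : ℤ) =
      ∑ i, if ¬ ((Sum.inl i : ι ⊕ Q) ∈ X ↔ Sum.inr (f i) ∈ X) then (1 : ℤ) else 0 := by
    rw [card_filter]
    push_cast
    rfl
  have e1 : wc w (univ.filter fun x => Sum.inr x ∈ X) =
      ∑ x, ∑ y, if (Sum.inr x : ι ⊕ Q) ∈ X ∧ (Sum.inr y : ι ⊕ Q) ∉ X then w x y else 0 := by
    unfold wc
    refine sum_congr rfl fun x _ => sum_congr rfl fun y _ => ?_
    simp
  have e2 : ∑ i, ∑ y, (if (Sum.inl i : ι ⊕ Q) ∈ X ∧ (Sum.inr y : ι ⊕ Q) ∉ X then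
      (if f i = y then (2 * k : ℤ) else 0) else 0) =
      ∑ i, if (Sum.inl i : ι ⊕ Q) ∈ X ∧ (Sum.inr (f i) : ι ⊕ Q) ∉ X then (2 * k : ℤ) else 0 := by
    refine sum_congr rfl fun i _ => ?_
    rw [sum_eq_single (f i)]
    · simp
    · intro y _ hy
      have h : ¬ f i = y := fun h => hy h.symm
      simp [h]
    · simp
  have e3 : ∑ x, ∑ j, (if (Sum.inr x : ι ⊕ Q) ∈ X ∧ (Sum.inl j : ι ⊕ Q) ∉ X then
      (if f j = x then (2 * k : ℤ) else 0) else 0) =
      ∑ j, if (Sum.inr (f j) : ι ⊕ Q) ∈ X ∧ (Sum.inl j : ι ⊕ Q) ∉ X then (2 * k : ℤ) else 0 := by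
    rw [sum_comm]
    refine sum_congr rfl fun j _ => ?_
    rw [sum_eq_single (f j)]
    · simp
    · intro x _ hx
      have h : ¬ f j = x := fun h => hx h.symm
      simp [h]
    · simp
  rw [e1, e0]
  unfold wc
  rw [Fintype.sum_sum_type]
  simp only [Fintype.sum_sum_type, sum_add_distrib, wpen, ite_self, sum_const_zero, zero_add]
  rw [e2, e3, mul_sum]
  have e4 : ∀ i, (2 * k : ℤ) * (if ¬ ((Sum.inl i : ι ⊕ Q) ∈ X ↔ Sum.inr (f i) ∈ X) then 1 else 0)
      = (if (Sum.inl i : ι ⊕ Q) ∈ X ∧ (Sum.inr (f i) : ι ⊕ Q) ∉ X then (2 * k : ℤ) else 0) +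
        if (Sum.inr (f i) : ι ⊕ Q) ∈ X ∧ (Sum.inl i : ι ⊕ Q) ∉ X then (2 * k : ℤ) else 0 := by
    intro i
    by_cases h1 : (Sum.inl i : ι ⊕ Q) ∈ X <;> by_cases h2 : (Sum.inr (f i) : ι ⊕ Q) ∈ X <;>
      simp [h1, h2]
  rw [sum_congr rfl fun i _ => e4 i, sum_add_distrib]
  ring

/-- **Charges modulo `q`** on terminals, every charge at most `q`. -/
theorem charges_bounded {Q : Type*} [Fintype Q] [DecidableEq Q] (f : ι → Q)
    (_hf : Function.Injective f)
    {w : Q → Q → ℤ} (h0 : ∀ i j, 0 ≤ w i j) (hs : ∀ i j, w i j = w j i)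
    (hev : ∀ X, Even (wc w X))
    {k : ℕ} (hk : 0 < k) (hcut : ∀ X : Finset Q, (∃ i, f i ∈ X) → (∃ i, f i ∉ X) →
      (2 * k : ℤ) ≤ wc w X)
    {q : ℕ} (hq : 0 < q) (b : ι → ℤ) (hb : (q : ℤ) ∣ ∑ i, b i) :
    ∃ β : ι → ℤ, (∀ i, (q : ℤ) ∣ β i - b i) ∧ ∑ i, β i = 0 ∧ (∀ i, |(β i : ℝ)| ≤ q) ∧
      ∀ X : Finset Q, |((∑ i ∈ univ.filter (fun i => f i ∈ X), β i : ℤ) : ℝ)|
        ≤ q / (2 * k) * (wc w X : ℤ) := by
  classical
  have hkR : (0 : ℝ) < k := by exact_mod_cast hk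
  obtain ⟨β, hβ1, hβ2, hβ3⟩ := charges_of_terminals (Q := ι ⊕ Q) Sum.inl Sum.inl_injective
    (w := wpen f k w) (by
      rintro (i | x) (j | y) <;> simp only [wpen]
      · exact le_rfl
      · split_ifs
        · positivity
        · exact le_rfl
      · split_ifs
        · positivity
        · exact le_rfl
      · exact h0 x y) (by
      rintro (i | x) (j | y) <;> simp only [wpen]
      exact hs x y) (by
      intro X
      rw [wc_wpen]
      exact (hev _).add (by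
        rw [mul_assoc]
        exact even_two_mul _)) hk (by
      rintro X ⟨i, hi⟩ ⟨j, hj⟩
      rw [wc_wpen]
      have hn := wc_nonneg h0 (univ.filter fun x => (Sum.inr x : ι ⊕ Q) ∈ X)
      by_cases hI : (univ.filter fun i => ¬ ((Sum.inl i : ι ⊕ Q) ∈ X ↔ Sum.inr (f i) ∈ X)).Nonempty
      · have h1 : (1 : ℤ) ≤
            ((univ.filter fun i => ¬ ((Sum.inl i : ι ⊕ Q) ∈ X ↔ Sum.inr (f i) ∈ X)).card : ℤ) := by
          exact_mod_cast hI.card_pos
        have h2 : (0 : ℤ) ≤ 2 * k := by positivity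
        nlinarith
      · rw [not_nonempty_iff_eq_empty] at hI
        have hcon : ∀ i, (Sum.inl i : ι ⊕ Q) ∈ X ↔ Sum.inr (f i) ∈ X := by
          intro i
          by_contra h
          have : i ∈ (univ.filter fun i => ¬ ((Sum.inl i : ι ⊕ Q) ∈ X ↔ Sum.inr (f i) ∈ X)) := by
            rw [mem_filter]
            exact ⟨mem_univ _, h⟩
          rw [hI] at this
          exact absurd this (notMem_empty _)
        have h1 := hcut (univ.filter fun x => (Sum.inr x : ι ⊕ Q) ∈ X)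
          ⟨i, by rw [mem_filter]; exact ⟨mem_univ _, (hcon i).1 hi⟩⟩
          ⟨j, by rw [mem_filter]; exact fun h => hj ((hcon j).2 h.2)⟩
        rw [hI, card_empty]
        push_cast
        linarith) hq b hb
  refine ⟨β, hβ1, hβ2, fun i => ?_, fun X => ?_⟩
  · have h1 := hβ3 {Sum.inl i}
    rw [wc_wpen] at h1
    have h2 : (univ.filter fun x => (Sum.inr x : ι ⊕ Q) ∈ ({Sum.inl i} : Finset (ι ⊕ Q))) = ∅ := by
      rw [filter_eq_empty_iff]
      intro x _
      simp
    have h3 : (univ.filter fun j => ¬ ((Sum.inl j : ι ⊕ Q) ∈ ({Sum.inl i} : Finset (ι ⊕ Q)) ↔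
        Sum.inr (f j) ∈ ({Sum.inl i} : Finset (ι ⊕ Q)))) = {i} := by
      ext j
      simp
    have h4 : (univ.filter fun j => (Sum.inl j : ι ⊕ Q) ∈ ({Sum.inl i} : Finset (ι ⊕ Q))) = {i} := by
      ext j
      simp
    have h5 : wc w (∅ : Finset Q) = 0 := by
      unfold wc
      simp
    rw [h2, h3, h4, h5, sum_singleton, card_singleton] at h1
    refine h1.trans (le_of_eq ?_)
    push_cast
    field_simp
    ring
  · set X' : Finset (ι ⊕ Q) := univ.filter fun z =>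
      (∃ i, z = Sum.inl i ∧ f i ∈ X) ∨ ∃ x, z = Sum.inr x ∧ x ∈ X with hX'
    have a1 : ∀ i, (Sum.inl i : ι ⊕ Q) ∈ X' ↔ f i ∈ X := by
      intro i
      rw [hX', mem_filter]
      simp
    have a2 : ∀ x, (Sum.inr x : ι ⊕ Q) ∈ X' ↔ x ∈ X := by
      intro x
      rw [hX', mem_filter]
      simp
    have h1 := hβ3 X'
    rw [wc_wpen] at h1
    have h2 : (univ.filter fun x => (Sum.inr x : ι ⊕ Q) ∈ X') = X := by
      ext x
      simp [a2]
    have h3 : (univ.filter fun i => ¬ ((Sum.inl i : ι ⊕ Q) ∈ X' ↔ Sum.inr (f i) ∈ X')) = ∅ := by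
      rw [filter_eq_empty_iff]
      intro i _
      rw [a1, a2]
      simp
    have h4 : (univ.filter fun i => (Sum.inl i : ι ⊕ Q) ∈ X') = univ.filter fun i => f i ∈ X := by
      ext i
      simp [a1]
    rw [h2, h3, h4, card_empty] at h1
    refine h1.trans (le_of_eq ?_)
    push_cast
    ring

end weights

section cores

variable {V : Type*} [Fintype V] [DecidableEq V] {G : SimpleGraph V} [DecidableRel G.Adj]
variable {ι : Type*} [Fintype ι] [DecidableEq ι]

/-- **Charges modulo `q` on disjoint cores**, with bounded charges. -/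
theorem core_charges_G (S : ι → Finset V) (hne : ∀ i, (S i).Nonempty)
    (hd : ∀ i j, i ≠ j → Disjoint (S i) (S j)) {k : ℕ} (hk : 0 < k)
    (hcut : ∀ X : Finset V, NoSplit S X → (∃ i, S i ⊆ X) → (∃ i, Disjoint (S i) X) →
      k ≤ dd G X)
    {q : ℕ} (hq : 0 < q) (b : ι → ℤ) (hb : (q : ℤ) ∣ ∑ i, b i) :
    ∃ β : ι → ℤ, (∀ i, (q : ℤ) ∣ β i - b i) ∧ ∑ i, β i = 0 ∧ (∀ i, |(β i : ℝ)| ≤ q) ∧
      ∀ X : Finset V, NoSplit S X →
        |((∑ i ∈ univ.filter (fun i => S i ⊆ X), β i : ℤ) : ℝ)| ≤ q / k * dd G X := by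
  classical
  -- the contraction
  set c : V → ι ⊕ V := fun v => if h : ∃ i, v ∈ S i then Sum.inl h.choose else Sum.inr v with hc
  have hc1 : ∀ v i, v ∈ S i → c v = Sum.inl i := by
    intro v i hv
    have h : ∃ i, v ∈ S i := ⟨i, hv⟩
    simp only [hc, dif_pos h]
    congr 1
    by_contra hne'
    exact Finset.disjoint_left.1 (hd _ _ hne') h.choose_spec hv
  have hc2 : ∀ v i, c v = Sum.inl i → v ∈ S i := by
    intro v i hv
    by_cases h : ∃ j, v ∈ S j
    · simp only [hc, dif_pos h, Sum.inl.injEq] at hv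
      exact hv ▸ h.choose_spec
    · simp [hc, dif_neg h] at hv
  set w : ι ⊕ V → ι ⊕ V → ℤ := fun x y =>
    2 * ∑ u, ∑ v, if G.Adj u v ∧ c u = x ∧ c v = y then (1 : ℤ) else 0 with hw
  have hwc : ∀ X : Finset (ι ⊕ V), wc w X = 2 * (dd G (univ.filter fun v => c v ∈ X) : ℤ) := by
    intro X
    have hdd : (dd G (univ.filter fun v => c v ∈ X) : ℤ)
        = ∑ u, ∑ v, if G.Adj u v ∧ c u ∈ X ∧ c v ∉ X then (1 : ℤ) else 0 := by
      unfold dd cut
      rw [card_filter]
      push_cast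
      rw [← Fintype.sum_prod_type']
      refine sum_congr rfl fun p _ => ?_
      simp only [mem_filter, mem_univ, true_and]
      congr 1
      exact propext ⟨fun h => ⟨h.2.2, h.1, h.2.1⟩, fun h => ⟨h.2.1, h.2.2, h.1⟩⟩
    rw [hdd]
    unfold wc
    have e1 : ∀ x y : ι ⊕ V, (if x ∈ X ∧ y ∉ X then w x y else 0)
        = 2 * ∑ u, ∑ v, if (G.Adj u v ∧ c u ∈ X ∧ c v ∉ X) ∧ c u = x ∧ c v = y
          then (1 : ℤ) else 0 := by
      intro x y
      split_ifs with h
      · simp only [hw]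
        congr 1
        refine sum_congr rfl fun u _ => sum_congr rfl fun v _ => ?_
        congr 1
        refine propext ⟨fun h' => ?_, fun h' => ⟨h'.1.1, h'.2⟩⟩
        exact ⟨⟨h'.1, h'.2.1 ▸ h.1, h'.2.2 ▸ h.2⟩, h'.2⟩
      · symm
        rw [mul_eq_zero]
        right
        refine sum_eq_zero fun u _ => sum_eq_zero fun v _ => if_neg fun h' => h ?_
        exact ⟨h'.2.1 ▸ h'.1.2.1, h'.2.2 ▸ h'.1.2.2⟩
    simp only [e1, ← mul_sum]
    congr 1
    exact sum_fib c _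
  have hsplit : ∀ X : Finset (ι ⊕ V), NoSplit S (univ.filter fun v => c v ∈ X) := by
    intro X i
    by_cases h : Sum.inl i ∈ X
    · left
      intro v hv
      simp [hc1 v i hv, h]
    · right
      rw [Finset.disjoint_left]
      intro v hv hv'
      rw [mem_filter, hc1 v i hv] at hv'
      exact h hv'.2
  have hin : ∀ (X : Finset (ι ⊕ V)) i, Sum.inl i ∈ X ↔ S i ⊆ univ.filter fun v => c v ∈ X := by
    intro X i
    constructor
    · intro h v hv
      simp [hc1 v i hv, h]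
    · intro h
      obtain ⟨v, hv⟩ := hne i
      have := h hv
      rw [mem_filter, hc1 v i hv] at this
      exact this.2
  obtain ⟨β, hβ1, hβ2, hβ4, hβ3⟩ := charges_bounded (Q := ι ⊕ V) Sum.inl Sum.inl_injective
    (w := w) (fun x y => by
      simp only [hw]
      refine mul_nonneg (by norm_num) (sum_nonneg fun u _ => sum_nonneg fun v _ => ?_)
      split_ifs <;> norm_num) (fun x y => by
      simp only [hw]
      congr 1
      rw [sum_comm]
      refine sum_congr rfl fun u _ => sum_congr rfl fun v _ => ?_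
      congr 1
      exact propext ⟨fun h => ⟨h.1.symm, h.2.2, h.2.1⟩, fun h => ⟨h.1.symm, h.2.2, h.2.1⟩⟩)
    (fun X => ⟨dd G (univ.filter fun v => c v ∈ X), by rw [hwc X]; ring⟩) hk
    (by
      rintro X ⟨i, hi⟩ ⟨j, hj⟩
      rw [hwc X]
      have := hcut _ (hsplit X) ⟨i, (hin X i).1 hi⟩ ⟨j, (hsplit X j).resolve_left
        fun h => hj ((hin X j).2 h)⟩
      have h2 : (k : ℤ) ≤ (dd G (univ.filter fun v => c v ∈ X) : ℤ) := by exact_mod_cast this
      linarith) hq b hb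
  refine ⟨β, hβ1, hβ2, hβ4, fun X hX => ?_⟩
  set X' : Finset (ι ⊕ V) := univ.filter fun x =>
    (∃ i, x = Sum.inl i ∧ S i ⊆ X) ∨ ∃ v, x = Sum.inr v ∧ v ∈ X with hX'
  have hpre : (univ.filter fun v => c v ∈ X') = X := by
    ext v
    simp only [mem_filter, mem_univ, true_and, hX']
    by_cases h : ∃ i, v ∈ S i
    · obtain ⟨i, hi⟩ := h
      rw [hc1 v i hi]
      constructor
      · rintro (⟨j, hj, hjX⟩ | ⟨j, hj, -⟩)
        · exact hjX (Sum.inl_injective hj ▸ hi)
        · exact absurd hj (by simp)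
      · intro hv
        refine Or.inl ⟨i, rfl, (hX i).resolve_right fun h' => ?_⟩
        exact Finset.disjoint_left.1 h' hi hv
    · have hcv : c v = Sum.inr v := by simp only [hc, dif_neg h]
      rw [hcv]
      simp
  have h1 := hβ3 X'
  rw [hwc X', hpre] at h1
  have h2 : (univ.filter fun i => Sum.inl i ∈ X') = univ.filter fun i => S i ⊆ X := by
    ext i
    simp only [mem_filter, mem_univ, true_and]
    rw [hin X' i, hpre]
  rw [h2] at h1
  refine h1.trans (le_of_eq ?_)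
  push_cast
  have hkR : (k : ℝ) ≠ 0 := by exact_mod_cast hk.ne'
  field_simp

end cores

end Pool.Agent.K5
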