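import Pool.Agent.Work.MP_974d84_co_k5.CoreFlow
import Pool.Agent.Work.MP_974d84_co_k5.CoreChargesG

/-!
# Theorem (G): real charges modulo `4`, error `(4 + d) / k` for every `d > 0`
-/

set_option linter.unusedSectionVars false

namespace Pool.Agent.K5

open Finset SimpleGraph Pool.Agent.Exp Pool.Agent.Log5 Pool.Agent.Log5.Clu

theorem core_charges_p {V : Type} [Fintype V] [DecidableEq V] (G : SimpleGraph V)
    [DecidableRel G.Adj] {r : ℕ} (S : Fin r → Finset V) (hne : ∀ i, (S i).Nonempty)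
    (hd : ∀ i j, i ≠ j → Disjoint (S i) (S j)) {k : ℕ} (hk : 0 < k)
    (hcut : ∀ X : Finset V, Sat S X → (∃ i, S i ⊆ X) → (∃ i, Disjoint (S i) X) → k ≤ dd G X)
    (a : Fin r → ℝ) (ha : ∑ i, a i = 0) {d : ℝ} (hdp : 0 < d) :
    ∃ z : Fin r → ℤ, ∑ i, z i = 0 ∧ (∀ i, |a i + 4 * z i| ≤ 4 + d) ∧ ∀ X, Sat S X →
      |∑ i ∈ univ.filter (fun i => S i ⊆ X), (a i + 4 * z i)| ≤ (4 + d) / k * dd G X := by
  classical
  obtain ⟨m, hm⟩ : ∃ m : ℕ, 1 / d < m := exists_nat_gt _
  have hm0 : 0 < m := by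
    have h1 : (0 : ℝ) < m := lt_trans (by positivity) hm
    exact_mod_cast h1
  have hmR : (0 : ℝ) < m := by exact_mod_cast hm0
  have hmd : 1 / (m : ℝ) ≤ d := by
    rw [div_lt_iff₀ hdp] at hm
    rw [div_le_iff₀ hmR]
    linarith
  have hkR : (0 : ℝ) < k := by exact_mod_cast hk
  rcases Nat.eq_zero_or_pos r with hr | hr
  · subst hr
    refine ⟨fun _ => 0, by simp, fun i => i.elim0, fun X _ => ?_⟩
    have h1 : ∑ i ∈ (univ : Finset (Fin 0)).filter (fun i => S i ⊆ X), (a i + 4 * ((0 : ℤ) : ℝ)) = 0 :=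
      sum_eq_zero fun i _ => i.elim0
    rw [h1, abs_zero]
    positivity
  · set i₀ : Fin r := ⟨0, hr⟩ with hi₀
    -- the scale
    set N : ℕ := 2 * r * k * m with hN
    have hN0 : 0 < N := by positivity
    have hNR : (0 : ℝ) < N := by exact_mod_cast hN0
    set e : ℤ := - ∑ j, ⌊(N : ℝ) * a j⌋ with he
    have he0 : (e : ℝ) = ∑ j, Int.fract ((N : ℝ) * a j) := by
      have h1 : ∑ j, (N : ℝ) * a j = 0 := by rw [← mul_sum, ha, mul_zero]
      have h2 : ∑ j, Int.fract ((N : ℝ) * a j) = ∑ j, ((N : ℝ) * a j - (⌊(N : ℝ) * a j⌋ : ℝ)) := rfl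
      rw [h2, sum_sub_distrib, h1, he]
      push_cast
      ring
    have he1 : (0 : ℝ) ≤ e := by
      rw [he0]
      exact sum_nonneg fun j _ => Int.fract_nonneg _
    have he2 : (e : ℝ) ≤ r := by
      rw [he0]
      calc ∑ j, Int.fract ((N : ℝ) * a j) ≤ ∑ j : Fin r, (1 : ℝ) :=
            sum_le_sum fun j _ => (Int.fract_lt_one _).le
        _ = r := by simp
    set b : Fin r → ℤ := fun i => ⌊(N : ℝ) * a i⌋ + if i = i₀ then e else 0 with hb
    have hbs : ∑ i, b i = 0 := by
      simp only [hb, sum_add_distrib, sum_ite_eq', mem_univ, if_true, he]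
      ring
    obtain ⟨β, hβ1, hβ2, hβq, hβ3⟩ := core_charges_G (G := G) S hne hd hk hcut
      (q := 4 * N) (by positivity) b (by rw [hbs]; exact dvd_zero _)
    choose z hz using hβ1
    have h2 : ∀ i, a i + 4 * (z i : ℝ) = (β i : ℝ) / N
        + (Int.fract ((N : ℝ) * a i) - if i = i₀ then (e : ℝ) else 0) / N := by
      intro i
      have h3 : (β i : ℝ) = b i + (4 * N : ℕ) * z i := by
        have := hz i
        have h4 : β i = b i + (4 * N : ℕ) * z i := by linarith
        rw [h4]; push_cast; ring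
      have h4 : (b i : ℝ) = (N : ℝ) * a i - Int.fract ((N : ℝ) * a i)
          + if i = i₀ then (e : ℝ) else 0 := by
        simp only [hb]
        have h5 : ((⌊(N : ℝ) * a i⌋ : ℤ) : ℝ) = (N : ℝ) * a i - Int.fract ((N : ℝ) * a i) := by
          have : Int.fract ((N : ℝ) * a i) = (N : ℝ) * a i - (⌊(N : ℝ) * a i⌋ : ℝ) := rfl
          linarith
        push_cast
        rw [h5]
      rw [h3, h4]
      push_cast
      field_simp
      ring
    have hkm : (1 : ℝ) ≤ k := by exact_mod_cast hk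
    have hone : ∀ i, |a i + 4 * (z i : ℝ)| ≤ 4 + d := by
      intro i
      rw [h2 i]
      refine (abs_add_le _ _).trans (add_le_add ?_ ?_)
      · rw [abs_div, abs_of_pos hNR, div_le_iff₀ hNR]
        refine (hβq i).trans (le_of_eq ?_)
        push_cast
        ring
      · rw [abs_div, abs_of_pos hNR, div_le_iff₀ hNR]
        have h6 := Int.fract_nonneg ((N : ℝ) * a i)
        have h7 := (Int.fract_lt_one ((N : ℝ) * a i)).le
        have hr1 : (1 : ℝ) ≤ r := by exact_mod_cast hr
        have h8 : (0 : ℝ) ≤ (if i = i₀ then (e : ℝ) else 0) := by split_ifs <;> linarith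
        have h9 : (if i = i₀ then (e : ℝ) else 0) ≤ r := by
          split_ifs
          · exact he2
          · linarith
        have h10 : (r : ℝ) ≤ d * N := by
          have h11 : (N : ℝ) = 2 * r * k * m := by
            rw [hN]
            push_cast
            ring
          have h12 : (1 : ℝ) ≤ d * m := by
            rw [div_le_iff₀ hmR] at hmd
            exact hmd
          have h13 : (r : ℝ) * 1 ≤ r * (2 * k * (d * m)) := by
            refine mul_le_mul_of_nonneg_left ?_ (by linarith)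
            nlinarith
          rw [h11]
          linarith
        rw [abs_le]
        constructor <;> linarith
    refine ⟨z, ?_, hone, fun X hX => ?_⟩
    · have h1 : ∑ i, (β i - b i) = 0 := by rw [sum_sub_distrib, hβ2, hbs]; rfl
      rw [sum_congr rfl fun i _ => hz i, ← mul_sum] at h1
      rcases mul_eq_zero.1 h1 with h2 | h2
      · exfalso
        have : (4 * N : ℕ) = 0 := by exact_mod_cast h2
        omega
      · exact h2
    · -- trivial sets
      by_cases hXn : ∃ i, S i ⊆ X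
      swap
      · have h1 : univ.filter (fun i => S i ⊆ X) = ∅ := by
          rw [filter_eq_empty_iff]
          intro i _ hi
          exact hXn ⟨i, hi⟩
        rw [h1, sum_empty, abs_zero]
        positivity
      by_cases hXc : ∀ i, S i ⊆ X
      · have h1 : univ.filter (fun i => S i ⊆ X) = univ := by
          rw [filter_eq_self]
          exact fun i _ => hXc i
        have h2 : ∑ i, (a i + 4 * (z i : ℝ)) = 0 := by
          rw [sum_add_distrib, ha, ← mul_sum]
          have h3 : ∑ i, (β i - b i) = 0 := by rw [sum_sub_distrib, hβ2, hbs]; rfl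
          rw [sum_congr rfl fun i _ => hz i, ← mul_sum] at h3
          have h4 : ∑ i, z i = 0 := by
            rcases mul_eq_zero.1 h3 with h2 | h2
            · exfalso
              have : (4 * N : ℕ) = 0 := by exact_mod_cast h2
              omega
            · exact h2
          have h5 : (∑ i, (z i : ℝ)) = ((∑ i, z i : ℤ) : ℝ) := by push_cast; rfl
          rw [h5, h4]
          simp
        rw [h1, h2, abs_zero]
        positivity
      · have hdd : (1 : ℝ) ≤ dd G X := by
          push Not at hXc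
          obtain ⟨j, hj⟩ := hXc
          have := hcut X hX hXn ⟨j, (hX j).resolve_left hj⟩
          have h1 : 1 ≤ dd G X := hk.trans_le this
          exact_mod_cast h1
        have h1 := hβ3 X hX
        set I := univ.filter (fun i => S i ⊆ X) with hI
        have h3 : ∑ i ∈ I, (a i + 4 * (z i : ℝ)) = ((∑ i ∈ I, β i : ℤ) : ℝ) / N
            + (∑ i ∈ I, Int.fract ((N : ℝ) * a i) - if i₀ ∈ I then (e : ℝ) else 0) / N := by
          rw [sum_congr rfl fun i _ => h2 i, sum_add_distrib, ← sum_div, ← sum_div,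
            sum_sub_distrib, sum_ite_eq']
          push_cast
          rfl
        have h4 : |((∑ i ∈ I, β i : ℤ) : ℝ) / N| ≤ 4 / k * dd G X := by
          rw [abs_div, abs_of_pos hNR, div_le_iff₀ hNR]
          refine h1.trans (le_of_eq ?_)
          push_cast
          ring
        have h5 : |(∑ i ∈ I, Int.fract ((N : ℝ) * a i) - if i₀ ∈ I then (e : ℝ) else 0) / N|
            ≤ 1 / k * (1 / m) := by
          rw [abs_div, abs_of_pos hNR, div_le_iff₀ hNR]
          have h6 : (0 : ℝ) ≤ ∑ i ∈ I, Int.fract ((N : ℝ) * a i) :=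
            sum_nonneg fun j _ => Int.fract_nonneg _
          have h7 : ∑ i ∈ I, Int.fract ((N : ℝ) * a i) ≤ r := by
            calc ∑ i ∈ I, Int.fract ((N : ℝ) * a i) ≤ ∑ i ∈ I, (1 : ℝ) :=
                  sum_le_sum fun j _ => (Int.fract_lt_one _).le
              _ = I.card := by simp
              _ ≤ r := by
                  have := card_le_univ I
                  rw [Fintype.card_fin] at this
                  exact_mod_cast this
          have h8 : (0 : ℝ) ≤ (if i₀ ∈ I then (e : ℝ) else 0) := by split_ifs <;> linarith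
          have h9 : (if i₀ ∈ I then (e : ℝ) else 0) ≤ r := by
            split_ifs
            · exact he2
            · positivity
          have h10 : (1 : ℝ) / k * (1 / m) * N = 2 * r := by
            rw [hN]
            push_cast
            field_simp
          rw [h10, abs_le]
          have hr0 : (0 : ℝ) ≤ r := by positivity
          constructor <;> linarith
        rw [h3]
        refine (abs_add_le _ _).trans ((add_le_add h4 h5).trans ?_)
        have h6 : (4 + d) / (k : ℝ) * dd G X = 4 / k * dd G X + 1 / k * (d * dd G X) := by ring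
        rw [h6]
        have h7 : (1 : ℝ) / k * (1 / m) ≤ 1 / k * (d * dd G X) := by
          refine mul_le_mul_of_nonneg_left ?_ (by positivity)
          nlinarith
        linarith

theorem core_flow_p {V : Type} [Fintype V] [DecidableEq V] (G : SimpleGraph V)
    [DecidableRel G.Adj] {r : ℕ} (S : Fin r → Finset V) (hne : ∀ i, (S i).Nonempty)
    (hd : ∀ i j, i ≠ j → Disjoint (S i) (S j)) {k : ℕ} (hk : 0 < k)
    (hcut : ∀ X : Finset V, Sat S X → (∃ i, S i ⊆ X) → (∃ i, Disjoint (S i) X) → k ≤ dd G X)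
    {σ : V → ℝ} (h0 : ∑ v, σ v = 0) {b d : ℝ} (hb0 : 0 ≤ b) (hdp : 0 < d)
    (hW : ∀ X : Finset V, (∀ i, Disjoint X (S i)) → |∑ v ∈ X, σ v| ≤ b * dd G X) :
    ∃ z : Fin r → ℤ, (∀ i, 4 * |(z i : ℝ)| ≤ |∑ v ∈ S i, σ v| + b * dd G (S i) + (4 + d)) ∧
      ∀ X, Sat S X → |∑ v ∈ X, σ v + 4 * ∑ i ∈ univ.filter (fun i => S i ⊆ X), (z i : ℝ)| ≤
        (b + (4 + d) / k) * dd G X := by
  classical
  set U : Finset V := univ.biUnion S with hU
  have hmemU : ∀ v, v ∈ U ↔ ∃ i, v ∈ S i := by
    intro v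
    simp [hU]
  set M : ℝ := ∑ v, |σ v| with hM
  have hM0 : 0 ≤ M := sum_nonneg fun v _ => abs_nonneg _
  have hMZ : ∀ Z : Finset V, |∑ v ∈ Z, σ v| ≤ M := by
    intro Z
    refine (abs_sum_le_sum_abs _ _).trans ?_
    exact sum_le_sum_of_subset_of_nonneg (subset_univ Z) fun v _ _ => abs_nonneg _
  set u : V → V → ℝ := fun a b' => if a ∈ U ∧ b' ∈ U then M else if G.Adj a b' then b else 0 with hu
  have hu0 : ∀ a b', 0 ≤ u a b' := by
    intro a b'
    simp only [hu]
    split_ifs
    · exact hM0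
    · exact hb0
    · exact le_rfl
  -- cut condition
  have hcap : ∀ Z : Finset V, (∀ a ∈ Z, ∀ b' ∈ Zᶜ, ¬ (a ∈ U ∧ b' ∈ U)) →
      ∑ a ∈ Z, ∑ b' ∈ Zᶜ, u a b' = b * dd G Z := by
    intro Z hZ
    rw [dd_eq_sum, mul_sum]
    refine sum_congr rfl fun a ha => ?_
    rw [mul_sum]
    refine sum_congr rfl fun b' hb' => ?_
    simp only [hu]
    rw [if_neg (hZ a ha b' hb')]
    split_ifs <;> simp
  obtain ⟨f, hf1, hf2, hf3⟩ := hoffman_real u hu0 σ h0 (by
    intro Z
    by_cases hsplit : ∀ a ∈ Z, ∀ b' ∈ Zᶜ, ¬ (a ∈ U ∧ b' ∈ U)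
    · rw [hcap Z hsplit]
      by_cases hZU : ∃ a ∈ Z, a ∈ U
      · obtain ⟨a, ha, haU⟩ := hZU
        have h1 : ∀ i, Disjoint Zᶜ (S i) := by
          intro i
          rw [Finset.disjoint_left]
          intro v hv hvi
          exact hsplit a ha v hv ⟨haU, (hmemU v).2 ⟨i, hvi⟩⟩
        have h2 := hW Zᶜ h1
        rw [dd_compl] at h2
        have h3 : ∑ v ∈ Z, σ v = - ∑ v ∈ Zᶜ, σ v := by
          have := sum_add_sum_compl Z σ
          rw [h0] at this
          linarith
        rw [h3]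
        exact (neg_le_abs _).trans h2
      · push Not at hZU
        refine (le_abs_self _).trans (hW Z fun i => ?_)
        rw [Finset.disjoint_left]
        intro v hv hvi
        exact hZU v hv ((hmemU v).2 ⟨i, hvi⟩)
    · push Not at hsplit
      obtain ⟨a, ha, b', hb', haU, hbU⟩ := hsplit
      refine (le_abs_self _).trans ((hMZ Z).trans ?_)
      have h1 : M = u a b' := by
        simp only [hu]
        rw [if_pos ⟨haU, hbU⟩]
      rw [h1]
      calc u a b' ≤ ∑ b'' ∈ Zᶜ, u a b'' :=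
            single_le_sum (f := fun b'' => u a b'') (fun c _ => hu0 a c) hb'
        _ ≤ ∑ a' ∈ Z, ∑ b'' ∈ Zᶜ, u a' b'' :=
            single_le_sum (f := fun a' => ∑ b'' ∈ Zᶜ, u a' b'')
              (fun c _ => sum_nonneg fun c' _ => hu0 c c') ha)
  -- the flow off the cores
  set g : V → V → ℝ := fun a b' => if a ∈ U ∧ b' ∈ U then 0 else f a b' with hg
  have hga : ∀ a b', g a b' = - g b' a := by
    intro a b'
    simp only [hg]
    by_cases h : a ∈ U ∧ b' ∈ U
    · rw [if_pos h, if_pos ⟨h.2, h.1⟩, neg_zero]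
    · rw [if_neg h, if_neg (fun h' => h ⟨h'.2, h'.1⟩), hf1]
  have hgb : ∀ a b', |g a b'| ≤ b * if G.Adj a b' then 1 else 0 := by
    intro a b'
    simp only [hg]
    by_cases h : a ∈ U ∧ b' ∈ U
    · rw [if_pos h, abs_zero]
      split_ifs <;> simp [hb0]
    · rw [if_neg h]
      have h1 := hf2 a b'
      have h2 := hf2 b' a
      rw [hf1 b' a] at h2
      simp only [hu] at h1 h2
      rw [if_neg h] at h1
      rw [if_neg (fun h' => h ⟨h'.2, h'.1⟩)] at h2
      by_cases hadj : G.Adj a b'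
      · rw [if_pos hadj] at h1
        rw [if_pos hadj.symm] at h2
        rw [if_pos hadj, mul_one, abs_le]
        constructor <;> linarith
      · rw [if_neg hadj] at h1
        rw [if_neg (fun h' => hadj h'.symm)] at h2
        rw [if_neg hadj, mul_zero, abs_le]
        constructor <;> linarith
  have hgW : ∀ v, v ∉ U → ∑ w, g v w = σ v := by
    intro v hv
    rw [← hf3 v]
    refine sum_congr rfl fun w _ => ?_
    simp only [hg]
    rw [if_neg fun h => hv h.1]
  have hgcut : ∀ X : Finset V, |∑ v ∈ X, ∑ w, g v w| ≤ b * dd G X := by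
    intro X
    rw [anti_cut hga, dd_eq_sum, mul_sum]
    refine (abs_sum_le_sum_abs _ _).trans (sum_le_sum fun v _ => ?_)
    rw [mul_sum]
    refine (abs_sum_le_sum_abs _ _).trans (sum_le_sum fun w _ => hgb v w)
  have hgtot : ∑ v, ∑ w, g v w = 0 := anti_inner hga univ
  set a : Fin r → ℝ := fun i => ∑ v ∈ S i, (σ v - ∑ w, g v w) with ha
  have hbi : ∀ φ : V → ℝ, ∀ I : Finset (Fin r), ∑ v ∈ I.biUnion S, φ v = ∑ i ∈ I, ∑ v ∈ S i, φ v := by
    intro φ I
    exact sum_biUnion fun i _ j _ hij => hd i j hij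
  have ha0 : ∑ i, a i = 0 := by
    have h1 : ∑ i, a i = ∑ v ∈ U, (σ v - ∑ w, g v w) := (hbi _ univ).symm
    have h2 : ∑ v ∈ Uᶜ, (σ v - ∑ w, g v w) = 0 := by
      refine sum_eq_zero fun v hv => ?_
      rw [mem_compl] at hv
      rw [hgW v hv, sub_self]
    have h3 := sum_add_sum_compl U fun v => σ v - ∑ w, g v w
    have h4 : ∑ v, (σ v - ∑ w, g v w) = 0 := by rw [sum_sub_distrib, h0, hgtot, sub_zero]
    rw [h2, add_zero, h4] at h3
    rw [h1, h3]
  obtain ⟨z, hz0, hzone, hz⟩ := core_charges_p G S hne hd hk hcut a ha0 hdp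
  have hmain : ∀ X, Sat S X →
      |∑ v ∈ X, σ v + 4 * ∑ i ∈ univ.filter (fun i => S i ⊆ X), (z i : ℝ)| ≤
        (b + (4 + d) / k) * dd G X := by
    intro X hX
    set I := univ.filter (fun i => S i ⊆ X) with hI
    have h1 : ∑ v ∈ X, (σ v - ∑ w, g v w) = ∑ i ∈ I, a i := by
      have h2 : ∑ i ∈ I, a i = ∑ v ∈ I.biUnion S, (σ v - ∑ w, g v w) := (hbi _ I).symm
      rw [h2]
      symm
      refine sum_subset ?_ ?_
      · intro v hv
        obtain ⟨i, hi, hvi⟩ := mem_biUnion.1 hv
        exact (mem_filter.1 hi).2 hvi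
      · intro v hv hvI
        have hvU : v ∉ U := by
          intro h
          obtain ⟨i, hi⟩ := (hmemU v).1 h
          apply hvI
          rw [mem_biUnion]
          refine ⟨i, ?_, hi⟩
          rw [hI, mem_filter]
          refine ⟨mem_univ i, (hX i).resolve_right fun h' => ?_⟩
          exact Finset.disjoint_left.1 h' hi hv
        rw [hgW v hvU, sub_self]
    have h2 : ∑ v ∈ X, σ v + 4 * ∑ i ∈ I, (z i : ℝ)
        = ∑ v ∈ X, ∑ w, g v w + ∑ i ∈ I, (a i + 4 * z i) := by
      rw [sum_add_distrib, ← h1, sum_sub_distrib, ← mul_sum]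
      ring
    rw [h2, add_mul]
    exact (abs_add_le _ _).trans (add_le_add (hgcut X) (hz X hX))
  refine ⟨z, fun i => ?_, hmain⟩
  have h1 : a i = ∑ v ∈ S i, σ v - ∑ v ∈ S i, ∑ w, g v w := by rw [ha]; exact sum_sub_distrib _ _
  have h2 := hzone i
  have h3 := hgcut (S i)
  have h4 : 4 * |(z i : ℝ)| = |4 * (z i : ℝ)| := by
    rw [abs_mul]
    norm_num
  rw [h4]
  have h5 := neg_abs_le (∑ v ∈ S i, σ v)
  have h6 := le_abs_self (∑ v ∈ S i, σ v)
  rw [h1] at h2
  rw [abs_le] at h2 h3 ⊢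
  constructor <;> linarith

/-- The form with `4 / k + δ`. -/
theorem core_flowG {V : Type} [Fintype V] [DecidableEq V] (G : SimpleGraph V)
    [DecidableRel G.Adj] {r : ℕ} (S : Fin r → Finset V) (hne : ∀ i, (S i).Nonempty)
    (hd : ∀ i j, i ≠ j → Disjoint (S i) (S j)) {k : ℕ} (hk : 0 < k)
    (hcut : ∀ X : Finset V, Sat S X → (∃ i, S i ⊆ X) → (∃ i, Disjoint (S i) X) → k ≤ dd G X)
    {σ : V → ℝ} (h0 : ∑ v, σ v = 0) {b : ℝ} (hb0 : 0 ≤ b)
    (hW : ∀ X : Finset V, (∀ i, Disjoint X (S i)) → |∑ v ∈ X, σ v| ≤ b * dd G X)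
    {δ : ℝ} (hδ : 0 < δ) :
    ∃ z : Fin r → ℤ, (∀ i, 4 * |(z i : ℝ)| ≤ |∑ v ∈ S i, σ v| + b * dd G (S i) + 5) ∧
      ∀ X, Sat S X → |∑ v ∈ X, σ v + 4 * ∑ i ∈ univ.filter (fun i => S i ⊆ X), (z i : ℝ)| ≤
        (b + (4 / k + δ)) * dd G X := by
  obtain ⟨z, h1, h2⟩ := core_flow_p G S hne hd hk hcut h0 hb0 (d := min 1 δ) (lt_min one_pos hδ) hW
  have h3 : min 1 δ ≤ (1 : ℝ) := min_le_left _ _
  have hk1 : (1 : ℝ) ≤ k := by exact_mod_cast hk
  have h4 : (4 + min 1 δ) / (k : ℝ) ≤ 4 / k + δ := by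
    rw [add_div]
    have h5 : min 1 δ / (k : ℝ) ≤ δ := by
      have h6 : (0 : ℝ) < min 1 δ := lt_min one_pos hδ
      have h7 : min 1 δ / (k : ℝ) ≤ min 1 δ := div_le_self h6.le hk1
      exact h7.trans (min_le_right _ _)
    linarith
  refine ⟨z, fun i => ?_, fun X hX => (h2 X hX).trans ?_⟩
  · have := h1 i
    linarith
  · exact mul_le_mul_of_nonneg_right (by linarith) (Nat.cast_nonneg _)

end Pool.Agent.K5
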