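import Mathlib
import Pool.Agent.Work.MP_974d84_co_k5.DefsW

/-!
# Theorem (G), large girth and explicit cyclic connectivity: basic notions
-/

set_option linter.unusedSectionVars false

namespace Pool.Agent.K5

open Finset SimpleGraph Pool.Agent.Exp Pool.Agent.Log5 Pool.Agent.Log5.Clu

variable {V : Type} [Fintype V] [DecidableEq V] (G : SimpleGraph V) [DecidableRel G.Adj]

/-- Facts about the cores of a graph of cyclic connectivity `κ` and large girth. -/
structure FactsG (C : ℝ) (N k κ : ℕ) (δ : ℝ) {r : ℕ} (S : Fin r → Finset V) : Prop where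
  base : Facts G C N κ S
  large : ∀ i, k ≤ (S i).card
  ratio : ∀ i, ∀ A ⊆ S i, 3 * A.card ≤ 2 * (S i).card →
    (ee G A (S i)ᶜ : ℝ) ≤ (1 + δ) * ee G A (S i \ A)
  small : ∀ X : Finset V, X.Nonempty → (∀ j, 3 * (X ∩ S j).card ≤ 2 * (S j).card) →
    dd G X < k → X.card + 2 ≤ dd G X
  half : ∀ i, ∀ A ⊆ S i, (S i).card ≤ 2 * A.card → k ≤ dd G A

variable {G}

/-- Small cuts inside a region come from forests. -/
theorem FactsG.reg {C : ℝ} {N k κ : ℕ} {δ : ℝ} {r : ℕ} {S : Fin r → Finset V}
    (hF : FactsG G C N k κ δ S) (hd : ∀ i j, i ≠ j → Disjoint (S i) (S j)) {R : Finset V}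
    (hR : Region S R) {X : Finset V} (hX : X ⊆ R) (hne : X.Nonempty) (hk : dd G X < k) :
    X.card + 2 ≤ dd G X := by
  refine hF.small X hne (fun j => ?_) hk
  rcases hR with ⟨i, rfl⟩ | rfl
  · by_cases hij : i = j
    · subst hij
      have h1 : ¬ (S i).card ≤ 2 * X.card := fun h => by
        have := hF.half i X hX h
        omega
      have h2 : (X ∩ S i).card ≤ X.card := card_le_card inter_subset_left
      omega
    · have h1 : X ∩ S j = ∅ := by
        rw [← disjoint_iff_inter_eq_empty]
        exact (hd i j hij).mono_left hX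
      rw [h1, card_empty]
      omega
  · have h1 : X ∩ S j = ∅ := by
      rw [← disjoint_iff_inter_eq_empty, Finset.disjoint_left]
      intro v hv hv'
      exact (mem_compl.1 (hX hv)) (mem_biUnion.2 ⟨j, mem_univ j, hv'⟩)
    rw [h1, card_empty]
    omega

end Pool.Agent.K5
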