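import Mathlib
import Pool.Agent.Work.MP_974d84_co_k5.Words

/-!
# Moving the defects inside their windows
-/

set_option linter.unusedSectionVars false
set_option linter.unusedVariables false

namespace Pool.Agent.K5

open Finset SimpleGraph Pool.Agent.Exp Pool.Agent.Log5 Pool.Agent.Log5.Clu

variable {V : Type} [Fintype V] [DecidableEq V]

/-- The places of the windows are different. -/
private theorem win_uniq73 {G : SimpleGraph V} [DecidableRel G.Adj] {π : Equiv.Perm V} {R q B : ℕ}
    {A : Finset V} (hA : Win G π R q B A) (hp : ∀ v n, 0 < n → n ≤ 2 * q → (π ^ n) v ≠ v)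
    {a a' : V} (ha : a ∈ A) (ha' : a' ∈ A) {i j : ℕ} (hi : i ≤ 2 * q) (hj : j ≤ 2 * q)
    (h : (π ^ i) a = (π ^ j) a') : a = a' ∧ i = j := by
  have h1 : (π ^ i) a ∈ zone G π R q a :=
    mem_biUnion.2 ⟨i, mem_range.2 (by omega), Bl_self R _⟩
  have h2 : (π ^ i) a ∈ zone G π R q a' := by
    rw [h]
    exact mem_biUnion.2 ⟨j, mem_range.2 (by omega), Bl_self R _⟩
  have h3 : a = a' := by
    by_contra hne
    exact Finset.disjoint_left.1 (hA.disj a ha a' ha' hne) h1 h2
  subst h3
  refine ⟨rfl, ?_⟩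
  have key : ∀ i j : ℕ, i ≤ 2 * q → j ≤ 2 * q → i < j → (π ^ i) a ≠ (π ^ j) a := by
    intro i j hi hj hij he
    have e : (π ^ j) a = (π ^ (j - i)) ((π ^ i) a) := by
      rw [← Equiv.Perm.mul_apply, ← pow_add, Nat.sub_add_cancel hij.le]
    rw [e] at he
    exact hp _ (j - i) (by omega) (by omega) he.symm
  rcases lt_trichotomy i j with hlt | heq | hlt
  · exact absurd h (key i j hi hj hlt)
  · exact heq
  · exact absurd h.symm (key j i hj hi hlt)

/-- The places of the window of `a` before the defect. -/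
private def Flp (π : Equiv.Perm V) (D : Finset V) (c : V → ℕ) (v : V) : Prop :=
  ∃ a ∈ D, ∃ j < c a, v = (π ^ j) a

open Classical in
/-- Moving the defects of the pattern to the places `c`. -/
private theorem exists_flip {π : Equiv.Perm V} {A : Finset V} {q : ℕ}
    (hwin : ∀ a ∈ A, ∀ a' ∈ A, ∀ i ≤ 2 * q, ∀ j ≤ 2 * q, (π ^ i) a = (π ^ j) a' → a = a' ∧ i = j)
    (hπ : ∀ v, π v ≠ π.symm v) {y : V → ℤ} (hy : ∀ v, y v = 1 ∨ y v = -1)
    (halt : ∀ v, π v ∉ A → y (π v) = - y v) (c : V → ℕ) (e : V → ℤ)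
    (hc1 : ∀ a ∈ Dfc π A y, 1 ≤ c a) (hc2 : ∀ a ∈ Dfc π A y, c a ≤ 2 * q)
    (hce : ∀ a ∈ Dfc π A y, y ((π ^ (c a)) a) = e a) :
    ∃ x : V → ℤ, (∀ v, x v = 1 ∨ x v = -1) ∧
      (∀ v, (∀ a ∈ Dfc π A y, ∀ j < c a, v ≠ (π ^ j) a) → x v = y v) ∧
      (∀ a ∈ Dfc π A y, x ((π ^ (c a)) a) = e a ∧ x ((π ^ (c a - 1)) a) = e a) ∧
      (∀ v, x (π v) = - x v ∨ ∃ a ∈ Dfc π A y, v = (π ^ (c a - 1)) a) ∧
      (∀ v, ((univ.filter fun u => (u = π v ∨ v = π u) ∧ x v = - x u).card : ℤ) * x v +
        ∑ a ∈ Dfc π A y, e a * ((if v = (π ^ (c a - 1)) a then 1 else 0) +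
          (if v = (π ^ (c a)) a then 1 else 0)) = 2 * x v) := by
  set D := Dfc π A y with hD
  have hDA : ∀ a ∈ D, a ∈ A := fun a ha => (mem_filter.1 ha).1
  have hw : ∀ a ∈ D, ∀ a' ∈ D, ∀ i ≤ 2 * q, ∀ j ≤ 2 * q, (π ^ i) a = (π ^ j) a' →
      a = a' ∧ i = j := fun a ha a' ha' => hwin a (hDA a ha) a' (hDA a' ha')
  have hsucc : ∀ (j : ℕ) (a : V), π ((π ^ j) a) = (π ^ (j + 1)) a := by
    intro j a
    rw [← Equiv.Perm.mul_apply, ← pow_succ']
  have hy0 : ∀ v, y v ≠ 0 := by
    intro v
    rcases hy v with h | h <;> rw [h] <;> norm_num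
  -- the pattern along the circuits
  have hyD : ∀ v, π v ∉ D → y (π v) = - y v := by
    intro v hv
    by_cases h : π v ∈ A
    · have h1 : ¬ y (π.symm (π v)) = y (π v) := fun h' => hv (mem_filter.2 ⟨h, h'⟩)
      rw [Equiv.symm_apply_apply] at h1
      rcases hy v with h2 | h2 <;> rcases hy (π v) with h3 | h3 <;> rw [h2, h3] at h1 ⊢ <;>
        simp at h1 ⊢
    · exact halt v h
  have hyD' : ∀ v, π v ∈ D → y (π v) = y v := by
    intro v hv
    have := (mem_filter.1 hv).2
    rw [Equiv.symm_apply_apply] at this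
    exact this.symm
  -- flipped places
  have hend : ∀ a ∈ D, ¬ Flp π D c ((π ^ (c a)) a) := by
    rintro a ha ⟨a', ha', j, hj, he⟩
    obtain ⟨h1, h2⟩ := hw a ha a' ha' _ (hc2 a ha) j (by have := hc2 a' ha'; omega) he
    subst h1
    omega
  have hbef : ∀ v, π v ∈ D → ¬ Flp π D c v := by
    rintro v hv ⟨a', ha', j, hj, rfl⟩
    rw [hsucc] at hv
    have := hc2 a' ha'
    have h := hw _ hv a' ha' 0 (by omega) (j + 1) (by omega) (by rw [pow_zero]; rfl)
    omega
  have hfst : ∀ v, v ∈ D → Flp π D c v := fun v hv => ⟨v, hv, 0, hc1 v hv, by rw [pow_zero]; rfl⟩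
  have hnext : ∀ v, Flp π D c v → Flp π D c (π v) ∨ ∃ a ∈ D, v = (π ^ (c a - 1)) a := by
    rintro v ⟨a, ha, j, hj, rfl⟩
    by_cases h : j + 1 < c a
    · left
      exact ⟨a, ha, j + 1, h, hsucc j a⟩
    · right
      refine ⟨a, ha, ?_⟩
      rw [show c a - 1 = j by omega]
  have hprev : ∀ v, π v ∉ D → Flp π D c (π v) → Flp π D c v := by
    rintro v hv ⟨a, ha, j, hj, he⟩
    rcases Nat.eq_zero_or_pos j with h0 | h0
    · subst h0
      rw [pow_zero] at he
      exact absurd (by rw [he]; exact ha) hv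
    · refine ⟨a, ha, j - 1, by omega, ?_⟩
      apply π.injective
      rw [he, hsucc, Nat.sub_add_cancel h0]
  set x : V → ℤ := fun v => if Flp π D c v then - y v else y v with hx
  have hx1 : ∀ v, Flp π D c v → x v = - y v := fun v h => by simp only [hx]; rw [if_pos h]
  have hx2 : ∀ v, ¬ Flp π D c v → x v = y v := fun v h => by simp only [hx]; rw [if_neg h]
  have hsign : ∀ v, x v = 1 ∨ x v = -1 := by
    intro v
    by_cases h : Flp π D c v
    · rw [hx1 v h]
      rcases hy v with h' | h' <;> rw [h'] <;> norm_num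
    · rw [hx2 v h]
      exact hy v
  have hE1 : ∀ a ∈ D, x ((π ^ (c a)) a) = e a := fun a ha => by
    rw [hx2 _ (hend a ha), hce a ha]
  have hc : ∀ a ∈ D, π ((π ^ (c a - 1)) a) = (π ^ (c a)) a := fun a ha => by
    rw [hsucc, Nat.sub_add_cancel (hc1 a ha)]
  have hnD : ∀ a ∈ D, (π ^ (c a)) a ∉ D := by
    intro a ha h
    have h1 := hw _ h a ha 0 (by omega) (c a) (hc2 a ha) (by rw [pow_zero]; rfl)
    have h2 := hc1 a ha
    omega
  have hE2 : ∀ a ∈ D, x ((π ^ (c a - 1)) a) = e a := by
    intro a ha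
    have h1 : Flp π D c ((π ^ (c a - 1)) a) := ⟨a, ha, c a - 1, by have := hc1 a ha; omega, rfl⟩
    have h2 := hyD ((π ^ (c a - 1)) a) (by rw [hc a ha]; exact hnD a ha)
    rw [hc a ha, hce a ha] at h2
    rw [hx1 _ h1]
    omega
  -- alternation
  have halt' : ∀ v, (∀ a ∈ D, v ≠ (π ^ (c a - 1)) a) → x (π v) = - x v := by
    intro v hv
    by_cases hvD : π v ∈ D
    · rw [hx1 _ (hfst _ hvD), hx2 _ (hbef v hvD), hyD' v hvD]
    · by_cases hF : Flp π D c v
      · rcases hnext v hF with h | ⟨a, ha, h⟩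
        · rw [hx1 _ h, hx1 _ hF, hyD v hvD]
        · exact absurd h (hv a ha)
      · have hF' : ¬ Flp π D c (π v) := fun h => hF (hprev v hvD h)
        rw [hx2 _ hF', hx2 _ hF, hyD v hvD]
  refine ⟨x, hsign, ?_, fun a ha => ⟨hE1 a ha, hE2 a ha⟩, ?_, ?_⟩
  · intro v hv
    refine hx2 v ?_
    rintro ⟨a, ha, j, hj, he⟩
    exact hv a ha j hj he
  · intro v
    by_cases h : ∀ a ∈ D, v ≠ (π ^ (c a - 1)) a
    · exact Or.inl (halt' v h)
    · push Not at h
      exact Or.inr h
  · intro v
    have hx0 : x v ≠ 0 := by rcases hsign v with h | h <;> rw [h] <;> norm_num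
    -- the sums of the charges
    have s1 : ∑ a ∈ D, e a * (if v = (π ^ (c a - 1)) a then 1 else 0) =
        if (∃ a ∈ D, v = (π ^ (c a - 1)) a) then x v else 0 := by
      split_ifs with h
      · obtain ⟨a, ha, hva⟩ := h
        rw [sum_eq_single_of_mem a ha]
        · rw [if_pos hva, mul_one, hva, hE2 a ha]
        · intro a' ha' hne
          rw [if_neg, mul_zero]
          intro he
          have k1 := hc2 a ha
          have k2 := hc2 a' ha'
          exact hne (hw a' ha' a ha _ (by omega) _ (by omega) (he.symm.trans hva)).1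
      · refine sum_eq_zero fun a ha => ?_
        rw [if_neg fun he => h ⟨a, ha, he⟩, mul_zero]
    have s2 : ∑ a ∈ D, e a * (if v = (π ^ (c a)) a then 1 else 0) =
        if (∃ a ∈ D, v = (π ^ (c a)) a) then x v else 0 := by
      split_ifs with h
      · obtain ⟨a, ha, hva⟩ := h
        rw [sum_eq_single_of_mem a ha]
        · rw [if_pos hva, mul_one, hva, hE1 a ha]
        · intro a' ha' hne
          rw [if_neg, mul_zero]
          intro he
          have k1 := hc2 a ha
          have k2 := hc2 a' ha'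
          exact hne (hw a' ha' a ha _ (by omega) _ (by omega) (he.symm.trans hva)).1
      · refine sum_eq_zero fun a ha => ?_
        rw [if_neg fun he => h ⟨a, ha, he⟩, mul_zero]
    -- the neighbours along the circuits
    have t1 : (x v = - x (π v)) ↔ ¬ ∃ a ∈ D, v = (π ^ (c a - 1)) a := by
      constructor
      · rintro h ⟨a, ha, hva⟩
        rw [hva, hc a ha, hE1 a ha, hE2 a ha] at h
        rcases hsign ((π ^ (c a)) a) with h' | h' <;> rw [hE1 a ha] at h' <;> omega
      · intro h
        push Not at h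
        rw [halt' v h, neg_neg]
    have t2 : (x v = - x (π.symm v)) ↔ ¬ ∃ a ∈ D, v = (π ^ (c a)) a := by
      constructor
      · rintro h ⟨a, ha, hva⟩
        have e1 : π.symm v = (π ^ (c a - 1)) a := by
          rw [hva, ← hc a ha, Equiv.symm_apply_apply]
        rw [e1, hva, hE1 a ha, hE2 a ha] at h
        rcases hsign ((π ^ (c a)) a) with h' | h' <;> rw [hE1 a ha] at h' <;> omega
      · intro h
        push Not at h
        have h1 := halt' (π.symm v) (by
          intro a ha he
          refine h a ha ?_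
          rw [← hc a ha, ← he, Equiv.apply_symm_apply])
        rw [Equiv.apply_symm_apply] at h1
        exact h1
    have hset : (univ.filter fun u => (u = π v ∨ v = π u) ∧ x v = - x u) =
        (if x v = - x (π v) then {π v} else ∅) ∪ (if x v = - x (π.symm v) then {π.symm v} else ∅) := by
      ext u
      rw [mem_filter, mem_union]
      constructor
      · rintro ⟨-, h1 | h1, h2⟩
        · left
          subst h1
          rw [if_pos h2]
          exact mem_singleton_self _
        · right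
          have : u = π.symm v := by rw [h1, Equiv.symm_apply_apply]
          subst this
          rw [if_pos h2]
          exact mem_singleton_self _
      · rintro (h | h)
        · split_ifs at h with h'
          · rw [mem_singleton] at h
            subst h
            exact ⟨mem_univ _, Or.inl rfl, h'⟩
          · exact absurd h (notMem_empty _)
        · split_ifs at h with h'
          · rw [mem_singleton] at h
            subst h
            exact ⟨mem_univ _, Or.inr (by rw [Equiv.apply_symm_apply]), h'⟩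
          · exact absurd h (notMem_empty _)
    have hcard : ((univ.filter fun u => (u = π v ∨ v = π u) ∧ x v = - x u).card : ℤ) =
        (if x v = - x (π v) then 1 else 0) + (if x v = - x (π.symm v) then 1 else 0) := by
      rw [hset, card_union_of_disjoint]
      · split_ifs <;> simp
      · rw [Finset.disjoint_left]
        intro u hu hu'
        split_ifs at hu hu' with h1 h2
        · rw [mem_singleton] at hu hu'
          exact hπ v (hu.symm.trans hu')
        · exact absurd hu' (notMem_empty _)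
        · exact absurd hu (notMem_empty _)
        · exact absurd hu (notMem_empty _)
    have hsum : ∑ a ∈ D, e a * ((if v = (π ^ (c a - 1)) a then 1 else 0) +
          (if v = (π ^ (c a)) a then 1 else 0)) =
        (if (∃ a ∈ D, v = (π ^ (c a - 1)) a) then x v else 0) +
          (if (∃ a ∈ D, v = (π ^ (c a)) a) then x v else 0) := by
      rw [← s1, ← s2, ← sum_add_distrib]
      exact sum_congr rfl fun a _ => mul_add _ _ _
    rw [hcard, hsum]
    by_cases h1 : ∃ a ∈ D, v = (π ^ (c a - 1)) a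
    · have h1' : ¬ (x v = - x (π v)) := fun h => t1.1 h h1
      by_cases h2 : ∃ a ∈ D, v = (π ^ (c a)) a
      · have h2' : ¬ (x v = - x (π.symm v)) := fun h => t2.1 h h2
        rw [if_neg h1', if_neg h2', if_pos h1, if_pos h2]
        ring
      · have h2' := t2.2 h2
        rw [if_neg h1', if_pos h2', if_pos h1, if_neg h2]
        ring
    · have h1' := t1.2 h1
      by_cases h2 : ∃ a ∈ D, v = (π ^ (c a)) a
      · have h2' : ¬ (x v = - x (π.symm v)) := fun h => t2.1 h h2
        rw [if_pos h1', if_neg h2', if_neg h1, if_pos h2]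
        ring
      · have h2' := t2.2 h2
        rw [if_pos h1', if_pos h2', if_neg h1, if_neg h2]
        ring

/-- The labels for given signs and places of the defects. -/
theorem flip_x {G : SimpleGraph V} [DecidableRel G.Adj] {μ : V → V} {π : Equiv.Perm V}
    (hf : Frame G μ π) {J R q B M k : ℕ} (hg : Gir G k) (hk : 4 * q + 20 ≤ k) {A : Finset V}
    (hA : Win G π R q B A) {y : V → ℤ} (hy : Pattern μ π J q M A y) (ε : V → ℤ)
    (hε : ∀ v, ε v = 1 ∨ ε v = -1) (C : V → ℕ)
    (hC : ∀ a ∈ Dfc π A y, 1 ≤ C a ∧ C a ≤ 2 * q ∧ y ((π ^ C a) a) = ε a) :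
    ∃ x : V → ℤ, (∀ v, x v = 1 ∨ x v = -1) ∧
      (∀ v, (∀ a ∈ Dfc π A y, ∀ j < C a, v ≠ (π ^ j) a) → x v = y v) ∧
      ∀ v, ((univ.filter fun u => (u = π v ∨ v = π u) ∧ x v = - x u).card : ℝ) * x v +
        ∑ a ∈ Dfc π A y, (ε a : ℝ) * ((if v = (π ^ (C a - 1)) a then 1 else 0) +
          (if v = (π ^ C a) a then 1 else 0)) = 2 * x v := by
  have hp : ∀ v n, 0 < n → n ≤ 2 * q → (π ^ n) v ≠ v := fun v n h1 h2 =>
    pow_ne hf hg h1 (by omega) v
  obtain ⟨x, h1, h2, h3, h4, h5⟩ := exists_flip (q := q)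
    (fun a ha a' ha' i hi j hj h => win_uniq73 hA hp ha ha' hi hj h) hf.pi_ne hy.sign hy.alt C ε
    (fun a ha => (hC a ha).1) (fun a ha => (hC a ha).2.1) (fun a ha => (hC a ha).2.2)
  refine ⟨x, h1, h2, fun v => ?_⟩
  have h6 := h5 v
  have h7 : ((((univ.filter fun u => (u = π v ∨ v = π u) ∧ x v = - x u).card : ℤ) * x v +
        ∑ a ∈ Dfc π A y, ε a * ((if v = (π ^ (C a - 1)) a then 1 else 0) +
          (if v = (π ^ (C a)) a then 1 else 0)) : ℤ) : ℝ) = ((2 * x v : ℤ) : ℝ) := by
    have e := congrArg (fun z : ℤ => (z : ℝ)) h6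
    convert e using 3
  simp only [Int.cast_add, Int.cast_mul, Int.cast_sum, Int.cast_natCast, Int.cast_ite,
    Int.cast_one, Int.cast_zero, Int.cast_ofNat] at h7
  exact h7

end Pool.Agent.K5
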