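import Pool.Agent.Work.MP_974d84_co_k5.FinalWCore
import Pool.Agent.Work.MP_974d84_co_k5.LocalW
import Pool.Agent.Work.MP_974d84_co_k5.FlipW
import Pool.Agent.Work.MP_974d84_co_k5.SupW

/-!
# W7: for every choice of the signs of the defects there is a balanced labelling
-/

set_option linter.unusedSectionVars false
set_option linter.unusedVariables false

namespace Pool.Agent.K5

open Finset SimpleGraph Pool.Agent.Exp Pool.Agent.Log5 Pool.Agent.Log5.Clu

/-- The load of an edge: the strands and the flow of one end of a defect. -/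
theorem load_w {V : Type} [Fintype V] [DecidableEq V] {G : SimpleGraph V} [DecidableRel G.Adj]
    {μ : V → V} {π : Equiv.Perm V} (hf : Frame G μ π) {J j₀ : ℕ} {x y : V → ℤ}
    (hx : ∀ v, x v = 1 ∨ x v = -1) {s : ℤ} (hs : s = 1 ∨ s = -1) {v : V}
    (hfav : Fav μ π J y s v) (hxy : ∀ c : List Bool, c.length ≤ j₀ → x (TT μ π v c) = y (TT μ π v c))
    {t : ℝ} {u u' : V} (ht : |t| ≤ 1)
    (h : (u' = μ u ∧ ((∃ c : List Bool, c.length ≤ j₀ ∧ u = TT μ π v c) ∨
          ∃ c : List Bool, c.length ≤ j₀ ∧ u' = TT μ π v c)) ∨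
        (∃ (c : List Bool) (b : Bool), c.length < j₀ ∧ u = TT μ π v c ∧ u' = stp π b u ∧
          t = 1 / 2 ^ (c.length + 1)) ∨
        ∃ (c : List Bool) (b : Bool), c.length < j₀ ∧ u' = TT μ π v c ∧ u = stp π b u' ∧
          t = - (1 / 2 ^ (c.length + 1))) :
    |(if (u' = π u ∨ u = π u') ∧ x u = - x u' then (x u : ℝ) else 0) + (s : ℝ) * t| ≤
      1 + 1 / 2 ^ (J + 1) := by
  classical
  have hδ : (0 : ℝ) < 1 / 2 ^ (J + 1) := by positivity
  have hx1 : ∀ v, |(x v : ℝ)| = 1 := by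
    intro v
    rcases hx v with h | h <;> rw [h] <;> simp
  have hs1 : |(s : ℝ)| = 1 := by
    rcases hs with h | h <;> rw [h] <;> simp
  have hsm : |(if (u' = π u ∨ u = π u') ∧ x u = - x u' then (x u : ℝ) else 0)| ≤ 1 := by
    split_ifs
    · rw [hx1]
    · rw [abs_zero]
      norm_num
  -- the powers
  have hpow : ∀ n : ℕ, (0 : ℝ) < 1 / 2 ^ (n + 1) ∧ (1 : ℝ) / 2 ^ (n + 1) ≤ 1 := by
    intro n
    refine ⟨by positivity, ?_⟩
    rw [div_le_one (by positivity)]
    exact one_le_pow₀ (by norm_num)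
  have hpowJ : ∀ n : ℕ, J ≤ n → (1 : ℝ) / 2 ^ (n + 1) ≤ 1 / 2 ^ (J + 1) := by
    intro n hn
    exact one_div_le_one_div_of_le (by positivity) (pow_le_pow_right₀ (by norm_num) (by omega))
  rcases h with ⟨h, -⟩ | ⟨c, b, hc, hu, hu', hv⟩ | ⟨c, b, hc, hu', hu, hv⟩
  · have hna : ¬ ((u' = π u ∨ u = π u') ∧ x u = - x u') := by
      rintro ⟨h' | h', -⟩
      · exact hf.mu_ne u (h ▸ h')
      · refine hf.mu_ne' u ?_
        rw [← h, h', Equiv.symm_apply_apply]
    rw [if_neg hna, zero_add, abs_mul, hs1, one_mul]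
    linarith
  · by_cases hJ : c.length < J
    · have hxu : x u = - s := by
        rw [hu, hxy c hc.le, hfav c hJ]
      obtain ⟨p1, p2⟩ := hpow c.length
      rw [hv]
      split_ifs
      · rw [hxu]
        push_cast
        have e : -(s : ℝ) + (s : ℝ) * (1 / 2 ^ (c.length + 1))
            = - ((s : ℝ) * (1 - 1 / 2 ^ (c.length + 1))) := by ring
        rw [e, abs_neg, abs_mul, hs1, one_mul, abs_of_nonneg (by linarith)]
        linarith
      · rw [zero_add, abs_mul, hs1, one_mul, abs_of_pos p1]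
        linarith
    · have h1 := hpowJ c.length (by omega)
      obtain ⟨p1, p2⟩ := hpow c.length
      refine (abs_add_le _ _).trans (add_le_add hsm ?_)
      rw [abs_mul, hs1, one_mul, hv, abs_of_pos p1]
      exact h1
  · by_cases hJ : c.length < J
    · have hxu : x u' = - s := by
        rw [hu', hxy c hc.le, hfav c hJ]
      obtain ⟨p1, p2⟩ := hpow c.length
      rw [hv]
      split_ifs with hA
      · rw [hA.2, hxu]
        push_cast
        have e : - -(s : ℝ) + (s : ℝ) * -(1 / 2 ^ (c.length + 1))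
            = (s : ℝ) * (1 - 1 / 2 ^ (c.length + 1)) := by ring
        rw [e, abs_mul, hs1, one_mul, abs_of_nonneg (by linarith)]
        linarith
      · rw [zero_add, abs_mul, hs1, one_mul, abs_neg, abs_of_pos p1]
        linarith
    · have h1 := hpowJ c.length (by omega)
      obtain ⟨p1, p2⟩ := hpow c.length
      refine (abs_add_le _ _).trans (add_le_add hsm ?_)
      rw [abs_mul, hs1, one_mul, hv, abs_neg, abs_of_pos p1]
      exact h1

/-- W7, file FinalW.lean: for every choice of the signs of the defects there is `x`. -/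
theorem final_w {V : Type} [Fintype V] [DecidableEq V] {G : SimpleGraph V} [DecidableRel G.Adj]
    {μ : V → V} {π : Equiv.Perm V} (hf : Frame G μ π) {J j₀ R q B M k : ℕ} (hJ : J ≤ j₀)
    (hR : 2 * j₀ + 2 ≤ R) (hg : Gir G k) (hk : 4 * q + 4 * j₀ + 20 ≤ k) {A : Finset V}
    (hA : Win G π R q B A) {y : V → ℤ} (hy : Pattern μ π J q M A y) :
    ∃ w : V → ℤ → V → ℝ, (∀ a s v, 0 ≤ w a s v) ∧ (∀ a s v, w a s v ≤ 1 / 2 ^ j₀) ∧
      (∀ a ∈ Dfc π A y, ∀ s, (s = 1 ∨ s = -1) → (∀ v, w a s v ≠ 0 → v ∈ zone G π R q a) ∧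
        ∑ v, w a s v = 1) ∧
      ∀ ε : V → ℤ, (∀ v, ε v = 1 ∨ ε v = -1) → ∃ x : V → ℤ, (∀ v, x v = 1 ∨ x v = -1) ∧
        ∀ X : Finset V, |∑ v ∈ X, (x v : ℝ)| ≤ (1 / 2 + 1 / 2 ^ (J + 2)) * dd G X +
          |∑ a ∈ Dfc π A y, (ε a : ℝ) * ∑ v ∈ X, w a (ε a) v| := by
  classical
  choose φE wE e1 e2 e3 e4 e5 e6 e7 e8 using fun v : V =>
    end_flow hf (j₀ := j₀) hg (by omega) v
  choose! cc hcc using hy.fav
  have hDA : ∀ a ∈ Dfc π A y, a ∈ A := fun a ha => (mem_filter.1 ha).1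
  refine ⟨fun a s v => (wE ((π ^ (cc a s - 1)) a) v + wE ((π ^ cc a s) a) v) / 2,
    ?_, ?_, ?_, ?_⟩
  · intro a s v
    have := e4 ((π ^ (cc a s - 1)) a) v
    have := e4 ((π ^ cc a s) a) v
    positivity
  · intro a s v
    have := e5 ((π ^ (cc a s - 1)) a) v
    have := e5 ((π ^ cc a s) a) v
    show (wE ((π ^ (cc a s - 1)) a) v + wE ((π ^ cc a s) a) v) / 2 ≤ 1 / 2 ^ j₀
    linarith
  · intro a ha s hs
    obtain ⟨h1, h2, -⟩ := hcc a (hDA a ha) s hs
    constructor
    · intro v hv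
      have hor : wE ((π ^ (cc a s - 1)) a) v ≠ 0 ∨ wE ((π ^ cc a s) a) v ≠ 0 := by
        by_contra hcon
        push Not at hcon
        apply hv
        show (wE ((π ^ (cc a s - 1)) a) v + wE ((π ^ cc a s) a) v) / 2 = 0
        rw [hcon.1, hcon.2]
        norm_num
      rcases hor with h | h
      · obtain ⟨c, hc, rfl⟩ := e6 _ _ h
        exact (tree_zone hf hg hk hR hA (hDA a ha) (hDA a ha) (by omega) (Nat.zero_le _) hc.le).2
      · obtain ⟨c, hc, rfl⟩ := e6 _ _ h
        exact (tree_zone hf hg hk hR hA (hDA a ha) (hDA a ha) (by omega) (Nat.zero_le _) hc.le).2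
    · show ∑ v, (wE ((π ^ (cc a s - 1)) a) v + wE ((π ^ cc a s) a) v) / 2 = 1
      rw [← sum_div, sum_add_distrib, e7, e7]
      norm_num
  · intro ε hε
    have hC : ∀ a ∈ Dfc π A y, 1 ≤ cc a (ε a) ∧ cc a (ε a) ≤ 2 * q ∧
        y ((π ^ cc a (ε a)) a) = ε a := by
      intro a ha
      obtain ⟨h1, h2, h3, -⟩ := hcc a (hDA a ha) (ε a) (hε a)
      exact ⟨h1, h2, h3⟩
    obtain ⟨x, hx, hxy, h5⟩ := flip_x hf hg (by omega) hA hy ε hε (fun a => cc a (ε a)) hC
    refine ⟨x, hx, fun X => ?_⟩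
    -- the ends
    let τ := {a // a ∈ Dfc π A y} × Bool
    let ix : τ → ℕ := fun t => if t.2 then cc t.1.1 (ε t.1.1) else cc t.1.1 (ε t.1.1) - 1
    have hix : ∀ t : τ, ix t ≤ 2 * q := by
      intro t
      have := (hC t.1.1 t.1.2).2.1
      simp only [ix]
      split_ifs <;> omega
    let pos : τ → V := fun t => (π ^ ix t) t.1.1
    have hsup : ∀ (t : τ) u u', φE (pos t) u u' ≠ 0 → Sup μ π j₀ (pos t) u u' := by
      intro t u u' h
      rcases e3 _ _ _ h with h | ⟨c, b, h1, h2, h3, -⟩ | ⟨c, b, h1, h2, h3, -⟩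
      · exact Or.inl h
      · exact Or.inr (Or.inl ⟨c, b, h1, h2, h3⟩)
      · exact Or.inr (Or.inr ⟨c, b, h1, h2, h3⟩)
    have hε0 : ∀ a, (ε a : ℝ) ≠ 0 := by
      intro a
      rcases hε a with h | h <;> rw [h] <;> norm_num
    have hmul : ∀ (t : τ) u u', (ε t.1.1 : ℝ) * φE (pos t) u u' ≠ 0 →
        φE (pos t) u u' ≠ 0 := fun t u u' h => (mul_ne_zero_iff.1 h).2
    have hmain := final_w_core (G := G) hx
      (fun u u' => (u' = π u ∨ u = π u') ∧ x u = - x u')
      (by
        rintro u u' ⟨h | h, h'⟩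
        · refine ⟨⟨Or.inr h, ?_⟩, (hf.adj u u').2 (Or.inr (Or.inl h)), h'⟩
          rw [h', neg_neg]
        · refine ⟨⟨Or.inl h, ?_⟩, (hf.adj u u').2 (Or.inr (Or.inr ?_)), h'⟩
          · rw [h', neg_neg]
          · rw [h, Equiv.symm_apply_apply])
      (fun (t : τ) u u' => (ε t.1.1 : ℝ) * φE (pos t) u u')
      (fun (t : τ) v => (ε t.1.1 : ℝ) * (if v = pos t then 1 else 0))
      (fun (t : τ) v => (ε t.1.1 : ℝ) * wE (pos t) v)
      (by
        intro t t' u u' h h'
        obtain ⟨h1, h2⟩ := sup_uniq hf hg hk hR hA (hDA _ t.1.2) (hDA _ t'.1.2) (hix t) (hix t')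
          (hsup t u u' (hmul t u u' h)) (hsup t' u u' (hmul t' u u' h'))
        have h3 : t.1 = t'.1 := Subtype.ext h1
        have h4 : t.2 = t'.2 := by
          have h5 := (hC t.1.1 t.1.2).1
          simp only [ix] at h2
          rw [h1] at h2 h5
          rcases ht : t.2 with _ | _ <;> rcases ht' : t'.2 with _ | _ <;>
            simp only [ht, ht', if_true, if_false, Bool.false_eq_true] at h2 ⊢ <;> omega
        exact Prod.ext h3 h4)
      (by
        intro t u u'
        show (ε t.1.1 : ℝ) * φE (pos t) u u' = - ((ε t.1.1 : ℝ) * φE (pos t) u' u)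
        rw [e1 (pos t) u u']
        ring)
      (by
        intro t u u' h
        exact sup_adj hf (hsup t u u' (hmul t u u' h)))
      (δ := 1 / 2 ^ (J + 1)) (by positivity)
      (by
        intro t u u'
        have hfav : Fav μ π J y (ε t.1.1) (pos t) := by
          obtain ⟨h1, h2, h3, h4, h5⟩ := hcc _ (hDA _ t.1.2) (ε t.1.1) (hε _)
          simp only [pos, ix]
          split_ifs
          · exact h5
          · exact h4
        have hxT : ∀ c : List Bool, c.length ≤ j₀ →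
            x (TT μ π (pos t) c) = y (TT μ π (pos t) c) := by
          intro c hc
          refine hxy _ fun a ha j hj => ?_
          have hj' : j < cc a (ε a) := hj
          have := (hC a ha).2.1
          exact (tree_zone hf hg hk hR hA (hDA _ t.1.2) (hDA a ha) (hix t) (by omega) hc).1
        by_cases h0 : φE (pos t) u u' = 0
        · show |(if (u' = π u ∨ u = π u') ∧ x u = - x u' then (x u : ℝ) else 0) +
            (ε t.1.1 : ℝ) * φE (pos t) u u'| ≤ 1 + 1 / 2 ^ (J + 1)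
          rw [h0, mul_zero, add_zero]
          have hδ : (0 : ℝ) < 1 / 2 ^ (J + 1) := by positivity
          have hx1 : |(x u : ℝ)| = 1 := by
            rcases hx u with h | h <;> rw [h] <;> simp
          split_ifs
          · rw [hx1]
            linarith
          · rw [abs_zero]
            linarith
        · exact load_w hf hx (hε _) hfav hxT (e2 _ _ _) (e3 _ _ _ h0))
      (by
        intro t v
        show ∑ u, (ε t.1.1 : ℝ) * φE (pos t) v u
          = (ε t.1.1 : ℝ) * (if v = pos t then 1 else 0) - (ε t.1.1 : ℝ) * wE (pos t) v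
        rw [← mul_sum, e8]
        ring)
      (by
        intro v
        rw [← h5 v]
        congr 1
        rw [Fintype.sum_prod_type, ← sum_coe_sort (Dfc π A y)]
        refine sum_congr rfl fun a _ => ?_
        rw [Fintype.sum_bool]
        simp only [pos, ix, if_true, Bool.false_eq_true, if_false]
        ring) X
    have hν : ∑ t : τ, ∑ v ∈ X, (ε t.1.1 : ℝ) * wE (pos t) v =
        2 * ∑ a ∈ Dfc π A y, (ε a : ℝ) * ∑ v ∈ X,
          (wE ((π ^ (cc a (ε a) - 1)) a) v + wE ((π ^ cc a (ε a)) a) v) / 2 := by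
      rw [Fintype.sum_prod_type, ← sum_coe_sort (Dfc π A y), mul_sum]
      refine sum_congr rfl fun a _ => ?_
      rw [Fintype.sum_bool]
      simp only [pos, ix, if_true, Bool.false_eq_true, if_false]
      rw [← sum_div, sum_add_distrib, ← mul_sum, ← mul_sum]
      ring
    have h6 : |∑ t : τ, ∑ v ∈ X, (ε t.1.1 : ℝ) * wE (pos t) v| =
        2 * |∑ a ∈ Dfc π A y, (ε a : ℝ) * ∑ v ∈ X,
          (wE ((π ^ (cc a (ε a) - 1)) a) v + wE ((π ^ cc a (ε a)) a) v) / 2| := by
      rw [hν, abs_mul]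
      norm_num
    have h7 : (1 : ℝ) / 2 ^ (J + 1) = 2 * (1 / 2 ^ (J + 2)) := by
      rw [pow_succ (2 : ℝ) (J + 1)]
      field_simp
    rw [h6, h7] at hmain
    show |∑ v ∈ X, (x v : ℝ)| ≤ (1 / 2 + 1 / 2 ^ (J + 2)) * dd G X +
      |∑ a ∈ Dfc π A y, (ε a : ℝ) * ∑ v ∈ X,
        (wE ((π ^ (cc a (ε a) - 1)) a) v + wE ((π ^ cc a (ε a)) a) v) / 2|
    linarith [hmain]

end Pool.Agent.K5
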