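import Pool.Agent.Work.MP_974d84_co_k5.CoreCharges
import Pool.Agent.Work.MP_974d84_co_k5.HoffReal

/-!
# M9b: a small flow which carries all charges into the cores
-/

set_option linter.unusedSectionVars false

namespace Pool.Agent.K5

open Finset SimpleGraph Pool.Agent.Exp Pool.Agent.Log5 Pool.Agent.Log5.Clu

theorem dd_eq_sum {V : Type} [Fintype V] [DecidableEq V] (G : SimpleGraph V)
    [DecidableRel G.Adj] (X : Finset V) :
    (dd G X : ℝ) = ∑ a ∈ X, ∑ b ∈ Xᶜ, if G.Adj a b then (1 : ℝ) else 0 := by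
  have h1 : dd G X = ((X ×ˢ Xᶜ).filter fun p => G.Adj p.1 p.2).card := by
    unfold dd
    congr 1
    ext p
    rw [mem_cut, mem_filter, mem_product, mem_compl]
    tauto
  rw [h1, ← sum_product', card_filter]
  push_cast
  rfl

theorem core_flow {V : Type} [Fintype V] [DecidableEq V] (G : SimpleGraph V)
    [DecidableRel G.Adj] {r : ℕ} (S : Fin r → Finset V) (hne : ∀ i, (S i).Nonempty)
    (hd : ∀ i j, i ≠ j → Disjoint (S i) (S j)) {k : ℕ} (hk : 0 < k)
    (hcut : ∀ X : Finset V, Sat S X → (∃ i, S i ⊆ X) → (∃ i, Disjoint (S i) X) → k ≤ dd G X)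
    {σ : V → ℝ} (h0 : ∑ v, σ v = 0) {b : ℝ} (hb0 : 0 ≤ b)
    (hW : ∀ X : Finset V, (∀ i, Disjoint X (S i)) → |∑ v ∈ X, σ v| ≤ b * dd G X) :
    ∃ z : Fin r → ℤ, (∀ i, 4 * |(z i : ℝ)| ≤ |∑ v ∈ S i, σ v| + (b + 5 / k) * dd G (S i)) ∧
      ∀ X, Sat S X → |∑ v ∈ X, σ v + 4 * ∑ i ∈ univ.filter (fun i => S i ⊆ X), (z i : ℝ)| ≤
        (b + 5 / k) * dd G X := by
  classical
  set U : Finset V := univ.biUnion S with hU
  have hmemU : ∀ v, v ∈ U ↔ ∃ i, v ∈ S i := by
    intro v
    simp [hU]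
  set M : ℝ := ∑ v, |σ v| with hM
  have hM0 : 0 ≤ M := sum_nonneg fun v _ => abs_nonneg _
  have hMZ : ∀ Z : Finset V, |∑ v ∈ Z, σ v| ≤ M := by
    intro Z
    refine (abs_sum_le_sum_abs _ _).trans ?_
    exact sum_le_sum_of_subset_of_nonneg (subset_univ Z) fun v _ _ => abs_nonneg _
  set u : V → V → ℝ := fun a b' => if a ∈ U ∧ b' ∈ U then M else if G.Adj a b' then b else 0 with hu
  have hu0 : ∀ a b', 0 ≤ u a b' := by
    intro a b'
    simp only [hu]
    split_ifs
    · exact hM0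
    · exact hb0
    · exact le_rfl
  -- cut condition
  have hcap : ∀ Z : Finset V, (∀ a ∈ Z, ∀ b' ∈ Zᶜ, ¬ (a ∈ U ∧ b' ∈ U)) →
      ∑ a ∈ Z, ∑ b' ∈ Zᶜ, u a b' = b * dd G Z := by
    intro Z hZ
    rw [dd_eq_sum, mul_sum]
    refine sum_congr rfl fun a ha => ?_
    rw [mul_sum]
    refine sum_congr rfl fun b' hb' => ?_
    simp only [hu]
    rw [if_neg (hZ a ha b' hb')]
    split_ifs <;> simp
  obtain ⟨f, hf1, hf2, hf3⟩ := hoffman_real u hu0 σ h0 (by
    intro Z
    by_cases hsplit : ∀ a ∈ Z, ∀ b' ∈ Zᶜ, ¬ (a ∈ U ∧ b' ∈ U)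
    · rw [hcap Z hsplit]
      by_cases hZU : ∃ a ∈ Z, a ∈ U
      · obtain ⟨a, ha, haU⟩ := hZU
        have h1 : ∀ i, Disjoint Zᶜ (S i) := by
          intro i
          rw [Finset.disjoint_left]
          intro v hv hvi
          exact hsplit a ha v hv ⟨haU, (hmemU v).2 ⟨i, hvi⟩⟩
        have h2 := hW Zᶜ h1
        rw [dd_compl] at h2
        have h3 : ∑ v ∈ Z, σ v = - ∑ v ∈ Zᶜ, σ v := by
          have := sum_add_sum_compl Z σ
          rw [h0] at this
          linarith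
        rw [h3]
        exact (neg_le_abs _).trans h2
      · push Not at hZU
        refine (le_abs_self _).trans (hW Z fun i => ?_)
        rw [Finset.disjoint_left]
        intro v hv hvi
        exact hZU v hv ((hmemU v).2 ⟨i, hvi⟩)
    · push Not at hsplit
      obtain ⟨a, ha, b', hb', haU, hbU⟩ := hsplit
      refine (le_abs_self _).trans ((hMZ Z).trans ?_)
      have h1 : M = u a b' := by
        simp only [hu]
        rw [if_pos ⟨haU, hbU⟩]
      rw [h1]
      calc u a b' ≤ ∑ b'' ∈ Zᶜ, u a b'' :=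
            single_le_sum (f := fun b'' => u a b'') (fun c _ => hu0 a c) hb'
        _ ≤ ∑ a' ∈ Z, ∑ b'' ∈ Zᶜ, u a' b'' :=
            single_le_sum (f := fun a' => ∑ b'' ∈ Zᶜ, u a' b'')
              (fun c _ => sum_nonneg fun c' _ => hu0 c c') ha)
  -- the flow off the cores
  set g : V → V → ℝ := fun a b' => if a ∈ U ∧ b' ∈ U then 0 else f a b' with hg
  have hga : ∀ a b', g a b' = - g b' a := by
    intro a b'
    simp only [hg]
    by_cases h : a ∈ U ∧ b' ∈ U
    · rw [if_pos h, if_pos ⟨h.2, h.1⟩, neg_zero]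
    · rw [if_neg h, if_neg (fun h' => h ⟨h'.2, h'.1⟩), hf1]
  have hgb : ∀ a b', |g a b'| ≤ b * if G.Adj a b' then 1 else 0 := by
    intro a b'
    simp only [hg]
    by_cases h : a ∈ U ∧ b' ∈ U
    · rw [if_pos h, abs_zero]
      split_ifs <;> simp [hb0]
    · rw [if_neg h]
      have h1 := hf2 a b'
      have h2 := hf2 b' a
      rw [hf1 b' a] at h2
      simp only [hu] at h1 h2
      rw [if_neg h] at h1
      rw [if_neg (fun h' => h ⟨h'.2, h'.1⟩)] at h2
      by_cases hadj : G.Adj a b'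
      · rw [if_pos hadj] at h1
        rw [if_pos hadj.symm] at h2
        rw [if_pos hadj, mul_one, abs_le]
        constructor <;> linarith
      · rw [if_neg hadj] at h1
        rw [if_neg (fun h' => hadj h'.symm)] at h2
        rw [if_neg hadj, mul_zero, abs_le]
        constructor <;> linarith
  have hgW : ∀ v, v ∉ U → ∑ w, g v w = σ v := by
    intro v hv
    rw [← hf3 v]
    refine sum_congr rfl fun w _ => ?_
    simp only [hg]
    rw [if_neg fun h => hv h.1]
  have hgcut : ∀ X : Finset V, |∑ v ∈ X, ∑ w, g v w| ≤ b * dd G X := by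
    intro X
    rw [anti_cut hga, dd_eq_sum, mul_sum]
    refine (abs_sum_le_sum_abs _ _).trans (sum_le_sum fun v _ => ?_)
    rw [mul_sum]
    refine (abs_sum_le_sum_abs _ _).trans (sum_le_sum fun w _ => hgb v w)
  have hgtot : ∑ v, ∑ w, g v w = 0 := anti_inner hga univ
  set a : Fin r → ℝ := fun i => ∑ v ∈ S i, (σ v - ∑ w, g v w) with ha
  have hbi : ∀ φ : V → ℝ, ∀ I : Finset (Fin r), ∑ v ∈ I.biUnion S, φ v = ∑ i ∈ I, ∑ v ∈ S i, φ v := by
    intro φ I
    exact sum_biUnion fun i _ j _ hij => hd i j hij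
  have ha0 : ∑ i, a i = 0 := by
    have h1 : ∑ i, a i = ∑ v ∈ U, (σ v - ∑ w, g v w) := (hbi _ univ).symm
    have h2 : ∑ v ∈ Uᶜ, (σ v - ∑ w, g v w) = 0 := by
      refine sum_eq_zero fun v hv => ?_
      rw [mem_compl] at hv
      rw [hgW v hv, sub_self]
    have h3 := sum_add_sum_compl U fun v => σ v - ∑ w, g v w
    have h4 : ∑ v, (σ v - ∑ w, g v w) = 0 := by rw [sum_sub_distrib, h0, hgtot, sub_zero]
    rw [h2, add_zero, h4] at h3
    rw [h1, h3]
  obtain ⟨z, hz0, hz⟩ := core_charges_real G S hne hd hk hcut a ha0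
  have hmain : ∀ X, Sat S X →
      |∑ v ∈ X, σ v + 4 * ∑ i ∈ univ.filter (fun i => S i ⊆ X), (z i : ℝ)| ≤
        (b + 5 / k) * dd G X := by
    intro X hX
    set I := univ.filter (fun i => S i ⊆ X) with hI
    have h1 : ∑ v ∈ X, (σ v - ∑ w, g v w) = ∑ i ∈ I, a i := by
      have h2 : ∑ i ∈ I, a i = ∑ v ∈ I.biUnion S, (σ v - ∑ w, g v w) := (hbi _ I).symm
      rw [h2]
      symm
      refine sum_subset ?_ ?_
      · intro v hv
        obtain ⟨i, hi, hvi⟩ := mem_biUnion.1 hv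
        exact (mem_filter.1 hi).2 hvi
      · intro v hv hvI
        have hvU : v ∉ U := by
          intro h
          obtain ⟨i, hi⟩ := (hmemU v).1 h
          apply hvI
          rw [mem_biUnion]
          refine ⟨i, ?_, hi⟩
          rw [hI, mem_filter]
          refine ⟨mem_univ i, (hX i).resolve_right fun h' => ?_⟩
          exact Finset.disjoint_left.1 h' hi hv
        rw [hgW v hvU, sub_self]
    have h2 : ∑ v ∈ X, σ v + 4 * ∑ i ∈ I, (z i : ℝ)
        = ∑ v ∈ X, ∑ w, g v w + ∑ i ∈ I, (a i + 4 * z i) := by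
      rw [sum_add_distrib, ← h1, sum_sub_distrib, ← mul_sum]
      ring
    rw [h2, add_mul]
    exact (abs_add_le _ _).trans (add_le_add (hgcut X) (hz X hX))
  refine ⟨z, fun i => ?_, hmain⟩
  have hsat : Sat S (S i) := by
    intro j
    by_cases hij : j = i
    · left; rw [hij]
    · right; exact hd j i hij
  have hI : univ.filter (fun j => S j ⊆ S i) = {i} := by
    ext j
    simp only [mem_filter, mem_univ, true_and, mem_singleton]
    constructor
    · intro h
      by_contra hij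
      obtain ⟨v, hv⟩ := hne j
      exact Finset.disjoint_left.1 (hd j i hij) hv (h hv)
    · intro h
      rw [h]
  have h1 := hmain (S i) hsat
  rw [hI, sum_singleton] at h1
  have h3 : 4 * |(z i : ℝ)| = |(∑ v ∈ S i, σ v + 4 * (z i : ℝ)) - ∑ v ∈ S i, σ v| := by
    rw [add_sub_cancel_left, abs_mul]
    norm_num
  rw [h3]
  have h4 : |(∑ v ∈ S i, σ v + 4 * (z i : ℝ)) - ∑ v ∈ S i, σ v|
      ≤ |∑ v ∈ S i, σ v + 4 * (z i : ℝ)| + |∑ v ∈ S i, σ v| := by
    rw [sub_eq_add_neg]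
    exact (abs_add_le _ _).trans (by rw [abs_neg])
  linarith

end Pool.Agent.K5
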