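import Mathlib
import Pool.Agent.Work.MP_974d84_co_k5.Defs5

/-!
# Gadget paths: definitions
-/

set_option linter.unusedSectionVars false

namespace Pool.Agent.K5

/-- The vertices where the gadget with the path `P` has its sites. -/
def gidx (a : ℕ) : Finset ℕ := {0, 2 * a + 1, 4 * a + 3, 6 * a + 4, 8 * a + 6, 10 * a + 7}

/-- A gadget path: `ν`, third edge alternately on `[0, 2a+1]` and `[8a+6, 10a+7]`, `μ`, `ν`
alternately on `[2a+1, 4a+3]` and `[6a+4, 8a+6]`, `μ`, third edge on `[4a+3, 6a+4]`. -/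
structure GPath {V' : Type} (G : SimpleGraph V') (μ ν : V' → V') (a : ℕ) (P : ℕ → V') : Prop where
  fix : ∀ i ≤ 10 * a + 7, ν (P i) ≠ P i
  nu : ∀ i < 10 * a + 7, Even i → ¬ (4 * a + 3 ≤ i ∧ i < 6 * a + 4) → P (i + 1) = ν (P i)
  mu : ∀ i < 10 * a + 7, Odd i → 2 * a + 1 ≤ i → i < 8 * a + 6 → P (i + 1) = μ (P i)
  third : ∀ i < 10 * a + 7, (Even i ∧ 4 * a + 3 ≤ i ∧ i < 6 * a + 4) ∨
    (Odd i ∧ (i < 2 * a + 1 ∨ 8 * a + 6 ≤ i)) →
    G.Adj (P i) (P (i + 1)) ∧ P (i + 1) ≠ μ (P i) ∧ P (i + 1) ≠ ν (P i)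

end Pool.Agent.K5
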