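import Mathlib
import Pool.Agent.Work.MP_974d84_co_k5.Defs5

/-!
# Every set is close to a set which splits no core
-/

set_option linter.unusedSectionVars false
set_option linter.unusedVariables false

namespace Pool.Agent.K5

open Finset SimpleGraph Pool.Agent.Exp Pool.Agent.Log5 Pool.Agent.Log5.Clu

namespace Tog

variable {V : Type} [Fintype V] [DecidableEq V] (G : SimpleGraph V) [DecidableRel G.Adj]

theorem ee_swap (A B : Finset V) :
    ((univ : Finset (V × V)).filter fun p => p.2 ∈ A ∧ p.1 ∈ B ∧ G.Adj p.1 p.2).card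
      = ee G A B := by
  unfold ee
  refine card_bij' (fun p _ => (p.2, p.1)) (fun p _ => (p.2, p.1)) ?_ ?_ ?_ ?_
  · intro p hp
    simp only [mem_filter, mem_univ, true_and] at hp ⊢
    exact ⟨hp.1, hp.2.1, hp.2.2.symm⟩
  · intro p hp
    simp only [mem_filter, mem_univ, true_and] at hp ⊢
    exact ⟨hp.1, hp.2.1, hp.2.2.symm⟩
  · intro p _; rfl
  · intro p _; rfl

theorem dd_eq_ee {A S : Finset V} (h : A ⊆ S) : dd G A = ee G A Sᶜ + ee G A (S \ A) := by
  unfold dd ee
  rw [← card_filter_add_card_filter_not (s := Pool.Agent.Work.MP_314beb_co.cut G A)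
    (fun p : V × V => p.2 ∉ S)]
  congr 1
  · congr 1
    ext p
    simp only [mem_filter, mem_cut, mem_univ, true_and, mem_compl]
    constructor
    · rintro ⟨⟨h1, h2, h3⟩, h4⟩
      exact ⟨h1, h4, h3⟩
    · rintro ⟨h1, h4, h3⟩
      exact ⟨⟨h1, fun h5 => h4 (h h5), h3⟩, h4⟩
  · congr 1
    ext p
    simp only [mem_filter, mem_cut, mem_univ, true_and, mem_sdiff, not_not]
    tauto

end Tog

open Tog

/-- M4. -/
theorem toggle {V : Type} [Fintype V] [DecidableEq V] (G : SimpleGraph V) [DecidableRel G.Adj]
    {C : ℝ} {N k r : ℕ} {S : Fin r → Finset V} (hS : Cores G C S) (hF : Facts G C N k S)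
    (X : Finset V) : ∃ (X' : Finset V) (A : Fin r → Finset V),
      (∀ i, A i ⊆ S i ∧ 2 * (A i).card ≤ (S i).card) ∧ Sat S X' ∧
      100 * dd G X' ≤ 123 * dd G X ∧ 100 * ∑ i, dd G (A i) ≤ 223 * dd G X ∧
      ∀ σ : V → ℝ, |∑ v ∈ X, σ v| ≤ |∑ v ∈ X', σ v| + ∑ i, |∑ v ∈ A i, σ v| := by
  classical
  -- the cores which are emptied
  let c : Fin r → Prop := fun i => 2 * (X ∩ S i).card ≤ (S i).card
  let A : Fin r → Finset V := fun i => if c i then X ∩ S i else S i \ X
  let X' : Finset V := univ.filter fun v => (v ∈ X ∧ ∀ i, v ∉ S i) ∨ ∃ i, v ∈ S i ∧ ¬ c i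
  have huniq : ∀ {v : V} {i j : Fin r}, v ∈ S i → v ∈ S j → i = j := by
    intro v i j h1 h2
    by_contra hne
    exact Finset.disjoint_left.1 (hS.disj i j hne) h1 h2
  have hX'S : ∀ {v : V} {i : Fin r}, v ∈ S i → (v ∈ X' ↔ ¬ c i) := by
    intro v i hv
    simp only [X', mem_filter, mem_univ, true_and]
    constructor
    · rintro (⟨-, h⟩ | ⟨j, hj, hc⟩)
      · exact absurd hv (h i)
      · rwa [huniq hv hj]
    · intro h
      exact Or.inr ⟨i, hv, h⟩
  have hX'O : ∀ {v : V}, (∀ i, v ∉ S i) → (v ∈ X' ↔ v ∈ X) := by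
    intro v hv
    simp only [X', mem_filter, mem_univ, true_and]
    constructor
    · rintro (⟨h, -⟩ | ⟨j, hj, -⟩)
      · exact h
      · exact absurd hj (hv j)
    · intro h
      exact Or.inl ⟨h, hv⟩
  have hAS : ∀ i, A i ⊆ S i := by
    intro i
    simp only [A]
    split_ifs
    · exact inter_subset_right
    · exact sdiff_subset
  have hA2 : ∀ i, 2 * (A i).card ≤ (S i).card := by
    intro i
    simp only [A]
    split_ifs with h
    · exact h
    · have h1 : (S i \ X).card + (X ∩ S i).card = (S i).card := by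
        rw [inter_comm]
        exact card_sdiff_add_card_inter (S i) X
      simp only [c, not_le] at h
      omega
  -- the two kinds of cut edges
  set I : Finset (V × V) := (Pool.Agent.Work.MP_314beb_co.cut G X).filter
    (fun p => ∃ i, p.1 ∈ S i ∧ p.2 ∈ S i) with hI
  set O : Finset (V × V) := (Pool.Agent.Work.MP_314beb_co.cut G X).filter
    (fun p => ¬ ∃ i, p.1 ∈ S i ∧ p.2 ∈ S i) with hO
  have hIO : I.card + O.card = dd G X := by
    rw [hI, hO]
    exact card_filter_add_card_filter_not _
  have hinn : ∀ i, ee G (A i) (S i \ A i)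
      = ((Pool.Agent.Work.MP_314beb_co.cut G X).filter
        (fun p => p.1 ∈ S i ∧ p.2 ∈ S i)).card := by
    intro i
    by_cases h : c i
    · have hA : A i = X ∩ S i := if_pos h
      unfold ee
      congr 1
      ext p
      simp only [mem_filter, mem_cut, mem_univ, true_and, hA, mem_inter, mem_sdiff, not_and]
      tauto
    · have hA : A i = S i \ X := if_neg h
      rw [← ee_swap]
      congr 1
      ext p
      simp only [mem_filter, mem_cut, mem_univ, true_and, hA, mem_sdiff, not_and, not_not]
      tauto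
  have hIs : ∑ i, ee G (A i) (S i \ A i) = I.card := by
    rw [sum_congr rfl fun i _ => hinn i, ← card_biUnion]
    · congr 1
      ext p
      simp only [hI, mem_biUnion, mem_filter, mem_univ, true_and]
      constructor
      · rintro ⟨i, h1, h2⟩
        exact ⟨h1, i, h2⟩
      · rintro ⟨h1, i, h2⟩
        exact ⟨i, h1, h2⟩
    · intro i _ j _ hij
      refine Finset.disjoint_left.2 ?_
      intro p h1 h2
      simp only [mem_filter] at h1 h2
      exact hij (huniq h1.2.1 h2.2.1)
  have hrat : ∀ i, 100 * ee G (A i) (S i)ᶜ ≤ 123 * ee G (A i) (S i \ A i) := fun i =>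
    hF.ratio i (A i) (hAS i) (by have := hA2 i; omega)
  have hrats : 100 * ∑ i, ee G (A i) (S i)ᶜ ≤ 123 * I.card := by
    rw [← hIs, mul_sum, mul_sum]
    exact sum_le_sum fun i _ => hrat i
  have hcut : dd G X' ≤ O.card + ∑ i, ee G (A i) (S i)ᶜ := by
    let B : Fin r → Finset (V × V) := fun i => if c i then
      univ.filter fun p : V × V => p.2 ∈ A i ∧ p.1 ∈ (S i)ᶜ ∧ G.Adj p.1 p.2 else
      univ.filter fun p : V × V => p.1 ∈ A i ∧ p.2 ∈ (S i)ᶜ ∧ G.Adj p.1 p.2
    have hB : ∀ i, (B i).card = ee G (A i) (S i)ᶜ := by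
      intro i
      simp only [B]
      split_ifs
      · exact ee_swap G _ _
      · rfl
    have hsub : Pool.Agent.Work.MP_314beb_co.cut G X' ⊆ O ∪ univ.biUnion B := by
      intro p hp
      rw [mem_cut] at hp
      obtain ⟨h1, h2, h3⟩ := hp
      have hns : ¬ ∃ i, p.1 ∈ S i ∧ p.2 ∈ S i := by
        rintro ⟨i, h4, h5⟩
        exact h2 ((hX'S h5).2 ((hX'S h4).1 h1))
      by_cases hu : p.1 ∈ X
      · by_cases hv : p.2 ∈ X
        · -- the second end has been removed
          have : ∃ j, p.2 ∈ S j := by
            by_contra hno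
            push Not at hno
            exact h2 ((hX'O hno).2 hv)
          obtain ⟨j, hj⟩ := this
          have hc : c j := by
            by_contra hc
            exact h2 ((hX'S hj).2 hc)
          refine mem_union_right _ (mem_biUnion.2 ⟨j, mem_univ _, ?_⟩)
          have hA : A j = X ∩ S j := if_pos hc
          simp only [B, if_pos hc, mem_filter, mem_univ, true_and, hA, mem_inter, mem_compl]
          exact ⟨⟨hv, hj⟩, fun h => hns ⟨j, h, hj⟩, h3⟩
        · refine mem_union_left _ ?_
          rw [hO, mem_filter, mem_cut]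
          exact ⟨⟨hu, hv, h3⟩, hns⟩
      · have : ∃ j, p.1 ∈ S j := by
          by_contra hno
          push Not at hno
          exact hu ((hX'O hno).1 h1)
        obtain ⟨j, hj⟩ := this
        have hc : ¬ c j := (hX'S hj).1 h1
        refine mem_union_right _ (mem_biUnion.2 ⟨j, mem_univ _, ?_⟩)
        have hA : A j = S j \ X := if_neg hc
        simp only [B, if_neg hc, mem_filter, mem_univ, true_and, hA, mem_sdiff, mem_compl]
        exact ⟨⟨hj, hu⟩, fun h => hns ⟨j, hj, h⟩, h3⟩
    unfold dd
    refine (card_le_card hsub).trans ((card_union_le _ _).trans ?_)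
    refine Nat.add_le_add_left (card_biUnion_le.trans ?_) _
    exact le_of_eq (sum_congr rfl fun i _ => hB i)
  refine ⟨X', A, fun i => ⟨hAS i, hA2 i⟩, ?_, ?_, ?_, ?_⟩
  · intro i
    by_cases h : c i
    · right
      rw [Finset.disjoint_left]
      intro v hv hv'
      exact (hX'S hv).1 hv' h
    · left
      intro v hv
      exact (hX'S hv).2 h
  · omega
  · have : ∑ i, dd G (A i) = ∑ i, ee G (A i) (S i)ᶜ + I.card := by
      rw [← hIs, ← sum_add_distrib]
      exact sum_congr rfl fun i _ => dd_eq_ee G (hAS i)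
    omega
  · intro σ
    have key : ∑ v ∈ X, σ v = ∑ v ∈ X', σ v
        + ∑ i, (if c i then (1 : ℝ) else -1) * ∑ v ∈ A i, σ v := by
      have h1 : ∀ Y : Finset V, ∑ v ∈ Y, σ v = ∑ v, σ v * (if v ∈ Y then 1 else 0) := by
        intro Y
        have e : Y = univ.filter fun v => v ∈ Y := by ext v; simp
        conv_lhs => rw [e, sum_filter]
        exact sum_congr rfl fun v _ => by split_ifs <;> simp
      have h2 : ∀ v, (if v ∈ X then (1 : ℝ) else 0) = (if v ∈ X' then 1 else 0)
          + ∑ i, (if c i then (1 : ℝ) else -1) * (if v ∈ A i then 1 else 0) := by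
        intro v
        by_cases hv : ∃ i, v ∈ S i
        · obtain ⟨i, hi⟩ := hv
          rw [sum_eq_single i]
          · by_cases hc : c i
            · have hA : A i = X ∩ S i := if_pos hc
              have : ¬ v ∈ X' := fun h => (hX'S hi).1 h hc
              rw [if_pos hc, if_neg this, hA]
              by_cases hx : v ∈ X <;> simp [hx, hi]
            · have hA : A i = S i \ X := if_neg hc
              have : v ∈ X' := (hX'S hi).2 hc
              rw [if_neg hc, if_pos this, hA]
              by_cases hx : v ∈ X <;> simp [hx, hi]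
          · intro j _ hj
            have : v ∉ A j := fun h => hj (huniq (hAS j h) hi)
            rw [if_neg this, mul_zero]
          · intro h; exact absurd (mem_univ _) h
        · push Not at hv
          rw [sum_eq_zero]
          · rw [add_zero]
            exact if_congr (hX'O hv).symm rfl rfl
          · intro j _
            have : v ∉ A j := fun h => hv j (hAS j h)
            rw [if_neg this, mul_zero]
      rw [h1 X, h1 X', sum_congr rfl fun v _ => by rw [h2 v, mul_add, mul_sum], sum_add_distrib,
        sum_comm]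
      congr 1
      refine sum_congr rfl fun i _ => ?_
      rw [h1 (A i), mul_sum]
      exact sum_congr rfl fun v _ => by ring
    rw [key]
    refine (abs_add_le _ _).trans (add_le_add le_rfl ((abs_sum_le_sum_abs _ _).trans ?_))
    refine sum_le_sum fun i _ => ?_
    rw [abs_mul]
    have : |(if c i then (1 : ℝ) else -1)| = 1 := by split_ifs <;> simp
    rw [this, one_mul]

end Pool.Agent.K5
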