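import Mathlib
import Pool.Agent.Work.MP_974d84_co_k5.Defs5
import Pool.Agent.Work.MP_974d84_co_k5.GPathDef
import Pool.Agent.Work.MP_974d84_co_k5.Toggle

/-!
# ROOM K5, M17: the pieces of the assembly
-/

set_option linter.unusedSectionVars false
set_option linter.unusedVariables false

namespace Pool.Agent.K5

open Finset SimpleGraph Pool.Agent.Exp Pool.Agent.Log5 Pool.Agent.Log5.Clu

section
variable {V : Type} [Fintype V] [DecidableEq V] {G : SimpleGraph V} [DecidableRel G.Adj]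

/-- The final estimate of the smeared charge, by toggling. -/
theorem combine {C : ℝ} {N k r : ℕ} {S : Fin r → Finset V} (hS : Cores G C S)
    (hF : Facts G C N k S) {σ q : V → ℝ} {b₁ k₁ e₂ e : ℝ}
    (h2 : ∀ R, Region S R → ∀ X ⊆ R, |∑ v ∈ X, σ v| ≤ b₁ * dd G X)
    (h3 : ∀ X, Sat S X → |∑ v ∈ X, σ v + ∑ v ∈ X, q v| ≤ k₁ * dd G X)
    (h4 : ∀ i, ∀ A ⊆ S i, 2 * A.card ≤ (S i).card → |∑ v ∈ A, q v| ≤ e₂ * dd G A)
    (he₁ : 0 ≤ k₁) (he₂ : 0 ≤ b₁ + e₂)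
    (hnum : 123 / 100 * k₁ + 223 / 100 * (b₁ + e₂) ≤ e) (X : Finset V) :
    |∑ v ∈ X, (σ v + q v)| ≤ e * dd G X := by
  obtain ⟨X', A, hA, hX', hd1, hd2, hle⟩ := toggle G hS hF X
  have hd1' : (100 : ℝ) * dd G X' ≤ 123 * dd G X := by exact_mod_cast hd1
  have hd2' : (100 : ℝ) * ∑ i, (dd G (A i) : ℝ) ≤ 223 * dd G X := by exact_mod_cast hd2
  have hX1 : |∑ v ∈ X', (σ v + q v)| ≤ k₁ * dd G X' := by
    rw [sum_add_distrib]
    exact h3 X' hX'
  have hAi : ∀ i, |∑ v ∈ A i, (σ v + q v)| ≤ (b₁ + e₂) * dd G (A i) := by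
    intro i
    rw [sum_add_distrib]
    have b := h2 (S i) (Or.inl ⟨i, rfl⟩) (A i) (hA i).1
    have c := h4 i (A i) (hA i).1 (hA i).2
    rw [abs_le] at b c ⊢
    constructor <;> linarith
  have hsum : ∑ i, |∑ v ∈ A i, (σ v + q v)| ≤ (b₁ + e₂) * ∑ i, (dd G (A i) : ℝ) := by
    rw [mul_sum]
    exact sum_le_sum fun i _ => hAi i
  have h5 := hle fun v => σ v + q v
  have h6 : k₁ * (100 * dd G X') ≤ k₁ * (123 * dd G X) := mul_le_mul_of_nonneg_left hd1' he₁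
  have h7 : (b₁ + e₂) * (100 * ∑ i, (dd G (A i) : ℝ)) ≤ (b₁ + e₂) * (223 * dd G X) :=
    mul_le_mul_of_nonneg_left hd2' he₂
  have h8 : (0 : ℝ) ≤ dd G X := Nat.cast_nonneg _
  have h9 := mul_le_mul_of_nonneg_right hnum h8
  have h10 : 100 * |∑ v ∈ X, (σ v + q v)| ≤ 100 * (e * dd G X) := by
    calc 100 * |∑ v ∈ X, (σ v + q v)|
        ≤ 100 * (|∑ v ∈ X', (σ v + q v)| + ∑ i, |∑ v ∈ A i, (σ v + q v)|) := by
          linarith
      _ ≤ 100 * (k₁ * dd G X' + (b₁ + e₂) * ∑ i, (dd G (A i) : ℝ)) := by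
          linarith
      _ = k₁ * (100 * dd G X') + (b₁ + e₂) * (100 * ∑ i, (dd G (A i) : ℝ)) := by
          ring
      _ ≤ k₁ * (123 * dd G X) + (b₁ + e₂) * (223 * dd G X) := by
          linarith
      _ = 100 * ((123 / 100 * k₁ + 223 / 100 * (b₁ + e₂)) * dd G X) := by ring
      _ ≤ 100 * (e * dd G X) := by linarith
  linarith

/-- At a vertex at most one of the smeared sites is positive. -/
theorem sum_w_le {a : ℕ} {w : V → V → ℝ} {T : Finset V} (h0 : ∀ t v, 0 ≤ w t v)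
    (h1 : ∀ t v, w t v ≤ 1 / 2 ^ a) (h2 : ∀ t v, w t v ≠ 0 → v ∈ Bl G.Adj a t)
    (hT : ∀ t ∈ T, ∀ t' ∈ T, t ≠ t' → Disjoint (Bl G.Adj a t) (Bl G.Adj a t')) (v : V) :
    ∑ t ∈ T, w t v ≤ 1 / 2 ^ a := by
  by_cases h : ∃ t ∈ T, w t v ≠ 0
  · obtain ⟨t, ht, htv⟩ := h
    rw [sum_eq_single_of_mem t ht]
    · exact h1 t v
    · intro t' ht' hne
      by_contra hc
      exact Finset.disjoint_left.1 (hT t' ht' t ht hne) (h2 t' v hc) (h2 t v htv)
  · rw [sum_eq_zero]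
    · positivity
    · intro t ht
      by_contra hc
      exact h ⟨t, ht, hc⟩

end

/-- The charge of the inner sites of a gadget. -/
noncomputable def gch {V : Type} (a : ℕ) (w : V → V → ℝ) (P : ℕ → V) (η₁ η₂ : ℤ) (v : V) : ℝ :=
  (η₁ : ℝ) * (w (P (2 * a + 1)) v + w (P (4 * a + 3)) v) +
    (η₂ : ℝ) * (w (P (6 * a + 4)) v + w (P (8 * a + 6)) v)

section
variable {V : Type} [Fintype V] [DecidableEq V] {G : SimpleGraph V} [DecidableRel G.Adj]

theorem mem_gidx {a i : ℕ} : i ∈ gidx a ↔ i = 0 ∨ i = 2 * a + 1 ∨ i = 4 * a + 3 ∨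
    i = 6 * a + 4 ∨ i = 8 * a + 6 ∨ i = 10 * a + 7 := by
  simp [gidx]

theorem gidx_le {a i : ℕ} (h : i ∈ gidx a) : i ≤ 10 * a + 7 := by
  rw [mem_gidx] at h
  omega

theorem gch_sum {a : ℕ} {w : V → V → ℝ} {P : ℕ → V} {η₁ η₂ : ℤ} {X : Finset V} {y : ℝ}
    (h : ∀ i ∈ gidx a, ∑ v ∈ X, w (P i) v = y) :
    ∑ v ∈ X, gch a w P η₁ η₂ v = (2 * η₁ + 2 * η₂) * y := by
  unfold gch
  rw [sum_add_distrib, ← mul_sum, ← mul_sum, sum_add_distrib, sum_add_distrib,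
    h _ (mem_gidx.2 (by omega)), h _ (mem_gidx.2 (by omega)), h _ (mem_gidx.2 (by omega)),
    h _ (mem_gidx.2 (by omega))]
  ring

/-- The four inner sites. -/
theorem abs_gch_le {a : ℕ} {w : V → V → ℝ} {P : ℕ → V} {η₁ η₂ : ℤ} (h0 : ∀ t v, 0 ≤ w t v)
    (h1 : η₁ = 1 ∨ η₁ = -1) (h2 : η₂ = 1 ∨ η₂ = -1) (v : V) :
    |gch a w P η₁ η₂ v| ≤ w (P (2 * a + 1)) v + w (P (4 * a + 3)) v + w (P (6 * a + 4)) v +
      w (P (8 * a + 6)) v := by
  have a1 := h0 (P (2 * a + 1)) v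
  have a2 := h0 (P (4 * a + 3)) v
  have a3 := h0 (P (6 * a + 4)) v
  have a4 := h0 (P (8 * a + 6)) v
  unfold gch
  rw [abs_le]
  rcases h1 with rfl | rfl <;> rcases h2 with rfl | rfl <;> push_cast <;>
    constructor <;> linarith

theorem gch_small {a : ℕ} {w : V → V → ℝ} {P : ℕ → V} {η₁ η₂ : ℤ} (h0 : ∀ t v, 0 ≤ w t v)
    (hs : ∀ t v, w t v ≤ 1 / 2 ^ a) (hb : ∀ t v, w t v ≠ 0 → v ∈ Bl G.Adj a t)
    (hinj : ∀ i j, i ≤ 10 * a + 7 → j ≤ 10 * a + 7 → P i = P j → i = j)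
    (hd : ∀ i ∈ gidx a, ∀ j ∈ gidx a, i ≠ j → Disjoint (Bl G.Adj a (P i)) (Bl G.Adj a (P j)))
    (h1 : η₁ = 1 ∨ η₁ = -1) (h2 : η₂ = 1 ∨ η₂ = -1) (v : V) :
    |gch a w P η₁ η₂ v| ≤ 1 / 2 ^ a := by
  classical
  refine (abs_gch_le h0 h1 h2 v).trans ?_
  have h3 := sum_w_le (G := G) (T := (gidx a).image P) h0 hs hb (by
    intro t ht t' ht' hne
    obtain ⟨i, hi, rfl⟩ := mem_image.1 ht
    obtain ⟨j, hj, rfl⟩ := mem_image.1 ht'
    exact hd i hi j hj fun h => hne (by rw [h])) v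
  have h4 : ∑ t ∈ (gidx a).image P, w t v = ∑ i ∈ gidx a, w (P i) v := by
    rw [sum_image]
    intro i hi j hj hij
    exact hinj i j (gidx_le hi) (gidx_le hj) hij
  rw [h4] at h3
  have h5 : ∑ i ∈ ({2 * a + 1, 4 * a + 3, 6 * a + 4, 8 * a + 6} : Finset ℕ), w (P i) v ≤
      ∑ i ∈ gidx a, w (P i) v := by
    refine sum_le_sum_of_subset_of_nonneg ?_ fun i _ _ => h0 _ _
    intro i hi
    simp only [mem_insert, mem_singleton] at hi
    rw [mem_gidx]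
    omega
  rw [sum_insert (by simp; omega), sum_insert (by simp; omega), sum_insert (by simp; omega),
    sum_singleton] at h5
  linarith

theorem gch_total {a : ℕ} {w : V → V → ℝ} {P : ℕ → V} {η₁ η₂ : ℤ} (h0 : ∀ t v, 0 ≤ w t v)
    (ht : ∀ i ∈ gidx a, ∑ v, w (P i) v = 1)
    (h1 : η₁ = 1 ∨ η₁ = -1) (h2 : η₂ = 1 ∨ η₂ = -1) :
    ∑ v, |gch a w P η₁ η₂ v| ≤ 4 := by
  refine (sum_le_sum fun v _ => abs_gch_le h0 h1 h2 v).trans ?_
  rw [sum_add_distrib, sum_add_distrib, sum_add_distrib,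
    ht _ (mem_gidx.2 (by omega)), ht _ (mem_gidx.2 (by omega)), ht _ (mem_gidx.2 (by omega)),
    ht _ (mem_gidx.2 (by omega))]
  norm_num

theorem gch_ne {a : ℕ} {w : V → V → ℝ} {P : ℕ → V} {η₁ η₂ : ℤ} {v : V}
    (h : gch a w P η₁ η₂ v ≠ 0) : ∃ i ∈ gidx a, w (P i) v ≠ 0 := by
  by_contra hc
  push Not at hc
  apply h
  unfold gch
  rw [hc _ (mem_gidx.2 (by omega)), hc _ (mem_gidx.2 (by omega)), hc _ (mem_gidx.2 (by omega)),
    hc _ (mem_gidx.2 (by omega))]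
  ring

/-- Sum over all sites: strand ends and inner sites of the gadgets. -/
theorem sum_sites {m a : ℕ} {p q : Fin m → V} {ν : V → V} {Γ : Type} [Fintype Γ]
    [DecidableEq Γ] {P : Γ → ℕ → V}
    (hinj : ∀ g i g' i', i ≤ 10 * a + 7 → i' ≤ 10 * a + 7 → P g i = P g' i' → g = g' ∧ i = i')
    (hfix : ∀ g, ∀ i ≤ 10 * a + 7, ν (P g i) ≠ P g i)
    (hp : Function.Injective p) (hq : Function.Injective q) (hpq : ∀ i j, p i ≠ q j)
    (hpqT : ∀ v, ((∃ j, p j = v) ∨ ∃ j, q j = v) ↔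
      (ν v = v ∨ ∃ g, v = P g 0 ∨ v = P g (10 * a + 7)))
    {T : Finset V} (hT : ∀ v, v ∈ T ↔ (ν v = v ∨ ∃ g, ∃ i ∈ gidx a, v = P g i)) (f : V → ℝ) :
    ∑ t ∈ T, f t = (∑ j, f (p j) + ∑ j, f (q j)) + ∑ g, ((f (P g (2 * a + 1)) +
      f (P g (4 * a + 3))) + (f (P g (6 * a + 4)) + f (P g (8 * a + 6)))) := by
  classical
  set I : Finset ℕ := {2 * a + 1, 4 * a + 3, 6 * a + 4, 8 * a + 6} with hI
  have hmI : ∀ i, i ∈ I ↔ i = 2 * a + 1 ∨ i = 4 * a + 3 ∨ i = 6 * a + 4 ∨ i = 8 * a + 6 := by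
    intro i
    rw [hI]
    simp
  set T₁ : Finset V := univ.image p ∪ univ.image q with hT₁
  set T₂ : Finset V := ((univ : Finset Γ) ×ˢ I).image fun x => P x.1 x.2 with hT₂
  have hm1 : ∀ v, v ∈ T₁ ↔ (ν v = v ∨ ∃ g, v = P g 0 ∨ v = P g (10 * a + 7)) := by
    intro v
    rw [← hpqT v, hT₁]
    simp
  have hm2 : ∀ v, v ∈ T₂ ↔ ∃ g, ∃ i ∈ I, v = P g i := by
    intro v
    rw [hT₂]
    simp only [mem_image, mem_product, mem_univ, true_and, Prod.exists]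
    constructor
    · rintro ⟨g, i, hi, rfl⟩
      exact ⟨g, i, hi, rfl⟩
    · rintro ⟨g, i, hi, rfl⟩
      exact ⟨g, i, hi, rfl⟩
  have hd : Disjoint T₁ T₂ := by
    rw [Finset.disjoint_left]
    intro v h1 h2
    rw [hm1] at h1
    rw [hm2] at h2
    obtain ⟨g, i, hi, rfl⟩ := h2
    rw [hmI] at hi
    rcases h1 with h1 | ⟨g', h1 | h1⟩
    · exact hfix g i (by omega) h1
    · have := (hinj g i g' 0 (by omega) (by omega) h1).2
      omega
    · have := (hinj g i g' (10 * a + 7) (by omega) (by omega) h1).2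
      omega
  have hTT : T = T₁ ∪ T₂ := by
    ext v
    rw [hT, mem_union, hm1, hm2]
    constructor
    · rintro (h | ⟨g, i, hi, rfl⟩)
      · exact Or.inl (Or.inl h)
      · rw [mem_gidx] at hi
        rcases hi with hi | hi | hi | hi | hi | hi
        · exact Or.inl (Or.inr ⟨g, Or.inl (by rw [hi])⟩)
        · exact Or.inr ⟨g, i, (hmI i).2 (by omega), rfl⟩
        · exact Or.inr ⟨g, i, (hmI i).2 (by omega), rfl⟩
        · exact Or.inr ⟨g, i, (hmI i).2 (by omega), rfl⟩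
        · exact Or.inr ⟨g, i, (hmI i).2 (by omega), rfl⟩
        · exact Or.inl (Or.inr ⟨g, Or.inr (by rw [hi])⟩)
    · rintro ((h | ⟨g, h | h⟩) | ⟨g, i, hi, rfl⟩)
      · exact Or.inl h
      · exact Or.inr ⟨g, 0, mem_gidx.2 (by omega), h⟩
      · exact Or.inr ⟨g, 10 * a + 7, mem_gidx.2 (by omega), h⟩
      · rw [hmI] at hi
        exact Or.inr ⟨g, i, mem_gidx.2 (by omega), rfl⟩
  rw [hTT, sum_union hd]
  congr 1
  · rw [hT₁, sum_union, sum_image fun _ _ _ _ h => hp h, sum_image fun _ _ _ _ h => hq h]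
    rw [Finset.disjoint_left]
    intro v h1 h2
    obtain ⟨i, -, rfl⟩ := mem_image.1 h1
    obtain ⟨j, -, hj⟩ := mem_image.1 h2
    exact hpq i j hj.symm
  · rw [hT₂, sum_image, sum_product]
    · refine sum_congr rfl fun g _ => ?_
      rw [hI, sum_insert (by simp; omega), sum_insert (by simp; omega),
        sum_insert (by simp; omega), sum_singleton]
      ring
    · rintro ⟨g, i⟩ hg ⟨g', i'⟩ hg' h
      have h1 := (hmI i).1 (mem_product.1 hg).2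
      have h2 := (hmI i').1 (mem_product.1 hg').2
      obtain ⟨h3, h4⟩ := hinj g i g' i' (by omega) (by omega) h
      rw [h3, h4]

/-- The signs of the gadgets of one core. -/
theorem sum_signs {M : ℕ} {z : ℤ} (h : z.natAbs ≤ M) :
    ∑ g : Fin M, (2 * ((if (g : ℕ) < z.natAbs then z.sign else 1 : ℤ) : ℝ) +
      2 * ((if (g : ℕ) < z.natAbs then z.sign else -1 : ℤ) : ℝ)) = 4 * z := by
  have h1 : ∀ g : Fin M, (2 * ((if (g : ℕ) < z.natAbs then z.sign else 1 : ℤ) : ℝ) +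
      2 * ((if (g : ℕ) < z.natAbs then z.sign else -1 : ℤ) : ℝ)) =
      (fun n : ℕ => if n < z.natAbs then (4 : ℝ) * z.sign else 0) g := by
    intro g
    dsimp only
    split_ifs
    · ring
    · push_cast
      ring
  rw [sum_congr rfl fun g _ => h1 g,
    Fin.sum_univ_eq_sum_range (fun n : ℕ => if n < z.natAbs then (4 : ℝ) * z.sign else 0) M,
    ← sum_filter]
  have h2 : (range M).filter (· < z.natAbs) = range z.natAbs := by
    ext n
    simp only [mem_filter, mem_range]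
    omega
  rw [h2, sum_const, card_range, nsmul_eq_mul]
  have h3 : (z.sign : ℝ) * (z.natAbs : ℝ) = z := by
    have h4 : ((z.sign * (z.natAbs : ℤ) : ℤ) : ℝ) = z := by
      rw [Int.sign_mul_natAbs]
    rw [Int.cast_mul, Int.cast_natCast] at h4
    exact h4
  linarith

theorem sign_pm {z : ℤ} {n : ℕ} (h : n < z.natAbs) : z.sign = 1 ∨ z.sign = -1 := by
  rcases lt_trichotomy z 0 with hz | hz | hz
  · exact Or.inr (Int.sign_eq_neg_one_of_neg hz)
  · subst hz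
    simp at h
  · exact Or.inl (Int.sign_eq_one_of_pos hz)

end

end Pool.Agent.K5
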