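import Mathlib
import Pool.Agent.Work.MP_974d84_co_k5.Defs5

/-!
# The gadget charges inside a core
-/

set_option linter.unusedSectionVars false

namespace Pool.Agent.K5

open Finset SimpleGraph Pool.Agent.Exp Pool.Agent.Log5 Pool.Agent.Log5.Clu

theorem dd_parts_qb {V : Type} [Fintype V] [DecidableEq V] {G : SimpleGraph V} [DecidableRel G.Adj]
    {A B : Finset V} (hB : B ⊆ A) (h : ∀ u ∈ B, ∀ v ∈ A, v ∉ B → ¬ G.Adj u v) :
    dd G B + dd G (A \ B) ≤ dd G A := by
  unfold dd
  rw [← card_union_of_disjoint]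
  · apply card_le_card
    intro p hp
    rw [mem_union] at hp
    rw [mem_cut]
    rcases hp with hp | hp
    · rw [mem_cut] at hp
      exact ⟨hB hp.1, fun h2 => h _ hp.1 _ h2 hp.2.1 hp.2.2, hp.2.2⟩
    · rw [mem_cut, mem_sdiff] at hp
      refine ⟨hp.1.1, fun h2 => ?_, hp.2.2⟩
      by_cases h3 : p.2 ∈ B
      · exact h _ h3 _ hp.1.1 hp.1.2 hp.2.2.symm
      · exact hp.2.1 (mem_sdiff.2 ⟨h2, h3⟩)
  · rw [Finset.disjoint_left]
    intro p hp hp'
    rw [mem_cut] at hp hp'
    exact (mem_sdiff.1 hp'.1).2 hp.1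

/-- M16, file QBound.lean: the gadget charges inside a core -/
theorem q_bound {V : Type} [Fintype V] [DecidableEq V] {G : SimpleGraph V} [DecidableRel G.Adj]
    (h3 : ∀ v, G.degree v = 3) {C : ℝ} {N k r : ℕ} {S : Fin r → Finset V} (hS : Cores G C S)
    (hF : Facts G C N k S) (hc : CycConn G k) {j₀ R : ℕ} {θ : ℝ} (hθ : 0 ≤ θ) (i : Fin r)
    {Γ : Type} [Fintype Γ] [DecidableEq Γ] (β : Γ → V) (σ : Γ → V → ℝ)
    (hdisj : ∀ g g', g ≠ g' → Disjoint (Bl G.Adj R (β g)) (Bl G.Adj R (β g')))
    (hσ0 : ∀ g v, σ g v ≠ 0 → v ∈ Bl G.Adj R (β g)) (hσ1 : ∀ g v, |σ g v| ≤ 1 / 2 ^ j₀)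
    (hσ4 : ∀ g, ∑ v, |σ g v| ≤ 4)
    (hβ : ∀ Z, Z ⊆ S i → Joined G Z → 2 * Z.card ≤ (S i).card → k ≤ dd G Z →
        ((univ.filter fun g => ¬ Disjoint (Bl G.Adj R (β g)) Z).card : ℝ) ≤ θ * dd G Z)
    (A : Finset V) (hA : A ⊆ S i) (hA2 : 2 * A.card ≤ (S i).card) :
    |∑ v ∈ A, ∑ g, σ g v| ≤ (1 / 2 ^ j₀ + 4 * θ) * dd G A := by
  have hp : (0 : ℝ) < 1 / 2 ^ j₀ := by positivity
  set K : ℝ := 1 / 2 ^ j₀ + 4 * θ with hK
  have hK1 : (1 : ℝ) / 2 ^ j₀ ≤ K := by rw [hK]; linarith
  have hK2 : 4 * θ ≤ K := by rw [hK]; linarith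
  have hK0 : 0 ≤ K := by linarith
  have hpt : ∀ v, |∑ g, σ g v| ≤ 1 / 2 ^ j₀ := by
    intro v
    by_cases h : ∃ g, σ g v ≠ 0
    · obtain ⟨g, hg⟩ := h
      rw [Finset.sum_eq_single g]
      · exact hσ1 g v
      · intro g' _ hg'
        by_contra h0
        exact Finset.disjoint_left.1 (hdisj g' g hg') (hσ0 _ _ h0) (hσ0 _ _ hg)
      · intro h0; exact absurd (mem_univ g) h0
    · push Not at h
      rw [Finset.sum_eq_zero (fun g _ => h g), abs_zero]
      exact hp.le
  have key : ∀ n, ∀ A : Finset V, A.card ≤ n → A ⊆ S i → 2 * A.card ≤ (S i).card →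
      |∑ v ∈ A, ∑ g, σ g v| ≤ K * dd G A := by
    intro n
    induction n with
    | zero =>
      intro A hA0 _ _
      have h0 : A = ∅ := by
        rw [← card_eq_zero]; omega
      subst h0
      rw [sum_empty, abs_zero]
      positivity
    | succ n ih =>
      intro A hAn hAS hA2
      by_cases hj : Joined G A
      · by_cases hne : A.Nonempty
        · by_cases hk : k ≤ dd G A
          · have h1 := hβ A hAS hj hA2 hk
            have h2 : ∀ g, |∑ v ∈ A, σ g v| ≤
                if ¬ Disjoint (Bl G.Adj R (β g)) A then (4 : ℝ) else 0 := by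
              intro g
              by_cases h2 : Disjoint (Bl G.Adj R (β g)) A
              · rw [if_neg (not_not.2 h2), sum_eq_zero, abs_zero]
                intro v hv
                by_contra h0
                exact Finset.disjoint_left.1 h2 (hσ0 _ _ h0) hv
              · rw [if_pos h2]
                exact (abs_sum_le_sum_abs _ _).trans
                  ((sum_le_univ_sum_of_nonneg fun v => abs_nonneg _).trans (hσ4 g))
            calc |∑ v ∈ A, ∑ g, σ g v| = |∑ g, ∑ v ∈ A, σ g v| := by rw [sum_comm]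
              _ ≤ ∑ g, |∑ v ∈ A, σ g v| := abs_sum_le_sum_abs _ _
              _ ≤ ∑ g, (if ¬ Disjoint (Bl G.Adj R (β g)) A then (4 : ℝ) else 0) :=
                  sum_le_sum fun g _ => h2 g
              _ = ((univ.filter fun g => ¬ Disjoint (Bl G.Adj R (β g)) A).card : ℝ) * 4 := by
                  rw [← sum_filter, sum_const, nsmul_eq_mul]
              _ ≤ (θ * dd G A) * 4 := by linarith
              _ = 4 * θ * dd G A := by ring
              _ ≤ K * dd G A := mul_le_mul_of_nonneg_right hK2 (Nat.cast_nonneg _)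
          · have hd : A.card ≤ dd G A := by
              by_cases ha : (G.induce (A : Set V)).IsAcyclic
              · have := dd_of_acyclic G h3 hne ha
                omega
              · by_cases ha' : (G.induce ((Aᶜ : Finset V) : Set V)).IsAcyclic
                · have h4 : (S i).card ≤ Fintype.card V := card_le_univ _
                  have h5 : Aᶜ.card = Fintype.card V - A.card := card_compl A
                  have h6 := hne.card_pos
                  have h7 : Aᶜ.Nonempty := by
                    rw [← card_pos]; omega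
                  have h8 := dd_of_acyclic G h3 h7 ha'
                  rw [dd_compl] at h8
                  omega
                · exact absurd (hc A ha ha') hk
            have hd' : (A.card : ℝ) ≤ dd G A := by exact_mod_cast hd
            calc |∑ v ∈ A, ∑ g, σ g v| ≤ ∑ v ∈ A, |∑ g, σ g v| := abs_sum_le_sum_abs _ _
              _ ≤ ∑ v ∈ A, (1 / 2 ^ j₀ : ℝ) := sum_le_sum fun v _ => hpt v
              _ = A.card * (1 / 2 ^ j₀ : ℝ) := by rw [sum_const, nsmul_eq_mul]
              _ ≤ dd G A * (1 / 2 ^ j₀ : ℝ) := mul_le_mul_of_nonneg_right hd' hp.le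
              _ ≤ dd G A * K := mul_le_mul_of_nonneg_left hK1 (Nat.cast_nonneg _)
              _ = K * dd G A := mul_comm _ _
        · rw [not_nonempty_iff_eq_empty] at hne
          subst hne
          rw [sum_empty, abs_zero]
          positivity
      · unfold Exp.Joined at hj
        push Not at hj
        obtain ⟨B, hBA, hBn, hBne, hB⟩ := hj
        have hss : B ⊂ A := ssubset_of_subset_of_ne hBA hBne
        have hBc : B.card < A.card := card_lt_card hss
        have hBp := hBn.card_pos
        have hDc : (A \ B).card = A.card - B.card := card_sdiff_of_subset hBA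
        have h1 := ih B (by omega) (hBA.trans hAS) (by omega)
        have h2 := ih (A \ B) (by omega) (sdiff_subset.trans hAS) (by omega)
        have h4 : dd G B + dd G (A \ B) ≤ dd G A :=
          dd_parts_qb hBA fun u hu v hv hvB => hB u hu v hv hvB
        have h5 : (dd G B : ℝ) + dd G (A \ B) ≤ dd G A := by exact_mod_cast h4
        have h6 : ∑ v ∈ A, ∑ g, σ g v = ∑ v ∈ B, ∑ g, σ g v + ∑ v ∈ A \ B, ∑ g, σ g v := by
          rw [add_comm, sum_sdiff hBA]
        rw [h6]
        calc |∑ v ∈ B, ∑ g, σ g v + ∑ v ∈ A \ B, ∑ g, σ g v|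
            ≤ |∑ v ∈ B, ∑ g, σ g v| + |∑ v ∈ A \ B, ∑ g, σ g v| := abs_add_le _ _
          _ ≤ K * dd G B + K * dd G (A \ B) := add_le_add h1 h2
          _ = K * ((dd G B : ℝ) + dd G (A \ B)) := by ring
          _ ≤ K * dd G A := mul_le_mul_of_nonneg_left h5 hK0
  exact key A.card A le_rfl hA hA2

/-- M16, second form: a threshold `k₁`, and sets up to two thirds of the core. -/
theorem q_bound_two {V : Type} [Fintype V] [DecidableEq V] {G : SimpleGraph V} [DecidableRel G.Adj]
    (h3 : ∀ v, G.degree v = 3) {C : ℝ} {N k r : ℕ} {S : Fin r → Finset V} (hS : Cores G C S)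
    (hF : Facts G C N k S) (hc : CycConn G k) {j₀ R : ℕ} {θ : ℝ} (hθ : 0 ≤ θ) (i : Fin r)
    {Γ : Type} [Fintype Γ] [DecidableEq Γ] (β : Γ → V) (σ : Γ → V → ℝ)
    (hdisj : ∀ g g', g ≠ g' → Disjoint (Bl G.Adj R (β g)) (Bl G.Adj R (β g')))
    (hσ0 : ∀ g v, σ g v ≠ 0 → v ∈ Bl G.Adj R (β g)) (hσ1 : ∀ g v, |σ g v| ≤ 1 / 2 ^ j₀)
    (hσ4 : ∀ g, ∑ v, |σ g v| ≤ 4)
    {k₁ : ℕ} (hk₁ : k₁ ≤ k) (hβ : ∀ Z, Z ⊆ S i → Joined G Z → k₁ ≤ dd G Z →
        ((univ.filter fun g => ¬ Disjoint (Bl G.Adj R (β g)) Z).card : ℝ) ≤ θ * dd G Z)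
    (A : Finset V) (hA : A ⊆ S i) (hA2 : 3 * A.card ≤ 2 * (S i).card) :
    |∑ v ∈ A, ∑ g, σ g v| ≤ (2 / 2 ^ j₀ + 4 * θ) * dd G A := by
  have hp : (0 : ℝ) < 1 / 2 ^ j₀ := by positivity
  set K : ℝ := 2 / 2 ^ j₀ + 4 * θ with hK
  have hK1 : 2 * ((1 : ℝ) / 2 ^ j₀) ≤ K := by
    rw [hK, mul_one_div]; linarith
  have hK2 : 4 * θ ≤ K := by
    have h2 : (0 : ℝ) < 2 / 2 ^ j₀ := by positivity
    rw [hK]; linarith
  have hK0 : 0 ≤ K := by linarith
  have hpt : ∀ v, |∑ g, σ g v| ≤ 1 / 2 ^ j₀ := by
    intro v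
    by_cases h : ∃ g, σ g v ≠ 0
    · obtain ⟨g, hg⟩ := h
      rw [Finset.sum_eq_single g]
      · exact hσ1 g v
      · intro g' _ hg'
        by_contra h0
        exact Finset.disjoint_left.1 (hdisj g' g hg') (hσ0 _ _ h0) (hσ0 _ _ hg)
      · intro h0; exact absurd (mem_univ g) h0
    · push Not at h
      rw [Finset.sum_eq_zero (fun g _ => h g), abs_zero]
      exact hp.le
  have key : ∀ n, ∀ A : Finset V, A.card ≤ n → A ⊆ S i → 3 * A.card ≤ 2 * (S i).card →
      |∑ v ∈ A, ∑ g, σ g v| ≤ K * dd G A := by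
    intro n
    induction n with
    | zero =>
      intro A hA0 _ _
      have h0 : A = ∅ := by
        rw [← card_eq_zero]; omega
      subst h0
      rw [sum_empty, abs_zero]
      positivity
    | succ n ih =>
      intro A hAn hAS hA2
      by_cases hj : Joined G A
      · by_cases hne : A.Nonempty
        · by_cases hk : k₁ ≤ dd G A
          · have h1 := hβ A hAS hj hk
            have h2 : ∀ g, |∑ v ∈ A, σ g v| ≤
                if ¬ Disjoint (Bl G.Adj R (β g)) A then (4 : ℝ) else 0 := by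
              intro g
              by_cases h2 : Disjoint (Bl G.Adj R (β g)) A
              · rw [if_neg (not_not.2 h2), sum_eq_zero, abs_zero]
                intro v hv
                by_contra h0
                exact Finset.disjoint_left.1 h2 (hσ0 _ _ h0) hv
              · rw [if_pos h2]
                exact (abs_sum_le_sum_abs _ _).trans
                  ((sum_le_univ_sum_of_nonneg fun v => abs_nonneg _).trans (hσ4 g))
            calc |∑ v ∈ A, ∑ g, σ g v| = |∑ g, ∑ v ∈ A, σ g v| := by rw [sum_comm]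
              _ ≤ ∑ g, |∑ v ∈ A, σ g v| := abs_sum_le_sum_abs _ _
              _ ≤ ∑ g, (if ¬ Disjoint (Bl G.Adj R (β g)) A then (4 : ℝ) else 0) :=
                  sum_le_sum fun g _ => h2 g
              _ = ((univ.filter fun g => ¬ Disjoint (Bl G.Adj R (β g)) A).card : ℝ) * 4 := by
                  rw [← sum_filter, sum_const, nsmul_eq_mul]
              _ ≤ (θ * dd G A) * 4 := by linarith
              _ = 4 * θ * dd G A := by ring
              _ ≤ K * dd G A := mul_le_mul_of_nonneg_right hK2 (Nat.cast_nonneg _)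
          · have hd : A.card ≤ 2 * dd G A := by
              by_cases ha : (G.induce (A : Set V)).IsAcyclic
              · have := dd_of_acyclic G h3 hne ha
                omega
              · by_cases ha' : (G.induce ((Aᶜ : Finset V) : Set V)).IsAcyclic
                · have h4 : (S i).card ≤ Fintype.card V := card_le_univ _
                  have h5 : Aᶜ.card = Fintype.card V - A.card := card_compl A
                  have h6 := hne.card_pos
                  have h7 : Aᶜ.Nonempty := by
                    rw [← card_pos]; omega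
                  have h8 := dd_of_acyclic G h3 h7 ha'
                  rw [dd_compl] at h8
                  omega
                · exact absurd (hk₁.trans (hc A ha ha')) hk
            have hd' : (A.card : ℝ) ≤ 2 * dd G A := by exact_mod_cast hd
            calc |∑ v ∈ A, ∑ g, σ g v| ≤ ∑ v ∈ A, |∑ g, σ g v| := abs_sum_le_sum_abs _ _
              _ ≤ ∑ v ∈ A, (1 / 2 ^ j₀ : ℝ) := sum_le_sum fun v _ => hpt v
              _ = A.card * (1 / 2 ^ j₀ : ℝ) := by rw [sum_const, nsmul_eq_mul]
              _ ≤ (2 * dd G A) * (1 / 2 ^ j₀ : ℝ) := mul_le_mul_of_nonneg_right hd' hp.le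
              _ = dd G A * (2 * (1 / 2 ^ j₀ : ℝ)) := by ring
              _ ≤ dd G A * K := mul_le_mul_of_nonneg_left hK1 (Nat.cast_nonneg _)
              _ = K * dd G A := mul_comm _ _
        · rw [not_nonempty_iff_eq_empty] at hne
          subst hne
          rw [sum_empty, abs_zero]
          positivity
      · unfold Exp.Joined at hj
        push Not at hj
        obtain ⟨B, hBA, hBn, hBne, hB⟩ := hj
        have hss : B ⊂ A := ssubset_of_subset_of_ne hBA hBne
        have hBc : B.card < A.card := card_lt_card hss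
        have hBp := hBn.card_pos
        have hDc : (A \ B).card = A.card - B.card := card_sdiff_of_subset hBA
        have h1 := ih B (by omega) (hBA.trans hAS) (by omega)
        have h2 := ih (A \ B) (by omega) (sdiff_subset.trans hAS) (by omega)
        have h4 : dd G B + dd G (A \ B) ≤ dd G A :=
          dd_parts_qb hBA fun u hu v hv hvB => hB u hu v hv hvB
        have h5 : (dd G B : ℝ) + dd G (A \ B) ≤ dd G A := by exact_mod_cast h4
        have h6 : ∑ v ∈ A, ∑ g, σ g v = ∑ v ∈ B, ∑ g, σ g v + ∑ v ∈ A \ B, ∑ g, σ g v := by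
          rw [add_comm, sum_sdiff hBA]
        rw [h6]
        calc |∑ v ∈ B, ∑ g, σ g v + ∑ v ∈ A \ B, ∑ g, σ g v|
            ≤ |∑ v ∈ B, ∑ g, σ g v| + |∑ v ∈ A \ B, ∑ g, σ g v| := abs_add_le _ _
          _ ≤ K * dd G B + K * dd G (A \ B) := add_le_add h1 h2
          _ = K * ((dd G B : ℝ) + dd G (A \ B)) := by ring
          _ ≤ K * dd G A := mul_le_mul_of_nonneg_left h5 hK0
  exact key A.card A le_rfl hA hA2

end Pool.Agent.K5
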