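import Mathlib
import Pool.Agent.Work.MP_974d84_co_k5.MainA
import Pool.Agent.Work.MP_974d84_co_k5.DefsW
import Pool.Agent.Work.MP_974d84_co_k5.CoreFlow
import Pool.Agent.Work.MP_974d84_co_k5.QBound

/-!
# Route W, W9: the assembly for one graph
-/

set_option linter.unusedSectionVars false
set_option linter.unusedVariables false

namespace Pool.Agent.K5

open Finset SimpleGraph Pool.Agent.Exp Pool.Agent.Log5 Pool.Agent.Log5.Clu

variable {V : Type} [Fintype V] [DecidableEq V] {G : SimpleGraph V} [DecidableRel G.Adj]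

theorem pow_mem_ball {μ : V → V} {π : Equiv.Perm V} (hf : Frame G μ π) (n : ℕ) (v : V) :
    (π ^ n) v ∈ Bl G.Adj n v := by
  induction n with
  | zero => simp [mem_Bl_zero]
  | succ n ih =>
    rw [pow_succ', Equiv.Perm.mul_apply]
    exact mem_Bl_succ.2 (Or.inr ⟨_, ih, (hf.adj _ _).2 (Or.inr (Or.inl rfl))⟩)

theorem zone_sub {μ : V → V} {π : Equiv.Perm V} (hf : Frame G μ π) {R q R' n : ℕ} {v : V}
    (h : n + 2 * q + R ≤ R') : zone G π R q ((π ^ n) v) ⊆ Bl G.Adj R' v := by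
  intro u hu
  unfold zone at hu
  rw [mem_biUnion] at hu
  obtain ⟨j, hj, hu⟩ := hu
  rw [mem_range] at hj
  have h1 := pow_mem_ball hf j ((π ^ n) v)
  exact Bl_mono (by omega : n + j + R ≤ R') _ (Bl_comp (Bl_comp (pow_mem_ball hf n v) h1) hu)

theorem ball_sub_zone {π : Equiv.Perm V} {R q j : ℕ} (h : j ≤ R) (a : V) :
    Bl G.Adj j a ⊆ zone G π R q a := by
  intro u hu
  unfold zone
  rw [mem_biUnion]
  exact ⟨0, mem_range.2 (by omega), by simpa using Bl_mono h a hu⟩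

/-- Signs which are prescribed on two disjoint images. -/
theorem exists_extend {Γ : Type} {p₁ p₂ : Γ → V} (h1 : Function.Injective p₁)
    (h2 : Function.Injective p₂) (h12 : ∀ g g', p₁ g ≠ p₂ g') (η₁ η₂ : Γ → ℤ) (ε₀ : V → ℤ)
    (e0 : ∀ v, ε₀ v = 1 ∨ ε₀ v = -1) (e1 : ∀ g, η₁ g = 1 ∨ η₁ g = -1)
    (e2 : ∀ g, η₂ g = 1 ∨ η₂ g = -1) :
    ∃ ε : V → ℤ, (∀ v, ε v = 1 ∨ ε v = -1) ∧ (∀ g, ε (p₁ g) = η₁ g) ∧ (∀ g, ε (p₂ g) = η₂ g) ∧
      ∀ v, (∀ g, v ≠ p₁ g) → (∀ g, v ≠ p₂ g) → ε v = ε₀ v := by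
  classical
  refine ⟨Function.extend p₁ η₁ (Function.extend p₂ η₂ ε₀), ?_, ?_, ?_, ?_⟩
  · intro v
    by_cases h : ∃ g, p₁ g = v
    · obtain ⟨g, rfl⟩ := h
      rw [h1.extend_apply]
      exact e1 g
    · rw [Function.extend_apply' _ _ _ h]
      by_cases h' : ∃ g, p₂ g = v
      · obtain ⟨g, rfl⟩ := h'
        rw [h2.extend_apply]
        exact e2 g
      · rw [Function.extend_apply' _ _ _ h']
        exact e0 v
  · intro g
    rw [h1.extend_apply]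
  · intro g
    rw [Function.extend_apply' _ _ _ (fun h => by
      obtain ⟨g', hg'⟩ := h
      exact h12 g' g hg'), h2.extend_apply]
  · intro v hv1 hv2
    rw [Function.extend_apply' _ _ _ (fun h => by
      obtain ⟨g', hg'⟩ := h
      exact hv1 g' hg'.symm), Function.extend_apply' _ _ _ (fun h => by
      obtain ⟨g', hg'⟩ := h
      exact hv2 g' hg'.symm)]

/-- The charge of a gadget: two defects. -/
noncomputable def dch (w : V → ℤ → V → ℝ) (a₁ a₂ : V) (η₁ η₂ : ℤ) (v : V) : ℝ :=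
  2 * ((η₁ : ℝ) * w a₁ η₁ v + (η₂ : ℝ) * w a₂ η₂ v)

theorem dch_ne {w : V → ℤ → V → ℝ} {a₁ a₂ : V} {η₁ η₂ : ℤ} {v : V}
    (h : dch w a₁ a₂ η₁ η₂ v ≠ 0) : w a₁ η₁ v ≠ 0 ∨ w a₂ η₂ v ≠ 0 := by
  by_contra hc
  push Not at hc
  apply h
  unfold dch
  rw [hc.1, hc.2]
  ring

theorem dch_sum {w : V → ℤ → V → ℝ} {a₁ a₂ : V} {η₁ η₂ : ℤ} {X : Finset V} {y : ℝ}
    (h1 : ∑ v ∈ X, w a₁ η₁ v = y) (h2 : ∑ v ∈ X, w a₂ η₂ v = y) :
    ∑ v ∈ X, dch w a₁ a₂ η₁ η₂ v = (2 * η₁ + 2 * η₂) * y := by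
  unfold dch
  rw [← mul_sum, sum_add_distrib, ← mul_sum, ← mul_sum, h1, h2]
  ring

theorem dch_small {j : ℕ} {w : V → ℤ → V → ℝ} {a₁ a₂ : V} {η₁ η₂ : ℤ} {U₁ U₂ : Finset V}
    (h0 : ∀ a s v, 0 ≤ w a s v) (hs : ∀ a s v, w a s v ≤ 1 / 2 ^ (j + 1))
    (hU : Disjoint U₁ U₂) (h1 : ∀ v, w a₁ η₁ v ≠ 0 → v ∈ U₁) (h2 : ∀ v, w a₂ η₂ v ≠ 0 → v ∈ U₂)
    (e1 : η₁ = 1 ∨ η₁ = -1) (e2 : η₂ = 1 ∨ η₂ = -1) (v : V) :
    |dch w a₁ a₂ η₁ η₂ v| ≤ 1 / 2 ^ j := by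
  have hp : (1 : ℝ) / 2 ^ j = 2 * (1 / 2 ^ (j + 1)) := by
    rw [pow_succ]
    field_simp
  have a1 := h0 a₁ η₁ v
  have a2 := h0 a₂ η₂ v
  have b1 := hs a₁ η₁ v
  have b2 := hs a₂ η₂ v
  rw [hp]
  unfold dch
  rw [abs_mul, abs_of_pos (by norm_num : (0 : ℝ) < 2)]
  refine mul_le_mul_of_nonneg_left ?_ (by norm_num)
  by_cases h : w a₁ η₁ v = 0
  · rw [h, mul_zero, zero_add, abs_mul]
    rcases e2 with h' | h' <;> rw [h'] at a2 b2 ⊢ <;> push_cast <;>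
      simp only [abs_neg, abs_one, one_mul] <;> rw [abs_of_nonneg a2] <;> exact b2
  · have h' : w a₂ η₂ v = 0 := by
      by_contra hc
      exact Finset.disjoint_left.1 hU (h1 v h) (h2 v hc)
    rw [h', mul_zero, add_zero, abs_mul]
    rcases e1 with h'' | h'' <;> rw [h''] at a1 b1 ⊢ <;> push_cast <;>
      simp only [abs_neg, abs_one, one_mul] <;> rw [abs_of_nonneg a1] <;> exact b1

theorem dch_total {w : V → ℤ → V → ℝ} {a₁ a₂ : V} {η₁ η₂ : ℤ}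
    (h0 : ∀ a s v, 0 ≤ w a s v) (h1 : ∑ v, w a₁ η₁ v = 1) (h2 : ∑ v, w a₂ η₂ v = 1)
    (e1 : η₁ = 1 ∨ η₁ = -1) (e2 : η₂ = 1 ∨ η₂ = -1) :
    ∑ v, |dch w a₁ a₂ η₁ η₂ v| ≤ 4 := by
  have h : ∀ v, |dch w a₁ a₂ η₁ η₂ v| ≤ 2 * (w a₁ η₁ v + w a₂ η₂ v) := by
    intro v
    have a1 := h0 a₁ η₁ v
    have a2 := h0 a₂ η₂ v
    unfold dch
    rw [abs_mul, abs_of_pos (by norm_num : (0 : ℝ) < 2)]
    refine mul_le_mul_of_nonneg_left ?_ (by norm_num)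
    refine (abs_add_le _ _).trans (add_le_add ?_ ?_)
    · rw [abs_mul, abs_of_nonneg a1]
      rcases e1 with h' | h' <;> rw [h'] <;> push_cast <;> simp
    · rw [abs_mul, abs_of_nonneg a2]
      rcases e2 with h' | h' <;> rw [h'] <;> push_cast <;> simp
  refine (sum_le_sum fun v _ => h v).trans ?_
  rw [← mul_sum, sum_add_distrib, h1, h2]
  norm_num

end Pool.Agent.K5
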