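import Mathlib
import Pool.Agent.Work.MP_974d84_co_k5.Defs5

/-!
# Room K5, line W: an even set of vertices is paired along edge-disjoint paths
-/

set_option linter.unusedSectionVars false

namespace Pool.Agent.K5

open Finset SimpleGraph Pool.Agent.Exp
open Pool.Agent.Work.MP_314beb_co

variable {V : Type} [Fintype V] [DecidableEq V] {G : SimpleGraph V} [DecidableRel G.Adj]

/-- A graph without empty cuts is connected. -/
theorem preconnected_of_cut
    (hbr : ∀ S : Finset V, S.Nonempty → Sᶜ.Nonempty → 1 ≤ dd G S) : G.Preconnected := by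
  classical
  intro a b
  by_contra hab
  set S : Finset V := univ.filter fun v => G.Reachable a v with hS
  have h1 : 1 ≤ dd G S := hbr S ⟨a, by simp [hS]⟩ ⟨b, by simp [hS, hab]⟩
  obtain ⟨⟨u, v⟩, huv⟩ := card_pos.1 (show 0 < (cut G S).card from h1)
  rw [mem_cut] at huv
  obtain ⟨h2, h3, h4⟩ := huv
  simp only [hS, mem_filter, mem_univ, true_and] at h2 h3
  exact h3 (h2.trans h4.reachable)

/-- A walk from `X` to its complement crosses `X` at some edge. -/
theorem exists_cross (hG : G.Connected) (X : Finset V) {a b : V} (p : G.Walk a b) :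
    a ∈ X → b ∉ X → ∃ u v, u ∈ X ∧ v ∉ X ∧ G.Adj u v ∧ G.dist a u + 1 + G.dist v b ≤ p.length := by
  induction p with
  | nil => intro h1 h2; exact absurd h1 h2
  | @cons a c b h p ih =>
    intro h1 h2
    by_cases h3 : c ∈ X
    · obtain ⟨u, v, hu, hv, huv, hl⟩ := ih h3 h2
      refine ⟨u, v, hu, hv, huv, ?_⟩
      have h4 : G.dist a u ≤ G.dist a c + G.dist c u := hG.dist_triangle
      have h5 : G.dist a c = 1 := dist_eq_one_iff_adj.2 h
      rw [Walk.length_cons]
      omega
    · refine ⟨a, c, h1, h3, h, ?_⟩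
      have h4 : G.dist c b ≤ p.length := dist_le p
      rw [Walk.length_cons, dist_self]
      omega

/-- The same for the distance. -/
theorem exists_cross' (hG : G.Connected) (X : Finset V) {a b : V} (h : ¬ (a ∈ X ↔ b ∈ X)) :
    ∃ e : V × V, e ∈ cut G X ∧ (G.dist a e.1 + 1 + G.dist e.2 b ≤ G.dist a b ∨
      G.dist a e.2 + 1 + G.dist e.1 b ≤ G.dist a b) := by
  by_cases ha : a ∈ X
  · have hb : b ∉ X := fun hb => h ⟨fun _ => hb, fun _ => ha⟩
    obtain ⟨p, hp⟩ := hG.exists_walk_length_eq_dist a b
    obtain ⟨u, v, hu, hv, huv, hl⟩ := exists_cross hG X p ha hb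
    exact ⟨(u, v), (mem_cut G).2 ⟨hu, hv, huv⟩, Or.inl (by rw [← hp]; exact hl)⟩
  · have hb : b ∈ X := by
      by_contra hb
      exact h ⟨fun h => absurd h ha, fun h => absurd h hb⟩
    obtain ⟨p, hp⟩ := hG.exists_walk_length_eq_dist b a
    obtain ⟨u, v, hu, hv, huv, hl⟩ := exists_cross hG X p hb ha
    refine ⟨(u, v), (mem_cut G).2 ⟨hu, hv, huv⟩, Or.inr ?_⟩
    rw [G.dist_comm (u := a) (v := b), ← hp, G.dist_comm (u := a) (v := v),
      G.dist_comm (u := u) (v := b)]
    show G.dist v a + 1 + G.dist b u ≤ _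
    omega

/-- An even set of vertices is paired along edge-disjoint paths: at most `dd G X` pairs are split
by `X`. -/
theorem pair_even (hbr : ∀ S : Finset V, S.Nonempty → Sᶜ.Nonempty → 1 ≤ dd G S) (T : Finset V)
    (hT : Even T.card) :
    ∃ (m : ℕ) (p q : Fin m → V), Function.Injective p ∧ Function.Injective q ∧
      (∀ i j, p i ≠ q j) ∧ (∀ v, ((∃ j, p j = v) ∨ ∃ j, q j = v) ↔ v ∈ T) ∧
      ∀ (X : Finset V) (J : Finset (Fin m)), (∀ j ∈ J, ¬ (p j ∈ X ↔ q j ∈ X)) →
        J.card ≤ dd G X := by
  classical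
  rcases T.eq_empty_or_nonempty with h0 | ⟨t₀, ht₀⟩
  · subst h0
    refine ⟨0, Fin.elim0, Fin.elim0, fun i => i.elim0, fun i => i.elim0, fun i => i.elim0,
      fun v => ?_, fun X J _ => ?_⟩
    · simp
    · have : J = ∅ := by
        ext j
        exact j.elim0
      simp [this]
  have hne : Nonempty V := ⟨t₀⟩
  have hG : G.Connected := ⟨preconnected_of_cut hbr⟩
  obtain ⟨m, hm⟩ := hT
  have hc : Fintype.card (Fin m × Bool) = Fintype.card T := by
    simp only [Fintype.card_prod, Fintype.card_fin, Fintype.card_bool, Fintype.card_coe]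
    omega
  have hne' : Nonempty ((Fin m × Bool) ≃ T) := ⟨Fintype.equivOfCardEq hc⟩
  let cost : ((Fin m × Bool) ≃ T) → ℕ := fun e =>
    ∑ j, G.dist (e (j, false) : V) (e (j, true) : V)
  obtain ⟨e, -, he⟩ := Finset.exists_min_image (univ : Finset ((Fin m × Bool) ≃ T)) cost
    ⟨hne'.some, mem_univ _⟩
  -- exchange
  have hex : ∀ i j : Fin m, i ≠ j → ∀ b : Bool,
      G.dist (e (i, false) : V) (e (i, true) : V) + G.dist (e (j, false) : V) (e (j, true) : V) ≤
      G.dist (e (i, false) : V) (e (j, b) : V) + G.dist (e (i, true) : V) (e (j, !b) : V) := by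
    intro i j hij b
    let σ : (Fin m × Bool) ≃ (Fin m × Bool) := Equiv.swap (i, true) (j, b)
    have h1 := he (σ.trans e) (mem_univ _)
    have h2 : ∀ f : Fin m → ℕ, ∑ l, f l = f i + f j + ∑ l ∈ (univ.erase i).erase j, f l := by
      intro f
      rw [← Finset.add_sum_erase _ _ (mem_univ i),
        ← Finset.add_sum_erase (univ.erase i) _ (mem_erase.2 ⟨hij.symm, mem_univ j⟩), add_assoc]
    have h3 : ∀ l, l ≠ i → l ≠ j → ∀ c : Bool, σ (l, c) = (l, c) := by
      intro l hi hj c
      exact Equiv.swap_apply_of_ne_of_ne (fun h => hi (Prod.ext_iff.1 h).1)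
        (fun h => hj (Prod.ext_iff.1 h).1)
    have h4 : σ (i, true) = (j, b) := Equiv.swap_apply_left _ _
    have h5 : σ (j, b) = (i, true) := Equiv.swap_apply_right _ _
    have h6 : σ (i, false) = (i, false) := Equiv.swap_apply_of_ne_of_ne (by simp)
      (fun h => hij (Prod.ext_iff.1 h).1)
    have h7 : σ (j, !b) = (j, !b) := Equiv.swap_apply_of_ne_of_ne
      (fun h => hij (Prod.ext_iff.1 h).1.symm) (by simp)
    have h8 : cost (σ.trans e) = G.dist (e (i, false) : V) (e (j, b) : V) +
        G.dist (e (i, true) : V) (e (j, !b) : V) +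
        ∑ l ∈ (univ.erase i).erase j, G.dist (e (l, false) : V) (e (l, true) : V) := by
      show ∑ l, G.dist (e (σ (l, false)) : V) (e (σ (l, true)) : V) = _
      rw [h2]
      congr 1
      · congr 1
        · rw [h6, h4]
        · cases b
          · rw [h5]
            have : σ (j, true) = (j, true) := h7
            rw [this]
            rfl
          · have : σ (j, false) = (j, false) := h7
            rw [this, h5, G.dist_comm]
            rfl
      · refine sum_congr rfl fun l hl => ?_
        simp only [mem_erase, mem_univ, and_true] at hl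
        rw [h3 l hl.2 hl.1, h3 l hl.2 hl.1]
    have h9 : cost e = G.dist (e (i, false) : V) (e (i, true) : V) +
        G.dist (e (j, false) : V) (e (j, true) : V) +
        ∑ l ∈ (univ.erase i).erase j, G.dist (e (l, false) : V) (e (l, true) : V) := h2 _
    rw [h8, h9] at h1
    omega
  refine ⟨m, fun j => e (j, false), fun j => e (j, true), ?_, ?_, ?_, ?_, ?_⟩
  · intro i j h
    have := e.injective (Subtype.ext h)
    exact (Prod.ext_iff.1 this).1
  · intro i j h
    have := e.injective (Subtype.ext h)
    exact (Prod.ext_iff.1 this).1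
  · intro i j h
    have := e.injective (Subtype.ext h)
    simpa using (Prod.ext_iff.1 this).2
  · intro v
    constructor
    · rintro (⟨j, rfl⟩ | ⟨j, rfl⟩)
      · exact (e (j, false)).2
      · exact (e (j, true)).2
    · intro hv
      obtain ⟨⟨j, b⟩, hj⟩ := e.surjective ⟨v, hv⟩
      cases b
      · exact Or.inl ⟨j, congrArg Subtype.val hj⟩
      · exact Or.inr ⟨j, congrArg Subtype.val hj⟩
  · intro X J hJ
    have h1 : ∀ j : Fin m, ∃ f : V × V, j ∈ J → f ∈ cut G X ∧
        (G.dist (e (j, false) : V) f.1 + 1 + G.dist f.2 (e (j, true) : V) ≤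
          G.dist (e (j, false) : V) (e (j, true) : V) ∨
        G.dist (e (j, false) : V) f.2 + 1 + G.dist f.1 (e (j, true) : V) ≤
          G.dist (e (j, false) : V) (e (j, true) : V)) := by
      intro j
      by_cases hj : j ∈ J
      · obtain ⟨f, hf⟩ := exists_cross' hG X (hJ j hj)
        exact ⟨f, fun _ => hf⟩
      · exact ⟨(t₀, t₀), fun h => absurd h hj⟩
    choose f hf using h1
    refine card_le_card_of_injOn f (fun j hj => (hf j hj).1) ?_
    intro i hi j hj hij
    by_contra hne
    have hi' := (hf i hi).2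
    have hj' := (hf j hj).2
    rw [hij] at hi'
    have e1 := hex i j hne false
    have e2 := hex i j hne true
    simp only [Bool.not_false, Bool.not_true] at e1 e2
    set a : V := (e (i, false) : V)
    set b : V := (e (i, true) : V)
    set c : V := (e (j, false) : V)
    set d : V := (e (j, true) : V)
    set u := (f j).1
    set v := (f j).2
    have t1 : G.dist a c ≤ G.dist a u + G.dist u c := hG.dist_triangle
    have t2 : G.dist b d ≤ G.dist b v + G.dist v d := hG.dist_triangle
    have t3 : G.dist a c ≤ G.dist a v + G.dist v c := hG.dist_triangle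
    have t4 : G.dist b d ≤ G.dist b u + G.dist u d := hG.dist_triangle
    have t5 : G.dist a d ≤ G.dist a u + G.dist u d := hG.dist_triangle
    have t6 : G.dist b c ≤ G.dist b v + G.dist v c := hG.dist_triangle
    have t7 : G.dist a d ≤ G.dist a v + G.dist v d := hG.dist_triangle
    have t8 : G.dist b c ≤ G.dist b u + G.dist u c := hG.dist_triangle
    have s1 : G.dist u c = G.dist c u := G.dist_comm
    have s2 : G.dist b v = G.dist v b := G.dist_comm
    have s3 : G.dist v c = G.dist c v := G.dist_comm
    have s4 : G.dist b u = G.dist u b := G.dist_comm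
    rcases hi' with hi' | hi' <;> rcases hj' with hj' | hj' <;> omega

end Pool.Agent.K5
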