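import Mathlib
import Pool.Agent.Work.MP_974d84_co_k5.DefsW
import Pool.Agent.Work.MP_974d84_co_k5.PairT

/-!
# Route W, W5: pairing of the defects
-/

set_option linter.unusedSectionVars false

namespace Pool.Agent.K5

open Finset SimpleGraph Pool.Agent.Exp Pool.Agent.Log5 Pool.Agent.Log5.Clu

/-- W5: perfect matching of minimal total distance -/
theorem exists_pairing {V : Type} [Fintype V] [DecidableEq V] (G : SimpleGraph V)
    [DecidableRel G.Adj] (hbr : ∀ A : Finset V, A.Nonempty → Aᶜ.Nonempty → 1 ≤ dd G A)
    (T : Finset V) (hT : Even T.card) : ∃ (m : ℕ) (p q : Fin m → V), Function.Injective p ∧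
      Function.Injective q ∧ (∀ i j, p i ≠ q j) ∧ (∀ v, v ∈ T ↔ (∃ j, p j = v) ∨ ∃ j, q j = v) ∧
      ∀ (X : Finset V) (J : Finset (Fin m)), (∀ j ∈ J, ¬ (p j ∈ X ↔ q j ∈ X)) →
        J.card ≤ dd G X := by
  obtain ⟨m, p, q, h1, h2, h3, h4, h5⟩ := pair_even hbr T hT
  exact ⟨m, p, q, h1, h2, h3, fun v => (h4 v).symm, h5⟩

/-- A frame has degree three. -/
theorem Frame.degree {V : Type} [Fintype V] [DecidableEq V] {G : SimpleGraph V}
    [DecidableRel G.Adj] {μ : V → V} {π : Equiv.Perm V} (hf : Frame G μ π) (v : V) :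
    G.degree v = 3 := by
  have h1 : G.neighborFinset v = {μ v, π v, π.symm v} := by
    ext u
    rw [mem_neighborFinset, hf.adj v u]
    simp
  rw [← card_neighborFinset_eq_degree, h1, card_insert_of_notMem, card_insert_of_notMem,
    card_singleton]
  · simpa using hf.pi_ne v
  · simp only [mem_insert, mem_singleton, not_or]
    exact ⟨hf.mu_ne v, hf.mu_ne' v⟩

/-- W5b: the number of defects is even -/
theorem even_dfc {V : Type} [Fintype V] [DecidableEq V] {G : SimpleGraph V} [DecidableRel G.Adj]
    {μ : V → V} {π : Equiv.Perm V} (hf : Frame G μ π) {J q M : ℕ} {A : Finset V} {y : V → ℤ}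
    (hy : Pattern μ π J q M A y) : Even (Dfc π A y).card := by
  have h1 : ∀ v, y v * y (π v) = if π v ∈ Dfc π A y then 1 else -1 := by
    intro v
    by_cases hA : π v ∈ A
    · by_cases hv : y v = y (π v)
      · rw [if_pos (by simp [Dfc, hA, hv]), ← hv]
        rcases hy.sign v with h | h <;> rw [h] <;> norm_num
      · rw [if_neg (by simp [Dfc, hv])]
        rcases hy.sign v with h | h <;> rcases hy.sign (π v) with h' | h'
        · exact absurd (h.trans h'.symm) hv
        · rw [h, h']
          norm_num
        · rw [h, h']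
          norm_num
        · exact absurd (h.trans h'.symm) hv
    · rw [if_neg (by simp [Dfc, hA]), hy.alt v hA]
      rcases hy.sign v with h | h <;> rw [h] <;> norm_num
  have h2 : ∏ v, (y v * y (π v)) = 1 := by
    rw [prod_mul_distrib, Equiv.prod_comp π y]
    have h3 : ∀ s : Finset V, (∏ v ∈ s, y v) * ∏ v ∈ s, y v = 1 := by
      intro s
      rw [← prod_mul_distrib]
      refine prod_eq_one fun v _ => ?_
      rcases hy.sign v with h | h <;> rw [h] <;> norm_num
    exact h3 univ
  rw [prod_congr rfl fun v _ => h1 v, prod_ite, prod_const_one, one_mul, prod_const] at h2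
  have h3 : Even ((univ.filter fun v => ¬ π v ∈ Dfc π A y).card) := by
    rcases Nat.even_or_odd ((univ.filter fun v => ¬ π v ∈ Dfc π A y).card) with h | h
    · exact h
    · rw [h.neg_one_pow] at h2
      norm_num at h2
  have h4 : (univ.filter fun v => π v ∈ Dfc π A y).card = (Dfc π A y).card := by
    refine card_bij (fun v _ => π v) (fun v hv => (mem_filter.1 hv).2)
      (fun v _ v' _ h => π.injective h) (fun v hv => ⟨π.symm v, ?_, by simp⟩)
    rw [mem_filter]
    exact ⟨mem_univ _, by rw [Equiv.apply_symm_apply]; exact hv⟩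
  have h5 := card_filter_add_card_filter_not (s := (univ : Finset V))
    (fun v => π v ∈ Dfc π A y)
  have h6 : Even (Fintype.card V) := even_card G hf.degree
  rw [card_univ] at h5
  rw [← h4]
  have h7 : Even ((univ.filter fun v => π v ∈ Dfc π A y).card +
      (univ.filter fun v => ¬ π v ∈ Dfc π A y).card) := by rw [h5]; exact h6
  exact (Nat.even_add.1 h7).2 h3

end Pool.Agent.K5
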