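import Pool.Agent.Work.MP_974d84_co_k5.Gf

/-!
# Small sets with small cuts are forests when the girth is large
-/

set_option linter.unusedSectionVars false

namespace Pool.Agent.K5

open Finset SimpleGraph Pool.Agent.Exp Pool.Agent.Log5 Pool.Agent.Log5.Clu

/-- The isoperimetric function tends to infinity. -/
theorem gf_large {C : ℝ} (hC : 1 ≤ C) (D : ℕ) : ∃ a₀ : ℕ, ∀ a, a₀ ≤ a → (D : ℝ) ≤ gf C a := by
  refine ⟨⌈Real.exp D⌉₊ + D, fun a ha => ?_⟩
  have h1 : Real.exp D ≤ a := (Nat.le_ceil _).trans (by exact_mod_cast (by omega))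
  have h2 : (D : ℝ) ≤ a := by exact_mod_cast (by omega : D ≤ a)
  have h3 : (0 : ℝ) < a := lt_of_lt_of_le (Real.exp_pos _) h1
  have h4 : (D : ℝ) ≤ Real.log a := by
    rw [Real.le_log_iff_exp_le h3]
    exact h1
  have h5 : (0 : ℝ) ≤ D := Nat.cast_nonneg _
  refine le_min (by linarith) ?_
  nlinarith [mul_le_mul_of_nonneg_right hC (sq_nonneg (1 + Real.log a))]

/-- A set of bounded size which is not small is expensive; a small one is a forest. -/
theorem forest_of_gf {V : Type} [Fintype V] [DecidableEq V] (G : SimpleGraph V)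
    [DecidableRel G.Adj] (h3 : ∀ v, G.degree v = 3) {g a₀ : ℕ} (hg : Gir G g) (hag : a₀ ≤ g)
    {A : Finset V} (hA : A.Nonempty) (hc : A.card < a₀) : A.card + 2 ≤ dd G A :=
  dd_of_acyclic G h3 hA (hg A (by omega))

/-- Nonempty sets inside a core (not too large) with small cut. -/
theorem core_small {C : ℝ} (hC : 1 ≤ C) (D : ℕ) : ∃ g₀ : ℕ, ∀ g, g₀ ≤ g →
    ∀ {V : Type} [Fintype V] [DecidableEq V] (G : SimpleGraph V) [DecidableRel G.Adj],
    (∀ v, G.degree v = 3) → Gir G g → ∀ {r : ℕ} (S : Fin r → Finset V), Cores G C S →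
    ∀ (i : Fin r) (A : Finset V), A ⊂ S i → A.Nonempty → dd G A < D → A.card + 2 ≤ dd G A := by
  obtain ⟨a₀, ha₀⟩ := gf_large hC D
  refine ⟨a₀, fun g hg V _ _ G _ h3 hG r S hS i A hA hne hD => ?_⟩
  refine forest_of_gf G h3 hG hg hne ?_
  by_contra h
  have h1 := ha₀ A.card (not_lt.1 h)
  have h2 := hS.sub i A hA hne
  have h4 : (D : ℝ) ≤ dd G A := h1.trans h2
  have h5 : D ≤ dd G A := by exact_mod_cast h4
  omega

/-- Nonempty sets with `gf C |X| ≤ 4 dd X` and small cut. -/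
theorem light_small {C : ℝ} (hC : 1 ≤ C) (D : ℕ) : ∃ g₀ : ℕ, ∀ g, g₀ ≤ g →
    ∀ {V : Type} [Fintype V] [DecidableEq V] (G : SimpleGraph V) [DecidableRel G.Adj],
    (∀ v, G.degree v = 3) → Gir G g → ∀ X : Finset V, X.Nonempty →
    gf C X.card ≤ 4 * dd G X → dd G X < D → X.card + 2 ≤ dd G X := by
  obtain ⟨a₀, ha₀⟩ := gf_large hC (4 * D)
  refine ⟨a₀, fun g hg V _ _ G _ h3 hG X hne h2 hD => ?_⟩
  refine forest_of_gf G h3 hG hg hne ?_
  by_contra h
  have h1 := ha₀ X.card (not_lt.1 h)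
  have h4 : ((4 * D : ℕ) : ℝ) ≤ 4 * dd G X := h1.trans h2
  have h5 : 4 * D ≤ 4 * dd G X := by exact_mod_cast h4
  omega

end Pool.Agent.K5
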