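import Mathlib
import Pool.Agent.Work.MP_974d84_co_k5.Toggle
import Pool.Agent.Work.MP_974d84_co_k5.CoreNum
import Pool.Agent.Work.MP_974d84_co_k5.CoreFactsA

/-!
# THEOREM (G): the ratio of the cores tends to one
-/

set_option linter.unusedSectionVars false
set_option linter.unusedVariables false

namespace Pool.Agent.K5

open Finset SimpleGraph Pool.Agent.Exp Pool.Agent.Log5 Pool.Agent.Log5.Clu

/-- The increments of `gf` are small. -/
theorem gf_diff_g {C : ℝ} (hC : 100 ≤ C) {τ : ℝ} (hτ : 0 < τ) : ∃ k₁ : ℕ, 7 ≤ k₁ ∧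
    ∀ n a : ℕ, k₁ ≤ n → 1 ≤ a → 3 * a ≤ 2 * n → gf C n - gf C (n - a) ≤ τ * gf C a := by
  have hC0 : (0 : ℝ) < C := by linarith
  obtain ⟨x₀, hx₀, h₀⟩ := exists_large (16 / τ)
  obtain ⟨x₁, hx₁, h₁⟩ := exists_large (36 / τ ^ 2)
  obtain ⟨x₂, hx₂, h₂⟩ := exists_large (6 * C / τ)
  obtain ⟨x₃, hx₃, h₃⟩ := exists_large C
  refine ⟨⌈x₀⌉₊ + ⌈x₁⌉₊ + ⌈x₂⌉₊ + 3 * ⌈x₃⌉₊ + 7, by omega, fun n a hn ha han => ?_⟩
  have hnx₀ : x₀ ≤ n := (Nat.le_ceil x₀).trans (by exact_mod_cast (by omega : ⌈x₀⌉₊ ≤ n))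
  have hnx₁ : x₁ ≤ n := (Nat.le_ceil x₁).trans (by exact_mod_cast (by omega : ⌈x₁⌉₊ ≤ n))
  have hnx₂ : x₂ ≤ n := (Nat.le_ceil x₂).trans (by exact_mod_cast (by omega : ⌈x₂⌉₊ ≤ n))
  have hna : x₃ ≤ ((n - a : ℕ) : ℝ) :=
    (Nat.le_ceil x₃).trans (by exact_mod_cast (by omega : ⌈x₃⌉₊ ≤ n - a))
  have hn0 : (0 : ℝ) < n := by exact_mod_cast (by omega : 0 < n)
  have ha0 : (0 : ℝ) < a := by exact_mod_cast (by omega : 0 < a)
  set L : ℝ := 1 + Real.log n with hL
  set L' : ℝ := 1 + Real.log ((n - a : ℕ) : ℝ) with hL'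
  obtain ⟨-, a2⟩ := h₀ n hnx₀
  obtain ⟨a1, -⟩ := h₁ n hnx₁
  obtain ⟨b1, -⟩ := h₂ n hnx₂
  obtain ⟨c1, -⟩ := h₃ _ hna
  have hL16 : 16 / τ ≤ L := by rw [hL]; linarith
  have hL1 : 1 ≤ L := by
    have : 0 ≤ Real.log n := Real.log_nonneg (by exact_mod_cast (by omega : 1 ≤ n))
    rw [hL]; linarith
  have a1' : 36 * L ^ 2 ≤ τ ^ 2 * n := by
    rw [div_mul_eq_mul_div, div_le_iff₀ (by positivity)] at a1
    linarith
  have b1' : 6 * C * L ^ 2 ≤ τ * n := by
    rw [div_mul_eq_mul_div, div_le_iff₀ hτ] at b1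
    linarith
  have a2' : 16 ≤ τ * L := by
    rw [div_le_iff₀ hτ] at hL16
    linarith
  have hsub : ((n - a : ℕ) : ℝ) = n - a := by
    rw [Nat.cast_sub (by omega)]
  have hd0 : (0 : ℝ) < ((n - a : ℕ) : ℝ) := by linarith
  have h3 : (n : ℝ) ≤ 3 * ((n - a : ℕ) : ℝ) := by
    rw [hsub]
    have : (3 * a : ℝ) ≤ 2 * n := by exact_mod_cast han
    linarith
  -- the value at `n - a`
  have hg1 : gf C (n - a) = C * L' ^ 2 := by
    unfold gf
    rw [min_eq_right]
    linarith
  have hg2 : gf C n ≤ C * L ^ 2 := gf_le C n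
  have hLL : L - L' ≤ 3 * a / n := by
    have h4 : L - L' = Real.log (n / ((n - a : ℕ) : ℝ)) := by
      rw [Real.log_div hn0.ne' hd0.ne', hL, hL']
      ring
    rw [h4]
    have h5 := Real.log_le_sub_one_of_pos (show 0 < (n : ℝ) / ((n - a : ℕ) : ℝ) by positivity)
    refine h5.trans ?_
    rw [div_sub_one hd0.ne', div_le_div_iff₀ hd0 hn0]
    have h6 : (n : ℝ) - ((n - a : ℕ) : ℝ) = a := by rw [hsub]; ring
    rw [h6]
    calc (a : ℝ) * n ≤ a * (3 * ((n - a : ℕ) : ℝ)) := mul_le_mul_of_nonneg_left h3 ha0.le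
      _ = 3 * a * ((n - a : ℕ) : ℝ) := by ring
  have hL'L : L' ≤ L := by
    rw [hL, hL']
    have := Real.log_le_log hd0 (show ((n - a : ℕ) : ℝ) ≤ n by rw [hsub]; linarith)
    linarith
  have hL'1 : 1 ≤ L' := by
    rw [hL']
    have : 0 ≤ Real.log ((n - a : ℕ) : ℝ) := Real.log_nonneg (hx₃.trans hna)
    linarith
  have hΔ : gf C n - gf C (n - a) ≤ 6 * C * a * L / n := by
    rw [hg1]
    have h4 : L ^ 2 - L' ^ 2 ≤ (3 * a / n) * (2 * L) := by
      have h5 : L ^ 2 - L' ^ 2 = (L - L') * (L + L') := by ring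
      rw [h5]
      exact mul_le_mul hLL (by linarith) (by linarith) (by positivity)
    calc gf C n - C * L' ^ 2 ≤ C * L ^ 2 - C * L' ^ 2 := by linarith
      _ = C * (L ^ 2 - L' ^ 2) := by ring
      _ ≤ C * ((3 * a / n) * (2 * L)) := mul_le_mul_of_nonneg_left h4 hC0.le
      _ = 6 * C * a * L / n := by ring
  refine hΔ.trans ?_
  have hla : 0 ≤ Real.log a := Real.log_nonneg (by exact_mod_cast ha)
  unfold gf
  rw [mul_min_of_nonneg _ _ hτ.le, le_min_iff]
  constructor
  · rw [div_le_iff₀ hn0]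
    have h4 : 6 * C * L ≤ τ * n := by
      have h5 : L ≤ L ^ 2 := le_self_pow₀ (by linarith) (by norm_num)
      have h6 : 6 * C * L ≤ 6 * C * L ^ 2 := mul_le_mul_of_nonneg_left h5 (by positivity)
      linarith
    calc 6 * C * a * L = a * (6 * C * L) := by ring
      _ ≤ a * (τ * n) := mul_le_mul_of_nonneg_left h4 ha0.le
      _ ≤ (a + 2) * (τ * n) := mul_le_mul_of_nonneg_right (by linarith) (by positivity)
      _ = τ * (a + 2) * n := by ring
  · rw [div_le_iff₀ hn0]
    have h4 : 6 * a * L ≤ τ * n * (1 + Real.log a) ^ 2 := by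
      by_cases h5 : (a : ℝ) ^ 2 ≤ n
      · have h6 : 6 * a * L ≤ τ * n := by
          have h7 : (6 * a * L) ^ 2 ≤ (τ * n) ^ 2 := by
            calc (6 * a * L) ^ 2 = (a : ℝ) ^ 2 * (36 * L ^ 2) := by ring
              _ ≤ (n : ℝ) * (τ ^ 2 * n) := mul_le_mul h5 a1' (by positivity) hn0.le
              _ = (τ * n) ^ 2 := by ring
          exact (sq_le_sq₀ (by positivity) (by positivity)).1 h7
        have h8 : τ * n ≤ τ * n * (1 + Real.log a) ^ 2 := by
          have : 1 ≤ (1 + Real.log a) ^ 2 := one_le_pow₀ (by linarith)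
          exact le_mul_of_one_le_right (by positivity) this
        linarith
      · push Not at h5
        have h6 : Real.log n ≤ 2 * Real.log a := by
          have := Real.log_le_log hn0 h5.le
          rwa [Real.log_pow, Nat.cast_ofNat] at this
        have h7 : L / 2 ≤ 1 + Real.log a := by
          rw [hL]
          linarith
        have hL0 : 0 ≤ L := by linarith
        have h8 : L ^ 2 / 4 ≤ (1 + Real.log a) ^ 2 := by
          have := pow_le_pow_left₀ (by linarith : 0 ≤ L / 2) h7 2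
          calc L ^ 2 / 4 = (L / 2) ^ 2 := by ring
            _ ≤ _ := this
        have h9 : (3 * a : ℝ) ≤ 2 * n := by exact_mod_cast han
        have h10 : 6 * a * L ≤ 4 * n * L :=
          mul_le_mul_of_nonneg_right (by linarith) hL0
        have h11 : 4 * n * L ≤ τ * n * (L ^ 2 / 4) := by
          have h13 : 4 * L ≤ τ * L ^ 2 / 4 := by
            have := mul_le_mul_of_nonneg_right a2' hL0
            linarith [show τ * L * L = τ * L ^ 2 by ring]
          calc 4 * n * L = n * (4 * L) := by ring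
            _ ≤ n * (τ * L ^ 2 / 4) := mul_le_mul_of_nonneg_left h13 hn0.le
            _ = _ := by ring
        have h12 : τ * n * (L ^ 2 / 4) ≤ τ * n * (1 + Real.log a) ^ 2 :=
          mul_le_mul_of_nonneg_left h8 (by positivity)
        linarith
    calc 6 * C * a * L = C * (6 * a * L) := by ring
      _ ≤ C * (τ * n * (1 + Real.log a) ^ 2) := mul_le_mul_of_nonneg_left h4 hC0.le
      _ = τ * (C * (1 + Real.log a) ^ 2) * n := by ring

/-- In a large core the edges from a part to the outside are at most `1 + d` times the edges from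
the part to the rest of the core. -/
theorem ratio_g {C : ℝ} (hC : 100 ≤ C) {d : ℝ} (hd : 0 < d) : ∃ g₀ : ℕ, ∀ {V : Type} [Fintype V]
    [DecidableEq V] (G : SimpleGraph V) [DecidableRel G.Adj] {r : ℕ} (S : Fin r → Finset V),
    Cores G C S → (∀ i, g₀ ≤ (S i).card) → ∀ i, ∀ A ⊆ S i, 3 * A.card ≤ 2 * (S i).card →
      (ee G A (S i)ᶜ : ℝ) ≤ (1 + d) * ee G A (S i \ A) := by
  obtain ⟨k₁, -, hk₁⟩ := gf_diff_g hC (τ := d / (2 + d)) (by positivity)
  refine ⟨k₁, fun {V} _ _ G _ {r} S hS hl i A hA hA3 => ?_⟩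
  rcases A.eq_empty_or_nonempty with rfl | hA0
  · have h1 : ∀ B : Finset V, ee G ∅ B = 0 := by
      intro B
      rw [ee_sum, sum_empty]
    rw [h1, h1]
    simp
  have hc1 := hA0.card_pos
  have hcard : (S i \ A).card = (S i).card - A.card := card_sdiff_of_subset hA
  have hne : A ≠ S i := fun h => by rw [h] at hA3 hc1; omega
  have hU0 : (S i \ A).Nonempty := by
    rw [← card_pos, hcard]
    omega
  have h1 : gf C (S i \ A).card ≤ dd G (S i \ A) := by
    refine hS.sub i _ ⟨sdiff_subset, fun h => ?_⟩ hU0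
    obtain ⟨v, hv⟩ := hA0
    exact (mem_sdiff.1 (h (hA hv))).2 hv
  have h2 : gf C A.card ≤ dd G A :=
    hS.sub i _ (ssubset_of_subset_of_ne hA hne) hA0
  have h3 := hS.viol i
  have h4 := hk₁ (S i).card A.card (hl i) hc1 hA3
  rw [hcard] at h1
  have h5 : (dd G (S i) : ℝ) + ee G A (S i \ A) = dd G (S i \ A) + ee G A (S i)ᶜ := by
    exact_mod_cast dd_parts hA
  have h6 : (dd G A : ℝ) = ee G A (S i \ A) + ee G A (S i)ᶜ := by
    exact_mod_cast dd_inner hA
  have h7 : (ee G A (S i)ᶜ : ℝ) - ee G A (S i \ A) ≤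
      d / (2 + d) * (ee G A (S i \ A) + ee G A (S i)ᶜ) := by
    rw [← h6]
    have h8 : d / (2 + d) * gf C A.card ≤ d / (2 + d) * dd G A :=
      mul_le_mul_of_nonneg_left h2 (by positivity)
    linarith
  have h9 : (2 + d) * ((ee G A (S i)ᶜ : ℝ) - ee G A (S i \ A)) ≤
      d * (ee G A (S i \ A) + ee G A (S i)ᶜ) := by
    have h10 := mul_le_mul_of_nonneg_left h7 (by positivity : (0 : ℝ) ≤ 2 + d)
    rwa [← mul_assoc, mul_div_cancel₀ _ (by positivity : (2 + d : ℝ) ≠ 0)] at h10
  linarith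

open Tog

/-- Every set is close to a set which splits no core. -/
theorem toggle_g {V : Type} [Fintype V] [DecidableEq V] (G : SimpleGraph V) [DecidableRel G.Adj]
    {C : ℝ} {r : ℕ} {S : Fin r → Finset V} (hS : Cores G C S) {ρ : ℝ} (hρ : 1 ≤ ρ)
    (hratio : ∀ i, ∀ A ⊆ S i, 3 * A.card ≤ 2 * (S i).card →
      (ee G A (S i)ᶜ : ℝ) ≤ ρ * ee G A (S i \ A))
    (X : Finset V) : ∃ (X' : Finset V) (A : Fin r → Finset V),
      (∀ i, A i ⊆ S i ∧ 2 * (A i).card ≤ (S i).card) ∧ Sat S X' ∧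
      (dd G X' : ℝ) ≤ ρ * dd G X ∧ ∑ i, (dd G (A i) : ℝ) ≤ (1 + ρ) * dd G X ∧
      ∀ σ : V → ℝ, |∑ v ∈ X, σ v| ≤ |∑ v ∈ X', σ v| + ∑ i, |∑ v ∈ A i, σ v| := by
  classical
  -- the cores which are emptied
  let c : Fin r → Prop := fun i => 2 * (X ∩ S i).card ≤ (S i).card
  let A : Fin r → Finset V := fun i => if c i then X ∩ S i else S i \ X
  let X' : Finset V := univ.filter fun v => (v ∈ X ∧ ∀ i, v ∉ S i) ∨ ∃ i, v ∈ S i ∧ ¬ c i
  have huniq : ∀ {v : V} {i j : Fin r}, v ∈ S i → v ∈ S j → i = j := by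
    intro v i j h1 h2
    by_contra hne
    exact Finset.disjoint_left.1 (hS.disj i j hne) h1 h2
  have hX'S : ∀ {v : V} {i : Fin r}, v ∈ S i → (v ∈ X' ↔ ¬ c i) := by
    intro v i hv
    simp only [X', mem_filter, mem_univ, true_and]
    constructor
    · rintro (⟨-, h⟩ | ⟨j, hj, hc⟩)
      · exact absurd hv (h i)
      · rwa [huniq hv hj]
    · intro h
      exact Or.inr ⟨i, hv, h⟩
  have hX'O : ∀ {v : V}, (∀ i, v ∉ S i) → (v ∈ X' ↔ v ∈ X) := by
    intro v hv
    simp only [X', mem_filter, mem_univ, true_and]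
    constructor
    · rintro (⟨h, -⟩ | ⟨j, hj, -⟩)
      · exact h
      · exact absurd hj (hv j)
    · intro h
      exact Or.inl ⟨h, hv⟩
  have hAS : ∀ i, A i ⊆ S i := by
    intro i
    simp only [A]
    split_ifs
    · exact inter_subset_right
    · exact sdiff_subset
  have hA2 : ∀ i, 2 * (A i).card ≤ (S i).card := by
    intro i
    simp only [A]
    split_ifs with h
    · exact h
    · have h1 : (S i \ X).card + (X ∩ S i).card = (S i).card := by
        rw [inter_comm]
        exact card_sdiff_add_card_inter (S i) X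
      simp only [c, not_le] at h
      omega
  -- the two kinds of cut edges
  set I : Finset (V × V) := (Pool.Agent.Work.MP_314beb_co.cut G X).filter
    (fun p => ∃ i, p.1 ∈ S i ∧ p.2 ∈ S i) with hI
  set O : Finset (V × V) := (Pool.Agent.Work.MP_314beb_co.cut G X).filter
    (fun p => ¬ ∃ i, p.1 ∈ S i ∧ p.2 ∈ S i) with hO
  have hIO : I.card + O.card = dd G X := by
    rw [hI, hO]
    exact card_filter_add_card_filter_not _
  have hinn : ∀ i, ee G (A i) (S i \ A i)
      = ((Pool.Agent.Work.MP_314beb_co.cut G X).filter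
        (fun p => p.1 ∈ S i ∧ p.2 ∈ S i)).card := by
    intro i
    by_cases h : c i
    · have hA : A i = X ∩ S i := if_pos h
      unfold ee
      congr 1
      ext p
      simp only [mem_filter, mem_cut, mem_univ, true_and, hA, mem_inter, mem_sdiff, not_and]
      tauto
    · have hA : A i = S i \ X := if_neg h
      rw [← ee_swap]
      congr 1
      ext p
      simp only [mem_filter, mem_cut, mem_univ, true_and, hA, mem_sdiff, not_and, not_not]
      tauto
  have hIs : ∑ i, ee G (A i) (S i \ A i) = I.card := by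
    rw [sum_congr rfl fun i _ => hinn i, ← card_biUnion]
    · congr 1
      ext p
      simp only [hI, mem_biUnion, mem_filter, mem_univ, true_and]
      constructor
      · rintro ⟨i, h1, h2⟩
        exact ⟨h1, i, h2⟩
      · rintro ⟨h1, i, h2⟩
        exact ⟨i, h1, h2⟩
    · intro i _ j _ hij
      refine Finset.disjoint_left.2 ?_
      intro p h1 h2
      simp only [mem_filter] at h1 h2
      exact hij (huniq h1.2.1 h2.2.1)
  have hrat : ∀ i, (ee G (A i) (S i)ᶜ : ℝ) ≤ ρ * ee G (A i) (S i \ A i) := fun i =>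
    hratio i (A i) (hAS i) (by have := hA2 i; omega)
  have hrats : ∑ i, (ee G (A i) (S i)ᶜ : ℝ) ≤ ρ * I.card := by
    rw [← hIs]
    push_cast
    rw [mul_sum]
    exact sum_le_sum fun i _ => hrat i
  have hcut : dd G X' ≤ O.card + ∑ i, ee G (A i) (S i)ᶜ := by
    let B : Fin r → Finset (V × V) := fun i => if c i then
      univ.filter fun p : V × V => p.2 ∈ A i ∧ p.1 ∈ (S i)ᶜ ∧ G.Adj p.1 p.2 else
      univ.filter fun p : V × V => p.1 ∈ A i ∧ p.2 ∈ (S i)ᶜ ∧ G.Adj p.1 p.2
    have hB : ∀ i, (B i).card = ee G (A i) (S i)ᶜ := by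
      intro i
      simp only [B]
      split_ifs
      · exact ee_swap G _ _
      · rfl
    have hsub : Pool.Agent.Work.MP_314beb_co.cut G X' ⊆ O ∪ univ.biUnion B := by
      intro p hp
      rw [mem_cut] at hp
      obtain ⟨h1, h2, h3⟩ := hp
      have hns : ¬ ∃ i, p.1 ∈ S i ∧ p.2 ∈ S i := by
        rintro ⟨i, h4, h5⟩
        exact h2 ((hX'S h5).2 ((hX'S h4).1 h1))
      by_cases hu : p.1 ∈ X
      · by_cases hv : p.2 ∈ X
        · -- the second end has been removed
          have : ∃ j, p.2 ∈ S j := by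
            by_contra hno
            push Not at hno
            exact h2 ((hX'O hno).2 hv)
          obtain ⟨j, hj⟩ := this
          have hc : c j := by
            by_contra hc
            exact h2 ((hX'S hj).2 hc)
          refine mem_union_right _ (mem_biUnion.2 ⟨j, mem_univ _, ?_⟩)
          have hA : A j = X ∩ S j := if_pos hc
          simp only [B, if_pos hc, mem_filter, mem_univ, true_and, hA, mem_inter, mem_compl]
          exact ⟨⟨hv, hj⟩, fun h => hns ⟨j, h, hj⟩, h3⟩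
        · refine mem_union_left _ ?_
          rw [hO, mem_filter, mem_cut]
          exact ⟨⟨hu, hv, h3⟩, hns⟩
      · have : ∃ j, p.1 ∈ S j := by
          by_contra hno
          push Not at hno
          exact hu ((hX'O hno).1 h1)
        obtain ⟨j, hj⟩ := this
        have hc : ¬ c j := (hX'S hj).1 h1
        refine mem_union_right _ (mem_biUnion.2 ⟨j, mem_univ _, ?_⟩)
        have hA : A j = S j \ X := if_neg hc
        simp only [B, if_neg hc, mem_filter, mem_univ, true_and, hA, mem_sdiff, mem_compl]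
        exact ⟨⟨hj, hu⟩, fun h => hns ⟨j, hj, h⟩, h3⟩
    unfold dd
    refine (card_le_card hsub).trans ((card_union_le _ _).trans ?_)
    refine Nat.add_le_add_left (card_biUnion_le.trans ?_) _
    exact le_of_eq (sum_congr rfl fun i _ => hB i)
  refine ⟨X', A, fun i => ⟨hAS i, hA2 i⟩, ?_, ?_, ?_, ?_⟩
  · intro i
    by_cases h : c i
    · right
      rw [Finset.disjoint_left]
      intro v hv hv'
      exact (hX'S hv).1 hv' h
    · left
      intro v hv
      exact (hX'S hv).2 h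
  · have h1 : (dd G X' : ℝ) ≤ O.card + ∑ i, (ee G (A i) (S i)ᶜ : ℝ) := by exact_mod_cast hcut
    have h2 : (I.card : ℝ) + O.card = dd G X := by exact_mod_cast hIO
    have h3 : (0 : ℝ) ≤ O.card := Nat.cast_nonneg _
    rw [← h2]
    nlinarith
  · have h1 : ∑ i, (dd G (A i) : ℝ) = ∑ i, (ee G (A i) (S i)ᶜ : ℝ) + I.card := by
      rw [← hIs]
      push_cast
      rw [← sum_add_distrib]
      refine sum_congr rfl fun i _ => ?_
      have := dd_eq_ee G (hAS i)
      exact_mod_cast this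
    have h2 : (I.card : ℝ) + O.card = dd G X := by exact_mod_cast hIO
    have h3 : (0 : ℝ) ≤ O.card := Nat.cast_nonneg _
    rw [h1, ← h2]
    nlinarith
  · intro σ
    have key : ∑ v ∈ X, σ v = ∑ v ∈ X', σ v
        + ∑ i, (if c i then (1 : ℝ) else -1) * ∑ v ∈ A i, σ v := by
      have h1 : ∀ Y : Finset V, ∑ v ∈ Y, σ v = ∑ v, σ v * (if v ∈ Y then 1 else 0) := by
        intro Y
        have e : Y = univ.filter fun v => v ∈ Y := by ext v; simp
        conv_lhs => rw [e, sum_filter]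
        exact sum_congr rfl fun v _ => by split_ifs <;> simp
      have h2 : ∀ v, (if v ∈ X then (1 : ℝ) else 0) = (if v ∈ X' then 1 else 0)
          + ∑ i, (if c i then (1 : ℝ) else -1) * (if v ∈ A i then 1 else 0) := by
        intro v
        by_cases hv : ∃ i, v ∈ S i
        · obtain ⟨i, hi⟩ := hv
          rw [sum_eq_single i]
          · by_cases hc : c i
            · have hA : A i = X ∩ S i := if_pos hc
              have : ¬ v ∈ X' := fun h => (hX'S hi).1 h hc
              rw [if_pos hc, if_neg this, hA]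
              by_cases hx : v ∈ X <;> simp [hx, hi]
            · have hA : A i = S i \ X := if_neg hc
              have : v ∈ X' := (hX'S hi).2 hc
              rw [if_neg hc, if_pos this, hA]
              by_cases hx : v ∈ X <;> simp [hx, hi]
          · intro j _ hj
            have : v ∉ A j := fun h => hj (huniq (hAS j h) hi)
            rw [if_neg this, mul_zero]
          · intro h; exact absurd (mem_univ _) h
        · push Not at hv
          rw [sum_eq_zero]
          · rw [add_zero]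
            exact if_congr (hX'O hv).symm rfl rfl
          · intro j _
            have : v ∉ A j := fun h => hv j (hAS j h)
            rw [if_neg this, mul_zero]
      rw [h1 X, h1 X', sum_congr rfl fun v _ => by rw [h2 v, mul_add, mul_sum], sum_add_distrib,
        sum_comm]
      congr 1
      refine sum_congr rfl fun i _ => ?_
      rw [h1 (A i), mul_sum]
      exact sum_congr rfl fun v _ => by ring
    rw [key]
    refine (abs_add_le _ _).trans (add_le_add le_rfl ((abs_sum_le_sum_abs _ _).trans ?_))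
    refine sum_le_sum fun i _ => ?_
    rw [abs_mul]
    have : |(if c i then (1 : ℝ) else -1)| = 1 := by split_ifs <;> simp
    rw [this, one_mul]

/-- The final estimate of the smeared charge, by toggling. -/
theorem combine_g {V : Type} [Fintype V] [DecidableEq V] {G : SimpleGraph V} [DecidableRel G.Adj]
    {C : ℝ} {r : ℕ} {S : Fin r → Finset V} (hS : Cores G C S) {ρ : ℝ} (hρ : 1 ≤ ρ)
    (hratio : ∀ i, ∀ A ⊆ S i, 3 * A.card ≤ 2 * (S i).card →
      (ee G A (S i)ᶜ : ℝ) ≤ ρ * ee G A (S i \ A)) {σ q : V → ℝ} {b₁ k₁ e₂ e : ℝ}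
    (h2 : ∀ R, Region S R → ∀ X ⊆ R, |∑ v ∈ X, σ v| ≤ b₁ * dd G X)
    (h3 : ∀ X, Sat S X → |∑ v ∈ X, σ v + ∑ v ∈ X, q v| ≤ k₁ * dd G X)
    (h4 : ∀ i, ∀ A ⊆ S i, 2 * A.card ≤ (S i).card → |∑ v ∈ A, q v| ≤ e₂ * dd G A)
    (he₁ : 0 ≤ k₁) (he₂ : 0 ≤ b₁ + e₂)
    (hnum : ρ * k₁ + (1 + ρ) * (b₁ + e₂) ≤ e) (X : Finset V) :
    |∑ v ∈ X, (σ v + q v)| ≤ e * dd G X := by
  obtain ⟨X', A, hA, hX', hd1, hd2, hle⟩ := toggle_g G hS hρ hratio X
  have hX1 : |∑ v ∈ X', (σ v + q v)| ≤ k₁ * dd G X' := by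
    rw [sum_add_distrib]
    exact h3 X' hX'
  have hAi : ∀ i, |∑ v ∈ A i, (σ v + q v)| ≤ (b₁ + e₂) * dd G (A i) := by
    intro i
    rw [sum_add_distrib]
    have b := h2 (S i) (Or.inl ⟨i, rfl⟩) (A i) (hA i).1
    have c := h4 i (A i) (hA i).1 (hA i).2
    rw [abs_le] at b c ⊢
    constructor <;> linarith
  have hsum : ∑ i, |∑ v ∈ A i, (σ v + q v)| ≤ (b₁ + e₂) * ∑ i, (dd G (A i) : ℝ) := by
    rw [mul_sum]
    exact sum_le_sum fun i _ => hAi i
  have h5 := hle fun v => σ v + q v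
  have h6 : k₁ * dd G X' ≤ k₁ * (ρ * dd G X) := mul_le_mul_of_nonneg_left hd1 he₁
  have h7 : (b₁ + e₂) * ∑ i, (dd G (A i) : ℝ) ≤ (b₁ + e₂) * ((1 + ρ) * dd G X) :=
    mul_le_mul_of_nonneg_left hd2 he₂
  have h8 : (0 : ℝ) ≤ dd G X := Nat.cast_nonneg _
  have h9 := mul_le_mul_of_nonneg_right hnum h8
  have h10 : (ρ * k₁ + (1 + ρ) * (b₁ + e₂)) * (dd G X : ℝ) =
      k₁ * (ρ * dd G X) + (b₁ + e₂) * ((1 + ρ) * dd G X) := by ring
  linarith

end Pool.Agent.K5
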