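import Mathlib
import Pool.Agent.Work.MP_974d84_co_k5.DefsG
import Pool.Agent.Work.MP_974d84_co_k5.RatioG

/-!
# THEOREM (G), G8: toggle and combine with the ratio `1 + δ`
-/

set_option linter.unusedSectionVars false
set_option linter.unusedVariables false

namespace Pool.Agent.K5

open Finset SimpleGraph Pool.Agent.Exp Pool.Agent.Log5 Pool.Agent.Log5.Clu

/-- G8, file ToggleG.lean (toggle and combine with the ratio `1 + δ`). -/
theorem combineG {V : Type} [Fintype V] [DecidableEq V] {G : SimpleGraph V} [DecidableRel G.Adj]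
    {C : ℝ} {N k κ r : ℕ} {δ : ℝ} (hδ : 0 ≤ δ) {S : Fin r → Finset V} (hS : Cores G C S)
    (hF : FactsG G C N k κ δ S) {σ q : V → ℝ} {b₁ k₁ e₂ e : ℝ}
    (h2 : ∀ R, Region S R → ∀ X ⊆ R, |∑ v ∈ X, σ v| ≤ b₁ * dd G X)
    (h3 : ∀ X, Sat S X → |∑ v ∈ X, σ v + ∑ v ∈ X, q v| ≤ k₁ * dd G X)
    (h4 : ∀ i, ∀ A ⊆ S i, 2 * A.card ≤ (S i).card → |∑ v ∈ A, q v| ≤ e₂ * dd G A)
    (he₁ : 0 ≤ k₁) (he₂ : 0 ≤ b₁ + e₂)
    (hnum : (1 + δ) * k₁ + (2 + δ) * (b₁ + e₂) ≤ e) (X : Finset V) :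
    |∑ v ∈ X, (σ v + q v)| ≤ e * dd G X :=
  combine_g hS (ρ := 1 + δ) (by linarith) hF.ratio h2 h3 h4 he₁ he₂ (by linarith) X

end Pool.Agent.K5
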