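import Mathlib
import Pool.Agent.Work.MP_974d84_co_k5.MainWB
import Pool.Agent.Work.MP_974d84_co_k5.Words
import Pool.Agent.Work.MP_974d84_co_k5.PairingW
import Pool.Agent.Work.MP_974d84_co_k5.FinalW
import Pool.Agent.Work.MP_974d84_co_k5.DefsG
import Pool.Agent.Work.MP_974d84_co_k5.QBoundG
import Pool.Agent.Work.MP_974d84_co_k5.CoreFlowP
import Pool.Agent.Work.MP_974d84_co_k5.ToggleG

/-!
# The extension theorem, E8: the assembly for one graph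
-/

set_option linter.unusedSectionVars false
set_option linter.unusedVariables false

namespace Pool.Agent.K5

open Finset SimpleGraph Pool.Agent.Exp Pool.Agent.Log5 Pool.Agent.Log5.Clu

variable {V : Type} [Fintype V] [DecidableEq V] {G : SimpleGraph V} [DecidableRel G.Adj]

theorem assembleEG {j₀ R q B M R' N k κ : ℕ} {C b η θ e δ : ℝ}
    (h3 : ∀ v, G.degree v = 3) (hg : Gir G k) (hκ : 0 < κ) (hδ : 0 < δ)
    {μ : V → V} {π : Equiv.Perm V} (hf : Frame G μ π)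
    {A : Finset V} (hA : Win G π R q B A) {D : Finset V} (hD : D ⊆ A)
    (hkM : M + 2 ≤ k) (hR' : M + 2 * q + R ≤ R')
    {r : ℕ} {S : Fin r → Finset V} (hS : Cores G C S) (hFa : FactsG G C N k κ δ S)
    {w : V → ℤ → V → ℝ} (hw0 : ∀ a s v, 0 ≤ w a s v)
    (hw1 : ∀ a s v, w a s v ≤ 1 / 2 ^ (j₀ + 1))
    (hw2 : ∀ a ∈ D, ∀ s, (s = 1 ∨ s = -1) → (∀ v, w a s v ≠ 0 → v ∈ zone G π R q a) ∧
      ∑ v, w a s v = 1)
    {Rm : Finset V} {ηm : V → ℤ} (hRm : Rm ⊆ D) (hηm : ∀ v, ηm v = 1 ∨ ηm v = -1)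
    (hev : Even (D \ Rm).card) {ν : V → ℝ} (hν0 : ∑ v, ν v + ∑ a ∈ Rm, (ηm a : ℝ) = 0)
    (hν : ∀ R, Region S R → ∀ X ⊆ R,
      |∑ v ∈ X, ν v + ∑ a ∈ Rm, (ηm a : ℝ) * ∑ v ∈ X, w a (ηm a) v| ≤ b * dd G X)
    (hcen : ∃ (M' : Fin r → ℕ) (β : (i : Fin r) → Fin (M' i) → V),
      (∀ i, η * gf C (S i).card ≤ M' i) ∧ (∀ i g, Bl G.Adj R' (β i g) ⊆ S i) ∧
      (∀ i g g', g ≠ g' → Disjoint (Bl G.Adj R' (β i g)) (Bl G.Adj R' (β i g'))) ∧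
      (∀ i Z, Z ⊆ S i → Joined G Z → 2 * Z.card ≤ (S i).card → k ≤ dd G Z →
        ((univ.filter fun g => ¬ Disjoint (Bl G.Adj R' (β i g)) Z).card : ℝ) ≤ θ * dd G Z) ∧
      ∀ i g, ∃ m n, m < n ∧ n < M ∧ (π ^ m) (β i g) ∈ D \ Rm ∧ (π ^ n) (β i g) ∈ D \ Rm)
    (hsigns : ∀ T ⊆ D \ Rm, Even T.card →
      ∃ ε : V → ℤ, (∀ v, ε v = 1 ∨ ε v = -1) ∧ ∑ a ∈ T, ε a = 0 ∧
        ∀ R, Region S R → ∀ X ⊆ R,
          |∑ a ∈ T, (ε a : ℝ) * ∑ v ∈ X, w a (ε a) v| ≤ b * dd G X)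
    (hb0 : 0 ≤ b) (hθ : 0 ≤ θ) (hη : 0 ≤ η)
    (hn1 : 8 * b + 5 / k ≤ 4 * η)
    (hn2 : (1 + δ) * (4 * b + (4 / κ + δ)) + (2 + δ) * (4 * b + (1 / 2 ^ j₀ + 4 * θ)) ≤ e) :
    ∃ ε : V → ℤ, (∀ v, ε v = 1 ∨ ε v = -1) ∧ ∀ X : Finset V,
      |∑ a ∈ D, (ε a : ℝ) * ∑ v ∈ X, w a (ε a) v + ∑ v ∈ X, ν v| ≤ e / 2 * dd G X := by
  classical
  have hk0 : 0 < k := by omega
  have hkr : (0 : ℝ) < k := by exact_mod_cast hk0
  obtain ⟨MM, β, hM, hβS, hβd, hβZ, hβn⟩ := hcen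
  have hβdd : ∀ g g' : (i : Fin r) × Fin (MM i), g ≠ g' →
      Disjoint (Bl G.Adj R' (β g.1 g.2)) (Bl G.Adj R' (β g'.1 g'.2)) := by
    rintro ⟨i, g⟩ ⟨i', g'⟩ hgg
    by_cases h : i = i'
    · subst h
      exact hβd i g g' fun h => hgg (by rw [h])
    · exact (hS.disj i i' h).mono (hβS i g) (hβS i' g')
  -- the two reserved defects of a gadget
  have hnear : ∀ g : (i : Fin r) × Fin (MM i), ∃ m n, m < n ∧ n < M ∧
      (π ^ m) (β g.1 g.2) ∈ D \ Rm ∧ (π ^ n) (β g.1 g.2) ∈ D \ Rm := fun g =>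
    hβn g.1 g.2
  choose mm nn hmn hnM hD1 hD2 using hnear
  set a₁ : ((i : Fin r) × Fin (MM i)) → V := fun g => (π ^ mm g) (β g.1 g.2) with ha₁
  set a₂ : ((i : Fin r) × Fin (MM i)) → V := fun g => (π ^ nn g) (β g.1 g.2) with ha₂
  have hz1 : ∀ g, zone G π R q (a₁ g) ⊆ Bl G.Adj R' (β g.1 g.2) := fun g =>
    zone_sub hf (by have := hmn g; have := hnM g; omega)
  have hz2 : ∀ g, zone G π R q (a₂ g) ⊆ Bl G.Adj R' (β g.1 g.2) := fun g =>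
    zone_sub hf (by have := hnM g; omega)
  have hs1 : ∀ g, a₁ g ∈ Bl G.Adj R' (β g.1 g.2) := fun g =>
    hz1 g (ball_sub_zone (Nat.zero_le _) _ (Bl_self 0 _))
  have hs2 : ∀ g, a₂ g ∈ Bl G.Adj R' (β g.1 g.2) := fun g =>
    hz2 g (ball_sub_zone (Nat.zero_le _) _ (Bl_self 0 _))
  have hone : ∀ (g g' : (i : Fin r) × Fin (MM i)) v, v ∈ Bl G.Adj R' (β g.1 g.2) → v ∈ Bl G.Adj R' (β g'.1 g'.2) → g = g' := by
    intro g g' v h1 h2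
    by_contra h
    exact Finset.disjoint_left.1 (hβdd g g' h) h1 h2
  have hinj1 : Function.Injective a₁ := fun g g' h =>
    hone g g' _ (hs1 g) (by rw [h]; exact hs1 g')
  have hinj2 : Function.Injective a₂ := fun g g' h =>
    hone g g' _ (hs2 g) (by rw [h]; exact hs2 g')
  have h12 : ∀ g g', a₁ g ≠ a₂ g' := by
    intro g g' h
    have hgg : g = g' := hone g g' _ (hs1 g) (by rw [h]; exact hs2 g')
    subst hgg
    have h1 : (π ^ (nn g - mm g)) ((π ^ mm g) (β g.1 g.2)) = (π ^ mm g) (β g.1 g.2) := by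
      rw [← Equiv.Perm.mul_apply, ← pow_add]
      have : nn g - mm g + mm g = nn g := by have := hmn g; omega
      rw [this]
      exact h.symm
    exact pow_ne hf hg (n := nn g - mm g) (by have := hmn g; omega)
      (by have := hnM g; omega) _ h1
  set T₂ : Finset V := univ.image a₁ ∪ univ.image a₂ with hT₂
  set T : Finset V := (D \ Rm) \ T₂ with hT
  have hT2D : T₂ ⊆ D \ Rm := by
    intro v hv
    rw [hT₂, mem_union, mem_image, mem_image] at hv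
    rcases hv with ⟨g, -, rfl⟩ | ⟨g, -, rfl⟩
    · exact hD1 g
    · exact hD2 g
  have hT2disj : Disjoint (univ.image a₁) (univ.image a₂) := by
    rw [Finset.disjoint_left]
    intro v h1 h2
    obtain ⟨g, -, rfl⟩ := mem_image.1 h1
    obtain ⟨g', -, hg'⟩ := mem_image.1 h2
    exact h12 g g' hg'.symm
  have hTeven : Even T.card := by
    have h1 : T.card = (D \ Rm).card - T₂.card := by rw [hT, card_sdiff_of_subset hT2D]
    have h2 : T₂.card = 2 * Fintype.card ((i : Fin r) × Fin (MM i)) := by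
      rw [hT₂, card_union_of_disjoint hT2disj, card_image_of_injective _ hinj1,
        card_image_of_injective _ hinj2, card_univ]
      ring
    have h3' := hev
    have h4 := card_le_card hT2D
    rw [h1]
    rw [Nat.even_sub h4]
    constructor
    · intro _
      rw [h2]
      exact even_two_mul _
    · intro _
      exact h3'
  have hTD' : T ⊆ D \ Rm := sdiff_subset
  have hTD : T ⊆ D := hTD'.trans sdiff_subset
  obtain ⟨ε₁, hε₁, hεsum, hεX⟩ := hsigns T hTD' hTeven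
  -- the signs of the free and of the reserved defects
  obtain ⟨ε₀, hε₀d⟩ : ∃ ε₀ : V → ℤ, ∀ a, ε₀ a = if a ∈ Rm then ηm a else ε₁ a :=
    ⟨_, fun _ => rfl⟩
  have hε₀ : ∀ v, ε₀ v = 1 ∨ ε₀ v = -1 := by
    intro v
    rw [hε₀d]
    split_ifs
    · exact hηm v
    · exact hε₁ v
  have hε₀T : ∀ a ∈ T, ε₀ a = ε₁ a := by
    intro a ha
    rw [hε₀d, if_neg (mem_sdiff.1 (hTD' ha)).2]
  have hε₀R : ∀ a ∈ Rm, ε₀ a = ηm a := fun a ha => by rw [hε₀d, if_pos ha]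
  -- the charge of the free defects and of the marks
  set σ : V → ℝ := fun v => 2 * (∑ a ∈ T, (ε₀ a : ℝ) * w a (ε₀ a) v +
    (ν v + ∑ a ∈ Rm, (ε₀ a : ℝ) * w a (ε₀ a) v)) with hσ
  have hσX : ∀ X : Finset V, ∑ v ∈ X, σ v = 2 * (∑ a ∈ T, (ε₀ a : ℝ) * ∑ v ∈ X, w a (ε₀ a) v +
      (∑ v ∈ X, ν v + ∑ a ∈ Rm, (ε₀ a : ℝ) * ∑ v ∈ X, w a (ε₀ a) v)) := by
    intro X
    rw [hσ, ← mul_sum, sum_add_distrib, sum_add_distrib, sum_comm,
      sum_comm (s := X) (t := Rm)]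
    congr 2
    · refine sum_congr rfl fun a _ => ?_
      rw [mul_sum]
    · congr 1
      refine sum_congr rfl fun a _ => ?_
      rw [mul_sum]
  have h0 : ∑ v, σ v = 0 := by
    rw [hσX]
    have h1 : ∑ a ∈ T, (ε₀ a : ℝ) * ∑ v, w a (ε₀ a) v = ∑ a ∈ T, (ε₁ a : ℝ) := by
      refine sum_congr rfl fun a ha => ?_
      rw [(hw2 a (hTD ha) _ (hε₀ a)).2, mul_one, hε₀T a ha]
    have h1' : ∑ a ∈ Rm, (ε₀ a : ℝ) * ∑ v, w a (ε₀ a) v = ∑ a ∈ Rm, (ηm a : ℝ) := by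
      refine sum_congr rfl fun a ha => ?_
      rw [(hw2 a (hRm ha) _ (hε₀ a)).2, mul_one, hε₀R a ha]
    rw [h1, h1', hν0]
    have h2 : ∑ a ∈ T, (ε₁ a : ℝ) = ((∑ a ∈ T, ε₁ a : ℤ) : ℝ) := by push_cast; rfl
    rw [h2, hεsum]
    simp
  have hσ2 : ∀ R, Region S R → ∀ X ⊆ R, |∑ v ∈ X, σ v| ≤ 4 * b * dd G X := by
    intro R₁ hR₁ X hX
    have e1 := hεX R₁ hR₁ X hX
    have e2 := hν R₁ hR₁ X hX
    have e3 : ∑ a ∈ T, (ε₀ a : ℝ) * ∑ v ∈ X, w a (ε₀ a) v =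
        ∑ a ∈ T, (ε₁ a : ℝ) * ∑ v ∈ X, w a (ε₁ a) v :=
      sum_congr rfl fun a ha => by rw [hε₀T a ha]
    have e4 : ∑ a ∈ Rm, (ε₀ a : ℝ) * ∑ v ∈ X, w a (ε₀ a) v =
        ∑ a ∈ Rm, (ηm a : ℝ) * ∑ v ∈ X, w a (ηm a) v :=
      sum_congr rfl fun a ha => by rw [hε₀R a ha]
    rw [hσX, e3, e4, abs_mul, abs_of_pos (by norm_num : (0 : ℝ) < 2)]
    have e5 := abs_add_le (∑ a ∈ T, (ε₁ a : ℝ) * ∑ v ∈ X, w a (ε₁ a) v)
      (∑ v ∈ X, ν v + ∑ a ∈ Rm, (ηm a : ℝ) * ∑ v ∈ X, w a (ηm a) v)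
    linarith
  obtain ⟨z, hzz1, hzz2⟩ := core_flowG G S hS.ne hS.disj hκ hFa.base.sep h0
    (by positivity : 0 ≤ 4 * b)
    (fun X hX => hσ2 _ (Or.inr rfl) X (by
      intro v hv
      rw [mem_compl, mem_biUnion]
      rintro ⟨i, -, hi⟩
      exact Finset.disjoint_left.1 (hX i) hv hi)) hδ
  have hzM : ∀ i, (z i).natAbs ≤ MM i := by
    intro i
    have h1 : (dd G (S i) : ℝ) ≤ gf C (S i).card := (hS.viol i).le
    have h2 : (8 * b + 5 / k) * dd G (S i) ≤ 4 * η * dd G (S i) :=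
      mul_le_mul_of_nonneg_right hn1 (Nat.cast_nonneg _)
    have h4 : η * dd G (S i) ≤ η * gf C (S i).card := mul_le_mul_of_nonneg_left h1 hη
    have h5 := hM i
    have h6 := hzz1 i
    have h6' := hσ2 _ (Or.inl ⟨i, rfl⟩) (S i) (Subset.refl _)
    have h9 : (k : ℝ) ≤ dd G (S i) := by
      exact_mod_cast hFa.half i (S i) (Subset.refl _) (by omega)
    have h10 : 5 ≤ 5 / (k : ℝ) * dd G (S i) := by
      rw [div_mul_eq_mul_div, le_div_iff₀ hkr]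
      linarith
    have h11 : (8 * b + 5 / k) * (dd G (S i) : ℝ) = 8 * b * dd G (S i) + 5 / k * dd G (S i) := by
      ring
    have h7 : |(z i : ℝ)| ≤ MM i := by linarith
    have h8 : ((z i).natAbs : ℝ) = |(z i : ℝ)| := by
      rw [Nat.cast_natAbs, Int.cast_abs]
    rw [← h8] at h7
    exact_mod_cast h7
  -- the signs of the gadgets
  obtain ⟨η₁, hη₁⟩ : ∃ η₁ : ((i : Fin r) × Fin (MM i)) → ℤ, ∀ g, η₁ g =
      if (g.2 : ℕ) < (z g.1).natAbs then (z g.1).sign else 1 := ⟨_, fun g => rfl⟩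
  obtain ⟨η₂, hη₂⟩ : ∃ η₂ : ((i : Fin r) × Fin (MM i)) → ℤ, ∀ g, η₂ g =
      if (g.2 : ℕ) < (z g.1).natAbs then (z g.1).sign else -1 := ⟨_, fun g => rfl⟩
  have hη₁' : ∀ g, η₁ g = 1 ∨ η₁ g = -1 := by
    intro g
    rw [hη₁ g]
    split_ifs with h
    · exact sign_pm h
    · exact Or.inl rfl
  have hη₂' : ∀ g, η₂ g = 1 ∨ η₂ g = -1 := by
    intro g
    rw [hη₂ g]
    split_ifs with h
    · exact sign_pm h
    · exact Or.inr rfl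
  obtain ⟨ε, hε, hεa, hεb, hεc⟩ := exists_extend hinj1 hinj2 h12 η₁ η₂ ε₀ hε₀ hη₁' hη₂'
  refine ⟨ε, hε, fun X => ?_⟩
  set qq : V → ℝ := fun v => ∑ g, dch w (a₁ g) (a₂ g) (η₁ g) (η₂ g) v with hqq
  have hεT : ∀ a, a ∉ T₂ → ε a = ε₀ a := by
    intro a ha2
    exact hεc a (fun g h => ha2 (by
      rw [hT₂, mem_union]
      exact Or.inl (mem_image.2 ⟨g, mem_univ _, h.symm⟩))) (fun g h => ha2 (by
      rw [hT₂, mem_union]
      exact Or.inr (mem_image.2 ⟨g, mem_univ _, h.symm⟩)))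
  have hRT : ∀ a ∈ Rm, a ∉ T₂ := fun a ha h => (mem_sdiff.1 (hT2D h)).2 ha
  have hsplit : 2 * (∑ a ∈ D, (ε a : ℝ) * ∑ v ∈ X, w a (ε a) v + ∑ v ∈ X, ν v) =
      ∑ v ∈ X, (σ v + qq v) := by
    have e1 : ∑ v ∈ X, (σ v + qq v) = ∑ v ∈ X, σ v + ∑ v ∈ X, qq v := sum_add_distrib
    have e2 : ∑ a ∈ D, (ε a : ℝ) * ∑ v ∈ X, w a (ε a) v =
        ∑ a ∈ T, (ε a : ℝ) * ∑ v ∈ X, w a (ε a) v +
          ∑ a ∈ T₂, (ε a : ℝ) * ∑ v ∈ X, w a (ε a) v +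
          ∑ a ∈ Rm, (ε a : ℝ) * ∑ v ∈ X, w a (ε a) v := by
      rw [hT, sum_sdiff hT2D, sum_sdiff hRm]
    have e3 : ∑ a ∈ T, (ε a : ℝ) * ∑ v ∈ X, w a (ε a) v =
        ∑ a ∈ T, (ε₀ a : ℝ) * ∑ v ∈ X, w a (ε₀ a) v := by
      refine sum_congr rfl fun a ha => ?_
      rw [hεT a (mem_sdiff.1 ha).2]
    have e3' : ∑ a ∈ Rm, (ε a : ℝ) * ∑ v ∈ X, w a (ε a) v =
        ∑ a ∈ Rm, (ε₀ a : ℝ) * ∑ v ∈ X, w a (ε₀ a) v := by
      refine sum_congr rfl fun a ha => ?_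
      rw [hεT a (hRT a ha)]
    have e4 : ∑ a ∈ T₂, (ε a : ℝ) * ∑ v ∈ X, w a (ε a) v =
        ∑ g, ((η₁ g : ℝ) * ∑ v ∈ X, w (a₁ g) (η₁ g) v) +
          ∑ g, ((η₂ g : ℝ) * ∑ v ∈ X, w (a₂ g) (η₂ g) v) := by
      rw [hT₂, sum_union hT2disj, sum_image fun _ _ _ _ h => hinj1 h,
        sum_image fun _ _ _ _ h => hinj2 h]
      congr 1
      · refine sum_congr rfl fun g _ => ?_
        rw [hεa]
      · refine sum_congr rfl fun g _ => ?_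
        rw [hεb]
    have e5 : ∑ v ∈ X, qq v = 2 * (∑ g, ((η₁ g : ℝ) * ∑ v ∈ X, w (a₁ g) (η₁ g) v) +
          ∑ g, ((η₂ g : ℝ) * ∑ v ∈ X, w (a₂ g) (η₂ g) v)) := by
      rw [hqq]
      dsimp only
      rw [sum_comm, ← sum_add_distrib, mul_sum]
      refine sum_congr rfl fun g _ => ?_
      unfold dch
      rw [← mul_sum, sum_add_distrib, ← mul_sum, ← mul_sum]
    rw [e1, hσX, e2, e3, e3', e4, e5]
    ring
  -- the support of the gadget charges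
  have hDD : ∀ {a : V}, a ∈ D \ Rm → a ∈ D := fun h => (mem_sdiff.1 h).1
  have hwB1 : ∀ g v, w (a₁ g) (η₁ g) v ≠ 0 → v ∈ zone G π R q (a₁ g) := fun g =>
    (hw2 _ (hDD (hD1 g)) _ (hη₁' g)).1
  have hwB2 : ∀ g v, w (a₂ g) (η₂ g) v ≠ 0 → v ∈ zone G π R q (a₂ g) := fun g =>
    (hw2 _ (hDD (hD2 g)) _ (hη₂' g)).1
  have hwt1 : ∀ g, ∑ v, w (a₁ g) (η₁ g) v = 1 := fun g => (hw2 _ (hDD (hD1 g)) _ (hη₁' g)).2
  have hwt2 : ∀ g, ∑ v, w (a₂ g) (η₂ g) v = 1 := fun g => (hw2 _ (hDD (hD2 g)) _ (hη₂' g)).2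
  have hdB : ∀ g v, dch w (a₁ g) (a₂ g) (η₁ g) (η₂ g) v ≠ 0 → v ∈ Bl G.Adj R' (β g.1 g.2) := by
    intro g v hv
    rcases dch_ne hv with h | h
    · exact hz1 g (hwB1 g v h)
    · exact hz2 g (hwB2 g v h)
  have hq1 : ∀ Y, Sat S Y → ∑ v ∈ Y, qq v =
      4 * ∑ i ∈ univ.filter (fun i => S i ⊆ Y), (z i : ℝ) := by
    intro Y hY
    rw [hqq]
    dsimp only
    rw [sum_comm]
    have hy1 : ∀ (g : (i : Fin r) × Fin (MM i)) (f : V → ℝ), (∀ v, f v ≠ 0 → v ∈ S g.1) →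
        ∑ v, f v = 1 → ∑ v ∈ Y, f v = if S g.1 ⊆ Y then 1 else 0 := by
      intro g f hf1 hf2
      by_cases h : S g.1 ⊆ Y
      · rw [if_pos h, ← hf2]
        refine sum_subset (subset_univ _) fun v _ hv => ?_
        by_contra hc'
        exact hv (h (hf1 v hc'))
      · rw [if_neg h]
        have h' : Disjoint (S g.1) Y := (hY g.1).resolve_left h
        refine sum_eq_zero fun v hv => ?_
        by_contra hc'
        exact Finset.disjoint_left.1 h' (hf1 v hc') hv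
    have h1 : ∀ g : (i : Fin r) × Fin (MM i),
        ∑ v ∈ Y, dch w (a₁ g) (a₂ g) (η₁ g) (η₂ g) v =
        (2 * η₁ g + 2 * η₂ g) * (if S g.1 ⊆ Y then 1 else 0) := by
      intro g
      exact dch_sum (hy1 g _ (fun v hv => hβS g.1 g.2 (hz1 g (hwB1 g v hv))) (hwt1 g))
        (hy1 g _ (fun v hv => hβS g.1 g.2 (hz2 g (hwB2 g v hv))) (hwt2 g))
    rw [sum_congr rfl fun g _ => h1 g, Fintype.sum_sigma, mul_sum, sum_filter]
    refine sum_congr rfl fun i _ => ?_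
    have h2 : ∑ g : Fin (MM i), (2 * (η₁ ⟨i, g⟩ : ℝ) + 2 * (η₂ ⟨i, g⟩ : ℝ)) = 4 * z i := by
      rw [← sum_signs (hzM i)]
      refine sum_congr rfl fun g _ => ?_
      rw [hη₁, hη₂]
    have h4 : ∑ g : Fin (MM i), (2 * (η₁ ⟨i, g⟩ : ℝ) + 2 * (η₂ ⟨i, g⟩ : ℝ)) *
        (if S i ⊆ Y then (1 : ℝ) else 0) = if S i ⊆ Y then 4 * (z i : ℝ) else 0 := by
      rw [← sum_mul, h2]
      split_ifs <;> ring
    exact h4
  have hq2 : ∀ i, ∀ A ⊆ S i, 2 * A.card ≤ (S i).card →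
      |∑ v ∈ A, qq v| ≤ (1 / 2 ^ j₀ + 4 * θ) * dd G A := by
    intro i Y hY hY2
    have h1 : ∑ v ∈ Y, qq v = ∑ v ∈ Y, ∑ g : Fin (MM i),
        dch w (a₁ ⟨i, g⟩) (a₂ ⟨i, g⟩) (η₁ ⟨i, g⟩) (η₂ ⟨i, g⟩) v := by
      refine sum_congr rfl fun v hv => ?_
      rw [hqq]
      dsimp only
      rw [Fintype.sum_sigma, sum_eq_single i]
      · intro i' _ hi'
        refine sum_eq_zero fun g _ => ?_
        by_contra hc'
        exact Finset.disjoint_left.1 (hS.disj i' i hi') (hβS i' g (hdB ⟨i', g⟩ v hc')) (hY hv)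
      · intro h
        exact absurd (mem_univ _) h
    rw [h1]
    refine q_bound_G (S := S) (k := k) hθ i (fun A' hA' hne' _ hk' => by
        have := hFa.reg hS.disj (Or.inl ⟨i, rfl⟩) hA' hne' hk'
        omega) (β i)
      (fun g v => dch w (a₁ ⟨i, g⟩) (a₂ ⟨i, g⟩) (η₁ ⟨i, g⟩) (η₂ ⟨i, g⟩) v) (hβd i) ?_ ?_ ?_
      (hβZ i) Y hY hY2
    · intro g v hv
      exact hdB ⟨i, g⟩ v hv
    · intro g v
      exact dch_small hw0 hw1 (hA.disj _ (hD (hDD (hD1 ⟨i, g⟩))) _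
        (hD (hDD (hD2 ⟨i, g⟩))) (h12 _ _)) (hwB1 ⟨i, g⟩) (hwB2 ⟨i, g⟩) (hη₁' _) (hη₂' _) v
    · intro g
      exact dch_total hw0 (hwt1 _) (hwt2 _) (hη₁' _) (hη₂' _)
  have hκr : (0 : ℝ) < κ := by exact_mod_cast hκ
  have hcomb := combineG hδ.le hS hFa (σ := σ) (q := qq) (b₁ := 4 * b)
    (k₁ := 4 * b + (4 / κ + δ)) (e₂ := 1 / 2 ^ j₀ + 4 * θ) (e := e) hσ2
    (fun Y hY => by rw [hq1 Y hY]; exact hzz2 Y hY) hq2
    (by positivity) (by positivity) hn2 X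
  rw [← hsplit, abs_mul, abs_of_pos (by norm_num : (0 : ℝ) < 2)] at hcomb
  linarith

end Pool.Agent.K5
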