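import Mathlib
import Pool.Agent.Work.MP_974d84_co_k5.DefsE
import Pool.Agent.Work.MP_974d84_co_k5.Words

/-!
# Removing the windows near the marks
-/

set_option linter.unusedSectionVars false

namespace Pool.Agent.K5

open Finset SimpleGraph Pool.Agent.Exp Pool.Agent.Log5 Pool.Agent.Log5.Clu Pool.Agent.K5.Wd

variable {V : Type} [Fintype V] [DecidableEq V] {G : SimpleGraph V} [DecidableRel G.Adj]
  {μ : V → V} {π : Equiv.Perm V}

/-- Vertices of a ball are reached by short reduced words. -/
theorem exists_red (hf : Frame G μ π) {n : ℕ} {u v : V} (h : v ∈ Bl G.Adj n u) :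
    ∃ w : List (Option Bool), Red w ∧ w.length ≤ n ∧ act μ π w u = v := by
  induction n generalizing v with
  | zero =>
    rw [mem_Bl_zero] at h
    exact ⟨[], by simp [Red], le_refl _, by rw [act_nil, h]⟩
  | succ n ih =>
    rw [mem_Bl_succ] at h
    rcases h with h | ⟨x, hx, hxv⟩
    · obtain ⟨w, hw, hl, he⟩ := ih h
      exact ⟨w, hw, by omega, he⟩
    · obtain ⟨w, hw, hl, he⟩ := ih hx
      obtain ⟨y, hy⟩ : ∃ y : Option Bool, ltr μ π y x = v := by
        rcases (hf.adj _ _).1 hxv with h1 | h1 | h1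
        · exact ⟨none, h1.symm⟩
        · exact ⟨some true, h1.symm⟩
        · exact ⟨some false, h1.symm⟩
      cases w with
      | nil =>
        refine ⟨[y], by simp [Red], by simp, ?_⟩
        rw [act_cons, he, hy]
      | cons z w =>
        by_cases hyz : y = linv z
        · refine ⟨w, ?_, ?_, ?_⟩
          · unfold Red at hw ⊢
            exact hw.tail
          · simp only [List.length_cons] at hl
            omega
          · rw [act_cons] at he
            rw [← hy, hyz, ← he, ltr_linv hf]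
        · refine ⟨y :: z :: w, ?_, ?_, ?_⟩
          · unfold Red at hw ⊢
            exact List.IsChain.cons_cons hyz hw
          · simp only [List.length_cons] at hl ⊢
            omega
          · rw [act_cons, he, hy]

/-- The circuits are locally geodesic. -/
theorem geo_pow (hf : Frame G μ π) {k : ℕ} (hg : Gir G k) {d r : ℕ} {a : V}
    (h : (π ^ d) a ∈ Bl G.Adj r a) (hk : d + r + 1 < k) : d ≤ r := by
  obtain ⟨w, hw, hl, he⟩ := exists_red hf h
  have h1 := act_uniq hf hg (red_replicate d true) hw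
    (by rw [List.length_replicate]; omega) (v := a) (by rw [act_rep_true, he])
  rw [← h1, List.length_replicate] at hl
  exact hl

/-- E3: removing the windows near the marks keeps the windows dense. -/
theorem win_away (c₀ R ρ : ℕ) : ∃ c : ℕ, c₀ ≤ c ∧ ∀ q, 1 ≤ q → ∃ D k : ℕ,
    ∀ {V : Type} [Fintype V] [DecidableEq V] (G : SimpleGraph V) [DecidableRel G.Adj] {μ : V → V}
    {π : Equiv.Perm V}, Frame G μ π → Gir G k → ∀ p : V → V → ℝ, Marks G p → FarM G D p →
    ∀ A : Finset V, Win G π R q (c₀ * q ^ 2) A →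
      Win G π R q (c * q ^ 2) (awayM G π R q ρ p A) := by
  classical
  set K := 2 * R + 2 * ρ + 8 with hK
  refine ⟨c₀ * (K + 1), Nat.le_mul_of_pos_right _ (by omega), fun q hq => ?_⟩
  set B := c₀ * q ^ 2 with hB
  set s := 2 * q + R + ρ with hs
  refine ⟨2 * s + (K + 1) * B, (K + 1) * B + 2 * s + 5, ?_⟩
  intro V _ _ G _ μ π hf hg p hp hD A hA
  have hsym : ∀ u v, G.Adj u v → G.Adj v u := fun u v h => h.symm
  have hcB : c₀ * (K + 1) * q ^ 2 = (K + 1) * B := by rw [hB]; ring
  rw [hcB]
  refine ⟨fun a ha a' ha' hne => hA.disj a (mem_filter.1 ha).1 a' (mem_filter.1 ha').1 hne, ?_⟩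
  intro v
  by_contra hno
  push Not at hno
  -- windows in consecutive blocks
  have h1 : ∀ i : ℕ, ∃ n < B, (π ^ n) ((π ^ (i * B)) v) ∈ A := fun i => hA.dense _
  choose nn hnB hnA using h1
  set m : ℕ → ℕ := fun i => nn i + i * B with hm
  have hmA : ∀ i, (π ^ (m i)) v ∈ A := by
    intro i
    have := hnA i
    rw [← Equiv.Perm.mul_apply, ← pow_add] at this
    exact this
  have hmB : ∀ i, i ≤ K → m i < (K + 1) * B := by
    intro i hi
    have h2 := hnB i
    have h3 : (i + 1) * B ≤ (K + 1) * B := Nat.mul_le_mul_right _ (by omega)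
    have h4 : (i + 1) * B = i * B + B := by ring
    show nn i + i * B < _
    omega
  have hstep : ∀ i, m i < m (i + 1) := by
    intro i
    have h2 := hnB i
    have h4 : (i + 1) * B = i * B + B := by ring
    show nn i + i * B < nn (i + 1) + (i + 1) * B
    omega
  have hpow : ∀ i j, i ≤ j → (π ^ (j - i)) ((π ^ i) v) = (π ^ j) v := by
    intro i j hij
    rw [← Equiv.Perm.mul_apply, ← pow_add]
    congr 2
    omega
  -- they are at least `2 q + 1` apart
  have hgap : ∀ i, i + 1 ≤ K → m i + (2 * q + 1) ≤ m (i + 1) := by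
    intro i hi
    by_contra hlt
    push Not at hlt
    have h2 := hstep i
    have h3 := hmB (i + 1) hi
    set d := m (i + 1) - m i with hd
    have hd1 : 1 ≤ d := by omega
    have hd2 : d ≤ 2 * q := by omega
    have he : (π ^ d) ((π ^ (m i)) v) = (π ^ (m (i + 1))) v := hpow _ _ h2.le
    have hne : (π ^ (m i)) v ≠ (π ^ (m (i + 1))) v := by
      intro h4
      have h5 : (π ^ d) ((π ^ (m i)) v) ∈ Bl G.Adj 0 ((π ^ (m i)) v) := by
        rw [he, ← h4]; exact Bl_self _ _
      have h6 := geo_pow hf hg h5 (by omega)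
      omega
    have h7 := hA.disj _ (hmA i) _ (hmA (i + 1)) hne
    rw [Finset.disjoint_left] at h7
    refine h7 (a := (π ^ (m (i + 1))) v) ?_ ?_
    · unfold zone
      rw [mem_biUnion]
      refine ⟨d, mem_range.2 (by omega), ?_⟩
      rw [he]
      exact Bl_self _ _
    · unfold zone
      rw [mem_biUnion]
      exact ⟨0, mem_range.2 (by omega), by simpa using Bl_self _ _⟩
  have hsum : ∀ i, i ≤ K → m 0 + i * (2 * q + 1) ≤ m i := by
    intro i
    induction i with
    | zero => intro _; simp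
    | succ i ih =>
      intro hi
      have h2 := ih (by omega)
      have h3 := hgap i hi
      have h4 : (i + 1) * (2 * q + 1) = i * (2 * q + 1) + (2 * q + 1) := by ring
      omega
  -- every window is near a mark
  have hbad : ∀ i, i ≤ K → ∃ u ∈ ends p, u ∈ Bl G.Adj s ((π ^ (m i)) v) := by
    intro i hi
    have h2 := hno (m i) (hmB i hi)
    unfold awayM at h2
    rw [mem_filter] at h2
    push Not at h2
    obtain ⟨u, hu, hdis⟩ := h2 (hmA i)
    rw [Finset.not_disjoint_iff] at hdis
    obtain ⟨x, hx1, hx2⟩ := hdis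
    unfold zone at hx1
    rw [mem_biUnion] at hx1
    obtain ⟨j, hj, hxj⟩ := hx1
    rw [mem_range] at hj
    refine ⟨u, hu, ?_⟩
    have h3 := Bl_comp (pow_mem_Bl hf j ((π ^ (m i)) v)) hxj
    have h4 := Bl_comp h3 (Bl_symm hsym hx2)
    exact Bl_mono (by omega) _ h4
  obtain ⟨u, hu, hu1⟩ := hbad 0 (by omega)
  obtain ⟨u', hu', hu1'⟩ := hbad K le_rfl
  have hmK := hsum K le_rfl
  have hmB' := hmB K le_rfl
  set d := m K - m 0 with hd
  have hle : m 0 ≤ m K := by omega
  have he : (π ^ d) ((π ^ (m 0)) v) = (π ^ (m K)) v := hpow _ _ hle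
  have h5 : u' ∈ Bl G.Adj (2 * s + (K + 1) * B) u := by
    have h6 : (π ^ (m K)) v ∈ Bl G.Adj d ((π ^ (m 0)) v) := by
      rw [← he]; exact pow_mem_Bl hf _ _
    have h7 := Bl_comp (Bl_comp (Bl_symm hsym hu1) h6) hu1'
    exact Bl_mono (by omega) _ h7
  obtain ⟨w, hw⟩ := (mem_filter.1 hu).2
  obtain ⟨w', hw'⟩ := (mem_filter.1 hu').2
  have h8 : u' ∈ Bl G.Adj 1 u := by
    rcases hD u w u' w' hw hw' h5 with h | h
    · rw [h.1]; exact Bl_self _ _
    · rw [h.1, mem_Bl_succ]
      exact Or.inr ⟨u, mem_Bl_zero.2 rfl, hp.adj _ _ hw⟩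
  have h9 : (π ^ d) ((π ^ (m 0)) v) ∈ Bl G.Adj (2 * s + 1) ((π ^ (m 0)) v) := by
    rw [he]
    have h10 := Bl_comp (Bl_comp hu1 h8) (Bl_symm hsym hu1')
    exact Bl_mono (by omega) _ h10
  have h11 := geo_pow hf hg h9 (by omega)
  have h12 : K * (2 * q + 1) ≤ d := by omega
  have h13 : K * (2 * q + 1) = 2 * (q * K) + K := by ring
  have h14 : 4 * q ≤ q * K := by
    have : 4 ≤ K := by omega
    calc 4 * q = q * 4 := by ring
      _ ≤ q * K := Nat.mul_le_mul_left _ this
  omega

end Pool.Agent.K5
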