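import Mathlib

/-!
# The extension theorem, E8: the constants
-/

namespace Pool.Agent.K5

/-- Negative powers of two are small. -/
theorem two_pow_small {b : ℝ} (hb : 0 < b) : ∃ n₀ : ℕ, ∀ n, n₀ ≤ n → (1 : ℝ) / 2 ^ n ≤ b := by
  obtain ⟨n₀, hn⟩ : ∃ n : ℕ, (1 / 2 : ℝ) ^ n < b := exists_pow_lt_of_lt_one hb (by norm_num)
  refine ⟨n₀, fun n h => ?_⟩
  have h1 : (1 : ℝ) / 2 ^ n ≤ 1 / 2 ^ n₀ :=
    one_div_le_one_div_of_le (by positivity) (pow_le_pow_right₀ (by norm_num) h)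
  rw [one_div_pow] at hn
  linarith

/-- Reciprocals are small. -/
theorem five_div_small {η : ℝ} (hη : 0 < η) : ∃ k₁ : ℕ, 1 ≤ k₁ ∧ ∀ k : ℕ, k₁ ≤ k →
    (5 : ℝ) / k ≤ η := by
  obtain ⟨k₁, hk₁⟩ : ∃ n : ℕ, 5 / η < n := exists_nat_gt _
  have hk₁0 : (0 : ℝ) < k₁ := lt_trans (by positivity) hk₁
  refine ⟨k₁, by exact_mod_cast hk₁0, fun k hk => ?_⟩
  have hkR : (k₁ : ℝ) ≤ k := by exact_mod_cast hk
  have hk0 : (0 : ℝ) < k := lt_of_lt_of_le hk₁0 hkR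
  rw [div_lt_iff₀ hη] at hk₁
  rw [div_le_iff₀ hk0]
  nlinarith

/-- The bound of `sigma_e`. -/
theorem sigma_small {b : ℝ} (hb : 0 < b) : ∃ n₀ : ℕ, 3 ≤ n₀ ∧ ∀ jm R₁ h : ℕ, n₀ ≤ jm →
    n₀ ≤ R₁ → 3 * 2 ^ R₁ ≤ h → (1 : ℝ) / 2 ^ jm + 2 / 2 ^ R₁ + 12 / h ≤ b := by
  obtain ⟨n₀, hn⟩ := two_pow_small (b := b / 8) (by positivity)
  refine ⟨max n₀ 3, le_max_right _ _, fun jm R₁ h h1 h2 h3 => ?_⟩
  have e1 := hn jm ((le_max_left _ _).trans h1)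
  have e2 := hn R₁ ((le_max_left _ _).trans h2)
  have e3 : (2 : ℝ) / 2 ^ R₁ = 2 * (1 / 2 ^ R₁) := by ring
  have e4 : (3 : ℝ) * 2 ^ R₁ ≤ h := by exact_mod_cast h3
  have e5 : (12 : ℝ) / h ≤ 12 / (3 * 2 ^ R₁) :=
    div_le_div_of_nonneg_left (by norm_num) (by positivity) e4
  have e6 : (12 : ℝ) / (3 * 2 ^ R₁) = 4 * (1 / 2 ^ R₁) := by
    field_simp
    norm_num
  rw [e6] at e5
  rw [e3]
  linarith

/-- The constants of the assembly of the extension theorem (`AssembleE`): `e / 2 ≤ 1 / 25`. -/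
theorem constsE : ∃ (e δ θ η b : ℝ) (κ₀ j₁ k₁ n₀ : ℕ), 0 < e ∧ e / 2 ≤ 1 / 25 ∧ 0 < δ ∧ 0 < θ ∧
    0 < η ∧ 0 < b ∧ b ≤ 1 / 1000 ∧ 20 * η ≤ θ ∧ 1 ≤ κ₀ ∧ 1 ≤ k₁ ∧ 3 ≤ n₀ ∧
    (∀ k : ℕ, k₁ ≤ k → 8 * b + 5 / k ≤ 4 * η) ∧
    (∀ j κ : ℕ, j₁ ≤ j → κ₀ ≤ κ →
      (1 + δ) * (4 * b + (4 / κ + δ)) + (2 + δ) * (4 * b + (1 / 2 ^ j + 4 * θ)) ≤ e) ∧
    ∀ jm R₁ h : ℕ, n₀ ≤ jm → n₀ ≤ R₁ → 3 * 2 ^ R₁ ≤ h →
      (1 : ℝ) / 2 ^ jm + 2 / 2 ^ R₁ + 12 / h ≤ b := by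
  obtain ⟨j₁, hj₁⟩ := two_pow_small (b := (1 / 1000 : ℝ)) (by norm_num)
  obtain ⟨k₁, hk₁0, hk₁⟩ := five_div_small (η := (1 / 20000 : ℝ)) (by norm_num)
  obtain ⟨n₀, hn₀, hn⟩ := sigma_small (b := (1 / 80000 : ℝ)) (by norm_num)
  refine ⟨2 / 25, 1 / 1000, 1 / 1000, 1 / 20000, 1 / 80000, 1000, j₁, k₁, n₀, by norm_num,
    by norm_num, by norm_num, by norm_num, by norm_num, by norm_num, by norm_num, by norm_num,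
    by norm_num, hk₁0, hn₀, fun k hk => ?_, fun j κ hj hκ => ?_, hn⟩
  · have := hk₁ k hk
    linarith
  · have h1 := hj₁ j hj
    have h2 : (1000 : ℝ) ≤ κ := by exact_mod_cast hκ
    have h3 : (4 : ℝ) / κ ≤ 4 / 1000 :=
      div_le_div_of_nonneg_left (by norm_num) (by norm_num) h2
    linarith

/-- The last step of the extension theorem. -/
theorem crit_arithE {e d dm m x s : ℝ} (he : e / 2 ≤ 1 / 25) (hd : 0 ≤ d) (hm : m ≤ 2 / 5 * (d - dm))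
    (hdm : dm ≤ d) (hx : x ≤ 14 / 25 * dm + s) (hs : s ≤ e / 2 * d) : x ≤ 3 / 5 * d - m := by
  nlinarith [mul_le_mul_of_nonneg_right he hd]

end Pool.Agent.K5
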