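import Mathlib

/-!
# THEOREM (G), module G9b: the first constants
-/

namespace Pool.Agent.K5

/-- G9b, file ConstG.lean: the first constants. -/
theorem constsG {κ : ℕ} (hκ : 5 ≤ κ) {ε : ℝ} (hε : 0 < ε) :
    ∃ (e δ θ η b : ℝ) (J : ℕ), 0 < δ ∧ 0 < θ ∧ 0 < η ∧ 0 < b ∧
    20 * η ≤ θ ∧
    1 / 2 + 1 / 2 ^ (J + 2) + e / 2 ≤ (4 * κ / (κ - 4) + ε - 2) / (4 * κ / (κ - 4) + ε) ∧
    ∀ (j : ℕ) (t : ℝ), 1 / 2 ^ j ≤ θ → t ≤ η → 4 * b + t ≤ 4 * η ∧
      (1 + δ) * (2 * b + (4 / κ + δ)) + (2 + δ) * (2 * b + (1 / 2 ^ j + 4 * θ)) ≤ e := by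
  have hκR : (5 : ℝ) ≤ κ := by exact_mod_cast hκ
  have hκ0 : (0 : ℝ) < κ := by linarith
  have hκ4 : (0 : ℝ) < κ - 4 := by linarith
  set K : ℝ := 4 * κ / (κ - 4) with hK
  have hK0 : 0 < K := by positivity
  have hKε : 0 < K + ε := by linarith
  set u : ℝ := 4 / κ with hu
  have hu0 : 0 < u := by positivity
  have hu1 : u ≤ 1 := by
    rw [hu, div_le_one hκ0]
    linarith
  -- `2 / K = (1 - u) / 2`
  have hKu : 2 / K = (1 - u) / 2 := by
    rw [hK, hu]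
    field_simp
    ring
  set Δ : ℝ := 2 / K - 2 / (K + ε) with hΔ
  have hΔ0 : 0 < Δ := by
    rw [hΔ, sub_pos]
    exact div_lt_div_of_pos_left (by norm_num) hK0 (by linarith)
  obtain ⟨J, hJ⟩ : ∃ n : ℕ, (1 / 2 : ℝ) ^ n < Δ / 2 :=
    exists_pow_lt_of_lt_one (by linarith) (by norm_num)
  have hJ2 : (1 : ℝ) / 2 ^ (J + 2) ≤ Δ / 2 := by
    refine le_trans ?_ hJ.le
    rw [one_div_pow]
    exact one_div_le_one_div_of_le (by positivity) (pow_le_pow_right₀ (by norm_num) (by omega))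
  set θ : ℝ := Δ / 32 with hθ
  set δ : ℝ := min 1 (Δ / 6) with hδ
  have hδ1 : δ ≤ 1 := min_le_left _ _
  have hδ2 : δ ≤ Δ / 6 := min_le_right _ _
  have hδ0 : 0 < δ := lt_min one_pos (by linarith)
  have hθ0 : 0 < θ := by rw [hθ]; linarith
  refine ⟨u + Δ, δ, θ, θ / 20, θ / 40, J, hδ0, hθ0, by linarith, by linarith, by linarith, ?_, ?_⟩
  · have h1 : (K + ε - 2) / (K + ε) = 1 - 2 / (K + ε) := by
      field_simp
    rw [h1]
    have h2 : 2 / (K + ε) = (1 - u) / 2 - Δ := by rw [hΔ, hKu]; ring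
    rw [h2]
    linarith
  · intro j t hj ht
    refine ⟨by linarith, ?_⟩
    have h1 : (1 + δ) * (2 * (θ / 40) + (u + δ)) ≤ 4 * (θ / 40) + u + 3 * δ := by
      nlinarith [mul_le_mul_of_nonneg_left hδ1 hδ0.le, mul_le_mul_of_nonneg_left hu1 hδ0.le,
        mul_le_mul_of_nonneg_left hδ1 hθ0.le]
    have h2 : (2 + δ) * (2 * (θ / 40) + (1 / 2 ^ j + 4 * θ)) ≤ 3 * (2 * (θ / 40) + 5 * θ) := by
      have h3 : (0 : ℝ) < 1 / 2 ^ j := by positivity
      calc (2 + δ) * (2 * (θ / 40) + (1 / 2 ^ j + 4 * θ))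
          ≤ 3 * (2 * (θ / 40) + (1 / 2 ^ j + 4 * θ)) :=
            mul_le_mul_of_nonneg_right (by linarith) (by positivity)
        _ ≤ 3 * (2 * (θ / 40) + 5 * θ) := by linarith
    linarith

/-- The last step of theorem (G). -/
theorem crit_arithG {c x d a : ℝ} (hc : 0 < c) (hd : 0 ≤ d) (hx : x ≤ a * d)
    (ha : a ≤ (c - 2) / c) : c * x ≤ (c - 2) * d := by
  calc c * x ≤ c * (a * d) := mul_le_mul_of_nonneg_left hx hc.le
    _ ≤ c * ((c - 2) / c * d) :=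
        mul_le_mul_of_nonneg_left (mul_le_mul_of_nonneg_right ha hd) hc.le
    _ = (c - 2) * d := by field_simp

/-- The bound of theorem (G) is below `5` for `κ ≥ 21`. -/
theorem constG_lt_five {κ : ℕ} (hκ : 21 ≤ κ) : (4 * κ / (κ - 4) : ℝ) < 5 := by
  have h : (21 : ℝ) ≤ κ := by exact_mod_cast hκ
  rw [div_lt_iff₀ (by linarith)]
  linarith

/-- The bound of theorem (G) is positive. -/
theorem constG_pos {κ : ℕ} (hκ : 5 ≤ κ) : (0 : ℝ) < 4 * κ / (κ - 4) := by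
  have h : (5 : ℝ) ≤ κ := by exact_mod_cast hκ
  exact div_pos (by linarith) (by linarith)

end Pool.Agent.K5
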