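import Mathlib
import Pool.Agent.Work.MP_974d84_co_k5.DefsG
import Pool.Agent.Work.MP_974d84_co_k5.GfG
import Pool.Agent.Work.MP_974d84_co_k5.RatioG
import Pool.Agent.Work.MP_974d84_co_k5.CoreFactsA
import Pool.Agent.Work.MP_974d84_co_k5.CoreFactsB

/-!
# THEOREM (G): facts about the cores of a graph of large girth and given cyclic connectivity
-/

set_option linter.unusedSectionVars false

namespace Pool.Agent.K5

open Finset SimpleGraph Pool.Agent.Exp Pool.Agent.Log5 Pool.Agent.Log5.Clu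

/-- The facts about the cores when only the girth is large. -/
theorem core_factsG {C : ℝ} (hC : 100 ≤ C) (N k κ : ℕ) {δ : ℝ} (hδ : 0 < δ) : ∃ g : ℕ,
    ∀ {V : Type} [Fintype V] [DecidableEq V] (G : SimpleGraph V) [DecidableRel G.Adj],
    (∀ v, G.degree v = 3) → CycConn G κ → Gir G g → ∀ {r : ℕ} (S : Fin r → Finset V),
    Cores G C S → FactsG G C N k κ δ S := by
  obtain ⟨x₀, hx₀, h₀⟩ := exists_large (N * C)
  obtain ⟨k₁, h₁⟩ := facts_A hC
  obtain ⟨k₂, h₂⟩ := light_small (C := C) (by linarith) k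
  obtain ⟨k₃, h₃⟩ := gf_large (C := C) (by linarith) (10 * k)
  obtain ⟨k₄, h₄⟩ := ratio_g hC hδ
  refine ⟨⌈x₀⌉₊ + k₁ + k₂ + k₃ + k₄ + k + κ + 1, fun {V} _ _ G _ h3 hc hg r S hS => ?_⟩
  have hl := large_of h3 hg hS
  have hg₂ : Gir G k₂ := fun A hA => hg A (by omega)
  obtain ⟨hr, hi, hh⟩ := h₁ _ (by omega) G h3 S hS hl
  refine ⟨⟨fun i => ?_, joined_of hC hS, fun i => ?_, hr, hi, hh,
    fun X _ h1 h2 => sep_of h3 hc hS h1 h2⟩, fun i => ?_, ?_, fun X hX hX3 hk => ?_,
    fun i A hA hA2 => ?_⟩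
  · have := hl i
    omega
  · have h1 := hl i
    have h2 : x₀ ≤ ((S i).card : ℝ) :=
      (Nat.le_ceil x₀).trans (by exact_mod_cast (by omega : ⌈x₀⌉₊ ≤ (S i).card))
    have h4 := (h₀ _ h2).1
    have h5 := hS.viol i
    have h6 := gf_le C (S i).card
    have h7 : (N : ℝ) * dd G (S i) ≤ (S i).card := by
      calc (N : ℝ) * dd G (S i) ≤ N * (C * (1 + Real.log (S i).card) ^ 2) :=
            mul_le_mul_of_nonneg_left (by linarith) (Nat.cast_nonneg N)
        _ = N * C * (1 + Real.log (S i).card) ^ 2 := by ring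
        _ ≤ (S i).card := h4
    exact_mod_cast h7
  · have := hl i
    omega
  · exact h₄ G S hS fun i => by have := hl i; omega
  · exact h₂ k₂ le_rfl G h3 hg₂ X hX (hi X hX hX3) hk
  · have h1 := hl i
    have h4 := hh i A hA hA2
    have h5 := h₃ (S i).card (by omega)
    push_cast at h5
    have h6 : (10 : ℝ) * k ≤ 10 * dd G A := h5.trans h4
    have h7 : (k : ℝ) ≤ dd G A := by linarith
    exact_mod_cast h7

end Pool.Agent.K5
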