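import Pool.Agent.Work.MP_974d84_co_k5.Defs5

/-!
# Existence of cores
-/

set_option linter.unusedSectionVars false

namespace Pool.Agent.K5

open Finset SimpleGraph Pool.Agent.Exp Pool.Agent.Log5 Pool.Agent.Log5.Clu

variable {V : Type} [Fintype V] [DecidableEq V] (G : SimpleGraph V) [DecidableRel G.Adj]

/-- Inside every violator there is a minimal one. -/
theorem exists_min_viol (C : ℝ) (A : Finset V) (hA : A.Nonempty) (hv : (dd G A : ℝ) < gf C A.card) :
    ∃ B ⊆ A, B.Nonempty ∧ (dd G B : ℝ) < gf C B.card ∧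
      ∀ D ⊂ B, D.Nonempty → gf C D.card ≤ dd G D := by
  induction A using Finset.strongInduction with
  | H A ih =>
    by_cases h : ∃ D, D ⊂ A ∧ D.Nonempty ∧ (dd G D : ℝ) < gf C D.card
    · obtain ⟨D, hD, hne, hvD⟩ := h
      obtain ⟨B, hB, h1, h2, h3⟩ := ih D hD hne hvD
      exact ⟨B, hB.trans hD.subset, h1, h2, h3⟩
    · push Not at h
      exact ⟨A, Finset.Subset.refl A, hA, hv, fun D hD hne => h D hD hne⟩

/-- Cores inside a set `U`. -/
theorem exists_cores_aux (C : ℝ) (U : Finset V) : ∃ (r : ℕ) (S : Fin r → Finset V),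
    (∀ i, S i ⊆ U) ∧ (∀ i j, i ≠ j → Disjoint (S i) (S j)) ∧ (∀ i, (S i).Nonempty) ∧
    (∀ i, (dd G (S i) : ℝ) < gf C (S i).card) ∧
    (∀ i, ∀ A ⊂ S i, A.Nonempty → gf C A.card ≤ dd G A) ∧
    ∀ A ⊆ U, A.Nonempty → (∀ i, Disjoint A (S i)) → gf C A.card ≤ dd G A := by
  induction U using Finset.strongInduction with
  | H U ih =>
    by_cases h : ∃ A, A ⊆ U ∧ A.Nonempty ∧ (dd G A : ℝ) < gf C A.card
    · obtain ⟨A, hAU, hne, hv⟩ := h
      obtain ⟨B, hBA, h1, h2, h3⟩ := exists_min_viol G C A hne hv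
      have hBU : B ⊆ U := hBA.trans hAU
      have hlt : U \ B ⊂ U := by
        refine ⟨sdiff_subset, fun hsub => ?_⟩
        obtain ⟨x, hx⟩ := h1
        exact (mem_sdiff.1 (hsub (hBU hx))).2 hx
      obtain ⟨r, S, g1, g2, g3, g4, g5, g6⟩ := ih (U \ B) hlt
      have hd : ∀ i, Disjoint B (S i) := fun i =>
        disjoint_of_subset_right (g1 i) disjoint_sdiff
      refine ⟨r + 1, Fin.cons B S, ?_, ?_, ?_, ?_, ?_, ?_⟩
      · intro i
        refine Fin.cases ?_ (fun i => ?_) i
        · exact hBU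
        · exact (g1 i).trans sdiff_subset
      · intro i j
        refine Fin.cases ?_ (fun i => ?_) i <;> refine Fin.cases ?_ (fun j => ?_) j
        · exact fun h => absurd rfl h
        · exact fun _ => hd j
        · exact fun _ => (hd i).symm
        · exact fun h => g2 i j fun e => h (by rw [e])
      · intro i
        refine Fin.cases ?_ (fun i => ?_) i
        · exact h1
        · exact g3 i
      · intro i
        refine Fin.cases ?_ (fun i => ?_) i
        · exact h2
        · exact g4 i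
      · intro i
        refine Fin.cases ?_ (fun i => ?_) i
        · exact h3
        · exact g5 i
      · intro D hDU hne hdis
        refine g6 D ?_ hne fun i => hdis i.succ
        intro x hx
        exact mem_sdiff.2 ⟨hDU hx, fun hxB => (Finset.disjoint_left.1 (hdis 0) hx) hxB⟩
    · push Not at h
      exact ⟨0, Fin.elim0, fun i => i.elim0, fun i => i.elim0, fun i => i.elim0,
        fun i => i.elim0, fun i => i.elim0, fun A hA hne _ => h A hA hne⟩

/-- M2: cores exist. -/
theorem exists_cores (C : ℝ) : ∃ (r : ℕ) (S : Fin r → Finset V), Cores G C S := by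
  obtain ⟨r, S, -, g2, g3, g4, g5, g6⟩ := exists_cores_aux G C univ
  exact ⟨r, S, g2, g3, g4, g5, fun A hA hd => g6 A (subset_univ A) hA hd⟩

end Pool.Agent.K5
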