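import Mathlib
import Pool.Agent.Work.MP_974d84_co_k5.DefsE
import Pool.Agent.Work.MP_974d84_co_k5.Words

/-!
# Moving the defects inside their windows, with marked edges
-/

set_option linter.unusedSectionVars false
set_option linter.unusedVariables false

namespace Pool.Agent.K5

open Finset SimpleGraph Pool.Agent.Exp Pool.Agent.Log5 Pool.Agent.Log5.Clu

variable {V : Type} [Fintype V] [DecidableEq V]

namespace FlipE

/-- The places of the window of `a` before the defect. -/
def Flp (π : Equiv.Perm V) (D : Finset V) (c : V → ℕ) (v : V) : Prop :=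
  ∃ a ∈ D, ∃ j < c a, v = (π ^ j) a

open Classical in
/-- Moving the defects `D` of a pattern to the places `c`. -/
theorem exists_flip_e {π : Equiv.Perm V} {D : Finset V} (hπ : ∀ v, π v ≠ π.symm v) {y : V → ℤ}
    (c : V → ℕ)
    (hw : ∀ a ∈ D, ∀ a' ∈ D, ∀ i ≤ c a, ∀ j ≤ c a', (π ^ i) a = (π ^ j) a' → a = a' ∧ i = j)
    (hy : ∀ v, y v = 1 ∨ y v = -1) (hyD : ∀ v, π v ∉ D → y (π v) = - y v)
    (hyD' : ∀ v, π v ∈ D → y (π v) = y v) (e : V → ℤ)
    (hc1 : ∀ a ∈ D, 1 ≤ c a) (hce : ∀ a ∈ D, y ((π ^ (c a)) a) = e a) :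
    ∃ x : V → ℤ, (∀ v, x v = 1 ∨ x v = -1) ∧
      (∀ v, (∀ a ∈ D, ∀ j < c a, v ≠ (π ^ j) a) → x v = y v) ∧
      (∀ a ∈ D, ∀ j < c a, x ((π ^ j) a) = - y ((π ^ j) a)) ∧
      (∀ a ∈ D, x ((π ^ (c a)) a) = e a ∧ x ((π ^ (c a - 1)) a) = e a) ∧
      (∀ v, ((univ.filter fun u => (u = π v ∨ v = π u) ∧ x v = - x u).card : ℤ) * x v +
        ∑ a ∈ D, e a * ((if v = (π ^ (c a - 1)) a then 1 else 0) +
          (if v = (π ^ (c a)) a then 1 else 0)) = 2 * x v) := by
  have hsucc : ∀ (j : ℕ) (a : V), π ((π ^ j) a) = (π ^ (j + 1)) a := by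
    intro j a
    rw [← Equiv.Perm.mul_apply, ← pow_succ']
  have hy0 : ∀ v, y v ≠ 0 := by
    intro v
    rcases hy v with h | h <;> rw [h] <;> norm_num
  -- flipped places
  have hend : ∀ a ∈ D, ¬ Flp π D c ((π ^ (c a)) a) := by
    rintro a ha ⟨a', ha', j, hj, he⟩
    obtain ⟨h1, h2⟩ := hw a ha a' ha' _ le_rfl j hj.le he
    subst h1
    omega
  have hbef : ∀ v, π v ∈ D → ¬ Flp π D c v := by
    rintro v hv ⟨a', ha', j, hj, rfl⟩
    rw [hsucc] at hv
    have h := hw _ hv a' ha' 0 (by omega) (j + 1) (by omega) (by rw [pow_zero]; rfl)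
    omega
  have hfst : ∀ v, v ∈ D → Flp π D c v := fun v hv => ⟨v, hv, 0, hc1 v hv, by rw [pow_zero]; rfl⟩
  have hnext : ∀ v, Flp π D c v → Flp π D c (π v) ∨ ∃ a ∈ D, v = (π ^ (c a - 1)) a := by
    rintro v ⟨a, ha, j, hj, rfl⟩
    by_cases h : j + 1 < c a
    · left
      exact ⟨a, ha, j + 1, h, hsucc j a⟩
    · right
      refine ⟨a, ha, ?_⟩
      rw [show c a - 1 = j by omega]
  have hprev : ∀ v, π v ∉ D → Flp π D c (π v) → Flp π D c v := by
    rintro v hv ⟨a, ha, j, hj, he⟩
    rcases Nat.eq_zero_or_pos j with h0 | h0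
    · subst h0
      rw [pow_zero] at he
      exact absurd (by rw [he]; exact ha) hv
    · refine ⟨a, ha, j - 1, by omega, ?_⟩
      apply π.injective
      rw [he, hsucc, Nat.sub_add_cancel h0]
  set x : V → ℤ := fun v => if Flp π D c v then - y v else y v with hx
  have hx1 : ∀ v, Flp π D c v → x v = - y v := fun v h => by simp only [hx]; rw [if_pos h]
  have hx2 : ∀ v, ¬ Flp π D c v → x v = y v := fun v h => by simp only [hx]; rw [if_neg h]
  have hsign : ∀ v, x v = 1 ∨ x v = -1 := by
    intro v
    by_cases h : Flp π D c v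
    · rw [hx1 v h]
      rcases hy v with h' | h' <;> rw [h'] <;> norm_num
    · rw [hx2 v h]
      exact hy v
  have hE1 : ∀ a ∈ D, x ((π ^ (c a)) a) = e a := fun a ha => by
    rw [hx2 _ (hend a ha), hce a ha]
  have hc : ∀ a ∈ D, π ((π ^ (c a - 1)) a) = (π ^ (c a)) a := fun a ha => by
    rw [hsucc, Nat.sub_add_cancel (hc1 a ha)]
  have hnD : ∀ a ∈ D, (π ^ (c a)) a ∉ D := by
    intro a ha h
    have h1 := hw _ h a ha 0 (by omega) (c a) le_rfl (by rw [pow_zero]; rfl)
    have h2 := hc1 a ha
    omega
  have hE2 : ∀ a ∈ D, x ((π ^ (c a - 1)) a) = e a := by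
    intro a ha
    have h1 : Flp π D c ((π ^ (c a - 1)) a) := ⟨a, ha, c a - 1, by have := hc1 a ha; omega, rfl⟩
    have h2 := hyD ((π ^ (c a - 1)) a) (by rw [hc a ha]; exact hnD a ha)
    rw [hc a ha, hce a ha] at h2
    rw [hx1 _ h1]
    omega
  -- alternation
  have halt' : ∀ v, (∀ a ∈ D, v ≠ (π ^ (c a - 1)) a) → x (π v) = - x v := by
    intro v hv
    by_cases hvD : π v ∈ D
    · rw [hx1 _ (hfst _ hvD), hx2 _ (hbef v hvD), hyD' v hvD]
    · by_cases hF : Flp π D c v
      · rcases hnext v hF with h | ⟨a, ha, h⟩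
        · rw [hx1 _ h, hx1 _ hF, hyD v hvD]
        · exact absurd h (hv a ha)
      · have hF' : ¬ Flp π D c (π v) := fun h => hF (hprev v hvD h)
        rw [hx2 _ hF', hx2 _ hF, hyD v hvD]
  refine ⟨x, hsign, ?_, ?_, fun a ha => ⟨hE1 a ha, hE2 a ha⟩, ?_⟩
  · intro v hv
    refine hx2 v ?_
    rintro ⟨a, ha, j, hj, he⟩
    exact hv a ha j hj he
  · intro a ha j hj
    exact hx1 _ ⟨a, ha, j, hj, rfl⟩
  · intro v
    have hx0 : x v ≠ 0 := by rcases hsign v with h | h <;> rw [h] <;> norm_num
    -- the sums of the charges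
    have s1 : ∑ a ∈ D, e a * (if v = (π ^ (c a - 1)) a then 1 else 0) =
        if (∃ a ∈ D, v = (π ^ (c a - 1)) a) then x v else 0 := by
      split_ifs with h
      · obtain ⟨a, ha, hva⟩ := h
        rw [sum_eq_single_of_mem a ha]
        · rw [if_pos hva, mul_one, hva, hE2 a ha]
        · intro a' ha' hne
          rw [if_neg, mul_zero]
          intro he
          exact hne (hw a' ha' a ha _ (by omega) _ (by omega) (he.symm.trans hva)).1
      · refine sum_eq_zero fun a ha => ?_
        rw [if_neg fun he => h ⟨a, ha, he⟩, mul_zero]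
    have s2 : ∑ a ∈ D, e a * (if v = (π ^ (c a)) a then 1 else 0) =
        if (∃ a ∈ D, v = (π ^ (c a)) a) then x v else 0 := by
      split_ifs with h
      · obtain ⟨a, ha, hva⟩ := h
        rw [sum_eq_single_of_mem a ha]
        · rw [if_pos hva, mul_one, hva, hE1 a ha]
        · intro a' ha' hne
          rw [if_neg, mul_zero]
          intro he
          exact hne (hw a' ha' a ha _ le_rfl _ le_rfl (he.symm.trans hva)).1
      · refine sum_eq_zero fun a ha => ?_
        rw [if_neg fun he => h ⟨a, ha, he⟩, mul_zero]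
    -- the neighbours along the circuits
    have t1 : (x v = - x (π v)) ↔ ¬ ∃ a ∈ D, v = (π ^ (c a - 1)) a := by
      constructor
      · rintro h ⟨a, ha, hva⟩
        rw [hva, hc a ha, hE1 a ha, hE2 a ha] at h
        rcases hsign ((π ^ (c a)) a) with h' | h' <;> rw [hE1 a ha] at h' <;> omega
      · intro h
        push Not at h
        rw [halt' v h, neg_neg]
    have t2 : (x v = - x (π.symm v)) ↔ ¬ ∃ a ∈ D, v = (π ^ (c a)) a := by
      constructor
      · rintro h ⟨a, ha, hva⟩
        have e1 : π.symm v = (π ^ (c a - 1)) a := by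
          rw [hva, ← hc a ha, Equiv.symm_apply_apply]
        rw [e1, hva, hE1 a ha, hE2 a ha] at h
        rcases hsign ((π ^ (c a)) a) with h' | h' <;> rw [hE1 a ha] at h' <;> omega
      · intro h
        push Not at h
        have h1 := halt' (π.symm v) (by
          intro a ha he
          refine h a ha ?_
          rw [← hc a ha, ← he, Equiv.apply_symm_apply])
        rw [Equiv.apply_symm_apply] at h1
        exact h1
    have hset : (univ.filter fun u => (u = π v ∨ v = π u) ∧ x v = - x u) =
        (if x v = - x (π v) then {π v} else ∅) ∪ (if x v = - x (π.symm v) then {π.symm v} else ∅) := by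
      ext u
      rw [mem_filter, mem_union]
      constructor
      · rintro ⟨-, h1 | h1, h2⟩
        · left
          subst h1
          rw [if_pos h2]
          exact mem_singleton_self _
        · right
          have : u = π.symm v := by rw [h1, Equiv.symm_apply_apply]
          subst this
          rw [if_pos h2]
          exact mem_singleton_self _
      · rintro (h | h)
        · split_ifs at h with h'
          · rw [mem_singleton] at h
            subst h
            exact ⟨mem_univ _, Or.inl rfl, h'⟩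
          · exact absurd h (notMem_empty _)
        · split_ifs at h with h'
          · rw [mem_singleton] at h
            subst h
            exact ⟨mem_univ _, Or.inr (by rw [Equiv.apply_symm_apply]), h'⟩
          · exact absurd h (notMem_empty _)
    have hcard : ((univ.filter fun u => (u = π v ∨ v = π u) ∧ x v = - x u).card : ℤ) =
        (if x v = - x (π v) then 1 else 0) + (if x v = - x (π.symm v) then 1 else 0) := by
      rw [hset, card_union_of_disjoint]
      · split_ifs <;> simp
      · rw [Finset.disjoint_left]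
        intro u hu hu'
        split_ifs at hu hu' with h1 h2
        · rw [mem_singleton] at hu hu'
          exact hπ v (hu.symm.trans hu')
        · exact absurd hu' (notMem_empty _)
        · exact absurd hu (notMem_empty _)
        · exact absurd hu (notMem_empty _)
    have hsum : ∑ a ∈ D, e a * ((if v = (π ^ (c a - 1)) a then 1 else 0) +
          (if v = (π ^ (c a)) a then 1 else 0)) =
        (if (∃ a ∈ D, v = (π ^ (c a - 1)) a) then x v else 0) +
          (if (∃ a ∈ D, v = (π ^ (c a)) a) then x v else 0) := by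
      rw [← s1, ← s2, ← sum_add_distrib]
      exact sum_congr rfl fun a _ => mul_add _ _ _
    rw [hcard, hsum]
    by_cases h1 : ∃ a ∈ D, v = (π ^ (c a - 1)) a
    · have h1' : ¬ (x v = - x (π v)) := fun h => t1.1 h h1
      by_cases h2 : ∃ a ∈ D, v = (π ^ (c a)) a
      · have h2' : ¬ (x v = - x (π.symm v)) := fun h => t2.1 h h2
        rw [if_neg h1', if_neg h2', if_pos h1, if_pos h2]
        ring
      · have h2' := t2.2 h2
        rw [if_neg h1', if_pos h2', if_pos h1, if_neg h2]
        ring
    · have h1' := t1.2 h1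
      by_cases h2 : ∃ a ∈ D, v = (π ^ (c a)) a
      · have h2' : ¬ (x v = - x (π.symm v)) := fun h => t2.1 h h2
        rw [if_pos h1', if_neg h2', if_neg h1, if_pos h2]
        ring
      · have h2' := t2.2 h2
        rw [if_pos h1', if_pos h2', if_neg h1, if_neg h2]
        ring

/-- The places of the windows are different. -/
theorem win_uniq {G : SimpleGraph V} [DecidableRel G.Adj] {π : Equiv.Perm V} {R q B : ℕ}
    {A : Finset V} (hA : Win G π R q B A) (hp : ∀ v n, 0 < n → n ≤ 2 * q → (π ^ n) v ≠ v)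
    {a a' : V} (ha : a ∈ A) (ha' : a' ∈ A) {i j : ℕ} (hi : i ≤ 2 * q) (hj : j ≤ 2 * q)
    (h : (π ^ i) a = (π ^ j) a') : a = a' ∧ i = j := by
  have h1 : (π ^ i) a ∈ zone G π R q a :=
    mem_biUnion.2 ⟨i, mem_range.2 (by omega), Bl_self R _⟩
  have h2 : (π ^ i) a ∈ zone G π R q a' := by
    rw [h]
    exact mem_biUnion.2 ⟨j, mem_range.2 (by omega), Bl_self R _⟩
  have h3 : a = a' := by
    by_contra hne
    exact Finset.disjoint_left.1 (hA.disj a ha a' ha' hne) h1 h2
  subst h3
  refine ⟨rfl, ?_⟩
  have key : ∀ i j : ℕ, i ≤ 2 * q → j ≤ 2 * q → i < j → (π ^ i) a ≠ (π ^ j) a := by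
    intro i j hi hj hij he
    have e : (π ^ j) a = (π ^ (j - i)) ((π ^ i) a) := by
      rw [← Equiv.Perm.mul_apply, ← pow_add, Nat.sub_add_cancel hij.le]
    rw [e] at he
    exact hp _ (j - i) (by omega) (by omega) he.symm
  rcases lt_trichotomy i j with hlt | heq | hlt
  · exact absurd h (key i j hi hj hlt)
  · exact heq
  · exact absurd h.symm (key j i hj hi hlt)

end FlipE

/-- F2: the labels for given signs and places of the defects, with marked edges. -/
theorem flip_e {G : SimpleGraph V} [DecidableRel G.Adj] {μ : V → V} {π : Equiv.Perm V}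
    (hf : Frame G μ π) {J R q B M k D : ℕ} (hg : Gir G k) (hk : 4 * q + 20 ≤ k) {A : Finset V}
    (hA : Win G π R q B A) {p : V → V → ℝ} (hp : Marks G p) (hpD : FarM G D p)
    (hAp : ∀ a ∈ A, ∀ u ∈ ends p, Disjoint (zone G π R q a) (Bl G.Adj (2 * J + 4) u))
    {y : V → ℤ} (hy : PatternE μ π J q M A p y) (ε : V → ℤ) (C : V → ℕ)
    (hC : ∀ a ∈ Dfc π A y, 1 ≤ C a ∧ C a ≤ 2 * q ∧ y ((π ^ C a) a) = ε a) :
    ∃ x : V → ℤ, (∀ v, x v = 1 ∨ x v = -1) ∧
      (∀ v, (∀ a ∈ Dfc π A y, ∀ j < C a, v ≠ (π ^ j) a) → x v = y v) ∧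
      ∀ v, ((univ.filter fun u => (u = π v ∨ v = π u) ∧ x v = - x u).card : ℝ) * x v +
        ∑ a ∈ Dfc π A y, (ε a : ℝ) * ((if v = (π ^ (C a - 1)) a then 1 else 0) +
          (if v = (π ^ C a) a then 1 else 0)) +
        (if v ∈ ends p then 2 * chm μ p v else 0) = 2 * x v + ∑ u, p v u := by
  classical
  have hpow : ∀ v n, 0 < n → n ≤ 2 * q → (π ^ n) v ≠ v := fun v n h1 h2 =>
    pow_ne hf hg h1 (by omega) v
  have hpp : ∀ v, π (π v) ≠ v := by
    intro v h
    refine hf.pi_ne v ?_
    rw [Equiv.eq_symm_apply]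
    exact h
  have hpp' : ∀ v, π v ≠ v := by
    intro v h
    apply hpp v
    rw [h, h]
  -- marks
  have hmem : ∀ {u v}, p u v ≠ 0 → u ∈ ends p := fun {u v} h =>
    mem_filter.2 ⟨mem_univ _, v, h⟩
  have huni : ∀ {u v v'}, p u v ≠ 0 → p u v' ≠ 0 → v' = v := by
    intro u v v' h h'
    rcases hpD u v u v' h h' (Bl_self D u) with h1 | h1
    · exact h1.2
    · exact absurd (hp.adj _ _ h) (by rw [← h1.1]; exact G.loopless.irrefl _)
  set E : Finset V := univ.filter fun v => p v (π v) ≠ 0 with hE
  have hEm : ∀ v, v ∈ E ↔ p v (π v) ≠ 0 := fun v => by rw [hE, mem_filter]; simp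
  have hE1 : ∀ v, v ∈ E → v ∈ ends p := fun v h => hmem ((hEm v).1 h)
  have hE2 : ∀ v, v ∈ E → π v ∈ ends p := fun v h => hmem (by
    have := (hEm v).1 h
    rwa [hp.symm] at this)
  have hE3 : ∀ v, v ∈ E → π v ∉ E := by
    intro v h h'
    have h1 := (hEm v).1 h
    have h2 := (hEm _).1 h'
    rw [hp.symm] at h1
    exact hpp v (huni h1 h2)
  -- the windows are away from the marks
  have hzone : ∀ a ∈ A, ∀ i ≤ 2 * q, (π ^ i) a ∉ ends p := by
    intro a ha i hi h
    have h1 : (π ^ i) a ∈ zone G π R q a :=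
      mem_biUnion.2 ⟨i, mem_range.2 (by omega), Bl_self R _⟩
    exact Finset.disjoint_left.1 (hAp a ha _ h) h1 (Bl_self _ _)
  have hzone0 : ∀ a ∈ A, a ∉ ends p := fun a ha => by
    have := hzone a ha 0 (by omega)
    rwa [pow_zero] at this
  have hDA : ∀ a, a ∈ Dfc π A y → a ∈ A := fun a h => (mem_filter.1 h).1
  have hDE : Disjoint (Dfc π A y) E := Finset.disjoint_left.2 fun a h h' =>
    hzone0 a (hDA a h) (hE1 a h')
  have hy0 : ∀ u v, y u ≠ y v → y v = - y u := by
    intro u v h
    rcases hy.sign u with h1 | h1 <;> rcases hy.sign v with h2 | h2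
    · exact absurd (h1.trans h2.symm) h
    · rw [h1, h2]
    · rw [h1, h2]; norm_num
    · exact absurd (h1.trans h2.symm) h
  set y' : V → ℤ := fun v => if v ∈ E then - y v else y v with hy'
  have hyE : ∀ v, v ∈ E → y' v = - y v := fun v h => by simp only [hy']; rw [if_pos h]
  have hyN : ∀ v, v ∉ E → y' v = y v := fun v h => by simp only [hy']; rw [if_neg h]
  set c : V → ℕ := fun v => if v ∈ Dfc π A y then C v else 1 with hc
  have hcD : ∀ v, v ∈ Dfc π A y → c v = C v := fun v h => by simp only [hc]; rw [if_pos h]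
  have hcE : ∀ v, v ∈ E → c v = 1 := fun v h => by
    simp only [hc]; rw [if_neg fun h' => Finset.disjoint_left.1 hDE h' h]
  set e : V → ℤ := fun v => if v ∈ Dfc π A y then ε v else sg (p v (π v)) with he
  have heD : ∀ v, v ∈ Dfc π A y → e v = ε v := fun v h => by simp only [he]; rw [if_pos h]
  have heE : ∀ v, v ∈ E → e v = sg (p v (π v)) := fun v h => by
    simp only [he]; rw [if_neg fun h' => Finset.disjoint_left.1 hDE h' h]
  -- the different places
  have hEend : ∀ a ∈ E, ∀ i ≤ c a, (π ^ i) a ∈ ends p := by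
    intro a ha i hi
    rw [hcE a ha] at hi
    interval_cases i
    · rw [pow_zero]; exact hE1 a ha
    · rw [pow_one]; exact hE2 a ha
  have hw : ∀ a ∈ Dfc π A y ∪ E, ∀ a' ∈ Dfc π A y ∪ E, ∀ i ≤ c a, ∀ j ≤ c a',
      (π ^ i) a = (π ^ j) a' → a = a' ∧ i = j := by
    intro a ha a' ha' i hi j hj h
    rcases mem_union.1 ha with h1 | h1 <;> rcases mem_union.1 ha' with h2 | h2
    · rw [hcD a h1] at hi
      rw [hcD a' h2] at hj
      exact FlipE.win_uniq hA hpow (hDA a h1) (hDA a' h2) (hi.trans (hC a h1).2.1)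
        (hj.trans (hC a' h2).2.1) h
    · exfalso
      rw [hcD a h1] at hi
      refine hzone a (hDA a h1) i (hi.trans (hC a h1).2.1) ?_
      rw [h]
      exact hEend a' h2 j hj
    · exfalso
      rw [hcD a' h2] at hj
      refine hzone a' (hDA a' h2) j (hj.trans (hC a' h2).2.1) ?_
      rw [← h]
      exact hEend a h1 i hi
    · rw [hcE a h1] at hi
      rw [hcE a' h2] at hj
      have k1 := (hEm a).1 h1
      have k2 := (hEm a').1 h2
      have k1' := k1
      have k2' := k2
      rw [hp.symm] at k1' k2'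
      interval_cases i <;> interval_cases j
      · rw [pow_zero] at h
        exact ⟨h, rfl⟩
      · exfalso
        rw [pow_zero, pow_one] at h
        change a = π a' at h
        rw [← h] at k2'
        have := huni k1 k2'
        rw [this] at h
        exact hpp a h.symm
      · exfalso
        rw [pow_zero, pow_one] at h
        change π a = a' at h
        rw [h] at k1'
        have := huni k2 k1'
        rw [this] at h
        exact hpp a' h
      · rw [pow_one] at h
        exact ⟨π.injective h, rfl⟩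
  have hyD : ∀ v, π v ∉ Dfc π A y ∪ E → y' (π v) = - y' v := by
    intro v hv
    rw [mem_union, not_or] at hv
    rw [hyN _ hv.2]
    by_cases h : v ∈ E
    · have h1 := hy.markc v ((hEm v).1 h)
      rw [hyE v h, h1.1, h1.2.1, neg_neg]
    · rw [hyN v h]
      by_cases h2 : π v ∈ A
      · refine hy0 v (π v) fun h3 => hv.1 ?_
        exact mem_filter.2 ⟨h2, by rw [Equiv.symm_apply_apply]; exact h3⟩
      · exact hy.alt v h2 (by_contra fun h3 => h ((hEm v).2 h3))
  have hyD' : ∀ v, π v ∈ Dfc π A y ∪ E → y' (π v) = y' v := by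
    intro v hv
    rcases mem_union.1 hv with h | h
    · have h1 : v ∉ E := fun h' => hzone0 _ (hDA _ h) (hE2 v h')
      rw [hyN _ (Finset.disjoint_left.1 hDE h), hyN _ h1]
      have h2 := (mem_filter.1 h).2
      rw [Equiv.symm_apply_apply] at h2
      exact h2.symm
    · have h1 : v ∉ E := fun h' => hE3 v h' h
      have h2 : π v ∉ A := fun h' => hzone0 _ h' (hE1 _ h)
      rw [hyE _ h, hyN _ h1, hy.alt v h2 (by_contra fun h3 => h1 ((hEm v).2 h3)), neg_neg]
  have hc1 : ∀ a ∈ Dfc π A y ∪ E, 1 ≤ c a := by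
    intro a ha
    rcases mem_union.1 ha with h | h
    · rw [hcD a h]; exact (hC a h).1
    · rw [hcE a h]
  have hce : ∀ a ∈ Dfc π A y ∪ E, y' ((π ^ (c a)) a) = e a := by
    intro a ha
    rcases mem_union.1 ha with h | h
    · rw [hcD a h, heD a h, hyN _ fun h' => hzone a (hDA a h) (C a) (hC a h).2.1 (hE1 _ h')]
      exact (hC a h).2.2
    · rw [hcE a h, heE a h, pow_one, hyN _ (hE3 a h)]
      exact (hy.markc a ((hEm a).1 h)).2.1
  have hy's : ∀ v, y' v = 1 ∨ y' v = -1 := by
    intro v
    by_cases h : v ∈ E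
    · rw [hyE v h]
      rcases hy.sign v with h' | h' <;> rw [h'] <;> norm_num
    · rw [hyN v h]
      exact hy.sign v
  obtain ⟨x, h1, h2, h3, -, h5⟩ := FlipE.exists_flip_e hf.pi_ne c hw hy's hyD hyD' e hc1 hce
  refine ⟨x, h1, ?_, fun v => ?_⟩
  · intro v hv
    by_cases h : v ∈ E
    · have h4 := h3 v (mem_union_right _ h) 0 (by rw [hcE v h]; norm_num)
      rw [pow_zero] at h4
      change x v = - y' v at h4
      rw [h4, hyE v h, neg_neg]
    · rw [h2 v, hyN v h]
      intro a ha j hj he'
      rcases mem_union.1 ha with h4 | h4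
      · rw [hcD a h4] at hj
        exact hv a h4 j hj he'
      · rw [hcE a h4] at hj
        have : j = 0 := by omega
        subst this
        rw [pow_zero] at he'
        change v = a at he'
        exact h (he' ▸ h4)
  · have h6 := h5 v
    have h7 : ((((univ.filter fun u => (u = π v ∨ v = π u) ∧ x v = - x u).card : ℤ) * x v +
        ∑ a ∈ Dfc π A y ∪ E, e a * ((if v = (π ^ (c a - 1)) a then 1 else 0) +
          (if v = (π ^ (c a)) a then 1 else 0)) : ℤ) : ℝ) = ((2 * x v : ℤ) : ℝ) := by
      have e' := congrArg (fun z : ℤ => (z : ℝ)) h6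
      convert e' using 3
    rw [sum_union hDE] at h7
    have s1 : ∑ a ∈ Dfc π A y, e a * ((if v = (π ^ (c a - 1)) a then 1 else 0) +
          (if v = (π ^ (c a)) a then 1 else 0)) =
        ∑ a ∈ Dfc π A y, ε a * ((if v = (π ^ (C a - 1)) a then 1 else 0) +
          (if v = (π ^ (C a)) a then 1 else 0)) :=
      sum_congr rfl fun a ha => by rw [hcD a ha, heD a ha]
    have s2 : ∑ a ∈ E, e a * ((if v = (π ^ (c a - 1)) a then 1 else 0) +
          (if v = (π ^ (c a)) a then 1 else 0)) =
        (if v ∈ E then sg (p v (π v)) else 0) +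
          (if π.symm v ∈ E then sg (p (π.symm v) v) else 0) := by
      have t1 : ∀ a ∈ E, e a * ((if v = (π ^ (c a - 1)) a then 1 else 0) +
          (if v = (π ^ (c a)) a then 1 else 0)) =
          (if v = a then sg (p v (π v)) else 0) +
            (if π.symm v = a then sg (p (π.symm v) v) else 0) := by
        intro a ha
        rw [hcE a ha, heE a ha, Nat.sub_self, pow_zero, pow_one, Equiv.Perm.one_apply]
        have t2 : (v = π a) ↔ (π.symm v = a) := by rw [Equiv.symm_apply_eq]
        by_cases c1 : v = a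
        · have c2 : ¬ v = π a := fun h => hpp' a (by rw [← h, c1])
          rw [if_pos c1, if_neg c2, if_pos c1, if_neg fun h => c2 (t2.2 h), c1]
          ring
        · rw [if_neg c1, if_neg c1]
          by_cases c2 : v = π a
          · have c3 := t2.1 c2
            rw [if_pos c2, if_pos c3, c3, ← c2]
            ring
          · rw [if_neg c2, if_neg fun h => c2 (t2.2 h)]
            ring
      rw [sum_congr rfl t1, sum_add_distrib, sum_ite_eq, sum_ite_eq]
    rw [s1, s2] at h7
    simp only [Int.cast_add, Int.cast_mul, Int.cast_sum, Int.cast_natCast, Int.cast_ite,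
      Int.cast_one, Int.cast_zero, Int.cast_ofNat] at h7
    -- the charge of the mark
    have key : (if v ∈ ends p then 2 * chm μ p v else 0) =
        ((if v ∈ E then (sg (p v (π v)) : ℝ) else 0) +
          (if π.symm v ∈ E then (sg (p (π.symm v) v) : ℝ) else 0)) + ∑ u, p v u := by
      by_cases hv : v ∈ ends p
      · rw [if_pos hv]
        obtain ⟨u, hu⟩ := (mem_filter.1 hv).2
        have hsum : ∑ u, p v u = p v u := by
          refine sum_eq_single u (fun u' _ hne => ?_) fun h => absurd (mem_univ _) h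
          by_contra h
          exact hne (huni hu h)
        have hchm : chm μ p v = if u = μ v then p v u / 2 else
            (sg (p v u) : ℝ) * (1 - |p v u|) / 2 := by
          unfold chm
          rw [sum_eq_single u]
          · rw [if_neg hu]
          · intro u' _ hne
            rw [if_pos]
            by_contra h
            exact hne (huni hu h)
          · intro h
            exact absurd (mem_univ _) h
        have hsg : (sg (p v u) : ℝ) * |p v u| = - p v u := by
          unfold sg
          split_ifs with h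
          · rw [abs_of_pos h]; push_cast; ring
          · rw [abs_of_nonpos (not_lt.1 h)]; push_cast; ring
        rw [hsum, hchm]
        have hadj := (hf.adj v u).1 (hp.adj v u hu)
        have hE' : π.symm v ∈ E ↔ p v (π.symm v) ≠ 0 := by
          rw [hEm, Equiv.apply_symm_apply, hp.symm]
        rcases hadj with h | h | h
        · have a1 : v ∉ E := fun h' => hf.mu_ne v (by
            rw [← h]; exact (huni hu ((hEm v).1 h')).symm)
          have a2 : π.symm v ∉ E := fun h' => hf.mu_ne' v (by
            rw [← h]; exact (huni hu (hE'.1 h')).symm)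
          rw [if_pos h, if_neg a1, if_neg a2]
          ring
        · have a1 : v ∈ E := (hEm v).2 (h ▸ hu)
          have a2 : π.symm v ∉ E := fun h' => hf.pi_ne v (by
            rw [← h]; exact (huni hu (hE'.1 h')).symm)
          have a3 : u ≠ μ v := fun h' => hf.mu_ne v (h'.symm.trans h)
          rw [if_neg a3, if_pos a1, if_neg a2, ← h]
          linarith
        · have a1 : v ∉ E := fun h' => hf.pi_ne v (by
            rw [← h]; exact huni hu ((hEm v).1 h'))
          have a2 : π.symm v ∈ E := hE'.2 (h ▸ hu)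
          have a3 : u ≠ μ v := fun h' => hf.mu_ne' v (h'.symm.trans h)
          rw [if_neg a3, if_neg a1, if_pos a2, ← h, hp.symm u v]
          linarith
      · have a0 : ∀ u, p v u = 0 := fun u => by_contra fun h => hv (hmem h)
        have a1 : v ∉ E := fun h => hv (hE1 v h)
        have a2 : π.symm v ∉ E := fun h => hv (by
          have := hE2 _ h
          rwa [Equiv.apply_symm_apply] at this)
        rw [if_neg hv, if_neg a1, if_neg a2, sum_congr rfl fun u _ => a0 u]
        simp
    rw [key]
    linarith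

end Pool.Agent.K5
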