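import Mathlib
import Pool.Agent.Work.MP_974d84_co_k5.DefsE
import Pool.Agent.Work.MP_974d84_co_k5.LocalW

/-!
# E5: the flows of the ends of the marked edges and their loads
-/

set_option linter.unusedSectionVars false

namespace Pool.Agent.K5

open Finset SimpleGraph Pool.Agent.Exp Pool.Agent.Log5 Pool.Agent.Log5.Clu

namespace LoadsE

open LocalW

variable {V : Type} [Fintype V] [DecidableEq V] {G : SimpleGraph V} [DecidableRel G.Adj]
  {μ : V → V} {π : Equiv.Perm V}

open Classical in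
/-- The flow of a tree, with or without the edge at the root, with exact values. -/
theorem end_flow_e (hf : Frame G μ π) {k j₀ : ℕ} (hg : Gir G k) (hk : 4 * j₀ + 12 ≤ k) (v : V)
    (full : Prop) : ∃ φ : V → V → ℝ,
      (∀ u u', φ u u' = - φ u' u) ∧
      (∀ u u', φ u u' ≠ 0 → (u' = μ u ∧ ∃ c : List Bool, c.length ≤ j₀ ∧
            (u = TT μ π v c ∨ u' = TT μ π v c) ∧ |φ u u'| ≤ 1 / 2 ^ c.length ∧
            (¬ full → c ≠ [])) ∨
        (∃ (c : List Bool) (b : Bool), c.length < j₀ ∧ u = TT μ π v c ∧ u' = stp π b u ∧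
          φ u u' = 1 / 2 ^ (c.length + 1)) ∨
        ∃ (c : List Bool) (b : Bool), c.length < j₀ ∧ u' = TT μ π v c ∧ u = stp π b u' ∧
          φ u u' = - (1 / 2 ^ (c.length + 1))) ∧
      ∀ u, ∑ u', φ u u' = (if u = (if full then v else μ v) then 1 else 0) -
        (if ∃ c : List Bool, c.length = j₀ ∧ u = TT μ π v c then 1 / 2 ^ j₀ else 0) := by
  classical
  have hu : ∀ w w' : List (Option Bool), Red w → Red w' → w.length + w'.length + 1 < k →
      act μ π w v = act μ π w' v → w = w' := fun _ _ h1 h2 h3 h4 => act_uniq hf hg h1 h2 h3 h4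
  have hmm := hf.mu_mu
  -- the vertices of the tree are distinct
  have T1 : ∀ c c' : List Bool, c.length ≤ j₀ → c'.length ≤ j₀ →
      TT μ π v c = TT μ π v c' → c = c' := by
    intro c c' hc hc' h
    rw [← act_tr v c, ← act_tr v c'] at h
    have h1 := hu _ _ (red_tr c) (red_tr c') (by
      simp only [List.length_cons, length_tr]; omega) h
    exact tr_inj (List.cons.inj h1).2
  have T2 : ∀ (c c' : List Bool) (b : Bool), c.length ≤ j₀ → c'.length ≤ j₀ →
      stp π b (TT μ π v c) ≠ TT μ π v c' := by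
    intro c c' b hc hc' h
    rw [← act_tr v c, ← act_tr v c'] at h
    have h1 := hu (some b :: none :: tr c) _ (red_some b c) (red_tr c') (by
      simp only [List.length_cons, length_tr]; omega) h
    have h2 := congrArg List.length h1
    simp only [List.length_cons, length_tr] at h2
    omega
  have T3 : ∀ c : List Bool, c.length ≤ j₀ → TT μ π v c ≠ v := by
    intro c hc h
    rw [← act_tr v c] at h
    have h1 := hu (none :: tr c) [] (red_tr c) (by unfold Red; simp) (by
      simp only [List.length_cons, length_tr, List.length_nil]; omega) h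
    simp at h1
  have T5 : ∀ c c' : List Bool, c.length ≤ j₀ → c'.length ≤ j₀ →
      μ (TT μ π v c) ≠ TT μ π v c' := by
    intro c c' hc hc' h
    cases c with
    | nil =>
      have : μ (TT μ π v []) = v := hmm v
      rw [this] at h
      exact T3 c' hc' h.symm
    | cons b c =>
      have : μ (TT μ π v (b :: c)) = stp π b (TT μ π v c) := hmm _
      rw [this] at h
      exact T2 c c' b (by simp only [List.length_cons] at hc; omega) hc' h
  have hst : ∀ (b : Bool) (a : V), stp π b a ≠ μ a := by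
    intro b a h
    cases b
    · exact hf.mu_ne' a h.symm
    · exact hf.mu_ne a h.symm
  have hss : ∀ (b b' : Bool) (a : V), stp π b a = stp π b' a → b = b' := by
    intro b b' a h
    cases b <;> cases b'
    · rfl
    · exact absurd h.symm (hf.pi_ne a)
    · exact absurd h (hf.pi_ne a)
    · rfl
  have hsn : ∀ (b : Bool) (a : V), a ≠ stp π b a := by
    intro b a h
    have h1 : G.Adj a (stp π b a) := by
      rw [hf.adj]
      cases b
      · exact Or.inr (Or.inr rfl)
      · exact Or.inr (Or.inl rfl)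
    rw [← h] at h1
    exact G.irrefl h1
  let cf : List Bool → ℝ := fun c => if c = [] ∧ ¬ full then 0 else 1 / 2 ^ c.length
  let A : V → V → ℝ := fun u u' =>
    ∑ c ∈ wl (j₀ + 1), cf c * Ea (μ (TT μ π v c)) (TT μ π v c) u u'
  let B : V → V → ℝ := fun u u' => ∑ p ∈ wl j₀ ×ˢ (univ : Finset Bool),
    1 / 2 ^ (p.1.length + 1) * Ea (TT μ π v p.1) (stp π p.2 (TT μ π v p.1)) u u'
  let w : V → ℝ := fun u => ∑ c ∈ wd j₀, if u = TT μ π v c then 1 / 2 ^ j₀ else 0
  have hAanti : ∀ u u', A u u' = - A u' u := by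
    intro u u'
    simp only [A]
    rw [← sum_neg_distrib]
    refine sum_congr rfl fun c _ => ?_
    rw [Ea_anti]; ring
  have hBanti : ∀ u u', B u u' = - B u' u := by
    intro u u'
    simp only [B]
    rw [← sum_neg_distrib]
    refine sum_congr rfl fun c _ => ?_
    rw [Ea_anti]; ring
  have hcf : ∀ c, |cf c| ≤ 1 / 2 ^ c.length := by
    intro c
    simp only [cf]
    split_ifs
    · rw [abs_zero]
      positivity
    · rw [abs_of_nonneg (by positivity)]
  -- the values of `A`
  have hA1 : ∀ u u', A u u' ≠ 0 → u' = μ u ∧ ∃ c : List Bool, c.length ≤ j₀ ∧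
      (u = TT μ π v c ∨ u' = TT μ π v c) ∧ |A u u'| ≤ 1 / 2 ^ c.length ∧
      (¬ full → c ≠ []) := by
    intro u u' h
    obtain ⟨c, hc, hne0⟩ := exists_ne_zero_of_sum_ne_zero h
    have hcl : c.length ≤ j₀ := by
      have := mem_wl.1 hc
      omega
    have hE : Ea (μ (TT μ π v c)) (TT μ π v c) u u' ≠ 0 := right_ne_zero_of_mul hne0
    have hcne : cf c ≠ 0 := left_ne_zero_of_mul hne0
    have hsing : A u u' = cf c * Ea (μ (TT μ π v c)) (TT μ π v c) u u' := by
      refine sum_eq_single c (fun c' hc' hcc' => ?_) fun h' => absurd hc h'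
      have hcl' : c'.length ≤ j₀ := by
        have := mem_wl.1 hc'
        omega
      by_contra hcon
      have hE' := right_ne_zero_of_mul hcon
      rcases Ea_ne hE with ⟨h1, h2⟩ | ⟨h1, h2⟩ <;> rcases Ea_ne hE' with ⟨h3, h4⟩ | ⟨h3, h4⟩
      · exact hcc' (T1 c' c hcl' hcl (h4.symm.trans h2))
      · exact T5 c c' hcl hcl' (h1.symm.trans h3)
      · exact T5 c' c hcl' hcl (h3.symm.trans h1)
      · exact hcc' (T1 c' c hcl' hcl (h3.symm.trans h1))
    have hval : |A u u'| ≤ 1 / 2 ^ c.length := by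
      rw [hsing, abs_mul]
      have h2 := Ea_abs (μ (TT μ π v c)) (TT μ π v c) u u'
      calc |cf c| * |Ea (μ (TT μ π v c)) (TT μ π v c) u u'|
          ≤ 1 / 2 ^ c.length * 1 := mul_le_mul (hcf c) h2 (abs_nonneg _) (by positivity)
        _ = 1 / 2 ^ c.length := by ring
    have hfull : ¬ full → c ≠ [] := by
      intro h1 h2
      apply hcne
      simp only [cf]
      rw [if_pos ⟨h2, h1⟩]
    rcases Ea_ne hE with ⟨h1, h2⟩ | ⟨h1, h2⟩
    · refine ⟨?_, c, hcl, Or.inr h2, hval, hfull⟩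
      rw [h1, h2, hmm]
    · refine ⟨?_, c, hcl, Or.inl h1, hval, hfull⟩
      rw [h1, h2]
  -- the values of `B`
  have hBval : ∀ (c : List Bool) (b : Bool), c.length < j₀ →
      B (TT μ π v c) (stp π b (TT μ π v c)) = 1 / 2 ^ (c.length + 1) := by
    intro c b hc
    have hmem : (c, b) ∈ wl j₀ ×ˢ (univ : Finset Bool) :=
      mem_product.2 ⟨mem_wl.2 hc, mem_univ _⟩
    have hsing : B (TT μ π v c) (stp π b (TT μ π v c)) = 1 / 2 ^ (c.length + 1) *
        Ea (TT μ π v c) (stp π b (TT μ π v c)) (TT μ π v c) (stp π b (TT μ π v c)) := by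
      refine sum_eq_single (c, b) (fun p hp hpp => ?_) fun h' => absurd hmem h'
      have hpl : p.1.length < j₀ := mem_wl.1 (mem_product.1 hp).1
      by_contra hcon
      rcases Ea_ne (right_ne_zero_of_mul hcon) with ⟨h1, h2⟩ | ⟨h1, h2⟩
      · have h3 : c = p.1 := T1 c p.1 hc.le hpl.le h1
        rw [← h3] at h2
        have h4 := hss b p.2 _ h2
        exact hpp (Prod.ext h3.symm h4.symm)
      · exact T2 c p.1 b hc.le hpl.le h2
    rw [hsing, Ea_one (hsn b _), mul_one]
  have hB1 : ∀ u u', B u u' ≠ 0 →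
      (∃ (c : List Bool) (b : Bool), c.length < j₀ ∧ u = TT μ π v c ∧ u' = stp π b u ∧
          B u u' = 1 / 2 ^ (c.length + 1)) ∨
        ∃ (c : List Bool) (b : Bool), c.length < j₀ ∧ u' = TT μ π v c ∧ u = stp π b u' ∧
          B u u' = - (1 / 2 ^ (c.length + 1)) := by
    intro u u' h
    obtain ⟨p, hp, hne0⟩ := exists_ne_zero_of_sum_ne_zero h
    have hpl : p.1.length < j₀ := mem_wl.1 (mem_product.1 hp).1
    rcases Ea_ne (right_ne_zero_of_mul hne0) with ⟨h1, h2⟩ | ⟨h1, h2⟩
    · left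
      refine ⟨p.1, p.2, hpl, h1, by rw [h1, h2], ?_⟩
      rw [h1, h2]
      exact hBval p.1 p.2 hpl
    · right
      refine ⟨p.1, p.2, hpl, h2, by rw [h1, h2], ?_⟩
      rw [hBanti, h1, h2, hBval p.1 p.2 hpl]
  have hAB : ∀ u u', B u u' ≠ 0 → A u u' = 0 := by
    intro u u' h
    by_contra hA0
    have h1 := (hA1 u u' hA0).1
    rcases hB1 u u' h with ⟨c, b, -, -, h2, -⟩ | ⟨c, b, -, -, h2, -⟩
    · exact hst b u (h2.symm.trans h1)
    · have h3 : μ u' = u := by rw [h1, hmm]
      exact hst b u' (h2.symm.trans h3.symm)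
  refine ⟨fun u u' => A u u' + B u u', ?_, ?_, ?_⟩
  · intro u u'
    simp only
    rw [hAanti, hBanti]; ring
  · intro u u' h
    simp only at h ⊢
    by_cases hB0 : B u u' = 0
    · rw [hB0, add_zero] at h ⊢
      exact Or.inl (hA1 u u' h)
    · rw [hAB u u' hB0, zero_add]
      exact Or.inr (hB1 u u' hB0)
  · intro u
    simp only
    have hwu : w u = if ∃ c : List Bool, c.length = j₀ ∧ u = TT μ π v c then 1 / 2 ^ j₀ else 0 := by
      by_cases hex : ∃ c : List Bool, c.length = j₀ ∧ u = TT μ π v c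
      · rw [if_pos hex]
        obtain ⟨c, hcl, h1⟩ := hex
        have : w u = if u = TT μ π v c then 1 / 2 ^ j₀ else 0 := by
          refine sum_eq_single c (fun c' hc' hcc' => ?_) fun h' => absurd (mem_wd.2 hcl) h'
          have hcl' := mem_wd.1 hc'
          rw [if_neg]
          intro h2
          exact hcc' (T1 c' c hcl'.le hcl.le (h2.symm.trans h1))
        rw [this, if_pos h1]
      · rw [if_neg hex]
        push Not at hex
        exact sum_eq_zero fun c hc => by rw [if_neg (hex c (mem_wd.1 hc))]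
    have hA2 : ∑ u', A u u' = ∑ c ∈ wl (j₀ + 1), cf c *
        ((if u = μ (TT μ π v c) then 1 else 0) - (if u = TT μ π v c then 1 else 0)) := by
      simp only [A]
      rw [sum_comm]
      refine sum_congr rfl fun c _ => ?_
      rw [← mul_sum, sum_Ea]
    have hA6 : ∑ c ∈ wl (j₀ + 1), cf c *
        ((if u = μ (TT μ π v c) then (1 : ℝ) else 0) - (if u = TT μ π v c then 1 else 0)) =
        ∑ c ∈ wl (j₀ + 1), 1 / 2 ^ c.length *
        ((if u = μ (TT μ π v c) then (1 : ℝ) else 0) - (if u = TT μ π v c then 1 else 0)) -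
        (if full then 0 else (if u = v then 1 else 0) - (if u = μ v then 1 else 0)) := by
      rw [sum_wl_succ', sum_wl_succ']
      have h1 : ∀ (b : Bool) (c : List Bool), cf (b :: c) = 1 / 2 ^ (b :: c).length := by
        intro b c
        simp only [cf]
        rw [if_neg]
        rintro ⟨h, -⟩
        exact List.cons_ne_nil _ _ h
      have h2 : cf [] = if full then 1 else 0 := by
        show (if ([] : List Bool) = [] ∧ ¬ full then (0 : ℝ) else 1 / 2 ^ ([] : List Bool).length) = _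
        by_cases h : full
        · rw [if_neg (fun h' => h'.2 h), if_pos h]
          simp
        · rw [if_pos ⟨rfl, h⟩, if_neg h]
      have h3 : μ (TT μ π v []) = v := hmm v
      have h4 : TT μ π v [] = μ v := rfl
      rw [h2, h3, h4]
      simp only [h1]
      by_cases h : full
      · rw [if_pos h, if_pos h]
        simp
      · rw [if_neg h, if_neg h]
        simp only [List.length_nil, pow_zero]
        ring
    have hB2 : ∑ u', B u u' = ∑ c ∈ wl j₀, ∑ b : Bool, 1 / 2 ^ (c.length + 1) *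
        ((if u = TT μ π v c then 1 else 0) - (if u = stp π b (TT μ π v c) then 1 else 0)) := by
      simp only [B]
      rw [sum_comm, sum_product]
      refine sum_congr rfl fun c _ => sum_congr rfl fun b _ => ?_
      rw [← mul_sum, sum_Ea]
    have hA3 : ∑ c ∈ wl (j₀ + 1), (1 : ℝ) / 2 ^ c.length *
        (if u = μ (TT μ π v c) then 1 else 0) = (if u = v then 1 else 0) +
        ∑ c ∈ wl j₀, ∑ b : Bool, 1 / 2 ^ (c.length + 1) *
          (if u = stp π b (TT μ π v c) then 1 else 0) := by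
      rw [sum_wl_succ']
      congr 1
      · have : μ (TT μ π v []) = v := hmm v
        rw [this]
        simp
      · refine sum_congr rfl fun c _ => ?_
        have h1 : ∀ b, μ (TT μ π v (b :: c)) = stp π b (TT μ π v c) := fun b => hmm _
        rw [Fintype.sum_bool, h1, h1]
        simp only [List.length_cons]
    have hA4 : ∑ c ∈ wl (j₀ + 1), (1 : ℝ) / 2 ^ c.length *
        (if u = TT μ π v c then 1 else 0) = ∑ c ∈ wl j₀, (1 : ℝ) / 2 ^ c.length *
        (if u = TT μ π v c then 1 else 0) + w u := by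
      rw [sum_wl_succ]
      congr 1
      simp only [w]
      refine sum_congr rfl fun c hc => ?_
      rw [mem_wd.1 hc]
      split_ifs <;> simp
    have hB3 : ∑ c ∈ wl j₀, ∑ _b : Bool, (1 : ℝ) / 2 ^ (c.length + 1) *
        (if u = TT μ π v c then 1 else 0) = ∑ c ∈ wl j₀, (1 : ℝ) / 2 ^ c.length *
        (if u = TT μ π v c then 1 else 0) := by
      refine sum_congr rfl fun c _ => ?_
      rw [Fintype.sum_bool, pow_succ]
      have h2 : (0 : ℝ) < 2 ^ c.length := by positivity
      field_simp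
      ring
    rw [sum_add_distrib, hA2, hA6, hB2, ← hwu]
    simp only [mul_sub, sum_sub_distrib]
    rw [hA3, hA4, hB3]
    by_cases h : full
    · rw [if_pos h, if_pos h]
      ring
    · rw [if_neg h, if_neg h]
      ring

variable {p : V → V → ℝ} {D : ℕ}

theorem mem_ends {u : V} : u ∈ ends p ↔ ∃ v, p u v ≠ 0 := by
  unfold ends
  rw [mem_filter]
  exact ⟨fun h => h.2, fun h => ⟨mem_univ _, h⟩⟩

/-- Every vertex is the end of at most one marked edge. -/
theorem mark_one (hp : Marks G p) (hD : FarM G D p) {u v v' : V} (h : p u v ≠ 0)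
    (h' : p u v' ≠ 0) : v' = v := by
  rcases hD u v u v' h h' (Bl_self D u) with ⟨-, h1⟩ | ⟨h1, -⟩
  · exact h1
  · exact absurd h1 (hp.adj u v h).ne

/-- The row sum of the marks. -/
theorem sum_mark (hp : Marks G p) (hD : FarM G D p) {u v : V} (h : p u v ≠ 0) :
    ∑ v', p u v' = p u v := by
  refine sum_eq_single v (fun v' _ hne => ?_) fun h => absurd (mem_univ v) h
  by_contra h0
  exact hne (mark_one hp hD h h0)

theorem rtm_third {u : V} (h : p u (μ u) ≠ 0) : rtm μ p u = μ u := if_neg h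

theorem rtm_circ {u : V} (h : p u (μ u) = 0) : rtm μ p u = u := if_pos h

/-- The charge of an end of a marked third edge. -/
theorem chm_third (hp : Marks G p) (hD : FarM G D p) {u : V} (h : p u (μ u) ≠ 0) :
    chm μ p u = p u (μ u) / 2 := by
  unfold chm
  rw [sum_eq_single (μ u)]
  · rw [if_neg h, if_pos rfl]
  · intro v _ hne
    rw [if_pos]
    by_contra h0
    exact hne (mark_one hp hD h h0)
  · exact fun h => absurd (mem_univ _) h

/-- The charge of an end of a marked circuit edge. -/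
theorem chm_circ (hp : Marks G p) (hD : FarM G D p) {u v : V} (h : p u v ≠ 0) (hv : v ≠ μ u) :
    chm μ p u = (sg (p u v) : ℝ) * (1 - |p u v|) / 2 := by
  unfold chm
  rw [sum_eq_single v]
  · rw [if_neg h, if_neg hv]
  · intro v' _ hne
    rw [if_pos]
    by_contra h0
    exact hne (mark_one hp hD h h0)
  · exact fun h => absurd (mem_univ _) h

theorem sg_cases (t : ℝ) : sg t = 1 ∨ sg t = -1 := by
  unfold sg
  split_ifs
  · exact Or.inr rfl
  · exact Or.inl rfl

theorem sg_mul_abs {t : ℝ} : -(sg t : ℝ) * |t| = t := by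
  unfold sg
  split_ifs with h
  · rw [abs_of_pos h]
    push_cast
    ring
  · rw [abs_of_nonpos (not_lt.1 h)]
    push_cast
    ring

/-- The sign and the size of the charge of an end, and the favourable tree. -/
theorem mark_sign (hf : Frame G μ π) (hp : Marks G p) (hD : FarM G D p) {J q M : ℕ}
    {A : Finset V} {y : V → ℤ} (hy : PatternE μ π J q M A p y) {u : V} (hu : u ∈ ends p) :
    ∃ (s : ℤ) (m : ℝ), (s = 1 ∨ s = -1) ∧ 0 ≤ m ∧ m ≤ 4 / 5 ∧ 2 * chm μ p u = s * m ∧
      Fav μ π J y s (rtm μ p u) := by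
  obtain ⟨v, hv⟩ := mem_ends.1 hu
  by_cases h : p u (μ u) = 0
  · have hne : v ≠ μ u := fun h' => hv (by rw [h', h])
    refine ⟨sg (p u v), 1 - |p u v|, sg_cases _, ?_, ?_, ?_, ?_⟩
    · rcases hp.val u v hv with h1 | h1 <;> rw [h1] <;> norm_num
    · rcases hp.val u v hv with h1 | h1 <;> rw [h1] <;> norm_num
    · rw [chm_circ hp hD hv hne]
      ring
    · rw [rtm_circ h]
      have hadj := (hf.adj u v).1 (hp.adj u v hv)
      rcases hadj with h1 | h1 | h1
      · exact absurd h1 hne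
      · rw [h1] at hv ⊢
        exact (hy.markc u hv).2.2.1
      · have h2 : π v = u := by rw [h1, Equiv.apply_symm_apply]
        have h3 : p v (π v) = p u v := by rw [h2, hp.symm]
        have h4 := (hy.markc v (by rw [h3]; exact hv)).2.2.2
        rw [h3, h2] at h4
        exact h4
  · have hvu : v = μ u := mark_one hp hD h hv
    refine ⟨- sg (p u (μ u)), |p u (μ u)|, ?_, abs_nonneg _, ?_, ?_, ?_⟩
    · rcases sg_cases (p u (μ u)) with h1 | h1 <;> rw [h1] <;> norm_num
    · rcases hp.val u (μ u) h with h1 | h1 <;> rw [h1] <;> norm_num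
    · rw [chm_third hp hD h]
      have := sg_mul_abs (t := p u (μ u))
      push_cast
      linarith
    · rw [rtm_third h]
      have h1 : p (μ u) (μ (μ u)) = p u (μ u) := by rw [hf.mu_mu, hp.symm]
      have h2 := hy.markt (μ u) (by rw [h1]; exact h)
      rw [h1] at h2
      exact h2

/-- **The flow of the end `u` of a marked edge.** -/
theorem mark_flow (hf : Frame G μ π) {k jm : ℕ} (hg : Gir G k) (hk : 4 * jm + 12 ≤ k)
    (p : V → V → ℝ) (u : V) : ∃ φ : V → V → ℝ, (∀ a a', φ a a' = - φ a' a) ∧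
      (∀ a a', φ a a' ≠ 0 → (a' = μ a ∧ ∃ c : List Bool, c.length ≤ jm ∧
            (a = TT μ π (rtm μ p u) c ∨ a' = TT μ π (rtm μ p u) c) ∧
            |φ a a'| ≤ 1 / 2 ^ c.length ∧ (p u (μ u) ≠ 0 → c ≠ [])) ∨
        (∃ (c : List Bool) (b : Bool), c.length < jm ∧ a = TT μ π (rtm μ p u) c ∧
          a' = stp π b a ∧ φ a a' = 1 / 2 ^ (c.length + 1)) ∨
        ∃ (c : List Bool) (b : Bool), c.length < jm ∧ a' = TT μ π (rtm μ p u) c ∧
          a = stp π b a' ∧ φ a a' = - (1 / 2 ^ (c.length + 1))) ∧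
      ∀ a, ∑ a', φ a a' = (if a = u then 1 else 0) - wmm μ π p jm u a := by
  classical
  obtain ⟨φ, h1, h2, h3⟩ := end_flow_e hf (j₀ := jm) hg hk (rtm μ p u) (p u (μ u) = 0)
  refine ⟨φ, h1, h2, fun a => ?_⟩
  rw [h3 a]
  have h4 : (if p u (μ u) = 0 then rtm μ p u else μ (rtm μ p u)) = u := by
    by_cases h : p u (μ u) = 0
    · rw [if_pos h, rtm_circ h]
    · rw [if_neg h, rtm_third h, hf.mu_mu]
  unfold wmm
  rw [h4]

/-- The load of an edge: the strands and a flow of a favourable tree. -/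
theorem load_e (hf : Frame G μ π) {J j₀ : ℕ} {x y : V → ℤ}
    (hx : ∀ v, x v = 1 ∨ x v = -1) {s : ℤ} (hs : s = 1 ∨ s = -1) {v : V}
    (hfav : Fav μ π J y s v)
    (hxy : ∀ c : List Bool, c.length < J → x (TT μ π v c) = y (TT μ π v c))
    {t : ℝ} {u u' : V}
    (h : (u' = μ u ∧ |t| ≤ 1) ∨
        (∃ (c : List Bool) (b : Bool), c.length < j₀ ∧ u = TT μ π v c ∧ u' = stp π b u ∧
          t = 1 / 2 ^ (c.length + 1)) ∨
        ∃ (c : List Bool) (b : Bool), c.length < j₀ ∧ u' = TT μ π v c ∧ u = stp π b u' ∧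
          t = - (1 / 2 ^ (c.length + 1))) :
    |(if (u' = π u ∨ u = π u') ∧ x u = - x u' then (x u : ℝ) else 0) + (s : ℝ) * t| ≤
      1 + 1 / 2 ^ (J + 1) := by
  classical
  have hδ : (0 : ℝ) < 1 / 2 ^ (J + 1) := by positivity
  have hx1 : ∀ v, |(x v : ℝ)| = 1 := by
    intro v
    rcases hx v with h | h <;> rw [h] <;> simp
  have hs1 : |(s : ℝ)| = 1 := by
    rcases hs with h | h <;> rw [h] <;> simp
  have hsm : |(if (u' = π u ∨ u = π u') ∧ x u = - x u' then (x u : ℝ) else 0)| ≤ 1 := by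
    split_ifs
    · rw [hx1]
    · rw [abs_zero]
      norm_num
  have hpow : ∀ n : ℕ, (0 : ℝ) < 1 / 2 ^ (n + 1) ∧ (1 : ℝ) / 2 ^ (n + 1) ≤ 1 := by
    intro n
    refine ⟨by positivity, ?_⟩
    rw [div_le_one (by positivity)]
    exact one_le_pow₀ (by norm_num)
  have hpowJ : ∀ n : ℕ, J ≤ n → (1 : ℝ) / 2 ^ (n + 1) ≤ 1 / 2 ^ (J + 1) := by
    intro n hn
    exact one_div_le_one_div_of_le (by positivity) (pow_le_pow_right₀ (by norm_num) (by omega))
  rcases h with ⟨h, ht⟩ | ⟨c, b, hc, hu, hu', hv⟩ | ⟨c, b, hc, hu', hu, hv⟩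
  · have hna : ¬ ((u' = π u ∨ u = π u') ∧ x u = - x u') := by
      rintro ⟨h' | h', -⟩
      · exact hf.mu_ne u (h ▸ h')
      · refine hf.mu_ne' u ?_
        rw [← h, h', Equiv.symm_apply_apply]
    rw [if_neg hna, zero_add, abs_mul, hs1, one_mul]
    linarith
  · by_cases hJ : c.length < J
    · have hxu : x u = - s := by
        rw [hu, hxy c hJ, hfav c hJ]
      obtain ⟨p1, p2⟩ := hpow c.length
      rw [hv]
      split_ifs
      · rw [hxu]
        push_cast
        have e : -(s : ℝ) + (s : ℝ) * (1 / 2 ^ (c.length + 1))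
            = - ((s : ℝ) * (1 - 1 / 2 ^ (c.length + 1))) := by ring
        rw [e, abs_neg, abs_mul, hs1, one_mul, abs_of_nonneg (by linarith)]
        linarith
      · rw [zero_add, abs_mul, hs1, one_mul, abs_of_pos p1]
        linarith
    · have h1 := hpowJ c.length (by omega)
      obtain ⟨p1, p2⟩ := hpow c.length
      refine (abs_add_le _ _).trans (add_le_add hsm ?_)
      rw [abs_mul, hs1, one_mul, hv, abs_of_pos p1]
      exact h1
  · by_cases hJ : c.length < J
    · have hxu : x u' = - s := by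
        rw [hu', hxy c hJ, hfav c hJ]
      obtain ⟨p1, p2⟩ := hpow c.length
      rw [hv]
      split_ifs with hA
      · rw [hA.2, hxu]
        push_cast
        have e : - -(s : ℝ) + (s : ℝ) * -(1 / 2 ^ (c.length + 1))
            = (s : ℝ) * (1 - 1 / 2 ^ (c.length + 1)) := by ring
        rw [e, abs_mul, hs1, one_mul, abs_of_nonneg (by linarith)]
        linarith
      · rw [zero_add, abs_mul, hs1, one_mul, abs_neg, abs_of_pos p1]
        linarith
    · have h1 := hpowJ c.length (by omega)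
      obtain ⟨p1, p2⟩ := hpow c.length
      refine (abs_add_le _ _).trans (add_le_add hsm ?_)
      rw [abs_mul, hs1, one_mul, hv, abs_neg, abs_of_pos p1]
      exact h1

/-- The support of a flow `φ` of the end `u` of a marked edge. -/
def SupM (μ : V → V) (π : Equiv.Perm V) (p : V → V → ℝ) (jm : ℕ) (u : V) (φ : V → V → ℝ) :
    Prop :=
  ∀ a a', φ a a' ≠ 0 → (a' = μ a ∧ ∃ c : List Bool, c.length ≤ jm ∧
            (a = TT μ π (rtm μ p u) c ∨ a' = TT μ π (rtm μ p u) c) ∧
            |φ a a'| ≤ 1 / 2 ^ c.length ∧ (p u (μ u) ≠ 0 → c ≠ [])) ∨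
        (∃ (c : List Bool) (b : Bool), c.length < jm ∧ a = TT μ π (rtm μ p u) c ∧
          a' = stp π b a ∧ φ a a' = 1 / 2 ^ (c.length + 1)) ∨
        ∃ (c : List Bool) (b : Bool), c.length < jm ∧ a' = TT μ π (rtm μ p u) c ∧
          a = stp π b a' ∧ φ a a' = - (1 / 2 ^ (c.length + 1))

/-- **The load of the strands and the flow of the end of a marked edge.** -/
theorem load_m (hf : Frame G μ π) (hp : Marks G p) (hD : FarM G D p) {J q M jm : ℕ}
    {A : Finset V} {x y : V → ℤ} (hy : PatternE μ π J q M A p y)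
    (hx : ∀ v, x v = 1 ∨ x v = -1) {u : V} (hu : u ∈ ends p)
    (hxy : ∀ c : List Bool, c.length < J → x (TT μ π (rtm μ p u) c) = y (TT μ π (rtm μ p u) c))
    {φ : V → V → ℝ} (hφ : SupM μ π p jm u φ) (a a' : V) :
    |(if (a' = π a ∨ a = π a') ∧ x a = - x a' then (x a : ℝ) else 0) +
      2 * chm μ p u * φ a a'| ≤ 1 + 4 / 5 / 2 ^ (J + 1) := by
  classical
  obtain ⟨s, m, hs, hm0, hm1, hch, hfav⟩ := mark_sign hf hp hD hy hu
  have hx1 : ∀ v, |(x v : ℝ)| = 1 := by
    intro v
    rcases hx v with h | h <;> rw [h] <;> simp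
  set base : ℝ := if (a' = π a ∨ a = π a') ∧ x a = - x a' then (x a : ℝ) else 0 with hbase
  have hb : |base| ≤ 1 := by
    rw [hbase]
    split_ifs
    · rw [hx1]
    · rw [abs_zero]
      norm_num
  have hδ : (0 : ℝ) < 1 / 2 ^ (J + 1) := by positivity
  have e0 : (4 : ℝ) / 5 / 2 ^ (J + 1) = 4 / 5 * (1 / 2 ^ (J + 1)) := by ring
  rw [hch, e0]
  by_cases h0 : φ a a' = 0
  · rw [h0, mul_zero, add_zero]
    have : 0 < 4 / 5 * (1 / (2 : ℝ) ^ (J + 1)) := by positivity
    linarith
  · have h1 : |base + (s : ℝ) * φ a a'| ≤ 1 + 1 / 2 ^ (J + 1) := by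
      refine load_e hf (J := J) (j₀ := jm) hx hs hfav hxy ?_
      rcases hφ a a' h0 with ⟨h1, c, -, -, h4, -⟩ | h1 | h1
      · refine Or.inl ⟨h1, h4.trans ?_⟩
        rw [div_le_one (by positivity)]
        exact one_le_pow₀ (by norm_num)
      · exact Or.inr (Or.inl h1)
      · exact Or.inr (Or.inr h1)
    have e1 : base + (s : ℝ) * m * φ a a' = (1 - m) * base + m * (base + (s : ℝ) * φ a a') := by
      ring
    rw [e1]
    refine (abs_add_le _ _).trans ?_
    rw [abs_mul, abs_mul, abs_of_nonneg (show (0 : ℝ) ≤ 1 - m by linarith), abs_of_nonneg hm0]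
    have h2 : (1 - m) * |base| ≤ (1 - m) * 1 := mul_le_mul_of_nonneg_left hb (by linarith)
    have h3 : m * |base + (s : ℝ) * φ a a'| ≤ m * (1 + 1 / 2 ^ (J + 1)) :=
      mul_le_mul_of_nonneg_left h1 hm0
    have h4 : m * (1 / 2 ^ (J + 1)) ≤ 4 / 5 * (1 / 2 ^ (J + 1)) :=
      mul_le_mul_of_nonneg_right hm1 hδ.le
    linarith

theorem TT_near_root (hf : Frame G μ π) (u : V) (c : List Bool) :
    TT μ π (μ u) c ∈ Bl G.Adj (2 * c.length) u := by
  induction c with
  | nil =>
    show μ (μ u) ∈ _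
    rw [hf.mu_mu]
    exact mem_Bl_zero.2 rfl
  | cons b c ih =>
    have h1 : stp π b (TT μ π (μ u) c) ∈ Bl G.Adj (2 * c.length + 1) u :=
      mem_Bl_succ.2 (Or.inr ⟨_, ih, stp_adj hf b _⟩)
    have h2 : μ (stp π b (TT μ π (μ u) c)) ∈ Bl G.Adj (2 * c.length + 1 + 1) u :=
      mem_Bl_succ.2 (Or.inr ⟨_, h1, mu_adj hf _⟩)
    exact Bl_mono (by simp only [List.length_cons]; omega) u h2

/-- A tree vertex of an end of a marked edge is near to the end. -/
theorem tree_near (hf : Frame G μ π) (u : V) (c : List Bool) :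
    TT μ π (rtm μ p u) c ∈ Bl G.Adj (2 * c.length + 1) u := by
  by_cases h : p u (μ u) = 0
  · rw [rtm_circ h]
    exact TT_mem_Bl hf u c
  · rw [rtm_third h]
    exact Bl_mono (by omega) u (TT_near_root hf u c)

/-- The edges which carry the flow of an end, seen from a vertex of the edge. -/
theorem supM_near (hf : Frame G μ π) {jm : ℕ} {u : V} {φ : V → V → ℝ}
    (hφ : SupM μ π p jm u φ) {a a' : V} (h0 : φ a a' ≠ 0) : ∃ n : ℕ, n ≤ jm ∧
      a ∈ Bl G.Adj (2 * n + 2) u ∧ a' ∈ Bl G.Adj (2 * n + 2) u ∧ G.Adj a a' ∧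
      |φ a a'| ≤ 1 / 2 ^ n := by
  rcases hφ a a' h0 with ⟨h1, c, hc, h2, h3, -⟩ | ⟨c, b, hc, h1, h2, h3⟩ | ⟨c, b, hc, h1, h2, h3⟩
  · refine ⟨c.length, hc, ?_, ?_, ?_, h3⟩
    · rcases h2 with h2 | h2
      · rw [h2]
        exact Bl_mono (by omega) u (tree_near hf u c)
      · have h4 : a = μ a' := by rw [h1, hf.mu_mu]
        rw [h4, h2]
        exact mem_Bl_succ.2 (Or.inr ⟨_, tree_near hf u c, mu_adj hf _⟩)
    · rcases h2 with h2 | h2
      · rw [h1, h2]
        exact mem_Bl_succ.2 (Or.inr ⟨_, tree_near hf u c, mu_adj hf _⟩)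
      · rw [h2]
        exact Bl_mono (by omega) u (tree_near hf u c)
    · rw [h1]
      exact mu_adj hf a
  · refine ⟨c.length, hc.le, ?_, ?_, ?_, ?_⟩
    · rw [h1]
      exact Bl_mono (by omega) u (tree_near hf u c)
    · rw [h2, h1]
      exact mem_Bl_succ.2 (Or.inr ⟨_, tree_near hf u c, stp_adj hf b _⟩)
    · rw [h2]
      exact stp_adj hf b a
    · rw [h3, abs_of_nonneg (by positivity)]
      exact one_div_le_one_div_of_le (by positivity) (pow_le_pow_right₀ (by norm_num) (by omega))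
  · refine ⟨c.length, hc.le, ?_, ?_, ?_, ?_⟩
    · rw [h2, h1]
      exact mem_Bl_succ.2 (Or.inr ⟨_, tree_near hf u c, stp_adj hf b _⟩)
    · rw [h1]
      exact Bl_mono (by omega) u (tree_near hf u c)
    · rw [h2]
      exact (stp_adj hf b a').symm
    · rw [h3, abs_neg, abs_of_nonneg (by positivity)]
      exact one_div_le_one_div_of_le (by positivity) (pow_le_pow_right₀ (by norm_num) (by omega))

/-- **Far from the end the load is small.** -/
theorem load_far (hf : Frame G μ π) (hp : Marks G p) (hD : FarM G D p) {J q M jm : ℕ}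
    {A : Finset V} {y : V → ℤ} (hy : PatternE μ π J q M A p y) {u : V} (hu : u ∈ ends p)
    {φ : V → V → ℝ} (hφ : SupM μ π p jm u φ) {a a' : V} (h0 : φ a a' ≠ 0)
    (ha : a ∉ Bl G.Adj (2 * J + 4) u) :
    |2 * chm μ p u * φ a a'| ≤ 4 / 5 / 2 ^ (J + 1) := by
  obtain ⟨s, m, hs, hm0, hm1, hch, -⟩ := mark_sign hf hp hD hy hu
  have hs1 : |(s : ℝ)| = 1 := by
    rcases hs with h | h <;> rw [h] <;> simp
  obtain ⟨n, -, h1, -, -, h2⟩ := supM_near hf hφ h0
  have h3 : J + 1 ≤ n := by
    by_contra h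
    exact ha (Bl_mono (by omega) u h1)
  have h4 : (1 : ℝ) / 2 ^ n ≤ 1 / 2 ^ (J + 1) :=
    one_div_le_one_div_of_le (by positivity) (pow_le_pow_right₀ (by norm_num) h3)
  rw [hch, abs_mul, abs_mul, hs1, one_mul, abs_of_nonneg hm0]
  calc m * |φ a a'| ≤ 4 / 5 * (1 / 2 ^ (J + 1)) :=
        mul_le_mul hm1 (h2.trans h4) (abs_nonneg _) (by norm_num)
    _ = 4 / 5 / 2 ^ (J + 1) := by ring

end LoadsE

end Pool.Agent.K5
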