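import Pool.Agent.Work.MP_974d84_co_k5.FinalW
import Pool.Agent.Work.MP_974d84_co_k5.FlipE
import Pool.Agent.Work.MP_974d84_co_k5.FinalECore
import Pool.Agent.Work.MP_974d84_co_k5.SupE1

/-!
# E5: the labels and the flows, with marked edges
-/

set_option linter.unusedSectionVars false
set_option linter.unusedVariables false

namespace Pool.Agent.K5

open Finset SimpleGraph Pool.Agent.Exp Pool.Agent.Log5 Pool.Agent.Log5.Clu

/-- The load of an edge which carries the strands, one flow `P` of a window and one flow `Q` of a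
mark. -/
theorem load_totalJ {J : ℕ} {base P Q : ℝ}
    (hP : |base + P| ≤ 1 + 1 / 2 ^ (J + 1)) (hQ : Q = 0 ∨
      (P = 0 ∧ |base + Q| ≤ 1 + 4 / 5 / 2 ^ (J + 1)) ∨ |Q| ≤ 4 / 5 / 2 ^ (J + 1)) :
    |base + (P + Q)| ≤ 1 + 1 / 2 ^ J := by
  have h0 : (0 : ℝ) < 1 / 2 ^ (J + 1) := by positivity
  have h1 : (1 : ℝ) / 2 ^ J = 2 * (1 / 2 ^ (J + 1)) := by
    rw [pow_succ]
    field_simp
  have h2 : (4 : ℝ) / 5 / 2 ^ (J + 1) = 4 / 5 * (1 / 2 ^ (J + 1)) := by ring
  rw [h2] at hQ
  rw [h1]
  rcases hQ with h | ⟨h, h'⟩ | h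
  · rw [h, add_zero]
    linarith
  · rw [h, zero_add]
    linarith
  · rw [← add_assoc]
    refine (abs_add_le _ _).trans ?_
    linarith

/-- **E5** with a general depth `J` of the pattern. -/
theorem final_eJ {V : Type} [Fintype V] [DecidableEq V] {G : SimpleGraph V} [DecidableRel G.Adj]
    {μ : V → V} {π : Equiv.Perm V} (hf : Frame G μ π) {J j₀ jm R q B M k D : ℕ} (h3J : 3 ≤ J)
    (hJ : J ≤ j₀) (hjm : J ≤ jm) (hR : 2 * j₀ + 2 ≤ R) (hg : Gir G k)
    (hk : 4 * q + 4 * j₀ + 20 ≤ k) (hkm : 8 * jm + 20 ≤ k) (hD : 4 * jm + 10 ≤ D) {A : Finset V}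
    (hA : Win G π R q B A) {p : V → V → ℝ} (hp : Marks G p) (hpD : FarM G D p)
    (hAp : ∀ a ∈ A, ∀ u ∈ ends p, Disjoint (zone G π R q a) (Bl G.Adj (2 * J + 4) u))
    {y : V → ℤ} (hy : PatternE μ π J q M A p y) :
    ∃ w : V → ℤ → V → ℝ, (∀ a s v, 0 ≤ w a s v) ∧ (∀ a s v, w a s v ≤ 1 / 2 ^ j₀) ∧
      (∀ a ∈ Dfc π A y, ∀ s, (s = 1 ∨ s = -1) → (∀ v, w a s v ≠ 0 → v ∈ zone G π R q a) ∧
        ∑ v, w a s v = 1) ∧
      ∀ ε : V → ℤ, (∀ v, ε v = 1 ∨ ε v = -1) → ∃ x : V → ℤ, (∀ v, x v = 1 ∨ x v = -1) ∧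
        ∀ X : Finset V, |∑ v ∈ X, ((x v : ℝ) + (∑ u, p v u) / 2)| ≤ (1 / 2 + 1 / 2 ^ (J + 1)) * dM G p X +
          |∑ a ∈ Dfc π A y, (ε a : ℝ) * ∑ v ∈ X, w a (ε a) v +
            ∑ u ∈ ends p, chm μ p u * ∑ v ∈ X, wmm μ π p jm u v| := by
  classical
  choose φE wE e1 e2 e3 e4 e5 e6 e7 e8 using fun v : V =>
    end_flow hf (j₀ := j₀) hg (by omega) v
  choose φM m1 m2 m3 using fun u : V => LoadsE.mark_flow hf (jm := jm) hg (by omega) p u
  have hSM : ∀ u, LoadsE.SupM μ π p jm u (φM u) := m2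
  choose! cc hcc using hy.fav
  have hDA : ∀ a ∈ Dfc π A y, a ∈ A := fun a ha => (mem_filter.1 ha).1
  refine ⟨fun a s v => (wE ((π ^ (cc a s - 1)) a) v + wE ((π ^ cc a s) a) v) / 2,
    ?_, ?_, ?_, ?_⟩
  · intro a s v
    have := e4 ((π ^ (cc a s - 1)) a) v
    have := e4 ((π ^ cc a s) a) v
    positivity
  · intro a s v
    have := e5 ((π ^ (cc a s - 1)) a) v
    have := e5 ((π ^ cc a s) a) v
    show (wE ((π ^ (cc a s - 1)) a) v + wE ((π ^ cc a s) a) v) / 2 ≤ 1 / 2 ^ j₀
    linarith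
  · intro a ha s hs
    obtain ⟨h1, h2, -⟩ := hcc a (hDA a ha) s hs
    constructor
    · intro v hv
      have hor : wE ((π ^ (cc a s - 1)) a) v ≠ 0 ∨ wE ((π ^ cc a s) a) v ≠ 0 := by
        by_contra hcon
        push Not at hcon
        apply hv
        show (wE ((π ^ (cc a s - 1)) a) v + wE ((π ^ cc a s) a) v) / 2 = 0
        rw [hcon.1, hcon.2]
        norm_num
      rcases hor with h | h
      · obtain ⟨c, hc, rfl⟩ := e6 _ _ h
        exact (tree_zone hf hg hk hR hA (hDA a ha) (hDA a ha) (by omega) (Nat.zero_le _) hc.le).2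
      · obtain ⟨c, hc, rfl⟩ := e6 _ _ h
        exact (tree_zone hf hg hk hR hA (hDA a ha) (hDA a ha) (by omega) (Nat.zero_le _) hc.le).2
    · show ∑ v, (wE ((π ^ (cc a s - 1)) a) v + wE ((π ^ cc a s) a) v) / 2 = 1
      rw [← sum_div, sum_add_distrib, e7, e7]
      norm_num
  · intro ε hε
    have hC : ∀ a ∈ Dfc π A y, 1 ≤ cc a (ε a) ∧ cc a (ε a) ≤ 2 * q ∧
        y ((π ^ cc a (ε a)) a) = ε a := by
      intro a ha
      obtain ⟨h1, h2, h3, -⟩ := hcc a (hDA a ha) (ε a) (hε a)
      exact ⟨h1, h2, h3⟩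
    obtain ⟨x, hx, hxy, h5⟩ := flip_e hf hg (by omega) hA hp hpD hAp hy ε
      (fun a => cc a (ε a)) hC
    refine ⟨x, hx, fun X => ?_⟩
    have hx1 : ∀ v, |(x v : ℝ)| = 1 := by
      intro v
      rcases hx v with h | h <;> rw [h] <;> simp
    -- the ends
    let τ := {a // a ∈ Dfc π A y} × Bool
    let ix : τ → ℕ := fun t => if t.2 then cc t.1.1 (ε t.1.1) else cc t.1.1 (ε t.1.1) - 1
    have hix : ∀ t : τ, ix t ≤ 2 * q := by
      intro t
      have := (hC t.1.1 t.1.2).2.1
      simp only [ix]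
      split_ifs <;> omega
    let pos : τ → V := fun t => (π ^ ix t) t.1.1
    have hsup : ∀ (t : τ) u u', φE (pos t) u u' ≠ 0 → Sup μ π j₀ (pos t) u u' := by
      intro t u u' h
      rcases e3 _ _ _ h with h | ⟨c, b, h1, h2, h3, -⟩ | ⟨c, b, h1, h2, h3, -⟩
      · exact Or.inl h
      · exact Or.inr (Or.inl ⟨c, b, h1, h2, h3⟩)
      · exact Or.inr (Or.inr ⟨c, b, h1, h2, h3⟩)
    have huniq : ∀ (t t' : τ) u u', φE (pos t) u u' ≠ 0 → φE (pos t') u u' ≠ 0 → t = t' := by
      intro t t' u u' h h'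
      obtain ⟨h1, h2⟩ := sup_uniq hf hg hk hR hA (hDA _ t.1.2) (hDA _ t'.1.2) (hix t) (hix t')
        (hsup t u u' h) (hsup t' u u' h')
      have h3 : t.1 = t'.1 := Subtype.ext h1
      have h4 : t.2 = t'.2 := by
        have h5 := (hC t.1.1 t.1.2).1
        simp only [ix] at h2
        rw [h1] at h2 h5
        rcases ht : t.2 with _ | _ <;> rcases ht' : t'.2 with _ | _ <;>
          simp only [ht, ht', if_true, if_false, Bool.false_eq_true] at h2 ⊢ <;> omega
      exact Prod.ext h3 h4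
    obtain ⟨P, hPdef⟩ : ∃ P : V → V → ℝ, ∀ u u', P u u' =
        ∑ t : τ, (ε t.1.1 : ℝ) * φE (pos t) u u' := ⟨_, fun _ _ => rfl⟩
    obtain ⟨Q, hQdef⟩ : ∃ Q : V → V → ℝ, ∀ u u', Q u u' =
        ∑ z ∈ ends p, 2 * chm μ p z * φM z u u' := ⟨_, fun _ _ => rfl⟩
    have hP1 : ∀ u u', P u u' = 0 ∨ ∃ t : τ, φE (pos t) u u' ≠ 0 ∧
        P u u' = (ε t.1.1 : ℝ) * φE (pos t) u u' := by
      intro u u'
      rw [hPdef]
      by_cases hex : ∃ t : τ, φE (pos t) u u' ≠ 0
      · obtain ⟨t, ht⟩ := hex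
        refine Or.inr ⟨t, ht, sum_eq_single t (fun t' _ hne => ?_) fun h => absurd (mem_univ t) h⟩
        by_contra hcon
        exact hne (huniq t' t u u' (right_ne_zero_of_mul hcon) ht)
      · push Not at hex
        exact Or.inl (sum_eq_zero fun t _ => by rw [hex t, mul_zero])
    have hQ1 : ∀ u u', Q u u' = 0 ∨ ∃ z ∈ ends p, φM z u u' ≠ 0 ∧
        Q u u' = 2 * chm μ p z * φM z u u' := by
      intro u u'
      rw [hQdef]
      by_cases hex : ∃ z ∈ ends p, φM z u u' ≠ 0
      · obtain ⟨z, hz, hne0⟩ := hex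
        refine Or.inr ⟨z, hz, hne0, sum_eq_single_of_mem z hz fun z' hz' hne => ?_⟩
        by_contra hcon
        exact hne (SupE1.supM_uniq hf hg (by omega) hD hp hpD hz' hz (hSM z') (hSM z)
          (right_ne_zero_of_mul hcon) hne0)
      · push Not at hex
        exact Or.inl (sum_eq_zero fun z hz => by rw [hex z hz, mul_zero])
    -- the windows are far from the marks
    have hPz : ∀ u u', P u u' ≠ 0 → G.Adj u u' ∧ ∀ z ∈ ends p, u ∉ Bl G.Adj (2 * J + 4) z := by
      intro u u' h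
      rcases hP1 u u' with h' | ⟨t, ht, -⟩
      · exact absurd h' h
      · refine ⟨sup_adj hf (hsup t u u' ht), fun z hz hz' => ?_⟩
        exact Finset.disjoint_left.1 (hAp _ (hDA _ t.1.2) z hz)
          (mem_zone_of hR (hix t) (sup_mem hf (hsup t u u' ht))) hz'
    have hxz : ∀ z ∈ ends p, ∀ v ∈ Bl G.Adj (2 * J + 4) z, x v = y v := by
      intro z hz v hv
      refine hxy v fun a ha j hj he => ?_
      have hj' : j < cc a (ε a) := hj
      have h1 := (hC a ha).2.1
      refine Finset.disjoint_left.1 (hAp a (hDA a ha) z hz) ?_ hv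
      rw [he]
      exact mem_zone_of (n := 0) (Nat.zero_le _) (by omega : j ≤ 2 * q) (mem_Bl_zero.2 rfl)
    have hmend : ∀ u u', p u u' ≠ 0 → u ∈ ends p := fun u u' h => LoadsE.mem_ends.2 ⟨u', h⟩
    have hPanti : ∀ u u', P u u' = - P u' u := by
      intro u u'
      rw [hPdef, hPdef, ← sum_neg_distrib]
      refine sum_congr rfl fun t _ => ?_
      rw [e1 (pos t) u u']
      ring
    have hQanti : ∀ u u', Q u u' = - Q u' u := by
      intro u u'
      rw [hQdef, hQdef, ← sum_neg_distrib]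
      refine sum_congr rfl fun t _ => ?_
      rw [m1 t u u']
      ring
    have hPb : ∀ u u', |(if (u' = π u ∨ u = π u') ∧ x u = - x u' then (x u : ℝ) else 0) +
        P u u'| ≤ 1 + 1 / 2 ^ (J + 1) := by
      intro u u'
      have hδ : (0 : ℝ) < 1 / 2 ^ (J + 1) := by positivity
      rcases hP1 u u' with h0 | ⟨t, ht, hPt⟩
      · rw [h0, add_zero]
        split_ifs
        · rw [hx1]
          linarith
        · rw [abs_zero]
          linarith
      · have hfav : Fav μ π J y (ε t.1.1) (pos t) := by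
          obtain ⟨h1, h2, h3, h4, h5⟩ := hcc _ (hDA _ t.1.2) (ε t.1.1) (hε _)
          simp only [pos, ix]
          split_ifs
          · exact h5
          · exact h4
        have hxT : ∀ c : List Bool, c.length ≤ j₀ →
            x (TT μ π (pos t) c) = y (TT μ π (pos t) c) := by
          intro c hc
          refine hxy _ fun a ha j hj => ?_
          have hj' : j < cc a (ε a) := hj
          have := (hC a ha).2.1
          exact (tree_zone hf hg hk hR hA (hDA _ t.1.2) (hDA a ha) (hix t) (by omega) hc).1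
        rw [hPt]
        exact load_w hf hx (hε _) hfav hxT (e2 _ _ _) (e3 _ _ _ ht)
    have hmain := final_e_core (G := G) (p := p) hp.symm (x := x)
      (fun v => (x v : ℝ) + (∑ u, p v u) / 2)
      (fun u u' => (u' = π u ∨ u = π u') ∧ x u = - x u')
      (by
        rintro u u' ⟨h | h, h'⟩
        · refine ⟨⟨Or.inr h, ?_⟩, (hf.adj u u').2 (Or.inr (Or.inl h)), h'⟩
          rw [h', neg_neg]
        · refine ⟨⟨Or.inl h, ?_⟩, (hf.adj u u').2 (Or.inr (Or.inr ?_)), h'⟩
          · rw [h', neg_neg]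
          · rw [h, Equiv.symm_apply_apply])
      (fun u u' => P u u' + Q u u')
      (by
        intro u u'
        rw [hPanti u u', hQanti u u']
        ring)
      (c := 1 + 1 / 2 ^ J) (by positivity)
      (by
        intro u u' _ _
        refine load_totalJ (hPb u u') ?_
        rcases hQ1 u u' with h0 | ⟨z, hz, hne0, hQz⟩
        · exact Or.inl h0
        · by_cases hP0 : P u u' = 0
          · refine Or.inr (Or.inl ⟨hP0, ?_⟩)
            rw [hQz]
            refine LoadsE.load_m hf hp hpD hy hx hz (fun c hc => ?_) (hSM z) u u'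
            exact hxz z hz _ (Bl_mono (by omega) z (LoadsE.tree_near hf z c))
          · refine Or.inr (Or.inr ?_)
            rw [hQz]
            exact LoadsE.load_far hf hp hpD hy hz (hSM z) hne0 ((hPz u u' hP0).2 z hz))
      (by
        intro u u' h
        by_cases hP0 : P u u' = 0
        · have hQ0 : Q u u' ≠ 0 := by
            intro h0
            apply h
            show P u u' + Q u u' = 0
            rw [hP0, h0, add_zero]
          rcases hQ1 u u' with h0 | ⟨z, hz, hne0, -⟩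
          · exact absurd h0 hQ0
          · obtain ⟨n, -, -, -, h1, -⟩ := LoadsE.supM_near hf (hSM z) hne0
            exact ⟨h1, SupE1.supM_unmarked hf hg (by omega) hD hp hpD hz (hSM z) hne0⟩
        · obtain ⟨h1, h2⟩ := hPz u u' hP0
          refine ⟨h1, ?_⟩
          by_contra hpu
          exact h2 u (hmend u u' hpu) (Bl_self _ u))
      (by
        rintro u u' ⟨h, h'⟩
        by_contra hpu
        have hue := hmend u u' hpu
        have hu'e := hmend u' u (by rw [hp.symm]; exact hpu)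
        rw [hxz u hue u (Bl_self _ u), hxz u' hu'e u' (Bl_self _ u')] at h'
        have h0 : y u ≠ 0 := by rcases hy.sign u with h1 | h1 <;> rw [h1] <;> norm_num
        have h0' : y u' ≠ 0 := by rcases hy.sign u' with h1 | h1 <;> rw [h1] <;> norm_num
        rcases h with h | h
        · rw [h] at hpu
          have h1 := hy.markc u hpu
          have h2 : y u' = y u := by rw [h, h1.2.1, h1.1]
          omega
        · rw [h, hp.symm] at hpu
          have h1 := hy.markc u' hpu
          have h2 : y u = y u' := by rw [h, h1.2.1, h1.1]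
          omega)
      (fun v => ∑ t : τ, (ε t.1.1 : ℝ) * (if v = pos t then 1 else 0) +
        (if v ∈ ends p then 2 * chm μ p v else 0))
      (fun v => ∑ t : τ, (ε t.1.1 : ℝ) * wE (pos t) v +
        ∑ z ∈ ends p, 2 * chm μ p z * wmm μ π p jm z v)
      (by
        intro v
        have h1 : ∑ u, P v u = ∑ t : τ, ((ε t.1.1 : ℝ) * (if v = pos t then 1 else 0) -
            (ε t.1.1 : ℝ) * wE (pos t) v) := by
          rw [sum_congr rfl fun u _ => hPdef v u, sum_comm]
          refine sum_congr rfl fun t _ => ?_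
          rw [← mul_sum, e8]
          ring
        have h2 : ∑ u, Q v u = ∑ z ∈ ends p, (2 * chm μ p z * (if v = z then 1 else 0) -
            2 * chm μ p z * wmm μ π p jm z v) := by
          rw [sum_congr rfl fun u _ => hQdef v u, sum_comm]
          refine sum_congr rfl fun z _ => ?_
          rw [← mul_sum, m3]
          ring
        have h3 : ∑ z ∈ ends p, 2 * chm μ p z * (if v = z then 1 else 0) =
            if v ∈ ends p then 2 * chm μ p v else 0 := by
          rw [← sum_ite_eq (ends p) v fun z => 2 * chm μ p z]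
          refine sum_congr rfl fun z _ => ?_
          split_ifs <;> ring
        show ∑ u, (P v u + Q v u) = _
        rw [sum_add_distrib, h1, h2, sum_sub_distrib, sum_sub_distrib, h3]
        ring)
      (by
        intro v
        have h6 := h5 v
        have h7 : ∑ t : τ, (ε t.1.1 : ℝ) * (if v = pos t then 1 else 0) =
            ∑ a ∈ Dfc π A y, (ε a : ℝ) * ((if v = (π ^ (cc a (ε a) - 1)) a then 1 else 0) +
              (if v = (π ^ cc a (ε a)) a then 1 else 0)) := by
          rw [Fintype.sum_prod_type, ← sum_coe_sort (Dfc π A y)]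
          refine sum_congr rfl fun a _ => ?_
          rw [Fintype.sum_bool]
          simp only [pos, ix, if_true, Bool.false_eq_true, if_false]
          ring
        show ((univ.filter fun u => (u = π v ∨ v = π u) ∧ x v = - x u).card : ℝ) * x v +
          (∑ t : τ, (ε t.1.1 : ℝ) * (if v = pos t then 1 else 0) +
            (if v ∈ ends p then 2 * chm μ p v else 0)) = 2 * ((x v : ℝ) + (∑ u, p v u) / 2)
        rw [h7]
        linarith) X
    have hν : ∑ v ∈ X, (∑ t : τ, (ε t.1.1 : ℝ) * wE (pos t) v +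
        ∑ z ∈ ends p, 2 * chm μ p z * wmm μ π p jm z v) =
        2 * (∑ a ∈ Dfc π A y, (ε a : ℝ) * ∑ v ∈ X,
          (wE ((π ^ (cc a (ε a) - 1)) a) v + wE ((π ^ cc a (ε a)) a) v) / 2 +
          ∑ u ∈ ends p, chm μ p u * ∑ v ∈ X, wmm μ π p jm u v) := by
      rw [sum_add_distrib, mul_add]
      congr 1
      · rw [sum_comm, Fintype.sum_prod_type, ← sum_coe_sort (Dfc π A y), mul_sum]
        refine sum_congr rfl fun a _ => ?_
        rw [Fintype.sum_bool]
        simp only [pos, ix, if_true, Bool.false_eq_true, if_false]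
        rw [← sum_div, sum_add_distrib, ← mul_sum, ← mul_sum]
        ring
      · rw [sum_comm, mul_sum]
        refine sum_congr rfl fun z _ => ?_
        rw [← mul_sum]
        ring
    rw [hν, abs_mul, abs_of_pos (by norm_num : (0 : ℝ) < 2)] at hmain
    show |∑ v ∈ X, ((x v : ℝ) + (∑ u, p v u) / 2)| ≤ (1 / 2 + 1 / 2 ^ (J + 1)) * dM G p X +
      |∑ a ∈ Dfc π A y, (ε a : ℝ) * ∑ v ∈ X,
        (wE ((π ^ (cc a (ε a) - 1)) a) v + wE ((π ^ cc a (ε a)) a) v) / 2 +
        ∑ u ∈ ends p, chm μ p u * ∑ v ∈ X, wmm μ π p jm u v|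
    have hJ2 : (1 : ℝ) + 1 / 2 ^ J = 2 * (1 / 2 + 1 / 2 ^ (J + 1)) := by
      rw [pow_succ]
      field_simp
    rw [hJ2] at hmain
    linarith [hmain]

end Pool.Agent.K5
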