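import Pool.Agent.Work.MP_974d84_co_k5.DefsW
import Pool.Agent.Work.MP_974d84_co_log.Paths

/-!
# W1: the permutation of the circuits of a 2-factor
-/

set_option linter.unusedSectionVars false

namespace Pool.Agent.K5

open Finset SimpleGraph Pool.Agent.Exp Pool.Agent.Log5 Pool.Agent.Log5.Clu

/-- Every 2-regular graph is the graph of a permutation. -/
theorem exists_perm {V : Type} [Fintype V] (F : SimpleGraph V)
    (hF2 : ∀ v, (F.neighborSet v).ncard = 2) : ∃ π : Equiv.Perm V,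
      (∀ v, π v ≠ π.symm v) ∧ ∀ u v, F.Adj u v ↔ (v = π u ∨ v = π.symm u) := by
  classical
  -- the other neighbour
  have hoth : ∀ v a, F.Adj v a → ∃ b, F.Adj v b ∧ b ≠ a ∧ ∀ c, F.Adj v c → c = a ∨ c = b := by
    intro v a hva
    obtain ⟨x, y, hxy, hs⟩ := Set.ncard_eq_two.1 (hF2 v)
    have hm : ∀ c, F.Adj v c ↔ c = x ∨ c = y := by
      intro c
      have : c ∈ F.neighborSet v ↔ c ∈ ({x, y} : Set V) := by rw [hs]
      simpa using this
    rcases (hm a).1 hva with rfl | rfl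
    · exact ⟨y, (hm y).2 (Or.inr rfl), fun h => hxy h.symm, fun c hc => (hm c).1 hc⟩
    · exact ⟨x, (hm x).2 (Or.inl rfl), hxy, fun c hc => ((hm c).1 hc).symm⟩
  choose! oth ho1 ho2 ho3 using hoth
  have hoo : ∀ v a, F.Adj v a → oth v (oth v a) = a := by
    intro v a h
    rcases ho3 v (oth v a) (ho1 v a h) a h with h1 | h1
    · exact absurd h1.symm (ho2 v a h)
    · exact h1.symm
  obtain ⟨κ, hκ⟩ := kappa_free (X := {p : V × V // F.Adj p.1 p.2})
    (fun d => ⟨(d.1.2, d.1.1), d.2.symm⟩)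
    (fun d => ⟨(oth d.1.2 d.1.1, d.1.2), (ho1 d.1.2 d.1.1 d.2.symm).symm⟩)
    (fun d => rfl)
    (fun d => Subtype.ext (Prod.ext (hoo _ _ d.2.symm) rfl))
    (fun d h => F.ne_of_adj d.2 (congrArg (fun e => e.1.2) h))
    (fun d h => ho2 _ _ d.2.symm (congrArg (fun e => e.1.1) h))
  set O : V → V → Prop := fun u v => ∃ h : F.Adj u v, κ ⟨(u, v), h⟩ with hO
  have ha : ∀ u v, F.Adj u v → (O v u ↔ ¬ O u v) := by
    intro u v h
    have h1 := (hκ ⟨(u, v), h⟩).1
    constructor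
    · rintro ⟨h2, h3⟩ ⟨h4, h5⟩
      exact h1.1 h3 h5
    · intro h2
      exact ⟨h.symm, h1.2 fun h3 => h2 ⟨h, h3⟩⟩
  have hb : ∀ u v, F.Adj u v → (O (oth v u) v ↔ ¬ O u v) := by
    intro u v h
    have h1 := (hκ ⟨(u, v), h⟩).2
    constructor
    · rintro ⟨h2, h3⟩ ⟨h4, h5⟩
      exact h1.1 h3 h5
    · intro h2
      exact ⟨(ho1 v u h.symm).symm, h1.2 fun h3 => h2 ⟨h, h3⟩⟩
  have hadj : ∀ u v, O u v → F.Adj u v := fun u v h => h.1
  have hin : ∀ v, ∃ u, O u v ∧ ∀ u', O u' v → u' = u := by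
    intro v
    obtain ⟨x, y, hxy, hs⟩ := Set.ncard_eq_two.1 (hF2 v)
    have hx : F.Adj v x := by
      have : x ∈ F.neighborSet v := by rw [hs]; simp
      exact this
    by_cases h : O x v
    · refine ⟨x, h, ?_⟩
      intro u' hu'
      rcases ho3 v x hx u' (hadj _ _ hu').symm with h1 | h1
      · exact h1
      · exact absurd h ((hb x v hx.symm).1 (h1 ▸ hu'))
    · refine ⟨oth v x, (hb x v hx.symm).2 h, ?_⟩
      intro u' hu'
      rcases ho3 v x hx u' (hadj _ _ hu').symm with h1 | h1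
      · exact absurd (h1 ▸ hu') h
      · exact h1
  have hout : ∀ v, ∃ u, O v u ∧ ∀ u', O v u' → u' = u := by
    intro v
    obtain ⟨u, hu, hu'⟩ := hin v
    have hvu := (hadj _ _ hu).symm
    have h1 : O v (oth v u) := by
      have h2 := (hb u v hvu.symm)
      have h3 : ¬ O (oth v u) v := fun h => (h2.1 h) hu
      exact (ha (oth v u) v (ho1 v u hvu).symm).2 h3
    refine ⟨oth v u, h1, ?_⟩
    intro w hw
    rcases ho3 v u hvu w (hadj _ _ hw) with h2 | h2
    · subst h2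
      exact absurd hu ((ha w v hvu.symm).1 hw)
    · exact h2
  choose ρ hρ1 hρ2 using hin
  choose π hπ1 hπ2 using hout
  refine ⟨⟨π, ρ, fun v => (hρ2 (π v) v (hπ1 v)).symm, fun v => (hπ2 (ρ v) v (hρ1 v)).symm⟩, ?_, ?_⟩
  · intro v h
    have h1 : π v = ρ v := h
    have h2 := hπ1 v
    rw [h1] at h2
    exact (ha (ρ v) v (hadj _ _ (hρ1 v))).1 h2 (hρ1 v)
  · intro u v
    show F.Adj u v ↔ (v = π u ∨ v = ρ u)
    constructor
    · intro h
      by_cases h1 : O u v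
      · exact Or.inl (hπ2 u v h1)
      · exact Or.inr (hρ2 u v ((ha u v h).2 h1))
    · rintro (rfl | rfl)
      · exact hadj _ _ (hπ1 u)
      · exact (hadj _ _ (hρ1 u)).symm

/-- W1. -/
theorem exists_frame {V : Type} [Fintype V] [DecidableEq V] {G : SimpleGraph V}
    [DecidableRel G.Adj] (h3 : ∀ v, G.degree v = 3) (F : SimpleGraph V) (hF : F ≤ G)
    (hF2 : ∀ v, (F.neighborSet v).ncard = 2) : ∃ (μ : V → V) (π : Equiv.Perm V), Frame G μ π := by
  obtain ⟨π, hπ1, hπ2⟩ := exists_perm F hF2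
  obtain ⟨μ, hμ1, hμ2, hμ3, hμ4⟩ := exists_mu' h3 F hF hF2
  refine ⟨μ, π, hμ1, ?_, ?_, hπ1, ?_⟩
  · intro v h
    exact hμ3 v ((hπ2 v (μ v)).2 (Or.inl h))
  · intro v h
    exact hμ3 v ((hπ2 v (μ v)).2 (Or.inr h))
  · intro u v
    constructor
    · intro h
      by_cases h1 : F.Adj u v
      · exact Or.inr ((hπ2 u v).1 h1)
      · exact Or.inl (hμ4 u v h h1)
    · rintro (rfl | h)
      · exact hμ2 u
      · exact hF ((hπ2 u v).2 h)

end Pool.Agent.K5
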