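import Mathlib
import Pool.Agent.Work.MP_974d84_co_k5.Defs5
import Pool.Agent.Work.MP_974d84_co_log.BigOf

/-!
# Filling the holes of a joined part of a core
-/

set_option linter.unusedSectionVars false

namespace Pool.Agent.K5

open Finset SimpleGraph Pool.Agent.Exp Pool.Agent.Log5 Pool.Agent.Log5.Clu
open Pool.Agent.Work.MP_314beb_co

variable {V : Type} [Fintype V] [DecidableEq V] (G : SimpleGraph V) [DecidableRel G.Adj]

open Classical in
/-- The vertices which can be reached from the outside of `S` without meeting `Z`. -/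
noncomputable def outU (S Z : Finset V) : Finset V :=
  univ.filter fun v => ∀ W : Finset V, Sᶜ ⊆ W → (∀ u ∈ W, ∀ v, v ∉ Z → G.Adj u v → v ∈ W) → v ∈ W

theorem mem_outU {S Z : Finset V} {v : V} : v ∈ outU G S Z ↔ ∀ W : Finset V, Sᶜ ⊆ W →
    (∀ u ∈ W, ∀ v, v ∉ Z → G.Adj u v → v ∈ W) → v ∈ W := by
  simp [outU]

theorem sub_outU (S Z : Finset V) : Sᶜ ⊆ outU G S Z := by
  intro v hv
  rw [mem_outU]
  intro W hW _
  exact hW hv

theorem outU_clo {S Z : Finset V} {u v : V} (hu : u ∈ outU G S Z) (hv : v ∉ Z)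
    (h : G.Adj u v) : v ∈ outU G S Z := by
  rw [mem_outU] at hu ⊢
  intro W hW hc
  exact hc u (hu W hW hc) v hv h

theorem outU_sub {S Z W : Finset V} (hW : Sᶜ ⊆ W)
    (hc : ∀ u ∈ W, ∀ v, v ∉ Z → G.Adj u v → v ∈ W) : outU G S Z ⊆ W := by
  intro v hv
  rw [mem_outU] at hv
  exact hv W hW hc

theorem outU_not {S Z : Finset V} (hZ : Z ⊆ S) {v : V} (hv : v ∈ outU G S Z) : v ∉ Z := by
  have := outU_sub G (S := S) (Z := Z) (W := Zᶜ) (compl_subset_compl.2 hZ)
    (fun _ _ v hv _ => mem_compl.2 hv) hv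
  exact mem_compl.1 this

/-- The filled set. -/
theorem exists_fill (hbr : ∀ A : Finset V, A.Nonempty → Aᶜ.Nonempty → 1 ≤ dd G A)
    {S Z : Finset V} (hZS : Z ⊆ S) (hZ : Z.Nonempty) (hj : Joined G Z) :
    ∃ F : Finset V, Z ⊆ F ∧ F ⊆ S ∧ dd G F ≤ dd G Z ∧ RBond G S id F ∧
      (F = S → dd G (S \ Z) ≤ dd G Z) := by
  classical
  set U := outU G S Z with hU
  have hZU : ∀ v ∈ U, v ∉ Z := fun v hv => outU_not G hZS hv
  have hZF : Z ⊆ Uᶜ := fun v hv => mem_compl.2 fun h => hZU v h hv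
  have hFS : Uᶜ ⊆ S := by
    have := compl_subset_compl.2 (sub_outU G S Z)
    rwa [compl_compl] at this
  -- edges from the holes stay inside
  have hhole : ∀ u ∈ Uᶜ, u ∉ Z → ∀ v, G.Adj u v → v ∈ Uᶜ := by
    intro u hu huZ v h
    rw [mem_compl]
    intro hv
    exact mem_compl.1 hu (outU_clo G hv huZ h.symm)
  refine ⟨Uᶜ, hZF, hFS, ?_, ⟨hFS, hZ.mono hZF, ?_, ?_, ?_⟩, ?_⟩
  · unfold dd
    refine card_le_card fun p hp => ?_
    rw [mem_cut] at hp ⊢
    obtain ⟨h1, h2, h3⟩ := hp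
    have h4 : p.1 ∈ Z := by
      by_contra h4
      exact h2 (hhole _ h1 h4 _ h3)
    exact ⟨h4, fun h5 => h2 (hZF h5), h3⟩
  · -- joined
    have key : ∀ A ⊆ Uᶜ, A.Nonempty → Disjoint A Z → ∃ x ∈ A, ∃ y ∈ Uᶜ, y ∉ A ∧ G.Adj x y := by
      intro A hA hne hd
      obtain ⟨z, hz⟩ := hZ
      have h1 := hbr A hne ⟨z, mem_compl.2 fun h => (disjoint_left.1 hd) h hz⟩
      obtain ⟨p, hp⟩ := card_pos.1 h1
      rw [mem_cut] at hp
      exact ⟨p.1, hp.1, p.2, hhole _ (hA hp.1) ((disjoint_left.1 hd) hp.1) _ hp.2.2, hp.2.1,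
        hp.2.2⟩
    intro A hA hne hAne
    by_cases h1 : Disjoint A Z
    · exact key A hA hne h1
    by_cases h2 : Z ⊆ A
    · have h3 : (Uᶜ \ A).Nonempty := by
        rw [sdiff_nonempty]
        exact fun h => hAne (hA.antisymm h)
      obtain ⟨x, hx, y, hy, hyA, h⟩ := key (Uᶜ \ A) sdiff_subset h3
        (disjoint_left.2 fun v hv hvZ => (mem_sdiff.1 hv).2 (h2 hvZ))
      have hyA' : y ∈ A := by
        by_contra h4
        exact hyA (mem_sdiff.2 ⟨hy, h4⟩)
      exact ⟨y, hyA', x, (mem_sdiff.1 hx).1, (mem_sdiff.1 hx).2, h.symm⟩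
    · have h3 : (A ∩ Z).Nonempty := by
        rw [not_disjoint_iff] at h1
        obtain ⟨v, h5, h6⟩ := h1
        exact ⟨v, mem_inter.2 ⟨h5, h6⟩⟩
      obtain ⟨x, hx, y, hy, hyA, h⟩ := hj (A ∩ Z) inter_subset_right h3
        (fun h => h2 (by rw [← h]; exact inter_subset_left))
      exact ⟨x, (mem_inter.1 hx).1, y, hZF hy, fun h7 => hyA (mem_inter.2 ⟨h7, hy⟩), h⟩
  · -- every part of the outside is joined to the rest of the outside
    intro A hA hne _
    by_contra hcon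
    push Not at hcon
    rw [compl_compl] at hA hcon
    have hAU : A ⊆ U := fun v hv => (mem_sdiff.1 (hA hv)).1
    have hAS : ∀ v ∈ A, v ∈ S := fun v hv => by
      have := (mem_sdiff.1 (hA hv)).2
      rwa [mem_compl, not_not] at this
    have h1 : U ⊆ U \ A := by
      refine outU_sub G ?_ ?_
      · intro v hv
        exact mem_sdiff.2 ⟨sub_outU G S Z hv, fun h => mem_compl.1 hv (hAS v h)⟩
      · intro u hu v hv h
        refine mem_sdiff.2 ⟨outU_clo G (mem_sdiff.1 hu).1 hv h, fun hvA => ?_⟩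
        exact hcon v hvA u (mem_sdiff.1 hu).1 (mem_sdiff.1 hu).2 h.symm
    obtain ⟨v, hv⟩ := hne
    exact (mem_sdiff.1 (h1 (hAU hv))).2 hv
  · intro x y h
    simp only [id] at h
    rw [h]
  · intro hFe
    unfold dd
    have h1 : (cut G (S \ Z)).card = ((cut G (S \ Z)).image fun p => (p.2, p.1)).card := by
      rw [card_image_of_injective]
      intro p q h
      simp only [Prod.mk.injEq] at h
      exact Prod.ext h.2 h.1
    rw [h1]
    refine card_le_card fun q hq => ?_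
    obtain ⟨p, hp, rfl⟩ := mem_image.1 hq
    rw [mem_cut] at hp ⊢
    obtain ⟨h2, h3, h4⟩ := hp
    rw [mem_sdiff] at h2 h3
    have h5 : p.1 ∈ Uᶜ := by rw [hFe]; exact h2.1
    have h6 := hhole _ h5 h2.2 _ h4
    rw [hFe] at h6
    refine ⟨?_, h2.2, h4.symm⟩
    by_contra h7
    exact h3 ⟨h6, h7⟩

/-- A joined set inside an acyclic one. -/
theorem dd_le_of_fill (h3 : ∀ v, G.degree v = 3) {Z F : Finset V} (hZ : Z.Nonempty)
    (hj : Joined G Z) (hZF : Z ⊆ F) (hac : (G.induce (F : Set V)).IsAcyclic) :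
    dd G Z ≤ dd G F := by
  have h1 := dd_le_of_joined h3 hj hZ
  have h2 := dd_of_acyclic G h3 (hZ.mono hZF) hac
  have h4 := card_le_card hZF
  omega

end Pool.Agent.K5
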