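import Mathlib
import Pool.Agent.Work.MP_974d84_co_k5.Defs5

/-!
# Numbers for the random centres
-/

set_option linter.unusedSectionVars false

namespace Pool.Agent.K5

open Finset

/-- Powers of logarithms against powers. -/
theorem polylog {K y : ℝ} (hK : 0 ≤ K) (hy : 87480 * K ≤ y) :
    K * (1 + y) ^ 4 ≤ Real.exp (y / 3) := by
  have hy0 : 0 ≤ y := le_trans (by positivity) hy
  have h1 := Real.pow_div_factorial_le_exp ((1 + y) / 3) (by positivity) 5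
  have h2 : Real.exp ((1 + y) / 3) = Real.exp (y / 3) * Real.exp (1 / 3) := by
    rw [← Real.exp_add]; congr 1; ring
  have h3 : Real.exp (1 / 3) ≤ 3 := by
    have h4 : Real.exp (1 / 3) ≤ Real.exp 1 := Real.exp_le_exp.2 (by norm_num)
    have h5 := Real.exp_one_lt_d9
    linarith
  have h6 : Real.exp ((1 + y) / 3) ≤ Real.exp (y / 3) * 3 := by
    rw [h2]
    exact mul_le_mul_of_nonneg_left h3 (Real.exp_pos _).le
  have h7 : ((1 + y) / 3) ^ 5 / ((Nat.factorial 5 : ℕ) : ℝ) = (1 + y) ^ 5 / 29160 := by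
    rw [show ((Nat.factorial 5 : ℕ) : ℝ) = 120 by norm_num [Nat.factorial], div_pow]
    norm_num
    ring
  rw [h7] at h1
  have h8 : (1 + y) ^ 5 / 87480 ≤ Real.exp (y / 3) := by
    have := h1.trans h6
    have e : (1 + y) ^ 5 / 87480 = (1 + y) ^ 5 / 29160 / 3 := by ring
    rw [e, div_le_iff₀ (by norm_num)]
    exact this
  refine le_trans ?_ h8
  rw [le_div_iff₀ (by norm_num)]
  have h9 : (1 + y) ^ 5 = (1 + y) * (1 + y) ^ 4 := by ring
  rw [h9]
  have h10 : 0 ≤ (1 + y) ^ 4 := by positivity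
  nlinarith

/-- The numbers. -/
theorem centre_numbers {θ η C : ℝ} (hθ : 0 < θ) (hη : 0 < η) (hC : 1 ≤ C) (hC' : 1 ≤ η * C)
    (R : ℕ) : ∃ k₀ : ℕ, 4 ≤ k₀ ∧ ∀ s : ℕ, k₀ ≤ s → 1 ≤ η * gf C s ∧
      (∀ M : ℕ, (M : ℝ) ≤ 2 * (η * gf C s) →
        (M : ℝ) ^ 2 * (3 * 2 ^ (2 * R)) / ((s : ℝ) / 2) ≤ 1 / 2 ∧
        (M : ℝ) * (3 * 2 ^ R * Real.exp (Real.log s / 3)) / ((s : ℝ) / 2) ≤
          Real.exp (-(Real.log s / 3))) ∧
      (∀ a D : ℕ, 1 ≤ a → gf C a ≤ D → 10 * (D : ℝ) < gf C s →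
        (a : ℝ) ≤ Real.exp (Real.log s / 3)) ∧
      (∀ D : ℕ, k₀ ≤ D → 9 * (D : ℝ) - θ * D * (Real.log s / 3) ≤ - (3 * Real.log s)) := by
  set K : ℝ := 96 * η ^ 2 * C ^ 2 * 2 ^ (2 * R) + 12 * η * C * 2 ^ R + C with hK
  have hC0 : 0 < C := by linarith
  have hK0 : 0 ≤ K := by positivity
  have hK1 : 96 * η ^ 2 * C ^ 2 * 2 ^ (2 * R) ≤ K := by
    have : 0 ≤ 12 * η * C * 2 ^ R := by positivity
    rw [hK]; linarith
  have hK2 : 12 * η * C * 2 ^ R ≤ K := by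
    have : 0 ≤ 96 * η ^ 2 * C ^ 2 * 2 ^ (2 * R) := by positivity
    rw [hK]; linarith
  have hK3 : C ≤ K := by
    have : 0 ≤ 96 * η ^ 2 * C ^ 2 * 2 ^ (2 * R) := by positivity
    have : 0 ≤ 12 * η * C * 2 ^ R := by positivity
    rw [hK]; linarith
  set Y : ℝ := 87480 * K + 54 / θ with hY
  refine ⟨⌈Real.exp Y⌉₊ + ⌈1 / η⌉₊ + ⌈18 / θ⌉₊ + 4, by omega, fun s hs => ?_⟩
  have hs1 : Real.exp Y ≤ s := by
    have h1 : ⌈Real.exp Y⌉₊ ≤ s := by omega
    exact (Nat.le_ceil _).trans (by exact_mod_cast h1)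
  have hs0 : (0 : ℝ) < s := lt_of_lt_of_le (Real.exp_pos _) hs1
  have hlog : Y ≤ Real.log s := by
    rw [← Real.log_exp Y]
    exact Real.log_le_log (Real.exp_pos _) hs1
  have hθ54 : 0 < 54 / θ := by positivity
  have hl1 : 87480 * K ≤ Real.log s := by rw [hY] at hlog; linarith
  have hl2 : 54 / θ ≤ Real.log s := by
    have : 0 ≤ 87480 * K := by positivity
    rw [hY] at hlog; linarith
  have hl0 : 0 ≤ Real.log s := le_trans hθ54.le hl2
  set l : ℝ := Real.log s with hl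
  have hexp : (s : ℝ) = Real.exp l := (Real.exp_log hs0).symm
  set E : ℝ := Real.exp (l / 3) with hE
  have hE0 : 0 < E := Real.exp_pos _
  have hE1 : 1 ≤ E := by
    rw [hE]; exact Real.one_le_exp (by positivity)
  have hsE : (s : ℝ) = E ^ 3 := by
    rw [hexp, hE, ← Real.exp_nat_mul]; congr 1; push_cast; ring
  have hpoly : K * (1 + l) ^ 4 ≤ E := polylog hK0 hl1
  have hL1 : (1 : ℝ) ≤ 1 + l := by linarith
  have hL2 : (1 : ℝ) ≤ (1 + l) ^ 2 := one_le_pow₀ hL1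
  have hL4 : (1 + l) ^ 2 ≤ (1 + l) ^ 4 := pow_le_pow_right₀ hL1 (by norm_num)
  have hg : gf C s ≤ C * (1 + l) ^ 2 := min_le_right _ _
  refine ⟨?_, ?_, ?_, ?_⟩
  · unfold gf
    rw [mul_min_of_nonneg _ _ hη.le, le_min_iff]
    constructor
    · have h1 : ⌈1 / η⌉₊ ≤ s := by omega
      have h2 : 1 / η ≤ s := (Nat.le_ceil _).trans (by exact_mod_cast h1)
      rw [div_le_iff₀ hη] at h2
      nlinarith
    · rw [← hl]
      nlinarith
  · intro M hM
    have hM' : (M : ℝ) ≤ 2 * η * C * (1 + l) ^ 2 := by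
      refine hM.trans ?_
      have : η * gf C s ≤ η * (C * (1 + l) ^ 2) := mul_le_mul_of_nonneg_left hg hη.le
      linarith
    have hM0 : (0 : ℝ) ≤ M := Nat.cast_nonneg _
    constructor
    · rw [div_le_iff₀ (by positivity)]
      have h1 : (M : ℝ) ^ 2 ≤ (2 * η * C * (1 + l) ^ 2) ^ 2 := by gcongr
      calc (M : ℝ) ^ 2 * (3 * 2 ^ (2 * R)) ≤ (2 * η * C * (1 + l) ^ 2) ^ 2 * (3 * 2 ^ (2 * R)) := by
            gcongr
        _ = (96 * η ^ 2 * C ^ 2 * 2 ^ (2 * R)) * (1 + l) ^ 4 / 8 := by ring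
        _ ≤ K * (1 + l) ^ 4 / 8 := by gcongr
        _ ≤ E / 8 := by gcongr
        _ ≤ E ^ 3 / 8 := by
            have : E ≤ E ^ 3 := by
              calc E = E ^ 1 := (pow_one _).symm
                _ ≤ E ^ 3 := pow_le_pow_right₀ hE1 (by norm_num)
            linarith
        _ ≤ 1 / 2 * ((s : ℝ) / 2) := by rw [hsE]; nlinarith [pow_pos hE0 3]
    · rw [div_le_iff₀ (by positivity)]
      have h2 : Real.exp (-(l / 3)) = E⁻¹ := by rw [Real.exp_neg]
      rw [h2, hsE]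
      have h3 : E⁻¹ * (E ^ 3 / 2) = E * E / 2 := by field_simp
      rw [h3]
      calc (M : ℝ) * (3 * 2 ^ R * E) ≤ (2 * η * C * (1 + l) ^ 2) * (3 * 2 ^ R * E) := by gcongr
        _ = (12 * η * C * 2 ^ R) * (1 + l) ^ 2 * E / 2 := by ring
        _ ≤ K * (1 + l) ^ 4 * E / 2 := by gcongr
        _ ≤ E * E / 2 := by gcongr
  · intro a D ha h1 h2
    have ha0 : (0 : ℝ) < a := by exact_mod_cast ha
    have hD : (10 : ℝ) * D < C * (1 + l) ^ 2 := lt_of_lt_of_le h2 hg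
    unfold gf at h1
    rcases min_le_iff.1 h1 with h3 | h3
    · have h4 : (a : ℝ) ≤ C * (1 + l) ^ 2 := by
        have : (0 : ℝ) ≤ D := Nat.cast_nonneg _
        linarith
      calc (a : ℝ) ≤ C * (1 + l) ^ 2 := h4
        _ ≤ K * (1 + l) ^ 4 := by gcongr
        _ ≤ E := hpoly
    · have h4 : 10 * (C * (1 + Real.log a) ^ 2) < C * (1 + l) ^ 2 := by linarith
      have h5 : 10 * (1 + Real.log a) ^ 2 < (1 + l) ^ 2 := by
        have : C * (10 * (1 + Real.log a) ^ 2) < C * (1 + l) ^ 2 := by linarith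
        exact lt_of_mul_lt_mul_left this hC0.le
      have hla : 0 ≤ Real.log a := Real.log_nonneg (by exact_mod_cast ha)
      have h6 : 3 * (1 + Real.log a) ≤ 1 + l := by
        by_contra h7
        push Not at h7
        nlinarith
      have h8 : Real.log a ≤ l / 3 := by linarith
      calc (a : ℝ) = Real.exp (Real.log a) := (Real.exp_log ha0).symm
        _ ≤ E := Real.exp_le_exp.2 h8
  · intro D hD
    have h1 : ⌈18 / θ⌉₊ ≤ D := by omega
    have h2 : 18 / θ ≤ D := (Nat.le_ceil _).trans (by exact_mod_cast h1)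
    rw [div_le_iff₀ hθ] at h2 hl2
    have hD0 : (0 : ℝ) ≤ D := Nat.cast_nonneg _
    have h3 : 9 * (D : ℝ) ≤ θ * D * l / 6 := by nlinarith
    have h4 : 3 * l ≤ θ * D * l / 6 := by nlinarith
    nlinarith

end Pool.Agent.K5
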