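import Mathlib
import Pool.Agent.Work.MP_974d84_co_log.Choose

/-!
# Random centres: a union bound
-/

set_option linter.unusedSectionVars false

namespace Pool.Agent.K5

open Finset Pool.Agent.Log5

variable {A : Type} [Fintype A] [DecidableEq A]

/-- Functions which meet a set often. -/
theorem often_pow (M : ℕ) (B : Finset A) (m : ℕ) :
    (univ.filter fun f : Fin M → A => m ≤ (univ.filter fun g => f g ∈ B).card).card
      * Fintype.card A ^ m ≤ (M * B.card) ^ m * Fintype.card A ^ M := by
  set X : Finset (Fin M × A) := univ ×ˢ B with hX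
  have hXc : X.card = M * B.card := by rw [hX, card_product, card_univ, Fintype.card_fin]
  have hsub : (univ.filter fun f : Fin M → A => m ≤ (univ.filter fun g => f g ∈ B).card) ⊆
      (X.powersetCard m).biUnion fun Y =>
        univ.filter fun a : Fin M → A => ∀ p ∈ Y, a p.1 = p.2 := by
    intro a ha
    rw [mem_filter] at ha
    obtain ⟨J, hJ1, hJ2⟩ := exists_subset_card_eq ha.2
    rw [mem_biUnion]
    refine ⟨J.image fun i => (i, a i), ?_, ?_⟩
    · rw [mem_powersetCard]
      constructor
      · intro p hp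
        obtain ⟨i, hi, rfl⟩ := mem_image.1 hp
        exact mem_product.2 ⟨mem_univ _, (mem_filter.1 (hJ1 hi)).2⟩
      · rw [card_image_of_injective _ (fun i j h => (Prod.ext_iff.1 h).1), hJ2]
    · rw [mem_filter]
      refine ⟨mem_univ _, fun p hp => ?_⟩
      obtain ⟨i, hi, rfl⟩ := mem_image.1 hp
      rfl
  have h1 := (card_le_card hsub).trans card_biUnion_le
  calc _ ≤ (∑ Y ∈ X.powersetCard m,
        (univ.filter fun a : Fin M → A => ∀ p ∈ Y, a p.1 = p.2).card) * Fintype.card A ^ m :=
        Nat.mul_le_mul_right _ h1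
    _ = ∑ Y ∈ X.powersetCard m,
        (univ.filter fun a : Fin M → A => ∀ p ∈ Y, a p.1 = p.2).card * Fintype.card A ^ m := by
        rw [sum_mul]
    _ ≤ ∑ Y ∈ X.powersetCard m, Fintype.card A ^ M := by
        refine sum_le_sum fun Y hY => ?_
        have := through_card Y
        rw [(mem_powersetCard.1 hY).2, Fintype.card_fin] at this
        exact this
    _ = (X.powersetCard m).card * Fintype.card A ^ M := by
        rw [sum_const, smul_eq_mul]
    _ ≤ _ := by
        refine Nat.mul_le_mul_right _ ?_
        rw [card_powersetCard, ← hXc]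
        exact Nat.choose_le_pow _ _

/-- Functions with two values in conflict. -/
theorem conf_card (M : ℕ) (conf : A → A → Prop) [DecidableRel conf] (c : ℕ)
    (hc : ∀ x, (univ.filter fun y => conf x y).card ≤ c) (g g' : Fin M) (hg : g ≠ g') :
    (univ.filter fun f : Fin M → A => conf (f g) (f g')).card * Fintype.card A
      ≤ c * Fintype.card A ^ M := by
  rcases isEmpty_or_nonempty A with h0 | h0
  · have : (univ.filter fun f : Fin M → A => conf (f g) (f g')) = ∅ := by
      rw [filter_eq_empty_iff]
      intro f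
      exact (h0.false (f g)).elim
    rw [this]; simp
  have hpos : 0 < Fintype.card A := Fintype.card_pos
  have hsub : (univ.filter fun f : Fin M → A => conf (f g) (f g')) ⊆
      (univ : Finset A).biUnion fun x => (univ.filter fun y => conf x y).biUnion fun y =>
        univ.filter fun a : Fin M → A => ∀ p ∈ ({(g, x), (g', y)} : Finset (Fin M × A)),
          a p.1 = p.2 := by
    intro f hf
    rw [mem_filter] at hf
    rw [mem_biUnion]
    refine ⟨f g, mem_univ _, mem_biUnion.2 ⟨f g', mem_filter.2 ⟨mem_univ _, hf.2⟩,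
      mem_filter.2 ⟨mem_univ _, fun p hp => ?_⟩⟩⟩
    rw [mem_insert, mem_singleton] at hp
    rcases hp with rfl | rfl <;> rfl
  have h1 := (card_le_card hsub).trans (card_biUnion_le.trans
    (sum_le_sum fun x _ => card_biUnion_le))
  have h2 : ∀ x y : A, (univ.filter fun a : Fin M → A =>
      ∀ p ∈ ({(g, x), (g', y)} : Finset (Fin M × A)), a p.1 = p.2).card * Fintype.card A ^ 2 ≤
      Fintype.card A ^ M := by
    intro x y
    have := through_card ({(g, x), (g', y)} : Finset (Fin M × A))
    rw [card_pair (fun h => hg (Prod.ext_iff.1 h).1), Fintype.card_fin] at this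
    exact this
  have h3 : (univ.filter fun f : Fin M → A => conf (f g) (f g')).card * Fintype.card A ^ 2 ≤
      (c * Fintype.card A ^ M) * Fintype.card A := by
    calc _ ≤ (∑ x : A, ∑ y ∈ univ.filter fun y => conf x y, (univ.filter fun a : Fin M → A =>
          ∀ p ∈ ({(g, x), (g', y)} : Finset (Fin M × A)), a p.1 = p.2).card) *
          Fintype.card A ^ 2 := Nat.mul_le_mul_right _ h1
      _ = ∑ x : A, ∑ y ∈ univ.filter fun y => conf x y, (univ.filter fun a : Fin M → A =>
          ∀ p ∈ ({(g, x), (g', y)} : Finset (Fin M × A)), a p.1 = p.2).card *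
          Fintype.card A ^ 2 := by
          rw [sum_mul]
          exact sum_congr rfl fun x _ => by rw [sum_mul]
      _ ≤ ∑ x : A, ∑ y ∈ univ.filter fun y => conf x y, Fintype.card A ^ M :=
          sum_le_sum fun x _ => sum_le_sum fun y _ => h2 x y
      _ = ∑ x : A, (univ.filter fun y => conf x y).card * Fintype.card A ^ M :=
          sum_congr rfl fun x _ => by rw [sum_const, smul_eq_mul]
      _ ≤ ∑ _x : A, c * Fintype.card A ^ M :=
          sum_le_sum fun x _ => Nat.mul_le_mul_right _ (hc x)
      _ = _ := by rw [sum_const, smul_eq_mul, card_univ, mul_comm]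
  have h4 : (univ.filter fun f : Fin M → A => conf (f g) (f g')).card * Fintype.card A *
      Fintype.card A ≤ (c * Fintype.card A ^ M) * Fintype.card A := by
    rw [mul_assoc, ← pow_two]; exact h3
  exact Nat.le_of_mul_le_mul_right h4 hpos

/-- **Union bound.** Few conflicts and small bad sets: some choice has no conflict and meets no
bad set often. -/
theorem union_bound [Nonempty A] (M : ℕ) (conf : A → A → Prop) [DecidableRel conf] (c : ℕ)
    (hc : ∀ x, (univ.filter fun y => conf x y).card ≤ c) {ι : Type} (J : Finset ι)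
    (B : ι → Finset A) (m : ι → ℕ)
    (h : (M : ℝ) ^ 2 * c / Fintype.card A +
      ∑ j ∈ J, ((M * (B j).card : ℝ) / Fintype.card A) ^ m j < 1) :
    ∃ f : Fin M → A, (∀ g g', g ≠ g' → ¬ conf (f g) (f g')) ∧
      ∀ j ∈ J, (univ.filter fun g => f g ∈ B j).card < m j := by
  by_contra hcon
  push Not at hcon
  have hq : (0 : ℝ) < Fintype.card A := by exact_mod_cast Fintype.card_pos
  have hQ : (0 : ℝ) < (Fintype.card A : ℝ) ^ M := pow_pos hq _
  classical
  have hcov : (univ : Finset (Fin M → A)) ⊆
      ((univ : Finset (Fin M × Fin M)).filter fun p => p.1 ≠ p.2).biUnion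
        (fun p => univ.filter fun f : Fin M → A => conf (f p.1) (f p.2)) ∪
      J.biUnion fun j => univ.filter fun f : Fin M → A =>
        m j ≤ (univ.filter fun g => f g ∈ B j).card := by
    intro f _
    rw [mem_union]
    by_cases hf : ∀ g g', g ≠ g' → ¬ conf (f g) (f g')
    · obtain ⟨j, hj, h1⟩ := hcon f hf
      exact Or.inr (mem_biUnion.2 ⟨j, hj, mem_filter.2 ⟨mem_univ _, h1⟩⟩)
    · push Not at hf
      obtain ⟨g, g', hg, h1⟩ := hf
      exact Or.inl (mem_biUnion.2 ⟨(g, g'), mem_filter.2 ⟨mem_univ _, hg⟩,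
        mem_filter.2 ⟨mem_univ _, h1⟩⟩)
  have h1 : ((univ : Finset (Fin M → A)).card : ℝ) ≤
      ∑ p ∈ (univ : Finset (Fin M × Fin M)).filter fun p => p.1 ≠ p.2,
        ((univ.filter fun f : Fin M → A => conf (f p.1) (f p.2)).card : ℝ) +
      ∑ j ∈ J, ((univ.filter fun f : Fin M → A =>
        m j ≤ (univ.filter fun g => f g ∈ B j).card).card : ℝ) := by
    have := (card_le_card hcov).trans ((card_union_le _ _).trans
      (add_le_add card_biUnion_le card_biUnion_le))
    exact_mod_cast this
  have h2 : ∑ p ∈ (univ : Finset (Fin M × Fin M)).filter fun p => p.1 ≠ p.2,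
      ((univ.filter fun f : Fin M → A => conf (f p.1) (f p.2)).card : ℝ) ≤
      ((M : ℝ) ^ 2 * c / Fintype.card A) * (Fintype.card A : ℝ) ^ M := by
    have h3 : ∀ p ∈ (univ : Finset (Fin M × Fin M)).filter fun p => p.1 ≠ p.2,
        ((univ.filter fun f : Fin M → A => conf (f p.1) (f p.2)).card : ℝ) ≤
        c * (Fintype.card A : ℝ) ^ M / Fintype.card A := by
      intro p hp
      rw [le_div_iff₀ hq]
      exact_mod_cast conf_card M conf c hc p.1 p.2 (mem_filter.1 hp).2
    refine (sum_le_sum h3).trans ?_
    rw [sum_const, nsmul_eq_mul]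
    have h4 : (((univ : Finset (Fin M × Fin M)).filter fun p => p.1 ≠ p.2).card : ℝ) ≤
        (M : ℝ) ^ 2 := by
      have := card_le_univ ((univ : Finset (Fin M × Fin M)).filter fun p => p.1 ≠ p.2)
      rw [Fintype.card_prod, Fintype.card_fin] at this
      calc _ ≤ ((M * M : ℕ) : ℝ) := by exact_mod_cast this
        _ = (M : ℝ) ^ 2 := by push_cast; ring
    calc _ ≤ (M : ℝ) ^ 2 * (c * (Fintype.card A : ℝ) ^ M / Fintype.card A) :=
          mul_le_mul_of_nonneg_right h4 (by positivity)
      _ = _ := by ring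
  have h5 : ∀ j ∈ J, ((univ.filter fun f : Fin M → A =>
      m j ≤ (univ.filter fun g => f g ∈ B j).card).card : ℝ) ≤
      ((M * (B j).card : ℝ) / Fintype.card A) ^ m j * (Fintype.card A : ℝ) ^ M := by
    intro j _
    have h6 : ((univ.filter fun f : Fin M → A =>
        m j ≤ (univ.filter fun g => f g ∈ B j).card).card : ℝ) * (Fintype.card A : ℝ) ^ m j ≤
        (M * (B j).card : ℝ) ^ m j * (Fintype.card A : ℝ) ^ M := by
      exact_mod_cast often_pow M (B j) (m j)
    rw [div_pow, div_mul_eq_mul_div, le_div_iff₀ (pow_pos hq _)]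
    exact h6
  have h7 := sum_le_sum h5
  rw [← sum_mul] at h7
  have h8 : ((univ : Finset (Fin M → A)).card : ℝ) = (Fintype.card A : ℝ) ^ M := by
    rw [card_univ, Fintype.card_fun, Fintype.card_fin]; push_cast; rfl
  rw [h8] at h1
  have h9 := h1.trans (add_le_add h2 h7)
  rw [← add_mul] at h9
  nlinarith

end Pool.Agent.K5
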