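import Mathlib
import Pool.Agent.Work.MP_974d84_co_k5.CentresFill
import Pool.Agent.Work.MP_974d84_co_k5.CentresUnion
import Pool.Agent.Work.MP_974d84_co_k5.CentresNum

/-!
# The centres in one core
-/

set_option linter.unusedSectionVars false

namespace Pool.Agent.K5

open Finset SimpleGraph Pool.Agent.Exp Pool.Agent.Log5 Pool.Agent.Log5.Clu

/-- The sum over the bonds of a core. -/
theorem sum_bonds {V : Type} [Fintype V] [DecidableEq V] (G : SimpleGraph V) [DecidableRel G.Adj]
    {θ : ℝ} {k : ℕ} {S : Finset V} {J : Finset (Finset V)}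
    (hJ : ∀ F ∈ J, F ⊆ S ∧ F.Nonempty ∧ k ≤ dd G F ∧ dd G F < S.card)
    (hcount : ∀ t D, k ≤ D → ((J.filter fun F => t ∈ F ∧ dd G F = D).card : ℝ) ≤
      Real.exp (9 * D))
    (hnum : ∀ D : ℕ, k ≤ D → 9 * (D : ℝ) - θ * D * (Real.log S.card / 3) ≤
      - (3 * Real.log S.card)) (hs : 4 ≤ S.card) :
    ∑ F ∈ J, Real.exp (-(θ * dd G F * (Real.log S.card / 3))) ≤ 1 / 4 := by
  have hs0 : (0 : ℝ) < S.card := by exact_mod_cast (by omega : 0 < S.card)
  set P : Finset (ℕ × V) := (range S.card) ×ˢ S with hP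
  have h1 : ∑ F ∈ J, Real.exp (-(θ * dd G F * (Real.log S.card / 3))) ≤
      ∑ F ∈ J, ∑ p ∈ P, if p.2 ∈ F ∧ dd G F = p.1 then
        Real.exp (-(θ * dd G F * (Real.log S.card / 3))) else 0 := by
    refine sum_le_sum fun F hF => ?_
    obtain ⟨h3, ⟨t, ht⟩, _, h4⟩ := hJ F hF
    have h5 : (dd G F, t) ∈ P := mem_product.2 ⟨mem_range.2 h4, h3 ht⟩
    refine le_trans ?_ (single_le_sum (f := fun p : ℕ × V => if p.2 ∈ F ∧ dd G F = p.1 then
        Real.exp (-(θ * dd G F * (Real.log S.card / 3))) else 0) (fun p _ => ?_) h5)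
    · simp [ht]
    · split_ifs
      · exact (Real.exp_pos _).le
      · exact le_refl _
  rw [sum_comm] at h1
  have h2 : ∀ p ∈ P, (∑ F ∈ J, if p.2 ∈ F ∧ dd G F = p.1 then
        Real.exp (-(θ * dd G F * (Real.log S.card / 3))) else 0) ≤
        ((S.card : ℝ) ^ 3)⁻¹ := by
    intro p _
    rw [← sum_filter]
    by_cases hk : k ≤ p.1
    · have h3 : ∀ F ∈ J.filter (fun F => p.2 ∈ F ∧ dd G F = p.1),
          Real.exp (-(θ * dd G F * (Real.log S.card / 3))) ≤
          Real.exp (-(θ * p.1 * (Real.log S.card / 3))) := by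
        intro F hF
        rw [(mem_filter.1 hF).2.2]
      refine (sum_le_sum h3).trans ?_
      rw [sum_const, nsmul_eq_mul]
      calc _ ≤ Real.exp (9 * p.1) * Real.exp (-(θ * p.1 * (Real.log S.card / 3))) :=
            mul_le_mul_of_nonneg_right (hcount p.2 p.1 hk) (Real.exp_pos _).le
        _ = Real.exp (9 * p.1 - θ * p.1 * (Real.log S.card / 3)) := by
            rw [← Real.exp_add]; congr 1
        _ ≤ Real.exp (-(3 * Real.log S.card)) := Real.exp_le_exp.2 (hnum p.1 hk)
        _ = ((S.card : ℝ) ^ 3)⁻¹ := by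
            rw [Real.exp_neg]
            congr 1
            rw [show (3 : ℝ) * Real.log S.card = ((3 : ℕ) : ℝ) * Real.log S.card by norm_num,
              Real.exp_nat_mul, Real.exp_log hs0]
    · have h3 : J.filter (fun F => p.2 ∈ F ∧ dd G F = p.1) = ∅ := by
        rw [filter_eq_empty_iff]
        rintro F hF ⟨_, h4⟩
        exact hk (h4 ▸ (hJ F hF).2.2.1)
      rw [h3, sum_empty]
      positivity
  refine h1.trans ((sum_le_sum h2).trans ?_)
  rw [sum_const, nsmul_eq_mul, hP, card_product, card_range]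
  push_cast
  have h4 : (4 : ℝ) ≤ S.card := by exact_mod_cast hs
  have h5 : (S.card : ℝ) * S.card * ((S.card : ℝ) ^ 3)⁻¹ = 1 / S.card := by field_simp
  rw [h5]
  exact one_div_le_one_div_of_le (by norm_num) h4

/-- **Centres in one core.** -/
theorem centres_core {θ η C : ℝ} (hθ : 0 < θ) (hη : 0 < η) (hηθ : 20 * η ≤ θ) (hC : 1 ≤ C)
    (hC' : 1 ≤ η * C) (R : ℕ) : ∃ k₀ : ℕ, ∀ k, k₀ ≤ k → ∀ {V : Type} [Fintype V]
    [DecidableEq V] (G : SimpleGraph V) [DecidableRel G.Adj], (∀ v, G.degree v = 3) →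
    (∀ A : Finset V, A.Nonempty → Aᶜ.Nonempty → 1 ≤ dd G A) → CycConn G k →
    ∀ S : Finset V, k ≤ S.card → (∀ A ⊂ S, A.Nonempty → gf C A.card ≤ dd G A) →
    (∀ A ⊆ S, S.card ≤ 2 * A.card → gf C S.card ≤ 10 * dd G A) →
    (∀ (t : V) (D : ℕ) (F : Finset (Finset V)), C ≤ D →
      (∀ Z ∈ F, t ∈ Z ∧ RBond G S id Z ∧ dd G Z = D ∧ 2 * Z.card ≤ S.card) →
      (F.card : ℝ) ≤ Real.exp (9 * D)) →
    ∀ I ⊆ S, S.card ≤ 2 * I.card → ∃ (M : ℕ) (β : Fin M → V), η * gf C S.card ≤ M ∧
      (M : ℝ) ≤ 2 * (η * gf C S.card) ∧ (∀ g, β g ∈ I) ∧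
      (∀ g g', g ≠ g' → Disjoint (Bl G.Adj R (β g)) (Bl G.Adj R (β g'))) ∧
      ∀ Z, Z ⊆ S → Joined G Z → k₀ ≤ dd G Z →
        ((univ.filter fun g => ¬ Disjoint (Bl G.Adj R (β g)) Z).card : ℝ) ≤ θ * dd G Z := by
  obtain ⟨k₁, hk1, hnum⟩ := centre_numbers hθ hη hC hC' R
  refine ⟨k₁ + ⌈C⌉₊, fun k hk V _ _ G _ h3 hbr hcc S hkS hsub hhalf hrc I hIS hI => ?_⟩
  classical
  set k₀ : ℕ := k₁ + ⌈C⌉₊ with hk0
  have hkC : C ≤ k₀ := by
    have : ⌈C⌉₊ ≤ k₀ := by omega
    exact (Nat.le_ceil _).trans (by exact_mod_cast this)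
  obtain ⟨n1, n2, n3, n4⟩ := hnum S.card (by omega)
  have hs0 : (0 : ℝ) < S.card := by exact_mod_cast (by omega : 0 < S.card)
  have hlog0 : 0 ≤ Real.log S.card := Real.log_nonneg (by exact_mod_cast (by omega : 1 ≤ S.card))
  set M : ℕ := ⌈η * gf C S.card⌉₊ with hM
  have hM1 : η * gf C S.card ≤ M := Nat.le_ceil _
  have hM2 : (M : ℝ) ≤ 2 * (η * gf C S.card) := by
    have := Nat.ceil_lt_add_one (a := η * gf C S.card) (by linarith)
    rw [hM]; linarith
  obtain ⟨m1, m2⟩ := n2 M hM2
  -- the type of the inner vertices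
  have hIpos : 0 < I.card := by omega
  obtain ⟨x₀, hx₀⟩ := card_pos.1 hIpos
  haveI : Nonempty {x // x ∈ I} := ⟨⟨x₀, hx₀⟩⟩
  have hcardI : Fintype.card {x // x ∈ I} = I.card := by simp
  have hI2 : (S.card : ℝ) / 2 ≤ (Fintype.card {x // x ∈ I} : ℝ) := by
    rw [hcardI]
    have : (S.card : ℝ) ≤ 2 * I.card := by exact_mod_cast hI
    linarith
  have hS2 : (0 : ℝ) < (S.card : ℝ) / 2 := by positivity
  have hIr : (0 : ℝ) < (Fintype.card {x // x ∈ I} : ℝ) := lt_of_lt_of_le hS2 hI2
  -- conflicts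
  set conf : {x // x ∈ I} → {x // x ∈ I} → Prop := fun x y =>
    ¬ Disjoint (Bl G.Adj R (x : V)) (Bl G.Adj R (y : V)) with hconf
  have hc : ∀ x, (univ.filter fun y => conf x y).card ≤ 3 * 2 ^ (2 * R) := by
    intro x
    have h1 : ((univ.filter fun y => conf x y).image fun y : {x // x ∈ I} => (y : V)) ⊆
        Bl G.Adj (R + R) (x : V) := by
      intro v hv
      obtain ⟨y, hy, rfl⟩ := mem_image.1 hv
      have h2 := (mem_filter.1 hy).2
      rw [hconf] at h2
      obtain ⟨z, hz1, hz2⟩ := not_disjoint_iff.1 h2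
      exact Bl_comp hz1 (Bl_symm (fun u v h => h.symm) hz2)
    have h2 := card_le_card h1
    rw [card_image_of_injective _ Subtype.val_injective] at h2
    have h3' := Bl_card G h3 (R + R) (x : V)
    rw [← two_mul] at h2 h3'
    omega
  -- the family of bonds
  set J : Finset (Finset V) := univ.filter fun F => RBond G S id F ∧ k₀ ≤ dd G F ∧
    10 * (dd G F : ℝ) < gf C S.card ∧ 2 * F.card ≤ S.card ∧ gf C F.card ≤ dd G F with hJd
  have hJm : ∀ F ∈ J, RBond G S id F ∧ k₀ ≤ dd G F ∧
      10 * (dd G F : ℝ) < gf C S.card ∧ 2 * F.card ≤ S.card ∧ gf C F.card ≤ dd G F :=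
    fun F hF => (mem_filter.1 hF).2
  have hgs : gf C S.card ≤ S.card + 2 := min_le_left _ _
  have hsb := sum_bonds G (θ := θ) (k := k₀) (S := S) (J := J)
    (fun F hF => by
      obtain ⟨a1, a2, a3, a4, a5⟩ := hJm F hF
      refine ⟨a1.sub, a1.ne, a2, ?_⟩
      have h5 : (4 : ℝ) ≤ S.card := by exact_mod_cast (by omega : 4 ≤ S.card)
      have h4 : (dd G F : ℝ) < S.card := by
        have : (0 : ℝ) ≤ dd G F := Nat.cast_nonneg _
        linarith
      exact_mod_cast h4)
    (fun t D hD => by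
      refine hrc t D _ (hkC.trans (by exact_mod_cast hD)) fun Z hZ => ?_
      obtain ⟨b1, b2, b3⟩ := mem_filter.1 hZ
      obtain ⟨a1, a2, a3, a4, a5⟩ := hJm Z b1
      exact ⟨b2, a1, b3, a4⟩)
    (fun D hD => n4 D (by omega)) (by omega)
  set B : Finset V → Finset {x // x ∈ I} := fun F =>
    univ.filter fun x => ¬ Disjoint (Bl G.Adj R (x : V)) F with hB
  have hBc : ∀ F, (B F).card ≤ 3 * 2 ^ R * F.card := by
    intro F
    have h1 : ((B F).image fun y : {x // x ∈ I} => (y : V)) ⊆
        F.biUnion fun u => Bl G.Adj R u := by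
      intro v hv
      obtain ⟨y, hy, rfl⟩ := mem_image.1 hv
      have h2 := (mem_filter.1 hy).2
      obtain ⟨z, hz1, hz2⟩ := not_disjoint_iff.1 h2
      exact mem_biUnion.2 ⟨z, hz2, Bl_symm (fun u v h => h.symm) hz1⟩
    have h2 := (card_le_card h1).trans card_biUnion_le
    rw [card_image_of_injective _ Subtype.val_injective] at h2
    refine h2.trans ((sum_le_sum fun u _ => (by
      have := Bl_card G h3 R u; omega : (Bl G.Adj R u).card ≤ 3 * 2 ^ R)).trans ?_)
    rw [sum_const, smul_eq_mul, mul_comm]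
  set m : Finset V → ℕ := fun F => ⌊θ * dd G F⌋₊ + 1 with hm
  have hub := union_bound (A := {x // x ∈ I}) M conf (3 * 2 ^ (2 * R)) hc J B m (by
    have u1 : (M : ℝ) ^ 2 * ((3 * 2 ^ (2 * R) : ℕ) : ℝ) / Fintype.card {x // x ∈ I} ≤ 1 / 2 := by
      refine le_trans ?_ m1
      push_cast
      exact div_le_div_of_nonneg_left (by positivity) hS2 hI2
    have u2 : ∑ F ∈ J, ((M * (B F).card : ℝ) / Fintype.card {x // x ∈ I}) ^ m F ≤ 1 / 4 := by
      refine (sum_le_sum fun F hF => ?_).trans hsb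
      obtain ⟨a1, a2, a3, a4, a5⟩ := hJm F hF
      have hFc : (F.card : ℝ) ≤ Real.exp (Real.log S.card / 3) :=
        n3 F.card (dd G F) (card_pos.2 a1.ne) a5 a3
      have h1 : ((M * (B F).card : ℝ) / Fintype.card {x // x ∈ I}) ≤
          Real.exp (-(Real.log S.card / 3)) := by
        refine le_trans ?_ m2
        have h2 : ((B F).card : ℝ) ≤ 3 * 2 ^ R * Real.exp (Real.log S.card / 3) := by
          have h4 : ((B F).card : ℝ) ≤ 3 * 2 ^ R * F.card := by exact_mod_cast hBc F
          refine h4.trans ?_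
          gcongr
        calc ((M * (B F).card : ℝ) / Fintype.card {x // x ∈ I}) ≤
            (M * (B F).card : ℝ) / ((S.card : ℝ) / 2) :=
              div_le_div_of_nonneg_left (by positivity) hS2 hI2
          _ ≤ _ := by gcongr
      have h0 : 0 ≤ ((M * (B F).card : ℝ) / Fintype.card {x // x ∈ I}) := by positivity
      calc ((M * (B F).card : ℝ) / Fintype.card {x // x ∈ I}) ^ m F ≤
          Real.exp (-(Real.log S.card / 3)) ^ m F := pow_le_pow_left₀ h0 h1 _
        _ = Real.exp ((m F : ℕ) * (-(Real.log S.card / 3))) := by rw [Real.exp_nat_mul]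
        _ ≤ Real.exp (-(θ * dd G F * (Real.log S.card / 3))) := by
            refine Real.exp_le_exp.2 ?_
            have h5 : θ * dd G F ≤ (m F : ℕ) := by
              rw [hm]; push_cast
              exact (Nat.lt_floor_add_one _).le
            nlinarith
    have u3 : (1 : ℝ) / 2 + 1 / 4 < 1 := by norm_num
    linarith)
  obtain ⟨f, hf1, hf2⟩ := hub
  refine ⟨M, fun g => (f g : V), hM1, hM2, fun g => (f g).2, fun g g' hg => ?_,
    fun Z hZS hZj hZk => ?_⟩
  · have := hf1 g g' hg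
    rw [hconf] at this
    simpa using this
  · by_cases hbig : gf C S.card ≤ 10 * dd G Z
    · have h1 : ((univ.filter fun g => ¬ Disjoint (Bl G.Adj R (f g : V)) Z).card : ℝ) ≤ M := by
        have := card_le_univ (univ.filter fun g : Fin M => ¬ Disjoint (Bl G.Adj R (f g : V)) Z)
        rw [Fintype.card_fin] at this
        exact_mod_cast this
      refine h1.trans (hM2.trans ?_)
      have h2 : η * gf C S.card ≤ η * (10 * dd G Z) := mul_le_mul_of_nonneg_left hbig hη.le
      have h4 : (0 : ℝ) ≤ dd G Z := Nat.cast_nonneg _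
      nlinarith
    · push Not at hbig
      have hZne : Z.Nonempty := by
        rw [nonempty_iff_ne_empty]
        rintro rfl
        have : dd G (∅ : Finset V) = 0 := by
          unfold dd
          rw [card_eq_zero, eq_empty_iff_forall_notMem]
          intro p hp
          exact absurd ((mem_cut G).1 hp).1 (notMem_empty _)
        omega
      obtain ⟨F, hZF, hFS, hdF, hrb, hFe⟩ := exists_fill G hbr hZS hZne hZj
      have hdF' : (dd G F : ℝ) ≤ dd G Z := by exact_mod_cast hdF
      have h2F : ¬ S.card ≤ 2 * F.card := by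
        intro h
        have := hhalf F hFS h
        linarith
      have hFne : F ≠ S := by
        rintro rfl
        omega
      have hFss : F ⊂ S := ⟨hFS, fun h => hFne (hFS.antisymm h)⟩
      have hkF : k₀ ≤ dd G F := by
        by_cases c1 : (G.induce (F : Set V)).IsAcyclic
        · exact hZk.trans (dd_le_of_fill G h3 hZne hZj hZF c1)
        · by_cases c2 : (G.induce ((Fᶜ : Finset V) : Set V)).IsAcyclic
          · exfalso
            have h5 : (S \ F) ⊆ Fᶜ := fun v hv => mem_compl.2 (mem_sdiff.1 hv).2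
            have h6 := card_le_card h5
            rw [card_sdiff_of_subset hFS] at h6
            have hne : (Fᶜ).Nonempty := by
              rw [← card_pos]; omega
            have h7 := dd_of_acyclic G h3 hne c2
            rw [dd_compl] at h7
            have h8 : S.card + 2 ≤ 2 * dd G F := by omega
            have h9 : (S.card : ℝ) + 2 ≤ 2 * dd G F := by exact_mod_cast h8
            have : (0 : ℝ) ≤ dd G F := Nat.cast_nonneg _
            linarith
          · exact hk.trans (hcc F c1 c2)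
      have hFJ : F ∈ J := by
        rw [hJd, mem_filter]
        refine ⟨mem_univ _, hrb, hkF, by linarith, by omega, hsub F hFss hrb.ne⟩
      have h10 := hf2 F hFJ
      have h11 : (univ.filter fun g => ¬ Disjoint (Bl G.Adj R (f g : V)) Z) ⊆
          univ.filter fun g => f g ∈ B F := by
        intro g hg
        rw [mem_filter] at hg ⊢
        refine ⟨mem_univ _, ?_⟩
        rw [hB, mem_filter]
        exact ⟨mem_univ _, fun h => hg.2 (disjoint_of_subset_right hZF h)⟩
      have h12 := card_le_card h11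
      have h13 : (univ.filter fun g => ¬ Disjoint (Bl G.Adj R (f g : V)) Z).card ≤
          ⌊θ * dd G F⌋₊ := by
        rw [hm] at h10
        have := h12
        have h14 : (univ.filter fun g => f g ∈ B F).card < ⌊θ * dd G F⌋₊ + 1 := h10
        omega
      calc ((univ.filter fun g => ¬ Disjoint (Bl G.Adj R (f g : V)) Z).card : ℝ) ≤
          (⌊θ * dd G F⌋₊ : ℝ) := by exact_mod_cast h13
        _ ≤ θ * dd G F := Nat.floor_le (by positivity)
        _ ≤ θ * dd G Z := by gcongr

end Pool.Agent.K5
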