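import Mathlib
import Pool.Agent.Work.MP_974d84_co_k5.Defs5

/-!
# Interior vertices of a core and vertices whose balls meet a set
-/

set_option linter.unusedSectionVars false

namespace Pool.Agent.K5

open Finset SimpleGraph Pool.Agent.Exp Pool.Agent.Log5 Pool.Agent.Log5.Clu
open Pool.Agent.Work.MP_314beb_co

variable {V : Type} [Fintype V] [DecidableEq V] {G : SimpleGraph V} [DecidableRel G.Adj]

/-- A ball which leaves `S` contains the inner end of a cut edge. -/
theorem exists_cut_of_ball {S : Finset V} {v y : V} (hv : v ∈ S) {n : ℕ}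
    (hy : y ∈ Bl G.Adj n v) (hyS : y ∉ S) : ∃ p ∈ cut G S, p.1 ∈ Bl G.Adj n v := by
  induction n generalizing y with
  | zero =>
    rw [mem_Bl_zero] at hy
    subst hy
    exact absurd hv hyS
  | succ n ih =>
    rw [mem_Bl_succ] at hy
    rcases hy with hy | ⟨u, hu, huy⟩
    · obtain ⟨p, hp, h⟩ := ih hy hyS
      exact ⟨p, hp, Bl_mono (Nat.le_succ n) v h⟩
    · by_cases huS : u ∈ S
      · exact ⟨(u, y), (mem_cut G).2 ⟨huS, hyS, huy⟩, Bl_mono (Nat.le_succ n) v hu⟩
      · obtain ⟨p, hp, h⟩ := ih hu huS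
        exact ⟨p, hp, Bl_mono (Nat.le_succ n) v h⟩

theorem bl_symm5 {n : ℕ} {v w : V} (h : w ∈ Bl G.Adj n v) : v ∈ Bl G.Adj n w :=
  Bl_symm (fun _ _ h => h.symm) h

theorem bl_card5 (h3 : ∀ v, G.degree v = 3) (n : ℕ) (v : V) :
    (Bl G.Adj n v).card ≤ 3 * 2 ^ n := by
  have := Bl_card G h3 n v
  omega

/-- Few vertices have a ball which meets `F`. -/
theorem meet_card (h3 : ∀ v, G.degree v = 3) (R : ℕ) (I F : Finset V) :
    (I.filter fun v => ¬ Disjoint (Bl G.Adj R v) F).card ≤ 3 * 2 ^ R * F.card := by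
  have hsub : (I.filter fun v => ¬ Disjoint (Bl G.Adj R v) F) ⊆
      F.biUnion fun x => Bl G.Adj R x := by
    intro v hv
    rw [mem_filter, not_disjoint_iff] at hv
    obtain ⟨-, x, hx, hxF⟩ := hv
    exact mem_biUnion.2 ⟨x, hxF, bl_symm5 hx⟩
  calc _ ≤ (F.biUnion fun x => Bl G.Adj R x).card := card_le_card hsub
    _ ≤ F.card * (3 * 2 ^ R) := card_biUnion_le_card_mul _ _ _ fun x _ => bl_card5 h3 R x
    _ = _ := mul_comm _ _

/-- Few balls meet a given ball. -/
theorem conf_ball (h3 : ∀ v, G.degree v = 3) (R : ℕ) (x : V) :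
    (univ.filter fun y => ¬ Disjoint (Bl G.Adj R x) (Bl G.Adj R y)).card ≤ 3 * 2 ^ (2 * R) := by
  have hsub : (univ.filter fun y => ¬ Disjoint (Bl G.Adj R x) (Bl G.Adj R y)) ⊆
      Bl G.Adj (2 * R) x := by
    intro y hy
    rw [mem_filter, not_disjoint_iff] at hy
    obtain ⟨-, z, hz, hz'⟩ := hy
    rw [two_mul]
    exact Bl_comp hz (bl_symm5 hz')
  exact (card_le_card hsub).trans (bl_card5 h3 _ x)

/-- Most vertices of a core are interior and far from `T`. -/
theorem interior (h3 : ∀ v, G.degree v = 3) (R : ℕ) {S T : Finset V} {N : ℕ}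
    (hN : 36 * 2 ^ R ≤ N) (hS : N * dd G S ≤ S.card) (hT : N * (T ∩ S).card ≤ 2 * S.card) :
    S.card ≤ 2 * (S.filter fun v => Bl G.Adj R v ⊆ S ∧ Disjoint (Bl G.Adj R v) T).card := by
  classical
  set B1 := (cut G S).biUnion fun p => Bl G.Adj R p.1 with hB1
  set B2 := (T ∩ S).biUnion fun x => Bl G.Adj R x with hB2
  have h1 : B1.card ≤ dd G S * (3 * 2 ^ R) :=
    card_biUnion_le_card_mul _ _ _ fun p _ => bl_card5 h3 R p.1
  have h2 : B2.card ≤ (T ∩ S).card * (3 * 2 ^ R) :=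
    card_biUnion_le_card_mul _ _ _ fun p _ => bl_card5 h3 R p
  have hsub : S ⊆ (S.filter fun v => Bl G.Adj R v ⊆ S ∧ Disjoint (Bl G.Adj R v) T) ∪
      (B1 ∪ B2) := by
    intro v hv
    rw [mem_union]
    by_cases h : Bl G.Adj R v ⊆ S
    · by_cases h' : Disjoint (Bl G.Adj R v) T
      · exact Or.inl (mem_filter.2 ⟨hv, h, h'⟩)
      · rw [not_disjoint_iff] at h'
        obtain ⟨x, hx, hxT⟩ := h'
        exact Or.inr (mem_union_right _
          (mem_biUnion.2 ⟨x, mem_inter.2 ⟨hxT, h hx⟩, bl_symm5 hx⟩))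
    · rw [not_subset] at h
      obtain ⟨y, hy, hyS⟩ := h
      obtain ⟨p, hp, hpv⟩ := exists_cut_of_ball hv hy hyS
      exact Or.inr (mem_union_left _ (mem_biUnion.2 ⟨p, hp, bl_symm5 hpv⟩))
  have h4 := (card_le_card hsub).trans ((card_union_le _ _).trans
    (Nat.add_le_add_left (card_union_le _ _) _))
  set g := (S.filter fun v => Bl G.Adj R v ⊆ S ∧ Disjoint (Bl G.Adj R v) T).card with hg
  have h5 : N * (B1.card + B2.card) ≤ 9 * 2 ^ R * S.card := by
    calc N * (B1.card + B2.card)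
        ≤ N * (dd G S * (3 * 2 ^ R) + (T ∩ S).card * (3 * 2 ^ R)) :=
          Nat.mul_le_mul_left _ (Nat.add_le_add h1 h2)
      _ = (N * dd G S + N * (T ∩ S).card) * (3 * 2 ^ R) := by ring
      _ ≤ (S.card + 2 * S.card) * (3 * 2 ^ R) :=
          Nat.mul_le_mul_right _ (Nat.add_le_add hS hT)
      _ = _ := by ring
  have h6 : 36 * 2 ^ R * (B1.card + B2.card) ≤ 9 * 2 ^ R * S.card :=
    (Nat.mul_le_mul_right _ hN).trans h5
  have h7 : 4 * (B1.card + B2.card) ≤ S.card := by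
    have hp : 0 < 9 * 2 ^ R := by positivity
    refine Nat.le_of_mul_le_mul_left ?_ hp
    calc 9 * 2 ^ R * (4 * (B1.card + B2.card)) = 36 * 2 ^ R * (B1.card + B2.card) := by ring
      _ ≤ _ := h6
  omega

end Pool.Agent.K5
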