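import Mathlib
import Pool.Agent.Work.MP_974d84_co_iso.NumH
import Pool.Agent.Work.MP_974d84_co_k5.Defs5

/-!
# The cluster lemma in a region

The vertices outside of a region are one class, which is never the smallest one and has
potential zero.
-/

set_option linter.unusedSectionVars false

namespace Pool.Agent.K5

open Finset SimpleGraph Pool.Agent.Exp Pool.Agent.Log5 Pool.Agent.Log5.Clu Pool.Agent.Iso5
open Pool.Agent.Work.MP_314beb_co

variable {V : Type} [Fintype V] [DecidableEq V] (G : SimpleGraph V) [DecidableRel G.Adj]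

/-- Potential of a vertex: zero in the classes which meet `O`. -/
def hO (h : ℕ → ℝ) (O : Finset V) (c : V → V) (x : V) : ℝ :=
  if Disjoint (cls c x) O then h (cls c x).card else 0

/-- Potential of a vertex set. -/
def PhiO (h : ℕ → ℝ) (O : Finset V) (c : V → V) (S : Finset V) : ℝ :=
  ∑ p ∈ cut G S, (hO h O c p.1 + hO h O c p.2)

variable {G}

theorem hO_nonneg {h : ℕ → ℝ} (h0 : ∀ a, 0 ≤ h a) (O : Finset V) (c : V → V) (x : V) :
    0 ≤ hO h O c x := by
  unfold hO
  split_ifs
  · exact h0 _
  · exact le_refl _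

theorem PhiO_compl (h : ℕ → ℝ) (O : Finset V) (c : V → V) (S : Finset V) :
    PhiO G h O c Sᶜ = PhiO G h O c S := by
  unfold PhiO
  rw [cut_compl, sum_image (fun a _ b _ h => Prod.swap_injective h)]
  exact sum_congr rfl fun p _ => by simp [add_comm]

theorem PhiO_nonneg {h : ℕ → ℝ} (h0 : ∀ a, 0 ≤ h a) (O : Finset V) (c : V → V) (S : Finset V) :
    0 ≤ PhiO G h O c S :=
  sum_nonneg fun p _ => add_nonneg (hO_nonneg h0 O c _) (hO_nonneg h0 O c _)

theorem exp_PhiO_le_one {h : ℕ → ℝ} (h0 : ∀ a, 0 ≤ h a) (O : Finset V) (c : V → V)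
    (S : Finset V) : Real.exp (- PhiO G h O c S) ≤ 1 := by
  rw [← Real.exp_zero]
  apply Real.exp_le_exp.2
  have := PhiO_nonneg (G := G) h0 O c S
  linarith

/-- The potential for classes of size at least `K`. -/
theorem PhiO_le {h : ℕ → ℝ} (h0 : ∀ a, 0 ≤ h a) (hanti : ∀ a b, 1 ≤ a → a ≤ b → h b ≤ h a)
    {K : ℕ} (hK : 1 ≤ K) {c : V → V} (hc : ∀ x, K ≤ (cls c x).card) (O S : Finset V) :
    PhiO G h O c S ≤ 2 * h K * dd G S := by
  unfold PhiO dd
  have h1 : ∀ x, hO h O c x ≤ h K := by
    intro x
    unfold hO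
    split_ifs
    · exact hanti K _ hK (hc x)
    · exact h0 _
  have h2 : ∀ p ∈ cut G S, hO h O c p.1 + hO h O c p.2 ≤ 2 * h K := by
    intro p _
    have h3 := h1 p.1
    have h4 := h1 p.2
    linarith
  refine (sum_le_sum h2).trans (le_of_eq ?_)
  rw [sum_const, nsmul_eq_mul, mul_comm]

theorem PhiO_merge_aux {h : ℕ → ℝ} (h0 : ∀ a, 0 ≤ h a)
    (hanti : ∀ a b, 1 ≤ a → a ≤ b → h b ≤ h a) {O : Finset V} {c : V → V}
    {x0 y : V} (hy : c y ≠ c x0) (hxO : Disjoint (cls c x0) O)
    (hsm : Disjoint (cls c y) O → (cls c x0).card ≤ (cls c y).card) {S : Finset V}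
    (hAS : cls c x0 ⊆ S) :
    PhiO G h O (mrg c x0 y) S
      + (qq G (cls c x0) S).card * (h (cls c x0).card - h (2 * (cls c x0).card))
      ≤ PhiO G h O c S := by
  set A := cls c x0 with hA
  have hmono : ∀ z, hO h O (mrg c x0 y) z ≤ hO h O c z := by
    intro z
    unfold hO
    by_cases h1 : Disjoint (cls (mrg c x0 y) z) O
    · have h2 : Disjoint (cls c z) O := h1.mono_left (cls_sub_mrg c x0 y z)
      rw [if_pos h1, if_pos h2]
      exact hanti _ _ (cls_card_pos c z) (card_le_card (cls_sub_mrg c x0 y z))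
    · rw [if_neg h1]
      split_ifs
      · exact h0 _
      · exact le_refl _
  have hAz : ∀ z ∈ A, hO h O (mrg c x0 y) z + (h A.card - h (2 * A.card)) ≤ hO h O c z := by
    intro z hz
    have hz' : c z = c x0 := mem_cls.1 hz
    have h1 : cls c z = A := by ext w; rw [mem_cls, hA, mem_cls, hz']
    have h2 : cls (mrg c x0 y) z = A ∪ cls c y := cls_mrg_of (Or.inl hz')
    have h3 : Disjoint A (cls c y) := by
      rw [Finset.disjoint_left]
      intro w hw hw'
      rw [hA, mem_cls] at hw
      rw [mem_cls] at hw'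
      exact hy (hw'.symm.trans hw)
    unfold hO
    rw [h1, if_pos hxO, h2]
    by_cases h4 : Disjoint (A ∪ cls c y) O
    · rw [if_pos h4, card_union_of_disjoint h3]
      have h5 : h (A.card + (cls c y).card) ≤ h (2 * A.card) := by
        apply hanti
        · have := cls_card_pos c x0
          rw [← hA] at this
          omega
        · have := hsm (h4.mono_left subset_union_right)
          omega
      linarith
    · rw [if_neg h4]
      have := h0 (2 * A.card)
      linarith
  have hQ : qq G A S = (cut G S).filter fun p => p.1 ∈ A := by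
    ext p
    unfold qq
    rw [mem_filter, mem_filter, mem_cut, mem_cut]
    constructor
    · rintro ⟨⟨h1, h2, h3⟩, h4⟩
      have h5 : p.1 ∈ S := hAS h1
      have h6 : p.2 ∉ S := fun h => h4 ⟨fun _ => h, fun _ => h5⟩
      exact ⟨⟨h5, h6, h3⟩, h1⟩
    · rintro ⟨⟨h1, h2, h3⟩, h4⟩
      exact ⟨⟨h4, fun h => h2 (hAS h), h3⟩, fun h => h2 (h.1 h1)⟩
  have h1 : ∀ p ∈ cut G S, (hO h O (mrg c x0 y) p.1 + hO h O (mrg c x0 y) p.2)
      + (if p.1 ∈ A then (h A.card - h (2 * A.card)) else 0) ≤ hO h O c p.1 + hO h O c p.2 := by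
    intro p hp
    by_cases h5 : p.1 ∈ A
    · rw [if_pos h5]
      have := hAz p.1 h5
      have := hmono p.2
      linarith
    · rw [if_neg h5]
      have := hmono p.1
      have := hmono p.2
      linarith
  have h2 := sum_le_sum h1
  rw [sum_add_distrib, ← sum_filter, sum_const, nsmul_eq_mul, ← hQ] at h2
  exact h2

theorem PhiO_merge {h : ℕ → ℝ} (h0 : ∀ a, 0 ≤ h a)
    (hanti : ∀ a b, 1 ≤ a → a ≤ b → h b ≤ h a) {O : Finset V} {c : V → V}
    {x0 y : V} (hy : c y ≠ c x0) (hxO : Disjoint (cls c x0) O)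
    (hsm : Disjoint (cls c y) O → (cls c x0).card ≤ (cls c y).card) {S : Finset V}
    (hAS : cls c x0 ⊆ S ∨ cls c x0 ⊆ Sᶜ) :
    PhiO G h O (mrg c x0 y) S
      + (qq G (cls c x0) S).card * (h (cls c x0).card - h (2 * (cls c x0).card))
      ≤ PhiO G h O c S := by
  rcases hAS with h' | h'
  · exact PhiO_merge_aux h0 hanti hy hxO hsm h'
  · have := PhiO_merge_aux (G := G) h0 hanti hy hxO hsm h'
    rwa [PhiO_compl, PhiO_compl, qq_compl] at this

open Classical in
/-- One step: the smallest class which does not meet `O` is merged along its boundary edges. -/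
theorem step_lemma {h : ℕ → ℝ} (h0 : ∀ a, 0 ≤ h a) (hanti : ∀ a b, 1 ≤ a → a ≤ b → h b ≤ h a)
    {O : Finset V} {c : V → V} {x0 : V} (hxO : Disjoint (cls c x0) O)
    (hsm : ∀ y, Disjoint (cls c y) O → (cls c x0).card ≤ (cls c y).card)
    (hm0 : 1 ≤ dd G (cls c x0))
    (hmi : ∀ q : ℕ, q + 1 ≤ dd G (cls c x0) → (dd G (cls c x0) : ℝ) ≤
      ((dd G (cls c x0) : ℝ) - q) * Real.exp (q * (h (cls c x0).card - h (2 * (cls c x0).card))))
    (Fam : Finset (Finset V)) (hF : ∀ S ∈ Fam, Joined G S ∧ ModJ G O Sᶜ)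
    (hne : ∀ S ∈ Fam, Clo c S → Sᶜ ≠ cls c x0) {B : ℝ}
    (hB : ∀ p ∈ cut G (cls c x0), ∑ S ∈ Fam.filter (fun S => Clo (mrg c x0 p.2) S),
      Real.exp (- PhiO G h O (mrg c x0 p.2) S) ≤ B) :
    ∑ S ∈ Fam.filter (fun S => Clo c S), Real.exp (- PhiO G h O c S) ≤
      B + if cls c x0 ∈ Fam then 1 else 0 := by
  set A := cls c x0 with hA
  have hAne : A.Nonempty := ⟨x0, self_mem_cls c x0⟩
  have hAlab : ∀ z, z ∈ A ↔ c z = c x0 := fun z => mem_cls
  set m := dd G A with hmdef
  have hS : ∀ S ∈ Fam.filter (fun S => Clo c S), (m : ℝ) * Real.exp (- PhiO G h O c S)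
      ≤ (∑ p ∈ cut G A, if Clo (mrg c x0 p.2) S then
          Real.exp (- PhiO G h O (mrg c x0 p.2) S) else 0) + (if S = A then (m : ℝ) else 0) := by
    intro S hS
    rw [mem_filter] at hS
    obtain ⟨hSF, hSc⟩ := hS
    obtain ⟨hj1, hj2⟩ := hF S hSF
    have hnn : 0 ≤ ∑ p ∈ cut G A, if Clo (mrg c x0 p.2) S
        then Real.exp (- PhiO G h O (mrg c x0 p.2) S) else 0 :=
      sum_nonneg fun p _ => by
        split
        · positivity
        · exact le_refl _
    by_cases hSA : S = A
    · rw [if_pos hSA]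
      have h2 : (m : ℝ) * Real.exp (- PhiO G h O c S) ≤ m * 1 :=
        mul_le_mul_of_nonneg_left (exp_PhiO_le_one h0 O c S) (Nat.cast_nonneg _)
      linarith
    rw [if_neg hSA, add_zero]
    have hsplit : A ⊆ S ∨ A ⊆ Sᶜ := by
      by_cases h : x0 ∈ S
      · left
        intro z hz
        exact (hSc z x0 ((hAlab z).1 hz)).2 h
      · right
        intro z hz
        rw [mem_compl]
        exact fun hz' => h ((hSc z x0 ((hAlab z).1 hz)).1 hz')
    have hq : (qq G A S).card + 1 ≤ m := by
      have key : ∀ T : Finset V, A ⊆ T → (∃ u ∈ A, ∃ v ∈ T, v ∉ A ∧ G.Adj u v) →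
          (qq G A T).card + 1 ≤ m := by
        rintro T hAT ⟨u, hu, v, hv, hvA, huv⟩
        have h1 : (u, v) ∈ cut G A := (mem_cut G).2 ⟨hu, hvA, huv⟩
        have h2 : qq G A T ⊂ cut G A := by
          refine (ssubset_iff_of_subset (filter_subset _ _)).2 ⟨(u, v), h1, ?_⟩
          rw [mem_filter]
          rintro ⟨-, h⟩
          exact h ⟨fun _ => hv, fun _ => hAT hu⟩
        have := card_lt_card h2
        rw [hmdef]
        unfold dd
        omega
      rcases hsplit with h | h
      · exact key S h (hj1 A h hAne (Ne.symm hSA))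
      · have h1 : A ⊆ Sᶜ \ O := fun z hz =>
          mem_sdiff.2 ⟨h hz, fun hzO => (Finset.disjoint_left.1 hxO) hz hzO⟩
        have := key Sᶜ h (hj2 A h1 hAne (fun he => hne S hSF hSc he.symm))
        rwa [qq_compl] at this
    set q := (qq G A S).card with hqdef
    set D := h A.card - h (2 * A.card) with hD
    have hmi' := hmi q hq
    have h1 : ∑ p ∈ cut G A \ qq G A S, Real.exp (- PhiO G h O c S + q * D)
        ≤ ∑ p ∈ cut G A, if Clo (mrg c x0 p.2) S then
          Real.exp (- PhiO G h O (mrg c x0 p.2) S) else 0 := by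
      refine le_trans (sum_le_sum fun p hp => ?_)
        (sum_le_sum_of_subset_of_nonneg sdiff_subset fun p _ _ => by
          split
          · positivity
          · exact le_refl _)
      rw [mem_sdiff] at hp
      obtain ⟨hp1, hp2⟩ := hp
      have hp3 : p.1 ∈ S ↔ p.2 ∈ S := by
        by_contra h
        exact hp2 (mem_filter.2 ⟨hp1, h⟩)
      rw [mem_cut] at hp1
      have hclo : Clo (mrg c x0 p.2) S := by
        rw [clo_mrg]
        refine ⟨hSc, ?_⟩
        rw [← hp3]
        exact (hSc x0 p.1 ((hAlab p.1).1 hp1.1).symm)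
      rw [if_pos hclo]
      apply Real.exp_le_exp.2
      have := PhiO_merge (G := G) h0 hanti (c := c) (x0 := x0) (y := p.2) (O := O)
        (fun h => hp1.2.1 ((hAlab _).2 h)) hxO (hsm p.2) (S := S) hsplit
      linarith
    refine le_trans ?_ h1
    have hqsub : qq G A S ⊆ cut G A := filter_subset _ _
    rw [sum_const, nsmul_eq_mul, card_sdiff_of_subset hqsub]
    have h2 : (((cut G A).card - (qq G A S).card : ℕ) : ℝ) = (m : ℝ) - q := by
      rw [Nat.cast_sub (card_le_card hqsub)]
      rfl
    rw [h2, Real.exp_add]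
    calc (m : ℝ) * Real.exp (- PhiO G h O c S)
        ≤ (((m : ℝ) - q) * Real.exp (q * D)) * Real.exp (- PhiO G h O c S) :=
          mul_le_mul_of_nonneg_right hmi' (Real.exp_pos _).le
      _ = ((m : ℝ) - q) * (Real.exp (- PhiO G h O c S) * Real.exp (q * D)) := by ring
  have hsum : (m : ℝ) * ∑ S ∈ Fam.filter (fun S => Clo c S), Real.exp (- PhiO G h O c S)
      ≤ (m : ℝ) * (B + if A ∈ Fam then 1 else 0) := by
    rw [mul_sum]
    refine (sum_le_sum hS).trans ?_
    rw [sum_add_distrib, sum_comm]
    have h1 : ∀ p ∈ cut G A, (∑ S ∈ Fam.filter (fun S => Clo c S),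
        if Clo (mrg c x0 p.2) S then Real.exp (- PhiO G h O (mrg c x0 p.2) S) else 0) ≤ B := by
      intro p hp
      refine le_trans ?_ (hB p hp)
      rw [← sum_filter]
      refine sum_le_sum_of_subset_of_nonneg ?_ fun S _ _ => (Real.exp_pos _).le
      intro S hS
      rw [mem_filter, mem_filter] at hS
      exact mem_filter.2 ⟨hS.1.1, hS.2⟩
    have h2 : ∑ S ∈ Fam.filter (fun S => Clo c S), (if S = A then (m : ℝ) else 0)
        ≤ if A ∈ Fam then (m : ℝ) else 0 := by
      rw [← sum_filter]
      by_cases hAF : A ∈ Fam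
      · rw [if_pos hAF]
        have hsub : (Fam.filter fun S => Clo c S).filter (fun S => S = A) ⊆ {A} := by
          intro S hS
          rw [mem_singleton]
          exact (mem_filter.1 hS).2
        refine (sum_le_sum_of_subset_of_nonneg hsub fun _ _ _ => Nat.cast_nonneg _).trans ?_
        rw [sum_singleton]
      · rw [if_neg hAF]
        refine le_of_eq (sum_eq_zero fun S hS => ?_)
        rw [mem_filter, mem_filter] at hS
        exact absurd (hS.2 ▸ hS.1.1) hAF
    have h3 := add_le_add (sum_le_sum h1) h2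
    refine h3.trans (le_of_eq ?_)
    rw [sum_const, nsmul_eq_mul]
    have h4 : ((cut G A).card : ℝ) = m := rfl
    rw [h4]
    split_ifs <;> ring
  have hm0' : (0 : ℝ) < m := by exact_mod_cast hm0
  exact le_of_mul_le_mul_left hsum hm0'

open Classical in
/-- The bonds of a proper region with a large side. -/
theorem maj_cluster {h : ℕ → ℝ} (h0 : ∀ a, 0 ≤ h a) (hanti : ∀ a b, 1 ≤ a → a ≤ b → h b ≤ h a)
    {Y : Finset V} (hY : Yᶜ.Nonempty) {c0 : V → V}
    (hpos : ∀ A ⊆ Y, A.Nonempty → Aᶜ.Nonempty → 1 ≤ dd G A)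
    (hstep : ∀ A ⊆ Y, A.Nonempty → Clo c0 A → 2 * A.card ≤ Y.card → ∀ q : ℕ, q + 1 ≤ dd G A →
      (dd G A : ℝ) ≤ ((dd G A : ℝ) - q) * Real.exp (q * (h A.card - h (2 * A.card))))
    (Fam : Finset (Finset V))
    (hF : ∀ S ∈ Fam, S ⊆ Y ∧ S.Nonempty ∧ Joined G S ∧ ModJ G Yᶜ Sᶜ ∧ Y.card < 2 * S.card) :
    ∀ n : ℕ, ∀ c : V → V, (univ.image c).card ≤ n → (∀ x y, x ∈ Yᶜ → y ∈ Yᶜ → c x = c y) →
      (∀ x y, c0 x = c0 y → c x = c y) →
      ∑ S ∈ Fam.filter (fun S => Clo c S), Real.exp (- PhiO G h Yᶜ c S) ≤ 1 := by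
  intro n
  induction n with
  | zero =>
    intro c hc hO hc0
    obtain ⟨o, -⟩ := hY
    have h0 : univ.image c = (∅ : Finset V) := card_eq_zero.1 (by omega)
    have : c o ∈ (∅ : Finset V) := h0 ▸ mem_image_of_mem c (mem_univ o)
    simp at this
  | succ n ih =>
    intro c hc hO hc0
    have hcl : ∀ S ∈ Fam, Clo c S → ∀ x ∈ S, cls c x ⊆ S ∧ Disjoint (cls c x) Yᶜ := by
      intro S hS hSc x hx
      have h1 : cls c x ⊆ S := fun z hz => (hSc z x (mem_cls.1 hz)).2 hx
      refine ⟨h1, ?_⟩
      rw [Finset.disjoint_left]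
      intro z hz hz'
      exact (mem_compl.1 hz') ((hF S hS).1 (h1 hz))
    by_cases hP : ∃ x, Disjoint (cls c x) Yᶜ
    swap
    · have hemp : Fam.filter (fun S => Clo c S) = ∅ := by
        rw [filter_eq_empty_iff]
        intro S hS hSc
        obtain ⟨x, hx⟩ := (hF S hS).2.1
        exact hP ⟨x, (hcl S hS hSc x hx).2⟩
      rw [hemp, sum_empty]
      exact zero_le_one
    obtain ⟨x1, hx1⟩ := hP
    obtain ⟨x0, hx0P, hx0⟩ := exists_min_image
      ((univ : Finset V).filter fun x => Disjoint (cls c x) Yᶜ) (fun x => (cls c x).card)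
      ⟨x1, mem_filter.2 ⟨mem_univ _, hx1⟩⟩
    have hxO : Disjoint (cls c x0) Yᶜ := (mem_filter.1 hx0P).2
    have hsm : ∀ y, Disjoint (cls c y) Yᶜ → (cls c x0).card ≤ (cls c y).card :=
      fun y hy => hx0 y (mem_filter.2 ⟨mem_univ _, hy⟩)
    set A := cls c x0 with hA
    have hAne : A.Nonempty := ⟨x0, self_mem_cls c x0⟩
    have hAY : A ⊆ Y := by
      intro z hz
      by_contra h
      exact (Finset.disjoint_left.1 hxO) hz (mem_compl.2 h)
    have hdis : ∀ y, c y ≠ c x0 → Disjoint A (cls c y) := by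
      intro y hy
      rw [Finset.disjoint_left]
      intro w hw hw'
      rw [hA, mem_cls] at hw
      rw [mem_cls] at hw'
      exact hy (hw'.symm.trans hw)
    by_cases h2 : Y.card < 2 * A.card
    · have hsub : Fam.filter (fun S => Clo c S) ⊆ {A} := by
        intro S hS
        rw [mem_filter] at hS
        rw [mem_singleton]
        have h3 : ∀ x ∈ S, c x = c x0 := by
          intro x hx
          by_contra hne
          obtain ⟨h4, h5⟩ := hcl S hS.1 hS.2 x hx
          have h6 := card_le_card (union_subset hAY (h4.trans (hF S hS.1).1))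
          rw [card_union_of_disjoint (hdis x hne)] at h6
          have := hsm x h5
          omega
        obtain ⟨x, hx⟩ := (hF S hS.1).2.1
        apply Subset.antisymm
        · intro z hz
          exact mem_cls.2 (h3 z hz)
        · intro z hz
          exact (hS.2 z x ((mem_cls.1 hz).trans (h3 x hx).symm)).2 hx
      refine (sum_le_sum_of_subset_of_nonneg hsub fun _ _ _ => (Real.exp_pos _).le).trans ?_
      rw [sum_singleton]
      exact exp_PhiO_le_one h0 _ c A
    · push Not at h2
      have hAc : Aᶜ.Nonempty := by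
        obtain ⟨o, ho⟩ := hY
        exact ⟨o, mem_compl.2 fun h => (mem_compl.1 ho) (hAY h)⟩
      have hAF : A ∉ Fam := fun h => by
        have := (hF A h).2.2.2.2
        omega
      have hclo : Clo c0 A := by
        intro x y hxy
        rw [hA, mem_cls, mem_cls, hc0 x y hxy]
      have key := step_lemma (G := G) h0 hanti (O := Yᶜ) (c := c) (x0 := x0) hxO hsm
        (hpos A hAY hAne hAc) (hstep A hAY hAne hclo h2) Fam
        (fun S hS => ⟨(hF S hS).2.2.1, (hF S hS).2.2.2.1⟩)
        (by
          intro S hS _ he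
          obtain ⟨o, ho⟩ := hY
          have h5 : o ∈ Sᶜ := mem_compl.2 fun h => (mem_compl.1 ho) ((hF S hS).1 h)
          rw [he] at h5
          exact (Finset.disjoint_left.1 hxO) h5 ho)
        (B := 1)
        (by
          intro p hp
          rw [mem_cut] at hp
          have hne : c x0 ≠ c p.2 := fun h => hp.2.1 (mem_cls.2 h.symm)
          refine ih (mrg c x0 p.2) (by have := mrg_card hne; omega) ?_ ?_
          · intro x y hx hy
            have := hO x y hx hy
            unfold mrg
            rw [this]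
          · intro x y hxy
            have := hc0 x y hxy
            unfold mrg
            rw [this])
      rw [if_neg hAF, add_zero] at key
      exact key

open Classical in
/-- The bonds of a region through `t` with a small side. -/
theorem min_cluster {h : ℕ → ℝ} (h0 : ∀ a, 0 ≤ h a) (hanti : ∀ a b, 1 ≤ a → a ≤ b → h b ≤ h a)
    {Y : Finset V} {c0 : V → V} {N : ℕ}
    (hpos : ∀ A ⊆ Y, A.Nonempty → Aᶜ.Nonempty → 1 ≤ dd G A)
    (hstep : ∀ A ⊆ Y, A.Nonempty → Clo c0 A → 2 * A.card ≤ Y.card → ∀ q : ℕ, q + 1 ≤ dd G A →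
      (dd G A : ℝ) ≤ ((dd G A : ℝ) - q) * Real.exp (q * (h A.card - h (2 * A.card))))
    (t : V) (Fam : Finset (Finset V))
    (hF : ∀ S ∈ Fam, S ⊆ Y ∧ t ∈ S ∧ Joined G S ∧ ModJ G Yᶜ Sᶜ ∧ 2 * S.card ≤ Y.card ∧
      S.card < N) :
    ∀ n : ℕ, ∀ c : V → V, (univ.image c).card ≤ n → (∀ x y, x ∈ Yᶜ → y ∈ Yᶜ → c x = c y) →
      (∀ x y, c0 x = c0 y → c x = c y) →
      ∑ S ∈ Fam.filter (fun S => Clo c S), Real.exp (- PhiO G h Yᶜ c S) ≤
        if Disjoint (cls c t) Yᶜ then (Lg N (cls c t).card : ℝ) else 0 := by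
  intro n
  induction n with
  | zero =>
    intro c hc hO hc0
    have h0 : univ.image c = (∅ : Finset V) := card_eq_zero.1 (by omega)
    have : c t ∈ (∅ : Finset V) := h0 ▸ mem_image_of_mem c (mem_univ t)
    simp at this
  | succ n ih =>
    intro c hc hO hc0
    have hcl : ∀ S ∈ Fam, Clo c S → ∀ x ∈ S, cls c x ⊆ S ∧ Disjoint (cls c x) Yᶜ := by
      intro S hS hSc x hx
      have h1 : cls c x ⊆ S := fun z hz => (hSc z x (mem_cls.1 hz)).2 hx
      refine ⟨h1, ?_⟩
      rw [Finset.disjoint_left]
      intro z hz hz'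
      exact (mem_compl.1 hz') ((hF S hS).1 (h1 hz))
    by_cases htO : Disjoint (cls c t) Yᶜ
    swap
    · have hemp : Fam.filter (fun S => Clo c S) = ∅ := by
        rw [filter_eq_empty_iff]
        intro S hS hSc
        exact htO (hcl S hS hSc t (hF S hS).2.1).2
      rw [hemp, sum_empty, if_neg htO]
    rw [if_pos htO]
    have hL0 : (0 : ℝ) ≤ Lg N (cls c t).card := Nat.cast_nonneg _
    obtain ⟨x0, hx0P, hx0⟩ := exists_min_image
      ((univ : Finset V).filter fun x => Disjoint (cls c x) Yᶜ) (fun x => (cls c x).card)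
      ⟨t, mem_filter.2 ⟨mem_univ _, htO⟩⟩
    have hxO : Disjoint (cls c x0) Yᶜ := (mem_filter.1 hx0P).2
    have hsm : ∀ y, Disjoint (cls c y) Yᶜ → (cls c x0).card ≤ (cls c y).card :=
      fun y hy => hx0 y (mem_filter.2 ⟨mem_univ _, hy⟩)
    set A := cls c x0 with hA
    have hAne : A.Nonempty := ⟨x0, self_mem_cls c x0⟩
    have hs1 : 1 ≤ A.card := hAne.card_pos
    have hAY : A ⊆ Y := by
      intro z hz
      by_contra h
      exact (Finset.disjoint_left.1 hxO) hz (mem_compl.2 h)
    have hdis : ∀ y, c y ≠ c x0 → Disjoint A (cls c y) := by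
      intro y hy
      rw [Finset.disjoint_left]
      intro w hw hw'
      rw [hA, mem_cls] at hw
      rw [mem_cls] at hw'
      exact hy (hw'.symm.trans hw)
    have hempty : (∀ S ∈ Fam, ¬ Clo c S) →
        ∑ S ∈ Fam.filter (fun S => Clo c S), Real.exp (- PhiO G h Yᶜ c S) ≤
          (Lg N (cls c t).card : ℝ) := by
      intro hno
      have hemp : Fam.filter (fun S => Clo c S) = ∅ := by
        rw [filter_eq_empty_iff]
        intro S hS
        exact hno S hS
      rw [hemp, sum_empty]
      exact hL0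
    by_cases hAN : N ≤ A.card
    · apply hempty
      intro S hS hSc
      have h1 := card_le_card (hcl S hS hSc t (hF S hS).2.1).1
      have h2 := (hF S hS).2.2.2.2.2
      have h3 := hsm t htO
      omega
    push Not at hAN
    by_cases h2 : Y.card < 2 * A.card
    · apply hempty
      intro S hS hSc
      have h1 := card_le_card (hcl S hS hSc t (hF S hS).2.1).1
      have h3 := (hF S hS).2.2.2.2.1
      have h4 := hsm t htO
      omega
    push Not at h2
    have hYV : Y.card ≤ Fintype.card V := card_le_univ Y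
    have hAc : Aᶜ.Nonempty := by
      rw [← card_pos]
      have := card_add_card_compl A
      omega
    have hclo : Clo c0 A := by
      intro x y hxy
      rw [hA, mem_cls, mem_cls, hc0 x y hxy]
    by_cases hAS : ∃ S ∈ Fam, Clo c S ∧ Sᶜ = A
    · -- two classes only
      obtain ⟨S0, hS0, hS0c, hS0A⟩ := hAS
      obtain ⟨k1, k2, k3, k4, k5, k6⟩ := hF S0 hS0
      have hcA : S0.card = A.card := by
        have h1 := card_add_card_compl S0
        rw [hS0A] at h1
        omega
      have hYu : Yᶜ = ∅ := by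
        rw [eq_empty_iff_forall_notMem]
        intro z hz
        have h5 : z ∈ S0ᶜ := mem_compl.2 fun h => (mem_compl.1 hz) (k1 h)
        rw [hS0A] at h5
        exact (Finset.disjoint_left.1 hxO) h5 hz
      have hcls : ∀ z ∉ A, cls c z = S0 := by
        intro z hz
        have hzS : z ∈ S0 := by
          by_contra h
          exact hz (hS0A ▸ mem_compl.2 h)
        refine eq_of_subset_of_card_le ?_ ?_
        · intro w hw
          exact (hS0c w z (mem_cls.1 hw)).2 hzS
        · rw [hcA]
          exact hsm z (by rw [hYu]; exact disjoint_empty_right _)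
      have htA : t ∉ A := by
        rw [← hS0A, mem_compl, not_not]
        exact k2
      have hsub : Fam.filter (fun S => Clo c S) ⊆ {S0} := by
        intro S hS
        rw [mem_filter] at hS
        obtain ⟨j1, j2, j3, j4, j5, j6⟩ := hF S hS.1
        rw [mem_singleton]
        symm
        refine eq_of_subset_of_card_le ?_ ?_
        · intro w hw
          rw [← hcls t htA, mem_cls] at hw
          exact (hS.2 w t hw).2 j2
        · have h1 := card_add_card_compl S0
          rw [hS0A] at h1
          omega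
      have h1 : ∑ S ∈ Fam.filter (fun S => Clo c S), Real.exp (- PhiO G h Yᶜ c S) ≤ 1 := by
        refine (sum_le_sum_of_subset_of_nonneg hsub fun _ _ _ => (Real.exp_pos _).le).trans ?_
        rw [sum_singleton]
        exact exp_PhiO_le_one h0 _ c S0
      have h2 : (1 : ℝ) ≤ Lg N (cls c t).card := by
        rw [hcls t htA, hcA]
        exact_mod_cast Lg_pos hAN
      linarith
    push Not at hAS
    have key := step_lemma (G := G) h0 hanti (O := Yᶜ) (c := c) (x0 := x0) hxO hsm
      (hpos A hAY hAne hAc) (hstep A hAY hAne hclo h2) Fam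
      (fun S hS => ⟨(hF S hS).2.2.1, (hF S hS).2.2.2.1⟩)
      (fun S hS hSc he => hAS S hS hSc he)
      (B := (Lg N (cls c t).card : ℝ) - (if t ∈ A then 1 else 0))
      (by
        intro p hp
        rw [mem_cut] at hp
        have hne : c x0 ≠ c p.2 := fun h => hp.2.1 (mem_cls.2 h.symm)
        refine (ih (mrg c x0 p.2) (by have := mrg_card hne; omega) ?_ ?_).trans ?_
        · intro x y hx hy
          have := hO x y hx hy
          unfold mrg
          rw [this]
        · intro x y hxy
          have := hc0 x y hxy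
          unfold mrg
          rw [this]
        · by_cases ht : t ∈ A
          · rw [if_pos ht]
            have ht' : c t = c x0 := mem_cls.1 ht
            have e1 : cls c t = A := by ext w; rw [mem_cls, hA, mem_cls, ht']
            have e2 : cls (mrg c x0 p.2) t = A ∪ cls c p.2 := cls_mrg_of (Or.inl ht')
            rw [e1]
            by_cases hd : Disjoint (cls (mrg c x0 p.2) t) Yᶜ
            · rw [if_pos hd]
              have e3 : Disjoint A (cls c p.2) := hdis p.2 (fun h => hne h.symm)
              have e4 : 2 * A.card ≤ (cls (mrg c x0 p.2) t).card := by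
                rw [e2, card_union_of_disjoint e3]
                rw [e2] at hd
                have := hsm p.2 (hd.mono_left subset_union_right)
                omega
              have e5 := Lg_double hs1 hAN e4
              have : ((Lg N (cls (mrg c x0 p.2) t).card + 1 : ℕ) : ℝ) ≤ Lg N A.card := by
                exact_mod_cast e5
              push_cast at this
              linarith
            · rw [if_neg hd]
              have : (1 : ℝ) ≤ Lg N A.card := by exact_mod_cast Lg_pos hAN
              linarith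
          · rw [if_neg ht, sub_zero]
            split_ifs
            · exact_mod_cast Lg_anti (card_le_card (cls_sub_mrg c x0 p.2 t))
            · exact hL0)
    refine key.trans ?_
    by_cases hAF : A ∈ Fam
    · rw [if_pos hAF, if_pos (hF A hAF).2.1]
      linarith
    · rw [if_neg hAF]
      split_ifs <;> linarith

end Pool.Agent.K5
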