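import Mathlib
import Pool.Agent.Work.MP_974d84_co_k5.RCluster

/-!
# The number of closed bonds of a region through a vertex
-/

set_option linter.unusedSectionVars false

namespace Pool.Agent.K5

open Finset SimpleGraph Pool.Agent.Exp Pool.Agent.Log5 Pool.Agent.Log5.Clu Pool.Agent.Iso5
open Pool.Agent.Work.MP_314beb_co

/-- The potential. -/
noncomputable def hL (l c : ℝ) (a : ℕ) : ℝ := l * hh a + c / Real.sqrt (1 + Real.log a)

theorem hL_nonneg {l c : ℝ} (hl : 0 ≤ l) (hc : 0 ≤ c) (a : ℕ) : 0 ≤ hL l c a := by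
  unfold hL
  have := hh_nonneg a
  positivity

theorem hL_anti {l c : ℝ} (hl : 0 ≤ l) (hc : 0 ≤ c) (a b : ℕ) (ha : 1 ≤ a) (hab : a ≤ b) :
    hL l c b ≤ hL l c a := by
  unfold hL
  have h1 := mul_le_mul_of_nonneg_left (hh_anti ha hab) hl
  have h2 : Real.log (a : ℝ) ≤ Real.log b :=
    Real.log_le_log (by exact_mod_cast ha) (by exact_mod_cast hab)
  have h3 : (0 : ℝ) < Real.sqrt (1 + Real.log a) :=
    Real.sqrt_pos.2 (by have := log_nat_nonneg a; linarith)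
  have h4 : c / Real.sqrt (1 + Real.log b) ≤ c / Real.sqrt (1 + Real.log a) :=
    div_le_div_of_nonneg_left hc h3 (Real.sqrt_le_sqrt (by linarith))
  linarith

/-- The merging inequality for the potential. -/
theorem hL_step {l c C : ℝ} (hl : 0 < l) (hc : 0 ≤ c) (hC : 0 < C)
    (hcC : 20 ≤ c * Real.sqrt (Real.sqrt C) ^ 3) {a m q : ℕ} (ha : 1 ≤ a)
    (hm : (a : ℝ) ≤ l ^ 2 * m ∨ C * (1 + Real.log a) ^ 2 ≤ m) (hq : q + 1 ≤ m) :
    (m : ℝ) ≤ ((m : ℝ) - q) * Real.exp (q * (hL l c a - hL l c (2 * a))) := by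
  have hm1 : (1 : ℝ) ≤ m := by exact_mod_cast (by omega : 1 ≤ m)
  have hll := log_nat_nonneg a
  have ha0 : (0 : ℝ) < a := by exact_mod_cast ha
  have e2 : 1 + Real.log ((2 * a : ℕ) : ℝ) = (1 + Real.log a) + Real.log 2 := by
    push_cast
    rw [Real.log_mul (by norm_num) (by positivity)]
    ring
  have hd1 := hh_double ha
  have hd2 := sqrt_diff (l := 1 + Real.log a) (by linarith)
  have hdiff : hL l c a - hL l c (2 * a) = l * (hh a - hh (2 * a)) +
      c * (1 / Real.sqrt (1 + Real.log a) - 1 / Real.sqrt ((1 + Real.log a) + Real.log 2)) := by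
    unfold hL
    rw [e2]
    ring
  have hx0 : (0 : ℝ) < Real.sqrt (1 + Real.log a) := Real.sqrt_pos.2 (by linarith)
  have hb : 0 ≤ 1 / Real.sqrt (1 + Real.log a) - 1 / Real.sqrt ((1 + Real.log a) + Real.log 2) :=
    le_trans (by positivity) hd2
  refine merge_num hq ?_
  have hm10 : (0 : ℝ) ≤ (m : ℝ) - 1 := by linarith
  rcases hm with h | h
  · refine (log_le_sqrt hm1).trans ?_
    rw [div_eq_mul_one_div]
    refine mul_le_mul_of_nonneg_left ?_ hm10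
    have hs0 : (0 : ℝ) < Real.sqrt a := Real.sqrt_pos.2 ha0
    have hsm : (0 : ℝ) < Real.sqrt (m : ℝ) := Real.sqrt_pos.2 (by linarith)
    have h3 : Real.sqrt (a : ℝ) ≤ l * Real.sqrt m := by
      rw [Real.sqrt_le_left (by positivity), mul_pow, Real.sq_sqrt (by linarith)]
      exact h
    have h1 : 1 / Real.sqrt (m : ℝ) ≤ l * (1 / Real.sqrt a) := by
      rw [mul_one_div, div_le_div_iff₀ hsm hs0]
      linarith
    have h2 : 0 ≤ c * (1 / Real.sqrt (1 + Real.log a)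
      - 1 / Real.sqrt ((1 + Real.log a) + Real.log 2)) := mul_nonneg hc hb
    have h4 := mul_le_mul_of_nonneg_left hd1 hl.le
    rw [hdiff]
    linarith
  · refine (log_le_quart hm1).trans ?_
    refine mul_le_mul_of_nonneg_left ?_ hm10
    set x := Real.sqrt (1 + Real.log a) with hx
    set D := Real.sqrt (Real.sqrt C) with hD
    have hD0 : 0 < D := Real.sqrt_pos.2 (Real.sqrt_pos.2 hC)
    have ex : x ^ 2 = 1 + Real.log a := Real.sq_sqrt (by linarith)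
    have eD : D ^ 4 = C := by
      have : D ^ 4 = (D ^ 2) ^ 2 := by ring
      rw [this, hD, Real.sq_sqrt (Real.sqrt_nonneg _), Real.sq_sqrt hC.le]
    have h1 : D * x ≤ Real.sqrt (Real.sqrt m) := by
      apply Real.le_sqrt_of_sq_le
      apply Real.le_sqrt_of_sq_le
      have : ((D * x) ^ 2) ^ 2 = D ^ 4 * (x ^ 2) ^ 2 := by ring
      rw [this, eD, ex]
      exact h
    have h2 : 4 / Real.sqrt (Real.sqrt m) ^ 3 ≤ 4 / (D * x) ^ 3 :=
      div_le_div_of_nonneg_left (by norm_num) (by positivity)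
        (pow_le_pow_left₀ (by positivity) h1 3)
    have h3 : 4 / (D * x) ^ 3 ≤ c * (1 / (5 * x ^ 3)) := by
      rw [mul_one_div, div_le_div_iff₀ (by positivity) (by positivity), mul_pow]
      have hx3 : 0 < x ^ 3 := by positivity
      calc 4 * (5 * x ^ 3) = 20 * x ^ 3 := by ring
        _ ≤ (c * D ^ 3) * x ^ 3 := mul_le_mul_of_nonneg_right hcC hx3.le
        _ = c * (D ^ 3 * x ^ 3) := by ring
    have h4 := mul_le_mul_of_nonneg_left hd2 hc
    have h5 : 0 ≤ hh a - hh (2 * a) := le_trans (by positivity) hd1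
    have h6 : 0 ≤ l * (hh a - hh (2 * a)) := mul_nonneg hl.le h5
    rw [hdiff]
    linarith

/-- A bound for the size of the small side. -/
noncomputable def sDr (C : ℝ) (D : ℕ) : ℕ := max D ⌊Real.exp (Real.sqrt (D / C) - 1)⌋₊

theorem size_le_sDr {C : ℝ} (hC : 0 < C) {a D : ℕ} (ha : 1 ≤ a)
    (h : a ≤ D ∨ C * (1 + Real.log a) ^ 2 ≤ D) : a ≤ sDr C D := by
  unfold sDr
  rcases h with h | h
  · exact le_max_of_le_left h
  · apply le_max_of_le_right
    rw [Nat.le_floor_iff (Real.exp_pos _).le]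
    have hs : (0 : ℝ) < a := by exact_mod_cast ha
    have h6 : (1 + Real.log (a : ℝ)) ^ 2 ≤ D / C := by
      rw [le_div_iff₀ hC]; linarith
    have h7 : 1 + Real.log (a : ℝ) ≤ Real.sqrt (D / C) := Real.le_sqrt_of_sq_le h6
    calc (a : ℝ) = Real.exp (Real.log a) := (Real.exp_log hs).symm
      _ ≤ _ := Real.exp_le_exp.2 (by linarith)

theorem log_sDr {C : ℝ} (hC : 1 ≤ C) (D : ℕ) : Nat.log 2 (sDr C D + 1) ≤ D + 1 := by
  have h1 : sDr C D ≤ 2 ^ D := by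
    unfold sDr
    apply max_le Nat.lt_two_pow_self.le
    apply Nat.floor_le_of_le
    have hD : (0 : ℝ) ≤ D := Nat.cast_nonneg D
    have h2 : Real.sqrt (D / C) ≤ Real.sqrt D :=
      Real.sqrt_le_sqrt (div_le_self hD hC)
    have h3 : Real.sqrt (D : ℝ) ≤ D / 4 + 1 := by
      have h4 := Real.sq_sqrt hD
      nlinarith [sq_nonneg (Real.sqrt (D : ℝ) / 2 - 1)]
    have h4 := Real.log_two_gt_d9
    calc Real.exp (Real.sqrt (D / C) - 1) ≤ Real.exp (Real.log 2 * D) :=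
          Real.exp_le_exp.2 (by nlinarith)
      _ = ((2 ^ D : ℕ) : ℝ) := by
          rw [Real.exp_mul, Real.exp_log (by norm_num), Real.rpow_natCast]
          push_cast
          rfl
  have h2 : sDr C D + 1 < 2 ^ (D + 2) := by
    have : (2 : ℕ) ^ (D + 2) = 4 * 2 ^ D := by ring
    have h5 : 1 ≤ 2 ^ D := Nat.one_le_two_pow
    omega
  have h3 := Nat.log_lt_of_lt_pow (b := 2) (by omega : sDr C D + 1 ≠ 0) h2
  omega

theorem exp_ge {τ L : ℝ} (hτ : 0 < τ) (hL : 1 ≤ L) {D : ℝ} (hD : 2 ≤ D)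
    (h16 : 16 * L / τ ^ 2 ≤ D) : L * D + 3 ≤ Real.exp (τ / 2 * D) := by
  have h1 := Real.quadratic_le_exp_of_nonneg (x := τ / 2 * D) (by positivity)
  have h2 : 16 * L ≤ D * τ ^ 2 := by
    rwa [div_le_iff₀ (by positivity)] at h16
  have h3 : (τ / 2 * D) ^ 2 / 2 = D * (D * τ ^ 2) / 8 := by ring
  have h4 : D * (16 * L) ≤ D * (D * τ ^ 2) := mul_le_mul_of_nonneg_left h2 (by linarith)
  have h5 : 0 ≤ τ / 2 * D := by positivity
  have h6 : 1 * D ≤ L * D := mul_le_mul_of_nonneg_right hL (by linarith)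
  nlinarith

variable {V : Type} [Fintype V] [DecidableEq V]

/-- The outside of `Y` becomes one class. -/
def cO (Y : Finset V) (c : V → V) (o : V) (x : V) : V := if x ∈ Y then c x else c o

theorem region_sum {G : SimpleGraph V} [DecidableRel G.Adj] {h : ℕ → ℝ} (h0 : ∀ a, 0 ≤ h a)
    (hanti : ∀ a b, 1 ≤ a → a ≤ b → h b ≤ h a) {K N D : ℕ} (hK : 1 ≤ K) {c : V → V}
    (hcK : ∀ x, K ≤ (cls c x).card) {Y : Finset V} (hY : Clo c Y)
    (hpos : ∀ A ⊆ Y, A.Nonempty → Aᶜ.Nonempty → 1 ≤ dd G A)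
    (hstep : ∀ A ⊆ Y, A.Nonempty → Clo c A → 2 * A.card ≤ Y.card → ∀ q : ℕ, q + 1 ≤ dd G A →
      (dd G A : ℝ) ≤ ((dd G A : ℝ) - q) * Real.exp (q * (h A.card - h (2 * A.card))))
    (t : V) (F : Finset (Finset V)) (hF : ∀ Z ∈ F, t ∈ Z ∧ RBond G Y c Z ∧ dd G Z = D)
    (hFN : ∀ Z ∈ F, 2 * Z.card ≤ Y.card → Z.card < N)
    (hYF : Y ≠ univ ∨ ∀ Z ∈ F, 2 * Z.card ≤ Y.card) :
    (F.card : ℝ) ≤ Real.exp (2 * h K * D) * ((Nat.log 2 N + 1 : ℕ) + 1) := by
  classical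
  obtain ⟨o, ho⟩ : ∃ o : V, Y ≠ univ → o ∉ Y := by
    by_cases hYu : Y = univ
    · exact ⟨t, fun h => absurd hYu h⟩
    · obtain ⟨o, ho⟩ : ∃ o, o ∉ Y := by
        by_contra hcon
        push Not at hcon
        exact hYu (eq_univ_iff_forall.2 hcon)
      exact ⟨o, fun _ => ho⟩
  have hne : ∀ x, x ∉ Y → Y ≠ univ := fun x hx h => hx (h ▸ mem_univ x)
  have e1 : ∀ x y, x ∈ Yᶜ → y ∈ Yᶜ → cO Y c o x = cO Y c o y := by
    intro x y hx hy
    unfold cO
    rw [if_neg (mem_compl.1 hx), if_neg (mem_compl.1 hy)]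
  have e2 : ∀ x y, c x = c y → cO Y c o x = cO Y c o y := by
    intro x y hxy
    unfold cO
    have := hY x y hxy
    by_cases hx : x ∈ Y
    · rw [if_pos hx, if_pos (this.1 hx), hxy]
    · rw [if_neg hx, if_neg (fun h => hx (this.2 h))]
  have e3 : ∀ x, K ≤ (cls (cO Y c o) x).card := by
    intro x
    refine (hcK x).trans (card_le_card ?_)
    intro z hz
    exact mem_cls.2 (e2 z x (mem_cls.1 hz))
  have e4 : ∀ Z : Finset V, Z ⊆ Y → Clo c Z → Clo (cO Y c o) Z := by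
    intro Z hZY hZ x y hxy
    unfold cO at hxy
    by_cases hx : x ∈ Y
    · by_cases hy : y ∈ Y
      · rw [if_pos hx, if_pos hy] at hxy
        exact hZ x y hxy
      · rw [if_pos hx, if_neg hy] at hxy
        exact absurd ((hY x o hxy).1 hx) (ho (hne y hy))
    · by_cases hy : y ∈ Y
      · rw [if_neg hx, if_pos hy] at hxy
        exact absurd ((hY o y hxy).2 hy) (ho (hne x hx))
      · exact ⟨fun h => absurd (hZY h) hx, fun h => absurd (hZY h) hy⟩
  have key : ∀ F' ⊆ F, F'.filter (fun S => Clo (cO Y c o) S) = F' := by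
    intro F' hF'
    apply filter_true_of_mem
    intro S hS
    have := (hF S (hF' hS)).2.1
    exact e4 S this.sub this.clo
  set F1 := F.filter fun Z => 2 * Z.card ≤ Y.card with hF1
  set F2 := F.filter fun Z => ¬ 2 * Z.card ≤ Y.card with hF2
  have a1 : ∑ S ∈ F1, Real.exp (- PhiO G h Yᶜ (cO Y c o) S) ≤ (Nat.log 2 N + 1 : ℕ) := by
    have h1 := min_cluster (G := G) h0 hanti (Y := Y) (c0 := c) (N := N) hpos hstep t F1
      (by
        intro S hS
        rw [hF1, mem_filter] at hS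
        obtain ⟨k1, k2, -⟩ := hF S hS.1
        exact ⟨k2.sub, k1, k2.joined, k2.modj, hS.2, hFN S hS.1 hS.2⟩)
      _ (cO Y c o) le_rfl e1 e2
    rw [key F1 (filter_subset _ _)] at h1
    refine h1.trans ?_
    split_ifs
    · exact_mod_cast Lg_le
    · exact Nat.cast_nonneg _
  have a2 : ∑ S ∈ F2, Real.exp (- PhiO G h Yᶜ (cO Y c o) S) ≤ 1 := by
    rcases hYF with hYF | hYF
    · have h1 := maj_cluster (G := G) h0 hanti (Y := Y) (c0 := c)
        ⟨o, mem_compl.2 (ho hYF)⟩ hpos hstep F2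
        (by
          intro S hS
          rw [hF2, mem_filter] at hS
          obtain ⟨k1, k2, -⟩ := hF S hS.1
          exact ⟨k2.sub, k2.ne, k2.joined, k2.modj, by omega⟩)
        _ (cO Y c o) le_rfl e1 e2
      rw [key F2 (filter_subset _ _)] at h1
      exact h1
    · have : F2 = ∅ := by
        rw [hF2, filter_eq_empty_iff]
        intro S hS h
        exact h (hYF S hS)
      rw [this, sum_empty]
      exact zero_le_one
  have a3 : ∑ S ∈ F, Real.exp (- PhiO G h Yᶜ (cO Y c o) S) ≤ (Nat.log 2 N + 1 : ℕ) + 1 := by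
    rw [← sum_filter_add_sum_filter_not F (fun Z => 2 * Z.card ≤ Y.card)]
    exact add_le_add a1 a2
  have a4 : (F.card : ℝ) * Real.exp (-(2 * h K * D)) ≤
      ∑ S ∈ F, Real.exp (- PhiO G h Yᶜ (cO Y c o) S) := by
    rw [← nsmul_eq_mul, ← sum_const]
    refine sum_le_sum fun S hS => ?_
    apply Real.exp_le_exp.2
    have := PhiO_le (G := G) h0 hanti hK e3 Yᶜ S
    rw [(hF S hS).2.2] at this
    linarith
  have a5 : (F.card : ℝ) = Real.exp (2 * h K * D) *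
      ((F.card : ℝ) * Real.exp (-(2 * h K * D))) := by
    rw [mul_comm (F.card : ℝ), ← mul_assoc, ← Real.exp_add]
    simp
  rw [a5]
  exact mul_le_mul_of_nonneg_left (a4.trans a3) (Real.exp_pos _).le

/-- The count, for arbitrary graphs and with a constant in the linear isoperimetry. -/
theorem region_count_gen {τ : ℝ} (hτ : 0 < τ) {L : ℕ} (hL1 : 1 ≤ L) :
    ∃ C₀ : ℝ, 1 ≤ C₀ ∧ ∀ C : ℝ, C₀ ≤ C → ∀ {V : Type}
    [Fintype V] [DecidableEq V] (G : SimpleGraph V) [DecidableRel G.Adj],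
    ∀ (K : ℕ) (c : V → V), 1 ≤ K → (∀ x, K ≤ (cls c x).card) →
    ∀ Y : Finset V, Clo c Y → (∀ A ⊆ Y, A.Nonempty → Aᶜ.Nonempty → 1 ≤ dd G A) →
    (∀ A ⊆ Y, A.Nonempty → Clo c A → 2 * A.card ≤ Y.card →
      A.card ≤ L * dd G A ∨ C * (1 + Real.log A.card) ^ 2 ≤ dd G A) →
    ∀ (t : V) (D : ℕ) (F : Finset (Finset V)), C ≤ D →
    (∀ Z ∈ F, t ∈ Z ∧ RBond G Y c Z ∧ dd G Z = D) →
    (Y ≠ univ ∨ ∀ Z ∈ F, 2 * Z.card ≤ Y.card) →
    (F.card : ℝ) ≤ Real.exp ((8 * Real.sqrt L / Real.sqrt K + τ) * D) := by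
  have hL1' : (1 : ℝ) ≤ L := by exact_mod_cast hL1
  refine ⟨max 2 (max (16 * L / τ ^ 2) ((80 / τ + 1) ^ 4)),
    le_trans (by norm_num) (le_max_left _ _), ?_⟩
  intro C hC V _ _ G _ K c hK hcK Y hY hpos hiso t D F hCD hF hYF
  have hC2 : (2 : ℝ) ≤ C := (le_max_left _ _).trans hC
  have hC16 : 16 * L / τ ^ 2 ≤ C := ((le_max_left _ _).trans (le_max_right _ _)).trans hC
  have hC80 : (80 / τ + 1) ^ 4 ≤ C := ((le_max_right _ _).trans (le_max_right _ _)).trans hC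
  have hc : (0 : ℝ) ≤ τ / 4 := by positivity
  have hl0 : 0 < Real.sqrt (L : ℝ) := Real.sqrt_pos.2 (by linarith)
  have hl2 : Real.sqrt (L : ℝ) ^ 2 = L := Real.sq_sqrt (by linarith)
  have hcC : 20 ≤ τ / 4 * Real.sqrt (Real.sqrt C) ^ 3 := by
    set u := 80 / τ + 1 with hu
    have hu1 : 1 ≤ u := by
      have : 0 < 80 / τ := by positivity
      linarith
    have h1 : u ≤ Real.sqrt (Real.sqrt C) := by
      apply Real.le_sqrt_of_sq_le
      apply Real.le_sqrt_of_sq_le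
      have : (u ^ 2) ^ 2 = u ^ 4 := by ring
      rw [this]
      exact hC80
    have h2 : u ≤ Real.sqrt (Real.sqrt C) ^ 3 := by
      set s := Real.sqrt (Real.sqrt C) with hs
      have hs1 : 1 ≤ s := hu1.trans h1
      have h5 : 0 ≤ s ^ 2 - 1 := by nlinarith
      have h6 := mul_nonneg (by linarith : (0 : ℝ) ≤ s) h5
      have : s ≤ s ^ 3 := by nlinarith
      linarith
    have h3 : τ / 4 * (80 / τ) = 20 := by
      field_simp
      norm_num
    calc (20 : ℝ) = τ / 4 * (80 / τ) := h3.symm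
      _ ≤ τ / 4 * Real.sqrt (Real.sqrt C) ^ 3 :=
        mul_le_mul_of_nonneg_left (by linarith) hc
  have h1 := region_sum (G := G) (h := hL (Real.sqrt L) (τ / 4)) (hL_nonneg hl0.le hc)
    (hL_anti hl0.le hc) (K := K)
    (N := sDr C (L * D) + 1) (D := D) hK hcK hY hpos
    (fun A hAY hA hAc h2 q hq => hL_step hl0 hc (by linarith) hcC hA.card_pos
      (by
        rw [hl2]
        rcases hiso A hAY hA hAc h2 with h | h
        · exact Or.inl (by exact_mod_cast h)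
        · exact Or.inr h) hq)
    t F hF
    (by
      intro Z hZ h2
      obtain ⟨-, k2, k3⟩ := hF Z hZ
      have h4 := hiso Z k2.sub k2.ne k2.clo h2
      rw [k3] at h4
      have h5 : (D : ℝ) ≤ ((L * D : ℕ) : ℝ) := by
        exact_mod_cast Nat.le_mul_of_pos_left D hL1
      have h6 := size_le_sDr (by linarith : (0 : ℝ) < C) k2.ne.card_pos (D := L * D)
        (h4.imp id fun h => h.trans h5)
      omega)
    hYF
  refine h1.trans ?_
  have h2 : (((Nat.log 2 (sDr C (L * D) + 1) + 1 : ℕ) : ℝ) + 1) ≤ L * D + 3 := by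
    have := log_sDr (by linarith : (1 : ℝ) ≤ C) (L * D)
    have h3 : ((Nat.log 2 (sDr C (L * D) + 1) + 1 : ℕ) : ℝ) ≤ ((L * D + 2 : ℕ) : ℝ) := by
      exact_mod_cast (by omega : Nat.log 2 (sDr C (L * D) + 1) + 1 ≤ L * D + 2)
    push_cast at h3 ⊢
    linarith
  have h3 := exp_ge hτ hL1' (D := (D : ℝ)) (hC2.trans hCD) (hC16.trans hCD)
  have h4 : 2 * hL (Real.sqrt L) (τ / 4) K * D ≤
      (8 * Real.sqrt L / Real.sqrt K + τ / 2) * D := by
    refine mul_le_mul_of_nonneg_right ?_ (Nat.cast_nonneg D)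
    unfold hL hh
    have h5 : 1 ≤ Real.sqrt (1 + Real.log (K : ℝ)) := by
      have h8 := log_nat_nonneg K
      calc (1 : ℝ) = Real.sqrt 1 := by simp
        _ ≤ Real.sqrt (1 + Real.log (K : ℝ)) := Real.sqrt_le_sqrt (by linarith)
    have h6 : τ / 4 / Real.sqrt (1 + Real.log (K : ℝ)) ≤ τ / 4 := div_le_self hc h5
    have h7 : 2 * (Real.sqrt (L : ℝ) * (4 / Real.sqrt (K : ℝ))) =
        8 * Real.sqrt L / Real.sqrt K := by ring
    linarith
  calc Real.exp (2 * hL (Real.sqrt L) (τ / 4) K * D) *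
        (((Nat.log 2 (sDr C (L * D) + 1) + 1 : ℕ) : ℝ) + 1)
      ≤ Real.exp ((8 * Real.sqrt L / Real.sqrt K + τ / 2) * D) * Real.exp (τ / 2 * D) :=
        mul_le_mul (Real.exp_le_exp.2 h4) (h2.trans h3) (by positivity) (Real.exp_pos _).le
    _ = Real.exp ((8 * Real.sqrt L / Real.sqrt K + τ) * D) := by
        rw [← Real.exp_add]
        congr 1
        ring

/-- M5. -/
theorem region_count {τ : ℝ} (hτ : 0 < τ) : ∃ C₀ : ℝ, 1 ≤ C₀ ∧ ∀ C : ℝ, C₀ ≤ C → ∀ {V : Type}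
    [Fintype V] [DecidableEq V] (G : SimpleGraph V) [DecidableRel G.Adj],
    ∀ (K : ℕ) (c : V → V), 1 ≤ K → (∀ x, Joined G (cls c x)) → (∀ x, K ≤ (cls c x).card) →
    ∀ Y : Finset V, Clo c Y → (∀ A ⊆ Y, A.Nonempty → Aᶜ.Nonempty → 1 ≤ dd G A) →
    (∀ A ⊆ Y, A.Nonempty → Clo c A → 2 * A.card ≤ Y.card →
      A.card ≤ dd G A ∨ C * (1 + Real.log A.card) ^ 2 ≤ dd G A) →
    ∀ (t : V) (D : ℕ) (F : Finset (Finset V)), C ≤ D →
    (∀ Z ∈ F, t ∈ Z ∧ RBond G Y c Z ∧ dd G Z = D) →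
    (Y ≠ univ ∨ ∀ Z ∈ F, 2 * Z.card ≤ Y.card) →
    (F.card : ℝ) ≤ Real.exp ((8 / Real.sqrt K + τ) * D) := by
  obtain ⟨C₀, h1, h2⟩ := region_count_gen hτ (le_refl 1)
  refine ⟨C₀, h1, ?_⟩
  intro C hC V _ _ G _ K c hK _ hcK Y hY hpos hiso t D F hCD hF hYF
  have := h2 C hC G K c hK hcK Y hY hpos
    (fun A a1 a2 a3 a4 => by rw [one_mul]; exact hiso A a1 a2 a3 a4) t D F hCD hF hYF
  simpa using this

/-- M5, ordinary bonds of a graph, with a factor in the linear isoperimetry. -/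
theorem count_one {L : ℕ} (hL1 : 1 ≤ L) : ∃ C₀ : ℝ, 1 ≤ C₀ ∧ ∀ C : ℝ, C₀ ≤ C → ∀ {V : Type}
    [Fintype V] [DecidableEq V] (G : SimpleGraph V) [DecidableRel G.Adj],
    (∀ A : Finset V, A.Nonempty → Aᶜ.Nonempty → 1 ≤ dd G A) →
    (∀ A : Finset V, A.Nonempty → 2 * A.card ≤ Fintype.card V →
      A.card ≤ L * dd G A ∨ C * (1 + Real.log A.card) ^ 2 ≤ dd G A) →
    ∀ (t : V) (D : ℕ) (F : Finset (Finset V)), C ≤ D →
    (∀ Z ∈ F, t ∈ Z ∧ Joined G Z ∧ Joined G Zᶜ ∧ 2 * Z.card ≤ Fintype.card V ∧ dd G Z = D) →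
    (F.card : ℝ) ≤ Real.exp ((8 * Real.sqrt L + 1) * D) := by
  obtain ⟨C₀, h1, h2⟩ := region_count_gen one_pos hL1
  refine ⟨C₀, h1, ?_⟩
  intro C hC V _ _ G _ hpos hiso t D F hCD hF
  have := h2 C hC G 1 id le_rfl (fun x => cls_card_pos id x) univ
    (fun x y _ => ⟨fun _ => mem_univ y, fun _ => mem_univ x⟩)
    (fun A _ a1 a2 => hpos A a1 a2)
    (fun A _ a2 _ a4 => hiso A a2 (by rwa [card_univ] at a4)) t D F hCD
    (fun Z hZ => by
      obtain ⟨k1, k2, k3, k4, k5⟩ := hF Z hZ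
      refine ⟨k1, ⟨subset_univ _, ⟨t, k1⟩, k2, ?_, ?_⟩, k5⟩
      · intro A hA hA0 hAZ
        exact k3 A (hA.trans sdiff_subset) hA0 hAZ
      · intro x y hxy
        have : x = y := hxy
        rw [this])
    (Or.inr fun Z hZ => by rw [card_univ]; exact (hF Z hZ).2.2.2.1)
  simpa using this

/-- M5b. -/
theorem region_count_two : ∃ C₀ κ₀ : ℝ, 1 ≤ C₀ ∧ ∀ C : ℝ, C₀ ≤ C → ∀ {V : Type}
    [Fintype V] [DecidableEq V] (G : SimpleGraph V) [DecidableRel G.Adj] (Y : Finset V),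
    (∀ A ⊆ Y, A.Nonempty → Aᶜ.Nonempty → 1 ≤ dd G A) →
    (∀ A ⊆ Y, A.Nonempty → 2 * A.card ≤ Y.card →
      A.card ≤ 3 * dd G A ∨ C * (1 + Real.log A.card) ^ 2 ≤ dd G A) →
    ∀ (t : V) (D : ℕ) (F : Finset (Finset V)), C ≤ D →
    (∀ Z ∈ F, t ∈ Z ∧ RBond G Y id Z ∧ dd G Z = D) →
    (Y ≠ univ ∨ ∀ Z ∈ F, 2 * Z.card ≤ Y.card) →
    (F.card : ℝ) ≤ Real.exp (κ₀ * D) := by
  obtain ⟨C₀, h1, h2⟩ := region_count_gen one_pos (L := 3) (by norm_num)
  refine ⟨C₀, 8 * Real.sqrt ((3 : ℕ) : ℝ) / Real.sqrt ((1 : ℕ) : ℝ) + 1, h1, ?_⟩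
  intro C hC V _ _ G _ Y hpos hiso t D F hCD hF hYF
  exact h2 C hC G 1 id le_rfl (fun x => cls_card_pos id x) Y
    (fun x y hxy => by
      have : x = y := hxy
      rw [this]) hpos
    (fun A a1 a2 _ a4 => hiso A a1 a2 a4) t D F hCD hF hYF

end Pool.Agent.K5
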