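import Mathlib
import Pool.Agent.Work.MP_974d84_co_k5.CentresCore
import Pool.Agent.Work.MP_974d84_co_k5.CentresInt
import Pool.Agent.Work.MP_974d84_co_k5.RegionCount

/-!
# Module M11: centres of gadgets in the cores
-/

set_option linter.unusedSectionVars false

namespace Pool.Agent.K5

open Finset SimpleGraph Pool.Agent.Exp Pool.Agent.Log5 Pool.Agent.Log5.Clu

/-- **Centres**, with an upper bound for their number. -/
theorem centres_strong {θ η : ℝ} (hθ : 0 < θ) (hη : 0 < η) (hηθ : 20 * η ≤ θ) (R : ℕ) :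
    ∃ C₀ : ℝ, ∀ C, C₀ ≤ C → ∃ (k₀ N₀ : ℕ), ∀ N k, N₀ ≤ N → k₀ ≤ k → ∀ {V : Type} [Fintype V]
    [DecidableEq V] (G : SimpleGraph V) [DecidableRel G.Adj], (∀ v, G.degree v = 3) →
    (∀ A : Finset V, A.Nonempty → Aᶜ.Nonempty → 1 ≤ dd G A) → CycConn G k →
    ∀ {r : ℕ} (S : Fin r → Finset V), Cores G C S → Facts G C N k S → ∀ T : Finset V,
    (∀ i, N * (T ∩ S i).card ≤ 2 * (S i).card) →
    ∃ (M : Fin r → ℕ) (β : (i : Fin r) → Fin (M i) → V), (∀ i, η * gf C (S i).card ≤ M i) ∧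
      (∀ i, (M i : ℝ) ≤ 2 * η * gf C (S i).card) ∧
      (∀ i g, Bl G.Adj R (β i g) ⊆ S i ∧ Disjoint (Bl G.Adj R (β i g)) T) ∧
      (∀ i g g', g ≠ g' → Disjoint (Bl G.Adj R (β i g)) (Bl G.Adj R (β i g'))) ∧
      ∀ i Z, Z ⊆ S i → Joined G Z → k₀ ≤ dd G Z →
        ((univ.filter fun g => ¬ Disjoint (Bl G.Adj R (β i g)) Z).card : ℝ) ≤ θ * dd G Z := by
  obtain ⟨C₁, hC1, hrc⟩ := region_count (τ := 1) one_pos
  refine ⟨max C₁ (1 / η), fun C hC => ?_⟩
  have hCC : C₁ ≤ C := (le_max_left _ _).trans hC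
  have hC1' : 1 ≤ C := hC1.trans hCC
  have hCη : 1 ≤ η * C := by
    have h1 : 1 / η ≤ C := (le_max_right _ _).trans hC
    rw [div_le_iff₀ hη] at h1
    linarith
  obtain ⟨k₀, hcore⟩ := centres_core hθ hη hηθ hC1' hCη R
  refine ⟨k₀, 36 * 2 ^ R, fun N k hN hk V _ _ G _ h3 hbr hcc r S hS hF T hT => ?_⟩
  have key : ∀ i, ∃ (M : ℕ) (β : Fin M → V), η * gf C (S i).card ≤ M ∧
      (M : ℝ) ≤ 2 * η * gf C (S i).card ∧
      (∀ g, Bl G.Adj R (β g) ⊆ S i ∧ Disjoint (Bl G.Adj R (β g)) T) ∧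
      (∀ g g', g ≠ g' → Disjoint (Bl G.Adj R (β g)) (Bl G.Adj R (β g'))) ∧
      ∀ Z, Z ⊆ S i → Joined G Z → k₀ ≤ dd G Z →
        ((univ.filter fun g => ¬ Disjoint (Bl G.Adj R (β g)) Z).card : ℝ) ≤ θ * dd G Z := by
    intro i
    obtain ⟨M, β, h1, h2, h4, h5, h6⟩ := hcore k hk G h3 hbr hcc (S i) (hF.large i) (hS.sub i)
      (hF.half i) (by
        intro t D F hD hFm
        have h7 := hrc C hCC G 1 id le_rfl
          (by
            intro x A hA hne hA2
            exfalso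
            have h8 : cls (id : V → V) x = {x} := by
              ext y; rw [mem_cls, mem_singleton]; rfl
            rw [h8] at hA hA2
            rcases subset_singleton_iff.1 hA with h9 | h9
            · rw [h9] at hne; exact absurd hne (by simp)
            · exact hA2 h9)
          (fun x => cls_card_pos id x) (S i)
          (by intro x y hxy; simp only [id] at hxy; rw [hxy])
          (fun A _ h8 h9 => hbr A h8 h9)
          (by
            intro A hA hne _ h2A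
            have hss : A ⊂ S i := by
              refine ⟨hA, fun h => ?_⟩
              have h8 := card_le_card h
              have h9 := card_pos.2 hne
              omega
            have h8 := hS.sub i A hss hne
            unfold gf at h8
            rcases min_le_iff.1 h8 with h9 | h9
            · left
              have : ((A.card + 2 : ℕ) : ℝ) ≤ dd G A := by push_cast; exact h9
              have h10 : A.card + 2 ≤ dd G A := by exact_mod_cast this
              omega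
            · right; exact h9)
          t D F hD (fun Z hZ => ⟨(hFm Z hZ).1, (hFm Z hZ).2.1, (hFm Z hZ).2.2.1⟩)
          (Or.inr fun Z hZ => (hFm Z hZ).2.2.2)
        refine h7.trans (le_of_eq ?_)
        congr 1
        rw [Nat.cast_one, Real.sqrt_one]
        norm_num)
      ((S i).filter fun v => Bl G.Adj R v ⊆ S i ∧ Disjoint (Bl G.Adj R v) T) (filter_subset _ _)
      (interior h3 R hN (by
        have := hF.bdry i
        exact this) (hT i))
    refine ⟨M, β, h1, by linarith, fun g => ?_, h5, h6⟩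
    exact (mem_filter.1 (h4 g)).2
  choose M β h1 h2 h4 h5 h6 using key
  exact ⟨M, β, h1, h2, h4, h5, h6⟩

/-- **Centres.** -/
theorem centres {θ η : ℝ} (hθ : 0 < θ) (hη : 0 < η) (hηθ : 20 * η ≤ θ) (R : ℕ) :
    ∃ C₀ : ℝ, ∀ C, C₀ ≤ C → ∃ (k₀ N₀ : ℕ), ∀ N k, N₀ ≤ N → k₀ ≤ k → ∀ {V : Type} [Fintype V]
    [DecidableEq V] (G : SimpleGraph V) [DecidableRel G.Adj], (∀ v, G.degree v = 3) →
    (∀ A : Finset V, A.Nonempty → Aᶜ.Nonempty → 1 ≤ dd G A) → CycConn G k → Gir G k →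
    ∀ {r : ℕ} (S : Fin r → Finset V), Cores G C S → Facts G C N k S → ∀ T : Finset V,
    (∀ i, N * (T ∩ S i).card ≤ 2 * (S i).card) →
    ∃ (M : Fin r → ℕ) (β : (i : Fin r) → Fin (M i) → V), (∀ i, η * gf C (S i).card ≤ M i) ∧
      (∀ i g, Bl G.Adj R (β i g) ⊆ S i ∧ Disjoint (Bl G.Adj R (β i g)) T) ∧
      (∀ i g g', g ≠ g' → Disjoint (Bl G.Adj R (β i g)) (Bl G.Adj R (β i g'))) ∧
      ∀ i Z, Z ⊆ S i → Joined G Z → k₀ ≤ dd G Z →
        ((univ.filter fun g => ¬ Disjoint (Bl G.Adj R (β i g)) Z).card : ℝ) ≤ θ * dd G Z := by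
  obtain ⟨C₀, h⟩ := centres_strong hθ hη hηθ R
  refine ⟨C₀, fun C hC => ?_⟩
  obtain ⟨k₀, N₀, h'⟩ := h C hC
  refine ⟨k₀, N₀, fun N k hN hk V _ _ G _ h3 hbr hcc _ r S hS hF T hT => ?_⟩
  obtain ⟨M, β, h1, _, h2, h4, h5⟩ := h' N k hN hk G h3 hbr hcc S hS hF T hT
  exact ⟨M, β, h1, h2, h4, h5⟩

end Pool.Agent.K5
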