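import Mathlib
import Pool.Agent.Work.MP_974d84_co_k5.Centres
import Pool.Agent.Work.MP_974d84_co_k5.DefsG

/-!
# Centres of gadgets in the cores, for theorem (G) (no cyclic connectivity)
-/

set_option linter.unusedSectionVars false

namespace Pool.Agent.K5

open Finset SimpleGraph Pool.Agent.Exp Pool.Agent.Log5 Pool.Agent.Log5.Clu

/-- **Centres in one core**, without cyclic connectivity: small cuts come from forests. -/
theorem centres_coreG {θ η C : ℝ} (hθ : 0 < θ) (hη : 0 < η) (hηθ : 20 * η ≤ θ) (hC : 1 ≤ C)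
    (hC' : 1 ≤ η * C) (R : ℕ) : ∃ k₀ : ℕ, ∀ k, k₀ ≤ k → ∀ {V : Type} [Fintype V]
    [DecidableEq V] (G : SimpleGraph V) [DecidableRel G.Adj], (∀ v, G.degree v = 3) →
    (∀ A : Finset V, A.Nonempty → Aᶜ.Nonempty → 1 ≤ dd G A) →
    ∀ S : Finset V, (∀ F ⊆ S, F.Nonempty → dd G F < k → F.card + 2 ≤ dd G F) → k ≤ S.card → (∀ A ⊂ S, A.Nonempty → gf C A.card ≤ dd G A) →
    (∀ A ⊆ S, S.card ≤ 2 * A.card → gf C S.card ≤ 10 * dd G A) →
    (∀ (t : V) (D : ℕ) (F : Finset (Finset V)), C ≤ D →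
      (∀ Z ∈ F, t ∈ Z ∧ RBond G S id Z ∧ dd G Z = D ∧ 2 * Z.card ≤ S.card) →
      (F.card : ℝ) ≤ Real.exp (9 * D)) →
    ∀ I ⊆ S, S.card ≤ 2 * I.card → ∃ (M : ℕ) (β : Fin M → V), η * gf C S.card ≤ M ∧
      (M : ℝ) ≤ 2 * (η * gf C S.card) ∧ (∀ g, β g ∈ I) ∧
      (∀ g g', g ≠ g' → Disjoint (Bl G.Adj R (β g)) (Bl G.Adj R (β g'))) ∧
      ∀ Z, Z ⊆ S → Joined G Z → k₀ ≤ dd G Z →
        ((univ.filter fun g => ¬ Disjoint (Bl G.Adj R (β g)) Z).card : ℝ) ≤ θ * dd G Z := by
  obtain ⟨k₁, hk1, hnum⟩ := centre_numbers hθ hη hC hC' R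
  refine ⟨k₁ + ⌈C⌉₊, fun k hk V _ _ G _ h3 hbr S hsm hkS hsub hhalf hrc I hIS hI => ?_⟩
  classical
  set k₀ : ℕ := k₁ + ⌈C⌉₊ with hk0
  have hkC : C ≤ k₀ := by
    have : ⌈C⌉₊ ≤ k₀ := by omega
    exact (Nat.le_ceil _).trans (by exact_mod_cast this)
  obtain ⟨n1, n2, n3, n4⟩ := hnum S.card (by omega)
  have hs0 : (0 : ℝ) < S.card := by exact_mod_cast (by omega : 0 < S.card)
  have hlog0 : 0 ≤ Real.log S.card := Real.log_nonneg (by exact_mod_cast (by omega : 1 ≤ S.card))
  set M : ℕ := ⌈η * gf C S.card⌉₊ with hM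
  have hM1 : η * gf C S.card ≤ M := Nat.le_ceil _
  have hM2 : (M : ℝ) ≤ 2 * (η * gf C S.card) := by
    have := Nat.ceil_lt_add_one (a := η * gf C S.card) (by linarith)
    rw [hM]; linarith
  obtain ⟨m1, m2⟩ := n2 M hM2
  -- the type of the inner vertices
  have hIpos : 0 < I.card := by omega
  obtain ⟨x₀, hx₀⟩ := card_pos.1 hIpos
  haveI : Nonempty {x // x ∈ I} := ⟨⟨x₀, hx₀⟩⟩
  have hcardI : Fintype.card {x // x ∈ I} = I.card := by simp
  have hI2 : (S.card : ℝ) / 2 ≤ (Fintype.card {x // x ∈ I} : ℝ) := by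
    rw [hcardI]
    have : (S.card : ℝ) ≤ 2 * I.card := by exact_mod_cast hI
    linarith
  have hS2 : (0 : ℝ) < (S.card : ℝ) / 2 := by positivity
  have hIr : (0 : ℝ) < (Fintype.card {x // x ∈ I} : ℝ) := lt_of_lt_of_le hS2 hI2
  -- conflicts
  set conf : {x // x ∈ I} → {x // x ∈ I} → Prop := fun x y =>
    ¬ Disjoint (Bl G.Adj R (x : V)) (Bl G.Adj R (y : V)) with hconf
  have hc : ∀ x, (univ.filter fun y => conf x y).card ≤ 3 * 2 ^ (2 * R) := by
    intro x
    have h1 : ((univ.filter fun y => conf x y).image fun y : {x // x ∈ I} => (y : V)) ⊆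
        Bl G.Adj (R + R) (x : V) := by
      intro v hv
      obtain ⟨y, hy, rfl⟩ := mem_image.1 hv
      have h2 := (mem_filter.1 hy).2
      rw [hconf] at h2
      obtain ⟨z, hz1, hz2⟩ := not_disjoint_iff.1 h2
      exact Bl_comp hz1 (Bl_symm (fun u v h => h.symm) hz2)
    have h2 := card_le_card h1
    rw [card_image_of_injective _ Subtype.val_injective] at h2
    have h3' := Bl_card G h3 (R + R) (x : V)
    rw [← two_mul] at h2 h3'
    omega
  -- the family of bonds
  set J : Finset (Finset V) := univ.filter fun F => RBond G S id F ∧ k₀ ≤ dd G F ∧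
    10 * (dd G F : ℝ) < gf C S.card ∧ 2 * F.card ≤ S.card ∧ gf C F.card ≤ dd G F with hJd
  have hJm : ∀ F ∈ J, RBond G S id F ∧ k₀ ≤ dd G F ∧
      10 * (dd G F : ℝ) < gf C S.card ∧ 2 * F.card ≤ S.card ∧ gf C F.card ≤ dd G F :=
    fun F hF => (mem_filter.1 hF).2
  have hgs : gf C S.card ≤ S.card + 2 := min_le_left _ _
  have hsb := sum_bonds G (θ := θ) (k := k₀) (S := S) (J := J)
    (fun F hF => by
      obtain ⟨a1, a2, a3, a4, a5⟩ := hJm F hF
      refine ⟨a1.sub, a1.ne, a2, ?_⟩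
      have h5 : (4 : ℝ) ≤ S.card := by exact_mod_cast (by omega : 4 ≤ S.card)
      have h4 : (dd G F : ℝ) < S.card := by
        have : (0 : ℝ) ≤ dd G F := Nat.cast_nonneg _
        linarith
      exact_mod_cast h4)
    (fun t D hD => by
      refine hrc t D _ (hkC.trans (by exact_mod_cast hD)) fun Z hZ => ?_
      obtain ⟨b1, b2, b3⟩ := mem_filter.1 hZ
      obtain ⟨a1, a2, a3, a4, a5⟩ := hJm Z b1
      exact ⟨b2, a1, b3, a4⟩)
    (fun D hD => n4 D (by omega)) (by omega)
  set B : Finset V → Finset {x // x ∈ I} := fun F =>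
    univ.filter fun x => ¬ Disjoint (Bl G.Adj R (x : V)) F with hB
  have hBc : ∀ F, (B F).card ≤ 3 * 2 ^ R * F.card := by
    intro F
    have h1 : ((B F).image fun y : {x // x ∈ I} => (y : V)) ⊆
        F.biUnion fun u => Bl G.Adj R u := by
      intro v hv
      obtain ⟨y, hy, rfl⟩ := mem_image.1 hv
      have h2 := (mem_filter.1 hy).2
      obtain ⟨z, hz1, hz2⟩ := not_disjoint_iff.1 h2
      exact mem_biUnion.2 ⟨z, hz2, Bl_symm (fun u v h => h.symm) hz1⟩
    have h2 := (card_le_card h1).trans card_biUnion_le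
    rw [card_image_of_injective _ Subtype.val_injective] at h2
    refine h2.trans ((sum_le_sum fun u _ => (by
      have := Bl_card G h3 R u; omega : (Bl G.Adj R u).card ≤ 3 * 2 ^ R)).trans ?_)
    rw [sum_const, smul_eq_mul, mul_comm]
  set m : Finset V → ℕ := fun F => ⌊θ * dd G F⌋₊ + 1 with hm
  have hub := union_bound (A := {x // x ∈ I}) M conf (3 * 2 ^ (2 * R)) hc J B m (by
    have u1 : (M : ℝ) ^ 2 * ((3 * 2 ^ (2 * R) : ℕ) : ℝ) / Fintype.card {x // x ∈ I} ≤ 1 / 2 := by
      refine le_trans ?_ m1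
      push_cast
      exact div_le_div_of_nonneg_left (by positivity) hS2 hI2
    have u2 : ∑ F ∈ J, ((M * (B F).card : ℝ) / Fintype.card {x // x ∈ I}) ^ m F ≤ 1 / 4 := by
      refine (sum_le_sum fun F hF => ?_).trans hsb
      obtain ⟨a1, a2, a3, a4, a5⟩ := hJm F hF
      have hFc : (F.card : ℝ) ≤ Real.exp (Real.log S.card / 3) :=
        n3 F.card (dd G F) (card_pos.2 a1.ne) a5 a3
      have h1 : ((M * (B F).card : ℝ) / Fintype.card {x // x ∈ I}) ≤
          Real.exp (-(Real.log S.card / 3)) := by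
        refine le_trans ?_ m2
        have h2 : ((B F).card : ℝ) ≤ 3 * 2 ^ R * Real.exp (Real.log S.card / 3) := by
          have h4 : ((B F).card : ℝ) ≤ 3 * 2 ^ R * F.card := by exact_mod_cast hBc F
          refine h4.trans ?_
          gcongr
        calc ((M * (B F).card : ℝ) / Fintype.card {x // x ∈ I}) ≤
            (M * (B F).card : ℝ) / ((S.card : ℝ) / 2) :=
              div_le_div_of_nonneg_left (by positivity) hS2 hI2
          _ ≤ _ := by gcongr
      have h0 : 0 ≤ ((M * (B F).card : ℝ) / Fintype.card {x // x ∈ I}) := by positivity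
      calc ((M * (B F).card : ℝ) / Fintype.card {x // x ∈ I}) ^ m F ≤
          Real.exp (-(Real.log S.card / 3)) ^ m F := pow_le_pow_left₀ h0 h1 _
        _ = Real.exp ((m F : ℕ) * (-(Real.log S.card / 3))) := by rw [Real.exp_nat_mul]
        _ ≤ Real.exp (-(θ * dd G F * (Real.log S.card / 3))) := by
            refine Real.exp_le_exp.2 ?_
            have h5 : θ * dd G F ≤ (m F : ℕ) := by
              rw [hm]; push_cast
              exact (Nat.lt_floor_add_one _).le
            nlinarith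
    have u3 : (1 : ℝ) / 2 + 1 / 4 < 1 := by norm_num
    linarith)
  obtain ⟨f, hf1, hf2⟩ := hub
  refine ⟨M, fun g => (f g : V), hM1, hM2, fun g => (f g).2, fun g g' hg => ?_,
    fun Z hZS hZj hZk => ?_⟩
  · have := hf1 g g' hg
    rw [hconf] at this
    simpa using this
  · by_cases hbig : gf C S.card ≤ 10 * dd G Z
    · have h1 : ((univ.filter fun g => ¬ Disjoint (Bl G.Adj R (f g : V)) Z).card : ℝ) ≤ M := by
        have := card_le_univ (univ.filter fun g : Fin M => ¬ Disjoint (Bl G.Adj R (f g : V)) Z)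
        rw [Fintype.card_fin] at this
        exact_mod_cast this
      refine h1.trans (hM2.trans ?_)
      have h2 : η * gf C S.card ≤ η * (10 * dd G Z) := mul_le_mul_of_nonneg_left hbig hη.le
      have h4 : (0 : ℝ) ≤ dd G Z := Nat.cast_nonneg _
      nlinarith
    · push Not at hbig
      have hZne : Z.Nonempty := by
        rw [nonempty_iff_ne_empty]
        rintro rfl
        have : dd G (∅ : Finset V) = 0 := by
          unfold dd
          rw [card_eq_zero, eq_empty_iff_forall_notMem]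
          intro p hp
          exact absurd ((mem_cut G).1 hp).1 (notMem_empty _)
        omega
      obtain ⟨F, hZF, hFS, hdF, hrb, hFe⟩ := exists_fill G hbr hZS hZne hZj
      have hdF' : (dd G F : ℝ) ≤ dd G Z := by exact_mod_cast hdF
      have h2F : ¬ S.card ≤ 2 * F.card := by
        intro h
        have := hhalf F hFS h
        linarith
      have hFne : F ≠ S := by
        rintro rfl
        omega
      have hFss : F ⊂ S := ⟨hFS, fun h => hFne (hFS.antisymm h)⟩
      have hkF : k₀ ≤ dd G F := by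
        by_contra hlt
        have h5 := hsm F hFS hrb.ne (by omega)
        have h6 := dd_le_of_joined h3 hZj hZne
        have h7 := card_le_card hZF
        omega
      have hFJ : F ∈ J := by
        rw [hJd, mem_filter]
        refine ⟨mem_univ _, hrb, hkF, by linarith, by omega, hsub F hFss hrb.ne⟩
      have h10 := hf2 F hFJ
      have h11 : (univ.filter fun g => ¬ Disjoint (Bl G.Adj R (f g : V)) Z) ⊆
          univ.filter fun g => f g ∈ B F := by
        intro g hg
        rw [mem_filter] at hg ⊢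
        refine ⟨mem_univ _, ?_⟩
        rw [hB, mem_filter]
        exact ⟨mem_univ _, fun h => hg.2 (disjoint_of_subset_right hZF h)⟩
      have h12 := card_le_card h11
      have h13 : (univ.filter fun g => ¬ Disjoint (Bl G.Adj R (f g : V)) Z).card ≤
          ⌊θ * dd G F⌋₊ := by
        rw [hm] at h10
        have := h12
        have h14 : (univ.filter fun g => f g ∈ B F).card < ⌊θ * dd G F⌋₊ + 1 := h10
        omega
      calc ((univ.filter fun g => ¬ Disjoint (Bl G.Adj R (f g : V)) Z).card : ℝ) ≤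
          (⌊θ * dd G F⌋₊ : ℝ) := by exact_mod_cast h13
        _ ≤ θ * dd G F := Nat.floor_le (by positivity)
        _ ≤ θ * dd G Z := by gcongr

/-- **Centres** for theorem (G), with an upper bound for their number, outside a small set `T`. -/
theorem centres_strongG {θ η : ℝ} (hθ : 0 < θ) (hη : 0 < η) (hηθ : 20 * η ≤ θ) (R : ℕ) :
    ∃ C₀ : ℝ, ∀ C, C₀ ≤ C → ∃ (k₀ N₀ : ℕ), ∀ N k κ : ℕ, ∀ δ : ℝ, N₀ ≤ N → k₀ ≤ k →
    ∀ {V : Type} [Fintype V]
    [DecidableEq V] (G : SimpleGraph V) [DecidableRel G.Adj], (∀ v, G.degree v = 3) →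
    (∀ A : Finset V, A.Nonempty → Aᶜ.Nonempty → 1 ≤ dd G A) →
    ∀ {r : ℕ} (S : Fin r → Finset V), Cores G C S → FactsG G C N k κ δ S → ∀ T : Finset V,
    (∀ i, N * (T ∩ S i).card ≤ 2 * (S i).card) →
    ∃ (M : Fin r → ℕ) (β : (i : Fin r) → Fin (M i) → V), (∀ i, η * gf C (S i).card ≤ M i) ∧
      (∀ i, (M i : ℝ) ≤ 2 * η * gf C (S i).card) ∧
      (∀ i g, Bl G.Adj R (β i g) ⊆ S i ∧ Disjoint (Bl G.Adj R (β i g)) T) ∧
      (∀ i g g', g ≠ g' → Disjoint (Bl G.Adj R (β i g)) (Bl G.Adj R (β i g'))) ∧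
      ∀ i Z, Z ⊆ S i → Joined G Z → k₀ ≤ dd G Z →
        ((univ.filter fun g => ¬ Disjoint (Bl G.Adj R (β i g)) Z).card : ℝ) ≤ θ * dd G Z := by
  obtain ⟨C₁, hC1, hrc⟩ := region_count (τ := 1) one_pos
  refine ⟨max C₁ (1 / η), fun C hC => ?_⟩
  have hCC : C₁ ≤ C := (le_max_left _ _).trans hC
  have hC1' : 1 ≤ C := hC1.trans hCC
  have hCη : 1 ≤ η * C := by
    have h1 : 1 / η ≤ C := (le_max_right _ _).trans hC
    rw [div_le_iff₀ hη] at h1
    linarith
  obtain ⟨k₀, hcore⟩ := centres_coreG hθ hη hηθ hC1' hCη R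
  refine ⟨k₀, 36 * 2 ^ R, fun N k κ δ hN hk V _ _ G _ h3 hbr r S hS hF T hT => ?_⟩
  have key : ∀ i, ∃ (M : ℕ) (β : Fin M → V), η * gf C (S i).card ≤ M ∧
      (M : ℝ) ≤ 2 * η * gf C (S i).card ∧
      (∀ g, Bl G.Adj R (β g) ⊆ S i ∧ Disjoint (Bl G.Adj R (β g)) T) ∧
      (∀ g g', g ≠ g' → Disjoint (Bl G.Adj R (β g)) (Bl G.Adj R (β g'))) ∧
      ∀ Z, Z ⊆ S i → Joined G Z → k₀ ≤ dd G Z →
        ((univ.filter fun g => ¬ Disjoint (Bl G.Adj R (β g)) Z).card : ℝ) ≤ θ * dd G Z := by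
    intro i
    obtain ⟨M, β, h1, h2, h4, h5, h6⟩ := hcore k hk G h3 hbr (S i)
      (fun F hFS hne hlt => hF.reg hS.disj (Or.inl ⟨i, rfl⟩) hFS hne hlt) (hF.large i) (hS.sub i)
      (hF.base.half i) (by
        intro t D F hD hFm
        have h7 := hrc C hCC G 1 id le_rfl
          (by
            intro x A hA hne hA2
            exfalso
            have h8 : cls (id : V → V) x = {x} := by
              ext y; rw [mem_cls, mem_singleton]; rfl
            rw [h8] at hA hA2
            rcases subset_singleton_iff.1 hA with h9 | h9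
            · rw [h9] at hne; exact absurd hne (by simp)
            · exact hA2 h9)
          (fun x => cls_card_pos id x) (S i)
          (by intro x y hxy; simp only [id] at hxy; rw [hxy])
          (fun A _ h8 h9 => hbr A h8 h9)
          (by
            intro A hA hne _ h2A
            have hss : A ⊂ S i := by
              refine ⟨hA, fun h => ?_⟩
              have h8 := card_le_card h
              have h9 := card_pos.2 hne
              omega
            have h8 := hS.sub i A hss hne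
            unfold gf at h8
            rcases min_le_iff.1 h8 with h9 | h9
            · left
              have : ((A.card + 2 : ℕ) : ℝ) ≤ dd G A := by push_cast; exact h9
              have h10 : A.card + 2 ≤ dd G A := by exact_mod_cast this
              omega
            · right; exact h9)
          t D F hD (fun Z hZ => ⟨(hFm Z hZ).1, (hFm Z hZ).2.1, (hFm Z hZ).2.2.1⟩)
          (Or.inr fun Z hZ => (hFm Z hZ).2.2.2)
        refine h7.trans (le_of_eq ?_)
        congr 1
        rw [Nat.cast_one, Real.sqrt_one]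
        norm_num)
      ((S i).filter fun v => Bl G.Adj R v ⊆ S i ∧ Disjoint (Bl G.Adj R v) T) (filter_subset _ _)
      (interior h3 R hN (by
        have := hF.base.bdry i
        exact this) (hT i))
    refine ⟨M, β, h1, by linarith, fun g => ?_, h5, h6⟩
    exact (mem_filter.1 (h4 g)).2
  choose M β h1 h2 h4 h5 h6 using key
  exact ⟨M, β, h1, h2, h4, h5, h6⟩

/-- **Centres** for theorem (G). -/
theorem centresG {θ η : ℝ} (hθ : 0 < θ) (hη : 0 < η) (hηθ : 20 * η ≤ θ) (R : ℕ) :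
    ∃ C₀ : ℝ, ∀ C, C₀ ≤ C → ∃ (k₀ N₀ : ℕ), ∀ N k κ : ℕ, ∀ δ : ℝ, N₀ ≤ N → k₀ ≤ k →
    ∀ {V : Type} [Fintype V]
    [DecidableEq V] (G : SimpleGraph V) [DecidableRel G.Adj], (∀ v, G.degree v = 3) →
    (∀ A : Finset V, A.Nonempty → Aᶜ.Nonempty → 1 ≤ dd G A) →
    ∀ {r : ℕ} (S : Fin r → Finset V), Cores G C S → FactsG G C N k κ δ S →
    ∃ (M : Fin r → ℕ) (β : (i : Fin r) → Fin (M i) → V), (∀ i, η * gf C (S i).card ≤ M i) ∧
      (∀ i g, Bl G.Adj R (β i g) ⊆ S i) ∧
      (∀ i g g', g ≠ g' → Disjoint (Bl G.Adj R (β i g)) (Bl G.Adj R (β i g'))) ∧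
      ∀ i Z, Z ⊆ S i → Joined G Z → k₀ ≤ dd G Z →
        ((univ.filter fun g => ¬ Disjoint (Bl G.Adj R (β i g)) Z).card : ℝ) ≤ θ * dd G Z := by
  obtain ⟨C₀, h⟩ := centres_strongG hθ hη hηθ R
  refine ⟨C₀, fun C hC => ?_⟩
  obtain ⟨k₀, N₀, h'⟩ := h C hC
  refine ⟨k₀, N₀, fun N k κ δ hN hk V _ _ G _ h3 hbr r S hS hF => ?_⟩
  obtain ⟨M, β, h1, _, h2, h4, h5⟩ := h' N k κ δ hN hk G h3 hbr S hS hF ∅ (fun i => by simp)
  exact ⟨M, β, h1, fun i g => (h2 i g).1, h4, h5⟩

end Pool.Agent.K5
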