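import Mathlib
import Pool.Agent.Work.MP_974d84_co_k5.DefsE
import Pool.Agent.Work.MP_974d84_co_k5.Words
import Pool.Agent.Work.MP_974d84_co_k5.MainWB

/-!
# Room BG: the leaves of the ends of the marks
-/

set_option linter.unusedSectionVars false

namespace Pool.Agent.K5

open Finset SimpleGraph Pool.Agent.Exp Pool.Agent.Log5 Pool.Agent.Log5.Clu
  Pool.Agent.Work.MP_314beb_co

section

variable {V : Type} [Fintype V] [DecidableEq V]

/-- The smeared end of a mark, summed over a set. -/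
theorem sum_wmm {μ : V → V} {π : Equiv.Perm V} {p : V → V → ℝ} {jm : ℕ} {u : V}
    (hinj : Function.Injective fun b : Fin jm → Bool => TT μ π (rtm μ p u) (List.ofFn b))
    (Z : Finset V) : ∑ v ∈ Z, wmm μ π p jm u v =
      ∑ b : Fin jm → Bool, if TT μ π (rtm μ p u) (List.ofFn b) ∈ Z then (1 : ℝ) / 2 ^ jm else 0 := by
  classical
  have hex : ∀ v, (∃ c : List Bool, c.length = jm ∧ v = TT μ π (rtm μ p u) c) ↔
      ∃ b : Fin jm → Bool, TT μ π (rtm μ p u) (List.ofFn b) = v := by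
    intro v
    constructor
    · rintro ⟨c, rfl, rfl⟩
      exact ⟨c.get, by rw [List.ofFn_get]⟩
    · rintro ⟨b, rfl⟩
      exact ⟨List.ofFn b, List.length_ofFn, rfl⟩
  have h1 : ∀ v, wmm μ π p jm u v =
      ∑ b : Fin jm → Bool, if TT μ π (rtm μ p u) (List.ofFn b) = v then (1 : ℝ) / 2 ^ jm else 0 := by
    intro v
    unfold wmm
    by_cases h : ∃ b : Fin jm → Bool, TT μ π (rtm μ p u) (List.ofFn b) = v
    · rw [if_pos ((hex v).2 h)]
      obtain ⟨b, hb⟩ := h
      rw [sum_eq_single b]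
      · rw [if_pos hb]
      · intro b' _ hne
        rw [if_neg]
        intro h'
        exact hne (hinj (h'.trans hb.symm))
      · intro h'
        exact absurd (mem_univ b) h'
    · rw [if_neg fun h' => h ((hex v).1 h')]
      rw [sum_eq_zero]
      intro b _
      rw [if_neg fun h' => h ⟨b, h'⟩]
  rw [sum_congr rfl fun v _ => h1 v, sum_comm]
  refine sum_congr rfl fun b _ => ?_
  rw [sum_ite_eq]

/-- The charges of the ends of the marks, leaf by leaf. -/
theorem leaf_sum {μ : V → V} {π : Equiv.Perm V} {p : V → V → ℝ} {jm : ℕ}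
    (hinj : ∀ u ∈ ends p,
      Function.Injective fun b : Fin jm → Bool => TT μ π (rtm μ p u) (List.ofFn b))
    (Z : Finset V) : ∑ u ∈ ends p, chm μ p u * ∑ v ∈ Z, wmm μ π p jm u v =
      ∑ x ∈ ends p ×ˢ (univ : Finset (Fin jm → Bool)),
        if TT μ π (rtm μ p x.1) (List.ofFn x.2) ∈ Z then chm μ p x.1 / 2 ^ jm else 0 := by
  classical
  rw [sum_product]
  refine sum_congr rfl fun u hu => ?_
  rw [sum_wmm (hinj u hu), mul_sum]
  refine sum_congr rfl fun b _ => ?_
  show chm μ p u * _ = _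
  split_ifs
  · ring
  · rw [mul_zero]

/-- Only one marked edge at a vertex. -/
theorem mark_unique {G : SimpleGraph V} [DecidableRel G.Adj] {p : V → V → ℝ} {D : ℕ}
    (hpD : FarM G D p) (hp : Marks G p) {u v v' : V} (h : p u v ≠ 0) (h' : p u v' ≠ 0) : v = v' := by
  rcases hpD u v u v' h h' (Bl_self _ _) with ⟨-, h1⟩ | ⟨h1, h2⟩
  · exact h1.symm
  · exact absurd (hp.adj u v h) (by rw [← h1]; exact G.loopless.irrefl u)

theorem abs_chm {G : SimpleGraph V} [DecidableRel G.Adj] {μ : V → V} {p : V → V → ℝ} {D : ℕ}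
    (hpD : FarM G D p) (hp : Marks G p) (u : V) : |chm μ p u| ≤ 2 / 5 := by
  classical
  unfold chm
  by_cases h : ∃ v, p u v ≠ 0
  · obtain ⟨v, hv⟩ := h
    rw [sum_eq_single v]
    · rw [if_neg hv]
      have hs : |(sg (p u v) : ℝ)| = 1 := by
        unfold sg
        split_ifs <;> simp
      split_ifs
      · rw [abs_div, abs_two]
        rcases hp.val u v hv with h | h <;> rw [h] <;> norm_num
      · rw [abs_div, abs_two, abs_mul, hs, one_mul]
        rcases hp.val u v hv with h | h <;> rw [h] <;> norm_num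
    · intro v' _ hne
      rw [if_pos]
      by_contra h0
      exact hne (mark_unique hpD hp h0 hv)
    · intro h
      exact absurd (mem_univ v) h
  · push Not at h
    rw [sum_eq_zero]
    · rw [abs_zero]; norm_num
    · intro v _
      rw [if_pos (h v)]

end

/-- Disjoint joined sets which are split by `Z` contain different cut edges. -/
theorem cut_joined {V : Type} [Fintype V] [DecidableEq V] {G : SimpleGraph V} [DecidableRel G.Adj]
    {Γ : Type} [DecidableEq Γ] (I : Finset Γ) (W : Γ → Finset V) (hW : ∀ g ∈ I, Joined G (W g))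
    (hd : ∀ g ∈ I, ∀ g' ∈ I, g ≠ g' → Disjoint (W g) (W g')) (Z : Finset V)
    (hZ : ∀ g ∈ I, ∃ u ∈ W g, ∃ v ∈ W g, u ∈ Z ∧ v ∉ Z) : I.card ≤ dd G Z := by
  classical
  have hex : ∀ g ∈ I, ∃ e ∈ cut G Z, e.1 ∈ W g := by
    intro g hg
    obtain ⟨u, hu, v, hv, huZ, hvZ⟩ := hZ g hg
    obtain ⟨a, ha, b, hb, hbn, hab⟩ := hW g hg (W g ∩ Z) inter_subset_left
      ⟨u, mem_inter.2 ⟨hu, huZ⟩⟩ (fun h => hvZ (mem_inter.1 (h.symm ▸ hv)).2)
    refine ⟨(a, b), (mem_cut G).2 ⟨(mem_inter.1 ha).2, fun h => hbn (mem_inter.2 ⟨hb, h⟩), hab⟩,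
      (mem_inter.1 ha).1⟩
  choose f hf1 hf2 using hex
  rw [← card_attach]
  refine card_le_card_of_injOn (fun g => f g.1 g.2) (fun g _ => hf1 g.1 g.2) ?_
  intro g _ g' _ h
  have h' : f g.1 g.2 = f g'.1 g'.2 := h
  by_contra hne
  exact Finset.disjoint_left.1 (hd g.1 g.2 g'.1 g'.2 fun h => hne (Subtype.ext h))
    (hf2 g.1 g.2) (h' ▸ hf2 g'.1 g'.2)

/-- Four defects with zones in the ball of `v`. -/
theorem four_defects {V : Type} [Fintype V] [DecidableEq V] {G : SimpleGraph V}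
    [DecidableRel G.Adj] {μ : V → V} {π : Equiv.Perm V} (hf : Frame G μ π) {k : ℕ} (hg : Gir G k)
    {J q M : ℕ} {A : Finset V} {p : V → V → ℝ} {y : V → ℤ} (hy : PatternE μ π J q M A p y)
    (hk : 2 * M + 2 < k) {R R₁ : ℕ} (hR₁ : 2 * M + 2 * q + R ≤ R₁) (v : V) :
    ∃ f : Fin 4 → V, Function.Injective f ∧ ∀ i, f i ∈ Dfc π A y ∧
      zone G π R q (f i) ⊆ Bl G.Adj R₁ v := by
  obtain ⟨m, n, h1, h2, h3, h4⟩ := hy.near v
  obtain ⟨m', n', h1', h2', h3', h4'⟩ := hy.near ((π ^ M) v)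
  rw [← Equiv.Perm.mul_apply, ← pow_add] at h3' h4'
  -- the four exponents
  have hinj : ∀ i j : ℕ, i < 2 * M → j < 2 * M → (π ^ i) v = (π ^ j) v → i = j := by
    intro i j hi hj hij
    by_contra hne
    rcases lt_or_gt_of_ne hne with h | h
    · have e1 : (π ^ (j - i)) ((π ^ i) v) = (π ^ i) v := by
        rw [← Equiv.Perm.mul_apply, ← pow_add, Nat.sub_add_cancel h.le]
        exact hij.symm
      exact pow_ne hf hg (by omega : 0 < j - i) (by omega) _ e1
    · have e1 : (π ^ (i - j)) ((π ^ j) v) = (π ^ j) v := by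
        rw [← Equiv.Perm.mul_apply, ← pow_add, Nat.sub_add_cancel h.le]
        exact hij
      exact pow_ne hf hg (by omega : 0 < i - j) (by omega) _ e1
  have hex : ∃ e : Fin 4 → ℕ, Function.Injective e ∧ ∀ i, e i < 2 * M ∧
      (π ^ e i) v ∈ Dfc π A y := by
    refine ⟨![m, n, m' + M, n' + M], ?_, ?_⟩
    · intro i j hij
      fin_cases i <;> fin_cases j <;> simp at hij ⊢ <;> omega
    · intro i
      fin_cases i <;> simp
      · exact ⟨by omega, h3⟩
      · exact ⟨by omega, h4⟩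
      · exact ⟨by omega, h3'⟩
      · exact ⟨by omega, h4'⟩
  obtain ⟨e, he1, he2⟩ := hex
  refine ⟨fun i => (π ^ e i) v, fun i j h => he1 (hinj _ _ (he2 i).1 (he2 j).1 h), fun i =>
    ⟨(he2 i).2, ?_⟩⟩
  have := (he2 i).1
  exact zone_sub hf (by omega)

end Pool.Agent.K5
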