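import Mathlib
import Pool.Agent.Work.MP_974d84_co_k5.SigmaA
import Pool.Agent.Work.MP_974d84_co_k5.CentresG
import Pool.Agent.Work.MP_974d84_co_k5.DefsG

/-!
# Room BG, E8: the charge of the marks and of their defects is small at every vertex; centres
away from the marks
-/

set_option linter.unusedSectionVars false

namespace Pool.Agent.K5

open Finset SimpleGraph Pool.Agent.Exp Pool.Agent.Log5 Pool.Agent.Log5.Clu

variable {V : Type} [Fintype V] [DecidableEq V]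

/-- The smeared end of a mark is near the end. -/
theorem wmm_near {G : SimpleGraph V} [DecidableRel G.Adj] {μ : V → V} {π : Equiv.Perm V}
    (hf : Frame G μ π) {p : V → V → ℝ} {jm : ℕ} {u v : V} (h : wmm μ π p jm u v ≠ 0) :
    v ∈ Bl G.Adj (2 * jm + 2) u := by
  unfold wmm at h
  split_ifs at h with hc
  · obtain ⟨c, hc1, rfl⟩ := hc
    have h1 : rtm μ p u ∈ Bl G.Adj 1 u := by
      unfold rtm
      split_ifs
      · exact Bl_self _ _
      · exact mem_Bl_succ.2 (Or.inr ⟨u, Bl_self 0 u, mu_adj hf u⟩)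
    have h2 := TT_mem_Bl hf (rtm μ p u) c
    rw [hc1] at h2
    exact Bl_mono (by omega) _ (Bl_comp h1 h2)
  · exact absurd rfl h

theorem wmm_nonneg {μ : V → V} {π : Equiv.Perm V} {p : V → V → ℝ} {jm : ℕ} {u v : V} :
    0 ≤ wmm μ π p jm u v := by
  unfold wmm
  split_ifs
  · positivity
  · exact le_rfl

theorem wmm_le {μ : V → V} {π : Equiv.Perm V} {p : V → V → ℝ} {jm : ℕ} {u v : V} :
    wmm μ π p jm u v ≤ 1 / 2 ^ jm := by
  unfold wmm
  split_ifs
  · exact le_rfl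
  · positivity

/-- At most two ends of marks are near a vertex. -/
theorem ends_near_two {G : SimpleGraph V} [DecidableRel G.Adj] {p : V → V → ℝ} {D n : ℕ}
    (hpD : FarM G D p) (hD : 2 * n ≤ D) (v : V) :
    ((ends p).filter fun u => v ∈ Bl G.Adj n u).card ≤ 2 := by
  classical
  rcases ((ends p).filter fun u => v ∈ Bl G.Adj n u).eq_empty_or_nonempty with h | ⟨u₀, hu₀⟩
  · rw [h, card_empty]
    omega
  · rw [mem_filter] at hu₀
    obtain ⟨w₀, hw₀⟩ := (mem_filter.1 hu₀.1).2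
    have hsub : ((ends p).filter fun u => v ∈ Bl G.Adj n u) ⊆ {u₀, w₀} := by
      intro u hu
      rw [mem_filter] at hu
      obtain ⟨w, hw⟩ := (mem_filter.1 hu.1).2
      have h1 : u ∈ Bl G.Adj n v := Bl_symm (fun a b h => h.symm) hu.2
      have h2 : u ∈ Bl G.Adj (n + n) u₀ := Bl_comp hu₀.2 h1
      rcases hpD u₀ w₀ u w hw₀ hw (Bl_mono (by omega) _ h2) with h5 | h5
      · rw [h5.1]
        exact mem_insert_self _ _
      · rw [h5.1]
        exact mem_insert_of_mem (mem_singleton_self _)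
    exact (card_le_card hsub).trans card_le_two

/-- The charge of the marks and of their defects is small at every vertex. -/
theorem omega_small_om {G : SimpleGraph V} [DecidableRel G.Adj] {μ : V → V} {π : Equiv.Perm V}
    (hf : Frame G μ π) {R q B jm j₀ D : ℕ} (hD : 4 * jm + 10 ≤ D) {A : Finset V}
    (hA : Win G π R q B A) {p : V → V → ℝ} (hp : Marks G p) (hpD : FarM G D p)
    {Rm : Finset V} (hRm : Rm ⊆ A) {w : V → ℤ → V → ℝ} (w1 : ∀ a s v, 0 ≤ w a s v)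
    (w2 : ∀ a s v, w a s v ≤ 1 / 2 ^ j₀)
    (w3 : ∀ a ∈ Rm, ∀ s, (s = 1 ∨ s = -1) → ∀ v, w a s v ≠ 0 → v ∈ zone G π R q a)
    {ηm : V → ℤ} (hηm : ∀ v, ηm v = 1 ∨ ηm v = -1) (v : V) :
    |∑ u ∈ ends p, chm μ p u * wmm μ π p jm u v + ∑ a ∈ Rm, (ηm a : ℝ) * w a (ηm a) v| ≤
      1 / 2 ^ jm + 1 / 2 ^ j₀ := by
  classical
  have h2 : (0 : ℝ) < 1 / 2 ^ jm := by positivity
  have h2' : (0 : ℝ) < 1 / 2 ^ j₀ := by positivity
  -- the marks
  have ha : |∑ u ∈ ends p, chm μ p u * wmm μ π p jm u v| ≤ 1 / 2 ^ jm := by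
    have hcard : ((ends p).filter fun u => v ∈ Bl G.Adj (2 * jm + 2) u).card ≤ 2 :=
      ends_near_two hpD (by omega) v
    have hsum : ∑ u ∈ ends p, chm μ p u * wmm μ π p jm u v =
        ∑ u ∈ (ends p).filter (fun u => v ∈ Bl G.Adj (2 * jm + 2) u),
          chm μ p u * wmm μ π p jm u v := by
      symm
      refine sum_subset (filter_subset _ _) fun u hu hu' => ?_
      by_contra h
      have h5 : wmm μ π p jm u v ≠ 0 := fun h0 => h (by rw [h0, mul_zero])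
      exact hu' (mem_filter.2 ⟨hu, wmm_near hf h5⟩)
    rw [hsum]
    refine (abs_sum_le_sum_abs _ _).trans ?_
    have hterm : ∀ u ∈ (ends p).filter (fun u => v ∈ Bl G.Adj (2 * jm + 2) u),
        |chm μ p u * wmm μ π p jm u v| ≤ 2 / 5 * (1 / 2 ^ jm) := by
      intro u _
      rw [abs_mul, abs_of_nonneg (wmm_nonneg (μ := μ) (π := π) (p := p) (jm := jm) (u := u)
        (v := v))]
      exact mul_le_mul (abs_chm hpD hp u) wmm_le wmm_nonneg (by norm_num)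
    refine (sum_le_card_nsmul _ _ _ hterm).trans ?_
    rw [nsmul_eq_mul]
    have h3 : (((ends p).filter fun u => v ∈ Bl G.Adj (2 * jm + 2) u).card : ℝ) ≤ 2 := by
      exact_mod_cast hcard
    have h4 : (((ends p).filter fun u => v ∈ Bl G.Adj (2 * jm + 2) u).card : ℝ) *
        (2 / 5 * (1 / 2 ^ jm)) ≤ 2 * (2 / 5 * (1 / 2 ^ jm)) :=
      mul_le_mul_of_nonneg_right h3 (by positivity)
    linarith
  -- the defects
  have hb : |∑ a ∈ Rm, (ηm a : ℝ) * w a (ηm a) v| ≤ 1 / 2 ^ j₀ := by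
    by_cases h : ∃ a ∈ Rm, w a (ηm a) v ≠ 0
    · obtain ⟨a, ha, hav⟩ := h
      rw [sum_eq_single a]
      · have h5 : |(ηm a : ℝ)| = 1 := by
          rcases hηm a with h | h <;> rw [h] <;> norm_num
        rw [abs_mul, h5, one_mul, abs_of_nonneg (w1 _ _ _)]
        exact w2 _ _ _
      · intro a' ha' hne
        by_contra h0
        have h6 : w a' (ηm a') v ≠ 0 := fun h => h0 (by rw [h, mul_zero])
        exact Finset.disjoint_left.1 (hA.disj a' (hRm ha') a (hRm ha) hne)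
          (w3 a' ha' _ (hηm a') v h6) (w3 a ha _ (hηm a) v hav)
      · intro h
        exact absurd ha h
    · push Not at h
      rw [sum_eq_zero fun a ha => by rw [h a ha, mul_zero], abs_zero]
      exact h2'.le
  exact (abs_add_le _ _).trans (add_le_add ha hb)

/-- The defects near a centre which is away from the marks are not used by the marks. -/
theorem near_e {G : SimpleGraph V} [DecidableRel G.Adj] {μ : V → V} {π : Equiv.Perm V}
    (hf : Frame G μ π) {J q M R R' ρ : ℕ} (hR' : M + 2 * q + R ≤ R') {A : Finset V}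
    {p : V → V → ℝ} {y : V → ℤ} (hy : PatternE μ π J q M A p y) {Rm : Finset V}
    (hRm : ∀ a ∈ Rm, ∃ u ∈ ends p, zone G π R q a ⊆ Bl G.Adj ρ u) {β : V}
    (hβ : ∀ u ∈ ends p, Disjoint (Bl G.Adj R' β) (Bl G.Adj ρ u)) :
    ∃ m n, m < n ∧ n < M ∧ (π ^ m) β ∈ Dfc π A y \ Rm ∧ (π ^ n) β ∈ Dfc π A y \ Rm := by
  have key : ∀ m, m < M → (π ^ m) β ∉ Rm := by
    intro m hm h
    obtain ⟨u, hu, hz⟩ := hRm _ h
    have h1 : (π ^ m) β ∈ Bl G.Adj ρ u := hz (by
      unfold zone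
      rw [mem_biUnion]
      exact ⟨0, mem_range.2 (by omega), by simpa using Bl_self _ _⟩)
    have h2 : (π ^ m) β ∈ Bl G.Adj R' β := Bl_mono (by omega) _ (pow_mem_Bl hf m β)
    exact Finset.disjoint_left.1 (hβ u hu) h2 h1
  obtain ⟨m, n, h1, h2, h3, h4⟩ := hy.near β
  exact ⟨m, n, h1, h2, mem_sdiff.2 ⟨h3, key m (by omega)⟩, mem_sdiff.2 ⟨h4, key n h2⟩⟩

/-- **Centres away from the marks**, as needed by `assembleE`. -/
theorem centres_e {θ η : ℝ} (hθ : 0 < θ) (hη : 0 < η) (hηθ : 20 * η ≤ θ) (R' ρ : ℕ) :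
    ∃ C₀ : ℝ, ∀ C, C₀ ≤ C → ∃ (k₀ N₀ : ℕ), ∀ N k κ : ℕ, ∀ δ : ℝ, N₀ ≤ N → k₀ ≤ k →
    ∀ {V : Type} [Fintype V] [DecidableEq V] (G : SimpleGraph V) [DecidableRel G.Adj],
    (∀ v, G.degree v = 3) → (∀ A : Finset V, A.Nonempty → Aᶜ.Nonempty → 1 ≤ dd G A) →
    ∀ {r : ℕ} (S : Fin r → Finset V), Cores G C S → FactsG G C N k κ δ S →
    ∀ {μ : V → V} {π : Equiv.Perm V}, Frame G μ π → ∀ {J q M R : ℕ}, M + 2 * q + R ≤ R' →
    ∀ {A : Finset V} {p : V → V → ℝ} {y : V → ℤ}, PatternE μ π J q M A p y →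
    (∀ i, N * (ends p ∩ S i).card ≤ 2 * (S i).card) →
    ∀ {Rm : Finset V}, (∀ a ∈ Rm, ∃ u ∈ ends p, zone G π R q a ⊆ Bl G.Adj ρ u) →
    ∃ (M' : Fin r → ℕ) (β : (i : Fin r) → Fin (M' i) → V),
      (∀ i, η * gf C (S i).card ≤ M' i) ∧ (∀ i g, Bl G.Adj R' (β i g) ⊆ S i) ∧
      (∀ i g g', g ≠ g' → Disjoint (Bl G.Adj R' (β i g)) (Bl G.Adj R' (β i g'))) ∧
      (∀ i Z, Z ⊆ S i → Joined G Z → 2 * Z.card ≤ (S i).card → k ≤ dd G Z →
        ((univ.filter fun g => ¬ Disjoint (Bl G.Adj R' (β i g)) Z).card : ℝ) ≤ θ * dd G Z) ∧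
      ∀ i g, ∃ m n, m < n ∧ n < M ∧ (π ^ m) (β i g) ∈ Dfc π A y \ Rm ∧
        (π ^ n) (β i g) ∈ Dfc π A y \ Rm := by
  obtain ⟨C₀, h⟩ := centres_strongG hθ hη hηθ (R' + ρ)
  refine ⟨C₀, fun C hC => ?_⟩
  obtain ⟨k₀, N₀, h'⟩ := h C hC
  refine ⟨k₀, N₀, fun N k κ δ hN hk V _ _ G _ h3 hbr r S hS hF μ π hf J q M R hR' A p y hy hT
    Rm hRm => ?_⟩
  obtain ⟨M', β, h1, _, h2, h4, h5⟩ := h' N k κ δ hN hk G h3 hbr S hS hF (ends p) hT
  have hsub : ∀ i g, Bl G.Adj R' (β i g) ⊆ Bl G.Adj (R' + ρ) (β i g) := fun i g =>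
    Bl_mono (by omega) _
  refine ⟨M', β, h1, fun i g => (hsub i g).trans (h2 i g).1, fun i g g' hg =>
    (h4 i g g' hg).mono (hsub i g) (hsub i g'), fun i Z hZ hZj _ hZk => ?_, fun i g => ?_⟩
  · refine le_trans ?_ (h5 i Z hZ hZj (hk.trans hZk))
    have h6 : (univ.filter fun g => ¬ Disjoint (Bl G.Adj R' (β i g)) Z).card ≤
        (univ.filter fun g => ¬ Disjoint (Bl G.Adj (R' + ρ) (β i g)) Z).card :=
      card_le_card fun g hg => mem_filter.2 ⟨mem_univ _, fun hd =>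
        (mem_filter.1 hg).2 (hd.mono_left (hsub i g))⟩
    exact_mod_cast h6
  · refine near_e hf hR' hy hRm fun u hu => ?_
    rw [Finset.disjoint_left]
    intro x hx1 hx2
    have h7 : u ∈ Bl G.Adj (R' + ρ) (β i g) :=
      Bl_comp hx1 (Bl_symm (fun a b h => h.symm) hx2)
    exact Finset.disjoint_left.1 (h2 i g).2 h7 hu

end Pool.Agent.K5
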