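import Mathlib
import Pool.Agent.Work.MP_974d84_co_k5.DefsE
import Pool.Agent.Work.MP_974d84_co_k5.PairingW

/-!
# E4b: the number of defects of a pattern with marks
-/

set_option linter.unusedSectionVars false

namespace Pool.Agent.K5

open Finset SimpleGraph Pool.Agent.Exp Pool.Agent.Log5 Pool.Agent.Log5.Clu

/-- the sign of a mark removes the absolute value -/
private theorem sg_mul_abs (t : ℝ) : (sg t : ℝ) * (1 - |t|) / 2 = t / 2 + (sg t : ℝ) / 2 := by
  unfold sg
  split_ifs with h
  · rw [abs_of_pos h]
    push_cast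
    ring
  · rw [abs_of_nonpos (not_lt.1 h)]
    push_cast
    ring

private theorem sg_eq (t : ℝ) : sg t = 1 ∨ sg t = -1 := by
  unfold sg
  split_ifs with h
  · exact Or.inr rfl
  · exact Or.inl rfl

/-- the total charge of the ends of the marks -/
private theorem sum_chm {V : Type} [Fintype V] [DecidableEq V] {G : SimpleGraph V}
    [DecidableRel G.Adj] {μ : V → V} {π : Equiv.Perm V} (hf : Frame G μ π) {p : V → V → ℝ}
    (hp : Marks G p) :
    ∑ u ∈ ends p, chm μ p u = (∑ u, ∑ v, p u v) / 2 +
      ((∑ w, if p w (π w) = 0 then 0 else sg (p w (π w)) : ℤ) : ℝ) := by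
  classical
  have h1 : ∑ u ∈ ends p, chm μ p u = ∑ u, chm μ p u := by
    refine sum_subset (subset_univ _) fun u _ hu => ?_
    unfold chm
    refine sum_eq_zero fun v _ => ?_
    rw [if_pos]
    by_contra h
    exact hu (mem_filter.2 ⟨mem_univ _, v, h⟩)
  have h2 : ∀ u, chm μ p u = (∑ v, p u v) / 2 +
      (∑ v, if p u v = 0 ∨ v = μ u then (0 : ℝ) else (sg (p u v) : ℝ)) / 2 := by
    intro u
    unfold chm
    rw [sum_div, sum_div, ← sum_add_distrib]
    refine sum_congr rfl fun v _ => ?_
    by_cases h : p u v = 0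
    · simp [h]
    · by_cases h' : v = μ u
      · rw [if_neg h, if_pos h', if_pos (Or.inr h')]
        ring
      · rw [if_neg h, if_neg h', if_neg (not_or.2 ⟨h, h'⟩)]
        exact sg_mul_abs _
  have h3 : ∀ u, (∑ v, if p u v = 0 ∨ v = μ u then (0 : ℝ) else (sg (p u v) : ℝ)) =
      (if p u (π u) = 0 then 0 else (sg (p u (π u)) : ℝ)) +
      (if p u (π.symm u) = 0 then 0 else (sg (p u (π.symm u)) : ℝ)) := by
    intro u
    rw [← sum_subset (subset_univ ({π u, π.symm u} : Finset V)), sum_pair (hf.pi_ne u)]
    · congr 1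
      · by_cases h : p u (π u) = 0
        · rw [if_pos (Or.inl h), if_pos h]
        · rw [if_neg h, if_neg (not_or.2 ⟨h, (hf.mu_ne u).symm⟩)]
      · by_cases h : p u (π.symm u) = 0
        · rw [if_pos (Or.inl h), if_pos h]
        · rw [if_neg h, if_neg (not_or.2 ⟨h, (hf.mu_ne' u).symm⟩)]
    · intro v _ hv
      rw [if_pos]
      by_contra hcon
      rw [not_or] at hcon
      have h4 := (hf.adj u v).1 (hp.adj u v hcon.1)
      simp only [mem_insert, mem_singleton, not_or] at hv
      rcases h4 with h4 | h4 | h4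
      · exact hcon.2 h4
      · exact hv.1 h4
      · exact hv.2 h4
  have h4 : ∑ u, (if p u (π.symm u) = 0 then 0 else (sg (p u (π.symm u)) : ℝ)) =
      ∑ u, (if p u (π u) = 0 then 0 else (sg (p u (π u)) : ℝ)) := by
    rw [← Equiv.sum_comp π fun u => (if p u (π.symm u) = 0 then 0
      else (sg (p u (π.symm u)) : ℝ))]
    refine sum_congr rfl fun u _ => ?_
    rw [Equiv.symm_apply_apply, hp.symm (π u) u]
  rw [h1, sum_congr rfl fun u _ => h2 u, sum_add_distrib, ← sum_div, ← sum_div,
    sum_congr rfl fun u _ => h3 u, sum_add_distrib, h4]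
  push_cast
  have h5 : ∀ u, ((if p u (π u) = 0 then (0 : ℤ) else sg (p u (π u)) : ℤ) : ℝ) =
      if p u (π u) = 0 then (0 : ℝ) else (sg (p u (π u)) : ℝ) := by
    intro u
    split_ifs <;> simp
  have h6 : ∑ u, (if p u (π u) = 0 then (0 : ℝ) else (sg (p u (π u)) : ℝ)) =
      ∑ u, ((if p u (π u) = 0 then (0 : ℤ) else sg (p u (π u)) : ℤ) : ℝ) :=
    sum_congr rfl fun u _ => (h5 u).symm
  rw [h6]
  push_cast
  ring

/-- E4b: the number of defects -/
theorem even_dfc_e {V : Type} [Fintype V] [DecidableEq V] {G : SimpleGraph V}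
    [DecidableRel G.Adj] {μ : V → V} {π : Equiv.Perm V} (hf : Frame G μ π) {J q M : ℕ}
    {A : Finset V} {p : V → V → ℝ} (hp : Marks G p) {y : V → ℤ}
    (hA : ∀ a ∈ A, p (π.symm a) a = 0) (hy : PatternE μ π J q M A p y) (t : ℤ)
    (ht : ∑ u, ∑ v, p u v = 4 * t) :
    ∃ m : ℤ, ((Dfc π A y).card : ℝ) = ∑ u ∈ ends p, chm μ p u + 2 * m := by
  classical
  set s : V → ℤ := fun w => if p w (π w) = 0 then 0 else sg (p w (π w)) with hs
  -- the number of `v` with `y (π v) = y v` is even
  have hE : Even ((univ.filter fun v => y (π v) = y v).card) := by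
    have h1 : ∀ v, y v * y (π v) = if y (π v) = y v then 1 else -1 := by
      intro v
      rcases hy.sign v with h | h <;> rcases hy.sign (π v) with h' | h' <;> rw [h, h'] <;> norm_num
    have h2 : ∏ v, (y v * y (π v)) = 1 := by
      rw [prod_mul_distrib, Equiv.prod_comp π y, ← prod_mul_distrib]
      refine prod_eq_one fun v _ => ?_
      rcases hy.sign v with h | h <;> rw [h] <;> norm_num
    rw [prod_congr rfl fun v _ => h1 v, prod_ite, prod_const_one, one_mul, prod_const] at h2
    have h3 : Even ((univ.filter fun v => ¬ y (π v) = y v).card) := by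
      rcases Nat.even_or_odd ((univ.filter fun v => ¬ y (π v) = y v).card) with h | h
      · exact h
      · rw [h.neg_one_pow] at h2
        norm_num at h2
    have h5 := card_filter_add_card_filter_not (s := (univ : Finset V))
      (fun v => y (π v) = y v)
    have h6 : Even (Fintype.card V) := even_card G hf.degree
    rw [card_univ] at h5
    have h7 : Even ((univ.filter fun v => y (π v) = y v).card +
        (univ.filter fun v => ¬ y (π v) = y v).card) := by rw [h5]; exact h6
    exact (Nat.even_add.1 h7).2 h3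
  -- they are the defects and the marked edges of the circuits
  have hsplit : (univ.filter fun v => y (π v) = y v).card =
      (Dfc π A y).card + (univ.filter fun v => p v (π v) ≠ 0).card := by
    have h4 : (univ.filter fun v => π v ∈ Dfc π A y).card = (Dfc π A y).card := by
      refine card_bij (fun v _ => π v) (fun v hv => (mem_filter.1 hv).2)
        (fun v _ v' _ h => π.injective h) (fun v hv => ⟨π.symm v, ?_, by simp⟩)
      rw [mem_filter]
      exact ⟨mem_univ _, by rw [Equiv.apply_symm_apply]; exact hv⟩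
    rw [← h4, ← card_union_of_disjoint]
    · congr 1
      ext v
      simp only [mem_filter, mem_univ, true_and, mem_union]
      constructor
      · intro h
        by_cases hv : p v (π v) = 0
        · left
          by_cases hvA : π v ∈ A
          · rw [Dfc, mem_filter, Equiv.symm_apply_apply]
            exact ⟨hvA, h.symm⟩
          · have h8 := hy.alt v hvA hv
            rw [h] at h8
            rcases hy.sign v with h9 | h9 <;> rw [h9] at h8 <;> norm_num at h8
        · exact Or.inr hv
      · rintro (h | h)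
        · rw [Dfc, mem_filter, Equiv.symm_apply_apply] at h
          exact h.2.symm
        · have h8 := hy.markc v h
          rw [h8.1, h8.2.1]
    · rw [Finset.disjoint_left]
      intro v h h'
      rw [mem_filter, Dfc, mem_filter] at h
      have h8 := hA _ h.2.1
      rw [Equiv.symm_apply_apply] at h8
      exact (mem_filter.1 h').2 h8
  -- the sum of the signs has the parity of the number of marked circuit edges
  have hpar : ∑ w, s w = ((univ.filter fun v => p v (π v) ≠ 0).card : ℤ) +
      2 * ∑ w, (if p w (π w) = 0 then 0 else (if sg (p w (π w)) = 1 then 0 else -1)) := by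
    rw [card_filter]
    push_cast
    rw [mul_sum, ← sum_add_distrib]
    refine sum_congr rfl fun w _ => ?_
    simp only [hs]
    by_cases h : p w (π w) = 0
    · simp [h]
    · rw [if_neg h, if_neg h, if_pos h]
      rcases sg_eq (p w (π w)) with h' | h' <;> rw [h'] <;> norm_num
  obtain ⟨e, he⟩ := hE
  rw [hsplit] at he
  have hS := sum_chm hf hp
  rw [ht] at hS
  refine ⟨(e : ℤ) - (univ.filter fun v => p v (π v) ≠ 0).card -
    (∑ w, (if p w (π w) = 0 then 0 else (if sg (p w (π w)) = 1 then 0 else -1))) - t, ?_⟩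
  have hpar' : ((∑ w, s w : ℤ) : ℝ) = ((univ.filter fun v => p v (π v) ≠ 0).card : ℝ) +
      2 * ((∑ w, (if p w (π w) = 0 then 0 else (if sg (p w (π w)) = 1 then 0 else -1)) : ℤ) : ℝ) := by
    rw [hpar]
    push_cast
    ring
  have he' : ((Dfc π A y).card : ℝ) + ((univ.filter fun v => p v (π v) ≠ 0).card : ℝ) = e + e := by
    exact_mod_cast he
  rw [hS]
  have h9 : ((∑ w, s w : ℤ) : ℝ) =
      ((∑ w, (if p w (π w) = 0 then 0 else sg (p w (π w))) : ℤ) : ℝ) := rfl
  rw [← h9, hpar']
  rw [Int.cast_sub, Int.cast_sub, Int.cast_sub, Int.cast_natCast, Int.cast_natCast]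
  linarith

end Pool.Agent.K5
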