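import Mathlib
import Pool.Agent.Work.MP_974d84_co_k5.DefsW
import Pool.Agent.Work.MP_974d84_co_k5.RegionCount

/-!
# The family of the bonds of the regions is locally small
-/

set_option linter.unusedSectionVars false

namespace Pool.Agent.K5

open Finset SimpleGraph Pool.Agent.Exp Pool.Agent.Log5 Pool.Agent.Log5.Clu

theorem region_eq {V : Type} [Fintype V] [DecidableEq V] {r : ℕ} {S : Fin r → Finset V}
    (hd : ∀ i j, i ≠ j → Disjoint (S i) (S j)) {R R' : Finset V} (hR : Region S R)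
    (hR' : Region S R') {v : V} (hv : v ∈ R) (hv' : v ∈ R') : R = R' := by
  rcases hR with ⟨i, rfl⟩ | rfl <;> rcases hR' with ⟨j, rfl⟩ | rfl
  · by_cases hij : i = j
    · rw [hij]
    · exact absurd hv' (Finset.disjoint_left.1 (hd i j hij) hv)
  · exact absurd (mem_biUnion.2 ⟨i, mem_univ i, hv⟩) (mem_compl.1 hv')
  · exact absurd (mem_biUnion.2 ⟨j, mem_univ j, hv'⟩) (mem_compl.1 hv)
  · rfl

theorem region_iso {V : Type} [Fintype V] [DecidableEq V] {G : SimpleGraph V}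
    [DecidableRel G.Adj] {C : ℝ} {r : ℕ} {S : Fin r → Finset V} (hS : Cores G C S)
    {R : Finset V} (hR : Region S R) {A : Finset V} (hA : A ⊆ R) (hne : A.Nonempty)
    (h2 : 2 * A.card ≤ R.card) :
    A.card ≤ 3 * dd G A ∨ C * (1 + Real.log A.card) ^ 2 ≤ dd G A := by
  have h1 : gf C A.card ≤ dd G A := by
    rcases hR with ⟨i, rfl⟩ | rfl
    · refine hS.sub i A ⟨hA, fun h => ?_⟩ hne
      have h4 := card_le_card h
      have h5 := hne.card_pos
      omega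
    · refine hS.out A hne fun i => ?_
      rw [Finset.disjoint_left]
      intro v hv hv'
      exact (mem_compl.1 (hA hv)) (mem_biUnion.2 ⟨i, mem_univ i, hv'⟩)
  unfold gf at h1
  rcases min_le_iff.1 h1 with h | h
  · left
    have : ((A.card + 2 : ℕ) : ℝ) ≤ (dd G A : ℝ) := by push_cast; exact h
    have h4 : A.card + 2 ≤ dd G A := by exact_mod_cast this
    omega
  · exact Or.inr h

/-- W8a. -/
theorem rf_count : ∃ (κ C₀ : ℝ), ∀ C, C₀ ≤ C → ∃ k₀ N₀ : ℕ, ∀ N k, N₀ ≤ N → k₀ ≤ k →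
    ∀ {V : Type} [Fintype V] [DecidableEq V] (G : SimpleGraph V) [DecidableRel G.Adj],
    (∀ v, G.degree v = 3) → (∀ A : Finset V, A.Nonempty → Aᶜ.Nonempty → 1 ≤ dd G A) →
    CycConn G k → Gir G k → ∀ {r : ℕ} (S : Fin r → Finset V), Cores G C S → Facts G C N k S →
    ∀ (v : V) (D : ℕ) (F : Finset (Finset V)), k₀ ≤ D →
    (∀ Z ∈ F, RF G S Z ∧ v ∈ Z ∧ dd G Z = D) → (F.card : ℝ) ≤ Real.exp (κ * D) := by
  obtain ⟨C₀, κ₀, -, h2⟩ := region_count_two
  refine ⟨κ₀, C₀, fun C hC => ⟨⌈C⌉₊, 0, ?_⟩⟩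
  intro N k _ _ V _ _ G _ _ hpos _ _ r S hS _ v D F hD hF
  rcases F.eq_empty_or_nonempty with hF0 | ⟨Z₀, hZ₀⟩
  · rw [hF0, card_empty, Nat.cast_zero]
    exact (Real.exp_pos _).le
  obtain ⟨⟨R, hR, hRB, hRu⟩, hv, -⟩ := hF Z₀ hZ₀
  have key : ∀ Z ∈ F, RBond G R id Z ∧ (R = univ → 2 * Z.card ≤ Fintype.card V) := by
    intro Z hZ
    obtain ⟨⟨R', hR', hRB', hRu'⟩, hv', -⟩ := hF Z hZ
    have : R = R' := region_eq hS.disj hR hR' (hRB.sub hv) (hRB'.sub hv')
    rw [this]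
    exact ⟨hRB', hRu'⟩
  refine h2 C hC G R (fun A _ a1 a2 => hpos A a1 a2)
    (fun A a1 a2 a3 => region_iso hS hR a1 a2 a3) v D F ?_
    (fun Z hZ => ⟨(hF Z hZ).2.1, (key Z hZ).1, (hF Z hZ).2.2⟩) ?_
  · exact (Nat.le_ceil C).trans (by exact_mod_cast hD)
  · by_cases hu : R = univ
    · right
      intro Z hZ
      have := (key Z hZ).2 hu
      rw [hu, card_univ]
      exact this
    · exact Or.inl hu

end Pool.Agent.K5
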