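import Mathlib
import Pool.Agent.Work.MP_974d84_co_k5.RegionFam

/-!
# Theorem (G), G4a: the family of the bonds of the regions is locally small (no connectivity)
-/

set_option linter.unusedSectionVars false

namespace Pool.Agent.K5

open Finset SimpleGraph Pool.Agent.Exp Pool.Agent.Log5 Pool.Agent.Log5.Clu

/-- G4a. -/
theorem rf_countG : ∃ (c C₀ : ℝ), ∀ C, C₀ ≤ C → ∃ k₀ : ℕ,
    ∀ {V : Type} [Fintype V] [DecidableEq V] (G : SimpleGraph V) [DecidableRel G.Adj],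
    (∀ A : Finset V, A.Nonempty → Aᶜ.Nonempty → 1 ≤ dd G A) →
    ∀ {r : ℕ} (S : Fin r → Finset V), Cores G C S →
    ∀ (v : V) (D : ℕ) (F : Finset (Finset V)), k₀ ≤ D →
    (∀ Z ∈ F, RF G S Z ∧ v ∈ Z ∧ dd G Z = D) → (F.card : ℝ) ≤ Real.exp (c * D) := by
  obtain ⟨C₀, κ₀, -, h2⟩ := region_count_two
  refine ⟨κ₀, C₀, fun C hC => ⟨⌈C⌉₊, ?_⟩⟩
  intro V _ _ G _ hpos r S hS v D F hD hF
  rcases F.eq_empty_or_nonempty with hF0 | ⟨Z₀, hZ₀⟩
  · rw [hF0, card_empty, Nat.cast_zero]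
    exact (Real.exp_pos _).le
  obtain ⟨⟨R, hR, hRB, hRu⟩, hv, -⟩ := hF Z₀ hZ₀
  have key : ∀ Z ∈ F, RBond G R id Z ∧ (R = univ → 2 * Z.card ≤ Fintype.card V) := by
    intro Z hZ
    obtain ⟨⟨R', hR', hRB', hRu'⟩, hv', -⟩ := hF Z hZ
    have : R = R' := region_eq hS.disj hR hR' (hRB.sub hv) (hRB'.sub hv')
    rw [this]
    exact ⟨hRB', hRu'⟩
  refine h2 C hC G R (fun A _ a1 a2 => hpos A a1 a2)
    (fun A a1 a2 a3 => region_iso hS hR a1 a2 a3) v D F ?_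
    (fun Z hZ => ⟨(hF Z hZ).2.1, (key Z hZ).1, (hF Z hZ).2.2⟩) ?_
  · exact (Nat.le_ceil C).trans (by exact_mod_cast hD)
  · by_cases hu : R = univ
    · right
      intro Z hZ
      have := (key Z hZ).2 hu
      rw [hu, card_univ]
      exact this
    · exact Or.inl hu

end Pool.Agent.K5
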