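import Mathlib
import Pool.Agent.Work.MP_974d84_co_k5.Defs5
import Pool.Agent.Work.MP_974d84_co_log.Crit

/-!
# Module M7: closed sets of a region are sums of closed bonds of the region
-/

set_option linter.unusedSectionVars false
set_option linter.unusedVariables false

namespace Pool.Agent.K5

open Finset SimpleGraph Pool.Agent.Exp Pool.Agent.Log5 Pool.Agent.Log5.Clu

namespace RS

variable {V : Type} [Fintype V] [DecidableEq V] {G : SimpleGraph V} [DecidableRel G.Adj]

/-- The complement of a union of classes. -/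
theorem clo_compl {c : V → V} {S : Finset V} (h : Clo c S) : Clo c Sᶜ := by
  intro x y hxy
  rw [mem_compl, mem_compl, h x y hxy]

/-- The difference of unions of classes. -/
theorem clo_sdiff {c : V → V} {S A : Finset V} (h : Clo c S) (hA : Clo c A) : Clo c (S \ A) := by
  intro x y hxy
  rw [mem_sdiff, mem_sdiff, h x y hxy, hA x y hxy]

/-- The union of unions of classes. -/
theorem clo_union {c : V → V} {S A : Finset V} (h : Clo c S) (hA : Clo c A) : Clo c (S ∪ A) := by
  intro x y hxy
  rw [mem_union, mem_union, h x y hxy, hA x y hxy]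

/-- A part of a closed set without edges to the rest is closed. -/
theorem clo_part {c : V → V} (hc : ∀ x, Joined G (cls c x)) {S A : Finset V} (h : Clo c S)
    (hA : A ⊆ S) (hno : ∀ x ∈ A, ∀ y ∈ S, y ∉ A → ¬ G.Adj x y) : Clo c A := by
  have key : ∀ x y, c x = c y → x ∈ A → y ∈ A := by
    intro x y hxy hx
    by_contra hy
    obtain ⟨u, hu, v, hv, hv', huv⟩ := hc x (cls c x ∩ A) inter_subset_left
      ⟨x, mem_inter.2 ⟨self_mem_cls c x, hx⟩⟩
      (fun he => by
        have : y ∈ cls c x ∩ A := by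
          rw [he]
          exact mem_cls.2 hxy.symm
        exact hy (mem_inter.1 this).2)
    have hu1 := mem_inter.1 hu
    have hvS : v ∈ S := by
      have e : c v = c u := by
        rw [mem_cls.1 hv, mem_cls.1 hu1.1]
      exact (h v u e).2 (hA hu1.2)
    exact hno u hu1.2 v hvS (fun hvA => hv' (mem_inter.2 ⟨hv, hvA⟩)) huv
  intro x y hxy
  exact ⟨key x y hxy, key y x hxy.symm⟩

end RS

open RS in
/-- A bound for the closed bonds of the region `Y` holds for all closed subsets of `Y`. -/
theorem region_split {V : Type} [Fintype V] [DecidableEq V] {G : SimpleGraph V}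
    [DecidableRel G.Adj] {c : V → V} (hc : ∀ x, Joined G (cls c x))
    (hbr : ∀ S : Finset V, S.Nonempty → Sᶜ.Nonempty → 1 ≤ dd G S) {Y : Finset V} (hY : Clo c Y)
    {σ : V → ℝ} (h0 : ∑ v, σ v = 0) {b : ℝ} (hb0 : 0 ≤ b)
    (hb : ∀ Z, RBond G Y c Z → Zᶜ.Nonempty → |∑ v ∈ Z, σ v| ≤ b * dd G Z)
    (S : Finset V) (hSY : S ⊆ Y) (hS : Clo c S) : |∑ v ∈ S, σ v| ≤ b * dd G S := by
  suffices key : ∀ (n : ℕ) (Z : Finset V), Z ⊆ Y → Clo c Z → dd G Z = n →
      |∑ v ∈ Z, σ v| ≤ b * dd G Z from key _ S hSY hS rfl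
  intro n
  induction n using Nat.strong_induction_on with
  | _ n ih =>
    intro Z hZY hZc hZ
    rcases Z.eq_empty_or_nonempty with rfl | hne
    · rw [sum_empty, abs_zero]
      positivity
    rcases Zᶜ.eq_empty_or_nonempty with he | hne'
    · have hZu := (compl_eq_empty_iff _).1 he
      rw [hZu, h0, abs_zero]
      positivity
    by_cases hJ : Joined G Z
    · by_cases hJ' : ModJ G Yᶜ Zᶜ
      · exact hb Z ⟨hZY, hne, hJ, hJ', hZc⟩ hne'
      · unfold ModJ at hJ'
        push Not at hJ'
        obtain ⟨A, h1, h2, h3, h4⟩ := hJ'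
        have h1' : A ⊆ Zᶜ := h1.trans sdiff_subset
        have hAY : A ⊆ Y := fun x hx => by
          have := (mem_sdiff.1 (h1 hx)).2
          rwa [mem_compl, not_not] at this
        have h3' : (Zᶜ \ A).Nonempty := by
          rw [sdiff_nonempty]
          exact fun h => h3 (h1'.antisymm h)
        obtain ⟨e1, e2⟩ := cut_split h1' h4
        have k1 : dd G Zᶜ = dd G A + dd G (Zᶜ \ A) := by
          unfold dd
          rw [e1, card_union_of_disjoint e2]
        have c1 : Aᶜ.Nonempty := by
          obtain ⟨x, hx⟩ := hne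
          exact ⟨x, mem_compl.2 fun h => (mem_compl.1 (h1' h)) hx⟩
        have c2 : (Zᶜ \ A)ᶜ.Nonempty := by
          obtain ⟨x, hx⟩ := hne
          exact ⟨x, mem_compl.2 fun h => (mem_compl.1 (mem_sdiff.1 h).1) hx⟩
        have k2 := hbr A h2 c1
        have k3 := hbr (Zᶜ \ A) h3' c2
        have e3 : (Zᶜ \ A) = (Z ∪ A)ᶜ := by
          ext x
          simp
        rw [e3, dd_compl] at k1 k3
        rw [dd_compl, hZ] at k1
        have hAc : Clo c A := clo_part hc (clo_compl hZc) h1' h4
        have g1 := ih (dd G A) (by omega) A hAY hAc rfl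
        have g2 := ih (dd G (Z ∪ A)) (by omega) (Z ∪ A) (union_subset hZY hAY)
          (clo_union hZc hAc) rfl
        have hdis : Disjoint Z A := by
          rw [Finset.disjoint_left]
          exact fun x hx hxA => (mem_compl.1 (h1' hxA)) hx
        have g3 : ∑ v ∈ Z, σ v = ∑ v ∈ Z ∪ A, σ v - ∑ v ∈ A, σ v := by
          rw [sum_union hdis]
          ring
        rw [g3, hZ, k1]
        push_cast
        have := abs_sub (∑ v ∈ Z ∪ A, σ v) (∑ v ∈ A, σ v)
        linarith
    · obtain ⟨A, h1, h2, h3, h4⟩ := not_joined hJ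
      obtain ⟨e1, e2⟩ := cut_split h1 h4
      have k1 : dd G Z = dd G A + dd G (Z \ A) := by
        unfold dd
        rw [e1, card_union_of_disjoint e2]
      have c1 : Aᶜ.Nonempty := by
        obtain ⟨x, hx⟩ := hne'
        exact ⟨x, mem_compl.2 fun h => (mem_compl.1 hx) (h1 h)⟩
      have c2 : (Z \ A)ᶜ.Nonempty := by
        obtain ⟨x, hx⟩ := hne'
        exact ⟨x, mem_compl.2 fun h => (mem_compl.1 hx) (mem_sdiff.1 h).1⟩
      have k2 := hbr A h2 c1
      have k3 := hbr (Z \ A) h3 c2
      have hAc : Clo c A := clo_part hc hZc h1 h4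
      have g1 := ih (dd G A) (by omega) A (h1.trans hZY) hAc rfl
      have g2 := ih (dd G (Z \ A)) (by omega) (Z \ A) (sdiff_subset.trans hZY)
        (clo_sdiff hZc hAc) rfl
      have g3 : ∑ v ∈ Z, σ v = ∑ v ∈ A, σ v + ∑ v ∈ Z \ A, σ v := by
        rw [← sum_union disjoint_sdiff, union_sdiff_of_subset h1]
      rw [g3, k1]
      push_cast
      have := abs_add_le (∑ v ∈ A, σ v) (∑ v ∈ Z \ A, σ v)
      linarith

end Pool.Agent.K5
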