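import Mathlib
import Pool.Agent.Work.MP_974d84_co_k5.RegionSplit

/-!
# Closed sets of a region: bonds with a large part of a core cost a constant
-/

set_option linter.unusedSectionVars false
set_option linter.unusedVariables false

namespace Pool.Agent.K5

open Finset SimpleGraph Pool.Agent.Exp Pool.Agent.Log5 Pool.Agent.Log5.Clu

namespace LSp

variable {V : Type} [Fintype V] [DecidableEq V] {G : SimpleGraph V} [DecidableRel G.Adj]

/-- The constant of a set which contains more than two thirds of `P`. -/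
noncomputable def hv (P : Finset V) (K : ℝ) (Z : Finset V) : ℝ :=
  if 2 * P.card < 3 * (Z ∩ P).card then K else 0

theorem hv_of {P Z : Finset V} {K : ℝ} (h : 2 * P.card < 3 * (Z ∩ P).card) : hv P K Z = K :=
  if_pos h

theorem hv_not {P Z : Finset V} {K : ℝ} (h : ¬ 2 * P.card < 3 * (Z ∩ P).card) :
    hv P K Z = 0 :=
  if_neg h

theorem hv_nonneg {P Z : Finset V} {K : ℝ} (hK : 0 ≤ K) : 0 ≤ hv P K Z := by
  unfold hv
  split_ifs
  · exact hK
  · exact le_rfl

theorem hv_le {P Z : Finset V} {K : ℝ} (hK : 0 ≤ K) : hv P K Z ≤ K := by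
  unfold hv
  split_ifs
  · exact le_rfl
  · exact hK

/-- Larger sets are heavier. -/
theorem heavy_mono {P Z W : Finset V} (h : Z ⊆ W) (hZ : 2 * P.card < 3 * (Z ∩ P).card) :
    2 * P.card < 3 * (W ∩ P).card := by
  have := card_le_card (inter_subset_inter_right (u := P) h)
  omega

/-- Two disjoint sets are not both heavy. -/
theorem heavy_disj {P Z W : Finset V} (h : Disjoint Z W) (hZ : 2 * P.card < 3 * (Z ∩ P).card) :
    ¬ 2 * P.card < 3 * (W ∩ P).card := by
  intro hW
  have h1 : ((Z ∩ P) ∪ (W ∩ P)).card ≤ P.card :=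
    card_le_card (union_subset inter_subset_right inter_subset_right)
  rw [card_union_of_disjoint (h.mono inter_subset_left inter_subset_left)] at h1
  omega

/-- No part without edges to the outside. -/
theorem no_free (hbr : ∀ S : Finset V, S.Nonempty → Sᶜ.Nonempty → 1 ≤ dd G S) {B : Finset V}
    (h1 : B.Nonempty) (h2 : Bᶜ.Nonempty) (hno : ∀ x ∈ B, ∀ y, y ∉ B → ¬ G.Adj x y) : False := by
  have h := hbr B h1 h2
  unfold dd at h
  obtain ⟨p, hp⟩ := card_pos.1 h
  rw [mem_cut] at hp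
  exact hno p.1 hp.1 p.2 hp.2.1 hp.2.2

open RS in
/-- A bond of the region can be added to a joined closed set which is not a bond. -/
theorem peel {c : V → V} (hc : ∀ x, Joined G (cls c x))
    (hbr : ∀ S : Finset V, S.Nonempty → Sᶜ.Nonempty → 1 ≤ dd G S) {Y : Finset V}
    {A : Finset V} (hAY : A ⊆ Y) (hne : A.Nonempty) (hJ : Joined G A) (hA : Clo c A)
    (hM : ¬ ModJ G Yᶜ Aᶜ) :
    ∃ B : Finset V, RBond G Y c B ∧ Bᶜ.Nonempty ∧ Disjoint A B ∧ (A ∪ B) ⊆ Y ∧
      (A ∪ B)ᶜ.Nonempty ∧ Joined G (A ∪ B) ∧ Clo c (A ∪ B) ∧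
      dd G A = dd G B + dd G (A ∪ B) ∧ 1 ≤ dd G B := by
  classical
  -- a minimal free part
  have hex : ∃ n : ℕ, ∃ B : Finset V, B.card = n ∧ B ⊆ Aᶜ \ Yᶜ ∧ B.Nonempty ∧ B ≠ Aᶜ ∧
      ∀ x ∈ B, ∀ y ∈ Aᶜ, y ∉ B → ¬ G.Adj x y := by
    unfold ModJ at hM
    push Not at hM
    obtain ⟨B, h1, h2, h3, h4⟩ := hM
    exact ⟨_, B, rfl, h1, h2, h3, h4⟩
  obtain ⟨B, hB, h1, h2, h3, h4⟩ := Nat.find_spec hex
  have hmin : ∀ B' : Finset V, B' ⊆ Aᶜ \ Yᶜ → B'.Nonempty → B' ≠ Aᶜ →
      (∀ x ∈ B', ∀ y ∈ Aᶜ, y ∉ B' → ¬ G.Adj x y) → B.card ≤ B'.card := by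
    intro B' g1 g2 g3 g4
    rw [hB]
    exact Nat.find_min' hex ⟨B', rfl, g1, g2, g3, g4⟩
  have hBA : B ⊆ Aᶜ := h1.trans sdiff_subset
  have hBY : B ⊆ Y := fun x hx => by
    have := (mem_sdiff.1 (h1 hx)).2
    rwa [mem_compl, not_not] at this
  have hdis : Disjoint A B := by
    rw [Finset.disjoint_left]
    exact fun x hx hxB => (mem_compl.1 (hBA hxB)) hx
  obtain ⟨a, ha⟩ := hne
  have haB : a ∉ B := fun h => Finset.disjoint_left.1 hdis ha h
  have hBc : Bᶜ.Nonempty := ⟨a, mem_compl.2 haB⟩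
  have h3' : (Aᶜ \ B).Nonempty := by
    rw [sdiff_nonempty]
    exact fun h => h3 (hBA.antisymm h)
  -- `B` is joined
  have hBJ : Joined G B := by
    by_contra hnJ
    obtain ⟨B', g1, g2, g3, g4⟩ := not_joined hnJ
    have hlt : B'.card < B.card := by
      have e := card_sdiff_add_card_eq_card g1
      have := card_pos.2 g3
      omega
    refine absurd (hmin B' (g1.trans h1) g2 ?_ ?_) (by omega)
    · intro he
      apply h3
      exact hBA.antisymm (he ▸ g1)
    · intro x hx y hy hyB'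
      by_cases hyB : y ∈ B
      · exact g4 x hx y hyB hyB'
      · exact h4 x (g1 hx) y hy hyB
  have hBclo : Clo c B := clo_part hc (clo_compl hA) hBA h4
  have hBd : 1 ≤ dd G B := hbr B h2 hBc
  -- an edge from `B` to `A`
  obtain ⟨u, hu, v, hv, huv⟩ : ∃ u ∈ B, ∃ v ∈ A, G.Adj u v := by
    by_contra hcon
    push Not at hcon
    refine no_free hbr h2 hBc fun x hx y hy hadj => ?_
    by_cases hyA : y ∈ A
    · exact hcon x hx y hyA hadj
    · exact h4 x hx y (mem_compl.2 hyA) hy hadj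
  -- `B` is a bond
  have hBM : ModJ G Yᶜ Bᶜ := by
    unfold ModJ
    intro D hD hDne hDB
    by_contra hcon
    push Not at hcon
    have hDB' : D ⊆ Bᶜ := hD.trans sdiff_subset
    have hnD : (Bᶜ \ D).Nonempty := by
      rw [sdiff_nonempty]
      exact fun h => hDB (hDB'.antisymm h)
    by_cases hDA : (D ∩ A).Nonempty
    · by_cases hAD : D ∩ A = A
      · -- `D ⊇ A`: the rest is free
        have hADs : A ⊆ D := by
          intro x hx
          have : x ∈ D ∩ A := hAD.symm ▸ hx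
          exact (mem_inter.1 this).1
        refine no_free hbr hnD ⟨a, mem_compl.2 fun h => (mem_sdiff.1 h).2 (hADs ha)⟩ ?_
        intro x hx y hy hadj
        have hx' := mem_sdiff.1 hx
        have hxB : x ∉ B := mem_compl.1 hx'.1
        have hxA : x ∉ A := fun h => hx'.2 (hADs h)
        by_cases hyB : y ∈ B
        · exact h4 y hyB x (mem_compl.2 hxA) hxB hadj.symm
        · have hyD : y ∈ D := by
            by_contra hyD
            exact hy (mem_sdiff.2 ⟨mem_compl.2 hyB, hyD⟩)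
          exact hcon y hyD x hx'.1 hx'.2 hadj.symm
      · obtain ⟨x, hx, y, hy, hyD, hadj⟩ := hJ (D ∩ A) inter_subset_right hDA hAD
        have hyB : y ∈ Bᶜ := mem_compl.2 fun h => Finset.disjoint_left.1 hdis hy h
        exact hcon x (mem_inter.1 hx).1 y hyB (fun h => hyD (mem_inter.2 ⟨h, hy⟩)) hadj
    · rw [not_nonempty_iff_eq_empty] at hDA
      have hDA' : ∀ x ∈ D, x ∉ A := fun x hx hxA => by
        have : x ∈ D ∩ A := mem_inter.2 ⟨hx, hxA⟩
        rw [hDA] at this
        exact (notMem_empty x) this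
      refine no_free hbr hDne ⟨a, mem_compl.2 fun h => hDA' a h ha⟩ ?_
      intro x hx y hy hadj
      by_cases hyB : y ∈ B
      · exact h4 y hyB x (mem_compl.2 (hDA' x hx)) (mem_compl.1 (hDB' hx)) hadj.symm
      · exact hcon x hx y (mem_compl.2 hyB) hy hadj
  have hAB : Joined G (A ∪ B) := by
    intro D hD hDne hDAB
    by_contra hcon
    push Not at hcon
    have keyA : (D ∩ A).Nonempty → A ⊆ D := by
      intro hDA
      by_contra hn
      have hAD : D ∩ A ≠ A := by
        intro he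
        exact hn fun x hx => (mem_inter.1 (he.symm ▸ hx : x ∈ D ∩ A)).1
      obtain ⟨x, hx, y, hy, hyD, hadj⟩ := hJ (D ∩ A) inter_subset_right hDA hAD
      exact hcon x (mem_inter.1 hx).1 y (mem_union_left _ hy)
        (fun h => hyD (mem_inter.2 ⟨h, hy⟩)) hadj
    have keyB : (D ∩ B).Nonempty → B ⊆ D := by
      intro hDA
      by_contra hn
      have hAD : D ∩ B ≠ B := by
        intro he
        exact hn fun x hx => (mem_inter.1 (he.symm ▸ hx : x ∈ D ∩ B)).1
      obtain ⟨x, hx, y, hy, hyD, hadj⟩ := hBJ (D ∩ B) inter_subset_right hDA hAD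
      exact hcon x (mem_inter.1 hx).1 y (mem_union_right _ hy)
        (fun h => hyD (mem_inter.2 ⟨h, hy⟩)) hadj
    by_cases hDA : (D ∩ A).Nonempty
    · have hA' := keyA hDA
      by_cases hDB : (D ∩ B).Nonempty
      · exact hDAB (hD.antisymm (union_subset hA' (keyB hDB)))
      · have huD : u ∉ D := fun h => hDB ⟨u, mem_inter.2 ⟨h, hu⟩⟩
        exact hcon v (hA' hv) u (mem_union_right _ hu) huD huv.symm
    · have hDB : (D ∩ B).Nonempty := by
        obtain ⟨x, hx⟩ := hDne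
        rcases mem_union.1 (hD hx) with hxA | hxB
        · exact absurd ⟨x, mem_inter.2 ⟨hx, hxA⟩⟩ hDA
        · exact ⟨x, mem_inter.2 ⟨hx, hxB⟩⟩
      have hvD : v ∉ D := fun h => hDA ⟨v, mem_inter.2 ⟨h, hv⟩⟩
      exact hcon u (keyB hDB hu) v (mem_union_left _ hv) hvD huv
  obtain ⟨e1, e2⟩ := cut_split hBA h4
  have k1 : dd G Aᶜ = dd G B + dd G (Aᶜ \ B) := by
    unfold dd
    rw [e1, card_union_of_disjoint e2]
  have e3 : (Aᶜ \ B) = (A ∪ B)ᶜ := by
    ext x
    simp
  rw [e3, dd_compl, dd_compl] at k1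
  rw [e3] at h3'
  exact ⟨B, ⟨hBY, h2, hBJ, hBM, hBclo⟩, hBc, hdis, union_subset hAY hBY, h3', hAB,
    clo_union hA hBclo, k1, hBd⟩

end LSp

open RS LSp in
/-- Heavy joined closed sets. -/
theorem heavy_joined {V : Type} [Fintype V] [DecidableEq V] {G : SimpleGraph V}
    [DecidableRel G.Adj] {c : V → V} (hc : ∀ x, Joined G (cls c x))
    (hbr : ∀ S : Finset V, S.Nonempty → Sᶜ.Nonempty → 1 ≤ dd G S) {Y : Finset V}
    (P : Finset V) {σ : V → ℝ} (h0 : ∑ v, σ v = 0) {b K : ℝ} (hb0 : 0 ≤ b) (hK0 : 0 ≤ K)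
    (hb : ∀ Z, RBond G Y c Z → Zᶜ.Nonempty → |∑ v ∈ Z, σ v| ≤ b * dd G Z + hv P K Z)
    (A : Finset V) (hAY : A ⊆ Y) (hne : A.Nonempty) (hJ : Joined G A) (hA : Clo c A)
    (hP : 2 * P.card < 3 * (A ∩ P).card) : |∑ v ∈ A, σ v| ≤ b * dd G A + K := by
  suffices key : ∀ (n : ℕ) (A : Finset V), A ⊆ Y → A.Nonempty → Joined G A → Clo c A →
      2 * P.card < 3 * (A ∩ P).card → dd G A = n → |∑ v ∈ A, σ v| ≤ b * dd G A + K from
    key _ A hAY hne hJ hA hP rfl
  intro n
  induction n using Nat.strong_induction_on with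
  | _ n ih =>
    intro A hAY hne hJ hA hP hn
    rcases Aᶜ.eq_empty_or_nonempty with he | hne'
    · have hAu := (compl_eq_empty_iff _).1 he
      rw [hAu, h0, abs_zero]
      positivity
    by_cases hM : ModJ G Yᶜ Aᶜ
    · have := hb A ⟨hAY, hne, hJ, hM, hA⟩ hne'
      rwa [hv_of hP] at this
    · obtain ⟨B, b1, b2, b3, b4, b5, b6, b7, b8, b9⟩ := peel hc hbr hAY hne hJ hA hM
      have g1 := hb B b1 b2
      rw [hv_not (heavy_disj b3 hP)] at g1
      have g2 := ih (dd G (A ∪ B)) (by omega) (A ∪ B) b4 (hne.mono subset_union_left) b6 b7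
        (heavy_mono subset_union_left hP) rfl
      have g3 : ∑ v ∈ A, σ v = ∑ v ∈ A ∪ B, σ v - ∑ v ∈ B, σ v := by
        rw [sum_union b3]
        ring
      rw [g3, b8]
      push_cast
      have := abs_sub (∑ v ∈ A ∪ B, σ v) (∑ v ∈ B, σ v)
      linarith

open RS LSp in
/-- Joined closed sets. -/
theorem joined_two {V : Type} [Fintype V] [DecidableEq V] {G : SimpleGraph V}
    [DecidableRel G.Adj] {c : V → V} (hc : ∀ x, Joined G (cls c x))
    (hbr : ∀ S : Finset V, S.Nonempty → Sᶜ.Nonempty → 1 ≤ dd G S) {Y : Finset V}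
    (P : Finset V) {σ : V → ℝ} (h0 : ∑ v, σ v = 0) {b K : ℝ} (hb0 : 0 ≤ b) (hK0 : 0 ≤ K)
    (hb : ∀ Z, RBond G Y c Z → Zᶜ.Nonempty → |∑ v ∈ Z, σ v| ≤ b * dd G Z + hv P K Z)
    (A : Finset V) (hAY : A ⊆ Y) (hne : A.Nonempty) (hJ : Joined G A) (hA : Clo c A) :
    |∑ v ∈ A, σ v| ≤ b * dd G A + 2 * K := by
  suffices key : ∀ (n : ℕ) (A : Finset V), A ⊆ Y → A.Nonempty → Joined G A → Clo c A →
      dd G A = n → |∑ v ∈ A, σ v| ≤ b * dd G A + 2 * K from key _ A hAY hne hJ hA rfl
  intro n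
  induction n using Nat.strong_induction_on with
  | _ n ih =>
    intro A hAY hne hJ hA hn
    rcases Aᶜ.eq_empty_or_nonempty with he | hne'
    · have hAu := (compl_eq_empty_iff _).1 he
      rw [hAu, h0, abs_zero]
      positivity
    by_cases hM : ModJ G Yᶜ Aᶜ
    · have h1 := hb A ⟨hAY, hne, hJ, hM, hA⟩ hne'
      have h2 := hv_le (P := P) (Z := A) hK0
      linarith
    · obtain ⟨B, b1, b2, b3, b4, b5, b6, b7, b8, b9⟩ := peel hc hbr hAY hne hJ hA hM
      have g3 : ∑ v ∈ A, σ v = ∑ v ∈ A ∪ B, σ v - ∑ v ∈ B, σ v := by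
        rw [sum_union b3]
        ring
      have g1 := hb B b1 b2
      have g4 := abs_sub (∑ v ∈ A ∪ B, σ v) (∑ v ∈ B, σ v)
      by_cases hB : 2 * P.card < 3 * (B ∩ P).card
      · have g2 := heavy_joined hc hbr P h0 hb0 hK0 hb (A ∪ B) b4
          (hne.mono subset_union_left) b6 b7 (heavy_mono subset_union_right hB)
        rw [hv_of hB] at g1
        rw [g3, b8]
        push_cast
        linarith
      · have g2 := ih (dd G (A ∪ B)) (by omega) (A ∪ B) b4 (hne.mono subset_union_left) b6 b7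
          rfl
        rw [hv_not hB] at g1
        rw [g3, b8]
        push_cast
        linarith

open RS LSp in
/-- A bound for the closed bonds of the region `Y` with a constant for the heavy bonds gives a
bound for all closed sets, and a bound without constant for the closed sets which are not
heavy. -/
theorem light_split {V : Type} [Fintype V] [DecidableEq V] {G : SimpleGraph V}
    [DecidableRel G.Adj] {c : V → V} (hc : ∀ x, Joined G (cls c x))
    (hbr : ∀ S : Finset V, S.Nonempty → Sᶜ.Nonempty → 1 ≤ dd G S) {Y : Finset V}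
    (hY : Clo c Y) (P : Finset V) {σ : V → ℝ} (h0 : ∑ v, σ v = 0) {b K D : ℝ} (hb0 : 0 ≤ b)
    (hK0 : 0 ≤ K) (hD : 2 * K ≤ b * D)
    (hb : ∀ Z, RBond G Y c Z → Zᶜ.Nonempty → |∑ v ∈ Z, σ v| ≤ b * dd G Z + hv P K Z)
    (hs : ∀ Z ⊆ Y, Z.Nonempty → Zᶜ.Nonempty → Joined G Z → Clo c Z →
      3 * (Z ∩ P).card ≤ 2 * P.card → (dd G Z : ℝ) < D → |∑ v ∈ Z, σ v| ≤ b * dd G Z)
    (S : Finset V) (hSY : S ⊆ Y) (hS : Clo c S) :
    |∑ v ∈ S, σ v| ≤ 2 * b * dd G S + hv P K S := by
  suffices key : ∀ (n : ℕ) (Z : Finset V), Z ⊆ Y → Clo c Z → dd G Z = n →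
      |∑ v ∈ Z, σ v| ≤ 2 * b * dd G Z + hv P K Z from key _ S hSY hS rfl
  intro n
  induction n using Nat.strong_induction_on with
  | _ n ih =>
    intro Z hZY hZc hZ
    have hvZ := hv_nonneg (P := P) (Z := Z) hK0
    rcases Z.eq_empty_or_nonempty with rfl | hne
    · rw [sum_empty, abs_zero]
      positivity
    rcases Zᶜ.eq_empty_or_nonempty with he | hne'
    · have hZu := (compl_eq_empty_iff _).1 he
      rw [hZu] at hvZ ⊢
      rw [h0, abs_zero]
      positivity
    have hbd : 0 ≤ b * dd G Z := by positivity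
    by_cases hJ : Joined G Z
    · by_cases hP : 2 * P.card < 3 * (Z ∩ P).card
      · have := heavy_joined hc hbr P h0 hb0 hK0 hb Z hZY hne hJ hZc hP
        rw [hv_of hP]
        linarith
      · rw [hv_not hP]
        rcases lt_or_ge (dd G Z : ℝ) D with hlt | hge
        · have := hs Z hZY hne hne' hJ hZc (by omega) hlt
          linarith
        · have h1 := joined_two hc hbr P h0 hb0 hK0 hb Z hZY hne hJ hZc
          have h2 : b * D ≤ b * dd G Z := mul_le_mul_of_nonneg_left hge hb0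
          linarith
    · obtain ⟨A, h1, h2, h3, h4⟩ := not_joined hJ
      obtain ⟨e1, e2⟩ := cut_split h1 h4
      have k1 : dd G Z = dd G A + dd G (Z \ A) := by
        unfold dd
        rw [e1, card_union_of_disjoint e2]
      have c1 : Aᶜ.Nonempty := by
        obtain ⟨x, hx⟩ := hne'
        exact ⟨x, mem_compl.2 fun h => (mem_compl.1 hx) (h1 h)⟩
      have c2 : (Z \ A)ᶜ.Nonempty := by
        obtain ⟨x, hx⟩ := hne'
        exact ⟨x, mem_compl.2 fun h => (mem_compl.1 hx) (mem_sdiff.1 h).1⟩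
      have k2 := hbr A h2 c1
      have k3 := hbr (Z \ A) h3 c2
      have hAc : Clo c A := clo_part hc hZc h1 h4
      have g1 := ih (dd G A) (by omega) A (h1.trans hZY) hAc rfl
      have g2 := ih (dd G (Z \ A)) (by omega) (Z \ A) (sdiff_subset.trans hZY)
        (clo_sdiff hZc hAc) rfl
      have g3 : ∑ v ∈ Z, σ v = ∑ v ∈ A, σ v + ∑ v ∈ Z \ A, σ v := by
        rw [← sum_union disjoint_sdiff, union_sdiff_of_subset h1]
      have g4 : hv P K A + hv P K (Z \ A) ≤ hv P K Z := by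
        by_cases hA : 2 * P.card < 3 * (A ∩ P).card
        · rw [hv_of hA, hv_of (heavy_mono h1 hA), hv_not (heavy_disj disjoint_sdiff hA)]
          linarith
        · rw [hv_not hA]
          by_cases hB : 2 * P.card < 3 * ((Z \ A) ∩ P).card
          · rw [hv_of hB, hv_of (heavy_mono sdiff_subset hB)]
            linarith
          · rw [hv_not hB]
            linarith
      rw [g3, k1]
      push_cast
      have := abs_add_le (∑ v ∈ A, σ v) (∑ v ∈ Z \ A, σ v)
      linarith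

end Pool.Agent.K5
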