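import Mathlib
import Pool.Agent.Work.MP_974d84_co_k5.Defs5
import Pool.Agent.Work.MP_974d84_co_k5.LightSplit
import Pool.Agent.Work.MP_974d84_co_iso.Tools

/-!
# Line G: averaging over the partitions when heavy closed sets have an additive error
-/

set_option linter.unusedSectionVars false

namespace Pool.Agent.K5

open Finset SimpleGraph Pool.Agent.Exp Pool.Agent.Log5 Pool.Agent.Log5.Clu

/-- Averaging for one set. -/
theorem average_gen {V : Type} [Fintype V] [DecidableEq V] {G : SimpleGraph V}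
    [DecidableRel G.Adj] (h3 : ∀ v, G.degree v = 3) {Ξ : Type} [Fintype Ξ] [Nonempty Ξ]
    (c : Ξ → V → V) {B b δ K : ℝ} (hb0 : 0 ≤ b) (hδ : 0 ≤ δ) {X : Finset V}
    (hB : ∑ ξ, ((univ.filter fun v => ¬ (v ∈ X ↔ c ξ v ∈ X)).card : ℝ) ≤
      B * dd G X * Fintype.card Ξ) {σ : V → ℝ} (hσ : ∀ v, |σ v| ≤ δ) (κ : Ξ → ℝ)
    (hκ : ∑ ξ, κ ξ ≤ K * Fintype.card Ξ)
    (hreg : ∀ ξ, |∑ v ∈ univ.filter (fun u => c ξ u ∈ X), σ v| ≤
      b * dd G (univ.filter (fun u => c ξ u ∈ X)) + κ ξ) :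
    |∑ v ∈ X, σ v| ≤ (b * (1 + 3 * B) + δ * B) * dd G X + K := by
  classical
  have hΞ : (0 : ℝ) < Fintype.card Ξ := by exact_mod_cast Fintype.card_pos
  set n : ℝ := (Fintype.card Ξ : ℝ) with hn
  set fl : Ξ → ℝ := fun ξ => ((univ.filter fun v => ¬ (v ∈ X ↔ c ξ v ∈ X)).card : ℝ) with hfl
  have h2 : ∀ ξ, |∑ u ∈ univ.filter (fun u => c ξ u ∈ X), σ u - ∑ v ∈ X, σ v| ≤ δ * fl ξ := by
    intro ξ
    have e1 : ∑ u ∈ univ.filter (fun u => c ξ u ∈ X), σ u =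
        ∑ u, if c ξ u ∈ X then σ u else 0 := by rw [sum_filter]
    have e2 : ∑ v ∈ X, σ v = ∑ u, if u ∈ X then σ u else 0 := by
      rw [← sum_filter]
      refine sum_congr ?_ fun _ _ => rfl
      ext u; simp
    rw [e1, e2, ← sum_sub_distrib]
    refine (abs_sum_le_sum_abs _ _).trans ?_
    have e3 : δ * fl ξ = ∑ v, if ¬ (v ∈ X ↔ c ξ v ∈ X) then δ else 0 := by
      rw [hfl, ← sum_filter, sum_const, nsmul_eq_mul, mul_comm]
    rw [e3]
    refine sum_le_sum fun v _ => ?_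
    by_cases a1 : v ∈ X <;> by_cases a2 : c ξ v ∈ X <;> simp [a1, a2, hσ v]
  have h4 : ∀ ξ, |∑ v ∈ X, σ v| ≤ b * dd G X + (δ + 3 * b) * fl ξ + κ ξ := by
    intro ξ
    have e1 := hreg ξ
    have e2 : (dd G (univ.filter (fun u => c ξ u ∈ X)) : ℝ) ≤ dd G X + 3 * fl ξ := by
      have := Pool.Agent.Iso5.dd_le_symmDiff h3 X (univ.filter (fun u => c ξ u ∈ X))
      simp only [mem_filter, mem_univ, true_and] at this
      simp only [hfl]
      exact_mod_cast this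
    have e3 := mul_le_mul_of_nonneg_left e2 hb0
    have e4 := h2 ξ
    have e5 := abs_sub_abs_le_abs_sub (∑ v ∈ X, σ v) (∑ u ∈ univ.filter (fun u => c ξ u ∈ X), σ u)
    rw [abs_sub_comm] at e5
    linarith
  have h5 : n * |∑ v ∈ X, σ v| ≤ n * (b * dd G X) + (δ + 3 * b) * ∑ ξ, fl ξ + ∑ ξ, κ ξ := by
    calc n * |∑ v ∈ X, σ v| = ∑ _ξ : Ξ, |∑ v ∈ X, σ v| := by
          rw [sum_const, card_univ, nsmul_eq_mul, ← hn]
      _ ≤ ∑ ξ, (b * dd G X + (δ + 3 * b) * fl ξ + κ ξ) := sum_le_sum fun ξ _ => h4 ξ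
      _ = n * (b * dd G X) + (δ + 3 * b) * ∑ ξ, fl ξ + ∑ ξ, κ ξ := by
          rw [sum_add_distrib, sum_add_distrib, sum_const, card_univ, nsmul_eq_mul, ← mul_sum,
            ← hn]
  have h6 : (δ + 3 * b) * ∑ ξ, fl ξ ≤ (δ + 3 * b) * (B * dd G X * n) :=
    mul_le_mul_of_nonneg_left hB (by linarith)
  have h7 : n * |∑ v ∈ X, σ v| ≤ n * ((b * (1 + 3 * B) + δ * B) * dd G X + K) := by
    calc n * |∑ v ∈ X, σ v| ≤ n * (b * dd G X) + (δ + 3 * b) * (B * dd G X * n) + K * n := by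
          linarith
      _ = n * ((b * (1 + 3 * B) + δ * B) * dd G X + K) := by ring
  exact le_of_mul_le_mul_left h7 hΞ

/-- M14 of line G: at most half of a core. -/
theorem average_half {V : Type} [Fintype V] [DecidableEq V] {G : SimpleGraph V}
    [DecidableRel G.Adj] (h3 : ∀ v, G.degree v = 3) {Ξ : Type} [Fintype Ξ] [Nonempty Ξ]
    (c : Ξ → V → V) {B b δ η K : ℝ} (hb0 : 0 ≤ b) (hδ : 0 ≤ δ) (hη : 0 ≤ η)
    {P X : Finset V}
    (hB : ∑ ξ, ((univ.filter fun v => ¬ (v ∈ X ↔ c ξ v ∈ X)).card : ℝ) ≤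
      B * dd G X * Fintype.card Ξ) {σ : V → ℝ} (hσ : ∀ v, |σ v| ≤ δ)
    (hK : 6 * K ≤ η * P.card)
    (hreg : ∀ ξ, |∑ v ∈ univ.filter (fun u => c ξ u ∈ X), σ v| ≤
      b * dd G (univ.filter (fun u => c ξ u ∈ X)) +
        LSp.hv P K (univ.filter (fun u => c ξ u ∈ X)))
    (h2 : 2 * (X ∩ P).card ≤ P.card) :
    |∑ v ∈ X, σ v| ≤ (b * (1 + 3 * B) + (δ + η) * B) * dd G X := by
  classical
  have h := average_gen h3 c hb0 hδ hB hσ (K := η * B * dd G X)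
    (fun ξ => LSp.hv P K (univ.filter (fun u => c ξ u ∈ X)))
    (by
      have h4 : ∀ ξ, LSp.hv P K (univ.filter (fun u => c ξ u ∈ X)) ≤ η * ((univ.filter fun v => ¬ (v ∈ X ↔ c ξ v ∈ X)).card : ℝ) := by
        intro ξ
        by_cases hh : 2 * P.card < 3 * (univ.filter (fun u => c ξ u ∈ X) ∩ P).card
        · rw [LSp.hv_of hh]
          have h5 : (univ.filter (fun u => c ξ u ∈ X) ∩ P).card ≤ (X ∩ P).card +
              (univ.filter fun v => ¬ (v ∈ X ↔ c ξ v ∈ X)).card := by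
            refine (card_le_card ?_).trans (card_union_le _ _)
            intro v hv
            rw [mem_inter, mem_filter] at hv
            rw [mem_union]
            by_cases hvX : v ∈ X
            · exact Or.inl (mem_inter.2 ⟨hvX, hv.2⟩)
            · exact Or.inr (mem_filter.2 ⟨mem_univ _, fun h => hvX (h.2 hv.1.2)⟩)
          have h6 : P.card ≤ 6 * (univ.filter fun v => ¬ (v ∈ X ↔ c ξ v ∈ X)).card := by omega
          have h7 : (P.card : ℝ) ≤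
              6 * ((univ.filter fun v => ¬ (v ∈ X ↔ c ξ v ∈ X)).card : ℝ) := by
            exact_mod_cast h6
          have h8 := mul_le_mul_of_nonneg_left h7 hη
          linarith
        · rw [LSp.hv_not hh]
          positivity
      calc ∑ ξ, LSp.hv P K (univ.filter (fun u => c ξ u ∈ X))
          ≤ ∑ ξ, η * ((univ.filter fun v => ¬ (v ∈ X ↔ c ξ v ∈ X)).card : ℝ) :=
            sum_le_sum fun ξ _ => h4 ξ
        _ = η * ∑ ξ, ((univ.filter fun v => ¬ (v ∈ X ↔ c ξ v ∈ X)).card : ℝ) := by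
            rw [mul_sum]
        _ ≤ η * (B * dd G X * Fintype.card Ξ) := mul_le_mul_of_nonneg_left hB hη
        _ = η * B * dd G X * Fintype.card Ξ := by ring)
    hreg
  calc |∑ v ∈ X, σ v| ≤ (b * (1 + 3 * B) + δ * B) * dd G X + η * B * dd G X := h
    _ = (b * (1 + 3 * B) + (δ + η) * B) * dd G X := by ring

theorem hv_empty {V : Type} [Fintype V] [DecidableEq V] (K : ℝ) (A : Finset V) :
    LSp.hv ∅ K A = 0 :=
  LSp.hv_not (by simp)

/-- M14 of line G: all subsets of the regions. -/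
theorem average_regionG {V : Type} [Fintype V] [DecidableEq V] {G : SimpleGraph V}
    [DecidableRel G.Adj] (h3 : ∀ v, G.degree v = 3) {Ξ : Type} [Fintype Ξ] [Nonempty Ξ]
    (c : Ξ → V → V) {B b δ η K : ℝ} (hb0 : 0 ≤ b) (hδ : 0 ≤ δ) (hη : 0 ≤ η) (hK0 : 0 ≤ K)
    (hB : ∀ X : Finset V, ∑ ξ, ((univ.filter fun v => ¬ (v ∈ X ↔ c ξ v ∈ X)).card : ℝ) ≤
      B * dd G X * Fintype.card Ξ) {σ : V → ℝ} (hσ : ∀ v, |σ v| ≤ δ) {r : ℕ}
    (S : Fin r → Finset V) (hK : ∀ i, 6 * K ≤ η * (S i).card)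
    (hcore : ∀ ξ i A, A ⊆ pre (c ξ) (S i) → Clo (c ξ) A →
      |∑ v ∈ A, σ v| ≤ b * dd G A + LSp.hv (S i) K A)
    (hout : ∀ ξ A, A ⊆ pre (c ξ) (univ.biUnion S)ᶜ → Clo (c ξ) A →
      |∑ v ∈ A, σ v| ≤ b * dd G A) :
    (∀ i, ∀ X ⊆ S i, 2 * X.card ≤ (S i).card →
      |∑ v ∈ X, σ v| ≤ (b * (1 + 3 * B) + (δ + η) * B) * dd G X) ∧
    (∀ i, ∀ X ⊆ S i, |∑ v ∈ X, σ v| ≤ (b * (1 + 3 * B) + δ * B) * dd G X + K) ∧
    ∀ X ⊆ (univ.biUnion S)ᶜ, |∑ v ∈ X, σ v| ≤ (b * (1 + 3 * B) + δ * B) * dd G X := by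
  classical
  have hclo : ∀ ξ (X : Finset V), Clo (c ξ) (univ.filter (fun u => c ξ u ∈ X)) := by
    intro ξ X x y hxy
    simp [hxy]
  have hsub : ∀ ξ (X R : Finset V), X ⊆ R → univ.filter (fun u => c ξ u ∈ X) ⊆ pre (c ξ) R := by
    intro ξ X R hX u hu
    exact mem_filter.2 ⟨mem_univ _, hX (mem_filter.1 hu).2⟩
  refine ⟨fun i X hX h2 => ?_, fun i X hX => ?_, fun X hX => ?_⟩
  · refine average_half h3 c hb0 hδ hη (P := S i) (hB X) hσ (hK i)
      (fun ξ => hcore ξ i _ (hsub ξ X _ hX) (hclo ξ X)) ?_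
    rw [inter_eq_left.2 hX]
    exact h2
  · refine average_gen h3 c hb0 hδ (hB X) hσ (fun _ => K) ?_ (fun ξ => ?_)
    · rw [sum_const, card_univ, nsmul_eq_mul, mul_comm]
    · refine (hcore ξ i _ (hsub ξ X _ hX) (hclo ξ X)).trans ?_
      exact add_le_add le_rfl (LSp.hv_le hK0)
  · have h := average_gen h3 c hb0 hδ (K := 0) (hB X) hσ (fun _ => 0) (by simp) (fun ξ => by
      rw [add_zero]
      exact hout ξ _ (hsub ξ X _ hX) (hclo ξ X))
    rwa [add_zero] at h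

/-- The same with a constant for all closed sets. -/
theorem average_region_const {V : Type} [Fintype V] [DecidableEq V] {G : SimpleGraph V}
    [DecidableRel G.Adj] (h3 : ∀ v, G.degree v = 3) {Ξ : Type} [Fintype Ξ] [Nonempty Ξ]
    (c : Ξ → V → V) {B b δ c₄ : ℝ} (hb0 : 0 ≤ b) (hδ : 0 ≤ δ)
    (hB : ∀ X : Finset V, ∑ ξ, ((univ.filter fun v => ¬ (v ∈ X ↔ c ξ v ∈ X)).card : ℝ) ≤
      B * dd G X * Fintype.card Ξ) {σ : V → ℝ} (hσ : ∀ v, |σ v| ≤ δ) {r : ℕ}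
    (S : Fin r → Finset V)
    (hreg : ∀ ξ R, Region S R → ∀ A, A ⊆ pre (c ξ) R → Clo (c ξ) A →
      |∑ v ∈ A, σ v| ≤ b * dd G A + c₄) :
    ∀ R, Region S R → ∀ X ⊆ R,
      |∑ v ∈ X, σ v| ≤ (b * (1 + 3 * B) + δ * B) * dd G X + c₄ := by
  intro R hR X hX
  refine average_gen h3 c hb0 hδ (hB X) hσ (fun _ => c₄) ?_ (fun ξ => ?_)
  · rw [sum_const, card_univ, nsmul_eq_mul, mul_comm]
  · exact hreg ξ R hR _ (fun u hu => mem_filter.2 ⟨mem_univ _, hX (mem_filter.1 hu).2⟩)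
      (fun x y hxy => by simp [hxy])

end Pool.Agent.K5
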