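import Mathlib
import Pool.Agent.Work.MP_974d84_co_k5.RegionSplit

/-!
# Local charges of total zero inside a region

Charges `δ i` of total zero, supported in disjoint balls of radius `ρ`, with small values, such
that few of the balls are split by a closed bond of the region with many edges.  Then their sum is
small on all subsets of the region.
-/

set_option linter.unusedSectionVars false
set_option linter.unusedVariables false

namespace Pool.Agent.K5

open Finset SimpleGraph Pool.Agent.Exp Pool.Agent.Log5 Pool.Agent.Log5.Clu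

/-- The singletons are joined. -/
theorem joined_cls_id {V : Type} [Fintype V] [DecidableEq V] {G : SimpleGraph V}
    [DecidableRel G.Adj] (x : V) : Joined G (cls id x) := by
  intro A hA hne hAx
  exfalso
  apply hAx
  refine hA.antisymm ?_
  intro y hy
  have hy' : y = x := mem_cls.1 hy
  obtain ⟨z, hz⟩ := hne
  have hz' : z = x := mem_cls.1 (hA hz)
  rw [hy', ← hz']
  exact hz

/-- All sets are closed for the identity. -/
theorem clo_id {V : Type} [Fintype V] [DecidableEq V] (S : Finset V) : Clo id S := by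
  intro x y hxy
  have : x = y := hxy
  rw [this]

/-- Local charges of total zero. -/
theorem region_diff {V : Type} [Fintype V] [DecidableEq V] {G : SimpleGraph V}
    [DecidableRel G.Adj] (h3 : ∀ v, G.degree v = 3)
    (hbr : ∀ S : Finset V, S.Nonempty → Sᶜ.Nonempty → 1 ≤ dd G S) {k D₀ : ℕ} (hc : CycConn G k)
    (hD : D₀ ≤ k) {Y : Finset V} {ι : Type} [Fintype ι] (u : ι → V) {ρ : ℕ}
    (δ : ι → V → ℝ) (hsum : ∀ i, ∑ v, δ i v = 0)
    (hball : ∀ i v, δ i v ≠ 0 → v ∈ Bl G.Adj ρ (u i))
    (hdisj : ∀ i j, i ≠ j → Disjoint (Bl G.Adj ρ (u i)) (Bl G.Adj ρ (u j)))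
    {η M θ : ℝ} (hη0 : 0 ≤ η) (hθ0 : 0 ≤ θ) (hM0 : 0 ≤ M) (hη : ∀ i v, |δ i v| ≤ η)
    (hM : ∀ i, ∑ v, |δ i v| ≤ M)
    (hthin : ∀ P, RBond G Y id P → Pᶜ.Nonempty → D₀ ≤ dd G P →
      ∀ A : Finset ι, (∀ i ∈ A, Sp G ρ P (u i)) → (A.card : ℝ) ≤ θ * dd G P)
    (X : Finset V) (hX : X ⊆ Y) : |∑ v ∈ X, ∑ i, δ i v| ≤ (η + M * θ) * dd G X := by
  classical
  have hpt : ∀ v, |∑ i, δ i v| ≤ η := by
    intro v
    by_cases h : ∃ g, δ g v ≠ 0
    · obtain ⟨g, hg⟩ := h
      rw [Finset.sum_eq_single g]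
      · exact hη g v
      · intro g' _ hg'
        by_contra h0
        exact Finset.disjoint_left.1 (hdisj g' g hg') (hball _ _ h0) (hball _ _ hg)
      · intro h0; exact absurd (mem_univ g) h0
    · push Not at h
      rw [Finset.sum_eq_zero (fun g _ => h g), abs_zero]
      exact hη0
  have htot : ∑ v, ∑ i, δ i v = 0 := by
    rw [sum_comm]
    exact sum_eq_zero fun i _ => hsum i
  have hMθ : 0 ≤ M * θ := mul_nonneg hM0 hθ0
  refine region_split joined_cls_id hbr (clo_id Y) htot (by linarith) ?_ X hX (clo_id X)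
  intro Z hZ hZc
  have hcardbd : ∀ W : Finset V, W.card ≤ dd G W → |∑ v ∈ W, ∑ i, δ i v| ≤ η * dd G W := by
    intro W hW
    have hW' : (W.card : ℝ) ≤ dd G W := by exact_mod_cast hW
    calc |∑ v ∈ W, ∑ i, δ i v| ≤ ∑ v ∈ W, |∑ i, δ i v| := abs_sum_le_sum_abs _ _
      _ ≤ ∑ v ∈ W, η := sum_le_sum fun v _ => hpt v
      _ = W.card * η := by rw [sum_const, nsmul_eq_mul]
      _ ≤ dd G W * η := mul_le_mul_of_nonneg_right hW' hη0
      _ = η * dd G W := mul_comm _ _
  by_cases hk : D₀ ≤ dd G Z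
  · have h2 : ∀ i, |∑ v ∈ Z, δ i v| ≤ if Sp G ρ Z (u i) then M else 0 := by
      intro i
      by_cases h2 : Sp G ρ Z (u i)
      · rw [if_pos h2]
        exact (abs_sum_le_sum_abs _ _).trans
          ((sum_le_univ_sum_of_nonneg fun v => abs_nonneg _).trans (hM i))
      · rw [if_neg h2]
        have h4 : ∀ x ∈ Bl G.Adj ρ (u i), (x ∈ Z ↔ u i ∈ Z) := by
          intro x hx
          by_contra h
          exact h2 ⟨x, hx, h⟩
        by_cases h5 : u i ∈ Z
        · have : ∑ v ∈ Z, δ i v = ∑ v, δ i v := by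
            apply sum_subset (subset_univ _)
            intro v _ hv
            by_contra h0
            exact hv ((h4 v (hball i v h0)).2 h5)
          rw [this, hsum i, abs_zero]
        · rw [sum_eq_zero, abs_zero]
          intro v hv
          by_contra h0
          exact h5 ((h4 v (hball i v h0)).1 hv)
    have h1 := hthin Z hZ hZc hk (univ.filter fun i => Sp G ρ Z (u i))
      (fun i hi => (mem_filter.1 hi).2)
    calc |∑ v ∈ Z, ∑ i, δ i v| = |∑ i, ∑ v ∈ Z, δ i v| := by rw [sum_comm]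
      _ ≤ ∑ i, |∑ v ∈ Z, δ i v| := abs_sum_le_sum_abs _ _
      _ ≤ ∑ i, (if Sp G ρ Z (u i) then M else 0) := sum_le_sum fun i _ => h2 i
      _ = ((univ.filter fun i => Sp G ρ Z (u i)).card : ℝ) * M := by
          rw [← sum_filter, sum_const, nsmul_eq_mul]
      _ ≤ (θ * dd G Z) * M := mul_le_mul_of_nonneg_right h1 hM0
      _ = M * θ * dd G Z := by ring
      _ ≤ (η + M * θ) * dd G Z :=
          mul_le_mul_of_nonneg_right (by linarith) (Nat.cast_nonneg _)
  · have hle : η * dd G Z ≤ (η + M * θ) * dd G Z :=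
      mul_le_mul_of_nonneg_right (by linarith) (Nat.cast_nonneg _)
    by_cases ha : (G.induce (Z : Set V)).IsAcyclic
    · have := dd_of_acyclic G h3 hZ.ne ha
      exact (hcardbd Z (by omega)).trans hle
    · by_cases ha' : (G.induce ((Zᶜ : Finset V) : Set V)).IsAcyclic
      · have h5 := dd_of_acyclic G h3 hZc ha'
        have h6 := hcardbd Zᶜ (by omega)
        have h7 : ∑ v ∈ Z, ∑ i, δ i v = - ∑ v ∈ Zᶜ, ∑ i, δ i v := by
          have := sum_add_sum_compl Z fun v => ∑ i, δ i v
          linarith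
        rw [h7, abs_neg, ← dd_compl]
        rw [← dd_compl] at hle
        exact h6.trans hle
      · exact absurd (hc Z ha ha') (by omega)

end Pool.Agent.K5
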