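import Mathlib
import Pool.Agent.Work.MP_974d84_co_k5.DefsW
import Pool.Agent.Work.MP_974d84_co_k5.RegionDiff

/-!
# Module W8b: bounds for the bonds of the regions give bounds for all subsets of the regions
-/

set_option linter.unusedSectionVars false
set_option linter.unusedVariables false

namespace Pool.Agent.K5

open Finset SimpleGraph Pool.Agent.Exp Pool.Agent.Log5 Pool.Agent.Log5.Clu

/-- The preimage of a region is a union of classes. -/
theorem clo_pre {V : Type} [Fintype V] [DecidableEq V] (c : V → V) (R : Finset V) :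
    Clo c (pre c R) := by
  intro x y hxy
  unfold pre
  rw [mem_filter, mem_filter, hxy]
  simp

/-- For `Y = univ` the complement of a bond is a bond. -/
theorem RBond.of_univ {V : Type} [Fintype V] [DecidableEq V] {G : SimpleGraph V}
    [DecidableRel G.Adj] {c : V → V} {Z : Finset V} (h : RBond G univ c Z) (hne : Zᶜ.Nonempty) :
    RBond G univ c Zᶜ := by
  refine ⟨subset_univ _, hne, ?_, ?_, RS.clo_compl h.clo⟩
  · intro A hA hA1 hA2
    refine h.modj A ?_ hA1 hA2
    rw [Finset.compl_univ, sdiff_empty]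
    exact hA
  · intro A hA hA1 hA2
    rw [Finset.compl_univ, sdiff_empty, compl_compl] at hA
    rw [compl_compl] at hA2
    obtain ⟨u, hu, v, hv, hvA, huv⟩ := h.joined A hA hA1 hA2
    refine ⟨u, hu, v, ?_, hvA, huv⟩
    rw [compl_compl]
    exact hv

/-- Bounds for the closed bonds of the region `Y` with at least `k` edges give bounds for all
closed subsets of `Y`. -/
theorem close_region {V : Type} [Fintype V] [DecidableEq V] {G : SimpleGraph V}
    [DecidableRel G.Adj] (h3 : ∀ v, G.degree v = 3)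
    (hbr : ∀ A : Finset V, A.Nonempty → Aᶜ.Nonempty → 1 ≤ dd G A) {k : ℕ} (hc : CycConn G k)
    {c : V → V} (hj : ∀ x, Joined G (cls c x)) {σ : V → ℝ} (h0 : ∑ v, σ v = 0) {b : ℝ}
    (hσ : ∀ v, |σ v| ≤ b) {Y : Finset V} (hY : Clo c Y)
    (hb : ∀ Z, RBond G Y c Z → (Y = univ → 2 * Z.card ≤ Fintype.card V) → k ≤ dd G Z →
      |∑ v ∈ Z, σ v| ≤ b * dd G Z) (A : Finset V) (hA : A ⊆ Y) (hcl : Clo c A) :
    |∑ v ∈ A, σ v| ≤ b * dd G A := by
  classical
  rcases A.eq_empty_or_nonempty with rfl | ⟨v₀, hv₀⟩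
  · have : dd G (∅ : Finset V) = 0 := by
      unfold dd
      rw [card_eq_zero]
      ext p; rw [mem_cut]; simp
    rw [sum_empty, abs_zero, this]
    simp
  have hb0 : 0 ≤ b := (abs_nonneg _).trans (hσ v₀)
  have hcardbd : ∀ W : Finset V, W.card ≤ dd G W → |∑ v ∈ W, σ v| ≤ b * dd G W := by
    intro W hW
    have hW' : (W.card : ℝ) ≤ dd G W := by exact_mod_cast hW
    calc |∑ v ∈ W, σ v| ≤ ∑ v ∈ W, |σ v| := abs_sum_le_sum_abs _ _
      _ ≤ ∑ v ∈ W, b := sum_le_sum fun v _ => hσ v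
      _ = W.card * b := by rw [sum_const, nsmul_eq_mul]
      _ ≤ dd G W * b := mul_le_mul_of_nonneg_right hW' hb0
      _ = b * dd G W := mul_comm _ _
  have hcomp : ∀ Z : Finset V, ∑ v ∈ Z, σ v = - ∑ v ∈ Zᶜ, σ v := by
    intro Z
    have := sum_add_sum_compl Z σ
    linarith
  refine region_split hj hbr hY h0 hb0 ?_ A hA hcl
  intro Z hZ hZc
  by_cases hk : k ≤ dd G Z
  · by_cases hYu : Y = univ → 2 * Z.card ≤ Fintype.card V
    · exact hb Z hZ hYu hk
    · push Not at hYu
      obtain ⟨hY1, hY2⟩ := hYu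
      have h1 : RBond G univ c Z := hY1 ▸ hZ
      have h2 : RBond G Y c Zᶜ := by
        rw [hY1]
        exact h1.of_univ hZc
      have h4 := card_add_card_compl Z
      have h5 := hb Zᶜ h2 (fun _ => by omega) (by rw [dd_compl]; exact hk)
      rw [hcomp Z, abs_neg, ← dd_compl]
      exact h5
  · by_cases ha : (G.induce (Z : Set V)).IsAcyclic
    · have := dd_of_acyclic G h3 hZ.ne ha
      exact hcardbd Z (by omega)
    · by_cases ha' : (G.induce ((Zᶜ : Finset V) : Set V)).IsAcyclic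
      · have h5 := dd_of_acyclic G h3 hZc ha'
        have h6 := hcardbd Zᶜ (by omega)
        rw [hcomp Z, abs_neg, ← dd_compl]
        exact h6
      · exact absurd (hc Z ha ha') hk

/-- W8b, file RegionClose.lean (uses M7 with `c = id` and acyclic sets): bounds for `RF` give
bounds for all subsets of the regions. -/
theorem rf_close {V : Type} [Fintype V] [DecidableEq V] {G : SimpleGraph V}
    [DecidableRel G.Adj] (h3 : ∀ v, G.degree v = 3)
    (hbr : ∀ A : Finset V, A.Nonempty → Aᶜ.Nonempty → 1 ≤ dd G A) {k : ℕ} (hc : CycConn G k)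
    {r : ℕ} (S : Fin r → Finset V) {σ : V → ℝ} (h0 : ∑ v, σ v = 0) {b : ℝ}
    (hσ : ∀ v, |σ v| ≤ b) (hb : ∀ Z, RF G S Z → k ≤ dd G Z → |∑ v ∈ Z, σ v| ≤ b * dd G Z)
    (R : Finset V) (hR : Region S R) (X : Finset V) (hX : X ⊆ R) :
    |∑ v ∈ X, σ v| ≤ b * dd G X :=
  close_region h3 hbr hc joined_cls_id h0 hσ (clo_id R)
    (fun Z hZ hZu hk => hb Z ⟨R, hR, hZ, hZu⟩ hk) X hX (clo_id X)

end Pool.Agent.K5
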