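import Mathlib
import Pool.Agent.Work.MP_974d84_co_k5.RegionClose
import Pool.Agent.Work.MP_974d84_co_k5.GfG
import Pool.Agent.Work.MP_974d84_co_k5.DefsG
import Pool.Agent.Work.MP_974d84_co_iso.Tools

/-!
# Line G: bonds of the regions with small cuts are small; closing without cyclic connectivity
-/

set_option linter.unusedSectionVars false
set_option linter.unusedVariables false

namespace Pool.Agent.K5

open Finset SimpleGraph Pool.Agent.Exp Pool.Agent.Log5 Pool.Agent.Log5.Clu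

section

variable {V : Type} [Fintype V] [DecidableEq V] {G : SimpleGraph V} [DecidableRel G.Adj]

/-- The cores contain circuits. -/
theorem core_card_ge (h3 : ∀ v, G.degree v = 3) {C : ℝ} {g : ℕ} (hg : Gir G g) {r : ℕ}
    {S : Fin r → Finset V} (hS : Cores G C S) (i : Fin r) : g ≤ (S i).card := by
  by_contra h
  push Not at h
  have h1 := dd_of_acyclic G h3 (hS.ne i) (hg (S i) h)
  have h2 := hS.viol i
  have h4 : gf C (S i).card ≤ (S i).card + 2 := min_le_left _ _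
  have h5 : (((S i).card + 2 : ℕ) : ℝ) ≤ dd G (S i) := by exact_mod_cast h1
  push_cast at h5
  linarith

/-- Taking away one vertex changes the cut by at most three edges. -/
theorem dd_erase_le (h3 : ∀ v, G.degree v = 3) {A : Finset V} {v : V} (hv : v ∈ A) :
    dd G (A.erase v) ≤ dd G A + 3 := by
  classical
  have h1 := Pool.Agent.Iso5.dd_le_symmDiff h3 A (A.erase v)
  have h2 : (univ.filter fun x => ¬ (x ∈ A ↔ x ∈ A.erase v)) ⊆ {v} := by
    intro x hx
    rw [mem_filter, mem_erase] at hx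
    rw [mem_singleton]
    by_contra h
    exact hx.2 ⟨fun h' => ⟨h, h'⟩, fun h' => h'.2⟩
  have h4 := card_le_card h2
  rw [card_singleton] at h4
  omega

end

/-- The cuts of the cores are large. -/
theorem core_dd_ge {C : ℝ} (hC : 1 ≤ C) (D : ℕ) : ∃ g₀ : ℕ, ∀ g, g₀ ≤ g →
    ∀ {V : Type} [Fintype V] [DecidableEq V] (G : SimpleGraph V) [DecidableRel G.Adj],
    (∀ v, G.degree v = 3) → Gir G g → ∀ {r : ℕ} (S : Fin r → Finset V), Cores G C S →
    ∀ i, D ≤ dd G (S i) := by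
  obtain ⟨a₀, ha₀⟩ := gf_large hC (D + 3)
  refine ⟨a₀ + 2, fun g hg V _ _ G _ h3 hG r S hS i => ?_⟩
  have h1 := core_card_ge h3 hG hS i
  obtain ⟨v, hv⟩ := hS.ne i
  have h2 : ((S i).erase v).card = (S i).card - 1 := card_erase_of_mem hv
  have h4 : ((S i).erase v).Nonempty := by
    rw [← card_pos]
    omega
  have h5 := hS.sub i ((S i).erase v) (erase_ssubset hv) h4
  have h6 := ha₀ ((S i).erase v).card (by omega)
  have h7 : ((D + 3 : ℕ) : ℝ) ≤ dd G ((S i).erase v) := h6.trans h5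
  have h8 : D + 3 ≤ dd G ((S i).erase v) := by exact_mod_cast h7
  have h9 := dd_erase_le h3 hv
  omega

/-- The bonds of the regions with small cuts are small. -/
theorem rf_small {C : ℝ} (hC : 1 ≤ C) (D : ℕ) : ∃ g₀ : ℕ, ∀ g, g₀ ≤ g →
    ∀ {V : Type} [Fintype V] [DecidableEq V] (G : SimpleGraph V) [DecidableRel G.Adj],
    (∀ v, G.degree v = 3) → Gir G g → ∀ {r : ℕ} (S : Fin r → Finset V), Cores G C S →
    ∀ Z, RF G S Z → dd G Z < D → Z.card + 2 ≤ dd G Z := by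
  obtain ⟨g₁, h₁⟩ := core_dd_ge hC D
  obtain ⟨g₂, h₂⟩ := core_small hC D
  obtain ⟨g₃, h₃⟩ := light_small hC D
  refine ⟨max g₁ (max g₂ g₃), fun g hg V _ _ G _ h3 hG r S hS Z hZ hD => ?_⟩
  have k1 : g₁ ≤ g := (le_max_left _ _).trans hg
  have k2 : g₂ ≤ g := ((le_max_left _ _).trans (le_max_right _ _)).trans hg
  have k3 : g₃ ≤ g := ((le_max_right _ _).trans (le_max_right _ _)).trans hg
  obtain ⟨R, hR, hB, hu⟩ := hZ
  rcases hR with ⟨i, rfl⟩ | rfl
  · by_cases hZS : Z = S i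
    · have h4 := h₁ g k1 G h3 hG S hS i
      rw [hZS] at hD
      omega
    · exact h₂ g k2 G h3 hG S hS i Z (ssubset_of_subset_of_ne hB.sub hZS) hB.ne hD
  · refine h₃ g k3 G h3 hG Z hB.ne ?_ hD
    have h4 := hS.out Z hB.ne (fun i => by
      rw [Finset.disjoint_left]
      intro x hx hx'
      exact (mem_compl.1 (hB.sub hx)) (mem_biUnion.2 ⟨i, mem_univ _, hx'⟩))
    have h5 : (0 : ℝ) ≤ dd G Z := Nat.cast_nonneg _
    linarith

/-- W8b of line G: bounds for `RF` give bounds for all subsets of the regions. -/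
theorem rf_close_small {V : Type} [Fintype V] [DecidableEq V] {G : SimpleGraph V}
    [DecidableRel G.Adj] (hbr : ∀ A : Finset V, A.Nonempty → Aᶜ.Nonempty → 1 ≤ dd G A)
    {r : ℕ} (S : Fin r → Finset V) {k : ℕ} (hsm : ∀ Z, RF G S Z → dd G Z < k → Z.card ≤ dd G Z)
    {σ : V → ℝ} (h0 : ∑ v, σ v = 0) {b : ℝ} (hσ : ∀ v, |σ v| ≤ b)
    (hb : ∀ Z, RF G S Z → k ≤ dd G Z → |∑ v ∈ Z, σ v| ≤ b * dd G Z)
    (R : Finset V) (hR : Region S R) (X : Finset V) (hX : X ⊆ R) :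
    |∑ v ∈ X, σ v| ≤ b * dd G X := by
  classical
  rcases X.eq_empty_or_nonempty with rfl | ⟨v₀, hv₀⟩
  · have : dd G (∅ : Finset V) = 0 := by
      unfold dd
      rw [card_eq_zero]
      ext p; rw [mem_cut]; simp
    rw [sum_empty, abs_zero, this]
    simp
  have hb0 : 0 ≤ b := (abs_nonneg _).trans (hσ v₀)
  have hcardbd : ∀ W : Finset V, W.card ≤ dd G W → |∑ v ∈ W, σ v| ≤ b * dd G W := by
    intro W hW
    have hW' : (W.card : ℝ) ≤ dd G W := by exact_mod_cast hW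
    calc |∑ v ∈ W, σ v| ≤ ∑ v ∈ W, |σ v| := abs_sum_le_sum_abs _ _
      _ ≤ ∑ v ∈ W, b := sum_le_sum fun v _ => hσ v
      _ = W.card * b := by rw [sum_const, nsmul_eq_mul]
      _ ≤ dd G W * b := mul_le_mul_of_nonneg_right hW' hb0
      _ = b * dd G W := mul_comm _ _
  have hall : ∀ Z, RF G S Z → |∑ v ∈ Z, σ v| ≤ b * dd G Z := by
    intro Z hZ
    by_cases hk : k ≤ dd G Z
    · exact hb Z hZ hk
    · exact hcardbd Z (hsm Z hZ (by omega))
  refine region_split joined_cls_id hbr (clo_id R) h0 hb0 ?_ X hX (clo_id X)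
  intro Z hZ hZc
  by_cases hYu : R = univ → 2 * Z.card ≤ Fintype.card V
  · exact hall Z ⟨R, hR, hZ, hYu⟩
  · push Not at hYu
    obtain ⟨hY1, hY2⟩ := hYu
    have h1 : RBond G univ id Z := hY1 ▸ hZ
    have h2 : RBond G R id Zᶜ := by
      rw [hY1]
      exact h1.of_univ hZc
    have h4 := card_add_card_compl Z
    have h5 := hall Zᶜ ⟨R, hR, h2, fun _ => by omega⟩
    have h6 : ∑ v ∈ Z, σ v = - ∑ v ∈ Zᶜ, σ v := by
      have := sum_add_sum_compl Z σ
      linarith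
    rw [h6, abs_neg, ← dd_compl]
    exact h5

/-- G4b, file RegionCloseG.lean (close_region; `dd G Z < k₁ ≤ k` gives `Z.card ≤ dd G Z` by
`FactsG.reg`). -/
theorem rf_closeG {V : Type} [Fintype V] [DecidableEq V] {G : SimpleGraph V}
    [DecidableRel G.Adj]
    (hbr : ∀ A : Finset V, A.Nonempty → Aᶜ.Nonempty → 1 ≤ dd G A)
    {C : ℝ} {N k κ r : ℕ} {δ : ℝ} {S : Fin r → Finset V} (hS : Cores G C S)
    (hF : FactsG G C N k κ δ S) {k₁ : ℕ} (hk₁ : k₁ ≤ k) {σ : V → ℝ} (h0 : ∑ v, σ v = 0) {b : ℝ}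
    (hσ : ∀ v, |σ v| ≤ b) (hb : ∀ Z, RF G S Z → k₁ ≤ dd G Z → |∑ v ∈ Z, σ v| ≤ b * dd G Z)
    (R : Finset V) (hR : Region S R) (X : Finset V) (hX : X ⊆ R) :
    |∑ v ∈ X, σ v| ≤ b * dd G X := by
  refine rf_close_small hbr S (k := k₁) (fun Z hZ hD => ?_) h0 hσ hb R hR X hX
  obtain ⟨R', hR', hB, -⟩ := hZ
  have := hF.reg hS.disj hR' hB.sub hB.ne (lt_of_lt_of_le hD hk₁)
  omega

end Pool.Agent.K5
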