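import Mathlib
import Pool.Agent.Work.MP_974d84_co_iso.Signs
import Pool.Agent.Work.MP_974d84_co_k5.Defs5

/-!
# The signs of the smeared sites (M6)
-/

set_option linter.unusedSectionVars false
set_option linter.unusedVariables false

namespace Pool.Agent.K5

open Finset SimpleGraph Pool.Agent.Exp Pool.Agent.Log5 Pool.Agent.Log5.Clu
open Pool.Agent.Iso5 Pool.Agent.Iso5.Sgn

namespace SgS

variable {m : ℕ}

/-- The indices with a nonzero coefficient. -/
noncomputable def sup (a : Fin m → ℝ) : Finset (Fin m) := by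
  classical exact univ.filter fun j => a j ≠ 0

theorem mem_sup {a : Fin m → ℝ} {j : Fin m} : j ∈ sup a ↔ a j ≠ 0 := by
  unfold sup
  simp

/-- The signed sum. -/
noncomputable def ss (f : Fin m → Fin 2) (a : Fin m → ℝ) : ℝ := ∑ j, (sf f j : ℝ) * a j

theorem ss_congr {f g : Fin m → Fin 2} {a : Fin m → ℝ} (h : ∀ j ∈ sup a, f j = g j) :
    ss f a = ss g a := by
  unfold ss
  refine sum_congr rfl fun j _ => ?_
  by_cases hj : j ∈ sup a
  · unfold sf
    rw [h j hj]
  · have : a j = 0 := by
      by_contra h'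
      exact hj (mem_sup.2 h')
    rw [this, mul_zero, mul_zero]

theorem ss_zero {f : Fin m → Fin 2} {a : Fin m → ℝ} (h : sup a = ∅) : ss f a = 0 := by
  unfold ss
  refine sum_eq_zero fun j _ => ?_
  have : a j = 0 := by
    by_contra h'
    have := mem_sup.2 h'
    rw [h] at this
    exact notMem_empty j this
  rw [this, mul_zero]

open Classical in
theorem tail_real (a : Fin m → ℝ) (ha : ∀ j, |a j| ≤ 1) {N t : ℝ} (hN : 0 < N) (ht : 0 ≤ t)
    (hs : ((sup a).card : ℝ) ≤ N) :
    (((univ : Finset (Fin m → Fin 2)).filter fun f => t < |ss f a|).card : ℝ)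
      ≤ 2 ^ m * (2 * Real.exp (-(t ^ 2 / (2 * N)))) := by
  have h1 := Uni.tail a hN ht (by
    refine le_trans ?_ hs
    have h2 : ∀ j ∈ (univ : Finset (Fin m)), a j ^ 2 ≤ if j ∈ sup a then 1 else 0 := by
      intro j _
      by_cases hj : j ∈ sup a
      · rw [if_pos hj, ← sq_abs]
        exact pow_le_one₀ (abs_nonneg _) (ha j)
      · rw [if_neg hj]
        have : a j = 0 := by
          by_contra h'
          exact hj (mem_sup.2 h')
        rw [this]
        norm_num
    refine (sum_le_sum h2).trans (le_of_eq ?_)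
    rw [sum_boole]
    congr 2
    ext j
    simp)
  refine le_trans ?_ h1
  have h2 : ((univ : Finset (Fin m → Fin 2)).filter fun f => t < |ss f a|).card ≤
      ((univ : Finset (Fin m → Bool)).filter fun b => t < |∑ j, Uni.sr (b j) * a j|).card := by
    refine card_le_card_of_injOn (fun f j => finTwoEquiv (f j)) ?_ ?_
    · intro f hf
      rw [mem_coe, mem_filter] at hf
      rw [mem_coe, mem_filter]
      refine ⟨mem_univ _, ?_⟩
      have e : ss f a = ∑ j, Uni.sr (finTwoEquiv (f j)) * a j := by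
        unfold ss
        refine sum_congr rfl fun j _ => ?_
        unfold sf
        rw [Uni.si_cast]
      rw [← e]
      exact hf.2
    · intro f _ g _ h
      funext j
      exact finTwoEquiv.injective (congrFun h j)
  exact_mod_cast h2

theorem of_filter {α : Type} [Fintype α] {P : α → Prop} {inst : DecidablePred P} {a : α}
    (h : a ∈ @Finset.filter α P inst univ) : P a := by
  rw [mem_filter] at h
  exact h.2

end SgS

open SgS

/-- M6. -/
theorem signs_smear {b κ : ℝ} (hb : 0 < b) (hb1 : b ≤ 1) (hκ : κ ≤ b ^ 2 / 16) (N₀ : ℕ) :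
    ∃ D₀ : ℕ, ∀ {V : Type} [Fintype V] [DecidableEq V] (d : Finset V → ℕ) (m : ℕ)
    (w : Fin m → V → ℝ) (U : Fin m → Finset V) (Fam : Finset (Finset V)),
    (∀ j, (U j).card ≤ N₀) → (∀ j v, w j v ≠ 0 → v ∈ U j) →
    (∀ j, ∀ X ∈ Fam, |∑ v ∈ X, w j v| ≤ 1) →
    (∀ X ∈ Fam, (univ.filter fun j => ∑ v ∈ X, w j v ≠ 0).card ≤ 2 * d X) →
    (∀ X ∈ Fam, D₀ ≤ d X) →
    (∀ v D, ((Fam.filter fun X => v ∈ X ∧ d X = D).card : ℝ) ≤ N₀ * Real.exp (κ * D)) →
    ∃ ε : Fin m → ℤ, (∀ j, ε j = 1 ∨ ε j = -1) ∧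
      ∀ X ∈ Fam, |∑ j, (ε j : ℝ) * ∑ v ∈ X, w j v| ≤ b * d X := by
  classical
  set r : ℝ := Real.exp (-(b ^ 2 / 8)) with hr
  have hb2 : 0 < b ^ 2 := by positivity
  have hr0 : 0 ≤ r := (Real.exp_pos _).le
  have hr1 : r < 1 := by
    rw [hr, Real.exp_lt_one_iff]
    linarith
  set β : ℝ := 2 * Real.exp (-(b ^ 2 / 32)) with hβ
  have hβ0 : 0 < β := by positivity
  have hβ2 : β < 2 := by
    have : Real.exp (-(b ^ 2 / 32)) < 1 := by
      rw [Real.exp_lt_one_iff]
      linarith
    rw [hβ]
    linarith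
  obtain ⟨n0, hn0⟩ := exists_pow_lt_of_lt_one
    (show (0 : ℝ) < (1 - r) * (2 - β) / (4 * (N₀ : ℝ) ^ 2 + 1) by
      have h1 : 0 < 1 - r := by linarith
      have h2 : 0 < 2 - β := by linarith
      positivity) hr1
  refine ⟨max n0 1, ?_⟩
  intro V _ _ d m w U Fam hU hw hone hsup hd hcnt
  let av : Finset V → Fin m → ℝ := fun X j => ∑ v ∈ X, w j v
  let vs : Finset V → Finset (Fin m) := fun X => sup (av X)
  let Es : Finset (Finset V) := Fam.filter fun X => (vs X).Nonempty
  let bad : Finset V → (Fin m → Fin 2) → Prop := fun X f => b * (d X : ℝ) < |ss f (av X)|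
  have hd1 : ∀ X ∈ Fam, 1 ≤ d X := fun X hX => (le_max_right _ _).trans (hd X hX)
  have hdn : ∀ X ∈ Fam, n0 ≤ d X := fun X hX => (le_max_left _ _).trans (hd X hX)
  have hvs : ∀ X ∈ Fam, (vs X).card ≤ 2 * d X := by
    intro X hX
    have h1 := hsup X hX
    have h2 : vs X = univ.filter fun j => ∑ v ∈ X, w j v ≠ 0 := by
      ext j
      rw [mem_sup, mem_filter]
      exact ⟨fun h => ⟨mem_univ _, h⟩, fun h => h.2⟩
    rw [h2]
    convert h1 using 2
  have hcount := counting_card Es vs bad
    (by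
      intro X _ f g hfg hbad
      have : ss f (av X) = ss g (av X) := ss_congr hfg
      show b * (d X : ℝ) < |ss g (av X)|
      rw [← this]
      exact hbad)
    (fun X => 2 ^ (vs X).card * (2 * Real.exp (-(b ^ 2 * d X / 4))))
    (fun X _ => by positivity)
    (by
      intro X hX
      have hXF := (mem_filter.1 hX).1
      have h1 := hvs X hXF
      have hE1 : (0 : ℝ) < d X := by exact_mod_cast hd1 X hXF
      have h3 := tail_real (av X) (fun j => hone j X hXF) (N := 2 * d X) (t := b * d X)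
        (by positivity) (by positivity) (by exact_mod_cast h1)
      refine (le_of_eq ?_).trans (h3.trans (le_of_eq ?_))
      · congr 2
      · have h4 : (b * (d X : ℝ)) ^ 2 / (2 * (2 * d X)) = b ^ 2 * d X / 4 := by
          field_simp
          ring
        have h5 : (vs X).card ≤ m := by
          have := card_le_univ (vs X)
          simpa using this
        rw [h4, Fintype.card_fin]
        have h6 : (2 : ℝ) ^ m = 2 ^ (vs X).card * 2 ^ (m - (vs X).card) := by
          rw [← pow_add]
          congr 1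
          omega
        rw [h6]
        push_cast
        ring)
    (fun X hX => (mem_filter.1 hX).2) hβ0
    (by
      intro j
      -- the size of one term
      have hterm : ∀ X ∈ Es.filter (fun X => j ∈ vs X),
          (2 ^ (vs X).card * (2 * Real.exp (-(b ^ 2 * d X / 4)))) * (1 / β) ^ ((vs X).card - 1)
            ≤ 4 * Real.exp (-(3 * b ^ 2 * d X / 16)) := by
        intro X hX
        obtain ⟨hX, hj⟩ := mem_filter.1 hX
        have hXF := (mem_filter.1 hX).1
        have h1 := hvs X hXF
        have hn : 1 ≤ (vs X).card := card_pos.2 ⟨j, hj⟩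
        obtain ⟨n, hn'⟩ := Nat.exists_eq_add_of_le hn
        have h3 : (2 : ℝ) ^ (vs X).card * (1 / β) ^ ((vs X).card - 1)
            = 2 * Real.exp (b ^ 2 * n / 32) := by
          rw [hn', Nat.add_sub_cancel_left, pow_add, pow_one, hβ, one_div, mul_inv, mul_pow,
            ← Real.exp_neg, neg_neg, ← Real.exp_nat_mul, inv_pow]
          have : (n : ℝ) * (b ^ 2 / 32) = b ^ 2 * n / 32 := by ring
          rw [this]
          field_simp
        have h4 : (n : ℝ) ≤ 2 * d X := by
          have : n ≤ 2 * d X := by omega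
          exact_mod_cast this
        calc (2 ^ (vs X).card * (2 * Real.exp (-(b ^ 2 * d X / 4))))
              * (1 / β) ^ ((vs X).card - 1)
            = (2 ^ (vs X).card * (1 / β) ^ ((vs X).card - 1))
              * (2 * Real.exp (-(b ^ 2 * d X / 4))) := by ring
          _ = 4 * Real.exp (b ^ 2 * n / 32 + -(b ^ 2 * d X / 4)) := by
              rw [h3, Real.exp_add]; ring
          _ ≤ _ := by
              refine mul_le_mul_of_nonneg_left (Real.exp_le_exp.2 ?_) (by norm_num)
              have : b ^ 2 * n ≤ b ^ 2 * (2 * d X) := mul_le_mul_of_nonneg_left h4 hb2.le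
              linarith
      refine (sum_le_sum hterm).trans ?_
      set L : Finset ℕ := (Es.filter fun X => j ∈ vs X).image d with hL
      have hLd : ∀ D ∈ L, n0 ≤ D := by
        intro D hD
        obtain ⟨X, hX, rfl⟩ := mem_image.1 hD
        exact hdn X (mem_filter.1 (mem_filter.1 hX).1).1
      rw [← sum_fiberwise_of_maps_to (s := Es.filter fun X => j ∈ vs X) (t := L)
        (g := d) (fun X hX => mem_image_of_mem _ hX)]
      have hfib : ∀ D ∈ L, ∑ X ∈ (Es.filter fun X => j ∈ vs X).filter (fun X => d X = D),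
          4 * Real.exp (-(3 * b ^ 2 * d X / 16)) ≤ 4 * (N₀ : ℝ) ^ 2 * r ^ D := by
        intro D hD
        have hcardle : (((Es.filter fun X => j ∈ vs X).filter (fun X => d X = D)).card : ℝ)
            ≤ (N₀ : ℝ) ^ 2 * Real.exp (κ * D) := by
          have hsub : ((Es.filter fun X => j ∈ vs X).filter (fun X => d X = D)) ⊆
              (U j).biUnion fun v => Fam.filter fun X => v ∈ X ∧ d X = D := by
            intro X hX
            obtain ⟨hX1, hX2⟩ := mem_filter.1 hX
            obtain ⟨hX3, hX4⟩ := mem_filter.1 hX1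
            have hXF := (mem_filter.1 hX3).1
            have h1 : (∑ v ∈ X, w j v) ≠ 0 := mem_sup.1 hX4
            obtain ⟨v, hv, hv0⟩ := exists_ne_zero_of_sum_ne_zero h1
            exact mem_biUnion.2 ⟨v, hw j v hv0, mem_filter.2 ⟨hXF, hv, hX2⟩⟩
          have h1 : (((U j).biUnion fun v => Fam.filter fun X => v ∈ X ∧ d X = D).card : ℝ)
              ≤ ∑ v ∈ U j, (N₀ : ℝ) * Real.exp (κ * D) := by
            have h2 := card_biUnion_le (s := U j) (t := fun v =>
              Fam.filter fun X => v ∈ X ∧ d X = D)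
            have h3 : (((U j).biUnion fun v => Fam.filter fun X => v ∈ X ∧ d X = D).card : ℝ)
                ≤ ∑ v ∈ U j, ((Fam.filter fun X => v ∈ X ∧ d X = D).card : ℝ) := by
              exact_mod_cast h2
            refine h3.trans (sum_le_sum fun v _ => ?_)
            convert hcnt v D using 3
          rw [sum_const, nsmul_eq_mul] at h1
          have h4 : ((U j).card : ℝ) * ((N₀ : ℝ) * Real.exp (κ * D))
              ≤ (N₀ : ℝ) * ((N₀ : ℝ) * Real.exp (κ * D)) :=
            mul_le_mul_of_nonneg_right (by exact_mod_cast hU j) (by positivity)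
          have h5 : (((Es.filter fun X => j ∈ vs X).filter (fun X => d X = D)).card : ℝ) ≤
              (((U j).biUnion fun v => Fam.filter fun X => v ∈ X ∧ d X = D).card : ℝ) := by
            exact_mod_cast card_le_card hsub
          calc (((Es.filter fun X => j ∈ vs X).filter (fun X => d X = D)).card : ℝ)
              ≤ (N₀ : ℝ) * ((N₀ : ℝ) * Real.exp (κ * D)) := h5.trans (h1.trans h4)
            _ = (N₀ : ℝ) ^ 2 * Real.exp (κ * D) := by ring
        have hconst : ∑ X ∈ (Es.filter fun X => j ∈ vs X).filter (fun X => d X = D),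
            4 * Real.exp (-(3 * b ^ 2 * d X / 16)) =
            (((Es.filter fun X => j ∈ vs X).filter (fun X => d X = D)).card : ℝ) *
              (4 * Real.exp (-(3 * b ^ 2 * D / 16))) := by
          rw [← nsmul_eq_mul, ← sum_const]
          refine sum_congr rfl fun X hX => ?_
          rw [(mem_filter.1 hX).2]
        rw [hconst]
        have h9 : (((Es.filter fun X => j ∈ vs X).filter (fun X => d X = D)).card : ℝ) *
              (4 * Real.exp (-(3 * b ^ 2 * D / 16))) ≤
            ((N₀ : ℝ) ^ 2 * Real.exp (κ * D)) * (4 * Real.exp (-(3 * b ^ 2 * D / 16))) :=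
          mul_le_mul_of_nonneg_right hcardle (by positivity)
        refine h9.trans ?_
        have h10 : r ^ D = Real.exp (-(b ^ 2 / 8) * D) := by
          rw [hr, ← Real.exp_nat_mul]
          congr 1
          ring
        have h11 : Real.exp (κ * D) * Real.exp (-(3 * b ^ 2 * D / 16)) ≤ r ^ D := by
          rw [h10, ← Real.exp_add]
          apply Real.exp_le_exp.2
          have h12 : κ * D ≤ b ^ 2 / 16 * D := mul_le_mul_of_nonneg_right hκ (Nat.cast_nonneg _)
          linarith
        calc ((N₀ : ℝ) ^ 2 * Real.exp (κ * D)) * (4 * Real.exp (-(3 * b ^ 2 * D / 16)))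
            = 4 * (N₀ : ℝ) ^ 2 * (Real.exp (κ * D) * Real.exp (-(3 * b ^ 2 * D / 16))) := by ring
          _ ≤ 4 * (N₀ : ℝ) ^ 2 * r ^ D := mul_le_mul_of_nonneg_left h11 (by positivity)
      refine (sum_le_sum hfib).trans ?_
      rw [← mul_sum]
      have h1 := geom_tail hr0 hr1 n0 L hLd
      have h3 : 0 < 1 - r := by linarith
      have h4 : r ^ n0 / (1 - r) ≤ (2 - β) / (4 * (N₀ : ℝ) ^ 2 + 1) := by
        rw [div_le_iff₀ h3]
        calc r ^ n0 ≤ (1 - r) * (2 - β) / (4 * (N₀ : ℝ) ^ 2 + 1) := hn0.le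
          _ = (2 - β) / (4 * (N₀ : ℝ) ^ 2 + 1) * (1 - r) := by ring
      have h5 : (0 : ℝ) ≤ 4 * (N₀ : ℝ) ^ 2 := by positivity
      have h6 : 0 ≤ 2 - β := by linarith
      calc 4 * (N₀ : ℝ) ^ 2 * ∑ D ∈ L, r ^ D
          ≤ 4 * (N₀ : ℝ) ^ 2 * ((2 - β) / (4 * (N₀ : ℝ) ^ 2 + 1)) :=
            mul_le_mul_of_nonneg_left (h1.trans h4) h5
        _ = (4 * (N₀ : ℝ) ^ 2 / (4 * (N₀ : ℝ) ^ 2 + 1)) * (2 - β) := by ring
        _ ≤ 1 * (2 - β) := by
            refine mul_le_mul_of_nonneg_right ?_ h6
            rw [div_le_one (by positivity)]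
            linarith
        _ = ((2 : ℕ) : ℝ) - β := by push_cast; ring)
  have hpos := lt_of_lt_of_le (pow_pos hβ0 (Fintype.card (Fin m))) hcount
  obtain ⟨f, hf⟩ := card_pos.1 (Nat.cast_pos.1 hpos)
  have hf' : ∀ X ∈ Es, ¬ bad X f := of_filter hf
  refine ⟨sf f, fun j => Uni.si_or _, ?_⟩
  intro X hX
  by_cases hne : (vs X).Nonempty
  · have h7 : ¬ (b * (d X : ℝ) < |ss f (av X)|) := hf' X (mem_filter.2 ⟨hX, hne⟩)
    push Not at h7
    exact h7
  · rw [not_nonempty_iff_eq_empty] at hne
    have h8 : ss f (av X) = 0 := ss_zero hne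
    have h9 : ∑ j, (sf f j : ℝ) * ∑ v ∈ X, w j v = 0 := h8
    rw [h9, abs_zero]
    positivity

end Pool.Agent.K5
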