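import Mathlib
import Pool.Agent.Work.MP_974d84_co_iso.Near
import Pool.Agent.Work.MP_974d84_co_k5.Defs5
import Pool.Agent.Work.MP_974d84_co_k5.RegionCount
import Pool.Agent.Work.MP_974d84_co_k5.SignsSmear
import Pool.Agent.Work.MP_974d84_co_k5.RegionSplit

/-!
# M13: signs of the strands which are good for all closed sets of all regions
-/

set_option linter.unusedSectionVars false

namespace Pool.Agent.K5

open Finset SimpleGraph Pool.Agent.Exp Pool.Agent.Log5 Pool.Agent.Log5.Clu Pool.Agent.Iso5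
  Pool.Agent.Work.MP_314beb_co

variable {V' : Type}

/-- The weights of the strand ends. -/
def sw {m : ℕ} (w : V' → V' → ℝ) (p q : Fin m → V') (ε : Fin m → ℤ) (v : V') : ℝ :=
  ∑ j, (ε j : ℝ) * (w (p j) v - w (q j) v)

section

variable {V : Type} [Fintype V] [DecidableEq V] {G : SimpleGraph V} [DecidableRel G.Adj]

/-- If a ball meets both sides, it contains the ends of a cut edge. -/
theorem exists_cut_mem {S : Finset V} {v y : V} {j : ℕ} (h : y ∈ Bl G.Adj j v)
    (hne : ¬ (v ∈ S ↔ y ∈ S)) : ∃ e ∈ cut G S, e.1 ∈ Bl G.Adj j v := by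
  obtain ⟨i, hi, x, x', hxx, hx, _, h4, h5⟩ := exists_cross h hne
  have hx1 : x ∈ Bl G.Adj j v := Bl_mono (by omega) v hx
  have hx2 : x' ∈ Bl G.Adj j v :=
    Bl_mono (by omega : i + 1 ≤ j) v (mem_Bl_succ.2 (Or.inr ⟨x, hx, hxx⟩))
  by_cases hv1 : v ∈ S
  · exact ⟨(x, x'), (mem_cut G).2 ⟨h4.1 hv1, fun h => h5 ⟨fun _ => h, fun _ => hv1⟩, hxx⟩, hx1⟩
  · refine ⟨(x', x), (mem_cut G).2 ⟨?_, fun h => hv1 (h4.2 h), hxx.symm⟩, hx2⟩
    by_contra h
    exact h5 ⟨fun h' => absurd h' hv1, fun h' => absurd h' h⟩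

/-- Few vertices are moved across the border of `S`. -/
theorem flip_card (h3 : ∀ v, G.degree v = 3) {ρ : ℕ} {c : V → V}
    (hc : ∀ v, c v ∈ Bl G.Adj ρ v) (S : Finset V) :
    (univ.filter fun v => ¬ (v ∈ S ↔ c v ∈ S)).card ≤ 3 * 2 ^ ρ * dd G S := by
  classical
  have hsub : (univ.filter fun v => ¬ (v ∈ S ↔ c v ∈ S)) ⊆
      (cut G S).biUnion fun e => Bl G.Adj ρ e.1 := by
    intro v hv
    rw [mem_filter] at hv
    obtain ⟨e, he, hev⟩ := exists_cut_mem (hc v) hv.2
    exact mem_biUnion.2 ⟨e, he, Bl_symm' hev⟩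
  refine (card_le_card hsub).trans (card_biUnion_le.trans ?_)
  calc ∑ e ∈ cut G S, (Bl G.Adj ρ e.1).card ≤ ∑ _e ∈ cut G S, 3 * 2 ^ ρ :=
        sum_le_sum fun e _ => by
          have := Bl_card G h3 ρ e.1
          omega
    _ = 3 * 2 ^ ρ * dd G S := by rw [sum_const, smul_eq_mul, mul_comm]; rfl

theorem region_unique {r : ℕ} {S : Fin r → Finset V} (hd : ∀ i j, i ≠ j → Disjoint (S i) (S j))
    {R R' : Finset V} (h : Region S R) (h' : Region S R') {u : V} (hu : u ∈ R) (hu' : u ∈ R') :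
    R = R' := by
  rcases h with ⟨i, rfl⟩ | rfl <;> rcases h' with ⟨j, rfl⟩ | rfl
  · by_cases hij : i = j
    · rw [hij]
    · exact absurd hu' (disjoint_left.1 (hd i j hij) hu)
  · rw [mem_compl, mem_biUnion] at hu'
    exact absurd ⟨i, mem_univ _, hu⟩ hu'
  · rw [mem_compl, mem_biUnion] at hu
    exact absurd ⟨j, mem_univ _, hu'⟩ hu
  · rfl

theorem clo_pre_rs (c : V → V) (R : Finset V) : Clo c (pre c R) := by
  intro x y h
  simp only [pre, mem_filter, mem_univ, true_and]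
  rw [h]

theorem small_of_log {C : ℝ} (hC : 0 ≤ C) {a : ℕ}
    (h : (a : ℝ) + 2 ≤ C * (1 + Real.log a) ^ 2) : (a : ℝ) ≤ 625 * C ^ 2 := by
  rcases Nat.eq_zero_or_pos a with h0 | h0
  · rw [h0]
    push_cast
    positivity
  · have hx : (1 : ℝ) ≤ a := by exact_mod_cast h0
    have hx0 : (0 : ℝ) ≤ a := by linarith
    set y := Real.sqrt (Real.sqrt a) with hy
    have h1 : 1 ≤ Real.sqrt a := by rw [Real.one_le_sqrt]; exact hx
    have h2 : 1 ≤ y := by rw [hy, Real.one_le_sqrt]; exact h1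
    have hy2 : y ^ 2 = Real.sqrt a := Real.sq_sqrt (Real.sqrt_nonneg _)
    have h4 : (a : ℝ) = y ^ 4 := by
      rw [show y ^ 4 = (y ^ 2) ^ 2 by ring, hy2, Real.sq_sqrt hx0]
    have h5 : 1 + Real.log a ≤ 5 * y := by
      have h6 : Real.log a = 4 * Real.log y := by
        rw [h4, Real.log_pow]
        norm_num
      have h7 := Real.log_le_sub_one_of_pos (lt_of_lt_of_le one_pos h2)
      rw [h6]
      linarith
    have h6 : 0 ≤ 1 + Real.log a := by
      have := Real.log_nonneg hx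
      linarith
    have h7 : (1 + Real.log a) ^ 2 ≤ 25 * y ^ 2 := by
      nlinarith
    have h8 : y ^ 4 ≤ 25 * C * y ^ 2 := by
      nlinarith [mul_le_mul_of_nonneg_left h7 hC]
    have hypos : 0 < y ^ 2 := by positivity
    have h9 : y ^ 2 ≤ 25 * C := by
      have : y ^ 2 * y ^ 2 ≤ 25 * C * y ^ 2 := by nlinarith
      exact le_of_mul_le_mul_right this hypos
    rw [h4]
    nlinarith

/-- The isoperimetric inequality for closed sets in a region. -/
theorem iso_pre (h3 : ∀ v, G.degree v = 3) {C C₅ : ℝ} (hC₅ : 1 ≤ C₅) (hC : 4 * C₅ ≤ C)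
    {N k ρ r : ℕ} (hN : 36 * 2 ^ ρ ≤ N) (hk : 625 * C ^ 2 < k) (hg : Gir G k)
    {S : Fin r → Finset V} (hS : Cores G C S) (hF : Facts G C N k S) {c : V → V}
    (hc : ∀ v, c v ∈ Bl G.Adj ρ v) {R : Finset V} (hR : Region S R) {A : Finset V}
    (hA : A ⊆ pre c R) (hne : A.Nonempty) (h2 : 2 * A.card ≤ (pre c R).card) :
    A.card ≤ dd G A ∨ C₅ * (1 + Real.log A.card) ^ 2 ≤ dd G A := by
  classical
  have hflip : ∀ j, 12 * (univ.filter fun v => ¬ (v ∈ S j ↔ c v ∈ S j)).card ≤ (S j).card := by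
    intro j
    have h1 := flip_card h3 hc (S j)
    have h4 := hF.bdry j
    have h5 : 36 * 2 ^ ρ * dd G (S j) ≤ N * dd G (S j) := Nat.mul_le_mul_right _ hN
    calc 12 * (univ.filter fun v => ¬ (v ∈ S j ↔ c v ∈ S j)).card
        ≤ 12 * (3 * 2 ^ ρ * dd G (S j)) := Nat.mul_le_mul_left _ h1
      _ = 36 * 2 ^ ρ * dd G (S j) := by ring
      _ ≤ (S j).card := h5.trans h4
  have hsmall : ∀ j, 3 * (A ∩ S j).card ≤ 2 * (S j).card := by
    intro j
    have hj1 := hflip j
    by_cases hj : R = S j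
    · have h4 : (pre c R).card ≤ (S j).card +
          (univ.filter fun v => ¬ (v ∈ S j ↔ c v ∈ S j)).card := by
        refine (card_le_card ?_).trans (card_union_le _ _)
        intro v hv
        rw [pre, mem_filter, hj] at hv
        rw [mem_union]
        by_cases hvS : v ∈ S j
        · exact Or.inl hvS
        · exact Or.inr (mem_filter.2 ⟨mem_univ _, fun h => hvS (h.2 hv.2)⟩)
      have h5 : (A ∩ S j).card ≤ A.card := card_le_card inter_subset_left
      omega
    · have h4 : (A ∩ S j).card ≤ (univ.filter fun v => ¬ (v ∈ S j ↔ c v ∈ S j)).card := by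
        refine card_le_card ?_
        intro v hv
        rw [mem_inter] at hv
        have h5 := hA hv.1
        rw [pre, mem_filter] at h5
        refine mem_filter.2 ⟨mem_univ _, fun h => hj ?_⟩
        exact region_unique hS.disj hR (Or.inl ⟨j, rfl⟩) h5.2 (h.1 hv.2)
      omega
  have h5 := hF.light A hne hsmall
  unfold gf at h5
  rcases le_total ((A.card : ℝ) + 2) (C * (1 + Real.log A.card) ^ 2) with h6 | h6
  · left
    have h7 := small_of_log (by linarith) h6
    have h8 : A.card < k := by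
      have : (A.card : ℝ) < k := lt_of_le_of_lt h7 hk
      exact_mod_cast this
    have h9 := dd_of_acyclic G h3 hne (hg A h8)
    omega
  · right
    rw [min_eq_right h6] at h5
    have h7 : 0 ≤ (1 + Real.log A.card) ^ 2 := sq_nonneg _
    nlinarith [mul_le_mul_of_nonneg_right hC h7]

section weights

variable {m j₀ : ℕ} {p q : Fin m → V} {w : V → V → ℝ}

theorem sum_of_not_split (hw : Smear G j₀ (univ.image p ∪ univ.image q) w) {X : Finset V} {t : V}
    (ht : t ∈ univ.image p ∪ univ.image q)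
    (hX : ∀ y ∈ Bl G.Adj j₀ t, (t ∈ X ↔ y ∈ X)) :
    ∑ v ∈ X, w t v = if t ∈ X then 1 else 0 := by
  by_cases h : t ∈ X
  · rw [if_pos h, ← hw.total t ht]
    refine sum_subset (subset_univ X) ?_
    intro v _ hv
    by_contra h0
    exact hv ((hX v (hw.ball t v h0)).1 h)
  · rw [if_neg h]
    refine sum_eq_zero ?_
    intro v hv
    by_contra h0
    exact h ((hX v (hw.ball t v h0)).2 hv)

theorem sum_mem_Icc (hw : Smear G j₀ (univ.image p ∪ univ.image q) w) (X : Finset V) {t : V}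
    (ht : t ∈ univ.image p ∪ univ.image q) : 0 ≤ ∑ v ∈ X, w t v ∧ ∑ v ∈ X, w t v ≤ 1 := by
  refine ⟨sum_nonneg fun v _ => hw.nonneg t v, ?_⟩
  rw [← hw.total t ht]
  exact sum_le_sum_of_subset_of_nonneg (subset_univ X) fun v _ _ => hw.nonneg t v

theorem mem_p (j : Fin m) : p j ∈ univ.image p ∪ univ.image q :=
  mem_union_left _ (mem_image_of_mem _ (mem_univ _))

theorem mem_q (j : Fin m) : q j ∈ univ.image p ∪ univ.image q :=
  mem_union_right _ (mem_image_of_mem _ (mem_univ _))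

theorem nonzero_card (hp : Function.Injective p) (hq : Function.Injective q)
    (hpq : ∀ i j, p i ≠ q j) (hJ : ∀ (X : Finset V) (J : Finset (Fin m)),
      (∀ j ∈ J, ¬ (p j ∈ X ↔ q j ∈ X)) → J.card ≤ dd G X)
    (hw : Smear G j₀ (univ.image p ∪ univ.image q) w) (X : Finset V) :
    (univ.filter fun j => ∑ v ∈ X, (w (p j) v - w (q j) v) ≠ 0).card ≤ 2 * dd G X := by
  classical
  set Sp : V → Prop := fun t => ∃ y ∈ Bl G.Adj j₀ t, ¬ (t ∈ X ↔ y ∈ X) with hSp
  set J1 : Finset (Fin m) := univ.filter fun j => ¬ (p j ∈ X ↔ q j ∈ X) with hJ1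
  set J2 : Finset (Fin m) := univ.filter fun j => Sp (p j) ∨ Sp (q j) with hJ2
  have h1 : J1.card ≤ dd G X := hJ X J1 fun j hj => (mem_filter.1 hj).2
  have h2 : J2.card ≤ dd G X := by
    have hch : ∀ j : Fin m, ∃ (t : V) (e : V × V), j ∈ J2 → ((t = p j ∨ t = q j) ∧ e ∈ cut G X ∧
        e.1 ∈ Bl G.Adj j₀ t) := by
      intro j
      by_cases hj : j ∈ J2
      · rcases (mem_filter.1 hj).2 with h | h
        · obtain ⟨y, hy, hne⟩ := h
          obtain ⟨e, he, he1⟩ := exists_cut_mem hy hne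
          exact ⟨p j, e, fun _ => ⟨Or.inl rfl, he, he1⟩⟩
        · obtain ⟨y, hy, hne⟩ := h
          obtain ⟨e, he, he1⟩ := exists_cut_mem hy hne
          exact ⟨q j, e, fun _ => ⟨Or.inr rfl, he, he1⟩⟩
      · exact ⟨p j, (p j, p j), fun h => absurd h hj⟩
    choose t e he using hch
    refine card_le_card_of_injOn e (fun j hj => (he j hj).2.1) ?_
    intro j hj j' hj' hee
    obtain ⟨ht, _, hb⟩ := he j hj
    obtain ⟨ht', _, hb'⟩ := he j' hj'
    rw [hee] at hb
    have hT : ∀ {j : Fin m}, (t j = p j ∨ t j = q j) → t j ∈ univ.image p ∪ univ.image q := by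
      intro j h
      rcases h with h | h
      · rw [h]; exact mem_p j
      · rw [h]; exact mem_q j
    have htt : t j = t j' := by
      by_contra hne
      exact disjoint_left.1 (hw.disj _ (hT ht) _ (hT ht') hne) hb hb'
    rcases ht with h | h <;> rcases ht' with h' | h'
    · exact hp (by rw [← h, ← h', htt])
    · exact absurd (by rw [← h, ← h', htt]) (hpq j j')
    · exact absurd (by rw [← h, ← h', htt]) (hpq j' j)
    · exact hq (by rw [← h, ← h', htt])
  have hsub : (univ.filter fun j => ∑ v ∈ X, (w (p j) v - w (q j) v) ≠ 0) ⊆ J1 ∪ J2 := by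
    intro j hj
    rw [mem_filter] at hj
    rw [mem_union]
    by_contra hcon
    push Not at hcon
    obtain ⟨ha, hb⟩ := hcon
    have ha' : p j ∈ X ↔ q j ∈ X := by
      by_contra h
      exact ha (mem_filter.2 ⟨mem_univ _, h⟩)
    have hb' : ¬ Sp (p j) ∧ ¬ Sp (q j) := by
      constructor
      · exact fun h => hb (mem_filter.2 ⟨mem_univ _, Or.inl h⟩)
      · exact fun h => hb (mem_filter.2 ⟨mem_univ _, Or.inr h⟩)
    have hnp : ∀ y ∈ Bl G.Adj j₀ (p j), (p j ∈ X ↔ y ∈ X) := by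
      intro y hy
      by_contra h
      exact hb'.1 ⟨y, hy, h⟩
    have hnq : ∀ y ∈ Bl G.Adj j₀ (q j), (q j ∈ X ↔ y ∈ X) := by
      intro y hy
      by_contra h
      exact hb'.2 ⟨y, hy, h⟩
    apply hj.2
    rw [sum_sub_distrib, sum_of_not_split hw (mem_p j) hnp, sum_of_not_split hw (mem_q j) hnq]
    by_cases h : p j ∈ X
    · rw [if_pos h, if_pos (ha'.1 h), sub_self]
    · rw [if_neg h, if_neg (fun h' => h (ha'.2 h')), sub_self]
  calc _ ≤ (J1 ∪ J2).card := card_le_card hsub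
    _ ≤ J1.card + J2.card := card_union_le _ _
    _ ≤ 2 * dd G X := by omega

theorem sw_abs_le (hp : Function.Injective p) (hq : Function.Injective q)
    (hpq : ∀ i j, p i ≠ q j) (hw : Smear G j₀ (univ.image p ∪ univ.image q) w)
    {ε : Fin m → ℤ} (hε : ∀ j, ε j = 1 ∨ ε j = -1) (v : V) : |sw w p q ε v| ≤ 1 / 2 ^ j₀ := by
  classical
  have hε1 : ∀ j, |(ε j : ℝ)| = 1 := by
    intro j
    rcases hε j with h | h <;> rw [h] <;> norm_num
  have hz : ∀ t ∈ univ.image p ∪ univ.image q, w t v ≠ 0 →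
      ∀ t' ∈ univ.image p ∪ univ.image q, t' ≠ t → w t' v = 0 := by
    intro t ht h t' ht' hne
    by_contra h'
    exact disjoint_left.1 (hw.disj _ ht' _ ht hne) (hw.ball t' v h') (hw.ball t v h)
  by_cases h1 : ∃ j, w (p j) v ≠ 0
  · obtain ⟨j, hj⟩ := h1
    have h2 : sw w p q ε v = (ε j : ℝ) * (w (p j) v - w (q j) v) := by
      refine sum_eq_single j ?_ (fun h => absurd (mem_univ j) h)
      intro i _ hij
      rw [hz _ (mem_p j) hj _ (mem_p i) (fun h => hij (hp h)),
        hz _ (mem_p j) hj _ (mem_q i) (fun h => hpq j i h.symm)]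
      ring
    rw [h2, hz _ (mem_p j) hj _ (mem_q j) (fun h => hpq j j h.symm), sub_zero, abs_mul, hε1,
      one_mul, abs_of_nonneg (hw.nonneg _ _)]
    exact hw.small _ _
  · push Not at h1
    by_cases h2 : ∃ j, w (q j) v ≠ 0
    · obtain ⟨j, hj⟩ := h2
      have h3 : sw w p q ε v = (ε j : ℝ) * (w (p j) v - w (q j) v) := by
        refine sum_eq_single j ?_ (fun h => absurd (mem_univ j) h)
        intro i _ hij
        rw [h1 i, hz _ (mem_q j) hj _ (mem_q i) (fun h => hij (hq h))]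
        ring
      rw [h3, h1 j, zero_sub, abs_mul, hε1, one_mul, abs_neg, abs_of_nonneg (hw.nonneg _ _)]
      exact hw.small _ _
    · push Not at h2
      have h3 : sw w p q ε v = 0 := by
        refine sum_eq_zero ?_
        intro i _
        rw [h1 i, h2 i]
        ring
      rw [h3, abs_zero]
      positivity

theorem sw_sum (w : V → V → ℝ) (p q : Fin m → V) (ε : Fin m → ℤ) (X : Finset V) :
    ∑ v ∈ X, sw w p q ε v = ∑ j, (ε j : ℝ) * ∑ v ∈ X, (w (p j) v - w (q j) v) := by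
  unfold sw
  rw [sum_comm]
  refine sum_congr rfl fun j _ => ?_
  rw [mul_sum]

theorem sw_total (hw : Smear G j₀ (univ.image p ∪ univ.image q) w) (ε : Fin m → ℤ) :
    ∑ v, sw w p q ε v = 0 := by
  rw [sw_sum]
  refine sum_eq_zero fun j _ => ?_
  rw [sum_sub_distrib, hw.total _ (mem_p j), hw.total _ (mem_q j)]
  ring

end weights

end

/-- M13 -/
theorem region_signs {b τ : ℝ} (hb : 0 < b) (hb1 : b ≤ 1) (hτ : 0 < τ) (ρ s j₀ : ℕ)
    (hs : 8 / Real.sqrt ((2 ^ s : ℕ) : ℝ) + τ ≤ b ^ 2 / 16) (hj : 1 ≤ b * 2 ^ j₀) :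
    ∃ C₀ : ℝ, ∀ C, C₀ ≤ C → ∃ k₀ N₀ : ℕ, ∀ N k, N₀ ≤ N → k₀ ≤ k → ∀ {V : Type} [Fintype V]
    [DecidableEq V] (G : SimpleGraph V) [DecidableRel G.Adj], (∀ v, G.degree v = 3) →
    (∀ A : Finset V, A.Nonempty → Aᶜ.Nonempty → 1 ≤ dd G A) → CycConn G k → Gir G k →
    ∀ {r : ℕ} (S : Fin r → Finset V), Cores G C S → Facts G C N k S →
    ∀ (Ξ : Type) [Fintype Ξ], Fintype.card Ξ ≤ (2 ^ ρ) ^ (3 * 2 ^ (4 * ρ)) →
    ∀ c : Ξ → V → V, (∀ ξ x, Joined G (cls (c ξ) x)) → (∀ ξ x, 2 ^ s ≤ (cls (c ξ) x).card) →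
    (∀ ξ v, c ξ v ∈ Bl G.Adj ρ v) → ∀ (m : ℕ) (p q : Fin m → V), Function.Injective p →
    Function.Injective q → (∀ i j, p i ≠ q j) →
    (∀ (X : Finset V) (J : Finset (Fin m)), (∀ j ∈ J, ¬ (p j ∈ X ↔ q j ∈ X)) →
      J.card ≤ dd G X) →
    ∀ w : V → V → ℝ, Smear G j₀ (univ.image p ∪ univ.image q) w →
    ∃ ε : Fin m → ℤ, (∀ j, ε j = 1 ∨ ε j = -1) ∧ ∀ ξ R, Region S R → ∀ A, A ⊆ pre (c ξ) R →
      Clo (c ξ) A → |∑ v ∈ A, sw w p q ε v| ≤ b * dd G A := by
  classical
  obtain ⟨C₅, hC₅, hcount⟩ := region_count hτ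
  set N₁ : ℕ := max ((2 ^ ρ) ^ (3 * 2 ^ (4 * ρ))) (2 * (3 * 2 ^ j₀)) with hN₁
  obtain ⟨D₀, hD₀⟩ := signs_smear (κ := 8 / Real.sqrt ((2 ^ s : ℕ) : ℝ) + τ) hb hb1 hs N₁
  refine ⟨4 * C₅, fun C hC => ⟨max (max D₀ ⌈C₅⌉₊) (⌊625 * C ^ 2⌋₊ + 1), 36 * 2 ^ ρ, ?_⟩⟩
  intro N k hN hk V _ _ G _ h3 hbr hcyc hg r S hS hF Ξ _ hΞ c hc1 hc2 hc3 m p q hp hq hpq hJ w hw
  set D₁ : ℕ := max D₀ ⌈C₅⌉₊ with hD₁
  have hkD : D₁ ≤ k := (le_max_left _ _).trans hk
  have hkC : 625 * C ^ 2 < k := by
    have h1 : ⌊625 * C ^ 2⌋₊ + 1 ≤ k := (le_max_right _ _).trans hk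
    have h2 := Nat.lt_floor_add_one (625 * C ^ 2)
    have h4 : ((⌊625 * C ^ 2⌋₊ + 1 : ℕ) : ℝ) ≤ k := by exact_mod_cast h1
    push_cast at h4
    linarith
  -- the family of all closed bonds with large cuts
  set Fam : Finset (Finset V) := univ.filter fun Z =>
    D₁ ≤ dd G Z ∧ ∃ ξ R, Region S R ∧ RBond G (pre (c ξ) R) (c ξ) Z ∧
      (pre (c ξ) R = univ → 2 * Z.card ≤ (pre (c ξ) R).card) with hFam
  obtain ⟨ε, hε, hεF⟩ := hD₀ (fun X => dd G X) m (fun j v => w (p j) v - w (q j) v)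
    (fun j => Bl G.Adj j₀ (p j) ∪ Bl G.Adj j₀ (q j)) Fam
    (by
      intro j
      have h1 := Bl_card G h3 j₀ (p j)
      have h2 := Bl_card G h3 j₀ (q j)
      have h4 := card_union_le (Bl G.Adj j₀ (p j)) (Bl G.Adj j₀ (q j))
      have h5 : 2 * (3 * 2 ^ j₀) ≤ N₁ := le_max_right _ _
      omega)
    (by
      intro j v hv
      rw [mem_union]
      by_contra hcon
      push Not at hcon
      apply hv
      have h1 : w (p j) v = 0 := by
        by_contra h
        exact hcon.1 (hw.ball _ _ h)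
      have h2 : w (q j) v = 0 := by
        by_contra h
        exact hcon.2 (hw.ball _ _ h)
      rw [h1, h2, sub_zero])
    (by
      intro j X _
      rw [sum_sub_distrib]
      have h1 := sum_mem_Icc hw X (mem_p (p := p) (q := q) j)
      have h2 := sum_mem_Icc hw X (mem_q (p := p) (q := q) j)
      rw [abs_le]
      constructor <;> linarith)
    (fun X _ => nonzero_card hp hq hpq hJ hw X)
    (fun X hX => (le_max_left _ _).trans (mem_filter.1 hX).2.1)
    (by
      intro v D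
      by_cases hD : D₁ ≤ D
      · -- one partition at a time
        have hsub : (Fam.filter fun X => v ∈ X ∧ dd G X = D) ⊆
            (univ : Finset Ξ).biUnion fun ξ => univ.filter fun Z =>
              (v ∈ Z ∧ dd G Z = D) ∧ ∃ R, Region S R ∧ RBond G (pre (c ξ) R) (c ξ) Z ∧
                (pre (c ξ) R = univ → 2 * Z.card ≤ (pre (c ξ) R).card) := by
          intro Z hZ
          rw [mem_filter, hFam, mem_filter] at hZ
          obtain ⟨⟨_, _, ξ, R, h1, h2⟩, h4⟩ := hZ
          exact mem_biUnion.2 ⟨ξ, mem_univ _, mem_filter.2 ⟨mem_univ _, h4, R, h1, h2⟩⟩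
        have hone : ∀ ξ : Ξ, (((univ : Finset (Finset V)).filter fun Z =>
            (v ∈ Z ∧ dd G Z = D) ∧ ∃ R, Region S R ∧ RBond G (pre (c ξ) R) (c ξ) Z ∧
              (pre (c ξ) R = univ → 2 * Z.card ≤ (pre (c ξ) R).card)).card : ℝ) ≤
            Real.exp ((8 / Real.sqrt ((2 ^ s : ℕ) : ℝ) + τ) * D) := by
          intro ξ
          rcases ((univ : Finset (Finset V)).filter fun Z =>
            (v ∈ Z ∧ dd G Z = D) ∧ ∃ R, Region S R ∧ RBond G (pre (c ξ) R) (c ξ) Z ∧
              (pre (c ξ) R = univ →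
                2 * Z.card ≤ (pre (c ξ) R).card)).eq_empty_or_nonempty with h0 | h0
          · rw [h0, card_empty, Nat.cast_zero]
            positivity
          · obtain ⟨Z₀, hZ₀⟩ := h0
            rw [mem_filter] at hZ₀
            obtain ⟨_, ⟨hv0, _⟩, R₀, hR₀, hB₀, _⟩ := hZ₀
            have hcv0 : c ξ v ∈ R₀ := (mem_filter.1 (hB₀.sub hv0)).2
            refine hcount C₅ le_rfl G (2 ^ s) (c ξ) Nat.one_le_two_pow (hc1 ξ) (hc2 ξ)
              (pre (c ξ) R₀) (clo_pre_rs _ _) (fun A _ h1 h2 => hbr A h1 h2) ?_ v D _ ?_ ?_ ?_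
            · intro A hA hne _ h2
              exact iso_pre h3 hC₅ hC hN hkC hg hS hF (hc3 ξ) hR₀ hA hne h2
            · exact (Nat.le_ceil _).trans (by exact_mod_cast (le_max_right _ _).trans hD)
            · intro Z hZ
              rw [mem_filter] at hZ
              obtain ⟨_, ⟨hv, hdZ⟩, R, hR, hB, _⟩ := hZ
              have hcv : c ξ v ∈ R := (mem_filter.1 (hB.sub hv)).2
              rw [region_unique hS.disj hR₀ hR hcv0 hcv]
              exact ⟨hv, hB, hdZ⟩
            · by_cases hY : pre (c ξ) R₀ = univ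
              · right
                intro Z hZ
                rw [mem_filter] at hZ
                obtain ⟨_, ⟨hv, _⟩, R, hR, hB, hle⟩ := hZ
                have hcv : c ξ v ∈ R := (mem_filter.1 (hB.sub hv)).2
                have hRR := region_unique hS.disj hR₀ hR hcv0 hcv
                rw [← hRR] at hle
                exact hle hY
              · exact Or.inl hY
        calc ((Fam.filter fun X => v ∈ X ∧ dd G X = D).card : ℝ)
            ≤ ∑ ξ : Ξ, (((univ : Finset (Finset V)).filter fun Z =>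
                (v ∈ Z ∧ dd G Z = D) ∧ ∃ R, Region S R ∧ RBond G (pre (c ξ) R) (c ξ) Z ∧
                  (pre (c ξ) R = univ → 2 * Z.card ≤ (pre (c ξ) R).card)).card : ℝ) := by
              exact_mod_cast (card_le_card hsub).trans card_biUnion_le
          _ ≤ ∑ _ξ : Ξ, Real.exp ((8 / Real.sqrt ((2 ^ s : ℕ) : ℝ) + τ) * D) :=
              sum_le_sum fun ξ _ => hone ξ
          _ = Fintype.card Ξ * Real.exp ((8 / Real.sqrt ((2 ^ s : ℕ) : ℝ) + τ) * D) := by
              rw [sum_const, card_univ, nsmul_eq_mul]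
          _ ≤ N₁ * Real.exp ((8 / Real.sqrt ((2 ^ s : ℕ) : ℝ) + τ) * D) := by
              refine mul_le_mul_of_nonneg_right ?_ (Real.exp_pos _).le
              exact_mod_cast hΞ.trans (le_max_left _ _)
      · have h0 : (Fam.filter fun X => v ∈ X ∧ dd G X = D) = ∅ := by
          rw [filter_eq_empty_iff]
          intro X hX h
          have := (mem_filter.1 hX).2.1
          rw [h.2] at this
          exact hD this
        rw [h0, card_empty, Nat.cast_zero]
        positivity)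
  refine ⟨ε, hε, ?_⟩
  intro ξ R hR A hA hclo
  refine region_split (hc1 ξ) hbr (clo_pre_rs (c ξ) R) (sw_total hw ε) hb.le ?_ A hA hclo
  intro Z hZ hZc
  by_cases hdZ : D₁ ≤ dd G Z
  · by_cases hYZ : pre (c ξ) R = univ → 2 * Z.card ≤ (pre (c ξ) R).card
    · rw [sw_sum]
      exact hεF Z (mem_filter.2 ⟨mem_univ _, hdZ, ξ, R, hR, hZ, hYZ⟩)
    · push Not at hYZ
      obtain ⟨hY, hlt⟩ := hYZ
      have hB : RBond G (pre (c ξ) R) (c ξ) Zᶜ := by
        rw [hY] at hZ ⊢
        refine ⟨subset_univ _, hZc, ?_, ?_, ?_⟩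
        · intro A hA hne hAZ
          exact hZ.modj A (by rw [compl_univ, sdiff_empty]; exact hA) hne hAZ
        · rw [compl_compl]
          intro A hA hne hAZ
          exact hZ.joined A (by rw [compl_univ, sdiff_empty] at hA; exact hA) hne hAZ
        · intro x y hxy
          rw [mem_compl, mem_compl, hZ.clo x y hxy]
      have h6 : ∑ v ∈ Z, sw w p q ε v = - ∑ v ∈ Zᶜ, sw w p q ε v := by
        have h7 := sum_add_sum_compl Z (sw w p q ε)
        rw [sw_total hw ε] at h7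
        linarith
      rw [h6, abs_neg, sw_sum, ← dd_compl G Z]
      refine hεF Zᶜ (mem_filter.2 ⟨mem_univ _, by rw [dd_compl]; exact hdZ, ξ, R, hR, hB, ?_⟩)
      intro _
      rw [hY, card_univ] at hlt ⊢
      have := card_add_card_compl Z
      omega
  · push Not at hdZ
    -- one of the two sides is acyclic
    have hsw := sw_abs_le hp hq hpq hw hε
    have hbj : 1 / 2 ^ j₀ ≤ b := by
      rw [div_le_iff₀ (by positivity)]
      exact hj
    have hbound : ∀ Y : Finset V, Y.card ≤ dd G Y → |∑ v ∈ Y, sw w p q ε v| ≤ b * dd G Y := by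
      intro Y hY
      calc |∑ v ∈ Y, sw w p q ε v| ≤ ∑ v ∈ Y, |sw w p q ε v| := abs_sum_le_sum_abs _ _
        _ ≤ ∑ _v ∈ Y, b := sum_le_sum fun v _ => (hsw v).trans hbj
        _ = b * Y.card := by rw [sum_const, nsmul_eq_mul, mul_comm]
        _ ≤ b * dd G Y := mul_le_mul_of_nonneg_left (by exact_mod_cast hY) hb.le
    by_cases h1 : (G.induce (Z : Set V)).IsAcyclic
    · have h2 := dd_of_acyclic G h3 hZ.ne h1
      exact hbound Z (by omega)
    · by_cases h2 : (G.induce ((Zᶜ : Finset V) : Set V)).IsAcyclic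
      · have h4 := dd_of_acyclic G h3 hZc h2
        have h5 := hbound Zᶜ (by omega)
        have h6 : ∑ v ∈ Z, sw w p q ε v = - ∑ v ∈ Zᶜ, sw w p q ε v := by
          have h7 := sum_add_sum_compl Z (sw w p q ε)
          rw [sw_total hw ε] at h7
          linarith
        rw [h6, abs_neg]
        rw [dd_compl] at h5
        exact h5
      · have := hcyc Z h1 h2
        omega

end Pool.Agent.K5
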