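import Mathlib
import Pool.Agent.Work.MP_974d84_co_k5.RegionSigns
import Pool.Agent.Work.MP_974d84_co_k5.LightSplit
import Pool.Agent.Work.MP_974d84_co_k5.DefsG

/-!
# M13 for graphs of large girth: signs of the strands which are good for all closed sets of all
regions, up to a constant for the sets with a large part of a core
-/

set_option linter.unusedSectionVars false
set_option linter.unusedVariables false

namespace Pool.Agent.K5

open Finset SimpleGraph Pool.Agent.Exp Pool.Agent.Log5 Pool.Agent.Log5.Clu Pool.Agent.Iso5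
  Pool.Agent.Work.MP_314beb_co

namespace RSG

variable {V : Type} [Fintype V] [DecidableEq V] {G : SimpleGraph V} [DecidableRel G.Adj]

/-- Few vertices are moved across the border of a core. -/
theorem flip_le (h3 : ∀ v, G.degree v = 3) {N ρ r : ℕ} (hN : 36 * 2 ^ ρ ≤ N)
    {S : Fin r → Finset V} (hB : ∀ i, N * dd G (S i) ≤ (S i).card) {c : V → V}
    (hc : ∀ v, c v ∈ Bl G.Adj ρ v) (j : Fin r) :
    12 * (univ.filter fun v => ¬ (v ∈ S j ↔ c v ∈ S j)).card ≤ (S j).card := by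
  have h1 := flip_card h3 hc (S j)
  have h4 := hB j
  have h5 : 36 * 2 ^ ρ * dd G (S j) ≤ N * dd G (S j) := Nat.mul_le_mul_right _ hN
  calc 12 * (univ.filter fun v => ¬ (v ∈ S j ↔ c v ∈ S j)).card
      ≤ 12 * (3 * 2 ^ ρ * dd G (S j)) := Nat.mul_le_mul_left _ h1
    _ = 36 * 2 ^ ρ * dd G (S j) := by ring
    _ ≤ (S j).card := h5.trans h4

/-- A set which is moved into the region `R` is small in the other cores. -/
theorem other_small {r : ℕ} {S : Fin r → Finset V} (hd : ∀ i j, i ≠ j → Disjoint (S i) (S j))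
    {c : V → V}
    (hfl : ∀ j, 12 * (univ.filter fun v => ¬ (v ∈ S j ↔ c v ∈ S j)).card ≤ (S j).card)
    {R : Finset V} (hR : Region S R) {A : Finset V} (hA : A ⊆ pre c R) (j : Fin r)
    (hj : R ≠ S j) : 12 * (A ∩ S j).card ≤ (S j).card := by
  have h4 : (A ∩ S j).card ≤ (univ.filter fun v => ¬ (v ∈ S j ↔ c v ∈ S j)).card := by
    refine card_le_card ?_
    intro v hv
    rw [mem_inter] at hv
    have h5 := hA hv.1
    rw [pre, mem_filter] at h5
    refine mem_filter.2 ⟨mem_univ _, fun h => hj ?_⟩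
    exact region_unique hd hR (Or.inl ⟨j, rfl⟩) h5.2 (h.1 hv.2)
  have := hfl j
  omega

/-- The isoperimetric inequality for closed sets in a region. -/
theorem iso_pre_g {C C₅ : ℝ} (hC₅ : 1 ≤ C₅) (hC : 4 * C₅ ≤ C)
    {k r : ℕ} (hk : 625 * C ^ 2 < k)
    {S : Fin r → Finset V} (hS : ∀ i j, i ≠ j → Disjoint (S i) (S j))
    (hL : ∀ X : Finset V, X.Nonempty → (∀ j, 3 * (X ∩ S j).card ≤ 2 * (S j).card) →
      gf C X.card ≤ 4 * dd G X)
    (hM : ∀ X : Finset V, X.Nonempty → (∀ j, 3 * (X ∩ S j).card ≤ 2 * (S j).card) →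
      dd G X < k → X.card + 2 ≤ dd G X) {c : V → V}
    (hfl : ∀ j, 12 * (univ.filter fun v => ¬ (v ∈ S j ↔ c v ∈ S j)).card ≤ (S j).card)
    {R : Finset V} (hR : Region S R) {A : Finset V}
    (hA : A ⊆ pre c R) (hne : A.Nonempty) (h2 : 2 * A.card ≤ (pre c R).card) :
    A.card ≤ dd G A ∨ C₅ * (1 + Real.log A.card) ^ 2 ≤ dd G A := by
  classical
  have hsmall : ∀ j, 3 * (A ∩ S j).card ≤ 2 * (S j).card := by
    intro j
    have hj1 := hfl j
    by_cases hj : R = S j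
    · have h4 : (pre c R).card ≤ (S j).card +
          (univ.filter fun v => ¬ (v ∈ S j ↔ c v ∈ S j)).card := by
        refine (card_le_card ?_).trans (card_union_le _ _)
        intro v hv
        rw [pre, mem_filter, hj] at hv
        rw [mem_union]
        by_cases hvS : v ∈ S j
        · exact Or.inl hvS
        · exact Or.inr (mem_filter.2 ⟨mem_univ _, fun h => hvS (h.2 hv.2)⟩)
      have h5 : (A ∩ S j).card ≤ A.card := card_le_card inter_subset_left
      omega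
    · have := other_small hS hfl hR hA j hj
      omega
  have h5 := hL A hne hsmall
  unfold gf at h5
  rcases le_total ((A.card : ℝ) + 2) (C * (1 + Real.log A.card) ^ 2) with h6 | h6
  · left
    have h7 := small_of_log (by linarith) h6
    have h8 : A.card < k := by
      have : (A.card : ℝ) < k := lt_of_le_of_lt h7 hk
      exact_mod_cast this
    rcases lt_or_ge (dd G A) k with h9 | h9
    · have := hM A hne hsmall h9
      omega
    · omega
  · right
    rw [min_eq_right h6] at h5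
    have h7 : 0 ≤ (1 + Real.log A.card) ^ 2 := sq_nonneg _
    nlinarith [mul_le_mul_of_nonneg_right hC h7]

/-- The trivial bound for the strands. -/
theorem sw_le_cut {m j₀ : ℕ} {p q : Fin m → V} {w : V → V → ℝ} (hp : Function.Injective p)
    (hq : Function.Injective q) (hpq : ∀ i j, p i ≠ q j)
    (hJ : ∀ (X : Finset V) (J : Finset (Fin m)),
      (∀ j ∈ J, ¬ (p j ∈ X ↔ q j ∈ X)) → J.card ≤ dd G X)
    (hw : Smear G j₀ (univ.image p ∪ univ.image q) w) {ε : Fin m → ℤ}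
    (hε : ∀ j, ε j = 1 ∨ ε j = -1) (X : Finset V) :
    |∑ v ∈ X, sw w p q ε v| ≤ 2 * dd G X := by
  classical
  rw [sw_sum]
  refine (abs_sum_le_sum_abs _ _).trans ?_
  have h1 : ∀ j, |(ε j : ℝ) * ∑ v ∈ X, (w (p j) v - w (q j) v)| ≤
      if ∑ v ∈ X, (w (p j) v - w (q j) v) ≠ 0 then 1 else 0 := by
    intro j
    have hε1 : |(ε j : ℝ)| = 1 := by
      rcases hε j with h | h <;> rw [h] <;> norm_num
    split_ifs with h
    · rw [abs_mul, hε1, one_mul, sum_sub_distrib]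
      have h1 := sum_mem_Icc hw X (mem_p (p := p) (q := q) j)
      have h2 := sum_mem_Icc hw X (mem_q (p := p) (q := q) j)
      rw [abs_le]
      constructor <;> linarith
    · push Not at h
      rw [h, mul_zero, abs_zero]
  refine (sum_le_sum fun j _ => h1 j).trans ?_
  rw [sum_boole]
  exact_mod_cast nonzero_card hp hq hpq hJ hw X

end RSG

open RSG LSp in
/-- M13 for graphs of large girth. -/
theorem region_signs_g {b τ : ℝ} (hb : 0 < b) (hb1 : b ≤ 1) (hτ : 0 < τ) (ρ s j₀ : ℕ)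
    (hs : 8 / Real.sqrt ((2 ^ s : ℕ) : ℝ) + τ ≤ b ^ 2 / 16) (hj : 1 ≤ b * 2 ^ j₀) :
    ∃ C₀ K : ℝ, 0 ≤ K ∧ ∀ C, C₀ ≤ C → ∃ k₀ : ℕ, ∀ N k, 36 * 2 ^ ρ ≤ N → k₀ ≤ k →
    ∀ {V : Type} [Fintype V]
    [DecidableEq V] (G : SimpleGraph V) [DecidableRel G.Adj], (∀ v, G.degree v = 3) →
    (∀ A : Finset V, A.Nonempty → Aᶜ.Nonempty → 1 ≤ dd G A) →
    ∀ {r : ℕ} (S : Fin r → Finset V), (∀ i j, i ≠ j → Disjoint (S i) (S j)) →
    (∀ i, N * dd G (S i) ≤ (S i).card) →
    (∀ X : Finset V, X.Nonempty → (∀ j, 3 * (X ∩ S j).card ≤ 2 * (S j).card) →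
      gf C X.card ≤ 4 * dd G X) →
    (∀ X : Finset V, X.Nonempty → (∀ j, 3 * (X ∩ S j).card ≤ 2 * (S j).card) →
      dd G X < k → X.card + 2 ≤ dd G X) →
    ∀ (Ξ : Type) [Fintype Ξ], Fintype.card Ξ ≤ (2 ^ ρ) ^ (3 * 2 ^ (4 * ρ)) →
    ∀ c : Ξ → V → V, (∀ ξ x, Joined G (cls (c ξ) x)) → (∀ ξ x, 2 ^ s ≤ (cls (c ξ) x).card) →
    (∀ ξ v, c ξ v ∈ Bl G.Adj ρ v) → ∀ (m : ℕ) (p q : Fin m → V), Function.Injective p →
    Function.Injective q → (∀ i j, p i ≠ q j) →
    (∀ (X : Finset V) (J : Finset (Fin m)), (∀ j ∈ J, ¬ (p j ∈ X ↔ q j ∈ X)) →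
      J.card ≤ dd G X) →
    ∀ w : V → V → ℝ, Smear G j₀ (univ.image p ∪ univ.image q) w →
    ∃ ε : Fin m → ℤ, (∀ j, ε j = 1 ∨ ε j = -1) ∧ ∀ ξ R, Region S R → ∀ A, A ⊆ pre (c ξ) R →
      Clo (c ξ) A → |∑ v ∈ A, sw w p q ε v| ≤ 2 * b * dd G A + K ∧
        ((∀ j, 3 * (A ∩ S j).card ≤ 2 * (S j).card) →
          |∑ v ∈ A, sw w p q ε v| ≤ 2 * b * dd G A) := by
  classical
  obtain ⟨C₅, hC₅, hcount⟩ := region_count hτ
  set N₁ : ℕ := max ((2 ^ ρ) ^ (3 * 2 ^ (4 * ρ))) (2 * (3 * 2 ^ j₀)) with hN₁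
  obtain ⟨D₀, hD₀⟩ := signs_smear (κ := 8 / Real.sqrt ((2 ^ s : ℕ) : ℝ) + τ) hb hb1 hs N₁
  set D₁ : ℕ := max D₀ ⌈C₅⌉₊ with hD₁
  set K : ℝ := 2 * D₁ with hK
  have hK0 : 0 ≤ K := by positivity
  refine ⟨4 * C₅, K, hK0, fun C hC => ?_⟩
  refine ⟨max (max D₁ ⌈2 * K / b⌉₊) (⌊625 * C ^ 2⌋₊ + 1), ?_⟩
  intro N k hN hk V _ _ G _ h3 hbr r S hd hB hL hM Ξ _ hΞ c hc1 hc2 hc3 m p q hp hq hpq hJ w hw
  have hkC : 625 * C ^ 2 < k := by
    have h1 : ⌊625 * C ^ 2⌋₊ + 1 ≤ k := (le_max_right _ _).trans hk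
    have h2 := Nat.lt_floor_add_one (625 * C ^ 2)
    have h4 : ((⌊625 * C ^ 2⌋₊ + 1 : ℕ) : ℝ) ≤ k := by exact_mod_cast h1
    push_cast at h4
    linarith
  have hfl : ∀ ξ j, 12 * (univ.filter fun v => ¬ (v ∈ S j ↔ c ξ v ∈ S j)).card ≤ (S j).card :=
    fun ξ j => flip_le h3 hN hB (hc3 ξ) j
  -- the family of all closed bonds with large cuts
  set Fam : Finset (Finset V) := univ.filter fun Z =>
    D₁ ≤ dd G Z ∧ ∃ ξ R, Region S R ∧ RBond G (pre (c ξ) R) (c ξ) Z ∧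
      (pre (c ξ) R = univ → 2 * Z.card ≤ (pre (c ξ) R).card) with hFam
  obtain ⟨ε, hε, hεF⟩ := hD₀ (fun X => dd G X) m (fun j v => w (p j) v - w (q j) v)
    (fun j => Bl G.Adj j₀ (p j) ∪ Bl G.Adj j₀ (q j)) Fam
    (by
      intro j
      have h1 := Bl_card G h3 j₀ (p j)
      have h2 := Bl_card G h3 j₀ (q j)
      have h4 := card_union_le (Bl G.Adj j₀ (p j)) (Bl G.Adj j₀ (q j))
      have h5 : 2 * (3 * 2 ^ j₀) ≤ N₁ := le_max_right _ _
      omega)
    (by
      intro j v hv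
      rw [mem_union]
      by_contra hcon
      push Not at hcon
      apply hv
      have h1 : w (p j) v = 0 := by
        by_contra h
        exact hcon.1 (hw.ball _ _ h)
      have h2 : w (q j) v = 0 := by
        by_contra h
        exact hcon.2 (hw.ball _ _ h)
      rw [h1, h2, sub_zero])
    (by
      intro j X _
      rw [sum_sub_distrib]
      have h1 := sum_mem_Icc hw X (mem_p (p := p) (q := q) j)
      have h2 := sum_mem_Icc hw X (mem_q (p := p) (q := q) j)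
      rw [abs_le]
      constructor <;> linarith)
    (fun X _ => nonzero_card hp hq hpq hJ hw X)
    (fun X hX => (le_max_left _ _).trans (mem_filter.1 hX).2.1)
    (by
      intro v D
      by_cases hD : D₁ ≤ D
      · -- one partition at a time
        have hsub : (Fam.filter fun X => v ∈ X ∧ dd G X = D) ⊆
            (univ : Finset Ξ).biUnion fun ξ => univ.filter fun Z =>
              (v ∈ Z ∧ dd G Z = D) ∧ ∃ R, Region S R ∧ RBond G (pre (c ξ) R) (c ξ) Z ∧
                (pre (c ξ) R = univ → 2 * Z.card ≤ (pre (c ξ) R).card) := by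
          intro Z hZ
          rw [mem_filter, hFam, mem_filter] at hZ
          obtain ⟨⟨_, _, ξ, R, h1, h2⟩, h4⟩ := hZ
          exact mem_biUnion.2 ⟨ξ, mem_univ _, mem_filter.2 ⟨mem_univ _, h4, R, h1, h2⟩⟩
        have hone : ∀ ξ : Ξ, (((univ : Finset (Finset V)).filter fun Z =>
            (v ∈ Z ∧ dd G Z = D) ∧ ∃ R, Region S R ∧ RBond G (pre (c ξ) R) (c ξ) Z ∧
              (pre (c ξ) R = univ → 2 * Z.card ≤ (pre (c ξ) R).card)).card : ℝ) ≤
            Real.exp ((8 / Real.sqrt ((2 ^ s : ℕ) : ℝ) + τ) * D) := by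
          intro ξ
          rcases ((univ : Finset (Finset V)).filter fun Z =>
            (v ∈ Z ∧ dd G Z = D) ∧ ∃ R, Region S R ∧ RBond G (pre (c ξ) R) (c ξ) Z ∧
              (pre (c ξ) R = univ →
                2 * Z.card ≤ (pre (c ξ) R).card)).eq_empty_or_nonempty with h0 | h0
          · rw [h0, card_empty, Nat.cast_zero]
            positivity
          · obtain ⟨Z₀, hZ₀⟩ := h0
            rw [mem_filter] at hZ₀
            obtain ⟨_, ⟨hv0, _⟩, R₀, hR₀, hB₀, _⟩ := hZ₀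
            have hcv0 : c ξ v ∈ R₀ := (mem_filter.1 (hB₀.sub hv0)).2
            refine hcount C₅ le_rfl G (2 ^ s) (c ξ) Nat.one_le_two_pow (hc1 ξ) (hc2 ξ)
              (pre (c ξ) R₀) (clo_pre_rs _ _) (fun A _ h1 h2 => hbr A h1 h2) ?_ v D _ ?_ ?_ ?_
            · intro A hA hne _ h2
              exact iso_pre_g hC₅ hC hkC hd hL hM (hfl ξ) hR₀ hA hne h2
            · exact (Nat.le_ceil _).trans (by exact_mod_cast (le_max_right _ _).trans hD)
            · intro Z hZ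
              rw [mem_filter] at hZ
              obtain ⟨_, ⟨hv, hdZ⟩, R, hR, hB, _⟩ := hZ
              have hcv : c ξ v ∈ R := (mem_filter.1 (hB.sub hv)).2
              rw [region_unique hd hR₀ hR hcv0 hcv]
              exact ⟨hv, hB, hdZ⟩
            · by_cases hY : pre (c ξ) R₀ = univ
              · right
                intro Z hZ
                rw [mem_filter] at hZ
                obtain ⟨_, ⟨hv, _⟩, R, hR, hB, hle⟩ := hZ
                have hcv : c ξ v ∈ R := (mem_filter.1 (hB.sub hv)).2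
                have hRR := region_unique hd hR₀ hR hcv0 hcv
                rw [← hRR] at hle
                exact hle hY
              · exact Or.inl hY
        calc ((Fam.filter fun X => v ∈ X ∧ dd G X = D).card : ℝ)
            ≤ ∑ ξ : Ξ, (((univ : Finset (Finset V)).filter fun Z =>
                (v ∈ Z ∧ dd G Z = D) ∧ ∃ R, Region S R ∧ RBond G (pre (c ξ) R) (c ξ) Z ∧
                  (pre (c ξ) R = univ → 2 * Z.card ≤ (pre (c ξ) R).card)).card : ℝ) := by
              exact_mod_cast (card_le_card hsub).trans card_biUnion_le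
          _ ≤ ∑ _ξ : Ξ, Real.exp ((8 / Real.sqrt ((2 ^ s : ℕ) : ℝ) + τ) * D) :=
              sum_le_sum fun ξ _ => hone ξ
          _ = Fintype.card Ξ * Real.exp ((8 / Real.sqrt ((2 ^ s : ℕ) : ℝ) + τ) * D) := by
              rw [sum_const, card_univ, nsmul_eq_mul]
          _ ≤ N₁ * Real.exp ((8 / Real.sqrt ((2 ^ s : ℕ) : ℝ) + τ) * D) := by
              refine mul_le_mul_of_nonneg_right ?_ (Real.exp_pos _).le
              exact_mod_cast hΞ.trans (le_max_left _ _)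
      · have h0 : (Fam.filter fun X => v ∈ X ∧ dd G X = D) = ∅ := by
          rw [filter_eq_empty_iff]
          intro X hX h
          have := (mem_filter.1 hX).2.1
          rw [h.2] at this
          exact hD this
        rw [h0, card_empty, Nat.cast_zero]
        positivity)
  refine ⟨ε, hε, ?_⟩
  have hsw := sw_abs_le hp hq hpq hw hε
  have hbj : 1 / 2 ^ j₀ ≤ b := by
    rw [div_le_iff₀ (by positivity)]
    exact hj
  have hbound : ∀ Y : Finset V, Y.card ≤ dd G Y → |∑ v ∈ Y, sw w p q ε v| ≤ b * dd G Y := by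
    intro Y hY
    calc |∑ v ∈ Y, sw w p q ε v| ≤ ∑ v ∈ Y, |sw w p q ε v| := abs_sum_le_sum_abs _ _
      _ ≤ ∑ _v ∈ Y, b := sum_le_sum fun v _ => (hsw v).trans hbj
      _ = b * Y.card := by rw [sum_const, nsmul_eq_mul, mul_comm]
      _ ≤ b * dd G Y := mul_le_mul_of_nonneg_left (by exact_mod_cast hY) hb.le
  -- small light sets
  have hlight : ∀ Z : Finset V, Z.Nonempty → (∀ j, 3 * (Z ∩ S j).card ≤ 2 * (S j).card) →
      dd G Z < max D₁ ⌈2 * K / b⌉₊ → |∑ v ∈ Z, sw w p q ε v| ≤ b * dd G Z := by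
    intro Z hne hZ hlt
    have := hM Z hne hZ (lt_of_lt_of_le hlt ((le_max_left _ _).trans hk))
    exact hbound Z (by omega)
  intro ξ R hR A hA hclo
  -- the core of the region
  obtain ⟨P, hP1, hP2⟩ : ∃ P : Finset V, (∀ Z, Z ⊆ pre (c ξ) R →
      3 * (Z ∩ P).card ≤ 2 * P.card → ∀ j, 3 * (Z ∩ S j).card ≤ 2 * (S j).card) ∧
      (∀ Z : Finset V, (∀ j, 3 * (Z ∩ S j).card ≤ 2 * (S j).card) →
        3 * (Z ∩ P).card ≤ 2 * P.card) := by
    rcases hR with ⟨i, rfl⟩ | hR'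
    · refine ⟨S i, fun Z hZ h j => ?_, fun Z h => h i⟩
      by_cases hj : S i = S j
      · rw [← hj]
        exact h
      · have := other_small hd (hfl ξ) (Or.inl ⟨i, rfl⟩) hZ j hj
        omega
    · refine ⟨∅, fun Z hZ _ j => ?_, fun Z _ => by simp⟩
      by_cases hj : R = S j
      · have h0 : S j = ∅ := by
          rw [← hj, hR']
          by_contra hne
          obtain ⟨x, hx⟩ := nonempty_iff_ne_empty.2 hne
          have h1 : x ∈ S j := by
            rw [← hj, hR']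
            exact hx
          exact (mem_compl.1 hx) (mem_biUnion.2 ⟨j, mem_univ _, h1⟩)
        rw [h0]
        simp
      · have := other_small hd (hfl ξ) (Or.inr hR') hZ j hj
        omega
  have hD : 2 * K ≤ b * (⌈2 * K / b⌉₊ : ℕ) := by
    have h1 : 2 * K / b ≤ (⌈2 * K / b⌉₊ : ℕ) := Nat.le_ceil _
    rw [div_le_iff₀ hb] at h1
    linarith
  have hmain := light_split (hc1 ξ) hbr (clo_pre_rs (c ξ) R) P (sw_total hw ε) hb.le hK0 hD
    (fun Z hZ hZc => ?_) (fun Z hZ hne _ _ _ hP hlt => ?_) A hA hclo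
  · constructor
    · have := hv_le (P := P) (Z := A) hK0
      linarith
    · intro hA'
      have h1 := hP2 A hA'
      rw [hv_not (by omega), add_zero] at hmain
      exact hmain
  · have hvZ := hv_nonneg (P := P) (Z := Z) hK0
    by_cases hdZ : D₁ ≤ dd G Z
    · suffices hsuf : |∑ v ∈ Z, sw w p q ε v| ≤ b * dd G Z by linarith
      by_cases hYZ : pre (c ξ) R = univ → 2 * Z.card ≤ (pre (c ξ) R).card
      · rw [sw_sum]
        exact hεF Z (mem_filter.2 ⟨mem_univ _, hdZ, ξ, R, hR, hZ, hYZ⟩)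
      · push Not at hYZ
        obtain ⟨hY, hlt⟩ := hYZ
        have hB : RBond G (pre (c ξ) R) (c ξ) Zᶜ := by
          rw [hY] at hZ ⊢
          refine ⟨subset_univ _, hZc, ?_, ?_, ?_⟩
          · intro A hA hne hAZ
            exact hZ.modj A (by rw [compl_univ, sdiff_empty]; exact hA) hne hAZ
          · rw [compl_compl]
            intro A hA hne hAZ
            exact hZ.joined A (by rw [compl_univ, sdiff_empty] at hA; exact hA) hne hAZ
          · intro x y hxy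
            rw [mem_compl, mem_compl, hZ.clo x y hxy]
        have h6 : ∑ v ∈ Z, sw w p q ε v = - ∑ v ∈ Zᶜ, sw w p q ε v := by
          have h7 := sum_add_sum_compl Z (sw w p q ε)
          rw [sw_total hw ε] at h7
          linarith
        rw [h6, abs_neg, sw_sum, ← dd_compl G Z]
        refine hεF Zᶜ (mem_filter.2 ⟨mem_univ _, by rw [dd_compl]; exact hdZ, ξ, R, hR, hB, ?_⟩)
        intro _
        rw [hY, card_univ] at hlt ⊢
        have := card_add_card_compl Z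
        omega
    · push Not at hdZ
      by_cases hP : 2 * P.card < 3 * (Z ∩ P).card
      · rw [hv_of hP]
        have h1 := sw_le_cut hp hq hpq hJ hw hε Z
        have h2 : (dd G Z : ℝ) ≤ D₁ := by exact_mod_cast hdZ.le
        have h4 : 0 ≤ b * dd G Z := by positivity
        linarith
      · have := hlight Z hZ.ne (hP1 Z hZ.sub (by omega)) (lt_of_lt_of_le hdZ (le_max_left _ _))
        linarith
  · refine hlight Z hne (hP1 Z hZ hP) (lt_of_lt_of_le ?_ (le_max_right _ _))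
    exact_mod_cast hlt

open LSp in
/-- M13 for graphs of large girth, in the form which is used for the averages. -/
theorem region_signsG {b τ : ℝ} (hb : 0 < b) (hb1 : b ≤ 1) (hτ : 0 < τ) (ρ s j₀ : ℕ)
    (hs : 8 / Real.sqrt ((2 ^ s : ℕ) : ℝ) + τ ≤ b ^ 2 / 64) (hj : 2 ≤ b * 2 ^ j₀) :
    ∃ C₀ K : ℝ, 0 ≤ K ∧ ∀ C, C₀ ≤ C → ∃ k₀ N₀ : ℕ, ∀ N k κ : ℕ, ∀ δ : ℝ, N₀ ≤ N → k₀ ≤ k →
    ∀ {V : Type} [Fintype V]
    [DecidableEq V] (G : SimpleGraph V) [DecidableRel G.Adj], (∀ v, G.degree v = 3) →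
    (∀ A : Finset V, A.Nonempty → Aᶜ.Nonempty → 1 ≤ dd G A) →
    ∀ {r : ℕ} (S : Fin r → Finset V), Cores G C S → FactsG G C N k κ δ S →
    ∀ (Ξ : Type) [Fintype Ξ], Fintype.card Ξ ≤ (2 ^ ρ) ^ (3 * 2 ^ (4 * ρ)) →
    ∀ c : Ξ → V → V, (∀ ξ x, Joined G (cls (c ξ) x)) → (∀ ξ x, 2 ^ s ≤ (cls (c ξ) x).card) →
    (∀ ξ v, c ξ v ∈ Bl G.Adj ρ v) → ∀ (m : ℕ) (p q : Fin m → V), Function.Injective p →
    Function.Injective q → (∀ i j, p i ≠ q j) →
    (∀ (X : Finset V) (J : Finset (Fin m)), (∀ j ∈ J, ¬ (p j ∈ X ↔ q j ∈ X)) →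
      J.card ≤ dd G X) →
    ∀ w : V → V → ℝ, Smear G j₀ (univ.image p ∪ univ.image q) w →
    ∃ ε : Fin m → ℤ, (∀ j, ε j = 1 ∨ ε j = -1) ∧
      (∀ ξ i A, A ⊆ pre (c ξ) (S i) → Clo (c ξ) A →
        |∑ v ∈ A, sw w p q ε v| ≤ b * dd G A + hv (S i) K A) ∧
      (∀ ξ A, A ⊆ pre (c ξ) (univ.biUnion S)ᶜ → Clo (c ξ) A →
        |∑ v ∈ A, sw w p q ε v| ≤ b * dd G A) ∧
      ∀ ξ R, Region S R → ∀ A, A ⊆ pre (c ξ) R → Clo (c ξ) A →
        |∑ v ∈ A, sw w p q ε v| ≤ b * dd G A + K := by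
  obtain ⟨C₀, K, hK, h⟩ := region_signs_g (b := b / 2) (by linarith) (by linarith) hτ ρ s j₀
    (by
      refine hs.trans (le_of_eq ?_)
      ring) (by linarith)
  refine ⟨C₀, K, hK, fun C hC => ?_⟩
  obtain ⟨k₀, hk₀⟩ := h C hC
  refine ⟨k₀, 36 * 2 ^ ρ, ?_⟩
  intro N k κ δ hN hk V _ _ G _ h3 hbr r S hS hF Ξ _ hΞ c hc1 hc2 hc3 m p q hp hq hpq hJ w hw
  obtain ⟨ε, hε, hA⟩ := hk₀ N k hN hk G h3 hbr S hS.disj hF.base.bdry hF.base.light hF.small Ξ
    hΞ c hc1 hc2 hc3 m p q hp hq hpq hJ w hw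
  have e : 2 * (b / 2) = b := by ring
  rw [e] at hA
  have hfl : ∀ ξ j, 12 * (univ.filter fun v => ¬ (v ∈ S j ↔ c ξ v ∈ S j)).card ≤ (S j).card :=
    fun ξ j => RSG.flip_le h3 hN hF.base.bdry (hc3 ξ) j
  refine ⟨ε, hε, fun ξ i A h1 h2 => ?_, fun ξ A h1 h2 => ?_, fun ξ R hR A h1 h2 =>
    (hA ξ R hR A h1 h2).1⟩
  · by_cases hP : 2 * (S i).card < 3 * (A ∩ S i).card
    · rw [hv_of hP]
      exact (hA ξ (S i) (Or.inl ⟨i, rfl⟩) A h1 h2).1
    · rw [hv_not hP, add_zero]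
      refine (hA ξ (S i) (Or.inl ⟨i, rfl⟩) A h1 h2).2 fun j => ?_
      by_cases hj : S i = S j
      · rw [← hj]
        omega
      · have := RSG.other_small hS.disj (hfl ξ) (Or.inl ⟨i, rfl⟩) h1 j hj
        omega
  · refine (hA ξ _ (Or.inr rfl) A h1 h2).2 fun j => ?_
    have hj : (univ.biUnion S)ᶜ ≠ S j := by
      intro hj
      obtain ⟨x, hx⟩ := hS.ne j
      have h4 : x ∈ (univ.biUnion S)ᶜ := by
        rw [hj]
        exact hx
      exact (mem_compl.1 h4) (mem_biUnion.2 ⟨j, mem_univ _, hx⟩)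
    have := RSG.other_small hS.disj (hfl ξ) (Or.inr rfl) h1 j hj
    omega

end Pool.Agent.K5
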