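import Mathlib
import Pool.Agent.Work.MP_974d84_co_k5.Defs5
import Pool.Agent.Work.MP_974d84_co_iso.Tools

/-!
# Averaging over the partitions, region by region
-/

set_option linter.unusedSectionVars false

namespace Pool.Agent.K5

open Finset SimpleGraph Pool.Agent.Exp Pool.Agent.Log5 Pool.Agent.Log5.Clu

/-- M14, file Average.lean -/
theorem average_all {V : Type} [Fintype V] [DecidableEq V] {G : SimpleGraph V}
    [DecidableRel G.Adj] (h3 : ∀ v, G.degree v = 3) {Ξ : Type} [Fintype Ξ] [Nonempty Ξ]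
    (c : Ξ → V → V) {B b δ : ℝ} (hb0 : 0 ≤ b) (hδ : 0 ≤ δ)
    (hB : ∀ X : Finset V, ∑ ξ, ((univ.filter fun v => ¬ (v ∈ X ↔ c ξ v ∈ X)).card : ℝ) ≤
      B * dd G X * Fintype.card Ξ) {σ : V → ℝ} (hσ : ∀ v, |σ v| ≤ δ) {r : ℕ}
    (S : Fin r → Finset V)
    (hreg : ∀ ξ R, Region S R → ∀ A, A ⊆ pre (c ξ) R → Clo (c ξ) A →
      |∑ v ∈ A, σ v| ≤ b * dd G A) :
    ∃ σ' : V → ℝ, ∑ v, σ' v = ∑ v, σ v ∧
      (∀ X : Finset V, |∑ v ∈ X, σ' v - ∑ v ∈ X, σ v| ≤ δ * B * dd G X) ∧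
      (∀ R, Region S R → ∀ X ⊆ R, |∑ v ∈ X, σ' v| ≤ b * (1 + 3 * B) * dd G X) := by
  classical
  have hΞ : (0 : ℝ) < Fintype.card Ξ := by exact_mod_cast Fintype.card_pos
  have hΞ0 : (Fintype.card Ξ : ℝ) ≠ 0 := hΞ.ne'
  set n : ℝ := (Fintype.card Ξ : ℝ) with hn
  -- the sum over a set
  have hsum : ∀ X : Finset V, ∑ v ∈ X, (1 / n * ∑ ξ, ∑ u ∈ univ.filter (fun u => c ξ u = v), σ u)
      = 1 / n * ∑ ξ, ∑ u ∈ univ.filter (fun u => c ξ u ∈ X), σ u := by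
    intro X
    rw [← mul_sum, sum_comm]
    congr 1
    refine sum_congr rfl fun ξ _ => ?_
    rw [← sum_fiberwise_of_maps_to (s := univ.filter (fun u => c ξ u ∈ X)) (t := X) (g := c ξ)
      (fun u hu => (mem_filter.1 hu).2)]
    refine sum_congr rfl fun v hv => ?_
    refine sum_congr ?_ fun _ _ => rfl
    ext u
    simp only [mem_filter, mem_univ, true_and]
    constructor
    · intro h; exact ⟨by rw [h]; exact hv, h⟩
    · intro h; exact h.2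
  have havg : ∀ (F : Ξ → ℝ) (K : ℝ), (∑ ξ, |F ξ| ≤ n * K) → |1 / n * ∑ ξ, F ξ| ≤ K := by
    intro F K h
    rw [abs_mul, abs_of_pos (by positivity : (0 : ℝ) < 1 / n), one_div, inv_mul_le_iff₀ hΞ]
    exact (abs_sum_le_sum_abs _ _).trans h
  refine ⟨fun v => 1 / n * ∑ ξ, ∑ u ∈ univ.filter (fun u => c ξ u = v), σ u, ?_, ?_, ?_⟩
  · rw [hsum univ]
    have h1 : ∀ ξ, ∑ u ∈ univ.filter (fun u => c ξ u ∈ (univ : Finset V)), σ u = ∑ u, σ u := by
      intro ξ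
      refine sum_congr ?_ fun _ _ => rfl
      ext u; simp
    simp only [h1]
    rw [sum_const, card_univ, nsmul_eq_mul, ← hn]
    field_simp
  · intro X
    rw [hsum X]
    have h1 : 1 / n * ∑ ξ, ∑ u ∈ univ.filter (fun u => c ξ u ∈ X), σ u - ∑ v ∈ X, σ v =
        1 / n * ∑ ξ, (∑ u ∈ univ.filter (fun u => c ξ u ∈ X), σ u - ∑ v ∈ X, σ v) := by
      rw [sum_sub_distrib, sum_const, card_univ, nsmul_eq_mul, ← hn]
      field_simp
    rw [h1]
    apply havg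
    have h2 : ∀ ξ, |∑ u ∈ univ.filter (fun u => c ξ u ∈ X), σ u - ∑ v ∈ X, σ v| ≤
        δ * ((univ.filter fun v => ¬ (v ∈ X ↔ c ξ v ∈ X)).card : ℝ) := by
      intro ξ
      have e1 : ∑ u ∈ univ.filter (fun u => c ξ u ∈ X), σ u =
          ∑ u, if c ξ u ∈ X then σ u else 0 := by rw [sum_filter]
      have e2 : ∑ v ∈ X, σ v = ∑ u, if u ∈ X then σ u else 0 := by
        rw [← sum_filter]
        refine sum_congr ?_ fun _ _ => rfl
        ext u; simp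
      rw [e1, e2, ← sum_sub_distrib]
      refine (abs_sum_le_sum_abs _ _).trans ?_
      have e3 : δ * ((univ.filter fun v => ¬ (v ∈ X ↔ c ξ v ∈ X)).card : ℝ) =
          ∑ v, if ¬ (v ∈ X ↔ c ξ v ∈ X) then δ else 0 := by
        rw [← sum_filter, sum_const, nsmul_eq_mul, mul_comm]
      rw [e3]
      refine sum_le_sum fun v _ => ?_
      by_cases a1 : v ∈ X <;> by_cases a2 : c ξ v ∈ X <;> simp [a1, a2, hσ v]
    calc ∑ ξ, |∑ u ∈ univ.filter (fun u => c ξ u ∈ X), σ u - ∑ v ∈ X, σ v|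
        ≤ ∑ ξ, δ * ((univ.filter fun v => ¬ (v ∈ X ↔ c ξ v ∈ X)).card : ℝ) :=
          sum_le_sum fun ξ _ => h2 ξ
      _ = δ * ∑ ξ, ((univ.filter fun v => ¬ (v ∈ X ↔ c ξ v ∈ X)).card : ℝ) := by rw [mul_sum]
      _ ≤ δ * (B * dd G X * n) := mul_le_mul_of_nonneg_left (hB X) hδ
      _ = n * (δ * B * dd G X) := by ring
  · intro R hR X hX
    rw [hsum X]
    apply havg
    have h2 : ∀ ξ, |∑ u ∈ univ.filter (fun u => c ξ u ∈ X), σ u| ≤
        b * dd G X + 3 * b * ((univ.filter fun v => ¬ (v ∈ X ↔ c ξ v ∈ X)).card : ℝ) := by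
      intro ξ
      have e1 := hreg ξ R hR (univ.filter (fun u => c ξ u ∈ X))
        (fun u hu => mem_filter.2 ⟨mem_univ _, hX (mem_filter.1 hu).2⟩)
        (fun x y hxy => by simp [hxy])
      have e2 : (dd G (univ.filter (fun u => c ξ u ∈ X)) : ℝ) ≤ dd G X +
          3 * ((univ.filter fun v => ¬ (v ∈ X ↔ c ξ v ∈ X)).card : ℝ) := by
        have := Pool.Agent.Iso5.dd_le_symmDiff h3 X (univ.filter (fun u => c ξ u ∈ X))
        simp only [mem_filter, mem_univ, true_and] at this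
        exact_mod_cast this
      have e3 := mul_le_mul_of_nonneg_left e2 hb0
      linarith
    calc ∑ ξ, |∑ u ∈ univ.filter (fun u => c ξ u ∈ X), σ u|
        ≤ ∑ ξ, (b * dd G X + 3 * b *
          ((univ.filter fun v => ¬ (v ∈ X ↔ c ξ v ∈ X)).card : ℝ)) := sum_le_sum fun ξ _ => h2 ξ
      _ = n * (b * dd G X) + 3 * b *
          ∑ ξ, ((univ.filter fun v => ¬ (v ∈ X ↔ c ξ v ∈ X)).card : ℝ) := by
          rw [sum_add_distrib, sum_const, card_univ, nsmul_eq_mul, ← mul_sum, ← hn]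
      _ ≤ n * (b * dd G X) + 3 * b * (B * dd G X * n) :=
          add_le_add_right (mul_le_mul_of_nonneg_left (hB X) (by linarith)) _
      _ = n * (b * (1 + 3 * B) * dd G X) := by ring

/-- M14, second form: every part of a region is bounded. -/
theorem average_region {V : Type} [Fintype V] [DecidableEq V] {G : SimpleGraph V}
    [DecidableRel G.Adj] (h3 : ∀ v, G.degree v = 3) {Ξ : Type} [Fintype Ξ] [Nonempty Ξ]
    (c : Ξ → V → V) {B b δ : ℝ} (hb0 : 0 ≤ b) (hδ : 0 ≤ δ)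
    (hB : ∀ X : Finset V, ∑ ξ, ((univ.filter fun v => ¬ (v ∈ X ↔ c ξ v ∈ X)).card : ℝ) ≤
      B * dd G X * Fintype.card Ξ) {σ : V → ℝ} (hσ : ∀ v, |σ v| ≤ δ) {r : ℕ}
    (S : Fin r → Finset V)
    (hreg : ∀ ξ R, Region S R → ∀ A, A ⊆ pre (c ξ) R → Clo (c ξ) A →
      |∑ v ∈ A, σ v| ≤ b * dd G A) :
    ∀ R, Region S R → ∀ X ⊆ R, |∑ v ∈ X, σ v| ≤ (b * (1 + 3 * B) + δ * B) * dd G X := by
  obtain ⟨σ', -, h1, h2⟩ := average_all h3 c hb0 hδ hB hσ S hreg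
  intro R hR X hX
  have h3' := h1 X
  have h4 := h2 R hR X hX
  have h5 : |∑ v ∈ X, σ v| ≤ |∑ v ∈ X, σ' v - ∑ v ∈ X, σ v| + |∑ v ∈ X, σ' v| := by
    rw [abs_sub_comm]
    have := abs_add_le (∑ v ∈ X, σ v - ∑ v ∈ X, σ' v) (∑ v ∈ X, σ' v)
    rwa [sub_add_cancel] at this
  linarith

end Pool.Agent.K5
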