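import Mathlib

/-!
# The parameters of the construction
-/

set_option linter.unusedVariables false

namespace Pool.Agent.K5

open Filter Topology

/-- M15. The parameters can be chosen. -/
theorem params {b' : ℝ} (hb' : 0 < b') : ∃ (ρ m s : ℕ) (b τ : ℝ), 4 * ρ ≤ 2 ^ m ∧
    8 * s + 4 * m + 7 ≤ ρ ∧ 0 < b ∧ b ≤ 1 ∧ 0 < τ ∧
    b * (1 + 3 * (9 * ρ * 2 ^ (m + 1))) ≤ b' ∧
    8 / Real.sqrt ((2 ^ s : ℕ) : ℝ) + τ ≤ b ^ 2 / 16 := by
  set c : ℝ := min b' 1 with hc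
  have hc0 : 0 < c := lt_min hb' one_pos
  have hc1 : c ≤ 1 := min_le_right _ _
  have hcb : c ≤ b' := min_le_left _ _
  have ht := tendsto_pow_const_div_const_pow_of_one_lt (r := (2 : ℝ)) 4 (by norm_num)
  have hε : (0 : ℝ) < c ^ 2 / 2 ^ 44 := by positivity
  obtain ⟨N, hN⟩ := eventually_atTop.1 (ht.eventually (gt_mem_nhds hε))
  set n : ℕ := max N 3 with hn
  have hn3 : 3 ≤ n := le_max_right _ _
  set M : ℕ := 2 ^ n with hM
  have hMn : n < M := Nat.lt_two_pow_self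
  have hMN : N ≤ M := by
    have : N ≤ n := le_max_left _ _
    omega
  have hM1 : (1 : ℝ) ≤ M := by
    have : 1 ≤ M := by omega
    exact_mod_cast this
  have hM0 : (0 : ℝ) < M := by linarith
  have hlin : ∀ j : ℕ, 3 ≤ j → 16 * j + 140 ≤ 64 * 2 ^ j := by
    intro j hj
    induction j, hj using Nat.le_induction with
    | base => norm_num
    | succ j hj ih =>
      have : 2 ^ (j + 1) = 2 * 2 ^ j := by ring
      have h8 : 1 ≤ 2 ^ j := Nat.one_le_two_pow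
      omega
  have hl := hlin n hn3
  have hkey := hN M hMN
  rw [div_lt_div_iff₀ (by positivity) (by positivity)] at hkey
  refine ⟨16 * M + 4 * n + 35, n + 7, 2 * M, c / (2 ^ 18 * (M : ℝ) ^ 2),
    (c / (2 ^ 18 * (M : ℝ) ^ 2)) ^ 2 / 32, ?_, ?_, ?_, ?_, ?_, ?_, ?_⟩
  · have : 2 ^ (n + 7) = 128 * 2 ^ n := by ring
    rw [this]
    omega
  · omega
  · positivity
  · rw [div_le_one (by positivity)]
    nlinarith
  · positivity
  · have hρ : ((16 * M + 4 * n + 35 : ℕ) : ℝ) ≤ 32 * M := by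
      have : 16 * M + 4 * n + 35 ≤ 32 * M := by omega
      exact_mod_cast this
    have h2 : (2 : ℝ) ^ (n + 7 + 1) = 256 * M := by
      rw [hM]; push_cast; ring
    rw [h2]
    have h3 : 1 + 3 * (9 * ((16 * M + 4 * n + 35 : ℕ) : ℝ) * (256 * M)) ≤ 2 ^ 18 * (M : ℝ) ^ 2 := by
      have h4 : ((16 * M + 4 * n + 35 : ℕ) : ℝ) * (256 * M) ≤ 32 * M * (256 * M) :=
        mul_le_mul_of_nonneg_right hρ (by positivity)
      nlinarith
    calc c / (2 ^ 18 * (M : ℝ) ^ 2) * (1 + 3 * (9 * ((16 * M + 4 * n + 35 : ℕ) : ℝ) * (256 * M)))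
        ≤ c / (2 ^ 18 * (M : ℝ) ^ 2) * (2 ^ 18 * (M : ℝ) ^ 2) :=
          mul_le_mul_of_nonneg_left h3 (by positivity)
      _ = c := by field_simp
      _ ≤ b' := hcb
  · have h1 : Real.sqrt ((2 ^ (2 * M) : ℕ) : ℝ) = 2 ^ M := by
      push_cast
      rw [mul_comm, pow_mul, Real.sqrt_sq (by positivity)]
    rw [h1]
    have h2 : 8 / (2 : ℝ) ^ M ≤ (c / (2 ^ 18 * (M : ℝ) ^ 2)) ^ 2 / 32 := by
      rw [div_pow, div_div, div_le_div_iff₀ (by positivity) (by positivity)]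
      have : 8 * ((2 ^ 18 * (M : ℝ) ^ 2) ^ 2 * 32) = (M : ℝ) ^ 4 * 2 ^ 44 := by ring
      rw [this]
      exact hkey.le
    linarith

end Pool.Agent.K5
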