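import Mathlib
import Pool.Agent.Work.MP_974d84_co_log.Girth
import Pool.Agent.Work.MP_974d84_co_k5.Defs5

/-!
# Non-backtracking dispersal from a vertex, exact form
-/

set_option linter.unusedSectionVars false

namespace Pool.Agent.K5

open Finset SimpleGraph Pool.Agent.Exp Pool.Agent.Log5 Pool.Agent.Log5.Clu

variable {V : Type} [Fintype V] [DecidableEq V] {G : SimpleGraph V} [DecidableRel G.Adj]

theorem nbm_mono {A B : Finset V} (h : A ⊆ B) (x : V) : nb G A x ≤ nb G B x := by
  unfold nb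
  exact card_le_card (filter_subset_filter _ h)

/-- Attaching vertices to a set with few leaving edges. -/
theorem grow_dd' (h3 : ∀ v, G.degree v = 3) {A : Finset V} (hA : dd G A ≤ A.card + 2)
    (S : Finset V) (hS : ∀ x ∈ S, x ∉ A ∧ 1 ≤ nb G A x) : dd G (A ∪ S) ≤ (A ∪ S).card + 2 := by
  induction S using Finset.induction_on with
  | empty => simpa using hA
  | insert x S hx ih =>
    have h1 := ih (fun y hy => hS y (mem_insert_of_mem hy))
    obtain ⟨h2, h4⟩ := hS x (mem_insert_self _ _)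
    have h5 : x ∉ A ∪ S := by rw [mem_union]; tauto
    rw [union_insert, card_insert_of_notMem h5]
    have h6 := dd_insert h3 h5
    have h7 := nbm_mono (G := G) (subset_union_left : A ⊆ A ∪ S) x
    omega

theorem nb_pos_sphere' {j : ℕ} {t x : V} (h1 : x ∈ Bl G.Adj (j + 1) t)
    (h2 : x ∉ Bl G.Adj j t) : 1 ≤ nb G (Bl G.Adj j t) x := by
  rw [mem_Bl_succ] at h1
  rcases h1 with h1 | ⟨u, hu, hux⟩
  · exact absurd h1 h2
  · unfold nb
    exact card_pos.2 ⟨u, mem_filter.2 ⟨hu, hux.symm⟩⟩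

theorem ball_dd' (h3 : ∀ v, G.degree v = 3) (t : V) (j : ℕ) :
    dd G (Bl G.Adj j t) ≤ (Bl G.Adj j t).card + 2 := by
  induction j with
  | zero =>
    have h1 := dd_sum h3 ({t} : Finset V)
    have h2 : Bl G.Adj 0 t = {t} := rfl
    rw [h2, card_singleton] at *
    omega
  | succ j ih =>
    have h := grow_dd' h3 ih (Bl G.Adj (j + 1) t \ Bl G.Adj j t) (fun x hx => by
      rw [mem_sdiff] at hx
      exact ⟨hx.2, nb_pos_sphere' hx.1 hx.2⟩)
    rwa [union_sdiff_of_subset (Bl_mono (Nat.le_succ j) t)] at h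

theorem nb_ball_le' (h3 : ∀ v, G.degree v = 3) {k : ℕ} (hg : Gir G k) {t : V} {j : ℕ}
    (hk : (Bl G.Adj j t).card + 1 < k) {x : V} (hx : x ∉ Bl G.Adj j t) :
    nb G (Bl G.Adj j t) x ≤ 1 := by
  have h1 := dd_insert h3 hx
  have h2 := dd_of_acyclic G h3 (S := insert x (Bl G.Adj j t)) (insert_nonempty _ _)
    (hg _ (by rw [card_insert_of_notMem hx]; exact hk))
  rw [card_insert_of_notMem hx] at h2
  have h4 := ball_dd' h3 t j
  omega

theorem nb_sphere' (h3 : ∀ v, G.degree v = 3) {k : ℕ} (hg : Gir G k) {t v : V} {j : ℕ}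
    (hk : (Bl G.Adj (j + 1) t).card < k) (hv : v ∈ Bl G.Adj (j + 1) t)
    (hv' : v ∉ Bl G.Adj j t) : nb G (Bl G.Adj (j + 1) t)ᶜ v = 2 := by
  have hAB : Bl G.Adj j t ⊆ Bl G.Adj (j + 1) t := Bl_mono (Nat.le_succ j) t
  have hS : ∀ x ∈ (Bl G.Adj (j + 1) t \ Bl G.Adj j t).erase v,
      x ∉ Bl G.Adj j t ∧ 1 ≤ nb G (Bl G.Adj j t) x := by
    intro x hx
    rw [mem_erase, mem_sdiff] at hx
    exact ⟨hx.2.2, nb_pos_sphere' hx.2.1 hx.2.2⟩
  have h1 := grow_dd' h3 (ball_dd' h3 t j) _ hS
  have h2 : Bl G.Adj j t ∪ (Bl G.Adj (j + 1) t \ Bl G.Adj j t).erase v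
      = (Bl G.Adj (j + 1) t).erase v := by
    ext x
    rw [mem_union, mem_erase, mem_erase, mem_sdiff]
    constructor
    · rintro (h | h)
      · exact ⟨fun he => hv' (he ▸ h), hAB h⟩
      · exact ⟨h.1, h.2.1⟩
    · rintro ⟨h, h'⟩
      by_cases hx : x ∈ Bl G.Adj j t
      · exact Or.inl hx
      · exact Or.inr ⟨h, h', hx⟩
  rw [h2] at h1
  have h4 := dd_insert h3 (notMem_erase v (Bl G.Adj (j + 1) t))
  rw [insert_erase hv] at h4
  have h5 := dd_of_acyclic G h3 ⟨v, hv⟩ (hg _ hk)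
  have h6 := card_erase_of_mem hv
  have h7 := nb_pos_sphere' hv hv'
  have h8 : nb G (Bl G.Adj j t) v ≤ nb G ((Bl G.Adj (j + 1) t).erase v) v :=
    nbm_mono (fun x hx => mem_erase.2 ⟨fun he => hv' (by rw [← he]; exact hx), hAB hx⟩) v
  have h9 := nb_erase_self (G := G) (S := Bl G.Adj (j + 1) t) (x := v)
  have h10 := nb_add h3 (Bl G.Adj (j + 1) t) v
  have h11 : 0 < (Bl G.Adj (j + 1) t).card := card_pos.2 ⟨v, hv⟩
  omega

theorem smear_aux' (h3 : ∀ v, G.degree v = 3) {k : ℕ} (hg : Gir G k) (t : V)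
    (H : SimpleGraph V) (hH : H ≤ G) (hHt : (H.neighborSet t).ncard = 1) (j : ℕ)
    (hk : (Bl G.Adj (j + 1) t).card + 1 < k) :
    ∃ (φ : V → V → ℝ) (w : V → ℝ), (∀ u v, φ u v = - φ v u) ∧
      (∀ u v, φ u v ≠ 0 → G.Adj u v ∧ u ∈ Bl G.Adj (j + 1) t ∧ v ∈ Bl G.Adj (j + 1) t) ∧
      (∀ u v, |φ u v| ≤ 2 / 5) ∧ (∀ u v, H.Adj u v → |φ u v| ≤ 1 / 5) ∧
      (∀ v, 0 ≤ w v) ∧ (∀ v, w v ≤ 4 / 5 / 2 ^ (j + 1)) ∧
      (∀ v, w v ≠ 0 → v ∈ Bl G.Adj (j + 1) t ∧ v ∉ Bl G.Adj j t) ∧
      (∀ u, u ≠ t → ¬ (G.Adj t u ∧ ¬ H.Adj t u) → w u ≤ 1 / 5) ∧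
      (∀ u v, u ≠ t → ¬ (G.Adj t u ∧ ¬ H.Adj t u) → v ≠ t → ¬ (G.Adj t v ∧ ¬ H.Adj t v) →
        |φ u v| ≤ 1 / 10) ∧
      ∀ v, ∑ u, φ v u = (if v = t then 1 else 0) - w v := by
  classical
  induction j with
  | zero =>
    let w : V → ℝ := fun v => if G.Adj t v then (if H.Adj t v then 1 / 5 else 2 / 5) else 0
    have hw0 : ∀ v, 0 ≤ w v := by
      intro v; simp only [w]; split_ifs <;> norm_num
    have hw1 : ∀ v, w v ≤ 2 / 5 := by
      intro v; simp only [w]; split_ifs <;> norm_num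
    have hwt : w t = 0 := by simp [w]
    have hwa : ∀ v, w v ≠ 0 → G.Adj t v := by
      intro v hv
      by_contra h
      exact hv (by simp [w, h])
    have hwH : ∀ v, H.Adj t v → w v = 1 / 5 := by
      intro v hv
      simp [w, hv, hH hv]
    have hsum : ∑ v, w v = 1 := by
      have h1 : ∀ v, w v = 2 / 5 * (if G.Adj t v then 1 else 0) -
          1 / 5 * (if H.Adj t v then 1 else 0) := by
        intro v
        by_cases h : H.Adj t v
        · have := hH h
          simp only [w, h, this, if_true]; norm_num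
        · by_cases h' : G.Adj t v
          · simp [w, h, h']
          · simp [w, h, h']
      rw [sum_congr rfl fun v _ => h1 v, sum_sub_distrib, ← mul_sum, ← mul_sum, sum_boole,
        sum_boole]
      have h2 : (univ.filter fun v => G.Adj t v).card = 3 := by
        rw [← h3 t, ← card_neighborFinset_eq_degree]
        congr 1
        ext v; simp
      have h4 : (univ.filter fun v => H.Adj t v).card = 1 := by
        rw [← hHt, ← Set.ncard_coe_finset]
        congr 1
        ext v; simp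
      rw [h2, h4]
      norm_num
    have hb1 : ∀ v, G.Adj t v → v ∈ Bl G.Adj (0 + 1) t := fun v hv =>
      mem_Bl_succ.2 (Or.inr ⟨t, mem_Bl_zero.2 rfl, hv⟩)
    have htb : t ∈ Bl G.Adj (0 + 1) t := Bl_self _ _
    refine ⟨fun u v => (if u = t then w v else 0) - (if v = t then w u else 0), w,
      fun u v => by ring, ?_, ?_, ?_, hw0, fun v => (hw1 v).trans (by norm_num), ?_, ?_, ?_, ?_⟩
    · intro u v h
      by_cases hu : u = t
      · by_cases hv : v = t
        · exfalso; apply h; simp [hu, hv]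
        · have : w v ≠ 0 := by
            intro h0; apply h; simp [hu, hv, h0]
          have := hwa v this
          rw [hu]
          exact ⟨this, htb, hb1 v this⟩
      · by_cases hv : v = t
        · have : w u ≠ 0 := by
            intro h0; apply h; simp [hu, hv, h0]
          have := hwa u this
          rw [hv]
          exact ⟨this.symm, hb1 u this, htb⟩
        · exfalso; apply h; simp [hu, hv]
    · intro u v
      by_cases hu : u = t <;> by_cases hv : v = t
      · simp only [hu, hv, if_true, sub_self, abs_zero]; norm_num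
      · simp only [hu, hv, if_true, if_false, sub_zero]
        rw [abs_of_nonneg (hw0 v)]; exact hw1 v
      · simp only [hu, hv, if_true, if_false, zero_sub, abs_neg]
        rw [abs_of_nonneg (hw0 u)]; exact hw1 u
      · simp only [hu, hv, if_false, sub_zero, abs_zero]; norm_num
    · intro u v huv
      by_cases hu : u = t <;> by_cases hv : v = t
      · exfalso; rw [hu, hv] at huv; exact H.irrefl huv
      · simp only [hu, hv, if_true, if_false, sub_zero]
        rw [hu] at huv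
        rw [abs_of_nonneg (hw0 v), hwH v huv]
      · simp only [hu, hv, if_true, if_false, zero_sub, abs_neg]
        rw [hv] at huv
        rw [abs_of_nonneg (hw0 u), hwH u huv.symm]
      · simp only [hu, hv, if_false, sub_zero, abs_zero]; norm_num
    · intro v hv
      have := hwa v hv
      refine ⟨hb1 v this, fun h => ?_⟩
      rw [mem_Bl_zero] at h
      rw [h] at this
      exact G.irrefl this
    · intro u _ hu
      by_cases h : G.Adj t u
      · have hHu : H.Adj t u := by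
          by_contra h'
          exact hu ⟨h, h'⟩
        rw [hwH u hHu]
      · have : w u = 0 := by simp [w, h]
        rw [this]; norm_num
    · intro u v hu _ hv _
      simp only [hu, hv, if_false, sub_zero, abs_zero]; norm_num
    · intro v
      rw [sum_sub_distrib]
      have e2 : ∑ u, (if u = t then w v else 0) = w v := by simp
      rw [e2]
      by_cases hv : v = t
      · simp only [hv, if_true, hsum]
      · simp only [hv, if_false, sum_const_zero]
  | succ j ih =>
    have hsub : Bl G.Adj (j + 1) t ⊆ Bl G.Adj (j + 1 + 1) t := Bl_mono (Nat.le_succ _) t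
    have hk' : (Bl G.Adj (j + 1) t).card + 1 < k := lt_of_le_of_lt (by
      have := card_le_card hsub
      omega) hk
    obtain ⟨φ, w, e1, e2, e3, e4, e5, e6, e7, e9, e10, e8⟩ := ih hk'
    set A := Bl G.Adj (j + 1) t with hA
    let ψ : V → V → ℝ := fun u v => if G.Adj u v ∧ u ∈ A ∧ v ∉ A then w u / 2 else 0
    have hψ0 : ∀ u v, 0 ≤ ψ u v := by
      intro u v; simp only [ψ]; split_ifs
      · have := e5 u; linarith
      · exact le_rfl
    have hpow : (0 : ℝ) < 2 ^ (j + 1) := by positivity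
    have hpow2 : (2 : ℝ) ^ (j + 1 + 1) = 2 * 2 ^ (j + 1) := by ring
    have hpow1 : (2 : ℝ) ≤ 2 ^ (j + 1) := by
      calc (2 : ℝ) = 2 ^ 1 := by norm_num
        _ ≤ 2 ^ (j + 1) := pow_le_pow_right₀ (by norm_num) (by omega)
    have hψ1 : ∀ u v, ψ u v ≤ 4 / 5 / 2 ^ (j + 1 + 1) := by
      intro u v; simp only [ψ]; split_ifs
      · have := e6 u
        rw [hpow2, mul_comm, ← div_div]
        linarith
      · positivity
    have hψ2 : ∀ u v, ψ u v ≤ 1 / 5 := by
      intro u v
      refine (hψ1 u v).trans ?_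
      rw [hpow2, div_le_iff₀ (by positivity)]
      linarith
    have hψn : ∀ u v, ψ u v ≠ 0 → G.Adj u v ∧ u ∈ A ∧ v ∉ A := by
      intro u v h
      by_contra h'
      exact h (by simp only [ψ, if_neg h'])
    have hφin : ∀ u v, v ∉ A → φ u v = 0 := by
      intro u v hv
      by_contra h
      exact hv (e2 u v h).2.2
    have hφin' : ∀ u v, u ∉ A → φ u v = 0 := by
      intro u v hv
      by_contra h
      exact hv (e2 u v h).2.1
    have hcase : ∀ u v, φ u v + ψ u v - ψ v u = φ u v ∨ φ u v + ψ u v - ψ v u = ψ u v ∨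
        φ u v + ψ u v - ψ v u = - ψ v u := by
      intro u v
      by_cases h1 : ψ u v = 0
      · by_cases h2 : ψ v u = 0
        · left; rw [h1, h2]; ring
        · right; right
          obtain ⟨-, h4, h5⟩ := hψn v u h2
          rw [h1, hφin' u v h5]; ring
      · obtain ⟨-, h4, h5⟩ := hψn u v h1
        right; left
        have h2 : ψ v u = 0 := by
          by_contra h2
          exact h5 (hψn v u h2).2.1
        rw [h2, hφin u v h5]; ring
    have hout : ∀ v, ∑ u, ψ v u = w v := by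
      intro v
      by_cases hv : w v = 0
      · rw [hv]
        refine sum_eq_zero fun u _ => ?_
        simp only [ψ, hv, zero_div, ite_self]
      · obtain ⟨h1, h2⟩ := e7 v hv
        have h4 := nb_sphere' h3 hg (lt_of_lt_of_le (Nat.lt_succ_self _) hk'.le) h1 h2
        have h5 : ∀ u, ψ v u = if u ∈ Aᶜ.filter (fun x => G.Adj v x) then w v / 2 else 0 := by
          intro u
          simp only [ψ, mem_filter, mem_compl]
          refine if_congr ?_ rfl rfl
          rw [hA] at *
          tauto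
        rw [sum_congr rfl fun u _ => h5 u, sum_ite_mem, univ_inter, sum_const]
        unfold nb at h4
        rw [h4]
        simp only [nsmul_eq_mul, Nat.cast_ofNat]
        ring
    have hw' : ∀ v, ∑ u, ψ u v ≤ 4 / 5 / 2 ^ (j + 1 + 1) := by
      intro v
      by_cases hv : v ∈ A
      · rw [sum_eq_zero fun u _ => ?_]
        · positivity
        · by_contra h
          exact (hψn u v h).2.2 hv
      · have h1 := nb_ball_le' h3 hg hk' hv
        have h2 : ∑ u, ψ u v ≤ ∑ u ∈ A.filter (fun x => G.Adj v x), 4 / 5 / 2 ^ (j + 1 + 1) := by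
          rw [← sum_subset (subset_univ (A.filter (fun x => G.Adj v x)))]
          · exact sum_le_sum fun u _ => hψ1 u v
          · intro u _ hu
            by_contra h
            obtain ⟨a1, a2, a3⟩ := hψn u v h
            exact hu (mem_filter.2 ⟨a2, a1.symm⟩)
        refine h2.trans ?_
        rw [sum_const, nsmul_eq_mul]
        unfold nb at h1
        have h4 : (((A.filter fun x => G.Adj v x).card : ℕ) : ℝ) ≤ 1 := by exact_mod_cast h1
        have h5 : (0 : ℝ) ≤ 4 / 5 / 2 ^ (j + 1 + 1) := by positivity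
        nlinarith
    refine ⟨fun u v => φ u v + ψ u v - ψ v u, fun v => ∑ u, ψ u v, ?_, ?_, ?_, ?_, ?_, hw', ?_,
      ?_, ?_, ?_⟩
    · intro u v
      simp only
      rw [e1 u v]; ring
    · intro u v h
      simp only at h
      by_cases h1 : φ u v = 0
      · by_cases h2 : ψ u v = 0
        · have h4 : ψ v u ≠ 0 := by
            intro h5; rw [h1, h2, h5] at h; simp at h
          obtain ⟨a1, a2, a3⟩ := hψn v u h4
          exact ⟨a1.symm, mem_Bl_succ.2 (Or.inr ⟨v, a2, a1⟩), hsub a2⟩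
        · obtain ⟨a1, a2, a3⟩ := hψn u v h2
          exact ⟨a1, hsub a2, mem_Bl_succ.2 (Or.inr ⟨u, a2, a1⟩)⟩
      · obtain ⟨a1, a2, a3⟩ := e2 u v h1
        exact ⟨a1, hsub a2, hsub a3⟩
    · intro u v
      simp only
      rcases hcase u v with h | h | h
      · rw [h]; exact e3 u v
      · rw [h, abs_of_nonneg (hψ0 u v)]
        exact (hψ2 u v).trans (by norm_num)
      · rw [h, abs_neg, abs_of_nonneg (hψ0 v u)]
        exact (hψ2 v u).trans (by norm_num)
    · intro u v huv
      simp only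
      rcases hcase u v with h | h | h
      · rw [h]; exact e4 u v huv
      · rw [h, abs_of_nonneg (hψ0 u v)]
        exact hψ2 u v
      · rw [h, abs_neg, abs_of_nonneg (hψ0 v u)]
        exact hψ2 v u
    · intro v
      exact sum_nonneg fun u _ => hψ0 u v
    · intro v hv
      have h1 : ∃ u, ψ u v ≠ 0 := by
        by_contra h
        push Not at h
        exact hv (sum_eq_zero fun u _ => h u)
      obtain ⟨u, hu⟩ := h1
      obtain ⟨a1, a2, a3⟩ := hψn u v hu
      exact ⟨mem_Bl_succ.2 (Or.inr ⟨u, a2, a1⟩), a3⟩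
    · intro u _ _
      refine (hw' u).trans ?_
      rw [hpow2, div_le_iff₀ (by positivity)]
      linarith
    · intro u v hu1 hu2 hv1 hv2
      simp only
      have hψ3 : ∀ a b, a ≠ t → ¬ (G.Adj t a ∧ ¬ H.Adj t a) → ψ a b ≤ 1 / 10 := by
        intro a b ha1 ha2
        have h1 := e9 a ha1 ha2
        simp only [ψ]
        split_ifs <;> linarith
      rcases hcase u v with h | h | h
      · rw [h]; exact e10 u v hu1 hu2 hv1 hv2
      · rw [h, abs_of_nonneg (hψ0 u v)]
        exact hψ3 u v hu1 hu2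
      · rw [h, abs_neg, abs_of_nonneg (hψ0 v u)]
        exact hψ3 v u hv1 hv2
    · intro v
      simp only
      rw [sum_sub_distrib, sum_add_distrib, e8 v, hout v]
      ring

/-- Non-backtracking dispersal from a vertex `t` of `H`-degree one: only the edges at `t` and at
its two neighbours which are not `H`-neighbours have load more than `1 / 10`. -/
theorem smear_exact (h3 : ∀ v, G.degree v = 3) {k j₀ : ℕ} (hg : Gir G k)
    (hk : 3 * 2 ^ j₀ ≤ k) (hj : 1 ≤ j₀)
    (H : SimpleGraph V) (hH : H ≤ G) (t : V) (hHt : (H.neighborSet t).ncard = 1) :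
    ∃ (φ : V → V → ℝ) (w : V → ℝ), (∀ u v, φ u v = - φ v u) ∧
      (∀ u v, φ u v ≠ 0 → G.Adj u v ∧ u ∈ Bl G.Adj j₀ t ∧ v ∈ Bl G.Adj j₀ t) ∧
      (∀ u v, |φ u v| ≤ 2 / 5) ∧ (∀ u v, H.Adj u v → |φ u v| ≤ 1 / 5) ∧
      (∀ D : Finset V, t ∈ D → (∀ y, G.Adj t y → ¬ H.Adj t y → y ∈ D) →
        ∀ u v, u ∉ D → v ∉ D → |φ u v| ≤ 1 / 10) ∧
      (∀ v, 0 ≤ w v) ∧ (∀ v, w v ≤ 1 / 2 ^ j₀) ∧ (∀ v, w v ≠ 0 → v ∈ Bl G.Adj j₀ t) ∧
      (∀ v, w v ≠ 0 → v ∉ Bl G.Adj (j₀ - 1) t) ∧
      ∑ v, w v = 1 ∧ ∀ v, ∑ u, φ v u = (if v = t then 1 else 0) - w v := by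
  obtain ⟨j, rfl⟩ : ∃ j, j₀ = j + 1 := ⟨j₀ - 1, by omega⟩
  have hc := Bl_card G h3 (j + 1) t
  obtain ⟨φ, w, e1, e2, e3, e4, e5, e6, e7, e9, e10, e8⟩ :=
    smear_aux' h3 hg t H hH hHt j (by omega)
  have hs : ∑ v, w v = 1 := by
    have h1 : ∑ v, ∑ u, φ v u = 0 := by
      have h2 : ∑ v, ∑ u, φ v u = - ∑ v, ∑ u, φ v u := by
        calc ∑ v, ∑ u, φ v u = ∑ u, ∑ v, φ v u := sum_comm
          _ = ∑ u, ∑ v, - φ u v := sum_congr rfl fun u _ => sum_congr rfl fun v _ => e1 v u
          _ = - ∑ v, ∑ u, φ v u := by simp only [sum_neg_distrib]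
      linarith
    rw [sum_congr rfl fun v _ => e8 v, sum_sub_distrib] at h1
    have h2 : ∑ v, (if v = t then (1 : ℝ) else 0) = 1 := by simp
    linarith
  refine ⟨φ, w, e1, e2, e3, e4, fun D ht hD u v hu hv => e10 u v ?_ ?_ ?_ ?_, e5,
    fun v => (e6 v).trans ?_, fun v hv => (e7 v hv).1, fun v hv => (e7 v hv).2, hs, e8⟩
  · rintro rfl; exact hu ht
  · rintro ⟨h1, h2⟩; exact hu (hD u h1 h2)
  · rintro rfl; exact hv ht
  · rintro ⟨h1, h2⟩; exact hv (hD v h1 h2)
  · have : (0 : ℝ) < 2 ^ (j + 1) := by positivity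
    rw [div_le_div_iff_of_pos_right this]
    norm_num

end Pool.Agent.K5
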