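import Mathlib
import Pool.Agent.Work.MP_974d84_co_iso.Part
import Pool.Agent.Work.MP_974d84_co_k5.DefsW
import Pool.Agent.Work.MP_974d84_co_k5.PairingW
import Pool.Agent.Work.MP_974d84_co_k5.Params
import Pool.Agent.Work.MP_974d84_co_k5.Average
import Pool.Agent.Work.MP_974d84_co_k5.SmearExact
import Pool.Agent.Work.MP_974d84_co_k5.RegionSigns
import Pool.Agent.Work.MP_974d84_co_k5.RegionClose

/-!
# Route W, W8c: signs of the defects
-/

set_option linter.unusedSectionVars false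

namespace Pool.Agent.K5

open Finset SimpleGraph Pool.Agent.Exp Pool.Agent.Log5 Pool.Agent.Log5.Clu Pool.Agent.Iso5
  Pool.Agent.Work.MP_314beb_co

section

variable {V : Type} [Fintype V] [DecidableEq V] {G : SimpleGraph V} [DecidableRel G.Adj]

/-- A probability measure with small values on a ball. -/
theorem exists_smear_ball (h3 : ∀ v, G.degree v = 3) {k j₀ : ℕ} (hg : Gir G k)
    (hk : 3 * 2 ^ j₀ ≤ k) (hj : 1 ≤ j₀) (t : V) : ∃ w : V → ℝ, (∀ v, 0 ≤ w v) ∧
      (∀ v, w v ≤ 1 / 2 ^ j₀) ∧ (∀ v, w v ≠ 0 → v ∈ Bl G.Adj j₀ t) ∧ ∑ v, w v = 1 := by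
  classical
  have h1 : 0 < (G.neighborFinset t).card := by
    rw [card_neighborFinset_eq_degree, h3 t]
    norm_num
  obtain ⟨u, hu⟩ := card_pos.1 h1
  rw [mem_neighborFinset] at hu
  let H : SimpleGraph V := SimpleGraph.fromEdgeSet {s(t, u)}
  have hadj : ∀ v, H.Adj t v ↔ v = u := by
    intro v
    simp only [H, fromEdgeSet_adj, Set.mem_singleton_iff, Sym2.eq, Sym2.rel_iff', Prod.mk.injEq,
      Prod.swap_prod_mk, true_and]
    constructor
    · rintro ⟨h | h, -⟩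
      · exact h
      · exact absurd h.1 hu.ne
    · rintro rfl
      exact ⟨Or.inl rfl, hu.ne⟩
  have hH : H ≤ G := by
    intro x y hxy
    have h2 : s(x, y) = s(t, u) := by
      have := (fromEdgeSet_adj _).1 hxy
      exact this.1
    rw [Sym2.eq_iff] at h2
    rcases h2 with ⟨rfl, rfl⟩ | ⟨rfl, rfl⟩
    · exact hu
    · exact hu.symm
  have hn : (H.neighborSet t).ncard = 1 := by
    have : H.neighborSet t = {u} := by
      ext v
      rw [mem_neighborSet, hadj v, Set.mem_singleton_iff]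
    rw [this, Set.ncard_singleton]
  obtain ⟨φ, w, -, -, -, -, -, h5, h6, h7, -, h8, -⟩ := smear_exact h3 hg hk hj H hH t hn
  exact ⟨w, h5, h6, h7, h8⟩

/-- At most one term of the sum is different from zero. -/
theorem abs_sum_disj {T : Finset V} {U : V → Finset V}
    (hU : ∀ a ∈ T, ∀ a' ∈ T, a ≠ a' → Disjoint (U a) (U a')) {F : V → ℝ} {v : V}
    (hF : ∀ a ∈ T, F a ≠ 0 → v ∈ U a) {δ : ℝ} (hδ : 0 ≤ δ) (hb : ∀ a ∈ T, |F a| ≤ δ) :
    |∑ a ∈ T, F a| ≤ δ := by
  by_cases h : ∃ a ∈ T, v ∈ U a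
  · obtain ⟨a, ha, hv⟩ := h
    rw [sum_eq_single a]
    · exact hb a ha
    · intro a' ha' hne
      by_contra h0
      exact Finset.disjoint_left.1 (hU a ha a' ha' hne.symm) hv (hF a' ha' h0)
    · intro h
      exact absurd ha h
  · rw [sum_eq_zero, abs_zero]
    · exact hδ
    · intro a ha
      by_contra h0
      exact h ⟨a, ha, hF a ha h0⟩

end

/-- W8c: signs of the defects. -/
theorem signs_w {b : ℝ} (hb : 0 < b) : ∃ (j₁ h : ℕ) (C₀ : ℝ), 0 < h ∧ ∀ C, C₀ ≤ C →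
    ∃ k₀ N₀ : ℕ, ∀ N k, N₀ ≤ N → k₀ ≤ k → ∀ {V : Type} [Fintype V] [DecidableEq V]
    (G : SimpleGraph V) [DecidableRel G.Adj], (∀ v, G.degree v = 3) →
    (∀ A : Finset V, A.Nonempty → Aᶜ.Nonempty → 1 ≤ dd G A) → CycConn G k → Gir G k →
    ∀ {r : ℕ} (S : Fin r → Finset V), Cores G C S → Facts G C N k S →
    ∀ T : Finset V, Even T.card → ∀ (U : V → Finset V) (w : V → ℤ → V → ℝ),
    (∀ a ∈ T, Bl G.Adj j₁ a ⊆ U a) → (∀ a ∈ T, ∀ a' ∈ T, a ≠ a' → Disjoint (U a) (U a')) →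
    (∀ a s v, 0 ≤ w a s v) → (∀ a s v, w a s v ≤ 1 / 2 ^ j₁) →
    (∀ a ∈ T, ∀ s, (s = 1 ∨ s = -1) → (∀ v, w a s v ≠ 0 → v ∈ U a) ∧ ∑ v, w a s v = 1) →
    (∀ k₁, k₀ ≤ k₁ → k₁ ≤ k →
      (∀ Z, RF G S Z → k₁ ≤ dd G Z → h * (T.filter fun a => Cuts (U a) Z).card ≤ dd G Z) →
      ∃ ε : V → ℤ, (∀ v, ε v = 1 ∨ ε v = -1) ∧ ∑ a ∈ T, ε a = 0 ∧
        ∀ R, Region S R → ∀ X ⊆ R,
          |∑ a ∈ T, (ε a : ℝ) * ∑ v ∈ X, w a (ε a) v| ≤ b * dd G X) := by
  classical
  obtain ⟨ρ, m, s, bb, τ, hm, hs, hbb, hbb1, hτ, hpar, hsq⟩ := params (b' := b / 4) (by positivity)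
  set B : ℝ := 9 * ρ * 2 ^ (m + 1) with hB
  have hB0 : 0 ≤ B := by positivity
  -- the radius of the smearing
  obtain ⟨j, hj⟩ := pow_unbounded_of_one_lt (1 / bb + 4 * B / b + 2 / b) (one_lt_two : (1 : ℝ) < 2)
  set j₁ : ℕ := j + 1 with hj₁
  have hpow : 1 / bb + 4 * B / b + 2 / b ≤ 2 ^ j₁ := by
    have : (2 : ℝ) ^ j ≤ 2 ^ j₁ := pow_le_pow_right₀ (by norm_num) (by omega)
    linarith
  have hp1 : 0 ≤ 1 / bb := by positivity
  have hp2 : 0 ≤ 4 * B / b := by positivity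
  have hp3 : 0 ≤ 2 / b := by positivity
  have hP : (0 : ℝ) < 2 ^ j₁ := by positivity
  have hj1 : 1 ≤ bb * 2 ^ j₁ := by
    have : 1 / bb ≤ 2 ^ j₁ := by linarith
    rw [div_le_iff₀ hbb] at this
    linarith
  have hj2 : 1 / 2 ^ j₁ * B ≤ b / 4 := by
    have : 4 * B / b ≤ 2 ^ j₁ := by linarith
    rw [div_le_iff₀ hb] at this
    rw [div_mul_eq_mul_div, one_mul, div_le_iff₀ hP]
    linarith
  have hj3 : 1 / 2 ^ j₁ ≤ b / 2 := by
    have : 2 / b ≤ 2 ^ j₁ := by linarith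
    rw [div_le_iff₀ hb] at this
    rw [div_le_iff₀ hP]
    linarith
  have hδ0 : (0 : ℝ) ≤ 1 / 2 ^ j₁ := by positivity
  -- the number of the zones which may be split
  set h : ℕ := ⌈2 / b⌉₊ + 1 with hh
  have hh0 : (0 : ℝ) < h := by positivity
  have hh1 : 2 / b ≤ h := by
    have := Nat.le_ceil (2 / b)
    rw [hh]
    push_cast
    linarith
  have hh2 : 2 ≤ b * h := by
    rw [div_le_iff₀ hb] at hh1
    linarith
  obtain ⟨C₀, hC⟩ := region_signs hbb hbb1 hτ ρ s j₁ hsq hj1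
  refine ⟨j₁, h, C₀, by omega, fun C hC1 => ?_⟩
  obtain ⟨k₀, N₀, hmain⟩ := hC C hC1
  refine ⟨max k₀ (max (3 * 2 ^ j₁) (2 * ρ + 2)), N₀, ?_⟩
  intro N k hN hk V _ _ G _ h3 hbr hcyc hg r S hS hF T hT U w hU1 hU2 hw0 hw1 hw2 k₁ hk₁ hk₁' hcuts
  have hka : k₀ ≤ k := (le_max_left _ _).trans hk
  have hkb : 3 * 2 ^ j₁ ≤ k := ((le_max_left _ _).trans (le_max_right _ _)).trans hk
  have hkc : 2 * ρ + 2 ≤ k := ((le_max_right _ _).trans (le_max_right _ _)).trans hk
  obtain ⟨Ξ, _, _, c, hc0, hc1, hc2, hc3, -, hc5, -⟩ :=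
    exists_partitions h3 hm hs (G := G) (fun A hA => hg A (by omega))
  obtain ⟨n, p, q, hp, hq, hpq, hTpq, hJ⟩ := exists_pairing G hbr T hT
  choose w₀ hw₀0 hw₀1 hw₀2 hw₀3 using fun t : V => exists_smear_ball h3 hg hkb (by omega) t
  have hT' : T = univ.image p ∪ univ.image q := by
    ext v
    rw [hTpq v]
    simp
  have hsum : ∀ {M : Type} [AddCommMonoid M] (F : V → M),
      ∑ a ∈ T, F a = ∑ j, F (p j) + ∑ j, F (q j) := by
    intro M _ F
    rw [hT', sum_union, sum_image (fun i _ j _ h => hp h), sum_image (fun i _ j _ h => hq h)]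
    rw [Finset.disjoint_left]
    intro v h1 h2
    obtain ⟨i, -, rfl⟩ := mem_image.1 h1
    obtain ⟨j, -, hj⟩ := mem_image.1 h2
    exact hpq i j hj.symm
  have hU3 : ∀ a ∈ T, ∀ v, w₀ a v ≠ 0 → v ∈ U a := fun a ha v hv => hU1 a ha (hw₀2 a v hv)
  have hSm : Smear G j₁ (univ.image p ∪ univ.image q) w₀ := by
    rw [← hT']
    exact ⟨hw₀0, hw₀1, hw₀2, fun t _ => hw₀3 t, fun t ht t' ht' hne =>
      (hU2 t ht t' ht' hne).mono (hU1 t ht) (hU1 t' ht')⟩
  obtain ⟨ε, hε, hεb⟩ := hmain N k hN hka G h3 hbr hcyc hg S hS hF Ξ hc0 c hc1 hc2 hc3 n p q hp hq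
    hpq hJ w₀ hSm
  -- the signs of the vertices
  obtain ⟨e, he1, he2, he3⟩ : ∃ e : V → ℤ, (∀ v, e v = 1 ∨ e v = -1) ∧ (∀ j, e (p j) = ε j) ∧
      ∀ j, e (q j) = - ε j := by
    refine ⟨fun v => if hv : ∃ j, p j = v then ε hv.choose else
      if hv : ∃ j, q j = v then - ε hv.choose else 1, fun v => ?_, fun j => ?_, fun j => ?_⟩
    · beta_reduce
      by_cases h1 : ∃ j, p j = v
      · rw [dif_pos h1]
        exact hε _
      · rw [dif_neg h1]
        by_cases h2 : ∃ j, q j = v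
        · rw [dif_pos h2]
          rcases hε h2.choose with h | h <;> rw [h] <;> norm_num
        · rw [dif_neg h2]
          exact Or.inl rfl
    · have h1 : ∃ i, p i = p j := ⟨j, rfl⟩
      show (if hv : ∃ i, p i = p j then ε hv.choose else _) = _
      rw [dif_pos h1]
      rw [hp h1.choose_spec]
    · have h1 : ¬ ∃ i, p i = q j := fun ⟨i, hi⟩ => hpq i j hi
      have h2 : ∃ i, q i = q j := ⟨j, rfl⟩
      show (if hv : ∃ i, p i = q j then ε hv.choose else
        if hv : ∃ i, q i = q j then - ε hv.choose else 1) = _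
      rw [dif_neg h1, dif_pos h2, hq h2.choose_spec]
  have heabs : ∀ v, |(e v : ℝ)| = 1 := by
    intro v
    rcases he1 v with h | h <;> rw [h] <;> simp
  refine ⟨e, he1, ?_, ?_⟩
  · rw [hsum e, sum_congr rfl fun j _ => he2 j, sum_congr rfl fun j _ => he3 j, sum_neg_distrib]
    ring
  intro R hR X hX
  -- the first part
  have hσ1 : ∀ v, sw w₀ p q ε v = ∑ a ∈ T, (e a : ℝ) * w₀ a v := by
    intro v
    rw [hsum fun a => (e a : ℝ) * w₀ a v]
    unfold sw
    rw [← sum_add_distrib]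
    refine sum_congr rfl fun j _ => ?_
    rw [he2, he3]
    push_cast
    ring
  have hσ2 : ∀ v, |sw w₀ p q ε v| ≤ 1 / 2 ^ j₁ := by
    intro v
    rw [hσ1 v]
    refine abs_sum_disj hU2 (v := v) (fun a ha h0 => hU3 a ha v fun h => h0 (by rw [h, mul_zero]))
      hδ0 fun a _ => ?_
    rw [abs_mul, heabs, one_mul, abs_of_nonneg (hw₀0 a v)]
    exact hw₀1 a v
  have hpart1 := average_region h3 c hbb.le hδ0 (B := B) (fun X => hc5 X) hσ2 S hεb R hR X hX
  -- the second part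
  set σ : V → ℝ := fun v => ∑ a ∈ T, (e a : ℝ) * (w a (e a) v - w₀ a v) with hσ
  have hdiff : ∀ Z : Finset V, ∑ v ∈ Z, σ v =
      ∑ a ∈ T, (e a : ℝ) * (∑ v ∈ Z, w a (e a) v - ∑ v ∈ Z, w₀ a v) := by
    intro Z
    rw [hσ]
    simp only
    rw [sum_comm]
    refine sum_congr rfl fun a _ => ?_
    rw [← mul_sum, sum_sub_distrib]
  have h0 : ∑ v, σ v = 0 := by
    rw [hdiff univ]
    refine sum_eq_zero fun a ha => ?_
    rw [(hw2 a ha (e a) (he1 a)).2, hw₀3 a]
    ring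
  have h1 : ∀ v, |σ v| ≤ b / 2 := by
    intro v
    refine (abs_sum_disj hU2 (v := v) (fun a ha hne => ?_) hδ0 fun a _ => ?_).trans hj3
    · by_contra hv
      apply hne
      have e1 : w a (e a) v = 0 := by
        by_contra h
        exact hv ((hw2 a ha (e a) (he1 a)).1 v h)
      have e2 : w₀ a v = 0 := by
        by_contra h
        exact hv (hU3 a ha v h)
      rw [e1, e2]
      ring
    · rw [abs_mul, heabs, one_mul, abs_le]
      have e1 := hw0 a (e a) v
      have e2 := hw1 a (e a) v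
      have e3 := hw₀0 a v
      have e4 := hw₀1 a v
      constructor <;> linarith
  have h2 : ∀ Z, RF G S Z → k₁ ≤ dd G Z → |∑ v ∈ Z, σ v| ≤ b / 2 * dd G Z := by
    intro Z hZ hkZ
    have h3' := hcuts Z hZ hkZ
    have h4 : |∑ v ∈ Z, σ v| ≤ (T.filter fun a => Cuts (U a) Z).card := by
      rw [hdiff Z]
      refine (abs_sum_le_sum_abs _ _).trans ?_
      rw [card_eq_sum_ones, Nat.cast_sum, sum_filter]
      refine sum_le_sum fun a ha => ?_
      rw [abs_mul, heabs, one_mul]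
      obtain ⟨e5, e6⟩ := hw2 a ha (e a) (he1 a)
      by_cases hcut : Cuts (U a) Z
      · rw [if_pos hcut, Nat.cast_one, abs_le]
        have e1 : 0 ≤ ∑ v ∈ Z, w a (e a) v := sum_nonneg fun v _ => hw0 a (e a) v
        have e2 : ∑ v ∈ Z, w a (e a) v ≤ 1 := by
          rw [← e6]
          exact sum_le_sum_of_subset_of_nonneg (subset_univ _) fun v _ _ => hw0 a (e a) v
        have e3 : 0 ≤ ∑ v ∈ Z, w₀ a v := sum_nonneg fun v _ => hw₀0 a v
        have e4 : ∑ v ∈ Z, w₀ a v ≤ 1 := by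
          rw [← hw₀3 a]
          exact sum_le_sum_of_subset_of_nonneg (subset_univ _) fun v _ _ => hw₀0 a v
        constructor <;> linarith
      · rw [if_neg hcut]
        unfold Cuts at hcut
        push Not at hcut
        by_cases hsub : U a ⊆ Z
        · have e1 : ∑ v ∈ Z, w a (e a) v = 1 := by
            rw [← e6]
            refine sum_subset (subset_univ _) fun v _ hv => ?_
            by_contra h
            exact hv (hsub (e5 v h))
          have e2 : ∑ v ∈ Z, w₀ a v = 1 := by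
            rw [← hw₀3 a]
            refine sum_subset (subset_univ _) fun v _ hv => ?_
            by_contra h
            exact hv (hsub (hU3 a ha v h))
          rw [e1, e2]
          simp
        · have hd : Disjoint (U a) Z := hcut.resolve_left hsub
          have e1 : ∑ v ∈ Z, w a (e a) v = 0 := by
            refine sum_eq_zero fun v hv => ?_
            by_contra h
            exact Finset.disjoint_left.1 hd (e5 v h) hv
          have e2 : ∑ v ∈ Z, w₀ a v = 0 := by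
            refine sum_eq_zero fun v hv => ?_
            by_contra h
            exact Finset.disjoint_left.1 hd (hU3 a ha v h) hv
          rw [e1, e2]
          simp
    have h5 : (h : ℝ) * (T.filter fun a => Cuts (U a) Z).card ≤ dd G Z := by exact_mod_cast h3'
    have h6 : (0 : ℝ) ≤ (T.filter fun a => Cuts (U a) Z).card := by positivity
    nlinarith
  have hpart2 := rf_close h3 hbr (k := k₁) (fun A hA hA' => hk₁'.trans (hcyc A hA hA')) S h0 h1 h2 R hR X hX
  have hall : ∑ a ∈ T, (e a : ℝ) * ∑ v ∈ X, w a (e a) v =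
      ∑ v ∈ X, sw w₀ p q ε v + ∑ v ∈ X, σ v := by
    rw [sum_congr rfl fun v _ => hσ1 v, sum_comm, hdiff X, ← sum_add_distrib]
    refine sum_congr rfl fun a _ => ?_
    rw [← mul_sum]
    ring
  rw [hall]
  refine (abs_add_le _ _).trans ?_
  have hdd : (0 : ℝ) ≤ dd G X := by positivity
  have h7 : bb * (1 + 3 * B) + 1 / 2 ^ j₁ * B ≤ b / 2 := by linarith
  have h8 := mul_le_mul_of_nonneg_right h7 hdd
  linarith

end Pool.Agent.K5
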