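import Mathlib
import Pool.Agent.Work.MP_974d84_co_k5.DefsE

/-!
# The marks are sparse in the cores
-/

set_option linter.unusedSectionVars false

namespace Pool.Agent.K5

open Finset SimpleGraph Pool.Agent.Exp Pool.Agent.Log5 Pool.Agent.Log5.Clu

/-- The marks are sparse in the cores. -/
theorem sparse_marks (N : ℕ) : ∃ D : ℕ, ∀ {V : Type} [Fintype V] [DecidableEq V]
    (G : SimpleGraph V) [DecidableRel G.Adj], (∀ v, G.degree v = 3) → ∀ {C : ℝ} {N' k : ℕ},
    8 * N ≤ N' → D ≤ k → Gir G k → ∀ p : V → V → ℝ, Marks G p → FarM G D p →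
    ∀ {r : ℕ} (S : Fin r → Finset V), Cores G C S → Facts G C N' k S →
    ∀ i, N * (ends p ∩ S i).card ≤ 2 * (S i).card := by
  refine ⟨2 * N + 1, fun {V} _ _ G _ _ {C N' k} _ hDk _ p _ hfar {r} S _ hF i => ?_⟩
  classical
  set E := ends p ∩ S i with hE
  have hJ := hF.joined i
  have hbig := hF.large i
  have hball : ∀ u ∈ E, N ≤ ((S i).filter fun v => v ∈ Bl (RW G (S i)) N u).card := by
    intro u hu
    have huS : u ∈ S i := (mem_inter.1 hu).2
    have h1 : ((S i).filter fun v => v ∈ Bl (RW G (S i)) N u) = Bl (RW G (S i)) N u := by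
      ext v
      rw [mem_filter]
      exact ⟨fun h => h.2, fun h => ⟨Bl_RW_sub huS N h, h⟩⟩
    rw [h1]
    by_cases h : S i ⊆ Bl (RW G (S i)) N u
    · have := card_le_card h
      omega
    · have := Bl_grow hJ huS N h
      omega
  have htwo : ∀ v ∈ S i, (E.filter fun u => v ∈ Bl (RW G (S i)) N u).card ≤ 2 := by
    intro v _
    rcases (E.filter fun u => v ∈ Bl (RW G (S i)) N u).eq_empty_or_nonempty with h | ⟨u₀, hu₀⟩
    · rw [h, card_empty]
      omega
    · rw [mem_filter, hE, mem_inter] at hu₀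
      obtain ⟨w₀, hw₀⟩ := (mem_filter.1 hu₀.1.1).2
      have hsub : (E.filter fun u => v ∈ Bl (RW G (S i)) N u) ⊆ {u₀, w₀} := by
        intro u hu
        rw [mem_filter, hE, mem_inter] at hu
        obtain ⟨w, hw⟩ := (mem_filter.1 hu.1.1).2
        have h1 : u ∈ Bl (RW G (S i)) N v :=
          Bl_symm (fun a b h => ⟨h.1.symm, h.2.2, h.2.1⟩) hu.2
        have h2 : u ∈ Bl (RW G (S i)) (N + N) u₀ := Bl_comp hu₀.2 h1
        have h3 : u ∈ Bl G.Adj (N + N) u₀ := Bl_rel (fun a b h => h.1) _ _ h2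
        have h4 : u ∈ Bl G.Adj (2 * N + 1) u₀ := Bl_mono (by omega) _ h3
        rcases hfar u₀ w₀ u w hw₀ hw h4 with h5 | h5
        · rw [h5.1]
          exact mem_insert_self _ _
        · rw [h5.1]
          exact mem_insert_of_mem (mem_singleton_self _)
      exact (card_le_card hsub).trans card_le_two
  have hsum := sum_card_bipartiteAbove_eq_sum_card_bipartiteBelow
    (s := E) (t := S i) (fun u v => v ∈ Bl (RW G (S i)) N u)
  have h1 : N * E.card ≤ ∑ u ∈ E,
      ((S i).bipartiteAbove (fun u v => v ∈ Bl (RW G (S i)) N u) u).card := by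
    have := card_nsmul_le_sum E (fun u =>
      ((S i).bipartiteAbove (fun u v => v ∈ Bl (RW G (S i)) N u) u).card) N hball
    rw [smul_eq_mul, Nat.mul_comm] at this
    exact this
  have h2 : ∑ v ∈ S i, (E.bipartiteBelow (fun u v => v ∈ Bl (RW G (S i)) N u) v).card
      ≤ (S i).card * 2 := by
    have := sum_le_card_nsmul (S i) (fun v =>
      (E.bipartiteBelow (fun u v => v ∈ Bl (RW G (S i)) N u) v).card) 2 htwo
    rwa [smul_eq_mul] at this
  omega

end Pool.Agent.K5
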