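import Mathlib
import Pool.Agent.Work.MP_974d84_co_k5.OmegaE
import Pool.Agent.Work.MP_974d84_co_k5.BoxM
import Pool.Agent.Work.MP_974d84_co_k5.AssembleEG
import Pool.Agent.Work.MP_974d84_co_k5.ConstE
import Pool.Agent.Work.MP_974d84_co_k5.SparseE
import Pool.Agent.Work.MP_974d84_co_k5.ParityE
import Pool.Agent.Work.MP_974d84_co_k5.CoreFactsG
import Pool.Agent.Work.MP_974d84_co_k5.RegionFamG
import Pool.Agent.Work.MP_974d84_co_k5.SignsG
import Pool.Agent.Work.MP_974d84_co_k5.CoresEx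
import Pool.Agent.Work.MP_974d84_co_k5.Frame
import Pool.Agent.Work.MP_974d84_co_k5.Windows
import Pool.Agent.Work.MP_974d84_co_k5.MainWB

/-!
# Room BG, E8: the cubic graph with marked edges (assembly, with the box of helper31)
-/

set_option linter.unusedSectionVars false

namespace Pool.Agent.K5

open Finset SimpleGraph Pool.Agent.Exp Pool.Agent.Log5 Pool.Agent.Log5.Clu

theorem farM_mono_b {V : Type} [Fintype V] [DecidableEq V] {G : SimpleGraph V} [DecidableRel G.Adj]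
    {p : V → V → ℝ} {D D' : ℕ} (h : FarM G D p) (hD : D' ≤ D) : FarM G D' p :=
  fun u v u' v' h1 h2 h3 => h u v u' v' h1 h2 (Bl_mono hD u h3)

theorem factsG_mono_b {V : Type} [Fintype V] [DecidableEq V] {G : SimpleGraph V}
    [DecidableRel G.Adj] {C : ℝ} {N N' k κ : ℕ} {δ : ℝ} {r : ℕ} {S : Fin r → Finset V}
    (h : FactsG G C N' k κ δ S) (hN : N ≤ N') : FactsG G C N k κ δ S where
  base :=
    { large := h.base.large
      joined := h.base.joined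
      bdry := fun i => (Nat.mul_le_mul_right _ hN).trans (h.base.bdry i)
      ratio := h.base.ratio
      light := h.base.light
      half := h.base.half
      sep := h.base.sep }
  large := h.large
  ratio := h.ratio
  small := h.small
  half := h.half

/-- The marks in a cut. -/
theorem mark_cut_b {V : Type} [Fintype V] [DecidableEq V] {G : SimpleGraph V} [DecidableRel G.Adj]
    {p : V → V → ℝ} (hp : Marks G p) (X : Finset V) :
    dM G p X ≤ dd G X ∧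
      (∑ v ∈ X, ∑ u ∈ Xᶜ, |p v u|) / 2 ≤ 2 / 5 * ((dd G X : ℝ) - dM G p X) := by
  classical
  set E : Finset (V × V) := (univ : Finset (V × V)).filter fun e =>
    e.1 ∈ X ∧ e.2 ∉ X ∧ G.Adj e.1 e.2 with hE
  have hEd : E.card = dd G X := by
    have h0 : E = Pool.Agent.Work.MP_314beb_co.cut G X := by
      ext e
      rw [mem_cut, hE, mem_filter]
      exact ⟨fun h => h.2, fun h => ⟨mem_univ _, h⟩⟩
    rw [h0]
    rfl
  have hEM : (E.filter fun e => p e.1 e.2 = 0).card = dM G p X := by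
    unfold dM
    refine card_bij (fun e _ => e) (fun e he => ?_) (fun _ _ _ _ h => h) (fun e he => ?_)
    · rw [mem_filter, hE, mem_filter] at he
      obtain ⟨⟨h1, h2, h3, h4⟩, h5⟩ := he
      simp only [mem_filter]
      exact ⟨h1, h2, h3, h4, h5⟩
    · simp only [mem_filter] at he
      obtain ⟨h1, h2, h3, h4, h5⟩ := he
      refine ⟨e, ?_, rfl⟩
      rw [mem_filter, hE, mem_filter]
      exact ⟨⟨h1, h2, h3, h4⟩, h5⟩
  have hsplit := card_filter_add_card_filter_not (s := E) (fun e : V × V => p e.1 e.2 = 0)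
  have h1 : ∑ v ∈ X, ∑ u ∈ Xᶜ, |p v u| ≤
      4 / 5 * ((E.filter fun e => ¬ p e.1 e.2 = 0).card : ℝ) := by
    rw [← sum_product' X Xᶜ fun v u => |p v u|]
    have h2 : ∑ e ∈ X ×ˢ Xᶜ, |p e.1 e.2| =
        ∑ e ∈ E.filter fun e => ¬ p e.1 e.2 = 0, |p e.1 e.2| := by
      symm
      refine sum_subset ?_ ?_
      · intro e he
        rw [mem_filter, hE, mem_filter] at he
        rw [mem_product, mem_compl]
        exact ⟨he.1.2.1, he.1.2.2.1⟩
      · intro e he he'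
        rw [mem_product, mem_compl] at he
        by_contra h3
        have h4 : p e.1 e.2 ≠ 0 := fun h => h3 (by rw [h, abs_zero])
        exact he' (by
          rw [mem_filter, hE, mem_filter]
          exact ⟨⟨mem_univ _, he.1, he.2, hp.adj _ _ h4⟩, h4⟩)
    rw [h2]
    refine (sum_le_card_nsmul _ _ (4 / 5 : ℝ) ?_).trans (le_of_eq ?_)
    · intro e he
      rcases hp.val e.1 e.2 (mem_filter.1 he).2 with h | h <;> rw [h]
      norm_num
    · rw [nsmul_eq_mul]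
      ring
  constructor
  · rw [← hEd, ← hEM]
    exact card_le_card (filter_subset _ _)
  · have h2 : ((E.filter fun e => ¬ p e.1 e.2 = 0).card : ℝ) = (dd G X : ℝ) - dM G p X := by
      rw [← hEd, ← hEM, ← hsplit]
      push_cast
      ring
    rw [h2] at h1
    linarith

/-- **The cubic graph with marked edges**, from the windows away from the marks (E3), the pattern
(E4) and the labels (E5). -/
theorem main_e_of
    (hwa : ∀ c₀ R ρ : ℕ, ∃ c : ℕ, c₀ ≤ c ∧ ∀ q, 1 ≤ q → ∃ D k : ℕ,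
      ∀ {V : Type} [Fintype V] [DecidableEq V] (G : SimpleGraph V) [DecidableRel G.Adj]
      {μ : V → V} {π : Equiv.Perm V}, Frame G μ π → Gir G k → ∀ p : V → V → ℝ, Marks G p →
      FarM G D p → ∀ A : Finset V, Win G π R q (c₀ * q ^ 2) A →
        Win G π R q (c * q ^ 2) (awayM G π R q ρ p A))
    (hpt : ∀ J R c : ℕ, 1 ≤ J → 2 * J + 1 ≤ R → ∃ q : ℕ, 1 ≤ q ∧ ∃ M D k₀ : ℕ,
      ∀ {V : Type} [Fintype V] [DecidableEq V] (G : SimpleGraph V)
      [DecidableRel G.Adj] {μ : V → V} {π : Equiv.Perm V}, Frame G μ π → Gir G k₀ →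
      ∀ p : V → V → ℝ, Marks G p → FarM G D p → ∀ A : Finset V, Win G π R q (c * q ^ 2) A →
      (∀ a ∈ A, ∀ u ∈ ends p, Disjoint (zone G π R q a) (Bl G.Adj (2 * J + 4) u)) →
      ∃ y : V → ℤ, PatternE μ π J q M A p y)
    (hfe : ∀ {V : Type} [Fintype V] [DecidableEq V] {G : SimpleGraph V} [DecidableRel G.Adj]
      {μ : V → V} {π : Equiv.Perm V}, Frame G μ π → ∀ {J j₀ jm R q B M k D : ℕ}, 3 ≤ J →
      J ≤ j₀ → J ≤ jm → 2 * j₀ + 2 ≤ R → Gir G k → 4 * q + 4 * j₀ + 20 ≤ k → 8 * jm + 20 ≤ k →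
      4 * jm + 10 ≤ D → ∀ {A : Finset V}, Win G π R q B A → ∀ {p : V → V → ℝ}, Marks G p →
      FarM G D p →
      (∀ a ∈ A, ∀ u ∈ ends p, Disjoint (zone G π R q a) (Bl G.Adj (2 * J + 4) u)) →
      ∀ {y : V → ℤ}, PatternE μ π J q M A p y →
      ∃ w : V → ℤ → V → ℝ, (∀ a s v, 0 ≤ w a s v) ∧ (∀ a s v, w a s v ≤ 1 / 2 ^ j₀) ∧
        (∀ a ∈ Dfc π A y, ∀ s, (s = 1 ∨ s = -1) → (∀ v, w a s v ≠ 0 → v ∈ zone G π R q a) ∧
          ∑ v, w a s v = 1) ∧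
        ∀ ε : V → ℤ, (∀ v, ε v = 1 ∨ ε v = -1) → ∃ x : V → ℤ, (∀ v, x v = 1 ∨ x v = -1) ∧
          ∀ X : Finset V, |∑ v ∈ X, ((x v : ℝ) + (∑ u, p v u) / 2)| ≤ 14 / 25 * dM G p X +
            |∑ a ∈ Dfc π A y, (ε a : ℝ) * ∑ v ∈ X, w a (ε a) v +
              ∑ u ∈ ends p, chm μ p u * ∑ v ∈ X, wmm μ π p jm u v|) :
    ∃ D k : ℕ, ∀ {V : Type} [Fintype V] [DecidableEq V] (G : SimpleGraph V)
    [DecidableRel G.Adj], (∀ v, G.degree v = 3) → CycConn G k → Gir G k →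
    (∀ A : Finset V, A.Nonempty → Aᶜ.Nonempty → 2 ≤ dd G A) →
    ∀ F : SimpleGraph V, F ≤ G → (∀ v, (F.neighborSet v).ncard = 2) →
    ∀ p : V → V → ℝ, Marks G p → FarM G D p → (∃ t : ℤ, ∑ u, ∑ v, p u v = 4 * t) →
    ∃ x : V → ℤ, (∀ v, x v = 1 ∨ x v = -1) ∧
      ∀ X : Finset V, |∑ v ∈ X, ((x v : ℝ) + (∑ u, p v u) / 2)| ≤
        3 / 5 * dd G X - (∑ v ∈ X, ∑ u ∈ Xᶜ, |p v u|) / 2 := by
  obtain ⟨e, δ, θ, η, b, κ₀, j₁, k₁, n₀, he, he2, hδ, hθ, hη, hb, hb1, hηθ, hκ₀, hk₁, hn₀, hnk,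
    hnum, hnb⟩ := constsE
  have hb2 : 0 < b / 2 := by positivity
  obtain ⟨j₂, h, C₁, hh, hsig⟩ := signs_g hb2
  obtain ⟨cr, C₂, hrf⟩ := rf_countG
  obtain ⟨n₃, hn₃⟩ := two_pow_small (b := b / 4) (by positivity)
  obtain ⟨j₀, hj₀⟩ : ∃ j : ℕ, j = j₁ + 3 + j₂ := ⟨_, rfl⟩
  obtain ⟨jm, hjm⟩ : ∃ j : ℕ, j = 3 + n₃ := ⟨_, rfl⟩
  obtain ⟨R, hR⟩ : ∃ R : ℕ, R = 2 * (j₀ + 1) + 2 := ⟨_, rfl⟩
  obtain ⟨c₀, hc0, hwin⟩ := exists_windows h R hh cr
  obtain ⟨c, hcc, hwa⟩ := hwa c₀ R (2 * 3 + 4)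
  obtain ⟨q, hq1, M, D₁, k₂, hpt⟩ := hpt 3 R c (by norm_num) (by omega)
  obtain ⟨D₀, hwin⟩ := hwin q hq1 1
  obtain ⟨D₂, k₃, hwa⟩ := hwa q hq1
  obtain ⟨ρ, hρ⟩ : ∃ ρ : ℕ, ρ = 2 * jm + 2 + M + 2 * q + R := ⟨_, rfl⟩
  obtain ⟨R', hR'⟩ : ∃ R' : ℕ, R' = M + 2 * q + R := ⟨_, rfl⟩
  obtain ⟨C₃, hcen⟩ := centres_e hθ hη hηθ R' ρ
  obtain ⟨C, hC0, hC1, hC2, hC3⟩ : ∃ C : ℝ, 100 ≤ C ∧ C₁ ≤ C ∧ C₂ ≤ C ∧ C₃ ≤ C :=
    ⟨max (max 100 C₁) (max C₂ C₃), (le_max_left _ _).trans (le_max_left _ _),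
      (le_max_right _ _).trans (le_max_left _ _), (le_max_left _ _).trans (le_max_right _ _),
      (le_max_right _ _).trans (le_max_right _ _)⟩
  obtain ⟨k₄, N₁, hsig⟩ := hsig C hC1
  obtain ⟨k₅, hrf⟩ := hrf C hC2
  obtain ⟨k₆, N₄, hcen⟩ := hcen C hC3
  obtain ⟨N, hN⟩ : ∃ N : ℕ, N = N₁ + N₄ := ⟨_, rfl⟩
  obtain ⟨D₃, hsp⟩ := sparse_marks N
  obtain ⟨κ, hκ⟩ : ∃ κ : ℕ, κ = κ₀ + D₃ := ⟨_, rfl⟩
  obtain ⟨k₀, hk₀⟩ : ∃ k₀ : ℕ, k₀ = k₄ + k₅ + D₀ := ⟨_, rfl⟩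
  obtain ⟨k, hk⟩ : ∃ k : ℕ, k = k₀ + k₁ + k₂ + k₃ + k₆ + (c₀ * q ^ 2 + 2) +
    (M + 4 * jm + 10) + (4 * q + 4 * (j₀ + 1) + 20) + (8 * jm + 20) := ⟨_, rfl⟩
  obtain ⟨g₁, hfac⟩ := core_factsG hC0 (8 * N) k κ hδ
  refine ⟨D₁ + D₂ + D₃ + (4 * jm + 10) + 2 * (2 * jm + 2 + M), g₁ + k + κ, ?_⟩
  intro V _ _ G _ h3 hc hgg hbr F hF hF2 p hp hpD ht
  classical
  obtain ⟨t, ht⟩ := ht
  have hg : Gir G k := fun A hA => hgg A (by omega)
  have hgκ : Gir G κ := fun A hA => hgg A (by omega)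
  have hcκ : CycConn G κ := fun S h1 h2 => le_trans (by omega) (hc S h1 h2)
  obtain ⟨μ, π, hf⟩ := exists_frame h3 F hF hF2
  obtain ⟨r, S, hS⟩ := exists_cores G C
  have hFa8 : FactsG G C (8 * N) k κ δ S := hfac G h3 hcκ (fun A hA => hgg A (by omega)) S hS
  have hFa : FactsG G C N k κ δ S := factsG_mono_b hFa8 (by omega)
  have hbr1 : ∀ A : Finset V, A.Nonempty → Aᶜ.Nonempty → 1 ≤ dd G A := fun A h1 h2 =>
    (by norm_num : 1 ≤ 2).trans (hbr A h1 h2)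
  -- the windows
  set Fam : Finset (Finset V) := univ.filter fun Z => RF G S Z ∧ k₀ ≤ dd G Z with hFam
  obtain ⟨A₀, hA₀, hAthin⟩ := hwin G hf (fun v n h1 h2 => pow_ne hf hg h1 (by omega) v) Fam
    (fun Z hZ => by
      rw [hFam, mem_filter] at hZ
      have := hZ.2.2
      omega)
    (fun v D => by
      by_cases hD : k₅ ≤ D
      · have h1 := hrf G hbr1 S hS v D
          (Fam.filter fun Z => v ∈ Z ∧ dd G Z = D) hD (fun Z hZ => by
            rw [mem_filter, hFam, mem_filter] at hZ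
            exact ⟨hZ.1.2.1, hZ.2.1, hZ.2.2⟩)
        simpa using h1
      · have h1 : (Fam.filter fun Z => v ∈ Z ∧ dd G Z = D) = ∅ := by
          rw [filter_eq_empty_iff]
          rintro Z hZ ⟨-, hZD⟩
          rw [hFam, mem_filter] at hZ
          have := hZ.2.2
          omega
        rw [h1, card_empty]
        push_cast
        positivity)
  obtain ⟨A, hAdef⟩ : ∃ A, A = awayM G π R q (2 * 3 + 4) p A₀ := ⟨_, rfl⟩
  have hA : Win G π R q (c * q ^ 2) A := by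
    rw [hAdef]
    exact hwa G hf (fun Z hZ => hg Z (by omega)) p hp (farM_mono_b hpD (by omega)) A₀ hA₀
  have hAsub : A ⊆ A₀ := by
    rw [hAdef]
    exact filter_subset _ _
  have hAaway : ∀ a ∈ A, ∀ u ∈ ends p,
      Disjoint (zone G π R q a) (Bl G.Adj (2 * 3 + 4) u) := by
    intro a ha
    rw [hAdef] at ha
    unfold awayM at ha
    exact (mem_filter.1 ha).2
  obtain ⟨y, hy⟩ := hpt G hf (fun Z hZ => hg Z (by omega)) p hp (farM_mono_b hpD (by omega)) A hA hAaway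
  have hAp0 : ∀ a ∈ A, p (π.symm a) a = 0 := by
    intro a ha
    by_contra h0
    have h1 : p a (π.symm a) ≠ 0 := by
      rw [hp.symm]
      exact h0
    have h2 : a ∈ ends p := by
      unfold ends
      exact mem_filter.2 ⟨mem_univ _, _, h1⟩
    exact Finset.disjoint_left.1 (hAaway a ha a h2)
      (ball_sub_zone (Nat.zero_le _) a (Bl_self 0 a)) (Bl_self _ a)
  obtain ⟨m₀, hm₀⟩ := even_dfc_e hf hp hAp0 hy t ht
  obtain ⟨w, w1, w2, w3, hw⟩ := hfe hf (J := 3) (j₀ := j₀ + 1) (jm := jm) (R := R) (q := q)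
    (B := c * q ^ 2) (M := M) (k := k) (D := 4 * jm + 10) le_rfl (by omega) (by omega) (by omega)
    hg (by omega) (by omega) le_rfl hA hp (farM_mono_b hpD (by omega)) hAaway hy
  -- the signs
  have hsg : ∀ T ⊆ Dfc π A y, Even T.card → ∀ w : V → ℤ → V → ℝ,
      (∀ a s v, 0 ≤ w a s v) → (∀ a s v, w a s v ≤ 1 / 2 ^ (j₀ + 1)) →
      (∀ a ∈ T, ∀ s, (s = 1 ∨ s = -1) → (∀ v, w a s v ≠ 0 → v ∈ zone G π R q a) ∧
        ∑ v, w a s v = 1) →
      ∃ ε : V → ℤ, (∀ v, ε v = 1 ∨ ε v = -1) ∧ ∑ a ∈ T, ε a = 0 ∧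
        ∀ R, Region S R → ∀ X ⊆ R,
          |∑ a ∈ T, (ε a : ℝ) * ∑ v ∈ X, w a (ε a) v| ≤ b / 2 * dd G X :=
    fun T hT hTe w hw0 hw1 hw2 =>
      hsig N k κ δ (by omega) (by omega) G h3 hbr1 hg S hS hFa T hTe (zone G π R q) w
        (fun a _ => ball_sub_zone (by omega) a)
        (fun a ha a' ha' hne => hA.disj a (mem_filter.1 (hT ha)).1 a' (mem_filter.1 (hT ha')).1 hne)
        hw0 (fun a s v => (hw1 a s v).trans
          (one_div_le_one_div_of_le (by positivity)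
            (pow_le_pow_right₀ (by norm_num) (by omega)))) hw2 k₀ (by omega) (by omega)
        (fun Z hZ hkZ => by
          refine le_trans (Nat.mul_le_mul_left _ (card_le_card ?_))
            (hAthin Z (by rw [hFam, mem_filter]; exact ⟨mem_univ _, hZ, hkZ⟩))
          intro a ha
          rw [mem_filter] at ha ⊢
          exact ⟨hAsub (mem_filter.1 (hT ha.1)).1, ha.2⟩)
  -- the defects which take the charges of the marks
  obtain ⟨Rm, ηm, r1, r2, r3, r4, r5, r6⟩ := BoxM.exists_Rm (jm := jm) (D := D₁ + D₂ + D₃ +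
    (4 * jm + 10) + 2 * (2 * jm + 2 + M)) hf (k := k) (M := M) (J := 3) hg (by omega) hp
    hpD (by omega) hA (y := y)
    (fun v => by
      obtain ⟨m, n, h1, h2, h4, h5⟩ := hy.near v
      exact ⟨m, by omega, h4⟩) hm₀ (b := b / 2) (δ := 1 / 2 ^ (j₀ + 1)) hb2.le w1 w2 w3
    (S := S) hsg
  have hRmz : ∀ a ∈ Rm, ∃ u ∈ ends p, zone G π R q a ⊆ Bl G.Adj ρ u := by
    intro a ha
    obtain ⟨u, hu, i, hi, v, hv, rfl⟩ := r4 a ha
    refine ⟨u, hu, fun x hx => ?_⟩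
    have h1 : zone G π R q ((π ^ i) v) ⊆ Bl G.Adj (i + 2 * q + R) v := zone_sub hf (by omega)
    exact Bl_mono (by omega) _ (Bl_comp hv (h1 hx))
  have hνsum : ∀ X : Finset V, ∑ v ∈ X, ∑ u ∈ ends p, chm μ p u * wmm μ π p jm u v =
      ∑ u ∈ ends p, chm μ p u * ∑ v ∈ X, wmm μ π p jm u v := by
    intro X
    rw [sum_comm]
    refine sum_congr rfl fun u _ => ?_
    rw [mul_sum]
  have hwm1 : ∀ u, ∑ v, wmm μ π p jm u v = 1 := by
    intro u
    rw [BoxM.sum_wmm_lfm hf hg (by omega) u univ]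
    simp only [mem_univ, if_true, mul_one, sum_const, card_univ, Fintype.card_fun,
      Fintype.card_bool, Fintype.card_fin, nsmul_eq_mul]
    push_cast
    field_simp
  obtain ⟨ε, hε, hεX⟩ := assembleEG (j₀ := j₀) (R := R) (q := q) (B := c * q ^ 2) (M := M)
    (R' := R') (N := N) (k := k) (κ := κ) (C := C) (b := b) (η := η) (θ := θ) (e := e) (δ := δ)
    h3 hg (by omega) hδ hf hA (D := Dfc π A y) (filter_subset _ _) (by omega) (by omega) hS hFa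
    w1 w2 w3 r1 r3 r2 (ν := fun v => ∑ u ∈ ends p, chm μ p u * wmm μ π p jm u v)
    (by
      rw [hνsum]
      rw [sum_congr rfl fun u _ => by rw [hwm1 u, mul_one]]
      exact r5)
    (fun R₁ hR₁ X hX => by
      rw [hνsum]
      refine (r6 R₁ hR₁ X hX).trans (mul_le_mul_of_nonneg_right ?_ (Nat.cast_nonneg _))
      have h1 := hn₃ jm (by omega)
      have h2 : (8 : ℝ) / 5 / 2 ^ jm = 8 / 5 * (1 / 2 ^ jm) := by ring
      rw [h2]
      linarith)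
    (hcen N k κ δ (by omega) (by omega) G h3 hbr1 S hS hFa hf (by omega) hy
      (hsp G h3 (by omega) (by omega) hgκ p hp (farM_mono_b hpD (by omega)) S hS hFa8.base) hRmz)
    (fun T hT hTe => by
      obtain ⟨ε, e1, e2, e3⟩ := hsg T (hT.trans sdiff_subset) hTe w w1 w2
        (fun a ha => w3 a (mem_sdiff.1 (hT ha)).1)
      exact ⟨ε, e1, e2, fun R₁ hR₁ X hX => (e3 R₁ hR₁ X hX).trans
        (mul_le_mul_of_nonneg_right (by linarith) (Nat.cast_nonneg _))⟩)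
    hb.le hθ.le hη.le (hnk k (by omega)) (hnum j₀ κ (by omega) (by omega))
  obtain ⟨x, hx, hX⟩ := hw ε hε
  refine ⟨x, hx, fun X => ?_⟩
  obtain ⟨m1, m2⟩ := mark_cut_b hp X
  have h4 := hεX X
  rw [hνsum] at h4
  exact crit_arithE he2 (Nat.cast_nonneg _) m2 (by exact_mod_cast m1) (hX X) h4

end Pool.Agent.K5
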