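import Mathlib
import Pool.Agent.Work.MP_974d84_co_iso.Counting

/-!
# The symmetric local lemma for bits (W4a)
-/

set_option linter.unusedSectionVars false

namespace Pool.Agent.K5

open Finset Pool.Agent.Iso5

/-- `(2 / (2 - 1 / m)) ^ (m - 1) ≤ 2`. -/
theorem pow_two_div_le {m : ℕ} (hm : 1 ≤ m) :
    (2 * (1 / (2 - 1 / (m : ℝ)))) ^ (m - 1) ≤ 2 := by
  have hmR : (1 : ℝ) ≤ m := by exact_mod_cast hm
  have hm0 : (0 : ℝ) < m := by linarith
  have h12 : (1 : ℝ) / (2 * m) ≤ 1 / 2 := by
    rw [div_le_div_iff₀ (by positivity) (by norm_num)]; linarith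
  have f1 : (1 : ℝ) + ((m - 1 : ℕ) : ℝ) * (-(1 / (2 * m))) ≤
      (1 + (-(1 / (2 * m)))) ^ (m - 1) := by
    apply one_add_mul_le_pow
    linarith
  have f2 : ((m - 1 : ℕ) : ℝ) ≤ m := by exact_mod_cast Nat.sub_le m 1
  have f3 : ((m - 1 : ℕ) : ℝ) * (1 / (2 * m)) ≤ 1 / 2 := by
    calc ((m - 1 : ℕ) : ℝ) * (1 / (2 * m)) ≤ m * (1 / (2 * m)) := by gcongr
      _ = 1 / 2 := by field_simp
  have f4 : (1 : ℝ) / 2 ≤ (1 + (-(1 / (2 * m)))) ^ (m - 1) := by
    refine le_trans ?_ f1
    rw [mul_neg]; linarith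
  have f5 : 2 * (1 / (2 - 1 / (m : ℝ))) = (1 + (-(1 / (2 * (m : ℝ)))))⁻¹ := by
    have : (2 : ℝ) - 1 / m = 2 * (1 + (-(1 / (2 * (m : ℝ))))) := by
      field_simp
      ring
    rw [this]
    have h0 : (1 : ℝ) + (-(1 / (2 * (m : ℝ)))) ≠ 0 := by
      have : (0 : ℝ) < 1 + (-(1 / (2 * (m : ℝ)))) := by linarith
      exact this.ne'
    field_simp
  rw [f5, inv_pow]
  calc ((1 + (-(1 / (2 * (m : ℝ))))) ^ (m - 1))⁻¹ ≤ (1 / 2 : ℝ)⁻¹ :=
        inv_anti₀ (by norm_num) f4
    _ = 2 := by norm_num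

/-- W4a: the symmetric local lemma for bits. -/
theorem exists_bits {I E : Type} [Fintype I] [DecidableEq I] [Fintype E] (U : E → Finset I)
    (bad : E → (I → Bool) → Prop) [∀ e x, Decidable (bad e x)]
    (hdep : ∀ e x y, (∀ i ∈ U e, x i = y i) → bad e x → bad e y) {Δ m : ℕ} (hΔ1 : 1 ≤ Δ)
    (hm1 : 1 ≤ m)
    (hΔ : ∀ i, (univ.filter fun e => i ∈ U e).card ≤ Δ) (hm : ∀ e, (U e).card ≤ m)
    (hbad : ∀ e, 4 * Δ * m * (univ.filter fun x => bad e x).card ≤ 2 ^ Fintype.card I) :
    ∃ x, ∀ e, ¬ bad e x := by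
  classical
  let tb : Fin 2 → Bool := finTwoEquiv
  have htb : Function.Injective tb := finTwoEquiv.injective
  obtain ⟨bad', hbad'⟩ : ∃ bad' : E → (I → Fin 2) → Prop, ∀ e f, bad' e f ↔
      bad e (fun i => tb (f i)) := ⟨fun e f => bad e (fun i => tb (f i)), fun _ _ => Iff.rfl⟩
  have hmR : (1 : ℝ) ≤ m := by exact_mod_cast hm1
  have hm0 : (0 : ℝ) < m := by linarith
  have hinv : (1 : ℝ) / m ≤ 1 := by rw [div_le_one hm0]; exact hmR
  have hinv0 : (0 : ℝ) < 1 / m := by positivity
  have hΔR : (1 : ℝ) ≤ Δ := by exact_mod_cast hΔ1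
  have hΔ0 : (0 : ℝ) < Δ := by linarith
  have hcount : ∀ e, (4 * Δ * m : ℝ) * ((univ.filter (bad' e)).card : ℝ) ≤
      2 ^ Fintype.card I := by
    intro e
    have h1 : (univ.filter (bad' e)).card ≤ (univ.filter fun x => bad e x).card := by
      refine card_le_card_of_injOn (fun f i => tb (f i)) ?_ ?_
      · intro f hf
        have := (Finset.mem_filter.1 (Finset.mem_coe.1 hf)).2
        rw [hbad'] at this
        exact Finset.mem_coe.2 (Finset.mem_filter.2 ⟨mem_univ _, this⟩)
      · intro f _ g _ h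
        funext i
        exact htb (congrFun h i)
    have h2 : 4 * Δ * m * (univ.filter (bad' e)).card ≤ 2 ^ Fintype.card I :=
      le_trans (Nat.mul_le_mul_left _ h1) (hbad e)
    exact_mod_cast h2
  set β' : ℝ := 2 - 1 / m with hβ'
  have hβ0 : 0 < β' := by rw [hβ']; linarith
  have h2R : (0 : ℝ) < 2 ^ Fintype.card I := by positivity
  set Es : Finset E := univ.filter fun e => (U e).Nonempty with hEs
  have key := counting_card Es U bad' (ι := I) (q := 2)
    (by
      intro e _ f g hfg hf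
      rw [hbad'] at hf ⊢
      exact hdep e _ _ (fun i hi => by simp only [hfg i hi]) hf)
    (fun e => ((univ.filter (bad' e)).card : ℝ) / 2 ^ (Fintype.card I) * 2 ^ (U e).card)
    (fun e _ => by positivity)
    (by
      intro e _
      have h4 : (U e).card ≤ Fintype.card I := card_le_univ _
      have h5 : (2 : ℝ) ^ (U e).card * 2 ^ (Fintype.card I - (U e).card) =
          2 ^ Fintype.card I := by
        rw [← pow_add]; congr 1; omega
      have h6 : ((univ.filter (bad' e)).card : ℝ) / 2 ^ (Fintype.card I) * 2 ^ (U e).card *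
          ((2 : ℕ) : ℝ) ^ (Fintype.card I - (U e).card) = ((univ.filter (bad' e)).card : ℝ) := by
        push_cast
        rw [mul_assoc, h5, div_mul_cancel₀ _ h2R.ne']
      rw [h6])
    (fun e he => (mem_filter.1 he).2) hβ0
    (by
      intro x
      set S := Es.filter (fun e => x ∈ U e) with hS
      have hSD : S.card ≤ Δ := by
        refine le_trans (card_le_card ?_) (hΔ x)
        intro e he
        simp only [hS, mem_filter, mem_univ, true_and] at he ⊢
        exact he.2
      have hterm : ∀ e ∈ S, ((univ.filter (bad' e)).card : ℝ) / 2 ^ (Fintype.card I) *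
          2 ^ (U e).card * (1 / β') ^ ((U e).card - 1) ≤ 1 / (Δ * m) := by
        intro e he
        have hw : 1 ≤ (U e).card := card_pos.2 ⟨x, (mem_filter.1 he).2⟩
        have e1 : (2 : ℝ) ^ (U e).card = 2 * 2 ^ ((U e).card - 1) := by
          rw [← pow_succ']; congr 1; omega
        set P : ℝ := ((univ.filter (bad' e)).card : ℝ) / 2 ^ (Fintype.card I) with hP
        have hP0 : 0 ≤ P := by positivity
        have e2 : P * 2 ^ (U e).card * (1 / β') ^ ((U e).card - 1) =
            2 * P * (2 * (1 / β')) ^ ((U e).card - 1) := by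
          rw [e1, mul_pow]; ring
        rw [e2]
        have e3 : (1 : ℝ) ≤ 2 * (1 / β') := by
          rw [mul_one_div, le_div_iff₀ hβ0, hβ']; linarith
        have e4 : (2 * (1 / β')) ^ ((U e).card - 1) ≤ (2 * (1 / β')) ^ (m - 1) :=
          pow_le_pow_right₀ e3 (Nat.sub_le_sub_right (hm e) 1)
        have e5 : (2 * (1 / β')) ^ (m - 1) ≤ 2 := pow_two_div_le hm1
        have e6 : 4 * P ≤ 1 / (Δ * m) := by
          rw [le_div_iff₀ (by positivity)]
          have h7 := hcount e
          have : 4 * P * (Δ * m) = (4 * Δ * m : ℝ) * ((univ.filter (bad' e)).card : ℝ) /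
              2 ^ (Fintype.card I) := by
            rw [hP]; ring
          rw [this, div_le_one h2R]
          exact h7
        calc 2 * P * (2 * (1 / β')) ^ ((U e).card - 1) ≤ 2 * P * 2 :=
              mul_le_mul_of_nonneg_left (le_trans e4 e5) (by linarith)
          _ = 4 * P := by ring
          _ ≤ _ := e6
      refine le_trans (sum_le_sum hterm) ?_
      rw [sum_const, nsmul_eq_mul]
      have h8 : (S.card : ℝ) ≤ Δ := by exact_mod_cast hSD
      have h9 : (S.card : ℝ) * (1 / (Δ * m)) ≤ 1 / m := by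
        calc (S.card : ℝ) * (1 / (Δ * m)) ≤ Δ * (1 / (Δ * m)) := by gcongr
          _ = 1 / m := by field_simp
      push_cast
      rw [hβ']
      linarith)
  have hpos := lt_of_lt_of_le (pow_pos hβ0 _) key
  obtain ⟨f, hf⟩ := card_pos.1 (Nat.cast_pos.1 hpos)
  refine ⟨fun i => tb (f i), fun e he => ?_⟩
  simp only [Finset.mem_filter, mem_univ, true_and] at hf
  by_cases hU : (U e).Nonempty
  · exact hf e (mem_filter.2 ⟨mem_univ _, hU⟩) ((hbad' e f).2 he)
  · rw [not_nonempty_iff_eq_empty] at hU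
    have hall : (univ.filter fun x => bad e x) = univ := by
      apply filter_true_of_mem
      intro y _
      exact hdep e _ y (by rw [hU]; intro i hi; simp at hi) he
    have h1 := hbad e
    rw [hall, card_univ, Fintype.card_fun, Fintype.card_bool] at h1
    have h2 : 0 < 2 ^ Fintype.card I := by positivity
    have h3 : 1 * 1 ≤ Δ * m := Nat.mul_le_mul hΔ1 hm1
    nlinarith

end Pool.Agent.K5
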