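import Mathlib

/-!
# Counting bit vectors which avoid patterns on disjoint sets (W4b)
-/

namespace Pool.Agent.K5

open Finset

/-- The bit vectors which agree with `y` outside of `T`. -/
theorem card_agree {I : Type} [Fintype I] [DecidableEq I] (T : Finset I) (y : I → Bool) :
    (univ.filter fun x : I → Bool => ∀ i, i ∉ T → x i = y i).card = 2 ^ T.card := by
  have h : (univ.filter fun x : I → Bool => ∀ i, i ∉ T → x i = y i) =
      Fintype.piFinset (fun i => if i ∈ T then (univ : Finset Bool) else {y i}) := by
    ext x
    simp only [mem_filter, mem_univ, true_and, Fintype.mem_piFinset]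
    refine forall_congr' fun i => ?_
    by_cases hi : i ∈ T <;> simp [hi]
  rw [h, Fintype.card_piFinset]
  have h2 : ∀ i, (if i ∈ T then (univ : Finset Bool) else {y i}).card = if i ∈ T then 2 else 1 := by
    intro i
    by_cases hi : i ∈ T <;> simp [hi]
  simp only [h2]
  rw [Finset.prod_ite, prod_const, prod_const_one, mul_one]
  congr 2
  ext i
  simp

/-- A property which does not depend on the bits of `T` and the bits of `T` are independent. -/
theorem card_match {I : Type} [Fintype I] [DecidableEq I] (T : Finset I) (pat : I → Bool)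
    (P : (I → Bool) → Prop) [DecidablePred P]
    (hP : ∀ x y : I → Bool, (∀ i, i ∉ T → x i = y i) → P x → P y) :
    (univ.filter fun x : I → Bool => P x ∧ ∀ i ∈ T, x i = pat i).card * 2 ^ T.card =
      (univ.filter fun x : I → Bool => P x).card := by
  classical
  set f : (I → Bool) → (I → Bool) := fun x i => if i ∈ T then pat i else x i with hf
  have hmaps : ∀ x ∈ (univ.filter fun x : I → Bool => P x),
      f x ∈ (univ.filter fun x : I → Bool => P x ∧ ∀ i ∈ T, x i = pat i) := by
    intro x hx
    simp only [mem_filter, mem_univ, true_and] at hx ⊢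
    refine ⟨hP x (f x) (fun i hi => by simp [hf, hi]) hx, fun i hi => by simp [hf, hi]⟩
  rw [Finset.card_eq_sum_card_fiberwise hmaps]
  rw [Finset.sum_const_nat (m := 2 ^ T.card)]
  intro y hy
  simp only [mem_filter, mem_univ, true_and] at hy
  rw [← card_agree T y]
  congr 1
  ext x
  simp only [mem_filter, mem_univ, true_and]
  constructor
  · rintro ⟨-, h2⟩ i hi
    have := congrFun h2 i
    simpa [hf, hi] using this
  · intro h
    refine ⟨hP y x (fun i hi => (h i hi).symm) hy.1, ?_⟩
    funext i
    by_cases hi : i ∈ T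
    · simp [hf, hi, hy.2 i hi]
    · simp [hf, hi, h i hi]

/-- W4b: no one of `q` disjoint sets of `m` bits shows its pattern (subsets of the indices). -/
theorem count_avoid_aux {I A : Type} [Fintype I] [DecidableEq I] [DecidableEq A] {m : ℕ}
    (T : A → Finset I)
    (hd : ∀ a b, a ≠ b → Disjoint (T a) (T b)) (hc : ∀ a, (T a).card = m)
    (pat : A → I → Bool) (s : Finset A) :
    (univ.filter fun x : I → Bool => ∀ a ∈ s, ∃ i ∈ T a, x i ≠ pat a i).card * (2 ^ m) ^ s.card =
      2 ^ Fintype.card I * (2 ^ m - 1) ^ s.card := by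
  classical
  induction s using Finset.induction_on with
  | empty =>
    simp
  | insert a s ha ih =>
    rw [card_insert_of_notMem ha]
    set P : (I → Bool) → Prop := fun x => ∀ b ∈ s, ∃ i ∈ T b, x i ≠ pat b i with hPdef
    have hP : ∀ x y : I → Bool, (∀ i, i ∉ T a → x i = y i) → P x → P y := by
      intro x y hxy hx b hb
      obtain ⟨i, hi, hne⟩ := hx b hb
      have hab : b ≠ a := fun h => ha (h ▸ hb)
      have hia : i ∉ T a := Finset.disjoint_left.mp (hd b a hab) hi
      exact ⟨i, hi, by rw [← hxy i hia]; exact hne⟩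
    have h1 := card_match (T a) (pat a) P hP
    rw [hc a] at h1
    have h2 : (univ.filter fun x : I → Bool => ∀ b ∈ insert a s, ∃ i ∈ T b, x i ≠ pat b i).card +
        (univ.filter fun x : I → Bool => P x ∧ ∀ i ∈ T a, x i = pat a i).card =
        (univ.filter fun x : I → Bool => P x).card := by
      rw [← Finset.card_filter_add_card_filter_not (s := univ.filter fun x : I → Bool => P x)
        (fun x : I → Bool => ∃ i ∈ T a, x i ≠ pat a i)]
      congr 1
      · congr 1
        ext x
        simp only [mem_filter, mem_univ, true_and, mem_insert, forall_eq_or_imp, hPdef]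
        tauto
      · congr 1
        ext x
        simp only [mem_filter, mem_univ, true_and]
        push Not
        rfl
    set N := (univ.filter fun x : I → Bool => P x).card with hN
    set K := (univ.filter fun x : I → Bool => P x ∧ ∀ i ∈ T a, x i = pat a i).card with hK
    set L := (univ.filter fun x : I → Bool =>
      ∀ b ∈ insert a s, ∃ i ∈ T b, x i ≠ pat b i).card with hL
    have h3 : L * 2 ^ m = N * (2 ^ m - 1) := by
      have h4 : 1 ≤ 2 ^ m := Nat.one_le_two_pow
      have h5 : L * 2 ^ m + N = N * 2 ^ m := by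
        calc L * 2 ^ m + N = L * 2 ^ m + K * 2 ^ m := by rw [h1]
          _ = (L + K) * 2 ^ m := by ring
          _ = N * 2 ^ m := by rw [h2]
      have h6 : N * (2 ^ m - 1) + N = N * 2 ^ m := by
        obtain ⟨t, ht⟩ := Nat.exists_eq_add_of_le h4
        rw [ht]
        simp only [Nat.add_sub_cancel_left]
        ring
      omega
    calc L * (2 ^ m) ^ (s.card + 1) = (L * 2 ^ m) * (2 ^ m) ^ s.card := by ring
      _ = (N * (2 ^ m - 1)) * (2 ^ m) ^ s.card := by rw [h3]
      _ = (N * (2 ^ m) ^ s.card) * (2 ^ m - 1) := by ring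
      _ = (2 ^ Fintype.card I * (2 ^ m - 1) ^ s.card) * (2 ^ m - 1) := by rw [ih]
      _ = 2 ^ Fintype.card I * (2 ^ m - 1) ^ (s.card + 1) := by ring

/-- W4b, file BitsCount.lean: no one of `q` disjoint sets of `m` bits shows its pattern. -/
theorem count_avoid {I : Type} [Fintype I] [DecidableEq I] {q m : ℕ} (T : Fin q → Finset I)
    (hd : ∀ a b, a ≠ b → Disjoint (T a) (T b)) (hc : ∀ a, (T a).card = m)
    (pat : Fin q → I → Bool) :
    (univ.filter fun x : I → Bool => ∀ a, ∃ i ∈ T a, x i ≠ pat a i).card * (2 ^ m) ^ q =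
      2 ^ Fintype.card I * (2 ^ m - 1) ^ q := by
  have h := count_avoid_aux T hd hc pat univ
  simp only [card_univ, Fintype.card_fin] at h
  rw [← h]
  congr 2
  ext x
  simp

end Pool.Agent.K5
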