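import Mathlib
import Pool.Agent.Work.MP_974d84_co_k5.DefsW

/-!
# Route W: the labelling given by the bits of the segments
-/

set_option linter.unusedSectionVars false

namespace Pool.Agent.K5.PW

open Finset SimpleGraph Pool.Agent.Exp Pool.Agent.Log5 Pool.Agent.Log5.Clu Pool.Agent.K5

variable {V : Type} [Fintype V] [DecidableEq V]

/-- The sign of a bit. -/
def sgb (b : Bool) : ℤ := if b then 1 else -1

theorem sgb_cases (b : Bool) : sgb b = 1 ∨ sgb b = -1 := by cases b <;> simp [sgb]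

theorem neg_one_pow_cases (n : ℕ) : ((-1 : ℤ)) ^ n = 1 ∨ (-1 : ℤ) ^ n = -1 :=
  neg_one_pow_eq_or ℤ n

open Classical in
/-- The number of steps before the next start. -/
noncomputable def fw (π : Equiv.Perm V) (A : Finset V) (v : V) : ℕ :=
  if h : ∃ n, (π ^ n) (π v) ∈ A then Nat.find h else 0

/-- The next start. -/
noncomputable def ew (π : Equiv.Perm V) (A : Finset V) (v : V) : V := (π ^ (fw π A v)) (π v)

/-- The labelling given by the bits. -/
noncomputable def yb (π : Equiv.Perm V) (A : Finset V) (x : V → Bool) (v : V) : ℤ :=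
  (-1) ^ fw π A v * sgb (x (ew π A v))

variable {π : Equiv.Perm V} {A : Finset V} {v : V}

theorem ew_mem (h : ∃ n, (π ^ n) (π v) ∈ A) : ew π A v ∈ A := by
  classical
  unfold ew fw
  rw [dif_pos h]
  exact Nat.find_spec h

theorem ew_eq : ew π A v = (π ^ (fw π A v + 1)) v := by
  unfold ew
  rw [pow_succ, Equiv.Perm.mul_apply]

theorem fw_le {n : ℕ} (h : (π ^ n) (π v) ∈ A) : fw π A v ≤ n := by
  classical
  have h' : ∃ n, (π ^ n) (π v) ∈ A := ⟨n, h⟩
  unfold fw
  rw [dif_pos h']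
  exact Nat.find_min' h' h

theorem fw_lt {B : ℕ} (h : ∃ n < B, (π ^ n) (π v) ∈ A) : fw π A v < B := by
  obtain ⟨n, hn, hA⟩ := h
  exact lt_of_le_of_lt (fw_le hA) hn

theorem fw_zero (h : π v ∈ A) : fw π A v = 0 := Nat.le_zero.1 (fw_le (n := 0) (by simpa using h))

theorem ew_zero (h : π v ∈ A) : ew π A v = π v := by
  unfold ew
  rw [fw_zero h]
  simp

theorem fw_succ (h : ∃ n, (π ^ n) (π v) ∈ A) (hv : π v ∉ A) :
    fw π A v = fw π A (π v) + 1 := by
  have h1 := ew_mem h
  unfold ew at h1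
  set l := fw π A v with hl
  have hl0 : l ≠ 0 := by
    intro h0
    rw [h0] at h1
    exact hv (by simpa using h1)
  obtain ⟨l', hl'⟩ := Nat.exists_eq_succ_of_ne_zero hl0
  have h2 : (π ^ l') (π (π v)) ∈ A := by
    rw [hl', Nat.succ_eq_add_one, pow_succ, Equiv.Perm.mul_apply] at h1
    exact h1
  have h3 := fw_le h2
  have h4 := ew_mem ⟨l', h2⟩
  unfold ew at h4
  have h5 : (π ^ (fw π A (π v) + 1)) (π v) ∈ A := by
    rw [pow_succ, Equiv.Perm.mul_apply]
    exact h4
  have h6 := fw_le h5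
  omega

theorem ew_succ (h : ∃ n, (π ^ n) (π v) ∈ A) (hv : π v ∉ A) : ew π A v = ew π A (π v) := by
  rw [ew_eq, ew_eq, fw_succ h hv, pow_succ, Equiv.Perm.mul_apply]

theorem yb_sign (x : V → Bool) (v : V) : yb π A x v = 1 ∨ yb π A x v = -1 := by
  unfold yb
  rcases neg_one_pow_cases (fw π A v) with h | h <;>
    rcases sgb_cases (x (ew π A v)) with h' | h' <;> rw [h, h'] <;> simp

theorem yb_alt (x : V → Bool) (h : ∃ n, (π ^ n) (π v) ∈ A) (hv : π v ∉ A) :
    yb π A x (π v) = - yb π A x v := by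
  unfold yb
  rw [fw_succ h hv, ew_succ h hv, pow_succ]
  ring

theorem yb_congr {x x' : V → Bool} (h : x (ew π A v) = x' (ew π A v)) :
    yb π A x v = yb π A x' v := by
  unfold yb
  rw [h]

theorem yb_window (x : V → Bool) (hd : ∀ v, ∃ n, (π ^ n) v ∈ A) {a : V} {m : ℕ}
    (hA : ∀ j, 1 ≤ j → j ≤ m → (π ^ j) a ∉ A) :
    ∀ j ≤ m, yb π A x ((π ^ j) a) = (-1) ^ j * yb π A x a := by
  intro j
  induction j with
  | zero => intro _; simp
  | succ j ih =>
    intro hj
    have h1 := ih (by omega)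
    have h2 : (π ^ (j + 1)) a = π ((π ^ j) a) := by
      rw [pow_succ', Equiv.Perm.mul_apply]
    rw [h2, yb_alt x (hd _) (by rw [← h2]; exact hA (j + 1) (by omega) hj), h1, pow_succ]
    ring

/-- The starts after `a`. -/
noncomputable def itw (π : Equiv.Perm V) (A : Finset V) (j : ℕ) (a : V) : V := (ew π A)^[j] a

theorem itw_zero (a : V) : itw π A 0 a = a := rfl

theorem itw_succ (j : ℕ) (a : V) : itw π A (j + 1) a = ew π A (itw π A j a) := by
  unfold itw
  rw [Function.iterate_succ_apply']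

theorem exists_times {B : ℕ} (hd : ∀ v, ∃ n < B, (π ^ n) v ∈ A) (a : V) :
    ∃ f : ℕ → ℕ, f 0 = 0 ∧ (∀ j, f j < f (j + 1)) ∧ (∀ j, f j ≤ j * B) ∧
      ∀ j, itw π A j a = (π ^ (f j)) a := by
  let f : ℕ → ℕ := fun j => Nat.rec 0 (fun i r => r + (fw π A (itw π A i a) + 1)) j
  have hf : ∀ j, f (j + 1) = f j + (fw π A (itw π A j a) + 1) := fun j => rfl
  refine ⟨f, rfl, fun j => by rw [hf]; omega, ?_, ?_⟩
  · intro j
    induction j with
    | zero => exact Nat.zero_le _
    | succ j ih =>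
      have := fw_lt (hd (π (itw π A j a)))
      rw [hf, add_mul, one_mul]
      omega
  · intro j
    induction j with
    | zero => rfl
    | succ j ih =>
      have h1 : (π ^ (fw π A (itw π A j a) + 1 + f j)) a =
          (π ^ (fw π A (itw π A j a) + 1)) ((π ^ (f j)) a) := by
        rw [pow_add _ (fw π A (itw π A j a) + 1), Equiv.Perm.mul_apply]
      rw [itw_succ, ew_eq, hf, add_comm (f j), h1, ← ih]

end Pool.Agent.K5.PW
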