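import Mathlib
import Pool.Agent.Work.MP_974d84_co_k5.LabelW
import Pool.Agent.Work.MP_974d84_co_k5.BitsCount

/-!
# Route W: windows, zones and trees
-/

set_option linter.unusedSectionVars false

namespace Pool.Agent.K5.PW

open Finset SimpleGraph Pool.Agent.Exp Pool.Agent.Log5 Pool.Agent.Log5.Clu Pool.Agent.K5

variable {V : Type} [Fintype V] [DecidableEq V]

/-- The short lists. -/
def lsts : ℕ → Finset (List Bool)
  | 0 => ∅
  | n + 1 => insert [] ((lsts n ×ˢ (univ : Finset Bool)).image fun p => p.2 :: p.1)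

theorem mem_lsts {n : ℕ} {c : List Bool} : c ∈ lsts n ↔ c.length < n := by
  induction n generalizing c with
  | zero => simp [lsts]
  | succ n ih =>
    unfold lsts
    rw [mem_insert, mem_image]
    cases c with
    | nil => simp
    | cons b c =>
      simp only [List.length_cons]
      constructor
      · rintro (h | ⟨⟨c', b'⟩, h1, h2⟩)
        · simp at h
        · simp only [List.cons.injEq] at h2
          obtain ⟨rfl, rfl⟩ := h2
          rw [mem_product] at h1
          have := ih.1 h1.1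
          simp only at this
          omega
      · intro h
        right
        exact ⟨(c, b), mem_product.2 ⟨ih.2 (by simp only; omega), mem_univ _⟩, rfl⟩

variable {G : SimpleGraph V} [DecidableRel G.Adj] {μ : V → V} {π : Equiv.Perm V}

theorem adjMu (hf : Frame G μ π) (v : V) : G.Adj v (μ v) := (hf.adj _ _).2 (Or.inl rfl)

theorem adjStp (hf : Frame G μ π) (b : Bool) (v : V) : G.Adj v (stp π b v) := by
  unfold stp
  split_ifs
  · exact (hf.adj _ _).2 (Or.inr (Or.inl rfl))
  · exact (hf.adj _ _).2 (Or.inr (Or.inr rfl))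

theorem degF (hf : Frame G μ π) (v : V) : G.degree v = 3 := by
  rw [← card_neighborFinset_eq_degree]
  have : G.neighborFinset v = {μ v, π v, π.symm v} := by
    ext w
    rw [mem_neighborFinset, hf.adj]
    simp
  rw [this, card_insert_of_notMem, card_pair (hf.pi_ne v)]
  rw [mem_insert, mem_singleton, not_or]
  exact ⟨hf.mu_ne v, hf.mu_ne' v⟩

theorem TT_ball (hf : Frame G μ π) (v : V) (c : List Bool) :
    TT μ π v c ∈ Bl G.Adj (2 * c.length + 1) v := by
  induction c with
  | nil => exact mem_Bl_succ.2 (Or.inr ⟨v, Bl_self _ _, adjMu hf v⟩)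
  | cons b c ih =>
    rw [List.length_cons, show 2 * (c.length + 1) + 1 = 2 * c.length + 1 + 1 + 1 by ring]
    exact mem_Bl_succ.2 (Or.inr ⟨_, mem_Bl_succ.2 (Or.inr ⟨_, ih, adjStp hf b _⟩),
      adjMu hf _⟩)

theorem mem_zone {R q : ℕ} {a v : V} :
    v ∈ zone G π R q a ↔ ∃ j, j ≤ 2 * q ∧ v ∈ Bl G.Adj R ((π ^ j) a) := by
  unfold zone
  rw [mem_biUnion]
  constructor
  · rintro ⟨j, h1, h2⟩
    exact ⟨j, by rw [mem_range] at h1; omega, h2⟩
  · rintro ⟨j, h1, h2⟩
    exact ⟨j, by rw [mem_range]; omega, h2⟩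

theorem zone_card (hf : Frame G μ π) (R q : ℕ) (a : V) :
    (zone G π R q a).card ≤ (2 * q + 1) * (3 * 2 ^ R) := by
  unfold zone
  refine card_biUnion_le.trans ?_
  refine (sum_le_card_nsmul _ _ (3 * 2 ^ R) fun j _ => ?_).trans ?_
  · have := Bl_card G (degF hf) R ((π ^ j) a)
    omega
  · rw [card_range, smul_eq_mul]

theorem TT_zone (hf : Frame G μ π) {J R q i : ℕ} (hR : 2 * J + 1 ≤ R) (hi : i ≤ 2 * q) {a : V}
    {c : List Bool} (hc : c.length < J) : TT μ π ((π ^ i) a) c ∈ zone G π R q a :=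
  mem_zone.2 ⟨i, hi, Bl_mono (by omega) _ (TT_ball hf _ c)⟩

theorem pow_zone {R q i : ℕ} (hi : i ≤ 2 * q) (a : V) : (π ^ i) a ∈ zone G π R q a :=
  mem_zone.2 ⟨i, hi, Bl_self _ _⟩

theorem self_zone {R q : ℕ} (a : V) : a ∈ zone G π R q a :=
  mem_zone.2 ⟨0, Nat.zero_le _, by simpa using Bl_self _ a⟩

/-- The bits of a window. -/
noncomputable def Ub (G : SimpleGraph V) [DecidableRel G.Adj] (π : Equiv.Perm V) (R q N : ℕ)
    (a : V) : Finset V :=
  (range N ×ˢ zone G π R q a).image fun p => (π ^ p.1) p.2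

theorem mem_Ub {R q N : ℕ} {a z : V} :
    z ∈ Ub G π R q N a ↔ ∃ n < N, ∃ u ∈ zone G π R q a, (π ^ n) u = z := by
  unfold Ub
  rw [mem_image]
  constructor
  · rintro ⟨⟨n, u⟩, h, rfl⟩
    rw [mem_product, mem_range] at h
    exact ⟨n, h.1, u, h.2, rfl⟩
  · rintro ⟨n, h1, u, h2, rfl⟩
    exact ⟨(n, u), by rw [mem_product, mem_range]; exact ⟨h1, h2⟩, rfl⟩

theorem Ub_card (hf : Frame G μ π) (R q N : ℕ) (a : V) :
    (Ub G π R q N a).card ≤ N * ((2 * q + 1) * (3 * 2 ^ R)) := by
  unfold Ub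
  refine card_image_le.trans ?_
  rw [card_product, card_range]
  exact Nat.mul_le_mul_left _ (zone_card hf R q a)

theorem Ub_deg {R q B N : ℕ} {A : Finset V} (hA : Win G π R q B A) (z : V) :
    (A.filter fun a => z ∈ Ub G π R q N a).card ≤ N := by
  classical
  have hex : ∀ a, ∃ n, z ∈ Ub G π R q N a → n < N ∧ (π ^ n).symm z ∈ zone G π R q a := by
    intro a
    by_cases h : z ∈ Ub G π R q N a
    · obtain ⟨n, hn, u, hu, rfl⟩ := mem_Ub.1 h
      exact ⟨n, fun _ => ⟨hn, by simpa using hu⟩⟩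
    · exact ⟨0, fun h' => absurd h' h⟩
  choose g hg using hex
  have : (A.filter fun a => z ∈ Ub G π R q N a).card ≤ (range N).card := by
    refine card_le_card_of_injOn g ?_ ?_
    · intro a ha
      rw [mem_coe, mem_filter] at ha
      rw [mem_coe, mem_range]
      exact (hg a ha.2).1
    · intro a ha a' ha' h
      rw [mem_coe, mem_filter] at ha ha'
      by_contra hne
      have h1 := (hg a ha.2).2
      have h2 := (hg a' ha'.2).2
      rw [← h] at h2
      exact (Finset.disjoint_left.1 (hA.disj a ha.1 a' ha'.1 hne) h1) h2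
  rwa [card_range] at this

/-- No other start in a window. -/
theorem window_free {R q B : ℕ} {A : Finset V} (hA : Win G π R q B A)
    (hp : ∀ v n, 0 < n → n ≤ 2 * q → (π ^ n) v ≠ v) {a : V} (ha : a ∈ A) :
    ∀ j, 1 ≤ j → j ≤ 2 * q → (π ^ j) a ∉ A := by
  intro j hj1 hj2 hjA
  have h1 := hp a j (by omega) hj2
  exact (Finset.disjoint_left.1 (hA.disj a ha _ hjA (Ne.symm h1)) (pow_zone hj2 a))
    (self_zone _)

/-- Trees of a window have different next starts. -/
theorem ew_inj {J B q : ℕ} {A : Finset V} {a : V}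
    (hu : ∀ (b : V) (i j m n : ℕ) (c d : List Bool), i ≤ 2 * q → j ≤ 2 * q → m ≤ B → n ≤ B →
      c.length < J → d.length < J → (π ^ m) b = TT μ π ((π ^ i) a) c →
      (π ^ n) b = TT μ π ((π ^ j) a) d → i = j ∧ m = n ∧ c = d)
    (hfw : ∀ v, fw π A v + 1 ≤ B) {i j : ℕ} {c d : List Bool} (hi : i ≤ 2 * q) (hj : j ≤ 2 * q)
    (hc : c.length < J) (hd : d.length < J)
    (h : ew π A (TT μ π ((π ^ i) a) c) = ew π A (TT μ π ((π ^ j) a) d)) : i = j ∧ c = d := by
  have key : ∀ u : V, (π ^ (B - (fw π A u + 1))) ((π ^ B).symm (ew π A u)) = u := by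
    intro u
    have h1 := hfw u
    rw [ew_eq]
    have h2 : (π ^ B).symm = (π ^ (B - (fw π A u + 1))).symm * (π ^ (fw π A u + 1)).symm := by
      rw [← Equiv.Perm.inv_def, ← Equiv.Perm.inv_def, ← Equiv.Perm.inv_def, ← mul_inv_rev,
        ← pow_add]
      congr 2
      omega
    rw [h2, Equiv.Perm.mul_apply, Equiv.symm_apply_apply, Equiv.apply_symm_apply]
  have h1 := key (TT μ π ((π ^ i) a) c)
  have h2 := key (TT μ π ((π ^ j) a) d)
  rw [← h] at h2
  obtain ⟨r1, -, r2⟩ := hu _ i j _ _ c d hi hj (Nat.sub_le _ _) (Nat.sub_le _ _) hc hd h1 h2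
  exact ⟨r1, r2⟩

end Pool.Agent.K5.PW
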