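import Mathlib
import Pool.Agent.Work.MP_974d84_co_k5.PatternA

/-!
# Route W: counting the bad assignments
-/

set_option linter.unusedSectionVars false

namespace Pool.Agent.K5.PW

open Finset SimpleGraph Pool.Agent.Exp Pool.Agent.Log5 Pool.Agent.Log5.Clu Pool.Agent.K5

variable {V : Type} [Fintype V] [DecidableEq V] {μ : V → V} {π : Equiv.Perm V}

theorem fav_count {J B q : ℕ} {A : Finset V} {a : V}
    (hu : ∀ (b : V) (i j m n : ℕ) (c d : List Bool), i ≤ 2 * q → j ≤ 2 * q → m ≤ B → n ≤ B →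
      c.length < J → d.length < J → (π ^ m) b = TT μ π ((π ^ i) a) c →
      (π ^ n) b = TT μ π ((π ^ j) a) d → i = j ∧ m = n ∧ c = d)
    (hfw : ∀ v, fw π A v + 1 ≤ B)
    (hwin : ∀ x : V → Bool, ∀ j ≤ 2 * q, yb π A x ((π ^ j) a) = (-1) ^ j * yb π A x a)
    (s : ℤ) (hs : s = 1 ∨ s = -1) (S : Finset (V → Bool))
    (hS : ∀ x ∈ S, ¬ ∃ c, 1 ≤ c ∧ c ≤ 2 * q ∧ yb π A x ((π ^ c) a) = s ∧
      Fav μ π J (yb π A x) s ((π ^ (c - 1)) a) ∧ Fav μ π J (yb π A x) s ((π ^ c) a)) :
    S.card * (2 ^ (2 * (lsts J).card)) ^ q ≤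
      2 * (2 ^ Fintype.card V * (2 ^ (2 * (lsts J).card) - 1) ^ q) := by
  classical
  set m : ℕ := 2 * (lsts J).card with hm
  set u : ℕ × List Bool → V := fun p => TT μ π ((π ^ p.1) a) p.2 with hudef
  set Sx : ℕ → Fin q → Finset (ℕ × List Bool) :=
    fun δ t => {2 * (t : ℕ) + δ, 2 * (t : ℕ) + δ + 1} ×ˢ lsts J with hSx
  set T : ℕ → Fin q → Finset V := fun δ t => (Sx δ t).image fun p => ew π A (u p) with hT
  set want : V → Bool := fun v => decide ((-1 : ℤ) ^ fw π A v = -s) with hwantd
  have hinj : ∀ p p' : ℕ × List Bool, p.1 ≤ 2 * q → p.2.length < J → p'.1 ≤ 2 * q →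
      p'.2.length < J → ew π A (u p) = ew π A (u p') → p = p' := by
    intro p p' h1 h2 h3 h4 h
    obtain ⟨r1, r2⟩ := ew_inj hu hfw h1 h3 h2 h4 h
    exact Prod.ext r1 r2
  obtain ⟨patt, hpatt⟩ : ∃ patt : V → Bool, ∀ p : ℕ × List Bool, p.1 ≤ 2 * q → p.2.length < J →
      patt (ew π A (u p)) = want (u p) := by
    refine ⟨fun z => if h : ∃ p : ℕ × List Bool, p.1 ≤ 2 * q ∧ p.2.length < J ∧
      ew π A (u p) = z then want (u h.choose) else true, ?_⟩
    intro p h1 h2
    have hex : ∃ p' : ℕ × List Bool, p'.1 ≤ 2 * q ∧ p'.2.length < J ∧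
      ew π A (u p') = ew π A (u p) := ⟨p, h1, h2, rfl⟩
    simp only
    rw [dif_pos hex]
    have h3 := hex.choose_spec
    rw [hinj _ p h3.1 h3.2.1 h1 h2 h3.2.2]
  have hwant : ∀ (x : V → Bool) v, x (ew π A v) = want v → yb π A x v = -s := by
    intro x v h
    unfold yb
    rw [h]
    simp only [hwantd]
    by_cases h' : (-1 : ℤ) ^ fw π A v = -s
    · rw [decide_eq_true h', h']
      simp [sgb]
    · rw [decide_eq_false h']
      have h1 : (-1 : ℤ) ^ fw π A v = s := by
        rcases neg_one_pow_cases (fw π A v) with h2 | h2 <;> rcases hs with h3 | h3 <;>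
          rw [h2, h3] at h' ⊢ <;> simp at h'
      rw [h1]
      simp [sgb]
  have hbd : ∀ δ, δ ≤ 1 → ∀ t : Fin q, ∀ p ∈ Sx δ t, p.1 ≤ 2 * q ∧ p.2.length < J := by
    intro δ hδ t p hp
    rw [hSx] at hp
    rw [mem_product, mem_insert, mem_singleton, mem_lsts] at hp
    have := t.isLt
    exact ⟨by omega, hp.2⟩
  have hTd : ∀ δ, δ ≤ 1 → ∀ t t' : Fin q, t ≠ t' → Disjoint (T δ t) (T δ t') := by
    intro δ hδ t t' htt
    rw [Finset.disjoint_left]
    intro z hz hz'
    simp only [hT] at hz hz'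
    rw [mem_image] at hz hz'
    obtain ⟨p, hp, rfl⟩ := hz
    obtain ⟨p', hp', h⟩ := hz'
    obtain ⟨b1, b2⟩ := hbd δ hδ t p hp
    obtain ⟨b3, b4⟩ := hbd δ hδ t' p' hp'
    have h1 := hinj p' p b3 b4 b1 b2 h
    rw [h1] at hp'
    simp only [hSx] at hp hp'
    rw [mem_product, mem_insert, mem_singleton] at hp hp'
    apply htt
    apply Fin.ext
    omega
  have hTc : ∀ δ, δ ≤ 1 → ∀ t : Fin q, (T δ t).card = m := by
    intro δ hδ t
    simp only [hT]
    rw [card_image_of_injOn]
    · simp only [hSx]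
      rw [card_product, card_pair (by omega)]
    · intro p hp p' hp' h
      obtain ⟨b1, b2⟩ := hbd δ hδ t p hp
      obtain ⟨b3, b4⟩ := hbd δ hδ t p' hp'
      exact hinj p p' b1 b2 b3 b4 h
  have c0 := count_avoid (T 0) (hTd 0 (by omega)) (hTc 0 (by omega)) (fun _ => patt)
  have c1 := count_avoid (T 1) (hTd 1 le_rfl) (hTc 1 le_rfl) (fun _ => patt)
  have hsub : S ⊆ (univ.filter fun x : V → Bool => ∀ t, ∃ i ∈ T 0 t, x i ≠ patt i) ∪
      (univ.filter fun x : V → Bool => ∀ t, ∃ i ∈ T 1 t, x i ≠ patt i) := by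
    intro x hx
    have hx' := hS x hx
    have key : ∀ δ, δ ≤ 1 → (δ = 1 ↔ yb π A x a = s) → ∀ t, ∃ i ∈ T δ t, x i ≠ patt i := by
      intro δ hδ hδs t
      have ht := t.isLt
      have hc1 : yb π A x ((π ^ (2 * (t : ℕ) + δ + 1)) a) = s := by
        rw [hwin x _ (by omega)]
        rcases Nat.lt_or_ge δ 1 with h0 | h0
        · have h0' : δ = 0 := by omega
          subst h0'
          have h1 : yb π A x a ≠ s := fun h => absurd (hδs.2 h) (by omega)
          have h2 : yb π A x a = -s := by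
            rcases yb_sign (π := π) (A := A) x a with h3 | h3 <;> rcases hs with h4 | h4 <;>
              rw [h3, h4] at h1 ⊢ <;> revert h1 <;> decide
          rw [h2, Nat.add_zero, pow_succ, pow_mul]
          simp
        · have h0' : δ = 1 := by omega
          subst h0'
          rw [hδs.1 rfl, show 2 * (t : ℕ) + 1 + 1 = 2 * ((t : ℕ) + 1) by ring, pow_mul]
          simp
      by_contra hno
      push Not at hno
      apply hx'
      have hfav : ∀ i, (i = 2 * (t : ℕ) + δ ∨ i = 2 * (t : ℕ) + δ + 1) →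
          Fav μ π J (yb π A x) s ((π ^ i) a) := by
        intro i hi c hc
        have hp : ((i, c) : ℕ × List Bool) ∈ Sx δ t := by
          simp only [hSx]
          rw [mem_product, mem_insert, mem_singleton, mem_lsts]
          exact ⟨hi, hc⟩
        obtain ⟨b1, b2⟩ := hbd δ hδ t _ hp
        have h1 := hno _ (mem_image_of_mem (fun p => ew π A (u p)) hp)
        rw [hpatt _ b1 b2] at h1
        exact hwant x _ h1
      refine ⟨2 * (t : ℕ) + δ + 1, by omega, by omega, hc1, ?_, hfav _ (Or.inr rfl)⟩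
      rw [Nat.add_sub_cancel]
      exact hfav _ (Or.inl rfl)
    rw [mem_union, mem_filter, mem_filter]
    by_cases h : yb π A x a = s
    · right
      exact ⟨mem_univ _, key 1 le_rfl ⟨fun _ => h, fun _ => rfl⟩⟩
    · left
      exact ⟨mem_univ _, key 0 (by omega) ⟨fun h' => absurd h' (by omega), fun h' => absurd h' h⟩⟩
  calc S.card * (2 ^ m) ^ q ≤
      ((univ.filter fun x : V → Bool => ∀ t, ∃ i ∈ T 0 t, x i ≠ patt i).card +
      (univ.filter fun x : V → Bool => ∀ t, ∃ i ∈ T 1 t, x i ≠ patt i).card) * (2 ^ m) ^ q :=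
        Nat.mul_le_mul_right _ ((card_le_card hsub).trans (card_union_le _ _))
    _ = 2 * (2 ^ Fintype.card V * (2 ^ m - 1) ^ q) := by
        rw [add_mul]
        rw [c0, c1]
        ring

theorem near_count {q : ℕ} {A : Finset V} {a : V} (hd : ∀ v, ∃ n, (π ^ n) v ∈ A) (ha : a ∈ A)
    (hinj : ∀ i j, i ≤ q → j ≤ q → itw π A i a = itw π A j a → i = j) (S : Finset (V → Bool))
    (hS : ∀ x ∈ S, ∀ j < q, itw π A j a ∉ Dfc π A (yb π A x)) :
    S.card * 2 ^ (q + 1) ≤ 2 * 2 ^ Fintype.card V := by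
  classical
  have hA : ∀ j, itw π A j a ∈ A := by
    intro j
    cases j with
    | zero => exact ha
    | succ j => rw [itw_succ]; exact ew_mem (hd _)
  let g : Bool → ℕ → Bool := fun r j => Nat.rec r (fun i b =>
    if (-1 : ℤ) ^ fw π A (itw π A i a) = 1 then !b else b) j
  have hg0 : ∀ r, g r 0 = r := fun _ => rfl
  have hgs : ∀ r j, g r (j + 1) = if (-1 : ℤ) ^ fw π A (itw π A j a) = 1 then !(g r j) else g r j :=
    fun _ _ => rfl
  let T : Fin (q + 1) → Finset V := fun j => {itw π A j a}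
  have hTd : ∀ i j : Fin (q + 1), i ≠ j → Disjoint (T i) (T j) := by
    intro i j hij
    simp only [T]
    rw [disjoint_singleton]
    intro h
    exact hij (Fin.ext (hinj i j (by omega) (by omega) h))
  have hc := fun r => count_avoid T hTd (m := 1) (fun j => card_singleton _)
    (fun j _ => !(g r j))
  have hsub : S ⊆ (univ.filter fun x : V → Bool => ∀ j, ∃ i ∈ T j, x i ≠ !(g true j)) ∪
      (univ.filter fun x : V → Bool => ∀ j, ∃ i ∈ T j, x i ≠ !(g false j)) := by
    intro x hx
    have key : ∀ j, j ≤ q → x (itw π A j a) = g (x a) j := by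
      intro j
      induction j with
      | zero => intro _; rfl
      | succ j ih =>
        intro hj
        have h1 := ih (by omega)
        have h2 := hS x hx j (by omega)
        unfold Dfc at h2
        rw [mem_filter, not_and] at h2
        have h3 := h2 (hA j)
        set z := itw π A j a with hz
        have hz' : π (π.symm z) = z := Equiv.apply_symm_apply _ _
        have h4 : yb π A x (π.symm z) = sgb (x z) := by
          unfold yb
          rw [fw_zero (by rw [hz']; exact hA j), ew_zero (by rw [hz']; exact hA j), hz']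
          simp
        rw [h4] at h3
        unfold yb at h3
        rw [hgs, ← h1, itw_succ, ← hz]
        rcases neg_one_pow_cases (fw π A z) with h5 | h5
        · rw [if_pos h5]
          rw [h5] at h3
          cases hxz : x z <;> cases hxe : x (ew π A z) <;> simp [hxz, hxe, sgb] at h3 ⊢
        · rw [if_neg (by rw [h5]; decide)]
          rw [h5] at h3
          cases hxz : x z <;> cases hxe : x (ew π A z) <;> simp [hxz, hxe, sgb] at h3 ⊢
    rw [mem_union, mem_filter, mem_filter]
    have key2 : ∀ j : Fin (q + 1), ∃ i ∈ T j, x i ≠ !(g (x a) j) := by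
      intro j
      refine ⟨itw π A j a, mem_singleton_self _, ?_⟩
      rw [key j (by omega)]
      simp
    cases hxa : x a
    · right
      rw [hxa] at key2
      exact ⟨mem_univ _, key2⟩
    · left
      rw [hxa] at key2
      exact ⟨mem_univ _, key2⟩
  have h1 := hc true
  have h2 := hc false
  simp only [pow_one, Nat.add_one_sub_one, one_pow, mul_one] at h1 h2
  calc S.card * 2 ^ (q + 1) ≤
      ((univ.filter fun x : V → Bool => ∀ j, ∃ i ∈ T j, x i ≠ !(g true j)).card +
      (univ.filter fun x : V → Bool => ∀ j, ∃ i ∈ T j, x i ≠ !(g false j)).card) * 2 ^ (q + 1) :=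
        Nat.mul_le_mul_right _ ((card_le_card hsub).trans (card_union_le _ _))
    _ = 2 * 2 ^ Fintype.card V := by
        rw [add_mul, h1, h2]
        ring

end Pool.Agent.K5.PW
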