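import Mathlib
import Pool.Agent.Work.MP_974d84_co_k5.PatternB

/-!
# ROOM BG, E4: counting the assignments without a defect, some bits prescribed
-/

set_option linter.unusedSectionVars false

namespace Pool.Agent.K5.PW

open Finset SimpleGraph Pool.Agent.Exp Pool.Agent.Log5 Pool.Agent.Log5.Clu Pool.Agent.K5

variable {V : Type} [Fintype V] [DecidableEq V] {μ : V → V} {π : Equiv.Perm V}

theorem itw_add {A : Finset V} (i j : ℕ) (a : V) :
    itw π A (i + j) a = itw π A i (itw π A j a) := by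
  unfold itw
  rw [Function.iterate_add_apply]

/-- Among three disjoint blocks one is free. -/
theorem free_block {q : ℕ} (P : ℕ → Prop) [DecidablePred P]
    (h : ((range (3 * (q + 2))).filter P).card ≤ 2) :
    ∃ j₀, j₀ + q < 3 * (q + 2) ∧ ∀ j, j₀ ≤ j → j ≤ j₀ + q → ¬ P j := by
  by_contra hno
  push Not at hno
  obtain ⟨j0, a0, b0, c0⟩ := hno 0 (by omega)
  obtain ⟨j1, a1, b1, c1⟩ := hno (q + 1) (by omega)
  obtain ⟨j2, a2, b2, c2⟩ := hno (2 * (q + 1)) (by omega)
  have h1 : ({j0, j1, j2} : Finset ℕ) ⊆ (range (3 * (q + 2))).filter P := by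
    intro j hj
    rw [mem_insert, mem_insert, mem_singleton] at hj
    rw [mem_filter, mem_range]
    rcases hj with rfl | rfl | rfl
    · exact ⟨by omega, c0⟩
    · exact ⟨by omega, c1⟩
    · exact ⟨by omega, c2⟩
  have h2 : ({j0, j1, j2} : Finset ℕ).card = 3 := by
    rw [card_insert_of_notMem, card_pair (by omega)]
    rw [mem_insert, mem_singleton]
    omega
  have h3 := card_le_card h1
  omega

theorem near_count_e {q : ℕ} {A Ap Fx : Finset V} {a : V} (hd : ∀ v, ∃ n, (π ^ n) v ∈ Ap)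
    (ha : a ∈ Ap) (hsub : ∀ z ∈ Ap, z ∉ Fx → z ∈ A)
    (hinj : ∀ i j, i ≤ 3 * (q + 2) → j ≤ 3 * (q + 2) → itw π Ap i a = itw π Ap j a → i = j)
    (hfew : ((range (3 * (q + 2))).filter fun j => itw π Ap j a ∈ Fx).card ≤ 2)
    (ov : (V → Bool) → V → Bool) (hov : ∀ x z, z ∉ Fx → ov x z = x z) (S : Finset (V → Bool))
    (hS : ∀ x ∈ S, ∀ j < 3 * (q + 2), itw π Ap j a ∉ Dfc π A (yb π Ap (ov x))) :
    S.card * 2 ^ (q + 1) ≤ 2 * 2 ^ Fintype.card V := by
  obtain ⟨j₀, hj₀, hfree⟩ := free_block (fun j => itw π Ap j a ∈ Fx) hfew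
  have hAp : ∀ j, itw π Ap j a ∈ Ap := by
    intro j
    cases j with
    | zero => exact ha
    | succ j => rw [itw_succ]; exact ew_mem (hd _)
  refine near_count (A := Ap) (a := itw π Ap j₀ a) hd (hAp j₀) ?_ S ?_
  · intro i j hi hj h
    rw [← itw_add, ← itw_add] at h
    have := hinj (i + j₀) (j + j₀) (by omega) (by omega) h
    omega
  · intro x hx j hj hD
    rw [← itw_add] at hD
    have h0 : itw π Ap (j + j₀) a ∉ Fx := hfree (j + j₀) (by omega) (by omega)
    have h1 : itw π Ap (j + j₀ + 1) a ∉ Fx := hfree (j + j₀ + 1) (by omega) (by omega)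
    apply hS x hx (j + j₀) (by omega)
    set z := itw π Ap (j + j₀) a with hz
    unfold Dfc at hD ⊢
    rw [mem_filter] at hD ⊢
    refine ⟨hsub z (hAp _) h0, ?_⟩
    have h2 : π (π.symm z) ∈ Ap := by rw [Equiv.apply_symm_apply]; exact hAp _
    have h3 : yb π Ap (ov x) (π.symm z) = yb π Ap x (π.symm z) := by
      apply yb_congr
      rw [ew_zero h2, Equiv.apply_symm_apply]
      exact hov x z h0
    have h4 : yb π Ap (ov x) z = yb π Ap x z := by
      apply yb_congr
      rw [hz, ← itw_succ]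
      exact hov x _ h1
    rw [h3, h4]
    exact hD.2

end Pool.Agent.K5.PW
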