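import Mathlib
import Pool.Agent.Work.MP_974d84_co_k5.NearE

/-!
# ROOM BG, E4: counting the assignments without a defect, `m₀` prescribed bits
-/

set_option linter.unusedSectionVars false

namespace Pool.Agent.K5.PW

open Finset SimpleGraph Pool.Agent.Exp Pool.Agent.Log5 Pool.Agent.Log5.Clu Pool.Agent.K5

variable {V : Type} [Fintype V] [DecidableEq V] {μ : V → V} {π : Equiv.Perm V}

/-- Among `m₀ + 1` disjoint blocks one is free. -/
theorem free_block_m {q m₀ : ℕ} (P : ℕ → Prop) [DecidablePred P]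
    (h : ((range ((m₀ + 1) * (q + 2))).filter P).card ≤ m₀) :
    ∃ j₀, j₀ + q < (m₀ + 1) * (q + 2) ∧ ∀ j, j₀ ≤ j → j ≤ j₀ + q → ¬ P j := by
  by_contra hno
  push Not at hno
  have hlt : ∀ b, b ≤ m₀ → b * (q + 2) + q < (m₀ + 1) * (q + 2) := by
    intro b hb
    have : (b + 1) * (q + 2) ≤ (m₀ + 1) * (q + 2) := Nat.mul_le_mul_right _ (by omega)
    rw [add_mul] at this
    omega
  have hex : ∀ b, ∃ j, b ≤ m₀ → b * (q + 2) ≤ j ∧ j ≤ b * (q + 2) + q ∧ P j := by
    intro b
    by_cases hb : b ≤ m₀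
    · obtain ⟨j, h1, h2, h3⟩ := hno (b * (q + 2)) (hlt b hb)
      exact ⟨j, fun _ => ⟨h1, h2, h3⟩⟩
    · exact ⟨0, fun h => absurd h hb⟩
  choose j hj using hex
  have h1 : (range (m₀ + 1)).card ≤ ((range ((m₀ + 1) * (q + 2))).filter P).card := by
    refine card_le_card_of_injOn j ?_ ?_
    · intro b hb
      rw [mem_coe, mem_range] at hb
      obtain ⟨h2, h3, h4⟩ := hj b (by omega)
      rw [mem_coe, mem_filter, mem_range]
      have := hlt b (by omega)
      exact ⟨by omega, h4⟩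
    · intro b hb b' hb' he
      rw [mem_coe, mem_range] at hb hb'
      obtain ⟨h2, h3, -⟩ := hj b (by omega)
      obtain ⟨h2', h3', -⟩ := hj b' (by omega)
      rw [he] at h2 h3
      rcases Nat.lt_trichotomy b b' with h | h | h
      · have : (b + 1) * (q + 2) ≤ b' * (q + 2) := Nat.mul_le_mul_right _ h
        rw [add_mul] at this
        omega
      · exact h
      · have : (b' + 1) * (q + 2) ≤ b * (q + 2) := Nat.mul_le_mul_right _ h
        rw [add_mul] at this
        omega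
  rw [card_range] at h1
  omega

theorem near_count_m {q m₀ : ℕ} {A Ap Fx : Finset V} {a : V} (hd : ∀ v, ∃ n, (π ^ n) v ∈ Ap)
    (ha : a ∈ Ap) (hsub : ∀ z ∈ Ap, z ∉ Fx → z ∈ A)
    (hinj : ∀ i j, i ≤ (m₀ + 1) * (q + 2) → j ≤ (m₀ + 1) * (q + 2) →
      itw π Ap i a = itw π Ap j a → i = j)
    (hfew : ((range ((m₀ + 1) * (q + 2))).filter fun j => itw π Ap j a ∈ Fx).card ≤ m₀)
    (ov : (V → Bool) → V → Bool) (hov : ∀ x z, z ∉ Fx → ov x z = x z) (S : Finset (V → Bool))
    (hS : ∀ x ∈ S, ∀ j < (m₀ + 1) * (q + 2), itw π Ap j a ∉ Dfc π A (yb π Ap (ov x))) :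
    S.card * 2 ^ (q + 1) ≤ 2 * 2 ^ Fintype.card V := by
  obtain ⟨j₀, hj₀, hfree⟩ := free_block_m (fun j => itw π Ap j a ∈ Fx) hfew
  have hAp : ∀ j, itw π Ap j a ∈ Ap := by
    intro j
    cases j with
    | zero => exact ha
    | succ j => rw [itw_succ]; exact ew_mem (hd _)
  refine near_count (A := Ap) (a := itw π Ap j₀ a) hd (hAp j₀) ?_ S ?_
  · intro i j hi hj h
    rw [← itw_add, ← itw_add] at h
    have := hinj (i + j₀) (j + j₀) (by omega) (by omega) h
    omega
  · intro x hx j hj hD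
    rw [← itw_add] at hD
    have h0 : itw π Ap (j + j₀) a ∉ Fx := hfree (j + j₀) (by omega) (by omega)
    have h1 : itw π Ap (j + j₀ + 1) a ∉ Fx := hfree (j + j₀ + 1) (by omega) (by omega)
    apply hS x hx (j + j₀) (by omega)
    set z := itw π Ap (j + j₀) a with hz
    unfold Dfc at hD ⊢
    rw [mem_filter] at hD ⊢
    refine ⟨hsub z (hAp _) h0, ?_⟩
    have h2 : π (π.symm z) ∈ Ap := by rw [Equiv.apply_symm_apply]; exact hAp _
    have h3 : yb π Ap (ov x) (π.symm z) = yb π Ap x (π.symm z) := by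
      apply yb_congr
      rw [ew_zero h2, Equiv.apply_symm_apply]
      exact hov x z h0
    have h4 : yb π Ap (ov x) z = yb π Ap x z := by
      apply yb_congr
      rw [hz, ← itw_succ]
      exact hov x _ h1
    rw [h3, h4]
    exact hD.2

end Pool.Agent.K5.PW
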