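import Mathlib
import Pool.Agent.Work.MP_974d84_co_k5.DefsE
import Pool.Agent.Work.MP_974d84_co_k5.PatternB
import Pool.Agent.Work.MP_974d84_co_k5.Words

/-!
# The pattern with marks (E4): definitions
-/

set_option linter.unusedSectionVars false

namespace Pool.Agent.K5.PE

open Finset SimpleGraph Pool.Agent.Exp Pool.Agent.Log5 Pool.Agent.Log5.Clu Pool.Agent.K5
  Pool.Agent.K5.PW

variable {V : Type} [Fintype V] [DecidableEq V]

open Classical in
/-- The starts of the windows and the second ends of the marked circuit edges. -/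
noncomputable def A1 (π : Equiv.Perm V) (A : Finset V) (p : V → V → ℝ) : Finset V :=
  A ∪ univ.filter fun v => p (π.symm v) v ≠ 0

/-- The prescribed signs. -/
inductive Pr (μ : V → V) (π : Equiv.Perm V) (J : ℕ) (p : V → V → ℝ) : V → ℤ → Prop
  | circ (v : V) (h : p v (π v) ≠ 0) (i : ℕ) (hi : i ≤ 1) : Pr μ π J p ((π ^ i) v) (sg (p v (π v)))
  | tree (v : V) (h : p v (π v) ≠ 0) (i : ℕ) (hi : i ≤ 1) (c : List Bool) (hc : c.length < J) :
      Pr μ π J p (TT μ π ((π ^ i) v) c) (- sg (p v (π v)))
  | third (v : V) (h : p v (μ v) ≠ 0) (c : List Bool) (hc : c.length < J) :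
      Pr μ π J p (TT μ π v c) (sg (p v (μ v)))

open Classical in
/-- The bits, corrected at the prescribed segments (a segment is named by the start after it). -/
noncomputable def ovr (π : Equiv.Perm V) (A : Finset V) (P : V → ℤ → Prop) (x : V → Bool)
    (z : V) : Bool :=
  if h : ∃ t : V × ℤ, P t.1 t.2 ∧ ew π A t.1 = z then
    decide ((-1) ^ fw π A h.choose.1 = h.choose.2) else x z

/-- The start `z` is the end of a prescribed segment. -/
def Pz (π : Equiv.Perm V) (A : Finset V) (P : V → ℤ → Prop) (z : V) : Prop :=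
  ∃ t : V × ℤ, P t.1 t.2 ∧ ew π A t.1 = z

end Pool.Agent.K5.PE
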