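import Mathlib
import Pool.Agent.Work.MP_974d84_co_k5.PatEDefs

/-!
# The pattern with marks (E4): no conflict between prescribed signs (P1)
-/

set_option linter.unusedSectionVars false

namespace Pool.Agent.K5.PE

open Finset SimpleGraph Pool.Agent.Exp Pool.Agent.Log5 Pool.Agent.Log5.Clu Pool.Agent.K5
  Pool.Agent.K5.PW Pool.Agent.K5.Wd

variable {V : Type} [Fintype V] [DecidableEq V]

theorem pow_add_ap (π : Equiv.Perm V) (m n : ℕ) (v : V) :
    (π ^ (m + n)) v = (π ^ m) ((π ^ n) v) := by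
  rw [pow_add, Equiv.Perm.mul_apply]

theorem mem_A1 {π : Equiv.Perm V} {A : Finset V} {p : V → V → ℝ} {v : V} :
    v ∈ A1 π A p ↔ v ∈ A ∨ p (π.symm v) v ≠ 0 := by
  unfold A1
  rw [mem_union, mem_filter]
  simp

theorem pi_mem_A1 {π : Equiv.Perm V} {A : Finset V} {p : V → V → ℝ} {v : V}
    (h : p v (π v) ≠ 0) : π v ∈ A1 π A p := by
  rw [mem_A1, Equiv.symm_apply_apply]
  exact Or.inr h

/-- Two marked edges with near prescribed vertices agree. -/
theorem same_mark {G : SimpleGraph V} [DecidableRel G.Adj] {μ : V → V} {π : Equiv.Perm V}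
    (hf : Frame G μ π) {D m m' n : ℕ} {p : V → V → ℝ} (hpD : FarM G D p) (hD : m + n + m' ≤ D)
    {e e' f f' u : V} (he : p e e' ≠ 0) (hf' : p f f' ≠ 0) (hu : u ∈ Bl G.Adj m e)
    (hu' : (π ^ n) u ∈ Bl G.Adj m' f) : (f = e ∧ f' = e') ∨ (f = e' ∧ f' = e) := by
  have h1 : (π ^ n) u ∈ Bl G.Adj (m + n) e := Bl_comp hu (pow_mem_Bl hf n u)
  have h2 : f ∈ Bl G.Adj m' ((π ^ n) u) := Bl_symm (fun _ _ h => h.symm) hu'
  exact hpD e e' f f' he hf' (Bl_mono hD _ (Bl_comp h1 h2))

theorem pi_pi_ne {G : SimpleGraph V} {μ : V → V} {π : Equiv.Perm V} (hf : Frame G μ π) {v : V} :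
    π (π v) ≠ v := by
  intro h
  exact hf.pi_ne v ((Equiv.eq_symm_apply π).2 h)

/-- One direction along the circuit. -/
theorem pr_dir {G : SimpleGraph V} [DecidableRel G.Adj] {μ : V → V} {π : Equiv.Perm V}
    (hf : Frame G μ π) {k J B D : ℕ} (hg : Gir G k) (hk : 2 * B + 4 * J + 20 ≤ k)
    {p : V → V → ℝ} (hp : Marks G p) (hpD : FarM G D p) (hD : B + 4 * J + 8 ≤ D) {A : Finset V}
    {u u' : V} {s s' : ℤ} (h : Pr μ π J p u s) (h' : Pr μ π J p u' s') {n : ℕ} (hn : n < B)
    (hu : (π ^ n) u = u') (hno : ∀ j, 1 ≤ j → j ≤ n → (π ^ j) u ∉ A1 π A p) :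
    u = u' ∧ s = s' := by
  have b1 : ∀ (v : V) (i : ℕ), i ≤ 1 → (π ^ i) v ∈ Bl G.Adj (2 * J + 1) v := fun v i hi =>
    Bl_mono (by omega) _ (pow_mem_Bl hf i v)
  have b2 : ∀ (v : V) (i : ℕ) (c : List Bool), i ≤ 1 → c.length < J →
      TT μ π ((π ^ i) v) c ∈ Bl G.Adj (2 * J + 1) v := fun v i c hi hc =>
    Bl_mono (by omega : i + (2 * c.length + 1) ≤ _) _
      (Bl_comp (pow_mem_Bl hf i v) (TT_mem_Bl hf _ c))
  have b3 : ∀ (v : V) (c : List Bool), c.length < J →
      TT μ π v c ∈ Bl G.Adj (2 * J + 1) v := fun v c hc =>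
    Bl_mono (by omega : 2 * c.length + 1 ≤ _) _ (TT_mem_Bl hf _ c)
  have key : ∀ {e e' f f' : V}, p e e' ≠ 0 → p f f' ≠ 0 → u ∈ Bl G.Adj (2 * J + 1) e →
      u' ∈ Bl G.Adj (2 * J + 1) f → (f = e ∧ f' = e') ∨ (f = e' ∧ f' = e) :=
    fun h1 h2 h3 h4 => same_mark (m := 2 * J + 1) (m' := 2 * J + 1) (n := n) hf hpD
      (by omega) h1 h2 h3 (by rw [hu]; exact h4)
  -- mark of a circuit edge and mark of a third edge
  have mix : ∀ {e f : V}, ¬ ((f = e ∧ μ f = π e) ∨ (f = π e ∧ μ f = e)) := by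
    rintro e f (⟨rfl, h⟩ | ⟨rfl, h⟩)
    · exact hf.mu_ne _ h
    · exact hf.mu_ne' (π e) (by rw [h, Equiv.symm_apply_apply])
  have mix' : ∀ {e f : V}, ¬ ((f = e ∧ π f = μ e) ∨ (f = μ e ∧ π f = e)) := by
    rintro e f (⟨rfl, h⟩ | ⟨rfl, h⟩)
    · exact hf.mu_ne _ h.symm
    · exact hf.mu_ne' e ((Equiv.eq_symm_apply π).2 h)
  have cc : ∀ {e f : V}, ((f = e ∧ π f = π e) ∨ (f = π e ∧ π f = e)) → f = e := by
    rintro e f (⟨rfl, h⟩ | ⟨rfl, h⟩)
    · rfl
    · exact absurd h (pi_pi_ne hf)
  cases h with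
  | circ v hv i hi =>
    cases h' with
    | circ v' hv' i' hi' =>
      obtain rfl := cc (key hv hv' (b1 v i hi) (b1 v' i' hi'))
      have h1 : n + i = i' := by
        by_contra hne
        rw [← pow_add_ap] at hu
        rcases Nat.lt_or_ge (n + i) i' with h2 | h2
        · apply pow_ne hf hg (n := i' - (n + i)) (by omega) (by omega) ((π ^ (n + i)) v')
          rw [← pow_add_ap, Nat.sub_add_cancel h2.le]
          exact hu.symm
        · apply pow_ne hf hg (n := n + i - i') (by omega) (by omega) ((π ^ i') v')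
          rw [← pow_add_ap, Nat.sub_add_cancel h2]
          exact hu
      rcases Nat.eq_zero_or_pos n with h2 | h2
      · subst h2
        obtain rfl : i = i' := by omega
        exact ⟨rfl, rfl⟩
      · exfalso
        obtain rfl : n = 1 := by omega
        obtain rfl : i = 0 := by omega
        apply hno 1 le_rfl le_rfl
        rw [pow_zero, Equiv.Perm.one_apply, pow_one]
        exact pi_mem_A1 hv
    | tree v' hv' i' hi' c' hc' =>
      obtain rfl := cc (key hv hv' (b1 v i hi) (b2 v' i' c' hi' hc'))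
      exfalso
      rw [← pow_add_ap] at hu
      exact tree_ne hf hg (a := v') (i := i') (m := 0) (n := n + i) (c := c') (by omega)
        (by rw [pow_zero, Equiv.Perm.one_apply]; exact hu.symm)
    | third v' hv' c' hc' =>
      exact absurd (key hv hv' (b1 v i hi) (b3 v' c' hc')) mix
  | tree v hv i hi c hc =>
    cases h' with
    | circ v' hv' i' hi' =>
      obtain rfl := cc (key hv hv' (b2 v i c hi hc) (b1 v' i' hi'))
      exfalso
      exact tree_ne hf hg (a := v') (i := i) (m := n) (n := i') (c := c) (by omega) hu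
    | tree v' hv' i' hi' c' hc' =>
      obtain rfl := cc (key hv hv' (b2 v i c hi hc) (b2 v' i' c' hi' hc'))
      obtain ⟨h1, h2, h3⟩ := tree_uniq hf hg (a := v') (b := TT μ π ((π ^ i) v') c) (i := i)
        (j := i') (m := 0) (n := n) (c := c) (d := c') (by omega) rfl hu
      subst h1 h3
      exact ⟨rfl, rfl⟩
    | third v' hv' c' hc' =>
      exact absurd (key hv hv' (b2 v i c hi hc) (b3 v' c' hc')) mix
  | third v hv c hc =>
    cases h' with
    | circ v' hv' i' hi' =>
      exact absurd (key hv hv' (b3 v c hc) (b1 v' i' hi')) mix'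
    | tree v' hv' i' hi' c' hc' =>
      exact absurd (key hv hv' (b3 v c hc) (b2 v' i' c' hi' hc')) mix'
    | third v' hv' c' hc' =>
      rcases key hv hv' (b3 v c hc) (b3 v' c' hc') with ⟨rfl, -⟩ | ⟨rfl, -⟩
      · obtain ⟨h1, h2, h3⟩ := tree_uniq hf hg (a := v') (b := TT μ π v' c) (i := 0)
          (j := 0) (m := 0) (n := n) (c := c) (d := c') (by omega) rfl hu
        subst h3
        exact ⟨rfl, rfl⟩
      · exfalso
        -- `v` is the first vertex after `a`
        set a := π.symm v with ha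
        have hv1 : (π ^ 1) a = v := by rw [pow_one, ha, Equiv.apply_symm_apply]
        rcases List.eq_nil_or_concat c' with rfl | ⟨d, b, rfl⟩
        · have h1 : TT μ π (μ v) [] = v := hf.mu_mu v
          rw [h1] at hu
          exact tree_ne hf hg (a := a) (i := 1) (m := n) (n := 1) (c := c) (by omega)
            (by rw [hv1]; exact hu)
        · rw [List.concat_eq_append, List.length_append, List.length_singleton] at hc'
          have h1 : ∀ d : List Bool, TT μ π (μ v) (d ++ [b]) = TT μ π (stp π b v) d := by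
            intro d
            induction d with
            | nil =>
              show μ (stp π b (μ (μ v))) = μ (stp π b v)
              rw [hf.mu_mu]
            | cons e d ih =>
              show μ (stp π e (TT μ π (μ v) (d ++ [b]))) = μ (stp π e (TT μ π (stp π b v) d))
              rw [ih]
          rw [List.concat_eq_append, h1] at hu
          have h2 : ∃ j, j ≤ 2 ∧ j ≠ 1 ∧ stp π b v = (π ^ j) a := by
            cases b with
            | true =>
              refine ⟨2, le_rfl, by omega, ?_⟩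
              show π v = _
              rw [pow_succ', Equiv.Perm.mul_apply, hv1]
            | false => exact ⟨0, by omega, by omega, rfl⟩
          obtain ⟨j, hj1, hj2, hj3⟩ := h2
          rw [hj3] at hu
          obtain ⟨r1, -, -⟩ := tree_uniq hf hg (a := a) (b := TT μ π v c) (i := 1)
            (j := j) (m := 0) (n := n) (c := c) (d := d) (by omega) (by rw [hv1]; rfl) hu
          exact hj2 r1.symm

/-- P1: no conflict between prescribed signs. -/
theorem pr_conf {G : SimpleGraph V} [DecidableRel G.Adj] {μ : V → V} {π : Equiv.Perm V}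
    (hf : Frame G μ π) {k J B D : ℕ} (hg : Gir G k) (hk : 2 * B + 4 * J + 20 ≤ k)
    {p : V → V → ℝ} (hp : Marks G p) (hpD : FarM G D p) (hD : B + 4 * J + 8 ≤ D) {A : Finset V}
    (hd : ∀ v, ∃ n < B, (π ^ n) v ∈ A1 π A p) {u u' : V} {s s' : ℤ} (h : Pr μ π J p u s)
    (h' : Pr μ π J p u' s') (he : ew π (A1 π A p) u = ew π (A1 π A p) u') : u = u' ∧ s = s' := by
  have key : ∀ {u u' : V} {s s' : ℤ}, Pr μ π J p u s → Pr μ π J p u' s' →
      ew π (A1 π A p) u = ew π (A1 π A p) u' → fw π (A1 π A p) u' ≤ fw π (A1 π A p) u →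
      u = u' ∧ s = s' := by
    intro u u' s s' h h' he hle
    have h1 : (π ^ (fw π (A1 π A p) u - fw π (A1 π A p) u')) u = u' := by
      apply (π ^ (fw π (A1 π A p) u' + 1)).injective
      rw [← pow_add_ap, ← ew_eq, ← he, ew_eq]
      congr 2
      omega
    refine pr_dir (A := A) hf hg hk hp hpD hD h h' ?_ h1 ?_
    · have := fw_lt (hd (π u))
      omega
    · intro j hj1 hj2 hA
      obtain ⟨i, rfl⟩ : ∃ i, j = i + 1 := ⟨j - 1, by omega⟩
      have h2 : (π ^ i) (π u) ∈ A1 π A p := by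
        rw [pow_succ, Equiv.Perm.mul_apply] at hA
        exact hA
      have := fw_le h2
      omega
  rcases le_total (fw π (A1 π A p) u') (fw π (A1 π A p) u) with hle | hle
  · exact key h h' he hle
  · obtain ⟨h1, h2⟩ := key h' h he.symm hle
    exact ⟨h1.symm, h2.symm⟩

end Pool.Agent.K5.PE
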