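import Mathlib
import Pool.Agent.Work.MP_974d84_co_k5.DefsE
import Pool.Agent.Work.MP_974d84_co_k5.PatternB
import Pool.Agent.Work.MP_974d84_co_k5.Words

/-!
# The pattern with marks (E4): few prescribed segments near a vertex
-/

set_option linter.unusedSectionVars false

namespace Pool.Agent.K5.PW

open Finset SimpleGraph Pool.Agent.Exp Pool.Agent.Log5 Pool.Agent.Log5.Clu Pool.Agent.K5

variable {V : Type} [Fintype V] [DecidableEq V]

/-- The prescribed vertices of an end of a mark. -/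
def Pt (μ : V → V) (π : Equiv.Perm V) (J : ℕ) (u : V) : Finset V :=
  insert u ((lsts J).image (TT μ π u))

theorem mem_Pt {μ : V → V} {π : Equiv.Perm V} {J : ℕ} {u t : V} :
    t ∈ Pt μ π J u ↔ t = u ∨ ∃ c : List Bool, c.length < J ∧ t = TT μ π u c := by
  unfold Pt
  rw [mem_insert, mem_image]
  constructor
  · rintro (h | ⟨c, hc, h⟩)
    · exact Or.inl h
    · exact Or.inr ⟨c, mem_lsts.1 hc, h.symm⟩
  · rintro (h | ⟨c, hc, h⟩)
    · exact Or.inl h
    · exact Or.inr ⟨c, mem_lsts.2 hc, h.symm⟩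

theorem card_Pt (μ : V → V) (π : Equiv.Perm V) (J : ℕ) (u : V) :
    (Pt μ π J u).card ≤ 1 + (lsts J).card := by
  unfold Pt
  refine (card_insert_le _ _).trans ?_
  have := card_image_le (s := lsts J) (f := TT μ π u)
  omega

variable {G : SimpleGraph V} [DecidableRel G.Adj] {μ : V → V} {π : Equiv.Perm V}

theorem Pt_ball (hf : Frame G μ π) {J : ℕ} {u t : V} (h : t ∈ Pt μ π J u) :
    t ∈ Bl G.Adj (2 * J) u := by
  rcases mem_Pt.1 h with h | ⟨c, hc, h⟩
  · rw [h]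
    exact Bl_self _ _
  · rw [h]
    exact Bl_mono (by omega) _ (TT_ball hf u c)

/-- P2': few prescribed segments near a vertex. -/
theorem pr_few (hf : Frame G μ π) {J B D L : ℕ} {p : V → V → ℝ} (hpD : FarM G D p)
    (hD : 2 * (L + B + 2 * J + 1) ≤ D) {A : Finset V} (hfw : ∀ v, fw π A v + 1 ≤ B) (a : V)
    (Z : Finset V) (hZ : ∀ z ∈ Z, z ∈ Bl G.Adj L a ∧ ∃ u v, p u v ≠ 0 ∧ ∃ t ∈ Pt μ π J u,
      ew π A t = z) : Z.card ≤ 2 * (1 + (lsts J).card) := by
  classical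
  rcases Z.eq_empty_or_nonempty with hZe | ⟨z₀, hz₀⟩
  · rw [hZe, card_empty]
    exact Nat.zero_le _
  have hs : ∀ u v, G.Adj u v → G.Adj v u := fun _ _ h => h.symm
  have hnear : ∀ z ∈ Z, ∀ u t, t ∈ Pt μ π J u → ew π A t = z →
      u ∈ Bl G.Adj (L + B + 2 * J) a := by
    intro z hz u t ht he
    have h1 := (hZ z hz).1
    have h2 : z ∈ Bl G.Adj B t := by
      rw [← he, ew_eq]
      exact Bl_mono (hfw t) _ (pow_mem_Bl hf _ _)
    have h3 : t ∈ Bl G.Adj (L + B) a := Bl_comp h1 (Bl_symm hs h2)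
    exact Bl_comp h3 (Bl_symm hs (Pt_ball hf ht))
  obtain ⟨-, u₀, v₀, huv₀, t₀, ht₀, he₀⟩ := hZ z₀ hz₀
  have h0 := hnear z₀ hz₀ u₀ t₀ ht₀ he₀
  have hsub : Z ⊆ (Pt μ π J u₀ ∪ Pt μ π J v₀).image (ew π A) := by
    intro z hz
    obtain ⟨-, u, v, huv, t, ht, he⟩ := hZ z hz
    have h1 := hnear z hz u t ht he
    have h2 : u ∈ Bl G.Adj D u₀ := Bl_mono (by omega) _ (Bl_comp (Bl_symm hs h0) h1)
    rw [mem_image]
    refine ⟨t, ?_, he⟩
    rw [mem_union]
    rcases hpD u₀ v₀ u v huv₀ huv h2 with ⟨h3, -⟩ | ⟨h3, -⟩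
    · rw [h3] at ht
      exact Or.inl ht
    · rw [h3] at ht
      exact Or.inr ht
  refine (card_le_card hsub).trans (card_image_le.trans ((card_union_le _ _).trans ?_))
  have h1 := card_Pt μ π J u₀
  have h2 := card_Pt μ π J v₀
  omega

end Pool.Agent.K5.PW
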