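import Mathlib

/-!
# Polynomial against exponential: the constants of the pattern lemma
-/

namespace Pool.Agent.K5

open Filter

theorem exists_pow_small (m A : ℕ) : ∃ q₀ : ℕ, ∀ q : ℕ, q₀ ≤ q →
    (A : ℝ) * (q : ℝ) ^ A * (1 - (1 / 2) ^ m) ^ q ≤ 1 := by
  have hr0 : (0 : ℝ) ≤ 1 - (1 / 2) ^ m := by
    have : ((1 : ℝ) / 2) ^ m ≤ 1 := pow_le_one₀ (by norm_num) (by norm_num)
    linarith
  have hr1 : (1 : ℝ) - (1 / 2) ^ m < 1 := by
    have : (0 : ℝ) < (1 / 2) ^ m := by positivity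
    linarith
  have h := tendsto_pow_const_mul_const_pow_of_lt_one A hr0 hr1
  have h2 : Tendsto (fun n : ℕ => (A : ℝ) * ((n : ℝ) ^ A * (1 - (1 / 2) ^ m) ^ n)) atTop
      (nhds (A * 0)) := h.const_mul _
  rw [mul_zero] at h2
  have h3 := h2.eventually (gt_mem_nhds (show (0 : ℝ) < 1 by norm_num))
  obtain ⟨q₀, hq₀⟩ := eventually_atTop.1 h3
  exact ⟨q₀, fun q hq => by
    have := hq₀ q hq
    rw [mul_assoc]
    exact le_of_lt this⟩

end Pool.Agent.K5
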