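import Mathlib
import Pool.Agent.Work.MP_974d84_co_k5.NumBits

/-!
# The constants of the pattern lemma (W4)
-/

namespace Pool.Agent.K5

theorem nat_pow_small (m A : ℕ) : ∃ q₀ : ℕ, ∀ q : ℕ, q₀ ≤ q →
    A * q ^ A * (2 ^ m - 1) ^ q ≤ (2 ^ m) ^ q := by
  obtain ⟨q₀, hq₀⟩ := exists_pow_small m A
  refine ⟨q₀, fun q hq => ?_⟩
  have h := hq₀ q hq
  have h2 : (0 : ℝ) < (2 ^ m) ^ q := by positivity
  have h3 : ((1 : ℝ) - (1 / 2) ^ m) ^ q * (2 ^ m) ^ q = (2 ^ m - 1) ^ q := by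
    rw [← mul_pow]
    congr 1
    rw [sub_mul, one_mul, ← mul_pow]
    norm_num
  have h4 : ((2 ^ m - 1 : ℕ) : ℝ) = 2 ^ m - 1 := by
    push_cast [Nat.one_le_two_pow]
    ring
  have h5 : (A : ℝ) * (q : ℝ) ^ A * (2 ^ m - 1) ^ q ≤ (2 ^ m) ^ q := by
    rw [← h3]
    calc (A : ℝ) * (q : ℝ) ^ A * (((1 : ℝ) - (1 / 2) ^ m) ^ q * (2 ^ m) ^ q)
        = (A : ℝ) * (q : ℝ) ^ A * ((1 : ℝ) - (1 / 2) ^ m) ^ q * (2 ^ m) ^ q := by ring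
      _ ≤ 1 * (2 ^ m) ^ q := by
          exact mul_le_mul_of_nonneg_right h h2.le
      _ = (2 ^ m) ^ q := one_mul _
  have h6 : ((A * q ^ A * (2 ^ m - 1) ^ q : ℕ) : ℝ) ≤ (((2 ^ m) ^ q : ℕ) : ℝ) := by
    rw [Nat.cast_mul, Nat.cast_mul, Nat.cast_pow, Nat.cast_pow, h4]
    push_cast
    exact h5
  exact_mod_cast h6

theorem num_w4 (m K c : ℕ) : ∃ q : ℕ, 1 ≤ q ∧
    K * ((q + 1) * (c * q ^ 2) + 1) ^ 2 * (2 * q + 1) * (2 ^ m - 1) ^ q ≤ (2 ^ m) ^ q ∧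
    K * ((q + 1) * (c * q ^ 2) + 1) ^ 2 * (2 * q + 1) ≤ 2 ^ q := by
  obtain ⟨q₁, h₁⟩ := nat_pow_small m (3 * K * (2 * c + 1) ^ 2 + 7)
  obtain ⟨q₂, h₂⟩ := nat_pow_small 1 (3 * K * (2 * c + 1) ^ 2 + 7)
  set q := max 1 (max q₁ q₂) with hq
  have hq1 : 1 ≤ q := le_max_left _ _
  have hb : K * ((q + 1) * (c * q ^ 2) + 1) ^ 2 * (2 * q + 1) ≤
      (3 * K * (2 * c + 1) ^ 2 + 7) * q ^ (3 * K * (2 * c + 1) ^ 2 + 7) := by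
    have e1 : (q + 1) * (c * q ^ 2) + 1 ≤ (2 * c + 1) * q ^ 3 := by
      have e2 : 1 ≤ q ^ 3 := Nat.one_le_pow _ _ hq1
      have e3 : (q + 1) * (c * q ^ 2) ≤ (2 * q) * (c * q ^ 2) :=
        Nat.mul_le_mul_right _ (by omega)
      calc (q + 1) * (c * q ^ 2) + 1 ≤ (2 * q) * (c * q ^ 2) + q ^ 3 := Nat.add_le_add e3 e2
        _ = (2 * c + 1) * q ^ 3 := by ring
    have e4 : 2 * q + 1 ≤ 3 * q := by omega
    calc K * ((q + 1) * (c * q ^ 2) + 1) ^ 2 * (2 * q + 1)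
        ≤ K * ((2 * c + 1) * q ^ 3) ^ 2 * (3 * q) :=
          Nat.mul_le_mul (Nat.mul_le_mul_left _ (Nat.pow_le_pow_left e1 2)) e4
      _ = (3 * K * (2 * c + 1) ^ 2) * q ^ 7 := by ring
      _ ≤ (3 * K * (2 * c + 1) ^ 2 + 7) * q ^ (3 * K * (2 * c + 1) ^ 2 + 7) :=
          Nat.mul_le_mul (by omega) (Nat.pow_le_pow_right hq1 (by omega))
  refine ⟨q, hq1, ?_, ?_⟩
  · refine le_trans (Nat.mul_le_mul_right _ hb) (h₁ q ?_)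
    exact le_trans (le_max_left _ _) (le_max_right _ _)
  · have h3 := h₂ q (le_trans (le_max_right q₁ _) (le_max_right _ _))
    have h4 : (2 ^ 1 - 1) ^ q = 1 := by norm_num
    rw [h4, mul_one] at h3
    exact le_trans hb (by simpa using h3)

end Pool.Agent.K5
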