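import Mathlib
import Pool.Agent.Work.MP_974d84_co_k5.PatternB
import Pool.Agent.Work.MP_974d84_co_k5.NumW4

/-!
# Extension theorem, pattern: counting the bad assignments when some bits are prescribed
-/

set_option linter.unusedSectionVars false

namespace Pool.Agent.K5.PW

open Finset SimpleGraph Pool.Agent.Exp Pool.Agent.Log5 Pool.Agent.Log5.Clu Pool.Agent.K5

variable {V : Type} [Fintype V] [DecidableEq V] {μ : V → V} {π : Equiv.Perm V}

/-- The bits with the prescribed ones. -/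
def ov (Fx : Finset V) (x₀ x : V → Bool) (z : V) : Bool := if z ∈ Fx then x₀ z else x z

theorem ov_free {Fx : Finset V} {x₀ x : V → Bool} {z : V} (h : z ∉ Fx) : ov Fx x₀ x z = x z :=
  if_neg h

theorem ov_fixed {Fx : Finset V} {x₀ x : V → Bool} {z : V} (h : z ∈ Fx) :
    ov Fx x₀ x z = x₀ z := if_pos h

/-- The free places of a window. -/
theorem exists_free (q δ : ℕ) (Bd : Finset ℕ) (hBd : Bd.card ≤ 2) :
    ∃ τ : Fin (q - 2) → Fin q, Function.Injective τ ∧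
      ∀ t, 2 * (τ t : ℕ) + δ ∉ Bd ∧ 2 * (τ t : ℕ) + δ + 1 ∉ Bd := by
  classical
  set Gd : Finset (Fin q) := univ.filter fun t =>
    2 * (t : ℕ) + δ ∉ Bd ∧ 2 * (t : ℕ) + δ + 1 ∉ Bd with hGd
  have h1 : Gdᶜ.card ≤ Bd.card := by
    refine card_le_card_of_injOn (fun t : Fin q => if 2 * (t : ℕ) + δ ∈ Bd then
      2 * (t : ℕ) + δ else 2 * (t : ℕ) + δ + 1) ?_ ?_
    · intro t ht
      rw [mem_coe, mem_compl, hGd, mem_filter, not_and] at ht
      have h2 := ht (mem_univ _)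
      simp only
      rw [mem_coe]
      split_ifs with h
      · exact h
      · by_contra h3
        exact h2 ⟨h, h3⟩
    · intro t _ t' _ h
      simp only at h
      apply Fin.ext
      split_ifs at h <;> omega
  have h2 : Gd.card + Gdᶜ.card = q := by
    rw [card_add_card_compl, Fintype.card_fin]
  obtain ⟨F, hF, hFc⟩ := Finset.exists_subset_card_eq (s := Gd) (n := q - 2) (by omega)
  have e := F.orderIsoOfFin hFc
  refine ⟨fun t => (e t : Fin q), fun t t' h => e.injective (Subtype.ext h), fun t => ?_⟩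
  have h3 := hF (e t).2
  rw [hGd, mem_filter] at h3
  exact h3.2

theorem fav_count_e {J B q : ℕ} {A : Finset V} {a : V}
    (hu : ∀ (b : V) (i j m n : ℕ) (c d : List Bool), i ≤ 2 * q → j ≤ 2 * q → m ≤ B → n ≤ B →
      c.length < J → d.length < J → (π ^ m) b = TT μ π ((π ^ i) a) c →
      (π ^ n) b = TT μ π ((π ^ j) a) d → i = j ∧ m = n ∧ c = d)
    (hfw : ∀ v, fw π A v + 1 ≤ B)
    (hwin : ∀ x : V → Bool, ∀ j ≤ 2 * q, yb π A x ((π ^ j) a) = (-1) ^ j * yb π A x a)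
    (Fx : Finset V) (x₀ : V → Bool) (Bd : Finset ℕ) (hBd : Bd.card ≤ 2)
    (hfree : ∀ i ≤ 2 * q, i ∉ Bd → ∀ c : List Bool, c.length < J →
      ew π A (TT μ π ((π ^ i) a) c) ∉ Fx)
    (s : ℤ) (hs : s = 1 ∨ s = -1) (S : Finset (V → Bool))
    (hS : ∀ x ∈ S, ¬ ∃ c, 1 ≤ c ∧ c ≤ 2 * q ∧ yb π A (ov Fx x₀ x) ((π ^ c) a) = s ∧
      Fav μ π J (yb π A (ov Fx x₀ x)) s ((π ^ (c - 1)) a) ∧
      Fav μ π J (yb π A (ov Fx x₀ x)) s ((π ^ c) a)) :
    S.card * (2 ^ (2 * (lsts J).card)) ^ (q - 2) ≤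
      2 * (2 ^ Fintype.card V * (2 ^ (2 * (lsts J).card) - 1) ^ (q - 2)) := by
  classical
  set m : ℕ := 2 * (lsts J).card with hm
  set u : ℕ × List Bool → V := fun p => TT μ π ((π ^ p.1) a) p.2 with hudef
  set Sx : ℕ → ℕ → Finset (ℕ × List Bool) :=
    fun δ t => {2 * t + δ, 2 * t + δ + 1} ×ˢ lsts J with hSx
  have hex := fun δ => exists_free q δ Bd hBd
  choose τ hτ1 hτ2 using hex
  set T : ℕ → Fin (q - 2) → Finset V :=
    fun δ t => (Sx δ (τ δ t : ℕ)).image fun p => ew π A (u p) with hT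
  set want : V → Bool := fun v => decide ((-1 : ℤ) ^ fw π A v = -s) with hwantd
  have hinj : ∀ p p' : ℕ × List Bool, p.1 ≤ 2 * q → p.2.length < J → p'.1 ≤ 2 * q →
      p'.2.length < J → ew π A (u p) = ew π A (u p') → p = p' := by
    intro p p' h1 h2 h3 h4 h
    obtain ⟨r1, r2⟩ := ew_inj hu hfw h1 h3 h2 h4 h
    exact Prod.ext r1 r2
  obtain ⟨patt, hpatt⟩ : ∃ patt : V → Bool, ∀ p : ℕ × List Bool, p.1 ≤ 2 * q → p.2.length < J →
      patt (ew π A (u p)) = want (u p) := by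
    refine ⟨fun z => if h : ∃ p : ℕ × List Bool, p.1 ≤ 2 * q ∧ p.2.length < J ∧
      ew π A (u p) = z then want (u h.choose) else true, ?_⟩
    intro p h1 h2
    have hex : ∃ p' : ℕ × List Bool, p'.1 ≤ 2 * q ∧ p'.2.length < J ∧
      ew π A (u p') = ew π A (u p) := ⟨p, h1, h2, rfl⟩
    simp only
    rw [dif_pos hex]
    have h3 := hex.choose_spec
    rw [hinj _ p h3.1 h3.2.1 h1 h2 h3.2.2]
  have hwant : ∀ (x : V → Bool) v, x (ew π A v) = want v → yb π A x v = -s := by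
    intro x v h
    unfold yb
    rw [h]
    simp only [hwantd]
    by_cases h' : (-1 : ℤ) ^ fw π A v = -s
    · rw [decide_eq_true h', h']
      simp [sgb]
    · rw [decide_eq_false h']
      have h1 : (-1 : ℤ) ^ fw π A v = s := by
        rcases neg_one_pow_cases (fw π A v) with h2 | h2 <;> rcases hs with h3 | h3 <;>
          rw [h2, h3] at h' ⊢ <;> simp at h'
      rw [h1]
      simp [sgb]
  have hbd : ∀ δ, δ ≤ 1 → ∀ t : ℕ, t < q → ∀ p ∈ Sx δ t, p.1 ≤ 2 * q ∧ p.2.length < J := by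
    intro δ hδ t ht p hp
    rw [hSx] at hp
    rw [mem_product, mem_insert, mem_singleton, mem_lsts] at hp
    exact ⟨by omega, hp.2⟩
  have hTd : ∀ δ, δ ≤ 1 → ∀ t t' : Fin (q - 2), t ≠ t' → Disjoint (T δ t) (T δ t') := by
    intro δ hδ t t' htt
    rw [Finset.disjoint_left]
    intro z hz hz'
    simp only [hT] at hz hz'
    rw [mem_image] at hz hz'
    obtain ⟨p, hp, rfl⟩ := hz
    obtain ⟨p', hp', h⟩ := hz'
    obtain ⟨b1, b2⟩ := hbd δ hδ _ (τ δ t).isLt p hp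
    obtain ⟨b3, b4⟩ := hbd δ hδ _ (τ δ t').isLt p' hp'
    have h1 := hinj p' p b3 b4 b1 b2 h
    rw [h1] at hp'
    simp only [hSx] at hp hp'
    rw [mem_product, mem_insert, mem_singleton] at hp hp'
    apply htt
    apply hτ1 δ
    apply Fin.ext
    omega
  have hTc : ∀ δ, δ ≤ 1 → ∀ t : Fin (q - 2), (T δ t).card = m := by
    intro δ hδ t
    simp only [hT]
    rw [card_image_of_injOn]
    · simp only [hSx]
      rw [card_product, card_pair (by omega)]
    · intro p hp p' hp' h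
      obtain ⟨b1, b2⟩ := hbd δ hδ _ (τ δ t).isLt p hp
      obtain ⟨b3, b4⟩ := hbd δ hδ _ (τ δ t).isLt p' hp'
      exact hinj p p' b1 b2 b3 b4 h
  have c0 := count_avoid (T 0) (hTd 0 (by omega)) (hTc 0 (by omega)) (fun _ => patt)
  have c1 := count_avoid (T 1) (hTd 1 le_rfl) (hTc 1 le_rfl) (fun _ => patt)
  have hsub : S ⊆ (univ.filter fun x : V → Bool => ∀ t, ∃ i ∈ T 0 t, x i ≠ patt i) ∪
      (univ.filter fun x : V → Bool => ∀ t, ∃ i ∈ T 1 t, x i ≠ patt i) := by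
    intro x hx
    have hx' := hS x hx
    set x' := ov Fx x₀ x with hx'd
    have key : ∀ δ, δ ≤ 1 → (δ = 1 ↔ yb π A x' a = s) → ∀ t, ∃ i ∈ T δ t, x i ≠ patt i := by
      intro δ hδ hδs t
      have ht := (τ δ t).isLt
      have hc1 : yb π A x' ((π ^ (2 * (τ δ t : ℕ) + δ + 1)) a) = s := by
        rw [hwin x' _ (by omega)]
        rcases Nat.lt_or_ge δ 1 with h0 | h0
        · have h0' : δ = 0 := by omega
          subst h0'
          have h1 : yb π A x' a ≠ s := fun h => absurd (hδs.2 h) (by omega)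
          have h2 : yb π A x' a = -s := by
            rcases yb_sign (π := π) (A := A) x' a with h3 | h3 <;> rcases hs with h4 | h4 <;>
              rw [h3, h4] at h1 ⊢ <;> revert h1 <;> decide
          rw [h2, Nat.add_zero, pow_succ, pow_mul]
          simp
        · have h0' : δ = 1 := by omega
          subst h0'
          rw [hδs.1 rfl, show 2 * (τ 1 t : ℕ) + 1 + 1 = 2 * ((τ 1 t : ℕ) + 1) by ring, pow_mul]
          simp
      by_contra hno
      push Not at hno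
      apply hx'
      have hfav : ∀ i, (i = 2 * (τ δ t : ℕ) + δ ∨ i = 2 * (τ δ t : ℕ) + δ + 1) →
          Fav μ π J (yb π A x') s ((π ^ i) a) := by
        intro i hi c hc
        have hp : ((i, c) : ℕ × List Bool) ∈ Sx δ (τ δ t : ℕ) := by
          simp only [hSx]
          rw [mem_product, mem_insert, mem_singleton, mem_lsts]
          exact ⟨hi, hc⟩
        obtain ⟨b1, b2⟩ := hbd δ hδ _ ht _ hp
        have h1 := hno _ (mem_image_of_mem (fun p => ew π A (u p)) hp)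
        rw [hpatt _ b1 b2] at h1
        refine hwant x' _ ?_
        have hnb : i ∉ Bd := by
          rcases hi with h | h
          · rw [h]; exact (hτ2 δ t).1
          · rw [h]; exact (hτ2 δ t).2
        rw [hx'd, ov_free (hfree i b1 hnb c hc)]
        exact h1
      refine ⟨2 * (τ δ t : ℕ) + δ + 1, by omega, by omega, hc1, ?_, hfav _ (Or.inr rfl)⟩
      rw [Nat.add_sub_cancel]
      exact hfav _ (Or.inl rfl)
    rw [mem_union, mem_filter, mem_filter]
    by_cases h : yb π A x' a = s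
    · right
      exact ⟨mem_univ _, key 1 le_rfl ⟨fun _ => h, fun _ => rfl⟩⟩
    · left
      exact ⟨mem_univ _, key 0 (by omega) ⟨fun h' => absurd h' (by omega), fun h' => absurd h' h⟩⟩
  calc S.card * (2 ^ m) ^ (q - 2) ≤
      ((univ.filter fun x : V → Bool => ∀ t, ∃ i ∈ T 0 t, x i ≠ patt i).card +
      (univ.filter fun x : V → Bool => ∀ t, ∃ i ∈ T 1 t, x i ≠ patt i).card) *
        (2 ^ m) ^ (q - 2) :=
        Nat.mul_le_mul_right _ ((card_le_card hsub).trans (card_union_le _ _))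
    _ = 2 * (2 ^ Fintype.card V * (2 ^ m - 1) ^ (q - 2)) := by
        rw [add_mul]
        rw [c0, c1]
        ring

/-- The numbers of `exists_pattern_e`. -/
theorem num_e (m K c : ℕ) : ∃ q : ℕ, 3 ≤ q ∧
    K * ((3 * q + 7) * (c * q ^ 2) + 1) ^ 2 * (2 * q + 1) * (2 ^ m - 1) ^ (q - 2) ≤
      (2 ^ m) ^ (q - 2) ∧
    K * ((3 * q + 7) * (c * q ^ 2) + 1) ^ 2 * (2 * q + 1) ≤ 2 ^ q := by
  obtain ⟨q₁, h₁⟩ := nat_pow_small m (3 * K * (10 * c + 1) ^ 2 * (2 ^ m) ^ 2 + 7)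
  obtain ⟨q₂, h₂⟩ := nat_pow_small 1 (3 * K * (10 * c + 1) ^ 2 * (2 ^ m) ^ 2 + 7)
  set q := max 3 (max q₁ q₂) with hq
  have hq3 : 3 ≤ q := le_max_left _ _
  have hq1 : 1 ≤ q := by omega
  set E := 3 * K * (10 * c + 1) ^ 2 * (2 ^ m) ^ 2 + 7 with hE
  have hb : K * ((3 * q + 7) * (c * q ^ 2) + 1) ^ 2 * (2 * q + 1) * (2 ^ m) ^ 2 ≤ E * q ^ E := by
    have e1 : (3 * q + 7) * (c * q ^ 2) + 1 ≤ (10 * c + 1) * q ^ 3 := by
      have e2 : 1 ≤ q ^ 3 := Nat.one_le_pow _ _ hq1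
      have e3 : (3 * q + 7) * (c * q ^ 2) ≤ (10 * q) * (c * q ^ 2) :=
        Nat.mul_le_mul_right _ (by omega)
      calc (3 * q + 7) * (c * q ^ 2) + 1 ≤ (10 * q) * (c * q ^ 2) + q ^ 3 := Nat.add_le_add e3 e2
        _ = (10 * c + 1) * q ^ 3 := by ring
    have e4 : 2 * q + 1 ≤ 3 * q := by omega
    calc K * ((3 * q + 7) * (c * q ^ 2) + 1) ^ 2 * (2 * q + 1) * (2 ^ m) ^ 2
        ≤ K * ((10 * c + 1) * q ^ 3) ^ 2 * (3 * q) * (2 ^ m) ^ 2 :=
          Nat.mul_le_mul_right _ (Nat.mul_le_mul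
            (Nat.mul_le_mul_left _ (Nat.pow_le_pow_left e1 2)) e4)
      _ = (3 * K * (10 * c + 1) ^ 2 * (2 ^ m) ^ 2) * q ^ 7 := by ring
      _ ≤ E * q ^ E :=
          Nat.mul_le_mul (by omega) (Nat.pow_le_pow_right hq1 (by omega))
  have hm1 : 1 ≤ 2 ^ m := Nat.one_le_two_pow
  have hpow : ∀ x : ℕ, x ^ q = x ^ (q - 2) * x ^ 2 := fun x => by
    rw [← pow_add]
    congr 1
    omega
  refine ⟨q, hq3, ?_, ?_⟩
  · have h3 := h₁ q (le_trans (le_max_left _ _) (le_max_right _ _))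
    rcases Nat.eq_zero_or_pos (2 ^ m - 1) with h0 | h0
    · rw [h0, zero_pow (by omega), mul_zero]
      exact Nat.zero_le _
    · set P := K * ((3 * q + 7) * (c * q ^ 2) + 1) ^ 2 * (2 * q + 1) with hP
      have h4 : P * (2 ^ m) ^ 2 * (2 ^ m - 1) ^ q ≤ (2 ^ m) ^ q :=
        le_trans (Nat.mul_le_mul_right _ hb) h3
      have h5 : (P * (2 ^ m - 1) ^ (q - 2)) * (2 ^ m) ^ 2 ≤ (2 ^ m) ^ (q - 2) * (2 ^ m) ^ 2 := by
        rw [← hpow]
        refine le_trans ?_ h4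
        have h6 : (2 ^ m - 1) ^ (q - 2) ≤ (2 ^ m - 1) ^ q := Nat.pow_le_pow_right h0 (by omega)
        calc P * (2 ^ m - 1) ^ (q - 2) * (2 ^ m) ^ 2 = P * (2 ^ m) ^ 2 * (2 ^ m - 1) ^ (q - 2) := by
              ring
          _ ≤ P * (2 ^ m) ^ 2 * (2 ^ m - 1) ^ q := Nat.mul_le_mul_left _ h6
      exact Nat.le_of_mul_le_mul_right h5 (by positivity)
  · have h3 := h₂ q (le_trans (le_max_right q₁ _) (le_max_right _ _))
    have h4 : (2 ^ 1 - 1) ^ q = 1 := by norm_num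
    rw [h4, mul_one] at h3
    have h5 : K * ((3 * q + 7) * (c * q ^ 2) + 1) ^ 2 * (2 * q + 1) ≤
        K * ((3 * q + 7) * (c * q ^ 2) + 1) ^ 2 * (2 * q + 1) * (2 ^ m) ^ 2 :=
      Nat.le_mul_of_pos_right _ (by positivity)
    exact le_trans h5 (le_trans hb (by simpa using h3))

end Pool.Agent.K5.PW
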