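import Mathlib
import Pool.Agent.Work.MP_974d84_co_k5.BitsLocal
import Pool.Agent.Work.MP_974d84_co_k5.PatEFew
import Pool.Agent.Work.MP_974d84_co_k5.PatternBE
import Pool.Agent.Work.MP_974d84_co_k5.PatternBM
import Pool.Agent.Work.MP_974d84_co_k5.NearM
import Pool.Agent.Work.MP_974d84_co_k5.PatEConf

/-!
# Extension theorem, E4: the pattern with marks
-/

set_option linter.unusedSectionVars false

namespace Pool.Agent.K5

open Finset SimpleGraph Pool.Agent.Exp Pool.Agent.Log5 Pool.Agent.Log5.Clu Pool.Agent.K5.PW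
  Pool.Agent.K5.PE

open Classical in
/-- The bad events of a start `a`. -/
def PE.badE {V : Type} [Fintype V] [DecidableEq V] (μ : V → V) (π : Equiv.Perm V) (J q K : ℕ)
    (A A' Fx : Finset V) (x₀ : V → Bool) (e : V × Option Bool) (x : V → Bool) : Prop :=
  e.1 ∈ A ∧ match e.2 with
    | none => ∀ j < K, itw π A' j e.1 ∉ Dfc π A (yb π A' (ov Fx x₀ x))
    | some b => ¬ ∃ c, 1 ≤ c ∧ c ≤ 2 * q ∧ yb π A' (ov Fx x₀ x) ((π ^ c) e.1) = sgb b ∧
        Fav μ π J (yb π A' (ov Fx x₀ x)) (sgb b) ((π ^ (c - 1)) e.1) ∧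
        Fav μ π J (yb π A' (ov Fx x₀ x)) (sgb b) ((π ^ c) e.1)

section

variable {V : Type} [Fintype V] [DecidableEq V] {G : SimpleGraph V} [DecidableRel G.Adj]
  {μ : V → V} {π : Equiv.Perm V}

/-- A prescribed vertex belongs to an end of a mark. -/
theorem PE.Pr.pt {J : ℕ} {p : V → V → ℝ} (hp : Marks G p) {t : V} {s : ℤ}
    (h : Pr μ π J p t s) : (s = 1 ∨ s = -1) ∧ ∃ u v, p u v ≠ 0 ∧ t ∈ Pt μ π J u := by
  have hs : ∀ t : ℝ, sg t = 1 ∨ sg t = -1 := by
    intro t
    unfold sg
    split_ifs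
    · exact Or.inr rfl
    · exact Or.inl rfl
  have hs' : ∀ t : ℝ, -sg t = 1 ∨ -sg t = -1 := by
    intro t
    rcases hs t with h | h <;> rw [h] <;> simp
  cases h with
  | circ v h i hi =>
    refine ⟨hs _, ?_⟩
    interval_cases i
    · exact ⟨v, π v, h, mem_Pt.2 (Or.inl (by simp))⟩
    · exact ⟨π v, v, by rw [hp.symm]; exact h, mem_Pt.2 (Or.inl (by simp))⟩
  | tree v h i hi c hc =>
    refine ⟨hs' _, ?_⟩
    interval_cases i
    · exact ⟨v, π v, h, mem_Pt.2 (Or.inr ⟨c, hc, by simp⟩)⟩
    · exact ⟨π v, v, by rw [hp.symm]; exact h, mem_Pt.2 (Or.inr ⟨c, hc, by simp⟩)⟩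
  | third v h c hc =>
    exact ⟨hs _, v, μ v, h, mem_Pt.2 (Or.inr ⟨c, hc, rfl⟩)⟩

end

/-- E4 -/
theorem exists_pattern_e (J R c : ℕ) (hJ : 1 ≤ J) (hR : 2 * J + 1 ≤ R) : ∃ q : ℕ, 1 ≤ q ∧
    ∃ M D k₀ : ℕ, ∀ {V : Type} [Fintype V] [DecidableEq V] (G : SimpleGraph V)
    [DecidableRel G.Adj] {μ : V → V} {π : Equiv.Perm V}, Frame G μ π → Gir G k₀ →
    ∀ p : V → V → ℝ, Marks G p → FarM G D p → ∀ A : Finset V, Win G π R q (c * q ^ 2) A →
    (∀ a ∈ A, ∀ u ∈ ends p, Disjoint (zone G π R q a) (Bl G.Adj (2 * J + 4) u)) →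
    ∃ y : V → ℤ, PatternE μ π J q M A p y := by
  set m₀ : ℕ := 2 * (1 + (lsts J).card) with hm₀
  obtain ⟨q, hq3, -, hn1, hn2⟩ := num_m (2 * (lsts J).card) (72 * 2 ^ R) c m₀
  have hq1 : 1 ≤ q := by omega
  set B := c * q ^ 2 with hB
  set K := (m₀ + 1) * (q + 2) with hK
  set N := (K + 1) * B + 1 with hN
  refine ⟨q, hq1, 2 * ((K + 1) * B) + 1, 2 * ((K + 2) * B + 2 * q + 4 * J + R + 20),
    4 * q + 2 * B + (K + 1) * B + 4 * J + 20, ?_⟩
  intro V _ _ G _ μ π hf hg p hp hpD A hA hAp
  classical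
  set A' := A1 π A p with hA'
  have hAA' : A ⊆ A' := fun z hz => mem_A1.2 (Or.inl hz)
  have hKB : (K + 2) * B = (K + 1) * B + B := by ring
  have hpow : ∀ v n, 0 < n → n ≤ 2 * q + (K + 1) * B → (π ^ n) v ≠ v := fun v n h1 h2 =>
    pow_ne hf hg h1 (by omega) v
  have hdB : ∀ v, ∃ n < B, (π ^ n) v ∈ A' := fun v => by
    obtain ⟨n, hn, h⟩ := hA.dense v
    exact ⟨n, hn, hAA' h⟩
  have hd : ∀ v, ∃ n, (π ^ n) v ∈ A' := fun v => by
    obtain ⟨n, -, h⟩ := hdB v
    exact ⟨n, h⟩
  have hfw : ∀ v, fw π A' v + 1 ≤ B := fun v => fw_lt (hdB (π v))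
  have hwf : ∀ a ∈ A, ∀ j, 1 ≤ j → j ≤ 2 * q → (π ^ j) a ∉ A' := by
    intro a ha j h1 h2 h3
    rcases mem_A1.1 h3 with h4 | h4
    · exact window_free hA (fun v n h1 h2 => hpow v n h1 (by omega)) ha j h1 h2 h4
    · have h5 : (π ^ j) a ∈ ends p := by
        unfold ends
        rw [mem_filter]
        exact ⟨mem_univ _, _, by rw [hp.symm]; exact h4⟩
      exact Finset.disjoint_left.1 (hAp a ha _ h5) (pow_zone h2 a) (Bl_self _ _)
  have hwin : ∀ a ∈ A, ∀ x : V → Bool, ∀ j ≤ 2 * q,
      yb π A' x ((π ^ j) a) = (-1) ^ j * yb π A' x a := fun a ha x =>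
    yb_window x hd (hwf a ha)
  have hu : ∀ (a b : V) (i j m n : ℕ) (c d : List Bool), i ≤ 2 * q → j ≤ 2 * q → m ≤ B →
      n ≤ B → c.length < J → d.length < J → (π ^ m) b = TT μ π ((π ^ i) a) c →
      (π ^ n) b = TT μ π ((π ^ j) a) d → i = j ∧ m = n ∧ c = d := by
    intro a b i j m n c d h1 h2 h3 h4 h5 h6 h7 h8
    exact tree_uniq hf hg (by omega) h7 h8
  -- the prescribed segments
  obtain ⟨x₀, hx₀⟩ : ∃ x₀ : V → Bool, ∀ t s, Pr μ π J p t s →
      x₀ (ew π A' t) = decide ((-1 : ℤ) ^ fw π A' t = s) := by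
    refine ⟨fun z => if h : ∃ t : V × ℤ, Pr μ π J p t.1 t.2 ∧ ew π A' t.1 = z then
      decide ((-1 : ℤ) ^ fw π A' h.choose.1 = h.choose.2) else true, ?_⟩
    intro t s hts
    have hex : ∃ t' : V × ℤ, Pr μ π J p t'.1 t'.2 ∧ ew π A' t'.1 = ew π A' t := ⟨(t, s), hts, rfl⟩
    simp only
    rw [dif_pos hex]
    obtain ⟨h1, h2⟩ := hex.choose_spec
    obtain ⟨h3, h4⟩ := pr_conf hf hg (B := B) (by omega) hp hpD (by omega) hdB h1 hts h2
    rw [h3, h4]
  set Fx : Finset V := univ.filter fun z => ∃ t s, Pr μ π J p t s ∧ ew π A' t = z with hFx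
  have hmFx : ∀ z, z ∈ Fx ↔ ∃ t s, Pr μ π J p t s ∧ ew π A' t = z := fun z => by simp [hFx]
  have hval : ∀ (x : V → Bool) t s, Pr μ π J p t s → yb π A' (ov Fx x₀ x) t = s := by
    intro x t s hts
    unfold yb
    rw [ov_fixed ((hmFx _).2 ⟨t, s, hts, rfl⟩), hx₀ t s hts]
    have hs := (PE.Pr.pt hp hts).1
    by_cases h : (-1 : ℤ) ^ fw π A' t = s
    · rw [decide_eq_true h, h]
      simp [sgb]
    · rw [decide_eq_false h]
      have h1 : (-1 : ℤ) ^ fw π A' t = -s := by
        rcases neg_one_pow_cases (fw π A' t) with h2 | h2 <;> rcases hs with h3 | h3 <;>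
          rw [h2, h3] at h ⊢ <;> first | exact absurd rfl h | norm_num
      rw [h1]
      simp [sgb]
  have hfew : ∀ (L : ℕ) (a : V), L ≤ (K + 1) * B + 2 * q + 2 * J + R + 1 → ∀ Z : Finset V,
      (∀ z ∈ Z, z ∈ Bl G.Adj L a ∧ z ∈ Fx) → Z.card ≤ m₀ := by
    intro L a hL Z hZ
    refine pr_few hf hpD (B := B) (L := L) (by omega) hfw a Z fun z hz => ⟨(hZ z hz).1, ?_⟩
    obtain ⟨t, s, hts, he⟩ := (hmFx z).1 (hZ z hz).2
    obtain ⟨-, u, v, huv, ht⟩ := PE.Pr.pt hp hts
    exact ⟨u, v, huv, t, ht, he⟩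
  have hsub : ∀ z ∈ A', z ∉ Fx → z ∈ A := by
    intro z hz hzF
    by_contra hzA
    have h1 : p (π.symm z) z ≠ 0 := (mem_A1.1 hz).resolve_left hzA
    have h2 : p (π.symm z) (π (π.symm z)) ≠ 0 := by rw [Equiv.apply_symm_apply]; exact h1
    have h3 := Pr.circ (μ := μ) (J := J) (p := p) (π.symm z) h2 0 (by omega)
    rw [pow_zero, Equiv.Perm.one_apply] at h3
    refine hzF ((hmFx z).2 ⟨_, _, h3, ?_⟩)
    rw [ew_zero (by rw [Equiv.apply_symm_apply]; exact hz), Equiv.apply_symm_apply]
  -- coordinates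
  have hN1 : ∀ n, n ≤ (K + 1) * B → n < N := by
    intro n hn
    omega
  have hBN : ∀ n, n ≤ B → n < N := by
    intro n hn
    rw [hN, add_mul]
    omega
  have hzU : ∀ a, ∀ v ∈ zone G π R q a, ew π A' v ∈ Ub G π R q N a := by
    intro a v hv
    rw [mem_Ub]
    exact ⟨fw π A' v + 1, hBN _ (hfw v), v, hv, ew_eq.symm⟩
  have hitU : ∀ a j, j ≤ K → itw π A' j a ∈ Ub G π R q N a := by
    intro a j hj
    obtain ⟨f, -, -, h3, h4⟩ := exists_times hdB a
    rw [mem_Ub]
    refine ⟨f j, hN1 _ ((h3 j).trans (Nat.mul_le_mul_right _ (by omega))), a, self_zone a,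
      (h4 j).symm⟩
  have hinjit : ∀ a, ∀ i j, i ≤ K → j ≤ K → itw π A' i a = itw π A' j a → i = j := by
    intro a
    obtain ⟨f, -, h2, h3, h4⟩ := exists_times hdB a
    have hmono : StrictMono f := strictMono_nat_of_lt_succ h2
    have key : ∀ i j, i < j → j ≤ K → itw π A' i a ≠ itw π A' j a := by
      intro i j hij hj h
      rw [h4, h4] at h
      have h5 := hmono hij
      have h6 := (h3 j).trans (Nat.mul_le_mul_right B (hj.trans (Nat.le_succ K)))
      have h6' : f j ≤ (K + 1) * B := h6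
      apply hpow ((π ^ (f i)) a) (f j - f i) (by omega) (by omega)
      rw [← Equiv.Perm.mul_apply, ← pow_add, Nat.sub_add_cancel h5.le]
      exact h.symm
    intro i j hi hj h
    rcases Nat.lt_trichotomy i j with h1 | h1 | h1
    · exact absurd h (key i j h1 hj)
    · exact h1
    · exact absurd h.symm (key j i h1 hi)
  -- the local lemma
  obtain ⟨x, hx⟩ := exists_bits (I := V) (E := V × Option Bool)
    (fun e => if e.1 ∈ A then Ub G π R q N e.1 else ∅) (PE.badE μ π J q K A A' Fx x₀)
    (by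
      intro e x x' hxx hbad
      obtain ⟨ha, hbad⟩ := hbad
      rw [if_pos ha] at hxx
      have hov : ∀ z ∈ Ub G π R q N e.1, ov Fx x₀ x z = ov Fx x₀ x' z := by
        intro z hz
        unfold ov
        split_ifs
        · rfl
        · exact hxx z hz
      have hz : ∀ v ∈ zone G π R q e.1, yb π A' (ov Fx x₀ x) v = yb π A' (ov Fx x₀ x') v :=
        fun v hv => yb_congr (hov _ (hzU _ v hv))
      refine ⟨ha, ?_⟩
      cases he : e.2 with
      | none =>
        rw [he] at hbad
        simp only at hbad ⊢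
        intro j hj hD
        apply hbad j hj
        unfold Dfc at hD ⊢
        rw [mem_filter] at hD ⊢
        refine ⟨hD.1, ?_⟩
        set z := itw π A' j e.1 with hzd
        have h1 : π (π.symm z) ∈ A' := by rw [Equiv.apply_symm_apply]; exact hAA' hD.1
        have h2 : yb π A' (ov Fx x₀ x) (π.symm z) = yb π A' (ov Fx x₀ x') (π.symm z) := by
          apply yb_congr
          rw [ew_zero h1, Equiv.apply_symm_apply]
          exact hov _ (hitU _ j (by omega))
        have h3 : yb π A' (ov Fx x₀ x) z = yb π A' (ov Fx x₀ x') z := by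
          apply yb_congr
          rw [hzd, ← itw_succ]
          exact hov _ (hitU _ (j + 1) (by omega))
        rw [h2, h3]
        exact hD.2
      | some b =>
        rw [he] at hbad
        simp only at hbad ⊢
        rintro ⟨c, h1, h2, h3, h4, h5⟩
        apply hbad
        refine ⟨c, h1, h2, ?_, ?_, ?_⟩
        · rw [hz _ (pow_zone h2 _)]; exact h3
        · intro d hd'
          rw [hz _ (TT_zone hf hR (by omega) hd')]
          exact h4 d hd'
        · intro d hd'
          rw [hz _ (TT_zone hf hR h2 hd')]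
          exact h5 d hd')
    (Δ := 3 * N) (m := N * ((2 * q + 1) * (3 * 2 ^ R)))
    (by rw [hN]; omega)
    (by
      rw [hN]
      have : 0 < (2 * q + 1) * (3 * 2 ^ R) := by positivity
      exact Nat.mul_pos (by omega) this)
    (by
      intro z
      have hsub : (univ.filter fun e : V × Option Bool =>
          z ∈ (if e.1 ∈ A then Ub G π R q N e.1 else ∅)) ⊆
          (A.filter fun a => z ∈ Ub G π R q N a) ×ˢ (univ : Finset (Option Bool)) := by
        intro e he
        rw [mem_filter] at he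
        rw [mem_product, mem_filter]
        by_cases ha : e.1 ∈ A
        · rw [if_pos ha] at he
          exact ⟨⟨ha, he.2⟩, mem_univ _⟩
        · rw [if_neg ha] at he
          exact absurd he.2 (notMem_empty _)
      refine (card_le_card hsub).trans ?_
      rw [card_product]
      have h1 := Ub_deg hA (N := N) z
      have h2 : (univ : Finset (Option Bool)).card = 3 := by decide
      rw [h2, mul_comm]
      exact Nat.mul_le_mul_left _ h1)
    (by
      intro e
      split_ifs
      · exact Ub_card hf R q N e.1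
      · rw [card_empty]; exact Nat.zero_le _)
    (by
      rintro ⟨a, o⟩
      by_cases ha : a ∈ A
      swap
      · have : (univ.filter fun x => PE.badE μ π J q K A A' Fx x₀ (a, o) x) = ∅ := by
          rw [filter_eq_empty_iff]
          intro x _ hb
          exact ha hb.1
        rw [this, card_empty, mul_zero]
        exact Nat.zero_le _
      have hKK : 4 * (3 * N) * (N * ((2 * q + 1) * (3 * 2 ^ R))) * 2 =
          72 * 2 ^ R * N ^ 2 * (2 * q + 1) := by ring
      cases o with
      | none =>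
        set S := univ.filter fun x => PE.badE μ π J q K A A' Fx x₀ (a, none) x with hS
        have h1 := near_count_m (q := q) (m₀ := m₀) (A := A) (Ap := A') (Fx := Fx) hd (hAA' ha)
          hsub (hinjit a) (by
            obtain ⟨f, -, -, h3, h4⟩ := exists_times hdB a
            have e1 : (((range K).filter fun j => itw π A' j a ∈ Fx).image
                fun j => itw π A' j a).card ≤ m₀ := by
              refine hfew ((K + 1) * B) a (by omega) _ fun z hz => ?_
              obtain ⟨j, hj, rfl⟩ := mem_image.1 hz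
              rw [mem_filter, mem_range] at hj
              refine ⟨?_, hj.2⟩
              rw [h4]
              exact Bl_mono ((h3 j).trans (Nat.mul_le_mul_right _ (by omega))) _
                (pow_mem_Bl hf _ _)
            rw [card_image_of_injOn] at e1
            · exact e1
            · intro i hi j hj h
              rw [mem_coe, mem_filter, mem_range] at hi hj
              exact hinjit a i j hi.1.le hj.1.le h)
          (ov Fx x₀) (fun x z hz => ov_free hz) S (by
            intro x hx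
            rw [hS, mem_filter] at hx
            exact hx.2.2)
        have h2 : 2 * (4 * (3 * N) * (N * ((2 * q + 1) * (3 * 2 ^ R)))) ≤ 2 ^ q := by
          rw [mul_comm, hKK]
          exact hn2
        have h3 : (4 * (3 * N) * (N * ((2 * q + 1) * (3 * 2 ^ R))) * S.card) * 2 ^ (q + 1) ≤
            2 ^ Fintype.card V * 2 ^ (q + 1) := by
          calc _ = 4 * (3 * N) * (N * ((2 * q + 1) * (3 * 2 ^ R))) * (S.card * 2 ^ (q + 1)) := by
                ring
            _ ≤ 4 * (3 * N) * (N * ((2 * q + 1) * (3 * 2 ^ R))) * (2 * 2 ^ Fintype.card V) :=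
                Nat.mul_le_mul_left _ h1
            _ = 2 * (4 * (3 * N) * (N * ((2 * q + 1) * (3 * 2 ^ R)))) * 2 ^ Fintype.card V := by
                ring
            _ ≤ 2 ^ q * 2 ^ Fintype.card V := Nat.mul_le_mul_right _ h2
            _ ≤ 2 ^ (q + 1) * 2 ^ Fintype.card V :=
                Nat.mul_le_mul_right _ (Nat.pow_le_pow_right (by omega) (by omega))
            _ = 2 ^ Fintype.card V * 2 ^ (q + 1) := by ring
        exact Nat.le_of_mul_le_mul_right h3 (by positivity)
      | some b =>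
        set S := univ.filter fun x => PE.badE μ π J q K A A' Fx x₀ (a, some b) x with hS
        set m := 2 * (lsts J).card with hm
        set Bd : Finset ℕ := (range (2 * q + 1)).filter fun i =>
          ∃ c : List Bool, c.length < J ∧ ew π A' (TT μ π ((π ^ i) a) c) ∈ Fx with hBd
        have hBdc : Bd.card ≤ m₀ := by
          have hch : ∀ i, ∃ c : List Bool, i ∈ Bd → c.length < J ∧
              ew π A' (TT μ π ((π ^ i) a) c) ∈ Fx := by
            intro i
            by_cases hi : i ∈ Bd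
            · obtain ⟨c, hc⟩ := (mem_filter.1 hi).2
              exact ⟨c, fun _ => hc⟩
            · exact ⟨[], fun h => absurd h hi⟩
          choose cc hcc using hch
          have e1 : (Bd.image fun i => ew π A' (TT μ π ((π ^ i) a) (cc i))).card ≤ m₀ := by
            refine hfew (B + 2 * J + 2 * q) a (by rw [add_mul]; omega) _ fun z hz => ?_
            obtain ⟨i, hi, rfl⟩ := mem_image.1 hz
            have h1 := hcc i hi
            have h2 : i < 2 * q + 1 := by
              have := (mem_filter.1 hi).1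
              rwa [mem_range] at this
            refine ⟨?_, h1.2⟩
            have h3 : TT μ π ((π ^ i) a) (cc i) ∈ Bl G.Adj (2 * q + 2 * J) a :=
              Bl_mono (by omega) _ (Bl_comp (pow_mem_Bl hf i a) (TT_ball hf _ (cc i)))
            rw [ew_eq]
            have h4 := Bl_comp h3 (pow_mem_Bl hf (fw π A' (TT μ π ((π ^ i) a) (cc i)) + 1) _)
            have h5 := hfw (TT μ π ((π ^ i) a) (cc i))
            exact Bl_mono (by omega) _ h4
          rw [card_image_of_injOn] at e1
          · exact e1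
          · intro i hi j hj h
            have hi' := (mem_filter.1 (mem_coe.1 hi)).1
            have hj' := (mem_filter.1 (mem_coe.1 hj)).1
            rw [mem_range] at hi' hj'
            exact (ew_inj (hu a) hfw (by omega) (by omega) (hcc i hi).1 (hcc j hj).1 h).1
        have h1 := fav_count_m (hu a) hfw m₀ Fx (ov Fx x₀) (fun x z hz => ov_free hz) Bd hBdc (by
          intro i hi hiB c hc hF
          apply hiB
          rw [hBd, mem_filter, mem_range]
          exact ⟨by omega, c, hc, hF⟩) (sgb b) (sgb_cases b) S (fun x _ => hwin a ha _) (by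
          intro x hx
          rw [hS, mem_filter] at hx
          exact hx.2.2)
        have h3 : (4 * (3 * N) * (N * ((2 * q + 1) * (3 * 2 ^ R))) * S.card) *
            (2 ^ m) ^ (q - m₀) ≤ 2 ^ Fintype.card V * (2 ^ m) ^ (q - m₀) := by
          calc _ = 4 * (3 * N) * (N * ((2 * q + 1) * (3 * 2 ^ R))) *
                (S.card * (2 ^ m) ^ (q - m₀)) := by ring
            _ ≤ 4 * (3 * N) * (N * ((2 * q + 1) * (3 * 2 ^ R))) *
                (2 * (2 ^ Fintype.card V * (2 ^ m - 1) ^ (q - m₀))) := Nat.mul_le_mul_left _ h1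
            _ = (4 * (3 * N) * (N * ((2 * q + 1) * (3 * 2 ^ R))) * 2 * (2 ^ m - 1) ^ (q - m₀)) *
                2 ^ Fintype.card V := by ring
            _ = (72 * 2 ^ R * N ^ 2 * (2 * q + 1) * (2 ^ m - 1) ^ (q - m₀)) *
                2 ^ Fintype.card V := by rw [hKK]
            _ ≤ (2 ^ m) ^ (q - m₀) * 2 ^ Fintype.card V := Nat.mul_le_mul_right _ hn1
            _ = 2 ^ Fintype.card V * (2 ^ m) ^ (q - m₀) := by ring
        exact Nat.le_of_mul_le_mul_right h3 (by positivity))
  -- a defect after every vertex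
  set y := yb π A' (ov Fx x₀ x) with hy
  have hnear : ∀ v, ∃ m, 1 ≤ m ∧ m ≤ (K + 1) * B ∧ (π ^ m) v ∈ Dfc π A y := by
    intro v
    obtain ⟨n, hn, ha⟩ := hA.dense (π v)
    have h1 := hx ((π ^ n) (π v), none)
    unfold PE.badE at h1
    simp only [not_and, not_forall, not_not] at h1
    obtain ⟨j, hj, hD⟩ := h1 ha
    obtain ⟨f, -, -, h3, h4⟩ := exists_times hdB ((π ^ n) (π v))
    refine ⟨f j + (n + 1), by omega, ?_, ?_⟩
    · have h5 : f j ≤ j * B := h3 j
      have h7 : j * B + B ≤ (K + 1) * B := by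
        calc j * B + B = (j + 1) * B := by ring
          _ ≤ (K + 1) * B := Nat.mul_le_mul_right _ (by omega)
      omega
    · rw [pow_add, Equiv.Perm.mul_apply, pow_succ, Equiv.Perm.mul_apply, ← h4]
      exact hD
  refine ⟨y, ⟨yb_sign _, ?_, ?_, ?_, ?_, ?_⟩⟩
  · intro v hv hpv
    refine yb_alt _ (hd _) fun h => ?_
    rcases mem_A1.1 h with h1 | h1
    · exact hv h1
    · rw [Equiv.symm_apply_apply] at h1
      exact h1 hpv
  · intro v hv
    refine ⟨?_, ?_, fun c hc => ?_, fun c hc => ?_⟩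
    · have := hval x _ _ (Pr.circ (μ := μ) (J := J) v hv 0 (by omega))
      simpa using this
    · have := hval x _ _ (Pr.circ (μ := μ) (J := J) v hv 1 (by omega))
      simpa using this
    · have := hval x _ _ (Pr.tree (μ := μ) (J := J) v hv 0 (by omega) c hc)
      simpa using this
    · have := hval x _ _ (Pr.tree (μ := μ) (J := J) v hv 1 (by omega) c hc)
      simpa using this
  · intro v hv c hc
    have := hval x _ _ (Pr.third (π := π) v hv c hc)
    rw [hy, this, neg_neg]
  · intro a ha s hs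
    obtain ⟨b, rfl⟩ : ∃ b, s = sgb b := by
      rcases hs with h | h
      · exact ⟨true, h⟩
      · exact ⟨false, h⟩
    have h1 := hx (a, some b)
    unfold PE.badE at h1
    simp only [not_and, not_not] at h1
    exact h1 ha
  · intro v
    obtain ⟨m, hm1, hm2, hm3⟩ := hnear v
    obtain ⟨n, hn1', hn2', hn3⟩ := hnear ((π ^ m) v)
    refine ⟨m, n + m, by omega, by omega, hm3, ?_⟩
    rw [pow_add, Equiv.Perm.mul_apply]
    exact hn3

end Pool.Agent.K5
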