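import Mathlib
import Pool.Agent.Work.MP_974d84_co_k5.MainEB
import Pool.Agent.Work.MP_974d84_co_k5.AwayM
import Pool.Agent.Work.MP_974d84_co_k5.PatternEx
import Pool.Agent.Work.MP_974d84_co_k5.FinalEJ
import Pool.Agent.Work.MP_974d84_co_k5.ConstG
import Pool.Agent.Work.MP_974d84_co_k5.OmegaE
import Pool.Agent.Work.MP_974d84_co_k5.BoxM
import Pool.Agent.Work.MP_974d84_co_k5.AssembleEG
import Pool.Agent.Work.MP_974d84_co_k5.ConstE
import Pool.Agent.Work.MP_974d84_co_k5.SparseE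
import Pool.Agent.Work.MP_974d84_co_k5.ParityE
import Pool.Agent.Work.MP_974d84_co_k5.CoreFactsG
import Pool.Agent.Work.MP_974d84_co_k5.RegionFamG
import Pool.Agent.Work.MP_974d84_co_k5.SignsG
import Pool.Agent.Work.MP_974d84_co_k5.CoresEx
import Pool.Agent.Work.MP_974d84_co_k5.Frame
import Pool.Agent.Work.MP_974d84_co_k5.Windows
import Pool.Agent.Work.MP_974d84_co_k5.MainWB

/-!
# Room BG, E8: the cubic graph with marked edges, cyclic connectivity 21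
-/

set_option linter.unusedSectionVars false

namespace Pool.Agent.K5

open Finset SimpleGraph Pool.Agent.Exp Pool.Agent.Log5 Pool.Agent.Log5.Clu

/-- The marks are sparse in the cores. -/
theorem sparse_marks_g (N : ℕ) {V : Type} [Fintype V] [DecidableEq V]
    (G : SimpleGraph V) [DecidableRel G.Adj] {C δ : ℝ} {N' k κ : ℕ} (hk : 2 * N + 1 ≤ k)
    {p : V → V → ℝ} (hfar : FarM G (2 * N + 1) p) {r : ℕ} {S : Fin r → Finset V}
    (hF : FactsG G C N' k κ δ S) (i : Fin r) : N * (ends p ∩ S i).card ≤ 2 * (S i).card := by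
  classical
  set E := ends p ∩ S i with hE
  have hJ := hF.base.joined i
  have hbig := hF.large i
  have hball : ∀ u ∈ E, N ≤ ((S i).filter fun v => v ∈ Bl (RW G (S i)) N u).card := by
    intro u hu
    have huS : u ∈ S i := (mem_inter.1 hu).2
    have h1 : ((S i).filter fun v => v ∈ Bl (RW G (S i)) N u) = Bl (RW G (S i)) N u := by
      ext v
      rw [mem_filter]
      exact ⟨fun h => h.2, fun h => ⟨Bl_RW_sub huS N h, h⟩⟩
    rw [h1]
    by_cases h : S i ⊆ Bl (RW G (S i)) N u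
    · have := card_le_card h
      omega
    · have := Bl_grow hJ huS N h
      omega
  have htwo : ∀ v ∈ S i, (E.filter fun u => v ∈ Bl (RW G (S i)) N u).card ≤ 2 := by
    intro v _
    refine (card_le_card (t := (ends p).filter fun u => v ∈ Bl G.Adj N u) fun u hu => ?_).trans
      (ends_near_two hfar (by omega) v)
    rw [mem_filter, hE, mem_inter] at hu
    exact mem_filter.2 ⟨hu.1.1, Bl_rel (fun a b h => h.1) _ _ hu.2⟩
  have hsum := sum_card_bipartiteAbove_eq_sum_card_bipartiteBelow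
    (s := E) (t := S i) (fun u v => v ∈ Bl (RW G (S i)) N u)
  have h1 : N * E.card ≤ ∑ u ∈ E,
      ((S i).bipartiteAbove (fun u v => v ∈ Bl (RW G (S i)) N u) u).card := by
    have := card_nsmul_le_sum E (fun u =>
      ((S i).bipartiteAbove (fun u v => v ∈ Bl (RW G (S i)) N u) u).card) N hball
    rw [smul_eq_mul, Nat.mul_comm] at this
    exact this
  have h2 : ∑ v ∈ S i, (E.bipartiteBelow (fun u v => v ∈ Bl (RW G (S i)) N u) v).card
      ≤ (S i).card * 2 := by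
    have := sum_le_card_nsmul (S i) (fun v =>
      (E.bipartiteBelow (fun u v => v ∈ Bl (RW G (S i)) N u) v).card) 2 htwo
    rwa [smul_eq_mul] at this
  omega

/-- The last step. -/
theorem crit_arithJ {a e d dm m x s : ℝ} (he : a + e / 2 ≤ 1 / 10) (ha : 0 ≤ a)
    (hm : m ≤ 2 / 5 * (d - dm)) (hd : 0 ≤ d) (hdm : dm ≤ d) (hx : x ≤ (1 / 2 + a) * dm + s)
    (hs : s ≤ e / 2 * d) : x ≤ 3 / 5 * d - m := by
  have h1 : (1 / 10 + a) * dm ≤ (1 / 10 + a) * d :=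
    mul_le_mul_of_nonneg_left hdm (by linarith)
  have h2 : (a + e / 2) * d ≤ 1 / 10 * d := mul_le_mul_of_nonneg_right he hd
  nlinarith

/-- **The cubic graph with marked edges**, for cyclic connectivity `κ ≥ 21`. -/
theorem main_e_kappa {κ : ℕ} (hκ21 : 21 ≤ κ) :
    ∃ D k : ℕ, ∀ {V : Type} [Fintype V] [DecidableEq V] (G : SimpleGraph V)
    [DecidableRel G.Adj], (∀ v, G.degree v = 3) → CycConn G κ → Gir G k →
    (∀ A : Finset V, A.Nonempty → Aᶜ.Nonempty → 2 ≤ dd G A) →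
    ∀ F : SimpleGraph V, F ≤ G → (∀ v, (F.neighborSet v).ncard = 2) →
    ∀ p : V → V → ℝ, Marks G p → FarM G D p → (∃ t : ℤ, ∑ u, ∑ v, p u v = 4 * t) →
    ∃ x : V → ℤ, (∀ v, x v = 1 ∨ x v = -1) ∧
      ∀ X : Finset V, |∑ v ∈ X, ((x v : ℝ) + (∑ u, p v u) / 2)| ≤
        3 / 5 * dd G X - (∑ v ∈ X, ∑ u ∈ Xᶜ, |p v u|) / 2 := by
  have hlt := constG_lt_five hκ21
  obtain ⟨e, δ, θ, η, b', J₀, hδ, hθ, hη, hb', hηθ, hJe, hnum⟩ := constsG (κ := κ) (by omega)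
    (ε := 5 - 4 * κ / (κ - 4)) (by linarith)
  rw [add_sub_cancel] at hJe
  obtain ⟨b, hbb⟩ : ∃ b : ℝ, b = b' / 2 := ⟨_, rfl⟩
  have hb : 0 < b := by rw [hbb]; linarith
  obtain ⟨k₁, hk₁, hnk⟩ := five_div_small hη
  obtain ⟨j₁, hj₁⟩ := two_pow_small hθ
  have hb2 : 0 < b / 2 := by positivity
  obtain ⟨j₂, h, C₁, hh, hsig⟩ := signs_g hb2
  obtain ⟨cr, C₂, hrf⟩ := rf_countG
  obtain ⟨n₃, hn₃⟩ := two_pow_small (b := b / 4) (by positivity)
  obtain ⟨J, hJ⟩ : ∃ J : ℕ, J = J₀ + 3 := ⟨_, rfl⟩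
  obtain ⟨j₀, hj₀⟩ : ∃ j : ℕ, j = j₁ + J + j₂ := ⟨_, rfl⟩
  obtain ⟨jm, hjm⟩ : ∃ j : ℕ, j = J + n₃ := ⟨_, rfl⟩
  obtain ⟨R, hR⟩ : ∃ R : ℕ, R = 2 * (j₀ + 1) + 2 := ⟨_, rfl⟩
  obtain ⟨c₀, hc0, hwin⟩ := exists_windows h R hh cr
  obtain ⟨c, hcc, hwa⟩ := win_away c₀ R (2 * J + 4)
  obtain ⟨q, hq1, M, D₁, k₂, hpt⟩ := exists_pattern_e J R c (by omega) (by omega)
  obtain ⟨D₀, hwin⟩ := hwin q hq1 1
  obtain ⟨D₂, k₃, hwa⟩ := hwa q hq1
  obtain ⟨ρ, hρ⟩ : ∃ ρ : ℕ, ρ = 2 * jm + 2 + M + 2 * q + R := ⟨_, rfl⟩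
  obtain ⟨R', hR'⟩ : ∃ R' : ℕ, R' = M + 2 * q + R := ⟨_, rfl⟩
  obtain ⟨C₃, hcen⟩ := centres_e hθ hη hηθ R' ρ
  obtain ⟨C, hC0, hC1, hC2, hC3⟩ : ∃ C : ℝ, 100 ≤ C ∧ C₁ ≤ C ∧ C₂ ≤ C ∧ C₃ ≤ C :=
    ⟨max (max 100 C₁) (max C₂ C₃), (le_max_left _ _).trans (le_max_left _ _),
      (le_max_right _ _).trans (le_max_left _ _), (le_max_left _ _).trans (le_max_right _ _),
      (le_max_right _ _).trans (le_max_right _ _)⟩
  obtain ⟨k₄, N₁, hsig⟩ := hsig C hC1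
  obtain ⟨k₅, hrf⟩ := hrf C hC2
  obtain ⟨k₆, N₄, hcen⟩ := hcen C hC3
  obtain ⟨N, hN⟩ : ∃ N : ℕ, N = N₁ + N₄ := ⟨_, rfl⟩
  obtain ⟨k₀, hk₀⟩ : ∃ k₀ : ℕ, k₀ = k₄ + k₅ + D₀ := ⟨_, rfl⟩
  obtain ⟨k, hk⟩ : ∃ k : ℕ, k = k₀ + k₁ + k₂ + k₃ + k₆ + (c₀ * q ^ 2 + 2) +
    (M + 4 * jm + 10) + (4 * q + 4 * (j₀ + 1) + 20) + (8 * jm + 20) + (2 * N + 1) := ⟨_, rfl⟩
  obtain ⟨g₁, hfac⟩ := core_factsG hC0 N k κ hδ
  refine ⟨D₁ + D₂ + (2 * N + 1) + (4 * jm + 10) + 2 * (2 * jm + 2 + M), g₁ + k, ?_⟩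
  intro V _ _ G _ h3 hcκ hgg hbr F hF hF2 p hp hpD ht
  classical
  obtain ⟨t, ht⟩ := ht
  have hg : Gir G k := fun A hA => hgg A (by omega)
  obtain ⟨μ, π, hf⟩ := exists_frame h3 F hF hF2
  obtain ⟨r, S, hS⟩ := exists_cores G C
  have hFa : FactsG G C N k κ δ S := hfac G h3 hcκ (fun A hA => hgg A (by omega)) S hS
  have hbr1 : ∀ A : Finset V, A.Nonempty → Aᶜ.Nonempty → 1 ≤ dd G A := fun A h1 h2 =>
    (by norm_num : 1 ≤ 2).trans (hbr A h1 h2)
  -- the windows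
  set Fam : Finset (Finset V) := univ.filter fun Z => RF G S Z ∧ k₀ ≤ dd G Z with hFam
  obtain ⟨A₀, hA₀, hAthin⟩ := hwin G hf (fun v n h1 h2 => pow_ne hf hg h1 (by omega) v) Fam
    (fun Z hZ => by
      rw [hFam, mem_filter] at hZ
      have := hZ.2.2
      omega)
    (fun v D => by
      by_cases hD : k₅ ≤ D
      · have h1 := hrf G hbr1 S hS v D
          (Fam.filter fun Z => v ∈ Z ∧ dd G Z = D) hD (fun Z hZ => by
            rw [mem_filter, hFam, mem_filter] at hZ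
            exact ⟨hZ.1.2.1, hZ.2.1, hZ.2.2⟩)
        simpa using h1
      · have h1 : (Fam.filter fun Z => v ∈ Z ∧ dd G Z = D) = ∅ := by
          rw [filter_eq_empty_iff]
          rintro Z hZ ⟨-, hZD⟩
          rw [hFam, mem_filter] at hZ
          have := hZ.2.2
          omega
        rw [h1, card_empty]
        push_cast
        positivity)
  obtain ⟨A, hAdef⟩ : ∃ A, A = awayM G π R q (2 * J + 4) p A₀ := ⟨_, rfl⟩
  have hA : Win G π R q (c * q ^ 2) A := by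
    rw [hAdef]
    exact hwa G hf (fun Z hZ => hg Z (by omega)) p hp (farM_mono_b hpD (by omega)) A₀ hA₀
  have hAsub : A ⊆ A₀ := by
    rw [hAdef]
    exact filter_subset _ _
  have hAaway : ∀ a ∈ A, ∀ u ∈ ends p,
      Disjoint (zone G π R q a) (Bl G.Adj (2 * J + 4) u) := by
    intro a ha
    rw [hAdef] at ha
    unfold awayM at ha
    exact (mem_filter.1 ha).2
  obtain ⟨y, hy⟩ := hpt G hf (fun Z hZ => hg Z (by omega)) p hp (farM_mono_b hpD (by omega)) A hA hAaway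
  have hAp0 : ∀ a ∈ A, p (π.symm a) a = 0 := by
    intro a ha
    by_contra h0
    have h1 : p a (π.symm a) ≠ 0 := by
      rw [hp.symm]
      exact h0
    have h2 : a ∈ ends p := by
      unfold ends
      exact mem_filter.2 ⟨mem_univ _, _, h1⟩
    exact Finset.disjoint_left.1 (hAaway a ha a h2)
      (ball_sub_zone (Nat.zero_le _) a (Bl_self 0 a)) (Bl_self _ a)
  obtain ⟨m₀, hm₀⟩ := even_dfc_e hf hp hAp0 hy t ht
  obtain ⟨w, w1, w2, w3, hw⟩ := final_eJ hf (J := J) (j₀ := j₀ + 1) (jm := jm) (R := R) (q := q)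
    (B := c * q ^ 2) (M := M) (k := k) (D := 4 * jm + 10) (by omega) (by omega) (by omega) (by omega)
    hg (by omega) (by omega) le_rfl hA hp (farM_mono_b hpD (by omega)) hAaway hy
  -- the signs
  have hsg : ∀ T ⊆ Dfc π A y, Even T.card → ∀ w : V → ℤ → V → ℝ,
      (∀ a s v, 0 ≤ w a s v) → (∀ a s v, w a s v ≤ 1 / 2 ^ (j₀ + 1)) →
      (∀ a ∈ T, ∀ s, (s = 1 ∨ s = -1) → (∀ v, w a s v ≠ 0 → v ∈ zone G π R q a) ∧
        ∑ v, w a s v = 1) →
      ∃ ε : V → ℤ, (∀ v, ε v = 1 ∨ ε v = -1) ∧ ∑ a ∈ T, ε a = 0 ∧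
        ∀ R, Region S R → ∀ X ⊆ R,
          |∑ a ∈ T, (ε a : ℝ) * ∑ v ∈ X, w a (ε a) v| ≤ b / 2 * dd G X :=
    fun T hT hTe w hw0 hw1 hw2 =>
      hsig N k κ δ (by omega) (by omega) G h3 hbr1 hg S hS hFa T hTe (zone G π R q) w
        (fun a _ => ball_sub_zone (by omega) a)
        (fun a ha a' ha' hne => hA.disj a (mem_filter.1 (hT ha)).1 a' (mem_filter.1 (hT ha')).1 hne)
        hw0 (fun a s v => (hw1 a s v).trans
          (one_div_le_one_div_of_le (by positivity)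
            (pow_le_pow_right₀ (by norm_num) (by omega)))) hw2 k₀ (by omega) (by omega)
        (fun Z hZ hkZ => by
          refine le_trans (Nat.mul_le_mul_left _ (card_le_card ?_))
            (hAthin Z (by rw [hFam, mem_filter]; exact ⟨mem_univ _, hZ, hkZ⟩))
          intro a ha
          rw [mem_filter] at ha ⊢
          exact ⟨hAsub (mem_filter.1 (hT ha.1)).1, ha.2⟩)
  -- the defects which take the charges of the marks
  obtain ⟨Rm, ηm, r1, r2, r3, r4, r5, r6⟩ := BoxM.exists_Rm (jm := jm) (D := D₁ + D₂ + (2 * N + 1) +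
    (4 * jm + 10) + 2 * (2 * jm + 2 + M)) hf (k := k) (M := M) (J := J) hg (by omega) hp
    hpD (by omega) hA (y := y)
    (fun v => by
      obtain ⟨m, n, h1, h2, h4, h5⟩ := hy.near v
      exact ⟨m, by omega, h4⟩) hm₀ (b := b / 2) (δ := 1 / 2 ^ (j₀ + 1)) hb2.le w1 w2 w3
    (S := S) hsg
  have hRmz : ∀ a ∈ Rm, ∃ u ∈ ends p, zone G π R q a ⊆ Bl G.Adj ρ u := by
    intro a ha
    obtain ⟨u, hu, i, hi, v, hv, rfl⟩ := r4 a ha
    refine ⟨u, hu, fun x hx => ?_⟩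
    have h1 : zone G π R q ((π ^ i) v) ⊆ Bl G.Adj (i + 2 * q + R) v := zone_sub hf (by omega)
    exact Bl_mono (by omega) _ (Bl_comp hv (h1 hx))
  have hνsum : ∀ X : Finset V, ∑ v ∈ X, ∑ u ∈ ends p, chm μ p u * wmm μ π p jm u v =
      ∑ u ∈ ends p, chm μ p u * ∑ v ∈ X, wmm μ π p jm u v := by
    intro X
    rw [sum_comm]
    refine sum_congr rfl fun u _ => ?_
    rw [mul_sum]
  have hwm1 : ∀ u, ∑ v, wmm μ π p jm u v = 1 := by
    intro u
    rw [BoxM.sum_wmm_lfm hf hg (by omega) u univ]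
    simp only [mem_univ, if_true, mul_one, sum_const, card_univ, Fintype.card_fun,
      Fintype.card_bool, Fintype.card_fin, nsmul_eq_mul]
    push_cast
    field_simp
  obtain ⟨hn1, hn2⟩ : 8 * b + 5 / k ≤ 4 * η ∧
      (1 + δ) * (4 * b + (4 / κ + δ)) + (2 + δ) * (4 * b + (1 / 2 ^ j₀ + 4 * θ)) ≤ e := by
    obtain ⟨h1, h2⟩ := hnum j₀ (5 / k) (hj₁ j₀ (by omega)) (hnk k (by omega))
    have h4 : b' = 2 * b := by rw [hbb]; ring
    rw [h4] at h1 h2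
    refine ⟨by linarith, le_trans (le_of_eq ?_) h2⟩
    ring
  obtain ⟨ε, hε, hεX⟩ := assembleEG (j₀ := j₀) (R := R) (q := q) (B := c * q ^ 2) (M := M)
    (R' := R') (N := N) (k := k) (κ := κ) (C := C) (b := b) (η := η) (θ := θ) (e := e) (δ := δ)
    h3 hg (by omega) hδ hf hA (D := Dfc π A y) (filter_subset _ _) (by omega) (by omega) hS hFa
    w1 w2 w3 r1 r3 r2 (ν := fun v => ∑ u ∈ ends p, chm μ p u * wmm μ π p jm u v)
    (by
      rw [hνsum]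
      rw [sum_congr rfl fun u _ => by rw [hwm1 u, mul_one]]
      exact r5)
    (fun R₁ hR₁ X hX => by
      rw [hνsum]
      refine (r6 R₁ hR₁ X hX).trans (mul_le_mul_of_nonneg_right ?_ (Nat.cast_nonneg _))
      have h1 := hn₃ jm (by omega)
      have h2 : (8 : ℝ) / 5 / 2 ^ jm = 8 / 5 * (1 / 2 ^ jm) := by ring
      rw [h2]
      linarith)
    (hcen N k κ δ (by omega) (by omega) G h3 hbr1 S hS hFa hf (by omega) hy
      (sparse_marks_g N G (by omega) (farM_mono_b hpD (by omega)) hFa) hRmz)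
    (fun T hT hTe => by
      obtain ⟨ε, e1, e2, e3⟩ := hsg T (hT.trans sdiff_subset) hTe w w1 w2
        (fun a ha => w3 a (mem_sdiff.1 (hT ha)).1)
      exact ⟨ε, e1, e2, fun R₁ hR₁ X hX => (e3 R₁ hR₁ X hX).trans
        (mul_le_mul_of_nonneg_right (by linarith) (Nat.cast_nonneg _))⟩)
    hb.le hθ.le hη.le hn1 hn2
  obtain ⟨x, hx, hX⟩ := hw ε hε
  refine ⟨x, hx, fun X => ?_⟩
  obtain ⟨m1, m2⟩ := mark_cut_b hp X
  have h4 := hεX X
  rw [hνsum] at h4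
  refine crit_arithJ (a := 1 / 2 ^ (J + 1)) (e := e) ?_ (by positivity) m2 (Nat.cast_nonneg _)
    (by exact_mod_cast m1) (hX X) h4
  have h5 : (1 : ℝ) / 2 ^ (J + 1) ≤ 1 / 2 ^ (J₀ + 2) :=
    one_div_le_one_div_of_le (by positivity) (pow_le_pow_right₀ (by norm_num) (by omega))
  have h6 : ((5 : ℝ) - 2) / 5 = 3 / 5 := by norm_num
  rw [h6] at hJe
  linarith

end Pool.Agent.K5
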