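import Mathlib
import Pool.Agent.Work.MP_974d84_co_k5.SupR
import Pool.Agent.Work.MP_974d84_co_k5.ExtRealMain
import Pool.Agent.Work.MP_974d84_co_k5.ExtRealInt
import Pool.Agent.Work.MP_974d84_co_k5.FreeMain
import Pool.Agent.Work.MP_974d84_co_k5.MainEC

/-!
# The real extension theorem, final form

Every real boundary assignment with absolute values in `[1, r - 1]` and with sum in `r ℤ` is modulo
`r` the divergence of a real `f` with `1 ≤ |f| ≤ r - 1`; exactly, if no set needs too much; and `f`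
is integral if `r` and the assignment are.
-/

set_option linter.unusedSectionVars false

namespace Pool.Agent.K5

open Finset SimpleGraph Pool.Agent.Exp Pool.Agent.Log5 Pool.Agent.Log5.Clu

variable {V : Type} [Fintype V] [DecidableEq V] {G : SimpleGraph V} [DecidableRel G.Adj]

/-- The orientation for the extension modulo `r`. -/
theorem exists_o_mod (P : Finset V) (φ : V → ℝ)
    (hdeg : ∀ v ∈ P, (P.filter fun w => G.Adj v w).card = if φ v = 0 then 3 else 2)
    (x : V → ℤ) (hx : ∀ v ∈ P, x v = 1 ∨ x v = -1) :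
    ∃ (o : V → V → ℤ) (k : V → ℤ), (∀ v w, o v w = - o w v) ∧
      (∀ v w, ¬ (v ∈ P ∧ w ∈ P ∧ G.Adj v w) → o v w = 0) ∧
      (∀ v w, v ∈ P ∧ w ∈ P ∧ G.Adj v w → o v w = 1 ∨ o v w = -1) ∧
      ∀ v ∈ P, ∑ w, o v w - x v - sgr (φ v) = 2 * k v := by
  classical
  obtain ⟨σ, hσa, hσ1⟩ := exists_sgn V
  let I : V → V → Prop := fun v w => v ∈ P ∧ w ∈ P ∧ G.Adj v w
  have hIs : ∀ v w, I v w ↔ I w v := fun v w =>
    ⟨fun h => ⟨h.2.1, h.1, h.2.2.symm⟩, fun h => ⟨h.2.1, h.1, h.2.2.symm⟩⟩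
  let s : V → V → ℤ := fun v w => if I v w then σ v w else 0
  have hs : ∀ v w, s v w = - s w v := by
    intro v w
    by_cases h : I v w
    · simp only [s, if_pos h, if_pos ((hIs v w).1 h)]
      exact hσa v w h.2.2.ne
    · simp only [s, if_neg h, if_neg (fun h' => h ((hIs v w).2 h'))]
      norm_num
  have key : ∀ v, ∃ k : ℤ, v ∈ P → ∑ w, s v w - x v - sgr (φ v) = 2 * k := by
    intro v
    by_cases hv : v ∈ P
    swap
    · exact ⟨0, fun h => absurd h hv⟩
    have hpar : ∃ m : ℤ, ∑ w, s v w = ((P.filter fun w => G.Adj v w).card : ℤ) + 2 * m := by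
      have h5 : ∀ w, ∃ m : ℤ, s v w = (if I v w then (1 : ℤ) else 0) + 2 * m := by
        intro w
        by_cases h : I v w
        · rcases hσ1 v w with h3 | h3
          · exact ⟨0, by simp only [s, if_pos h, h3]; norm_num⟩
          · exact ⟨-1, by simp only [s, if_pos h, h3]; norm_num⟩
        · exact ⟨0, by simp only [s, if_neg h]; norm_num⟩
      choose m hm using h5
      refine ⟨∑ w, m w, ?_⟩
      have h6 : ((P.filter fun w => G.Adj v w).card : ℤ) = ∑ w, if I v w then (1 : ℤ) else 0 := by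
        have h7 : (univ.filter fun w => I v w) = P.filter fun w => G.Adj v w := by
          ext w
          simp [I, hv]
        rw [← sum_filter, sum_const, h7]
        simp
      rw [h6, mul_sum, ← sum_add_distrib]
      exact sum_congr rfl fun w _ => hm w
    obtain ⟨m, hm⟩ := hpar
    rw [hdeg v hv] at hm
    have h5 : ∃ k : ℤ, ∑ w, s v w - x v - sgr (φ v) = 2 * k := by
      by_cases h0 : φ v = 0
      · rw [if_pos h0] at hm
        rw [h0, sgr_zero]
        rcases hx v hv with h | h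
        · exact ⟨m + 1, by push_cast at hm; omega⟩
        · exact ⟨m + 2, by push_cast at hm; omega⟩
      · rw [if_neg h0] at hm
        rcases sgr_pm h0 with h' | h' <;> rcases hx v hv with h | h
        · exact ⟨m, by push_cast at hm; omega⟩
        · exact ⟨m + 1, by push_cast at hm; omega⟩
        · exact ⟨m + 1, by push_cast at hm; omega⟩
        · exact ⟨m + 2, by push_cast at hm; omega⟩
    obtain ⟨k, hk⟩ := h5
    exact ⟨k, fun _ => hk⟩
  choose k hk using key
  exact ⟨s, k, hs, fun v w h => if_neg h, fun v w h => by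
    simp only [s]
    rw [if_pos h]
    exact hσ1 v w, hk⟩

/-- The orientation for the exact extension. -/
theorem exists_o_exact {r : ℝ} (hr : 2 < r) (P : Finset V) (φ : V → ℝ)
    (hdeg : ∀ v ∈ P, (P.filter fun w => G.Adj v w).card = if φ v = 0 then 3 else 2)
    (x : V → ℤ) (hx : ∀ v ∈ P, x v = 1 ∨ x v = -1)
    (hcut : ∀ Y ⊆ P, r * |∑ v ∈ Y, ((x v : ℝ) + qr r (φ v))| ≤ (r - 2) * ee G Y (P \ Y))
    (h0 : ∑ v ∈ P, φ v = 0) (hφ : ∀ Z ⊆ P, |∑ v ∈ Z, φ v| < r + ee G Z (P \ Z)) :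
    ∃ o : V → V → ℤ, (∀ v w, o v w = - o w v) ∧
      (∀ v w, ¬ (v ∈ P ∧ w ∈ P ∧ G.Adj v w) → o v w = 0) ∧
      (∀ v w, v ∈ P ∧ w ∈ P ∧ G.Adj v w → o v w = 1 ∨ o v w = -1) ∧
      ∀ v ∈ P, ∑ w, o v w - x v - sgr (φ v) = 0 := by
  classical
  obtain ⟨σ, hσa, hσ1⟩ := exists_sgn V
  let I : V → V → Prop := fun v w => v ∈ P ∧ w ∈ P ∧ G.Adj v w
  have hIs : ∀ v w, I v w ↔ I w v := fun v w =>
    ⟨fun h => ⟨h.2.1, h.1, h.2.2.symm⟩, fun h => ⟨h.2.1, h.1, h.2.2.symm⟩⟩
  let s : V → V → ℤ := fun v w => if I v w then σ v w else 0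
  have hs : MP974d84.Anti s := by
    intro v w
    by_cases h : I v w
    · simp only [s, if_pos h, if_pos ((hIs v w).1 h)]
      exact hσa v w h.2.2.ne
    · simp only [s, if_neg h, if_neg (fun h' => h ((hIs v w).2 h'))]
      norm_num
  have hs0 : ∀ v w, ¬ I v w → s v w = 0 := fun v w h => if_neg h
  -- the wanted divergence of the orientation
  let b : V → ℤ := fun v => x v + sgr (φ v)
  have hdegI : ∀ v ∈ P, ∑ w, (if I v w then (1 : ℤ) else 0) = if φ v = 0 then 3 else 2 := by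
    intro v hv
    have h1 := hdeg v hv
    have h2 : (univ.filter fun w => I v w) = P.filter fun w => G.Adj v w := by
      ext w
      simp [I, hv]
    rw [← sum_filter, sum_const, h2, h1]
    split_ifs <;> simp
  have hpar : ∀ v, ∃ k : ℤ, 2 * k = if v ∈ P then b v - ∑ w, s v w else 0 := by
    intro v
    by_cases hv : v ∈ P
    · rw [if_pos hv]
      have h1 : ∃ m : ℤ, ∑ w, s v w = (∑ w, if I v w then (1 : ℤ) else 0) + 2 * m := by
        have h2 : ∀ w, ∃ m : ℤ, s v w = (if I v w then (1 : ℤ) else 0) + 2 * m := by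
          intro w
          by_cases h : I v w
          · rcases hσ1 v w with h3 | h3
            · exact ⟨0, by simp only [s, if_pos h, h3]; norm_num⟩
            · exact ⟨-1, by simp only [s, if_pos h, h3]; norm_num⟩
          · exact ⟨0, by simp only [s, if_neg h]; norm_num⟩
        choose m hm using h2
        exact ⟨∑ w, m w, by rw [mul_sum, ← sum_add_distrib]; exact sum_congr rfl fun w _ => hm w⟩
      obtain ⟨m, hm⟩ := h1
      rw [hdegI v hv] at hm
      rw [hm]
      by_cases h0 : φ v = 0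
      · rw [if_pos h0]
        have h5 : b v = x v := by simp only [b, h0, sgr_zero, add_zero]
        rw [h5]
        rcases hx v hv with h | h
        · exact ⟨-1 - m, by omega⟩
        · exact ⟨-2 - m, by omega⟩
      · rw [if_neg h0]
        rcases sgr_pm h0 with h' | h' <;> rcases hx v hv with h | h
        · exact ⟨-m, by simp only [b, h, h']; omega⟩
        · exact ⟨-1 - m, by simp only [b, h, h']; omega⟩
        · exact ⟨-1 - m, by simp only [b, h, h']; omega⟩
        · exact ⟨-2 - m, by simp only [b, h, h']; omega⟩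
    · exact ⟨0, by rw [if_neg hv]; norm_num⟩
  choose d hd using hpar
  have hdP : ∀ v ∈ P, 2 * d v = b v - ∑ w, s v w := fun v hv => by
    rw [hd v, if_pos hv]
  have hdN : ∀ v, v ∉ P → d v = 0 := fun v hv => by
    have := hd v
    rw [if_neg hv] at this
    omega
  have hsumP : ∀ Y ⊆ P, 2 * ∑ v ∈ Y, d v = ∑ v ∈ Y, b v - ∑ v ∈ Y, ∑ w ∈ P \ Y, s v w := by
    intro Y hY
    have h1 : ∀ v, ∑ w, s v w = ∑ w ∈ Y, s v w + ∑ w ∈ P \ Y, s v w := by
      intro v
      rw [← sum_union disjoint_sdiff, union_sdiff_of_subset hY]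
      symm
      refine sum_subset (subset_univ P) fun w _ hw => ?_
      exact if_neg fun h => hw h.2.1
    rw [mul_sum]
    have h2 : ∑ v ∈ Y, 2 * d v = ∑ v ∈ Y, (b v - ∑ w ∈ P \ Y, s v w) -
        ∑ v ∈ Y, ∑ w ∈ Y, s v w := by
      rw [← sum_sub_distrib]
      refine sum_congr rfl fun v hv => ?_
      rw [hdP v (hY hv), h1 v]
      ring
    rw [h2, MP974d84.anti_inner hs Y, sum_sub_distrib]
    ring
  let u : V → V → ℤ := fun v w => if I v w then (1 - σ v w) / 2 else 0
  have hu0 : ∀ v w, 0 ≤ u v w := by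
    intro v w
    simp only [u]
    split_ifs
    · rcases hσ1 v w with h4 | h4 <;> rw [h4] <;> norm_num
    · exact le_rfl
  have hcs : ∀ Z : Finset V, 2 * MP974d84.cs u Z =
      (ee G (Z ∩ P) (P \ (Z ∩ P)) : ℤ) - ∑ v ∈ Z ∩ P, ∑ w ∈ P \ (Z ∩ P), s v w := by
    intro Z
    rw [ee_ind P inter_subset_right, MP974d84.cs]
    have h1 : ∑ v ∈ Z, ∑ w ∈ Zᶜ, u v w = ∑ v ∈ Z ∩ P, ∑ w ∈ P \ (Z ∩ P), u v w := by
      have h := inner_cut (G := G) P (fun v w => (u v w : ℝ)) (fun v w h => by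
        have h9 : u v w = 0 := if_neg h
        rw [h9]
        simp) Z
      exact_mod_cast h
    rw [h1, mul_sum, ← sum_sub_distrib]
    refine sum_congr rfl fun v _ => ?_
    rw [mul_sum, ← sum_sub_distrib]
    refine sum_congr rfl fun w _ => ?_
    by_cases h : v ∈ P ∧ w ∈ P ∧ G.Adj v w
    · have h' : I v w := h
      simp only [s, u, if_pos h', if_pos h]
      rcases hσ1 v w with h4 | h4 <;> rw [h4] <;> norm_num
    · have h' : ¬ I v w := h
      simp only [s, u, if_neg h', if_neg h]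
      norm_num
  have hr0 : (0 : ℝ) < r := by linarith
  -- the bound for the wanted divergence
  have hbY : ∀ Y ⊆ P, ∑ v ∈ Y, b v < ee G Y (P \ Y) + 2 := by
    intro Y hY
    have h1 := hcut Y hY
    have h2 := hφ Y hY
    have h3 : ((∑ v ∈ Y, b v : ℤ) : ℝ) = ∑ v ∈ Y, ((x v : ℝ) + qr r (φ v)) +
        2 / r * ∑ v ∈ Y, φ v := by
      push_cast
      rw [mul_sum, ← sum_add_distrib]
      refine sum_congr rfl fun v _ => ?_
      simp only [b, qr]
      push_cast
      ring
    have h4 := le_abs_self (∑ v ∈ Y, ((x v : ℝ) + qr r (φ v)))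
    have h5 := le_abs_self (∑ v ∈ Y, φ v)
    have h6 : r * ((∑ v ∈ Y, b v : ℤ) : ℝ) < r * (ee G Y (P \ Y) + 2) := by
      rw [h3, mul_add, ← mul_assoc, mul_div_cancel₀ _ hr0.ne']
      nlinarith
    have h7 := lt_of_mul_lt_mul_left h6 hr0.le
    have h8 : ((∑ v ∈ Y, b v : ℤ) : ℝ) < ((ee G Y (P \ Y) + 2 : ℤ) : ℝ) := by
      push_cast at h7 ⊢
      linarith
    exact_mod_cast h8
  have hPP : (ee G P (P \ P) : ℤ) = 0 := by
    rw [Finset.sdiff_self, ee_sum]
    simp
  have htot : ∑ v, d v = 0 := by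
    have h1 : ∑ v, d v = ∑ v ∈ P, d v := by
      symm
      exact sum_subset (subset_univ P) fun v _ hv => hdN v hv
    have h2 := hsumP P (Subset.refl P)
    rw [Finset.sdiff_self] at h2
    simp only [sum_empty, sum_const_zero, sub_zero] at h2
    have h3 : ((∑ v ∈ P, b v : ℤ) : ℝ) = 0 := by
      have h4 := hcut P (Subset.refl P)
      have h5 : (ee G P (P \ P) : ℝ) = 0 := by exact_mod_cast hPP
      rw [h5, mul_zero] at h4
      have h6 : ∑ v ∈ P, ((x v : ℝ) + qr r (φ v)) = 0 := by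
        refine abs_nonpos_iff.1 ?_
        by_contra h
        push Not at h
        have : 0 < r * |∑ v ∈ P, ((x v : ℝ) + qr r (φ v))| := mul_pos hr0 h
        linarith
      have h7 : ((∑ v ∈ P, b v : ℤ) : ℝ) = ∑ v ∈ P, ((x v : ℝ) + qr r (φ v)) +
          2 / r * ∑ v ∈ P, φ v := by
        push_cast
        rw [mul_sum, ← sum_add_distrib]
        refine sum_congr rfl fun v _ => ?_
        simp only [b, qr]
        push_cast
        ring
      rw [h7, h6, h0]
      simp
    have h4 : ∑ v ∈ P, b v = 0 := by exact_mod_cast h3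
    rw [h1]
    omega
  have hcutd : ∀ Z : Finset V, ∑ v ∈ Z, d v ≤ MP974d84.cs u Z := by
    intro Z
    have h1 : ∑ v ∈ Z, d v = ∑ v ∈ Z ∩ P, d v := by
      symm
      refine sum_subset inter_subset_left fun v hv hv' => hdN v fun h => hv' (mem_inter.2 ⟨hv, h⟩)
    have h2 := hsumP (Z ∩ P) inter_subset_right
    have h3 := hbY (Z ∩ P) inter_subset_right
    have h4 := hcs Z
    rw [h1]
    omega
  obtain ⟨k, hkA, hku, hkd⟩ := MP974d84.hoffman u d (fun _ _ => 0) (fun _ _ => by norm_num) hu0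
    htot hcutd
  have hk0 : ∀ v w, ¬ I v w → k v w = 0 := by
    intro v w h
    have h1 := hku v w
    have h2 := hku w v
    have h3 := hkA v w
    have h4 : u v w = 0 := if_neg h
    have h5 : u w v = 0 := if_neg fun h' => h ((hIs v w).2 h')
    omega
  refine ⟨fun v w => s v w + 2 * k v w, fun v w => ?_, fun v w h => ?_, fun v w h => ?_,
    fun v hv => ?_⟩
  · show s v w + 2 * k v w = -(s w v + 2 * k w v)
    rw [hs v w, hkA v w]
    ring
  · show s v w + 2 * k v w = 0
    rw [hs0 v w h, hk0 v w h]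
    norm_num
  · show s v w + 2 * k v w = 1 ∨ s v w + 2 * k v w = -1
    have h' : I v w := h
    have h'' := (hIs v w).1 h'
    have e1 := hku v w
    have e2 := hku w v
    have e3 := hkA v w
    have e4 : u v w = (1 - σ v w) / 2 := if_pos h'
    have e5 : u w v = (1 - σ w v) / 2 := if_pos h''
    have e6 := hσa v w h'.2.2.ne
    have e7 : s v w = σ v w := if_pos h'
    rw [e7]
    rcases hσ1 v w with e8 | e8
    · have e9 : σ w v = -1 := by omega
      rw [e4, e8] at e1
      rw [e5, e9] at e2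
      rw [e8]
      norm_num at e1 e2
      omega
    · have e9 : σ w v = 1 := by omega
      rw [e4, e8] at e1
      rw [e5, e9] at e2
      rw [e8]
      norm_num at e1 e2
      omega
  · show ∑ w, (s v w + 2 * k v w) - x v - sgr (φ v) = 0
    have h5 : ∑ w, (s v w + 2 * k v w) = b v := by
      have h6 := hkd v
      unfold MP974d84.dv at h6
      rw [sum_add_distrib, ← mul_sum, h6]
      have := hdP v hv
      omega
    rw [h5]
    simp only [b]
    ring

end Pool.Agent.K5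

namespace Pool.Agent.K5.Re

open Finset SimpleGraph Pool.Agent.Exp Pool.Agent.Log5 Pool.Agent.Log5.Clu Pool.Agent.K5

/-- **The real extension theorem.** -/
theorem ext_full {κ : ℕ} (hκ : 5 ≤ κ)
    {r : ℝ} (hr : 4 * κ / (κ - 4) < r) :
    ∃ K : ℕ, ∀ {V : Type} [Fintype V] [DecidableEq V] (G : SimpleGraph V)
    [DecidableRel G.Adj], (∀ v, G.degree v = 3) → ∀ P : Finset V, FarB G K P →
    (∀ A ⊆ P, A.card < K → (G.induce (A : Set V)).IsAcyclic) →
    (∀ Y ⊆ P, ¬ (G.induce (Y : Set V)).IsAcyclic →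
      ¬ (G.induce ((P \ Y : Finset V) : Set V)).IsAcyclic → κ ≤ ee G Y (P \ Y)) →
    ∀ φ : V → ℝ, (∀ v ∈ P, φ v = 0 ↔ ∀ w, G.Adj v w → w ∈ P) →
    (∀ v ∈ P, φ v ≠ 0 → 1 ≤ |φ v| ∧ |φ v| ≤ r - 1) → (∃ t : ℤ, ∑ v ∈ P, φ v = r * t) →
    ∃ f : V → V → ℝ, (∀ v w, f v w = - f w v) ∧
      (∀ v w, ¬ (v ∈ P ∧ w ∈ P ∧ G.Adj v w) → f v w = 0) ∧
      (∀ v ∈ P, ∀ w ∈ P, G.Adj v w → 1 ≤ |f v w| ∧ |f v w| ≤ r - 1) ∧
      (∀ v ∈ P, ∃ k : ℤ, ∑ w, f v w = φ v + r * k) ∧
      (∑ v ∈ P, φ v = 0 → (∀ Z ⊆ P, |∑ v ∈ Z, φ v| < r + ee G Z (P \ Z)) →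
        ∀ v ∈ P, ∑ w, f v w = φ v) ∧
      ((∃ R : ℤ, r = R) → (∀ v ∈ P, ∃ m : ℤ, φ v = m) → ∀ v w, ∃ m : ℤ, f v w = m) := by
  have hκr : (5 : ℝ) ≤ κ := by exact_mod_cast hκ
  have hκ0 : (0 : ℝ) < κ := by linarith
  have hκ4 : (0 : ℝ) < (κ : ℝ) - 4 := by linarith
  have hq4 : (4 : ℝ) < 4 * κ / (κ - 4) := by
    rw [lt_div_iff₀ hκ4]
    linarith
  have hr4 : 4 < r := hq4.trans hr
  have hr0 : 0 < r := by linarith
  obtain ⟨c, hc⟩ : ∃ c : ℝ, c = (r - 2) / r := ⟨_, rfl⟩
  have hc0 : 1 / 2 + 2 / (κ : ℝ) < c := by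
    have h3 : (r - 2) / r = 1 - 2 / r := by
      field_simp
    rw [hc, h3]
    have h1 : 2 / r < 2 / (4 * κ / (κ - 4)) := by
      apply div_lt_div_of_pos_left (by norm_num) (by linarith) hr
    have h2 : 2 / (4 * (κ : ℝ) / (κ - 4)) = 1 / 2 - 2 / κ := by
      field_simp
      ring
    rw [h2] at h1
    linarith
  have hc2 : (1 : ℝ) / 2 ≤ c := by
    have : (0 : ℝ) < 2 / κ := by positivity
    linarith
  obtain ⟨D, K, h⟩ := ext_signs_c (κ := κ) (by omega) hc2 (main_ec hκ hc0)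
  refine ⟨D + K + 1, fun {V} _ _ G _ h3 P hF hg hP φ hφ hφ1 ht => ?_⟩
  classical
  obtain ⟨t, ht⟩ := ht
  have hone := far_one (G := G) (D := D + K + 1) (by omega) hF
  -- the degrees inside
  have hdeg : ∀ v ∈ P, (P.filter fun w => G.Adj v w).card = if φ v = 0 then 3 else 2 := by
    intro v hv
    have h1 : (univ.filter fun w => G.Adj v w).card = 3 := by
      rw [← h3 v, ← card_neighborFinset_eq_degree]
      congr 1
      ext w
      simp
    have h2 : (univ.filter fun w => G.Adj v w).card =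
        (P.filter fun w => G.Adj v w).card + (Pᶜ.filter fun w => G.Adj v w).card := by
      rw [← card_union_of_disjoint]
      · congr 1
        rw [← filter_union, union_compl]
      · exact disjoint_filter_filter disjoint_compl_right
    by_cases h0 : φ v = 0
    · rw [if_pos h0]
      have h4 := (hφ v hv).1 h0
      have h5 : (Pᶜ.filter fun w => G.Adj v w) = ∅ := by
        refine filter_eq_empty_iff.2 fun w hw hvw => (mem_compl.1 hw) (h4 w hvw)
      rw [h5, card_empty] at h2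
      omega
    · rw [if_neg h0]
      have h4 : ∃ w, G.Adj v w ∧ w ∉ P := by
        by_contra hno
        push Not at hno
        exact h0 ((hφ v hv).2 hno)
      obtain ⟨w, hw, hwP⟩ := h4
      have h5 : (Pᶜ.filter fun w => G.Adj v w) = {w} := by
        ext u
        simp only [mem_filter, mem_compl, mem_singleton]
        exact ⟨fun h => hone v hv u w h.1 hwP h.2 hw, fun h => h ▸ ⟨hwP, hw⟩⟩
      rw [h5, card_singleton] at h2
      omega
  have hbd : ∀ v ∈ P, (∃ w, G.Adj v w ∧ w ∉ P) ↔ φ v ≠ 0 := by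
    intro v hv
    constructor
    · rintro ⟨w, hw, hwP⟩ h0
      exact hwP ((hφ v hv).1 h0 w hw)
    · intro h0
      by_contra hno
      push Not at hno
      exact h0 ((hφ v hv).2 hno)
  -- parity
  have hpar : ∃ s : ℤ, ∑ v ∈ P, qr r (φ v) +
      (P.filter fun v => ∃ w, G.Adj v w ∧ w ∉ P).card = 2 * s := by
    refine ⟨((P.filter fun v => 0 < φ v).card : ℤ) - t, ?_⟩
    have h1 : ((P.filter fun v => ∃ w, G.Adj v w ∧ w ∉ P).card : ℝ) =
        ∑ v ∈ P, if φ v ≠ 0 then (1 : ℝ) else 0 := by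
      rw [card_filter]
      push_cast
      refine sum_congr rfl fun v hv => ?_
      simp only [hbd v hv]
    have h2 : ((P.filter fun v => 0 < φ v).card : ℝ) =
        ∑ v ∈ P, if 0 < φ v then (1 : ℝ) else 0 := by
      rw [card_filter]
      push_cast
      rfl
    have h4 : ∑ v ∈ P, qr r (φ v) = ∑ v ∈ P, (sgr (φ v) : ℝ) - 2 * t := by
      unfold qr
      rw [sum_sub_distrib]
      congr 1
      rw [← sum_div, ← mul_sum, ht]
      field_simp
    rw [h1, h4]
    push_cast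
    rw [h2]
    have h5 : ∑ v ∈ P, (sgr (φ v) : ℝ) + ∑ v ∈ P, (if φ v ≠ 0 then (1 : ℝ) else 0) =
        2 * ∑ v ∈ P, (if 0 < φ v then (1 : ℝ) else 0) := by
      rw [← sum_add_distrib, mul_sum]
      refine sum_congr rfl fun v _ => ?_
      unfold sgr
      rcases lt_trichotomy (φ v) 0 with h6 | h6 | h6
      · rw [if_neg (not_lt.2 h6.le), if_pos h6, if_pos h6.ne, if_neg (not_lt.2 h6.le)]
        push_cast
        ring
      · rw [h6]
        simp
      · rw [if_pos h6, if_pos h6.ne', if_pos h6]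
        push_cast
        ring
    linarith
  obtain ⟨x, hx1, hx2, hx3⟩ := h G h3 P (hF.mono (by omega))
    (fun A hA hA' => hg A hA (by omega)) hP (fun v => qr r (φ v))
    (fun v hv hw => by
      have h1 := hφ1 v hv ((hbd v hv).1 hw)
      exact qr_le (by linarith) h1.1 h1.2)
    (fun v hv hw => by
      show qr r (φ v) = 0
      rw [(hφ v hv).2 hw]
      simp [qr, sgr_zero])
    (by
      obtain ⟨s, hs⟩ := hpar
      exact ⟨s, by rw [← hs]⟩)
  have hcut : ∀ Y ⊆ P, r * |∑ v ∈ Y, ((x v : ℝ) + qr r (φ v))| ≤ (r - 2) * ee G Y (P \ Y) := by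
    intro Y hY
    have h1 := hx3 Y hY
    rw [hc] at h1
    have h2 := mul_le_mul_of_nonneg_left h1 hr0.le
    calc r * |∑ v ∈ Y, ((x v : ℝ) + qr r (φ v))| ≤ r * ((r - 2) / r * ee G Y (P \ Y)) := h2
      _ = (r - 2) * ee G Y (P \ Y) := by field_simp
  by_cases hX : ∑ v ∈ P, φ v = 0 ∧ ∀ Z ⊆ P, |∑ v ∈ Z, φ v| < r + ee G Z (P \ Z)
  · obtain ⟨o, o1, o2, o3, o4⟩ := exists_o_exact (G := G) (by linarith : 2 < r) P φ hdeg x hx1 hcut
      hX.1 hX.2
    obtain ⟨f, f1, f2, f3, f4, f5⟩ := ext_all_f (G := G) (by linarith : 2 < r) P φ x hcut o o1 o2 o3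
      (fun _ => 0) (fun v hv => by rw [o4 v hv]; norm_num)
    have f4' : ∀ v ∈ P, ∑ w, f v w = φ v := fun v hv => by
      rw [f4 v hv]
      simp
    exact ⟨f, f1, f2, f3, fun v hv => ⟨0, by rw [f4' v hv]; simp⟩, fun _ _ => f4', f5⟩
  · obtain ⟨o, k, o1, o2, o3, o4⟩ := exists_o_mod (G := G) P φ hdeg x hx1
    obtain ⟨f, f1, f2, f3, f4, f5⟩ := ext_all_f (G := G) (by linarith : 2 < r) P φ x hcut o o1 o2 o3
      k o4
    exact ⟨f, f1, f2, f3, fun v hv => ⟨k v, f4 v hv⟩, fun h1 h2 => absurd ⟨h1, h2⟩ hX, f5⟩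

end Pool.Agent.K5.Re
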