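import Mathlib
import Pool.Agent.Work.MP_974d84_co_k5.ExtRealFull

/-!
# The real extension theorem with one constant for all `r ≥ r₀`

The constant of the real extension theorem depends on a lower bound of `r` only.
-/

set_option linter.unusedSectionVars false

namespace Pool.Agent.K5.Re

open Finset SimpleGraph Pool.Agent.Exp Pool.Agent.Log5 Pool.Agent.Log5.Clu Pool.Agent.K5

/-- **The real extension theorem, one constant for all `r ≥ r₀`.** -/
theorem ext_unif {κ : ℕ} (hκ : 5 ≤ κ)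
    {r₀ : ℝ} (hr₀ : 4 * κ / (κ - 4) < r₀) :
    ∃ K : ℕ, ∀ {V : Type} [Fintype V] [DecidableEq V] (G : SimpleGraph V)
    [DecidableRel G.Adj], (∀ v, G.degree v = 3) → ∀ P : Finset V, FarB G K P →
    (∀ A ⊆ P, A.card < K → (G.induce (A : Set V)).IsAcyclic) →
    (∀ Y ⊆ P, ¬ (G.induce (Y : Set V)).IsAcyclic →
      ¬ (G.induce ((P \ Y : Finset V) : Set V)).IsAcyclic → κ ≤ ee G Y (P \ Y)) →
    ∀ r : ℝ, r₀ ≤ r → ∀ φ : V → ℝ, (∀ v ∈ P, φ v = 0 ↔ ∀ w, G.Adj v w → w ∈ P) →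
    (∀ v ∈ P, φ v ≠ 0 → 1 ≤ |φ v| ∧ |φ v| ≤ r - 1) → (∃ t : ℤ, ∑ v ∈ P, φ v = r * t) →
    ∃ f : V → V → ℝ, (∀ v w, f v w = - f w v) ∧
      (∀ v w, ¬ (v ∈ P ∧ w ∈ P ∧ G.Adj v w) → f v w = 0) ∧
      (∀ v ∈ P, ∀ w ∈ P, G.Adj v w → 1 ≤ |f v w| ∧ |f v w| ≤ r - 1) ∧
      (∀ v ∈ P, ∃ k : ℤ, ∑ w, f v w = φ v + r * k) ∧
      (∑ v ∈ P, φ v = 0 → (∀ Z ⊆ P, |∑ v ∈ Z, φ v| < r + ee G Z (P \ Z)) →
        ∀ v ∈ P, ∑ w, f v w = φ v) ∧
      ((∃ R : ℤ, r = R) → (∀ v ∈ P, ∃ m : ℤ, φ v = m) → ∀ v w, ∃ m : ℤ, f v w = m) := by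
  have hκr : (5 : ℝ) ≤ κ := by exact_mod_cast hκ
  have hκ0 : (0 : ℝ) < κ := by linarith
  have hκ4 : (0 : ℝ) < (κ : ℝ) - 4 := by linarith
  have hq4 : (4 : ℝ) < 4 * κ / (κ - 4) := by
    rw [lt_div_iff₀ hκ4]
    linarith
  have hr₀4 : 4 < r₀ := hq4.trans hr₀
  have hr₀0 : 0 < r₀ := by linarith
  obtain ⟨c, hc⟩ : ∃ c : ℝ, c = (r₀ - 2) / r₀ := ⟨_, rfl⟩
  have hc0 : 1 / 2 + 2 / (κ : ℝ) < c := by
    have h3 : (r₀ - 2) / r₀ = 1 - 2 / r₀ := by
      field_simp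
    rw [hc, h3]
    have h1 : 2 / r₀ < 2 / (4 * κ / (κ - 4)) := by
      apply div_lt_div_of_pos_left (by norm_num) (by linarith) hr₀
    have h2 : 2 / (4 * (κ : ℝ) / (κ - 4)) = 1 / 2 - 2 / κ := by
      field_simp
      ring
    rw [h2] at h1
    linarith
  have hc2 : (1 : ℝ) / 2 ≤ c := by
    have : (0 : ℝ) < 2 / κ := by positivity
    linarith
  obtain ⟨D, K, h⟩ := ext_signs_c (κ := κ) (by omega) hc2 (main_ec hκ hc0)
  refine ⟨D + K + 1, fun {V} _ _ G _ h3 P hF hg hP r hr φ hφ hφ1 ht => ?_⟩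
  classical
  have hr4 : 4 < r := hr₀4.trans_le hr
  have hr0 : 0 < r := by linarith
  have hcr : c ≤ (r - 2) / r := by
    rw [hc, div_le_div_iff₀ hr₀0 hr0]
    nlinarith
  obtain ⟨t, ht⟩ := ht
  have hone := far_one (G := G) (D := D + K + 1) (by omega) hF
  -- the degrees inside
  have hdeg : ∀ v ∈ P, (P.filter fun w => G.Adj v w).card = if φ v = 0 then 3 else 2 := by
    intro v hv
    have h1 : (univ.filter fun w => G.Adj v w).card = 3 := by
      rw [← h3 v, ← card_neighborFinset_eq_degree]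
      congr 1
      ext w
      simp
    have h2 : (univ.filter fun w => G.Adj v w).card =
        (P.filter fun w => G.Adj v w).card + (Pᶜ.filter fun w => G.Adj v w).card := by
      rw [← card_union_of_disjoint]
      · congr 1
        rw [← filter_union, union_compl]
      · exact disjoint_filter_filter disjoint_compl_right
    by_cases h0 : φ v = 0
    · rw [if_pos h0]
      have h4 := (hφ v hv).1 h0
      have h5 : (Pᶜ.filter fun w => G.Adj v w) = ∅ := by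
        refine filter_eq_empty_iff.2 fun w hw hvw => (mem_compl.1 hw) (h4 w hvw)
      rw [h5, card_empty] at h2
      omega
    · rw [if_neg h0]
      have h4 : ∃ w, G.Adj v w ∧ w ∉ P := by
        by_contra hno
        push Not at hno
        exact h0 ((hφ v hv).2 hno)
      obtain ⟨w, hw, hwP⟩ := h4
      have h5 : (Pᶜ.filter fun w => G.Adj v w) = {w} := by
        ext u
        simp only [mem_filter, mem_compl, mem_singleton]
        exact ⟨fun h => hone v hv u w h.1 hwP h.2 hw, fun h => h ▸ ⟨hwP, hw⟩⟩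
      rw [h5, card_singleton] at h2
      omega
  have hbd : ∀ v ∈ P, (∃ w, G.Adj v w ∧ w ∉ P) ↔ φ v ≠ 0 := by
    intro v hv
    constructor
    · rintro ⟨w, hw, hwP⟩ h0
      exact hwP ((hφ v hv).1 h0 w hw)
    · intro h0
      by_contra hno
      push Not at hno
      exact h0 ((hφ v hv).2 hno)
  -- parity
  have hpar : ∃ s : ℤ, ∑ v ∈ P, qr r (φ v) +
      (P.filter fun v => ∃ w, G.Adj v w ∧ w ∉ P).card = 2 * s := by
    refine ⟨((P.filter fun v => 0 < φ v).card : ℤ) - t, ?_⟩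
    have h1 : ((P.filter fun v => ∃ w, G.Adj v w ∧ w ∉ P).card : ℝ) =
        ∑ v ∈ P, if φ v ≠ 0 then (1 : ℝ) else 0 := by
      rw [card_filter]
      push_cast
      refine sum_congr rfl fun v hv => ?_
      simp only [hbd v hv]
    have h2 : ((P.filter fun v => 0 < φ v).card : ℝ) =
        ∑ v ∈ P, if 0 < φ v then (1 : ℝ) else 0 := by
      rw [card_filter]
      push_cast
      rfl
    have h4 : ∑ v ∈ P, qr r (φ v) = ∑ v ∈ P, (sgr (φ v) : ℝ) - 2 * t := by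
      unfold qr
      rw [sum_sub_distrib]
      congr 1
      rw [← sum_div, ← mul_sum, ht]
      field_simp
    rw [h1, h4]
    push_cast
    rw [h2]
    have h5 : ∑ v ∈ P, (sgr (φ v) : ℝ) + ∑ v ∈ P, (if φ v ≠ 0 then (1 : ℝ) else 0) =
        2 * ∑ v ∈ P, (if 0 < φ v then (1 : ℝ) else 0) := by
      rw [← sum_add_distrib, mul_sum]
      refine sum_congr rfl fun v _ => ?_
      unfold sgr
      rcases lt_trichotomy (φ v) 0 with h6 | h6 | h6
      · rw [if_neg (not_lt.2 h6.le), if_pos h6, if_pos h6.ne, if_neg (not_lt.2 h6.le)]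
        push_cast
        ring
      · rw [h6]
        simp
      · rw [if_pos h6, if_pos h6.ne', if_pos h6]
        push_cast
        ring
    linarith
  obtain ⟨x, hx1, hx2, hx3⟩ := h G h3 P (hF.mono (by omega))
    (fun A hA hA' => hg A hA (by omega)) hP (fun v => qr r (φ v))
    (fun v hv hw => by
      have h1 := hφ1 v hv ((hbd v hv).1 hw)
      exact qr_le (by linarith) h1.1 h1.2)
    (fun v hv hw => by
      show qr r (φ v) = 0
      rw [(hφ v hv).2 hw]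
      simp [qr, sgr_zero])
    (by
      obtain ⟨s, hs⟩ := hpar
      exact ⟨s, by rw [← hs]⟩)
  have hcut : ∀ Y ⊆ P, r * |∑ v ∈ Y, ((x v : ℝ) + qr r (φ v))| ≤ (r - 2) * ee G Y (P \ Y) := by
    intro Y hY
    have h1 := (hx3 Y hY).trans (mul_le_mul_of_nonneg_right hcr (Nat.cast_nonneg _))
    have h2 := mul_le_mul_of_nonneg_left h1 hr0.le
    calc r * |∑ v ∈ Y, ((x v : ℝ) + qr r (φ v))| ≤ r * ((r - 2) / r * ee G Y (P \ Y)) := h2
      _ = (r - 2) * ee G Y (P \ Y) := by field_simp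
  by_cases hX : ∑ v ∈ P, φ v = 0 ∧ ∀ Z ⊆ P, |∑ v ∈ Z, φ v| < r + ee G Z (P \ Z)
  · obtain ⟨o, o1, o2, o3, o4⟩ := exists_o_exact (G := G) (by linarith : 2 < r) P φ hdeg x hx1 hcut
      hX.1 hX.2
    obtain ⟨f, f1, f2, f3, f4, f5⟩ := ext_all_f (G := G) (by linarith : 2 < r) P φ x hcut o o1 o2 o3
      (fun _ => 0) (fun v hv => by rw [o4 v hv]; norm_num)
    have f4' : ∀ v ∈ P, ∑ w, f v w = φ v := fun v hv => by
      rw [f4 v hv]
      simp
    exact ⟨f, f1, f2, f3, fun v hv => ⟨0, by rw [f4' v hv]; simp⟩, fun _ _ => f4', f5⟩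
  · obtain ⟨o, k, o1, o2, o3, o4⟩ := exists_o_mod (G := G) P φ hdeg x hx1
    obtain ⟨f, f1, f2, f3, f4, f5⟩ := ext_all_f (G := G) (by linarith : 2 < r) P φ x hcut o o1 o2 o3
      k o4
    exact ⟨f, f1, f2, f3, fun v hv => ⟨k v, f4 v hv⟩, fun h1 h2 => absurd ⟨h1, h2⟩ hX, f5⟩

end Pool.Agent.K5.Re
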