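import Mathlib
import Pool.Agent.Work.MP_974d84_co_k5.ExtHoff

/-!
# Hoffman's theorem with a boundary, modulo `n`
-/

set_option linter.unusedSectionVars false

namespace Pool.Agent.K5.Re

open Finset SimpleGraph Pool.Agent.Exp Pool.Agent.Log5 Pool.Agent.Log5.Clu Pool.Agent.K5

/-- The charge of a boundary value modulo `n`. -/
noncomputable def qn {n : ℕ} (a : ZMod n) : ℝ := if a = 0 then 0 else (2 * (a.val : ℝ) - n) / n

/-- `n` times the charge. -/
def hn {n : ℕ} (a : ZMod n) : ℤ := if a = 0 then 0 else 2 * (a.val : ℤ) - n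

theorem qn_eq {n : ℕ} (a : ZMod n) : qn a = (hn a : ℝ) / n := by
  unfold qn hn
  split_ifs
  · simp
  · push_cast
    ring

variable {V : Type} [Fintype V] [DecidableEq V] {G : SimpleGraph V} [DecidableRel G.Adj]

section

variable (G) (P : Finset V) (n : ℕ) (σ : V → V → ℤ)

/-- The capacities. -/
def capN (v w : V) : ℤ :=
  if v ∈ P ∧ w ∈ P ∧ G.Adj v w then ((n : ℤ) - 2 - (n % 2 : ℕ) * σ v w) / 2 else 0

end

/-- **Hoffman's theorem with a boundary, modulo `n`.** -/
theorem ext_hoff_n {n : ℕ} (hn2 : 2 ≤ n) (P : Finset V) (φ : V → ZMod n)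
    (hdeg : ∀ v ∈ P, (P.filter fun w => G.Adj v w).card = if φ v = 0 then 3 else 2)
    (x : V → ℤ) (hx : ∀ v ∈ P, x v = 1 ∨ x v = -1)
    (hcut : ∀ Y ⊆ P, |∑ v ∈ Y, ((x v : ℝ) + qn (φ v))| ≤ ((n : ℝ) - 2) / n * ee G Y (P \ Y)) :
    ∃ f : V → V → ZMod n, (∀ v w, f v w = - f w v) ∧
      (∀ v w, ¬ (v ∈ P ∧ w ∈ P ∧ G.Adj v w) → f v w = 0) ∧
      (∀ v ∈ P, ∀ w ∈ P, G.Adj v w → f v w ≠ 0) ∧
      ∀ v ∈ P, ∑ w, f v w + φ v = 0 := by
  classical
  haveI : NeZero n := ⟨by omega⟩
  obtain ⟨σ, hσa, hσ1⟩ := exists_sgn V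
  obtain ⟨m, e, he, hnme, hem⟩ : ∃ m e : ℤ, (e = 0 ∨ e = 1) ∧ (n : ℤ) = 2 * m + e ∧
      ((n % 2 : ℕ) : ℤ) = e :=
    ⟨n / 2, (n % 2 : ℕ), by omega, by omega, rfl⟩
  -- the signs on the inner edges
  let I : V → V → Prop := fun v w => v ∈ P ∧ w ∈ P ∧ G.Adj v w
  have hIs : ∀ v w, I v w ↔ I w v := fun v w =>
    ⟨fun h => ⟨h.2.1, h.1, h.2.2.symm⟩, fun h => ⟨h.2.1, h.1, h.2.2.symm⟩⟩
  let s : V → V → ℤ := fun v w => if I v w then e * σ v w else 0
  have hs : MP974d84.Anti s := by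
    intro v w
    by_cases h : I v w
    · simp only [s, if_pos h, if_pos ((hIs v w).1 h)]
      rw [hσa v w h.2.2.ne]
      ring
    · simp only [s, if_neg h, if_neg (fun h' => h ((hIs v w).2 h'))]
      norm_num
  -- the degree inside `P`
  have hdegI : ∀ v ∈ P, ∑ w, (if I v w then (1 : ℤ) else 0) = if φ v = 0 then 3 else 2 := by
    intro v hv
    have h1 := hdeg v hv
    have h2 : (univ.filter fun w => I v w) = P.filter fun w => G.Adj v w := by
      ext w
      simp [I, hv]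
    rw [← sum_filter, sum_const, h2, h1]
    split_ifs <;> simp
  -- parity
  have hpar : ∀ v, ∃ k : ℤ, 2 * k = if v ∈ P then
      -(n : ℤ) * x v - hn (φ v) - ∑ w, s v w else 0 := by
    intro v
    by_cases hv : v ∈ P
    · rw [if_pos hv]
      have h1 : ∃ j : ℤ, ∑ w, s v w = e * (∑ w, if I v w then (1 : ℤ) else 0) + 2 * j := by
        have h2 : ∀ w, ∃ j : ℤ, s v w = e * (if I v w then (1 : ℤ) else 0) + 2 * j := by
          intro w
          by_cases h : I v w
          · rcases hσ1 v w with h3 | h3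
            · exact ⟨0, by simp only [s, if_pos h, h3]; ring⟩
            · exact ⟨-e, by simp only [s, if_pos h, h3]; ring⟩
          · exact ⟨0, by simp only [s, if_neg h]; norm_num⟩
        choose j hj using h2
        exact ⟨∑ w, j w, by
          rw [mul_sum, mul_sum, ← sum_add_distrib]; exact sum_congr rfl fun w _ => hj w⟩
      obtain ⟨j, hj⟩ := h1
      rw [hdegI v hv] at hj
      rw [hj]
      have h3 : ∃ j : ℤ, x v = 1 + 2 * j := by
        rcases hx v hv with h | h
        · exact ⟨0, by rw [h]; norm_num⟩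
        · exact ⟨-1, by rw [h]; norm_num⟩
      obtain ⟨i, hi⟩ := h3
      by_cases h0 : φ v = 0
      · refine ⟨-m - 2 * e - n * i - j, ?_⟩
        simp only [hn, if_pos h0, hi]
        rw [hnme]
        ring
      · refine ⟨- e - n * i - (φ v).val - j, ?_⟩
        simp only [hn, if_neg h0, hi]
        rw [hnme]
        ring
    · exact ⟨0, by rw [if_neg hv]; norm_num⟩
  choose d hd using hpar
  have hdP : ∀ v ∈ P, 2 * d v = -(n : ℤ) * x v - hn (φ v) - ∑ w, s v w := fun v hv => by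
    rw [hd v, if_pos hv]
  have hdN : ∀ v, v ∉ P → d v = 0 := fun v hv => by
    have := hd v
    rw [if_neg hv] at this
    omega
  -- sums over subsets of `P`
  have hsumP : ∀ Y ⊆ P, 2 * ∑ v ∈ Y, d v = -(∑ v ∈ Y, ((n : ℤ) * x v + hn (φ v))) -
      ∑ v ∈ Y, ∑ w ∈ P \ Y, s v w := by
    intro Y hY
    have h1 : ∀ v, ∑ w, s v w = ∑ w ∈ Y, s v w + ∑ w ∈ P \ Y, s v w := by
      intro v
      rw [← sum_union disjoint_sdiff, union_sdiff_of_subset hY]
      symm
      refine sum_subset (subset_univ P) fun w _ hw => ?_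
      exact if_neg fun h => hw h.2.1
    rw [mul_sum]
    have h2 : ∑ v ∈ Y, 2 * d v = ∑ v ∈ Y, (-((n : ℤ) * x v + hn (φ v)) - ∑ w ∈ P \ Y, s v w) -
        ∑ v ∈ Y, ∑ w ∈ Y, s v w := by
      rw [← sum_sub_distrib]
      refine sum_congr rfl fun v hv => ?_
      rw [hdP v (hY hv), h1 v]
      ring
    rw [h2, MP974d84.anti_inner hs Y, sum_sub_distrib, sum_neg_distrib]
    ring
  -- the cut condition over the integers
  have hn0 : (0 : ℝ) < n := by
    have : 0 < n := by omega
    exact_mod_cast this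
  have hcutZ : ∀ Y ⊆ P, |∑ v ∈ Y, ((n : ℤ) * x v + hn (φ v))| ≤
      ((n : ℤ) - 2) * (ee G Y (P \ Y) : ℤ) := by
    intro Y hY
    have h1 := hcut Y hY
    have h2 : ∑ v ∈ Y, ((x v : ℝ) + qn (φ v)) =
        ((∑ v ∈ Y, ((n : ℤ) * x v + hn (φ v)) : ℤ) : ℝ) / n := by
      push_cast
      rw [sum_div]
      refine sum_congr rfl fun v _ => ?_
      rw [qn_eq]
      field_simp
    rw [h2, abs_div, abs_of_pos hn0, div_mul_eq_mul_div, div_le_div_iff_of_pos_right hn0] at h1
    have h3 : ((|∑ v ∈ Y, ((n : ℤ) * x v + hn (φ v))| : ℤ) : ℝ) ≤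
        ((((n : ℤ) - 2) * (ee G Y (P \ Y) : ℤ) : ℤ) : ℝ) := by
      push_cast at h1 ⊢
      exact h1
    exact_mod_cast h3
  have heeI : ∀ Y ⊆ P, (ee G Y (P \ Y) : ℤ) = ∑ v ∈ Y, ∑ w ∈ P \ Y, if I v w then (1 : ℤ) else 0 := by
    intro Y hY
    rw [ee_sum]
    push_cast
    refine sum_congr rfl fun v hv => ?_
    rw [card_filter]
    push_cast
    refine sum_congr rfl fun w hw => ?_
    have : G.Adj v w ↔ I v w := ⟨fun h => ⟨hY hv, (mem_sdiff.1 hw).1, h⟩, fun h => h.2.2⟩
    simp only [this]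
  have hcapI : ∀ v w, I v w → 2 * capN G P n σ v w = (n : ℤ) - 2 - e * σ v w := by
    intro v w h
    have h1 : capN G P n σ v w = ((n : ℤ) - 2 - (n % 2 : ℕ) * σ v w) / 2 := if_pos h
    rw [h1, hem]
    rcases hσ1 v w with h4 | h4 <;> rw [h4] <;> rcases he with he | he <;> rw [he] at hnme ⊢ <;>
      omega
  have hcs : ∀ Z : Finset V, 2 * MP974d84.cs (capN G P n σ) Z =
      ((n : ℤ) - 2) * (ee G (Z ∩ P) (P \ (Z ∩ P)) : ℤ) -
        ∑ v ∈ Z ∩ P, ∑ w ∈ P \ (Z ∩ P), s v w := by
    intro Z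
    rw [heeI _ inter_subset_right, MP974d84.cs]
    have h1 : ∑ v ∈ Z, ∑ w ∈ Zᶜ, capN G P n σ v w =
        ∑ v ∈ Z ∩ P, ∑ w ∈ P \ (Z ∩ P), capN G P n σ v w := by
      have h2 : ∀ v, ∑ w ∈ Zᶜ, capN G P n σ v w = ∑ w ∈ P \ Z, capN G P n σ v w := by
        intro v
        symm
        refine sum_subset (fun w hw => mem_compl.2 (mem_sdiff.1 hw).2) fun w hw hw' => ?_
        refine if_neg fun h => hw' (mem_sdiff.2 ⟨h.2.1, mem_compl.1 hw⟩)
      have h3 : P \ (Z ∩ P) = P \ Z := by
        ext w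
        simp only [mem_sdiff, mem_inter]
        tauto
      rw [h3]
      simp only [h2]
      symm
      refine sum_subset inter_subset_left fun v hv hv' => ?_
      refine sum_eq_zero fun w _ => if_neg fun h => hv' (mem_inter.2 ⟨hv, h.1⟩)
    rw [h1, mul_sum, mul_sum, ← sum_sub_distrib]
    refine sum_congr rfl fun v _ => ?_
    rw [mul_sum, mul_sum, ← sum_sub_distrib]
    refine sum_congr rfl fun w _ => ?_
    by_cases h : I v w
    · rw [hcapI v w h]
      simp only [s, if_pos h]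
      ring
    · have h' : capN G P n σ v w = 0 := if_neg h
      rw [h']
      simp only [s, if_neg h]
      norm_num
  have htot : ∑ v, d v = 0 := by
    have h1 : ∑ v, d v = ∑ v ∈ P, d v := by
      symm
      exact sum_subset (subset_univ P) fun v _ hv => hdN v hv
    have h2 := hsumP P (Subset.refl P)
    have h3 := hcutZ P (Subset.refl P)
    rw [heeI P (Subset.refl P)] at h3
    have hPP : P \ P = ∅ := Finset.sdiff_self P
    rw [hPP] at h2 h3
    simp only [sum_empty, sum_const_zero, mul_zero] at h2 h3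
    have h4 := abs_nonpos_iff.1 h3
    rw [h1]
    omega
  have hcutd : ∀ Z : Finset V, ∑ v ∈ Z, d v ≤ MP974d84.cs (capN G P n σ) Z := by
    intro Z
    have h1 : ∑ v ∈ Z, d v = ∑ v ∈ Z ∩ P, d v := by
      symm
      refine sum_subset inter_subset_left fun v hv hv' => hdN v fun h => hv' (mem_inter.2 ⟨hv, h⟩)
    have h2 := hsumP (Z ∩ P) inter_subset_right
    have h3 := hcutZ (Z ∩ P) inter_subset_right
    have h4 := hcs Z
    have h5 := neg_abs_le (∑ v ∈ Z ∩ P, ((n : ℤ) * x v + hn (φ v)))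
    rw [h1]
    linarith
  have hcap0 : ∀ v w, (0 : ℤ) ≤ capN G P n σ v w := by
    intro v w
    by_cases h : I v w
    · have h1 := hcapI v w h
      rcases hσ1 v w with h4 | h4 <;> rw [h4] at h1 <;> rcases he with he | he <;>
        rw [he] at hnme h1 <;> omega
    · exact (if_neg h : capN G P n σ v w = 0).ge
  obtain ⟨k, hkA, hku, hkd⟩ := MP974d84.hoffman (capN G P n σ) d (fun _ _ => 0)
    (fun _ _ => by norm_num) hcap0 htot hcutd
  have hk0 : ∀ v w, ¬ I v w → k v w = 0 := by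
    intro v w h
    have h1 := hku v w
    have h2 := hku w v
    have h3 := hkA v w
    have h4 : capN G P n σ v w = 0 := if_neg h
    have h5 : capN G P n σ w v = 0 := if_neg fun h' => h ((hIs v w).2 h')
    omega
  -- the values
  let F : V → V → ℤ := fun v w => if I v w then k v w + (n + e * σ v w) / 2 else 0
  have hF : ∀ v w, I v w → 1 ≤ F v w ∧ F v w ≤ n - 1 ∧ F v w + F w v = n ∧
      2 * F v w = 2 * k v w + n + s v w := by
    intro v w h
    have h' := (hIs v w).1 h
    have h1 := hku v w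
    have h2 := hku w v
    have h3 := hkA v w
    have h4 := hcapI v w h
    have h5 := hcapI w v h'
    have h6 := hσa v w h.2.2.ne
    simp only [F, s, if_pos h, if_pos h']
    rcases hσ1 v w with h7 | h7
    · have h8 : σ w v = -1 := by omega
      rw [h7] at h4
      rw [h8] at h5
      rw [h7, h8]
      rcases he with he | he <;> rw [he] at hnme h4 h5 ⊢ <;> omega
    · have h8 : σ w v = 1 := by omega
      rw [h7] at h4
      rw [h8] at h5
      rw [h7, h8]
      rcases he with he | he <;> rw [he] at hnme h4 h5 ⊢ <;> omega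
  have hF0 : ∀ v w, ¬ I v w → F v w = 0 := fun v w h => if_neg h
  refine ⟨fun v w => ((F v w : ℤ) : ZMod n), fun v w => ?_, fun v w h => ?_, fun v hv w hw h => ?_,
    fun v hv => ?_⟩
  · by_cases h : I v w
    · have h1 := (hF v w h).2.2.1
      have h2 : ((F v w : ℤ) : ZMod n) + ((F w v : ℤ) : ZMod n) = 0 := by
        rw [← Int.cast_add, h1]
        simp
      exact eq_neg_of_add_eq_zero_left h2
    · simp only [hF0 v w h, hF0 w v fun h' => h ((hIs v w).2 h')]
      simp
  · simp only [hF0 v w h]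
    simp
  · have h1 := hF v w ⟨hv, hw, h⟩
    intro h2
    have h3 : (n : ℤ) ∣ F v w := (ZMod.intCast_zmod_eq_zero_iff_dvd _ n).1 h2
    have h4 := Int.le_of_dvd (by omega) h3
    omega
  · have h1 : ∑ w, ((F v w : ℤ) : ZMod n) = ((∑ w, F v w : ℤ) : ZMod n) := by
      rw [Int.cast_sum]
    rw [h1]
    have h2 : 2 * ∑ w, F v w = 2 * d v + n * (∑ w, if I v w then (1 : ℤ) else 0) + ∑ w, s v w := by
      rw [← hkd v, MP974d84.dv, mul_sum, mul_sum, mul_sum, ← sum_add_distrib, ← sum_add_distrib]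
      refine sum_congr rfl fun w _ => ?_
      by_cases h : I v w
      · rw [(hF v w h).2.2.2]
        simp only [if_pos h]
        ring
      · rw [hF0 v w h, hk0 v w h]
        simp only [s, if_neg h]
        norm_num
    rw [hdP v hv, hdegI v hv] at h2
    by_cases h0 : φ v = 0
    · rw [if_pos h0] at h2
      have h3 : hn (φ v) = 0 := if_pos h0
      rw [h3] at h2
      rw [h0, add_zero]
      refine (ZMod.intCast_zmod_eq_zero_iff_dvd _ n).2 ?_
      rcases hx v hv with h4 | h4 <;> rw [h4] at h2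
      · exact ⟨1, by linarith⟩
      · exact ⟨2, by linarith⟩
    · rw [if_neg h0] at h2
      have h3 : hn (φ v) = 2 * ((φ v).val : ℤ) - n := if_neg h0
      rw [h3] at h2
      have h5 : φ v = (((φ v).val : ℤ) : ZMod n) := by
        rw [Int.cast_natCast, ZMod.natCast_zmod_val]
      rw [h5, ← Int.cast_add]
      refine (ZMod.intCast_zmod_eq_zero_iff_dvd _ n).2 ?_
      rcases hx v hv with h4 | h4 <;> rw [h4] at h2
      · exact ⟨1, by linarith⟩
      · exact ⟨2, by linarith⟩

end Pool.Agent.K5.Re
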