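import Mathlib
import Pool.Agent.Work.MP_974d84_co_k5.ExtHoffN
import Pool.Agent.Work.MP_974d84_co_k5.SupR

/-!
# The extension theorem over `ZMod i`, `i ≥ 5`, from the signs with real charges
-/

set_option linter.unusedSectionVars false

namespace Pool.Agent.K5.Re

open Finset SimpleGraph Pool.Agent.Exp Pool.Agent.Log5 Pool.Agent.Log5.Clu Pool.Agent.K5

variable {V : Type} [Fintype V] [DecidableEq V] {G : SimpleGraph V} [DecidableRel G.Adj]
  {P : Finset V}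

/-- At most one neighbour outside. -/
theorem one_far {D : ℕ} (hD : 1 ≤ D) (hF : FarB G D P) :
    ∀ v ∈ P, ∀ w w', w ∉ P → w' ∉ P → G.Adj v w → G.Adj v w' → w = w' := by
  intro v hv w w' hw hw' h1 h2
  have h4 := hF.one hD hv
  unfold ee at h4
  rw [card_le_one] at h4
  have h5 := h4 (v, w) (by simp [hw, h1]) (v, w') (by simp [hw', h2])
  exact (Prod.ext_iff.1 h5).2

/-- The degrees inside `P`. -/
theorem deg_in (h3 : ∀ v, G.degree v = 3)
    (hb : ∀ v ∈ P, ∀ w w', w ∉ P → w' ∉ P → G.Adj v w → G.Adj v w' → w = w') {n : ℕ}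
    {φ : V → ZMod n} (hφ : ∀ v ∈ P, φ v = 0 ↔ ∀ w, G.Adj v w → w ∈ P) :
    ∀ v ∈ P, (P.filter fun w => G.Adj v w).card = if φ v = 0 then 3 else 2 := by
  intro v hv
  have h1 : (univ.filter fun w => G.Adj v w).card = 3 := by
    rw [← h3 v, ← card_neighborFinset_eq_degree]
    congr 1
    ext w
    simp
  have h2 : (univ.filter fun w => G.Adj v w).card =
      (P.filter fun w => G.Adj v w).card + (Pᶜ.filter fun w => G.Adj v w).card := by
    rw [← card_union_of_disjoint]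
    · congr 1
      rw [← filter_union, union_compl]
    · exact disjoint_filter_filter disjoint_compl_right
  by_cases h0 : φ v = 0
  · rw [if_pos h0]
    have h4 := (hφ v hv).1 h0
    have h5 : (Pᶜ.filter fun w => G.Adj v w) = ∅ := by
      refine filter_eq_empty_iff.2 fun w hw hvw => (mem_compl.1 hw) (h4 w hvw)
    rw [h5, card_empty] at h2
    omega
  · rw [if_neg h0]
    have h4 : ∃ w, G.Adj v w ∧ w ∉ P := by
      by_contra hno
      push Not at hno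
      exact h0 ((hφ v hv).2 hno)
    obtain ⟨w, hw, hwP⟩ := h4
    have h5 : (Pᶜ.filter fun w => G.Adj v w) = {w} := by
      ext u
      simp only [mem_filter, mem_compl, mem_singleton]
      exact ⟨fun h => hb v hv u w h.1 hwP h.2 hw, fun h => h ▸ ⟨hwP, hw⟩⟩
    rw [h5, card_singleton] at h2
    omega

theorem qn_abs {n : ℕ} (hn : 1 ≤ n) (a : ZMod n) : |qn a| ≤ 1 := by
  haveI : NeZero n := ⟨by omega⟩
  unfold qn
  split_ifs
  · rw [abs_zero]
    exact zero_le_one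
  · have h1 : (a.val : ℝ) ≤ n := by exact_mod_cast a.val_lt.le
    have h2 : (0 : ℝ) ≤ a.val := Nat.cast_nonneg _
    have h3 : (0 : ℝ) < n := by exact_mod_cast hn
    rw [abs_le]
    constructor
    · rw [le_div_iff₀ h3]
      linarith
    · rw [div_le_iff₀ h3]
      linarith

/-- The parity condition. -/
theorem qn_sum {n : ℕ} (hn : 1 ≤ n) {φ : V → ZMod n} (hφ : ∑ v ∈ P, φ v = 0) :
    ∃ t : ℤ, ∑ v ∈ P, qn (φ v) + (P.filter fun v => φ v ≠ 0).card = 2 * t := by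
  haveI : NeZero n := ⟨by omega⟩
  have h3 : (n : ℝ) ≠ 0 := by
    have : n ≠ 0 := by omega
    exact_mod_cast this
  have h1 : ((∑ v ∈ P, (φ v).val : ℕ) : ZMod n) = 0 := by
    rw [Nat.cast_sum, ← hφ]
    exact sum_congr rfl fun m _ => ZMod.natCast_zmod_val _
  obtain ⟨s, hs⟩ := (ZMod.natCast_eq_zero_iff _ _).1 h1
  refine ⟨s, ?_⟩
  have h2 : ((P.filter fun v => φ v ≠ 0).card : ℝ) = ∑ v ∈ P, if φ v ≠ 0 then (1 : ℝ) else 0 := by
    rw [sum_boole]
  rw [h2, ← sum_add_distrib]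
  have h4 : ∀ v ∈ P, qn (φ v) + (if φ v ≠ 0 then (1 : ℝ) else 0) = 2 * (φ v).val / n := by
    intro v _
    unfold qn
    by_cases h : φ v = 0
    · rw [if_pos h, h]
      simp
    · rw [if_neg h, if_pos h]
      field_simp
      ring
  rw [sum_congr rfl h4, ← sum_div, ← mul_sum]
  have h5 : ∑ v ∈ P, ((φ v).val : ℝ) = n * s := by exact_mod_cast hs
  rw [h5]
  push_cast
  field_simp

/-- **The extension theorem over `ZMod i` for every `i ≥ 5`**, from the signs at `c = 3 / 5`. -/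
theorem ext_zi {κ : ℕ} (hsigns : ∃ D K : ℕ, ∀ {V : Type} [Fintype V] [DecidableEq V]
    (G : SimpleGraph V) [DecidableRel G.Adj], (∀ v, G.degree v = 3) → ∀ P : Finset V, FarB G D P →
    (∀ A ⊆ P, A.card < K → (G.induce (A : Set V)).IsAcyclic) →
    (∀ Y ⊆ P, ¬ (G.induce (Y : Set V)).IsAcyclic →
      ¬ (G.induce ((P \ Y : Finset V) : Set V)).IsAcyclic → κ ≤ ee G Y (P \ Y)) →
    ∀ q : V → ℝ, (∀ v ∈ P, (∃ w, G.Adj v w ∧ w ∉ P) → |q v| ≤ 1) →
    (∀ v ∈ P, (∀ w, G.Adj v w → w ∈ P) → q v = 0) →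
    (∃ t : ℤ, ∑ v ∈ P, q v + (P.filter fun v => ∃ w, G.Adj v w ∧ w ∉ P).card = 2 * t) →
    ∃ x : V → ℤ, (∀ v ∈ P, x v = 1 ∨ x v = -1) ∧ ∑ v ∈ P, ((x v : ℝ) + q v) = 0 ∧
      ∀ Y ⊆ P, |∑ v ∈ Y, ((x v : ℝ) + q v)| ≤ 3 / 5 * ee G Y (P \ Y)) :
    ∃ D K : ℕ, ∀ {V : Type} [Fintype V] [DecidableEq V] (G : SimpleGraph V)
    [DecidableRel G.Adj], (∀ v, G.degree v = 3) → ∀ P : Finset V, FarB G D P →
    (∀ A ⊆ P, A.card < K → (G.induce (A : Set V)).IsAcyclic) →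
    (∀ Y ⊆ P, ¬ (G.induce (Y : Set V)).IsAcyclic →
      ¬ (G.induce ((P \ Y : Finset V) : Set V)).IsAcyclic → κ ≤ ee G Y (P \ Y)) →
    ∀ i : ℕ, 5 ≤ i → ∀ φ : V → ZMod i, (∀ v ∈ P, φ v = 0 ↔ ∀ w, G.Adj v w → w ∈ P) →
    ∑ v ∈ P, φ v = 0 → ∃ f : V → V → ZMod i, (∀ u v, f u v = - f v u) ∧
      (∀ u v, f u v ≠ 0 ↔ u ∈ P ∧ v ∈ P ∧ G.Adj u v) ∧ ∀ v ∈ P, ∑ u, f v u = φ v := by
  obtain ⟨D, K, hsigns⟩ := hsigns
  refine ⟨D + 1, K, fun {V} _ _ G _ h3 P hF hg hP i hi φ hφ hφ0 => ?_⟩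
  classical
  have hb := one_far (by omega : 1 ≤ D + 1) hF
  let ψ : V → ZMod i := fun v => - φ v
  have hψ : ∀ v ∈ P, ψ v = 0 ↔ ∀ w, G.Adj v w → w ∈ P := fun v hv => by
    simp only [ψ, neg_eq_zero]
    exact hφ v hv
  have hψ0 : ∑ v ∈ P, ψ v = 0 := by
    simp only [ψ, sum_neg_distrib, hφ0, neg_zero]
  have hfil : (P.filter fun v => ∃ w, G.Adj v w ∧ w ∉ P) = P.filter fun v => ψ v ≠ 0 := by
    refine filter_congr fun v hv => ?_
    rw [Ne, hψ v hv]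
    push Not
    rfl
  obtain ⟨t, ht⟩ := qn_sum (P := P) (by omega : 1 ≤ i) hψ0
  obtain ⟨x, hx, _, hX⟩ := hsigns G h3 P (hF.mono (by omega)) hg hP (fun v => qn (ψ v))
    (fun v _ _ => qn_abs (by omega) _)
    (fun v hv h => by
      have h1 := (hψ v hv).2 h
      show qn (ψ v) = 0
      unfold qn
      rw [if_pos h1])
    ⟨t, by
      rw [← ht]
      congr 2
      convert congrArg Finset.card hfil⟩
  have hi0 : (0 : ℝ) < i := by
    have : 0 < i := by omega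
    exact_mod_cast this
  have hc : (3 : ℝ) / 5 ≤ ((i : ℝ) - 2) / i := by
    have : (5 : ℝ) ≤ i := by exact_mod_cast hi
    rw [div_le_div_iff₀ (by norm_num) hi0]
    linarith
  obtain ⟨f, h1, h2, h4, h5⟩ := ext_hoff_n (by omega : 2 ≤ i) P ψ (deg_in h3 hb hψ) x hx
    fun Y hY => (hX Y hY).trans (mul_le_mul_of_nonneg_right hc (Nat.cast_nonneg _))
  refine ⟨f, h1, fun u v => ⟨fun h => ?_, fun h => h4 u h.1 v h.2.1 h.2.2⟩, fun v hv => ?_⟩
  · by_contra h6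
    exact h (h2 u v h6)
  · have h6 := h5 v hv
    simp only [ψ] at h6
    rwa [← sub_eq_add_neg, sub_eq_zero] at h6

end Pool.Agent.K5.Re
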