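import Mathlib
import Pool.Agent.Work.MP_974d84_co_k5.BeadIn
import Pool.Agent.Work.MP_974d84_co_log.Girth

/-!
# Beads in graphs whose small connected sets contain few independent circuits
-/

set_option linter.unusedSectionVars false

namespace Pool.Agent.K5

open Finset SimpleGraph Pool.Agent.Exp Pool.Agent.Log5 Pool.Agent.Log5.Clu

section

variable {V : Type} [Fintype V] [DecidableEq V] {G : SimpleGraph V} [DecidableRel G.Adj]

/-- The vertex set of a circuit inside a set which contains a circuit. -/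
theorem exists_circ (h3 : ∀ v, G.degree v = 3) {Q : Finset V}
    (h : ¬ (G.induce (Q : Set V)).IsAcyclic) :
    ∃ A ⊆ Q, A.Nonempty ∧ Joined G A ∧ dd G A ≤ A.card := by
  classical
  unfold IsAcyclic at h
  push Not at h
  obtain ⟨v, c, hc⟩ := h
  obtain ⟨a, w, hcyc, hsub⟩ : ∃ (a : V) (w : G.Walk a a), w.IsCycle ∧ ∀ x ∈ w.support, x ∈ Q := by
    refine ⟨_, c.map (Embedding.induce (G := G) (Q : Set V)).toHom,
      hc.map (Embedding.induce (G := G) (Q : Set V)).injective, fun x hx => ?_⟩
    rw [Walk.support_map, List.mem_map] at hx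
    obtain ⟨y, -, rfl⟩ := hx
    exact y.2
  refine ⟨w.support.toFinset, fun x hx => hsub x (List.mem_toFinset.1 hx),
    ⟨_, List.mem_toFinset.2 w.start_mem_support⟩, ?_, ?_⟩
  · refine joined_of_conn ?_
    have h1 : ((w.support.toFinset : Finset V) : Set V) = {v | v ∈ w.support} := by
      ext x
      simp
    rw [h1]
    exact w.connected_induce_support
  · have h1 := dd_sum h3 w.support.toFinset
    have h2 : ∑ v ∈ w.support.toFinset, 2 ≤
        ∑ v ∈ w.support.toFinset, nb G w.support.toFinset v := by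
      refine sum_le_sum fun x hx => ?_
      rw [List.mem_toFinset] at hx
      have h1 := hcyc.ncard_neighborSet_toSubgraph_eq_two hx
      rw [← h1]
      unfold nb
      rw [← Set.ncard_coe_finset]
      refine Set.ncard_le_ncard ?_ (Set.toFinite _)
      intro y hy
      rw [Subgraph.mem_neighborSet] at hy
      rw [mem_coe, mem_filter, List.mem_toFinset]
      refine ⟨?_, hy.adj_sub⟩
      have := w.toSubgraph.edge_vert hy.symm
      rwa [Walk.mem_verts_toSubgraph] at this
    rw [sum_const, smul_eq_mul] at h2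
    omega

theorem exists_adj_of_ee {A B : Finset V} (h : ee G A B ≠ 0) : ∃ x ∈ A, ∃ y ∈ B, G.Adj x y := by
  unfold ee at h
  rw [card_ne_zero] at h
  obtain ⟨⟨x, y⟩, hp⟩ := h
  rw [mem_filter] at hp
  exact ⟨x, hp.2.1, y, hp.2.2.1, hp.2.2.2⟩

theorem dd_disj {A B : Finset V} (h : Disjoint A B) :
    dd G (A ∪ B) + 2 * ee G A B = dd G A + dd G B := by
  have h1 := bead_split (G := G) (P := A ∪ B) (Y := A) subset_union_left
  rw [union_sdiff_cancel_left h] at h1
  omega

/-- Merging a connected set with the members of a family which it touches. -/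
theorem merge_fam {Q : Finset V} (hQj : Joined G Q) :
    ∀ M : Finset (Finset V), (∀ S ∈ M, Joined G S ∧ Disjoint Q S ∧ ee G Q S ≠ 0) →
      (∀ S ∈ M, ∀ S' ∈ M, S ≠ S' → Disjoint S S' ∧ ee G S S' = 0) →
      Joined G (Q ∪ M.biUnion id) ∧ (Q ∪ M.biUnion id).card = Q.card + ∑ S ∈ M, S.card ∧
      dd G (Q ∪ M.biUnion id) + 2 * ∑ S ∈ M, ee G Q S = dd G Q + ∑ S ∈ M, dd G S := by
  classical
  intro M
  induction M using Finset.induction_on with
  | empty => intro _ _; simp [hQj]
  | @insert T M hT ih =>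
    intro h1 h2
    obtain ⟨j1, j2, j3⟩ := ih (fun S hS => h1 S (mem_insert_of_mem hS))
      (fun S hS S' hS' => h2 S (mem_insert_of_mem hS) S' (mem_insert_of_mem hS'))
    obtain ⟨hTj, hTQ, hTe⟩ := h1 T (mem_insert_self _ _)
    have hne : ∀ S ∈ M, S ≠ T := fun S hS h => hT (h ▸ hS)
    have h2' : ∀ S ∈ M, Disjoint S T ∧ ee G S T = 0 := fun S hS =>
      h2 S (mem_insert_of_mem hS) T (mem_insert_self _ _) (hne S hS)
    have hU : Q ∪ (insert T M).biUnion id = (Q ∪ M.biUnion id) ∪ T := by
      rw [biUnion_insert, id, union_comm T, union_assoc]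
    have hdis : Disjoint (M.biUnion id) T := by
      rw [disjoint_biUnion_left]
      exact fun S hS => (h2' S hS).1
    have hdis' : Disjoint (Q ∪ M.biUnion id) T := disjoint_union_left.2 ⟨hTQ, hdis⟩
    have hQdis : Disjoint Q (M.biUnion id) := by
      rw [disjoint_biUnion_right]
      exact fun S hS => (h1 S (mem_insert_of_mem hS)).2.1
    have hee0 : ee G (M.biUnion id) T = 0 := by
      rw [ee_biUnion_left M id (fun S hS S' hS' hne =>
        (h2 S (mem_insert_of_mem hS) S' (mem_insert_of_mem hS') hne).1)]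
      exact sum_eq_zero fun S hS => (h2' S hS).2
    have hee : ee G (Q ∪ M.biUnion id) T = ee G Q T := by
      rw [ee_union_left hQdis, hee0, add_zero]
    have hdd := dd_disj (G := G) hdis'
    obtain ⟨x, hx, y, hy, hxy⟩ := exists_adj_of_ee hTe
    rw [hU, sum_insert hT, sum_insert hT, sum_insert hT]
    refine ⟨joined_union j1 hTj (mem_union_left _ hx) hy hxy, ?_, ?_⟩
    · rw [card_union_of_disjoint hdis', j2]
      omega
    · rw [hee] at hdd
      omega

/-- A family of small connected sets which are pairwise disjoint and not adjacent. -/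
def Fam (G : SimpleGraph V) [DecidableRel G.Adj] (R : ℕ) (F : Finset (Finset V)) : Prop :=
  (∀ S ∈ F, S.Nonempty ∧ Joined G S ∧ S.card < R) ∧
    ∀ S ∈ F, ∀ S' ∈ F, S ≠ S' → Disjoint S S' ∧ ee G S S' = 0

/-- The value of a set. -/
def fval (G : SimpleGraph V) [DecidableRel G.Adj] (L : ℕ) (S : Finset V) : ℤ :=
  L * ((dd G S : ℤ) - S.card - 1) + 2 * S.card

/-- If the small connected sets contain at most `t` independent circuits, then there is a nonempty
set of large girth whose boundary is far apart. -/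
theorem exists_far (h3 : ∀ v, G.degree v = 3) {g t N : ℕ}
    (hN : g + 3 * g * ((2 * g + 1) * t) < N)
    (hconn : ∀ A : Finset V, A.Nonempty → dd G A = 0 → A = univ) (hV : Nonempty V)
    (hcard : 2 * t ≤ Fintype.card V)
    (hLU : ∀ S : Finset V, S.card < N → S.Nonempty → Joined G S → S.card + 2 ≤ dd G S + 2 * t) :
    ∃ W : Finset V, W.Nonempty ∧
      (∀ Q ⊆ W, Q.card ≤ g → (G.induce (Q : Set V)).IsAcyclic) ∧ FarB G g W := by
  classical
  set L : ℕ := 2 * g + 1 with hL
  obtain ⟨F, hF, hmin⟩ := exists_min_image ((univ : Finset (Finset (Finset V))).filter (Fam G N))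
    (fun F => ∑ S ∈ F, fval G L S) ⟨∅, mem_filter.2 ⟨mem_univ _, by simp [Fam]⟩⟩
  rw [mem_filter] at hF
  obtain ⟨-, hF1, hF2⟩ := hF
  -- the members are small
  have hdrop : ∀ S ∈ F, fval G L S ≤ 0 := by
    intro S hS
    have h1 := hmin (F.erase S) (mem_filter.2 ⟨mem_univ _,
      fun S' hS' => hF1 S' (mem_of_mem_erase hS'),
      fun S' hS' S'' hS'' => hF2 S' (mem_of_mem_erase hS') S'' (mem_of_mem_erase hS'')⟩)
    have h2 : fval G L S + ∑ S ∈ F.erase S, fval G L S = ∑ S ∈ F, fval G L S :=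
      add_sum_erase F (fun S => fval G L S) hS
    have h4 : ∑ S ∈ F, fval G L S ≤ ∑ S ∈ F.erase S, fval G L S := h1
    linarith
  have hsmall : ∀ S ∈ F, S.card ≤ L * t := by
    intro S hS
    obtain ⟨hne, hj, hc⟩ := hF1 S hS
    have h1 := hdrop S hS
    have h2 := hLU S hc hne hj
    unfold fval at h1
    have h4 : (1 : ℤ) - 2 * t ≤ (dd G S : ℤ) - S.card - 1 := by omega
    have h5 : (L : ℤ) * (1 - 2 * t) ≤ L * ((dd G S : ℤ) - S.card - 1) :=
      mul_le_mul_of_nonneg_left h4 (Int.natCast_nonneg _)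
    have h6 : (L : ℤ) * (1 - 2 * t) = L - 2 * (L * t) := by ring
    have h7 : (S.card : ℤ) ≤ (L : ℤ) * t := by
      have : (0 : ℤ) ≤ L := Int.natCast_nonneg _
      linarith
    exact_mod_cast h7
  -- adding a connected set
  have key : ∀ Q ⊆ (F.biUnion id)ᶜ, Q.Nonempty → Joined G Q → Q.card ≤ g →
      ee G Q ((F.biUnion id)ᶜ)ᶜ + Q.card + 1 ≤ dd G Q := by
    intro Q hQ hQne hQj hQc
    rw [compl_compl]
    have hQS : ∀ S ∈ F, Disjoint Q S := by
      intro S hS
      rw [Finset.disjoint_left]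
      intro v h1 h2
      exact mem_compl.1 (hQ h1) (mem_biUnion.2 ⟨S, hS, h2⟩)
    set M := F.filter fun S => ee G Q S ≠ 0 with hM
    set M' := F.filter fun S => ¬ ee G Q S ≠ 0 with hM'
    obtain ⟨j1, j2, j3⟩ := merge_fam (G := G) hQj M
      (fun S hS => ⟨(hF1 S (mem_filter.1 hS).1).2.1, hQS S (mem_filter.1 hS).1,
        (mem_filter.1 hS).2⟩)
      (fun S hS S' hS' => hF2 S (mem_filter.1 hS).1 S' (mem_filter.1 hS').1)
    set U := Q ∪ M.biUnion id with hU
    have he : ee G Q (F.biUnion id) = ∑ S ∈ M, ee G Q S := by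
      rw [ee_comm, ee_biUnion_left F id (fun S hS S' hS' hne => (hF2 S hS S' hS' hne).1), hM,
        sum_filter_ne_zero]
      exact sum_congr rfl fun S _ => ee_comm _ _
    have hMe : M.card ≤ ee G Q (F.biUnion id) := by
      rw [he, card_eq_sum_ones]
      exact sum_le_sum fun S hS => Nat.one_le_iff_ne_zero.2 (mem_filter.1 hS).2
    have he3 := bead_ee_le (G := G) h3 Q (F.biUnion id)
    have hUc : U.card < N := by
      have h1 : ∑ S ∈ M, S.card ≤ M.card * (L * t) := by
        rw [← smul_eq_mul, ← sum_const]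
        exact sum_le_sum fun S hS => hsmall S (mem_filter.1 hS).1
      have h2 : M.card * (L * t) ≤ 3 * g * (L * t) := Nat.mul_le_mul_right _ (by omega)
      omega
    have hUne : U.Nonempty := hQne.mono subset_union_left
    have hUM : U ∉ M' := by
      intro h
      obtain ⟨v, hv⟩ := hQne
      exact Finset.disjoint_left.1 (hQS U (mem_filter.1 h).1) hv (mem_union_left _ hv)
    have hcross : ∀ S ∈ M', Disjoint U S ∧ ee G U S = 0 := by
      intro S hS
      obtain ⟨hSF, hSe⟩ := mem_filter.1 hS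
      have hne : ∀ S' ∈ M, S' ≠ S := fun S' hS' h => hSe (h ▸ (mem_filter.1 hS').2)
      have h1 : Disjoint Q (M.biUnion id) := by
        rw [disjoint_biUnion_right]
        exact fun S' hS' => hQS S' (mem_filter.1 hS').1
      refine ⟨disjoint_union_left.2 ⟨hQS S hSF, ?_⟩, ?_⟩
      · rw [disjoint_biUnion_left]
        exact fun S' hS' => (hF2 S' (mem_filter.1 hS').1 S hSF (hne S' hS')).1
      · rw [hU, ee_union_left h1, not_not.1 hSe, zero_add,
          ee_biUnion_left M id (fun S hS S' hS' hne =>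
            (hF2 S (mem_filter.1 hS).1 S' (mem_filter.1 hS').1 hne).1)]
        exact sum_eq_zero fun S' hS' => (hF2 S' (mem_filter.1 hS').1 S hSF (hne S' hS')).2
    have hfam : Fam G N (insert U M') := by
      refine ⟨?_, ?_⟩
      · intro S hS
        rcases mem_insert.1 hS with rfl | hS
        · exact ⟨hUne, j1, hUc⟩
        · exact hF1 S (mem_filter.1 hS).1
      · intro S hS S' hS' hne
        rcases mem_insert.1 hS with rfl | hS
        · rcases mem_insert.1 hS' with rfl | hS'
          · exact absurd rfl hne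
          · exact hcross S' hS'
        · rcases mem_insert.1 hS' with rfl | hS'
          · exact ⟨(hcross S hS).1.symm, by rw [ee_comm]; exact (hcross S hS).2⟩
          · exact hF2 S (mem_filter.1 hS).1 S' (mem_filter.1 hS').1 hne
    have h1 : ∑ S ∈ F, fval G L S ≤ ∑ S ∈ insert U M', fval G L S :=
      hmin (insert U M') (mem_filter.2 ⟨mem_univ _, hfam⟩)
    rw [sum_insert hUM, ← sum_filter_add_sum_filter_not F (fun S => ee G Q S ≠ 0)] at h1
    have h2 : ∑ S ∈ M, fval G L S ≤ fval G L U := by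
      have : ∑ S ∈ M, fval G L S + ∑ S ∈ M', fval G L S ≤ fval G L U + ∑ S ∈ M', fval G L S := h1
      linarith
    have h4 : ∑ S ∈ M, fval G L S = L * ((∑ S ∈ M, dd G S : ℕ) - (∑ S ∈ M, S.card : ℕ) - M.card) +
        2 * (∑ S ∈ M, S.card : ℕ) := by
      unfold fval
      push_cast
      rw [sum_add_distrib, ← mul_sum, ← mul_sum, sum_sub_distrib, sum_sub_distrib]
      simp
    rw [h4] at h2
    unfold fval at h2
    rw [← he] at j3
    by_contra hcon
    have h5 : (dd G U : ℤ) = dd G Q + (∑ S ∈ M, dd G S : ℕ) - 2 * ee G Q (F.biUnion id) := by omega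
    have h6 : (U.card : ℤ) = Q.card + (∑ S ∈ M, S.card : ℕ) := by omega
    rw [h5, h6] at h2
    have h7 : (dd G Q : ℤ) - 2 * ee G Q (F.biUnion id) - Q.card - 1 + M.card ≤ -1 := by omega
    have h8 : (L : ℤ) * ((dd G Q : ℤ) - 2 * ee G Q (F.biUnion id) - Q.card - 1 + M.card) ≤
        L * (-1) := mul_le_mul_of_nonneg_left h7 (Int.natCast_nonneg _)
    have h9 : (L : ℤ) = 2 * g + 1 := by rw [hL]; push_cast; ring
    have h10 : (Q.card : ℤ) ≤ g := by exact_mod_cast hQc
    generalize (∑ S ∈ M, dd G S : ℕ) = a at *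
    generalize (∑ S ∈ M, S.card : ℕ) = b at *
    nlinarith
  refine ⟨(F.biUnion id)ᶜ, ?_, ?_, ?_⟩
  · by_contra hcon
    rw [not_nonempty_iff_eq_empty, compl_eq_empty_iff] at hcon
    obtain ⟨v⟩ := hV
    obtain ⟨S, hS, hvS⟩ := mem_biUnion.1 (hcon.symm ▸ mem_univ v : v ∈ F.biUnion id)
    obtain ⟨hne, hj, hc⟩ := hF1 S hS
    have h1 : dd G S = 0 := by
      have h1 : ee G S Sᶜ ≤ ee G S ((F.erase S).biUnion id) := by
        refine ee_mono (Subset.refl _) fun w hw => ?_
        obtain ⟨S', hS', hwS'⟩ := mem_biUnion.1 (hcon.symm ▸ mem_univ w : w ∈ F.biUnion id)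
        refine mem_biUnion.2 ⟨S', mem_erase.2 ⟨fun h => ?_, hS'⟩, hwS'⟩
        exact mem_compl.1 hw (h ▸ hwS')
      have h2 : ee G S ((F.erase S).biUnion id) = 0 := by
        rw [ee_comm, ee_biUnion_left (F.erase S) id (fun S' hS' S'' hS'' hne =>
          (hF2 S' (mem_of_mem_erase hS') S'' (mem_of_mem_erase hS'') hne).1)]
        exact sum_eq_zero fun S' hS' =>
          (hF2 S' (mem_of_mem_erase hS') S hS (mem_erase.1 hS').1).2
      rw [dd_ee]
      omega
    have h2 := hconn S hne h1
    have h4 := hLU S hc hne hj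
    rw [h1, h2, card_univ] at h4
    omega
  · intro Q hQ hQc
    by_contra hac
    obtain ⟨A, hA, hAne, hAj, hAd⟩ := exists_circ h3 hac
    have h1 := key A (hA.trans hQ) hAne hAj ((card_le_card hA).trans hQc)
    omega
  · intro Q hQ hQc hQconn
    have hne : Q.Nonempty := by
      obtain ⟨x⟩ := hQconn.nonempty
      exact ⟨x.1, x.2⟩
    have h1 := key Q hQ hne (joined_of_conn hQconn) hQc
    have h2 := bead_conn h3 hQconn
    omega

/-- As `exists_far`, with a proper subset. -/
theorem exists_far_ne (h3 : ∀ v, G.degree v = 3) {g t N : ℕ}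
    (hN : (g + 1) + 3 * (g + 1) * ((2 * (g + 1) + 1) * t) < N)
    (hconn : ∀ A : Finset V, A.Nonempty → dd G A = 0 → A = univ) (hV : Nonempty V)
    (hcard : 2 * t ≤ Fintype.card V)
    (hLU : ∀ S : Finset V, S.card < N → S.Nonempty → Joined G S → S.card + 2 ≤ dd G S + 2 * t) :
    ∃ W : Finset V, W ≠ univ ∧ W.Nonempty ∧
      (∀ Q ⊆ W, Q.card ≤ g → (G.induce (Q : Set V)).IsAcyclic) ∧ FarB G g W := by
  classical
  obtain ⟨W, hW, hWg, hWF⟩ := exists_far h3 (g := g + 1) hN hconn hV hcard hLU
  by_cases hWu : W = univ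
  · subst hWu
    obtain ⟨v⟩ := hV
    refine ⟨univ.erase v, fun h => ?_, ?_, fun Q _ hQc => hWg Q (subset_univ _) (by omega), ?_⟩
    · exact notMem_erase v univ (h.symm ▸ mem_univ v)
    · have h1 : (G.neighborFinset v).card = 3 := by
        rw [card_neighborFinset_eq_degree, h3]
      obtain ⟨w, hw⟩ := card_pos.1 (by omega : 0 < (G.neighborFinset v).card)
      rw [mem_neighborFinset] at hw
      exact ⟨w, mem_erase.2 ⟨hw.ne', mem_univ _⟩⟩
    · intro Q hQ hQc hconn
      have hne : Q.Nonempty := by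
        obtain ⟨x⟩ := hconn.nonempty
        exact ⟨x.1, x.2⟩
      have hvQ : v ∉ Q := fun h => notMem_erase v univ (hQ h)
      have h1 : (univ.erase v)ᶜ = {v} := by
        ext w
        simp
      rw [h1]
      have h2 : Disjoint Q {v} := disjoint_singleton_right.2 hvQ
      have h4 := dd_disj (G := G) h2
      have h5 := bead_conn h3 hconn
      have h6 : dd G {v} ≤ 3 := by
        have := bead_ee_le (G := G) h3 {v} ({v} : Finset V)ᶜ
        rw [dd_ee]
        simpa using this
      have h7 : (Q ∪ {v}).card = Q.card + 1 := by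
        rw [card_union_of_disjoint h2, card_singleton]
      have h8 := dd_of_acyclic G h3 (hne.mono subset_union_left : (Q ∪ {v}).Nonempty)
        (hWg (Q ∪ {v}) (subset_univ _) (by omega))
      omega
  · exact ⟨W, hWu, hW, fun Q hQ hQc => hWg Q hQ (by omega),
      fun Q hQ hQc hconn => hWF Q hQ (by omega) hconn⟩

/-- A part of a set with a boundary which is far apart which is not joined to the rest contains a
circuit. -/
theorem far_part (h3 : ∀ v, G.degree v = 3) {D : ℕ} (hD : 1 ≤ D) {P : Finset V}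
    (h : FarB G D P) {A : Finset V} (hA : A ⊆ P) (hne : A.Nonempty) (h0 : ee G A (P \ A) = 0) :
    ¬ (G.induce (A : Set V)).IsAcyclic := by
  intro hac
  have h1 := dd_of_acyclic G h3 hne hac
  have h2 : ee G A Pᶜ ≤ A.card := by
    rw [ee_sum, card_eq_sum_ones]
    refine sum_le_sum fun u hu => ?_
    have h4 := far_joined h (Q := {u}) (singleton_subset_iff.2 (hA hu))
      (by rw [card_singleton]; exact hD) (joined_singleton u)
    rw [ee_sum, sum_singleton] at h4
    exact h4
  have h4 := dd_inner (G := G) hA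
  omega

/-- A set with a boundary which is far apart and with large cyclic cuts is connected. -/
theorem far_conn (h3 : ∀ v, G.degree v = 3) {D k₀ : ℕ} (hD : 1 ≤ D) (hk : 1 ≤ k₀) {P : Finset V}
    (h : FarB G D P) (hne : P.Nonempty)
    (hcut : ∀ Y ⊆ P, ¬ (G.induce (Y : Set V)).IsAcyclic →
      ¬ (G.induce ((P \ Y : Finset V) : Set V)).IsAcyclic → k₀ ≤ ee G Y (P \ Y)) :
    (G.induce (P : Set V)).Connected := by
  refine conn_of_joined hne fun A hA hA0 hA1 => ?_
  by_contra hcon
  push Not at hcon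
  have h0 : ee G A (P \ A) = 0 := by
    unfold ee
    rw [card_eq_zero, filter_eq_empty_iff]
    rintro ⟨u, v⟩ _ ⟨hu, hv, huv⟩
    exact hcon u hu v (mem_sdiff.1 hv).1 (mem_sdiff.1 hv).2 huv
  have h1 := hcut A hA (far_part h3 hD h hA hA0 h0) (far_part h3 hD h sdiff_subset
    (sdiff_nonempty.2 fun h' => hA1 (Subset.antisymm hA h')) (by
      rw [sdiff_sdiff_right_self, inf_eq_inter, inter_eq_right.2 hA, ee_comm]
      exact h0))
  omega

end

/-- **Bead lemma, form with `t` independent circuits.** There is a constant `C` such that a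
connected cubic graph with at least `2t` vertices in which every connected set of at most
`C * (t + 1)` vertices contains at most `t` independent circuits contains a connected set `P` of
large girth, not the whole vertex set, such that the edges leaving `P` are far apart in `P` and all
cyclic cuts of `P` are large. -/
theorem exists_bead_t (D k₀ g₀ : ℕ) : ∃ C : ℕ, ∀ {V : Type} [Fintype V]
    [DecidableEq V] (G : SimpleGraph V) [DecidableRel G.Adj], (∀ v, G.degree v = 3) →
    G.Connected → ∀ t : ℕ, 2 * t ≤ Fintype.card V →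
    (∀ S : Finset V, S.card ≤ C * (t + 1) → (G.induce (S : Set V)).Connected →
      S.card + 2 ≤ dd G S + 2 * t) →
    ∃ P : Finset V, P ≠ univ ∧ 2 ≤ P.card ∧ (G.induce (P : Set V)).Connected ∧
      ¬ (G.induce (P : Set V)).IsAcyclic ∧
      (∀ Q ⊆ P, Q.card < g₀ → (G.induce (Q : Set V)).IsAcyclic) ∧ FarB G D P ∧
      ∀ Y ⊆ P, ¬ (G.induce (Y : Set V)).IsAcyclic →
        ¬ (G.induce ((P \ Y : Finset V) : Set V)).IsAcyclic → k₀ ≤ ee G Y (P \ Y) := by
  obtain ⟨g₁, hg₁⟩ := exists_bead_in (D + 1) (k₀ + 1)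
  obtain ⟨g, hg0, hg1⟩ : ∃ g, g₀ ≤ g ∧ g₁ ≤ g := ⟨g₀ + g₁, by omega, by omega⟩
  refine ⟨3 * (g + 1) * (2 * (g + 1) + 1) + (g + 1), fun {V} _ _ G _ h3 hc t hcard hLU => ?_⟩
  have hN : (g + 1) + 3 * (g + 1) * ((2 * (g + 1) + 1) * t) <
      (3 * (g + 1) * (2 * (g + 1) + 1) + (g + 1)) * (t + 1) + 1 := by
    have h1 : (3 * (g + 1) * (2 * (g + 1) + 1) + (g + 1)) * (t + 1) =
        (g + 1) + 3 * (g + 1) * ((2 * (g + 1) + 1) * t) +
          (3 * (g + 1) * (2 * (g + 1) + 1) + (g + 1) * t) := by ring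
    omega
  have hconn : ∀ A : Finset V, A.Nonempty → dd G A = 0 → A = univ := by
    intro A hA h0
    by_contra hne
    obtain ⟨a, ha⟩ := hA
    obtain ⟨b, hb⟩ : ∃ b, b ∉ A := by
      by_contra hcon
      push Not at hcon
      exact hne (eq_univ_iff_forall.2 hcon)
    have hno : ∀ u ∈ A, ∀ v, v ∉ A → ¬ G.Adj u v := by
      intro u hu v hv huv
      rw [dd_ee] at h0
      unfold ee at h0
      rw [card_eq_zero, filter_eq_empty_iff] at h0
      exact h0 (mem_univ (u, v)) ⟨hu, mem_compl.2 hv, huv⟩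
    have key : ∀ {x y : V} (p : G.Walk x y), x ∈ A → y ∈ A := by
      intro x y p
      induction p with
      | nil => exact id
      | @cons u v w hadj p ih =>
        intro hx
        refine ih ?_
        by_contra hy
        exact hno _ hx _ hy hadj
    obtain ⟨p⟩ := hc.preconnected a b
    exact hb (key p ha)
  obtain ⟨W, hWu, hWne, hWg, hWF⟩ := exists_far_ne (G := G) h3 (g := g) (t := t) hN hconn
    hc.nonempty hcard (fun S hS hne hj => hLU S (Nat.lt_succ_iff.1 hS) (conn_of_joined hne hj))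
  obtain ⟨P, hPW, hPc, hPF, hPcut⟩ := hg₁ G h3 W hWne (fun Q hQ hQc => hWg Q hQ (by omega))
    (fun Q hQ hQc => hWF Q hQ (by omega))
  have hPne : P.Nonempty := by
    rw [nonempty_iff_ne_empty]
    rintro rfl
    refine hPc ?_
    rw [coe_empty]
    exact SimpleGraph.IsAcyclic.of_subsingleton
  refine ⟨P, fun h => hWu (eq_univ_of_forall fun v => hPW (h.symm ▸ mem_univ v)), ?_,
    far_conn h3 (by omega) (by omega) hPF hPne hPcut, hPc,
    fun Q hQ hQc => hWg Q (hQ.trans hPW) (by omega), fun Q hQ hQc => hPF Q hQ (by omega),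
    fun Y hY h1 h2 => ?_⟩
  · obtain ⟨A, hA, hAne, hAj, hAd⟩ := exists_circ h3 hPc
    have h1 := dd_sum h3 A
    have h2 := card_le_card hA
    have h4 := hAne.card_pos
    by_contra hlt
    have h5 : A.card = 1 := by omega
    obtain ⟨a, rfl⟩ := card_eq_one.1 h5
    have h6 : nb G {a} a = 0 := by
      unfold nb
      rw [card_eq_zero, filter_eq_empty_iff]
      intro w hw
      rw [mem_singleton.1 hw]
      exact G.irrefl
    rw [sum_singleton, h6] at h1
    omega
  · have := hPcut Y hY h1 h2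
    omega

end Pool.Agent.K5
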