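import Mathlib
import Pool.Agent.Work.MP_974d84_co_log.Flow

/-!
# Nowhere-zero 5-flows from balanced signs of the vertices

Signs `x v = ±1` of the vertices of a cubic graph with `5 |x(S)| ≤ 3 d(S)` for all bonds `S` give a
nowhere-zero 5-flow.  If the signs alternate along two disjoint matchings `μ`, `ν`, then it is
enough that the charges of the vertices which are missed by the matchings are small on all bonds.
-/

set_option linter.unusedSectionVars false

namespace Pool.Agent.K5

open Finset SimpleGraph Pool.Agent.Exp Pool.Agent.Log5 MP974d84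

variable {V : Type} [Fintype V] [DecidableEq V] {G : SimpleGraph V} [DecidableRel G.Adj]

theorem dd_split {Z A : Finset V} (hA : A ⊆ Z) (hno : ∀ x ∈ A, ∀ y ∈ Z, y ∉ A → ¬ G.Adj x y) :
    dd G Z = dd G A + dd G (Z \ A) := by
  have h1 := cs_split (G := G) (u := fun v w => if G.Adj v w then (1 : ℤ) else 0) (by
    intro v w h
    by_contra h'
    simp [h'] at h) hA hno
  rw [← dd_cs, ← dd_cs, ← dd_cs] at h1
  exact_mod_cast h1

/-- Reduction of an additive cut condition to bonds. -/
theorem sum_le_of_bond (hbr : ∀ S : Finset V, S.Nonempty → Sᶜ.Nonempty → 2 ≤ dd G S)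
    {x : V → ℤ} (hx0 : ∑ v, x v = 0) {a b : ℤ} (hb0 : 0 ≤ b)
    (hb : ∀ S, Bond G S → a * ∑ v ∈ S, x v ≤ b * dd G S) (Z : Finset V) :
    a * ∑ v ∈ Z, x v ≤ b * dd G Z := by
  have hcompl : ∀ S : Finset V, ∑ v ∈ Sᶜ, x v = - ∑ v ∈ S, x v := by
    intro S
    have := sum_add_sum_compl S x
    rw [hx0] at this
    linarith
  induction hn : dd G Z using Nat.strong_induction_on generalizing Z with
  | _ n ih =>
    subst hn
    by_cases h0 : Z.Nonempty
    swap
    · rw [not_nonempty_iff_eq_empty] at h0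
      subst h0
      rw [sum_empty, mul_zero]
      positivity
    by_cases h0' : Zᶜ.Nonempty
    swap
    · rw [not_nonempty_iff_eq_empty] at h0'
      have h1 := hcompl Z
      rw [h0', sum_empty] at h1
      have h2 : ∑ v ∈ Z, x v = 0 := by linarith
      rw [h2, mul_zero]
      positivity
    by_cases hj : Joined G Z
    · by_cases hj' : Joined G Zᶜ
      · exact hb Z ⟨hj, hj', h0, h0'⟩
      · unfold Pool.Agent.Exp.Joined at hj'
        push Not at hj'
        obtain ⟨A, hA, hAne, hAZ, hno⟩ := hj'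
        have hB : (Zᶜ \ A).Nonempty := by
          rw [sdiff_nonempty]
          exact fun h => hAZ (subset_antisymm hA h)
        have e2 : dd G Z = dd G A + dd G (Zᶜ \ A) := by
          have h1 := dd_split (G := G) hA hno
          rwa [dd_compl] at h1
        have e1 : ∑ v ∈ Z, x v = ∑ v ∈ Aᶜ, x v + ∑ v ∈ (Zᶜ \ A)ᶜ, x v := by
          have h1 := sum_sdiff hA (f := x)
          rw [hcompl] at h1
          rw [hcompl A, hcompl (Zᶜ \ A)]
          linarith
        have hZA : Z ⊆ Aᶜ := by
          intro y hy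
          rw [mem_compl]
          intro h
          exact (mem_compl.1 (hA h)) hy
        have hZB : Z ⊆ (Zᶜ \ A)ᶜ := by
          intro y hy
          simp [hy]
        have d1 := hbr A hAne (h0.mono hZA)
        have d2 := hbr (Zᶜ \ A) hB (h0.mono hZB)
        have f1 := ih (dd G Aᶜ) (by rw [dd_compl]; omega) Aᶜ rfl
        have f2 := ih (dd G (Zᶜ \ A)ᶜ) (by rw [dd_compl]; omega) (Zᶜ \ A)ᶜ rfl
        rw [dd_compl] at f1 f2
        rw [e1, e2]
        push_cast
        linarith
    · unfold Pool.Agent.Exp.Joined at hj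
      push Not at hj
      obtain ⟨A, hA, hAne, hAZ, hno⟩ := hj
      have hB : (Z \ A).Nonempty := by
        rw [sdiff_nonempty]
        exact fun h => hAZ (subset_antisymm hA h)
      have e1 := sum_sdiff hA (f := x)
      have e2 : dd G Z = dd G A + dd G (Z \ A) := dd_split (G := G) hA hno
      have hZA : Zᶜ ⊆ Aᶜ := compl_subset_compl.2 hA
      have hZB : Zᶜ ⊆ (Z \ A)ᶜ := compl_subset_compl.2 sdiff_subset
      have d1 := hbr A hAne (h0'.mono hZA)
      have d2 := hbr (Z \ A) hB (h0'.mono hZB)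
      have f1 := ih (dd G A) (by omega) A rfl
      have f2 := ih (dd G (Z \ A)) (by omega) (Z \ A) rfl
      rw [← e1, e2]
      push_cast
      linarith

/-- Sums of the cut of two functions. -/
theorem cs_comb {x y z : V → V → ℤ} {a b : ℤ} (h : ∀ v w, x v w = a * y v w + b * z v w)
    (S : Finset V) : cs x S = a * cs y S + b * cs z S := by
  simp only [cs, mul_sum, ← sum_add_distrib]
  exact sum_congr rfl fun v _ => sum_congr rfl fun w _ => h v w

/-- The parity of a vertex set of a cubic graph. -/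
theorem dd_parity (h3 : ∀ v, G.degree v = 3) (S : Finset V) : ∃ k : ℤ, (dd G S : ℤ) = S.card + 2 * k := by
  have h2 := inside_card G S
  have h4 := Pool.Agent.Work.MP_314beb_co.sum_degree_eq_cut_add_inside G S
  have h5 : ∑ v ∈ S, G.degree v = 3 * S.card := by
    rw [sum_congr rfl fun v _ => h3 v, sum_const, smul_eq_mul, mul_comm]
  unfold dd
  exact ⟨(S.card : ℤ) - (G.induce (S : Set V)).edgeFinset.card, by omega⟩

theorem sum_parity {x : V → ℤ} (hx : ∀ v, x v = 1 ∨ x v = -1) (S : Finset V) :
    ∃ k : ℤ, ∑ v ∈ S, x v = S.card + 2 * k := by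
  induction S using Finset.induction_on with
  | empty => exact ⟨0, by simp⟩
  | insert a s ha ih =>
    obtain ⟨k, hk⟩ := ih
    rw [sum_insert ha, hk, card_insert_of_notMem ha]
    rcases hx a with h | h
    · exact ⟨k, by rw [h]; push_cast; ring⟩
    · exact ⟨k - 1, by rw [h]; push_cast; ring⟩

/-- **An orientation with given signs of the vertices.** -/
theorem exists_orientation (h3 : ∀ v, G.degree v = 3)
    (hbr : ∀ S : Finset V, S.Nonempty → Sᶜ.Nonempty → 2 ≤ dd G S)
    {x : V → ℤ} (hx : ∀ v, x v = 1 ∨ x v = -1) (hx0 : ∑ v, x v = 0)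
    (hcrit : ∀ S, Bond G S → ∑ v ∈ S, x v ≤ dd G S) :
    ∃ o : V → V → ℤ, Anti o ∧ (∀ v w, G.Adj v w → o v w = 1 ∨ o v w = -1) ∧
      (∀ v w, ¬ G.Adj v w → o v w = 0) ∧ ∀ v, dv o v = x v := by
  classical
  let e := Fintype.equivFin V
  let p : V → V → ℤ := fun v w => if G.Adj v w then (if e v < e w then 1 else -1) else 0
  have hp : Anti p := by
    intro v w
    simp only [p]
    by_cases h : G.Adj v w
    · have hne : e v ≠ e w := fun h' => G.ne_of_adj h (e.injective h')
      rw [if_pos h, if_pos h.symm]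
      rcases lt_or_gt_of_ne hne with h1 | h1
      · rw [if_pos h1, if_neg (not_lt.2 h1.le)]
        rfl
      · rw [if_neg (not_lt.2 h1.le), if_pos h1]
    · rw [if_neg h, if_neg fun h' => h h'.symm]
      rfl
  let u : V → V → ℤ := fun v w => if p v w = -1 then 1 else 0
  have hall := sum_le_of_bond (a := 1) (b := 1) hbr hx0 (by norm_num) (fun S hS => by
    rw [one_mul, one_mul]
    exact hcrit S hS)
  -- the divergence of `p` has the parity of the degree
  have hpar : ∀ v, ∃ k : ℤ, x v - dv p v = 2 * k := by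
    intro v
    have h1 : ∃ k : ℤ, dv p v = 3 + 2 * k := by
      have h2 : ∀ s : Finset V, ∃ k : ℤ, ∑ w ∈ s, p v w = (s.filter fun w => G.Adj v w).card + 2 * k := by
        intro s
        induction s using Finset.induction_on with
        | empty => exact ⟨0, by simp⟩
        | insert a s ha ih =>
          obtain ⟨k, hk⟩ := ih
          rw [sum_insert ha, hk, filter_insert]
          by_cases h : G.Adj v a
          · rw [if_pos h, card_insert_of_notMem (fun h' => ha (mem_filter.1 h').1)]
            by_cases h' : e v < e a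
            · exact ⟨k, by simp only [p, if_pos h, if_pos h']; push_cast; ring⟩
            · exact ⟨k - 1, by simp only [p, if_pos h, if_neg h']; push_cast; ring⟩
          · rw [if_neg h]
            exact ⟨k, by simp only [p, if_neg h]; ring⟩
      obtain ⟨k, hk⟩ := h2 univ
      refine ⟨k, ?_⟩
      unfold dv
      rw [hk]
      have h4 : (univ.filter fun w => G.Adj v w).card = 3 := by
        rw [← h3 v, ← G.card_neighborFinset_eq_degree v]
        congr 1
        ext w
        simp
      rw [h4]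
      norm_num
    obtain ⟨k, hk⟩ := h1
    rcases hx v with h | h
    · exact ⟨-1 - k, by rw [hk, h]; ring⟩
    · exact ⟨-2 - k, by rw [hk, h]; ring⟩
  choose d hd using hpar
  have hd2 : ∀ S : Finset V, 2 * ∑ v ∈ S, d v = ∑ v ∈ S, x v - cs p S := by
    intro S
    rw [← dv_cut hp, mul_sum, ← sum_sub_distrib]
    exact sum_congr rfl fun v _ => (hd v).symm
  have hdtot : ∑ v, d v = 0 := by
    have h1 := hd2 univ
    have h2 : cs p univ = 0 := by simp [cs]
    rw [h2, hx0] at h1
    omega
  obtain ⟨g, hg1, hg2, hg3⟩ := hoffman u d (fun _ _ => 0) (fun _ _ => by simp) (fun v w => by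
    simp only [u]
    split_ifs <;> norm_num) hdtot (by
    intro Z
    have h1 := hall Z
    rw [one_mul, one_mul] at h1
    have h2 := hd2 Z
    have h4 : (dd G Z : ℤ) = 2 * cs u Z + cs p Z := by
      rw [dd_cs]
      rw [cs_comb (a := 2) (b := 1) (y := u) (z := p) (fun v w => by
        by_cases h : G.Adj v w
        · by_cases h' : e v < e w
          · have hpv : p v w = 1 := by simp only [p, if_pos h, if_pos h']
            simp only [u, hpv, if_pos h]
            norm_num
          · have hpv : p v w = -1 := by simp only [p, if_pos h, if_neg h']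
            simp only [u, hpv, if_pos h]
            norm_num
        · have hpv : p v w = 0 := by simp only [p, if_neg h]
          simp only [u, hpv, if_neg h]
          norm_num)]
      ring
    omega)
  refine ⟨fun v w => p v w + 2 * g v w, fun v w => ?_, fun v w h => ?_, fun v w h => ?_, fun v => ?_⟩
  · show p v w + 2 * g v w = -(p w v + 2 * g w v)
    rw [hp v w, hg1 v w]
    ring
  · have h1 := hg2 v w
    have h2 := hg2 w v
    have h4 := hg1 v w
    have h5 := hp v w
    have h6 : p v w = 1 ∨ p v w = -1 := by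
      simp only [p, if_pos h]
      split_ifs
      · exact Or.inl rfl
      · exact Or.inr rfl
    simp only [u] at h1 h2
    show p v w + 2 * g v w = 1 ∨ p v w + 2 * g v w = -1
    rcases h6 with h6 | h6
    · rw [if_neg (by rw [h6]; norm_num)] at h1
      rw [if_pos (by omega)] at h2
      omega
    · rw [if_pos h6] at h1
      rw [if_neg (by omega)] at h2
      omega
  · have h1 := hg2 v w
    have h2 := hg2 w v
    have h4 := hg1 v w
    have h6 : p v w = 0 := by simp only [p, if_neg h]
    have h7 : p w v = 0 := by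
      have h8 : ¬ G.Adj w v := fun h' => h h'.symm
      simp only [p, if_neg h8]
    simp only [u, h6, h7] at h1 h2
    show p v w + 2 * g v w = 0
    norm_num at h1 h2
    omega
  · show dv (fun v w => p v w + 2 * g v w) v = x v
    unfold dv
    rw [sum_add_distrib, ← mul_sum]
    have h1 := hg3 v
    have h2 := hd v
    unfold dv at h1 h2
    rw [h1]
    linarith

/-- **Balanced signs give nowhere-zero flows.** -/
theorem flow_of_signs (h3 : ∀ v, G.degree v = 3)
    (hbr : ∀ S : Finset V, S.Nonempty → Sᶜ.Nonempty → 2 ≤ dd G S)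
    {x : V → ℤ} (hx : ∀ v, x v = 1 ∨ x v = -1) (hx0 : ∑ v, x v = 0)
    (hcrit : ∀ S, Bond G S → 5 * |∑ v ∈ S, x v| ≤ 3 * dd G S) :
    ∀ i : ℕ, 5 ≤ i → HasNZFlow (ZMod i) G := by
  classical
  obtain ⟨o, ho1, ho2, ho3, ho4⟩ := exists_orientation h3 hbr hx hx0 (fun S hS => by
    have h1 := hcrit S hS
    have h2 := le_abs_self (∑ v ∈ S, x v)
    have h4 : (0 : ℤ) ≤ dd G S := Int.natCast_nonneg _
    linarith)
  have hall := sum_le_of_bond (a := -5) (b := 3) hbr hx0 (by norm_num) (fun S hS => by
    have h1 := hcrit S hS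
    have h2 := neg_abs_le (∑ v ∈ S, x v)
    linarith)
  let u : V → V → ℤ := fun v w => if o v w = 1 then 4 else if o v w = -1 then -1 else 0
  have hcase : ∀ v w, (o v w = 1 ∧ G.Adj v w) ∨ (o v w = -1 ∧ G.Adj v w) ∨
      (o v w = 0 ∧ ¬ G.Adj v w) := by
    intro v w
    by_cases h : G.Adj v w
    · rcases ho2 v w h with h1 | h1
      · exact Or.inl ⟨h1, h⟩
      · exact Or.inr (Or.inl ⟨h1, h⟩)
    · exact Or.inr (Or.inr ⟨ho3 v w h, h⟩)
  obtain ⟨f, hf1, hf2, hf3⟩ := hoffman u (fun _ => 0) o ho1 (fun v w => by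
      simp only [u]
      rcases hcase v w with ⟨h, -⟩ | ⟨h, -⟩ | ⟨h, -⟩ <;> rw [h] <;> norm_num) (by simp) (by
      intro Z
      rw [sum_const_zero]
      have h1 := hall Z
      have h2 : 2 * cs u Z = 3 * (dd G Z : ℤ) + 5 * cs o Z := by
        rw [dd_cs, ← cs_comb (x := fun v w => 2 * u v w) (fun v w => ?_)]
        · simp only [cs, mul_sum]
        · simp only [u]
          rcases hcase v w with ⟨h, h'⟩ | ⟨h, h'⟩ | ⟨h, h'⟩ <;> rw [h]
          · rw [if_pos h']; norm_num
          · rw [if_pos h']; norm_num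
          · rw [if_neg h']; norm_num
      rw [← dv_cut ho1, sum_congr rfl fun v _ => ho4 v] at h2
      linarith)
  refine of_int_five f hf1 (fun a b => ?_) (fun a b => ?_) hf3
  · have h1 := hf2 a b
    have h2 := hf2 b a
    have h4 := hf1 a b
    have h5 := ho1 a b
    simp only [u] at h1 h2
    rcases hcase a b with ⟨h, h'⟩ | ⟨h, h'⟩ | ⟨h, h'⟩
    · refine ⟨fun _ => h', fun _ => ?_⟩
      rw [if_neg (show ¬ o b a = 1 by omega), if_pos (show o b a = -1 by omega)] at h2
      omega
    · refine ⟨fun _ => h', fun _ => ?_⟩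
      rw [if_neg (show ¬ o a b = 1 by omega), if_pos h] at h1
      omega
    · refine ⟨fun h6 => ?_, fun h6 => absurd h6 h'⟩
      rw [if_neg (show ¬ o a b = 1 by omega), if_neg (show ¬ o a b = -1 by omega)] at h1
      rw [if_neg (show ¬ o b a = 1 by omega), if_neg (show ¬ o b a = -1 by omega)] at h2
      omega
  · have h1 := hf2 a b
    simp only [u] at h1
    split_ifs at h1 <;> omega

/-- The charge of a vertex: its sign, once for every matching which misses it. -/
def ch (μ ν : V → V) (x : V → ℤ) (v : V) : ℤ :=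
  (if μ v = v then x v else 0) + if ν v = v then x v else 0

/-- **Signs which alternate along two disjoint matchings.** -/
theorem flow_of_two (h3 : ∀ v, G.degree v = 3)
    (hbr : ∀ S : Finset V, S.Nonempty → Sᶜ.Nonempty → 2 ≤ dd G S) {μ ν : V → V}
    (hμ : ∀ v, μ (μ v) = v) (hν : ∀ v, ν (ν v) = v) (hμG : ∀ v, μ v ≠ v → G.Adj v (μ v))
    (hνG : ∀ v, ν v ≠ v → G.Adj v (ν v)) (hne : ∀ v, μ v = ν v → μ v = v)
    {x : V → ℤ} (hx : ∀ v, x v = 1 ∨ x v = -1) (hxμ : ∀ v, μ v ≠ v → x (μ v) = - x v)
    (hxν : ∀ v, ν v ≠ v → x (ν v) = - x v) (hx0 : ∑ v, ch μ ν x v = 0)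
    (hcrit : ∀ S, Bond G S → |∑ v ∈ S, ch μ ν x v| ≤ 1 ∨ 5 * |∑ v ∈ S, ch μ ν x v| ≤ dd G S) :
    ∀ i : ℕ, 5 ≤ i → HasNZFlow (ZMod i) G := by
  classical
  -- the function on the two matchings
  let a : V → V → ℤ := fun v w => (if w = μ v ∧ μ v ≠ v then x v else 0) +
    if w = ν v ∧ ν v ≠ v then x v else 0
  have haux : ∀ (π : V → V), (∀ v, π (π v) = v) → (∀ v, π v ≠ v → x (π v) = - x v) → ∀ v w,
      (if w = π v ∧ π v ≠ v then x v else 0) = -(if v = π w ∧ π w ≠ w then x w else 0) := by
    intro π h1 h2 v w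
    by_cases h : w = π v ∧ π v ≠ v
    · obtain ⟨rfl, h4⟩ := h
      rw [if_pos ⟨rfl, h4⟩, h1, if_pos ⟨rfl, fun h5 => h4 h5.symm⟩, h2 v h4, neg_neg]
    · rw [if_neg h, if_neg, neg_zero]
      rintro ⟨h4, h5⟩
      refine h ⟨by rw [h4, h1], ?_⟩
      rw [h4, h1]
      exact fun h6 => h5 h6.symm
  have ha : Anti a := by
    intro v w
    show (if w = μ v ∧ μ v ≠ v then x v else 0) + (if w = ν v ∧ ν v ≠ v then x v else 0) =
      -((if v = μ w ∧ μ w ≠ w then x w else 0) + if v = ν w ∧ ν w ≠ w then x w else 0)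
    rw [haux μ hμ hxμ v w, haux ν hν hxν v w]
    ring
  have ha1 : ∀ v w, |a v w| ≤ if G.Adj v w then 1 else 0 := by
    intro v w
    have hxa : |x v| = 1 := by rcases hx v with h | h <;> rw [h] <;> norm_num
    simp only [a]
    by_cases h1 : w = μ v ∧ μ v ≠ v
    · have h2 : ¬ (w = ν v ∧ ν v ≠ v) := fun h4 => h1.2 (hne v (h1.1.symm.trans h4.1))
      rw [if_pos h1, if_neg h2, add_zero, hxa, if_pos (by rw [h1.1]; exact hμG v h1.2)]
    · by_cases h2 : w = ν v ∧ ν v ≠ v
      · rw [if_neg h1, if_pos h2, zero_add, hxa, if_pos (by rw [h2.1]; exact hνG v h2.2)]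
      · rw [if_neg h1, if_neg h2, add_zero, abs_zero]
        split_ifs <;> norm_num
  have hdva : ∀ v, dv a v = 2 * x v - ch μ ν x v := by
    intro v
    have h1 : ∀ π : V → V, ∑ w, (if w = π v ∧ π v ≠ v then x v else 0) =
        x v - if π v = v then x v else 0 := by
      intro π
      by_cases h : π v = v
      · rw [if_pos h, sub_self]
        exact sum_eq_zero fun w _ => if_neg fun h' => h'.2 h
      · rw [if_neg h, sub_zero, sum_eq_single (π v)]
        · rw [if_pos ⟨rfl, h⟩]
        · intro w _ hw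
          exact if_neg fun h' => hw h'.1
        · intro h'
          exact absurd (mem_univ _) h'
    unfold dv
    simp only [a]
    rw [sum_add_distrib, h1 μ, h1 ν]
    unfold ch
    ring
  have hsum : ∀ S : Finset V, 2 * ∑ v ∈ S, x v = cs a S + ∑ v ∈ S, ch μ ν x v := by
    intro S
    rw [← dv_cut ha, mul_sum, ← sum_add_distrib]
    exact sum_congr rfl fun v _ => by rw [hdva v]; ring
  have hcs : ∀ S : Finset V, |cs a S| ≤ dd G S := by
    intro S
    rw [dd_cs]
    unfold cs
    refine (abs_sum_le_sum_abs _ _).trans (sum_le_sum fun v _ => ?_)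
    exact (abs_sum_le_sum_abs _ _).trans (sum_le_sum fun w _ => ha1 v w)
  have htot : ∑ v, x v = 0 := by
    have h1 := hsum univ
    rw [hx0] at h1
    have h2 : cs a univ = 0 := by simp [cs]
    omega
  refine flow_of_signs h3 hbr hx htot fun S hS => ?_
  have h1 := hsum S
  have h2 := hcs S
  have h4 : (2 : ℤ) ≤ dd G S := by exact_mod_cast hbr S hS.2.2.1 hS.2.2.2
  obtain ⟨k, hk⟩ := dd_parity h3 S
  obtain ⟨l, hl⟩ := sum_parity hx S
  have h5 := hcrit S hS
  rw [abs_le] at h2
  rcases h5 with h5 | h5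
  · rw [abs_le] at h5
    rcases abs_cases (∑ v ∈ S, x v) with ⟨h6, -⟩ | ⟨h6, -⟩ <;> rw [h6] <;> omega
  · have h6 : 2 * |∑ v ∈ S, x v| ≤ |cs a S| + |∑ v ∈ S, ch μ ν x v| := by
      have h7 := abs_add_le (cs a S) (∑ v ∈ S, ch μ ν x v)
      rw [← h1, abs_mul] at h7
      simpa using h7
    have h7 := hcs S
    linarith

end Pool.Agent.K5
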