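import Mathlib
import Pool.Agent.Work.MP_974d84_co_k5.CritX
import Pool.Agent.Work.MP_974d84_co_k5.HoffReal

/-!
# Real flows of cubic graphs from balanced signs of the vertices
-/

set_option linter.unusedSectionVars false

namespace Pool.Agent.K5

open Finset SimpleGraph Pool.Agent.Exp Pool.Agent.Log5 MP974d84

section

variable {V : Type} [Fintype V] [DecidableEq V] {G : SimpleGraph V} [DecidableRel G.Adj]

/-- **An orientation with given signs of the vertices**, from the condition on all sets. -/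
theorem exists_orientation_all (h3 : ∀ v, G.degree v = 3)
    {x : V → ℤ} (hx : ∀ v, x v = 1 ∨ x v = -1) (hx0 : ∑ v, x v = 0)
    (hall : ∀ Z : Finset V, ∑ v ∈ Z, x v ≤ dd G Z) :
    ∃ o : V → V → ℤ, Anti o ∧ (∀ v w, G.Adj v w → o v w = 1 ∨ o v w = -1) ∧
      (∀ v w, ¬ G.Adj v w → o v w = 0) ∧ ∀ v, dv o v = x v := by
  classical
  let e := Fintype.equivFin V
  let p : V → V → ℤ := fun v w => if G.Adj v w then (if e v < e w then 1 else -1) else 0
  have hp : Anti p := by
    intro v w
    simp only [p]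
    by_cases h : G.Adj v w
    · have hne : e v ≠ e w := fun h' => G.ne_of_adj h (e.injective h')
      rw [if_pos h, if_pos h.symm]
      rcases lt_or_gt_of_ne hne with h1 | h1
      · rw [if_pos h1, if_neg (not_lt.2 h1.le)]
        rfl
      · rw [if_neg (not_lt.2 h1.le), if_pos h1]
    · rw [if_neg h, if_neg fun h' => h h'.symm]
      rfl
  let u : V → V → ℤ := fun v w => if p v w = -1 then 1 else 0
  -- the divergence of `p` has the parity of the degree
  have hpar : ∀ v, ∃ k : ℤ, x v - dv p v = 2 * k := by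
    intro v
    have h1 : ∃ k : ℤ, dv p v = 3 + 2 * k := by
      have h2 : ∀ s : Finset V, ∃ k : ℤ, ∑ w ∈ s, p v w = (s.filter fun w => G.Adj v w).card + 2 * k := by
        intro s
        induction s using Finset.induction_on with
        | empty => exact ⟨0, by simp⟩
        | insert a s ha ih =>
          obtain ⟨k, hk⟩ := ih
          rw [sum_insert ha, hk, filter_insert]
          by_cases h : G.Adj v a
          · rw [if_pos h, card_insert_of_notMem (fun h' => ha (mem_filter.1 h').1)]
            by_cases h' : e v < e a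
            · exact ⟨k, by simp only [p, if_pos h, if_pos h']; push_cast; ring⟩
            · exact ⟨k - 1, by simp only [p, if_pos h, if_neg h']; push_cast; ring⟩
          · rw [if_neg h]
            exact ⟨k, by simp only [p, if_neg h]; ring⟩
      obtain ⟨k, hk⟩ := h2 univ
      refine ⟨k, ?_⟩
      unfold dv
      rw [hk]
      have h4 : (univ.filter fun w => G.Adj v w).card = 3 := by
        rw [← h3 v, ← G.card_neighborFinset_eq_degree v]
        congr 1
        ext w
        simp
      rw [h4]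
      norm_num
    obtain ⟨k, hk⟩ := h1
    rcases hx v with h | h
    · exact ⟨-1 - k, by rw [hk, h]; ring⟩
    · exact ⟨-2 - k, by rw [hk, h]; ring⟩
  choose d hd using hpar
  have hd2 : ∀ S : Finset V, 2 * ∑ v ∈ S, d v = ∑ v ∈ S, x v - cs p S := by
    intro S
    rw [← dv_cut hp, mul_sum, ← sum_sub_distrib]
    exact sum_congr rfl fun v _ => (hd v).symm
  have hdtot : ∑ v, d v = 0 := by
    have h1 := hd2 univ
    have h2 : cs p univ = 0 := by simp [cs]
    rw [h2, hx0] at h1
    omega
  obtain ⟨g, hg1, hg2, hg3⟩ := hoffman u d (fun _ _ => 0) (fun _ _ => by simp) (fun v w => by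
    simp only [u]
    split_ifs <;> norm_num) hdtot (by
    intro Z
    have h1 := hall Z
    have h2 := hd2 Z
    have h4 : (dd G Z : ℤ) = 2 * cs u Z + cs p Z := by
      rw [dd_cs]
      rw [cs_comb (a := 2) (b := 1) (y := u) (z := p) (fun v w => by
        by_cases h : G.Adj v w
        · by_cases h' : e v < e w
          · have hpv : p v w = 1 := by simp only [p, if_pos h, if_pos h']
            simp only [u, hpv, if_pos h]
            norm_num
          · have hpv : p v w = -1 := by simp only [p, if_pos h, if_neg h']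
            simp only [u, hpv, if_pos h]
            norm_num
        · have hpv : p v w = 0 := by simp only [p, if_neg h]
          simp only [u, hpv, if_neg h]
          norm_num)]
      ring
    omega)
  refine ⟨fun v w => p v w + 2 * g v w, fun v w => ?_, fun v w h => ?_, fun v w h => ?_, fun v => ?_⟩
  · show p v w + 2 * g v w = -(p w v + 2 * g w v)
    rw [hp v w, hg1 v w]
    ring
  · have h1 := hg2 v w
    have h2 := hg2 w v
    have h4 := hg1 v w
    have h5 := hp v w
    have h6 : p v w = 1 ∨ p v w = -1 := by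
      simp only [p, if_pos h]
      split_ifs
      · exact Or.inl rfl
      · exact Or.inr rfl
    simp only [u] at h1 h2
    show p v w + 2 * g v w = 1 ∨ p v w + 2 * g v w = -1
    rcases h6 with h6 | h6
    · rw [if_neg (by rw [h6]; norm_num)] at h1
      rw [if_pos (by omega)] at h2
      omega
    · rw [if_pos h6] at h1
      rw [if_neg (by omega)] at h2
      omega
  · have h1 := hg2 v w
    have h2 := hg2 w v
    have h4 := hg1 v w
    have h6 : p v w = 0 := by simp only [p, if_neg h]
    have h7 : p w v = 0 := by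
      have h8 : ¬ G.Adj w v := fun h' => h h'.symm
      simp only [p, if_neg h8]
    simp only [u, h6, h7] at h1 h2
    show p v w + 2 * g v w = 0
    norm_num at h1 h2
    omega
  · show dv (fun v w => p v w + 2 * g v w) v = x v
    unfold dv
    rw [sum_add_distrib, ← mul_sum]
    have h1 := hg3 v
    have h2 := hd v
    unfold dv at h1 h2
    rw [h1]
    linarith

end

/-- The size of the cut as a real sum. -/
theorem dd_real {V : Type} [Fintype V] [DecidableEq V] (G : SimpleGraph V) [DecidableRel G.Adj]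
    (Z : Finset V) : (dd G Z : ℝ) = ∑ v ∈ Z, ∑ w ∈ Zᶜ, if G.Adj v w then (1 : ℝ) else 0 := by
  have h := dd_cs G Z
  unfold cs at h
  have h2 : (((dd G Z : ℕ) : ℤ) : ℝ) = ((∑ v ∈ Z, ∑ w ∈ Zᶜ, if G.Adj v w then (1 : ℤ) else 0 : ℤ) : ℝ) :=
    congrArg _ h
  rw [Int.cast_natCast] at h2
  rw [h2]
  push_cast
  rfl

/-- **Balanced signs give real flows with values between `1` and `r - 1`.** -/
theorem crit_real {V : Type} [Fintype V] [DecidableEq V] (G : SimpleGraph V) [DecidableRel G.Adj]
    {r : ℝ} (hr : 2 < r) (h3 : ∀ v, G.degree v = 3) (x : V → ℤ) (hx : ∀ v, x v = 1 ∨ x v = -1)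
    (hX : ∀ X : Finset V, r * |∑ v ∈ X, (x v : ℝ)| ≤ (r - 2) * dd G X) :
    ∃ f : V → V → ℝ, (∀ u v, f u v = - f v u) ∧ (∀ v, ∑ u, f v u = 0) ∧
      (∀ u v, ¬ G.Adj u v → f u v = 0) ∧ ∀ u v, G.Adj u v → 1 ≤ |f u v| ∧ |f u v| ≤ r - 1 := by
  classical
  have hx0 : ∑ v, x v = 0 := by
    have h1 := hX univ
    have h2 : dd G (univ : Finset V) = 0 := by
      have := dd_real G (univ : Finset V)
      simp only [compl_univ, sum_empty, sum_const_zero] at this
      exact_mod_cast this
    rw [h2] at h1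
    have h4 : |∑ v, (x v : ℝ)| = 0 := by
      refine le_antisymm ?_ (abs_nonneg _)
      by_contra h
      push Not at h
      have : 0 < r * |∑ v, (x v : ℝ)| := mul_pos (by linarith) h
      push_cast at h1
      linarith
    have h5 : ((∑ v, x v : ℤ) : ℝ) = 0 := by
      push_cast
      exact abs_eq_zero.1 h4
    exact_mod_cast h5
  have hall : ∀ Z : Finset V, ∑ v ∈ Z, x v ≤ dd G Z := by
    intro Z
    have h1 := hX Z
    have h2 := le_abs_self (∑ v ∈ Z, (x v : ℝ))
    have h4 : (0 : ℝ) ≤ dd G Z := Nat.cast_nonneg _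
    have h5 : ((∑ v ∈ Z, x v : ℤ) : ℝ) ≤ ((dd G Z : ℤ) : ℝ) := by
      push_cast
      nlinarith
    exact_mod_cast h5
  obtain ⟨o, ho1, ho2, ho3, ho4⟩ := exists_orientation_all h3 hx hx0 hall
  obtain ⟨g, hg1, hg2, hg3⟩ := hoffman_real (fun v w => if G.Adj v w then r / 2 - 1 else 0)
    (fun v w => by
      show (0 : ℝ) ≤ if G.Adj v w then r / 2 - 1 else 0
      split_ifs
      · linarith
      · exact le_rfl)
    (fun v => - (r / 2) * (x v : ℝ)) (by
      rw [← mul_sum]
      have : ((∑ v, x v : ℤ) : ℝ) = 0 := by rw [hx0]; norm_num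
      push_cast at this
      rw [this, mul_zero]) (by
      intro Z
      rw [← mul_sum]
      have h1 := hX Z
      have h2 := neg_abs_le (∑ v ∈ Z, (x v : ℝ))
      have h4 : ∑ v ∈ Z, ∑ w ∈ Zᶜ, (if G.Adj v w then r / 2 - 1 else 0) = (r / 2 - 1) * dd G Z := by
        rw [dd_real, mul_sum]
        refine sum_congr rfl fun v _ => ?_
        rw [mul_sum]
        refine sum_congr rfl fun w _ => ?_
        split_ifs <;> ring
      rw [h4]
      nlinarith)
  refine ⟨fun v w => r / 2 * o v w + g v w, fun v w => ?_, fun v => ?_, fun v w h => ?_,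
    fun v w h => ?_⟩
  · show r / 2 * (o v w : ℝ) + g v w = -(r / 2 * (o w v : ℝ) + g w v)
    rw [ho1 v w, hg1 v w]
    push_cast
    ring
  · show ∑ w, (r / 2 * (o v w : ℝ) + g v w) = 0
    rw [sum_add_distrib, ← mul_sum, hg3 v]
    have h1 := ho4 v
    unfold dv at h1
    have h2 : ((∑ w, o v w : ℤ) : ℝ) = (x v : ℝ) := by rw [h1]
    push_cast at h2
    rw [h2]
    ring
  · show r / 2 * (o v w : ℝ) + g v w = 0
    have h1 := hg2 v w
    have h2 := hg2 w v
    have h4 := hg1 v w
    simp only [if_neg h, if_neg fun h' : G.Adj w v => h h'.symm] at h1 h2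
    rw [ho3 v w h]
    push_cast
    linarith
  · show 1 ≤ |r / 2 * (o v w : ℝ) + g v w| ∧ |r / 2 * (o v w : ℝ) + g v w| ≤ r - 1
    have h1 := hg2 v w
    have h2 := hg2 w v
    have h4 := hg1 v w
    simp only [if_pos h, if_pos h.symm] at h1 h2
    rcases ho2 v w h with h5 | h5
    · rw [h5]
      push_cast
      rw [abs_of_nonneg (by linarith)]
      constructor <;> linarith
    · rw [h5]
      push_cast
      rw [abs_of_nonpos (by linarith)]
      constructor <;> linarith

/-- **Real flows with values between `1` and `4` give nowhere-zero flows.** -/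
theorem flow_of_real {V : Type} [Fintype V] [DecidableEq V] {G : SimpleGraph V}
    [DecidableRel G.Adj] {f : V → V → ℝ} (hf : ∀ u v, f u v = - f v u)
    (h0 : ∀ v, ∑ u, f v u = 0) (hn : ∀ u v, ¬ G.Adj u v → f u v = 0)
    (h1 : ∀ u v, G.Adj u v → 1 ≤ |f u v| ∧ |f u v| ≤ 4) :
    ∀ i : ℕ, 5 ≤ i → HasNZFlow (ZMod i) G := by
  classical
  let o : V → V → ℤ := fun v w => if 0 < f v w then 1 else if f v w < 0 then -1 else 0
  have hcase : ∀ v w, (o v w = 1 ∧ G.Adj v w ∧ 1 ≤ f v w ∧ f v w ≤ 4) ∨
      (o v w = -1 ∧ G.Adj v w ∧ f v w ≤ -1 ∧ -4 ≤ f v w) ∨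
      (o v w = 0 ∧ ¬ G.Adj v w ∧ f v w = 0) := by
    intro v w
    by_cases h : G.Adj v w
    · obtain ⟨h2, h4⟩ := h1 v w h
      by_cases h5 : 0 < f v w
      · rw [abs_of_pos h5] at h2 h4
        exact Or.inl ⟨by simp only [o, if_pos h5], h, h2, h4⟩
      · have h6 : f v w < 0 := by
          rcases lt_or_eq_of_le (not_lt.1 h5) with h7 | h7
          · exact h7
          · rw [h7, abs_zero] at h2
            linarith
        rw [abs_of_neg h6] at h2 h4
        exact Or.inr (Or.inl ⟨by simp only [o, if_neg h5, if_pos h6], h, by linarith, by linarith⟩)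
    · have h2 := hn v w h
      refine Or.inr (Or.inr ⟨?_, h, h2⟩)
      simp only [o, h2, lt_irrefl, if_false]
  have ho : Anti o := by
    intro v w
    have h2 := hf v w
    rcases hcase v w with ⟨h, -, h4, h5⟩ | ⟨h, -, h4, h5⟩ | ⟨h, -, h4⟩ <;>
      rcases hcase w v with ⟨h', -, h4', h5'⟩ | ⟨h', -, h4', h5'⟩ | ⟨h', -, h4'⟩ <;>
      first
      | omega
      | (exfalso; linarith)
  let u : V → V → ℤ := fun v w => if o v w = 1 then 4 else if o v w = -1 then -1 else 0
  have hu : ∀ v w, f v w ≤ (u v w : ℝ) := by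
    intro v w
    simp only [u]
    rcases hcase v w with ⟨h, -, h4, h5⟩ | ⟨h, -, h4, h5⟩ | ⟨h, -, h4⟩ <;> rw [h] <;> norm_num <;>
      linarith
  obtain ⟨g, hg1, hg2, hg3⟩ := hoffman u (fun _ => 0) o ho (fun v w => by
      simp only [u]
      rcases hcase v w with ⟨h, -⟩ | ⟨h, -⟩ | ⟨h, -⟩ <;> rw [h] <;> norm_num) (by simp) (by
      intro Z
      rw [sum_const_zero]
      have h2 := anti_cut hf Z
      rw [sum_congr rfl fun v _ => h0 v, sum_const_zero] at h2
      have h4 : ∑ v ∈ Z, ∑ w ∈ Zᶜ, f v w ≤ ∑ v ∈ Z, ∑ w ∈ Zᶜ, (u v w : ℝ) :=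
        sum_le_sum fun v _ => sum_le_sum fun w _ => hu v w
      have h5 : ((0 : ℤ) : ℝ) ≤ ((cs u Z : ℤ) : ℝ) := by
        unfold cs
        push_cast
        linarith
      exact_mod_cast h5)
  refine of_int_five g hg1 (fun a b => ?_) (fun a b => ?_) hg3
  · have h1 := hg2 a b
    have h2 := hg2 b a
    have h4 := hg1 a b
    have h5 := ho a b
    simp only [u] at h1 h2
    rcases hcase a b with ⟨h, h', -⟩ | ⟨h, h', -⟩ | ⟨h, h', -⟩
    · refine ⟨fun _ => h', fun _ => ?_⟩
      rw [if_neg (show ¬ o b a = 1 by omega), if_pos (show o b a = -1 by omega)] at h2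
      omega
    · refine ⟨fun _ => h', fun _ => ?_⟩
      rw [if_neg (show ¬ o a b = 1 by omega), if_pos h] at h1
      omega
    · refine ⟨fun h6 => ?_, fun h6 => absurd h6 h'⟩
      rw [if_neg (show ¬ o a b = 1 by omega), if_neg (show ¬ o a b = -1 by omega)] at h1
      rw [if_neg (show ¬ o b a = 1 by omega), if_neg (show ¬ o b a = -1 by omega)] at h2
      omega
  · have h1 := hg2 a b
    simp only [u] at h1
    split_ifs at h1 <;> omega

/-- **Balanced signs give nowhere-zero flows**, from the condition on all sets. -/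
theorem flow_of_signs_all {V : Type} [Fintype V] [DecidableEq V] {G : SimpleGraph V}
    [DecidableRel G.Adj] (h3 : ∀ v, G.degree v = 3) {x : V → ℤ} (hx : ∀ v, x v = 1 ∨ x v = -1)
    (hX : ∀ X : Finset V, 5 * |∑ v ∈ X, x v| ≤ 3 * (dd G X : ℤ)) :
    ∀ i : ℕ, 5 ≤ i → HasNZFlow (ZMod i) G := by
  obtain ⟨f, hf1, hf2, hf3, hf4⟩ := crit_real G (r := 5) (by norm_num) h3 x hx (fun X => by
    have h := hX X
    have h' : ((5 * |∑ v ∈ X, x v| : ℤ) : ℝ) ≤ ((3 * (dd G X : ℤ) : ℤ) : ℝ) := by exact_mod_cast h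
    push_cast at h'
    linarith)
  refine flow_of_real hf1 hf2 hf3 fun u v h => ?_
  have := hf4 u v h
  exact ⟨this.1, by linarith [this.2]⟩

end Pool.Agent.K5
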