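import Mathlib
import Pool.Agent.Work.MP_974d84_co_thin.Final
import Pool.Agent.Work.MP_974d84_co_k5.CritReal
import Pool.Agent.Work.MP_974d84_co_log.Comp
import Pool.Agent.Work.MP_974d84_co_log.Girth

/-!
# From the 2-factor form of the theorems to the plain form
-/

set_option linter.unusedSectionVars false

namespace Pool.Agent.K5

open Finset SimpleGraph Pool.Agent.Exp MP974d84

/-- The girth hypothesis may be dropped if the graphs with at most six vertices are known. -/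
theorem glue {r : ℝ} (h : ∃ k : ℕ, ∀ {V : Type} [Fintype V] [DecidableEq V]
    (G : SimpleGraph V) [DecidableRel G.Adj], (∀ v, G.degree v = 3) → CycConn G k →
    Pool.Agent.Log5.Gir G k → (∀ A : Finset V, A.Nonempty → Aᶜ.Nonempty → 2 ≤ dd G A) →
    ∀ F : SimpleGraph V, F ≤ G → (∀ v, (F.neighborSet v).ncard = 2) →
    ∃ f : V → V → ℝ, (∀ u v, f u v = - f v u) ∧ (∀ v, ∑ u, f v u = 0) ∧
      (∀ u v, ¬ G.Adj u v → f u v = 0) ∧ ∀ u v, G.Adj u v → 1 ≤ |f u v| ∧ |f u v| ≤ r)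
    (hs : ∀ {V : Type} [Fintype V] [DecidableEq V] (G : SimpleGraph V) [DecidableRel G.Adj],
      (∀ v, G.degree v = 3) → Fintype.card V ≤ 6 →
      (∀ A : Finset V, A.Nonempty → Aᶜ.Nonempty → 2 ≤ dd G A) →
      ∃ f : V → V → ℝ, (∀ u v, f u v = - f v u) ∧ (∀ v, ∑ u, f v u = 0) ∧
        (∀ u v, ¬ G.Adj u v → f u v = 0) ∧ ∀ u v, G.Adj u v → 1 ≤ |f u v| ∧ |f u v| ≤ r) :
    ∃ k : ℕ, ∀ {V : Type} [Fintype V] [DecidableEq V]
    (G : SimpleGraph V) [DecidableRel G.Adj], (∀ v, G.degree v = 3) → CycConn G k →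
    ∀ F : SimpleGraph V, F ≤ G → (∀ v, (F.neighborSet v).ncard = 2) →
    ∃ f : V → V → ℝ, (∀ u v, f u v = - f v u) ∧ (∀ v, ∑ u, f v u = 0) ∧
      (∀ u v, ¬ G.Adj u v → f u v = 0) ∧ ∀ u v, G.Adj u v → 1 ≤ |f u v| ∧ |f u v| ≤ r := by
  obtain ⟨k, hk⟩ := h
  refine ⟨max k 2, ?_⟩
  intro V _ _ G _ h3 hc F hF hF2
  have hbr := Pool.Agent.Log5.no_bridge h3 hc (le_max_right _ _)
  have hck : CycConn G k := fun S h1 h2 => (le_max_left _ _).trans (hc S h1 h2)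
  rcases Pool.Agent.Log5.gir_of_cyc h3 hc with hg | h6
  · exact hk G h3 hck (fun A hA => hg A (hA.trans_le (le_max_left _ _))) hbr F hF hF2
  · exact hs G h3 h6 hbr

/-- From the 2-factor form to the plain form. -/
theorem plain_form {r : ℝ} (h : ∃ k : ℕ, ∀ {V : Type} [Fintype V] [DecidableEq V]
    (G : SimpleGraph V) [DecidableRel G.Adj], (∀ v, G.degree v = 3) → CycConn G k →
    ∀ F : SimpleGraph V, F ≤ G → (∀ v, (F.neighborSet v).ncard = 2) →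
    ∃ f : V → V → ℝ, (∀ u v, f u v = - f v u) ∧ (∀ v, ∑ u, f v u = 0) ∧
      (∀ u v, ¬ G.Adj u v → f u v = 0) ∧ ∀ u v, G.Adj u v → 1 ≤ |f u v| ∧ |f u v| ≤ r) :
    ∃ k : ℕ, ∀ (V : Type) [Fintype V] [DecidableEq V] (G : SimpleGraph V) [DecidableRel G.Adj],
    G.IsRegularOfDegree 3 → (∀ S : Finset V, ¬ (G.induce (S : Set V)).IsAcyclic →
      ¬ (G.induce ((Sᶜ : Finset V) : Set V)).IsAcyclic → k ≤ (G.interedges S Sᶜ).card) →
    ∃ f : V → V → ℝ, (∀ u v, f u v = - f v u) ∧ (∀ v, ∑ u, f v u = 0) ∧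
      (∀ u v, ¬ G.Adj u v → f u v = 0) ∧ ∀ u v, G.Adj u v → 1 ≤ |f u v| ∧ |f u v| ≤ r := by
  obtain ⟨k, hk⟩ := h
  refine ⟨max k 3, ?_⟩
  intro V _ _ G _ h3 hS
  have hc : CycConn G (max k 3) := by
    intro S h1 h2
    rw [← dd_interedges]
    exact hS S h1 h2
  have hck : CycConn G k := fun S h1 h2 => (le_max_left _ _).trans (hc S h1 h2)
  obtain ⟨F, hF, hF2⟩ := Pool.Agent.Thin5.exists_two_factor h3 (le_max_right _ _) hc
  exact hk G h3 hck F hF hF2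

/-- The exact form. -/
theorem exact_form (h : ∃ k : ℕ, ∀ {V : Type} [Fintype V] [DecidableEq V]
    (G : SimpleGraph V) [DecidableRel G.Adj], (∀ v, G.degree v = 3) → CycConn G k →
    ∀ F : SimpleGraph V, F ≤ G → (∀ v, (F.neighborSet v).ncard = 2) →
    ∀ i : ℕ, 5 ≤ i → HasNZFlow (ZMod i) G) :
    ∃ k : ℕ, ∀ (V : Type) [Fintype V] [DecidableEq V] (G : SimpleGraph V) [DecidableRel G.Adj],
    G.IsRegularOfDegree 3 → (∀ S : Finset V, ¬ (G.induce (S : Set V)).IsAcyclic →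
      ¬ (G.induce ((Sᶜ : Finset V) : Set V)).IsAcyclic → k ≤ (G.interedges S Sᶜ).card) →
    ∀ i : ℕ, 5 ≤ i → HasNZFlow (ZMod i) G := by
  obtain ⟨k, hk⟩ := h
  refine ⟨max k 3, ?_⟩
  intro V _ _ G _ h3 hS
  have hc : CycConn G (max k 3) := by
    intro S h1 h2
    rw [← dd_interedges]
    exact hS S h1 h2
  have hck : CycConn G k := fun S h1 h2 => (le_max_left _ _).trans (hc S h1 h2)
  obtain ⟨F, hF, hF2⟩ := Pool.Agent.Thin5.exists_two_factor h3 (le_max_right _ _) hc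
  exact hk G h3 hck F hF hF2

/-- The circular form with the nowhere-zero flows over `ZMod i`. -/
theorem near_four (h : ∀ ε : ℝ, 0 < ε → ∃ k : ℕ, ∀ {V : Type} [Fintype V] [DecidableEq V]
    (G : SimpleGraph V) [DecidableRel G.Adj], (∀ v, G.degree v = 3) → CycConn G k →
    ∀ F : SimpleGraph V, F ≤ G → (∀ v, (F.neighborSet v).ncard = 2) →
    ∃ f : V → V → ℝ, (∀ u v, f u v = - f v u) ∧ (∀ v, ∑ u, f v u = 0) ∧
      (∀ u v, ¬ G.Adj u v → f u v = 0) ∧ ∀ u v, G.Adj u v → 1 ≤ |f u v| ∧ |f u v| ≤ 3 + ε)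
    (ε : ℝ) (hε : 0 < ε) :
    ∃ k : ℕ, ∀ (V : Type) [Fintype V] [DecidableEq V] (G : SimpleGraph V) [DecidableRel G.Adj],
    G.IsRegularOfDegree 3 → (∀ S : Finset V, ¬ (G.induce (S : Set V)).IsAcyclic →
      ¬ (G.induce ((Sᶜ : Finset V) : Set V)).IsAcyclic → k ≤ (G.interedges S Sᶜ).card) →
    (∃ f : V → V → ℝ, (∀ u v, f u v = - f v u) ∧ (∀ v, ∑ u, f v u = 0) ∧
      (∀ u v, ¬ G.Adj u v → f u v = 0) ∧ ∀ u v, G.Adj u v → 1 ≤ |f u v| ∧ |f u v| ≤ 3 + ε) ∧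
    ∀ i : ℕ, 5 ≤ i → HasNZFlow (ZMod i) G := by
  obtain ⟨k, hk⟩ := plain_form (h (min ε 1) (lt_min hε one_pos))
  refine ⟨k, ?_⟩
  intro V _ _ G _ h3 hS
  obtain ⟨f, hf1, hf2, hf3, hf4⟩ := hk V G h3 hS
  refine ⟨⟨f, hf1, hf2, hf3, fun u v huv => ⟨(hf4 u v huv).1, ?_⟩⟩, ?_⟩
  · linarith [(hf4 u v huv).2, min_le_left ε 1]
  · exact flow_of_real hf1 hf2 hf3 fun u v huv => ⟨(hf4 u v huv).1, by
      linarith [(hf4 u v huv).2, min_le_right ε 1]⟩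

end Pool.Agent.K5
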