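import Mathlib
import Pool.Agent.Work.MP_974d84_co_exp.Grow

/-!
# Labels for cubic graphs with at most six vertices
-/

set_option linter.unusedSectionVars false

namespace Pool.Agent.K5

open Finset SimpleGraph Pool.Agent.Exp Pool.Agent.Work.MP_314beb_co

variable {V : Type} [Fintype V] [DecidableEq V] {G : SimpleGraph V} [DecidableRel G.Adj]

/-- A small set is left by many edges. -/
theorem dd_small (h3 : ∀ v, G.degree v = 3) (X : Finset V) :
    3 * X.card ≤ dd G X + X.card * (X.card - 1) := by
  have h1 := dd_add_inside G h3 X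
  have h2 : (inside G X).card ≤ X.card * (X.card - 1) := by
    have h4 : inside G X ⊆ X.offDiag := by
      intro p hp
      rw [mem_inside] at hp
      exact mem_offDiag.2 ⟨hp.1, hp.2.1, hp.2.2.ne⟩
    refine (card_le_card h4).trans (le_of_eq ?_)
    rw [offDiag_card, Nat.mul_sub, mul_one]
  omega

/-- A set of three vertices which is not a triangle is left by at least five edges. -/
theorem dd_three (h3 : ∀ v, G.degree v = 3) {P : Finset V} (hP : P.card = 3) {u v : V}
    (hu : u ∈ P) (hv : v ∈ P) (huv : u ≠ v) (hn : ¬ G.Adj u v) : 5 ≤ dd G P := by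
  have h1 := dd_add_inside G h3 P
  have h2 : (inside G P).card ≤ 4 := by
    have h4 : inside G P ⊆ (P.offDiag.erase (u, v)).erase (v, u) := by
      intro p hp
      rw [mem_inside] at hp
      refine mem_erase.2 ⟨?_, mem_erase.2 ⟨?_, mem_offDiag.2 ⟨hp.1, hp.2.1, hp.2.2.ne⟩⟩⟩
      · rintro rfl
        exact hn hp.2.2.symm
      · rintro rfl
        exact hn hp.2.2
    refine (card_le_card h4).trans (le_of_eq ?_)
    rw [card_erase_of_mem, card_erase_of_mem, offDiag_card, hP]
    · exact mem_offDiag.2 ⟨hu, hv, huv⟩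
    · exact mem_erase.2 ⟨fun h => huv (congrArg Prod.snd h), mem_offDiag.2 ⟨hv, hu, huv.symm⟩⟩
  omega

/-- The sum of the labels of `P`. -/
theorem sum_lab (P X : Finset V) :
    ∑ v ∈ X, (if v ∈ P then (1 : ℤ) else -1) = (X ∩ P).card - (X \ P).card := by
  rw [← sum_inter_add_sum_sdiff X P]
  have h1 : ∑ v ∈ X ∩ P, (if v ∈ P then (1 : ℤ) else -1) = (X ∩ P).card := by
    rw [sum_congr rfl fun v hv => if_pos (mem_of_mem_inter_right hv), sum_const, nsmul_eq_mul,
      mul_one]
  have h2 : ∑ v ∈ X \ P, (if v ∈ P then (1 : ℤ) else -1) = -(X \ P).card := by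
    rw [sum_congr rfl fun v hv => if_neg (mem_sdiff.1 hv).2, sum_const, nsmul_eq_mul]
    ring
  rw [h1, h2]
  ring

/-- The class of positive labels. -/
theorem exists_class (h3 : ∀ v, G.degree v = 3) (h6 : Fintype.card V ≤ 6) :
    ∃ P : Finset V, 2 * P.card = Fintype.card V ∧ (Fintype.card V = 6 → 5 ≤ dd G P) := by
  obtain ⟨n, hn⟩ := even_card G h3
  by_cases h : Fintype.card V = 6
  · have hpos : 0 < Fintype.card V := by omega
    obtain ⟨v⟩ := Fintype.card_pos_iff.1 hpos
    have h1 : ((univ : Finset V) \ (insert v (G.neighborFinset v))).Nonempty := by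
      rw [← card_pos, card_sdiff_of_subset (subset_univ _), card_univ, h]
      have := card_insert_le v (G.neighborFinset v)
      rw [G.card_neighborFinset_eq_degree, h3] at this
      omega
    obtain ⟨u, hu⟩ := h1
    rw [mem_sdiff, mem_insert, not_or, mem_neighborFinset] at hu
    obtain ⟨P, hP1, hP2⟩ := exists_superset_card_eq (s := {u, v}) (n := 3)
      ((card_le_two).trans (by norm_num)) (by rw [h]; norm_num)
    refine ⟨P, by omega, fun _ => dd_three h3 hP2 (hP1 (mem_insert_self _ _))
      (hP1 (mem_insert_of_mem (mem_singleton_self _))) hu.2.1 fun h' => hu.2.2 h'.symm⟩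
  · obtain ⟨P, -, hP⟩ := exists_subset_card_eq (s := (univ : Finset V)) (n := n)
      (by rw [card_univ]; omega)
    exact ⟨P, by omega, fun h' => absurd h' h⟩

/-- The labels of a cubic graph with at most six vertices, the case of a small set. -/
theorem small_aux (h3 : ∀ v, G.degree v = 3) (h6 : Fintype.card V ≤ 6) {P : Finset V}
    (hP : 2 * P.card = Fintype.card V) (hP6 : Fintype.card V = 6 → 5 ≤ dd G P) {X : Finset V}
    (hX : 2 * X.card ≤ Fintype.card V) :
    5 * |((X ∩ P).card : ℤ) - (X \ P).card| ≤ 3 * dd G X := by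
  have h1 : (X ∩ P).card + (X \ P).card = X.card := by
    rw [add_comm, card_sdiff_add_card_inter]
  have h2 := dd_small h3 X
  have h4 : X.card ≤ 3 := by omega
  have h5 : X.card = 3 → (X ∩ P).card = 3 ∨ (X ∩ P).card = 0 → 5 ≤ dd G X := by
    intro h5 h7
    have h8 : Fintype.card V = 6 := by omega
    rcases h7 with h7 | h7
    · have h9 : X ∩ P = X := eq_of_subset_of_card_le inter_subset_left (by omega)
      have h10 : X = P := eq_of_subset_of_card_le (by rw [← h9]; exact inter_subset_right)
        (by omega)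
      rw [h10]
      exact hP6 h8
    · have h9 : X ⊆ Pᶜ := by
        intro v hv
        rw [mem_compl]
        intro hvP
        have : v ∈ X ∩ P := mem_inter.2 ⟨hv, hvP⟩
        rw [card_eq_zero.1 h7] at this
        exact absurd this (notMem_empty _)
      have h10 : X = Pᶜ := eq_of_subset_of_card_le h9 (by rw [card_compl]; omega)
      rw [h10, dd_compl]
      exact hP6 h8
  rcases abs_cases (((X ∩ P).card : ℤ) - (X \ P).card) with ⟨h, -⟩ | ⟨h, -⟩ <;> rw [h]
  · interval_cases hX' : X.card
    · omega
    · simp at h2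
      omega
    · simp at h2
      omega
    · simp at h2
      by_cases h7 : (X ∩ P).card = 3 ∨ (X ∩ P).card = 0
      · have := h5 rfl h7
        omega
      · omega
  · interval_cases hX' : X.card
    · omega
    · simp at h2
      omega
    · simp at h2
      omega
    · simp at h2
      by_cases h7 : (X ∩ P).card = 3 ∨ (X ∩ P).card = 0
      · have := h5 rfl h7
        omega
      · omega

/-- **Labels of a cubic graph with at most six vertices.** -/
theorem small_labels (h3 : ∀ v, G.degree v = 3) (h6 : Fintype.card V ≤ 6) :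
    ∃ x : V → ℤ, (∀ v, x v = 1 ∨ x v = -1) ∧
      ∀ X : Finset V, 5 * |∑ v ∈ X, x v| ≤ 3 * dd G X := by
  obtain ⟨P, hP, hP6⟩ := exists_class h3 h6
  refine ⟨fun v => if v ∈ P then 1 else -1, fun v => ?_, fun X => ?_⟩
  · by_cases h : v ∈ P
    · exact Or.inl (if_pos h)
    · exact Or.inr (if_neg h)
  · by_cases h : 2 * X.card ≤ Fintype.card V
    · rw [sum_lab]
      exact small_aux h3 h6 hP hP6 h
    · have h0 : ∑ v, (if v ∈ P then (1 : ℤ) else -1) = 0 := by
        rw [sum_lab, univ_inter, ← compl_eq_univ_sdiff, card_compl]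
        omega
      have h1 : ∑ v ∈ X, (if v ∈ P then (1 : ℤ) else -1)
          = -∑ v ∈ Xᶜ, (if v ∈ P then (1 : ℤ) else -1) := by
        rw [← sum_add_sum_compl X] at h0
        linarith
      rw [h1, abs_neg, ← dd_compl, sum_lab]
      exact small_aux h3 h6 hP hP6 (by rw [card_compl]; omega)

end Pool.Agent.K5
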