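import Mathlib
import Pool.Agent.Work.MP_974d84_co_k5.SmallLab
import Pool.Agent.Work.MP_974d84_co_k5.CritReal

/-!
# Circulations with values between 1 and 3 in cubic graphs with at most six vertices
-/

set_option linter.unusedSectionVars false

namespace Pool.Agent.K5

open Finset SimpleGraph Pool.Agent.Exp Pool.Agent.Work.MP_314beb_co

section

variable {V : Type} [Fintype V] [DecidableEq V] {G : SimpleGraph V} [DecidableRel G.Adj]

/-- A vertex and two vertices which are not adjacent to it are left by at least seven edges. -/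
theorem dd_star (h3 : ∀ v, G.degree v = 3) {P : Finset V} (hP : P.card = 3) {u : V}
    (hu : u ∈ P) (hn : ∀ v ∈ P, ¬ G.Adj u v) : 7 ≤ dd G P := by
  have h1 := dd_add_inside G h3 P
  have h2 : (inside G P).card ≤ 2 := by
    have h4 : inside G P ⊆ (P.erase u).offDiag := by
      intro p hp
      rw [mem_inside] at hp
      refine mem_offDiag.2 ⟨mem_erase.2 ⟨?_, hp.1⟩, mem_erase.2 ⟨?_, hp.2.1⟩, hp.2.2.ne⟩
      · intro h
        exact hn p.2 hp.2.1 (h ▸ hp.2.2)
      · intro h
        exact hn p.1 hp.1 (h ▸ hp.2.2.symm)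
    refine (card_le_card h4).trans (le_of_eq ?_)
    rw [offDiag_card, card_erase_of_mem hu, hP]
  omega

/-- The class of positive labels. -/
theorem exists_class_four (h3 : ∀ v, G.degree v = 3) (h6 : Fintype.card V ≤ 6) :
    ∃ P : Finset V, 2 * P.card = Fintype.card V ∧ (Fintype.card V = 6 → 6 ≤ dd G P) := by
  obtain ⟨n, hn⟩ := even_card G h3
  by_cases h : Fintype.card V = 6
  · have hpos : 0 < Fintype.card V := by omega
    obtain ⟨v⟩ := Fintype.card_pos_iff.1 hpos
    have h1 : ((univ : Finset V) \ G.neighborFinset v).card = 3 := by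
      rw [card_sdiff_of_subset (subset_univ _), card_univ, h, G.card_neighborFinset_eq_degree, h3]
    refine ⟨univ \ G.neighborFinset v, by omega, fun _ => ?_⟩
    have h2 := dd_star (G := G) h3 h1 (u := v)
      (mem_sdiff.2 ⟨mem_univ v, fun h' => G.irrefl ((mem_neighborFinset G v v).1 h')⟩)
      (fun w hw hvw => (mem_sdiff.1 hw).2 ((mem_neighborFinset G v w).2 hvw))
    omega
  · obtain ⟨P, -, hP⟩ := exists_subset_card_eq (s := (univ : Finset V)) (n := n)
      (by rw [card_univ]; omega)
    exact ⟨P, by omega, fun h' => absurd h' h⟩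

/-- The labels of a cubic graph with at most six vertices, the case of a small set. -/
theorem small_aux_four (h3 : ∀ v, G.degree v = 3) (h6 : Fintype.card V ≤ 6) {P : Finset V}
    (hP : 2 * P.card = Fintype.card V) (hP6 : Fintype.card V = 6 → 6 ≤ dd G P) {X : Finset V}
    (hX : 2 * X.card ≤ Fintype.card V) :
    2 * |((X ∩ P).card : ℤ) - (X \ P).card| ≤ dd G X := by
  have h1 : (X ∩ P).card + (X \ P).card = X.card := by
    rw [add_comm, card_sdiff_add_card_inter]
  have h2 := dd_small h3 X
  have h4 : X.card ≤ 3 := by omega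
  have h5 : X.card = 3 → (X ∩ P).card = 3 ∨ (X ∩ P).card = 0 → 6 ≤ dd G X := by
    intro h5 h7
    have h8 : Fintype.card V = 6 := by omega
    rcases h7 with h7 | h7
    · have h9 : X ∩ P = X := eq_of_subset_of_card_le inter_subset_left (by omega)
      have h10 : X = P := eq_of_subset_of_card_le (by rw [← h9]; exact inter_subset_right)
        (by omega)
      rw [h10]
      exact hP6 h8
    · have h9 : X ⊆ Pᶜ := by
        intro v hv
        rw [mem_compl]
        intro hvP
        have : v ∈ X ∩ P := mem_inter.2 ⟨hv, hvP⟩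
        rw [card_eq_zero.1 h7] at this
        exact absurd this (notMem_empty _)
      have h10 : X = Pᶜ := eq_of_subset_of_card_le h9 (by rw [card_compl]; omega)
      rw [h10, dd_compl]
      exact hP6 h8
  rcases abs_cases (((X ∩ P).card : ℤ) - (X \ P).card) with ⟨h, -⟩ | ⟨h, -⟩ <;> rw [h]
  · interval_cases hX' : X.card
    · omega
    · simp at h2
      omega
    · simp at h2
      omega
    · simp at h2
      by_cases h7 : (X ∩ P).card = 3 ∨ (X ∩ P).card = 0
      · have := h5 rfl h7
        omega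
      · omega
  · interval_cases hX' : X.card
    · omega
    · simp at h2
      omega
    · simp at h2
      omega
    · simp at h2
      by_cases h7 : (X ∩ P).card = 3 ∨ (X ∩ P).card = 0
      · have := h5 rfl h7
        omega
      · omega

/-- **Labels of a cubic graph with at most six vertices.** -/
theorem small_labels_four (h3 : ∀ v, G.degree v = 3) (h6 : Fintype.card V ≤ 6) :
    ∃ x : V → ℤ, (∀ v, x v = 1 ∨ x v = -1) ∧
      ∀ X : Finset V, 2 * |∑ v ∈ X, x v| ≤ dd G X := by
  obtain ⟨P, hP, hP6⟩ := exists_class_four h3 h6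
  refine ⟨fun v => if v ∈ P then 1 else -1, fun v => ?_, fun X => ?_⟩
  · by_cases h : v ∈ P
    · exact Or.inl (if_pos h)
    · exact Or.inr (if_neg h)
  · by_cases h : 2 * X.card ≤ Fintype.card V
    · rw [sum_lab]
      exact small_aux_four h3 h6 hP hP6 h
    · have h0 : ∑ v, (if v ∈ P then (1 : ℤ) else -1) = 0 := by
        rw [sum_lab, univ_inter, ← compl_eq_univ_sdiff, card_compl]
        omega
      have h1 : ∑ v ∈ X, (if v ∈ P then (1 : ℤ) else -1)
          = -∑ v ∈ Xᶜ, (if v ∈ P then (1 : ℤ) else -1) := by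
        rw [← sum_add_sum_compl X] at h0
        linarith
      rw [h1, abs_neg, ← dd_compl, sum_lab]
      exact small_aux_four h3 h6 hP hP6 (by rw [card_compl]; omega)

end

/-- **Cubic graphs with at most six vertices.** -/
theorem small_three {V : Type} [Fintype V] [DecidableEq V] (G : SimpleGraph V)
    [DecidableRel G.Adj] (h3 : ∀ v, G.degree v = 3) (h6 : Fintype.card V ≤ 6)
    (_hbr : ∀ S : Finset V, S.Nonempty → Sᶜ.Nonempty → 2 ≤ dd G S) :
    ∃ f : V → V → ℝ, (∀ u v, f u v = - f v u) ∧ (∀ v, ∑ u, f v u = 0) ∧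
      (∀ u v, ¬ G.Adj u v → f u v = 0) ∧ ∀ u v, G.Adj u v → 1 ≤ |f u v| ∧ |f u v| ≤ 3 := by
  obtain ⟨x, hx, hX⟩ := small_labels_four h3 h6
  obtain ⟨f, h1, h2, h4, h5⟩ := crit_real G (r := 4) (by norm_num) h3 x hx fun X => by
    have h := hX X
    have h' : ((2 * |∑ v ∈ X, x v| : ℤ) : ℝ) ≤ ((dd G X : ℤ) : ℝ) := by exact_mod_cast h
    push_cast at h'
    linarith
  refine ⟨f, h1, h2, h4, fun u v huv => ⟨(h5 u v huv).1, (h5 u v huv).2.trans (by norm_num)⟩⟩

end Pool.Agent.K5
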