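import Mathlib
import Pool.Agent.Work.MP_974d84_co_exp.Final
import Pool.Agent.Work.MP_974d84_co_k5.HandIn
import Pool.Agent.Work.MP_974d84_co_k5.SmallThree

/-!
# From the 2-factor form of the theorems with girth to the plain form
-/

set_option linter.unusedSectionVars false

namespace Pool.Agent.K5

open Finset SimpleGraph Pool.Agent.Exp MP974d84

/-- Girth in terms of cycles. -/
theorem gir_of_cycles {V : Type} [Fintype V] [DecidableEq V] {G : SimpleGraph V}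
    [DecidableRel G.Adj] {g : ℕ} (h : ∀ (v : V) (w : G.Walk v v), w.IsCycle → g ≤ w.length) :
    Pool.Agent.Log5.Gir G g := by
  intro A hA
  by_contra hac
  obtain ⟨v, w, hw, hl⟩ := exists_cycle_le_card G hac
  have := h v w hw
  omega

/-- From the 2-factor form with girth to the plain form. -/
theorem plain_form_g {r : ℝ} {c : ℕ} (hc3 : 3 ≤ c) (h : ∃ g : ℕ, ∀ {V : Type} [Fintype V]
    [DecidableEq V] (G : SimpleGraph V) [DecidableRel G.Adj], (∀ v, G.degree v = 3) →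
    CycConn G c → Pool.Agent.Log5.Gir G g →
    (∀ A : Finset V, A.Nonempty → Aᶜ.Nonempty → 2 ≤ dd G A) →
    ∀ F : SimpleGraph V, F ≤ G → (∀ v, (F.neighborSet v).ncard = 2) →
    ∃ f : V → V → ℝ, (∀ u v, f u v = - f v u) ∧ (∀ v, ∑ u, f v u = 0) ∧
      (∀ u v, ¬ G.Adj u v → f u v = 0) ∧ ∀ u v, G.Adj u v → 1 ≤ |f u v| ∧ |f u v| ≤ r) :
    ∃ g : ℕ, ∀ (V : Type) [Fintype V] [DecidableEq V] (G : SimpleGraph V) [DecidableRel G.Adj],
    G.IsRegularOfDegree 3 → (∀ (v : V) (w : G.Walk v v), w.IsCycle → g ≤ w.length) →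
    (∀ S : Finset V, ¬ (G.induce (S : Set V)).IsAcyclic →
      ¬ (G.induce ((Sᶜ : Finset V) : Set V)).IsAcyclic → c ≤ (G.interedges S Sᶜ).card) →
    ∃ f : V → V → ℝ, (∀ u v, f u v = - f v u) ∧ (∀ v, ∑ u, f v u = 0) ∧
      (∀ u v, ¬ G.Adj u v → f u v = 0) ∧ ∀ u v, G.Adj u v → 1 ≤ |f u v| ∧ |f u v| ≤ r := by
  obtain ⟨g, hg⟩ := h
  refine ⟨g, ?_⟩
  intro V _ _ G _ h3 hgir hS
  have hc : CycConn G c := by
    intro S h1 h2
    rw [← dd_interedges]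
    exact hS S h1 h2
  have hbr := Pool.Agent.Log5.no_bridge h3 hc (by omega)
  obtain ⟨F, hF, hF2⟩ := Pool.Agent.Thin5.exists_two_factor h3 hc3 hc
  exact hg G h3 hc (gir_of_cycles hgir) hbr F hF hF2

/-- The integer form. -/
theorem five_g {r : ℝ} (hr : r ≤ 4) {c : ℕ} (h : ∃ g : ℕ, ∀ (V : Type) [Fintype V]
    [DecidableEq V] (G : SimpleGraph V) [DecidableRel G.Adj], G.IsRegularOfDegree 3 →
    (∀ (v : V) (w : G.Walk v v), w.IsCycle → g ≤ w.length) →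
    (∀ S : Finset V, ¬ (G.induce (S : Set V)).IsAcyclic →
      ¬ (G.induce ((Sᶜ : Finset V) : Set V)).IsAcyclic → c ≤ (G.interedges S Sᶜ).card) →
    ∃ f : V → V → ℝ, (∀ u v, f u v = - f v u) ∧ (∀ v, ∑ u, f v u = 0) ∧
      (∀ u v, ¬ G.Adj u v → f u v = 0) ∧ ∀ u v, G.Adj u v → 1 ≤ |f u v| ∧ |f u v| ≤ r) :
    ∃ g : ℕ, ∀ (V : Type) [Fintype V] [DecidableEq V] (G : SimpleGraph V) [DecidableRel G.Adj],
    G.IsRegularOfDegree 3 → (∀ (v : V) (w : G.Walk v v), w.IsCycle → g ≤ w.length) →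
    (∀ S : Finset V, ¬ (G.induce (S : Set V)).IsAcyclic →
      ¬ (G.induce ((Sᶜ : Finset V) : Set V)).IsAcyclic → c ≤ (G.interedges S Sᶜ).card) →
    ∀ i : ℕ, 5 ≤ i → HasNZFlow (ZMod i) G := by
  obtain ⟨g, hg⟩ := h
  refine ⟨g, ?_⟩
  intro V _ _ G _ h3 hgir hS
  obtain ⟨f, hf1, hf2, hf3, hf4⟩ := hg V G h3 hgir hS
  exact flow_of_real hf1 hf2 hf3 fun u v huv => ⟨(hf4 u v huv).1, (hf4 u v huv).2.trans hr⟩

/-- The statement of theorem (G) for a 2-factor. -/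
def ThmG : Prop := ∀ κ : ℕ, 5 ≤ κ → ∀ ε : ℝ, 0 < ε → ∃ g : ℕ, ∀ (V : Type) [Fintype V]
    [DecidableEq V] (G : SimpleGraph V) [DecidableRel G.Adj], (∀ v, G.degree v = 3) →
    CycConn G κ → Pool.Agent.Log5.Gir G g →
    (∀ A : Finset V, A.Nonempty → Aᶜ.Nonempty → 2 ≤ dd G A) →
    ∀ F : SimpleGraph V, F ≤ G → (∀ v, (F.neighborSet v).ncard = 2) →
    ∃ f : V → V → ℝ, (∀ u v, f u v = - f v u) ∧ (∀ v, ∑ u, f v u = 0) ∧
      (∀ u v, ¬ G.Adj u v → f u v = 0) ∧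
      ∀ u v, G.Adj u v → 1 ≤ |f u v| ∧ |f u v| ≤ 4 * κ / (κ - 4) - 1 + ε

theorem quot_eq {κ : ℕ} (hκ : 5 ≤ κ) : (4 : ℝ) * κ / (κ - 4) = 4 + 16 / (κ - 4) := by
  have h1 : (0 : ℝ) < κ - 4 := by
    have : (5 : ℝ) ≤ κ := by exact_mod_cast hκ
    linarith
  field_simp
  ring

/-- Theorem (G) without a 2-factor; the graphs with at most six vertices are included. -/
theorem main_form (hG : ThmG) {κ : ℕ} (hκ : 5 ≤ κ) {ε : ℝ} (hε : 0 < ε) :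
    ∃ g : ℕ, ∀ (V : Type) [Fintype V] [DecidableEq V]
    (G : SimpleGraph V) [DecidableRel G.Adj], G.IsRegularOfDegree 3 →
    (∀ S : Finset V, ¬ (G.induce (S : Set V)).IsAcyclic →
      ¬ (G.induce ((Sᶜ : Finset V) : Set V)).IsAcyclic → κ ≤ (G.interedges S Sᶜ).card) →
    (Pool.Agent.Log5.Gir G g ∨ Fintype.card V ≤ 6) →
    ∃ f : V → V → ℝ, (∀ u v, f u v = - f v u) ∧ (∀ v, ∑ u, f v u = 0) ∧
      (∀ u v, ¬ G.Adj u v → f u v = 0) ∧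
      ∀ u v, G.Adj u v → 1 ≤ |f u v| ∧ |f u v| ≤ 4 * κ / (κ - 4) - 1 + ε := by
  obtain ⟨g, hg⟩ := hG κ hκ ε hε
  refine ⟨g, ?_⟩
  intro V _ _ G _ h3 hS hgir
  have hc : CycConn G κ := by
    intro S h1 h2
    rw [← dd_interedges]
    exact hS S h1 h2
  have hbr := Pool.Agent.Log5.no_bridge h3 hc (by omega)
  rcases hgir with hgir | h6
  · obtain ⟨F, hF, hF2⟩ := Pool.Agent.Thin5.exists_two_factor h3 (show 3 ≤ κ by omega) hc
    exact hg V G h3 hc hgir hbr F hF hF2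
  · obtain ⟨f, h1, h2, h4, h5⟩ := small_three G h3 h6 hbr
    refine ⟨f, h1, h2, h4, fun u v huv => ⟨(h5 u v huv).1, (h5 u v huv).2.trans ?_⟩⟩
    have h6 : (0 : ℝ) < κ - 4 := by
      have : (5 : ℝ) ≤ κ := by exact_mod_cast hκ
      linarith
    have h7 : (0 : ℝ) < 16 / (κ - 4) := by positivity
    rw [quot_eq hκ]
    linarith

/-- Nowhere-zero flows, cyclic connectivity at least 21. -/
theorem five_form (hG : ThmG) {κ : ℕ} (hκ : 21 ≤ κ) :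
    ∃ g : ℕ, ∀ (V : Type) [Fintype V] [DecidableEq V]
    (G : SimpleGraph V) [DecidableRel G.Adj], G.IsRegularOfDegree 3 →
    (∀ S : Finset V, ¬ (G.induce (S : Set V)).IsAcyclic →
      ¬ (G.induce ((Sᶜ : Finset V) : Set V)).IsAcyclic → κ ≤ (G.interedges S Sᶜ).card) →
    (Pool.Agent.Log5.Gir G g ∨ Fintype.card V ≤ 6) → ∀ i : ℕ, 5 ≤ i → HasNZFlow (ZMod i) G := by
  obtain ⟨g, hg⟩ := main_form hG (show 5 ≤ κ by omega) (show (0 : ℝ) < 1 / 17 by norm_num)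
  refine ⟨g, ?_⟩
  intro V _ _ G _ h3 hS hgir
  obtain ⟨f, h1, h2, h4, h5⟩ := hg V G h3 hS hgir
  refine flow_of_real h1 h2 h4 fun u v huv => ⟨(h5 u v huv).1, (h5 u v huv).2.trans ?_⟩
  have h6 : (17 : ℝ) ≤ κ - 4 := by
    have : (21 : ℝ) ≤ κ := by exact_mod_cast hκ
    linarith
  have h7 : (16 : ℝ) / (κ - 4) ≤ 16 / 17 :=
    div_le_div_of_nonneg_left (by norm_num) (by norm_num) h6
  rw [quot_eq (by omega)]
  linarith

/-- The form of the hand-in: theorem (G). -/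
theorem girth_form (hG : ThmG) (κ : ℕ) (hκ : 5 ≤ κ) (ε : ℝ) (hε : 0 < ε) :
    ∃ g : ℕ, ∀ (V : Type) [Fintype V] [DecidableEq V]
    (G : SimpleGraph V) [DecidableRel G.Adj], G.IsRegularOfDegree 3 → (g : ℕ∞) ≤ G.egirth →
    (∀ S : Finset V, ¬ (G.induce (S : Set V)).IsAcyclic →
      ¬ (G.induce ((Sᶜ : Finset V) : Set V)).IsAcyclic → κ ≤ (G.interedges S Sᶜ).card) →
    (∃ f : V → V → ℝ, (∀ u v, f u v = - f v u) ∧ (∀ v, ∑ u, f v u = 0) ∧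
      (∀ u v, ¬ G.Adj u v → f u v = 0) ∧
      ∀ u v, G.Adj u v → 1 ≤ |f u v| ∧ |f u v| ≤ 4 * κ / (κ - 4) - 1 + ε) ∧
    (21 ≤ κ → ∀ i : ℕ, 5 ≤ i → HasNZFlow (ZMod i) G) := by
  obtain ⟨g₁, h1⟩ := main_form hG hκ hε
  have h5 : ∃ g : ℕ, 21 ≤ κ → ∀ (V : Type) [Fintype V] [DecidableEq V]
      (G : SimpleGraph V) [DecidableRel G.Adj], G.IsRegularOfDegree 3 →
      (∀ S : Finset V, ¬ (G.induce (S : Set V)).IsAcyclic →
        ¬ (G.induce ((Sᶜ : Finset V) : Set V)).IsAcyclic → κ ≤ (G.interedges S Sᶜ).card) →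
      (Pool.Agent.Log5.Gir G g ∨ Fintype.card V ≤ 6) →
      ∀ i : ℕ, 5 ≤ i → HasNZFlow (ZMod i) G := by
    by_cases h21 : 21 ≤ κ
    · obtain ⟨g, hg⟩ := five_form hG h21
      exact ⟨g, fun _ => hg⟩
    · exact ⟨0, fun h => absurd h h21⟩
  obtain ⟨g₂, h2⟩ := h5
  refine ⟨max g₁ g₂, ?_⟩
  intro V _ _ G _ h3 hgir hS
  have hcyc : ∀ (v : V) (w : G.Walk v v), w.IsCycle → max g₁ g₂ ≤ w.length := by
    intro v w hw
    have := le_egirth.1 hgir v w hw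
    exact_mod_cast this
  have hg := gir_of_cycles hcyc
  refine ⟨h1 V G h3 hS (Or.inl fun A hA => hg A (hA.trans_le (le_max_left _ _))), fun h21 =>
    h2 h21 V G h3 hS (Or.inl fun A hA => hg A (hA.trans_le (le_max_right _ _)))⟩

/-- The form with the cyclic connectivity only. -/
theorem near_four_g (hG : ThmG) (ε : ℝ) (hε : 0 < ε) :
    ∃ k : ℕ, ∀ (V : Type) [Fintype V] [DecidableEq V] (G : SimpleGraph V) [DecidableRel G.Adj],
    G.IsRegularOfDegree 3 → (∀ S : Finset V, ¬ (G.induce (S : Set V)).IsAcyclic →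
      ¬ (G.induce ((Sᶜ : Finset V) : Set V)).IsAcyclic → k ≤ (G.interedges S Sᶜ).card) →
    (∃ f : V → V → ℝ, (∀ u v, f u v = - f v u) ∧ (∀ v, ∑ u, f v u = 0) ∧
      (∀ u v, ¬ G.Adj u v → f u v = 0) ∧ ∀ u v, G.Adj u v → 1 ≤ |f u v| ∧ |f u v| ≤ 3 + ε) ∧
    ∀ i : ℕ, 5 ≤ i → HasNZFlow (ZMod i) G := by
  obtain ⟨n, hn⟩ := exists_nat_gt (32 / ε)
  have hκ : 5 ≤ n + 21 := by omega
  have h21 : 21 ≤ n + 21 := by omega
  obtain ⟨g₁, h1⟩ := main_form hG hκ (half_pos hε)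
  obtain ⟨g₂, h2⟩ := five_form hG h21
  refine ⟨max (n + 21) (max g₁ g₂), ?_⟩
  intro V _ _ G _ h3 hS
  have hc : CycConn G (max (n + 21) (max g₁ g₂)) := by
    intro S h1 h2
    rw [← dd_interedges]
    exact hS S h1 h2
  have hS' : ∀ S : Finset V, ¬ (G.induce (S : Set V)).IsAcyclic →
      ¬ (G.induce ((Sᶜ : Finset V) : Set V)).IsAcyclic →
      n + 21 ≤ (G.interedges S Sᶜ).card := fun S h1 h2 => (le_max_left _ _).trans (hS S h1 h2)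
  have hg : (Pool.Agent.Log5.Gir G g₁ ∧ Pool.Agent.Log5.Gir G g₂) ∨ Fintype.card V ≤ 6 := by
    rcases Pool.Agent.Log5.gir_of_cyc h3 hc with hg | h6
    · exact Or.inl ⟨fun A hA => hg A (hA.trans_le ((le_max_left _ _).trans (le_max_right _ _))),
        fun A hA => hg A (hA.trans_le ((le_max_right _ _).trans (le_max_right _ _)))⟩
    · exact Or.inr h6
  refine ⟨?_, h2 V G h3 hS' (hg.imp And.right id)⟩
  obtain ⟨f, hf1, hf2, hf3, hf4⟩ := h1 V G h3 hS' (hg.imp And.left id)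
  refine ⟨f, hf1, hf2, hf3, fun u v huv => ⟨(hf4 u v huv).1, (hf4 u v huv).2.trans ?_⟩⟩
  rw [quot_eq hκ]
  have h6 : (0 : ℝ) < ((n + 21 : ℕ) : ℝ) - 4 := by
    push_cast
    have : (0 : ℝ) ≤ n := Nat.cast_nonneg n
    linarith
  have h7 : (16 : ℝ) / (((n + 21 : ℕ) : ℝ) - 4) ≤ ε / 2 := by
    rw [div_le_iff₀ h6]
    have h8 : 32 < ε * n := by
      have := (div_lt_iff₀ hε).1 hn
      linarith
    push_cast
    nlinarith
  linarith

/-- The form of the hand-in with one clause: the girth or the cyclic connectivity is large. -/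
theorem one_form (hG : ThmG) (κ : ℕ) (hκ : 5 ≤ κ) (ε : ℝ) (hε : 0 < ε) :
    ∃ g : ℕ, ∀ (V : Type) [Fintype V] [DecidableEq V]
    (G : SimpleGraph V) [DecidableRel G.Adj], G.IsRegularOfDegree 3 →
    (∀ S : Finset V, ¬ (G.induce (S : Set V)).IsAcyclic →
      ¬ (G.induce ((Sᶜ : Finset V) : Set V)).IsAcyclic → κ ≤ (G.interedges S Sᶜ).card) →
    ((g : ℕ∞) ≤ G.egirth ∨ ∀ S : Finset V, ¬ (G.induce (S : Set V)).IsAcyclic →
      ¬ (G.induce ((Sᶜ : Finset V) : Set V)).IsAcyclic → g ≤ (G.interedges S Sᶜ).card) →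
    (∃ f : V → V → ℝ, (∀ u v, f u v = - f v u) ∧ (∀ v, ∑ u, f v u = 0) ∧
      (∀ u v, ¬ G.Adj u v → f u v = 0) ∧
      ∀ u v, G.Adj u v → 1 ≤ |f u v| ∧ |f u v| ≤ 4 * κ / (κ - 4) - 1 + ε) ∧
    (21 ≤ κ → ∀ i : ℕ, 5 ≤ i → HasNZFlow (ZMod i) G) := by
  obtain ⟨g₁, h1⟩ := main_form hG hκ hε
  have h5 : ∃ g : ℕ, 21 ≤ κ → ∀ (V : Type) [Fintype V] [DecidableEq V]
      (G : SimpleGraph V) [DecidableRel G.Adj], G.IsRegularOfDegree 3 →
      (∀ S : Finset V, ¬ (G.induce (S : Set V)).IsAcyclic →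
        ¬ (G.induce ((Sᶜ : Finset V) : Set V)).IsAcyclic → κ ≤ (G.interedges S Sᶜ).card) →
      (Pool.Agent.Log5.Gir G g ∨ Fintype.card V ≤ 6) →
      ∀ i : ℕ, 5 ≤ i → HasNZFlow (ZMod i) G := by
    by_cases h21 : 21 ≤ κ
    · obtain ⟨g, hg⟩ := five_form hG h21
      exact ⟨g, fun _ => hg⟩
    · exact ⟨0, fun h => absurd h h21⟩
  obtain ⟨g₂, h2⟩ := h5
  refine ⟨max g₁ g₂, ?_⟩
  intro V _ _ G _ h3 hS hor
  have hg : Pool.Agent.Log5.Gir G (max g₁ g₂) ∨ Fintype.card V ≤ 6 := by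
    rcases hor with hgir | hc
    · refine Or.inl (gir_of_cycles fun v w hw => ?_)
      have := le_egirth.1 hgir v w hw
      exact_mod_cast this
    · refine Pool.Agent.Log5.gir_of_cyc h3 ?_
      intro S h1 h2
      rw [← dd_interedges]
      exact hc S h1 h2
  exact ⟨h1 V G h3 hS (hg.imp (fun h A hA => h A (hA.trans_le (le_max_left _ _))) id),
    fun h21 => h2 h21 V G h3 hS (hg.imp (fun h A hA => h A (hA.trans_le (le_max_right _ _))) id)⟩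

/-- The form with one clause contains the form with the cyclic connectivity only. -/
theorem near_four_of_one (h : ∀ κ : ℕ, 5 ≤ κ → ∀ ε : ℝ, 0 < ε →
    ∃ g : ℕ, ∀ (V : Type) [Fintype V] [DecidableEq V]
    (G : SimpleGraph V) [DecidableRel G.Adj], G.IsRegularOfDegree 3 →
    (∀ S : Finset V, ¬ (G.induce (S : Set V)).IsAcyclic →
      ¬ (G.induce ((Sᶜ : Finset V) : Set V)).IsAcyclic → κ ≤ (G.interedges S Sᶜ).card) →
    ((g : ℕ∞) ≤ G.egirth ∨ ∀ S : Finset V, ¬ (G.induce (S : Set V)).IsAcyclic →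
      ¬ (G.induce ((Sᶜ : Finset V) : Set V)).IsAcyclic → g ≤ (G.interedges S Sᶜ).card) →
    (∃ f : V → V → ℝ, (∀ u v, f u v = - f v u) ∧ (∀ v, ∑ u, f v u = 0) ∧
      (∀ u v, ¬ G.Adj u v → f u v = 0) ∧
      ∀ u v, G.Adj u v → 1 ≤ |f u v| ∧ |f u v| ≤ 4 * κ / (κ - 4) - 1 + ε) ∧
    (21 ≤ κ → ∀ i : ℕ, 5 ≤ i → HasNZFlow (ZMod i) G)) (ε : ℝ) (hε : 0 < ε) :
    ∃ k : ℕ, ∀ (V : Type) [Fintype V] [DecidableEq V] (G : SimpleGraph V) [DecidableRel G.Adj],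
    G.IsRegularOfDegree 3 → (∀ S : Finset V, ¬ (G.induce (S : Set V)).IsAcyclic →
      ¬ (G.induce ((Sᶜ : Finset V) : Set V)).IsAcyclic → k ≤ (G.interedges S Sᶜ).card) →
    (∃ f : V → V → ℝ, (∀ u v, f u v = - f v u) ∧ (∀ v, ∑ u, f v u = 0) ∧
      (∀ u v, ¬ G.Adj u v → f u v = 0) ∧ ∀ u v, G.Adj u v → 1 ≤ |f u v| ∧ |f u v| ≤ 3 + ε) ∧
    ∀ i : ℕ, 5 ≤ i → HasNZFlow (ZMod i) G := by
  obtain ⟨n, hn⟩ := exists_nat_gt (32 / ε)
  obtain ⟨g, hg⟩ := h (n + 21) (by omega) (ε / 2) (half_pos hε)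
  refine ⟨max (n + 21) g, ?_⟩
  intro V _ _ G _ h3 hS
  obtain ⟨⟨f, hf1, hf2, hf3, hf4⟩, h5⟩ := hg V G h3
    (fun S h1 h2 => (le_max_left _ _).trans (hS S h1 h2))
    (Or.inr fun S h1 h2 => (le_max_right _ _).trans (hS S h1 h2))
  refine ⟨⟨f, hf1, hf2, hf3, fun u v huv => ⟨(hf4 u v huv).1, (hf4 u v huv).2.trans ?_⟩⟩,
    h5 (by omega)⟩
  rw [quot_eq (by omega)]
  have h6 : (0 : ℝ) < ((n + 21 : ℕ) : ℝ) - 4 := by
    push_cast
    have : (0 : ℝ) ≤ n := Nat.cast_nonneg n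
    linarith
  have h7 : (16 : ℝ) / (((n + 21 : ℕ) : ℝ) - 4) ≤ ε / 2 := by
    rw [div_le_iff₀ h6]
    have h8 : 32 < ε * n := by
      have := (div_lt_iff₀ hε).1 hn
      linarith
    push_cast
    nlinarith
  linarith

end Pool.Agent.K5
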