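import Mathlib
import Pool.Agent.Work.MP_974d84_co.Defs
import Pool.Agent.Work.MP_974d84_co_k5.HandIn
import Pool.Agent.Work.MP_974d84_co_k5.HandInG
import Pool.Agent.Work.MP_974d84_co_k5.BeadT
import Pool.Agent.Work.MP_974d84_co_k5.ExtGlue

/-!
# Reducible sets: from the form of the modules to the form of the hand-ins
-/

set_option linter.unusedSectionVars false

namespace Pool.Agent.K5

open Finset SimpleGraph Pool.Agent.Exp Pool.Agent.Work.MP_314beb_co MP974d84

/-- The number of edges spanned by a set of vertices of a cubic graph. -/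
theorem dd_add_edges {V : Type*} [Fintype V] [DecidableEq V] {G : SimpleGraph V}
    [DecidableRel G.Adj] (h3 : ∀ v, G.degree v = 3) (S : Finset V) :
    dd G S + 2 * (G.induce (S : Set V)).edgeSet.ncard = 3 * S.card := by
  have h1 := dd_add_inside G h3 S
  have h2 := inside_card G S
  have h4 : (G.induce (S : Set V)).edgeSet.ncard =
      (G.induce (S : Set V)).edgeFinset.card := by
    rw [← coe_edgeFinset, Set.ncard_coe_finset]
  rw [h4]
  omega

/-- The extension property with the constants `D`, `K` (conclusion of `ext_e`). -/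
def ExtAll (D K : ℕ) : Prop :=
  ∀ {V : Type} [Fintype V] [DecidableEq V] (G : SimpleGraph V)
    [DecidableRel G.Adj], (∀ v, G.degree v = 3) → ∀ P : Finset V, FarB G D P →
    (∀ A ⊆ P, A.card < K → (G.induce (A : Set V)).IsAcyclic) →
    (∀ Y ⊆ P, ¬ (G.induce (Y : Set V)).IsAcyclic →
      ¬ (G.induce ((P \ Y : Finset V) : Set V)).IsAcyclic → K ≤ ee G Y (P \ Y)) →
    ∀ φ : V → ZMod 5, BdryOK G P φ → ExtFlow G P φ

/-- At most one neighbour outside. -/
theorem one_of_farB {V : Type} [Fintype V] [DecidableEq V] {G : SimpleGraph V}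
    [DecidableRel G.Adj] {P : Finset V} {D : ℕ} (hD : 1 ≤ D) (hF : FarB G D P) :
    ∀ v ∈ P, ∀ w w', w ∉ P → w' ∉ P → G.Adj v w → G.Adj v w' → w = w' := by
  intro v hv w w' hw hw' h1 h2
  have h4 := hF.one hD hv
  unfold ee at h4
  rw [card_le_one] at h4
  have h5 := h4 (v, w) (by simp [hw, h1]) (v, w') (by simp [hw', h2])
  exact (Prod.ext_iff.1 h5).2

/-- The extension property in the form of the hand-ins. -/
theorem ext_form {V : Type} [Fintype V] [DecidableEq V] {G : SimpleGraph V} {P : Finset V}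
    (h : ∀ φ, BdryOK G P φ → ExtFlow G P φ) (φ : V → ZMod 5)
    (h1 : ∀ v ∈ P, φ v = 0 ↔ ∀ w, G.Adj v w → w ∈ P) (h2 : ∑ v ∈ P, φ v = 0) :
    ∃ f : V → V → ZMod 5, (∀ u v, f u v = - f v u) ∧
      (∀ u v, f u v ≠ 0 ↔ u ∈ P ∧ v ∈ P ∧ G.Adj u v) ∧ ∀ v ∈ P, ∑ u, f v u = φ v := by
  obtain ⟨f, hf1, hf2, hf3⟩ := h (fun v => - φ v) ⟨fun v hv => by
    rw [neg_eq_zero]
    exact h1 v hv, by rw [sum_neg_distrib, h2, neg_zero]⟩
  refine ⟨f, hf1, hf2, fun v hv => ?_⟩
  have h4 := hf3 v hv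
  simp only at h4
  rwa [← sub_eq_add_neg, sub_eq_zero] at h4

/-- The girth of a part, from its small sets. -/
theorem egirth_of_sets {V : Type} [Fintype V] [DecidableEq V] {G : SimpleGraph V}
    {P : Finset V} {g : ℕ}
    (h : ∀ Q ⊆ P, Q.card < g → (G.induce (Q : Set V)).IsAcyclic) :
    (g : ℕ∞) ≤ (G.induce (P : Set V)).egirth := by
  rw [le_egirth]
  intro a w hw
  by_contra hcon
  rw [not_le] at hcon
  have hlt : w.length < g := by exact_mod_cast hcon
  have hw' : (w.map (Embedding.induce (G := G) (P : Set V)).toHom).IsCycle :=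
    hw.map (Embedding.induce (G := G) (P : Set V)).injective
  have hQ : (w.map (Embedding.induce (G := G) (P : Set V)).toHom).support.toFinset ⊆ P := by
    intro x hx
    rw [List.mem_toFinset, Walk.support_map, List.mem_map] at hx
    obtain ⟨y, -, rfl⟩ := hx
    exact y.2
  have hcard : (w.map (Embedding.induce (G := G) (P : Set V)).toHom).support.toFinset.card ≤
      w.length := by
    have h1 : (w.map (Embedding.induce (G := G) (P : Set V)).toHom).support.toFinset ⊆
        (w.map (Embedding.induce (G := G) (P : Set V)).toHom).support.tail.toFinset := by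
      intro x hx
      rw [List.mem_toFinset] at hx ⊢
      rcases Walk.mem_support_iff _ |>.1 hx with h2 | h2
      · rw [h2]
        exact Walk.end_mem_tail_support hw'.not_nil
      · exact h2
    refine (card_le_card h1).trans ((List.toFinset_card_le _).trans ?_)
    rw [List.length_tail, Walk.length_support, Walk.length_map]
    omega
  have hac := h _ hQ (by omega)
  refine hac ((w.map (Embedding.induce (G := G) (P : Set V)).toHom).induce _
    (fun x hx => by simpa using hx)) (Walk.IsCycle.of_map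
      (f := (Embedding.induce (G := G) _).toHom) ?_)
  rw [Walk.map_induce]
  exact hw'

theorem ee_eq_interedges {V : Type} [Fintype V] [DecidableEq V] {G : SimpleGraph V}
    [DecidableRel G.Adj] (A B : Finset V) : ee G A B = (G.interedges A B).card := by
  unfold ee
  congr 1
  ext p
  rw [mem_filter, mem_interedges_iff]
  simp

/-- Dense spots or proper reducible sets. -/
theorem reducible_aux (hext : ∃ D K : ℕ, ExtAll D K) (g : ℕ) :
    ∃ C : ℕ, ∀ (V : Type) [Fintype V] [DecidableEq V] (G : SimpleGraph V) [DecidableRel G.Adj],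
    G.IsRegularOfDegree 3 → G.Connected → ∀ t : ℕ, 2 * t ≤ Fintype.card V →
    (∃ S : Finset V, S.card ≤ C * (t + 1) ∧ (G.induce (S : Set V)).Connected ∧
      S.card + t ≤ (G.induce (S : Set V)).edgeSet.ncard) ∨
    ∃ P : Finset V, P ≠ univ ∧ 2 ≤ P.card ∧ (G.induce (P : Set V)).Connected ∧
      ¬ (G.induce (P : Set V)).IsAcyclic ∧ (g : ℕ∞) ≤ (G.induce (P : Set V)).egirth ∧
      FarB G g P ∧
      (∀ A ⊆ P, ¬ (G.induce (A : Set V)).IsAcyclic →
        ¬ (G.induce ((P \ A : Finset V) : Set V)).IsAcyclic → g ≤ ee G A (P \ A)) ∧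
      (∀ v ∈ P, ∀ w w', w ∉ P → w' ∉ P → G.Adj v w → G.Adj v w' → w = w') ∧
      ∀ φ, BdryOK G P φ → ExtFlow G P φ := by
  obtain ⟨D, K, hext⟩ := hext
  obtain ⟨C, hC⟩ := exists_bead_t (max D (g + 1)) (max K g) (max K g)
  refine ⟨C, ?_⟩
  intro V _ _ G _ h3 hconn t ht
  rw [or_iff_not_imp_left]
  intro hcon
  push Not at hcon
  obtain ⟨P, hPu, hP2, hPc, hac, hgir, hfar, hcut⟩ := hC G h3 hconn t ht (fun S hcard hS => by
    have h1 := hcon S hcard hS
    have h2 := dd_add_edges h3 S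
    omega)
  exact ⟨P, hPu, hP2, hPc, hac,
    egirth_of_sets fun Q hQ h => hgir Q hQ (h.trans_le (le_max_right K g)),
    hfar.mono ((Nat.le_succ g).trans (le_max_right D (g + 1))),
    fun A hA h1 h2 => (le_max_right K g).trans (hcut A hA h1 h2),
    one_of_farB ((Nat.succ_le_succ (Nat.zero_le g)).trans (le_max_right D (g + 1))) hfar,
    fun φ hφ => hext G h3 P (hfar.mono (le_max_left D (g + 1)))
      (fun Q hQ h => hgir Q hQ (h.trans_le (le_max_left K g)))
      (fun A hA h1 h2 => (le_max_left K g).trans (hcut A hA h1 h2)) φ hφ⟩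

/-- The form of the hand-in: dense spots or proper reducible sets. -/
theorem reducible_form (hext : ∃ D K : ℕ, ExtAll D K) (g : ℕ) :
    ∃ C : ℕ, ∀ (V : Type) [Fintype V] [DecidableEq V] (G : SimpleGraph V) [DecidableRel G.Adj],
    G.IsRegularOfDegree 3 → G.Connected → ∀ t : ℕ, 2 * t ≤ Fintype.card V →
    (∃ S : Finset V, S.card ≤ C * (t + 1) ∧ (G.induce (S : Set V)).Connected ∧
      S.card + t ≤ (G.induce (S : Set V)).edgeSet.ncard) ∨
    ∃ P : Finset V, P ≠ univ ∧ (G.induce (P : Set V)).Connected ∧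
      ¬ (G.induce (P : Set V)).IsAcyclic ∧ (g : ℕ∞) ≤ (G.induce (P : Set V)).egirth ∧
      (∀ Q ⊆ P, Q.card ≤ g → (G.induce (Q : Set V)).Connected →
        (G.interedges Q Pᶜ).card ≤ 1) ∧
      (∀ A ⊆ P, ¬ (G.induce (A : Set V)).IsAcyclic →
        ¬ (G.induce ((P \ A : Finset V) : Set V)).IsAcyclic →
        g ≤ (G.interedges A (P \ A)).card) ∧
      ∀ φ : V → ZMod 5, (∀ v ∈ P, φ v = 0 ↔ ∀ w, G.Adj v w → w ∈ P) → ∑ v ∈ P, φ v = 0 →
      ∃ f : V → V → ZMod 5, (∀ u v, f u v = - f v u) ∧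
        (∀ u v, f u v ≠ 0 ↔ u ∈ P ∧ v ∈ P ∧ G.Adj u v) ∧ ∀ v ∈ P, ∑ u, f v u = φ v := by
  obtain ⟨C, hC⟩ := reducible_aux hext g
  refine ⟨C, ?_⟩
  intro V _ _ G _ h3 hconn t ht
  rcases hC V G h3 hconn t ht with h | ⟨P, hPu, hP2, hPc, hac, hgir, hfar, hcut, hone, hP⟩
  · exact Or.inl h
  · exact Or.inr ⟨P, hPu, hPc, hac, hgir, fun Q hQ h1 h2 => by
      rw [← ee_eq_interedges]
      exact hfar Q hQ h1 h2, fun A hA h1 h2 => by
      rw [← ee_eq_interedges]
      exact hcut A hA h1 h2, fun φ h1 h2 => ext_form hP φ h1 h2⟩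

/-- The form of the hand-in for contraction-critical graphs. -/
theorem critical_form (hext : ∃ D K : ℕ, ExtAll D K) :
    ∃ C : ℕ, ∀ (V : Type) [Fintype V] [DecidableEq V] (G : SimpleGraph V) [DecidableRel G.Adj],
    G.IsRegularOfDegree 3 → G.Connected → ¬ HasNZFlow (ZMod 5) G →
    (∀ P : Finset V, P ≠ univ → 2 ≤ P.card → (G.induce (P : Set V)).Connected →
      ∃ f : V → V → ZMod 5, (∀ u v, f u v = - f v u) ∧
        (∀ u v, f u v ≠ 0 ↔ G.Adj u v ∧ ¬ (u ∈ P ∧ v ∈ P)) ∧ ∀ v, v ∉ P → ∑ u, f v u = 0) →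
    ∀ t : ℕ, 2 * t ≤ Fintype.card V →
    ∃ S : Finset V, S.card ≤ C * (t + 1) ∧ (G.induce (S : Set V)).Connected ∧
      S.card + t ≤ (G.induce (S : Set V)).edgeSet.ncard := by
  obtain ⟨C, hC⟩ := reducible_aux hext 0
  refine ⟨C, ?_⟩
  intro V _ _ G _ h3 hconn hno hcrit t ht
  rcases hC V G h3 hconn t ht with h | ⟨P, hPu, hP2, hPc, -, -, -, -, hone, hP⟩
  · exact h
  · exact absurd (ext_glue hone (hcrit P hPu hP2 hPc) hP) hno

/-- The form of the hand-in: the extension theorem. -/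
theorem extension_form (hext : ∃ D K : ℕ, ExtAll D K) :
    ∃ K : ℕ, ∀ (V : Type) [Fintype V] [DecidableEq V] (G : SimpleGraph V) [DecidableRel G.Adj],
    G.IsRegularOfDegree 3 → ∀ P : Finset V, (K : ℕ∞) ≤ (G.induce (P : Set V)).egirth →
    (∀ Q ⊆ P, Q.card ≤ K → (G.induce (Q : Set V)).Connected → (G.interedges Q Pᶜ).card ≤ 1) →
    (∀ A ⊆ P, ¬ (G.induce (A : Set V)).IsAcyclic →
      ¬ (G.induce ((P \ A : Finset V) : Set V)).IsAcyclic → K ≤ (G.interedges A (P \ A)).card) →
    ∀ φ : V → ZMod 5, (∀ v ∈ P, φ v = 0 ↔ ∀ w, G.Adj v w → w ∈ P) → ∑ v ∈ P, φ v = 0 →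
    ∃ f : V → V → ZMod 5, (∀ u v, f u v = - f v u) ∧
      (∀ u v, f u v ≠ 0 ↔ u ∈ P ∧ v ∈ P ∧ G.Adj u v) ∧ ∀ v ∈ P, ∑ u, f v u = φ v := by
  obtain ⟨D, K, hext⟩ := hext
  refine ⟨max D K, ?_⟩
  intro V _ _ G _ h3 P hgir hfar hcut φ h1 h2
  refine ext_form (hext G h3 P ?_ ?_ ?_) φ h1 h2
  · intro Q hQ h4 h5
    rw [ee_eq_interedges]
    exact hfar Q hQ (h4.trans (le_max_left _ _)) h5
  · intro A hA hcard
    by_contra hac
    unfold IsAcyclic at hac
    push Not at hac
    obtain ⟨v, w, hw⟩ := hac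
    have hAP : (A : Set V) ≤ (P : Set V) := by exact_mod_cast hA
    have h4 : (w.map (G.induceHomOfLE hAP).toHom).IsCycle :=
      hw.map (G.induceHomOfLE hAP).injective
    have h5 := le_egirth.1 hgir _ _ h4
    rw [Walk.length_map] at h5
    have h6 : w.support.tail.length ≤ Fintype.card (A : Set V) :=
      hw.support_nodup.length_le_card
    rw [List.length_tail, Walk.length_support] at h6
    have h7 : Fintype.card (A : Set V) = A.card := by simp
    have h8 : max D K ≤ w.length := by exact_mod_cast h5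
    have h9 := le_max_right D K
    omega
  · intro A hA h4 h5
    rw [ee_eq_interedges]
    exact (le_max_right _ _).trans (hcut A hA h4 h5)

end Pool.Agent.K5
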