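import Mathlib
import Pool.Agent.Work.MP_974d84_co.Hoffman

/-!
# Integral flows from real flows

A real antisymmetric function with integral divergences can be rounded to an integral one with the
same divergences.
-/

set_option linter.unusedSectionVars false

namespace Pool.Agent.K5

open Finset

section

variable {V : Type*} [Fintype V] [DecidableEq V]

/-- **Rounding of flows**: every value is rounded up or down, the divergences do not change. -/
theorem round_flow (f : V → V → ℝ) (hf : ∀ a b, f a b = - f b a) (hd : ∀ v, ∃ n : ℤ,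
    ∑ w, f v w = n) : ∃ F : V → V → ℤ, (∀ a b, F a b = - F b a) ∧
      (∀ a b, F a b ≤ ⌈f a b⌉ ∧ ⌊f a b⌋ ≤ F a b) ∧ ∀ v, ∑ w, (F v w : ℝ) = ∑ w, f v w := by
  classical
  choose d hd using hd
  have hinner : ∀ Z : Finset V, ∑ v ∈ Z, ∑ w ∈ Z, f v w = 0 := by
    intro Z
    have h1 : ∑ v ∈ Z, ∑ w ∈ Z, f v w = ∑ v ∈ Z, ∑ w ∈ Z, f w v := sum_comm
    have h2 : ∑ v ∈ Z, ∑ w ∈ Z, f w v = - ∑ v ∈ Z, ∑ w ∈ Z, f v w := by
      rw [← sum_neg_distrib]
      refine sum_congr rfl fun v _ => ?_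
      rw [← sum_neg_distrib]
      exact sum_congr rfl fun w _ => hf w v
    linarith
  have hcut : ∀ Z : Finset V, ((∑ v ∈ Z, d v : ℤ) : ℝ) = ∑ v ∈ Z, ∑ w ∈ Zᶜ, f v w := by
    intro Z
    push_cast
    have h1 : ∀ v, (d v : ℝ) = ∑ w ∈ Z, f v w + ∑ w ∈ Zᶜ, f v w := by
      intro v
      rw [← hd v, ← sum_add_sum_compl Z]
    simp only [h1, sum_add_distrib, hinner Z, zero_add]
  obtain ⟨F, h1, h2, h3⟩ := MP974d84.hoffman (fun a b => ⌈f a b⌉) d
    (fun a b => if 0 ≤ f a b then ⌊f a b⌋ else ⌈f a b⌉)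
    (fun a b => by
      rcases lt_trichotomy (f a b) 0 with h | h | h
      · have h' : 0 ≤ f b a := by rw [hf b a]; linarith
        simp only [not_le.2 h, if_false, h', if_true]
        rw [hf b a, Int.floor_neg, neg_neg]
      · have h' : f b a = 0 := by rw [hf b a, h, neg_zero]
        simp [h, h']
      · have h' : ¬ 0 ≤ f b a := by rw [hf b a]; linarith
        simp only [h.le, if_true, h', if_false]
        rw [hf b a, Int.ceil_neg, neg_neg])
    (fun a b => by
      split_ifs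
      · exact Int.floor_le_ceil _
      · exact le_rfl)
    (by
      have h := hcut univ
      rw [compl_univ] at h
      simp only [sum_empty, sum_const_zero] at h
      exact_mod_cast h)
    (fun Z => by
      have h := hcut Z
      have h4 : ∑ v ∈ Z, ∑ w ∈ Zᶜ, f v w ≤ ((MP974d84.cs (fun a b => ⌈f a b⌉) Z : ℤ) : ℝ) := by
        unfold MP974d84.cs
        push_cast
        exact sum_le_sum fun v _ => sum_le_sum fun w _ => Int.le_ceil _
      exact_mod_cast h.trans_le h4)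
  refine ⟨F, h1, fun a b => ⟨h2 a b, ?_⟩, fun v => ?_⟩
  · have h5 := h2 b a
    rw [hf b a, Int.ceil_neg] at h5
    have h6 := h1 b a
    omega
  · rw [hd v, ← h3 v]
    unfold MP974d84.dv
    push_cast
    rfl

/-- **Integral flows from real flows** with `1 ≤ |f| ≤ r - 1` on the edges `E`. -/
theorem round_real (E : V → V → Prop) {r : ℝ} (hr : ∃ m : ℤ, r = m) (f : V → V → ℝ)
    (hf : ∀ a b, f a b = - f b a) (h0 : ∀ a b, ¬ E a b → f a b = 0)
    (h1 : ∀ a b, E a b → 1 ≤ |f a b| ∧ |f a b| ≤ r - 1) (hd : ∀ v, ∃ n : ℤ, ∑ w, f v w = n) :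
    ∃ F : V → V → ℤ, (∀ a b, F a b = - F b a) ∧ (∀ a b, ¬ E a b → F a b = 0) ∧
      (∀ a b, E a b → 1 ≤ |(F a b : ℝ)| ∧ |(F a b : ℝ)| ≤ r - 1) ∧
      ∀ v, ∑ w, (F v w : ℝ) = ∑ w, f v w := by
  obtain ⟨m, rfl⟩ := hr
  obtain ⟨F, h2, h3, h4⟩ := round_flow f hf hd
  refine ⟨F, h2, fun a b hE => ?_, fun a b hE => ?_, h4⟩
  · have h5 := h3 a b
    rw [h0 a b hE] at h5
    simp only [Int.ceil_zero, Int.floor_zero] at h5
    omega
  · obtain ⟨h5, h6⟩ := h1 a b hE
    obtain ⟨h7, h8⟩ := h3 a b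
    rcases le_total 0 (f a b) with h | h
    · rw [abs_of_nonneg h] at h5 h6
      have h9 : 1 ≤ ⌊f a b⌋ := Int.le_floor.2 (by exact_mod_cast h5)
      have h10 : ⌈f a b⌉ ≤ m - 1 := Int.ceil_le.2 (by push_cast; exact h6)
      have h11 : 0 ≤ (F a b : ℝ) := by exact_mod_cast (by omega : 0 ≤ F a b)
      rw [abs_of_nonneg h11]
      exact ⟨by exact_mod_cast h9.trans h8, by exact_mod_cast h7.trans h10⟩
    · rw [abs_of_nonpos h] at h5 h6
      have h9 : ⌈f a b⌉ ≤ -1 := Int.ceil_le.2 (by push_cast; linarith)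
      have h10 : -(m - 1) ≤ ⌊f a b⌋ := Int.le_floor.2 (by push_cast; linarith)
      have h11 : (F a b : ℝ) ≤ 0 := by exact_mod_cast (by omega : F a b ≤ 0)
      rw [abs_of_nonpos h11]
      refine ⟨?_, ?_⟩
      · exact_mod_cast (by omega : 1 ≤ - F a b)
      · exact_mod_cast (by omega : - F a b ≤ m - 1)

end

end Pool.Agent.K5
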