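import Mathlib
import Pool.Agent.Work.MP_974d84_co_k5.HandInE
import Pool.Agent.Work.MP_974d84_co_k5.HandInG
import Pool.Agent.Work.MP_974d84_co_k5.ExtRealUnif
import Pool.Agent.Work.MP_974d84_co_k5.RoundFlow
import Pool.Agent.Work.MP_974d84_co_k5.ExtZi
import Pool.Agent.Work.MP_974d84_co_k5.MainEC

/-!
# The real extension theorem: the form of the hand-in
-/

set_option linter.unusedSectionVars false

namespace Pool.Agent.K5.Re

open Finset SimpleGraph Pool.Agent.Exp Pool.Agent.Work.MP_314beb_co MP974d84 Pool.Agent.K5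

/-- Small sets of `P` are acyclic if the girth of `P` is large. -/
theorem acyclic_of_egirth {V : Type} [Fintype V] [DecidableEq V] {G : SimpleGraph V}
    {P : Finset V} {K : ℕ} (hgir : (K : ℕ∞) ≤ (G.induce (P : Set V)).egirth) :
    ∀ A ⊆ P, A.card < K → (G.induce (A : Set V)).IsAcyclic := by
  intro A hA hcard
  by_contra hac
  unfold IsAcyclic at hac
  push Not at hac
  obtain ⟨v, w, hw⟩ := hac
  have hAP : (A : Set V) ≤ (P : Set V) := by exact_mod_cast hA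
  have h4 : (w.map (G.induceHomOfLE hAP).toHom).IsCycle :=
    hw.map (G.induceHomOfLE hAP).injective
  have h5 := le_egirth.1 hgir _ _ h4
  rw [Walk.length_map] at h5
  have h6 : w.support.tail.length ≤ Fintype.card (A : Set V) :=
    hw.support_nodup.length_le_card
  rw [List.length_tail, Walk.length_support] at h6
  have h7 : Fintype.card (A : Set V) = A.card := by simp
  have h8 : K ≤ w.length := by exact_mod_cast h5
  omega

/-- The signs for `κ ≥ 21` and the number `3 / 5`. -/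
theorem ext_zi_final {κ : ℕ} (hκ : 21 ≤ κ) :
    ∃ D K : ℕ, ∀ {V : Type} [Fintype V] [DecidableEq V] (G : SimpleGraph V)
    [DecidableRel G.Adj], (∀ v, G.degree v = 3) → ∀ P : Finset V, FarB G D P →
    (∀ A ⊆ P, A.card < K → (G.induce (A : Set V)).IsAcyclic) →
    (∀ Y ⊆ P, ¬ (G.induce (Y : Set V)).IsAcyclic →
      ¬ (G.induce ((P \ Y : Finset V) : Set V)).IsAcyclic → κ ≤ ee G Y (P \ Y)) →
    ∀ i : ℕ, 5 ≤ i → ∀ φ : V → ZMod i, (∀ v ∈ P, φ v = 0 ↔ ∀ w, G.Adj v w → w ∈ P) →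
    ∑ v ∈ P, φ v = 0 → ∃ f : V → V → ZMod i, (∀ u v, f u v = - f v u) ∧
      (∀ u v, f u v ≠ 0 ↔ u ∈ P ∧ v ∈ P ∧ G.Adj u v) ∧ ∀ v ∈ P, ∑ u, f v u = φ v := by
  refine ext_zi (ext_signs_c (κ := κ) (by omega) (by norm_num) (main_ec (by omega) ?_))
  have h1 : (21 : ℝ) ≤ κ := by exact_mod_cast hκ
  have h2 : (2 : ℝ) / κ ≤ 2 / 21 := div_le_div_of_nonneg_left (by norm_num) (by norm_num) h1
  linarith

/-- Integral circulations of the cubic graphs with at most six vertices. -/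
theorem small_int {V : Type} [Fintype V] [DecidableEq V] {G : SimpleGraph V}
    [DecidableRel G.Adj] (h3 : ∀ v, G.degree v = 3) (h6 : Fintype.card V ≤ 6)
    (hbr : ∀ S : Finset V, S.Nonempty → Sᶜ.Nonempty → 2 ≤ dd G S) :
    ∃ f : V → V → ℝ, (∀ u v, f u v = - f v u) ∧ (∀ v, ∑ u, f v u = 0) ∧
      (∀ u v, ¬ G.Adj u v → f u v = 0) ∧ (∀ u v, G.Adj u v → 1 ≤ |f u v| ∧ |f u v| ≤ 3) ∧
      ∀ u v, ∃ m : ℤ, f u v = m := by
  obtain ⟨f, f1, f2, f3, f4⟩ := small_three G h3 h6 hbr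
  obtain ⟨F, g1, g2, g3, g4⟩ := round_real G.Adj (r := 4) ⟨4, by norm_num⟩ f f1 f3
    (fun a b h => ⟨(f4 a b h).1, (f4 a b h).2.trans (by norm_num)⟩)
    (fun v => ⟨0, by rw [f2 v]; simp⟩)
  refine ⟨fun u v => F u v, fun u v => ?_, fun v => ?_, fun u v h => ?_, fun u v h => ?_,
    fun u v => ⟨F u v, rfl⟩⟩
  · show (F u v : ℝ) = -(F v u : ℝ)
    rw [g1 u v]
    push_cast
    rfl
  · show ∑ u, (F v u : ℝ) = 0
    rw [g4 v, f2 v]
  · show (F u v : ℝ) = 0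
    rw [g2 u v h]
    simp
  · exact ⟨(g3 u v h).1, (g3 u v h).2.trans (by norm_num)⟩

/-- The form of the hand-in with one constant for all `r ≥ r₀`: boundary values modulo `r`
extend. -/
theorem ec_form (κ : ℕ) (hκ : 5 ≤ κ) (r₀ : ℝ) (hr : 4 * κ / (κ - 4) < r₀) :
    ∃ K : ℕ, ∀ (V : Type) [Fintype V] [DecidableEq V] (G : SimpleGraph V) [DecidableRel G.Adj],
    G.IsRegularOfDegree 3 → ∀ P : Finset V,
    ((K : ℕ∞) ≤ (G.induce (P : Set V)).egirth ∨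
      P = univ ∧ ∀ S : Finset V, ¬ (G.induce (S : Set V)).IsAcyclic →
        ¬ (G.induce ((Sᶜ : Finset V) : Set V)).IsAcyclic → K ≤ (G.interedges S Sᶜ).card) →
    (∀ Q ⊆ P, Q.card ≤ K → (G.induce (Q : Set V)).Connected → (G.interedges Q Pᶜ).card ≤ 1) →
    (∀ A ⊆ P, ¬ (G.induce (A : Set V)).IsAcyclic →
      ¬ (G.induce ((P \ A : Finset V) : Set V)).IsAcyclic → κ ≤ (G.interedges A (P \ A)).card) →
    ∀ r : ℝ, r₀ ≤ r → ∀ φ : V → ℝ, (∀ v ∈ P, φ v = 0 ↔ ∀ w, G.Adj v w → w ∈ P) →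
    (∀ v ∈ P, φ v ≠ 0 → 1 ≤ |φ v| ∧ |φ v| ≤ r - 1) → (∃ t : ℤ, ∑ v ∈ P, φ v = r * t) →
    ∃ f : V → V → ℝ, (∀ u v, f u v = - f v u) ∧
      (∀ u v, ¬ (u ∈ P ∧ v ∈ P ∧ G.Adj u v) → f u v = 0) ∧
      (∀ u ∈ P, ∀ v ∈ P, G.Adj u v → 1 ≤ |f u v| ∧ |f u v| ≤ r - 1) ∧
      (∀ v ∈ P, ∃ k : ℤ, ∑ u, f v u = φ v + r * k) ∧
      (∑ v ∈ P, φ v = 0 → (∀ Z ⊆ P, |∑ v ∈ Z, φ v| < r + (G.interedges Z (P \ Z)).card) →
        ∀ v ∈ P, ∑ u, f v u = φ v) ∧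
      ((∃ R : ℤ, r = R) → (∀ v ∈ P, ∃ m : ℤ, φ v = m) → ∀ u v, ∃ m : ℤ, f u v = m) := by
  have hκr : (5 : ℝ) ≤ κ := by exact_mod_cast hκ
  have hκ4 : (0 : ℝ) < (κ : ℝ) - 4 := by linarith
  have hr4 : 4 < r₀ := by
    refine lt_trans ?_ hr
    rw [lt_div_iff₀ hκ4]
    linarith
  obtain ⟨K, h1⟩ := ext_unif hκ hr
  refine ⟨K, ?_⟩
  intro V _ _ G _ h3 P hgir hfar hcut r hr₀ φ hφ hφ1 ht
  have hF : FarB G K P := by
    intro Q hQ h4 h5
    rw [ee_eq_interedges]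
    exact hfar Q hQ h4 h5
  have hP : ∀ Y ⊆ P, ¬ (G.induce (Y : Set V)).IsAcyclic →
      ¬ (G.induce ((P \ Y : Finset V) : Set V)).IsAcyclic → κ ≤ ee G Y (P \ Y) := by
    intro A hA h4 h5
    rw [ee_eq_interedges]
    exact hcut A hA h4 h5
  -- large girth or a small graph
  have hor : (∀ A ⊆ P, A.card < K → (G.induce (A : Set V)).IsAcyclic) ∨
      P = univ ∧ Fintype.card V ≤ 6 := by
    rcases hgir with hgir | ⟨hu, hc⟩
    · exact Or.inl (acyclic_of_egirth hgir)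
    · rcases Pool.Agent.Log5.gir_of_cyc h3 (k := K) (fun S h1 h2 => by
        rw [← dd_interedges]
        exact hc S h1 h2) with hg | h6
      · exact Or.inl fun A _ hA => hg A hA
      · exact Or.inr ⟨hu, h6⟩
  rcases hor with hg | ⟨hu, h6⟩
  · obtain ⟨f, f1, f2, f3, f4, f5, f6⟩ := h1 G h3 P hF hg hP r hr₀ φ hφ hφ1 ht
    refine ⟨f, f1, f2, f3, f4, fun h0 hZ => f5 h0 fun Z hZP => ?_, f6⟩
    rw [ee_eq_interedges]
    exact hZ Z hZP
  · subst hu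
    have hc : CycConn G κ := by
      intro S h1 h2
      have h4 := hP S (subset_univ _) h1 (by rwa [← compl_eq_univ_sdiff])
      rwa [← compl_eq_univ_sdiff, ee_eq_interedges, dd_interedges] at h4
    have hbr := Pool.Agent.Log5.no_bridge h3 hc (by omega)
    obtain ⟨f, f1, f2, f3, f4, f5⟩ := small_int h3 h6 hbr
    have h0 : ∀ v, φ v = 0 := fun v => (hφ v (mem_univ v)).2 fun w _ => mem_univ w
    refine ⟨f, f1, fun u v h => f3 u v fun h' => h ⟨mem_univ _, mem_univ _, h'⟩,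
      fun u _ v _ huv => ⟨(f4 u v huv).1, (f4 u v huv).2.trans (by linarith)⟩,
      fun v _ => ⟨0, ?_⟩, fun _ _ v _ => ?_, fun _ _ => f5⟩
    · rw [f2 v, h0 v]
      simp
    · rw [f2 v, h0 v]

/-- The form of the hand-in contains the theorem on graphs of large girth. -/
theorem large_girth_of_ec (h : ∀ κ : ℕ, 5 ≤ κ → ∀ r₀ : ℝ, 4 * κ / (κ - 4) < r₀ →
    ∃ K : ℕ, ∀ (V : Type) [Fintype V] [DecidableEq V] (G : SimpleGraph V) [DecidableRel G.Adj],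
    G.IsRegularOfDegree 3 → ∀ P : Finset V,
    ((K : ℕ∞) ≤ (G.induce (P : Set V)).egirth ∨
      P = univ ∧ ∀ S : Finset V, ¬ (G.induce (S : Set V)).IsAcyclic →
        ¬ (G.induce ((Sᶜ : Finset V) : Set V)).IsAcyclic → K ≤ (G.interedges S Sᶜ).card) →
    (∀ Q ⊆ P, Q.card ≤ K → (G.induce (Q : Set V)).Connected → (G.interedges Q Pᶜ).card ≤ 1) →
    (∀ A ⊆ P, ¬ (G.induce (A : Set V)).IsAcyclic →
      ¬ (G.induce ((P \ A : Finset V) : Set V)).IsAcyclic → κ ≤ (G.interedges A (P \ A)).card) →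
    ∀ r : ℝ, r₀ ≤ r → ∀ φ : V → ℝ, (∀ v ∈ P, φ v = 0 ↔ ∀ w, G.Adj v w → w ∈ P) →
    (∀ v ∈ P, φ v ≠ 0 → 1 ≤ |φ v| ∧ |φ v| ≤ r - 1) → (∃ t : ℤ, ∑ v ∈ P, φ v = r * t) →
    ∃ f : V → V → ℝ, (∀ u v, f u v = - f v u) ∧
      (∀ u v, ¬ (u ∈ P ∧ v ∈ P ∧ G.Adj u v) → f u v = 0) ∧
      (∀ u ∈ P, ∀ v ∈ P, G.Adj u v → 1 ≤ |f u v| ∧ |f u v| ≤ r - 1) ∧
      (∀ v ∈ P, ∃ k : ℤ, ∑ u, f v u = φ v + r * k) ∧
      (∑ v ∈ P, φ v = 0 → (∀ Z ⊆ P, |∑ v ∈ Z, φ v| < r + (G.interedges Z (P \ Z)).card) →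
        ∀ v ∈ P, ∑ u, f v u = φ v) ∧
      ((∃ R : ℤ, r = R) → (∀ v ∈ P, ∃ m : ℤ, φ v = m) → ∀ u v, ∃ m : ℤ, f u v = m))
    (κ : ℕ) (hκ : 5 ≤ κ) (ε : ℝ) (hε : 0 < ε) : ∃ g : ℕ, ∀ (V : Type) [Fintype V]
    [DecidableEq V] (G : SimpleGraph V) [DecidableRel G.Adj], G.IsRegularOfDegree 3 →
    (∀ S : Finset V, ¬ (G.induce (S : Set V)).IsAcyclic →
      ¬ (G.induce ((Sᶜ : Finset V) : Set V)).IsAcyclic → κ ≤ (G.interedges S Sᶜ).card) →
    ((g : ℕ∞) ≤ G.egirth ∨ ∀ S : Finset V, ¬ (G.induce (S : Set V)).IsAcyclic →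
      ¬ (G.induce ((Sᶜ : Finset V) : Set V)).IsAcyclic → g ≤ (G.interedges S Sᶜ).card) →
    (∃ f : V → V → ℝ, (∀ u v, f u v = - f v u) ∧ (∀ v, ∑ u, f v u = 0) ∧
      (∀ u v, ¬ G.Adj u v → f u v = 0) ∧
      ∀ u v, G.Adj u v → 1 ≤ |f u v| ∧ |f u v| ≤ 4 * κ / (κ - 4) - 1 + ε) ∧
    (21 ≤ κ → ∀ i : ℕ, 5 ≤ i → HasNZFlow (ZMod i) G) := by
  have hκr : (5 : ℝ) ≤ κ := by exact_mod_cast hκ
  have hκ4 : (0 : ℝ) < (κ : ℝ) - 4 := by linarith
  -- the form for the whole graph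
  have key : ∀ r : ℝ, 4 * κ / (κ - 4) < r → ∃ g : ℕ, ∀ (V : Type) [Fintype V]
      [DecidableEq V] (G : SimpleGraph V) [DecidableRel G.Adj], G.IsRegularOfDegree 3 →
      (∀ S : Finset V, ¬ (G.induce (S : Set V)).IsAcyclic →
        ¬ (G.induce ((Sᶜ : Finset V) : Set V)).IsAcyclic → κ ≤ (G.interedges S Sᶜ).card) →
      ((g : ℕ∞) ≤ G.egirth ∨ ∀ S : Finset V, ¬ (G.induce (S : Set V)).IsAcyclic →
        ¬ (G.induce ((Sᶜ : Finset V) : Set V)).IsAcyclic → g ≤ (G.interedges S Sᶜ).card) →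
      ∃ f : V → V → ℝ, (∀ u v, f u v = - f v u) ∧ (∀ v, ∑ u, f v u = 0) ∧
        (∀ u v, ¬ G.Adj u v → f u v = 0) ∧
        ∀ u v, G.Adj u v → 1 ≤ |f u v| ∧ |f u v| ≤ r - 1 := by
    intro r hr
    have hr4 : 4 < r := by
      refine lt_trans ?_ hr
      rw [lt_div_iff₀ hκ4]
      linarith
    obtain ⟨K, hK⟩ := h κ hκ r hr
    refine ⟨K, ?_⟩
    intro V _ _ G _ h3 hS hor
    obtain ⟨f, f1, f2, f3, _, f5, _⟩ := hK V G h3 univ (hor.imp (fun hg => by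
        refine le_egirth.2 fun v w hw => ?_
        have h0 : (w.map (Embedding.induce (G := G) ((univ : Finset V) : Set V)).toHom).IsCycle :=
          hw.map (Embedding.induce (G := G) ((univ : Finset V) : Set V)).injective
        have h1 := le_egirth.1 hg _ _ h0
        rwa [Walk.length_map] at h1) fun hc => ⟨rfl, hc⟩)
      (fun Q _ _ _ => by
        have : G.interedges Q (univ : Finset V)ᶜ = ∅ := by
          rw [compl_univ]
          ext e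
          rw [mem_interedges_iff]
          simp
        rw [this]
        simp)
      (fun A _ h1 h2 => by
        have h4 := hS A h1 (by rwa [compl_eq_univ_sdiff])
        rwa [compl_eq_univ_sdiff] at h4)
      r le_rfl (fun _ => 0) (fun v _ => by simp) (fun v _ hv => absurd rfl hv) ⟨0, by simp⟩
    refine ⟨f, f1, fun v => ?_, fun u v huv => f2 u v fun h' => huv h'.2.2,
      fun u v huv => f3 u (mem_univ _) v (mem_univ _) huv⟩
    refine f5 (by simp) (fun Z _ => ?_) v (mem_univ _)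
    simp only [sum_const_zero, abs_zero]
    have : (0 : ℝ) ≤ ((G.interedges Z (univ \ Z)).card : ℝ) := Nat.cast_nonneg _
    linarith
  obtain ⟨g₁, h1⟩ := key (4 * κ / (κ - 4) + ε) (by linarith)
  have h5 : ∃ g : ℕ, 21 ≤ κ → ∀ (V : Type) [Fintype V] [DecidableEq V]
      (G : SimpleGraph V) [DecidableRel G.Adj], G.IsRegularOfDegree 3 →
      (∀ S : Finset V, ¬ (G.induce (S : Set V)).IsAcyclic →
        ¬ (G.induce ((Sᶜ : Finset V) : Set V)).IsAcyclic → κ ≤ (G.interedges S Sᶜ).card) →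
      ((g : ℕ∞) ≤ G.egirth ∨ ∀ S : Finset V, ¬ (G.induce (S : Set V)).IsAcyclic →
        ¬ (G.induce ((Sᶜ : Finset V) : Set V)).IsAcyclic → g ≤ (G.interedges S Sᶜ).card) →
      ∀ i : ℕ, 5 ≤ i → HasNZFlow (ZMod i) G := by
    by_cases h21 : 21 ≤ κ
    · have h6 : 4 * (κ : ℝ) / (κ - 4) < 5 := by
        have : (21 : ℝ) ≤ κ := by exact_mod_cast h21
        rw [div_lt_iff₀ hκ4]
        linarith
      obtain ⟨g, hg⟩ := key 5 h6
      refine ⟨g, fun _ V _ _ G _ h3 hS hor => ?_⟩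
      obtain ⟨f, f1, f2, f3, f4⟩ := hg V G h3 hS hor
      exact flow_of_real f1 f2 f3
        fun u v huv => ⟨(f4 u v huv).1, (f4 u v huv).2.trans (by norm_num)⟩
    · exact ⟨0, fun h => absurd h h21⟩
  obtain ⟨g₂, h2⟩ := h5
  refine ⟨max g₁ g₂, ?_⟩
  intro V _ _ G _ h3 hS hor
  have ha : ∀ g : ℕ, g ≤ max g₁ g₂ → ((g : ℕ∞) ≤ G.egirth ∨
      ∀ S : Finset V, ¬ (G.induce (S : Set V)).IsAcyclic →
      ¬ (G.induce ((Sᶜ : Finset V) : Set V)).IsAcyclic → g ≤ (G.interedges S Sᶜ).card) :=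
    fun g hg => hor.imp (fun h => le_trans (by exact_mod_cast hg) h)
      fun h S h1 h2 => hg.trans (h S h1 h2)
  refine ⟨?_, fun h21 => h2 h21 V G h3 hS (ha _ (le_max_right _ _))⟩
  obtain ⟨f, f1, f2, f3, f4⟩ := h1 V G h3 hS (ha _ (le_max_left _ _))
  exact ⟨f, f1, f2, f3, fun u v huv => ⟨(f4 u v huv).1, (f4 u v huv).2.trans (by linarith)⟩⟩

end Pool.Agent.K5.Re
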