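import Mathlib
import Pool.Agent.Work.MP_974d84_co.Final
import Pool.Agent.Work.MP_974d84_co_k5.HandInG
import Pool.Agent.Work.MP_974d84_co_k5.FreeMain
import Pool.Agent.Work.MP_974d84_co_k5.HandInE

/-!
# Few disjoint parts with small boundary, without a hypothesis on the girth

A cyclically 6-edge-connected cubic graph which is locally sparse up to `C * T` vertices and does
not contain `T` disjoint vertex sets with a circuit and with at most `C` edges leaving them has a
nowhere-zero 5-flow.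
-/

set_option linter.unusedSectionVars false

namespace Pool.Agent.K5.FT

open Finset SimpleGraph Pool.Agent.Exp Pool.Agent.Log5 Pool.Agent.Log5.Clu Pool.Agent.K5 MP974d84
open Pool.Agent.Work.MP_314beb_co (cut)

section

variable {V : Type} [Fintype V] [DecidableEq V] {G : SimpleGraph V} [DecidableRel G.Adj]

variable (G) in
/-- The weight of a member of a family. -/
def wfl (β k₀ : ℕ) (P : Finset V) : ℤ :=
  (β : ℤ) * dd G P + ((β : ℤ) - 2) * P.card - 2 * β * k₀

variable (G) in
/-- The families of disjoint cyclic sets of large girth with a small rest. -/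
def Fml (g₀ M : ℕ) (F : Finset (Finset V)) : Prop :=
  (∀ P ∈ F, ∀ Q ∈ F, P ≠ Q → Disjoint P Q) ∧
  (∀ P ∈ F, ¬ (G.induce (P : Set V)).IsAcyclic) ∧
  (∀ P ∈ F, ∀ A ⊆ P, A.card < g₀ → (G.induce (A : Set V)).IsAcyclic) ∧
  ((F.biUnion id)ᶜ).card ≤ M

theorem fml_nonempty {P : Finset V} (h : ¬ (G.induce (P : Set V)).IsAcyclic) :
    P.Nonempty := by
  rw [nonempty_iff_ne_empty]
  rintro rfl
  refine h ?_
  intro v
  exact absurd v.2 (by simp)

theorem dd_univ0 : dd G (univ : Finset V) = 0 := by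
  unfold dd
  rw [card_eq_zero, eq_empty_iff_forall_notMem]
  intro p hp
  exact (mem_cut G).1 hp |>.2.1 (mem_univ _)

theorem dd_le_three (h3 : ∀ v, G.degree v = 3) (S : Finset V) : dd G S ≤ 3 * S.card := by
  have h1 := dd_add_inside G h3 S
  omega

/-- Replacing a member of a minimal family. -/
theorem fml_swap {β k₀ g₀ M : ℕ} {F : Finset (Finset V)} (hF : Fml G g₀ M F)
    (hmin : ∀ F', Fml G g₀ M F' → ∑ P ∈ F, wfl G β k₀ P ≤ ∑ P ∈ F', wfl G β k₀ P)
    {P : Finset V} (hP : P ∈ F) {N : Finset (Finset V)}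
    (hN1 : ∀ A ∈ N, ∀ B ∈ N, A ≠ B → Disjoint A B) (hN2 : ∀ A ∈ N, A ⊆ P)
    (hN3 : ∀ A ∈ N, ¬ (G.induce (A : Set V)).IsAcyclic)
    (hN4 : ((F.biUnion id)ᶜ).card + (P \ N.biUnion id).card ≤ M) :
    wfl G β k₀ P ≤ ∑ A ∈ N, wfl G β k₀ A := by
  classical
  obtain ⟨h1, h2, hloc, h3⟩ := hF
  have hdis : Disjoint (F.erase P) N := by
    rw [Finset.disjoint_left]
    intro A hA hA'
    have h4 := h1 A (mem_of_mem_erase hA) P hP (ne_of_mem_erase hA)
    obtain ⟨v, hv⟩ := fml_nonempty (hN3 A hA')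
    exact Finset.disjoint_left.1 h4 hv (hN2 A hA' hv)
  have hcr : ∀ A ∈ F.erase P, ∀ B ∈ N, Disjoint A B := fun A hA B hB =>
    (h1 A (mem_of_mem_erase hA) P hP (ne_of_mem_erase hA)).mono_right (hN2 B hB)
  have h5 : Fml G g₀ M (F.erase P ∪ N) := by
    refine ⟨fun A hA B hB hAB => ?_, fun A hA => ?_, fun A hA B hB hc => ?_, ?_⟩
    · rcases mem_union.1 hA with hA | hA <;> rcases mem_union.1 hB with hB | hB
      · exact h1 A (mem_of_mem_erase hA) B (mem_of_mem_erase hB) hAB
      · exact hcr A hA B hB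
      · exact (hcr B hB A hA).symm
      · exact hN1 A hA B hB hAB
    · rcases mem_union.1 hA with hA | hA
      · exact h2 A (mem_of_mem_erase hA)
      · exact hN3 A hA
    · rcases mem_union.1 hA with hA | hA
      · exact hloc A (mem_of_mem_erase hA) B hB hc
      · exact hloc P hP B (hB.trans (hN2 A hA)) hc
    · refine le_trans (card_le_card ?_) ((card_union_le _ _).trans hN4)
      intro v hv
      rw [mem_compl, mem_biUnion] at hv
      rw [mem_union, mem_compl, mem_biUnion]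
      by_contra hcon
      push Not at hcon
      obtain ⟨⟨A, hA, hvA⟩, hcon⟩ := hcon
      by_cases hAP : A = P
      · subst hAP
        refine hcon (mem_sdiff.2 ⟨hvA, fun h => ?_⟩)
        obtain ⟨B, hB, hvB⟩ := mem_biUnion.1 h
        exact hv ⟨B, mem_union_right _ hB, hvB⟩
      · exact hv ⟨A, mem_union_left _ (mem_erase.2 ⟨hAP, hA⟩), hvA⟩
  have h6 := hmin _ h5
  rw [sum_union hdis, ← add_sum_erase F _ hP] at h6
  linarith

theorem dd_biUnion_le (F : Finset (Finset V)) : dd G (F.biUnion id) ≤ ∑ P ∈ F, dd G P := by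
  classical
  unfold dd
  refine le_trans (card_le_card ?_) card_biUnion_le
  intro p hp
  obtain ⟨h1, h2, h3⟩ := (mem_cut G).1 hp
  obtain ⟨P, hP, h4⟩ := mem_biUnion.1 h1
  refine mem_biUnion.2 ⟨P, hP, (mem_cut G).2 ⟨h4, fun h => h2 (mem_biUnion.2 ⟨P, hP, h⟩), h3⟩⟩

/-- The union of a maximal family of disjoint small cyclic sets. -/
theorem exists_small (h3 : ∀ v, G.degree v = 3) {g₀ T B : ℕ} (hB : 3 * g₀ ≤ B)
    (hfew : ∀ F : Finset (Finset V), (∀ P ∈ F, ∀ Q ∈ F, P ≠ Q → Disjoint P Q) →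
      (∀ P ∈ F, ¬ (G.induce (P : Set V)).IsAcyclic ∧ dd G P ≤ B) → F.card < T) :
    ∃ S : Finset V, S.card ≤ g₀ * T ∧ dd G S ≤ 3 * g₀ * T ∧
      ∀ A ⊆ Sᶜ, A.card < g₀ → (G.induce (A : Set V)).IsAcyclic := by
  classical
  let p : Finset (Finset V) → Prop := fun F => (∀ P ∈ F, ∀ Q ∈ F, P ≠ Q → Disjoint P Q) ∧
    ∀ P ∈ F, ¬ (G.induce (P : Set V)).IsAcyclic ∧ P.card < g₀
  obtain ⟨F, hF1, hF2⟩ := ((univ : Finset (Finset (Finset V))).filter p).exists_max_image
    (fun F => F.card) ⟨∅, mem_filter.2 ⟨mem_univ _, by simp, by simp⟩⟩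
  obtain ⟨h1, h2⟩ : p F := (mem_filter.1 hF1).2
  have hT : F.card < T := hfew F h1 fun P hP => ⟨(h2 P hP).1, by
    have h4 := dd_le_three h3 P
    have h5 := (h2 P hP).2
    omega⟩
  have hc : (F.biUnion id).card ≤ g₀ * T := by
    calc (F.biUnion id).card ≤ ∑ P ∈ F, P.card := card_biUnion_le
      _ ≤ F.card • g₀ := sum_le_card_nsmul _ _ _ fun P hP => (h2 P hP).2.le
      _ = g₀ * F.card := by rw [smul_eq_mul, mul_comm]
      _ ≤ g₀ * T := Nat.mul_le_mul_left _ hT.le
  refine ⟨F.biUnion id, hc, ?_, fun A hA hAc => ?_⟩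
  · refine (dd_le_three h3 _).trans ?_
    calc 3 * (F.biUnion id).card ≤ 3 * (g₀ * T) := Nat.mul_le_mul_left _ hc
      _ = 3 * g₀ * T := by ring
  · by_contra hac
    obtain ⟨v, hv⟩ := fml_nonempty hac
    have hdA : ∀ P ∈ F, Disjoint A P := by
      intro P hP
      rw [Finset.disjoint_left]
      intro w hw hwP
      exact (mem_compl.1 (hA hw)) (mem_biUnion.2 ⟨P, hP, hwP⟩)
    have hAF : A ∉ F := fun h => Finset.disjoint_left.1 (hdA A h) hv hv
    have h4 := hF2 (insert A F) (mem_filter.2 ⟨mem_univ _, fun P hP Q hQ h => ?_, fun P hP => ?_⟩)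
    · rw [card_insert_of_notMem hAF] at h4
      omega
    · rcases mem_insert.1 hP with hP' | hP' <;> rcases mem_insert.1 hQ with hQ' | hQ'
      · exact absurd (hP'.trans hQ'.symm) h
      · rw [hP']
        exact hdA Q hQ'
      · rw [hQ']
        exact (hdA P hP').symm
      · exact h1 P hP' Q hQ' h
    · rcases mem_insert.1 hP with hP' | hP'
      · rw [hP']
        exact ⟨hac, hAc⟩
      · exact h2 P hP'

/-- The decomposition, for given numbers. -/
theorem parts_core (h3 : ∀ v, G.degree v = 3) [Nonempty V] {β k₀ D M T g₀ B : ℕ} (hβ : 4 ≤ β)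
    (hβD : D < β) (hgD : D < g₀) (hgk : 2 * β * k₀ < g₀)
    (hB : 3 * β * g₀ + 4 * β * k₀ ≤ B)
    (hsp : ∀ S : Finset V, S.card ≤ M → β * S.card ≤ β * dd G S + S.card)
    (hM : 2 * ((3 * β * g₀ + 4 * β * k₀) * T) + 4 * (g₀ * T) + 3 * D ≤ M)
    (hfew : ∀ F : Finset (Finset V), (∀ P ∈ F, ∀ Q ∈ F, P ≠ Q → Disjoint P Q) →
      (∀ P ∈ F, ¬ (G.induce (P : Set V)).IsAcyclic ∧ dd G P ≤ B) → F.card < T) :
    ∃ F : Finset (Finset V), F.Nonempty ∧ (∀ P ∈ F, ∀ Q ∈ F, P ≠ Q → Disjoint P Q) ∧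
      (∀ P ∈ F, ¬ (G.induce (P : Set V)).IsAcyclic ∧ FarB G D P ∧
        (∀ A ⊆ P, A.card < g₀ → (G.induce (A : Set V)).IsAcyclic) ∧
        ∀ Y ⊆ P, ¬ (G.induce (Y : Set V)).IsAcyclic →
          ¬ (G.induce ((P \ Y : Finset V) : Set V)).IsAcyclic → k₀ ≤ ee G Y (P \ Y)) ∧
      ∀ U : Finset V, (∀ P ∈ F, Disjoint U P) → β * U.card ≤ β * dd G U + U.card := by
  classical
  have hddu : dd G (univ : Finset V) = 0 := dd_univ0
  have hVpos : 0 < Fintype.card V := Fintype.card_pos
  have hVM : M < Fintype.card V := by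
    by_contra h
    push Not at h
    have h1 := hsp univ (by rw [card_univ]; exact h)
    rw [hddu, card_univ] at h1
    have h4 : 4 * Fintype.card V ≤ β * Fintype.card V := Nat.mul_le_mul_right _ hβ
    omega
  have hβ1 : g₀ ≤ β * g₀ := Nat.le_mul_of_pos_left _ (by omega)
  have hB' : 3 * g₀ ≤ B := by
    have h1 : 3 * β * g₀ = 3 * (β * g₀) := by ring
    omega
  obtain ⟨S, hS1, hS2, hS3⟩ := exists_small h3 hB' hfew
  have hScard : S.card + Sᶜ.card = Fintype.card V := card_add_card_compl S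
  have h0 : Fml G g₀ M {Sᶜ} := by
    refine ⟨fun P hP Q hQ h => ?_, fun P hP => ?_, fun P hP A hA hc => ?_, ?_⟩
    · rw [mem_singleton] at hP hQ
      exact absurd (hP.trans hQ.symm) h
    · rw [mem_singleton] at hP
      subst hP
      intro hac
      rcases (Sᶜ).eq_empty_or_nonempty with he | hne
      · rw [he, card_empty] at hScard
        omega
      · have h1 := dd_of_acyclic G h3 hne hac
        rw [dd_compl] at h1
        have h2 : 3 * g₀ * T ≤ 3 * (g₀ * T) := le_of_eq (by ring)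
        omega
    · rw [mem_singleton] at hP
      subst hP
      exact hS3 A hA hc
    · rw [singleton_biUnion, id, compl_compl]
      omega
  obtain ⟨F, hF1, hF2⟩ := ((univ : Finset (Finset (Finset V))).filter (Fml G g₀ M)).exists_min_image
    (fun F => ∑ P ∈ F, wfl G β k₀ P) ⟨{Sᶜ}, mem_filter.2 ⟨mem_univ _, h0⟩⟩
  have hF : Fml G g₀ M F := (mem_filter.1 hF1).2
  have hmin : ∀ F', Fml G g₀ M F' → ∑ P ∈ F, wfl G β k₀ P ≤ ∑ P ∈ F', wfl G β k₀ P :=
    fun F' h => hF2 F' (mem_filter.2 ⟨mem_univ _, h⟩)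
  obtain ⟨hdis, hcyc, hloc, hR⟩ := id hF
  set R := (F.biUnion id)ᶜ with hRdef
  set s := F.card with hs
  set Sd := ∑ P ∈ F, dd G P with hSd
  -- sizes
  have hcard : ∑ P ∈ F, P.card + R.card = Fintype.card V := by
    have h1 : (F.biUnion id).card = ∑ P ∈ F, P.card := card_biUnion fun P hP Q hQ h =>
      hdis P hP Q hQ h
    rw [← h1, hRdef, card_add_card_compl]
  have hsum : ∑ P ∈ F, wfl G β k₀ P =
      (β : ℤ) * Sd + ((β : ℤ) - 2) * (∑ P ∈ F, P.card : ℕ) - 2 * β * k₀ * s := by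
    simp only [wfl, sum_sub_distrib, sum_add_distrib, ← mul_sum, sum_const, hSd, hs]
    push_cast
    ring
  have hcmp := hmin _ h0
  rw [hsum, sum_singleton] at hcmp
  simp only [wfl] at hcmp
  rw [dd_compl] at hcmp
  have hRd : dd G R ≤ Sd := by
    rw [hRdef, dd_compl]
    exact dd_biUnion_le F
  have hRsp := hsp R hR
  have hβ' : (4 : ℤ) ≤ β := by exact_mod_cast hβ
  have hβ0 : (0 : ℤ) ≤ β := by linarith only [hβ']
  set Q : ℤ := 3 * β * g₀ * T + 2 * β * k₀ * s with hQ
  have hkk : (0 : ℤ) ≤ 2 * β * k₀ := by positivity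
  have e1 : (β : ℤ) * Sd + 2 * R.card ≤ β * R.card + Q := by
    have c1 : ((∑ P ∈ F, P.card : ℕ) : ℤ) = Fintype.card V - R.card := by
      have : ((∑ P ∈ F, P.card : ℕ) : ℤ) + R.card = Fintype.card V := by exact_mod_cast hcard
      linarith only [this]
    have c2 : (Sᶜ.card : ℤ) = Fintype.card V - S.card := by
      have : (S.card : ℤ) + Sᶜ.card = Fintype.card V := by exact_mod_cast hScard
      linarith only [this]
    rw [c1, c2] at hcmp
    have c3 : (β : ℤ) * dd G S ≤ β * (3 * g₀ * T) := by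
      have h' : (dd G S : ℤ) ≤ 3 * g₀ * T := by exact_mod_cast hS2
      exact mul_le_mul_of_nonneg_left h' hβ0
    have c4 : (0 : ℤ) ≤ ((β : ℤ) - 2) * S.card := mul_nonneg (by linarith only [hβ'])
      (by positivity)
    rw [hQ]
    linarith only [hcmp, c3, c4, hkk]
  have e2 : (β : ℤ) * R.card ≤ β * Sd + R.card := by
    have : (β : ℤ) * dd G R ≤ β * Sd := by
      have h' : (dd G R : ℤ) ≤ Sd := by exact_mod_cast hRd
      exact mul_le_mul_of_nonneg_left h' hβ0
    have h' : (β : ℤ) * R.card ≤ β * dd G R + R.card := by exact_mod_cast hRsp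
    linarith only [this, h']
  have e3 : (R.card : ℤ) ≤ Q := by linarith only [e1, e2]
  have hQ0 : 0 ≤ Q := by
    rw [hQ]
    positivity
  have e4 : (Sd : ℤ) ≤ Q := by
    have h1 : ((β : ℤ) - 2) * R.card ≤ (β - 2) * Q :=
      mul_le_mul_of_nonneg_left e3 (by linarith only [hβ'])
    have h2 : (β : ℤ) * Sd ≤ β * Q := by
      linarith only [h1, e1, hQ0]
    exact le_of_mul_le_mul_left h2 (by linarith only [hβ'])
  -- the number of members
  set Sm := F.filter fun P => dd G P ≤ B with hSm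
  set Bg := F.filter fun P => ¬ dd G P ≤ B with hBg
  have hSB : Sm.card + Bg.card = s := card_filter_add_card_filter_not _
  have hBgs : (B + 1) * Bg.card ≤ Sd := by
    calc (B + 1) * Bg.card = Bg.card • (B + 1) := by
          rw [smul_eq_mul, mul_comm]
      _ ≤ ∑ P ∈ Bg, dd G P := card_nsmul_le_sum _ _ _ fun P hP => by
          have := (mem_filter.1 hP).2
          omega
      _ ≤ Sd := sum_le_sum_of_subset (filter_subset _ _)
  have hSmT : Sm.card < T := hfew Sm
    (fun P hP Q hQ h => hdis P (mem_filter.1 hP).1 Q (mem_filter.1 hQ).1 h)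
    fun P hP => ⟨hcyc P (mem_filter.1 hP).1, (mem_filter.1 hP).2⟩
  have hSdQ : Sd ≤ 3 * β * g₀ * T + 2 * β * k₀ * s := by
    have : (Sd : ℤ) ≤ ((3 * β * g₀ * T + 2 * β * k₀ * s : ℕ) : ℤ) := by
      push_cast
      exact e4
    exact_mod_cast this
  have hRQ : R.card ≤ 3 * β * g₀ * T + 2 * β * k₀ * s := by
    have : (R.card : ℤ) ≤ ((3 * β * g₀ * T + 2 * β * k₀ * s : ℕ) : ℤ) := by
      push_cast
      exact e3
    exact_mod_cast this
  have hsT : s ≤ 2 * T := by
    have h1 : Bg.card ≤ T := by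
      by_contra hcon
      push Not at hcon
      have h2 : (3 * β * g₀ + 4 * β * k₀ + 1) * Bg.card ≤ Sd :=
        (Nat.mul_le_mul_right _ (by omega)).trans hBgs
      have h4 : s ≤ 2 * Bg.card := by omega
      have h5 : 2 * β * k₀ * s ≤ 2 * β * k₀ * (2 * Bg.card) := Nat.mul_le_mul_left _ h4
      have h6 : 2 * β * k₀ * (2 * Bg.card) = 4 * β * k₀ * Bg.card := by ring
      have h7 : (3 * β * g₀ + 4 * β * k₀ + 1) * Bg.card =
        3 * β * g₀ * Bg.card + 4 * β * k₀ * Bg.card + Bg.card := by ring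
      have h8 : 3 * β * g₀ * T ≤ 3 * β * g₀ * Bg.card := Nat.mul_le_mul_left _ hcon.le
      omega
    omega
  set W : ℕ := (3 * β * g₀ + 4 * β * k₀) * T with hW
  have hQW : 3 * β * g₀ * T + 2 * β * k₀ * s ≤ W := by
    have h1 : 2 * β * k₀ * s ≤ 2 * β * k₀ * (2 * T) := Nat.mul_le_mul_left _ hsT
    have h2 : W = 3 * β * g₀ * T + 2 * β * k₀ * (2 * T) := by
      rw [hW]
      ring
    omega
  have hRT : R.card ≤ W := hRQ.trans hQW
  have hST : Sd ≤ W := hSdQ.trans hQW
  refine ⟨F, ?_, hdis, fun P hP => ⟨hcyc P hP, ?_, hloc P hP, ?_⟩, ?_⟩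
  · -- nonempty
    rw [nonempty_iff_ne_empty]
    intro hF0
    have h1 : R = univ := by
      rw [hRdef, hF0]
      simp
    rw [h1, card_univ] at hR
    omega
  · -- far boundary
    intro Q hQ hQD hconn
    by_contra hcon
    push Not at hcon
    have h1 := bead_sdiff (G := G) hQ
    have h2 := bead_conn h3 hconn
    have hPQ : (P \ Q).card + Q.card = P.card := card_sdiff_add_card_eq_card hQ
    by_cases hac : (G.induce ((P \ Q : Finset V) : Set V)).IsAcyclic
    · -- drop `P`
      have hne : (P \ Q).Nonempty := by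
        rw [nonempty_iff_ne_empty]
        intro he
        have h4 : P ⊆ Q := by
          rw [← sdiff_eq_empty_iff_subset]
          exact he
        have h5 : P.card ≤ Q.card := card_le_card h4
        exact hcyc P hP (hloc P hP P (Subset.refl _) (by omega))
      have h4 := dd_of_acyclic G h3 hne hac
      have hPS : dd G P ≤ Sd := single_le_sum (f := fun P => dd G P) (fun _ _ => Nat.zero_le _) hP
      have h5 := fml_swap hF hmin hP (N := ∅) (by simp) (by simp) (by simp)
        (by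
          rw [biUnion_empty, sdiff_empty]
          change R.card + P.card ≤ M
          omega)
      rw [sum_empty] at h5
      have h6 : g₀ ≤ P.card := by
        by_contra h
        push Not at h
        exact hcyc P hP (hloc P hP P (Subset.refl _) h)
      have h7 : (0 : ℤ) ≤ β * dd G P := by positivity
      have h8 : (2 : ℤ) * β * k₀ < P.card := by exact_mod_cast hgk.trans_le h6
      have h9 : (P.card : ℤ) ≤ ((β : ℤ) - 2) * P.card := by
        have h10 : (0 : ℤ) ≤ P.card := by positivity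
        have h11 : (0 : ℤ) ≤ ((β : ℤ) - 3) * P.card := mul_nonneg (by linarith only [hβ']) h10
        linarith only [h11]
      simp only [wfl] at h5
      linarith only [h5, h7, h8, h9]
    · have h5 := fml_swap hF hmin hP (N := {P \ Q}) (by
          intro A hA B hB h
          rw [mem_singleton] at hA hB
          exact absurd (hA.trans hB.symm) h) (by
          intro A hA
          rw [mem_singleton] at hA
          subst hA
          exact sdiff_subset) (by
          intro A hA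
          rw [mem_singleton] at hA
          subst hA
          exact hac) (by
          rw [singleton_biUnion, id, sdiff_sdiff_right_self]
          change R.card + (P ∩ Q).card ≤ M
          have : (P ∩ Q).card ≤ Q.card := card_le_card inter_subset_right
          omega)
      rw [sum_singleton] at h5
      simp only [wfl] at h5
      have h6 : ((P \ Q).card : ℤ) = P.card - Q.card := by
        have : ((P \ Q).card : ℤ) + Q.card = P.card := by exact_mod_cast hPQ
        linarith
      have h7 : (dd G (P \ Q) : ℤ) ≤ dd G P + Q.card - 2 := by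
        have : dd G (P \ Q) + 2 ≤ dd G P + Q.card := by omega
        have : (dd G (P \ Q) : ℤ) + 2 ≤ dd G P + Q.card := by exact_mod_cast this
        linarith
      have h8 : (β : ℤ) * dd G (P \ Q) ≤ β * (dd G P + Q.card - 2) :=
        mul_le_mul_of_nonneg_left h7 (by positivity)
      have h9 : (Q.card : ℤ) < β := by exact_mod_cast lt_of_le_of_lt hQD hβD
      rw [h6] at h5
      linarith only [h5, h8, h9]
  · -- large cyclic cuts
    intro Y hY hY1 hY2
    by_contra hcon
    push Not at hcon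
    have h1 := bead_split (G := G) hY
    have hYY : Y ≠ P \ Y := by
      intro h
      obtain ⟨v, hv⟩ := fml_nonempty hY1
      have h' := hv
      rw [h] at h'
      exact (mem_sdiff.1 h').2 hv
    have hdY : Disjoint Y (P \ Y) := disjoint_sdiff
    have h5 := fml_swap hF hmin hP (N := {Y, P \ Y}) (by
        intro A hA B hB h
        rw [mem_insert, mem_singleton] at hA hB
        rcases hA with rfl | rfl <;> rcases hB with rfl | rfl
        · exact absurd rfl h
        · exact hdY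
        · exact hdY.symm
        · exact absurd rfl h) (by
        intro A hA
        rw [mem_insert, mem_singleton] at hA
        rcases hA with rfl | rfl
        · exact hY
        · exact sdiff_subset) (by
        intro A hA
        rw [mem_insert, mem_singleton] at hA
        rcases hA with rfl | rfl
        · exact hY1
        · exact hY2) (by
        have h6 : P \ ({Y, P \ Y} : Finset (Finset V)).biUnion id = ∅ := by
          rw [sdiff_eq_empty_iff_subset]
          intro v hv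
          by_cases h : v ∈ Y
          · exact mem_biUnion.2 ⟨Y, by simp, h⟩
          · exact mem_biUnion.2 ⟨P \ Y, by simp, mem_sdiff.2 ⟨hv, h⟩⟩
        rw [h6, card_empty, add_zero]
        exact hR)
    rw [sum_pair hYY] at h5
    simp only [wfl] at h5
    have h6 : ((P \ Y).card : ℤ) = P.card - Y.card := by
      have := card_sdiff_add_card_eq_card hY
      have : ((P \ Y).card : ℤ) + Y.card = P.card := by exact_mod_cast this
      linarith
    have h7 : (dd G Y : ℤ) + dd G (P \ Y) = dd G P + 2 * ee G Y (P \ Y) := by exact_mod_cast h1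
    have h8 : (ee G Y (P \ Y) : ℤ) + 1 ≤ k₀ := by exact_mod_cast hcon
    have h9 : (β : ℤ) * ((ee G Y (P \ Y) : ℤ) + 1) ≤ β * k₀ :=
      mul_le_mul_of_nonneg_left h8 (by positivity)
    have h10 : (β : ℤ) * (dd G Y + dd G (P \ Y)) = β * (dd G P + 2 * ee G Y (P \ Y)) := by rw [h7]
    rw [h6] at h5
    linarith only [h5, h9, h10, hβ']
  · -- the rest
    intro U hU
    have h1 : U ⊆ R := by
      intro v hv
      rw [hRdef, mem_compl, mem_biUnion]
      rintro ⟨P, hP, hvP⟩
      exact Finset.disjoint_left.1 (hU P hP) hv hvP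
    exact hsp U ((card_le_card h1).trans hR)

end

/-- **The decomposition.** -/
theorem exists_parts_ft (D K : ℕ) : ∃ C : ℕ, ∀ {V : Type} [Fintype V] [DecidableEq V]
    [Nonempty V] (G : SimpleGraph V) [DecidableRel G.Adj], (∀ v, G.degree v = 3) → ∀ T : ℕ, 1 ≤ T →
    (∀ U : Finset V, U.card ≤ C * T → C * U.card ≤ C * dd G U + U.card) →
    (∀ F : Finset (Finset V), (∀ P ∈ F, ∀ Q ∈ F, P ≠ Q → Disjoint P Q) →
      (∀ P ∈ F, ¬ (G.induce (P : Set V)).IsAcyclic ∧ dd G P ≤ C) → F.card < T) →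
    ∃ F : Finset (Finset V), F.Nonempty ∧ (∀ P ∈ F, ∀ Q ∈ F, P ≠ Q → Disjoint P Q) ∧
      (∀ P ∈ F, ¬ (G.induce (P : Set V)).IsAcyclic ∧ FarB G D P ∧
        (∀ A ⊆ P, A.card < K → (G.induce (A : Set V)).IsAcyclic) ∧
        ∀ Y ⊆ P, ¬ (G.induce (Y : Set V)).IsAcyclic →
          ¬ (G.induce ((P \ Y : Finset V) : Set V)).IsAcyclic → K ≤ ee G Y (P \ Y)) ∧
      ∀ U : Finset V, (∀ P ∈ F, Disjoint U P) → 3 * U.card ≤ 4 * dd G U := by
  set β : ℕ := D + 4 with hβ
  set g₀ : ℕ := K + D + 2 * β * K + 1 with hg₀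
  set B : ℕ := 3 * β * g₀ + 4 * β * K with hB
  refine ⟨2 * B + 4 * g₀ + 3 * D + β, ?_⟩
  intro V _ _ _ G _ h3 T hT hU hfew
  set C : ℕ := 2 * B + 4 * g₀ + 3 * D + β with hC
  have hM : 2 * ((3 * β * g₀ + 4 * β * K) * T) + 4 * (g₀ * T) + 3 * D ≤ C * T := by
    rw [← hB]
    have h1 : C * T = 2 * (B * T) + 4 * (g₀ * T) + 3 * (D * T) + β * T := by
      rw [hC]
      ring
    have h2 : D * 1 ≤ D * T := Nat.mul_le_mul_left _ hT
    omega
  have hsp : ∀ S : Finset V, S.card ≤ C * T → β * S.card ≤ β * dd G S + S.card := by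
    intro S hS
    have h1 := hU S hS
    rcases Nat.le_total S.card (dd G S) with h2 | h2
    · have h4 : β * S.card ≤ β * dd G S := Nat.mul_le_mul_left _ h2
      omega
    · obtain ⟨x, hx⟩ := Nat.exists_eq_add_of_le h2
      rw [hx] at h1 ⊢
      have h4 : C * (dd G S + x) = C * dd G S + C * x := by ring
      have h5 : β * (dd G S + x) = β * dd G S + β * x := by ring
      have h6 : β * x ≤ C * x := Nat.mul_le_mul_right _ (by omega)
      omega
  obtain ⟨F, hF1, hF2, hF3, hF4⟩ := parts_core (G := G) h3 (β := β) (k₀ := K) (D := D)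
    (M := C * T) (T := T) (g₀ := g₀) (B := B) (by omega) (by omega) (by omega) (by omega)
    le_rfl hsp hM (fun F h1 h2 => hfew F h1 fun P hP =>
      ⟨(h2 P hP).1, (h2 P hP).2.trans (by omega)⟩)
  refine ⟨F, hF1, hF2, fun P hP => ?_, fun U hU => ?_⟩
  · obtain ⟨p1, p2, p3, p4⟩ := hF3 P hP
    exact ⟨p1, p2, fun A hA hc => p3 A hA (by omega), p4⟩
  · have h1 := hF4 U hU
    have h2 : 4 * (β * U.card) ≤ 4 * (β * dd G U) + β * U.card := by
      have : 4 * U.card ≤ β * U.card := Nat.mul_le_mul_right _ (by omega)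
      omega
    have h4 : β * (3 * U.card) ≤ β * (4 * dd G U) := by
      have e1 : β * (3 * U.card) = 3 * (β * U.card) := by ring
      have e2 : β * (4 * dd G U) = 4 * (β * dd G U) := by ring
      omega
    exact Nat.le_of_mul_le_mul_left h4 (by omega)

/-- **(FT).** The hypothesis is the conclusion of `ext_e`. -/
theorem few_sets (hext : ∃ D K : ℕ, ∀ {V : Type} [Fintype V] [DecidableEq V] (G : SimpleGraph V)
    [DecidableRel G.Adj], (∀ v, G.degree v = 3) → ∀ P : Finset V, FarB G D P →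
    (∀ A ⊆ P, A.card < K → (G.induce (A : Set V)).IsAcyclic) →
    (∀ Y ⊆ P, ¬ (G.induce (Y : Set V)).IsAcyclic →
      ¬ (G.induce ((P \ Y : Finset V) : Set V)).IsAcyclic → K ≤ ee G Y (P \ Y)) →
    ∀ φ : V → ZMod 5, BdryOK G P φ → ExtFlow G P φ) :
    ∃ C : ℕ, ∀ {V : Type} [Fintype V] [DecidableEq V] (G : SimpleGraph V) [DecidableRel G.Adj],
      (∀ v, G.degree v = 3) → CycConn G 6 → ∀ T : ℕ, 1 ≤ T →
      (∀ U : Finset V, U.card ≤ C * T → C * U.card ≤ C * dd G U + U.card) →
      (¬ ∃ X : Fin T → Finset V, (∀ i i', i ≠ i' → Disjoint (X i) (X i')) ∧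
        ∀ i, ¬ (G.induce (X i : Set V)).IsAcyclic ∧ dd G (X i) ≤ C) →
      HasNZFlow (ZMod 5) G := by
  obtain ⟨K, hK⟩ := free_main hext
  obtain ⟨C, hC⟩ := exists_parts_ft K K
  refine ⟨C, fun {V} _ _ G _ h3 hc T hT hU hX => ?_⟩
  rcases isEmpty_or_nonempty V with hV | hV
  · exact ⟨fun _ _ => 0, fun u => hV.elim u, fun u => hV.elim u, fun u => hV.elim u⟩
  obtain ⟨F, hne, hdis, hF, hrest⟩ := hC G h3 T hT hU (fun F h1 h2 => by
    by_contra hcon
    push Not at hcon
    refine hX ⟨fun i => (F.equivFin.symm (Fin.castLE hcon i)).1, fun i i' hii => ?_, fun i =>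
      h2 _ (F.equivFin.symm (Fin.castLE hcon i)).2⟩
    refine h1 _ (F.equivFin.symm (Fin.castLE hcon i)).2 _
      (F.equivFin.symm (Fin.castLE hcon i')).2 fun h => hii ?_
    exact Fin.castLE_injective hcon (F.equivFin.symm.injective (Subtype.ext h)))
  let P : Fin F.card → Finset V := fun i => (F.equivFin.symm i).1
  have hP : ∀ i, P i ∈ F := fun i => (F.equivFin.symm i).2
  refine hK G h3 (k := 6) (by norm_num) hc (card_pos.2 hne) P (fun i j hij => ?_)
    (fun i => (hF _ (hP i)).1) (fun i => (hF _ (hP i)).2.1) (fun i => (hF _ (hP i)).2.2.1)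
    (fun i => (hF _ (hP i)).2.2.2) fun U hU' => ?_
  · exact hdis _ (hP i) _ (hP j) fun h => hij (F.equivFin.symm.injective (Subtype.ext h))
  · have h1 := hrest U fun Q hQ => by
      have h2 := hU' (F.equivFin ⟨Q, hQ⟩)
      simp only [P, Equiv.symm_apply_apply] at h2
      exact h2
    omega

/-- The form of the hand-in. -/
theorem few_sets_form (h : ∃ C : ℕ, ∀ {V : Type} [Fintype V] [DecidableEq V] (G : SimpleGraph V)
      [DecidableRel G.Adj], (∀ v, G.degree v = 3) → CycConn G 6 → ∀ T : ℕ, 1 ≤ T →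
      (∀ U : Finset V, U.card ≤ C * T → C * U.card ≤ C * dd G U + U.card) →
      (¬ ∃ X : Fin T → Finset V, (∀ i i', i ≠ i' → Disjoint (X i) (X i')) ∧
        ∀ i, ¬ (G.induce (X i : Set V)).IsAcyclic ∧ dd G (X i) ≤ C) →
      HasNZFlow (ZMod 5) G) :
    ∃ C : ℕ, ∀ (V : Type) [Fintype V] [DecidableEq V] (G : SimpleGraph V) [DecidableRel G.Adj],
    G.IsRegularOfDegree 3 →
    (∀ S : Finset V, ¬ (G.induce (S : Set V)).IsAcyclic →
      ¬ (G.induce ((Sᶜ : Finset V) : Set V)).IsAcyclic → 6 ≤ (G.interedges S Sᶜ).card) →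
    ∀ T : ℕ, 1 ≤ T →
    (∃ U : Finset V, U.card ≤ C * T ∧
      (2 * C + 1) * U.card < 2 * C * (G.induce (U : Set V)).edgeSet.ncard) ∨
    (∃ X : Fin T → Finset V, (∀ i i', i ≠ i' → Disjoint (X i) (X i')) ∧
      ∀ i, ¬ (G.induce (X i : Set V)).IsAcyclic ∧ (G.interedges (X i) (X i)ᶜ).card ≤ C) ∨
    ∀ i : ℕ, 5 ≤ i → HasNZFlow (ZMod i) G := by
  obtain ⟨C, hC⟩ := h
  refine ⟨C, ?_⟩
  intro V _ _ G _ h3 hS T hT
  by_cases hU : ∃ U : Finset V, U.card ≤ C * T ∧
      (2 * C + 1) * U.card < 2 * C * (G.induce (U : Set V)).edgeSet.ncard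
  · exact Or.inl hU
  by_cases hX : ∃ X : Fin T → Finset V, (∀ i i', i ≠ i' → Disjoint (X i) (X i')) ∧
      ∀ i, ¬ (G.induce (X i : Set V)).IsAcyclic ∧ (G.interedges (X i) (X i)ᶜ).card ≤ C
  · exact Or.inr (Or.inl hX)
  right
  right
  refine lift_five (hC G h3 (fun S h1 h2 => ?_) T hT (fun U hUc => ?_)
    fun ⟨X, h1, h2⟩ => hX ⟨X, h1, fun i => ⟨(h2 i).1, ?_⟩⟩)
  · rw [← dd_interedges]
    exact hS S h1 h2
  · by_contra hcon
    push Not at hcon
    refine hU ⟨U, hUc, ?_⟩
    have h1 := dd_add_edges h3 U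
    set e := (G.induce (U : Set V)).edgeSet.ncard with he
    have h2 : C * (dd G U + 2 * e) = C * (3 * U.card) := by rw [h1]
    have h4 : C * (dd G U + 2 * e) = C * dd G U + 2 * C * e := by ring
    have h5 : C * (3 * U.card) = C * U.card + 2 * C * U.card := by ring
    have h6 : (2 * C + 1) * U.card = 2 * C * U.card + U.card := by ring
    omega
  · rw [dd_interedges]
    exact (h2 i).2

end Pool.Agent.K5.FT
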