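import Mathlib
import Pool.Agent.Work.MP_974d84_co_k5.FewSets

/-!
# Circular flows of graphs with few disjoint parts with small boundary: the decomposition

The decomposition of `FewSets` with an arbitrarily sparse rest, and the partition inequality.
-/

set_option linter.unusedSectionVars false

namespace Pool.Agent.K5.FC

open Finset SimpleGraph Pool.Agent.Exp Pool.Agent.Log5 Pool.Agent.Log5.Clu Pool.Agent.K5 MP974d84

theorem sparse_mono {L β a d : ℕ} (hL : L ≤ β) (h : β * a ≤ β * d + a) : L * a ≤ L * d + a := by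
  rcases Nat.le_total a d with h2 | h2
  · have h4 : L * a ≤ L * d := Nat.mul_le_mul_left _ h2
    omega
  · obtain ⟨x, hx⟩ := Nat.exists_eq_add_of_le h2
    rw [hx] at h ⊢
    have h4 : β * (d + x) = β * d + β * x := by ring
    have h5 : L * (d + x) = L * d + L * x := by ring
    have h6 : L * x ≤ β * x := Nat.mul_le_mul_right _ hL
    omega

/-- **The decomposition**, with an arbitrarily sparse rest. -/
theorem exists_parts_fc (D K L : ℕ) : ∃ C : ℕ, ∀ {V : Type} [Fintype V] [DecidableEq V]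
    [Nonempty V] (G : SimpleGraph V) [DecidableRel G.Adj], (∀ v, G.degree v = 3) → ∀ T : ℕ, 1 ≤ T →
    (∀ U : Finset V, U.card ≤ C * T → C * U.card ≤ C * dd G U + U.card) →
    (∀ F : Finset (Finset V), (∀ P ∈ F, ∀ Q ∈ F, P ≠ Q → Disjoint P Q) →
      (∀ P ∈ F, ¬ (G.induce (P : Set V)).IsAcyclic ∧ dd G P ≤ C) → F.card < T) →
    ∃ F : Finset (Finset V), F.Nonempty ∧ (∀ P ∈ F, ∀ Q ∈ F, P ≠ Q → Disjoint P Q) ∧
      (∀ P ∈ F, ¬ (G.induce (P : Set V)).IsAcyclic ∧ FarB G D P ∧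
        (∀ A ⊆ P, A.card < K → (G.induce (A : Set V)).IsAcyclic) ∧
        ∀ Y ⊆ P, ¬ (G.induce (Y : Set V)).IsAcyclic →
          ¬ (G.induce ((P \ Y : Finset V) : Set V)).IsAcyclic → K ≤ ee G Y (P \ Y)) ∧
      ∀ U : Finset V, (∀ P ∈ F, Disjoint U P) → L * U.card ≤ L * dd G U + U.card := by
  obtain ⟨β, hβ⟩ : ∃ β : ℕ, β = D + 4 + L := ⟨_, rfl⟩
  obtain ⟨g₀, hg₀⟩ : ∃ g₀ : ℕ, g₀ = K + D + 2 * β * K + 1 := ⟨_, rfl⟩
  obtain ⟨B, hB⟩ : ∃ B : ℕ, B = 3 * β * g₀ + 4 * β * K := ⟨_, rfl⟩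
  obtain ⟨C, hC⟩ : ∃ C : ℕ, C = 2 * B + 4 * g₀ + 3 * D + β := ⟨_, rfl⟩
  refine ⟨C, ?_⟩
  intro V _ _ _ G _ h3 T hT hU hfew
  have hM : 2 * ((3 * β * g₀ + 4 * β * K) * T) + 4 * (g₀ * T) + 3 * D ≤ C * T := by
    rw [← hB]
    have h1 : C * T = 2 * (B * T) + 4 * (g₀ * T) + 3 * (D * T) + β * T := by
      rw [hC]
      ring
    have h2 : D * 1 ≤ D * T := Nat.mul_le_mul_left _ hT
    omega
  have hsp : ∀ S : Finset V, S.card ≤ C * T → β * S.card ≤ β * dd G S + S.card :=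
    fun S hS => sparse_mono (by omega) (hU S hS)
  obtain ⟨F, hF1, hF2, hF3, hF4⟩ := FT.parts_core (G := G) h3 (β := β) (k₀ := K) (D := D)
    (M := C * T) (T := T) (g₀ := g₀) (B := B) (by omega) (by omega) (by omega) (by omega)
    (by omega) hsp hM (fun F h1 h2 => hfew F h1 fun P hP =>
      ⟨(h2 P hP).1, (h2 P hP).2.trans (by omega)⟩)
  refine ⟨F, hF1, hF2, fun P hP => ?_, fun U hU => sparse_mono (by omega) (hF4 U hU)⟩
  obtain ⟨p1, p2, p3, p4⟩ := hF3 P hP
  exact ⟨p1, p2, fun A hA hc => p3 A hA (by omega), p4⟩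

section

variable {V : Type} [Fintype V] [DecidableEq V] {G : SimpleGraph V} [DecidableRel G.Adj]

/-- **The partition inequality.** -/
theorem part_ineq_r (h3 : ∀ v, G.degree v = 3) {k : ℕ} (hk : 3 ≤ k) (hc : CycConn G k)
    {L : ℕ} (hL : 1 ≤ L) {m : ℕ} (hm : 0 < m) (P : Fin m → Finset V)
    (hcyc : ∀ i, ¬ (G.induce (P i : Set V)).IsAcyclic)
    (hrest : ∀ U : Finset V, (∀ i, Disjoint U (P i)) → L * U.card ≤ L * dd G U + U.card)
    (p : V → ℕ) (hp : ∀ i, ∀ u ∈ P i, ∀ v ∈ P i, p u = p v) :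
    (4 * k / (k + 1) - 1 / L : ℝ) * (((univ.image p).card : ℝ) - 1) ≤
      ((univ.filter fun e : V × V => G.Adj e.1 e.2 ∧ p e.1 ≠ p e.2).card : ℝ) := by
  classical
  have hne : ∀ i, (P i).Nonempty := by
    intro i
    by_contra h
    rw [not_nonempty_iff_eq_empty] at h
    apply hcyc i
    rw [h]
    intro v
    exact absurd v.2 (by simp)
  let C : ℕ → Finset V := fun j => univ.filter fun v => p v = j
  let J := univ.image p
  let JB := J.filter fun j => ∃ i, P i ⊆ C j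
  let JA := J.filter fun j => ¬ ∃ i, P i ⊆ C j
  have hPC : ∀ i, ∀ v ∈ P i, P i ⊆ C (p v) := fun i v hv w hw =>
    mem_filter.2 ⟨mem_univ _, hp i w hw v hv⟩
  have hJAB : JB.card + JA.card = J.card := card_filter_add_card_filter_not _
  have hJB : 1 ≤ JB.card := by
    obtain ⟨v, hv⟩ := hne ⟨0, hm⟩
    refine card_pos.2 ⟨p v, mem_filter.2 ⟨mem_image_of_mem p (mem_univ v), ⟨0, hm⟩, ?_⟩⟩
    exact hPC _ v hv
  let U : Finset V := univ.filter fun v => p v ∈ JA
  have hU : ∀ i, Disjoint U (P i) := by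
    intro i
    rw [Finset.disjoint_left]
    intro v hv hvi
    have h1 := (mem_filter.1 (mem_filter.1 hv).2).2
    exact h1 ⟨i, hPC i v hvi⟩
  have hUcard : JA.card ≤ U.card := by
    have h1 : JA ⊆ U.image p := by
      intro j hj
      obtain ⟨v, -, hv⟩ := mem_image.1 (mem_filter.1 hj).1
      refine mem_image.2 ⟨v, mem_filter.2 ⟨mem_univ _, ?_⟩, hv⟩
      rw [hv]
      exact hj
    exact (card_le_card h1).trans card_image_le
  -- classes outside
  have hA3 : ∀ j ∈ JA, 3 ≤ dd G (C j) := by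
    intro j hj
    obtain ⟨v, -, hv⟩ := mem_image.1 (mem_filter.1 hj).1
    refine three_le_dd G h3 (k := k) (by omega) hc ⟨v, mem_filter.2 ⟨mem_univ _, hv⟩⟩ ?_
    obtain ⟨w, hw⟩ := hne ⟨0, hm⟩
    refine ⟨w, mem_compl.2 fun h => ?_⟩
    have h1 := hPC _ w hw
    rw [(mem_filter.1 h).2] at h1
    exact (mem_filter.1 hj).2 ⟨_, h1⟩
  have hBk : 2 ≤ JB.card → ∀ j ∈ JB, k ≤ dd G (C j) := by
    intro h2 j hj
    obtain ⟨i, hi⟩ := (mem_filter.1 hj).2
    obtain ⟨j', hj', hjj⟩ := exists_mem_ne (by omega : 1 < JB.card) j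
    obtain ⟨i', hi'⟩ := (mem_filter.1 hj').2
    refine hc (C j) (not_acyclic_mono hi (hcyc i)) (not_acyclic_mono ?_ (hcyc i'))
    intro v hv
    refine mem_compl.2 fun h => hjj ?_
    rw [← (mem_filter.1 (hi' hv)).2, (mem_filter.1 h).2]
  have hSB : dd G U ≤ ∑ j ∈ JB, dd G (C j) := by
    unfold dd
    rw [card_eq_sum_card_fiberwise (f := fun e : V × V => p e.2) (t := JB)
      (s := Pool.Agent.Work.MP_314beb_co.cut G U)]
    · refine sum_le_sum fun j _ => ?_
      have h1 := dd_compl G (C j)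
      unfold dd at h1
      rw [← h1]
      refine card_le_card fun e he => ?_
      have h2 := (mem_cut G).1 (mem_filter.1 he).1
      have h4 := (mem_filter.1 he).2
      rw [mem_cut]
      refine ⟨mem_compl.2 fun h => ?_, fun h => (mem_compl.1 h) (mem_filter.2 ⟨mem_univ _, h4⟩),
        h2.2.2⟩
      have h5 : p e.1 = j := (mem_filter.1 h).2
      have h6 : p e.1 ∈ JA := (mem_filter.1 h2.1).2
      apply h2.2.1
      refine mem_filter.2 ⟨mem_univ _, ?_⟩
      have h7 : p e.2 = p e.1 := h4.trans h5.symm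
      rw [h7]
      exact h6
    · intro e he
      have h2 := (mem_cut G).1 (mem_coe.1 he)
      by_contra h
      apply h2.2.1
      refine mem_filter.2 ⟨mem_univ _, mem_filter.2 ⟨mem_image_of_mem p (mem_univ _), ?_⟩⟩
      intro h5
      exact h (mem_coe.2 (mem_filter.2 ⟨mem_image_of_mem p (mem_univ _), h5⟩))
  have hN : (univ.filter fun e : V × V => G.Adj e.1 e.2 ∧ p e.1 ≠ p e.2).card =
      ∑ j ∈ JB, dd G (C j) + ∑ j ∈ JA, dd G (C j) := by
    rw [cross_sum p]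
    exact (sum_filter_add_sum_filter_not _ _ _).symm
  have hSA : 3 * JA.card ≤ ∑ j ∈ JA, dd G (C j) := by
    have := sum_le_sum hA3
    rw [sum_const, smul_eq_mul] at this
    omega
  obtain ⟨SB, hSBdef⟩ : ∃ SB : ℕ, SB = ∑ j ∈ JB, dd G (C j) := ⟨_, rfl⟩
  obtain ⟨SA, hSAdef⟩ : ∃ SA : ℕ, SA = ∑ j ∈ JA, dd G (C j) := ⟨_, rfl⟩
  rw [← hSBdef] at hSB hN
  rw [← hSAdef] at hSA hN
  have hUk := hrest U hU
  -- over the reals
  have hkR : (3 : ℝ) ≤ k := by exact_mod_cast hk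
  have hk1 : (0 : ℝ) < (k : ℝ) + 1 := by linarith
  have hLR : (1 : ℝ) ≤ L := by exact_mod_cast hL
  have hL0 : (0 : ℝ) < L := by linarith
  obtain ⟨δ, hδ⟩ : ∃ δ : ℝ, δ = 1 / L := ⟨_, rfl⟩
  have hδ0 : 0 ≤ δ := by
    rw [hδ]
    positivity
  have hδ1 : δ ≤ 1 := by
    rw [hδ, div_le_iff₀ hL0]
    linarith
  have hδL : δ * L = 1 := by
    rw [hδ]
    field_simp
  have hsp : (1 - δ) * (JA.card : ℝ) ≤ SB := by
    have h1 : (L : ℝ) * U.card ≤ L * dd G U + U.card := by exact_mod_cast hUk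
    have h2 : (1 - δ) * (U.card : ℝ) ≤ dd G U := by
      have h4 := mul_le_mul_of_nonneg_left h1 hδ0
      have h5 : δ * ((L : ℝ) * U.card) = U.card := by rw [← mul_assoc, hδL, one_mul]
      have h6 : δ * ((L : ℝ) * dd G U + U.card) = dd G U + δ * U.card := by
        rw [mul_add, ← mul_assoc, hδL, one_mul]
      linarith
    have h4 : (JA.card : ℝ) ≤ U.card := by exact_mod_cast hUcard
    have h5 : ((dd G U : ℕ) : ℝ) ≤ SB := by exact_mod_cast hSB
    have h6 := mul_le_mul_of_nonneg_left h4 (by linarith : (0 : ℝ) ≤ 1 - δ)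
    linarith
  obtain ⟨μ, hμ⟩ : ∃ μ : ℝ, μ = 4 * k / (k + 1) := ⟨_, rfl⟩
  have hμ3 : 3 ≤ μ := by
    rw [hμ, le_div_iff₀ hk1]
    linarith
  have hμ4 : μ ≤ 4 := by
    rw [hμ, div_le_iff₀ hk1]
    linarith
  have hSAR : 3 * (JA.card : ℝ) ≤ SA := by exact_mod_cast hSA
  have hJR : ((univ.image p).card : ℝ) = JB.card + JA.card := by
    have : JB.card + JA.card = (univ.image p).card := hJAB
    exact_mod_cast this.symm
  have hNR : ((univ.filter fun e : V × V => G.Adj e.1 e.2 ∧ p e.1 ≠ p e.2).card : ℝ) =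
      SB + SA := by exact_mod_cast hN
  rw [hNR, hJR, ← hδ, ← hμ]
  have ha0 : (0 : ℝ) ≤ JA.card := by positivity
  rcases Nat.lt_or_ge JB.card 2 with h2 | h2
  · have h4 : JB.card = 1 := by omega
    rw [h4]
    have h5 := mul_le_mul_of_nonneg_right (show μ - δ ≤ 4 - δ by linarith) ha0
    push_cast
    linarith
  · have hkb : (k : ℝ) * JB.card ≤ SB := by
      have := sum_le_sum (hBk h2)
      rw [sum_const, smul_eq_mul, ← hSBdef] at this
      have h4 : (JB.card : ℝ) * k ≤ SB := by exact_mod_cast this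
      linarith
    have hb0 : (0 : ℝ) ≤ JB.card := by positivity
    -- the convex combination
    have hl0 : 0 ≤ μ - 3 := by linarith
    have hl1 : 0 ≤ 4 - μ := by linarith
    have e1 : (4 - μ) * k = μ := by
      rw [hμ]
      field_simp
      ring
    have e2 := mul_le_mul_of_nonneg_left hsp hl0
    have e3 := mul_le_mul_of_nonneg_left hkb hl1
    have e4 : (4 - μ) * ((k : ℝ) * JB.card) = μ * JB.card := by rw [← mul_assoc, e1]
    have e5 : (0 : ℝ) ≤ (4 - μ) * δ * JA.card := by positivity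
    have e6 : 0 ≤ (μ - δ) := by linarith
    have e7 : 0 ≤ δ * JB.card := by positivity
    nlinarith [e2, e3, e4, e5, e6, e7]

end

end Pool.Agent.K5.FC
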