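import Mathlib
import Pool.Agent.Work.MP_974d84_co_k5.FewSets
import Pool.Agent.Work.MP_974d84_co_k5.FewCircA
import Pool.Agent.Work.MP_974d84_co_k5.SupR
import Pool.Agent.Work.MP_974d84_co_k5.MainEC

/-!
# Few small shores: circular flows

Real flows of the quotient of a cubic graph by disjoint parts of large cyclic connectivity whose
boundary edges are far apart, and signs inside of the parts.
-/

set_option linter.unusedSectionVars false
set_option linter.unusedVariables false

namespace Pool.Agent.K5.FC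

open Finset SimpleGraph Pool.Agent.Exp Pool.Agent.Log5 Pool.Agent.Log5.Clu MP974d84
  Pool.Agent.Work.MP_314beb_co

variable {V : Type} [Fintype V] [DecidableEq V] {G : SimpleGraph V} [DecidableRel G.Adj]

/-- **The partition inequality.** -/
theorem part_ineq_c (h3 : ∀ v, G.degree v = 3) {k : ℕ} (hk : 3 ≤ k) (hc : CycConn G k)
    {c : ℝ} (hc0 : 0 < c) (hck : 2 / (k : ℝ) ≤ c)
    {m : ℕ} (hm : 0 < m) (P : Fin m → Finset V)
    (hcyc : ∀ i, ¬ (G.induce (P i : Set V)).IsAcyclic)
    (hrest : ∀ U : Finset V, (∀ i, Disjoint U (P i)) →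
      (2 - 3 * c) * U.card ≤ (c - 2 / k) * dd G U)
    (p : V → ℕ) (hp : ∀ i, ∀ u ∈ P i, ∀ v ∈ P i, p u = p v) :
    2 * (((univ.image p).card : ℝ) - 1) ≤
      c * ((univ.filter fun e : V × V => G.Adj e.1 e.2 ∧ p e.1 ≠ p e.2).card : ℝ) := by
  classical
  have hne : ∀ i, (P i).Nonempty := by
    intro i
    by_contra h
    rw [not_nonempty_iff_eq_empty] at h
    apply hcyc i
    rw [h]
    intro v
    exact absurd v.2 (by simp)
  let C : ℕ → Finset V := fun j => univ.filter fun v => p v = j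
  let J := univ.image p
  let JB := J.filter fun j => ∃ i, P i ⊆ C j
  let JA := J.filter fun j => ¬ ∃ i, P i ⊆ C j
  have hPC : ∀ i, ∀ v ∈ P i, P i ⊆ C (p v) := fun i v hv w hw =>
    mem_filter.2 ⟨mem_univ _, hp i w hw v hv⟩
  have hJAB : JB.card + JA.card = J.card := card_filter_add_card_filter_not _
  have hJB : 1 ≤ JB.card := by
    obtain ⟨v, hv⟩ := hne ⟨0, hm⟩
    refine card_pos.2 ⟨p v, mem_filter.2 ⟨mem_image_of_mem p (mem_univ v), ⟨0, hm⟩, ?_⟩⟩
    exact hPC _ v hv
  let U : Finset V := univ.filter fun v => p v ∈ JA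
  have hU : ∀ i, Disjoint U (P i) := by
    intro i
    rw [Finset.disjoint_left]
    intro v hv hvi
    have h1 := (mem_filter.1 (mem_filter.1 hv).2).2
    exact h1 ⟨i, hPC i v hvi⟩
  have hUcard : JA.card ≤ U.card := by
    have h1 : JA ⊆ U.image p := by
      intro j hj
      obtain ⟨v, -, hv⟩ := mem_image.1 (mem_filter.1 hj).1
      refine mem_image.2 ⟨v, mem_filter.2 ⟨mem_univ _, ?_⟩, hv⟩
      rw [hv]
      exact hj
    exact (card_le_card h1).trans card_image_le
  -- classes outside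
  have hA3 : ∀ j ∈ JA, 3 ≤ dd G (C j) := by
    intro j hj
    obtain ⟨v, -, hv⟩ := mem_image.1 (mem_filter.1 hj).1
    refine three_le_dd G h3 (k := k) (by omega) hc ⟨v, mem_filter.2 ⟨mem_univ _, hv⟩⟩ ?_
    obtain ⟨w, hw⟩ := hne ⟨0, hm⟩
    refine ⟨w, mem_compl.2 fun h => ?_⟩
    have h1 := hPC _ w hw
    rw [(mem_filter.1 h).2] at h1
    exact (mem_filter.1 hj).2 ⟨_, h1⟩
  have hBk : 2 ≤ JB.card → ∀ j ∈ JB, k ≤ dd G (C j) := by
    intro h2 j hj
    obtain ⟨i, hi⟩ := (mem_filter.1 hj).2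
    obtain ⟨j', hj', hjj⟩ := exists_mem_ne (by omega : 1 < JB.card) j
    obtain ⟨i', hi'⟩ := (mem_filter.1 hj').2
    refine hc (C j) (not_acyclic_mono hi (hcyc i)) (not_acyclic_mono ?_ (hcyc i'))
    intro v hv
    refine mem_compl.2 fun h => hjj ?_
    rw [← (mem_filter.1 (hi' hv)).2, (mem_filter.1 h).2]
  have hSB : dd G U ≤ ∑ j ∈ JB, dd G (C j) := by
    unfold dd
    rw [card_eq_sum_card_fiberwise (f := fun e : V × V => p e.2) (t := JB) (s := Pool.Agent.Work.MP_314beb_co.cut G U)]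
    · refine sum_le_sum fun j _ => ?_
      have h1 := dd_compl G (C j)
      unfold dd at h1
      rw [← h1]
      refine card_le_card fun e he => ?_
      have h2 := (mem_cut G).1 (mem_filter.1 he).1
      have h4 := (mem_filter.1 he).2
      rw [mem_cut]
      refine ⟨mem_compl.2 fun h => ?_, fun h => (mem_compl.1 h) (mem_filter.2 ⟨mem_univ _, h4⟩),
        h2.2.2⟩
      have h5 : p e.1 = j := (mem_filter.1 h).2
      have h6 : p e.1 ∈ JA := (mem_filter.1 h2.1).2
      apply h2.2.1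
      refine mem_filter.2 ⟨mem_univ _, ?_⟩
      have h7 : p e.2 = p e.1 := h4.trans h5.symm
      rw [h7]
      exact h6
    · intro e he
      have h2 := (mem_cut G).1 (mem_coe.1 he)
      by_contra h
      apply h2.2.1
      refine mem_filter.2 ⟨mem_univ _, mem_filter.2 ⟨mem_image_of_mem p (mem_univ _), ?_⟩⟩
      intro h5
      exact h (mem_coe.2 (mem_filter.2 ⟨mem_image_of_mem p (mem_univ _), h5⟩))
  have hN : (univ.filter fun e : V × V => G.Adj e.1 e.2 ∧ p e.1 ≠ p e.2).card =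
      ∑ j ∈ JB, dd G (C j) + ∑ j ∈ JA, dd G (C j) := by
    rw [cross_sum p]
    exact (sum_filter_add_sum_filter_not _ _ _).symm
  have hSA : 3 * JA.card ≤ ∑ j ∈ JA, dd G (C j) := by
    have := sum_le_sum hA3
    rw [sum_const, smul_eq_mul] at this
    omega
  set SB := ∑ j ∈ JB, dd G (C j) with hSBdef
  set SA := ∑ j ∈ JA, dd G (C j) with hSAdef
  have hUk := hrest U hU
  have hkR : (0 : ℝ) < k := by exact_mod_cast (by omega : 0 < k)
  have a1 : (JA.card : ℝ) ≤ U.card := by exact_mod_cast hUcard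
  have a2 : (dd G U : ℝ) ≤ SB := by exact_mod_cast hSB
  have a3 : 3 * (JA.card : ℝ) ≤ SA := by exact_mod_cast hSA
  have a4 : (0 : ℝ) ≤ JA.card := Nat.cast_nonneg _
  have a5 : (0 : ℝ) ≤ SB := Nat.cast_nonneg _
  have a6 : (0 : ℝ) ≤ c - 2 / k := by linarith
  -- the deficit of the classes outside
  have a7 : (2 - 3 * c) * (JA.card : ℝ) ≤ (c - 2 / k) * SB := by
    have b1 : (c - 2 / k) * (dd G U : ℝ) ≤ (c - 2 / k) * SB := mul_le_mul_of_nonneg_left a2 a6
    rcases le_total 0 (2 - 3 * c) with h | h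
    · exact (mul_le_mul_of_nonneg_left a1 h).trans (hUk.trans b1)
    · exact (mul_nonpos_of_nonpos_of_nonneg h a4).trans (mul_nonneg a6 a5)
  have a8 : c * (3 * (JA.card : ℝ)) ≤ c * SA := mul_le_mul_of_nonneg_left a3 hc0.le
  have hmain : 2 * ((JB.card : ℝ) + JA.card - 1) ≤ c * (SB + SA) := by
    rcases Nat.lt_or_ge JB.card 2 with h2 | h2
    · have h4 : (JB.card : ℝ) = 1 := by
        have : JB.card = 1 := by omega
        exact_mod_cast this
      have h5 : 0 ≤ 2 / (k : ℝ) * SB := by positivity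
      rw [h4]
      nlinarith only [a7, a8, h5]
    · have hkb : (JB.card : ℝ) * k ≤ SB := by
        have := sum_le_sum (hBk h2)
        rw [sum_const, smul_eq_mul] at this
        exact_mod_cast this
      have h5 : 2 * (JB.card : ℝ) ≤ 2 / k * SB := by
        rw [div_mul_eq_mul_div, le_div_iff₀ hkR]
        linarith only [hkb]
      nlinarith only [a7, a8, h5]
  rw [hN]
  have hJ : (univ.image p).card = J.card := rfl
  rw [hJ, ← hJAB]
  push_cast
  exact hmain


/-- **Real flow of the quotient.** -/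
theorem quot_real {Q : Type} [Fintype Q] [DecidableEq Q] (c : V → Q) {d : ℝ} (hd : 0 ≤ d)
    (hpart : ∀ p : Q → ℕ, 2 * (((univ.image p).card : ℝ) - 1) ≤
      d * ((univ.filter fun e : V × V => G.Adj e.1 e.2 ∧ p (c e.1) ≠ p (c e.2)).card : ℝ)) :
    ∃ (z : V → V → ℝ) (k : Q → ℤ), (∀ u v, z u v = - z v u) ∧ (∀ u v, |z u v| ≤ d) ∧
      (∀ u v, ¬ (G.Adj u v ∧ c u ≠ c v) → z u v = 0) ∧
      ∀ q, ∑ v ∈ univ.filter (fun v => c v = q), ∑ w, z v w =
        (∑ v ∈ univ.filter (fun v => c v = q), ∑ w, if G.Adj v w ∧ c v ≠ c w then (1 : ℝ) else 0) +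
          2 * k q := by
  classical
  obtain ⟨σ, hσa, hσ1⟩ := exists_sgn V
  let I : V → V → Prop := fun v w => G.Adj v w ∧ c v ≠ c w
  have hIs : ∀ v w, I v w ↔ I w v := fun v w =>
    ⟨fun h => ⟨h.1.symm, h.2.symm⟩, fun h => ⟨h.1.symm, h.2.symm⟩⟩
  let E : Type := {e : V × V // I e.1 e.2}
  let s : E → Q := fun e => c e.1.1
  let t : E → Q := fun e => c e.1.2
  have hsumE : ∀ F : V × V → ℝ, ∑ e : E, F e.1 =
      ∑ v, ∑ w, if I v w then F (v, w) else 0 := by
    intro F
    have h2 : ∑ e ∈ univ.filter (fun e : V × V => I e.1 e.2), F e =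
        ∑ e : {e : V × V // I e.1 e.2}, F e.1 :=
      Finset.sum_subtype _ (fun e => by simp) F
    show ∑ e : {e : V × V // I e.1 e.2}, F e.1 = _
    rw [← h2, sum_filter, Fintype.sum_prod_type]
  have hθ : ∀ p : Q → ℕ, ((univ.image p).card : ℝ) - 1 ≤
      (d / 2) * ((univ.filter (fun e => p (s e) ≠ p (t e))).card : ℝ) := by
    intro p
    have h1 := hpart p
    have h2 : ((univ.filter (fun e : E => p (s e) ≠ p (t e))).card : ℝ) =
        ((univ.filter fun e : V × V => G.Adj e.1 e.2 ∧ p (c e.1) ≠ p (c e.2)).card : ℝ) := by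
      rw [card_filter, card_filter]
      push_cast
      rw [hsumE (fun e => if p (c e.1) ≠ p (c e.2) then (1 : ℝ) else 0), Fintype.sum_prod_type]
      refine sum_congr rfl fun v _ => sum_congr rfl fun w _ => ?_
      by_cases h3 : G.Adj v w
      · by_cases h4 : c v = c w
        · simp [I, h3, h4]
        · simp [I, h3, h4]
      · simp [I, h3]
    rw [h2]
    linarith
  -- signs with total zero
  let sg' : V → V → ℤ := fun v w => if I v w then σ v w else 0
  have hsa : MP974d84.Anti sg' := by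
    intro v w
    by_cases h : I v w
    · simp only [sg', if_pos h, if_pos ((hIs v w).1 h)]
      exact hσa v w h.1.ne
    · simp only [sg', if_neg h, if_neg (fun h' => h ((hIs v w).2 h'))]
      norm_num
  let x0 : Q → ℤ := fun q => ∑ v ∈ univ.filter (fun v => c v = q), ∑ w, sg' v w
  have hx0 : ∑ q, x0 q = 0 := by
    have h1 : ∑ q, x0 q = ∑ v, ∑ w, sg' v w := sum_fiberwise _ _ _
    rw [h1]
    exact MP974d84.anti_inner hsa univ
  let nb : V → V → ℤ := fun v w => if I v w ∧ σ v w = -1 then 1 else 0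
  have hpar : ∀ v w, (if I v w then (1 : ℤ) else 0) = sg' v w + 2 * nb v w := by
    intro v w
    by_cases h : I v w
    · rcases hσ1 v w with h1 | h1
      · simp [sg', nb, h, h1]
      · simp [sg', nb, h, h1]
    · simp [sg', nb, h]
  obtain ⟨z, hz, hzv⟩ := Energy.coset s t (d / 2) (by positivity) hθ (q := 2) (by norm_num) x0
    (by rw [hx0]; exact dvd_zero _)
  choose κ hκ using hzv
  have hz' : ∀ e, |z e| ≤ d / 2 := by
    intro e
    have h1 := hz e
    have h2 : ((2 : ℕ) : ℝ) / 2 * (d / 2) = d / 2 := by norm_num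
    rwa [h2] at h1
  let zz : V → V → ℝ := fun v w => if h : I v w then z ⟨(v, w), h⟩ - z ⟨(w, v), (hIs v w).1 h⟩ else 0
  refine ⟨zz, fun q => κ q - ∑ v ∈ univ.filter (fun v => c v = q), ∑ w, nb v w, fun u v => ?_,
    fun u v => ?_, fun u v h => ?_, fun q => ?_⟩
  · by_cases h : I u v
    · have h' := (hIs u v).1 h
      simp only [zz, dif_pos h, dif_pos h']
      ring
    · have h' : ¬ I v u := fun h1 => h ((hIs u v).2 h1)
      simp only [zz, dif_neg h, dif_neg h', neg_zero]
  · by_cases h : I u v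
    · simp only [zz, dif_pos h]
      have h1 := hz' ⟨(u, v), h⟩
      have h2 := hz' ⟨(v, u), (hIs u v).1 h⟩
      refine (abs_sub _ _).trans ?_
      linarith
    · simp only [zz, dif_neg h, abs_zero]
      exact hd
  · exact dif_neg h
  · have h1 : Energy.net s t z q = ∑ v ∈ univ.filter (fun v => c v = q), ∑ w, zz v w := by
      unfold Energy.net
      simp only [Energy.inc_apply]
      let ze : V × V → ℝ := fun e => if h : I e.1 e.2 then z ⟨e, h⟩ else 0
      have h2 : ∀ e : E, z e = ze e.1 := by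
        intro e
        show z e = if h : I e.1.1 e.1.2 then z ⟨e.1, h⟩ else 0
        rw [dif_pos e.2]
      have h4 : ∑ e : E, z e * ((if s e = q then (1 : ℝ) else 0) - if t e = q then 1 else 0) =
          ∑ e : E, (fun e : V × V => ze e * ((if c e.1 = q then (1 : ℝ) else 0) -
            if c e.2 = q then 1 else 0)) e.1 := by
        refine sum_congr rfl fun e _ => ?_
        rw [h2 e]
      rw [h4]
      refine (hsumE (fun e : V × V => ze e * ((if c e.1 = q then (1 : ℝ) else 0) -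
        if c e.2 = q then 1 else 0))).trans ?_
      have h5 : ∀ v w, (if I v w then ze (v, w) * ((if c v = q then (1 : ℝ) else 0) -
          if c w = q then 1 else 0) else 0) =
          ze (v, w) * (if c v = q then 1 else 0) - ze (v, w) * (if c w = q then 1 else 0) := by
        intro v w
        by_cases h : I v w
        · rw [if_pos h]
          ring
        · have h6 : ze (v, w) = 0 := dif_neg h
          rw [if_neg h, h6]
          ring
      simp only [h5, sum_sub_distrib]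
      have h6 : ∑ v, ∑ w, ze (v, w) * (if c w = q then (1 : ℝ) else 0) =
          ∑ v, ∑ w, ze (w, v) * (if c v = q then (1 : ℝ) else 0) := sum_comm
      rw [h6, ← sum_sub_distrib, sum_filter]
      refine sum_congr rfl fun v _ => ?_
      rw [← sum_sub_distrib]
      by_cases hv : c v = q
      · simp only [if_pos hv, mul_one]
        refine sum_congr rfl fun w _ => ?_
        by_cases h : I v w
        · have h' := (hIs v w).1 h
          simp only [ze, zz, dif_pos h, dif_pos h']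
        · have h' : ¬ I w v := fun h1 => h ((hIs v w).2 h1)
          simp only [ze, zz, dif_neg h, dif_neg h', sub_zero]
      · simp only [if_neg hv, mul_zero, sub_self, sum_const_zero]
    rw [← h1, hκ q]
    have h2 : (∑ v ∈ univ.filter (fun v => c v = q), ∑ w, if I v w then (1 : ℝ) else 0) =
        ((x0 q + 2 * ∑ v ∈ univ.filter (fun v => c v = q), ∑ w, nb v w : ℤ) : ℝ) := by
      have h4 : (∑ v ∈ univ.filter (fun v => c v = q), ∑ w, if I v w then (1 : ℤ) else 0) =
          x0 q + 2 * ∑ v ∈ univ.filter (fun v => c v = q), ∑ w, nb v w := by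
        simp only [hpar, sum_add_distrib, ← mul_sum]
        rfl
      rw [← h4]
      push_cast
      rfl
    have h4 : (∑ v ∈ univ.filter (fun v => c v = q), ∑ w,
        if G.Adj v w ∧ c v ≠ c w then (1 : ℝ) else 0) =
        ∑ v ∈ univ.filter (fun v => c v = q), ∑ w, if I v w then (1 : ℝ) else 0 := by
      refine sum_congr rfl fun v _ => sum_congr rfl fun w _ => ?_
      rfl
    rw [h4, h2]
    push_cast
    ring

/-- **Signs of graphs with disjoint parts in which all boundary flows extend.** -/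
theorem signs_of_free (h3 : ∀ v, G.degree v = 3) {k : ℕ} (hk : 3 ≤ k) (hc : CycConn G k)
    {d : ℝ} (hd0 : 0 < d) (hd1 : d < 1) (hdk : 2 / (k : ℝ) ≤ d)
    {m : ℕ} (hm : 0 < m) (P : Fin m → Finset V)
    (hdis : ∀ i j, i ≠ j → Disjoint (P i) (P j))
    (hcyc : ∀ i, ¬ (G.induce (P i : Set V)).IsAcyclic)
    (hb : ∀ i, ∀ v ∈ P i, ∀ w w', w ∉ P i → w' ∉ P i → G.Adj v w → G.Adj v w' → w = w')
    (hext : ∀ i, ∀ q : V → ℝ, (∀ v ∈ P i, (∃ w, G.Adj v w ∧ w ∉ P i) → |q v| ≤ 1) →
      (∀ v ∈ P i, (∀ w, G.Adj v w → w ∈ P i) → q v = 0) →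
      (∃ t : ℤ, ∑ v ∈ P i, q v +
        ((P i).filter fun v => ∃ w, G.Adj v w ∧ w ∉ P i).card = 2 * t) →
      ∃ x : V → ℤ, (∀ v ∈ P i, x v = 1 ∨ x v = -1) ∧
        ∀ Y ⊆ P i, |∑ v ∈ Y, ((x v : ℝ) + q v)| ≤ d * ee G Y (P i \ Y))
    (hrest : ∀ U : Finset V, (∀ i, Disjoint U (P i)) →
      (2 - 3 * d) * U.card ≤ (d - 2 / k) * dd G U) :
    ∃ x : V → ℤ, (∀ v, x v = 1 ∨ x v = -1) ∧
      ∀ X : Finset V, |∑ v ∈ X, (x v : ℝ)| ≤ d * dd G X := by
  classical
  have huniq : ∀ i j v, v ∈ P i → v ∈ P j → i = j := by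
    intro i j v hi hj
    by_contra h
    exact Finset.disjoint_left.1 (hdis i j h) hi hj
  let c' : V → Fin m ⊕ V := fun v => if h : ∃ i, v ∈ P i then Sum.inl h.choose else Sum.inr v
  have hin : ∀ i v, v ∈ P i → c' v = Sum.inl i := by
    intro i v hv
    have h : ∃ i, v ∈ P i := ⟨i, hv⟩
    simp only [c', dif_pos h]
    rw [huniq _ i v h.choose_spec hv]
  have hout : ∀ v, (∀ i, v ∉ P i) → c' v = Sum.inr v := by
    intro v hv
    have h : ¬ ∃ i, v ∈ P i := fun ⟨i, hi⟩ => hv i hi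
    simp only [c', dif_neg h]
  have hceq : ∀ u v, c' u = c' v ↔ u = v ∨ ∃ i, u ∈ P i ∧ v ∈ P i := by
    intro u v
    constructor
    · intro h
      by_cases hu : ∃ i, u ∈ P i
      · obtain ⟨i, hi⟩ := hu
        by_cases hv : ∃ j, v ∈ P j
        · obtain ⟨j, hj⟩ := hv
          rw [hin i u hi, hin j v hj] at h
          have := Sum.inl.inj h
          subst this
          exact Or.inr ⟨i, hi, hj⟩
        · rw [hin i u hi, hout v fun j hj => hv ⟨j, hj⟩] at h
          exact absurd h (by simp)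
      · by_cases hv : ∃ j, v ∈ P j
        · obtain ⟨j, hj⟩ := hv
          rw [hin j v hj, hout u fun j hj => hu ⟨j, hj⟩] at h
          exact absurd h (by simp)
        · rw [hout u fun j hj => hu ⟨j, hj⟩, hout v fun j hj => hv ⟨j, hj⟩] at h
          exact Or.inl (Sum.inr.inj h)
    · rintro (rfl | ⟨i, hu, hv⟩)
      · rfl
      · rw [hin i u hu, hin i v hv]
  let Q : Type := {q : Fin m ⊕ V // q ∈ univ.image c'}
  let c : V → Q := fun v => ⟨c' v, mem_image_of_mem c' (mem_univ v)⟩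
  have hc1 : ∀ u v, c u = c v ↔ c' u = c' v := fun u v => Subtype.ext_iff
  have hcc : ∀ u v, c u = c v ↔ u = v ∨ ∃ i, u ∈ P i ∧ v ∈ P i := fun u v =>
    (hc1 u v).trans (hceq u v)
  have hcs : Function.Surjective c := by
    rintro ⟨q, hq⟩
    obtain ⟨v, -, hv⟩ := mem_image.1 hq
    exact ⟨v, Subtype.ext hv⟩
  have hpart : ∀ p : Q → ℕ, 2 * (((univ.image p).card : ℝ) - 1) ≤
      d * ((univ.filter fun e : V × V => G.Adj e.1 e.2 ∧ p (c e.1) ≠ p (c e.2)).card : ℝ) := by
    intro p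
    have h1 := part_ineq_c h3 hk hc hd0 hdk hm P hcyc hrest (fun v => p (c v))
      (fun i u hu v hv => by
        have : c u = c v := (hcc u v).2 (Or.inr ⟨i, hu, hv⟩)
        simp only [this])
    have h2 : univ.image (fun v => p (c v)) = univ.image p := by
      ext j
      simp only [mem_image, mem_univ, true_and]
      constructor
      · rintro ⟨v, hv⟩
        exact ⟨c v, hv⟩
      · rintro ⟨q, hq⟩
        obtain ⟨v, rfl⟩ := hcs q
        exact ⟨v, hq⟩
    rw [h2] at h1
    exact h1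
  obtain ⟨z, κ, hz1, hz2, hz3, hz4⟩ := quot_real c hd0.le hpart
  let o : V → ℝ := fun v => ∑ w, z v w
  -- the classes
  have hclP : ∀ i v, v ∈ P i → univ.filter (fun w => c w = c v) = P i := by
    intro i v hv
    ext w
    simp only [mem_filter, mem_univ, true_and]
    rw [hcc]
    constructor
    · rintro (h5 | ⟨j, h5, h6⟩)
      · rw [h5]
        exact hv
      · have := huniq i j v hv h6
        subst this
        exact h5
    · intro hw
      exact Or.inr ⟨i, hw, hv⟩
  have hcl1 : ∀ v, (∀ i, v ∉ P i) → univ.filter (fun w => c w = c v) = {v} := by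
    intro v hv
    ext w
    simp only [mem_filter, mem_univ, true_and, mem_singleton]
    rw [hcc]
    constructor
    · rintro (h5 | ⟨i, _, h5⟩)
      · exact h5
      · exact absurd h5 (hv i)
    · exact fun h => Or.inl h
  -- cross edges at a vertex of a part
  have hcross : ∀ i v w, v ∈ P i → ((G.Adj v w ∧ c v ≠ c w) ↔ (G.Adj v w ∧ w ∉ P i)) := by
    intro i v w hv
    constructor
    · rintro ⟨h1, h2⟩
      exact ⟨h1, fun h => h2 ((hcc v w).2 (Or.inr ⟨i, hv, h⟩))⟩
    · rintro ⟨h1, h2⟩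
      refine ⟨h1, fun h => ?_⟩
      rcases (hcc v w).1 h with h5 | ⟨j, h5, h6⟩
      · exact h1.ne h5
      · have := huniq i j v hv h5
        subst this
        exact h2 h6
  have ho0 : ∀ i, ∀ v ∈ P i, (∀ w, G.Adj v w → w ∈ P i) → o v = 0 := by
    intro i v hv h
    refine sum_eq_zero fun w _ => hz3 v w fun h1 => ?_
    have h2 := (hcross i v w hv).1 h1
    exact h2.2 (h w h2.1)
  have ho1 : ∀ i, ∀ v ∈ P i, |o v| ≤ 1 := by
    intro i v hv
    by_cases h : ∃ w, G.Adj v w ∧ w ∉ P i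
    · obtain ⟨w, hw1, hw2⟩ := h
      have h1 : o v = z v w := by
        refine sum_eq_single w (fun u _ huw => hz3 v u fun h2 => ?_)
          fun h => absurd (mem_univ _) h
        have h4 := (hcross i v u hv).1 h2
        exact huw (hb i v hv u w h4.2 hw2 h4.1 hw1)
      rw [h1]
      exact (hz2 v w).trans hd1.le
    · push Not at h
      rw [ho0 i v hv h, abs_zero]
      norm_num
  have hdeg : ∀ i, ∀ v ∈ P i, (∑ w, if G.Adj v w ∧ c v ≠ c w then (1 : ℝ) else 0) =
      if ∃ w, G.Adj v w ∧ w ∉ P i then 1 else 0 := by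
    intro i v hv
    by_cases h : ∃ w, G.Adj v w ∧ w ∉ P i
    · rw [if_pos h]
      obtain ⟨w, hw1, hw2⟩ := h
      rw [sum_eq_single w (fun u _ huw => if_neg fun h2 => ?_) fun h => absurd (mem_univ _) h]
      · exact if_pos ((hcross i v w hv).2 ⟨hw1, hw2⟩)
      · have h4 := (hcross i v u hv).1 h2
        exact huw (hb i v hv u w h4.2 hw2 h4.1 hw1)
    · rw [if_neg h]
      push Not at h
      refine sum_eq_zero fun w _ => if_neg fun h1 => ?_
      have h2 := (hcross i v w hv).1 h1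
      exact h2.2 (h w h2.1)
  have hne : ∀ i, (P i).Nonempty := by
    intro i
    by_contra h
    rw [not_nonempty_iff_eq_empty] at h
    apply hcyc i
    rw [h]
    intro v
    exact absurd v.2 (by simp)
  have hpar : ∀ i, ∃ t : ℤ, ∑ v ∈ P i, (- o v) +
      ((P i).filter fun v => ∃ w, G.Adj v w ∧ w ∉ P i).card = 2 * t := by
    intro i
    obtain ⟨v, hv⟩ := hne i
    have h1 := hz4 (c v)
    rw [hclP i v hv] at h1
    rw [sum_congr rfl (hdeg i)] at h1
    refine ⟨- κ (c v), ?_⟩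
    rw [card_filter]
    push_cast
    rw [sum_neg_distrib]
    have h2 : ∑ v ∈ P i, o v = ∑ v ∈ P i, ∑ w, z v w := rfl
    rw [h2, h1]
    ring
  choose xx hx1 hx2 using fun i => hext i (fun v => - o v)
    (fun v hv _ => by rw [abs_neg]; exact ho1 i v hv)
    (fun v hv h => by rw [ho0 i v hv h, neg_zero]) (hpar i)
  -- the rest
  have hor : ∀ v, (∀ i, v ∉ P i) → o v = ((3 + 2 * κ (c v) : ℤ) : ℝ) := by
    intro v hv
    have h1 := hz4 (c v)
    rw [hcl1 v hv, sum_singleton, sum_singleton] at h1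
    have h2 : (∑ w, if G.Adj v w ∧ c v ≠ c w then (1 : ℝ) else 0) = 3 := by
      have h4 : ∀ w, (G.Adj v w ∧ c v ≠ c w) ↔ G.Adj v w := by
        intro w
        refine ⟨fun h => h.1, fun h => ⟨h, fun h5 => ?_⟩⟩
        rcases (hcc v w).1 h5 with h6 | ⟨i, h6, _⟩
        · exact h.ne h6
        · exact hv i h6
      simp only [h4]
      have h5 := h3 v
      rw [← card_neighborFinset_eq_degree, neighborFinset_eq_filter, card_filter] at h5
      exact_mod_cast h5
    rw [h2] at h1
    have h4 : o v = ∑ w, z v w := rfl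
    rw [h4, h1]
    push_cast
    ring
  have hor1 : ∀ v, (∀ i, v ∉ P i) → (3 + 2 * κ (c v) : ℤ) = 1 ∨ (3 + 2 * κ (c v) : ℤ) = -1 := by
    intro v hv
    have h1 : |o v| ≤ 3 * d := by
      have h2 : o v = ∑ w ∈ univ.filter (fun w => G.Adj v w), z v w := by
        show ∑ w, z v w = _
        rw [sum_filter]
        refine sum_congr rfl fun w _ => ?_
        by_cases h : G.Adj v w
        · rw [if_pos h]
        · rw [if_neg h, hz3 v w fun h' => h h'.1]
      rw [h2]
      refine (abs_sum_le_sum_abs _ _).trans ((sum_le_sum fun w _ => hz2 v w).trans ?_)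
      rw [sum_const, ← neighborFinset_eq_filter, card_neighborFinset_eq_degree, h3 v,
        nsmul_eq_mul]
      norm_num
    rw [hor v hv] at h1
    have h2 : |((3 + 2 * κ (c v) : ℤ) : ℝ)| < 3 := by linarith
    rw [abs_lt] at h2
    have h4 : (-3 : ℤ) < 3 + 2 * κ (c v) := by exact_mod_cast h2.1
    have h5 : (3 + 2 * κ (c v) : ℤ) < 3 := by exact_mod_cast h2.2
    omega
  let x : V → ℤ := fun v => if h : ∃ i, v ∈ P i then xx h.choose v else 3 + 2 * κ (c v)
  have hxi : ∀ i v, v ∈ P i → x v = xx i v := by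
    intro i v hv
    have h : ∃ i, v ∈ P i := ⟨i, hv⟩
    simp only [x, dif_pos h]
    rw [huniq _ i v h.choose_spec hv]
  have hxr : ∀ v, (∀ i, v ∉ P i) → x v = 3 + 2 * κ (c v) := by
    intro v hv
    have h : ¬ ∃ i, v ∈ P i := fun ⟨i, hi⟩ => hv i hi
    simp only [x, dif_neg h]
  refine ⟨x, fun v => ?_, fun Z => ?_⟩
  · by_cases h : ∃ i, v ∈ P i
    · obtain ⟨i, hi⟩ := h
      rw [hxi i v hi]
      exact hx1 i v hi
    · push Not at h
      rw [hxr v h]
      exact hor1 v h
  -- the cut condition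
  have e1 : ∑ v ∈ Z, (x v : ℝ) = ∑ v ∈ Z, o v +
      ∑ i, ∑ v ∈ Z ∩ P i, ((xx i v : ℝ) + - o v) := by
    have h1 : ∀ v ∈ Z, (x v : ℝ) = o v + ∑ i, if v ∈ P i then ((xx i v : ℝ) + - o v) else 0 := by
      intro v _
      by_cases h : ∃ i, v ∈ P i
      · obtain ⟨i, hi⟩ := h
        have h2 : (∑ j, if v ∈ P j then ((xx j v : ℝ) + - o v) else 0) = (xx i v : ℝ) + - o v := by
          rw [sum_eq_single i (fun j _ hj => if_neg fun h' => hj (huniq j i v h' hi))
            fun h => absurd (mem_univ _) h, if_pos hi]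
        rw [h2, hxi i v hi]
        ring
      · push Not at h
        have h2 : (∑ i, if v ∈ P i then ((xx i v : ℝ) + - o v) else 0) = 0 :=
          sum_eq_zero fun i _ => if_neg (h i)
        rw [h2, add_zero, hxr v h, hor v h]
    have h2 : ∑ v ∈ Z, ∑ i, (if v ∈ P i then ((xx i v : ℝ) + - o v) else 0) =
        ∑ i, ∑ v ∈ Z ∩ P i, ((xx i v : ℝ) + - o v) := by
      rw [sum_comm]
      refine sum_congr rfl fun i _ => ?_
      rw [← sum_filter, filter_mem_eq_inter]
    rw [sum_congr rfl h1, sum_add_distrib, h2]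
  have e2 : |∑ v ∈ Z, o v| ≤ d * ∑ v ∈ Z, ∑ w ∈ Zᶜ,
      (if G.Adj v w ∧ c v ≠ c w then (1 : ℝ) else 0) := by
    have h1 : ∑ v ∈ Z, o v = ∑ v ∈ Z, ∑ w ∈ Zᶜ, z v w := by
      have h2 : ∑ v ∈ Z, ∑ w ∈ Z, z v w = 0 := by
        have h4 : ∑ v ∈ Z, ∑ w ∈ Z, z v w = - ∑ v ∈ Z, ∑ w ∈ Z, z v w := by
          conv_lhs => rw [sum_comm]
          rw [← sum_neg_distrib]
          refine sum_congr rfl fun v _ => ?_
          rw [← sum_neg_distrib]
          exact sum_congr rfl fun w _ => hz1 w v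
        linarith
      have h4 : ∀ v, o v = ∑ w ∈ Z, z v w + ∑ w ∈ Zᶜ, z v w := fun v =>
        (sum_add_sum_compl Z _).symm
      simp only [h4, sum_add_distrib]
      rw [h2, zero_add]
    rw [h1, mul_sum]
    refine (abs_sum_le_sum_abs _ _).trans (sum_le_sum fun v _ => ?_)
    rw [mul_sum]
    refine (abs_sum_le_sum_abs _ _).trans (sum_le_sum fun w _ => ?_)
    by_cases h : G.Adj v w ∧ c v ≠ c w
    · rw [if_pos h, mul_one]
      exact hz2 v w
    · rw [if_neg h, hz3 v w h, abs_zero, mul_zero]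
  have e3 : ∀ i, |∑ v ∈ Z ∩ P i, ((xx i v : ℝ) + - o v)| ≤ d * ∑ v ∈ Z, ∑ w ∈ Zᶜ,
      (if G.Adj v w ∧ v ∈ P i ∧ w ∈ P i then (1 : ℝ) else 0) := by
    intro i
    refine (hx2 i _ inter_subset_right).trans (le_of_eq ?_)
    congr 1
    unfold ee
    rw [card_filter]
    push_cast
    rw [Fintype.sum_prod_type, ← sum_subset (subset_univ Z)]
    · refine sum_congr rfl fun v hv => ?_
      rw [← sum_subset (subset_univ Zᶜ)]
      · refine sum_congr rfl fun w hw => ?_
        have hw' := mem_compl.1 hw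
        congr 1
        simp only [mem_inter, mem_sdiff, hv, true_and, hw', false_and, not_false_eq_true, and_true,
          eq_iff_iff]
        tauto
      · intro w _ hw
        have hw' : w ∈ Z := by
          by_contra h
          exact hw (mem_compl.2 h)
        refine if_neg fun h => ?_
        have h1 := mem_sdiff.1 h.2.1
        exact h1.2 (mem_inter.2 ⟨hw', h1.1⟩)
    · intro v _ hv
      refine sum_eq_zero fun w _ => if_neg fun h => hv (mem_inter.1 h.1).1
  have e4 : (dd G Z : ℝ) = ∑ v ∈ Z, ∑ w ∈ Zᶜ, (if G.Adj v w then (1 : ℝ) else 0) := by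
    unfold dd cut
    rw [card_filter]
    push_cast
    rw [Fintype.sum_prod_type, ← sum_subset (subset_univ Z)]
    · refine sum_congr rfl fun v hv => ?_
      rw [← sum_subset (subset_univ Zᶜ)]
      · refine sum_congr rfl fun w hw => ?_
        have hw' := mem_compl.1 hw
        simp only [hv, hw', not_false_eq_true, true_and]
      · intro w _ hw
        have hw' : w ∈ Z := by
          by_contra h
          exact hw (mem_compl.2 h)
        exact if_neg fun h => h.2.1 hw'
    · intro v _ hv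
      exact sum_eq_zero fun w _ => if_neg fun h => hv h.1
  rw [e1, e4]
  refine (abs_add_le _ _).trans ((add_le_add e2 ((abs_sum_le_sum_abs _ _).trans
    (sum_le_sum fun i _ => e3 i))).trans ?_)
  rw [← mul_sum, ← mul_add]
  refine mul_le_mul_of_nonneg_left ?_ hd0.le
  have e5 : (∑ i, ∑ v ∈ Z, ∑ w ∈ Zᶜ, (if G.Adj v w ∧ v ∈ P i ∧ w ∈ P i then (1 : ℝ) else 0)) =
      ∑ v ∈ Z, ∑ w ∈ Zᶜ, ∑ i, (if G.Adj v w ∧ v ∈ P i ∧ w ∈ P i then (1 : ℝ) else 0) := by
    rw [sum_comm]
    exact sum_congr rfl fun v _ => sum_comm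
  rw [e5, ← sum_add_distrib]
  refine sum_le_sum fun v _ => ?_
  rw [← sum_add_distrib]
  refine sum_le_sum fun w _ => ?_
  by_cases h : G.Adj v w
  · rw [if_pos h]
    by_cases h1 : c v = c w
    · rw [if_neg fun h2 => h2.2 h1, zero_add]
      rcases (hcc v w).1 h1 with h5 | ⟨i, h5, h6⟩
      · exact absurd h5 h.ne
      · rw [sum_eq_single i (fun j _ hj => if_neg fun h' => hj (huniq j i v h'.2.1 h5))
          fun h => absurd (mem_univ _) h, if_pos ⟨h, h5, h6⟩]
    · rw [if_pos ⟨h, h1⟩, sum_eq_zero, add_zero]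
      intro i _
      exact if_neg fun h' => h1 ((hcc v w).2 (Or.inr ⟨i, h'.2.1, h'.2.2⟩))
  · rw [if_neg h, if_neg fun h2 => h h2.1, sum_eq_zero, add_zero]
    intro i _
    exact if_neg fun h' => h h'.1

end Pool.Agent.K5.FC

namespace Pool.Agent.K5.FC

open Finset SimpleGraph Pool.Agent.Exp Pool.Agent.Log5 Pool.Agent.Log5.Clu MP974d84

/-- **(FC).** Few small shores and no dense spots: balanced signs of the vertices. -/
theorem fc_main {k : ℕ} (hk : 3 ≤ k) {d : ℝ} (hd : 1 / 2 + 1 / (2 * (k : ℝ)) < d) (hd1 : d < 1) :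
    ∃ C : ℕ, ∀ {V : Type} [Fintype V] [DecidableEq V] (G : SimpleGraph V) [DecidableRel G.Adj],
      (∀ v, G.degree v = 3) → CycConn G k → ∀ T : ℕ, 1 ≤ T →
      (∀ U : Finset V, U.card ≤ C * T → C * U.card ≤ C * dd G U + U.card) →
      (¬ ∃ X : Fin T → Finset V, (∀ i i', i ≠ i' → Disjoint (X i) (X i')) ∧
        ∀ i, ¬ (G.induce (X i : Set V)).IsAcyclic ∧ dd G (X i) ≤ C) →
      ∃ x : V → ℤ, (∀ v, x v = 1 ∨ x v = -1) ∧
        ∀ X : Finset V, |∑ v ∈ X, (x v : ℝ)| ≤ d * dd G X := by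
  have hkR : (3 : ℝ) ≤ k := by exact_mod_cast hk
  have hk0 : (0 : ℝ) < k := by linarith
  have hkp : (0 : ℝ) < 1 / (2 * (k : ℝ)) := by positivity
  have hd2 : 0 < d - 1 / 2 := by linarith
  have hk2 : 2 / (k : ℝ) = 4 * (1 / (2 * (k : ℝ))) := by
    field_simp
    norm_num
  have hk6 : 1 / (2 * (k : ℝ)) ≤ 1 / 6 := by
    refine one_div_le_one_div_of_le (by norm_num) ?_
    linarith
  have hdk : 2 / (k : ℝ) ≤ d := by
    rw [hk2]
    linarith
  -- the inner connectivity
  obtain ⟨n, hn⟩ := exists_nat_gt (2 / (d - 1 / 2))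
  obtain ⟨κ, hκ⟩ : ∃ κ : ℕ, κ = n + 5 := ⟨_, rfl⟩
  have hκn : (n : ℝ) < κ := by
    rw [hκ]
    push_cast
    linarith
  have hκ0 : (0 : ℝ) < κ := by
    have : (0 : ℝ) ≤ n := Nat.cast_nonneg _
    linarith
  have hκd : 1 / 2 + 2 / (κ : ℝ) < d := by
    have h1 : 2 / (d - 1 / 2) < κ := hn.trans hκn
    rw [div_lt_iff₀ hd2] at h1
    have h2 : 2 / (κ : ℝ) < d - 1 / 2 := by
      rw [div_lt_iff₀ hκ0]
      linarith
    linarith
  obtain ⟨D, K, hext⟩ := Re.ext_signs_c (κ := κ) (by omega) (c := d) (by linarith)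
    (Re.main_ec (κ := κ) (by omega) hκd)
  -- the rest
  set γ : ℝ := (d - 2 / k) - (2 - 3 * d) with hγ
  have hγ0 : 0 < γ := by
    rw [hγ, hk2]
    linarith
  obtain ⟨L, hL⟩ := exists_nat_gt ((d - 2 / k) / γ)
  have hL0 : (0 : ℝ) < L := lt_of_le_of_lt (div_nonneg (by linarith) hγ0.le) hL
  have hLγ : (d - 2 / k) ≤ γ * L := by
    rw [div_lt_iff₀ hγ0] at hL
    linarith
  obtain ⟨C, hC⟩ := exists_parts_fc (D + 1) (K + κ) L
  refine ⟨C, fun {V} _ _ G _ h3 hc T hT hU hX => ?_⟩
  rcases isEmpty_or_nonempty V with hV | hV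
  · refine ⟨fun _ => 1, fun v => hV.elim v, fun X => ?_⟩
    have h1 : X = ∅ := eq_empty_of_isEmpty X
    rw [h1, sum_empty, abs_zero]
    exact mul_nonneg (by linarith) (Nat.cast_nonneg _)
  obtain ⟨F, hne, hdis, hF, hrest⟩ := hC G h3 T hT hU (fun F h1 h2 => by
    by_contra hcon
    push Not at hcon
    refine hX ⟨fun i => (F.equivFin.symm (Fin.castLE hcon i)).1, fun i i' hii => ?_, fun i =>
      h2 _ (F.equivFin.symm (Fin.castLE hcon i)).2⟩
    refine h1 _ (F.equivFin.symm (Fin.castLE hcon i)).2 _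
      (F.equivFin.symm (Fin.castLE hcon i')).2 fun h => hii ?_
    exact Fin.castLE_injective hcon (F.equivFin.symm.injective (Subtype.ext h)))
  let P : Fin F.card → Finset V := fun i => (F.equivFin.symm i).1
  have hP : ∀ i, P i ∈ F := fun i => (F.equivFin.symm i).2
  refine signs_of_free h3 hk hc (by linarith) hd1 hdk (card_pos.2 hne) P (fun i j hij => ?_)
    (fun i => (hF _ (hP i)).1) (fun i => far_one (by omega) (hF _ (hP i)).2.1)
    (fun i q hq1 hq2 hq3 => ?_) fun U hU' => ?_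
  · exact hdis _ (hP i) _ (hP j) fun h => hij (F.equivFin.symm.injective (Subtype.ext h))
  · obtain ⟨-, hfar, hgir, hcut⟩ := hF _ (hP i)
    obtain ⟨x, hx1, -, hx2⟩ := hext G h3 (P i) (hfar.mono (by omega))
      (fun A hA hA' => hgir A hA (by omega))
      (fun Y hY h1 h2 => (by omega : κ ≤ K + κ).trans (hcut Y hY h1 h2)) q hq1 hq2 hq3
    exact ⟨x, hx1, hx2⟩
  · have h1 := hrest U fun Q hQ => by
      have h2 := hU' (F.equivFin ⟨Q, hQ⟩)
      simp only [P, Equiv.symm_apply_apply] at h2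
      exact h2
    have h2 : (L : ℝ) * U.card ≤ L * dd G U + U.card := by exact_mod_cast h1
    have h4 : (0 : ℝ) ≤ U.card := Nat.cast_nonneg _
    have h5 : (0 : ℝ) ≤ d - 2 / k := by linarith
    have h6 : (d - 2 / k) * ((L : ℝ) * U.card) ≤ (d - 2 / k) * (L * dd G U + U.card) :=
      mul_le_mul_of_nonneg_left h2 h5
    have h7 : (d - 2 / k) * (U.card : ℝ) ≤ γ * L * U.card := mul_le_mul_of_nonneg_right hLγ h4
    have h8 : (L : ℝ) * ((2 - 3 * d) * U.card) ≤ L * ((d - 2 / k) * dd G U) := by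
      have e1 : (2 - 3 * d) = (d - 2 / k) - γ := by
        rw [hγ]
        ring
      rw [e1]
      nlinarith only [h6, h7]
    exact le_of_mul_le_mul_left h8 hL0

end Pool.Agent.K5.FC
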