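import Mathlib
import Pool.Agent.Work.MP_974d84_co_k5.Bead

/-!
# Division of a cubic graph into few highly connected parts and a sparse rest

A cubic graph in which all vertex sets with at most `N` elements are sparse, and which has no `m`
disjoint vertex sets which span circuits and are left by few edges, contains disjoint sets with far
apart boundaries and large inner cyclic cuts whose complement has at most `N` vertices, if `N` is at
least a constant times `m`.
-/

set_option linter.unusedSectionVars false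

namespace Pool.Agent.K5.Parts

open Finset SimpleGraph Pool.Agent.Exp Pool.Agent.Log5 Pool.Agent.Log5.Clu Pool.Agent.K5

section

variable {V : Type} [Fintype V] [DecidableEq V] (G : SimpleGraph V) [DecidableRel G.Adj]

/-- A family of disjoint sets which span circuits. -/
structure DFam (𝒞 : Finset (Finset V)) : Prop where
  disj : ∀ A ∈ 𝒞, ∀ B ∈ 𝒞, A ≠ B → Disjoint A B
  cyc : ∀ A ∈ 𝒞, ¬ (G.induce (A : Set V)).IsAcyclic

/-- The vertices outside of a family. -/
def rest (𝒞 : Finset (Finset V)) : Finset V := (𝒞.biUnion id)ᶜ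

variable {G}

theorem mem_rest {𝒞 : Finset (Finset V)} {v : V} : v ∈ rest 𝒞 ↔ ∀ A ∈ 𝒞, v ∉ A := by
  simp [rest]

theorem ne_of_cyc {A : Finset V} (h : ¬ (G.induce (A : Set V)).IsAcyclic) :
    A.Nonempty := by
  by_contra hne
  rw [not_nonempty_iff_eq_empty] at hne
  apply h
  rw [hne]
  intro v
  exact absurd v.2 (by simp)

theorem DFam.not_mem {𝒞 : Finset (Finset V)} (h : DFam G 𝒞) {X Y : Finset V} (hX : X ∈ 𝒞)
    (hY : Y ⊆ X) (hY0 : Y.Nonempty) : Y ∉ 𝒞.erase X := by
  intro hc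
  obtain ⟨hne, hc⟩ := mem_erase.1 hc
  obtain ⟨y, hy⟩ := hY0
  exact Finset.disjoint_left.1 (h.disj Y hc X hX hne) hy (hY hy)

/-- One member is divided. -/
theorem DFam.split {𝒞 : Finset (Finset V)} (h : DFam G 𝒞) {X Y : Finset V} (hX : X ∈ 𝒞)
    (hY : Y ⊆ X) (h1 : ¬ (G.induce (Y : Set V)).IsAcyclic)
    (h2 : ¬ (G.induce ((X \ Y : Finset V) : Set V)).IsAcyclic) :
    ∃ 𝒞' : Finset (Finset V), DFam G 𝒞' ∧ 𝒞'.card = 𝒞.card + 1 ∧
      ∑ A ∈ 𝒞', dd G A = ∑ A ∈ 𝒞, dd G A + 2 * ee G Y (X \ Y) ∧ rest 𝒞' = rest 𝒞 := by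
  classical
  have hY0 := ne_of_cyc h1
  have hZ0 := ne_of_cyc h2
  have hYZ : Disjoint Y (X \ Y) := disjoint_sdiff
  have hnY := h.not_mem hX hY hY0
  have hnZ := h.not_mem hX (sdiff_subset (s := X) (t := Y)) hZ0
  have hne : Y ≠ X \ Y := by
    intro he
    obtain ⟨y, hy⟩ := hY0
    exact Finset.disjoint_left.1 hYZ hy (he ▸ hy)
  have hnY' : Y ∉ insert (X \ Y) (𝒞.erase X) := by
    rw [mem_insert]
    rintro (he | he)
    · exact hne he
    · exact hnY he
  refine ⟨insert Y (insert (X \ Y) (𝒞.erase X)), ⟨?_, ?_⟩, ?_, ?_, ?_⟩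
  · have key : ∀ A ∈ 𝒞.erase X, Disjoint A X := fun A hA =>
      h.disj A (mem_erase.1 hA).2 X hX (mem_erase.1 hA).1
    intro A hA B hB hAB
    rw [mem_insert, mem_insert] at hA hB
    rcases hA with rfl | rfl | hA <;> rcases hB with rfl | rfl | hB
    · exact absurd rfl hAB
    · exact hYZ
    · exact ((key B hB).mono_right hY).symm
    · exact hYZ.symm
    · exact absurd rfl hAB
    · exact ((key B hB).mono_right sdiff_subset).symm
    · exact (key A hA).mono_right hY
    · exact (key A hA).mono_right sdiff_subset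
    · exact h.disj A (mem_erase.1 hA).2 B (mem_erase.1 hB).2 hAB
  · intro A hA
    rw [mem_insert, mem_insert] at hA
    rcases hA with rfl | rfl | hA
    · exact h1
    · exact h2
    · exact h.cyc A (mem_erase.1 hA).2
  · rw [card_insert_of_notMem hnY', card_insert_of_notMem hnZ, card_erase_of_mem hX]
    have := card_pos.2 ⟨X, hX⟩
    omega
  · rw [sum_insert hnY', sum_insert hnZ]
    have e1 : dd G X + ∑ A ∈ 𝒞.erase X, dd G A = ∑ A ∈ 𝒞, dd G A :=
      add_sum_erase 𝒞 (fun A => dd G A) hX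
    have e2 := bead_split (G := G) hY
    omega
  · ext v
    rw [mem_rest, mem_rest]
    constructor
    · intro hv A hA hvA
      by_cases hAX : A = X
      · subst hAX
        by_cases hvY : v ∈ Y
        · exact hv Y (mem_insert_self _ _) hvY
        · exact hv (A \ Y) (mem_insert_of_mem (mem_insert_self _ _)) (mem_sdiff.2 ⟨hvA, hvY⟩)
      · exact hv A (mem_insert_of_mem (mem_insert_of_mem (mem_erase.2 ⟨hAX, hA⟩))) hvA
    · intro hv A hA hvA
      rw [mem_insert, mem_insert] at hA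
      rcases hA with rfl | rfl | hA
      · exact hv X hX (hY hvA)
      · exact hv X hX (sdiff_subset hvA)
      · exact hv A (mem_erase.1 hA).2 hvA

/-- A subset of one member is moved outside. -/
theorem DFam.remove {𝒞 : Finset (Finset V)} (h : DFam G 𝒞) {X W : Finset V} (hX : X ∈ 𝒞)
    (hW : W ⊆ X) (h2 : ¬ (G.induce ((X \ W : Finset V) : Set V)).IsAcyclic) :
    ∃ 𝒞' : Finset (Finset V), DFam G 𝒞' ∧ 𝒞'.card = 𝒞.card ∧
      ∑ A ∈ 𝒞', dd G A + dd G X = ∑ A ∈ 𝒞, dd G A + dd G (X \ W) ∧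
      (rest 𝒞').card = (rest 𝒞).card + W.card := by
  classical
  have hZ0 := ne_of_cyc h2
  have hnZ := h.not_mem hX (sdiff_subset (s := X) (t := W)) hZ0
  refine ⟨insert (X \ W) (𝒞.erase X), ⟨?_, ?_⟩, ?_, ?_, ?_⟩
  · have key : ∀ A ∈ 𝒞.erase X, Disjoint A X := fun A hA =>
      h.disj A (mem_erase.1 hA).2 X hX (mem_erase.1 hA).1
    intro A hA B hB hAB
    rw [mem_insert] at hA hB
    rcases hA with rfl | hA <;> rcases hB with rfl | hB
    · exact absurd rfl hAB
    · exact ((key B hB).mono_right sdiff_subset).symm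
    · exact (key A hA).mono_right sdiff_subset
    · exact h.disj A (mem_erase.1 hA).2 B (mem_erase.1 hB).2 hAB
  · intro A hA
    rw [mem_insert] at hA
    rcases hA with rfl | hA
    · exact h2
    · exact h.cyc A (mem_erase.1 hA).2
  · rw [card_insert_of_notMem hnZ, card_erase_of_mem hX]
    have := card_pos.2 ⟨X, hX⟩
    omega
  · rw [sum_insert hnZ]
    have e1 : dd G X + ∑ A ∈ 𝒞.erase X, dd G A = ∑ A ∈ 𝒞, dd G A :=
      add_sum_erase 𝒞 (fun A => dd G A) hX
    omega
  · rw [← card_union_of_disjoint]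
    · congr 1
      ext v
      rw [mem_union, mem_rest, mem_rest]
      constructor
      · intro hv
        by_cases hvW : v ∈ W
        · exact Or.inr hvW
        · left
          intro A hA hvA
          by_cases hAX : A = X
          · subst hAX
            exact hv (A \ W) (mem_insert_self _ _) (mem_sdiff.2 ⟨hvA, hvW⟩)
          · exact hv A (mem_insert_of_mem (mem_erase.2 ⟨hAX, hA⟩)) hvA
      · intro hv A hA hvA
        rw [mem_insert] at hA
        rcases hv with hv | hv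
        · rcases hA with rfl | hA
          · exact hv X hX (sdiff_subset hvA)
          · exact hv A (mem_erase.1 hA).2 hvA
        · rcases hA with rfl | hA
          · exact (mem_sdiff.1 hvA).2 hv
          · exact Finset.disjoint_left.1 (h.disj A (mem_erase.1 hA).2 X hX (mem_erase.1 hA).1)
              hvA (hW hv)
    · rw [Finset.disjoint_left]
      intro v hv hvW
      exact mem_rest.1 hv X hX (hW hvW)

/-- The edges which leave the rest. -/
theorem dd_rest (𝒞 : Finset (Finset V)) : dd G (rest 𝒞) ≤ ∑ A ∈ 𝒞, dd G A := by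
  classical
  unfold rest
  rw [dd_compl]
  unfold dd
  refine le_trans (card_le_card ?_) card_biUnion_le
  intro p hp
  rw [mem_cut] at hp
  obtain ⟨A, hA, h1⟩ := mem_biUnion.1 hp.1
  refine mem_biUnion.2 ⟨A, hA, ?_⟩
  rw [mem_cut]
  exact ⟨h1, fun h => hp.2.1 (mem_biUnion.2 ⟨A, hA, h⟩), hp.2.2⟩

theorem dd_univ_zero : dd G (univ : Finset V) = 0 := by
  unfold dd
  rw [card_eq_zero, eq_empty_iff_forall_notMem]
  intro p hp
  rw [mem_cut] at hp
  exact hp.2.1 (mem_univ _)

/-- One member is dropped. -/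
theorem DFam.drop {𝒞 : Finset (Finset V)} (h : DFam G 𝒞) {X : Finset V} (hX : X ∈ 𝒞) :
    DFam G (𝒞.erase X) ∧ (𝒞.erase X).card + 1 = 𝒞.card ∧
      ∑ A ∈ 𝒞.erase X, dd G A + dd G X = ∑ A ∈ 𝒞, dd G A ∧
      (rest (𝒞.erase X)).card = (rest 𝒞).card + X.card := by
  classical
  refine ⟨⟨?_, ?_⟩, ?_, ?_, ?_⟩
  · intro A hA B hB hAB
    exact h.disj A (mem_erase.1 hA).2 B (mem_erase.1 hB).2 hAB
  · intro A hA
    exact h.cyc A (mem_erase.1 hA).2
  · exact card_erase_add_one hX
  · have e1 : dd G X + ∑ A ∈ 𝒞.erase X, dd G A = ∑ A ∈ 𝒞, dd G A :=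
      add_sum_erase 𝒞 (fun A => dd G A) hX
    omega
  · rw [← card_union_of_disjoint]
    · congr 1
      ext v
      rw [mem_union, mem_rest, mem_rest]
      constructor
      · intro hv
        by_cases hvX : v ∈ X
        · exact Or.inr hvX
        · left
          intro A hA hvA
          by_cases hAX : A = X
          · exact hvX (hAX ▸ hvA)
          · exact hv A (mem_erase.2 ⟨hAX, hA⟩) hvA
      · intro hv A hA hvA
        rcases hv with hv | hv
        · exact hv A (mem_erase.1 hA).2 hvA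
        · exact Finset.disjoint_left.1 (h.disj A (mem_erase.1 hA).2 X hX (mem_erase.1 hA).1)
            hvA hv
    · rw [Finset.disjoint_left]
      intro v hv hvX
      exact mem_rest.1 hv X hX hvX

/-- **Few highly connected parts and a sparse rest.** -/
theorem core (D k₀ m N : ℕ) [Nonempty V] (h3 : ∀ v, G.degree v = 3)
    (hg : Gir G (2 * ((D + 4) * k₀) + 1)) (hN : 8 * ((D + 4) * k₀) * m + 2 * D + 1 ≤ N)
    (hsp : ∀ U : Finset V, U.card ≤ N → (D + 4) * U.card ≤ (D + 4) * dd G U + U.card)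
    (hsh : ¬ ∃ X : Fin m → Finset V, (∀ i j, i ≠ j → Disjoint (X i) (X j)) ∧
      ∀ i, ¬ (G.induce (X i : Set V)).IsAcyclic ∧ dd G (X i) ≤ 4 * ((D + 4) * k₀)) :
    ∃ (s : ℕ) (P : Fin s → Finset V), 0 < s ∧ (∀ i j, i ≠ j → Disjoint (P i) (P j)) ∧
      (∀ i, ¬ (G.induce (P i : Set V)).IsAcyclic) ∧ (∀ i, FarB G D (P i)) ∧
      (∀ i, ∀ Y ⊆ P i, ¬ (G.induce (Y : Set V)).IsAcyclic →
        ¬ (G.induce ((P i \ Y : Finset V) : Set V)).IsAcyclic → k₀ ≤ ee G Y (P i \ Y)) ∧
      ∀ U : Finset V, (∀ i, Disjoint U (P i)) → U.card ≤ N := by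
  classical
  set β : ℕ := D + 4 with hβ
  set γ : ℕ := β * k₀ with hγ
  have hlarge : ∀ A : Finset V, ¬ (G.induce (A : Set V)).IsAcyclic → 2 * γ + 1 ≤ A.card :=
    fun A hA => by
      by_contra h
      exact hA (hg A (not_le.1 h))
  have hNuniv : ∀ U : Finset V, U.card ≤ N → U ≠ univ := by
    rintro U hU rfl
    have h1 := hsp _ hU
    rw [dd_univ_zero, Nat.mul_zero, Nat.zero_add] at h1
    have h2 : 0 < (univ : Finset V).card := card_pos.2 univ_nonempty
    have h4 : 2 * (univ : Finset V).card ≤ β * (univ : Finset V).card :=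
      Nat.mul_le_mul_right _ (by omega)
    omega
  have h0 : ¬ (G.induce ((univ : Finset V) : Set V)).IsAcyclic := by
    intro hac
    have h1 := dd_of_acyclic G h3 univ_nonempty hac
    rw [dd_univ_zero] at h1
    omega
  -- the extremal family
  let Φ : Finset (Finset V) → ℤ := fun 𝒞 =>
    (β : ℤ) * (∑ A ∈ 𝒞, dd G A : ℕ) - ((β : ℤ) - 2) * (rest 𝒞).card - 2 * γ * 𝒞.card
  let adm : Finset (Finset (Finset V)) := univ.filter fun 𝒞 =>
    DFam G 𝒞 ∧ (rest 𝒞).card ≤ N
  have hrest1 : rest ({univ} : Finset (Finset V)) = ∅ := by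
    rw [eq_empty_iff_forall_notMem]
    intro v hv
    exact mem_rest.1 hv univ (mem_singleton_self _) (mem_univ v)
  have hstart : ({univ} : Finset (Finset V)) ∈ adm := by
    refine mem_filter.2 ⟨mem_univ _, ⟨?_, ?_⟩, ?_⟩
    · intro A hA B hB hAB
      rw [mem_singleton] at hA hB
      exact absurd (hA.trans hB.symm) hAB
    · intro A hA
      rw [mem_singleton] at hA
      rw [hA]
      exact h0
    · rw [hrest1, card_empty]
      omega
  obtain ⟨𝒞, h𝒞, hmin⟩ := exists_min_image adm Φ ⟨_, hstart⟩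
  obtain ⟨-, hF, hR⟩ := mem_filter.1 h𝒞
  set S : ℕ := ∑ A ∈ 𝒞, dd G A with hS
  set R : ℕ := (rest 𝒞).card with hRdef
  set s : ℕ := 𝒞.card with hs
  have hΦ : Φ 𝒞 = (β : ℤ) * S - ((β : ℤ) - 2) * R - 2 * γ * s := rfl
  have hΦ1 : Φ {univ} = - (2 * γ) := by
    simp only [Φ, sum_singleton, dd_univ_zero, hrest1, card_empty, card_singleton]
    push_cast
    ring
  have hs1 : 1 ≤ s := by
    by_contra hlt
    have h1 : 𝒞 = ∅ := card_eq_zero.1 (by omega)
    refine hNuniv _ hR ?_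
    rw [h1]
    simp [rest]
  have hβ4 : (4 : ℤ) ≤ β := by exact_mod_cast (by omega : 4 ≤ β)
  have hγ0 : (0 : ℤ) ≤ γ := Nat.cast_nonneg _
  -- the rest is sparse
  have hRd : (β : ℤ) * R ≤ β * S + R := by
    have h1 : β * R ≤ β * dd G (rest 𝒞) + R := hsp _ hR
    have h2 : β * dd G (rest 𝒞) ≤ β * S := Nat.mul_le_mul_left β (dd_rest (G := G) 𝒞)
    have h4 : β * R ≤ β * S + R := h1.trans (Nat.add_le_add_right h2 _)
    exact_mod_cast h4
  have hbd : (β : ℤ) * S - ((β : ℤ) - 2) * R ≤ 2 * γ * ((s : ℤ) - 1) := by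
    have h1 := hmin _ hstart
    rw [hΦ, hΦ1] at h1
    linarith
  have hRγ : (R : ℤ) ≤ 2 * γ * ((s : ℤ) - 1) := by linarith
  have hSγ : (S : ℤ) ≤ 2 * γ * ((s : ℤ) - 1) := by
    have h1 : ((β : ℤ) - 2) * R ≤ ((β : ℤ) - 2) * (2 * γ * ((s : ℤ) - 1)) :=
      mul_le_mul_of_nonneg_left hRγ (by linarith)
    have h5 : (0 : ℤ) ≤ 2 * γ * ((s : ℤ) - 1) := by
      have : (1 : ℤ) ≤ s := by exact_mod_cast hs1
      exact mul_nonneg (by linarith) (by linarith)
    have h2 : (β : ℤ) * S ≤ β * (2 * γ * ((s : ℤ) - 1)) := by linarith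
    exact le_of_mul_le_mul_left h2 (by linarith)
  -- the number of parts
  have hsmall : (𝒞.filter fun A => dd G A ≤ 4 * γ).card < m := by
    by_contra hge
    apply hsh
    set 𝒮 := 𝒞.filter fun A => dd G A ≤ 4 * γ with h𝒮
    have h1 : m ≤ 𝒮.card := not_lt.1 hge
    set e := 𝒮.equivFin with he
    have hm : ∀ i : Fin m, (e.symm (Fin.castLE h1 i)).1 ∈ 𝒮 := fun i =>
      (e.symm (Fin.castLE h1 i)).2
    refine ⟨fun i => (e.symm (Fin.castLE h1 i)).1, ?_, ?_⟩
    · intro i j hij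
      refine hF.disj _ (mem_filter.1 (hm i)).1 _ (mem_filter.1 (hm j)).1 ?_
      intro hcon
      exact hij (Fin.castLE_injective h1 (e.symm.injective (Subtype.ext hcon)))
    · intro i
      exact ⟨hF.cyc _ (mem_filter.1 (hm i)).1, (mem_filter.1 (hm i)).2⟩
  have hs2 : (s : ℤ) ≤ 2 * m := by
    set a := (𝒞.filter fun A => dd G A ≤ 4 * γ).card with ha
    set b := (𝒞.filter fun A => ¬ dd G A ≤ 4 * γ).card with hb
    have hab : a + b = s := card_filter_add_card_filter_not _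
    have hbS : (4 * γ + 1) * b ≤ S := by
      calc (4 * γ + 1) * b = ∑ A ∈ 𝒞.filter (fun A => ¬ dd G A ≤ 4 * γ), (4 * γ + 1) := by
            rw [sum_const, smul_eq_mul, mul_comm]
        _ ≤ ∑ A ∈ 𝒞.filter (fun A => ¬ dd G A ≤ 4 * γ), dd G A :=
            sum_le_sum fun A hA => by
              have := (mem_filter.1 hA).2
              omega
        _ ≤ S := sum_le_sum_of_subset (filter_subset _ _)
    by_contra hcon
    have hba : (a : ℤ) + 1 ≤ b := by
      have h1 : (s : ℤ) = a + b := by exact_mod_cast hab.symm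
      have h2 : (a : ℤ) < m := by exact_mod_cast hsmall
      linarith
    have h5 : ((4 * γ + 1) * b : ℤ) ≤ 2 * γ * ((s : ℤ) - 1) := by
      refine le_trans ?_ hSγ
      exact_mod_cast hbS
    have h6 : (s : ℤ) = a + b := by exact_mod_cast hab.symm
    have h7 : 2 * (γ : ℤ) * (a + 1) ≤ 2 * γ * b := mul_le_mul_of_nonneg_left hba (by linarith)
    have h8 : (0 : ℤ) ≤ a := Nat.cast_nonneg _
    rw [h6] at h5
    nlinarith
  have hR2 : R ≤ 4 * γ * m := by
    have h1 : 2 * (γ : ℤ) * ((s : ℤ) - 1) ≤ 2 * γ * (2 * m) :=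
      mul_le_mul_of_nonneg_left (by linarith) (by linarith)
    have h2 : (R : ℤ) ≤ 4 * γ * m := by linarith
    exact_mod_cast h2
  have hS2 : S ≤ 4 * γ * m := by
    have h1 : 2 * (γ : ℤ) * ((s : ℤ) - 1) ≤ 2 * γ * (2 * m) :=
      mul_le_mul_of_nonneg_left (by linarith) (by linarith)
    have h2 : (S : ℤ) ≤ 4 * γ * m := by linarith
    exact_mod_cast h2
  have hN8 : 8 * γ * m = 4 * γ * m + 4 * γ * m := by ring
  have hddS : ∀ X ∈ 𝒞, dd G X ≤ S := fun X hX =>
    single_le_sum (f := fun A => dd G A) (fun _ _ => Nat.zero_le _) hX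
  -- the boundaries are far apart
  have hfar : ∀ X ∈ 𝒞, FarB G D X := by
    intro X hX W hWX hWD hWc
    by_contra hee
    have hee : 2 ≤ ee G W Xᶜ := by omega
    have h1 := bead_conn (G := G) h3 hWc
    have h2 := bead_sdiff (G := G) hWX
    have hdX : dd G (X \ W) + 2 ≤ dd G X + W.card := by omega
    have hWX' : (X \ W).card + W.card = X.card := card_sdiff_add_card_eq_card hWX
    have hXS := hddS X hX
    have hcyc : ¬ (G.induce ((X \ W : Finset V) : Set V)).IsAcyclic := by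
      intro hac
      have hXc : X.card ≤ dd G X + 2 * D := by
        rcases (X \ W).eq_empty_or_nonempty with he | hne
        · rw [he, card_empty] at hWX'
          omega
        · have h4 := dd_of_acyclic G h3 hne hac
          omega
      obtain ⟨d1, d2, d3, d4⟩ := hF.drop hX
      have hadm : 𝒞.erase X ∈ adm := mem_filter.2 ⟨mem_univ _, d1, by omega⟩
      have h5 := hmin _ hadm
      have h6 : Φ (𝒞.erase X) = (β : ℤ) * (S - dd G X) - ((β : ℤ) - 2) * (R + X.card)
          - 2 * γ * (s - 1) := by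
        simp only [Φ]
        have e1 : ((∑ A ∈ 𝒞.erase X, dd G A : ℕ) : ℤ) = S - dd G X := by
          have : ((∑ A ∈ 𝒞.erase X, dd G A : ℕ) : ℤ) + dd G X = S := by exact_mod_cast d3
          linarith
        have e2 : (((𝒞.erase X).card : ℕ) : ℤ) = s - 1 := by
          have : (((𝒞.erase X).card : ℕ) : ℤ) + 1 = s := by exact_mod_cast d2
          linarith
        have e3 : (((rest (𝒞.erase X)).card : ℕ) : ℤ) = R + X.card := by exact_mod_cast d4
        rw [e1, e2, e3]
      rw [hΦ, h6] at h5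
      have h7 : (2 * γ + 1 : ℤ) ≤ X.card := by exact_mod_cast hlarge X (hF.cyc X hX)
      have h8 : (0 : ℤ) ≤ dd G X := Nat.cast_nonneg _
      have h9 : 2 * (X.card : ℤ) ≤ ((β : ℤ) - 2) * X.card :=
        mul_le_mul_of_nonneg_right (by linarith) (Nat.cast_nonneg _)
      have h10 : (0 : ℤ) ≤ β * dd G X := mul_nonneg (by linarith) h8
      linarith
    obtain ⟨𝒟, d1, d2, d3, d4⟩ := hF.remove hX hWX hcyc
    have hadm : 𝒟 ∈ adm := mem_filter.2 ⟨mem_univ _, d1, by omega⟩
    have h5 := hmin _ hadm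
    have h6 : Φ 𝒟 = (β : ℤ) * (S + dd G (X \ W) - dd G X) - ((β : ℤ) - 2) * (R + W.card)
        - 2 * γ * s := by
      simp only [Φ]
      have e1 : ((∑ A ∈ 𝒟, dd G A : ℕ) : ℤ) = S + dd G (X \ W) - dd G X := by
        have : ((∑ A ∈ 𝒟, dd G A : ℕ) : ℤ) + dd G X = S + dd G (X \ W) := by
          exact_mod_cast d3
        linarith
      have e3 : (((rest 𝒟).card : ℕ) : ℤ) = R + W.card := by exact_mod_cast d4
      rw [e1, d2, e3]
    rw [hΦ, h6] at h5
    have h7 : (dd G (X \ W) : ℤ) + 2 ≤ dd G X + W.card := by exact_mod_cast hdX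
    have h8 : (β : ℤ) * (dd G (X \ W) - dd G X) ≤ β * (W.card - 2) :=
      mul_le_mul_of_nonneg_left (by linarith) (by linarith)
    have h9 : (W.card : ℤ) + 4 ≤ β := by
      have : W.card + 4 ≤ β := by omega
      exact_mod_cast this
    linarith
  -- the inner cyclic cuts are large
  have hcut : ∀ X ∈ 𝒞, ∀ Y ⊆ X, ¬ (G.induce (Y : Set V)).IsAcyclic →
      ¬ (G.induce ((X \ Y : Finset V) : Set V)).IsAcyclic → k₀ ≤ ee G Y (X \ Y) := by
    intro X hX Y hY h1 h2
    by_contra hlt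
    obtain ⟨𝒟, d1, d2, d3, d4⟩ := hF.split hX hY h1 h2
    have hadm : 𝒟 ∈ adm := mem_filter.2 ⟨mem_univ _, d1, by rw [d4]; exact hR⟩
    have h5 := hmin _ hadm
    have h6 : Φ 𝒟 = (β : ℤ) * (S + 2 * ee G Y (X \ Y)) - ((β : ℤ) - 2) * R
        - 2 * γ * (s + 1) := by
      simp only [Φ]
      have e1 : ((∑ A ∈ 𝒟, dd G A : ℕ) : ℤ) = S + 2 * ee G Y (X \ Y) := by
        exact_mod_cast d3
      have e2 : ((𝒟.card : ℕ) : ℤ) = s + 1 := by exact_mod_cast d2
      rw [e1, e2, d4]
    rw [hΦ, h6] at h5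
    have h7 : (ee G Y (X \ Y) : ℤ) + 1 ≤ k₀ := by
      have : ee G Y (X \ Y) + 1 ≤ k₀ := by omega
      exact_mod_cast this
    have h8 : (β : ℤ) * (ee G Y (X \ Y) + 1) ≤ β * k₀ :=
      mul_le_mul_of_nonneg_left h7 (by linarith)
    have h9 : (γ : ℤ) = β * k₀ := by
      rw [hγ]
      push_cast
      rfl
    linarith
  -- conclusion
  set e := 𝒞.equivFin with he
  have hmem : ∀ j : Fin 𝒞.card, (e.symm j).1 ∈ 𝒞 := fun j => (e.symm j).2
  refine ⟨𝒞.card, fun j => (e.symm j).1, hs1, ?_, fun j => hF.cyc _ (hmem j),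
    fun j => hfar _ (hmem j), fun j => hcut _ (hmem j), ?_⟩
  · intro j j' hjj
    refine hF.disj _ (hmem j) _ (hmem j') ?_
    intro hcon
    exact hjj (e.symm.injective (Subtype.ext hcon))
  · intro U hU
    refine le_trans (card_le_card ?_) hR
    intro v hv
    rw [mem_rest]
    intro A hA hvA
    have h1 := hU (e ⟨A, hA⟩)
    simp only [Equiv.symm_apply_apply] at h1
    exact Finset.disjoint_left.1 h1 hv hvA

end

/-- **Few highly connected parts and a forest.** -/
theorem exists_parts (D k₀ : ℕ) : ∃ C : ℕ, ∀ {V : Type} [Fintype V] [DecidableEq V]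
    [Nonempty V] (G : SimpleGraph V) [DecidableRel G.Adj], (∀ v, G.degree v = 3) →
    ∀ m : ℕ, 1 ≤ m → Gir G (C * m) →
    (¬ ∃ X : Fin m → Finset V, (∀ i j, i ≠ j → Disjoint (X i) (X j)) ∧
      ∀ i, ¬ (G.induce (X i : Set V)).IsAcyclic ∧ dd G (X i) ≤ C) →
    ∃ (s : ℕ) (P : Fin s → Finset V), 0 < s ∧ (∀ i j, i ≠ j → Disjoint (P i) (P j)) ∧
      (∀ i, ¬ (G.induce (P i : Set V)).IsAcyclic) ∧ (∀ i, FarB G D (P i)) ∧
      (∀ i, ∀ Y ⊆ P i, ¬ (G.induce (Y : Set V)).IsAcyclic →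
        ¬ (G.induce ((P i \ Y : Finset V) : Set V)).IsAcyclic → k₀ ≤ ee G Y (P i \ Y)) ∧
      ∀ U : Finset V, (∀ i, Disjoint U (P i)) → U.card ≤ dd G U := by
  refine ⟨8 * ((D + 4) * k₀) + 2 * D + 2, ?_⟩
  intro V _ _ _ G _ h3 m hm hg hsh
  set γ : ℕ := (D + 4) * k₀ with hγ
  set C : ℕ := 8 * γ + 2 * D + 2 with hC
  have hCm : 8 * γ * m + 2 * D + 2 ≤ C * m := by
    have h1 : C * m = 8 * γ * m + (2 * D + 2) * m := by rw [hC]; ring
    have h2 : (2 * D + 2) * 1 ≤ (2 * D + 2) * m := Nat.mul_le_mul_left _ hm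
    omega
  have hγm : γ * 1 ≤ γ * m := Nat.mul_le_mul_left _ hm
  have h8 : 8 * γ * m = 8 * (γ * m) := by ring
  have hforest : ∀ U : Finset V, U.card ≤ 8 * γ * m + 2 * D + 1 → U.card ≤ dd G U := by
    intro U hU
    rcases U.eq_empty_or_nonempty with rfl | hne
    · simp
    · have := dd_of_acyclic G h3 hne (hg U (by omega))
      omega
  obtain ⟨s, P, p1, p2, p3, p4, p5, p6⟩ := core (G := G) D k₀ m (8 * γ * m + 2 * D + 1) h3
    (fun A hA => hg A (by omega)) le_rfl
    (fun U hU => by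
      have h1 := Nat.mul_le_mul_left (D + 4) (hforest U hU)
      omega)
    (fun ⟨X, x1, x2⟩ => hsh ⟨X, x1, fun i => ⟨(x2 i).1, (x2 i).2.trans (by omega)⟩⟩)
  exact ⟨s, P, p1, p2, p3, p4, p5, fun U hU => hforest U (p6 U hU)⟩

end Pool.Agent.K5.Parts
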