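import Mathlib
import Pool.Agent.Work.MP_974d84_co_log.SparseLarge

/-!
# Sparse sets are large when the girth is large, general constant
-/

set_option linter.unusedSectionVars false

namespace Pool.Agent.K5

open Finset SimpleGraph Pool.Agent.Exp Pool.Agent.Log5
open Pool.Agent.Work.MP_314beb_co (cut inside)

variable {V : Type} [Fintype V] [DecidableEq V] {G : SimpleGraph V} [DecidableRel G.Adj]

/-- Sets with fewer than `(1 - η) |S|` boundary edges are large. -/
theorem sparse_gen (h3 : ∀ v, G.degree v = 3) {k : ℕ} (hg : Gir G k) {η : ℝ} (hη : 0 < η)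
    {j : ℕ} (hj : 2 * j + 2 < k) {S : Finset V} (hS : (dd G S : ℝ) < (1 - η) * S.card) :
    (1 + η / 6) ^ j ≤ S.card := by
  classical
  set c : ℝ := 1 - η with hc
  -- a minimal sparse subset
  obtain ⟨A, hA1, hA2⟩ := ((S.powerset).filter fun A => (dd G A : ℝ) < c * A.card).exists_min_image
    (fun A => A.card) ⟨S, mem_filter.2 ⟨mem_powerset_self S, hS⟩⟩
  rw [mem_filter, mem_powerset] at hA1
  obtain ⟨hAS, hAsp⟩ := hA1
  have hmin : ∀ B ⊆ A, B.card < A.card → c * (B.card : ℝ) ≤ dd G B := by
    intro B hB hlt
    by_contra h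
    push Not at h
    have := hA2 B (mem_filter.2 ⟨mem_powerset.2 (hB.trans hAS), h⟩)
    omega
  obtain ⟨v, hv⟩ : A.Nonempty := by
    rw [nonempty_iff_ne_empty]
    rintro rfl
    simp at hAsp
    have : (0 : ℝ) ≤ dd G (∅ : Finset V) := Nat.cast_nonneg _
    linarith
  have key : ∀ i ≤ j, (1 + η / 6) ^ i ≤ (Bl (RW G A) i v).card := by
    intro i
    induction i with
    | zero =>
      intro _
      rw [pow_zero]
      have : 0 < (Bl (RW G A) 0 v).card := card_pos.2 ⟨v, Bl_self 0 v⟩
      exact_mod_cast this
    | succ i ih =>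
      intro hi
      have h1 := ih (by omega)
      set B := Bl (RW G A) i v with hB
      have hBA : B ⊆ A := Bl_RW_sub hv i
      have hBb : B ⊆ Bl G.Adj j v :=
        (Bl_rel (fun _ _ h => h.1) i v).trans (Bl_mono (by omega) v)
      have h2 := inside_ball hg hj v B hBb
      have h4 := dd_add_inside G h3 B
      have h5 := dd_sdiff (G := G) hBA
      have hvB : v ∈ B := Bl_self i v
      have h6 : (A \ B).card + B.card = A.card := card_sdiff_add_card_eq_card hBA
      have hBpos : 0 < B.card := card_pos.2 ⟨v, hvB⟩
      have h7 := hmin (A \ B) sdiff_subset (by omega)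
      set a := ((cut G B).filter fun p => p.2 ∈ A).card with ha
      set b := ((cut G B).filter fun p => p.2 ∉ A).card with hb
      have h8 : a + b = dd G B := by
        unfold dd
        exact card_filter_add_card_filter_not (s := cut G B) (fun p => p.2 ∈ A)
      -- growth
      have h9 : a ≤ 3 * (Bl (RW G A) (i + 1) v \ B).card := by
        have hsub : (cut G B).filter (fun p => p.2 ∈ A) ⊆
            (Bl (RW G A) (i + 1) v \ B).biUnion fun y =>
              (G.neighborFinset y).image fun x => (x, y) := by
          rintro ⟨x, y⟩ hp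
          rw [mem_filter, mem_cut] at hp
          obtain ⟨⟨q1, q2, q3⟩, q4⟩ := hp
          simp only at q1 q2 q3 q4
          rw [mem_biUnion]
          refine ⟨y, mem_sdiff.2 ⟨mem_Bl_succ.2 (Or.inr ⟨x, q1, q3, hBA q1, q4⟩), q2⟩, ?_⟩
          rw [mem_image]
          exact ⟨x, (G.mem_neighborFinset y x).2 q3.symm, rfl⟩
        refine (card_le_card hsub).trans ?_
        rw [mul_comm]
        refine card_biUnion_le_card_mul _ _ 3 fun y _ => ?_
        refine card_image_le.trans (le_of_eq ?_)
        rw [card_neighborFinset_eq_degree, h3]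
      have h10 : (Bl (RW G A) (i + 1) v \ B).card + B.card = (Bl (RW G A) (i + 1) v).card :=
        card_sdiff_add_card_eq_card (Bl_mono (Nat.le_succ i) v)
      have r1 : (B.card : ℝ) ≤ dd G B := by
        have : B.card ≤ dd G B := by omega
        exact_mod_cast this
      have r2 : (a : ℝ) + b = dd G B := by exact_mod_cast h8
      have r3 : (dd G (A \ B) : ℝ) + b = dd G A + a := by exact_mod_cast h5
      have r4 : ((A \ B).card : ℝ) + B.card = A.card := by exact_mod_cast h6
      have r5 : (a : ℝ) ≤ 3 * (Bl (RW G A) (i + 1) v \ B).card := by exact_mod_cast h9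
      have r6 : ((Bl (RW G A) (i + 1) v \ B).card : ℝ) + B.card
          = (Bl (RW G A) (i + 1) v).card := by exact_mod_cast h10
      have r7 : c * ((A \ B).card : ℝ) = c * A.card - c * B.card := by
        rw [← r4]; ring
      have r8 : c * (B.card : ℝ) = B.card - η * B.card := by
        rw [hc]; ring
      have r9 : (1 + η / 6) * B.card ≤ (Bl (RW G A) (i + 1) v).card := by
        have e : (1 + η / 6) * (B.card : ℝ) = B.card + (η * B.card) / 6 := by ring
        rw [e]
        linarith
      calc (1 + η / 6) ^ (i + 1) = (1 + η / 6) * (1 + η / 6) ^ i := by ring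
        _ ≤ (1 + η / 6) * B.card := mul_le_mul_of_nonneg_left h1 (by positivity)
        _ ≤ _ := r9
  refine (key j le_rfl).trans ?_
  exact_mod_cast (card_le_card (Bl_RW_sub hv j)).trans (card_le_card hAS)

end Pool.Agent.K5
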