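import Mathlib
import Pool.Agent.Work.MP_974d84_co_k5.SparseGen

/-!
# Sparse sets without short circuits are large
-/

set_option linter.unusedSectionVars false

namespace Pool.Agent.K5.Ker

open Finset SimpleGraph Pool.Agent.Exp Pool.Agent.Log5
open Pool.Agent.Work.MP_314beb_co (cut inside)

variable {V : Type} [Fintype V] [DecidableEq V] {G : SimpleGraph V} [DecidableRel G.Adj]

/-- Small balls have only parent edges. -/
theorem inside_ball_loc {k j : ℕ} (hj : 2 * j + 2 < k) (v : V)
    (hg : ∀ U ⊆ Bl G.Adj j v, U.Nonempty → U.card < k → (inside G U).card + 2 ≤ 2 * U.card)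
    (B : Finset V) (hB : B ⊆ Bl G.Adj j v) : (inside G B).card ≤ 2 * B.card := by
  classical
  obtain ⟨lv, par, hpar, hlv⟩ := exists_parent (G := G) v j
  -- paths to the root
  have hpath : ∀ n : ℕ, ∀ u ∈ Bl G.Adj j v, lv u ≤ n → ∃ P : Finset V, u ∈ P ∧ v ∈ P ∧
      P.card ≤ n + 1 ∧ (∀ x ∈ P, x ∈ Bl G.Adj j v) ∧ ∀ x ∈ P, x ≠ v → par x ∈ P := by
    intro n
    induction n with
    | zero =>
      intro u hu hn
      have huv : u = v := by
        by_contra h
        have := (hpar u hu h).2.2
        omega
      subst huv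
      refine ⟨{u}, mem_singleton_self u, mem_singleton_self u, by simp, ?_, ?_⟩
      · intro x hx
        rw [mem_singleton.1 hx]
        exact hu
      · intro x hx hxu
        exact absurd (mem_singleton.1 hx) hxu
    | succ n ih =>
      intro u hu hn
      by_cases huv : u = v
      · subst huv
        refine ⟨{u}, mem_singleton_self u, mem_singleton_self u, by simp, ?_, ?_⟩
        · intro x hx
          rw [mem_singleton.1 hx]
          exact hu
        · intro x hx hxu
          exact absurd (mem_singleton.1 hx) hxu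
      · obtain ⟨h1, h2, h3⟩ := hpar u hu huv
        obtain ⟨P, p1, p2, p3, p4, p5⟩ := ih (par u) h1 (by omega)
        refine ⟨insert u P, mem_insert_self _ _, mem_insert_of_mem p2, ?_, ?_, ?_⟩
        · exact (card_insert_le _ _).trans (by omega)
        · intro x hx
          rcases mem_insert.1 hx with rfl | hx
          · exact hu
          · exact p4 x hx
        · intro x hx hxv
          rcases mem_insert.1 hx with rfl | hx
          · exact mem_insert_of_mem p1
          · exact mem_insert_of_mem (p5 x hx hxv)
  -- every edge is a parent edge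
  have hedge : ∀ x ∈ Bl G.Adj j v, ∀ y ∈ Bl G.Adj j v, G.Adj x y →
      (x ≠ v ∧ y = par x) ∨ (y ≠ v ∧ x = par y) := by
    intro x hx y hy hxy
    by_contra hcon
    push Not at hcon
    obtain ⟨P, p1, p2, p3, p4, p5⟩ := hpath j x hx (hlv x hx)
    obtain ⟨Q, q1, q2, q3, q4, q5⟩ := hpath j y hy (hlv y hy)
    set U := P ∪ Q with hU
    have hUb : ∀ z ∈ U, z ∈ Bl G.Adj j v := fun z hz => by
      rcases mem_union.1 hz with h | h
      · exact p4 z h
      · exact q4 z h
    have hUp : ∀ z ∈ U, z ≠ v → par z ∈ U := fun z hz hzv => by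
      rcases mem_union.1 hz with h | h
      · exact mem_union_left _ (p5 z h hzv)
      · exact mem_union_right _ (q5 z h hzv)
    have hUc : U.card < k := by
      have h0 : U.card ≤ P.card + Q.card := card_union_le P Q
      omega
    have h1 := hg U (fun z hz => hUb z hz) ⟨x, mem_union_left _ p1⟩ hUc
    -- many edges inside
    let E1 : Finset (V × V) := (U.erase v).image fun z => (z, par z)
    let E2 : Finset (V × V) := (U.erase v).image fun z => (par z, z)
    have c1 : E1.card = (U.erase v).card :=
      card_image_of_injective _ fun a b h => (Prod.ext_iff.1 h).1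
    have c2 : E2.card = (U.erase v).card :=
      card_image_of_injective _ fun a b h => (Prod.ext_iff.1 h).2
    have c0 : (U.erase v).card + 1 = U.card := card_erase_add_one (mem_union_left _ p2)
    have d12 : Disjoint E1 E2 := by
      rw [Finset.disjoint_left]
      intro p hp hp'
      obtain ⟨z, hz, rfl⟩ := mem_image.1 hp
      obtain ⟨z', hz', he⟩ := mem_image.1 hp'
      have e1 := (Prod.ext_iff.1 he).1
      have e2 := (Prod.ext_iff.1 he).2
      simp only at e1 e2
      have l1 := (hpar z (hUb z (mem_of_mem_erase hz)) (ne_of_mem_erase hz)).2.2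
      have l2 := (hpar z' (hUb z' (mem_of_mem_erase hz')) (ne_of_mem_erase hz')).2.2
      rw [e1] at l2
      rw [← e2] at l1
      omega
    have n1 : (x, y) ∉ E1 ∪ E2 := by
      intro h
      rcases mem_union.1 h with h | h
      · obtain ⟨z, hz, he⟩ := mem_image.1 h
        have e1 := (Prod.ext_iff.1 he).1
        have e2 := (Prod.ext_iff.1 he).2
        simp only at e1 e2
        subst e1
        exact hcon.1 (ne_of_mem_erase hz) e2.symm
      · obtain ⟨z, hz, he⟩ := mem_image.1 h
        have e1 := (Prod.ext_iff.1 he).1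
        have e2 := (Prod.ext_iff.1 he).2
        simp only at e1 e2
        subst e2
        exact hcon.2 (ne_of_mem_erase hz) e1.symm
    have n2 : (y, x) ∉ insert (x, y) (E1 ∪ E2) := by
      intro h
      rcases mem_insert.1 h with h | h
      · exact hxy.ne (Prod.ext_iff.1 h).2
      · rcases mem_union.1 h with h | h
        · obtain ⟨z, hz, he⟩ := mem_image.1 h
          have e1 := (Prod.ext_iff.1 he).1
          have e2 := (Prod.ext_iff.1 he).2
          simp only at e1 e2
          subst e1
          exact hcon.2 (ne_of_mem_erase hz) e2.symm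
        · obtain ⟨z, hz, he⟩ := mem_image.1 h
          have e1 := (Prod.ext_iff.1 he).1
          have e2 := (Prod.ext_iff.1 he).2
          simp only at e1 e2
          subst e2
          exact hcon.1 (ne_of_mem_erase hz) e1.symm
    have hsub : insert (y, x) (insert (x, y) (E1 ∪ E2)) ⊆ inside G U := by
      intro p hp
      rw [mem_inside]
      rcases mem_insert.1 hp with rfl | hp
      · exact ⟨mem_union_right _ q1, mem_union_left _ p1, hxy.symm⟩
      · rcases mem_insert.1 hp with rfl | hp
        · exact ⟨mem_union_left _ p1, mem_union_right _ q1, hxy⟩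
        · rcases mem_union.1 hp with hp | hp
          · obtain ⟨z, hz, rfl⟩ := mem_image.1 hp
            have hzU := mem_of_mem_erase hz
            have hzv := ne_of_mem_erase hz
            exact ⟨hzU, hUp z hzU hzv, (hpar z (hUb z hzU) hzv).2.1.symm⟩
          · obtain ⟨z, hz, rfl⟩ := mem_image.1 hp
            have hzU := mem_of_mem_erase hz
            have hzv := ne_of_mem_erase hz
            exact ⟨hUp z hzU hzv, hzU, (hpar z (hUb z hzU) hzv).2.1⟩
    have h2 := card_le_card hsub
    rw [card_insert_of_notMem n2, card_insert_of_notMem n1, card_union_of_disjoint d12,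
      c1, c2] at h2
    omega
  have hsub : inside G B ⊆ (B.image fun z => (z, par z)) ∪ (B.image fun z => (par z, z)) := by
    rintro ⟨x, y⟩ hp
    rw [mem_inside] at hp
    rw [mem_union, mem_image, mem_image]
    rcases hedge x (hB hp.1) y (hB hp.2.1) hp.2.2 with h | h
    · exact Or.inl ⟨x, hp.1, by rw [h.2]⟩
    · exact Or.inr ⟨y, hp.2.1, by rw [h.2]⟩
  have h1 := card_le_card hsub
  have h2 := card_union_le (B.image fun z => (z, par z)) (B.image fun z => (par z, z))
  have h3 : (B.image fun z => (z, par z)).card ≤ B.card := card_image_le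
  have h4 : (B.image fun z => (par z, z)).card ≤ B.card := card_image_le
  omega


/-- Small balls inside of a set without short circuits. -/
theorem inside_loc {k j : ℕ} {A : Finset V} {v : V} (hv : v ∈ A) (hj : 2 * j + 2 < k)
    (hg : ∀ U ⊆ A, U.card < k → (G.induce (U : Set V)).IsAcyclic)
    (B : Finset V) (hB : B ⊆ Bl (RW G A) j v) : (inside G B).card ≤ 2 * B.card := by
  classical
  let H : SimpleGraph V := ⟨RW G A, ⟨fun _ _ h => ⟨h.1.symm, h.2.2, h.2.1⟩⟩,
    ⟨fun _ h => h.1.ne rfl⟩⟩
  have hin : ∀ U ⊆ A, inside H U = inside G U := by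
    intro U hU
    ext p
    rw [mem_inside, mem_inside]
    constructor
    · rintro ⟨h1, h2, h4⟩
      exact ⟨h1, h2, h4.1⟩
    · rintro ⟨h1, h2, h4⟩
      exact ⟨h1, h2, h4, hU h1, hU h2⟩
  have hBA : Bl (RW G A) j v ⊆ A := Bl_RW_sub hv j
  have h := inside_ball_loc (G := H) hj v (fun U hU hne hc => by
    rw [hin U (hU.trans hBA)]
    exact inside_of_acyclic G hne (hg U (hU.trans hBA) hc)) B hB
  rwa [hin B (hB.trans hBA)] at h

/-- Sets with fewer than `(1 - η) |S|` boundary edges and without short circuits are large. -/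
theorem sparse_loc (h3 : ∀ v, G.degree v = 3) {k : ℕ} {η : ℝ} (hη : 0 < η)
    {j : ℕ} (hj : 2 * j + 2 < k) {S : Finset V}
    (hg : ∀ A ⊆ S, A.card < k → (G.induce (A : Set V)).IsAcyclic)
    (hS : (dd G S : ℝ) < (1 - η) * S.card) :
    (1 + η / 6) ^ j ≤ S.card := by
  classical
  set c : ℝ := 1 - η with hc
  -- a minimal sparse subset
  obtain ⟨A, hA1, hA2⟩ := ((S.powerset).filter fun A => (dd G A : ℝ) < c * A.card).exists_min_image
    (fun A => A.card) ⟨S, mem_filter.2 ⟨mem_powerset_self S, hS⟩⟩
  rw [mem_filter, mem_powerset] at hA1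
  obtain ⟨hAS, hAsp⟩ := hA1
  have hmin : ∀ B ⊆ A, B.card < A.card → c * (B.card : ℝ) ≤ dd G B := by
    intro B hB hlt
    by_contra h
    push Not at h
    have := hA2 B (mem_filter.2 ⟨mem_powerset.2 (hB.trans hAS), h⟩)
    omega
  obtain ⟨v, hv⟩ : A.Nonempty := by
    rw [nonempty_iff_ne_empty]
    rintro rfl
    simp at hAsp
    have : (0 : ℝ) ≤ dd G (∅ : Finset V) := Nat.cast_nonneg _
    linarith
  have key : ∀ i ≤ j, (1 + η / 6) ^ i ≤ (Bl (RW G A) i v).card := by
    intro i
    induction i with
    | zero =>
      intro _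
      rw [pow_zero]
      have : 0 < (Bl (RW G A) 0 v).card := card_pos.2 ⟨v, Bl_self 0 v⟩
      exact_mod_cast this
    | succ i ih =>
      intro hi
      have h1 := ih (by omega)
      set B := Bl (RW G A) i v with hB
      have hBA : B ⊆ A := Bl_RW_sub hv i
      have h2 := inside_loc (hv := hv) hj (fun U hU => hg U (hU.trans hAS)) B
        (Bl_mono (by omega) v)
      have h4 := dd_add_inside G h3 B
      have h5 := dd_sdiff (G := G) hBA
      have hvB : v ∈ B := Bl_self i v
      have h6 : (A \ B).card + B.card = A.card := card_sdiff_add_card_eq_card hBA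
      have hBpos : 0 < B.card := card_pos.2 ⟨v, hvB⟩
      have h7 := hmin (A \ B) sdiff_subset (by omega)
      set a := ((cut G B).filter fun p => p.2 ∈ A).card with ha
      set b := ((cut G B).filter fun p => p.2 ∉ A).card with hb
      have h8 : a + b = dd G B := by
        unfold dd
        exact card_filter_add_card_filter_not (s := cut G B) (fun p => p.2 ∈ A)
      -- growth
      have h9 : a ≤ 3 * (Bl (RW G A) (i + 1) v \ B).card := by
        have hsub : (cut G B).filter (fun p => p.2 ∈ A) ⊆
            (Bl (RW G A) (i + 1) v \ B).biUnion fun y =>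
              (G.neighborFinset y).image fun x => (x, y) := by
          rintro ⟨x, y⟩ hp
          rw [mem_filter, mem_cut] at hp
          obtain ⟨⟨q1, q2, q3⟩, q4⟩ := hp
          simp only at q1 q2 q3 q4
          rw [mem_biUnion]
          refine ⟨y, mem_sdiff.2 ⟨mem_Bl_succ.2 (Or.inr ⟨x, q1, q3, hBA q1, q4⟩), q2⟩, ?_⟩
          rw [mem_image]
          exact ⟨x, (G.mem_neighborFinset y x).2 q3.symm, rfl⟩
        refine (card_le_card hsub).trans ?_
        rw [mul_comm]
        refine card_biUnion_le_card_mul _ _ 3 fun y _ => ?_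
        refine card_image_le.trans (le_of_eq ?_)
        rw [card_neighborFinset_eq_degree, h3]
      have h10 : (Bl (RW G A) (i + 1) v \ B).card + B.card = (Bl (RW G A) (i + 1) v).card :=
        card_sdiff_add_card_eq_card (Bl_mono (Nat.le_succ i) v)
      have r1 : (B.card : ℝ) ≤ dd G B := by
        have : B.card ≤ dd G B := by omega
        exact_mod_cast this
      have r2 : (a : ℝ) + b = dd G B := by exact_mod_cast h8
      have r3 : (dd G (A \ B) : ℝ) + b = dd G A + a := by exact_mod_cast h5
      have r4 : ((A \ B).card : ℝ) + B.card = A.card := by exact_mod_cast h6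
      have r5 : (a : ℝ) ≤ 3 * (Bl (RW G A) (i + 1) v \ B).card := by exact_mod_cast h9
      have r6 : ((Bl (RW G A) (i + 1) v \ B).card : ℝ) + B.card
          = (Bl (RW G A) (i + 1) v).card := by exact_mod_cast h10
      have r7 : c * ((A \ B).card : ℝ) = c * A.card - c * B.card := by
        rw [← r4]; ring
      have r8 : c * (B.card : ℝ) = B.card - η * B.card := by
        rw [hc]; ring
      have r9 : (1 + η / 6) * B.card ≤ (Bl (RW G A) (i + 1) v).card := by
        have e : (1 + η / 6) * (B.card : ℝ) = B.card + (η * B.card) / 6 := by ring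
        rw [e]
        linarith
      calc (1 + η / 6) ^ (i + 1) = (1 + η / 6) * (1 + η / 6) ^ i := by ring
        _ ≤ (1 + η / 6) * B.card := mul_le_mul_of_nonneg_left h1 (by positivity)
        _ ≤ _ := r9
  refine (key j le_rfl).trans ?_
  exact_mod_cast (card_le_card (Bl_RW_sub hv j)).trans (card_le_card hAS)


end Pool.Agent.K5.Ker
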