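import Mathlib
import Pool.Agent.Work.MP_974d84_co_k5.FewParts
import Pool.Agent.Work.MP_974d84_co_k5.KerSparse
import Pool.Agent.Work.MP_974d84_co_k5.BeadT

/-!
# Division of a cubic graph into few highly connected parts and a small rest

No hypothesis on the girth: sets which contain short circuits become members of the family or
belong to small members.
-/

set_option linter.unusedSectionVars false

namespace Pool.Agent.K5.Ker

open Finset SimpleGraph Pool.Agent.Exp Pool.Agent.Log5 Pool.Agent.Log5.Clu Pool.Agent.K5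
open Pool.Agent.K5.Parts

variable {V : Type} [Fintype V] [DecidableEq V] {G : SimpleGraph V} [DecidableRel G.Adj]

/-- A set outside of the members becomes a member. -/
theorem DFam.add {𝒞 : Finset (Finset V)} (h : DFam G 𝒞) {Q : Finset V} (hQ : Q ⊆ rest 𝒞)
    (hc : ¬ (G.induce (Q : Set V)).IsAcyclic) :
    DFam G (insert Q 𝒞) ∧ (insert Q 𝒞).card = 𝒞.card + 1 ∧
      ∑ A ∈ insert Q 𝒞, dd G A = ∑ A ∈ 𝒞, dd G A + dd G Q ∧
      (rest (insert Q 𝒞)).card + Q.card = (rest 𝒞).card := by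
  classical
  have hQ0 := ne_of_cyc hc
  have hdisj : ∀ A ∈ 𝒞, Disjoint Q A := by
    intro A hA
    rw [Finset.disjoint_left]
    intro v hv
    exact mem_rest.1 (hQ hv) A hA
  have hnQ : Q ∉ 𝒞 := by
    intro hm
    obtain ⟨v, hv⟩ := hQ0
    exact Finset.disjoint_left.1 (hdisj Q hm) hv hv
  refine ⟨⟨?_, ?_⟩, card_insert_of_notMem hnQ, ?_, ?_⟩
  · intro A hA B hB hAB
    rw [mem_insert] at hA hB
    rcases hA with rfl | hA <;> rcases hB with rfl | hB
    · exact absurd rfl hAB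
    · exact hdisj B hB
    · exact (hdisj A hA).symm
    · exact h.disj A hA B hB hAB
  · intro A hA
    rcases mem_insert.1 hA with rfl | hA
    · exact hc
    · exact h.cyc A hA
  · rw [sum_insert hnQ, add_comm]
  · have h1 : rest (insert Q 𝒞) = rest 𝒞 \ Q := by
      ext v
      rw [mem_sdiff, mem_rest, mem_rest]
      constructor
      · intro hv
        exact ⟨fun A hA => hv A (mem_insert_of_mem hA), hv Q (mem_insert_self _ _)⟩
      · rintro ⟨hv, hvQ⟩ A hA
        rcases mem_insert.1 hA with rfl | hA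
        · exact hvQ
        · exact hv A hA
    rw [h1]
    exact card_sdiff_add_card_eq_card hQ

/-- A short circuit in a set with a circuit. -/
theorem circ (h3 : ∀ v, G.degree v = 3) {Q : Finset V}
    (h : ¬ (G.induce (Q : Set V)).IsAcyclic) :
    ∃ A ⊆ Q, ¬ (G.induce (A : Set V)).IsAcyclic ∧ dd G A ≤ A.card := by
  obtain ⟨A, hA, hne, -, hd⟩ := exists_circ h3 h
  refine ⟨A, hA, fun hac => ?_, hd⟩
  have := dd_of_acyclic G h3 hne hac
  omega

/-- **Few highly connected parts and a small rest.** -/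
theorem core (D k₀ m N : ℕ) [Nonempty V] (h3 : ∀ v, G.degree v = 3)
    (hN : 8 * ((D + 4) * k₀) * m + 2 * D + 2 * k₀ ≤ N)
    (hsp : ∀ U : Finset V, U.card ≤ N →
      (∀ A ⊆ U, A.card ≤ k₀ → (G.induce (A : Set V)).IsAcyclic) →
      (D + 4) * U.card ≤ (D + 4) * dd G U + U.card)
    (hsh : ¬ ∃ X : Fin m → Finset V, (∀ i j, i ≠ j → Disjoint (X i) (X j)) ∧
      ∀ i, ¬ (G.induce (X i : Set V)).IsAcyclic ∧ dd G (X i) ≤ 4 * ((D + 4) * k₀)) :
    ∃ 𝒟 : Finset (Finset V), DFam G 𝒟 ∧ 𝒟.card ≤ 2 * m ∧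
      ∑ A ∈ 𝒟, dd G A ≤ 4 * ((D + 4) * k₀) * m ∧
      (rest 𝒟).card ≤ 4 * ((D + 4) * k₀) * m + 8 * k₀ * m ∧
      ∀ X ∈ 𝒟, FarB G D X ∧ (∀ A ⊆ X, A.card < k₀ → (G.induce (A : Set V)).IsAcyclic) ∧
        ∀ Y ⊆ X, ¬ (G.induce (Y : Set V)).IsAcyclic →
          ¬ (G.induce ((X \ Y : Finset V) : Set V)).IsAcyclic → k₀ ≤ ee G Y (X \ Y) := by
  classical
  set β : ℕ := D + 4 with hβ
  set γ : ℕ := β * k₀ with hγ
  have h0 : ¬ (G.induce ((univ : Finset V) : Set V)).IsAcyclic := by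
    intro hac
    have h1 := dd_of_acyclic G h3 univ_nonempty hac
    rw [dd_univ_zero] at h1
    omega
  -- the extremal family
  let Φ : Finset (Finset V) → ℤ := fun 𝒞 =>
    (β : ℤ) * (∑ A ∈ 𝒞, dd G A : ℕ) - ((β : ℤ) - 2) * (rest 𝒞).card - 2 * γ * 𝒞.card
  let adm : Finset (Finset (Finset V)) := univ.filter fun 𝒞 =>
    DFam G 𝒞 ∧ (rest 𝒞).card ≤ N
  have hrest1 : rest ({univ} : Finset (Finset V)) = ∅ := by
    rw [eq_empty_iff_forall_notMem]
    intro v hv
    exact mem_rest.1 hv univ (mem_singleton_self _) (mem_univ v)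
  have hstart : ({univ} : Finset (Finset V)) ∈ adm := by
    refine mem_filter.2 ⟨mem_univ _, ⟨?_, ?_⟩, ?_⟩
    · intro A hA B hB hAB
      rw [mem_singleton] at hA hB
      exact absurd (hA.trans hB.symm) hAB
    · intro A hA
      rw [mem_singleton] at hA
      rw [hA]
      exact h0
    · rw [hrest1, card_empty]
      omega
  obtain ⟨𝒞, h𝒞, hmin⟩ := exists_min_image adm Φ ⟨_, hstart⟩
  obtain ⟨-, hF, hR⟩ := mem_filter.1 h𝒞
  set S : ℕ := ∑ A ∈ 𝒞, dd G A with hS
  set R : ℕ := (rest 𝒞).card with hRdef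
  set s : ℕ := 𝒞.card with hs
  have hΦ : Φ 𝒞 = (β : ℤ) * S - ((β : ℤ) - 2) * R - 2 * γ * s := rfl
  have hΦ1 : Φ {univ} = - (2 * γ) := by
    simp only [Φ, sum_singleton, dd_univ_zero, hrest1, card_empty, card_singleton]
    push_cast
    ring
  have hβ4 : (4 : ℤ) ≤ β := by exact_mod_cast (by omega : 4 ≤ β)
  have hγ0 : (0 : ℤ) ≤ γ := Nat.cast_nonneg _
  -- the rest contains no short circuits
  have hshort : ∀ A ⊆ rest 𝒞, A.card ≤ k₀ → (G.induce (A : Set V)).IsAcyclic := by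
    intro A hA hAc
    by_contra hcy
    obtain ⟨Q, hQA, hQc, hQd⟩ := circ h3 hcy
    obtain ⟨d1, d2, d3, d4⟩ := DFam.add hF (hQA.trans hA) hQc
    have hadm : insert Q 𝒞 ∈ adm := mem_filter.2 ⟨mem_univ _, d1, by omega⟩
    have h5 := hmin _ hadm
    have h6 : Φ (insert Q 𝒞) = (β : ℤ) * (S + dd G Q) - ((β : ℤ) - 2) * (R - Q.card)
        - 2 * γ * (s + 1) := by
      simp only [Φ]
      have e1 : ((∑ A ∈ insert Q 𝒞, dd G A : ℕ) : ℤ) = S + dd G Q := by exact_mod_cast d3
      have e2 : (((insert Q 𝒞).card : ℕ) : ℤ) = s + 1 := by exact_mod_cast d2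
      have e3 : (((rest (insert Q 𝒞)).card : ℕ) : ℤ) = R - Q.card := by
        have : (((rest (insert Q 𝒞)).card : ℕ) : ℤ) + Q.card = R := by exact_mod_cast d4
        linarith
      rw [e1, e2, e3]
    rw [hΦ, h6] at h5
    have h7 : (Q.card : ℤ) ≤ k₀ := by exact_mod_cast (card_le_card hQA).trans hAc
    have h8 : (1 : ℤ) ≤ Q.card := by exact_mod_cast card_pos.2 (ne_of_cyc hQc)
    have h9 : (dd G Q : ℤ) ≤ Q.card := by exact_mod_cast hQd
    have h10 : (β : ℤ) * dd G Q ≤ β * Q.card := mul_le_mul_of_nonneg_left h9 (by linarith)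
    have h11 : (γ : ℤ) = β * k₀ := by
      rw [hγ]
      push_cast
      rfl
    have h12 : (β : ℤ) * Q.card ≤ β * k₀ := mul_le_mul_of_nonneg_left h7 (by linarith)
    nlinarith
  -- the rest is sparse
  have hRd' : β * R ≤ β * dd G (rest 𝒞) + R := hsp _ hR hshort
  have hs1 : 1 ≤ s := by
    by_contra hlt
    have h1 : 𝒞 = ∅ := card_eq_zero.1 (by omega)
    have h2 : rest 𝒞 = univ := by
      rw [h1]
      simp [rest]
    have h4 : R = (univ : Finset V).card := by rw [hRdef, h2]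
    rw [h2, dd_univ_zero, Nat.mul_zero, Nat.zero_add] at hRd'
    have h5 : 0 < (univ : Finset V).card := card_pos.2 univ_nonempty
    have h6 : 2 * R ≤ β * R := Nat.mul_le_mul_right _ (by omega)
    omega
  have hRd : (β : ℤ) * R ≤ β * S + R := by
    have h2 : β * dd G (rest 𝒞) ≤ β * S := Nat.mul_le_mul_left β (dd_rest (G := G) 𝒞)
    have h4 : β * R ≤ β * S + R := hRd'.trans (Nat.add_le_add_right h2 _)
    exact_mod_cast h4
  have hbd : (β : ℤ) * S - ((β : ℤ) - 2) * R ≤ 2 * γ * ((s : ℤ) - 1) := by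
    have h1 := hmin _ hstart
    rw [hΦ, hΦ1] at h1
    linarith
  have hRγ : (R : ℤ) ≤ 2 * γ * ((s : ℤ) - 1) := by linarith
  have hSγ : (S : ℤ) ≤ 2 * γ * ((s : ℤ) - 1) := by
    have h1 : ((β : ℤ) - 2) * R ≤ ((β : ℤ) - 2) * (2 * γ * ((s : ℤ) - 1)) :=
      mul_le_mul_of_nonneg_left hRγ (by linarith)
    have h5 : (0 : ℤ) ≤ 2 * γ * ((s : ℤ) - 1) := by
      have : (1 : ℤ) ≤ s := by exact_mod_cast hs1
      exact mul_nonneg (by linarith) (by linarith)
    have h2 : (β : ℤ) * S ≤ β * (2 * γ * ((s : ℤ) - 1)) := by linarith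
    exact le_of_mul_le_mul_left h2 (by linarith)
  -- the number of parts
  have hsmall : (𝒞.filter fun A => dd G A ≤ 4 * γ).card < m := by
    by_contra hge
    apply hsh
    set 𝒮 := 𝒞.filter fun A => dd G A ≤ 4 * γ with h𝒮
    have h1 : m ≤ 𝒮.card := not_lt.1 hge
    set e := 𝒮.equivFin with he
    have hm : ∀ i : Fin m, (e.symm (Fin.castLE h1 i)).1 ∈ 𝒮 := fun i =>
      (e.symm (Fin.castLE h1 i)).2
    refine ⟨fun i => (e.symm (Fin.castLE h1 i)).1, ?_, ?_⟩
    · intro i j hij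
      refine hF.disj _ (mem_filter.1 (hm i)).1 _ (mem_filter.1 (hm j)).1 ?_
      intro hcon
      exact hij (Fin.castLE_injective h1 (e.symm.injective (Subtype.ext hcon)))
    · intro i
      exact ⟨hF.cyc _ (mem_filter.1 (hm i)).1, (mem_filter.1 (hm i)).2⟩
  have hs2 : (s : ℤ) ≤ 2 * m := by
    set a := (𝒞.filter fun A => dd G A ≤ 4 * γ).card with ha
    set b := (𝒞.filter fun A => ¬ dd G A ≤ 4 * γ).card with hb
    have hab : a + b = s := card_filter_add_card_filter_not _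
    have hbS : (4 * γ + 1) * b ≤ S := by
      calc (4 * γ + 1) * b = ∑ A ∈ 𝒞.filter (fun A => ¬ dd G A ≤ 4 * γ), (4 * γ + 1) := by
            rw [sum_const, smul_eq_mul, mul_comm]
        _ ≤ ∑ A ∈ 𝒞.filter (fun A => ¬ dd G A ≤ 4 * γ), dd G A :=
            sum_le_sum fun A hA => by
              have := (mem_filter.1 hA).2
              omega
        _ ≤ S := sum_le_sum_of_subset (filter_subset _ _)
    by_contra hcon
    have hba : (a : ℤ) + 1 ≤ b := by
      have h1 : (s : ℤ) = a + b := by exact_mod_cast hab.symm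
      have h2 : (a : ℤ) < m := by exact_mod_cast hsmall
      linarith
    have h5 : ((4 * γ + 1) * b : ℤ) ≤ 2 * γ * ((s : ℤ) - 1) := by
      refine le_trans ?_ hSγ
      exact_mod_cast hbS
    have h6 : (s : ℤ) = a + b := by exact_mod_cast hab.symm
    have h7 : 2 * (γ : ℤ) * (a + 1) ≤ 2 * γ * b := mul_le_mul_of_nonneg_left hba (by linarith)
    have h8 : (0 : ℤ) ≤ a := Nat.cast_nonneg _
    rw [h6] at h5
    nlinarith
  have hR2 : R ≤ 4 * γ * m := by
    have h1 : 2 * (γ : ℤ) * ((s : ℤ) - 1) ≤ 2 * γ * (2 * m) :=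
      mul_le_mul_of_nonneg_left (by linarith) (by linarith)
    have h2 : (R : ℤ) ≤ 4 * γ * m := by linarith
    exact_mod_cast h2
  have hS2 : S ≤ 4 * γ * m := by
    have h1 : 2 * (γ : ℤ) * ((s : ℤ) - 1) ≤ 2 * γ * (2 * m) :=
      mul_le_mul_of_nonneg_left (by linarith) (by linarith)
    have h2 : (S : ℤ) ≤ 4 * γ * m := by linarith
    exact_mod_cast h2
  have hN8 : 8 * γ * m = 4 * γ * m + 4 * γ * m := by ring
  have hddS : ∀ X ∈ 𝒞, dd G X ≤ S := fun X hX =>
    single_le_sum (f := fun A => dd G A) (fun _ _ => Nat.zero_le _) hX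
  -- the inner cyclic cuts are large
  have hcut : ∀ X ∈ 𝒞, ∀ Y ⊆ X, ¬ (G.induce (Y : Set V)).IsAcyclic →
      ¬ (G.induce ((X \ Y : Finset V) : Set V)).IsAcyclic → k₀ ≤ ee G Y (X \ Y) := by
    intro X hX Y hY h1 h2
    by_contra hlt
    obtain ⟨𝒟, d1, d2, d3, d4⟩ := hF.split hX hY h1 h2
    have hadm : 𝒟 ∈ adm := mem_filter.2 ⟨mem_univ _, d1, by rw [d4]; exact hR⟩
    have h5 := hmin _ hadm
    have h6 : Φ 𝒟 = (β : ℤ) * (S + 2 * ee G Y (X \ Y)) - ((β : ℤ) - 2) * R
        - 2 * γ * (s + 1) := by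
      simp only [Φ]
      have e1 : ((∑ A ∈ 𝒟, dd G A : ℕ) : ℤ) = S + 2 * ee G Y (X \ Y) := by
        exact_mod_cast d3
      have e2 : ((𝒟.card : ℕ) : ℤ) = s + 1 := by exact_mod_cast d2
      rw [e1, e2, d4]
    rw [hΦ, h6] at h5
    have h7 : (ee G Y (X \ Y) : ℤ) + 1 ≤ k₀ := by
      have : ee G Y (X \ Y) + 1 ≤ k₀ := by omega
      exact_mod_cast this
    have h8 : (β : ℤ) * (ee G Y (X \ Y) + 1) ≤ β * k₀ :=
      mul_le_mul_of_nonneg_left h7 (by linarith)
    have h9 : (γ : ℤ) = β * k₀ := by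
      rw [hγ]
      push_cast
      rfl
    linarith
  -- large members are much larger than their boundary
  have hbig : ∀ X ∈ 𝒞, 4 * k₀ < X.card → dd G X + 2 * D + 2 * k₀ < X.card := by
    intro X hX hXc
    by_contra hlt
    have hXS := hddS X hX
    obtain ⟨d1, d2, d3, d4⟩ := hF.drop hX
    have hadm : 𝒞.erase X ∈ adm := mem_filter.2 ⟨mem_univ _, d1, by omega⟩
    have h5 := hmin _ hadm
    have h6 : Φ (𝒞.erase X) = (β : ℤ) * (S - dd G X) - ((β : ℤ) - 2) * (R + X.card)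
        - 2 * γ * (s - 1) := by
      simp only [Φ]
      have e1 : ((∑ A ∈ 𝒞.erase X, dd G A : ℕ) : ℤ) = S - dd G X := by
        have : ((∑ A ∈ 𝒞.erase X, dd G A : ℕ) : ℤ) + dd G X = S := by exact_mod_cast d3
        linarith
      have e2 : (((𝒞.erase X).card : ℕ) : ℤ) = s - 1 := by
        have : (((𝒞.erase X).card : ℕ) : ℤ) + 1 = s := by exact_mod_cast d2
        linarith
      have e3 : (((rest (𝒞.erase X)).card : ℕ) : ℤ) = R + X.card := by exact_mod_cast d4
      rw [e1, e2, e3]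
    rw [hΦ, h6] at h5
    have h7 : (4 * k₀ + 1 : ℤ) ≤ X.card := by exact_mod_cast hXc
    have h8 : (0 : ℤ) ≤ β * dd G X := mul_nonneg (by linarith) (Nat.cast_nonneg _)
    have h9 : ((β : ℤ) - 2) * (4 * k₀ + 1) ≤ ((β : ℤ) - 2) * X.card :=
      mul_le_mul_of_nonneg_left h7 (by linarith)
    have h10 : (γ : ℤ) = β * k₀ := by
      rw [hγ]
      push_cast
      rfl
    have h11 : (0 : ℤ) ≤ ((β : ℤ) - 4) * k₀ := mul_nonneg (by linarith) (Nat.cast_nonneg _)
    nlinarith
  -- the boundaries of the large members are far apart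
  have hfar : ∀ X ∈ 𝒞, 4 * k₀ < X.card → FarB G D X := by
    intro X hX hXc W hWX hWD hWc
    by_contra hee
    have hee : 2 ≤ ee G W Xᶜ := by omega
    have h1 := bead_conn (G := G) h3 hWc
    have h2 := bead_sdiff (G := G) hWX
    have hdX : dd G (X \ W) + 2 ≤ dd G X + W.card := by omega
    have hWX' : (X \ W).card + W.card = X.card := card_sdiff_add_card_eq_card hWX
    have hXS := hddS X hX
    have hb := hbig X hX hXc
    have hcyc : ¬ (G.induce ((X \ W : Finset V) : Set V)).IsAcyclic := by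
      intro hac
      rcases (X \ W).eq_empty_or_nonempty with he | hne
      · rw [he, card_empty] at hWX'
        omega
      · have h4 := dd_of_acyclic G h3 hne hac
        omega
    obtain ⟨𝒟, d1, d2, d3, d4⟩ := hF.remove hX hWX hcyc
    have hadm : 𝒟 ∈ adm := mem_filter.2 ⟨mem_univ _, d1, by omega⟩
    have h5 := hmin _ hadm
    have h6 : Φ 𝒟 = (β : ℤ) * (S + dd G (X \ W) - dd G X) - ((β : ℤ) - 2) * (R + W.card)
        - 2 * γ * s := by
      simp only [Φ]
      have e1 : ((∑ A ∈ 𝒟, dd G A : ℕ) : ℤ) = S + dd G (X \ W) - dd G X := by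
        have : ((∑ A ∈ 𝒟, dd G A : ℕ) : ℤ) + dd G X = S + dd G (X \ W) := by
          exact_mod_cast d3
        linarith
      have e3 : (((rest 𝒟).card : ℕ) : ℤ) = R + W.card := by exact_mod_cast d4
      rw [e1, d2, e3]
    rw [hΦ, h6] at h5
    have h7 : (dd G (X \ W) : ℤ) + 2 ≤ dd G X + W.card := by exact_mod_cast hdX
    have h8 : (β : ℤ) * (dd G (X \ W) - dd G X) ≤ β * (W.card - 2) :=
      mul_le_mul_of_nonneg_left (by linarith) (by linarith)
    have h9 : (W.card : ℤ) + 4 ≤ β := by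
      have : W.card + 4 ≤ β := by omega
      exact_mod_cast this
    linarith
  -- the large members contain no short circuits
  have hgir : ∀ X ∈ 𝒞, 4 * k₀ < X.card → ∀ A ⊆ X, A.card < k₀ →
      (G.induce (A : Set V)).IsAcyclic := by
    intro X hX hXc A hAX hAc
    by_contra hcy
    obtain ⟨Q, hQA, hQc, hQd⟩ := circ h3 hcy
    have hb := hbig X hX hXc
    have hQX := hQA.trans hAX
    have h1 := card_le_card hQA
    have h2 := bead_sdiff (G := G) hQX
    have h4 := dd_inner (G := G) hQX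
    have h5 : (X \ Q).card + Q.card = X.card := card_sdiff_add_card_eq_card hQX
    have hcyc : ¬ (G.induce ((X \ Q : Finset V) : Set V)).IsAcyclic := by
      intro hac
      rcases (X \ Q).eq_empty_or_nonempty with he | hne
      · rw [he, card_empty] at h5
        omega
      · have h6 := dd_of_acyclic G h3 hne hac
        omega
    have h6 := hcut X hX Q hQX hQc hcyc
    omega
  -- conclusion
  have hs2' : s ≤ 2 * m := by exact_mod_cast hs2
  have hsub : 𝒞.filter (fun A => 4 * k₀ < A.card) ⊆ 𝒞 := filter_subset _ _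
  refine ⟨𝒞.filter fun A => 4 * k₀ < A.card, ⟨fun A hA B hB => hF.disj A (hsub hA) B (hsub hB),
    fun A hA => hF.cyc A (hsub hA)⟩, (card_le_card hsub).trans hs2',
    (sum_le_sum_of_subset hsub).trans hS2, ?_, fun X hX => ?_⟩
  · have h1 : rest (𝒞.filter fun A => 4 * k₀ < A.card) ⊆
        rest 𝒞 ∪ (𝒞.filter fun A => ¬ 4 * k₀ < A.card).biUnion id := by
      intro v hv
      rw [mem_union, mem_biUnion]
      by_contra hcon
      push Not at hcon
      apply hcon.1
      rw [mem_rest]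
      intro A hA hvA
      by_cases hc : 4 * k₀ < A.card
      · exact mem_rest.1 hv A (mem_filter.2 ⟨hA, hc⟩) hvA
      · exact hcon.2 A (mem_filter.2 ⟨hA, not_lt.1 hc⟩) hvA
    have h2 : ((𝒞.filter fun A => ¬ 4 * k₀ < A.card).biUnion id).card ≤ s * (4 * k₀) := by
      refine (card_biUnion_le_card_mul _ _ (4 * k₀) fun A hA => ?_).trans
        (Nat.mul_le_mul_right _ (card_le_card (filter_subset _ _)))
      exact not_lt.1 (mem_filter.1 hA).2
    have h4 := (card_le_card h1).trans (card_union_le _ _)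
    have h5 : s * (4 * k₀) ≤ 2 * m * (4 * k₀) := Nat.mul_le_mul_right _ hs2'
    have h6 : 2 * m * (4 * k₀) = 8 * k₀ * m := by ring
    omega
  · obtain ⟨hX, hc⟩ := mem_filter.1 hX
    exact ⟨hfar X hX hc, hgir X hX hc, hcut X hX⟩

end Pool.Agent.K5.Ker
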