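import Mathlib
import Pool.Agent.Work.MP_974d84_co_k5.KerParts

/-!
# Few highly connected parts and a small rest: the constants
-/

set_option linter.unusedSectionVars false

namespace Pool.Agent.K5.Ker

open Finset SimpleGraph Pool.Agent.Exp Pool.Agent.Log5 Pool.Agent.Log5.Clu Pool.Agent.K5
open Pool.Agent.K5.Parts

theorem exists_exp (A B : ℕ) : ∃ b : ℕ, A * b + B < 2 ^ b := by
  obtain ⟨t, ht⟩ : ∃ t, t = 2 * A + B + 1 := ⟨_, rfl⟩
  refine ⟨2 * t, ?_⟩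
  have h1 : t < 2 ^ t := Nat.lt_two_pow_self
  have h2 : 2 ^ (2 * t) = 2 ^ t * 2 ^ t := by rw [two_mul, pow_add]
  have h3 : t * t < 2 ^ t * 2 ^ t := Nat.mul_lt_mul'' h1 h1
  have h4 : A * (2 * t) + B ≤ t * t := by
    have h5 : t * t = 2 * A * t + B * t + t := by
      nth_rewrite 1 [ht]
      ring
    have h6 : A * (2 * t) = 2 * A * t := by ring
    have h7 : B * 1 ≤ B * t := Nat.mul_le_mul_left _ (by omega)
    omega
  omega

theorem ker_num (D K : ℕ) : ∃ c : ℕ, K ≤ c ∧ ∀ n : ℕ, 1 ≤ n → ∃ j : ℕ, 2 * j + 2 < c * n + 1 ∧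
    ((8 * ((D + 4) * (c * n)) * 2 ^ n + 2 * D + 2 * (c * n) : ℕ) : ℝ) <
      (1 + 1 / ((D + 4 : ℕ) : ℝ) / 6) ^ j := by
  obtain ⟨β, hβ⟩ : ∃ β, β = D + 4 := ⟨_, rfl⟩
  rw [← hβ]
  obtain ⟨b, hb⟩ := exists_exp ((8 * β + 2) * (12 * β)) ((8 * β + 2) * (24 * β + 2 + K) + 2 * D)
  obtain ⟨c, hc⟩ : ∃ c, c = 12 * β * (b + 2) + 2 + K := ⟨_, rfl⟩
  refine ⟨c, by omega, fun n hn => ⟨6 * β * ((b + 2) * n), ?_, ?_⟩⟩
  · have h1 : c * n = 2 * (6 * β * ((b + 2) * n)) + 2 * n + K * n := by rw [hc]; ring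
    omega
  · have hβ0 : (0 : ℝ) < β := by
      have : 0 < β := by omega
      exact_mod_cast this
    have h5 : (2 : ℝ) ^ ((b + 2) * n) ≤ (1 + 1 / (β : ℝ) / 6) ^ (6 * β * ((b + 2) * n)) := by
      rw [pow_mul (1 + 1 / (β : ℝ) / 6)]
      refine pow_le_pow_left₀ (by norm_num) ?_ _
      have h6 := one_add_mul_le_pow (a := 1 / (β : ℝ) / 6) (by
        have : (0 : ℝ) ≤ 1 / (β : ℝ) / 6 := by positivity
        linarith) (6 * β)
      have h7 : 1 + ((6 * β : ℕ) : ℝ) * (1 / (β : ℝ) / 6) = 2 := by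
        push_cast
        field_simp
        norm_num
      rw [h7] at h6
      exact h6
    refine lt_of_lt_of_le ?_ h5
    have hnat : 8 * (β * (c * n)) * 2 ^ n + 2 * D + 2 * (c * n) < 2 ^ ((b + 2) * n) := by
      have h1 : n < 2 ^ n := Nat.lt_two_pow_self
      have h2 : 2 ^ ((b + 2) * n) = 2 ^ (b * n) * (2 ^ n * 2 ^ n) := by
        rw [← pow_add, ← pow_add]
        congr 1
        ring
      have h3 : 2 ^ b ≤ 2 ^ (b * n) :=
        Nat.pow_le_pow_right (by norm_num) (Nat.le_mul_of_pos_right _ hn)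
      have h4 : (8 * β + 2) * c + 2 * D < 2 ^ b := by
        have : (8 * β + 2) * c + 2 * D = (8 * β + 2) * (12 * β) * b +
            ((8 * β + 2) * (24 * β + 2 + K) + 2 * D) := by
          rw [hc]
          ring
        omega
      have h6 : n * 2 ^ n ≤ 2 ^ n * 2 ^ n := Nat.mul_le_mul_right _ h1.le
      have h7 : 1 ≤ 2 ^ n * 2 ^ n := Nat.one_le_iff_ne_zero.2 (by positivity)
      have h8 : n ≤ 2 ^ n * 2 ^ n := by
        have : 1 ≤ 2 ^ n := Nat.one_le_two_pow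
        nlinarith
      obtain ⟨x, hx⟩ : ∃ x, x = 2 ^ n * 2 ^ n := ⟨_, rfl⟩
      rw [← hx] at h2 h6 h7 h8
      have h9 : 8 * (β * (c * n)) * 2 ^ n + 2 * D + 2 * (c * n) ≤
          ((8 * β + 2) * c + 2 * D) * x := by
        have e1 : 8 * (β * (c * n)) * 2 ^ n = 8 * β * c * (n * 2 ^ n) := by ring
        have e2 : ((8 * β + 2) * c + 2 * D) * x = 8 * β * c * x + 2 * D * x + 2 * c * x := by
          ring
        have e3 : 8 * β * c * (n * 2 ^ n) ≤ 8 * β * c * x := Nat.mul_le_mul_left _ h6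
        have e4 : 2 * D * 1 ≤ 2 * D * x := Nat.mul_le_mul_left _ h7
        have e5 : 2 * c * n ≤ 2 * c * x := Nat.mul_le_mul_left _ h8
        have e6 : 2 * (c * n) = 2 * c * n := by ring
        omega
      calc _ ≤ ((8 * β + 2) * c + 2 * D) * x := h9
        _ < 2 ^ b * x := Nat.mul_lt_mul_of_pos_right h4 (by omega)
        _ ≤ 2 ^ (b * n) * x := Nat.mul_le_mul_right _ h3
        _ = _ := h2.symm
    exact_mod_cast hnat

/-- The properties of the family of the parts. `N` bounds the size of the rest. -/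
structure KFam {V : Type} [Fintype V] [DecidableEq V] (G : SimpleGraph V) [DecidableRel G.Adj]
    (D K N : ℕ) (𝒟 : Finset (Finset V)) : Prop where
  fam : DFam G 𝒟
  num : 𝒟.card + (rest 𝒟).card ≤ N
  bd : ∑ A ∈ 𝒟, dd G A + 3 * (rest 𝒟).card ≤ N
  far : ∀ X ∈ 𝒟, FarB G D X
  gir : ∀ X ∈ 𝒟, ∀ A ⊆ X, A.card < K → (G.induce (A : Set V)).IsAcyclic
  cut : ∀ X ∈ 𝒟, ∀ Y ⊆ X, ¬ (G.induce (Y : Set V)).IsAcyclic →
    ¬ (G.induce ((X \ Y : Finset V) : Set V)).IsAcyclic → K ≤ ee G Y (X \ Y)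

/-- **Few highly connected parts and a small rest, logarithmic form.** -/
theorem parts_log (D K : ℕ) : ∃ C : ℕ, ∀ {V : Type} [Fintype V] [DecidableEq V] [Nonempty V]
    (G : SimpleGraph V) [DecidableRel G.Adj], (∀ v, G.degree v = 3) → ∀ m : ℕ, 1 ≤ m →
    (¬ ∃ X : Fin m → Finset V, (∀ i j, i ≠ j → Disjoint (X i) (X j)) ∧
      ∀ i, ¬ (G.induce (X i : Set V)).IsAcyclic ∧ dd G (X i) ≤ C * (Nat.log 2 m + 1)) →
    ∃ 𝒟 : Finset (Finset V), KFam G D K (C * (m * (Nat.log 2 m + 1))) 𝒟 := by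
  obtain ⟨c, hKc, hc⟩ := ker_num D K
  obtain ⟨β, hβ⟩ : ∃ β, β = D + 4 := ⟨_, rfl⟩
  refine ⟨16 * (β * c) + 24 * c + 2, ?_⟩
  intro V _ _ _ G _ h3 m hm hsh
  obtain ⟨n, hn⟩ : ∃ n, n = Nat.log 2 m + 1 := ⟨_, rfl⟩
  rw [← hn] at hsh ⊢
  have hmn : m < 2 ^ n := by
    rw [hn]
    exact Nat.lt_pow_succ_log_self (by norm_num) m
  obtain ⟨j, hj, hjN⟩ := hc n (by omega)
  rw [← hβ] at hjN
  have e1 : ∀ x : ℕ, (16 * (β * c) + 24 * c + 2) * x = 16 * (β * c * x) + 24 * (c * x) + 2 * x :=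
    fun x => by ring
  have hsp : ∀ U : Finset V, U.card ≤ 8 * (β * (c * n)) * m + 2 * D + 2 * (c * n) →
      (∀ A ⊆ U, A.card ≤ c * n → (G.induce (A : Set V)).IsAcyclic) →
      β * U.card ≤ β * dd G U + U.card := by
    intro U hU hUg
    by_contra hcon
    push Not at hcon
    have hβ0 : (0 : ℝ) < β := by
      have : 0 < β := by omega
      exact_mod_cast this
    have hS : (dd G U : ℝ) < (1 - 1 / β) * U.card := by
      have h1 : (β : ℝ) * dd G U + U.card < β * U.card := by exact_mod_cast hcon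
      have h2 : (1 - 1 / (β : ℝ)) * U.card = (β * U.card - U.card) / β := by
        field_simp
      rw [h2, lt_div_iff₀ hβ0]
      linarith
    have h1 := sparse_loc h3 (η := 1 / (β : ℝ)) (by positivity) hj
      (fun A hA hAc => hUg A hA (by omega)) hS
    have h2 : U.card ≤ 8 * (β * (c * n)) * 2 ^ n + 2 * D + 2 * (c * n) := by
      have : 8 * (β * (c * n)) * m ≤ 8 * (β * (c * n)) * 2 ^ n := Nat.mul_le_mul_left _ hmn.le
      omega
    have h4 : (U.card : ℝ) ≤ ((8 * (β * (c * n)) * 2 ^ n + 2 * D + 2 * (c * n) : ℕ) : ℝ) := by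
      exact_mod_cast h2
    linarith
  obtain ⟨𝒟, d1, d2, d3, d4, d5⟩ := core (G := G) D (c * n) m
    (8 * (β * (c * n)) * m + 2 * D + 2 * (c * n)) h3 (by rw [hβ]) (by rw [← hβ]; exact hsp)
    (fun ⟨X, x1, x2⟩ => hsh ⟨X, x1, fun i => ⟨(x2 i).1, (x2 i).2.trans (by
      rw [e1, ← hβ]
      have : 4 * (β * (c * n)) = 4 * (β * c * n) := by ring
      omega)⟩⟩)
  rw [← hβ] at d3 d4
  have hKn : K ≤ c * n := hKc.trans (Nat.le_mul_of_pos_right _ (by omega))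
  have hmn1 : m ≤ m * n := Nat.le_mul_of_pos_right _ (by omega)
  have e2 : 4 * (β * (c * n)) * m = 4 * (β * c * (m * n)) := by ring
  have e3 : 8 * (c * n) * m = 8 * (c * (m * n)) := by ring
  have e4 := e1 (m * n)
  rw [e2] at d3 d4
  rw [e3] at d4
  refine ⟨𝒟, d1, ?_, ?_, fun X hX => (d5 X hX).1, fun X hX A hA hAc =>
    (d5 X hX).2.1 A hA (by omega), fun X hX Y hY h1 h2 => hKn.trans ((d5 X hX).2.2 Y hY h1 h2)⟩
  · rw [e4]
    omega
  · rw [e4]
    omega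

/-- **Few highly connected parts and a small rest, linear form.** -/
theorem parts_lin (D K : ℕ) : ∃ C : ℕ, ∀ {V : Type} [Fintype V] [DecidableEq V] [Nonempty V]
    (G : SimpleGraph V) [DecidableRel G.Adj], (∀ v, G.degree v = 3) → ∀ m : ℕ, 1 ≤ m →
    (∀ U : Finset V, U.card ≤ C * m → C * U.card ≤ C * dd G U + U.card) →
    (¬ ∃ X : Fin m → Finset V, (∀ i j, i ≠ j → Disjoint (X i) (X j)) ∧
      ∀ i, ¬ (G.induce (X i : Set V)).IsAcyclic ∧ dd G (X i) ≤ C) →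
    ∃ 𝒟 : Finset (Finset V), KFam G D K (C * m) 𝒟 := by
  obtain ⟨β, hβ⟩ : ∃ β, β = D + 4 := ⟨_, rfl⟩
  obtain ⟨C, hC⟩ : ∃ C, C = 16 * (β * K) + 24 * K + 2 * D + 2 + β := ⟨_, rfl⟩
  refine ⟨C, ?_⟩
  intro V _ _ _ G _ h3 m hm hU hsh
  have e1 : C * m = 16 * (β * K * m) + 24 * (K * m) + 2 * (D * m) + 2 * m + β * m := by
    rw [hC]
    ring
  have hDm : D ≤ D * m := Nat.le_mul_of_pos_right _ hm
  have hKm : K ≤ K * m := Nat.le_mul_of_pos_right _ hm
  have e0 : 8 * (β * K) * m = 8 * (β * K * m) := by ring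
  have hsp : ∀ U : Finset V, U.card ≤ 8 * (β * K) * m + 2 * D + 2 * K →
      β * U.card ≤ β * dd G U + U.card := by
    intro S hS
    have h1 := hU S (by omega)
    rcases Nat.le_total S.card (dd G S) with h2 | h2
    · have h4 : β * S.card ≤ β * dd G S := Nat.mul_le_mul_left _ h2
      omega
    · obtain ⟨x, hx⟩ := Nat.exists_eq_add_of_le h2
      rw [hx] at h1 ⊢
      have h4 : C * (dd G S + x) = C * dd G S + C * x := by ring
      have h5 : β * (dd G S + x) = β * dd G S + β * x := by ring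
      have h6 : β * x ≤ C * x := Nat.mul_le_mul_right _ (by omega)
      omega
  obtain ⟨𝒟, d1, d2, d3, d4, d5⟩ := core (G := G) D K m
    (8 * (β * K) * m + 2 * D + 2 * K) h3 (by rw [hβ]) (by
      rw [← hβ]
      exact fun U hU _ => hsp U hU)
    (fun ⟨X, x1, x2⟩ => hsh ⟨X, x1, fun i => ⟨(x2 i).1, (x2 i).2.trans (by
      rw [← hβ]
      omega)⟩⟩)
  rw [← hβ] at d3 d4
  have e2 : 4 * (β * K) * m = 4 * (β * K * m) := by ring
  have e3 : 8 * K * m = 8 * (K * m) := by ring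
  rw [e2] at d3 d4
  rw [e3] at d4
  refine ⟨𝒟, d1, ?_, ?_, fun X hX => (d5 X hX).1, fun X hX => (d5 X hX).2.1,
    fun X hX => (d5 X hX).2.2⟩
  · omega
  · omega

end Pool.Agent.K5.Ker
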