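import Mathlib
import Pool.Agent.Work.MP_974d84_co.Final
import Pool.Agent.Work.MP_974d84_co_k5.HandInG
import Pool.Agent.Work.MP_974d84_co_k5.FreeMain

/-!
# Graphs with few disjoint parts with small boundary

Assembly of theorem (FE) from the extension theorem and the decomposition.
-/

set_option linter.unusedSectionVars false

namespace Pool.Agent.K5

open Finset SimpleGraph Pool.Agent.Exp Pool.Agent.Log5 Pool.Agent.Log5.Clu MP974d84

/-- **(FE).** The hypotheses are the conclusion of `ext_e` and the decomposition theorem. -/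
theorem few_main (hext : ∃ D K : ℕ, ∀ {V : Type} [Fintype V] [DecidableEq V] (G : SimpleGraph V)
    [DecidableRel G.Adj], (∀ v, G.degree v = 3) → ∀ P : Finset V, FarB G D P →
    (∀ A ⊆ P, A.card < K → (G.induce (A : Set V)).IsAcyclic) →
    (∀ Y ⊆ P, ¬ (G.induce (Y : Set V)).IsAcyclic →
      ¬ (G.induce ((P \ Y : Finset V) : Set V)).IsAcyclic → K ≤ ee G Y (P \ Y)) →
    ∀ φ : V → ZMod 5, BdryOK G P φ → ExtFlow G P φ)
    (hparts : ∀ D k₀ : ℕ, ∃ C : ℕ, ∀ {V : Type} [Fintype V] [DecidableEq V] [Nonempty V]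
      (G : SimpleGraph V) [DecidableRel G.Adj], (∀ v, G.degree v = 3) → ∀ m : ℕ, 1 ≤ m →
      Gir G (C * m) →
      (¬ ∃ X : Fin m → Finset V, (∀ i j, i ≠ j → Disjoint (X i) (X j)) ∧
        ∀ i, ¬ (G.induce (X i : Set V)).IsAcyclic ∧ dd G (X i) ≤ C) →
      ∃ (s : ℕ) (P : Fin s → Finset V), 0 < s ∧ (∀ i j, i ≠ j → Disjoint (P i) (P j)) ∧
        (∀ i, ¬ (G.induce (P i : Set V)).IsAcyclic) ∧ (∀ i, FarB G D (P i)) ∧
        (∀ i, ∀ Y ⊆ P i, ¬ (G.induce (Y : Set V)).IsAcyclic →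
          ¬ (G.induce ((P i \ Y : Finset V) : Set V)).IsAcyclic → k₀ ≤ ee G Y (P i \ Y)) ∧
        ∀ U : Finset V, (∀ i, Disjoint U (P i)) → U.card ≤ dd G U) :
    ∃ C : ℕ, ∀ {V : Type} [Fintype V] [DecidableEq V] (G : SimpleGraph V) [DecidableRel G.Adj],
      (∀ v, G.degree v = 3) → CycConn G 5 → ∀ m : ℕ, 1 ≤ m → Gir G (C * m) →
      (¬ ∃ X : Fin m → Finset V, (∀ i j, i ≠ j → Disjoint (X i) (X j)) ∧
        ∀ i, ¬ (G.induce (X i : Set V)).IsAcyclic ∧ dd G (X i) ≤ C) →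
      HasNZFlow (ZMod 5) G := by
  obtain ⟨K, hK⟩ := free_main hext
  obtain ⟨C, hC⟩ := hparts K K
  refine ⟨C + K, fun {V} _ _ G _ h3 hc m hm hg hX => ?_⟩
  rcases isEmpty_or_nonempty V with hV | hV
  · exact ⟨fun _ _ => 0, fun u => hV.elim u, fun u => hV.elim u, fun u => hV.elim u⟩
  have hCm : C * m ≤ (C + K) * m := Nat.mul_le_mul_right m (by omega)
  have hKm : K ≤ (C + K) * m := by
    calc K ≤ (C + K) * 1 := by omega
      _ ≤ (C + K) * m := Nat.mul_le_mul_left _ hm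
  obtain ⟨s, P, hs, hdis, hcyc, hfar, hcut, hrest⟩ := hC G h3 m hm
    (fun A hA => hg A (lt_of_lt_of_le hA hCm)) (fun ⟨X, h1, h2⟩ => hX ⟨X, h1, fun i =>
      ⟨(h2 i).1, (h2 i).2.trans (by omega)⟩⟩)
  refine hK G h3 (k := 5) le_rfl hc hs P hdis hcyc hfar
    (fun i A _ hA => hg A (lt_of_lt_of_le hA hKm)) hcut fun U hU => ?_
  have h1 := hrest U hU
  omega

/-- The form of the hand-in. -/
theorem few_form (h : ∃ C : ℕ, ∀ {V : Type} [Fintype V] [DecidableEq V] (G : SimpleGraph V)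
      [DecidableRel G.Adj], (∀ v, G.degree v = 3) → CycConn G 5 → ∀ m : ℕ, 1 ≤ m →
      Gir G (C * m) →
      (¬ ∃ X : Fin m → Finset V, (∀ i j, i ≠ j → Disjoint (X i) (X j)) ∧
        ∀ i, ¬ (G.induce (X i : Set V)).IsAcyclic ∧ dd G (X i) ≤ C) →
      HasNZFlow (ZMod 5) G) :
    ∃ C : ℕ, ∀ (V : Type) [Fintype V] [DecidableEq V] (G : SimpleGraph V) [DecidableRel G.Adj],
    G.IsRegularOfDegree 3 →
    (∀ S : Finset V, ¬ (G.induce (S : Set V)).IsAcyclic →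
      ¬ (G.induce ((Sᶜ : Finset V) : Set V)).IsAcyclic → 5 ≤ (G.interedges S Sᶜ).card) →
    ∀ m : ℕ, 1 ≤ m → ((C * m : ℕ) : ℕ∞) ≤ G.egirth →
    (∃ X : Fin m → Finset V, (∀ i j, i ≠ j → Disjoint (X i) (X j)) ∧
      ∀ i, ¬ (G.induce (X i : Set V)).IsAcyclic ∧ (G.interedges (X i) (X i)ᶜ).card ≤ C) ∨
    ∀ i : ℕ, 5 ≤ i → HasNZFlow (ZMod i) G := by
  obtain ⟨C, hC⟩ := h
  refine ⟨C, ?_⟩
  intro V _ _ G _ h3 hS m hm hg
  by_cases hX : ∃ X : Fin m → Finset V, (∀ i j, i ≠ j → Disjoint (X i) (X j)) ∧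
      ∀ i, ¬ (G.induce (X i : Set V)).IsAcyclic ∧ (G.interedges (X i) (X i)ᶜ).card ≤ C
  · exact Or.inl hX
  · right
    refine lift_five (hC G h3 (fun S h1 h2 => ?_) m hm (gir_of_cycles fun v w hw => ?_)
      fun ⟨X, h1, h2⟩ => hX ⟨X, h1, fun i => ⟨(h2 i).1, ?_⟩⟩)
    · rw [← dd_interedges]
      exact hS S h1 h2
    · have := le_egirth.1 hg v w hw
      exact_mod_cast this
    · rw [dd_interedges]
      exact (h2 i).2

/-- **(FL).** The hypotheses are the conclusion of `ext_e` and the decomposition theorem with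
exponentially many parts. -/
theorem log_main (hext : ∃ D K : ℕ, ∀ {V : Type} [Fintype V] [DecidableEq V] (G : SimpleGraph V)
    [DecidableRel G.Adj], (∀ v, G.degree v = 3) → ∀ P : Finset V, FarB G D P →
    (∀ A ⊆ P, A.card < K → (G.induce (A : Set V)).IsAcyclic) →
    (∀ Y ⊆ P, ¬ (G.induce (Y : Set V)).IsAcyclic →
      ¬ (G.induce ((P \ Y : Finset V) : Set V)).IsAcyclic → K ≤ ee G Y (P \ Y)) →
    ∀ φ : V → ZMod 5, BdryOK G P φ → ExtFlow G P φ)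
    (hparts : ∀ D k₀ : ℕ, ∃ C : ℕ, ∀ {V : Type} [Fintype V] [DecidableEq V] [Nonempty V]
      (G : SimpleGraph V) [DecidableRel G.Adj], (∀ v, G.degree v = 3) → ∀ j : ℕ,
      Gir G (C * (j + 1)) →
      (¬ ∃ X : Fin (2 ^ j) → Finset V, (∀ i i', i ≠ i' → Disjoint (X i) (X i')) ∧
        ∀ i, ¬ (G.induce (X i : Set V)).IsAcyclic ∧ dd G (X i) ≤ C) →
      ∃ (s : ℕ) (P : Fin s → Finset V), 0 < s ∧ (∀ i i', i ≠ i' → Disjoint (P i) (P i')) ∧
        (∀ i, ¬ (G.induce (P i : Set V)).IsAcyclic) ∧ (∀ i, FarB G D (P i)) ∧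
        (∀ i, ∀ Y ⊆ P i, ¬ (G.induce (Y : Set V)).IsAcyclic →
          ¬ (G.induce ((P i \ Y : Finset V) : Set V)).IsAcyclic → k₀ ≤ ee G Y (P i \ Y)) ∧
        ∀ U : Finset V, (∀ i, Disjoint U (P i)) → 3 * U.card ≤ 4 * dd G U) :
    ∃ C : ℕ, ∀ {V : Type} [Fintype V] [DecidableEq V] (G : SimpleGraph V) [DecidableRel G.Adj],
      (∀ v, G.degree v = 3) → CycConn G 6 → ∀ j : ℕ, Gir G (C * (j + 1)) →
      (¬ ∃ X : Fin (2 ^ j) → Finset V, (∀ i i', i ≠ i' → Disjoint (X i) (X i')) ∧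
        ∀ i, ¬ (G.induce (X i : Set V)).IsAcyclic ∧ dd G (X i) ≤ C) →
      HasNZFlow (ZMod 5) G := by
  obtain ⟨K, hK⟩ := free_main hext
  obtain ⟨C, hC⟩ := hparts K K
  refine ⟨C + K, fun {V} _ _ G _ h3 hc j hg hX => ?_⟩
  rcases isEmpty_or_nonempty V with hV | hV
  · exact ⟨fun _ _ => 0, fun u => hV.elim u, fun u => hV.elim u, fun u => hV.elim u⟩
  have hCm : C * (j + 1) ≤ (C + K) * (j + 1) := Nat.mul_le_mul_right _ (by omega)
  have hKm : K ≤ (C + K) * (j + 1) := by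
    calc K ≤ (C + K) * 1 := by omega
      _ ≤ (C + K) * (j + 1) := Nat.mul_le_mul_left _ (by omega)
  obtain ⟨s, P, hs, hdis, hcyc, hfar, hcut, hrest⟩ := hC G h3 j
    (fun A hA => hg A (lt_of_lt_of_le hA hCm)) (fun ⟨X, h1, h2⟩ => hX ⟨X, h1, fun i =>
      ⟨(h2 i).1, (h2 i).2.trans (by omega)⟩⟩)
  refine hK G h3 (k := 6) (by norm_num) hc hs P hdis hcyc hfar
    (fun i A _ hA => hg A (lt_of_lt_of_le hA hKm)) hcut fun U hU => ?_
  have h1 := hrest U hU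
  omega

/-- The form of the hand-in of (FL). -/
theorem log_form (h : ∃ C : ℕ, ∀ {V : Type} [Fintype V] [DecidableEq V] (G : SimpleGraph V)
      [DecidableRel G.Adj], (∀ v, G.degree v = 3) → CycConn G 6 → ∀ j : ℕ,
      Gir G (C * (j + 1)) →
      (¬ ∃ X : Fin (2 ^ j) → Finset V, (∀ i i', i ≠ i' → Disjoint (X i) (X i')) ∧
        ∀ i, ¬ (G.induce (X i : Set V)).IsAcyclic ∧ dd G (X i) ≤ C) →
      HasNZFlow (ZMod 5) G) :
    ∃ C : ℕ, ∀ (V : Type) [Fintype V] [DecidableEq V] (G : SimpleGraph V) [DecidableRel G.Adj],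
    G.IsRegularOfDegree 3 →
    (∀ S : Finset V, ¬ (G.induce (S : Set V)).IsAcyclic →
      ¬ (G.induce ((Sᶜ : Finset V) : Set V)).IsAcyclic → 6 ≤ (G.interedges S Sᶜ).card) →
    ∀ j : ℕ, ((C * (j + 1) : ℕ) : ℕ∞) ≤ G.egirth →
    (∃ X : Fin (2 ^ j) → Finset V, (∀ i i', i ≠ i' → Disjoint (X i) (X i')) ∧
      ∀ i, ¬ (G.induce (X i : Set V)).IsAcyclic ∧ (G.interedges (X i) (X i)ᶜ).card ≤ C) ∨
    ∀ i : ℕ, 5 ≤ i → HasNZFlow (ZMod i) G := by
  obtain ⟨C, hC⟩ := h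
  refine ⟨C, ?_⟩
  intro V _ _ G _ h3 hS j hg
  by_cases hX : ∃ X : Fin (2 ^ j) → Finset V, (∀ i i', i ≠ i' → Disjoint (X i) (X i')) ∧
      ∀ i, ¬ (G.induce (X i : Set V)).IsAcyclic ∧ (G.interedges (X i) (X i)ᶜ).card ≤ C
  · exact Or.inl hX
  · right
    refine lift_five (hC G h3 (fun S h1 h2 => ?_) j (gir_of_cycles fun v w hw => ?_)
      fun ⟨X, h1, h2⟩ => hX ⟨X, h1, fun i => ⟨(h2 i).1, ?_⟩⟩)
    · rw [← dd_interedges]
      exact hS S h1 h2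
    · have := le_egirth.1 hg v w hw
      exact_mod_cast this
    · rw [dd_interedges]
      exact (h2 i).2

end Pool.Agent.K5
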