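import Mathlib
import Pool.Agent.Work.MP_974d84_co_k5.SparseGen

/-!
# Sets of moderate size are sparse when the girth is large
-/

set_option linter.unusedSectionVars false

namespace Pool.Agent.K5

open Finset SimpleGraph Pool.Agent.Exp Pool.Agent.Log5

/-- Girth at least `c (log N + 1)` makes all sets of at most `N` vertices sparse. -/
theorem sparse_of_gir (L : ℕ) (hL : 1 ≤ L) : ∃ c : ℕ, ∀ {V : Type} [Fintype V] [DecidableEq V]
    (G : SimpleGraph V) [DecidableRel G.Adj], (∀ v, G.degree v = 3) →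
    ∀ N : ℕ, Gir G (c * (Nat.log 2 N + 1)) → ∀ U : Finset V, U.card ≤ N →
      L * U.card ≤ L * dd G U + 2 * U.card := by
  refine ⟨6 * L + 3, ?_⟩
  intro V _ _ G _ h3 N hg U hU
  by_contra hcon
  push Not at hcon
  have hL0 : (0 : ℝ) < L := by exact_mod_cast hL
  set n : ℕ := Nat.log 2 N + 1 with hn
  have hS : (dd G U : ℝ) < (1 - 2 / L) * U.card := by
    have h1 : (L : ℝ) * dd G U + 2 * U.card < L * U.card := by exact_mod_cast hcon
    have h2 : (1 - 2 / (L : ℝ)) * U.card = (L * U.card - 2 * U.card) / L := by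
      field_simp
    rw [h2, lt_div_iff₀ hL0]
    linarith
  have hj : 2 * (3 * L * n) + 2 < (6 * L + 3) * n := by
    have h1 : 1 ≤ n := by omega
    nlinarith
  have h4 := sparse_gen h3 hg (η := 2 / L) (by positivity) hj hS
  -- the growth
  have h5 : (2 : ℝ) ≤ (1 + 2 / (L : ℝ) / 6) ^ (3 * L) := by
    have h6 := one_add_mul_le_pow (a := 2 / (L : ℝ) / 6) (by
      have : (0 : ℝ) ≤ 2 / (L : ℝ) / 6 := by positivity
      linarith) (3 * L)
    have h7 : 1 + ((3 * L : ℕ) : ℝ) * (2 / (L : ℝ) / 6) = 2 := by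
      push_cast
      field_simp
      norm_num
    rw [h7] at h6
    exact h6
  have h8 : (2 : ℝ) ^ n ≤ (1 + 2 / (L : ℝ) / 6) ^ (3 * L * n) := by
    rw [pow_mul]
    exact pow_le_pow_left₀ (by norm_num) h5 n
  have h9 : (2 : ℝ) ^ n ≤ N := by
    refine h8.trans (h4.trans ?_)
    exact_mod_cast hU
  have h10 : N < 2 ^ n := Nat.lt_pow_succ_log_self (by norm_num) N
  have h11 : 2 ^ n ≤ N := by exact_mod_cast h9
  omega

end Pool.Agent.K5
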