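import Mathlib
import Pool.Agent.Work.MP_974d84_co_k5.FewParts
import Pool.Agent.Work.MP_974d84_co_k5.SparseOfGir

/-!
# Highly connected parts and a sparse rest, exponential form

The girth needs to be only logarithmic in the number of the disjoint sets with small boundary.
-/

set_option linter.unusedSectionVars false

namespace Pool.Agent.K5.Parts

open Finset SimpleGraph Pool.Agent.Exp Pool.Agent.Log5 Pool.Agent.Log5.Clu Pool.Agent.K5

/-- **Highly connected parts and a sparse rest.** -/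
theorem exists_parts_log (D k₀ : ℕ) : ∃ C : ℕ, ∀ {V : Type} [Fintype V] [DecidableEq V]
    [Nonempty V] (G : SimpleGraph V) [DecidableRel G.Adj], (∀ v, G.degree v = 3) →
    ∀ j : ℕ, Gir G (C * (j + 1)) →
    (¬ ∃ X : Fin (2 ^ j) → Finset V, (∀ i i', i ≠ i' → Disjoint (X i) (X i')) ∧
      ∀ i, ¬ (G.induce (X i : Set V)).IsAcyclic ∧ dd G (X i) ≤ C) →
    ∃ (s : ℕ) (P : Fin s → Finset V), 0 < s ∧ (∀ i i', i ≠ i' → Disjoint (P i) (P i')) ∧
      (∀ i, ¬ (G.induce (P i : Set V)).IsAcyclic) ∧ (∀ i, FarB G D (P i)) ∧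
      (∀ i, ∀ Y ⊆ P i, ¬ (G.induce (Y : Set V)).IsAcyclic →
        ¬ (G.induce ((P i \ Y : Finset V) : Set V)).IsAcyclic → k₀ ≤ ee G Y (P i \ Y)) ∧
      ∀ U : Finset V, (∀ i, Disjoint U (P i)) → 3 * U.card ≤ 4 * dd G U := by
  obtain ⟨c, hc⟩ := sparse_of_gir (2 * (D + 4)) (by omega)
  set γ : ℕ := (D + 4) * k₀ with hγ
  set M : ℕ := 8 * γ + 2 * D + 1 with hM
  set a : ℕ := Nat.clog 2 M with ha
  refine ⟨c * (a + 1) + (4 * γ + 1), ?_⟩
  intro V _ _ _ G _ h3 j hg hsh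
  set C : ℕ := c * (a + 1) + (4 * γ + 1) with hC
  set N : ℕ := M * 2 ^ j with hN
  have h2j : 1 ≤ 2 ^ j := Nat.one_le_two_pow
  have hCj : C * 1 ≤ C * (j + 1) := Nat.mul_le_mul_left _ (by omega)
  have hlog : Nat.log 2 N ≤ a + j := by
    have h1 : N ≤ 2 ^ (a + j) := by
      rw [hN, pow_add]
      exact Nat.mul_le_mul_right _ (Nat.le_pow_clog (by norm_num) M)
    calc Nat.log 2 N ≤ Nat.log 2 (2 ^ (a + j)) := Nat.log_mono_right h1
      _ = a + j := Nat.log_pow (by norm_num) _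
  have hgN : c * (Nat.log 2 N + 1) ≤ C * (j + 1) := by
    calc c * (Nat.log 2 N + 1) ≤ c * ((a + 1) * (j + 1)) := by
          refine Nat.mul_le_mul_left _ ?_
          have : (a + 1) * (j + 1) = a * j + a + j + 1 := by ring
          omega
      _ = c * (a + 1) * (j + 1) := by ring
      _ ≤ C * (j + 1) := Nat.mul_le_mul_right _ (by omega)
  have hsp : ∀ U : Finset V, U.card ≤ N →
      (2 * (D + 4)) * U.card ≤ (2 * (D + 4)) * dd G U + 2 * U.card :=
    hc G h3 N fun A hA => hg A (lt_of_lt_of_le hA hgN)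
  have hsp' : ∀ U : Finset V, U.card ≤ N →
      (D + 4) * U.card ≤ (D + 4) * dd G U + U.card := by
    intro U hU
    have h1 := hsp U hU
    rw [Nat.mul_assoc, Nat.mul_assoc] at h1
    omega
  obtain ⟨s, P, p1, p2, p3, p4, p5, p6⟩ := core (G := G) D k₀ (2 ^ j) N h3
    (fun A hA => hg A (by omega))
    (by
      have h1 : N = 8 * ((D + 4) * k₀) * 2 ^ j + (2 * D + 1) * 2 ^ j := by
        rw [hN, hM, hγ]; ring
      have h2 : (2 * D + 1) * 1 ≤ (2 * D + 1) * 2 ^ j := Nat.mul_le_mul_left _ h2j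
      omega) hsp'
    (fun ⟨X, x1, x2⟩ => hsh ⟨X, x1, fun i => ⟨(x2 i).1, (x2 i).2.trans (by omega)⟩⟩)
  refine ⟨s, P, p1, p2, p3, p4, p5, fun U hU => ?_⟩
  have h1 := hsp' U (p6 U hU)
  by_contra hcon
  have h2 : 4 * dd G U + 1 ≤ 3 * U.card := by omega
  have h4 : D * (4 * dd G U) ≤ D * (3 * U.card) := Nat.mul_le_mul_left _ (by omega)
  have e1 : (D + 4) * U.card = D * U.card + 4 * U.card := by ring
  have e2 : (D + 4) * dd G U = D * dd G U + 4 * dd G U := by ring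
  have e3 : D * (4 * dd G U) = 4 * (D * dd G U) := by ring
  have e4 : D * (3 * U.card) = 3 * (D * U.card) := by ring
  have e5 : 0 ≤ D * U.card := Nat.zero_le _
  omega

end Pool.Agent.K5.Parts
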