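import Mathlib
import Pool.Agent.Work.MP_974d84_co_k5.SupE
import Pool.Agent.Work.MP_974d84_co_k5.MainE21

/-!
# Room BG: the extension theorem with explicit cyclic connectivity
-/

set_option linter.unusedSectionVars false

namespace Pool.Agent.K5

open Finset SimpleGraph Pool.Agent.Exp Pool.Agent.Log5 Pool.Agent.Log5.Clu SupE

/-- **The extension theorem for cyclic connectivity `κ ≥ 21`**: a part of large girth with
boundary edges which are far apart, all whose cyclic edge cuts have at least `κ` edges, accepts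
every zero-sum nowhere-zero boundary assignment. -/
theorem ext_kappa {κ : ℕ} (hκ : 21 ≤ κ) :
    ∃ D K : ℕ, ∀ {V : Type} [Fintype V] [DecidableEq V] (G : SimpleGraph V)
    [DecidableRel G.Adj], (∀ v, G.degree v = 3) → ∀ P : Finset V, FarB G D P →
    (∀ A ⊆ P, A.card < K → (G.induce (A : Set V)).IsAcyclic) →
    (∀ Y ⊆ P, ¬ (G.induce (Y : Set V)).IsAcyclic →
      ¬ (G.induce ((P \ Y : Finset V) : Set V)).IsAcyclic → κ ≤ ee G Y (P \ Y)) →
    ∀ φ : V → ZMod 5, BdryOK G P φ → ExtFlow G P φ := by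
  obtain ⟨D₀, k₀, hmain⟩ := main_e_kappa hκ
  refine ⟨2 * D₀ + 4, 4 * k₀ + 8, fun {V} _ _ G _ h3 P hF hg hP φ hφ => ?_⟩
  have h : Hyp G P := hyp_of h3 (hF.mono (by omega)) fun A hA hc => hg A hA (by omega)
  have hS : SupH G (4 * k₀ + 8) P := ⟨h3, hF.mono (by omega), hg⟩
  have hcyc : CycConn (supG G P) κ := cyc_HG h hP
  have h3' := degree_HG h
  obtain ⟨F, hFG, hF2⟩ := Pool.Agent.Thin5.exists_two_factor h3' (by omega : 3 ≤ κ) hcyc
  obtain ⟨t, ht⟩ := cm_sum hφ
  obtain ⟨x, hx, hX⟩ := hmain (supG G P) h3' hcyc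
    (gir_HG h fun A hA hc => hg A hA (by omega))
    (no_bridge h3' hcyc (by omega)) F hFG hF2 (supC G P (cm φ)) (marks_sup h hφ)
    (supG_far hS le_rfl hF (cm φ))
    ⟨t, by
      rw [supC_sum h, sum_congr rfl fun m hm => by rw [nw_univ h hm], ← mul_sum, ht]
      push_cast
      ring⟩
  exact lift_signs h hφ x hx hX

end Pool.Agent.K5
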