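import Mathlib
import Pool.Agent.Work.MP_974d84_co_k5.FewMain
import Pool.Agent.Work.MP_974d84_co_k5.FewPartsLog
import Pool.Agent.Work.MP_974d84_co_k5.SupE21

/-!
# Theorem (FL), final form
-/

set_option linter.unusedSectionVars false

namespace Pool.Agent.K5

open Finset SimpleGraph Pool.Agent.Exp Pool.Agent.Log5 Pool.Agent.Log5.Clu MP974d84

/-- The extension theorem in the form of `ext_e`. -/
theorem ext_final : ∃ D K : ℕ, ∀ {V : Type} [Fintype V] [DecidableEq V] (G : SimpleGraph V)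
    [DecidableRel G.Adj], (∀ v, G.degree v = 3) → ∀ P : Finset V, FarB G D P →
    (∀ A ⊆ P, A.card < K → (G.induce (A : Set V)).IsAcyclic) →
    (∀ Y ⊆ P, ¬ (G.induce (Y : Set V)).IsAcyclic →
      ¬ (G.induce ((P \ Y : Finset V) : Set V)).IsAcyclic → K ≤ ee G Y (P \ Y)) →
    ∀ φ : V → ZMod 5, BdryOK G P φ → ExtFlow G P φ := by
  obtain ⟨D, K, h⟩ := ext_kappa (κ := 21) le_rfl
  refine ⟨D, K + 21, fun {V} _ _ G _ h3 P hF hg hP φ hφ => ?_⟩
  exact h G h3 P hF (fun A hA hA' => hg A hA (by omega))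
    (fun Y hY h1 h2 => (by omega : 21 ≤ K + 21).trans (hP Y hY h1 h2)) φ hφ

/-- **(FL).** -/
theorem log_final : ∃ C : ℕ, ∀ (V : Type) [Fintype V] [DecidableEq V] (G : SimpleGraph V)
    [DecidableRel G.Adj], G.IsRegularOfDegree 3 →
    (∀ S : Finset V, ¬ (G.induce (S : Set V)).IsAcyclic →
      ¬ (G.induce ((Sᶜ : Finset V) : Set V)).IsAcyclic → 6 ≤ (G.interedges S Sᶜ).card) →
    ∀ j : ℕ, ((C * (j + 1) : ℕ) : ℕ∞) ≤ G.egirth →
    (∃ X : Fin (2 ^ j) → Finset V, (∀ i i', i ≠ i' → Disjoint (X i) (X i')) ∧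
      ∀ i, ¬ (G.induce (X i : Set V)).IsAcyclic ∧ (G.interedges (X i) (X i)ᶜ).card ≤ C) ∨
    ∀ i : ℕ, 5 ≤ i → HasNZFlow (ZMod i) G :=
  log_form (log_main ext_final Parts.exists_parts_log)

end Pool.Agent.K5
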