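import Mathlib
import Pool.Agent.Work.MP_974d84_co_k5.BeadT
import Pool.Agent.Work.MP_974d84_co_k5.ExtGlue

/-!
# E10: sets whose boundary assignments all extend, and the contraction theorem

Composition of the bead lemma and the extension theorem. (`P = univ` is allowed: then the
extension property is a nowhere-zero flow of the graph.)
-/

set_option linter.unusedSectionVars false

namespace Pool.Agent.K5.Con

open Finset SimpleGraph Pool.Agent.Exp Pool.Agent.Log5 Pool.Agent.Log5.Clu MP974d84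

section

variable {V : Type} [Fintype V] [DecidableEq V] {G : SimpleGraph V} [DecidableRel G.Adj]

theorem far_hb {D : ℕ} (hD : 1 ≤ D) {P : Finset V} (hP : FarB G D P) :
    ∀ v ∈ P, ∀ w w', w ∉ P → w' ∉ P → G.Adj v w → G.Adj v w' → w = w' := by
  intro v hv w w' hw hw' h1 h2
  have h := hP.one hD hv
  rw [ee_sum, sum_singleton, card_le_one] at h
  exact h w (by simp [h1, hw]) w' (by simp [h2, hw'])

theorem far_ee_out {D : ℕ} (hD : 1 ≤ D) {P : Finset V} (hP : FarB G D P) {S : Finset V}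
    (hS : S ⊆ P) : ee G S Pᶜ ≤ S.card := by
  rw [ee_sum, card_eq_sum_ones]
  refine sum_le_sum fun v hv => ?_
  have h := hP.one hD (hS hv)
  rwa [ee_sum, sum_singleton] at h

/-- A bead is connected. -/
theorem bead_joined (h3 : ∀ v, G.degree v = 3) {D : ℕ} (hD : 1 ≤ D) {P : Finset V}
    (hP : FarB G D P) (hcut : ∀ Y ⊆ P, ¬ (G.induce (Y : Set V)).IsAcyclic →
      ¬ (G.induce ((P \ Y : Finset V) : Set V)).IsAcyclic → 1 ≤ ee G Y (P \ Y)) :
    Joined G P := by
  have key : ∀ S ⊆ P, S.Nonempty → ee G S (P \ S) = 0 →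
      ¬ (G.induce (S : Set V)).IsAcyclic := by
    intro S hS hne h0 hac
    have h1 := dd_of_acyclic G h3 hne hac
    have h2 := dd_inner (G := G) hS
    have h4 := far_ee_out hD hP hS
    omega
  intro A hA hne hneq
  by_contra hno
  push Not at hno
  have h0 : ee G A (P \ A) = 0 := by
    unfold ee
    rw [card_eq_zero, filter_eq_empty_iff]
    rintro ⟨u, v⟩ - ⟨h1, h2, h4⟩
    exact hno u h1 v (mem_sdiff.1 h2).1 (mem_sdiff.1 h2).2 h4
  have hPA : (P \ A).Nonempty := by
    rw [sdiff_nonempty]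
    exact fun h => hneq (Subset.antisymm hA h)
  have h1 := key A hA hne h0
  have h2 : ee G (P \ A) (P \ (P \ A)) = 0 := by
    rw [sdiff_sdiff_right_self, inf_eq_inter, inter_eq_right.2 hA, ee_comm]
    exact h0
  have h4 := key (P \ A) sdiff_subset hPA h2
  have h5 := hcut A hA h1 h4
  omega

theorem two_le_of_cyc {P : Finset V} (hP : ¬ (G.induce (P : Set V)).IsAcyclic) :
    2 ≤ P.card := by
  by_contra hlt
  have h1 : P.card ≤ 1 := by omega
  refine hP ?_
  have h2 : Subsingleton (P : Set V) := by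
    constructor
    rintro ⟨a, ha⟩ ⟨b, hb⟩
    exact Subtype.ext (card_le_one.1 h1 a (by simpa using ha) b (by simpa using hb))
  intro v c hc
  cases c with
  | nil => exact hc.ne_nil rfl
  | cons h _ => exact h.ne (Subsingleton.elim _ _)

/-- If the extension property holds for all vertices there is a flow. -/
theorem flow_of_univ (h : ∀ φ : V → ZMod 5, BdryOK G univ φ → ExtFlow G univ φ) :
    HasNZFlow (ZMod 5) G := by
  obtain ⟨f, h1, h2, h4⟩ := h (fun _ => 0) ⟨fun v _ => ⟨fun _ w _ => mem_univ w,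
    fun _ => rfl⟩, by simp⟩
  refine ⟨f, h1, fun u v => ?_, fun v => ?_⟩
  · rw [h2]
    simp
  · simpa using h4 v (mem_univ v)

end

/-- The extension property of all beads with the constants `D`, `K` (conclusion of `ext_e`). -/
def ExtProp (D K : ℕ) : Prop :=
  ∀ {V : Type} [Fintype V] [DecidableEq V] (G : SimpleGraph V)
    [DecidableRel G.Adj], (∀ v, G.degree v = 3) → ∀ P : Finset V, FarB G D P →
    (∀ A ⊆ P, A.card < K → (G.induce (A : Set V)).IsAcyclic) →
    (∀ Y ⊆ P, ¬ (G.induce (Y : Set V)).IsAcyclic →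
      ¬ (G.induce ((P \ Y : Finset V) : Set V)).IsAcyclic → K ≤ ee G Y (P \ Y)) →
    ∀ φ : V → ZMod 5, BdryOK G P φ → ExtFlow G P φ

/-- **Sets whose boundary assignments all extend**, from a family of beads. `H G t` is the
hypothesis on the graph. -/
theorem ext_set_of (hext : ∃ D K : ℕ, ExtProp D K)
    (Hyp : ℕ → ∀ {V : Type} [Fintype V] [DecidableEq V] (G : SimpleGraph V)
      [DecidableRel G.Adj], Prop)
    (hbead : ∀ D K : ℕ, ∃ N : ℕ, ∀ {V : Type} [Fintype V] [DecidableEq V] (G : SimpleGraph V)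
      [DecidableRel G.Adj], (∀ v, G.degree v = 3) → Hyp N G →
      ∃ P : Finset V, ¬ (G.induce (P : Set V)).IsAcyclic ∧ FarB G D P ∧
        (∀ A ⊆ P, A.card < K → (G.induce (A : Set V)).IsAcyclic) ∧
        ∀ Y ⊆ P, ¬ (G.induce (Y : Set V)).IsAcyclic →
          ¬ (G.induce ((P \ Y : Finset V) : Set V)).IsAcyclic → K ≤ ee G Y (P \ Y)) (D₀ : ℕ) :
    ∃ N : ℕ, ∀ {V : Type} [Fintype V] [DecidableEq V] (G : SimpleGraph V)
      [DecidableRel G.Adj], (∀ v, G.degree v = 3) → Hyp N G →
      ∃ P : Finset V, ¬ (G.induce (P : Set V)).IsAcyclic ∧ FarB G D₀ P ∧ Joined G P ∧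
        2 ≤ P.card ∧
        (∀ v ∈ P, ∀ w w', w ∉ P → w' ∉ P → G.Adj v w → G.Adj v w' → w = w') ∧
        ∀ φ : V → ZMod 5, BdryOK G P φ → ExtFlow G P φ := by
  obtain ⟨D, K, hext⟩ := hext
  obtain ⟨N, hbead⟩ := hbead (D + D₀ + 1) (K + 1)
  refine ⟨N, ?_⟩
  intro V _ _ G _ h3 hH
  obtain ⟨P, hP, hfar, hgir, hcut⟩ := hbead G h3 hH
  refine ⟨P, hP, hfar.mono (by omega), bead_joined h3 (by omega) hfar fun Y hY h1 h2 => ?_,
    two_le_of_cyc hP, far_hb (by omega) hfar, ?_⟩
  · have := hcut Y hY h1 h2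
    omega
  · exact hext G h3 P (hfar.mono (by omega)) (fun A hA hc => hgir A hA (by omega))
      fun Y hY h1 h2 => (by omega : K ≤ K + 1).trans (hcut Y hY h1 h2)

/-- **The contraction theorem.** If all proper contractions of connected vertex sets (which span
a circuit and are left by few edges) have nowhere-zero 5-flows then the graph has one. -/
theorem flow_of_contr {V : Type} [Fintype V] [DecidableEq V] {G : SimpleGraph V}
    [DecidableRel G.Adj] {P : Finset V}
    (hb : ∀ v ∈ P, ∀ w w', w ∉ P → w' ∉ P → G.Adj v w → G.Adj v w' → w = w')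
    (hE : ∀ φ : V → ZMod 5, BdryOK G P φ → ExtFlow G P φ)
    (hcon : P ≠ univ → ContrFlow G P) : HasNZFlow (ZMod 5) G := by
  by_cases hu : P = univ
  · subst hu
    exact flow_of_univ hE
  · exact ext_glue hb (hcon hu) hE

end Pool.Agent.K5.Con
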