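import Mathlib
import Pool.Agent.Work.MP_974d84_co_k5.KerLog
import Pool.Agent.Work.MP_974d84_co_k5.FreeSets
import Pool.Agent.Work.MP_974d84_co_k5.Contract

/-!
# The kernel theorem

Every cubic graph has many disjoint sets with circuits and small boundary or it is contracted,
without change of the solvability of the flow problem modulo five, onto a small multigraph.
-/

set_option linter.unusedSectionVars false

namespace Pool.Agent.K5.Ker

open Finset SimpleGraph Pool.Agent.Exp Pool.Agent.Log5 Pool.Agent.Log5.Clu Pool.Agent.K5 MP974d84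
open Pool.Agent.K5.Parts Pool.Agent.K5.Con

section

variable {V : Type} [Fintype V] [DecidableEq V] {G : SimpleGraph V} [DecidableRel G.Adj]

/-- A nowhere-zero flow modulo five of the multigraph which arises by contraction of the classes
of `c`. -/
def QFlow {n : ℕ} (G : SimpleGraph V) (c : V → Fin n) : Prop :=
  ∃ f : V → V → ZMod 5, (∀ u v, f u v = - f v u) ∧ (∀ u v, f u v ≠ 0 ↔ G.Adj u v ∧ c u ≠ c v) ∧
    ∀ q, ∑ v ∈ univ.filter (fun v => c v = q), ∑ u, f v u = 0

/-- Flows of a graph give flows of its contractions. -/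
theorem qflow_of_flow {n : ℕ} (c : V → Fin n) (h : HasNZFlow (ZMod 5) G) : QFlow G c := by
  classical
  obtain ⟨f, hfa, hfn, hfc⟩ := h
  refine ⟨fun u v => if c u = c v then 0 else f u v, fun u v => ?_, fun u v => ?_, fun q => ?_⟩
  · show (if c u = c v then 0 else f u v) = -(if c v = c u then 0 else f v u)
    by_cases hc : c u = c v
    · rw [if_pos hc, if_pos hc.symm, neg_zero]
    · rw [if_neg hc, if_neg fun h => hc h.symm, hfa u v]
  · show (if c u = c v then 0 else f u v) ≠ 0 ↔ _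
    by_cases hc : c u = c v
    · rw [if_pos hc]
      exact ⟨fun h => absurd rfl h, fun h => absurd hc h.2⟩
    · rw [if_neg hc, hfn]
      exact ⟨fun h => ⟨h, hc⟩, fun h => h.1⟩
  · show ∑ v ∈ univ.filter (fun v => c v = q), ∑ u, (if c v = c u then 0 else f v u) = 0
    have h1 : ∀ v ∈ univ.filter (fun v => c v = q),
        ∑ u, (if c v = c u then 0 else f v u) +
          ∑ u ∈ univ.filter (fun v => c v = q), f v u = ∑ u, f v u := by
      intro v hv
      rw [mem_filter] at hv
      rw [← sum_filter_add_sum_filter_not univ (fun u => c u = q) (fun u => f v u), add_comm]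
      congr 1
      rw [sum_filter]
      refine sum_congr rfl fun u _ => ?_
      by_cases hu : c u = q
      · rw [if_pos (hv.2.trans hu.symm), if_neg (not_not.2 hu)]
      · rw [if_neg fun h => hu (h.symm.trans hv.2), if_pos hu]
    have h2 := sum_congr rfl h1
    rw [sum_add_distrib, anti_inner5 hfa, add_zero] at h2
    rw [h2]
    exact sum_eq_zero fun v _ => hfc v

/-- **Contraction of a family.** -/
theorem contract_fam (h3 : ∀ v, G.degree v = 3) {D K N : ℕ} (hD : 1 ≤ D) (hK : 1 ≤ K)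
    {𝒟 : Finset (Finset V)} (h𝒟 : KFam G D K N 𝒟)
    (hext : ∀ X ∈ 𝒟, ∀ φ, BdryOK G X φ → ExtFlow G X φ) :
    ∃ (n : ℕ) (c : V → Fin n), (∀ q, (G.induce {v | c v = q}).Connected) ∧ n ≤ N ∧
      (univ.filter fun e : V × V => G.Adj e.1 e.2 ∧ c e.1 ≠ c e.2).card ≤ N ∧
      (HasNZFlow (ZMod 5) G ↔ QFlow G c) := by
  classical
  obtain ⟨hF, hnum, hbd, hfar, hgir, hcut⟩ := h𝒟
  -- the classes
  let Ps : Finset (Finset V) := 𝒟 ∪ (rest 𝒟).image fun v => {v}
  have hP : ∀ v : V, ∃ A ∈ Ps, v ∈ A := by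
    intro v
    by_cases hv : ∃ A ∈ 𝒟, v ∈ A
    · obtain ⟨A, hA, hvA⟩ := hv
      exact ⟨A, mem_union_left _ hA, hvA⟩
    · push Not at hv
      exact ⟨{v}, mem_union_right _ (mem_image_of_mem _ (mem_rest.2 hv)), mem_singleton_self v⟩
  have hPd : ∀ A ∈ Ps, ∀ B ∈ Ps, ∀ v, v ∈ A → v ∈ B → A = B := by
    intro A hA B hB v hvA hvB
    rcases mem_union.1 hA with hA | hA <;> rcases mem_union.1 hB with hB | hB
    · by_contra hne
      exact Finset.disjoint_left.1 (hF.disj A hA B hB hne) hvA hvB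
    · obtain ⟨w, hw, rfl⟩ := mem_image.1 hB
      rw [mem_singleton] at hvB
      subst hvB
      exact absurd hvA (mem_rest.1 hw A hA)
    · obtain ⟨w, hw, rfl⟩ := mem_image.1 hA
      rw [mem_singleton] at hvA
      subst hvA
      exact absurd hvB (mem_rest.1 hw B hB)
    · obtain ⟨w, hw, rfl⟩ := mem_image.1 hA
      obtain ⟨w', hw', rfl⟩ := mem_image.1 hB
      rw [mem_singleton] at hvA hvB
      rw [← hvA, ← hvB]
  have hPc : ∀ A ∈ Ps, (G.induce (A : Set V)).Connected := by
    intro A hA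
    rcases mem_union.1 hA with hA | hA
    · exact far_conn h3 hD hK (hfar A hA) (ne_of_cyc (hF.cyc A hA)) (hcut A hA)
    · obtain ⟨w, -, rfl⟩ := mem_image.1 hA
      exact conn_of_joined (singleton_nonempty w) (joined_singleton w)
  choose cl hcl1 hcl2 using hP
  have hcl : ∀ A ∈ Ps, ∀ v ∈ A, cl v = A := fun A hA v hv =>
    hPd _ (hcl1 v) A hA v (hcl2 v) hv
  let e := Ps.equivFin
  let c : V → Fin Ps.card := fun v => e ⟨cl v, hcl1 v⟩
  have hc : ∀ u v, c u = c v ↔ cl u = cl v := by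
    intro u v
    constructor
    · intro h
      have := e.injective h
      exact Subtype.ext_iff.1 this
    · intro h
      show e ⟨cl u, hcl1 u⟩ = e ⟨cl v, hcl1 v⟩
      congr 1
      exact Subtype.ext h
  have hcq : ∀ v q, c v = q ↔ v ∈ (e.symm q).1 := by
    intro v q
    constructor
    · rintro rfl
      show v ∈ (e.symm (e ⟨cl v, hcl1 v⟩)).1
      rw [Equiv.symm_apply_apply]
      exact hcl2 v
    · intro hv
      have h1 := hcl _ (e.symm q).2 v hv
      show e ⟨cl v, hcl1 v⟩ = q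
      have h2 : (⟨cl v, hcl1 v⟩ : {x // x ∈ Ps}) = e.symm q := Subtype.ext h1
      rw [h2, Equiv.apply_symm_apply]
  have hrc : ∀ v ∈ rest 𝒟, cl v = {v} := fun v hv =>
    hcl {v} (mem_union_right _ (mem_image_of_mem _ hv)) v (mem_singleton_self v)
  have hce : ∀ u v, cl u = cl v ↔ u = v ∨ ∃ A ∈ 𝒟, u ∈ A ∧ v ∈ A := by
    intro u v
    constructor
    · intro h
      by_cases hu : ∃ A ∈ 𝒟, u ∈ A
      · obtain ⟨A, hA, huA⟩ := hu
        right
        refine ⟨A, hA, huA, ?_⟩
        rw [← hcl A (mem_union_left _ hA) u huA, h]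
        exact hcl2 v
      · push Not at hu
        left
        have h1 := hcl2 v
        rw [← h, hrc u (mem_rest.2 hu), mem_singleton] at h1
        exact h1.symm
    · rintro (rfl | ⟨A, hA, hu, hv⟩)
      · rfl
      · rw [hcl A (mem_union_left _ hA) u hu, hcl A (mem_union_left _ hA) v hv]
  refine ⟨Ps.card, c, fun q => ?_, ?_, ?_, fun h => qflow_of_flow c h, ?_⟩
  · have h1 : {v | c v = q} = (((e.symm q).1 : Finset V) : Set V) := by
      ext v
      rw [Set.mem_setOf_eq, hcq, mem_coe]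
    rw [h1]
    exact hPc _ (e.symm q).2
  · exact ((card_union_le _ _).trans (Nat.add_le_add_left card_image_le _)).trans hnum
  · have hsub : (univ.filter fun e : V × V => G.Adj e.1 e.2 ∧ c e.1 ≠ c e.2) ⊆
        (𝒟.biUnion fun A => Pool.Agent.Work.MP_314beb_co.cut G A) ∪
          (rest 𝒟).biUnion fun u => (G.neighborFinset u).image fun w => (u, w) := by
      rintro ⟨u, v⟩ hp
      obtain ⟨-, huv, hne⟩ := mem_filter.1 hp
      simp only at huv hne
      rw [mem_union, mem_biUnion, mem_biUnion]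
      by_cases hu : ∃ A ∈ 𝒟, u ∈ A
      · obtain ⟨A, hA, huA⟩ := hu
        refine Or.inl ⟨A, hA, ?_⟩
        rw [mem_cut]
        exact ⟨huA, fun hvA => hne ((hc u v).2 ((hce u v).2 (Or.inr ⟨A, hA, huA, hvA⟩))), huv⟩
      · push Not at hu
        refine Or.inr ⟨u, mem_rest.2 hu, ?_⟩
        rw [mem_image]
        exact ⟨v, (G.mem_neighborFinset u v).2 huv, rfl⟩
    refine (card_le_card hsub).trans ((card_union_le _ _).trans ?_)
    refine le_trans (Nat.add_le_add card_biUnion_le
      (card_biUnion_le_card_mul _ _ 3 fun u _ => ?_)) ?_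
    · refine card_image_le.trans (le_of_eq ?_)
      rw [card_neighborFinset_eq_degree, h3]
    · have e1 : (rest 𝒟).card * 3 = 3 * (rest 𝒟).card := Nat.mul_comm _ _
      rw [e1]
      exact hbd
  · rintro ⟨f, hfa, hfn, hfc⟩
    let ε := 𝒟.equivFin
    have hmem : ∀ i : Fin 𝒟.card, (ε.symm i).1 ∈ 𝒟 := fun i => (ε.symm i).2
    have hex : ∀ u v : V, (∃ i : Fin 𝒟.card, u ∈ (ε.symm i).1 ∧ v ∈ (ε.symm i).1) ↔
        ∃ A ∈ 𝒟, u ∈ A ∧ v ∈ A := by
      intro u v
      constructor
      · rintro ⟨i, h⟩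
        exact ⟨_, hmem i, h⟩
      · rintro ⟨A, hA, h⟩
        refine ⟨ε ⟨A, hA⟩, ?_⟩
        rw [Equiv.symm_apply_apply]
        exact h
    refine ext_glue_many (P := fun i => (ε.symm i).1) (fun i j hij => ?_)
      (fun i => far_hb hD (hfar _ (hmem i))) f hfa (fun u v => ?_) (fun v hv => ?_) (fun i => ?_)
      (fun i => hext _ (hmem i))
    · refine hF.disj _ (hmem i) _ (hmem j) fun h => hij (ε.symm.injective (Subtype.ext h))
    · rw [hfn u v]
      constructor
      · rintro ⟨h1, h2⟩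
        refine ⟨h1, fun h4 => h2 ((hc u v).2 ((hce u v).2 (Or.inr ((hex u v).1 h4))))⟩
      · rintro ⟨h1, h2⟩
        refine ⟨h1, fun h4 => ?_⟩
        rcases (hce u v).1 ((hc u v).1 h4) with h5 | h5
        · exact h1.ne h5
        · exact h2 ((hex u v).2 h5)
    · have hvr : v ∈ rest 𝒟 := by
        rw [mem_rest]
        intro A hA hvA
        refine hv (ε ⟨A, hA⟩) ?_
        simp only [Equiv.symm_apply_apply]
        exact hvA
      have h1 := hfc (c v)
      have h2 : univ.filter (fun w => c w = c v) = {v} := by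
        ext w
        simp only [mem_filter, mem_univ, true_and, mem_singleton]
        constructor
        · intro h
          have h4 := (hc w v).1 h
          rw [hrc v hvr] at h4
          have h5 := hcl2 w
          rw [h4, mem_singleton] at h5
          exact h5
        · rintro rfl
          rfl
      rw [h2, sum_singleton] at h1
      exact h1
    · have hne : ((ε.symm i).1).Nonempty := ne_of_cyc (hF.cyc _ (hmem i))
      obtain ⟨v, hv⟩ := hne
      have h1 := hfc (c v)
      have hvA := hcl _ (mem_union_left _ (hmem i)) v hv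
      have h2 : univ.filter (fun w => c w = c v) = (ε.symm i).1 := by
        ext w
        simp only [mem_filter, mem_univ, true_and]
        constructor
        · intro h
          have h4 := (hc w v).1 h
          rw [hvA] at h4
          rw [← h4]
          exact hcl2 w
        · intro hw
          refine (hc w v).2 ?_
          rw [hvA]
          exact hcl _ (mem_union_left _ (hmem i)) w hw
      rw [h2] at h1
      exact h1

end

/-- **The kernel theorem.** -/
theorem kernel_log (hext : ∃ D K : ℕ, ExtProp D K) :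
    ∃ C : ℕ, ∀ (V : Type) [Fintype V] [DecidableEq V] (G : SimpleGraph V) [DecidableRel G.Adj],
    G.IsRegularOfDegree 3 → ∀ m : ℕ, 1 ≤ m →
    (∃ X : Fin m → Finset V, (∀ i j, i ≠ j → Disjoint (X i) (X j)) ∧
      ∀ i, ¬ (G.induce (X i : Set V)).IsAcyclic ∧
        (G.interedges (X i) (X i)ᶜ).card ≤ C * (Nat.log 2 m + 1)) ∨
    ∃ (n : ℕ) (c : V → Fin n), (∀ q, (G.induce {v | c v = q}).Connected) ∧
      n ≤ C * (m * (Nat.log 2 m + 1)) ∧
      (univ.filter fun e : V × V => G.Adj e.1 e.2 ∧ c e.1 ≠ c e.2).card ≤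
        C * (m * (Nat.log 2 m + 1)) ∧
      (HasNZFlow (ZMod 5) G ↔ QFlow G c) := by
  obtain ⟨D, K, hext⟩ := hext
  obtain ⟨C, hC⟩ := parts_log (D + 1) (K + 1)
  refine ⟨C, ?_⟩
  intro V _ _ G _ h3 m hm
  rcases isEmpty_or_nonempty V with hV | hV
  · right
    refine ⟨0, fun v => hV.elim v, fun q => q.elim0, Nat.zero_le _, ?_, fun _ => ?_, fun _ => ?_⟩
    · rw [univ_eq_empty, filter_empty, card_empty]
      exact Nat.zero_le _
    · exact ⟨fun _ _ => 0, fun u => hV.elim u, fun u => hV.elim u, fun q => q.elim0⟩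
    · exact ⟨fun _ _ => 0, fun u => hV.elim u, fun u => hV.elim u, fun u => hV.elim u⟩
  by_cases hX : ∃ X : Fin m → Finset V, (∀ i j, i ≠ j → Disjoint (X i) (X j)) ∧
      ∀ i, ¬ (G.induce (X i : Set V)).IsAcyclic ∧
        (G.interedges (X i) (X i)ᶜ).card ≤ C * (Nat.log 2 m + 1)
  · exact Or.inl hX
  · right
    obtain ⟨𝒟, h𝒟⟩ := hC G h3 m hm fun ⟨X, x1, x2⟩ => hX ⟨X, x1, fun i => ⟨(x2 i).1, by
      rw [dd_interedges]
      exact (x2 i).2⟩⟩
    refine contract_fam h3 (by omega) (by omega) h𝒟 fun X hX => ?_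
    exact hext G h3 X ((h𝒟.far X hX).mono (by omega)) (fun A hA hc => h𝒟.gir X hX A hA (by omega))
      fun Y hY h1 h2 => (by omega : K ≤ K + 1).trans (h𝒟.cut X hX Y hY h1 h2)

/-- **The kernel theorem, linear form.** -/
theorem kernel_lin (hext : ∃ D K : ℕ, ExtProp D K) :
    ∃ C : ℕ, ∀ (V : Type) [Fintype V] [DecidableEq V] (G : SimpleGraph V) [DecidableRel G.Adj],
    G.IsRegularOfDegree 3 → ∀ m : ℕ, 1 ≤ m →
    (∃ U : Finset V, U.card ≤ C * m ∧ C * dd G U + U.card < C * U.card) ∨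
    (∃ X : Fin m → Finset V, (∀ i j, i ≠ j → Disjoint (X i) (X j)) ∧
      ∀ i, ¬ (G.induce (X i : Set V)).IsAcyclic ∧ (G.interedges (X i) (X i)ᶜ).card ≤ C) ∨
    ∃ (n : ℕ) (c : V → Fin n), (∀ q, (G.induce {v | c v = q}).Connected) ∧
      n ≤ C * m ∧
      (univ.filter fun e : V × V => G.Adj e.1 e.2 ∧ c e.1 ≠ c e.2).card ≤ C * m ∧
      (HasNZFlow (ZMod 5) G ↔ QFlow G c) := by
  obtain ⟨D, K, hext⟩ := hext
  obtain ⟨C, hC⟩ := parts_lin (D + 1) (K + 1)
  refine ⟨C, ?_⟩
  intro V _ _ G _ h3 m hm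
  rcases isEmpty_or_nonempty V with hV | hV
  · right
    right
    refine ⟨0, fun v => hV.elim v, fun q => q.elim0, Nat.zero_le _, ?_, fun _ => ?_, fun _ => ?_⟩
    · rw [univ_eq_empty, filter_empty, card_empty]
      exact Nat.zero_le _
    · exact ⟨fun _ _ => 0, fun u => hV.elim u, fun u => hV.elim u, fun q => q.elim0⟩
    · exact ⟨fun _ _ => 0, fun u => hV.elim u, fun u => hV.elim u, fun u => hV.elim u⟩
  by_cases hU : ∃ U : Finset V, U.card ≤ C * m ∧ C * dd G U + U.card < C * U.card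
  · exact Or.inl hU
  by_cases hX : ∃ X : Fin m → Finset V, (∀ i j, i ≠ j → Disjoint (X i) (X j)) ∧
      ∀ i, ¬ (G.induce (X i : Set V)).IsAcyclic ∧ (G.interedges (X i) (X i)ᶜ).card ≤ C
  · exact Or.inr (Or.inl hX)
  · right
    right
    push Not at hU
    obtain ⟨𝒟, h𝒟⟩ := hC G h3 m hm (fun U h1 => hU U h1) fun ⟨X, x1, x2⟩ =>
      hX ⟨X, x1, fun i => ⟨(x2 i).1, by
        rw [dd_interedges]
        exact (x2 i).2⟩⟩
    refine contract_fam h3 (by omega) (by omega) h𝒟 fun X hX => ?_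
    exact hext G h3 X ((h𝒟.far X hX).mono (by omega)) (fun A hA hc => h𝒟.gir X hX A hA (by omega))
      fun Y hY h1 h2 => (by omega : K ≤ K + 1).trans (h𝒟.cut X hX Y hY h1 h2)

end Pool.Agent.K5.Ker
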