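import Mathlib
import Pool.Agent.Work.MP_974d84_co_k5.FewFinal
import Pool.Agent.Work.MP_974d84_co_k5.KerMain
import Pool.Agent.Work.MP_974d84_co_k5.HandInE

/-!
# The kernel theorem, final form
-/

set_option linter.unusedSectionVars false

namespace Pool.Agent.K5.Ker

open Finset SimpleGraph Pool.Agent.Exp Pool.Agent.Log5 Pool.Agent.Log5.Clu Pool.Agent.K5 MP974d84
open Pool.Agent.K5.Con

/-- The extension theorem. -/
theorem ext_prop : ∃ D K : ℕ, ExtProp D K := by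
  obtain ⟨D, K, h⟩ := ext_final
  exact ⟨D, K, fun G => h G⟩

/-- **(K), final form.** -/
theorem kernel_final :
    ∃ C : ℕ, ∀ (V : Type) [Fintype V] [DecidableEq V] (G : SimpleGraph V) [DecidableRel G.Adj],
    G.IsRegularOfDegree 3 → ∀ m : ℕ, 1 ≤ m →
    (∃ X : Fin m → Finset V, (∀ i j, i ≠ j → Disjoint (X i) (X j)) ∧
      ∀ i, ¬ (G.induce (X i : Set V)).IsAcyclic ∧
        (G.interedges (X i) (X i)ᶜ).card ≤ C * (Nat.log 2 m + 1)) ∨
    ∃ (n : ℕ) (c : V → Fin n), (∀ q, (G.induce {v | c v = q}).Connected) ∧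
      n ≤ C * (m * (Nat.log 2 m + 1)) ∧
      (univ.filter fun e : V × V => G.Adj e.1 e.2 ∧ c e.1 ≠ c e.2).card ≤
        C * (m * (Nat.log 2 m + 1)) ∧
      (HasNZFlow (ZMod 5) G ↔ ∃ f : V → V → ZMod 5, (∀ u v, f u v = - f v u) ∧
        (∀ u v, f u v ≠ 0 ↔ G.Adj u v ∧ c u ≠ c v) ∧
        ∀ q, ∑ v ∈ univ.filter (fun v => c v = q), ∑ u, f v u = 0) :=
  kernel_log ext_prop

/-- **(K), final linear form.** -/
theorem kernel_final_lin :
    ∃ C : ℕ, ∀ (V : Type) [Fintype V] [DecidableEq V] (G : SimpleGraph V) [DecidableRel G.Adj],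
    G.IsRegularOfDegree 3 → ∀ m : ℕ, 1 ≤ m →
    (∃ U : Finset V, U.card ≤ C * m ∧
      (2 * C + 1) * U.card < 2 * C * (G.induce (U : Set V)).edgeSet.ncard) ∨
    (∃ X : Fin m → Finset V, (∀ i j, i ≠ j → Disjoint (X i) (X j)) ∧
      ∀ i, ¬ (G.induce (X i : Set V)).IsAcyclic ∧ (G.interedges (X i) (X i)ᶜ).card ≤ C) ∨
    ∃ (n : ℕ) (c : V → Fin n), (∀ q, (G.induce {v | c v = q}).Connected) ∧
      n ≤ C * m ∧
      (univ.filter fun e : V × V => G.Adj e.1 e.2 ∧ c e.1 ≠ c e.2).card ≤ C * m ∧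
      (HasNZFlow (ZMod 5) G ↔ ∃ f : V → V → ZMod 5, (∀ u v, f u v = - f v u) ∧
        (∀ u v, f u v ≠ 0 ↔ G.Adj u v ∧ c u ≠ c v) ∧
        ∀ q, ∑ v ∈ univ.filter (fun v => c v = q), ∑ u, f v u = 0) := by
  obtain ⟨C, hC⟩ := kernel_lin ext_prop
  refine ⟨C, ?_⟩
  intro V _ _ G _ h3 m hm
  rcases hC V G h3 m hm with ⟨U, hU, h1⟩ | h | h
  · left
    refine ⟨U, hU, ?_⟩
    have h2 := dd_add_edges h3 U
    set e := (G.induce (U : Set V)).edgeSet.ncard with he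
    have h5 : C * (dd G U + 2 * e) = C * (3 * U.card) := by rw [h2]
    have h4 : C * (dd G U + 2 * e) = C * dd G U + 2 * C * e := by ring
    have h6 : C * (3 * U.card) = C * U.card + 2 * C * U.card := by ring
    have h7 : (2 * C + 1) * U.card = 2 * C * U.card + U.card := by ring
    omega
  · exact Or.inr (Or.inl h)
  · exact Or.inr (Or.inr h)

end Pool.Agent.K5.Ker
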