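import Mathlib
import Pool.Agent.Work.MP_974d84_co.Hoffman
import Pool.Agent.Work.MP_974d84_co_k5.KerMain
import Pool.Agent.Work.MP_974d84_co_k5.ExtGlue

/-!
# The kernel theorem for circular flows
-/

set_option linter.unusedSectionVars false

namespace Pool.Agent.K5.Ker

open Finset SimpleGraph Pool.Agent.Exp Pool.Agent.Log5 Pool.Agent.Log5.Clu Pool.Agent.K5 MP974d84
open Pool.Agent.K5.Parts Pool.Agent.K5.Con

section

variable {V : Type} [Fintype V] [DecidableEq V]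

theorem anti_inner_real {f : V → V → ℝ} (hf : ∀ u v, f u v = - f v u) (Z : Finset V) :
    ∑ v ∈ Z, ∑ w ∈ Z, f v w = 0 := by
  have h1 : ∑ v ∈ Z, ∑ w ∈ Z, f v w = ∑ v ∈ Z, ∑ w ∈ Z, f w v := sum_comm
  have h2 : ∑ v ∈ Z, ∑ w ∈ Z, f v w = - ∑ v ∈ Z, ∑ w ∈ Z, f w v := by
    rw [← sum_neg_distrib]
    refine sum_congr rfl fun v _ => ?_
    rw [← sum_neg_distrib]
    exact sum_congr rfl fun w _ => hf v w
  linarith

theorem dv_cut_real {f : V → V → ℝ} (hf : ∀ u v, f u v = - f v u) (Z : Finset V) :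
    ∑ v ∈ Z, ∑ w, f v w = ∑ v ∈ Z, ∑ w ∈ Zᶜ, f v w := by
  have h1 : ∀ v, ∑ w, f v w = ∑ w ∈ Z, f v w + ∑ w ∈ Zᶜ, f v w := fun v =>
    (sum_add_sum_compl Z _).symm
  simp only [h1, sum_add_distrib, anti_inner_real hf Z, zero_add]

/-- **From flows modulo `r` to flows.** -/
theorem real_of_mod {G : SimpleGraph V} {r : ℝ} (hr : 2 < r) {F : V → V → ℝ}
    (hF1 : ∀ u v, F u v = - F v u) (hF0 : ∀ u v, ¬ G.Adj u v → F u v = 0)
    (hF2 : ∀ u v, G.Adj u v → 1 ≤ |F u v| ∧ |F u v| ≤ r - 1)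
    (hFd : ∀ v, ∃ k : ℤ, ∑ w, F v w = r * k) :
    ∃ f : V → V → ℝ, (∀ u v, f u v = - f v u) ∧ (∀ u v, ¬ G.Adj u v → f u v = 0) ∧
      (∀ u v, G.Adj u v → 1 ≤ |f u v| ∧ |f u v| ≤ r - 1) ∧ ∀ v, ∑ w, f v w = 0 := by
  classical
  choose k hk using hFd
  have hr0 : 0 < r := by linarith
  obtain ⟨g, hg1, hg2, hg3⟩ := hoffman (fun v w => if F v w < 0 then 1 else 0) (fun v => - k v)
    (fun _ _ => 0) (fun _ _ => by simp) (fun v w => by split_ifs <;> simp) (by
      have h1 : ∑ v, ∑ w, F v w = 0 := anti_inner_real hF1 univ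
      have h2 : r * ((∑ v, k v : ℤ) : ℝ) = 0 := by
        rw [← h1]
        push_cast
        rw [mul_sum]
        exact sum_congr rfl fun v _ => (hk v).symm
      have h3 : ((∑ v, k v : ℤ) : ℝ) = 0 := by
        rcases mul_eq_zero.1 h2 with h | h
        · linarith
        · exact h
      have h4 : ∑ v, k v = 0 := by exact_mod_cast h3
      rw [sum_neg_distrib, h4, neg_zero]) (by
      intro Z
      have h1 := dv_cut_real hF1 Z
      have h2 : r * ((∑ v ∈ Z, k v : ℤ) : ℝ) = ∑ v ∈ Z, ∑ w ∈ Zᶜ, F v w := by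
        rw [← h1]
        push_cast
        rw [mul_sum]
        exact sum_congr rfl fun v _ => (hk v).symm
      have h3 : - ∑ v ∈ Z, ∑ w ∈ Zᶜ, F v w ≤
          r * ((cs (fun v w => if F v w < 0 then 1 else 0) Z : ℤ) : ℝ) := by
        unfold cs
        push_cast
        rw [mul_sum, ← sum_neg_distrib]
        refine sum_le_sum fun v _ => ?_
        rw [mul_sum, ← sum_neg_distrib]
        refine sum_le_sum fun w _ => ?_
        by_cases h : F v w < 0
        · rw [if_pos h, mul_one]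
          by_cases hadj : G.Adj v w
          · have := (hF2 v w hadj).2
            have := neg_le_abs (F v w)
            linarith
          · rw [hF0 v w hadj]
            linarith
        · rw [if_neg h, mul_zero]
          linarith [not_lt.1 h]
      rw [sum_neg_distrib]
      have h5 : -(((∑ v ∈ Z, k v : ℤ)) : ℝ) ≤
          ((cs (fun v w => if F v w < 0 then 1 else 0) Z : ℤ) : ℝ) := by
        by_contra hcon
        push Not at hcon
        have := mul_lt_mul_of_pos_left hcon hr0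
        linarith
      exact_mod_cast h5)
  have hg0 : ∀ v w, ¬ G.Adj v w → g v w = 0 := by
    intro v w hadj
    have h1 := hF0 v w hadj
    have h2 := hF0 w v fun h => hadj h.symm
    have h3 := hg2 v w
    have h4 := hg2 w v
    have h5 := hg1 v w
    simp only [h1, h2, lt_irrefl, if_false] at h3 h4
    omega
  refine ⟨fun v w => F v w + r * g v w, fun v w => ?_, fun v w h => ?_, fun v w h => ?_,
    fun v => ?_⟩
  · show F v w + r * g v w = -(F w v + r * g w v)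
    have h1 := hF1 v w
    have h2 : (g v w : ℝ) = - g w v := by exact_mod_cast hg1 v w
    rw [h1, h2]
    ring
  · show F v w + r * g v w = 0
    rw [hF0 v w h, hg0 v w h]
    simp
  · show 1 ≤ |F v w + r * g v w| ∧ |F v w + r * g v w| ≤ r - 1
    have h1 := hF2 v w h
    have h2 := hF1 v w
    have h3 := hg2 v w
    have h4 := hg2 w v
    have h5 := hg1 v w
    rcases lt_trichotomy (F v w) 0 with hneg | hzero | hpos
    · have hnw : ¬ F w v < 0 := by linarith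
      simp only [if_pos hneg, if_neg hnw] at h3 h4
      have h6 : g v w = 0 ∨ g v w = 1 := by omega
      rcases h6 with h6 | h6
      · rw [h6]
        simpa using h1
      · rw [h6]
        rw [abs_of_neg hneg] at h1
        have h7 : (0 : ℝ) < F v w + r * ((1 : ℤ) : ℝ) := by
          push_cast
          linarith
        rw [abs_of_pos h7]
        push_cast
        constructor <;> linarith
    · rw [hzero] at h1
      simp at h1
      linarith
    · have hnv : ¬ F v w < 0 := by linarith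
      have hnw : F w v < 0 := by linarith
      simp only [if_neg hnv, if_pos hnw] at h3 h4
      have h6 : g v w = 0 ∨ g v w = -1 := by omega
      rcases h6 with h6 | h6
      · rw [h6]
        simpa using h1
      · rw [h6]
        rw [abs_of_pos hpos] at h1
        have h7 : F v w + r * (((-1 : ℤ)) : ℝ) < 0 := by
          push_cast
          linarith
        rw [abs_of_neg h7]
        push_cast
        constructor <;> linarith
  · show ∑ w, (F v w + r * g v w) = 0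
    have h1 : ∑ w, (g v w : ℝ) = - k v := by
      have := hg3 v
      unfold dv at this
      have h2 : ((∑ w, g v w : ℤ) : ℝ) = ((- k v : ℤ) : ℝ) := by rw [this]
      push_cast at h2
      exact h2
    rw [sum_add_distrib, ← mul_sum, h1, hk v]
    ring

/-- A circular `r`-flow. -/
def CircFlow (r : ℝ) (G : SimpleGraph V) : Prop :=
  ∃ f : V → V → ℝ, (∀ u v, f u v = - f v u) ∧ (∀ u v, ¬ G.Adj u v → f u v = 0) ∧
    (∀ u v, G.Adj u v → 1 ≤ |f u v| ∧ |f u v| ≤ r - 1) ∧ ∀ v, ∑ u, f v u = 0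

/-- A circular `r`-flow of the multigraph which arises by contraction of the classes of `c`. -/
def CircQ {n : ℕ} (r : ℝ) (G : SimpleGraph V) (c : V → Fin n) : Prop :=
  ∃ f : V → V → ℝ, (∀ u v, f u v = - f v u) ∧ (∀ u v, ¬ (G.Adj u v ∧ c u ≠ c v) → f u v = 0) ∧
    (∀ u v, G.Adj u v → c u ≠ c v → 1 ≤ |f u v| ∧ |f u v| ≤ r - 1) ∧
    ∀ q, ∑ v ∈ univ.filter (fun v => c v = q), ∑ u, f v u = 0

/-- The boundary assignments modulo `r` of the set `P` extend. -/
def RExt (r : ℝ) (G : SimpleGraph V) (P : Finset V) : Prop :=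
  ∀ φ : V → ℝ, (∀ v ∈ P, φ v = 0 ↔ ∀ w, G.Adj v w → w ∈ P) →
    (∀ v ∈ P, φ v ≠ 0 → 1 ≤ |φ v| ∧ |φ v| ≤ r - 1) → ∑ v ∈ P, φ v = 0 →
    ∃ f : V → V → ℝ, (∀ v w, f v w = - f w v) ∧
      (∀ v w, ¬ (v ∈ P ∧ w ∈ P ∧ G.Adj v w) → f v w = 0) ∧
      (∀ v ∈ P, ∀ w ∈ P, G.Adj v w → 1 ≤ |f v w| ∧ |f v w| ≤ r - 1) ∧
      ∀ v ∈ P, ∃ k : ℤ, ∑ w, f v w = φ v + r * k

/-- Circular flows of a graph give circular flows of its contractions. -/
theorem circQ_of_circ {G : SimpleGraph V} {r : ℝ} {n : ℕ} (c : V → Fin n) (h : CircFlow r G) :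
    CircQ r G c := by
  classical
  obtain ⟨f, hfa, hf0, hfn, hfc⟩ := h
  refine ⟨fun u v => if c u = c v then 0 else f u v, fun u v => ?_, fun u v h => ?_,
    fun u v h hc => ?_, fun q => ?_⟩
  · show (if c u = c v then 0 else f u v) = -(if c v = c u then 0 else f v u)
    by_cases hc : c u = c v
    · rw [if_pos hc, if_pos hc.symm, neg_zero]
    · rw [if_neg hc, if_neg fun h => hc h.symm, hfa u v]
  · show (if c u = c v then 0 else f u v) = 0
    by_cases hc : c u = c v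
    · rw [if_pos hc]
    · rw [if_neg hc]
      exact hf0 u v fun h' => h ⟨h', hc⟩
  · show 1 ≤ |(if c u = c v then 0 else f u v)| ∧ |(if c u = c v then 0 else f u v)| ≤ r - 1
    rw [if_neg hc]
    exact hfn u v h
  · show ∑ v ∈ univ.filter (fun v => c v = q), ∑ u, (if c v = c u then 0 else f v u) = 0
    have h1 : ∀ v ∈ univ.filter (fun v => c v = q),
        ∑ u, (if c v = c u then 0 else f v u) +
          ∑ u ∈ univ.filter (fun v => c v = q), f v u = ∑ u, f v u := by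
      intro v hv
      rw [mem_filter] at hv
      rw [← sum_filter_add_sum_filter_not univ (fun u => c u = q) (fun u => f v u), add_comm]
      congr 1
      rw [sum_filter]
      refine sum_congr rfl fun u _ => ?_
      by_cases hu : c u = q
      · rw [if_pos (hv.2.trans hu.symm), if_neg (not_not.2 hu)]
      · rw [if_neg fun h => hu (h.symm.trans hv.2), if_pos hu]
    have h2 := sum_congr rfl h1
    rw [sum_add_distrib, anti_inner_real hfa, add_zero] at h2
    rw [h2]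
    exact sum_eq_zero fun v _ => hfc v

end

section

variable {V : Type} [Fintype V] [DecidableEq V] {G : SimpleGraph V} [DecidableRel G.Adj]

/-- **Glueing modulo `r`.** -/
theorem glue_real {r : ℝ} (hr : 2 < r) {𝒟 : Finset (Finset V)} (hF : DFam G 𝒟)
    (hb : ∀ A ∈ 𝒟, ∀ v ∈ A, ∀ w w', w ∉ A → w' ∉ A → G.Adj v w → G.Adj v w' → w = w')
    (hext : ∀ A ∈ 𝒟, RExt r G A) {z : V → V → ℝ} (hza : ∀ u v, z u v = - z v u)
    (hz0 : ∀ u v, ¬ (G.Adj u v ∧ ¬ ∃ A ∈ 𝒟, u ∈ A ∧ v ∈ A) → z u v = 0)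
    (hzn : ∀ u v, G.Adj u v → (¬ ∃ A ∈ 𝒟, u ∈ A ∧ v ∈ A) → 1 ≤ |z u v| ∧ |z u v| ≤ r - 1)
    (hzc : ∀ v ∈ rest 𝒟, ∑ u, z v u = 0) (hzA : ∀ A ∈ 𝒟, ∑ v ∈ A, ∑ u, z v u = 0) :
    CircFlow r G := by
  classical
  have huniq : ∀ A ∈ 𝒟, ∀ B ∈ 𝒟, ∀ v, v ∈ A → v ∈ B → A = B := by
    intro A hA B hB v hvA hvB
    by_contra hne
    exact Finset.disjoint_left.1 (hF.disj A hA B hB hne) hvA hvB
  -- the boundary values
  have hout : ∀ A ∈ 𝒟, ∀ v ∈ A, ∀ w, G.Adj v w → w ∉ A → ∑ u, z v u = z v w := by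
    intro A hA v hv w hvw hw
    refine sum_eq_single w (fun u _ huw => ?_) fun h => absurd (mem_univ _) h
    refine hz0 v u fun ⟨h1, h2⟩ => ?_
    have huA : u ∉ A := fun h => h2 ⟨A, hA, hv, h⟩
    exact huw (hb A hA v hv u w huA hw h1 hvw)
  have hin : ∀ A ∈ 𝒟, ∀ v ∈ A, (∀ w, G.Adj v w → w ∈ A) → ∑ u, z v u = 0 := by
    intro A hA v hv h
    refine sum_eq_zero fun u _ => hz0 v u fun ⟨h1, h2⟩ => h2 ⟨A, hA, hv, h u h1⟩
  have hcross : ∀ A ∈ 𝒟, ∀ v ∈ A, ∀ w, w ∉ A → ¬ ∃ B ∈ 𝒟, v ∈ B ∧ w ∈ B := by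
    rintro A hA v hv w hw ⟨B, hB, h1, h2⟩
    rw [huniq B hB A hA v h1 hv] at h2
    exact hw h2
  have key : ∀ A : Finset V, ∃ f : V → V → ℝ, A ∈ 𝒟 → (∀ v w, f v w = - f w v) ∧
      (∀ v w, ¬ (v ∈ A ∧ w ∈ A ∧ G.Adj v w) → f v w = 0) ∧
      (∀ v ∈ A, ∀ w ∈ A, G.Adj v w → 1 ≤ |f v w| ∧ |f v w| ≤ r - 1) ∧
      ∀ v ∈ A, ∃ k : ℤ, ∑ w, f v w = - ∑ u, z v u + r * k := by
    intro A
    by_cases hA : A ∈ 𝒟
    · have hp1 : ∀ v ∈ A, (- ∑ u, z v u = 0 ↔ ∀ w, G.Adj v w → w ∈ A) := by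
        intro v hv
        constructor
        · intro h w hvw
          by_contra hw
          have e2 := hout A hA v hv w hvw hw
          have e3 := (hzn v w hvw (hcross A hA v hv w hw)).1
          have e4 : z v w = 0 := by linarith
          rw [e4, abs_zero] at e3
          linarith
        · intro h
          rw [hin A hA v hv h, neg_zero]
      have hp2 : ∀ v ∈ A, - ∑ u, z v u ≠ 0 → 1 ≤ |(- ∑ u, z v u)| ∧ |(- ∑ u, z v u)| ≤ r - 1 := by
        intro v hv hne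
        have hw : ∃ w, G.Adj v w ∧ w ∉ A := by
          by_contra hcon
          push Not at hcon
          apply hne
          rw [hin A hA v hv hcon, neg_zero]
        obtain ⟨w, hvw, hw⟩ := hw
        rw [abs_neg, hout A hA v hv w hvw hw]
        exact hzn v w hvw (hcross A hA v hv w hw)
      obtain ⟨f, h1, h2, h4, h5⟩ := hext A hA (fun v => - ∑ u, z v u) hp1 hp2
        (by rw [sum_neg_distrib, hzA A hA, neg_zero])
      exact ⟨f, fun _ => ⟨h1, h2, h4, h5⟩⟩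
    · exact ⟨fun _ _ => 0, fun h => absurd h hA⟩
  choose f hf using key
  have hf0 : ∀ A ∈ 𝒟, ∀ u v, ¬ (u ∈ A ∧ v ∈ A) → f A u v = 0 := fun A hA u v h =>
    (hf A hA).2.1 u v fun h' => h ⟨h'.1, h'.2.1⟩
  have hsum : ∀ A ∈ 𝒟, ∀ u ∈ A, ∀ v, ∑ B ∈ 𝒟, f B u v = f A u v := by
    intro A hA u hu v
    refine sum_eq_single_of_mem A hA fun B hB hne => hf0 B hB u v fun h => hne ?_
    exact huniq B hB A hA u h.1 hu
  have hsum0 : ∀ u, u ∈ rest 𝒟 → ∀ v, ∑ B ∈ 𝒟, f B u v = 0 := by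
    intro u hu v
    exact sum_eq_zero fun B hB => hf0 B hB u v fun h => mem_rest.1 hu B hB h.1
  have hcase : ∀ u, u ∈ rest 𝒟 ∨ ∃ A ∈ 𝒟, u ∈ A := by
    intro u
    by_cases hu : ∃ A ∈ 𝒟, u ∈ A
    · exact Or.inr hu
    · push Not at hu
      exact Or.inl (mem_rest.2 hu)
  refine real_of_mod hr (F := fun u v => z u v + ∑ A ∈ 𝒟, f A u v) (fun u v => ?_)
    (fun u v h => ?_) (fun u v h => ?_) (fun v => ?_)
  · show z u v + ∑ A ∈ 𝒟, f A u v = -(z v u + ∑ A ∈ 𝒟, f A v u)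
    rw [hza u v, neg_add, ← sum_neg_distrib]
    congr 1
    exact sum_congr rfl fun A hA => (hf A hA).1 u v
  · show z u v + ∑ A ∈ 𝒟, f A u v = 0
    rw [hz0 u v fun h' => h h'.1, zero_add]
    exact sum_eq_zero fun A hA => (hf A hA).2.1 u v fun h' => h h'.2.2
  · show 1 ≤ |z u v + ∑ A ∈ 𝒟, f A u v| ∧ |z u v + ∑ A ∈ 𝒟, f A u v| ≤ r - 1
    by_cases hc : ∃ A ∈ 𝒟, u ∈ A ∧ v ∈ A
    · obtain ⟨A, hA, hu, hv⟩ := hc
      rw [hz0 u v fun h' => h'.2 ⟨A, hA, hu, hv⟩, zero_add, hsum A hA u hu v]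
      exact (hf A hA).2.2.1 u hu v hv h
    · have h1 : ∑ A ∈ 𝒟, f A u v = 0 := sum_eq_zero fun A hA =>
        hf0 A hA u v fun h' => hc ⟨A, hA, h'⟩
      rw [h1, add_zero]
      exact hzn u v h hc
  · rcases hcase v with hv | ⟨A, hA, hv⟩
    · refine ⟨0, ?_⟩
      show ∑ w, (z v w + ∑ A ∈ 𝒟, f A v w) = _
      rw [sum_add_distrib, hzc v hv, sum_eq_zero fun w _ => hsum0 v hv w]
      simp
    · obtain ⟨k, hk⟩ := (hf A hA).2.2.2 v hv
      refine ⟨k, ?_⟩
      show ∑ w, (z v w + ∑ A ∈ 𝒟, f A v w) = _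
      rw [sum_add_distrib, sum_congr rfl fun w _ => hsum A hA v hv w, hk]
      ring

/-- **The contraction map of a family.** -/
theorem contract_map (h3 : ∀ v, G.degree v = 3) {D K N : ℕ} (hD : 1 ≤ D) (hK : 1 ≤ K)
    {𝒟 : Finset (Finset V)} (h𝒟 : KFam G D K N 𝒟) :
    ∃ (n : ℕ) (c : V → Fin n), (∀ q, (G.induce {v | c v = q}).Connected) ∧ n ≤ N ∧
      (univ.filter fun e : V × V => G.Adj e.1 e.2 ∧ c e.1 ≠ c e.2).card ≤ N ∧
      ∀ u v, c u = c v ↔ u = v ∨ ∃ A ∈ 𝒟, u ∈ A ∧ v ∈ A := by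
  classical
  obtain ⟨hF, hnum, hbd, hfar, hgir, hcut⟩ := h𝒟
  -- the classes
  let Ps : Finset (Finset V) := 𝒟 ∪ (rest 𝒟).image fun v => {v}
  have hP : ∀ v : V, ∃ A ∈ Ps, v ∈ A := by
    intro v
    by_cases hv : ∃ A ∈ 𝒟, v ∈ A
    · obtain ⟨A, hA, hvA⟩ := hv
      exact ⟨A, mem_union_left _ hA, hvA⟩
    · push Not at hv
      exact ⟨{v}, mem_union_right _ (mem_image_of_mem _ (mem_rest.2 hv)), mem_singleton_self v⟩
  have hPd : ∀ A ∈ Ps, ∀ B ∈ Ps, ∀ v, v ∈ A → v ∈ B → A = B := by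
    intro A hA B hB v hvA hvB
    rcases mem_union.1 hA with hA | hA <;> rcases mem_union.1 hB with hB | hB
    · by_contra hne
      exact Finset.disjoint_left.1 (hF.disj A hA B hB hne) hvA hvB
    · obtain ⟨w, hw, rfl⟩ := mem_image.1 hB
      rw [mem_singleton] at hvB
      subst hvB
      exact absurd hvA (mem_rest.1 hw A hA)
    · obtain ⟨w, hw, rfl⟩ := mem_image.1 hA
      rw [mem_singleton] at hvA
      subst hvA
      exact absurd hvB (mem_rest.1 hw B hB)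
    · obtain ⟨w, hw, rfl⟩ := mem_image.1 hA
      obtain ⟨w', hw', rfl⟩ := mem_image.1 hB
      rw [mem_singleton] at hvA hvB
      rw [← hvA, ← hvB]
  have hPc : ∀ A ∈ Ps, (G.induce (A : Set V)).Connected := by
    intro A hA
    rcases mem_union.1 hA with hA | hA
    · exact far_conn h3 hD hK (hfar A hA) (ne_of_cyc (hF.cyc A hA)) (hcut A hA)
    · obtain ⟨w, -, rfl⟩ := mem_image.1 hA
      exact conn_of_joined (singleton_nonempty w) (joined_singleton w)
  choose cl hcl1 hcl2 using hP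
  have hcl : ∀ A ∈ Ps, ∀ v ∈ A, cl v = A := fun A hA v hv =>
    hPd _ (hcl1 v) A hA v (hcl2 v) hv
  let e := Ps.equivFin
  let c : V → Fin Ps.card := fun v => e ⟨cl v, hcl1 v⟩
  have hc : ∀ u v, c u = c v ↔ cl u = cl v := by
    intro u v
    constructor
    · intro h
      have := e.injective h
      exact Subtype.ext_iff.1 this
    · intro h
      show e ⟨cl u, hcl1 u⟩ = e ⟨cl v, hcl1 v⟩
      congr 1
      exact Subtype.ext h
  have hcq : ∀ v q, c v = q ↔ v ∈ (e.symm q).1 := by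
    intro v q
    constructor
    · rintro rfl
      show v ∈ (e.symm (e ⟨cl v, hcl1 v⟩)).1
      rw [Equiv.symm_apply_apply]
      exact hcl2 v
    · intro hv
      have h1 := hcl _ (e.symm q).2 v hv
      show e ⟨cl v, hcl1 v⟩ = q
      have h2 : (⟨cl v, hcl1 v⟩ : {x // x ∈ Ps}) = e.symm q := Subtype.ext h1
      rw [h2, Equiv.apply_symm_apply]
  have hrc : ∀ v ∈ rest 𝒟, cl v = {v} := fun v hv =>
    hcl {v} (mem_union_right _ (mem_image_of_mem _ hv)) v (mem_singleton_self v)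
  have hce : ∀ u v, cl u = cl v ↔ u = v ∨ ∃ A ∈ 𝒟, u ∈ A ∧ v ∈ A := by
    intro u v
    constructor
    · intro h
      by_cases hu : ∃ A ∈ 𝒟, u ∈ A
      · obtain ⟨A, hA, huA⟩ := hu
        right
        refine ⟨A, hA, huA, ?_⟩
        rw [← hcl A (mem_union_left _ hA) u huA, h]
        exact hcl2 v
      · push Not at hu
        left
        have h1 := hcl2 v
        rw [← h, hrc u (mem_rest.2 hu), mem_singleton] at h1
        exact h1.symm
    · rintro (rfl | ⟨A, hA, hu, hv⟩)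
      · rfl
      · rw [hcl A (mem_union_left _ hA) u hu, hcl A (mem_union_left _ hA) v hv]
  refine ⟨Ps.card, c, fun q => ?_, ?_, ?_, fun u v => (hc u v).trans (hce u v)⟩
  · have h1 : {v | c v = q} = (((e.symm q).1 : Finset V) : Set V) := by
      ext v
      rw [Set.mem_ofPred_eq, hcq, mem_coe]
    rw [h1]
    exact hPc _ (e.symm q).2
  · exact ((card_union_le _ _).trans (Nat.add_le_add_left card_image_le _)).trans hnum
  · have hsub : (univ.filter fun e : V × V => G.Adj e.1 e.2 ∧ c e.1 ≠ c e.2) ⊆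
        (𝒟.biUnion fun A => Pool.Agent.Work.MP_314beb_co.cut G A) ∪
          (rest 𝒟).biUnion fun u => (G.neighborFinset u).image fun w => (u, w) := by
      rintro ⟨u, v⟩ hp
      obtain ⟨-, huv, hne⟩ := mem_filter.1 hp
      simp only at huv hne
      rw [mem_union, mem_biUnion, mem_biUnion]
      by_cases hu : ∃ A ∈ 𝒟, u ∈ A
      · obtain ⟨A, hA, huA⟩ := hu
        refine Or.inl ⟨A, hA, ?_⟩
        rw [mem_cut]
        exact ⟨huA, fun hvA => hne ((hc u v).2 ((hce u v).2 (Or.inr ⟨A, hA, huA, hvA⟩))), huv⟩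
      · push Not at hu
        refine Or.inr ⟨u, mem_rest.2 hu, ?_⟩
        rw [mem_image]
        exact ⟨v, (G.mem_neighborFinset u v).2 huv, rfl⟩
    refine (card_le_card hsub).trans ((card_union_le _ _).trans ?_)
    refine le_trans (Nat.add_le_add card_biUnion_le
      (card_biUnion_le_card_mul _ _ 3 fun u _ => ?_)) ?_
    · refine card_image_le.trans (le_of_eq ?_)
      rw [card_neighborFinset_eq_degree, h3]
    · have e1 : (rest 𝒟).card * 3 = 3 * (rest 𝒟).card := Nat.mul_comm _ _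
      rw [e1]
      exact hbd

section classes

variable {n : ℕ} {c : V → Fin n} {𝒟 : Finset (Finset V)} (hF : DFam G 𝒟)
  (hc : ∀ u v, c u = c v ↔ u = v ∨ ∃ A ∈ 𝒟, u ∈ A ∧ v ∈ A)

include hF hc

theorem class_rest {v : V} (hv : v ∈ rest 𝒟) : univ.filter (fun w => c w = c v) = {v} := by
  ext w
  simp only [mem_filter, mem_univ, true_and, mem_singleton]
  rw [hc]
  constructor
  · rintro (h | ⟨A, hA, -, h⟩)
    · exact h
    · exact absurd h (mem_rest.1 hv A hA)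
  · exact fun h => Or.inl h

theorem class_mem {A : Finset V} (hA : A ∈ 𝒟) {v : V} (hv : v ∈ A) :
    univ.filter (fun w => c w = c v) = A := by
  ext w
  simp only [mem_filter, mem_univ, true_and]
  rw [hc]
  constructor
  · rintro (rfl | ⟨B, hB, h1, h2⟩)
    · exact hv
    · have : B = A := by
        by_contra hne
        exact Finset.disjoint_left.1 (hF.disj B hB A hA hne) h2 hv
      rw [← this]
      exact h1
  · exact fun h => Or.inr ⟨A, hA, h, hv⟩

/-- Circular flows of the contraction of universal sets. -/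
theorem circ_of_circQ {r : ℝ} (hr : 2 < r)
    (hb : ∀ A ∈ 𝒟, ∀ v ∈ A, ∀ w w', w ∉ A → w' ∉ A → G.Adj v w → G.Adj v w' → w = w')
    (hext : ∀ A ∈ 𝒟, RExt r G A) (h : CircQ r G c) : CircFlow r G := by
  obtain ⟨z, hza, hz0, hzn, hzc⟩ := h
  have hne : ∀ u v, G.Adj u v → (c u ≠ c v ↔ ¬ ∃ A ∈ 𝒟, u ∈ A ∧ v ∈ A) := by
    intro u v huv
    rw [Ne, hc, not_or]
    exact ⟨fun h => h.2, fun h => ⟨huv.ne, h⟩⟩
  refine glue_real hr hF hb hext hza (fun u v h => hz0 u v fun ⟨h1, h2⟩ => h ⟨h1, (hne u v h1).1 h2⟩)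
    (fun u v h1 h2 => hzn u v h1 ((hne u v h1).2 h2)) (fun v hv => ?_) (fun A hA => ?_)
  · have h1 := hzc (c v)
    rwa [class_rest hF hc hv, sum_singleton] at h1
  · obtain ⟨v, hv⟩ := ne_of_cyc (hF.cyc A hA)
    have h1 := hzc (c v)
    rwa [class_mem hF hc hA hv] at h1

/-- Flows modulo five of the contraction of universal sets. -/
theorem flow_of_qflow
    (hb : ∀ A ∈ 𝒟, ∀ v ∈ A, ∀ w w', w ∉ A → w' ∉ A → G.Adj v w → G.Adj v w' → w = w')
    (hext : ∀ A ∈ 𝒟, ∀ φ, BdryOK G A φ → ExtFlow G A φ) (h : QFlow G c) :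
    HasNZFlow (ZMod 5) G := by
  obtain ⟨f, hfa, hfn, hfc⟩ := h
  let ε := 𝒟.equivFin
  have hmem : ∀ i : Fin 𝒟.card, (ε.symm i).1 ∈ 𝒟 := fun i => (ε.symm i).2
  have hex : ∀ u v : V, (∃ i : Fin 𝒟.card, u ∈ (ε.symm i).1 ∧ v ∈ (ε.symm i).1) ↔
      ∃ A ∈ 𝒟, u ∈ A ∧ v ∈ A := by
    intro u v
    constructor
    · rintro ⟨i, h⟩
      exact ⟨_, hmem i, h⟩
    · rintro ⟨A, hA, h⟩
      refine ⟨ε ⟨A, hA⟩, ?_⟩
      rw [Equiv.symm_apply_apply]
      exact h
  refine ext_glue_many (P := fun i => (ε.symm i).1) (fun i j hij => ?_)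
    (fun i => hb _ (hmem i)) f hfa (fun u v => ?_) (fun v hv => ?_) (fun i => ?_)
    (fun i => hext _ (hmem i))
  · refine hF.disj _ (hmem i) _ (hmem j) fun h => hij (ε.symm.injective (Subtype.ext h))
  · rw [hfn u v]
    constructor
    · rintro ⟨h1, h2⟩
      exact ⟨h1, fun h4 => h2 ((hc u v).2 (Or.inr ((hex u v).1 h4)))⟩
    · rintro ⟨h1, h2⟩
      refine ⟨h1, fun h4 => ?_⟩
      rcases (hc u v).1 h4 with h5 | h5
      · exact h1.ne h5
      · exact h2 ((hex u v).2 h5)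
  · have hvr : v ∈ rest 𝒟 := by
      rw [mem_rest]
      intro A hA hvA
      refine hv (ε ⟨A, hA⟩) ?_
      simp only [ε, Equiv.symm_apply_apply]
      exact hvA
    have h1 := hfc (c v)
    rwa [class_rest hF hc hvr, sum_singleton] at h1
  · obtain ⟨v, hv⟩ := ne_of_cyc (hF.cyc _ (hmem i))
    have h1 := hfc (c v)
    rwa [class_mem hF hc (hmem i) hv] at h1

end classes

end

/-- The real extension property with the constant `K`. -/
def RProp (r : ℝ) (K : ℕ) : Prop :=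
  ∀ {V : Type} [Fintype V] [DecidableEq V] (G : SimpleGraph V)
    [DecidableRel G.Adj], (∀ v, G.degree v = 3) → ∀ P : Finset V, FarB G K P →
    (∀ A ⊆ P, A.card < K → (G.induce (A : Set V)).IsAcyclic) →
    (∀ Y ⊆ P, ¬ (G.induce (Y : Set V)).IsAcyclic →
      ¬ (G.induce ((P \ Y : Finset V) : Set V)).IsAcyclic → K ≤ ee G Y (P \ Y)) →
    RExt r G P

/-- **The kernel theorem for circular flows.** -/
theorem kernel_real {r : ℝ} (hr : 2 < r) (hR : ∃ K : ℕ, RProp r K)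
    (hext : ∃ D K : ℕ, ExtProp D K) :
    ∃ C : ℕ, ∀ (V : Type) [Fintype V] [DecidableEq V] (G : SimpleGraph V) [DecidableRel G.Adj],
    G.IsRegularOfDegree 3 → ∀ m : ℕ, 1 ≤ m →
    (∃ U : Finset V, U.card ≤ C * m ∧ C * dd G U + U.card < C * U.card) ∨
    (∃ X : Fin m → Finset V, (∀ i j, i ≠ j → Disjoint (X i) (X j)) ∧
      ∀ i, ¬ (G.induce (X i : Set V)).IsAcyclic ∧ (G.interedges (X i) (X i)ᶜ).card ≤ C) ∨
    ∃ (n : ℕ) (c : V → Fin n), (∀ q, (G.induce {v | c v = q}).Connected) ∧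
      n ≤ C * m ∧
      (univ.filter fun e : V × V => G.Adj e.1 e.2 ∧ c e.1 ≠ c e.2).card ≤ C * m ∧
      (CircFlow r G ↔ CircQ r G c) ∧ (HasNZFlow (ZMod 5) G ↔ QFlow G c) := by
  obtain ⟨K₀, hR⟩ := hR
  obtain ⟨D, K, hext⟩ := hext
  obtain ⟨C, hC⟩ := parts_lin (D + K₀ + 1) (K + K₀ + 1)
  refine ⟨C, ?_⟩
  intro V _ _ G _ h3 m hm
  rcases isEmpty_or_nonempty V with hV | hV
  · right
    right
    refine ⟨0, fun v => hV.elim v, fun q => q.elim0, Nat.zero_le _, ?_, ⟨fun _ => ?_, fun _ => ?_⟩,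
      ⟨fun _ => ?_, fun _ => ?_⟩⟩
    · rw [univ_eq_empty, filter_empty, card_empty]
      exact Nat.zero_le _
    · exact ⟨fun _ _ => 0, fun u => hV.elim u, fun u => hV.elim u, fun u => hV.elim u,
        fun q => q.elim0⟩
    · exact ⟨fun _ _ => 0, fun u => hV.elim u, fun u => hV.elim u, fun u => hV.elim u,
        fun u => hV.elim u⟩
    · exact ⟨fun _ _ => 0, fun u => hV.elim u, fun u => hV.elim u, fun q => q.elim0⟩
    · exact ⟨fun _ _ => 0, fun u => hV.elim u, fun u => hV.elim u, fun u => hV.elim u⟩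
  by_cases hU : ∃ U : Finset V, U.card ≤ C * m ∧ C * dd G U + U.card < C * U.card
  · exact Or.inl hU
  by_cases hX : ∃ X : Fin m → Finset V, (∀ i j, i ≠ j → Disjoint (X i) (X j)) ∧
      ∀ i, ¬ (G.induce (X i : Set V)).IsAcyclic ∧ (G.interedges (X i) (X i)ᶜ).card ≤ C
  · exact Or.inr (Or.inl hX)
  · right
    right
    push Not at hU
    obtain ⟨𝒟, h𝒟⟩ := hC G h3 m hm (fun U h1 => hU U h1) fun ⟨X, x1, x2⟩ =>
      hX ⟨X, x1, fun i => ⟨(x2 i).1, by
        rw [dd_interedges]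
        exact (x2 i).2⟩⟩
    obtain ⟨n, c, c1, c2, c3, c4⟩ := contract_map h3 (by omega) (by omega) h𝒟
    have hb := fun A (hA : A ∈ 𝒟) => far_hb (by omega) (h𝒟.far A hA)
    refine ⟨n, c, c1, c2, c3, ⟨circQ_of_circ c, circ_of_circQ h𝒟.fam c4 hr hb fun X hX => ?_⟩,
      ⟨qflow_of_flow c, flow_of_qflow h𝒟.fam c4 hb fun X hX => ?_⟩⟩
    · exact hR G h3 X ((h𝒟.far X hX).mono (by omega))
        (fun A hA hc => h𝒟.gir X hX A hA (by omega))
        fun Y hY h1 h2 => (by omega : K₀ ≤ K + K₀ + 1).trans (h𝒟.cut X hX Y hY h1 h2)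
    · exact hext G h3 X ((h𝒟.far X hX).mono (by omega))
        (fun A hA hc => h𝒟.gir X hX A hA (by omega))
        fun Y hY h1 h2 => (by omega : K ≤ K + K₀ + 1).trans (h𝒟.cut X hX Y hY h1 h2)

end Pool.Agent.K5.Ker
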