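import Mathlib
import Pool.Agent.Work.MP_974d84_co_k5.KerReal
import Pool.Agent.Work.MP_974d84_co_k5.KerFinal
import Pool.Agent.Work.MP_974d84_co_k5.ExtRealUnif

/-!
# The kernel theorem for all circular flows at once, with the structure of the classes
-/

set_option linter.unusedSectionVars false

namespace Pool.Agent.K5.Ker

open Finset SimpleGraph Pool.Agent.Exp Pool.Agent.Log5 Pool.Agent.Log5.Clu Pool.Agent.K5 MP974d84
open Pool.Agent.K5.Parts Pool.Agent.K5.Con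

/-- The real extension property with the constant `K` for all `r ≥ r₀`. -/
def RPropU (r₀ : ℝ) (K : ℕ) : Prop :=
  ∀ {V : Type} [Fintype V] [DecidableEq V] (G : SimpleGraph V)
    [DecidableRel G.Adj], (∀ v, G.degree v = 3) → ∀ P : Finset V, FarB G K P →
    (∀ A ⊆ P, A.card < K → (G.induce (A : Set V)).IsAcyclic) →
    (∀ Y ⊆ P, ¬ (G.induce (Y : Set V)).IsAcyclic →
      ¬ (G.induce ((P \ Y : Finset V) : Set V)).IsAcyclic → K ≤ ee G Y (P \ Y)) →
    ∀ r, r₀ ≤ r → RExt r G P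

theorem rprop_unif {r₀ : ℝ} (hr : 4 < r₀) : ∃ K : ℕ, RPropU r₀ K := by
  obtain ⟨κ, hκ⟩ := exists_nat_gt (max 5 (4 * r₀ / (r₀ - 4)))
  have h5 : (5 : ℝ) < κ := (le_max_left _ _).trans_lt hκ
  have h6 : 4 * r₀ / (r₀ - 4) < κ := (le_max_right _ _).trans_lt hκ
  have hκ5 : 5 ≤ κ := by
    have : 5 < κ := by exact_mod_cast h5
    omega
  have h7 : 4 * (κ : ℝ) / (κ - 4) < r₀ := by
    rw [div_lt_iff₀ (by linarith)] at h6 ⊢
    nlinarith
  obtain ⟨K, hK⟩ := Re.ext_unif hκ5 h7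
  refine ⟨K + κ, fun {V} _ _ G _ h3 P hP hg hcut r hr' φ h1 h2 h4 => ?_⟩
  obtain ⟨f, f1, f2, f3, f4, -, -⟩ := hK G h3 P (hP.mono (by omega))
    (fun A hA hc => hg A hA (by omega))
    (fun Y hY h1 h2 => (by omega : κ ≤ K + κ).trans (hcut Y hY h1 h2)) r hr' φ h1 h2
    ⟨0, by rw [h4]; simp⟩
  exact ⟨f, f1, f2, f3, f4⟩

/-- Sets with distant boundary edges, large girth and large inner cyclic cuts. -/
def Good {V : Type} [Fintype V] [DecidableEq V] (g : ℕ) (G : SimpleGraph V) [DecidableRel G.Adj]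
    (P : Finset V) : Prop :=
  (∀ Q ⊆ P, Q.card ≤ g → (G.induce (Q : Set V)).Connected → (G.interedges Q Pᶜ).card ≤ 1) ∧
  (∀ A ⊆ P, A.card < g → (G.induce (A : Set V)).IsAcyclic) ∧
  ∀ A ⊆ P, ¬ (G.induce (A : Set V)).IsAcyclic →
    ¬ (G.induce ((P \ A : Finset V) : Set V)).IsAcyclic → g ≤ (G.interedges A (P \ A)).card

/-- **The decomposition and kernel theorem.** -/
theorem kernel_unif {r₀ : ℝ} (hr : 4 < r₀) (g : ℕ) :
    ∃ C : ℕ, ∀ (V : Type) [Fintype V] [DecidableEq V] (G : SimpleGraph V) [DecidableRel G.Adj],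
    G.IsRegularOfDegree 3 → ∀ m : ℕ, 1 ≤ m →
    (∃ U : Finset V, U.card ≤ C * m ∧
      (2 * C + 1) * U.card < 2 * C * (G.induce (U : Set V)).edgeSet.ncard) ∨
    (∃ X : Fin m → Finset V, (∀ i j, i ≠ j → Disjoint (X i) (X j)) ∧
      ∀ i, ¬ (G.induce (X i : Set V)).IsAcyclic ∧ (G.interedges (X i) (X i)ᶜ).card ≤ C) ∨
    ∃ (n : ℕ) (c : V → Fin n), (∀ q, (G.induce {v | c v = q}).Connected) ∧
      n ≤ C * m ∧
      (univ.filter fun e : V × V => G.Adj e.1 e.2 ∧ c e.1 ≠ c e.2).card ≤ C * m ∧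
      (∀ q, 2 ≤ (univ.filter fun v => c v = q).card → Good g G (univ.filter fun v => c v = q)) ∧
      (∀ r, r₀ ≤ r → (CircFlow r G ↔ CircQ r G c)) ∧ (HasNZFlow (ZMod 5) G ↔ QFlow G c) := by
  obtain ⟨K₀, hR⟩ := rprop_unif hr
  obtain ⟨D, K, hext⟩ := ext_prop
  obtain ⟨C, hC⟩ := parts_lin (D + K₀ + g + 1) (K + K₀ + g + 1)
  refine ⟨C, ?_⟩
  intro V _ _ G _ h3 m hm
  rcases isEmpty_or_nonempty V with hV | hV
  · right
    right
    refine ⟨0, fun v => hV.elim v, fun q => q.elim0, Nat.zero_le _, ?_, fun q => q.elim0,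
      fun r _ => ⟨fun _ => ?_, fun _ => ?_⟩, ⟨fun _ => ?_, fun _ => ?_⟩⟩
    · rw [univ_eq_empty, filter_empty, card_empty]
      exact Nat.zero_le _
    · exact ⟨fun _ _ => 0, fun u => hV.elim u, fun u => hV.elim u, fun u => hV.elim u,
        fun q => q.elim0⟩
    · exact ⟨fun _ _ => 0, fun u => hV.elim u, fun u => hV.elim u, fun u => hV.elim u,
        fun u => hV.elim u⟩
    · exact ⟨fun _ _ => 0, fun u => hV.elim u, fun u => hV.elim u, fun q => q.elim0⟩
    · exact ⟨fun _ _ => 0, fun u => hV.elim u, fun u => hV.elim u, fun u => hV.elim u⟩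
  by_cases hU : ∃ U : Finset V, U.card ≤ C * m ∧
      (2 * C + 1) * U.card < 2 * C * (G.induce (U : Set V)).edgeSet.ncard
  · exact Or.inl hU
  by_cases hX : ∃ X : Fin m → Finset V, (∀ i j, i ≠ j → Disjoint (X i) (X j)) ∧
      ∀ i, ¬ (G.induce (X i : Set V)).IsAcyclic ∧ (G.interedges (X i) (X i)ᶜ).card ≤ C
  · exact Or.inr (Or.inl hX)
  · right
    right
    obtain ⟨𝒟, h𝒟⟩ := hC G h3 m hm (fun U h1 => by
      by_contra hcon
      push Not at hcon
      refine hU ⟨U, h1, ?_⟩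
      have h2 := dd_add_edges h3 U
      set e := (G.induce (U : Set V)).edgeSet.ncard with he
      have h5 : C * (dd G U + 2 * e) = C * (3 * U.card) := by rw [h2]
      have h4 : C * (dd G U + 2 * e) = C * dd G U + 2 * C * e := by ring
      have h6 : C * (3 * U.card) = C * U.card + 2 * C * U.card := by ring
      have h7 : (2 * C + 1) * U.card = 2 * C * U.card + U.card := by ring
      omega) fun ⟨X, x1, x2⟩ => hX ⟨X, x1, fun i => ⟨(x2 i).1, by
        rw [dd_interedges]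
        exact (x2 i).2⟩⟩
    obtain ⟨n, c, c1, c2, c3, c4⟩ := contract_map h3 (by omega) (by omega) h𝒟
    have hb := fun A (hA : A ∈ 𝒟) => far_hb (by omega) (h𝒟.far A hA)
    refine ⟨n, c, c1, c2, c3, fun q hq => ?_, fun r hr' =>
      ⟨circQ_of_circ c, circ_of_circQ h𝒟.fam c4 (by linarith) hb fun X hX => ?_⟩,
      ⟨qflow_of_flow c, flow_of_qflow h𝒟.fam c4 hb fun X hX => ?_⟩⟩
    · obtain ⟨v, hv⟩ : (univ.filter fun v => c v = q).Nonempty := card_pos.1 (by omega)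
      have hvq : c v = q := (mem_filter.1 hv).2
      have hv' : ∃ A ∈ 𝒟, v ∈ A := by
        by_contra hcon
        push Not at hcon
        have h1 := class_rest h𝒟.fam c4 (mem_rest.2 hcon)
        rw [hvq] at h1
        rw [h1, card_singleton] at hq
        omega
      obtain ⟨A, hA, hvA⟩ := hv'
      have h1 := class_mem h𝒟.fam c4 hA hvA
      rw [hvq] at h1
      rw [h1]
      refine ⟨fun Q hQ hQc hconn => ?_, fun B hB hBc => h𝒟.gir A hA B hB (by omega),
        fun B hB h1 h2 => ?_⟩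
      · rw [← ee_eq_interedges]
        exact h𝒟.far A hA Q hQ (by omega) hconn
      · rw [← ee_eq_interedges]
        exact (by omega : g ≤ K + K₀ + g + 1).trans (h𝒟.cut A hA B hB h1 h2)
    · exact hR G h3 X ((h𝒟.far X hX).mono (by omega))
        (fun A hA hc => h𝒟.gir X hX A hA (by omega))
        (fun Y hY h1 h2 => (by omega : K₀ ≤ K + K₀ + g + 1).trans (h𝒟.cut X hX Y hY h1 h2))
        r hr'
    · exact hext G h3 X ((h𝒟.far X hX).mono (by omega))
        (fun A hA hc => h𝒟.gir X hX A hA (by omega))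
        fun Y hY h1 h2 => (by omega : K ≤ K + K₀ + g + 1).trans (h𝒟.cut X hX Y hY h1 h2)

end Pool.Agent.K5.Ker
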