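import Mathlib
import Pool.Agent.Work.MP_974d84_co_k5.KerUnif

/-!
# Extension of the flows modulo `r` of the contraction of one highly connected part
-/

set_option linter.unusedSectionVars false

namespace Pool.Agent.K5.Loc

open Finset SimpleGraph Pool.Agent.Exp Pool.Agent.Log5 Pool.Agent.Log5.Clu Pool.Agent.K5
open Pool.Agent.K5.Parts Pool.Agent.K5.Con Pool.Agent.K5.Ker

/-- **All flows modulo `r ≥ s` of the contraction of `P` extend.** -/
theorem flow_ext {s : ℝ} (hs : 4 < s) : ∃ K : ℕ, ∀ {V : Type} [Fintype V] [DecidableEq V]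
    (G : SimpleGraph V) [DecidableRel G.Adj], (∀ v, G.degree v = 3) → ∀ P : Finset V,
    FarB G K P → (∀ A ⊆ P, A.card < K → (G.induce (A : Set V)).IsAcyclic) →
    (∀ Y ⊆ P, ¬ (G.induce (Y : Set V)).IsAcyclic →
      ¬ (G.induce ((P \ Y : Finset V) : Set V)).IsAcyclic → K ≤ ee G Y (P \ Y)) →
    ∀ r : ℝ, s ≤ r → ∀ f₀ : V → V → ℝ, (∀ u v, f₀ u v = - f₀ v u) →
    (∀ u v, ¬ (G.Adj u v ∧ ¬ (u ∈ P ∧ v ∈ P)) → f₀ u v = 0) →
    (∀ u v, G.Adj u v → ¬ (u ∈ P ∧ v ∈ P) → 1 ≤ |f₀ u v| ∧ |f₀ u v| ≤ r - 1) →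
    (∀ v, v ∉ P → ∃ k : ℤ, ∑ u, f₀ v u = r * k) →
    ∃ f : V → V → ℝ, (∀ u v, f u v = - f v u) ∧ (∀ u v, ¬ G.Adj u v → f u v = 0) ∧
      (∀ u v, G.Adj u v → 1 ≤ |f u v| ∧ |f u v| ≤ r - 1) ∧
      (∀ v, ∃ k : ℤ, ∑ u, f v u = r * k) ∧ (∀ u v, ¬ (u ∈ P ∧ v ∈ P) → f u v = f₀ u v) ∧
      ((∃ R : ℤ, r = R) → (∀ u v, ∃ m : ℤ, f₀ u v = m) → ∀ u v, ∃ m : ℤ, f u v = m) := by
  obtain ⟨κ, hκ⟩ := exists_nat_gt (max 5 (4 * s / (s - 4)))
  have h5 : (5 : ℝ) < κ := (le_max_left _ _).trans_lt hκ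
  have h6 : 4 * s / (s - 4) < κ := (le_max_right _ _).trans_lt hκ
  have hκ5 : 5 ≤ κ := by
    have : 5 < κ := by exact_mod_cast h5
    omega
  have h7 : 4 * (κ : ℝ) / (κ - 4) < s := by
    rw [div_lt_iff₀ (by linarith)] at h6 ⊢
    nlinarith
  obtain ⟨K, hK⟩ := Re.ext_unif hκ5 h7
  refine ⟨K + κ, fun {V} _ _ G _ h3 P hP hg hcut r hr z hza hz0 hzn hzc => ?_⟩
  classical
  have hb := far_hb (by omega) hP
  -- the boundary values
  have hout : ∀ v ∈ P, ∀ w, G.Adj v w → w ∉ P → ∑ u, z v u = z v w := by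
    intro v hv w hvw hw
    refine sum_eq_single w (fun u _ huw => ?_) fun h => absurd (mem_univ _) h
    refine hz0 v u fun ⟨h1, h2⟩ => ?_
    have huA : u ∉ P := fun h => h2 ⟨hv, h⟩
    exact huw (hb v hv u w huA hw h1 hvw)
  have hin : ∀ v ∈ P, (∀ w, G.Adj v w → w ∈ P) → ∑ u, z v u = 0 := by
    intro v hv h
    exact sum_eq_zero fun u _ => hz0 v u fun ⟨h1, h2⟩ => h2 ⟨hv, h u h1⟩
  have hcross : ∀ v : V, ∀ w, w ∉ P → ¬ (v ∈ P ∧ w ∈ P) := fun v w hw h => hw h.2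
  have hp1 : ∀ v ∈ P, (- ∑ u, z v u = 0 ↔ ∀ w, G.Adj v w → w ∈ P) := by
    intro v hv
    constructor
    · intro h w hvw
      by_contra hw
      have e2 := hout v hv w hvw hw
      have e3 := (hzn v w hvw (hcross v w hw)).1
      have e4 : z v w = 0 := by linarith
      rw [e4, abs_zero] at e3
      linarith
    · intro h
      rw [hin v hv h, neg_zero]
  have hp2 : ∀ v ∈ P, - ∑ u, z v u ≠ 0 → 1 ≤ |(- ∑ u, z v u)| ∧ |(- ∑ u, z v u)| ≤ r - 1 := by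
    intro v hv hne
    have hw : ∃ w, G.Adj v w ∧ w ∉ P := by
      by_contra hcon
      push Not at hcon
      apply hne
      rw [hin v hv hcon, neg_zero]
    obtain ⟨w, hvw, hw⟩ := hw
    rw [abs_neg, hout v hv w hvw hw]
    exact hzn v w hvw (hcross v w hw)
  -- the sum condition
  have hsum : ∃ t : ℤ, ∑ v ∈ P, - ∑ u, z v u = r * t := by
    choose! k hk using hzc
    refine ⟨∑ v ∈ Pᶜ, k v, ?_⟩
    have h1 : ∑ v ∈ (univ : Finset V), ∑ u ∈ (univ : Finset V), z v u = 0 :=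
      anti_inner_real hza univ
    have h2 : ∑ v ∈ P, ∑ u, z v u + ∑ v ∈ Pᶜ, ∑ u, z v u = ∑ v, ∑ u, z v u :=
      sum_add_sum_compl P _
    have h4 : ∑ v ∈ Pᶜ, ∑ u, z v u = r * (∑ v ∈ Pᶜ, k v : ℤ) := by
      push_cast
      rw [mul_sum]
      exact sum_congr rfl fun v hv => hk v (mem_compl.1 hv)
    rw [sum_neg_distrib, ← h4]
    linarith
  obtain ⟨f, f1, f2, f3, f4, -, f6⟩ := hK G h3 P (hP.mono (by omega))
    (fun A hA hc => hg A hA (by omega))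
    (fun Y hY h1 h2 => (by omega : κ ≤ K + κ).trans (hcut Y hY h1 h2)) r hr
    (fun v => - ∑ u, z v u) hp1 hp2 hsum
  have hf0 : ∀ u v, ¬ (u ∈ P ∧ v ∈ P) → f u v = 0 := fun u v h =>
    f2 u v fun h' => h ⟨h'.1, h'.2.1⟩
  refine ⟨fun u v => z u v + f u v, fun u v => ?_, fun u v h => ?_, fun u v h => ?_,
    fun v => ?_, fun u v h => ?_, fun hR hz u v => ?_⟩
  · show z u v + f u v = -(z v u + f v u)
    rw [hza u v, f1 u v]
    ring
  · show z u v + f u v = 0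
    rw [hz0 u v fun h' => h h'.1, f2 u v fun h' => h h'.2.2, add_zero]
  · show 1 ≤ |z u v + f u v| ∧ |z u v + f u v| ≤ r - 1
    by_cases hc : u ∈ P ∧ v ∈ P
    · rw [hz0 u v fun h' => h'.2 hc, zero_add]
      exact f3 u hc.1 v hc.2 h
    · rw [hf0 u v hc, add_zero]
      exact hzn u v h hc
  · by_cases hv : v ∈ P
    · obtain ⟨k, hk⟩ := f4 v hv
      refine ⟨k, ?_⟩
      show ∑ w, (z v w + f v w) = _
      rw [sum_add_distrib, hk]
      ring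
    · obtain ⟨k, hk⟩ := hzc v hv
      refine ⟨k, ?_⟩
      show ∑ w, (z v w + f v w) = _
      rw [sum_add_distrib, hk, sum_eq_zero fun w _ => hf0 v w fun h => hv h.1, add_zero]
  · show z u v + f u v = z u v
    rw [hf0 u v h, add_zero]
  · obtain ⟨a, ha⟩ := hz u v
    obtain ⟨b, hb⟩ := f6 hR (fun w _ => by
      choose m hm using hz w
      refine ⟨- ∑ u, m u, ?_⟩
      push_cast
      rw [neg_inj]
      exact sum_congr rfl fun u _ => hm u) u v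
    refine ⟨a + b, ?_⟩
    show z u v + f u v = _
    rw [ha, hb]
    push_cast
    rfl

end Pool.Agent.K5.Loc
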