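import Mathlib
import Pool.Agent.Work.MP_974d84_co_k5.GirRedFlow

/-!
# Circular flows of a graph and of the contraction of one part
-/

set_option linter.unusedSectionVars false

namespace Pool.Agent.K5.Loc

open Finset SimpleGraph Pool.Agent.K5.Ker

variable {V : Type} [Fintype V] [DecidableEq V]

/-- If the flows modulo `r` of the contraction of `P` extend, then `G` has a circular `r`-flow
exactly when the contraction of `P` has one. -/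
theorem circ_iff {r : ℝ} (hr : 2 < r) {G : SimpleGraph V} {P : Finset V}
    (hext : ∀ f₀ : V → V → ℝ, (∀ u v, f₀ u v = - f₀ v u) →
      (∀ u v, ¬ (G.Adj u v ∧ ¬ (u ∈ P ∧ v ∈ P)) → f₀ u v = 0) →
      (∀ u v, G.Adj u v → ¬ (u ∈ P ∧ v ∈ P) → 1 ≤ |f₀ u v| ∧ |f₀ u v| ≤ r - 1) →
      (∀ v, v ∉ P → ∃ k : ℤ, ∑ u, f₀ v u = r * k) →
      ∃ f : V → V → ℝ, (∀ u v, f u v = - f v u) ∧ (∀ u v, ¬ G.Adj u v → f u v = 0) ∧
        (∀ u v, G.Adj u v → 1 ≤ |f u v| ∧ |f u v| ≤ r - 1) ∧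
        (∀ v, ∃ k : ℤ, ∑ u, f v u = r * k)) :
    (∃ f : V → V → ℝ, (∀ u v, f u v = - f v u) ∧ (∀ u v, ¬ G.Adj u v → f u v = 0) ∧
      (∀ u v, G.Adj u v → 1 ≤ |f u v| ∧ |f u v| ≤ r - 1) ∧ ∀ v, ∑ u, f v u = 0) ↔
    ∃ f₀ : V → V → ℝ, (∀ u v, f₀ u v = - f₀ v u) ∧
      (∀ u v, ¬ (G.Adj u v ∧ ¬ (u ∈ P ∧ v ∈ P)) → f₀ u v = 0) ∧
      (∀ u v, G.Adj u v → ¬ (u ∈ P ∧ v ∈ P) → 1 ≤ |f₀ u v| ∧ |f₀ u v| ≤ r - 1) ∧
      ∀ v, v ∉ P → ∑ u, f₀ v u = 0 := by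
  constructor
  · rintro ⟨f, hfa, hf0, hfn, hfc⟩
    refine ⟨fun u v => if u ∈ P ∧ v ∈ P then 0 else f u v, fun u v => ?_, fun u v h => ?_,
      fun u v h hP => ?_, fun v hv => ?_⟩
    · show (if u ∈ P ∧ v ∈ P then 0 else f u v) = -(if v ∈ P ∧ u ∈ P then 0 else f v u)
      by_cases hc : u ∈ P ∧ v ∈ P
      · rw [if_pos hc, if_pos hc.symm, neg_zero]
      · rw [if_neg hc, if_neg fun h => hc h.symm, hfa u v]
    · show (if u ∈ P ∧ v ∈ P then 0 else f u v) = 0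
      by_cases hc : u ∈ P ∧ v ∈ P
      · rw [if_pos hc]
      · rw [if_neg hc]
        exact hf0 u v fun h' => h ⟨h', hc⟩
    · show 1 ≤ |(if u ∈ P ∧ v ∈ P then 0 else f u v)| ∧
        |(if u ∈ P ∧ v ∈ P then 0 else f u v)| ≤ r - 1
      rw [if_neg hP]
      exact hfn u v h
    · show ∑ u, (if v ∈ P ∧ u ∈ P then 0 else f v u) = 0
      rw [← hfc v]
      exact sum_congr rfl fun u _ => if_neg fun h => hv h.1
  · rintro ⟨z, hza, hz0, hzn, hzc⟩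
    obtain ⟨f, f1, f2, f3, f4⟩ := hext z hza hz0 hzn fun v hv => ⟨0, by rw [hzc v hv]; simp⟩
    exact real_of_mod hr f1 f2 f3 f4

end Pool.Agent.K5.Loc
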