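import Mathlib
import Pool.Agent.Work.MP_974d84_co_k5.KerParts

/-!
# A highly connected part inside a set with small boundary and large girth

The extremal family inside an inclusion-minimal set with a circuit and a small boundary.
-/

set_option linter.unusedSectionVars false

namespace Pool.Agent.K5.Loc

open Finset SimpleGraph Pool.Agent.Exp Pool.Agent.Log5 Pool.Agent.Log5.Clu Pool.Agent.K5
open Pool.Agent.K5.Parts Pool.Agent.K5.Ker

variable {V : Type} [Fintype V] [DecidableEq V] {G : SimpleGraph V} [DecidableRel G.Adj]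

/-- The boundary of an intersection. -/
theorem dd_inter_le (X Y : Finset V) : dd G (X ∩ Y) ≤ dd G X + dd G Y := by
  classical
  unfold dd
  refine le_trans (card_le_card ?_) (card_union_le _ _)
  intro p hp
  rw [mem_cut, mem_inter, mem_inter] at hp
  rw [mem_union, mem_cut, mem_cut]
  by_cases h : p.2 ∈ X
  · exact Or.inr ⟨hp.1.2, fun h' => hp.2.1 ⟨h, h'⟩, hp.2.2⟩
  · exact Or.inl ⟨hp.1.1, h, hp.2.2⟩

/-- A subset of one member is moved outside. -/
theorem remove {𝒞 : Finset (Finset V)} (h : DFam G 𝒞) {X W : Finset V} (hX : X ∈ 𝒞)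
    (hW : W ⊆ X) (h2 : ¬ (G.induce ((X \ W : Finset V) : Set V)).IsAcyclic) :
    ∃ 𝒞' : Finset (Finset V), DFam G 𝒞' ∧ 𝒞'.card = 𝒞.card ∧
      ∑ A ∈ 𝒞', dd G A + dd G X = ∑ A ∈ 𝒞, dd G A + dd G (X \ W) ∧
      (rest 𝒞').card = (rest 𝒞).card + W.card ∧ rest 𝒞 ⊆ rest 𝒞' := by
  classical
  have hZ0 := ne_of_cyc h2
  have hnZ := h.not_mem hX (sdiff_subset (s := X) (t := W)) hZ0
  refine ⟨insert (X \ W) (𝒞.erase X), ⟨?_, ?_⟩, ?_, ?_, ?_, ?_⟩
  · have key : ∀ A ∈ 𝒞.erase X, Disjoint A X := fun A hA =>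
      h.disj A (mem_erase.1 hA).2 X hX (mem_erase.1 hA).1
    intro A hA B hB hAB
    rw [mem_insert] at hA hB
    rcases hA with rfl | hA <;> rcases hB with rfl | hB
    · exact absurd rfl hAB
    · exact ((key B hB).mono_right sdiff_subset).symm
    · exact (key A hA).mono_right sdiff_subset
    · exact h.disj A (mem_erase.1 hA).2 B (mem_erase.1 hB).2 hAB
  · intro A hA
    rw [mem_insert] at hA
    rcases hA with rfl | hA
    · exact h2
    · exact h.cyc A (mem_erase.1 hA).2
  · rw [card_insert_of_notMem hnZ, card_erase_of_mem hX]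
    have := card_pos.2 ⟨X, hX⟩
    omega
  · rw [sum_insert hnZ]
    have e1 : dd G X + ∑ A ∈ 𝒞.erase X, dd G A = ∑ A ∈ 𝒞, dd G A :=
      add_sum_erase 𝒞 (fun A => dd G A) hX
    omega
  · rw [← card_union_of_disjoint]
    · congr 1
      ext v
      rw [mem_union, mem_rest, mem_rest]
      constructor
      · intro hv
        by_cases hvW : v ∈ W
        · exact Or.inr hvW
        · left
          intro A hA hvA
          by_cases hAX : A = X
          · subst hAX
            exact hv (A \ W) (mem_insert_self _ _) (mem_sdiff.2 ⟨hvA, hvW⟩)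
          · exact hv A (mem_insert_of_mem (mem_erase.2 ⟨hAX, hA⟩)) hvA
      · intro hv A hA hvA
        rw [mem_insert] at hA
        rcases hv with hv | hv
        · rcases hA with rfl | hA
          · exact hv X hX (sdiff_subset hvA)
          · exact hv A (mem_erase.1 hA).2 hvA
        · rcases hA with rfl | hA
          · exact (mem_sdiff.1 hvA).2 hv
          · exact Finset.disjoint_left.1 (h.disj A (mem_erase.1 hA).2 X hX (mem_erase.1 hA).1)
              hvA (hW hv)
    · rw [Finset.disjoint_left]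
      intro v hv hvW
      exact mem_rest.1 hv X hX (hW hvW)
  · intro v hv
    rw [mem_rest] at hv ⊢
    intro A hA hvA
    rw [mem_insert] at hA
    rcases hA with rfl | hA
    · exact hv X hX (sdiff_subset hvA)
    · exact hv A (mem_erase.1 hA).2 hvA

/-- The arithmetic of the extremal family. -/
theorem arith {β γ S R s b : ℤ} (hβ : 4 ≤ β) (hγ : 0 ≤ γ) (hb : 0 ≤ b)
    (h1 : β * S ≤ (β - 2) * R + 2 * γ * s + β * b - 2 * γ) (h2 : 4 * γ * s ≤ S + b)
    (h3 : β * R ≤ β * (S + b) + R) : S ≤ 4 * (β * b) ∧ R ≤ 10 * (β * b) := by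
  have hβb : 0 ≤ β * b := mul_nonneg (by linarith) hb
  have h4 : (2 * β - 1) * S ≤ 2 * (β - 2) * R + (2 * β + 1) * b := by nlinarith
  have h5 : (β - 1) * ((2 * β - 1) * S) ≤ (β - 1) * (2 * (β - 2) * R + (2 * β + 1) * b) :=
    mul_le_mul_of_nonneg_left h4 (by linarith)
  have h6 : (β - 1) * R ≤ β * (S + b) := by linarith
  have h7 : (2 * (β - 2)) * ((β - 1) * R) ≤ (2 * (β - 2)) * (β * (S + b)) :=
    mul_le_mul_of_nonneg_left h6 (by linarith)
  have h8 : (β + 1) * S ≤ (β + 1) * (4 * (β * b)) := by nlinarith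
  have hS : S ≤ 4 * (β * b) := le_of_mul_le_mul_left h8 (by linarith)
  refine ⟨hS, ?_⟩
  have h9 : β * (S + b) ≤ β * (4 * (β * b) + b) :=
    mul_le_mul_of_nonneg_left (by linarith) (by linarith)
  have h10 : (β - 1) * R ≤ (β - 1) * (10 * (β * b)) := by
    have h11 : 11 * (β * b) ≤ 6 * (β * (β * b)) := by nlinarith
    nlinarith
  exact le_of_mul_le_mul_left h10 (by linarith)

/-- **A highly connected part inside a minimal set with small boundary.** -/
theorem core_loc (D k₀ b N L : ℕ) (h3 : ∀ v, G.degree v = 3) {P : Finset V}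
    (hPc : ¬ (G.induce (P : Set V)).IsAcyclic) (hPb : dd G P ≤ b)
    (hPm : ∀ A ⊆ P, A ≠ P → ¬ (G.induce (A : Set V)).IsAcyclic → b < dd G A)
    (hb : 4 * ((D + 4) * k₀) ≤ b) (hN : 10 * ((D + 4) * b) + D ≤ N)
    (hsp : ∀ U ⊆ P, U.card ≤ N → (D + 4) * U.card ≤ (D + 4) * dd G U + U.card)
    (hL : 10 * ((D + 4) * b) + 2 * D ≤ L)
    (hgir : ∀ A ⊆ P, A.card ≤ L → (G.induce (A : Set V)).IsAcyclic) :
    ∃ X ⊆ P, ¬ (G.induce (X : Set V)).IsAcyclic ∧ dd G X ≤ 4 * ((D + 4) * b) ∧ FarB G D X ∧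
      ∀ Y ⊆ X, ¬ (G.induce (Y : Set V)).IsAcyclic →
          ¬ (G.induce ((X \ Y : Finset V) : Set V)).IsAcyclic → k₀ ≤ ee G Y (X \ Y) := by
  classical
  set β : ℕ := D + 4 with hβ
  set γ : ℕ := β * k₀ with hγ
  set c : ℕ := (Pᶜ : Finset V).card with hc
  have hLP : ∀ A ⊆ P, ¬ (G.induce (A : Set V)).IsAcyclic → L < A.card := fun A hA hAc => by
    by_contra h
    exact hAc (hgir A hA (not_lt.1 h))
  -- the extremal family
  let Φ : Finset (Finset V) → ℤ := fun 𝒞 =>
    (β : ℤ) * (∑ A ∈ 𝒞, dd G A : ℕ) - ((β : ℤ) - 2) * (rest 𝒞).card - 2 * γ * 𝒞.card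
  let adm : Finset (Finset (Finset V)) := univ.filter fun 𝒞 =>
    DFam G 𝒞 ∧ Pᶜ ⊆ rest 𝒞 ∧ (rest 𝒞).card ≤ c + N
  have hrest1 : rest ({P} : Finset (Finset V)) = Pᶜ := by
    ext v
    rw [mem_rest, mem_compl]
    simp
  have hstart : ({P} : Finset (Finset V)) ∈ adm := by
    refine mem_filter.2 ⟨mem_univ _, ⟨?_, ?_⟩, ?_, ?_⟩
    · intro A hA B hB hAB
      rw [mem_singleton] at hA hB
      exact absurd (hA.trans hB.symm) hAB
    · intro A hA
      rw [mem_singleton] at hA
      rw [hA]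
      exact hPc
    · rw [hrest1]
    · rw [hrest1]
      omega
  obtain ⟨𝒞, h𝒞, hmin⟩ := exists_min_image adm Φ ⟨_, hstart⟩
  obtain ⟨-, hF, hPr, hR⟩ := mem_filter.1 h𝒞
  have hsub : ∀ A ∈ 𝒞, A ⊆ P := by
    intro A hA v hv
    by_contra hvP
    exact mem_rest.1 (hPr (mem_compl.2 hvP)) A hA hv
  set S : ℕ := ∑ A ∈ 𝒞, dd G A with hS
  set T : Finset V := rest 𝒞 ∩ P with hT
  set R : ℕ := T.card with hRdef
  set s : ℕ := 𝒞.card with hs
  have hRc : (rest 𝒞).card = c + R := by
    have h1 : rest 𝒞 = Pᶜ ∪ T := by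
      ext v
      rw [mem_union, hT, mem_inter, mem_compl]
      constructor
      · intro hv
        by_cases hvP : v ∈ P
        · exact Or.inr ⟨hv, hvP⟩
        · exact Or.inl hvP
      · rintro (hv | hv)
        · exact hPr (mem_compl.2 hv)
        · exact hv.1
    rw [h1, card_union_of_disjoint]
    rw [Finset.disjoint_left]
    intro v hv hvT
    exact (mem_compl.1 hv) (mem_inter.1 hvT).2
  have hTP : T ⊆ P := inter_subset_right
  have hRN : R ≤ N := by omega
  have hΦ : Φ 𝒞 = (β : ℤ) * S - ((β : ℤ) - 2) * (c + R) - 2 * γ * s := by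
    have e1 : (((rest 𝒞).card : ℕ) : ℤ) = c + R := by exact_mod_cast hRc
    show (β : ℤ) * S - ((β : ℤ) - 2) * (rest 𝒞).card - 2 * γ * s = _
    rw [e1]
  have hΦ1 : Φ {P} = (β : ℤ) * dd G P - ((β : ℤ) - 2) * c - 2 * γ := by
    simp only [Φ, sum_singleton, hrest1, card_singleton]
    push_cast
    ring
  have hβ4 : (4 : ℤ) ≤ β := by exact_mod_cast (by omega : 4 ≤ β)
  have hγ0 : (0 : ℤ) ≤ γ := Nat.cast_nonneg _
  have hb0 : (0 : ℤ) ≤ b := Nat.cast_nonneg _
  -- the bounds
  have hdT : dd G T ≤ S + b :=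
    (dd_inter_le (rest 𝒞) P).trans (Nat.add_le_add (dd_rest (G := G) 𝒞) hPb)
  have hsT : β * R ≤ β * dd G T + R := hsp T hTP hRN
  have hs4 : 4 * γ * s ≤ S + b := by
    by_cases hP : P ∈ 𝒞
    · have h1 : 𝒞 = {P} := by
        ext A
        rw [mem_singleton]
        constructor
        · intro hA
          by_contra hne
          obtain ⟨v, hv⟩ := ne_of_cyc (hF.cyc A hA)
          exact Finset.disjoint_left.1 (hF.disj A hA P hP hne) hv (hsub A hA hv)
        · rintro rfl
          exact hP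
      have h2 : s = 1 := by rw [hs, h1, card_singleton]
      rw [h2]
      omega
    · have h1 : s * (4 * γ) ≤ S := by
        rw [hs, hS, ← smul_eq_mul, ← sum_const]
        refine sum_le_sum fun A hA => ?_
        have h2 := hPm A (hsub A hA) (fun h => hP (h ▸ hA)) (hF.cyc A hA)
        omega
      have h2 : 4 * γ * s = s * (4 * γ) := by ring
      omega
  have hmin1 := hmin _ hstart
  rw [hΦ, hΦ1] at hmin1
  have hPb' : (β : ℤ) * dd G P ≤ β * b :=
    mul_le_mul_of_nonneg_left (by exact_mod_cast hPb) (by linarith)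
  obtain ⟨hS4, hR10⟩ := arith (β := β) (γ := γ) (S := S) (R := R) (s := s) (b := b) hβ4 hγ0 hb0
    (by linarith) (by exact_mod_cast hs4) (by
      have h1 : β * R ≤ β * (S + b) + R :=
        hsT.trans (Nat.add_le_add_right (Nat.mul_le_mul_left β hdT) _)
      exact_mod_cast h1)
  have hS4' : S ≤ 4 * (β * b) := by exact_mod_cast hS4
  have hR10' : R ≤ 10 * (β * b) := by exact_mod_cast hR10
  have hddS : ∀ X ∈ 𝒞, dd G X ≤ S := fun X hX =>
    single_le_sum (f := fun A => dd G A) (fun _ _ => Nat.zero_le _) hX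
  -- there is a member
  have hne : 𝒞.Nonempty := by
    by_contra hcon
    rw [not_nonempty_iff_eq_empty] at hcon
    have h1 : T = P := by
      rw [hT, hcon]
      ext v
      simp [rest]
    have h2 := hLP P subset_rfl hPc
    rw [← h1] at h2
    omega
  -- the inner cyclic cuts are large
  have hcut : ∀ X ∈ 𝒞, ∀ Y ⊆ X, ¬ (G.induce (Y : Set V)).IsAcyclic →
      ¬ (G.induce ((X \ Y : Finset V) : Set V)).IsAcyclic → k₀ ≤ ee G Y (X \ Y) := by
    intro X hX Y hY h1 h2
    by_contra hlt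
    obtain ⟨𝒟, d1, d2, d3, d4⟩ := hF.split hX hY h1 h2
    have hadm : 𝒟 ∈ adm := mem_filter.2 ⟨mem_univ _, d1, by rw [d4]; exact hPr,
      by rw [d4]; exact hR⟩
    have h5 := hmin _ hadm
    have h6 : Φ 𝒟 = (β : ℤ) * (S + 2 * ee G Y (X \ Y)) - ((β : ℤ) - 2) * (c + R)
        - 2 * γ * (s + 1) := by
      simp only [Φ]
      have e1 : ((∑ A ∈ 𝒟, dd G A : ℕ) : ℤ) = S + 2 * ee G Y (X \ Y) := by
        exact_mod_cast d3
      have e2 : ((𝒟.card : ℕ) : ℤ) = s + 1 := by exact_mod_cast d2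
      rw [e1, e2, d4, hRc]
      push_cast
      rfl
    rw [hΦ, h6] at h5
    have h7 : (ee G Y (X \ Y) : ℤ) + 1 ≤ k₀ := by
      have : ee G Y (X \ Y) + 1 ≤ k₀ := by omega
      exact_mod_cast this
    have h8 : (β : ℤ) * (ee G Y (X \ Y) + 1) ≤ β * k₀ :=
      mul_le_mul_of_nonneg_left h7 (by linarith)
    have h9 : (γ : ℤ) = β * k₀ := by
      rw [hγ]
      push_cast
      rfl
    linarith
  -- the boundaries of the members are far apart
  have hfar : ∀ X ∈ 𝒞, FarB G D X := by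
    intro X hX W hWX hWD hWc
    by_contra hee
    have hee : 2 ≤ ee G W Xᶜ := by omega
    have h1 := bead_conn (G := G) h3 hWc
    have h2 := bead_sdiff (G := G) hWX
    have hdX : dd G (X \ W) + 2 ≤ dd G X + W.card := by omega
    have hWX' : (X \ W).card + W.card = X.card := card_sdiff_add_card_eq_card hWX
    have hXS := hddS X hX
    have hbig := hLP X (hsub X hX) (hF.cyc X hX)
    have hcyc : ¬ (G.induce ((X \ W : Finset V) : Set V)).IsAcyclic := by
      intro hac
      rcases (X \ W).eq_empty_or_nonempty with he | hne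
      · rw [he, card_empty] at hWX'
        omega
      · have h4 := dd_of_acyclic G h3 hne hac
        omega
    obtain ⟨𝒟, d1, d2, d3, d4, d5⟩ := remove hF hX hWX hcyc
    have hadm : 𝒟 ∈ adm := mem_filter.2 ⟨mem_univ _, d1, hPr.trans d5, by omega⟩
    have h5 := hmin _ hadm
    have h6 : Φ 𝒟 = (β : ℤ) * (S + dd G (X \ W) - dd G X) - ((β : ℤ) - 2) * (c + R + W.card)
        - 2 * γ * s := by
      simp only [Φ]
      have e1 : ((∑ A ∈ 𝒟, dd G A : ℕ) : ℤ) = S + dd G (X \ W) - dd G X := by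
        have : ((∑ A ∈ 𝒟, dd G A : ℕ) : ℤ) + dd G X = S + dd G (X \ W) := by
          exact_mod_cast d3
        linarith
      have e3 : (((rest 𝒟).card : ℕ) : ℤ) = c + R + W.card := by
        rw [d4, hRc]
        push_cast
        ring
      rw [e1, d2, e3]
    rw [hΦ, h6] at h5
    have h7 : (dd G (X \ W) : ℤ) + 2 ≤ dd G X + W.card := by exact_mod_cast hdX
    have h8 : (β : ℤ) * (dd G (X \ W) - dd G X) ≤ β * (W.card - 2) :=
      mul_le_mul_of_nonneg_left (by linarith) (by linarith)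
    have h9 : (W.card : ℤ) + 4 ≤ β := by
      have : W.card + 4 ≤ β := by omega
      exact_mod_cast this
    linarith
  obtain ⟨X, hX⟩ := hne
  exact ⟨X, hsub X hX, hF.cyc X hX, (hddS X hX).trans hS4', hfar X hX, hcut X hX⟩

end Pool.Agent.K5.Loc
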