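import Mathlib
import Pool.Agent.Work.MP_974d84_co_k5.GirRed

/-!
# A highly connected part beside few short circuits

The extremal family inside a large set with small boundary which is minimal with this property,
away from a small set which meets all short circuits.
-/

set_option linter.unusedSectionVars false

namespace Pool.Agent.K5.Loc

open Finset SimpleGraph Pool.Agent.Exp Pool.Agent.Log5 Pool.Agent.Log5.Clu Pool.Agent.K5
open Pool.Agent.K5.Parts Pool.Agent.K5.Ker

variable {V : Type} [Fintype V] [DecidableEq V] {G : SimpleGraph V} [DecidableRel G.Adj]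

/-- **A highly connected part beside few short circuits.** -/
theorem core_log (D k₀ b B z h M N : ℕ) (h3 : ∀ v, G.degree v = 3) {P Z : Finset V}
    (hZP : Z ⊆ P) (hz : Z.card ≤ z) (hPM : M < P.card) (hPb : dd G P ≤ b)
    (hPm : ∀ A ⊆ P, A ≠ P → M < A.card → b < dd G A)
    (hb : 4 * ((D + 4) * k₀) ≤ b) (hB : b + 3 * z ≤ B)
    (hM : 10 * ((D + 4) * B) + z ≤ M) (hMN : M ≤ N) (hN : 14 * ((D + 4) * B) + 2 * D ≤ N)
    (hh : 8 * ((D + 4) * k₀) ≤ h)
    (hsp : ∀ U ⊆ P \ Z, U.card ≤ N → (D + 4) * U.card ≤ (D + 4) * dd G U + U.card)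
    (hgir : ∀ A ⊆ P \ Z, A.card ≤ h → (G.induce (A : Set V)).IsAcyclic) :
    ∃ X ⊆ P \ Z, ¬ (G.induce (X : Set V)).IsAcyclic ∧ dd G X ≤ 4 * ((D + 4) * B) ∧ FarB G D X ∧
      ∀ Y ⊆ X, ¬ (G.induce (Y : Set V)).IsAcyclic →
          ¬ (G.induce ((X \ Y : Finset V) : Set V)).IsAcyclic → k₀ ≤ ee G Y (X \ Y) := by
  classical
  set β : ℕ := D + 4 with hβ
  set γ : ℕ := β * k₀ with hγ
  set P' : Finset V := P \ Z with hP'
  have hP'P : P' ⊆ P := sdiff_subset
  set c : ℕ := (P'ᶜ : Finset V).card with hc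
  have hBβ : B ≤ β * B := Nat.le_mul_of_pos_left _ (by omega)
  have hP'c : P'.card + Z.card = P.card := card_sdiff_add_card_eq_card hZP
  have hP'M : 10 * (β * B) < P'.card := by omega
  have hP'b : dd G P' ≤ B := by
    have h1 : P' = P ∩ Zᶜ := by
      ext v
      rw [hP', mem_sdiff, mem_inter, mem_compl]
    have h2 := dd_inter_le (G := G) P Zᶜ
    rw [← h1, dd_compl] at h2
    have h4 := dd_add_inside G h3 Z
    omega
  have hP'cyc : ¬ (G.induce (P' : Set V)).IsAcyclic := by
    intro hac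
    have h0 : P'.Nonempty := card_pos.1 (by omega)
    have h1 := dd_of_acyclic G h3 h0 hac
    omega
  have hLP : ∀ A ⊆ P', ¬ (G.induce (A : Set V)).IsAcyclic → h < A.card := fun A hA hAc => by
    by_contra h'
    exact hAc (hgir A hA (not_lt.1 h'))
  -- the extremal family
  let Φ : Finset (Finset V) → ℤ := fun 𝒞 =>
    (β : ℤ) * (∑ A ∈ 𝒞, dd G A : ℕ) - ((β : ℤ) - 2) * (rest 𝒞).card - 2 * γ * 𝒞.card
  let adm : Finset (Finset (Finset V)) := univ.filter fun 𝒞 =>
    DFam G 𝒞 ∧ P'ᶜ ⊆ rest 𝒞 ∧ (rest 𝒞).card ≤ c + N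
  have hrest1 : rest ({P'} : Finset (Finset V)) = P'ᶜ := by
    ext v
    rw [mem_rest, mem_compl]
    simp
  have hstart : ({P'} : Finset (Finset V)) ∈ adm := by
    refine mem_filter.2 ⟨mem_univ _, ⟨?_, ?_⟩, ?_, ?_⟩
    · intro A hA B hB hAB
      rw [mem_singleton] at hA hB
      exact absurd (hA.trans hB.symm) hAB
    · intro A hA
      rw [mem_singleton] at hA
      rw [hA]
      exact hP'cyc
    · rw [hrest1]
    · rw [hrest1]
      omega
  obtain ⟨𝒞, h𝒞, hmin⟩ := exists_min_image adm Φ ⟨_, hstart⟩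
  obtain ⟨-, hF, hPr, hR⟩ := mem_filter.1 h𝒞
  have hsub : ∀ A ∈ 𝒞, A ⊆ P' := by
    intro A hA v hv
    by_contra hvP
    exact mem_rest.1 (hPr (mem_compl.2 hvP)) A hA hv
  set S : ℕ := ∑ A ∈ 𝒞, dd G A with hS
  set T : Finset V := rest 𝒞 ∩ P' with hT
  set R : ℕ := T.card with hRdef
  set s : ℕ := 𝒞.card with hs
  have hRc : (rest 𝒞).card = c + R := by
    have h1 : rest 𝒞 = P'ᶜ ∪ T := by
      ext v
      rw [mem_union, hT, mem_inter, mem_compl]
      constructor
      · intro hv
        by_cases hvP : v ∈ P'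
        · exact Or.inr ⟨hv, hvP⟩
        · exact Or.inl hvP
      · rintro (hv | hv)
        · exact hPr (mem_compl.2 hv)
        · exact hv.1
    rw [h1, card_union_of_disjoint]
    rw [Finset.disjoint_left]
    intro v hv hvT
    exact (mem_compl.1 hv) (mem_inter.1 hvT).2
  have hTP : T ⊆ P' := inter_subset_right
  have hRN : R ≤ N := by omega
  have hΦ : Φ 𝒞 = (β : ℤ) * S - ((β : ℤ) - 2) * (c + R) - 2 * γ * s := by
    have e1 : (((rest 𝒞).card : ℕ) : ℤ) = c + R := by exact_mod_cast hRc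
    show (β : ℤ) * S - ((β : ℤ) - 2) * (rest 𝒞).card - 2 * γ * s = _
    rw [e1]
  have hΦ1 : Φ {P'} = (β : ℤ) * dd G P' - ((β : ℤ) - 2) * c - 2 * γ := by
    simp only [Φ, sum_singleton, hrest1, card_singleton]
    push_cast
    ring
  have hβ4 : (4 : ℤ) ≤ β := by exact_mod_cast (by omega : 4 ≤ β)
  have hγ0 : (0 : ℤ) ≤ γ := Nat.cast_nonneg _
  have hB0 : (0 : ℤ) ≤ B := Nat.cast_nonneg _
  -- the bounds
  have hdT : dd G T ≤ S + B :=
    (dd_inter_le (rest 𝒞) P').trans (Nat.add_le_add (dd_rest (G := G) 𝒞) hP'b)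
  have hsT : β * R ≤ β * dd G T + R := hsp T hTP hRN
  have hs4 : 4 * γ * s ≤ S + B := by
    by_cases hP : P ∈ 𝒞
    · have h1 : 𝒞 = {P} := by
        ext A
        rw [mem_singleton]
        constructor
        · intro hA
          by_contra hne
          obtain ⟨v, hv⟩ := ne_of_cyc (hF.cyc A hA)
          exact Finset.disjoint_left.1 (hF.disj A hA P hP hne) hv (hP'P (hsub A hA hv))
        · rintro rfl
          exact hP
      have h2 : s = 1 := by rw [hs, h1, card_singleton]
      rw [h2]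
      omega
    · have h1 : s * (4 * γ) ≤ S := by
        rw [hs, hS, ← smul_eq_mul, ← sum_const]
        refine sum_le_sum fun A hA => ?_
        by_cases hAM : M < A.card
        · have h2 := hPm A ((hsub A hA).trans hP'P) (fun h => hP (h ▸ hA)) hAM
          omega
        · have h2 := hsp A (hsub A hA) (by omega)
          have h4 := hLP A (hsub A hA) (hF.cyc A hA)
          by_contra hcon
          have h5 : dd G A + 1 ≤ 4 * γ := by omega
          have h6 : β * (dd G A + 1) ≤ β * (4 * γ) := Nat.mul_le_mul_left _ h5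
          have h7 : β * (8 * γ + 1) ≤ β * A.card := Nat.mul_le_mul_left _ (by omega)
          have h8 : β * A.card ≥ 4 * A.card := Nat.mul_le_mul_right _ (by omega)
          have h9 : β * (8 * γ + 1) = 8 * (β * γ) + β := by ring
          have h10 : β * (4 * γ) = 4 * (β * γ) := by ring
          have h11 : β * (dd G A + 1) = β * dd G A + β := by ring
          omega
      have h2 : 4 * γ * s = s * (4 * γ) := by ring
      omega
  have hmin1 := hmin _ hstart
  rw [hΦ, hΦ1] at hmin1
  have hPb' : (β : ℤ) * dd G P' ≤ β * B :=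
    mul_le_mul_of_nonneg_left (by exact_mod_cast hP'b) (by linarith)
  obtain ⟨hS4, hR10⟩ := arith (β := β) (γ := γ) (S := S) (R := R) (s := s) (b := B) hβ4 hγ0 hB0
    (by linarith) (by exact_mod_cast hs4) (by
      have h1 : β * R ≤ β * (S + B) + R :=
        hsT.trans (Nat.add_le_add_right (Nat.mul_le_mul_left β hdT) _)
      exact_mod_cast h1)
  have hS4' : S ≤ 4 * (β * B) := by exact_mod_cast hS4
  have hR10' : R ≤ 10 * (β * B) := by exact_mod_cast hR10
  have hddS : ∀ X ∈ 𝒞, dd G X ≤ S := fun X hX =>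
    single_le_sum (f := fun A => dd G A) (fun _ _ => Nat.zero_le _) hX
  -- there is a member
  have hne : 𝒞.Nonempty := by
    by_contra hcon
    rw [not_nonempty_iff_eq_empty] at hcon
    have h1 : T = P' := by
      rw [hT, hcon]
      ext v
      simp [rest]
    rw [← h1] at hP'M
    omega
  -- the inner cyclic cuts are large
  have hcut : ∀ X ∈ 𝒞, ∀ Y ⊆ X, ¬ (G.induce (Y : Set V)).IsAcyclic →
      ¬ (G.induce ((X \ Y : Finset V) : Set V)).IsAcyclic → k₀ ≤ ee G Y (X \ Y) := by
    intro X hX Y hY h1 h2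
    by_contra hlt
    obtain ⟨𝒟, d1, d2, d3, d4⟩ := hF.split hX hY h1 h2
    have hadm : 𝒟 ∈ adm := mem_filter.2 ⟨mem_univ _, d1, by rw [d4]; exact hPr,
      by rw [d4]; exact hR⟩
    have h5 := hmin _ hadm
    have h6 : Φ 𝒟 = (β : ℤ) * (S + 2 * ee G Y (X \ Y)) - ((β : ℤ) - 2) * (c + R)
        - 2 * γ * (s + 1) := by
      simp only [Φ]
      have e1 : ((∑ A ∈ 𝒟, dd G A : ℕ) : ℤ) = S + 2 * ee G Y (X \ Y) := by
        exact_mod_cast d3
      have e2 : ((𝒟.card : ℕ) : ℤ) = s + 1 := by exact_mod_cast d2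
      rw [e1, e2, d4, hRc]
      push_cast
      rfl
    rw [hΦ, h6] at h5
    have h7 : (ee G Y (X \ Y) : ℤ) + 1 ≤ k₀ := by
      have : ee G Y (X \ Y) + 1 ≤ k₀ := by omega
      exact_mod_cast this
    have h8 : (β : ℤ) * (ee G Y (X \ Y) + 1) ≤ β * k₀ :=
      mul_le_mul_of_nonneg_left h7 (by linarith)
    have h9 : (γ : ℤ) = β * k₀ := by
      rw [hγ]
      push_cast
      rfl
    linarith
  -- the members are much larger than their boundary
  have hbig : ∀ X ∈ 𝒞, dd G X + 2 * D < X.card := by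
    intro X hX
    by_contra hlt
    have hXS := hddS X hX
    have hXh := hLP X (hsub X hX) (hF.cyc X hX)
    obtain ⟨d1, d2, d3, d4⟩ := hF.drop hX
    have hadm : 𝒞.erase X ∈ adm := mem_filter.2 ⟨mem_univ _, d1, fun v hv => by
      rw [mem_rest]
      intro A hA
      exact mem_rest.1 (hPr hv) A (mem_erase.1 hA).2, by omega⟩
    have h5 := hmin _ hadm
    have h6 : Φ (𝒞.erase X) = (β : ℤ) * (S - dd G X) - ((β : ℤ) - 2) * (c + R + X.card)
        - 2 * γ * (s - 1) := by
      simp only [Φ]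
      have e1 : ((∑ A ∈ 𝒞.erase X, dd G A : ℕ) : ℤ) = S - dd G X := by
        have : ((∑ A ∈ 𝒞.erase X, dd G A : ℕ) : ℤ) + dd G X = S := by exact_mod_cast d3
        linarith
      have e2 : (((𝒞.erase X).card : ℕ) : ℤ) = s - 1 := by
        have : (((𝒞.erase X).card : ℕ) : ℤ) + 1 = s := by exact_mod_cast d2
        linarith
      have e3 : (((rest (𝒞.erase X)).card : ℕ) : ℤ) = c + R + X.card := by
        rw [d4, hRc]
        push_cast
        ring
      rw [e1, e2, e3]
    rw [hΦ, h6] at h5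
    have h7 : (8 * γ + 1 : ℤ) ≤ X.card := by exact_mod_cast (by omega : 8 * γ + 1 ≤ X.card)
    have h8 : (0 : ℤ) ≤ β * dd G X := mul_nonneg (by linarith) (Nat.cast_nonneg _)
    have h9 : ((β : ℤ) - 2) * (8 * γ + 1) ≤ ((β : ℤ) - 2) * X.card :=
      mul_le_mul_of_nonneg_left h7 (by linarith)
    have h11 : (0 : ℤ) ≤ ((β : ℤ) - 4) * γ := mul_nonneg (by linarith) hγ0
    linarith
  -- the boundaries of the members are far apart
  have hfar : ∀ X ∈ 𝒞, FarB G D X := by
    intro X hX W hWX hWD hWc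
    by_contra hee
    have hee : 2 ≤ ee G W Xᶜ := by omega
    have h1 := bead_conn (G := G) h3 hWc
    have h2 := bead_sdiff (G := G) hWX
    have hdX : dd G (X \ W) + 2 ≤ dd G X + W.card := by omega
    have hWX' : (X \ W).card + W.card = X.card := card_sdiff_add_card_eq_card hWX
    have hbigX := hbig X hX
    have hcyc : ¬ (G.induce ((X \ W : Finset V) : Set V)).IsAcyclic := by
      intro hac
      rcases (X \ W).eq_empty_or_nonempty with he | hne
      · rw [he, card_empty] at hWX'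
        omega
      · have h4 := dd_of_acyclic G h3 hne hac
        omega
    obtain ⟨𝒟, d1, d2, d3, d4, d5⟩ := remove hF hX hWX hcyc
    have hadm : 𝒟 ∈ adm := mem_filter.2 ⟨mem_univ _, d1, hPr.trans d5, by omega⟩
    have h5 := hmin _ hadm
    have h6 : Φ 𝒟 = (β : ℤ) * (S + dd G (X \ W) - dd G X) - ((β : ℤ) - 2) * (c + R + W.card)
        - 2 * γ * s := by
      simp only [Φ]
      have e1 : ((∑ A ∈ 𝒟, dd G A : ℕ) : ℤ) = S + dd G (X \ W) - dd G X := by
        have : ((∑ A ∈ 𝒟, dd G A : ℕ) : ℤ) + dd G X = S + dd G (X \ W) := by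
          exact_mod_cast d3
        linarith
      have e3 : (((rest 𝒟).card : ℕ) : ℤ) = c + R + W.card := by
        rw [d4, hRc]
        push_cast
        ring
      rw [e1, d2, e3]
    rw [hΦ, h6] at h5
    have h7 : (dd G (X \ W) : ℤ) + 2 ≤ dd G X + W.card := by exact_mod_cast hdX
    have h8 : (β : ℤ) * (dd G (X \ W) - dd G X) ≤ β * (W.card - 2) :=
      mul_le_mul_of_nonneg_left (by linarith) (by linarith)
    have h9 : (W.card : ℤ) + 4 ≤ β := by
      have : W.card + 4 ≤ β := by omega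
      exact_mod_cast this
    linarith
  obtain ⟨X, hX⟩ := hne
  exact ⟨X, hsub X hX, hF.cyc X hX, (hddS X hX).trans hS4', hfar X hX, hcut X hX⟩

end Pool.Agent.K5.Loc
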