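import Mathlib
import Pool.Agent.Work.MP_974d84_co_k5.GirRedCore
import Pool.Agent.Work.MP_974d84_co_k5.KerLog

/-!
# Many short circuits or a highly connected part
-/

set_option linter.unusedSectionVars false

namespace Pool.Agent.K5.Loc

open Finset SimpleGraph Pool.Agent.Exp Pool.Agent.Log5 Pool.Agent.Log5.Clu Pool.Agent.K5
open Pool.Agent.K5.Parts Pool.Agent.K5.Ker

/-- Sparse sets: from a sharper density to a weaker one. -/
theorem dens_mono {β β' x d : ℕ} (h : β ≤ β') (h1 : β' * x ≤ β' * d + x) :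
    β * x ≤ β * d + x := by
  rcases Nat.le_total x d with h2 | h2
  · have h4 : β * x ≤ β * d := Nat.mul_le_mul_left _ h2
    omega
  · obtain ⟨y, hy⟩ := Nat.exists_eq_add_of_le h2
    rw [hy] at h1 ⊢
    have h4 : β' * (d + y) = β' * d + β' * y := by ring
    have h5 : β * (d + y) = β * d + β * y := by ring
    have h6 : β * y ≤ β' * y := Nat.mul_le_mul_right _ h
    omega

/-- A maximal family of disjoint short cyclic sets. -/
theorem max_fam {V : Type} [Fintype V] [DecidableEq V] (G : SimpleGraph V) [DecidableRel G.Adj]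
    (P : Finset V) (h t : ℕ) :
    (∃ X : Fin t → Finset V, (∀ i j, i ≠ j → Disjoint (X i) (X j)) ∧
      ∀ i, X i ⊆ P ∧ ¬ (G.induce (X i : Set V)).IsAcyclic ∧ (X i).card ≤ h) ∨
    ∃ Z ⊆ P, Z.card ≤ t * h ∧
      ∀ A ⊆ P \ Z, A.card ≤ h → (G.induce (A : Set V)).IsAcyclic := by
  classical
  let good : Finset (Finset (Finset V)) := univ.filter fun 𝒵 =>
    (∀ A ∈ 𝒵, ∀ B ∈ 𝒵, A ≠ B → Disjoint A B) ∧
      ∀ A ∈ 𝒵, A ⊆ P ∧ ¬ (G.induce (A : Set V)).IsAcyclic ∧ A.card ≤ h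
  have h0 : (∅ : Finset (Finset V)) ∈ good :=
    mem_filter.2 ⟨mem_univ _, fun A hA => absurd hA (notMem_empty A),
      fun A hA => absurd hA (notMem_empty A)⟩
  obtain ⟨𝒵, h𝒵, hmax⟩ := exists_max_image good (fun 𝒵 => 𝒵.card) ⟨_, h0⟩
  obtain ⟨-, hdis, hall⟩ := mem_filter.1 h𝒵
  by_cases ht : t ≤ 𝒵.card
  · left
    set e := 𝒵.equivFin with he
    have hm : ∀ i : Fin t, (e.symm (Fin.castLE ht i)).1 ∈ 𝒵 := fun i =>
      (e.symm (Fin.castLE ht i)).2
    refine ⟨fun i => (e.symm (Fin.castLE ht i)).1, ?_, fun i => hall _ (hm i)⟩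
    intro i j hij
    refine hdis _ (hm i) _ (hm j) fun hcon => ?_
    exact hij (Fin.castLE_injective ht (e.symm.injective (Subtype.ext hcon)))
  · right
    refine ⟨𝒵.biUnion id, ?_, ?_, ?_⟩
    · rw [biUnion_subset]
      exact fun A hA => (hall A hA).1
    · refine (card_biUnion_le_card_mul _ _ h fun A hA => (hall A hA).2.2).trans ?_
      exact Nat.mul_le_mul_right _ (by omega)
    · intro A hA hAc
      by_contra hcyc
      have hAP : A ⊆ P := hA.trans sdiff_subset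
      have hdA : ∀ B ∈ 𝒵, Disjoint A B := by
        intro B hB
        rw [Finset.disjoint_left]
        intro v hvA hvB
        exact (mem_sdiff.1 (hA hvA)).2 (mem_biUnion.2 ⟨B, hB, hvB⟩)
      have hnA : A ∉ 𝒵 := by
        intro hm
        obtain ⟨v, hv⟩ := ne_of_cyc hcyc
        exact Finset.disjoint_left.1 (hdA A hm) hv hv
      have hgood : insert A 𝒵 ∈ good := by
        refine mem_filter.2 ⟨mem_univ _, ?_, ?_⟩
        · intro B hB B' hB' hne
          rcases mem_insert.1 hB with e1 | hB1 <;> rcases mem_insert.1 hB' with e2 | hB2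
          · exact absurd (e1.trans e2.symm) hne
          · rw [e1]
            exact hdA B' hB2
          · rw [e2]
            exact (hdA B hB1).symm
          · exact hdis B hB1 B' hB2 hne
        · intro B hB
          rcases mem_insert.1 hB with e1 | hB1
          · rw [e1]
            exact ⟨hAP, hcyc, hAc⟩
          · exact hall B hB1
      have h1 := hmax _ hgood
      rw [card_insert_of_notMem hnA] at h1
      omega

/-- **Many short circuits or a highly connected part.** -/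
theorem exists_part_log (K : ℕ) : ∃ C : ℕ, ∀ {V : Type} [Fintype V] [DecidableEq V]
    (G : SimpleGraph V) [DecidableRel G.Adj], (∀ v, G.degree v = 3) → ∀ Q : Finset V,
    ∀ b t n : ℕ, dd G Q ≤ b → n = Nat.log 2 (t + b) + 1 → C * (t * n + b) < Q.card →
    (∃ X : Fin t → Finset V, (∀ i j, i ≠ j → Disjoint (X i) (X j)) ∧
      ∀ i, X i ⊆ Q ∧ ¬ (G.induce (X i : Set V)).IsAcyclic ∧ (X i).card ≤ C * n) ∨
    ∃ P ⊆ Q, ¬ (G.induce (P : Set V)).IsAcyclic ∧ (G.induce (P : Set V)).Connected ∧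
      dd G P ≤ C * (t * n + b) ∧ FarB G K P ∧
      (∀ A ⊆ P, A.card < K → (G.induce (A : Set V)).IsAcyclic) ∧
      ∀ Y ⊆ P, ¬ (G.induce (Y : Set V)).IsAcyclic →
        ¬ (G.induce ((P \ Y : Finset V) : Set V)).IsAcyclic → K ≤ ee G Y (P \ Y) := by
  obtain ⟨D, hD⟩ : ∃ D, D = K + 1 := ⟨_, rfl⟩
  obtain ⟨β, hβ⟩ : ∃ β, β = D + 4 := ⟨_, rfl⟩
  obtain ⟨γ, hγ⟩ : ∃ γ, γ = β * D := ⟨_, rfl⟩
  obtain ⟨D', hD'⟩ : ∃ D', D' = 14 * (β * (4 * γ + 1)) + 42 * β + 2 * D + 1 := ⟨_, rfl⟩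
  obtain ⟨c, hKc, hc⟩ := ker_num D' (8 * γ + D + K + 1)
  obtain ⟨F, hF⟩ : ∃ F, F = 4 * γ + 1 + 3 * c := ⟨_, rfl⟩
  obtain ⟨C, hC⟩ : ∃ C, C = 14 * (β * F) + 2 * D + c := ⟨_, rfl⟩
  refine ⟨C, ?_⟩
  intro V _ _ G _ h3 Q b t n hQb hn hQC
  classical
  rcases Nat.eq_zero_or_pos t with ht | ht
  · subst ht
    exact Or.inl ⟨fun i => i.elim0, fun i => i.elim0, fun i => i.elim0⟩
  have hn1 : 1 ≤ n := by omega
  have htb : t + b < 2 ^ n := by
    rw [hn]
    exact Nat.lt_pow_succ_log_self (by norm_num) _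
  obtain ⟨τ, hτ⟩ : ∃ τ, τ = t * n + b := ⟨_, rfl⟩
  rw [← hτ] at hQC ⊢
  have htn : 1 ≤ t * n := Nat.one_le_iff_ne_zero.2 (Nat.mul_ne_zero (by omega) (by omega))
  have hτ1 : 1 ≤ τ := by omega
  obtain ⟨h, hh⟩ : ∃ h, h = c * n := ⟨_, rfl⟩
  obtain ⟨z, hz⟩ : ∃ z, z = t * h := ⟨_, rfl⟩
  have hzτ : z ≤ c * τ := by
    have h1 : t * h = c * (t * n) := by rw [hh]; ring
    rw [hz, h1]
    exact Nat.mul_le_mul_left _ (by omega)
  obtain ⟨B, hB⟩ : ∃ B, B = F * τ := ⟨_, rfl⟩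
  have hch : c ≤ h := by
    rw [hh]
    exact Nat.le_mul_of_pos_right _ hn1
  have hBb : b + 4 * γ + 3 * z ≤ B := by
    have h1 : F * τ = 4 * γ * τ + τ + 3 * (c * τ) := by rw [hF]; ring
    have h2 : 4 * γ ≤ 4 * γ * τ := Nat.le_mul_of_pos_right _ hτ1
    omega
  obtain ⟨M, hM⟩ : ∃ M, M = 10 * (β * B) + c * τ := ⟨_, rfl⟩
  obtain ⟨N, hN⟩ : ∃ N, N = 14 * (β * B) + 2 * D + c * τ := ⟨_, rfl⟩
  have hMN : M ≤ N := by omega
  have hNC : N ≤ C * τ := by
    have h1 : C * τ = 14 * (β * (F * τ)) + 2 * D * τ + c * τ := by rw [hC]; ring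
    have h2 : 2 * D ≤ 2 * D * τ := Nat.le_mul_of_pos_right _ hτ1
    rw [← hB] at h1
    omega
  -- the size of the sparse sets
  have hNn : N ≤ 8 * ((D' + 4) * (c * n)) * 2 ^ n + 2 * D' + 2 * (c * n) := by
    have h1 : τ ≤ n * 2 ^ n := by
      have h2 : τ ≤ n * (t + b) := by
        have h4 : n * (t + b) = t * n + n * b := by ring
        have h5 : b ≤ n * b := Nat.le_mul_of_pos_left _ hn1
        omega
      exact h2.trans (Nat.mul_le_mul_left _ htb.le)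
    have h2 : C ≤ c * D' := by
      have h4 : c * D' = 14 * (β * (4 * γ + 1)) * c + 42 * (β * c) + 2 * D * c + c := by
        rw [hD']; ring
      have h5 : C = 14 * (β * (4 * γ + 1)) + 42 * (β * c) + 2 * D + c := by
        rw [hC, hF]; ring
      have h6 : 14 * (β * (4 * γ + 1)) ≤ 14 * (β * (4 * γ + 1)) * c :=
        Nat.le_mul_of_pos_right _ (by omega)
      have h7 : 2 * D ≤ 2 * D * c := Nat.le_mul_of_pos_right _ (by omega)
      omega
    have h4 : C * τ ≤ c * D' * (n * 2 ^ n) := Nat.mul_le_mul h2 h1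
    have h5 : 8 * ((D' + 4) * (c * n)) * 2 ^ n = 8 * (c * D' * (n * 2 ^ n)) +
        32 * (c * (n * 2 ^ n)) := by ring
    omega
  obtain ⟨j, hj, hjN⟩ := hc n hn1
  -- a minimal large set with small boundary
  obtain ⟨P₀, hP₀, hmin⟩ := (Q.powerset.filter fun A : Finset V =>
    M < A.card ∧ dd G A ≤ b + 4 * γ).exists_min_image (fun A : Finset V => A.card)
    ⟨Q, mem_filter.2 ⟨mem_powerset_self Q, by omega, by omega⟩⟩
  rw [mem_filter, mem_powerset] at hP₀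
  obtain ⟨hPQ, hPM, hPb⟩ := hP₀
  have hPm : ∀ A ⊆ P₀, A ≠ P₀ → M < A.card → b + 4 * γ < dd G A := by
    intro A hA hne hAM
    by_contra hle
    have h1 := hmin A (mem_filter.2 ⟨mem_powerset.2 (hA.trans hPQ), hAM, not_lt.1 hle⟩)
    exact hne (eq_of_subset_of_card_le hA h1)
  rcases max_fam G P₀ h t with ⟨X, hX1, hX2⟩ | ⟨Z, hZP, hZc, hZg⟩
  · left
    refine ⟨X, hX1, fun i => ⟨(hX2 i).1.trans hPQ, (hX2 i).2.1, (hX2 i).2.2.trans ?_⟩⟩
    rw [hh]
    exact Nat.mul_le_mul_right _ (by omega)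
  right
  have hsp : ∀ U ⊆ P₀ \ Z, U.card ≤ N → (D + 4) * U.card ≤ (D + 4) * dd G U + U.card := by
    intro U hU hUN
    refine dens_mono (β' := D' + 4) (by
      have : D ≤ D' := by omega
      omega) ?_
    by_contra hcon
    push Not at hcon
    have hβ0 : (0 : ℝ) < ((D' + 4 : ℕ) : ℝ) := by positivity
    have hS : (dd G U : ℝ) < (1 - 1 / ((D' + 4 : ℕ) : ℝ)) * U.card := by
      have h1 : ((D' + 4 : ℕ) : ℝ) * dd G U + U.card < ((D' + 4 : ℕ) : ℝ) * U.card := by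
        exact_mod_cast hcon
      have h2 : (1 - 1 / ((D' + 4 : ℕ) : ℝ)) * U.card =
          (((D' + 4 : ℕ) : ℝ) * U.card - U.card) / ((D' + 4 : ℕ) : ℝ) := by
        field_simp
      rw [h2, lt_div_iff₀ hβ0]
      linarith
    have h1 := sparse_loc h3 (η := 1 / ((D' + 4 : ℕ) : ℝ)) (by positivity) hj
      (fun A hA hAc => hZg A (hA.trans hU) (by omega)) hS
    have h4 : (U.card : ℝ) ≤
        ((8 * ((D' + 4) * (c * n)) * 2 ^ n + 2 * D' + 2 * (c * n) : ℕ) : ℝ) := by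
      exact_mod_cast hUN.trans hNn
    linarith
  rw [hβ] at hγ
  obtain ⟨X, hXP, hXc, hXd, hXf, hXk⟩ := core_log (G := G) D D (b + 4 * γ) B z h M N h3 hZP
    (by omega) hPM hPb hPm (by omega) hBb (by rw [← hβ]; omega) hMN (by rw [← hβ]; omega)
    (by rw [← hγ]; omega) hsp hZg
  have hXQ : X ⊆ Q := (hXP.trans sdiff_subset).trans hPQ
  refine ⟨X, hXQ, hXc, far_conn h3 (by omega) (by omega) hXf (ne_of_cyc hXc) hXk, ?_,
    hXf.mono (by omega), fun A hA hAc => hZg A (hA.trans hXP) (by omega),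
    fun Y hY h1 h2 => (by omega : K ≤ D).trans (hXk Y hY h1 h2)⟩
  rw [← hβ] at hXd
  omega

end Pool.Agent.K5.Loc
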