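import Mathlib
import Pool.Agent.Work.MP_974d84_co_k5.GirRedLog
import Pool.Agent.Work.MP_974d84_co_k5.GirRedFlow
import Pool.Agent.Work.MP_974d84_co_k5.GirRedIff
import Pool.Agent.Work.MP_974d84_co_k5.KerReal
import Pool.Agent.Work.MP_974d84_co_k5.HandInEC

/-!
# Many short circuits or a contractible part: the form of the hand-in
-/

set_option linter.unusedSectionVars false

namespace Pool.Agent.K5.Loc

open Finset SimpleGraph Pool.Agent.Exp Pool.Agent.Log5 Pool.Agent.Log5.Clu Pool.Agent.K5 MP974d84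
open Pool.Agent.K5.Parts Pool.Agent.K5.Ker

/-- **The form of the hand-in, logarithmic form.** -/
theorem log_form (s : ℝ) (hs : 4 < s) : ∃ C : ℕ,
    ∀ (V : Type) [Fintype V] [DecidableEq V] (G : SimpleGraph V) [DecidableRel G.Adj],
    G.IsRegularOfDegree 3 → ∀ (Q : Finset V) (b t : ℕ), (G.interedges Q Qᶜ).card ≤ b →
    C * (t * (Nat.log 2 (t + b) + 1) + b) < Q.card →
    (∃ X : Fin t → Finset V, (∀ i j, i ≠ j → Disjoint (X i) (X j)) ∧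
      ∀ i, X i ⊆ Q ∧ ¬ (G.induce (X i : Set V)).IsAcyclic ∧
        (X i).card ≤ C * (Nat.log 2 (t + b) + 1)) ∨
    ∃ P ⊆ Q, ¬ (G.induce (P : Set V)).IsAcyclic ∧ (G.induce (P : Set V)).Connected ∧
    (G.interedges P Pᶜ).card ≤ C * (t * (Nat.log 2 (t + b) + 1) + b) ∧
    ∀ r : ℝ, s ≤ r →
    (∀ f₀ : V → V → ℝ, (∀ u v, f₀ u v = - f₀ v u) →
      (∀ u v, ¬ (G.Adj u v ∧ ¬ (u ∈ P ∧ v ∈ P)) → f₀ u v = 0) →
      (∀ u v, G.Adj u v → ¬ (u ∈ P ∧ v ∈ P) → 1 ≤ |f₀ u v| ∧ |f₀ u v| ≤ r - 1) →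
      (∀ v, v ∉ P → ∃ k : ℤ, ∑ u, f₀ v u = r * k) →
      ∃ f : V → V → ℝ, (∀ u v, f u v = - f v u) ∧ (∀ u v, ¬ G.Adj u v → f u v = 0) ∧
        (∀ u v, G.Adj u v → 1 ≤ |f u v| ∧ |f u v| ≤ r - 1) ∧
        (∀ v, ∃ k : ℤ, ∑ u, f v u = r * k) ∧
        (∀ u v, ¬ (u ∈ P ∧ v ∈ P) → f u v = f₀ u v) ∧
        ((∃ R : ℤ, r = R) → (∀ u v, ∃ m : ℤ, f₀ u v = m) → ∀ u v, ∃ m : ℤ, f u v = m)) ∧
    ((∃ f : V → V → ℝ, (∀ u v, f u v = - f v u) ∧ (∀ u v, ¬ G.Adj u v → f u v = 0) ∧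
        (∀ u v, G.Adj u v → 1 ≤ |f u v| ∧ |f u v| ≤ r - 1) ∧ ∀ v, ∑ u, f v u = 0) ↔
      ∃ f₀ : V → V → ℝ, (∀ u v, f₀ u v = - f₀ v u) ∧
        (∀ u v, ¬ (G.Adj u v ∧ ¬ (u ∈ P ∧ v ∈ P)) → f₀ u v = 0) ∧
        (∀ u v, G.Adj u v → ¬ (u ∈ P ∧ v ∈ P) → 1 ≤ |f₀ u v| ∧ |f₀ u v| ≤ r - 1) ∧
        ∀ v, v ∉ P → ∑ u, f₀ v u = 0) := by
  obtain ⟨K, hK⟩ := flow_ext hs
  obtain ⟨C, hC⟩ := exists_part_log K
  refine ⟨C, ?_⟩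
  intro V _ _ G _ h3 Q b t hQb hQC
  rcases hC G h3 Q b t _ (by rwa [← dd_interedges]) rfl hQC with
    hX | ⟨P, hPQ, hPc, hPk, hPb, hPf, hPg, hPe⟩
  · exact Or.inl hX
  refine Or.inr ⟨P, hPQ, hPc, hPk, by rwa [dd_interedges], fun r hr => ?_⟩
  have key := hK G h3 P hPf hPg hPe r hr
  exact ⟨key, circ_iff (by linarith) fun f₀ h1 h2 h4 h5 =>
    let ⟨f, f1, f2, f3, f4, _, _⟩ := key f₀ h1 h2 h4 h5
    ⟨f, f1, f2, f3, f4⟩⟩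

end Pool.Agent.K5.Loc
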