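import Mathlib
import Pool.Agent.Work.MP_974d84_co_k5.Words
import Pool.Agent.Work.MP_974d84_co_k5.PatternA
import Pool.Agent.Work.MP_974d84_co_k5.DefsE

/-!
# ROOM BG, E3: removing the windows near the marks
-/

set_option linter.unusedSectionVars false

namespace Pool.Agent.K5

open Finset SimpleGraph Pool.Agent.Exp Pool.Agent.Log5 Pool.Agent.Log5.Clu

namespace AW

open Wd PW

variable {V : Type} [Fintype V] [DecidableEq V] {G : SimpleGraph V} [DecidableRel G.Adj]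
  {μ : V → V} {π : Equiv.Perm V}

/-- Balls consist of the ends of short reduced words. -/
theorem exists_word (hf : Frame G μ π) {n : ℕ} {x y : V} (h : y ∈ Bl G.Adj n x) :
    ∃ w : List (Option Bool), Red w ∧ w.length ≤ n ∧ act μ π w x = y := by
  induction n generalizing y with
  | zero =>
    rw [mem_Bl_zero] at h
    exact ⟨[], List.isChain_nil, by simp, by rw [h]; rfl⟩
  | succ n ih =>
    rw [mem_Bl_succ] at h
    rcases h with h | ⟨u, hu, huy⟩
    · obtain ⟨w, h1, h2, h3⟩ := ih h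
      exact ⟨w, h1, by omega, h3⟩
    · obtain ⟨w, h1, h2, h3⟩ := ih hu
      obtain ⟨l, hl⟩ : ∃ l : Option Bool, ltr μ π l u = y := by
        rcases (hf.adj _ _).1 huy with h | h | h
        · exact ⟨none, h.symm⟩
        · exact ⟨some true, h.symm⟩
        · exact ⟨some false, h.symm⟩
      cases w with
      | nil =>
        refine ⟨[l], List.isChain_singleton _, by simp, ?_⟩
        rw [act_cons, h3, hl]
      | cons l' w' =>
        by_cases hll : l = linv l'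
        · refine ⟨w', List.IsChain.tail h1, by simp only [List.length_cons] at h2; omega, ?_⟩
          rw [act_cons] at h3
          rw [← hl, hll, ← h3, ltr_linv hf]
        · refine ⟨l :: l' :: w', ?_, by simp only [List.length_cons] at h2 ⊢; omega, ?_⟩
          · unfold Red at h1 ⊢
            rw [List.isChain_cons_cons]
            exact ⟨hll, h1⟩
          · rw [act_cons, h3, hl]

/-- Near vertices of an arc are near on the arc. -/
theorem arc_near (hf : Frame G μ π) {k : ℕ} (hg : Gir G k) {m n r : ℕ} {v : V} (hmn : m ≤ n)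
    (hk : n - m + r + 1 < k) (h : (π ^ n) v ∈ Bl G.Adj r ((π ^ m) v)) : n - m ≤ r := by
  obtain ⟨w, h1, h2, h3⟩ := exists_word hf h
  have h4 : act μ π (List.replicate (n - m) (some true)) ((π ^ m) v) = (π ^ n) v := by
    rw [act_rep_true, ← Equiv.Perm.mul_apply, ← pow_add, Nat.sub_add_cancel hmn]
  have h5 := act_uniq hf hg h1 (red_replicate (n - m) true) (by
    rw [List.length_replicate]; omega) (h3.trans h4.symm)
  rw [h5, List.length_replicate] at h2
  exact h2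

end AW

open Wd PW AW

/-- E3: removing the windows near the marks keeps the windows dense. -/
theorem win_away (c₀ R ρ : ℕ) : ∃ c : ℕ, c₀ ≤ c ∧ ∀ q, 1 ≤ q → ∃ D k : ℕ,
    ∀ {V : Type} [Fintype V] [DecidableEq V] (G : SimpleGraph V) [DecidableRel G.Adj] {μ : V → V}
    {π : Equiv.Perm V}, Frame G μ π → Gir G k → ∀ p : V → V → ℝ, Marks G p → FarM G D p →
    ∀ A : Finset V, Win G π R q (c₀ * q ^ 2) A →
      Win G π R q (c * q ^ 2) (awayM G π R q ρ p A) := by
  refine ⟨2 * c₀ + 2 * (R + ρ) + 5, by omega, fun q hq => ?_⟩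
  set B := c₀ * q ^ 2 with hB
  refine ⟨2 * B + 4 * q + 4 * (R + ρ) + 10, 2 * B + 6 * q + 8 * (R + ρ) + 20, ?_⟩
  intro V _ _ G _ μ π hf hg p hp hD A hA
  classical
  have hsub : awayM G π R q ρ p A ⊆ A := filter_subset _ _
  refine ⟨fun a ha a' ha' hne => hA.disj a (hsub ha) a' (hsub ha') hne, fun v => ?_⟩
  -- a bad start
  have hbad : ∀ a ∈ A, a ∉ awayM G π R q ρ p A → ∃ u w, p u w ≠ 0 ∧ ∃ j ≤ 2 * q,
      (π ^ j) a ∈ Bl G.Adj (R + ρ) u := by
    intro a ha hna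
    unfold awayM at hna
    rw [mem_filter] at hna
    push Not at hna
    obtain ⟨u, hu, hnd⟩ := hna ha
    unfold ends at hu
    rw [mem_filter] at hu
    obtain ⟨-, w, hw⟩ := hu
    rw [Finset.not_disjoint_iff] at hnd
    obtain ⟨z, hz1, hz2⟩ := hnd
    obtain ⟨j, hj, hz3⟩ := mem_zone.1 hz1
    refine ⟨u, w, hw, j, hj, ?_⟩
    have h1 := Bl_comp hz2 (Bl_symm (fun _ _ h => h.symm) hz3)
    rwa [Nat.add_comm] at h1
  -- the first start
  have hstart : ∀ m, ∃ n, m ≤ n ∧ n < m + B ∧ (π ^ n) v ∈ A := by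
    intro m
    obtain ⟨n, hn, h⟩ := hA.dense ((π ^ m) v)
    refine ⟨n + m, by omega, by omega, ?_⟩
    rwa [pow_add, Equiv.Perm.mul_apply]
  have hc : 2 * B + 2 * q + 2 * (R + ρ) + 3 ≤ (2 * c₀ + 2 * (R + ρ) + 5) * q ^ 2 := by
    have h1 : q ≤ q ^ 2 := by nlinarith
    have h2 : 1 ≤ q ^ 2 := Nat.one_le_pow _ _ hq
    have h3 : (2 * c₀ + 2 * (R + ρ) + 5) * q ^ 2 =
        2 * (c₀ * q ^ 2) + 2 * q ^ 2 + 2 * (R + ρ) * q ^ 2 + 3 * q ^ 2 := by ring
    have h4 : 2 * (R + ρ) ≤ 2 * (R + ρ) * q ^ 2 := Nat.le_mul_of_pos_right _ (by omega)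
    rw [h3, ← hB]
    omega
  obtain ⟨n₁, -, hn₁, hA₁⟩ := hstart 0
  by_cases hg₁ : (π ^ n₁) v ∈ awayM G π R q ρ p A
  · exact ⟨n₁, by omega, hg₁⟩
  obtain ⟨n₂, hn₂, hn₂', hA₂⟩ := hstart (n₁ + (2 * q + 2 * (R + ρ) + 2))
  refine ⟨n₂, by omega, ?_⟩
  by_contra hg₂
  obtain ⟨u, w, hw, j, hj, hb⟩ := hbad _ hA₁ hg₁
  obtain ⟨u', w', hw', j', hj', hb'⟩ := hbad _ hA₂ hg₂
  rw [← Equiv.Perm.mul_apply, ← pow_add] at hb hb'
  -- the same mark
  have hu : u' ∈ Bl G.Adj (2 * B + 4 * q + 4 * (R + ρ) + 10) u := by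
    have h1 : (π ^ (j' + n₂)) v ∈ Bl G.Adj ((j' + n₂) - (j + n₁)) ((π ^ (j + n₁)) v) := by
      have h2 : (π ^ (j' + n₂)) v = (π ^ ((j' + n₂) - (j + n₁))) ((π ^ (j + n₁)) v) := by
        rw [← Equiv.Perm.mul_apply, ← pow_add]
        congr 2
        omega
      rw [h2]
      exact pow_mem_Bl hf _ _
    have h3 := Bl_comp (Bl_comp hb h1) (Bl_symm (fun _ _ h => h.symm) hb')
    exact Bl_mono (by omega) _ h3
  have hu' : u' ∈ Bl G.Adj 1 u := by
    rcases hD u w u' w' hw hw' hu with h | h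
    · rw [h.1]; exact Bl_self _ _
    · rw [h.1]
      exact mem_Bl_succ.2 (Or.inr ⟨u, Bl_self _ _, hp.adj _ _ hw⟩)
  have h1 : (π ^ (j' + n₂)) v ∈ Bl G.Adj (2 * (R + ρ) + 1) ((π ^ (j + n₁)) v) := by
    have h2 := Bl_comp (Bl_comp (Bl_symm (fun _ _ h => h.symm) hb) hu') hb'
    exact Bl_mono (by omega) _ h2
  have h2 := arc_near hf hg (v := v) (m := j + n₁) (n := j' + n₂) (r := 2 * (R + ρ) + 1)
    (by omega) (by omega) h1
  omega

end Pool.Agent.K5
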