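import Mathlib
import Pool.Agent.Work.MP_974d84_co_k5.Contract
import Pool.Agent.Work.MP_974d84_co_k5.SupE

/-!
# E10: the final theorem of ROOM BG from the extension theorem and the bead lemma
-/

set_option linter.unusedSectionVars false

namespace Pool.Agent.K5.Con

open Finset SimpleGraph Pool.Agent.Exp Pool.Agent.Log5 Pool.Agent.Log5.Clu MP974d84

/-- The extension property with one constant. -/
theorem ExtProp.one_const {D K C : ℕ} (h : ExtProp D K) (hD : D ≤ C) (hK : K ≤ C) :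
    ExtProp C C := by
  intro V _ _ G _ h3 P hfar hgir hcut φ hφ
  exact h G h3 P (hfar.mono hD) (fun A hA hc => hgir A hA (by omega))
    (fun Y hY h1 h2 => hK.trans (hcut Y hY h1 h2)) φ hφ

/-- The reducibility property with the constants `g` and `C`: whenever the connected sets of at most
`C * (t + 1)` vertices of a connected cubic graph contain at most `t` independent circuits, the
graph has a proper connected reducible set which contains a circuit, all of whose circuits have at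
least `g` vertices, whose boundary is `g`-far, and all of whose cyclic cuts have at least `g`
edges. -/
def RedProp (g C : ℕ) : Prop :=
  ∀ {V : Type} [Fintype V] [DecidableEq V] (G : SimpleGraph V) [DecidableRel G.Adj],
    (∀ v, G.degree v = 3) → G.Connected → ∀ t : ℕ, 2 * t ≤ Fintype.card V →
    (∀ S : Finset V, S.card ≤ C * (t + 1) → (G.induce (S : Set V)).Connected →
      S.card + 2 ≤ dd G S + 2 * t) →
    ∃ P : Finset V, P ≠ univ ∧ 2 ≤ P.card ∧ (G.induce (P : Set V)).Connected ∧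
      ¬ (G.induce (P : Set V)).IsAcyclic ∧ FarB G g P ∧
      (∀ Q ⊆ P, Q.card < g → (G.induce (Q : Set V)).IsAcyclic) ∧
      (∀ Y ⊆ P, ¬ (G.induce (Y : Set V)).IsAcyclic →
        ¬ (G.induce ((P \ Y : Finset V) : Set V)).IsAcyclic → g ≤ ee G Y (P \ Y)) ∧
      (∀ φ : V → ZMod 5, BdryOK G P φ → ExtFlow G P φ) ∧
      (ContrFlow G P → HasNZFlow (ZMod 5) G)

/-- **ROOM BG.** (1) the extension theorem, (2) proper reducible sets. -/
theorem bg_main_of (hext : ∃ D K : ℕ, ExtProp D K) :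
    ∃ C : ℕ, ExtProp C C ∧ ∀ g : ℕ, ∃ C' : ℕ, RedProp g C' := by
  obtain ⟨D, K, hext⟩ := hext
  refine ⟨D + K, hext.one_const (by omega) (by omega), fun g => ?_⟩
  obtain ⟨C, hbead⟩ := exists_bead_t (D + g + 1) (K + g) (K + g)
  refine ⟨C, ?_⟩
  intro V _ _ G _ h3 hc t ht hS
  obtain ⟨P, hu, h2, hPc, hP, hgir, hfar, hcut⟩ := hbead G h3 hc t ht hS
  have hE := hext G h3 P (hfar.mono (by omega)) (fun A hA h => hgir A hA (by omega))
    fun Y hY h1 h2 => (by omega : K ≤ K + g).trans (hcut Y hY h1 h2)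
  exact ⟨P, hu, h2, hPc, hP, hfar.mono (by omega), fun Q hQ h => hgir Q hQ (by omega),
    fun Y hY h1 h2 => (by omega : g ≤ K + g).trans (hcut Y hY h1 h2), hE,
    fun hf => ext_glue (far_hb (by omega) hfar) hf hE⟩

/-- **ROOM BG**, from the main theorem `main_e`. -/
theorem bg_main (hmain : ∃ D k : ℕ, ∀ {V : Type} [Fintype V] [DecidableEq V]
      (G : SimpleGraph V) [DecidableRel G.Adj], (∀ v, G.degree v = 3) → CycConn G k → Gir G k →
      (∀ A : Finset V, A.Nonempty → Aᶜ.Nonempty → 2 ≤ dd G A) →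
      ∀ F : SimpleGraph V, F ≤ G → (∀ v, (F.neighborSet v).ncard = 2) →
      ∀ p : V → V → ℝ, Marks G p → FarM G D p → (∃ t : ℤ, ∑ u, ∑ v, p u v = 4 * t) →
      ∃ x : V → ℤ, (∀ v, x v = 1 ∨ x v = -1) ∧
        ∀ X : Finset V, |∑ v ∈ X, ((x v : ℝ) + (∑ u, p v u) / 2)| ≤
          3 / 5 * dd G X - (∑ v ∈ X, ∑ u ∈ Xᶜ, |p v u|) / 2) :
    ∃ C : ℕ, ExtProp C C ∧ ∀ g : ℕ, ∃ C' : ℕ, RedProp g C' :=
  bg_main_of (ext_e hmain)

/-- **Contraction-critical graphs.** -/
theorem bg_critical_of {g C : ℕ} (h : RedProp g C)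
    {V : Type} [Fintype V] [DecidableEq V] (G : SimpleGraph V) [DecidableRel G.Adj]
    (h3 : ∀ v, G.degree v = 3) (hc : G.Connected)
    (hcrit : ∀ P : Finset V, 2 ≤ P.card → P ≠ univ → (G.induce (P : Set V)).Connected →
      ContrFlow G P) (hno : ¬ HasNZFlow (ZMod 5) G) (t : ℕ) (ht : 2 * t ≤ Fintype.card V) :
    ∃ S : Finset V, S.card ≤ C * (t + 1) ∧ (G.induce (S : Set V)).Connected ∧
      dd G S + 2 * t < S.card + 2 := by
  by_contra hcon
  push Not at hcon
  obtain ⟨P, hu, h2, hPc, -, -, -, -, -, hflow⟩ := h G h3 hc t ht fun S h1 h2 => hcon S h1 h2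
  exact hno (hflow (hcrit P h2 hu hPc))

end Pool.Agent.K5.Con
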