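import Mathlib
import Pool.Agent.Work.MP_974d84_co_k5.CoreFactsA
import Pool.Agent.Work.MP_974d84_co_log.BigOf
import Pool.Agent.Work.MP_974d84_co_log.Girth

/-!
# Spreading the boundary of a vertex set

Given a vertex set `P` of a cubic graph of large girth whose old boundary edges are far apart inside
`P`, and with `n` further boundary edges, one may delete `2 L n` vertices such that all
boundary edges of the rest are far apart inside the rest.
-/

set_option linter.unusedSectionVars false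

namespace Pool.Agent.K5.BG

open Finset SimpleGraph Pool.Agent.Exp Pool.Agent.Log5 Pool.Agent.Log5.Clu Pool.Agent.K5
open Pool.Agent.Work.MP_314beb_co

variable {V : Type} [Fintype V] [DecidableEq V]

/-- Two different edges of `E` are not joined inside `P` by at most `L` vertices. -/
def Spread (G : SimpleGraph V) (L : ℕ) (P : Finset V) (E : Finset (V × V)) : Prop :=
  ∀ e ∈ E, ∀ f ∈ E, e ≠ f → ∀ A ⊆ P, Joined G A → e.1 ∈ A → f.1 ∈ A → L < A.card

variable {G : SimpleGraph V}

theorem joined_union_of_mem {A B : Finset V} (hA : Joined G A) (hB : Joined G B) {x : V}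
    (hx : x ∈ A) (hy : x ∈ B) : Joined G (A ∪ B) := by
  intro C hC hCn hCne
  by_cases h1 : (C ∩ A).Nonempty ∧ ¬ A ⊆ C
  · obtain ⟨u, hu, v, hv, hvu, huv⟩ := hA (C ∩ A) inter_subset_right h1.1
      (fun h => h1.2 (inter_eq_right.1 h))
    exact ⟨u, (mem_inter.1 hu).1, v, mem_union_left _ hv, fun h => hvu (mem_inter.2 ⟨h, hv⟩), huv⟩
  by_cases h2 : (C ∩ B).Nonempty ∧ ¬ B ⊆ C
  · obtain ⟨u, hu, v, hv, hvu, huv⟩ := hB (C ∩ B) inter_subset_right h2.1
      (fun h => h2.2 (inter_eq_right.1 h))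
    exact ⟨u, (mem_inter.1 hu).1, v, mem_union_right _ hv, fun h => hvu (mem_inter.2 ⟨h, hv⟩), huv⟩
  exfalso
  push Not at h1 h2
  obtain ⟨z, hz⟩ := hCn
  have hxC : x ∈ C := by
    rcases mem_union.1 (hC hz) with h | h
    · exact h1 ⟨z, mem_inter.2 ⟨hz, h⟩⟩ hx
    · exact h2 ⟨z, mem_inter.2 ⟨hz, h⟩⟩ hy
  exact hCne (Subset.antisymm hC (union_subset (h1 ⟨x, mem_inter.2 ⟨hxC, hx⟩⟩)
    (h2 ⟨x, mem_inter.2 ⟨hxC, hy⟩⟩)))

variable [DecidableRel G.Adj]

/-- A joined set has joined subsets of every size. -/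
theorem grow_joined {T : Finset V} (hT : Joined G T) {x : V} (hx : x ∈ T) :
    ∀ n, 1 ≤ n → n ≤ T.card → ∃ A ⊆ T, Joined G A ∧ x ∈ A ∧ A.card = n := by
  intro n hn
  induction n, hn using Nat.le_induction with
  | base =>
    intro _
    exact ⟨{x}, singleton_subset_iff.2 hx, joined_singleton x, mem_singleton_self x,
      card_singleton x⟩
  | succ n _ ih =>
    intro hn
    obtain ⟨A, hA, hJ, hxA, hc⟩ := ih (by omega)
    obtain ⟨u, hu, y, hy, hyA, huy⟩ := hT A hA ⟨x, hxA⟩ (by intro h; rw [h] at hc; omega)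
    refine ⟨A ∪ {y}, union_subset hA (singleton_subset_iff.2 hy),
      joined_union hJ (joined_singleton y) hu (mem_singleton_self y) huy, mem_union_left _ hxA, ?_⟩
    rw [card_union_of_disjoint (disjoint_singleton_right.2 hyA), hc, card_singleton]

/-- Two small joined sets are joined by at most one edge. -/
theorem ee_le_one (h3 : ∀ v, G.degree v = 3) {A T : Finset V}
    (hA : Joined G A) (hT : Joined G T) (hAn : A.Nonempty) (hTn : T.Nonempty)
    (hd : Disjoint A T) (hac : (G.induce ((A ∪ T : Finset V) : Set V)).IsAcyclic) :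
    ee G A T ≤ 1 := by
  have h1 := dd_union (G := G) hd
  rw [← ee_interedges] at h1
  have h2 := dd_le_of_joined h3 hA hAn
  have h4 := dd_le_of_joined h3 hT hTn
  have h5 := dd_of_acyclic G h3 (S := A ∪ T) (hAn.mono subset_union_left) hac
  have h6 := card_union_of_disjoint hd
  omega

/-- The removed pieces. -/
structure Fam (G : SimpleGraph V) [DecidableRel G.Adj] (L : ℕ) (P : Finset V)
    (F : Finset (Finset V)) : Prop where
  sub : ∀ T ∈ F, T ⊆ P
  ne : ∀ T ∈ F, T.Nonempty
  joined : ∀ T ∈ F, Joined G T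
  disj : ∀ T ∈ F, ∀ T' ∈ F, T ≠ T' → Disjoint T T'
  apart : ∀ T ∈ F, ∀ T' ∈ F, T ≠ T' → ∀ x ∈ T, ∀ y ∈ T', ¬ G.Adj x y
  small : ∀ T ∈ F, T.card + L ≤ L * ee G T Pᶜ

theorem ee_cut {P T : Finset V} (hT : T ⊆ P) :
    ee G T Pᶜ = ((cut G P).filter fun p => p.1 ∈ T).card := by
  unfold ee
  congr 1
  ext p
  simp only [mem_filter, mem_univ, true_and, mem_cut, mem_compl]
  constructor
  · rintro ⟨h1, h2, h3⟩
    exact ⟨⟨hT h1, h2, h3⟩, h1⟩
  · rintro ⟨⟨_, h2, h3⟩, h1⟩
    exact ⟨h1, h2, h3⟩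

/-- A removed piece has few vertices compared with its new boundary edges. -/
theorem piece_le {L : ℕ} (hL : 1 ≤ L) {P T : Finset V} {O : Finset (V × V)} (hO : O ⊆ cut G P)
    (hfar : Spread G (4 * L) P O) (hT : T ⊆ P) (hne : T.Nonempty) (hJ : Joined G T)
    (hs : T.card + L ≤ L * ee G T Pᶜ) :
    T.card ≤ 2 * L * ((cut G P \ O).filter fun p => p.1 ∈ T).card := by
  classical
  set i := (O.filter fun p => p.1 ∈ T).card with hi
  set j := ((cut G P \ O).filter fun p => p.1 ∈ T).card with hj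
  have hij : ee G T Pᶜ = i + j := by
    rw [ee_cut hT, hi, hj, ← card_union_of_disjoint]
    · congr 1
      ext p
      simp only [mem_filter, mem_union, mem_sdiff]
      constructor
      · rintro ⟨h1, h2⟩
        by_cases h : p ∈ O
        · exact Or.inl ⟨h, h2⟩
        · exact Or.inr ⟨⟨h1, h⟩, h2⟩
      · rintro (⟨h1, h2⟩ | ⟨⟨h1, _⟩, h2⟩)
        · exact ⟨hO h1, h2⟩
        · exact ⟨h1, h2⟩
    · rw [Finset.disjoint_left]
      intro p h1 h2
      exact (mem_sdiff.1 (mem_filter.1 h2).1).2 (mem_filter.1 h1).1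
  rw [hij] at hs
  have hpos := hne.card_pos
  by_cases h2 : 2 ≤ i
  · -- several old edges
    obtain ⟨e, he, f, hf, hef⟩ := one_lt_card.1 (show 1 < (O.filter fun p => p.1 ∈ T).card by omega)
    rw [mem_filter] at he hf
    have hbig := hfar e he.1 f hf.1 hef T hT hJ he.2 hf.2
    have hch : ∀ p : V × V, ∃ A : Finset V, p ∈ O.filter (fun p => p.1 ∈ T) →
        A ⊆ T ∧ Joined G A ∧ p.1 ∈ A ∧ A.card = 2 * L := by
      intro p
      by_cases hp : p ∈ O.filter (fun p => p.1 ∈ T)
      · obtain ⟨A, h1, h2, h3, h4⟩ := grow_joined hJ (mem_filter.1 hp).2 (2 * L) (by omega)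
          (by omega)
        exact ⟨A, fun _ => ⟨h1, h2, h3, h4⟩⟩
      · exact ⟨∅, fun h => absurd h hp⟩
    choose B hB using hch
    have hdis : ∀ p ∈ O.filter (fun p => p.1 ∈ T), ∀ q ∈ O.filter (fun p => p.1 ∈ T), p ≠ q →
        Disjoint (B p) (B q) := by
      intro p hp q hq hpq
      rw [Finset.disjoint_left]
      intro x h1 h2
      obtain ⟨a1, a2, a3, a4⟩ := hB p hp
      obtain ⟨b1, b2, b3, b4⟩ := hB q hq
      have h4 := hfar p (mem_filter.1 hp).1 q (mem_filter.1 hq).1 hpq (B p ∪ B q)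
        ((union_subset a1 b1).trans hT) (joined_union_of_mem a2 b2 h1 h2) (mem_union_left _ a3)
        (mem_union_right _ b3)
      have h5 := card_union_le (B p) (B q)
      omega
    have hsum : (O.filter fun p => p.1 ∈ T).card * (2 * L) ≤ T.card := by
      have h4 : ((O.filter fun p => p.1 ∈ T).biUnion B).card
          = (O.filter fun p => p.1 ∈ T).card * (2 * L) := by
        rw [card_biUnion hdis, sum_congr rfl fun p hp => (hB p hp).2.2.2, sum_const, smul_eq_mul]
      rw [← h4]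
      exact card_le_card (biUnion_subset.2 fun p hp => (hB p hp).1)
    rw [← hi] at hsum
    have h6 : i + 1 ≤ j := by
      by_contra h
      push Not at h
      have h7 : L * (i + j) ≤ L * (2 * i) := Nat.mul_le_mul_left _ (by omega)
      nlinarith
    have h8 : L * (i + j) ≤ L * (2 * j) := Nat.mul_le_mul_left _ (by omega)
    nlinarith
  · have h6 : i ≤ j := by
      by_contra h
      push Not at h
      have h7 : i + j ≤ 1 := by omega
      have h8 : L * (i + j) ≤ L * 1 := Nat.mul_le_mul_left _ h7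
      omega
    have h8 : L * (i + j) ≤ L * (2 * j) := Nat.mul_le_mul_left _ (by omega)
    nlinarith

theorem joined_fam {A : Finset V} (hA : Joined G A) (s : Finset (Finset V))
    (hs : ∀ T ∈ s, Joined G T ∧ ∃ x ∈ A, ∃ y ∈ T, G.Adj x y) : Joined G (A ∪ s.biUnion id) := by
  classical
  induction s using Finset.induction_on with
  | empty => simpa using hA
  | insert T s _ ih =>
    obtain ⟨hT, x, hx, y, hy, hxy⟩ := hs T (mem_insert_self _ _)
    have h1 := ih fun T' h => hs T' (mem_insert_of_mem h)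
    have h2 : A ∪ (insert T s).biUnion id = (A ∪ s.biUnion id) ∪ T := by
      rw [biUnion_insert, id]
      ext v
      simp only [mem_union]
      tauto
    rw [h2]
    exact joined_union h1 hT (mem_union_left _ hx) hy hxy

/-- All removed vertices. -/
theorem fam_total {L n : ℕ} (hL : 1 ≤ L) {P : Finset V} {O : Finset (V × V)} (hO : O ⊆ cut G P)
    (hfar : Spread G (4 * L) P O) (hn : (cut G P \ O).card ≤ n) {F : Finset (Finset V)}
    (hF : Fam G L P F) : (F.biUnion id).card ≤ 2 * L * n := by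
  classical
  have h1 : (F.biUnion id).card ≤ ∑ T ∈ F, T.card := card_biUnion_le
  have h2 : ∑ T ∈ F, T.card ≤ ∑ T ∈ F, 2 * L * ((cut G P \ O).filter fun p => p.1 ∈ T).card :=
    sum_le_sum fun T hT => piece_le hL hO hfar (hF.sub T hT) (hF.ne T hT) (hF.joined T hT)
      (hF.small T hT)
  have h4 : ∑ T ∈ F, ((cut G P \ O).filter fun p => p.1 ∈ T).card ≤ (cut G P \ O).card := by
    rw [← card_biUnion]
    · exact card_le_card (biUnion_subset.2 fun T _ => filter_subset _ _)
    · intro T hT T' hT' hne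
      rw [Function.onFun, Finset.disjoint_left]
      intro p h5 h6
      exact Finset.disjoint_left.1 (hF.disj T hT T' hT' hne) (mem_filter.1 h5).2 (mem_filter.1 h6).2
  rw [← mul_sum] at h2
  calc (F.biUnion id).card ≤ 2 * L * ∑ T ∈ F, ((cut G P \ O).filter fun p => p.1 ∈ T).card :=
        h1.trans h2
    _ ≤ 2 * L * n := Nat.mul_le_mul_left _ (h4.trans hn)

theorem fam_step (h3 : ∀ v, G.degree v = 3) {g L n : ℕ} (hL : 1 ≤ L)
    {P : Finset V} (hg : ∀ A ⊆ P, A.card < g → (G.induce (A : Set V)).IsAcyclic)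
    {O : Finset (V × V)} (hO : O ⊆ cut G P)
    (hfar : Spread G (4 * L) P O) (hn : (cut G P \ O).card ≤ n) (hgn : L + 2 * L * n < g)
    {F : Finset (Finset V)} (hF : Fam G L P F) {e f : V × V}
    (he : e ∈ cut G (P \ F.biUnion id)) (hf : f ∈ cut G (P \ F.biUnion id)) (hef : e ≠ f)
    {A : Finset V} (hA : A ⊆ P \ F.biUnion id) (hJ : Joined G A) (heA : e.1 ∈ A) (hfA : f.1 ∈ A)
    (hc : A.card ≤ L) : ∃ F' : Finset (Finset V), Fam G L P F' ∧
      (F.biUnion id).card < (F'.biUnion id).card := by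
  classical
  have htot := fam_total hL hO hfar hn hF
  have hAn : A.Nonempty := ⟨_, heA⟩
  have hAd : ∀ T ∈ F, Disjoint A T := by
    intro T hT
    rw [Finset.disjoint_left]
    intro x h1 h2
    exact (mem_sdiff.1 (hA h1)).2 (mem_biUnion.2 ⟨T, hT, h2⟩)
  set FA := F.filter fun T => ∃ x ∈ A, ∃ y ∈ T, G.Adj x y with hFA
  set U := A ∪ FA.biUnion id with hU
  have hFAs : FA ⊆ F := filter_subset _ _
  have hUJ : Joined G U := joined_fam hJ FA fun T hT =>
    ⟨hF.joined T (hFAs hT), (mem_filter.1 hT).2⟩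
  have hUP : U ⊆ P := union_subset (hA.trans sdiff_subset)
    (biUnion_subset.2 fun T hT => hF.sub T (hFAs hT))
  have hUd : ∀ T ∈ F, T ∉ FA → Disjoint T U := by
    intro T hT hTA
    rw [hU, disjoint_union_right, disjoint_biUnion_right]
    exact ⟨(hAd T hT).symm, fun T' hT' => hF.disj T hT T' (hFAs hT') (by rintro rfl; exact hTA hT')⟩
  have hUa : ∀ T ∈ F, T ∉ FA → ∀ x ∈ T, ∀ y ∈ U, ¬ G.Adj x y := by
    intro T hT hTA x hx y hy hxy
    rw [hU, mem_union] at hy
    rcases hy with hy | hy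
    · exact hTA (mem_filter.2 ⟨hT, y, hy, x, hx, hxy.symm⟩)
    · obtain ⟨T', hT', hy'⟩ := mem_biUnion.1 hy
      exact hF.apart T hT T' (hFAs hT') (by rintro rfl; exact hTA hT') x hx y hy' hxy
  -- at least two outlets
  have htwo : 2 ≤ ee G A Pᶜ + FA.card := by
    have hout : ∀ p ∈ cut G (P \ F.biUnion id), p.1 ∈ A → p.2 ∉ P ∨ ∃ T ∈ FA, p.2 ∈ T := by
      intro p hp hpA
      rw [mem_cut] at hp
      by_cases h1 : p.2 ∈ P
      · right
        have h2 : p.2 ∈ F.biUnion id := by
          by_contra h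
          exact hp.2.1 (mem_sdiff.2 ⟨h1, h⟩)
        obtain ⟨T, hT, hpT⟩ := mem_biUnion.1 h2
        exact ⟨T, mem_filter.2 ⟨hT, p.1, hpA, p.2, hpT, hp.2.2⟩, hpT⟩
      · exact Or.inl h1
    have hin : ∀ p ∈ cut G (P \ F.biUnion id), p.1 ∈ A → p.2 ∉ P →
        p ∈ (univ : Finset (V × V)).filter (fun p => p.1 ∈ A ∧ p.2 ∈ Pᶜ ∧ G.Adj p.1 p.2) := by
      intro p hp hpA hpP
      rw [mem_cut] at hp
      simp only [mem_filter, mem_univ, true_and, mem_compl]
      exact ⟨hpA, hpP, hp.2.2⟩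
    rcases hout e he heA with h1 | ⟨T, hT, h1⟩ <;> rcases hout f hf hfA with h2 | ⟨T', hT', h2⟩
    · have h4 : 1 < ee G A Pᶜ :=
        one_lt_card.2 ⟨e, hin e he heA h1, f, hin f hf hfA h2, hef⟩
      omega
    · have h4 : 0 < ee G A Pᶜ := card_pos.2 ⟨e, hin e he heA h1⟩
      have h5 : 0 < FA.card := card_pos.2 ⟨T', hT'⟩
      omega
    · have h4 : 0 < ee G A Pᶜ := card_pos.2 ⟨f, hin f hf hfA h2⟩
      have h5 : 0 < FA.card := card_pos.2 ⟨T, hT⟩
      omega
    · by_cases hTT : T = T'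
      · exfalso
        subst hTT
        have hTF := hFAs hT
        have h5 : (A ∪ T).card < g := by
          have h6 := card_union_le A T
          have h7 : T.card ≤ (F.biUnion id).card :=
            card_le_card (subset_biUnion_of_mem id hTF)
          omega
        have h6 := ee_le_one h3 hJ (hF.joined T hTF) hAn (hF.ne T hTF) (hAd T hTF)
          (hg _ (union_subset (hA.trans sdiff_subset) (hF.sub T hTF)) h5)
        have h7 : 1 < ee G A T := by
          refine one_lt_card.2 ⟨e, ?_, f, ?_, hef⟩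
          · rw [mem_cut] at he
            simp only [mem_filter, mem_univ, true_and]
            exact ⟨heA, h1, he.2.2⟩
          · rw [mem_cut] at hf
            simp only [mem_filter, mem_univ, true_and]
            exact ⟨hfA, h2, hf.2.2⟩
        omega
      · have h5 : 1 < FA.card := one_lt_card.2 ⟨T, hT, T', hT', hTT⟩
        omega
  have hUs : U.card + L ≤ L * ee G U Pᶜ := by
    have h1 : U.card ≤ A.card + ∑ T ∈ FA, T.card :=
      (card_union_le _ _).trans (Nat.add_le_add_left card_biUnion_le _)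
    have hdisA : Disjoint A (FA.biUnion id) := by
      rw [disjoint_biUnion_right]
      exact fun T hT => hAd T (hFAs hT)
    have h2 : ee G U Pᶜ = ee G A Pᶜ + ∑ T ∈ FA, ee G T Pᶜ := by
      rw [hU, ee_union_left hdisA, ee_biUnion_left]
      · rfl
      · exact fun T hT T' hT' hne => hF.disj T (hFAs hT) T' (hFAs hT') hne
    have h4 : ∑ T ∈ FA, (T.card + L) ≤ ∑ T ∈ FA, L * ee G T Pᶜ :=
      sum_le_sum fun T hT => hF.small T (hFAs hT)
    rw [sum_add_distrib, sum_const, smul_eq_mul, ← mul_sum] at h4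
    rw [h2, Nat.mul_add]
    have h5 : L * 2 ≤ L * (ee G A Pᶜ + FA.card) := Nat.mul_le_mul_left _ htwo
    rw [Nat.mul_add] at h5
    have h6 : FA.card * L = L * FA.card := Nat.mul_comm _ _
    omega
  refine ⟨insert U (F \ FA), ?_, ?_⟩
  · refine ⟨?_, ?_, ?_, ?_, ?_, ?_⟩
    · intro T hT
      rcases mem_insert.1 hT with rfl | hT
      · exact hUP
      · exact hF.sub T (mem_sdiff.1 hT).1
    · intro T hT
      rcases mem_insert.1 hT with rfl | hT
      · exact hAn.mono subset_union_left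
      · exact hF.ne T (mem_sdiff.1 hT).1
    · intro T hT
      rcases mem_insert.1 hT with rfl | hT
      · exact hUJ
      · exact hF.joined T (mem_sdiff.1 hT).1
    · intro T hT T' hT' hne
      rcases mem_insert.1 hT with rfl | hT <;> rcases mem_insert.1 hT' with rfl | hT'
      · exact absurd rfl hne
      · exact (hUd T' (mem_sdiff.1 hT').1 (mem_sdiff.1 hT').2).symm
      · exact hUd T (mem_sdiff.1 hT).1 (mem_sdiff.1 hT).2
      · exact hF.disj T (mem_sdiff.1 hT).1 T' (mem_sdiff.1 hT').1 hne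
    · intro T hT T' hT' hne x hx y hy hxy
      rcases mem_insert.1 hT with rfl | hT <;> rcases mem_insert.1 hT' with rfl | hT'
      · exact absurd rfl hne
      · exact hUa T' (mem_sdiff.1 hT').1 (mem_sdiff.1 hT').2 y hy x hx hxy.symm
      · exact hUa T (mem_sdiff.1 hT).1 (mem_sdiff.1 hT).2 x hx y hy hxy
      · exact hF.apart T (mem_sdiff.1 hT).1 T' (mem_sdiff.1 hT').1 hne x hx y hy hxy
    · intro T hT
      rcases mem_insert.1 hT with rfl | hT
      · exact hUs
      · exact hF.small T (mem_sdiff.1 hT).1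
  · refine card_lt_card ((ssubset_iff_of_subset ?_).2 ⟨e.1, ?_, ?_⟩)
    · intro x hx
      obtain ⟨T, hT, hxT⟩ := mem_biUnion.1 hx
      by_cases hTA : T ∈ FA
      · refine mem_biUnion.2 ⟨U, mem_insert_self _ _, ?_⟩
        exact mem_union_right _ (mem_biUnion.2 ⟨T, hTA, hxT⟩)
      · exact mem_biUnion.2 ⟨T, mem_insert_of_mem (mem_sdiff.2 ⟨hT, hTA⟩), hxT⟩
    · exact mem_biUnion.2 ⟨U, mem_insert_self _ _, mem_union_left _ heA⟩
    · exact (mem_sdiff.1 (hA heA)).2

/-- Spreading the boundary. -/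
theorem spread_ex (h3 : ∀ v, G.degree v = 3) {g L n : ℕ} (hL : 1 ≤ L)
    {P : Finset V} (hg : ∀ A ⊆ P, A.card < g → (G.induce (A : Set V)).IsAcyclic)
    {O : Finset (V × V)} (hO : O ⊆ cut G P)
    (hfar : Spread G (4 * L) P O) (hn : (cut G P \ O).card ≤ n) (hgn : L + 2 * L * n < g) :
    ∃ Z ⊆ P, Z.card ≤ 2 * L * n ∧ Spread G L (P \ Z) (cut G (P \ Z)) := by
  classical
  have h0 : Fam G L P ∅ := by
    refine ⟨?_, ?_, ?_, ?_, ?_, ?_⟩ <;> intro T hT <;> exact absurd hT (notMem_empty T)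
  obtain ⟨F, hF, hmax⟩ := exists_max_image
    ((univ : Finset (Finset (Finset V))).filter fun F => Fam G L P F)
    (fun F => (F.biUnion id).card) ⟨∅, mem_filter.2 ⟨mem_univ _, h0⟩⟩
  have hF' := (mem_filter.1 hF).2
  refine ⟨F.biUnion id, biUnion_subset.2 fun T hT => hF'.sub T hT,
    fam_total hL hO hfar hn hF', ?_⟩
  intro e he f hf hef A hA hJ heA hfA
  by_contra hc
  push Not at hc
  obtain ⟨F₁, h1, h2⟩ := fam_step h3 hL hg hO hfar hn hgn hF' he hf hef hA hJ heA hfA hc
  have := hmax F₁ (mem_filter.2 ⟨mem_univ _, h1⟩)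
  omega

end Pool.Agent.K5.BG
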