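import Mathlib
import Pool.Agent.Work.MP_974d84_co_k5.BeadA

/-!
# The bead lemma

A cubic graph of large girth which is not cyclically `K`-edge-connected has a bead: a vertex set
whose boundary edges are far apart inside it and all of whose cyclic cuts are large.
-/

set_option linter.unusedSectionVars false

namespace Pool.Agent.K5.BG

open Finset SimpleGraph Pool.Agent.Exp Pool.Agent.Log5 Pool.Agent.Log5.Clu Pool.Agent.K5
open Pool.Agent.Work.MP_314beb_co

variable {V : Type} [Fintype V] [DecidableEq V]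

/-- `X` induces a circuit. -/
def Cyc (G : SimpleGraph V) (X : Finset V) : Prop := ¬ (G.induce (X : Set V)).IsAcyclic

/-- A bead: its boundary edges are far apart inside it, and every cut of it with circuits on both
sides has at least `k` edges. -/
structure Bead (G : SimpleGraph V) [DecidableRel G.Adj] (L k : ℕ) (P : Finset V) : Prop where
  cyc : Cyc G P
  joined : Joined G P
  spread : Spread G L P (cut G P)
  cuts : ∀ Y ⊆ P, Cyc G Y → Cyc G (P \ Y) → k ≤ ee G Y (P \ Y)

variable {G : SimpleGraph V}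

theorem Cyc.mono {A B : Finset V} (h : A ⊆ B) (hA : Cyc G A) : Cyc G B := by
  intro hB
  apply hA
  have h1 : Function.Injective (Set.inclusion (coe_subset.2 h)) := Set.inclusion_injective _
  exact hB.comap (⟨Set.inclusion (coe_subset.2 h), fun {a b} hab => hab⟩ :
    (G.induce (A : Set V)) →g (G.induce (B : Set V))) h1

theorem Cyc.nonempty {A : Finset V} (hA : Cyc G A) : A.Nonempty := by
  rw [nonempty_iff_ne_empty]
  rintro rfl
  apply hA
  intro v
  exact absurd v.2 (by simp)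

variable [DecidableRel G.Adj]

theorem nn_sdiff (h3 : ∀ v, G.degree v = 3) {P₀ X Z : Finset V} (hX : X ⊆ P₀) (hZ : Z ⊆ X) :
    ee G (X \ Z) (P₀ \ (X \ Z)) ≤ ee G X (P₀ \ X) + 3 * Z.card := by
  have h1 : P₀ \ (X \ Z) = (P₀ \ X) ∪ Z := by
    ext v
    simp only [mem_sdiff, mem_union]
    constructor
    · rintro ⟨h1, h2⟩
      by_cases h3 : v ∈ X
      · right
        by_contra h4
        exact h2 ⟨h3, h4⟩
      · exact Or.inl ⟨h1, h3⟩
    · rintro (⟨h1, h2⟩ | h)
      · exact ⟨h1, fun h => h2 h.1⟩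
      · exact ⟨hX (hZ h), fun h' => h'.2 h⟩
  have h2 : Disjoint (P₀ \ X) Z := by
    rw [Finset.disjoint_left]
    exact fun v h1 h2 => (mem_sdiff.1 h1).2 (hZ h2)
  have h4 : ee G (X \ Z) (P₀ \ X) ≤ ee G X (P₀ \ X) := ee_mono sdiff_subset (Subset.refl _)
  have h5 : ee G (X \ Z) Z ≤ dd G Z := by
    rw [ee_comm, dd_ee]
    refine ee_mono (Subset.refl _) fun v hv => ?_
    rw [mem_compl]
    exact (mem_sdiff.1 hv).2
  have h6 := dd_sum h3 Z
  rw [h1, ee_union_right h2]
  omega

/-- The vertex set is partitioned into cyclic parts. -/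
structure Part (G : SimpleGraph V) (X : Finset V) (F : Finset (Finset V)) : Prop where
  sub : ∀ T ∈ F, T ⊆ X
  disj : ∀ T ∈ F, ∀ T' ∈ F, T ≠ T' → Disjoint T T'
  all : F.biUnion id = X
  cyc : ∀ T ∈ F, Cyc G T

theorem nn_eq {P₀ X T : Finset V} (hX : X ⊆ P₀) (hT : T ⊆ X) :
    ee G T (P₀ \ T) = ee G T (X \ T) + ee G T (P₀ \ X) := by
  rw [← ee_union_right]
  · congr 1
    ext v
    simp only [mem_sdiff, mem_union]
    constructor
    · rintro ⟨h1, h2⟩
      by_cases h3 : v ∈ X
      · exact Or.inl ⟨h3, h2⟩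
      · exact Or.inr ⟨h1, h3⟩
    · rintro (⟨h1, h2⟩ | ⟨h1, h2⟩)
      · exact ⟨hX h1, h2⟩
      · exact ⟨h1, fun h => h2 (hT h)⟩
  · rw [Finset.disjoint_left]
    exact fun v h1 h2 => (mem_sdiff.1 h2).2 (mem_sdiff.1 h1).1

theorem part_cross {P₀ X : Finset V} (hX : X ⊆ P₀) {F : Finset (Finset V)} (hF : Part G X F) :
    ∑ T ∈ F, ee G T (P₀ \ T) = ee G X (P₀ \ X) + ∑ T ∈ F, ee G T (X \ T) := by
  classical
  have h1 : ee G X (P₀ \ X) = ∑ T ∈ F, ee G T (P₀ \ X) := by
    have h0 := ee_biUnion_left (G := G) F id hF.disj (P₀ \ X)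
    rw [hF.all] at h0
    rw [h0]
    rfl
  rw [h1, ← sum_add_distrib]
  refine sum_congr rfl fun T hT => ?_
  rw [nn_eq hX (hF.sub T hT)]
  omega

theorem part_split {P₀ X : Finset V} (hX : X ⊆ P₀) {F : Finset (Finset V)} (hF : Part G X F)
    {P Y : Finset V}
    (hP : P ∈ F) (hY : Y ⊆ P) (h1 : Cyc G Y) (h2 : Cyc G (P \ Y)) :
    ∃ F' : Finset (Finset V), Part G X F' ∧ F'.card = F.card + 1 ∧
      ∑ T ∈ F', ee G T (P₀ \ T) = ∑ T ∈ F, ee G T (P₀ \ T) + 2 * ee G Y (P \ Y) := by
  classical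
  have hne : Y ≠ P \ Y := by
    intro h
    obtain ⟨x, hx⟩ := h1.nonempty
    have := hx
    rw [h] at this
    exact (mem_sdiff.1 this).2 hx
  have hYn := h1.nonempty
  have hYn' := h2.nonempty
  have hdY : ∀ T ∈ F.erase P, Disjoint T Y := fun T hT =>
    (hF.disj T (mem_of_mem_erase hT) P hP (ne_of_mem_erase hT)).mono_right hY
  have hdY' : ∀ T ∈ F.erase P, Disjoint T (P \ Y) := fun T hT =>
    (hF.disj T (mem_of_mem_erase hT) P hP (ne_of_mem_erase hT)).mono_right sdiff_subset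
  have hn1 : P \ Y ∉ F.erase P := by
    intro h
    have := hdY' _ h
    rw [disjoint_self_iff_empty] at this
    exact hYn'.ne_empty this
  have hn2 : Y ∉ insert (P \ Y) (F.erase P) := by
    intro h
    rcases mem_insert.1 h with h | h
    · exact hne h
    · have := hdY _ h
      rw [disjoint_self_iff_empty] at this
      exact hYn.ne_empty this
  refine ⟨insert Y (insert (P \ Y) (F.erase P)), ⟨?_, ?_, ?_, ?_⟩, ?_, ?_⟩
  · intro T hT
    rcases mem_insert.1 hT with rfl | hT
    · exact hY.trans (hF.sub P hP)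
    rcases mem_insert.1 hT with rfl | hT
    · exact sdiff_subset.trans (hF.sub P hP)
    · exact hF.sub T (mem_of_mem_erase hT)
  · intro T hT T' hT' hTT
    rw [mem_insert, mem_insert] at hT hT'
    rcases hT with rfl | rfl | hT <;> rcases hT' with rfl | rfl | hT'
    · exact absurd rfl hTT
    · exact disjoint_sdiff
    · exact (hdY T' hT').symm
    · exact disjoint_sdiff.symm
    · exact absurd rfl hTT
    · exact (hdY' T' hT').symm
    · exact hdY T hT
    · exact hdY' T hT
    · exact hF.disj T (mem_of_mem_erase hT) T' (mem_of_mem_erase hT') hTT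
  · rw [biUnion_insert, biUnion_insert, ← union_assoc]
    simp only [id]
    rw [union_sdiff_of_subset hY]
    rw [← hF.all]
    conv_rhs => rw [← insert_erase hP]
    rw [biUnion_insert]
    rfl
  · intro T hT
    rcases mem_insert.1 hT with rfl | hT
    · exact h1
    rcases mem_insert.1 hT with rfl | hT
    · exact h2
    · exact hF.cyc T (mem_of_mem_erase hT)
  · rw [card_insert_of_notMem hn2, card_insert_of_notMem hn1, card_erase_of_mem hP]
    have := card_pos.2 ⟨P, hP⟩
    omega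
  · rw [sum_insert hn2, sum_insert hn1]
    have h5 : ∑ T ∈ F, ee G T (P₀ \ T)
        = ee G P (P₀ \ P) + ∑ T ∈ F.erase P, ee G T (P₀ \ T) :=
      (add_sum_erase F (fun T => ee G T (P₀ \ T)) hP).symm
    have hPP := (hF.sub P hP).trans hX
    have h6 := nn_eq (G := G) hPP hY
    have h7 := nn_eq (G := G) hPP (T := P \ Y) sdiff_subset
    have h8 : P \ (P \ Y) = Y := by
      rw [sdiff_sdiff_right_self, inf_eq_inter, inter_eq_right.2 hY]
    have h9 : ee G P (P₀ \ P) = ee G Y (P₀ \ P) + ee G (P \ Y) (P₀ \ P) := by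
      rw [← ee_union_left disjoint_sdiff, union_sdiff_of_subset hY]
    rw [h8, ee_comm (P \ Y) Y] at h7
    omega

/-- A part all of whose cyclic cuts are large compared with its new boundary. -/
theorem exists_part {P₀ X : Finset V} (hXP : X ⊆ P₀) (hX : Cyc G X) (t : ℕ → ℕ) {M : ℕ}
    (hM : 1 ≤ M)
    (hno : ∀ F : Finset (Finset V), Part G X F → F.card = M →
      ee G X (P₀ \ X) + 2 * t M < ∑ T ∈ F, ee G T (P₀ \ T)) :
    ∃ m, 1 ≤ m ∧ m < M ∧ ∃ P ⊆ X, Cyc G P ∧ ee G P (X \ P) ≤ 2 * t m ∧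
      ∀ Y ⊆ P, Cyc G Y → Cyc G (P \ Y) → t (m + 1) < t m + ee G Y (P \ Y) := by
  classical
  let Q : ℕ → Prop := fun m => ∃ F : Finset (Finset V), Part G X F ∧ F.card = m ∧
    ∑ T ∈ F, ee G T (P₀ \ T) ≤ ee G X (P₀ \ X) + 2 * t m
  have hQ1 : Q 1 := by
    refine ⟨{X}, ⟨?_, ?_, ?_, ?_⟩, card_singleton X, ?_⟩
    · intro T hT
      rw [mem_singleton.1 hT]
    · intro T hT T' hT' hne
      rw [mem_singleton.1 hT, mem_singleton.1 hT'] at hne
      exact absurd rfl hne
    · simp
    · intro T hT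
      rw [mem_singleton.1 hT]
      exact hX
    · rw [sum_singleton]
      omega
  have hQM : ¬ Q M := by
    rintro ⟨F, h1, h2, h4⟩
    have := hno F h1 h2
    omega
  obtain ⟨m, hm1, hmM, hQm, hQm'⟩ : ∃ m, 1 ≤ m ∧ m < M ∧ Q m ∧ ¬ Q (m + 1) := by
    by_contra hcon
    push Not at hcon
    have : ∀ m, 1 ≤ m → m ≤ M → Q m := by
      intro m hm
      induction m, hm using Nat.le_induction with
      | base => exact fun _ => hQ1
      | succ m hm ih => exact fun h => hcon m hm (by omega) (ih (by omega))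
    exact hQM (this M hM le_rfl)
  obtain ⟨F, hF, hFc, hFs⟩ := hQm
  obtain ⟨P, hP⟩ := card_pos.1 (show 0 < F.card by omega)
  have hcr := part_cross hXP hF
  have h5 : ee G P (X \ P) ≤ ∑ T ∈ F, ee G T (X \ T) :=
    single_le_sum (f := fun T => ee G T (X \ T)) (fun _ _ => Nat.zero_le _) hP
  refine ⟨m, hm1, hmM, P, hF.sub P hP, hF.cyc P hP, by omega, ?_⟩
  intro Y hY hY1 hY2
  by_contra hcon
  push Not at hcon
  obtain ⟨F', h7, h8, h9⟩ := part_split hXP hF hP hY hY1 hY2
  exact hQm' ⟨F', h7, by omega, by omega⟩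

/-- An acyclic part without edges to the rest is impossible. -/
theorem cyc_of_spread (h3 : ∀ v, G.degree v = 3) {L : ℕ} (hL : 1 ≤ L) {P : Finset V}
    (hs : Spread G L P (cut G P)) : ∀ B ⊆ P, B.Nonempty →
    (∀ x ∈ B, ∀ y ∈ P, y ∉ B → ¬ G.Adj x y) → Cyc G B := by
  classical
  intro B hB hBn hno hac
  have h1 := dd_of_acyclic G h3 hBn hac
  have h2 : ∃ e ∈ cut G B, ∃ f ∈ cut G B, e ≠ f ∧ e.1 = f.1 := by
    refine exists_ne_map_eq_of_card_lt_of_maps_to (t := B) (f := Prod.fst) ?_ ?_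
    · unfold dd at h1
      omega
    · intro e he
      exact ((mem_cut G).1 he).1
  obtain ⟨e, he, f, hf, hef, h12⟩ := h2
  have hsub : ∀ p ∈ cut G B, p ∈ cut G P := by
    intro p hp
    rw [mem_cut] at hp ⊢
    exact ⟨hB hp.1, fun h => hno _ hp.1 _ h hp.2.1 hp.2.2, hp.2.2⟩
  have h4 := hs e (hsub e he) f (hsub f hf) hef {e.1}
    (singleton_subset_iff.2 (hB ((mem_cut G).1 he).1)) (joined_singleton e.1)
    (mem_singleton_self _) (mem_singleton.2 h12.symm)
  rw [card_singleton] at h4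
  omega

/-- A spread set with large cyclic cuts is joined. -/
theorem joined_of_spread (h3 : ∀ v, G.degree v = 3) {L : ℕ} (hL : 1 ≤ L) {P : Finset V}
    (hs : Spread G L P (cut G P))
    (hc : ∀ Y ⊆ P, Cyc G Y → Cyc G (P \ Y) → 1 ≤ ee G Y (P \ Y)) : Joined G P := by
  classical
  have key := cyc_of_spread h3 hL hs
  intro A hA hAn hAne
  by_contra hcon
  push Not at hcon
  have h1 : Cyc G A := key A hA hAn fun x hx y hy hyA h => hcon x hx y hy hyA h
  have h2 : Cyc G (P \ A) := by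
    refine key (P \ A) sdiff_subset ?_ ?_
    · rw [sdiff_nonempty]
      exact fun h => hAne (Subset.antisymm hA h)
    · intro x hx y hy hyA h
      have hyA' : y ∈ A := by
        by_contra h5
        exact hyA (mem_sdiff.2 ⟨hy, h5⟩)
      exact hcon y hyA' x (mem_sdiff.1 hx).1 (mem_sdiff.1 hx).2 h.symm
  have h4 := hc A hA h1 h2
  obtain ⟨p, hp⟩ := card_pos.1 (show 0 < ee G A (P \ A) by omega)
  simp only [mem_filter, mem_univ, true_and] at hp
  exact hcon p.1 hp.1 p.2 (mem_sdiff.1 hp.2.1).1 (mem_sdiff.1 hp.2.1).2 hp.2.2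

end Pool.Agent.K5.BG
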