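import Mathlib
import Pool.Agent.Work.MP_974d84_co_k5.BeadB

/-!
# The bead lemma, local form

Every vertex set with a circuit, of large girth and with far apart boundary edges contains a bead.
-/

set_option linter.unusedSectionVars false

namespace Pool.Agent.K5.BG

open Finset SimpleGraph Pool.Agent.Exp Pool.Agent.Log5 Pool.Agent.Log5.Clu Pool.Agent.K5
open Pool.Agent.Work.MP_314beb_co

variable {V : Type} [Fintype V] [DecidableEq V] {G : SimpleGraph V}

theorem Spread.mono {L L' : ℕ} (hL : L' ≤ L) {P Q : Finset V} (hQ : Q ⊆ P)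
    {E E' : Finset (V × V)} (hE : E' ⊆ E) (h : Spread G L P E) : Spread G L' Q E' :=
  fun e he f hf hef A hA hJ h1 h2 =>
    lt_of_le_of_lt hL (h e (hE he) f (hE hf) hef A (hA.trans hQ) hJ h1 h2)

theorem large_of_cyc {N : ℕ} {P₀ X : Finset V}
    (hg : ∀ A ⊆ P₀, A.card < N → (G.induce (A : Set V)).IsAcyclic) (hX : X ⊆ P₀) (hc : Cyc G X) :
    N ≤ X.card := by
  by_contra h
  push Not at h
  exact hc (hg X hX h)

/-- The thresholds. -/
def thr (k B m : ℕ) : ℕ := if m ≤ 1 then 0 else k * B ^ m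

theorem thr_step {k B m : ℕ} (hB : 2 ≤ B) (hm : 1 ≤ m) :
    (B - 1) * thr k B m + k ≤ thr k B (m + 1) := by
  unfold thr
  rw [if_neg (by omega : ¬ m + 1 ≤ 1)]
  have h1 : 1 ≤ B ^ m := Nat.one_le_pow _ _ (by omega)
  by_cases h : m ≤ 1
  · rw [if_pos h, Nat.mul_zero, Nat.zero_add]
    exact Nat.le_mul_of_pos_right _ (Nat.pow_pos (by omega))
  · rw [if_neg h, pow_succ]
    obtain ⟨b, rfl⟩ : ∃ b, B = b + 1 := ⟨B - 1, by omega⟩
    rw [Nat.add_sub_cancel]
    have h2 : k * 1 ≤ k * (b + 1) ^ m := Nat.mul_le_mul_left _ h1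
    calc b * (k * (b + 1) ^ m) + k ≤ b * (k * (b + 1) ^ m) + k * (b + 1) ^ m := by omega
      _ = k * ((b + 1) ^ m * (b + 1)) := by ring

theorem thr_mono {k B m M : ℕ} (hB : 2 ≤ B) (hM : 2 ≤ M) (h : m ≤ M) : thr k B m ≤ thr k B M := by
  unfold thr
  rw [if_neg (by omega : ¬ M ≤ 1)]
  split_ifs
  · exact Nat.zero_le _
  · exact Nat.mul_le_mul_left _ (Nat.pow_le_pow_right (by omega) h)

variable [DecidableRel G.Adj]

/-- **The bead lemma**, local form. -/
theorem bead_in (h3 : ∀ v, G.degree v = 3) {L k M B K N : ℕ} (hL : 1 ≤ L) (hk : 1 ≤ k)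
    (hB : B = 12 * L + 2) (hM : M = 24 * L + 3) (hK : K = 2 * (k * B ^ M))
    (hN : 20 * L * (K + 1) ≤ N) {P₀ : Finset V} (hP₀ : Cyc G P₀)
    (hg : ∀ A ⊆ P₀, A.card < N → (G.induce (A : Set V)).IsAcyclic)
    (hs : Spread G N P₀ (cut G P₀)) :
    ∃ P ⊆ P₀, Bead G L k P := by
  classical
  have hB2 : 2 ≤ B := by omega
  have hKpos : 0 < K := by
    rw [hK]
    have : 0 < k * B ^ M := Nat.mul_pos hk (Nat.pow_pos (by omega))
    omega
  have htM : 2 * thr k B M = K := by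
    unfold thr
    rw [if_neg (by omega : ¬ M ≤ 1), hK]
  have hN' : 20 * (L * K) + 20 * L ≤ N := by
    calc 20 * (L * K) + 20 * L = 20 * L * (K + 1) := by ring
      _ ≤ N := hN
  have hLK : L * K ≥ K := Nat.le_mul_of_pos_left _ hL
  -- a smallest set with few edges to the rest of `P₀`
  obtain ⟨X, hX, hmin⟩ := exists_min_image
    ((univ : Finset (Finset V)).filter fun X => X ⊆ P₀ ∧ Cyc G X ∧ ee G X (P₀ \ X) ≤ K)
    (fun X => X.card) ⟨P₀, by
      rw [mem_filter]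
      refine ⟨mem_univ _, Subset.refl _, hP₀, ?_⟩
      have : ee G P₀ (P₀ \ P₀) = 0 := by
        unfold ee
        rw [card_eq_zero, filter_eq_empty_iff]
        rintro p - h
        exact absurd h.2.1 (by simp)
      omega⟩
  rw [mem_filter] at hX
  obtain ⟨-, hXP, hXc, hXK⟩ := hX
  have hXmin : ∀ T ⊆ X, T ≠ X → Cyc G T → K < ee G T (P₀ \ T) := by
    intro T hT hne hc
    by_contra h
    push Not at h
    have h1 := hmin T (mem_filter.2 ⟨mem_univ _, hT.trans hXP, hc, h⟩)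
    have h2 := card_lt_card (hT.ssubset_of_ne hne)
    omega
  -- spread its boundary
  set O₁ : Finset (V × V) := (cut G X).filter fun p => p.2 ∉ P₀ with hO₁
  have hO₁s : O₁ ⊆ cut G X := filter_subset _ _
  have hO₁P : O₁ ⊆ cut G P₀ := by
    intro p hp
    rw [hO₁, mem_filter, mem_cut] at hp
    rw [mem_cut]
    exact ⟨hXP hp.1.1, hp.2, hp.1.2.2⟩
  have hfar₁ : Spread G (4 * (4 * L)) X O₁ := hs.mono (by omega) hXP hO₁P
  have hn₁ : (cut G X \ O₁).card ≤ K := by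
    refine (card_le_card ?_).trans hXK
    intro p hp
    rw [mem_sdiff, hO₁, mem_filter] at hp
    have h1 := (mem_cut G).1 hp.1
    simp only [mem_filter, mem_univ, true_and]
    refine ⟨h1.1, mem_sdiff.2 ⟨?_, h1.2.1⟩, h1.2.2⟩
    by_contra h
    exact hp.2 ⟨hp.1, h⟩
  obtain ⟨Z₁, hZ₁, hZ₁c, hsp₁⟩ := spread_ex h3 (L := 4 * L) (n := K) (g := N) (by omega)
    (fun A hA h => hg A (hA.trans hXP) h) hO₁s hfar₁ hn₁ (by
      have : 2 * (4 * L) * K = 8 * (L * K) := by ring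
      omega)
  have hZ₁c' : Z₁.card ≤ 8 * (L * K) := by
    have : 2 * (4 * L) * K = 8 * (L * K) := by ring
    omega
  set X₁ := X \ Z₁ with hX₁
  have hX₁P : X₁ ⊆ P₀ := sdiff_subset.trans hXP
  have hX₁n : X₁.Nonempty := by
    rw [hX₁, sdiff_nonempty]
    intro h
    have h1 := card_le_card h
    have h2 := large_of_cyc hg hXP hXc
    omega
  have hX₁c : Cyc G X₁ :=
    cyc_of_spread h3 (by omega) hsp₁ X₁ (Subset.refl _) hX₁n fun _ _ y hy hy' => absurd hy hy'
  have hnX₁ : ee G X₁ (P₀ \ X₁) ≤ K + 24 * (L * K) := by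
    have := nn_sdiff h3 hXP hZ₁
    rw [← hX₁] at this
    omega
  -- a part with large cyclic cuts
  obtain ⟨m, hm1, hmM, P₁, hP₁, hP₁c, hP₁n, hP₁Y⟩ := exists_part hX₁P hX₁c (thr k B) (M := M)
    (by omega) (by
      intro F hF hFc
      have h1 : ∀ T ∈ F, K + 1 ≤ ee G T (P₀ \ T) := by
        intro T hT
        refine hXmin T ((hF.sub T hT).trans sdiff_subset) ?_ (hF.cyc T hT)
        obtain ⟨T', hT', hTT⟩ := exists_mem_ne (show 1 < F.card by omega) T
        obtain ⟨x, hx⟩ := (hF.cyc T' hT').nonempty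
        intro h
        have h4 : x ∈ T := by
          rw [h]
          exact sdiff_subset (hF.sub T' hT' hx)
        exact Finset.disjoint_left.1 (hF.disj T' hT' T hT hTT) hx h4
      have h2 := card_nsmul_le_sum F (fun T => ee G T (P₀ \ T)) (K + 1) h1
      rw [hFc, smul_eq_mul, hM] at h2
      have h4 : (24 * L + 3) * (K + 1) = 24 * (L * K) + 3 * K + 24 * L + 3 := by ring
      omega)
  have htm : thr k B m ≤ thr k B M := thr_mono hB2 (by omega) hmM.le
  -- spread once more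
  set O₂ : Finset (V × V) := (cut G P₁).filter fun p => p.2 ∉ X₁ with hO₂
  have hO₂s : O₂ ⊆ cut G P₁ := filter_subset _ _
  have hO₂P : O₂ ⊆ cut G X₁ := by
    intro p hp
    rw [hO₂, mem_filter, mem_cut] at hp
    rw [mem_cut]
    exact ⟨hP₁ hp.1.1, hp.2, hp.1.2.2⟩
  have hfar₂ : Spread G (4 * L) P₁ O₂ := hsp₁.mono le_rfl hP₁ hO₂P
  have hn₂ : (cut G P₁ \ O₂).card ≤ 2 * thr k B m := by
    refine (card_le_card ?_).trans hP₁n
    intro p hp
    rw [mem_sdiff, hO₂, mem_filter] at hp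
    have h1 := (mem_cut G).1 hp.1
    simp only [mem_filter, mem_univ, true_and]
    refine ⟨h1.1, mem_sdiff.2 ⟨?_, h1.2.1⟩, h1.2.2⟩
    by_contra h
    exact hp.2 ⟨hp.1, h⟩
  have hLt : 2 * L * (2 * thr k B m) ≤ 2 * (L * K) := by
    calc 2 * L * (2 * thr k B m) ≤ 2 * L * (2 * thr k B M) :=
          Nat.mul_le_mul_left _ (by omega)
      _ = 2 * (L * K) := by rw [htM]; ring
  obtain ⟨Z₂, hZ₂, hZ₂c, hsp₂⟩ := spread_ex h3 (L := L) (n := 2 * thr k B m) (g := N) hL
    (fun A hA h => hg A (hA.trans (hP₁.trans hX₁P)) h) hO₂s hfar₂ hn₂ (by omega)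
  have hP₁P := hP₁.trans hX₁P
  have hne : (P₁ \ Z₂).Nonempty := by
    rw [sdiff_nonempty]
    intro h
    have h1 := card_le_card h
    have h2 := large_of_cyc hg hP₁P hP₁c
    omega
  have hcuts : ∀ Y ⊆ P₁ \ Z₂, Cyc G Y → Cyc G ((P₁ \ Z₂) \ Y) → k ≤ ee G Y ((P₁ \ Z₂) \ Y) := by
    intro Y hY h1 h2
    have hYP : Y ⊆ P₁ := hY.trans sdiff_subset
    have h4 := hP₁Y Y hYP h1 (h2.mono (sdiff_subset_sdiff sdiff_subset (Subset.refl _)))
    have h5 : P₁ \ Y = ((P₁ \ Z₂) \ Y) ∪ Z₂ := by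
      ext v
      simp only [mem_sdiff, mem_union]
      constructor
      · rintro ⟨h1, h2⟩
        by_cases h3 : v ∈ Z₂
        · exact Or.inr h3
        · exact Or.inl ⟨⟨h1, h3⟩, h2⟩
      · rintro (⟨⟨h1, _⟩, h2⟩ | h)
        · exact ⟨h1, h2⟩
        · exact ⟨hZ₂ h, fun h' => (mem_sdiff.1 (hY h')).2 h⟩
    have h6 : Disjoint ((P₁ \ Z₂) \ Y) Z₂ := by
      rw [Finset.disjoint_left]
      exact fun v h1 h2 => (mem_sdiff.1 (mem_sdiff.1 h1).1).2 h2
    have h7 : ee G Y Z₂ ≤ 3 * Z₂.card := by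
      have h8 : ee G Y Z₂ ≤ dd G Z₂ := by
        rw [ee_comm, dd_ee]
        refine ee_mono (Subset.refl _) fun v hv => ?_
        rw [mem_compl]
        exact (mem_sdiff.1 (hY hv)).2
      have := dd_sum h3 Z₂
      omega
    rw [h5, ee_union_right h6] at h4
    have h9 := thr_step (k := k) hB2 hm1
    have h10 : (B - 1) * thr k B m = 12 * (L * thr k B m) + thr k B m := by
      have : B - 1 = 12 * L + 1 := by omega
      rw [this]
      ring
    have h11 : 3 * (2 * L * (2 * thr k B m)) = 12 * (L * thr k B m) := by ring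
    omega
  refine ⟨P₁ \ Z₂, sdiff_subset.trans hP₁P, ?_, ?_, hsp₂, hcuts⟩
  · exact cyc_of_spread h3 hL hsp₂ _ (Subset.refl _) hne fun _ _ y hy hy' => absurd hy hy'
  · exact joined_of_spread h3 hL hsp₂ fun Y hY h1 h2 => hk.trans (hcuts Y hY h1 h2)

/-- **The bead lemma**: for all `L` and `k` there is `N` such that every vertex set of a cubic graph
which contains a circuit, has girth at least `N` and boundary edges which are at least `N` apart
contains a bead. -/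
theorem bead_star (L k : ℕ) (hL : 1 ≤ L) : ∃ N : ℕ, ∀ {V : Type} [Fintype V] [DecidableEq V]
    (G : SimpleGraph V) [DecidableRel G.Adj], (∀ v, G.degree v = 3) → ∀ P₀ : Finset V, Cyc G P₀ →
    (∀ A ⊆ P₀, A.card < N → (G.induce (A : Set V)).IsAcyclic) → Spread G N P₀ (cut G P₀) →
    ∃ P ⊆ P₀, Bead G L k P := by
  refine ⟨20 * L * (2 * ((k + 1) * (12 * L + 2) ^ (24 * L + 3)) + 1),
    fun {V} _ _ G _ h3 P₀ h1 h2 h4 => ?_⟩
  obtain ⟨P, hP, hb⟩ := bead_in h3 (k := k + 1) hL (by omega) rfl rfl rfl le_rfl h1 h2 h4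
  exact ⟨P, hP, hb.cyc, hb.joined, hb.spread, fun Y hY a b => by
    have := hb.cuts Y hY a b
    omega⟩

end Pool.Agent.K5.BG
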