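import Mathlib
import Pool.Agent.Work.MP_974d84_co_k5.BeadC
import Pool.Agent.Work.MP_974d84_co_k5.DefsE

/-!
# Beads in the form of the extension theorem
-/

set_option linter.unusedSectionVars false

namespace Pool.Agent.K5.BG

open Finset SimpleGraph Pool.Agent.Exp Pool.Agent.Log5 Pool.Agent.Log5.Clu Pool.Agent.K5
open Pool.Agent.Work.MP_314beb_co

variable {V : Type} [Fintype V] [DecidableEq V] {G : SimpleGraph V} [DecidableRel G.Adj]

/-- A vertex at distance `n` inside `P` is reached by a joined set of at most `n + 1` vertices. -/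
theorem joined_of_mem_Bl {P : Finset V} {v : V} (hv : v ∈ P) :
    ∀ n w, w ∈ Bl (inn G P).Adj n v → ∃ A ⊆ P, Joined G A ∧ v ∈ A ∧ w ∈ A ∧ A.card ≤ n + 1 := by
  intro n
  induction n with
  | zero =>
    intro w hw
    rw [mem_Bl_zero] at hw
    subst hw
    exact ⟨{w}, singleton_subset_iff.2 hv, joined_singleton w, mem_singleton_self w,
      mem_singleton_self w, by rw [card_singleton]⟩
  | succ n ih =>
    intro w hw
    rw [mem_Bl_succ] at hw
    rcases hw with hw | ⟨u, hu, huw⟩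
    · obtain ⟨A, h1, h2, h4, h5, h6⟩ := ih w hw
      exact ⟨A, h1, h2, h4, h5, by omega⟩
    · obtain ⟨A, h1, h2, h4, h5, h6⟩ := ih u hu
      refine ⟨A ∪ {w}, union_subset h1 (singleton_subset_iff.2 huw.2.2),
        joined_union h2 (joined_singleton w) h5 (mem_singleton_self w) huw.1,
        mem_union_left _ h4, mem_union_right _ (mem_singleton_self w), ?_⟩
      have := card_union_le A {w}
      rw [card_singleton] at this
      omega

theorem isBead_of_bead {D K : ℕ} {P : Finset V} (h : Bead G (D + 1) K P) : IsBead G D K P := by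
  classical
  refine ⟨h.cyc, ?_, ?_, h.cuts⟩
  · intro v hv
    by_contra hcon
    push Not at hcon
    obtain ⟨u, hu, u', hu', hne⟩ := one_lt_card.1 hcon
    rw [mem_filter] at hu hu'
    have h1 := h.spread (v, u) ((mem_cut G).2 ⟨hv, hu.2.2, hu.2.1⟩) (v, u')
      ((mem_cut G).2 ⟨hv, hu'.2.2, hu'.2.1⟩) (fun h => hne (congrArg Prod.snd h)) {v}
      (singleton_subset_iff.2 hv) (joined_singleton v) (mem_singleton_self v)
      (mem_singleton_self v)
    rw [card_singleton] at h1
    omega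
  · rintro v hv v' hv' hne ⟨u, hu, hvu⟩ ⟨u', hu', hvu'⟩ hB
    obtain ⟨A, h1, h2, h4, h5, h6⟩ := joined_of_mem_Bl hv D v' hB
    have h7 := h.spread (v, u) ((mem_cut G).2 ⟨hv, hu, hvu⟩) (v', u')
      ((mem_cut G).2 ⟨hv', hu', hvu'⟩) (fun h => hne (congrArg Prod.fst h)) A h1 h2 h4 h5
    omega

/-- The bead lemma for a vertex set with a spread boundary. -/
theorem exists_isBead_in (D K : ℕ) : ∃ N : ℕ, ∀ {V : Type} [Fintype V] [DecidableEq V]
    (G : SimpleGraph V) [DecidableRel G.Adj], (∀ v, G.degree v = 3) → ∀ P₀ : Finset V,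
    ¬ (G.induce (P₀ : Set V)).IsAcyclic →
    (∀ A ⊆ P₀, A.card < N → (G.induce (A : Set V)).IsAcyclic) → Spread G N P₀ (cut G P₀) →
    ∃ P ⊆ P₀, IsBead G D K P ∧ Joined G P := by
  obtain ⟨N, hN⟩ := bead_star (D + 1) K (by omega)
  refine ⟨N, fun {V} _ _ G _ h3 P₀ h1 h2 h4 => ?_⟩
  obtain ⟨P, hP, hb⟩ := hN G h3 P₀ h1 h2 h4
  exact ⟨P, hP, isBead_of_bead hb, hb.joined⟩

end Pool.Agent.K5.BG
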