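import Mathlib
import Pool.Agent.Work.MP_974d84_co_k5.Defs5
import Pool.Agent.Work.MP_974d84_co_k5.Cores
import Pool.Agent.Work.MP_974d84_co_log.Crit

/-!
# Deleting the edges at a sparse vertex set: reduction to bonds
-/

set_option linter.unusedSectionVars false

namespace Pool.Agent.K5.LS

open Finset SimpleGraph Pool.Agent.Exp Pool.Agent.Log5 Pool.Agent.Log5.Clu

variable {V : Type} [Fintype V] [DecidableEq V]

/-- The graph without the edges which touch `D`. -/
def gstar (G : SimpleGraph V) (D : Finset V) : SimpleGraph V :=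
  SimpleGraph.mk (fun u v => G.Adj u v ∧ u ∉ D ∧ v ∉ D)
    ⟨fun _ _ h => ⟨h.1.symm, h.2.2, h.2.1⟩⟩ ⟨fun _ h => G.irrefl h.1⟩

instance (G : SimpleGraph V) [DecidableRel G.Adj] (D : Finset V) :
    DecidableRel (gstar G D).Adj :=
  fun u v => inferInstanceAs (Decidable (G.Adj u v ∧ u ∉ D ∧ v ∉ D))

theorem gstar_adj {G : SimpleGraph V} {D : Finset V} {u v : V} :
    (gstar G D).Adj u v ↔ G.Adj u v ∧ u ∉ D ∧ v ∉ D := Iff.rfl

variable {G : SimpleGraph V} [DecidableRel G.Adj]

theorem gstar_dd_congr {D A B : Finset V} (h : ∀ v, v ∉ D → (v ∈ A ↔ v ∈ B)) :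
    dd (gstar G D) A = dd (gstar G D) B := by
  unfold dd
  congr 1
  ext p
  rw [mem_cut, mem_cut]
  constructor
  · rintro ⟨h1, h2, h3⟩
    have h4 := gstar_adj.1 h3
    exact ⟨(h _ h4.2.1).1 h1, fun h5 => h2 ((h _ h4.2.2).2 h5), h3⟩
  · rintro ⟨h1, h2, h3⟩
    have h4 := gstar_adj.1 h3
    exact ⟨(h _ h4.2.1).2 h1, fun h5 => h2 ((h _ h4.2.2).1 h5), h3⟩

theorem gstar_dd_le (D A : Finset V) : dd (gstar G D) A ≤ dd G A := by
  unfold dd
  refine card_le_card fun p hp => ?_
  rw [mem_cut] at hp ⊢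
  exact ⟨hp.1, hp.2.1, hp.2.2.1⟩

/-- Changing `B` inside `E` does not make its border smaller. -/
def Opt (G : SimpleGraph V) [DecidableRel G.Adj] (W B : Finset V) : Prop :=
  ∀ E ⊆ W, dd G B ≤ dd G (symmDiff B E)

theorem Opt.left {W B B₁ B₂ : Finset V} (h : Opt G W B) (hB : B = symmDiff B₁ B₂)
    (hd : dd G B = dd G B₁ + dd G B₂) : Opt G W B₁ := by
  intro E hE
  have h1 := h E hE
  have h2 : symmDiff B E = symmDiff (symmDiff B₁ E) B₂ := by
    rw [hB, symmDiff_assoc, symmDiff_comm B₂ E, ← symmDiff_assoc]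
  rw [h2] at h1
  have h3 := dd_symmDiff (G := G) (symmDiff B₁ E) B₂
  omega

theorem Opt.right {W B B₁ B₂ : Finset V} (h : Opt G W B) (hB : B = symmDiff B₁ B₂)
    (hd : dd G B = dd G B₁ + dd G B₂) : Opt G W B₂ :=
  h.left (hB.trans (symmDiff_comm _ _)) (hd.trans (Nat.add_comm _ _))

/-- If optimal bonds do not lose too much, then optimal sets do not. -/
theorem loss_opt (hbr : ∀ S : Finset V, S.Nonempty → Sᶜ.Nonempty → 1 ≤ dd G S)
    {Y D W : Finset V} {c : ℕ}
    (hel : ∀ P, RBond G Y id P → Pᶜ.Nonempty → Opt G W P → dd G P ≤ c * dd (gstar G D) P)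
    (S : Finset V) (hSY : S ⊆ Y) (hS : Opt G W S) : dd G S ≤ c * dd (gstar G D) S := by
  suffices key : ∀ (n : ℕ) (Z : Finset V), Z ⊆ Y → Opt G W Z → dd G Z = n →
      dd G Z ≤ c * dd (gstar G D) Z from key _ S hSY hS rfl
  intro n
  induction n using Nat.strong_induction_on with
  | _ n ih =>
    intro Z hZY hZo hZ
    rcases Z.eq_empty_or_nonempty with rfl | hne
    · have : dd G (∅ : Finset V) = 0 := by
        unfold dd
        rw [card_eq_zero]
        ext p; rw [mem_cut]; simp
      rw [this]; exact Nat.zero_le _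
    rcases Zᶜ.eq_empty_or_nonempty with he | hne'
    · have hZu := (compl_eq_empty_iff _).1 he
      have : dd G Z = 0 := by
        unfold dd
        rw [card_eq_zero]
        ext p
        rw [mem_cut, hZu]
        simp
      rw [this]; exact Nat.zero_le _
    by_cases hJ : Joined G Z
    · by_cases hJ' : ModJ G Yᶜ Zᶜ
      · exact hel Z ⟨hZY, hne, hJ, hJ', fun x y h => by rw [show x = y from h]⟩ hne' hZo
      · unfold ModJ at hJ'
        push Not at hJ'
        obtain ⟨A, h1, h2, h3, h4⟩ := hJ'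
        have h1' : A ⊆ Zᶜ := h1.trans sdiff_subset
        have hAY : A ⊆ Y := fun x hx => by
          have := (mem_sdiff.1 (h1 hx)).2
          rwa [mem_compl, not_not] at this
        have h3' : (Zᶜ \ A).Nonempty := by
          rw [sdiff_nonempty]
          exact fun h => h3 (h1'.antisymm h)
        obtain ⟨e1, e2⟩ := cut_split h1' h4
        obtain ⟨s1, s2⟩ := cut_split (G := gstar G D) h1'
          (fun x hx y hy hy' h => h4 x hx y hy hy' h.1)
        have k1 : dd G Zᶜ = dd G A + dd G (Zᶜ \ A) := by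
          unfold dd
          rw [e1, card_union_of_disjoint e2]
        have t1 : dd (gstar G D) Zᶜ = dd (gstar G D) A + dd (gstar G D) (Zᶜ \ A) := by
          unfold dd
          rw [s1, card_union_of_disjoint s2]
        have c1 : Aᶜ.Nonempty := by
          obtain ⟨x, hx⟩ := hne
          exact ⟨x, mem_compl.2 fun h => (mem_compl.1 (h1' h)) hx⟩
        have c2 : (Zᶜ \ A)ᶜ.Nonempty := by
          obtain ⟨x, hx⟩ := hne
          exact ⟨x, mem_compl.2 fun h => (mem_compl.1 (mem_sdiff.1 h).1) hx⟩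
        have k2 := hbr A h2 c1
        have k3 := hbr (Zᶜ \ A) h3' c2
        have e3 : (Zᶜ \ A) = (Z ∪ A)ᶜ := by
          ext x
          simp
        rw [e3, dd_compl] at k1 k3
        rw [e3, dd_compl, dd_compl] at t1
        rw [dd_compl] at k1
        have hdis : Disjoint Z A := by
          rw [Finset.disjoint_left]
          exact fun x hx hxA => (mem_compl.1 (h1' hxA)) hx
        have hsd : Z = symmDiff A (Z ∪ A) := by
          ext x
          rw [mem_symmDiff, mem_union]
          have h8 : x ∈ Z → x ∉ A := fun h => Finset.disjoint_left.1 hdis h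
          tauto
        have g1 := ih (dd G A) (by omega) A hAY (hZo.left hsd k1) rfl
        have g2 := ih (dd G (Z ∪ A)) (by omega) (Z ∪ A) (union_subset hZY hAY)
          (hZo.right hsd k1) rfl
        rw [k1, t1, Nat.mul_add]
        omega
    · obtain ⟨A, h1, h2, h3, h4⟩ := not_joined hJ
      obtain ⟨e1, e2⟩ := cut_split h1 h4
      obtain ⟨s1, s2⟩ := cut_split (G := gstar G D) h1
        (fun x hx y hy hy' h => h4 x hx y hy hy' h.1)
      have k1 : dd G Z = dd G A + dd G (Z \ A) := by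
        unfold dd
        rw [e1, card_union_of_disjoint e2]
      have t1 : dd (gstar G D) Z = dd (gstar G D) A + dd (gstar G D) (Z \ A) := by
        unfold dd
        rw [s1, card_union_of_disjoint s2]
      have c1 : Aᶜ.Nonempty := by
        obtain ⟨x, hx⟩ := hne'
        exact ⟨x, mem_compl.2 fun h => (mem_compl.1 hx) (h1 h)⟩
      have c2 : (Z \ A)ᶜ.Nonempty := by
        obtain ⟨x, hx⟩ := hne'
        exact ⟨x, mem_compl.2 fun h => (mem_compl.1 hx) (mem_sdiff.1 h).1⟩
      have k2 := hbr A h2 c1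
      have k3 := hbr (Z \ A) h3 c2
      have hsd : Z = symmDiff A (Z \ A) := by
        ext x
        rw [mem_symmDiff, mem_sdiff]
        have := @h1 x
        tauto
      have g1 := ih (dd G A) (by omega) A (h1.trans hZY) (hZo.left hsd k1) rfl
      have g2 := ih (dd G (Z \ A)) (by omega) (Z \ A) (sdiff_subset.trans hZY)
        (hZo.right hsd k1) rfl
      rw [k1, t1, Nat.mul_add]
      omega

/-- Every set `A` outside `D` can be enlarged by points of `D` in such a way that deleting the
edges at `D` costs only a factor. -/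
theorem loss_split (hbr : ∀ S : Finset V, S.Nonempty → Sᶜ.Nonempty → 1 ≤ dd G S)
    {Y D : Finset V} {c : ℕ}
    (hel : ∀ P, RBond G Y id P → Pᶜ.Nonempty → Opt G (D ∩ Y) P →
      dd G P ≤ c * dd (gstar G D) P)
    (A : Finset V) (hAY : A ⊆ Y) (hAD : Disjoint A D) :
    ∃ B, A ⊆ B ∧ B ⊆ A ∪ (D ∩ Y) ∧ dd G B ≤ c * dd (gstar G D) A := by
  classical
  have hne : ((D ∩ Y).powerset).Nonempty := ⟨∅, empty_mem_powerset _⟩
  obtain ⟨E, hE, hmin⟩ := exists_min_image ((D ∩ Y).powerset) (fun E => dd G (A ∪ E)) hne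
  rw [mem_powerset] at hE
  refine ⟨A ∪ E, subset_union_left, union_subset_union_right hE, ?_⟩
  have hcong : dd (gstar G D) A = dd (gstar G D) (A ∪ E) := by
    refine gstar_dd_congr fun v hv => ?_
    rw [mem_union]
    have : v ∉ E := fun h => hv (mem_inter.1 (hE h)).1
    tauto
  rw [hcong]
  refine loss_opt hbr hel _ (union_subset hAY (hE.trans inter_subset_right)) ?_
  intro E' hE'
  have h1 : symmDiff (A ∪ E) E' = A ∪ symmDiff E E' := by
    ext v
    simp only [mem_symmDiff, mem_union]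
    have h2 : v ∈ E' → v ∉ A := fun h h' =>
      Finset.disjoint_left.1 hAD h' (mem_inter.1 (hE' h)).1
    tauto
  rw [h1]
  refine hmin _ (mem_powerset.2 fun v hv => ?_)
  rw [mem_symmDiff] at hv
  rcases hv with hv | hv
  · exact hE hv.1
  · exact hE' hv.1

end Pool.Agent.K5.LS
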