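import Mathlib
import Pool.Agent.Work.MP_974d84_co_k5.LossSplit
import Pool.Agent.Work.MP_974d84_co_log.Girth

/-!
# Deleting the edges at a sparse vertex set: bonds
-/

set_option linter.unusedSectionVars false

namespace Pool.Agent.K5.LS

open Finset SimpleGraph Pool.Agent.Exp Pool.Agent.Log5 Pool.Agent.Log5.Clu

variable {V : Type} [Fintype V] [DecidableEq V] {G : SimpleGraph V} [DecidableRel G.Adj]

theorem ee_sum (A B : Finset V) :
    ee G A B = ∑ p : V × V, if p.1 ∈ A ∧ p.2 ∈ B ∧ G.Adj p.1 p.2 then 1 else 0 := by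
  unfold ee
  rw [card_filter]

theorem dd_sum_pairs (A : Finset V) :
    dd G A = ∑ p : V × V, if p.1 ∈ A ∧ p.2 ∉ A ∧ G.Adj p.1 p.2 then 1 else 0 := by
  have h : dd G A = ((univ : Finset (V × V)).filter fun p =>
      p.1 ∈ A ∧ p.2 ∉ A ∧ G.Adj p.1 p.2).card := by
    unfold dd
    congr 1
  rw [h, card_filter]

theorem ee_swap (A B : Finset V) : ee G A B = ee G B A := by
  unfold ee
  refine card_bij' (fun p _ => (p.2, p.1)) (fun p _ => (p.2, p.1)) ?_ ?_ ?_ ?_
  · intro p hp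
    simp only [mem_filter, mem_univ, true_and] at hp ⊢
    exact ⟨hp.2.1, hp.1, hp.2.2.symm⟩
  · intro p hp
    simp only [mem_filter, mem_univ, true_and] at hp ⊢
    exact ⟨hp.2.1, hp.1, hp.2.2.symm⟩
  · intro p _; rfl
  · intro p _; rfl

theorem ee_mono {H : SimpleGraph V} [DecidableRel H.Adj] (hH : H ≤ G) (A B : Finset V) :
    ee H A B ≤ ee G A B := by
  unfold ee
  refine card_le_card fun p hp => ?_
  simp only [mem_filter, mem_univ, true_and] at hp ⊢
  exact ⟨hp.1, hp.2.1, hH hp.2.2⟩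

theorem submod (A B : Finset V) :
    dd G (A ∪ B) + dd G (A ∩ B) + 2 * ee G (A \ B) (B \ A) ≤ dd G A + dd G B := by
  have h1 : 2 * ee G (A \ B) (B \ A) = ee G (A \ B) (B \ A) + ee G (B \ A) (A \ B) := by
    rw [ee_swap (B \ A)]; ring
  rw [h1, ee_sum, ee_sum, dd_sum_pairs, dd_sum_pairs, dd_sum_pairs, dd_sum_pairs,
    ← sum_add_distrib, ← sum_add_distrib, ← sum_add_distrib, ← sum_add_distrib]
  refine sum_le_sum fun p _ => ?_
  simp only [mem_union, mem_inter, mem_sdiff]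
  by_cases hadj : G.Adj p.1 p.2
  · by_cases a1 : p.1 ∈ A <;> by_cases a2 : p.2 ∈ A <;> by_cases b1 : p.1 ∈ B <;>
      by_cases b2 : p.2 ∈ B <;> simp [hadj, a1, a2, b1, b2]
  · simp [hadj]

theorem dd_split (A B : Finset V) :
    dd G (A ∪ B) ≤ dd G A + dd G B := by
  have := submod (G := G) A B
  omega

theorem dd_le_three (h3 : ∀ v, G.degree v = 3) (A : Finset V) : dd G A ≤ 3 * A.card := by
  have := dd_sum h3 A
  omega

theorem dd_joined_le (h3 : ∀ v, G.degree v = 3) {P : Finset V} (hJ : Joined G P)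
    (hne : P.Nonempty) : dd G P ≤ P.card + 2 := by
  have key : ∀ n, 1 ≤ n → n ≤ P.card → ∃ A ⊆ P, A.card = n ∧ dd G A ≤ n + 2 := by
    intro n hn
    induction n, hn using Nat.le_induction with
    | base =>
      intro _
      obtain ⟨x, hx⟩ := hne
      refine ⟨{x}, singleton_subset_iff.2 hx, card_singleton x, ?_⟩
      have := dd_le_three h3 ({x} : Finset V)
      rw [card_singleton] at this
      omega
    | succ n hn ih =>
      intro hn'
      obtain ⟨A, h1, h2, h4⟩ := ih (by omega)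
      obtain ⟨u, hu, v, hv, hvA, huv⟩ := hJ A h1 (card_pos.1 (by omega))
        (fun h => by rw [h] at h2; omega)
      refine ⟨insert v A, insert_subset hv h1, by rw [card_insert_of_notMem hvA, h2], ?_⟩
      have h5 := dd_insert h3 hvA
      have h6 : 1 ≤ nb G A v := by
        unfold nb
        exact card_pos.2 ⟨u, mem_filter.2 ⟨hu, huv.symm⟩⟩
      omega
  obtain ⟨A, h1, h2, h4⟩ := key P.card (card_pos.2 hne) le_rfl
  rw [eq_of_subset_of_card_le h1 (by omega)] at h4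
  exact h4

/-- The lost edges at `X`. -/
def lostAt (Γ : SimpleGraph V) [DecidableRel Γ.Adj] (P X : Finset V) : Finset (V × V) :=
  (univ : Finset (V × V)).filter fun p =>
    p.1 ∈ P ∧ p.2 ∉ P ∧ Γ.Adj p.1 p.2 ∧ (p.1 ∈ X ∨ p.2 ∈ X)

theorem mem_lostAt {Γ : SimpleGraph V} [DecidableRel Γ.Adj] {P X : Finset V} {p : V × V} :
    p ∈ lostAt Γ P X ↔ p.1 ∈ P ∧ p.2 ∉ P ∧ Γ.Adj p.1 p.2 ∧ (p.1 ∈ X ∨ p.2 ∈ X) := by
  simp [lostAt]

theorem lostAt_card_le {Γ : SimpleGraph V} [DecidableRel Γ.Adj] (P X : Finset V) :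
    (lostAt Γ P X).card ≤ ee Γ (P ∩ X) Pᶜ + ee Γ (P \ X) (X \ P) := by
  unfold ee
  refine le_trans (card_le_card fun p hp => ?_) (card_union_le _ _)
  rw [mem_lostAt] at hp
  simp only [mem_union, mem_filter, mem_univ, true_and, mem_inter, mem_compl, mem_sdiff]
  tauto

theorem loss_le {Γ : SimpleGraph V} [DecidableRel Γ.Adj] (T : Finset V) (X : V → Finset V)
    (P : Finset V) : dd Γ P ≤ dd (gstar Γ (T.biUnion X)) P +
      ∑ t ∈ T.filter (fun t => (lostAt Γ P (X t)).Nonempty), (lostAt Γ P (X t)).card := by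
  classical
  refine le_trans ?_ (Nat.add_le_add_left card_biUnion_le _)
  unfold dd
  refine le_trans (card_le_card fun p hp => ?_) (card_union_le _ _)
  rw [mem_cut] at hp
  rw [mem_union, mem_cut, mem_biUnion]
  by_cases h : ∃ t ∈ T, p.1 ∈ X t ∨ p.2 ∈ X t
  · obtain ⟨t, ht, htp⟩ := h
    right
    have hm : p ∈ lostAt Γ P (X t) := mem_lostAt.2 ⟨hp.1, hp.2.1, hp.2.2, htp⟩
    exact ⟨t, mem_filter.2 ⟨ht, ⟨p, hm⟩⟩, hm⟩
  · left
    push Not at h
    refine ⟨hp.1, hp.2.1, gstar_adj.2 ⟨hp.2.2, ?_, ?_⟩⟩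
    · rw [mem_biUnion]
      rintro ⟨t, ht, htp⟩
      exact (h t ht).1 htp
    · rw [mem_biUnion]
      rintro ⟨t, ht, htp⟩
      exact (h t ht).2 htp

/-- One site: at most two edges are lost, and two only if the tree has four vertices. -/
theorem lost_site (h3 : ∀ v, G.degree v = 3) {k : ℕ} (hg : Gir G k) {Γ : SimpleGraph V}
    [DecidableRel Γ.Adj] (hΓ : Γ ≤ G) {P X W : Finset V} (hP : Joined G P) (hPne : P.Nonempty)
    (hX : Joined G X) (hXne : X.Nonempty) (hXc : X.card ≤ 3) (hk : P.card + 3 < k)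
    (hW : P ∩ X ⊆ W) (hopt : Opt Γ W P) :
    (lostAt Γ P X).card ≤ 2 ∧ (2 ≤ (lostAt Γ P X).card → 4 ≤ P.card) := by
  have hU : (P ∪ X).card ≤ P.card + 3 := (card_union_le _ _).trans (by omega)
  have u1 := dd_of_acyclic G h3 (S := P ∪ X) (hPne.mono subset_union_left) (hg _ (by omega))
  have u2 := dd_of_acyclic G h3 (S := P) hPne (hg _ (by omega))
  have u3 := dd_joined_le h3 hP hPne
  have u4 := dd_joined_le h3 hX hXne
  have u5 := submod (G := G) P X
  have u6 := card_union_add_card_inter P X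
  have u7 := lostAt_card_le (Γ := Γ) P X
  have u8 := ee_mono hΓ (P \ X) (X \ P)
  rcases (P ∩ X).eq_empty_or_nonempty with he | hne
  · rw [he] at u6 u7
    rw [card_empty] at u6
    have u9 : ee Γ (∅ : Finset V) Pᶜ = 0 := by
      unfold ee
      rw [card_eq_zero]
      ext p; simp
    omega
  · have v1 := dd_of_acyclic G h3 (S := P ∩ X) hne (hg _ (by
      have := card_le_card (inter_subset_left : P ∩ X ⊆ P)
      omega))
    -- now `ee G (P \ X) (X \ P) = 0` and `dd G (P ∩ X) ≤ card + 2`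
    have v2 : (P ∩ X).card ≤ 3 := (card_le_card inter_subset_right).trans hXc
    have v3 : symmDiff P (P ∩ X) = P \ X := by
      ext v
      rw [mem_symmDiff, mem_inter, mem_sdiff]
      tauto
    have v4 := hopt (P ∩ X) hW
    rw [v3] at v4
    -- split the borders
    have e1 : dd Γ P = ee Γ (P ∩ X) Pᶜ + ee Γ (P \ X) Pᶜ := by
      rw [ee_sum, ee_sum, dd_sum_pairs, ← sum_add_distrib]
      refine sum_congr rfl fun p _ => ?_
      simp only [mem_inter, mem_sdiff, mem_compl]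
      by_cases a1 : p.1 ∈ P <;> by_cases a2 : p.2 ∈ P <;> by_cases a3 : p.1 ∈ X <;>
        by_cases a4 : Γ.Adj p.1 p.2 <;> simp [a1, a2, a3, a4]
    have e2 : dd Γ (P \ X) = ee Γ (P \ X) (P ∩ X) + ee Γ (P \ X) Pᶜ := by
      rw [ee_sum, ee_sum, dd_sum_pairs, ← sum_add_distrib]
      refine sum_congr rfl fun p _ => ?_
      simp only [mem_inter, mem_sdiff, mem_compl]
      by_cases a1 : p.1 ∈ P <;> by_cases a2 : p.2 ∈ P <;> by_cases a3 : p.1 ∈ X <;>
        by_cases a5 : p.2 ∈ X <;> by_cases a4 : Γ.Adj p.1 p.2 <;> simp [a1, a2, a3, a4, a5]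
    have e3 : dd G (P ∩ X) = ee G (P ∩ X) Pᶜ + ee G (P ∩ X) (P \ X) := by
      rw [ee_sum, ee_sum, dd_sum_pairs, ← sum_add_distrib]
      refine sum_congr rfl fun p _ => ?_
      simp only [mem_inter, mem_sdiff, mem_compl]
      by_cases a1 : p.1 ∈ P <;> by_cases a2 : p.2 ∈ P <;> by_cases a3 : p.1 ∈ X <;>
        by_cases a5 : p.2 ∈ X <;> by_cases a4 : G.Adj p.1 p.2 <;> simp [a1, a2, a3, a4, a5]
    have e4 := ee_swap (G := Γ) (P \ X) (P ∩ X)
    have e5 := ee_mono hΓ (P ∩ X) Pᶜ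
    have e6 := ee_mono hΓ (P ∩ X) (P \ X)
    refine ⟨by omega, fun h2 => ?_⟩
    have f1 := submod (G := G) (P ∩ X) (P \ X)
    have f2 : (P ∩ X) ∪ (P \ X) = P := by
      ext v
      rw [mem_union, mem_inter, mem_sdiff]
      tauto
    have f3 : (P ∩ X) \ (P \ X) = P ∩ X := by
      ext v
      rw [mem_sdiff, mem_inter, mem_sdiff]
      tauto
    have f4 : (P \ X) \ (P ∩ X) = P \ X := by
      ext v
      rw [mem_sdiff, mem_inter, mem_sdiff]
      tauto
    rw [f2, f3, f4] at f1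
    have f5 := dd_le_three h3 (P \ X)
    have f6 : (P ∩ X).card + (P \ X).card = P.card := card_inter_add_card_sdiff P X
    omega

/-- Bonds which are trees. -/
theorem loss_tree (h3 : ∀ v, G.degree v = 3) {k R : ℕ} (hg : Gir G k) (hR : 8 ≤ R)
    {T : Finset V} {X : V → Finset V} (hX1 : ∀ t ∈ T, (X t).Nonempty)
    (hX2 : ∀ t ∈ T, Joined G (X t)) (hX3 : ∀ t ∈ T, (X t).card ≤ 3)
    (hX4 : ∀ t ∈ T, X t ⊆ Bl G.Adj 1 t)
    (hT : ∀ t ∈ T, ∀ t' ∈ T, t ≠ t' → Disjoint (Bl G.Adj R t) (Bl G.Adj R t'))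
    {Γ : SimpleGraph V} [DecidableRel Γ.Adj] (hΓ : Γ ≤ G) {P Y : Finset V} (hP : Joined G P)
    (hPne : P.Nonempty) (hk : P.card + 3 < k) (hPY : P ⊆ Y)
    (hr : 100 * dd G P ≤ 223 * dd Γ P) (hopt : Opt Γ (T.biUnion X ∩ Y) P) :
    dd Γ P ≤ 3 * dd (gstar Γ (T.biUnion X)) P := by
  classical
  have hsite : ∀ t ∈ T, (lostAt Γ P (X t)).card ≤ 2 ∧
      (2 ≤ (lostAt Γ P (X t)).card → 4 ≤ P.card) := fun t ht =>
    lost_site h3 hg hΓ hP hPne (hX2 t ht) (hX1 t ht) (hX3 t ht) hk (fun v hv => by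
      rw [mem_inter] at hv
      exact mem_inter.2 ⟨mem_biUnion.2 ⟨t, ht, hv.2⟩, hPY hv.1⟩) hopt
  have hl := loss_le (Γ := Γ) T X P
  set T' := T.filter (fun t => (lostAt Γ P (X t)).Nonempty) with hT'
  have hac := dd_of_acyclic G h3 (S := P) hPne (hg _ (by omega))
  have hpos := hPne.card_pos
  -- every site of `T'` has a point of `P` at distance at most two
  have hnear : ∀ t ∈ T', ∃ v ∈ P, v ∈ Bl G.Adj 2 t := by
    intro t ht
    rw [hT', mem_filter] at ht
    obtain ⟨p, hp⟩ := ht.2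
    rw [mem_lostAt] at hp
    refine ⟨p.1, hp.1, ?_⟩
    rcases hp.2.2.2 with h | h
    · exact Bl_mono (by norm_num) _ (hX4 t ht.1 h)
    · exact mem_Bl_succ.2 (Or.inr ⟨p.2, hX4 t ht.1 h, (hΓ hp.2.2.1).symm⟩)
  rcases Nat.lt_or_ge T'.card 2 with hm | hm
  · rcases Nat.lt_or_ge T'.card 1 with hm0 | hm1
    · have : T' = ∅ := card_eq_zero.1 (by omega)
      rw [this, sum_empty] at hl
      omega
    · obtain ⟨t, ht⟩ := card_eq_one.1 (show T'.card = 1 by omega)
      rw [ht, sum_singleton] at hl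
      have htT : t ∈ T := (mem_filter.1 (show t ∈ T' by rw [ht]; exact mem_singleton_self t)).1
      obtain ⟨h1, h2⟩ := hsite t htT
      by_cases h4 : 2 ≤ (lostAt Γ P (X t)).card
      · have := h2 h4
        omega
      · omega
  · choose! f hf1 hf2 using hnear
    have hball : ∀ t ∈ T', Bl (RW G P) (R - 2) (f t) ⊆ Bl G.Adj R t := by
      intro t ht v hv
      have h1 := Bl_rel (R := RW G P) (R' := G.Adj) (fun _ _ h => h.1) (R - 2) (f t) hv
      have h2 := Bl_comp (hf2 t ht) h1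
      rwa [show 2 + (R - 2) = R by omega] at h2
    have hTT : ∀ t ∈ T', t ∈ T := fun t ht => (mem_filter.1 ht).1
    have hbig : ∀ t ∈ T', R - 2 + 1 ≤ (Bl (RW G P) (R - 2) (f t)).card := by
      intro t ht
      refine Bl_grow hP (hf1 t ht) (R - 2) fun hsub => ?_
      obtain ⟨t', ht', hne⟩ := exists_mem_ne (by omega : 1 < T'.card) t
      have h1 := hball t ht (hsub (hf1 t' ht'))
      have h2 : f t' ∈ Bl G.Adj R t' := Bl_mono (by omega) _ (hf2 t' ht')
      exact Finset.disjoint_left.1 (hT t (hTT t ht) t' (hTT t' ht') hne.symm) h1 h2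
    have hcard : T'.card * (R - 2 + 1) ≤ P.card := by
      rw [← smul_eq_mul, ← sum_const]
      refine (sum_le_sum hbig).trans ?_
      rw [← card_biUnion]
      · exact card_le_card (biUnion_subset.2 fun t ht => Bl_RW_sub (hf1 t ht) _)
      · intro t ht t' ht' hne
        exact (hT t (hTT t ht) t' (hTT t' ht') hne).mono (hball t ht) (hball t' ht')
    have hsum : ∑ t ∈ T', (lostAt Γ P (X t)).card ≤ T'.card * 2 := by
      rw [← smul_eq_mul, ← sum_const]
      exact sum_le_sum fun t ht => (hsite t (hTT t ht)).1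
    have h7 : T'.card * 7 ≤ T'.card * (R - 2 + 1) := Nat.mul_le_mul_left _ (by omega)
    omega

/-- Bonds which split few balls. -/
theorem loss_few (h3 : ∀ v, G.degree v = 3) {T : Finset V} {X : V → Finset V}
    (hX3 : ∀ t ∈ T, (X t).card ≤ 3) (hX4 : ∀ t ∈ T, X t ⊆ Bl G.Adj 1 t)
    {Γ : SimpleGraph V} [DecidableRel Γ.Adj] (hΓ : Γ ≤ G) {P : Finset V}
    (hfew : 27 * (T.filter fun t => ∃ x ∈ Bl G.Adj 2 t, ¬ (x ∈ P ↔ t ∈ P)).card ≤
      2 * dd Γ P) :
    dd Γ P ≤ 3 * dd (gstar Γ (T.biUnion X)) P := by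
  classical
  have hl := loss_le (Γ := Γ) T X P
  set T' := T.filter (fun t => (lostAt Γ P (X t)).Nonempty) with hT'
  have hsub : T' ⊆ T.filter fun t => ∃ x ∈ Bl G.Adj 2 t, ¬ (x ∈ P ↔ t ∈ P) := by
    intro t ht
    rw [hT', mem_filter] at ht
    rw [mem_filter]
    refine ⟨ht.1, ?_⟩
    obtain ⟨p, hp⟩ := ht.2
    rw [mem_lostAt] at hp
    have h1 : p.1 ∈ Bl G.Adj 2 t := by
      rcases hp.2.2.2 with h | h
      · exact Bl_mono (by norm_num) _ (hX4 t ht.1 h)
      · exact mem_Bl_succ.2 (Or.inr ⟨p.2, hX4 t ht.1 h, (hΓ hp.2.2.1).symm⟩)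
    have h2 : p.2 ∈ Bl G.Adj 2 t := by
      rcases hp.2.2.2 with h | h
      · exact mem_Bl_succ.2 (Or.inr ⟨p.1, hX4 t ht.1 h, hΓ hp.2.2.1⟩)
      · exact Bl_mono (by norm_num) _ (hX4 t ht.1 h)
    by_cases h : t ∈ P
    · exact ⟨p.2, h2, fun h' => hp.2.1 (h'.2 h)⟩
    · exact ⟨p.1, h1, fun h' => h (h'.1 hp.1)⟩
  have hnine : ∀ t ∈ T, (lostAt Γ P (X t)).card ≤ 9 := by
    intro t ht
    have h1 : lostAt Γ P (X t) ⊆ (X t).biUnion fun x =>
        (G.neighborFinset x).image (fun y => if x ∈ P then (x, y) else (y, x)) := by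
      intro p hp
      rw [mem_lostAt] at hp
      rw [mem_biUnion]
      rcases hp.2.2.2 with h | h
      · refine ⟨p.1, h, mem_image.2 ⟨p.2, ?_, ?_⟩⟩
        · rw [mem_neighborFinset]; exact hΓ hp.2.2.1
        · rw [if_pos hp.1]
      · refine ⟨p.2, h, mem_image.2 ⟨p.1, ?_, ?_⟩⟩
        · rw [mem_neighborFinset]; exact (hΓ hp.2.2.1).symm
        · rw [if_neg hp.2.1]
    refine (card_le_card h1).trans (card_biUnion_le.trans ?_)
    calc ∑ x ∈ X t, ((G.neighborFinset x).image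
          (fun y => if x ∈ P then (x, y) else (y, x))).card ≤ ∑ _x ∈ X t, 3 := by
          refine sum_le_sum fun x _ => card_image_le.trans ?_
          rw [card_neighborFinset_eq_degree, h3]
      _ = (X t).card * 3 := by rw [sum_const, smul_eq_mul]
      _ ≤ 9 := by have := hX3 t ht; omega
  have hsum : ∑ t ∈ T', (lostAt Γ P (X t)).card ≤ T'.card * 9 := by
    rw [← smul_eq_mul, ← sum_const]
    exact sum_le_sum fun t ht => hnine t (mem_filter.1 ht).1
  have hc := card_le_card hsub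
  omega

end Pool.Agent.K5.LS
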