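import Mathlib
import Pool.Agent.Work.MP_974d84_co_k5.CoreFactsA
import Pool.Agent.Work.MP_974d84_co_k5.LossTree
import Pool.Agent.Work.MP_974d84_co_k5.DefsE

/-!
# The bead lemma: a cubic graph of large girth has a part with highly connected inside and few,
far apart edges to the outside
-/

set_option linter.unusedSectionVars false
set_option linter.unusedVariables false

namespace Pool.Agent.K5.BM

open Finset SimpleGraph Pool.Agent.Exp Pool.Agent.Log5 Pool.Agent.Log5.Clu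

variable {V : Type} [Fintype V] [DecidableEq V] (G : SimpleGraph V) [DecidableRel G.Adj]

/-- The set contains a circuit. -/
def Cyc (A : Finset V) : Prop := ¬ (G.induce (A : Set V)).IsAcyclic

/-- Small sets `S ⊆ X` have few edges to the outside of `X`. -/
def SepE (d b : ℕ) (X : Finset V) : Prop :=
  ∀ S ⊆ X, S.card ≤ b → 2 * (d + 2) * ee G S Xᶜ + d * S.card ≤ (d + 2) * dd G S

variable {G}

theorem Cyc.mono {A B : Finset V} (h : A ⊆ B) (hA : Cyc G A) : Cyc G B := by
  intro hB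
  apply hA
  have hs : (A : Set V) ⊆ (B : Set V) := by exact_mod_cast h
  exact hB.comap (SimpleGraph.induceHomOfLE G hs).toHom (SimpleGraph.induceHomOfLE G hs).injective

theorem Cyc.le_card {A : Finset V} {N : ℕ} (hg : Gir G N) (hA : Cyc G A) : N ≤ A.card := by
  by_contra h
  exact hA (hg A (by omega))

theorem Cyc.ne {A : Finset V} (hA : Cyc G A) : A.Nonempty := by
  rw [nonempty_iff_ne_empty]
  rintro rfl
  apply hA
  intro v
  have := v.2
  simp at this

theorem dd_sdiff_eq {X T : Finset V} (hT : T ⊆ X) :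
    dd G (X \ T) + 2 * ee G T Xᶜ = dd G X + dd G T := by
  have h1 := dd_parts (G := G) hT
  have h2 := dd_inner (G := G) hT
  omega

/-- Pushing the border. -/
theorem push (d B : ℕ) (X : Finset V) : ∃ T ⊆ X, T.card ≤ B ∧
    (d + 2) * dd G T ≤ d * T.card + 2 * (d + 2) * ee G T Xᶜ ∧
    ∀ S ⊆ X \ T, S.card + T.card ≤ B →
      2 * (d + 2) * ee G S (X \ T)ᶜ + d * S.card ≤ (d + 2) * dd G S := by
  classical
  obtain ⟨T, hT, hmin⟩ := exists_min_image (X.powerset.filter fun T => T.card ≤ B)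
    (fun T => (d + 2) * dd G (X \ T) + d * (X \ T).card)
    ⟨∅, by simp⟩
  rw [mem_filter, mem_powerset] at hT
  refine ⟨T, hT.1, hT.2, ?_, ?_⟩
  · have h1 := hmin ∅ (by simp)
    simp only [sdiff_empty] at h1
    have h2 := dd_sdiff_eq (G := G) hT.1
    have h3 := card_sdiff_add_card_eq_card hT.1
    have h4 : (d + 2) * (dd G (X \ T) + 2 * ee G T Xᶜ) = (d + 2) * (dd G X + dd G T) := by
      rw [h2]
    rw [← h3] at h1
    nlinarith
  · intro S hS hc
    have hd : Disjoint T S := disjoint_sdiff.mono_right hS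
    have hTS : T ∪ S ⊆ X := union_subset hT.1 (hS.trans sdiff_subset)
    have h1 := hmin (T ∪ S) (by
      rw [mem_filter, mem_powerset]
      refine ⟨hTS, ?_⟩
      rw [card_union_of_disjoint hd]
      omega)
    have h0 : X \ (T ∪ S) = (X \ T) \ S := by
      rw [sdiff_sdiff_left, sup_eq_union]
    simp only [h0] at h1
    have h2 := dd_sdiff_eq (G := G) hS
    have h3 := card_sdiff_add_card_eq_card hS
    have h4 : (d + 2) * (dd G ((X \ T) \ S) + 2 * ee G S (X \ T)ᶜ) =
        (d + 2) * (dd G (X \ T) + dd G S) := by rw [h2]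
    rw [← h3] at h1
    nlinarith

/-- A part with large cyclic cuts and few edges to the rest. -/
theorem thresh {P₀ : Finset V} {K₁ A H K' : ℕ} (h0 : Cyc G P₀) (hA : dd G P₀ ≤ A * K₁)
    (hmin : ∀ Y ⊆ P₀, Y ≠ P₀ → Cyc G Y → K₁ < dd G Y) (u : ℕ → ℕ) (hu0 : u 0 = 0)
    (hu : ∀ j, u (j + 1) = (H + 1) * u j + K') (hm : Monotone u)
    (hK : 4 * u (2 * A + 1) ≤ K₁) (hK1 : 0 < K₁) :
    ∃ j ≤ 2 * A, ∃ Q ⊆ P₀, Cyc G Q ∧ ee G Q (P₀ \ Q) ≤ u j ∧
      ∀ Y ⊆ Q, Cyc G Y → Cyc G (Q \ Y) → H * u j + K' ≤ ee G Y (Q \ Y) := by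
  classical
  by_contra hcon
  push Not at hcon
  have hsplit : ∀ j ≤ 2 * A, ∀ Q ⊆ P₀, Cyc G Q → ee G Q (P₀ \ Q) ≤ u j →
      ∃ Y ⊆ Q, Cyc G Y ∧ Cyc G (Q \ Y) ∧ ee G Y (Q \ Y) < H * u j + K' ∧
        ee G Y (P₀ \ Y) ≤ u (j + 1) ∧ dd G Y + dd G (Q \ Y) = dd G Q + 2 * ee G Y (Q \ Y) ∧
        Y ≠ P₀ ∧ K₁ < dd G Y ∧ K₁ < dd G (Q \ Y) := by
    intro j hj Q hQ hQc hQe
    obtain ⟨Y, hY, hYc, hYc', hlt⟩ := hcon j hj Q hQ hQc hQe
    have hne : Y ≠ P₀ := by
      rintro rfl
      obtain ⟨v, hv⟩ := hYc'.ne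
      rw [mem_sdiff] at hv
      exact hv.2 (hQ hv.1)
    have hne' : Q \ Y ≠ P₀ := by
      intro h
      obtain ⟨v, hv⟩ := hYc.ne
      have := hQ (hY hv)
      rw [← h, mem_sdiff] at this
      exact this.2 hv
    refine ⟨Y, hY, hYc, hYc', hlt, ?_, ?_, hne, hmin Y (hY.trans hQ) hne hYc,
      hmin _ (sdiff_subset.trans hQ) hne' hYc'⟩
    · have h1 : ee G Y (P₀ \ Y) ≤ ee G Y (Q \ Y) + ee G Y (P₀ \ Q) := by
        rw [← ee_union_right]
        · refine ee_mono (Subset.refl _) ?_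
          intro v hv
          rw [mem_sdiff] at hv
          rw [mem_union, mem_sdiff, mem_sdiff]
          by_cases h : v ∈ Q
          · exact Or.inl ⟨h, hv.2⟩
          · exact Or.inr ⟨hv.1, h⟩
        · rw [Finset.disjoint_left]
          intro v h1 h2
          exact (mem_sdiff.1 h2).2 (mem_sdiff.1 h1).1
      have h2 : ee G Y (P₀ \ Q) ≤ ee G Q (P₀ \ Q) := ee_mono hY (Subset.refl _)
      rw [hu]
      have h3 : (H + 1) * u j = H * u j + u j := by ring
      omega
    · have h1 := dd_parts (G := G) hY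
      have h2 := dd_inner (G := G) hY
      omega
  have key : ∀ j ≤ 2 * A, ∃ Q ⊆ P₀, Cyc G Q ∧ ee G Q (P₀ \ Q) ≤ u j ∧
      2 * dd G Q + j * K₁ ≤ 2 * A * K₁ := by
    intro j
    induction j with
    | zero =>
      intro _
      refine ⟨P₀, Subset.refl _, h0, ?_, ?_⟩
      · rw [sdiff_self, hu0]
        simp [ee]
      · nlinarith
    | succ j ih =>
      intro hj
      obtain ⟨Q, hQ, hQc, hQe, hQd⟩ := ih (by omega)
      obtain ⟨Y, hY, hYc, hYc', hlt, hYe, hYd, hYne, hY1, hY2⟩ := hsplit j (by omega) Q hQ hQc hQe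
      refine ⟨Y, hY.trans hQ, hYc, hYe, ?_⟩
      have h1 : u (j + 1) ≤ u (2 * A + 1) := hm (by omega)
      have h2 : H * u j + K' ≤ u (j + 1) := by
        rw [hu]
        have h3 : (H + 1) * u j = H * u j + u j := by ring
        omega
      have h3 : (j + 1) * K₁ = j * K₁ + K₁ := by ring
      rw [h3]
      omega
  obtain ⟨Q, hQ, hQc, hQe, hQd⟩ := key (2 * A) le_rfl
  obtain ⟨Y, hY, hYc, hYc', hlt, hYe, hYd, hYne, hY1, hY2⟩ :=
    hsplit (2 * A) le_rfl Q hQ hQc hQe
  have h2 : H * u (2 * A) + K' ≤ u (2 * A + 1) := by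
    rw [hu]
    have h3 : (H + 1) * u (2 * A) = H * u (2 * A) + u (2 * A) := by ring
    omega
  omega

/-- Below the girth a nonempty set is left by many edges. -/
theorem card_le_dd (h3 : ∀ v, G.degree v = 3) {N : ℕ} (hg : Gir G N) {T : Finset V}
    (hT : T.card < N) : T.card ≤ dd G T := by
  rcases T.eq_empty_or_nonempty with rfl | hne
  · simp
  · have := dd_of_acyclic G h3 hne (hg T hT)
    omega

/-- The constants of the bead lemma. -/
def bu (H : ℕ) : ℕ → ℕ
  | 0 => 0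
  | j + 1 => (H + 1) * bu H j + 1

theorem bu_mono (H : ℕ) : Monotone (bu H) := by
  refine monotone_nat_of_le_succ fun j => ?_
  rw [bu]
  nlinarith [Nat.zero_le (bu H j), Nat.zero_le H, Nat.zero_le (H * bu H j)]

/-- **Bead lemma.** -/
theorem bead (d b : ℕ) : ∃ L : ℕ, ∀ K : ℕ, ∃ M N : ℕ, ∀ {V : Type} [Fintype V] [DecidableEq V]
    (G : SimpleGraph V) [DecidableRel G.Adj], (∀ v, G.degree v = 3) → Nonempty V → Gir G N →
    ∃ P : Finset V, Cyc G P ∧ dd G P ≤ M ∧ SepE G d b P ∧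
      (∀ S ⊆ P, S.Nonempty → Joined G S → S.card ≤ b →
        (d + 2) * ee G S Pᶜ ≤ S.card + (d + 2)) ∧
      ∀ Y ⊆ P, Cyc G Y → Cyc G (P \ Y) →
        K ≤ ee G Y (P \ Y) ∧ dd G P ≤ L * ee G Y (P \ Y) := by
  classical
  set A : ℕ := 6 * d + 13 with hAdef
  set H : ℕ := 6 * (d + 2) with hH
  set a : ℕ := bu H (2 * A + 1) with ha
  refine ⟨(A + H + 1) * (4 * a), fun K => ?_⟩
  set K' : ℕ := K + 1 with hK'
  set K₁ : ℕ := 4 * a * K' with hK₁
  set B₁ : ℕ := 2 * (d + 2) * (a * K') + b with hB₁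
  set B₀ : ℕ := (2 * d + 4) * K₁ + B₁ with hB₀
  set N : ℕ := B₀ + (A + H + 1) * K₁ + 1 with hN
  refine ⟨(A + H + 1) * K₁, N, ?_⟩
  intro V _ _ G _ h3 hV hg
  have ha1 : 1 ≤ a := by
    have h1 : bu H 1 ≤ bu H (2 * A + 1) := bu_mono H (by omega)
    have h2 : bu H 1 = 1 := by simp [bu]
    omega
  have hK1 : 0 < K₁ := by positivity
  -- a minimal cyclic set with a small border
  have huniv : Cyc G (univ : Finset V) := by
    intro hac
    have h1 := dd_of_acyclic G h3 (univ_nonempty) hac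
    have h2 : dd G (univ : Finset V) = 0 := by
      rw [dd_ee, compl_univ]
      simp [ee]
    omega
  have hdu : dd G (univ : Finset V) = 0 := by
    rw [dd_ee, compl_univ]
    simp [ee]
  obtain ⟨X, hX, hXmin⟩ := exists_min_image
    ((univ : Finset (Finset V)).filter fun X => Cyc G X ∧ dd G X ≤ K₁) (fun X => X.card)
    ⟨univ, by
      rw [mem_filter]
      exact ⟨mem_univ _, huniv, by omega⟩⟩
  rw [mem_filter] at hX
  obtain ⟨-, hXc, hXd⟩ := hX
  have hXm : ∀ Y ⊆ X, Y ≠ X → Cyc G Y → K₁ < dd G Y := by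
    intro Y hY hne hYc
    by_contra hcon
    have h1 := hXmin Y (by
      rw [mem_filter]
      exact ⟨mem_univ _, hYc, by omega⟩)
    have h2 := card_lt_card (hY.ssubset_of_ne hne)
    omega
  -- the first push
  obtain ⟨T₀, hT₀, hT₀c, hT₀e, hT₀s⟩ := push (G := G) (2 * d + 2) B₀ X
  have hT₀1 : T₀.card ≤ dd G T₀ := card_le_dd h3 hg (by omega)
  have hT₀x : ee G T₀ Xᶜ ≤ dd G X := by
    rw [dd_ee]
    exact ee_mono hT₀ (Subset.refl _)
  have hT₀2 : T₀.card ≤ (2 * d + 4) * K₁ := by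
    have h1 : (2 * d + 2 + 2) * T₀.card ≤ (2 * d + 2 + 2) * dd G T₀ := Nat.mul_le_mul_left _ hT₀1
    have h2 : (2 * d + 4) * ee G T₀ Xᶜ ≤ (2 * d + 4) * K₁ :=
      Nat.mul_le_mul_left _ (hT₀x.trans hXd)
    nlinarith
  obtain ⟨P₀, hP₀⟩ : ∃ P₀ : Finset V, P₀ = X \ T₀ := ⟨_, rfl⟩
  rw [← hP₀] at hT₀s
  have hP₀d : dd G P₀ ≤ A * K₁ := by
    have h1 := dd_sdiff_eq (G := G) hT₀
    rw [← hP₀] at h1
    have h2 := LS.dd_le_three h3 T₀
    have h4 : A * K₁ = K₁ + 3 * ((2 * d + 4) * K₁) := by rw [hAdef]; ring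
    omega
  have hP₀c : Cyc G P₀ := by
    intro hac
    have h1 := card_sdiff_add_card_eq_card hT₀
    rw [← hP₀] at h1
    have h2 := hXc.le_card hg
    have h4 : P₀.Nonempty := by
      rw [← card_pos]
      omega
    have h5 := dd_of_acyclic G h3 h4 hac
    have h6 : A * K₁ ≤ (A + H + 1) * K₁ := Nat.mul_le_mul_right _ (by omega)
    omega
  -- the thresholds
  set u : ℕ → ℕ := fun j => bu H j * K' with hu
  have hum : Monotone u := fun i j hij => Nat.mul_le_mul_right _ (bu_mono H hij)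
  obtain ⟨j, hj, Q, hQ, hQc, hQe, hQcut⟩ := thresh (G := G) (P₀ := P₀) (K₁ := K₁) (A := A) (H := H)
    (K' := K') hP₀c hP₀d
    (fun Y hY hne hYc => hXm Y (hY.trans (hP₀ ▸ sdiff_subset)) (by
      rintro rfl
      exact hne (Subset.antisymm hY (hP₀ ▸ sdiff_subset))) hYc) u (by simp [hu, bu])
    (fun j => by simp only [hu, bu]; ring) hum (by simp only [hu, ← ha, hK₁]; exact le_of_eq (by ring)) hK1
  have huj : u j ≤ a * K' := by
    have := hum (show j ≤ 2 * A + 1 by omega)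
    simpa only [hu, ← ha] using this
  -- the second push
  obtain ⟨T, hT, hTc, hTe, hTs⟩ := push (G := G) d B₁ Q
  have hTx : ee G T Qᶜ ≤ ee G T P₀ᶜ + ee G T (P₀ \ Q) := by
    rw [← ee_union_right]
    · refine ee_mono (Subset.refl _) ?_
      intro v hv
      rw [mem_union, mem_compl, mem_sdiff]
      by_cases h : v ∈ P₀
      · exact Or.inr ⟨h, mem_compl.1 hv⟩
      · exact Or.inl h
    · rw [Finset.disjoint_left]
      intro v h1 h2
      exact (mem_compl.1 h1) (mem_sdiff.1 h2).1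
  have hTold : 2 * (2 * d + 2 + 2) * ee G T P₀ᶜ + (2 * d + 2) * T.card ≤
      (2 * d + 2 + 2) * dd G T := hT₀s T (hT.trans hQ) (by omega)
  have hTnew : ee G T (P₀ \ Q) ≤ u j := (ee_mono hT (Subset.refl _)).trans hQe
  have hT2 : T.card ≤ 2 * (d + 2) * u j := by
    have h1 : 2 * (d + 2) * ee G T (P₀ \ Q) ≤ 2 * (d + 2) * u j := Nat.mul_le_mul_left _ hTnew
    have h2 : 2 * (d + 2) * ee G T Qᶜ ≤ 2 * (d + 2) * (ee G T P₀ᶜ + ee G T (P₀ \ Q)) :=
      Nat.mul_le_mul_left _ hTx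
    nlinarith
  have hT3 : dd G T ≤ H * u j := by
    have h1 := LS.dd_le_three h3 T
    have h2 : H * u j = 3 * (2 * (d + 2) * u j) := by rw [hH]; ring
    omega
  obtain ⟨P, hP⟩ : ∃ P : Finset V, P = Q \ T := ⟨_, rfl⟩
  rw [← hP] at hTs
  have hTB : T.card + b ≤ B₁ := by
    have h1 : 2 * (d + 2) * u j ≤ 2 * (d + 2) * (a * K') := Nat.mul_le_mul_left _ huj
    omega
  have hPd : dd G P ≤ (A + H + 1) * K₁ := by
    have h1 := dd_sdiff_eq (G := G) hT
    rw [← hP] at h1
    have h2 := dd_inner (G := G) hQ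
    have h4 : ee G Q P₀ᶜ ≤ dd G P₀ := by
      rw [dd_ee]
      exact ee_mono hQ (Subset.refl _)
    have h5 : a * K' ≤ K₁ := by
      rw [hK₁, mul_assoc]
      omega
    have h6 : H * u j ≤ H * K₁ := Nat.mul_le_mul_left _ (huj.trans h5)
    have h7 : (A + H + 1) * K₁ = A * K₁ + H * K₁ + K₁ := by ring
    omega
  have hSep : SepE G d b P := by
    intro S hS hSb
    exact hTs S hS (by omega)
  refine ⟨P, ?_, hPd, hSep, ?_, ?_⟩
  · intro hac
    have h1 := card_sdiff_add_card_eq_card hT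
    rw [← hP] at h1
    have h2 := hQc.le_card hg
    have h8 : B₁ ≤ B₀ := by omega
    have h4 : P.Nonempty := by
      rw [← card_pos]
      omega
    have h5 := dd_of_acyclic G h3 h4 hac
    omega
  · intro S hS hne hJ hSb
    have h1 := hSep S hS hSb
    have h2 := LS.dd_joined_le h3 hJ hne
    have h4 : (d + 2) * dd G S ≤ (d + 2) * (S.card + 2) := Nat.mul_le_mul_left _ h2
    nlinarith
  · intro Y hY hYc hYc'
    have hPQ : P ⊆ Q := hP ▸ sdiff_subset
    have hYQ : Y ⊆ Q := hY.trans hPQ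
    have h1 := hQcut Y hYQ hYc (hYc'.mono (sdiff_subset_sdiff hPQ (Subset.refl _)))
    have h2 : ee G Y (Q \ Y) ≤ ee G Y (P \ Y) + ee G Y T := by
      have hd : Disjoint (P \ Y) T := by
        rw [Finset.disjoint_left]
        intro v h1 h2
        have h3 := (mem_sdiff.1 h1).1
        rw [hP] at h3
        exact (mem_sdiff.1 h3).2 h2
      rw [← ee_union_right hd]
      refine ee_mono (Subset.refl _) ?_
      intro v hv
      rw [mem_sdiff] at hv
      rw [mem_union, mem_sdiff, hP, mem_sdiff]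
      by_cases h : v ∈ T
      · exact Or.inr h
      · exact Or.inl ⟨⟨hv.1, h⟩, hv.2⟩
    have h4 : ee G Y T ≤ dd G T := by
      rw [ee_comm, dd_ee]
      refine ee_mono (Subset.refl _) ?_
      intro v hv
      rw [mem_compl]
      have h3 := hY hv
      rw [hP] at h3
      exact (mem_sdiff.1 h3).2
    have h5 : K' ≤ ee G Y (P \ Y) := by omega
    refine ⟨by omega, hPd.trans ?_⟩
    calc (A + H + 1) * K₁ = (A + H + 1) * (4 * a) * K' := by rw [hK₁]; ring
      _ ≤ (A + H + 1) * (4 * a) * ee G Y (P \ Y) := Nat.mul_le_mul_left _ h5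


/-- A vertex of a ball is connected to the centre by a small joined set. -/
theorem exists_joined {P : Finset V} {v : V} (hv : v ∈ P) : ∀ (n : ℕ) (w : V),
    w ∈ Bl (inn G P).Adj n v → ∃ S ⊆ P, Joined G S ∧ v ∈ S ∧ w ∈ S ∧ S.card ≤ n + 1 := by
  intro n
  induction n with
  | zero =>
    intro w hw
    rw [mem_Bl_zero] at hw
    subst hw
    refine ⟨{w}, singleton_subset_iff.2 hv, ?_, mem_singleton_self _, mem_singleton_self _,
      by simp⟩
    intro A hA hne hA'
    exact absurd (hne.subset_singleton_iff.1 hA) hA'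
  | succ n ih =>
    intro w hw
    rw [mem_Bl_succ] at hw
    rcases hw with hw | ⟨u, hu, huw⟩
    · obtain ⟨S, h1, h2, h3, h4, h5⟩ := ih w hw
      exact ⟨S, h1, h2, h3, h4, by omega⟩
    · obtain ⟨S, h1, h2, h3, h4, h5⟩ := ih u hu
      by_cases hwS : w ∈ S
      · exact ⟨S, h1, h2, h3, hwS, by omega⟩
      refine ⟨insert w S, insert_subset huw.2.2 h1, ?_, mem_insert_of_mem h3,
        mem_insert_self _ _, by rw [card_insert_of_notMem hwS]; omega⟩
      intro A hA hne hA'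
      by_cases hwA : w ∈ A
      · rcases (A.erase w).eq_empty_or_nonempty with he | he
        · refine ⟨w, hwA, u, mem_insert_of_mem h4, ?_, huw.1.symm⟩
          intro huA
          have : u ∈ A.erase w := mem_erase.2 ⟨fun h => hwS (h ▸ h4), huA⟩
          rw [he] at this
          simp at this
        · have hs : A.erase w ⊆ S := by
            intro x hx
            rw [mem_erase] at hx
            exact (mem_insert.1 (hA hx.2)).resolve_left hx.1
          have hne' : A.erase w ≠ S := by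
            intro h
            apply hA'
            rw [← h, insert_erase hwA]
          obtain ⟨x, hx, y, hy, hyA, hxy⟩ := h2 _ hs he hne'
          refine ⟨x, (mem_erase.1 hx).2, y, mem_insert_of_mem hy, ?_, hxy⟩
          intro h
          exact hyA (mem_erase.2 ⟨fun h' => hwS (h' ▸ hy), h⟩)
      · have hs : A ⊆ S := by
          intro x hx
          exact (mem_insert.1 (hA hx)).resolve_left fun h => hwA (h ▸ hx)
        by_cases hAS : A = S
        · exact ⟨u, hAS ▸ h4, w, mem_insert_self _ _, hwA, huw.1⟩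
        · obtain ⟨x, hx, y, hy, hyA, hxy⟩ := h2 A hs hne hAS
          exact ⟨x, hx, y, mem_insert_of_mem hy, hyA, hxy⟩

end Pool.Agent.K5.BM

namespace Pool.Agent.K5

open Finset SimpleGraph Pool.Agent.Exp Pool.Agent.Log5 Pool.Agent.Log5.Clu

open BM in
/-- **Every cubic graph of large girth has a bead with a bounded number of boundary edges.** -/
theorem exists_isBead (D K : ℕ) : ∃ M N : ℕ, ∀ {V : Type} [Fintype V] [DecidableEq V]
    (G : SimpleGraph V) [DecidableRel G.Adj], (∀ v, G.degree v = 3) → Nonempty V → Gir G N →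
    ∃ P : Finset V, IsBead G D K P ∧ dd G P ≤ M := by
  classical
  obtain ⟨L, hL⟩ := bead D (D + 1)
  obtain ⟨M, N, hN⟩ := hL K
  refine ⟨M, N, ?_⟩
  intro V _ _ G _ h3 hV hg
  obtain ⟨P, h1, h2, -, h4, h5⟩ := hN G h3 hV hg
  have hone : ∀ S ⊆ P, S.Nonempty → Joined G S → S.card ≤ D + 1 → ee G S Pᶜ ≤ 1 := by
    intro S hS hne hJ hc
    have h6 := h4 S hS hne hJ hc
    by_contra hcon
    have h7 : (D + 2) * 2 ≤ (D + 2) * ee G S Pᶜ := Nat.mul_le_mul_left _ (by omega)
    omega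
  refine ⟨P, ⟨h1, ?_, ?_, fun A hA h6 h7 => (h5 A hA h6 h7).1⟩, h2⟩
  · intro v hv
    have h6 := hone {v} (singleton_subset_iff.2 hv) ⟨v, mem_singleton_self v⟩
      (by
        intro A hA hne hA'
        exact absurd (hne.subset_singleton_iff.1 hA) hA') (by simp)
    rw [ee_sum, sum_singleton] at h6
    refine le_trans (card_le_card ?_) h6
    intro u hu
    rw [mem_filter] at hu ⊢
    exact ⟨mem_compl.2 hu.2.2, hu.2.1⟩
  · intro v hv v' hv' hne hu hu' hb
    obtain ⟨S, h6, h7, h8, h9, h10⟩ := exists_joined hv D v' hb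
    have h11 := hone S h6 ⟨v, h8⟩ h7 h10
    obtain ⟨u, huP, huv⟩ := hu
    obtain ⟨u', huP', huv'⟩ := hu'
    have h12 : 2 ≤ ee G S Pᶜ := by
      unfold ee
      have h13 : ({(v, u), (v', u')} : Finset (V × V)).card = 2 := by
        rw [card_pair]
        intro h
        exact hne (congrArg Prod.fst h)
      rw [← h13]
      refine card_le_card ?_
      intro p hp
      rw [mem_insert, mem_singleton] at hp
      rw [mem_filter]
      rcases hp with rfl | rfl
      · exact ⟨mem_univ _, h8, mem_compl.2 huP, huv⟩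
      · exact ⟨mem_univ _, h9, mem_compl.2 huP', huv'⟩
    omega

end Pool.Agent.K5
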