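import Mathlib
import Pool.Agent.Work.MP_974d84_co_k5.Bead

/-!
# Beads inside a set (with the ratio of the cuts)
-/

set_option linter.unusedSectionVars false

namespace Pool.Agent.K5.BP

open Finset SimpleGraph Pool.Agent.Exp Pool.Agent.Log5 Pool.Agent.Log5.Clu

section

variable {V : Type} [Fintype V] [DecidableEq V] {G : SimpleGraph V} [DecidableRel G.Adj]

/-- The splitting process inside a set. -/
theorem bead_chain_in {P₀ P₁ : Finset V} {k₁ J : ℕ} (hP₁ : P₁ ⊆ P₀)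
    (hcyc : ¬ (G.induce (P₁ : Set V)).IsAcyclic) {T B : ℕ → ℕ} (hB0 : B 0 = 0)
    (hB : ∀ j, B (j + 1) = B j + T j) (hT : ∀ j, j ≤ J → 4 * T j ≤ k₁) :
    ∀ j, j ≤ J → (∃ i, i < j ∧ ∃ P ⊆ P₁, ¬ (G.induce (P : Set V)).IsAcyclic ∧
      ee G P (P₁ \ P) ≤ B i ∧ ∀ Y ⊆ P, ¬ (G.induce (Y : Set V)).IsAcyclic →
        ¬ (G.induce ((P \ Y : Finset V) : Set V)).IsAcyclic → T i ≤ ee G Y (P \ Y)) ∨
      ∃ P ⊆ P₁, ¬ (G.induce (P : Set V)).IsAcyclic ∧ ee G P (P₁ \ P) ≤ B j ∧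
        (1 ≤ j → P ⊂ P₁) ∧
        2 ^ j * (2 * ee G P (P₀ \ P)) + k₁ ≤ 2 * ee G P₁ (P₀ \ P₁) + 2 ^ j * k₁ := by
  intro j
  induction j with
  | zero =>
    intro _
    refine Or.inr ⟨P₁, Subset.refl _, hcyc, ?_, fun h => absurd h (by norm_num), ?_⟩
    · rw [hB0, sdiff_self, ee_comm, ee_sum]
      exact (Nat.le_of_eq (sum_empty))
    · simp
  | succ j ih =>
    intro hj
    rcases ih (by omega) with ⟨i, hi, h⟩ | ⟨P, hP, hPc, hPB, hPs, hPd⟩
    · exact Or.inl ⟨i, by omega, h⟩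
    by_cases hcut : ∀ Y ⊆ P, ¬ (G.induce (Y : Set V)).IsAcyclic →
        ¬ (G.induce ((P \ Y : Finset V) : Set V)).IsAcyclic → T j ≤ ee G Y (P \ Y)
    · exact Or.inl ⟨j, by omega, P, hP, hPc, hPB, hcut⟩
    right
    push Not at hcut
    obtain ⟨Y, hY, hYc, hYc', hYT⟩ := hcut
    have hT' := hT j (by omega)
    -- the leaving edges of a part
    have hpart : ∀ Z ⊆ P, ∀ Q : Finset V, P ⊆ Q →
        ee G Z (Q \ Z) = ee G Z (Q \ P) + ee G Z (P \ Z) := by
      intro Z hZ Q hPQ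
      have h1 : Q \ Z = (Q \ P) ∪ (P \ Z) := by
        ext v
        simp only [mem_sdiff, mem_union]
        constructor
        · rintro ⟨h1, h2⟩
          by_cases h3 : v ∈ P
          · exact Or.inr ⟨h3, h2⟩
          · exact Or.inl ⟨h1, h3⟩
        · rintro (⟨h1, h2⟩ | ⟨h1, h2⟩)
          · exact ⟨h1, fun h => h2 (hZ h)⟩
          · exact ⟨hPQ h1, h2⟩
      have h2 : Disjoint (Q \ P) (P \ Z) := by
        rw [Finset.disjoint_left]
        intro v h1 h2
        exact (mem_sdiff.1 h1).2 (mem_sdiff.1 h2).1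
      rw [h1, ee_union_right h2]
    have hsum : ee G Y (P₀ \ Y) + ee G (P \ Y) (P₀ \ (P \ Y)) =
        ee G P (P₀ \ P) + 2 * ee G Y (P \ Y) := by
      have h1 := hpart Y hY P₀ (hP.trans hP₁)
      have h2 := hpart (P \ Y) sdiff_subset P₀ (hP.trans hP₁)
      rw [sdiff_sdiff_right_self, inf_eq_inter, inter_eq_right.2 hY, ee_comm (P \ Y) Y] at h2
      have h4 : ee G P (P₀ \ P) = ee G Y (P₀ \ P) + ee G (P \ Y) (P₀ \ P) := by
        rw [← ee_union_left disjoint_sdiff, union_sdiff_of_subset hY]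
      omega
    -- the smaller part
    have key : ∀ Z ⊆ P, ¬ (G.induce (Z : Set V)).IsAcyclic →
        ¬ (G.induce ((P \ Z : Finset V) : Set V)).IsAcyclic → ee G Z (P \ Z) < T j →
        2 * ee G Z (P₀ \ Z) ≤ ee G P (P₀ \ P) + 2 * T j →
        ∃ P' ⊆ P₁, ¬ (G.induce (P' : Set V)).IsAcyclic ∧
        ee G P' (P₁ \ P') ≤ B (j + 1) ∧ (1 ≤ j + 1 → P' ⊂ P₁) ∧
        2 ^ (j + 1) * (2 * ee G P' (P₀ \ P')) + k₁ ≤
          2 * ee G P₁ (P₀ \ P₁) + 2 ^ (j + 1) * k₁ := by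
      intro Z hZ hZc hZc' hZT hZd
      refine ⟨Z, hZ.trans hP, hZc, ?_, fun _ => ?_, ?_⟩
      · rw [hpart Z hZ P₁ hP, hB]
        have h4 : ee G Z (P₁ \ P) ≤ ee G P (P₁ \ P) := ee_mono hZ (Subset.refl _)
        omega
      · refine ⟨hZ.trans hP, fun h => hZc' ?_⟩
        have h1 : P \ Z = ∅ := sdiff_eq_empty_iff_subset.2 (hP.trans h)
        rw [h1, coe_empty]
        exact SimpleGraph.IsAcyclic.of_subsingleton
      · have h1 : 4 * ee G Z (P₀ \ Z) ≤ 2 * ee G P (P₀ \ P) + k₁ := by omega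
        have h2 := Nat.mul_le_mul_left (2 ^ j) h1
        have h4 : 2 ^ (j + 1) * (2 * ee G Z (P₀ \ Z)) = 2 ^ j * (4 * ee G Z (P₀ \ Z)) := by ring
        have h5 : 2 ^ j * (2 * ee G P (P₀ \ P) + k₁) =
            2 ^ j * (2 * ee G P (P₀ \ P)) + 2 ^ j * k₁ := by ring
        have h6 : 2 ^ (j + 1) * k₁ = 2 ^ j * k₁ + 2 ^ j * k₁ := by ring
        omega
    by_cases hle : ee G Y (P₀ \ Y) ≤ ee G (P \ Y) (P₀ \ (P \ Y))
    · exact key Y hY hYc hYc' hYT (by omega)
    · refine key (P \ Y) sdiff_subset hYc' ?_ ?_ (by omega)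
      · rwa [sdiff_sdiff_right_self, inf_eq_inter, inter_eq_right.2 hY]
      · rw [sdiff_sdiff_right_self, inf_eq_inter, inter_eq_right.2 hY, ee_comm]
        exact hYT

/-- Pushes inside a set with a boundary which is far apart. -/
theorem adm_le_in {N : ℕ} {P₀ : Finset V}
    (hsep : ∀ S ⊆ P₀, S.card < N → S.card + 2 * ee G S P₀ᶜ ≤ dd G S) {D : ℕ} {X F : Finset V}
    {s : ℕ} (hX : X ⊆ P₀) (h : Adm G D X F s) (hs : D * s < N) : s ≤ ee G X (P₀ \ X) := by
  obtain ⟨hF, hc, hd⟩ := h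
  have h1 := hsep F (hF.trans hX) (by omega)
  have h2 := bead_sdiff (G := G) hF
  have h4 := bead_ee_compl (G := G) (F := F) hX
  have h5 : ee G F (P₀ \ X) ≤ ee G X (P₀ \ X) := ee_mono hF (Subset.refl _)
  omega

end

/-- **Bead lemma inside a set.** Let `P₀` contain a circuit, have large girth and a boundary which is
far apart. Then `P₀` contains a set `P` such that the edges leaving `P` are far apart in `P` and all
cyclic cuts of `P` are large, also in comparison with the number of the edges from `P` to the rest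
of `P₀`. -/
theorem exists_bead_in (D : ℕ) : ∃ K : ℕ, ∀ k₀ : ℕ, ∃ N : ℕ, ∀ {V : Type} [Fintype V]
    [DecidableEq V] (G : SimpleGraph V) [DecidableRel G.Adj], (∀ v, G.degree v = 3) →
    ∀ P₀ : Finset V, ¬ (G.induce (P₀ : Set V)).IsAcyclic →
    (∀ S ⊆ P₀, S.card < N → (G.induce (S : Set V)).IsAcyclic) →
    (∀ S ⊆ P₀, S.card < N → S.card + 2 * ee G S P₀ᶜ ≤ dd G S) →
    ∃ P ⊆ P₀, ¬ (G.induce (P : Set V)).IsAcyclic ∧ FarB G D P ∧
      ∀ Y ⊆ P, ¬ (G.induce (Y : Set V)).IsAcyclic →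
        ¬ (G.induce ((P \ Y : Finset V) : Set V)).IsAcyclic →
        k₀ ≤ ee G Y (P \ Y) ∧ ee G P (P₀ \ P) ≤ K * ee G Y (P \ Y) := by
  set E : ℕ := D + 1 with hE
  set θ : ℕ := 12 * E + 1 with hθ
  set J : ℕ := 12 * E + 2 with hJ
  refine ⟨(2 + 12 * E) * (8 * θ ^ J), fun k₀ => ?_⟩
  set T : ℕ → ℕ := fun j => 2 * (k₀ + 1) * θ ^ j with hT
  set B : ℕ → ℕ := fun j => ∑ i ∈ range j, T i with hB
  have hB0 : B 0 = 0 := by simp [hB]
  have hBs : ∀ j, B (j + 1) = B j + T j := fun j => sum_range_succ _ _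
  set k₁ : ℕ := 4 * T J with hk₁
  have hTJ : ∀ j, j ≤ J → T j ≤ T J := fun j hj =>
    Nat.mul_le_mul_left _ (Nat.pow_le_pow_right (by omega) hj)
  have hT0 : ∀ j, 2 * (k₀ + 1) ≤ T j := fun j =>
    Nat.le_mul_of_pos_right _ (Nat.pow_pos (by omega))
  have hk₁0 : 0 < k₁ := by
    have := hT0 J
    omega
  have hE1 : 1 ≤ E := by omega
  have hEk : k₁ ≤ E * k₁ := Nat.le_mul_of_pos_left _ hE1
  refine ⟨2 * E * (2 * k₁ + 1) + 10 * (E * k₁) + 1,
    fun {V} _ _ G _ h3 P₀ hP₀c hg hsep => ?_⟩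
  classical
  -- the minimal cyclic side
  obtain ⟨X, hX, hXmin⟩ := exists_min_image ((univ : Finset (Finset V)).filter fun S : Finset V =>
      S ⊆ P₀ ∧ ¬ (G.induce (S : Set V)).IsAcyclic ∧ ee G S (P₀ \ S) < k₁) card
    ⟨P₀, mem_filter.2 ⟨mem_univ _, Subset.refl _, hP₀c, by
      rw [sdiff_self, ee_comm, ee_sum]
      exact (Nat.le_of_eq (sum_empty)).trans_lt hk₁0⟩⟩
  obtain ⟨-, hXP, hXc, hXd⟩ := mem_filter.1 hX
  have hmin : ∀ Y ⊂ X, ¬ (G.induce (Y : Set V)).IsAcyclic → k₁ ≤ ee G Y (P₀ \ Y) := by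
    intro Y hY hYc
    by_contra hlt
    have h1 := hXmin Y (mem_filter.2 ⟨mem_univ _, hY.1.trans hXP, hYc, not_le.1 hlt⟩)
    exact absurd (card_lt_card hY) (not_lt.2 h1)
  have hbig : ∀ P : Finset V, P ⊆ P₀ → ¬ (G.induce (P : Set V)).IsAcyclic →
      2 * E * (2 * k₁ + 1) + 10 * (E * k₁) + 1 ≤ P.card := fun P hPs hP => by
    by_contra h
    exact hP (hg P hPs (not_le.1 h))
  -- the first push
  obtain ⟨F, s, hA, hsL, hmax⟩ := exists_push (G := G) (2 * E) (2 * k₁ + 1) X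
  have hs : s ≤ ee G X (P₀ \ X) := adm_le_in hsep hXP hA (by
    have := Nat.mul_le_mul_left (2 * E) hsL
    omega)
  have hFc : F.card ≤ 2 * (E * k₁) := by
    refine hA.2.1.trans ?_
    rw [Nat.mul_assoc]
    exact Nat.mul_le_mul_left _ (Nat.mul_le_mul_left _ (by omega))
  have hXF : (X \ F).card + F.card = X.card := card_sdiff_add_card_eq_card hA.1
  have hfar₁ := adm_far h3 hA (by omega) hmax
  have hP₁c : ¬ (G.induce ((X \ F : Finset V) : Set V)).IsAcyclic := by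
    refine hfar₁.cyc h3 (by omega) (card_pos.1 ?_)
    have h1 := hbig X hXP hXc
    omega
  have hP₁d : ee G (X \ F) (P₀ \ (X \ F)) ≤ k₁ + 6 * (E * k₁) := by
    have h1 : P₀ \ (X \ F) ⊆ (P₀ \ X) ∪ F := by
      intro v hv
      rw [mem_sdiff, mem_sdiff, not_and, not_not] at hv
      rw [mem_union, mem_sdiff]
      by_cases h : v ∈ X
      · exact Or.inr (hv.2 h)
      · exact Or.inl ⟨hv.1, h⟩
    have h2 : Disjoint (P₀ \ X) F := by
      rw [Finset.disjoint_left]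
      intro v h1 h2
      exact (mem_sdiff.1 h1).2 (hA.1 h2)
    have h4 : ee G (X \ F) (P₀ \ (X \ F)) ≤ ee G (X \ F) (P₀ \ X) + ee G (X \ F) F := by
      rw [← ee_union_right h2]
      exact ee_mono (Subset.refl _) h1
    have h5 : ee G (X \ F) (P₀ \ X) ≤ ee G X (P₀ \ X) := ee_mono sdiff_subset (Subset.refl _)
    have h6 := bead_ee_le h3 F (X \ F)
    rw [ee_comm] at h6
    omega
  -- the splitting process
  rcases bead_chain_in (G := G) (k₁ := k₁) (J := J) (sdiff_subset.trans hXP) hP₁c hB0 hBs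
      (fun j hj => Nat.mul_le_mul_left _ (hTJ j hj)) J le_rfl with
    ⟨i, hi, P, hP, hPc, hPB, hcut⟩ | ⟨P, hP, hPc, -, hPs, hPd⟩
  · have hnum := bead_num (D := E) (2 * (k₀ + 1)) (T := T) (B := B) (fun j => rfl) hB0 hBs i
    have hTi := hTJ i hi.le
    have hT0i := hT0 i
    set n : ℕ := ee G P ((X \ F) \ P) with hn
    have hnT : 12 * (E * n) ≤ T i := by
      have := Nat.mul_le_mul_left (12 * E) hPB
      rw [Nat.mul_assoc] at this
      exact this.trans hnum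
    have hEn : n ≤ E * n := Nat.le_mul_of_pos_left _ hE1
    have hPP₀ : P ⊆ P₀ := hP.trans (sdiff_subset.trans hXP)
    -- the second push
    obtain ⟨F', s', hA', hsL', hmax'⟩ := exists_push (G := G) E (2 * n + 1) P
    have hs' : s' ≤ 2 * n := by
      by_contra hlt
      have h1 : s' = 2 * n + 1 := by omega
      rw [h1] at hA'
      have h2 := hmax _ _ (adm_union hA hP le_rfl hA') (by omega)
      omega
    have hF'c : F'.card ≤ 2 * (E * n) := by
      refine hA'.2.1.trans ((Nat.mul_le_mul_left E hs').trans (le_of_eq ?_))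
      ring
    have hfar := adm_far h3 hA' (by omega) hmax'
    have hPF : (P \ F').card + F'.card = P.card := card_sdiff_add_card_eq_card hA'.1
    have hP'd : ee G (P \ F') (P₀ \ (P \ F')) ≤ 2 * k₁ + 12 * (E * k₁) := by
      have h1 : P₀ \ (P \ F') ⊆ ((P₀ \ (X \ F)) ∪ ((X \ F) \ P)) ∪ F' := by
        intro v hv
        rw [mem_sdiff, mem_sdiff, not_and, not_not] at hv
        rw [mem_union, mem_union, mem_sdiff, mem_sdiff (s := X \ F)]
        by_cases h : v ∈ P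
        · exact Or.inr (hv.2 h)
        · by_cases h' : v ∈ X \ F
          · exact Or.inl (Or.inr ⟨h', h⟩)
          · exact Or.inl (Or.inl ⟨hv.1, h'⟩)
      have h2 : ee G (P \ F') (P₀ \ (P \ F')) ≤
          ee G (P \ F') (P₀ \ (X \ F)) + ee G (P \ F') ((X \ F) \ P) +
            ee G (P \ F') F' := by
        refine (ee_mono (Subset.refl _) h1).trans ?_
        exact (bead_ee_union_le _ _ _).trans
          (Nat.add_le_add_right (bead_ee_union_le _ _ _) _)
      have h4 : ee G (P \ F') (P₀ \ (X \ F)) ≤ ee G (X \ F) (P₀ \ (X \ F)) :=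
        ee_mono (sdiff_subset.trans hP) (Subset.refl _)
      have h5 : ee G (P \ F') ((X \ F) \ P) ≤ n := ee_mono sdiff_subset (Subset.refl _)
      have h6 := bead_ee_le h3 F' (P \ F')
      rw [ee_comm] at h6
      omega
    refine ⟨P \ F', sdiff_subset.trans hPP₀, ?_, hfar.mono (by omega), ?_⟩
    · refine hfar.cyc h3 hE1 (card_pos.1 ?_)
      have h1 := hbig P hPP₀ hPc
      omega
    · intro Y hY hYc hYc'
      have h1 : P \ (Y ∪ F') = (P \ F') \ Y := by
        rw [union_comm, sdiff_sdiff_left, sup_eq_union]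
      have h2 : Disjoint Y F' := by
        rw [Finset.disjoint_left]
        intro v h1 h2
        exact (mem_sdiff.1 (hY h1)).2 h2
      have h4 := hcut (Y ∪ F') (union_subset (hY.trans sdiff_subset) hA'.1)
        (not_acyclic_mono subset_union_left hYc) (by rwa [h1])
      rw [h1, ee_union_left h2] at h4
      have h5 := bead_ee_le h3 F' ((P \ F') \ Y)
      have h6 : k₀ + 1 ≤ ee G Y ((P \ F') \ Y) := by omega
      refine ⟨by omega, ?_⟩
      calc ee G (P \ F') (P₀ \ (P \ F')) ≤ 2 * k₁ + 12 * (E * k₁) := hP'd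
        _ = (2 + 12 * E) * (8 * θ ^ J) * (k₀ + 1) := by
            simp only [hk₁, hT]
            ring
        _ ≤ _ := Nat.mul_le_mul_left _ h6
  · exfalso
    have h1 : P ⊂ X := (hPs (by omega)).trans_subset sdiff_subset
    have h2 := hmin P h1 hPc
    have h4 : J < 2 ^ J := Nat.lt_two_pow_self
    have h5 : 2 ^ J * (2 * k₁) ≤ 2 ^ J * (2 * ee G P (P₀ \ P)) :=
      Nat.mul_le_mul_left _ (Nat.mul_le_mul_left _ h2)
    have h6 : 2 ^ J * (2 * k₁) = 2 ^ J * k₁ + 2 ^ J * k₁ := by ring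
    have h7 : (12 * E + 3) * k₁ ≤ 2 ^ J * k₁ := Nat.mul_le_mul_right _ (by omega)
    have h8 : (12 * E + 3) * k₁ = 12 * (E * k₁) + 3 * k₁ := by ring
    omega

end Pool.Agent.K5.BP
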