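import Mathlib
import Pool.Agent.Work.MP_974d84_co_k5.BeadT

/-!
# Beads inside a vertex set whose small connected subsets contain few independent circuits
-/

set_option linter.unusedSectionVars false

namespace Pool.Agent.K5

open Finset SimpleGraph Pool.Agent.Exp Pool.Agent.Log5 Pool.Agent.Log5.Clu

section

variable {V : Type} [Fintype V] [DecidableEq V] {G : SimpleGraph V} [DecidableRel G.Adj]

/-- A family of small connected subsets of `X` which are pairwise disjoint and not adjacent. -/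
def FamX (G : SimpleGraph V) [DecidableRel G.Adj] (X : Finset V) (R : ℕ)
    (F : Finset (Finset V)) : Prop :=
  (∀ S ∈ F, S ⊆ X ∧ S.Nonempty ∧ Joined G S ∧ S.card ≤ R) ∧
    ∀ S ∈ F, ∀ S' ∈ F, S ≠ S' → Disjoint S S' ∧ ee G S S' = 0

/-- The bonus of a set: the edges leaving `X` count twice. -/
def bon (G : SimpleGraph V) [DecidableRel G.Adj] (X S : Finset V) : ℕ :=
  if ee G S Xᶜ = 0 then 1 else 2 * ee G S Xᶜ

/-- The value of a set. -/
def fvalX (G : SimpleGraph V) [DecidableRel G.Adj] (X : Finset V) (L : ℕ) (S : Finset V) : ℤ :=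
  L * ((dd G S : ℤ) - S.card - bon G X S) + 2 * S.card

/-- If the small connected subsets of `X` contain at most `t` independent circuits, and `X` is
large compared with its boundary, then `X` contains a nonempty set of large girth whose boundary
is far apart. -/
theorem exists_far_x (h3 : ∀ v, G.degree v = 3) {X : Finset V} {g t R : ℕ}
    (hR : g + (2 * g + 1) * dd G X + 3 * g * ((2 * g + 1) * t) ≤ R)
    (hconn : ∀ A : Finset V, A.Nonempty → dd G A = 0 → A = univ) (hX : X.Nonempty)
    (hXd : (2 * g + 1) * (t + 1) * dd G X < X.card)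
    (hcard : 2 * t ≤ Fintype.card V)
    (hLU : ∀ S ⊆ X, S.card ≤ R → S.Nonempty → Joined G S → S.card + 2 ≤ dd G S + 2 * t) :
    ∃ W ⊆ X, W.Nonempty ∧
      (∀ Q ⊆ W, Q.card ≤ g → (G.induce (Q : Set V)).IsAcyclic) ∧ FarB G g W := by
  classical
  set L : ℕ := 2 * g + 1 with hL
  obtain ⟨F, hF, hmin⟩ := exists_min_image
    ((univ : Finset (Finset (Finset V))).filter (FamX G X R))
    (fun F => ∑ S ∈ F, fvalX G X L S) ⟨∅, mem_filter.2 ⟨mem_univ _, by simp [FamX]⟩⟩
  rw [mem_filter] at hF
  obtain ⟨-, hF1, hF2⟩ := hF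
  have hLt : (0 : ℤ) ≤ L := Int.natCast_nonneg _
  -- the members are small
  have hdrop : ∀ S ∈ F, fvalX G X L S ≤ 0 := by
    intro S hS
    have h1 := hmin (F.erase S) (mem_filter.2 ⟨mem_univ _,
      fun S' hS' => hF1 S' (mem_of_mem_erase hS'),
      fun S' hS' S'' hS'' => hF2 S' (mem_of_mem_erase hS') S'' (mem_of_mem_erase hS'')⟩)
    have h2 : fvalX G X L S + ∑ S ∈ F.erase S, fvalX G X L S = ∑ S ∈ F, fvalX G X L S :=
      add_sum_erase F (fun S => fvalX G X L S) hS
    have h4 : ∑ S ∈ F, fvalX G X L S ≤ ∑ S ∈ F.erase S, fvalX G X L S := h1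
    linarith
  have hsmall2 : ∀ S ∈ F, 2 * (S.card : ℤ) ≤ L * ((bon G X S : ℤ) - 2 + 2 * t) := by
    intro S hS
    obtain ⟨hSX, hne, hj, hc⟩ := hF1 S hS
    have h1 := hdrop S hS
    have h2 := hLU S hSX hc hne hj
    unfold fvalX at h1
    have h4 : (2 : ℤ) - 2 * t - bon G X S ≤ (dd G S : ℤ) - S.card - bon G X S := by omega
    have h5 : (L : ℤ) * (2 - 2 * t - bon G X S) ≤ L * ((dd G S : ℤ) - S.card - bon G X S) :=
      mul_le_mul_of_nonneg_left h4 hLt
    have h6 : (L : ℤ) * (2 - 2 * t - bon G X S) = - (L * ((bon G X S : ℤ) - 2 + 2 * t)) := by ring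
    linarith
  have hbon : ∀ S, (bon G X S : ℤ) ≤ 2 * ee G S Xᶜ + 1 := by
    intro S
    unfold bon
    split_ifs with h
    · rw [h]; norm_num
    · push_cast; linarith
  have hsmall : ∀ S ∈ F, S.card ≤ L * (ee G S Xᶜ + t) := by
    intro S hS
    have h1 := hsmall2 S hS
    have h2 := hbon S
    have h4 : (L : ℤ) * ((bon G X S : ℤ) - 2 + 2 * t) ≤ L * (2 * (ee G S Xᶜ + t)) :=
      mul_le_mul_of_nonneg_left (by linarith) hLt
    have h5 : (L : ℤ) * (2 * (ee G S Xᶜ + t)) = 2 * (L * (ee G S Xᶜ + t)) := by ring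
    have h6 : (S.card : ℤ) ≤ L * (ee G S Xᶜ + t) := by linarith
    exact_mod_cast h6
  set W : Finset V := X \ F.biUnion id with hW
  have hWX : W ⊆ X := sdiff_subset
  have hWc : Wᶜ = Xᶜ ∪ F.biUnion id := by
    ext v
    simp only [hW, mem_compl, mem_sdiff, mem_union, not_and, not_not]
    constructor
    · intro h
      by_cases hv : v ∈ X
      · exact Or.inr (h hv)
      · exact Or.inl hv
    · rintro (h | h) hv
      · exact absurd hv h
      · exact h
  have hXF : Disjoint Xᶜ (F.biUnion id) := by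
    rw [disjoint_biUnion_right]
    intro S hS
    rw [Finset.disjoint_left]
    intro v h1 h2
    exact mem_compl.1 h1 ((hF1 S hS).1 h2)
  have hdX : ∀ M ⊆ F, ∑ S ∈ M, ee G S Xᶜ ≤ dd G X := by
    intro M hM
    have h1 := ee_biUnion_left (G := G) M id (fun S hS S' hS' hne =>
      (hF2 S (hM hS) S' (hM hS') hne).1) Xᶜ
    simp only [id] at h1
    rw [← h1, dd_ee]
    refine ee_mono ?_ (Subset.refl _)
    rw [biUnion_subset]
    exact fun S hS => (hF1 S (hM hS)).1
  -- adding a connected set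
  have key : ∀ Q ⊆ W, Q.Nonempty → Joined G Q → Q.card ≤ g →
      (ee G Q Wᶜ ≤ 1 ∨ Q.card + 3 ≤ dd G Q) ∧ Q.card + 1 ≤ dd G Q := by
    intro Q hQ hQne hQj hQc
    have hQS : ∀ S ∈ F, Disjoint Q S := by
      intro S hS
      rw [Finset.disjoint_left]
      intro v h1 h2
      exact (mem_sdiff.1 (hQ h1)).2 (mem_biUnion.2 ⟨S, hS, h2⟩)
    set M := F.filter fun S => ee G Q S ≠ 0 with hM
    set M' := F.filter fun S => ¬ ee G Q S ≠ 0 with hM'
    have hMF : M ⊆ F := filter_subset _ _
    obtain ⟨j1, j2, j3⟩ := merge_fam (G := G) hQj M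
      (fun S hS => ⟨(hF1 S (mem_filter.1 hS).1).2.2.1, hQS S (mem_filter.1 hS).1,
        (mem_filter.1 hS).2⟩)
      (fun S hS S' hS' => hF2 S (mem_filter.1 hS).1 S' (mem_filter.1 hS').1)
    set U := Q ∪ M.biUnion id with hU
    have he : ee G Q (F.biUnion id) = ∑ S ∈ M, ee G Q S := by
      rw [ee_comm, ee_biUnion_left F id (fun S hS S' hS' hne => (hF2 S hS S' hS' hne).1), hM,
        sum_filter_ne_zero]
      exact sum_congr rfl fun S _ => ee_comm _ _
    have heW : ee G Q Wᶜ = ee G Q Xᶜ + ee G Q (F.biUnion id) := by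
      rw [hWc, ee_union_right hXF]
    have hMe : M.card ≤ ee G Q (F.biUnion id) := by
      rw [he, card_eq_sum_ones]
      exact sum_le_sum fun S hS => Nat.one_le_iff_ne_zero.2 (mem_filter.1 hS).2
    have he3 := bead_ee_le (G := G) h3 Q (F.biUnion id)
    have hUc : U.card ≤ R := by
      have h1 : ∑ S ∈ M, S.card ≤ ∑ S ∈ M, L * (ee G S Xᶜ + t) :=
        sum_le_sum fun S hS => hsmall S (hMF hS)
      have h2 : ∑ S ∈ M, L * (ee G S Xᶜ + t) = L * (∑ S ∈ M, ee G S Xᶜ) + M.card * (L * t) := by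
        rw [← mul_sum, sum_add_distrib, sum_const, smul_eq_mul]
        ring
      have h4 : M.card * (L * t) ≤ 3 * g * (L * t) := Nat.mul_le_mul_right _ (by omega)
      have h5 : L * (∑ S ∈ M, ee G S Xᶜ) ≤ L * dd G X := Nat.mul_le_mul_left _ (hdX M hMF)
      omega
    have hUne : U.Nonempty := hQne.mono subset_union_left
    have hUX : U ⊆ X := by
      refine union_subset (hQ.trans hWX) ?_
      rw [biUnion_subset]
      exact fun S hS => (hF1 S (hMF hS)).1
    have hUM : U ∉ M' := by
      intro h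
      obtain ⟨v, hv⟩ := hQne
      exact Finset.disjoint_left.1 (hQS U (mem_filter.1 h).1) hv (mem_union_left _ hv)
    have hQM : Disjoint Q (M.biUnion id) := by
      rw [disjoint_biUnion_right]
      exact fun S' hS' => hQS S' (mem_filter.1 hS').1
    have hcross : ∀ S ∈ M', Disjoint U S ∧ ee G U S = 0 := by
      intro S hS
      obtain ⟨hSF, hSe⟩ := mem_filter.1 hS
      have hne : ∀ S' ∈ M, S' ≠ S := fun S' hS' h => hSe (h ▸ (mem_filter.1 hS').2)
      refine ⟨disjoint_union_left.2 ⟨hQS S hSF, ?_⟩, ?_⟩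
      · rw [disjoint_biUnion_left]
        exact fun S' hS' => (hF2 S' (mem_filter.1 hS').1 S hSF (hne S' hS')).1
      · rw [hU, ee_union_left hQM, not_not.1 hSe, zero_add,
          ee_biUnion_left M id (fun S hS S' hS' hne =>
            (hF2 S (mem_filter.1 hS).1 S' (mem_filter.1 hS').1 hne).1)]
        exact sum_eq_zero fun S' hS' => (hF2 S' (mem_filter.1 hS').1 S hSF (hne S' hS')).2
    have hfam : FamX G X R (insert U M') := by
      refine ⟨?_, ?_⟩
      · intro S hS
        rcases mem_insert.1 hS with rfl | hS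
        · exact ⟨hUX, hUne, j1, hUc⟩
        · exact hF1 S (mem_filter.1 hS).1
      · intro S hS S' hS' hne
        rcases mem_insert.1 hS with rfl | hS
        · rcases mem_insert.1 hS' with rfl | hS'
          · exact absurd rfl hne
          · exact hcross S' hS'
        · rcases mem_insert.1 hS' with rfl | hS'
          · exact ⟨(hcross S hS).1.symm, by rw [ee_comm]; exact (hcross S hS).2⟩
          · exact hF2 S (mem_filter.1 hS).1 S' (mem_filter.1 hS').1 hne
    have h1 : ∑ S ∈ F, fvalX G X L S ≤ ∑ S ∈ insert U M', fvalX G X L S :=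
      hmin (insert U M') (mem_filter.2 ⟨mem_univ _, hfam⟩)
    rw [sum_insert hUM, ← sum_filter_add_sum_filter_not F (fun S => ee G Q S ≠ 0)] at h1
    have h2 : ∑ S ∈ M, fvalX G X L S ≤ fvalX G X L U := by
      have : ∑ S ∈ M, fvalX G X L S + ∑ S ∈ M', fvalX G X L S ≤
        fvalX G X L U + ∑ S ∈ M', fvalX G X L S := h1
      linarith
    have h4 : ∑ S ∈ M, fvalX G X L S = L * ((∑ S ∈ M, dd G S : ℕ) - (∑ S ∈ M, S.card : ℕ) -
        (∑ S ∈ M, bon G X S : ℕ)) + 2 * (∑ S ∈ M, S.card : ℕ) := by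
      unfold fvalX
      push_cast
      rw [sum_add_distrib, ← mul_sum, ← mul_sum, sum_sub_distrib, sum_sub_distrib]
    rw [h4] at h2
    unfold fvalX at h2
    rw [← he] at j3
    have h5 : (dd G U : ℤ) = dd G Q + (∑ S ∈ M, dd G S : ℕ) - 2 * ee G Q (F.biUnion id) := by omega
    have h6 : (U.card : ℤ) = Q.card + (∑ S ∈ M, S.card : ℕ) := by omega
    rw [h5, h6] at h2
    -- the coefficient is not negative
    have hcoef : (0 : ℤ) ≤ (dd G Q : ℤ) - 2 * ee G Q (F.biUnion id) - Q.card - bon G X U +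
        (∑ S ∈ M, bon G X S : ℕ) := by
      by_contra hcon
      have h7 : (dd G Q : ℤ) - 2 * ee G Q (F.biUnion id) - Q.card - bon G X U +
        (∑ S ∈ M, bon G X S : ℕ) ≤ -1 := by omega
      have h8 : (L : ℤ) * ((dd G Q : ℤ) - 2 * ee G Q (F.biUnion id) - Q.card - bon G X U +
        (∑ S ∈ M, bon G X S : ℕ)) ≤ L * (-1) := mul_le_mul_of_nonneg_left h7 hLt
      have h9 : (L : ℤ) = 2 * g + 1 := by rw [hL]; push_cast; ring
      have h10 : (Q.card : ℤ) ≤ g := by exact_mod_cast hQc
      generalize (∑ S ∈ M, dd G S : ℕ) = a at *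
      generalize (∑ S ∈ M, S.card : ℕ) = b at *
      generalize (∑ S ∈ M, bon G X S : ℕ) = c at *
      nlinarith
    -- the bonuses
    have hUe : ee G U Xᶜ = ee G Q Xᶜ + ∑ S ∈ M, ee G S Xᶜ := by
      rw [hU, ee_union_left hQM]
      congr 1
      exact ee_biUnion_left M id (fun S hS S' hS' hne => (hF2 S (hMF hS) S' (hMF hS') hne).1) Xᶜ
    have hb : (∑ S ∈ M, bon G X S : ℕ) = 2 * (∑ S ∈ M, ee G S Xᶜ) +
        (M.filter fun S => ee G S Xᶜ = 0).card := by
      rw [mul_sum, card_filter, ← sum_add_distrib]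
      refine sum_congr rfl fun S _ => ?_
      unfold bon
      split_ifs with h
      · rw [h, mul_zero, zero_add]
      · rfl
    have hu1 : (M.filter fun S => ee G S Xᶜ = 0).card ≤ M.card := card_filter_le _ _
    have hu2 : (∑ S ∈ M, ee G S Xᶜ) ≠ 0 → (M.filter fun S => ee G S Xᶜ = 0).card < M.card := by
      intro h
      obtain ⟨S, hS, hS0⟩ := exists_ne_zero_of_sum_ne_zero h
      exact card_lt_card (filter_ssubset.2 ⟨S, hS, hS0⟩)
    have hbU : bon G X U = if ee G Q Xᶜ + ∑ S ∈ M, ee G S Xᶜ = 0 then 1 else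
        2 * (ee G Q Xᶜ + ∑ S ∈ M, ee G S Xᶜ) := by
      unfold bon
      rw [hUe]
    rw [hb, hbU] at hcoef
    rw [heW]
    generalize (∑ S ∈ M, ee G S Xᶜ) = c at *
    generalize (M.filter fun S => ee G S Xᶜ = 0).card = u at *
    generalize ee G Q (F.biUnion id) = e at *
    generalize ee G Q Xᶜ = m at *
    by_cases hc0 : m + c = 0
    · rw [if_pos hc0] at hcoef
      have hm0 : m = 0 := by omega
      have hc0' : c = 0 := by omega
      subst hm0 hc0'
      push_cast at hcoef
      constructor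
      · by_cases h : e ≤ 1
        · left; omega
        · right; omega
      · omega
    · rw [if_neg hc0] at hcoef
      push_cast at hcoef
      constructor
      · by_cases h : m + e ≤ 1
        · left; exact h
        · right
          by_cases hc1 : c = 0
          · omega
          · have := hu2 hc1
            omega
      · by_cases hc1 : c = 0
        · omega
        · have := hu2 hc1
          omega
  refine ⟨W, hWX, ?_, ?_, ?_⟩
  · by_contra hcon
    rw [not_nonempty_iff_eq_empty, hW, sdiff_eq_empty_iff_subset] at hcon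
    by_cases hall : ∀ S ∈ F, ee G S Xᶜ ≠ 0
    · -- all members are attached
      have h1 : X.card ≤ ∑ S ∈ F, S.card := (card_le_card hcon).trans card_biUnion_le
      have h2 : ∑ S ∈ F, S.card ≤ ∑ S ∈ F, L * (t + 1) * ee G S Xᶜ := by
        refine sum_le_sum fun S hS => ?_
        have h4 := hsmall2 S hS
        have h5 := hall S hS
        have h6 : (bon G X S : ℤ) = 2 * ee G S Xᶜ := by
          unfold bon
          rw [if_neg h5]
          push_cast
          ring
        rw [h6] at h4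
        have h7 : (1 : ℤ) ≤ ee G S Xᶜ := by exact_mod_cast Nat.one_le_iff_ne_zero.2 h5
        have h8 : (t : ℤ) ≤ t * ee G S Xᶜ := le_mul_of_one_le_right (Int.natCast_nonneg _) h7
        have h9 : (L : ℤ) * (2 * ee G S Xᶜ - 2 + 2 * t) ≤ L * (2 * ((t + 1) * ee G S Xᶜ)) :=
          mul_le_mul_of_nonneg_left (by nlinarith) hLt
        have h10 : (L : ℤ) * (2 * ((t + 1) * ee G S Xᶜ)) = 2 * (L * (t + 1) * ee G S Xᶜ) := by ring
        have h11 : (S.card : ℤ) ≤ L * (t + 1) * ee G S Xᶜ := by linarith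
        exact_mod_cast h11
      have h4 : ∑ S ∈ F, L * (t + 1) * ee G S Xᶜ ≤ L * (t + 1) * dd G X := by
        rw [← mul_sum]
        exact Nat.mul_le_mul_left _ (hdX F (Subset.refl _))
      omega
    · -- a member which is a component
      push Not at hall
      obtain ⟨S, hS, hS0⟩ := hall
      obtain ⟨hSX, hne, hj, hc⟩ := hF1 S hS
      have h1 : dd G S = 0 := by
        have h1 : ee G S (X \ S) ≤ ee G S ((F.erase S).biUnion id) := by
          refine ee_mono (Subset.refl _) fun w hw => ?_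
          obtain ⟨hwX, hwS⟩ := mem_sdiff.1 hw
          obtain ⟨S', hS', hwS'⟩ := mem_biUnion.1 (hcon hwX)
          refine mem_biUnion.2 ⟨S', mem_erase.2 ⟨fun h => ?_, hS'⟩, hwS'⟩
          exact hwS (h ▸ hwS')
        have h2 : ee G S ((F.erase S).biUnion id) = 0 := by
          rw [ee_comm, ee_biUnion_left (F.erase S) id (fun S' hS' S'' hS'' hne =>
            (hF2 S' (mem_of_mem_erase hS') S'' (mem_of_mem_erase hS'') hne).1)]
          exact sum_eq_zero fun S' hS' =>
            (hF2 S' (mem_of_mem_erase hS') S hS (mem_erase.1 hS').1).2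
        have h4 := dd_inner (G := G) hSX
        omega
      have h2 := hconn S hne h1
      have h4 := hLU S hSX hc hne hj
      rw [h1, h2, card_univ] at h4
      omega
  · intro Q hQ hQc
    by_contra hac
    obtain ⟨A, hA, hAne, hAj, hAd⟩ := exists_circ h3 hac
    have h1 := (key A (hA.trans hQ) hAne hAj ((card_le_card hA).trans hQc)).2
    omega
  · intro Q hQ hQc hQconn
    have hne : Q.Nonempty := by
      obtain ⟨x⟩ := hQconn.nonempty
      exact ⟨x.1, x.2⟩
    have h1 := (key Q hQ hne (joined_of_conn hQconn) hQc).1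
    have h2 := bead_conn h3 hQconn
    omega

/-- As `exists_far_x`, with a proper subset of the vertex set. -/
theorem exists_far_x_ne (h3 : ∀ v, G.degree v = 3) {X : Finset V} {g t R : ℕ}
    (hR : (g + 1) + (2 * (g + 1) + 1) * dd G X + 3 * (g + 1) * ((2 * (g + 1) + 1) * t) ≤ R)
    (hconn : ∀ A : Finset V, A.Nonempty → dd G A = 0 → A = univ) (hX : X.Nonempty)
    (hXd : (2 * (g + 1) + 1) * (t + 1) * dd G X < X.card)
    (hcard : 2 * t ≤ Fintype.card V)
    (hLU : ∀ S ⊆ X, S.card ≤ R → S.Nonempty → Joined G S → S.card + 2 ≤ dd G S + 2 * t) :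
    ∃ W ⊆ X, W ≠ univ ∧ W.Nonempty ∧
      (∀ Q ⊆ W, Q.card ≤ g → (G.induce (Q : Set V)).IsAcyclic) ∧ FarB G g W := by
  classical
  obtain ⟨W, hWX, hW, hWg, hWF⟩ := exists_far_x h3 (g := g + 1) hR hconn hX hXd hcard hLU
  by_cases hWu : W = univ
  · subst hWu
    obtain ⟨v, -⟩ := hX
    refine ⟨univ.erase v, (erase_subset _ _).trans hWX, fun h => ?_, ?_,
      fun Q _ hQc => hWg Q (subset_univ _) (by omega), ?_⟩
    · exact notMem_erase v univ (h.symm ▸ mem_univ v)
    · have h1 : (G.neighborFinset v).card = 3 := by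
        rw [card_neighborFinset_eq_degree, h3]
      obtain ⟨w, hw⟩ := card_pos.1 (by omega : 0 < (G.neighborFinset v).card)
      rw [mem_neighborFinset] at hw
      exact ⟨w, mem_erase.2 ⟨hw.ne', mem_univ _⟩⟩
    · intro Q hQ hQc hconn
      have hne : Q.Nonempty := by
        obtain ⟨x⟩ := hconn.nonempty
        exact ⟨x.1, x.2⟩
      have hvQ : v ∉ Q := fun h => notMem_erase v univ (hQ h)
      have h1 : (univ.erase v)ᶜ = {v} := by
        ext w
        simp
      rw [h1]
      have h2 : Disjoint Q {v} := disjoint_singleton_right.2 hvQ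
      have h4 := dd_disj (G := G) h2
      have h5 := bead_conn h3 hconn
      have h6 : dd G {v} ≤ 3 := by
        have := bead_ee_le (G := G) h3 {v} ({v} : Finset V)ᶜ
        rw [dd_ee]
        simpa using this
      have h7 : (Q ∪ {v}).card = Q.card + 1 := by
        rw [card_union_of_disjoint h2, card_singleton]
      have h8 := dd_of_acyclic G h3 (hne.mono subset_union_left : (Q ∪ {v}).Nonempty)
        (hWg (Q ∪ {v}) (subset_univ _) (by omega))
      omega
  · exact ⟨W, hWX, hWu, hW, fun Q hQ hQc => hWg Q hQ (by omega),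
      fun Q hQ hQc hconn => hWF Q hQ (by omega) hconn⟩

end

/-- **Bead lemma, local form.** There is a constant `C` such that in a connected cubic graph with
at least `2t` vertices every vertex set `X` which is large compared with its boundary and in which
every connected subset of at most `C * (t + dd X + 1)` vertices contains at most `t` independent
circuits contains a connected set `P` of large girth, not the whole vertex set, such that the edges
leaving `P` are far apart in `P` and all cyclic cuts of `P` are large. -/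
theorem exists_bead_x (D k₀ g₀ : ℕ) : ∃ C : ℕ, ∀ {V : Type} [Fintype V]
    [DecidableEq V] (G : SimpleGraph V) [DecidableRel G.Adj], (∀ v, G.degree v = 3) →
    G.Connected → ∀ X : Finset V, X.Nonempty → ∀ t : ℕ, 2 * t ≤ Fintype.card V →
    C * (t + 1) * dd G X < X.card →
    (∀ S ⊆ X, S.card ≤ C * (t + dd G X + 1) → (G.induce (S : Set V)).Connected →
      S.card + 2 ≤ dd G S + 2 * t) →
    ∃ P ⊆ X, P ≠ univ ∧ 2 ≤ P.card ∧ (G.induce (P : Set V)).Connected ∧
      ¬ (G.induce (P : Set V)).IsAcyclic ∧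
      (∀ Q ⊆ P, Q.card < g₀ → (G.induce (Q : Set V)).IsAcyclic) ∧ FarB G D P ∧
      ∀ Y ⊆ P, ¬ (G.induce (Y : Set V)).IsAcyclic →
        ¬ (G.induce ((P \ Y : Finset V) : Set V)).IsAcyclic → k₀ ≤ ee G Y (P \ Y) := by
  obtain ⟨g₁, hg₁⟩ := exists_bead_in (D + 1) (k₀ + 1)
  obtain ⟨g, hg0, hg1⟩ : ∃ g, g₀ ≤ g ∧ g₁ ≤ g := ⟨g₀ + g₁, by omega, by omega⟩
  refine ⟨3 * (g + 1) * (2 * (g + 1) + 1) + (2 * (g + 1) + 1),
    fun {V} _ _ G _ h3 hc X hX t hcard hXd hLU => ?_⟩
  have hR : (g + 1) + (2 * (g + 1) + 1) * dd G X + 3 * (g + 1) * ((2 * (g + 1) + 1) * t) ≤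
      (3 * (g + 1) * (2 * (g + 1) + 1) + (2 * (g + 1) + 1)) * (t + dd G X + 1) := by
    have h1 : (3 * (g + 1) * (2 * (g + 1) + 1) + (2 * (g + 1) + 1)) * (t + dd G X + 1) =
        3 * (g + 1) * ((2 * (g + 1) + 1) * t) + (2 * (g + 1) + 1) * dd G X +
          (2 * (g + 1) + 1) * t + 3 * (g + 1) * (2 * (g + 1) + 1) * dd G X +
          3 * (g + 1) * (2 * (g + 1) + 1) + (2 * (g + 1) + 1) := by ring
    omega
  have hXd' : (2 * (g + 1) + 1) * (t + 1) * dd G X < X.card := by
    refine lt_of_le_of_lt (Nat.mul_le_mul_right _ (Nat.mul_le_mul_right _ ?_)) hXd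
    omega
  have hconn : ∀ A : Finset V, A.Nonempty → dd G A = 0 → A = univ := by
    intro A hA h0
    by_contra hne
    obtain ⟨a, ha⟩ := hA
    obtain ⟨b, hb⟩ : ∃ b, b ∉ A := by
      by_contra hcon
      push Not at hcon
      exact hne (eq_univ_iff_forall.2 hcon)
    have hno : ∀ u ∈ A, ∀ v, v ∉ A → ¬ G.Adj u v := by
      intro u hu v hv huv
      rw [dd_ee] at h0
      unfold ee at h0
      rw [card_eq_zero, filter_eq_empty_iff] at h0
      exact h0 (mem_univ (u, v)) ⟨hu, mem_compl.2 hv, huv⟩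
    have key : ∀ {x y : V} (p : G.Walk x y), x ∈ A → y ∈ A := by
      intro x y p
      induction p with
      | nil => exact id
      | @cons u v w hadj p ih =>
        intro hx
        refine ih ?_
        by_contra hy
        exact hno _ hx _ hy hadj
    obtain ⟨p⟩ := hc.preconnected a b
    exact hb (key p ha)
  obtain ⟨W, hWX, hWu, hWne, hWg, hWF⟩ := exists_far_x_ne (G := G) h3 (g := g) (t := t) hR hconn
    hX hXd' hcard (fun S hSX hS hne hj => hLU S hSX hS (conn_of_joined hne hj))
  obtain ⟨P, hPW, hPc, hPF, hPcut⟩ := hg₁ G h3 W hWne (fun Q hQ hQc => hWg Q hQ (by omega))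
    (fun Q hQ hQc => hWF Q hQ (by omega))
  have hPne : P.Nonempty := by
    rw [nonempty_iff_ne_empty]
    rintro rfl
    refine hPc ?_
    rw [coe_empty]
    exact SimpleGraph.IsAcyclic.of_subsingleton
  refine ⟨P, hPW.trans hWX, fun h => hWu (eq_univ_of_forall fun v => hPW (h.symm ▸ mem_univ v)),
    ?_, far_conn h3 (by omega) (by omega) hPF hPne hPcut, hPc,
    fun Q hQ hQc => hWg Q (hQ.trans hPW) (by omega), fun Q hQ hQc => hPF Q hQ (by omega),
    fun Y hY h1 h2 => ?_⟩
  · obtain ⟨A, hA, hAne, hAj, hAd⟩ := exists_circ h3 hPc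
    have h1 := dd_sum h3 A
    have h2 := card_le_card hA
    have h4 := hAne.card_pos
    by_contra hlt
    have h5 : A.card = 1 := by omega
    obtain ⟨a, rfl⟩ := card_eq_one.1 h5
    have h6 : nb G {a} a = 0 := by
      unfold nb
      rw [card_eq_zero, filter_eq_empty_iff]
      intro w hw
      rw [mem_singleton.1 hw]
      exact G.irrefl
    rw [sum_singleton, h6] at h1
    omega
  · have := hPcut Y hY h1 h2
    omega

end Pool.Agent.K5
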