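import Mathlib
import Pool.Agent.Work.MP_974d84_co_iso.Counting

/-!
# The local lemma for bits (W4)

Events `E` with `qq E` tests; test `a` is passed if `mm E` equations
`b (β E a c) = xor (b (β₀ E a c)) (τ E a c)` hold.  If every bit is involved in at most `D` events,
an event involves at most `v` bits and `4 v D (1 - 2 ^ (- m)) ^ q ≤ 1`, then some choice of the
bits passes at least one test of every event.
-/

set_option linter.unusedSectionVars false

namespace Pool.Agent.K5.W

open Finset Pool.Agent.Iso5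

section count

variable {ι : Type} [Fintype ι] [DecidableEq ι]

/-- The number of assignments which fail all tests. -/
theorem card_fail {q m : ℕ} (β β₀ : Fin q → Fin m → ι) (τ : Fin q → Fin m → Bool)
    (hinj : ∀ a c a' c', β a c = β a' c' → a = a' ∧ c = c')
    (hsep : ∀ a c a' c', β a c ≠ β₀ a' c')
    (S : Finset (ι → Bool)) (hS : ∀ f ∈ S, ∀ a, ∃ c, f (β a c) ≠ xor (f (β₀ a c)) (τ a c)) :
    S.card ≤ 2 ^ (Fintype.card ι - q * m) * (2 ^ m - 1) ^ q := by
  classical
  let B : Finset ι := univ.image fun z : Fin q × Fin m => β z.1 z.2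
  have hB : B.card = q * m := by
    rw [card_image_of_injective, card_univ, Fintype.card_prod, Fintype.card_fin, Fintype.card_fin]
    rintro ⟨a, c⟩ ⟨a', c'⟩ h
    obtain ⟨h1, h2⟩ := hinj a c a' c' h
    exact Prod.ext h1 h2
  have h0 : ∀ a c, β₀ a c ∉ B := by
    intro a c h
    simp only [B, mem_image, mem_univ, true_and, Prod.exists] at h
    obtain ⟨a', c', h⟩ := h
    exact hsep a' c' a c h
  let T := ({x : ι // x ∉ B} → Bool) × (Fin q → {h : Fin m → Bool // h ≠ fun _ => false})
  have hT : Fintype.card T = 2 ^ (Fintype.card ι - q * m) * (2 ^ m - 1) ^ q := by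
    rw [Fintype.card_prod, Fintype.card_fun, Fintype.card_fun, Fintype.card_bool, Fintype.card_fin]
    congr 2
    · rw [Fintype.card_subtype_compl, Fintype.card_coe, hB]
    · rw [Fintype.card_subtype_compl, Fintype.card_subtype_eq, Fintype.card_fun,
        Fintype.card_bool, Fintype.card_fin]
  rw [← hT, ← Fintype.card_coe]
  let Φ : {f // f ∈ S} → T := fun f =>
    (fun x => f.1 x.1, fun a => ⟨fun c => xor (f.1 (β a c)) (xor (f.1 (β₀ a c)) (τ a c)), by
      obtain ⟨c, hc⟩ := hS f.1 f.2 a
      intro h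
      have := congrFun h c
      apply hc
      simpa using this⟩)
  refine Fintype.card_le_of_injective Φ ?_
  rintro ⟨f, hf⟩ ⟨g, hg⟩ h
  have h1 := congrArg Prod.fst h
  have h2 := congrArg Prod.snd h
  have h3 : ∀ x, x ∉ B → f x = g x := fun x hx => congrFun h1 ⟨x, hx⟩
  apply Subtype.ext
  funext x
  by_cases hx : x ∈ B
  · simp only [B, mem_image, mem_univ, true_and, Prod.exists] at hx
    obtain ⟨a, c, rfl⟩ := hx
    have h4 := congrFun (congrArg Subtype.val (congrFun h2 a)) c
    have h5 := h3 _ (h0 a c)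
    simp only [Φ] at h4
    rw [h5] at h4
    have key : ∀ x y z : Bool, xor x z = xor y z → x = y := by decide
    exact key _ _ _ h4
  · exact h3 x hx

end count

/-- **Local lemma for bits.** -/
theorem exists_bits {ι Ε : Type} [Fintype ι] [DecidableEq ι] [Fintype Ε] (qq mm : Ε → ℕ)
    (β β₀ : ∀ E, Fin (qq E) → Fin (mm E) → ι) (τ : ∀ E, Fin (qq E) → Fin (mm E) → Bool)
    (hinj : ∀ E a c a' c', β E a c = β E a' c' → a = a' ∧ c = c')
    (hsep : ∀ E a c a' c', β E a c ≠ β₀ E a' c') {v D : ℕ} (hq : ∀ E, 0 < qq E)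
    (hm : ∀ E, 0 < mm E) (hv : ∀ E, 2 * (qq E * mm E) ≤ v)
    (hD : ∀ (x : ι) (S : Finset Ε), (∀ E ∈ S, ∃ a c, x = β E a c ∨ x = β₀ E a c) → S.card ≤ D)
    (hp : ∀ E, 4 * (v : ℝ) * D * (1 - (1 / 2) ^ (mm E)) ^ (qq E) ≤ 1) :
    ∃ b : ι → Bool, ∀ E, ∃ a, ∀ c, b (β E a c) = xor (b (β₀ E a c)) (τ E a c) := by
  classical
  rcases isEmpty_or_nonempty Ε with hE | ⟨⟨E₀⟩⟩
  · exact ⟨fun _ => false, fun E => (hE.false E).elim⟩
  have hv2 : 2 ≤ v := by
    have := hv E₀
    have := Nat.mul_le_mul (hq E₀) (hm E₀)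
    omega
  let tb : Fin 2 → Bool := finTwoEquiv
  have htb : Function.Injective tb := finTwoEquiv.injective
  obtain ⟨bad, hbad⟩ : ∃ bad : Ε → (ι → Fin 2) → Prop, ∀ E f, bad E f ↔
      ∀ a, ∃ c, tb (f (β E a c)) ≠ xor (tb (f (β₀ E a c))) (τ E a c) :=
    ⟨fun E f => ∀ a, ∃ c, tb (f (β E a c)) ≠ xor (tb (f (β₀ E a c))) (τ E a c),
      fun _ _ => Iff.rfl⟩
  let vs : Ε → Finset ι := fun E =>
    (univ.image fun z : Fin (qq E) × Fin (mm E) => β E z.1 z.2) ∪
      (univ.image fun z : Fin (qq E) × Fin (mm E) => β₀ E z.1 z.2)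
  have hmem : ∀ E x, x ∈ vs E ↔ ∃ a c, x = β E a c ∨ x = β₀ E a c := by
    intro E x
    simp only [vs, mem_union, mem_image, mem_univ, true_and, Prod.exists]
    constructor
    · rintro (⟨a, c, h⟩ | ⟨a, c, h⟩)
      · exact ⟨a, c, Or.inl h.symm⟩
      · exact ⟨a, c, Or.inr h.symm⟩
    · rintro ⟨a, c, h | h⟩
      · exact Or.inl ⟨a, c, h.symm⟩
      · exact Or.inr ⟨a, c, h.symm⟩
  have hvs : ∀ E, (vs E).card ≤ v := by
    intro E
    refine le_trans (card_union_le _ _) (le_trans ?_ (hv E))
    have h1 := card_image_le (s := (univ : Finset (Fin (qq E) × Fin (mm E))))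
      (f := fun z => β E z.1 z.2)
    have h2 := card_image_le (s := (univ : Finset (Fin (qq E) × Fin (mm E))))
      (f := fun z => β₀ E z.1 z.2)
    rw [card_univ, Fintype.card_prod, Fintype.card_fin, Fintype.card_fin] at h1 h2
    omega
  have hne : ∀ E, (vs E).Nonempty := fun E =>
    ⟨β E ⟨0, hq E⟩ ⟨0, hm E⟩, (hmem E _).2 ⟨_, _, Or.inl rfl⟩⟩
  set P : Ε → ℝ := fun E => (1 - (1 / 2) ^ (mm E)) ^ (qq E) with hP
  have hP0 : ∀ E, 0 ≤ P E := by
    intro E
    apply pow_nonneg
    have : ((1 : ℝ) / 2) ^ (mm E) ≤ 1 := pow_le_one₀ (by norm_num) (by norm_num)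
    linarith
  have hvR : (2 : ℝ) ≤ v := by exact_mod_cast hv2
  have hv0 : (0 : ℝ) < v := by linarith
  have hinv : (1 : ℝ) / v ≤ 1 / 2 := by
    rw [div_le_div_iff₀ hv0 (by norm_num)]; linarith
  have hinv0 : (0 : ℝ) < 1 / v := by positivity
  set β' : ℝ := 2 - 1 / v with hβ'
  have hβ0 : 0 < β' := by rw [hβ']; linarith
  have key := counting_card (univ : Finset Ε) vs bad (ι := ι) (q := 2)
    (by
      intro E _ f g hfg hf
      rw [hbad] at hf ⊢
      intro a
      obtain ⟨c, hc⟩ := hf a
      refine ⟨c, ?_⟩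
      rw [← hfg _ ((hmem E _).2 ⟨a, c, Or.inl rfl⟩), ← hfg _ ((hmem E _).2 ⟨a, c, Or.inr rfl⟩)]
      exact hc)
    (fun E => P E * 2 ^ (vs E).card) (fun E _ => mul_nonneg (hP0 E) (by positivity))
    (by
      intro E _
      have hcardB : qq E * mm E ≤ Fintype.card ι := by
        have h1 : (univ.image fun z : Fin (qq E) × Fin (mm E) => β E z.1 z.2).card =
            qq E * mm E := by
          rw [card_image_of_injective, card_univ, Fintype.card_prod, Fintype.card_fin,
            Fintype.card_fin]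
          rintro ⟨a, c⟩ ⟨a', c'⟩ h
          obtain ⟨h1, h2⟩ := hinj E a c a' c' h
          exact Prod.ext h1 h2
        rw [← h1]
        exact card_le_univ _
      have h1 := card_fail (β E) (β₀ E) (τ E) (hinj E) (hsep E)
        ((univ.filter (bad E)).image fun f x => tb (f x)) (by
          intro f hf
          rw [mem_image] at hf
          obtain ⟨g, hg, rfl⟩ := hf
          exact (hbad E g).1 (mem_filter.1 hg).2)
      rw [card_image_of_injective _ (by
        intro f g h
        funext x
        exact htb (congrFun h x))] at h1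
      have h2 : (((univ.filter (bad E)).card : ℕ) : ℝ) ≤
          2 ^ (Fintype.card ι - qq E * mm E) * (2 ^ mm E - 1) ^ qq E := by
        have h3 : ((2 ^ (Fintype.card ι - qq E * mm E) * (2 ^ mm E - 1) ^ qq E : ℕ) : ℝ) =
            2 ^ (Fintype.card ι - qq E * mm E) * (2 ^ mm E - 1) ^ qq E := by
          push_cast [Nat.one_le_two_pow]
          ring
        rw [← h3]
        exact_mod_cast h1
      refine le_trans h2 (le_of_eq ?_)
      have h4 : (vs E).card ≤ Fintype.card ι := card_le_univ _
      have h5 : (2 : ℝ) ^ (vs E).card * 2 ^ (Fintype.card ι - (vs E).card) =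
          2 ^ Fintype.card ι := by
        rw [← pow_add]; congr 1; omega
      have h6 : (2 : ℝ) ^ (Fintype.card ι - qq E * mm E) * (2 ^ mm E) ^ qq E =
          2 ^ Fintype.card ι := by
        rw [← pow_mul, ← pow_add]; congr 1
        rw [mul_comm (mm E)]; omega
      have h7 : P E * (2 ^ mm E) ^ qq E = (2 ^ mm E - 1) ^ qq E := by
        simp only [hP]
        rw [← mul_pow]
        congr 1
        rw [sub_mul, one_mul, ← mul_pow]
        norm_num
      calc (2 : ℝ) ^ (Fintype.card ι - qq E * mm E) * (2 ^ mm E - 1) ^ qq E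
          = P E * (2 ^ (Fintype.card ι - qq E * mm E) * (2 ^ mm E) ^ qq E) := by
            rw [← h7]; ring
        _ = P E * (2 ^ (vs E).card * 2 ^ (Fintype.card ι - (vs E).card)) := by rw [h6, h5]
        _ = P E * 2 ^ (vs E).card * ((2 : ℕ) : ℝ) ^ (Fintype.card ι - (vs E).card) := by
            push_cast; ring)
    (fun E _ => hne E) hβ0
    (by
      intro x
      set S := univ.filter (fun E => x ∈ vs E) with hS
      have hSD : S.card ≤ D := hD x S fun E hE => (hmem E x).1 (mem_filter.1 hE).2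
      have hterm : ∀ E ∈ S, P E * 2 ^ (vs E).card * (1 / β') ^ ((vs E).card - 1) ≤ 4 * P E := by
        intro E _
        have hw : 1 ≤ (vs E).card := card_pos.2 (hne E)
        have e1 : (2 : ℝ) ^ (vs E).card = 2 * 2 ^ ((vs E).card - 1) := by
          rw [← pow_succ']; congr 1; omega
        have e2 : P E * 2 ^ (vs E).card * (1 / β') ^ ((vs E).card - 1) =
            2 * P E * (2 * (1 / β')) ^ ((vs E).card - 1) := by
          rw [e1, mul_pow]; ring
        rw [e2]
        have e3 : (1 : ℝ) ≤ 2 * (1 / β') := by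
          rw [mul_one_div, le_div_iff₀ hβ0, hβ']; linarith
        have e4 : (2 * (1 / β')) ^ ((vs E).card - 1) ≤ (2 * (1 / β')) ^ (v - 1) :=
          pow_le_pow_right₀ e3 (Nat.sub_le_sub_right (hvs E) 1)
        have e5 : (2 * (1 / β')) ^ (v - 1) ≤ 2 := by
          have f1 : (1 : ℝ) + ((v - 1 : ℕ) : ℝ) * (-(1 / (2 * v))) ≤
              (1 + (-(1 / (2 * v)))) ^ (v - 1) := by
            apply one_add_mul_le_pow
            have : (1 : ℝ) / (2 * v) ≤ 1 := by
              rw [div_le_one (by positivity)]; linarith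
            linarith
          have f2 : ((v - 1 : ℕ) : ℝ) ≤ v := by exact_mod_cast Nat.sub_le v 1
          have f3 : ((v - 1 : ℕ) : ℝ) * (1 / (2 * v)) ≤ 1 / 2 := by
            calc ((v - 1 : ℕ) : ℝ) * (1 / (2 * v)) ≤ v * (1 / (2 * v)) := by gcongr
              _ = 1 / 2 := by field_simp
          have f4 : (1 : ℝ) / 2 ≤ (1 + (-(1 / (2 * v)))) ^ (v - 1) := by
            refine le_trans ?_ f1
            rw [mul_neg]; linarith
          have f5 : 2 * (1 / β') = (1 + (-(1 / (2 * (v : ℝ)))))⁻¹ := by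
            rw [hβ']
            have : (2 : ℝ) - 1 / v = 2 * (1 + (-(1 / (2 * (v : ℝ))))) := by
              field_simp
              ring
            rw [this]
            have h0 : (1 : ℝ) + (-(1 / (2 * (v : ℝ)))) ≠ 0 := by
              have : (1 : ℝ) / (2 * v) ≤ 1 / 2 := by
                rw [div_le_div_iff₀ (by positivity) (by norm_num)]; linarith
              have : (0 : ℝ) < 1 + (-(1 / (2 * (v : ℝ)))) := by linarith
              exact this.ne'
            field_simp
          rw [f5, inv_pow]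
          calc ((1 + (-(1 / (2 * (v : ℝ))))) ^ (v - 1))⁻¹ ≤ (1 / 2 : ℝ)⁻¹ :=
                inv_anti₀ (by norm_num) f4
            _ = 2 := by norm_num
        calc 2 * P E * (2 * (1 / β')) ^ ((vs E).card - 1) ≤ 2 * P E * 2 :=
              mul_le_mul_of_nonneg_left (le_trans e4 e5) (by have := hP0 E; linarith)
          _ = 4 * P E := by ring
      refine le_trans (sum_le_sum hterm) ?_
      have hgoal : ∑ E ∈ S, 4 * P E ≤ 1 / v := by
        rw [le_div_iff₀ hv0, sum_mul]
        rcases Nat.eq_zero_or_pos D with hD0 | hD0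
        · have : S = ∅ := card_eq_zero.1 (by omega)
          rw [this]; simp
        · have hDR : (0 : ℝ) < D := by exact_mod_cast hD0
          have : ∀ E ∈ S, 4 * P E * v ≤ 1 / D := by
            intro E _
            rw [le_div_iff₀ hDR]
            have := hp E
            simp only [hP]
            linarith
          refine le_trans (sum_le_card_nsmul _ _ _ this) ?_
          rw [nsmul_eq_mul, mul_one_div, div_le_one hDR]
          exact_mod_cast hSD
      push_cast
      rw [hβ']
      linarith)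
  have hpos := lt_of_lt_of_le (pow_pos hβ0 _) key
  obtain ⟨f, hf⟩ := card_pos.1 (Nat.cast_pos.1 hpos)
  refine ⟨fun x => tb (f x), fun E => ?_⟩
  simp only [Finset.mem_filter, mem_univ, true_and, forall_const] at hf
  have h := hf E
  rw [hbad] at h
  simp only [not_forall, not_exists, not_not] at h
  exact h

end Pool.Agent.K5.W
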