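import Mathlib
import Pool.Agent.Work.MP_974d84_co_k5.CoreFactsA

/-!
# A graph made of beads and a forest: strength `5/3` after contraction of the beads
-/

set_option linter.unusedSectionVars false

namespace Pool.Agent.K5

open Finset SimpleGraph Pool.Agent.Exp Pool.Agent.Log5 Pool.Agent.Log5.Clu

variable {V : Type} [Fintype V] [DecidableEq V]

/-- The number of ordered pairs of adjacent vertices with different labels. -/
def crsB (G : SimpleGraph V) [DecidableRel G.Adj] (p : V → ℕ) : ℕ :=
  ((univ : Finset (V × V)).filter fun e => G.Adj e.1 e.2 ∧ p e.1 ≠ p e.2).card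

variable {G : SimpleGraph V} [DecidableRel G.Adj]

/-- The class of a label. -/
abbrev lcls (p : V → ℕ) (c : ℕ) : Finset V := univ.filter fun v => p v = c

theorem crsB_eq (p : V → ℕ) : crsB G p = ∑ c ∈ univ.image p, dd G (lcls p c) := by
  unfold crsB
  rw [card_eq_sum_card_fiberwise (f := fun e : V × V => p e.1) (t := univ.image p)
    (fun e _ => mem_image_of_mem p (mem_univ e.1))]
  refine sum_congr rfl fun c _ => ?_
  unfold dd
  congr 1
  ext e
  simp only [mem_filter, mem_univ, true_and, mem_cut, lcls]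
  constructor
  · rintro ⟨⟨h1, h2⟩, h3⟩
    exact ⟨h3, fun h4 => h2 (h3.trans h4.symm), h1⟩
  · rintro ⟨h1, h2, h3⟩
    exact ⟨⟨h3, fun h4 => h2 (h4 ▸ h1)⟩, h1⟩

/-- The edges which leave or enter a union of classes. -/
theorem crsB_ge (p : V → ℕ) (T : Finset ℕ) (hT : T ⊆ univ.image p) :
    ∑ c ∈ T, dd G (lcls p c) + dd G (univ.filter fun v => p v ∈ T) ≤ crsB G p := by
  rw [crsB_eq]
  have h1 : ∑ c ∈ T, dd G (lcls p c) + ∑ c ∈ univ.image p \ T, dd G (lcls p c) =
      ∑ c ∈ univ.image p, dd G (lcls p c) := by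
    rw [add_comm]
    exact sum_sdiff hT
  rw [← h1]
  refine Nat.add_le_add_left ?_ _
  -- the pairs from outside
  have h2 : dd G (univ.filter fun v => p v ∈ T) =
      ((univ : Finset (V × V)).filter fun e => p e.1 ∉ T ∧ p e.2 ∈ T ∧ G.Adj e.1 e.2).card := by
    rw [← dd_compl]
    unfold dd
    congr 1
    ext e
    simp [mem_cut]
  rw [h2, card_eq_sum_card_fiberwise (f := fun e : V × V => p e.1) (t := univ.image p \ T)
    (fun e he => by
      simp only [coe_filter, mem_univ, true_and, Set.mem_ofPred_eq] at he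
      exact mem_sdiff.2 ⟨mem_image_of_mem p (mem_univ e.1), he.1⟩)]
  refine sum_le_sum fun c hc => ?_
  unfold dd
  refine card_le_card fun e he => ?_
  simp only [mem_filter, mem_univ, true_and] at he
  rw [mem_cut]
  refine ⟨by simp [lcls, he.2], ?_, he.1.2.2⟩
  simp only [lcls, mem_filter, mem_univ, true_and]
  intro h3
  exact (mem_sdiff.1 hc).2 (h3 ▸ he.1.2.1)

/-- **Strength.** The beads `P i` cover everything but a forest, and every edge cut which separates
two beads has at least `κ` edges; `κ = 5`, or the number of beads is small. -/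
theorem strength_beads (h3 : ∀ v, G.degree v = 3) {ι : Type} [Fintype ι] [Nonempty ι]
    (P : ι → Finset V) (hne : ∀ i, (P i).Nonempty)
    (hO : (G.induce (((univ.biUnion P)ᶜ : Finset V) : Set V)).IsAcyclic)
    {κ : ℕ} (hκ : (5 - κ) * Fintype.card ι ≤ 6)
    (h5 : ∀ X : Finset V, (∀ i, P i ⊆ X ∨ Disjoint (P i) X) → (∃ i, P i ⊆ X) →
      (∃ i, Disjoint (P i) X) → κ ≤ dd G X)
    (p : V → ℕ) (hp : ∀ i, ∀ u ∈ P i, ∀ v ∈ P i, p u = p v) :
    10 * (univ.image p).card ≤ 3 * crsB G p + 10 := by
  classical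
  -- the labels of the beads
  choose r hr using hne
  set B : Finset ℕ := univ.image fun i => p (r i) with hB
  have hBsub : B ⊆ univ.image p := by
    intro c hc
    obtain ⟨i, -, rfl⟩ := mem_image.1 hc
    exact mem_image_of_mem p (mem_univ _)
  set A : Finset ℕ := univ.image p \ B with hA
  have hcard : (univ.image p).card = A.card + B.card := by
    rw [hA, card_sdiff_of_subset hBsub]
    have := card_le_card hBsub
    omega
  have hBne : B.Nonempty := by
    obtain ⟨i⟩ := (inferInstance : Nonempty ι)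
    exact ⟨p (r i), mem_image_of_mem _ (mem_univ i)⟩
  have hdisj : ∀ c ∈ A, ∀ i, Disjoint (P i) (lcls p c) := by
    intro c hc i
    rw [Finset.disjoint_left]
    intro v hv hv'
    have e1 : p v = c := (mem_filter.1 hv').2
    have e2 : p v = p (r i) := hp i v hv (r i) (hr i)
    exact (mem_sdiff.1 hc).2 (by rw [← e1, e2]; exact mem_image_of_mem _ (mem_univ i))
  -- sets of free vertices
  have hfree : ∀ X : Finset V, X.Nonempty → (∀ v ∈ X, ∀ i, v ∉ P i) → X.card + 2 ≤ dd G X := by
    intro X hX hXP
    refine dd_of_acyclic G h3 hX ?_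
    refine hO.embedding (SimpleGraph.induceHomOfLE G ?_)
    intro v hv
    have : v ∈ (univ.biUnion P)ᶜ := by
      rw [mem_compl, mem_biUnion]
      rintro ⟨i, -, hi⟩
      exact hXP v hv i hi
    exact_mod_cast this
  set U : Finset V := univ.filter fun v => p v ∈ A with hU
  have hUcard : U.card = ∑ c ∈ A, (lcls p c).card := by
    rw [hU, card_eq_sum_card_fiberwise (f := p) (t := A) (fun v hv => by
      simpa using hv)]
    refine sum_congr rfl fun c hc => ?_
    congr 1
    ext v
    simp only [mem_filter, mem_univ, true_and, lcls]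
    constructor
    · exact fun h => h.2
    · exact fun h => ⟨h ▸ hc, h⟩
  have hAne : ∀ c ∈ A, (lcls p c).Nonempty := by
    intro c hc
    obtain ⟨v, -, hv⟩ := mem_image.1 (mem_sdiff.1 hc).1
    exact ⟨v, by simp [lcls, hv]⟩
  have hA1 : ∀ c ∈ A, (lcls p c).card + 2 ≤ dd G (lcls p c) := by
    intro c hc
    exact hfree _ (hAne c hc) fun v hv i hi => Finset.disjoint_left.1 (hdisj c hc i) hi hv
  have hA2 : U.card + 2 * A.card ≤ ∑ c ∈ A, dd G (lcls p c) := by
    rw [hUcard, mul_comm, ← smul_eq_mul, ← sum_const, ← sum_add_distrib]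
    exact sum_le_sum hA1
  have hA3 : A.card ≤ U.card := by
    rw [hUcard, card_eq_sum_ones]
    exact sum_le_sum fun c hc => (hAne c hc).card_pos
  have hA4 : A.Nonempty → U.card + 2 ≤ dd G U := by
    rintro ⟨c, hc⟩
    obtain ⟨v, hv⟩ := hAne c hc
    refine hfree U ⟨v, ?_⟩ ?_
    · rw [hU, mem_filter]
      exact ⟨mem_univ v, by rw [(mem_filter.1 hv).2]; exact hc⟩
    · intro w hw i hi
      have hw' := (mem_filter.1 hw).2
      exact Finset.disjoint_left.1 (hdisj _ hw' i) hi (by simp [lcls])
  have h1 : ∑ c ∈ A, dd G (lcls p c) + dd G U ≤ crsB G p := crsB_ge (G := G) p A sdiff_subset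
  -- the classes with beads
  have hB5 : 2 ≤ B.card → ∀ c ∈ B, κ ≤ dd G (lcls p c) := by
    intro h2 c hc
    obtain ⟨i, -, hi⟩ := mem_image.1 hc
    have hsat : ∀ j, p (r j) = c → P j ⊆ lcls p c := by
      intro j hj v hv
      simp only [lcls, mem_filter, mem_univ, true_and]
      rw [hp j v hv (r j) (hr j), hj]
    have hsat' : ∀ j, p (r j) ≠ c → Disjoint (P j) (lcls p c) := by
      intro j hj
      rw [Finset.disjoint_left]
      intro v hv hv'
      simp only [lcls, mem_filter, mem_univ, true_and] at hv'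
      exact hj (by rw [← hp j v hv (r j) (hr j), hv'])
    refine h5 _ (fun j => ?_) ⟨i, hsat i hi⟩ ?_
    · by_cases hj : p (r j) = c
      · exact Or.inl (hsat j hj)
      · exact Or.inr (hsat' j hj)
    · obtain ⟨c', hc', hcc'⟩ := exists_mem_ne (by omega : 1 < B.card) c
      obtain ⟨j, -, hj⟩ := mem_image.1 hc'
      exact ⟨j, hsat' j (by rw [hj]; exact hcc')⟩
  have h2 : 2 ≤ B.card → 3 * A.card + κ * B.card ≤ crsB G p := by
    intro h2
    rw [crsB_eq, ← sum_sdiff hBsub]
    have e1 : 3 * A.card ≤ ∑ c ∈ univ.image p \ B, dd G (lcls p c) := by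
      rw [mul_comm, ← smul_eq_mul, ← sum_const]
      refine sum_le_sum fun c hc => ?_
      have := hA1 c hc
      have := (hAne c hc).card_pos
      omega
    have e2 : κ * B.card ≤ ∑ c ∈ B, dd G (lcls p c) := by
      rw [mul_comm, ← smul_eq_mul, ← sum_const]
      exact sum_le_sum fun c hc => hB5 h2 c hc
    omega
  have hBc := hBne.card_pos
  have hBι : B.card ≤ Fintype.card ι := by
    rw [hB, ← card_univ]
    exact card_image_le
  -- the two inequalities
  have hk1 : 5 * B.card ≤ κ * B.card + 6 := by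
    have e1 : (5 - κ) * B.card ≤ 6 := (Nat.mul_le_mul_left _ hBι).trans hκ
    rcases Nat.lt_or_ge κ 5 with h | h
    · have e2 : 5 * B.card = (5 - κ) * B.card + κ * B.card := by
        rw [← add_mul]
        congr 1
        omega
      omega
    · have := Nat.mul_le_mul_right B.card h
      omega
  rcases A.eq_empty_or_nonempty with h0 | h0
  · rw [hcard, h0, card_empty]
    rw [h0, card_empty] at h2
    by_cases h4 : 2 ≤ B.card
    · have h7 := h2 h4
      -- `3 κ s + 10 ≥ 10 s`
      have h8 : 10 * B.card ≤ 3 * (κ * B.card) + 10 := by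
        rcases Nat.lt_or_ge κ 5 with h | h
        · have e1 : (5 - κ) * B.card ≤ 6 := (Nat.mul_le_mul_left _ hBι).trans hκ
          interval_cases κ <;> omega
        · have := Nat.mul_le_mul_right B.card h
          omega
      omega
    · omega
  · have h4 := hA4 h0
    by_cases h6 : 2 ≤ B.card
    · have := h2 h6
      omega
    · omega

end Pool.Agent.K5
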