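import Mathlib
import Pool.Agent.Work.MP_974d84_co_k5.StrengthBead
import Pool.Agent.Work.MP_974d84_co_k5.ExtGlue
import Pool.Agent.Work.MP_974d84_co_circ.Final

/-!
# A graph made of beads and a forest has a nowhere-zero flow

The contracted graph has strength `5/3`, so it has a nowhere-zero `5`-flow, which extends into every
bead.
-/

set_option linter.unusedSectionVars false

namespace Pool.Agent.K5

open Finset SimpleGraph Pool.Agent.Exp Pool.Agent.Log5 Pool.Agent.Log5.Clu MP974d84

variable {V : Type} [Fintype V] [DecidableEq V] {G : SimpleGraph V} [DecidableRel G.Adj]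

/-- From strength to flows of a quotient: `q` is idempotent, its fixed points are the vertices of
the quotient. -/
theorem quot_flow_bead (q : V → V) (hq : ∀ v, q (q v) = q v)
    (hs : ∀ p : V → ℕ, (∀ u v, q u = q v → p u = p v) →
      10 * (univ.image p).card ≤ 3 * crsB G p + 10) :
    ∃ f : V → V → ZMod 5, (∀ u v, f u v = - f v u) ∧
      (∀ u v, f u v ≠ 0 ↔ G.Adj u v ∧ q u ≠ q v) ∧
      ∀ x, ∑ v ∈ univ.filter (fun v => q v = x), ∑ u, f v u = 0 := by
  classical
  set en := Fintype.equivFin V with hen
  let cond : V × V → Prop := fun e => G.Adj e.1 e.2 ∧ en e.1 < en e.2 ∧ q e.1 ≠ q e.2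
  let s : {e : V × V // cond e} → {v : V // q v = v} := fun e => ⟨q e.1.1, hq _⟩
  let t : {e : V × V // cond e} → {v : V // q v = v} := fun e => ⟨q e.1.2, hq _⟩
  have htheta : ∀ p' : {v : V // q v = v} → ℕ, ((5 : ℕ) : ℝ) * (((univ.image p').card : ℝ) - 1) ≤
      (((5 : ℕ) : ℝ) - 2) * ((univ.filter (fun e => p' (s e) ≠ p' (t e))).card : ℝ) := by
    intro p'
    set p : V → ℕ := fun v => p' ⟨q v, hq v⟩ with hp
    have h1 := hs p (fun u v huv => by
      show p' ⟨q u, hq u⟩ = p' ⟨q v, hq v⟩
      congr 1
      exact Subtype.ext huv)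
    have h2 : univ.image p = univ.image p' := by
      ext c
      simp only [mem_image, mem_univ, true_and]
      constructor
      · rintro ⟨v, hv⟩
        exact ⟨⟨q v, hq v⟩, hv⟩
      · rintro ⟨⟨v, hv⟩, h⟩
        refine ⟨v, ?_⟩
        rw [← h, hp]
        show p' ⟨q v, hq v⟩ = p' ⟨v, hv⟩
        congr 1
        exact Subtype.ext hv
    have h3 : crsB G p = 2 * (univ.filter (fun e => p' (s e) ≠ p' (t e))).card := by
      -- the pairs in increasing order
      have e1 : (univ.filter (fun e => p' (s e) ≠ p' (t e))).card =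
          ((univ : Finset (V × V)).filter fun e =>
            (G.Adj e.1 e.2 ∧ p e.1 ≠ p e.2) ∧ en e.1 < en e.2).card := by
        refine card_bij (fun e _ => e.1) ?_ ?_ ?_
        · intro e he
          simp only [mem_filter, mem_univ, true_and] at he ⊢
          exact ⟨⟨e.2.1, he⟩, e.2.2.1⟩
        · intro e _ e' _ h
          exact Subtype.ext h
        · intro e he
          simp only [mem_filter, mem_univ, true_and] at he
          have hqe : q e.1 ≠ q e.2 := by
            intro h
            apply he.1.2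
            show p' ⟨q e.1, hq e.1⟩ = p' ⟨q e.2, hq e.2⟩
            congr 1
            exact Subtype.ext h
          refine ⟨⟨e, he.1.1, he.2, hqe⟩, ?_, rfl⟩
          simp only [mem_filter, mem_univ, true_and]
          exact he.1.2
      have e2 : ((univ : Finset (V × V)).filter fun e =>
            (G.Adj e.1 e.2 ∧ p e.1 ≠ p e.2) ∧ ¬ en e.1 < en e.2).card =
          ((univ : Finset (V × V)).filter fun e =>
            (G.Adj e.1 e.2 ∧ p e.1 ≠ p e.2) ∧ en e.1 < en e.2).card := by
        refine card_bij (fun e _ => (e.2, e.1)) ?_ ?_ ?_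
        · intro e he
          simp only [mem_filter, mem_univ, true_and] at he ⊢
          refine ⟨⟨he.1.1.symm, he.1.2.symm⟩, ?_⟩
          have hne : en e.1 ≠ en e.2 := fun h => he.1.1.ne (en.injective h)
          exact lt_of_le_of_ne (not_lt.1 he.2) hne.symm
        · rintro ⟨a, b⟩ _ ⟨a', b'⟩ _ h
          simp only [Prod.mk.injEq] at h
          simp [h.1, h.2]
        · rintro ⟨a, b⟩ he
          simp only [mem_filter, mem_univ, true_and] at he
          refine ⟨(b, a), ?_, rfl⟩
          simp only [mem_filter, mem_univ, true_and]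
          exact ⟨⟨he.1.1.symm, he.1.2.symm⟩, not_lt.2 he.2.le⟩
      have e3 := card_filter_add_card_filter_not
        (s := (univ : Finset (V × V)).filter fun e => G.Adj e.1 e.2 ∧ p e.1 ≠ p e.2)
        (fun e => en e.1 < en e.2)
      rw [filter_filter, filter_filter] at e3
      unfold crsB
      rw [← e3, e2, e1]
      ring
    rw [h2, h3] at h1
    have h4 : (10 : ℝ) * ((univ.image p').card : ℝ) ≤
        3 * (2 * ((univ.filter (fun e => p' (s e) ≠ p' (t e))).card : ℝ)) + 10 := by
      exact_mod_cast h1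
    push_cast
    linarith
  obtain ⟨g, hg, hgb⟩ := Circ.nowhereZero_theta s t 5 (by norm_num) htheta
  let fp : V → V → ℤ := fun u v => if h : cond (u, v) then g ⟨(u, v), h⟩ else 0
  have hfp : ∀ u v, fp u v ≠ 0 → cond (u, v) := by
    intro u v h
    by_contra hc
    exact h (dif_neg hc)
  have hfpz : ∀ u v, cond (u, v) → ((fp u v : ℤ) : ZMod 5) ≠ 0 := by
    intro u v h h0
    have e1 : fp u v = g ⟨(u, v), h⟩ := dif_pos h
    rw [e1] at h0
    have e2 := hgb ⟨(u, v), h⟩
    have e3 : (5 : ℤ) ∣ g ⟨(u, v), h⟩ := by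
      have := (ZMod.intCast_zmod_eq_zero_iff_dvd (g ⟨(u, v), h⟩) 5).1 h0
      exact_mod_cast this
    obtain ⟨m, hm⟩ := e3
    have e4 : |g ⟨(u, v), h⟩| ≤ 4 := by
      have := e2.2
      push_cast at this
      linarith
    have e5 := e2.1
    rw [hm, abs_mul] at e4 e5
    have e6 : |(5 : ℤ)| = 5 := by norm_num
    rw [e6] at e4 e5
    have e7 : 0 ≤ |m| := abs_nonneg m
    omega
  have hanti : ∀ u v, cond (u, v) → ¬ cond (v, u) := fun u v h h' =>
    absurd (h.2.1.trans h'.2.1) (lt_irrefl _)
  refine ⟨fun u v => ((fp u v - fp v u : ℤ) : ZMod 5), ?_, ?_, ?_⟩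
  · intro u v
    push_cast
    ring
  · intro u v
    constructor
    · intro h
      by_cases h1 : fp u v = 0
      · by_cases h2 : fp v u = 0
        · exact absurd (show ((fp u v - fp v u : ℤ) : ZMod 5) = 0 by rw [h1, h2]; simp) h
        · have := hfp v u h2
          exact ⟨this.1.symm, this.2.2.symm⟩
      · have := hfp u v h1
        exact ⟨this.1, this.2.2⟩
    · rintro ⟨h1, h2⟩
      have hne : en u ≠ en v := fun h => h1.ne (en.injective h)
      rcases lt_or_gt_of_ne hne with h | h
      · have c1 : cond (u, v) := ⟨h1, h, h2⟩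
        have c2 : fp v u = 0 := dif_neg (hanti u v c1)
        show ((fp u v - fp v u : ℤ) : ZMod 5) ≠ 0
        rw [c2, sub_zero]
        exact hfpz u v c1
      · have c1 : cond (v, u) := ⟨h1.symm, h, h2.symm⟩
        have c2 : fp u v = 0 := dif_neg (hanti v u c1)
        show ((fp u v - fp v u : ℤ) : ZMod 5) ≠ 0
        rw [c2, zero_sub]
        push_cast
        exact neg_ne_zero.2 (hfpz v u c1)
  · intro x
    by_cases hx : q x = x
    · have h1 := hg ⟨x, hx⟩
      have key : ∀ (F : {e : V × V // cond e} → ℤ) (F' : V × V → ℤ),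
          (∀ e : {e : V × V // cond e}, F' e.1 = F e) → (∀ e, ¬ cond e → F' e = 0) →
          ∑ e, F e = ∑ e, F' e := by
        intro F F' h1 h2
        rw [← Fintype.sum_subtype_add_sum_subtype cond F']
        have e2 : ∑ e : {e // ¬ cond e}, F' e = 0 :=
          sum_eq_zero fun e _ => h2 e.1 e.2
        rw [e2, add_zero]
        exact sum_congr rfl fun e _ => (h1 e).symm
      have h2 : ∑ e, (if s e = ⟨x, hx⟩ then g e else 0) =
          ∑ v ∈ univ.filter (fun v => q v = x), ∑ u, fp v u := by
        rw [key _ (fun e => if q e.1 = x then fp e.1 e.2 else 0), Fintype.sum_prod_type, sum_filter]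
        · refine sum_congr rfl fun v _ => ?_
          by_cases h : q v = x
          · simp [h]
          · simp [h]
        · intro e
          have e1 : fp e.1.1 e.1.2 = g e := dif_pos e.2
          rw [e1]
          by_cases h : q e.1.1 = x
          · rw [if_pos h, if_pos (Subtype.ext h)]
          · rw [if_neg h, if_neg fun h' => h (congrArg Subtype.val h')]
        · intro e he
          have e1 : fp e.1 e.2 = 0 := dif_neg he
          rw [e1]
          simp
      have h3 : ∑ e, (if t e = ⟨x, hx⟩ then g e else 0) =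
          ∑ v ∈ univ.filter (fun v => q v = x), ∑ u, fp u v := by
        rw [key _ (fun e => if q e.2 = x then fp e.1 e.2 else 0), Fintype.sum_prod_type_right,
          sum_filter]
        · refine sum_congr rfl fun v _ => ?_
          by_cases h : q v = x
          · simp [h]
          · simp [h]
        · intro e
          have e1 : fp e.1.1 e.1.2 = g e := dif_pos e.2
          rw [e1]
          by_cases h : q e.1.2 = x
          · rw [if_pos h, if_pos (Subtype.ext h)]
          · rw [if_neg h, if_neg fun h' => h (congrArg Subtype.val h')]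
        · intro e he
          have e1 : fp e.1 e.2 = 0 := dif_neg he
          rw [e1]
          simp
      rw [sum_sub_distrib, h2, h3, ← sum_sub_distrib] at h1
      simp only [← sum_sub_distrib] at h1
      have h4 : (((∑ v ∈ univ.filter (fun v => q v = x), ∑ u, (fp v u - fp u v) : ℤ)) : ZMod 5)
          = 0 := by rw [h1]; simp
      push_cast at h4 ⊢
      exact h4
    · rw [filter_eq_empty_iff.2 (fun v _ h => hx (by rw [← h, hq])), sum_empty]

/-- **Beads and a forest.** If the beads `P i` are disjoint, the other vertices induce a forest,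
every edge cut which separates two beads has at least `κ` edges (`κ = 5`, or the number of beads is
small) and every nowhere-zero zero-sum boundary assignment of a bead extends, then `G` has a
nowhere-zero flow. -/
theorem bead_forest_flow (h3 : ∀ v, G.degree v = 3) {ι : Type} [Fintype ι] [Nonempty ι]
    (P : ι → Finset V) (hne : ∀ i, (P i).Nonempty)
    (hd : ∀ i j, i ≠ j → Disjoint (P i) (P j))
    (hO : (G.induce (((univ.biUnion P)ᶜ : Finset V) : Set V)).IsAcyclic)
    {κ : ℕ} (hκ : (5 - κ) * Fintype.card ι ≤ 6)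
    (h5 : ∀ X : Finset V, (∀ i, P i ⊆ X ∨ Disjoint (P i) X) → (∃ i, P i ⊆ X) →
      (∃ i, Disjoint (P i) X) → κ ≤ dd G X)
    (hone : ∀ i, ∀ v ∈ P i, ∀ w w', w ∉ P i → w' ∉ P i → G.Adj v w → G.Adj v w' → w = w')
    (hext : ∀ i φ, BdryOK G (P i) φ → ExtFlow G (P i) φ) :
    HasNZFlow (ZMod 5) G := by
  classical
  choose r hr using hne
  -- the quotient
  let q : V → V := fun v => if h : ∃ i, v ∈ P i then r h.choose else v
  have hqP : ∀ i, ∀ v ∈ P i, q v = r i := by
    intro i v hv
    have h : ∃ i, v ∈ P i := ⟨i, hv⟩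
    have e1 : q v = r h.choose := dif_pos h
    have e2 : h.choose = i := by
      by_contra hne
      exact Finset.disjoint_left.1 (hd _ _ hne) h.choose_spec hv
    rw [e1, e2]
  have hqO : ∀ v, (∀ i, v ∉ P i) → q v = v := fun v hv => dif_neg fun ⟨i, hi⟩ => hv i hi
  have hq : ∀ v, q (q v) = q v := by
    intro v
    by_cases h : ∃ i, v ∈ P i
    · obtain ⟨i, hi⟩ := h
      rw [hqP i v hi, hqP i (r i) (hr i)]
    · have : ∀ i, v ∉ P i := fun i hi => h ⟨i, hi⟩
      rw [hqO v this, hqO v this]
  have hqq : ∀ u v, u ≠ v → (q u = q v ↔ ∃ i, u ∈ P i ∧ v ∈ P i) := by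
    intro u v huv
    constructor
    · intro h
      by_cases h1 : ∃ i, u ∈ P i
      · obtain ⟨i, hi⟩ := h1
        by_cases h2 : ∃ j, v ∈ P j
        · obtain ⟨j, hj⟩ := h2
          rw [hqP i u hi, hqP j v hj] at h
          by_cases hij : i = j
          · exact ⟨i, hi, hij ▸ hj⟩
          · exact absurd (h ▸ hr i) (Finset.disjoint_right.1 (hd i j hij) (hr j))
        · rw [hqP i u hi, hqO v fun j hj => h2 ⟨j, hj⟩] at h
          exact absurd ⟨i, h ▸ hr i⟩ h2
      · rw [hqO u fun j hj => h1 ⟨j, hj⟩] at h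
        by_cases h2 : ∃ j, v ∈ P j
        · obtain ⟨j, hj⟩ := h2
          rw [hqP j v hj] at h
          exact absurd ⟨j, h ▸ hr j⟩ h1
        · rw [hqO v fun j hj => h2 ⟨j, hj⟩] at h
          exact absurd h huv
    · rintro ⟨i, hi, hj⟩
      rw [hqP i u hi, hqP i v hj]
  obtain ⟨f, hfa, hfn, hfc⟩ := quot_flow_bead (G := G) q hq (fun p hp =>
    strength_beads h3 P (fun i => ⟨r i, hr i⟩) hO hκ h5 p fun i u hu v hv =>
      hp u v (by rw [hqP i u hu, hqP i v hv]))
  have hf0 : ∀ i u v, u ∈ P i → v ∈ P i → f u v = 0 := by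
    intro i u v hu hv
    by_contra h
    exact ((hfn u v).1 h).2 (by rw [hqP i u hu, hqP i v hv])
  -- conservation
  have hcP : ∀ i, ∑ v ∈ P i, ∑ u, f v u = 0 := by
    intro i
    rw [← hfc (r i)]
    refine sum_congr ?_ fun _ _ => rfl
    ext v
    rw [mem_filter]
    constructor
    · exact fun hv => ⟨mem_univ v, hqP i v hv⟩
    · rintro ⟨-, hv⟩
      by_contra hvi
      by_cases h : ∃ j, v ∈ P j
      · obtain ⟨j, hj⟩ := h
        rw [hqP j v hj] at hv
        have hij : j ≠ i := fun h => hvi (h ▸ hj)
        exact Finset.disjoint_left.1 (hd j i hij) (hr j) (hv ▸ hr i)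
      · rw [hqO v fun j hj => h ⟨j, hj⟩] at hv
        exact hvi (hv ▸ hr i)
  have hcO : ∀ v, (∀ i, v ∉ P i) → ∑ u, f v u = 0 := by
    intro v hv
    have h1 := hfc v
    have h2 : univ.filter (fun w => q w = v) = {v} := by
      ext w
      simp only [mem_filter, mem_univ, true_and, mem_singleton]
      constructor
      · intro hw
        by_cases h : ∃ j, w ∈ P j
        · obtain ⟨j, hj⟩ := h
          rw [hqP j w hj] at hw
          exact absurd (hw ▸ hr j) (hv j)
        · rw [hqO w fun j hj => h ⟨j, hj⟩] at hw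
          exact hw
      · rintro rfl
        exact hqO w hv
    rw [h2, sum_singleton] at h1
    exact h1
  -- the boundary assignments
  let φ : V → ZMod 5 := fun v => ∑ w, f v w
  have hφ : ∀ i, BdryOK G (P i) φ := by
    intro i
    refine ⟨fun v hv => ?_, hcP i⟩
    constructor
    · intro h w hw
      by_contra hwP
      have hqw : q v ≠ q w := by
        intro h1
        obtain ⟨j, hj, hj'⟩ := (hqq v w hw.ne).1 h1
        by_cases hij : i = j
        · exact hwP (hij ▸ hj')
        · exact Finset.disjoint_left.1 (hd i j hij) hv hj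
      have h1 : ∑ u, f v u = f v w := by
        refine sum_eq_single w (fun u _ huw => ?_) fun h => absurd (mem_univ _) h
        by_contra hne
        have h2 := (hfn v u).1 hne
        have huP : u ∉ P i := fun h3 => h2.2 (by rw [hqP i v hv, hqP i u h3])
        exact huw (hone i v hv u w huP hwP h2.1 hw)
      have h2 : f v w ≠ 0 := (hfn v w).2 ⟨hw, hqw⟩
      exact h2 (h1 ▸ h)
    · intro h
      refine sum_eq_zero fun w _ => ?_
      by_contra hne
      have h2 := (hfn v w).1 hne
      exact h2.2 (by rw [hqP i v hv, hqP i w (h w h2.1)])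
  choose g hga hgn hgc using fun i => hext i φ (hφ i)
  have hg0 : ∀ i u v, ¬ (u ∈ P i ∧ v ∈ P i) → g i u v = 0 := fun i u v h => by
    by_contra hne
    have := (hgn i u v).1 hne
    exact h ⟨this.1, this.2.1⟩
  have hone' : ∀ i u v, u ∈ P i → v ∈ P i → ∑ j, g j u v = g i u v := by
    intro i u v hu hv
    refine sum_eq_single i (fun j _ hji => ?_) fun h => absurd (mem_univ _) h
    exact hg0 j u v fun h => Finset.disjoint_left.1 (hd j i hji) h.1 hu
  refine ⟨fun u v => f u v + ∑ i, g i u v, fun u v => ?_, fun u v => ?_, fun v => ?_⟩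
  · show f u v + ∑ i, g i u v = -(f v u + ∑ i, g i v u)
    rw [hfa u v, neg_add, ← sum_neg_distrib]
    congr 1
    exact sum_congr rfl fun i _ => hga i u v
  · show f u v + ∑ i, g i u v ≠ 0 ↔ G.Adj u v
    by_cases h : ∃ i, u ∈ P i ∧ v ∈ P i
    · obtain ⟨i, hi, hj⟩ := h
      rw [hf0 i u v hi hj, zero_add, hone' i u v hi hj, hgn]
      exact ⟨fun h1 => h1.2.2, fun h1 => ⟨hi, hj, h1⟩⟩
    · rw [sum_eq_zero fun i _ => hg0 i u v fun h' => h ⟨i, h'⟩, add_zero, hfn]
      constructor
      · exact fun h1 => h1.1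
      · intro h1
        exact ⟨h1, fun h2 => h ((hqq u v h1.ne).1 h2)⟩
  · show ∑ u, (f v u + ∑ i, g i v u) = 0
    rw [sum_add_distrib]
    by_cases h : ∃ i, v ∈ P i
    · obtain ⟨i, hi⟩ := h
      have h1 := hgc i v hi
      have h2 : ∑ u, ∑ j, g j v u = ∑ u, g i v u := by
        refine sum_congr rfl fun u _ => ?_
        refine sum_eq_single i (fun j _ hji => ?_) fun h => absurd (mem_univ _) h
        exact hg0 j v u fun h => Finset.disjoint_left.1 (hd j i hji) h.1 hi
      rw [h2, add_comm]
      exact h1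
    · have h1 : ∀ i, v ∉ P i := fun i hi => h ⟨i, hi⟩
      rw [hcO v h1, zero_add]
      exact sum_eq_zero fun u _ => sum_eq_zero fun i _ => hg0 i v u fun h' => h1 i h'.1

end Pool.Agent.K5
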