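import Mathlib
import Pool.Agent.Work.MP_974d84_co_k5.Bead
import Pool.Agent.Work.MP_974d84_co_k5.BeadB
import Pool.Agent.Work.MP_974d84_co_k5.FlowBead

/-!
# Boundedly many weak pieces

From the extension theorem: a cyclically `5`-edge-connected cubic graph of large girth without `M`
pairwise disjoint cyclic vertex sets with small boundary has a nowhere-zero flow.
-/

set_option linter.unusedSectionVars false

namespace Pool.Agent.K5

open Finset SimpleGraph Pool.Agent.Exp Pool.Agent.Log5 Pool.Agent.Log5.Clu MP974d84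

section

variable {V : Type} [Fintype V] [DecidableEq V] {G : SimpleGraph V} [DecidableRel G.Adj]

/-- The thresholds. -/
def thb (K₀ : ℕ) : ℕ → ℕ
  | 0 => 0
  | m + 1 => thb K₀ m + (K₀ + 6 * K₀ * thb K₀ m)

theorem thb_mono (K₀ : ℕ) : Monotone (thb K₀) :=
  monotone_nat_of_le_succ fun _ => Nat.le_add_right _ _

/-- A partition into cyclic parts, all of whose inner cyclic cuts are large compared with its
boundaries. -/
theorem weak_partition (t : ℕ → ℕ) {M : ℕ} (hM : 1 ≤ M) (hV : BG.Cyc G (univ : Finset V))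
    (hno : ∀ F : Finset (Finset V), BG.Part G univ F → F.card = M →
      2 * t M < ∑ T ∈ F, dd G T) :
    ∃ m, 1 ≤ m ∧ m < M ∧ ∃ F : Finset (Finset V), BG.Part G univ F ∧ F.card = m ∧
      ∑ T ∈ F, dd G T ≤ 2 * t m ∧
      ∀ P ∈ F, ∀ Y ⊆ P, BG.Cyc G Y → BG.Cyc G (P \ Y) → t (m + 1) < t m + ee G Y (P \ Y) := by
  classical
  have hdd : ∀ T : Finset V, ee G T (univ \ T) = dd G T := by
    intro T
    rw [dd_ee, compl_eq_univ_sdiff]
  let Q : ℕ → Prop := fun m => ∃ F : Finset (Finset V), BG.Part G univ F ∧ F.card = m ∧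
    ∑ T ∈ F, dd G T ≤ 2 * t m
  have hQ1 : Q 1 := by
    refine ⟨{univ}, ⟨?_, ?_, ?_, ?_⟩, card_singleton _, ?_⟩
    · intro T _
      exact subset_univ T
    · intro T hT T' hT' hne
      rw [mem_singleton.1 hT, mem_singleton.1 hT'] at hne
      exact absurd rfl hne
    · simp
    · intro T hT
      rw [mem_singleton.1 hT]
      exact hV
    · rw [sum_singleton, ← hdd, sdiff_self]
      have : ee G (univ : Finset V) ∅ = 0 := by
        rw [ee_sum]
        exact sum_eq_zero fun u _ => by simp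
      show ee G univ ∅ ≤ _
      omega
  have hQM : ¬ Q M := by
    rintro ⟨F, h1, h2, h4⟩
    have := hno F h1 h2
    omega
  obtain ⟨m, hm1, hmM, hQm, hQm'⟩ : ∃ m, 1 ≤ m ∧ m < M ∧ Q m ∧ ¬ Q (m + 1) := by
    by_contra hcon
    push Not at hcon
    have : ∀ m, 1 ≤ m → m ≤ M → Q m := by
      intro m hm
      induction m, hm using Nat.le_induction with
      | base => exact fun _ => hQ1
      | succ m hm ih => exact fun h => hcon m hm (by omega) (ih (by omega))
    exact hQM (this M hM le_rfl)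
  obtain ⟨F, hF, hFc, hFs⟩ := hQm
  refine ⟨m, hm1, hmM, F, hF, hFc, hFs, ?_⟩
  intro P hP Y hY hY1 hY2
  by_contra hcon
  push Not at hcon
  obtain ⟨F', h7, h8, h9⟩ := BG.part_split (Subset.refl _) hF hP hY hY1 hY2
  simp only [hdd] at h9
  exact hQm' ⟨F', h7, by omega, by omega⟩

/-- Pushing the boundary of one part. -/
theorem push_part (h3 : ∀ v, G.degree v = 3) {D n g : ℕ} (hg : Gir G g) (hgn : D * (n + 1) < g)
    {P : Finset V} (hn : dd G P ≤ n) : ∃ T ⊆ P, T.card ≤ D * n ∧ FarB G D (P \ T) := by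
  obtain ⟨F, s, h, hs, hmax⟩ := exists_push (G := G) D (n + 1) P
  have h1 : s ≤ n := (adm_le h3 hg h ((Nat.mul_le_mul_left D hs).trans_lt hgn)).trans hn
  exact ⟨F, h.1, h.2.1.trans (Nat.mul_le_mul_left D h1), adm_far h3 h (by omega) hmax⟩

end

/-- The extension theorem (E), as a property of the constant. -/
def ExtAllB (K₀ : ℕ) : Prop :=
  ∀ {V : Type} [Fintype V] [DecidableEq V] (G : SimpleGraph V) [DecidableRel G.Adj],
    (∀ v, G.degree v = 3) → ∀ P : Finset V, ¬ (G.induce (P : Set V)).IsAcyclic →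
    (∀ A ⊆ P, A.card < K₀ → (G.induce (A : Set V)).IsAcyclic) → FarB G K₀ P →
    (∀ Y ⊆ P, ¬ (G.induce (Y : Set V)).IsAcyclic →
      ¬ (G.induce ((P \ Y : Finset V) : Set V)).IsAcyclic → K₀ ≤ ee G Y (P \ Y)) →
    ∀ φ : V → ZMod 5, BdryOK G P φ → ExtFlow G P φ

/-- **Boundedly many weak pieces.** For `κ ≥ 5` the number `M` is arbitrary; `(κ, M)` may also be
`(4, 7)`, `(3, 4)` or `(2, 3)`. -/
theorem weak_pieces {K₀ : ℕ} (hK₀ : 1 ≤ K₀) (hE : ExtAllB K₀) (κ M : ℕ)
    (hκ : (5 - κ) * (M - 1) ≤ 6) : ∃ K N : ℕ, ∀ {V : Type}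
    [Fintype V] [DecidableEq V] (G : SimpleGraph V) [DecidableRel G.Adj], Nonempty V →
    (∀ v, G.degree v = 3) → CycConn G κ → Gir G N →
    (¬ ∃ X : Fin M → Finset V, (∀ i, ¬ (G.induce (X i : Set V)).IsAcyclic) ∧
      (∀ i, dd G (X i) < K) ∧ ∀ i j, i ≠ j → Disjoint (X i) (X j)) →
    HasNZFlow (ZMod 5) G := by
  classical
  set n : ℕ := 2 * thb K₀ M with hn
  set N : ℕ := K₀ * (n + 1) * (M + 4) + n + K₀ + 5 with hN
  refine ⟨n + 1, N, fun {V} _ _ G _ hVne h3 h5 hg hno => ?_⟩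
  rcases Nat.eq_zero_or_pos M with hM0 | hM
  · exfalso
    subst hM0
    exact hno ⟨fun i => i.elim0, fun i => i.elim0, fun i => i.elim0, fun i => i.elim0⟩
  have hcard : ∀ X : Finset V, BG.Cyc G X → N ≤ X.card := by
    intro X hX
    by_contra h
    exact hX (hg X (by omega))
  have hV : BG.Cyc G (univ : Finset V) := by
    intro h
    have h1 := dd_of_acyclic G h3 univ_nonempty h
    have h2 : dd G (univ : Finset V) = 0 := by
      rw [dd_ee, compl_univ, ee_sum]
      exact sum_eq_zero fun u _ => by simp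
    omega
  obtain ⟨m, hm1, hmM, F, hF, hFc, hFs, hcut⟩ := weak_partition (thb K₀) hM hV (by
    intro F hF hFM
    by_contra hcon
    push Not at hcon
    apply hno
    have e : Fin M ≃ {T // T ∈ F} := (Fintype.equivFinOfCardEq (by simp [hFM])).symm
    refine ⟨fun i => (e i).1, fun i => hF.cyc _ (e i).2, fun i => ?_, fun i j hij => ?_⟩
    · have h1 : dd G (e i).1 ≤ ∑ T ∈ F, dd G T :=
        single_le_sum (f := fun T => dd G T) (fun _ _ => Nat.zero_le _) (e i).2
      show dd G (e i).1 < n + 1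
      omega
    · exact hF.disj _ (e i).2 _ (e j).2 fun h => hij (e.injective (Subtype.ext h)))
  have hmn : 2 * thb K₀ m ≤ n := Nat.mul_le_mul_left 2 (thb_mono K₀ hmM.le)
  have hddP : ∀ P ∈ F, dd G P ≤ 2 * thb K₀ m := fun P hP =>
    (single_le_sum (f := fun T => dd G T) (fun _ _ => Nat.zero_le _) hP).trans hFs
  have hN1 : K₀ * (n + 1) < N := by
    have : K₀ * (n + 1) * 1 ≤ K₀ * (n + 1) * (M + 4) := Nat.mul_le_mul_left _ (by omega)
    omega
  have hpush : ∀ P : {T // T ∈ F}, ∃ T ⊆ P.1, T.card ≤ K₀ * (2 * thb K₀ m) ∧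
      FarB G K₀ (P.1 \ T) := fun P =>
    push_part h3 hg (lt_of_le_of_lt (Nat.mul_le_mul_left K₀ (by omega)) hN1) (hddP P.1 P.2)
  choose T hTP hTc hTf using hpush
  have hTn : ∀ P, (T P).card ≤ K₀ * n := fun P => (hTc P).trans (Nat.mul_le_mul_left K₀ hmn)
  have hexp : K₀ * (n + 1) * (M + 4) = K₀ * (n + 1) * M + 4 * (K₀ * n) + 4 * K₀ := by ring
  -- the beads are cyclic
  have hcyc : ∀ P : {T // T ∈ F}, BG.Cyc G (P.1 \ T P) := by
    intro P hac
    have h1 := hcard P.1 (hF.cyc _ P.2)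
    have h2 := card_sdiff_add_card_eq_card (hTP P)
    have h4 := hTn P
    have h6 : (P.1 \ T P).Nonempty := by
      rw [← card_pos]
      have : 0 ≤ K₀ * (n + 1) * M := Nat.zero_le _
      omega
    have h7 := dd_of_acyclic G h3 h6 hac
    have h8 := bead_sdiff (G := G) (hTP P)
    have h9 : dd G (T P) ≤ 3 * (T P).card := by
      rw [dd_ee]
      exact bead_ee_le h3 _ _
    have h10 := hddP P.1 P.2
    have : 0 ≤ K₀ * (n + 1) * M := Nat.zero_le _
    omega
  have hinner : ∀ P : {T // T ∈ F}, ∀ Y ⊆ P.1 \ T P, BG.Cyc G Y → BG.Cyc G ((P.1 \ T P) \ Y) →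
      K₀ ≤ ee G Y ((P.1 \ T P) \ Y) := by
    intro P Y hY hY1 hY2
    have h1 : BG.Cyc G (P.1 \ Y) := hY2.mono fun v hv => by
      rw [mem_sdiff, mem_sdiff] at hv
      exact mem_sdiff.2 ⟨hv.1.1, hv.2⟩
    have h2 := hcut P.1 P.2 Y (hY.trans sdiff_subset) hY1 h1
    have h4 : P.1 \ Y = ((P.1 \ T P) \ Y) ∪ T P := by
      ext v
      simp only [mem_sdiff, mem_union]
      constructor
      · rintro ⟨a, b⟩
        by_cases h : v ∈ T P
        · exact Or.inr h
        · exact Or.inl ⟨⟨a, h⟩, b⟩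
      · rintro (⟨⟨a, _⟩, b⟩ | h)
        · exact ⟨a, b⟩
        · exact ⟨hTP P h, fun h' => (mem_sdiff.1 (hY h')).2 h⟩
    rw [h4] at h2
    have h6 := bead_ee_union_le (G := G) Y ((P.1 \ T P) \ Y) (T P)
    have h7 : ee G Y (T P) ≤ 3 * (T P).card := by
      rw [ee_comm]
      exact bead_ee_le h3 _ _
    have h8 := hTc P
    have h9 : thb K₀ (m + 1) = thb K₀ m + (K₀ + 6 * K₀ * thb K₀ m) := rfl
    have h10 : 3 * (K₀ * (2 * thb K₀ m)) = 6 * K₀ * thb K₀ m := by ring
    omega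
  have hFne : Nonempty {T // T ∈ F} := by
    obtain ⟨P, hP⟩ := card_pos.1 (show 0 < F.card by omega)
    exact ⟨⟨P, hP⟩⟩
  refine bead_forest_flow h3 (fun P : {T // T ∈ F} => P.1 \ T P) (fun P => (hcyc P).nonempty)
    ?_ ?_ (κ := κ) ?_ ?_ ?_ ?_
  · intro P P' hne
    exact (hF.disj P.1 P.2 P'.1 P'.2 fun h => hne (Subtype.ext h)).mono sdiff_subset sdiff_subset
  · apply hg
    have h1 : (univ.biUnion fun P : {T // T ∈ F} => P.1 \ T P)ᶜ ⊆ univ.biUnion T := by
      intro v hv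
      have h2 : v ∈ F.biUnion id := by
        rw [hF.all]
        exact mem_univ v
      obtain ⟨P, hP, hvP⟩ := mem_biUnion.1 h2
      rw [mem_biUnion]
      refine ⟨⟨P, hP⟩, mem_univ _, ?_⟩
      by_contra h
      refine (mem_compl.1 hv) (mem_biUnion.2 ⟨⟨P, hP⟩, mem_univ _, mem_sdiff.2 ⟨hvP, h⟩⟩)
    have h2 : (univ.biUnion T).card ≤ M * (K₀ * n) := by
      refine card_biUnion_le.trans ?_
      calc ∑ P, (T P).card ≤ ∑ _P : {T // T ∈ F}, K₀ * n := sum_le_sum fun P _ => hTn P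
        _ = F.card * (K₀ * n) := by
            rw [sum_const, smul_eq_mul, card_univ, Fintype.card_coe]
        _ ≤ M * (K₀ * n) := Nat.mul_le_mul_right _ (by omega)
    have h4 : M * (K₀ * n) ≤ K₀ * (n + 1) * M := by
      rw [mul_comm M]
      exact Nat.mul_le_mul_right _ (Nat.mul_le_mul_left _ (by omega))
    have h6 := card_le_card h1
    omega
  · rw [Fintype.card_coe]
    exact (Nat.mul_le_mul_left _ (by omega)).trans hκ
  · rintro X - ⟨P, hP⟩ ⟨P', hP'⟩
    refine h5 X ((hcyc P).mono hP) ((hcyc P').mono fun v hv => ?_)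
    rw [mem_compl]
    exact fun h => Finset.disjoint_left.1 hP' hv h
  · intro P v hv w w' hw hw' h1 h2
    have h4 := (hTf P).one hK₀ hv
    rw [ee_sum, sum_singleton] at h4
    by_contra hne
    have : 1 < ((P.1 \ T P)ᶜ.filter fun u => G.Adj v u).card := by
      rw [one_lt_card]
      exact ⟨w, mem_filter.2 ⟨mem_compl.2 hw, h1⟩, w', mem_filter.2 ⟨mem_compl.2 hw', h2⟩, hne⟩
    omega
  · intro P φ hφ
    refine hE G h3 (P.1 \ T P) (hcyc P) (fun A _ hA => hg A (by omega)) (hTf P) ?_ φ hφ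
    exact hinner P

end Pool.Agent.K5
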