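import Mathlib
import Pool.Agent.Work.MP_974d84_co_k5.SignsG

/-!
# Room BG: signs of the defects beside a bounded charge
-/

set_option linter.unusedSectionVars false

namespace Pool.Agent.K5

open Finset SimpleGraph Pool.Agent.Exp Pool.Agent.Log5 Pool.Agent.Log5.Clu

/-- Charges with small values and bounded total mass do not matter in the regions. -/
theorem small_charge {V : Type} [Fintype V] [DecidableEq V] {G : SimpleGraph V}
    [DecidableRel G.Adj] {C : ℝ} {N k κ r : ℕ} {δ : ℝ} {S : Fin r → Finset V} (hS : Cores G C S)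
    (hF : FactsG G C N k κ δ S) {ρ : V → ℝ} {b : ℝ} (hb : 0 ≤ b) (h1 : ∀ v, |ρ v| ≤ b)
    (h2 : ∑ v, |ρ v| ≤ b * k) {R : Finset V} (hR : Region S R) {X : Finset V} (hX : X ⊆ R) :
    |∑ v ∈ X, ρ v| ≤ b * dd G X := by
  rcases X.eq_empty_or_nonempty with h0 | h0
  · rw [h0, sum_empty, abs_zero]
    positivity
  · by_cases hk : dd G X < k
    · have e1 := hF.reg hS.disj hR hX h0 hk
      have e2 : (X.card : ℝ) ≤ dd G X := by exact_mod_cast (by omega : X.card ≤ dd G X)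
      calc |∑ v ∈ X, ρ v| ≤ ∑ v ∈ X, |ρ v| := abs_sum_le_sum_abs _ _
        _ ≤ ∑ v ∈ X, b := sum_le_sum fun v _ => h1 v
        _ = b * X.card := by rw [sum_const, nsmul_eq_mul, mul_comm]
        _ ≤ b * dd G X := mul_le_mul_of_nonneg_left e2 hb
    · have e1 : (k : ℝ) ≤ dd G X := by exact_mod_cast not_lt.1 hk
      calc |∑ v ∈ X, ρ v| ≤ ∑ v ∈ X, |ρ v| := abs_sum_le_sum_abs _ _
        _ ≤ ∑ v, |ρ v| := sum_le_sum_of_subset_of_nonneg (subset_univ _) fun v _ _ => abs_nonneg _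
        _ ≤ b * k := h2
        _ ≤ b * dd G X := mul_le_mul_of_nonneg_left e1 hb

/-- Signs of the defects in `T` which balance a bounded charge `ν` with integral total `t`. -/
theorem box_of_signs {V : Type} [Fintype V] [DecidableEq V] {G : SimpleGraph V}
    [DecidableRel G.Adj] {C : ℝ} {N k κ r : ℕ} {δ : ℝ} {S : Fin r → Finset V} (hS : Cores G C S)
    (hF : FactsG G C N k κ δ S) {b : ℝ} (hb : 0 ≤ b) {D : Finset V} {U : V → Finset V}
    (hU : ∀ a ∈ D, ∀ a' ∈ D, a ≠ a' → Disjoint (U a) (U a')) {w : V → ℤ → V → ℝ}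
    (hw0 : ∀ a s v, 0 ≤ w a s v) (hw1 : ∀ a s v, w a s v ≤ b)
    (hw2 : ∀ a ∈ D, ∀ s, (s = 1 ∨ s = -1) → (∀ v, w a s v ≠ 0 → v ∈ U a) ∧ ∑ v, w a s v = 1)
    (hsig : ∀ T ⊆ D, Even T.card → ∃ ε : V → ℤ, (∀ v, ε v = 1 ∨ ε v = -1) ∧
      ∑ a ∈ T, ε a = 0 ∧ ∀ R, Region S R → ∀ X ⊆ R,
        |∑ a ∈ T, (ε a : ℝ) * ∑ v ∈ X, w a (ε a) v| ≤ b * dd G X)
    {ν : V → ℝ} (hν1 : ∀ v, |ν v| ≤ b) (hν2 : ∑ v, |ν v| ≤ b * k) {t : ℤ} (ht : ∑ v, ν v = t)
    {T : Finset V} (hT : T ⊆ D) (htT : t.natAbs ≤ T.card) (hev : Even ((T.card : ℤ) + t)) :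
    ∃ ε : V → ℤ, (∀ v, ε v = 1 ∨ ε v = -1) ∧ ∑ a ∈ T, (ε a : ℝ) + ∑ v, ν v = 0 ∧
      ∀ R, Region S R → ∀ X ⊆ R,
        |∑ a ∈ T, (ε a : ℝ) * ∑ v ∈ X, w a (ε a) v + ∑ v ∈ X, ν v| ≤ 4 * b * dd G X := by
  classical
  obtain ⟨K, hKT, hKc⟩ := exists_subset_card_eq htT
  have hcard : (T \ K).card = T.card - t.natAbs := by rw [card_sdiff_of_subset hKT, hKc]
  have hev' : Even (T \ K).card := by
    rw [hcard]
    have h1 : Even (((T.card - t.natAbs : ℕ) : ℤ)) := by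
      rw [Nat.cast_sub htT, Int.even_sub]
      rw [Int.even_add] at hev
      rw [hev]
      exact (Int.natAbs_even (n := t)).symm.trans (by exact_mod_cast Iff.rfl)
    exact_mod_cast h1
  obtain ⟨ε₀, hε1, hε2, hε3⟩ := hsig (T \ K) (sdiff_subset.trans hT) hev'
  obtain ⟨s, hs, hst⟩ : ∃ s : ℤ, (s = 1 ∨ s = -1) ∧ s * t.natAbs = - t := by
    rcases le_total 0 t with h | h
    · exact ⟨-1, Or.inr rfl, by rw [Int.natAbs_of_nonneg h]; ring⟩
    · refine ⟨1, Or.inl rfl, ?_⟩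
      have : (t.natAbs : ℤ) = - t := by
        rw [← Int.natAbs_neg]
        exact Int.natAbs_of_nonneg (by omega)
      rw [this]
      ring
  have hs1 : |(s : ℝ)| = 1 := by rcases hs with h | h <;> rw [h] <;> simp
  set ε : V → ℤ := fun v => if v ∈ K then s else ε₀ v with hε
  have hεK : ∀ v ∈ K, ε v = s := fun v hv => if_pos hv
  have hεT : ∀ v ∈ T \ K, ε v = ε₀ v := fun v hv => if_neg (mem_sdiff.1 hv).2
  have hsplit : ∀ F : V → ℝ, ∑ a ∈ T, F a = ∑ a ∈ T \ K, F a + ∑ a ∈ K, F a := fun F =>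
    (sum_sdiff hKT).symm
  refine ⟨ε, fun v => ?_, ?_, fun R hR X hX => ?_⟩
  · rw [hε]
    dsimp only
    split_ifs
    · exact hs
    · exact hε1 v
  · rw [hsplit, sum_congr rfl fun a ha => by rw [hεT a ha],
      sum_congr rfl fun a (ha : a ∈ K) => by rw [hεK a ha]]
    have e1 : (∑ a ∈ T \ K, (ε₀ a : ℝ)) = 0 := by exact_mod_cast hε2
    have e2 : (s : ℝ) * (t.natAbs : ℝ) = - t := by
      have := congrArg (fun z : ℤ => (z : ℝ)) hst
      simp only [Int.cast_mul, Int.cast_neg, Int.cast_natCast] at this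
      exact this
    rw [e1, sum_const, hKc, nsmul_eq_mul, ht]
    linarith
  · -- the charge of the reserved defects together with `ν`
    set ρ : V → ℝ := fun v => (∑ a ∈ K, (s : ℝ) * w a s v) + ν v with hρ
    have hKD : K ⊆ D := hKT.trans hT
    have hρ1 : ∀ v, |ρ v| ≤ 2 * b := by
      intro v
      have e1 : |∑ a ∈ K, (s : ℝ) * w a s v| ≤ b := by
        refine abs_sum_disj (fun a ha a' ha' => hU a (hKD ha) a' (hKD ha')) (v := v)
          (fun a ha h0 => ?_) hb fun a _ => ?_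
        · refine (hw2 a (hKD ha) s hs).1 v fun h => h0 ?_
          rw [h, mul_zero]
        · rw [abs_mul, hs1, one_mul, abs_of_nonneg (hw0 a s v)]
          exact hw1 a s v
      have e2 := hν1 v
      have e3 := abs_add_le (∑ a ∈ K, (s : ℝ) * w a s v) (ν v)
      show |(∑ a ∈ K, (s : ℝ) * w a s v) + ν v| ≤ 2 * b
      linarith
    have hρ2 : ∑ v, |ρ v| ≤ 2 * b * k := by
      have e1 : ∀ v, |ρ v| ≤ ∑ a ∈ K, w a s v + |ν v| := by
        intro v
        refine (abs_add_le _ _).trans (add_le_add ?_ le_rfl)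
        refine (abs_sum_le_sum_abs _ _).trans (sum_le_sum fun a _ => ?_)
        rw [abs_mul, hs1, one_mul, abs_of_nonneg (hw0 a s v)]
      have e2 : ∑ v, ∑ a ∈ K, w a s v = t.natAbs := by
        rw [sum_comm, sum_congr rfl fun a ha => (hw2 a (hKD ha) s hs).2, sum_const, hKc,
          nsmul_eq_mul, mul_one]
      have e3 : (t.natAbs : ℝ) ≤ ∑ v, |ν v| := by
        have e4 : (t.natAbs : ℝ) = |(t : ℝ)| := by
          rw [Nat.cast_natAbs]
          push_cast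
          rfl
        rw [e4, ← ht]
        exact abs_sum_le_sum_abs _ _
      have e5 := sum_le_sum fun v (_ : v ∈ (univ : Finset V)) => e1 v
      rw [sum_add_distrib, e2] at e5
      linarith
    have hsmall := small_charge hS hF (b := 2 * b) (by linarith) hρ1 hρ2 hR hX
    have hrest := hε3 R hR X hX
    have hall : ∑ a ∈ T, (ε a : ℝ) * ∑ v ∈ X, w a (ε a) v + ∑ v ∈ X, ν v =
        ∑ a ∈ T \ K, (ε₀ a : ℝ) * ∑ v ∈ X, w a (ε₀ a) v + ∑ v ∈ X, ρ v := by
      rw [hsplit, sum_congr rfl fun a ha => by rw [hεT a ha],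
        sum_congr rfl fun a (ha : a ∈ K) => by rw [hεK a ha]]
      have e1 : ∑ v ∈ X, ρ v = ∑ a ∈ K, (s : ℝ) * ∑ v ∈ X, w a s v + ∑ v ∈ X, ν v := by
        rw [hρ]
        simp only [sum_add_distrib]
        congr 1
        rw [sum_comm]
        exact sum_congr rfl fun a _ => (mul_sum _ _ _).symm
      rw [e1]
      ring
    rw [hall]
    refine (abs_add_le _ _).trans ?_
    have hdd : (0 : ℝ) ≤ b * dd G X := by positivity
    linarith

end Pool.Agent.K5
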