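import Mathlib
import Pool.Agent.Work.MP_974d84_co.Defs

/-!
# The matroid form (M): basic notions

The vectors `A j` over `ZMod 2` represent a binary matroid. The graph is given by the two ends
`s j`, `t j` of every edge `j`.
-/

set_option linter.unusedSectionVars false

namespace Pool.Agent.K5.Mat

open Finset SimpleGraph

variable {ι : Type} [Fintype ι] [DecidableEq ι] {W : Type} [Fintype W] [DecidableEq W]

/-- The rank of a set of elements. -/
noncomputable def rk {m : ℕ} (A : ι → Fin m → ZMod 2) (X : Set ι) : ℕ :=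
  Module.finrank (ZMod 2) (Submodule.span (ZMod 2) (A '' X))

/-- The value of the characteristic polynomial in `k`. -/
noncomputable def chi {m : ℕ} (A : ι → Fin m → ZMod 2) (k : ℕ) : ℤ :=
  ∑ X : Finset ι, (-1 : ℤ) ^ X.card * (k : ℤ) ^ (rk A Set.univ - rk A (X : Set ι))

/-- The matroid of `A` is the cographic matroid of the multigraph with the ends `s`, `t`: the
linear dependencies are the cuts. -/
def Cog {m : ℕ} (A : ι → Fin m → ZMod 2) (s t : ι → W) : Prop :=
  ∀ c : ι → ZMod 2, ∑ j, c j • A j = 0 ↔ ∃ S : W → ZMod 2, ∀ j, c j = S (s j) + S (t j)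

/-- Vertical connectivity: the two parts of a partition with both parts not spanning have
connectivity at least `k`. -/
def VC {m : ℕ} (A : ι → Fin m → ZMod 2) (k : ℕ) : Prop :=
  ∀ X : Set ι, rk A X < rk A Set.univ → rk A Xᶜ < rk A Set.univ →
    k + rk A Set.univ ≤ rk A X + rk A Xᶜ

/-- Flows of multigraphs. -/
def Flo {F : Type} [AddCommGroup F] (s t : ι → W) (f : ι → F) : Prop :=
  ∀ w, ∑ j ∈ univ.filter (fun j => s j = w), f j = ∑ j ∈ univ.filter (fun j => t j = w), f j

/-- The multigraph has a flow all of whose values have the property `P`. -/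
def MP {F : Type} [AddCommGroup F] (P : F → Prop) (s t : ι → W) : Prop :=
  ∃ f : ι → F, Flo s t f ∧ ∀ j, P (f j)

/-- The simple graph has a flow all of whose values on the edges have the property `P`. -/
def GP {F : Type} [AddCommGroup F] (P : F → Prop) {V : Type} [Fintype V] (G : SimpleGraph V) :
    Prop :=
  ∃ f : V → V → F, (∀ u v, f u v = - f v u) ∧ (∀ v, ∑ u, f v u = 0) ∧
    (∀ u v, ¬ G.Adj u v → f u v = 0) ∧ ∀ u v, G.Adj u v → P (f u v)

/-- Partitions of the edges with circuits on both sides have at least `k` common vertices. -/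
def VConn {V : Type} (G : SimpleGraph V) (k : ℕ) : Prop :=
  ∀ H : SimpleGraph V, H ≤ G → ¬ H.IsAcyclic → ¬ (G \ H).IsAcyclic →
    k ≤ {v | (∃ u, H.Adj v u) ∧ ∃ u, (G \ H).Adj v u}.ncard

end Pool.Agent.K5.Mat
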