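import Mathlib
import Pool.Agent.Work.MP_974d84_co_exp.Base
import Pool.Agent.Work.MP_974d84_co_k5.DefsM

/-!
# The caterpillar expansion of a graph, first part: even subgraphs and the graph
-/

set_option linter.unusedSectionVars false
set_option linter.unusedVariables false

namespace Pool.Agent.K5.Mat.Cat

open Finset SimpleGraph
open Pool.Agent.Exp (acyclic_edges inside_card mem_cut mem_inside)
open Pool.Agent.Work.MP_314beb_co (cut inside even_inside sum_degree_eq_cut_add_inside)

/-- A graph with an edge and even degrees. -/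
def Ev {V : Type} (K : SimpleGraph V) : Prop :=
  (∃ u v, K.Adj u v) ∧ ∀ v, Even (K.neighborSet v).ncard

theorem exists_ev {V : Type} {H : SimpleGraph V} (h : ¬ H.IsAcyclic) : ∃ K ≤ H, Ev K := by
  unfold SimpleGraph.IsAcyclic at h
  push Not at h
  obtain ⟨v, c, hc⟩ := h
  refine ⟨c.toSubgraph.spanningCoe, c.toSubgraph.spanningCoe_le, ⟨v, c.snd, ?_⟩, fun u => ?_⟩
  · exact c.toSubgraph_adj_snd hc.not_nil
  · by_cases hu : u ∈ c.support
    · have h1 : c.toSubgraph.spanningCoe.neighborSet u = c.toSubgraph.neighborSet u := by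
        ext w
        exact Iff.rfl
      rw [h1, hc.ncard_neighborSet_toSubgraph_eq_two hu]
      exact even_two
    · have h1 : c.toSubgraph.spanningCoe.neighborSet u = ∅ := by
        ext w
        simp only [Set.mem_empty_iff_false, iff_false]
        intro hw
        have h2 : c.toSubgraph.Adj u w := hw
        exact hu (c.mem_verts_toSubgraph.1 h2.fst_mem)
      rw [h1, Set.ncard_empty]
      exact Even.zero

theorem not_acyclic_of_ev {V : Type} [Fintype V] {K : SimpleGraph V} (h : Ev K) :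
    ¬ K.IsAcyclic := by
  classical
  intro hac
  obtain ⟨⟨a, b, hab⟩, hev⟩ := h
  let S : Finset V := univ.filter fun v => ∃ u, K.Adj v u
  have hS : ∀ v, v ∈ S ↔ ∃ u, K.Adj v u := fun v => by simp [S]
  have : Nonempty (S : Set V) := ⟨⟨a, by rw [mem_coe, hS]; exact ⟨b, hab⟩⟩⟩
  have h1 := acyclic_edges (K.induce (S : Set V)) (hac.induce _)
  have h2 := inside_card K S
  have h3 := sum_degree_eq_cut_add_inside K S
  have h4 : (cut K S).card = 0 := by
    rw [card_eq_zero, eq_empty_iff_forall_notMem]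
    intro p hp
    rw [mem_cut] at hp
    exact hp.2.1 ((hS _).2 ⟨p.1, hp.2.2.symm⟩)
  have h5 : ∀ v ∈ S, 2 ≤ K.degree v := by
    intro v hv
    obtain ⟨u, hu⟩ := (hS v).1 hv
    have h6 : 0 < K.degree v := (K.degree_pos_iff_exists_adj v).2 ⟨u, hu⟩
    have h7 := hev v
    have h8 : (K.neighborSet v).ncard = K.degree v := by
      rw [← K.card_neighborFinset_eq_degree, ← Set.ncard_coe_finset, K.coe_neighborFinset]
    rw [h8] at h7
    obtain ⟨t, ht⟩ := h7
    omega
  have h6 : 2 * S.card ≤ ∑ v ∈ S, K.degree v := by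
    calc 2 * S.card = ∑ _v ∈ S, 2 := by rw [sum_const, smul_eq_mul, mul_comm]
      _ ≤ ∑ v ∈ S, K.degree v := sum_le_sum h5
  have h7 : Fintype.card (S : Set V) = S.card := by simp
  omega

variable {V : Type} [Fintype V] [DecidableEq V] (G : SimpleGraph V) [DecidableRel G.Adj]

/-- An enumeration of the neighbours. -/
noncomputable def nb (v : V) : G.neighborSet v ≃ Fin (G.degree v) :=
  Fintype.equivFinOfCardEq (G.card_neighborSet_eq_degree v)

/-- The number of the neighbour `u` of `v`. -/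
noncomputable def idx (v u : V) : ℕ := if h : G.Adj v u then (nb G v ⟨u, h⟩ : ℕ) else 0

variable {G}

theorem idx_lt {v u : V} (h : G.Adj v u) : idx G v u < G.degree v := by
  unfold idx
  rw [dif_pos h]
  exact (nb G v ⟨u, h⟩).2

theorem idx_inj {v u u' : V} (h : G.Adj v u) (h' : G.Adj v u')
    (e : idx G v u = idx G v u') : u = u' := by
  unfold idx at e
  rw [dif_pos h, dif_pos h'] at e
  have := (nb G v).injective (Fin.ext e)
  exact congrArg Subtype.val this

theorem idx_surj {v : V} {i : ℕ} (hi : i < G.degree v) : ∃ u, G.Adj v u ∧ idx G v u = i := by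
  obtain ⟨⟨u, hu⟩, hu'⟩ := (nb G v).surjective ⟨i, hi⟩
  refine ⟨u, hu, ?_⟩
  unfold idx
  rw [dif_pos (show G.Adj v u from hu)]
  exact congrArg Fin.val hu'

variable (G)

/-- The place where the neighbour `u` of `v` is attached. -/
noncomputable def att (v u : V) : ℕ := min (idx G v u - 1) (G.degree v - 3)

/-- The vertices of the expansion. -/
abbrev EV : Type := Σ v : V, Fin (G.degree v - 2)

/-- The expansion. -/
def EG : SimpleGraph (EV G) where
  Adj x y := (x.1 = y.1 ∧ ((x.2 : ℕ) + 1 = y.2 ∨ (y.2 : ℕ) + 1 = x.2)) ∨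
    (G.Adj x.1 y.1 ∧ (x.2 : ℕ) = att G x.1 y.1 ∧ (y.2 : ℕ) = att G y.1 x.1)
  symm := ⟨fun _ _ h => h.imp (fun h => ⟨h.1.symm, h.2.symm⟩) fun h => ⟨h.1.symm, h.2.2, h.2.1⟩⟩
  loopless := ⟨fun x h => by
    rcases h with ⟨-, h | h⟩ | ⟨h, -⟩
    · omega
    · omega
    · exact G.loopless.irrefl _ h⟩

variable {G}

theorem ev_ext {x y : EV G} (h1 : x.1 = y.1) (h2 : (x.2 : ℕ) = y.2) : x = y := by
  obtain ⟨a, i⟩ := x
  obtain ⟨b, j⟩ := y
  dsimp only at h1
  subst h1
  congr
  exact Fin.ext h2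

theorem att_lt (h3 : ∀ v, 3 ≤ G.degree v) (v u : V) : att G v u < G.degree v - 2 := by
  have h1 : att G v u ≤ G.degree v - 3 := min_le_right _ _
  have := h3 v
  omega

/-- The end at `v` of the edge from `v` to `u`. -/
noncomputable def lft (h3 : ∀ v, 3 ≤ G.degree v) (v u : V) : EV G := ⟨v, ⟨att G v u, att_lt h3 v u⟩⟩

theorem adj_lft (h3 : ∀ v, 3 ≤ G.degree v) {u v : V} (h : G.Adj u v) :
    (EG G).Adj (lft h3 u v) (lft h3 v u) := Or.inr ⟨h, rfl, rfl⟩

theorem adj_out (h3 : ∀ v, 3 ≤ G.degree v) {x y : EV G} (h : (EG G).Adj x y) (hne : x.1 ≠ y.1) :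
    G.Adj x.1 y.1 ∧ x = lft h3 x.1 y.1 ∧ y = lft h3 y.1 x.1 := by
  rcases h with h | h
  · exact absurd h.1 hne
  · exact ⟨h.1, ev_ext rfl h.2.1, ev_ext rfl h.2.2⟩

/-- The neighbour of `x` outside, with number `i`. -/
theorem exists_ex (h3 : ∀ v, 3 ≤ G.degree v) (v : V) {i : ℕ} (hi : i < G.degree v) :
    ∃ a : EV G, ∀ y : EV G,
      (G.Adj v y.1 ∧ idx G v y.1 = i ∧ (y.2 : ℕ) = att G y.1 v) ↔ y = a := by
  obtain ⟨u, hu, hi'⟩ := idx_surj hi
  refine ⟨lft h3 u v, fun y => ⟨?_, ?_⟩⟩
  · rintro ⟨h1, h2, h4⟩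
    have h5 : y.1 = u := idx_inj h1 hu (h2.trans hi'.symm)
    refine ev_ext h5 ?_
    rw [h4, h5]
    rfl
  · rintro rfl
    exact ⟨hu, hi', rfl⟩

/-- **The expansion is cubic.** -/
theorem deg_three (h3 : ∀ v, 3 ≤ G.degree v) (x : EV G) : ((EG G).neighborSet x).ncard = 3 := by
  obtain ⟨v, j, hj⟩ := x
  have hd := h3 v
  have hin : ∀ {m : ℕ} (hm : m < G.degree v - 2) (y : EV G),
      (v = y.1 ∧ (y.2 : ℕ) = m) ↔ y = ⟨v, ⟨m, hm⟩⟩ := by
    intro m hm y
    constructor
    · rintro ⟨h1, h2⟩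
      exact ev_ext h1.symm h2
    · rintro rfl
      exact ⟨rfl, rfl⟩
  have hadj : ∀ y : EV G, (EG G).Adj ⟨v, ⟨j, hj⟩⟩ y ↔
      (v = y.1 ∧ (j + 1 = (y.2 : ℕ) ∨ (y.2 : ℕ) + 1 = j)) ∨
      (G.Adj v y.1 ∧ j = min (idx G v y.1 - 1) (G.degree v - 3) ∧ (y.2 : ℕ) = att G y.1 v) :=
    fun y => Iff.rfl
  rw [Set.ncard_eq_three]
  by_cases h0 : j = 0
  · subst h0
    by_cases hd3 : G.degree v = 3
    · obtain ⟨a, ha⟩ := exists_ex h3 v (i := 0) (by omega)
      obtain ⟨b, hb⟩ := exists_ex h3 v (i := 1) (by omega)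
      obtain ⟨c, hc⟩ := exists_ex h3 v (i := 2) (by omega)
      refine ⟨a, b, c, ?_, ?_, ?_, ?_⟩
      · rintro rfl
        have h1 := (ha a).2 rfl
        have h2 := (hb a).2 rfl
        omega
      · rintro rfl
        have h1 := (ha a).2 rfl
        have h2 := (hc a).2 rfl
        omega
      · rintro rfl
        have h1 := (hb b).2 rfl
        have h2 := (hc b).2 rfl
        omega
      · ext y
        rw [mem_neighborSet, hadj]
        simp only [Set.mem_insert_iff, Set.mem_singleton_iff]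
        rw [← ha y, ← hb y, ← hc y]
        constructor
        · rintro (⟨h1, h2 | h2⟩ | ⟨h1, h2, h4⟩)
          · have h5 := y.2.2
            have h6 : G.degree y.1 = G.degree v := by rw [← h1]
            omega
          · omega
          · have h5 := idx_lt h1
            have h6 : idx G v y.1 = 0 ∨ idx G v y.1 = 1 ∨ idx G v y.1 = 2 := by omega
            rcases h6 with h6 | h6 | h6
            · exact Or.inl ⟨h1, h6, h4⟩
            · exact Or.inr (Or.inl ⟨h1, h6, h4⟩)
            · exact Or.inr (Or.inr ⟨h1, h6, h4⟩)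
        · rintro (⟨h1, h2, h4⟩ | ⟨h1, h2, h4⟩ | ⟨h1, h2, h4⟩) <;>
            exact Or.inr ⟨h1, by omega, h4⟩
    · obtain ⟨a, ha⟩ := exists_ex h3 v (i := 0) (by omega)
      obtain ⟨b, hb⟩ := exists_ex h3 v (i := 1) (by omega)
      have hm : 1 < G.degree v - 2 := by omega
      refine ⟨a, b, ⟨v, ⟨1, hm⟩⟩, ?_, ?_, ?_, ?_⟩
      · rintro rfl
        have h1 := (ha a).2 rfl
        have h2 := (hb a).2 rfl
        omega
      · intro h1
        have h2 := (ha _).2 h1.symm
        exact G.loopless.irrefl _ h2.1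
      · intro h1
        have h2 := (hb _).2 h1.symm
        exact G.loopless.irrefl _ h2.1
      · ext y
        rw [mem_neighborSet, hadj]
        simp only [Set.mem_insert_iff, Set.mem_singleton_iff]
        rw [← ha y, ← hb y, ← hin hm y]
        constructor
        · rintro (⟨h1, h2 | h2⟩ | ⟨h1, h2, h4⟩)
          · exact Or.inr (Or.inr ⟨h1, by omega⟩)
          · omega
          · have h5 := idx_lt h1
            have h6 : idx G v y.1 = 0 ∨ idx G v y.1 = 1 := by omega
            rcases h6 with h6 | h6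
            · exact Or.inl ⟨h1, h6, h4⟩
            · exact Or.inr (Or.inl ⟨h1, h6, h4⟩)
        · rintro (⟨h1, h2, h4⟩ | ⟨h1, h2, h4⟩ | ⟨h1, h2⟩)
          · exact Or.inr ⟨h1, by omega, h4⟩
          · exact Or.inr ⟨h1, by omega, h4⟩
          · exact Or.inl ⟨h1, by omega⟩
  · have hm0 : j - 1 < G.degree v - 2 := by omega
    obtain ⟨b, hb⟩ := exists_ex h3 v (i := j + 1) (by omega)
    by_cases h1 : j = G.degree v - 3
    · obtain ⟨c, hc⟩ := exists_ex h3 v (i := j + 2) (by omega)
      refine ⟨⟨v, ⟨j - 1, hm0⟩⟩, b, c, ?_, ?_, ?_, ?_⟩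
      · intro h2
        have h4 := (hb _).2 h2
        exact G.loopless.irrefl _ h4.1
      · intro h2
        have h4 := (hc _).2 h2
        exact G.loopless.irrefl _ h4.1
      · rintro rfl
        have h2 := (hb b).2 rfl
        have h4 := (hc b).2 rfl
        omega
      · ext y
        rw [mem_neighborSet, hadj]
        simp only [Set.mem_insert_iff, Set.mem_singleton_iff]
        rw [← hb y, ← hc y, ← hin hm0 y]
        constructor
        · rintro (⟨h2, h4 | h4⟩ | ⟨h2, h4, h5⟩)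
          · have h6 := y.2.2
            have h7 : G.degree y.1 = G.degree v := by rw [← h2]
            omega
          · exact Or.inl ⟨h2, by omega⟩
          · have h6 := idx_lt h2
            have h7 : idx G v y.1 = j + 1 ∨ idx G v y.1 = j + 2 := by omega
            rcases h7 with h7 | h7
            · exact Or.inr (Or.inl ⟨h2, h7, h5⟩)
            · exact Or.inr (Or.inr ⟨h2, h7, h5⟩)
        · rintro (⟨h2, h4⟩ | ⟨h2, h4, h5⟩ | ⟨h2, h4, h5⟩)
          · exact Or.inl ⟨h2, by omega⟩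
          · exact Or.inr ⟨h2, by omega, h5⟩
          · exact Or.inr ⟨h2, by omega, h5⟩
    · have hm1 : j + 1 < G.degree v - 2 := by omega
      refine ⟨⟨v, ⟨j - 1, hm0⟩⟩, b, ⟨v, ⟨j + 1, hm1⟩⟩, ?_, ?_, ?_, ?_⟩
      · intro h2
        have h4 := (hb _).2 h2
        exact G.loopless.irrefl _ h4.1
      · intro h2
        have h4 := (hin hm1 _).2 h2
        simp only at h4
        omega
      · intro h2
        have h4 := (hb _).2 h2.symm
        exact G.loopless.irrefl _ h4.1
      · ext y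
        rw [mem_neighborSet, hadj]
        simp only [Set.mem_insert_iff, Set.mem_singleton_iff]
        rw [← hb y, ← hin hm0 y, ← hin hm1 y]
        constructor
        · rintro (⟨h2, h4 | h4⟩ | ⟨h2, h4, h5⟩)
          · exact Or.inr (Or.inr ⟨h2, h4.symm⟩)
          · exact Or.inl ⟨h2, by omega⟩
          · have h6 := idx_lt h2
            exact Or.inr (Or.inl ⟨h2, by omega, h5⟩)
        · rintro (⟨h2, h4⟩ | ⟨h2, h4, h5⟩ | ⟨h2, h4⟩)
          · exact Or.inl ⟨h2, by omega⟩
          · exact Or.inr ⟨h2, by omega, h5⟩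
          · exact Or.inl ⟨h2, by omega⟩

end Pool.Agent.K5.Mat.Cat
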