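import Pool.Agent.Work.MP_974d84_co_k5.SplitOff
import Pool.Agent.Work.Energy.Coset
import Pool.Agent.Work.MP_974d84_co_exp.Base

/-!
# Charges modulo `q` on disjoint cores
-/

set_option linter.unusedSectionVars false

namespace Pool.Agent.K5

open Finset SimpleGraph Pool.Agent.Exp
open Pool.Agent.Work.MP_314beb_co

section weights

variable {ι : Type*} [Fintype ι] [DecidableEq ι]

/-- The edges of the multigraph with multiplicities `w`, every edge once in each direction. -/
abbrev Ed (w : ι → ι → ℤ) : Type _ := Σ p : ι × ι, Fin (w p.1 p.2).toNat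

theorem sum_Ed {w : ι → ι → ℤ} (h0 : ∀ i j, 0 ≤ w i j) (g : ι → ι → ℝ) :
    ∑ e : Ed w, g e.1.1 e.1.2 = ∑ i, ∑ j, (w i j : ℝ) * g i j := by
  rw [Fintype.sum_sigma, Fintype.sum_prod_type]
  refine sum_congr rfl fun i _ => sum_congr rfl fun j _ => ?_
  show ∑ _y : Fin (w i j).toNat, g i j = _
  rw [sum_const, card_univ, Fintype.card_fin, nsmul_eq_mul]
  congr 1
  have := Int.toNat_of_nonneg (h0 i j)
  exact_mod_cast this

theorem wc_real (w : ι → ι → ℤ) (X : Finset ι) :
    ((wc w X : ℤ) : ℝ) = ∑ i, ∑ j, (w i j : ℝ) * (if i ∈ X ∧ j ∉ X then 1 else 0) := by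
  unfold wc
  push_cast
  refine sum_congr rfl fun i _ => sum_congr rfl fun j _ => ?_
  split_ifs <;> simp

/-- **Charges modulo `q`**, weights form. -/
theorem charges_of_weights {w : ι → ι → ℤ} (h0 : ∀ i j, 0 ≤ w i j) (hs : ∀ i j, w i j = w j i)
    {k : ℕ} (hk : 0 < k) (hcut : ∀ X : Finset ι, X.Nonempty → X ≠ univ → (2 * k : ℤ) ≤ wc w X)
    {q : ℕ} (hq : 0 < q) (b : ι → ℤ) (hb : (q : ℤ) ∣ ∑ i, b i) :
    ∃ β : ι → ℤ, (∀ i, (q : ℤ) ∣ β i - b i) ∧ ∑ i, β i = 0 ∧
      ∀ X : Finset ι, |((∑ i ∈ X, β i : ℤ) : ℝ)| ≤ q / (2 * k) * (wc w X : ℤ) := by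
  classical
  have hkR : (0 : ℝ) < k := by exact_mod_cast hk
  set s : Ed w → ι := fun e => e.1.1 with hsdef
  set t : Ed w → ι := fun e => e.1.2 with htdef
  -- partition inequality
  have hθ : ∀ p : ι → ℕ, ((univ.image p).card : ℝ) - 1 ≤
      (1 / (2 * k) : ℝ) * ((univ.filter (fun e => p (s e) ≠ p (t e))).card : ℝ) := by
    intro p
    have hcard : ((univ.filter (fun e => p (s e) ≠ p (t e))).card : ℝ)
        = ∑ c ∈ univ.image p, ((wc w (univ.filter fun i => p i = c) : ℤ) : ℝ) := by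
      have h1 : ((univ.filter (fun e : Ed w => p (s e) ≠ p (t e))).card : ℝ)
          = ∑ e : Ed w, if p e.1.1 ≠ p e.1.2 then (1 : ℝ) else 0 := by
        rw [sum_ite, sum_const, sum_const_zero, add_zero, nsmul_eq_mul, mul_one]
      rw [h1, sum_Ed h0 (fun i j => if p i ≠ p j then (1 : ℝ) else 0)]
      simp only [wc_real]
      rw [sum_comm (s := univ.image p)]
      refine sum_congr rfl fun i _ => ?_
      rw [sum_comm (s := univ.image p)]
      refine sum_congr rfl fun j _ => ?_
      rw [← mul_sum]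
      congr 1
      rw [sum_eq_single (p i)]
      · by_cases h : p i = p j
        · simp [h]
        · have h' : p j ≠ p i := fun h2 => h h2.symm
          simp [h, h']
      · intro c _ hc
        have : p i ≠ c := fun h => hc h.symm
        simp [this]
      · intro h
        exact absurd (mem_image_of_mem p (mem_univ i)) h
    rw [hcard]
    rcases Nat.lt_or_ge (univ.image p).card 2 with h2 | h2
    · have h3 : (0 : ℝ) ≤ ∑ c ∈ univ.image p, ((wc w (univ.filter fun i => p i = c) : ℤ) : ℝ) :=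
        sum_nonneg fun c _ => by exact_mod_cast wc_nonneg h0 _
      have h4 : ((univ.image p).card : ℝ) ≤ 1 := by
        have : (univ.image p).card ≤ 1 := by omega
        exact_mod_cast this
      have : (0 : ℝ) ≤ 1 / (2 * k) := by positivity
      nlinarith [mul_nonneg this h3]
    · have h3 : ∀ c ∈ univ.image p, (2 * k : ℝ) ≤
          ((wc w (univ.filter fun i => p i = c) : ℤ) : ℝ) := by
        intro c hc
        obtain ⟨i, -, hi⟩ := mem_image.1 hc
        have := hcut (univ.filter fun i => p i = c) ⟨i, by simp [hi]⟩ (by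
          intro h
          have h5 : univ.image p ⊆ {c} := by
            intro c' hc'
            obtain ⟨j, -, hj⟩ := mem_image.1 hc'
            have : j ∈ univ.filter fun i => p i = c := by rw [h]; exact mem_univ j
            rw [mem_filter] at this
            rw [mem_singleton, ← hj]
            exact this.2
          have := card_le_card h5
          rw [card_singleton] at this
          omega)
        exact_mod_cast this
      have h4 := sum_le_sum h3
      rw [sum_const, nsmul_eq_mul] at h4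
      have h5 : (1 / (2 * k) : ℝ) * (((univ.image p).card : ℝ) * (2 * k))
          = ((univ.image p).card : ℝ) := by field_simp
      have h6 : (0 : ℝ) ≤ 1 / (2 * k) := by positivity
      have h7 := mul_le_mul_of_nonneg_left h4 h6
      rw [h5] at h7
      linarith
  obtain ⟨z, hz, hzv⟩ := Energy.coset s t (1 / (2 * k)) (by positivity) hθ hq b hb
  choose κ hκ using hzv
  have hnet : ∀ i, ((b i + q * κ i : ℤ) : ℝ) = Energy.net s t z i := by
    intro i
    rw [hκ i]
    push_cast
    ring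
  have hcutsum : ∀ X : Finset ι, ((∑ i ∈ X, (b i + q * κ i) : ℤ) : ℝ)
      = ∑ e : Ed w, z e * ((if e.1.1 ∈ X then 1 else 0) - if e.1.2 ∈ X then 1 else 0) := by
    intro X
    rw [Int.cast_sum, sum_congr rfl fun i _ => hnet i]
    unfold Energy.net
    rw [sum_comm]
    refine sum_congr rfl fun e _ => ?_
    rw [← mul_sum]
    congr 1
    simp only [Energy.inc_apply]
    rw [sum_sub_distrib]
    congr 1
    · rw [sum_ite_eq]
    · rw [sum_ite_eq]
  refine ⟨fun i => b i + q * κ i, fun i => ⟨κ i, by ring⟩, ?_, fun X => ?_⟩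
  · have h := hcutsum univ
    simp only [mem_univ, if_true, sub_self, mul_zero, sum_const_zero] at h
    exact_mod_cast h
  · rw [hcutsum X]
    have h1 : ∀ e : Ed w, |z e * ((if e.1.1 ∈ X then (1 : ℝ) else 0) - if e.1.2 ∈ X then 1 else 0)|
        ≤ q / (4 * k) * ((if e.1.1 ∈ X ∧ e.1.2 ∉ X then 1 else 0)
          + if e.1.2 ∈ X ∧ e.1.1 ∉ X then 1 else 0) := by
      intro e
      have h2 := hz e
      have h3 : (q : ℝ) / 2 * (1 / (2 * k)) = q / (4 * k) := by field_simp; norm_num
      rw [h3] at h2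
      rw [abs_mul]
      have h4 : (0 : ℝ) ≤ q / (4 * k) := by positivity
      by_cases ha : e.1.1 ∈ X <;> by_cases hb' : e.1.2 ∈ X <;> simp [ha, hb'] <;> linarith
    calc _ ≤ ∑ e : Ed w, |z e * ((if e.1.1 ∈ X then (1 : ℝ) else 0) - if e.1.2 ∈ X then 1 else 0)| :=
          abs_sum_le_sum_abs _ _
      _ ≤ ∑ e : Ed w, q / (4 * k) * ((if e.1.1 ∈ X ∧ e.1.2 ∉ X then (1 : ℝ) else 0)
          + if e.1.2 ∈ X ∧ e.1.1 ∉ X then 1 else 0) := sum_le_sum fun e _ => h1 e
      _ = q / (4 * k) * (∑ e : Ed w, ((if e.1.1 ∈ X ∧ e.1.2 ∉ X then (1 : ℝ) else 0)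
          + if e.1.2 ∈ X ∧ e.1.1 ∉ X then 1 else 0)) := by rw [mul_sum]
      _ = q / (4 * k) * (2 * ((wc w X : ℤ) : ℝ)) := by
          congr 1
          rw [sum_Ed h0 (fun i j => (if i ∈ X ∧ j ∉ X then (1 : ℝ) else 0)
            + if j ∈ X ∧ i ∉ X then 1 else 0)]
          simp only [mul_add, sum_add_distrib]
          rw [two_mul, wc_real]
          congr 1
          rw [sum_comm]
          refine sum_congr rfl fun i _ => sum_congr rfl fun j _ => ?_
          rw [hs j i]
      _ = q / (2 * k) * ((wc w X : ℤ) : ℝ) := by field_simp; norm_num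

/-- **Charges modulo `q`** on terminals: all other vertices have charge `0`. -/
theorem charges_of_terminals {Q : Type*} [Fintype Q] [DecidableEq Q] (f : ι → Q)
    (hf : Function.Injective f)
    {w : Q → Q → ℤ} (h0 : ∀ i j, 0 ≤ w i j) (hs : ∀ i j, w i j = w j i)
    (hev : ∀ X, Even (wc w X))
    {k : ℕ} (hk : 0 < k) (hcut : ∀ X : Finset Q, (∃ i, f i ∈ X) → (∃ i, f i ∉ X) →
      (2 * k : ℤ) ≤ wc w X)
    {q : ℕ} (hq : 0 < q) (b : ι → ℤ) (hb : (q : ℤ) ∣ ∑ i, b i) :
    ∃ β : ι → ℤ, (∀ i, (q : ℤ) ∣ β i - b i) ∧ ∑ i, β i = 0 ∧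
      ∀ X : Finset Q, |((∑ i ∈ univ.filter (fun i => f i ∈ X), β i : ℤ) : ℝ)|
        ≤ q / (2 * k) * (wc w X : ℤ) := by
  classical
  have hS : ∀ X : Finset Q, Sep (univ.image f) X ↔ (∃ i, f i ∈ X) ∧ ∃ i, f i ∉ X := by
    intro X
    unfold Sep
    simp
  obtain ⟨w', g0, gs, gU, gle, gcut⟩ := split_off (univ.image f) k (tot w).toNat w
    (by rw [Int.toNat_of_nonneg (tot_nonneg h0)]) h0 hs hev
    (fun X hX => hcut X ((hS X).1 hX).1 ((hS X).1 hX).2)
  -- weights on `ι`
  set v : ι → ι → ℤ := fun i j => w' (f i) (f j) with hv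
  have hwc : ∀ X : Finset Q, wc v (univ.filter fun i => f i ∈ X) = wc w' X := by
    intro X
    unfold wc
    have e1 : ∀ a : Q, a ∉ univ.image f →
        (∑ c, if a ∈ X ∧ c ∉ X then w' a c else 0) = 0 := by
      intro a ha
      refine sum_eq_zero fun c _ => ?_
      split_ifs with h
      · exact gU a ha c fun h' => h.2 (h' ▸ h.1)
      · rfl
    have e2 : ∀ a c : Q, c ∉ univ.image f → (if a ∈ X ∧ c ∉ X then w' a c else 0) = 0 := by
      intro a c hc
      split_ifs with h
      · rw [gs a c]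
        exact gU c hc a fun h' => h.2 (h' ▸ h.1)
      · rfl
    rw [← sum_subset (subset_univ (univ.image f)) fun a _ ha => e1 a ha,
      sum_image fun a _ b _ h => hf h]
    refine sum_congr rfl fun i _ => ?_
    rw [← sum_subset (subset_univ (univ.image f)) fun c _ hc => e2 (f i) c hc,
      sum_image fun a _ b _ h => hf h]
    refine sum_congr rfl fun j _ => ?_
    simp [hv]
  obtain ⟨β, hβ1, hβ2, hβ3⟩ := charges_of_weights (w := v) (fun i j => g0 _ _)
    (fun i j => gs _ _) hk (by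
      intro X hX hXu
      have h1 := hwc (X.image f)
      have h2 : (univ.filter fun i => f i ∈ X.image f) = X := by
        ext i
        simp only [mem_filter, mem_univ, true_and, mem_image]
        constructor
        · rintro ⟨j, hj, hji⟩
          exact hf hji ▸ hj
        · intro hi
          exact ⟨i, hi, rfl⟩
      rw [h2] at h1
      rw [h1]
      refine gcut _ ((hS _).2 ⟨?_, ?_⟩)
      · obtain ⟨i, hi⟩ := hX
        exact ⟨i, mem_image_of_mem f hi⟩
      · by_contra hcon
        push Not at hcon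
        refine hXu (eq_univ_of_forall fun i => ?_)
        obtain ⟨j, hj, hji⟩ := mem_image.1 (hcon i)
        exact hf hji ▸ hj) hq b hb
  refine ⟨β, hβ1, hβ2, fun X => ?_⟩
  have h1 := hβ3 (univ.filter fun i => f i ∈ X)
  rw [hwc X] at h1
  refine h1.trans (mul_le_mul_of_nonneg_left ?_ (by positivity))
  exact_mod_cast gle X

end weights

section cores

variable {V : Type*} [Fintype V] [DecidableEq V] {G : SimpleGraph V} [DecidableRel G.Adj]
variable {ι : Type*} [Fintype ι] [DecidableEq ι]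

theorem sum_fib {Q : Type*} [Fintype Q] [DecidableEq Q] (c : V → Q) (P : V → V → Prop)
    [DecidableRel P] :
    ∑ x, ∑ y, ∑ u, ∑ v, (if P u v ∧ c u = x ∧ c v = y then (1 : ℤ) else 0)
      = ∑ u, ∑ v, if P u v then (1 : ℤ) else 0 := by
  calc _ = ∑ p : Q × Q, ∑ r : V × V,
        (if P r.1 r.2 ∧ c r.1 = p.1 ∧ c r.2 = p.2 then (1 : ℤ) else 0) := by
        rw [Fintype.sum_prod_type]
        refine sum_congr rfl fun x _ => sum_congr rfl fun y _ => ?_
        rw [Fintype.sum_prod_type]
    _ = ∑ r : V × V, ∑ p : Q × Q,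
        (if P r.1 r.2 ∧ c r.1 = p.1 ∧ c r.2 = p.2 then (1 : ℤ) else 0) := sum_comm
    _ = ∑ r : V × V, (if P r.1 r.2 then (1 : ℤ) else 0) := by
        refine sum_congr rfl fun r _ => ?_
        rw [sum_eq_single (c r.1, c r.2)]
        · simp
        · rintro ⟨x, y⟩ _ hne
          rw [if_neg]
          rintro ⟨-, h1, h2⟩
          exact hne (by rw [h1, h2])
        · simp
    _ = _ := by rw [Fintype.sum_prod_type]

/-- `X` splits none of the cores. -/
def NoSplit (S : ι → Finset V) (X : Finset V) : Prop := ∀ i, S i ⊆ X ∨ Disjoint (S i) X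

/-- **Charges modulo `q` on disjoint cores.** -/
theorem core_charges (S : ι → Finset V) (hne : ∀ i, (S i).Nonempty)
    (hd : ∀ i j, i ≠ j → Disjoint (S i) (S j)) {k : ℕ} (hk : 0 < k)
    (hcut : ∀ X : Finset V, NoSplit S X → (∃ i, S i ⊆ X) → (∃ i, Disjoint (S i) X) →
      k ≤ dd G X)
    {q : ℕ} (hq : 0 < q) (b : ι → ℤ) (hb : (q : ℤ) ∣ ∑ i, b i) :
    ∃ β : ι → ℤ, (∀ i, (q : ℤ) ∣ β i - b i) ∧ ∑ i, β i = 0 ∧
      ∀ X : Finset V, NoSplit S X →
        |((∑ i ∈ univ.filter (fun i => S i ⊆ X), β i : ℤ) : ℝ)| ≤ q / k * dd G X := by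
  classical
  -- the contraction
  set c : V → ι ⊕ V := fun v => if h : ∃ i, v ∈ S i then Sum.inl h.choose else Sum.inr v with hc
  have hc1 : ∀ v i, v ∈ S i → c v = Sum.inl i := by
    intro v i hv
    have h : ∃ i, v ∈ S i := ⟨i, hv⟩
    simp only [hc, dif_pos h]
    congr 1
    by_contra hne'
    exact Finset.disjoint_left.1 (hd _ _ hne') h.choose_spec hv
  have hc2 : ∀ v i, c v = Sum.inl i → v ∈ S i := by
    intro v i hv
    by_cases h : ∃ j, v ∈ S j
    · simp only [hc, dif_pos h, Sum.inl.injEq] at hv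
      exact hv ▸ h.choose_spec
    · simp [hc, dif_neg h] at hv
  set w : ι ⊕ V → ι ⊕ V → ℤ := fun x y =>
    2 * ∑ u, ∑ v, if G.Adj u v ∧ c u = x ∧ c v = y then (1 : ℤ) else 0 with hw
  have hwc : ∀ X : Finset (ι ⊕ V), wc w X = 2 * (dd G (univ.filter fun v => c v ∈ X) : ℤ) := by
    intro X
    have hdd : (dd G (univ.filter fun v => c v ∈ X) : ℤ)
        = ∑ u, ∑ v, if G.Adj u v ∧ c u ∈ X ∧ c v ∉ X then (1 : ℤ) else 0 := by
      unfold dd cut
      rw [card_filter]
      push_cast
      rw [← Fintype.sum_prod_type']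
      refine sum_congr rfl fun p _ => ?_
      simp only [mem_filter, mem_univ, true_and]
      congr 1
      exact propext ⟨fun h => ⟨h.2.2, h.1, h.2.1⟩, fun h => ⟨h.2.1, h.2.2, h.1⟩⟩
    rw [hdd]
    unfold wc
    have e1 : ∀ x y : ι ⊕ V, (if x ∈ X ∧ y ∉ X then w x y else 0)
        = 2 * ∑ u, ∑ v, if (G.Adj u v ∧ c u ∈ X ∧ c v ∉ X) ∧ c u = x ∧ c v = y
          then (1 : ℤ) else 0 := by
      intro x y
      split_ifs with h
      · simp only [hw]
        congr 1
        refine sum_congr rfl fun u _ => sum_congr rfl fun v _ => ?_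
        congr 1
        refine propext ⟨fun h' => ?_, fun h' => ⟨h'.1.1, h'.2⟩⟩
        exact ⟨⟨h'.1, h'.2.1 ▸ h.1, h'.2.2 ▸ h.2⟩, h'.2⟩
      · symm
        rw [mul_eq_zero]
        right
        refine sum_eq_zero fun u _ => sum_eq_zero fun v _ => if_neg fun h' => h ?_
        exact ⟨h'.2.1 ▸ h'.1.2.1, h'.2.2 ▸ h'.1.2.2⟩
    simp only [e1, ← mul_sum]
    congr 1
    exact sum_fib c _
  have hsplit : ∀ X : Finset (ι ⊕ V), NoSplit S (univ.filter fun v => c v ∈ X) := by
    intro X i
    by_cases h : Sum.inl i ∈ X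
    · left
      intro v hv
      simp [hc1 v i hv, h]
    · right
      rw [Finset.disjoint_left]
      intro v hv hv'
      rw [mem_filter, hc1 v i hv] at hv'
      exact h hv'.2
  have hin : ∀ (X : Finset (ι ⊕ V)) i, Sum.inl i ∈ X ↔ S i ⊆ univ.filter fun v => c v ∈ X := by
    intro X i
    constructor
    · intro h v hv
      simp [hc1 v i hv, h]
    · intro h
      obtain ⟨v, hv⟩ := hne i
      have := h hv
      rw [mem_filter, hc1 v i hv] at this
      exact this.2
  obtain ⟨β, hβ1, hβ2, hβ3⟩ := charges_of_terminals (Q := ι ⊕ V) Sum.inl Sum.inl_injective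
    (w := w) (fun x y => by
      simp only [hw]
      refine mul_nonneg (by norm_num) (sum_nonneg fun u _ => sum_nonneg fun v _ => ?_)
      split_ifs <;> norm_num) (fun x y => by
      simp only [hw]
      congr 1
      rw [sum_comm]
      refine sum_congr rfl fun u _ => sum_congr rfl fun v _ => ?_
      congr 1
      exact propext ⟨fun h => ⟨h.1.symm, h.2.2, h.2.1⟩, fun h => ⟨h.1.symm, h.2.2, h.2.1⟩⟩)
    (fun X => ⟨dd G (univ.filter fun v => c v ∈ X), by rw [hwc X]; ring⟩) hk
    (by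
      rintro X ⟨i, hi⟩ ⟨j, hj⟩
      rw [hwc X]
      have := hcut _ (hsplit X) ⟨i, (hin X i).1 hi⟩ ⟨j, (hsplit X j).resolve_left
        fun h => hj ((hin X j).2 h)⟩
      have h2 : (k : ℤ) ≤ (dd G (univ.filter fun v => c v ∈ X) : ℤ) := by exact_mod_cast this
      linarith) hq b hb
  refine ⟨β, hβ1, hβ2, fun X hX => ?_⟩
  set X' : Finset (ι ⊕ V) := univ.filter fun x =>
    (∃ i, x = Sum.inl i ∧ S i ⊆ X) ∨ ∃ v, x = Sum.inr v ∧ v ∈ X with hX'
  have hpre : (univ.filter fun v => c v ∈ X') = X := by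
    ext v
    simp only [mem_filter, mem_univ, true_and, hX']
    by_cases h : ∃ i, v ∈ S i
    · obtain ⟨i, hi⟩ := h
      rw [hc1 v i hi]
      constructor
      · rintro (⟨j, hj, hjX⟩ | ⟨j, hj, -⟩)
        · exact hjX (Sum.inl_injective hj ▸ hi)
        · exact absurd hj (by simp)
      · intro hv
        refine Or.inl ⟨i, rfl, (hX i).resolve_right fun h' => ?_⟩
        exact Finset.disjoint_left.1 h' hi hv
    · have hcv : c v = Sum.inr v := by simp only [hc, dif_neg h]
      rw [hcv]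
      simp
  have h1 := hβ3 X'
  rw [hwc X', hpre] at h1
  have h2 : (univ.filter fun i => Sum.inl i ∈ X') = univ.filter fun i => S i ⊆ X := by
    ext i
    simp only [mem_filter, mem_univ, true_and]
    rw [hin X' i, hpre]
  rw [h2] at h1
  refine h1.trans (le_of_eq ?_)
  push_cast
  have hkR : (k : ℝ) ≠ 0 := by exact_mod_cast hk.ne'
  field_simp

end cores

end Pool.Agent.K5
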