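import Pool.Agent.Work.MP_974d84_co_k5.Charges

/-!
# Line G: charges modulo `q` on disjoint cores, every charge at most `q`
-/

set_option linter.unusedSectionVars false

namespace Pool.Agent.K5

open Finset SimpleGraph Pool.Agent.Exp
open Pool.Agent.Work.MP_314beb_co

section pendants

variable {ι : Type*} [Fintype ι] [DecidableEq ι] {Q : Type*} [Fintype Q] [DecidableEq Q]

/-- The weights with `m` parallel edges from every terminal to a new pendant vertex. -/
def wpend (f : ι → Q) (w : Q → Q → ℤ) (m : ℤ) : ι ⊕ Q → ι ⊕ Q → ℤ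
  | Sum.inr x, Sum.inr y => w x y
  | Sum.inl i, Sum.inr y => if y = f i then m else 0
  | Sum.inr x, Sum.inl i => if x = f i then m else 0
  | Sum.inl _, Sum.inl _ => 0

theorem wc_wpend (f : ι → Q) (w : Q → Q → ℤ) (m : ℤ) (X : Finset (ι ⊕ Q)) :
    wc (wpend f w m) X = wc w (univ.filter fun x => Sum.inr x ∈ X)
      + m * (univ.filter fun i => ¬ (Sum.inl i ∈ X ↔ Sum.inr (f i) ∈ X)).card := by
  have h1 : ∀ i : ι, (∑ y : Q, if Sum.inl i ∈ X ∧ Sum.inr y ∉ X then
      wpend f w m (Sum.inl i) (Sum.inr y) else 0)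
      = if Sum.inl i ∈ X ∧ Sum.inr (f i) ∉ X then m else 0 := by
    intro i
    rw [Finset.sum_eq_single (f i)]
    · simp [wpend]
    · intro y _ hy
      simp [wpend, hy]
    · simp
  have h2 : ∀ i : ι, (∑ x : Q, if Sum.inr x ∈ X ∧ Sum.inl i ∉ X then
      wpend f w m (Sum.inr x) (Sum.inl i) else 0)
      = if Sum.inr (f i) ∈ X ∧ Sum.inl i ∉ X then m else 0 := by
    intro i
    rw [Finset.sum_eq_single (f i)]
    · simp [wpend]
    · intro y _ hy
      simp [wpend, hy]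
    · simp
  have h3 : (m * ((univ.filter fun i => ¬ (Sum.inl i ∈ X ↔ Sum.inr (f i) ∈ X)).card : ℤ))
      = ∑ i : ι, ((if Sum.inl i ∈ X ∧ Sum.inr (f i) ∉ X then m else 0)
        + if Sum.inr (f i) ∈ X ∧ Sum.inl i ∉ X then m else 0) := by
    rw [card_filter]
    push_cast
    rw [mul_sum]
    refine sum_congr rfl fun i _ => ?_
    by_cases a : (Sum.inl i : ι ⊕ Q) ∈ X <;> by_cases b : (Sum.inr (f i) : ι ⊕ Q) ∈ X <;>
      simp [a, b]
  rw [h3, sum_add_distrib]
  unfold wc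
  rw [Fintype.sum_sum_type]
  simp only [Fintype.sum_sum_type, sum_add_distrib]
  rw [sum_congr rfl fun i _ => h1 i]
  rw [show (∑ x : Q, ∑ i : ι, if Sum.inr x ∈ X ∧ Sum.inl i ∉ X then
      wpend f w m (Sum.inr x) (Sum.inl i) else 0)
      = ∑ i : ι, if Sum.inr (f i) ∈ X ∧ Sum.inl i ∉ X then m else 0 from by
    rw [sum_comm]
    exact sum_congr rfl fun i _ => h2 i]
  have h4 : (∑ i : ι, ∑ j : ι, if Sum.inl i ∈ X ∧ Sum.inl j ∉ X then
      wpend f w m (Sum.inl i) (Sum.inl j) else 0) = 0 :=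
    sum_eq_zero fun i _ => sum_eq_zero fun j _ => by simp [wpend]
  have h5 : (∑ x : Q, ∑ y : Q, if Sum.inr x ∈ X ∧ Sum.inr y ∉ X then
      wpend f w m (Sum.inr x) (Sum.inr y) else 0)
      = ∑ x : Q, ∑ y : Q, if x ∈ (univ.filter fun x => Sum.inr x ∈ X) ∧
        y ∉ (univ.filter fun x => Sum.inr x ∈ X) then w x y else 0 := by
    refine sum_congr rfl fun x _ => sum_congr rfl fun y _ => ?_
    simp [wpend]
  rw [h4, h5]
  ring

/-- **Charges modulo `q`** on terminals, every charge at most `q`. -/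
theorem charges_pendants (f : ι → Q) (_hf : Function.Injective f)
    {w : Q → Q → ℤ} (h0 : ∀ i j, 0 ≤ w i j) (hs : ∀ i j, w i j = w j i)
    (hev : ∀ X, Even (wc w X))
    {k : ℕ} (hk : 0 < k) (hcut : ∀ X : Finset Q, (∃ i, f i ∈ X) → (∃ i, f i ∉ X) →
      (2 * k : ℤ) ≤ wc w X)
    {q : ℕ} (hq : 0 < q) (b : ι → ℤ) (hb : (q : ℤ) ∣ ∑ i, b i) :
    ∃ β : ι → ℤ, (∀ i, (q : ℤ) ∣ β i - b i) ∧ ∑ i, β i = 0 ∧ (∀ i, |β i| ≤ q) ∧
      ∀ X : Finset Q, |((∑ i ∈ univ.filter (fun i => f i ∈ X), β i : ℤ) : ℝ)|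
        ≤ q / (2 * k) * (wc w X : ℤ) := by
  classical
  have hkR : (0 : ℝ) < k := by exact_mod_cast hk
  have hw0 : ∀ i j, 0 ≤ wpend f w (2 * k : ℤ) i j := by
    rintro (i | x) (j | y) <;> simp only [wpend]
    · exact le_refl _
    · split_ifs <;> positivity
    · split_ifs <;> positivity
    · exact h0 _ _
  obtain ⟨β, hβ1, hβ2, hβ3⟩ := charges_of_terminals (Q := ι ⊕ Q) Sum.inl Sum.inl_injective
    (w := wpend f w (2 * k : ℤ)) hw0 (by
      rintro (i | x) (j | y) <;> simp only [wpend]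
      exact hs _ _)
    (fun X => by
      rw [wc_wpend]
      refine (hev _).add ?_
      rw [mul_assoc]
      exact even_two_mul _) hk (by
      rintro X ⟨i, hi⟩ ⟨j, hj⟩
      rw [wc_wpend]
      by_cases hsep : (univ.filter fun i => ¬ (Sum.inl i ∈ X ↔ Sum.inr (f i) ∈ X)).Nonempty
      · have h1 : (1 : ℤ) ≤ (univ.filter fun i => ¬ (Sum.inl i ∈ X ↔
            Sum.inr (f i) ∈ X)).card := by
          exact_mod_cast card_pos.2 hsep
        have h2 := wc_nonneg h0 (univ.filter fun x => Sum.inr x ∈ X)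
        nlinarith
      · rw [not_nonempty_iff_eq_empty, filter_eq_empty_iff] at hsep
        have h1 := hcut (univ.filter fun x => Sum.inr x ∈ X)
          ⟨i, by simpa using (not_not.1 (hsep (mem_univ i))).1 hi⟩
          ⟨j, by
            simp only [mem_filter, mem_univ, true_and]
            exact fun h => hj ((not_not.1 (hsep (mem_univ j))).2 h)⟩
        have h3 : (0 : ℤ) ≤ 2 * k * ((univ.filter fun i => ¬ (Sum.inl i ∈ X ↔
            Sum.inr (f i) ∈ X)).card : ℤ) := by positivity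
        linarith) hq b hb
  refine ⟨β, hβ1, hβ2, fun i => ?_, fun X => ?_⟩
  · have h1 := hβ3 {Sum.inl i}
    have h2 : (univ.filter fun j => (Sum.inl j : ι ⊕ Q) ∈ ({Sum.inl i} : Finset (ι ⊕ Q))) = {i} := by
      ext j
      simp
    have h3 : wc (wpend f w (2 * k : ℤ)) {Sum.inl i} = 2 * k := by
      rw [wc_wpend]
      have e1 : (univ.filter fun x => (Sum.inr x : ι ⊕ Q) ∈ ({Sum.inl i} : Finset (ι ⊕ Q))) = ∅ := by
        ext x
        simp
      have e2 : (univ.filter fun j => ¬ ((Sum.inl j : ι ⊕ Q) ∈ ({Sum.inl i} : Finset (ι ⊕ Q)) ↔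
          Sum.inr (f j) ∈ ({Sum.inl i} : Finset (ι ⊕ Q)))) = {i} := by
        ext j
        simp
      rw [e1, e2]
      simp [wc]
    rw [h2, h3, sum_singleton] at h1
    have h4 : (q : ℝ) / (2 * k) * ((2 * k : ℤ) : ℝ) = q := by
      push_cast
      field_simp
    rw [h4] at h1
    exact_mod_cast h1
  · have h1 := hβ3 (univ.filter fun y => (∃ i, y = Sum.inl i ∧ f i ∈ X) ∨
      ∃ x, y = Sum.inr x ∧ x ∈ X)
    have e0 : (univ.filter fun i => (Sum.inl i : ι ⊕ Q) ∈ (univ.filter fun y =>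
        (∃ i, y = Sum.inl i ∧ f i ∈ X) ∨ ∃ x, y = Sum.inr x ∧ x ∈ X))
        = univ.filter fun i => f i ∈ X := by
      ext i
      simp
    have e1 : (univ.filter fun x => (Sum.inr x : ι ⊕ Q) ∈ (univ.filter fun y =>
        (∃ i, y = Sum.inl i ∧ f i ∈ X) ∨ ∃ x, y = Sum.inr x ∧ x ∈ X)) = X := by
      ext x
      simp
    have e2 : (univ.filter fun j => ¬ ((Sum.inl j : ι ⊕ Q) ∈ (univ.filter fun y =>
        (∃ i, y = Sum.inl i ∧ f i ∈ X) ∨ ∃ x, y = Sum.inr x ∧ x ∈ X) ↔
          Sum.inr (f j) ∈ (univ.filter fun y =>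
        (∃ i, y = Sum.inl i ∧ f i ∈ X) ∨ ∃ x, y = Sum.inr x ∧ x ∈ X))) = ∅ := by
      ext j
      simp
    rw [e0, wc_wpend, e1, e2] at h1
    simpa using h1

end pendants

section cores

variable {V : Type*} [Fintype V] [DecidableEq V] {G : SimpleGraph V} [DecidableRel G.Adj]
variable {ι : Type*} [Fintype ι] [DecidableEq ι]

/-- **Charges modulo `q` on disjoint cores**, every charge at most `q`. -/
theorem core_charges_pend (S : ι → Finset V) (hne : ∀ i, (S i).Nonempty)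
    (hd : ∀ i j, i ≠ j → Disjoint (S i) (S j)) {k : ℕ} (hk : 0 < k)
    (hcut : ∀ X : Finset V, NoSplit S X → (∃ i, S i ⊆ X) → (∃ i, Disjoint (S i) X) →
      k ≤ dd G X)
    {q : ℕ} (hq : 0 < q) (b : ι → ℤ) (hb : (q : ℤ) ∣ ∑ i, b i) :
    ∃ β : ι → ℤ, (∀ i, (q : ℤ) ∣ β i - b i) ∧ ∑ i, β i = 0 ∧ (∀ i, |β i| ≤ q) ∧
      ∀ X : Finset V, NoSplit S X →
        |((∑ i ∈ univ.filter (fun i => S i ⊆ X), β i : ℤ) : ℝ)| ≤ q / k * dd G X := by
  classical
  -- the contraction
  set c : V → ι ⊕ V := fun v => if h : ∃ i, v ∈ S i then Sum.inl h.choose else Sum.inr v with hc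
  have hc1 : ∀ v i, v ∈ S i → c v = Sum.inl i := by
    intro v i hv
    have h : ∃ i, v ∈ S i := ⟨i, hv⟩
    simp only [hc, dif_pos h]
    congr 1
    by_contra hne'
    exact Finset.disjoint_left.1 (hd _ _ hne') h.choose_spec hv
  have hc2 : ∀ v i, c v = Sum.inl i → v ∈ S i := by
    intro v i hv
    by_cases h : ∃ j, v ∈ S j
    · simp only [hc, dif_pos h, Sum.inl.injEq] at hv
      exact hv ▸ h.choose_spec
    · simp [hc, dif_neg h] at hv
  set w : ι ⊕ V → ι ⊕ V → ℤ := fun x y =>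
    2 * ∑ u, ∑ v, if G.Adj u v ∧ c u = x ∧ c v = y then (1 : ℤ) else 0 with hw
  have hwc : ∀ X : Finset (ι ⊕ V), wc w X = 2 * (dd G (univ.filter fun v => c v ∈ X) : ℤ) := by
    intro X
    have hdd : (dd G (univ.filter fun v => c v ∈ X) : ℤ)
        = ∑ u, ∑ v, if G.Adj u v ∧ c u ∈ X ∧ c v ∉ X then (1 : ℤ) else 0 := by
      unfold dd cut
      rw [card_filter]
      push_cast
      rw [← Fintype.sum_prod_type']
      refine sum_congr rfl fun p _ => ?_
      simp only [mem_filter, mem_univ, true_and]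
      congr 1
      exact propext ⟨fun h => ⟨h.2.2, h.1, h.2.1⟩, fun h => ⟨h.2.1, h.2.2, h.1⟩⟩
    rw [hdd]
    unfold wc
    have e1 : ∀ x y : ι ⊕ V, (if x ∈ X ∧ y ∉ X then w x y else 0)
        = 2 * ∑ u, ∑ v, if (G.Adj u v ∧ c u ∈ X ∧ c v ∉ X) ∧ c u = x ∧ c v = y
          then (1 : ℤ) else 0 := by
      intro x y
      split_ifs with h
      · simp only [hw]
        congr 1
        refine sum_congr rfl fun u _ => sum_congr rfl fun v _ => ?_
        congr 1
        refine propext ⟨fun h' => ?_, fun h' => ⟨h'.1.1, h'.2⟩⟩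
        exact ⟨⟨h'.1, h'.2.1 ▸ h.1, h'.2.2 ▸ h.2⟩, h'.2⟩
      · symm
        rw [mul_eq_zero]
        right
        refine sum_eq_zero fun u _ => sum_eq_zero fun v _ => if_neg fun h' => h ?_
        exact ⟨h'.2.1 ▸ h'.1.2.1, h'.2.2 ▸ h'.1.2.2⟩
    simp only [e1, ← mul_sum]
    congr 1
    exact sum_fib c _
  have hsplit : ∀ X : Finset (ι ⊕ V), NoSplit S (univ.filter fun v => c v ∈ X) := by
    intro X i
    by_cases h : Sum.inl i ∈ X
    · left
      intro v hv
      simp [hc1 v i hv, h]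
    · right
      rw [Finset.disjoint_left]
      intro v hv hv'
      rw [mem_filter, hc1 v i hv] at hv'
      exact h hv'.2
  have hin : ∀ (X : Finset (ι ⊕ V)) i, Sum.inl i ∈ X ↔ S i ⊆ univ.filter fun v => c v ∈ X := by
    intro X i
    constructor
    · intro h v hv
      simp [hc1 v i hv, h]
    · intro h
      obtain ⟨v, hv⟩ := hne i
      have := h hv
      rw [mem_filter, hc1 v i hv] at this
      exact this.2
  obtain ⟨β, hβ1, hβ2, hβ0, hβ3⟩ := charges_pendants (Q := ι ⊕ V) Sum.inl Sum.inl_injective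
    (w := w) (fun x y => by
      simp only [hw]
      refine mul_nonneg (by norm_num) (sum_nonneg fun u _ => sum_nonneg fun v _ => ?_)
      split_ifs <;> norm_num) (fun x y => by
      simp only [hw]
      congr 1
      rw [sum_comm]
      refine sum_congr rfl fun u _ => sum_congr rfl fun v _ => ?_
      congr 1
      exact propext ⟨fun h => ⟨h.1.symm, h.2.2, h.2.1⟩, fun h => ⟨h.1.symm, h.2.2, h.2.1⟩⟩)
    (fun X => ⟨dd G (univ.filter fun v => c v ∈ X), by rw [hwc X]; ring⟩) hk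
    (by
      rintro X ⟨i, hi⟩ ⟨j, hj⟩
      rw [hwc X]
      have := hcut _ (hsplit X) ⟨i, (hin X i).1 hi⟩ ⟨j, (hsplit X j).resolve_left
        fun h => hj ((hin X j).2 h)⟩
      have h2 : (k : ℤ) ≤ (dd G (univ.filter fun v => c v ∈ X) : ℤ) := by exact_mod_cast this
      linarith) hq b hb
  refine ⟨β, hβ1, hβ2, hβ0, fun X hX => ?_⟩
  set X' : Finset (ι ⊕ V) := univ.filter fun x =>
    (∃ i, x = Sum.inl i ∧ S i ⊆ X) ∨ ∃ v, x = Sum.inr v ∧ v ∈ X with hX'
  have hpre : (univ.filter fun v => c v ∈ X') = X := by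
    ext v
    simp only [mem_filter, mem_univ, true_and, hX']
    by_cases h : ∃ i, v ∈ S i
    · obtain ⟨i, hi⟩ := h
      rw [hc1 v i hi]
      constructor
      · rintro (⟨j, hj, hjX⟩ | ⟨j, hj, -⟩)
        · exact hjX (Sum.inl_injective hj ▸ hi)
        · exact absurd hj (by simp)
      · intro hv
        refine Or.inl ⟨i, rfl, (hX i).resolve_right fun h' => ?_⟩
        exact Finset.disjoint_left.1 h' hi hv
    · have hcv : c v = Sum.inr v := by simp only [hc, dif_neg h]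
      rw [hcv]
      simp
  have h1 := hβ3 X'
  rw [hwc X', hpre] at h1
  have h2 : (univ.filter fun i => Sum.inl i ∈ X') = univ.filter fun i => S i ⊆ X := by
    ext i
    simp only [mem_filter, mem_univ, true_and]
    rw [hin X' i, hpre]
  rw [h2] at h1
  refine h1.trans (le_of_eq ?_)
  push_cast
  have hkR : (k : ℝ) ≠ 0 := by exact_mod_cast hk.ne'
  field_simp

end cores

end Pool.Agent.K5
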