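import Pool.Agent.Work.MP_974d84_co_k5.Charges

/-!
# G7a: charges of the cores, with a bound for every single charge
-/

set_option linter.unusedSectionVars false
set_option linter.unusedVariables false

namespace Pool.Agent.K5

open Finset SimpleGraph Pool.Agent.Exp
open Pool.Agent.Work.MP_314beb_co

/-- The weights `w` on `P`, and for every `i` a new vertex `i` joined to `h i` with the weight
`K`. -/
def pendW {ι P : Type*} [DecidableEq P] (h : ι → P) (K : ℤ) (w : P → P → ℤ) :
    ι ⊕ P → ι ⊕ P → ℤ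
  | Sum.inl _, Sum.inl _ => 0
  | Sum.inl i, Sum.inr y => if y = h i then K else 0
  | Sum.inr y, Sum.inl i => if y = h i then K else 0
  | Sum.inr x, Sum.inr y => w x y

theorem wc_pendW {ι P : Type*} [Fintype ι] [DecidableEq ι] [Fintype P] [DecidableEq P]
    (h : ι → P) (K : ℤ) (w : P → P → ℤ) (X : Finset (ι ⊕ P)) :
    wc (pendW h K w) X = wc w (univ.filter fun x => Sum.inr x ∈ X) +
      ∑ i, ((if Sum.inl i ∈ X ∧ Sum.inr (h i) ∉ X then K else 0) +
        (if Sum.inr (h i) ∈ X ∧ Sum.inl i ∉ X then K else 0)) := by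
  unfold wc
  rw [Fintype.sum_sum_type]
  simp only [Fintype.sum_sum_type, pendW]
  have e1 : ∀ i : ι, ∑ j : ι, (if Sum.inl i ∈ X ∧ (Sum.inl j : ι ⊕ P) ∉ X then (0 : ℤ) else 0) = 0 := by
    intro i
    refine sum_eq_zero fun j _ => ?_
    split_ifs <;> rfl
  have e2 : ∀ i : ι, ∑ y : P, (if Sum.inl i ∈ X ∧ (Sum.inr y : ι ⊕ P) ∉ X then
      (if y = h i then K else 0) else 0) =
      if Sum.inl i ∈ X ∧ Sum.inr (h i) ∉ X then K else 0 := by
    intro i
    rw [sum_eq_single (h i)]
    · simp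
    · intro y _ hy
      rw [if_neg hy]
      split_ifs <;> rfl
    · intro h'
      exact absurd (mem_univ _) h'
  have e3 : ∑ y : P, ∑ i : ι, (if Sum.inr y ∈ X ∧ (Sum.inl i : ι ⊕ P) ∉ X then
      (if y = h i then K else 0) else 0) =
      ∑ i : ι, if Sum.inr (h i) ∈ X ∧ Sum.inl i ∉ X then K else 0 := by
    rw [sum_comm]
    refine sum_congr rfl fun i _ => ?_
    rw [sum_eq_single (h i)]
    · simp
    · intro y _ hy
      rw [if_neg hy]
      split_ifs <;> rfl
    · intro h'
      exact absurd (mem_univ _) h'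
  simp only [e1, e2, zero_add, sum_add_distrib, e3]
  have e4 : ∀ x y : P, (if (x ∈ univ.filter fun x => Sum.inr x ∈ X) ∧
      (y ∉ univ.filter fun x => (Sum.inr x : ι ⊕ P) ∈ X) then w x y else 0) =
      if (Sum.inr x : ι ⊕ P) ∈ X ∧ (Sum.inr y : ι ⊕ P) ∉ X then w x y else 0 := by
    intro x y
    simp only [mem_filter, mem_univ, true_and]
  simp only [e4]
  ring

theorem core_chargesG {V : Type*} [Fintype V] [DecidableEq V] {G : SimpleGraph V}
    [DecidableRel G.Adj] {ι : Type*} [Fintype ι] [DecidableEq ι]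
    (S : ι → Finset V) (hne : ∀ i, (S i).Nonempty)
    (hd : ∀ i j, i ≠ j → Disjoint (S i) (S j)) {k : ℕ} (hk : 0 < k)
    (hcut : ∀ X : Finset V, (∀ i, S i ⊆ X ∨ Disjoint (S i) X) → (∃ i, S i ⊆ X) →
      (∃ i, Disjoint (S i) X) → k ≤ dd G X)
    {q : ℕ} (hq : 0 < q) (b : ι → ℤ) (hb : (q : ℤ) ∣ ∑ i, b i) :
    ∃ β : ι → ℤ, (∀ i, (q : ℤ) ∣ β i - b i) ∧ ∑ i, β i = 0 ∧ (∀ i, |(β i : ℝ)| ≤ q) ∧
      ∀ X : Finset V, (∀ i, S i ⊆ X ∨ Disjoint (S i) X) →
        |((∑ i ∈ univ.filter (fun i => S i ⊆ X), β i : ℤ) : ℝ)| ≤ q / k * dd G X := by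
  classical
  -- the contraction
  set c : V → ι ⊕ V := fun v => if h : ∃ i, v ∈ S i then Sum.inl h.choose else Sum.inr v with hc
  have hc1 : ∀ v i, v ∈ S i → c v = Sum.inl i := by
    intro v i hv
    have h : ∃ i, v ∈ S i := ⟨i, hv⟩
    simp only [hc, dif_pos h]
    congr 1
    by_contra hne'
    exact Finset.disjoint_left.1 (hd _ _ hne') h.choose_spec hv
  have hc2 : ∀ v i, c v = Sum.inl i → v ∈ S i := by
    intro v i hv
    by_cases h : ∃ j, v ∈ S j
    · simp only [hc, dif_pos h, Sum.inl.injEq] at hv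
      exact hv ▸ h.choose_spec
    · simp [hc, dif_neg h] at hv
  set w : ι ⊕ V → ι ⊕ V → ℤ := fun x y =>
    2 * ∑ u, ∑ v, if G.Adj u v ∧ c u = x ∧ c v = y then (1 : ℤ) else 0 with hw
  have hwc : ∀ X : Finset (ι ⊕ V), wc w X = 2 * (dd G (univ.filter fun v => c v ∈ X) : ℤ) := by
    intro X
    have hdd : (dd G (univ.filter fun v => c v ∈ X) : ℤ)
        = ∑ u, ∑ v, if G.Adj u v ∧ c u ∈ X ∧ c v ∉ X then (1 : ℤ) else 0 := by
      unfold dd cut
      rw [card_filter]
      push_cast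
      rw [← Fintype.sum_prod_type']
      refine sum_congr rfl fun p _ => ?_
      simp only [mem_filter, mem_univ, true_and]
      congr 1
      exact propext ⟨fun h => ⟨h.2.2, h.1, h.2.1⟩, fun h => ⟨h.2.1, h.2.2, h.1⟩⟩
    rw [hdd]
    unfold wc
    have e1 : ∀ x y : ι ⊕ V, (if x ∈ X ∧ y ∉ X then w x y else 0)
        = 2 * ∑ u, ∑ v, if (G.Adj u v ∧ c u ∈ X ∧ c v ∉ X) ∧ c u = x ∧ c v = y
          then (1 : ℤ) else 0 := by
      intro x y
      split_ifs with h
      · simp only [hw]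
        congr 1
        refine sum_congr rfl fun u _ => sum_congr rfl fun v _ => ?_
        congr 1
        refine propext ⟨fun h' => ?_, fun h' => ⟨h'.1.1, h'.2⟩⟩
        exact ⟨⟨h'.1, h'.2.1 ▸ h.1, h'.2.2 ▸ h.2⟩, h'.2⟩
      · symm
        rw [mul_eq_zero]
        right
        refine sum_eq_zero fun u _ => sum_eq_zero fun v _ => if_neg fun h' => h ?_
        exact ⟨h'.2.1 ▸ h'.1.2.1, h'.2.2 ▸ h'.1.2.2⟩
    simp only [e1, ← mul_sum]
    congr 1
    exact sum_fib c _
  have hsplit : ∀ X : Finset (ι ⊕ V), NoSplit S (univ.filter fun v => c v ∈ X) := by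
    intro X i
    by_cases h : Sum.inl i ∈ X
    · left
      intro v hv
      simp [hc1 v i hv, h]
    · right
      rw [Finset.disjoint_left]
      intro v hv hv'
      rw [mem_filter, hc1 v i hv] at hv'
      exact h hv'.2
  have hin : ∀ (X : Finset (ι ⊕ V)) i, Sum.inl i ∈ X ↔ S i ⊆ univ.filter fun v => c v ∈ X := by
    intro X i
    constructor
    · intro h v hv
      simp [hc1 v i hv, h]
    · intro h
      obtain ⟨v, hv⟩ := hne i
      have := h hv
      rw [mem_filter, hc1 v i hv] at this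
      exact this.2
  have hwn : ∀ x y, 0 ≤ w x y := by
    intro x y
    simp only [hw]
    refine mul_nonneg (by norm_num) (sum_nonneg fun u _ => sum_nonneg fun v _ => ?_)
    split_ifs <;> norm_num
  have hws : ∀ x y, w x y = w y x := by
    intro x y
    simp only [hw]
    congr 1
    rw [sum_comm]
    refine sum_congr rfl fun u _ => sum_congr rfl fun v _ => ?_
    congr 1
    exact propext ⟨fun h => ⟨h.1.symm, h.2.2, h.2.1⟩, fun h => ⟨h.1.symm, h.2.2, h.2.1⟩⟩
  have hwc0 : ∀ X : Finset (ι ⊕ V), 0 ≤ wc w X := by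
    intro X
    rw [hwc X]
    positivity
  have hk2 : (0 : ℤ) ≤ 2 * (k : ℤ) := by positivity
  have hterm : ∀ (X : Finset (ι ⊕ (ι ⊕ V))) (i : ι),
      0 ≤ ((if Sum.inl i ∈ X ∧ Sum.inr (Sum.inl i) ∉ X then 2 * (k : ℤ) else 0) +
        (if Sum.inr (Sum.inl i) ∈ X ∧ Sum.inl i ∉ X then 2 * (k : ℤ) else 0)) := by
    intro X i
    split_ifs <;> linarith
  obtain ⟨β, hβ1, hβ2, hβ3⟩ := charges_of_terminals (Q := ι ⊕ (ι ⊕ V)) Sum.inl
    Sum.inl_injective (w := pendW (Sum.inl : ι → ι ⊕ V) (2 * (k : ℤ)) w)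
    (by
      rintro (i | x) (j | y)
      · exact le_rfl
      · simp only [pendW]
        split_ifs <;> linarith
      · simp only [pendW]
        split_ifs <;> linarith
      · exact hwn x y)
    (by
      rintro (i | x) (j | y)
      · rfl
      · rfl
      · rfl
      · exact hws x y)
    (by
      intro X
      rw [wc_pendW]
      refine Even.add ?_ ?_
      · rw [hwc]
        exact even_two_mul _
      · refine Finset.even_sum _ fun i _ => ?_
        refine Even.add ?_ ?_
        · split_ifs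
          · exact even_two_mul _
          · exact Even.zero
        · split_ifs
          · exact even_two_mul _
          · exact Even.zero)
    hk
    (by
      rintro X ⟨i, hi⟩ ⟨j, hj⟩
      rw [wc_pendW]
      by_cases hm : ∃ m, ¬ (Sum.inl m ∈ X ↔ Sum.inr (Sum.inl m : ι ⊕ V) ∈ X)
      · obtain ⟨m, hm⟩ := hm
        have h1 : 2 * (k : ℤ) ≤ ((if Sum.inl m ∈ X ∧ Sum.inr (Sum.inl m) ∉ X then 2 * (k : ℤ) else 0) +
            (if Sum.inr (Sum.inl m) ∈ X ∧ Sum.inl m ∉ X then 2 * (k : ℤ) else 0)) := by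
          by_cases h2 : Sum.inl m ∈ X
          · have h4 : Sum.inr (Sum.inl m : ι ⊕ V) ∉ X := fun h4 => hm ⟨fun _ => h4, fun _ => h2⟩
            rw [if_pos ⟨h2, h4⟩, if_neg fun h => h.2 h2]
            linarith
          · have h4 : Sum.inr (Sum.inl m : ι ⊕ V) ∈ X := by
              by_contra h4
              exact hm ⟨fun h => absurd h h2, fun h => absurd h h4⟩
            rw [if_neg fun h => h2 h.1, if_pos ⟨h4, h2⟩]
            linarith
        have h2 := single_le_sum (f := fun i =>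
          ((if Sum.inl i ∈ X ∧ Sum.inr (Sum.inl i) ∉ X then 2 * (k : ℤ) else 0) +
            (if Sum.inr (Sum.inl i) ∈ X ∧ Sum.inl i ∉ X then 2 * (k : ℤ) else 0)))
          (fun i _ => hterm X i) (mem_univ m)
        have h3 := hwc0 (univ.filter fun x => Sum.inr x ∈ X)
        have h4 := h1.trans h2
        linarith
      · push Not at hm
        have h0 := sum_nonneg (s := (univ : Finset ι)) fun i _ => hterm X i
        set Y : Finset (ι ⊕ V) := univ.filter fun x => Sum.inr x ∈ X with hY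
        have hiY : Sum.inl i ∈ Y := by
          rw [hY, mem_filter]
          exact ⟨mem_univ _, (hm i).1 hi⟩
        have hjY : Sum.inl j ∉ Y := by
          rw [hY, mem_filter]
          exact fun h => hj ((hm j).2 h.2)
        have := hcut _ (hsplit Y) ⟨i, (hin Y i).1 hiY⟩ ⟨j, (hsplit Y j).resolve_left
          fun h => hjY ((hin Y j).2 h)⟩
        have h2 : (k : ℤ) ≤ (dd G (univ.filter fun v => c v ∈ Y) : ℤ) := by exact_mod_cast this
        rw [hwc Y]
        linarith)
    hq b hb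
  have hkR : (k : ℝ) ≠ 0 := by exact_mod_cast hk.ne'
  refine ⟨β, hβ1, hβ2, fun i => ?_, fun X hX => ?_⟩
  · have h1 := hβ3 {Sum.inl i}
    have h2 : (univ.filter fun j => (Sum.inl j : ι ⊕ (ι ⊕ V)) ∈ ({Sum.inl i} : Finset _)) = {i} := by
      ext j
      simp
    rw [h2, sum_singleton, wc_pendW] at h1
    have h3 : (univ.filter fun x => (Sum.inr x : ι ⊕ (ι ⊕ V)) ∈ ({Sum.inl i} : Finset _)) = ∅ := by
      ext x
      simp
    have h4 : wc w ∅ = 0 := by
      unfold wc
      simp
    have h5 : ∑ j, ((if (Sum.inl j : ι ⊕ (ι ⊕ V)) ∈ ({Sum.inl i} : Finset _) ∧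
          Sum.inr (Sum.inl j) ∉ ({Sum.inl i} : Finset (ι ⊕ (ι ⊕ V))) then 2 * (k : ℤ) else 0) +
        (if Sum.inr (Sum.inl j) ∈ ({Sum.inl i} : Finset (ι ⊕ (ι ⊕ V))) ∧
          (Sum.inl j : ι ⊕ (ι ⊕ V)) ∉ ({Sum.inl i} : Finset _) then 2 * (k : ℤ) else 0)) =
        2 * (k : ℤ) := by
      rw [sum_eq_single i]
      · simp
      · intro j _ hj
        simp [hj]
      · intro h
        exact absurd (mem_univ _) h
    rw [h3, h4, h5, zero_add] at h1
    refine h1.trans (le_of_eq ?_)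
    push_cast
    field_simp
  · set X' : Finset (ι ⊕ V) := univ.filter fun x =>
      (∃ i, x = Sum.inl i ∧ S i ⊆ X) ∨ ∃ v, x = Sum.inr v ∧ v ∈ X with hX'
    have hpre : (univ.filter fun v => c v ∈ X') = X := by
      ext v
      simp only [mem_filter, mem_univ, true_and, hX']
      by_cases h : ∃ i, v ∈ S i
      · obtain ⟨i, hi⟩ := h
        rw [hc1 v i hi]
        constructor
        · rintro (⟨j, hj, hjX⟩ | ⟨j, hj, -⟩)
          · exact hjX (Sum.inl_injective hj ▸ hi)
          · exact absurd hj (by simp)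
        · intro hv
          refine Or.inl ⟨i, rfl, (hX i).resolve_right fun h' => ?_⟩
          exact Finset.disjoint_left.1 h' hi hv
      · have hcv : c v = Sum.inr v := by simp only [hc, dif_neg h]
        rw [hcv]
        simp
    have hXi : ∀ i, Sum.inl i ∈ X' ↔ S i ⊆ X := by
      intro i
      rw [hin X' i, hpre]
    set Z : Finset (ι ⊕ (ι ⊕ V)) := univ.filter fun x =>
      (∃ i, x = Sum.inl i ∧ S i ⊆ X) ∨ ∃ y, x = Sum.inr y ∧ y ∈ X' with hZ
    have hZl : ∀ i, Sum.inl i ∈ Z ↔ S i ⊆ X := by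
      intro i
      simp [hZ]
    have hZr : ∀ y, Sum.inr y ∈ Z ↔ y ∈ X' := by
      intro y
      rw [hZ, mem_filter]
      constructor
      · rintro ⟨-, ⟨i, hi, -⟩ | ⟨y', hy, hy'⟩⟩
        · exact absurd hi (by simp)
        · rw [Sum.inr_injective hy]
          exact hy'
      · intro h
        exact ⟨mem_univ _, Or.inr ⟨y, rfl, h⟩⟩
    have h1 := hβ3 Z
    have h2 : (univ.filter fun i => Sum.inl i ∈ Z) = univ.filter fun i => S i ⊆ X := by
      ext i
      simp only [mem_filter, mem_univ, true_and]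
      exact hZl i
    have h3 : (univ.filter fun x => Sum.inr x ∈ Z) = X' := by
      ext x
      simp only [mem_filter, mem_univ, true_and]
      exact hZr x
    have h5 : ∑ i, ((if Sum.inl i ∈ Z ∧ Sum.inr (Sum.inl i) ∉ Z then 2 * (k : ℤ) else 0) +
        (if Sum.inr (Sum.inl i) ∈ Z ∧ Sum.inl i ∉ Z then 2 * (k : ℤ) else 0)) = 0 := by
      refine sum_eq_zero fun i _ => ?_
      rw [if_neg, if_neg, add_zero]
      · rintro ⟨h, h'⟩
        exact h' ((hZl i).2 ((hXi i).1 ((hZr _).1 h)))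
      · rintro ⟨h, h'⟩
        exact h' ((hZr _).2 ((hXi i).2 ((hZl i).1 h)))
    rw [h2, wc_pendW, h3, h5, add_zero, hwc X', hpre] at h1
    refine h1.trans (le_of_eq ?_)
    push_cast
    field_simp

end Pool.Agent.K5
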