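import Pool.Agent.Work.MP_974d84_co_k5.CoreFlowP

/-!
# ROOM BG: real charges modulo `4` when the total is a multiple of `4`
-/

set_option linter.unusedSectionVars false

namespace Pool.Agent.K5

open Finset SimpleGraph Pool.Agent.Exp Pool.Agent.Log5 Pool.Agent.Log5.Clu

/-- As `core_charges_p`, for charges with the total `4 n`. -/
theorem core_charges_mod {V : Type} [Fintype V] [DecidableEq V] (G : SimpleGraph V)
    [DecidableRel G.Adj] {r : ℕ} (S : Fin r → Finset V) (hne : ∀ i, (S i).Nonempty)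
    (hd : ∀ i j, i ≠ j → Disjoint (S i) (S j)) {k : ℕ} (hk : 0 < k)
    (hcut : ∀ X : Finset V, Sat S X → (∃ i, S i ⊆ X) → (∃ i, Disjoint (S i) X) → k ≤ dd G X)
    (a : Fin r → ℝ) {n : ℤ} (ha : ∑ i, a i = 4 * n) {d : ℝ} (hdp : 0 < d) :
    ∃ z : Fin r → ℤ, ∑ i, z i = - n ∧ (∀ i, |a i + 4 * z i| ≤ 4 + d) ∧ ∀ X, Sat S X →
      |∑ i ∈ univ.filter (fun i => S i ⊆ X), (a i + 4 * z i)| ≤ (4 + d) / k * dd G X := by
  classical
  rcases Nat.eq_zero_or_pos r with hr | hr
  · subst hr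
    have hn : n = 0 := by
      have h1 : (4 * n : ℝ) = 0 := by rw [← ha]; simp
      have h2 : (n : ℝ) = 0 := by linarith
      exact_mod_cast h2
    obtain ⟨z, h1, h2, h3⟩ := core_charges_p G S hne hd hk hcut a (by rw [ha, hn]; simp) hdp
    exact ⟨z, by rw [h1, hn]; rfl, h2, h3⟩
  · set i₀ : Fin r := ⟨0, hr⟩
    obtain ⟨z, h1, h2, h3⟩ := core_charges_p G S hne hd hk hcut
      (fun i => a i - if i = i₀ then (4 * n : ℝ) else 0) (by
        rw [sum_sub_distrib, ha, sum_ite_eq']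
        simp) hdp
    have hz : ∀ i, a i + 4 * ((z i - if i = i₀ then n else 0 : ℤ) : ℝ) =
        (a i - if i = i₀ then (4 * n : ℝ) else 0) + 4 * (z i : ℝ) := by
      intro i
      split_ifs <;> push_cast <;> ring
    refine ⟨fun i => z i - if i = i₀ then n else 0, ?_, fun i => ?_, fun X hX => ?_⟩
    · rw [sum_sub_distrib, h1, sum_ite_eq']
      simp
    · rw [hz]
      exact h2 i
    · rw [sum_congr rfl fun i _ => hz i]
      exact h3 X hX

end Pool.Agent.K5
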