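import Mathlib
import Pool.Agent.Work.MP_974d84_co_k5.CleanDefs

/-!
# Many connecting sets of edges, all in different blocks
-/

set_option linter.unusedSectionVars false
set_option linter.unusedVariables false

namespace Pool.Agent.K5

open Finset SimpleGraph Pool.Agent.Work.MP_314beb_co Pool.Agent.Exp Pool.Agent.Log5 Pool.Agent.Log5.Clu

variable {V : Type} [Fintype V] [DecidableEq V] {G : SimpleGraph V} [DecidableRel G.Adj]

/-- The copies, linked at one vertex. -/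
def cpr (r0 : V → V → Prop) (v₀ : V) (κ : ℕ) (x y : V × Fin κ) : Prop :=
  (x.2 = y.2 ∧ r0 x.1 y.1) ∨ (x.1 = v₀ ∧ y.1 = v₀)

/-- The edges of the copies. -/
abbrev CE (G : SimpleGraph V) (κ : ℕ) : Type := {p : V × V // G.Adj p.1 p.2} × Fin κ

def cea (κ : ℕ) (e : CE G κ) : V × Fin κ := (e.1.1.1, e.2)

def ceb (κ : ℕ) (e : CE G κ) : V × Fin κ := (e.1.1.2, e.2)

open Classical in
/-- Many edges join the classes. -/
theorem crossing_packs {k κ : ℕ} (hc : CycConn G k) (v₀ : V) (r0 : V → V → Prop)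
    (h0 : ∀ Y : Finset V, Y.Nonempty → (∀ x y, r0 x y → (x ∈ Y ↔ y ∈ Y)) →
      ¬ (G.induce (Y : Set V)).IsAcyclic) (A : Finset (CE G κ))
    (hA : 2 ≤ cc (cpr r0 v₀ κ) (cea κ) (ceb κ) A) :
    k * cc (cpr r0 v₀ κ) (cea κ) (ceb κ) A
      ≤ (univ.filter fun e : CE G κ =>
        ¬ Cn (cpr r0 v₀ κ) (cea κ) (ceb κ) A (cea κ e) (ceb κ e)).card := by
  set S := cnS (cpr r0 v₀ κ) (cea κ) (ceb κ) A with hS
  have hcc : cc (cpr r0 v₀ κ) (cea κ) (ceb κ) A = Fintype.card (Quotient S) := by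
    unfold cc
    rw [Nat.card_eq_fintype_card]
  have hall : ∀ x, ∃ y, ¬ Cn (cpr r0 v₀ κ) (cea κ) (ceb κ) A x y := by
    intro x
    by_contra hno
    push Not at hno
    have : cc (cpr r0 v₀ κ) (cea κ) (ceb κ) A ≤ 1 := by
      rw [hcc, Fintype.card_le_one_iff]
      intro p q
      induction p using Quotient.inductionOn with
      | _ p =>
        induction q using Quotient.inductionOn with
        | _ q => exact Quotient.sound ((hno p).symm.trans (hno q))
    omega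
  rw [hcc]
  rw [card_eq_sum_card_fiberwise (f := fun e => (Quotient.mk S (cea κ e)))
    (t := (univ : Finset (Quotient S))) (fun _ _ => mem_coe.2 (mem_univ _)), mul_comm,
    ← card_univ, ← smul_eq_mul, ← sum_const]
  refine sum_le_sum fun c _ => ?_
  induction c using Quotient.inductionOn with
  | _ r =>
    -- a copy in which the class is neither empty nor everything
    obtain ⟨j, ⟨a, ha⟩, ⟨b, hb⟩⟩ : ∃ j : Fin κ,
        (∃ a, Cn (cpr r0 v₀ κ) (cea κ) (ceb κ) A r (a, j)) ∧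
        ∃ b, ¬ Cn (cpr r0 v₀ κ) (cea κ) (ceb κ) A r (b, j) := by
      by_cases h : ∃ b, ¬ Cn (cpr r0 v₀ κ) (cea κ) (ceb κ) A r (b, r.2)
      · exact ⟨r.2, ⟨r.1, Cn.refl A r⟩, h⟩
      · push Not at h
        obtain ⟨y, hy⟩ := hall r
        refine ⟨y.2, ⟨v₀, (h v₀).trans (Cn.base (Or.inr ⟨rfl, rfl⟩))⟩, ⟨y.1, hy⟩⟩
    let X : Finset V := univ.filter fun v => Cn (cpr r0 v₀ κ) (cea κ) (ceb κ) A r (v, j)
    have hmem : ∀ v, v ∈ X ↔ Cn (cpr r0 v₀ κ) (cea κ) (ceb κ) A r (v, j) :=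
      fun v => by simp [X]
    have hX : ∀ p q, r0 p q → (p ∈ X ↔ q ∈ X) := by
      intro p q h
      rw [hmem, hmem]
      have h' : Cn (cpr r0 v₀ κ) (cea κ) (ceb κ) A (p, j) (q, j) :=
        Cn.base (Or.inl ⟨rfl, h⟩)
      exact ⟨fun h1 => h1.trans h', fun h1 => h1.trans h'.symm⟩
    have hX' : ∀ p q, r0 p q → (p ∈ Xᶜ ↔ q ∈ Xᶜ) := by
      intro p q h
      rw [mem_compl, mem_compl, hX p q h]
    have n1 := h0 X ⟨a, (hmem a).2 ha⟩ hX
    have n2 := h0 Xᶜ ⟨b, mem_compl.2 fun h => hb ((hmem b).1 h)⟩ hX'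
    have h5 := hc X n1 n2
    refine h5.trans ?_
    have hsub : cut G X ⊆ ((univ.filter fun e : CE G κ =>
        ¬ Cn (cpr r0 v₀ κ) (cea κ) (ceb κ) A (cea κ e) (ceb κ e)).filter fun e =>
          Quotient.mk S (cea κ e) = Quotient.mk S r).image fun e => e.1.1 := by
      intro p hp
      rw [mem_cut] at hp
      have hrv := (hmem p.1).1 hp.1
      refine mem_image.2 ⟨(⟨p, hp.2.2⟩, j), ?_, rfl⟩
      rw [mem_filter, mem_filter]
      refine ⟨⟨mem_univ _, fun h => ?_⟩, Quotient.sound hrv.symm⟩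
      exact hp.2.1 ((hmem _).2 (hrv.trans h))
    exact (card_le_card hsub).trans card_image_le

theorem exists_packs {k M κ : ℕ} (hc : CycConn G k) (hκ : 0 < κ) (hM0 : 1 ≤ M)
    (hM : 2 * (M * κ) ≤ k) (r0 : V → V → Prop)
    (h0 : ∀ Y : Finset V, Y.Nonempty → (∀ x y, r0 x y → (x ∈ Y ↔ y ∈ Y)) →
      ¬ (G.induce (Y : Set V)).IsAcyclic)
    {β : Type} [DecidableEq β] (blk : V × V → β)
    (hM1 : ∀ p : V × V, ((univ : Finset (V × V)).filter
      fun q => G.Adj q.1 q.2 ∧ blk q = blk p).card ≤ M) :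
    ∃ J : Fin κ → Finset (V × V), (∀ j, ∀ p ∈ J j, G.Adj p.1 p.2) ∧
      (∀ j, ∀ Y : Finset V, Y.Nonempty → Yᶜ.Nonempty → (∀ x y, r0 x y → (x ∈ Y ↔ y ∈ Y)) →
        ∃ p ∈ J j, ¬ (p.1 ∈ Y ↔ p.2 ∈ Y)) ∧
      ∀ j j' p p', p ∈ J j → p' ∈ J j' → blk p = blk p' → j = j' ∧ p = p' := by
  classical
  rcases isEmpty_or_nonempty V with hV | ⟨⟨v₀⟩⟩
  · exact ⟨fun _ => ∅, fun j p hp => absurd hp (notMem_empty p),
      fun j Y hY => (hV.false hY.choose).elim, fun j j' p p' hp => absurd hp (notMem_empty p)⟩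
  set cf : CE G κ → CE G κ → Prop := fun e e' => blk e.1.1 = blk e'.1.1 ∧ e ≠ e' with hcf
  have hD : ∀ e : CE G κ, (univ.filter fun e' => cf e e' ∨ e = e').card ≤ M * κ := by
    intro e
    have hsub : ((univ.filter fun e' => cf e e' ∨ e = e').image fun e' : CE G κ => (e'.1.1, e'.2)) ⊆
        ((univ : Finset (V × V)).filter fun q => G.Adj q.1 q.2 ∧ blk q = blk e.1.1) ×ˢ
          (univ : Finset (Fin κ)) := by
      intro x hx
      obtain ⟨e', he', rfl⟩ := mem_image.1 hx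
      rw [mem_filter] at he'
      rw [mem_product, mem_filter]
      refine ⟨⟨mem_univ _, e'.1.2, ?_⟩, mem_univ _⟩
      rcases he'.2 with h | h
      · exact h.1.symm
      · rw [h]
    have hinj : Function.Injective fun e' : CE G κ => (e'.1.1, e'.2) := by
      rintro ⟨⟨p, hp⟩, i⟩ ⟨⟨q, hq⟩, j⟩ h
      simp only [Prod.mk.injEq] at h
      obtain ⟨h1, h2⟩ := h
      subst h1 h2
      rfl
    rw [← card_image_of_injective _ hinj]
    refine (card_le_card hsub).trans ?_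
    rw [card_product, card_univ, Fintype.card_fin]
    exact Nat.mul_le_mul_right _ (hM1 e.1.1)
  have hD1 : 1 ≤ M * κ := Nat.one_le_iff_ne_zero.2 (Nat.mul_ne_zero (by omega) (by omega))
  obtain ⟨τ, hτ1, hτ2⟩ := exists_conflictFree (r0 := cpr r0 v₀ κ)
    (a := cea κ) (b := ceb κ) (conf := cf)
    (fun _ _ h => ⟨h.1.symm, h.2.symm⟩) hD1 (fun e => by convert hD e)
    (fun A hA => (Nat.mul_le_mul_right _ hM).trans (crossing_packs hc v₀ r0 h0 A hA))
  have hall : ∀ x y, Cn (cpr r0 v₀ κ) (cea κ) (ceb κ) τ x y := by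
    intro x y
    unfold cc at hτ2
    have : Fintype (Quotient (cnS (cpr r0 v₀ κ) (cea κ) (ceb κ) τ)) := Fintype.ofFinite _
    rw [Nat.card_eq_fintype_card, Fintype.card_le_one_iff] at hτ2
    exact Quotient.exact (hτ2 (Quotient.mk _ x) (Quotient.mk _ y))
  refine ⟨fun i => (τ.filter fun e => e.2 = i).image fun e => e.1.1, ?_, ?_, ?_⟩
  · intro j p hp
    obtain ⟨e, -, rfl⟩ := mem_image.1 hp
    exact e.1.2
  · intro i Y hY hY' hYc
    by_contra hcon
    push Not at hcon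
    obtain ⟨y, hy⟩ := hY
    obtain ⟨z, hz⟩ := hY'
    rw [mem_compl] at hz
    set pr : V × Fin κ → V := fun x => if x.2 = i then x.1 else v₀ with hpr
    have h1 : pr (y, i) ∈ Y ↔ pr (z, i) ∈ Y := by
      refine Cn.le_of (fun x y => pr x ∈ Y ↔ pr y ∈ Y)
        ⟨fun x => Iff.rfl, fun h => h.symm, fun h h' => h.trans h'⟩ ?_ ?_
        (hall (y, i) (z, i))
      · rintro ⟨x, j⟩ ⟨y, j'⟩ h
        rcases h with ⟨h1, h2⟩ | ⟨h1, h2⟩
        · simp only at h1 h2
          subst h1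
          by_cases hj : j = i
          · simp only [hpr, hj, if_true]
            exact hYc _ _ h2
          · simp only [hpr, if_neg hj]
        · simp only at h1 h2
          subst h1
          subst h2
          simp only [hpr, ite_self]
      · rintro ⟨⟨p, hp⟩, j⟩ he
        by_cases hj : j = i
        · subst hj
          simp only [hpr, cea, ceb, if_true]
          exact hcon p (mem_image.2 ⟨(⟨p, hp⟩, j), mem_filter.2 ⟨he, rfl⟩, rfl⟩)
        · simp only [hpr, cea, ceb, if_neg hj]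
    simp only [hpr, if_true] at h1
    exact hz (h1.1 hy)
  · intro j j' p p' hp hp' hb
    obtain ⟨e, he, rfl⟩ := mem_image.1 hp
    obtain ⟨e', he', rfl⟩ := mem_image.1 hp'
    rw [mem_filter] at he he'
    have h : e = e' := by
      by_contra hne
      exact hτ1 e he.1 e' he'.1 hne ⟨hb, hne⟩
    rw [← he.2, ← he'.2, h]
    exact ⟨rfl, rfl⟩

end Pool.Agent.K5
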