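import Mathlib
import Pool.Agent.Work.MP_974d84_co_k5.CleanDefs

/-!
# Theorem (CLEAN): statements of the modules (nobody imports this file)
-/

set_option linter.unusedSectionVars false

namespace Pool.Agent.K5.CleanPlan

open Finset SimpleGraph Pool.Agent.Work.MP_314beb_co Pool.Agent.Exp Pool.Agent.Log5 Pool.Agent.Log5.Clu Pool.Agent.K5

variable {V : Type} [Fintype V] [DecidableEq V] {G : SimpleGraph V} [DecidableRel G.Adj]

/-- A1, file CleanA.lean (helper33). `m` counts ordered pairs. Proof: for `GClo` replaced by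
'all leaving edges except at most one are outside `G₁`' show `U.card ≤ m - 1` by induction on
`U.card` (remove the vertex `p` at the exceptional edge). -/
theorem closed_small (h3 : ∀ v, G.degree v = 3) {G₁ : SimpleGraph V} {m : ℕ}
    (hF : Few G G₁ (3 * m) m) {U : Finset V} (hU : U.Nonempty) (hJ : Joined G U)
    (hac : (G.induce (U : Set V)).IsAcyclic) (hcl : GClo G₁ U) : U.card + 2 ≤ m := by
  sorry

/-- A2, file CleanA.lean (helper33). -/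
theorem tiny_small (h3 : ∀ v, G.degree v = 3) {G₁ : SimpleGraph V} (hG : G₁ ≤ G) {m k : ℕ}
    (hg : Gir G k) (hk : 2 * m ≤ k) (hF : Few G G₁ (3 * m) m) {Z : Finset V} (hZ : Z.Nonempty)
    (hJ : Joined G Z) (hT : ∀ v ∈ Z, Tiny G G₁ v) : Z.card + 2 ≤ m := by
  sorry

/-- B, file CleanB.lean (helper11). The sets `T i` are the possible site triples. -/
theorem rounding (h3 : ∀ v, G.degree v = 3) {G₁ : SimpleGraph V} (hG : G₁ ≤ G) {m k : ℕ}
    (hg : Gir G k) (hk : 2 * m ≤ k) (hm : 1 ≤ m) (hF : Few G G₁ (3 * m) m) {I : Type} [Fintype I]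
    [DecidableEq I] (T : I → Finset V) (u : I → V) {s : ℕ} (hs : m + s ≤ k)
    (hTne : ∀ i, (T i).Nonempty) (hTJ : ∀ i, Joined G (T i)) (hTs : ∀ i, (T i).card ≤ s)
    (hTu : ∀ i, T i ⊆ Bl G.Adj s (u i))
    (hdisj : ∀ i j, i ≠ j → Disjoint (Bl G.Adj (m + s + 2) (u i)) (Bl G.Adj (m + s + 2) (u j)))
    (hT1 : ∀ i, ∀ x ∈ T i, ∀ y, ¬ G₁.Adj x y) :
    ∃ cl : V → V, (∀ v, ¬ Tiny G G₁ (cl v)) ∧
      ∀ X : Finset V, GClo G₁ X → GClo G₁ (univ.filter fun v => cl v ∈ X) ∧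
        (∀ v, v ∈ (univ.filter fun v => cl v ∈ X) ↔ cl v ∈ (univ.filter fun v => cl v ∈ X)) ∧
        (∀ v, ¬ Tiny G G₁ v → (cl v ∈ X ↔ v ∈ X)) ∧
        ∀ A : Finset I, cdd G (A.biUnion T) (univ.filter fun v => cl v ∈ X) ≤
          (1 + 3 * (3 * 2 ^ (2 * m + 2 * s + 2))) * cdd G (A.biUnion T) X := by
  sorry

/-- C, file CleanC.lean (helper73). `exists_conflictFree` with
`E = {p : V × V // G.Adj p.1 p.2} × Fin κ`, the copies linked at one vertex (model: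
thin/Copies.lean), conflict = same block. -/
theorem exists_packs {k M κ : ℕ} (hc : CycConn G k) (hκ : 0 < κ) (hM0 : 1 ≤ M)
    (hM : 2 * (M * κ) ≤ k) (r0 : V → V → Prop)
    (h0 : ∀ Y : Finset V, Y.Nonempty → (∀ x y, r0 x y → (x ∈ Y ↔ y ∈ Y)) →
      ¬ (G.induce (Y : Set V)).IsAcyclic)
    {β : Type} [DecidableEq β] (blk : V × V → β)
    (hM1 : ∀ p : V × V, ((univ : Finset (V × V)).filter
      fun q => G.Adj q.1 q.2 ∧ blk q = blk p).card ≤ M) :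
    ∃ J : Fin κ → Finset (V × V), (∀ j, ∀ p ∈ J j, G.Adj p.1 p.2) ∧
      (∀ j, ∀ Y : Finset V, Y.Nonempty → Yᶜ.Nonempty → (∀ x y, r0 x y → (x ∈ Y ↔ y ∈ Y)) →
        ∃ p ∈ J j, ¬ (p.1 ∈ Y ↔ p.2 ∈ Y)) ∧
      ∀ j j' p p', p ∈ J j → p' ∈ J j' → blk p = blk p' → j = j' ∧ p = p' := by
  sorry

/-- D, file Clean.lean (helper11). -/
theorem clean (c s : ℕ) : ∃ R q₀ : ℕ, 0 < q₀ ∧ ∀ q' : ℕ, 0 < q' → ∃ k₀ : ℕ, ∀ k, k₀ ≤ k →
    ∀ {V : Type} [Fintype V] [DecidableEq V] (G : SimpleGraph V) [DecidableRel G.Adj],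
    (∀ v, G.degree v = 3) → CycConn G k → Gir G k →
    ∀ {w : ℕ} (u : Fin w → Fin (q₀ * q') → V) (T : Fin w → Fin (q₀ * q') → Finset V),
    (∀ i a, (T i a).Nonempty ∧ Joined G (T i a) ∧ (T i a).card ≤ s ∧
      T i a ⊆ Bl G.Adj s (u i a)) →
    (∀ i a j b, (i, a) ≠ (j, b) → Disjoint (Bl G.Adj R (u i a)) (Bl G.Adj R (u j b))) →
    ∃ A : Fin w → Finset (Fin (q₀ * q')), (∀ i, q₀ * q' ≤ 2 * (A i).card) ∧
      ∀ t : Fin w → Fin (q₀ * q'), (∀ i, t i ∈ A i) → ∀ X : Finset V,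
        ¬ (G.induce (X : Set V)).IsAcyclic → ¬ (G.induce ((Xᶜ : Finset V) : Set V)).IsAcyclic →
        c < cdd G (univ.biUnion fun i => T i (t i)) X := by
  sorry

end Pool.Agent.K5.CleanPlan
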