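import Mathlib
import Pool.Agent.Work.MP_974d84_co_k5.DefsE
import Pool.Agent.Work.MP_974d84_co_k5.Words
import Pool.Agent.Work.MP_974d84_co_k5.Windows
import Pool.Agent.Work.MP_974d84_co_k5.PickZone

/-!
# E6: one cluster behind every leaf of every mark end
-/

set_option linter.unusedSectionVars false

namespace Pool.Agent.K5

open Finset SimpleGraph Pool.Agent.Exp Pool.Agent.Log5 Pool.Agent.Log5.Clu Wd

namespace ClE

/-- The word of the path behind a leaf. -/
def pth : ℕ → List (Option Bool)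
  | 0 => []
  | n + 1 => none :: some true :: pth n

theorem length_pth (n : ℕ) : (pth n).length = 2 * n := by
  induction n with
  | zero => rfl
  | succ n ih =>
    show ((pth n).length + 1) + 1 = 2 * (n + 1)
    omega

theorem tw_pth (n : ℕ) (c : List Bool) : tw (List.replicate n true ++ c) = pth n ++ tw c := by
  induction n with
  | zero => rfl
  | succ n ih =>
    rw [List.replicate_succ, List.cons_append]
    show none :: some true :: tw (List.replicate n true ++ c) = _
    rw [ih]
    rfl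

theorem tw_last (c : List Bool) : (tw c).getLast? = some none := by
  induction c with
  | nil => rfl
  | cons b c ih =>
    show (none :: some b :: tw c).getLast? = some none
    have h : ∃ x t, tw c = x :: t := by
      cases c with
      | nil => exact ⟨_, _, rfl⟩
      | cons b c => exact ⟨_, _, rfl⟩
    obtain ⟨x, t, h⟩ := h
    rw [h] at ih ⊢
    rw [List.getLast?_cons_cons, List.getLast?_cons_cons]
    exact ih

theorem app_last (z : List (Option Bool)) (c : List Bool) :
    (z ++ tw c).getLast? = some none := by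
  rw [List.getLast?_append, tw_last]
  rfl

theorem red_tw (c : List Bool) : Red (tw c) := by
  have h := red_sandwich 0 0 true true c
  simpa using h

theorem tw_inj {c d : List Bool} (h : tw c = tw d) : c = d :=
  (tw_rep (i := 0) (j := 0) (b := true) (by simpa using h)).1

variable {V : Type} [Fintype V] [DecidableEq V] {G : SimpleGraph V} [DecidableRel G.Adj]
  {μ : V → V} {π : Equiv.Perm V}

/-- The vertices of a ball behind a leaf have words which end with the word of the leaf. -/
theorem ball_word (hf : Frame G μ π) {r : V} {c : List Bool} {v : List (Option Bool)}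
    (hv : Red (v ++ tw c)) (n : ℕ) (hn : n ≤ v.length) {x : V}
    (hx : x ∈ Bl G.Adj n (act μ π (v ++ tw c) r)) :
    ∃ z, Red (z ++ tw c) ∧ x = act μ π (z ++ tw c) r ∧ z.length ≤ v.length + n ∧
      v.length ≤ z.length + n := by
  induction n generalizing x with
  | zero =>
    rw [mem_Bl_zero] at hx
    exact ⟨v, hv, hx, by omega, by omega⟩
  | succ n ih =>
    rw [mem_Bl_succ] at hx
    rcases hx with hx | ⟨u, hu, hux⟩
    · obtain ⟨z, h1, h2, h3, h4⟩ := ih (by omega) hx
      exact ⟨z, h1, h2, by omega, by omega⟩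
    · obtain ⟨z, h1, h2, h3, h4⟩ := ih (by omega) hu
      obtain ⟨a, ha⟩ : ∃ a, x = ltr μ π a u := by
        rcases (hf.adj u x).1 hux with h | h | h
        · exact ⟨none, h⟩
        · exact ⟨some true, h⟩
        · exact ⟨some false, h⟩
      cases z with
      | nil =>
        simp only [List.length_nil] at h4
        omega
      | cons x₀ z =>
        simp only [List.length_cons] at h3 h4
        by_cases hax : a = linv x₀
        · refine ⟨z, List.IsChain.tail h1, ?_, by omega, by omega⟩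
          rw [ha, h2, List.cons_append, act_cons, hax, ltr_linv hf]
        · refine ⟨a :: x₀ :: z, ?_, ?_, ?_, ?_⟩
          · unfold Red at h1 ⊢
            rw [List.cons_append, List.cons_append, List.isChain_cons_cons]
            exact ⟨hax, h1⟩
          · show x = act μ π (a :: (x₀ :: z ++ tw c)) r
            rw [act_cons, ← h2]
            exact ha
          · simp only [List.length_cons]
            omega
          · simp only [List.length_cons]
            omega

/-- Neighbouring roots along a circuit. -/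
theorem root_pi (hf : Frame G μ π) {k : ℕ} (hg : Gir G k) {w w' : List (Option Bool)} (hw : Red w)
    (hw' : Red w') (hl : w.getLast? = some none) (hl' : w'.getLast? = some none) (b : Bool)
    (hk : w.length + w'.length + 2 < k) {u : V} (h : act μ π w u = act μ π w' (stp π b u)) :
    False := by
  have h1 : act μ π w u = act μ π (w' ++ [some b]) u := by
    rw [h, act_append]
    rfl
  have hr : Red (w' ++ [some b]) := by
    unfold Red
    rw [List.isChain_append]
    refine ⟨hw', List.isChain_singleton _, ?_⟩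
    intro x hx y hy
    rw [hl'] at hx
    simp only [Option.mem_def, Option.some.injEq] at hx
    simp only [List.head?_cons, Option.mem_def, Option.some.injEq] at hy
    rw [← hx, ← hy]
    simp [linv]
  have h2 := act_uniq hf hg hw hr (by simp only [List.length_append, List.length_singleton]; omega)
    h1
  rw [h2] at hl
  simp at hl

/-- Neighbouring roots along a third edge. -/
theorem root_mu (hf : Frame G μ π) {k : ℕ} (hg : Gir G k) {w w' : List (Option Bool)} (hw : Red w)
    (hw' : Red w') (hl : w.getLast? = some none) (hl' : w'.getLast? = some none)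
    (hk : w.length + w'.length + 2 < k) {u : V} (h : act μ π w (μ u) = act μ π w' u) :
    False := by
  obtain ⟨w₀, rfl⟩ : ∃ w₀, w = w₀ ++ [none] := List.getLast?_eq_some_iff.1 hl
  have h1 : act μ π (w₀ ++ [none]) (μ u) = act μ π w₀ u := by
    rw [act_append]
    show act μ π w₀ (μ (μ u)) = _
    rw [hf.mu_mu]
  rw [h1] at h
  unfold Red at hw
  rw [List.isChain_append] at hw
  have h2 := act_uniq hf hg hw.1 hw' (by
    simp only [List.length_append, List.length_singleton] at hk
    omega) h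
  rw [← h2] at hl'
  exact hw.2.2 none (by rw [hl']; rfl) none rfl rfl

/-- The words of the vertices behind the ends of the marks are unique. -/
theorem same_end (hf : Frame G μ π) {k N D : ℕ} (hg : Gir G k) (hk : 2 * N + 4 ≤ k)
    (hDN : 2 * N + 2 ≤ D) {p : V → V → ℝ} (hp : Marks G p) (hD : FarM G D p) {u u' : V}
    (hu : u ∈ ends p) (hu' : u' ∈ ends p) {w w' : List (Option Bool)} (hw : Red w)
    (hw' : Red w') (hl : w.getLast? = some none) (hl' : w'.getLast? = some none)
    (hN : w.length ≤ N) (hN' : w'.length ≤ N)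
    (h : act μ π w (rtm μ p u) = act μ π w' (rtm μ p u')) : u = u' ∧ w = w' := by
  classical
  have hsy : ∀ a b, G.Adj a b → G.Adj b a := fun a b h => h.symm
  have hr : ∀ v, rtm μ p v ∈ Bl G.Adj 1 v := by
    intro v
    unfold rtm
    split_ifs with h0
    · exact Bl_self _ _
    · exact mem_Bl_succ.2 (Or.inr ⟨v, mem_Bl_zero.2 rfl, mu_adj hf v⟩)
  have hx : ∀ v (w : List (Option Bool)), w.length ≤ N →
      act μ π w (rtm μ p v) ∈ Bl G.Adj (1 + N) v := fun v w hwN =>
    Bl_comp (hr v) (Bl_mono hwN _ (act_mem_Bl hf w _))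
  by_cases huu : u = u'
  · subst huu
    exact ⟨rfl, act_uniq hf hg hw hw' (by omega) h⟩
  exfalso
  obtain ⟨v, hv⟩ := (mem_filter.1 hu).2
  obtain ⟨v', hv'⟩ := (mem_filter.1 hu').2
  have hnear : u' ∈ Bl G.Adj D u := by
    have h1 := hx u w hN
    have h2 := hx u' w' hN'
    rw [h] at h1
    exact Bl_mono (by omega) _ (Bl_comp h1 (Bl_symm hsy h2))
  have hself : ∀ a b c, p a b ≠ 0 → p a c ≠ 0 → b = c := by
    intro a b c hb hc
    rcases hD a b a c hb hc (Bl_self _ _) with h0 | h0
    · exact h0.2.symm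
    · exact absurd h0.1 (G.ne_of_adj (hp.adj a b hb))
  have hvv : u' = v ∧ v' = u := by
    rcases hD u v u' v' hv hv' hnear with h0 | h0
    · exact absurd h0.1.symm huu
    · exact h0
  obtain ⟨rfl, rfl⟩ := hvv
  -- now `p u u' ≠ 0`
  have key : ∀ a b, p a b ≠ 0 → b ≠ μ a → rtm μ p a = a := by
    intro a b hab hne
    unfold rtm
    rw [if_pos]
    by_contra h0
    exact hne (hself a b (μ a) hab h0)
  have key' : ∀ a b, p a b ≠ 0 → b = μ a → rtm μ p a = b := by
    intro a b hab he
    unfold rtm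
    rw [if_neg (by rw [← he]; exact hab), he]
  rcases (hf.adj v' u').1 (hp.adj _ _ hv) with h0 | h0 | h0
  · have h1 := key' v' u' hv h0
    have h2 := key' u' v' hv' (by rw [h0, hf.mu_mu])
    rw [h1, h2, h0] at h
    exact root_mu hf hg hw hw' hl hl' (by omega) h
  · have h1 := key v' u' hv (fun h3 => hf.mu_ne v' (h3.symm.trans h0))
    have h2 := key u' v' hv' (fun h3 => hf.mu_ne v' (by
      rw [← h0, h3, hf.mu_mu]))
    rw [h1, h2, h0] at h
    exact root_pi hf hg hw hw' hl hl' true (by omega) h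
  · have h1 := key v' u' hv (fun h3 => hf.mu_ne' v' (h3.symm.trans h0))
    have h2 := key u' v' hv' (fun h3 => hf.mu_ne' v' (by
      rw [← h0, h3, hf.mu_mu]))
    rw [h1, h2, h0] at h
    exact root_pi hf hg hw hw' hl hl' false (by omega) h

/-- The path from a leaf. -/
noncomputable def Wp (μ : V → V) (π : Equiv.Perm V) (r : V) (c : List Bool) : ℕ → Finset V
  | 0 => {TT μ π r c}
  | n + 1 => Wp μ π r c n ∪ ({stp π true (TT μ π r (List.replicate n true ++ c))} ∪
      {TT μ π r (List.replicate (n + 1) true ++ c)})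

theorem Wp_mem (r : V) (c : List Bool) (n : ℕ) :
    TT μ π r c ∈ Wp μ π r c n ∧ TT μ π r (List.replicate n true ++ c) ∈ Wp μ π r c n := by
  induction n with
  | zero => simp [Wp]
  | succ n ih =>
    refine ⟨?_, ?_⟩
    · rw [Wp]
      exact mem_union_left _ ih.1
    · rw [Wp]
      exact mem_union_right _ (mem_union_right _ (mem_singleton_self _))

theorem Wp_joined (hf : Frame G μ π) (r : V) (c : List Bool) (n : ℕ) :
    Joined G (Wp μ π r c n) := by
  induction n with
  | zero => exact joined_singleton _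
  | succ n ih =>
    rw [Wp]
    refine joined_union ih (joined_union (joined_singleton _) (joined_singleton _)
      (mem_singleton_self _) (mem_singleton_self _) ?_) (Wp_mem r c n).2
      (mem_union_left _ (mem_singleton_self _)) (stp_adj hf true _)
    rw [List.replicate_succ, List.cons_append]
    exact mu_adj hf _

theorem Wp_word (r : V) (c : List Bool) (n : ℕ) {x : V} (hx : x ∈ Wp μ π r c n) :
    ∃ z, Red (z ++ tw c) ∧ x = act μ π (z ++ tw c) r ∧ z.length ≤ 2 * n := by
  induction n with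
  | zero =>
    rw [Wp, mem_singleton] at hx
    exact ⟨[], red_tw c, by rw [hx, List.nil_append, act_tw], by simp⟩
  | succ n ih =>
    rw [Wp, mem_union, mem_union, mem_singleton, mem_singleton] at hx
    rcases hx with hx | hx | hx
    · obtain ⟨z, h1, h2, h3⟩ := ih hx
      exact ⟨z, h1, h2, by omega⟩
    · refine ⟨some true :: pth n, ?_, ?_, ?_⟩
      · have h := red_tw (List.replicate (n + 1) true ++ c)
        rw [tw_pth] at h
        exact List.IsChain.tail h
      · rw [hx, ← act_tw, tw_pth, List.cons_append, act_cons]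
        rfl
      · simp only [List.length_cons, length_pth]
        omega
    · refine ⟨pth (n + 1), ?_, ?_, ?_⟩
      · rw [← tw_pth]
        exact red_tw _
      · rw [hx, ← act_tw, tw_pth]
      · rw [length_pth]

/-- The centre of the candidate cluster `a`. -/
noncomputable def ctr (μ : V → V) (π : Equiv.Perm V) (p : V → V → ℝ) (R₁ : ℕ) {jm : ℕ} (u : V)
    (b : Fin jm → Bool) (a : ℕ) : V :=
  TT μ π (rtm μ p u) (List.replicate ((R₁ + 1) * (a + 1)) true ++ List.ofFn b)

end ClE

open ClE

/-- E6: one cluster behind every leaf of every mark end. -/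
theorem exists_clusters (h : ℕ) (hh : 0 < h) (κ : ℝ) (R₁ : ℕ) : ∃ n₁ : ℕ, ∀ jm N₀ : ℕ,
    ∃ D₀ D k : ℕ, ∀ {V : Type} [Fintype V] [DecidableEq V] (G : SimpleGraph V)
    [DecidableRel G.Adj] {μ : V → V} {π : Equiv.Perm V}, Frame G μ π → Gir G k →
    ∀ p : V → V → ℝ, Marks G p → FarM G D p →
    ∀ Fam : Finset (Finset V), (∀ Z ∈ Fam, D₀ ≤ dd G Z) →
    (∀ v D', ((Fam.filter fun Z => v ∈ Z ∧ dd G Z = D').card : ℝ) ≤ N₀ * Real.exp (κ * D')) →
    ∃ (β : V → (Fin jm → Bool) → V) (W : V → (Fin jm → Bool) → Finset V),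
      (∀ u ∈ ends p, ∀ b, Joined G (W u b) ∧ TT μ π (rtm μ p u) (List.ofFn b) ∈ W u b ∧
        β u b ∈ W u b ∧ W u b ⊆ Bl G.Adj (2 * jm + n₁) u ∧
        Bl G.Adj R₁ (β u b) ⊆ Bl G.Adj (2 * jm + n₁) u) ∧
      (∀ u ∈ ends p, ∀ b, ∀ u' ∈ ends p, ∀ b', (u, b) ≠ (u', b') →
        Disjoint (W u b) (W u' b') ∧ Disjoint (Bl G.Adj R₁ (β u b)) (Bl G.Adj R₁ (β u' b'))) ∧
      ∀ Z ∈ Fam, h * ((ends p ×ˢ (univ : Finset (Fin jm → Bool))).filter fun x =>
        Cuts (Bl G.Adj R₁ (β x.1 x.2)) Z).card ≤ dd G Z := by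
  classical
  obtain ⟨L, hL0, hL⟩ := pick_zone h hh κ
  refine ⟨2 * ((R₁ + 1) * L) + R₁ + 2, fun jm N₀ => ?_⟩
  obtain ⟨D₀, hD₀⟩ := hL (3 * 2 ^ R₁) N₀
  obtain ⟨N, hN⟩ : ∃ N, N = 2 * jm + 1 + 2 * ((R₁ + 1) * L) + R₁ := ⟨_, rfl⟩
  refine ⟨D₀, 2 * N + 2, 2 * N + 4, ?_⟩
  intro V _ _ G _ μ π hf hg p hp hD Fam hFam hcount
  have hsy : ∀ a b, G.Adj a b → G.Adj b a := fun a b h => h.symm
  have hroot : ∀ v, rtm μ p v ∈ Bl G.Adj 1 v := by
    intro v
    unfold rtm
    split_ifs with h0
    · exact Bl_self _ _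
    · exact mem_Bl_succ.2 (Or.inr ⟨v, mem_Bl_zero.2 rfl, mu_adj hf v⟩)
  have hle : ∀ a : Fin L, (R₁ + 1) * (a.1 + 1) ≤ (R₁ + 1) * L := fun a =>
    Nat.mul_le_mul_left _ a.2
  -- the balls of the candidates
  have hball : ∀ (u : V) (b : Fin jm → Bool) (a : Fin L) (x : V),
      x ∈ Bl G.Adj R₁ (ctr μ π p R₁ u b a) → ∃ z, Red (z ++ tw (List.ofFn b)) ∧
        x = act μ π (z ++ tw (List.ofFn b)) (rtm μ p u) ∧
        z.length ≤ 2 * ((R₁ + 1) * (a + 1)) + R₁ ∧ 2 * ((R₁ + 1) * (a + 1)) ≤ z.length + R₁ := by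
    intro u b a x hx
    unfold ctr at hx
    rw [← act_tw, tw_pth] at hx
    have hr := red_tw (List.replicate ((R₁ + 1) * (a.1 + 1)) true ++ List.ofFn b)
    rw [tw_pth] at hr
    obtain ⟨z, h1, h2, h3, h4⟩ := ball_word hf hr R₁ (by
      rw [length_pth]
      nlinarith) hx
    rw [length_pth] at h3 h4
    exact ⟨z, h1, h2, h3, h4⟩
  have htw : ∀ b : Fin jm → Bool, (tw (List.ofFn b)).length = 2 * jm + 1 := by
    intro b
    rw [length_tw, List.length_ofFn]
  -- the words determine everything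
  have huniq : ∀ u ∈ ends p, ∀ u' ∈ ends p, ∀ (b b' : Fin jm → Bool)
      (z z' : List (Option Bool)), Red (z ++ tw (List.ofFn b)) → Red (z' ++ tw (List.ofFn b')) →
      z.length ≤ 2 * ((R₁ + 1) * L) + R₁ → z'.length ≤ 2 * ((R₁ + 1) * L) + R₁ →
      act μ π (z ++ tw (List.ofFn b)) (rtm μ p u) =
        act μ π (z' ++ tw (List.ofFn b')) (rtm μ p u') → u = u' ∧ b = b' ∧ z = z' := by
    intro u hu u' hu' b b' z z' h1 h2 h3 h4 h5
    obtain ⟨e1, e2⟩ := same_end hf hg (N := N) le_rfl le_rfl hp hD hu hu' h1 h2 (app_last _ _)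
      (app_last _ _) (by rw [List.length_append, htw]; omega)
      (by rw [List.length_append, htw]; omega) h5
    obtain ⟨e3, e4⟩ := List.append_inj' e2 (by rw [htw, htw])
    exact ⟨e1, List.ofFn_injective (tw_inj e4), e3⟩
  obtain ⟨t, ht⟩ := hD₀ G (ι := {u // u ∈ ends p} × (Fin jm → Bool))
    (fun i a => Bl G.Adj R₁ (ctr μ π p R₁ i.1.1 i.2 a)) (fun i a => joined_ball _ _)
    (fun i a => by
      have := Bl_card G hf.deg R₁ (ctr μ π p R₁ i.1.1 i.2 a)
      omega)
    (by
      intro i a j b hne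
      rw [Finset.disjoint_left]
      intro x hx hx'
      obtain ⟨z, h1, h2, h3, h4⟩ := hball _ _ _ _ hx
      obtain ⟨z', h1', h2', h3', h4'⟩ := hball _ _ _ _ hx'
      have l1 := hle a
      have l2 := hle b
      obtain ⟨e1, e2, e3⟩ := huniq _ i.1.2 _ j.1.2 _ _ z z' h1 h1' (by omega) (by omega)
        (h2.symm.trans h2')
      apply hne
      have hab : a = b := by
        by_contra hab
        rw [e3] at h3 h4
        have hab' : a.1 ≠ b.1 := fun h0 => hab (Fin.ext h0)
        rcases Nat.lt_or_gt_of_ne hab' with h0 | h0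
        · have : (R₁ + 1) * (a.1 + 1 + 1) ≤ (R₁ + 1) * (b.1 + 1) :=
            Nat.mul_le_mul_left _ (by omega)
          rw [Nat.mul_succ] at this
          omega
        · have : (R₁ + 1) * (b.1 + 1 + 1) ≤ (R₁ + 1) * (a.1 + 1) :=
            Nat.mul_le_mul_left _ (by omega)
          rw [Nat.mul_succ] at this
          omega
      refine Prod.ext (Prod.ext (Subtype.ext e1) e2) hab)
    Fam hFam hcount
  -- the choice
  let tt : V → (Fin jm → Bool) → ℕ := fun u b => if hu : u ∈ ends p then (t (⟨u, hu⟩, b)).1 else 0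
  have htt : ∀ (u : V) (hu : u ∈ ends p) (b : Fin jm → Bool), tt u b = (t (⟨u, hu⟩, b)).1 :=
    fun u hu b => dif_pos hu
  refine ⟨fun u b => ctr μ π p R₁ u b (tt u b), fun u b =>
    Wp μ π (rtm μ p u) (List.ofFn b) ((R₁ + 1) * (tt u b + 1)), ?_, ?_, ?_⟩
  · intro u hu b
    have hl := hle (t (⟨u, hu⟩, b))
    rw [← htt u hu b] at hl
    refine ⟨Wp_joined hf _ _ _, (Wp_mem _ _ _).1, (Wp_mem _ _ _).2, ?_, ?_⟩
    · intro x hx
      obtain ⟨z, -, h2, h3⟩ := Wp_word _ _ _ hx
      rw [h2]
      refine Bl_mono ?_ _ (Bl_comp (hroot u) (act_mem_Bl hf _ _))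
      rw [List.length_append, htw]
      omega
    · intro x hx
      have hx' : x ∈ Bl G.Adj R₁ (ctr μ π p R₁ u b (t (⟨u, hu⟩, b))) := by
        rw [← htt u hu b]
        exact hx
      obtain ⟨z, -, h2, h3, -⟩ := hball _ _ _ _ hx'
      rw [← htt u hu b] at h3
      rw [h2]
      refine Bl_mono ?_ _ (Bl_comp (hroot u) (act_mem_Bl hf _ _))
      rw [List.length_append, htw]
      omega
  · intro u hu b u' hu' b' hne
    have hl := hle (t (⟨u, hu⟩, b))
    have hl' := hle (t (⟨u', hu'⟩, b'))
    rw [← htt u hu b] at hl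
    rw [← htt u' hu' b'] at hl'
    constructor
    · rw [Finset.disjoint_left]
      intro x hx hx'
      obtain ⟨z, h1, h2, h3⟩ := Wp_word _ _ _ hx
      obtain ⟨z', h1', h2', h3'⟩ := Wp_word _ _ _ hx'
      obtain ⟨e1, e2, -⟩ := huniq _ hu _ hu' _ _ z z' h1 h1' (by omega) (by omega)
        (h2.symm.trans h2')
      exact hne (by rw [e1, e2])
    · rw [Finset.disjoint_left]
      intro x hx hx'
      have g1 : x ∈ Bl G.Adj R₁ (ctr μ π p R₁ u b (t (⟨u, hu⟩, b))) := by
        rw [← htt u hu b]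
        exact hx
      have g2 : x ∈ Bl G.Adj R₁ (ctr μ π p R₁ u' b' (t (⟨u', hu'⟩, b'))) := by
        rw [← htt u' hu' b']
        exact hx'
      obtain ⟨z, h1, h2, h3, -⟩ := hball _ _ _ _ g1
      obtain ⟨z', h1', h2', h3', -⟩ := hball _ _ _ _ g2
      rw [← htt u hu b] at h3
      rw [← htt u' hu' b'] at h3'
      obtain ⟨e1, e2, -⟩ := huniq _ hu _ hu' _ _ z z' h1 h1' (by omega) (by omega)
        (h2.symm.trans h2')
      exact hne (by rw [e1, e2])
  · intro Z hZ
    refine le_trans (Nat.mul_le_mul_left _ ?_) (ht Z hZ)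
    refine le_trans (card_le_card (t := (univ.filter fun i : {u // u ∈ ends p} × (Fin jm → Bool) =>
      Cuts (Bl G.Adj R₁ (ctr μ π p R₁ i.1.1 i.2 (t i))) Z).image fun i => (i.1.1, i.2)) ?_)
      card_image_le
    intro x hx
    rw [mem_filter, mem_product] at hx
    obtain ⟨⟨hx1, -⟩, hx2⟩ := hx
    refine mem_image.2 ⟨(⟨x.1, hx1⟩, x.2), mem_filter.2 ⟨mem_univ _, ?_⟩, rfl⟩
    change Cuts (Bl G.Adj R₁ (ctr μ π p R₁ x.1 x.2 (tt x.1 x.2))) Z at hx2
    rw [htt x.1 hx1 x.2] at hx2
    exact hx2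

end Pool.Agent.K5
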