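import Mathlib

/-!
# ROOM K5, line W, module W9: the constants
-/

namespace Pool.Agent.K5

/-- The constants of the assembly of line W. -/
theorem constsW {ε : ℝ} (hε : 0 < ε) : ∃ (J : ℕ) (θ η b : ℝ), 0 < θ ∧ 0 < η ∧ 20 * η ≤ θ ∧
    0 < b ∧ 2 * b ≤ η ∧ 1 / 2 ^ (J + 2) ≤ ε / (4 * (4 + ε)) ∧
    ∀ j₁ : ℕ, ∃ j₀ : ℕ, J ≤ j₀ ∧ j₁ ≤ j₀ ∧ 1 ≤ j₀ ∧ ∃ k₁ : ℕ, 1 ≤ k₁ ∧ ∀ k : ℕ, k₁ ≤ k →
      2 * b + 5 / k ≤ 2 * η ∧
      123 / 100 * (b + 5 / k) + 223 / 100 * (b + (2 / 2 ^ j₀ + 4 * θ)) ≤ ε / (4 * (4 + ε)) := by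
  set e : ℝ := ε / (4 * (4 + ε)) with he
  have he0 : 0 < e := by positivity
  set θ : ℝ := e / 20 with hθ
  have hθ0 : 0 < θ := by positivity
  set η : ℝ := θ / 20 with hη
  have hη0 : 0 < η := by positivity
  have hη1 : η = e / 400 := by rw [hη, hθ]; ring
  obtain ⟨J, hJ⟩ : ∃ n : ℕ, (1 / 2 : ℝ) ^ n < e := exists_pow_lt_of_lt_one he0 (by norm_num)
  refine ⟨J, θ, η, η / 2, hθ0, hη0, by rw [hη]; linarith, by positivity, by linarith, ?_, ?_⟩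
  · refine le_trans ?_ hJ.le
    rw [one_div_pow]
    exact one_div_le_one_div_of_le (by positivity) (pow_le_pow_right₀ (by norm_num) (by omega))
  · intro j₁
    obtain ⟨n, hn⟩ : ∃ n : ℕ, (1 / 2 : ℝ) ^ n < e / 20 :=
      exists_pow_lt_of_lt_one (by positivity) (by norm_num)
    obtain ⟨k₁, hk₁⟩ : ∃ n : ℕ, 5 / η < n := exists_nat_gt _
    have hk₁0 : 0 < (k₁ : ℝ) := lt_trans (by positivity) hk₁
    refine ⟨max (max J j₁) (max n 1), (le_max_left _ _).trans (le_max_left _ _),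
      (le_max_right _ _).trans (le_max_left _ _), (le_max_right _ _).trans (le_max_right _ _),
      k₁, by exact_mod_cast hk₁0, fun k hk => ?_⟩
    set j₀ : ℕ := max (max J j₁) (max n 1) with hj₀
    have hnj : n ≤ j₀ := (le_max_left _ _).trans (le_max_right _ _)
    have hkR : (k₁ : ℝ) ≤ k := by exact_mod_cast hk
    have hk0 : (0 : ℝ) < k := lt_of_lt_of_le hk₁0 hkR
    have h5 : 5 / (k : ℝ) ≤ η := by
      rw [div_lt_iff₀ hη0] at hk₁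
      rw [div_le_iff₀ hk0]
      nlinarith
    have h2 : (2 : ℝ) / 2 ^ j₀ ≤ e / 10 := by
      have h1 : (1 : ℝ) / 2 ^ j₀ ≤ (1 / 2) ^ n := by
        rw [one_div_pow]
        exact one_div_le_one_div_of_le (by positivity) (pow_le_pow_right₀ (by norm_num) hnj)
      have h3 : (2 : ℝ) / 2 ^ j₀ = 2 * (1 / 2 ^ j₀) := by ring
      rw [h3]
      linarith
    refine ⟨by linarith, ?_⟩
    rw [hη1] at h5 ⊢
    rw [hθ]
    linarith

/-- The last step of line W. -/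
theorem crit_arithW {ε x d s : ℝ} {J : ℕ} (hε : 0 < ε) (hd : 0 ≤ d)
    (hx : x ≤ (1 / 2 + 1 / 2 ^ (J + 2)) * d + s) (h1 : 1 / 2 ^ (J + 2) ≤ ε / (4 * (4 + ε)))
    (h2 : s ≤ ε / (4 * (4 + ε)) * d) : (4 + ε) * x ≤ (4 + ε - 2) * d := by
  have h5 : 0 < 4 + ε := by linarith
  have h3 : x ≤ (1 / 2 + 2 * (ε / (4 * (4 + ε)))) * d := by
    have := mul_le_mul_of_nonneg_right h1 hd
    nlinarith
  calc (4 + ε) * x ≤ (4 + ε) * ((1 / 2 + 2 * (ε / (4 * (4 + ε)))) * d) :=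
        mul_le_mul_of_nonneg_left h3 h5.le
    _ = (4 + ε - 2) * d := by field_simp; ring

end Pool.Agent.K5
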