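import Mathlib
import Pool.Agent.Work.MP_974d84_co_k5.Params

/-!
# ROOM K5, module X9: the constants of the exact theorem
-/

namespace Pool.Agent.K5

/-- The constants of the exact assembly: `b₁ = b (1 + 3 B) + B / 2 ^ a` with
`B = 9 ρ 2 ^ (m + 1)`. -/
theorem constsX (a₀ : ℕ) : ∃ (θ η : ℝ) (ρ m s a κ : ℕ) (b τ b₁ : ℝ),
    0 < θ ∧ 0 < η ∧ 20 * η ≤ θ ∧ 480 * θ ≤ 1 ∧ 4 * ρ ≤ 2 ^ m ∧ 8 * s + 4 * m + 7 ≤ ρ ∧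
    0 < b ∧ b ≤ 1 ∧ 0 < τ ∧ 8 / Real.sqrt ((2 ^ s : ℕ) : ℝ) + τ ≤ b ^ 2 / 16 ∧
    a₀ ≤ a ∧ ρ ≤ a ∧ 1 ≤ b * 2 ^ a ∧ 0 < κ ∧ 0 ≤ b₁ ∧
    b₁ = b * (1 + 3 * (9 * ρ * 2 ^ (m + 1))) + 1 / 2 ^ a * (9 * ρ * 2 ^ (m + 1)) ∧
    4 * b₁ + 5 / κ ≤ 4 * η ∧ 22 * b₁ + 7 * (2 / 2 ^ a + 4 * θ) + 25 / κ ≤ 1 / 10 := by
  obtain ⟨ρ, m, s, b, τ, h1, h2, hb0, hb1, hτ, hbB, hs⟩ := params (b' := 1 / 200000) (by norm_num)
  set B : ℝ := 9 * ρ * 2 ^ (m + 1) with hB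
  have hB0 : 0 ≤ B := by positivity
  obtain ⟨a₁, ha₁⟩ : ∃ n : ℕ, (1 / 2 : ℝ) ^ n < min b (1 / (200000 * (B + 1))) :=
    exists_pow_lt_of_lt_one (lt_min hb0 (by positivity)) (by norm_num)
  set a : ℕ := max (max a₁ ρ) a₀ with ha
  have ha2 : a₁ ≤ a := (le_max_left _ _).trans (le_max_left _ _)
  have ha3 : ρ ≤ a := (le_max_right _ _).trans (le_max_left _ _)
  have ha4 : a₀ ≤ a := le_max_right _ _
  have hpow : (1 : ℝ) / 2 ^ a ≤ (1 / 2) ^ a₁ := by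
    rw [one_div_pow]
    exact one_div_le_one_div_of_le (by positivity) (pow_le_pow_right₀ (by norm_num) ha2)
  have hpa1 : (1 : ℝ) / 2 ^ a ≤ b := hpow.trans (ha₁.le.trans (min_le_left _ _))
  have hpa2 : (1 : ℝ) / 2 ^ a ≤ 1 / (200000 * (B + 1)) :=
    hpow.trans (ha₁.le.trans (min_le_right _ _))
  have hpa3 : (1 : ℝ) / 2 ^ a * (B + 1) ≤ 1 / 200000 := by
    rw [le_div_iff₀ (by positivity)] at hpa2
    rw [le_div_iff₀ (by norm_num)]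
    linarith
  have hp0 : (0 : ℝ) ≤ 1 / 2 ^ a := by positivity
  have hpB : (1 : ℝ) / 2 ^ a * B ≤ 1 / 200000 := by nlinarith
  have hp1 : (1 : ℝ) / 2 ^ a ≤ 1 / 200000 := by nlinarith [mul_nonneg hp0 hB0]
  have hb2 : b * (1 + 3 * B) + 1 / 2 ^ a * B ≤ 1 / 100000 := by linarith
  have hbn : 0 ≤ b * (1 + 3 * B) + 1 / 2 ^ a * B := by positivity
  have h2a : (2 : ℝ) / 2 ^ a = 2 * (1 / 2 ^ a) := by ring
  refine ⟨1 / 2000, 1 / 40000, ρ, m, s, a, 1000000, b, τ, b * (1 + 3 * B) + 1 / 2 ^ a * B,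
    by norm_num, by norm_num, by norm_num, by norm_num, h1, h2, hb0, hb1, hτ, hs, ha4, ha3, ?_,
    by norm_num, hbn, rfl, ?_, ?_⟩
  · rw [div_le_iff₀ (by positivity)] at hpa1
    exact hpa1
  · push_cast
    linarith
  · push_cast
    rw [h2a]
    linarith

end Pool.Agent.K5
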