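import Pool.Agent.Work.MP_974d84_co_k5.Defs5
import Pool.Agent.Work.MP_974d84_co_k5.Charges

/-!
# M9a: real charges modulo `4`
-/

set_option linter.unusedSectionVars false

namespace Pool.Agent.K5

open Finset SimpleGraph Pool.Agent.Exp Pool.Agent.Log5 Pool.Agent.Log5.Clu

theorem core_charges_real {V : Type} [Fintype V] [DecidableEq V] (G : SimpleGraph V)
    [DecidableRel G.Adj] {r : ℕ} (S : Fin r → Finset V) (hne : ∀ i, (S i).Nonempty)
    (hd : ∀ i j, i ≠ j → Disjoint (S i) (S j)) {k : ℕ} (hk : 0 < k)
    (hcut : ∀ X : Finset V, Sat S X → (∃ i, S i ⊆ X) → (∃ i, Disjoint (S i) X) → k ≤ dd G X)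
    (a : Fin r → ℝ) (ha : ∑ i, a i = 0) :
    ∃ z : Fin r → ℤ, ∑ i, z i = 0 ∧ ∀ X, Sat S X →
      |∑ i ∈ univ.filter (fun i => S i ⊆ X), (a i + 4 * z i)| ≤ 5 / k * dd G X := by
  classical
  have hkR : (0 : ℝ) < k := by exact_mod_cast hk
  rcases Nat.eq_zero_or_pos r with hr | hr
  · subst hr
    refine ⟨fun _ => 0, by simp, fun X _ => ?_⟩
    have h1 : ∑ i ∈ (univ : Finset (Fin 0)).filter (fun i => S i ⊆ X), (a i + 4 * ((0 : ℤ) : ℝ)) = 0 :=
      sum_eq_zero fun i _ => i.elim0
    rw [h1, abs_zero]
    positivity
  · set i₀ : Fin r := ⟨0, hr⟩ with hi₀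
    -- the scale
    set N : ℕ := 2 * r * k with hN
    have hN0 : 0 < N := by positivity
    have hNR : (0 : ℝ) < N := by exact_mod_cast hN0
    set e : ℤ := - ∑ j, ⌊(N : ℝ) * a j⌋ with he
    have he0 : (e : ℝ) = ∑ j, Int.fract ((N : ℝ) * a j) := by
      have h1 : ∑ j, (N : ℝ) * a j = 0 := by rw [← mul_sum, ha, mul_zero]
      have h2 : ∑ j, Int.fract ((N : ℝ) * a j) = ∑ j, ((N : ℝ) * a j - (⌊(N : ℝ) * a j⌋ : ℝ)) := rfl
      rw [h2, sum_sub_distrib, h1, he]
      push_cast
      ring
    have he1 : (0 : ℝ) ≤ e := by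
      rw [he0]
      exact sum_nonneg fun j _ => Int.fract_nonneg _
    have he2 : (e : ℝ) ≤ r := by
      rw [he0]
      calc ∑ j, Int.fract ((N : ℝ) * a j) ≤ ∑ j : Fin r, (1 : ℝ) :=
            sum_le_sum fun j _ => (Int.fract_lt_one _).le
        _ = r := by simp
    set b : Fin r → ℤ := fun i => ⌊(N : ℝ) * a i⌋ + if i = i₀ then e else 0 with hb
    have hbs : ∑ i, b i = 0 := by
      simp only [hb, sum_add_distrib, sum_ite_eq', mem_univ, if_true, he]
      ring
    obtain ⟨β, hβ1, hβ2, hβ3⟩ := core_charges (G := G) S hne hd hk hcut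
      (q := 4 * N) (by positivity) b (by rw [hbs]; exact dvd_zero _)
    choose z hz using hβ1
    refine ⟨z, ?_, fun X hX => ?_⟩
    · have h1 : ∑ i, (β i - b i) = 0 := by rw [sum_sub_distrib, hβ2, hbs]; rfl
      rw [sum_congr rfl fun i _ => hz i, ← mul_sum] at h1
      rcases mul_eq_zero.1 h1 with h2 | h2
      · exfalso
        have : (4 * N : ℕ) = 0 := by exact_mod_cast h2
        omega
      · exact h2
    · -- trivial sets
      by_cases hXn : ∃ i, S i ⊆ X
      swap
      · have h1 : univ.filter (fun i => S i ⊆ X) = ∅ := by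
          rw [filter_eq_empty_iff]
          intro i _ hi
          exact hXn ⟨i, hi⟩
        rw [h1, sum_empty, abs_zero]
        positivity
      by_cases hXc : ∀ i, S i ⊆ X
      · have h1 : univ.filter (fun i => S i ⊆ X) = univ := by
          rw [filter_eq_self]
          exact fun i _ => hXc i
        have h2 : ∑ i, (a i + 4 * (z i : ℝ)) = 0 := by
          rw [sum_add_distrib, ha, ← mul_sum]
          have h3 : ∑ i, (β i - b i) = 0 := by rw [sum_sub_distrib, hβ2, hbs]; rfl
          rw [sum_congr rfl fun i _ => hz i, ← mul_sum] at h3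
          have h4 : ∑ i, z i = 0 := by
            rcases mul_eq_zero.1 h3 with h2 | h2
            · exfalso
              have : (4 * N : ℕ) = 0 := by exact_mod_cast h2
              omega
            · exact h2
          have h5 : (∑ i, (z i : ℝ)) = ((∑ i, z i : ℤ) : ℝ) := by push_cast; rfl
          rw [h5, h4]
          simp
        rw [h1, h2, abs_zero]
        positivity
      · have hdd : (1 : ℝ) ≤ dd G X := by
          push Not at hXc
          obtain ⟨j, hj⟩ := hXc
          have := hcut X hX hXn ⟨j, (hX j).resolve_left hj⟩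
          have h1 : 1 ≤ dd G X := hk.trans_le this
          exact_mod_cast h1
        have h1 := hβ3 X hX
        set I := univ.filter (fun i => S i ⊆ X) with hI
        have h2 : ∀ i, a i + 4 * (z i : ℝ) = (β i : ℝ) / N
            + (Int.fract ((N : ℝ) * a i) - if i = i₀ then (e : ℝ) else 0) / N := by
          intro i
          have h3 : (β i : ℝ) = b i + (4 * N : ℕ) * z i := by
            have := hz i
            have h4 : β i = b i + (4 * N : ℕ) * z i := by linarith
            rw [h4]; push_cast; ring
          have h4 : (b i : ℝ) = (N : ℝ) * a i - Int.fract ((N : ℝ) * a i)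
              + if i = i₀ then (e : ℝ) else 0 := by
            simp only [hb]
            have h5 : ((⌊(N : ℝ) * a i⌋ : ℤ) : ℝ) = (N : ℝ) * a i - Int.fract ((N : ℝ) * a i) := by
              have : Int.fract ((N : ℝ) * a i) = (N : ℝ) * a i - (⌊(N : ℝ) * a i⌋ : ℝ) := rfl
              linarith
            push_cast
            rw [h5]
          rw [h3, h4]
          push_cast
          field_simp
          ring
        have h3 : ∑ i ∈ I, (a i + 4 * (z i : ℝ)) = ((∑ i ∈ I, β i : ℤ) : ℝ) / N
            + (∑ i ∈ I, Int.fract ((N : ℝ) * a i) - if i₀ ∈ I then (e : ℝ) else 0) / N := by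
          rw [sum_congr rfl fun i _ => h2 i, sum_add_distrib, ← sum_div, ← sum_div,
            sum_sub_distrib, sum_ite_eq']
          push_cast
          rfl
        have h4 : |((∑ i ∈ I, β i : ℤ) : ℝ) / N| ≤ 4 / k * dd G X := by
          rw [abs_div, abs_of_pos hNR, div_le_iff₀ hNR]
          refine h1.trans (le_of_eq ?_)
          push_cast
          ring
        have h5 : |(∑ i ∈ I, Int.fract ((N : ℝ) * a i) - if i₀ ∈ I then (e : ℝ) else 0) / N|
            ≤ 1 / k := by
          rw [abs_div, abs_of_pos hNR, div_le_iff₀ hNR]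
          have h6 : (0 : ℝ) ≤ ∑ i ∈ I, Int.fract ((N : ℝ) * a i) :=
            sum_nonneg fun j _ => Int.fract_nonneg _
          have h7 : ∑ i ∈ I, Int.fract ((N : ℝ) * a i) ≤ r := by
            calc ∑ i ∈ I, Int.fract ((N : ℝ) * a i) ≤ ∑ i ∈ I, (1 : ℝ) :=
                  sum_le_sum fun j _ => (Int.fract_lt_one _).le
              _ = I.card := by simp
              _ ≤ r := by
                  have := card_le_univ I
                  rw [Fintype.card_fin] at this
                  exact_mod_cast this
          have h8 : (0 : ℝ) ≤ (if i₀ ∈ I then (e : ℝ) else 0) := by split_ifs <;> linarith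
          have h9 : (if i₀ ∈ I then (e : ℝ) else 0) ≤ r := by
            split_ifs
            · exact he2
            · positivity
          have h10 : (1 : ℝ) / k * N = 2 * r := by
            rw [hN]
            push_cast
            field_simp
          rw [h10, abs_le]
          have hr0 : (0 : ℝ) ≤ r := by positivity
          constructor <;> linarith
        rw [h3]
        refine (abs_add_le _ _).trans ((add_le_add h4 h5).trans ?_)
        have h6 : (5 : ℝ) / k * dd G X = 4 / k * dd G X + 1 / k * dd G X := by ring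
        rw [h6]
        have h7 : (1 : ℝ) / k ≤ 1 / k * dd G X := by
          have : (0 : ℝ) < 1 / k := by positivity
          nlinarith
        linarith

end Pool.Agent.K5
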