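import Mathlib
import Pool.Agent.Work.MP_974d84_co_k5.CoreFactsB

/-!
# Facts about cores
-/

namespace Pool.Agent.K5

open Finset SimpleGraph Pool.Agent.Exp Pool.Agent.Log5 Pool.Agent.Log5.Clu

theorem core_facts {C : ℝ} (hC : 100 ≤ C) (N : ℕ) : ∃ k₀ : ℕ, ∀ k, k₀ ≤ k → ∀ {V : Type}
    [Fintype V] [DecidableEq V] (G : SimpleGraph V) [DecidableRel G.Adj],
    (∀ v, G.degree v = 3) → CycConn G k → Gir G k → ∀ {r : ℕ} (S : Fin r → Finset V),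
    Cores G C S → Facts G C N k S := by
  obtain ⟨k₁, h₁⟩ := facts_A hC
  obtain ⟨k₂, h₂⟩ := facts_B hC N
  refine ⟨k₁ + k₂, fun k hk V _ _ G _ h3 hc hg r S hS => ?_⟩
  obtain ⟨hl, hj, hb, hs⟩ := h₂ k (by omega) G h3 hc hg S hS
  obtain ⟨hr, hi, hh⟩ := h₁ k (by omega) G h3 S hS hl
  exact ⟨hl, hj, hb, hr, hi, hh, fun X _ h1 h2 => hs X h1 h2⟩

end Pool.Agent.K5
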