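import Pool.Agent.Work.MP_974d84_co_k5.CoreFlow
import Pool.Agent.Work.MP_974d84_co_k5.Charges

/-!
# Theorem (G): the core flow with small residues

The charges of the cores are rounded in the graph with `c` pendant vertices at different vertices
of every core, so that the residue of every core is at most `4 + δ`.
-/

set_option linter.unusedSectionVars false

namespace Pool.Agent.K5

open Finset SimpleGraph Pool.Agent.Exp Pool.Agent.Log5 Pool.Agent.Log5.Clu

/-! ### Rounding with an error near `4` -/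

theorem core_charges_real_d {V : Type} [Fintype V] [DecidableEq V] (G : SimpleGraph V)
    [DecidableRel G.Adj] {r : ℕ} (S : Fin r → Finset V) (hne : ∀ i, (S i).Nonempty)
    (hd : ∀ i j, i ≠ j → Disjoint (S i) (S j)) {k : ℕ} (hk : 0 < k)
    (hcut : ∀ X : Finset V, Sat S X → (∃ i, S i ⊆ X) → (∃ i, Disjoint (S i) X) → k ≤ dd G X)
    {δ : ℝ} (hδ : 0 < δ) (a : Fin r → ℝ) (ha : ∑ i, a i = 0) :
    ∃ z : Fin r → ℤ, ∑ i, z i = 0 ∧ ∀ X, Sat S X →
      |∑ i ∈ univ.filter (fun i => S i ⊆ X), (a i + 4 * z i)| ≤ (4 + δ) / k * dd G X := by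
  classical
  have hkR : (0 : ℝ) < k := by exact_mod_cast hk
  rcases Nat.eq_zero_or_pos r with hr | hr
  · subst hr
    refine ⟨fun _ => 0, by simp, fun X _ => ?_⟩
    have h1 : ∑ i ∈ (univ : Finset (Fin 0)).filter (fun i => S i ⊆ X), (a i + 4 * ((0 : ℤ) : ℝ)) = 0 :=
      sum_eq_zero fun i _ => i.elim0
    rw [h1, abs_zero]
    positivity
  · set i₀ : Fin r := ⟨0, hr⟩ with hi₀
    -- the scale
    set N : ℕ := ⌈(r : ℝ) * k / δ⌉₊ + 1 with hN
    have hN0 : 0 < N := by omega
    have hNR : (0 : ℝ) < N := by exact_mod_cast hN0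
    have hNb : (r : ℝ) ≤ δ / k * N := by
      have h1 : (r : ℝ) * k / δ ≤ N := by
        rw [hN]
        push_cast
        exact (Nat.le_ceil _).trans (by linarith)
      rw [div_le_iff₀ hδ] at h1
      rw [div_mul_eq_mul_div, le_div_iff₀ hkR]
      linarith
    set e : ℤ := - ∑ j, ⌊(N : ℝ) * a j⌋ with he
    have he0 : (e : ℝ) = ∑ j, Int.fract ((N : ℝ) * a j) := by
      have h1 : ∑ j, (N : ℝ) * a j = 0 := by rw [← mul_sum, ha, mul_zero]
      have h2 : ∑ j, Int.fract ((N : ℝ) * a j) = ∑ j, ((N : ℝ) * a j - (⌊(N : ℝ) * a j⌋ : ℝ)) := rfl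
      rw [h2, sum_sub_distrib, h1, he]
      push_cast
      ring
    have he1 : (0 : ℝ) ≤ e := by
      rw [he0]
      exact sum_nonneg fun j _ => Int.fract_nonneg _
    have he2 : (e : ℝ) ≤ r := by
      rw [he0]
      calc ∑ j, Int.fract ((N : ℝ) * a j) ≤ ∑ j : Fin r, (1 : ℝ) :=
            sum_le_sum fun j _ => (Int.fract_lt_one _).le
        _ = r := by simp
    set b : Fin r → ℤ := fun i => ⌊(N : ℝ) * a i⌋ + if i = i₀ then e else 0 with hb
    have hbs : ∑ i, b i = 0 := by
      simp only [hb, sum_add_distrib, sum_ite_eq', mem_univ, if_true, he]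
      ring
    obtain ⟨β, hβ1, hβ2, hβ3⟩ := core_charges (G := G) S hne hd hk hcut
      (q := 4 * N) (by positivity) b (by rw [hbs]; exact dvd_zero _)
    choose z hz using hβ1
    refine ⟨z, ?_, fun X hX => ?_⟩
    · have h1 : ∑ i, (β i - b i) = 0 := by rw [sum_sub_distrib, hβ2, hbs]; rfl
      rw [sum_congr rfl fun i _ => hz i, ← mul_sum] at h1
      rcases mul_eq_zero.1 h1 with h2 | h2
      · exfalso
        have : (4 * N : ℕ) = 0 := by exact_mod_cast h2
        omega
      · exact h2
    · -- trivial sets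
      by_cases hXn : ∃ i, S i ⊆ X
      swap
      · have h1 : univ.filter (fun i => S i ⊆ X) = ∅ := by
          rw [filter_eq_empty_iff]
          intro i _ hi
          exact hXn ⟨i, hi⟩
        rw [h1, sum_empty, abs_zero]
        positivity
      by_cases hXc : ∀ i, S i ⊆ X
      · have h1 : univ.filter (fun i => S i ⊆ X) = univ := by
          rw [filter_eq_self]
          exact fun i _ => hXc i
        have h2 : ∑ i, (a i + 4 * (z i : ℝ)) = 0 := by
          rw [sum_add_distrib, ha, ← mul_sum]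
          have h3 : ∑ i, (β i - b i) = 0 := by rw [sum_sub_distrib, hβ2, hbs]; rfl
          rw [sum_congr rfl fun i _ => hz i, ← mul_sum] at h3
          have h4 : ∑ i, z i = 0 := by
            rcases mul_eq_zero.1 h3 with h2 | h2
            · exfalso
              have : (4 * N : ℕ) = 0 := by exact_mod_cast h2
              omega
            · exact h2
          have h5 : (∑ i, (z i : ℝ)) = ((∑ i, z i : ℤ) : ℝ) := by push_cast; rfl
          rw [h5, h4]
          simp
        rw [h1, h2, abs_zero]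
        positivity
      · have hdd : (1 : ℝ) ≤ dd G X := by
          push Not at hXc
          obtain ⟨j, hj⟩ := hXc
          have := hcut X hX hXn ⟨j, (hX j).resolve_left hj⟩
          have h1 : 1 ≤ dd G X := hk.trans_le this
          exact_mod_cast h1
        have h1 := hβ3 X hX
        set I := univ.filter (fun i => S i ⊆ X) with hI
        have h2 : ∀ i, a i + 4 * (z i : ℝ) = (β i : ℝ) / N
            + (Int.fract ((N : ℝ) * a i) - if i = i₀ then (e : ℝ) else 0) / N := by
          intro i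
          have h3 : (β i : ℝ) = b i + (4 * N : ℕ) * z i := by
            have := hz i
            have h4 : β i = b i + (4 * N : ℕ) * z i := by linarith
            rw [h4]; push_cast; ring
          have h4 : (b i : ℝ) = (N : ℝ) * a i - Int.fract ((N : ℝ) * a i)
              + if i = i₀ then (e : ℝ) else 0 := by
            simp only [hb]
            have h5 : ((⌊(N : ℝ) * a i⌋ : ℤ) : ℝ) = (N : ℝ) * a i - Int.fract ((N : ℝ) * a i) := by
              have : Int.fract ((N : ℝ) * a i) = (N : ℝ) * a i - (⌊(N : ℝ) * a i⌋ : ℝ) := rfl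
              linarith
            push_cast
            rw [h5]
          rw [h3, h4]
          push_cast
          field_simp
          ring
        have h3 : ∑ i ∈ I, (a i + 4 * (z i : ℝ)) = ((∑ i ∈ I, β i : ℤ) : ℝ) / N
            + (∑ i ∈ I, Int.fract ((N : ℝ) * a i) - if i₀ ∈ I then (e : ℝ) else 0) / N := by
          rw [sum_congr rfl fun i _ => h2 i, sum_add_distrib, ← sum_div, ← sum_div,
            sum_sub_distrib, sum_ite_eq']
          push_cast
          rfl
        have h4 : |((∑ i ∈ I, β i : ℤ) : ℝ) / N| ≤ 4 / k * dd G X := by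
          rw [abs_div, abs_of_pos hNR, div_le_iff₀ hNR]
          refine h1.trans (le_of_eq ?_)
          push_cast
          ring
        have h5 : |(∑ i ∈ I, Int.fract ((N : ℝ) * a i) - if i₀ ∈ I then (e : ℝ) else 0) / N|
            ≤ δ / k := by
          rw [abs_div, abs_of_pos hNR, div_le_iff₀ hNR]
          have h6 : (0 : ℝ) ≤ ∑ i ∈ I, Int.fract ((N : ℝ) * a i) :=
            sum_nonneg fun j _ => Int.fract_nonneg _
          have h7 : ∑ i ∈ I, Int.fract ((N : ℝ) * a i) ≤ r := by
            calc ∑ i ∈ I, Int.fract ((N : ℝ) * a i) ≤ ∑ i ∈ I, (1 : ℝ) :=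
                  sum_le_sum fun j _ => (Int.fract_lt_one _).le
              _ = I.card := by simp
              _ ≤ r := by
                  have := card_le_univ I
                  rw [Fintype.card_fin] at this
                  exact_mod_cast this
          have h8 : (0 : ℝ) ≤ (if i₀ ∈ I then (e : ℝ) else 0) := by split_ifs <;> linarith
          have h9 : (if i₀ ∈ I then (e : ℝ) else 0) ≤ r := by
            split_ifs
            · exact he2
            · positivity
          rw [abs_le]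
          constructor <;> linarith
        rw [h3]
        refine (abs_add_le _ _).trans ((add_le_add h4 h5).trans ?_)
        have h6 : (4 + δ) / k * dd G X = 4 / k * dd G X + δ / k * dd G X := by ring
        rw [h6]
        have h7 : δ / k ≤ δ / k * dd G X := by
          have : (0 : ℝ) < δ / k := by positivity
          nlinarith
        linarith

/-! ### Pendant vertices -/

section pend

variable {V : Type} {J : Type}

/-- The graph `G` with the pendant vertices `j`, joined to `p j`. -/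
def pend (G : SimpleGraph V) (p : J → V) : SimpleGraph (V ⊕ J) where
  Adj x y := match x, y with
    | Sum.inl u, Sum.inl v => G.Adj u v
    | Sum.inl u, Sum.inr j => p j = u
    | Sum.inr j, Sum.inl u => p j = u
    | Sum.inr _, Sum.inr _ => False
  symm := ⟨by
    rintro (u | j) (v | j') h
    · exact G.adj_symm h
    · exact h
    · exact h
    · exact h⟩
  loopless := ⟨by
    rintro (u | j) h
    · exact G.loopless.irrefl u h
    · exact h⟩

variable (G : SimpleGraph V) (p : J → V)

@[simp] theorem pend_ll (u v : V) : (pend G p).Adj (Sum.inl u) (Sum.inl v) ↔ G.Adj u v := Iff.rfl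
@[simp] theorem pend_lr (u : V) (j : J) : (pend G p).Adj (Sum.inl u) (Sum.inr j) ↔ p j = u :=
  Iff.rfl
@[simp] theorem pend_rl (u : V) (j : J) : (pend G p).Adj (Sum.inr j) (Sum.inl u) ↔ p j = u :=
  Iff.rfl
@[simp] theorem pend_rr (j j' : J) : (pend G p).Adj (Sum.inr j) (Sum.inr j') ↔ False := Iff.rfl

variable [Fintype V] [DecidableEq V] [Fintype J] [DecidableEq J] [DecidableRel G.Adj]
  [DecidableRel (pend G p).Adj]

/-- The part of `X` in the graph. -/
def lft (X : Finset (V ⊕ J)) : Finset V := univ.filter fun v => Sum.inl v ∈ X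

theorem mem_lft {X : Finset (V ⊕ J)} {v : V} : v ∈ lft X ↔ Sum.inl v ∈ X := by
  unfold lft
  rw [mem_filter]
  exact ⟨fun h => h.2, fun h => ⟨mem_univ _, h⟩⟩

theorem dd_pend (X : Finset (V ⊕ J)) : dd (pend G p) X = dd G (lft X) +
    (univ.filter fun j : J => ¬ (Sum.inr j ∈ X ↔ Sum.inl (p j) ∈ X)).card := by
  classical
  have e1 : dd (pend G p) X = ∑ x : V ⊕ J, ∑ y : V ⊕ J,
      if x ∈ X ∧ y ∉ X ∧ (pend G p).Adj x y then 1 else 0 := by
    rw [← Fintype.sum_prod_type', ← card_filter]
    rfl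
  have e2 : dd G (lft X) = ∑ u : V, ∑ v : V,
      if Sum.inl u ∈ X ∧ Sum.inl v ∉ X ∧ G.Adj u v then 1 else 0 := by
    rw [← Fintype.sum_prod_type', ← card_filter]
    unfold dd
    congr 1
    ext q
    rw [mem_cut, mem_filter, mem_lft, mem_lft]
    exact ⟨fun h => ⟨mem_univ _, h⟩, fun h => h.2⟩
  have e3 : (univ.filter fun j : J => ¬ (Sum.inr j ∈ X ↔ Sum.inl (p j) ∈ X)).card =
      ∑ j : J, ((if Sum.inl (p j) ∈ X ∧ Sum.inr j ∉ X then 1 else 0) +
        if Sum.inr j ∈ X ∧ Sum.inl (p j) ∉ X then 1 else 0) := by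
    rw [card_filter]
    refine sum_congr rfl fun j _ => ?_
    by_cases h1 : Sum.inr j ∈ X <;> by_cases h2 : Sum.inl (p j) ∈ X <;> simp [h1, h2]
  rw [e1, e2, e3, Fintype.sum_sum_type]
  simp only [Fintype.sum_sum_type, pend_ll, pend_lr, pend_rl, pend_rr]
  rw [sum_add_distrib, sum_add_distrib, sum_add_distrib]
  have e4 : ∑ u : V, ∑ j : J, (if Sum.inl u ∈ X ∧ Sum.inr j ∉ X ∧ p j = u then 1 else 0) =
      ∑ j : J, if Sum.inl (p j) ∈ X ∧ Sum.inr j ∉ X then 1 else 0 := by
    rw [sum_comm]
    refine sum_congr rfl fun j _ => ?_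
    rw [sum_eq_single (p j)]
    · simp
    · intro u _ hu
      rw [if_neg]
      rintro ⟨-, -, h⟩
      exact hu h.symm
    · intro h
      exact absurd (mem_univ _) h
  have e5 : ∑ j : J, ∑ u : V, (if Sum.inr j ∈ X ∧ Sum.inl u ∉ X ∧ p j = u then 1 else 0) =
      ∑ j : J, if Sum.inr j ∈ X ∧ Sum.inl (p j) ∉ X then 1 else 0 := by
    refine sum_congr rfl fun j _ => ?_
    rw [sum_eq_single (p j)]
    · simp
    · intro u _ hu
      rw [if_neg]
      rintro ⟨-, -, h⟩
      exact hu h.symm
    · intro h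
      exact absurd (mem_univ _) h
  rw [e4, e5]
  simp
  ring

end pend

/-! ### Small residues -/

variable {V : Type} [Fintype V] [DecidableEq V]

/-- The pendant vertices of the core `i`. -/
def trm (V : Type) {r c : ℕ} (i : Fin r) : Finset (V ⊕ (Fin r × Fin c)) :=
  (univ : Finset (Fin c)).map ⟨fun l => Sum.inr (i, l), fun a b h => by simpa using h⟩

theorem mem_trm {r c : ℕ} {i : Fin r} {x : V ⊕ (Fin r × Fin c)} :
    x ∈ trm V i ↔ ∃ l : Fin c, x = Sum.inr (i, l) := by
  unfold trm
  rw [mem_map]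
  constructor
  · rintro ⟨l, -, h⟩
    exact ⟨l, h.symm⟩
  · rintro ⟨l, h⟩
    exact ⟨l, mem_univ _, h.symm⟩

/-- Every cut which separates two sets of pendant vertices is large. -/
theorem pend_cut {G : SimpleGraph V} [DecidableRel G.Adj] (h3 : ∀ v, G.degree v = 3) {c : ℕ}
    (hc : CycConn G c) {r : ℕ} {p : Fin r × Fin c → V} (hp : ∀ i l l', p (i, l) = p (i, l') → l = l')
    [DecidableRel (pend G p).Adj] (X : Finset (V ⊕ (Fin r × Fin c))) {i j : Fin r}
    (hi : trm V i ⊆ X) (hj : Disjoint (trm V j) X) : c ≤ dd (pend G p) X := by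
  classical
  rw [dd_pend]
  -- a lower bound for the number of pendant edges in the cut
  have key : ∀ (i : Fin r) (Y : Finset V), (∀ l : Fin c, p (i, l) ∉ Y →
      (i, l) ∈ univ.filter fun j : Fin r × Fin c => ¬ (Sum.inr j ∈ X ↔ Sum.inl (p j) ∈ X)) →
      c ≤ Y.card + (univ.filter fun j : Fin r × Fin c =>
        ¬ (Sum.inr j ∈ X ↔ Sum.inl (p j) ∈ X)).card := by
    intro i Y hY
    have h1 : (univ.filter fun l : Fin c => p (i, l) ∈ Y).card ≤ Y.card :=
      card_le_card_of_injOn (fun l => p (i, l)) (fun l hl => (mem_filter.1 hl).2)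
        (fun l _ l' _ h => hp i l l' h)
    have h2 : (univ.filter fun l : Fin c => p (i, l) ∉ Y).card ≤ (univ.filter
        fun j : Fin r × Fin c => ¬ (Sum.inr j ∈ X ↔ Sum.inl (p j) ∈ X)).card :=
      card_le_card_of_injOn (fun l => (i, l)) (fun l hl => hY l (mem_filter.1 hl).2)
        (fun l _ l' _ h => (Prod.ext_iff.1 h).2)
    have h3 := card_filter_add_card_filter_not (s := (univ : Finset (Fin c)))
      (fun l => p (i, l) ∈ Y)
    rw [card_univ, Fintype.card_fin] at h3
    omega
  have hdd : ∀ Y : Finset V, (G.induce (Y : Set V)).IsAcyclic → Y.card ≤ dd G Y := by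
    intro Y hY
    rcases Y.eq_empty_or_nonempty with h | h
    · rw [h]
      simp
    · have := dd_of_acyclic G h3 h hY
      omega
  by_cases hA : (G.induce ((lft X : Finset V) : Set V)).IsAcyclic
  · have h1 := hdd _ hA
    have h2 := key i (lft X) fun l hl => by
      rw [mem_filter]
      refine ⟨mem_univ _, fun h => ?_⟩
      exact hl (mem_lft.2 (h.1 (hi (mem_trm.2 ⟨l, rfl⟩))))
    omega
  · by_cases hB : (G.induce (((lft X)ᶜ : Finset V) : Set V)).IsAcyclic
    · have h1 := hdd _ hB
      rw [dd_compl] at h1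
      have h2 := key j (lft X)ᶜ fun l hl => by
        rw [mem_compl, not_not, mem_lft] at hl
        rw [mem_filter]
        refine ⟨mem_univ _, fun h => ?_⟩
        exact Finset.disjoint_left.1 hj (mem_trm.2 ⟨l, rfl⟩) (h.2 hl)
      omega
    · have := hc _ hA hB
      omega

theorem core_charges_small {G : SimpleGraph V} [DecidableRel G.Adj] (h3 : ∀ v, G.degree v = 3)
    {c : ℕ} (hc : CycConn G c) (hc0 : 0 < c) {r : ℕ} (S : Fin r → Finset V)
    (hl : ∀ i, c ≤ (S i).card) {δ : ℝ} (hδ : 0 < δ) (a : Fin r → ℝ) (ha : ∑ i, a i = 0) :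
    ∃ z : Fin r → ℤ, ∑ i, z i = 0 ∧ (∀ i, |a i + 4 * z i| ≤ 4 + δ) ∧ ∀ X, Sat S X →
      |∑ i ∈ univ.filter (fun i => S i ⊆ X), (a i + 4 * z i)| ≤ (4 + δ) / c * dd G X := by
  classical
  have hcR : (0 : ℝ) < c := by exact_mod_cast hc0
  have hne : ∀ i, (S i).Nonempty := fun i => card_pos.1 (lt_of_lt_of_le hc0 (hl i))
  have hex : ∀ i, ∃ f : Fin c → V, (∀ l, f l ∈ S i) ∧ Function.Injective f := by
    intro i
    obtain ⟨f⟩ : Nonempty (Fin c ↪ {v // v ∈ S i}) := by
      apply Function.Embedding.nonempty_of_card_le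
      rw [Fintype.card_fin, Fintype.card_coe]
      exact hl i
    exact ⟨fun l => (f l : V), fun l => (f l).2, fun l l' h => f.injective (Subtype.ext h)⟩
  choose f hf1 hf2 using hex
  set p : Fin r × Fin c → V := fun j => f j.1 j.2 with hp
  have hpi : ∀ i l l', p (i, l) = p (i, l') → l = l' := fun i l l' h => hf2 i h
  have hTne : ∀ i : Fin r, (trm V i : Finset (V ⊕ (Fin r × Fin c))).Nonempty := fun i =>
    ⟨Sum.inr (i, ⟨0, hc0⟩), mem_trm.2 ⟨_, rfl⟩⟩
  have hTd : ∀ i j : Fin r, i ≠ j →
      Disjoint (trm V i : Finset (V ⊕ (Fin r × Fin c))) (trm V j) := by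
    intro i j hij
    rw [Finset.disjoint_left]
    intro x hx hx'
    obtain ⟨l, rfl⟩ := mem_trm.1 hx
    obtain ⟨l', h⟩ := mem_trm.1 hx'
    simp only [Sum.inr.injEq, Prod.mk.injEq] at h
    exact hij h.1
  obtain ⟨z, hz0, hz⟩ := core_charges_real_d (pend G p) (fun i => trm V i) hTne hTd hc0
    (fun X _ h1 h2 => by
      obtain ⟨i, hi⟩ := h1
      obtain ⟨j, hj⟩ := h2
      exact pend_cut h3 hc hpi X hi hj) hδ a ha
  refine ⟨z, hz0, fun i => ?_, fun X hX => ?_⟩
  · have h1 := hz (trm V i) (fun j => by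
      by_cases hij : j = i
      · left; rw [hij]
      · right; exact hTd j i hij)
    have h2 : univ.filter (fun j : Fin r => (trm V j : Finset (V ⊕ (Fin r × Fin c))) ⊆ trm V i) =
        {i} := by
      ext j
      simp only [mem_filter, mem_univ, true_and, mem_singleton]
      constructor
      · intro h
        by_contra hij
        obtain ⟨v, hv⟩ := hTne j
        exact Finset.disjoint_left.1 (hTd j i hij) hv (h hv)
      · intro h
        rw [h]
    rw [h2, sum_singleton] at h1
    have h4 : dd (pend G p) (trm V i) ≤ c := by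
      rw [dd_pend]
      have e1 : lft (trm V i : Finset (V ⊕ (Fin r × Fin c))) = ∅ := by
        rw [eq_empty_iff_forall_notMem]
        intro v hv
        obtain ⟨l, hl'⟩ := mem_trm.1 (mem_lft.1 hv)
        exact Sum.inl_ne_inr hl'
      have e2 : dd G (∅ : Finset V) = 0 := by
        unfold dd
        rw [card_eq_zero, eq_empty_iff_forall_notMem]
        intro q hq
        rw [mem_cut] at hq
        exact notMem_empty _ hq.1
      have e3 : (univ.filter fun j : Fin r × Fin c =>
          ¬ (Sum.inr j ∈ (trm V i : Finset (V ⊕ (Fin r × Fin c))) ↔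
            Sum.inl (p j) ∈ (trm V i : Finset (V ⊕ (Fin r × Fin c))))).card ≤ c := by
        have h5 : (univ.filter fun j : Fin r × Fin c =>
          ¬ (Sum.inr j ∈ (trm V i : Finset (V ⊕ (Fin r × Fin c))) ↔
            Sum.inl (p j) ∈ (trm V i : Finset (V ⊕ (Fin r × Fin c))))) ⊆
            univ.image fun l : Fin c => (i, l) := by
          rintro ⟨j, l⟩ hj
          rw [mem_filter] at hj
          rw [mem_image]
          have h6 : ¬ (Sum.inl (p (j, l)) ∈ (trm V i : Finset (V ⊕ (Fin r × Fin c)))) := by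
            intro h
            obtain ⟨l', hl'⟩ := mem_trm.1 h
            exact Sum.inl_ne_inr hl'
          have h7 : (Sum.inr (j, l) : V ⊕ (Fin r × Fin c)) ∈ trm V i := by
            by_contra h
            exact hj.2 ⟨fun h' => absurd h' h, fun h' => absurd h' h6⟩
          obtain ⟨l', hl'⟩ := mem_trm.1 h7
          simp only [Sum.inr.injEq, Prod.mk.injEq] at hl'
          exact ⟨l', mem_univ _, by rw [hl'.1, hl'.2]⟩
        refine (card_le_card h5).trans (card_image_le.trans ?_)
        rw [card_univ, Fintype.card_fin]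
      rw [e1, e2]
      omega
    refine h1.trans ?_
    calc (4 + δ) / c * dd (pend G p) (trm V i) ≤ (4 + δ) / c * c :=
          mul_le_mul_of_nonneg_left (by exact_mod_cast h4) (by positivity)
      _ = 4 + δ := by field_simp
  · set X' : Finset (V ⊕ (Fin r × Fin c)) := univ.filter fun x =>
      (∃ v ∈ X, x = Sum.inl v) ∨ ∃ i l, x = Sum.inr (i, l) ∧ S i ⊆ X with hX'
    have m1 : ∀ v, Sum.inl v ∈ X' ↔ v ∈ X := by
      intro v
      rw [hX', mem_filter]
      constructor
      · rintro ⟨-, ⟨v', hv', h⟩ | ⟨i, l, h, -⟩⟩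
        · rw [Sum.inl.injEq] at h
          rw [h]
          exact hv'
        · exact absurd h Sum.inl_ne_inr
      · intro h
        exact ⟨mem_univ _, Or.inl ⟨v, h, rfl⟩⟩
    have m2 : ∀ i l, Sum.inr (i, l) ∈ X' ↔ S i ⊆ X := by
      intro i l
      rw [hX', mem_filter]
      constructor
      · rintro ⟨-, ⟨v', hv', h⟩ | ⟨i', l', h, h'⟩⟩
        · exact absurd h.symm Sum.inl_ne_inr
        · rw [Sum.inr.injEq, Prod.mk.injEq] at h
          rw [h.1]
          exact h'
      · intro h
        exact ⟨mem_univ _, Or.inr ⟨i, l, rfl, h⟩⟩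
    have h1 := hz X' (fun i => by
      rcases hX i with h | h
      · left
        intro x hx
        obtain ⟨l, rfl⟩ := mem_trm.1 hx
        exact (m2 i l).2 h
      · right
        rw [Finset.disjoint_left]
        intro x hx hx'
        obtain ⟨l, rfl⟩ := mem_trm.1 hx
        obtain ⟨v, hv⟩ := hne i
        exact Finset.disjoint_left.1 h hv ((m2 i l).1 hx' hv))
    have h2 : univ.filter (fun i : Fin r => (trm V i : Finset (V ⊕ (Fin r × Fin c))) ⊆ X') =
        univ.filter fun i => S i ⊆ X := by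
      refine filter_congr fun i _ => ?_
      constructor
      · intro h
        exact (m2 i ⟨0, hc0⟩).1 (h (mem_trm.2 ⟨_, rfl⟩))
      · intro h x hx
        obtain ⟨l, rfl⟩ := mem_trm.1 hx
        exact (m2 i l).2 h
    have h4 : dd (pend G p) X' = dd G X := by
      rw [dd_pend]
      have e1 : lft X' = X := by
        ext v
        rw [mem_lft, m1]
      have e2 : (univ.filter fun j : Fin r × Fin c =>
          ¬ (Sum.inr j ∈ X' ↔ Sum.inl (p j) ∈ X')) = ∅ := by
        rw [filter_eq_empty_iff]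
        rintro ⟨i, l⟩ _ h
        apply h
        rw [m2, m1]
        constructor
        · intro h'
          exact h' (hf1 i l)
        · intro h'
          rcases hX i with h'' | h''
          · exact h''
          · exact absurd h' (Finset.disjoint_left.1 h'' (hf1 i l))
      rw [e1, e2, card_empty, add_zero]
    rw [h2, h4] at h1
    exact h1

/-- The charges of the cores: a flow with values at most `b` off the cores carries `σ` into the
cores. -/
theorem core_real (G : SimpleGraph V) [DecidableRel G.Adj] {r : ℕ} (S : Fin r → Finset V)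
    (hd : ∀ i j, i ≠ j → Disjoint (S i) (S j))
    {σ : V → ℝ} (h0 : ∑ v, σ v = 0) {b : ℝ} (hb0 : 0 ≤ b)
    (hW : ∀ X : Finset V, (∀ i, Disjoint X (S i)) → |∑ v ∈ X, σ v| ≤ b * dd G X) :
    ∃ a : Fin r → ℝ, ∑ i, a i = 0 ∧ ∀ X, Sat S X →
      |∑ v ∈ X, σ v - ∑ i ∈ univ.filter (fun i => S i ⊆ X), a i| ≤ b * dd G X := by
  classical
  set U : Finset V := univ.biUnion S with hU
  have hmemU : ∀ v, v ∈ U ↔ ∃ i, v ∈ S i := by
    intro v
    simp [hU]
  set M : ℝ := ∑ v, |σ v| with hM
  have hM0 : 0 ≤ M := sum_nonneg fun v _ => abs_nonneg _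
  have hMZ : ∀ Z : Finset V, |∑ v ∈ Z, σ v| ≤ M := by
    intro Z
    refine (abs_sum_le_sum_abs _ _).trans ?_
    exact sum_le_sum_of_subset_of_nonneg (subset_univ Z) fun v _ _ => abs_nonneg _
  set u : V → V → ℝ := fun a b' => if a ∈ U ∧ b' ∈ U then M else if G.Adj a b' then b else 0 with hu
  have hu0 : ∀ a b', 0 ≤ u a b' := by
    intro a b'
    simp only [hu]
    split_ifs
    · exact hM0
    · exact hb0
    · exact le_rfl
  -- cut condition
  have hcap : ∀ Z : Finset V, (∀ a ∈ Z, ∀ b' ∈ Zᶜ, ¬ (a ∈ U ∧ b' ∈ U)) →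
      ∑ a ∈ Z, ∑ b' ∈ Zᶜ, u a b' = b * dd G Z := by
    intro Z hZ
    rw [dd_eq_sum, mul_sum]
    refine sum_congr rfl fun a ha => ?_
    rw [mul_sum]
    refine sum_congr rfl fun b' hb' => ?_
    simp only [hu]
    rw [if_neg (hZ a ha b' hb')]
    split_ifs <;> simp
  obtain ⟨f, hf1, hf2, hf3⟩ := hoffman_real u hu0 σ h0 (by
    intro Z
    by_cases hsplit : ∀ a ∈ Z, ∀ b' ∈ Zᶜ, ¬ (a ∈ U ∧ b' ∈ U)
    · rw [hcap Z hsplit]
      by_cases hZU : ∃ a ∈ Z, a ∈ U
      · obtain ⟨a, ha, haU⟩ := hZU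
        have h1 : ∀ i, Disjoint Zᶜ (S i) := by
          intro i
          rw [Finset.disjoint_left]
          intro v hv hvi
          exact hsplit a ha v hv ⟨haU, (hmemU v).2 ⟨i, hvi⟩⟩
        have h2 := hW Zᶜ h1
        rw [dd_compl] at h2
        have h3 : ∑ v ∈ Z, σ v = - ∑ v ∈ Zᶜ, σ v := by
          have := sum_add_sum_compl Z σ
          rw [h0] at this
          linarith
        rw [h3]
        exact (neg_le_abs _).trans h2
      · push Not at hZU
        refine (le_abs_self _).trans (hW Z fun i => ?_)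
        rw [Finset.disjoint_left]
        intro v hv hvi
        exact hZU v hv ((hmemU v).2 ⟨i, hvi⟩)
    · push Not at hsplit
      obtain ⟨a, ha, b', hb', haU, hbU⟩ := hsplit
      refine (le_abs_self _).trans ((hMZ Z).trans ?_)
      have h1 : M = u a b' := by
        simp only [hu]
        rw [if_pos ⟨haU, hbU⟩]
      rw [h1]
      calc u a b' ≤ ∑ b'' ∈ Zᶜ, u a b'' :=
            single_le_sum (f := fun b'' => u a b'') (fun c _ => hu0 a c) hb'
        _ ≤ ∑ a' ∈ Z, ∑ b'' ∈ Zᶜ, u a' b'' :=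
            single_le_sum (f := fun a' => ∑ b'' ∈ Zᶜ, u a' b'')
              (fun c _ => sum_nonneg fun c' _ => hu0 c c') ha)
  -- the flow off the cores
  set g : V → V → ℝ := fun a b' => if a ∈ U ∧ b' ∈ U then 0 else f a b' with hg
  have hga : ∀ a b', g a b' = - g b' a := by
    intro a b'
    simp only [hg]
    by_cases h : a ∈ U ∧ b' ∈ U
    · rw [if_pos h, if_pos ⟨h.2, h.1⟩, neg_zero]
    · rw [if_neg h, if_neg (fun h' => h ⟨h'.2, h'.1⟩), hf1]
  have hgb : ∀ a b', |g a b'| ≤ b * if G.Adj a b' then 1 else 0 := by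
    intro a b'
    simp only [hg]
    by_cases h : a ∈ U ∧ b' ∈ U
    · rw [if_pos h, abs_zero]
      split_ifs <;> simp [hb0]
    · rw [if_neg h]
      have h1 := hf2 a b'
      have h2 := hf2 b' a
      rw [hf1 b' a] at h2
      simp only [hu] at h1 h2
      rw [if_neg h] at h1
      rw [if_neg (fun h' => h ⟨h'.2, h'.1⟩)] at h2
      by_cases hadj : G.Adj a b'
      · rw [if_pos hadj] at h1
        rw [if_pos hadj.symm] at h2
        rw [if_pos hadj, mul_one, abs_le]
        constructor <;> linarith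
      · rw [if_neg hadj] at h1
        rw [if_neg (fun h' => hadj h'.symm)] at h2
        rw [if_neg hadj, mul_zero, abs_le]
        constructor <;> linarith
  have hgW : ∀ v, v ∉ U → ∑ w, g v w = σ v := by
    intro v hv
    rw [← hf3 v]
    refine sum_congr rfl fun w _ => ?_
    simp only [hg]
    rw [if_neg fun h => hv h.1]
  have hgcut : ∀ X : Finset V, |∑ v ∈ X, ∑ w, g v w| ≤ b * dd G X := by
    intro X
    rw [anti_cut hga, dd_eq_sum, mul_sum]
    refine (abs_sum_le_sum_abs _ _).trans (sum_le_sum fun v _ => ?_)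
    rw [mul_sum]
    refine (abs_sum_le_sum_abs _ _).trans (sum_le_sum fun w _ => hgb v w)
  have hgtot : ∑ v, ∑ w, g v w = 0 := anti_inner hga univ
  set a : Fin r → ℝ := fun i => ∑ v ∈ S i, (σ v - ∑ w, g v w) with ha
  have hbi : ∀ φ : V → ℝ, ∀ I : Finset (Fin r), ∑ v ∈ I.biUnion S, φ v = ∑ i ∈ I, ∑ v ∈ S i, φ v := by
    intro φ I
    exact sum_biUnion fun i _ j _ hij => hd i j hij
  have ha0 : ∑ i, a i = 0 := by
    have h1 : ∑ i, a i = ∑ v ∈ U, (σ v - ∑ w, g v w) := (hbi _ univ).symm
    have h2 : ∑ v ∈ Uᶜ, (σ v - ∑ w, g v w) = 0 := by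
      refine sum_eq_zero fun v hv => ?_
      rw [mem_compl] at hv
      rw [hgW v hv, sub_self]
    have h3 := sum_add_sum_compl U fun v => σ v - ∑ w, g v w
    have h4 : ∑ v, (σ v - ∑ w, g v w) = 0 := by rw [sum_sub_distrib, h0, hgtot, sub_zero]
    rw [h2, add_zero, h4] at h3
    rw [h1, h3]
  refine ⟨a, ha0, fun X hX => ?_⟩
  set I := univ.filter (fun i => S i ⊆ X) with hI
  have h1 : ∑ v ∈ X, (σ v - ∑ w, g v w) = ∑ i ∈ I, a i := by
    have h2 : ∑ i ∈ I, a i = ∑ v ∈ I.biUnion S, (σ v - ∑ w, g v w) := (hbi _ I).symm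
    rw [h2]
    symm
    refine sum_subset ?_ ?_
    · intro v hv
      obtain ⟨i, hi, hvi⟩ := mem_biUnion.1 hv
      exact (mem_filter.1 hi).2 hvi
    · intro v hv hvI
      have hvU : v ∉ U := by
        intro h
        obtain ⟨i, hi⟩ := (hmemU v).1 h
        apply hvI
        rw [mem_biUnion]
        refine ⟨i, ?_, hi⟩
        rw [hI, mem_filter]
        refine ⟨mem_univ i, (hX i).resolve_right fun h' => ?_⟩
        exact Finset.disjoint_left.1 h' hi hv
      rw [hgW v hvU, sub_self]
  rw [← h1, sum_sub_distrib]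
  have h2 : ∑ v ∈ X, σ v - (∑ v ∈ X, σ v - ∑ v ∈ X, ∑ w, g v w) = ∑ v ∈ X, ∑ w, g v w := by ring
  rw [h2]
  exact hgcut X

/-- The core flow with small residues. -/
theorem core_flow_g {G : SimpleGraph V} [DecidableRel G.Adj] (h3 : ∀ v, G.degree v = 3)
    {c : ℕ} (hc : CycConn G c) (hc0 : 0 < c) {r : ℕ} (S : Fin r → Finset V)
    (hd : ∀ i j, i ≠ j → Disjoint (S i) (S j)) (hl : ∀ i, c ≤ (S i).card) {δ : ℝ} (hδ : 0 < δ)
    {σ : V → ℝ} (h0 : ∑ v, σ v = 0) {b : ℝ} (hb0 : 0 ≤ b)
    (hW : ∀ X : Finset V, (∀ i, Disjoint X (S i)) → |∑ v ∈ X, σ v| ≤ b * dd G X) :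
    ∃ z : Fin r → ℤ, (∀ i, 4 * |(z i : ℝ)| ≤ |∑ v ∈ S i, σ v| + b * dd G (S i) + (4 + δ)) ∧
      ∀ X, Sat S X → |∑ v ∈ X, σ v + 4 * ∑ i ∈ univ.filter (fun i => S i ⊆ X), (z i : ℝ)| ≤
        (b + (4 + δ) / c) * dd G X := by
  classical
  obtain ⟨a, ha0, ha⟩ := core_real G S hd h0 hb0 hW
  obtain ⟨z, -, hz1, hz⟩ := core_charges_small h3 hc hc0 S hl hδ a ha0
  have hne : ∀ i, (S i).Nonempty := fun i => card_pos.1 (lt_of_lt_of_le hc0 (hl i))
  refine ⟨z, fun i => ?_, fun X hX => ?_⟩
  · have hsat : Sat S (S i) := by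
      intro j
      by_cases hij : j = i
      · left; rw [hij]
      · right; exact hd j i hij
    have hI : univ.filter (fun j => S j ⊆ S i) = {i} := by
      ext j
      simp only [mem_filter, mem_univ, true_and, mem_singleton]
      constructor
      · intro h
        by_contra hij
        obtain ⟨v, hv⟩ := hne j
        exact Finset.disjoint_left.1 (hd j i hij) hv (h hv)
      · intro h
        rw [h]
    have h1 := ha (S i) hsat
    rw [hI, sum_singleton] at h1
    have h2 : 4 * |(z i : ℝ)| = |(a i + 4 * (z i : ℝ)) + (∑ v ∈ S i, σ v - a i) +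
        -∑ v ∈ S i, σ v| := by
      have : (a i + 4 * (z i : ℝ)) + (∑ v ∈ S i, σ v - a i) + -∑ v ∈ S i, σ v = 4 * z i := by ring
      rw [this, abs_mul]
      norm_num
    rw [h2]
    have h4 := abs_add_three (a i + 4 * (z i : ℝ)) (∑ v ∈ S i, σ v - a i) (-∑ v ∈ S i, σ v)
    rw [abs_neg] at h4
    have h5 := hz1 i
    linarith
  · have h1 := ha X hX
    have h2 := hz X hX
    have h4 : ∑ v ∈ X, σ v + 4 * ∑ i ∈ univ.filter (fun i => S i ⊆ X), (z i : ℝ) =
        (∑ v ∈ X, σ v - ∑ i ∈ univ.filter (fun i => S i ⊆ X), a i) +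
          ∑ i ∈ univ.filter (fun i => S i ⊆ X), (a i + 4 * z i) := by
      rw [sum_add_distrib, ← mul_sum]
      ring
    rw [h4, add_mul]
    exact (abs_add_le _ _).trans (add_le_add h1 h2)

end Pool.Agent.K5
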