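import Mathlib
import Pool.Agent.Work.MP_974d84_co_k5.Cores

/-!
# Charges on cores and between cores, and the logarithmic bound
-/

set_option linter.unusedSectionVars false

namespace Pool.Agent.K5

open Finset SimpleGraph Pool.Agent.Exp Pool.Agent.Log5

variable {V : Type} [Fintype V] [DecidableEq V] {G : SimpleGraph V} [DecidableRel G.Adj]
  {g : ℕ → ℝ} {s : ℕ} {𝒞 : Finset (Finset V)}

/-- **Charges.** A bound for the sets which do not split the cores and a bound for the small parts
of the cores give a bound for all sets. -/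
theorem charges_le (h3 : ∀ v, G.degree v = 3) (hg : Bnd g s) (hs : 1 ≤ s) (hG : Gir G (2 * s))
    (h : CoreFam G g 𝒞) (w : V → ℝ) {a b : ℝ} (ha0 : 0 ≤ a) (hb0 : 0 ≤ b)
    (ha : ∀ X : Finset V, (∀ C ∈ 𝒞, C ⊆ X ∨ Disjoint C X) → |∑ v ∈ X, w v| ≤ a * dd G X)
    (hb : ∀ C ∈ 𝒞, ∀ Y ⊆ C, 2 * Y.card ≤ C.card → |∑ v ∈ Y, w v| ≤ b * dd G Y)
    (S : Finset V) : |∑ v ∈ S, w v| ≤ (5 * a + 4 * b) * dd G S := by
  classical
  set U : Finset V := 𝒞.biUnion (small S) with hU
  have h1 : ∑ v ∈ S, w v = ∑ v ∈ rnd 𝒞 S, w v + ∑ v ∈ U, (if v ∈ S then w v else - w v) := by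
    have e : ∀ v : V, (if v ∈ S then w v else 0) = (if v ∈ rnd 𝒞 S then w v else 0) +
        (if v ∈ U then (if v ∈ S then w v else - w v) else 0) := by
      intro v
      have hr : v ∈ rnd 𝒞 S ↔ (v ∈ S ∧ v ∉ U) ∨ (v ∈ U ∧ v ∉ S) := by
        unfold rnd
        rw [mem_symmDiff]
      by_cases hvS : v ∈ S <;> by_cases hvU : v ∈ U <;> simp [hr, hvS, hvU]
    have e2 := sum_congr (rfl : (univ : Finset V) = univ) fun v _ => e v
    rw [sum_add_distrib] at e2
    simpa [sum_ite_mem] using e2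
  have h2 : |∑ v ∈ rnd 𝒞 S, w v| ≤ a * (5 * dd G S) := by
    refine (ha _ fun C hC => rnd_noSplit h.disj S hC).trans ?_
    refine mul_le_mul_of_nonneg_left ?_ ha0
    exact_mod_cast dd_rnd_le h3 hg hs hG h S
  have h4 : |∑ v ∈ U, (if v ∈ S then w v else - w v)| ≤ b * (4 * dd G S) := by
    rw [hU, sum_biUnion fun C hC D hD hne => small_disj h.disj S C hC D hD hne]
    calc |∑ C ∈ 𝒞, ∑ v ∈ small S C, (if v ∈ S then w v else - w v)| ≤
          ∑ C ∈ 𝒞, |∑ v ∈ small S C, (if v ∈ S then w v else - w v)| := abs_sum_le_sum_abs _ _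
      _ ≤ ∑ C ∈ 𝒞, b * dd G (small S C) := by
          refine sum_le_sum fun C hC => ?_
          have h5 : |∑ v ∈ small S C, (if v ∈ S then w v else - w v)| =
              |∑ v ∈ small S C, w v| := by
            by_cases h6 : 2 * (C ∩ S).card ≤ C.card
            · congr 1
              refine sum_congr rfl fun v hv => ?_
              have : small S C = C ∩ S := if_pos h6
              rw [this] at hv
              rw [if_pos (mem_inter.1 hv).2]
            · rw [← abs_neg (∑ v ∈ small S C, w v), ← sum_neg_distrib]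
              congr 1
              refine sum_congr rfl fun v hv => ?_
              have : small S C = C \ S := if_neg h6
              rw [this] at hv
              rw [if_neg (mem_sdiff.1 hv).2]
          rw [h5]
          exact hb C hC _ (small_subset S C) (small_card S C)
      _ = b * ∑ C ∈ 𝒞, (dd G (small S C) : ℝ) := by rw [mul_sum]
      _ ≤ b * (4 * dd G S) := by
          refine mul_le_mul_of_nonneg_left ?_ hb0
          exact_mod_cast sum_small_le h3 hg hs hG h S
  rw [h1]
  calc |∑ v ∈ rnd 𝒞 S, w v + ∑ v ∈ U, (if v ∈ S then w v else - w v)| ≤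
        |∑ v ∈ rnd 𝒞 S, w v| + |∑ v ∈ U, (if v ∈ S then w v else - w v)| := abs_add_le _ _
    _ ≤ a * (5 * dd G S) + b * (4 * dd G S) := add_le_add h2 h4
    _ = (5 * a + 4 * b) * dd G S := by ring

/-! ### The logarithmic bound -/

theorem one_add_log_le {x : ℝ} (hx : 1 ≤ x) : 1 + Real.log x ≤ 5 * Real.sqrt (Real.sqrt x) := by
  have h0 : 0 ≤ x := by linarith
  have h1 : 1 ≤ Real.sqrt x := by rw [Real.one_le_sqrt]; exact hx
  have h2 : 1 ≤ Real.sqrt (Real.sqrt x) := by rw [Real.one_le_sqrt]; exact h1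
  have h3 : x = Real.sqrt (Real.sqrt x) ^ 4 := by
    rw [show Real.sqrt (Real.sqrt x) ^ 4 = (Real.sqrt (Real.sqrt x) ^ 2) ^ 2 by ring,
      Real.sq_sqrt (Real.sqrt_nonneg x), Real.sq_sqrt h0]
  have h4 : Real.log x = 4 * Real.log (Real.sqrt (Real.sqrt x)) := by
    conv_lhs => rw [h3]
    rw [Real.log_pow]
    norm_num
  have h5 := Real.log_le_sub_one_of_pos (lt_of_lt_of_le one_pos h2)
  rw [h4]
  linarith

theorem log_gap {x y : ℝ} (hx : 1 ≤ x) (hy0 : 0 ≤ y) (hy : y ≤ x) :
    (1 + Real.log (x + y)) ^ 2 - (1 + Real.log x) ^ 2 ≤ y / x * (2 * (1 + Real.log (2 * x))) := by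
  have hx0 : 0 < x := by linarith
  have h1 : Real.log (x + y) - Real.log x ≤ y / x := by
    rw [← Real.log_div (by linarith) (by linarith)]
    have h2 : (x + y) / x = 1 + y / x := by field_simp
    rw [h2]
    have h3 : 0 ≤ y / x := div_nonneg hy0 hx0.le
    have h4 := Real.log_le_sub_one_of_pos (show (0 : ℝ) < 1 + y / x by linarith)
    linarith
  have h2 : Real.log (x + y) ≤ Real.log (2 * x) := Real.log_le_log (by linarith) (by linarith)
  have h3 : Real.log x ≤ Real.log (2 * x) := Real.log_le_log hx0 (by linarith)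
  have h4 : 0 ≤ Real.log x := Real.log_nonneg hx
  have h5 : Real.log x ≤ Real.log (x + y) := Real.log_le_log hx0 (by linarith)
  have h6 : (1 + Real.log (x + y)) ^ 2 - (1 + Real.log x) ^ 2 =
      (Real.log (x + y) - Real.log x) * (2 + Real.log (x + y) + Real.log x) := by ring
  rw [h6]
  have h7 : 0 ≤ y / x := div_nonneg hy0 hx0.le
  calc (Real.log (x + y) - Real.log x) * (2 + Real.log (x + y) + Real.log x) ≤
        y / x * (2 + Real.log (x + y) + Real.log x) :=
        mul_le_mul_of_nonneg_right h1 (by linarith)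
    _ ≤ y / x * (2 * (1 + Real.log (2 * x))) := mul_le_mul_of_nonneg_left (by linarith) h7

/-- **The bound `K (1 + log a) ^ 2`.** -/
theorem bnd_log {K : ℝ} (hK : 0 < K) : ∃ s₀ : ℕ, 1 ≤ s₀ ∧ ∀ s : ℕ, s₀ ≤ s →
    Bnd (fun a : ℕ => K * (1 + Real.log a) ^ 2) s := by
  refine ⟨⌈10000 * (K + 1) ^ 2⌉₊ + 64, by omega, fun s hs => ?_⟩
  have hbig : ∀ x : ℕ, s ≤ x → 10000 * (K + 1) ^ 2 ≤ (x : ℝ) ∧ (64 : ℝ) ≤ x := by
    intro x hx
    constructor
    · have h1 : ⌈10000 * (K + 1) ^ 2⌉₊ ≤ x := by omega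
      exact (Nat.le_ceil _).trans (by exact_mod_cast h1)
    · exact_mod_cast (by omega : 64 ≤ x)
  have hsq : ∀ x : ℕ, s ≤ x → 100 * (K + 1) ≤ Real.sqrt x := by
    intro x hx
    refine Real.le_sqrt_of_sq_le ?_
    have := (hbig x hx).1
    nlinarith
  have e1 : ∀ x : ℕ, s ≤ x → (1 + Real.log x) ^ 2 ≤ 25 * Real.sqrt x := by
    intro x hx
    have h64 := (hbig x hx).2
    have h1 := one_add_log_le (x := (x : ℝ)) (by linarith)
    have h2 : 0 ≤ 1 + Real.log (x : ℝ) := by
      have := Real.log_nonneg (show (1 : ℝ) ≤ x by linarith)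
      linarith
    calc (1 + Real.log (x : ℝ)) ^ 2 ≤ (5 * Real.sqrt (Real.sqrt x)) ^ 2 :=
          pow_le_pow_left₀ h2 h1 2
      _ = 25 * Real.sqrt x := by
          rw [mul_pow, Real.sq_sqrt (Real.sqrt_nonneg _)]
          norm_num
  have e2 : ∀ x : ℕ, s ≤ x → 4 * K * (1 + Real.log (2 * x)) ≤ x := by
    intro x hx
    have h64 := (hbig x hx).2
    have hx0 : (0 : ℝ) < x := by linarith
    have h1 := one_add_log_le (x := (x : ℝ)) (by linarith)
    have h2 : Real.log (2 * x) ≤ 1 + Real.log x := by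
      rw [Real.log_mul (by norm_num) (by linarith)]
      have := Real.log_two_lt_d9
      linarith
    have h3 : Real.sqrt (Real.sqrt x) ≤ Real.sqrt x := by
      have h4 : 1 ≤ Real.sqrt (x : ℝ) := by rw [Real.one_le_sqrt]; linarith
      calc Real.sqrt (Real.sqrt x) ≤ Real.sqrt (Real.sqrt x * Real.sqrt x) :=
            Real.sqrt_le_sqrt (le_mul_of_one_le_left (Real.sqrt_nonneg _) h4)
        _ = Real.sqrt x := by
            rw [Real.mul_self_sqrt hx0.le]
    have h4 : 1 ≤ Real.sqrt (x : ℝ) := by rw [Real.one_le_sqrt]; linarith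
    have h5 : 1 + Real.log (2 * x) ≤ 6 * Real.sqrt x := by linarith
    have h6 := hsq x hx
    calc 4 * K * (1 + Real.log (2 * x)) ≤ 4 * K * (6 * Real.sqrt x) :=
          mul_le_mul_of_nonneg_left h5 (by linarith)
      _ = 24 * K * Real.sqrt x := by ring
      _ ≤ Real.sqrt x * Real.sqrt x :=
          mul_le_mul_of_nonneg_right (by linarith) (Real.sqrt_nonneg _)
      _ = x := Real.mul_self_sqrt hx0.le
  refine ⟨fun x hx => ?_, fun x y hx hy => ?_, fun x y hy0 hy => ?_⟩
  · have h64 := (hbig x hx).2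
    have h1 := e1 x hx
    have h6 := hsq x hx
    calc K * (1 + Real.log (x : ℝ)) ^ 2 ≤ K * (25 * Real.sqrt x) :=
          mul_le_mul_of_nonneg_left h1 hK.le
      _ = 25 * K * Real.sqrt x := by ring
      _ ≤ Real.sqrt x * Real.sqrt x :=
          mul_le_mul_of_nonneg_right (by linarith) (Real.sqrt_nonneg _)
      _ = x := Real.mul_self_sqrt (by linarith)
  · have h64 := (hbig x hx).2
    have hx0 : (0 : ℝ) < x := by linarith
    have hy' : (y : ℝ) ≤ x := by exact_mod_cast hy
    have hy0 : (0 : ℝ) ≤ y := Nat.cast_nonneg y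
    have h1 := log_gap (x := (x : ℝ)) (y := y) (by linarith) hy0 hy'
    have h2 := e2 x hx
    push_cast
    have h3 : K * (1 + Real.log ((x : ℝ) + y)) ^ 2 - K * (1 + Real.log (x : ℝ)) ^ 2 ≤
        K * (y / x * (2 * (1 + Real.log (2 * x)))) := by
      rw [← mul_sub]
      exact mul_le_mul_of_nonneg_left h1 hK.le
    refine h3.trans ?_
    have h4 : K * (y / x * (2 * (1 + Real.log (2 * x)))) =
        (y / (2 * x)) * (4 * K * (1 + Real.log (2 * x))) := by
      field_simp
      ring
    rw [h4]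
    calc (y : ℝ) / (2 * x) * (4 * K * (1 + Real.log (2 * x))) ≤ y / (2 * x) * x :=
          mul_le_mul_of_nonneg_left h2 (by positivity)
      _ = y / 2 := by field_simp
  · have h64 := (hbig y hy0).2
    have hyx : (y : ℝ) ≤ x := by exact_mod_cast hy
    have hx0 : (0 : ℝ) < x := by linarith
    have hyp : (0 : ℝ) < y := by linarith
    have h1 := log_gap (x := (x : ℝ)) (y := y) (by linarith) hyp.le hyx
    push_cast
    have h3 : K * (1 + Real.log ((x : ℝ) + y)) ^ 2 - K * (1 + Real.log (x : ℝ)) ^ 2 ≤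
        K * (y / x * (2 * (1 + Real.log (2 * x)))) := by
      rw [← mul_sub]
      exact mul_le_mul_of_nonneg_left h1 hK.le
    refine h3.trans ?_
    -- the function `(1 + log (2 t)) / t` decreases
    have hly : 4 ≤ Real.log (y : ℝ) := by
      have h5 : Real.log 64 ≤ Real.log (y : ℝ) := Real.log_le_log (by norm_num) h64
      have h6 : Real.log 64 = 6 * Real.log 2 := by
        rw [show (64 : ℝ) = 2 ^ 6 by norm_num, Real.log_pow]
        norm_num
      have h7 := Real.log_two_gt_d9
      linarith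
    have hl2 : Real.log (2 * (y : ℝ)) = Real.log 2 + Real.log y :=
      Real.log_mul (by norm_num) (by linarith)
    have hl2' : 0 < Real.log 2 := Real.log_pos (by norm_num)
    have hl2'' := Real.log_two_lt_d9
    have h5 : (y : ℝ) / x * (1 + Real.log (2 * x)) ≤ 1 + Real.log (2 * y) := by
      have h6 : Real.log (2 * (x : ℝ)) = Real.log (2 * y) + Real.log (x / y) := by
        rw [← Real.log_mul (by positivity) (by positivity)]
        congr 1
        field_simp
      have h7 : Real.log ((x : ℝ) / y) ≤ x / y - 1 := Real.log_le_sub_one_of_pos (by positivity)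
      have h8 : 1 ≤ (x : ℝ) / y := by
        rw [le_div_iff₀ hyp]
        linarith
      have h9 : 1 + Real.log (2 * x) ≤ x / y * (1 + Real.log (2 * y)) := by
        rw [h6]
        have h10 : (x : ℝ) / y - 1 ≤ (x / y - 1) * (1 + Real.log (2 * y)) := by
          refine le_mul_of_one_le_right (by linarith) ?_
          linarith
        nlinarith
      calc (y : ℝ) / x * (1 + Real.log (2 * x)) ≤ y / x * (x / y * (1 + Real.log (2 * y))) :=
            mul_le_mul_of_nonneg_left h9 (by positivity)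
        _ = 1 + Real.log (2 * y) := by field_simp
    have h6 : 4 * (1 + Real.log (2 * y)) ≤ (1 + Real.log (y : ℝ)) ^ 2 := by
      rw [hl2]
      nlinarith
    calc K * ((y : ℝ) / x * (2 * (1 + Real.log (2 * x)))) =
          2 * K * (y / x * (1 + Real.log (2 * x))) := by ring
      _ ≤ 2 * K * (1 + Real.log (2 * y)) := mul_le_mul_of_nonneg_left h5 (by linarith)
      _ = K / 2 * (4 * (1 + Real.log (2 * y))) := by ring
      _ ≤ K / 2 * (1 + Real.log (y : ℝ)) ^ 2 := mul_le_mul_of_nonneg_left h6 (by linarith)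
      _ = K * (1 + Real.log (y : ℝ)) ^ 2 / 2 := by ring

end Pool.Agent.K5
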