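import Mathlib
import Pool.Agent.Work.MP_974d84_co_k5.Defs5
import Pool.Agent.Work.MP_974d84_co_k5.CoreFactsA

/-!
# Making a vertex set saturated for disjoint sets, in a graph with deleted vertices
-/

set_option linter.unusedSectionVars false

namespace Pool.Agent.K5

open Finset SimpleGraph Pool.Agent.Exp Pool.Agent.Log5 Pool.Agent.Log5.Clu

variable {V : Type} [Fintype V] [DecidableEq V] {G : SimpleGraph V} [DecidableRel G.Adj]

namespace TogS

/-- Moving the part inside `S` to the other side. -/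
theorem dd_sdiff_le {W S A : Finset V} (h : W ∩ S = A) :
    dd G (W \ A) + ee G A (S \ A) ≤ dd G W + ee G A Sᶜ := by
  have hAW : A ⊆ W := h ▸ inter_subset_left
  have hd : Disjoint (W \ A) A := sdiff_disjoint
  have h1 : dd G W = ee G (W \ A) Wᶜ + ee G A Wᶜ := by
    rw [dd_ee, ← ee_union_left hd, sdiff_union_of_subset hAW]
  have h2 : dd G (W \ A) = ee G (W \ A) Wᶜ + ee G (W \ A) A := by
    rw [dd_ee, ← ee_union_right]
    · congr 1
      ext v
      simp only [mem_compl, mem_union, mem_sdiff]
      constructor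
      · intro h3
        by_cases h4 : v ∈ W
        · exact Or.inr (by_contra fun h5 => h3 ⟨h4, h5⟩)
        · exact Or.inl h4
      · rintro (h3 | h3) h4
        · exact h3 h4.1
        · exact h4.2 h3
    · rw [Finset.disjoint_left]
      intro v h3 h4
      exact (mem_compl.1 h3) (hAW h4)
  have h3 : ee G (W \ A) A ≤ ee G A Sᶜ := by
    rw [ee_comm]
    refine ee_mono (Subset.refl _) fun v hv => ?_
    rw [mem_compl]
    intro h4
    rw [mem_sdiff] at hv
    exact hv.2 (h ▸ mem_inter.2 ⟨hv.1, h4⟩)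
  have h4 : ee G A (S \ A) ≤ ee G A Wᶜ := by
    refine ee_mono (Subset.refl _) fun v hv => ?_
    rw [mem_compl]
    intro h4
    rw [mem_sdiff] at hv
    exact hv.2 (h ▸ mem_inter.2 ⟨h4, hv.1⟩)
  omega

/-- Switching the part inside `S` on one of the two sides. -/
theorem dd_switch_le {W S A : Finset V} (h : W ∩ S = A ∨ S \ W = A) :
    dd G (symmDiff W A) + ee G A (S \ A) ≤ dd G W + ee G A Sᶜ := by
  rcases h with h | h
  · have h1 : symmDiff W A = W \ A := by
      ext v
      rw [Finset.mem_symmDiff, mem_sdiff]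
      constructor
      · rintro (h2 | h2)
        · exact h2
        · rw [← h] at h2
          exact absurd (mem_inter.1 h2.1).1 h2.2
      · exact Or.inl
    rw [h1]
    exact dd_sdiff_le h
  · have h1 : symmDiff W A = (Wᶜ \ A)ᶜ := by
      ext v
      rw [Finset.mem_symmDiff, mem_compl, mem_sdiff, mem_compl]
      constructor
      · rintro (h2 | h2) h3
        · exact h3.1 h2.1
        · exact h3.2 h2.1
      · intro h2
        by_cases h3 : v ∈ W
        · refine Or.inl ⟨h3, fun h4 => ?_⟩
          rw [← h] at h4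
          exact (mem_sdiff.1 h4).2 h3
        · exact Or.inr ⟨by_contra fun h4 => h2 ⟨h3, h4⟩, h3⟩
    rw [h1, dd_compl, ← dd_compl G W]
    refine dd_sdiff_le ?_
    rw [← h]
    ext v
    simp only [mem_inter, mem_compl, mem_sdiff]
    tauto

section

variable {r : ℕ} {S : Fin r → Finset V}

theorem dd_switch_all (hd : ∀ i j, i ≠ j → Disjoint (S i) (S j)) (X : Finset V)
    (A : Fin r → Finset V) (hA : ∀ i, A i ⊆ S i) (h : ∀ i, X ∩ S i = A i ∨ S i \ X = A i)
    (J : Finset (Fin r)) :
    dd G (symmDiff X (J.biUnion A)) + ∑ i ∈ J, ee G (A i) (S i \ A i) ≤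
      dd G X + ∑ i ∈ J, ee G (A i) (S i)ᶜ := by
  classical
  induction J using Finset.induction_on with
  | empty =>
    have h1 : symmDiff X ((∅ : Finset (Fin r)).biUnion A) = X := by
      ext v
      rw [Finset.mem_symmDiff]
      simp
    rw [h1, sum_empty, sum_empty]
  | insert j J hj ih =>
    have h1 : symmDiff X ((insert j J).biUnion A) =
        symmDiff (symmDiff X (J.biUnion A)) (A j) := by
      have h2 : Disjoint (J.biUnion A) (A j) := by
        rw [Finset.disjoint_left]
        intro v h3 h4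
        obtain ⟨i, hi, h5⟩ := mem_biUnion.1 h3
        exact Finset.disjoint_left.1 (hd i j fun h6 => hj (h6 ▸ hi)) (hA i h5) (hA j h4)
      rw [symmDiff_assoc, h2.symmDiff_eq_sup, biUnion_insert, sup_eq_union, union_comm]
    have h2 : symmDiff X (J.biUnion A) ∩ S j = A j ∨ S j \ symmDiff X (J.biUnion A) = A j := by
      have h3 : ∀ v ∈ S j, (v ∈ symmDiff X (J.biUnion A) ↔ v ∈ X) := by
        intro v hv
        have h4 : v ∉ J.biUnion A := by
          intro h5
          obtain ⟨i, hi, h5⟩ := mem_biUnion.1 h5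
          exact Finset.disjoint_left.1 (hd i j fun h6 => hj (h6 ▸ hi)) (hA i h5) hv
        rw [Finset.mem_symmDiff]
        tauto
      rcases h j with h4 | h4
      · left
        rw [← h4]
        ext v
        simp only [mem_inter]
        constructor
        · exact fun h5 => ⟨(h3 v h5.2).1 h5.1, h5.2⟩
        · exact fun h5 => ⟨(h3 v h5.2).2 h5.1, h5.2⟩
      · right
        rw [← h4]
        ext v
        simp only [mem_sdiff]
        constructor
        · exact fun h5 => ⟨h5.1, fun h6 => h5.2 ((h3 v h5.1).2 h6)⟩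
        · exact fun h5 => ⟨h5.1, fun h6 => h5.2 ((h3 v h5.1).1 h6)⟩
    have h3 := dd_switch_le (G := G) h2
    rw [sum_insert hj, sum_insert hj, h1]
    omega

/-- The cut edges inside the parts. -/
theorem sum_inner_le (hd : ∀ i j, i ≠ j → Disjoint (S i) (S j)) (X : Finset V) :
    ∑ i, ee G (X ∩ S i) (S i \ X) ≤ dd G X := by
  classical
  have hdis : ∀ i ∈ (univ : Finset (Fin r)), ∀ j ∈ (univ : Finset (Fin r)), i ≠ j →
      Disjoint (X ∩ S i) (X ∩ S j) := fun i _ j _ hij =>
    (hd i j hij).mono inter_subset_right inter_subset_right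
  calc ∑ i, ee G (X ∩ S i) (S i \ X) ≤ ∑ i, ee G (X ∩ S i) Xᶜ := by
        refine sum_le_sum fun i _ => ee_mono (Subset.refl _) fun v hv => ?_
        rw [mem_compl]
        exact (mem_sdiff.1 hv).2
    _ = ee G (univ.biUnion fun i => X ∩ S i) Xᶜ := (ee_biUnion_left _ _ hdis _).symm
    _ ≤ ee G X Xᶜ := by
        refine ee_mono (fun v hv => ?_) (Subset.refl _)
        obtain ⟨i, -, h1⟩ := mem_biUnion.1 hv
        exact (mem_inter.1 h1).1
    _ = dd G X := (dd_ee X).symm

/-- Saturation for disjoint sets in any graph. -/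
theorem toggle_gen (G : SimpleGraph V) [DecidableRel G.Adj]
    (hd : ∀ i j, i ≠ j → Disjoint (S i) (S j)) (X : Finset V) :
    ∃ (X' : Finset V) (A : Fin r → Finset V),
      (∀ i, A i ⊆ S i ∧ 2 * (A i).card ≤ (S i).card ∧ (X ∩ S i = A i ∨ S i \ X = A i)) ∧
      Sat S X' ∧ X' = symmDiff X (univ.biUnion A) ∧
      dd G X' + ∑ i, ee G (A i) (S i \ A i) ≤ dd G X + ∑ i, ee G (A i) (S i)ᶜ ∧
      ∑ i, ee G (A i) (S i \ A i) ≤ dd G X ∧
      ∀ σ : V → ℝ, |∑ v ∈ X, σ v| ≤ |∑ v ∈ X', σ v| + ∑ i, |∑ v ∈ A i, σ v| := by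
  classical
  set A : Fin r → Finset V := fun i =>
    if 2 * (X ∩ S i).card ≤ (S i).card then X ∩ S i else S i \ X with hAdef
  have hAX : ∀ i, X ∩ S i = A i ∨ S i \ X = A i := by
    intro i
    simp only [hAdef]
    split_ifs
    · exact Or.inl rfl
    · exact Or.inr rfl
  have hAS : ∀ i, A i ⊆ S i := by
    intro i
    rcases hAX i with h | h
    · exact h ▸ inter_subset_right
    · exact h ▸ sdiff_subset
  have hAc : ∀ i, 2 * (A i).card ≤ (S i).card := by
    intro i
    simp only [hAdef]
    split_ifs with h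
    · exact h
    · have h1 : (S i \ X).card + (S i ∩ X).card = (S i).card := card_sdiff_add_card_inter _ _
      rw [inter_comm] at h1
      omega
  have hin : ∀ i, ee G (A i) (S i \ A i) = ee G (X ∩ S i) (S i \ X) := by
    intro i
    rcases hAX i with h | h
    · rw [← h]
      congr 1
      ext v
      simp only [mem_sdiff, mem_inter]
      tauto
    · rw [← h, ee_comm]
      congr 1
      ext v
      simp only [mem_sdiff, mem_inter]
      tauto
  -- membership in the new set
  have hmem : ∀ i, ∀ v ∈ S i, (v ∈ symmDiff X (univ.biUnion A) ↔ ¬ X ∩ S i = A i) := by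
    intro i v hv
    have h1 : v ∈ univ.biUnion A ↔ v ∈ A i := by
      constructor
      · intro h2
        obtain ⟨j, -, h3⟩ := mem_biUnion.1 h2
        by_cases hij : j = i
        · rw [← hij]
          exact h3
        · exact absurd hv (Finset.disjoint_left.1 (hd j i hij) (hAS j h3))
      · exact fun h2 => mem_biUnion.2 ⟨i, mem_univ _, h2⟩
    rw [Finset.mem_symmDiff, h1]
    by_cases h2 : X ∩ S i = A i
    · rw [← h2]
      simp only [mem_inter]
      tauto
    · have h3 : S i \ X = A i := (hAX i).resolve_left h2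
      rw [← h3] at h2 ⊢
      simp only [mem_sdiff]
      tauto
  refine ⟨symmDiff X (univ.biUnion A), A, fun i => ⟨hAS i, hAc i, hAX i⟩, ?_, rfl, ?_, ?_, ?_⟩
  · intro i
    by_cases h : X ∩ S i = A i
    · right
      rw [Finset.disjoint_left]
      exact fun v hv h1 => (hmem i v hv).1 h1 h
    · left
      exact fun v hv => (hmem i v hv).2 h
  · exact dd_switch_all hd X A hAS hAX univ
  · rw [sum_congr rfl fun i _ => hin i]
    exact sum_inner_le hd X
  · intro σ
    -- the sum over `X` minus the sum over the new set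
    have hpt : ∀ v, (if v ∈ X then σ v else 0) - (if v ∈ symmDiff X (univ.biUnion A) then σ v
        else 0) = ∑ i, (if X ∩ S i = A i then (if v ∈ A i then σ v else 0)
          else (if v ∈ A i then - σ v else 0)) := by
      intro v
      by_cases hv : ∃ i, v ∈ S i
      · obtain ⟨i, hi⟩ := hv
        rw [sum_eq_single i]
        · by_cases h : X ∩ S i = A i
          · rw [if_neg fun h1 => (hmem i v hi).1 h1 h, if_pos h, sub_zero]
            have h2 : v ∈ A i ↔ v ∈ X := by
              rw [← h, mem_inter]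
              tauto
            simp only [h2]
          · rw [if_pos ((hmem i v hi).2 h), if_neg h]
            have h3 : S i \ X = A i := (hAX i).resolve_left h
            have h2 : v ∈ A i ↔ v ∉ X := by
              rw [← h3, mem_sdiff]
              tauto
            by_cases h4 : v ∈ X
            · rw [if_pos h4, if_neg (fun h5 => h2.1 h5 h4), sub_self]
            · rw [if_neg h4, if_pos (h2.2 h4), zero_sub]
        · intro j _ hji
          have h1 : v ∉ A j := fun h2 =>
            Finset.disjoint_left.1 (hd j i hji) (hAS j h2) hi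
          simp [h1]
        · intro h
          exact absurd (mem_univ _) h
      · have h1 : ∀ i, v ∉ A i := fun i h2 => hv ⟨i, hAS i h2⟩
        have h2 : v ∈ symmDiff X (univ.biUnion A) ↔ v ∈ X := by
          have h3 : v ∉ univ.biUnion A := by
            intro h4
            obtain ⟨i, -, h5⟩ := mem_biUnion.1 h4
            exact h1 i h5
          rw [Finset.mem_symmDiff]
          tauto
        simp [h1, h2]
    have hsum : ∀ B : Finset V, ∑ v ∈ B, σ v = ∑ v, if v ∈ B then σ v else 0 := by
      intro B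
      rw [sum_ite_mem, univ_inter]
    have h1 : ∑ v ∈ X, σ v - ∑ v ∈ symmDiff X (univ.biUnion A), σ v =
        ∑ i, (if X ∩ S i = A i then ∑ v ∈ A i, σ v else - ∑ v ∈ A i, σ v) := by
      rw [hsum X, hsum (symmDiff X (univ.biUnion A)), ← sum_sub_distrib,
        sum_congr rfl fun v _ => hpt v, sum_comm]
      refine sum_congr rfl fun i _ => ?_
      by_cases h : X ∩ S i = A i
      · simp only [if_pos h]
        rw [← hsum]
      · simp only [if_neg h]
        rw [hsum (A i), ← sum_neg_distrib]
        refine sum_congr rfl fun v _ => ?_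
        split_ifs
        · rfl
        · exact neg_zero.symm
    have h2 : ∑ v ∈ X, σ v = ∑ v ∈ symmDiff X (univ.biUnion A), σ v +
        ∑ i, (if X ∩ S i = A i then ∑ v ∈ A i, σ v else - ∑ v ∈ A i, σ v) := by
      rw [← h1]
      ring
    rw [h2]
    refine (abs_add_le _ _).trans (add_le_add le_rfl ?_)
    refine (abs_sum_le_sum_abs _ _).trans (sum_le_sum fun i _ => ?_)
    split_ifs
    · exact le_rfl
    · rw [abs_neg]

end

/-- The graph without the edges at `D`. -/
def del (G : SimpleGraph V) (D : Finset V) : SimpleGraph V where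
  Adj u v := G.Adj u v ∧ u ∉ D ∧ v ∉ D
  symm := ⟨fun _ _ h => ⟨h.1.symm, h.2.2, h.2.1⟩⟩
  loopless := ⟨fun v h => G.loopless.irrefl v h.1⟩

instance (D : Finset V) : DecidableRel (del G D).Adj := fun u v =>
  inferInstanceAs (Decidable (G.Adj u v ∧ u ∉ D ∧ v ∉ D))

theorem dd_del (D X : Finset V) : dd (del G D) X = ds G D X := by
  rw [dd_ee]
  unfold ee ds
  congr 1
  ext p
  simp only [mem_filter, mem_univ, true_and, mem_compl, del]
  tauto

theorem ee_del (D A B : Finset V) : ee (del G D) A B = ee G (A \ D) (B \ D) := by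
  unfold ee
  congr 1
  ext p
  rw [mem_filter, mem_filter, mem_sdiff, mem_sdiff]
  show (p ∈ univ ∧ p.1 ∈ A ∧ p.2 ∈ B ∧ (G.Adj p.1 p.2 ∧ p.1 ∉ D ∧ p.2 ∉ D)) ↔ _
  tauto

end TogS

/-- X5: saturation in the graph without the edges at `D`. -/
theorem toggle_star (G : SimpleGraph V) [DecidableRel G.Adj]
    {r : ℕ} {S : Fin r → Finset V} (hd : ∀ i j, i ≠ j → Disjoint (S i) (S j)) {D : Finset V}
    (hratio : ∀ i, ∀ A ⊆ S i \ D, 2 * A.card ≤ (S i).card →
      ee G A ((S i)ᶜ \ D) ≤ 4 * ee G A ((S i \ D) \ A))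
    (X : Finset V) (hX : Disjoint X D) : ∃ (X' : Finset V) (A : Fin r → Finset V),
      (∀ i, A i ⊆ S i \ D ∧ 2 * (A i).card ≤ (S i).card) ∧ Disjoint X' D ∧
      (∀ i, S i \ D ⊆ X' ∨ Disjoint (S i) X') ∧ ds G D X' ≤ 5 * ds G D X ∧
      ∑ i, ee G (A i) ((S i \ D) \ A i) ≤ ds G D X ∧
      ∀ σ : V → ℝ, |∑ v ∈ X, σ v| ≤ |∑ v ∈ X', σ v| + ∑ i, |∑ v ∈ A i, σ v| := by
  classical
  obtain ⟨X', A, hA, hsat, hX', h1, h2, h3⟩ := TogS.toggle_gen (TogS.del G D)
    (S := fun i => S i \ D) (fun i j hij => (hd i j hij).mono sdiff_subset sdiff_subset) X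
  have hAD : ∀ i, A i \ D = A i := by
    intro i
    ext v
    rw [mem_sdiff]
    exact ⟨fun h => h.1, fun h => ⟨h, (mem_sdiff.1 ((hA i).1 h)).2⟩⟩
  have hAc : ∀ i, 2 * (A i).card ≤ (S i).card := fun i =>
    (hA i).2.1.trans (card_le_card sdiff_subset)
  have hin : ∀ i, ee (TogS.del G D) (A i) ((S i \ D) \ A i) = ee G (A i) ((S i \ D) \ A i) := by
    intro i
    rw [TogS.ee_del, hAD i]
    congr 1
    ext v
    simp only [mem_sdiff]
    tauto
  have hout : ∀ i, ee (TogS.del G D) (A i) (S i \ D)ᶜ = ee G (A i) ((S i)ᶜ \ D) := by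
    intro i
    rw [TogS.ee_del, hAD i]
    congr 1
    ext v
    simp only [mem_sdiff, mem_compl]
    tauto
  rw [TogS.dd_del, TogS.dd_del] at h1
  rw [TogS.dd_del] at h2
  simp only [hin] at h1 h2
  simp only [hout] at h1
  have hr : ∑ i, ee G (A i) ((S i)ᶜ \ D) ≤ 4 * ∑ i, ee G (A i) ((S i \ D) \ A i) := by
    rw [mul_sum]
    exact sum_le_sum fun i _ => hratio i (A i) (hA i).1 (hAc i)
  have hXD : Disjoint X' D := by
    rw [hX', Finset.disjoint_left]
    intro v hv hvD
    rcases Finset.mem_symmDiff.1 hv with h4 | h4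
    · exact Finset.disjoint_left.1 hX h4.1 hvD
    · obtain ⟨i, -, h5⟩ := mem_biUnion.1 h4.1
      exact (mem_sdiff.1 ((hA i).1 h5)).2 hvD
  refine ⟨X', A, fun i => ⟨(hA i).1, hAc i⟩, hXD, fun i => ?_, by omega, h2, h3⟩
  rcases hsat i with h4 | h4
  · exact Or.inl h4
  · right
    rw [Finset.disjoint_left]
    intro v hv hvX
    refine Finset.disjoint_left.1 h4 (mem_sdiff.2 ⟨hv, fun h5 => ?_⟩) hvX
    exact Finset.disjoint_left.1 hXD hvX h5

end Pool.Agent.K5
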