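import Mathlib
import Pool.Agent.Work.MP_974d84_co_k5.CoreFlow
import Pool.Agent.Work.MP_974d84_co_k5.Toggle
import Pool.Agent.Work.MP_974d84_co_k5.ToggleStar

/-!
# The exact line: the cut condition of the final theorem from the bounds in the regions
-/

set_option linter.unusedSectionVars false
set_option linter.unusedVariables false

namespace Pool.Agent.K5.CX

open Finset SimpleGraph Pool.Agent.Exp Pool.Agent.Log5 Pool.Agent.Log5.Clu Pool.Agent.K5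

variable {V : Type} [Fintype V] [DecidableEq V] {G : SimpleGraph V} [DecidableRel G.Adj]

/-- The graph without the edges at `D`. -/
def gstar (G : SimpleGraph V) (D : Finset V) : SimpleGraph V where
  Adj u v := G.Adj u v ∧ u ∉ D ∧ v ∉ D
  symm := ⟨fun _ _ h => ⟨h.1.symm, h.2.2, h.2.1⟩⟩
  loopless := ⟨fun _ h => G.loopless.irrefl _ h.1⟩

instance (D : Finset V) : DecidableRel (gstar G D).Adj := fun u v =>
  inferInstanceAs (Decidable (G.Adj u v ∧ u ∉ D ∧ v ∉ D))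

theorem dd_gstar (D X : Finset V) : dd (gstar G D) X = ds G D X := by
  unfold dd ds
  congr 1
  ext p
  rw [mem_cut, mem_filter]
  simp only [mem_univ, true_and, gstar]
  tauto

theorem ds_congr {D X Y : Finset V} (h : ∀ v, v ∉ D → (v ∈ X ↔ v ∈ Y)) : ds G D X = ds G D Y := by
  unfold ds
  congr 1
  ext p
  simp only [mem_filter, mem_univ, true_and]
  constructor
  · rintro ⟨h1, h2, h3, h4, h5⟩
    exact ⟨(h _ h3).1 h1, fun h6 => h2 ((h _ h4).2 h6), h3, h4, h5⟩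
  · rintro ⟨h1, h2, h3, h4, h5⟩
    exact ⟨(h _ h3).2 h1, fun h6 => h2 ((h _ h4).1 h6), h3, h4, h5⟩

theorem ds_le_dd (D X : Finset V) : ds G D X ≤ dd G X := by
  unfold dd ds
  refine card_le_card fun p hp => ?_
  rw [mem_cut]
  simp only [mem_filter, mem_univ, true_and] at hp
  exact ⟨hp.1, hp.2.1, hp.2.2.2.2⟩

/-- Sums of a function which vanishes on `D`. -/
theorem sum_congr_off {D X Y : Finset V} {σ : V → ℝ} (hσ : ∀ v ∈ D, σ v = 0)
    (h : ∀ v, v ∉ D → (v ∈ X ↔ v ∈ Y)) : ∑ v ∈ X, σ v = ∑ v ∈ Y, σ v := by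
  have key : ∀ Z : Finset V, ∑ v ∈ Z, σ v = ∑ v ∈ Z \ D, σ v := by
    intro Z
    symm
    refine sum_subset sdiff_subset fun v hv hv' => hσ v ?_
    by_contra hD
    exact hv' (mem_sdiff.2 ⟨hv, hD⟩)
  rw [key X, key Y]
  congr 1
  ext v
  rw [mem_sdiff, mem_sdiff]
  constructor
  · rintro ⟨h1, h2⟩
    exact ⟨(h v h2).1 h1, h2⟩
  · rintro ⟨h1, h2⟩
    exact ⟨(h v h2).2 h1, h2⟩

theorem ee_mono' {A A' B B' : Finset V} (hA : A ⊆ A') (hB : B ⊆ B') : ee G A B ≤ ee G A' B' := by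
  unfold ee
  refine card_le_card fun p hp => ?_
  simp only [mem_filter, mem_univ, true_and] at hp ⊢
  exact ⟨hA hp.1, hB hp.2.1, hp.2.2⟩

/-- Cores `S` and a set `D` such that every set outside `D` can be extended in `D`, inside the
outer region or inside a core, to a set whose cut is at most three times the cut outside `D`. -/
structure XLoss (G : SimpleGraph V) [DecidableRel G.Adj] {r : ℕ} (S : Fin r → Finset V)
    (D : Finset V) : Prop where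
  disj : ∀ i j, i ≠ j → Disjoint (S i) (S j)
  ratio : ∀ i, ∀ A ⊆ S i, 3 * A.card ≤ 2 * (S i).card →
    100 * ee G A (S i)ᶜ ≤ 123 * ee G A (S i \ A)
  few : ∀ i, 6 * (D ∩ S i).card ≤ (S i).card
  ne : ∀ i, (S i \ D).Nonempty
  out : ∀ A ⊆ (univ.biUnion S)ᶜ \ D, ∃ B : Finset V, A ⊆ B ∧ B ⊆ A ∪ D ∧
    B ⊆ (univ.biUnion S)ᶜ ∧ dd G B ≤ 3 * ds G D A
  core : ∀ i, ∀ A ⊆ S i \ D, ∃ B : Finset V, A ⊆ B ∧ B ⊆ A ∪ D ∧ B ⊆ S i ∧
    ee G B (S i \ B) ≤ 3 * ee G A ((S i \ D) \ A)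

variable {r : ℕ} {S : Fin r → Finset V} {D : Finset V}

/-- A set between `A` and `A ∪ D` has the same elements outside `D`. -/
theorem mem_iff_off {A B : Finset V} (h1 : A ⊆ B) (h2 : B ⊆ A ∪ D) (v : V) (hv : v ∉ D) :
    v ∈ A ↔ v ∈ B := by
  refine ⟨fun h => h1 h, fun h => ?_⟩
  rcases mem_union.1 (h2 h) with h3 | h3
  · exact h3
  · exact absurd h3 hv

/-- **The charges of the cores.** -/
theorem exists_z (H : XLoss G S D) {κ : ℕ} (hκ : 0 < κ)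
    (hsep : ∀ Q : Finset V, Sat S Q → (∃ i, S i ⊆ Q) → (∃ i, Disjoint (S i) Q) →
      κ ≤ ds G (D) Q)
    {σ : V → ℝ} (h0 : ∑ v, σ v = 0) (hσ : ∀ v ∈ D, σ v = 0) {b : ℝ} (hb0 : 0 ≤ b)
    (hreg : ∀ A ⊆ (univ.biUnion S)ᶜ, |∑ v ∈ A, σ v| ≤ b * dd G A) :
    ∃ z : Fin r → ℤ,
      (∀ i, 4 * |(z i : ℝ)| ≤ |∑ v ∈ S i, σ v| + (3 * b + 5 / κ) * dd G (S i)) ∧
      ∀ Z : Finset V, (∀ i, S i \ D ⊆ Z ∨ Disjoint (S i) Z) →
        |∑ v ∈ Z, σ v + 4 * ∑ i ∈ univ.filter (fun i => S i \ D ⊆ Z), (z i : ℝ)| ≤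
          (3 * b + 5 / κ) * ds G (D) Z := by
  classical
  have hne : ∀ i, (S i \ D).Nonempty := H.ne
  have hd : ∀ i j, i ≠ j → Disjoint (S i \ D) (S j \ D) := fun i j hij =>
    (H.disj i j hij).mono sdiff_subset sdiff_subset
  have hcut : ∀ Y : Finset V, Sat (fun i => S i \ D) Y → (∃ i, S i \ D ⊆ Y) →
      (∃ i, Disjoint (S i \ D) Y) → κ ≤ dd (gstar G D) Y := by
    intro Y h1 h2 h3
    rw [dd_gstar]
    let Q : Finset V := univ.filter fun v =>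
      (v ∉ D ∧ v ∈ Y) ∨ (v ∈ D ∧ ∃ i, v ∈ S i ∧ S i \ D ⊆ Y)
    have hQ : ∀ v, v ∈ Q ↔ (v ∉ D ∧ v ∈ Y) ∨ (v ∈ D ∧ ∃ i, v ∈ S i ∧ S i \ D ⊆ Y) := by
      intro v
      simp [Q]
    have hQY : ∀ v, v ∉ D → (v ∈ Q ↔ v ∈ Y) := by
      intro v hv
      rw [hQ]
      constructor
      · rintro (h | h)
        · exact h.2
        · exact absurd h.1 hv
      · intro h
        exact Or.inl ⟨hv, h⟩
    have hsub : ∀ i, S i \ D ⊆ Y → S i ⊆ Q := by
      intro i hi v hv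
      rw [hQ]
      by_cases hvD : v ∈ D
      · exact Or.inr ⟨hvD, i, hv, hi⟩
      · exact Or.inl ⟨hvD, hi (mem_sdiff.2 ⟨hv, hvD⟩)⟩
    have hdis : ∀ i, Disjoint (S i \ D) Y → Disjoint (S i) Q := by
      intro i hi
      rw [Finset.disjoint_left]
      intro v hv hvQ
      rcases (hQ v).1 hvQ with ⟨h4, h5⟩ | ⟨-, j, h5, h6⟩
      · exact Finset.disjoint_left.1 hi (mem_sdiff.2 ⟨hv, h4⟩) h5
      · have hij : i = j := by
          by_contra hij
          exact Finset.disjoint_left.1 (H.disj i j hij) hv h5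
        subst hij
        obtain ⟨w, hw⟩ := hne i
        exact Finset.disjoint_left.1 hi hw (h6 hw)
    rw [← ds_congr hQY]
    refine hsep Q (fun i => ?_) ?_ ?_
    · rcases h1 i with h | h
      · exact Or.inl (hsub i h)
      · exact Or.inr (hdis i h)
    · obtain ⟨i, hi⟩ := h2
      exact ⟨i, hsub i hi⟩
    · obtain ⟨i, hi⟩ := h3
      exact ⟨i, hdis i hi⟩
  have hW : ∀ Y : Finset V, (∀ i, Disjoint Y (S i \ D)) →
      |∑ v ∈ Y, σ v| ≤ 3 * b * dd (gstar G D) Y := by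
    intro Y hY
    rw [dd_gstar]
    have hA : Y \ D ⊆ (univ.biUnion S)ᶜ \ D := by
      intro v hv
      rw [mem_sdiff] at hv
      refine mem_sdiff.2 ⟨?_, hv.2⟩
      rw [mem_compl, mem_biUnion]
      rintro ⟨i, -, hi⟩
      exact Finset.disjoint_left.1 (hY i) hv.1 (mem_sdiff.2 ⟨hi, hv.2⟩)
    obtain ⟨B, h1, h2, h3, h4⟩ := H.out (Y \ D) hA
    have h5 : ∀ v, v ∉ D → (v ∈ Y ↔ v ∈ Y \ D) := fun v hv => by
      rw [mem_sdiff]
      exact ⟨fun h => ⟨h, hv⟩, fun h => h.1⟩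
    have h6 : ∑ v ∈ Y, σ v = ∑ v ∈ B, σ v := sum_congr_off hσ fun v hv =>
      (h5 v hv).trans (mem_iff_off h1 h2 v hv)
    rw [h6]
    refine (hreg B h3).trans ?_
    have h7 : ds G D (Y \ D) = ds G D Y := ds_congr fun v hv => (h5 v hv).symm
    rw [h7] at h4
    have h8 : (dd G B : ℝ) ≤ 3 * ds G D Y := by exact_mod_cast h4
    calc b * (dd G B : ℝ) ≤ b * (3 * ds G D Y) := mul_le_mul_of_nonneg_left h8 hb0
      _ = 3 * b * ds G D Y := by ring
  obtain ⟨z, hz1, hz2⟩ := core_flow (gstar G D) (fun i => S i \ D) hne hd hκ hcut h0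
    (by positivity : (0 : ℝ) ≤ 3 * b) hW
  have hβ : (0 : ℝ) ≤ 3 * b + 5 / κ := by positivity
  refine ⟨z, fun i => ?_, fun Z hZ => ?_⟩
  · have h1 := hz1 i
    have h2 : ∑ v ∈ S i \ D, σ v = ∑ v ∈ S i, σ v := sum_congr_off hσ fun v hv => by
      rw [mem_sdiff]
      exact ⟨fun h => h.1, fun h => ⟨h, hv⟩⟩
    rw [h2, dd_gstar] at h1
    refine h1.trans (add_le_add le_rfl (mul_le_mul_of_nonneg_left ?_ hβ))
    have h3 : ds G D (S i \ D) = ds G D (S i) := ds_congr fun v hv => by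
      rw [mem_sdiff]
      exact ⟨fun h => h.1, fun h => ⟨h, hv⟩⟩
    rw [h3]
    exact_mod_cast ds_le_dd D (S i)
  · have h1 := hz2 Z fun i => (hZ i).imp id fun h => h.mono_left sdiff_subset
    rw [dd_gstar] at h1
    exact h1

/-- **The cut condition of the final theorem.** -/
theorem cut_exact (H : XLoss G S D) {σ γ : V → ℝ} (hσ : ∀ v ∈ D, σ v = 0)
    (hγD : ∀ v ∈ D, γ v = 0) (hγW : ∀ v, (∀ i, v ∉ S i) → γ v = 0) {z : Fin r → ℤ}
    (hγz : ∀ i, ∑ v ∈ S i, γ v = 4 * z i) {b b₂ β : ℝ} (hb : 0 ≤ b) (hb₂ : 0 ≤ b₂) (hβ : 0 ≤ β)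
    (hz : ∀ Z : Finset V, (∀ i, S i \ D ⊆ Z ∨ Disjoint (S i) Z) →
      |∑ v ∈ Z, σ v + 4 * ∑ i ∈ univ.filter (fun i => S i \ D ⊆ Z), (z i : ℝ)| ≤
        β * ds G (D) Z)
    (hreg : ∀ i, ∀ A ⊆ S i, |∑ v ∈ A, σ v| ≤ b * dd G A)
    (hγ : ∀ i, ∀ A ⊆ S i, 3 * A.card ≤ 2 * (S i).card → |∑ v ∈ A, γ v| ≤ b₂ * dd G A)
    (hconst : 5 * β + 7 * (b + b₂) ≤ 1 / 10) (Z : Finset V) (hZ : Disjoint Z (D)) :
    |∑ v ∈ Z, (σ v + γ v)| ≤ 1 / 10 * ds G (D) Z := by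
  classical
  -- the loss inside the cores
  have hloss : ∀ i, ∀ A ⊆ S i \ D, 2 * A.card ≤ (S i).card → ∃ B, A ⊆ B ∧ B ⊆ A ∪ D ∧
      B ⊆ S i ∧ 3 * B.card ≤ 2 * (S i).card ∧ ee G B (S i \ B) ≤ 3 * ee G A ((S i \ D) \ A) ∧
      100 * ee G B (S i)ᶜ ≤ 123 * ee G B (S i \ B) := by
    intro i A hA h2
    obtain ⟨B, h3, h4, h5, h6⟩ := H.core i A hA
    have h7 : 3 * B.card ≤ 2 * (S i).card := by
      have h8 : B ⊆ A ∪ (D ∩ S i) := by
        intro v hv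
        rcases mem_union.1 (h4 hv) with h | h
        · exact mem_union_left _ h
        · exact mem_union_right _ (mem_inter.2 ⟨h, h5 hv⟩)
      have h9 := (card_le_card h8).trans (card_union_le _ _)
      have h10 := H.few i
      omega
    exact ⟨B, h3, h4, h5, h7, h6, H.ratio i B h5 h7⟩
  have hratio : ∀ i, ∀ A ⊆ S i \ D, 2 * A.card ≤ (S i).card →
      ee G A ((S i)ᶜ \ D) ≤ 4 * ee G A ((S i \ D) \ A) := by
    intro i A hA h2
    obtain ⟨B, h3, h4, h5, h6, h7, h8⟩ := hloss i A hA h2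
    have h9 : ee G A ((S i)ᶜ \ D) ≤ ee G B (S i)ᶜ := ee_mono' h3 sdiff_subset
    omega
  obtain ⟨Z', A, hA, hZ'D, hZ'S, hcut, hsum, hall⟩ := toggle_star G H.disj hratio Z hZ
  -- the cores
  have hcore : ∀ i, |∑ v ∈ A i, (σ v + γ v)| ≤
      7 * (b + b₂) * ee G (A i) ((S i \ D) \ A i) := by
    intro i
    obtain ⟨B, h3, h4, h5, h6, h7, h8⟩ := hloss i (A i) (hA i).1 (hA i).2
    have h9 : ∑ v ∈ A i, (σ v + γ v) = ∑ v ∈ B, (σ v + γ v) :=
      sum_congr_off (σ := fun v => σ v + γ v)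
        (fun v hv => by
          show σ v + γ v = 0
          rw [hσ v hv, hγD v hv, add_zero]) (mem_iff_off h3 h4)
    have h10 : dd G B = ee G B (S i)ᶜ + ee G B (S i \ B) := Tog.dd_eq_ee G h5
    have h11 : dd G B ≤ 7 * ee G (A i) ((S i \ D) \ A i) := by omega
    have h12 : (dd G B : ℝ) ≤ 7 * ee G (A i) ((S i \ D) \ A i) := by exact_mod_cast h11
    rw [h9, sum_add_distrib]
    calc |∑ v ∈ B, σ v + ∑ v ∈ B, γ v| ≤ |∑ v ∈ B, σ v| + |∑ v ∈ B, γ v| := abs_add_le _ _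
      _ ≤ b * dd G B + b₂ * dd G B := add_le_add (hreg i B h5) (hγ i B h5 h6)
      _ = (b + b₂) * dd G B := by ring
      _ ≤ (b + b₂) * (7 * ee G (A i) ((S i \ D) \ A i)) :=
        mul_le_mul_of_nonneg_left h12 (by positivity)
      _ = 7 * (b + b₂) * ee G (A i) ((S i \ D) \ A i) := by ring
  have hcores : ∑ i, |∑ v ∈ A i, (σ v + γ v)| ≤ 7 * (b + b₂) * ds G D Z := by
    calc ∑ i, |∑ v ∈ A i, (σ v + γ v)|
        ≤ ∑ i, 7 * (b + b₂) * ee G (A i) ((S i \ D) \ A i) := sum_le_sum fun i _ => hcore i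
      _ = 7 * (b + b₂) * ((∑ i, ee G (A i) ((S i \ D) \ A i) : ℕ) : ℝ) := by
        rw [← mul_sum]
        push_cast
        rfl
      _ ≤ 7 * (b + b₂) * ds G D Z :=
        mul_le_mul_of_nonneg_left (by exact_mod_cast hsum) (by positivity)
  -- the saturated set
  have hγZ : ∑ v ∈ Z', γ v = 4 * ∑ i ∈ univ.filter (fun i => S i \ D ⊆ Z'), (z i : ℝ) := by
    have h1 : ∑ v ∈ Z', γ v = ∑ v ∈ (univ.filter fun i => S i \ D ⊆ Z').biUnion S, γ v := by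
      have key : ∀ v, v ∉ D → (∃ i, v ∈ S i) →
          (v ∈ Z' ↔ v ∈ (univ.filter fun i => S i \ D ⊆ Z').biUnion S) := by
        rintro v hv ⟨i, hi⟩
        rw [mem_biUnion]
        constructor
        · intro hvZ
          rcases hZ'S i with h | h
          · exact ⟨i, mem_filter.2 ⟨mem_univ _, h⟩, hi⟩
          · exact absurd hvZ (Finset.disjoint_left.1 h hi)
        · rintro ⟨j, hj, hvj⟩
          exact (mem_filter.1 hj).2 (mem_sdiff.2 ⟨hvj, hv⟩)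
      have hsupp : ∀ Y : Finset V, ∑ v ∈ Y, γ v =
          ∑ v ∈ Y.filter (fun v => v ∉ D ∧ ∃ i, v ∈ S i), γ v := by
        intro Y
        symm
        refine sum_subset (filter_subset _ _) fun v hv hv' => ?_
        by_cases hvD : v ∈ D
        · exact hγD v hvD
        · refine hγW v fun i hi => hv' (mem_filter.2 ⟨hv, hvD, i, hi⟩)
      rw [hsupp Z', hsupp (((univ.filter fun i => S i \ D ⊆ Z').biUnion S))]
      congr 1
      ext v
      rw [mem_filter, mem_filter]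
      constructor
      · rintro ⟨h1, h2, h3⟩
        exact ⟨(key v h2 h3).1 h1, h2, h3⟩
      · rintro ⟨h1, h2, h3⟩
        exact ⟨(key v h2 h3).2 h1, h2, h3⟩
    rw [h1, sum_biUnion fun i _ j _ hij => H.disj i j hij, mul_sum]
    exact sum_congr rfl fun i _ => hγz i
  have hsat : |∑ v ∈ Z', (σ v + γ v)| ≤ 5 * β * ds G D Z := by
    rw [sum_add_distrib, hγZ]
    refine (hz Z' hZ'S).trans ?_
    have h1 : (ds G D Z' : ℝ) ≤ 5 * ds G D Z := by exact_mod_cast hcut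
    calc β * (ds G D Z' : ℝ) ≤ β * (5 * ds G D Z) := mul_le_mul_of_nonneg_left h1 hβ
      _ = 5 * β * ds G D Z := by ring
  have h1 := hall fun v => σ v + γ v
  have h2 : (0 : ℝ) ≤ ds G D Z := Nat.cast_nonneg _
  calc |∑ v ∈ Z, (σ v + γ v)| ≤ |∑ v ∈ Z', (σ v + γ v)| + ∑ i, |∑ v ∈ A i, (σ v + γ v)| := h1
    _ ≤ 5 * β * ds G D Z + 7 * (b + b₂) * ds G D Z := add_le_add hsat hcores
    _ = (5 * β + 7 * (b + b₂)) * ds G D Z := by ring
    _ ≤ 1 / 10 * ds G D Z := mul_le_mul_of_nonneg_right hconst h2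

end Pool.Agent.K5.CX
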