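import Mathlib
import Pool.Agent.Work.MP_974d84_co_k5.Defs5

/-!
# Induction over the cuts of a region
-/

set_option linter.unusedSectionVars false
set_option linter.unusedVariables false

namespace Pool.Agent.K5.CutInd

open Finset SimpleGraph Pool.Agent.Exp Pool.Agent.Log5 Pool.Agent.Log5.Clu

variable {V : Type} [Fintype V] [DecidableEq V] (G : SimpleGraph V) [DecidableRel G.Adj]

/-- Bonds of the region `Y` in the graph induced by `Ω`. -/
structure OBond (Ω Y Z : Finset V) : Prop where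
  sub : Z ⊆ Y
  ne : Z.Nonempty
  ne' : (Ω \ Z).Nonempty
  joined : Joined G Z
  modj : ∀ A ⊆ Y \ Z, A.Nonempty → A ≠ Ω \ Z → ∃ u ∈ A, ∃ v ∈ Ω \ Z, v ∉ A ∧ G.Adj u v

variable {G}

private theorem ee_pos {A B : Finset V} : 0 < ee G A B ↔ ∃ u ∈ A, ∃ v ∈ B, G.Adj u v := by
  unfold ee
  rw [card_pos]
  constructor
  · rintro ⟨⟨u, v⟩, h⟩
    rw [mem_filter] at h
    exact ⟨u, h.2.1, v, h.2.2.1, h.2.2.2⟩
  · rintro ⟨u, hu, v, hv, h⟩
    exact ⟨(u, v), mem_filter.2 ⟨mem_univ _, hu, hv, h⟩⟩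

private theorem ee_eq_zero' {A B : Finset V} (h : ∀ u ∈ A, ∀ v ∈ B, ¬ G.Adj u v) : ee G A B = 0 := by
  by_contra hne
  obtain ⟨u, hu, v, hv, huv⟩ := ee_pos.1 (Nat.pos_of_ne_zero hne)
  exact h u hu v hv huv

private theorem ee_symm (A B : Finset V) : ee G A B = ee G B A := by
  unfold ee
  refine card_bij' (fun p _ => (p.2, p.1)) (fun p _ => (p.2, p.1)) ?_ ?_ ?_ ?_
  · intro p hp
    rw [mem_filter] at hp ⊢
    exact ⟨mem_univ _, hp.2.2.1, hp.2.1, hp.2.2.2.symm⟩
  · intro p hp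
    rw [mem_filter] at hp ⊢
    exact ⟨mem_univ _, hp.2.2.1, hp.2.1, hp.2.2.2.symm⟩
  · intro p _; rfl
  · intro p _; rfl

private theorem ee_union_left {A A' : Finset V} (h : Disjoint A A') (B : Finset V) :
    ee G (A ∪ A') B = ee G A B + ee G A' B := by
  unfold ee
  rw [← card_union_of_disjoint]
  · congr 1
    ext p
    simp only [mem_filter, mem_univ, true_and, mem_union]
    tauto
  · rw [Finset.disjoint_left]
    intro p hp hp'
    exact Finset.disjoint_left.1 h (mem_filter.1 hp).2.1 (mem_filter.1 hp').2.1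

private theorem ee_union_right {B B' : Finset V} (h : Disjoint B B') (A : Finset V) :
    ee G A (B ∪ B') = ee G A B + ee G A B' := by
  rw [ee_symm, ee_union_left h, ee_symm B, ee_symm B']

private theorem ee_mono {A A' B B' : Finset V} (h : A ⊆ A') (h' : B ⊆ B') : ee G A B ≤ ee G A' B' := by
  unfold ee
  refine card_le_card fun p hp => ?_
  rw [mem_filter] at hp ⊢
  exact ⟨mem_univ _, h hp.2.1, h' hp.2.2.1, hp.2.2.2⟩

/-- If `A` and `B` are disjoint and not joined by an edge, the cuts add. -/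
theorem cut_add {Ω A B : Finset V} (hd : Disjoint A B) (hA : A ⊆ Ω) (hB : B ⊆ Ω)
    (hno : ∀ x ∈ A, ∀ y ∈ B, ¬ G.Adj x y) :
    ee G (A ∪ B) (Ω \ (A ∪ B)) = ee G A (Ω \ A) + ee G B (Ω \ B) := by
  have e1 : Ω \ A = (Ω \ (A ∪ B)) ∪ B := by
    ext x
    simp only [mem_sdiff, mem_union]
    have := @hB x
    have := fun h : x ∈ A => Finset.disjoint_left.1 hd h
    tauto
  have e2 : Ω \ B = (Ω \ (A ∪ B)) ∪ A := by
    ext x
    simp only [mem_sdiff, mem_union]
    have := @hA x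
    have := fun h : x ∈ A => Finset.disjoint_left.1 hd h
    tauto
  have d1 : Disjoint (Ω \ (A ∪ B)) B :=
    Finset.disjoint_left.2 fun x hx hx' => (mem_sdiff.1 hx).2 (mem_union_right _ hx')
  have d2 : Disjoint (Ω \ (A ∪ B)) A :=
    Finset.disjoint_left.2 fun x hx hx' => (mem_sdiff.1 hx).2 (mem_union_left _ hx')
  rw [ee_union_left hd, e1, e2, ee_union_right d1, ee_union_right d2, ee_eq_zero' hno,
    ee_eq_zero' fun u hu v hv h => hno v hv u hu h.symm]
  ring

/-- If `B ⊆ A` has no edge to the outside of `A`, the cuts add. -/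
theorem cut_sub {Ω A B : Finset V} (hA : A ⊆ Ω) (hB : B ⊆ A)
    (hno : ∀ x ∈ B, ∀ y ∈ Ω \ A, ¬ G.Adj x y) :
    ee G (A \ B) (Ω \ (A \ B)) = ee G A (Ω \ A) + ee G B (Ω \ B) := by
  have hd : Disjoint (A \ B) B := sdiff_disjoint
  have hu : (A \ B) ∪ B = A := sdiff_union_of_subset hB
  have e1 : Ω \ (A \ B) = (Ω \ A) ∪ B := by
    ext x
    simp only [mem_sdiff, mem_union]
    have := @hA x
    have := @hB x
    tauto
  have e2 : Ω \ B = (Ω \ A) ∪ (A \ B) := by
    ext x
    simp only [mem_sdiff, mem_union]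
    have := @hA x
    have := @hB x
    tauto
  have d1 : Disjoint (Ω \ A) B :=
    Finset.disjoint_left.2 fun x hx hx' => (mem_sdiff.1 hx).2 (hB hx')
  have d2 : Disjoint (Ω \ A) (A \ B) :=
    Finset.disjoint_left.2 fun x hx hx' => (mem_sdiff.1 hx).2 (mem_sdiff.1 hx').1
  have e3 : ee G A (Ω \ A) = ee G (A \ B) (Ω \ A) + ee G B (Ω \ A) := by
    rw [← ee_union_left hd, hu]
  rw [e1, e2, ee_union_right d1, ee_union_right d2, e3, ee_eq_zero' hno, ee_symm B]
  ring

/-- A property of the subsets of the region `Y` of `Ω` holds if it holds for the bonds and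
passes to sums of cuts. -/
theorem cut_ind {Ω Y : Finset V} (hY : Y ⊆ Ω)
    (hbr : ∀ S ⊆ Y, S.Nonempty → (Ω \ S).Nonempty → ∃ u ∈ S, ∃ v ∈ Ω \ S, G.Adj u v)
    {Q : Finset V → Prop} (h0 : Q ∅) (h1 : Y = Ω → Q Ω) (hb : ∀ Z, OBond G Ω Y Z → Q Z)
    (hU : ∀ A B, A ⊆ Y → B ⊆ Y → Disjoint A B → (∀ x ∈ A, ∀ y ∈ B, ¬ G.Adj x y) →
      Q A → Q B → Q (A ∪ B))
    (hD : ∀ A B, A ⊆ Y → B ⊆ A → (∀ x ∈ B, ∀ y ∈ Ω \ A, ¬ G.Adj x y) → Q A → Q B → Q (A \ B)) :
    ∀ S ⊆ Y, Q S := by
  suffices key : ∀ (n : ℕ) (S : Finset V), S ⊆ Y → ee G S (Ω \ S) = n → Q S from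
    fun S hS => key _ S hS rfl
  intro n
  induction n using Nat.strong_induction_on with
  | _ n ih =>
    intro S hS hn
    rcases S.eq_empty_or_nonempty with rfl | hne
    · exact h0
    rcases (Ω \ S).eq_empty_or_nonempty with he | hne'
    · have e : Ω ⊆ S := sdiff_eq_empty_iff_subset.1 he
      have e1 : S = Ω := (hS.trans hY).antisymm e
      have e2 : Y = Ω := hY.antisymm (e.trans hS)
      rw [e1]
      exact h1 e2
    by_cases hJ : Joined G S
    · by_cases hm : ∀ A ⊆ Y \ S, A.Nonempty → A ≠ Ω \ S → ∃ u ∈ A, ∃ v ∈ Ω \ S, v ∉ A ∧ G.Adj u v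
      · exact hb S ⟨hS, hne, hne', hJ, hm⟩
      · push Not at hm
        obtain ⟨A, hA, hAne, hA', hno⟩ := hm
        have hAY : A ⊆ Y := hA.trans sdiff_subset
        have hAS : Disjoint S A := Finset.disjoint_left.2 fun x hx hx' => (mem_sdiff.1 (hA hx')).2 hx
        have e : (S ∪ A) \ A = S := by
          rw [union_sdiff_right, sdiff_eq_self_of_disjoint hAS]
        have hSA : S ∪ A ⊆ Y := union_subset hS hAY
        have hnob : ∀ x ∈ A, ∀ y ∈ Ω \ (S ∪ A), ¬ G.Adj x y := by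
          intro x hx y hy
          have hy1 := mem_sdiff.1 hy
          exact hno x hx y (mem_sdiff.2 ⟨hy1.1, fun h => hy1.2 (mem_union_left _ h)⟩)
            fun h => hy1.2 (mem_union_right _ h)
        have hcut := cut_sub (hSA.trans hY) subset_union_right hnob
        rw [e, hn] at hcut
        have p1 : 0 < ee G A (Ω \ A) := by
          refine ee_pos.2 (hbr A hAY hAne ?_)
          obtain ⟨x, hx⟩ := hne
          exact ⟨x, mem_sdiff.2 ⟨hY (hS hx), fun h => Finset.disjoint_left.1 hAS hx h⟩⟩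
        have p2 : 0 < ee G (S ∪ A) (Ω \ (S ∪ A)) := by
          refine ee_pos.2 (hbr _ hSA (hne.mono subset_union_left) ?_)
          by_contra hcon
          rw [not_nonempty_iff_eq_empty, sdiff_eq_empty_iff_subset] at hcon
          refine hA' (Subset.antisymm (hA.trans (sdiff_subset_sdiff hY (Subset.refl _))) ?_)
          intro x hx
          have hx1 := mem_sdiff.1 hx
          exact (mem_union.1 (hcon hx1.1)).resolve_left hx1.2
        have g := hD (S ∪ A) A hSA subset_union_right hnob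
          (ih _ (by omega) (S ∪ A) hSA rfl) (ih _ (by omega) A hAY rfl)
        rwa [e] at g
    · unfold Exp.Joined at hJ
      push Not at hJ
      obtain ⟨A, hA, hAne, hA', hno⟩ := hJ
      have e : A ∪ (S \ A) = S := union_sdiff_of_subset hA
      have hd : Disjoint A (S \ A) := disjoint_sdiff
      have hne2 : (S \ A).Nonempty := by
        by_contra hcon
        rw [not_nonempty_iff_eq_empty, sdiff_eq_empty_iff_subset] at hcon
        exact hA' (hA.antisymm hcon)
      have hnob : ∀ x ∈ A, ∀ y ∈ S \ A, ¬ G.Adj x y := fun x hx y hy =>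
        hno x hx y (mem_sdiff.1 hy).1 (mem_sdiff.1 hy).2
      have hAY : A ⊆ Y := hA.trans hS
      have hBY : S \ A ⊆ Y := sdiff_subset.trans hS
      have hcut := cut_add hd (hAY.trans hY) (hBY.trans hY) hnob
      rw [e, hn] at hcut
      have p1 : 0 < ee G A (Ω \ A) := by
        refine ee_pos.2 (hbr A hAY hAne ?_)
        obtain ⟨x, hx⟩ := hne2
        exact ⟨x, mem_sdiff.2 ⟨hY (hBY hx), (mem_sdiff.1 hx).2⟩⟩
      have p2 : 0 < ee G (S \ A) (Ω \ (S \ A)) := by
        refine ee_pos.2 (hbr _ hBY hne2 ?_)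
        obtain ⟨x, hx⟩ := hAne
        exact ⟨x, mem_sdiff.2 ⟨hY (hAY hx), fun h => (mem_sdiff.1 h).2 hx⟩⟩
      have g := hU A (S \ A) hAY hBY hd hnob (ih _ (by omega) A hAY rfl)
        (ih _ (by omega) (S \ A) hBY rfl)
      rwa [e] at g

end Pool.Agent.K5.CutInd
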