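import Mathlib
import Pool.Agent.Work.MP_974d84_co_k5.Defs5

/-!
# Optimal cuts inside a joined set decompose into optimal bonds
-/

set_option linter.unusedSectionVars false

namespace Pool.Agent.K5.CS

open Finset SimpleGraph Pool.Agent.Exp Pool.Agent.Log5 Pool.Agent.Log5.Clu

variable {V : Type} [Fintype V] [DecidableEq V]

/-- Ordered adjacent pairs in `K`, inside `S`, which are split by `B`. -/
def c2 (G : SimpleGraph V) [DecidableRel G.Adj] (S : Finset V) (K : Finset (V × V))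
    (B : Finset V) : Finset (V × V) :=
  K.filter fun p => p.1 ∈ S ∧ p.2 ∈ S ∧ G.Adj p.1 p.2 ∧ ¬ (p.1 ∈ B ↔ p.2 ∈ B)

variable {G : SimpleGraph V} [DecidableRel G.Adj] {S B : Finset V} {K : Finset (V × V)}

theorem mem_c2 {p : V × V} : p ∈ c2 G S K B ↔
    p ∈ K ∧ p.1 ∈ S ∧ p.2 ∈ S ∧ G.Adj p.1 p.2 ∧ ¬ (p.1 ∈ B ↔ p.2 ∈ B) := by
  rw [c2, mem_filter]

theorem c2_compl : c2 G S K (S \ B) = c2 G S K B := by
  ext p
  rw [mem_c2, mem_c2, mem_sdiff, mem_sdiff]
  tauto

theorem c2_union {B₁ B₂ : Finset V} (hd : Disjoint B₁ B₂)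
    (hno : ∀ u ∈ B₁, ∀ v ∈ B₂, ¬ G.Adj u v) :
    (c2 G S K (B₁ ∪ B₂)).card = (c2 G S K B₁).card + (c2 G S K B₂).card := by
  have key : ∀ p : V × V, G.Adj p.1 p.2 →
      ((¬ (p.1 ∈ B₁ ∪ B₂ ↔ p.2 ∈ B₁ ∪ B₂) ↔ (¬ (p.1 ∈ B₁ ↔ p.2 ∈ B₁)) ∨ ¬ (p.1 ∈ B₂ ↔ p.2 ∈ B₂)) ∧
      ¬ ((¬ (p.1 ∈ B₁ ↔ p.2 ∈ B₁)) ∧ ¬ (p.1 ∈ B₂ ↔ p.2 ∈ B₂))) := by
    intro p hp
    have e1 : p.1 ∈ B₁ → p.1 ∉ B₂ := fun h1 h2 => Finset.disjoint_left.1 hd h1 h2
    have e2 : p.2 ∈ B₁ → p.2 ∉ B₂ := fun h1 h2 => Finset.disjoint_left.1 hd h1 h2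
    have e3 : p.1 ∈ B₁ → p.2 ∉ B₂ := fun h1 h2 => hno _ h1 _ h2 hp
    have e4 : p.2 ∈ B₁ → p.1 ∉ B₂ := fun h1 h2 => hno _ h1 _ h2 hp.symm
    rw [mem_union, mem_union]
    tauto
  have h1 : c2 G S K (B₁ ∪ B₂) = c2 G S K B₁ ∪ c2 G S K B₂ := by
    ext p
    rw [mem_union, mem_c2, mem_c2, mem_c2]
    constructor
    · rintro ⟨a, b, c, d, e⟩
      rcases ((key p d).1.1 e) with h | h
      · exact Or.inl ⟨a, b, c, d, h⟩
      · exact Or.inr ⟨a, b, c, d, h⟩
    · rintro (⟨a, b, c, d, e⟩ | ⟨a, b, c, d, e⟩)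
      · exact ⟨a, b, c, d, (key p d).1.2 (Or.inl e)⟩
      · exact ⟨a, b, c, d, (key p d).1.2 (Or.inr e)⟩
  rw [h1, card_union_of_disjoint]
  rw [Finset.disjoint_left]
  intro p hp hp'
  rw [mem_c2] at hp hp'
  exact (key p hp.2.2.2.1).2 ⟨hp.2.2.2.2, hp'.2.2.2.2⟩

theorem c2_symmDiff_le {X Y : Finset V} :
    (c2 G S K (symmDiff X Y)).card ≤ (c2 G S K X).card + (c2 G S K Y).card := by
  refine (card_le_card ?_).trans (card_union_le _ _)
  intro p hp
  rw [mem_union, mem_c2, mem_c2]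
  rw [mem_c2, Finset.mem_symmDiff, Finset.mem_symmDiff] at hp
  obtain ⟨a, b, c, d, e⟩ := hp
  by_cases h : p.1 ∈ X ↔ p.2 ∈ X
  · right
    refine ⟨a, b, c, d, fun h' => e ?_⟩
    tauto
  · exact Or.inl ⟨a, b, c, d, h⟩

theorem c2_pos (hS : Joined G S) (hB : B ⊆ S) (hne : B.Nonempty) (hneS : B ≠ S) :
    0 < (c2 G S univ B).card := by
  obtain ⟨x, hx, y, hy, hyB, hxy⟩ := hS B hB hne hneS
  rw [card_pos]
  exact ⟨(x, y), mem_c2.2 ⟨mem_univ _, hB hx, hy, hxy, fun h => hyB (h.1 hx)⟩⟩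

/-- A count of the cut of `B` in `S`. -/
theorem c2_two (hB : B ⊆ S) (hK : ∀ u v, (u, v) ∈ K → (v, u) ∈ K) :
    (c2 G S K B).card = 2 * (K.filter fun p => p.1 ∈ B ∧ p.2 ∈ S \ B ∧ G.Adj p.1 p.2).card := by
  set F₁ := K.filter fun p => p.1 ∈ B ∧ p.2 ∈ S \ B ∧ G.Adj p.1 p.2 with hF₁
  have h1 : c2 G S K B = F₁ ∪ F₁.image Prod.swap := by
    ext ⟨u, v⟩
    rw [mem_c2, mem_union, hF₁, mem_filter, mem_image]
    simp only
    constructor
    · rintro ⟨a, b, c, d, e⟩
      by_cases hu : u ∈ B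
      · left
        refine ⟨a, hu, mem_sdiff.2 ⟨c, fun hv => e ⟨fun _ => hv, fun _ => hu⟩⟩, d⟩
      · right
        have hv : v ∈ B := by by_contra hv; exact e ⟨fun h => absurd h hu, fun h => absurd h hv⟩
        exact ⟨(v, u), mem_filter.2 ⟨hK _ _ a, hv, mem_sdiff.2 ⟨b, hu⟩, d.symm⟩, rfl⟩
    · rintro (⟨a, b, c, d⟩ | ⟨⟨x, y⟩, hxy, he⟩)
      · rw [mem_sdiff] at c
        exact ⟨a, hB b, c.1, d, fun h => c.2 (h.1 b)⟩
      · rw [mem_filter] at hxy
        obtain ⟨a, b, c, d⟩ := hxy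
        simp only [Prod.swap_prod_mk, Prod.mk.injEq] at he
        obtain ⟨rfl, rfl⟩ := he
        simp only at b c d
        rw [mem_sdiff] at c
        exact ⟨hK _ _ a, c.1, hB b, d.symm, fun h => c.2 (h.2 b)⟩
  rw [h1, card_union_of_disjoint, card_image_of_injective _ Prod.swap_injective]
  · ring
  · rw [Finset.disjoint_left]
    rintro ⟨u, v⟩ hp hp'
    rw [mem_image] at hp'
    obtain ⟨⟨x, y⟩, hxy, he⟩ := hp'
    simp only [Prod.swap_prod_mk, Prod.mk.injEq] at he
    obtain ⟨rfl, rfl⟩ := he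
    rw [hF₁, mem_filter] at hp hxy
    exact (mem_sdiff.1 hp.2.2.1).2 hxy.2.1

/-- The decomposition of an optimal cut into optimal bonds. -/
theorem opt_le {D : Finset V} (hS : Joined G S) (hD : D ⊆ S)
    (hbond : ∀ P ⊆ S, P.Nonempty → (S \ P).Nonempty → Joined G P → Joined G (S \ P) →
      (∀ E ⊆ D, (c2 G S univ P).card ≤ (c2 G S univ (symmDiff P E)).card) →
      3 * (c2 G S K P).card ≤ 2 * (c2 G S univ P).card) (n : ℕ) :
    ∀ B ⊆ S, (c2 G S univ B).card ≤ n →
      (∀ E ⊆ D, (c2 G S univ B).card ≤ (c2 G S univ (symmDiff B E)).card) →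
      3 * (c2 G S K B).card ≤ 2 * (c2 G S univ B).card := by
  induction n with
  | zero =>
    intro B _ h0 _
    have : (c2 G S K B).card ≤ (c2 G S univ B).card := by
      apply card_le_card
      intro p hp
      rw [mem_c2] at hp ⊢
      exact ⟨mem_univ _, hp.2⟩
    omega
  | succ n ih =>
    -- the case of a set which is not joined
    have step : ∀ B ⊆ S, (c2 G S univ B).card ≤ n + 1 →
        (∀ E ⊆ D, (c2 G S univ B).card ≤ (c2 G S univ (symmDiff B E)).card) → ¬ Joined G B →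
        3 * (c2 G S K B).card ≤ 2 * (c2 G S univ B).card := by
      intro B hB hn hopt hJ
      unfold Exp.Joined at hJ
      push Not at hJ
      obtain ⟨A, hAB, hA, hAne, hno⟩ := hJ
      have hC : (B \ A).Nonempty := by
        rw [sdiff_nonempty]
        exact fun h => hAne (Subset.antisymm hAB h)
      have hBA : A ∪ (B \ A) = B := union_sdiff_of_subset hAB
      have hno' : ∀ u ∈ A, ∀ v ∈ B \ A, ¬ G.Adj u v := fun u hu v hv =>
        hno u hu v (mem_sdiff.1 hv).1 (mem_sdiff.1 hv).2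
      have hadd : ∀ K' : Finset (V × V), (c2 G S K' B).card =
          (c2 G S K' A).card + (c2 G S K' (B \ A)).card := by
        intro K'
        have h := c2_union (G := G) (S := S) (K := K') (disjoint_sdiff (s := A) (t := B)) hno'
        rwa [hBA] at h
      have hAS : A ⊆ S := hAB.trans hB
      have hCS : B \ A ⊆ S := sdiff_subset.trans hB
      have hA1 : A ≠ S := by
        rintro rfl
        exact hAne (Subset.antisymm hAB hB)
      have hC1 : B \ A ≠ S := by
        intro h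
        obtain ⟨x, hx⟩ := hA
        have : x ∈ B \ A := by rw [h]; exact hAS hx
        exact (mem_sdiff.1 this).2 hx
      have hp1 := c2_pos hS hAS hA hA1
      have hp2 := c2_pos hS hCS hC hC1
      have hu := hadd univ
      have hsd : symmDiff A (B \ A) = B := by
        rw [(disjoint_sdiff (s := A) (t := B)).symmDiff_eq_sup]
        exact hBA
      have e1 : ∀ E, symmDiff B E = symmDiff (symmDiff A E) (B \ A) := by
        intro E
        rw [symmDiff_right_comm, hsd]
      have e2 : ∀ E, symmDiff B E = symmDiff (symmDiff (B \ A) E) A := by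
        intro E
        rw [symmDiff_right_comm, symmDiff_comm (B \ A) A, hsd]
      have h1 := ih A hAS (by omega) (fun E hE => by
        have h := hopt E hE
        rw [e1 E] at h
        have h' := c2_symmDiff_le (G := G) (S := S) (K := univ) (X := symmDiff A E) (Y := B \ A)
        omega)
      have h2 := ih (B \ A) hCS (by omega) (fun E hE => by
        have h := hopt E hE
        rw [e2 E] at h
        have h' := c2_symmDiff_le (G := G) (S := S) (K := univ) (X := symmDiff (B \ A) E) (Y := A)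
        omega)
      rw [hadd K, hadd univ]
      omega
    intro B hB hn hopt
    by_cases hJ : Joined G B
    · by_cases hJ' : Joined G (S \ B)
      · rcases B.eq_empty_or_nonempty with h0 | h0
        · have : c2 G S K B = ∅ := by
            rw [eq_empty_iff_forall_notMem]
            intro p hp
            rw [mem_c2, h0] at hp
            exact hp.2.2.2.2 (by simp)
          rw [this]; simp
        · rcases (S \ B).eq_empty_or_nonempty with h1 | h1
          · have : c2 G S K B = ∅ := by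
              rw [eq_empty_iff_forall_notMem]
              intro p hp
              rw [mem_c2] at hp
              rw [sdiff_eq_empty_iff_subset] at h1
              exact hp.2.2.2.2 ⟨fun _ => h1 hp.2.2.1, fun _ => h1 hp.2.1⟩
            rw [this]; simp
          · exact hbond B hB h0 h1 hJ hJ' hopt
      · have h := step (S \ B) sdiff_subset (by rw [c2_compl]; exact hn) (fun E hE => ?_) hJ'
        · rwa [c2_compl, c2_compl] at h
        · have h' := hopt E hE
          have e : symmDiff (S \ B) E = S \ symmDiff B E := by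
            ext x
            have hx : x ∈ E → x ∈ S := fun h => hD (hE h)
            have hx' : x ∈ B → x ∈ S := fun h => hB h
            rw [Finset.mem_symmDiff, mem_sdiff, mem_sdiff, Finset.mem_symmDiff]
            tauto
          rw [e, c2_compl, c2_compl]
          exact h'
    · exact step B hB hn hopt hJ

end Pool.Agent.K5.CS
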