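import Mathlib
import Pool.Agent.Work.MP_974d84_co_k5.RegionSplit

/-!
# Closed sets of a region are sums of closed bonds of the region: the list of the bonds

Every closed subset `S` of the region `Y` is decomposed into closed bonds of the region: the
boundary of `S` is the disjoint union of the boundaries of the bonds, charges of total zero add
up, and a bond can be modified in place of `S`.
-/

set_option linter.unusedSectionVars false
set_option linter.unusedVariables false

namespace Pool.Agent.K5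

open Finset SimpleGraph Pool.Agent.Exp Pool.Agent.Log5 Pool.Agent.Log5.Clu
open Pool.Agent.Work.MP_314beb_co

variable {V : Type} [Fintype V] [DecidableEq V] (G : SimpleGraph V) [DecidableRel G.Adj]

/-- The weight of the boundary of `S`: the sum of `w u v` over the adjacent pairs with `u ∈ S`,
`v ∉ S`. -/
def bs (w : V → V → ℝ) (S : Finset V) : ℝ := ∑ p ∈ cut G S, w p.1 p.2

variable {G}

theorem bs_one (S : Finset V) : bs G (fun _ _ => 1) S = dd G S := by
  unfold bs dd
  rw [sum_const, nsmul_eq_mul, mul_one]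

theorem bs_eq_sum (w : V → V → ℝ) (S : Finset V) :
    bs G w S = ∑ p : V × V, if p.1 ∈ S ∧ p.2 ∉ S ∧ G.Adj p.1 p.2 then w p.1 p.2 else 0 := by
  unfold bs
  rw [← sum_filter]
  refine sum_congr ?_ fun _ _ => rfl
  ext p
  rw [mem_cut, mem_filter]
  simp

theorem bs_empty (w : V → V → ℝ) : bs G w ∅ = 0 := by
  unfold bs
  apply sum_eq_zero
  intro p hp
  rw [mem_cut] at hp
  exact absurd hp.1 (notMem_empty _)

theorem bs_univ (w : V → V → ℝ) : bs G w univ = 0 := by
  unfold bs
  apply sum_eq_zero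
  intro p hp
  rw [mem_cut] at hp
  exact absurd (mem_univ _) hp.2.1

theorem bs_compl {w : V → V → ℝ} (hw : ∀ u v, w u v = w v u) (S : Finset V) :
    bs G w Sᶜ = bs G w S := by
  unfold bs
  refine sum_bij' (fun p _ => (p.2, p.1)) (fun p _ => (p.2, p.1)) ?_ ?_ ?_ ?_ ?_
  · intro p hp
    rw [mem_cut] at hp ⊢
    simp only [mem_compl, not_not] at hp
    exact ⟨hp.2.1, hp.1, hp.2.2.symm⟩
  · intro p hp
    rw [mem_cut] at hp ⊢
    simp only [mem_compl, not_not]
    exact ⟨hp.2.1, hp.1, hp.2.2.symm⟩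
  · intro p _; rfl
  · intro p _; rfl
  · intro p _; exact hw _ _

theorem bs_nonneg {w : V → V → ℝ} (hw0 : ∀ u v, 0 ≤ w u v) (S : Finset V) : 0 ≤ bs G w S :=
  sum_nonneg fun _ _ => hw0 _ _

theorem bs_mono {w w' : V → V → ℝ} (h : ∀ u v, w u v ≤ w' u v) (S : Finset V) :
    bs G w S ≤ bs G w' S :=
  sum_le_sum fun _ _ => h _ _

/-- Both orders of the ends. -/
theorem bs_two {w : V → V → ℝ} (hw : ∀ u v, w u v = w v u) (S : Finset V) :
    2 * bs G w S = ∑ p : V × V, if G.Adj p.1 p.2 ∧ ¬ (p.1 ∈ S ↔ p.2 ∈ S) then w p.1 p.2 else 0 := by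
  rw [two_mul]
  nth_rewrite 2 [← bs_compl hw S]
  rw [bs_eq_sum, bs_eq_sum, ← sum_add_distrib]
  refine sum_congr rfl fun p _ => ?_
  by_cases h1 : p.1 ∈ S <;> by_cases h2 : p.2 ∈ S <;> by_cases h3 : G.Adj p.1 p.2 <;>
    simp [h1, h2, h3]

/-- The boundary of a symmetric difference. -/
theorem bs_symmDiff {w : V → V → ℝ} (hw : ∀ u v, w u v = w v u) (hw0 : ∀ u v, 0 ≤ w u v)
    (A B : Finset V) : bs G w (symmDiff A B) ≤ bs G w A + bs G w B := by
  have h := bs_two (G := G) hw (symmDiff A B)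
  have hA := bs_two (G := G) hw A
  have hB := bs_two (G := G) hw B
  have : ∑ p : V × V, (if G.Adj p.1 p.2 ∧ ¬ (p.1 ∈ symmDiff A B ↔ p.2 ∈ symmDiff A B)
      then w p.1 p.2 else 0) ≤
      (∑ p : V × V, if G.Adj p.1 p.2 ∧ ¬ (p.1 ∈ A ↔ p.2 ∈ A) then w p.1 p.2 else 0) +
      ∑ p : V × V, if G.Adj p.1 p.2 ∧ ¬ (p.1 ∈ B ↔ p.2 ∈ B) then w p.1 p.2 else 0 := by
    rw [← sum_add_distrib]
    refine sum_le_sum fun p _ => ?_
    have h0 := hw0 p.1 p.2
    by_cases h1 : p.1 ∈ A <;> by_cases h2 : p.2 ∈ A <;> by_cases h4 : p.1 ∈ B <;>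
      by_cases h5 : p.2 ∈ B <;> by_cases h3 : G.Adj p.1 p.2 <;>
      simp [mem_symmDiff, h1, h2, h3, h4, h5, h0]
  linarith

/-- The decomposition. -/
theorem decomp {c : V → V} (hc : ∀ x, Joined G (cls c x)) {Y : Finset V}
    (hbr : ∀ S ⊆ Y, S.Nonempty → Sᶜ.Nonempty → 1 ≤ dd G S)
    (S : Finset V) (hSY : S ⊆ Y) (hS : Clo c S) :
    ∃ L : List (Finset V), (∀ Z ∈ L, RBond G Y c Z ∧ Zᶜ.Nonempty ∧ 1 ≤ dd G Z) ∧
      (∀ w : V → V → ℝ, (∀ u v, w u v = w v u) → bs G w S = (L.map (bs G w)).sum) ∧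
      (∀ σ : V → ℝ, ∑ v, σ v = 0 → |∑ v ∈ S, σ v| ≤ (L.map fun Z => |∑ v ∈ Z, σ v|).sum) ∧
      (∀ w : V → V → ℝ, (∀ u v, w u v = w v u) → (∀ u v, 0 ≤ w u v) → ∀ Z ∈ L, ∀ E : Finset V,
        bs G w (symmDiff S E) + bs G w Z ≤ bs G w S + bs G w (symmDiff Z E)) := by
  suffices key : ∀ (n : ℕ) (S : Finset V), S ⊆ Y → Clo c S → dd G S = n →
      ∃ L : List (Finset V), (∀ Z ∈ L, RBond G Y c Z ∧ Zᶜ.Nonempty ∧ 1 ≤ dd G Z) ∧
      (∀ w : V → V → ℝ, (∀ u v, w u v = w v u) → bs G w S = (L.map (bs G w)).sum) ∧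
      (∀ σ : V → ℝ, ∑ v, σ v = 0 → |∑ v ∈ S, σ v| ≤ (L.map fun Z => |∑ v ∈ Z, σ v|).sum) ∧
      (∀ w : V → V → ℝ, (∀ u v, w u v = w v u) → (∀ u v, 0 ≤ w u v) → ∀ Z ∈ L, ∀ E : Finset V,
        bs G w (symmDiff S E) + bs G w Z ≤ bs G w S + bs G w (symmDiff Z E)) from
    key _ S hSY hS rfl
  intro n
  induction n using Nat.strong_induction_on with
  | _ n ih =>
    intro Z hZY hZc hZ
    rcases Z.eq_empty_or_nonempty with rfl | hne
    · refine ⟨[], by simp, ?_, ?_, by simp⟩
      · intro w _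
        rw [bs_empty]; simp
      · intro σ _; simp
    rcases Zᶜ.eq_empty_or_nonempty with he | hne'
    · have hZu := (compl_eq_empty_iff _).1 he
      refine ⟨[], by simp, ?_, ?_, by simp⟩
      · intro w _
        rw [hZu, bs_univ]; simp
      · intro σ h0
        rw [hZu, h0]; simp
    -- gluing two decompositions
    have glue : ∀ S₁ S₂ : Finset V, S₁ ⊆ Y → S₂ ⊆ Y → Clo c S₁ → Clo c S₂ → dd G S₁ < n →
        dd G S₂ < n → symmDiff S₁ S₂ = Z →
        (∀ w : V → V → ℝ, (∀ u v, w u v = w v u) → bs G w Z = bs G w S₁ + bs G w S₂) →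
        (∀ σ : V → ℝ, |∑ v ∈ Z, σ v| ≤ |∑ v ∈ S₁, σ v| + |∑ v ∈ S₂, σ v|) →
        ∃ L : List (Finset V), (∀ Z ∈ L, RBond G Y c Z ∧ Zᶜ.Nonempty ∧ 1 ≤ dd G Z) ∧
        (∀ w : V → V → ℝ, (∀ u v, w u v = w v u) → bs G w Z = (L.map (bs G w)).sum) ∧
        (∀ σ : V → ℝ, ∑ v, σ v = 0 → |∑ v ∈ Z, σ v| ≤ (L.map fun Z => |∑ v ∈ Z, σ v|).sum) ∧
        (∀ w : V → V → ℝ, (∀ u v, w u v = w v u) → (∀ u v, 0 ≤ w u v) → ∀ Z' ∈ L,
          ∀ E : Finset V,
          bs G w (symmDiff Z E) + bs G w Z' ≤ bs G w Z + bs G w (symmDiff Z' E)) := by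
      intro S₁ S₂ h1 h2 c1 c2 d1 d2 hsd hbs hσ
      obtain ⟨L₁, a1, a2, a3, a4⟩ := ih _ d1 S₁ h1 c1 rfl
      obtain ⟨L₂, b1, b2, b3, b4⟩ := ih _ d2 S₂ h2 c2 rfl
      refine ⟨L₁ ++ L₂, ?_, ?_, ?_, ?_⟩
      · intro X hX
        rcases List.mem_append.1 hX with h | h
        · exact a1 X h
        · exact b1 X h
      · intro w hw
        rw [List.map_append, List.sum_append, ← a2 w hw, ← b2 w hw, hbs w hw]
      · intro σ h0
        rw [List.map_append, List.sum_append]
        have := a3 σ h0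
        have := b3 σ h0
        have := hσ σ
        linarith
      · intro w hw hw0 X hX E
        rcases List.mem_append.1 hX with h | h
        · have e1 := a4 w hw hw0 X h E
          have e2 : symmDiff Z E = symmDiff S₂ (symmDiff S₁ E) := by
            rw [← hsd, symmDiff_comm S₁ S₂, symmDiff_assoc]
          have e3 := bs_symmDiff (G := G) hw hw0 S₂ (symmDiff S₁ E)
          rw [← e2] at e3
          rw [hbs w hw]
          linarith
        · have e1 := b4 w hw hw0 X h E
          have e2 : symmDiff Z E = symmDiff S₁ (symmDiff S₂ E) := by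
            rw [← hsd, symmDiff_assoc]
          have e3 := bs_symmDiff (G := G) hw hw0 S₁ (symmDiff S₂ E)
          rw [← e2] at e3
          rw [hbs w hw]
          linarith
    by_cases hJ : Joined G Z
    · by_cases hJ' : ModJ G Yᶜ Zᶜ
      · refine ⟨[Z], ?_, ?_, ?_, ?_⟩
        · intro X hX
          rw [List.mem_singleton] at hX
          subst hX
          exact ⟨⟨hZY, hne, hJ, hJ', hZc⟩, hne', hbr _ hZY hne hne'⟩
        · intro w _; simp
        · intro σ _; simp
        · intro w _ _ X hX E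
          rw [List.mem_singleton] at hX
          subst hX
          linarith
      · unfold ModJ at hJ'
        push Not at hJ'
        obtain ⟨A, h1, h2, h3, h4⟩ := hJ'
        have h1' : A ⊆ Zᶜ := h1.trans sdiff_subset
        have hAY : A ⊆ Y := fun x hx => by
          have := (mem_sdiff.1 (h1 hx)).2
          rwa [mem_compl, not_not] at this
        have h3' : (Zᶜ \ A).Nonempty := by
          rw [sdiff_nonempty]
          exact fun h => h3 (h1'.antisymm h)
        obtain ⟨e1, e2⟩ := cut_split h1' h4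
        have k1 : dd G Zᶜ = dd G A + dd G (Zᶜ \ A) := by
          unfold dd
          rw [e1, card_union_of_disjoint e2]
        have c1 : Aᶜ.Nonempty := by
          obtain ⟨x, hx⟩ := hne
          exact ⟨x, mem_compl.2 fun h => (mem_compl.1 (h1' h)) hx⟩
        have e3 : (Zᶜ \ A) = (Z ∪ A)ᶜ := by
          ext x
          simp
        have hZA : Z ∪ A ⊆ Y := union_subset hZY hAY
        have k2 := hbr A hAY h2 c1
        have k3 := hbr (Z ∪ A) hZA (hne.mono subset_union_left) (e3 ▸ h3')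
        rw [e3, dd_compl] at k1
        rw [dd_compl, hZ] at k1
        have hAc : Clo c A := RS.clo_part hc (RS.clo_compl hZc) h1' h4
        have hdis : Disjoint Z A := by
          rw [Finset.disjoint_left]
          exact fun x hx hxA => (mem_compl.1 (h1' hxA)) hx
        refine glue (Z ∪ A) A hZA hAY (RS.clo_union hZc hAc) hAc (by omega) (by omega) ?_ ?_ ?_
        · ext x
          have : x ∈ Z → x ∉ A := fun h h' => (Finset.disjoint_left.1 hdis) h h'
          rw [mem_symmDiff, mem_union]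
          tauto
        · intro w hw
          rw [← bs_compl hw Z, ← bs_compl hw (Z ∪ A), ← e3]
          unfold bs
          rw [e1, sum_union e2, add_comm]
        · intro σ
          have g3 : ∑ v ∈ Z, σ v = ∑ v ∈ Z ∪ A, σ v - ∑ v ∈ A, σ v := by
            rw [sum_union hdis]
            ring
          rw [g3]
          exact abs_sub _ _
    · obtain ⟨A, h1, h2, h3, h4⟩ := not_joined hJ
      obtain ⟨e1, e2⟩ := cut_split h1 h4
      have k1 : dd G Z = dd G A + dd G (Z \ A) := by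
        unfold dd
        rw [e1, card_union_of_disjoint e2]
      have c1 : Aᶜ.Nonempty := by
        obtain ⟨x, hx⟩ := hne'
        exact ⟨x, mem_compl.2 fun h => (mem_compl.1 hx) (h1 h)⟩
      have c2 : (Z \ A)ᶜ.Nonempty := by
        obtain ⟨x, hx⟩ := hne'
        exact ⟨x, mem_compl.2 fun h => (mem_compl.1 hx) (mem_sdiff.1 h).1⟩
      have hAY : A ⊆ Y := h1.trans hZY
      have hBY : Z \ A ⊆ Y := sdiff_subset.trans hZY
      have k2 := hbr A hAY h2 c1
      have k3 := hbr (Z \ A) hBY h3 c2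
      have hAc : Clo c A := RS.clo_part hc hZc h1 h4
      refine glue A (Z \ A) hAY hBY hAc (RS.clo_sdiff hZc hAc) (by omega) (by omega) ?_ ?_ ?_
      · ext x
        have : x ∈ A → x ∈ Z := fun h => h1 h
        rw [mem_symmDiff, mem_sdiff]
        tauto
      · intro w _
        unfold bs
        rw [e1, sum_union e2]
      · intro σ
        have g3 : ∑ v ∈ Z, σ v = ∑ v ∈ A, σ v + ∑ v ∈ Z \ A, σ v := by
          rw [← sum_union disjoint_sdiff, union_sdiff_of_subset h1]
        rw [g3]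
        exact abs_add_le _ _

end Pool.Agent.K5
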