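import Mathlib
import Pool.Agent.Work.MP_974d84_co_k5.Decomp

/-!
# G5b: finitely many exceptional bonds only cost a constant
-/

set_option linter.unusedSectionVars false
set_option linter.unusedVariables false

namespace Pool.Agent.K5

open Finset SimpleGraph Pool.Agent.Exp Pool.Agent.Log5 Pool.Agent.Log5.Clu
open Pool.Agent.Work.MP_314beb_co

namespace DcG

theorem count_mul_le {α : Type*} [DecidableEq α] {f : α → ℝ} (hf : ∀ a, 0 ≤ f a) (a : α)
    (L : List α) : (L.count a : ℝ) * f a ≤ (L.map f).sum := by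
  induction L with
  | nil => simp
  | cons x L ih =>
    rw [List.map_cons, List.sum_cons, List.count_cons]
    by_cases h : x = a
    · subst h
      simp only [beq_self_eq_true, if_true]
      push_cast
      linarith
    · have h' : (x == a) = false := by simpa using h
      rw [h']
      simp only [Bool.false_eq_true, if_false, add_zero]
      have := hf x
      linarith

variable {V : Type} [Fintype V] [DecidableEq V] {G : SimpleGraph V} [DecidableRel G.Adj]

/-- The weight of one edge. -/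
def w1 (a b u v : V) : ℝ := if (u = a ∧ v = b) ∨ (u = b ∧ v = a) then 1 else 0

theorem w1_symm (a b u v : V) : w1 a b u v = w1 a b v u := by
  unfold w1
  by_cases h1 : u = a ∧ v = b <;> by_cases h2 : u = b ∧ v = a <;>
    by_cases h3 : v = a ∧ u = b <;> by_cases h4 : v = b ∧ u = a <;>
    simp [h1, h2, h3, h4]

theorem w1_nonneg (a b u v : V) : 0 ≤ w1 a b u v := by
  unfold w1
  split_ifs
  · exact zero_le_one
  · exact le_rfl

theorem bs_w1_le (a b : V) (S : Finset V) : bs G (w1 a b) S ≤ 1 := by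
  classical
  unfold bs
  have h1 : ∑ p ∈ cut G S, w1 a b p.1 p.2 =
      (((cut G S).filter fun p => (p.1 = a ∧ p.2 = b) ∨ (p.1 = b ∧ p.2 = a)).card : ℝ) := by
    unfold w1
    rw [← sum_filter, sum_const, nsmul_eq_mul, mul_one]
  rw [h1]
  have h2 : ((cut G S).filter fun p => (p.1 = a ∧ p.2 = b) ∨ (p.1 = b ∧ p.2 = a)).card ≤ 1 := by
    rw [card_le_one]
    intro p hp p' hp'
    rw [mem_filter, mem_cut] at hp hp'
    obtain ⟨⟨h3, h4, _⟩, h5⟩ := hp
    obtain ⟨⟨h6, h7, _⟩, h8⟩ := hp'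
    rcases h5 with ⟨e1, e2⟩ | ⟨e1, e2⟩ <;> rcases h8 with ⟨f1, f2⟩ | ⟨f1, f2⟩
    · exact Prod.ext (e1.trans f1.symm) (e2.trans f2.symm)
    · rw [e1] at h3
      rw [f2] at h7
      exact absurd h3 h7
    · rw [e1] at h3
      rw [f2] at h7
      exact absurd h3 h7
    · exact Prod.ext (e1.trans f1.symm) (e2.trans f2.symm)
  exact_mod_cast h2

theorem bs_w1_ge {a b : V} {S : Finset V} (h : (a, b) ∈ cut G S) : 1 ≤ bs G (w1 a b) S := by
  unfold bs
  have h1 : w1 a b (a, b).1 (a, b).2 = 1 := by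
    unfold w1
    rw [if_pos (Or.inl ⟨rfl, rfl⟩)]
  rw [← h1]
  exact single_le_sum (f := fun p : V × V => w1 a b p.1 p.2) (fun p _ => w1_nonneg a b p.1 p.2) h

/-- The boundaries are disjoint, so no bond occurs twice. -/
theorem nodup_of_bs {L : List (Finset V)} {S : Finset V} (h1 : ∀ Z ∈ L, 1 ≤ dd G Z)
    (h2 : ∀ w : V → V → ℝ, (∀ u v, w u v = w v u) → bs G w S = (L.map (bs G w)).sum) :
    L.Nodup := by
  classical
  rw [List.nodup_iff_count_le_one]
  intro Z
  by_contra hcon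
  push Not at hcon
  have hZ : Z ∈ L := List.count_pos_iff.1 (by omega)
  have h3 : 0 < (cut G Z).card := h1 Z hZ
  obtain ⟨p, hp⟩ := card_pos.1 h3
  have h4 := count_mul_le (f := bs G (w1 p.1 p.2)) (fun X => bs_nonneg (w1_nonneg _ _) X) Z L
  rw [← h2 _ (w1_symm _ _)] at h4
  have h5 := bs_w1_le (G := G) p.1 p.2 S
  have h6 : 1 ≤ bs G (w1 p.1 p.2) Z := bs_w1_ge hp
  have h7 : (2 : ℝ) ≤ L.count Z := by exact_mod_cast hcon
  nlinarith

end DcG

/-- G5b, file DecompG.lean (from decomp; the boundaries are disjoint, so no bond occurs twice):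
finitely many exceptional bonds only cost a constant. -/
theorem decomp_exc {V : Type} [Fintype V] [DecidableEq V] {G : SimpleGraph V}
    [DecidableRel G.Adj] {c : V → V} (hc : ∀ x, Joined G (cls c x)) {Y : Finset V}
    (hbr : ∀ S ⊆ Y, S.Nonempty → Sᶜ.Nonempty → 1 ≤ dd G S) {σ : V → ℝ} (h0 : ∑ v, σ v = 0)
    {b M : ℝ} (hb : 0 ≤ b) (hM : 0 ≤ M) (E : Finset (Finset V))
    (h1 : ∀ Z, RBond G Y c Z → Zᶜ.Nonempty → Z ∉ E → |∑ v ∈ Z, σ v| ≤ b * dd G Z)
    (h2 : ∀ Z ∈ E, |∑ v ∈ Z, σ v| ≤ M) (A : Finset V) (hA : A ⊆ Y) (hcl : Clo c A) :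
    |∑ v ∈ A, σ v| ≤ b * dd G A + E.card * M := by
  classical
  obtain ⟨L, a1, a2, a3, -⟩ := decomp (G := G) hc hbr A hA hcl
  have hnd : L.Nodup := DcG.nodup_of_bs (fun Z hZ => (a1 Z hZ).2.2) a2
  have h3 : (dd G A : ℝ) = ∑ Z ∈ L.toFinset, (dd G Z : ℝ) := by
    have h4 := a2 (fun _ _ => 1) (fun _ _ => rfl)
    rw [bs_one] at h4
    rw [h4, List.sum_toFinset _ hnd]
    congr 1
    refine List.map_congr_left fun Z _ => ?_
    rw [bs_one]
  have h5 : ∀ Z ∈ L.toFinset, |∑ v ∈ Z, σ v| ≤ b * dd G Z + if Z ∈ E then M else 0 := by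
    intro Z hZ
    rw [List.mem_toFinset] at hZ
    have h6 : 0 ≤ b * dd G Z := by positivity
    by_cases hE : Z ∈ E
    · rw [if_pos hE]
      have := h2 Z hE
      linarith
    · rw [if_neg hE, add_zero]
      exact h1 Z (a1 Z hZ).1 (a1 Z hZ).2.1 hE
  have h7 : ∑ Z ∈ L.toFinset, (if Z ∈ E then M else 0) ≤ E.card * M := by
    rw [← sum_filter, sum_const, nsmul_eq_mul]
    refine mul_le_mul_of_nonneg_right ?_ hM
    have h8 : ((L.toFinset).filter fun Z => Z ∈ E) ⊆ E := fun Z hZ => (mem_filter.1 hZ).2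
    exact_mod_cast card_le_card h8
  calc |∑ v ∈ A, σ v| ≤ (L.map fun Z => |∑ v ∈ Z, σ v|).sum := a3 σ h0
    _ = ∑ Z ∈ L.toFinset, |∑ v ∈ Z, σ v| := (List.sum_toFinset _ hnd).symm
    _ ≤ ∑ Z ∈ L.toFinset, (b * dd G Z + if Z ∈ E then M else 0) := sum_le_sum h5
    _ = b * dd G A + ∑ Z ∈ L.toFinset, (if Z ∈ E then M else 0) := by
        rw [sum_add_distrib, ← mul_sum, ← h3]
    _ ≤ b * dd G A + E.card * M := by linarith

end Pool.Agent.K5
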