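import Mathlib
import Pool.Agent.Work.MP_974d84_co_k5.SmearEx

/-!
# The charge of one end of a favourable defect is smeared over a sphere

The unit at `v` is sent through the edge outside `H`; at the first `J` levels it goes against the
base flow on the edges of `H` and through edges outside `H` only; then it is halved at every
vertex.
-/

set_option linter.unusedSectionVars false
set_option autoImplicit false

namespace Pool.Agent.K5

open Finset SimpleGraph Pool.Agent.Exp Pool.Agent.Log5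

/-- The vertices reached from `h` through `nn` at the first `j` levels have the label `- s`. -/
def FavD {V : Type} (H : SimpleGraph V) (nn : V → V) (x : V → ℤ) (s : ℤ) : ℕ → V → Prop
  | 0, _ => True
  | j + 1, h => x (nn h) = - s ∧ ∀ h', H.Adj (nn h) h' → FavD H nn x s j h'

variable {V : Type} [Fintype V] [DecidableEq V] {G : SimpleGraph V} [DecidableRel G.Adj]

/-- A flow from `t` to the sphere of radius `n`. -/
structure Fl (G : SimpleGraph V) (t : V) (n : ℕ) (φ : V → V → ℝ) (w : V → ℝ) : Prop where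
  anti : ∀ u v, φ u v = - φ v u
  supp : ∀ u v, φ u v ≠ 0 → G.Adj u v ∧ u ∈ Bl G.Adj n t ∧ v ∈ Bl G.Adj n t
  w0 : ∀ v, 0 ≤ w v
  ws : ∀ v, w v ≠ 0 → v ∈ Bl G.Adj n t ∧ (n = 0 ∨ v ∉ Bl G.Adj (n - 1) t)
  tot : ∑ v, w v = 1
  div : ∀ v, ∑ u, φ v u = (if v = t then 1 else 0) - w v

/-- One more layer. -/
theorem Fl.push (h3 : ∀ v, G.degree v = 3) {k : ℕ} (hg : Gir G k) {t : V} {n : ℕ}
    (hk : 3 * 2 ^ n < k) {φ : V → V → ℝ} {w : V → ℝ} (h : Fl G t n φ w) {g : V → V → ℝ}
    (g0 : ∀ u v, 0 ≤ g u v)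
    (gs : ∀ u v, g u v ≠ 0 → G.Adj u v ∧ u ∈ Bl G.Adj n t ∧ v ∉ Bl G.Adj n t)
    (gsum : ∀ u, ∑ v, g u v = w u) {c : ℝ} (hc : 0 ≤ c) (gc : ∀ u v, g u v ≤ c) :
    Fl G t (n + 1) (fun u v => φ u v + g u v - g v u) (fun v => ∑ u, g u v) ∧
      (∀ u v, φ u v + g u v - g v u = φ u v ∨ (g u v ≠ 0 ∧ φ u v + g u v - g v u = g u v) ∨
        (g v u ≠ 0 ∧ φ u v + g u v - g v u = - g v u)) ∧ ∀ v, ∑ u, g u v ≤ c := by
  have key : ∀ u v, φ u v + g u v - g v u = φ u v ∨
      (g u v ≠ 0 ∧ φ u v + g u v - g v u = g u v) ∨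
        (g v u ≠ 0 ∧ φ u v + g u v - g v u = - g v u) := by
    intro u v
    by_cases h1 : g u v = 0
    · by_cases h2 : g v u = 0
      · left; rw [h1, h2]; ring
      · right; right
        refine ⟨h2, ?_⟩
        have e2 : φ u v = 0 := by
          by_contra h4
          exact (gs v u h2).2.2 (h.supp u v h4).2.1
        rw [h1, e2]; ring
    · right; left
      refine ⟨h1, ?_⟩
      have e2 : φ u v = 0 := by
        by_contra h4
        exact (gs u v h1).2.2 (h.supp u v h4).2.2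
      have e1 : g v u = 0 := by
        by_contra h4
        exact (gs v u h4).2.2 (gs u v h1).2.1
      rw [e1, e2]; ring
  refine ⟨⟨fun u v => ?_, fun u v hne => ?_, fun v => sum_nonneg fun u _ => g0 u v,
    fun v hne => ?_, ?_, fun v => ?_⟩, key, fun v => ?_⟩
  · rw [h.anti u v]
    ring
  · have hsub : Bl G.Adj n t ⊆ Bl G.Adj (n + 1) t := Bl_mono (Nat.le_succ n) t
    have hout : ∀ u v, g u v ≠ 0 → G.Adj u v ∧ u ∈ Bl G.Adj (n + 1) t ∧
        v ∈ Bl G.Adj (n + 1) t := by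
      intro u v h
      obtain ⟨h1, h2, -⟩ := gs u v h
      exact ⟨h1, hsub h2, mem_Bl_succ.2 (Or.inr ⟨u, h2, h1⟩)⟩
    rcases key u v with h1 | ⟨h0, h1⟩ | ⟨h0, h1⟩
    · rw [h1] at hne
      obtain ⟨h2, h4, h5⟩ := h.supp u v hne
      exact ⟨h2, hsub h4, hsub h5⟩
    · exact hout u v h0
    · obtain ⟨h2, h4, h5⟩ := hout v u h0
      exact ⟨h2.symm, h5, h4⟩
  · have h1 : ∃ u, g u v ≠ 0 := by
      by_contra hcon
      push Not at hcon
      exact hne (sum_eq_zero fun u _ => hcon u)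
    obtain ⟨u, hu⟩ := h1
    obtain ⟨h1, h2, h4⟩ := gs u v hu
    exact ⟨mem_Bl_succ.2 (Or.inr ⟨u, h2, h1⟩), Or.inr h4⟩
  · show ∑ v, ∑ u, g u v = 1
    rw [sum_comm, sum_congr rfl fun u _ => gsum u]
    exact h.tot
  · show ∑ u, (φ v u + g v u - g u v) = (if v = t then 1 else 0) - ∑ u, g u v
    rw [sum_sub_distrib, sum_add_distrib, h.div v, gsum v]
    ring
  · -- at most one term
    by_cases hv : v ∈ Bl G.Adj n t
    · have h1 : ∑ u, g u v = 0 := by
        refine sum_eq_zero fun u _ => ?_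
        by_contra h
        exact (gs u v h).2.2 hv
      rw [h1]
      exact hc
    · have h1 := nb_out h3 hg hk hv
      have h2 : ∑ u, g u v = ∑ u ∈ (Bl G.Adj n t).filter (fun u => G.Adj v u), g u v := by
        symm
        refine sum_subset (subset_univ _) fun u _ hu => ?_
        by_contra h
        obtain ⟨h4, h5, -⟩ := gs u v h
        exact hu (mem_filter.2 ⟨h5, h4.symm⟩)
      rw [h2]
      refine (sum_le_card_nsmul _ _ _ fun u _ => gc u v).trans ?_
      have h4 : ((Bl G.Adj n t).filter (fun u => G.Adj v u)).card ≤ 1 := h1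
      rw [nsmul_eq_mul]
      have h5 : (((Bl G.Adj n t).filter (fun u => G.Adj v u)).card : ℝ) ≤ 1 := by
        exact_mod_cast h4
      calc _ ≤ (1 : ℝ) * c := mul_le_mul_of_nonneg_right h5 hc
        _ = c := one_mul _

/-- The neighbours outside the ball of a vertex of the sphere, if one neighbour inside is
known. -/
theorem outer_nb (h3 : ∀ v, G.degree v = 3) {k : ℕ} (hg : Gir G k) {t : V} {n : ℕ}
    (hk : 3 * 2 ^ (n + 1) < k) {u p : V} (hu : u ∈ Bl G.Adj (n + 1) t) (hu' : u ∉ Bl G.Adj n t)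
    (hp : p ∈ Bl G.Adj (n + 1) t) (hup : G.Adj u p) :
    ((Bl G.Adj (n + 1) t)ᶜ).filter (fun v => G.Adj u v) = (G.neighborFinset u).erase p := by
  have h1 := nb_sphere h3 hg hk hu hu'
  refine eq_of_subset_of_card_le ?_ ?_
  · intro v hv
    rw [mem_filter, mem_compl] at hv
    rw [mem_erase, mem_neighborFinset]
    exact ⟨fun h => hv.1 (h ▸ hp), hv.2⟩
  · have h2 : (((Bl G.Adj (n + 1) t)ᶜ).filter (fun v => G.Adj u v)).card = 2 := h1
    rw [h2, card_erase_of_mem (by rw [mem_neighborFinset]; exact hup),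
      card_neighborFinset_eq_degree, h3]

/-- The label data along the flow. -/
structure HN (G : SimpleGraph V) (H : SimpleGraph V) (nn : V → V) : Prop where
  sub : ∀ u v, H.Adj u v → G.Adj u v
  adj : ∀ u, G.Adj u (nn u)
  inv : ∀ u, nn (nn u) = u
  iff : ∀ u v, G.Adj u v → (H.Adj u v ↔ v ≠ nn u)

/-- What a value of the flow on an edge must satisfy. -/
def OkV (H : SimpleGraph V) (x : V → ℤ) (s : ℤ) (J : ℕ) (u v : V) (r : ℝ) : Prop :=
  |r| ≤ 1 ∧ (H.Adj u v → |r| ≤ 1 / 2) ∧ (H.Adj u v → r ≤ 1 / 2 ^ (J + 1) ∨ x u = - s)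

theorem okV_zero (H : SimpleGraph V) (x : V → ℤ) (s : ℤ) (J : ℕ) (u v : V) :
    OkV H x s J u v 0 := by
  refine ⟨by simp, fun _ => by simp, fun _ => Or.inl (by positivity)⟩

section levels

variable {H : SimpleGraph V} {nn : V → V} {x : V → ℤ} {s : ℤ} {J : ℕ} {t : V}

/-- The state after an even number of steps. -/
structure Ev (G : SimpleGraph V) (H : SimpleGraph V) (nn : V → V) (x : V → ℤ) (s : ℤ) (J : ℕ)
    (t : V) (j : ℕ) (φ : V → V → ℝ) (w : V → ℝ) : Prop where
  fl : Fl G t (2 * j) φ w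
  ok : ∀ u v, OkV H x s J u v (φ u v)
  wl : ∀ v, w v ≤ 1 / 2 ^ j
  out : ∀ v, w v ≠ 0 → nn v ∉ Bl G.Adj (2 * j) t
  fav : ∀ v, w v ≠ 0 → FavD H nn x s (J - j) v
  ht : ∀ v, H.Adj t v → φ t v = 0

theorem ev_zero (hHN : HN G H nn) (hfav : FavD H nn x s J t) :
    Ev G H nn x s J t 0 (fun _ _ => 0) (fun v => if v = t then 1 else 0) := by
  have hw : ∀ v, (if v = t then (1 : ℝ) else 0) ≠ 0 → v = t := by
    intro v h
    by_contra hcon
    exact h (if_neg hcon)
  refine ⟨⟨fun _ _ => by simp, fun u v h => absurd rfl h, fun v => by split_ifs <;> norm_num,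
    fun v h => ⟨by rw [hw v h]; exact Bl_self _ _, Or.inl rfl⟩, by simp, fun v => by simp⟩,
    fun u v => okV_zero H x s J u v, fun v => by split_ifs <;> norm_num, fun v h => ?_,
    fun v h => ?_, fun _ _ => rfl⟩
  · rw [hw v h]
    intro h1
    have h2 : nn t ∈ Bl G.Adj 0 t := h1
    rw [mem_Bl_zero] at h2
    exact (hHN.adj t).ne h2.symm
  · rw [hw v h]
    exact hfav

/-- Two steps against the base flow. -/
theorem ev_succ (h3 : ∀ v, G.degree v = 3) {k : ℕ} (hg : Gir G k) (hHN : HN G H nn) {j : ℕ}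
    (hj : j < J) (hk : 3 * 2 ^ (2 * j + 2) < k) {φ : V → V → ℝ} {w : V → ℝ}
    (h : Ev G H nn x s J t j φ w) : ∃ φ' w', Ev G H nn x s J t (j + 1) φ' w' := by
  have hk1 : 3 * 2 ^ (2 * j + 1) < k := by
    have : 2 ^ (2 * j + 1) < 2 ^ (2 * j + 2) := Nat.pow_lt_pow_right (by norm_num) (by omega)
    omega
  have hk0 : 3 * 2 ^ (2 * j) < k := by
    have : 2 ^ (2 * j) < 2 ^ (2 * j + 1) := Nat.pow_lt_pow_right (by norm_num) (by omega)
    omega
  have hpow : (1 : ℝ) / 2 ^ j ≤ 1 := by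
    rw [div_le_one (by positivity)]
    exact one_le_pow₀ (by norm_num)
  -- through the edges outside `H`
  set g : V → V → ℝ := fun u v => if v = nn u then w u else 0 with hgdef
  have gne : ∀ u v, g u v ≠ 0 → v = nn u ∧ w u ≠ 0 := by
    intro u v hne
    by_cases h1 : v = nn u
    · refine ⟨h1, fun h2 => hne ?_⟩
      simp only [hgdef]
      rw [if_pos h1, h2]
    · exact absurd (if_neg h1) hne
  have gle : ∀ u v, g u v ≤ 1 / 2 ^ j := by
    intro u v
    simp only [hgdef]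
    split_ifs
    · exact h.wl u
    · positivity
  have g0 : ∀ u v, 0 ≤ g u v := by
    intro u v
    simp only [hgdef]
    split_ifs
    · exact h.fl.w0 u
    · exact le_rfl
  obtain ⟨hF, hval, hw⟩ := h.fl.push h3 hg hk0 g0
    (fun u v hne => by
      obtain ⟨h1, h2⟩ := gne u v hne
      rw [h1]
      exact ⟨hHN.adj u, (h.fl.ws u h2).1, h.out u h2⟩)
    (fun u => by simp [hgdef]) (c := 1 / 2 ^ j) (by positivity) gle
  set φ₁ : V → V → ℝ := fun u v => φ u v + g u v - g v u with hφ₁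
  set w₁ : V → ℝ := fun v => ∑ u, g u v with hw₁
  have notH : ∀ u, ¬ H.Adj u (nn u) := fun u hH => ((hHN.iff _ _ (hHN.adj u)).1 hH) rfl
  have notH' : ∀ u, ¬ H.Adj (nn u) u := fun u hH => notH u hH.symm
  have ok₁ : ∀ u v, OkV H x s J u v (φ₁ u v) := by
    intro u v
    rcases hval u v with h1 | ⟨h0, h1⟩ | ⟨h0, h1⟩
    · show OkV H x s J u v (φ u v + g u v - g v u)
      rw [h1]; exact h.ok u v
    · show OkV H x s J u v (φ u v + g u v - g v u)
      rw [h1]
      obtain ⟨h2, -⟩ := gne u v h0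
      subst h2
      exact ⟨by rw [abs_of_nonneg (g0 _ _)]; exact (gle _ _).trans hpow,
        fun hH => absurd hH (notH u), fun hH => absurd hH (notH u)⟩
    · show OkV H x s J u v (φ u v + g u v - g v u)
      rw [h1]
      obtain ⟨h2, -⟩ := gne v u h0
      subst h2
      exact ⟨by rw [abs_neg, abs_of_nonneg (g0 _ _)]; exact (gle _ _).trans hpow,
        fun hH => absurd hH (notH' v), fun hH => absurd hH (notH' v)⟩
  -- the new weights
  have w1ne : ∀ y, w₁ y ≠ 0 → ∃ u, w u ≠ 0 ∧ y = nn u := by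
    intro y hy
    have h1 : ∃ u, g u y ≠ 0 := by
      by_contra hcon
      push Not at hcon
      exact hy (sum_eq_zero fun u _ => hcon u)
    obtain ⟨u, hu⟩ := h1
    obtain ⟨h2, h4⟩ := gne u y hu
    exact ⟨u, h4, h2⟩
  have out1 : ∀ y, w₁ y ≠ 0 → ((Bl G.Adj (2 * j + 1) t)ᶜ).filter (fun v => G.Adj y v) =
      (G.neighborFinset y).erase (nn y) := by
    intro y hy
    obtain ⟨u, hu, rfl⟩ := w1ne y hy
    obtain ⟨h1, h2⟩ := hF.ws _ hy
    have h2' : nn u ∉ Bl G.Adj (2 * j) t := by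
      rcases h2 with h2 | h2
      · omega
      · simpa using h2
    rw [hHN.inv u]
    refine outer_nb h3 hg hk1 h1 h2' (Bl_mono (by omega) _ (h.fl.ws u hu).1) ?_
    exact (hHN.adj u).symm
  -- through the edges of `H`
  set g₂ : V → V → ℝ := fun y v =>
    if v ∈ (G.neighborFinset y).erase (nn y) then w₁ y / 2 else 0 with hg₂
  have g2ne : ∀ y v, g₂ y v ≠ 0 → H.Adj y v ∧ G.Adj y v ∧ w₁ y ≠ 0 ∧ g₂ y v = w₁ y / 2 := by
    intro y v hne
    by_cases h1 : v ∈ (G.neighborFinset y).erase (nn y)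
    · have h2 : g₂ y v = w₁ y / 2 := if_pos h1
      rw [mem_erase, mem_neighborFinset] at h1
      refine ⟨(hHN.iff y v h1.2).2 h1.1, h1.2, fun h4 => hne ?_, h2⟩
      rw [h2, h4]; simp
    · exact absurd (if_neg h1) hne
  have hwl1 : ∀ y, w₁ y ≤ 1 / 2 ^ j := hw
  have g2le : ∀ u v, g₂ u v ≤ 1 / 2 ^ (j + 1) := by
    intro u v
    simp only [hg₂]
    split_ifs
    · have := hwl1 u
      rw [pow_succ, ← div_div]
      linarith
    · positivity
  have g20 : ∀ u v, 0 ≤ g₂ u v := by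
    intro u v
    simp only [hg₂]
    split_ifs
    · have := hF.w0 u
      linarith
    · exact le_rfl
  obtain ⟨hF2, hval2, hw2⟩ := hF.push h3 hg hk1 g20
    (fun u v hne => by
      obtain ⟨h1, h2, h4, h5⟩ := g2ne u v hne
      refine ⟨h2, (hF.ws u h4).1, ?_⟩
      have h6 := out1 u h4
      have h7 : v ∈ (G.neighborFinset u).erase (nn u) := by
        rw [mem_erase, mem_neighborFinset]
        exact ⟨(hHN.iff u v h2).1 h1, h2⟩
      rw [← h6, mem_filter, mem_compl] at h7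
      exact h7.1)
    (fun u => by
      have h1 : ∑ v, g₂ u v = ∑ v ∈ (G.neighborFinset u).erase (nn u), w₁ u / 2 := by
        simp only [hg₂]
        rw [sum_ite_mem, univ_inter]
      rw [h1, sum_const, card_erase_of_mem (by rw [mem_neighborFinset]; exact hHN.adj u),
        card_neighborFinset_eq_degree, h3, nsmul_eq_mul]
      push_cast
      ring) (c := 1 / 2 ^ (j + 1)) (by positivity) g2le
  have hpow2 : (1 : ℝ) / 2 ^ (j + 1) ≤ 1 / 2 := by
    rw [div_le_div_iff₀ (by positivity) (by norm_num), pow_succ]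
    have : (1 : ℝ) ≤ 2 ^ j := one_le_pow₀ (by norm_num)
    linarith
  have w2ne : ∀ v, ∑ u, g₂ u v ≠ 0 → ∃ y, w₁ y ≠ 0 ∧ H.Adj y v := by
    intro v hv
    have h1 : ∃ u, g₂ u v ≠ 0 := by
      by_contra hcon
      push Not at hcon
      exact hv (sum_eq_zero fun u _ => hcon u)
    obtain ⟨u, hu⟩ := h1
    obtain ⟨h2, -, h4, -⟩ := g2ne u v hu
    exact ⟨u, h4, h2⟩
  refine ⟨_, _, ⟨by rw [show 2 * (j + 1) = 2 * j + 1 + 1 by ring]; exact hF2, ?_, hw2, ?_, ?_,
    ?_⟩⟩
  · intro u v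
    rcases hval2 u v with h1 | ⟨h0, h1⟩ | ⟨h0, h1⟩
    · show OkV H x s J u v (φ₁ u v + g₂ u v - g₂ v u)
      rw [h1]; exact ok₁ u v
    · show OkV H x s J u v (φ₁ u v + g₂ u v - g₂ v u)
      rw [h1]
      obtain ⟨-, -, h4, -⟩ := g2ne u v h0
      obtain ⟨a, ha, hua⟩ := w1ne u h4
      have hfa := h.fav a ha
      obtain ⟨i, hi⟩ : ∃ i, J - j = i + 1 := ⟨J - j - 1, by omega⟩
      rw [hi] at hfa
      refine ⟨?_, fun _ => ?_, fun _ => Or.inr (by rw [hua]; exact hfa.1)⟩
      · rw [abs_of_nonneg (g20 _ _)]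
        exact (g2le _ _).trans (hpow2.trans (by norm_num))
      · rw [abs_of_nonneg (g20 _ _)]
        exact (g2le _ _).trans hpow2
    · show OkV H x s J u v (φ₁ u v + g₂ u v - g₂ v u)
      rw [h1]
      refine ⟨?_, fun _ => ?_, fun _ => Or.inl ?_⟩
      · rw [abs_neg, abs_of_nonneg (g20 _ _)]
        exact (g2le _ _).trans (hpow2.trans (by norm_num))
      · rw [abs_neg, abs_of_nonneg (g20 _ _)]
        exact (g2le _ _).trans hpow2
      · have := g20 v u
        have h5 : (0 : ℝ) ≤ 1 / 2 ^ (J + 1) := by positivity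
        linarith
  · intro v hv
    obtain ⟨y, hy, hyv⟩ := w2ne v hv
    have hGyv := hHN.sub _ _ hyv
    obtain ⟨h1, h2⟩ := hF2.ws v hv
    have h2' : v ∉ Bl G.Adj (2 * j + 1) t := by
      rcases h2 with h2 | h2
      · omega
      · simpa using h2
    have h4 := outer_nb h3 hg hk h1 h2' (Bl_mono (by omega) _ (hF.ws y hy).1) hGyv.symm
    have h5 : nn v ∈ (G.neighborFinset v).erase y := by
      rw [mem_erase, mem_neighborFinset]
      refine ⟨fun h6 => ?_, hHN.adj v⟩
      rw [← h6] at hyv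
      exact notH' v hyv
    rw [← h4, mem_filter, mem_compl] at h5
    exact h5.1
  · intro v hv
    obtain ⟨y, hy, hyv⟩ := w2ne v hv
    obtain ⟨a, ha, hya⟩ := w1ne y hy
    have hfa := h.fav a ha
    obtain ⟨i, hi⟩ : ∃ i, J - j = i + 1 := ⟨J - j - 1, by omega⟩
    rw [hi] at hfa
    rw [show J - (j + 1) = i by omega]
    exact hfa.2 v (by rw [← hya]; exact hyv)
  · intro v hv
    show φ₁ t v + g₂ t v - g₂ v t = 0
    have h1 : g₂ v t = 0 := by
      by_contra hne
      obtain ⟨-, -, h4, -⟩ := g2ne v t hne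
      have h6 := out1 v h4
      have h7 : t ∈ (G.neighborFinset v).erase (nn v) := by
        rw [mem_erase, mem_neighborFinset]
        have h8 := hHN.sub _ _ hv
        exact ⟨(hHN.iff v t h8.symm).1 hv.symm, h8.symm⟩
      rw [← h6, mem_filter, mem_compl] at h7
      exact h7.1 (Bl_self _ _)
    have h2 : g₂ t v = 0 := by
      by_contra hne
      obtain ⟨-, -, h4, -⟩ := g2ne t v hne
      obtain ⟨a, ha, hta⟩ := w1ne t h4
      exact (h.out a ha) (by rw [← hta]; exact Bl_self _ _)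
    have h4 : φ₁ t v = 0 := by
      show φ t v + g t v - g v t = 0
      have h5 : g t v = 0 := by
        by_contra hne
        obtain ⟨h6, -⟩ := gne t v hne
        rw [h6] at hv
        exact notH t hv
      have h6 : g v t = 0 := by
        by_contra hne
        obtain ⟨h6, -⟩ := gne v t hne
        rw [h6] at hv
        exact notH' v hv
      rw [h.ht v hv, h5, h6]; ring
    rw [h4, h2, h1]; ring

/-- The state when the load is small everywhere on the sphere. -/
structure Sp2 (G : SimpleGraph V) (H : SimpleGraph V) (x : V → ℤ) (s : ℤ) (J : ℕ)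
    (t : V) (i : ℕ) (φ : V → V → ℝ) (w : V → ℝ) : Prop where
  fl : Fl G t (2 * J + i) φ w
  ok : ∀ u v, OkV H x s J u v (φ u v)
  wl : ∀ v, w v ≤ 1 / 2 ^ (J + i)
  ht : ∀ v, H.Adj t v → φ t v = 0

theorem sp2_succ (h3 : ∀ v, G.degree v = 3) {k : ℕ} (hg : Gir G k) (hHN : HN G H nn) {i : ℕ}
    (hJ : 1 ≤ J) (hk : 3 * 2 ^ (2 * J + i) < k) {φ : V → V → ℝ} {w : V → ℝ}
    (h : Sp2 G H x s J t i φ w) : ∃ φ' w', Sp2 G H x s J t (i + 1) φ' w' := by
  obtain ⟨n, hn⟩ : ∃ n, 2 * J + i = n + 1 := ⟨2 * J + i - 1, by omega⟩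
  have hfl := h.fl
  rw [hn] at hfl hk
  set g : V → V → ℝ := fun u v => if v ∈ (Bl G.Adj (n + 1) t)ᶜ ∧ G.Adj u v then w u / 2 else 0
    with hgdef
  have gcase : ∀ u v, g u v ≠ 0 → v ∉ Bl G.Adj (n + 1) t ∧ G.Adj u v ∧ w u ≠ 0 ∧
      g u v = w u / 2 := by
    intro u v hne
    by_cases h1 : v ∈ (Bl G.Adj (n + 1) t)ᶜ ∧ G.Adj u v
    · have h2 : g u v = w u / 2 := if_pos h1
      refine ⟨mem_compl.1 h1.1, h1.2, fun h4 => hne ?_, h2⟩
      rw [h2, h4]; simp
    · exact absurd (if_neg h1) hne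
  have gle : ∀ u v, g u v ≤ 1 / 2 ^ (J + (i + 1)) := by
    intro u v
    simp only [hgdef]
    split_ifs
    · have := h.wl u
      rw [← add_assoc, pow_succ, ← div_div]
      linarith
    · positivity
  have g0 : ∀ u v, 0 ≤ g u v := by
    intro u v
    simp only [hgdef]
    split_ifs
    · have := h.fl.w0 u
      linarith
    · exact le_rfl
  obtain ⟨hF, hval, hw⟩ := hfl.push h3 hg hk g0
    (fun u v hne => by
      obtain ⟨h1, h2, h4, -⟩ := gcase u v hne
      exact ⟨h2, (hfl.ws u h4).1, h1⟩)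
    (fun u => by
      by_cases hu : w u = 0
      · rw [hu]
        refine sum_eq_zero fun v _ => ?_
        simp only [hgdef]
        rw [hu]
        simp
      · obtain ⟨h1, h2⟩ := hfl.ws u hu
        have h5 : u ∉ Bl G.Adj n t := by
          rcases h2 with h2 | h2
          · omega
          · simpa using h2
        have h6 := nb_sphere h3 hg hk h1 h5
        have h7 : ∑ v, g u v = ∑ v ∈ ((Bl G.Adj (n + 1) t)ᶜ).filter (fun v => G.Adj u v),
            w u / 2 := by
          have e1 : ((Bl G.Adj (n + 1) t)ᶜ).filter (fun v => G.Adj u v) =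
              univ.filter fun v => v ∈ (Bl G.Adj (n + 1) t)ᶜ ∧ G.Adj u v := by
            ext v; simp
          rw [e1, sum_filter]
        rw [h7, sum_const]
        have h8 : (((Bl G.Adj (n + 1) t)ᶜ).filter (fun v => G.Adj u v)).card = 2 := h6
        rw [h8, nsmul_eq_mul]
        push_cast
        ring) (c := 1 / 2 ^ (J + (i + 1))) (by positivity) gle
  have hpow : (1 : ℝ) / 2 ^ (J + (i + 1)) ≤ 1 / 2 ^ (J + 1) := by
    refine one_div_le_one_div_of_le (by positivity) ?_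
    exact pow_le_pow_right₀ (by norm_num) (by omega)
  have hpow2 : (1 : ℝ) / 2 ^ (J + 1) ≤ 1 / 2 := by
    rw [div_le_div_iff₀ (by positivity) (by norm_num), pow_succ]
    have : (1 : ℝ) ≤ 2 ^ J := one_le_pow₀ (by norm_num)
    linarith
  refine ⟨_, _, ⟨by rw [← add_assoc, hn]; exact hF, ?_, hw, ?_⟩⟩
  · intro u v
    rcases hval u v with h1 | ⟨h0, h1⟩ | ⟨h0, h1⟩
    · show OkV H x s J u v (φ u v + g u v - g v u)
      rw [h1]; exact h.ok u v
    · show OkV H x s J u v (φ u v + g u v - g v u)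
      rw [h1]
      have h5 := (gle u v).trans hpow
      refine ⟨?_, fun _ => ?_, fun _ => Or.inl h5⟩
      · rw [abs_of_nonneg (g0 _ _)]
        exact h5.trans (hpow2.trans (by norm_num))
      · rw [abs_of_nonneg (g0 _ _)]
        exact h5.trans hpow2
    · show OkV H x s J u v (φ u v + g u v - g v u)
      rw [h1]
      have h5 := (gle v u).trans hpow
      refine ⟨?_, fun _ => ?_, fun _ => Or.inl ?_⟩
      · rw [abs_neg, abs_of_nonneg (g0 _ _)]
        exact h5.trans (hpow2.trans (by norm_num))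
      · rw [abs_neg, abs_of_nonneg (g0 _ _)]
        exact h5.trans hpow2
      · have := g0 v u
        have h5 : (0 : ℝ) ≤ 1 / 2 ^ (J + 1) := by positivity
        linarith
  · intro v hv
    show φ t v + g t v - g v t = 0
    have h1 : g t v = 0 := by
      by_contra hne
      obtain ⟨-, -, h4, -⟩ := gcase t v hne
      have h5 := (hfl.ws t h4).2
      rcases h5 with h5 | h5
      · omega
      · exact h5 (Bl_self _ _)
    have h2 : g v t = 0 := by
      by_contra hne
      obtain ⟨h4, -⟩ := gcase v t hne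
      exact h4 (Bl_self _ _)
    rw [h.ht v hv, h1, h2]; ring

end levels

/-- W6: one end `t` of a favourable defect. -/
theorem smear_defect (h3 : ∀ v, G.degree v = 3) {k a J : ℕ} (hg : Gir G k)
    (hk : 3 * 2 ^ a < k) (hJ : 1 ≤ J) (hJa : 2 * J ≤ a) {H : SimpleGraph V} {nn : V → V}
    (hHN : HN G H nn) {x : V → ℤ} {s : ℤ} {t : V} (hfav : FavD H nn x s J t) :
    ∃ (φ : V → V → ℝ) (w : V → ℝ), (∀ u v, φ u v = - φ v u) ∧
      (∀ u v, φ u v ≠ 0 → G.Adj u v ∧ u ∈ Bl G.Adj a t ∧ v ∈ Bl G.Adj a t) ∧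
      (∀ u v, |φ u v| ≤ 1) ∧ (∀ u v, H.Adj u v → |φ u v| ≤ 1 / 2) ∧
      (∀ u v, H.Adj u v → φ u v ≤ 1 / 2 ^ (J + 1) ∨ x u = - s) ∧
      (∀ v, H.Adj t v → φ t v = 0) ∧
      (∀ v, 0 ≤ w v) ∧ (∀ v, w v ≤ 1 / 2 ^ (a - J)) ∧
      (∀ v, w v ≠ 0 → v ∈ Bl G.Adj a t ∧ v ∉ Bl G.Adj (a - 1) t) ∧
      ∑ v, w v = 1 ∧ ∀ v, ∑ u, φ v u = (if v = t then 1 else 0) - w v := by
  have hpk : ∀ n, n ≤ a → 3 * 2 ^ n < k := by
    intro n hn
    have : 2 ^ n ≤ 2 ^ a := Nat.pow_le_pow_right (by norm_num) hn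
    omega
  have hev : ∀ j, j ≤ J → ∃ φ w, Ev G H nn x s J t j φ w := by
    intro j
    induction j with
    | zero => exact fun _ => ⟨_, _, ev_zero hHN hfav⟩
    | succ j ih =>
      intro hj
      obtain ⟨φ, w, h⟩ := ih (by omega)
      exact ev_succ h3 hg hHN (by omega) (hpk _ (by omega)) h
  have hsp : ∀ i, 2 * J + i ≤ a → ∃ φ w, Sp2 G H x s J t i φ w := by
    intro i
    induction i with
    | zero =>
      intro _
      obtain ⟨φ, w, h⟩ := hev J le_rfl
      exact ⟨φ, w, h.fl, h.ok, h.wl, h.ht⟩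
    | succ i ih =>
      intro hi
      obtain ⟨φ, w, h⟩ := ih (by omega)
      exact sp2_succ h3 hg hHN hJ (hpk _ (by omega)) h
  obtain ⟨φ, w, h⟩ := hsp (a - 2 * J) (by omega)
  have e1 : 2 * J + (a - 2 * J) = a := by omega
  have hfl := h.fl
  rw [e1] at hfl
  refine ⟨φ, w, hfl.anti, hfl.supp, fun u v => (h.ok u v).1, fun u v => (h.ok u v).2.1,
    fun u v => (h.ok u v).2.2, h.ht, hfl.w0, fun v => ?_, fun v hv => ?_, hfl.tot, hfl.div⟩
  · have := h.wl v
    rwa [show J + (a - 2 * J) = a - J by omega] at this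
  · obtain ⟨h1, h2⟩ := hfl.ws v hv
    refine ⟨h1, ?_⟩
    rcases h2 with h2 | h2
    · omega
    · exact h2

end Pool.Agent.K5
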