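import Pool.Agent.Work.MP_974d84_co_k5.Defs5
import Pool.Agent.Work.MP_974d84_co_k5.HoffReal

/-!
# Small real flows outside a set of vertices
-/

set_option linter.unusedSectionVars false

namespace Pool.Agent.K5

open Finset SimpleGraph Pool.Agent.Exp Pool.Agent.Log5 Pool.Agent.Log5.Clu

variable {V : Type} [Fintype V] [DecidableEq V] (G : SimpleGraph V) [DecidableRel G.Adj]

theorem eeD_eq_sum (A B : Finset V) :
    (ee G A B : ℝ) = ∑ v ∈ A, ∑ w ∈ B, (if G.Adj v w then 1 else 0) := by
  unfold ee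
  rw [← sum_product', ← sum_filter, sum_const, nsmul_eq_mul, mul_one]
  congr 2
  ext ⟨u, v⟩
  simp only [mem_filter, mem_univ, true_and, mem_product]
  tauto

/-- **Hoffman's theorem in `G - D`.** -/
theorem hoffD (D : Finset V) {s : V → ℝ} (h0 : ∑ v ∈ Dᶜ, s v = 0) {b : ℝ} (hb : 0 ≤ b)
    (hs : ∀ S : Finset V, Disjoint S D → |∑ v ∈ S, s v| ≤ b * ee G S (S ∪ D)ᶜ) :
    ∃ g : V → V → ℝ, (∀ u v, g u v = - g v u) ∧
      (∀ u v, g u v ≠ 0 → G.Adj u v ∧ u ∉ D ∧ v ∉ D) ∧ (∀ u v, |g u v| ≤ b) ∧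
      ∀ v, v ∉ D → ∑ u, g v u = s v := by
  classical
  let om : V → V → ℝ := fun u v => if G.Adj u v ∧ u ∉ D ∧ v ∉ D then b else 0
  let w : V → ℝ := fun v => if v ∈ D then 0 else s v
  have hom : ∀ u v, 0 ≤ om u v := by
    intro u v
    simp only [om]
    split_ifs <;> linarith
  have homb : ∀ u v, om u v ≤ b := by
    intro u v
    simp only [om]
    split_ifs <;> linarith
  have homs : ∀ u v, om u v = om v u := by
    intro u v
    simp only [om, G.adj_comm u v, and_comm (a := u ∉ D)]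
  have hw : ∑ v, w v = 0 := by
    rw [← h0, ← sum_add_sum_compl D, sum_congr rfl (fun v hv => if_pos hv), sum_const_zero,
      zero_add]
    exact sum_congr rfl fun v hv => if_neg (mem_compl.1 hv)
  have hwZ : ∀ Z : Finset V, ∑ v ∈ Z, w v = ∑ v ∈ Z \ D, s v := by
    intro Z
    have h1 : Z \ D = Z.filter fun v => v ∉ D := by
      ext v
      simp [mem_sdiff]
    rw [h1, sum_filter]
    refine sum_congr rfl fun v _ => ?_
    by_cases h : v ∈ D <;> simp [w, h]
  have hcut : ∀ Z : Finset V, ∑ v ∈ Z, ∑ u ∈ Zᶜ, om v u = b * ee G (Z \ D) (Z \ D ∪ D)ᶜ := by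
    intro Z
    have h1 : Z \ D = Z.filter fun v => v ∉ D := by
      ext v
      simp [mem_sdiff]
    have h2 : (Z \ D ∪ D)ᶜ = Zᶜ.filter fun v => v ∉ D := by
      ext v
      simp only [mem_compl, mem_union, mem_sdiff, mem_filter]
      tauto
    rw [eeD_eq_sum, h2, h1, sum_filter, mul_sum]
    refine sum_congr rfl fun v _ => ?_
    by_cases hv : v ∈ D
    · rw [if_neg (not_not.2 hv), mul_zero]
      exact sum_eq_zero fun u _ => if_neg fun h => h.2.1 hv
    · rw [if_pos hv, sum_filter, mul_sum]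
      refine sum_congr rfl fun u _ => ?_
      by_cases hu : u ∈ D
      · rw [if_neg (not_not.2 hu), mul_zero]
        exact if_neg fun h => h.2.2 hu
      · rw [if_pos hu]
        by_cases ha : G.Adj v u <;> simp [om, hv, hu, ha]
  obtain ⟨g, hg1, hg2, hg3⟩ := hoffman_real om hom w hw (by
    intro Z
    rw [hwZ, hcut]
    exact le_trans (le_abs_self _) (hs _ sdiff_disjoint))
  refine ⟨g, hg1, ?_, ?_, ?_⟩
  · intro u v huv
    by_contra hno
    apply huv
    have e1 : om u v = 0 := if_neg hno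
    have h1 := hg2 u v
    have h2 := hg2 v u
    rw [← homs, e1] at h2
    rw [e1] at h1
    have h3 := hg1 u v
    linarith
  · intro u v
    have h1 := hg2 u v
    have h2 := hg2 v u
    have h3 := hg1 u v
    have h4 := homb u v
    have h5 := homb v u
    rw [abs_le]
    constructor <;> linarith
  · intro v hv
    rw [hg3 v]
    exact if_neg hv

end Pool.Agent.K5
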