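import Mathlib
import Pool.Agent.Work.MP_974d84_co_k5.HoffD
import Pool.Agent.Work.MP_974d84_co.Defs

/-!
# Gluing highly connected pieces: basic notions
-/

set_option linter.unusedSectionVars false

namespace Pool.Agent.K5.Gl

open Finset SimpleGraph Pool.Agent.Exp Pool.Agent.K5

variable {V : Type} [Fintype V] [DecidableEq V] (G : SimpleGraph V) [DecidableRel G.Adj]

/-- The number of neighbours of `v` in `Q`. -/
def dg (Q : Finset V) (v : V) : ℕ := (Q.filter fun w => G.Adj v w).card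

/-- The special vertices of `Q`: those with exactly two neighbours in `Q`. -/
def sp (Q : Finset V) : Finset V := Q.filter fun v => dg G Q v = 2

/-- The set `X` contains the vertices of a cycle. -/
def Cyc (X : Finset V) : Prop := ¬ (G.induce (X : Set V)).IsAcyclic

/-- A piece with parameter `K`. -/
structure St (K : ℕ) (Q : Finset V) : Prop where
  deg : ∀ v ∈ Q, dg G Q v = 2 ∨ dg G Q v = 3
  gir : ∀ X ⊆ Q, X.card < K → (G.induce (X : Set V)).IsAcyclic
  far : ∀ X ⊆ Q, Joined G X → ∀ u ∈ X ∩ sp G Q, ∀ v ∈ X ∩ sp G Q, u ≠ v → K ≤ X.card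
  cut : ∀ X ⊆ Q, Cyc G X → Cyc G (Q \ X) →
    K * (1 + min (X ∩ sp G Q).card ((Q \ X) ∩ sp G Q).card) ≤ ee G X (Q \ X)

/-- A real flow on the edges inside `Q` with values between 1 and `r` and net outflow `b`. -/
def Sol (Q : Finset V) (r : ℝ) (b : V → ℝ) : Prop :=
  ∃ f : V → V → ℝ, (∀ u v, f u v = - f v u) ∧ (∀ u v, f u v ≠ 0 → G.Adj u v ∧ u ∈ Q ∧ v ∈ Q) ∧
    (∀ u ∈ Q, ∀ v ∈ Q, G.Adj u v → 1 ≤ |f u v| ∧ |f u v| ≤ r) ∧ ∀ v ∈ Q, ∑ u, f v u = b v

/-- The suppressed graph of `Q`: the vertices with three neighbours in `Q`. -/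
def ST (Q : Finset V) : Type := {v : V // v ∈ Q ∧ dg G Q v = 3}

instance (Q : Finset V) : Fintype (ST G Q) := by unfold ST; infer_instance
instance (Q : Finset V) : DecidableEq (ST G Q) := by unfold ST; infer_instance

/-- Adjacency of the suppressed graph. -/
def sup (Q : Finset V) : SimpleGraph (ST G Q) where
  Adj v w := v ≠ w ∧ (G.Adj v.1 w.1 ∨ ∃ u ∈ sp G Q, G.Adj v.1 u ∧ G.Adj u w.1)
  symm := ⟨fun v w h => ⟨h.1.symm, by
    rcases h.2 with h2 | ⟨u, hu, h3, h4⟩
    · exact Or.inl h2.symm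
    · exact Or.inr ⟨u, hu, h4.symm, h3.symm⟩⟩⟩
  loopless := ⟨fun v h => h.1 rfl⟩

instance (Q : Finset V) : DecidableRel (sup G Q).Adj := by
  intro v w
  unfold sup
  infer_instance

end Pool.Agent.K5.Gl
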