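import Mathlib
import Pool.Agent.Work.MP_974d84_co_k5.DefsM

/-!
# The matroid form (MG) with large cogirth: basic notions
-/

set_option linter.unusedSectionVars false

namespace Pool.Agent.K5.Mat

open Finset SimpleGraph

variable {ι : Type} [Fintype ι] [DecidableEq ι]

/-- If neither `X` nor its complement spans then `X` contains at least `g` different vectors. -/
def GC {m : ℕ} (A : ι → Fin m → ZMod 2) (g : ℕ) : Prop :=
  ∀ X : Set ι, rk A X < rk A Set.univ → rk A Xᶜ < rk A Set.univ → g ≤ (A '' X).ncard

/-- If the edges are divided into two parts with circuits in both then every part has at least `g`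
edges. -/
def GConn {V : Type} (G : SimpleGraph V) (g : ℕ) : Prop :=
  ∀ H : SimpleGraph V, H ≤ G → ¬ H.IsAcyclic → ¬ (G \ H).IsAcyclic → g ≤ H.edgeSet.ncard

end Pool.Agent.K5.Mat
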