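import Mathlib
import Pool.Agent.Work.MP_974d84_co_k5.CoreFactsA
import Pool.Agent.Work.MP_974d84_co_log.BigOf
import Pool.Agent.Work.MP_974d84_co_log.Cluster
import Pool.Agent.Work.MP_974d84_co_log.Girth

/-!
# Dense vertex sets in cubic graphs of large girth are exponentially large
-/

set_option linter.unusedSectionVars false

namespace Pool.Agent.K5.Dense

open Finset SimpleGraph Pool.Agent.Exp Pool.Agent.Log5 Pool.Agent.Log5.Clu Pool.Agent.K5

variable {V : Type} [Fintype V] [DecidableEq V] {G : SimpleGraph V} [DecidableRel G.Adj]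

theorem joined_share {A B : Finset V} (hA : Joined G A) (hB : Joined G B) {x : V} (hx : x ∈ A)
    (hx' : x ∈ B) : Joined G (A ∪ B) := by
  intro C hC hCn hCne
  by_cases h1 : (C ∩ A).Nonempty ∧ ¬ A ⊆ C
  · obtain ⟨u, hu, v, hv, hvu, huv⟩ := hA (C ∩ A) inter_subset_right h1.1
      (fun h => h1.2 (inter_eq_right.1 h))
    exact ⟨u, (mem_inter.1 hu).1, v, mem_union_left _ hv, fun h => hvu (mem_inter.2 ⟨h, hv⟩), huv⟩
  by_cases h2 : (C ∩ B).Nonempty ∧ ¬ B ⊆ C
  · obtain ⟨u, hu, v, hv, hvu, huv⟩ := hB (C ∩ B) inter_subset_right h2.1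
      (fun h => h2.2 (inter_eq_right.1 h))
    exact ⟨u, (mem_inter.1 hu).1, v, mem_union_right _ hv, fun h => hvu (mem_inter.2 ⟨h, hv⟩), huv⟩
  push Not at h1 h2
  exfalso
  obtain ⟨z, hz⟩ := hCn
  rcases mem_union.1 (hC hz) with h | h
  · have hAC := h1 ⟨z, mem_inter.2 ⟨hz, h⟩⟩
    have hBC := h2 ⟨x, mem_inter.2 ⟨hAC hx, hx'⟩⟩
    exact hCne (Subset.antisymm hC (union_subset hAC hBC))
  · have hBC := h2 ⟨z, mem_inter.2 ⟨hz, h⟩⟩
    have hAC := h1 ⟨x, mem_inter.2 ⟨hBC hx', hx⟩⟩
    exact hCne (Subset.antisymm hC (union_subset hAC hBC))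

/-- Two neighbours of a vertex outside a small joined set do not exist below the girth. -/
theorem nb_joined_le (h3 : ∀ v, G.degree v = 3) {g : ℕ} (hg : Gir G g) {T : Finset V}
    (hT : Joined G T) (hne : T.Nonempty) (hc : T.card + 1 < g) {w : V} (hw : w ∉ T) :
    nb G T w ≤ 1 := by
  by_contra hcon
  have h1 := dd_insert h3 hw
  have h2 := dd_le_of_joined h3 hT hne
  have h4 := card_insert_of_notMem hw
  have h5 := dd_of_acyclic G h3 (insert_nonempty w T) (hg (insert w T) (by omega))
  omega

theorem two_of_nb {S : Finset V} {w : V} (h : 2 ≤ nb G S w) :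
    ∃ x ∈ S, ∃ y ∈ S, x ≠ y ∧ G.Adj w x ∧ G.Adj w y := by
  unfold nb at h
  obtain ⟨x, hx, y, hy, hne⟩ := one_lt_card.1 (by omega : 1 < (S.filter fun v => G.Adj w v).card)
  rw [mem_filter] at hx hy
  exact ⟨x, hx.1, y, hy.1, hne, hx.2, hy.2⟩

theorem nb_ge_two {T : Finset V} {w x y : V} (hx : x ∈ T) (hy : y ∈ T) (hne : x ≠ y)
    (h1 : G.Adj w x) (h2 : G.Adj w y) : 2 ≤ nb G T w := by
  unfold nb
  exact one_lt_card.2 ⟨x, mem_filter.2 ⟨hx, h1⟩, y, mem_filter.2 ⟨hy, h2⟩, hne⟩

/-- A vertex of a ball is joined to the centre by few vertices of the ball. -/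
theorem path_of_Bl {U : Finset V} {u : V} (hu : u ∈ U) :
    ∀ n w, w ∈ Bl (RW G U) n u → ∃ A ⊆ Bl (RW G U) n u, Joined G A ∧ u ∈ A ∧ w ∈ A ∧
      A.card ≤ n + 1 := by
  intro n
  induction n with
  | zero =>
    intro w hw
    rw [mem_Bl_zero] at hw
    subst hw
    exact ⟨{w}, singleton_subset_iff.2 (Bl_self 0 w), joined_singleton w, mem_singleton_self w,
      mem_singleton_self w, by rw [card_singleton]⟩
  | succ n ih =>
    intro w hw
    rcases mem_Bl_succ.1 hw with h | ⟨x, hx, hxw⟩
    · obtain ⟨A, h1, h2, h4, h5, h6⟩ := ih w h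
      exact ⟨A, h1.trans (Bl_mono (Nat.le_succ n) u), h2, h4, h5, by omega⟩
    · obtain ⟨A, h1, h2, h4, h5, h6⟩ := ih x hx
      refine ⟨A ∪ {w}, union_subset (h1.trans (Bl_mono (Nat.le_succ n) u))
        (singleton_subset_iff.2 hw), joined_union h2 (joined_singleton w) h5
        (mem_singleton_self w) hxw.1, mem_union_left _ h4,
        mem_union_right _ (mem_singleton_self w), ?_⟩
      have := card_union_le A {w}
      rw [card_singleton] at this
      omega

/-- A vertex of the next ball is joined to the centre by few vertices of the ball and itself. -/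
theorem path_of_Bl' {U : Finset V} {u : V} (hu : u ∈ U) {n : ℕ} {w : V}
    (hw : w ∈ Bl (RW G U) (n + 1) u) : ∃ A ⊆ insert w (Bl (RW G U) n u), Joined G A ∧ u ∈ A ∧
      w ∈ A ∧ A.card ≤ n + 2 := by
  rcases mem_Bl_succ.1 hw with h | ⟨x, hx, hxw⟩
  · obtain ⟨A, h1, h2, h4, h5, h6⟩ := path_of_Bl hu n w h
    exact ⟨A, h1.trans (subset_insert _ _), h2, h4, h5, by omega⟩
  · obtain ⟨A, h1, h2, h4, h5, h6⟩ := path_of_Bl hu n x hx
    refine ⟨A ∪ {w}, union_subset (h1.trans (subset_insert _ _))
      (singleton_subset_iff.2 (mem_insert_self _ _)), joined_union h2 (joined_singleton w) h5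
      (mem_singleton_self w) hxw.1, mem_union_left _ h4,
      mem_union_right _ (mem_singleton_self w), ?_⟩
    have := card_union_le A {w}
    rw [card_singleton] at this
    omega

theorem nb_out_le (h3 : ∀ v, G.degree v = 3) {g : ℕ} (hg : Gir G g) {U : Finset V} {u : V}
    (hu : u ∈ U) {n : ℕ} (hn : 2 * n + 2 < g) {w : V} (hw : w ∉ Bl (RW G U) n u) :
    nb G (Bl (RW G U) n u) w ≤ 1 := by
  by_contra hcon
  obtain ⟨x, hx, y, hy, hne, hwx, hwy⟩ := two_of_nb (G := G) (S := Bl (RW G U) n u) (w := w)
    (by omega)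
  obtain ⟨A, a1, a2, a4, a5, a6⟩ := path_of_Bl hu n x hx
  obtain ⟨B, b1, b2, b4, b5, b6⟩ := path_of_Bl hu n y hy
  have h1 := joined_share a2 b2 a4 b4
  have h2 : (A ∪ B).card + 1 ≤ A.card + B.card := by
    have h4 := card_union_add_card_inter A B
    have h5 : 0 < (A ∩ B).card := card_pos.2 ⟨u, mem_inter.2 ⟨a4, b4⟩⟩
    omega
  have h4 := nb_joined_le h3 hg h1 ⟨u, mem_union_left _ a4⟩ (by omega)
    (w := w) (fun h => hw ((union_subset a1 b1) h))
  have h5 := nb_ge_two (G := G) (mem_union_left B a5) (mem_union_right A b5) hne hwx hwy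
  omega

/-- Below the girth a ball is left by many edges. -/
theorem ball_dd (h3 : ∀ v, G.degree v = 3) {g : ℕ} (hg : Gir G g) {U : Finset V} {u : V}
    (hu : u ∈ U) : ∀ n, 2 * n + 2 < g →
      (Bl (RW G U) n u).card + 2 ≤ dd G (Bl (RW G U) n u) := by
  intro n
  induction n with
  | zero =>
    intro h
    have h1 : Bl (RW G U) 0 u = {u} := by
      ext v
      rw [mem_Bl_zero, mem_singleton]
    rw [h1, card_singleton]
    have h2 := dd_of_acyclic G h3 (singleton_nonempty u) (hg {u} (by rw [card_singleton]; omega))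
    rwa [card_singleton] at h2
  | succ n ih =>
    intro hn
    have h0 := ih (by omega)
    -- adding the new vertices one by one
    have key : ∀ N : Finset V, N ⊆ Bl (RW G U) (n + 1) u → Disjoint (Bl (RW G U) n u) N →
        (Bl (RW G U) n u ∪ N).card + 2 ≤ dd G (Bl (RW G U) n u ∪ N) := by
      intro N
      induction N using Finset.induction_on with
      | empty => intro _ _; rwa [union_empty]
      | @insert w N hwN ihN =>
        intro h1 h2
        have h4 := ihN ((subset_insert _ _).trans h1)
          (disjoint_of_subset_right (subset_insert _ _) h2)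
        have hwB : w ∉ Bl (RW G U) n u := fun h =>
          Finset.disjoint_left.1 h2 h (mem_insert_self _ _)
        have hw : w ∉ Bl (RW G U) n u ∪ N := fun h => (mem_union.1 h).elim hwB hwN
        have h5 : Bl (RW G U) n u ∪ insert w N = insert w (Bl (RW G U) n u ∪ N) :=
          union_insert _ _ _
        have h6 := dd_insert h3 hw
        have h7 := card_insert_of_notMem hw
        have h8 : nb G (Bl (RW G U) n u ∪ N) w ≤ 1 := by
          by_contra hcon
          obtain ⟨x, hx, y, hy, hne, hwx, hwy⟩ := two_of_nb (G := G)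
            (S := Bl (RW G U) n u ∪ N) (w := w) (by omega)
          have hin : ∀ z ∈ Bl (RW G U) n u ∪ N, z ∈ Bl (RW G U) (n + 1) u := fun z hz =>
            (mem_union.1 hz).elim (fun h => Bl_mono (Nat.le_succ n) u h)
              (fun h => h1 (mem_insert_of_mem h))
          obtain ⟨A, a1, a2, a4, a5, a6⟩ := path_of_Bl' hu (hin x hx)
          obtain ⟨B, b1, b2, b4, b5, b6⟩ := path_of_Bl' hu (hin y hy)
          have hwA : w ∉ A ∪ B := by
            intro h
            rcases mem_union.1 h with h | h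
            · rcases mem_insert.1 (a1 h) with rfl | h
              · exact hw hx
              · exact hwB h
            · rcases mem_insert.1 (b1 h) with rfl | h
              · exact hw hy
              · exact hwB h
          have e1 := joined_share a2 b2 a4 b4
          have e2 : (A ∪ B).card + 1 ≤ A.card + B.card := by
            have h4 := card_union_add_card_inter A B
            have h5 : 0 < (A ∩ B).card := card_pos.2 ⟨u, mem_inter.2 ⟨a4, b4⟩⟩
            omega
          have e4 := nb_joined_le h3 hg e1 ⟨u, mem_union_left _ a4⟩ (by omega) hwA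
          have e5 := nb_ge_two (G := G) (mem_union_left B a5) (mem_union_right A b5) hne hwx hwy
          omega
        rw [h5]
        omega
    have h1 := key (Bl (RW G U) (n + 1) u \ Bl (RW G U) n u) sdiff_subset disjoint_sdiff
    rwa [union_sdiff_of_subset (Bl_mono (Nat.le_succ n) u)] at h1

/-- Growth of a ball inside a vertex set. -/
theorem ball_step (h3 : ∀ v, G.degree v = 3) {g : ℕ} (hg : Gir G g) {U : Finset V} {u : V}
    (hu : u ∈ U) {n : ℕ} (hn : 2 * n + 2 < g) :
    (Bl (RW G U) n u).card + ee G (Bl (RW G U) n u) (U \ Bl (RW G U) n u) ≤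
      (Bl (RW G U) (n + 1) u).card := by
  set B := Bl (RW G U) n u with hB
  set B' := Bl (RW G U) (n + 1) u with hB'
  have hBB : B ⊆ B' := Bl_mono (Nat.le_succ n) u
  have hBU : B ⊆ U := Bl_RW_sub hu n
  have h1 : ee G B (U \ B) ≤ (B' \ B).card := by
    rw [ee_comm, ee_sum]
    have h2 : ∑ w ∈ U \ B, (B.filter fun v => G.Adj w v).card ≤
        ∑ w ∈ U \ B, if w ∈ B' \ B then 1 else 0 := by
      refine sum_le_sum fun w hw => ?_
      obtain ⟨hwU, hwB⟩ := mem_sdiff.1 hw
      have h4 : (B.filter fun v => G.Adj w v).card ≤ 1 := nb_out_le h3 hg hu hn hwB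
      split_ifs with h
      · exact h4
      · rw [Nat.le_zero, card_eq_zero, filter_eq_empty_iff]
        intro v hv hwv
        exact h (mem_sdiff.2 ⟨mem_Bl_succ.2 (Or.inr ⟨v, hv, hwv.symm, hBU hv, hwU⟩), hwB⟩)
    refine h2.trans ?_
    rw [← card_filter]
    exact card_le_card fun w hw => (mem_filter.1 hw).2
  have h2 : (B' \ B).card + B.card = B'.card := card_sdiff_add_card_eq_card hBB
  omega

/-- **Dense vertex sets are exponentially large.** -/
theorem dense_big (h3 : ∀ v, G.degree v = 3) {M r g : ℕ} (hM : 2 ≤ M) (hg : Gir G g)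
    (hr : 2 * r + 2 < g) {U : Finset V} (hU : U.Nonempty)
    (h : M * dd G U ≤ (M - 2) * U.card) : 2 ^ (r / M) ≤ U.card := by
  classical
  obtain ⟨m, rfl⟩ : ∃ m, M = m + 2 := ⟨M - 2, by omega⟩
  rw [Nat.add_sub_cancel] at h
  obtain ⟨W, hW, hmin⟩ := exists_min_image (U.powerset.filter fun S : Finset V =>
    S.Nonempty ∧ (m + 2) * dd G S ≤ m * S.card) card
    ⟨U, mem_filter.2 ⟨mem_powerset_self U, hU, h⟩⟩
  obtain ⟨hWU, hWne, hWd⟩ := mem_filter.1 hW
  rw [mem_powerset] at hWU
  refine le_trans ?_ (card_le_card hWU)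
  obtain ⟨u, hu⟩ := hWne
  -- the balls grow
  have hstep : ∀ n, 2 * n + 2 < g → (m + 3) * (Bl (RW G W) n u).card ≤
      (m + 2) * (Bl (RW G W) (n + 1) u).card := by
    intro n hn
    have h1 := ball_dd h3 hg hu n hn
    have h2 := ball_step h3 hg hu hn
    set B := Bl (RW G W) n u with hB
    have hBW : B ⊆ W := Bl_RW_sub hu n
    have hBne : B.Nonempty := ⟨u, Bl_self n u⟩
    have hneq : B ≠ W := by
      intro h
      rw [h] at h1
      have h4 : m * W.card ≤ (m + 2) * W.card := Nat.mul_le_mul_right _ (by omega)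
      have h5 : (m + 2) * (W.card + 2) ≤ (m + 2) * dd G W := Nat.mul_le_mul_left _ h1
      have h6 : (m + 2) * (W.card + 2) = (m + 2) * W.card + 2 * (m + 2) := by ring
      omega
    have hss : W \ B ⊂ W := by
      refine ⟨sdiff_subset, fun h => ?_⟩
      obtain ⟨x, hx⟩ := hBne
      exact (mem_sdiff.1 (h (hBW hx))).2 hx
    have hne : (W \ B).Nonempty := sdiff_nonempty.2 fun h => hneq (Subset.antisymm hBW h)
    have h4 : m * (W \ B).card < (m + 2) * dd G (W \ B) := by
      by_contra hcon
      have h5 := hmin (W \ B) (mem_filter.2 ⟨mem_powerset.2 (sdiff_subset.trans hWU), hne,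
        not_lt.1 hcon⟩)
      exact absurd (card_lt_card hss) (not_lt.2 h5)
    have h5 := dd_parts (G := G) hBW
    have h6 := dd_inner (G := G) hBW
    have h7 : (W \ B).card + B.card = W.card := card_sdiff_add_card_eq_card hBW
    -- in terms of the numbers
    generalize ee G B (W \ B) = a at *
    generalize ee G B Wᶜ = b at *
    generalize dd G (W \ B) = d at *
    generalize dd G W = e at *
    generalize dd G B = f at *
    generalize (W \ B).card = x at *
    generalize (Bl (RW G W) (n + 1) u).card = z at *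
    generalize B.card = y at *
    generalize W.card = w at *
    subst h7
    have h8 : d = e + a - b := by omega
    have h9 : (m + 2) * d + (m + 2) * b = (m + 2) * e + (m + 2) * a := by
      rw [← Nat.mul_add, ← Nat.mul_add]
      congr 1
      omega
    have h10 : (m + 2) * (y + 2) ≤ (m + 2) * a + (m + 2) * b := by
      rw [← Nat.mul_add]
      exact Nat.mul_le_mul_left _ (by omega)
    have h11 : (m + 2) * (y + a) ≤ (m + 2) * z := Nat.mul_le_mul_left _ h2
    have h12 : m * (x + y) = m * x + m * y := by ring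
    have h13 : (m + 2) * (y + 2) = m * y + 2 * y + 2 * (m + 2) := by ring
    have h14 : (m + 2) * (y + a) = m * y + 2 * y + (m + 2) * a := by ring
    have h15 : (m + 3) * y = m * y + 3 * y := by ring
    omega
  have hdouble : ∀ i, 2 * (i * (m + 2)) + 2 < g + 2 →
      2 ^ i ≤ (Bl (RW G W) (i * (m + 2)) u).card := by
    intro i
    induction i with
    | zero =>
      intro _
      exact card_pos.2 ⟨u, Bl_self _ u⟩
    | succ i ih =>
      intro hi
      have hi' : 2 * (i * (m + 2)) + 2 * (m + 2) < g := by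
        have : (i + 1) * (m + 2) = i * (m + 2) + (m + 2) := by ring
        omega
      have h1 := ih (by omega)
      have h2 : ∀ j, j ≤ m + 2 → (m + 2) * (Bl (RW G W) (i * (m + 2)) u).card +
          j * (Bl (RW G W) (i * (m + 2)) u).card ≤
          (m + 2) * (Bl (RW G W) (i * (m + 2) + j) u).card := by
        intro j
        induction j with
        | zero => intro _; simp
        | succ j ihj =>
          intro hj
          have h4 := ihj (by omega)
          have h5 := hstep (i * (m + 2) + j) (by omega)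
          have h6 : (Bl (RW G W) (i * (m + 2)) u).card ≤
              (Bl (RW G W) (i * (m + 2) + j) u).card :=
            card_le_card (Bl_mono (Nat.le_add_right _ _) u)
          have h7 : (m + 3) * (Bl (RW G W) (i * (m + 2) + j) u).card =
              (m + 2) * (Bl (RW G W) (i * (m + 2) + j) u).card +
                (Bl (RW G W) (i * (m + 2) + j) u).card := by ring
          have h8 : (j + 1) * (Bl (RW G W) (i * (m + 2)) u).card =
              j * (Bl (RW G W) (i * (m + 2)) u).card + (Bl (RW G W) (i * (m + 2)) u).card := by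
            ring
          have h9 : i * (m + 2) + (j + 1) = i * (m + 2) + j + 1 := by ring
          rw [h9]
          omega
      have h4 := h2 (m + 2) le_rfl
      have h5 : (i + 1) * (m + 2) = i * (m + 2) + (m + 2) := by ring
      rw [h5, pow_succ]
      have h6 : (m + 2) * (2 * (Bl (RW G W) (i * (m + 2)) u).card) ≤
          (m + 2) * (Bl (RW G W) (i * (m + 2) + (m + 2)) u).card := by
        refine le_trans (le_of_eq ?_) h4
        ring
      have h7 := Nat.le_of_mul_le_mul_left h6 (by omega)
      omega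
  have h1 : r / (m + 2) * (m + 2) ≤ r := Nat.div_mul_le_self r (m + 2)
  exact (hdouble (r / (m + 2)) (by omega)).trans (card_le_card (Bl_RW_sub hu _))

end Pool.Agent.K5.Dense
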