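import Mathlib
import Pool.Agent.Work.MP_974d84_co_k5.DefsW

/-!
# Route W, pattern: how many events use a bit
-/

set_option linter.unusedSectionVars false

namespace Pool.Agent.K5

open Finset SimpleGraph Pool.Agent.Exp Pool.Agent.Log5 Pool.Agent.Log5.Clu

variable {V : Type} [Fintype V] [DecidableEq V] {G : SimpleGraph V} [DecidableRel G.Adj]
  {μ : V → V} {π : Equiv.Perm V}

theorem Frame.adj_mu (hf : Frame G μ π) (v : V) : G.Adj v (μ v) := (hf.adj _ _).2 (Or.inl rfl)

theorem Frame.adj_stp (hf : Frame G μ π) (b : Bool) (v : V) : G.Adj v (stp π b v) := by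
  cases b
  · exact (hf.adj _ _).2 (Or.inr (Or.inr rfl))
  · exact (hf.adj _ _).2 (Or.inr (Or.inl rfl))

/-- Tree vertices are in the balls. -/
theorem tt_mem_Bl (hf : Frame G μ π) (v : V) (c : List Bool) :
    TT μ π v c ∈ Bl G.Adj (2 * c.length + 1) v := by
  induction c with
  | nil => exact mem_Bl_succ.2 (Or.inr ⟨v, mem_Bl_zero.2 rfl, hf.adj_mu v⟩)
  | cons b c ih =>
    have h1 : 2 * (b :: c).length + 1 = (2 * c.length + 1) + 1 + 1 := by
      rw [List.length_cons]
      ring
    rw [h1]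
    exact mem_Bl_succ.2 (Or.inr ⟨_, mem_Bl_succ.2 (Or.inr ⟨_, ih, hf.adj_stp b _⟩),
      hf.adj_mu _⟩)

/-- Tree vertices of low level are in the zones. -/
theorem tt_mem_zone (hf : Frame G μ π) {J R q i : ℕ} (hR : 2 * J + 1 ≤ R) (hi : i ≤ 2 * q)
    (a : V) {d : List Bool} (hd : d.length < J) : TT μ π ((π ^ i) a) d ∈ zone G π R q a := by
  unfold zone
  refine mem_biUnion.2 ⟨i, mem_range.2 (by omega), ?_⟩
  exact Bl_mono (by omega) _ (tt_mem_Bl hf _ _)

/-- A bit is used by few windows. -/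
theorem touch_fav (hf : Frame G μ π) {J R q B : ℕ} {A : Finset V} (hA : Win G π R q B A)
    (hR : 2 * J + 1 ≤ R) (x : V) (S : Finset V)
    (hS : ∀ a ∈ S, a ∈ A ∧ ∃ i, i ≤ 2 * q ∧ ∃ d : List Bool, d.length < J ∧
      ∃ n, n < B ∧ (π ^ n) x = TT μ π ((π ^ i) a) d) : S.card ≤ B := by
  classical
  have h1 : ∀ a : V, ∃ n, a ∈ S → n < B ∧ (π ^ n) x ∈ zone G π R q a := by
    intro a
    by_cases ha : a ∈ S
    · obtain ⟨_, i, hi, d, hd, n, hn, h2⟩ := hS a ha
      exact ⟨n, fun _ => ⟨hn, by rw [h2]; exact tt_mem_zone hf hR hi a hd⟩⟩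
    · exact ⟨0, fun h => absurd h ha⟩
  choose f hfn using h1
  have h2 := card_le_card_of_injOn f (s := S) (t := range B)
    (fun a ha => by
      have := (hfn a ha).1
      simpa using this)
    (by
      intro a ha a' ha' h3
      by_contra h4
      have h5 := (hfn a ha).2
      have h6 := (hfn a' ha').2
      have h3' : f a = f a' := h3
      rw [← h3'] at h6
      exact (Finset.disjoint_left.1 (hA.disj a (hS a ha).1 a' (hS a' ha').1 h4)) h5 h6)
  rwa [card_range] at h2

/-- A bit is used by few sequences of starts. -/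
theorem touch_near {M : ℕ} (x : V) (S : Finset V) (hS : ∀ a ∈ S, ∃ n, n < M ∧ (π ^ n) a = x) :
    S.card ≤ M := by
  classical
  have h1 : ∀ a : V, ∃ n, a ∈ S → n < M ∧ (π ^ n) a = x := by
    intro a
    by_cases ha : a ∈ S
    · obtain ⟨n, hn, h2⟩ := hS a ha
      exact ⟨n, fun _ => ⟨hn, h2⟩⟩
    · exact ⟨0, fun h => absurd h ha⟩
  choose f hfn using h1
  have h2 := card_le_card_of_injOn f (s := S) (t := range M)
    (fun a ha => by
      have := (hfn a ha).1
      simpa using this)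
    (by
      intro a ha a' ha' h3
      have h5 := (hfn a ha).2
      have h6 := (hfn a' ha').2
      have h3' : f a = f a' := h3
      rw [← h3'] at h6
      exact (π ^ f a).injective (h5.trans h6.symm))
  rwa [card_range] at h2

/-- The events of a window and of a sequence of starts, two of each kind. -/
theorem touch_all (hf : Frame G μ π) {J R q B M : ℕ} {A : Finset V} (hA : Win G π R q B A)
    (hR : 2 * J + 1 ≤ R) (x : V) (S : Finset ((V × Bool) ⊕ (V × Bool)))
    (hS1 : ∀ a p, Sum.inl (a, p) ∈ S → x = a ∨ (a ∈ A ∧ ∃ i, i ≤ 2 * q ∧ ∃ d : List Bool,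
      d.length < J ∧ ∃ n, n < B ∧ (π ^ n) x = TT μ π ((π ^ i) a) d))
    (hS2 : ∀ a p, Sum.inr (a, p) ∈ S → ∃ n, n < M ∧ (π ^ n) a = x) :
    S.card ≤ 2 * (B + 1) + 2 * M := by
  classical
  set S1 : Finset V := univ.filter fun a => ∃ p, Sum.inl (a, p) ∈ S with hS1'
  set S2 : Finset V := univ.filter fun a => ∃ p, Sum.inr (a, p) ∈ S with hS2'
  have h1 : S1.card ≤ B + 1 := by
    have h2 : S1 ⊆ insert x (S1.erase x) := by
      intro a ha
      by_cases h : a = x
      · exact mem_insert.2 (Or.inl h)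
      · exact mem_insert.2 (Or.inr (mem_erase.2 ⟨h, ha⟩))
    have h3 := card_le_card h2
    have h4 := card_insert_le x (S1.erase x)
    have h5 : (S1.erase x).card ≤ B := by
      refine touch_fav hf hA hR x _ fun a ha => ?_
      obtain ⟨h6, h7⟩ := mem_erase.1 ha
      obtain ⟨p, hp⟩ := (mem_filter.1 h7).2
      rcases hS1 a p hp with h8 | h8
      · exact absurd h8.symm h6
      · exact h8
    omega
  have h2 : S2.card ≤ M := touch_near (π := π) x _ fun a ha => by
    obtain ⟨p, hp⟩ := (mem_filter.1 ha).2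
    exact hS2 a p hp
  have h3 : S ⊆ ((S1 ×ˢ (univ : Finset Bool)).map Function.Embedding.inl) ∪
      ((S2 ×ˢ (univ : Finset Bool)).map Function.Embedding.inr) := by
    rintro (⟨a, p⟩ | ⟨a, p⟩) h
    · refine mem_union.2 (Or.inl (mem_map.2 ⟨(a, p), ?_, rfl⟩))
      exact mem_product.2 ⟨mem_filter.2 ⟨mem_univ _, p, h⟩, mem_univ _⟩
    · refine mem_union.2 (Or.inr (mem_map.2 ⟨(a, p), ?_, rfl⟩))
      exact mem_product.2 ⟨mem_filter.2 ⟨mem_univ _, p, h⟩, mem_univ _⟩
  have h4 := card_le_card h3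
  have h5 := card_union_le ((S1 ×ˢ (univ : Finset Bool)).map
    (Function.Embedding.inl : _ ↪ (V × Bool) ⊕ (V × Bool)))
    ((S2 ×ˢ (univ : Finset Bool)).map Function.Embedding.inr)
  rw [card_map, card_map, card_product, card_product, card_univ, Fintype.card_bool] at h5
  omega

end Pool.Agent.K5
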