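import Mathlib
import Pool.Agent.Work.MP_974d84_co_k5.DefsE
import Pool.Agent.Work.MP_974d84_co_k5.LocalW

/-!
# The flow of a defect end, with all values
-/

set_option linter.unusedSectionVars false

namespace Pool.Agent.K5

open Finset SimpleGraph Pool.Agent.Exp Pool.Agent.Log5 Pool.Agent.Log5.Clu

namespace LocalW

variable {V : Type} [Fintype V] [DecidableEq V] {μ : V → V} {π : Equiv.Perm V}

variable {G : SimpleGraph V} [DecidableRel G.Adj]

open Classical in
/-- As `end_flow_of`, with all values. -/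
theorem end_flow_e_of (hf : Frame G μ π) {k j₀ : ℕ} (v : V)
    (hu : ∀ w w' : List (Option Bool), Red w → Red w' → w.length + w'.length + 1 < k →
      act μ π w v = act μ π w' v → w = w')
    (hk : 4 * j₀ + 12 ≤ k) : ∃ (φ : V → V → ℝ) (w : V → ℝ),
      (∀ u u', φ u u' = - φ u' u) ∧
      (∀ u u', φ u u' ≠ 0 →
        (∃ c : List Bool, c.length ≤ j₀ ∧ u = μ (TT μ π v c) ∧ u' = TT μ π v c ∧
          φ u u' = 1 / 2 ^ c.length) ∨
        (∃ c : List Bool, c.length ≤ j₀ ∧ u = TT μ π v c ∧ u' = μ (TT μ π v c) ∧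
          φ u u' = - (1 / 2 ^ c.length)) ∨
        (∃ (c : List Bool) (b : Bool), c.length < j₀ ∧ u = TT μ π v c ∧ u' = stp π b u ∧
          φ u u' = 1 / 2 ^ (c.length + 1)) ∨
        ∃ (c : List Bool) (b : Bool), c.length < j₀ ∧ u' = TT μ π v c ∧ u = stp π b u' ∧
          φ u u' = - (1 / 2 ^ (c.length + 1))) ∧
      (∀ u, w u = if ∃ c : List Bool, c.length = j₀ ∧ u = TT μ π v c then 1 / 2 ^ j₀ else 0) ∧
      φ v (μ v) = 1 ∧
      ∀ u, ∑ u', φ u u' = (if u = v then 1 else 0) - w u := by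
  have hmm := hf.mu_mu
  -- the vertices of the tree are distinct
  have T1 : ∀ c c' : List Bool, c.length ≤ j₀ → c'.length ≤ j₀ →
      TT μ π v c = TT μ π v c' → c = c' := by
    intro c c' hc hc' h
    rw [← act_tr v c, ← act_tr v c'] at h
    have h1 := hu _ _ (red_tr c) (red_tr c') (by
      simp only [List.length_cons, length_tr]; omega) h
    exact tr_inj (List.cons.inj h1).2
  have T2 : ∀ (c c' : List Bool) (b : Bool), c.length ≤ j₀ → c'.length ≤ j₀ →
      stp π b (TT μ π v c) ≠ TT μ π v c' := by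
    intro c c' b hc hc' h
    rw [← act_tr v c, ← act_tr v c'] at h
    have h1 := hu (some b :: none :: tr c) _ (red_some b c) (red_tr c') (by
      simp only [List.length_cons, length_tr]; omega) h
    have h2 := congrArg List.length h1
    simp only [List.length_cons, length_tr] at h2
    omega
  have T3 : ∀ c : List Bool, c.length ≤ j₀ → TT μ π v c ≠ v := by
    intro c hc h
    rw [← act_tr v c] at h
    have h1 := hu (none :: tr c) [] (red_tr c) (by unfold Red; simp) (by
      simp only [List.length_cons, length_tr, List.length_nil]; omega) h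
    simp at h1
  have T5 : ∀ c c' : List Bool, c.length ≤ j₀ → c'.length ≤ j₀ →
      μ (TT μ π v c) ≠ TT μ π v c' := by
    intro c c' hc hc' h
    cases c with
    | nil =>
      have : μ (TT μ π v []) = v := hmm v
      rw [this] at h
      exact T3 c' hc' h.symm
    | cons b c =>
      have : μ (TT μ π v (b :: c)) = stp π b (TT μ π v c) := hmm _
      rw [this] at h
      exact T2 c c' b (by simp only [List.length_cons] at hc; omega) hc' h
  have hst : ∀ (b : Bool) (a : V), stp π b a ≠ μ a := by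
    intro b a h
    cases b
    · exact hf.mu_ne' a h.symm
    · exact hf.mu_ne a h.symm
  have hss : ∀ (b b' : Bool) (a : V), stp π b a = stp π b' a → b = b' := by
    intro b b' a h
    cases b <;> cases b'
    · rfl
    · exact absurd h.symm (hf.pi_ne a)
    · exact absurd h (hf.pi_ne a)
    · rfl
  have hne : ∀ a, μ a ≠ a := by
    intro a h
    have h1 : G.Adj a (μ a) := (hf.adj a (μ a)).2 (Or.inl rfl)
    rw [h] at h1
    exact G.irrefl h1
  have hsn : ∀ (b : Bool) (a : V), a ≠ stp π b a := by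
    intro b a h
    have h1 : G.Adj a (stp π b a) := by
      rw [hf.adj]
      cases b
      · exact Or.inr (Or.inr rfl)
      · exact Or.inr (Or.inl rfl)
    rw [← h] at h1
    exact G.irrefl h1
  let A : V → V → ℝ := fun u u' =>
    ∑ c ∈ wl (j₀ + 1), 1 / 2 ^ c.length * Ea (μ (TT μ π v c)) (TT μ π v c) u u'
  let B : V → V → ℝ := fun u u' => ∑ p ∈ wl j₀ ×ˢ (univ : Finset Bool),
    1 / 2 ^ (p.1.length + 1) * Ea (TT μ π v p.1) (stp π p.2 (TT μ π v p.1)) u u'
  let w : V → ℝ := fun u => ∑ c ∈ wd j₀, if u = TT μ π v c then 1 / 2 ^ j₀ else 0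
  have hAanti : ∀ u u', A u u' = - A u' u := by
    intro u u'
    simp only [A]
    rw [← sum_neg_distrib]
    refine sum_congr rfl fun c _ => ?_
    rw [Ea_anti]; ring
  have hBanti : ∀ u u', B u u' = - B u' u := by
    intro u u'
    simp only [B]
    rw [← sum_neg_distrib]
    refine sum_congr rfl fun c _ => ?_
    rw [Ea_anti]; ring
  -- the values of `A`
  have hAval : ∀ c : List Bool, c.length ≤ j₀ →
      A (μ (TT μ π v c)) (TT μ π v c) = 1 / 2 ^ c.length := by
    intro c hcl
    have hc : c ∈ wl (j₀ + 1) := mem_wl.2 (by omega)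
    have hsing : A (μ (TT μ π v c)) (TT μ π v c) = 1 / 2 ^ c.length *
        Ea (μ (TT μ π v c)) (TT μ π v c) (μ (TT μ π v c)) (TT μ π v c) := by
      refine sum_eq_single c (fun c' hc' hcc' => ?_) fun h' => absurd hc h'
      have hcl' : c'.length ≤ j₀ := by
        have := mem_wl.1 hc'
        omega
      by_contra hcon
      have hE' := right_ne_zero_of_mul hcon
      rcases Ea_ne hE' with ⟨h3, h4⟩ | ⟨h3, h4⟩
      · exact hcc' (T1 c' c hcl' hcl h4.symm)
      · exact T5 c c' hcl hcl' h3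
    rw [hsing, Ea_one (hne _), mul_one]
  have hA1 : ∀ u u', A u u' ≠ 0 →
      (∃ c : List Bool, c.length ≤ j₀ ∧ u = μ (TT μ π v c) ∧ u' = TT μ π v c ∧
          A u u' = 1 / 2 ^ c.length) ∨
        ∃ c : List Bool, c.length ≤ j₀ ∧ u = TT μ π v c ∧ u' = μ (TT μ π v c) ∧
          A u u' = - (1 / 2 ^ c.length) := by
    intro u u' h
    obtain ⟨c, hc, hne0⟩ := exists_ne_zero_of_sum_ne_zero h
    have hcl : c.length ≤ j₀ := by
      have := mem_wl.1 hc
      omega
    rcases Ea_ne (right_ne_zero_of_mul hne0) with ⟨h1, h2⟩ | ⟨h1, h2⟩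
    · left
      refine ⟨c, hcl, h1, h2, ?_⟩
      rw [h1, h2]
      exact hAval c hcl
    · right
      refine ⟨c, hcl, h1, h2, ?_⟩
      rw [hAanti, h1, h2, hAval c hcl]
  -- the values of `B`
  have hBval : ∀ (c : List Bool) (b : Bool), c.length < j₀ →
      B (TT μ π v c) (stp π b (TT μ π v c)) = 1 / 2 ^ (c.length + 1) := by
    intro c b hc
    have hmem : (c, b) ∈ wl j₀ ×ˢ (univ : Finset Bool) :=
      mem_product.2 ⟨mem_wl.2 hc, mem_univ _⟩
    have hsing : B (TT μ π v c) (stp π b (TT μ π v c)) = 1 / 2 ^ (c.length + 1) *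
        Ea (TT μ π v c) (stp π b (TT μ π v c)) (TT μ π v c) (stp π b (TT μ π v c)) := by
      refine sum_eq_single (c, b) (fun p hp hpp => ?_) fun h' => absurd hmem h'
      have hpl : p.1.length < j₀ := mem_wl.1 (mem_product.1 hp).1
      by_contra hcon
      rcases Ea_ne (right_ne_zero_of_mul hcon) with ⟨h1, h2⟩ | ⟨h1, h2⟩
      · have h3 : c = p.1 := T1 c p.1 hc.le hpl.le h1
        rw [← h3] at h2
        have h4 := hss b p.2 _ h2
        exact hpp (Prod.ext h3.symm h4.symm)
      · exact T2 c p.1 b hc.le hpl.le h2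
    rw [hsing, Ea_one (hsn b _), mul_one]
  have hB1 : ∀ u u', B u u' ≠ 0 →
      (∃ (c : List Bool) (b : Bool), c.length < j₀ ∧ u = TT μ π v c ∧ u' = stp π b u ∧
          B u u' = 1 / 2 ^ (c.length + 1)) ∨
        ∃ (c : List Bool) (b : Bool), c.length < j₀ ∧ u' = TT μ π v c ∧ u = stp π b u' ∧
          B u u' = - (1 / 2 ^ (c.length + 1)) := by
    intro u u' h
    obtain ⟨p, hp, hne0⟩ := exists_ne_zero_of_sum_ne_zero h
    have hpl : p.1.length < j₀ := mem_wl.1 (mem_product.1 hp).1
    rcases Ea_ne (right_ne_zero_of_mul hne0) with ⟨h1, h2⟩ | ⟨h1, h2⟩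
    · left
      refine ⟨p.1, p.2, hpl, h1, by rw [h1, h2], ?_⟩
      rw [h1, h2]
      exact hBval p.1 p.2 hpl
    · right
      refine ⟨p.1, p.2, hpl, h2, by rw [h1, h2], ?_⟩
      rw [hBanti, h1, h2, hBval p.1 p.2 hpl]
  have hAB : ∀ u u', B u u' ≠ 0 → A u u' = 0 := by
    intro u u' h
    by_contra hA0
    have h1 : u' = μ u := by
      rcases hA1 u u' hA0 with ⟨c, -, h1, h2, -⟩ | ⟨c, -, h1, h2, -⟩
      · rw [h1, h2, hmm]
      · rw [h1, h2]
    rcases hB1 u u' h with ⟨c, b, -, -, h2, -⟩ | ⟨c, b, -, -, h2, -⟩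
    · exact hst b u (h2.symm.trans h1)
    · have h3 : μ u' = u := by rw [h1, hmm]
      exact hst b u' (h2.symm.trans h3.symm)
  refine ⟨fun u u' => A u u' + B u u', w, ?_, ?_, ?_, ?_, ?_⟩
  · intro u u'
    simp only
    rw [hAanti, hBanti]; ring
  · intro u u' h
    simp only at h ⊢
    by_cases hB0 : B u u' = 0
    · rw [hB0, add_zero] at h ⊢
      rcases hA1 u u' h with h | h
      · exact Or.inl h
      · exact Or.inr (Or.inl h)
    · rw [hAB u u' hB0, zero_add]
      exact Or.inr (Or.inr (hB1 u u' hB0))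
  · intro u
    by_cases hex : ∃ c : List Bool, c.length = j₀ ∧ u = TT μ π v c
    · rw [if_pos hex]
      obtain ⟨c, hcl, h1⟩ := hex
      have hc : c ∈ wd j₀ := mem_wd.2 hcl
      have : w u = if u = TT μ π v c then 1 / 2 ^ j₀ else 0 := by
        refine sum_eq_single c (fun c' hc' hcc' => ?_) fun h' => absurd hc h'
        have hcl' := mem_wd.1 hc'
        rw [if_neg]
        intro h2
        exact hcc' (T1 c' c hcl'.le hcl.le (h2.symm.trans h1))
      rw [this, if_pos h1]
    · rw [if_neg hex]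
      exact sum_eq_zero fun c hc => by
        rw [if_neg fun h => hex ⟨c, mem_wd.1 hc, h⟩]
  · simp only
    have h1 : A v (μ v) = 1 := by
      have h2 := hAval [] (Nat.zero_le _)
      have h3 : TT μ π v [] = μ v := rfl
      rw [h3, hmm] at h2
      rw [h2]
      simp
    have h2 : B v (μ v) = 0 := by
      by_contra h3
      have h4 := hAB v (μ v) h3
      rw [h1] at h4
      exact one_ne_zero h4
    rw [h1, h2, add_zero]
  · intro u
    simp only
    have hA2 : ∑ u', A u u' = ∑ c ∈ wl (j₀ + 1), 1 / 2 ^ c.length *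
        ((if u = μ (TT μ π v c) then 1 else 0) - (if u = TT μ π v c then 1 else 0)) := by
      simp only [A]
      rw [sum_comm]
      refine sum_congr rfl fun c _ => ?_
      rw [← mul_sum, sum_Ea]
    have hB2 : ∑ u', B u u' = ∑ c ∈ wl j₀, ∑ b : Bool, 1 / 2 ^ (c.length + 1) *
        ((if u = TT μ π v c then 1 else 0) - (if u = stp π b (TT μ π v c) then 1 else 0)) := by
      simp only [B]
      rw [sum_comm, sum_product]
      refine sum_congr rfl fun c _ => sum_congr rfl fun b _ => ?_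
      rw [← mul_sum, sum_Ea]
    have hA3 : ∑ c ∈ wl (j₀ + 1), (1 : ℝ) / 2 ^ c.length *
        (if u = μ (TT μ π v c) then 1 else 0) = (if u = v then 1 else 0) +
        ∑ c ∈ wl j₀, ∑ b : Bool, 1 / 2 ^ (c.length + 1) *
          (if u = stp π b (TT μ π v c) then 1 else 0) := by
      rw [sum_wl_succ']
      congr 1
      · have : μ (TT μ π v []) = v := hmm v
        rw [this]
        simp
      · refine sum_congr rfl fun c _ => ?_
        have h1 : ∀ b, μ (TT μ π v (b :: c)) = stp π b (TT μ π v c) := fun b => hmm _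
        rw [Fintype.sum_bool, h1, h1]
        simp only [List.length_cons]
    have hA4 : ∑ c ∈ wl (j₀ + 1), (1 : ℝ) / 2 ^ c.length *
        (if u = TT μ π v c then 1 else 0) = ∑ c ∈ wl j₀, (1 : ℝ) / 2 ^ c.length *
        (if u = TT μ π v c then 1 else 0) + w u := by
      rw [sum_wl_succ]
      congr 1
      simp only [w]
      refine sum_congr rfl fun c hc => ?_
      rw [mem_wd.1 hc]
      split_ifs <;> simp
    have hB3 : ∑ c ∈ wl j₀, ∑ _b : Bool, (1 : ℝ) / 2 ^ (c.length + 1) *
        (if u = TT μ π v c then 1 else 0) = ∑ c ∈ wl j₀, (1 : ℝ) / 2 ^ c.length *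
        (if u = TT μ π v c then 1 else 0) := by
      refine sum_congr rfl fun c _ => ?_
      rw [Fintype.sum_bool, pow_succ]
      have h2 : (0 : ℝ) < 2 ^ c.length := by positivity
      field_simp
      ring
    rw [sum_add_distrib, hA2, hB2]
    simp only [mul_sub, sum_sub_distrib]
    rw [hA3, hA4, hB3]
    ring


end LocalW

open Classical in
/-- W6 with all values: the flow of a defect end. -/
theorem end_flow_e {V : Type} [Fintype V] [DecidableEq V] {G : SimpleGraph V} [DecidableRel G.Adj]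
    {μ : V → V} {π : Equiv.Perm V} (hf : Frame G μ π) {k j₀ : ℕ} (hg : Gir G k)
    (hk : 4 * j₀ + 12 ≤ k) (v : V) : ∃ (φ : V → V → ℝ) (w : V → ℝ),
      (∀ u u', φ u u' = - φ u' u) ∧
      (∀ u u', φ u u' ≠ 0 →
        (∃ c : List Bool, c.length ≤ j₀ ∧ u = μ (TT μ π v c) ∧ u' = TT μ π v c ∧
          φ u u' = 1 / 2 ^ c.length) ∨
        (∃ c : List Bool, c.length ≤ j₀ ∧ u = TT μ π v c ∧ u' = μ (TT μ π v c) ∧
          φ u u' = - (1 / 2 ^ c.length)) ∨
        (∃ (c : List Bool) (b : Bool), c.length < j₀ ∧ u = TT μ π v c ∧ u' = stp π b u ∧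
          φ u u' = 1 / 2 ^ (c.length + 1)) ∨
        ∃ (c : List Bool) (b : Bool), c.length < j₀ ∧ u' = TT μ π v c ∧ u = stp π b u' ∧
          φ u u' = - (1 / 2 ^ (c.length + 1))) ∧
      (∀ u, w u = if ∃ c : List Bool, c.length = j₀ ∧ u = TT μ π v c then 1 / 2 ^ j₀ else 0) ∧
      φ v (μ v) = 1 ∧
      ∀ u, ∑ u', φ u u' = (if u = v then 1 else 0) - w u :=
  LocalW.end_flow_e_of hf v (fun _ _ h1 h2 h3 h4 => act_uniq hf hg h1 h2 h3 h4) hk

end Pool.Agent.K5
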