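import Mathlib
import Pool.Agent.Work.MP_974d84_co_k5.CritX

/-!
# Nowhere-zero flows modulo 5 with prescribed boundary values

`hoff_odd`: antisymmetric functions with values `±1, ±3` on the edges and prescribed divergences.
`extend_five`: a graph with vertices of degree 3 and marked vertices of degree 2; values `φ v` in
`{1, 2, 3, 4}` leave the marked vertices.
-/

set_option linter.unusedSectionVars false
set_option linter.unusedVariables false

namespace Pool.Agent.K5

open Finset SimpleGraph Pool.Agent.Exp Pool.Agent.Log5 MP974d84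

variable {V : Type} [Fintype V] [DecidableEq V]

/-- Odd values of absolute value at most 3 on the edges with prescribed divergences. -/
theorem hoff_odd (H : SimpleGraph V) [DecidableRel H.Adj] (D : V → ℤ)
    (hpar : ∀ v, ∃ k : ℤ, D v = H.degree v + 2 * k)
    (hcut : ∀ Y : Finset V, |∑ v ∈ Y, D v| ≤ 3 * dd H Y) :
    ∃ g : V → V → ℤ, (∀ v w, g v w = - g w v) ∧
      (∀ v w, H.Adj v w → g v w = 1 ∨ g v w = -1 ∨ g v w = 3 ∨ g v w = -3) ∧
      (∀ v w, ¬ H.Adj v w → g v w = 0) ∧ ∀ v, ∑ w, g v w = D v := by
  classical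
  let e := Fintype.equivFin V
  let p : V → V → ℤ := fun v w => if H.Adj v w then (if e v < e w then 1 else -1) else 0
  have hp : Anti p := by
    intro v w
    simp only [p]
    by_cases h : H.Adj v w
    · have hne : e v ≠ e w := fun h' => H.ne_of_adj h (e.injective h')
      rw [if_pos h, if_pos h.symm]
      rcases lt_or_gt_of_ne hne with h1 | h1
      · rw [if_pos h1, if_neg (not_lt.2 h1.le)]
        rfl
      · rw [if_neg (not_lt.2 h1.le), if_pos h1]
    · rw [if_neg h, if_neg fun h' => h h'.symm]
      rfl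
  let u : V → V → ℤ := fun v w => if H.Adj v w then (if e v < e w then 1 else 2) else 0
  -- the divergence of `p` has the parity of the degree
  have hpar' : ∀ v, ∃ k : ℤ, D v - dv p v = 2 * k := by
    intro v
    have h1 : ∃ k : ℤ, dv p v = H.degree v + 2 * k := by
      have h2 : ∀ s : Finset V, ∃ k : ℤ, ∑ w ∈ s, p v w = (s.filter fun w => H.Adj v w).card + 2 * k := by
        intro s
        induction s using Finset.induction_on with
        | empty => exact ⟨0, by simp⟩
        | insert a s ha ih =>
          obtain ⟨k, hk⟩ := ih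
          rw [sum_insert ha, hk, filter_insert]
          by_cases h : H.Adj v a
          · rw [if_pos h, card_insert_of_notMem (fun h' => ha (mem_filter.1 h').1)]
            by_cases h' : e v < e a
            · exact ⟨k, by simp only [p, if_pos h, if_pos h']; push_cast; ring⟩
            · exact ⟨k - 1, by simp only [p, if_pos h, if_neg h']; push_cast; ring⟩
          · rw [if_neg h]
            exact ⟨k, by simp only [p, if_neg h]; ring⟩
      obtain ⟨k, hk⟩ := h2 univ
      refine ⟨k, ?_⟩
      unfold dv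
      rw [hk]
      have h4 : (univ.filter fun w => H.Adj v w).card = H.degree v := by
        rw [← H.card_neighborFinset_eq_degree v]
        congr 1
        ext w
        simp
      rw [h4]
    obtain ⟨k, hk⟩ := h1
    obtain ⟨l, hl⟩ := hpar v
    exact ⟨l - k, by rw [hk, hl]; ring⟩
  choose d hd using hpar'
  have hd2 : ∀ S : Finset V, 2 * ∑ v ∈ S, d v = ∑ v ∈ S, D v - cs p S := by
    intro S
    rw [← dv_cut hp, mul_sum, ← sum_sub_distrib]
    exact sum_congr rfl fun v _ => (hd v).symm
  have hD0 : ∑ v, D v = 0 := by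
    have h1 := hcut univ
    have h2 : dd H (univ : Finset V) = 0 := by
      unfold dd
      rw [card_eq_zero]
      ext q
      rw [mem_cut]
      simp
    rw [h2] at h1
    simpa using h1
  have hdtot : ∑ v, d v = 0 := by
    have h1 := hd2 univ
    have h2 : cs p univ = 0 := by simp [cs]
    rw [h2, hD0] at h1
    omega
  obtain ⟨g, hg1, hg2, hg3⟩ := hoffman u d (fun _ _ => 0) (fun _ _ => by simp) (fun v w => by
    simp only [u]
    split_ifs <;> norm_num) hdtot (by
    intro Z
    have h1 := (abs_le.1 (hcut Z)).2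
    have h2 := hd2 Z
    have h4 : 3 * (dd H Z : ℤ) = 2 * cs u Z + cs p Z := by
      have e1 : cs (fun v w => if H.Adj v w then (3 : ℤ) else 0) Z = 3 * dd H Z := by
        rw [dd_cs]
        simp only [cs, mul_sum]
        refine sum_congr rfl fun v _ => sum_congr rfl fun w _ => ?_
        split_ifs <;> norm_num
      rw [← e1, cs_comb (a := 2) (b := 1) (y := u) (z := p) (fun v w => by
        by_cases h : H.Adj v w
        · by_cases h' : e v < e w
          · simp only [u, p, if_pos h, if_pos h']
            norm_num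
          · simp only [u, p, if_pos h, if_neg h']
            norm_num
        · simp only [u, p, if_neg h]
          norm_num)]
      ring
    omega)
  refine ⟨fun v w => p v w + 2 * g v w, fun v w => ?_, fun v w h => ?_, fun v w h => ?_, fun v => ?_⟩
  · show p v w + 2 * g v w = -(p w v + 2 * g w v)
    rw [hp v w, hg1 v w]
    ring
  · have h1 := hg2 v w
    have h2 := hg2 w v
    have h4 := hg1 v w
    have hne : e v ≠ e w := fun h' => H.ne_of_adj h (e.injective h')
    show p v w + 2 * g v w = 1 ∨ p v w + 2 * g v w = -1 ∨ p v w + 2 * g v w = 3 ∨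
      p v w + 2 * g v w = -3
    simp only [u, if_pos h, if_pos h.symm] at h1 h2
    simp only [p, if_pos h]
    rcases lt_or_gt_of_ne hne with h5 | h5
    · rw [if_pos h5] at h1 ⊢
      rw [if_neg (not_lt.2 h5.le)] at h2
      omega
    · rw [if_neg (not_lt.2 h5.le)] at h1 ⊢
      rw [if_pos h5] at h2
      omega
  · have h1 := hg2 v w
    have h2 := hg2 w v
    have h4 := hg1 v w
    have h8 : ¬ H.Adj w v := fun h' => h h'.symm
    simp only [u, if_neg h, if_neg h8] at h1 h2
    show p v w + 2 * g v w = 0
    simp only [p, if_neg h]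
    omega
  · show ∑ w, (p v w + 2 * g v w) = D v
    rw [sum_add_distrib, ← mul_sum]
    have h1 := hg3 v
    have h2 := hd v
    unfold dv at h1 h2
    rw [h1]
    linarith

/-- **Prescribed boundary values modulo 5.** The vertices outside `M` have degree 3; the
vertices of `M` have degree 2 and `φ v ∈ {1, 2, 3, 4}` leaves `v`. -/
theorem extend_five (H : SimpleGraph V) [DecidableRel H.Adj] (M : Finset V)
    (h3 : ∀ v, v ∉ M → H.degree v = 3) (h2 : ∀ v ∈ M, H.degree v = 2) (φ : V → ℤ) {x : V → ℤ}
    (hx : ∀ v, x v = 1 ∨ x v = -1)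
    (hcut : ∀ Y : Finset V,
      |5 * ∑ v ∈ Y, x v + ∑ v ∈ Y ∩ M, (2 * φ v - 5)| ≤ 3 * dd H Y) :
    ∃ f : V → V → ZMod 5, (∀ v w, f v w = - f w v) ∧ (∀ v w, f v w ≠ 0 ↔ H.Adj v w) ∧
      ∀ v, ∑ w, f v w + (if v ∈ M then (φ v : ZMod 5) else 0) = 0 := by
  classical
  obtain ⟨g, g1, g2, g3, g4⟩ := hoff_odd H
    (fun v => -(5 * x v + if v ∈ M then 2 * φ v - 5 else 0)) (fun v => by
      by_cases hv : v ∈ M
      · rw [h2 v hv, if_pos hv]
        rcases hx v with h | h <;> rw [h]
        · exact ⟨-1 - φ v, by push_cast; ring⟩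
        · exact ⟨4 - φ v, by push_cast; ring⟩
      · rw [h3 v hv, if_neg hv]
        rcases hx v with h | h <;> rw [h]
        · exact ⟨-4, by norm_num⟩
        · exact ⟨1, by norm_num⟩) (fun Y => by
      have e : ∑ v ∈ Y, -(5 * x v + if v ∈ M then 2 * φ v - 5 else 0) =
          -(5 * ∑ v ∈ Y, x v + ∑ v ∈ Y ∩ M, (2 * φ v - 5)) := by
        rw [sum_neg_distrib, sum_add_distrib, ← mul_sum, sum_ite_mem]
      rw [e, abs_neg]
      exact hcut Y)
  refine ⟨fun v w => 3 * ((g v w : ℤ) : ZMod 5), fun v w => ?_, fun v w => ?_, fun v => ?_⟩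
  · show 3 * ((g v w : ℤ) : ZMod 5) = -(3 * ((g w v : ℤ) : ZMod 5))
    rw [g1 v w]
    push_cast
    ring
  · show 3 * ((g v w : ℤ) : ZMod 5) ≠ 0 ↔ H.Adj v w
    constructor
    · intro h
      by_contra hn
      exact h (by rw [g3 v w hn]; simp)
    · intro h
      rcases g2 v w h with h' | h' | h' | h' <;> rw [h'] <;> decide
  · show ∑ w, 3 * ((g v w : ℤ) : ZMod 5) + _ = 0
    rw [← mul_sum, ← Int.cast_sum, g4 v]
    have h5 : (5 : ZMod 5) = 0 := by decide
    have h6 : (6 : ZMod 5) = 1 := by decide
    have h10 : (15 : ZMod 5) = 0 := by decide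
    split_ifs with hv
    · push_cast
      calc (3 : ZMod 5) * -(5 * (x v : ZMod 5) + (2 * (φ v : ZMod 5) - 5)) + (φ v : ZMod 5)
          = -(15 * (x v : ZMod 5)) - 6 * (φ v : ZMod 5) + 15 + (φ v : ZMod 5) := by ring
        _ = 0 := by rw [h10, h6]; ring
    · push_cast
      calc (3 : ZMod 5) * -(5 * (x v : ZMod 5) + 0) + 0 = -(15 * (x v : ZMod 5)) := by ring
        _ = 0 := by rw [h10]; ring

end Pool.Agent.K5
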