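import Mathlib
import Pool.Agent.Work.MP_974d84_co.Hoffman
import Pool.Agent.Work.MP_974d84_co_k5.HoffReal
import Pool.Agent.Work.MP_974d84_co_k5.ExtHoff

/-!
# Hoffman's theorem with a boundary, modulo a real number

`P` is a set of vertices, every vertex of `P` has three neighbours in `P` or two neighbours in `P`
and a nonzero boundary value `φ v`. Signs `x` on `P` with
`|x(Y) + q(Y)| ≤ ((r - 2) / r) e(Y, P \ Y)`, `q = sign φ - 2 φ / r`, give a real function on the
inner edges with values between `1` and `r - 1` and net outflow `φ` modulo `r`.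
-/

set_option linter.unusedSectionVars false

namespace Pool.Agent.K5.Re

open Finset SimpleGraph Pool.Agent.Exp Pool.Agent.Log5 Pool.Agent.Log5.Clu

variable {V : Type} [Fintype V] [DecidableEq V] {G : SimpleGraph V} [DecidableRel G.Adj]

/-- The charge of a real boundary value. -/
noncomputable def qr (r t : ℝ) : ℝ := Real.sign t - 2 * t / r

theorem qr_zero (r : ℝ) : qr r 0 = 0 := by
  simp [qr]

/-- A sum of signs has the parity of the number of its terms. -/
theorem sum_sgn_parity {ι : Type*} (s : Finset ι) (σ : ι → ℤ)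
    (hσ : ∀ i ∈ s, σ i = 1 ∨ σ i = -1) : ∃ m : ℤ, ∑ i ∈ s, σ i = s.card + 2 * m := by
  classical
  induction s using Finset.induction_on with
  | empty => exact ⟨0, by simp⟩
  | insert a s ha ih =>
    obtain ⟨m, hm⟩ := ih fun i hi => hσ i (mem_insert_of_mem hi)
    rw [sum_insert ha, hm, card_insert_of_notMem ha]
    push_cast
    rcases hσ a (mem_insert_self a s) with h | h
    · exact ⟨m, by rw [h]; ring⟩
    · exact ⟨m - 1, by rw [h]; ring⟩

/-- **Hoffman's theorem with a boundary, modulo a real number.** -/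
theorem ext_real {r : ℝ} (hr : 2 < r) (P : Finset V) (φ : V → ℝ)
    (hdeg : ∀ v ∈ P, (P.filter fun w => G.Adj v w).card = if φ v = 0 then 3 else 2)
    (x : V → ℤ) (hx : ∀ v ∈ P, x v = 1 ∨ x v = -1)
    (hcut : ∀ Y ⊆ P, |∑ v ∈ Y, ((x v : ℝ) + qr r (φ v))| ≤ (r - 2) / r * ee G Y (P \ Y)) :
    ∃ f : V → V → ℝ, (∀ v w, f v w = - f w v) ∧
      (∀ v w, ¬ (v ∈ P ∧ w ∈ P ∧ G.Adj v w) → f v w = 0) ∧
      (∀ v ∈ P, ∀ w ∈ P, G.Adj v w → 1 ≤ |f v w| ∧ |f v w| ≤ r - 1) ∧
      ∀ v ∈ P, ∃ k : ℤ, ∑ w, f v w = φ v + k * r := by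
  classical
  obtain ⟨σ, hσa, hσ1⟩ := exists_sgn V
  have hr0 : r ≠ 0 := by linarith
  let I : V → V → Prop := fun v w => v ∈ P ∧ w ∈ P ∧ G.Adj v w
  have hIs : ∀ v w, I v w ↔ I w v := fun v w =>
    ⟨fun h => ⟨h.2.1, h.1, h.2.2.symm⟩, fun h => ⟨h.2.1, h.1, h.2.2.symm⟩⟩
  let u : V → V → ℝ := fun v w => if I v w then (r - 2) / 2 else 0
  let d : V → ℝ := fun v => if v ∈ P then -(r / 2) * ((x v : ℝ) + qr r (φ v)) else 0
  have hu0 : ∀ v w, 0 ≤ u v w := by
    intro v w
    show (0 : ℝ) ≤ if I v w then (r - 2) / 2 else 0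
    split_ifs
    · linarith
    · exact le_rfl
  have hdY : ∀ Z : Finset V, ∑ v ∈ Z, d v =
      -(r / 2) * ∑ v ∈ Z ∩ P, ((x v : ℝ) + qr r (φ v)) := by
    intro Z
    have h1 : ∑ v ∈ Z, d v = ∑ v ∈ Z ∩ P, d v := by
      symm
      refine sum_subset inter_subset_left fun v hv hv' => ?_
      exact if_neg fun h => hv' (mem_inter.2 ⟨hv, h⟩)
    rw [h1, mul_sum]
    refine sum_congr rfl fun v hv => ?_
    exact if_pos (mem_inter.1 hv).2
  have huZ : ∀ Z : Finset V, ∑ v ∈ Z, ∑ w ∈ Zᶜ, u v w =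
      (r - 2) / 2 * ee G (Z ∩ P) (P \ (Z ∩ P)) := by
    intro Z
    have h1 : ∑ v ∈ Z, ∑ w ∈ Zᶜ, u v w = ∑ v ∈ Z ∩ P, ∑ w ∈ P \ (Z ∩ P), u v w := by
      have h2 : ∀ v, ∑ w ∈ Zᶜ, u v w = ∑ w ∈ P \ Z, u v w := by
        intro v
        symm
        refine sum_subset (fun w hw => mem_compl.2 (mem_sdiff.1 hw).2) fun w hw hw' => ?_
        exact if_neg fun h => hw' (mem_sdiff.2 ⟨h.2.1, mem_compl.1 hw⟩)
      have h3 : P \ (Z ∩ P) = P \ Z := by
        ext w
        simp only [mem_sdiff, mem_inter]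
        tauto
      rw [h3]
      simp only [h2]
      symm
      refine sum_subset inter_subset_left fun v hv hv' => ?_
      exact sum_eq_zero fun w _ => if_neg fun h => hv' (mem_inter.2 ⟨hv, h.1⟩)
    rw [h1, ee_sum]
    push_cast
    rw [mul_sum]
    refine sum_congr rfl fun v hv => ?_
    rw [card_filter]
    push_cast
    rw [mul_sum]
    refine sum_congr rfl fun w hw => ?_
    have h4 : I v w ↔ G.Adj v w :=
      ⟨fun h => h.2.2, fun h => ⟨(mem_inter.1 hv).2, (mem_sdiff.1 hw).1, h⟩⟩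
    show (if I v w then (r - 2) / 2 else 0) = _
    simp only [h4]
    split_ifs <;> ring
  have hcut' : ∀ Y ⊆ P, r / 2 * |∑ v ∈ Y, ((x v : ℝ) + qr r (φ v))| ≤
      (r - 2) / 2 * ee G Y (P \ Y) := by
    intro Y hY
    have h1 := hcut Y hY
    have h2 : r / 2 * ((r - 2) / r * (ee G Y (P \ Y) : ℝ)) = (r - 2) / 2 * ee G Y (P \ Y) := by
      field_simp
    rw [← h2]
    exact mul_le_mul_of_nonneg_left h1 (by linarith)
  obtain ⟨g, hg1, hg2, hg3⟩ := hoffman_real u hu0 d (by
    rw [hdY univ, univ_inter]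
    have h1 := hcut' P (Subset.refl P)
    have h2 : P \ P = ∅ := Finset.sdiff_self P
    have h3 : ee G P (∅ : Finset V) = 0 := by
      rw [ee_sum]
      simp
    rw [h2, h3] at h1
    have h4 : |∑ v ∈ P, ((x v : ℝ) + qr r (φ v))| = 0 := by
      refine le_antisymm ?_ (abs_nonneg _)
      by_contra h
      push Not at h
      have : 0 < r / 2 * |∑ v ∈ P, ((x v : ℝ) + qr r (φ v))| := mul_pos (by linarith) h
      push_cast at h1
      linarith
    rw [abs_eq_zero.1 h4, mul_zero]) (by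
    intro Z
    rw [hdY, huZ]
    have h1 := hcut' (Z ∩ P) inter_subset_right
    have h2 := neg_abs_le (∑ v ∈ Z ∩ P, ((x v : ℝ) + qr r (φ v)))
    nlinarith)
  have hgI : ∀ v w, I v w → |g v w| ≤ (r - 2) / 2 := by
    intro v w h
    have h1 := hg2 v w
    have h2 := hg2 w v
    have h3 := hg1 v w
    have h4 : u v w = (r - 2) / 2 := if_pos h
    have h5 : u w v = (r - 2) / 2 := if_pos ((hIs v w).1 h)
    rw [abs_le]
    constructor <;> linarith
  have hg0 : ∀ v w, ¬ I v w → g v w = 0 := by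
    intro v w h
    have h1 := hg2 v w
    have h2 := hg2 w v
    have h3 := hg1 v w
    have h4 : u v w = 0 := if_neg h
    have h5 : u w v = 0 := if_neg fun h' => h ((hIs v w).2 h')
    linarith
  let f : V → V → ℝ := fun v w => if I v w then r / 2 * (σ v w : ℝ) + g v w else 0
  refine ⟨f, fun v w => ?_, fun v w h => if_neg h, fun v hv w hw h => ?_, fun v hv => ?_⟩
  · by_cases h : I v w
    · have h1 : f v w = r / 2 * (σ v w : ℝ) + g v w := if_pos h
      have h2 : f w v = r / 2 * (σ w v : ℝ) + g w v := if_pos ((hIs v w).1 h)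
      rw [h1, h2, hg1 v w, hσa v w h.2.2.ne]
      push_cast
      ring
    · have h1 : f v w = 0 := if_neg h
      have h2 : f w v = 0 := if_neg fun h' => h ((hIs v w).2 h')
      rw [h1, h2, neg_zero]
  · have h0 : I v w := ⟨hv, hw, h⟩
    have h1 : f v w = r / 2 * (σ v w : ℝ) + g v w := if_pos h0
    have h2 := abs_le.1 (hgI v w h0)
    rw [h1]
    rcases hσ1 v w with h3 | h3 <;> rw [h3]
    · push_cast
      rw [abs_of_nonneg (by linarith)]
      constructor <;> linarith
    · push_cast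
      rw [abs_of_nonpos (by linarith)]
      constructor <;> linarith
  · have h1 : ∑ w, f v w = r / 2 * ((∑ w ∈ P.filter fun w => G.Adj v w, σ v w : ℤ) : ℝ) +
        ∑ w, g v w := by
      push_cast
      rw [mul_sum, sum_filter]
      have h2 : ∑ w ∈ P, (if G.Adj v w then r / 2 * (σ v w : ℝ) else 0) =
          ∑ w, if I v w then r / 2 * (σ v w : ℝ) else 0 := by
        rw [← sum_subset (subset_univ P) (f := fun w => if I v w then r / 2 * (σ v w : ℝ) else 0)
          (fun w _ hw => if_neg fun h => hw h.2.1)]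
        refine sum_congr rfl fun w hw => ?_
        have h3 : I v w ↔ G.Adj v w := ⟨fun h => h.2.2, fun h => ⟨hv, hw, h⟩⟩
        simp only [h3]
      rw [h2, ← sum_add_distrib]
      refine sum_congr rfl fun w _ => ?_
      show (if I v w then r / 2 * (σ v w : ℝ) + g v w else 0) = _
      by_cases h : I v w
      · rw [if_pos h, if_pos h]
      · rw [if_neg h, if_neg h, hg0 v w h, add_zero]
    obtain ⟨m, hm⟩ := sum_sgn_parity (P.filter fun w => G.Adj v w) (fun w => σ v w)
      fun w _ => hσ1 v w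
    rw [h1, hm, hg3 v, hdeg v hv]
    have hd : d v = -(r / 2) * ((x v : ℝ) + qr r (φ v)) := if_pos hv
    rw [hd]
    have hx1 : ∃ j : ℤ, x v = 1 + 2 * j := by
      rcases hx v hv with h | h
      · exact ⟨0, by rw [h]; norm_num⟩
      · exact ⟨-1, by rw [h]; norm_num⟩
    obtain ⟨j, hj⟩ := hx1
    by_cases h0 : φ v = 0
    · refine ⟨1 + m - j, ?_⟩
      rw [if_pos h0, h0, qr_zero, hj]
      push_cast
      ring
    · rw [if_neg h0]
      unfold qr
      rcases Real.sign_apply_eq_of_ne_zero (φ v) h0 with h3 | h3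
      · refine ⟨1 + m - j, ?_⟩
        rw [h3, hj]
        push_cast
        field_simp
        ring
      · refine ⟨m - j, ?_⟩
        rw [h3, hj]
        push_cast
        field_simp
        ring

/-- **Flows modulo a real number and real flows** (Tutte): a function on the edges with values
between `1` and `r - 1` and net outflow in `r ℤ` can be changed to one with net outflow `0`. -/
theorem real_of_mod {r : ℝ} (hr : 2 < r) {f : V → V → ℝ} (hf : ∀ v w, f v w = - f w v)
    (hn : ∀ v w, ¬ G.Adj v w → f v w = 0)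
    (h1 : ∀ v w, G.Adj v w → 1 ≤ |f v w| ∧ |f v w| ≤ r - 1)
    (h0 : ∀ v, ∃ k : ℤ, ∑ w, f v w = k * r) :
    ∃ f' : V → V → ℝ, (∀ v w, f' v w = - f' w v) ∧ (∀ v, ∑ w, f' v w = 0) ∧
      (∀ v w, ¬ G.Adj v w → f' v w = 0) ∧
      ∀ v w, G.Adj v w → 1 ≤ |f' v w| ∧ |f' v w| ≤ r - 1 := by
  classical
  choose d hd using h0
  let u : V → V → ℤ := fun v w => if 0 < f v w then 1 else 0
  have hu0 : ∀ v w, (0 : ℤ) ≤ u v w := by
    intro v w
    show (0 : ℤ) ≤ if 0 < f v w then 1 else 0
    split_ifs <;> norm_num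
  have hfu : ∀ v w, f v w ≤ r * (u v w : ℝ) := by
    intro v w
    show f v w ≤ r * (((if 0 < f v w then 1 else 0 : ℤ)) : ℝ)
    by_cases h : 0 < f v w
    · rw [if_pos h]
      have h2 : G.Adj v w := by
        by_contra h'
        rw [hn v w h'] at h
        exact lt_irrefl _ h
      have h3 := (h1 v w h2).2
      rw [abs_of_pos h] at h3
      push_cast
      linarith
    · rw [if_neg h]
      push_cast
      linarith [not_lt.1 h]
  have hcutR : ∀ Z : Finset V, r * ((∑ v ∈ Z, d v : ℤ) : ℝ) ≤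
      r * ((MP974d84.cs u Z : ℤ) : ℝ) := by
    intro Z
    have h2 : r * ((∑ v ∈ Z, d v : ℤ) : ℝ) = ∑ v ∈ Z, ∑ w, f v w := by
      push_cast
      rw [mul_sum]
      refine sum_congr rfl fun v _ => ?_
      rw [hd v]
      ring
    rw [h2, anti_cut hf Z, MP974d84.cs]
    push_cast
    rw [mul_sum]
    refine sum_le_sum fun v _ => ?_
    rw [mul_sum]
    exact sum_le_sum fun w _ => hfu v w
  have hcutZ : ∀ Z : Finset V, ∑ v ∈ Z, d v ≤ MP974d84.cs u Z := by
    intro Z
    have h2 := le_of_mul_le_mul_left (hcutR Z) (by linarith)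
    exact_mod_cast h2
  have htot : ∑ v, d v = 0 := by
    have h2 : r * ((∑ v, d v : ℤ) : ℝ) = ∑ v, ∑ w, f v w := by
      push_cast
      rw [mul_sum]
      refine sum_congr rfl fun v _ => ?_
      rw [hd v]
      ring
    rw [anti_inner hf univ] at h2
    have h3 : ((∑ v, d v : ℤ) : ℝ) = 0 := by
      rcases mul_eq_zero.1 h2 with h | h
      · linarith
      · exact h
    exact_mod_cast h3
  obtain ⟨k, hkA, hku, hkd⟩ := MP974d84.hoffman u d (fun _ _ => 0)
    (fun _ _ => by norm_num) hu0 htot hcutZ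
  have hval : ∀ v w, (f v w = 0 ∧ k v w = 0) ∨ (0 < f v w ∧ (k v w = 0 ∨ k v w = 1)) ∨
      (f v w < 0 ∧ (k v w = 0 ∨ k v w = -1)) := by
    intro v w
    have h2 := hku v w
    have h3 := hku w v
    have h4 := hkA v w
    have h5 := hf v w
    rcases lt_trichotomy (f v w) 0 with h | h | h
    · have h6 : u v w = 0 := if_neg (not_lt.2 h.le)
      have h7 : u w v = 1 := if_pos (by linarith)
      right; right
      exact ⟨h, by omega⟩
    · have h6 : u v w = 0 := if_neg (by rw [h]; exact lt_irrefl _)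
      have h7 : u w v = 0 := if_neg (by
        have : f w v = 0 := by linarith
        rw [this]
        exact lt_irrefl _)
      left
      exact ⟨h, by omega⟩
    · have h6 : u v w = 1 := if_pos h
      have h7 : u w v = 0 := if_neg (by linarith)
      right; left
      exact ⟨h, by omega⟩
  refine ⟨fun v w => f v w - r * (k v w : ℝ), fun v w => ?_, fun v => ?_, fun v w h => ?_,
    fun v w h => ?_⟩
  · show f v w - r * (k v w : ℝ) = -(f w v - r * (k w v : ℝ))
    rw [hf v w, hkA v w]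
    push_cast
    ring
  · show ∑ w, (f v w - r * (k v w : ℝ)) = 0
    rw [sum_sub_distrib, ← mul_sum, hd v]
    have h2 := hkd v
    unfold MP974d84.dv at h2
    have h3 : ((∑ w, k v w : ℤ) : ℝ) = (d v : ℝ) := by rw [h2]
    push_cast at h3
    rw [h3]
    ring
  · show f v w - r * (k v w : ℝ) = 0
    have h2 := hn v w h
    rcases hval v w with ⟨-, h4⟩ | ⟨h4, -⟩ | ⟨h4, -⟩
    · rw [h2, h4]
      simp
    · linarith
    · linarith
  · show 1 ≤ |f v w - r * (k v w : ℝ)| ∧ |f v w - r * (k v w : ℝ)| ≤ r - 1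
    obtain ⟨h2, h3⟩ := h1 v w h
    rcases hval v w with ⟨h4, -⟩ | ⟨h4, h5 | h5⟩ | ⟨h4, h5 | h5⟩
    · rw [h4, abs_zero] at h2
      linarith
    · rw [h5]
      push_cast
      rw [mul_zero, sub_zero]
      exact ⟨h2, h3⟩
    · rw [h5]
      rw [abs_of_pos h4] at h2 h3
      push_cast
      rw [abs_of_nonpos (by linarith)]
      constructor <;> linarith
    · rw [h5]
      push_cast
      rw [mul_zero, sub_zero]
      exact ⟨h2, h3⟩
    · rw [h5]
      rw [abs_of_neg h4] at h2 h3
      push_cast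
      rw [abs_of_nonneg (by linarith)]
      constructor <;> linarith

end Pool.Agent.K5.Re
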