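import Pool.Agent.Work.MP_974d84_co_k5.RegionCount

/-!
# X7: the number of bonds of the outer region and of the cores through a vertex
-/

set_option linter.unusedSectionVars false

namespace Pool.Agent.K5

open Finset SimpleGraph Pool.Agent.Exp Pool.Agent.Log5 Pool.Agent.Log5.Clu

namespace FamC

variable {V : Type} [Fintype V] [DecidableEq V] (G : SimpleGraph V) [DecidableRel G.Adj]

/-- The graph induced on `S`. -/
abbrev Hs (S : Finset V) : SimpleGraph {x // x ∈ S} := G.comap Subtype.val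

/-- A set of vertices of the induced graph as a set of vertices. -/
def up {S : Finset V} (A : Finset {x // x ∈ S}) : Finset V := A.image Subtype.val

/-- The vertices of the induced graph in `P`. -/
def tp (S P : Finset V) : Finset {x // x ∈ S} := univ.filter fun x => (x : V) ∈ P

variable {G}

theorem mem_up {S : Finset V} {A : Finset {x // x ∈ S}} {x : V} :
    x ∈ up A ↔ ∃ h : x ∈ S, (⟨x, h⟩ : {x // x ∈ S}) ∈ A := by
  unfold up
  rw [mem_image]
  constructor
  · rintro ⟨y, hy, rfl⟩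
    exact ⟨y.2, hy⟩
  · rintro ⟨h, hx⟩
    exact ⟨⟨x, h⟩, hx, rfl⟩

theorem mem_tp {S P : Finset V} {x : {x // x ∈ S}} : x ∈ tp S P ↔ (x : V) ∈ P := by
  unfold tp
  rw [mem_filter]
  exact ⟨fun h => h.2, fun h => ⟨mem_univ _, h⟩⟩

theorem up_sub {S : Finset V} (A : Finset {x // x ∈ S}) : up A ⊆ S := by
  intro x hx
  exact (mem_up.1 hx).1

theorem card_up {S : Finset V} (A : Finset {x // x ∈ S}) : (up A).card = A.card := by
  unfold up
  exact card_image_of_injective _ Subtype.val_injective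

theorem up_tp {S P : Finset V} (h : P ⊆ S) : up (tp S P) = P := by
  ext x
  rw [mem_up]
  constructor
  · rintro ⟨hx, h1⟩
    exact mem_tp.1 h1
  · intro hx
    exact ⟨h hx, mem_tp.2 hx⟩

theorem tp_compl {S P : Finset V} : (tp S P)ᶜ = tp S (S \ P) := by
  ext x
  rw [mem_compl, mem_tp, mem_tp, mem_sdiff]
  exact ⟨fun h => ⟨x.2, h⟩, fun h => h.2⟩

theorem dd_up {S : Finset V} (A : Finset {x // x ∈ S}) :
    dd (Hs G S) A = ee G (up A) (S \ up A) := by
  unfold dd ee
  refine card_bij (fun p _ => ((p.1 : V), (p.2 : V))) ?_ ?_ ?_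
  · intro p hp
    rw [mem_cut] at hp
    rw [mem_filter]
    refine ⟨mem_univ _, mem_up.2 ⟨p.1.2, hp.1⟩, ?_, hp.2.2⟩
    rw [mem_sdiff]
    refine ⟨p.2.2, fun h => hp.2.1 ?_⟩
    exact (mem_up.1 h).2
  · intro p _ q _ h
    have h1 := congrArg Prod.fst h
    have h2 := congrArg Prod.snd h
    exact Prod.ext (Subtype.ext h1) (Subtype.ext h2)
  · intro q hq
    rw [mem_filter] at hq
    obtain ⟨_, h1, h2, h3⟩ := hq
    rw [mem_sdiff] at h2
    obtain ⟨a1, a2⟩ := mem_up.1 h1
    refine ⟨(⟨q.1, a1⟩, ⟨q.2, h2.1⟩), ?_, rfl⟩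
    rw [mem_cut]
    exact ⟨a2, fun h => h2.2 (mem_up.2 ⟨h2.1, h⟩), h3⟩

theorem joined_tp {S P : Finset V} (hP : P ⊆ S) (h : Joined G P) :
    Joined (Hs G S) (tp S P) := by
  intro A hA hA0 hAP
  have h1 : up A ⊆ P := by
    intro x hx
    obtain ⟨a1, a2⟩ := mem_up.1 hx
    exact mem_tp.1 (hA a2)
  have h2 : (up A).Nonempty := by
    obtain ⟨x, hx⟩ := hA0
    exact ⟨x.1, mem_up.2 ⟨x.2, hx⟩⟩
  have h3 : up A ≠ P := by
    intro he
    apply hAP
    apply Finset.Subset.antisymm hA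
    intro x hx
    have := mem_tp.1 hx
    rw [← he] at this
    exact (mem_up.1 this).2
  obtain ⟨x, hx, y, hy, hyA, hxy⟩ := h (up A) h1 h2 h3
  obtain ⟨a1, a2⟩ := mem_up.1 hx
  exact ⟨⟨x, a1⟩, a2, ⟨y, hP hy⟩, mem_tp.2 hy, fun h => hyA (mem_up.2 ⟨hP hy, h⟩), hxy⟩

/-- The cut of a part of `S` is the inner cut and the outer cut. -/
theorem dd_split {S A : Finset V} (hA : A ⊆ S) :
    dd G A = ee G A (S \ A) + ee G A Sᶜ := by
  unfold dd ee
  rw [← card_union_of_disjoint]
  · refine congrArg card ?_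
    ext p
    rw [mem_cut, mem_union, mem_filter, mem_filter, mem_sdiff, mem_compl]
    constructor
    · rintro ⟨h1, h2, h3⟩
      by_cases h : p.2 ∈ S
      · exact Or.inl ⟨mem_univ _, h1, ⟨h, h2⟩, h3⟩
      · exact Or.inr ⟨mem_univ _, h1, h, h3⟩
    · rintro (⟨_, h1, h2, h3⟩ | ⟨_, h1, h2, h3⟩)
      · exact ⟨h1, h2.2, h3⟩
      · exact ⟨h1, fun h => h2 (hA h), h3⟩
  · rw [Finset.disjoint_left]
    intro p hp hq
    rw [mem_filter, mem_sdiff] at hp
    rw [mem_filter, mem_compl] at hq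
    exact hq.2.2.1 hp.2.2.1.1

/-- The bonds of one core. -/
theorem core_count {L : ℝ} {C₁ : ℝ}
    (hone : ∀ C : ℝ, C₁ ≤ C → ∀ {V : Type}
      [Fintype V] [DecidableEq V] (G : SimpleGraph V) [DecidableRel G.Adj],
      (∀ A : Finset V, A.Nonempty → Aᶜ.Nonempty → 1 ≤ dd G A) →
      (∀ A : Finset V, A.Nonempty → 2 * A.card ≤ Fintype.card V →
        A.card ≤ 3 * dd G A ∨ C * (1 + Real.log A.card) ^ 2 ≤ dd G A) →
      ∀ (t : V) (D : ℕ) (F : Finset (Finset V)), C ≤ D →
      (∀ Z ∈ F, t ∈ Z ∧ Joined G Z ∧ Joined G Zᶜ ∧ 2 * Z.card ≤ Fintype.card V ∧ dd G Z = D) →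
      (F.card : ℝ) ≤ Real.exp (L * D)) (hL : 0 ≤ L) {C : ℝ} (hC0 : 0 < C) (hC : 3 * C₁ ≤ C)
    {S : Finset V} (hj : Joined G S)
    (hsub : ∀ A ⊂ S, A.Nonempty → gf C A.card ≤ dd G A)
    (hratio : ∀ A ⊆ S, 3 * A.card ≤ 2 * S.card → 100 * ee G A Sᶜ ≤ 123 * ee G A (S \ A))
    (v : V) (D : ℕ) (F : Finset (Finset V)) (hD : C ≤ D)
    (hF : ∀ P ∈ F, v ∈ P ∧ P ⊆ S ∧ Joined G P ∧ Joined G (S \ P) ∧ 2 * P.card ≤ S.card ∧
      dd G P = D) :
    (F.card : ℝ) ≤ Real.exp ((L + 1) * D) := by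
  classical
  by_cases hv : v ∈ S
  swap
  · have : F = ∅ := by
      rw [eq_empty_iff_forall_notMem]
      intro P hP
      exact hv ((hF P hP).2.1 (hF P hP).1)
    rw [this, card_empty]
    simpa using (Real.exp_pos _).le
  have hcard : Fintype.card {x // x ∈ S} = S.card := Fintype.card_coe S
  have hpos : ∀ A : Finset {x // x ∈ S}, A.Nonempty → Aᶜ.Nonempty → 1 ≤ dd (Hs G S) A := by
    intro A hA0 hA1
    have h2 : (up A).Nonempty := by
      obtain ⟨x, hx⟩ := hA0
      exact ⟨x.1, mem_up.2 ⟨x.2, hx⟩⟩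
    have h3 : up A ≠ S := by
      intro he
      obtain ⟨x, hx⟩ := hA1
      rw [mem_compl] at hx
      apply hx
      have h4 : (x : V) ∈ up A := by
        rw [he]
        exact x.2
      exact (mem_up.1 h4).2
    obtain ⟨x, hx, y, hy, hyA, hxy⟩ := hj (up A) (up_sub A) h2 h3
    rw [dd_up]
    unfold ee
    rw [Nat.one_le_iff_ne_zero, ← Nat.pos_iff_ne_zero, card_pos]
    exact ⟨(x, y), by rw [mem_filter]; exact ⟨mem_univ _, hx, by rw [mem_sdiff]; exact ⟨hy, hyA⟩, hxy⟩⟩
  have hkey : ∀ A ⊆ S, 2 * A.card ≤ S.card → (100 : ℝ) * dd G A ≤ 223 * ee G A (S \ A) := by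
    intro A hA hA2
    have h1 := hratio A hA (by omega)
    have h2 := dd_split (G := G) hA
    have : 100 * dd G A ≤ 223 * ee G A (S \ A) := by omega
    exact_mod_cast this
  have hiso : ∀ A : Finset {x // x ∈ S}, A.Nonempty → 2 * A.card ≤ Fintype.card {x // x ∈ S} →
      A.card ≤ 3 * dd (Hs G S) A ∨ C / 3 * (1 + Real.log A.card) ^ 2 ≤ dd (Hs G S) A := by
    intro A hA0 hA2
    rw [hcard] at hA2
    have h2 : (up A).Nonempty := by
      obtain ⟨x, hx⟩ := hA0
      exact ⟨x.1, mem_up.2 ⟨x.2, hx⟩⟩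
    have hup := card_up A
    have hpos' : 0 < A.card := card_pos.2 hA0
    have hss : up A ⊂ S := by
      refine (up_sub A).ssubset_of_ne ?_
      intro he
      rw [he] at hup
      omega
    have h4 := hsub (up A) hss h2
    have h5 := hkey (up A) (up_sub A) (by rw [hup]; exact hA2)
    rw [dd_up]
    rw [hup] at h4
    unfold gf at h4
    rw [min_le_iff] at h4
    rcases h4 with h4 | h4
    · left
      have h6 : (A.card : ℝ) ≤ 3 * (ee G (up A) (S \ up A) : ℝ) := by
        have : (0 : ℝ) ≤ ee G (up A) (S \ up A) := Nat.cast_nonneg _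
        linarith
      exact_mod_cast h6
    · right
      have : (0 : ℝ) ≤ ee G (up A) (S \ up A) := Nat.cast_nonneg _
      linarith
  have hone' := hone (C / 3) (by linarith) (Hs G S) hpos hiso ⟨v, hv⟩
  -- the members with inner cut `D'`
  have hmem : ∀ P ∈ F, ee G P (S \ P) ∈ range (D + 1) := by
    intro P hP
    obtain ⟨_, h2, _, _, _, h6⟩ := hF P hP
    have := dd_split (G := G) h2
    rw [mem_range]
    omega
  have hinner : ∀ D' ∈ range (D + 1),
      ((F.filter fun P => ee G P (S \ P) = D').card : ℝ) ≤ Real.exp (L * D) := by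
    intro D' hD'
    rw [mem_range] at hD'
    by_cases hne : (F.filter fun P => ee G P (S \ P) = D').Nonempty
    swap
    · rw [not_nonempty_iff_eq_empty] at hne
      rw [hne, card_empty]
      simpa using (Real.exp_pos _).le
    have hCD : C / 3 ≤ D' := by
      obtain ⟨P, hP⟩ := hne
      rw [mem_filter] at hP
      obtain ⟨_, h2, _, _, h5, h6⟩ := hF P hP.1
      have := hkey P h2 h5
      rw [h6, hP.2] at this
      linarith
    have hinj : Set.InjOn (tp S) (F.filter fun P => ee G P (S \ P) = D' : Finset (Finset V)) := by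
      intro P hP Q hQ he
      rw [mem_coe, mem_filter] at hP hQ
      have a1 := up_tp (hF P hP.1).2.1
      have a2 := up_tp (hF Q hQ.1).2.1
      rw [← a1, ← a2, he]
    have h := hone' D' ((F.filter fun P => ee G P (S \ P) = D').image (tp S)) hCD (by
      intro Z hZ
      rw [mem_image] at hZ
      obtain ⟨P, hP, rfl⟩ := hZ
      rw [mem_filter] at hP
      obtain ⟨h1, h2, h3, h4, h5, h6⟩ := hF P hP.1
      refine ⟨mem_tp.2 h1, joined_tp h2 h3, ?_, ?_, ?_⟩
      · rw [tp_compl]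
        exact joined_tp sdiff_subset h4
      · rw [hcard, ← card_up, up_tp h2]
        exact h5
      · rw [dd_up, up_tp h2]
        exact hP.2)
    rw [card_image_of_injOn hinj] at h
    refine h.trans (Real.exp_le_exp.2 ?_)
    refine mul_le_mul_of_nonneg_left ?_ hL
    exact_mod_cast Nat.lt_succ_iff.1 hD'
  have hsum : (F.card : ℝ) ≤ ∑ _D' ∈ range (D + 1), Real.exp (L * D) := by
    rw [card_eq_sum_card_fiberwise (f := fun P => ee G P (S \ P)) (t := range (D + 1)) hmem]
    push_cast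
    exact sum_le_sum hinner
  rw [sum_const, card_range, nsmul_eq_mul] at hsum
  have hexp : ((D + 1 : ℕ) : ℝ) ≤ Real.exp D := by
    push_cast
    exact Real.add_one_le_exp _
  calc (F.card : ℝ) ≤ ((D + 1 : ℕ) : ℝ) * Real.exp (L * D) := hsum
    _ ≤ Real.exp D * Real.exp (L * D) :=
        mul_le_mul_of_nonneg_right hexp (Real.exp_pos _).le
    _ = Real.exp ((L + 1) * D) := by
        rw [← Real.exp_add]
        congr 1
        ring

end FamC

open FamC

/-- X7. -/
theorem fam_count : ∃ (κ C₀ : ℝ), ∀ C, C₀ ≤ C → ∃ k₀ N₀ : ℕ, ∀ N k, N₀ ≤ N → k₀ ≤ k →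
    ∀ {V : Type} [Fintype V] [DecidableEq V] (G : SimpleGraph V) [DecidableRel G.Adj],
    (∀ v, G.degree v = 3) → (∀ A : Finset V, A.Nonempty → Aᶜ.Nonempty → 1 ≤ dd G A) →
    CycConn G k → Gir G k → ∀ {r : ℕ} (S : Fin r → Finset V), Cores G C S → Facts G C N k S →
    ∀ (v : V) (D : ℕ) (F : Finset (Finset V)), k₀ ≤ D →
    (∀ P ∈ F, v ∈ P ∧ Fm G S P ∧ dd G P = D) → (F.card : ℝ) ≤ Real.exp (κ * D) := by
  classical
  obtain ⟨C₁, hC₁, hone⟩ := count_one (L := 3) (by norm_num)
  obtain ⟨C₂, κ₂, hC₂, htwo⟩ := region_count_two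
  set L : ℝ := 8 * Real.sqrt ((3 : ℕ) : ℝ) + 1 with hL
  have hL0 : 0 ≤ L := by positivity
  refine ⟨max κ₂ (L + 1) + 1, max (3 * C₁) C₂, ?_⟩
  intro C hC
  have hC1 : 3 * C₁ ≤ C := le_trans (le_max_left _ _) hC
  have hC2 : C₂ ≤ C := le_trans (le_max_right _ _) hC
  have hC0 : 0 < C := by linarith
  obtain ⟨k₀, hk₀⟩ := exists_nat_ge (max C 1)
  refine ⟨k₀, 0, ?_⟩
  intro N k _ _ V _ _ G _ _ hpos _ _ r S hcor hfac v D F hkD hF
  have hCD : C ≤ D := by
    have h1 : (k₀ : ℝ) ≤ D := by exact_mod_cast hkD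
    exact le_trans (le_trans (le_max_left _ _) hk₀) h1
  have h1D : (1 : ℝ) ≤ D := by
    have h1 : (k₀ : ℝ) ≤ D := by exact_mod_cast hkD
    exact le_trans (le_trans (le_max_right _ _) hk₀) h1
  -- the outer region is not everything
  have hWne : (univ.biUnion S)ᶜ ≠ univ := by
    intro he
    have hno : ∀ i : Fin r, False := by
      intro i
      obtain ⟨x, hx⟩ := hcor.ne i
      have h1 : x ∈ (univ.biUnion S)ᶜ := by rw [he]; exact mem_univ x
      rw [mem_compl, mem_biUnion] at h1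
      exact h1 ⟨i, mem_univ i, hx⟩
    have h2 := hcor.out univ ⟨v, mem_univ v⟩ (fun i => (hno i).elim)
    have h3 : dd G (univ : Finset V) = 0 := by
      unfold dd
      rw [card_eq_zero, eq_empty_iff_forall_notMem]
      intro p hp
      rw [mem_cut] at hp
      exact hp.2.1 (mem_univ _)
    rw [h3] at h2
    unfold gf at h2
    rw [min_le_iff] at h2
    have hcv : 1 ≤ (univ : Finset V).card := card_pos.2 ⟨v, mem_univ v⟩
    have hlog : 0 ≤ Real.log ((univ : Finset V).card : ℝ) :=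
      Real.log_nonneg (by exact_mod_cast hcv)
    rcases h2 with h2 | h2
    · have : (0 : ℝ) ≤ ((univ : Finset V).card : ℝ) := Nat.cast_nonneg _
      push_cast at h2
      linarith
    · have : 0 < C * (1 + Real.log ((univ : Finset V).card : ℝ)) ^ 2 := by positivity
      push_cast at h2
      linarith
  -- the two halves
  have hA : ((F.filter fun P => RBond G (univ.biUnion S)ᶜ id P).card : ℝ)
      ≤ Real.exp (κ₂ * D) := by
    refine htwo C hC2 G (univ.biUnion S)ᶜ (fun A _ h1 h2 => hpos A h1 h2) ?_ v D _ hCD ?_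
      (Or.inl hWne)
    · intro A hA hA0 _
      have h1 := hcor.out A hA0 (by
        intro i
        rw [Finset.disjoint_left]
        intro x hx hxi
        have := hA hx
        rw [mem_compl, mem_biUnion] at this
        exact this ⟨i, mem_univ i, hxi⟩)
      unfold gf at h1
      rw [min_le_iff] at h1
      rcases h1 with h1 | h1
      · left
        have h2 : A.card + 2 ≤ dd G A := by exact_mod_cast h1
        omega
      · exact Or.inr h1
    · intro Z hZ
      rw [mem_filter] at hZ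
      exact ⟨(hF Z hZ.1).1, hZ.2, (hF Z hZ.1).2.2⟩
  have hB : ((F.filter fun P => ¬ RBond G (univ.biUnion S)ᶜ id P).card : ℝ)
      ≤ Real.exp ((L + 1) * D) := by
    by_cases hi : ∃ i, v ∈ S i
    swap
    · have : (F.filter fun P => ¬ RBond G (univ.biUnion S)ᶜ id P) = ∅ := by
        rw [eq_empty_iff_forall_notMem]
        intro P hP
        rw [mem_filter] at hP
        obtain ⟨h1, h2, h3⟩ := hF P hP.1
        rcases h2 with h2 | ⟨i, h2, _⟩
        · exact hP.2 h2
        · exact hi ⟨i, h2 h1⟩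
      rw [this, card_empty]
      simpa using (Real.exp_pos _).le
    obtain ⟨i, hi⟩ := hi
    refine core_count (G := G) hone hL0 hC0 hC1 (hfac.joined i) (hcor.sub i) (hfac.ratio i)
      v D _ hCD ?_
    intro P hP
    rw [mem_filter] at hP
    obtain ⟨h1, h2, h3⟩ := hF P hP.1
    rcases h2 with h2 | ⟨j, h4, h5, h6, h7, h8⟩
    · exact (hP.2 h2).elim
    · have hij : j = i := by
        by_contra hne
        exact (Finset.disjoint_left.1 (hcor.disj j i hne)) (h4 h1) hi
      subst hij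
      exact ⟨h1, h4, h6, h7, h8, h3⟩
  have hcard : (F.card : ℝ) = ((F.filter fun P => RBond G (univ.biUnion S)ᶜ id P).card : ℝ)
      + ((F.filter fun P => ¬ RBond G (univ.biUnion S)ᶜ id P).card : ℝ) := by
    rw [← card_filter_add_card_filter_not (s := F) (p := fun P => RBond G (univ.biUnion S)ᶜ id P)]
    push_cast
    rfl
  set M : ℝ := max κ₂ (L + 1) with hM
  have hD0 : (0 : ℝ) ≤ D := by linarith
  have hA' : Real.exp (κ₂ * D) ≤ Real.exp (M * D) :=
    Real.exp_le_exp.2 (mul_le_mul_of_nonneg_right (le_max_left _ _) hD0)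
  have hB' : Real.exp ((L + 1) * D) ≤ Real.exp (M * D) :=
    Real.exp_le_exp.2 (mul_le_mul_of_nonneg_right (le_max_right _ _) hD0)
  have h2e : (2 : ℝ) ≤ Real.exp D := by
    have := Real.add_one_le_exp (D : ℝ)
    linarith
  calc (F.card : ℝ) ≤ Real.exp (M * D) + Real.exp (M * D) := by rw [hcard]; linarith
    _ = 2 * Real.exp (M * D) := by ring
    _ ≤ Real.exp D * Real.exp (M * D) := mul_le_mul_of_nonneg_right h2e (Real.exp_pos _).le
    _ = Real.exp ((M + 1) * D) := by
        rw [← Real.exp_add]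
        congr 1
        ring

end Pool.Agent.K5
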