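import Mathlib
import Pool.Agent.Work.MP_974d84_co_k5.FewCirc
import Pool.Agent.Work.MP_974d84_co_k5.CritReal
import Pool.Agent.Work.MP_974d84_co_k5.HandInG

/-!
# Few small shores, circular flows: the form of the hand-in
-/

set_option linter.unusedSectionVars false

namespace Pool.Agent.K5.FC

open Finset SimpleGraph Pool.Agent.Exp Pool.Agent.Log5 Pool.Agent.Log5.Clu MP974d84

/-- The form of the hand-in: many small shores, dense spots or circular flows. -/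
theorem circ_final (κ : ℕ) (hκ : 4 ≤ κ) (ε : ℝ) (hε : 0 < ε) :
    ∃ C : ℕ, ∀ (V : Type) [Fintype V] [DecidableEq V] (G : SimpleGraph V) [DecidableRel G.Adj],
    G.IsRegularOfDegree 3 →
    (∀ S : Finset V, ¬ (G.induce (S : Set V)).IsAcyclic →
      ¬ (G.induce ((Sᶜ : Finset V) : Set V)).IsAcyclic → κ ≤ (G.interedges S Sᶜ).card) →
    ∀ m : ℕ, 1 ≤ m →
    (∃ X : Fin m → Finset V, (∀ i j, i ≠ j → Disjoint (X i) (X j)) ∧
      ∀ i, ¬ (G.induce (X i : Set V)).IsAcyclic ∧ (G.interedges (X i) (X i)ᶜ).card ≤ C) ∨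
    (∃ U : Finset V, U.card ≤ C * m ∧
      (C + 1) * U.card < C * (G.induce (U : Set V)).edgeSet.ncard) ∨
    ((∃ f : V → V → ℝ, (∀ u v, f u v = - f v u) ∧ (∀ v, ∑ u, f v u = 0) ∧
      (∀ u v, ¬ G.Adj u v → f u v = 0) ∧
      ∀ u v, G.Adj u v → 1 ≤ |f u v| ∧ |f u v| ≤ 4 * κ / (κ - 1) - 1 + ε) ∧
    (6 ≤ κ → ∀ i : ℕ, 5 ≤ i → HasNZFlow (ZMod i) G)) := by
  have hκR : (4 : ℝ) ≤ κ := by exact_mod_cast hκ
  have hκ1 : (0 : ℝ) < κ - 1 := by linarith
  have hκ0 : (0 : ℝ) < κ := by linarith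
  set ε' : ℝ := min ε (1 / 5) with hε'
  have hε'0 : 0 < ε' := lt_min hε (by norm_num)
  set a : ℝ := 4 * κ / (κ - 1) with ha
  have ha4 : 4 ≤ a := by
    rw [ha, le_div_iff₀ hκ1]
    linarith
  set ρ : ℝ := a + ε' with hρ
  have hρ0 : 0 < ρ := by linarith
  set d : ℝ := (ρ - 2) / ρ with hd
  have hd1 : d < 1 := by
    rw [hd, div_lt_one hρ0]
    linarith
  have hdκ : 1 / 2 + 1 / (2 * (κ : ℝ)) < d := by
    have h1 : 1 / 2 + 1 / (2 * (κ : ℝ)) = (a - 2) / a := by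
      rw [ha]
      field_simp
      ring
    have ha0 : 0 < a := by linarith
    rw [h1, hd, div_lt_div_iff₀ ha0 hρ0]
    nlinarith only [hρ, hε'0, ha0]
  obtain ⟨C, hC⟩ := fc_main (k := κ) (by omega) hdκ hd1
  refine ⟨2 * C, ?_⟩
  intro V _ _ G _ h3 hS m hm
  by_cases hX : ∃ X : Fin m → Finset V, (∀ i j, i ≠ j → Disjoint (X i) (X j)) ∧
      ∀ i, ¬ (G.induce (X i : Set V)).IsAcyclic ∧ (G.interedges (X i) (X i)ᶜ).card ≤ 2 * C
  · exact Or.inl hX
  by_cases hU : ∃ U : Finset V, U.card ≤ 2 * C * m ∧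
      (2 * C + 1) * U.card < 2 * C * (G.induce (U : Set V)).edgeSet.ncard
  · exact Or.inr (Or.inl hU)
  right
  right
  obtain ⟨x, hx, hxX⟩ := hC G h3 (fun S h1 h2 => by
    rw [← dd_interedges]
    exact hS S h1 h2) m hm (fun U hUc => by
    by_contra hcon
    push Not at hcon
    refine hU ⟨U, hUc.trans (Nat.mul_le_mul_right m (by omega)), ?_⟩
    have h1 := dd_add_edges h3 U
    set e := (G.induce (U : Set V)).edgeSet.ncard with he
    have h2 : C * (dd G U + 2 * e) = C * (3 * U.card) := by rw [h1]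
    have h4 : C * (dd G U + 2 * e) = C * dd G U + 2 * C * e := by ring
    have h5 : C * (3 * U.card) = C * U.card + 2 * C * U.card := by ring
    have h6 : (2 * C + 1) * U.card = 2 * C * U.card + U.card := by ring
    omega) (fun ⟨X, h1, h2⟩ => hX ⟨X, h1, fun i => ⟨(h2 i).1, by
      rw [dd_interedges]
      exact (h2 i).2.trans (by omega)⟩⟩)
  obtain ⟨f, f1, f2, f3, f4⟩ := crit_real G (r := ρ) (by linarith) h3 x hx (fun X => by
    have h7 := mul_le_mul_of_nonneg_left (hxX X) hρ0.le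
    refine h7.trans (le_of_eq ?_)
    rw [hd]
    field_simp)
  refine ⟨⟨f, f1, f2, f3, fun u v huv => ⟨(f4 u v huv).1, (f4 u v huv).2.trans ?_⟩⟩, fun h6 => ?_⟩
  · have h1 : ε' ≤ ε := min_le_left _ _
    linarith
  · refine flow_of_real f1 f2 f3 fun u v huv => ⟨(f4 u v huv).1, (f4 u v huv).2.trans ?_⟩
    have h1 : ε' ≤ 1 / 5 := min_le_right _ _
    have h2 : (6 : ℝ) ≤ κ := by exact_mod_cast h6
    have h4 : a ≤ 24 / 5 := by
      rw [ha, div_le_iff₀ hκ1]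
      linarith
    linarith

end Pool.Agent.K5.FC
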