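import Mathlib
import Pool.Agent.Work.MP_974d84_co_k5.BeadIn

/-!
# Decomposition of a graph with few disjoint small cyclic cuts into beads and a forest

Let `G` be cubic, of girth at least `C m`, without `m` pairwise disjoint vertex sets which contain
circuits and have at most `C` boundary edges. Then there are disjoint sets with a boundary which
is far apart and with large cyclic cuts, and the other vertices span a forest.
-/

set_option linter.unusedSectionVars false

namespace Pool.Agent.K5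

open Finset SimpleGraph Pool.Agent.Exp Pool.Agent.Log5 Pool.Agent.Log5.Clu

section

variable {V : Type} [Fintype V] [DecidableEq V] {G : SimpleGraph V} [DecidableRel G.Adj]

theorem dd_empty_fc : dd G (∅ : Finset V) = 0 := by rw [dd_ee, ee_sum, sum_empty]

/-- The edges leaving the union of some sets. -/
theorem dd_biUnion_le (F : Finset (Finset V)) : dd G (F.biUnion id) ≤ ∑ P ∈ F, dd G P := by
  classical
  induction F using Finset.induction_on with
  | empty => rw [biUnion_empty, sum_empty, dd_empty_fc]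
  | insert P F hP ih =>
    rw [biUnion_insert, sum_insert hP]
    have h1 : dd G (id P ∪ F.biUnion id) ≤ dd G P + dd G (F.biUnion id) := by
      rw [dd_ee, dd_ee P, dd_ee (F.biUnion id)]
      have h2 : ee G (id P ∪ F.biUnion id) (id P ∪ F.biUnion id)ᶜ ≤
          ee G P (id P ∪ F.biUnion id)ᶜ + ee G (F.biUnion id) (id P ∪ F.biUnion id)ᶜ := by
        rw [ee_sum, ee_sum, ee_sum, ← sum_union_inter]
        exact Nat.le_add_right _ _
      refine h2.trans (Nat.add_le_add (ee_mono (Subset.refl _) ?_) (ee_mono (Subset.refl _) ?_))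
      · exact compl_subset_compl.2 subset_union_left
      · exact compl_subset_compl.2 subset_union_right
    omega

variable (G) in
/-- Disjoint sets with circuits which leave at most `L` vertices. -/
structure FcFam (L : ℕ) (F : Finset (Finset V)) : Prop where
  cyc : ∀ P ∈ F, ¬ (G.induce (P : Set V)).IsAcyclic
  disj : ∀ P ∈ F, ∀ Q ∈ F, P ≠ Q → Disjoint P Q
  big : Fintype.card V ≤ ∑ P ∈ F, P.card + L

theorem ne_of_cyc {P : Finset V} (h : ¬ (G.induce (P : Set V)).IsAcyclic) : P.Nonempty := by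
  rw [nonempty_iff_ne_empty]
  rintro rfl
  refine h ?_
  rw [coe_empty]
  exact SimpleGraph.IsAcyclic.of_subsingleton

theorem FcFam.replace {L L' : ℕ} {F : Finset (Finset V)} (h : FcFam G L F) {P : Finset V} (hP : P ∈ F)
    {Q : Finset (Finset V)} (hQ : ∀ X ∈ Q, X ⊆ P ∧ ¬ (G.induce (X : Set V)).IsAcyclic)
    (hd : ∀ X ∈ Q, ∀ Y ∈ Q, X ≠ Y → Disjoint X Y)
    (hc : P.card + L ≤ ∑ X ∈ Q, X.card + L') :
    FcFam G L' (F.erase P ∪ Q) ∧ ∀ f : Finset V → ℤ,
      ∑ X ∈ F.erase P ∪ Q, f X = ∑ X ∈ F, f X - f P + ∑ X ∈ Q, f X := by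
  classical
  have hdis : Disjoint (F.erase P) Q := by
    rw [Finset.disjoint_left]
    intro X h1 h2
    have h3 := h.disj X (mem_of_mem_erase h1) P hP (ne_of_mem_erase h1)
    obtain ⟨v, hv⟩ := ne_of_cyc (hQ X h2).2
    exact Finset.disjoint_left.1 h3 hv ((hQ X h2).1 hv)
  have hsum : ∀ f : Finset V → ℤ,
      ∑ X ∈ F.erase P ∪ Q, f X = ∑ X ∈ F, f X - f P + ∑ X ∈ Q, f X := by
    intro f
    rw [sum_union hdis, ← add_sum_erase F f hP]
    ring
  refine ⟨⟨?_, ?_, ?_⟩, hsum⟩
  · intro X hX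
    rcases mem_union.1 hX with hX | hX
    · exact h.cyc X (mem_of_mem_erase hX)
    · exact (hQ X hX).2
  · intro X hX Y hY hne
    rcases mem_union.1 hX with hX | hX <;> rcases mem_union.1 hY with hY | hY
    · exact h.disj X (mem_of_mem_erase hX) Y (mem_of_mem_erase hY) hne
    · exact (h.disj X (mem_of_mem_erase hX) P hP (ne_of_mem_erase hX)).mono_right (hQ Y hY).1
    · exact ((h.disj Y (mem_of_mem_erase hY) P hP (ne_of_mem_erase hY)).mono_right (hQ X hX).1).symm
    · exact hd X hX Y hY hne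
  · have h1 := hsum (fun X => (X.card : ℤ))
    have h2 := h.big
    have h3 : (∑ X ∈ F.erase P ∪ Q, X.card : ℤ) = ((∑ X ∈ F.erase P ∪ Q, X.card : ℕ) : ℤ) := by
      push_cast; rfl
    have h4 : (∑ X ∈ F, X.card : ℤ) = ((∑ X ∈ F, X.card : ℕ) : ℤ) := by push_cast; rfl
    have h5 : (∑ X ∈ Q, X.card : ℤ) = ((∑ X ∈ Q, X.card : ℕ) : ℤ) := by push_cast; rfl
    rw [h3, h4, h5] at h1
    omega

/-- **Decomposition.** -/
theorem exists_parts (D k₀ : ℕ) : ∃ C : ℕ, ∀ m : ℕ, 1 ≤ m → ∀ {V : Type} [Fintype V]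
    [DecidableEq V] (G : SimpleGraph V) [DecidableRel G.Adj], (∀ v, G.degree v = 3) → Nonempty V →
    Gir G (C * m) →
    (∀ F : Finset (Finset V), (∀ X ∈ F, ¬ (G.induce (X : Set V)).IsAcyclic ∧ dd G X ≤ C) →
      (∀ X ∈ F, ∀ Y ∈ F, X ≠ Y → Disjoint X Y) → F.card < m) →
    ∃ s : ℕ, 0 < s ∧ ∃ P : Fin s → Finset V, (∀ i j, i ≠ j → Disjoint (P i) (P j)) ∧
      (∀ i, ¬ (G.induce (P i : Set V)).IsAcyclic) ∧ (∀ i, FarB G D (P i)) ∧
      (∀ i, ∀ Y ⊆ P i, ¬ (G.induce (Y : Set V)).IsAcyclic →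
        ¬ (G.induce ((P i \ Y : Finset V) : Set V)).IsAcyclic → k₀ ≤ ee G Y (P i \ Y)) ∧
      ∀ U : Finset V, U.Nonempty → (∀ i, Disjoint U (P i)) → U.card + 2 ≤ dd G U := by
  classical
  obtain ⟨β, hβ⟩ : ∃ β : ℕ, β = D + 2 := ⟨_, rfl⟩
  obtain ⟨γ, hγ⟩ : ∃ γ : ℕ, γ = 2 * β * (k₀ + 1) := ⟨_, rfl⟩
  have hγ0 : 0 < γ := by rw [hγ, hβ]; positivity
  refine ⟨γ + 2 * D + 1, ?_⟩
  intro m hm V _ _ G _ h3 hV hgir hfew
  have hCm : γ * m + 2 * D + 1 ≤ (γ + 2 * D + 1) * m := by
    have h1 : (γ + 2 * D + 1) * m = γ * m + (2 * D + 1) * m := by ring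
    have h2 : (2 * D + 1) * 1 ≤ (2 * D + 1) * m := Nat.mul_le_mul_left _ hm
    omega
  have hac : ∀ A : Finset V, A.card ≤ γ * m + 2 * D → (G.induce (A : Set V)).IsAcyclic :=
    fun A hA => hgir A (by omega)
  obtain ⟨val, hval⟩ : ∃ val : Finset V → ℤ, ∀ P, val P =
      (β : ℤ) * dd G P + ((β : ℤ) - 2) * P.card - γ := ⟨_, fun P => rfl⟩
  -- the whole graph
  have hddV : dd G (univ : Finset V) = 0 := by
    rw [← dd_compl, compl_univ, dd_empty_fc]
  have hcycV : ¬ (G.induce ((univ : Finset V) : Set V)).IsAcyclic := by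
    intro h
    have h1 := dd_of_acyclic G h3 (univ_nonempty (α := V)) h
    omega
  have hFam₀ : FcFam G (γ * m + D) ({univ} : Finset (Finset V)) := by
    refine ⟨fun P hP => ?_, fun P hP Q hQ hne => ?_, ?_⟩
    · rw [mem_singleton.1 hP]
      exact hcycV
    · rw [mem_singleton] at hP hQ
      exact absurd (hP.trans hQ.symm) hne
    · rw [sum_singleton, card_univ]
      omega
  obtain ⟨F, hF, hmin⟩ := exists_min_image
    ((univ : Finset (Finset (Finset V))).filter fun F => FcFam G (γ * m + D) F)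
    (fun F => ∑ P ∈ F, val P) ⟨{univ}, mem_filter.2 ⟨mem_univ _, hFam₀⟩⟩
  have hFam : FcFam G (γ * m + D) F := (mem_filter.1 hF).2
  have hmin' : ∀ F', FcFam G (γ * m + D) F' → ∑ P ∈ F, val P ≤ ∑ P ∈ F', val P :=
    fun F' hF' => hmin F' (mem_filter.2 ⟨mem_univ _, hF'⟩)
  -- the rest
  set R : Finset V := (F.biUnion id)ᶜ with hR
  have hcardU : (F.biUnion id).card = ∑ P ∈ F, P.card :=
    card_biUnion fun P hP Q hQ hne => hFam.disj P hP Q hQ hne
  have hRc : R.card + ∑ P ∈ F, P.card = Fintype.card V := by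
    rw [hR, ← hcardU, card_compl]
    have := card_le_univ (F.biUnion id)
    omega
  have hRL : R.card ≤ γ * m + D := by
    have := hFam.big
    omega
  obtain ⟨Ds, hDs⟩ : ∃ Ds : ℕ, Ds = ∑ P ∈ F, dd G P := ⟨_, rfl⟩
  have hRD : R.card ≤ Ds := by
    rcases R.eq_empty_or_nonempty with h | h
    · rw [h, card_empty]
      exact Nat.zero_le _
    · have h1 := dd_of_acyclic G h3 h (hac R (by omega))
      have h2 : dd G R = dd G (F.biUnion id) := by rw [hR, dd_compl]
      have h4 := dd_biUnion_le (G := G) F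
      omega
  have hFne : F.Nonempty := by
    rw [nonempty_iff_ne_empty]
    intro h
    rw [h, sum_empty] at hRc
    have h1 : R = univ := by
      rw [hR, h, biUnion_empty, compl_empty]
    have h2 := hac R (by omega)
    rw [h1] at h2
    exact hcycV h2
  have hs1 : 1 ≤ F.card := card_pos.2 hFne
  have hbase : (β : ℤ) * Ds ≤ ((β : ℤ) - 2) * R.card + γ * ((F.card : ℤ) - 1) := by
    have h1 := hmin' _ hFam₀
    rw [sum_singleton, hval, hddV, card_univ] at h1
    have h2 : ∑ P ∈ F, val P = (β : ℤ) * Ds + ((β : ℤ) - 2) * (∑ P ∈ F, P.card : ℕ) -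
        γ * F.card := by
      rw [hDs]
      push_cast
      rw [sum_congr rfl fun P _ => hval P, sum_sub_distrib, sum_add_distrib, sum_const,
        ← mul_sum, ← mul_sum, nsmul_eq_mul]
      ring
    rw [h2] at h1
    have h4 : ((∑ P ∈ F, P.card : ℕ) : ℤ) = (Fintype.card V : ℤ) - R.card := by
      have := hRc
      omega
    rw [h4] at h1
    push_cast at h1
    nlinarith [h1]
  have hβ2 : (2 : ℤ) ≤ β := by
    rw [hβ]
    push_cast
    omega
  have h2D : 2 * (Ds : ℤ) ≤ γ * ((F.card : ℤ) - 1) := by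
    have h1 : ((β : ℤ) - 2) * R.card ≤ ((β : ℤ) - 2) * Ds :=
      mul_le_mul_of_nonneg_left (by exact_mod_cast hRD) (by omega)
    nlinarith [h1, hbase]
  -- few members
  have hsm : F.card < 2 * m := by
    have h1 := hfew (F.filter fun P => dd G P ≤ γ) (fun X hX => ?_) fun X hX Y hY hne =>
      hFam.disj X (mem_filter.1 hX).1 Y (mem_filter.1 hY).1 hne
    · have h2 : γ * (F.filter fun P => ¬ dd G P ≤ γ).card ≤ Ds := by
        rw [hDs, mul_comm, ← smul_eq_mul, ← sum_const]
        calc ∑ P ∈ F.filter (fun P => ¬ dd G P ≤ γ), γ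
            ≤ ∑ P ∈ F.filter (fun P => ¬ dd G P ≤ γ), dd G P := by
              refine sum_le_sum fun P hP => ?_
              have := (mem_filter.1 hP).2
              omega
          _ ≤ ∑ P ∈ F, dd G P := sum_le_sum_of_subset (filter_subset _ _)
      have h4 := card_filter_add_card_filter_not (s := F) (fun P => dd G P ≤ γ)
      have h5 : (γ : ℤ) * (2 * (F.filter fun P => ¬ dd G P ≤ γ).card) ≤
          γ * ((F.card : ℤ) - 1) := by
        have h6 : ((γ * (F.filter fun P => ¬ dd G P ≤ γ).card : ℕ) : ℤ) ≤ Ds := by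
          exact_mod_cast h2
        push_cast at h6
        nlinarith [h2D, h6]
      have h7 : 2 * ((F.filter fun P => ¬ dd G P ≤ γ).card : ℤ) ≤ (F.card : ℤ) - 1 :=
        le_of_mul_le_mul_left h5 (by exact_mod_cast hγ0)
      omega
    · have h2 := mem_filter.1 hX
      exact ⟨hFam.cyc X h2.1, by omega⟩
  have hDm : Ds ≤ γ * m := by
    have h1 : (γ : ℤ) * ((F.card : ℤ) - 1) ≤ γ * (2 * m) :=
      mul_le_mul_of_nonneg_left (by omega) (Int.natCast_nonneg _)
    have h2 : 2 * (Ds : ℤ) ≤ 2 * (γ * m) := by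
      calc 2 * (Ds : ℤ) ≤ γ * ((F.card : ℤ) - 1) := h2D
        _ ≤ γ * (2 * m) := h1
        _ = 2 * (γ * m) := by ring
    have h4 : (Ds : ℤ) ≤ γ * m := by omega
    exact_mod_cast h4
  have hFam₁ : FcFam G (γ * m) F := ⟨hFam.cyc, hFam.disj, by omega⟩
  have hPD : ∀ P ∈ F, dd G P ≤ Ds := fun P hP => by
    rw [hDs]
    exact single_le_sum (f := fun P => dd G P) (fun _ _ => Nat.zero_le _) hP
  -- far boundaries
  have hfar : ∀ P ∈ F, FarB G D P := by
    intro P hP Q hQ hQc hconn
    by_contra hcon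
    push Not at hcon
    have h1 := bead_sdiff (G := G) hQ
    have h2 := bead_conn h3 hconn
    have hcyc : ¬ (G.induce ((P \ Q : Finset V) : Set V)).IsAcyclic := by
      intro hacy
      refine hFam.cyc P hP (hac P ?_)
      have h4 : (P \ Q).card + Q.card = P.card := card_sdiff_add_card_eq_card hQ
      rcases (P \ Q).eq_empty_or_nonempty with h | h
      · rw [h, card_empty] at h4
        omega
      · have h5 := dd_of_acyclic G h3 h hacy
        have h6 := hPD P hP
        omega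
    obtain ⟨h4, h5⟩ := hFam₁.replace (L' := γ * m + D) hP (Q := {P \ Q}) (fun X hX => by
      rw [mem_singleton.1 hX]
      exact ⟨sdiff_subset, hcyc⟩) (fun X hX Y hY hne => by
      rw [mem_singleton] at hX hY
      exact absurd (hX.trans hY.symm) hne) (by
      rw [sum_singleton]
      have h4 : (P \ Q).card + Q.card = P.card := card_sdiff_add_card_eq_card hQ
      omega)
    have h6 := hmin' _ h4
    rw [h5, sum_singleton, hval, hval] at h6
    have h7 : ((P \ Q).card : ℤ) = P.card - Q.card := by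
      have h4 : (P \ Q).card + Q.card = P.card := card_sdiff_add_card_eq_card hQ
      omega
    have h8 : (dd G (P \ Q) : ℤ) ≤ dd G P + Q.card - 2 := by omega
    have h9 : (β : ℤ) * dd G (P \ Q) ≤ β * (dd G P + Q.card - 2) :=
      mul_le_mul_of_nonneg_left h8 (by omega)
    have h10 : (Q.card : ℤ) ≤ D := by exact_mod_cast hQc
    have h11 : (β : ℤ) = D + 2 := by rw [hβ]; push_cast; rfl
    rw [h7] at h6
    nlinarith [h6, h9, h10, h11]
  -- large cuts
  have hcut : ∀ P ∈ F, ∀ Y ⊆ P, ¬ (G.induce (Y : Set V)).IsAcyclic →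
      ¬ (G.induce ((P \ Y : Finset V) : Set V)).IsAcyclic → k₀ ≤ ee G Y (P \ Y) := by
    intro P hP Y hY hY1 hY2
    by_contra hcon
    push Not at hcon
    have hne : Y ≠ P \ Y := by
      intro h
      obtain ⟨v, hv⟩ := ne_of_cyc hY1
      have h1 := hv
      rw [h] at h1
      exact (mem_sdiff.1 h1).2 hv
    have hYY : Disjoint Y (P \ Y) := disjoint_sdiff
    obtain ⟨h4, h5⟩ := hFam.replace (L' := γ * m + D) hP (Q := {Y, P \ Y}) (fun X hX => by
      rw [mem_insert, mem_singleton] at hX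
      rcases hX with rfl | rfl
      · exact ⟨hY, hY1⟩
      · exact ⟨sdiff_subset, hY2⟩) (fun X hX Z hZ hXZ => by
      rw [mem_insert, mem_singleton] at hX hZ
      rcases hX with rfl | rfl <;> rcases hZ with rfl | rfl
      · exact absurd rfl hXZ
      · exact hYY
      · exact hYY.symm
      · exact absurd rfl hXZ) (by
      rw [sum_pair hne]
      have h4 : (P \ Y).card + Y.card = P.card := card_sdiff_add_card_eq_card hY
      omega)
    have h6 := hmin' _ h4
    rw [h5, sum_pair hne, hval, hval, hval] at h6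
    have h7 : ((P \ Y).card : ℤ) = P.card - Y.card := by
      have h4 : (P \ Y).card + Y.card = P.card := card_sdiff_add_card_eq_card hY
      omega
    have h8 := bead_split (G := G) hY
    have h8' : (dd G Y : ℤ) + dd G (P \ Y) = dd G P + 2 * ee G Y (P \ Y) := by exact_mod_cast h8
    have h9 : (ee G Y (P \ Y) : ℤ) + 1 ≤ k₀ := by exact_mod_cast hcon
    have h10 : (γ : ℤ) = 2 * β * (k₀ + 1) := by rw [hγ]; push_cast; rfl
    rw [h7] at h6
    have h11 : (β : ℤ) * (ee G Y (P \ Y) + 1) ≤ β * k₀ :=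
      mul_le_mul_of_nonneg_left h9 (by omega)
    have h12 : (β : ℤ) * (dd G Y + dd G (P \ Y)) = β * (dd G P + 2 * ee G Y (P \ Y)) := by
      rw [h8']
    nlinarith [h6, h11, h12, h10, hβ2]
  refine ⟨F.card, card_pos.2 hFne, fun i => ((F.equivFin.symm i : F) : Finset V), ?_, ?_, ?_, ?_,
    ?_⟩
  · intro i j hij
    refine hFam.disj _ (F.equivFin.symm i).2 _ (F.equivFin.symm j).2 fun h => hij ?_
    exact F.equivFin.symm.injective (Subtype.ext h)
  · exact fun i => hFam.cyc _ (F.equivFin.symm i).2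
  · exact fun i => hfar _ (F.equivFin.symm i).2
  · exact fun i => hcut _ (F.equivFin.symm i).2
  · intro U hU hdis
    have hUR : U ⊆ R := by
      intro v hv
      rw [hR, mem_compl, mem_biUnion]
      rintro ⟨P, hP, hvP⟩
      have h1 : Disjoint U P := by
        have h2 := hdis (F.equivFin ⟨P, hP⟩)
        simpa using h2
      exact Finset.disjoint_left.1 h1 hv hvP
    refine dd_of_acyclic G h3 hU (hac U ?_)
    have := card_le_card hUR
    omega

end

end Pool.Agent.K5
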