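import Mathlib
import Pool.Agent.Work.MP_974d84_co_k5.FewCuts
import Pool.Agent.Work.MP_974d84_co_k5.FreeSets

/-!
# Cyclically 5-edge-connected graphs with few disjoint small cyclic cuts and large girth
-/

set_option linter.unusedSectionVars false

namespace Pool.Agent.K5

open Finset SimpleGraph Pool.Agent.Exp Pool.Agent.Log5 Pool.Agent.Log5.Clu MP974d84

/-- From the extension theorem: a cyclically 5-edge-connected cubic graph of girth at least `C m`
without `m` disjoint sets with circuits and at most `C` boundary edges has a nowhere-zero flow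
modulo five. -/
theorem flow_of_few (hE : ∃ D K : ℕ, ∀ {V : Type} [Fintype V] [DecidableEq V]
      (G : SimpleGraph V) [DecidableRel G.Adj], (∀ v, G.degree v = 3) →
      ∀ P : Finset V, FarB G D P →
      (∀ A ⊆ P, A.card < K → (G.induce (A : Set V)).IsAcyclic) →
      (∀ Y ⊆ P, ¬ (G.induce (Y : Set V)).IsAcyclic →
        ¬ (G.induce ((P \ Y : Finset V) : Set V)).IsAcyclic → K ≤ ee G Y (P \ Y)) →
      ∀ φ : V → ZMod 5, BdryOK G P φ → ExtFlow G P φ) :
    ∃ C : ℕ, ∀ m : ℕ, 1 ≤ m → ∀ {V : Type} [Fintype V]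
    [DecidableEq V] (G : SimpleGraph V) [DecidableRel G.Adj], (∀ v, G.degree v = 3) → Nonempty V →
    CycConn G 5 → Gir G (C * m) →
    (∀ F : Finset (Finset V), (∀ X ∈ F, ¬ (G.induce (X : Set V)).IsAcyclic ∧ dd G X ≤ C) →
      (∀ X ∈ F, ∀ Y ∈ F, X ≠ Y → Disjoint X Y) → F.card < m) →
    HasNZFlow (ZMod 5) G := by
  obtain ⟨D, K, hE⟩ := hE
  obtain ⟨C, hC⟩ := exists_parts (D + 1) K
  refine ⟨C + K, ?_⟩
  intro m hm V _ _ G _ h3 hV hc hgir hfew
  have hle : C * m ≤ (C + K) * m := Nat.mul_le_mul_right _ (Nat.le_add_right _ _)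
  have hKm : K ≤ (C + K) * m := by
    calc K = K * 1 := (mul_one K).symm
      _ ≤ K * m := Nat.mul_le_mul_left _ hm
      _ ≤ (C + K) * m := Nat.mul_le_mul_right _ (Nat.le_add_left _ _)
  obtain ⟨s, hs, P, hP1, hP2, hP3, hP4, hP5⟩ := hC m hm G h3 hV (fun A hA => hgir A (by omega))
    fun F hF hF' => hfew F (fun X hX => ⟨(hF X hX).1, by have := (hF X hX).2; omega⟩) hF'
  refine flow_of_free h3 (le_refl 5) hc hs P hP1 hP2 (fun i v hv w w' hw hw' h1 h2 => ?_)
    (fun i φ hφ => ?_) fun U hU => ?_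
  · by_contra hne
    have h4 := far_joined (hP3 i) (Q := {v}) (singleton_subset_iff.2 hv)
      (by rw [card_singleton]; omega) (joined_singleton v)
    rw [ee_sum, sum_singleton] at h4
    have h5 : ({w, w'} : Finset V) ⊆ (P i)ᶜ.filter fun u => G.Adj v u := by
      intro u hu
      rw [mem_insert, mem_singleton] at hu
      rcases hu with rfl | rfl
      · exact mem_filter.2 ⟨mem_compl.2 hw, h1⟩
      · exact mem_filter.2 ⟨mem_compl.2 hw', h2⟩
    have h6 := card_le_card h5
    rw [card_pair hne] at h6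
    omega
  · exact hE G h3 (P i) (fun Q hQ hc hconn => hP3 i Q hQ (by omega) hconn)
      (fun A hA hc => hgir A (by omega)) (hP4 i) φ hφ
  · rcases U.eq_empty_or_nonempty with rfl | hne
    · simp
    · have := hP5 U hne hU
      omega

end Pool.Agent.K5
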