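import Mathlib
import Pool.Agent.Work.MP_974d84_co_k5.FewParts
import Pool.Agent.Work.MP_974d84_co_k5.FreeSets
import Pool.Agent.Work.MP_974d84_co_k5.BeadIn

/-!
# Cubic graphs with few disjoint small cyclic cuts and sparse small sets

There is `C` such that every cyclically 6-edge-connected cubic graph in which every set `U` of at
most `C m` vertices is left by at least `(1 - 1/C) |U|` edges, and which has no `m` pairwise
disjoint vertex sets which span circuits and are left by at most `C` edges, has a nowhere-zero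
flow modulo five. No hypothesis on the girth is needed: the members of a minimal family of disjoint
sets which are not good contain few vertices altogether.
-/

set_option linter.unusedSectionVars false

namespace Pool.Agent.K5.Gen

open Finset SimpleGraph Pool.Agent.Exp Pool.Agent.Log5 Pool.Agent.Log5.Clu Pool.Agent.K5
  Pool.Agent.K5.Parts MP974d84

section

variable {V : Type} [Fintype V] [DecidableEq V] {G : SimpleGraph V} [DecidableRel G.Adj]

/-- **Few good parts and a small rest, without a girth hypothesis.** -/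
theorem core_gen (D K k₀ m N : ℕ) [Nonempty V] (h3 : ∀ v, G.degree v = 3) (hk : 3 * K ≤ k₀)
    (hN : 8 * ((D + 4) * k₀) * m + 2 * (2 * D + 4 * K) * m + 2 * D + 1 ≤ N)
    (hsp : ∀ U : Finset V, U.card ≤ N → (D + 4) * U.card ≤ (D + 4) * dd G U + U.card)
    (hsh : ¬ ∃ X : Fin m → Finset V, (∀ i j, i ≠ j → Disjoint (X i) (X j)) ∧
      ∀ i, ¬ (G.induce (X i : Set V)).IsAcyclic ∧ dd G (X i) ≤ 4 * ((D + 4) * k₀)) :
    ∃ (s : ℕ) (P : Fin s → Finset V), 0 < s ∧ (∀ i j, i ≠ j → Disjoint (P i) (P j)) ∧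
      (∀ i, ¬ (G.induce (P i : Set V)).IsAcyclic) ∧ (∀ i, FarB G D (P i)) ∧
      (∀ i, ∀ A ⊆ P i, A.card < K → (G.induce (A : Set V)).IsAcyclic) ∧
      (∀ i, ∀ Y ⊆ P i, ¬ (G.induce (Y : Set V)).IsAcyclic →
        ¬ (G.induce ((P i \ Y : Finset V) : Set V)).IsAcyclic → k₀ ≤ ee G Y (P i \ Y)) ∧
      ∀ U : Finset V, (∀ i, Disjoint U (P i)) → U.card ≤ N := by
  classical
  set β : ℕ := D + 4 with hβ
  set γ : ℕ := β * k₀ with hγ
  have hNuniv : ∀ U : Finset V, U.card ≤ N → U ≠ univ := by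
    rintro U hU rfl
    have h1 := hsp _ hU
    rw [dd_univ_zero, Nat.mul_zero, Nat.zero_add] at h1
    have h2 : 0 < (univ : Finset V).card := card_pos.2 univ_nonempty
    have h4 : 2 * (univ : Finset V).card ≤ β * (univ : Finset V).card :=
      Nat.mul_le_mul_right _ (by omega)
    omega
  have h0 : ¬ (G.induce ((univ : Finset V) : Set V)).IsAcyclic := by
    intro hac
    have h1 := dd_of_acyclic G h3 univ_nonempty hac
    rw [dd_univ_zero] at h1
    omega
  -- the extremal family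
  let Φ : Finset (Finset V) → ℤ := fun 𝒞 =>
    (β : ℤ) * (∑ A ∈ 𝒞, dd G A : ℕ) - ((β : ℤ) - 2) * (rest 𝒞).card - 2 * γ * 𝒞.card
  let adm : Finset (Finset (Finset V)) := univ.filter fun 𝒞 =>
    DFam G 𝒞 ∧ (rest 𝒞).card ≤ N
  have hrest1 : rest ({univ} : Finset (Finset V)) = ∅ := by
    rw [eq_empty_iff_forall_notMem]
    intro v hv
    exact mem_rest.1 hv univ (mem_singleton_self _) (mem_univ v)
  have hstart : ({univ} : Finset (Finset V)) ∈ adm := by
    refine mem_filter.2 ⟨mem_univ _, ⟨?_, ?_⟩, ?_⟩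
    · intro A hA B hB hAB
      rw [mem_singleton] at hA hB
      exact absurd (hA.trans hB.symm) hAB
    · intro A hA
      rw [mem_singleton] at hA
      rw [hA]
      exact h0
    · rw [hrest1, card_empty]
      omega
  obtain ⟨𝒞, h𝒞, hmin⟩ := exists_min_image adm Φ ⟨_, hstart⟩
  obtain ⟨-, hF, hR⟩ := mem_filter.1 h𝒞
  set S : ℕ := ∑ A ∈ 𝒞, dd G A with hS
  set R : ℕ := (rest 𝒞).card with hRdef
  set s : ℕ := 𝒞.card with hs
  have hΦ : Φ 𝒞 = (β : ℤ) * S - ((β : ℤ) - 2) * R - 2 * γ * s := rfl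
  have hΦ1 : Φ {univ} = - (2 * γ) := by
    simp only [Φ, sum_singleton, dd_univ_zero, hrest1, card_empty, card_singleton]
    push_cast
    ring
  have hs1 : 1 ≤ s := by
    by_contra hlt
    have h1 : 𝒞 = ∅ := card_eq_zero.1 (by omega)
    refine hNuniv _ hR ?_
    rw [h1]
    simp [rest]
  have hβ4 : (4 : ℤ) ≤ β := by exact_mod_cast (by omega : 4 ≤ β)
  have hγ0 : (0 : ℤ) ≤ γ := Nat.cast_nonneg _
  -- the rest is sparse
  have hRd : (β : ℤ) * R ≤ β * S + R := by
    have h1 : β * R ≤ β * dd G (rest 𝒞) + R := hsp _ hR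
    have h2 : β * dd G (rest 𝒞) ≤ β * S := Nat.mul_le_mul_left β (dd_rest (G := G) 𝒞)
    have h4 : β * R ≤ β * S + R := h1.trans (Nat.add_le_add_right h2 _)
    exact_mod_cast h4
  have hbd : (β : ℤ) * S - ((β : ℤ) - 2) * R ≤ 2 * γ * ((s : ℤ) - 1) := by
    have h1 := hmin _ hstart
    rw [hΦ, hΦ1] at h1
    linarith
  have hRγ : (R : ℤ) ≤ 2 * γ * ((s : ℤ) - 1) := by linarith
  have hSγ : (S : ℤ) ≤ 2 * γ * ((s : ℤ) - 1) := by
    have h1 : ((β : ℤ) - 2) * R ≤ ((β : ℤ) - 2) * (2 * γ * ((s : ℤ) - 1)) :=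
      mul_le_mul_of_nonneg_left hRγ (by linarith)
    have h5 : (0 : ℤ) ≤ 2 * γ * ((s : ℤ) - 1) := by
      have : (1 : ℤ) ≤ s := by exact_mod_cast hs1
      exact mul_nonneg (by linarith) (by linarith)
    have h2 : (β : ℤ) * S ≤ β * (2 * γ * ((s : ℤ) - 1)) := by linarith
    exact le_of_mul_le_mul_left h2 (by linarith)
  -- the number of parts
  have hsmall : (𝒞.filter fun A => dd G A ≤ 4 * γ).card < m := by
    by_contra hge
    apply hsh
    set 𝒮 := 𝒞.filter fun A => dd G A ≤ 4 * γ with h𝒮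
    have h1 : m ≤ 𝒮.card := not_lt.1 hge
    set e := 𝒮.equivFin with he
    have hm : ∀ i : Fin m, (e.symm (Fin.castLE h1 i)).1 ∈ 𝒮 := fun i =>
      (e.symm (Fin.castLE h1 i)).2
    refine ⟨fun i => (e.symm (Fin.castLE h1 i)).1, ?_, ?_⟩
    · intro i j hij
      refine hF.disj _ (mem_filter.1 (hm i)).1 _ (mem_filter.1 (hm j)).1 ?_
      intro hcon
      exact hij (Fin.castLE_injective h1 (e.symm.injective (Subtype.ext hcon)))
    · intro i
      exact ⟨hF.cyc _ (mem_filter.1 (hm i)).1, (mem_filter.1 (hm i)).2⟩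
  have hs2 : (s : ℤ) ≤ 2 * m := by
    set a := (𝒞.filter fun A => dd G A ≤ 4 * γ).card with ha
    set b := (𝒞.filter fun A => ¬ dd G A ≤ 4 * γ).card with hb
    have hab : a + b = s := card_filter_add_card_filter_not _
    have hbS : (4 * γ + 1) * b ≤ S := by
      calc (4 * γ + 1) * b = ∑ A ∈ 𝒞.filter (fun A => ¬ dd G A ≤ 4 * γ), (4 * γ + 1) := by
            rw [sum_const, smul_eq_mul, mul_comm]
        _ ≤ ∑ A ∈ 𝒞.filter (fun A => ¬ dd G A ≤ 4 * γ), dd G A :=
            sum_le_sum fun A hA => by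
              have := (mem_filter.1 hA).2
              omega
        _ ≤ S := sum_le_sum_of_subset (filter_subset _ _)
    by_contra hcon
    have hba : (a : ℤ) + 1 ≤ b := by
      have h1 : (s : ℤ) = a + b := by exact_mod_cast hab.symm
      have h2 : (a : ℤ) < m := by exact_mod_cast hsmall
      linarith
    have h5 : ((4 * γ + 1) * b : ℤ) ≤ 2 * γ * ((s : ℤ) - 1) := by
      refine le_trans ?_ hSγ
      exact_mod_cast hbS
    have h6 : (s : ℤ) = a + b := by exact_mod_cast hab.symm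
    have h7 : 2 * (γ : ℤ) * (a + 1) ≤ 2 * γ * b := mul_le_mul_of_nonneg_left hba (by linarith)
    have h8 : (0 : ℤ) ≤ a := Nat.cast_nonneg _
    rw [h6] at h5
    nlinarith
  have hR2 : R ≤ 4 * γ * m := by
    have h1 : 2 * (γ : ℤ) * ((s : ℤ) - 1) ≤ 2 * γ * (2 * m) :=
      mul_le_mul_of_nonneg_left (by linarith) (by linarith)
    have h2 : (R : ℤ) ≤ 4 * γ * m := by linarith
    exact_mod_cast h2
  have hS2 : S ≤ 4 * γ * m := by
    have h1 : 2 * (γ : ℤ) * ((s : ℤ) - 1) ≤ 2 * γ * (2 * m) :=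
      mul_le_mul_of_nonneg_left (by linarith) (by linarith)
    have h2 : (S : ℤ) ≤ 4 * γ * m := by linarith
    exact_mod_cast h2
  have hN8 : 8 * γ * m = 4 * γ * m + 4 * γ * m := by ring
  have hddS : ∀ X ∈ 𝒞, dd G X ≤ S := fun X hX =>
    single_le_sum (f := fun A => dd G A) (fun _ _ => Nat.zero_le _) hX
  have hNM : 2 * (2 * D + 4 * K) * m = 2 * ((2 * D + 4 * K) * m) := by ring
  -- a member which is not far apart is small
  have hfar : ∀ X ∈ 𝒞, dd G X + (2 * D + 4 * K) < X.card → FarB G D X := by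
    intro X hX hXM W hWX hWD hWc
    by_contra hee
    have hee : 2 ≤ ee G W Xᶜ := by omega
    have h1 := bead_conn (G := G) h3 hWc
    have h2 := bead_sdiff (G := G) hWX
    have hdX : dd G (X \ W) + 2 ≤ dd G X + W.card := by omega
    have hWX' : (X \ W).card + W.card = X.card := card_sdiff_add_card_eq_card hWX
    have hXS := hddS X hX
    have hcyc : ¬ (G.induce ((X \ W : Finset V) : Set V)).IsAcyclic := by
      intro hac
      have hXc : X.card ≤ dd G X + 2 * D := by
        rcases (X \ W).eq_empty_or_nonempty with he | hne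
        · rw [he, card_empty] at hWX'
          omega
        · have h4 := dd_of_acyclic G h3 hne hac
          omega
      omega
    obtain ⟨𝒟, d1, d2, d3, d4⟩ := hF.remove hX hWX hcyc
    have hadm : 𝒟 ∈ adm := mem_filter.2 ⟨mem_univ _, d1, by omega⟩
    have h5 := hmin _ hadm
    have h6 : Φ 𝒟 = (β : ℤ) * (S + dd G (X \ W) - dd G X) - ((β : ℤ) - 2) * (R + W.card)
        - 2 * γ * s := by
      simp only [Φ]
      have e1 : ((∑ A ∈ 𝒟, dd G A : ℕ) : ℤ) = S + dd G (X \ W) - dd G X := by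
        have : ((∑ A ∈ 𝒟, dd G A : ℕ) : ℤ) + dd G X = S + dd G (X \ W) := by
          exact_mod_cast d3
        linarith
      have e3 : (((rest 𝒟).card : ℕ) : ℤ) = R + W.card := by exact_mod_cast d4
      rw [e1, d2, e3]
    rw [hΦ, h6] at h5
    have h7 : (dd G (X \ W) : ℤ) + 2 ≤ dd G X + W.card := by exact_mod_cast hdX
    have h8 : (β : ℤ) * (dd G (X \ W) - dd G X) ≤ β * (W.card - 2) :=
      mul_le_mul_of_nonneg_left (by linarith) (by linarith)
    have h9 : (W.card : ℤ) + 4 ≤ β := by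
      have : W.card + 4 ≤ β := by omega
      exact_mod_cast this
    linarith
  -- the inner cyclic cuts are large
  have hcut : ∀ X ∈ 𝒞, ∀ Y ⊆ X, ¬ (G.induce (Y : Set V)).IsAcyclic →
      ¬ (G.induce ((X \ Y : Finset V) : Set V)).IsAcyclic → k₀ ≤ ee G Y (X \ Y) := by
    intro X hX Y hY h1 h2
    by_contra hlt
    obtain ⟨𝒟, d1, d2, d3, d4⟩ := hF.split hX hY h1 h2
    have hadm : 𝒟 ∈ adm := mem_filter.2 ⟨mem_univ _, d1, by rw [d4]; exact hR⟩
    have h5 := hmin _ hadm
    have h6 : Φ 𝒟 = (β : ℤ) * (S + 2 * ee G Y (X \ Y)) - ((β : ℤ) - 2) * R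
        - 2 * γ * (s + 1) := by
      simp only [Φ]
      have e1 : ((∑ A ∈ 𝒟, dd G A : ℕ) : ℤ) = S + 2 * ee G Y (X \ Y) := by
        exact_mod_cast d3
      have e2 : ((𝒟.card : ℕ) : ℤ) = s + 1 := by exact_mod_cast d2
      rw [e1, e2, d4]
    rw [hΦ, h6] at h5
    have h7 : (ee G Y (X \ Y) : ℤ) + 1 ≤ k₀ := by
      have : ee G Y (X \ Y) + 1 ≤ k₀ := by omega
      exact_mod_cast this
    have h8 : (β : ℤ) * (ee G Y (X \ Y) + 1) ≤ β * k₀ :=
      mul_le_mul_of_nonneg_left h7 (by linarith)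
    have h9 : (γ : ℤ) = β * k₀ := by
      rw [hγ]
      push_cast
      rfl
    linarith
  -- a member with a short circuit is small
  have hgir : ∀ X ∈ 𝒞, dd G X + (2 * D + 4 * K) < X.card → ∀ A ⊆ X, A.card < K →
      (G.induce (A : Set V)).IsAcyclic := by
    intro X hX hXM A hA hAK
    by_contra hac
    have h1 := bead_ee_le (G := G) h3 A (X \ A)
    have h2 : (G.induce ((X \ A : Finset V) : Set V)).IsAcyclic := by
      by_contra h4
      have := hcut X hX A hA hac h4
      omega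
    have h4 : (X \ A).card + A.card = X.card := card_sdiff_add_card_eq_card hA
    rcases (X \ A).eq_empty_or_nonempty with he | hne
    · rw [he, card_empty] at h4
      omega
    · have h5 := dd_of_acyclic G h3 hne h2
      have h6 := bead_split (G := G) hA
      have h7 : ee G A (X \ A) ≤ dd G A := by
        rw [dd_ee A]
        exact ee_mono (Subset.refl _) fun v hv => mem_compl.2 (mem_sdiff.1 hv).2
      omega
  -- the good members
  set 𝒢 := 𝒞.filter fun X => dd G X + (2 * D + 4 * K) < X.card with h𝒢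
  have hbadsum : ∑ X ∈ 𝒞.filter (fun X => ¬ dd G X + (2 * D + 4 * K) < X.card), X.card ≤
      S + (2 * D + 4 * K) * s := by
    calc ∑ X ∈ 𝒞.filter (fun X => ¬ dd G X + (2 * D + 4 * K) < X.card), X.card
        ≤ ∑ X ∈ 𝒞.filter (fun X => ¬ dd G X + (2 * D + 4 * K) < X.card),
            (dd G X + (2 * D + 4 * K)) := sum_le_sum fun X hX => not_lt.1 (mem_filter.1 hX).2
      _ ≤ ∑ X ∈ 𝒞, (dd G X + (2 * D + 4 * K)) := sum_le_sum_of_subset (filter_subset _ _)
      _ = S + (2 * D + 4 * K) * s := by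
          rw [sum_add_distrib, sum_const, smul_eq_mul, mul_comm (s) (2 * D + 4 * K)]
  have hsm : (2 * D + 4 * K) * s ≤ (2 * D + 4 * K) * (2 * m) :=
    Nat.mul_le_mul_left _ (by exact_mod_cast hs2)
  have hsm' : (2 * D + 4 * K) * (2 * m) = 2 * ((2 * D + 4 * K) * m) := by ring
  have hrestN : ∀ U : Finset V, (∀ X ∈ 𝒢, Disjoint U X) → U.card ≤ N := by
    intro U hU
    have h1 : U ⊆ rest 𝒞 ∪
        (𝒞.filter fun X => ¬ dd G X + (2 * D + 4 * K) < X.card).biUnion id := by
      intro v hv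
      rw [mem_union]
      by_cases h2 : ∃ X ∈ 𝒞, v ∈ X
      · obtain ⟨X, hX, hvX⟩ := h2
        refine Or.inr (mem_biUnion.2 ⟨X, mem_filter.2 ⟨hX, fun h4 => ?_⟩, hvX⟩)
        exact Finset.disjoint_left.1 (hU X (mem_filter.2 ⟨hX, h4⟩)) hv hvX
      · exact Or.inl (mem_rest.2 fun A hA hvA => h2 ⟨A, hA, hvA⟩)
    have h2 := card_le_card h1
    have h4 := card_union_le (rest 𝒞)
      ((𝒞.filter fun X => ¬ dd G X + (2 * D + 4 * K) < X.card).biUnion id)
    have h5 : ((𝒞.filter fun X => ¬ dd G X + (2 * D + 4 * K) < X.card).biUnion id).card ≤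
        ∑ X ∈ 𝒞.filter (fun X => ¬ dd G X + (2 * D + 4 * K) < X.card), X.card :=
      card_biUnion_le
    omega
  have h𝒢pos : 0 < 𝒢.card := by
    rw [card_pos]
    by_contra hne
    rw [not_nonempty_iff_eq_empty] at hne
    refine hNuniv univ (hrestN univ fun X hX => ?_) rfl
    rw [hne] at hX
    exact absurd hX (notMem_empty X)
  -- conclusion
  set e := 𝒢.equivFin with he
  have hmem : ∀ j : Fin 𝒢.card, (e.symm j).1 ∈ 𝒢 := fun j => (e.symm j).2
  have hmem' : ∀ j : Fin 𝒢.card, (e.symm j).1 ∈ 𝒞 := fun j => (mem_filter.1 (hmem j)).1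
  have hbig : ∀ j : Fin 𝒢.card, dd G (e.symm j).1 + (2 * D + 4 * K) < ((e.symm j).1).card :=
    fun j => (mem_filter.1 (hmem j)).2
  refine ⟨𝒢.card, fun j => (e.symm j).1, h𝒢pos, ?_, fun j => hF.cyc _ (hmem' j),
    fun j => hfar _ (hmem' j) (hbig j), fun j => hgir _ (hmem' j) (hbig j),
    fun j => hcut _ (hmem' j), ?_⟩
  · intro j j' hjj
    refine hF.disj _ (hmem' j) _ (hmem' j') ?_
    intro hcon
    exact hjj (e.symm.injective (Subtype.ext hcon))
  · intro U hU
    refine hrestN U fun X hX => ?_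
    have h1 := hU (e ⟨X, hX⟩)
    simpa only [Equiv.symm_apply_apply] using h1

end

/-- **Theorem (GEN).** From the extension theorem: a cyclically 6-edge-connected cubic graph in
which every set `U` of at most `C m` vertices is left by at least `(1 - 1/C) |U|` edges and which
has no `m` disjoint sets with circuits and at most `C` boundary edges has a nowhere-zero flow
modulo five. -/
theorem flow_gen (hE : ∃ D K : ℕ, ∀ {V : Type} [Fintype V] [DecidableEq V]
      (G : SimpleGraph V) [DecidableRel G.Adj], (∀ v, G.degree v = 3) →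
      ∀ P : Finset V, FarB G D P →
      (∀ A ⊆ P, A.card < K → (G.induce (A : Set V)).IsAcyclic) →
      (∀ Y ⊆ P, ¬ (G.induce (Y : Set V)).IsAcyclic →
        ¬ (G.induce ((P \ Y : Finset V) : Set V)).IsAcyclic → K ≤ ee G Y (P \ Y)) →
      ∀ φ : V → ZMod 5, BdryOK G P φ → ExtFlow G P φ) :
    ∃ C : ℕ, 6 ≤ C ∧ ∀ (m : ℕ) {V : Type} [Fintype V] [DecidableEq V] (G : SimpleGraph V)
    [DecidableRel G.Adj], (∀ v, G.degree v = 3) → Nonempty V → CycConn G 6 →
    (∀ U : Finset V, U.card ≤ C * m → C * U.card ≤ C * dd G U + U.card) →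
    (¬ ∃ X : Fin m → Finset V, (∀ i j, i ≠ j → Disjoint (X i) (X j)) ∧
      ∀ i, ¬ (G.induce (X i : Set V)).IsAcyclic ∧ dd G (X i) ≤ C) →
    HasNZFlow (ZMod 5) G := by
  obtain ⟨D, K, hE⟩ := hE
  set γ : ℕ := (D + 1 + 4) * (3 * K) with hγ
  set C : ℕ := 8 * γ + 2 * (2 * (D + 1) + 4 * K) + 2 * (D + 1) + (D + 1 + 4) + 1 with hC
  refine ⟨C, by omega, ?_⟩
  intro m V _ _ G _ h3 hV hc hsp hsh
  have hm : 1 ≤ m := by
    rcases Nat.eq_zero_or_pos m with rfl | hm
    · exact absurd ⟨fun i => i.elim0, fun i => i.elim0, fun i => i.elim0⟩ hsh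
    · exact hm
  have hCm : 8 * γ * m + 2 * (2 * (D + 1) + 4 * K) * m + 2 * (D + 1) + 1 ≤ C * m := by
    have h1 : C * m = 8 * γ * m + 2 * (2 * (D + 1) + 4 * K) * m +
        (2 * (D + 1) + (D + 1 + 4) + 1) * m := by rw [hC]; ring
    have h2 : (2 * (D + 1) + (D + 1 + 4) + 1) * 1 ≤ (2 * (D + 1) + (D + 1 + 4) + 1) * m :=
      Nat.mul_le_mul_left _ hm
    omega
  have hsp' : ∀ (b : ℕ), b ≤ C → ∀ U : Finset V, U.card ≤ C * m →
      b * U.card ≤ b * dd G U + U.card := by
    intro b hb U hU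
    rcases le_total U.card (dd G U) with h1 | h1
    · exact (Nat.mul_le_mul_left b h1).trans (Nat.le_add_right _ _)
    · obtain ⟨d, hd⟩ := Nat.exists_eq_add_of_le h1
      have h2 := hsp U hU
      rw [hd, Nat.mul_add] at h2
      have h4 : b * d ≤ C * d := Nat.mul_le_mul_right _ hb
      rw [hd, Nat.mul_add]
      omega
  obtain ⟨s, P, p0, p1, p2, p3, p4, p5, p6⟩ := core_gen (G := G) (D + 1) K (3 * K) m (C * m) h3
    le_rfl hCm (hsp' (D + 1 + 4) (by omega))
    (fun ⟨X, x1, x2⟩ => hsh ⟨X, x1, fun i => ⟨(x2 i).1, (x2 i).2.trans (by omega)⟩⟩)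
  refine flow_of_free h3 (k := 6) (by norm_num) hc p0 P p1 p2
    (fun i v hv w w' hw hw' h1 h2 => ?_) (fun i φ hφ => ?_) fun U hU => ?_
  · by_contra hne
    have h4 := far_joined (p3 i) (Q := {v}) (singleton_subset_iff.2 hv)
      (by rw [card_singleton]; omega) (joined_singleton v)
    rw [ee_sum, sum_singleton] at h4
    have h5 : ({w, w'} : Finset V) ⊆ (P i)ᶜ.filter fun u => G.Adj v u := by
      intro u hu
      rw [mem_insert, mem_singleton] at hu
      rcases hu with rfl | rfl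
      · exact mem_filter.2 ⟨mem_compl.2 hw, h1⟩
      · exact mem_filter.2 ⟨mem_compl.2 hw', h2⟩
    have h6 := card_le_card h5
    rw [card_pair hne] at h6
    omega
  · refine hE G h3 (P i) (fun Q hQ hc hconn => p3 i Q hQ (by omega) hconn)
      (fun A hA hc => p4 i A hA hc) (fun Y hY h1 h2 => ?_) φ hφ
    have := p5 i Y hY h1 h2
    omega
  · have h1 := p6 U hU
    have h2 := hsp' 4 (by omega) U h1
    omega

end Pool.Agent.K5.Gen
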