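import Mathlib
import Pool.Agent.Work.MP_974d84_co_k5.FewSharp

/-!
# Few small shores, circular flows, sharp form with a linear constant

The bounds are linear in the girth of the excluded sets, and the density of the excluded sets of
large girth does not depend on the girth.
-/

set_option linter.unusedSectionVars false

namespace Pool.Agent.K5.Ker

open Finset SimpleGraph Pool.Agent.Exp Pool.Agent.Log5 Pool.Agent.Log5.Clu Pool.Agent.K5 MP974d84
open Pool.Agent.K5.Parts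

/-- **Few highly connected parts and a small rest; dense sets of large girth are excluded, linear
form.** -/
theorem parts_glin (D K : ℕ) : ∃ B : ℕ, 1 ≤ B ∧ ∀ {V : Type} [Fintype V] [DecidableEq V]
    [Nonempty V] (G : SimpleGraph V) [DecidableRel G.Adj], (∀ v, G.degree v = 3) →
    ∀ g m : ℕ, 1 ≤ m →
    (∀ U : Finset V, U.card ≤ B * (g + 1) * m →
      (∀ A ⊆ U, A.card ≤ g → (G.induce (A : Set V)).IsAcyclic) →
      B * U.card ≤ B * dd G U + U.card) →
    (¬ ∃ X : Fin m → Finset V, (∀ i j, i ≠ j → Disjoint (X i) (X j)) ∧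
      ∀ i, ¬ (G.induce (X i : Set V)).IsAcyclic ∧ dd G (X i) ≤ B * (g + 1)) →
    ∃ 𝒟 : Finset (Finset V), KFam G D K (B * (g + 1) * m) 𝒟 := by
  obtain ⟨β, hβ⟩ : ∃ β, β = D + 4 := ⟨_, rfl⟩
  obtain ⟨B, hB⟩ : ∃ B, B = (16 * β + 24) * (K + 1) + 2 * D + 2 + β := ⟨_, rfl⟩
  refine ⟨B, by omega, ?_⟩
  intro V _ _ _ G _ h3 g m hm hU hsh
  obtain ⟨k, hk⟩ : ∃ k, k = K + g := ⟨_, rfl⟩
  obtain ⟨q, hq⟩ : ∃ q, q = (K + 1) * (g + 1) := ⟨_, rfl⟩
  have hkq : k ≤ q := by
    have h1 : (K + 1) * (g + 1) = K * g + K + g + 1 := by ring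
    rw [hk, hq, h1]
    omega
  have e0 : B * (g + 1) = 16 * (β * q) + 24 * q + (2 * D + 2 + β) * (g + 1) := by
    rw [hB, hq]
    ring
  have e1 : B * (g + 1) * m = 16 * (β * q * m) + 24 * (q * m) +
      (2 * D + 2 + β) * (g + 1) * m := by
    rw [e0]
    ring
  have h1g : 2 * D + 2 + β ≤ (2 * D + 2 + β) * (g + 1) := Nat.le_mul_of_pos_right _ (by omega)
  have h1m : (2 * D + 2 + β) * (g + 1) ≤ (2 * D + 2 + β) * (g + 1) * m :=
    Nat.le_mul_of_pos_right _ hm
  have h2m : 2 * m ≤ (2 * D + 2 + β) * (g + 1) * m :=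
    Nat.mul_le_mul_right m (by omega)
  have hβq : β * k ≤ β * q := Nat.mul_le_mul_left _ hkq
  have hβqm : β * k * m ≤ β * q * m := Nat.mul_le_mul_right _ hβq
  have hqm : k * m ≤ q * m := Nat.mul_le_mul_right _ hkq
  have hkm : k ≤ k * m := Nat.le_mul_of_pos_right _ hm
  have f0 : 8 * (β * k) * m = 8 * (β * k * m) := by ring
  have hsp : ∀ U : Finset V, U.card ≤ 8 * (β * k) * m + 2 * D + 2 * k →
      (∀ A ⊆ U, A.card ≤ k → (G.induce (A : Set V)).IsAcyclic) →
      β * U.card ≤ β * dd G U + U.card := by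
    intro S hS hSg
    have h1 := hU S (by omega) fun A hA hAc => hSg A hA (by omega)
    rcases Nat.le_total S.card (dd G S) with h2 | h2
    · have h4 : β * S.card ≤ β * dd G S := Nat.mul_le_mul_left _ h2
      omega
    · obtain ⟨x, hx⟩ := Nat.exists_eq_add_of_le h2
      rw [hx] at h1 ⊢
      have h4 : B * (dd G S + x) = B * dd G S + B * x := by ring
      have h5 : β * (dd G S + x) = β * dd G S + β * x := by ring
      have h6 : β * x ≤ B * x := Nat.mul_le_mul_right _ (by omega)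
      omega
  obtain ⟨𝒟, d1, d2, d3, d4, d5⟩ := core (G := G) D k m
    (8 * (β * k) * m + 2 * D + 2 * k) h3 (by rw [hβ]) (by
      rw [← hβ]
      exact hsp)
    (fun ⟨X, x1, x2⟩ => hsh ⟨X, x1, fun i => ⟨(x2 i).1, (x2 i).2.trans (by
      rw [← hβ]
      omega)⟩⟩)
  rw [← hβ] at d3 d4
  have e2 : 4 * (β * k) * m = 4 * (β * k * m) := by ring
  have e3 : 8 * k * m = 8 * (k * m) := by ring
  rw [e2] at d3 d4
  rw [e3] at d4
  refine ⟨𝒟, d1, ?_, ?_, fun X hX => (d5 X hX).1,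
    fun X hX A hA hAc => (d5 X hX).2.1 A hA (by omega),
    fun X hX Y hY h1 h2 => (by omega : K ≤ k).trans ((d5 X hX).2.2 Y hY h1 h2)⟩
  · omega
  · omega

/-- **Few small shores, sharp form with a linear constant, signs.** -/
theorem lin_main {k : ℕ} (hk : 4 ≤ k) {d : ℝ} (hd : 1 / 2 < d) (hd2 : d < 2 / 3) :
    ∃ C : ℕ, 1 ≤ C ∧ ∀ {V : Type} [Fintype V] [DecidableEq V] (G : SimpleGraph V)
      [DecidableRel G.Adj], (∀ v, G.degree v = 3) → CycConn G k → ∀ g T : ℕ, 1 ≤ T →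
      (∀ U : Finset V, U.card ≤ C * (g + 1) * T → (2 - 3 * d) * U.card ≤ (d - 2 / k) * dd G U) →
      (∀ U : Finset V, U.card ≤ C * (g + 1) * T →
        (∀ A ⊆ U, A.card ≤ g → (G.induce (A : Set V)).IsAcyclic) →
        C * U.card ≤ C * dd G U + U.card) →
      (¬ ∃ X : Fin T → Finset V, (∀ i i', i ≠ i' → Disjoint (X i) (X i')) ∧
        ∀ i, ¬ (G.induce (X i : Set V)).IsAcyclic ∧ dd G (X i) ≤ C * (g + 1)) →
      ∃ x : V → ℤ, (∀ v, x v = 1 ∨ x v = -1) ∧
        ∀ X : Finset V, |∑ v ∈ X, (x v : ℝ)| ≤ d * dd G X := by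
  have hkR : (4 : ℝ) ≤ k := by exact_mod_cast hk
  have hdk : 2 / (k : ℝ) ≤ d := by
    have : 2 / (k : ℝ) ≤ 2 / 4 := div_le_div_of_nonneg_left (by norm_num) (by norm_num) hkR
    linarith
  have hd0 : 0 < d - 1 / 2 := by linarith
  -- the inner connectivity
  obtain ⟨n, hn⟩ := exists_nat_gt (2 / (d - 1 / 2))
  obtain ⟨κ, hκ⟩ : ∃ κ : ℕ, κ = n + 5 := ⟨_, rfl⟩
  have hκn : (n : ℝ) < κ := by
    rw [hκ]
    push_cast
    linarith
  have hκ0 : (0 : ℝ) < κ := by
    have : (0 : ℝ) ≤ n := Nat.cast_nonneg _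
    linarith
  have hκd : 1 / 2 + 2 / (κ : ℝ) < d := by
    have h1 : 2 / (d - 1 / 2) < κ := hn.trans hκn
    rw [div_lt_iff₀ hd0] at h1
    have h2 : 2 / (κ : ℝ) < d - 1 / 2 := by
      rw [div_lt_iff₀ hκ0]
      linarith
    linarith
  obtain ⟨D, K, hext⟩ := Re.ext_signs_c (κ := κ) (by omega) (c := d) (by linarith)
    (Re.main_ec (κ := κ) (by omega) hκd)
  obtain ⟨C, hC1, hC⟩ := parts_glin (D + 1) (K + κ)
  refine ⟨C, hC1, fun {V} _ _ G _ h3 hc g T hT hU1 hU2 hX => ?_⟩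
  rcases isEmpty_or_nonempty V with hV | hV
  · refine ⟨fun _ => 1, fun v => hV.elim v, fun X => ?_⟩
    have h1 : X = ∅ := eq_empty_of_isEmpty X
    rw [h1, sum_empty, abs_zero]
    exact mul_nonneg (by linarith) (Nat.cast_nonneg _)
  obtain ⟨F, hF⟩ := hC G h3 g T hT hU2 hX
  have hrest : (rest F).card ≤ C * (g + 1) * T := (Nat.le_add_left _ _).trans hF.num
  have hne : F.Nonempty := by
    by_contra hcon
    rw [not_nonempty_iff_eq_empty] at hcon
    have h1 : rest F = univ := by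
      rw [hcon]
      simp [rest]
    rw [h1] at hrest
    have h2 := hU1 univ hrest
    rw [dd_univ_zero] at h2
    have h4 : (0 : ℝ) < (univ : Finset V).card := by
      exact_mod_cast card_pos.2 univ_nonempty
    have h5 : 0 < (2 - 3 * d) * ((univ : Finset V).card : ℝ) := mul_pos (by linarith) h4
    simp only [Nat.cast_zero, mul_zero] at h2
    linarith
  let P : Fin F.card → Finset V := fun i => (F.equivFin.symm i).1
  have hP : ∀ i, P i ∈ F := fun i => (F.equivFin.symm i).2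
  refine FC.signs_of_free h3 (by omega) hc (by linarith) (by linarith) hdk (card_pos.2 hne) P
    (fun i j hij => ?_) (fun i => hF.fam.cyc _ (hP i))
    (fun i => far_one (by omega) (hF.far _ (hP i)))
    (fun i q hq1 hq2 hq3 => ?_) fun U hU' => ?_
  · exact hF.fam.disj _ (hP i) _ (hP j) fun h => hij (F.equivFin.symm.injective (Subtype.ext h))
  · obtain ⟨x, hx1, -, hx2⟩ := hext G h3 (P i) ((hF.far _ (hP i)).mono (by omega))
      (fun A hA hA' => hF.gir _ (hP i) A hA (by omega))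
      (fun Y hY h1 h2 => (by omega : κ ≤ K + κ).trans (hF.cut _ (hP i) Y hY h1 h2)) q hq1 hq2 hq3
    exact ⟨x, hx1, hx2⟩
  · refine hU1 U (le_trans (card_le_card fun v hv => ?_) hrest)
    rw [mem_rest]
    intro A hA hvA
    have h2 := hU' (F.equivFin ⟨A, hA⟩)
    simp only [P, Equiv.symm_apply_apply] at h2
    exact Finset.disjoint_left.1 h2 hv hvA

/-- **Few small shores, sharp form with a linear constant, in the form of a hand-in.** -/
theorem sharp_lin (κ : ℕ) (hκ : 4 ≤ κ) (r : ℝ) (hr : 4 * κ / (κ - 1) ≤ r) (hr6 : r < 6) :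
    ∃ C : ℕ, ∀ (V : Type) [Fintype V] [DecidableEq V] (G : SimpleGraph V) [DecidableRel G.Adj],
    G.IsRegularOfDegree 3 →
    (∀ S : Finset V, ¬ (G.induce (S : Set V)).IsAcyclic →
      ¬ (G.induce ((Sᶜ : Finset V) : Set V)).IsAcyclic → κ ≤ (G.interedges S Sᶜ).card) →
    ∀ g m : ℕ, 1 ≤ m →
    (∃ X : Fin m → Finset V, (∀ i j, i ≠ j → Disjoint (X i) (X j)) ∧
      ∀ i, ¬ (G.induce (X i : Set V)).IsAcyclic ∧ (G.interedges (X i) (X i)ᶜ).card ≤ C * (g + 1)) ∨
    (∃ U : Finset V, U.card ≤ C * (g + 1) * m ∧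
      ((2 * r - 6 - 3 * r / κ) * U.card <
        (r - 2 - 2 * r / κ) * (G.induce (U : Set V)).edgeSet.ncard ∨
      (g : ℕ∞) < (G.induce (U : Set V)).egirth ∧
        (C + 1) * U.card < C * (G.induce (U : Set V)).edgeSet.ncard)) ∨
    ((∃ f : V → V → ℝ, (∀ u v, f u v = - f v u) ∧ (∀ v, ∑ u, f v u = 0) ∧
      (∀ u v, ¬ G.Adj u v → f u v = 0) ∧
      ∀ u v, G.Adj u v → 1 ≤ |f u v| ∧ |f u v| ≤ r - 1) ∧
    (r ≤ 5 → ∀ i : ℕ, 5 ≤ i → HasNZFlow (ZMod i) G)) := by
  have hκR : (4 : ℝ) ≤ κ := by exact_mod_cast hκ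
  have hr : 4 < r := by
    refine lt_of_lt_of_le ?_ hr
    rw [lt_div_iff₀ (by linarith)]
    linarith
  have hr0 : 0 < r := by linarith
  have hκ0 : (0 : ℝ) < κ := by linarith
  set d : ℝ := (r - 2) / r with hd
  have hdr : r * d = r - 2 := by
    rw [hd]
    field_simp
  have hd1 : 1 / 2 < d := by
    rw [hd, lt_div_iff₀ hr0]
    linarith
  have hd2 : d < 2 / 3 := by
    rw [hd, div_lt_iff₀ hr0]
    linarith
  obtain ⟨C, hC1, hC⟩ := lin_main hκ hd1 hd2
  refine ⟨2 * C, ?_⟩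
  intro V _ _ G _ h3 hS g m hm
  by_cases hX : ∃ X : Fin m → Finset V, (∀ i j, i ≠ j → Disjoint (X i) (X j)) ∧
      ∀ i, ¬ (G.induce (X i : Set V)).IsAcyclic ∧ (G.interedges (X i) (X i)ᶜ).card ≤ 2 * C * (g + 1)
  · exact Or.inl hX
  by_cases hU : ∃ U : Finset V, U.card ≤ 2 * C * (g + 1) * m ∧
      ((2 * r - 6 - 3 * r / κ) * U.card <
        (r - 2 - 2 * r / κ) * (G.induce (U : Set V)).edgeSet.ncard ∨
      (g : ℕ∞) < (G.induce (U : Set V)).egirth ∧
        (2 * C + 1) * U.card < 2 * C * (G.induce (U : Set V)).edgeSet.ncard)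
  · exact Or.inr (Or.inl hU)
  right
  right
  obtain ⟨x, hx, hxX⟩ := hC G h3 (fun S h1 h2 => by
    rw [← dd_interedges]
    exact hS S h1 h2) g m hm (fun U hUc => by
    by_contra hcon
    push Not at hcon
    refine hU ⟨U, hUc.trans (Nat.mul_le_mul_right m (Nat.mul_le_mul_right _ (by omega))), Or.inl ?_⟩
    have h1 := dd_add_edges h3 U
    set e := (G.induce (U : Set V)).edgeSet.ncard with he
    have h2 : (dd G U : ℝ) = 3 * U.card - 2 * e := by
      have : (dd G U : ℝ) + 2 * e = 3 * U.card := by exact_mod_cast h1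
      linarith
    rw [h2] at hcon
    have h4 := mul_lt_mul_of_pos_left hcon hr0
    have e1 : r * ((d - 2 / κ) * (3 * U.card - 2 * e)) =
        (r - 2 - 2 * r / κ) * (3 * U.card - 2 * e) := by
      rw [← hdr]
      ring
    have e2 : r * ((2 - 3 * d) * (U.card : ℝ)) = (2 * r - 3 * (r - 2)) * U.card := by
      rw [← hdr]
      ring
    rw [e1, e2] at h4
    have e3 : 3 * r / (κ : ℝ) = 3 * (r / κ) := by ring
    have e4 : 2 * r / (κ : ℝ) = 2 * (r / κ) := by ring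
    rw [e4] at h4
    rw [e3, e4]
    nlinarith only [h4]) (fun U hUc hUg => by
    by_contra hcon
    push Not at hcon
    refine hU ⟨U, hUc.trans (Nat.mul_le_mul_right m (Nat.mul_le_mul_right _ (by omega))), Or.inr ⟨lt_egirth_of hUg, ?_⟩⟩
    have h1 := dd_add_edges h3 U
    set e := (G.induce (U : Set V)).edgeSet.ncard with he
    have h2 : C * (dd G U + 2 * e) = C * (3 * U.card) := by rw [h1]
    have h4 : C * (dd G U + 2 * e) = C * dd G U + 2 * C * e := by ring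
    have h5 : C * (3 * U.card) = C * U.card + 2 * C * U.card := by ring
    have h6 : (2 * C + 1) * U.card = 2 * C * U.card + U.card := by ring
    omega) (fun ⟨X, h1, h2⟩ => hX ⟨X, h1, fun i => ⟨(h2 i).1, by
      rw [dd_interedges]
      exact (h2 i).2.trans (Nat.mul_le_mul_right _ (by omega))⟩⟩)
  obtain ⟨f, f1, f2, f3, f4⟩ := crit_real G (r := r) (by linarith) h3 x hx (fun X => by
    have h7 := mul_le_mul_of_nonneg_left (hxX X) hr0.le
    refine h7.trans (le_of_eq ?_)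
    rw [← mul_assoc, hdr])
  exact ⟨⟨f, f1, f2, f3, f4⟩, fun h5 => flow_of_real f1 f2 f3 fun u v huv =>
    ⟨(f4 u v huv).1, (f4 u v huv).2.trans (by linarith)⟩⟩

end Pool.Agent.K5.Ker
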