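import Mathlib
import Pool.Agent.Work.MP_974d84_co_k5.FewSharpA
import Pool.Agent.Work.MP_974d84_co_k5.KerLog

/-!
# Few small shores, circular flows, sharp form with a logarithm

If the girth bound in the sharp form is a multiple of `log m`, then there is no dense set of that
girth, and only the sets of explicit density remain.
-/

set_option linter.unusedSectionVars false

namespace Pool.Agent.K5.Ker

open Finset SimpleGraph Pool.Agent.Exp Pool.Agent.Log5 Pool.Agent.Log5.Clu Pool.Agent.K5 MP974d84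
open Pool.Agent.K5.Parts

/-- Small subsets of a set of large girth are acyclic. -/
theorem acyclic_of_egirth {V : Type} [Fintype V] [DecidableEq V] {G : SimpleGraph V}
    {U : Finset V} {g : ℕ} (h : (g : ℕ∞) < (G.induce (U : Set V)).egirth) {A : Finset V}
    (hA : A ⊆ U) (hAc : A.card ≤ g) : (G.induce (A : Set V)).IsAcyclic := by
  intro a w hw
  -- the circuit has at most `g` edges
  have hlen : w.length ≤ g := by
    have h1 : w.support.tail.length = w.length := by
      rw [List.length_tail, Walk.length_support]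
      omega
    have h2 : w.support.tail.toFinset.card = w.support.tail.length :=
      List.toFinset_card_of_nodup hw.support_nodup
    have h3 : w.support.tail.toFinset.card ≤ Fintype.card ((A : Set V) : Type) :=
      card_le_univ _
    have h4 : Fintype.card ((A : Set V) : Type) = A.card := by simp
    omega
  -- it lies in `U`
  have hAU : (A : Set V) ≤ (U : Set V) := by exact_mod_cast hA
  have hc : (w.map (induceHomOfLE G hAU).toHom).IsCycle :=
    hw.map (induceHomOfLE G hAU).injective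
  have h5 := hc.egirth_le_length
  rw [Walk.length_map] at h5
  have h6 : ((w.length : ℕ) : ℕ∞) ≤ (g : ℕ∞) := by exact_mod_cast hlen
  exact absurd (h.trans_le (h5.trans h6)) (lt_irrefl _)

/-- **Few small shores, sharp form with a logarithm.** -/
theorem sharp_log (κ : ℕ) (hκ : 4 ≤ κ) (r : ℝ) (hr : 4 * κ / (κ - 1) ≤ r) (hr6 : r < 6) :
    ∃ C : ℕ, ∀ (V : Type) [Fintype V] [DecidableEq V] (G : SimpleGraph V) [DecidableRel G.Adj],
    G.IsRegularOfDegree 3 →
    (∀ S : Finset V, ¬ (G.induce (S : Set V)).IsAcyclic →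
      ¬ (G.induce ((Sᶜ : Finset V) : Set V)).IsAcyclic → κ ≤ (G.interedges S Sᶜ).card) →
    ∀ m : ℕ, 1 ≤ m →
    (∃ X : Fin m → Finset V, (∀ i j, i ≠ j → Disjoint (X i) (X j)) ∧
      ∀ i, ¬ (G.induce (X i : Set V)).IsAcyclic ∧
        (G.interedges (X i) (X i)ᶜ).card ≤ C * (Nat.log 2 m + 1)) ∨
    (∃ U : Finset V, U.card ≤ C * (Nat.log 2 m + 1) * m ∧
      (2 * r - 6 - 3 * r / κ) * U.card <
        (r - 2 - 2 * r / κ) * (G.induce (U : Set V)).edgeSet.ncard) ∨
    ((∃ f : V → V → ℝ, (∀ u v, f u v = - f v u) ∧ (∀ v, ∑ u, f v u = 0) ∧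
      (∀ u v, ¬ G.Adj u v → f u v = 0) ∧
      ∀ u v, G.Adj u v → 1 ≤ |f u v| ∧ |f u v| ≤ r - 1) ∧
    (r ≤ 5 → ∀ i : ℕ, 5 ≤ i → HasNZFlow (ZMod i) G)) := by
  obtain ⟨B, hB⟩ := sharp_lin κ hκ r hr hr6
  obtain ⟨c, hc1, hc⟩ := ker_num B 1
  refine ⟨B * (c + 1), ?_⟩
  intro V _ _ G _ h3 hS m hm
  obtain ⟨n, hn⟩ : ∃ n, n = Nat.log 2 m + 1 := ⟨_, rfl⟩
  rw [← hn]
  have hmn : m < 2 ^ n := by
    rw [hn]
    exact Nat.lt_pow_succ_log_self (by norm_num) m
  have hn1 : 1 ≤ n := by omega
  have hcn : 1 ≤ c * n := Nat.one_le_iff_ne_zero.2 (by positivity)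
  have hle : B * (c * n + 1) ≤ B * (c + 1) * n := by
    have h1 : B * (c + 1) * n = B * (c * n + n) := by ring
    rw [h1]
    exact Nat.mul_le_mul_left _ (by omega)
  obtain ⟨j, hj, hjN⟩ := hc n hn1
  rcases hB V G h3 hS (c * n) m hm with ⟨X, x1, x2⟩ | ⟨U, hU, hd | ⟨hg, hd⟩⟩ | h
  · exact Or.inl ⟨X, x1, fun i => ⟨(x2 i).1, (x2 i).2.trans hle⟩⟩
  · exact Or.inr (Or.inl ⟨U, hU.trans (Nat.mul_le_mul_right _ hle), hd⟩)
  · exfalso
    set e := (G.induce (U : Set V)).edgeSet.ncard with he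
    have h1 : dd G U + 2 * e = 3 * U.card := dd_add_edges h3 U
    have h2 : B * dd G U + 2 * (B * e) = 3 * (B * U.card) := by
      have h4 : B * (dd G U + 2 * e) = B * (3 * U.card) := by rw [h1]
      have h5 : B * (dd G U + 2 * e) = B * dd G U + 2 * (B * e) := by ring
      have h6 : B * (3 * U.card) = 3 * (B * U.card) := by ring
      omega
    have h4 : (B + 1) * U.card = B * U.card + U.card := by ring
    have h5 : B * dd G U + 2 * U.card < B * U.card := by omega
    have h6 : dd G U < U.card := by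
      by_contra hcon
      push Not at hcon
      have := Nat.mul_le_mul_left B hcon
      omega
    have h7 : (B + 4) * dd G U + U.card < (B + 4) * U.card := by
      have h8 : (B + 4) * dd G U = B * dd G U + 4 * dd G U := by ring
      have h9 : (B + 4) * U.card = B * U.card + 4 * U.card := by ring
      omega
    have hβ0 : (0 : ℝ) < ((B + 4 : ℕ) : ℝ) := by positivity
    have hS' : (dd G U : ℝ) < (1 - 1 / ((B + 4 : ℕ) : ℝ)) * U.card := by
      have h1 : ((B + 4 : ℕ) : ℝ) * dd G U + U.card < ((B + 4 : ℕ) : ℝ) * U.card := by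
        exact_mod_cast h7
      have h2 : (1 - 1 / ((B + 4 : ℕ) : ℝ)) * U.card =
          (((B + 4 : ℕ) : ℝ) * U.card - U.card) / ((B + 4 : ℕ) : ℝ) := by
        field_simp
      rw [h2, lt_div_iff₀ hβ0]
      linarith
    have h8 := sparse_loc h3 (η := 1 / ((B + 4 : ℕ) : ℝ)) (by positivity) hj
      (fun A hA hAc => acyclic_of_egirth hg hA (by omega)) hS'
    have h9 : U.card ≤ 8 * ((B + 4) * (c * n)) * 2 ^ n + 2 * B + 2 * (c * n) := by
      have e1 : B * (c * n + 1) ≤ 2 * ((B + 4) * (c * n)) := by nlinarith only [hcn]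
      have e2 : B * (c * n + 1) * m ≤ 2 * ((B + 4) * (c * n)) * 2 ^ n :=
        Nat.mul_le_mul e1 hmn.le
      have e3 : 8 * ((B + 4) * (c * n)) * 2 ^ n = 4 * (2 * ((B + 4) * (c * n)) * 2 ^ n) := by
        ring
      omega
    have h10 : (U.card : ℝ) ≤ ((8 * ((B + 4) * (c * n)) * 2 ^ n + 2 * B + 2 * (c * n) : ℕ) : ℝ) := by
      exact_mod_cast h9
    linarith
  · exact Or.inr (Or.inr h)

end Pool.Agent.K5.Ker
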