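import Mathlib
import Pool.Agent.Work.MP_974d84_co_k5.Contract
import Pool.Agent.Work.MP_974d84_co_k5.FreeSets

/-!
# Graphs with few disjoint shores of small cyclic cuts

From the extension property of beads: a cubic graph of large girth and cyclic connectivity at
least five without a nowhere-zero flow modulo five has many disjoint cyclic vertex sets which are
left by few edges.
-/

set_option linter.unusedSectionVars false

namespace Pool.Agent.K5.Few

open Finset SimpleGraph Pool.Agent.Exp Pool.Agent.Log5 Pool.Agent.Log5.Clu MP974d84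
  Pool.Agent.K5 Pool.Agent.K5.Con

section

variable {V : Type} [Fintype V] [DecidableEq V] (G : SimpleGraph V) [DecidableRel G.Adj]

/-- A partition of the vertex set into sets which span circuits. -/
structure CPart (𝒞 : Finset (Finset V)) : Prop where
  disj : ∀ A ∈ 𝒞, ∀ B ∈ 𝒞, A ≠ B → Disjoint A B
  cov : ∀ v, ∃ A ∈ 𝒞, v ∈ A
  cyc : ∀ A ∈ 𝒞, ¬ (G.induce (A : Set V)).IsAcyclic

variable {G}

theorem nonempty_of_cyc {A : Finset V} (h : ¬ (G.induce (A : Set V)).IsAcyclic) :
    A.Nonempty := by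
  by_contra hne
  rw [not_nonempty_iff_eq_empty] at hne
  apply h
  rw [hne]
  intro v
  exact absurd v.2 (by simp)

/-- One part is divided. -/
theorem CPart.split {𝒞 : Finset (Finset V)} (h : CPart G 𝒞) {X Y : Finset V} (hX : X ∈ 𝒞)
    (hY : Y ⊆ X) (h1 : ¬ (G.induce (Y : Set V)).IsAcyclic)
    (h2 : ¬ (G.induce ((X \ Y : Finset V) : Set V)).IsAcyclic) :
    ∃ 𝒞' : Finset (Finset V), CPart G 𝒞' ∧ 𝒞'.card = 𝒞.card + 1 ∧
      ∑ A ∈ 𝒞', dd G A = ∑ A ∈ 𝒞, dd G A + 2 * ee G Y (X \ Y) := by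
  classical
  have hY0 := nonempty_of_cyc h1
  have hZ0 := nonempty_of_cyc h2
  have hYZ : Disjoint Y (X \ Y) := disjoint_sdiff
  have hnY : Y ∉ 𝒞.erase X := by
    intro hc
    obtain ⟨hne, hc⟩ := mem_erase.1 hc
    obtain ⟨y, hy⟩ := hY0
    exact Finset.disjoint_left.1 (h.disj Y hc X hX hne) hy (hY hy)
  have hnZ : X \ Y ∉ 𝒞.erase X := by
    intro hc
    obtain ⟨hne, hc⟩ := mem_erase.1 hc
    obtain ⟨y, hy⟩ := hZ0
    exact Finset.disjoint_left.1 (h.disj _ hc X hX hne) hy (sdiff_subset hy)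
  have hne : Y ≠ X \ Y := by
    intro he
    obtain ⟨y, hy⟩ := hY0
    exact Finset.disjoint_left.1 hYZ hy (he ▸ hy)
  have hnY' : Y ∉ insert (X \ Y) (𝒞.erase X) := by
    rw [mem_insert]
    rintro (he | he)
    · exact hne he
    · exact hnY he
  refine ⟨insert Y (insert (X \ Y) (𝒞.erase X)), ⟨?_, ?_, ?_⟩, ?_, ?_⟩
  · have key : ∀ A ∈ 𝒞.erase X, Disjoint A X := fun A hA =>
      h.disj A (mem_erase.1 hA).2 X hX (mem_erase.1 hA).1
    intro A hA B hB hAB
    rw [mem_insert, mem_insert] at hA hB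
    rcases hA with rfl | rfl | hA <;> rcases hB with rfl | rfl | hB
    · exact absurd rfl hAB
    · exact hYZ
    · exact ((key B hB).mono_right hY).symm
    · exact hYZ.symm
    · exact absurd rfl hAB
    · exact ((key B hB).mono_right sdiff_subset).symm
    · exact (key A hA).mono_right hY
    · exact (key A hA).mono_right sdiff_subset
    · exact h.disj A (mem_erase.1 hA).2 B (mem_erase.1 hB).2 hAB
  · intro v
    obtain ⟨A, hA, hv⟩ := h.cov v
    by_cases hAX : A = X
    · subst hAX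
      by_cases hvY : v ∈ Y
      · exact ⟨Y, mem_insert_self _ _, hvY⟩
      · exact ⟨A \ Y, mem_insert_of_mem (mem_insert_self _ _), mem_sdiff.2 ⟨hv, hvY⟩⟩
    · exact ⟨A, mem_insert_of_mem (mem_insert_of_mem (mem_erase.2 ⟨hAX, hA⟩)), hv⟩
  · intro A hA
    rw [mem_insert, mem_insert] at hA
    rcases hA with rfl | rfl | hA
    · exact h1
    · exact h2
    · exact h.cyc A (mem_erase.1 hA).2
  · rw [card_insert_of_notMem hnY', card_insert_of_notMem hnZ, card_erase_of_mem hX]
    have := card_pos.2 ⟨X, hX⟩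
    omega
  · rw [sum_insert hnY', sum_insert hnZ]
    have e1 : dd G X + ∑ A ∈ 𝒞.erase X, dd G A = ∑ A ∈ 𝒞, dd G A :=
      add_sum_erase 𝒞 (fun A => dd G A) hX
    have e2 := bead_split (G := G) hY
    omega

/-- The splitting process. -/
theorem cpart_chain (h0 : ¬ (G.induce ((univ : Finset V) : Set V)).IsAcyclic) (T B : ℕ → ℕ)
    (hB : ∀ j, B (j + 1) = B j + T j) :
    ∀ j, (∃ i, i < j ∧ ∃ 𝒞 : Finset (Finset V), CPart G 𝒞 ∧ 𝒞.card = i + 1 ∧
      ∑ A ∈ 𝒞, dd G A ≤ 2 * B i ∧ ∀ X ∈ 𝒞, ∀ Y ⊆ X, ¬ (G.induce (Y : Set V)).IsAcyclic →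
        ¬ (G.induce ((X \ Y : Finset V) : Set V)).IsAcyclic → T i ≤ ee G Y (X \ Y)) ∨
      ∃ 𝒞 : Finset (Finset V), CPart G 𝒞 ∧ 𝒞.card = j + 1 ∧ ∑ A ∈ 𝒞, dd G A ≤ 2 * B j := by
  intro j
  induction j with
  | zero =>
    refine Or.inr ⟨{univ}, ⟨?_, ?_, ?_⟩, by simp, ?_⟩
    · intro A hA B hB hAB
      rw [mem_singleton] at hA hB
      exact absurd (hA.trans hB.symm) hAB
    · exact fun v => ⟨univ, mem_singleton_self _, mem_univ v⟩
    · intro A hA
      rw [mem_singleton] at hA
      rw [hA]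
      exact h0
    · rw [sum_singleton]
      have : dd G (univ : Finset V) = 0 := by
        unfold dd
        rw [card_eq_zero, eq_empty_iff_forall_notMem]
        intro p hp
        rw [mem_cut] at hp
        exact hp.2.1 (mem_univ _)
      omega
  | succ j ih =>
    rcases ih with ⟨i, hi, h⟩ | ⟨𝒞, h1, h2, h3⟩
    · exact Or.inl ⟨i, by omega, h⟩
    by_cases hcut : ∀ X ∈ 𝒞, ∀ Y ⊆ X, ¬ (G.induce (Y : Set V)).IsAcyclic →
        ¬ (G.induce ((X \ Y : Finset V) : Set V)).IsAcyclic → T j ≤ ee G Y (X \ Y)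
    · exact Or.inl ⟨j, by omega, 𝒞, h1, h2, h3, hcut⟩
    · push Not at hcut
      obtain ⟨X, hX, Y, hY, hYc, hZc, hlt⟩ := hcut
      obtain ⟨𝒞', g1, g2, g3⟩ := h1.split hX hY hYc hZc
      refine Or.inr ⟨𝒞', g1, by omega, ?_⟩
      rw [g3, hB]
      omega

end

/-- **Few small shores.** There is `C` such that every cubic graph of cyclic connectivity at least
five and girth at least `C ^ (t + 1)` has a nowhere-zero flow modulo five, if it has no `t + 1`
disjoint vertex sets which span circuits and are left by fewer than `C ^ (t + 1)` edges. -/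
theorem few_shores (hext : ∃ D K : ℕ, ExtProp D K) : ∃ C : ℕ, ∀ (t : ℕ) {V : Type} [Fintype V]
    [DecidableEq V] (G : SimpleGraph V) [DecidableRel G.Adj], (∀ v, G.degree v = 3) →
    CycConn G 5 → Gir G (C ^ (t + 1)) →
    (∀ 𝒮 : Finset (Finset V), (∀ A ∈ 𝒮, ¬ (G.induce (A : Set V)).IsAcyclic ∧
      dd G A < C ^ (t + 1)) → (∀ A ∈ 𝒮, ∀ B ∈ 𝒮, A ≠ B → Disjoint A B) → 𝒮.card ≤ t) →
    HasNZFlow (ZMod 5) G := by
  obtain ⟨D, K, hext⟩ := hext
  set E : ℕ := D + 1 with hE
  set θ : ℕ := 12 * E + 1 with hθ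
  set A₀ : ℕ := 2 * (K + 1) with hA₀
  refine ⟨A₀ * θ + A₀ + 2 * E + 2, fun t {V} _ _ G _ h3 hc hg hsh => ?_⟩
  classical
  set C : ℕ := A₀ * θ + A₀ + 2 * E + 2 with hC
  set T : ℕ → ℕ := fun j => A₀ * θ ^ j with hT
  set B : ℕ → ℕ := fun j => ∑ i ∈ range j, T i with hB
  have hB0 : B 0 = 0 := by simp [hB]
  have hBs : ∀ j, B (j + 1) = B j + T j := fun j => sum_range_succ _ _
  have hnum : ∀ j, 12 * E * B j ≤ T j := fun j => bead_num (D := E) A₀ (fun j => rfl) hB0 hBs j
  have hE1 : 1 ≤ E := by omega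
  have hθ1 : 1 ≤ θ := by omega
  have hθC : θ ≤ C := by
    have : 1 * θ ≤ A₀ * θ := Nat.mul_le_mul_right _ (by omega)
    omega
  have hC1 : 1 ≤ C := by omega
  -- the girth is larger than all numbers which occur
  have hpow : ∀ j, j ≤ t → T j + (2 * E + 2) ≤ C ^ (t + 1) := by
    intro j hj
    have h1 : θ ^ j ≤ C ^ t :=
      (Nat.pow_le_pow_left hθC j).trans (Nat.pow_le_pow_right hC1 hj)
    have h2 : 1 ≤ C ^ t := Nat.one_le_pow _ _ hC1
    calc T j + (2 * E + 2) ≤ A₀ * C ^ t + (2 * E + 2) * C ^ t := by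
          refine Nat.add_le_add (Nat.mul_le_mul_left _ h1) ?_
          calc 2 * E + 2 = (2 * E + 2) * 1 := (mul_one _).symm
            _ ≤ _ := Nat.mul_le_mul_left _ h2
      _ = (A₀ + (2 * E + 2)) * C ^ t := by ring
      _ ≤ C * C ^ t := Nat.mul_le_mul_right _ (by omega)
      _ = C ^ (t + 1) := by ring
  rcases isEmpty_or_nonempty V with hV | hV
  · exact ⟨fun _ _ => 0, fun u => (hV.false u).elim, fun u => (hV.false u).elim,
      fun u => (hV.false u).elim⟩
  have hlarge : ∀ A : Finset V, ¬ (G.induce (A : Set V)).IsAcyclic → C ^ (t + 1) ≤ A.card :=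
    fun A hA => by
      by_contra h
      exact hA (hg A (not_le.1 h))
  have h0 : ¬ (G.induce ((univ : Finset V) : Set V)).IsAcyclic := by
    intro hac
    have h1 := dd_of_acyclic G h3 univ_nonempty hac
    have h2 : dd G (univ : Finset V) = 0 := by
      unfold dd
      rw [card_eq_zero, eq_empty_iff_forall_notMem]
      intro p hp
      rw [mem_cut] at hp
      exact hp.2.1 (mem_univ _)
    omega
  rcases cpart_chain (G := G) h0 T B hBs t with ⟨i, hi, 𝒞, c1, c2, c3, c4⟩ | ⟨𝒞, c1, c2, c3⟩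
  · have hTi := hpow i hi.le
    have hnumi := hnum i
    have hT0 : 2 * (K + 1) ≤ T i := Nat.le_mul_of_pos_right _ (Nat.pow_pos (by omega))
    have hdd : ∀ X ∈ 𝒞, dd G X ≤ 2 * B i := fun X hX =>
      (single_le_sum (f := fun A => dd G A) (fun _ _ => Nat.zero_le _) hX).trans c3
    have hEB : 12 * (E * B i) ≤ T i := by
      rw [← Nat.mul_assoc]
      exact hnumi
    -- the pushes
    have hpush : ∀ X : Finset V, ∃ F : Finset V, X ∈ 𝒞 → F ⊆ X ∧ F.card ≤ E * dd G X ∧
        FarB G E (X \ F) := by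
      intro X
      by_cases hX : X ∈ 𝒞
      · obtain ⟨F, s, hA, hsL, hmax⟩ := exists_push (G := G) E (dd G X + 1) X
        have hd := hdd X hX
        have hEd : E * dd G X ≤ E * (2 * B i) := Nat.mul_le_mul_left _ hd
        have e1 : E * (2 * B i) = 2 * (E * B i) := by ring
        have hs : s ≤ dd G X := adm_le h3 hg hA (by
          have h1 := Nat.mul_le_mul_left E hsL
          have h2 : E * (dd G X + 1) = E * dd G X + E := by ring
          omega)
        exact ⟨F, fun _ => ⟨hA.1, hA.2.1.trans (Nat.mul_le_mul_left _ hs),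
          adm_far h3 hA (by omega) hmax⟩⟩
      · exact ⟨∅, fun h => absurd h hX⟩
    choose F hF using hpush
    have hFc : ∀ X ∈ 𝒞, (F X).card ≤ 2 * (E * B i) := fun X hX => by
      refine (hF X hX).2.1.trans ((Nat.mul_le_mul_left _ (hdd X hX)).trans (le_of_eq ?_))
      ring
    have hcycP : ∀ X ∈ 𝒞, ¬ (G.induce ((X \ F X : Finset V) : Set V)).IsAcyclic := by
      intro X hX
      refine (hF X hX).2.2.cyc h3 hE1 ?_
      rw [← card_pos]
      have h1 : (X \ F X).card + (F X).card = X.card := card_sdiff_add_card_eq_card (hF X hX).1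
      have h2 := hlarge X (c1.cyc X hX)
      have h4 := hFc X hX
      omega
    set e := 𝒞.equivFin with he
    have hmem : ∀ j : Fin 𝒞.card, (e.symm j).1 ∈ 𝒞 := fun j => (e.symm j).2
    refine flow_of_free h3 (k := 5) le_rfl hc (m := 𝒞.card) (by omega)
      (fun j => (e.symm j).1 \ F (e.symm j).1) ?_ ?_ ?_ ?_ ?_
    · intro j j' hjj
      have hne : (e.symm j).1 ≠ (e.symm j').1 := by
        intro h
        exact hjj (e.symm.injective (Subtype.ext h))
      exact (c1.disj _ (hmem j) _ (hmem j') hne).mono sdiff_subset sdiff_subset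
    · exact fun j => hcycP _ (hmem j)
    · exact fun j => far_hb hE1 (hF _ (hmem j)).2.2
    · intro j φ hφ
      set X := (e.symm j).1 with hX
      have hXm : X ∈ 𝒞 := hmem j
      refine hext G h3 (X \ F X) ((hF X hXm).2.2.mono (by omega)) ?_ ?_ φ hφ
      · intro A _ hA
        exact hg A (by omega)
      · intro Y hY hYc hYc'
        have h1 : X \ (Y ∪ F X) = (X \ F X) \ Y := by
          rw [union_comm, sdiff_sdiff_left, sup_eq_union]
        have h2 : Disjoint Y (F X) := by
          rw [Finset.disjoint_left]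
          intro v h1 h2
          exact (mem_sdiff.1 (hY h1)).2 h2
        have h4 := c4 X hXm (Y ∪ F X) (union_subset (hY.trans sdiff_subset) (hF X hXm).1)
          (not_acyclic_mono subset_union_left hYc) (by rwa [h1])
        rw [h1, ee_union_left h2] at h4
        have h5 := bead_ee_le h3 (F X) ((X \ F X) \ Y)
        have h6 := hFc X hXm
        omega
    · intro U hU
      rcases U.eq_empty_or_nonempty with rfl | hUne
      · simp
      have hsub : U ⊆ 𝒞.biUnion F := by
        intro v hv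
        obtain ⟨X, hX, hvX⟩ := c1.cov v
        refine mem_biUnion.2 ⟨X, hX, ?_⟩
        by_contra hvF
        have h1 := hU (e ⟨X, hX⟩)
        rw [Finset.disjoint_left] at h1
        refine h1 hv ?_
        rw [Equiv.symm_apply_apply]
        exact mem_sdiff.2 ⟨hvX, hvF⟩
      have hcard : U.card ≤ 2 * (E * B i) := by
        calc U.card ≤ (𝒞.biUnion F).card := card_le_card hsub
          _ ≤ ∑ X ∈ 𝒞, (F X).card := card_biUnion_le
          _ ≤ ∑ X ∈ 𝒞, E * dd G X := sum_le_sum fun X hX => (hF X hX).2.1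
          _ = E * ∑ X ∈ 𝒞, dd G X := by rw [mul_sum]
          _ ≤ E * (2 * B i) := Nat.mul_le_mul_left _ c3
          _ = 2 * (E * B i) := by ring
      have h1 := dd_of_acyclic G h3 hUne (hg U (by omega))
      omega
  · exfalso
    have h1 := hsh 𝒞 (fun A hA => ⟨c1.cyc A hA, ?_⟩) c1.disj
    · omega
    · have h2 : dd G A ≤ 2 * B t :=
        (single_le_sum (f := fun A => dd G A) (fun _ _ => Nat.zero_le _) hA).trans c3
      have h4 := hpow t le_rfl
      have h5 := hnum t
      have h6 : 2 * B t ≤ 12 * E * B t := Nat.mul_le_mul_right _ (by omega)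
      omega

end Pool.Agent.K5.Few
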