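import Mathlib
import Pool.Agent.Work.MP_974d84_co.Final
import Pool.Agent.Work.MP_974d84_co_k5.BeadIn
import Pool.Agent.Work.MP_974d84_co_k5.HandInG
import Pool.Agent.Work.MP_974d84_co_k5.FreeMain

/-!
# Decomposition of a locally sparse graph with few disjoint small cyclic cuts

Let `G` be cubic and let all sets of at most `C m` vertices be sparse. If there are no `m` pairwise
disjoint vertex sets which contain circuits and have at most `C` boundary edges, then there are
disjoint sets with a boundary which is far apart, with large girth and with large cyclic cuts, and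
the other vertices span a sparse graph.
-/

set_option linter.unusedSectionVars false

namespace Pool.Agent.K5.Sp

open Finset SimpleGraph Pool.Agent.Exp Pool.Agent.Log5 Pool.Agent.Log5.Clu MP974d84

section

variable {V : Type} [Fintype V] [DecidableEq V] {G : SimpleGraph V} [DecidableRel G.Adj]

theorem dd_empty_sp : dd G (∅ : Finset V) = 0 := by rw [dd_ee, ee_sum, sum_empty]

/-- The edges leaving the union of some sets. -/
theorem dd_biUnion_le (F : Finset (Finset V)) : dd G (F.biUnion id) ≤ ∑ P ∈ F, dd G P := by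
  classical
  induction F using Finset.induction_on with
  | empty => rw [biUnion_empty, sum_empty, dd_empty_sp]
  | insert P F hP ih =>
    rw [biUnion_insert, sum_insert hP]
    have h1 : dd G (id P ∪ F.biUnion id) ≤ dd G P + dd G (F.biUnion id) := by
      rw [dd_ee, dd_ee P, dd_ee (F.biUnion id)]
      have h2 : ee G (id P ∪ F.biUnion id) (id P ∪ F.biUnion id)ᶜ ≤
          ee G P (id P ∪ F.biUnion id)ᶜ + ee G (F.biUnion id) (id P ∪ F.biUnion id)ᶜ := by
        rw [ee_sum, ee_sum, ee_sum, ← sum_union_inter]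
        exact Nat.le_add_right _ _
      refine h2.trans (Nat.add_le_add (ee_mono (Subset.refl _) ?_) (ee_mono (Subset.refl _) ?_))
      · exact compl_subset_compl.2 subset_union_left
      · exact compl_subset_compl.2 subset_union_right
    omega

variable (G) in
/-- Disjoint sets with circuits which leave at most `L` vertices. -/
structure Fam (L : ℕ) (F : Finset (Finset V)) : Prop where
  cyc : ∀ P ∈ F, ¬ (G.induce (P : Set V)).IsAcyclic
  disj : ∀ P ∈ F, ∀ Q ∈ F, P ≠ Q → Disjoint P Q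
  big : Fintype.card V ≤ ∑ P ∈ F, P.card + L

theorem ne_of_cyc {P : Finset V} (h : ¬ (G.induce (P : Set V)).IsAcyclic) : P.Nonempty := by
  rw [nonempty_iff_ne_empty]
  rintro rfl
  refine h ?_
  rw [coe_empty]
  exact SimpleGraph.IsAcyclic.of_subsingleton

theorem Fam.replace {L L' : ℕ} {F : Finset (Finset V)} (h : Fam G L F) {P : Finset V} (hP : P ∈ F)
    {Q : Finset (Finset V)} (hQ : ∀ X ∈ Q, X ⊆ P ∧ ¬ (G.induce (X : Set V)).IsAcyclic)
    (hd : ∀ X ∈ Q, ∀ Y ∈ Q, X ≠ Y → Disjoint X Y)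
    (hc : P.card + L ≤ ∑ X ∈ Q, X.card + L') :
    Fam G L' (F.erase P ∪ Q) ∧ ∀ f : Finset V → ℤ,
      ∑ X ∈ F.erase P ∪ Q, f X = ∑ X ∈ F, f X - f P + ∑ X ∈ Q, f X := by
  classical
  have hdis : Disjoint (F.erase P) Q := by
    rw [Finset.disjoint_left]
    intro X h1 h2
    have h3 := h.disj X (mem_of_mem_erase h1) P hP (ne_of_mem_erase h1)
    obtain ⟨v, hv⟩ := ne_of_cyc (hQ X h2).2
    exact Finset.disjoint_left.1 h3 hv ((hQ X h2).1 hv)
  have hsum : ∀ f : Finset V → ℤ,
      ∑ X ∈ F.erase P ∪ Q, f X = ∑ X ∈ F, f X - f P + ∑ X ∈ Q, f X := by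
    intro f
    rw [sum_union hdis, ← add_sum_erase F f hP]
    ring
  refine ⟨⟨?_, ?_, ?_⟩, hsum⟩
  · intro X hX
    rcases mem_union.1 hX with hX | hX
    · exact h.cyc X (mem_of_mem_erase hX)
    · exact (hQ X hX).2
  · intro X hX Y hY hne
    rcases mem_union.1 hX with hX | hX <;> rcases mem_union.1 hY with hY | hY
    · exact h.disj X (mem_of_mem_erase hX) Y (mem_of_mem_erase hY) hne
    · exact (h.disj X (mem_of_mem_erase hX) P hP (ne_of_mem_erase hX)).mono_right (hQ Y hY).1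
    · exact ((h.disj Y (mem_of_mem_erase hY) P hP (ne_of_mem_erase hY)).mono_right (hQ X hX).1).symm
    · exact hd X hX Y hY hne
  · have h1 := hsum (fun X => (X.card : ℤ))
    have h2 := h.big
    have h3 : (∑ X ∈ F.erase P ∪ Q, X.card : ℤ) = ((∑ X ∈ F.erase P ∪ Q, X.card : ℕ) : ℤ) := by
      push_cast; rfl
    have h4 : (∑ X ∈ F, X.card : ℤ) = ((∑ X ∈ F, X.card : ℕ) : ℤ) := by push_cast; rfl
    have h5 : (∑ X ∈ Q, X.card : ℤ) = ((∑ X ∈ Q, X.card : ℕ) : ℤ) := by push_cast; rfl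
    rw [h3, h4, h5] at h1
    omega

/-- The vertex set of a circuit inside a set which contains a circuit. -/
theorem exists_circ (h3 : ∀ v, G.degree v = 3) {Q : Finset V}
    (h : ¬ (G.induce (Q : Set V)).IsAcyclic) :
    ∃ A ⊆ Q, A.Nonempty ∧ dd G A ≤ A.card := by
  classical
  unfold IsAcyclic at h
  push Not at h
  obtain ⟨v, c, hc⟩ := h
  obtain ⟨a, w, hcyc, hsub⟩ : ∃ (a : V) (w : G.Walk a a), w.IsCycle ∧ ∀ x ∈ w.support, x ∈ Q := by
    refine ⟨_, c.map (Embedding.induce (G := G) (Q : Set V)).toHom,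
      hc.map (Embedding.induce (G := G) (Q : Set V)).injective, fun x hx => ?_⟩
    rw [Walk.support_map, List.mem_map] at hx
    obtain ⟨y, -, rfl⟩ := hx
    exact y.2
  refine ⟨w.support.toFinset, fun x hx => hsub x (List.mem_toFinset.1 hx),
    ⟨_, List.mem_toFinset.2 w.start_mem_support⟩, ?_⟩
  have h1 := dd_sum h3 w.support.toFinset
  have h2 : ∑ v ∈ w.support.toFinset, 2 ≤
      ∑ v ∈ w.support.toFinset, nb G w.support.toFinset v := by
    refine sum_le_sum fun x hx => ?_
    rw [List.mem_toFinset] at hx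
    have h1 := hcyc.ncard_neighborSet_toSubgraph_eq_two hx
    rw [← h1]
    unfold nb
    rw [← Set.ncard_coe_finset]
    refine Set.ncard_le_ncard ?_ (Set.toFinite _)
    intro y hy
    rw [Subgraph.mem_neighborSet] at hy
    rw [mem_coe, mem_filter, List.mem_toFinset]
    refine ⟨?_, hy.adj_sub⟩
    have := w.toSubgraph.edge_vert hy.symm
    rwa [Walk.mem_verts_toSubgraph] at this
  rw [sum_const, smul_eq_mul] at h2
  omega

/-- Sparsity with a larger constant implies sparsity with a smaller one. -/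
theorem sparse_mono {C L a d : ℕ} (hL : L ≤ C) (h : C * a ≤ C * d + 2 * a) :
    L * a ≤ L * d + 2 * a := by
  rcases le_total a d with had | had
  · exact (Nat.mul_le_mul_left L had).trans (Nat.le_add_right _ _)
  · obtain ⟨e, rfl⟩ := Nat.exists_eq_add_of_le had
    have h1 : C * e ≤ 2 * (d + e) := by nlinarith [h]
    have h2 : L * e ≤ C * e := Nat.mul_le_mul_right e hL
    nlinarith [h1, h2]

end

/-- **Decomposition.** -/
theorem exists_parts_sp (D k₀ K : ℕ) : ∃ C : ℕ, 8 ≤ C ∧ ∀ {V : Type} [Fintype V]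
    [DecidableEq V] [Nonempty V] (G : SimpleGraph V) [DecidableRel G.Adj],
    (∀ v, G.degree v = 3) → ∀ m : ℕ, 1 ≤ m →
    (∀ U : Finset V, U.card ≤ C * m → C * U.card ≤ C * dd G U + 2 * U.card) →
    (∀ F : Finset (Finset V), (∀ X ∈ F, ¬ (G.induce (X : Set V)).IsAcyclic ∧ dd G X ≤ C) →
      (∀ X ∈ F, ∀ Y ∈ F, X ≠ Y → Disjoint X Y) → F.card < m) →
    ∃ s : ℕ, 0 < s ∧ ∃ P : Fin s → Finset V, (∀ i j, i ≠ j → Disjoint (P i) (P j)) ∧
      (∀ i, ¬ (G.induce (P i : Set V)).IsAcyclic) ∧ (∀ i, FarB G D (P i)) ∧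
      (∀ i, ∀ A ⊆ P i, A.card < K → (G.induce (A : Set V)).IsAcyclic) ∧
      (∀ i, ∀ Y ⊆ P i, ¬ (G.induce (Y : Set V)).IsAcyclic →
        ¬ (G.induce ((P i \ Y : Finset V) : Set V)).IsAcyclic → k₀ ≤ ee G Y (P i \ Y)) ∧
      ∀ U : Finset V, (∀ i, Disjoint U (P i)) → 3 * U.card ≤ 4 * dd G U := by
  classical
  obtain ⟨k₁, hk₁⟩ : ∃ k₁ : ℕ, k₁ = k₀ + K := ⟨_, rfl⟩
  obtain ⟨β, hβ⟩ : ∃ β : ℕ, β = D + 2 := ⟨_, rfl⟩
  obtain ⟨γ, hγ⟩ : ∃ γ : ℕ, γ = 2 * β * (k₁ + 1) := ⟨_, rfl⟩
  obtain ⟨M, hM⟩ : ∃ M : ℕ, M = D + K := ⟨_, rfl⟩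
  have hγ0 : 0 < γ := by rw [hγ, hβ]; positivity
  obtain ⟨C, hC⟩ : ∃ C : ℕ, C = 6 * γ + 8 * M + D + 2 * β + 8 := ⟨_, rfl⟩
  refine ⟨C, by omega, ?_⟩
  intro V _ _ hV G _ h3 m hm hsp hfew
  have hCm : 6 * (γ * m) + 8 * (M * m) + D + 2 * β + 8 ≤ C * m := by
    have h1 : C * m = 6 * (γ * m) + 8 * (M * m) + (D + 2 * β + 8) * m := by rw [hC]; ring
    have h2 : (D + 2 * β + 8) * 1 ≤ (D + 2 * β + 8) * m := Nat.mul_le_mul_left _ hm
    omega
  obtain ⟨val, hval⟩ : ∃ val : Finset V → ℤ, ∀ P, val P =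
      (β : ℤ) * dd G P + ((β : ℤ) - 2) * P.card - γ := ⟨_, fun P => rfl⟩
  have hn0 : 0 < Fintype.card V := Fintype.card_pos
  -- the whole graph
  have hddV : dd G (univ : Finset V) = 0 := by
    rw [← dd_compl, compl_univ, dd_empty_sp]
  have hcycV : ¬ (G.induce ((univ : Finset V) : Set V)).IsAcyclic := by
    intro h
    have h1 := dd_of_acyclic G h3 (univ_nonempty (α := V)) h
    omega
  have hnbig : C * m < Fintype.card V := by
    by_contra hcon
    push Not at hcon
    have h1 := hsp univ (by rw [card_univ]; exact hcon)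
    rw [hddV, card_univ, mul_zero, zero_add] at h1
    have h2 : 8 * Fintype.card V ≤ C * Fintype.card V := Nat.mul_le_mul_right _ (by omega)
    omega
  obtain ⟨N, hN⟩ : ∃ N : ℕ, N = 4 * (γ * m) + D := ⟨_, rfl⟩
  have hFam₀ : Fam G N ({univ} : Finset (Finset V)) := by
    refine ⟨fun P hP => ?_, fun P hP Q hQ hne => ?_, ?_⟩
    · rw [mem_singleton.1 hP]
      exact hcycV
    · rw [mem_singleton] at hP hQ
      exact absurd (hP.trans hQ.symm) hne
    · rw [sum_singleton, card_univ]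
      omega
  obtain ⟨F, hF, hmin⟩ := exists_min_image
    ((univ : Finset (Finset (Finset V))).filter fun F => Fam G N F)
    (fun F => ∑ P ∈ F, val P) ⟨{univ}, mem_filter.2 ⟨mem_univ _, hFam₀⟩⟩
  have hFam : Fam G N F := (mem_filter.1 hF).2
  have hmin' : ∀ F', Fam G N F' → ∑ P ∈ F, val P ≤ ∑ P ∈ F', val P :=
    fun F' hF' => hmin F' (mem_filter.2 ⟨mem_univ _, hF'⟩)
  -- the rest
  set R : Finset V := (F.biUnion id)ᶜ with hR
  have hcardU : (F.biUnion id).card = ∑ P ∈ F, P.card :=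
    card_biUnion fun P hP Q hQ hne => hFam.disj P hP Q hQ hne
  have hRc : R.card + ∑ P ∈ F, P.card = Fintype.card V := by
    rw [hR, ← hcardU, card_compl]
    have := card_le_univ (F.biUnion id)
    omega
  have hRL : R.card ≤ N := by
    have := hFam.big
    omega
  obtain ⟨Ds, hDs⟩ : ∃ Ds : ℕ, Ds = ∑ P ∈ F, dd G P := ⟨_, rfl⟩
  have hddR : dd G R ≤ Ds := by
    have h2 : dd G R = dd G (F.biUnion id) := by rw [hR, dd_compl]
    have h4 := dd_biUnion_le (G := G) F
    omega
  have hRsp : C * R.card ≤ C * dd G R + 2 * R.card := hsp R (by omega)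
  have hR4 : 4 * R.card ≤ 4 * dd G R + 2 * R.card := sparse_mono (by omega) hRsp
  have hRD : R.card ≤ 2 * Ds := by omega
  have hβ2 : (2 : ℤ) ≤ β := by
    rw [hβ]
    push_cast
    omega
  have hRβ : ((β : ℤ) - 2) * R.card ≤ ((β : ℤ) - 1) * Ds := by
    have h1 : 2 * β * R.card ≤ 2 * β * dd G R + 2 * R.card := sparse_mono (by omega) hRsp
    have h2 : ((2 * β * R.card : ℕ) : ℤ) ≤ ((2 * β * dd G R + 2 * R.card : ℕ) : ℤ) := by
      exact_mod_cast h1
    push_cast at h2
    have h4 : ((β : ℤ) - 1) * R.card ≤ β * dd G R := by nlinarith [h2]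
    have h5 : (dd G R : ℤ) ≤ Ds := by exact_mod_cast hddR
    -- (β - 2) |R| ≤ (β - 1) Ds
    have h6 : ((β : ℤ) - 1) * (((β : ℤ) - 2) * R.card) ≤ ((β : ℤ) - 1) * (((β : ℤ) - 1) * Ds) := by
      have h7 : ((β : ℤ) - 2) * (((β : ℤ) - 1) * R.card) ≤ ((β : ℤ) - 2) * (β * dd G R) :=
        mul_le_mul_of_nonneg_left h4 (by omega)
      have h8 : ((β : ℤ) - 2) * (β * dd G R) ≤ ((β : ℤ) - 2) * (β * Ds) :=
        mul_le_mul_of_nonneg_left (mul_le_mul_of_nonneg_left h5 (by omega)) (by omega)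
      have h9 : (0 : ℤ) ≤ Ds := Int.natCast_nonneg _
      nlinarith [h7, h8, h9]
    exact le_of_mul_le_mul_left h6 (by omega)
  have hFne : F.Nonempty := by
    rw [nonempty_iff_ne_empty]
    intro h
    rw [h, sum_empty] at hRc
    omega
  have hs1 : 1 ≤ F.card := card_pos.2 hFne
  have hbase : (β : ℤ) * Ds ≤ ((β : ℤ) - 2) * R.card + γ * ((F.card : ℤ) - 1) := by
    have h1 := hmin' _ hFam₀
    rw [sum_singleton, hval, hddV, card_univ] at h1
    have h2 : ∑ P ∈ F, val P = (β : ℤ) * Ds + ((β : ℤ) - 2) * (∑ P ∈ F, P.card : ℕ) -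
        γ * F.card := by
      rw [hDs]
      push_cast
      rw [sum_congr rfl fun P _ => hval P, sum_sub_distrib, sum_add_distrib, sum_const,
        ← mul_sum, ← mul_sum, nsmul_eq_mul]
      ring
    rw [h2] at h1
    have h4 : ((∑ P ∈ F, P.card : ℕ) : ℤ) = (Fintype.card V : ℤ) - R.card := by
      have := hRc
      omega
    rw [h4] at h1
    push_cast at h1
    nlinarith [h1]
  have h1D : (Ds : ℤ) ≤ γ * ((F.card : ℤ) - 1) := by nlinarith [hRβ, hbase]
  -- few members
  have hsm : F.card < 2 * m := by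
    have h1 := hfew (F.filter fun P => dd G P ≤ 2 * γ) (fun X hX => ?_) fun X hX Y hY hne =>
      hFam.disj X (mem_filter.1 hX).1 Y (mem_filter.1 hY).1 hne
    · have h2 : 2 * γ * (F.filter fun P => ¬ dd G P ≤ 2 * γ).card ≤ Ds := by
        rw [hDs, mul_comm, ← smul_eq_mul, ← sum_const]
        calc ∑ P ∈ F.filter (fun P => ¬ dd G P ≤ 2 * γ), 2 * γ
            ≤ ∑ P ∈ F.filter (fun P => ¬ dd G P ≤ 2 * γ), dd G P := by
              refine sum_le_sum fun P hP => ?_
              have := (mem_filter.1 hP).2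
              omega
          _ ≤ ∑ P ∈ F, dd G P := sum_le_sum_of_subset (filter_subset _ _)
      have h4 := card_filter_add_card_filter_not (s := F) (fun P => dd G P ≤ 2 * γ)
      have h5 : (γ : ℤ) * (2 * (F.filter fun P => ¬ dd G P ≤ 2 * γ).card) ≤
          γ * ((F.card : ℤ) - 1) := by
        have h6 : ((2 * γ * (F.filter fun P => ¬ dd G P ≤ 2 * γ).card : ℕ) : ℤ) ≤ Ds := by
          exact_mod_cast h2
        push_cast at h6
        nlinarith [h1D, h6]
      have h7 : 2 * ((F.filter fun P => ¬ dd G P ≤ 2 * γ).card : ℤ) ≤ (F.card : ℤ) - 1 :=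
        le_of_mul_le_mul_left h5 (by exact_mod_cast hγ0)
      omega
    · have h2 := mem_filter.1 hX
      exact ⟨hFam.cyc X h2.1, by omega⟩
  have hDm : Ds ≤ 2 * (γ * m) := by
    have h1 : (γ : ℤ) * ((F.card : ℤ) - 1) ≤ γ * (2 * m) :=
      mul_le_mul_of_nonneg_left (by omega) (Int.natCast_nonneg _)
    have h4 : (Ds : ℤ) ≤ 2 * (γ * m) := by
      calc (Ds : ℤ) ≤ γ * ((F.card : ℤ) - 1) := h1D
        _ ≤ γ * (2 * m) := h1
        _ = 2 * (γ * m) := by ring
    exact_mod_cast h4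
  have hFam₁ : Fam G (4 * (γ * m)) F := ⟨hFam.cyc, hFam.disj, by omega⟩
  -- large cuts
  have hcut : ∀ P ∈ F, ∀ Y ⊆ P, ¬ (G.induce (Y : Set V)).IsAcyclic →
      ¬ (G.induce ((P \ Y : Finset V) : Set V)).IsAcyclic → k₁ ≤ ee G Y (P \ Y) := by
    intro P hP Y hY hY1 hY2
    by_contra hcon
    push Not at hcon
    have hne : Y ≠ P \ Y := by
      intro h
      obtain ⟨v, hv⟩ := ne_of_cyc hY1
      have h1 := hv
      rw [h] at h1
      exact (mem_sdiff.1 h1).2 hv
    have hYY : Disjoint Y (P \ Y) := disjoint_sdiff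
    obtain ⟨h4, h5⟩ := hFam.replace (L' := N) hP (Q := {Y, P \ Y}) (fun X hX => by
      rw [mem_insert, mem_singleton] at hX
      rcases hX with rfl | rfl
      · exact ⟨hY, hY1⟩
      · exact ⟨sdiff_subset, hY2⟩) (fun X hX Z hZ hXZ => by
      rw [mem_insert, mem_singleton] at hX hZ
      rcases hX with rfl | rfl <;> rcases hZ with rfl | rfl
      · exact absurd rfl hXZ
      · exact hYY
      · exact hYY.symm
      · exact absurd rfl hXZ) (by
      rw [sum_pair hne]
      have h4 : (P \ Y).card + Y.card = P.card := card_sdiff_add_card_eq_card hY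
      omega)
    have h6 := hmin' _ h4
    rw [h5, sum_pair hne, hval, hval, hval] at h6
    have h7 : ((P \ Y).card : ℤ) = P.card - Y.card := by
      have h4 : (P \ Y).card + Y.card = P.card := card_sdiff_add_card_eq_card hY
      omega
    have h8 := bead_split (G := G) hY
    have h8' : (dd G Y : ℤ) + dd G (P \ Y) = dd G P + 2 * ee G Y (P \ Y) := by exact_mod_cast h8
    have h9 : (ee G Y (P \ Y) : ℤ) + 1 ≤ k₁ := by exact_mod_cast hcon
    have h10 : (γ : ℤ) = 2 * β * (k₁ + 1) := by rw [hγ]; push_cast; rfl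
    rw [h7] at h6
    have h11 : (β : ℤ) * (ee G Y (P \ Y) + 1) ≤ β * k₁ :=
      mul_le_mul_of_nonneg_left h9 (by omega)
    have h12 : (β : ℤ) * (dd G Y + dd G (P \ Y)) = β * (dd G P + 2 * ee G Y (P \ Y)) := by
      rw [h8']
    nlinarith [h6, h11, h12, h10, hβ2]
  -- a large member stays cyclic after the removal of a few vertices
  have hbig : ∀ P ∈ F, dd G P + 4 * M < P.card → ∀ Q ⊆ P, Q.card ≤ M →
      ¬ (G.induce ((P \ Q : Finset V) : Set V)).IsAcyclic := by
    intro P hP hPb Q hQ hQM hacy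
    have h4 : (P \ Q).card + Q.card = P.card := card_sdiff_add_card_eq_card hQ
    rcases (P \ Q).eq_empty_or_nonempty with h | h
    · rw [h, card_empty] at h4
      omega
    · have h5 := dd_of_acyclic G h3 h hacy
      have h6 := bead_sdiff (G := G) hQ
      have h7 : dd G Q ≤ 3 * Q.card := by
        have := dd_sum h3 Q
        omega
      omega
  -- far boundaries
  have hfar : ∀ P ∈ F, dd G P + 4 * M < P.card → FarB G D P := by
    intro P hP hPb Q hQ hQc hconn
    by_contra hcon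
    push Not at hcon
    have h1 := bead_sdiff (G := G) hQ
    have h2 := bead_conn h3 hconn
    have hcyc := hbig P hP hPb Q hQ (by omega)
    obtain ⟨h4, h5⟩ := hFam₁.replace (L' := N) hP (Q := {P \ Q}) (fun X hX => by
      rw [mem_singleton.1 hX]
      exact ⟨sdiff_subset, hcyc⟩) (fun X hX Y hY hne => by
      rw [mem_singleton] at hX hY
      exact absurd (hX.trans hY.symm) hne) (by
      rw [sum_singleton]
      have h4 : (P \ Q).card + Q.card = P.card := card_sdiff_add_card_eq_card hQ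
      omega)
    have h6 := hmin' _ h4
    rw [h5, sum_singleton, hval, hval] at h6
    have h7 : ((P \ Q).card : ℤ) = P.card - Q.card := by
      have h4 : (P \ Q).card + Q.card = P.card := card_sdiff_add_card_eq_card hQ
      omega
    have h8 : (dd G (P \ Q) : ℤ) ≤ dd G P + Q.card - 2 := by omega
    have h9 : (β : ℤ) * dd G (P \ Q) ≤ β * (dd G P + Q.card - 2) :=
      mul_le_mul_of_nonneg_left h8 (by omega)
    have h10 : (Q.card : ℤ) ≤ D := by exact_mod_cast hQc
    have h11 : (β : ℤ) = D + 2 := by rw [hβ]; push_cast; rfl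
    rw [h7] at h6
    nlinarith [h6, h9, h10, h11]
  -- girth
  have hgir : ∀ P ∈ F, dd G P + 4 * M < P.card → ∀ A ⊆ P, A.card < K →
      (G.induce (A : Set V)).IsAcyclic := by
    intro P hP hPb A hA hAK
    by_contra hac
    obtain ⟨B, hBA, hBne, hBd⟩ := exists_circ h3 hac
    have hBac : ¬ (G.induce (B : Set V)).IsAcyclic := by
      intro h
      have h1 := dd_of_acyclic G h3 hBne h
      omega
    have hBc := card_le_card hBA
    have h1 := hcut P hP B (hBA.trans hA) hBac (hbig P hP hPb B (hBA.trans hA) (by omega))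
    have h2 := bead_split (G := G) (hBA.trans hA)
    have h4 : ee G B (P \ B) ≤ dd G B := by
      rw [dd_ee]
      exact ee_mono (Subset.refl _) fun v hv => by
        rw [mem_compl]
        exact (mem_sdiff.1 hv).2
    omega
  -- the good members
  obtain ⟨F', hF'⟩ : ∃ F' : Finset (Finset V), F' = F.filter fun P => dd G P + 4 * M < P.card :=
    ⟨_, rfl⟩
  have hmemF' : ∀ P ∈ F', P ∈ F ∧ dd G P + 4 * M < P.card := fun P hP => by
    rw [hF'] at hP
    exact mem_filter.1 hP
  set R' : Finset V := (F'.biUnion id)ᶜ with hR'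
  have hR'c : R'.card ≤ 6 * (γ * m) + 8 * (M * m) := by
    have h1 : (F'.biUnion id).card = ∑ P ∈ F', P.card :=
      card_biUnion fun P hP Q hQ hne =>
        hFam.disj P (hmemF' P hP).1 Q (hmemF' Q hQ).1 hne
    have h2 : R'.card + ∑ P ∈ F', P.card = Fintype.card V := by
      rw [hR', ← h1, card_compl]
      have := card_le_univ (F'.biUnion id)
      omega
    have h4 : ∑ P ∈ F, P.card = ∑ P ∈ F', P.card +
        ∑ P ∈ F.filter (fun P => ¬ dd G P + 4 * M < P.card), P.card := by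
      rw [hF']
      exact (sum_filter_add_sum_filter_not F _ _).symm
    have h5 : ∑ P ∈ F.filter (fun P => ¬ dd G P + 4 * M < P.card), P.card ≤
        Ds + 4 * M * F.card := by
      calc ∑ P ∈ F.filter (fun P => ¬ dd G P + 4 * M < P.card), P.card
          ≤ ∑ P ∈ F.filter (fun P => ¬ dd G P + 4 * M < P.card), (dd G P + 4 * M) := by
            refine sum_le_sum fun P hP => ?_
            have := (mem_filter.1 hP).2
            omega
        _ ≤ ∑ P ∈ F, (dd G P + 4 * M) := sum_le_sum_of_subset (filter_subset _ _)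
        _ = Ds + 4 * M * F.card := by
            rw [sum_add_distrib, sum_const, smul_eq_mul, hDs]
            ring
    have h6 : 4 * M * F.card ≤ 4 * M * (2 * m) := Nat.mul_le_mul_left _ (by omega)
    have h7 : 4 * M * (2 * m) = 8 * (M * m) := by ring
    omega
  have hF'ne : F'.Nonempty := by
    rw [nonempty_iff_ne_empty]
    intro h
    have h1 : R' = univ := by rw [hR', h, biUnion_empty, compl_empty]
    rw [h1, card_univ] at hR'c
    omega
  refine ⟨F'.card, card_pos.2 hF'ne, fun i => ((F'.equivFin.symm i : F') : Finset V), ?_, ?_, ?_,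
    ?_, ?_, ?_⟩
  · intro i j hij
    refine hFam.disj _ (hmemF' _ (F'.equivFin.symm i).2).1 _ (hmemF' _ (F'.equivFin.symm j).2).1
      fun h => hij ?_
    exact F'.equivFin.symm.injective (Subtype.ext h)
  · exact fun i => hFam.cyc _ (hmemF' _ (F'.equivFin.symm i).2).1
  · exact fun i => hfar _ (hmemF' _ (F'.equivFin.symm i).2).1 (hmemF' _ (F'.equivFin.symm i).2).2
  · exact fun i => hgir _ (hmemF' _ (F'.equivFin.symm i).2).1 (hmemF' _ (F'.equivFin.symm i).2).2
  · intro i Y hY h1 h2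
    exact (by omega : k₀ ≤ k₁).trans (hcut _ (hmemF' _ (F'.equivFin.symm i).2).1 Y hY h1 h2)
  · intro U hdis
    have hUR : U ⊆ R' := by
      intro v hv
      rw [hR', mem_compl, mem_biUnion]
      rintro ⟨P, hP, hvP⟩
      have h1 : Disjoint U P := by
        have h2 := hdis (F'.equivFin ⟨P, hP⟩)
        simpa using h2
      exact Finset.disjoint_left.1 h1 hv hvP
    have h1 := card_le_card hUR
    have h2 := hsp U (by omega)
    have h4 : 8 * U.card ≤ 8 * dd G U + 2 * U.card := sparse_mono (by omega) h2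
    omega

/-- **(FLS).** The hypothesis is the conclusion of `ext_e`. -/
theorem sparse_main (hext : ∃ D K : ℕ, ∀ {V : Type} [Fintype V] [DecidableEq V]
    (G : SimpleGraph V) [DecidableRel G.Adj], (∀ v, G.degree v = 3) → ∀ P : Finset V, FarB G D P →
    (∀ A ⊆ P, A.card < K → (G.induce (A : Set V)).IsAcyclic) →
    (∀ Y ⊆ P, ¬ (G.induce (Y : Set V)).IsAcyclic →
      ¬ (G.induce ((P \ Y : Finset V) : Set V)).IsAcyclic → K ≤ ee G Y (P \ Y)) →
    ∀ φ : V → ZMod 5, BdryOK G P φ → ExtFlow G P φ) :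
    ∃ C : ℕ, ∀ {V : Type} [Fintype V] [DecidableEq V] (G : SimpleGraph V) [DecidableRel G.Adj],
      (∀ v, G.degree v = 3) → CycConn G 6 → ∀ m : ℕ, 1 ≤ m →
      (∀ U : Finset V, U.card ≤ C * m → C * U.card ≤ C * dd G U + 2 * U.card) →
      (¬ ∃ X : Fin m → Finset V, (∀ i j, i ≠ j → Disjoint (X i) (X j)) ∧
        ∀ i, ¬ (G.induce (X i : Set V)).IsAcyclic ∧ dd G (X i) ≤ C) →
      HasNZFlow (ZMod 5) G := by
  classical
  obtain ⟨K, hK⟩ := free_main hext
  obtain ⟨C, hC8, hC⟩ := exists_parts_sp K K K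
  refine ⟨C, fun {V} _ _ G _ h3 hc m hm hsp hX => ?_⟩
  rcases isEmpty_or_nonempty V with hV | hV
  · exact ⟨fun _ _ => 0, fun u => hV.elim u, fun u => hV.elim u, fun u => hV.elim u⟩
  obtain ⟨s, hs, P, hdis, hcyc, hfar, hgir, hcut, hrest⟩ := hC G h3 m hm hsp
    (fun F hF hFd => by
      by_contra hcon
      push Not at hcon
      obtain ⟨F₁, hF₁, hF₁c⟩ := exists_subset_card_eq hcon
      refine hX ⟨fun i => ((F₁.equivFinOfCardEq hF₁c).symm i : Finset V), fun i j hij => ?_,
        fun i => hF _ (hF₁ ((F₁.equivFinOfCardEq hF₁c).symm i).2)⟩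
      refine hFd _ (hF₁ ((F₁.equivFinOfCardEq hF₁c).symm i).2) _
        (hF₁ ((F₁.equivFinOfCardEq hF₁c).symm j).2) fun h => hij ?_
      exact (F₁.equivFinOfCardEq hF₁c).symm.injective (Subtype.ext h))
  refine hK G h3 (k := 6) (by norm_num) hc hs P hdis hcyc hfar hgir hcut fun U hU => ?_
  have h1 := hrest U hU
  omega

/-- The form of the hand-in of (FLS). -/
theorem sparse_form (h : ∃ C : ℕ, ∀ {V : Type} [Fintype V] [DecidableEq V] (G : SimpleGraph V)
      [DecidableRel G.Adj], (∀ v, G.degree v = 3) → CycConn G 6 → ∀ m : ℕ, 1 ≤ m →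
      (∀ U : Finset V, U.card ≤ C * m → C * U.card ≤ C * dd G U + 2 * U.card) →
      (¬ ∃ X : Fin m → Finset V, (∀ i j, i ≠ j → Disjoint (X i) (X j)) ∧
        ∀ i, ¬ (G.induce (X i : Set V)).IsAcyclic ∧ dd G (X i) ≤ C) →
      HasNZFlow (ZMod 5) G) :
    ∃ C : ℕ, ∀ (V : Type) [Fintype V] [DecidableEq V] (G : SimpleGraph V) [DecidableRel G.Adj],
    G.IsRegularOfDegree 3 →
    (∀ S : Finset V, ¬ (G.induce (S : Set V)).IsAcyclic →
      ¬ (G.induce ((Sᶜ : Finset V) : Set V)).IsAcyclic → 6 ≤ (G.interedges S Sᶜ).card) →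
    ∀ m : ℕ, 1 ≤ m →
    (∃ U : Finset V, U.card ≤ C * m ∧
      (C + 1) * U.card < C * (G.induce (U : Set V)).edgeSet.ncard) ∨
    (∃ X : Fin m → Finset V, (∀ i j, i ≠ j → Disjoint (X i) (X j)) ∧
      ∀ i, ¬ (G.induce (X i : Set V)).IsAcyclic ∧ (G.interedges (X i) (X i)ᶜ).card ≤ C) ∨
    ∀ i : ℕ, 5 ≤ i → HasNZFlow (ZMod i) G := by
  obtain ⟨C, hC⟩ := h
  refine ⟨C, ?_⟩
  intro V _ _ G _ h3 hS m hm
  by_cases hU : ∃ U : Finset V, U.card ≤ C * m ∧
      (C + 1) * U.card < C * (G.induce (U : Set V)).edgeSet.ncard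
  · exact Or.inl hU
  by_cases hX : ∃ X : Fin m → Finset V, (∀ i j, i ≠ j → Disjoint (X i) (X j)) ∧
      ∀ i, ¬ (G.induce (X i : Set V)).IsAcyclic ∧ (G.interedges (X i) (X i)ᶜ).card ≤ C
  · exact Or.inr (Or.inl hX)
  push Not at hU
  right
  right
  refine lift_five (hC G h3 (fun S h1 h2 => ?_) m hm (fun U h1 => ?_)
    fun ⟨X, h1, h2⟩ => hX ⟨X, h1, fun i => ⟨(h2 i).1, ?_⟩⟩)
  · rw [← dd_interedges]
    exact hS S h1 h2
  · have h2 := hU U h1
    have h4 : dd G U + 2 * (G.induce (U : Set V)).edgeSet.ncard = 3 * U.card := by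
      have h5 := dd_add_inside G h3 U
      have h6 := inside_card G U
      have h7 : (G.induce (U : Set V)).edgeSet.ncard =
          (G.induce (U : Set V)).edgeFinset.card := by
        rw [← coe_edgeFinset, Set.ncard_coe_finset]
      rw [h7]
      omega
    have h5 : C * dd G U + 2 * (C * (G.induce (U : Set V)).edgeSet.ncard) = 3 * (C * U.card) := by
      rw [← mul_assoc, mul_comm 2 C, mul_assoc, ← mul_add, h4]
      ring
    have h6 : (C + 1) * U.card = C * U.card + U.card := by ring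
    omega
  · rw [dd_interedges]
    exact (h2 i).2

end Pool.Agent.K5.Sp
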