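import Mathlib
import Pool.Agent.Work.MP_974d84_co_k5.Defs5
import Pool.Agent.Work.MP_974d84_co_log.BigOf
import Pool.Agent.Work.MP_974d84_co_log.Girth

/-!
# Filling the holes of a joined set

The holes of `Z ⊆ Y` are the parts of the complement of `Z` which are not joined to the outside
of `Y`.
-/

set_option linter.unusedSectionVars false
set_option autoImplicit false

namespace Pool.Agent.K5

open Finset SimpleGraph Pool.Agent.Exp Pool.Agent.Log5 Pool.Agent.Log5.Clu

variable {V : Type} [Fintype V] [DecidableEq V] {G : SimpleGraph V} [DecidableRel G.Adj]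

/-- Reached from the outside of `Y` without using `Z`. -/
def Rch (G : SimpleGraph V) (Y Z : Finset V) (v : V) : Prop :=
  ∀ W : Finset V, Yᶜ ⊆ W → (∀ x ∈ W, ∀ y, y ∉ Z → G.Adj x y → y ∈ W) → v ∈ W

open Classical in
/-- The set `Z` with its holes. -/
noncomputable def fillH (G : SimpleGraph V) (Y Z : Finset V) : Finset V :=
  univ.filter fun v => ¬ Rch G Y Z v

section fill

variable {Y Z : Finset V}

theorem mem_fillH {v : V} : v ∈ fillH G Y Z ↔ ¬ Rch G Y Z v := by
  classical
  unfold fillH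
  rw [mem_filter]
  exact ⟨fun h => h.2, fun h => ⟨mem_univ _, h⟩⟩

theorem rch_out {v : V} (hv : v ∉ Y) : Rch G Y Z v := fun _ hW _ => hW (mem_compl.2 hv)

theorem rch_step {x y : V} (hx : Rch G Y Z x) (hy : y ∉ Z) (hxy : G.Adj x y) : Rch G Y Z y :=
  fun W hW hc => hc x (hx W hW hc) y hy hxy

theorem rch_notMem (hZ : Z ⊆ Y) {v : V} (hv : Rch G Y Z v) : v ∉ Z := by
  have h1 := hv Zᶜ (compl_subset_compl.2 hZ) fun x _ y hy _ => mem_compl.2 hy
  exact mem_compl.1 h1

theorem subset_fillH (hZ : Z ⊆ Y) : Z ⊆ fillH G Y Z := fun _ hv =>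
  mem_fillH.2 fun h => rch_notMem hZ h hv

theorem fillH_subset : fillH G Y Z ⊆ Y := by
  intro v hv
  by_contra h
  exact mem_fillH.1 hv (rch_out h)

/-- An edge leaving the filled set starts in `Z`. -/
theorem fillH_edge {x y : V} (hx : x ∈ fillH G Y Z) (hy : y ∉ fillH G Y Z) (hxy : G.Adj x y) :
    x ∈ Z := by
  by_contra h
  have h1 : Rch G Y Z y := by
    by_contra h2
    exact hy (mem_fillH.2 h2)
  exact mem_fillH.1 hx (rch_step h1 h hxy.symm)

theorem dd_fillH_le (hZ : Z ⊆ Y) : dd G (fillH G Y Z) ≤ dd G Z := by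
  unfold dd
  refine card_le_card fun p hp => ?_
  rw [mem_cut] at hp ⊢
  exact ⟨fillH_edge hp.1 hp.2.1 hp.2.2, fun h => hp.2.1 (subset_fillH hZ h), hp.2.2⟩

/-- **Filling the holes** of a joined set gives a bond of the region. -/
theorem rbond_fillH (hbr : ∀ A : Finset V, A.Nonempty → Aᶜ.Nonempty → 1 ≤ dd G A) (hZ : Z ⊆ Y)
    (hne : Z.Nonempty) (hj : Joined G Z) : RBond G Y id (fillH G Y Z) := by
  refine ⟨fillH_subset, hne.mono (subset_fillH hZ), ?_, ?_, ?_⟩
  · -- joined
    intro A hA hAne hAF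
    by_contra hcon
    push Not at hcon
    -- a part without `Z` has no edges at all
    have key : ∀ B : Finset V, B ⊆ fillH G Y Z → B.Nonempty → Disjoint B Z →
        (∀ x ∈ B, ∀ y ∈ fillH G Y Z, y ∉ B → ¬ G.Adj x y) → False := by
      intro B hB hBne hBZ hBe
      have h1 : Bᶜ.Nonempty := by
        obtain ⟨z, hz⟩ := hne
        exact ⟨z, mem_compl.2 fun h => disjoint_left.1 hBZ h hz⟩
      have h2 := hbr B hBne h1
      unfold dd at h2
      obtain ⟨p, hp⟩ := card_pos.1 (show 0 < _ from h2)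
      rw [mem_cut] at hp
      by_cases h3 : p.2 ∈ fillH G Y Z
      · exact hBe _ hp.1 _ h3 hp.2.1 hp.2.2
      · exact disjoint_left.1 hBZ hp.1 (fillH_edge (hB hp.1) h3 hp.2.2)
    by_cases h1 : (A ∩ Z).Nonempty
    · have h2 : Z ⊆ A := by
        by_contra h3
        have h4 : A ∩ Z ≠ Z := fun h => h3 (by rw [← h]; exact inter_subset_left)
        obtain ⟨x, hx, y, hy, hyA, hxy⟩ := hj _ inter_subset_right h1 h4
        exact hcon x (mem_inter.1 hx).1 y (subset_fillH hZ hy)
          (fun h => hyA (mem_inter.2 ⟨h, hy⟩)) hxy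
      refine key (fillH G Y Z \ A) sdiff_subset ?_ ?_ ?_
      · rw [sdiff_nonempty]
        exact fun h => hAF (Subset.antisymm hA h)
      · exact disjoint_left.2 fun x hx hx' => (mem_sdiff.1 hx).2 (h2 hx')
      · intro x hx y hy hyn hxy
        have hyA : y ∈ A := by
          by_contra h
          exact hyn (mem_sdiff.2 ⟨hy, h⟩)
        exact hcon y hyA x (mem_sdiff.1 hx).1 (mem_sdiff.1 hx).2 hxy.symm
    · refine key A hA hAne ?_ hcon
      exact disjoint_left.2 fun x hx hx' => h1 ⟨x, mem_inter.2 ⟨hx, hx'⟩⟩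
  · -- the outside
    intro A hA hAne _
    by_contra hcon
    push Not at hcon
    obtain ⟨a, ha⟩ := hAne
    have h1 := mem_sdiff.1 (hA ha)
    have h2 : Rch G Y Z a := by
      by_contra h
      exact mem_compl.1 h1.1 (mem_fillH.2 h)
    -- the reached vertices outside `A`
    have h3 := h2 ((fillH G Y Z)ᶜ \ A) ?_ ?_
    · exact (mem_sdiff.1 h3).2 ha
    · intro v hv
      rw [mem_sdiff, mem_compl]
      refine ⟨fun h => mem_compl.1 hv (fillH_subset h), fun h => ?_⟩
      exact (mem_sdiff.1 (hA h)).2 hv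
    · intro x hx y hy hxy
      rw [mem_sdiff, mem_compl] at hx
      have h4 : Rch G Y Z x := by
        by_contra h
        exact hx.1 (mem_fillH.2 h)
      have h5 : y ∉ fillH G Y Z := fun h => mem_fillH.1 h (rch_step h4 hy hxy)
      rw [mem_sdiff, mem_compl]
      refine ⟨h5, fun h => ?_⟩
      exact hcon y h x (mem_compl.2 hx.1) hx.2 hxy.symm
  · intro x y hxy
    have : x = y := hxy
    rw [this]

/-- The filled set is not small either. -/
theorem le_dd_fillH (h3 : ∀ v, G.degree v = 3) {k : ℕ} (hc : CycConn G k) (hZ : Z ⊆ Y)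
    (hne : Z.Nonempty) (hj : Joined G Z) (hk : k ≤ dd G Z) (hbig : k ≤ (fillH G Y Z)ᶜ.card) :
    k ≤ dd G (fillH G Y Z) := by
  by_cases a1 : (G.induce ((fillH G Y Z : Finset V) : Set V)).IsAcyclic
  · have h1 := dd_of_acyclic G h3 (hne.mono (subset_fillH hZ)) a1
    have h2 := dd_le_of_joined h3 hj hne
    have h4 := card_le_card (subset_fillH (G := G) hZ)
    omega
  · by_cases a2 : (G.induce (((fillH G Y Z)ᶜ : Finset V) : Set V)).IsAcyclic
    · by_cases h5 : ((fillH G Y Z)ᶜ).Nonempty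
      · have h1 := dd_of_acyclic G h3 h5 a2
        rw [dd_compl] at h1
        omega
      · rw [not_nonempty_iff_eq_empty] at h5
        rw [h5, card_empty] at hbig
        omega
    · exact hc _ a1 a2

end fill

/-- **Filling inside a core.** -/
theorem filling (h3 : ∀ v, G.degree v = 3)
    (hbr : ∀ A : Finset V, A.Nonempty → Aᶜ.Nonempty → 1 ≤ dd G A) {C : ℝ} {N k r : ℕ}
    {S : Fin r → Finset V} (hF : Facts G C N k S) (hc : CycConn G k) (i : Fin r) {Z : Finset V}
    (hZ : Z ⊆ S i) (hne : Z.Nonempty) (hj : Joined G Z) (hk : k ≤ dd G Z)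
    (hd : 10 * (dd G Z : ℝ) < gf C (S i).card) (h2k : 2 * k ≤ (S i).card) :
    ∃ F, Z ⊆ F ∧ RBond G (S i) id F ∧ dd G F ≤ dd G Z ∧ k ≤ dd G F ∧ 2 * F.card < (S i).card := by
  have h1 : dd G (fillH G (S i) Z) ≤ dd G Z := dd_fillH_le hZ
  have h2 : 2 * (fillH G (S i) Z).card < (S i).card := by
    by_contra hcon
    push Not at hcon
    have h4 := hF.half i (fillH G (S i) Z) fillH_subset hcon
    have h5 : (dd G (fillH G (S i) Z) : ℝ) ≤ dd G Z := by exact_mod_cast h1
    linarith
  refine ⟨fillH G (S i) Z, subset_fillH hZ, rbond_fillH hbr hZ hne hj, h1, ?_, h2⟩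
  refine le_dd_fillH h3 hc hZ hne hj hk ?_
  have h4 : (S i \ fillH G (S i) Z).card ≤ ((fillH G (S i) Z)ᶜ).card :=
    card_le_card fun x hx => mem_compl.2 (mem_sdiff.1 hx).2
  have h5 : (S i \ fillH G (S i) Z).card = (S i).card - (fillH G (S i) Z).card :=
    card_sdiff_of_subset fillH_subset
  omega

end Pool.Agent.K5
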