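import Pool.Agent.Work.MP_974d84_co_k5.FinalIneq
import Pool.Agent.Work.MP_974d84_co_k5.HoffD

/-!
# The exact final inequality: strands, local flows at their ends, and a small flow which avoids
the triples of the sites
-/

set_option linter.unusedSectionVars false
set_option linter.unusedVariables false

namespace Pool.Agent.K5

open Finset SimpleGraph Pool.Agent.Exp Pool.Agent.Log5 Pool.Agent.Log5.Clu

theorem final_exact {V : Type} [Fintype V] [DecidableEq V] {G : SimpleGraph V} [DecidableRel G.Adj]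
    (h3 : ∀ v, G.degree v = 3) {H : SimpleGraph V} (hH : H ≤ G) {T : Finset V}
    (hdeg : ∀ v, (H.neighborSet v).ncard = if v ∈ T then 1 else 2) {x : V → ℤ}
    (hx : ∀ v, x v = 1 ∨ x v = -1) (halt : ∀ u v, H.Adj u v → x u = - x v) {j₀ : ℕ}
    (hT : ∀ t ∈ T, ∀ t' ∈ T, t ≠ t' → Disjoint (Bl G.Adj j₀ t) (Bl G.Adj j₀ t'))
    {φ : V → V → V → ℝ} {w : V → V → ℝ} (h1 : ∀ t ∈ T, ∀ u v, φ t u v = - φ t v u)
    (h2 : ∀ t ∈ T, ∀ u v, φ t u v ≠ 0 → G.Adj u v ∧ u ∈ Bl G.Adj j₀ t ∧ v ∈ Bl G.Adj j₀ t)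
    (h4 : ∀ t ∈ T, ∀ u v, |φ t u v| ≤ 2 / 5) (h5 : ∀ t ∈ T, ∀ u v, H.Adj u v → |φ t u v| ≤ 1 / 5)
    (h6 : ∀ t ∈ T, ∀ v, ∑ u, φ t v u = (if v = t then 1 else 0) - w t v)
    (Xt : V → Finset V)
    (h7 : ∀ t ∈ T, ∀ u v, u ∉ Xt t → v ∉ Xt t → |φ t u v| ≤ 1 / 10)
    (h8 : ∀ t ∈ T, ∀ v ∈ T.biUnion Xt, w t v = 0)
    (hg : ∀ Y : Finset V, Disjoint Y (T.biUnion Xt) →
      |∑ t ∈ T, (x t : ℝ) * ∑ v ∈ Y, w t v| ≤ 1 / 10 * ee G Y (Y ∪ T.biUnion Xt)ᶜ)
    (X : Finset V) : 5 * |∑ v ∈ X, x v| ≤ 3 * dd G X := by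
  classical
  set D : Finset V := T.biUnion Xt with hD
  have hx1 : ∀ v, |(x v : ℝ)| = 1 := by
    intro v
    rcases hx v with h | h <;> rw [h] <;> simp
  -- the small flow
  set s : V → ℝ := fun v => (∑ t ∈ T, (x t : ℝ) * w t v) / 2 with hs
  have hsum : ∀ Y : Finset V, ∑ v ∈ Y, s v = (∑ t ∈ T, (x t : ℝ) * ∑ v ∈ Y, w t v) / 2 := by
    intro Y
    simp only [hs]
    rw [← sum_div, sum_comm]
    congr 1
    exact sum_congr rfl fun t _ => by rw [mul_sum]
  have hsb : ∀ S : Finset V, Disjoint S D → |∑ v ∈ S, s v| ≤ 1 / 20 * ee G S (S ∪ D)ᶜ := by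
    intro S hS
    rw [hsum, abs_div, abs_of_pos (by norm_num : (0 : ℝ) < 2)]
    have := hg S hS
    linarith
  have h0 : ∑ v ∈ Dᶜ, s v = 0 := by
    have e1 := hsb Dᶜ (by
      rw [Finset.disjoint_left]
      intro v hv hv'
      exact (mem_compl.1 hv) hv')
    have e2 : (Dᶜ ∪ D)ᶜ = (∅ : Finset V) := by
      ext v
      simp only [mem_compl, mem_union, notMem_empty, iff_false, not_not]
      exact (em (v ∈ D)).symm.imp id id
    have e3 : ee G Dᶜ (∅ : Finset V) = 0 := by
      unfold ee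
      simp
    rw [e2, e3] at e1
    have e4 : |∑ v ∈ Dᶜ, s v| ≤ 0 := by simpa using e1
    exact abs_eq_zero.1 (le_antisymm e4 (abs_nonneg _))
  obtain ⟨g, hg1, hg2, hg3, hg4⟩ := hoffD G D h0 (by norm_num : (0 : ℝ) ≤ 1 / 20) hsb
  set Θ : V → V → ℝ := fun u v => ∑ t ∈ T, (x t : ℝ) * φ t u v with hΘ
  set Ψ : V → V → ℝ := fun u v => ((if H.Adj u v then (x u : ℝ) / 2 else 0) + Θ u v / 2) + g u v
    with hΨ
  -- at most one local flow passes an edge
  have hΘb : ∀ u v, ∀ b : ℝ, 0 ≤ b → (∀ t ∈ T, |φ t u v| ≤ b) → |Θ u v| ≤ b := by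
    intro u v b hb0 hb
    by_cases hex : ∃ t ∈ T, φ t u v ≠ 0
    · obtain ⟨t, ht, hne⟩ := hex
      have e : Θ u v = (x t : ℝ) * φ t u v := by
        refine sum_eq_single_of_mem t ht fun t' ht' htt' => ?_
        by_contra hcon
        have hne' : φ t' u v ≠ 0 := fun h => hcon (by rw [h, mul_zero])
        exact Finset.disjoint_left.1 (hT t' ht' t ht htt') (h2 t' ht' u v hne').2.1
          (h2 t ht u v hne).2.1
      rw [e, abs_mul, hx1, one_mul]
      exact hb t ht
    · push Not at hex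
      have e : Θ u v = 0 := sum_eq_zero fun t ht => by rw [hex t ht, mul_zero]
      rw [e, abs_zero]
      exact hb0
  have hanti : ∀ u v, Ψ u v = - Ψ v u := by
    intro u v
    have e1 : Θ u v = - Θ v u := by
      simp only [hΘ]
      rw [← sum_neg_distrib]
      refine sum_congr rfl fun t ht => ?_
      rw [h1 t ht u v]
      ring
    have e2 : (if H.Adj u v then (x u : ℝ) / 2 else 0) = -(if H.Adj v u then (x v : ℝ) / 2 else 0) := by
      by_cases h : H.Adj u v
      · rw [if_pos h, if_pos h.symm, halt u v h]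
        push_cast
        ring
      · rw [if_neg h, if_neg fun h' => h h'.symm, neg_zero]
    simp only [hΨ]
    rw [e1, e2, hg1 u v]
    ring
  have hbd : ∀ u v, |Ψ u v| ≤ if G.Adj u v then (3 / 5 : ℝ) else 0 := by
    intro u v
    by_cases hG : G.Adj u v
    · rw [if_pos hG]
      have hHb : |(if H.Adj u v then (x u : ℝ) / 2 else 0)| ≤ if H.Adj u v then 1 / 2 else 0 := by
        split_ifs
        · rw [abs_div, hx1, abs_of_pos (by norm_num : (0 : ℝ) < 2)]
        · simp
      have habs := abs_add_le ((if H.Adj u v then (x u : ℝ) / 2 else 0) + Θ u v / 2) (g u v)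
      have habs2 := abs_add_le (if H.Adj u v then (x u : ℝ) / 2 else 0) (Θ u v / 2)
      rw [abs_div (Θ u v), abs_of_pos (by norm_num : (0 : ℝ) < 2)] at habs2
      by_cases hDuv : u ∈ D ∨ v ∈ D
      · have e0 : g u v = 0 := by
          by_contra h
          have := hg2 u v h
          rcases hDuv with h' | h'
          · exact this.2.1 h'
          · exact this.2.2 h'
        rw [e0, abs_zero] at habs
        by_cases hHa : H.Adj u v
        · have e1 : |Θ u v| ≤ 1 / 5 := hΘb u v _ (by norm_num) fun t ht => h5 t ht u v hHa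
          rw [if_pos hHa] at hHb habs habs2
          simp only [hΨ]
          rw [if_pos hHa, e0]
          rw [if_pos hHa] at hHb
          linarith
        · have e1 : |Θ u v| ≤ 2 / 5 := hΘb u v _ (by norm_num) fun t ht => h4 t ht u v
          rw [if_neg hHa] at hHb habs habs2
          simp only [hΨ]
          rw [if_neg hHa, e0]
          rw [if_neg hHa] at hHb
          linarith
      · push Not at hDuv
        have e1 : |Θ u v| ≤ 1 / 10 := hΘb u v _ (by norm_num) fun t ht =>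
          h7 t ht u v (fun h => hDuv.1 (mem_biUnion.2 ⟨t, ht, h⟩))
            (fun h => hDuv.2 (mem_biUnion.2 ⟨t, ht, h⟩))
        have e2 := hg3 u v
        have e3 : (if H.Adj u v then (1 / 2 : ℝ) else 0) ≤ 1 / 2 := by split_ifs <;> norm_num
        simp only [hΨ]
        linarith
    · rw [if_neg hG]
      have hHa : ¬ H.Adj u v := fun h => hG (hH h)
      have e1 : |Θ u v| ≤ 0 := hΘb u v 0 le_rfl fun t ht => by
        have : φ t u v = 0 := by
          by_contra h
          exact hG (h2 t ht u v h).1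
        rw [this, abs_zero]
      have e1' : Θ u v = 0 := abs_eq_zero.1 (le_antisymm e1 (abs_nonneg _))
      have e0 : g u v = 0 := by
        by_contra h
        exact hG (hg2 u v h).1
      simp only [hΨ]
      rw [if_neg hHa, e1', e0]
      simp
  have hdiv : ∀ u, ∑ v, Ψ u v = (x u : ℝ) := by
    intro u
    have e1 : ∑ v, (if H.Adj u v then (x u : ℝ) / 2 else 0)
        = (x u : ℝ) / 2 * (if u ∈ T then 1 else 2) := by
      have e : ((H.neighborSet u).ncard : ℝ) = if u ∈ T then 1 else 2 := by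
        rw [hdeg u]
        split_ifs <;> simp
      rw [← sum_filter, sum_const, nsmul_eq_mul, mul_comm, ← e]
      congr 2
      rw [← Set.ncard_coe_finset]
      congr 1
      ext v
      simp
    have e2 : ∑ v, Θ u v = (if u ∈ T then (x u : ℝ) else 0) - ∑ t ∈ T, (x t : ℝ) * w t u := by
      simp only [hΘ]
      rw [sum_comm]
      have : ∀ t ∈ T, ∑ v, (x t : ℝ) * φ t u v
          = (if u = t then (x t : ℝ) else 0) - (x t : ℝ) * w t u := by
        intro t ht
        rw [← mul_sum, h6 t ht u, mul_sub]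
        split_ifs <;> simp
      rw [sum_congr rfl this, sum_sub_distrib, sum_ite_eq]
    have e3 : ∑ v, g u v = (∑ t ∈ T, (x t : ℝ) * w t u) / 2 := by
      by_cases hu : u ∈ D
      · have e4 : ∑ v, g u v = 0 := sum_eq_zero fun v _ => by
          by_contra h
          exact (hg2 u v h).2.1 hu
        have e5 : ∑ t ∈ T, (x t : ℝ) * w t u = 0 := sum_eq_zero fun t ht => by
          rw [h8 t ht u hu, mul_zero]
        rw [e4, e5, zero_div]
      · exact hg4 u hu
    simp only [hΨ]
    rw [sum_add_distrib, sum_add_distrib, e1, ← sum_div, e2, e3]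
    split_ifs <;> ring
  have hmain := abs_netflow_le G hanti hbd X
  rw [sum_congr rfl fun u _ => hdiv u] at hmain
  have hfin : (5 : ℝ) * |((∑ v ∈ X, x v : ℤ) : ℝ)| ≤ 3 * dd G X := by
    push_cast
    linarith
  have h9 : (((5 * |∑ v ∈ X, x v| : ℤ)) : ℝ) ≤ ((3 * (dd G X : ℤ) : ℤ) : ℝ) := by
    push_cast
    push_cast at hfin
    exact hfin
  exact_mod_cast h9

end Pool.Agent.K5
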