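import Pool.Agent.Work.MP_974d84_co_k5.FinalExact

/-!
# X2: the exact final inequality in the form of the plan
-/

set_option linter.unusedSectionVars false
set_option linter.unusedVariables false

namespace Pool.Agent.K5.X2

open Finset SimpleGraph Pool.Agent.Exp Pool.Agent.Log5 Pool.Agent.Log5.Clu

theorem ds_eq_ee {V : Type} [Fintype V] [DecidableEq V] (G : SimpleGraph V) [DecidableRel G.Adj]
    {D Z : Finset V} (hZ : Disjoint Z D) : ds G D Z = ee G Z (Z ∪ D)ᶜ := by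
  unfold ds ee
  congr 1
  ext p
  simp only [mem_filter, mem_univ, true_and, mem_compl, mem_union, not_or]
  constructor
  · rintro ⟨h1, h2, h3, h4, h5⟩
    exact ⟨h1, ⟨h2, h4⟩, h5⟩
  · rintro ⟨h1, ⟨h2, h4⟩, h5⟩
    exact ⟨h1, h2, fun h => Finset.disjoint_left.1 hZ h1 h, h4, h5⟩

/-- X2 -/
theorem final_exact {V : Type} [Fintype V] [DecidableEq V] {G : SimpleGraph V} [DecidableRel G.Adj]
    (h3 : ∀ v, G.degree v = 3) {H : SimpleGraph V} (hH : H ≤ G) {T : Finset V}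
    (hdeg : ∀ v, (H.neighborSet v).ncard = if v ∈ T then 1 else 2) {x : V → ℤ}
    (hx : ∀ v, x v = 1 ∨ x v = -1) (halt : ∀ u v, H.Adj u v → x u = - x v) {j₀ : ℕ}
    (hT : ∀ t ∈ T, ∀ t' ∈ T, t ≠ t' → Disjoint (Bl G.Adj j₀ t) (Bl G.Adj j₀ t'))
    {X : V → Finset V} (hX : ∀ t ∈ T, ∀ y, y ∈ X t ↔ (y = t ∨ (G.Adj t y ∧ ¬ H.Adj t y)))
    {φ : V → V → V → ℝ} {w : V → V → ℝ} (h1 : ∀ t ∈ T, ∀ u v, φ t u v = - φ t v u)
    (h2 : ∀ t ∈ T, ∀ u v, φ t u v ≠ 0 → G.Adj u v ∧ u ∈ Bl G.Adj j₀ t ∧ v ∈ Bl G.Adj j₀ t)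
    (h4 : ∀ t ∈ T, ∀ u v, |φ t u v| ≤ 2 / 5) (h5 : ∀ t ∈ T, ∀ u v, H.Adj u v → |φ t u v| ≤ 1 / 5)
    (h6 : ∀ t ∈ T, ∀ v, ∑ u, φ t v u = (if v = t then 1 else 0) - w t v)
    (h7 : ∀ t ∈ T, ∀ u v, u ∉ X t → v ∉ X t → |φ t u v| ≤ 1 / 10)
    (h8 : ∀ t ∈ T, ∀ v, w t v ≠ 0 → v ∉ T.biUnion X)
    (h9 : ∑ v, (x v : ℝ) = 0)
    (hcut : ∀ Z : Finset V, Disjoint Z (T.biUnion X) →
      |∑ t ∈ T, (x t : ℝ) * ∑ v ∈ Z, w t v| ≤ 1 / 10 * ds G (T.biUnion X) Z) (Z : Finset V) :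
    5 * |∑ v ∈ Z, x v| ≤ 3 * (dd G Z : ℤ) :=
  Pool.Agent.K5.final_exact h3 hH hdeg hx halt hT h1 h2 h4 h5 h6 X h7
    (fun t ht v hv => by
      by_contra h
      exact h8 t ht v h hv)
    (fun Y hY => by
      have := hcut Y hY
      rwa [ds_eq_ee G hY] at this) Z

end Pool.Agent.K5.X2
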