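import Mathlib
import Pool.Agent.Work.MP_974d84_co_k5.CritReal
import Pool.Agent.Work.MP_974d84_co_k5.Words
import Pool.Agent.Work.MP_974d84_co_k5.LocalW

/-!
# Route W: the final inequality
-/

set_option linter.unusedSectionVars false

namespace Pool.Agent.K5

open Finset SimpleGraph Pool.Agent.Exp Pool.Agent.Log5 Pool.Agent.Log5.Clu

section fw

variable {V : Type} [Fintype V] [DecidableEq V] {G : SimpleGraph V} [DecidableRel G.Adj]

/-- The net flow out of a set goes through its boundary. -/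
theorem fw_net {F : V → V → ℝ} (hanti : ∀ u v, F u v = - F v u) {c : ℝ}
    (hc : ∀ u v, G.Adj u v → |F u v| ≤ c) (h0 : ∀ u v, ¬ G.Adj u v → F u v = 0) (X : Finset V) :
    |∑ v ∈ X, ∑ u, F v u| ≤ c * dd G X := by
  rw [anti_cut hanti X, dd_real, mul_sum]
  refine (abs_sum_le_sum_abs _ _).trans (sum_le_sum fun v _ => ?_)
  rw [mul_sum]
  refine (abs_sum_le_sum_abs _ _).trans (sum_le_sum fun w _ => ?_)
  by_cases h : G.Adj v w
  · rw [if_pos h, mul_one]
    exact hc v w h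
  · rw [if_neg h, h0 v w h, abs_zero, mul_zero]

variable {μ : V → V} {π : Equiv.Perm V}

theorem fw_adj_mu (hf : Frame G μ π) (u : V) : G.Adj u (μ u) := (hf.adj u _).2 (Or.inl rfl)

theorem fw_adj_stp (hf : Frame G μ π) (b : Bool) (u : V) : G.Adj u (stp π b u) := by
  refine (hf.adj u _).2 (Or.inr ?_)
  cases b
  · exact Or.inr rfl
  · exact Or.inl rfl

theorem fw_stp_not (b : Bool) (u : V) : stp π (!b) (stp π b u) = u := by
  cases b
  · exact Equiv.apply_symm_apply π u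
  · exact Equiv.symm_apply_apply π u

theorem fw_mu_ne_stp (hf : Frame G μ π) (b : Bool) (u : V) : μ u ≠ stp π b u := by
  cases b
  · exact hf.mu_ne' u
  · exact hf.mu_ne u

theorem fw_TT_mem (hf : Frame G μ π) (v : V) (c : List Bool) :
    TT μ π v c ∈ Bl G.Adj (2 * c.length + 1) v := by
  induction c with
  | nil => exact mem_Bl_succ.2 (Or.inr ⟨v, Bl_self _ _, fw_adj_mu hf v⟩)
  | cons b c ih =>
    have h1 : stp π b (TT μ π v c) ∈ Bl G.Adj (2 * c.length + 1 + 1) v :=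
      mem_Bl_succ.2 (Or.inr ⟨_, ih, fw_adj_stp hf b _⟩)
    exact mem_Bl_succ.2 (Or.inr ⟨_, h1, fw_adj_mu hf _⟩)

/-- The edges which carry the flow of the end `v`. -/
def FwT (μ : V → V) (π : Equiv.Perm V) (j₀ : ℕ) (v u u' : V) : Prop :=
  (u' = μ u ∧ ((∃ c : List Bool, c.length ≤ j₀ ∧ u = TT μ π v c) ∨
    ∃ c : List Bool, c.length ≤ j₀ ∧ u' = TT μ π v c)) ∨
  (∃ (c : List Bool) (b : Bool), c.length < j₀ ∧ u = TT μ π v c ∧ u' = stp π b u) ∨
  ∃ (c : List Bool) (b : Bool), c.length < j₀ ∧ u' = TT μ π v c ∧ u = stp π b u'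

theorem fw_T_adj (hf : Frame G μ π) {j₀ : ℕ} {v u u' : V} (h : FwT μ π j₀ v u u') :
    G.Adj u u' := by
  rcases h with ⟨rfl, -⟩ | ⟨c, b, -, -, rfl⟩ | ⟨c, b, -, -, rfl⟩
  · exact fw_adj_mu hf u
  · exact fw_adj_stp hf b u
  · exact (fw_adj_stp hf b u').symm

theorem fw_T_ball (hf : Frame G μ π) {j₀ R : ℕ} (hR : 2 * j₀ + 2 ≤ R) {v u u' : V}
    (h : FwT μ π j₀ v u u') : u ∈ Bl G.Adj R v := by
  have h1 : ∀ c : List Bool, c.length ≤ j₀ → TT μ π v c ∈ Bl G.Adj (2 * j₀ + 1) v := fun c hc =>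
    Bl_mono (by omega) v (fw_TT_mem hf v c)
  rcases h with ⟨h2, ⟨c, hc, rfl⟩ | ⟨c, hc, h4⟩⟩ | ⟨c, b, hc, rfl, -⟩ | ⟨c, b, hc, rfl, rfl⟩
  · exact Bl_mono (by omega) v (h1 c hc)
  · have h5 : u = μ (TT μ π v c) := by rw [← h4, h2, hf.mu_mu]
    refine Bl_mono (show 2 * j₀ + 1 + 1 ≤ R by omega) v ?_
    rw [h5]
    exact mem_Bl_succ.2 (Or.inr ⟨_, h1 c hc, fw_adj_mu hf _⟩)
  · exact Bl_mono (by omega) v (h1 c hc.le)
  · exact Bl_mono (show 2 * j₀ + 1 + 1 ≤ R by omega) v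
      (mem_Bl_succ.2 (Or.inr ⟨_, h1 c hc.le, fw_adj_stp hf b _⟩))

/-- A tree vertex is not a circuit neighbour of a tree vertex of the same window. -/
theorem fw_TT_stp (hf : Frame G μ π) {k j₀ q : ℕ} (hg : Gir G k) (hk : 4 * q + 4 * j₀ + 20 ≤ k)
    {a : V} {i j : ℕ} (hi : i ≤ 2 * q) (hj : j ≤ 2 * q) {c d : List Bool} (hc : c.length ≤ j₀)
    (hd : d.length ≤ j₀) (b : Bool) :
    TT μ π ((π ^ j) a) d ≠ stp π b (TT μ π ((π ^ i) a) c) := by
  intro h
  cases b
  · have h1 : (π ^ 1) (TT μ π ((π ^ j) a) d) = TT μ π ((π ^ i) a) c := by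
      rw [h, pow_one]
      exact Equiv.apply_symm_apply π _
    have h2 : (π ^ 0) (TT μ π ((π ^ j) a) d) = TT μ π ((π ^ j) a) d := by
      rw [pow_zero]; rfl
    have := tree_uniq hf hg (by omega) h1 h2
    omega
  · have h1 : (π ^ 0) (TT μ π ((π ^ i) a) c) = TT μ π ((π ^ i) a) c := by
      rw [pow_zero]; rfl
    have h2 : (π ^ 1) (TT μ π ((π ^ i) a) c) = TT μ π ((π ^ j) a) d := by
      rw [h, pow_one]
      rfl
    have := tree_uniq hf hg (by omega) h1 h2
    omega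

theorem fw_TT_eq (hf : Frame G μ π) {k j₀ q : ℕ} (hg : Gir G k) (hk : 4 * q + 4 * j₀ + 20 ≤ k)
    {a : V} {i j : ℕ} (hi : i ≤ 2 * q) (hj : j ≤ 2 * q) {c d : List Bool} (hc : c.length ≤ j₀)
    (hd : d.length ≤ j₀) (h : TT μ π ((π ^ j) a) d = TT μ π ((π ^ i) a) c) : i = j ∧ c = d := by
  have h1 : (π ^ 0) (TT μ π ((π ^ i) a) c) = TT μ π ((π ^ i) a) c := by
    rw [pow_zero]; rfl
  have h2 : (π ^ 0) (TT μ π ((π ^ i) a) c) = TT μ π ((π ^ j) a) d := by
    rw [pow_zero, h]; rfl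
  have := tree_uniq hf hg (by omega) h1 h2
  exact ⟨this.1, this.2.2⟩

/-- A tree vertex is not in the window. -/
theorem fw_TT_ne (hf : Frame G μ π) {k j₀ q : ℕ} (hg : Gir G k) (hk : 4 * q + 4 * j₀ + 20 ≤ k)
    {a : V} {i n : ℕ} (hi : i ≤ 2 * q) (hn : n ≤ 2 * q) {c : List Bool} (hc : c.length ≤ j₀) :
    TT μ π ((π ^ i) a) c ≠ (π ^ n) a := by
  have h := tree_ne hf hg (a := a) (i := i) (m := 0) (n := n) (c := c) (by omega)
  rw [pow_zero] at h
  exact h

/-- The third edge of a tree vertex is not the third edge of another tree vertex. -/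
theorem fw_TT_mu (hf : Frame G μ π) {k j₀ q : ℕ} (hg : Gir G k) (hk : 4 * q + 4 * j₀ + 20 ≤ k)
    {a : V} {i j : ℕ} (hi : i ≤ 2 * q) (hj : j ≤ 2 * q) {c d : List Bool} (hc : c.length ≤ j₀)
    (hd : d.length ≤ j₀) : μ (TT μ π ((π ^ i) a) c) ≠ TT μ π ((π ^ j) a) d := by
  intro h
  have h1 : TT μ π ((π ^ i) a) c = μ (TT μ π ((π ^ j) a) d) := by rw [← h, hf.mu_mu]
  cases d with
  | nil =>
    rw [TT, hf.mu_mu] at h1
    exact fw_TT_ne hf hg hk hi hj hc h1
  | cons b d =>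
    rw [TT, hf.mu_mu] at h1
    rw [List.length_cons] at hd
    exact fw_TT_stp hf hg hk hj hi (by omega) hc b h1

theorem fw_T_uniq (hf : Frame G μ π) {k j₀ q : ℕ} (hg : Gir G k) (hk : 4 * q + 4 * j₀ + 20 ≤ k)
    {a : V} {i j : ℕ} (hi : i ≤ 2 * q) (hj : j ≤ 2 * q) {u u' : V}
    (h1 : FwT μ π j₀ ((π ^ i) a) u u') (h2 : FwT μ π j₀ ((π ^ j) a) u u') : i = j := by
  rcases h1 with ⟨e1, ⟨c, hc, e2⟩ | ⟨c, hc, e2⟩⟩ | ⟨c, b, hc, e1, e2⟩ | ⟨c, b, hc, e1, e2⟩ <;>
    rcases h2 with ⟨f1, ⟨d, hd, f2⟩ | ⟨d, hd, f2⟩⟩ | ⟨d, b', hd, f1, f2⟩ | ⟨d, b', hd, f1, f2⟩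
  · exact (fw_TT_eq hf hg hk hi hj hc hd (f2.symm.trans e2)).1
  · exact absurd (by rw [← e2, ← f1, f2]) (fw_TT_mu hf hg hk hi hj hc hd)
  · exact absurd (e1.symm.trans f2) (fw_mu_ne_stp hf b' u)
  · exfalso
    refine fw_mu_ne_stp hf (!b') u ?_
    rw [← e1, f2, fw_stp_not]
  · exact absurd (by rw [← f2, ← e1, e2]) (fw_TT_mu hf hg hk hj hi hd hc)
  · exact (fw_TT_eq hf hg hk hi hj hc hd (f2.symm.trans e2)).1
  · exact absurd (e1.symm.trans f2) (fw_mu_ne_stp hf b' u)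
  · exfalso
    refine fw_mu_ne_stp hf (!b') u ?_
    rw [← e1, f2, fw_stp_not]
  · exact absurd (f1.symm.trans e2) (fw_mu_ne_stp hf b u)
  · exact absurd (f1.symm.trans e2) (fw_mu_ne_stp hf b u)
  · exact (fw_TT_eq hf hg hk hi hj hc.le hd.le (f1.symm.trans e1)).1
  · exfalso
    refine fw_TT_stp (a := a) hf hg hk hi hj hc.le hd.le b ?_
    rw [← f1, e2, e1]
  · exfalso
    refine fw_mu_ne_stp hf (!b) u ?_
    rw [← f1, e2, fw_stp_not]
  · exfalso
    refine fw_mu_ne_stp hf (!b) u ?_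
    rw [← f1, e2, fw_stp_not]
  · exfalso
    refine fw_TT_stp (a := a) hf hg hk hj hi hd.le hc.le b' ?_
    rw [← e1, f2, f1]
  · exact (fw_TT_eq hf hg hk hi hj hc.le hd.le (f1.symm.trans e1)).1

theorem fw_mem_zone {R q : ℕ} {a v : V} {i : ℕ} (hi : i ≤ 2 * q)
    (h : v ∈ Bl G.Adj R ((π ^ i) a)) : v ∈ zone G π R q a :=
  mem_biUnion.2 ⟨i, mem_range.2 (by omega), h⟩

theorem fw_win (hf : Frame G μ π) {k R q B : ℕ} (hg : Gir G k) (hk : 2 * q + 2 ≤ k) {A : Finset V}
    (hA : Win G π R q B A) {a a' : V} (ha : a ∈ A) (ha' : a' ∈ A) {j j' : ℕ} (hj : j ≤ 2 * q)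
    (hj' : j' ≤ 2 * q) (h : (π ^ j) a = (π ^ j') a') : a = a' ∧ j = j' := by
  have h1 : a = a' := by
    by_contra hne
    refine disjoint_left.1 (hA.disj a ha a' ha' hne) (fw_mem_zone hj (Bl_self _ _)) ?_
    rw [h]
    exact fw_mem_zone hj' (Bl_self _ _)
  refine ⟨h1, ?_⟩
  subst h1
  have key : ∀ m n : ℕ, m < n → n ≤ 2 * q → (π ^ m) a ≠ (π ^ n) a := by
    intro m n hmn hn h2
    obtain ⟨d, rfl⟩ := Nat.exists_eq_add_of_le hmn.le
    rw [pow_add, Equiv.Perm.mul_apply] at h2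
    exact pow_ne hf hg (by omega) (by omega) a ((π ^ m).injective h2).symm
  rcases lt_trichotomy j j' with h2 | h2 | h2
  · exact absurd h (key j j' h2 hj')
  · exact h2
  · exact absurd h.symm (key j' j h2 hj)

/-- The places where the pattern is flipped. -/
def FwFl (π : Equiv.Perm V) (D : Finset V) (c : V → ℕ) : Finset V :=
  D.biUnion fun a => (range (c a)).image fun j => (π ^ j) a

theorem mem_FwFl {D : Finset V} {c : V → ℕ} {v : V} :
    v ∈ FwFl π D c ↔ ∃ a ∈ D, ∃ j < c a, (π ^ j) a = v := by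
  simp only [FwFl, mem_biUnion, mem_image, mem_range]

/-- The flipped pattern. -/
def fwx (π : Equiv.Perm V) (D : Finset V) (c : V → ℕ) (y : V → ℤ) (v : V) : ℤ :=
  if v ∈ FwFl π D c then - y v else y v

theorem fwx_sign {D : Finset V} {c : V → ℕ} {y : V → ℤ} (hy : ∀ v, y v = 1 ∨ y v = -1) (v : V) :
    fwx π D c y v = 1 ∨ fwx π D c y v = -1 := by
  unfold fwx
  rcases hy v with h | h <;> split_ifs <;> omega

/-- The sum of the labels at the ends of a circuit edge. -/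
theorem fw_g (hf : Frame G μ π) {J k R q B M : ℕ} (hg : Gir G k) (hk : 2 * q + 2 ≤ k)
    {A : Finset V} (hA : Win G π R q B A) {y : V → ℤ} (hy : Pattern μ π J q M A y)
    {c : V → ℕ} {ε : V → ℤ}
    (hc : ∀ a ∈ Dfc π A y, 1 ≤ c a ∧ c a ≤ 2 * q ∧ y ((π ^ c a) a) = ε a) (v : V) :
    fwx π (Dfc π A y) c y v + fwx π (Dfc π A y) c y (π v) =
      2 * ∑ a ∈ Dfc π A y, if v = (π ^ (c a - 1)) a then ε a else 0 := by
  set D := Dfc π A y with hD
  have hDA : ∀ a ∈ D, a ∈ A := fun a ha => (mem_filter.1 ha).1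
  have hpi : ∀ (a : V) (j : ℕ), (π ^ (j + 1)) a = π ((π ^ j) a) := by
    intro a j
    rw [pow_succ', Equiv.Perm.mul_apply]
  have hy1 : π v ∈ D → y (π v) = y v := by
    intro h
    have h1 := (mem_filter.1 h).2
    rw [Equiv.symm_apply_apply] at h1
    exact h1.symm
  have hy2 : π v ∉ D → y (π v) = - y v := by
    intro h
    by_cases h1 : π v ∈ A
    · have h2 : y v ≠ y (π v) := by
        intro h2
        refine h (mem_filter.2 ⟨h1, ?_⟩)
        rw [Equiv.symm_apply_apply]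
        exact h2
      rcases hy.sign v with h4 | h4 <;> rcases hy.sign (π v) with h5 | h5 <;> omega
    · exact hy.alt v h1
  have hno : (∀ a ∈ D, v ≠ (π ^ (c a - 1)) a) →
      ∑ a ∈ D, (if v = (π ^ (c a - 1)) a then ε a else 0) = 0 :=
    fun h => sum_eq_zero fun a ha => if_neg (h a ha)
  by_cases h1 : v ∈ FwFl π D c
  · obtain ⟨a, ha, j, hj, hv⟩ := mem_FwFl.1 h1
    obtain ⟨c1, c2, c3⟩ := hc a ha
    have h2 : π v = (π ^ (j + 1)) a := by rw [hpi, hv]
    have h4 : π v ∉ D := by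
      intro h
      have h5 : (π ^ (j + 1)) a = (π ^ 0) (π v) := by rw [← h2, pow_zero]; rfl
      have := (fw_win hf hg hk hA (hDA a ha) (hDA _ h) (by omega) (by omega) h5).2
      omega
    by_cases h5 : j + 1 < c a
    · have h6 : π v ∈ FwFl π D c := mem_FwFl.2 ⟨a, ha, j + 1, h5, h2.symm⟩
      rw [hno]
      · unfold fwx
        rw [if_pos h1, if_pos h6, hy2 h4]
        ring
      · intro a' ha' h7
        obtain ⟨d1, d2, d3⟩ := hc a' ha'
        have h8 := fw_win hf hg hk hA (hDA a ha) (hDA a' ha') (j := j) (j' := c a' - 1) (by omega)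
          (by omega) (by rw [hv]; exact h7)
        obtain ⟨rfl, h9⟩ := h8
        omega
    · have h6 : π v ∉ FwFl π D c := by
        intro h
        obtain ⟨a', ha', j', hj', hv'⟩ := mem_FwFl.1 h
        obtain ⟨d1, d2, d3⟩ := hc a' ha'
        have h8 := fw_win hf hg hk hA (hDA a ha) (hDA a' ha') (j := j + 1) (j' := j') (by omega)
          (by omega) (by rw [← h2]; exact hv'.symm)
        obtain ⟨rfl, h9⟩ := h8
        omega
      have h7 : j = c a - 1 := by omega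
      have h8 : y (π v) = ε a := by
        rw [h2, ← c3]
        congr 3
        omega
      rw [sum_eq_single_of_mem a ha, if_pos (by rw [← h7, hv])]
      · unfold fwx
        rw [if_pos h1, if_neg h6, ← hy2 h4, h8]
        ring
      · intro a' ha' hne
        obtain ⟨d1, d2, d3⟩ := hc a' ha'
        refine if_neg fun h9 => hne ?_
        exact (fw_win hf hg hk hA (hDA a' ha') (hDA a ha) (j := c a' - 1) (j' := j) (by omega)
          (by omega) (by rw [hv]; exact h9.symm)).1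
  · rw [hno]
    · by_cases h2 : π v ∈ FwFl π D c
      · obtain ⟨a, ha, j, hj, hv⟩ := mem_FwFl.1 h2
        have h4 : j = 0 := by
          by_contra h5
          obtain ⟨i, rfl⟩ := Nat.exists_eq_succ_of_ne_zero h5
          rw [Nat.succ_eq_add_one, hpi] at hv
          exact h1 (mem_FwFl.2 ⟨a, ha, i, by omega, π.injective hv⟩)
        subst h4
        rw [pow_zero] at hv
        have h5 : π v ∈ D := by
          rw [← hv]
          exact ha
        unfold fwx
        rw [if_neg h1, if_pos h2, hy1 h5]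
        ring
      · have h4 : π v ∉ D := by
          intro h
          refine h2 (mem_FwFl.2 ⟨π v, h, 0, ?_, by rw [pow_zero]; rfl⟩)
          have := (hc _ h).1
          omega
        unfold fwx
        rw [if_neg h1, if_neg h2, hy2 h4]
        ring
    · intro a ha h2
      have := (hc a ha).1
      exact h1 (mem_FwFl.2 ⟨a, ha, c a - 1, by omega, h2.symm⟩)

theorem fw_TT_fl (hf : Frame G μ π) {J k j₀ R q B : ℕ} (hJ : J ≤ j₀) (hR : 2 * j₀ + 2 ≤ R)
    (hg : Gir G k) (hk : 4 * q + 4 * j₀ + 20 ≤ k) {A : Finset V} (hA : Win G π R q B A)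
    {y : V → ℤ} {c : V → ℕ} {ε : V → ℤ} (hc : ∀ a ∈ Dfc π A y, c a ≤ 2 * q)
    {a : V} (ha : a ∈ Dfc π A y) {i : ℕ} (hi : i ≤ 2 * q)
    (hfv : Fav μ π J y (ε a) ((π ^ i) a)) {d : List Bool} (hd : d.length < J) :
    fwx π (Dfc π A y) c y (TT μ π ((π ^ i) a) d) = - ε a := by
  have h1 : TT μ π ((π ^ i) a) d ∉ FwFl π (Dfc π A y) c := by
    intro h
    obtain ⟨a', ha', j, hj, hv⟩ := mem_FwFl.1 h
    have h2 := hc a' ha'
    have h4 : a = a' := by
      by_contra hne
      have m1 : TT μ π ((π ^ i) a) d ∈ zone G π R q a :=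
        fw_mem_zone hi (Bl_mono (by omega) _ (fw_TT_mem hf _ _))
      have m2 : TT μ π ((π ^ i) a) d ∈ zone G π R q a' := by
        rw [← hv]
        exact fw_mem_zone (show j ≤ 2 * q by omega) (Bl_self _ _)
      exact disjoint_left.1 (hA.disj a (mem_filter.1 ha).1 a' (mem_filter.1 ha').1 hne) m1 m2
    subst h4
    exact fw_TT_ne hf hg hk (a := a) hi (show j ≤ 2 * q by omega) (show d.length ≤ j₀ by omega) hv.symm
  unfold fwx
  rw [if_neg h1, hfv d hd]

/-- The base flow. -/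
noncomputable def fwB (π : Equiv.Perm V) (x : V → ℤ) (u u' : V) : ℝ :=
  (if u' = π u then ((x u : ℝ) - x u') / 2 else 0) + if u = π u' then ((x u : ℝ) - x u') / 2 else 0

theorem fwB_anti (x : V → ℤ) (u u' : V) : fwB π x u u' = - fwB π x u' u := by
  unfold fwB
  split_ifs <;> ring

theorem fwB_mu (hf : Frame G μ π) (x : V → ℤ) (u : V) : fwB π x u (μ u) = 0 := by
  have h2 : ¬ u = π (μ u) := by
    intro h
    refine hf.mu_ne' u ?_
    rw [Equiv.eq_symm_apply]
    exact h.symm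
  unfold fwB
  rw [if_neg (hf.mu_ne u), if_neg h2, add_zero]

theorem fwB_stp (hf : Frame G μ π) (x : V → ℤ) (b : Bool) (u : V) :
    fwB π x u (stp π b u) = ((x u : ℝ) - x (stp π b u)) / 2 := by
  have h0 := hf.pi_ne u
  cases b
  · show fwB π x u (π.symm u) = _
    have h1 : ¬ π.symm u = π u := fun h => h0 h.symm
    have h2 : u = π (π.symm u) := (Equiv.apply_symm_apply π u).symm
    unfold fwB
    rw [if_neg h1, if_pos h2, zero_add]
    rfl
  · show fwB π x u (π u) = _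
    have h1 : ¬ u = π (π u) := by
      intro h
      exact h0 ((Equiv.eq_symm_apply π).2 h.symm)
    unfold fwB
    rw [if_pos rfl, if_neg h1, add_zero]
    rfl

theorem fwB_sum (x : V → ℤ) (v : V) :
    ∑ u, fwB π x v u = ((x v : ℝ) - x (π v)) / 2 + ((x v : ℝ) - x (π.symm v)) / 2 := by
  unfold fwB
  rw [sum_add_distrib]
  congr 1
  · simp
  · have h : ∀ u, (if v = π u then ((x v : ℝ) - x u) / 2 else 0) =
        if u = π.symm v then ((x v : ℝ) - x u) / 2 else 0 := by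
      intro u
      refine if_congr ?_ rfl rfl
      constructor
      · intro h
        rw [h, Equiv.symm_apply_apply]
      · intro h
        rw [h, Equiv.apply_symm_apply]
    rw [sum_congr rfl fun u _ => h u]
    simp

/-- The bound at an edge with one source. -/
theorem fw_bound {J n : ℕ} {s : ℤ} (hs : s = 1 ∨ s = -1) {X Y : ℤ} (hX : X = 1 ∨ X = -1)
    (hY : Y = 1 ∨ Y = -1) (h : n < J → X = - s) :
    |((X : ℝ) - Y) / 2 + s * (1 / 2 ^ (n + 1))| ≤ 1 + 1 / 2 ^ (J + 1) := by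
  have hp : (0 : ℝ) < 1 / 2 ^ (n + 1) := by positivity
  have hp1 : (1 : ℝ) / 2 ^ (n + 1) ≤ 1 / 2 := by
    rw [pow_succ, ← div_div]
    have h1 : (1 : ℝ) / 2 ^ n ≤ 1 := by
      rw [div_le_one (by positivity)]
      exact one_le_pow₀ (by norm_num)
    linarith
  have hq : (0 : ℝ) < 1 / 2 ^ (J + 1) := by positivity
  by_cases hn : n < J
  · have h1 := h hn
    rw [h1, abs_le]
    rcases hs with rfl | rfl <;> rcases hY with rfl | rfl <;> push_cast <;> constructor <;> linarith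
  · have h1 : (1 : ℝ) / 2 ^ (n + 1) ≤ 1 / 2 ^ (J + 1) :=
      one_div_le_one_div_of_le (by positivity) (pow_le_pow_right₀ (by norm_num) (by omega))
    rw [abs_le]
    rcases hs with rfl | rfl <;> rcases hX with rfl | rfl <;> rcases hY with rfl | rfl <;>
      push_cast <;> constructor <;> linarith

theorem fwB_abs {x : V → ℤ} (hx : ∀ v, x v = 1 ∨ x v = -1) (hf : Frame G μ π) (u u' : V) :
    |fwB π x u u'| ≤ 1 := by
  by_cases h : G.Adj u u'
  · rcases (hf.adj u u').1 h with rfl | rfl | rfl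
    · rw [fwB_mu hf, abs_zero]
      exact zero_le_one
    · have h1 := fwB_stp hf x true u
      have e : stp π true u = π u := rfl
      rw [e] at h1
      rw [h1, abs_le]
      rcases hx u with h2 | h2 <;> rcases hx (π u) with h4 | h4 <;> rw [h2, h4] <;>
        push_cast <;> constructor <;> linarith
    · have h1 := fwB_stp hf x false u
      have e : stp π false u = π.symm u := rfl
      rw [e] at h1
      rw [h1, abs_le]
      rcases hx u with h2 | h2 <;> rcases hx (π.symm u) with h4 | h4 <;> rw [h2, h4] <;>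
        push_cast <;> constructor <;> linarith
  · have h1 : ¬ u' = π u := fun h' => h ((hf.adj u u').2 (Or.inr (Or.inl h')))
    have h2 : ¬ u = π u' := fun h' => h (((hf.adj u' u).2 (Or.inr (Or.inl h'))).symm)
    unfold fwB
    rw [if_neg h1, if_neg h2, add_zero, abs_zero]
    exact zero_le_one

theorem fwB_zero (hf : Frame G μ π) (x : V → ℤ) {u u' : V} (h : ¬ G.Adj u u') :
    fwB π x u u' = 0 := by
  have h1 : ¬ u' = π u := fun h' => h ((hf.adj u u').2 (Or.inr (Or.inl h')))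
  have h2 : ¬ u = π u' := fun h' => h (((hf.adj u' u).2 (Or.inr (Or.inl h'))).symm)
  unfold fwB
  rw [if_neg h1, if_neg h2, add_zero]

end fw

/-- **W7**: for every choice of the signs of the defects there is `x`. -/
theorem final_w {V : Type} [Fintype V] [DecidableEq V] {G : SimpleGraph V} [DecidableRel G.Adj]
    {μ : V → V} {π : Equiv.Perm V} (hf : Frame G μ π) {J j₀ R q B M k : ℕ} (hJ : J ≤ j₀)
    (hR : 2 * j₀ + 2 ≤ R) (hg : Gir G k) (hk : 4 * q + 4 * j₀ + 20 ≤ k) {A : Finset V}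
    (hA : Win G π R q B A) {y : V → ℤ} (hy : Pattern μ π J q M A y) :
    ∃ w : V → ℤ → V → ℝ, (∀ a s v, 0 ≤ w a s v) ∧ (∀ a s v, w a s v ≤ 1 / 2 ^ j₀) ∧
      (∀ a ∈ Dfc π A y, ∀ s, (s = 1 ∨ s = -1) → (∀ v, w a s v ≠ 0 → v ∈ zone G π R q a) ∧
        ∑ v, w a s v = 1) ∧
      ∀ ε : V → ℤ, (∀ v, ε v = 1 ∨ ε v = -1) → ∃ x : V → ℤ, (∀ v, x v = 1 ∨ x v = -1) ∧
        ∀ X : Finset V, |∑ v ∈ X, (x v : ℝ)| ≤ (1 / 2 + 1 / 2 ^ (J + 2)) * dd G X +
          |∑ a ∈ Dfc π A y, (ε a : ℝ) * ∑ v ∈ X, w a (ε a) v| := by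
  classical
  have hfav : ∀ a s, ∃ c : ℕ, a ∈ A → (s = 1 ∨ s = -1) → 1 ≤ c ∧ c ≤ 2 * q ∧
      y ((π ^ c) a) = s ∧ Fav μ π J y s ((π ^ (c - 1)) a) ∧ Fav μ π J y s ((π ^ c) a) := by
    intro a s
    by_cases h : a ∈ A ∧ (s = 1 ∨ s = -1)
    · obtain ⟨c, hc⟩ := hy.fav a h.1 s h.2
      exact ⟨c, fun _ _ => hc⟩
    · exact ⟨0, fun h1 h2 => absurd ⟨h1, h2⟩ h⟩
  choose cc hcc using hfav
  choose Φ W e1 e2 e3 e4 e5 e6 e7 e8 using fun v => end_flow hf hg (show 4 * j₀ + 12 ≤ k by omega) v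
  have e3' : ∀ v u u', Φ v u u' ≠ 0 → FwT μ π j₀ v u u' := by
    intro v u u' h
    rcases e3 v u u' h with h1 | ⟨c, b, h1, h2, h4, -⟩ | ⟨c, b, h1, h2, h4, -⟩
    · exact Or.inl h1
    · exact Or.inr (Or.inl ⟨c, b, h1, h2, h4⟩)
    · exact Or.inr (Or.inr ⟨c, b, h1, h2, h4⟩)
  refine ⟨fun a s v => (W ((π ^ (cc a s - 1)) a) v + W ((π ^ (cc a s)) a) v) / 2,
    fun a s v => ?_, fun a s v => ?_, fun a ha s hs => ⟨fun v hv => ?_, ?_⟩, fun ε hε => ?_⟩
  · have h1 := e4 ((π ^ (cc a s - 1)) a) v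
    have h2 := e4 ((π ^ (cc a s)) a) v
    simp only
    linarith
  · have h1 := e5 ((π ^ (cc a s - 1)) a) v
    have h2 := e5 ((π ^ (cc a s)) a) v
    simp only
    linarith
  · have h0 := hcc a s (mem_filter.1 ha).1 hs
    have h1 : ∀ i ≤ 2 * q, W ((π ^ i) a) v ≠ 0 → v ∈ zone G π R q a := by
      intro i hi h
      obtain ⟨c, hc, rfl⟩ := e6 _ v h
      exact fw_mem_zone hi (Bl_mono (by omega) _ (fw_TT_mem hf _ _))
    by_cases h2 : W ((π ^ (cc a s - 1)) a) v = 0
    · refine h1 (cc a s) h0.2.1 fun h => hv ?_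
      simp only
      rw [h2, h]
      norm_num
    · exact h1 (cc a s - 1) (by omega) h2
  · simp only
    rw [← sum_div, sum_add_distrib, e7, e7]
    norm_num
  · -- the labels
    set D := Dfc π A y with hD
    have hDA : ∀ a ∈ D, a ∈ A := fun a ha => (mem_filter.1 ha).1
    set c : V → ℕ := fun a => cc a (ε a) with hcdef
    have hc : ∀ a ∈ D, 1 ≤ c a ∧ c a ≤ 2 * q ∧ y ((π ^ c a) a) = ε a ∧
        Fav μ π J y (ε a) ((π ^ (c a - 1)) a) ∧ Fav μ π J y (ε a) ((π ^ c a) a) :=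
      fun a ha => hcc a (ε a) (hDA a ha) (hε a)
    set x : V → ℤ := fwx π D c y with hxdef
    have hx : ∀ v, x v = 1 ∨ x v = -1 := fun v => fwx_sign hy.sign v
    refine ⟨x, hx, fun X => ?_⟩
    have hgx : ∀ v, x v + x (π v) = 2 * ∑ a ∈ D, if v = (π ^ (c a - 1)) a then ε a else 0 :=
      fun v => fw_g hf hg (by omega) hA hy (fun a ha => ⟨(hc a ha).1, (hc a ha).2.1,
        (hc a ha).2.2.1⟩) v
    -- the flow
    set F : V → V → ℝ := fun u u' => fwB π x u u' +
      ∑ a ∈ D, (ε a : ℝ) * (Φ ((π ^ (c a - 1)) a) u u' + Φ ((π ^ (c a)) a) u u') with hF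
    have hFanti : ∀ u u', F u u' = - F u' u := by
      intro u u'
      simp only [hF]
      rw [fwB_anti, neg_add, ← sum_neg_distrib]
      congr 1
      refine sum_congr rfl fun a _ => ?_
      rw [e1 _ u u', e1 ((π ^ (c a)) a) u u']
      ring
    have huniq : ∀ a ∈ D, ∀ a' ∈ D, ∀ i i' : ℕ, i ≤ 2 * q → i' ≤ 2 * q → ∀ u u',
        Φ ((π ^ i) a) u u' ≠ 0 → Φ ((π ^ i') a') u u' ≠ 0 → a = a' ∧ i = i' := by
      intro a ha a' ha' i i' hi hi' u u' h1 h2
      have h4 : a = a' := by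
        by_contra hne
        have m1 : u ∈ zone G π R q a := fw_mem_zone hi (fw_T_ball hf hR (e3' _ _ _ h1))
        have m2 : u ∈ zone G π R q a' := fw_mem_zone hi' (fw_T_ball hf hR (e3' _ _ _ h2))
        exact disjoint_left.1 (hA.disj a (hDA a ha) a' (hDA a' ha') hne) m1 m2
      subst h4
      exact ⟨rfl, fw_T_uniq hf hg hk hi hi' (e3' _ _ _ h1) (e3' _ _ _ h2)⟩
    -- the bound at a source
    have hone : ∀ a ∈ D, ∀ i : ℕ, i = c a - 1 ∨ i = c a → ∀ u u', Φ ((π ^ i) a) u u' ≠ 0 →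
        |fwB π x u u' + ε a * Φ ((π ^ i) a) u u'| ≤ 1 + 1 / 2 ^ (J + 1) := by
      intro a ha i hi u u' h
      obtain ⟨c1, c2, c3, c4, c5⟩ := hc a ha
      have hi2 : i ≤ 2 * q := by omega
      have hfi : Fav μ π J y (ε a) ((π ^ i) a) := by
        rcases hi with rfl | rfl
        · exact c4
        · exact c5
      have hp : (0 : ℝ) < 1 / 2 ^ (J + 1) := by positivity
      have hTT : ∀ d : List Bool, d.length < J → x (TT μ π ((π ^ i) a) d) = - ε a := fun d hd =>
        fw_TT_fl hf hJ hR hg hk hA (fun b hb => (hc b hb).2.1) ha hi2 hfi hd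
      rcases e3 _ u u' h with ⟨rfl, -⟩ | ⟨d, b, hd, h1, h2, h4⟩ | ⟨d, b, hd, h1, h2, h4⟩
      · rw [fwB_mu hf, zero_add, abs_mul]
        have h1 : |(ε a : ℝ)| = 1 := by
          rcases hε a with h1 | h1 <;> rw [h1] <;> norm_num
        rw [h1, one_mul]
        exact (e2 _ _ _).trans (by linarith)
      · rw [h4, h2, fwB_stp hf]
        refine fw_bound (hε a) (hx _) (hx _) fun hn => ?_
        rw [h1]
        exact hTT d hn
      · rw [h4, fwB_anti, h2, fwB_stp hf]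
        have h5 := fw_bound (J := J) (n := d.length) (hε a) (hx u') (hx (stp π b u')) fun hn => by
          rw [h1]
          exact hTT d hn
        rw [← abs_neg]
        convert h5 using 2
        ring
    have hFb : ∀ u u', |F u u'| ≤ 1 + 1 / 2 ^ (J + 1) := by
      intro u u'
      have hp : (0 : ℝ) < 1 / 2 ^ (J + 1) := by positivity
      by_cases h0 : ∀ a ∈ D, Φ ((π ^ (c a - 1)) a) u u' = 0 ∧ Φ ((π ^ (c a)) a) u u' = 0
      · have h1 : F u u' = fwB π x u u' := by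
          simp only [hF]
          rw [sum_eq_zero fun a ha => ?_, add_zero]
          rw [(h0 a ha).1, (h0 a ha).2]
          ring
        rw [h1]
        exact (fwB_abs hx hf u u').trans (by linarith)
      · push Not at h0
        obtain ⟨a, ha, h0⟩ := h0
        obtain ⟨c1, c2, c3, c4, c5⟩ := hc a ha
        have hoth : ∀ i : ℕ, i ≤ 2 * q → Φ ((π ^ i) a) u u' ≠ 0 → ∀ a' ∈ D, a' ≠ a →
            (ε a' : ℝ) * (Φ ((π ^ (c a' - 1)) a') u u' + Φ ((π ^ (c a')) a') u u') = 0 := by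
          intro i hi h a' ha' hne
          obtain ⟨d1, d2, d3, d4, d5⟩ := hc a' ha'
          have h1 : Φ ((π ^ (c a' - 1)) a') u u' = 0 := by
            by_contra h1
            exact hne (huniq a' ha' a ha _ i (by omega) hi u u' h1 h).1
          have h2 : Φ ((π ^ (c a')) a') u u' = 0 := by
            by_contra h2
            exact hne (huniq a' ha' a ha _ i (by omega) hi u u' h2 h).1
          rw [h1, h2]
          ring
        by_cases h1 : Φ ((π ^ (c a - 1)) a) u u' = 0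
        · have h2 := h0 h1
          have h4 : F u u' = fwB π x u u' + ε a * Φ ((π ^ c a) a) u u' := by
            simp only [hF]
            rw [sum_eq_single_of_mem a ha (hoth _ c2 h2), h1, zero_add]
          rw [h4]
          exact hone a ha _ (Or.inr rfl) u u' h2
        · have h2 : Φ ((π ^ (c a)) a) u u' = 0 := by
            by_contra h2
            have := (huniq a ha a ha _ _ (by omega) c2 u u' h1 h2).2
            omega
          have h4 : F u u' = fwB π x u u' + ε a * Φ ((π ^ (c a - 1)) a) u u' := by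
            simp only [hF]
            rw [sum_eq_single_of_mem a ha (hoth _ (by omega) h1), h2, add_zero]
          rw [h4]
          exact hone a ha _ (Or.inl rfl) u u' h1
    have hF0 : ∀ u u', ¬ G.Adj u u' → F u u' = 0 := by
      intro u u' h
      have h1 : ∀ v, Φ v u u' = 0 := by
        intro v
        by_contra h2
        exact h (fw_T_adj hf (e3' _ _ _ h2))
      simp only [hF]
      rw [fwB_zero hf x h, zero_add]
      refine sum_eq_zero fun a _ => ?_
      rw [h1, h1]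
      ring
    -- the divergence
    have hdiv : ∀ v, ∑ u, F v u = 2 * (x v : ℝ) - 2 * ∑ a ∈ D, (ε a : ℝ) *
        ((W ((π ^ (c a - 1)) a) v + W ((π ^ (c a)) a) v) / 2) := by
      intro v
      have h1 : ((x v : ℝ) + x (π v)) = 2 * ∑ a ∈ D, if v = (π ^ (c a - 1)) a then (ε a : ℝ) else 0 := by
        have := congrArg (Int.cast : ℤ → ℝ) (hgx v)
        push_cast at this
        exact this
      have h2 : ((x (π.symm v) : ℝ) + x v) =
          2 * ∑ a ∈ D, if v = (π ^ (c a)) a then (ε a : ℝ) else 0 := by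
        have h4 := congrArg (Int.cast : ℤ → ℝ) (hgx (π.symm v))
        push_cast at h4
        rw [Equiv.apply_symm_apply] at h4
        rw [h4]
        congr 1
        refine sum_congr rfl fun a ha => if_congr ?_ rfl rfl
        have h5 : (π ^ (c a)) a = π ((π ^ (c a - 1)) a) := by
          have h6 := (hc a ha).1
          rw [← Equiv.Perm.mul_apply, ← pow_succ']
          congr 2
          omega
        rw [h5]
        exact Equiv.symm_apply_eq π
      simp only [hF]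
      rw [sum_add_distrib, fwB_sum, sum_comm]
      have h4 : ∀ a ∈ D, ∑ u, (ε a : ℝ) * (Φ ((π ^ (c a - 1)) a) v u + Φ ((π ^ (c a)) a) v u) =
          (if v = (π ^ (c a - 1)) a then (ε a : ℝ) else 0) +
          (if v = (π ^ (c a)) a then (ε a : ℝ) else 0) -
          2 * ((ε a : ℝ) * ((W ((π ^ (c a - 1)) a) v + W ((π ^ (c a)) a) v) / 2)) := by
        intro a _
        rw [← mul_sum, sum_add_distrib, e8, e8]
        split_ifs <;> ring
      rw [sum_congr rfl h4, sum_sub_distrib, sum_add_distrib, ← mul_sum]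
      linarith
    have hnet := fw_net hFanti (fun u u' _ => hFb u u') hF0 X
    rw [sum_congr rfl fun v _ => hdiv v, sum_sub_distrib, ← mul_sum, ← mul_sum, sum_comm] at hnet
    have h5 : ∑ a ∈ D, ∑ v ∈ X, (ε a : ℝ) * ((W ((π ^ (c a - 1)) a) v + W ((π ^ (c a)) a) v) / 2) =
        ∑ a ∈ D, (ε a : ℝ) * ∑ v ∈ X, ((W ((π ^ (c a - 1)) a) v + W ((π ^ (c a)) a) v) / 2) :=
      sum_congr rfl fun a _ => by rw [mul_sum]
    rw [h5] at hnet
    set T1 : ℝ := ∑ v ∈ X, (x v : ℝ)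
    set T2 : ℝ := ∑ a ∈ D, (ε a : ℝ) * ∑ v ∈ X, ((W ((π ^ (c a - 1)) a) v +
      W ((π ^ (c a)) a) v) / 2) with hT2
    have h6 : (1 : ℝ) / 2 ^ (J + 2) = 1 / 2 ^ (J + 1) / 2 := by
      rw [show J + 2 = J + 1 + 1 from rfl, pow_succ (2 : ℝ) (J + 1), div_div]
    show |T1| ≤ (1 / 2 + 1 / 2 ^ (J + 2)) * dd G X + |T2|
    rw [h6]
    have h7 := abs_le.1 hnet
    have h8 := le_abs_self T2
    have h9 := neg_abs_le T2
    rw [abs_le]
    constructor <;> linarith [h7.1, h7.2]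

end Pool.Agent.K5
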