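import Pool.Agent.Work.MP_974d84_co_k5.FinalW

/-!
# W7: `Pool.Agent.K5.final_w` is in the imported file
-/
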