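import Pool.Agent.Work.MP_974d84_co_k5.FinalIneq

/-!
# W7: the final inequality of line W
-/

set_option linter.unusedSectionVars false
set_option linter.unusedVariables false

namespace Pool.Agent.K5

open Finset SimpleGraph Pool.Agent.Exp Pool.Agent.Log5 Pool.Agent.Log5.Clu

theorem final_w_core {V : Type} [Fintype V] [DecidableEq V] {G : SimpleGraph V} [DecidableRel G.Adj]
    {x : V → ℤ} (hx : ∀ v, x v = 1 ∨ x v = -1) (A : V → V → Prop) [DecidableRel A]
    (hA : ∀ u v, A u v → A v u ∧ G.Adj u v ∧ x u = - x v)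
    {τ : Type} [Fintype τ] [DecidableEq τ] (φ : τ → V → V → ℝ) (ch ν : τ → V → ℝ)
    (hz : ∀ t t' u v, φ t u v ≠ 0 → φ t' u v ≠ 0 → t = t')
    (h1 : ∀ t u v, φ t u v = - φ t v u)
    (h2 : ∀ t u v, φ t u v ≠ 0 → G.Adj u v)
    {δ : ℝ} (hδ : 0 ≤ δ)
    (h3 : ∀ t u v, |(if A u v then (x u : ℝ) else 0) + φ t u v| ≤ 1 + δ)
    (h4 : ∀ t v, ∑ u, φ t v u = ch t v - ν t v)
    (h5 : ∀ v, ((univ.filter fun u => A v u).card : ℝ) * x v + ∑ t, ch t v = 2 * x v)
    (X : Finset V) :
    2 * |∑ v ∈ X, (x v : ℝ)| ≤ (1 + δ) * dd G X + |∑ t, ∑ v ∈ X, ν t v| := by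
  classical
  have hx1 : ∀ v, |(x v : ℝ)| = 1 := by
    intro v
    rcases hx v with h | h <;> rw [h] <;> simp
  set Θ : V → V → ℝ := fun u v => ∑ t, φ t u v with hΘ
  set Ψ : V → V → ℝ := fun u v => (if A u v then (x u : ℝ) else 0) + Θ u v with hΨ
  -- at most one local flow passes an edge
  have hΘ1 : ∀ u v, Θ u v = 0 ∨ ∃ t, Θ u v = φ t u v := by
    intro u v
    by_cases hex : ∃ t, φ t u v ≠ 0
    · obtain ⟨t, hne⟩ := hex
      right
      refine ⟨t, sum_eq_single t (fun t' _ htt' => ?_) fun h => absurd (mem_univ t) h⟩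
      by_contra hcon
      exact htt' (hz t' t u v hcon hne)
    · left
      push Not at hex
      exact sum_eq_zero fun t _ => hex t
  have hanti : ∀ u v, Ψ u v = - Ψ v u := by
    intro u v
    have e1 : Θ u v = - Θ v u := by
      simp only [hΘ]
      rw [← sum_neg_distrib]
      exact sum_congr rfl fun t _ => h1 t u v
    have e2 : (if A u v then (x u : ℝ) else 0) = -(if A v u then (x v : ℝ) else 0) := by
      by_cases h : A u v
      · rw [if_pos h, if_pos (hA u v h).1, (hA u v h).2.2]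
        push_cast
        ring
      · rw [if_neg h, if_neg fun h' => h (hA v u h').1, neg_zero]
    simp only [hΨ]
    rw [e1, e2]
    ring
  have hbd : ∀ u v, |Ψ u v| ≤ if G.Adj u v then (1 + δ : ℝ) else 0 := by
    intro u v
    by_cases hG : G.Adj u v
    · rw [if_pos hG]
      rcases hΘ1 u v with h | ⟨t, h⟩
      · simp only [hΨ]
        rw [h, add_zero]
        split_ifs
        · rw [hx1]
          linarith
        · rw [abs_zero]
          linarith
      · simp only [hΨ]
        rw [h]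
        exact h3 t u v
    · rw [if_neg hG]
      have hna : ¬ A u v := fun h => hG (hA u v h).2.1
      have e1 : Θ u v = 0 := by
        rcases hΘ1 u v with h | ⟨t, h⟩
        · exact h
        · rw [h]
          by_contra hne
          exact hG (h2 t u v hne)
      simp only [hΨ]
      rw [if_neg hna, e1, add_zero, abs_zero]
  have hdiv : ∀ u, ∑ v, Ψ u v = 2 * (x u : ℝ) - ∑ t, ν t u := by
    intro u
    have e1 : ∑ v, (if A u v then (x u : ℝ) else 0)
        = ((univ.filter fun v => A u v).card : ℝ) * x u := by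
      rw [← sum_filter, sum_const, nsmul_eq_mul]
    have e2 : ∑ v, Θ u v = ∑ t, ch t u - ∑ t, ν t u := by
      simp only [hΘ]
      rw [sum_comm, ← sum_sub_distrib]
      exact sum_congr rfl fun t _ => h4 t u
    have e3 := h5 u
    simp only [hΨ]
    rw [sum_add_distrib, e1, e2]
    linarith
  have hmain := abs_netflow_le G hanti hbd X
  have hsum : 2 * ∑ v ∈ X, (x v : ℝ) = ∑ u ∈ X, ∑ v, Ψ u v + ∑ t, ∑ v ∈ X, ν t v := by
    rw [sum_congr rfl fun u _ => hdiv u, sum_sub_distrib, ← mul_sum, sum_comm (s := univ)]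
    ring
  calc 2 * |∑ v ∈ X, (x v : ℝ)| = |2 * ∑ v ∈ X, (x v : ℝ)| := by
        rw [abs_mul]
        norm_num
    _ ≤ _ := by
        rw [hsum]
        exact (abs_add_le _ _).trans (by linarith)

end Pool.Agent.K5
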