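import Mathlib
import Pool.Agent.Work.MP_974d84_co_k5.GPathDef
import Pool.Agent.Work.MP_974d84_co_log.Tree

/-!
# Gadget paths exist (M10a)
-/

set_option linter.unusedSectionVars false

namespace Pool.Agent.K5

open Finset SimpleGraph Pool.Agent.Exp Pool.Agent.Log5 Pool.Agent.Log5.Clu

/-- A non-backtracking sequence in a forest is a shortest walk. -/
theorem nonback_len {W : Type} {H : SimpleGraph W} (hH : H.IsAcyclic) (x : ℕ → W) (n : ℕ)
    (hadj : ∀ i < n, H.Adj (x i) (x (i + 1))) (hnb : ∀ i, i + 1 < n → x i ≠ x (i + 2))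
    (q : H.Walk (x 0) (x n)) : n ≤ q.length := by
  classical
  have key : ∀ m ≤ n, ∃ p : H.Walk (x 0) (x m),
      p.edges = (List.range m).map fun i => s(x i, x (i + 1)) := by
    intro m hm
    induction m with
    | zero => exact ⟨Walk.nil, by simp⟩
    | succ m ih =>
      obtain ⟨p, hp⟩ := ih (by omega)
      refine ⟨p.concat (hadj m (by omega)), ?_⟩
      rw [Walk.edges_concat, hp, List.range_succ, List.map_append]
      simp
  obtain ⟨p, hp⟩ := key n le_rfl
  have hpath : p.IsPath := by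
    rw [hH.isPath_iff_isChain, hp, List.isChain_iff_getElem]
    intro i hi
    simp only [List.length_map, List.length_range] at hi
    simp only [List.getElem_map, List.getElem_range]
    intro h
    rw [Sym2.eq_iff] at h
    rcases h with ⟨h1, h2⟩ | ⟨h1, -⟩
    · exact (hadj i (by omega)).ne h1
    · exact hnb i (by omega) h1
  have hlen : p.length = n := by
    rw [← Walk.length_edges, hp]; simp
  have h1 : (⟨p, hpath⟩ : H.Path (x 0) (x n)) = ⟨q.bypass, q.bypass_isPath⟩ :=
    (hH.subsingleton_path _ _).elim _ _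
  have h2 : p = q.bypass := congrArg Subtype.val h1
  have h3 := q.length_bypass_le_length
  rw [← h2, hlen] at h3
  exact h3

variable {V : Type} [Fintype V] [DecidableEq V] {G : SimpleGraph V} [DecidableRel G.Adj]

theorem exists_walk_of_Bl {n : ℕ} {v w : V} (h : w ∈ Bl G.Adj n v) :
    ∃ q : G.Walk v w, q.length ≤ n := by
  induction n generalizing w with
  | zero => rw [mem_Bl_zero] at h; subst h; exact ⟨Walk.nil, le_rfl⟩
  | succ n ih =>
    rw [mem_Bl_succ] at h
    rcases h with h | ⟨u, hu, huw⟩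
    · obtain ⟨q, hq⟩ := ih h; exact ⟨q, by omega⟩
    · obtain ⟨q, hq⟩ := ih hu; exact ⟨q.concat huw, by rw [Walk.length_concat]; omega⟩

/-- The ends of a non-backtracking sequence are far apart. -/
theorem nonback_far {k : ℕ} (hg : Gir G k) (x : ℕ → V) (n m : ℕ) (hnk : n + m + 2 < k)
    (hadj : ∀ i < n, G.Adj (x i) (x (i + 1))) (hnb : ∀ i, i + 1 < n → x i ≠ x (i + 2))
    (h : x n ∈ Bl G.Adj m (x 0)) : n ≤ m := by
  obtain ⟨q, hq⟩ := exists_walk_of_Bl h
  set A : Finset V := (range (n + 1)).image x ∪ q.support.toFinset with hA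
  have hcard : A.card < k := by
    have h1 : A.card ≤ (n + 1) + (q.length + 1) := by
      refine (card_union_le _ _).trans (Nat.add_le_add ?_ ?_)
      · exact card_image_le.trans (by rw [card_range])
      · exact (List.toFinset_card_le _).trans (by rw [Walk.length_support])
    omega
  have hac := hg A hcard
  have hx : ∀ i ≤ n, x i ∈ (A : Set V) := fun i hi => by
    rw [mem_coe, hA, mem_union, mem_image]
    exact Or.inl ⟨i, by rw [mem_range]; omega, rfl⟩
  have hqA : ∀ v ∈ q.support, v ∈ (A : Set V) := fun v hv => by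
    rw [mem_coe, hA, mem_union]
    exact Or.inr (List.mem_toFinset.2 hv)
  let y : ℕ → (A : Set V) := fun i => if h : i ≤ n then ⟨x i, hx i h⟩ else ⟨x 0, hx 0 (by omega)⟩
  have hy : ∀ i ≤ n, (y i : V) = x i := fun i hi => by simp only [y, dif_pos hi]
  let q' := q.induce (A : Set V) hqA
  have hlen : q'.length = q.length := by
    have := congrArg Walk.length (Walk.map_induce q hqA)
    rwa [Walk.length_map] at this
  have e0 : (⟨x 0, hqA _ q.start_mem_support⟩ : (A : Set V)) = y 0 :=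
    Subtype.ext (hy 0 (by omega)).symm
  have e1 : (⟨x n, hqA _ q.end_mem_support⟩ : (A : Set V)) = y n :=
    Subtype.ext (hy n le_rfl).symm
  have h := nonback_len hac y n
    (fun i hi => by
      rw [SimpleGraph.comap_adj]
      show G.Adj (y i : V) (y (i + 1) : V)
      rw [hy i (by omega), hy (i + 1) (by omega)]
      exact hadj i hi)
    (fun i hi h => by
      have : (y i : V) = (y (i + 2) : V) := congrArg (fun z : (A : Set V) => (z : V)) h
      rw [hy i (by omega), hy (i + 2) (by omega)] at this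
      exact hnb i hi this) (q'.copy e0 e1)
  rw [Walk.length_copy, hlen] at h
  omega

theorem exists_third (h3 : ∀ v, G.degree v = 3) (y z v : V) :
    ∃ w, G.Adj v w ∧ w ≠ y ∧ w ≠ z := by
  have h : 0 < (((G.neighborFinset v).erase y).erase z).card := by
    have h1 := pred_card_le_card_erase (s := G.neighborFinset v) (a := y)
    have h2 := pred_card_le_card_erase (s := (G.neighborFinset v).erase y) (a := z)
    rw [card_neighborFinset_eq_degree, h3] at h1
    omega
  rw [card_pos] at h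
  obtain ⟨w, hw⟩ := h
  rw [mem_erase, mem_erase, mem_neighborFinset] at hw
  exact ⟨w, hw.2.2, hw.2.1, hw.1⟩

/-- The kinds of the steps: `0` for `ν`, `1` for `μ`, `2` for the third edge. -/
def kind (μ ν : V → V) (t : ℕ) (u v : V) : Prop :=
  (t = 0 → v = ν u) ∧ (t = 1 → v = μ u) ∧ (t = 2 → v ≠ μ u ∧ v ≠ ν u)

theorem kind_symm {μ ν : V → V} (hμ : ∀ v, μ (μ v) = v) (hν : ∀ v, ν (ν v) = v) {t : ℕ} {u v : V}
    (h : kind μ ν t u v) : kind μ ν t v u := by
  refine ⟨fun ht => ?_, fun ht => ?_, fun ht => ⟨fun h1 => ?_, fun h1 => ?_⟩⟩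
  · rw [h.1 ht, hν]
  · rw [h.2.1 ht, hμ]
  · apply (h.2.2 ht).1; rw [h1, hμ]
  · apply (h.2.2 ht).2; rw [h1, hν]

theorem kind_ne {μ ν : V → V} (hμ : ∀ v, μ (μ v) = v) (hν : ∀ v, ν (ν v) = v)
    (hne : ∀ v, μ v ≠ ν v) {t t' : ℕ} (ht : t < 3) (ht' : t' < 3) (htt : t ≠ t') {u v w : V}
    (h : kind μ ν t u v) (h' : kind μ ν t' v w) : u ≠ w := by
  rintro rfl
  have h1 := kind_symm hμ hν h
  have hs : (t = 0 ∨ t = 1 ∨ t = 2) ∧ (t' = 0 ∨ t' = 1 ∨ t' = 2) := by omega
  rcases hs with ⟨rfl | rfl | rfl, rfl | rfl | rfl⟩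
  · exact htt rfl
  · exact hne v ((h'.2.1 rfl).symm.trans (h1.1 rfl))
  · exact (h'.2.2 rfl).2 (h1.1 rfl)
  · exact hne v ((h1.2.1 rfl).symm.trans (h'.1 rfl))
  · exact htt rfl
  · exact (h'.2.2 rfl).1 (h1.2.1 rfl)
  · exact (h1.2.2 rfl).2 (h'.1 rfl)
  · exact (h1.2.2 rfl).1 (h'.2.1 rfl)
  · exact htt rfl

/-- The kind of the step `i`. -/
def kd (a i : ℕ) : ℕ :=
  if Even i then (if 4 * a + 3 ≤ i ∧ i < 6 * a + 4 then 2 else 0)
  else (if 2 * a + 1 ≤ i ∧ i < 8 * a + 6 then 1 else 2)

theorem kd_lt (a i : ℕ) : kd a i < 3 := by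
  unfold kd; split_ifs <;> omega

theorem kd_ne (a i : ℕ) : kd a i ≠ kd a (i + 1) := by
  unfold kd
  rcases Nat.even_or_odd i with h | h
  · have h' : ¬ Even (i + 1) := by rw [Nat.even_add_one]; exact fun h2 => h2 h
    rw [if_pos h, if_neg h']
    split_ifs <;> omega
  · have h1 : ¬ Even i := Nat.not_even_iff_odd.2 h
    have h' : Even (i + 1) := by rw [Nat.even_add_one]; exact h1
    rw [if_neg h1, if_pos h']
    split_ifs <;> omega

/-- M10a -/
theorem exists_gpath (h3 : ∀ v, G.degree v = 3) {k a : ℕ} (hg : Gir G k)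
    (hk : 24 * a + 40 ≤ k) (μ ν : V → V) (hμ : ∀ v, μ (μ v) = v) (hν : ∀ v, ν (ν v) = v)
    (hμa : ∀ v, G.Adj v (μ v)) (hνa : ∀ v, ν v ≠ v → G.Adj v (ν v)) (hne : ∀ v, μ v ≠ ν v)
    (v₀ : V) (hv₀ : ∀ v ∈ Bl G.Adj (10 * a + 8) v₀, ν v ≠ v) :
    ∃ P : ℕ → V, GPath G μ ν a P ∧ (∀ i ≤ 10 * a + 7, P i ∈ Bl G.Adj i v₀) ∧
      (∀ i j, i ≤ 10 * a + 7 → j ≤ 10 * a + 7 → P i = P j → i = j) ∧
      ∀ i j, j ≤ 10 * a + 7 → i + (2 * a + 1) ≤ j →
        Disjoint (Bl G.Adj a (P i)) (Bl G.Adj a (P j)) := by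
  choose τ hτ using fun v => exists_third h3 (μ v) (ν v) v
  let stp : ℕ → V → V := fun t v => if t = 0 then ν v else if t = 1 then μ v else τ v
  have hstp : ∀ t v, t < 3 → kind μ ν t v (stp t v) := by
    intro t v ht
    refine ⟨fun h => ?_, fun h => ?_, fun h => ?_⟩
    · subst h; rfl
    · subst h; rfl
    · subst h; exact (hτ v).2
  have hadj0 : ∀ t v, t < 3 → ν v ≠ v → G.Adj v (stp t v) := by
    intro t v ht hv
    have : t = 0 ∨ t = 1 ∨ t = 2 := by omega
    rcases this with rfl | rfl | rfl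
    · exact hνa v hv
    · exact hμa v
    · exact (hτ v).1
  let P : ℕ → V := fun i => Nat.rec v₀ (fun i v => stp (kd a i) v) i
  have hP0 : P 0 = v₀ := rfl
  have hPs : ∀ i, P (i + 1) = stp (kd a i) (P i) := fun i => rfl
  have hball : ∀ i ≤ 10 * a + 8, P i ∈ Bl G.Adj i v₀ := by
    intro i
    induction i with
    | zero => intro _; rw [hP0]; exact Bl_self _ _
    | succ i ih =>
      intro hi
      have h1 := ih (by omega)
      rw [mem_Bl_succ]
      right
      refine ⟨P i, h1, ?_⟩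
      rw [hPs]
      exact hadj0 _ _ (kd_lt a i) (hv₀ _ (Bl_mono (by omega) v₀ h1))
  have hfix : ∀ i ≤ 10 * a + 8, ν (P i) ≠ P i := fun i hi =>
    hv₀ _ (Bl_mono hi v₀ (hball i hi))
  have hadj : ∀ i ≤ 10 * a + 8, G.Adj (P i) (P (i + 1)) := fun i hi => by
    rw [hPs]; exact hadj0 _ _ (kd_lt a i) (hfix i hi)
  have hkd : ∀ i, kind μ ν (kd a i) (P i) (P (i + 1)) := fun i => by
    rw [hPs]; exact hstp _ _ (kd_lt a i)
  have hnb : ∀ i, P i ≠ P (i + 2) := fun i =>
    kind_ne hμ hν hne (kd_lt a i) (kd_lt a (i + 1)) (kd_ne a i) (hkd i) (hkd (i + 1))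
  refine ⟨P, ⟨fun i hi => hfix i (by omega), ?_, ?_, ?_⟩, fun i hi => hball i (by omega), ?_, ?_⟩
  · intro i _ he hm
    refine (hkd i).1 ?_
    unfold kd
    rw [if_pos he, if_neg hm]
  · intro i _ ho h1 h2
    refine (hkd i).2.1 ?_
    unfold kd
    rw [if_neg (Nat.not_even_iff_odd.2 ho), if_pos ⟨h1, h2⟩]
  · intro i hi h
    refine ⟨hadj i (by omega), (hkd i).2.2 ?_⟩
    unfold kd
    rcases h with ⟨he, hm⟩ | ⟨ho, hm⟩
    · rw [if_pos he, if_pos hm]
    · rw [if_neg (Nat.not_even_iff_odd.2 ho), if_neg (by omega)]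
  · have key : ∀ i j, i < j → j ≤ 10 * a + 7 → P i ≠ P j := by
      intro i j hij hj
      have h := nonback_ne_of_gir hg (fun t => P (i + t)) (j - i) (by omega)
        (fun t ht => by
          have := hadj (i + t) (by omega)
          rwa [show i + t + 1 = i + (t + 1) by omega] at this)
        (fun t ht => by
          have := hnb (i + t)
          rwa [show i + t + 2 = i + (t + 2) by omega] at this) (by omega)
      simp only [Nat.add_zero] at h
      rwa [show i + (j - i) = j by omega] at h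
    intro i j hi hj hij
    rcases Nat.lt_trichotomy i j with h | h | h
    · exact absurd hij (key i j h hj)
    · exact h
    · exact absurd hij.symm (key j i h hi)
  · intro i j hj hij
    rw [Finset.disjoint_left]
    intro w hw hw'
    have h1 : P j ∈ Bl G.Adj (a + a) (P i) :=
      Bl_comp hw (Bl_symm (fun u v h => h.symm) hw')
    have h2 := nonback_far hg (fun t => P (i + t)) (j - i) (a + a) (by omega)
      (fun t ht => by
        have := hadj (i + t) (by omega)
        rwa [show i + t + 1 = i + (t + 1) by omega] at this)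
      (fun t ht => by
        have := hnb (i + t)
        rwa [show i + t + 2 = i + (t + 2) by omega] at this)
      (by
        simp only [Nat.add_zero]
        rwa [show i + (j - i) = j by omega])
    omega

end Pool.Agent.K5
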