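import Mathlib
import Pool.Agent.Work.MP_974d84_co_k5.Words

/-!
# Route W: the two reserved defects of a gadget
-/

set_option linter.unusedSectionVars false

namespace Pool.Agent.K5

open Finset SimpleGraph Pool.Agent.Exp Pool.Agent.Log5 Pool.Agent.Log5.Clu

section
variable {V : Type} [Fintype V] [DecidableEq V] {G : SimpleGraph V} [DecidableRel G.Adj]
  {μ : V → V} {π : Equiv.Perm V}

/-- The zone of a window which starts near a vertex lies in a ball around this vertex. -/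
theorem zone_sub_Bl (hf : Frame G μ π) {R₀ q m R : ℕ} (v : V) (hR : m + R₀ + 2 * q ≤ R) :
    zone G π R₀ q ((π ^ m) v) ⊆ Bl G.Adj R v := by
  intro x hx
  unfold zone at hx
  obtain ⟨j, hj, hx⟩ := mem_biUnion.1 hx
  have hj' := mem_range.1 hj
  have h1 : (π ^ (j + m)) v ∈ Bl G.Adj (j + m) v := pow_mem_Bl hf (j + m) v
  rw [pow_add] at h1
  exact Bl_mono (by omega) v (Bl_comp h1 hx)

theorem self_mem_zone {R₀ q : ℕ} (a : V) : a ∈ zone G π R₀ q a := by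
  unfold zone
  exact mem_biUnion.2 ⟨0, mem_range.2 (by omega), by
    rw [pow_zero]
    exact Bl_self R₀ a⟩

/-- Two reserved defects for every gadget. -/
theorem exists_reserved (hf : Frame G μ π) {k J q M R R₀ : ℕ} (hg : Gir G k) (hk : M + 1 < k)
    {A : Finset V} {y : V → ℤ} (hy : Pattern μ π J q M A y) {Γ : Type} (β : Γ → V)
    (hR : M + R₀ + 2 * q ≤ R)
    (hdisj : ∀ g g', g ≠ g' → Disjoint (Bl G.Adj R (β g)) (Bl G.Adj R (β g'))) :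
    ∃ a₁ a₂ : Γ → V, (∀ g, a₁ g ∈ Dfc π A y ∧ a₂ g ∈ Dfc π A y) ∧
      (∀ g, zone G π R₀ q (a₁ g) ⊆ Bl G.Adj R (β g) ∧ zone G π R₀ q (a₂ g) ⊆ Bl G.Adj R (β g)) ∧
      Function.Injective a₁ ∧ Function.Injective a₂ ∧ ∀ g g', a₁ g ≠ a₂ g' := by
  choose m n hmn hnM h1 h2 using fun g => hy.near (β g)
  have z1 : ∀ g, zone G π R₀ q ((π ^ m g) (β g)) ⊆ Bl G.Adj R (β g) := fun g =>
    zone_sub_Bl hf (β g) (by have := hmn g; have := hnM g; omega)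
  have z2 : ∀ g, zone G π R₀ q ((π ^ n g) (β g)) ⊆ Bl G.Adj R (β g) := fun g =>
    zone_sub_Bl hf (β g) (by have := hnM g; omega)
  have b1 : ∀ g, (π ^ m g) (β g) ∈ Bl G.Adj R (β g) := fun g => z1 g (self_mem_zone _)
  have b2 : ∀ g, (π ^ n g) (β g) ∈ Bl G.Adj R (β g) := fun g => z2 g (self_mem_zone _)
  refine ⟨fun g => (π ^ m g) (β g), fun g => (π ^ n g) (β g), fun g => ⟨h1 g, h2 g⟩,
    fun g => ⟨z1 g, z2 g⟩, ?_, ?_, ?_⟩
  · intro g g' he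
    by_contra hne
    have he' : (π ^ m g) (β g) = (π ^ m g') (β g') := he
    exact disjoint_left.1 (hdisj g g' hne) (b1 g) (he' ▸ b1 g')
  · intro g g' he
    by_contra hne
    have he' : (π ^ n g) (β g) = (π ^ n g') (β g') := he
    exact disjoint_left.1 (hdisj g g' hne) (b2 g) (he' ▸ b2 g')
  · intro g g' he
    have he' : (π ^ m g) (β g) = (π ^ n g') (β g') := he
    by_cases hgg : g = g'
    · subst hgg
      have h3 := hmn g
      have h4 := hnM g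
      have h5 : n g = (n g - m g) + m g := by omega
      rw [h5, pow_add] at he'
      exact pow_ne hf hg (n := n g - m g) (by omega) (by omega) ((π ^ m g) (β g)) he'.symm
    · exact disjoint_left.1 (hdisj g g' hgg) (b1 g) (he' ▸ b2 g')

/-- The charge of a gadget. -/
noncomputable def gchW (w : V → ℤ → V → ℝ) (a₁ a₂ : V) (s₁ s₂ : ℤ) (v : V) : ℝ :=
  (s₁ : ℝ) * w a₁ s₁ v + (s₂ : ℝ) * w a₂ s₂ v

/-- The properties of the charge of a gadget. -/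
theorem gchW_props {q B R₀ j₀ : ℕ} {A : Finset V} {y : V → ℤ} (hA : Win G π R₀ q B A)
    {w : V → ℤ → V → ℝ} (hw0 : ∀ a s v, 0 ≤ w a s v) (hw1 : ∀ a s v, w a s v ≤ 1 / 2 ^ j₀)
    (hw : ∀ a ∈ Dfc π A y, ∀ s, (s = 1 ∨ s = -1) →
      (∀ v, w a s v ≠ 0 → v ∈ zone G π R₀ q a) ∧ ∑ v, w a s v = 1)
    {U : Finset V} {a₁ a₂ : V} (h1 : a₁ ∈ Dfc π A y) (h2 : a₂ ∈ Dfc π A y) (h12 : a₁ ≠ a₂)
    (hU1 : zone G π R₀ q a₁ ⊆ U) (hU2 : zone G π R₀ q a₂ ⊆ U)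
    {s₁ s₂ : ℤ} (hs₁ : s₁ = 1 ∨ s₁ = -1) (hs₂ : s₂ = 1 ∨ s₂ = -1) :
    (∀ v, gchW w a₁ a₂ s₁ s₂ v ≠ 0 → v ∈ U) ∧
    (∀ v, |gchW w a₁ a₂ s₁ s₂ v| ≤ 1 / 2 ^ j₀) ∧
    (∑ v, |gchW w a₁ a₂ s₁ s₂ v| ≤ 2) ∧
    (∑ v, gchW w a₁ a₂ s₁ s₂ v = (s₁ : ℝ) + s₂) := by
  obtain ⟨e1, e2⟩ := hw a₁ h1 s₁ hs₁
  obtain ⟨e3, e4⟩ := hw a₂ h2 s₂ hs₂
  have habs : ∀ s : ℤ, (s = 1 ∨ s = -1) → |(s : ℝ)| = 1 := by
    rintro s (rfl | rfl) <;> simp
  have hd := hA.disj a₁ (mem_filter.1 h1).1 a₂ (mem_filter.1 h2).1 h12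
  refine ⟨?_, ?_, ?_, ?_⟩
  · intro v hv
    by_contra hvU
    apply hv
    have f1 : w a₁ s₁ v = 0 := by
      by_contra h
      exact hvU (hU1 (e1 v h))
    have f2 : w a₂ s₂ v = 0 := by
      by_contra h
      exact hvU (hU2 (e3 v h))
    unfold gchW
    rw [f1, f2]
    ring
  · intro v
    unfold gchW
    by_cases h : w a₁ s₁ v = 0
    · rw [h, mul_zero, zero_add, abs_mul, habs s₂ hs₂, one_mul, abs_of_nonneg (hw0 _ _ _)]
      exact hw1 _ _ _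
    · have f2 : w a₂ s₂ v = 0 := by
        by_contra h'
        exact disjoint_left.1 hd (e1 v h) (e3 v h')
      rw [f2, mul_zero, add_zero, abs_mul, habs s₁ hs₁, one_mul, abs_of_nonneg (hw0 _ _ _)]
      exact hw1 _ _ _
  · have h3 : ∀ v, |gchW w a₁ a₂ s₁ s₂ v| ≤ w a₁ s₁ v + w a₂ s₂ v := by
      intro v
      unfold gchW
      refine (abs_add_le _ _).trans ?_
      rw [abs_mul, abs_mul, habs s₁ hs₁, habs s₂ hs₂, one_mul, one_mul,
        abs_of_nonneg (hw0 _ _ _), abs_of_nonneg (hw0 _ _ _)]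
    refine (sum_le_sum fun v _ => h3 v).trans ?_
    rw [sum_add_distrib, e2, e4]
    norm_num
  · unfold gchW
    rw [sum_add_distrib, ← mul_sum, ← mul_sum, e2, e4]
    ring

end

end Pool.Agent.K5
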