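import Mathlib
import Pool.Agent.Work.MP_974d84_co_k5.QBound
import Pool.Agent.Work.MP_974d84_co_k5.MainA

/-!
# Route W, assembly: the charges of the gadgets
-/

set_option linter.unusedSectionVars false

namespace Pool.Agent.K5

open Finset SimpleGraph Pool.Agent.Exp Pool.Agent.Log5 Pool.Agent.Log5.Clu

/-- Two measures with signs on disjoint sets. -/
theorem two_measures {V : Type} [Fintype V] [DecidableEq V] {U₁ U₂ : Finset V}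
    (hU : Disjoint U₁ U₂) {w₁ w₂ : V → ℝ} {δ : ℝ} (h1 : ∀ v, 0 ≤ w₁ v) (h2 : ∀ v, 0 ≤ w₂ v)
    (h3 : ∀ v, w₁ v ≤ δ) (h4 : ∀ v, w₂ v ≤ δ) (h5 : ∀ v, w₁ v ≠ 0 → v ∈ U₁)
    (h6 : ∀ v, w₂ v ≠ 0 → v ∈ U₂) (h7 : ∑ v, w₁ v = 1) (h8 : ∑ v, w₂ v = 1) {s₁ s₂ : ℤ}
    (hs₁ : s₁ = 1 ∨ s₁ = -1) (hs₂ : s₂ = 1 ∨ s₂ = -1) :
    (∀ v, |2 * ((s₁ : ℝ) * w₁ v + s₂ * w₂ v)| ≤ 2 * δ) ∧
      ∑ v, |2 * ((s₁ : ℝ) * w₁ v + s₂ * w₂ v)| ≤ 4 ∧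
      ∑ v, 2 * ((s₁ : ℝ) * w₁ v + s₂ * w₂ v) = 2 * s₁ + 2 * s₂ := by
  have a1 : |(s₁ : ℝ)| = 1 := by rcases hs₁ with h | h <;> simp [h]
  have a2 : |(s₂ : ℝ)| = 1 := by rcases hs₂ with h | h <;> simp [h]
  have hb : ∀ v, |2 * ((s₁ : ℝ) * w₁ v + s₂ * w₂ v)| ≤ 2 * (w₁ v + w₂ v) := by
    intro v
    rw [abs_mul, abs_two]
    have e := abs_add_le ((s₁ : ℝ) * w₁ v) (s₂ * w₂ v)
    rw [abs_mul, abs_mul, a1, a2, one_mul, one_mul, abs_of_nonneg (h1 v), abs_of_nonneg (h2 v)] at e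
    linarith
  refine ⟨fun v => (hb v).trans ?_, ?_, ?_⟩
  · have hor : w₁ v = 0 ∨ w₂ v = 0 := by
      by_contra hcon
      rw [not_or] at hcon
      exact Finset.disjoint_left.1 hU (h5 v hcon.1) (h6 v hcon.2)
    have e3 := h3 v
    have e4 := h4 v
    rcases hor with h | h <;> rw [h] <;> linarith
  · calc ∑ v, |2 * ((s₁ : ℝ) * w₁ v + s₂ * w₂ v)| ≤ ∑ v, 2 * (w₁ v + w₂ v) :=
          sum_le_sum fun v _ => hb v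
      _ = 4 := by rw [← mul_sum, sum_add_distrib, h7, h8]; norm_num
  · rw [← mul_sum, sum_add_distrib, ← mul_sum, ← mul_sum, h7, h8]
    ring

/-- The charges of the gadgets of all cores. -/
theorem gadget_block {V : Type} [Fintype V] [DecidableEq V] {G : SimpleGraph V}
    [DecidableRel G.Adj] (h3 : ∀ v, G.degree v = 3) {C : ℝ} {N k r : ℕ} {S : Fin r → Finset V}
    (hS : Cores G C S) (hF : Facts G C N k S) (hc : CycConn G k) {j₀ n : ℕ} (hj : 1 ≤ j₀) {θ : ℝ}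
    (hθ : 0 ≤ θ) (M : Fin r → ℕ) (β : (i : Fin r) → Fin (M i) → V)
    (hβS : ∀ i g, Bl G.Adj n (β i g) ⊆ S i)
    (hβd : ∀ i g g', g ≠ g' → Disjoint (Bl G.Adj n (β i g)) (Bl G.Adj n (β i g')))
    {k₁ : ℕ} (hk₁ : k₁ ≤ k) (hβ : ∀ i Z, Z ⊆ S i → Joined G Z → k₁ ≤ dd G Z →
        ((univ.filter fun g => ¬ Disjoint (Bl G.Adj n (β i g)) Z).card : ℝ) ≤ θ * dd G Z)
    (a₁ a₂ : (Σ i, Fin (M i)) → V) (U : V → Finset V)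
    (hU₁ : ∀ g, U (a₁ g) ⊆ Bl G.Adj n (β g.1 g.2)) (hU₂ : ∀ g, U (a₂ g) ⊆ Bl G.Adj n (β g.1 g.2))
    (hUd : ∀ g, Disjoint (U (a₁ g)) (U (a₂ g))) (w : V → ℤ → V → ℝ) (hw0 : ∀ a s v, 0 ≤ w a s v)
    (hw1 : ∀ a s v, w a s v ≤ 1 / 2 ^ j₀)
    (hw₁ : ∀ g, ∀ s, (s = 1 ∨ s = -1) → (∀ v, w (a₁ g) s v ≠ 0 → v ∈ U (a₁ g)) ∧
      ∑ v, w (a₁ g) s v = 1)
    (hw₂ : ∀ g, ∀ s, (s = 1 ∨ s = -1) → (∀ v, w (a₂ g) s v ≠ 0 → v ∈ U (a₂ g)) ∧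
      ∑ v, w (a₂ g) s v = 1)
    (z : Fin r → ℤ) (hz : ∀ i, (z i).natAbs ≤ M i) :
    ∃ s₁ s₂ : (Σ i, Fin (M i)) → ℤ, (∀ g, s₁ g = 1 ∨ s₁ g = -1) ∧ (∀ g, s₂ g = 1 ∨ s₂ g = -1) ∧
      ∑ g, (s₁ g + s₂ g) = 2 * ∑ i, z i ∧
      ∃ q : Fin r → V → ℝ, (∀ i v, q i v ≠ 0 → v ∈ S i) ∧ (∀ i, ∑ v, q i v = 4 * z i) ∧
      (∀ i, ∀ A ⊆ S i, 2 * A.card ≤ (S i).card →
        |∑ v ∈ A, q i v| ≤ (2 / 2 ^ j₀ + 4 * θ) * dd G A) ∧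
      ∀ X : Finset V, ∑ v ∈ X, ∑ i, q i v = 2 * ∑ g, ((s₁ g : ℝ) * ∑ v ∈ X, w (a₁ g) (s₁ g) v +
        (s₂ g : ℝ) * ∑ v ∈ X, w (a₂ g) (s₂ g) v) := by
  classical
  set s₁ : (Σ i, Fin (M i)) → ℤ := fun g =>
    if (g.2 : ℕ) < (z g.1).natAbs then (z g.1).sign else 1 with hs₁
  set s₂ : (Σ i, Fin (M i)) → ℤ := fun g =>
    if (g.2 : ℕ) < (z g.1).natAbs then (z g.1).sign else -1 with hs₂
  have p₁ : ∀ g, s₁ g = 1 ∨ s₁ g = -1 := by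
    intro g
    rw [hs₁]
    dsimp only
    split_ifs with h
    · exact sign_pm h
    · exact Or.inl rfl
  have p₂ : ∀ g, s₂ g = 1 ∨ s₂ g = -1 := by
    intro g
    rw [hs₂]
    dsimp only
    split_ifs with h
    · exact sign_pm h
    · exact Or.inr rfl
  have hsum : ∀ i, ∑ g : Fin (M i), (2 * ((s₁ ⟨i, g⟩ : ℤ) : ℝ) + 2 * ((s₂ ⟨i, g⟩ : ℤ) : ℝ)) =
      4 * z i := fun i => sum_signs (hz i)
  set τ : (Σ i, Fin (M i)) → V → ℝ := fun g v =>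
    2 * ((s₁ g : ℝ) * w (a₁ g) (s₁ g) v + s₂ g * w (a₂ g) (s₂ g) v) with hτ
  have hm := fun g => two_measures (hUd g) (hw0 (a₁ g) (s₁ g)) (hw0 (a₂ g) (s₂ g))
    (hw1 (a₁ g) (s₁ g)) (hw1 (a₂ g) (s₂ g)) (hw₁ g (s₁ g) (p₁ g)).1 (hw₂ g (s₂ g) (p₂ g)).1
    (hw₁ g (s₁ g) (p₁ g)).2 (hw₂ g (s₂ g) (p₂ g)).2 (p₁ g) (p₂ g)
  have hsup : ∀ g v, τ g v ≠ 0 → v ∈ Bl G.Adj n (β g.1 g.2) := by
    intro g v h
    by_contra hv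
    have e1 : w (a₁ g) (s₁ g) v = 0 := by
      by_contra h0
      exact hv (hU₁ g ((hw₁ g (s₁ g) (p₁ g)).1 v h0))
    have e2 : w (a₂ g) (s₂ g) v = 0 := by
      by_contra h0
      exact hv (hU₂ g ((hw₂ g (s₂ g) (p₂ g)).1 v h0))
    apply h
    rw [hτ]
    simp only [e1, e2, mul_zero, add_zero]
  have hpow : 2 * (1 / 2 ^ j₀ : ℝ) = 1 / 2 ^ (j₀ - 1) := by
    obtain ⟨j, rfl⟩ : ∃ j, j₀ = j + 1 := ⟨j₀ - 1, by omega⟩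
    rw [Nat.add_sub_cancel, pow_succ]
    field_simp
  refine ⟨s₁, s₂, p₁, p₂, ?_, fun i v => ∑ g : Fin (M i), τ ⟨i, g⟩ v, fun i v h => ?_,
    fun i => ?_, fun i A hA hA2 => ?_, fun X => ?_⟩
  · have e1 : (((∑ g, (s₁ g + s₂ g) : ℤ)) : ℝ) = ((2 * ∑ i, z i : ℤ) : ℝ) := by
      push_cast
      rw [Fintype.sum_sigma]
      have e2 : ∀ i, ∑ g : Fin (M i), (((s₁ ⟨i, g⟩ : ℤ) : ℝ) + ((s₂ ⟨i, g⟩ : ℤ) : ℝ)) =
          2 * z i := by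
        intro i
        have := hsum i
        simp only [← mul_add, ← mul_sum] at this
        linarith
      rw [sum_congr rfl fun i _ => e2 i, mul_sum]
    exact_mod_cast e1
  · obtain ⟨g, -, hg⟩ := exists_ne_zero_of_sum_ne_zero h
    exact hβS i g (hsup ⟨i, g⟩ v hg)
  · rw [sum_comm]
    rw [← hsum i]
    exact sum_congr rfl fun g _ => (hm ⟨i, g⟩).2.2
  · have hq := q_bound h3 hS hF hc (j₀ := j₀ - 1) (R := n) hθ i (β i) (fun g v => τ ⟨i, g⟩ v)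
      (hβd i) (fun g v h => hsup ⟨i, g⟩ v h) (fun g v => by
        have := (hm ⟨i, g⟩).1 v
        rw [hpow] at this
        exact this)
      (fun g => (hm ⟨i, g⟩).2.1) (fun Z h1 h2 _ h4 => hβ i Z h1 h2 (hk₁.trans h4)) A hA hA2
    have e : (2 : ℝ) / 2 ^ j₀ = 1 / 2 ^ (j₀ - 1) := by
      rw [← hpow]
      ring
    rw [e]
    exact hq
  · rw [sum_comm]
    have e1 : ∀ g : (Σ i, Fin (M i)), ∑ v ∈ X, τ g v =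
        2 * ((s₁ g : ℝ) * ∑ v ∈ X, w (a₁ g) (s₁ g) v + (s₂ g : ℝ) * ∑ v ∈ X, w (a₂ g) (s₂ g) v) := by
      intro g
      rw [hτ]
      simp only
      rw [← mul_sum, sum_add_distrib, ← mul_sum, ← mul_sum]
    have e2 : ∀ i, ∑ v ∈ X, ∑ g : Fin (M i), τ ⟨i, g⟩ v = ∑ g : Fin (M i), ∑ v ∈ X, τ ⟨i, g⟩ v :=
      fun i => sum_comm
    rw [sum_congr rfl fun i _ => e2 i, ← Fintype.sum_sigma (f := fun g => ∑ v ∈ X, τ g v),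
      sum_congr rfl fun g _ => e1 g, mul_sum]

end Pool.Agent.K5
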