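import Mathlib
import Pool.Agent.Work.MP_974d84_co_k5.DefsW

/-!
# Reserved defects in the cores (route W)
-/

set_option linter.unusedSectionVars false

namespace Pool.Agent.K5

open Finset SimpleGraph Pool.Agent.Exp Pool.Agent.Log5 Pool.Agent.Log5.Clu

variable {V : Type} [Fintype V] [DecidableEq V]

namespace GW

theorem pow_mem {G : SimpleGraph V} [DecidableRel G.Adj] {μ : V → V} {π : Equiv.Perm V}
    (hf : Frame G μ π) (n : ℕ) (v : V) : (π ^ n) v ∈ Bl G.Adj n v := by
  induction n with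
  | zero => exact Bl_self 0 v
  | succ n ih =>
    rw [pow_succ', Equiv.Perm.mul_apply]
    exact mem_Bl_succ.2 (Or.inr ⟨_, ih, (hf.adj _ _).2 (Or.inr (Or.inl rfl))⟩)

theorem zone_sub {G : SimpleGraph V} [DecidableRel G.Adj] {μ : V → V} {π : Equiv.Perm V}
    (hf : Frame G μ π) {R R' q m : ℕ} (h : m + 2 * q + R ≤ R') (v : V) :
    zone G π R q ((π ^ m) v) ⊆ Bl G.Adj R' v := by
  intro u hu
  unfold zone at hu
  rw [mem_biUnion] at hu
  obtain ⟨j, hj, hu⟩ := hu
  rw [mem_range] at hj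
  rw [← Equiv.Perm.mul_apply, ← pow_add] at hu
  exact Bl_mono (by omega) v (Bl_comp (pow_mem hf (j + m) v) hu)

theorem mem_zone {G : SimpleGraph V} [DecidableRel G.Adj] {π : Equiv.Perm V} {R q : ℕ} (a : V) :
    a ∈ zone G π R q a := by
  unfold zone
  rw [mem_biUnion]
  exact ⟨0, by simp, Bl_self R _⟩

theorem sum_fin (M : ℕ) (n : ℤ) (hn : |n| ≤ M) :
    ∑ g : Fin M, (if (g : ℕ) < n.natAbs then 2 * (if 0 ≤ n then (1 : ℤ) else -1) else 0) =
      2 * n := by
  have hn' : n.natAbs ≤ M := by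
    rw [Int.abs_eq_natAbs] at hn
    exact_mod_cast hn
  rw [Fin.sum_univ_eq_sum_range
    (fun g => if g < n.natAbs then 2 * (if 0 ≤ n then (1 : ℤ) else -1) else 0) M]
  rw [← sum_filter, sum_const]
  have h1 : (range M).filter (fun g => g < n.natAbs) = range n.natAbs := by
    ext g
    simp only [mem_filter, mem_range]
    omega
  rw [h1, card_range, nsmul_eq_mul]
  split_ifs <;> omega

end GW

open GW in
/-- Two reserved defects in every ball: they can carry charge `0`, `2` or `-2`. -/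
theorem gadget_w {G : SimpleGraph V} [DecidableRel G.Adj] {μ : V → V} {π : Equiv.Perm V}
    (hf : Frame G μ π) {J q M R B : ℕ} {A : Finset V} (hA : Win G π R q B A) {y : V → ℤ}
    (hy : Pattern μ π J q M A y) (hπ : ∀ v n, 0 < n → n < M → (π ^ n) v ≠ v) {j₀ : ℕ}
    {w : V → ℤ → V → ℝ} (w1 : ∀ a s v, 0 ≤ w a s v) (w2 : ∀ a s v, w a s v ≤ 1 / 2 ^ j₀)
    (w3 : ∀ a ∈ Dfc π A y, ∀ s, (s = 1 ∨ s = -1) → (∀ v, w a s v ≠ 0 → v ∈ zone G π R q a) ∧
      ∑ v, w a s v = 1)
    {r : ℕ} {S : Fin r → Finset V} (hS : ∀ i j, i ≠ j → Disjoint (S i) (S j))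
    {Mc : Fin r → ℕ} {β : (i : Fin r) → Fin (Mc i) → V} {R' : ℕ} (hR' : M + 2 * q + R ≤ R')
    (hβ1 : ∀ i g, Bl G.Adj R' (β i g) ⊆ S i)
    (hβ2 : ∀ i g g', g ≠ g' → Disjoint (Bl G.Adj R' (β i g)) (Bl G.Adj R' (β i g'))) :
    ∃ Res : Finset V, Res ⊆ Dfc π A y ∧ Even Res.card ∧
      (∀ a ∈ Res, ∃ i g, zone G π R q a ⊆ Bl G.Adj R' (β i g)) ∧
      ∀ n : Fin r → ℤ, (∀ i, |n i| ≤ Mc i) →
        ∃ (η : V → ℤ) (σ : (i : Fin r) → Fin (Mc i) → V → ℝ), (∀ v, η v = 1 ∨ η v = -1) ∧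
        (∀ X : Finset V, ∑ a ∈ Res, (η a : ℝ) * ∑ v ∈ X, w a (η a) v =
          ∑ i, ∑ v ∈ X, ∑ g, σ i g v) ∧
        (∀ i g v, σ i g v ≠ 0 → v ∈ Bl G.Adj R' (β i g)) ∧
        (∀ i g v, |σ i g v| ≤ 1 / 2 ^ j₀) ∧ (∀ i g, ∑ v, |σ i g v| ≤ 2) ∧
        ∀ i, ∑ v, ∑ g, σ i g v = 2 * n i := by
  classical
  let I := Σ i : Fin r, Fin (Mc i)
  have hnear : ∀ x : I, ∃ m n, m < n ∧ n < M ∧ (π ^ m) (β x.1 x.2) ∈ Dfc π A y ∧
      (π ^ n) (β x.1 x.2) ∈ Dfc π A y := fun x => hy.near _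
  choose m n hmn hn hm1 hn1 using hnear
  let e : I × Bool → V := fun x =>
    if x.2 = true then (π ^ m x.1) (β x.1.1 x.1.2) else (π ^ n x.1) (β x.1.1 x.1.2)
  have eD : ∀ x, e x ∈ Dfc π A y := by
    rintro ⟨x, b⟩
    simp only [e]
    split_ifs
    · exact hm1 x
    · exact hn1 x
  have ez : ∀ x : I × Bool, zone G π R q (e x) ⊆ Bl G.Adj R' (β x.1.1 x.1.2) := by
    rintro ⟨x, b⟩
    have h1 := hmn x
    have h2 := hn x
    simp only [e]
    split_ifs
    · exact zone_sub hf (by omega) _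
    · exact zone_sub hf (by omega) _
  have hball : ∀ x x' : I, x ≠ x' →
      Disjoint (Bl G.Adj R' (β x.1 x.2)) (Bl G.Adj R' (β x'.1 x'.2)) := by
    rintro ⟨i, g⟩ ⟨i', g'⟩ hx
    by_cases hi : i = i'
    · subst hi
      exact hβ2 i g g' fun h => hx (by rw [h])
    · exact disjoint_of_subset_left (hβ1 i g) (disjoint_of_subset_right (hβ1 i' g') (hS i i' hi))
  have hpow : ∀ x : I, (π ^ m x) (β x.1 x.2) ≠ (π ^ n x) (β x.1 x.2) := by
    intro x h
    have h1 := hmn x
    have h2 := hn x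
    apply hπ ((π ^ m x) (β x.1 x.2)) (n x - m x) (by omega) (by omega)
    rw [← Equiv.Perm.mul_apply, ← pow_add, Nat.sub_add_cancel h1.le]
    exact h.symm
  have einj : Function.Injective e := by
    rintro ⟨x, b⟩ ⟨x', b'⟩ h
    have hxx : x = x' := by
      by_contra hx
      exact disjoint_left.1 (hball x x' hx) (ez (x, b) (mem_zone _)) (by
        rw [h]
        exact ez (x', b') (mem_zone _))
    subst hxx
    have hne := hpow x
    cases b <;> cases b'
    · rfl
    · simp only [e] at h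
      exact absurd h.symm (by simpa using hne)
    · simp only [e] at h
      exact absurd h (by simpa using hne)
    · rfl
  have hzz : ∀ x x' : I × Bool, x ≠ x' → Disjoint (zone G π R q (e x)) (zone G π R q (e x')) := by
    intro x x' hx
    exact hA.disj _ (mem_filter.1 (eD x)).1 _ (mem_filter.1 (eD x')).1 fun h => hx (einj h)
  refine ⟨univ.image e, ?_, ?_, ?_, fun nn hnn => ?_⟩
  · intro a ha
    rw [mem_image] at ha
    obtain ⟨x, -, rfl⟩ := ha
    exact eD x
  · rw [card_image_of_injective _ einj, card_univ, Fintype.card_prod, Fintype.card_bool]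
    exact even_two.mul_left _
  · intro a ha
    rw [mem_image] at ha
    obtain ⟨x, -, rfl⟩ := ha
    exact ⟨x.1.1, x.1.2, ez x⟩
  · let s : I × Bool → ℤ := fun x =>
      if (x.1.2 : ℕ) < (nn x.1.1).natAbs then (if 0 ≤ nn x.1.1 then 1 else -1) else
        (if x.2 = true then 1 else -1)
    have hs : ∀ x, s x = 1 ∨ s x = -1 := by
      intro x
      simp only [s]
      split_ifs <;> simp
    let η : V → ℤ := Function.extend e s (fun _ => 1)
    have hη : ∀ x, η (e x) = s x := fun x => einj.extend_apply _ _ x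
    let σ : (i : Fin r) → Fin (Mc i) → V → ℝ := fun i g v =>
      ∑ b : Bool, (s (⟨i, g⟩, b) : ℝ) * w (e (⟨i, g⟩, b)) (s (⟨i, g⟩, b)) v
    have hσ : ∀ i g v, σ i g v =
        (s (⟨i, g⟩, true) : ℝ) * w (e (⟨i, g⟩, true)) (s (⟨i, g⟩, true)) v +
        (s (⟨i, g⟩, false) : ℝ) * w (e (⟨i, g⟩, false)) (s (⟨i, g⟩, false)) v := by
      intro i g v
      simp only [σ, Fintype.sum_bool]
    have hsup : ∀ x v, w (e x) (s x) v ≠ 0 → v ∈ zone G π R q (e x) := fun x v h =>
      (w3 _ (eD x) _ (hs x)).1 v h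
    have habs : ∀ x v, |(s x : ℝ) * w (e x) (s x) v| = w (e x) (s x) v := by
      intro x v
      rw [abs_mul, abs_of_nonneg (w1 _ _ _)]
      rcases hs x with h | h
      · rw [h]; simp
      · rw [h]; simp
    refine ⟨η, σ, fun v => ?_, fun X => ?_, fun i g v h => ?_, fun i g v => ?_, fun i g => ?_,
      fun i => ?_⟩
    · by_cases hv : ∃ x, e x = v
      · obtain ⟨x, rfl⟩ := hv
        rw [hη]
        exact hs x
      · left
        exact Function.extend_apply' _ _ _ hv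
    · rw [sum_image (f := fun a => (η a : ℝ) * ∑ v ∈ X, w a (η a) v) einj.injOn]
      simp only [hη]
      rw [Fintype.sum_prod_type, Fintype.sum_sigma]
      refine sum_congr rfl fun i _ => ?_
      rw [sum_comm (s := X)]
      refine sum_congr rfl fun g _ => ?_
      simp only [σ]
      rw [sum_comm (s := X)]
      refine sum_congr rfl fun b _ => ?_
      rw [mul_sum]
    · by_contra hv
      apply h
      have h1 : ∀ b, w (e (⟨i, g⟩, b)) (s (⟨i, g⟩, b)) v = 0 := by
        intro b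
        by_contra h2
        exact hv (ez (⟨i, g⟩, b) (hsup _ _ h2))
      rw [hσ, h1, h1]
      ring
    · rw [hσ]
      by_cases h1 : w (e (⟨i, g⟩, true)) (s (⟨i, g⟩, true)) v = 0
      · rw [h1, mul_zero, zero_add, habs]
        exact w2 _ _ _
      · have h2 : w (e (⟨i, g⟩, false)) (s (⟨i, g⟩, false)) v = 0 := by
          by_contra h2
          exact disjoint_left.1 (hzz (⟨i, g⟩, true) (⟨i, g⟩, false) (by simp)) (hsup _ _ h1)
            (hsup _ _ h2)
        rw [h2, mul_zero, add_zero, habs]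
        exact w2 _ _ _
    · calc ∑ v, |σ i g v| ≤ ∑ v, (w (e (⟨i, g⟩, true)) (s (⟨i, g⟩, true)) v +
            w (e (⟨i, g⟩, false)) (s (⟨i, g⟩, false)) v) := by
            refine sum_le_sum fun v _ => ?_
            rw [hσ]
            refine (abs_add_le _ _).trans ?_
            rw [habs, habs]
        _ = 2 := by
            rw [sum_add_distrib, (w3 _ (eD _) _ (hs _)).2, (w3 _ (eD _) _ (hs _)).2]
            norm_num
    · rw [sum_comm]
      have h1 : ∀ g : Fin (Mc i), ∑ v, σ i g v =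
          ((if (g : ℕ) < (nn i).natAbs then 2 * (if 0 ≤ nn i then (1 : ℤ) else -1) else 0 : ℤ) :
            ℝ) := by
        intro g
        simp only [hσ]
        rw [sum_add_distrib, ← mul_sum, ← mul_sum, (w3 _ (eD _) _ (hs _)).2,
          (w3 _ (eD _) _ (hs _)).2]
        simp only [s, if_true, Bool.false_eq_true, if_false]
        split_ifs <;> norm_num
      rw [sum_congr rfl fun g _ => h1 g, ← Int.cast_sum, sum_fin _ _ (hnn i)]
      push_cast
      ring

end Pool.Agent.K5
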