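import Mathlib
import Pool.Agent.Work.MP_974d84_co_k5.GPathDef
import Pool.Agent.Work.MP_974d84_co_log.Paths

/-!
# Switching a matching along the gadget paths
-/

set_option linter.unusedSectionVars false

namespace Pool.Agent.K5

open Finset SimpleGraph Pool.Agent.Exp Pool.Agent.Log5

section

variable {V Γ : Type}

/-- Change a function at the points `P g i` with `S i`. -/
theorem exists_lift {R : Type} (μ : V → R) (P : Γ → ℕ → V) (L : ℕ)
    (hinj : ∀ g i g' i', i ≤ L → i' ≤ L → P g i = P g' i' → g = g' ∧ i = i')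
    (S : ℕ → Prop) (hS : ∀ i, S i → i ≤ L) (f : Γ → ℕ → R) :
    ∃ α : V → R, (∀ g i, S i → α (P g i) = f g i) ∧
      ∀ v, (∀ g i, S i → v ≠ P g i) → α v = μ v := by
  classical
  refine ⟨fun v => if h : ∃ x : Γ × ℕ, S x.2 ∧ v = P x.1 x.2 then f h.choose.1 h.choose.2
    else μ v, fun g i hi => ?_, fun v hv => ?_⟩
  · have h : ∃ x : Γ × ℕ, S x.2 ∧ P g i = P x.1 x.2 := ⟨(g, i), hi, rfl⟩
    simp only
    rw [dif_pos h]
    obtain ⟨h1, h2⟩ := h.choose_spec
    obtain ⟨h3, h4⟩ := hinj _ _ _ _ (hS i hi) (hS _ h1) h2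
    rw [← h3, ← h4]
  · have h : ¬ ∃ x : Γ × ℕ, S x.2 ∧ v = P x.1 x.2 := by
      rintro ⟨x, h1, h2⟩
      exact hv x.1 x.2 h1 h2
    simp only
    rw [dif_neg h]

/-- A switched matching: `S` is a union of intervals which `μ` matches, `f` matches the inner
points of the intervals in the other way. -/
theorem exists_switch {G : SimpleGraph V} (μ ν : V → V) (hμ : ∀ v, μ (μ v) = v)
    (hμa : ∀ v, μ v ≠ v → G.Adj v (μ v))
    (P : Γ → ℕ → V) (L : ℕ)
    (hinj : ∀ g i g' i', i ≤ L → i' ≤ L → P g i = P g' i' → g = g' ∧ i = i')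
    (S : ℕ → Prop) (hS : ∀ i, S i → i ≤ L) (f h : ℕ → ℕ)
    (hh : ∀ g i, S i → S (h i) ∧ μ (P g i) = P g (h i))
    (hf : ∀ i, S i → S (f i) ∧ f (f i) = i)
    (hfa : ∀ g i, S i → f i ≠ i → G.Adj (P g i) (P g (f i)) ∧ P g (f i) ≠ μ (P g i) ∧
      P g (f i) ≠ ν (P g i)) :
    ∃ α : V → V, (∀ v, α (α v) = v) ∧ (∀ v, α v ≠ v → G.Adj v (α v)) ∧
      (∀ g i, S i → α (P g i) = P g (f i)) ∧
      (∀ v, (∀ g i, S i → v ≠ P g i) → α v = μ v) ∧
      (∀ v, α v = v ↔ (∃ g i, S i ∧ f i = i ∧ v = P g i) ∨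
        ((∀ g i, S i → v ≠ P g i) ∧ μ v = v)) ∧
      (∀ g i, S i → α (P g i) ≠ P g i → α (P g i) ≠ ν (P g i)) := by
  obtain ⟨α, h1, h2⟩ := exists_lift μ P L hinj S hS (fun g i => P g (f i))
  have hμS : ∀ v, (∀ g i, S i → v ≠ P g i) → ∀ g i, S i → μ v ≠ P g i := by
    intro v hv g i hi he
    apply hv g (h i) (hh g i hi).1
    rw [← (hh g i hi).2, ← he, hμ]
  have hcase : ∀ v, (∃ g i, S i ∧ v = P g i) ∨ ∀ g i, S i → v ≠ P g i := by
    intro v
    by_cases hv : ∃ g i, S i ∧ v = P g i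
    · exact Or.inl hv
    · right
      intro g i hi he
      exact hv ⟨g, i, hi, he⟩
  refine ⟨α, fun v => ?_, fun v hv => ?_, h1, h2, fun v => ?_, fun g i hi hv => ?_⟩
  · rcases hcase v with ⟨g, i, hi, rfl⟩ | hv
    · rw [h1 g i hi, h1 g _ (hf i hi).1, (hf i hi).2]
    · rw [h2 v hv, h2 _ (hμS v hv), hμ]
  · rcases hcase v with ⟨g, i, hi, rfl⟩ | hv'
    · rw [h1 g i hi] at hv ⊢
      exact (hfa g i hi fun he => hv (by rw [he])).1
    · rw [h2 v hv'] at hv ⊢
      exact hμa v hv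
  · rcases hcase v with ⟨g, i, hi, rfl⟩ | hv
    · rw [h1 g i hi]
      constructor
      · intro he
        left
        exact ⟨g, i, hi, (hinj g _ g i (hS _ (hf i hi).1) (hS i hi) he).2, rfl⟩
      · rintro (⟨g', i', hi', hfi, he⟩ | ⟨h3, -⟩)
        · obtain ⟨-, rfl⟩ := hinj _ _ _ _ (hS i hi) (hS i' hi') he
          rw [hfi]
        · exact absurd rfl (h3 g i hi)
    · rw [h2 v hv]
      constructor
      · intro he
        exact Or.inr ⟨hv, he⟩
      · rintro (⟨g', i', hi', -, he⟩ | ⟨-, h3⟩)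
        · exact absurd he (hv g' i' hi')
        · exact h3
  · rw [h1 g i hi] at hv ⊢
    exact (hfa g i hi fun he => hv (by rw [he])).2.2

end

section

variable {V : Type} [Fintype V] [DecidableEq V]

/-- Signs with prescribed values at the uncovered vertices which alternate along two matchings. -/
theorem pair_sign {G : SimpleGraph V} [DecidableRel G.Adj] (μ ν : V → V) (hμ : ∀ v, μ (μ v) = v)
    (hν : ∀ v, ν (ν v) = v) (hμa : ∀ v, G.Adj v (μ v)) (hνa : ∀ v, ν v ≠ v → G.Adj v (ν v))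
    (hne : ∀ v, μ v ≠ ν v) :
    ∃ (m : ℕ) (p q : Fin m → V), Function.Injective p ∧ Function.Injective q ∧
      (∀ i j, p i ≠ q j) ∧ (∀ v, ((∃ j, p j = v) ∨ ∃ j, q j = v) ↔ ν v = v) ∧
      (∀ (X : Finset V) (J : Finset (Fin m)), (∀ j ∈ J, ¬ (p j ∈ X ↔ q j ∈ X)) →
        J.card ≤ dd G X) ∧
      ∀ ε : Fin m → ℤ, (∀ j, ε j = 1 ∨ ε j = -1) → ∃ x : V → ℤ, (∀ v, x v = 1 ∨ x v = -1) ∧
        (∀ v, x (μ v) = - x v) ∧ (∀ v, ν v ≠ v → x (ν v) = - x v) ∧
        ∀ j, x (p j) = ε j ∧ x (q j) = - ε j := by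
  classical
  obtain ⟨J, _, _, p, q, h1, h2, h3, h4⟩ := pairing μ ν hμ hν hμa hνa hne
  let e : J ≃ Fin (Fintype.card J) := Fintype.equivFin J
  have hp : Function.Injective p := by
    intro i j hij
    have h5 := h2 (p j) (h1 j).1
    have h6 : (univ.filter fun k => p k = p j).card ≤ 1 := by omega
    exact card_le_one.1 h6 i (by simp [hij]) j (by simp)
  have hq : Function.Injective q := by
    intro i j hij
    have h5 := h2 (q j) (h1 j).2
    have h6 : (univ.filter fun k => q k = q j).card ≤ 1 := by omega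
    exact card_le_one.1 h6 i (by simp [hij]) j (by simp)
  have hpq : ∀ i j, p i ≠ q j := by
    intro i j hij
    have h5 := h2 (p i) (h1 i).1
    have h6 : 0 < (univ.filter fun k => p k = p i).card := card_pos.2 ⟨i, by simp⟩
    have h7 : 0 < (univ.filter fun k => q k = p i).card := card_pos.2 ⟨j, by simp [hij]⟩
    omega
  have hex : ∀ v, ν v = v → (∃ j, p j = v) ∨ ∃ j, q j = v := by
    intro v hv
    have h5 := h2 v hv
    by_contra hno
    push Not at hno
    rw [filter_false_of_mem (fun j _ => hno.1 j), filter_false_of_mem (fun j _ => hno.2 j)] at h5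
    simp at h5
  refine ⟨Fintype.card J, fun j => p (e.symm j), fun j => q (e.symm j),
    fun i j h => e.symm.injective (hp h), fun i j h => e.symm.injective (hq h),
    fun i j => hpq _ _, fun v => ⟨?_, fun hv => ?_⟩, fun X K hK => ?_, fun ε hε => ?_⟩
  · rintro (⟨j, rfl⟩ | ⟨j, rfl⟩)
    · exact (h1 _).1
    · exact (h1 _).2
  · rcases hex v hv with ⟨j, hj⟩ | ⟨j, hj⟩
    · exact Or.inl ⟨e j, by simpa using hj⟩
    · exact Or.inr ⟨e j, by simpa using hj⟩
  · refine le_trans ?_ (h3 X)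
    refine card_le_card_of_injOn e.symm (fun j hj => ?_) (e.symm.injective.injOn)
    rw [mem_coe, mem_filter]
    exact ⟨mem_univ _, hK j hj⟩
  · obtain ⟨a, ha1, ha2, ha3, ha4⟩ := h4 (fun j => ε (e j)) (fun j => hε _)
    have hne' : ∀ v, ν v ≠ v → (∀ j, v ≠ p j) ∧ ∀ j, v ≠ q j := by
      intro v hv
      refine ⟨?_, ?_⟩
      · rintro j rfl
        exact hv (h1 j).1
      · rintro j rfl
        exact hv (h1 j).2
    have hs1 : ∀ v, ν v = v → ∑ u, a v u = a v (μ v) := by
      intro v hv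
      refine sum_eq_single (μ v) (fun u _ hu => ?_) (fun h => absurd (mem_univ _) h)
      by_contra h0
      rcases (ha3 v u).1 h0 with h5 | ⟨-, h5⟩
      · exact hu h5
      · exact h5 hv
    have hs2 : ∀ v, ν v ≠ v → a v (μ v) + a v (ν v) = 0 := by
      intro v hv
      have h5 : ∑ u, a v u = a v (μ v) + a v (ν v) := by
        rw [← sum_pair (hne v)]
        symm
        apply sum_subset (subset_univ _)
        intro u _ hu
        simp only [mem_insert, mem_singleton, not_or] at hu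
        by_contra h0
        rcases (ha3 v u).1 h0 with h5 | ⟨h5, -⟩
        · exact hu.1 h5
        · exact hu.2 h5
      rw [← h5, ha4]
      apply sum_eq_zero
      intro j _
      rw [if_neg ((hne' v hv).1 j), if_neg ((hne' v hv).2 j)]
      ring
    refine ⟨fun v => a v (μ v), fun v => ?_, fun v => ?_, fun v hv => ?_, fun j => ⟨?_, ?_⟩⟩
    · have h5 := (ha3 v (μ v)).2 (Or.inl rfl)
      have h6 := ha2 v (μ v)
      simp only
      omega
    · simp only
      rw [hμ, ha1]
    · simp only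
      have h5 := hs2 v hv
      have h6 := hs2 (ν v) (by rw [hν]; exact hv.symm)
      rw [hν, ha1 (ν v) v] at h6
      omega
    · simp only
      rw [← hs1 _ (h1 _).1, ha4, sum_eq_single (e.symm j)]
      · rw [if_pos rfl, if_neg (hpq _ _)]
        simp
      · intro k _ hk
        rw [if_neg (fun h => hk (hp h).symm), if_neg (hpq _ _)]
        ring
      · intro h
        exact absurd (mem_univ _) h
    · simp only
      rw [← hs1 _ (h1 _).2, ha4, sum_eq_single (e.symm j)]
      · rw [if_pos rfl, if_neg (hpq _ _).symm]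
        simp
      · intro k _ hk
        rw [if_neg (fun h => hk (hq h).symm), if_neg (hpq _ _).symm]
        ring
      · intro h
        exact absurd (mem_univ _) h

end

end Pool.Agent.K5
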