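import Mathlib
import Pool.Agent.Work.MP_974d84_co_k5.GadgetsA

/-!
# The gadgets: switching two matchings along disjoint gadget paths
-/

set_option linter.unusedSectionVars false

namespace Pool.Agent.K5

open Finset SimpleGraph Pool.Agent.Exp Pool.Agent.Log5

section

variable {V Γ : Type}

/-- The indices of the two short strands. -/
def ShortIdx (a i : ℕ) : Prop :=
  (2 * a + 1 ≤ i ∧ i ≤ 4 * a + 3) ∨ (6 * a + 4 ≤ i ∧ i ≤ 8 * a + 6)

/-- The two switched matchings. -/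
theorem exists_ab {G : SimpleGraph V} (μ ν : V → V) (hμ : ∀ v, μ (μ v) = v)
    (hν : ∀ v, ν (ν v) = v) (hμa : ∀ v, G.Adj v (μ v)) (hνa : ∀ v, ν v ≠ v → G.Adj v (ν v))
    (hne : ∀ v, μ v ≠ ν v) (a : ℕ) (P : Γ → ℕ → V) (hP : ∀ g, GPath G μ ν a (P g))
    (hinj : ∀ g i g' i', i ≤ 10 * a + 7 → i' ≤ 10 * a + 7 → P g i = P g' i' → g = g' ∧ i = i') :
    ∃ α β : V → V, (∀ v, α (α v) = v) ∧ (∀ v, β (β v) = v) ∧ (∀ v, α v ≠ v → G.Adj v (α v)) ∧
      (∀ v, β v ≠ v → G.Adj v (β v)) ∧ (∀ v, α v ≠ β v) ∧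
      (∀ v, α v = v ↔ ∃ g, v = P g (4 * a + 3) ∨ v = P g (6 * a + 4)) ∧
      (∀ v, β v = v ↔ ν v = v ∨ ∃ g, v = P g 0 ∨ v = P g (2 * a + 1) ∨ v = P g (8 * a + 6) ∨
        v = P g (10 * a + 7)) ∧
      (∀ g i, ShortIdx a i → α (P g i) = P g (if i = 4 * a + 3 ∨ i = 6 * a + 4 then i else
        if i % 2 = 1 then i + 1 else i - 1)) ∧
      (∀ g i, ShortIdx a i → β (P g i) = P g (if i = 2 * a + 1 ∨ i = 8 * a + 6 then i else
        if i % 2 = 0 then i + 1 else i - 1)) ∧ ∀ v, ν v = v → α v = μ v := by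
  have hμf : ∀ v, μ v ≠ v := fun v h => G.ne_of_adj (hμa v) h.symm
  -- the index maps of the two matchings
  have muI : ∀ g i, 2 * a + 1 ≤ i → i ≤ 8 * a + 6 →
      μ (P g i) = P g (if i % 2 = 1 then i + 1 else i - 1) := by
    intro g i h1 h2
    by_cases hi : i % 2 = 1
    · rw [if_pos hi, (hP g).mu i (by omega) (Nat.odd_iff.2 hi) h1 (by omega)]
    · rw [if_neg hi]
      have h3 := (hP g).mu (i - 1) (by omega) (Nat.odd_iff.2 (by omega)) (by omega) (by omega)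
      rw [Nat.sub_add_cancel (by omega : 1 ≤ i)] at h3
      rw [h3, hμ]
  have nuI : ∀ g i, i ≤ 10 * a + 7 → ¬ (4 * a + 3 < i ∧ i < 6 * a + 4) →
      ν (P g i) = P g (if i % 2 = 0 then i + 1 else i - 1) := by
    intro g i h1 h2
    by_cases hi : i % 2 = 0
    · rw [if_pos hi, (hP g).nu i (by omega) (Nat.even_iff.2 hi) (by omega)]
    · rw [if_neg hi]
      have h3 := (hP g).nu (i - 1) (by omega) (Nat.even_iff.2 (by omega)) (by omega)
      rw [Nat.sub_add_cancel (by omega : 1 ≤ i)] at h3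
      rw [h3, hν]
  -- the third edges, from both ends
  have flip : ∀ u v, G.Adj u v ∧ v ≠ μ u ∧ v ≠ ν u → G.Adj v u ∧ u ≠ μ v ∧ u ≠ ν v := by
    rintro u v ⟨h1, h2, h3⟩
    refine ⟨h1.symm, fun h => h2 ?_, fun h => h3 ?_⟩
    · rw [h, hμ]
    · rw [h, hν]
  have thA : ∀ g i, 4 * a + 3 < i → i < 6 * a + 4 →
      G.Adj (P g i) (P g (if i % 2 = 0 then i + 1 else i - 1)) ∧
        P g (if i % 2 = 0 then i + 1 else i - 1) ≠ μ (P g i) ∧
        P g (if i % 2 = 0 then i + 1 else i - 1) ≠ ν (P g i) := by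
    intro g i h1 h2
    by_cases hi : i % 2 = 0
    · rw [if_pos hi]
      exact (hP g).third i (by omega) (Or.inl ⟨Nat.even_iff.2 hi, by omega, by omega⟩)
    · rw [if_neg hi]
      apply flip
      have h3 := (hP g).third (i - 1) (by omega)
        (Or.inl ⟨Nat.even_iff.2 (by omega), by omega, by omega⟩)
      rwa [Nat.sub_add_cancel (by omega : 1 ≤ i)] at h3
  have thB : ∀ g i, i ≤ 10 * a + 7 → i ≠ 0 → i ≠ 10 * a + 7 → (i < 2 * a + 1 ∨ 8 * a + 6 < i) →
      G.Adj (P g i) (P g (if i % 2 = 1 then i + 1 else i - 1)) ∧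
        P g (if i % 2 = 1 then i + 1 else i - 1) ≠ μ (P g i) ∧
        P g (if i % 2 = 1 then i + 1 else i - 1) ≠ ν (P g i) := by
    intro g i h1 h2 h3 h4
    by_cases hi : i % 2 = 1
    · rw [if_pos hi]
      exact (hP g).third i (by omega) (Or.inr ⟨Nat.odd_iff.2 hi, by omega⟩)
    · rw [if_neg hi]
      apply flip
      have h5 := (hP g).third (i - 1) (by omega) (Or.inr ⟨Nat.odd_iff.2 (by omega), by omega⟩)
      rwa [Nat.sub_add_cancel (by omega : 1 ≤ i)] at h5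
  obtain ⟨α, a1, a2, a3, a4, a5, a6⟩ := exists_switch (G := G) μ ν hμ (fun v _ => hμa v) P
    (10 * a + 7) hinj (fun i => 4 * a + 3 ≤ i ∧ i ≤ 6 * a + 4) (fun i hi => by omega)
    (fun i => if i = 4 * a + 3 ∨ i = 6 * a + 4 then i else if i % 2 = 0 then i + 1 else i - 1)
    (fun i => if i % 2 = 1 then i + 1 else i - 1)
    (fun g i hi => ⟨by
      split_ifs with h1
      · omega
      · omega, muI g i (by omega) (by omega)⟩)
    (fun i hi => by
      constructor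
      · split_ifs <;> omega
      · split_ifs <;> omega)
    (fun g i hi hfi => by
      by_cases h1 : i = 4 * a + 3 ∨ i = 6 * a + 4
      · rw [if_pos h1] at hfi
        exact absurd rfl hfi
      · simp only [h1, if_false]
        exact thA g i (by omega) (by omega))
  obtain ⟨β, b1, b2, b3, b4, b5, b6⟩ := exists_switch (G := G) ν μ hν hνa P
    (10 * a + 7) hinj (fun i => i ≤ 2 * a + 1 ∨ (8 * a + 6 ≤ i ∧ i ≤ 10 * a + 7))
    (fun i hi => by omega)
    (fun i => if i = 0 ∨ i = 2 * a + 1 ∨ i = 8 * a + 6 ∨ i = 10 * a + 7 then i else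
      if i % 2 = 1 then i + 1 else i - 1)
    (fun i => if i % 2 = 0 then i + 1 else i - 1)
    (fun g i hi => ⟨by
      split_ifs with h1
      · omega
      · omega, nuI g i (by omega) (by omega)⟩)
    (fun i hi => by
      have hi' : i ≤ 2 * a + 1 ∨ (8 * a + 6 ≤ i ∧ i ≤ 10 * a + 7) := hi
      by_cases h1 : i = 0 ∨ i = 2 * a + 1 ∨ i = 8 * a + 6 ∨ i = 10 * a + 7
      · rw [if_pos h1, if_pos h1]
        exact ⟨hi, rfl⟩
      · rw [if_neg h1]
        by_cases h2 : i % 2 = 1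
        · rw [if_pos h2, if_neg (by omega), if_neg (by omega)]
          omega
        · rw [if_neg h2, if_neg (by omega), if_pos (by omega)]
          omega)
    (fun g i hi hfi => by
      by_cases h1 : i = 0 ∨ i = 2 * a + 1 ∨ i = 8 * a + 6 ∨ i = 10 * a + 7
      · rw [if_pos h1] at hfi
        exact absurd rfl hfi
      · simp only [h1, if_false]
        have := thB g i (by omega) (by omega) (by omega) (by omega)
        exact ⟨this.1, this.2.2, this.2.1⟩)
  have caseA : ∀ v, (∃ g i, (4 * a + 3 ≤ i ∧ i ≤ 6 * a + 4) ∧ v = P g i) ∨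
      ∀ g i, 4 * a + 3 ≤ i ∧ i ≤ 6 * a + 4 → v ≠ P g i := by
    intro v
    by_cases hv : ∃ g i, (4 * a + 3 ≤ i ∧ i ≤ 6 * a + 4) ∧ v = P g i
    · exact Or.inl hv
    · right
      intro g i hi he
      exact hv ⟨g, i, hi, he⟩
  have caseB : ∀ v, (∃ g i, (i ≤ 2 * a + 1 ∨ (8 * a + 6 ≤ i ∧ i ≤ 10 * a + 7)) ∧ v = P g i) ∨
      ∀ g i, i ≤ 2 * a + 1 ∨ (8 * a + 6 ≤ i ∧ i ≤ 10 * a + 7) → v ≠ P g i := by
    intro v
    by_cases hv : ∃ g i, (i ≤ 2 * a + 1 ∨ (8 * a + 6 ≤ i ∧ i ≤ 10 * a + 7)) ∧ v = P g i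
    · exact Or.inl hv
    · right
      intro g i hi he
      exact hv ⟨g, i, hi, he⟩
  refine ⟨α, β, a1, b1, a2, b2, fun v => ?_, fun v => ?_, fun v => ?_, fun g i hi => ?_,
    fun g i hi => ?_, fun v hv => a4 v ?_⟩
  · rcases caseA v with ⟨g, i, hi, rfl⟩ | hv
    · have h1 : β (P g i) = ν (P g i) := by
        apply b4
        intro g' i' hi' he
        obtain ⟨-, rfl⟩ := hinj g i g' i' (by omega) (by omega) he
        omega
      rw [h1]
      by_cases h2 : α (P g i) = P g i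
      · rw [h2]
        exact ((hP g).fix i (by omega)).symm
      · exact a6 g i hi h2
    · rw [a4 v hv]
      rcases caseB v with ⟨g, i, hi, rfl⟩ | hv'
      · by_cases h2 : β (P g i) = P g i
        · rw [h2]
          exact hμf _
        · exact (b6 g i hi h2).symm
      · rw [b4 v hv']
        exact hne v
  · rw [a5 v]
    constructor
    · rintro (⟨g, i, hi, hfi, rfl⟩ | ⟨-, h2⟩)
      · refine ⟨g, ?_⟩
        by_cases h1 : i = 4 * a + 3 ∨ i = 6 * a + 4
        · rcases h1 with rfl | rfl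
          · exact Or.inl rfl
          · exact Or.inr rfl
        · rw [if_neg h1] at hfi
          split_ifs at hfi <;> omega
      · exact absurd h2 (hμf v)
    · rintro ⟨g, rfl | rfl⟩
      · left
        refine ⟨g, 4 * a + 3, by omega, ?_, rfl⟩
        simp
      · left
        refine ⟨g, 6 * a + 4, by omega, ?_, rfl⟩
        simp
  · rw [b5 v]
    constructor
    · rintro (⟨g, i, hi, hfi, rfl⟩ | ⟨-, h2⟩)
      · right
        refine ⟨g, ?_⟩
        by_cases h1 : i = 0 ∨ i = 2 * a + 1 ∨ i = 8 * a + 6 ∨ i = 10 * a + 7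
        · rcases h1 with rfl | rfl | rfl | rfl
          · exact Or.inl rfl
          · exact Or.inr (Or.inl rfl)
          · exact Or.inr (Or.inr (Or.inl rfl))
          · exact Or.inr (Or.inr (Or.inr rfl))
        · rw [if_neg h1] at hfi
          split_ifs at hfi <;> omega
      · exact Or.inl h2
    · rintro (h2 | ⟨g, rfl | rfl | rfl | rfl⟩)
      · right
        refine ⟨?_, h2⟩
        rintro g i hi rfl
        exact (hP g).fix i (by omega) h2
      · left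
        exact ⟨g, 0, by omega, by simp, rfl⟩
      · left
        exact ⟨g, 2 * a + 1, by omega, by simp, rfl⟩
      · left
        exact ⟨g, 8 * a + 6, by omega, by simp, rfl⟩
      · left
        exact ⟨g, 10 * a + 7, by omega, by simp, rfl⟩
  · unfold ShortIdx at hi
    by_cases h1 : i = 4 * a + 3 ∨ i = 6 * a + 4
    · rw [if_pos h1, a3 g i (by omega)]
      simp [h1]
    · rw [if_neg h1, a4, muI g i (by omega) (by omega)]
      intro g' i' hi' he
      obtain ⟨-, rfl⟩ := hinj g i g' i' (by omega) (by omega) he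
      omega
  · unfold ShortIdx at hi
    by_cases h1 : i = 2 * a + 1 ∨ i = 8 * a + 6
    · rw [if_pos h1, b3 g i (by omega)]
      have h2 : i = 0 ∨ i = 2 * a + 1 ∨ i = 8 * a + 6 ∨ i = 10 * a + 7 := by omega
      simp [h2]
    · rw [if_neg h1, b4, nuI g i (by omega) (by omega)]
      intro g' i' hi' he
      obtain ⟨-, rfl⟩ := hinj g i g' i' (by omega) (by omega) he
      omega
  · rintro g i hi rfl
    exact (hP g).fix i (by omega) hv

end

section

/-- Union of two partial matchings. -/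
def HU {V : Type} (α β : V → V) (hα : ∀ v, α (α v) = v) (hβ : ∀ v, β (β v) = v) :
    SimpleGraph V where
  Adj u v := (v = α u ∧ α u ≠ u) ∨ (v = β u ∧ β u ≠ u)
  symm := ⟨by
    rintro u v (⟨h, h'⟩ | ⟨h, h'⟩)
    · left; rw [h, hα]; exact ⟨rfl, h'.symm⟩
    · right; rw [h, hβ]; exact ⟨rfl, h'.symm⟩⟩
  loopless := ⟨by
    rintro u (⟨h, h'⟩ | ⟨h, h'⟩)
    · exact h' h.symm
    · exact h' h.symm⟩

theorem HU_ncard {V : Type} (α β : V → V) (hα : ∀ v, α (α v) = v) (hβ : ∀ v, β (β v) = v)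
    (hne : ∀ v, α v ≠ β v) (v : V) :
    ((α v = v ∨ β v = v) → ((HU α β hα hβ).neighborSet v).ncard = 1) ∧
      (¬ (α v = v ∨ β v = v) → ((HU α β hα hβ).neighborSet v).ncard = 2) := by
  have hadj : ∀ u, u ∈ (HU α β hα hβ).neighborSet v ↔
      (u = α v ∧ α v ≠ v) ∨ (u = β v ∧ β v ≠ v) := fun u => Iff.rfl
  constructor
  · rintro (h | h)
    · have h2 : β v ≠ v := fun h2 => hne v (by rw [h, h2])
      have : (HU α β hα hβ).neighborSet v = {β v} := by
        ext u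
        rw [hadj, Set.mem_singleton_iff]
        simp [h, h2]
      rw [this, Set.ncard_singleton]
    · have h2 : α v ≠ v := fun h2 => hne v (by rw [h, h2])
      have : (HU α β hα hβ).neighborSet v = {α v} := by
        ext u
        rw [hadj, Set.mem_singleton_iff]
        simp [h, h2]
      rw [this, Set.ncard_singleton]
  · intro h
    have h1 : α v ≠ v := fun h1 => h (Or.inl h1)
    have h2 : β v ≠ v := fun h2 => h (Or.inr h2)
    have : (HU α β hα hβ).neighborSet v = {α v, β v} := by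
      ext u
      rw [hadj, Set.mem_insert_iff, Set.mem_singleton_iff]
      simp [h1, h2]
    rw [this, Set.ncard_pair (hne v)]

variable {V : Type} [Fintype V] [DecidableEq V]

theorem gadgets_x {G : SimpleGraph V} [DecidableRel G.Adj]
    (h3 : ∀ v, G.degree v = 3) (μ ν : V → V) (hμ : ∀ v, μ (μ v) = v) (hν : ∀ v, ν (ν v) = v)
    (hμa : ∀ v, G.Adj v (μ v)) (hνa : ∀ v, ν v ≠ v → G.Adj v (ν v)) (hne : ∀ v, μ v ≠ ν v)
    (a : ℕ) {Γ : Type} [Fintype Γ] [DecidableEq Γ] (P : Γ → ℕ → V)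
    (hP : ∀ g, GPath G μ ν a (P g))
    (hinj : ∀ g i g' i', i ≤ 10 * a + 7 → i' ≤ 10 * a + 7 → P g i = P g' i' → g = g' ∧ i = i') :
    ∃ (H : SimpleGraph V) (m : ℕ) (p q : Fin m → V), H ≤ G ∧ (∀ t, ν t = t → H.Adj t (μ t)) ∧
      (∀ v, (H.neighborSet v).ncard =
        if (ν v = v ∨ ∃ g, ∃ i ∈ gidx a, v = P g i) then 1 else 2) ∧
      Function.Injective p ∧ Function.Injective q ∧ (∀ i j, p i ≠ q j) ∧
      (∀ v, ((∃ j, p j = v) ∨ ∃ j, q j = v) ↔ (ν v = v ∨ ∃ g, v = P g 0 ∨ v = P g (10 * a + 7))) ∧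
      (∀ (X : Finset V) (J : Finset (Fin m)), (∀ j ∈ J, ¬ (p j ∈ X ↔ q j ∈ X)) →
        J.card ≤ dd G X) ∧
      ∀ (ε : Fin m → ℤ) (η₁ η₂ : Γ → ℤ), (∀ j, ε j = 1 ∨ ε j = -1) →
        (∀ g, η₁ g = 1 ∨ η₁ g = -1) → (∀ g, η₂ g = 1 ∨ η₂ g = -1) →
        ∃ x : V → ℤ, (∀ v, x v = 1 ∨ x v = -1) ∧ (∀ u v, H.Adj u v → x u = - x v) ∧
          (∀ j, x (p j) = ε j ∧ x (q j) = - ε j) ∧
          ∀ g, x (P g (2 * a + 1)) = η₁ g ∧ x (P g (4 * a + 3)) = η₁ g ∧
            x (P g (6 * a + 4)) = η₂ g ∧ x (P g (8 * a + 6)) = η₂ g := by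
  classical
  obtain ⟨α, β, a1, b1, a2, b2, hab, fa, fb, ta, tb, tc⟩ :=
    exists_ab μ ν hμ hν hμa hνa hne a P hP hinj
  have hTle : ∀ i, ShortIdx a i → i ≤ 10 * a + 7 := by
    intro i hi
    unfold ShortIdx at hi
    omega
  -- the vertices of the short strands
  let Z : V → Prop := fun v => ∃ g i, ShortIdx a i ∧ v = P g i
  have Zα : ∀ v, Z v → Z (α v) := by
    rintro v ⟨g, i, hi, rfl⟩
    refine ⟨g, _, ?_, ta g i hi⟩
    unfold ShortIdx at hi ⊢
    split_ifs <;> omega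
  have Zβ : ∀ v, Z v → Z (β v) := by
    rintro v ⟨g, i, hi, rfl⟩
    refine ⟨g, _, ?_, tb g i hi⟩
    unfold ShortIdx at hi ⊢
    split_ifs <;> omega
  have Wα : ∀ v, ¬ Z v → ¬ Z (α v) := fun v hv h => hv (by have := Zα _ h; rwa [a1] at this)
  have Wβ : ∀ v, ¬ Z v → ¬ Z (β v) := fun v hv h => hv (by have := Zβ _ h; rwa [b1] at this)
  have hWα : ∀ v, ¬ Z v → α v ≠ v := by
    intro v hv h
    obtain ⟨g, h1 | h1⟩ := (fa v).1 h
    · exact hv ⟨g, 4 * a + 3, Or.inl ⟨by omega, by omega⟩, h1⟩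
    · exact hv ⟨g, 6 * a + 4, Or.inr ⟨by omega, by omega⟩, h1⟩
  have hWβ : ∀ v, ¬ Z v → (β v = v ↔ ν v = v ∨ ∃ g, v = P g 0 ∨ v = P g (10 * a + 7)) := by
    intro v hv
    rw [fb v]
    constructor
    · rintro (h | ⟨g, h | h | h | h⟩)
      · exact Or.inl h
      · exact Or.inr ⟨g, Or.inl h⟩
      · exact absurd ⟨g, 2 * a + 1, Or.inl ⟨by omega, by omega⟩, h⟩ hv
      · exact absurd ⟨g, 8 * a + 6, Or.inr ⟨by omega, by omega⟩, h⟩ hv
      · exact Or.inr ⟨g, Or.inr h⟩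
    · rintro (h | ⟨g, h | h⟩)
      · exact Or.inl h
      · exact Or.inr ⟨g, Or.inl h⟩
      · exact Or.inr ⟨g, Or.inr (Or.inr (Or.inr h))⟩
  have hZends : ∀ v, (ν v = v ∨ ∃ g, v = P g 0 ∨ v = P g (10 * a + 7)) → ¬ Z v := by
    rintro v hv ⟨g', i, hi, rfl⟩
    have hi' := hTle i hi
    rcases hv with h | ⟨g, h | h⟩
    · exact (hP g').fix i hi' h
    · obtain ⟨-, rfl⟩ := hinj _ _ _ _ hi' (by omega) h
      unfold ShortIdx at hi
      omega
    · obtain ⟨-, rfl⟩ := hinj _ _ _ _ hi' (by omega) h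
      unfold ShortIdx at hi
      omega
  let W := {v : V // ¬ Z v}
  let α' : W → W := fun w => ⟨α w.1, Wα _ w.2⟩
  let β' : W → W := fun w => ⟨β w.1, Wβ _ w.2⟩
  let G' : SimpleGraph W := G.comap Subtype.val
  have hβ' : ∀ w : W, β' w = w ↔ β w.1 = w.1 := fun w => by
    constructor
    · intro h
      exact congrArg Subtype.val h
    · intro h
      exact Subtype.ext h
  obtain ⟨m, p, q, p1, p2, p3, p4, p5, p6⟩ := pair_sign (G := G') α' β'
    (fun w => Subtype.ext (a1 w.1)) (fun w => Subtype.ext (b1 w.1))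
    (fun w => a2 w.1 (hWα _ w.2))
    (fun w hw => b2 w.1 fun h => hw ((hβ' w).2 h))
    (fun w h => hab w.1 (congrArg Subtype.val h))
  refine ⟨HU α β a1 b1, m, fun j => (p j).1, fun j => (q j).1, ?_, fun t ht => ?_, fun v => ?_,
    fun i j h => p1 (Subtype.ext h), fun i j h => p2 (Subtype.ext h),
    fun i j h => p3 i j (Subtype.ext h), fun v => ?_, fun X J hJ => ?_,
    fun ε η₁ η₂ hε hη₁ hη₂ => ?_⟩
  · rintro u v (⟨rfl, h⟩ | ⟨rfl, h⟩)
    · exact a2 u h
    · exact b2 u h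
  · have h1 := hWα t (hZends t (Or.inl ht))
    exact Or.inl ⟨(tc t ht).symm, h1⟩
  · have hiff : (ν v = v ∨ ∃ g, ∃ i ∈ gidx a, v = P g i) ↔ (α v = v ∨ β v = v) := by
      rw [fa, fb]
      simp only [gidx, mem_insert, mem_singleton]
      constructor
      · rintro (h | ⟨g, i, hi, rfl⟩)
        · exact Or.inr (Or.inl h)
        · rcases hi with rfl | rfl | rfl | rfl | rfl | rfl
          · exact Or.inr (Or.inr ⟨g, Or.inl rfl⟩)
          · exact Or.inr (Or.inr ⟨g, Or.inr (Or.inl rfl)⟩)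
          · exact Or.inl ⟨g, Or.inl rfl⟩
          · exact Or.inl ⟨g, Or.inr rfl⟩
          · exact Or.inr (Or.inr ⟨g, Or.inr (Or.inr (Or.inl rfl))⟩)
          · exact Or.inr (Or.inr ⟨g, Or.inr (Or.inr (Or.inr rfl))⟩)
      · rintro (⟨g, h | h⟩ | h | ⟨g, h | h | h | h⟩)
        · exact Or.inr ⟨g, 4 * a + 3, by simp, h⟩
        · exact Or.inr ⟨g, 6 * a + 4, by simp, h⟩
        · exact Or.inl h
        · exact Or.inr ⟨g, 0, by simp, h⟩
        · exact Or.inr ⟨g, 2 * a + 1, by simp, h⟩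
        · exact Or.inr ⟨g, 8 * a + 6, by simp, h⟩
        · exact Or.inr ⟨g, 10 * a + 7, by simp, h⟩
    by_cases h : ν v = v ∨ ∃ g, ∃ i ∈ gidx a, v = P g i
    · rw [if_pos h]
      exact (HU_ncard α β a1 b1 hab v).1 (hiff.1 h)
    · rw [if_neg h]
      exact (HU_ncard α β a1 b1 hab v).2 fun h' => h (hiff.2 h')
  · constructor
    · rintro (⟨j, rfl⟩ | ⟨j, rfl⟩)
      · exact (hWβ _ (p j).2).1 ((hβ' _).1 ((p4 (p j)).1 (Or.inl ⟨j, rfl⟩)))
      · exact (hWβ _ (q j).2).1 ((hβ' _).1 ((p4 (q j)).1 (Or.inr ⟨j, rfl⟩)))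
    · intro h
      have hZ := hZends v h
      rcases (p4 ⟨v, hZ⟩).2 ((hβ' _).2 ((hWβ v hZ).2 h)) with ⟨j, hj⟩ | ⟨j, hj⟩
      · exact Or.inl ⟨j, congrArg Subtype.val hj⟩
      · exact Or.inr ⟨j, congrArg Subtype.val hj⟩
  · refine (p5 (univ.filter fun w : W => w.1 ∈ X) J fun j hj => ?_).trans ?_
    · simpa using hJ j hj
    · unfold dd
      refine card_le_card_of_injOn (fun e : W × W => (e.1.1, e.2.1)) (fun e he => ?_) ?_
      · rw [mem_coe, mem_cut] at he ⊢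
        simp only [mem_filter, mem_univ, true_and] at he
        exact he
      · rintro ⟨u, v⟩ _ ⟨u', v'⟩ _ h
        simp only [Prod.mk.injEq] at h
        exact Prod.ext (Subtype.ext h.1) (Subtype.ext h.2)
  · obtain ⟨x, x1, x2, x3, x4⟩ := p6 ε hε
    obtain ⟨y, y1, y2⟩ := exists_lift (fun v => if h : Z v then (1 : ℤ) else x ⟨v, h⟩) P
      (10 * a + 7) hinj (ShortIdx a) hTle (fun g i => if i ≤ 4 * a + 3 then
        (if i % 2 = 1 then η₁ g else - η₁ g) else (if i % 2 = 0 then η₂ g else - η₂ g))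
    have y3 : ∀ w : W, y w.1 = x w := by
      intro w
      rw [y2 w.1 fun g i hi he => w.2 ⟨g, i, hi, he⟩, dif_neg w.2]
    have halt : ∀ v, (α v ≠ v → y v = - y (α v)) ∧ (β v ≠ v → y v = - y (β v)) := by
      intro v
      by_cases hv : Z v
      · obtain ⟨g, i, hi, rfl⟩ := hv
        have hi' := hi
        unfold ShortIdx at hi'
        constructor
        · intro h
          rw [ta g i hi] at h ⊢
          by_cases h1 : i = 4 * a + 3 ∨ i = 6 * a + 4
          · rw [if_pos h1] at h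
            exact absurd rfl h
          · rw [if_neg h1] at h ⊢
            rw [y1 g i hi, y1 g]
            · split_ifs <;> omega
            · unfold ShortIdx
              split_ifs <;> omega
        · intro h
          rw [tb g i hi] at h ⊢
          by_cases h1 : i = 2 * a + 1 ∨ i = 8 * a + 6
          · rw [if_pos h1] at h
            exact absurd rfl h
          · rw [if_neg h1] at h ⊢
            rw [y1 g i hi, y1 g]
            · split_ifs <;> omega
            · unfold ShortIdx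
              split_ifs <;> omega
      · constructor
        · intro _
          rw [y3 ⟨v, hv⟩, y3 (α' ⟨v, hv⟩), x2]
          ring
        · intro h
          rw [y3 ⟨v, hv⟩, y3 (β' ⟨v, hv⟩), x3 _ fun h' => h ((hβ' _).1 h')]
          ring
    refine ⟨y, fun v => ?_, ?_, fun j => ⟨?_, ?_⟩, fun g => ⟨?_, ?_, ?_, ?_⟩⟩
    · by_cases hv : Z v
      · obtain ⟨g, i, hi, rfl⟩ := hv
        rw [y1 g i hi]
        have e1 := hη₁ g
        have e2 := hη₂ g
        split_ifs <;> omega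
      · rw [y3 ⟨v, hv⟩]
        exact x1 _
    · rintro u v (⟨rfl, h⟩ | ⟨rfl, h⟩)
      · exact (halt u).1 h
      · exact (halt u).2 h
    · rw [y3, (x4 j).1]
    · rw [y3, (x4 j).2]
    · rw [y1 g _ (Or.inl ⟨by omega, by omega⟩), if_pos (by omega), if_pos (by omega)]
    · rw [y1 g _ (Or.inl ⟨by omega, by omega⟩), if_pos (by omega), if_pos (by omega)]
    · rw [y1 g _ (Or.inr ⟨by omega, by omega⟩), if_neg (by omega), if_pos (by omega)]
    · rw [y1 g _ (Or.inr ⟨by omega, by omega⟩), if_neg (by omega), if_pos (by omega)]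

theorem gadgets {G : SimpleGraph V} [DecidableRel G.Adj]
    (h3 : ∀ v, G.degree v = 3) (μ ν : V → V) (hμ : ∀ v, μ (μ v) = v) (hν : ∀ v, ν (ν v) = v)
    (hμa : ∀ v, G.Adj v (μ v)) (hνa : ∀ v, ν v ≠ v → G.Adj v (ν v)) (hne : ∀ v, μ v ≠ ν v)
    (a : ℕ) {Γ : Type} [Fintype Γ] [DecidableEq Γ] (P : Γ → ℕ → V)
    (hP : ∀ g, GPath G μ ν a (P g))
    (hinj : ∀ g i g' i', i ≤ 10 * a + 7 → i' ≤ 10 * a + 7 → P g i = P g' i' → g = g' ∧ i = i') :
    ∃ (H : SimpleGraph V) (m : ℕ) (p q : Fin m → V), H ≤ G ∧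
      (∀ v, (H.neighborSet v).ncard =
        if (ν v = v ∨ ∃ g, ∃ i ∈ gidx a, v = P g i) then 1 else 2) ∧
      Function.Injective p ∧ Function.Injective q ∧ (∀ i j, p i ≠ q j) ∧
      (∀ v, ((∃ j, p j = v) ∨ ∃ j, q j = v) ↔ (ν v = v ∨ ∃ g, v = P g 0 ∨ v = P g (10 * a + 7))) ∧
      (∀ (X : Finset V) (J : Finset (Fin m)), (∀ j ∈ J, ¬ (p j ∈ X ↔ q j ∈ X)) →
        J.card ≤ dd G X) ∧
      ∀ (ε : Fin m → ℤ) (η₁ η₂ : Γ → ℤ), (∀ j, ε j = 1 ∨ ε j = -1) →
        (∀ g, η₁ g = 1 ∨ η₁ g = -1) → (∀ g, η₂ g = 1 ∨ η₂ g = -1) →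
        ∃ x : V → ℤ, (∀ v, x v = 1 ∨ x v = -1) ∧ (∀ u v, H.Adj u v → x u = - x v) ∧
          (∀ j, x (p j) = ε j ∧ x (q j) = - ε j) ∧
          ∀ g, x (P g (2 * a + 1)) = η₁ g ∧ x (P g (4 * a + 3)) = η₁ g ∧
            x (P g (6 * a + 4)) = η₂ g ∧ x (P g (8 * a + 6)) = η₂ g := by
  obtain ⟨H, m, p, q, h1, -, h2⟩ := gadgets_x h3 μ ν hμ hν hμa hνa hne a P hP hinj
  exact ⟨H, m, p, q, h1, h2⟩

end

end Pool.Agent.K5
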