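import Mathlib
import Pool.Agent.Work.MP_974d84_co_k5.GirRed
import Pool.Agent.Work.MP_974d84_co_k5.KerMain

/-!
# A highly connected part inside every set with small boundary and large girth
-/

set_option linter.unusedSectionVars false

namespace Pool.Agent.K5.Loc

open Finset SimpleGraph Pool.Agent.Exp Pool.Agent.Log5 Pool.Agent.Log5.Clu Pool.Agent.K5
open Pool.Agent.K5.Parts Pool.Agent.K5.Ker

/-- **A highly connected part inside every set with small boundary and large girth.** -/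
theorem exists_part (K b : ℕ) : ∃ g : ℕ, 2 ≤ g ∧ ∀ {V : Type} [Fintype V] [DecidableEq V]
    (G : SimpleGraph V) [DecidableRel G.Adj], (∀ v, G.degree v = 3) → ∀ Q : Finset V,
    dd G Q ≤ b → ¬ (G.induce (Q : Set V)).IsAcyclic →
    (∀ A ⊆ Q, A.card ≤ g → (G.induce (A : Set V)).IsAcyclic) →
    ∃ P ⊆ Q, ¬ (G.induce (P : Set V)).IsAcyclic ∧ g < P.card ∧
      (G.induce (P : Set V)).Connected ∧ dd G P ≤ g ∧ FarB G K P ∧
      (∀ A ⊆ P, A.card < K → (G.induce (A : Set V)).IsAcyclic) ∧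
      ∀ Y ⊆ P, ¬ (G.induce (Y : Set V)).IsAcyclic →
        ¬ (G.induce ((P \ Y : Finset V) : Set V)).IsAcyclic → K ≤ ee G Y (P \ Y) := by
  obtain ⟨D, hD⟩ : ∃ D, D = K + 1 := ⟨_, rfl⟩
  obtain ⟨b', hb'⟩ : ∃ b', b' = b + 4 * ((D + 4) * D) := ⟨_, rfl⟩
  obtain ⟨g, hg⟩ : ∃ g, g = 10 * ((D + 4) * b') + 2 * D + K + 2 := ⟨_, rfl⟩
  refine ⟨g, by omega, ?_⟩
  intro V _ _ G _ h3 Q hQb hQc hQg
  classical
  -- a minimal set
  obtain ⟨P₀, hP₀, hmin⟩ := (Q.powerset.filter fun A : Finset V =>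
    ¬ (G.induce (A : Set V)).IsAcyclic ∧ dd G A ≤ b').exists_min_image (fun A : Finset V => A.card)
    ⟨Q, mem_filter.2 ⟨mem_powerset_self Q, hQc, by omega⟩⟩
  rw [mem_filter, mem_powerset] at hP₀
  obtain ⟨hPQ, hPc, hPb⟩ := hP₀
  have hPm : ∀ A ⊆ P₀, A ≠ P₀ → ¬ (G.induce (A : Set V)).IsAcyclic → b' < dd G A := by
    intro A hA hne hAc
    by_contra hle
    have h1 := hmin A (mem_filter.2 ⟨mem_powerset.2 (hA.trans hPQ), hAc, not_lt.1 hle⟩)
    exact hne (eq_of_subset_of_card_le hA h1)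
  obtain ⟨X, hXP, hXc, hXd, hXf, hXk⟩ := core_loc (G := G) D D b'
    (10 * ((D + 4) * b') + D) (10 * ((D + 4) * b') + 2 * D) h3 hPc hPb hPm (by omega) le_rfl
    (fun U hU hUc => by
      rcases U.eq_empty_or_nonempty with rfl | hne
      · simp
      · have h1 := dd_of_acyclic G h3 hne (hQg U (hU.trans hPQ) (by omega))
        have h2 : (D + 4) * U.card ≤ (D + 4) * dd G U := Nat.mul_le_mul_left _ (by omega)
        omega) le_rfl
    (fun A hA hAc => hQg A (hA.trans hPQ) (by omega))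
  have hXQ := hXP.trans hPQ
  refine ⟨X, hXQ, hXc, ?_, far_conn h3 (by omega) (by omega) hXf (ne_of_cyc hXc) hXk, by omega,
    hXf.mono (by omega), fun A hA hAc => hQg A (hA.trans hXQ) (by omega),
    fun Y hY h1 h2 => (by omega : K ≤ D).trans (hXk Y hY h1 h2)⟩
  by_contra hle
  exact hXc (hQg X hXQ (not_lt.1 hle))

end Pool.Agent.K5.Loc
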