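import Mathlib
import Pool.Agent.Work.MP_974d84_co_k5.GirRedPart
import Pool.Agent.Work.MP_974d84_co_k5.GirRedIff
import Pool.Agent.Work.MP_974d84_co_k5.HandInEC

/-!
# Contractible parts of cubic graphs of large girth, final form
-/

set_option linter.unusedSectionVars false

namespace Pool.Agent.K5.Loc

open Finset SimpleGraph Pool.Agent.Exp Pool.Agent.Log5 Pool.Agent.Log5.Clu Pool.Agent.K5
open Pool.Agent.K5.Parts Pool.Agent.K5.Con Pool.Agent.K5.Ker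

/-- **Contractible parts of cubic graphs of large girth.** -/
theorem gir_form_b (s : ℝ) (hs : 4 < s) (b : ℕ) : ∃ g : ℕ,
    ∀ (V : Type) [Fintype V] [DecidableEq V] (G : SimpleGraph V) [DecidableRel G.Adj],
    G.IsRegularOfDegree 3 → ∀ Q : Finset V, (G.interedges Q Qᶜ).card ≤ b →
    ¬ (G.induce (Q : Set V)).IsAcyclic → (g : ℕ∞) < (G.induce (Q : Set V)).egirth →
    ∃ P ⊆ Q, g < P.card ∧ (G.induce (P : Set V)).Connected ∧ (G.interedges P Pᶜ).card ≤ g ∧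
    ∀ r : ℝ, s ≤ r →
    (∀ f₀ : V → V → ℝ, (∀ u v, f₀ u v = - f₀ v u) →
      (∀ u v, ¬ (G.Adj u v ∧ ¬ (u ∈ P ∧ v ∈ P)) → f₀ u v = 0) →
      (∀ u v, G.Adj u v → ¬ (u ∈ P ∧ v ∈ P) → 1 ≤ |f₀ u v| ∧ |f₀ u v| ≤ r - 1) →
      (∀ v, v ∉ P → ∃ k : ℤ, ∑ u, f₀ v u = r * k) →
      ∃ f : V → V → ℝ, (∀ u v, f u v = - f v u) ∧ (∀ u v, ¬ G.Adj u v → f u v = 0) ∧
        (∀ u v, G.Adj u v → 1 ≤ |f u v| ∧ |f u v| ≤ r - 1) ∧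
        (∀ v, ∃ k : ℤ, ∑ u, f v u = r * k) ∧
        (∀ u v, ¬ (u ∈ P ∧ v ∈ P) → f u v = f₀ u v) ∧
        ((∃ R : ℤ, r = R) → (∀ u v, ∃ m : ℤ, f₀ u v = m) → ∀ u v, ∃ m : ℤ, f u v = m)) ∧
    ((∃ f : V → V → ℝ, (∀ u v, f u v = - f v u) ∧ (∀ u v, ¬ G.Adj u v → f u v = 0) ∧
        (∀ u v, G.Adj u v → 1 ≤ |f u v| ∧ |f u v| ≤ r - 1) ∧ ∀ v, ∑ u, f v u = 0) ↔
      ∃ f₀ : V → V → ℝ, (∀ u v, f₀ u v = - f₀ v u) ∧
        (∀ u v, ¬ (G.Adj u v ∧ ¬ (u ∈ P ∧ v ∈ P)) → f₀ u v = 0) ∧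
        (∀ u v, G.Adj u v → ¬ (u ∈ P ∧ v ∈ P) → 1 ≤ |f₀ u v| ∧ |f₀ u v| ≤ r - 1) ∧
        ∀ v, v ∉ P → ∑ u, f₀ v u = 0) := by
  obtain ⟨K, hK⟩ := flow_ext hs
  obtain ⟨g, -, hg⟩ := exists_part K b
  refine ⟨g, fun V _ _ G _ h3 Q hQb hQc hQg => ?_⟩
  have hQg' : ((g + 1 : ℕ) : ℕ∞) ≤ (G.induce (Q : Set V)).egirth := by
    have := Order.add_one_le_of_lt hQg
    exact_mod_cast this
  obtain ⟨P, hPQ, hPc, hPg, hPconn, hPd, hPf, hPa, hPk⟩ := hg G h3 Q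
    (by rw [← dd_interedges]; exact hQb) hQc
    (fun A hA hAc => Re.acyclic_of_egirth hQg' A hA (by omega))
  refine ⟨P, hPQ, hPg, hPconn, by rw [dd_interedges]; exact hPd, fun r hr => ?_⟩
  have H := hK G h3 P hPf hPa hPk r hr
  refine ⟨H, circ_iff (by linarith) fun z h1 h2 h4 h5 => ?_⟩
  obtain ⟨f, f1, f2, f4, f5, -⟩ := H z h1 h2 h4 h5
  exact ⟨f, f1, f2, f4, f5⟩

end Pool.Agent.K5.Loc
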