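import Mathlib
import Pool.Agent.Work.MP_974d84_co_k5.GirRedPart

/-!
# A highly connected part inside every large set with small boundary and few disjoint short circuits
-/

set_option linter.unusedSectionVars false

namespace Pool.Agent.K5.Loc

open Finset SimpleGraph Pool.Agent.Exp Pool.Agent.Log5 Pool.Agent.Log5.Clu Pool.Agent.K5
open Pool.Agent.K5.Parts Pool.Agent.K5.Ker

/-- The lengths of the circuits. -/
def scale (g : ℕ → ℕ) (b t : ℕ) : ℕ → ℕ
  | 0 => 0
  | i + 1 => scale g b t i + g (b + 3 * (t * scale g b t i))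

theorem scale_mono (g : ℕ → ℕ) (b t : ℕ) : Monotone (scale g b t) :=
  monotone_nat_of_le_succ fun i => by
    show scale g b t i ≤ scale g b t i + _
    omega

/-- **A highly connected part inside every large set with small boundary and without many disjoint
short circuits.** -/
theorem exists_part_many (K b t : ℕ) : ∃ N : ℕ, ∀ {V : Type} [Fintype V] [DecidableEq V]
    (G : SimpleGraph V) [DecidableRel G.Adj], (∀ v, G.degree v = 3) → ∀ Q : Finset V,
    dd G Q ≤ b → N < Q.card →
    (¬ ∃ X : Fin t → Finset V, (∀ i j, i ≠ j → Disjoint (X i) (X j)) ∧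
      ∀ i, X i ⊆ Q ∧ ¬ (G.induce (X i : Set V)).IsAcyclic ∧ (X i).card ≤ N) →
    ∃ P ⊆ Q, ¬ (G.induce (P : Set V)).IsAcyclic ∧ (G.induce (P : Set V)).Connected ∧
      dd G P ≤ N ∧ FarB G K P ∧ (∀ A ⊆ P, A.card < K → (G.induce (A : Set V)).IsAcyclic) ∧
      ∀ Y ⊆ P, ¬ (G.induce (Y : Set V)).IsAcyclic →
        ¬ (G.induce ((P \ Y : Finset V) : Set V)).IsAcyclic → K ≤ ee G Y (P \ Y) := by
  choose g hg2 hg using fun c => exists_part K c
  obtain ⟨H, hH⟩ : ∃ H, H = scale g b t := ⟨_, rfl⟩
  have hmono : Monotone H := hH ▸ scale_mono g b t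
  obtain ⟨N, hN⟩ : ∃ N, N = H t + (b + 3 * (t * H t)) + t * H t + 2 := ⟨_, rfl⟩
  refine ⟨N, ?_⟩
  intro V _ _ G _ h3 Q hQb hQc hQX
  classical
  by_contra hcon
  have key : ∀ i ≤ t, ∃ X : Fin i → Finset V, (∀ j k, j ≠ k → Disjoint (X j) (X k)) ∧
      ∀ j, X j ⊆ Q ∧ ¬ (G.induce (X j : Set V)).IsAcyclic ∧ (X j).card ≤ H i := by
    intro i
    induction i with
    | zero => exact fun _ => ⟨fun _ => ∅, fun j => j.elim0, fun j => j.elim0⟩
    | succ i ih =>
      intro hi
      obtain ⟨X, hXd, hX⟩ := ih (by omega)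
      set U : Finset V := univ.biUnion X with hU
      have hUQ : U ⊆ Q := biUnion_subset.2 fun j _ => (hX j).1
      have hHi : H i ≤ H t := hmono (by omega)
      have hUc : U.card ≤ t * H i := by
        calc U.card ≤ ∑ j, (X j).card := card_biUnion_le
          _ ≤ ∑ _j : Fin i, H i := sum_le_sum fun j _ => (hX j).2.2
          _ = i * H i := by simp
          _ ≤ t * H i := Nat.mul_le_mul_right _ (by omega)
      have htH : t * H i ≤ t * H t := Nat.mul_le_mul_left _ hHi
      have hd : dd G (Q \ U) ≤ b + 3 * (t * H i) := by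
        have h1 := bead_sdiff (G := G) hUQ
        have h2 := dd_add_inside G h3 U
        omega
      have hQU : (Q \ U).card + U.card = Q.card := card_sdiff_add_card_eq_card hUQ
      have hHs : H (i + 1) = H i + g (b + 3 * (t * H i)) := by rw [hH]; rfl
      by_cases hA : ∃ A ⊆ Q \ U, ¬ (G.induce (A : Set V)).IsAcyclic ∧
          A.card ≤ g (b + 3 * (t * H i))
      · obtain ⟨A, hAQ, hAc, hAg⟩ := hA
        have hAd : ∀ j, Disjoint A (X j) := fun j =>
          (disjoint_sdiff.symm : Disjoint (Q \ U) U).mono hAQ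
            (subset_biUnion_of_mem X (mem_univ j))
        refine ⟨Fin.cons A X, ?_, ?_⟩
        · intro j k hjk
          rcases Fin.eq_zero_or_eq_succ j with rfl | ⟨j, rfl⟩ <;>
            rcases Fin.eq_zero_or_eq_succ k with rfl | ⟨k, rfl⟩
          · exact absurd rfl hjk
          · simpa only [Fin.cons_zero, Fin.cons_succ] using hAd k
          · simpa only [Fin.cons_zero, Fin.cons_succ] using (hAd j).symm
          · simpa only [Fin.cons_succ] using hXd j k (fun h => hjk (by rw [h]))
        · intro j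
          rcases Fin.eq_zero_or_eq_succ j with rfl | ⟨j, rfl⟩
          · simp only [Fin.cons_zero]
            exact ⟨hAQ.trans sdiff_subset, hAc, by omega⟩
          · simp only [Fin.cons_succ]
            obtain ⟨h1, h2, h4⟩ := hX j
            exact ⟨h1, h2, by omega⟩
      · exfalso
        push Not at hA
        have hA' : ∀ A ⊆ Q \ U, A.card ≤ g (b + 3 * (t * H i)) →
            (G.induce (A : Set V)).IsAcyclic := by
          intro A hAQ hAc
          by_contra h
          exact absurd (hA A hAQ h) (not_lt.2 hAc)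
        have hgN : g (b + 3 * (t * H i)) ≤ N := by
          have h1 : H (i + 1) ≤ H t := hmono hi
          omega
        have hcyc : ¬ (G.induce ((Q \ U : Finset V) : Set V)).IsAcyclic := by
          intro hac
          rcases (Q \ U).eq_empty_or_nonempty with he | hne
          · rw [he, card_empty] at hQU
            omega
          · have h4 := dd_of_acyclic G h3 hne hac
            omega
        obtain ⟨P, hPQ, hPc, hPg, hPconn, hPd, hPf, hPa, hPk⟩ :=
          hg _ G h3 (Q \ U) hd hcyc hA'
        exact hcon ⟨P, hPQ.trans sdiff_subset, hPc, hPconn, hPd.trans hgN, hPf, hPa, hPk⟩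
  obtain ⟨X, hXd, hX⟩ := key t le_rfl
  exact hQX ⟨X, hXd, fun j => ⟨(hX j).1, (hX j).2.1, (hX j).2.2.trans (by omega)⟩⟩

end Pool.Agent.K5.Loc
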