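import Pool.Agent.Work.MP_974d84_co_k5.DefsGl
import Pool.Agent.Work.MP_974d84_co_k5.CutInd

/-!
# Gluing, G5: bonds suffice
-/

set_option linter.unusedSectionVars false

namespace Pool.Agent.K5.Gl

open Finset SimpleGraph Pool.Agent.Exp Pool.Agent.K5

/-- G5. -/
theorem bond_red {V : Type} [Fintype V] [DecidableEq V] (G : SimpleGraph V) [DecidableRel G.Adj]
    (Q : Finset V) (hQ : Joined G Q) (ρ : V → ℝ) (h0 : ∑ v ∈ Q, ρ v = 0) {c : ℝ} (hc : 0 ≤ c)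
    (h : ∀ Z ⊆ Q, Z.Nonempty → (Q \ Z).Nonempty → Joined G Z → Joined G (Q \ Z) →
      |∑ v ∈ Z, ρ v| ≤ c * ee G Z (Q \ Z)) (S : Finset V) (hS : S ⊆ Q) :
    |∑ v ∈ S, ρ v| ≤ c * ee G S (Q \ S) := by
  refine CutInd.cut_ind (G := G) (Subset.refl Q) (Q := fun S => |∑ v ∈ S, ρ v| ≤ c * ee G S (Q \ S))
    ?_ ?_ ?_ ?_ ?_ ?_ S hS
  · intro S hS hne hne'
    obtain ⟨x, hx, y, hy, hyS, hxy⟩ := hQ S hS hne (by
      rintro rfl
      simp at hne')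
    exact ⟨x, hx, y, mem_sdiff.2 ⟨hy, hyS⟩, hxy⟩
  · simp only [sum_empty, abs_zero]
    positivity
  · intro _
    rw [h0, abs_zero]
    positivity
  · intro Z hZ
    exact h Z hZ.sub hZ.ne hZ.ne' hZ.joined hZ.modj
  · intro A B hA hB hd hno h1 h2
    rw [sum_union hd, CutInd.cut_add hd hA hB hno]
    push_cast
    have := abs_add_le (∑ v ∈ A, ρ v) (∑ v ∈ B, ρ v)
    linarith [mul_add c (ee G A (Q \ A) : ℝ) (ee G B (Q \ B) : ℝ)]
  · intro A B hA hB hno h1 h2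
    have e : ∑ v ∈ A \ B, ρ v = ∑ v ∈ A, ρ v - ∑ v ∈ B, ρ v := by
      rw [← sum_sdiff hB]
      ring
    rw [e, CutInd.cut_sub hA hB hno]
    push_cast
    have := abs_sub (∑ v ∈ A, ρ v) (∑ v ∈ B, ρ v)
    linarith [mul_add c (ee G A (Q \ A) : ℝ) (ee G B (Q \ B) : ℝ)]

end Pool.Agent.K5.Gl
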