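import Pool.Agent.Work.MP_974d84_co_k5.DefsGl
import Pool.Agent.Work.MP_974d84_co_log.Tree

/-!
# Gluing, G1: cycles and sets of minimum degree two
-/

set_option linter.unusedSectionVars false

namespace Pool.Agent.K5.Gl

open Finset SimpleGraph Pool.Agent.Exp Pool.Agent.K5 Pool.Agent.Log5

/-- G1. -/
theorem cyc_iff {V : Type} [Fintype V] [DecidableEq V] (G : SimpleGraph V) [DecidableRel G.Adj]
    (X : Finset V) : Cyc G X ↔ ∃ A ⊆ X, A.Nonempty ∧ ∀ v ∈ A, 2 ≤ dg G A v := by
  classical
  constructor
  · intro h
    unfold Cyc SimpleGraph.IsAcyclic at h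
    push Not at h
    obtain ⟨r, c, hc⟩ := h
    refine ⟨c.support.toFinset.image Subtype.val, ?_, ⟨r.1, mem_image_of_mem _
      (List.mem_toFinset.2 c.start_mem_support)⟩, ?_⟩
    · intro x hx
      obtain ⟨y, _, rfl⟩ := mem_image.1 hx
      exact y.2
    · intro v hv
      obtain ⟨w, hw, rfl⟩ := mem_image.1 hv
      have hw' := List.mem_toFinset.1 hw
      have h2 := hc.ncard_neighborSet_toSubgraph_eq_two hw'
      have h3 : (c.toSubgraph.neighborSet w).ncard =
          (Subtype.val '' (c.toSubgraph.neighborSet w)).ncard :=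
        (Set.ncard_image_of_injective _ Subtype.val_injective).symm
      rw [h3] at h2
      unfold dg
      rw [← h2, ← Set.ncard_coe_finset]
      refine Set.ncard_le_ncard ?_ (Set.toFinite _)
      rintro _ ⟨y, hy, rfl⟩
      rw [mem_coe, mem_filter]
      have hy1 : c.toSubgraph.Adj w y := hy
      refine ⟨mem_image_of_mem _ (List.mem_toFinset.2 ?_), ?_⟩
      · have := c.toSubgraph.edge_vert hy1.symm
        rwa [Walk.mem_verts_toSubgraph] at this
      · exact hy1.adj_sub
  · rintro ⟨A, hA, ⟨a, ha⟩, hd⟩ hac
    -- a step which does not go back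
    have hstep : ∀ v ∈ A, ∀ u : V, ∃ w ∈ A, G.Adj v w ∧ w ≠ u := by
      intro v hv u
      by_contra hcon
      push Not at hcon
      have h1 : (A.filter fun w => G.Adj v w) ⊆ {u} := fun w hw =>
        mem_singleton.2 (hcon w (mem_filter.1 hw).1 (mem_filter.1 hw).2)
      have h2 := card_le_card h1
      have h3 := hd v hv
      unfold dg at h3
      rw [card_singleton] at h2
      omega
    choose! nx n1 n2 n3 using hstep
    let st : ℕ → V × V := fun n => Nat.rec (a, nx a a) (fun _ p => (p.2, nx p.2 p.1)) n
    have st0 : st 0 = (a, nx a a) := rfl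
    have sts : ∀ n, st (n + 1) = ((st n).2, nx (st n).2 (st n).1) := fun n => rfl
    have hin : ∀ n, (st n).1 ∈ A ∧ (st n).2 ∈ A := by
      intro n
      induction n with
      | zero => exact ⟨ha, n1 a ha a⟩
      | succ n ih => exact ⟨ih.2, n1 _ ih.2 _⟩
    have hadj : ∀ n, G.Adj (st n).1 (st (n + 1)).1 := by
      intro n
      cases n with
      | zero => exact n2 a ha a
      | succ n => exact n2 _ (hin n).2 _
    have hnb : ∀ n, (st n).1 ≠ (st (n + 2)).1 := by
      intro n
      exact (n3 _ (hin n).2 _).symm
    -- two equal values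
    obtain ⟨i, j, hij, he⟩ : ∃ i j : ℕ, i < j ∧ (st i).1 = (st j).1 := by
      by_contra hcon
      push Not at hcon
      have : Function.Injective fun n : ℕ => (st n).1 := by
        intro x y hxy
        rcases lt_trichotomy x y with h | h | h
        · exact absurd hxy (hcon x y h)
        · exact h
        · exact absurd hxy.symm (hcon y x h)
      exact not_injective_infinite_finite _ this
    have hX : ∀ n, (st n).1 ∈ (X : Set V) := fun n => hA (hin n).1
    have h := nonback_ne hac (fun n => (⟨(st (i + n)).1, hX _⟩ : (X : Set V))) (j - i)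
      (fun n _ => hadj (i + n)) (fun n _ h' => hnb (i + n) (congrArg Subtype.val h')) (by omega)
    apply h
    apply Subtype.ext
    show (st (i + 0)).1 = (st (i + (j - i))).1
    rw [Nat.add_zero, he]
    congr 2
    omega

end Pool.Agent.K5.Gl
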