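import Pool.Agent.Work.MP_974d84_co_k5.GlStep

/-!
# Gluing, G8: all boundary values extend, from the case of unit demands
-/

set_option linter.unusedSectionVars false

namespace Pool.Agent.K5.Gl

open Finset SimpleGraph Pool.Agent.Exp Pool.Agent.K5

/-- G8 from G6. -/
theorem ext_sol_of {K : ℕ} (hK : 12 ≤ K)
    (hunit : ∀ {V : Type} [Fintype V] [DecidableEq V] {G : SimpleGraph V} [DecidableRel G.Adj]
      {Q : Finset V}, St G K Q → Sol G Q (31 / 10) 0 → ∀ b : V → ℝ, (∀ v ∈ sp G Q, |b v| ≤ 1) →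
      (∀ v ∈ Q, v ∉ sp G Q → b v = 0) → ∑ v ∈ Q, b v = 0 → Sol G Q 4 b)
    (hbase : ∀ {V : Type} [Fintype V] [DecidableEq V] (G : SimpleGraph V) [DecidableRel G.Adj]
      (Q : Finset V), St G K Q → Sol G Q (31 / 10) 0)
    {V : Type} [Fintype V] [DecidableEq V] {G : SimpleGraph V} [DecidableRel G.Adj]
    {Q : Finset V} (hQ : St G (4 * K + 6) Q) (b : V → ℤ)
    (hb : ∀ v ∈ sp G Q, b v ≠ 0 ∧ |b v| ≤ 4) (hb0 : ∀ v ∈ Q, v ∉ sp G Q → b v = 0)
    (h0 : ∑ v ∈ Q, b v = 0) : Sol G Q 4 fun v => (b v : ℝ) := by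
  have e : 4 * K + 6 = 2 * (2 * K + 2) + 2 := by ring
  rw [e] at hQ
  obtain ⟨Q1, b1, hQ1, g1, g2, g3, g4⟩ := peel_step (N := 2) (r := 4) (by norm_num)
    (by norm_num) hQ (by omega) b (fun v hv => by
      refine ⟨(hb v hv).1, ?_⟩
      have := (hb v hv).2
      push_cast
      linarith) hb0 h0
  obtain ⟨Q2, b2, hQ2, k1, k2, k3, k4⟩ := peel_step (N := 1) (r := 4) (by norm_num)
    (by norm_num) hQ1 (by omega) b1 (fun v hv => by
      refine ⟨(g1 v hv).1, ?_⟩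
      have := (g1 v hv).2
      push_cast at this ⊢
      linarith) g2 g3
  refine g4 (k4 (hunit hQ2 (hbase G Q2 hQ2) _ (fun v hv => ?_) (fun v hv hvs => ?_) ?_))
  · have := (k1 v hv).2
    exact_mod_cast this
  · rw [k2 v hv hvs]
    simp
  · exact_mod_cast k3

end Pool.Agent.K5.Gl
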