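import Pool.Agent.Work.MP_974d84_co_k5.DefsGl
import Pool.Agent.Work.MP_974d84_co_k5.CritReal

/-!
# Gluing, G9: pieces and single vertices
-/

set_option linter.unusedSectionVars false

namespace Pool.Agent.K5.Gl

open Finset SimpleGraph Pool.Agent.Exp Pool.Agent.K5 MP974d84

/-- G9. -/
theorem glue_main {K : ℕ}
    (hext : ∀ {V : Type} [Fintype V] [DecidableEq V] (G : SimpleGraph V) [DecidableRel G.Adj]
      (Q : Finset V), St G K Q → ∀ b : V → ℤ, (∀ v ∈ sp G Q, b v ≠ 0 ∧ |b v| ≤ 4) →
      (∀ v ∈ Q, v ∉ sp G Q → b v = 0) → ∑ v ∈ Q, b v = 0 → Sol G Q 4 fun v => (b v : ℝ))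
    {V : Type} [Fintype V] [DecidableEq V] (G : SimpleGraph V) [DecidableRel G.Adj]
    (h3 : ∀ v, G.degree v = 3) {p : ℕ} (c : V → Fin p)
    (hc : ∀ i, (univ.filter fun v => c v = i).card ≤ 1 ∨ St G K (univ.filter fun v => c v = i))
    (g : V → V → ℤ) (hg : ∀ u v, g u v = - g v u)
    (hg1 : ∀ u v, g u v ≠ 0 ↔ G.Adj u v ∧ c u ≠ c v) (hg4 : ∀ u v, |g u v| ≤ 4)
    (hg0 : ∀ i, ∑ v ∈ univ.filter (fun v => c v = i), ∑ u, g v u = 0) :
    ∀ i : ℕ, 5 ≤ i → HasNZFlow (ZMod i) G := by
  classical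
  have key : ∀ i, ∃ F : V → V → ℝ, (∀ u v, F u v = - F v u) ∧
      (∀ u v, F u v ≠ 0 → G.Adj u v ∧ c u = i ∧ c v = i) ∧
      (∀ u v, c u = i → c v = i → G.Adj u v → 1 ≤ |F u v| ∧ |F u v| ≤ 4) ∧
      ∀ v, c v = i → ∑ u, F v u = - ((∑ u, g v u : ℤ) : ℝ) := by
    intro i
    set Q : Finset V := univ.filter fun v => c v = i with hQd
    have hmQ : ∀ v, v ∈ Q ↔ c v = i := fun v => by rw [hQd, mem_filter]; simp
    rcases (show Q.card ≤ 1 ∨ St G K Q from hc i) with h | hQ
    · refine ⟨fun _ _ => 0, fun _ _ => by simp, fun u v h' => absurd rfl h', ?_, ?_⟩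
      · intro u v hu hv huv
        exact absurd (card_le_one.1 h u ((hmQ u).2 hu) v ((hmQ v).2 hv)) (G.ne_of_adj huv)
      · intro v hv
        have h1 := hg0 i
        have h2 : Q = {v} := by
          ext w
          rw [mem_singleton]
          exact ⟨fun hw => card_le_one.1 h w hw v ((hmQ v).2 hv),
            fun hw => hw ▸ (hmQ v).2 hv⟩
        rw [← hQd, h2, sum_singleton] at h1
        rw [h1]
        simp
    · -- the neighbours outside
      have hout : ∀ v ∈ Q, (univ.filter fun u => G.Adj v u ∧ c u ≠ i).card + dg G Q v = 3 := by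
        intro v hv
        rw [← h3 v, ← card_neighborFinset_eq_degree]
        unfold dg
        rw [← card_union_of_disjoint]
        · congr 1
          ext u
          simp only [mem_union, mem_filter, mem_univ, true_and, mem_neighborFinset, hmQ]
          tauto
        · rw [Finset.disjoint_left]
          intro u hu hu'
          exact (mem_filter.1 hu).2.2 ((hmQ u).1 (mem_filter.1 hu').1)
      have hsum : ∀ v ∈ Q, ∑ u, g v u = ∑ u ∈ univ.filter (fun u => G.Adj v u ∧ c u ≠ i), g v u := by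
        intro v hv
        symm
        refine sum_subset (subset_univ _) fun u _ hu => ?_
        by_contra hne
        obtain ⟨h1, h2⟩ := (hg1 v u).1 hne
        refine hu (mem_filter.2 ⟨mem_univ _, h1, ?_⟩)
        rw [← (hmQ v).1 hv]
        exact h2.symm
      obtain ⟨F, f1, f2, f3, f4⟩ := hext G Q hQ (fun v => - ∑ u, g v u) (by
        intro v hv
        have hvQ := (mem_filter.1 hv).1
        have h1 := hout v hvQ
        rw [(mem_filter.1 hv).2] at h1
        obtain ⟨u, hu⟩ := card_eq_one.1 (show (univ.filter fun u => G.Adj v u ∧ c u ≠ i).card = 1 by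
          omega)
        have h2 : u ∈ univ.filter fun u => G.Adj v u ∧ c u ≠ i := by rw [hu]; simp
        have h2' := (mem_filter.1 h2).2
        show (- ∑ u, g v u) ≠ 0 ∧ |- ∑ u, g v u| ≤ 4
        rw [hsum v hvQ, hu, sum_singleton, neg_ne_zero, abs_neg]
        refine ⟨(hg1 v u).2 ⟨h2'.1, ?_⟩, hg4 v u⟩
        rw [(hmQ v).1 hvQ]
        exact h2'.2.symm) (by
        intro v hv hvs
        have h1 := hout v hv
        rcases hQ.deg v hv with h2 | h2
        · exact absurd (mem_filter.2 ⟨hv, h2⟩) hvs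
        · have h4 : (univ.filter fun u => G.Adj v u ∧ c u ≠ i).card = 0 := by omega
          show (- ∑ u, g v u) = 0
          rw [hsum v hv, card_eq_zero.1 h4, sum_empty, neg_zero]) (by
        rw [sum_neg_distrib, hg0 i, neg_zero])
      refine ⟨F, f1, fun u v h => ?_, fun u v hu hv huv => f3 u ((hmQ u).2 hu) v ((hmQ v).2 hv) huv,
        fun v hv => ?_⟩
      · obtain ⟨h1, h2, h4⟩ := f2 u v h
        exact ⟨h1, (hmQ u).1 h2, (hmQ v).1 h4⟩
      · rw [f4 v ((hmQ v).2 hv)]
        push_cast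
        rfl
  choose F f1 f2 f3 f4 using key
  have hz : ∀ i u v, c u ≠ c v → F i u v = 0 := by
    intro i u v h
    by_contra hne
    obtain ⟨-, h1, h2⟩ := f2 i u v hne
    exact h (h1.trans h2.symm)
  refine flow_of_real (f := fun u v => F (c u) u v + (g u v : ℝ)) ?_ ?_ ?_ ?_
  · intro u v
    show F (c u) u v + (g u v : ℝ) = - (F (c v) v u + (g v u : ℝ))
    have h1 : F (c u) u v = - F (c v) v u := by
      by_cases h : c u = c v
      · rw [← h]
        exact f1 _ u v
      · rw [hz _ u v h, hz _ v u (fun h' => h h'.symm), neg_zero]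
    rw [h1, hg u v]
    push_cast
    ring
  · intro v
    show ∑ u, (F (c v) v u + (g v u : ℝ)) = 0
    rw [sum_add_distrib, f4 (c v) v rfl]
    push_cast
    ring
  · intro u v h
    show F (c u) u v + (g u v : ℝ) = 0
    have h1 : F (c u) u v = 0 := by
      by_contra hne
      exact h (f2 _ u v hne).1
    have h2 : g u v = 0 := by
      by_contra hne
      exact h ((hg1 u v).1 hne).1
    rw [h1, h2]
    simp
  · intro u v huv
    show 1 ≤ |F (c u) u v + (g u v : ℝ)| ∧ |F (c u) u v + (g u v : ℝ)| ≤ 4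
    by_cases h : c u = c v
    · have h2 : g u v = 0 := by
        by_contra hne
        exact ((hg1 u v).1 hne).2 h
      rw [h2, Int.cast_zero, add_zero]
      exact f3 (c u) u v rfl h.symm huv
    · have h2 := (hg1 u v).2 ⟨huv, h⟩
      rw [hz _ u v h, zero_add]
      have h4 : 1 ≤ |g u v| := Int.one_le_abs h2
      have h5 := hg4 u v
      constructor
      · exact_mod_cast h4
      · exact_mod_cast h5

end Pool.Agent.K5.Gl
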