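import Pool.Agent.Work.MP_974d84_co_k5.DefsGl
import Pool.Agent.Work.MP_974d84_co_circ.Final

/-!
# Gluing, G10: the flow of the quotient
-/

set_option linter.unusedSectionVars false

namespace Pool.Agent.K5.Gl

open Finset SimpleGraph Pool.Agent.Exp Pool.Agent.K5

/-- G10. -/
theorem quot_flow {V : Type} [Fintype V] [DecidableEq V] (G : SimpleGraph V) [DecidableRel G.Adj]
    {p : ℕ} (c : V → Fin p)
    (h4 : ∀ I : Finset (Fin p), (∃ v, c v ∈ I) → (∃ v, c v ∉ I) →
      4 ≤ dd G (univ.filter fun v => c v ∈ I)) :
    ∃ g : V → V → ℤ, (∀ u v, g u v = - g v u) ∧ (∀ u v, g u v ≠ 0 ↔ G.Adj u v ∧ c u ≠ c v) ∧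
      (∀ u v, |g u v| ≤ 4) ∧ ∀ i, ∑ v ∈ univ.filter (fun v => c v = i), ∑ u, g v u = 0 := by
  classical
  set en := Fintype.equivFin V with hen
  let cond : V × V → Prop := fun e => G.Adj e.1 e.2 ∧ en e.1 < en e.2 ∧ c e.1 ≠ c e.2
  let s : {e : V × V // cond e} → {i : Fin p // ∃ v, c v = i} := fun e => ⟨c e.1.1, _, rfl⟩
  let t : {e : V × V // cond e} → {i : Fin p // ∃ v, c v = i} := fun e => ⟨c e.1.2, _, rfl⟩
  have htheta : ∀ p' : {i : Fin p // ∃ v, c v = i} → ℕ,
      ((5 : ℕ) : ℝ) * (((univ.image p').card : ℝ) - 1) ≤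
      (((5 : ℕ) : ℝ) - 2) * ((univ.filter (fun e => p' (s e) ≠ p' (t e))).card : ℝ) := by
    intro p'
    set col : V → ℕ := fun v => p' ⟨c v, _, rfl⟩ with hcol
    by_cases hk : (univ.image p').card ≤ 1
    · have h1 : ((univ.image p').card : ℝ) ≤ 1 := by exact_mod_cast hk
      have h2 : (0 : ℝ) ≤ ((univ.filter (fun e => p' (s e) ≠ p' (t e))).card : ℝ) :=
        Nat.cast_nonneg _
      push_cast
      linarith
    · -- every colour class is left by four edges
      have hj : ∀ j ∈ univ.image p', 4 ≤ dd G (univ.filter fun v => col v = j) := by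
        intro j hj
        obtain ⟨⟨i, v, hv⟩, -, hi⟩ := mem_image.1 hj
        obtain ⟨j', hj', hne⟩ : ∃ j' ∈ univ.image p', j' ≠ j := by
          by_contra hcon
          push Not at hcon
          exact hk (card_le_one.2 fun a ha b hb => (hcon a ha).trans (hcon b hb).symm)
        obtain ⟨⟨i', v', hv'⟩, -, hi'⟩ := mem_image.1 hj'
        subst hv
        subst hv'
        have hI : ∀ w, c w ∈ (univ.filter fun i => ∃ h : (∃ v, c v = i), p' ⟨i, h⟩ = j) ↔
            col w = j := by
          intro w
          rw [mem_filter]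
          constructor
          · rintro ⟨-, _, h⟩
            exact h
          · intro h
            exact ⟨mem_univ _, ⟨w, rfl⟩, h⟩
        have h5 := h4 (univ.filter fun i => ∃ h : (∃ v, c v = i), p' ⟨i, h⟩ = j)
          ⟨v, (hI v).2 hi⟩ ⟨v', fun h => hne (hi'.symm.trans ((hI v').1 h))⟩
        have h6 : (univ.filter fun w => c w ∈ (univ.filter fun i =>
            ∃ h : (∃ v, c v = i), p' ⟨i, h⟩ = j)) = univ.filter fun v => col v = j := by
          ext w
          exact ⟨fun hw => mem_filter.2 ⟨mem_univ _, (hI w).1 (mem_filter.1 hw).2⟩,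
            fun hw => mem_filter.2 ⟨mem_univ _, (hI w).2 (mem_filter.1 hw).2⟩⟩
        rwa [h6] at h5
      have hsum : ∑ j ∈ univ.image p', dd G (univ.filter fun v => col v = j) =
          ((univ : Finset (V × V)).filter fun e => G.Adj e.1 e.2 ∧ col e.1 ≠ col e.2).card := by
        rw [card_eq_sum_card_fiberwise (f := fun e => col e.1) (t := univ.image p')]
        · refine sum_congr rfl fun j _ => ?_
          unfold dd
          congr 1
          ext e
          rw [mem_cut]
          simp only [mem_filter, mem_univ, true_and]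
          constructor
          · rintro ⟨h1, h2, h3⟩
            exact ⟨⟨h3, fun h => h2 (h ▸ h1)⟩, h1⟩
          · rintro ⟨⟨h1, h2⟩, h3⟩
            exact ⟨h3, fun h => h2 (h3.trans h.symm), h1⟩
        · intro e _
          exact mem_coe.2 (mem_image_of_mem _ (mem_univ _))
      have h1 : (univ.image p').card * 4 ≤
          ((univ : Finset (V × V)).filter fun e => G.Adj e.1 e.2 ∧ col e.1 ≠ col e.2).card := by
        rw [← hsum, ← smul_eq_mul, ← sum_const]
        exact sum_le_sum hj
      have e1 : (univ.filter (fun e => p' (s e) ≠ p' (t e))).card =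
          ((univ : Finset (V × V)).filter fun e =>
            (G.Adj e.1 e.2 ∧ col e.1 ≠ col e.2) ∧ en e.1 < en e.2).card := by
        refine card_bij (fun e _ => e.1) ?_ ?_ ?_
        · intro e he
          simp only [mem_filter, mem_univ, true_and] at he ⊢
          exact ⟨⟨e.2.1, he⟩, e.2.2.1⟩
        · intro e _ e' _ h
          exact Subtype.ext h
        · intro e he
          simp only [mem_filter, mem_univ, true_and] at he
          have hqe : c e.1 ≠ c e.2 := by
            intro h
            apply he.1.2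
            show p' ⟨c e.1, _⟩ = p' ⟨c e.2, _⟩
            congr 1
            exact Subtype.ext h
          refine ⟨⟨e, he.1.1, he.2, hqe⟩, ?_, rfl⟩
          simp only [mem_filter, mem_univ, true_and]
          exact he.1.2
      have e2 : ((univ : Finset (V × V)).filter fun e =>
            (G.Adj e.1 e.2 ∧ col e.1 ≠ col e.2) ∧ ¬ en e.1 < en e.2).card =
          ((univ : Finset (V × V)).filter fun e =>
            (G.Adj e.1 e.2 ∧ col e.1 ≠ col e.2) ∧ en e.1 < en e.2).card := by
        refine card_bij (fun e _ => (e.2, e.1)) ?_ ?_ ?_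
        · intro e he
          simp only [mem_filter, mem_univ, true_and] at he ⊢
          refine ⟨⟨he.1.1.symm, he.1.2.symm⟩, ?_⟩
          have hne : en e.1 ≠ en e.2 := fun h => he.1.1.ne (en.injective h)
          exact lt_of_le_of_ne (not_lt.1 he.2) hne.symm
        · rintro ⟨a, b⟩ _ ⟨a', b'⟩ _ h
          simp only [Prod.mk.injEq] at h
          simp [h.1, h.2]
        · rintro ⟨a, b⟩ he
          simp only [mem_filter, mem_univ, true_and] at he
          refine ⟨(b, a), ?_, rfl⟩
          simp only [mem_filter, mem_univ, true_and]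
          exact ⟨⟨he.1.1.symm, he.1.2.symm⟩, not_lt.2 he.2.le⟩
      have e3 := card_filter_add_card_filter_not
        (s := (univ : Finset (V × V)).filter fun e => G.Adj e.1 e.2 ∧ col e.1 ≠ col e.2)
        (fun e => en e.1 < en e.2)
      rw [filter_filter, filter_filter, e2, ← e1] at e3
      have h2 : (univ.image p').card * 2 ≤ (univ.filter (fun e => p' (s e) ≠ p' (t e))).card := by
        omega
      have h3 : ((univ.image p').card : ℝ) * 2 ≤
          ((univ.filter (fun e => p' (s e) ≠ p' (t e))).card : ℝ) := by exact_mod_cast h2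
      have h5 : (0 : ℝ) ≤ ((univ.image p').card : ℝ) := Nat.cast_nonneg _
      push_cast
      linarith
  obtain ⟨g, hg, hgb⟩ := Circ.nowhereZero_theta s t 5 (by norm_num) htheta
  let fp : V → V → ℤ := fun u v => if h : cond (u, v) then g ⟨(u, v), h⟩ else 0
  have hfp : ∀ u v, fp u v ≠ 0 → cond (u, v) := by
    intro u v h
    by_contra hc
    exact h (dif_neg hc)
  have hfb : ∀ u v, cond (u, v) → 1 ≤ |fp u v| ∧ |fp u v| ≤ 4 := by
    intro u v h
    have e1 : fp u v = g ⟨(u, v), h⟩ := dif_pos h
    rw [e1]
    have e2 := hgb ⟨(u, v), h⟩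
    push_cast at e2
    exact ⟨e2.1, by linarith [e2.2]⟩
  have hanti : ∀ u v, cond (u, v) → ¬ cond (v, u) := fun u v h h' =>
    absurd (h.2.1.trans h'.2.1) (lt_irrefl _)
  have hcase : ∀ u v, (G.Adj u v ∧ c u ≠ c v ∧ 1 ≤ |fp u v - fp v u| ∧ |fp u v - fp v u| ≤ 4) ∨
      (¬ (G.Adj u v ∧ c u ≠ c v) ∧ fp u v - fp v u = 0) := by
    intro u v
    by_cases h : G.Adj u v ∧ c u ≠ c v
    · left
      refine ⟨h.1, h.2, ?_⟩
      have hne : en u ≠ en v := fun h' => h.1.ne (en.injective h')
      rcases lt_or_gt_of_ne hne with h' | h'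
      · have c1 : cond (u, v) := ⟨h.1, h', h.2⟩
        have c2 : fp v u = 0 := dif_neg (hanti u v c1)
        rw [c2, sub_zero]
        exact hfb u v c1
      · have c1 : cond (v, u) := ⟨h.1.symm, h', h.2.symm⟩
        have c2 : fp u v = 0 := dif_neg (hanti v u c1)
        rw [c2, zero_sub, abs_neg]
        exact hfb v u c1
    · right
      refine ⟨h, ?_⟩
      have c1 : fp u v = 0 := by
        by_contra hc
        exact h ⟨(hfp u v hc).1, (hfp u v hc).2.2⟩
      have c2 : fp v u = 0 := by
        by_contra hc
        exact h ⟨(hfp v u hc).1.symm, (hfp v u hc).2.2.symm⟩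
      rw [c1, c2, sub_zero]
  refine ⟨fun u v => fp u v - fp v u, ?_, ?_, ?_, ?_⟩
  · intro u v
    ring
  · intro u v
    rcases hcase u v with ⟨h1, h2, h3, h5⟩ | ⟨h1, h2⟩
    · refine ⟨fun _ => ⟨h1, h2⟩, fun _ h => ?_⟩
      have h6 : fp u v - fp v u = 0 := h
      rw [h6, abs_zero] at h3
      omega
    · exact ⟨fun h => absurd h2 h, fun h => absurd h h1⟩
  · intro u v
    rcases hcase u v with ⟨h1, h2, h3, h5⟩ | ⟨h1, h2⟩
    · exact h5
    · show |fp u v - fp v u| ≤ 4
      rw [h2]
      simp
  · intro i
    by_cases hi : ∃ v, c v = i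
    · have h1 := hg ⟨i, hi⟩
      have key : ∀ (F : {e : V × V // cond e} → ℤ) (F' : V × V → ℤ),
          (∀ e : {e : V × V // cond e}, F' e.1 = F e) → (∀ e, ¬ cond e → F' e = 0) →
          ∑ e, F e = ∑ e, F' e := by
        intro F F' h1 h2
        rw [← Fintype.sum_subtype_add_sum_subtype cond F']
        have e2 : ∑ e : {e // ¬ cond e}, F' e = 0 :=
          sum_eq_zero fun e _ => h2 e.1 e.2
        rw [e2, add_zero]
        exact sum_congr rfl fun e _ => (h1 e).symm
      have h2 : ∑ e, (if s e = ⟨i, hi⟩ then g e else 0) =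
          ∑ v ∈ univ.filter (fun v => c v = i), ∑ u, fp v u := by
        rw [key _ (fun e => if c e.1 = i then fp e.1 e.2 else 0), Fintype.sum_prod_type, sum_filter]
        · refine sum_congr rfl fun v _ => ?_
          by_cases h : c v = i
          · simp [h]
          · simp [h]
        · intro e
          have e1 : fp e.1.1 e.1.2 = g e := dif_pos e.2
          rw [e1]
          by_cases h : c e.1.1 = i
          · rw [if_pos h, if_pos (Subtype.ext h)]
          · rw [if_neg h, if_neg fun h' => h (congrArg Subtype.val h')]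
        · intro e he
          have e1 : fp e.1 e.2 = 0 := dif_neg he
          rw [e1]
          simp
      have h3 : ∑ e, (if t e = ⟨i, hi⟩ then g e else 0) =
          ∑ v ∈ univ.filter (fun v => c v = i), ∑ u, fp u v := by
        rw [key _ (fun e => if c e.2 = i then fp e.1 e.2 else 0), Fintype.sum_prod_type, sum_comm,
          sum_filter]
        · refine sum_congr rfl fun v _ => ?_
          by_cases h : c v = i
          · simp [h]
          · simp [h]
        · intro e
          have e1 : fp e.1.1 e.1.2 = g e := dif_pos e.2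
          rw [e1]
          by_cases h : c e.1.2 = i
          · rw [if_pos h, if_pos (Subtype.ext h)]
          · rw [if_neg h, if_neg fun h' => h (congrArg Subtype.val h')]
        · intro e he
          have e1 : fp e.1 e.2 = 0 := dif_neg he
          rw [e1]
          simp
      rw [sum_sub_distrib, h2, h3] at h1
      simp only [sum_sub_distrib]
      exact h1
    · have h1 : univ.filter (fun v => c v = i) = ∅ := by
        rw [filter_eq_empty_iff]
        intro v _ h
        exact hi ⟨v, h⟩
      rw [h1, sum_empty]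

end Pool.Agent.K5.Gl
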