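import Mathlib
import Pool.Agent.Work.MP_974d84_co_k5.DefsGl

/-!
# Gluing: joined sets with many special vertices are large
-/

set_option linter.unusedSectionVars false

namespace Pool.Agent.K5.Gl

open Finset SimpleGraph Pool.Agent.Exp Pool.Agent.K5

variable {V : Type} [Fintype V] [DecidableEq V] {G : SimpleGraph V} [DecidableRel G.Adj]

theorem joined_singleton (v : V) : Joined G {v} := by
  intro A hA hne hA'
  exact absurd (subset_antisymm hA (by
    obtain ⟨x, hx⟩ := hne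
    have := mem_singleton.1 (hA hx)
    subst this
    exact singleton_subset_iff.2 hx)) hA'

/-- Adding a vertex which has a neighbour in the set. -/
theorem joined_insert {X : Finset V} (hX : Joined G X) {u v : V} (hu : u ∈ X) (huv : G.Adj u v) :
    Joined G (insert v X) := by
  intro A hA hne hA'
  by_cases hv : v ∈ A
  · by_cases hA1 : (A ∩ X).Nonempty
    · by_cases hA2 : A ∩ X = X
      · exfalso
        apply hA'
        refine subset_antisymm hA ?_
        intro w hw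
        rcases mem_insert.1 hw with rfl | hw
        · exact hv
        · have : w ∈ A ∩ X := by rw [hA2]; exact hw
          exact (mem_inter.1 this).1
      · obtain ⟨x, hx, y, hy, hyA, hxy⟩ := hX (A ∩ X) inter_subset_right hA1 hA2
        exact ⟨x, (mem_inter.1 hx).1, y, mem_insert_of_mem hy, fun h => hyA (mem_inter.2 ⟨h, hy⟩),
          hxy⟩
    · refine ⟨v, hv, u, mem_insert_of_mem hu, fun h => hA1 ⟨u, mem_inter.2 ⟨h, hu⟩⟩, huv.symm⟩
  · have hAX : A ⊆ X := by
      intro w hw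
      rcases mem_insert.1 (hA hw) with rfl | h
      · exact absurd hw hv
      · exact h
    by_cases hA2 : A = X
    · exact ⟨u, by rw [hA2]; exact hu, v, mem_insert_self _ _, hv, huv⟩
    · obtain ⟨x, hx, y, hy, hyA, hxy⟩ := hX A hAX hne hA2
      exact ⟨x, hx, y, mem_insert_of_mem hy, hyA, hxy⟩

/-- The union of two joined sets with a common vertex. -/
theorem joined_union {X Y : Finset V} (hX : Joined G X) (hY : Joined G Y) {z : V} (hzX : z ∈ X)
    (hzY : z ∈ Y) : Joined G (X ∪ Y) := by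
  intro A hA hne hA'
  by_cases h1 : (A ∩ X).Nonempty ∧ A ∩ X ≠ X
  · obtain ⟨x, hx, y, hy, hyA, hxy⟩ := hX (A ∩ X) inter_subset_right h1.1 h1.2
    exact ⟨x, (mem_inter.1 hx).1, y, mem_union_left _ hy, fun h => hyA (mem_inter.2 ⟨h, hy⟩), hxy⟩
  by_cases h2 : (A ∩ Y).Nonempty ∧ A ∩ Y ≠ Y
  · obtain ⟨x, hx, y, hy, hyA, hxy⟩ := hY (A ∩ Y) inter_subset_right h2.1 h2.2
    exact ⟨x, (mem_inter.1 hx).1, y, mem_union_right _ hy, fun h => hyA (mem_inter.2 ⟨h, hy⟩), hxy⟩
  exfalso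
  have e1 : (A ∩ X).Nonempty → X ⊆ A := fun h w hw => by
    have h3 : A ∩ X = X := by
      by_contra h4
      exact h1 ⟨h, h4⟩
    have : w ∈ A ∩ X := by rw [h3]; exact hw
    exact (mem_inter.1 this).1
  have e2 : (A ∩ Y).Nonempty → Y ⊆ A := fun h w hw => by
    have h3 : A ∩ Y = Y := by
      by_contra h4
      exact h2 ⟨h, h4⟩
    have : w ∈ A ∩ Y := by rw [h3]; exact hw
    exact (mem_inter.1 this).1
  have hz : z ∈ A := by
    obtain ⟨x, hx⟩ := hne
    rcases mem_union.1 (hA hx) with h | h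
    · exact e1 ⟨x, mem_inter.2 ⟨hx, h⟩⟩ hzX
    · exact e2 ⟨x, mem_inter.2 ⟨hx, h⟩⟩ hzY
  exact hA' (subset_antisymm hA (union_subset (e1 ⟨z, mem_inter.2 ⟨hz, hzX⟩⟩)
    (e2 ⟨z, mem_inter.2 ⟨hz, hzY⟩⟩)))

/-- Joined subsets of every size. -/
theorem exists_joined {X : Finset V} (hX : Joined G X) {v : V} (hv : v ∈ X) {r : ℕ} (hr1 : 1 ≤ r)
    (hr : r ≤ X.card) : ∃ Y ⊆ X, v ∈ Y ∧ Joined G Y ∧ Y.card = r := by
  induction r, hr1 using Nat.le_induction with
  | base => exact ⟨{v}, singleton_subset_iff.2 hv, mem_singleton_self v, joined_singleton v,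
      card_singleton v⟩
  | succ r h1 ih =>
    obtain ⟨Y, hY, hvY, hJ, hc⟩ := ih (by omega)
    obtain ⟨x, hx, y, hy, hyY, hxy⟩ := hX Y hY ⟨v, hvY⟩ (by
      rintro rfl
      omega)
    exact ⟨insert y Y, insert_subset hy hY, mem_insert_of_mem hvY, joined_insert hJ hx hxy, by
      rw [card_insert_of_notMem hyY, hc]⟩

theorem pack {K : ℕ} {Q : Finset V} (hQ : St G K Q) {r : ℕ} (hr : 2 * r ≤ K) (hr1 : 1 ≤ r)
    {X : Finset V} (hX : X ⊆ Q) (hJ : Joined G X) (h2 : 2 ≤ (X ∩ sp G Q).card) :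
    r * (X ∩ sp G Q).card ≤ X.card := by
  classical
  have hXK : K ≤ X.card := by
    obtain ⟨u, hu, v, hv, huv⟩ := one_lt_card.1 (show 1 < (X ∩ sp G Q).card by omega)
    exact hQ.far X hX hJ u hu v hv huv
  have hex : ∀ u : V, ∃ Y : Finset V, u ∈ X ∩ sp G Q → Y ⊆ X ∧ u ∈ Y ∧ Joined G Y ∧ Y.card = r := by
    intro u
    by_cases hu : u ∈ X ∩ sp G Q
    · obtain ⟨Y, h1, h3, h4, h5⟩ := exists_joined hJ (mem_inter.1 hu).1 hr1 (by omega)
      exact ⟨Y, fun _ => ⟨h1, h3, h4, h5⟩⟩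
    · exact ⟨∅, fun h => absurd h hu⟩
  choose Y hY using hex
  have hdis : ((X ∩ sp G Q : Finset V) : Set V).PairwiseDisjoint Y := by
    intro u hu v hv huv
    rw [Function.onFun, Finset.disjoint_left]
    intro z hzu hzv
    obtain ⟨a1, a2, a3, a4⟩ := hY u hu
    obtain ⟨b1, b2, b3, b4⟩ := hY v hv
    have h1 := joined_union a3 b3 hzu hzv
    have h3 := hQ.far (Y u ∪ Y v) (union_subset (a1.trans hX) (b1.trans hX)) h1 u
      (mem_inter.2 ⟨mem_union_left _ a2, (mem_inter.1 hu).2⟩) v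
      (mem_inter.2 ⟨mem_union_right _ b2, (mem_inter.1 hv).2⟩) huv
    have h4 := card_union_add_card_inter (Y u) (Y v)
    have h5 : 1 ≤ (Y u ∩ Y v).card := card_pos.2 ⟨z, mem_inter.2 ⟨hzu, hzv⟩⟩
    omega
  have h1 : ((X ∩ sp G Q).biUnion Y).card = ∑ u ∈ X ∩ sp G Q, (Y u).card := card_biUnion hdis
  have h3 : ∑ u ∈ X ∩ sp G Q, (Y u).card = (X ∩ sp G Q).card * r := by
    rw [sum_congr rfl fun u hu => (hY u hu).2.2.2, sum_const, smul_eq_mul]
  have h4 : ((X ∩ sp G Q).biUnion Y).card ≤ X.card :=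
    card_le_card (biUnion_subset.2 fun u hu => (hY u hu).1)
  rw [h1, h3] at h4
  rw [mul_comm]
  exact h4

end Pool.Agent.K5.Gl
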