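import Mathlib
import Pool.Agent.Work.MP_974d84_co_k5.DefsGl
import Pool.Agent.Work.MP_974d84_co_k5.GlPack
import Pool.Agent.Work.MP_974d84_co_k5.GlBond
import Pool.Agent.Work.MP_974d84_co_exp.Grow

/-!
# Gluing: flows with unit demands at the special vertices
-/

set_option linter.unusedSectionVars false

namespace Pool.Agent.K5.Gl

open Finset SimpleGraph Pool.Agent.Exp Pool.Agent.K5 Pool.Agent.Work.MP_314beb_co

variable {V : Type} [Fintype V] [DecidableEq V] {G : SimpleGraph V} [DecidableRel G.Adj]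

theorem ee_comm' (A B : Finset V) : ee G A B = ee G B A := by
  unfold ee
  refine card_bij' (fun p _ => (p.2, p.1)) (fun p _ => (p.2, p.1)) ?_ ?_ ?_ ?_
  · intro p hp
    simp only [mem_filter, mem_univ, true_and] at hp ⊢
    exact ⟨hp.2.1, hp.1, hp.2.2.symm⟩
  · intro p hp
    simp only [mem_filter, mem_univ, true_and] at hp ⊢
    exact ⟨hp.2.1, hp.1, hp.2.2.symm⟩
  · intro p _; rfl
  · intro p _; rfl

theorem ee_self (A : Finset V) : ee G A A = (inside G A).card := by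
  unfold ee
  congr 1

/-- The degrees in `Q`. -/
theorem sum_dg {Q Z : Finset V} (hZ : Z ⊆ Q) :
    ∑ v ∈ Z, dg G Q v = (inside G Z).card + ee G Z (Q \ Z) := by
  have h1 : ((∑ v ∈ Z, dg G Q v : ℕ) : ℝ) = ((ee G Z Z : ℕ) : ℝ) + (ee G Z (Q \ Z) : ℕ) := by
    rw [eeD_eq_sum, eeD_eq_sum, ← sum_add_distrib, Nat.cast_sum]
    refine sum_congr rfl fun v _ => ?_
    unfold dg
    rw [card_filter, Nat.cast_sum, ← sum_sdiff hZ, add_comm]
    congr 1 <;> exact sum_congr rfl fun w _ => by split_ifs <;> simp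
  rw [ee_self] at h1
  exact_mod_cast h1

/-- A set with minimum degree two contains a cycle. -/
theorem cyc_of_dg {A X : Finset V} (hA : A ⊆ X) (hne : A.Nonempty) (h2 : ∀ v ∈ A, 2 ≤ dg G A v) :
    Cyc G X := by
  intro hX
  have hAc : (G.induce (A : Set V)).IsAcyclic := by
    refine hX.comap (SimpleGraph.induceHomOfLE G
      (show (A : Set V) ≤ (X : Set V) from fun v hv => hA hv)).toHom ?_
    exact (SimpleGraph.induceHomOfLE G
      (show (A : Set V) ≤ (X : Set V) from fun v hv => hA hv)).injective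
  have h3 := inside_of_acyclic G hne hAc
  have h4 := sum_dg (G := G) (subset_refl A)
  have h5 : ee G A (A \ A) = 0 := by
    rw [sdiff_self]
    simp [ee]
  have h6 : A.card * 2 ≤ ∑ v ∈ A, dg G A v := by
    rw [← smul_eq_mul, ← sum_const]
    exact sum_le_sum h2
  omega

/-- Pieces are joined. -/
theorem St.joined {K : ℕ} {Q : Finset V} (hQ : St G K Q) (hK : 1 ≤ K) : Joined G Q := by
  intro A hA hne hAQ
  by_contra hno
  push Not at hno
  have h0 : ee G A (Q \ A) = 0 := by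
    unfold ee
    rw [card_eq_zero, filter_eq_empty_iff]
    rintro ⟨u, v⟩ - ⟨h1, h2, h3⟩
    rw [mem_sdiff] at h2
    exact hno u h1 v h2.1 h2.2 h3
  have hne' : (Q \ A).Nonempty := by
    rw [sdiff_nonempty]
    exact fun h => hAQ (subset_antisymm hA h)
  have e1 : ∀ v ∈ A, dg G A v = dg G Q v := by
    intro v hv
    unfold dg
    congr 1
    ext w
    simp only [mem_filter]
    refine ⟨fun h => ⟨hA h.1, h.2⟩, fun h => ⟨?_, h.2⟩⟩
    by_contra hw
    exact hno v hv w h.1 hw h.2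
  have e2 : ∀ v ∈ Q \ A, dg G (Q \ A) v = dg G Q v := by
    intro v hv
    rw [mem_sdiff] at hv
    unfold dg
    congr 1
    ext w
    simp only [mem_filter, mem_sdiff]
    refine ⟨fun h => ⟨h.1.1, h.2⟩, fun h => ⟨⟨h.1, ?_⟩, h.2⟩⟩
    intro hw
    exact hno w hw v hv.1 hv.2 h.2.symm
  have h2 : ∀ v ∈ Q, 2 ≤ dg G Q v := by
    intro v hv
    rcases hQ.deg v hv with h | h <;> omega
  have h3 := hQ.cut A hA (cyc_of_dg (subset_refl A) hne fun v hv => by
      rw [e1 v hv]; exact h2 v (hA hv))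
    (cyc_of_dg (subset_refl _) hne' fun v hv => by
      rw [e2 v hv]; exact h2 v (mem_sdiff.1 hv).1)
  rw [h0] at h3
  have : 1 ≤ K * (1 + min (A ∩ sp G Q).card ((Q \ A) ∩ sp G Q).card) :=
    Nat.one_le_iff_ne_zero.2 (Nat.mul_ne_zero (by omega) (by omega))
  omega

/-- The boundary of an acyclic part. -/
theorem ee_of_acyclic {K : ℕ} {Q : Finset V} (hQ : St G K Q) {Z : Finset V} (hZ : Z ⊆ Q)
    (hne : Z.Nonempty) (hac : ¬ Cyc G Z) : (Z \ sp G Q).card + 2 ≤ ee G Z (Q \ Z) := by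
  have hac' : (G.induce (Z : Set V)).IsAcyclic := by
    unfold Cyc at hac
    exact not_not.1 hac
  have h3 := inside_of_acyclic G hne hac'
  have h4 := sum_dg (G := G) hZ
  have h5 : ∑ v ∈ Z, dg G Q v = 2 * (Z ∩ sp G Q).card + 3 * (Z \ sp G Q).card := by
    rw [← sum_sdiff (inter_subset_left (s₁ := Z) (s₂ := sp G Q))]
    have e1 : ∑ v ∈ Z ∩ sp G Q, dg G Q v = 2 * (Z ∩ sp G Q).card := by
      have : ∀ v ∈ Z ∩ sp G Q, dg G Q v = 2 := fun v hv => (mem_filter.1 (mem_inter.1 hv).2).2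
      rw [sum_congr rfl this, sum_const, smul_eq_mul, mul_comm]
    have e2 : Z \ (Z ∩ sp G Q) = Z \ sp G Q := by
      ext v
      simp only [mem_sdiff, mem_inter]
      tauto
    have e3 : ∑ v ∈ Z \ sp G Q, dg G Q v = 3 * (Z \ sp G Q).card := by
      have : ∀ v ∈ Z \ sp G Q, dg G Q v = 3 := by
        intro v hv
        rw [mem_sdiff] at hv
        rcases hQ.deg v (hZ hv.1) with h | h
        · exact absurd (mem_filter.2 ⟨hZ hv.1, h⟩) hv.2
        · exact h
      rw [sum_congr rfl this, sum_const, smul_eq_mul, mul_comm]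
    rw [e1, e2, e3, add_comm]
  have h6 : (Z ∩ sp G Q).card + (Z \ sp G Q).card = Z.card := card_inter_add_card_sdiff Z _
  omega

theorem unit_sol {K : ℕ} {Q : Finset V} (hQ : St G K Q) (hK : 12 ≤ K)
    (hf : Sol G Q (31 / 10) 0) (b : V → ℝ)
    (hb : ∀ v ∈ sp G Q, |b v| ≤ 1) (hb0 : ∀ v ∈ Q, v ∉ sp G Q → b v = 0)
    (h0 : ∑ v ∈ Q, b v = 0) : Sol G Q 4 b := by
  classical
  obtain ⟨f, hf1, hf2, hf3, hf4⟩ := hf
  -- signs
  let oz : V → V → ℤ := fun u v => if 0 < f u v then 1 else if f u v < 0 then -1 else 0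
  let o : V → V → ℝ := fun u v => (oz u v : ℝ)
  have ho1 : ∀ u v, o u v = - o v u := by
    intro u v
    have h := hf1 u v
    simp only [o, oz]
    rcases lt_trichotomy (f u v) 0 with h1 | h1 | h1
    · have h2 : 0 < f v u := by linarith
      rw [if_neg (not_lt.2 h1.le), if_pos h1, if_pos h2]; norm_num
    · have h2 : f v u = 0 := by linarith
      rw [h1, h2]; norm_num
    · have h2 : f v u < 0 := by linarith
      rw [if_pos h1, if_neg (not_lt.2 h2.le), if_pos h2]; norm_num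
  have ho2 : ∀ u v, o u v ≠ 0 → G.Adj u v ∧ u ∈ Q ∧ v ∈ Q := by
    intro u v h
    apply hf2
    intro h1
    apply h
    simp only [o, oz, h1]
    norm_num
  have ho3 : ∀ u ∈ Q, ∀ v ∈ Q, G.Adj u v → (o u v = 1 ∧ 1 ≤ f u v ∧ f u v ≤ 31 / 10) ∨
      (o u v = -1 ∧ f u v ≤ -1 ∧ - (31 / 10) ≤ f u v) := by
    intro u hu v hv huv
    obtain ⟨h1, h2⟩ := hf3 u hu v hv huv
    rcases lt_trichotomy (f u v) 0 with h3 | h3 | h3
    · right
      rw [abs_of_neg h3] at h1 h2
      refine ⟨?_, by linarith, by linarith⟩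
      simp only [o, oz]
      rw [if_neg (not_lt.2 h3.le), if_pos h3]; norm_num
    · rw [h3, abs_zero] at h1
      linarith
    · left
      rw [abs_of_pos h3] at h1 h2
      refine ⟨?_, by linarith, by linarith⟩
      simp only [o, oz]
      rw [if_pos h3]; norm_num
  let x : V → ℝ := fun v => ∑ w, o v w
  -- sums over the boundary
  have hcutsum : ∀ (φ : V → V → ℝ), (∀ u v, φ u v = - φ v u) →
      (∀ u v, φ u v ≠ 0 → G.Adj u v ∧ u ∈ Q ∧ v ∈ Q) → ∀ S ⊆ Q,
      ∑ v ∈ S, ∑ w, φ v w = ∑ v ∈ S, ∑ w ∈ Q \ S, φ v w := by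
    intro φ h1 h2 S hS
    rw [anti_cut h1]
    refine sum_congr rfl fun v _ => ?_
    symm
    refine sum_subset ?_ ?_
    · intro w hw
      exact mem_compl.2 (mem_sdiff.1 hw).2
    · intro w hw hw'
      by_contra h
      exact hw' (mem_sdiff.2 ⟨(h2 v w h).2.2, mem_compl.1 hw⟩)
  have hxS : ∀ S ⊆ Q, |∑ v ∈ S, x v| ≤ 13 / 25 * ee G S (Q \ S) := by
    intro S hS
    have e1 : ∑ v ∈ S, x v = ∑ v ∈ S, ∑ w ∈ Q \ S, o v w := hcutsum o ho1 ho2 S hS
    have e2 : ∑ v ∈ S, ∑ w ∈ Q \ S, f v w = 0 := by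
      rw [← hcutsum f hf1 hf2 S hS]
      exact sum_eq_zero fun v hv => by
        have := hf4 v (hS hv)
        simpa using this
    have e3 : ∑ v ∈ S, x v = ∑ v ∈ S, ∑ w ∈ Q \ S, (o v w - 12 / 25 * f v w) := by
      simp only [sum_sub_distrib, ← mul_sum]
      rw [e2, e1]
      ring
    rw [e3, eeD_eq_sum, mul_sum]
    refine (abs_sum_le_sum_abs _ _).trans (sum_le_sum fun v hv => ?_)
    rw [mul_sum]
    refine (abs_sum_le_sum_abs _ _).trans (sum_le_sum fun w hw => ?_)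
    have hw' := mem_sdiff.1 hw
    by_cases h : G.Adj v w
    · rw [if_pos h, mul_one, abs_le]
      rcases ho3 v (hS hv) w hw'.1 h with ⟨h1, h2, h3⟩ | ⟨h1, h2, h3⟩
      · rw [h1]
        constructor <;> linarith
      · rw [h1]
        constructor <;> linarith
    · rw [if_neg h, mul_zero]
      have h1 : o v w = 0 := by
        by_contra h1
        exact h (ho2 v w h1).1
      have h2 : f v w = 0 := by
        by_contra h2
        exact h (hf2 v w h2).1
      rw [h1, h2]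
      norm_num
  -- single vertices
  have hxint : ∀ v, x v = ((∑ w, oz v w : ℤ) : ℝ) := by
    intro v
    simp only [x, o]
    push_cast
    rfl
  have hee1 : ∀ v ∈ Q, ee G {v} (Q \ {v}) = dg G Q v := by
    intro v hv
    have h1 := sum_dg (G := G) (Q := Q) (Z := {v}) (singleton_subset_iff.2 hv)
    have h2 : inside G {v} = ∅ := by
      ext p
      rw [mem_inside]
      simp only [mem_singleton, notMem_empty, iff_false]
      rintro ⟨e1, e2, e3⟩
      rw [e1, e2] at e3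
      exact G.loopless.irrefl v e3
    rw [sum_singleton, h2, card_empty, zero_add] at h1
    exact h1.symm
  have hx1 : ∀ v ∈ Q, |x v| ≤ 1 := by
    intro v hv
    have h1 := hxS {v} (singleton_subset_iff.2 hv)
    rw [sum_singleton, hee1 v hv] at h1
    have h2 : (dg G Q v : ℝ) ≤ 3 := by
      rcases hQ.deg v hv with h | h <;> rw [h] <;> norm_num
    have h3 : |x v| < 2 := by linarith
    rw [hxint] at h3 ⊢
    have h4 : |(∑ w, oz v w : ℤ)| < 2 := by exact_mod_cast h3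
    have h5 : |(∑ w, oz v w : ℤ)| ≤ 1 := by omega
    exact_mod_cast h5
  have hx0 : ∀ v ∈ sp G Q, x v = 0 := by
    intro v hv
    obtain ⟨hvQ, hv2⟩ := mem_filter.1 hv
    unfold dg at hv2
    obtain ⟨p, q, hpq, hN⟩ := card_eq_two.1 hv2
    have hp : p ∈ Q ∧ G.Adj v p := by
      have : p ∈ Q.filter fun w => G.Adj v w := by rw [hN]; simp
      exact mem_filter.1 this
    have hq : q ∈ Q ∧ G.Adj v q := by
      have : q ∈ Q.filter fun w => G.Adj v w := by rw [hN]; simp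
      exact mem_filter.1 this
    have hsum : ∀ φ : V → V → ℝ, (∀ u v, φ u v ≠ 0 → G.Adj u v ∧ u ∈ Q ∧ v ∈ Q) →
        ∑ w, φ v w = φ v p + φ v q := by
      intro φ h2
      rw [← sum_pair hpq, ← hN]
      symm
      refine sum_subset (subset_univ _) fun w _ hw => ?_
      by_contra h
      exact hw (mem_filter.2 ⟨(h2 v w h).2.2, (h2 v w h).1⟩)
    have h1 := hf4 v hvQ
    rw [hsum f hf2] at h1
    have h1' : f v p + f v q = 0 := by simpa using h1
    show ∑ w, o v w = 0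
    rw [hsum o ho2]
    rcases ho3 v hvQ p hp.1 hp.2 with ⟨h2, h3, h4⟩ | ⟨h2, h3, h4⟩ <;>
      rcases ho3 v hvQ q hq.1 hq.2 with ⟨h5, h6, h7⟩ | ⟨h5, h6, h7⟩
    · linarith
    · rw [h2, h5]; norm_num
    · rw [h2, h5]; norm_num
    · linarith
  let ρ : V → ℝ := fun v => b v - 5 / 2 * x v
  have hxQ : ∑ v ∈ Q, x v = 0 := by
    have h1 := hxS Q (subset_refl Q)
    rw [sdiff_self] at h1
    have h2 : ee G Q ∅ = 0 := by simp [ee]
    rw [show (⊥ : Finset V) = ∅ from rfl, h2] at h1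
    have h3 : |∑ v ∈ Q, x v| ≤ 0 := by simpa using h1
    exact abs_nonpos_iff.1 h3
  have hρ0 : ∑ v ∈ Q, ρ v = 0 := by
    simp only [ρ, sum_sub_distrib, ← mul_sum, h0, hxQ]
    norm_num
  have hsplit : ∀ (φ : V → ℝ), ∑ v ∈ Q, φ v = 0 → ∀ Z ⊆ Q,
      |∑ v ∈ Z, φ v| = |∑ v ∈ Q \ Z, φ v| := by
    intro φ h Z hZ
    have h1 := sum_sdiff (f := φ) hZ
    rw [h] at h1
    have h2 : ∑ v ∈ Z, φ v = - ∑ v ∈ Q \ Z, φ v := by linarith
    rw [h2, abs_neg]
  have hbZ : ∀ Z ⊆ Q, |∑ v ∈ Z, b v| ≤ (Z ∩ sp G Q).card := by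
    intro Z hZ
    have h1 : ∑ v ∈ Z ∩ sp G Q, b v = ∑ v ∈ Z, b v := by
      refine sum_subset inter_subset_left fun v hv hv' => ?_
      exact hb0 v (hZ hv) fun h => hv' (mem_inter.2 ⟨hv, h⟩)
    rw [← h1]
    refine (abs_sum_le_sum_abs _ _).trans ?_
    calc ∑ v ∈ Z ∩ sp G Q, |b v| ≤ ∑ v ∈ Z ∩ sp G Q, (1 : ℝ) :=
          sum_le_sum fun v hv => hb v (mem_inter.1 hv).2
      _ = _ := by rw [sum_const, nsmul_eq_mul, mul_one]
  have hxZ : ∀ Z ⊆ Q, |∑ v ∈ Z, x v| ≤ (Z \ sp G Q).card := by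
    intro Z hZ
    have h1 : ∑ v ∈ Z \ sp G Q, x v = ∑ v ∈ Z, x v := by
      refine sum_subset sdiff_subset fun v hv hv' => ?_
      refine hx0 v ?_
      by_contra h
      exact hv' (mem_sdiff.2 ⟨hv, h⟩)
    rw [← h1]
    refine (abs_sum_le_sum_abs _ _).trans ?_
    calc ∑ v ∈ Z \ sp G Q, |x v| ≤ ∑ v ∈ Z \ sp G Q, (1 : ℝ) :=
          sum_le_sum fun v hv => hx1 v (hZ (mem_sdiff.1 hv).1)
      _ = _ := by rw [sum_const, nsmul_eq_mul, mul_one]
  have hρZ : ∀ Z : Finset V, |∑ v ∈ Z, ρ v| ≤ |∑ v ∈ Z, b v| + 5 / 2 * |∑ v ∈ Z, x v| := by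
    intro Z
    simp only [ρ, sum_sub_distrib, ← mul_sum]
    refine (abs_sub _ _).trans ?_
    rw [abs_mul, abs_of_pos (by norm_num : (0 : ℝ) < 5 / 2)]
  -- acyclic parts
  have htree : ∀ Z ⊆ Q, Z.Nonempty → Joined G Z → ¬ Cyc G Z →
      |∑ v ∈ Z, ρ v| ≤ 3 / 2 * ee G Z (Q \ Z) := by
    intro Z hZ hne hJ hac
    have h1 := ee_of_acyclic hQ hZ hne hac
    have h1' : ((Z \ sp G Q).card : ℝ) + 2 ≤ ee G Z (Q \ Z) := by exact_mod_cast h1
    have h2 := hρZ Z
    have h3 := hbZ Z hZ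
    have h4 := hxZ Z hZ
    have h5 := hxS Z hZ
    have h6 : (0 : ℝ) ≤ ee G Z (Q \ Z) := Nat.cast_nonneg _
    by_cases hn0 : (Z ∩ sp G Q).card = 0
    · rw [hn0, Nat.cast_zero] at h3
      linarith
    · by_cases hn1 : (Z ∩ sp G Q).card = 1
      · rw [hn1, Nat.cast_one] at h3
        by_cases hn3 : (Z \ sp G Q).card ≤ 2
        · have h7 : ((Z \ sp G Q).card : ℝ) ≤ 2 := by exact_mod_cast hn3
          linarith
        · have h7 : 5 ≤ ee G Z (Q \ Z) := by omega
          have h8 : (5 : ℝ) ≤ ee G Z (Q \ Z) := by exact_mod_cast h7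
          linarith
      · have h7 := pack hQ (r := 6) (by omega) (by norm_num) hZ hJ (by omega)
        have h8 : (Z ∩ sp G Q).card + (Z \ sp G Q).card = Z.card := card_inter_add_card_sdiff Z _
        have h9 : 5 * (Z ∩ sp G Q).card ≤ (Z \ sp G Q).card := by omega
        have h10 : (5 : ℝ) * (Z ∩ sp G Q).card ≤ (Z \ sp G Q).card := by exact_mod_cast h9
        linarith
  have hbond : ∀ Z ⊆ Q, Z.Nonempty → (Q \ Z).Nonempty → Joined G Z → Joined G (Q \ Z) →
      |∑ v ∈ Z, ρ v| ≤ 3 / 2 * ee G Z (Q \ Z) := by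
    intro Z hZ hne hne' hJ hJ'
    by_cases hac : Cyc G Z
    · by_cases hac' : Cyc G (Q \ Z)
      · have h1 := hQ.cut Z hZ hac hac'
        have h2 := hρZ Z
        have h3 := hxS Z hZ
        have h4 := hbZ Z hZ
        have h5 := hbZ (Q \ Z) sdiff_subset
        rw [← hsplit b h0 Z hZ] at h5
        have h6 : |∑ v ∈ Z, b v| ≤ (min (Z ∩ sp G Q).card ((Q \ Z) ∩ sp G Q).card : ℕ) := by
          rw [Nat.cast_min]
          exact le_min h4 h5
        have h7 : 5 * min (Z ∩ sp G Q).card ((Q \ Z) ∩ sp G Q).card ≤ ee G Z (Q \ Z) := by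
          refine le_trans ?_ h1
          exact Nat.mul_le_mul (by omega) (by omega)
        have h8 : (5 : ℝ) * (min (Z ∩ sp G Q).card ((Q \ Z) ∩ sp G Q).card : ℕ) ≤
            ee G Z (Q \ Z) := by exact_mod_cast h7
        linarith
      · have h1 := htree (Q \ Z) sdiff_subset hne' hJ' hac'
        rw [Finset.sdiff_sdiff_eq_self hZ, ee_comm', ← hsplit ρ hρ0 Z hZ] at h1
        exact h1
    · exact htree Z hZ hne hJ hac
  have hall := bond_red G Q (hQ.joined (by omega)) ρ hρ0 (by norm_num : (0 : ℝ) ≤ 3 / 2) hbond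
  obtain ⟨g, hg1, hg2, hg3, hg4⟩ := hoffD G Qᶜ (s := ρ) (by rw [compl_compl]; exact hρ0)
    (b := 3 / 2) (by norm_num) (by
      intro S hS
      have hSQ : S ⊆ Q := by
        intro v hv
        by_contra h
        exact (Finset.disjoint_left.1 hS hv) (mem_compl.2 h)
      have e1 : (S ∪ Qᶜ)ᶜ = Q \ S := by
        ext v
        simp only [mem_compl, mem_union, mem_sdiff]
        tauto
      rw [e1]
      exact hall S hSQ)
  have hg2' : ∀ u v, g u v ≠ 0 → G.Adj u v ∧ u ∈ Q ∧ v ∈ Q := by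
    intro u v h
    obtain ⟨h1, h2, h3⟩ := hg2 u v h
    exact ⟨h1, by simpa using h2, by simpa using h3⟩
  refine ⟨fun u v => 5 / 2 * o u v + g u v, ?_, ?_, ?_, ?_⟩
  · intro u v
    show 5 / 2 * o u v + g u v = - (5 / 2 * o v u + g v u)
    rw [ho1 u v, hg1 u v]
    ring
  · intro u v h
    by_cases h1 : o u v = 0
    · have h2 : g u v ≠ 0 := by
        intro h2
        apply h
        show 5 / 2 * o u v + g u v = 0
        rw [h1, h2]
        norm_num
      exact hg2' u v h2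
    · exact ho2 u v h1
  · intro u hu v hv huv
    have h1 := abs_le.1 (hg3 u v)
    show 1 ≤ |5 / 2 * o u v + g u v| ∧ |5 / 2 * o u v + g u v| ≤ 4
    rcases ho3 u hu v hv huv with ⟨h2, -, -⟩ | ⟨h2, -, -⟩
    · rw [h2, abs_of_nonneg (by linarith)]
      constructor <;> linarith
    · rw [h2, abs_of_nonpos (by linarith)]
      constructor <;> linarith
  · intro v hv
    show ∑ u, (5 / 2 * o v u + g v u) = b v
    rw [sum_add_distrib, ← mul_sum, hg4 v (by simpa using hv)]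
    show 5 / 2 * x v + (b v - 5 / 2 * x v) = b v
    ring

end Pool.Agent.K5.Gl
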