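import Pool.Agent.Work.MP_974d84_co_k5.GlSupFlow
import Pool.Agent.Work.MP_974d84_co_k5.GlExtOf
import Pool.Agent.Work.MP_974d84_co_k5.GlUnit
import Pool.Agent.Work.MP_974d84_co_k5.GlMain
import Pool.Agent.Work.MP_974d84_co_k5.GlQuot
import Pool.Agent.Work.MP_974d84_co_k5.HandInG

/-!
# Gluing: assembly
-/

set_option linter.unusedSectionVars false

namespace Pool.Agent.K5.Gl

open Finset SimpleGraph Pool.Agent.Exp Pool.Agent.K5 MP974d84

/-- The base flow of a piece. -/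
theorem base_sol (hG : ThmG) : ∃ K₀ : ℕ, ∀ K : ℕ, K₀ ≤ K → ∀ {V : Type} [Fintype V]
    [DecidableEq V] (G : SimpleGraph V) [DecidableRel G.Adj] (Q : Finset V), St G K Q →
    Sol G Q (31 / 10) 0 := by
  obtain ⟨k, hk⟩ := near_four_g hG (1 / 10) (by norm_num)
  refine ⟨max k 6, fun K hK V _ _ G _ Q hQ => ?_⟩
  have h6 : 6 ≤ K := (le_max_right _ _).trans hK
  obtain ⟨⟨f, f1, f2, f3, f4⟩, -⟩ := hk (ST G Q) (sup G Q) (sup_deg hQ h6)
    (fun S h1 h2 => ((le_max_left _ _).trans hK).trans (sup_cyc hQ h6 S h1 h2))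
  exact sup_flow hQ h6 f f1 f2 f3 fun u v huv => ⟨(f4 u v huv).1, (f4 u v huv).2.trans
    (by norm_num)⟩

/-- **Extension into a piece.** -/
theorem ext_final (hG : ThmG) :
    ∃ K₀ : ℕ, ∀ {V : Type} [Fintype V] [DecidableEq V] (G : SimpleGraph V) [DecidableRel G.Adj]
      (Q : Finset V), St G K₀ Q → ∀ b : V → ℤ, (∀ v ∈ sp G Q, b v ≠ 0 ∧ |b v| ≤ 4) →
      (∀ v ∈ Q, v ∉ sp G Q → b v = 0) → ∑ v ∈ Q, b v = 0 → Sol G Q 4 fun v => (b v : ℝ) := by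
  obtain ⟨K, hK⟩ := base_sol hG
  refine ⟨4 * max K 12 + 6, fun {V} _ _ G _ Q hQ b hb hb0 h0 => ?_⟩
  exact ext_sol_of (K := max K 12) (le_max_right _ _)
    (fun {V} _ _ {G} _ {Q} h1 h2 b h3 h4 h5 => unit_sol h1 (le_max_right _ _) h2 b h3 h4 h5)
    (fun {V} _ _ G _ Q h => hK _ (le_max_left _ _) G Q h) hQ b hb hb0 h0

/-- **Gluing.** Pieces and single vertices: a nowhere-zero integer flow of the quotient with
absolute values at most four extends. -/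
theorem glue_final (hG : ThmG) :
    ∃ K : ℕ, ∀ {V : Type} [Fintype V] [DecidableEq V] (G : SimpleGraph V) [DecidableRel G.Adj],
      (∀ v, G.degree v = 3) → ∀ {p : ℕ} (c : V → Fin p),
      (∀ i, (univ.filter fun v => c v = i).card ≤ 1 ∨ St G K (univ.filter fun v => c v = i)) →
      ((∃ g : V → V → ℤ, (∀ u v, g u v = - g v u) ∧ (∀ u v, g u v ≠ 0 ↔ G.Adj u v ∧ c u ≠ c v) ∧
        (∀ u v, |g u v| ≤ 4) ∧ ∀ i, ∑ v ∈ univ.filter (fun v => c v = i), ∑ u, g v u = 0) ∨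
        (∀ I : Finset (Fin p), (∃ v, c v ∈ I) → (∃ v, c v ∉ I) →
          4 ≤ dd G (univ.filter fun v => c v ∈ I))) →
      ∀ i : ℕ, 5 ≤ i → HasNZFlow (ZMod i) G := by
  obtain ⟨K, hK⟩ := ext_final hG
  refine ⟨K, fun {V} _ _ G _ h3 {p} c hc h => ?_⟩
  have hg : ∃ g : V → V → ℤ, (∀ u v, g u v = - g v u) ∧
      (∀ u v, g u v ≠ 0 ↔ G.Adj u v ∧ c u ≠ c v) ∧ (∀ u v, |g u v| ≤ 4) ∧
      ∀ i, ∑ v ∈ univ.filter (fun v => c v = i), ∑ u, g v u = 0 := by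
    rcases h with h | h
    · exact h
    · exact quot_flow G c h
  obtain ⟨g, g1, g2, g3, g4⟩ := hg
  exact glue_main (fun {V} _ _ G _ Q hQ b hb hb0 h0 => hK G Q hQ b hb hb0 h0) G h3 c hc g g1 g2 g3 g4

end Pool.Agent.K5.Gl
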