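import Pool.Agent.Work.MP_974d84_co_k5.DefsGl
import Pool.Agent.Work.MP_974d84_co_log.Cluster

/-!
# Gluing, G7: removing special vertices
-/

set_option linter.unusedSectionVars false

namespace Pool.Agent.K5.Gl

open Finset SimpleGraph Pool.Agent.Exp Pool.Agent.K5 Pool.Agent.Log5 Pool.Agent.Log5.Clu

namespace Peel

variable {V : Type} [Fintype V] [DecidableEq V] {G : SimpleGraph V} [DecidableRel G.Adj]

theorem mem_sp {Q : Finset V} {v : V} : v ∈ sp G Q ↔ v ∈ Q ∧ dg G Q v = 2 := mem_filter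

theorem reach {X : Finset V} (hX : Joined G X) {u v : V} (hu : u ∈ X) (hv : v ∈ X) :
    (G.induce (X : Set V)).Reachable ⟨u, hu⟩ ⟨v, hv⟩ := by
  classical
  by_contra hcon
  obtain ⟨x, hx, y, hy, hyA, hxy⟩ := hX
    (X.filter fun w => ∃ hw : w ∈ (X : Set V), (G.induce (X : Set V)).Reachable ⟨u, hu⟩ ⟨w, hw⟩)
    (filter_subset _ _) ⟨u, mem_filter.2 ⟨hu, hu, Reachable.refl _⟩⟩ (fun h' => by
      rw [filter_eq_self] at h'
      obtain ⟨_, h2⟩ := h' v hv
      exact hcon h2)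
  obtain ⟨_, hx', hr⟩ := mem_filter.1 hx
  refine hyA (mem_filter.2 ⟨hy, hy, hr.trans (Adj.reachable ?_)⟩)
  exact hxy

/-- A vertex with two neighbours in a joined set closes a cycle. -/
theorem not_acyclic {X : Finset V} (hX : Joined G X) {a u v : V} (ha : a ∉ X) (hu : u ∈ X)
    (hv : v ∈ X) (huv : u ≠ v) (hau : G.Adj a u) (hav : G.Adj a v) :
    ¬ (G.induce ((X ∪ {a} : Finset V) : Set V)).IsAcyclic := by
  intro hac
  have hXa : ∀ x ∈ X, x ∈ ((X ∪ {a} : Finset V) : Set V) := fun x hx =>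
    mem_coe.2 (mem_union_left _ hx)
  have haa : a ∈ ((X ∪ {a} : Finset V) : Set V) := mem_coe.2 (mem_union_right _ (mem_singleton_self a))
  have hb := isAcyclic_iff_forall_isBridge.1 hac
    (e := s((⟨a, haa⟩ : ((X ∪ {a} : Finset V) : Set V)), ⟨u, hXa u hu⟩)) (by
      rw [mem_edgeSet]
      exact hau)
  rw [isBridge_iff] at hb
  apply hb
  let f : G.induce (X : Set V) →g ((G.induce ((X ∪ {a} : Finset V) : Set V)).deleteEdges
      {s((⟨a, haa⟩ : ((X ∪ {a} : Finset V) : Set V)), ⟨u, hXa u hu⟩)}) :=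
    ⟨fun x => ⟨x.1, hXa x.1 x.2⟩, by
      intro x y hxy
      rw [deleteEdges_adj]
      refine ⟨hxy, ?_⟩
      rw [Set.mem_singleton_iff, Sym2.eq_iff]
      rintro (⟨h1, _⟩ | ⟨_, h1⟩)
      · have e : x.1 = a := congrArg Subtype.val h1
        exact ha (by rw [← e]; exact x.2)
      · have e : y.1 = a := congrArg Subtype.val h1
        exact ha (by rw [← e]; exact y.2)⟩
  have h1 := (reach hX hv hu).map f
  refine Reachable.trans (Adj.reachable ?_) h1
  rw [deleteEdges_adj]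
  refine ⟨hav, ?_⟩
  rw [Set.mem_singleton_iff, Sym2.eq_iff]
  rintro (⟨_, h2⟩ | ⟨h2, _⟩)
  · exact huv (congrArg Subtype.val h2).symm
  · have e : a = u := congrArg Subtype.val h2
    exact ha (by rw [e]; exact hu)

theorem cyc_mono {A B : Finset V} (h : A ⊆ B) (hA : Cyc G A) : Cyc G B := by
  intro hB
  refine hA ?_
  have h1 : Function.Injective (Set.inclusion (coe_subset.2 h)) := Set.inclusion_injective _
  exact hB.comap (⟨Set.inclusion (coe_subset.2 h), fun {a b} hab => hab⟩ :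
    (G.induce (A : Set V)) →g (G.induce (B : Set V))) h1

theorem no_adj {K : ℕ} {Q : Finset V} (hQ : St G K Q) (hK : 3 ≤ K) {u v : V} (hu : u ∈ sp G Q)
    (hv : v ∈ sp G Q) : ¬ G.Adj u v := by
  intro huv
  have h := hQ.far ({u} ∪ {v}) (union_subset (singleton_subset_iff.2 (mem_sp.1 hu).1)
    (singleton_subset_iff.2 (mem_sp.1 hv).1))
    (joined_union (joined_singleton u) (joined_singleton v) (mem_singleton_self u)
      (mem_singleton_self v) huv) u (mem_inter.2 ⟨by simp, hu⟩) v (mem_inter.2 ⟨by simp, hv⟩)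
    (G.ne_of_adj huv)
  have := card_union_le {u} {v}
  simp only [card_singleton] at this
  omega

theorem no_two {K : ℕ} {Q : Finset V} (hQ : St G K Q) (hK : 4 ≤ K) {a a' v : V} (ha : a ∈ sp G Q)
    (ha' : a' ∈ sp G Q) (hne : a ≠ a') (hv : v ∈ Q) (h1 : G.Adj a v) (h2 : G.Adj a' v) :
    False := by
  have hj := joined_union (joined_union (joined_singleton a) (joined_singleton v)
    (mem_singleton_self a) (mem_singleton_self v) h1) (joined_singleton a')
    (mem_union_right _ (mem_singleton_self v)) (mem_singleton_self a') h2.symm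
  have h := hQ.far ({a} ∪ {v} ∪ {a'}) (union_subset (union_subset
    (singleton_subset_iff.2 (mem_sp.1 ha).1) (singleton_subset_iff.2 hv))
    (singleton_subset_iff.2 (mem_sp.1 ha').1)) hj a (mem_inter.2 ⟨by simp, ha⟩) a'
    (mem_inter.2 ⟨by simp, ha'⟩) hne
  have e1 := card_union_le ({a} ∪ {v}) {a'}
  have e2 := card_union_le {a} {v}
  simp only [card_singleton] at e1 e2
  omega

theorem dg_add {Q A : Finset V} (hA : A ⊆ Q) (v : V) : dg G (Q \ A) v + dg G A v = dg G Q v := by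
  unfold dg
  rw [← card_union_of_disjoint]
  · congr 1
    ext w
    simp only [mem_union, mem_filter, mem_sdiff]
    have := @hA w
    tauto
  · rw [Finset.disjoint_left]
    intro w hw hw'
    exact (mem_sdiff.1 (mem_filter.1 hw).1).2 (mem_filter.1 hw').1

theorem dg_zero {A : Finset V} {v : V} : dg G A v = 0 ↔ ∀ a ∈ A, ¬ G.Adj v a := by
  unfold dg
  rw [card_eq_zero, filter_eq_empty_iff]

theorem dg_le_one {K : ℕ} {Q : Finset V} (hQ : St G K Q) (hK : 4 ≤ K) {A : Finset V}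
    (hA : A ⊆ sp G Q) {v : V} (hv : v ∈ Q) : dg G A v ≤ 1 := by
  unfold dg
  rw [card_le_one]
  intro a ha a' ha'
  by_contra hne
  exact no_two hQ hK (hA (mem_filter.1 ha).1) (hA (mem_filter.1 ha').1) hne hv
    (mem_filter.1 ha).2.symm (mem_filter.1 ha').2.symm

/-- The new degrees. -/
theorem deg_new {K : ℕ} {Q : Finset V} (hQ : St G K Q) (hK : 4 ≤ K) {A : Finset V}
    (hA : A ⊆ sp G Q) {v : V} (hv : v ∈ Q \ A) :
    (dg G (Q \ A) v = 2 ∨ dg G (Q \ A) v = 3) ∧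
      (dg G (Q \ A) v = 2 ↔ v ∈ sp G Q ∨ ∃ a ∈ A, G.Adj a v) := by
  have hv1 := (mem_sdiff.1 hv).1
  have hAQ : A ⊆ Q := hA.trans (filter_subset _ _)
  have h1 := dg_add (G := G) hAQ v
  have h2 := dg_le_one hQ hK hA hv1
  have h3 : dg G A v = 0 ↔ ¬ ∃ a ∈ A, G.Adj a v := by
    rw [dg_zero]
    push Not
    exact ⟨fun h a ha h' => h a ha h'.symm, fun h a ha h' => h a ha h'.symm⟩
  rcases hQ.deg v hv1 with h4 | h4
  · have hvs : v ∈ sp G Q := mem_sp.2 ⟨hv1, h4⟩
    have h5 : dg G A v = 0 := h3.2 fun ⟨a, ha, h⟩ => no_adj hQ (by omega) (hA ha) hvs h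
    have h6 : dg G (Q \ A) v = 2 := by omega
    exact ⟨Or.inl h6, fun _ => Or.inl hvs, fun _ => h6⟩
  · have hvs : v ∉ sp G Q := fun h => by
      have := (mem_sp.1 h).2
      omega
    by_cases h5 : ∃ a ∈ A, G.Adj a v
    · have h6 : dg G A v ≠ 0 := fun h => h3.1 h h5
      have h7 : dg G (Q \ A) v = 2 := by omega
      exact ⟨Or.inl h7, fun _ => Or.inr h5, fun _ => h7⟩
    · have h6 := h3.2 h5
      refine ⟨Or.inr (by omega), fun h => by omega, fun h => ?_⟩
      rcases h with h | h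
      · exact absurd h hvs
      · exact absurd h h5

theorem ee_dg (A B : Finset V) : ee G A B = ∑ v ∈ A, dg G B v := by
  apply Nat.cast_injective (R := ℝ)
  rw [eeD_eq_sum]
  push_cast
  refine sum_congr rfl fun v _ => ?_
  unfold dg
  rw [card_filter]
  push_cast
  rfl

theorem ee_comm' (A B : Finset V) : ee G A B = ee G B A := by
  apply Nat.cast_injective (R := ℝ)
  rw [eeD_eq_sum, eeD_eq_sum, sum_comm]
  refine sum_congr rfl fun v _ => sum_congr rfl fun w _ => ?_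
  simp only [G.adj_comm]

theorem dg_union {A B : Finset V} (h : Disjoint A B) (v : V) :
    dg G (A ∪ B) v = dg G A v + dg G B v := by
  unfold dg
  rw [filter_union, card_union_of_disjoint]
  exact Finset.disjoint_filter_filter h

/-- Half of the vertices with one neighbour on each side goes to each side. -/
theorem select (A : Finset V) (α β : V → ℕ) (h : ∀ a ∈ A, α a + β a = 2) :
    ∃ A1 A2 : Finset V, Disjoint A1 A2 ∧ A1 ∪ A2 = A ∧ ∑ a ∈ A1, β a ≤ ∑ a ∈ A2, α a + 1 ∧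
      ∑ a ∈ A2, α a ≤ ∑ a ∈ A1, β a + 1 ∧ ∑ a ∈ A1, β a ≤ A1.card ∧
      ∑ a ∈ A2, α a ≤ A2.card := by
  induction A using Finset.induction_on with
  | empty => exact ⟨∅, ∅, by simp, by simp, by simp, by simp, by simp, by simp⟩
  | insert a A ha ih =>
    obtain ⟨A1, A2, h1, h2, h3, h4, h5, h6⟩ := ih fun b hb => h b (mem_insert_of_mem hb)
    have hab := h a (mem_insert_self a A)
    have ha1 : a ∉ A1 := fun h' => ha (h2 ▸ mem_union_left _ h')
    have ha2 : a ∉ A2 := fun h' => ha (h2 ▸ mem_union_right _ h')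
    have c1 : (∃ A1' A2' : Finset V, A1' = insert a A1 ∧ A2' = A2 ∧ Disjoint A1' A2' ∧
        A1' ∪ A2' = insert a A) :=
      ⟨_, _, rfl, rfl, by
        rw [disjoint_insert_left]
        exact ⟨ha2, h1⟩, by rw [insert_union, h2]⟩
    have c2 : (∃ A1' A2' : Finset V, A1' = A1 ∧ A2' = insert a A2 ∧ Disjoint A1' A2' ∧
        A1' ∪ A2' = insert a A) :=
      ⟨_, _, rfl, rfl, by
        rw [disjoint_insert_right]
        exact ⟨ha1, h1⟩, by rw [union_insert, h2]⟩
    by_cases hc : α a = 2 ∨ (α a = 1 ∧ ∑ a ∈ A1, β a ≤ ∑ a ∈ A2, α a)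
    · obtain ⟨A1', A2', e1, e2, d1, d2⟩ := c1
      refine ⟨A1', A2', d1, d2, ?_⟩
      rw [e1, e2, sum_insert ha1, card_insert_of_notMem ha1]
      omega
    · obtain ⟨A1', A2', e1, e2, d1, d2⟩ := c2
      refine ⟨A1', A2', d1, d2, ?_⟩
      rw [e1, e2, sum_insert ha2, card_insert_of_notMem ha2]
      omega

theorem sp_new {K : ℕ} {Q : Finset V} (hQ : St G K Q) (hK : 4 ≤ K) {A : Finset V}
    (hA : A ⊆ sp G Q) :
    sp G (Q \ A) = (sp G Q \ A) ∪ ((Q \ A).filter fun v => ∃ a ∈ A, G.Adj a v) := by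
  ext v
  rw [mem_sp, mem_union, mem_sdiff (s := sp G Q), mem_filter (s := Q \ A)]
  constructor
  · rintro ⟨hv, h2⟩
    rcases (deg_new hQ hK hA hv).2.1 h2 with h | h
    · exact Or.inl ⟨h, (mem_sdiff.1 hv).2⟩
    · exact Or.inr ⟨hv, h⟩
  · rintro (⟨h, h'⟩ | ⟨hv, h⟩)
    · have hv : v ∈ Q \ A := mem_sdiff.2 ⟨(mem_sp.1 h).1, h'⟩
      exact ⟨hv, (deg_new hQ hK hA hv).2.2 (Or.inl h)⟩
    · exact ⟨hv, (deg_new hQ hK hA hv).2.2 (Or.inr h)⟩

/-- New special vertices in a set. -/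
theorem sp_card {K : ℕ} {Q : Finset V} (hQ : St G K Q) (hK : 4 ≤ K) {A : Finset V}
    (hA : A ⊆ sp G Q) (X : Finset V) :
    (X ∩ sp G (Q \ A)).card ≤ (X ∩ sp G Q).card + ∑ a ∈ A, dg G X a := by
  have h1 : X ∩ sp G (Q \ A) ⊆ (X ∩ sp G Q) ∪ A.biUnion fun a => X.filter fun w => G.Adj a w := by
    intro v hv
    obtain ⟨hvX, hv⟩ := mem_inter.1 hv
    rw [sp_new hQ hK hA] at hv
    rcases mem_union.1 hv with h | h
    · exact mem_union_left _ (mem_inter.2 ⟨hvX, (mem_sdiff.1 h).1⟩)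
    · obtain ⟨a, ha, hav⟩ := (mem_filter.1 h).2
      exact mem_union_right _ (mem_biUnion.2 ⟨a, ha, mem_filter.2 ⟨hvX, hav⟩⟩)
  refine (card_le_card h1).trans ((card_union_le _ _).trans ?_)
  exact Nat.add_le_add_left card_biUnion_le _

theorem far_new {K : ℕ} {Q : Finset V} (hQ : St G (2 * K + 2) Q) (hK : 2 ≤ K) {A : Finset V}
    (hA : A ⊆ sp G Q) {X : Finset V} (hX : X ⊆ Q \ A) (hJ : Joined G X) {u v : V}
    (hu : u ∈ X ∩ sp G (Q \ A)) (hv : v ∈ X ∩ sp G (Q \ A)) (huv : u ≠ v) : K ≤ X.card := by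
  have hAQ : A ⊆ Q := hA.trans (filter_subset _ _)
  have anc : ∀ w ∈ X ∩ sp G (Q \ A), ∃ a ∈ sp G Q, a = w ∨ (a ∈ A ∧ G.Adj a w) := by
    intro w hw
    obtain ⟨hwX, hw⟩ := mem_inter.1 hw
    rw [sp_new hQ (by omega) hA] at hw
    rcases mem_union.1 hw with h | h
    · exact ⟨w, (mem_sdiff.1 h).1, Or.inl rfl⟩
    · obtain ⟨a, ha, haw⟩ := (mem_filter.1 h).2
      exact ⟨a, hA ha, Or.inr ⟨ha, haw⟩⟩
  obtain ⟨a, ha, hau⟩ := anc u hu
  obtain ⟨b, hb, hbv⟩ := anc v hv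
  have huX := (mem_inter.1 hu).1
  have hvX := (mem_inter.1 hv).1
  have hXQ : X ⊆ Q := hX.trans sdiff_subset
  have hnA : ∀ w ∈ X, w ∉ A := fun w hw => (mem_sdiff.1 (hX hw)).2
  have step : ∀ (Y : Finset V), Joined G Y → ∀ c w : V, w ∈ Y → (c = w ∨ (c ∈ A ∧ G.Adj c w)) →
      Joined G (Y ∪ {c}) := by
    intro Y hY c w hw hc
    rcases hc with rfl | ⟨_, hc⟩
    · rw [union_eq_left.2 (singleton_subset_iff.2 hw)]
      exact hY
    · exact joined_union hY (joined_singleton c) hw (mem_singleton_self c) hc.symm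
  by_cases hab : a = b
  · subst hab
    rcases hau with e1 | ⟨haA, hau⟩
    · rcases hbv with e2 | ⟨haA, hav⟩
      · exact absurd (e1.symm.trans e2) huv
      · exact absurd haA (hnA a (e1 ▸ huX))
    · rcases hbv with e2 | ⟨_, hav⟩
      · exact absurd haA (hnA a (e2 ▸ hvX))
      · by_contra hcon
        have e2 := card_union_le X {a}
        rw [card_singleton] at e2
        exact not_acyclic hJ (fun h => hnA a h haA) huX hvX huv hau hav
          (hQ.gir _ (union_subset hXQ (singleton_subset_iff.2 (hAQ haA))) (by omega))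
  · have hj := step _ (step X hJ a u huX hau) b v (mem_union_left _ hvX) hbv
    have h := hQ.far (X ∪ {a} ∪ {b}) (union_subset (union_subset hXQ
      (singleton_subset_iff.2 (mem_sp.1 ha).1)) (singleton_subset_iff.2 (mem_sp.1 hb).1)) hj a
      (mem_inter.2 ⟨by simp, ha⟩) b (mem_inter.2 ⟨by simp, hb⟩) hab
    have e1 := card_union_le (X ∪ {a}) {b}
    have e2 := card_union_le X {a}
    rw [card_singleton] at e1 e2
    omega

theorem cut_new {K : ℕ} {Q : Finset V} (hQ : St G (2 * K + 2) Q) (hK : 2 ≤ K) {A : Finset V}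
    (hA : A ⊆ sp G Q) {X : Finset V} (hX : X ⊆ Q \ A) (c1 : Cyc G X) (c2 : Cyc G ((Q \ A) \ X)) :
    K * (1 + min (X ∩ sp G (Q \ A)).card (((Q \ A) \ X) ∩ sp G (Q \ A)).card) ≤
      ee G X ((Q \ A) \ X) := by
  have hAQ : A ⊆ Q := hA.trans (filter_subset _ _)
  set Y := (Q \ A) \ X with hY
  have hYA : Y ⊆ Q \ A := sdiff_subset
  obtain ⟨A1, A2, d, u, s1, s2, s3, s4⟩ := select A (fun a => dg G X a) (fun a => dg G Y a) (by
    intro a ha
    have h1 := dg_add (G := G) hAQ a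
    have h2 : dg G Y a + dg G X a = dg G (Q \ A) a := dg_add (G := G) hX a
    have h3 : dg G A a = 0 := dg_zero.2 fun b hb => no_adj hQ (by omega) (hA ha) (hA hb)
    have h4 := (mem_sp.1 (hA ha)).2
    omega)
  have hA1 : A1 ⊆ A := u ▸ subset_union_left
  have hA2 : A2 ⊆ A := u ▸ subset_union_right
  have eQ : Q \ (X ∪ A1) = Y ∪ A2 := by
    ext v
    simp only [hY, mem_sdiff, mem_union]
    have h1 := @hX v
    have h2 := @hA1 v
    have h3 := @hA2 v
    have h4 := @hAQ v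
    have h5 : v ∈ A → v ∈ A1 ∨ v ∈ A2 := fun h => mem_union.1 (u ▸ h)
    have h6 : v ∈ A1 → v ∉ A2 := fun h => Finset.disjoint_left.1 d h
    rw [mem_sdiff] at h1
    tauto
  have dXA : Disjoint X A := Finset.disjoint_left.2 fun v hv => (mem_sdiff.1 (hX hv)).2
  have dYA : Disjoint Y A := Finset.disjoint_left.2 fun v hv => (mem_sdiff.1 (hYA hv)).2
  have dX1 : Disjoint X A1 := dXA.mono_right hA1
  have dY2 : Disjoint Y A2 := dYA.mono_right hA2
  have hc := hQ.cut (X ∪ A1) (union_subset (hX.trans sdiff_subset) (hA1.trans hAQ))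
    (cyc_mono subset_union_left c1) (by rw [eQ]; exact cyc_mono subset_union_left c2)
  rw [eQ] at hc
  have e1 : ee G (X ∪ A1) (Y ∪ A2) = ee G X Y + ∑ a ∈ A2, dg G X a + ∑ a ∈ A1, dg G Y a := by
    rw [ee_dg, sum_union dX1]
    have h1 : ∑ v ∈ X, dg G (Y ∪ A2) v = ee G X Y + ∑ a ∈ A2, dg G X a := by
      rw [← ee_dg A2 X, ee_comm' A2 X, ee_dg X Y, ee_dg X A2, ← sum_add_distrib]
      exact sum_congr rfl fun v _ => dg_union dY2 v
    have h2 : ∑ v ∈ A1, dg G (Y ∪ A2) v = ∑ a ∈ A1, dg G Y a := by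
      refine sum_congr rfl fun v hv => ?_
      rw [dg_union dY2, dg_zero.2 fun b hb => no_adj hQ (by omega) (hA (hA1 hv)) (hA (hA2 hb)),
        add_zero]
    rw [h1, h2]
  have e2 : (X ∩ sp G Q).card + A1.card ≤ ((X ∪ A1) ∩ sp G Q).card := by
    rw [← card_union_of_disjoint (dX1.mono_left inter_subset_left)]
    refine card_le_card (union_subset (inter_subset_inter_right subset_union_left) fun v hv => ?_)
    exact mem_inter.2 ⟨mem_union_right _ hv, hA (hA1 hv)⟩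
  have e3 : (Y ∩ sp G Q).card + A2.card ≤ ((Y ∪ A2) ∩ sp G Q).card := by
    rw [← card_union_of_disjoint (dY2.mono_left inter_subset_left)]
    refine card_le_card (union_subset (inter_subset_inter_right subset_union_left) fun v hv => ?_)
    exact mem_inter.2 ⟨mem_union_right _ hv, hA (hA2 hv)⟩
  have hdeg : ∀ a ∈ A, dg G X a + dg G Y a = 2 := by
    intro a ha
    have h1 := dg_add (G := G) hAQ a
    have h2 : dg G Y a + dg G X a = dg G (Q \ A) a := dg_add (G := G) hX a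
    have h3 : dg G A a = 0 := dg_zero.2 fun b hb => no_adj hQ (by omega) (hA ha) (hA hb)
    have h4 := (mem_sp.1 (hA ha)).2
    omega
  have e4 : ∑ a ∈ A1, dg G X a + ∑ a ∈ A1, dg G Y a = 2 * A1.card := by
    rw [← sum_add_distrib, sum_congr rfl fun a ha => hdeg a (hA1 ha), sum_const, smul_eq_mul,
      mul_comm]
  have e5 : ∑ a ∈ A2, dg G X a + ∑ a ∈ A2, dg G Y a = 2 * A2.card := by
    rw [← sum_add_distrib, sum_congr rfl fun a ha => hdeg a (hA2 ha), sum_const, smul_eq_mul,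
      mul_comm]
  have e6 : ∑ a ∈ A, dg G X a = ∑ a ∈ A1, dg G X a + ∑ a ∈ A2, dg G X a := by
    rw [← u, sum_union d]
  have e7 : ∑ a ∈ A, dg G Y a = ∑ a ∈ A1, dg G Y a + ∑ a ∈ A2, dg G Y a := by
    rw [← u, sum_union d]
  have x1 := sp_card hQ (by omega) hA X
  have x2 := sp_card hQ (by omega) hA Y
  set m := min ((X ∪ A1) ∩ sp G Q).card ((Y ∪ A2) ∩ sp G Q).card with hm
  have b1 : min (X ∩ sp G (Q \ A)).card (Y ∩ sp G (Q \ A)).card ≤ 2 * m + 1 := by
    omega
  have b2 : ∑ a ∈ A2, dg G X a + ∑ a ∈ A1, dg G Y a ≤ 2 * m + 1 := by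
    omega
  have b3 : K * (1 + min (X ∩ sp G (Q \ A)).card (Y ∩ sp G (Q \ A)).card) ≤ K * (2 * m + 2) :=
    Nat.mul_le_mul_left _ (by omega)
  have b4 : (2 * K + 2) * (1 + m) = K * (2 * m + 2) + 2 * m + 2 := by ring
  omega

end Peel

/-- G7. -/
theorem peel {V : Type} [Fintype V] [DecidableEq V] {G : SimpleGraph V} [DecidableRel G.Adj]
    {K : ℕ} {Q : Finset V} (hQ : St G (2 * K + 2) Q) (hK : 2 ≤ K) (A : Finset V)
    (hA : A ⊆ sp G Q) : St G K (Q \ A) ∧
      sp G (Q \ A) = (sp G Q \ A) ∪ ((Q \ A).filter fun v => ∃ a ∈ A, G.Adj a v) :=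
  ⟨⟨fun v hv => (Peel.deg_new hQ (by omega) hA hv).1,
    fun X hX hc => hQ.gir X (hX.trans sdiff_subset) (by omega),
    fun X hX hJ u hu v hv huv => Peel.far_new hQ hK hA hX hJ hu hv huv,
    fun X hX c1 c2 => Peel.cut_new hQ hK hA hX c1 c2⟩, Peel.sp_new hQ (by omega) hA⟩

end Pool.Agent.K5.Gl
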