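import Pool.Agent.Work.MP_974d84_co_k5.GlSupCyc

/-!
# Gluing, G8: halving the boundary values
-/

set_option linter.unusedSectionVars false

namespace Pool.Agent.K5.Gl

open Finset SimpleGraph Pool.Agent.Exp Pool.Agent.K5 Pool.Agent.Log5 Pool.Agent.Log5.Clu

open Peel SupCyc

theorem half_int {N : ℕ} {z : ℤ} (h1 : (N : ℤ) < |z|) (h2 : |z| ≤ 2 * N) (hN : 1 ≤ N) :
    (z / 2 ≠ 0 ∧ |z / 2| ≤ N) ∧ (z - z / 2 ≠ 0 ∧ |z - z / 2| ≤ N) := by
  rw [abs_le, abs_le]
  rcases abs_cases z with ⟨h3, h4⟩ | ⟨h3, h4⟩ <;> rw [h3] at h1 h2 <;>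
    refine ⟨⟨?_, ?_, ?_⟩, ?_, ?_, ?_⟩ <;> omega

/-- One step: the large values are halved. -/
theorem peel_step {V : Type} [Fintype V] [DecidableEq V] {G : SimpleGraph V} [DecidableRel G.Adj]
    {K N : ℕ} {r : ℝ} (hN : 1 ≤ N) (hr : (N : ℝ) ≤ r) {Q : Finset V} (hQ : St G (2 * K + 2) Q)
    (hK : 2 ≤ K) (b : V → ℤ) (hb : ∀ v ∈ sp G Q, b v ≠ 0 ∧ |b v| ≤ 2 * N)
    (hb0 : ∀ v ∈ Q, v ∉ sp G Q → b v = 0) (h0 : ∑ v ∈ Q, b v = 0) :
    ∃ (Q' : Finset V) (b' : V → ℤ), St G K Q' ∧ (∀ v ∈ sp G Q', b' v ≠ 0 ∧ |b' v| ≤ N) ∧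
      (∀ v ∈ Q', v ∉ sp G Q' → b' v = 0) ∧ ∑ v ∈ Q', b' v = 0 ∧
      (Sol G Q' r (fun v => (b' v : ℝ)) → Sol G Q r fun v => (b v : ℝ)) := by
  classical
  set A : Finset V := (sp G Q).filter fun u => (N : ℤ) < |b u| with hAd
  have hA : A ⊆ sp G Q := filter_subset _ _
  have hAQ : A ⊆ Q := hA.trans (filter_subset _ _)
  obtain ⟨hQ', hsp⟩ := peel hQ hK A hA
  -- the two neighbours
  have hex : ∀ u : V, ∃ x y, u ∈ A → (x ∈ Q ∧ y ∈ Q ∧ x ≠ y ∧ G.Adj u x ∧ G.Adj u y) := by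
    intro u
    by_cases h : u ∈ A
    · obtain ⟨x, y, h1⟩ := exists_two (hA h)
      exact ⟨x, y, fun _ => h1⟩
    · exact ⟨u, u, fun h' => absurd h' h⟩
  choose x y hxy using hex
  have hnA : ∀ u ∈ A, ∀ w, G.Adj u w → w ∉ A := fun u hu w huw hw =>
    no_adj hQ (by omega) (hA hu) (hA hw) huw
  let hz : V → V → ℤ := fun u w => if u ∈ A then (if w = x u then b u / 2 else
    if w = y u then b u - b u / 2 else 0) else 0
  have hz0 : ∀ u w, u ∉ A → hz u w = 0 := fun u w h => if_neg h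
  have hz1 : ∀ u ∈ A, hz u (x u) = b u / 2 := fun u hu => by
    simp only [hz, if_pos hu, if_true]
  have hz2 : ∀ u ∈ A, hz u (y u) = b u - b u / 2 := fun u hu => by
    simp only [hz, if_pos hu, if_neg (hxy u hu).2.2.1.symm, if_true]
  have hz3 : ∀ u w, hz u w ≠ 0 → u ∈ A ∧ w ∈ Q ∧ G.Adj u w ∧ w ∉ A := by
    intro u w h
    by_cases hu : u ∈ A
    · have h1 := hxy u hu
      by_cases hx : w = x u
      · subst hx
        exact ⟨hu, h1.1, h1.2.2.2.1, hnA u hu _ h1.2.2.2.1⟩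
      · by_cases hy : w = y u
        · subst hy
          exact ⟨hu, h1.2.1, h1.2.2.2.2, hnA u hu _ h1.2.2.2.2⟩
        · exfalso
          apply h
          simp only [hz, if_pos hu, if_neg hx, if_neg hy]
    · exact absurd (hz0 u w hu) h
  have hz4 : ∀ u ∈ A, ∀ w ∈ Q, G.Adj u w → hz u w ≠ 0 ∧ |hz u w| ≤ N := by
    intro u hu w hw huw
    have h1 := hxy u hu
    have h2 := half_int (mem_filter.1 hu).2 (hb u (hA hu)).2 hN
    rcases other (hA hu) h1.1 h1.2.1 hw h1.2.2.1 h1.2.2.2.1 h1.2.2.2.2 huw with h | h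
    · subst h
      rw [hz1 u hu]
      exact h2.1
    · subst h
      rw [hz2 u hu]
      exact h2.2
  -- the value at the vertices
  have hz5 : ∀ u ∈ A, ∀ S : Finset V, x u ∈ S → y u ∈ S → ∑ w ∈ S, hz u w = b u := by
    intro u hu S hx hy
    have h1 := (hxy u hu).2.2.1
    have h2 : ∑ w ∈ ({x u, y u} : Finset V), hz u w = ∑ w ∈ S, hz u w := by
      refine sum_subset ?_ ?_
      · intro w hw
        rcases mem_insert.1 hw with rfl | hw
        · exact hx
        · rw [mem_singleton.1 hw]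
          exact hy
      · intro w _ hw
        rw [mem_insert, mem_singleton] at hw
        push Not at hw
        simp only [hz, if_pos hu, if_neg hw.1, if_neg hw.2]
    rw [← h2, sum_pair h1, hz1 u hu, hz2 u hu]
    ring
  refine ⟨Q \ A, fun w => b w + ∑ u ∈ A, hz u w, hQ', ?_, ?_, ?_, ?_⟩
  · intro w hw
    rw [hsp, mem_union] at hw
    rcases hw with h | h
    · obtain ⟨hws, hwA⟩ := mem_sdiff.1 h
      have h1 : ∑ u ∈ A, hz u w = 0 := by
        refine sum_eq_zero fun u hu => ?_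
        by_contra hne
        exact no_adj hQ (by omega) (hA hu) hws (hz3 u w hne).2.2.1
      show b w + ∑ u ∈ A, hz u w ≠ 0 ∧ |b w + ∑ u ∈ A, hz u w| ≤ N
      rw [h1, add_zero]
      refine ⟨(hb w hws).1, ?_⟩
      by_contra hcon
      exact hwA (mem_filter.2 ⟨hws, not_le.1 hcon⟩)
    · obtain ⟨hwQ, a, ha, haw⟩ := mem_filter.1 h
      have hwQ' := (mem_sdiff.1 hwQ).1
      have hws : w ∉ sp G Q := fun h' => no_adj hQ (by omega) (hA ha) h' haw
      have h1 : ∑ u ∈ A, hz u w = hz a w := by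
        refine sum_eq_single a (fun u hu hne => ?_) (fun h' => absurd ha h')
        by_contra hne'
        exact no_two hQ (by omega) (hA hu) (hA ha) hne hwQ' (hz3 u w hne').2.2.1 haw
      show b w + ∑ u ∈ A, hz u w ≠ 0 ∧ |b w + ∑ u ∈ A, hz u w| ≤ N
      rw [h1, hb0 w hwQ' hws, zero_add]
      exact hz4 a ha w hwQ' haw
  · intro w hw hws
    obtain ⟨hwQ, hwA⟩ := mem_sdiff.1 hw
    have h1 : w ∉ sp G Q := fun h => hws (by
      rw [hsp]
      exact mem_union_left _ (mem_sdiff.2 ⟨h, hwA⟩))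
    have h2 : ∑ u ∈ A, hz u w = 0 := by
      refine sum_eq_zero fun u hu => ?_
      by_contra hne
      refine hws ?_
      rw [hsp]
      exact mem_union_right _ (mem_filter.2 ⟨hw, u, hu, (hz3 u w hne).2.2.1⟩)
    show b w + ∑ u ∈ A, hz u w = 0
    rw [h2, hb0 w hwQ h1, add_zero]
  · rw [sum_add_distrib, sum_comm]
    have h1 : ∑ u ∈ A, ∑ w ∈ Q \ A, hz u w = ∑ u ∈ A, b u := by
      refine sum_congr rfl fun u hu => ?_
      have h2 := hxy u hu
      exact hz5 u hu _ (mem_sdiff.2 ⟨h2.1, hnA u hu _ h2.2.2.2.1⟩)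
        (mem_sdiff.2 ⟨h2.2.1, hnA u hu _ h2.2.2.2.2⟩)
    rw [h1, sum_sdiff hAQ, h0]
  · rintro ⟨f, f1, f2, f3, f4⟩
    have hfz : ∀ u w, u ∈ A → f u w = 0 := by
      intro u w hu
      by_contra hne
      exact (mem_sdiff.1 (f2 u w hne).2.1).2 hu
    have hfz' : ∀ u w, w ∈ A → f u w = 0 := by
      intro u w hw
      rw [f1, hfz w u hw, neg_zero]
    refine ⟨fun u w => f u w + (hz u w - hz w u : ℤ), ?_, ?_, ?_, ?_⟩
    · intro u w
      show f u w + ((hz u w - hz w u : ℤ) : ℝ) = - (f w u + ((hz w u - hz u w : ℤ) : ℝ))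
      rw [f1 u w]
      push_cast
      ring
    · intro u w h
      by_cases h1 : f u w = 0
      · by_cases h2 : hz u w = 0
        · by_cases h3 : hz w u = 0
          · exfalso
            apply h
            show f u w + ((hz u w - hz w u : ℤ) : ℝ) = 0
            rw [h1, h2, h3]
            simp
          · obtain ⟨g1, g2, g3, -⟩ := hz3 w u h3
            exact ⟨g3.symm, g2, hAQ g1⟩
        · obtain ⟨g1, g2, g3, -⟩ := hz3 u w h2
          exact ⟨g3, hAQ g1, g2⟩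
      · obtain ⟨g1, g2, g3⟩ := f2 u w h1
        exact ⟨g1, (mem_sdiff.1 g2).1, (mem_sdiff.1 g3).1⟩
    · intro u hu w hw huw
      show 1 ≤ |f u w + ((hz u w - hz w u : ℤ) : ℝ)| ∧ |f u w + ((hz u w - hz w u : ℤ) : ℝ)| ≤ r
      have cast : ∀ z : ℤ, z ≠ 0 → |z| ≤ N → 1 ≤ |(z : ℝ)| ∧ |(z : ℝ)| ≤ r := by
        intro z h1 h2
        have h3 : 1 ≤ |z| := Int.one_le_abs h1
        have h5 : (1 : ℝ) ≤ |(z : ℝ)| := by exact_mod_cast h3
        have h6 : |(z : ℝ)| ≤ (N : ℝ) := by exact_mod_cast h2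
        exact ⟨h5, h6.trans hr⟩
      by_cases huA : u ∈ A
      · have hwA := hnA u huA w huw
        rw [hfz u w huA, hz0 w u hwA, sub_zero, zero_add]
        exact cast _ (hz4 u huA w hw huw).1 (hz4 u huA w hw huw).2
      · by_cases hwA : w ∈ A
        · rw [hfz' u w hwA, hz0 u w huA, zero_sub, zero_add]
          push_cast
          rw [abs_neg]
          exact cast _ (hz4 w hwA u hu huw.symm).1 (hz4 w hwA u hu huw.symm).2
        · rw [hz0 u w huA, hz0 w u hwA, sub_zero, Int.cast_zero, add_zero]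
          exact f3 u (mem_sdiff.2 ⟨hu, huA⟩) w (mem_sdiff.2 ⟨hw, hwA⟩) huw
    · intro v hv
      show ∑ w, (f v w + ((hz v w - hz w v : ℤ) : ℝ)) = (b v : ℝ)
      rw [sum_add_distrib, ← Int.cast_sum, sum_sub_distrib]
      by_cases hvA : v ∈ A
      · have h1 : ∑ w, f v w = 0 := sum_eq_zero fun w _ => hfz v w hvA
        have h2 : ∑ w, hz v w = b v := hz5 v hvA univ (mem_univ _) (mem_univ _)
        have h3 : ∑ w, hz w v = 0 := by
          refine sum_eq_zero fun w _ => ?_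
          by_contra hne
          exact (hz3 w v hne).2.2.2 hvA
        rw [h1, h2, h3]
        simp
      · have h1 : ∑ w, f v w = ((b v + ∑ u ∈ A, hz u v : ℤ) : ℝ) :=
          f4 v (mem_sdiff.2 ⟨hv, hvA⟩)
        have h2 : ∑ w, hz v w = 0 := sum_eq_zero fun w _ => hz0 v w hvA
        have h3 : ∑ w, hz w v = ∑ u ∈ A, hz u v := by
          symm
          exact sum_subset (subset_univ _) fun w _ hw => hz0 w v hw
        rw [h1, h2, h3]
        push_cast
        ring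

end Pool.Agent.K5.Gl
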