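import Pool.Agent.Work.MP_974d84_co_k5.GlSupCyc

/-!
# Gluing, G2a: the suppressed graph is cubic
-/

set_option linter.unusedSectionVars false

namespace Pool.Agent.K5.Gl

open Finset SimpleGraph Pool.Agent.Exp Pool.Agent.K5 Pool.Agent.Log5 Pool.Agent.Log5.Clu

namespace Sup

open Peel SupCyc

variable {V : Type} [Fintype V] [DecidableEq V] {G : SimpleGraph V} [DecidableRel G.Adj]

open Classical in
/-- The end of the branch through `y` seen from `x`. -/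
noncomputable def en (G : SimpleGraph V) [DecidableRel G.Adj] (Q : Finset V) (x y : V) : V :=
  if h : ∃ z, z ∈ Q ∧ G.Adj y z ∧ z ≠ x ∧ y ∈ sp G Q then h.choose else y

theorem en_of_not {Q : Finset V} {x y : V} (h : y ∉ sp G Q) : en G Q x y = y := by
  unfold en
  rw [dif_neg]
  rintro ⟨z, -, -, -, h'⟩
  exact h h'

theorem en_spec {Q : Finset V} {x y : V} (h : y ∈ sp G Q) :
    en G Q x y ∈ Q ∧ G.Adj y (en G Q x y) ∧ en G Q x y ≠ x := by
  have h1 : ∃ z, z ∈ Q ∧ G.Adj y z ∧ z ≠ x ∧ y ∈ sp G Q := by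
    obtain ⟨a, b, ha, hb, hab, hya, hyb⟩ := exists_two h
    by_cases hax : a = x
    · exact ⟨b, hb, hyb, fun h' => hab (hax.trans h'.symm), h⟩
    · exact ⟨a, ha, hya, hax, h⟩
  unfold en
  rw [dif_pos h1]
  exact ⟨h1.choose_spec.1, h1.choose_spec.2.1, h1.choose_spec.2.2.1⟩

theorem en_st {K : ℕ} {Q : Finset V} (hQ : St G K Q) (hK : 3 ≤ K) {x y : V} (hy : y ∈ Q) :
    en G Q x y ∈ Q ∧ dg G Q (en G Q x y) = 3 := by
  by_cases h : y ∈ sp G Q
  · obtain ⟨h1, h2, h3⟩ := en_spec (x := x) h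
    refine ⟨h1, (hQ.deg _ h1).resolve_left fun h4 => ?_⟩
    exact no_adj hQ hK h (mem_sp.2 ⟨h1, h4⟩) h2
  · rw [en_of_not h]
    exact ⟨hy, (hQ.deg y hy).resolve_left fun h4 => h (mem_sp.2 ⟨hy, h4⟩)⟩

theorem en_ne {Q : Finset V} {x y : V} (hxy : G.Adj x y) : en G Q x y ≠ x := by
  by_cases h : y ∈ sp G Q
  · exact (en_spec h).2.2
  · rw [en_of_not h]
    exact (G.ne_of_adj hxy).symm

theorem en_adj {K : ℕ} {Q : Finset V} (hQ : St G K Q) (hK : 3 ≤ K) (x : ST G Q) {y : V}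
    (hy : y ∈ Q) (hxy : G.Adj x.1 y) : (sup G Q).Adj x ⟨en G Q x.1 y, en_st hQ hK hy⟩ := by
  refine ⟨fun h => en_ne hxy (congrArg Subtype.val h).symm, ?_⟩
  by_cases h : y ∈ sp G Q
  · exact Or.inr ⟨y, h, hxy, (en_spec h).2.1⟩
  · refine Or.inl ?_
    show G.Adj x.1 (en G Q x.1 y)
    rw [en_of_not h]
    exact hxy

theorem en_inj {K : ℕ} {Q : Finset V} (hQ : St G K Q) (hK : 4 ≤ K) {x y y' : V} (hx : x ∈ Q)
    (hy : y ∈ Q) (hy' : y' ∈ Q) (hxy : G.Adj x y) (hxy' : G.Adj x y')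
    (h : en G Q x y = en G Q x y') : y = y' := by
  by_cases h1 : y ∈ sp G Q
  · by_cases h2 : y' ∈ sp G Q
    · by_contra hne
      exact no_two hQ hK h1 h2 hne hx hxy.symm hxy'.symm
    · exfalso
      rw [en_of_not h2] at h
      have h3 := (en_spec (x := x) h1).2.1
      rw [h] at h3
      exact no_triangle hQ hK hx hy' hy hxy' hxy.symm h3
  · by_cases h2 : y' ∈ sp G Q
    · exfalso
      rw [en_of_not h1] at h
      have h3 := (en_spec (x := x) h2).2.1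
      rw [← h] at h3
      exact no_triangle hQ hK hx hy hy' hxy hxy'.symm h3
    · rwa [en_of_not h1, en_of_not h2] at h

theorem en_eq {Q : Finset V} {x y z : V} (hy : y ∈ sp G Q) (hx : x ∈ Q) (hz : z ∈ Q)
    (hxz : x ≠ z) (h1 : G.Adj y x) (h2 : G.Adj y z) : en G Q x y = z := by
  obtain ⟨h3, h4, h5⟩ := en_spec (x := x) hy
  rcases other hy hx hz h3 hxz h1 h2 h4 with h | h
  · exact absurd h h5
  · exact h

theorem en_surj {Q : Finset V} {x w : ST G Q} (h : (sup G Q).Adj x w) :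
    ∃ y ∈ Q, G.Adj x.1 y ∧ en G Q x.1 y = w.1 := by
  rcases h.2 with h1 | ⟨u, hu, h1, h2⟩
  · exact ⟨w.1, w.2.1, h1, en_of_not (not_sp w)⟩
  · exact ⟨u, (mem_sp.1 hu).1, h1, en_eq hu x.2.1 w.2.1 (fun h' => h.1 (Subtype.ext h')) h1.symm h2⟩

end Sup

open Peel SupCyc Sup

/-- G2a. -/
theorem sup_deg {V : Type} [Fintype V] [DecidableEq V] {G : SimpleGraph V} [DecidableRel G.Adj]
    {K : ℕ} {Q : Finset V} (hQ : St G K Q) (hK : 6 ≤ K) : (sup G Q).IsRegularOfDegree 3 := by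
  classical
  intro x
  rw [← card_neighborFinset_eq_degree]
  have h3 : (Q.filter fun w => G.Adj x.1 w).card = 3 := x.2.2
  rw [← h3]
  symm
  refine card_bij (fun y hy => ⟨en G Q x.1 y, en_st hQ (by omega) (mem_filter.1 hy).1⟩) ?_ ?_ ?_
  · intro y hy
    rw [mem_neighborFinset]
    exact en_adj hQ (by omega) x (mem_filter.1 hy).1 (mem_filter.1 hy).2
  · intro y hy y' hy' h
    exact en_inj hQ (by omega) x.2.1 (mem_filter.1 hy).1 (mem_filter.1 hy').1 (mem_filter.1 hy).2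
      (mem_filter.1 hy').2 (congrArg Subtype.val h)
  · intro w hw
    rw [mem_neighborFinset] at hw
    obtain ⟨y, hy, hxy, he⟩ := en_surj hw
    exact ⟨y, mem_filter.2 ⟨hy, hxy⟩, Subtype.ext he⟩

end Pool.Agent.K5.Gl
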