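import Pool.Agent.Work.MP_974d84_co_k5.GlPeel
import Pool.Agent.Work.MP_974d84_co_k5.GlCyc

/-!
# Gluing, G2b: cyclic cuts of the suppressed graph
-/

set_option linter.unusedSectionVars false

namespace Pool.Agent.K5.Gl

open Finset SimpleGraph Pool.Agent.Exp Pool.Agent.K5 Pool.Agent.Log5 Pool.Agent.Log5.Clu

namespace SupCyc

open Peel

variable {V : Type} [Fintype V] [DecidableEq V] {G : SimpleGraph V} [DecidableRel G.Adj]

/-- The two neighbours of a special vertex. -/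
theorem other {Q : Finset V} {u x y z : V} (hu : u ∈ sp G Q) (hx : x ∈ Q) (hy : y ∈ Q) (hz : z ∈ Q)
    (hxy : x ≠ y) (h1 : G.Adj u x) (h2 : G.Adj u y) (h3 : G.Adj u z) : z = x ∨ z = y := by
  by_contra hcon
  push Not at hcon
  have h4 : ({x, y, z} : Finset V) ⊆ Q.filter fun w => G.Adj u w := by
    intro w hw
    simp only [mem_insert, mem_singleton] at hw
    rw [mem_filter]
    rcases hw with rfl | rfl | rfl
    · exact ⟨hx, h1⟩
    · exact ⟨hy, h2⟩
    · exact ⟨hz, h3⟩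
  have h5 := card_le_card h4
  have h6 := (mem_sp.1 hu).2
  unfold dg at h6
  rw [h6, card_eq_three.2 ⟨x, y, z, hxy, hcon.1.symm, hcon.2.symm, rfl⟩] at h5
  omega

theorem exists_two {Q : Finset V} {u : V} (hu : u ∈ sp G Q) :
    ∃ x y, x ∈ Q ∧ y ∈ Q ∧ x ≠ y ∧ G.Adj u x ∧ G.Adj u y := by
  have h := (mem_sp.1 hu).2
  unfold dg at h
  obtain ⟨x, y, hxy, he⟩ := card_eq_two.1 h
  have hx : x ∈ Q.filter fun w => G.Adj u w := by rw [he]; simp
  have hy : y ∈ Q.filter fun w => G.Adj u w := by rw [he]; simp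
  exact ⟨x, y, (mem_filter.1 hx).1, (mem_filter.1 hy).1, hxy, (mem_filter.1 hx).2,
    (mem_filter.1 hy).2⟩

/-- A vertex of the suppressed graph is not special. -/
theorem not_sp {Q : Finset V} (w : ST G Q) : w.1 ∉ sp G Q := fun h => by
  have h1 := (mem_sp.1 h).2
  have h2 := w.2.2
  omega

theorem no_triangle {K : ℕ} {Q : Finset V} (hQ : St G K Q) (hK : 4 ≤ K) {x y z : V} (hx : x ∈ Q)
    (hy : y ∈ Q) (hz : z ∈ Q) (h1 : G.Adj x y) (h2 : G.Adj z x) (h3 : G.Adj z y) : False := by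
  have e1 := card_union_le ({x} ∪ {y}) {z}
  have e2 := card_union_le {x} {y}
  simp only [card_singleton] at e1 e2
  have hxz := G.ne_of_adj h2
  have hyz := G.ne_of_adj h3
  refine not_acyclic (X := {x} ∪ {y}) (a := z) (u := x) (v := y)
    (joined_union (joined_singleton x) (joined_singleton y) (mem_singleton_self x)
      (mem_singleton_self y) h1) ?_ (by simp) (by simp) (G.ne_of_adj h1) h2 h3
    (hQ.gir _ (union_subset (union_subset (singleton_subset_iff.2 hx) (singleton_subset_iff.2 hy))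
      (singleton_subset_iff.2 hz)) (by omega))
  rw [mem_union, mem_singleton, mem_singleton]
  rintro (h | h)
  · exact hxz h
  · exact hyz h

/-- Cycles of the suppressed graph come from cycles. -/
theorem lift {Q : Finset V} {T : Finset (ST G Q)} (hT : Cyc (sup G Q) T) {Y : Finset V}
    (hY1 : ∀ w ∈ T, w.1 ∈ Y)
    (hY2 : ∀ u ∈ sp G Q, (∀ w ∈ Q, G.Adj u w → ∃ t ∈ T, t.1 = w) → u ∈ Y) : Cyc G Y := by
  classical
  obtain ⟨A, hA, ⟨a, ha⟩, hd⟩ := (cyc_iff (sup G Q) T).1 hT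
  rw [cyc_iff]
  refine ⟨A.image (fun w => w.1) ∪ (sp G Q).filter fun u =>
    ∀ w ∈ Q, G.Adj u w → ∃ t ∈ A, t.1 = w, ?_, ⟨a.1, mem_union_left _ (mem_image_of_mem _ ha)⟩, ?_⟩
  · intro x hx
    rcases mem_union.1 hx with h | h
    · obtain ⟨w, hw, rfl⟩ := mem_image.1 h
      exact hY1 w (hA hw)
    · obtain ⟨h1, h2⟩ := mem_filter.1 h
      exact hY2 x h1 fun w hw huw => by
        obtain ⟨t, ht, h3⟩ := h2 w hw huw
        exact ⟨t, hA ht, h3⟩
  · intro v hv
    rcases mem_union.1 hv with h | h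
    · obtain ⟨w, hw, rfl⟩ := mem_image.1 h
      have h2 := hd w hw
      unfold dg at h2
      obtain ⟨w1, hw1, w2, hw2, hne⟩ := one_lt_card.1 (lt_of_lt_of_le one_lt_two h2)
      obtain ⟨hw1A, hw1a⟩ := mem_filter.1 hw1
      obtain ⟨hw2A, hw2a⟩ := mem_filter.1 hw2
      have hx : ∀ w' ∈ A, (sup G Q).Adj w w' → ∃ x, (x = w'.1 ∨ (x ∈ sp G Q ∧ G.Adj x w'.1)) ∧
          G.Adj w.1 x ∧ x ∈ A.image (fun w => w.1) ∪ (sp G Q).filter fun u =>
            ∀ w ∈ Q, G.Adj u w → ∃ t ∈ A, t.1 = w := by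
        intro w' hw' hww'
        rcases hww'.2 with h3 | ⟨u, hu, h3, h4⟩
        · exact ⟨w'.1, Or.inl rfl, h3, mem_union_left _ (mem_image_of_mem _ hw')⟩
        · refine ⟨u, Or.inr ⟨hu, h4⟩, h3, mem_union_right _ (mem_filter.2 ⟨hu, ?_⟩)⟩
          intro z hz huz
          rcases other hu w.2.1 w'.2.1 hz (fun h => hww'.1 (Subtype.ext h)) h3.symm h4 huz with
            rfl | rfl
          · exact ⟨w, hw, rfl⟩
          · exact ⟨w', hw', rfl⟩
      obtain ⟨x1, hx1, hx1a, hx1A⟩ := hx w1 hw1A hw1a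
      obtain ⟨x2, hx2, hx2a, hx2A⟩ := hx w2 hw2A hw2a
      have hx12 : x1 ≠ x2 := by
        rintro rfl
        rcases hx1 with h3 | ⟨h3, h3'⟩
        · rcases hx2 with h4 | ⟨h4, h4'⟩
          · exact hne (Subtype.ext (h3.symm.trans h4))
          · exact not_sp w1 (h3 ▸ h4)
        · rcases hx2 with h4 | ⟨h4, h4'⟩
          · exact not_sp w2 (h4 ▸ h3)
          · rcases other h3 w.2.1 w1.2.1 w2.2.1 (fun h => hw1a.1 (Subtype.ext h)) hx1a.symm h3' h4'
              with h5 | h5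
            · exact hw2a.1 (Subtype.ext h5.symm)
            · exact hne (Subtype.ext h5.symm)
      unfold dg
      refine one_lt_card.2 ⟨x1, mem_filter.2 ⟨hx1A, hx1a⟩, x2, mem_filter.2 ⟨hx2A, hx2a⟩, hx12⟩
    · obtain ⟨h1, h2⟩ := mem_filter.1 h
      obtain ⟨x, y, hx, hy, hxy, hvx, hvy⟩ := exists_two h1
      have key : ∀ z ∈ Q, G.Adj v z → z ∈ A.image (fun w => w.1) := by
        intro z hz hvz
        obtain ⟨t, ht, rfl⟩ := h2 z hz hvz
        exact mem_image_of_mem _ ht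
      unfold dg
      exact one_lt_card.2 ⟨x, mem_filter.2 ⟨mem_union_left _ (key x hx hvx), hvx⟩, y,
        mem_filter.2 ⟨mem_union_left _ (key y hy hvy), hvy⟩, hxy⟩

end SupCyc

open Peel SupCyc

/-- G2b. -/
theorem sup_cyc {V : Type} [Fintype V] [DecidableEq V] {G : SimpleGraph V} [DecidableRel G.Adj]
    {K : ℕ} {Q : Finset V} (hQ : St G K Q) (hK : 6 ≤ K) (S : Finset (ST G Q))
    (h1 : ¬ ((sup G Q).induce (S : Set (ST G Q))).IsAcyclic)
    (h2 : ¬ ((sup G Q).induce ((Sᶜ : Finset (ST G Q)) : Set (ST G Q))).IsAcyclic) :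
    K ≤ ((sup G Q).interedges S Sᶜ).card := by
  classical
  set X : Finset V := S.image (fun w => w.1) ∪ (sp G Q).filter fun u =>
    ∀ w ∈ Q, G.Adj u w → ∃ t ∈ S, t.1 = w with hX
  have hXQ : X ⊆ Q := by
    intro x hx
    rcases mem_union.1 hx with h | h
    · obtain ⟨w, _, rfl⟩ := mem_image.1 h
      exact w.2.1
    · exact (mem_sp.1 (mem_filter.1 h).1).1
  have hSX : ∀ w : ST G Q, w.1 ∈ X ↔ w ∈ S := by
    intro w
    constructor
    · intro h
      rcases mem_union.1 h with h | h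
      · obtain ⟨t, ht, h3⟩ := mem_image.1 h
        have : t = w := Subtype.ext h3
        exact this ▸ ht
      · exact absurd (mem_filter.1 h).1 (not_sp w)
    · intro h
      exact mem_union_left _ (mem_image_of_mem _ h)
  have c1 : Cyc G X := lift h1 (fun w hw => (hSX w).2 hw)
    (fun u hu h => mem_union_right _ (mem_filter.2 ⟨hu, h⟩))
  have c2 : Cyc G (Q \ X) := by
    refine lift h2 (fun w hw => mem_sdiff.2 ⟨w.2.1, fun h => (mem_compl.1 hw) ((hSX w).1 h)⟩)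
      (fun u hu h => mem_sdiff.2 ⟨(mem_sp.1 hu).1, fun h3 => ?_⟩)
    rcases mem_union.1 h3 with h4 | h4
    · obtain ⟨t, _, h5⟩ := mem_image.1 h4
      exact not_sp t (h5 ▸ hu)
    · obtain ⟨x, y, hx, hy, hxy, hux, huy⟩ := exists_two hu
      obtain ⟨t, ht, h5⟩ := h x hx hux
      obtain ⟨t', ht', h6⟩ := (mem_filter.1 h4).2 x hx hux
      have : t = t' := Subtype.ext (h5.trans h6.symm)
      exact (mem_compl.1 ht) (this ▸ ht')
  have hc := hQ.cut X hXQ c1 c2
  have hle : K ≤ ee G X (Q \ X) :=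
    le_trans (Nat.le_mul_of_pos_right K (by omega)) hc
  refine hle.trans ?_
  unfold ee
  refine card_le_card_of_forall_subsingleton (fun (p : V × V) (q : ST G Q × ST G Q) =>
    q.1.1 = p.1 ∧ (q.2.1 = p.2 ∨ (p.2 ∈ sp G Q ∧ G.Adj p.2 q.2.1))) ?_ ?_
  · rintro ⟨x, y⟩ hp
    obtain ⟨-, hx, hy, hxy⟩ := mem_filter.1 hp
    simp only at hx hy hxy
    obtain ⟨hyQ, hyX⟩ := mem_sdiff.1 hy
    have hxQ := hXQ hx
    rcases mem_union.1 hx with h | h
    · obtain ⟨a, ha, rfl⟩ := mem_image.1 h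
      rcases hQ.deg y hyQ with h3 | h3
      · have hys : y ∈ sp G Q := mem_sp.2 ⟨hyQ, h3⟩
        -- the other neighbour of `y`
        have h4 : ¬ ∀ w ∈ Q, G.Adj y w → ∃ t ∈ S, t.1 = w := fun h' =>
          hyX (mem_union_right _ (mem_filter.2 ⟨hys, h'⟩))
        push Not at h4
        obtain ⟨z, hz, hyz, h5⟩ := h4
        have hzs : z ∉ sp G Q := fun h' => no_adj hQ (by omega) hys h' hyz
        have hz3 : dg G Q z = 3 := (hQ.deg z hz).resolve_left fun h' => hzs (mem_sp.2 ⟨hz, h'⟩)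
        refine ⟨(a, ⟨z, hz, hz3⟩), ?_, rfl, Or.inr ⟨hys, hyz⟩⟩
        rw [mem_interedges_iff]
        refine ⟨ha, mem_compl.2 fun h' => h5 _ h' rfl, ?_, Or.inr ⟨y, hys, hxy, hyz⟩⟩
        intro h'
        exact h5 a ha (congrArg Subtype.val h')
      · refine ⟨(a, ⟨y, hyQ, h3⟩), ?_, rfl, Or.inl rfl⟩
        rw [mem_interedges_iff]
        refine ⟨ha, mem_compl.2 fun h' => hyX ((hSX _).2 h'), ?_, Or.inl hxy⟩
        intro h'
        exact G.ne_of_adj hxy (congrArg Subtype.val h')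
    · obtain ⟨hxs, h3⟩ := mem_filter.1 h
      obtain ⟨t, ht, h4⟩ := h3 y hyQ hxy
      exact absurd (h4 ▸ (hSX t).2 ht) hyX
  · rintro ⟨a, b⟩ hq ⟨x, y⟩ hp ⟨x', y'⟩ hp'
    obtain ⟨hp1, e1, hp2⟩ := hp
    obtain ⟨hp1', e1', hp2'⟩ := hp'
    obtain ⟨-, hx, hy, hxy⟩ := mem_filter.1 hp1
    obtain ⟨-, hx', hy', hxy'⟩ := mem_filter.1 hp1'
    simp only at e1 e1' hx hy hxy hx' hy' hxy' hp2 hp2'
    subst e1
    subst e1'
    have haQ := a.2.1
    have hyQ := (mem_sdiff.1 hy).1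
    have hyQ' := (mem_sdiff.1 hy').1
    have : y = y' := by
      rcases hp2 with e2 | ⟨hys, hyb⟩
      · rcases hp2' with e2' | ⟨hys', hyb'⟩
        · exact e2.symm.trans e2'
        · exfalso
          subst e2
          exact no_triangle hQ (by omega) haQ hyQ hyQ' hxy hxy'.symm hyb'
      · rcases hp2' with e2' | ⟨hys', hyb'⟩
        · exfalso
          subst e2'
          exact no_triangle hQ (by omega) haQ hyQ' hyQ hxy' hxy.symm hyb
        · by_contra hne
          exact no_two hQ (by omega) hys hys' hne haQ hxy.symm hxy'.symm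
    rw [this]

end Pool.Agent.K5.Gl
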