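import Pool.Agent.Work.MP_974d84_co_k5.GlSup

/-!
# Gluing, G2c: flows of the suppressed graph
-/

set_option linter.unusedSectionVars false

namespace Pool.Agent.K5.Gl

open Finset SimpleGraph Pool.Agent.Exp Pool.Agent.K5 Pool.Agent.Log5 Pool.Agent.Log5.Clu

open Peel SupCyc Sup

/-- G2c. -/
theorem sup_flow {V : Type} [Fintype V] [DecidableEq V] {G : SimpleGraph V} [DecidableRel G.Adj]
    {K : ℕ} {Q : Finset V} (hQ : St G K Q) (hK : 6 ≤ K) {r : ℝ} (f : ST G Q → ST G Q → ℝ)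
    (hf : ∀ u v, f u v = - f v u) (h0 : ∀ v, ∑ u, f v u = 0)
    (hn : ∀ u v, ¬ (sup G Q).Adj u v → f u v = 0)
    (h1 : ∀ u v, (sup G Q).Adj u v → 1 ≤ |f u v| ∧ |f u v| ≤ r) : Sol G Q r 0 := by
  classical
  let F : V → V → ℝ := fun x y => if h : (x ∈ Q ∧ dg G Q x = 3) ∧ (y ∈ Q ∧ dg G Q y = 3) then
    f ⟨x, h.1⟩ ⟨y, h.2⟩ else 0
  have hF : ∀ a b : ST G Q, F a.1 b.1 = f a b := fun a b => dif_pos ⟨a.2, b.2⟩
  have hFs : ∀ x y, F x y = - F y x := by
    intro x y
    by_cases h : (x ∈ Q ∧ dg G Q x = 3) ∧ (y ∈ Q ∧ dg G Q y = 3)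
    · have e1 := hF ⟨x, h.1⟩ ⟨y, h.2⟩
      have e2 := hF ⟨y, h.2⟩ ⟨x, h.1⟩
      simp only at e1 e2
      rw [e1, e2, hf]
    · have h' : ¬ ((y ∈ Q ∧ dg G Q y = 3) ∧ (x ∈ Q ∧ dg G Q x = 3)) := fun h'' => h h''.symm
      simp only [F, dif_neg h, dif_neg h', neg_zero]
  let g : V → V → ℝ := fun x y => if G.Adj x y ∧ x ∈ Q ∧ y ∈ Q then
    F (en G Q y x) (en G Q x y) else 0
  -- every edge carries the flow of its branch
  have hedge : ∀ x y, x ∈ Q → y ∈ Q → G.Adj x y → ∃ a b : ST G Q, (sup G Q).Adj a b ∧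
      g x y = f a b := by
    intro x y hx hy hxy
    have hg : g x y = F (en G Q y x) (en G Q x y) := if_pos ⟨hxy, hx, hy⟩
    by_cases hxs : x ∈ sp G Q
    · have hys : y ∉ sp G Q := fun h => no_adj hQ (by omega) hxs h hxy
      let b : ST G Q := ⟨y, hy, (hQ.deg y hy).resolve_left fun h => hys (mem_sp.2 ⟨hy, h⟩)⟩
      have h2 := en_adj hQ (by omega) b hx hxy.symm
      refine ⟨_, b, h2.symm, ?_⟩
      rw [hg, en_of_not hys, ← hF]
    · let a : ST G Q := ⟨x, hx, (hQ.deg x hx).resolve_left fun h => hxs (mem_sp.2 ⟨hx, h⟩)⟩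
      have h2 := en_adj hQ (by omega) a hy hxy
      refine ⟨a, _, h2, ?_⟩
      rw [hg, en_of_not hxs, ← hF]
  refine ⟨g, ?_, ?_, ?_, ?_⟩
  · intro x y
    by_cases h : G.Adj x y ∧ x ∈ Q ∧ y ∈ Q
    · have h' : G.Adj y x ∧ y ∈ Q ∧ x ∈ Q := ⟨h.1.symm, h.2.2, h.2.1⟩
      simp only [g, if_pos h, if_pos h']
      exact hFs _ _
    · have h' : ¬ (G.Adj y x ∧ y ∈ Q ∧ x ∈ Q) := fun h' => h ⟨h'.1.symm, h'.2.2, h'.2.1⟩
      simp only [g, if_neg h, if_neg h', neg_zero]
  · intro x y h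
    by_contra hcon
    exact h (if_neg hcon)
  · intro x hx y hy hxy
    obtain ⟨a, b, hab, he⟩ := hedge x y hx hy hxy
    rw [he]
    exact h1 a b hab
  · intro v hv
    show ∑ u, g v u = 0
    have hs : ∑ u, g v u = ∑ u ∈ Q.filter fun w => G.Adj v w, F (en G Q u v) (en G Q v u) := by
      rw [sum_filter, ← sum_subset (subset_univ Q)]
      · refine sum_congr rfl fun u hu => ?_
        by_cases h : G.Adj v u
        · rw [if_pos h]
          exact if_pos ⟨h, hv, hu⟩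
        · rw [if_neg h]
          exact if_neg fun h' => h h'.1
      · intro u _ hu
        exact if_neg fun h' => hu h'.2.2
    rw [hs]
    by_cases hvs : v ∈ sp G Q
    · have h2 := (mem_sp.1 hvs).2
      unfold dg at h2
      obtain ⟨x, y, hxy, he⟩ := card_eq_two.1 h2
      have hx : x ∈ Q.filter fun w => G.Adj v w := by rw [he]; simp
      have hy : y ∈ Q.filter fun w => G.Adj v w := by rw [he]; simp
      obtain ⟨hxQ, hvx⟩ := mem_filter.1 hx
      obtain ⟨hyQ, hvy⟩ := mem_filter.1 hy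
      have hxs : x ∉ sp G Q := fun h => no_adj hQ (by omega) hvs h hvx
      have hys : y ∉ sp G Q := fun h => no_adj hQ (by omega) hvs h hvy
      rw [he, sum_pair hxy, en_of_not hxs, en_of_not hys, en_eq hvs hxQ hyQ hxy hvx hvy,
        en_eq hvs hyQ hxQ hxy.symm hvy hvx, hFs y x]
      ring
    · let a : ST G Q := ⟨v, hv, (hQ.deg v hv).resolve_left fun h => hvs (mem_sp.2 ⟨hv, h⟩)⟩
      have h2 : ∑ w, f a w = ∑ w ∈ (sup G Q).neighborFinset a, f a w := by
        symm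
        refine sum_subset (subset_univ _) fun w _ hw => hn a w fun h => hw ?_
        rw [mem_neighborFinset]
        exact h
      rw [← h0 a, h2]
      refine sum_bij (fun y hy => ⟨en G Q v y, en_st hQ (by omega) (mem_filter.1 hy).1⟩) ?_ ?_ ?_ ?_
      · intro y hy
        rw [mem_neighborFinset]
        exact en_adj hQ (by omega) a (mem_filter.1 hy).1 (mem_filter.1 hy).2
      · intro y hy y' hy' h
        exact en_inj hQ (by omega) hv (mem_filter.1 hy).1 (mem_filter.1 hy').1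
          (mem_filter.1 hy).2 (mem_filter.1 hy').2 (congrArg Subtype.val h)
      · intro w hw
        rw [mem_neighborFinset] at hw
        obtain ⟨y, hy, hxy, he⟩ := en_surj hw
        exact ⟨y, mem_filter.2 ⟨hy, hxy⟩, Subtype.ext he⟩
      · intro y hy
        rw [en_of_not hvs]
        exact hF a ⟨en G Q v y, en_st hQ (by omega) (mem_filter.1 hy).1⟩

end Pool.Agent.K5.Gl
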