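import Mathlib
import Pool.Agent.Work.MP_974d84_co.Defs
import Pool.Agent.Work.MP_974d84_co_k5.Defs5

/-!
# Gluing a flow of a contraction with a flow of the contracted part
-/

set_option linter.unusedSectionVars false
set_option linter.unusedVariables false

namespace Pool.Agent.K5

open Finset SimpleGraph Pool.Agent.Exp Pool.Agent.Log5 Pool.Agent.Log5.Clu MP974d84

variable {V : Type} [Fintype V] [DecidableEq V]

/-- A nowhere-zero flow of the graph in which `X` is contracted (the edges inside `X` are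
removed, the conservation law is only asked outside `X`). -/
def HasCFlow (A : Type) [AddCommGroup A] (G : SimpleGraph V) (X : Finset V) : Prop :=
  ∃ f : V → V → A, (∀ u v, f u v = - f v u) ∧
    (∀ u v, f u v ≠ 0 ↔ G.Adj u v ∧ ¬ (u ∈ X ∧ v ∈ X)) ∧ ∀ v, v ∉ X → ∑ u, f v u = 0

theorem HasCFlow.nz {A : Type} [AddCommGroup A] {G : SimpleGraph V} (h : HasCFlow A G ∅) :
    HasNZFlow A G := by
  obtain ⟨f, f1, f2, f3⟩ := h
  exact ⟨f, f1, fun u v => by rw [f2 u v]; simp, fun v => f3 v (notMem_empty v)⟩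

open Classical in
/-- The vertices of the part `P` which have a neighbour outside. -/
noncomputable def bdV (G : SimpleGraph V) (P : Finset V) : Finset {v // v ∈ P} :=
  univ.filter fun v => ∃ w, w ∉ P ∧ G.Adj v w

/-- **Gluing.** If every vertex of `P` has at most one neighbour outside `P`, and every
assignment of values in `{1, .., i - 1}` with sum `0` to the boundary edges extends to a
nowhere-zero flow inside `P`, then a nowhere-zero flow of `G / P` gives one of `G`. -/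
theorem glue_flow {i : ℕ} (hi : 1 < i) {G : SimpleGraph V} (P : Finset V)
    (hone : ∀ v ∈ P, ∀ w w', w ∉ P → w' ∉ P → G.Adj v w → G.Adj v w' → w = w')
    (hext : ∀ φ : {v // v ∈ P} → ℤ, (∀ v ∈ bdV G P, 1 ≤ φ v ∧ φ v < i) →
      ((∑ v ∈ bdV G P, φ v : ℤ) : ZMod i) = 0 →
      ∃ g : {v // v ∈ P} → {v // v ∈ P} → ZMod i, (∀ v w, g v w = - g w v) ∧
        (∀ v w, g v w ≠ 0 ↔ (G.induce {v | v ∈ P}).Adj v w) ∧
        ∀ v, ∑ w, g v w + (if v ∈ bdV G P then (φ v : ZMod i) else 0) = 0)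
    (h : HasCFlow (ZMod i) G P) : HasNZFlow (ZMod i) G := by
  classical
  have : NeZero i := ⟨by omega⟩
  obtain ⟨f, f1, f2, f3⟩ := h
  have hmem : ∀ v : {v // v ∈ P}, v ∈ bdV G P ↔ ∃ w, w ∉ P ∧ G.Adj v w := fun v => by
    unfold bdV
    rw [mem_filter]
    exact ⟨fun h => h.2, fun h => ⟨mem_univ _, h⟩⟩
  have f0 : ∀ u v, ¬ (G.Adj u v ∧ ¬ (u ∈ P ∧ v ∈ P)) → f u v = 0 := fun u v h => by
    by_contra h'
    exact h ((f2 u v).1 h')
  -- the value which leaves a vertex of the boundary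
  set φ : {v // v ∈ P} → ℤ := fun v => ((∑ w, f v w).val : ℤ) with hφ
  have hφc : ∀ v, ((φ v : ℤ) : ZMod i) = ∑ w, f v w := fun v => by
    simp only [hφ]
    rw [Int.cast_natCast, ZMod.natCast_zmod_val]
  have hsingle : ∀ v : {v // v ∈ P}, ∀ w, w ∉ P → G.Adj v w → ∑ u, f v u = f v w := by
    intro v w hw hvw
    refine sum_eq_single w (fun u _ huw => ?_) fun h => absurd (mem_univ _) h
    refine f0 _ _ ?_
    rintro ⟨h1, h2⟩
    have h3 : u ∉ P := fun h3 => h2 ⟨v.2, h3⟩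
    exact huw (hone v v.2 u w h3 hw h1 hvw)
  have hzero : ∀ v : {v // v ∈ P}, v ∉ bdV G P → ∑ u, f v u = 0 := by
    intro v hv
    refine sum_eq_zero fun u _ => f0 _ _ ?_
    rintro ⟨h1, h2⟩
    exact hv ((hmem v).2 ⟨u, fun h3 => h2 ⟨v.2, h3⟩, h1⟩)
  have htot : ∑ v ∈ P, ∑ w, f v w = 0 := by
    have e2 : ∑ v ∈ P, ∑ w ∈ P, f v w = 0 :=
      sum_eq_zero fun v hv => sum_eq_zero fun w hw => f0 _ _ fun h => h.2 ⟨hv, hw⟩
    have e3 : ∑ v ∈ P, ∑ w, f v w = ∑ v ∈ P, ∑ w ∈ Pᶜ, f v w := by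
      have : ∑ v ∈ P, ∑ w, f v w = ∑ v ∈ P, ∑ w ∈ P, f v w + ∑ v ∈ P, ∑ w ∈ Pᶜ, f v w := by
        rw [← sum_add_distrib]
        exact sum_congr rfl fun v _ => (sum_add_sum_compl P _).symm
      rw [this, e2, zero_add]
    have e4 : ∑ v ∈ Pᶜ, ∑ w, f v w = 0 := sum_eq_zero fun v hv => f3 v (mem_compl.1 hv)
    have e5 : ∑ v ∈ Pᶜ, ∑ w, f v w = ∑ v ∈ Pᶜ, ∑ w ∈ P, f v w + ∑ v ∈ Pᶜ, ∑ w ∈ Pᶜ, f v w := by
      rw [← sum_add_distrib]
      exact sum_congr rfl fun v _ => (sum_add_sum_compl P _).symm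
    have e6 : ∑ v ∈ Pᶜ, ∑ w ∈ P, f v w = - ∑ v ∈ P, ∑ w ∈ Pᶜ, f v w := by
      rw [sum_comm, ← sum_neg_distrib]
      refine sum_congr rfl fun v _ => ?_
      rw [← sum_neg_distrib]
      exact sum_congr rfl fun w _ => f1 w v
    have e7 : ∑ v ∈ Pᶜ, ∑ w ∈ Pᶜ, f v w = 0 := by
      rw [← sum_product']
      refine sum_involution (fun p _ => p.swap) (fun p _ => ?_) (fun p _ hp he => hp ?_)
        (fun p hp => ?_) (fun p _ => Prod.swap_swap p)
      · show f p.1 p.2 + f p.2 p.1 = 0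
        rw [f1 p.1 p.2, neg_add_cancel]
      · have e8 : p.1 = p.2 := (congrArg Prod.fst he).symm
        refine f0 _ _ fun h => ?_
        rw [e8] at h
        exact G.loopless.irrefl _ h.1
      · rw [mem_product] at hp ⊢
        exact ⟨hp.2, hp.1⟩
    rw [e4, e6, e7, add_zero] at e5
    rw [e3]
    exact neg_eq_zero.1 e5.symm
  have hφsum : ((∑ v ∈ bdV G P, φ v : ℤ) : ZMod i) = 0 := by
    rw [Int.cast_sum, sum_congr rfl fun v _ => hφc v, ← htot, ← sum_coe_sort P]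
    rw [← sum_subset (subset_univ (bdV G P))]
    intro v _ hv
    exact hzero v hv
  obtain ⟨g, g1, g2, g3⟩ := hext φ (fun v hv => by
    obtain ⟨w, hw, hvw⟩ := (hmem v).1 hv
    have hne : ∑ u, f v u ≠ 0 := by
      rw [hsingle v w hw hvw]
      exact (f2 _ _).2 ⟨hvw, fun h => hw h.2⟩
    have h1 : (∑ u, f v u).val ≠ 0 := fun h => hne ((ZMod.val_eq_zero _).1 h)
    have h2 := ZMod.val_lt (∑ u, f v u)
    simp only [hφ]
    omega) hφsum
  -- the glued flow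
  refine ⟨fun u v => if h : u ∈ P ∧ v ∈ P then g ⟨u, h.1⟩ ⟨v, h.2⟩ else f u v, fun u v => ?_,
    fun u v => ?_, fun v => ?_⟩
  · show (if h : u ∈ P ∧ v ∈ P then g ⟨u, h.1⟩ ⟨v, h.2⟩ else f u v) =
      -(if h : v ∈ P ∧ u ∈ P then g ⟨v, h.1⟩ ⟨u, h.2⟩ else f v u)
    by_cases h : u ∈ P ∧ v ∈ P
    · rw [dif_pos h, dif_pos h.symm]
      exact g1 _ _
    · rw [dif_neg h, dif_neg fun h' => h h'.symm]
      exact f1 u v
  · show (if h : u ∈ P ∧ v ∈ P then g ⟨u, h.1⟩ ⟨v, h.2⟩ else f u v) ≠ 0 ↔ G.Adj u v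
    by_cases h : u ∈ P ∧ v ∈ P
    · rw [dif_pos h, g2]
      rfl
    · rw [dif_neg h, f2]
      exact ⟨fun h' => h'.1, fun h' => ⟨h', h⟩⟩
  · show ∑ u, (if h : v ∈ P ∧ u ∈ P then g ⟨v, h.1⟩ ⟨u, h.2⟩ else f v u) = 0
    by_cases hv : v ∈ P
    · have e1 : ∑ u, (if h : v ∈ P ∧ u ∈ P then g ⟨v, h.1⟩ ⟨u, h.2⟩ else f v u) =
          ∑ u ∈ P, (if h : v ∈ P ∧ u ∈ P then g ⟨v, h.1⟩ ⟨u, h.2⟩ else f v u) +
            ∑ u ∈ Pᶜ, (if h : v ∈ P ∧ u ∈ P then g ⟨v, h.1⟩ ⟨u, h.2⟩ else f v u) :=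
        (sum_add_sum_compl P _).symm
      have e2 : ∑ u ∈ P, (if h : v ∈ P ∧ u ∈ P then g ⟨v, h.1⟩ ⟨u, h.2⟩ else f v u) =
          ∑ w, g ⟨v, hv⟩ w := by
        rw [← sum_coe_sort P]
        refine sum_congr rfl fun w _ => ?_
        rw [dif_pos ⟨hv, w.2⟩]
      have e3 : ∑ u ∈ Pᶜ, (if h : v ∈ P ∧ u ∈ P then g ⟨v, h.1⟩ ⟨u, h.2⟩ else f v u) =
          ∑ u ∈ Pᶜ, f v u := by
        refine sum_congr rfl fun w hw => ?_
        rw [dif_neg fun h => (mem_compl.1 hw) h.2]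
      have e4 : ∑ u ∈ Pᶜ, f v u = ∑ u, f v u := by
        rw [← sum_add_sum_compl P (fun u => f v u)]
        rw [sum_eq_zero (s := P) fun u hu => f0 _ _ fun h => h.2 ⟨hv, hu⟩, zero_add]
      have e5 : ∑ u, f v u = if (⟨v, hv⟩ : {v // v ∈ P}) ∈ bdV G P then
          ((φ ⟨v, hv⟩ : ℤ) : ZMod i) else 0 := by
        split_ifs with hb
        · exact (hφc ⟨v, hv⟩).symm
        · exact hzero ⟨v, hv⟩ hb
      rw [e1, e2, e3, e4, e5]
      exact g3 ⟨v, hv⟩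
    · rw [← f3 v hv]
      refine sum_congr rfl fun u _ => ?_
      rw [dif_neg fun h => hv h.1]

end Pool.Agent.K5
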