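import Mathlib
import Pool.Agent.Work.MP_974d84_co_k5.HandInE

/-!
# The extension theorem with explicit connectivity: the form of the hand-in
-/

set_option linter.unusedSectionVars false

namespace Pool.Agent.K5

open Finset SimpleGraph Pool.Agent.Exp Pool.Agent.Work.MP_314beb_co MP974d84

/-- The form of the hand-in: the extension theorem with cyclic cuts of at least `κ` edges. -/
theorem extension_form_k {κ : ℕ} (hext : ∃ D K : ℕ, ∀ {V : Type} [Fintype V] [DecidableEq V]
    (G : SimpleGraph V) [DecidableRel G.Adj], (∀ v, G.degree v = 3) → ∀ P : Finset V,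
    FarB G D P → (∀ A ⊆ P, A.card < K → (G.induce (A : Set V)).IsAcyclic) →
    (∀ Y ⊆ P, ¬ (G.induce (Y : Set V)).IsAcyclic →
      ¬ (G.induce ((P \ Y : Finset V) : Set V)).IsAcyclic → κ ≤ ee G Y (P \ Y)) →
    ∀ φ : V → ZMod 5, BdryOK G P φ → ExtFlow G P φ) :
    ∃ K : ℕ, ∀ (V : Type) [Fintype V] [DecidableEq V] (G : SimpleGraph V) [DecidableRel G.Adj],
    G.IsRegularOfDegree 3 → ∀ P : Finset V, (K : ℕ∞) ≤ (G.induce (P : Set V)).egirth →
    (∀ Q ⊆ P, Q.card ≤ K → (G.induce (Q : Set V)).Connected → (G.interedges Q Pᶜ).card ≤ 1) →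
    (∀ A ⊆ P, ¬ (G.induce (A : Set V)).IsAcyclic →
      ¬ (G.induce ((P \ A : Finset V) : Set V)).IsAcyclic → κ ≤ (G.interedges A (P \ A)).card) →
    ∀ φ : V → ZMod 5, (∀ v ∈ P, φ v = 0 ↔ ∀ w, G.Adj v w → w ∈ P) → ∑ v ∈ P, φ v = 0 →
    ∃ f : V → V → ZMod 5, (∀ u v, f u v = - f v u) ∧
      (∀ u v, f u v ≠ 0 ↔ u ∈ P ∧ v ∈ P ∧ G.Adj u v) ∧ ∀ v ∈ P, ∑ u, f v u = φ v := by
  obtain ⟨D, K, hext⟩ := hext
  refine ⟨max D K, ?_⟩
  intro V _ _ G _ h3 P hgir hfar hcut φ h1 h2
  refine ext_form (hext G h3 P ?_ ?_ ?_) φ h1 h2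
  · intro Q hQ h4 h5
    rw [ee_eq_interedges]
    exact hfar Q hQ (h4.trans (le_max_left _ _)) h5
  · intro A hA hcard
    by_contra hac
    unfold IsAcyclic at hac
    push Not at hac
    obtain ⟨v, w, hw⟩ := hac
    have hAP : (A : Set V) ≤ (P : Set V) := by exact_mod_cast hA
    have h4 : (w.map (G.induceHomOfLE hAP).toHom).IsCycle :=
      hw.map (G.induceHomOfLE hAP).injective
    have h5 := le_egirth.1 hgir _ _ h4
    rw [Walk.length_map] at h5
    have h6 : w.support.tail.length ≤ Fintype.card (A : Set V) :=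
      hw.support_nodup.length_le_card
    rw [List.length_tail, Walk.length_support] at h6
    have h7 : Fintype.card (A : Set V) = A.card := by simp
    have h8 : max D K ≤ w.length := by exact_mod_cast h5
    have h9 := le_max_right D K
    omega
  · intro A hA h4 h5
    rw [ee_eq_interedges]
    exact hcut A hA h4 h5

end Pool.Agent.K5
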