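import Mathlib
import Pool.Agent.Work.MP_974d84_co_k5.FewSets
import Pool.Agent.Work.MP_974d84_co_k5.FewFinal

/-!
# Few small shores without a girth hypothesis: the form of the hand-in
-/

set_option linter.unusedSectionVars false

namespace Pool.Agent.K5

open Finset SimpleGraph Pool.Agent.Exp Pool.Agent.Work.MP_314beb_co MP974d84

/-- The form of the hand-in: dense spots, many small shores or flows. -/
theorem shores_form :
    ∃ C : ℕ, ∀ (V : Type) [Fintype V] [DecidableEq V] (G : SimpleGraph V) [DecidableRel G.Adj],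
    G.IsRegularOfDegree 3 →
    (∀ S : Finset V, ¬ (G.induce (S : Set V)).IsAcyclic →
      ¬ (G.induce ((Sᶜ : Finset V) : Set V)).IsAcyclic → 6 ≤ (G.interedges S Sᶜ).card) →
    ∀ m : ℕ, 1 ≤ m →
    (∃ X : Fin m → Finset V, (∀ i j, i ≠ j → Disjoint (X i) (X j)) ∧
      ∀ i, ¬ (G.induce (X i : Set V)).IsAcyclic ∧ (G.interedges (X i) (X i)ᶜ).card ≤ C) ∨
    (∃ U : Finset V, U.card ≤ C * m ∧
      (C + 1) * U.card < C * (G.induce (U : Set V)).edgeSet.ncard) ∨
    ∀ i : ℕ, 5 ≤ i → HasNZFlow (ZMod i) G := by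
  obtain ⟨C, hC⟩ := FT.few_sets_form (FT.few_sets ext_final)
  refine ⟨2 * C, ?_⟩
  intro V _ _ G _ h3 hS m hm
  rcases hC V G h3 hS m hm with ⟨U, h1, h2⟩ | ⟨X, h1, h2⟩ | h
  · exact Or.inr (Or.inl ⟨U, h1.trans (Nat.mul_le_mul_right m (by omega)), h2⟩)
  · exact Or.inl ⟨X, h1, fun i => ⟨(h2 i).1, (h2 i).2.trans (by omega)⟩⟩
  · exact Or.inr (Or.inr h)

end Pool.Agent.K5
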