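import Mathlib
import Pool.Agent.Work.MP_974d84_co_k5.HandInE
import Pool.Agent.Work.MP_974d84_co_k5.BeadX

/-!
# Reducible sets inside every vertex set with a small boundary

The local form of `reducible_form`: the dense spot or the reducible part lies in a prescribed set
of vertices `X` which is large against its boundary.
-/

set_option linter.unusedSectionVars false

namespace Pool.Agent.K5

open Finset SimpleGraph Pool.Agent.Exp Pool.Agent.Work.MP_314beb_co MP974d84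

/-- Dense spots or proper reducible sets, inside a set `X`. -/
theorem reducible_aux_x (hext : ∃ D K : ℕ, ExtAll D K) (g : ℕ) :
    ∃ C : ℕ, ∀ (V : Type) [Fintype V] [DecidableEq V] (G : SimpleGraph V) [DecidableRel G.Adj],
    G.IsRegularOfDegree 3 → G.Connected → ∀ t : ℕ, 2 * t ≤ Fintype.card V →
    ∀ X : Finset V, C * (t + 1) * dd G X < X.card →
    (∃ S ⊆ X, S.card ≤ C * (t + dd G X + 1) ∧ (G.induce (S : Set V)).Connected ∧
      S.card + t ≤ (G.induce (S : Set V)).edgeSet.ncard) ∨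
    ∃ P ⊆ X, P ≠ univ ∧ 2 ≤ P.card ∧ (G.induce (P : Set V)).Connected ∧
      ¬ (G.induce (P : Set V)).IsAcyclic ∧ (g : ℕ∞) ≤ (G.induce (P : Set V)).egirth ∧
      FarB G g P ∧
      (∀ A ⊆ P, ¬ (G.induce (A : Set V)).IsAcyclic →
        ¬ (G.induce ((P \ A : Finset V) : Set V)).IsAcyclic → g ≤ ee G A (P \ A)) ∧
      (∀ v ∈ P, ∀ w w', w ∉ P → w' ∉ P → G.Adj v w → G.Adj v w' → w = w') ∧
      ∀ φ, BdryOK G P φ → ExtFlow G P φ := by
  obtain ⟨D, K, hext⟩ := hext
  obtain ⟨C, hC⟩ := exists_bead_x (max D (g + 1)) (max K g) (max K g)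
  refine ⟨C, ?_⟩
  intro V _ _ G _ h3 hconn t ht X hX
  rw [or_iff_not_imp_left]
  intro hcon
  push Not at hcon
  have hXne : X.Nonempty := card_pos.1 (by omega)
  obtain ⟨P, hPX, hPu, hP2, hPc, hac, hgir, hfar, hcut⟩ := hC G h3 hconn X hXne t ht hX
    (fun S hSX hcard hS => by
      have h1 := hcon S hSX hcard hS
      have h2 := dd_add_edges h3 S
      omega)
  exact ⟨P, hPX, hPu, hP2, hPc, hac,
    egirth_of_sets fun Q hQ h => hgir Q hQ (h.trans_le (le_max_right K g)),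
    hfar.mono ((Nat.le_succ g).trans (le_max_right D (g + 1))),
    fun A hA h1 h2 => (le_max_right K g).trans (hcut A hA h1 h2),
    one_of_farB ((Nat.succ_le_succ (Nat.zero_le g)).trans (le_max_right D (g + 1))) hfar,
    fun φ hφ => hext G h3 P (hfar.mono (le_max_left D (g + 1)))
      (fun Q hQ h => hgir Q hQ (h.trans_le (le_max_left K g)))
      (fun A hA h1 h2 => (le_max_left K g).trans (hcut A hA h1 h2)) φ hφ⟩

/-- The form of the hand-in, inside a set `X` (the case `X = univ` is `reducible_form`). -/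
theorem reducible_form_x (hext : ∃ D K : ℕ, ExtAll D K) (g : ℕ) :
    ∃ C : ℕ, ∀ (V : Type) [Fintype V] [DecidableEq V] (G : SimpleGraph V) [DecidableRel G.Adj],
    G.IsRegularOfDegree 3 → G.Connected → ∀ t : ℕ, 2 * t ≤ Fintype.card V →
    ∀ X : Finset V, C * (t + 1) * (G.interedges X Xᶜ).card < X.card →
    (∃ S ⊆ X, S.card ≤ C * (t + (G.interedges X Xᶜ).card + 1) ∧
      (G.induce (S : Set V)).Connected ∧
      S.card + t ≤ (G.induce (S : Set V)).edgeSet.ncard) ∨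
    ∃ P ⊆ X, P ≠ univ ∧ (G.induce (P : Set V)).Connected ∧
      ¬ (G.induce (P : Set V)).IsAcyclic ∧ (g : ℕ∞) ≤ (G.induce (P : Set V)).egirth ∧
      (∀ Q ⊆ P, Q.card ≤ g → (G.induce (Q : Set V)).Connected →
        (G.interedges Q Pᶜ).card ≤ 1) ∧
      (∀ A ⊆ P, ¬ (G.induce (A : Set V)).IsAcyclic →
        ¬ (G.induce ((P \ A : Finset V) : Set V)).IsAcyclic →
        g ≤ (G.interedges A (P \ A)).card) ∧
      ∀ φ : V → ZMod 5, (∀ v ∈ P, φ v = 0 ↔ ∀ w, G.Adj v w → w ∈ P) → ∑ v ∈ P, φ v = 0 →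
      ∃ f : V → V → ZMod 5, (∀ u v, f u v = - f v u) ∧
        (∀ u v, f u v ≠ 0 ↔ u ∈ P ∧ v ∈ P ∧ G.Adj u v) ∧ ∀ v ∈ P, ∑ u, f v u = φ v := by
  obtain ⟨C, hC⟩ := reducible_aux_x hext g
  refine ⟨C, ?_⟩
  intro V _ _ G _ h3 hconn t ht X hX
  rw [← dd_eq_interedges] at hX ⊢
  rcases hC V G h3 hconn t ht X hX with h |
    ⟨P, hPX, hPu, hP2, hPc, hac, hgir, hfar, hcut, hone, hP⟩
  · exact Or.inl h
  · exact Or.inr ⟨P, hPX, hPu, hPc, hac, hgir, fun Q hQ h1 h2 => by
      rw [← ee_eq_interedges]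
      exact hfar Q hQ h1 h2, fun A hA h1 h2 => by
      rw [← ee_eq_interedges]
      exact hcut A hA h1 h2, fun φ h1 h2 => ext_form hP φ h1 h2⟩

end Pool.Agent.K5
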