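import Mathlib
import Pool.Agent.Work.MP_974d84_co.Hoffman
import Pool.Agent.Work.MP_974d84_co_k5.Defs5

/-!
# Room BG: extension of boundary values from signs (Hoffman's theorem with a boundary)
-/

set_option linter.unusedSectionVars false

namespace Pool.Agent.K5

open Finset SimpleGraph Pool.Agent.Exp MP974d84

/-- The charge of a boundary value: `±1/5`, `±3/5` for the nonzero values. -/
noncomputable def q5 (z : ZMod 5) : ℝ := (2 * (z.val : ℝ) - 5) / 5

variable {V : Type} [Fintype V] [DecidableEq V] {G : SimpleGraph V} [DecidableRel G.Adj]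

/-- The neighbours outside `P`. -/
def bd (G : SimpleGraph V) [DecidableRel G.Adj] (P : Finset V) (v : V) : Finset V :=
  Pᶜ.filter fun w => G.Adj v w

theorem q5_neg {z : ZMod 5} (hz : z ≠ 0) : q5 (-z) = - q5 z := by
  have h : ((-z).val : ℝ) = 5 - z.val := by
    have h1 : (-z).val = 5 - z.val := by
      rw [ZMod.neg_val, if_neg hz]
    have h2 := z.val_lt
    rw [h1, Nat.cast_sub h2.le]
    norm_num
  unfold q5
  rw [h]
  ring

/-- **Extension from signs.** The boundary values `φ v w`, `v ∈ P`, `w ∉ P`, extend to a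
nowhere-zero `ZMod 5`-flow on `P` if there are signs on `P` which together with the charges of the
boundary satisfy the cut condition inside `P`. -/
theorem extend_of_signs {P : Finset V} (h3 : ∀ v ∈ P, G.degree v = 3) (φ : V → V → ZMod 5)
    {x : V → ℤ} (hx : ∀ v ∈ P, x v = 1 ∨ x v = -1)
    (hcrit : ∀ Y ⊆ P, |∑ v ∈ Y, ((x v : ℝ) - ∑ w ∈ bd G P v, q5 (φ v w))| ≤
      3 / 5 * ee G Y (P \ Y)) :
    ∃ f : V → V → ZMod 5, (∀ u v, f u v = - f v u) ∧
      (∀ u ∈ P, ∀ v ∈ P, f u v ≠ 0 ↔ G.Adj u v) ∧ (∀ u v, u ∉ P ∨ v ∉ P → f u v = 0) ∧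
      ∀ v ∈ P, ∑ w, f v w + ∑ w ∈ bd G P v, φ v w = 0 := by
  classical
  let e := Fintype.equivFin V
  let o : V → V → ℤ := fun v w => if v ∈ P ∧ w ∈ P ∧ G.Adj v w then
    (if e v < e w then 1 else -1) else 0
  have ho1 : Anti o := by
    intro v w
    by_cases h : v ∈ P ∧ w ∈ P ∧ G.Adj v w
    · have h' : w ∈ P ∧ v ∈ P ∧ G.Adj w v := ⟨h.2.1, h.1, h.2.2.symm⟩
      have hne : e v ≠ e w := fun h4 => h.2.2.ne (e.injective h4)
      simp only [o, if_pos h, if_pos h']
      rcases lt_or_gt_of_ne hne with h5 | h5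
      · rw [if_pos h5, if_neg (not_lt.2 h5.le)]
        norm_num
      · rw [if_neg (not_lt.2 h5.le), if_pos h5]
    · have h' : ¬ (w ∈ P ∧ v ∈ P ∧ G.Adj w v) := fun h4 => h ⟨h4.2.1, h4.1, h4.2.2.symm⟩
      simp only [o, if_neg h, if_neg h']
      norm_num
  have hcase : ∀ v w, (o v w = 1 ∧ v ∈ P ∧ w ∈ P ∧ G.Adj v w) ∨
      (o v w = -1 ∧ v ∈ P ∧ w ∈ P ∧ G.Adj v w) ∨
      (o v w = 0 ∧ ¬ (v ∈ P ∧ w ∈ P ∧ G.Adj v w)) := by
    intro v w
    by_cases h : v ∈ P ∧ w ∈ P ∧ G.Adj v w
    · by_cases h4 : e v < e w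
      · left
        exact ⟨by simp only [o, if_pos h, if_pos h4], h⟩
      · right; left
        exact ⟨by simp only [o, if_pos h, if_neg h4], h⟩
    · right; right
      exact ⟨by simp only [o, if_neg h], h⟩
  let u : V → V → ℤ := fun v w => if o v w = 1 then 4 else if o v w = -1 then -1 else 0
  let n : V → ℤ := fun v => ((bd G P v).card : ℤ)
  let B : V → ℤ := fun v => ∑ w ∈ bd G P v, ((φ v w).val : ℤ)
  -- parity
  have hpar : ∀ v ∈ P, ∃ t : ℤ, x v + dv o v + n v = 2 * t := by
    intro v hv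
    have hn : ((P.filter fun w => G.Adj v w).card : ℤ) + n v = 3 := by
      have h4 : (G.neighborFinset v).card = 3 := by
        rw [card_neighborFinset_eq_degree]
        exact h3 v hv
      have h5 : (G.neighborFinset v) = (P.filter fun w => G.Adj v w) ∪ bd G P v := by
        ext w
        simp only [mem_neighborFinset, mem_union, mem_filter, bd, mem_compl]
        tauto
      have h6 : Disjoint (P.filter fun w => G.Adj v w) (bd G P v) := by
        rw [Finset.disjoint_left]
        intro w hw hw'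
        exact (mem_compl.1 (mem_filter.1 hw').1) (mem_filter.1 hw).1
      rw [h5, card_union_of_disjoint h6] at h4
      simp only [n]
      exact_mod_cast h4
    have hd : dv o v = ∑ w ∈ P.filter (fun w => G.Adj v w), o v w := by
      unfold dv
      symm
      refine sum_subset (subset_univ _) fun w _ hw => ?_
      simp only [o]
      rw [if_neg]
      intro h
      exact hw (mem_filter.2 ⟨h.2.1, h.2.2⟩)
    have hpm : ∀ s : Finset V, s ⊆ P.filter (fun w => G.Adj v w) →
        ∃ t : ℤ, ∑ w ∈ s, o v w = s.card + 2 * t := by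
      intro s
      induction s using Finset.induction_on with
      | empty => exact fun _ => ⟨0, by simp⟩
      | insert a s ha ih =>
        intro hs
        obtain ⟨t, ht⟩ := ih ((subset_insert a s).trans hs)
        have h5 := mem_filter.1 (hs (mem_insert_self a s))
        rw [sum_insert ha, ht, card_insert_of_notMem ha]
        rcases hcase v a with ⟨h, -⟩ | ⟨h, -⟩ | ⟨-, h⟩
        · exact ⟨t, by rw [h]; push_cast; ring⟩
        · exact ⟨t - 1, by rw [h]; push_cast; ring⟩
        · exact absurd ⟨hv, h5.1, h5.2⟩ h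
    obtain ⟨t, ht⟩ := hpm _ (Subset.refl _)
    rw [← hd] at ht
    rcases hx v hv with h | h
    · exact ⟨2 + t, by rw [h, ht]; linarith⟩
    · exact ⟨1 + t, by rw [h, ht]; linarith⟩
  choose! t ht using hpar
  let d : V → ℤ := fun v => if v ∈ P then 5 * t v - B v else 0
  have hdP : ∀ Y ⊆ P, 2 * ∑ v ∈ Y, d v = 5 * ∑ v ∈ Y, x v + 5 * ∑ v ∈ Y, dv o v +
      5 * ∑ v ∈ Y, n v - 2 * ∑ v ∈ Y, B v := by
    intro Y hY
    rw [mul_sum, mul_sum, mul_sum, mul_sum, mul_sum, ← sum_add_distrib, ← sum_add_distrib,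
      ← sum_sub_distrib]
    refine sum_congr rfl fun v hv => ?_
    have h4 := ht v (hY hv)
    simp only [d, if_pos (hY hv)]
    linarith
  have hcritZ : ∀ Y ⊆ P, |5 * ∑ v ∈ Y, x v + 5 * ∑ v ∈ Y, n v - 2 * ∑ v ∈ Y, B v| ≤
      3 * (ee G Y (P \ Y) : ℤ) := by
    intro Y hY
    have h4 := hcrit Y hY
    have h5 : ∑ v ∈ Y, ((x v : ℝ) - ∑ w ∈ bd G P v, q5 (φ v w)) =
        ((5 * ∑ v ∈ Y, x v + 5 * ∑ v ∈ Y, n v - 2 * ∑ v ∈ Y, B v : ℤ) : ℝ) / 5 := by
      push_cast
      rw [mul_sum, mul_sum, mul_sum, ← sum_add_distrib, ← sum_sub_distrib, sum_div]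
      refine sum_congr rfl fun v _ => ?_
      have h6 : ∑ w ∈ bd G P v, q5 (φ v w) = (2 * (B v : ℝ) - 5 * n v) / 5 := by
        unfold q5
        rw [← sum_div, sum_sub_distrib, ← mul_sum, sum_const, nsmul_eq_mul]
        simp only [B, n]
        push_cast
        ring
      rw [h6]
      simp only [n, B]
      push_cast
      ring
    rw [h5, abs_div, div_le_iff₀ (by positivity)] at h4
    have h6 : |((5 * ∑ v ∈ Y, x v + 5 * ∑ v ∈ Y, n v - 2 * ∑ v ∈ Y, B v : ℤ) : ℝ)| ≤
        ((3 * (ee G Y (P \ Y) : ℤ) : ℤ) : ℝ) := by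
      refine h4.trans (le_of_eq ?_)
      rw [abs_of_pos (by norm_num : (0 : ℝ) < 5)]
      push_cast
      ring
    exact_mod_cast h6
  have hdo : ∀ v ∉ P, dv o v = 0 := by
    intro v hv
    refine sum_eq_zero fun w _ => ?_
    simp only [o]
    rw [if_neg fun h => hv h.1]
  have hdo' : ∀ Z : Finset V, ∑ v ∈ Z, dv o v = ∑ v ∈ Z ∩ P, dv o v := by
    intro Z
    symm
    refine sum_subset inter_subset_left fun v hv hv' => ?_
    exact hdo v fun h => hv' (mem_inter.2 ⟨hv, h⟩)
  have hd' : ∀ Z : Finset V, ∑ v ∈ Z, d v = ∑ v ∈ Z ∩ P, d v := by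
    intro Z
    symm
    refine sum_subset inter_subset_left fun v hv hv' => ?_
    simp only [d]
    rw [if_neg fun h => hv' (mem_inter.2 ⟨hv, h⟩)]
  obtain ⟨f, hf1, hf2, hf3⟩ := hoffman u d o ho1 (fun v w => by
      simp only [u]
      rcases hcase v w with ⟨h, -⟩ | ⟨h, -⟩ | ⟨h, -⟩ <;> rw [h] <;> norm_num) (by
      have h4 := hdP P (Subset.refl _)
      have h5 := hcritZ P (Subset.refl _)
      have h6 : ee G P (P \ P) = 0 := by
        unfold ee
        rw [card_eq_zero, filter_eq_empty_iff]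
        intro p _ h
        rw [sdiff_self] at h
        exact notMem_empty _ h.2.1
      have h7 := dv_total ho1
      rw [hdo' univ, univ_inter] at h7
      rw [hd' univ, univ_inter]
      rw [h6] at h5
      have h8 := abs_nonpos_iff.1 (h5.trans (le_of_eq (by norm_num)))
      rw [h7] at h4
      linarith) (by
      intro Z
      have h4 := hdP (Z ∩ P) inter_subset_right
      have h5 := (abs_le.1 (hcritZ (Z ∩ P) inter_subset_right)).2
      have h6 : 2 * cs u Z = 3 * (ee G (Z ∩ P) (P \ (Z ∩ P)) : ℤ) + 5 * cs o Z := by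
        have h7 : (ee G (Z ∩ P) (P \ (Z ∩ P)) : ℤ) = ∑ v ∈ Z, ∑ w ∈ Zᶜ,
            if v ∈ P ∧ w ∈ P ∧ G.Adj v w then (1 : ℤ) else 0 := by
          have h8 : ((univ : Finset (V × V)).filter fun p =>
              p.1 ∈ Z ∩ P ∧ p.2 ∈ P \ (Z ∩ P) ∧ G.Adj p.1 p.2) =
              (Z ×ˢ Zᶜ).filter fun p => p.1 ∈ P ∧ p.2 ∈ P ∧ G.Adj p.1 p.2 := by
            ext p
            simp only [mem_filter, mem_univ, true_and, mem_inter, mem_sdiff, mem_product,
              mem_compl]
            tauto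
          unfold ee
          rw [h8, card_filter, sum_product]
          push_cast
          rfl
        rw [h7]
        unfold cs
        simp only [mul_sum, ← sum_add_distrib]
        refine sum_congr rfl fun v _ => sum_congr rfl fun w _ => ?_
        simp only [u]
        rcases hcase v w with ⟨h, h'⟩ | ⟨h, h'⟩ | ⟨h, h'⟩ <;> rw [h]
        · rw [if_pos h']; norm_num
        · rw [if_pos h']; norm_num
        · rw [if_neg h']; norm_num
      rw [← dv_cut ho1, hdo' Z] at h6
      rw [hd' Z]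
      linarith)
  refine ⟨fun a b => ((f a b : ℤ) : ZMod 5), fun a b => ?_, fun a ha b hb => ?_,
    fun a b hab => ?_, fun v hv => ?_⟩
  · show ((f a b : ℤ) : ZMod 5) = - ((f b a : ℤ) : ZMod 5)
    rw [hf1 a b]
    push_cast
    ring
  · have h1 := hf2 a b
    have h2 := hf2 b a
    have h4 := hf1 a b
    have h5 := ho1 a b
    simp only [u] at h1 h2
    rw [Ne, ZMod.intCast_zmod_eq_zero_iff_dvd]
    rcases hcase a b with ⟨h, h'⟩ | ⟨h, h'⟩ | ⟨h, h'⟩
    · refine ⟨fun _ => h'.2.2, fun _ => ?_⟩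
      rw [if_pos h] at h1
      rw [if_neg (show ¬ o b a = 1 by omega), if_pos (show o b a = -1 by omega)] at h2
      push_cast
      omega
    · refine ⟨fun _ => h'.2.2, fun _ => ?_⟩
      rw [if_neg (show ¬ o a b = 1 by omega), if_pos h] at h1
      rw [if_pos (show o b a = 1 by omega)] at h2
      push_cast
      omega
    · refine ⟨fun h6 => ?_, fun h6 => absurd ⟨ha, hb, h6⟩ h'⟩
      rw [if_neg (show ¬ o a b = 1 by omega), if_neg (show ¬ o a b = -1 by omega)] at h1
      rw [if_neg (show ¬ o b a = 1 by omega), if_neg (show ¬ o b a = -1 by omega)] at h2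
      exfalso
      apply h6
      have h7 : f a b = 0 := by omega
      rw [h7]
      exact dvd_zero _
  · have h1 := hf2 a b
    have h2 := hf2 b a
    have h4 := hf1 a b
    have h5 := ho1 a b
    have h6 : o a b = 0 := by
      simp only [o]
      rw [if_neg]
      rintro ⟨h, h', -⟩
      rcases hab with h8 | h8
      · exact h8 h
      · exact h8 h'
    simp only [u] at h1 h2
    rw [if_neg (show ¬ o a b = 1 by omega), if_neg (show ¬ o a b = -1 by omega)] at h1
    rw [if_neg (show ¬ o b a = 1 by omega), if_neg (show ¬ o b a = -1 by omega)] at h2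
    have h7 : f a b = 0 := by omega
    simp only [h7]
    norm_num
  · have h1 := hf3 v
    unfold dv at h1
    have h2 : ((∑ w, f v w : ℤ) : ZMod 5) = ((d v : ℤ) : ZMod 5) := by rw [h1]
    push_cast at h2
    rw [h2]
    simp only [d, if_pos hv]
    push_cast
    have h5 : (5 : ZMod 5) = 0 := by decide
    have h6 : ((B v : ℤ) : ZMod 5) = ∑ w ∈ bd G P v, φ v w := by
      simp only [B]
      push_cast
      refine sum_congr rfl fun w _ => ?_
      exact ZMod.natCast_zmod_val _
    rw [h6, h5]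
    ring

end Pool.Agent.K5
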