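import Mathlib

/-!
# Selection of elements which may be deleted from a hypergraph
-/

set_option linter.unusedSectionVars false

namespace Pool.Agent.K5

open Finset

section Rado

variable {P E K : Type*} [DecidableEq E] [Fintype K] [DecidableEq K]

/-- Hall-Rado condition. -/
def Cond (δ : P → Finset E) (m : P → ℕ) (B : K → Finset E) : Prop :=
  ∀ (J : Finset K) (p : P), J.card + m p ≤ (δ p ∪ J.biUnion B).card

theorem cond_step {δ : P → Finset E} {m : P → ℕ}
    (hm : ∀ a b, ∃ c d, δ c ⊆ δ a ∪ δ b ∧ δ d ⊆ δ a ∩ δ b ∧ m a + m b ≤ m c + m d)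
    {B : K → Finset E} (hB : Cond δ m B) {k : K} {x y : E} (hx : x ∈ B k) (hy : y ∈ B k)
    (hxy : x ≠ y) :
    Cond δ m (Function.update B k ((B k).erase x)) ∨
      Cond δ m (Function.update B k ((B k).erase y)) := by
  by_contra hcon
  push Not at hcon
  obtain ⟨h1, h2⟩ := hcon
  have key : ∀ z, ¬ Cond δ m (Function.update B k ((B k).erase z)) → ∃ (J : Finset K) (p : P),
      k ∉ J ∧ (δ p ∪ J.biUnion B ∪ (B k).erase z).card < J.card + 1 + m p := by
    intro z hz
    unfold Cond at hz
    push Not at hz
    obtain ⟨J, p, hJ⟩ := hz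
    by_cases hk : k ∈ J
    · refine ⟨J.erase k, p, notMem_erase _ _, ?_⟩
      have h3 : J.biUnion (Function.update B k ((B k).erase z))
          = (J.erase k).biUnion B ∪ (B k).erase z := by
        ext e
        simp only [mem_biUnion, mem_union]
        constructor
        · rintro ⟨j, hj, he⟩
          by_cases hjk : j = k
          · subst hjk
            rw [Function.update_self] at he
            exact Or.inr he
          · rw [Function.update_of_ne hjk] at he
            exact Or.inl ⟨j, mem_erase.2 ⟨hjk, hj⟩, he⟩
        · rintro (⟨j, hj, he⟩ | he)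
          · rw [mem_erase] at hj
            exact ⟨j, hj.2, by rwa [Function.update_of_ne hj.1]⟩
          · exact ⟨k, hk, by rwa [Function.update_self]⟩
      rw [h3, ← union_assoc] at hJ
      rw [card_erase_add_one hk]
      exact hJ
    · exfalso
      have h3 : J.biUnion (Function.update B k ((B k).erase z)) = J.biUnion B := by
        refine biUnion_congr rfl fun j hj => ?_
        rw [Function.update_of_ne]
        rintro rfl; exact hk hj
      rw [h3] at hJ
      exact absurd (hB J p) (by omega)
  obtain ⟨J1, p1, hk1, hJ1⟩ := key x h1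
  obtain ⟨J2, p2, hk2, hJ2⟩ := key y h2
  obtain ⟨c, d, hc, hd, hcd⟩ := hm p1 p2
  set S1 := δ p1 ∪ J1.biUnion B ∪ (B k).erase x with hS1
  set S2 := δ p2 ∪ J2.biUnion B ∪ (B k).erase y with hS2
  have h3 := hB (insert k (J1 ∪ J2)) c
  have h4 := hB (J1 ∩ J2) d
  have h5 : δ c ∪ (insert k (J1 ∪ J2)).biUnion B ⊆ S1 ∪ S2 := by
    intro e he
    rw [mem_union, mem_biUnion] at he
    rcases he with he | ⟨j, hj, he⟩
    · have := hc he
      rw [mem_union] at this
      simp only [hS1, hS2, mem_union]
      tauto
    · rw [mem_insert, mem_union] at hj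
      rcases hj with rfl | hj | hj
      · by_cases hex : e = x
        · subst hex
          refine mem_union_right _ (mem_union_right _ (mem_erase.2 ⟨hxy, he⟩))
        · exact mem_union_left _ (mem_union_right _ (mem_erase.2 ⟨hex, he⟩))
      · exact mem_union_left _ (mem_union_left _ (mem_union_right _ (mem_biUnion.2 ⟨j, hj, he⟩)))
      · exact mem_union_right _ (mem_union_left _ (mem_union_right _ (mem_biUnion.2 ⟨j, hj, he⟩)))
  have h6 : δ d ∪ (J1 ∩ J2).biUnion B ⊆ S1 ∩ S2 := by
    intro e he
    rw [mem_union, mem_biUnion] at he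
    rcases he with he | ⟨j, hj, he⟩
    · have := hd he
      rw [mem_inter] at this
      simp only [hS1, hS2, mem_union, mem_inter]
      tauto
    · rw [mem_inter] at hj
      rw [mem_inter]
      exact ⟨mem_union_left _ (mem_union_right _ (mem_biUnion.2 ⟨j, hj.1, he⟩)),
        mem_union_left _ (mem_union_right _ (mem_biUnion.2 ⟨j, hj.2, he⟩))⟩
  have h7 := card_union_add_card_inter S1 S2
  have h8 := card_union_add_card_inter J1 J2
  have h9 := card_le_card h5
  have h10 := card_le_card h6
  rw [card_insert_of_notMem (by rw [mem_union]; tauto)] at h3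
  omega

/-- Rado's theorem, in the form of Welsh. -/
theorem rado {δ : P → Finset E} {m : P → ℕ} (h0 : ∃ p, δ p = ∅)
    (hm : ∀ a b, ∃ c d, δ c ⊆ δ a ∪ δ b ∧ δ d ⊆ δ a ∩ δ b ∧ m a + m b ≤ m c + m d)
    (B : K → Finset E) (hB : Cond δ m B) :
    ∃ b : K → E, Function.Injective b ∧ (∀ k, b k ∈ B k) ∧
      ∀ p, m p + (univ.filter fun k => b k ∈ δ p).card ≤ (δ p).card := by
  classical
  obtain ⟨p0, hp0⟩ := h0
  -- minimal system
  have main : ∀ (n : ℕ) (B : K → Finset E), (∑ k, (B k).card) = n → Cond δ m B →
      ∃ b : K → E, (∀ k, b k ∈ B k) ∧ Cond δ m (fun k => {b k}) := by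
    intro n
    induction n using Nat.strong_induction_on with
    | _ n ih =>
      intro B hn hB
      by_cases hall : ∀ k, (B k).card ≤ 1
      · have h1 : ∀ k, (B k).card = 1 := by
          intro k
          have := hB {k} p0
          rw [hp0, empty_union, card_singleton, singleton_biUnion] at this
          have := hall k
          omega
        choose b hb using fun k => card_eq_one.1 (h1 k)
        refine ⟨b, fun k => by rw [hb k]; exact mem_singleton_self _, ?_⟩
        have : B = fun k => {b k} := funext hb
        rwa [this] at hB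
      · push Not at hall
        obtain ⟨k, hk⟩ := hall
        obtain ⟨x, hx, y, hy, hxy⟩ := one_lt_card.1 hk
        have hlt : ∀ z ∈ B k, ∑ j, (Function.update B k ((B k).erase z) j).card < n := by
          intro z hz
          rw [← hn]
          refine sum_lt_sum (fun j _ => ?_) ⟨k, mem_univ _, ?_⟩
          · by_cases hj : j = k
            · subst hj
              rw [Function.update_self]
              exact card_le_card (erase_subset _ _)
            · rw [Function.update_of_ne hj]
          · rw [Function.update_self]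
            exact card_erase_lt_of_mem hz
        have hsub : ∀ z, ∀ b : K → E, (∀ j, b j ∈ Function.update B k ((B k).erase z) j) →
            ∀ j, b j ∈ B j := by
          intro z b hb j
          have := hb j
          by_cases hj : j = k
          · subst hj
            rw [Function.update_self] at this
            exact mem_of_mem_erase this
          · rwa [Function.update_of_ne hj] at this
        rcases cond_step hm hB hx hy hxy with h | h
        · obtain ⟨b, hb1, hb2⟩ := ih _ (hlt x hx) _ rfl h
          exact ⟨b, hsub x b hb1, hb2⟩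
        · obtain ⟨b, hb1, hb2⟩ := ih _ (hlt y hy) _ rfl h
          exact ⟨b, hsub y b hb1, hb2⟩
  obtain ⟨b, hb1, hb2⟩ := main _ B rfl hB
  refine ⟨b, ?_, hb1, ?_⟩
  · intro k l hkl
    by_contra hne
    have := hb2 {k, l} p0
    rw [hp0, empty_union, card_pair hne, biUnion_insert, singleton_biUnion, hkl, union_self,
      card_singleton] at this
    omega
  · intro p
    have := hb2 (univ.filter fun k => b k ∈ δ p) p
    have h2 : δ p ∪ (univ.filter fun k => b k ∈ δ p).biUnion (fun k => {b k}) = δ p := by
      rw [union_eq_left]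
      intro e he
      simp only [mem_biUnion, mem_filter, mem_univ, true_and, mem_singleton] at he
      obtain ⟨k, hk, rfl⟩ := he
      exact hk
    rw [h2] at this
    omega

end Rado

/-- Halving all groups. -/
theorem halving {P E ι : Type*} [DecidableEq E] [Fintype ι] [DecidableEq ι]
    {δ : P → Finset E} {m : P → ℕ} (h0 : ∃ p, δ p = ∅)
    (hm : ∀ a b, ∃ c d, δ c ⊆ δ a ∪ δ b ∧ δ d ⊆ δ a ∩ δ b ∧ m a + m b ≤ m c + m d)
    (h2 : ∀ p, 2 * m p ≤ (δ p).card) (A : ι → Finset E)
    (hA : ∀ i j, i ≠ j → Disjoint (A i) (A j)) {q : ℕ} (hq : ∀ i, 2 * q ≤ (A i).card) :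
    ∃ A' : ι → Finset E, (∀ i, A' i ⊆ A i) ∧ (∀ i, (A' i).card = q) ∧
      ∀ p, m p + (δ p ∩ univ.biUnion A').card ≤ (δ p).card := by
  classical
  have hB : Cond δ m (fun k : ι × Fin q => A k.1) := by
    intro J p
    have h3 : J.card ≤ q * (J.image Prod.fst).card := by
      have h4 : J ⊆ (J.image Prod.fst) ×ˢ (univ : Finset (Fin q)) := by
        intro k hk
        rw [mem_product]
        exact ⟨mem_image_of_mem _ hk, mem_univ _⟩
      have := card_le_card h4
      rw [card_product, card_univ, Fintype.card_fin, mul_comm] at this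
      exact this
    have h5 : (J.image Prod.fst).biUnion A = J.biUnion (fun k : ι × Fin q => A k.1) := by
      rw [image_biUnion]
    have h6 : 2 * q * (J.image Prod.fst).card ≤ (J.biUnion (fun k : ι × Fin q => A k.1)).card := by
      rw [← h5, card_biUnion (fun i _ j _ hij => hA i j hij)]
      calc 2 * q * (J.image Prod.fst).card = ∑ _i ∈ J.image Prod.fst, 2 * q := by
            rw [sum_const, smul_eq_mul, mul_comm]
        _ ≤ _ := sum_le_sum fun i _ => hq i
    have h7 := card_le_card (subset_union_left : δ p ⊆ δ p ∪ J.biUnion (fun k : ι × Fin q => A k.1))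
    have h8 := card_le_card (subset_union_right :
      J.biUnion (fun k : ι × Fin q => A k.1) ⊆ δ p ∪ J.biUnion (fun k : ι × Fin q => A k.1))
    have h9 := h2 p
    have h10 : 2 * q * (J.image Prod.fst).card = 2 * (q * (J.image Prod.fst).card) := by ring
    omega
  obtain ⟨b, hb, hbA, hbp⟩ := rado h0 hm _ hB
  refine ⟨fun i => (univ : Finset (Fin q)).image fun j => b (i, j), fun i => ?_, fun i => ?_,
    fun p => ?_⟩
  · intro e he
    rw [mem_image] at he
    obtain ⟨j, -, rfl⟩ := he
    exact hbA (i, j)
  · rw [card_image_of_injective _ (fun j j' h => by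
      have := hb h
      exact (Prod.mk.inj this).2), card_univ, Fintype.card_fin]
  · have h3 : (δ p ∩ univ.biUnion fun i => (univ : Finset (Fin q)).image fun j => b (i, j)).card
        ≤ (univ.filter fun k => b k ∈ δ p).card := by
      refine (card_le_card ?_).trans (card_image_le (s := univ.filter fun k => b k ∈ δ p) (f := b))
      intro e he
      rw [mem_inter, mem_biUnion] at he
      obtain ⟨he, i, -, hi⟩ := he
      rw [mem_image] at hi
      obtain ⟨j, -, rfl⟩ := hi
      exact mem_image_of_mem _ (mem_filter.2 ⟨mem_univ _, he⟩)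
    have := hbp p
    omega

/-- Nested selection: one element of every group, good for finitely many requirements. -/
theorem nested {E ι Ξ : Type*} [DecidableEq E] [Fintype ι] [DecidableEq ι]
    (Good : Ξ → Finset E → Prop) (hmono : ∀ ξ T T', T ⊆ T' → Good ξ T' → Good ξ T)
    (hhalf : ∀ ξ (A : ι → Finset E) (q : ℕ), (∀ i j, i ≠ j → Disjoint (A i) (A j)) →
      (∀ i, 2 * q ≤ (A i).card) → ∃ A' : ι → Finset E, (∀ i, A' i ⊆ A i) ∧
        (∀ i, (A' i).card = q) ∧ Good ξ (univ.biUnion A')) (L : Finset Ξ) :
    ∀ (q : ℕ) (A : ι → Finset E), (∀ i j, i ≠ j → Disjoint (A i) (A j)) →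
      (∀ i, 2 ^ L.card * q ≤ (A i).card) → ∃ A' : ι → Finset E, (∀ i, A' i ⊆ A i) ∧
        (∀ i, q ≤ (A' i).card) ∧ ∀ ξ ∈ L, Good ξ (univ.biUnion A') := by
  classical
  induction L using Finset.induction with
  | empty =>
    intro q A _ hq
    exact ⟨A, fun i => subset_rfl, fun i => by simpa using hq i, by simp⟩
  | insert ξ L hξ ih =>
    intro q A hA hq
    obtain ⟨A1, hA1, hc1, hg1⟩ := ih (2 * q) A hA (fun i => by
      have := hq i
      rw [card_insert_of_notMem hξ, pow_succ] at this
      calc 2 ^ L.card * (2 * q) = 2 ^ L.card * 2 * q := by ring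
        _ ≤ _ := this)
    obtain ⟨A2, hA2, hc2, hg2⟩ := hhalf ξ A1 q (fun i j hij =>
      disjoint_of_subset_left (hA1 i) (disjoint_of_subset_right (hA1 j) (hA i j hij))) hc1
    refine ⟨A2, fun i => (hA2 i).trans (hA1 i), fun i => (hc2 i).ge, fun ζ hζ => ?_⟩
    rw [mem_insert] at hζ
    rcases hζ with rfl | hζ
    · exact hg2
    · refine hmono ζ _ _ ?_ (hg1 ζ hζ)
      intro e he
      rw [mem_biUnion] at he ⊢
      obtain ⟨i, hi, he⟩ := he
      exact ⟨i, hi, hA2 i he⟩

section Setoids

variable {W : Type*} [Fintype W]

/-- Functions which are constant on the classes. -/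
def constOn (r : Setoid W) : Submodule ℚ (W → ℚ) where
  carrier := {f | ∀ v w, r v w → f v = f w}
  add_mem' := by
    intro f g hf hg v w h
    simp only [Pi.add_apply]
    rw [hf v w h, hg v w h]
  zero_mem' := by intro v w _; rfl
  smul_mem' := by
    intro a f hf v w h
    simp only [Pi.smul_apply]
    rw [hf v w h]

theorem finrank_constOn (r : Setoid W) :
    Module.finrank ℚ (constOn r) = Nat.card (Quotient r) := by
  classical
  have e : constOn r ≃ₗ[ℚ] (Quotient r → ℚ) :=
    { toFun := fun f => Quotient.lift f.1 (fun v w h => f.2 v w h)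
      map_add' := by
        intro f g
        funext x
        induction x using Quotient.inductionOn with
        | _ v => rfl
      map_smul' := by
        intro a f
        funext x
        induction x using Quotient.inductionOn with
        | _ v => rfl
      invFun := fun g => ⟨fun v => g (Quotient.mk r v), fun v w h =>
        congrArg g (Quotient.sound h)⟩
      left_inv := by
        intro f
        ext v
        rfl
      right_inv := by
        intro g
        funext x
        induction x using Quotient.inductionOn with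
        | _ v => rfl }
  rw [e.finrank_eq, Module.finrank_fintype_fun_eq_card, Nat.card_eq_fintype_card]

theorem constOn_inf_le (r s : Setoid W) : constOn r ⊓ constOn s ≤ constOn (r ⊔ s) := by
  intro f hf v w h
  rw [Submodule.mem_inf] at hf
  have h1 : r ⊔ s ≤ Setoid.ker f := sup_le (fun a b hab => hf.1 a b hab) (fun a b hab => hf.2 a b hab)
  exact h1 h

theorem constOn_sup_le (r s : Setoid W) : constOn r ⊔ constOn s ≤ constOn (r ⊓ s) :=
  sup_le (fun _ hf v w h => hf v w h.1) (fun _ hf v w h => hf v w h.2)

theorem card_quot (r s : Setoid W) : Nat.card (Quotient r) + Nat.card (Quotient s) ≤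
    Nat.card (Quotient (r ⊓ s)) + Nat.card (Quotient (r ⊔ s)) := by
  rw [← finrank_constOn, ← finrank_constOn, ← finrank_constOn, ← finrank_constOn,
    ← Submodule.finrank_sup_add_finrank_inf_eq]
  exact add_le_add (Submodule.finrank_mono (constOn_sup_le r s))
    (Submodule.finrank_mono (constOn_inf_le r s))

end Setoids

end Pool.Agent.K5
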