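import Mathlib
import Pool.Agent.Work.MP_974d84_co_k5.Select

/-!
# Selection in hypergraphs, for finitely many base partitions at the same time
-/

set_option linter.unusedSectionVars false

namespace Pool.Agent.K5

open Finset

section Hyper

variable {W E ι Ξ : Type*} [Fintype W] [Fintype E] [DecidableEq E] [Fintype ι] [DecidableEq ι]
  [Fintype Ξ]

open Classical in
/-- The elements which do not lie inside one class. -/
noncomputable def spl (inc : E → Finset W) (r : Setoid W) : Finset E :=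
  univ.filter fun e => ∃ v ∈ inc e, ∃ w ∈ inc e, ¬ r v w

/-- The set `S` splits the element `e`. -/
def Cuts (inc : E → Finset W) (S : Finset W) (e : E) : Prop :=
  (∃ v ∈ inc e, v ∈ S) ∧ ∃ v ∈ inc e, v ∉ S

theorem mem_spl {inc : E → Finset W} {r : Setoid W} {e : E} :
    e ∈ spl inc r ↔ ∃ v ∈ inc e, ∃ w ∈ inc e, ¬ r v w := by
  classical
  simp [spl]

theorem spl_inf {inc : E → Finset W} (r s : Setoid W) :
    spl inc (r ⊓ s) ⊆ spl inc r ∪ spl inc s := by
  classical
  intro e he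
  rw [mem_spl] at he
  obtain ⟨v, hv, w, hw, h⟩ := he
  rw [mem_union, mem_spl, mem_spl]
  by_cases h1 : r v w
  · right
    exact ⟨v, hv, w, hw, fun h2 => h ⟨h1, h2⟩⟩
  · left
    exact ⟨v, hv, w, hw, h1⟩

theorem spl_sup {inc : E → Finset W} (r s : Setoid W) :
    spl inc (r ⊔ s) ⊆ spl inc r ∩ spl inc s := by
  classical
  intro e he
  rw [mem_spl] at he
  obtain ⟨v, hv, w, hw, h⟩ := he
  rw [mem_inter, mem_spl, mem_spl]
  exact ⟨⟨v, hv, w, hw, fun h1 => h ((le_sup_left : r ≤ r ⊔ s) h1)⟩,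
    ⟨v, hv, w, hw, fun h1 => h ((le_sup_right : s ≤ r ⊔ s) h1)⟩⟩

theorem one_le_card_quot [Nonempty W] (r : Setoid W) : 1 ≤ Nat.card (Quotient r) := by
  have : Nonempty (Quotient r) := ⟨Quotient.mk r (Classical.arbitrary W)⟩
  exact Nat.card_pos

open Classical in
theorem hyper_select (inc : E → Finset W) (b : Ξ → Setoid W) (κ : ℕ)
    (hcon : ∀ ξ (r : Setoid W), b ξ ≤ r → 2 ≤ Nat.card (Quotient r) →
      2 * κ * Nat.card (Quotient r) ≤ (spl inc r).card)
    (A : ι → Finset E) (hA : ∀ i j, i ≠ j → Disjoint (A i) (A j))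
    (hq : ∀ i, 2 ^ Fintype.card Ξ ≤ (A i).card) :
    ∃ a : ι → E, (∀ i, a i ∈ A i) ∧ ∀ ξ (S : Finset W),
      (∀ v w, b ξ v w → (v ∈ S ↔ w ∈ S)) → S.Nonempty → (∃ v, v ∉ S) →
      κ + (univ.filter fun i => Cuts inc S (a i)).card ≤ (univ.filter fun e => Cuts inc S e).card := by
  rcases isEmpty_or_nonempty W with hW | hW
  · have h1 : ∀ i, (A i).Nonempty := fun i => by
      rw [← card_pos]
      exact lt_of_lt_of_le (by positivity) (hq i)
    choose a ha using h1
    exact ⟨a, ha, fun ξ S _ hS _ => (hW.false hS.choose).elim⟩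
  let Good : Ξ → Finset E → Prop := fun ξ T => ∀ r : Setoid W, b ξ ≤ r →
    κ * (Nat.card (Quotient r) - 1) + (spl inc r ∩ T).card ≤ (spl inc r).card
  have hmono : ∀ ξ T T', T ⊆ T' → Good ξ T' → Good ξ T := by
    intro ξ T T' hTT h r hr
    have h1 := h r hr
    have h2 := card_le_card (inter_subset_inter_left hTT : spl inc r ∩ T ⊆ spl inc r ∩ T')
    omega
  have hhalf : ∀ ξ (A : ι → Finset E) (q : ℕ), (∀ i j, i ≠ j → Disjoint (A i) (A j)) →
      (∀ i, 2 * q ≤ (A i).card) → ∃ A' : ι → Finset E, (∀ i, A' i ⊆ A i) ∧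
        (∀ i, (A' i).card = q) ∧ Good ξ (univ.biUnion A') := by
    intro ξ A q hA hq
    obtain ⟨A', h1, h2, h3⟩ := halving (P := {r : Setoid W // b ξ ≤ r})
      (δ := fun r => spl inc r.1) (m := fun r => κ * (Nat.card (Quotient r.1) - 1)) (by
        refine ⟨⟨⊤, le_top⟩, ?_⟩
        rw [eq_empty_iff_forall_notMem]
        intro e he
        rw [mem_spl] at he
        obtain ⟨v, -, w, -, h⟩ := he
        exact h trivial) (by
        rintro ⟨r, hr⟩ ⟨s, hs⟩
        refine ⟨⟨r ⊓ s, le_inf hr hs⟩, ⟨r ⊔ s, hr.trans le_sup_left⟩, spl_inf r s, spl_sup r s, ?_⟩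
        have h1 := card_quot r s
        have h2 := one_le_card_quot r
        have h3 := one_le_card_quot s
        have h4 := one_le_card_quot (r ⊓ s)
        have h5 := one_le_card_quot (r ⊔ s)
        simp only
        rw [← mul_add, ← mul_add]
        exact Nat.mul_le_mul_left _ (by omega)) (by
        rintro ⟨r, hr⟩
        simp only
        by_cases h : 2 ≤ Nat.card (Quotient r)
        · refine le_trans ?_ (hcon ξ r hr h)
          rw [mul_assoc]
          exact Nat.mul_le_mul_left _ (Nat.mul_le_mul_left _ (Nat.sub_le _ _))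
        · rw [show Nat.card (Quotient r) - 1 = 0 by omega]
          simp) A hA hq
    exact ⟨A', h1, h2, fun r hr => h3 ⟨r, hr⟩⟩
  obtain ⟨A', h1, h2, h3⟩ := nested Good hmono hhalf (univ : Finset Ξ) 1 A hA (by
    intro i
    rw [mul_one, card_univ]
    exact hq i)
  have h4 : ∀ i, (A' i).Nonempty := fun i => by
    rw [← card_pos]; exact h2 i
  choose a ha using h4
  refine ⟨a, fun i => h1 i (ha i), fun ξ S hS hS1 hS2 => ?_⟩
  obtain ⟨v, hv⟩ := hS1
  obtain ⟨w, hw⟩ := hS2
  let r : Setoid W := Setoid.ker fun v => v ∈ S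
  have hr : b ξ ≤ r := by
    intro x y hxy
    rw [Setoid.ker_def]
    exact propext (hS x y hxy)
  have hrn : ∀ x y, r x y ↔ (x ∈ S ↔ y ∈ S) := by
    intro x y
    rw [Setoid.ker_def]
    exact eq_iff_iff
  have h5 := h3 ξ (mem_univ _) r hr
  have h6 : 2 ≤ Nat.card (Quotient r) := by
    have : Nontrivial (Quotient r) := by
      refine ⟨Quotient.mk r v, Quotient.mk r w, fun h => ?_⟩
      have := Quotient.exact h
      have h7 : r v w := this
      rw [hrn] at h7
      exact hw (h7.1 hv)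
    exact Finite.one_lt_card
  have h7 : spl inc r = univ.filter fun e => Cuts inc S e := by
    ext e
    rw [mem_spl, mem_filter]
    simp only [mem_univ, true_and, Cuts]
    constructor
    · rintro ⟨x, hx, y, hy, h⟩
      rw [hrn] at h
      by_cases hxS : x ∈ S
      · exact ⟨⟨x, hx, hxS⟩, ⟨y, hy, fun hyS => h ⟨fun _ => hyS, fun _ => hxS⟩⟩⟩
      · refine ⟨⟨y, hy, ?_⟩, ⟨x, hx, hxS⟩⟩
        by_contra hyS
        exact h ⟨fun h' => absurd h' hxS, fun h' => absurd h' hyS⟩
    · rintro ⟨⟨x, hx, hxS⟩, ⟨y, hy, hyS⟩⟩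
      refine ⟨x, hx, y, hy, ?_⟩
      rw [hrn]
      exact fun h => hyS (h.1 hxS)
  rw [h7] at h5
  have h8 : (univ.filter fun i => Cuts inc S (a i)).card ≤
      ((univ.filter fun e => Cuts inc S e) ∩ univ.biUnion A').card := by
    refine card_le_card_of_injOn a (fun i hi => ?_) (fun i _ j _ hij => ?_)
    · have hi' := (mem_filter.1 (mem_coe.1 hi)).2
      exact mem_coe.2 (mem_inter.2 ⟨mem_filter.2 ⟨mem_univ _, hi'⟩,
        mem_biUnion.2 ⟨i, mem_univ _, ha i⟩⟩)
    · by_contra hne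
      refine Finset.disjoint_left.1 (hA i j hne) (h1 i (ha i)) ?_
      rw [hij]
      exact h1 j (ha j)
  have h9 : κ ≤ κ * (Nat.card (Quotient r) - 1) := by
    calc κ = κ * 1 := (mul_one κ).symm
      _ ≤ _ := Nat.mul_le_mul_left _ (by omega)
  omega

end Hyper

end Pool.Agent.K5
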