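import Mathlib
import Pool.Agent.Work.MP_974d84_co_log.Defs

/-!
# Candidate sets and the hypergraph of a cubic graph with candidate sets
-/

set_option linter.unusedSectionVars false

namespace Pool.Agent.K5

open Finset SimpleGraph Pool.Agent.Exp Pool.Agent.Log5

variable {V U : Type} [Fintype V] [DecidableEq V] [Fintype U] [DecidableEq U]

/-- Candidate sets: joined, with at most three vertices, pairwise at distance at least three. -/
structure Cand (G : SimpleGraph V) (X : U → Finset V) : Prop where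
  ne : ∀ u, (X u).Nonempty
  joined : ∀ u, Joined G (X u)
  card : ∀ u, (X u).card ≤ 3
  disj : ∀ u u', u ≠ u' → ∀ x ∈ X u, ∀ y ∈ X u', x ≠ y
  nadj : ∀ u u', u ≠ u' → ∀ x ∈ X u, ∀ y ∈ X u', ¬ G.Adj x y
  far : ∀ u u', u ≠ u' → ∀ x ∈ X u, ∀ y ∈ X u', ∀ z, G.Adj x z → ¬ G.Adj y z

/-- The vertices outside all candidate sets. -/
abbrev WV (X : U → Finset V) : Type := {v : V // v ∉ univ.biUnion X}

/-- The graph outside all candidate sets. -/
abbrev G0 (G : SimpleGraph V) (X : U → Finset V) : SimpleGraph (WV X) := G.comap Subtype.val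

open Classical in
/-- The hypergraph: the pairs of adjacent vertices outside the candidate sets, and for every
candidate set its set of outer neighbours. -/
noncomputable def inc (G : SimpleGraph V) (X : U → Finset V) :
    (WV X × WV X) ⊕ U → Finset (WV X)
  | Sum.inl p => univ.filter fun w => G.Adj p.1.1 p.2.1 ∧ (w = p.1 ∨ w = p.2)
  | Sum.inr u => univ.filter fun w => ∃ x ∈ X u, G.Adj x w.1

theorem mem_inc_inl {G : SimpleGraph V} {X : U → Finset V} {p : WV X × WV X} {w : WV X} :
    w ∈ inc G X (Sum.inl p) ↔ G.Adj p.1.1 p.2.1 ∧ (w = p.1 ∨ w = p.2) := by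
  simp [inc]

theorem mem_inc_inr {G : SimpleGraph V} {X : U → Finset V} {u : U} {w : WV X} :
    w ∈ inc G X (Sum.inr u) ↔ ∃ x ∈ X u, G.Adj x w.1 := by
  simp [inc]

end Pool.Agent.K5
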