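import Mathlib
import Pool.Agent.Work.MP_974d84_co_log.BigOf
import Pool.Agent.Work.MP_974d84_co_k5.HyperDef
import Pool.Agent.Work.MP_974d84_co_k5.Hyper

/-!
# Partitions of the graph without the candidate sets are crossed by many elements
-/

set_option linter.unusedSectionVars false

namespace Pool.Agent.K5

open Finset SimpleGraph Pool.Agent.Exp Pool.Agent.Log5

variable {V : Type} [Fintype V] [DecidableEq V] {G : SimpleGraph V} [DecidableRel G.Adj]
  {U : Type} [Fintype U] [DecidableEq U] {X : U → Finset V}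

theorem mem_spl_inl {r : Setoid (WV X)} {v w : WV X} (h : G.Adj v.1 w.1) (h' : ¬ r v w) :
    Sum.inl (v, w) ∈ spl (inc G X) r :=
  mem_spl.2 ⟨v, mem_inc_inl.2 ⟨h, Or.inl rfl⟩, w, mem_inc_inl.2 ⟨h, Or.inr rfl⟩, h'⟩

theorem notMem_X (v : WV X) (u : U) : v.1 ∉ X u :=
  fun h => v.2 (mem_biUnion.2 ⟨u, mem_univ _, h⟩)

theorem notMem_biUnion {v : V} (h : ∀ u, v ∉ X u) : v ∉ univ.biUnion X := by
  intro h'
  obtain ⟨u, -, hu⟩ := mem_biUnion.1 h'
  exact h u hu

/-- At most five ends. -/
theorem card_inc_inr {u : U} : (inc G X (Sum.inr u)).card ≤ dd G (X u) := by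
  classical
  rw [← dd_compl]
  have h : (inc G X (Sum.inr u)).image Subtype.val ⊆
      (Pool.Agent.Work.MP_314beb_co.cut G (X u)ᶜ).image Prod.fst := by
    intro v hv
    obtain ⟨w, hw, rfl⟩ := mem_image.1 hv
    obtain ⟨x, hx, hadj⟩ := mem_inc_inr.1 hw
    refine mem_image.2 ⟨(w.1, x), ?_, rfl⟩
    rw [mem_cut]
    exact ⟨by rw [mem_compl]; exact notMem_X w u, by rw [mem_compl, not_not]; exact hx, hadj.symm⟩
  rw [← card_image_of_injective _ Subtype.val_injective]
  exact (card_le_card h).trans card_image_le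

section Low

variable (r : Setoid (WV X))

open Classical in
/-- A class together with the candidate sets all whose neighbours are in the class. -/
noncomputable def hat (G : SimpleGraph V) (r : Setoid (WV X)) (z : Quotient r) : Finset V :=
  univ.filter fun v => (∃ h : v ∉ univ.biUnion X, Quotient.mk r ⟨v, h⟩ = z) ∨
    ∃ u, v ∈ X u ∧ ∀ w ∈ inc G X (Sum.inr u), Quotient.mk r w = z

theorem mem_hat {z : Quotient r} {v : V} : v ∈ hat G r z ↔
    (∃ h : v ∉ univ.biUnion X, Quotient.mk r ⟨v, h⟩ = z) ∨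
    ∃ u, v ∈ X u ∧ ∀ w ∈ inc G X (Sum.inr u), Quotient.mk r w = z := by
  classical
  simp [hat]

theorem mem_hat_val {z : Quotient r} {v : WV X} : v.1 ∈ hat G r z ↔ Quotient.mk r v = z := by
  rw [mem_hat]
  constructor
  · rintro (⟨h, h1⟩ | ⟨u, hu, -⟩)
    · exact h1
    · exact absurd hu (notMem_X v u)
  · intro h
    exact Or.inl ⟨v.2, h⟩

open Classical in
theorem le_card_hat {K : ℕ} (hK : ∀ v, K ≤ (univ.filter fun w => r w v).card)
    (z : Quotient r) : K ≤ (hat G r z).card := by
  induction z using Quotient.inductionOn with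
  | _ v =>
  refine (hK v).trans ?_
  refine card_le_card_of_injOn Subtype.val (fun w hw => ?_) Subtype.val_injective.injOn
  have h1 : r w v := (mem_filter.1 (mem_coe.1 hw)).2
  exact mem_coe.2 ((mem_hat_val r).2 (Quotient.sound h1))

open Classical in
theorem le_card_hat_compl {K : ℕ} (hK : ∀ v, K ≤ (univ.filter fun w => r w v).card)
    {z z' : Quotient r} (h : z ≠ z') : K ≤ ((hat G r z)ᶜ).card := by
  induction z' using Quotient.inductionOn with
  | _ v =>
  refine (hK v).trans ?_
  refine card_le_card_of_injOn Subtype.val (fun w hw => ?_) Subtype.val_injective.injOn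
  have h1 : r w v := (mem_filter.1 (mem_coe.1 hw)).2
  rw [mem_coe, mem_compl, mem_hat_val]
  intro h2
  apply h
  rw [← h2]
  exact Quotient.sound h1

open Classical in
/-- The border of `hat`. -/
theorem dd_hat_le (hX5 : ∀ u, dd G (X u) ≤ 5)
    (hXX : ∀ u u', u ≠ u' → ∀ a ∈ X u, ∀ b ∈ X u', ¬ G.Adj a b) (z : Quotient r) :
    dd G (hat G r z) ≤
      (univ.filter fun p : WV X × WV X =>
        Quotient.mk r p.1 = z ∧ Sum.inl p ∈ spl (inc G X) r).card +
      5 * (univ.filter fun u : U => Sum.inr u ∈ spl (inc G X) r ∧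
        ∃ w ∈ inc G X (Sum.inr u), Quotient.mk r w = z).card := by
  set A := univ.filter fun p : WV X × WV X =>
    Quotient.mk r p.1 = z ∧ Sum.inl p ∈ spl (inc G X) r with hA
  set B := univ.filter fun u : U => Sum.inr u ∈ spl (inc G X) r ∧
        ∃ w ∈ inc G X (Sum.inr u), Quotient.mk r w = z with hB
  have h1 : Pool.Agent.Work.MP_314beb_co.cut G (hat G r z) ⊆
      A.image (fun p => (p.1.1, p.2.1)) ∪
        B.biUnion fun u => Pool.Agent.Work.MP_314beb_co.cut G (X u)ᶜ := by
    rintro ⟨a, b⟩ hab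
    rw [mem_cut] at hab
    obtain ⟨ha, hb, hadj⟩ := hab
    simp only at ha hb hadj
    rw [mem_hat] at ha
    rcases ha with ⟨ha, haz⟩ | ⟨u, hau, hu⟩
    · by_cases hb0 : b ∉ univ.biUnion X
      · refine mem_union_left _ (mem_image.2 ⟨(⟨a, ha⟩, ⟨b, hb0⟩), ?_, rfl⟩)
        rw [hA, mem_filter]
        refine ⟨mem_univ _, haz, mem_spl_inl hadj fun hr => hb ?_⟩
        have h2 : Quotient.mk r ⟨b, hb0⟩ = z := by
          rw [← haz]
          exact (Quotient.sound hr).symm
        exact (mem_hat_val r (v := ⟨b, hb0⟩)).2 h2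
      · rw [not_not, mem_biUnion] at hb0
        obtain ⟨u, -, hbu⟩ := hb0
        refine mem_union_right _ (mem_biUnion.2 ⟨u, ?_, ?_⟩)
        · rw [hB, mem_filter]
          refine ⟨mem_univ _, ?_, ⟨a, ha⟩, mem_inc_inr.2 ⟨b, hbu, hadj.symm⟩, haz⟩
          by_contra hcon
          rw [mem_spl] at hcon
          push Not at hcon
          refine hb ((mem_hat r).2 (Or.inr ⟨u, hbu, fun w hw => ?_⟩))
          rw [← haz]
          exact Quotient.sound (hcon w hw ⟨a, ha⟩ (mem_inc_inr.2 ⟨b, hbu, hadj.symm⟩))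
        · rw [mem_cut]
          exact ⟨by rw [mem_compl]; exact notMem_X ⟨a, ha⟩ u, by rw [mem_compl, not_not]; exact hbu,
            hadj⟩
    · exfalso
      by_cases hb0 : b ∉ univ.biUnion X
      · refine hb ((mem_hat_val r (v := ⟨b, hb0⟩)).2 (hu ⟨b, hb0⟩ ?_))
        exact mem_inc_inr.2 ⟨a, hau, hadj⟩
      · rw [not_not, mem_biUnion] at hb0
        obtain ⟨u', -, hbu⟩ := hb0
        by_cases huu : u = u'
        · subst huu
          exact hb ((mem_hat r).2 (Or.inr ⟨u, hbu, hu⟩))
        · exact hXX u u' huu a hau b hbu hadj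
  have h2 := card_le_card h1
  have h3 : (A.image (fun p => (p.1.1, p.2.1))).card ≤ A.card := card_image_le
  have h4 : (B.biUnion fun u => Pool.Agent.Work.MP_314beb_co.cut G (X u)ᶜ).card ≤ B.card * 5 := by
    refine card_biUnion_le_card_mul _ _ _ fun u _ => ?_
    have := hX5 u
    rw [← dd_compl] at this
    exact this
  have h5 := card_union_le (A.image (fun p => (p.1.1, p.2.1)))
    (B.biUnion fun u => Pool.Agent.Work.MP_314beb_co.cut G (X u)ᶜ)
  unfold dd
  omega

open Classical in
/-- The sum over the classes. -/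
theorem hyper_low_aux (h3 : ∀ v, G.degree v = 3) {k : ℕ} (hc : CycConn G k)
    (hX5 : ∀ u, dd G (X u) ≤ 5)
    (hXX : ∀ u u', u ≠ u' → ∀ a ∈ X u, ∀ b ∈ X u', ¬ G.Adj a b)
    {K : ℕ} (hK : ∀ v, K ≤ (univ.filter fun w => r w v).card)
    (h2 : 2 ≤ Nat.card (Quotient r)) :
    Nat.card (Quotient r) * min k K ≤ 25 * (spl (inc G X) r).card := by
  have : Fintype (Quotient r) := Fintype.ofFinite _
  have hlow : ∀ z : Quotient r, min k K ≤ dd G (hat G r z) := by
    intro z
    rcases Nat.eq_zero_or_pos (min k K) with h | h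
    · omega
    · obtain ⟨z', hz'⟩ : ∃ z', z ≠ z' := by
        by_contra hcon
        push Not at hcon
        have : Nat.card (Quotient r) = 1 := by
          rw [Nat.card_eq_one_iff_unique]
          exact ⟨⟨fun a b => by rw [← hcon a, ← hcon b]⟩, ⟨z⟩⟩
        omega
      refine sep h3 hc (min_le_left _ _) ?_ ?_ h
      · exact (min_le_right _ _).trans (le_card_hat r hK z)
      · exact (min_le_right _ _).trans (le_card_hat_compl r hK hz')
  have h1 : ∑ z : Quotient r, dd G (hat G r z) ≤
      ∑ z : Quotient r, ((univ.filter fun p : WV X × WV X =>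
        Quotient.mk r p.1 = z ∧ Sum.inl p ∈ spl (inc G X) r).card +
      5 * (univ.filter fun u : U => Sum.inr u ∈ spl (inc G X) r ∧
        ∃ w ∈ inc G X (Sum.inr u), Quotient.mk r w = z).card) :=
    sum_le_sum fun z _ => dd_hat_le r hX5 hXX z
  have h4 : ∑ z : Quotient r, min k K ≤ ∑ z : Quotient r, dd G (hat G r z) :=
    sum_le_sum fun z _ => hlow z
  rw [sum_const, card_univ, ← Nat.card_eq_fintype_card, smul_eq_mul] at h4
  refine h4.trans (h1.trans ?_)
  rw [sum_add_distrib, ← mul_sum]
  have h5 : ∑ z : Quotient r, (univ.filter fun p : WV X × WV X =>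
      Quotient.mk r p.1 = z ∧ Sum.inl p ∈ spl (inc G X) r).card =
      (univ.filter fun p : WV X × WV X => Sum.inl p ∈ spl (inc G X) r).card := by
    rw [card_eq_sum_card_fiberwise (f := fun p : WV X × WV X => Quotient.mk r p.1)
      (t := univ) (fun _ _ => mem_coe.2 (mem_univ _))]
    refine sum_congr rfl fun z _ => ?_
    congr 1
    ext p
    simp only [mem_filter, mem_univ, true_and]
    tauto
  have h6 : ∑ z : Quotient r, (univ.filter fun u : U => Sum.inr u ∈ spl (inc G X) r ∧
        ∃ w ∈ inc G X (Sum.inr u), Quotient.mk r w = z).card ≤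
      5 * (univ.filter fun u : U => Sum.inr u ∈ spl (inc G X) r).card := by
    have h7 : ∀ z : Quotient r, (univ.filter fun u : U => Sum.inr u ∈ spl (inc G X) r ∧
        ∃ w ∈ inc G X (Sum.inr u), Quotient.mk r w = z).card =
        ∑ u ∈ univ.filter (fun u : U => Sum.inr u ∈ spl (inc G X) r),
          if ∃ w ∈ inc G X (Sum.inr u), Quotient.mk r w = z then 1 else 0 := by
      intro z
      rw [← card_filter, filter_filter]
    rw [sum_congr rfl fun z _ => h7 z, sum_comm, mul_comm, ← smul_eq_mul]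
    refine sum_le_card_nsmul _ _ _ fun u _ => ?_
    rw [← card_filter]
    refine le_trans (card_le_card ?_) ((card_image_le (s := inc G X (Sum.inr u))
      (f := fun w => Quotient.mk r w)).trans (card_inc_inr.trans (hX5 u)))
    intro z hz
    obtain ⟨w, hw, hwz⟩ := (mem_filter.1 hz).2
    exact mem_image.2 ⟨w, hw, hwz⟩
  have h8 : (spl (inc G X) r).card =
      (univ.filter fun p : WV X × WV X => Sum.inl p ∈ spl (inc G X) r).card +
      (univ.filter fun u : U => Sum.inr u ∈ spl (inc G X) r).card := by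
    have h9 : spl (inc G X) r =
        (univ.filter fun p : WV X × WV X => Sum.inl p ∈ spl (inc G X) r).disjSum
        (univ.filter fun u : U => Sum.inr u ∈ spl (inc G X) r) := by
      ext e
      rcases e with p | u
      · simp
      · simp
    rw [h9, card_disjSum]
    simp
  rw [h5, h8]
  omega

open Classical in
/-- **Every partition with at least two classes, all of them large, is crossed by many elements.** -/
theorem hyper_low (h3 : ∀ v, G.degree v = 3) {k : ℕ} (hc : CycConn G k) (hX : Cand G X)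
    {K : ℕ} (hK : ∀ v, K ≤ (univ.filter fun w => r w v).card)
    (h2 : 2 ≤ Nat.card (Quotient r)) :
    Nat.card (Quotient r) * min k K ≤ 25 * (spl (inc G X) r).card :=
  hyper_low_aux r h3 hc (fun u => by
    have h1 := dd_le_of_joined h3 (hX.joined u) (hX.ne u)
    have h4 := hX.card u
    omega) hX.nadj hK h2

open Classical in
/-- The hypothesis of `hyper_select`. -/
theorem hyper_con (h3 : ∀ v, G.degree v = 3) {k : ℕ} (hc : CycConn G k) (hX : Cand G X)
    {κ K : ℕ} (hKk : K ≤ k) (hκ : 50 * κ ≤ K) (b : Setoid (WV X))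
    (hK : ∀ v, K ≤ (univ.filter fun w => b w v).card) (hbr : b ≤ r)
    (h2 : 2 ≤ Nat.card (Quotient r)) :
    2 * κ * Nat.card (Quotient r) ≤ (spl (inc G X) r).card := by
  have h1 := hyper_low r h3 hc hX (K := K) (fun v => (hK v).trans (card_le_card fun w hw =>
    mem_filter.2 ⟨mem_univ _, hbr (mem_filter.1 hw).2⟩)) h2
  rw [min_eq_right hKk] at h1
  have h4 : 50 * κ * Nat.card (Quotient r) ≤ 25 * (spl (inc G X) r).card :=
    (Nat.mul_le_mul_right _ hκ).trans ((by rw [mul_comm]; exact h1))
  have h5 : 50 * κ * Nat.card (Quotient r) = 25 * (2 * κ * Nat.card (Quotient r)) := by ring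
  rw [h5] at h4
  exact Nat.le_of_mul_le_mul_left h4 (by norm_num)

end Low

end Pool.Agent.K5
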