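import Mathlib
import Pool.Agent.Work.MP_974d84_co_k5.HyperDef
import Pool.Agent.Work.MP_974d84_co_k5.Hyper

/-!
# Selection of candidate sets
-/

set_option linter.unusedSectionVars false

namespace Pool.Agent.K5

open Finset SimpleGraph Pool.Agent.Exp Pool.Agent.Log5

variable {V U : Type} [Fintype V] [DecidableEq V] [Fintype U] [DecidableEq U]

open Classical in
theorem cand_select {G : SimpleGraph V} {X : U → Finset V} {ι Ξ : Type} [Fintype ι]
    [DecidableEq ι] [Fintype Ξ] (c : Ξ → WV X → WV X) (κ : ℕ)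
    (hcon : ∀ ξ (r : Setoid (WV X)), (∀ v w, c ξ v = c ξ w → r v w) →
      2 ≤ Nat.card (Quotient r) → 2 * κ * Nat.card (Quotient r) ≤ (spl (inc G X) r).card)
    (A : ι → Finset U) (hA : ∀ i j, i ≠ j → Disjoint (A i) (A j))
    (hq : ∀ i, 2 ^ Fintype.card Ξ ≤ (A i).card) :
    ∃ a : ι → U, (∀ i, a i ∈ A i) ∧ Function.Injective a ∧ ∀ ξ (S : Finset (WV X)),
      (∀ v v', v ∈ S → c ξ v = c ξ v' → v' ∈ S) → S.Nonempty → Sᶜ.Nonempty →
      κ + ((univ.image a).filter fun u => Cuts (inc G X) S (Sum.inr u)).card ≤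
        ((univ : Finset (WV X × WV X)).filter fun p => G.Adj p.1.1 p.2.1 ∧
          ((p.1 ∈ S ∧ p.2 ∉ S) ∨ (p.1 ∉ S ∧ p.2 ∈ S))).card +
        ((univ : Finset U).filter fun u => Cuts (inc G X) S (Sum.inr u)).card := by
  obtain ⟨a, ha, hsel⟩ := hyper_select (inc G X) (fun ξ => Setoid.ker (c ξ)) κ
    (fun ξ r hr => hcon ξ r fun v w h => hr h)
    (fun i => (A i).image (Sum.inr : U → (WV X × WV X) ⊕ U)) (by
      intro i j hij
      rw [Finset.disjoint_left]
      intro e h1 h2
      rw [mem_image] at h1 h2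
      obtain ⟨u, hu, rfl⟩ := h1
      obtain ⟨u', hu', h⟩ := h2
      rw [Sum.inr.injEq] at h
      subst h
      exact Finset.disjoint_left.1 (hA i j hij) hu hu') (by
      intro i
      rw [card_image_of_injective _ Sum.inr_injective]
      exact hq i)
  have ha' : ∀ i, ∃ u ∈ A i, Sum.inr u = a i := fun i => by
    have := ha i
    rw [mem_image] at this
    exact this
  choose b hb hba using ha'
  have hinj : Function.Injective b := by
    intro i j hij
    by_contra hne
    exact Finset.disjoint_left.1 (hA i j hne) (hb i) (hij ▸ hb j)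
  refine ⟨b, hb, hinj, fun ξ S hS hS1 hS2 => ?_⟩
  have h1 := hsel ξ S (fun v w hvw => ⟨fun h => hS v w h hvw, fun h => hS w v h (Eq.symm hvw)⟩)
    hS1 (by
      obtain ⟨w, hw⟩ := hS2
      exact ⟨w, mem_compl.1 hw⟩)
  have h2 : ((univ.image b).filter fun u => Cuts (inc G X) S (Sum.inr u)).card =
      (univ.filter fun i => Cuts (inc G X) S (a i)).card := by
    rw [filter_image, card_image_of_injective _ hinj]
    congr 1
    ext i
    rw [mem_filter, mem_filter, hba i]
  have h3 : (univ.filter fun e => Cuts (inc G X) S e).card ≤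
      ((univ : Finset (WV X × WV X)).filter fun p => G.Adj p.1.1 p.2.1 ∧
          ((p.1 ∈ S ∧ p.2 ∉ S) ∨ (p.1 ∉ S ∧ p.2 ∈ S))).card +
        ((univ : Finset U).filter fun u => Cuts (inc G X) S (Sum.inr u)).card := by
    have h4 : (univ.filter fun e => Cuts (inc G X) S e) ⊆
        (((univ : Finset (WV X × WV X)).filter fun p => G.Adj p.1.1 p.2.1 ∧
          ((p.1 ∈ S ∧ p.2 ∉ S) ∨ (p.1 ∉ S ∧ p.2 ∈ S))).image Sum.inl) ∪
        (((univ : Finset U).filter fun u => Cuts (inc G X) S (Sum.inr u)).image Sum.inr) := by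
      intro e he
      rw [mem_filter] at he
      rw [mem_union]
      rcases e with p | u
      · left
        refine mem_image_of_mem _ (mem_filter.2 ⟨mem_univ _, ?_⟩)
        obtain ⟨-, ⟨v, hv, hvS⟩, ⟨w, hw, hwS⟩⟩ := he
        rw [mem_inc_inl] at hv hw
        refine ⟨hv.1, ?_⟩
        rcases hv.2 with h5 | h5
        · rcases hw.2 with h6 | h6
          · exact absurd (h5 ▸ hvS) (h6 ▸ hwS)
          · exact Or.inl ⟨h5 ▸ hvS, h6 ▸ hwS⟩
        · rcases hw.2 with h6 | h6
          · exact Or.inr ⟨h6 ▸ hwS, h5 ▸ hvS⟩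
          · exact absurd (h5 ▸ hvS) (h6 ▸ hwS)
      · right
        exact mem_image_of_mem _ (mem_filter.2 ⟨mem_univ _, he.2⟩)
    refine (card_le_card h4).trans ((card_union_le _ _).trans ?_)
    rw [card_image_of_injective _ Sum.inl_injective, card_image_of_injective _ Sum.inr_injective]
  rw [h2]
  omega

end Pool.Agent.K5
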