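import Mathlib
import Pool.Agent.Work.MP_974d84_co_k5.Defs5

/-!
# Optimal sets and their bonds

The cut of `X` in `Y` is the set of the edges of `Y` from `X` to `Y \ X`.  A set is optimal if its
cut is not larger than the cuts of the sets which differ from it inside `D`.  Optimality passes to
the parts of a cut, so a linear bound for the number of edges at `D` in the cut is true for all
optimal sets if it is true for the optimal bonds.
-/

set_option linter.unusedSectionVars false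
set_option autoImplicit false

namespace Pool.Agent.K5

open Finset SimpleGraph Pool.Agent.Exp Pool.Agent.Log5 Pool.Agent.Log5.Clu

variable {V : Type} [Fintype V] [DecidableEq V] (G : SimpleGraph V) [DecidableRel G.Adj]

/-- The cut of `X` in `Y`, both directions of every edge. -/
def sc (Y X : Finset V) : Finset (V × V) :=
  univ.filter fun p => G.Adj p.1 p.2 ∧ p.1 ∈ Y ∧ p.2 ∈ Y ∧ ¬ (p.1 ∈ X ↔ p.2 ∈ X)

/-- The edges of the cut of `X` in `Y` with an end in `D`. -/
def sl (Y D X : Finset V) : Finset (V × V) := (sc G Y X).filter fun p => p.1 ∈ D ∨ p.2 ∈ D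

/-- No change inside `E` makes the cut smaller. -/
def Opt (Y D X : Finset V) : Prop :=
  ∀ E ⊆ D, (sc G Y X).card ≤ (sc G Y (symmDiff X E)).card

variable {G}

theorem mem_sc {Y X : Finset V} {p : V × V} :
    p ∈ sc G Y X ↔ G.Adj p.1 p.2 ∧ p.1 ∈ Y ∧ p.2 ∈ Y ∧ ¬ (p.1 ∈ X ↔ p.2 ∈ X) := by
  simp [sc]

theorem mem_sl {Y D X : Finset V} {p : V × V} :
    p ∈ sl G Y D X ↔ p ∈ sc G Y X ∧ (p.1 ∈ D ∨ p.2 ∈ D) := by
  simp [sl]

/-- The cut counted in both directions. -/
theorem card_sc {Y X : Finset V} (hX : X ⊆ Y) : (sc G Y X).card = 2 * ee G X (Y \ X) := by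
  have h1 : sc G Y X = ((univ : Finset (V × V)).filter fun p => p.1 ∈ X ∧ p.2 ∈ Y \ X ∧
      G.Adj p.1 p.2) ∪ ((univ : Finset (V × V)).filter fun p => p.1 ∈ X ∧ p.2 ∈ Y \ X ∧
      G.Adj p.1 p.2).image Prod.swap := by
    ext ⟨u, v⟩
    rw [mem_sc, mem_union, mem_filter, mem_image]
    constructor
    · rintro ⟨h1, h2, h3, h4⟩
      by_cases hu : u ∈ X
      · by_cases hv : v ∈ X
        · exact absurd ⟨fun _ => hv, fun _ => hu⟩ h4
        · exact Or.inl ⟨mem_univ _, hu, mem_sdiff.2 ⟨h3, hv⟩, h1⟩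
      · by_cases hv : v ∈ X
        · exact Or.inr ⟨(v, u), mem_filter.2 ⟨mem_univ _, hv, mem_sdiff.2 ⟨h2, hu⟩, h1.symm⟩, rfl⟩
        · exact absurd ⟨fun h => absurd h hu, fun h => absurd h hv⟩ h4
    · rintro (⟨-, h2, h3, h4⟩ | ⟨⟨a, b⟩, h, hab⟩)
      · exact ⟨h4, hX h2, (mem_sdiff.1 h3).1, fun h => (mem_sdiff.1 h3).2 (h.1 h2)⟩
      · obtain ⟨-, h2, h3, h4⟩ := mem_filter.1 h
        obtain ⟨rfl, rfl⟩ := Prod.mk.inj hab
        exact ⟨h4.symm, (mem_sdiff.1 h3).1, hX h2, fun h => (mem_sdiff.1 h3).2 (h.2 h2)⟩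
  rw [h1, card_union_of_disjoint, card_image_of_injective _ Prod.swap_injective]
  · unfold ee
    ring
  · rw [Finset.disjoint_left]
    rintro ⟨u, v⟩ h h'
    obtain ⟨⟨a, b⟩, h2, hab⟩ := mem_image.1 h'
    obtain ⟨rfl, rfl⟩ := Prod.mk.inj hab
    exact (mem_sdiff.1 (mem_filter.1 h).2.2.1).2 (mem_filter.1 h2).2.1

theorem sc_symmDiff (Y X Z : Finset V) :
    (sc G Y (symmDiff X Z)).card ≤ (sc G Y X).card + (sc G Y Z).card := by
  refine (card_le_card ?_).trans (card_union_le _ _)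
  intro p hp
  rw [mem_union, mem_sc, mem_sc]
  rw [mem_sc, mem_symmDiff, mem_symmDiff] at hp
  obtain ⟨h1, h2, h3, h4⟩ := hp
  by_cases h5 : (p.1 ∈ X ↔ p.2 ∈ X)
  · right
    refine ⟨h1, h2, h3, fun h6 => h4 ?_⟩
    tauto
  · exact Or.inl ⟨h1, h2, h3, h5⟩

/-- `X` is the disjoint union of the cuts of `A` and `B`. -/
def Dec (G : SimpleGraph V) [DecidableRel G.Adj] (Y X A B : Finset V) : Prop :=
  symmDiff A B = X ∧ Disjoint (sc G Y A) (sc G Y B) ∧ sc G Y X = sc G Y A ∪ sc G Y B

theorem Dec.symm {Y X A B : Finset V} (h : Dec G Y X A B) : Dec G Y X B A := by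
  obtain ⟨h1, h2, h3⟩ := h
  exact ⟨by rw [symmDiff_comm]; exact h1, h2.symm, by rw [h3, union_comm]⟩

theorem Dec.card {Y X A B : Finset V} (h : Dec G Y X A B) :
    (sc G Y X).card = (sc G Y A).card + (sc G Y B).card := by
  rw [h.2.2, card_union_of_disjoint h.2.1]

theorem Dec.lost {Y X A B : Finset V} (D : Finset V) (h : Dec G Y X A B) :
    (sl G Y D X).card = (sl G Y D A).card + (sl G Y D B).card := by
  unfold sl
  rw [h.2.2, filter_union, card_union_of_disjoint]
  exact disjoint_filter_filter h.2.1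

theorem Dec.opt {Y X A B D : Finset V} (h : Dec G Y X A B) (hX : Opt G Y D X) :
    Opt G Y D A := by
  intro E hE
  have h1 := hX E hE
  have h2 : symmDiff X E = symmDiff (symmDiff A E) B := by
    rw [← h.1, symmDiff_assoc, symmDiff_comm B E, ← symmDiff_assoc]
  have h3 := sc_symmDiff (G := G) Y (symmDiff A E) B
  rw [← h2] at h3
  have h4 := h.card
  omega

/-- A part without edges to the rest is split off. -/
theorem dec_of_split {Y X A : Finset V} (hA : A ⊆ X)
    (h : ∀ x ∈ A, ∀ y ∈ X, y ∉ A → ¬ G.Adj x y) : Dec G Y X A (X \ A) := by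
  have key : ∀ x y, G.Adj x y → x ∈ X → y ∈ X → (x ∈ A ↔ y ∈ A) := by
    intro x y hxy hx hy
    constructor
    · intro h1
      by_contra h2
      exact h x h1 y hy h2 hxy
    · intro h1
      by_contra h2
      exact h y h1 x hx h2 hxy.symm
  refine ⟨?_, ?_, ?_⟩
  · ext x
    rw [mem_symmDiff, mem_sdiff]
    constructor
    · rintro (⟨h1, -⟩ | ⟨h1, -⟩)
      · exact hA h1
      · exact h1.1
    · intro h1
      by_cases h2 : x ∈ A
      · exact Or.inl ⟨h2, fun h3 => h3.2 h2⟩
      · exact Or.inr ⟨⟨h1, h2⟩, h2⟩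
  · rw [Finset.disjoint_left]
    rintro ⟨x, y⟩ h1 h2
    rw [mem_sc] at h1 h2
    obtain ⟨h3, -, -, h4⟩ := h1
    obtain ⟨-, -, -, h5⟩ := h2
    simp only [mem_sdiff] at h5
    have := key x y h3
    have a1 := @hA x
    have a2 := @hA y
    tauto
  · ext ⟨x, y⟩
    rw [mem_union, mem_sc, mem_sc, mem_sc]
    simp only [mem_sdiff]
    have a1 := @hA x
    have a2 := @hA y
    constructor
    · rintro ⟨h3, h4, h5, h6⟩
      have := key x y h3
      tauto
    · rintro (⟨h3, h4, h5, h6⟩ | ⟨h3, h4, h5, h6⟩)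
      · have := key x y h3
        tauto
      · have := key x y h3
        tauto

/-- A hole is split off. -/
theorem dec_of_hole {Y X C : Finset V} (hC : C ⊆ Y \ X)
    (h : ∀ x ∈ C, ∀ y ∈ Y \ X, y ∉ C → ¬ G.Adj x y) : Dec G Y X (X ∪ C) C := by
  have hCX : ∀ x ∈ C, x ∉ X := fun x hx => (mem_sdiff.1 (hC hx)).2
  have hCY : ∀ x ∈ C, x ∈ Y := fun x hx => (mem_sdiff.1 (hC hx)).1
  have key : ∀ x y, G.Adj x y → x ∈ C → y ∈ Y → y ∈ X ∨ y ∈ C := by
    intro x y hxy hx hy
    by_contra hcon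
    push Not at hcon
    exact h x hx y (mem_sdiff.2 ⟨hy, hcon.1⟩) hcon.2 hxy
  refine ⟨?_, ?_, ?_⟩
  · ext x
    rw [mem_symmDiff, mem_union]
    constructor
    · rintro (⟨h1 | h1, h2⟩ | ⟨h1, h2⟩)
      · exact h1
      · exact absurd h1 h2
      · exact absurd (Or.inr h1) h2
    · intro h1
      exact Or.inl ⟨Or.inl h1, fun h2 => hCX x h2 h1⟩
  · rw [Finset.disjoint_left]
    rintro ⟨x, y⟩ h1 h2
    rw [mem_sc] at h1 h2
    obtain ⟨h3, h4, h5, h6⟩ := h1
    obtain ⟨-, -, -, h7⟩ := h2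
    simp only [mem_union] at h4 h5 h6 h7
    have k1 := key x y h3
    have k2 := key y x h3.symm
    have a1 := hCX x
    have a2 := hCX y
    tauto
  · ext ⟨x, y⟩
    rw [mem_union, mem_sc, mem_sc, mem_sc]
    simp only [mem_union]
    have a1 := hCX x
    have a2 := hCX y
    constructor
    · rintro ⟨h3, h4, h5, h6⟩
      tauto
    · rintro (⟨h3, h4, h5, h6⟩ | ⟨h3, h4, h5, h6⟩)
      · refine ⟨h3, h4, h5, ?_⟩
        have k1 := key x y h3
        have k2 := key y x h3.symm
        tauto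
      · refine ⟨h3, h4, h5, ?_⟩
        have k1 := key x y h3
        have k2 := key y x h3.symm
        tauto

/-- A nonempty cut. -/
theorem sc_pos {Y X : Finset V} (hJ : Joined G Y) (hX : X ⊆ Y) (hne : X.Nonempty) (hXY : X ≠ Y) :
    0 < (sc G Y X).card := by
  obtain ⟨x, hx, y, hy, hyX, hxy⟩ := hJ X hX hne hXY
  refine card_pos.2 ⟨(x, y), mem_sc.2 ⟨hxy, hX hx, hy, fun h => hyX (h.1 hx)⟩⟩

/-- Every part of `Y \ X` outside `O` has an edge to the rest of `Y \ X`. -/
def ModR (G : SimpleGraph V) (Y O X : Finset V) : Prop :=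
  ∀ A ⊆ (Y \ X) \ O, A.Nonempty → A ≠ Y \ X → ∃ u ∈ A, ∃ v ∈ Y \ X, v ∉ A ∧ G.Adj u v

/-- The edges of the cut of `X` in `Y` without ends in `D`. -/
def scs (G : SimpleGraph V) [DecidableRel G.Adj] (Y D X : Finset V) : Finset (V × V) :=
  (sc G Y X).filter fun p => p.1 ∉ D ∧ p.2 ∉ D

theorem mem_scs {Y D X : Finset V} {p : V × V} :
    p ∈ scs G Y D X ↔ p ∈ sc G Y X ∧ p.1 ∉ D ∧ p.2 ∉ D := by
  simp [scs]

theorem card_sc_eq (Y D X : Finset V) :
    (sc G Y X).card = (sl G Y D X).card + (scs G Y D X).card := by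
  unfold sl scs
  rw [← card_filter_add_card_filter_not (s := sc G Y X) (fun p => p.1 ∈ D ∨ p.2 ∈ D)]
  congr 2
  ext p
  rw [mem_filter, mem_filter, not_or]

theorem scs_congr {Y D A B : Finset V} (h : ∀ x, x ∉ D → (x ∈ A ↔ x ∈ B)) :
    scs G Y D A = scs G Y D B := by
  ext p
  rw [mem_scs, mem_scs, mem_sc, mem_sc]
  constructor
  · rintro ⟨⟨h1, h2, h3, h4⟩, h5, h6⟩
    rw [h _ h5, h _ h6] at h4
    exact ⟨⟨h1, h2, h3, h4⟩, h5, h6⟩
  · rintro ⟨⟨h1, h2, h3, h4⟩, h5, h6⟩
    rw [← h _ h5, ← h _ h6] at h4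
    exact ⟨⟨h1, h2, h3, h4⟩, h5, h6⟩

/-- If at most two thirds of the cut of `B` are lost, then the cut of `A` without the lost edges is
at least one third of it. -/
theorem sc_le_three {Y D A B : Finset V} (h : ∀ x, x ∉ D → (x ∈ A ↔ x ∈ B))
    (hl : 3 * (sl G Y D B).card ≤ 2 * (sc G Y B).card) :
    (sc G Y B).card ≤ 3 * (scs G Y D A).card := by
  have h1 := card_sc_eq (G := G) Y D B
  rw [scs_congr h]
  omega

/-- **Induction over the bonds.** -/
theorem bond_induct {Y O D D' : Finset V} (hJ : Joined G Y) {α β : ℕ}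
    (hbond : ∀ P, P ⊆ Y \ O → P.Nonempty → P ≠ Y → Joined G P → ModR G Y O P → Opt G Y D P →
      α * (sl G Y D' P).card ≤ β * (sc G Y P).card) :
    ∀ (n : ℕ) (X : Finset V), (sc G Y X).card ≤ n → X ⊆ Y \ O → Opt G Y D X →
      α * (sl G Y D' X).card ≤ β * (sc G Y X).card := by
  intro n
  induction n with
  | zero =>
    intro X hn hX _
    have h1 : (sl G Y D' X).card ≤ (sc G Y X).card := card_filter_le _ _
    have h2 : (sl G Y D' X).card = 0 := by omega
    rw [h2]
    simp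
  | succ n ih =>
    intro X hn hX hopt
    have hXY : X ⊆ Y := fun x hx => (mem_sdiff.1 (hX hx)).1
    by_cases hne : X.Nonempty
    swap
    · rw [not_nonempty_iff_eq_empty] at hne
      have h1 : sl G Y D' X = ∅ := by
        rw [hne]
        apply eq_empty_of_forall_notMem
        rintro p hp
        rw [mem_sl, mem_sc] at hp
        exact hp.1.2.2.2 (by simp)
      rw [h1]
      simp
    by_cases hXe : X = Y
    · have h1 : sl G Y D' X = ∅ := by
        rw [hXe]
        apply eq_empty_of_forall_notMem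
        rintro p hp
        rw [mem_sl, mem_sc] at hp
        exact hp.1.2.2.2 (by simp [hp.1.2.1, hp.1.2.2.1])
      rw [h1]
      simp
    -- combine two parts
    have comb : ∀ A B : Finset V, Dec G Y X A B → A ⊆ Y \ O → B ⊆ Y \ O → A.Nonempty →
        A ≠ Y → B.Nonempty → B ≠ Y →
        α * (sl G Y D' X).card ≤ β * (sc G Y X).card := by
      intro A B hd hA hB hAn hAY hBn hBY
      have hA' : A ⊆ Y := fun x hx => (mem_sdiff.1 (hA hx)).1
      have hB' : B ⊆ Y := fun x hx => (mem_sdiff.1 (hB hx)).1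
      have p1 := sc_pos hJ hA' hAn hAY
      have p2 := sc_pos hJ hB' hBn hBY
      have p3 := hd.card
      have i1 := ih A (by omega) hA (hd.opt hopt)
      have i2 := ih B (by omega) hB (hd.symm.opt hopt)
      rw [hd.lost D', hd.card, mul_add, mul_add]
      omega
    by_cases hj : Joined G X
    · by_cases hm : ModR G Y O X
      · exact hbond X hX hne hXe hj hm hopt
      · unfold ModR at hm
        push Not at hm
        obtain ⟨C, hC, hCn, hCne, hCe⟩ := hm
        have hC1 : C ⊆ Y \ X := fun x hx => (mem_sdiff.1 (hC hx)).1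
        refine comb (X ∪ C) C (dec_of_hole hC1 hCe) ?_ ?_ ?_ ?_ hCn ?_
        · intro x hx
          rcases mem_union.1 hx with h | h
          · exact hX h
          · have h1 := mem_sdiff.1 (hC h)
            exact mem_sdiff.2 ⟨(mem_sdiff.1 h1.1).1, h1.2⟩
        · intro x hx
          have h1 := mem_sdiff.1 (hC hx)
          exact mem_sdiff.2 ⟨(mem_sdiff.1 h1.1).1, h1.2⟩
        · exact hne.mono subset_union_left
        · intro h
          apply hCne
          refine Subset.antisymm hC1 fun x hx => ?_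
          have h1 := mem_sdiff.1 hx
          have h2 : x ∈ X ∪ C := by rw [h]; exact h1.1
          rcases mem_union.1 h2 with h4 | h4
          · exact absurd h4 h1.2
          · exact h4
        · intro h
          obtain ⟨x, hx⟩ := hne
          have h1 : x ∈ C := by rw [h]; exact hXY hx
          exact (mem_sdiff.1 (hC1 h1)).2 hx
    · unfold Pool.Agent.Exp.Joined at hj
      push Not at hj
      obtain ⟨A, hA, hAn, hAX, hAe⟩ := hj
      have hsd : (X \ A).Nonempty := by
        rw [sdiff_nonempty]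
        exact fun h => hAX (Subset.antisymm hA h)
      refine comb A (X \ A) (dec_of_split hA hAe) (hA.trans hX)
        (sdiff_subset.trans hX) hAn ?_ hsd ?_
      · intro h
        exact hXe (Subset.antisymm hXY (by rw [← h]; exact hA))
      · intro h
        obtain ⟨x, hx⟩ := hAn
        have h1 : x ∈ X \ A := by rw [h]; exact hXY (hA hx)
        exact (mem_sdiff.1 h1).2 hx

/-- An optimal set between `A` and `A ∪ D`. -/
theorem exists_opt (G : SimpleGraph V) [DecidableRel G.Adj] (Y : Finset V) {A D : Finset V}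
    (hAD : Disjoint A D) : ∃ B, A ⊆ B ∧ B ⊆ A ∪ D ∧ Opt G Y D B := by
  obtain ⟨E, hE, hmin⟩ := exists_min_image D.powerset (fun E => (sc G Y (A ∪ E)).card)
    ⟨∅, empty_mem_powerset D⟩
  rw [mem_powerset] at hE
  refine ⟨A ∪ E, subset_union_left, union_subset_union_right hE, fun E' hE' => ?_⟩
  have h1 : symmDiff (A ∪ E) E' = A ∪ symmDiff E E' := by
    ext x
    rw [mem_symmDiff, mem_union, mem_union, mem_symmDiff]
    have h2 : x ∈ A → x ∉ D := fun h h' => Finset.disjoint_left.1 hAD h h'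
    have h3 := @hE' x
    tauto
  rw [h1]
  refine hmin _ (mem_powerset.2 fun x hx => ?_)
  rcases mem_symmDiff.1 hx with h | h
  · exact hE h.1
  · exact hE' h.1

end Pool.Agent.K5
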