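import Mathlib
import Pool.Agent.Work.MP_974d84_co_k5.Loss

/-!
# The lost edges of a cut are at the sites whose balls are split
-/

set_option linter.unusedSectionVars false
set_option autoImplicit false

namespace Pool.Agent.K5

open Finset SimpleGraph Pool.Agent.Exp Pool.Agent.Log5 Pool.Agent.Log5.Clu

variable {V : Type} [Fintype V] [DecidableEq V] {G : SimpleGraph V} [DecidableRel G.Adj]

/-- The edges at `X t`, in both directions. -/
def eAt (G : SimpleGraph V) [DecidableRel G.Adj] (Z : Finset V) : Finset (V × V) :=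
  Z.biUnion fun x => (G.neighborFinset x).image (fun y => (x, y)) ∪
    (G.neighborFinset x).image (fun y => (y, x))

theorem card_eAt (h3 : ∀ v, G.degree v = 3) (Z : Finset V) : (eAt G Z).card ≤ 6 * Z.card := by
  unfold eAt
  refine card_biUnion_le.trans ?_
  have h1 : ∀ x ∈ Z, ((G.neighborFinset x).image (fun y => (x, y)) ∪
      (G.neighborFinset x).image (fun y => (y, x))).card ≤ 6 := by
    intro x _
    refine (card_union_le _ _).trans ?_
    have h2 := card_image_le (s := G.neighborFinset x) (f := fun y => (x, y))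
    have h4 := card_image_le (s := G.neighborFinset x) (f := fun y => (y, x))
    rw [card_neighborFinset_eq_degree, h3] at h2 h4
    omega
  refine (sum_le_sum h1).trans ?_
  rw [sum_const, smul_eq_mul, mul_comm]

theorem mem_eAt {Z : Finset V} {p : V × V} (hp : G.Adj p.1 p.2) (h : p.1 ∈ Z ∨ p.2 ∈ Z) :
    p ∈ eAt G Z := by
  unfold eAt
  rw [mem_biUnion]
  rcases h with h | h
  · refine ⟨p.1, h, mem_union_left _ (mem_image.2 ⟨p.2, ?_, rfl⟩)⟩
    rw [mem_neighborFinset]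
    exact hp
  · refine ⟨p.2, h, mem_union_right _ (mem_image.2 ⟨p.1, ?_, rfl⟩)⟩
    rw [mem_neighborFinset]
    exact hp.symm

open Classical in
/-- **The lost edges are few** if few balls are split. -/
theorem sl_le_split (h3 : ∀ v, G.degree v = 3) {R : ℕ} {T : Finset V} {X : V → Finset V}
    (hX : Triples G R T X) (Y P : Finset V) :
    (sl G Y (T.biUnion X) P).card ≤ 18 * (T.filter fun t => Sp G 2 P t).card := by
  have hsub : sl G Y (T.biUnion X) P ⊆ (T.filter fun t => Sp G 2 P t).biUnion fun t =>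
      eAt G (X t) := by
    intro p hp
    rw [mem_sl, mem_sc] at hp
    obtain ⟨⟨h1, -, -, h2⟩, h4⟩ := hp
    have h5 : ∃ t ∈ T, p.1 ∈ X t ∨ p.2 ∈ X t := by
      rcases h4 with h4 | h4
      · obtain ⟨t, ht, htx⟩ := mem_biUnion.1 h4
        exact ⟨t, ht, Or.inl htx⟩
      · obtain ⟨t, ht, htx⟩ := mem_biUnion.1 h4
        exact ⟨t, ht, Or.inr htx⟩
    obtain ⟨t, ht, htx⟩ := h5
    have h6 : p.1 ∈ Bl G.Adj 2 t ∧ p.2 ∈ Bl G.Adj 2 t := by
      rcases htx with h | h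
      · have h7 := hX.ball t ht h
        exact ⟨Bl_mono (by norm_num) t h7, mem_Bl_succ.2 (Or.inr ⟨_, h7, h1⟩)⟩
      · have h7 := hX.ball t ht h
        exact ⟨mem_Bl_succ.2 (Or.inr ⟨_, h7, h1.symm⟩), Bl_mono (by norm_num) t h7⟩
    rw [mem_biUnion]
    refine ⟨t, mem_filter.2 ⟨ht, ?_⟩, mem_eAt h1 htx⟩
    by_cases h8 : (p.1 ∈ P ↔ t ∈ P)
    · exact ⟨p.2, h6.2, fun h9 => h2 (h8.trans h9.symm)⟩
    · exact ⟨p.1, h6.1, h8⟩
  refine (card_le_card hsub).trans (card_biUnion_le.trans ?_)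
  have h1 : ∀ t ∈ T.filter fun t => Sp G 2 P t, (eAt G (X t)).card ≤ 18 := by
    intro t ht
    have h2 := card_eAt h3 (X t)
    have h4 := hX.card t (mem_filter.1 ht).1
    omega
  refine (sum_le_sum h1).trans ?_
  rw [sum_const, smul_eq_mul, mul_comm]

/-- The edges of the cut at `D`, in one direction. -/
theorem card_sl {Y D X : Finset V} (hX : X ⊆ Y) : (sl G Y D X).card =
    2 * ((univ : Finset (V × V)).filter fun p => p.1 ∈ X ∧ p.2 ∈ Y \ X ∧ G.Adj p.1 p.2 ∧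
      (p.1 ∈ D ∨ p.2 ∈ D)).card := by
  set E := (univ : Finset (V × V)).filter fun p => p.1 ∈ X ∧ p.2 ∈ Y \ X ∧ G.Adj p.1 p.2 ∧
      (p.1 ∈ D ∨ p.2 ∈ D) with hE
  have memE : ∀ u v, (u, v) ∈ E ↔ u ∈ X ∧ v ∈ Y \ X ∧ G.Adj u v ∧ (u ∈ D ∨ v ∈ D) := by
    intro u v
    rw [hE, mem_filter]
    exact ⟨fun h => h.2, fun h => ⟨mem_univ _, h⟩⟩
  have h1 : sl G Y D X = E ∪ E.image Prod.swap := by
    ext ⟨u, v⟩
    rw [mem_sl, mem_sc, mem_union, memE, mem_image]
    constructor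
    · rintro ⟨⟨h1, h2, h3, h4⟩, h5⟩
      by_cases hu : u ∈ X
      · by_cases hv : v ∈ X
        · exact absurd ⟨fun _ => hv, fun _ => hu⟩ h4
        · exact Or.inl ⟨hu, mem_sdiff.2 ⟨h3, hv⟩, h1, h5⟩
      · by_cases hv : v ∈ X
        · exact Or.inr ⟨(v, u), (memE v u).2 ⟨hv, mem_sdiff.2 ⟨h2, hu⟩, h1.symm, h5.symm⟩, rfl⟩
        · exact absurd ⟨fun h => absurd h hu, fun h => absurd h hv⟩ h4
    · rintro (⟨h2, h3, h4, h5⟩ | ⟨⟨a, b⟩, h, hab⟩)
      · exact ⟨⟨h4, hX h2, (mem_sdiff.1 h3).1, fun h => (mem_sdiff.1 h3).2 (h.1 h2)⟩, h5⟩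
      · obtain ⟨h2, h3, h4, h5⟩ := (memE a b).1 h
        obtain ⟨rfl, rfl⟩ := Prod.mk.inj hab
        exact ⟨⟨h4.symm, (mem_sdiff.1 h3).1, hX h2, fun h => (mem_sdiff.1 h3).2 (h.2 h2)⟩,
          h5.symm⟩
  rw [h1, card_union_of_disjoint, card_image_of_injective _ Prod.swap_injective]
  · ring
  · rw [Finset.disjoint_left]
    rintro ⟨u, v⟩ h h'
    obtain ⟨⟨a, b⟩, h2, hab⟩ := mem_image.1 h'
    obtain ⟨rfl, rfl⟩ := Prod.mk.inj hab
    exact (mem_sdiff.1 ((memE _ _).1 h).2.1).2 ((memE _ _).1 h2).1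

/-- The clean edges of the cut, in one direction. -/
theorem card_scs {Y D X : Finset V} (hX : X ⊆ Y) : (scs G Y D X).card =
    2 * ((univ : Finset (V × V)).filter fun p => p.1 ∈ X ∧ p.2 ∈ Y \ X ∧ G.Adj p.1 p.2 ∧
      p.1 ∉ D ∧ p.2 ∉ D).card := by
  have h1 := card_sc_eq (G := G) Y D X
  have h2 := card_sc (G := G) hX
  have h4 := card_sl (G := G) (D := D) hX
  have h5 : ee G X (Y \ X) = ((univ : Finset (V × V)).filter fun p => p.1 ∈ X ∧ p.2 ∈ Y \ X ∧
      G.Adj p.1 p.2 ∧ (p.1 ∈ D ∨ p.2 ∈ D)).card + ((univ : Finset (V × V)).filter fun p =>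
      p.1 ∈ X ∧ p.2 ∈ Y \ X ∧ G.Adj p.1 p.2 ∧ p.1 ∉ D ∧ p.2 ∉ D).card := by
    unfold ee
    rw [← card_union_of_disjoint]
    · congr 1
      ext p
      simp only [mem_union, mem_filter, mem_univ, true_and]
      tauto
    · rw [Finset.disjoint_left]
      intro p h6 h7
      have h8 := (mem_filter.1 h6).2.2.2.2
      have h9 := (mem_filter.1 h7).2.2.2.2
      tauto
  omega

end Pool.Agent.K5
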