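import Mathlib
import Pool.Agent.Work.MP_974d84_co_k5.LossBig
import Pool.Agent.Work.MP_974d84_co_k5.LossTree

/-!
# The lost edges of an optimal tree
-/

set_option linter.unusedSectionVars false
set_option autoImplicit false

namespace Pool.Agent.K5

open Finset SimpleGraph Pool.Agent.Exp Pool.Agent.Log5 Pool.Agent.Log5.Clu

variable {V : Type} [Fintype V] [DecidableEq V]

/-- The graph with the edges inside `S`. -/
def gin (G : SimpleGraph V) (S : Finset V) : SimpleGraph V :=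
  SimpleGraph.mk (fun u v => G.Adj u v ∧ u ∈ S ∧ v ∈ S)
    ⟨fun _ _ h => ⟨h.1.symm, h.2.2, h.2.1⟩⟩ ⟨fun _ h => G.irrefl h.1⟩

instance (G : SimpleGraph V) [DecidableRel G.Adj] (S : Finset V) :
    DecidableRel (gin G S).Adj :=
  fun u v => inferInstanceAs (Decidable (G.Adj u v ∧ u ∈ S ∧ v ∈ S))

theorem gin_adj {G : SimpleGraph V} {S : Finset V} {u v : V} :
    (gin G S).Adj u v ↔ G.Adj u v ∧ u ∈ S ∧ v ∈ S := Iff.rfl

variable {G : SimpleGraph V} [DecidableRel G.Adj]

theorem dd_gin {S P : Finset V} (hP : P ⊆ S) : dd (gin G S) P = ee G P (S \ P) := by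
  unfold dd ee
  congr 1
  ext p
  rw [mem_cut, gin_adj, mem_filter, mem_sdiff]
  have := @hP p.1
  simp only [mem_univ, true_and]
  tauto

theorem dd_gstar_gin {S P D : Finset V} (hP : P ⊆ S) :
    dd (LS.gstar (gin G S) D) P = ((univ : Finset (V × V)).filter fun p => p.1 ∈ P ∧
      p.2 ∈ S \ P ∧ G.Adj p.1 p.2 ∧ p.1 ∉ D ∧ p.2 ∉ D).card := by
  unfold dd
  congr 1
  ext p
  rw [mem_cut, LS.gstar_adj, gin_adj, mem_filter, mem_sdiff]
  have := @hP p.1
  simp only [mem_univ, true_and]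
  tauto

theorem joined_triple {R : ℕ} {T : Finset V} {X : V → Finset V} (hX : Triples G R T X) {t : V}
    (ht : t ∈ T) : Joined G (X t) := by
  have hadj : ∀ y ∈ X t, y ≠ t → G.Adj t y := by
    intro y hy hyt
    rcases mem_Bl_succ.1 (hX.ball t ht hy) with h | ⟨u, hu, huy⟩
    · exact absurd (mem_Bl_zero.1 h) hyt
    · rw [mem_Bl_zero.1 hu] at huy
      exact huy
  intro A hA hne hAX
  by_cases h1 : t ∈ A
  · have h2 : ∃ y ∈ X t, y ∉ A := by
      by_contra hcon
      push Not at hcon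
      exact hAX (Subset.antisymm hA hcon)
    obtain ⟨y, hy, hyA⟩ := h2
    exact ⟨t, h1, y, hy, hyA, hadj y hy fun h => hyA (h ▸ h1)⟩
  · obtain ⟨y, hy⟩ := hne
    exact ⟨y, hy, t, hX.mem t ht, h1, (hadj y (hA hy) fun h => h1 (h ▸ hy)).symm⟩

/-- **Optimal trees** lose at most two thirds of their edges. -/
theorem tree_bond (h3 : ∀ v, G.degree v = 3) {k R : ℕ} (hg : Gir G k) {P Y S : Finset V}
    (hP : Joined G P) (hne : P.Nonempty) (hk : P.card + 7 ≤ k) (hPY : P ⊆ Y) (hYS : Y ⊆ S)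
    {T : Finset V} {X : V → Finset V} (hX : Triples G R T X) (hR : 10 ≤ R)
    (hopt : Opt G S (T.biUnion X ∩ Y) P) (hlow : 100 * dd G P ≤ 223 * ee G P (S \ P)) :
    3 * (sl G S (T.biUnion X) P).card ≤ 2 * (sc G S P).card := by
  have hle : gin G S ≤ G := fun u v h => h.1
  have hPS : P ⊆ S := hPY.trans hYS
  have h1 := LS.loss_tree h3 hg (show 8 ≤ R by omega) (T := T) (X := X)
    (fun t ht => ⟨t, hX.mem t ht⟩) (fun t ht => joined_triple hX ht) hX.card hX.ball hX.disj hle
    (Y := Y) hP hne (by omega) hPY (by rw [dd_gin hPS]; exact hlow) (fun E hE => by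
      have h4 := hopt E hE
      have hES : symmDiff P E ⊆ S := by
        intro x hx
        rcases mem_symmDiff.1 hx with h | h
        · exact hPS h.1
        · exact hYS (mem_inter.1 (hE h.1)).2
      rw [card_sc hPS, card_sc hES] at h4
      rw [dd_gin hPS, dd_gin hES]
      omega)
  rw [dd_gin hPS, dd_gstar_gin hPS] at h1
  have h2 := card_sc_eq (G := G) S (T.biUnion X) P
  rw [card_sc hPS, card_scs hPS] at h2
  rw [card_sc hPS]
  omega

end Pool.Agent.K5
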