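import Mathlib
import Pool.Agent.Work.MP_974d84_co_k5.LossUse

/-!
# The loss lemma inside the cores
-/

set_option linter.unusedSectionVars false
set_option autoImplicit false

namespace Pool.Agent.K5

open Finset SimpleGraph Pool.Agent.Exp Pool.Agent.Log5 Pool.Agent.Log5.Clu

section compl

variable {V : Type} [Fintype V] [DecidableEq V] {G : SimpleGraph V} [DecidableRel G.Adj]

theorem sc_compl (S Z : Finset V) : sc G S (S \ Z) = sc G S Z := by
  ext p
  rw [mem_sc, mem_sc]
  constructor
  · rintro ⟨h1, h2, h3, h4⟩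
    refine ⟨h1, h2, h3, fun h => h4 ?_⟩
    simp only [mem_sdiff, h2, h3, true_and, h]
  · rintro ⟨h1, h2, h3, h4⟩
    refine ⟨h1, h2, h3, fun h => h4 ?_⟩
    simp only [mem_sdiff, h2, h3, true_and] at h
    exact not_iff_not.1 h

theorem sl_compl (S D Z : Finset V) : sl G S D (S \ Z) = sl G S D Z := by
  unfold sl
  rw [sc_compl]

theorem opt_compl {S D Z : Finset V} (hD : D ⊆ S) (hZ : Z ⊆ S) (h : Opt G S D Z) :
    Opt G S D (S \ Z) := by
  intro E hE
  have h1 : symmDiff (S \ Z) E = S \ symmDiff Z E := by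
    ext x
    have h2 := @hZ x
    have h4 : x ∈ E → x ∈ S := fun h5 => hD (hE h5)
    rw [mem_symmDiff, mem_sdiff, mem_sdiff, mem_symmDiff]
    tauto
  rw [h1, sc_compl, sc_compl]
  exact h E hE

theorem lc_dd_split {S P : Finset V} (hP : P ⊆ S) :
    dd G P = ee G P Sᶜ + ee G P (S \ P) := by
  unfold dd ee
  rw [← card_union_of_disjoint]
  · congr 1
    ext p
    rw [mem_cut, mem_union, mem_filter, mem_filter, mem_sdiff, mem_compl]
    have := @hP p.2
    simp only [mem_univ, true_and]
    tauto
  · rw [Finset.disjoint_left]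
    intro p h1 h2
    exact mem_compl.1 (mem_filter.1 h1).2.2.1 (mem_sdiff.1 (mem_filter.1 h2).2.2.1).1

end compl

/-- X3, file LossCore.lean -/
theorem loss_core {V : Type} [Fintype V] [DecidableEq V] {G : SimpleGraph V} [DecidableRel G.Adj]
    (h3 : ∀ v, G.degree v = 3) {k k₁ R : ℕ} (hc : CycConn G k) (hg : Gir G k) (hk : k₁ + 10 ≤ k)
    (hR : 10 ≤ R) {S : Finset V} (hSj : Joined G S) (_hSk : k ≤ S.card)
    (hratio : ∀ A ⊆ S, 3 * A.card ≤ 2 * S.card → 100 * ee G A Sᶜ ≤ 123 * ee G A (S \ A))
    {T : Finset V} {X : V → Finset V} (hX : Triples G R T X)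
    (hthin : ∀ P ⊆ S, P.Nonempty → Joined G P → Joined G (S \ P) → 2 * P.card ≤ S.card →
      k₁ ≤ dd G P → ∀ T' ⊆ T, (∀ t ∈ T', Sp G 2 P t) → 40 * T'.card ≤ dd G P)
    (A : Finset V) (hA : A ⊆ S \ T.biUnion X) :
    ∃ B : Finset V, A ⊆ B ∧ B ⊆ A ∪ T.biUnion X ∧ B ⊆ S ∧
      ee G B (S \ B) ≤ 3 * ee G A ((S \ T.biUnion X) \ A) := by
  classical
  set D' := T.biUnion X with hD'
  have hAD : Disjoint A (D' ∩ S) := by
    rw [Finset.disjoint_left]
    intro x hx hx'
    exact (mem_sdiff.1 (hA hx)).2 (mem_inter.1 hx').1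
  obtain ⟨B, hAB, hBA, hopt⟩ := exists_opt G S hAD
  have hAS : A ⊆ S := fun x hx => (mem_sdiff.1 (hA hx)).1
  have hBS : B ⊆ S := by
    intro x hx
    rcases mem_union.1 (hBA hx) with h | h
    · exact hAS h
    · exact (mem_inter.1 h).2
  -- the smaller side of a bond
  have small : ∀ P, P ⊆ S → P.Nonempty → Joined G P → Joined G (S \ P) → 2 * P.card ≤ S.card →
      Opt G S (D' ∩ S) P → 3 * (sl G S D' P).card ≤ 2 * (sc G S P).card := by
    intro P hPS hne hPj hPj' hP2 hPopt
    have hr := hratio P hPS (by omega)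
    have hdd := lc_dd_split (G := G) hPS
    have hsc : (sc G S P).card = 2 * ee G P (S \ P) := card_sc hPS
    by_cases hbig : k₁ ≤ dd G P
    · have h1 := hthin P hPS hne hPj hPj' hP2 hbig (T.filter fun t => Sp G 2 P t)
        (filter_subset _ _) fun t ht => (mem_filter.1 ht).2
      have h2 := sl_le_split h3 hX S P
      rw [← hD'] at h2
      omega
    · push Not at hbig
      have hac : (G.induce (P : Set V)).IsAcyclic := by
        by_contra hcy
        by_cases hcy' : (G.induce ((Pᶜ : Finset V) : Set V)).IsAcyclic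
        · by_cases hPc : (Pᶜ).Nonempty
          · have h1 := dd_of_acyclic G h3 hPc hcy'
            rw [dd_compl] at h1
            have h2 : (S \ P).card ≤ (Pᶜ).card :=
              card_le_card fun x hx => mem_compl.2 (mem_sdiff.1 hx).2
            have h4 : (S \ P).card = S.card - P.card := card_sdiff_of_subset hPS
            exact hcy (hg P (by omega))
          · rw [not_nonempty_iff_eq_empty] at hPc
            have h2 : (S \ P).card ≤ (Pᶜ).card :=
              card_le_card fun x hx => mem_compl.2 (mem_sdiff.1 hx).2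
            rw [hPc, card_empty] at h2
            have h4 : (S \ P).card = S.card - P.card := card_sdiff_of_subset hPS
            have h5 := card_le_card hPS
            have h6 := card_pos.2 hne
            omega
        · have := hc P hcy hcy'
          omega
      have h1 := dd_of_acyclic G h3 hne hac
      exact tree_bond h3 hg hPj hne (show P.card + 7 ≤ k by omega) hPS (Subset.refl S) hX hR
        hPopt (by omega)
  have hbond : ∀ P, P ⊆ S \ ∅ → P.Nonempty → P ≠ S → Joined G P → ModR G S ∅ P →
      Opt G S (D' ∩ S) P → 3 * (sl G S D' P).card ≤ 2 * (sc G S P).card := by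
    intro P hPS' hne hPne hPj hmod hPopt
    rw [sdiff_empty] at hPS'
    have hj' : Joined G (S \ P) := by
      intro Z hZ hZn hZne
      exact hmod Z (by rw [sdiff_empty]; exact hZ) hZn hZne
    by_cases h2 : 2 * P.card ≤ S.card
    · exact small P hPS' hne hPj hj' h2 hPopt
    · have h4 : (S \ P).card = S.card - P.card := card_sdiff_of_subset hPS'
      have h5 : S \ (S \ P) = P := by
        rw [sdiff_sdiff_right_self]
        exact inter_eq_right.2 hPS'
      have h6 : (S \ P).Nonempty := by
        rw [sdiff_nonempty]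
        exact fun h => hPne (Subset.antisymm hPS' h)
      have h7 := small (S \ P) sdiff_subset h6 hj' (by rw [h5]; exact hPj) (by omega)
        (opt_compl inter_subset_right hPS' hPopt)
      rw [sc_compl, sl_compl] at h7
      exact h7
  have key := bond_induct hSj hbond (sc G S B).card B le_rfl (by
    rw [sdiff_empty]
    exact hBS) hopt
  have hsame : ∀ x, x ∉ D' → (x ∈ A ↔ x ∈ B) := by
    intro x hx
    constructor
    · exact fun h => hAB h
    · intro h
      rcases mem_union.1 (hBA h) with h1 | h1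
      · exact h1
      · exact absurd (mem_inter.1 h1).1 hx
  have h1 := sc_le_three hsame key
  rw [card_sc hBS, card_scs hAS] at h1
  have h2 : ((univ : Finset (V × V)).filter fun p => p.1 ∈ A ∧ p.2 ∈ S \ A ∧ G.Adj p.1 p.2 ∧
      p.1 ∉ D' ∧ p.2 ∉ D').card = ee G A ((S \ D') \ A) := by
    unfold ee
    congr 1
    ext p
    have hpA : p.1 ∈ A → p.1 ∉ D' := fun h => (mem_sdiff.1 (hA h)).2
    simp only [mem_filter, mem_univ, mem_sdiff, true_and]
    tauto
  rw [h2] at h1
  refine ⟨B, hAB, fun x hx => ?_, hBS, by omega⟩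
  rcases mem_union.1 (hBA hx) with h | h
  · exact mem_union_left _ h
  · exact mem_union_right _ (mem_inter.1 h).1

end Pool.Agent.K5
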