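import Mathlib
import Pool.Agent.Work.MP_974d84_co_k5.CutSplit

/-!
# X3: the loss lemma inside a core, from `small_touch`
-/

set_option linter.unusedSectionVars false

namespace Pool.Agent.K5

open Finset SimpleGraph Pool.Agent.Exp Pool.Agent.Log5 Pool.Agent.Log5.Clu Pool.Agent.K5.CS

variable {V : Type} [Fintype V] [DecidableEq V] {G : SimpleGraph V} [DecidableRel G.Adj]

/-- The number of cut edges at small sets around split balls. -/
private theorem touched_le (h3 : ∀ v, G.degree v = 3) {R : ℕ} {T : Finset V} {X : V → Finset V}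
    (hX : Triples G R T X) {P : Finset V} {T' : Finset V}
    (hT' : ∀ t, t ∈ T' ↔ t ∈ T ∧ Sp G 2 P t) (F : Finset (V × V))
    (hF : ∀ p ∈ F, p.1 ∈ P ∧ p.2 ∉ P ∧ G.Adj p.1 p.2 ∧
      (p.1 ∈ T.biUnion X ∨ p.2 ∈ T.biUnion X)) : F.card ≤ 9 * T'.card := by
  let E : V → Finset (V × V) := fun x => if x ∈ P then (G.neighborFinset x).image (fun y => (x, y))
    else (G.neighborFinset x).image (fun y => (y, x))
  have hE : ∀ x, (E x).card ≤ 3 := by
    intro x
    simp only [E]
    split_ifs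
    · exact card_image_le.trans (by rw [card_neighborFinset_eq_degree, h3])
    · exact card_image_le.trans (by rw [card_neighborFinset_eq_degree, h3])
  have hsub : F ⊆ T'.biUnion fun t => (X t).biUnion E := by
    intro p hp
    obtain ⟨h1, h2, h4, h5⟩ := hF p hp
    have key : ∀ t ∈ T, ∀ x ∈ X t, (x = p.1 ∨ x = p.2) → Sp G 2 P t := by
      intro t ht x hx hx'
      have hx1 : x ∈ Bl G.Adj 1 t := hX.ball t ht hx
      have ha : p.1 ∈ Bl G.Adj 2 t := by
        rcases hx' with rfl | rfl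
        · exact Bl_mono (by omega) t hx1
        · exact mem_Bl_succ.2 (Or.inr ⟨_, hx1, h4.symm⟩)
      have hb : p.2 ∈ Bl G.Adj 2 t := by
        rcases hx' with rfl | rfl
        · exact mem_Bl_succ.2 (Or.inr ⟨_, hx1, h4⟩)
        · exact Bl_mono (by omega) t hx1
      by_cases htP : t ∈ P
      · exact ⟨p.2, hb, fun h => h2 (h.2 htP)⟩
      · exact ⟨p.1, ha, fun h => htP (h.1 h1)⟩
    rcases h5 with h5 | h5
    · rw [mem_biUnion] at h5
      obtain ⟨t, ht, hx⟩ := h5
      rw [mem_biUnion]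
      refine ⟨t, (hT' t).2 ⟨ht, key t ht _ hx (Or.inl rfl)⟩, ?_⟩
      rw [mem_biUnion]
      refine ⟨p.1, hx, ?_⟩
      simp only [E, if_pos h1]
      exact mem_image.2 ⟨p.2, by rw [mem_neighborFinset]; exact h4, rfl⟩
    · rw [mem_biUnion] at h5
      obtain ⟨t, ht, hx⟩ := h5
      rw [mem_biUnion]
      refine ⟨t, (hT' t).2 ⟨ht, key t ht _ hx (Or.inr rfl)⟩, ?_⟩
      rw [mem_biUnion]
      refine ⟨p.2, hx, ?_⟩
      simp only [E, if_neg h2]
      exact mem_image.2 ⟨p.1, by rw [mem_neighborFinset]; exact h4.symm, rfl⟩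
  refine (card_le_card hsub).trans (card_biUnion_le.trans ?_)
  refine (sum_le_card_nsmul T' _ 9 fun t ht => ?_).trans (by rw [smul_eq_mul, Nat.mul_comm])
  refine card_biUnion_le.trans ((sum_le_card_nsmul (X t) _ 3 fun x _ => hE x).trans ?_)
  rw [smul_eq_mul]
  have := hX.card t ((hT' t).1 ht).1
  omega

private theorem dd_split {S P : Finset V} (hP : P ⊆ S) : dd G P = ee G P (S \ P) + ee G P Sᶜ := by
  unfold dd ee
  rw [← card_union_of_disjoint]
  · congr 1
    ext p
    rw [mem_cut, mem_union, mem_filter, mem_filter, mem_sdiff, mem_compl]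
    have hp : p.2 ∉ S → p.2 ∉ P := fun h h' => h (hP h')
    have hu := mem_univ p
    tauto
  · rw [Finset.disjoint_left]
    intro p hp hp'
    rw [mem_filter] at hp hp'
    exact (mem_compl.1 hp'.2.2.1) (mem_sdiff.1 hp.2.2.1).1

/-- X3, with `small_touch` (X3b) as a hypothesis -/
theorem loss_core_of (h3 : ∀ v, G.degree v = 3) {k k₁ R : ℕ} (hc : CycConn G k) (hg : Gir G k)
    (hk : k₁ + 10 ≤ k)
    (hR : 10 ≤ R) {S : Finset V} (hSj : Joined G S) (hSk : k ≤ S.card)
    (hratio : ∀ A ⊆ S, 3 * A.card ≤ 2 * S.card → 100 * ee G A Sᶜ ≤ 123 * ee G A (S \ A))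
    {T : Finset V} {X : V → Finset V} (hX : Triples G R T X)
    (hthin : ∀ P ⊆ S, P.Nonempty → Joined G P → Joined G (S \ P) → 2 * P.card ≤ S.card →
      k₁ ≤ dd G P → ∀ T' ⊆ T, (∀ t ∈ T', Sp G 2 P t) → 40 * T'.card ≤ dd G P)
    (hst : ∀ P ⊆ S, Joined G P → P.Nonempty → P.card + 7 ≤ k →
      (∀ E ⊆ P ∩ T.biUnion X, ee G P (S \ P) ≤ ee G (P \ E) (S \ (P \ E))) →
      100 * (P.card + 2) ≤ 223 * ee G P (S \ P) →
      3 * ((univ : Finset (V × V)).filter fun p => p.1 ∈ P ∧ p.2 ∈ S \ P ∧ G.Adj p.1 p.2 ∧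
        (p.1 ∈ T.biUnion X ∨ p.2 ∈ T.biUnion X)).card ≤ 2 * ee G P (S \ P))
    (A : Finset V) (hA : A ⊆ S \ T.biUnion X) :
    ∃ B : Finset V, A ⊆ B ∧ B ⊆ A ∪ T.biUnion X ∧ B ⊆ S ∧
      ee G B (S \ B) ≤ 3 * ee G A ((S \ T.biUnion X) \ A) := by
  classical
  set D := T.biUnion X with hD
  set K : Finset (V × V) := univ.filter fun p => p.1 ∈ D ∨ p.2 ∈ D with hK
  have hKs : ∀ u v, (u, v) ∈ K → (v, u) ∈ K := by
    intro u v h
    rw [hK, mem_filter] at h ⊢
    exact ⟨mem_univ _, h.2.symm⟩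
  have hAS : A ⊆ S := hA.trans sdiff_subset
  obtain ⟨B, hB, hmin⟩ := exists_min_image
    (S.powerset.filter fun B => A ⊆ B ∧ B ⊆ A ∪ D) (fun B => (c2 G S univ B).card)
    ⟨A, by rw [mem_filter, mem_powerset]; exact ⟨hAS, Subset.refl _, subset_union_left⟩⟩
  rw [mem_filter, mem_powerset] at hB
  obtain ⟨hBS, hAB, hBA⟩ := hB
  have hopt : ∀ E ⊆ D ∩ S, (c2 G S univ B).card ≤ (c2 G S univ (symmDiff B E)).card := by
    intro E hE
    apply hmin
    rw [mem_filter, mem_powerset]
    refine ⟨?_, ?_, ?_⟩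
    · intro x hx
      rw [Finset.mem_symmDiff] at hx
      rcases hx with hx | hx
      · exact hBS hx.1
      · exact (mem_inter.1 (hE hx.1)).2
    · intro x hx
      rw [Finset.mem_symmDiff]
      exact Or.inl ⟨hAB hx, fun h => (mem_sdiff.1 (hA hx)).2 (mem_inter.1 (hE h)).1⟩
    · intro x hx
      rw [Finset.mem_symmDiff] at hx
      rcases hx with hx | hx
      · exact hBA hx.1
      · exact mem_union_right _ (mem_inter.1 (hE hx.1)).1
  -- bonds whose small side is `P`
  have hmain : ∀ P ⊆ S, P.Nonempty → Joined G P → Joined G (S \ P) → 2 * P.card ≤ S.card →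
      (∀ E ⊆ D ∩ S, (c2 G S univ P).card ≤ (c2 G S univ (symmDiff P E)).card) →
      3 * (c2 G S K P).card ≤ 2 * (c2 G S univ P).card := by
    intro P hPS hne hJ hJ' h2 hoptP
    have e1 : (c2 G S univ P).card = 2 * ee G P (S \ P) :=
      c2_two hPS fun _ _ _ => mem_univ _
    have e2 : (c2 G S K P).card = 2 * ((univ : Finset (V × V)).filter fun p =>
        p.1 ∈ P ∧ p.2 ∈ S \ P ∧ G.Adj p.1 p.2 ∧ (p.1 ∈ D ∨ p.2 ∈ D)).card := by
      rw [c2_two hPS hKs, hK, filter_filter]
      congr 2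
      ext p
      rw [mem_filter, mem_filter]
      tauto
    rw [e1, e2]
    set F := (univ : Finset (V × V)).filter fun p =>
      p.1 ∈ P ∧ p.2 ∈ S \ P ∧ G.Adj p.1 p.2 ∧ (p.1 ∈ D ∨ p.2 ∈ D) with hF
    have hr := hratio P hPS (by omega)
    have hdd := dd_split (G := G) hPS
    have hcS : (S \ P).card + P.card = S.card := card_sdiff_add_card_eq_card hPS
    suffices 3 * F.card ≤ 2 * ee G P (S \ P) by omega
    by_cases hk₁ : k₁ ≤ dd G P
    · have ht := hthin P hPS hne hJ hJ' h2 hk₁ (T.filter fun t => Sp G 2 P t)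
        (filter_subset _ _) (fun t ht => (mem_filter.1 ht).2)
      have h9 := touched_le h3 hX (P := P) (T' := T.filter fun t => Sp G 2 P t)
        (fun t => by rw [mem_filter]) F (fun p hp => by
          rw [hF, mem_filter] at hp
          exact ⟨hp.2.1, (mem_sdiff.1 hp.2.2.1).2, hp.2.2.2.1, hp.2.2.2.2⟩)
      omega
    · push Not at hk₁
      have hPc : (S \ P) ⊆ Pᶜ := by
        intro x hx
        rw [mem_compl]; exact (mem_sdiff.1 hx).2
      have hPcc := card_le_card hPc
      have hac : (G.induce (P : Set V)).IsAcyclic := by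
        by_contra hcyc
        by_cases hcyc' : (G.induce ((Pᶜ : Finset V) : Set V)).IsAcyclic
        · have h := dd_of_acyclic G h3 (S := Pᶜ) (by rw [← card_pos]; omega) hcyc'
          rw [dd_compl] at h
          exact hcyc (hg P (by omega))
        · have := hc P hcyc hcyc'
          omega
      have h := dd_of_acyclic G h3 (S := P) hne hac
      refine hst P hPS hJ hne (by omega) ?_ (by omega)
      intro E hE
      have hE' : E ⊆ D ∩ S := fun x hx => by
        have := mem_inter.1 (hE hx)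
        exact mem_inter.2 ⟨this.2, hPS this.1⟩
      have hEP : E ⊆ P := hE.trans inter_subset_left
      have h' := hoptP E hE'
      have e3 : symmDiff P E = P \ E := by
        ext x
        have := @hEP x
        rw [Finset.mem_symmDiff, mem_sdiff]
        tauto
      rw [e3, e1, c2_two (sdiff_subset.trans hPS) fun _ _ _ => mem_univ _] at h'
      have e4 : ((univ : Finset (V × V)).filter fun p =>
        p.1 ∈ P \ E ∧ p.2 ∈ S \ (P \ E) ∧ G.Adj p.1 p.2).card = ee G (P \ E) (S \ (P \ E)) := rfl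
      rw [e4] at h'
      omega
  have hfin := opt_le (K := K) hSj (D := D ∩ S) inter_subset_right (fun P hPS hne hne' hJ hJ' ho => by
    have hcS : (S \ P).card + P.card = S.card := card_sdiff_add_card_eq_card hPS
    by_cases h2 : 2 * P.card ≤ S.card
    · exact hmain P hPS hne hJ hJ' h2 ho
    · have h := hmain (S \ P) sdiff_subset hne' hJ' (by
        rwa [Finset.sdiff_sdiff_eq_self hPS]) (by omega) (fun E hE => ?_)
      · rwa [c2_compl, c2_compl] at h
      · have h' := ho E hE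
        have e : symmDiff (S \ P) E = S \ symmDiff P E := by
          ext x
          have hx : x ∈ E → x ∈ S := fun h => (mem_inter.1 (hE h)).2
          have hx' : x ∈ P → x ∈ S := fun h => hPS h
          rw [Finset.mem_symmDiff, mem_sdiff, mem_sdiff, Finset.mem_symmDiff]
          tauto
        rw [e, c2_compl, c2_compl]
        exact h') _ B hBS le_rfl hopt
  refine ⟨B, hAB, hBA, hBS, ?_⟩
  have e1 : (c2 G S univ B).card = 2 * ee G B (S \ B) :=
    c2_two hBS fun _ _ _ => mem_univ _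
  rw [e1, c2_two hBS hKs] at hfin
  have e5 : ee G B (S \ B) ≤ (K.filter fun p => p.1 ∈ B ∧ p.2 ∈ S \ B ∧ G.Adj p.1 p.2).card +
      ee G A ((S \ D) \ A) := by
    unfold ee
    refine (card_le_card ?_).trans (card_union_le _ _)
    intro p hp
    rw [mem_filter] at hp
    obtain ⟨-, h1, h2, h4⟩ := hp
    by_cases hp : p.1 ∈ D ∨ p.2 ∈ D
    · exact mem_union_left _ (mem_filter.2 ⟨mem_filter.2 ⟨mem_univ _, hp⟩, h1, h2, h4⟩)
    · push Not at hp
      refine mem_union_right _ (mem_filter.2 ⟨mem_univ _, ?_, ?_, h4⟩)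
      · rcases mem_union.1 (hBA h1) with h | h
        · exact h
        · exact absurd h hp.1
      · rw [mem_sdiff] at h2
        rw [mem_sdiff, mem_sdiff]
        exact ⟨⟨h2.1, hp.2⟩, fun h => h2.2 (hAB h)⟩
  omega

end Pool.Agent.K5
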