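import Mathlib
import Pool.Agent.Work.MP_974d84_co_k5.LossUse

/-!
# The loss lemma outside the cores
-/

set_option linter.unusedSectionVars false
set_option autoImplicit false

namespace Pool.Agent.K5

open Finset SimpleGraph Pool.Agent.Exp Pool.Agent.Log5 Pool.Agent.Log5.Clu

theorem lo_ee_univ {V : Type} [Fintype V] [DecidableEq V] (G : SimpleGraph V) [DecidableRel G.Adj]
    (P : Finset V) : ee G P (univ \ P) = dd G P := by
  unfold ee dd
  congr 1
  ext p
  rw [mem_filter, mem_cut, mem_sdiff]
  simp

/-- X4, file LossOut.lean -/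
theorem loss_out {V : Type} [Fintype V] [DecidableEq V] {G : SimpleGraph V} [DecidableRel G.Adj]
    (h3 : ∀ v, G.degree v = 3) {k k₁ R : ℕ} (hc : CycConn G k) (hg : Gir G k) (hk : k₁ + 10 ≤ k)
    (hR : 10 ≤ R) {W : Finset V} (hW : ¬ (G.induce ((Wᶜ : Finset V) : Set V)).IsAcyclic)
    {T : Finset V} {X : V → Finset V} (hX : Triples G R T X)
    (hthin : ∀ P, RBond G W id P → Pᶜ.Nonempty → k₁ ≤ dd G P →
      ∀ T' ⊆ T, (∀ t ∈ T', Sp G 2 P t) → 40 * T'.card ≤ dd G P)
    (A : Finset V) (hA : A ⊆ W \ T.biUnion X) :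
    ∃ B : Finset V, A ⊆ B ∧ B ⊆ A ∪ T.biUnion X ∧ B ⊆ W ∧ dd G B ≤ 3 * ds G (T.biUnion X) A := by
  classical
  set D' := T.biUnion X with hD'
  have hun : ∀ Z : Finset V, (univ : Finset V) \ Z = Zᶜ := fun Z => (compl_eq_univ_sdiff Z).symm
  have hAD : Disjoint A (D' ∩ W) := by
    rw [Finset.disjoint_left]
    intro x hx hx'
    exact (mem_sdiff.1 (hA hx)).2 (mem_inter.1 hx').1
  obtain ⟨B, hAB, hBA, hopt⟩ := exists_opt G univ hAD
  have hBW : B ⊆ W := by
    intro x hx
    rcases mem_union.1 (hBA hx) with h | h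
    · exact (mem_sdiff.1 (hA h)).1
    · exact (mem_inter.1 h).2
  have hJ : Joined G (univ : Finset V) := by
    intro Z _ hZ hZu
    have h1 := three_le_dd G h3 (show 3 ≤ k by omega) hc (S := Z) hZ (by
      rw [nonempty_iff_ne_empty]
      intro h
      exact hZu (by rw [← compl_compl Z, h, compl_empty]))
    unfold dd at h1
    obtain ⟨p, hp⟩ := card_pos.1 (show 0 < _ from lt_of_lt_of_le (by norm_num) h1)
    rw [mem_cut] at hp
    exact ⟨p.1, hp.1, p.2, mem_univ _, hp.2.1, hp.2.2⟩
  -- the bonds
  have hbond : ∀ P, P ⊆ univ \ Wᶜ → P.Nonempty → P ≠ univ → Joined G P → ModR G univ Wᶜ P →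
      Opt G univ (D' ∩ W) P → 3 * (sl G univ D' P).card ≤ 2 * (sc G univ P).card := by
    intro P hPW' hne hPu hPj hmod hPopt
    have hPW : P ⊆ W := by
      intro x hx
      have := hPW' hx
      rwa [hun, compl_compl] at this
    have hPc : Pᶜ.Nonempty := by
      rw [nonempty_iff_ne_empty]
      intro h
      exact hPu (by rw [← compl_compl P, h, compl_empty])
    have hsc : (sc G univ P).card = 2 * dd G P := by
      rw [card_sc (subset_univ P), lo_ee_univ]
    by_cases hbig : k₁ ≤ dd G P
    · -- many edges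
      have hRB : RBond G W id P := by
        refine ⟨hPW, hne, hPj, ?_, ?_⟩
        · intro Z hZ hZn hZne
          have h1 := hmod Z (by rw [hun]; exact hZ) hZn (by rw [hun]; exact hZne)
          rwa [hun] at h1
        · intro x y hxy
          have : x = y := hxy
          rw [this]
      have h1 := hthin P hRB hPc hbig (T.filter fun t => Sp G 2 P t) (filter_subset _ _)
        fun t ht => (mem_filter.1 ht).2
      have h2 := sl_le_split h3 hX univ P
      rw [← hD'] at h2
      omega
    · -- few edges: a tree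
      push Not at hbig
      have hac : (G.induce (P : Set V)).IsAcyclic := by
        by_contra hcy
        have hcy' : ¬ (G.induce ((Pᶜ : Finset V) : Set V)).IsAcyclic := by
          intro h
          have hle : ((Wᶜ : Finset V) : Set V) ≤ ((Pᶜ : Finset V) : Set V) := by
            intro x hx
            have hx' : x ∈ Wᶜ := hx
            exact mem_coe.2 (mem_compl.2 fun h5 => mem_compl.1 hx' (hPW h5))
          exact hW (h.comap (SimpleGraph.induceHomOfLE G hle).toHom
            (SimpleGraph.induceHomOfLE G hle).injective)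
        have := hc P hcy hcy'
        omega
      have h1 := dd_of_acyclic G h3 hne hac
      exact tree_bond h3 hg hPj hne (show P.card + 7 ≤ k by omega) hPW (subset_univ W) hX hR hPopt
        (by rw [lo_ee_univ]; omega)
  have key := bond_induct hJ hbond (sc G univ B).card B le_rfl (by
    rw [hun, compl_compl]
    exact hBW) hopt
  have hsame : ∀ x, x ∉ D' → (x ∈ A ↔ x ∈ B) := by
    intro x hx
    constructor
    · exact fun h => hAB h
    · intro h
      rcases mem_union.1 (hBA h) with h1 | h1
      · exact h1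
      · exact absurd (mem_inter.1 h1).1 hx
  have h1 := sc_le_three hsame key
  rw [card_sc (subset_univ _), card_scs (subset_univ _), lo_ee_univ] at h1
  have h2 : ((univ : Finset (V × V)).filter fun p => p.1 ∈ A ∧ p.2 ∈ univ \ A ∧ G.Adj p.1 p.2 ∧
      p.1 ∉ D' ∧ p.2 ∉ D').card = ds G D' A := by
    unfold ds
    congr 1
    ext p
    simp only [mem_filter, mem_univ, mem_sdiff, true_and]
    tauto
  rw [h2] at h1
  refine ⟨B, hAB, fun x hx => ?_, hBW, by omega⟩
  rcases mem_union.1 (hBA hx) with h | h
  · exact mem_union_left _ h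
  · exact mem_union_right _ (mem_inter.1 h).1

end Pool.Agent.K5
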