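import Mathlib

/-!
# Rounding from signs (Lovász, Spencer, Vesztergombi)

If every even subset of the indices has signs of total zero and small discrepancy, then every
vector of reals in `[0, 1]` with integral sum can be rounded to zeros and ones with the same sum
and the same discrepancy.
-/

set_option linter.unusedSectionVars false

namespace Pool.Agent.K5.Lsv

open Finset

variable {ι 𝒳 : Type*} [Fintype ι] [DecidableEq ι]

/-- The number of odd terms has the parity of the sum. -/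
theorem even_card_odd (m : ι → ℤ) (h : (2 : ℤ) ∣ ∑ i, m i) :
    Even (univ.filter fun i => m i % 2 = 1).card := by
  have h1 : ∀ i, ((2 : ℤ) ∣ m i - if m i % 2 = 1 then 1 else 0) := by
    intro i
    split_ifs with h2
    · omega
    · omega
  have h2 : (2 : ℤ) ∣ ∑ i, (m i - if m i % 2 = 1 then 1 else 0) := dvd_sum fun i _ => h1 i
  rw [sum_sub_distrib, ← sum_filter, sum_const, nsmul_eq_mul, mul_one] at h2
  have h3 : (2 : ℤ) ∣ ((univ.filter fun i => m i % 2 = 1).card : ℤ) := by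
    have h4 := dvd_sub h h2
    rwa [sub_sub_cancel] at h4
  rw [even_iff_two_dvd]
  exact_mod_cast h3

/-- Rounding of dyadic numbers. -/
theorem dyadic (w : ι → 𝒳 → ℝ) (e : 𝒳 → ℝ)
    (h : ∀ T : Finset ι, Even T.card → ∃ ε : ι → ℤ, (∀ i, ε i = 1 ∨ ε i = -1) ∧
      ∑ i ∈ T, ε i = 0 ∧ ∀ X, |∑ i ∈ T, (ε i : ℝ) * w i X| ≤ e X) :
    ∀ (L : ℕ) (m : ι → ℤ), (∀ i, 0 ≤ m i ∧ m i ≤ 2 ^ L) → ((2 : ℤ) ^ L ∣ ∑ i, m i) →
    ∃ u : ι → ℤ, (∀ i, u i = 0 ∨ u i = 1) ∧ 2 ^ L * ∑ i, u i = ∑ i, m i ∧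
      ∀ X, |∑ i, ((u i : ℝ) - (m i : ℝ) / 2 ^ L) * w i X| ≤ (1 - 1 / 2 ^ L) * e X := by
  intro L
  induction L with
  | zero =>
    intro m hm _
    refine ⟨m, fun i => ?_, by simp, fun X => ?_⟩
    · have h1 := hm i
      rw [pow_zero] at h1
      omega
    · simp
  | succ L ih =>
    intro m hm hd
    have hd2 : (2 : ℤ) ∣ ∑ i, m i := (dvd_pow_self 2 (Nat.succ_ne_zero L)).trans hd
    set T : Finset ι := univ.filter fun i => m i % 2 = 1 with hT
    obtain ⟨ε, hε, hε0, hεX⟩ := h T (even_card_odd m hd2)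
    have hmT : ∀ i, i ∈ T ↔ m i % 2 = 1 := fun i => by
      rw [hT, mem_filter]
      exact ⟨fun h => h.2, fun h => ⟨mem_univ _, h⟩⟩
    set m' : ι → ℤ := fun i => (m i + if i ∈ T then ε i else 0) / 2 with hm'
    have hm2 : ∀ i, 2 * m' i = m i + if i ∈ T then ε i else 0 := by
      intro i
      simp only [hm']
      by_cases hi : i ∈ T
      · rw [if_pos hi]
        have := (hmT i).1 hi
        rcases hε i with h1 | h1 <;> omega
      · rw [if_neg hi]
        have : m i % 2 ≠ 1 := fun h1 => hi ((hmT i).2 h1)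
        omega
    have hsum : 2 * ∑ i, m' i = ∑ i, m i := by
      rw [mul_sum, sum_congr rfl fun i _ => hm2 i, sum_add_distrib, ← sum_filter]
      have h1 : (univ.filter fun i => i ∈ T) = T := by
        ext i
        simp
      rw [h1, hε0, add_zero]
    obtain ⟨u, hu, hu1, hu2⟩ := ih m' (by
      intro i
      have h1 := hm i
      have h2 := hm2 i
      have h3 : (2 : ℤ) ^ (L + 1) = 2 * 2 ^ L := by ring
      rw [h3] at h1
      by_cases hi : i ∈ T
      · rw [if_pos hi] at h2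
        have h4 := (hmT i).1 hi
        rcases hε i with h5 | h5 <;> constructor <;> omega
      · rw [if_neg hi] at h2
        constructor <;> omega) (by
      obtain ⟨q, hq⟩ := hd
      refine ⟨q, ?_⟩
      have h3 : (2 : ℤ) ^ (L + 1) = 2 * 2 ^ L := by ring
      rw [h3, mul_assoc, ← hsum] at hq
      exact mul_left_cancel₀ two_ne_zero hq)
    refine ⟨u, hu, ?_, fun X => ?_⟩
    · rw [← hsum, ← hu1]
      ring
    · have h1 : ∑ i, ((u i : ℝ) - (m i : ℝ) / 2 ^ (L + 1)) * w i X =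
          ∑ i, ((u i : ℝ) - (m' i : ℝ) / 2 ^ L) * w i X +
            1 / 2 ^ (L + 1) * ∑ i ∈ T, (ε i : ℝ) * w i X := by
        have h2 : ∑ i ∈ T, (ε i : ℝ) * w i X = ∑ i, (if i ∈ T then (ε i : ℝ) * w i X else 0) := by
          rw [← sum_filter]
          refine sum_congr ?_ fun _ _ => rfl
          ext i
          simp
        rw [h2, mul_sum, ← sum_add_distrib]
        refine sum_congr rfl fun i _ => ?_
        have h3 : (m i : ℝ) = 2 * m' i - if i ∈ T then (ε i : ℝ) else 0 := by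
          have h4 := hm2 i
          have h5 : m i = 2 * m' i - if i ∈ T then ε i else 0 := by linarith
          rw [h5]
          push_cast
          split_ifs <;> simp
        rw [h3]
        have h6 : (2 : ℝ) ^ (L + 1) = 2 * 2 ^ L := by ring
        have h7 : (2 : ℝ) ^ L ≠ 0 := by positivity
        rw [h6]
        split_ifs <;> field_simp <;> ring
      rw [h1]
      have h2 := hu2 X
      have h3 := hεX X
      have h4 : |1 / 2 ^ (L + 1) * ∑ i ∈ T, (ε i : ℝ) * w i X| ≤ 1 / 2 ^ (L + 1) * e X := by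
        rw [abs_mul, abs_of_nonneg (by positivity : (0 : ℝ) ≤ 1 / 2 ^ (L + 1))]
        exact mul_le_mul_of_nonneg_left h3 (by positivity)
      refine (abs_add_le _ _).trans ((add_le_add h2 h4).trans (le_of_eq ?_))
      have h6 : (2 : ℝ) ^ (L + 1) = 2 * 2 ^ L := by ring
      have h7 : (2 : ℝ) ^ L ≠ 0 := by positivity
      rw [h6]
      field_simp
      ring

/-- Dyadic approximations with the same sum. -/
theorem approx (u : ι → ℝ) (hu : ∀ i, 0 ≤ u i ∧ u i ≤ 1) (n : ℤ) (hn : ∑ i, u i = n) (L : ℕ) :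
    ∃ m : ι → ℤ, (∀ i, 0 ≤ m i ∧ m i ≤ 2 ^ L) ∧ ∑ i, m i = 2 ^ L * n ∧
      ∀ i, |(m i : ℝ) / 2 ^ L - u i| ≤ 1 / 2 ^ L := by
  set a : ι → ℤ := fun i => ⌊(2 : ℝ) ^ L * u i⌋ with ha
  have hP : (0 : ℝ) < 2 ^ L := by positivity
  have ha1 : ∀ i, (a i : ℝ) ≤ 2 ^ L * u i := fun i => Int.floor_le _
  have ha2 : ∀ i, (2 : ℝ) ^ L * u i < a i + 1 := fun i => Int.lt_floor_add_one _
  set t : ℤ := 2 ^ L * n - ∑ i, a i with ht
  have htr : (t : ℝ) = ∑ i, ((2 : ℝ) ^ L * u i - a i) := by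
    rw [sum_sub_distrib, ← mul_sum, hn, ht]
    push_cast
    ring
  set I : Finset ι := univ.filter fun i => (a i : ℝ) < 2 ^ L * u i with hI
  have ht0 : 0 ≤ t := by
    have : (0 : ℝ) ≤ t := by
      rw [htr]
      exact sum_nonneg fun i _ => by have := ha1 i; linarith
    exact_mod_cast this
  have htI : t ≤ I.card := by
    have : (t : ℝ) ≤ I.card := by
      rw [htr]
      calc ∑ i, ((2 : ℝ) ^ L * u i - a i) ≤ ∑ i, (if (a i : ℝ) < 2 ^ L * u i then 1 else 0) := by
            refine sum_le_sum fun i _ => ?_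
            by_cases h1 : (a i : ℝ) < 2 ^ L * u i
            · rw [if_pos h1]
              have := ha2 i
              linarith
            · rw [if_neg h1]
              linarith
        _ = I.card := by rw [← sum_filter, sum_const, nsmul_eq_mul, mul_one]
    exact_mod_cast this
  obtain ⟨J, hJI, hJ⟩ := exists_subset_card_eq (s := I) (n := t.toNat) (by omega)
  have hJt : (J.card : ℤ) = t := by
    rw [hJ]
    omega
  refine ⟨fun i => a i + if i ∈ J then 1 else 0, fun i => ?_, ?_, fun i => ?_⟩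
  · have h1 : 0 ≤ a i := Int.floor_nonneg.2 (mul_nonneg hP.le (hu i).1)
    have h2 : a i ≤ 2 ^ L := by
      have : (a i : ℝ) ≤ 2 ^ L := by
        have h3 := ha1 i
        have h4 := mul_le_mul_of_nonneg_left (hu i).2 hP.le
        linarith
      exact_mod_cast this
    by_cases hi : i ∈ J
    · simp only [if_pos hi]
      refine ⟨by omega, ?_⟩
      have h3 : (a i : ℝ) < 2 ^ L := by
        have h4 := (mem_filter.1 (hJI hi)).2
        have h5 := mul_le_mul_of_nonneg_left (hu i).2 hP.le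
        linarith
      have h6 : a i < 2 ^ L := by exact_mod_cast h3
      omega
    · simp only [if_neg hi, add_zero]
      exact ⟨h1, h2⟩
  · rw [sum_add_distrib, ← sum_filter]
    have h1 : (univ.filter fun i => i ∈ J) = J := by
      ext i
      simp
    rw [h1, sum_const, nsmul_eq_mul, mul_one, hJt, ht]
    ring
  · have h1 := ha1 i
    have h2 := ha2 i
    have h3 : (((a i + if i ∈ J then 1 else 0 : ℤ)) : ℝ) / 2 ^ L - u i =
        (a i + (if i ∈ J then 1 else 0) - 2 ^ L * u i) / 2 ^ L := by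
      push_cast
      field_simp
    rw [h3, abs_div, abs_of_pos hP]
    refine div_le_div_of_nonneg_right ?_ hP.le
    rw [abs_le]
    split_ifs <;> constructor <;> linarith

/-- **Rounding.** -/
theorem round (w : ι → 𝒳 → ℝ) (e : 𝒳 → ℝ) (he : ∀ X, 0 ≤ e X)
    (h : ∀ T : Finset ι, Even T.card → ∃ ε : ι → ℤ, (∀ i, ε i = 1 ∨ ε i = -1) ∧
      ∑ i ∈ T, ε i = 0 ∧ ∀ X, |∑ i ∈ T, (ε i : ℝ) * w i X| ≤ e X)
    (u : ι → ℝ) (hu : ∀ i, 0 ≤ u i ∧ u i ≤ 1) (n : ℤ) (hn : ∑ i, u i = n) :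
    ∃ u' : ι → ℤ, (∀ i, u' i = 0 ∨ u' i = 1) ∧ ∑ i, u' i = n ∧
      ∀ X, |∑ i, ((u' i : ℝ) - u i) * w i X| ≤ e X := by
  have key : ∀ L : ℕ, ∃ v : ι → Fin 2, ∑ i, ((v i : ℕ) : ℤ) = n ∧
      ∀ X, |∑ i, (((v i : ℕ) : ℝ) - u i) * w i X| ≤ e X + (∑ i, |w i X|) / 2 ^ L := by
    intro L
    obtain ⟨m, h1, h2, h3⟩ := approx u hu n hn L
    obtain ⟨x, hx, hx1, hx2⟩ := dyadic w e h L m h1 ⟨n, h2⟩
    have hP : (0 : ℝ) < 2 ^ L := by positivity
    refine ⟨fun i => if x i = 1 then 1 else 0, ?_, fun X => ?_⟩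
    · have h4 : ∀ i, (((if x i = 1 then 1 else 0 : Fin 2) : ℕ) : ℤ) = x i := by
        intro i
        rcases hx i with h5 | h5 <;> simp [h5]
      simp only [h4]
      rw [h2] at hx1
      exact mul_left_cancel₀ (by positivity) hx1
    · have h4 : ∀ i, (((if x i = 1 then 1 else 0 : Fin 2) : ℕ) : ℝ) = x i := by
        intro i
        rcases hx i with h5 | h5 <;> simp [h5]
      simp only [h4]
      have h5 : ∑ i, ((x i : ℝ) - u i) * w i X = ∑ i, ((x i : ℝ) - (m i : ℝ) / 2 ^ L) * w i X +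
          ∑ i, ((m i : ℝ) / 2 ^ L - u i) * w i X := by
        rw [← sum_add_distrib]
        refine sum_congr rfl fun i _ => ?_
        ring
      rw [h5]
      have h6 := hx2 X
      have h7 : |∑ i, ((m i : ℝ) / 2 ^ L - u i) * w i X| ≤ (∑ i, |w i X|) / 2 ^ L := by
        calc |∑ i, ((m i : ℝ) / 2 ^ L - u i) * w i X| ≤
              ∑ i, |((m i : ℝ) / 2 ^ L - u i) * w i X| := abs_sum_le_sum_abs _ _
          _ ≤ ∑ i, 1 / 2 ^ L * |w i X| := sum_le_sum fun i _ => by
              rw [abs_mul]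
              exact mul_le_mul_of_nonneg_right (h3 i) (abs_nonneg _)
          _ = (∑ i, |w i X|) / 2 ^ L := by
              rw [← mul_sum, one_div, inv_mul_eq_div]
      have h8 : (1 - 1 / 2 ^ L) * e X ≤ e X := by
        have h9 : (0 : ℝ) ≤ 1 / 2 ^ L := by positivity
        nlinarith [he X, mul_nonneg h9 (he X)]
      exact (abs_add_le _ _).trans (add_le_add (h6.trans h8) h7)
  choose f hf1 hf2 using key
  obtain ⟨v, hv⟩ := Finite.exists_infinite_fiber f
  have hinf : (f ⁻¹' {v}).Infinite := Set.infinite_coe_iff.1 hv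
  obtain ⟨L₀, hL₀⟩ := hinf.nonempty
  refine ⟨fun i => ((v i : ℕ) : ℤ), fun i => ?_, ?_, fun X => ?_⟩
  · have h1 : (v i : ℕ) < 2 := (v i).2
    have h2 : (v i : ℕ) = 0 ∨ (v i : ℕ) = 1 := by omega
    rcases h2 with h2 | h2 <;> simp [h2]
  · have h1 := hf1 L₀
    rw [show f L₀ = v from hL₀] at h1
    exact h1
  · refine le_of_forall_pos_le_add fun η hη => ?_
    set W : ℝ := ∑ i, |w i X| with hW
    have hW0 : 0 ≤ W := sum_nonneg fun i _ => abs_nonneg _
    obtain ⟨L₁, hL₁⟩ := pow_unbounded_of_one_lt (W / η) (one_lt_two : (1 : ℝ) < 2)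
    obtain ⟨L, hL, hLL⟩ := hinf.exists_gt L₁
    have h1 := hf2 L X
    rw [show f L = v from hL] at h1
    have h2 : W / 2 ^ L ≤ η := by
      have h3 : (2 : ℝ) ^ L₁ ≤ 2 ^ L := pow_le_pow_right₀ one_le_two hLL.le
      have h4 : W / η < 2 ^ L := lt_of_lt_of_le hL₁ h3
      rw [div_lt_iff₀ hη] at h4
      rw [div_le_iff₀ (by positivity)]
      linarith
    have h5 : |∑ i, ((((v i : ℕ) : ℤ) : ℝ) - u i) * w i X| ≤ e X + W / 2 ^ L := by
      push_cast
      exact h1
    linarith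

end Pool.Agent.K5.Lsv
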