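import Mathlib
import Pool.Agent.Work.MP_974d84_co_log.Paths
import Pool.Agent.Work.MP_974d84_co_log.Comp
import Pool.Agent.Work.MP_974d84_co_log.Transversal
import Pool.Agent.Work.MP_974d84_co_k5.Defs5

/-!
# One site in every odd circuit of a 2-factor
-/

set_option linter.unusedSectionVars false

namespace Pool.Agent.K5

open Finset SimpleGraph Pool.Agent.Exp Pool.Agent.Log5 Pool.Agent.Log5.Clu

/-- A component which meets a set and its complement has an edge of the cut. -/
theorem comp_cross {V : Type} [Fintype V] [DecidableEq V] {G : SimpleGraph V}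
    [DecidableRel G.Adj] {F : SimpleGraph V} (hF : F ≤ G) (c : F.ConnectedComponent)
    {X : Finset V} {x y : V} (hx : x ∈ c.supp) (hy : y ∈ c.supp) (hxX : x ∈ X) (hyX : y ∉ X) :
    ∃ p ∈ Pool.Agent.Work.MP_314beb_co.cut G X, p.1 ∈ c.supp := by
  classical
  have hr : F.Reachable x y := by
    rw [ConnectedComponent.mem_supp_iff] at hx hy
    exact ConnectedComponent.exact (hx.trans hy.symm)
  obtain ⟨w⟩ := hr
  have key : ∀ {a b : V} (w : F.Walk a b), a ∈ c.supp → a ∈ X → b ∉ X →
      ∃ p ∈ Pool.Agent.Work.MP_314beb_co.cut G X, p.1 ∈ c.supp := by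
    intro a b w
    induction w with
    | nil => exact fun _ h1 h2 => absurd h1 h2
    | @cons a d b hab w ih =>
      intro h0 h1 h2
      by_cases h3 : d ∈ X
      · refine ih ?_ h3 h2
        rw [ConnectedComponent.mem_supp_iff] at h0 ⊢
        rw [← h0]
        exact ConnectedComponent.sound hab.symm.reachable
      · exact ⟨(a, d), (mem_cut G).2 ⟨h1, h3, hF hab⟩, h0⟩
  exact key w hx hxX hyX

theorem sites {V : Type} [Fintype V] [DecidableEq V] {G : SimpleGraph V} [DecidableRel G.Adj]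
    (h3 : ∀ v, G.degree v = 3) {k a : ℕ} (hg : Gir G k) (hk : 12 * 4 ^ a ≤ k)
    (hbr : ∀ S : Finset V, S.Nonempty → Sᶜ.Nonempty → 2 ≤ dd G S)
    (F : SimpleGraph V) (hF : F ≤ G) (hF2 : ∀ v, (F.neighborSet v).ncard = 2) :
    ∃ μ ν : V → V, (∀ v, μ (μ v) = v) ∧ (∀ v, ν (ν v) = v) ∧ (∀ v, G.Adj v (μ v)) ∧
      (∀ v, ν v ≠ v → G.Adj v (ν v)) ∧ (∀ v, μ v ≠ ν v) ∧
      (∀ v v', ν v = v → ν v' = v' → v ≠ v' → Disjoint (Bl G.Adj a v) (Bl G.Adj a v')) ∧
      ∀ X : Finset V, k * (X.filter fun v => ν v = v).card ≤ X.card + k * dd G X := by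
  classical
  obtain ⟨C, hCd, hCk, hC1, hC2⟩ := exists_classes hF hF2 hg rfl
  obtain ⟨u, huC, hu⟩ := exists_candidates h3 (q := 1) (R := a) C hCd
    fun i => by
      have := hCk i
      omega
  set t := fun i => u i 0 with ht
  have htC : ∀ i, t i ∈ C i := fun i => huC i 0
  have htd : ∀ i j, i ≠ j → Disjoint (Bl G.Adj a (t i)) (Bl G.Adj a (t j)) := fun i j hij =>
    hu i 0 j 0 fun h => hij (Prod.mk.inj h).1
  set T : Finset V := univ.image t with hT
  have huniq : ∀ i j, t j ∈ C i → j = i := by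
    intro i j h
    by_contra hne
    exact Finset.disjoint_left.1 (hCd j i hne) (htC j) h
  obtain ⟨ν, hν1, hν2, hν3⟩ := exists_nu F hF2 T
    (by
      intro c hc
      obtain ⟨i, hi⟩ := hC2 c hc
      refine ⟨t i, ⟨mem_image_of_mem _ (mem_univ _), hi ▸ htC i⟩, ?_⟩
      rintro v ⟨hv, hvc⟩
      obtain ⟨j, -, rfl⟩ := mem_image.1 hv
      have h1 : t j ∈ C i := by
        have : t j ∈ ((C i : Finset V) : Set V) := hi ▸ hvc
        exact this
      rw [huniq i j h1])
    (by
      intro c hc v hv hvT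
      obtain ⟨j, -, rfl⟩ := mem_image.1 hvT
      obtain ⟨c', hc', hj⟩ := hC1 j
      have h1 : t j ∈ c'.supp := hj ▸ htC j
      rw [ConnectedComponent.mem_supp_iff] at h1 hv
      rw [← hv, h1] at hc
      exact hc hc')
  obtain ⟨μ, hμ1, hμ2, hμ3, -⟩ := exists_mu' h3 F hF hF2
  refine ⟨μ, ν, hμ1, hν1, hμ2, fun v hv => hF (hν3 v fun h => hv ((hν2 v).2 h)), fun v h => ?_,
    fun v v' hv hv' hne => ?_, fun X => ?_⟩
  · by_cases hv : v ∈ T
    · exact (hμ2 v).ne (h.trans ((hν2 v).2 hv)).symm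
    · exact hμ3 v (h ▸ hν3 v hv)
  · obtain ⟨i, -, rfl⟩ := mem_image.1 ((hν2 v).1 hv)
    obtain ⟨j, -, rfl⟩ := mem_image.1 ((hν2 v').1 hv')
    exact htd i j fun h => hne (by rw [h])
  · -- the sites in `X`
    set J := univ.filter fun i => t i ∈ X with hJ
    have hcard : (X.filter fun v => ν v = v).card ≤ J.card := by
      have hsub : (X.filter fun v => ν v = v) ⊆ J.image t := by
        intro v hv
        rw [mem_filter] at hv
        obtain ⟨i, -, rfl⟩ := mem_image.1 ((hν2 v).1 hv.2)
        exact mem_image_of_mem _ (mem_filter.2 ⟨mem_univ _, hv.1⟩)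
      exact (card_le_card hsub).trans card_image_le
    set J1 := J.filter fun i => C i ⊆ X with hJ1
    set J2 := J.filter fun i => ¬ C i ⊆ X with hJ2
    have hsplit : J1.card + J2.card = J.card := card_filter_add_card_filter_not _
    have b1 : k * J1.card ≤ X.card := by
      have h1 : (J1.biUnion C).card = ∑ i ∈ J1, (C i).card :=
        card_biUnion fun i _ j _ hij => hCd i j hij
      have h2 : (J1.biUnion C).card ≤ X.card := card_le_card fun v hv => by
        obtain ⟨i, hi, hvi⟩ := mem_biUnion.1 hv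
        exact (mem_filter.1 hi).2 hvi
      have h4 : J1.card * k ≤ ∑ i ∈ J1, (C i).card := by
        rw [← smul_eq_mul]
        exact card_nsmul_le_sum _ _ _ fun i _ => hCk i
      rw [mul_comm]
      omega
    have b2 : J2.card ≤ dd G X := by
      have hex : ∀ i, ∃ p : V × V, i ∈ J2 →
          p ∈ Pool.Agent.Work.MP_314beb_co.cut G X ∧ p.1 ∈ C i := by
        intro i
        by_cases hi : i ∈ J2
        swap
        · exact ⟨(t i, t i), fun h => absurd h hi⟩
        rw [hJ2, mem_filter, hJ, mem_filter] at hi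
        obtain ⟨y, hy, hyX⟩ := Finset.not_subset.1 hi.2
        obtain ⟨c, -, hc⟩ := hC1 i
        have h1 : t i ∈ c.supp := hc ▸ htC i
        have h2 : y ∈ c.supp := hc ▸ hy
        obtain ⟨p, hp, hpc⟩ := comp_cross hF c h1 h2 hi.1.2 hyX
        refine ⟨p, fun _ => ⟨hp, ?_⟩⟩
        have : p.1 ∈ ((C i : Finset V) : Set V) := hc ▸ hpc
        exact this
      choose p hp using hex
      refine card_le_card_of_injOn p (fun i hi => (hp i hi).1) ?_
      intro i hi j hj hij
      by_contra hne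
      have h1 := (hp i hi).2
      have h2 := (hp j hj).2
      have hij' : p i = p j := hij
      rw [hij'] at h1
      exact Finset.disjoint_left.1 (hCd i j hne) h1 h2
    calc k * (X.filter fun v => ν v = v).card ≤ k * J.card := Nat.mul_le_mul_left _ hcard
      _ = k * J1.card + k * J2.card := by rw [← hsplit]; ring
      _ ≤ X.card + k * dd G X := add_le_add b1 (Nat.mul_le_mul_left _ b2)

end Pool.Agent.K5
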