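import Mathlib
import Pool.Agent.Work.MP_974d84_co_k5.MainA
import Pool.Agent.Work.MP_974d84_co_k5.Sites
import Pool.Agent.Work.MP_974d84_co_k5.GPathEx
import Pool.Agent.Work.MP_974d84_co_k5.Gadgets
import Pool.Agent.Work.MP_974d84_co_k5.SmearEx
import Pool.Agent.Work.MP_974d84_co_k5.Average
import Pool.Agent.Work.MP_974d84_co_k5.CoreFlow
import Pool.Agent.Work.MP_974d84_co_k5.FinalIneq
import Pool.Agent.Work.MP_974d84_co_k5.QBound
import Pool.Agent.Work.MP_974d84_co_k5.RegionSigns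

/-!
# ROOM K5, M17: the assembly for one graph
-/

set_option linter.unusedSectionVars false
set_option linter.unusedVariables false

namespace Pool.Agent.K5

open Finset SimpleGraph Pool.Agent.Exp Pool.Agent.Log5 Pool.Agent.Log5.Clu

variable {V : Type} [Fintype V] [DecidableEq V] {G : SimpleGraph V} [DecidableRel G.Adj]

/-- The charge of a strand vector is small at every vertex. -/
theorem sw_small {a m : ℕ} {w : V → V → ℝ} {p q : Fin m → V} {ε : Fin m → ℤ}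
    (hp : Function.Injective p) (hq : Function.Injective q) (hpq : ∀ i j, p i ≠ q j)
    (hε : ∀ j, ε j = 1 ∨ ε j = -1) (h0 : ∀ t v, 0 ≤ w t v) (h1 : ∀ t v, w t v ≤ 1 / 2 ^ a)
    (h2 : ∀ t v, w t v ≠ 0 → v ∈ Bl G.Adj a t)
    (hT : ∀ t ∈ univ.image p ∪ univ.image q, ∀ t' ∈ univ.image p ∪ univ.image q, t ≠ t' →
      Disjoint (Bl G.Adj a t) (Bl G.Adj a t')) (v : V) :
    |sw w p q ε v| ≤ 1 / 2 ^ a := by
  refine le_trans ?_ (sum_w_le h0 h1 h2 hT v)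
  rw [sum_union, sum_image fun _ _ _ _ h => hp h, sum_image fun _ _ _ _ h => hq h,
    ← sum_add_distrib]
  · unfold sw
    refine (abs_sum_le_sum_abs _ _).trans (sum_le_sum fun j _ => ?_)
    have a1 := h0 (p j) v
    have a2 := h0 (q j) v
    rw [abs_le]
    rcases hε j with h | h <;> rw [h] <;> push_cast <;> constructor <;> linarith
  · rw [Finset.disjoint_left]
    intro u hu1 hu2
    obtain ⟨i, -, rfl⟩ := mem_image.1 hu1
    obtain ⟨j, -, hj⟩ := mem_image.1 hu2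
    exact hpq i j hj.symm

theorem sw_zero {m : ℕ} {w : V → V → ℝ} {p q : Fin m → V} {ε : Fin m → ℤ}
    (h1 : ∀ j, ∑ v, w (p j) v = 1) (h2 : ∀ j, ∑ v, w (q j) v = 1) :
    ∑ v, sw w p q ε v = 0 := by
  unfold sw
  rw [sum_comm]
  refine sum_eq_zero fun j _ => ?_
  rw [← mul_sum, sum_sub_distrib, h1, h2]
  ring

/-- Few sites in a core. -/
theorem sites_core {N k c d t : ℕ} (hk : 0 < k) (hN : N ≤ k) (h1 : k * t ≤ c + k * d)
    (h2 : N * d ≤ c) : N * t ≤ 2 * c := by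
  have h5 : k * (N * t) ≤ k * (2 * c) := by
    calc k * (N * t) = N * (k * t) := by ring
      _ ≤ N * (c + k * d) := Nat.mul_le_mul_left _ h1
      _ = N * c + k * (N * d) := by ring
      _ ≤ k * c + k * c := Nat.add_le_add (Nat.mul_le_mul_right _ hN) (Nat.mul_le_mul_left _ h2)
      _ = k * (2 * c) := by ring
  exact Nat.le_of_mul_le_mul_left h5 hk

theorem assembleK {a R N k : ℕ} {C b B η θ e : ℝ}
    (h3 : ∀ v, G.degree v = 3) (hc : CycConn G k) (hg : Gir G k)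
    (hbr : ∀ S : Finset V, S.Nonempty → Sᶜ.Nonempty → 2 ≤ dd G S)
    (ha : 1 ≤ a) (hk1 : 12 * 4 ^ a ≤ k) (hk2 : 24 * a + 40 ≤ k) (hk3 : 3 * 2 ^ (a + 2) ≤ k)
    (hNk : N ≤ k) (hR : 12 * a + 10 ≤ R)
    (F : SimpleGraph V) (hF : F ≤ G) (hF2 : ∀ v, (F.neighborSet v).ncard = 2)
    {r : ℕ} {S : Fin r → Finset V} (hS : Cores G C S) (hFa : Facts G C N k S)
    (hcen : ∀ T : Finset V, (∀ i, N * (T ∩ S i).card ≤ 2 * (S i).card) →
      ∃ (M : Fin r → ℕ) (β : (i : Fin r) → Fin (M i) → V), (∀ i, η * gf C (S i).card ≤ M i) ∧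
      (∀ i g, Bl G.Adj R (β i g) ⊆ S i ∧ Disjoint (Bl G.Adj R (β i g)) T) ∧
      (∀ i g g', g ≠ g' → Disjoint (Bl G.Adj R (β i g)) (Bl G.Adj R (β i g'))) ∧
      ∀ i Z, Z ⊆ S i → Joined G Z → 2 * Z.card ≤ (S i).card → k ≤ dd G Z →
        ((univ.filter fun g => ¬ Disjoint (Bl G.Adj R (β i g)) Z).card : ℝ) ≤ θ * dd G Z)
    (Ξ : Type) [Fintype Ξ] [Nonempty Ξ] (c : Ξ → V → V)
    (hcB : ∀ X : Finset V, ∑ ξ, ((univ.filter fun v => ¬ (v ∈ X ↔ c ξ v ∈ X)).card : ℝ) ≤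
      B * dd G X * Fintype.card Ξ)
    (hsigns : ∀ (m : ℕ) (p q : Fin m → V), Function.Injective p → Function.Injective q →
      (∀ i j, p i ≠ q j) → (∀ (X : Finset V) (J : Finset (Fin m)),
        (∀ j ∈ J, ¬ (p j ∈ X ↔ q j ∈ X)) → J.card ≤ dd G X) →
      ∀ w : V → V → ℝ, Smear G a (univ.image p ∪ univ.image q) w →
      ∃ ε : Fin m → ℤ, (∀ j, ε j = 1 ∨ ε j = -1) ∧ ∀ ξ R, Region S R → ∀ A, A ⊆ pre (c ξ) R →
        Clo (c ξ) A → |∑ v ∈ A, sw w p q ε v| ≤ b * dd G A)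
    (hb0 : 0 ≤ b) (hB : 0 ≤ B) (hθ : 0 ≤ θ) (hη : 0 ≤ η)
    {b₁ : ℝ} (hb₁ : b₁ = b * (1 + 3 * B) + 1 / 2 ^ a * B) (hn1 : 2 * b₁ + 5 / k ≤ 4 * η)
    (hn2 : 123 / 100 * (b₁ + 5 / k) + 223 / 100 * (b₁ + (1 / 2 ^ a + 4 * θ)) ≤ e) :
    ∃ x : V → ℤ, (∀ v, x v = 1 ∨ x v = -1) ∧
      ∀ X : Finset V, |∑ v ∈ X, (x v : ℝ)| ≤ (3 / 5 + e / 2) * dd G X := by
  classical
  have hk0 : 0 < k := by omega
  have hkr : (0 : ℝ) < k := by exact_mod_cast hk0
  obtain ⟨μ, ν, hμ, hν, hμa, hνa, hne, hT0, hTk⟩ := sites h3 hg hk1 hbr F hF hF2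
  set T₀ : Finset V := univ.filter fun v => ν v = v with hT₀
  have hT0N : ∀ i, N * (T₀ ∩ S i).card ≤ 2 * (S i).card := by
    intro i
    have h2 : T₀ ∩ S i = (S i).filter fun v => ν v = v := by
      ext v
      rw [hT₀, mem_inter, mem_filter, mem_filter]
      simp only [mem_univ, true_and]
      exact and_comm
    rw [h2]
    exact sites_core hk0 hNk (hTk (S i)) (hFa.bdry i)
  obtain ⟨M, β, hM, hβS, hβd, hβZ⟩ := hcen T₀ hT0N
  have hβdd : ∀ g g' : (i : Fin r) × Fin (M i), g ≠ g' →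
      Disjoint (Bl G.Adj R (β g.1 g.2)) (Bl G.Adj R (β g'.1 g'.2)) := by
    rintro ⟨i, g⟩ ⟨i', g'⟩ hgg
    by_cases h : i = i'
    · subst h
      exact hβd i g g' fun h => hgg (by rw [h])
    · exact (hS.disj i i' h).mono (hβS i g).1 (hβS i' g').1
  have hβν : ∀ g : (i : Fin r) × Fin (M i), ∀ v ∈ Bl G.Adj R (β g.1 g.2), ν v ≠ v := by
    rintro ⟨i, g⟩ v hv h
    refine Finset.disjoint_left.1 (hβS i g).2 hv ?_
    rw [hT₀, mem_filter]
    exact ⟨mem_univ _, h⟩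
  have hpath : ∀ g : (i : Fin r) × Fin (M i), ∃ P : ℕ → V, GPath G μ ν a P ∧
      (∀ i ≤ 10 * a + 7, P i ∈ Bl G.Adj i (β g.1 g.2)) ∧
      (∀ i j, i ≤ 10 * a + 7 → j ≤ 10 * a + 7 → P i = P j → i = j) ∧
      ∀ i j, j ≤ 10 * a + 7 → i + (2 * a + 1) ≤ j →
        Disjoint (Bl G.Adj a (P i)) (Bl G.Adj a (P j)) := fun g =>
    exists_gpath h3 hg hk2 μ ν hμ hν hμa hνa hne _ fun v hv =>
      hβν g v (Bl_mono (by omega) _ hv)
  choose P hP hPb hPinj hPd using hpath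
  have hinj : ∀ (g : (i : Fin r) × Fin (M i)) i (g' : (i : Fin r) × Fin (M i)) i',
      i ≤ 10 * a + 7 → i' ≤ 10 * a + 7 → P g i = P g' i' → g = g' ∧ i = i' := by
    intro g i g' i' hi hi' h
    by_cases hgg : g = g'
    · subst hgg
      exact ⟨rfl, hPinj g i i' hi hi' h⟩
    · exfalso
      have h1 := Bl_mono (by omega : i ≤ R) _ (hPb g i hi)
      have h2 := Bl_mono (by omega : i' ≤ R) _ (hPb g' i' hi')
      rw [← h] at h2
      exact Finset.disjoint_left.1 (hβdd g g' hgg) h1 h2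
  obtain ⟨H, m, p, q, hH, hHd, hp, hq, hpq, hpqT, hJ, hx⟩ :=
    gadgets h3 μ ν hμ hν hμa hνa hne a P hP hinj
  obtain ⟨T, hmT⟩ : ∃ T : Finset V, ∀ v, v ∈ T ↔
      (ν v = v ∨ ∃ g, ∃ i ∈ gidx a, v = P g i) :=
    ⟨univ.filter fun v => ν v = v ∨ ∃ g, ∃ i ∈ gidx a, v = P g i, fun v => by
      rw [mem_filter]
      simp⟩
  have hdeg1 : ∀ v ∈ T, (H.neighborSet v).ncard = 1 := by
    intro v hv
    rw [hHd v, if_pos ((hmT v).1 hv)]
  have hdeg2 : ∀ v, v ∉ T → (H.neighborSet v).ncard = 2 := by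
    intro v hv
    rw [hHd v, if_neg fun h => hv ((hmT v).2 h)]
  have hPR : ∀ g : (i : Fin r) × Fin (M i), ∀ i ≤ 10 * a + 7,
      Bl G.Adj a (P g i) ⊆ Bl G.Adj R (β g.1 g.2) := by
    intro g i hi v hv
    exact Bl_mono (by omega : i + a ≤ R) _ (Bl_comp (hPb g i hi) hv)
  have hgd : ∀ (g : (i : Fin r) × Fin (M i)), ∀ i ∈ gidx a, ∀ j ∈ gidx a, i ≠ j →
      Disjoint (Bl G.Adj a (P g i)) (Bl G.Adj a (P g j)) := by
    intro g i hi j hj hij
    have h1 := gidx_le hi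
    have h2 := gidx_le hj
    rw [mem_gidx] at hi hj
    rcases Nat.lt_or_ge i j with h | h
    · exact hPd g i j h2 (by omega)
    · exact (hPd g j i h1 (by omega)).symm
  have hTg : ∀ t, ν t = t → ∀ g : (i : Fin r) × Fin (M i), ∀ i ≤ 10 * a + 7,
      Disjoint (Bl G.Adj a t) (Bl G.Adj a (P g i)) := by
    intro t ht g i hi
    rw [Finset.disjoint_left]
    intro u hu1 hu2
    have h1 : t ∈ Bl G.Adj a u := Bl_symm (fun _ _ h => h.symm) hu1
    have h2 : t ∈ Bl G.Adj (i + a + a) (β g.1 g.2) := Bl_comp (Bl_comp (hPb g i hi) hu2) h1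
    exact hβν g t (Bl_mono (by omega) _ h2) ht
  have hTd : ∀ t ∈ T, ∀ t' ∈ T, t ≠ t' → Disjoint (Bl G.Adj a t) (Bl G.Adj a t') := by
    intro t ht t' ht' hne'
    rw [hmT] at ht ht'
    rcases ht with ht | ⟨g, i, hi, rfl⟩
    · rcases ht' with ht' | ⟨g', i', hi', rfl⟩
      · exact hT0 t t' ht ht' hne'
      · exact hTg t ht g' i' (gidx_le hi')
    · rcases ht' with ht' | ⟨g', i', hi', rfl⟩
      · exact (hTg t' ht' g i (gidx_le hi)).symm
      · by_cases hgg : g = g'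
        · subst hgg
          exact hgd g i hi i' hi' fun h => hne' (by rw [h])
        · exact (hβdd g g' hgg).mono (hPR g i (gidx_le hi)) (hPR g' i' (gidx_le hi'))
  -- the smeared sites
  have hsm : ∀ t, ∃ (φ : V → V → ℝ) (w : V → ℝ), (t ∈ T → (∀ u v, φ u v = - φ v u) ∧
      (∀ u v, φ u v ≠ 0 → G.Adj u v ∧ u ∈ Bl G.Adj a t ∧ v ∈ Bl G.Adj a t) ∧
      (∀ u v, |φ u v| ≤ 2 / 5) ∧ (∀ u v, H.Adj u v → |φ u v| ≤ 1 / 5) ∧ ∑ v, w v = 1 ∧
      ∀ v, ∑ u, φ v u = (if v = t then 1 else 0) - w v) ∧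
      (∀ v, 0 ≤ w v) ∧ (∀ v, w v ≤ 1 / 2 ^ a) ∧ (∀ v, w v ≠ 0 → v ∈ Bl G.Adj a t) := by
    intro t
    by_cases ht : t ∈ T
    · obtain ⟨φ, w, k1, k2, k3, k4, k5, k6, k7, k8, k9⟩ := smear_one h3 hg hk3 ha H hH t
        (hdeg1 t ht) (fun v hv hvt => hdeg2 v fun hvT =>
          Finset.disjoint_left.1 (hTd v hvT t ht hvt) (Bl_self a v) hv)
      exact ⟨φ, w, fun _ => ⟨k1, k2, k3, k4, k8, k9⟩, k5, k6, k7⟩
    · exact ⟨fun _ _ => 0, fun _ => 0, fun h => absurd h ht, fun _ => le_rfl,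
        fun _ => by positivity, fun v hv => absurd rfl hv⟩
  choose φ w hφw hw0 hw1 hw2 using hsm
  have hpT : ∀ j, p j ∈ T := by
    intro j
    rw [hmT]
    rcases (hpqT (p j)).1 (Or.inl ⟨j, rfl⟩) with h | ⟨g, h | h⟩
    · exact Or.inl h
    · exact Or.inr ⟨g, 0, mem_gidx.2 (by omega), h⟩
    · exact Or.inr ⟨g, 10 * a + 7, mem_gidx.2 (by omega), h⟩
  have hqT : ∀ j, q j ∈ T := by
    intro j
    rw [hmT]
    rcases (hpqT (q j)).1 (Or.inr ⟨j, rfl⟩) with h | ⟨g, h | h⟩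
    · exact Or.inl h
    · exact Or.inr ⟨g, 0, mem_gidx.2 (by omega), h⟩
    · exact Or.inr ⟨g, 10 * a + 7, mem_gidx.2 (by omega), h⟩
  have hPT : ∀ (g : (i : Fin r) × Fin (M i)), ∀ i ∈ gidx a, P g i ∈ T := by
    intro g i hi
    rw [hmT]
    exact Or.inr ⟨g, i, hi, rfl⟩
  have hpqsub : ∀ t ∈ univ.image p ∪ univ.image q, t ∈ T := by
    intro t ht
    rw [mem_union, mem_image, mem_image] at ht
    rcases ht with ⟨j, -, rfl⟩ | ⟨j, -, rfl⟩
    · exact hpT j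
    · exact hqT j
  have hw3 : ∀ t ∈ T, ∑ v, w t v = 1 := fun t ht => (hφw t ht).2.2.2.2.1
  have hSm : Smear G a (univ.image p ∪ univ.image q) w :=
    ⟨hw0, hw1, hw2, fun t ht => hw3 t (hpqsub t ht),
      fun t ht t' ht' hne' => hTd t (hpqsub t ht) t' (hpqsub t' ht') hne'⟩
  obtain ⟨ε, hε, hεA⟩ := hsigns m p q hp hq hpq hJ w hSm
  have hσb : ∀ v, |sw w p q ε v| ≤ 1 / 2 ^ a :=
    sw_small hp hq hpq hε hw0 hw1 hw2 hSm.disj
  have hσ2 := average_region h3 c hb0 (by positivity) hcB hσb S hεA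
  rw [← hb₁] at hσ2
  have hb' : 0 ≤ b₁ := by rw [hb₁]; positivity
  have h0 : ∑ v, sw w p q ε v = 0 := sw_zero (fun j => hw3 _ (hpT j)) fun j => hw3 _ (hqT j)
  obtain ⟨z, hz1, hz2⟩ := core_flow G S hS.ne hS.disj hk0 hFa.sep h0 hb'
    (fun X hX => hσ2 _ (Or.inr rfl) X (by
      intro v hv
      rw [mem_compl, mem_biUnion]
      rintro ⟨i, -, hi⟩
      exact Finset.disjoint_left.1 (hX i) hv hi))
  have hzM : ∀ i, (z i).natAbs ≤ M i := by
    intro i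
    have h1 : (dd G (S i) : ℝ) ≤ gf C (S i).card := (hS.viol i).le
    have h2 : (2 * b₁ + 5 / k) * dd G (S i) ≤ 4 * η * dd G (S i) :=
      mul_le_mul_of_nonneg_right hn1 (Nat.cast_nonneg _)
    have h4 : η * dd G (S i) ≤ η * gf C (S i).card := mul_le_mul_of_nonneg_left h1 hη
    have h5 := hM i
    have h6 := hz1 i
    have h6' := hσ2 _ (Or.inl ⟨i, rfl⟩) (S i) (Subset.refl _)
    have h7 : |(z i : ℝ)| ≤ M i := by linarith
    have h8 : ((z i).natAbs : ℝ) = |(z i : ℝ)| := by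
      rw [Nat.cast_natAbs, Int.cast_abs]
    rw [← h8] at h7
    exact_mod_cast h7
  -- the signs of the gadgets
  obtain ⟨η₁, hη₁⟩ : ∃ η₁ : ((i : Fin r) × Fin (M i)) → ℤ, ∀ g, η₁ g =
      if (g.2 : ℕ) < (z g.1).natAbs then (z g.1).sign else 1 := ⟨_, fun g => rfl⟩
  obtain ⟨η₂, hη₂⟩ : ∃ η₂ : ((i : Fin r) × Fin (M i)) → ℤ, ∀ g, η₂ g =
      if (g.2 : ℕ) < (z g.1).natAbs then (z g.1).sign else -1 := ⟨_, fun g => rfl⟩
  have hη₁' : ∀ g, η₁ g = 1 ∨ η₁ g = -1 := by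
    intro g
    rw [hη₁ g]
    split_ifs with h
    · exact sign_pm h
    · exact Or.inl rfl
  have hη₂' : ∀ g, η₂ g = 1 ∨ η₂ g = -1 := by
    intro g
    rw [hη₂ g]
    split_ifs with h
    · exact sign_pm h
    · exact Or.inr rfl
  obtain ⟨x, hx1, hx2, hx3, hx4⟩ := hx ε η₁ η₂ hε hη₁' hη₂'
  refine ⟨x, hx1, fun X => ?_⟩
  have hfin := final_ineq h3 hH (T := T) (fun v => by
      by_cases hv : v ∈ T
      · rw [if_pos hv, hdeg1 v hv]
      · rw [if_neg hv, hdeg2 v hv]) hx1 hx2 hTd (φ := φ) (w := w)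
    (fun t ht => (hφw t ht).1) (fun t ht => (hφw t ht).2.1) (fun t ht => (hφw t ht).2.2.1)
    (fun t ht => (hφw t ht).2.2.2.1) (fun t ht => (hφw t ht).2.2.2.2.2) X
  set qq : V → ℝ := fun v => ∑ g, gch a w (P g) (η₁ g) (η₂ g) v with hqq
  have hfixP : ∀ g, ∀ i ≤ 10 * a + 7, ν (P g i) ≠ P g i := fun g i hi =>
    hβν g _ (Bl_mono (by omega) _ (hPb g i hi))
  have hsplit : ∑ t ∈ T, (x t : ℝ) * ∑ v ∈ X, w t v = ∑ v ∈ X, (sw w p q ε v + qq v) := by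
    have e1 : ∑ v ∈ X, (sw w p q ε v + qq v) = ∑ v ∈ X, sw w p q ε v + ∑ v ∈ X, qq v :=
      sum_add_distrib
    rw [sum_sites hinj hfixP hp hq hpq hpqT hmT, e1]
    congr 1
    · rw [← sum_add_distrib]
      unfold sw
      rw [sum_comm]
      refine sum_congr rfl fun j _ => ?_
      rw [(hx3 j).1, (hx3 j).2, ← mul_sum, sum_sub_distrib]
      push_cast
      ring
    · rw [hqq]
      dsimp only
      rw [sum_comm]
      refine sum_congr rfl fun g _ => ?_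
      unfold gch
      rw [sum_add_distrib, ← mul_sum, ← mul_sum, sum_add_distrib, sum_add_distrib,
        (hx4 g).1, (hx4 g).2.1, (hx4 g).2.2.1, (hx4 g).2.2.2]
      ring
  -- the support of the gadget charges
  have hwS : ∀ (g : (i : Fin r) × Fin (M i)), ∀ i ∈ gidx a, ∀ v, w (P g i) v ≠ 0 →
      v ∈ Bl G.Adj R (β g.1 g.2) := fun g i hi v hv =>
    hPR g i (gidx_le hi) (hw2 _ v hv)
  have hwS' : ∀ (g : (i : Fin r) × Fin (M i)), ∀ i ∈ gidx a, ∀ v, w (P g i) v ≠ 0 →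
      v ∈ S g.1 := fun g i hi v hv => (hβS g.1 g.2).1 (hwS g i hi v hv)
  have hq1 : ∀ Y, Sat S Y → ∑ v ∈ Y, qq v =
      4 * ∑ i ∈ univ.filter (fun i => S i ⊆ Y), (z i : ℝ) := by
    intro Y hY
    rw [hqq]
    dsimp only
    rw [sum_comm]
    have h1 : ∀ g : (i : Fin r) × Fin (M i), ∑ v ∈ Y, gch a w (P g) (η₁ g) (η₂ g) v =
        (2 * η₁ g + 2 * η₂ g) * (if S g.1 ⊆ Y then 1 else 0) := by
      intro g
      refine gch_sum fun i hi => ?_
      by_cases h : S g.1 ⊆ Y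
      · rw [if_pos h, ← hw3 _ (hPT g i hi)]
        refine sum_subset (subset_univ _) fun v _ hv => ?_
        by_contra hc'
        exact hv (h (hwS' g i hi v hc'))
      · rw [if_neg h]
        have h' : Disjoint (S g.1) Y := (hY g.1).resolve_left h
        refine sum_eq_zero fun v hv => ?_
        by_contra hc'
        exact Finset.disjoint_left.1 h' (hwS' g i hi v hc') hv
    rw [sum_congr rfl fun g _ => h1 g, Fintype.sum_sigma, mul_sum, sum_filter]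
    refine sum_congr rfl fun i _ => ?_
    have h2 : ∑ g : Fin (M i), (2 * (η₁ ⟨i, g⟩ : ℝ) + 2 * (η₂ ⟨i, g⟩ : ℝ)) = 4 * z i := by
      rw [← sum_signs (hzM i)]
      refine sum_congr rfl fun g _ => ?_
      rw [hη₁, hη₂]
    have h4 : ∑ g : Fin (M i), (2 * (η₁ ⟨i, g⟩ : ℝ) + 2 * (η₂ ⟨i, g⟩ : ℝ)) *
        (if S i ⊆ Y then (1 : ℝ) else 0) = if S i ⊆ Y then 4 * (z i : ℝ) else 0 := by
      rw [← sum_mul, h2]
      split_ifs <;> ring
    exact h4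
  have hq2 : ∀ i, ∀ A ⊆ S i, 2 * A.card ≤ (S i).card →
      |∑ v ∈ A, qq v| ≤ (1 / 2 ^ a + 4 * θ) * dd G A := by
    intro i A hA hA2
    have h1 : ∑ v ∈ A, qq v =
        ∑ v ∈ A, ∑ g : Fin (M i), gch a w (P ⟨i, g⟩) (η₁ ⟨i, g⟩) (η₂ ⟨i, g⟩) v := by
      refine sum_congr rfl fun v hv => ?_
      rw [hqq]
      dsimp only
      rw [Fintype.sum_sigma, sum_eq_single i]
      · intro i' _ hi'
        refine sum_eq_zero fun g _ => ?_
        by_contra hc'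
        obtain ⟨j, hj, hjv⟩ := gch_ne hc'
        exact Finset.disjoint_left.1 (hS.disj i' i hi') (hwS' ⟨i', g⟩ j hj v hjv) (hA hv)
      · intro h
        exact absurd (mem_univ _) h
    rw [h1]
    refine q_bound h3 hS hFa hc hθ i (β i)
      (fun g v => gch a w (P ⟨i, g⟩) (η₁ ⟨i, g⟩) (η₂ ⟨i, g⟩) v) (hβd i) ?_ ?_ ?_ (hβZ i) A hA hA2
    · intro g v hv
      obtain ⟨j, hj, hjv⟩ := gch_ne hv
      exact hwS ⟨i, g⟩ j hj v hjv
    · intro g v
      exact gch_small (G := G) hw0 hw1 hw2 (hPinj ⟨i, g⟩) (hgd ⟨i, g⟩) (hη₁' _) (hη₂' _) v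
    · intro g
      exact gch_total hw0 (fun j hj => hw3 _ (hPT ⟨i, g⟩ j hj)) (hη₁' _) (hη₂' _)
  have hcomb := combine hS hFa (σ := sw w p q ε) (q := qq) (b₁ := b₁) (k₁ := b₁ + 5 / k)
    (e₂ := 1 / 2 ^ a + 4 * θ) (e := e) hσ2 (fun Y hY => by rw [hq1 Y hY]; exact hz2 Y hY) hq2
    (by positivity) (by positivity) hn2 X
  rw [hsplit] at hfin
  have h9 : (3 / 5 + e / 2) * (dd G X : ℝ) = 3 / 5 * dd G X + e * dd G X / 2 := by ring
  rw [h9]
  linarith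

end Pool.Agent.K5
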