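import Mathlib
import Pool.Agent.Work.MP_974d84_co_k5.Params

/-!
# ROOM K5, module M17: the order of the constants
-/

namespace Pool.Agent.K5

/-- The constants of the assembly. -/
theorem consts {ε : ℝ} (hε : 0 < ε) : ∃ (θ η : ℝ) (ρ m s a k₁ : ℕ) (b τ : ℝ),
    0 < θ ∧ 0 < η ∧ 20 * η ≤ θ ∧ 4 * ρ ≤ 2 ^ m ∧ 8 * s + 4 * m + 7 ≤ ρ ∧ 0 < b ∧ b ≤ 1 ∧
    0 < τ ∧ 8 / Real.sqrt ((2 ^ s : ℕ) : ℝ) + τ ≤ b ^ 2 / 16 ∧ 1 ≤ a ∧ ρ ≤ a ∧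
    1 ≤ b * 2 ^ a ∧ 1 ≤ k₁ ∧ ∀ k : ℕ, k₁ ≤ k →
      2 * (b * (1 + 3 * (9 * ρ * 2 ^ (m + 1)))) + 5 / k ≤ 4 * η ∧
      123 / 100 * (1 / 2 ^ a * (9 * ρ * 2 ^ (m + 1)) + b * (1 + 3 * (9 * ρ * 2 ^ (m + 1))) +
          5 / k) +
        223 / 100 * (1 / 2 ^ a * (9 * ρ * 2 ^ (m + 1)) + b * (1 + 3 * (9 * ρ * 2 ^ (m + 1))) +
          (1 / 2 ^ a + 4 * θ)) ≤ 4 * ε / (5 * (5 + ε)) := by
  set e : ℝ := 4 * ε / (5 * (5 + ε)) with he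
  have he0 : 0 < e := by positivity
  set θ : ℝ := e / 40 with hθ
  have hθ0 : 0 < θ := by positivity
  set η : ℝ := θ / 20 with hη
  have hη0 : 0 < η := by positivity
  obtain ⟨ρ, m, s, b, τ, h1, h2, hb0, hb1, hτ, hbB, hs⟩ := params hη0
  set B : ℝ := 9 * ρ * 2 ^ (m + 1) with hB
  have hB0 : 0 ≤ B := by positivity
  obtain ⟨a₁, ha₁⟩ : ∃ n : ℕ, (1 / 2 : ℝ) ^ n < min b (e / (40 * (B + 1))) :=
    exists_pow_lt_of_lt_one (lt_min hb0 (by positivity)) (by norm_num)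
  set a : ℕ := max (max a₁ ρ) 1 with ha
  have ha2 : a₁ ≤ a := (le_max_left _ _).trans (le_max_left _ _)
  have ha3 : ρ ≤ a := (le_max_right _ _).trans (le_max_left _ _)
  have ha4 : 1 ≤ a := le_max_right _ _
  have hpow : (1 : ℝ) / 2 ^ a ≤ (1 / 2) ^ a₁ := by
    rw [one_div_pow]
    exact one_div_le_one_div_of_le (by positivity) (pow_le_pow_right₀ (by norm_num) ha2)
  have hpa1 : (1 : ℝ) / 2 ^ a ≤ b := hpow.trans (ha₁.le.trans (min_le_left _ _))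
  have hpa2 : (1 : ℝ) / 2 ^ a ≤ e / (40 * (B + 1)) := hpow.trans (ha₁.le.trans (min_le_right _ _))
  have hpa3 : (1 : ℝ) / 2 ^ a * (B + 1) ≤ e / 40 := by
    rw [le_div_iff₀ (by positivity)] at hpa2
    rw [le_div_iff₀ (by norm_num)]
    linarith
  obtain ⟨k₁, hk₁⟩ : ∃ n : ℕ, 5 / η < n := exists_nat_gt _
  have hk₁0 : 0 < (k₁ : ℝ) := lt_trans (by positivity) hk₁
  refine ⟨θ, η, ρ, m, s, a, k₁, b, τ, hθ0, hη0, by rw [hη]; linarith, h1, h2, hb0, hb1, hτ, hs, ha4,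
    ha3, ?_, by exact_mod_cast hk₁0, ?_⟩
  · rw [div_le_iff₀ (by positivity)] at hpa1
    exact hpa1
  · intro k hk
    have hkR : (k₁ : ℝ) ≤ k := by exact_mod_cast hk
    have hk0 : (0 : ℝ) < k := lt_of_lt_of_le hk₁0 hkR
    have h5 : 5 / (k : ℝ) ≤ η := by
      rw [div_lt_iff₀ hη0] at hk₁
      rw [div_le_iff₀ hk0]
      nlinarith
    have hA : (1 : ℝ) / 2 ^ a * B ≤ e / 40 := by
      have : (0 : ℝ) ≤ 1 / 2 ^ a := by positivity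
      nlinarith [hpa3]
    have hA' : (1 : ℝ) / 2 ^ a ≤ e / 40 := by
      have : (0 : ℝ) ≤ 1 / 2 ^ a := by positivity
      nlinarith [hpa3, mul_nonneg this hB0]
    refine ⟨by linarith, ?_⟩
    have hη1 : η = e / 800 := by rw [hη, hθ]; ring
    have : 123 / 100 * (1 / 2 ^ a * B + b * (1 + 3 * B) + 5 / k) +
        223 / 100 * (1 / 2 ^ a * B + b * (1 + 3 * B) + (1 / 2 ^ a + 4 * θ)) ≤
        123 / 100 * (e / 40 + e / 800 + e / 800) +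
        223 / 100 * (e / 40 + e / 800 + (e / 40 + 4 * (e / 40))) := by
      rw [hη1] at hbB h5
      linarith
    refine this.trans ?_
    linarith

/-- The last step: from the bound on the smeared charges to the criterion. -/
theorem crit_arith {ε x d σ : ℝ} (hε : 0 < ε) (h1 : x ≤ 3 / 5 * d + σ / 2)
    (h2 : σ ≤ 4 * ε / (5 * (5 + ε)) * d) : (5 + ε) * x ≤ (5 + ε - 2) * d := by
  have h5 : 0 < 5 + ε := by linarith
  have h3 : (5 + ε) * σ ≤ 4 * ε / 5 * d := by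
    calc (5 + ε) * σ ≤ (5 + ε) * (4 * ε / (5 * (5 + ε)) * d) := mul_le_mul_of_nonneg_left h2 h5.le
      _ = 4 * ε / 5 * d := by field_simp
  have h4 : (5 + ε) * x ≤ (5 + ε) * (3 / 5 * d + σ / 2) := mul_le_mul_of_nonneg_left h1 h5.le
  nlinarith

/-- The constants of the assembly, second form: `b₁ = b (1 + 3 B) + B / 2 ^ a`. -/
theorem consts2 {ε : ℝ} (hε : 0 < ε) : ∃ (θ η : ℝ) (ρ m s a k₁ : ℕ) (b τ : ℝ),
    0 < θ ∧ 0 < η ∧ 20 * η ≤ θ ∧ 4 * ρ ≤ 2 ^ m ∧ 8 * s + 4 * m + 7 ≤ ρ ∧ 0 < b ∧ b ≤ 1 ∧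
    0 < τ ∧ 8 / Real.sqrt ((2 ^ s : ℕ) : ℝ) + τ ≤ b ^ 2 / 16 ∧ 1 ≤ a ∧ ρ ≤ a ∧
    1 ≤ b * 2 ^ a ∧ 1 ≤ k₁ ∧ ∀ k : ℕ, k₁ ≤ k → ∀ b₁ : ℝ,
      b₁ = b * (1 + 3 * (9 * ρ * 2 ^ (m + 1))) + 1 / 2 ^ a * (9 * ρ * 2 ^ (m + 1)) →
      2 * b₁ + 5 / k ≤ 4 * η ∧
      123 / 100 * (b₁ + 5 / k) + 223 / 100 * (b₁ + (1 / 2 ^ a + 4 * θ)) ≤
        4 * ε / (5 * (5 + ε)) := by
  set e : ℝ := 4 * ε / (5 * (5 + ε)) with he
  have he0 : 0 < e := by positivity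
  set θ : ℝ := e / 40 with hθ
  have hθ0 : 0 < θ := by positivity
  set η : ℝ := θ / 20 with hη
  have hη0 : 0 < η := by positivity
  have hη1 : η = e / 800 := by rw [hη, hθ]; ring
  obtain ⟨ρ, m, s, b, τ, h1, h2, hb0, hb1, hτ, hbB, hs⟩ := params (half_pos hη0)
  set B : ℝ := 9 * ρ * 2 ^ (m + 1) with hB
  have hB0 : 0 ≤ B := by positivity
  obtain ⟨a₁, ha₁⟩ : ∃ n : ℕ, (1 / 2 : ℝ) ^ n < min b (η / (2 * (B + 1))) :=
    exists_pow_lt_of_lt_one (lt_min hb0 (by positivity)) (by norm_num)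
  set a : ℕ := max (max a₁ ρ) 1 with ha
  have ha2 : a₁ ≤ a := (le_max_left _ _).trans (le_max_left _ _)
  have ha3 : ρ ≤ a := (le_max_right _ _).trans (le_max_left _ _)
  have ha4 : 1 ≤ a := le_max_right _ _
  have hpow : (1 : ℝ) / 2 ^ a ≤ (1 / 2) ^ a₁ := by
    rw [one_div_pow]
    exact one_div_le_one_div_of_le (by positivity) (pow_le_pow_right₀ (by norm_num) ha2)
  have hpa1 : (1 : ℝ) / 2 ^ a ≤ b := hpow.trans (ha₁.le.trans (min_le_left _ _))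
  have hpa2 : (1 : ℝ) / 2 ^ a ≤ η / (2 * (B + 1)) := hpow.trans (ha₁.le.trans (min_le_right _ _))
  have hpa3 : (1 : ℝ) / 2 ^ a * (B + 1) ≤ η / 2 := by
    rw [le_div_iff₀ (by positivity)] at hpa2
    rw [le_div_iff₀ (by norm_num)]
    linarith
  obtain ⟨k₁, hk₁⟩ : ∃ n : ℕ, 5 / η < n := exists_nat_gt _
  have hk₁0 : 0 < (k₁ : ℝ) := lt_trans (by positivity) hk₁
  refine ⟨θ, η, ρ, m, s, a, k₁, b, τ, hθ0, hη0, by rw [hη]; linarith, h1, h2, hb0, hb1, hτ, hs, ha4,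
    ha3, ?_, by exact_mod_cast hk₁0, ?_⟩
  · rw [div_le_iff₀ (by positivity)] at hpa1
    exact hpa1
  · intro k hk b₁ hb₁
    have hkR : (k₁ : ℝ) ≤ k := by exact_mod_cast hk
    have hk0 : (0 : ℝ) < k := lt_of_lt_of_le hk₁0 hkR
    have h5 : 5 / (k : ℝ) ≤ η := by
      rw [div_lt_iff₀ hη0] at hk₁
      rw [div_le_iff₀ hk0]
      nlinarith
    have hP : (0 : ℝ) ≤ 1 / 2 ^ a := by positivity
    have hA : (1 : ℝ) / 2 ^ a * B ≤ η / 2 := by nlinarith [hpa3]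
    have hA' : (1 : ℝ) / 2 ^ a ≤ η / 2 := by nlinarith [hpa3, mul_nonneg hP hB0]
    have hb₁' : b₁ ≤ η := by rw [hb₁]; linarith
    refine ⟨by linarith, ?_⟩
    have : 123 / 100 * (b₁ + 5 / k) + 223 / 100 * (b₁ + (1 / 2 ^ a + 4 * θ)) ≤
        123 / 100 * (e / 800 + e / 800) +
        223 / 100 * (e / 800 + (e / 1600 + 4 * (e / 40))) := by
      rw [hη1] at hb₁' h5 hA'
      linarith
    refine this.trans ?_
    linarith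

end Pool.Agent.K5
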