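import Mathlib
import Pool.Agent.Work.MP_974d84_co_k5.SigmaA
import Pool.Agent.Work.MP_974d84_co_k5.AssembleE
import Pool.Agent.Work.MP_974d84_co_k5.RegionClose

/-!
# The extension theorem, E8: auxiliary statements for the assembly
-/

set_option linter.unusedSectionVars false
set_option linter.unusedVariables false

namespace Pool.Agent.K5

open Finset SimpleGraph Pool.Agent.Exp Pool.Agent.Log5 Pool.Agent.Log5.Clu
  Pool.Agent.Work.MP_314beb_co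

variable {V : Type} [Fintype V] [DecidableEq V] {G : SimpleGraph V} [DecidableRel G.Adj]

/-- A sum with at most one term. -/
theorem abs_sum_single {ι : Type} (I : Finset ι) (f : ι → ℝ) {B : ℝ} (hB : 0 ≤ B)
    (hf : ∀ i ∈ I, |f i| ≤ B) (h1 : ∀ i ∈ I, ∀ j ∈ I, f i ≠ 0 → f j ≠ 0 → i = j) :
    |∑ i ∈ I, f i| ≤ B := by
  classical
  by_cases h : ∃ i ∈ I, f i ≠ 0
  · obtain ⟨i, hi, hfi⟩ := h
    rw [sum_eq_single i]
    · exact hf i hi
    · intro j hj hji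
      by_contra hfj
      exact hji (h1 j hj i hi hfj hfi)
    · intro h
      exact absurd hi h
  · rw [sum_eq_zero, abs_zero]
    · exact hB
    · intro i hi
      by_contra hfi
      exact h ⟨i, hi, hfi⟩

/-- The pairs `(end, leaf)` are determined by the leaf. -/
theorem leaf_eq {μ : V → V} {π : Equiv.Perm V} {p : V → V → ℝ} {jm : ℕ}
    {W : V → (Fin jm → Bool) → Finset V}
    (hW : ∀ u ∈ ends p, ∀ b, TT μ π (rtm μ p u) (List.ofFn b) ∈ W u b)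
    (hd : ∀ u ∈ ends p, ∀ b, ∀ u' ∈ ends p, ∀ b', (u, b) ≠ (u', b') →
      Disjoint (W u b) (W u' b')) {u u' : V} (hu : u ∈ ends p) (hu' : u' ∈ ends p)
    {b b' : Fin jm → Bool}
    (h : TT μ π (rtm μ p u) (List.ofFn b) = TT μ π (rtm μ p u') (List.ofFn b')) :
    u = u' ∧ b = b' := by
  by_contra hne
  have hne' : (u, b) ≠ (u', b') := fun h' => hne (Prod.mk.inj h')
  exact Finset.disjoint_left.1 (hd u hu b u' hu' b' hne') (hW u hu b) (h ▸ hW u' hu' b')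

/-- The smeared ends have total one. -/
theorem wmm_total {μ : V → V} {π : Equiv.Perm V} {p : V → V → ℝ} {jm : ℕ}
    {W : V → (Fin jm → Bool) → Finset V}
    (hW : ∀ u ∈ ends p, ∀ b, TT μ π (rtm μ p u) (List.ofFn b) ∈ W u b)
    (hd : ∀ u ∈ ends p, ∀ b, ∀ u' ∈ ends p, ∀ b', (u, b) ≠ (u', b') →
      Disjoint (W u b) (W u' b')) {u : V} (hu : u ∈ ends p) :
    ∑ v, wmm μ π p jm u v = 1 := by
  rw [sum_wmm (fun b b' h => (leaf_eq hW hd hu hu h).2) univ]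
  rw [sum_congr rfl fun b _ => if_pos (mem_univ _), sum_const, card_univ, nsmul_eq_mul]
  rw [Fintype.card_fun, Fintype.card_bool, Fintype.card_fin]
  push_cast
  rw [mul_one_div, div_self (by positivity)]

/-- A vertex carries little of the charges of the marks. -/
theorem omega_small {μ : V → V} {π : Equiv.Perm V} {p : V → V → ℝ} {jm D : ℕ}
    (hp : Marks G p) (hpD : FarM G D p) {W : V → (Fin jm → Bool) → Finset V}
    (hW : ∀ u ∈ ends p, ∀ b, TT μ π (rtm μ p u) (List.ofFn b) ∈ W u b)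
    (hd : ∀ u ∈ ends p, ∀ b, ∀ u' ∈ ends p, ∀ b', (u, b) ≠ (u', b') →
      Disjoint (W u b) (W u' b')) (v : V) :
    |∑ u ∈ ends p, chm μ p u * wmm μ π p jm u v| ≤ 2 / 5 * (1 / 2 ^ jm) := by
  classical
  refine abs_sum_single _ _ (by positivity) (fun u _ => ?_) (fun u hu u' hu' h h' => ?_)
  · rw [abs_mul]
    refine mul_le_mul (abs_chm hpD hp u) ?_ (abs_nonneg _) (by norm_num)
    unfold wmm
    split_ifs
    · rw [abs_of_nonneg (by positivity)]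
    · rw [abs_zero]
      positivity
  · have key : ∀ u, chm μ p u * wmm μ π p jm u v ≠ 0 → ∃ b : Fin jm → Bool,
        TT μ π (rtm μ p u) (List.ofFn b) = v := by
      intro u h
      have h2 : wmm μ π p jm u v ≠ 0 := right_ne_zero_of_mul h
      unfold wmm at h2
      split_ifs at h2 with h3
      · obtain ⟨c, rfl, hc⟩ := h3
        exact ⟨c.get, by rw [List.ofFn_get, ← hc]⟩
      · exact absurd rfl h2
    obtain ⟨b, hb⟩ := key u h
    obtain ⟨b', hb'⟩ := key u' h'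
    exact (leaf_eq hW hd hu hu' (hb.trans hb'.symm)).1

/-- A vertex carries little of the charges of the reserved defects. -/
theorem reserve_small {j : ℕ} {D Rm : Finset V} (hRm : Rm ⊆ D) {U : V → Finset V}
    (hU : ∀ a ∈ D, ∀ a' ∈ D, a ≠ a' → Disjoint (U a) (U a')) {w : V → ℤ → V → ℝ}
    (hw0 : ∀ a s v, 0 ≤ w a s v) (hw1 : ∀ a s v, w a s v ≤ 1 / 2 ^ j)
    (hw2 : ∀ a ∈ D, ∀ s, (s = 1 ∨ s = -1) → (∀ v, w a s v ≠ 0 → v ∈ U a) ∧ ∑ v, w a s v = 1)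
    {η : V → ℤ} (hη : ∀ v, η v = 1 ∨ η v = -1) (v : V) :
    |∑ a ∈ Rm, (η a : ℝ) * w a (η a) v| ≤ 1 / 2 ^ j := by
  classical
  refine abs_sum_single _ _ (by positivity) (fun a _ => ?_) (fun a ha a' ha' h h' => ?_)
  · have h1 : |(η a : ℝ)| = 1 := by
      rcases hη a with h | h <;> rw [h] <;> simp
    rw [abs_mul, h1, one_mul, abs_of_nonneg (hw0 _ _ _)]
    exact hw1 _ _ _
  · by_contra hne
    exact Finset.disjoint_left.1 (hU a (hRm ha) a' (hRm ha') hne)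
      ((hw2 a (hRm ha) _ (hη a)).1 v (right_ne_zero_of_mul h))
      ((hw2 a' (hRm ha') _ (hη a')).1 v (right_ne_zero_of_mul h'))

/-- The charge of the marks and of the reserved defects in subsets of the regions. -/
theorem marks_region (h3 : ∀ v, G.degree v = 3)
    (hbr : ∀ A : Finset V, A.Nonempty → Aᶜ.Nonempty → 1 ≤ dd G A) {k : ℕ} (hc : CycConn G k)
    {r : ℕ} (S : Fin r → Finset V) {μ : V → V} {π : Equiv.Perm V} {p : V → V → ℝ} {jm j D' : ℕ}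
    (hp : Marks G p) (hpD : FarM G D' p) {W : V → (Fin jm → Bool) → Finset V}
    (hW : ∀ u ∈ ends p, ∀ b, TT μ π (rtm μ p u) (List.ofFn b) ∈ W u b)
    (hd : ∀ u ∈ ends p, ∀ b, ∀ u' ∈ ends p, ∀ b', (u, b) ≠ (u', b') →
      Disjoint (W u b) (W u' b')) {D Rm : Finset V} (hRm : Rm ⊆ D) {U : V → Finset V}
    (hU : ∀ a ∈ D, ∀ a' ∈ D, a ≠ a' → Disjoint (U a) (U a')) {w : V → ℤ → V → ℝ}
    (hw0 : ∀ a s v, 0 ≤ w a s v) (hw1 : ∀ a s v, w a s v ≤ 1 / 2 ^ j)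
    (hw2 : ∀ a ∈ D, ∀ s, (s = 1 ∨ s = -1) → (∀ v, w a s v ≠ 0 → v ∈ U a) ∧ ∑ v, w a s v = 1)
    {η : V → ℤ} (hη : ∀ v, η v = 1 ∨ η v = -1)
    (htot : ∑ u ∈ ends p, chm μ p u + ∑ a ∈ Rm, (η a : ℝ) = 0) {b : ℝ}
    (hb : 2 / 5 * (1 / 2 ^ jm) + 1 / 2 ^ j ≤ b)
    (hthin : ∀ Z, RF G S Z → k ≤ dd G Z →
      |∑ u ∈ ends p, chm μ p u * ∑ v ∈ Z, wmm μ π p jm u v +
        ∑ a ∈ Rm, (η a : ℝ) * ∑ v ∈ Z, w a (η a) v| ≤ b * dd G Z) :
    (∑ v, ∑ u ∈ ends p, chm μ p u * wmm μ π p jm u v + ∑ a ∈ Rm, (η a : ℝ) = 0) ∧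
    ∀ R, Region S R → ∀ X ⊆ R,
      |∑ a ∈ Rm, (η a : ℝ) * ∑ v ∈ X, w a (η a) v +
        ∑ v ∈ X, ∑ u ∈ ends p, chm μ p u * wmm μ π p jm u v| ≤ b * dd G X := by
  classical
  have hνX : ∀ X : Finset V, ∑ v ∈ X, ∑ u ∈ ends p, chm μ p u * wmm μ π p jm u v =
      ∑ u ∈ ends p, chm μ p u * ∑ v ∈ X, wmm μ π p jm u v := by
    intro X
    rw [sum_comm]
    exact sum_congr rfl fun u _ => (mul_sum _ _ _).symm
  have hνt : ∑ v, ∑ u ∈ ends p, chm μ p u * wmm μ π p jm u v = ∑ u ∈ ends p, chm μ p u := by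
    rw [hνX]
    exact sum_congr rfl fun u hu => by rw [wmm_total hW hd hu, mul_one]
  refine ⟨by rw [hνt]; exact htot, fun R hR X hX => ?_⟩
  set σ : V → ℝ := fun v => ∑ a ∈ Rm, (η a : ℝ) * w a (η a) v +
    ∑ u ∈ ends p, chm μ p u * wmm μ π p jm u v with hσ
  have hσX : ∀ X : Finset V, ∑ v ∈ X, σ v = ∑ a ∈ Rm, (η a : ℝ) * ∑ v ∈ X, w a (η a) v +
      ∑ v ∈ X, ∑ u ∈ ends p, chm μ p u * wmm μ π p jm u v := by
    intro X
    rw [hσ, sum_add_distrib]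
    congr 1
    rw [sum_comm]
    exact sum_congr rfl fun u _ => (mul_sum _ _ _).symm
  have h0 : ∑ v, σ v = 0 := by
    rw [hσX, hνt]
    have h1 : ∑ a ∈ Rm, (η a : ℝ) * ∑ v, w a (η a) v = ∑ a ∈ Rm, (η a : ℝ) :=
      sum_congr rfl fun a ha => by rw [(hw2 a (hRm ha) _ (hη a)).2, mul_one]
    rw [h1]
    linarith
  have h1 := rf_close h3 hbr hc S h0 (b := b) (fun v => ?_) (fun Z hZ hk => ?_) R hR X hX
  · rw [hσX] at h1
    exact h1
  · rw [hσ]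
    refine (abs_add_le _ _).trans ?_
    have e1 := reserve_small hRm hU hw0 hw1 hw2 hη v
    have e2 := omega_small (μ := μ) (π := π) hp hpD hW hd v
    linarith
  · rw [hσX, hνX, add_comm]
    exact hthin Z hZ hk

/-- The signs of all defects but a few: fixed signs on `Rm`, which balance the charge `ν`. -/
theorem box_e {r : ℕ} {S : Fin r → Finset V} {D Rm : Finset V} (hRm : Rm ⊆ D)
    (hev : Even (D \ Rm).card) {η : V → ℤ} (hη : ∀ v, η v = 1 ∨ η v = -1)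
    {w : V → ℤ → V → ℝ} {ν : V → ℝ} {b b₁ b₂ : ℝ} (hb : b₁ + b₂ ≤ b)
    (htot : ∑ v, ν v + ∑ a ∈ Rm, (η a : ℝ) = 0)
    (hmark : ∀ R, Region S R → ∀ X ⊆ R,
      |∑ a ∈ Rm, (η a : ℝ) * ∑ v ∈ X, w a (η a) v + ∑ v ∈ X, ν v| ≤ b₂ * dd G X)
    (hsig : ∀ T ⊆ D, Even T.card → ∃ ε : V → ℤ, (∀ v, ε v = 1 ∨ ε v = -1) ∧ ∑ a ∈ T, ε a = 0 ∧
      ∀ R, Region S R → ∀ X ⊆ R,
        |∑ a ∈ T, (ε a : ℝ) * ∑ v ∈ X, w a (ε a) v| ≤ b₁ * dd G X) :
    ∀ T ⊆ D, Rm ⊆ T → Even (D \ T).card →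
      ∃ ε : V → ℤ, (∀ v, ε v = 1 ∨ ε v = -1) ∧ ((∑ a ∈ T, ε a : ℤ) : ℝ) + ∑ v, ν v = 0 ∧
        ∀ R, Region S R → ∀ X ⊆ R,
          |∑ a ∈ T, (ε a : ℝ) * ∑ v ∈ X, w a (ε a) v + ∑ v ∈ X, ν v| ≤ b * dd G X := by
  classical
  intro T hTD hRT hTe
  have he : Even (T \ Rm).card := by
    have h1 : (D \ Rm).card = (D \ T).card + (T \ Rm).card := by
      rw [← card_union_of_disjoint]
      · congr 1
        ext v
        simp only [mem_union, mem_sdiff]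
        constructor
        · rintro ⟨h1, h2⟩
          by_cases h : v ∈ T
          · exact Or.inr ⟨h, h2⟩
          · exact Or.inl ⟨h1, h⟩
        · rintro (⟨h1, h2⟩ | ⟨h1, h2⟩)
          · exact ⟨h1, fun h => h2 (hRT h)⟩
          · exact ⟨hTD h1, h2⟩
      · rw [Finset.disjoint_left]
        intro v h1 h2
        exact (mem_sdiff.1 h1).2 (mem_sdiff.1 h2).1
    rw [h1] at hev
    exact (Nat.even_add.1 hev).1 hTe
  obtain ⟨ε₀, h1, h2, h4⟩ := hsig (T \ Rm) (sdiff_subset.trans hTD) he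
  set ε : V → ℤ := fun v => if v ∈ Rm then η v else ε₀ v with hε
  have e1 : ∀ v ∈ Rm, ε v = η v := fun v hv => if_pos hv
  have e2 : ∀ v ∈ T \ Rm, ε v = ε₀ v := fun v hv => if_neg (mem_sdiff.1 hv).2
  have hsplit : ∀ f : V → ℝ, ∑ a ∈ T, f a = ∑ a ∈ T \ Rm, f a + ∑ a ∈ Rm, f a := fun f =>
    (sum_sdiff hRT).symm
  refine ⟨ε, fun v => ?_, ?_, fun R hR X hX => ?_⟩
  · rw [hε]
    dsimp only
    split_ifs
    · exact hη v
    · exact h1 v
  · have h5 : ∑ a ∈ T, (ε a : ℝ) = ∑ a ∈ Rm, (η a : ℝ) := by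
      rw [hsplit, sum_congr rfl fun a ha => by rw [e2 a ha],
        sum_congr (s₁ := Rm) rfl fun a ha => by rw [e1 a ha]]
      have h6 : ∑ a ∈ T \ Rm, (ε₀ a : ℝ) = ((∑ a ∈ T \ Rm, ε₀ a : ℤ) : ℝ) := by push_cast; rfl
      rw [h6, h2]
      simp
    push_cast
    rw [h5]
    linarith
  · rw [hsplit, sum_congr rfl fun a ha => by rw [e2 a ha],
      sum_congr (s₁ := Rm) rfl fun a ha => by rw [e1 a ha], add_assoc]
    refine (abs_add_le _ _).trans ?_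
    have h5 := h4 R hR X hX
    have h6 := hmark R hR X hX
    have h7 : (0 : ℝ) ≤ dd G X := Nat.cast_nonneg _
    have h8 := mul_le_mul_of_nonneg_right hb h7
    linarith

/-- The marked edges of a cut. -/
theorem marked_cut {p : V → V → ℝ} (hp : Marks G p) (X : Finset V) :
    (∑ v ∈ X, ∑ u ∈ Xᶜ, |p v u|) / 2 ≤ 2 / 5 * ((dd G X : ℝ) - dM G p X) ∧ dM G p X ≤ dd G X := by
  classical
  set E₀ : Finset (V × V) := (univ : Finset (V × V)).filter fun e =>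
    e.1 ∈ X ∧ e.2 ∉ X ∧ G.Adj e.1 e.2 ∧ p e.1 e.2 = 0 with hE₀
  set E₁ : Finset (V × V) := (univ : Finset (V × V)).filter fun e =>
    e.1 ∈ X ∧ e.2 ∉ X ∧ G.Adj e.1 e.2 ∧ p e.1 e.2 ≠ 0 with hE₁
  have hdis : Disjoint E₀ E₁ := by
    rw [Finset.disjoint_left]
    intro e h1 h2
    exact (mem_filter.1 h2).2.2.2.2 (mem_filter.1 h1).2.2.2.2
  have hun : cut G X = E₀ ∪ E₁ := by
    ext e
    rw [mem_union, mem_cut, hE₀, hE₁, mem_filter, mem_filter]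
    constructor
    · rintro ⟨h1, h2, h3⟩
      by_cases h : p e.1 e.2 = 0
      · exact Or.inl ⟨mem_univ _, h1, h2, h3, h⟩
      · exact Or.inr ⟨mem_univ _, h1, h2, h3, h⟩
    · rintro (⟨-, h1, h2, h3, -⟩ | ⟨-, h1, h2, h3, -⟩) <;> exact ⟨h1, h2, h3⟩
  have hM : dM G p X = E₀.card := by rw [hE₀]; unfold dM; congr
  have hcard : dd G X = dM G p X + E₁.card := by
    rw [hM, ← card_union_of_disjoint hdis, ← hun]
    rfl
  have hsum : ∑ v ∈ X, ∑ u ∈ Xᶜ, |p v u| ≤ 4 / 5 * E₁.card := by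
    rw [← sum_product']
    have h1 : ∑ e ∈ X ×ˢ Xᶜ, |p e.1 e.2| = ∑ e ∈ E₁, |p e.1 e.2| := by
      symm
      refine sum_subset ?_ ?_
      · intro e he
        rw [hE₁, mem_filter] at he
        rw [mem_product, mem_compl]
        exact ⟨he.2.1, he.2.2.1⟩
      · intro e he hne
        rw [mem_product, mem_compl] at he
        by_contra h
        have h' : p e.1 e.2 ≠ 0 := fun h0 => h (by rw [h0, abs_zero])
        exact hne (by rw [hE₁, mem_filter]; exact ⟨mem_univ _, he.1, he.2, hp.adj _ _ h', h'⟩)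
    rw [h1]
    calc ∑ e ∈ E₁, |p e.1 e.2| ≤ ∑ _e ∈ E₁, (4 / 5 : ℝ) := by
          refine sum_le_sum fun e he => ?_
          rw [hE₁, mem_filter] at he
          rcases hp.val _ _ he.2.2.2.2 with h | h <;> rw [h] <;> norm_num
      _ = 4 / 5 * E₁.card := by rw [sum_const, nsmul_eq_mul, mul_comm]
  have hcr : (dd G X : ℝ) = dM G p X + E₁.card := by exact_mod_cast hcard
  exact ⟨by rw [hcr]; linarith, by omega⟩

end Pool.Agent.K5
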