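import Mathlib
import Pool.Agent.Work.MP_974d84_co_k5.Words
import Pool.Agent.Work.MP_974d84_co_k5.NumW4
import Pool.Agent.Work.MP_974d84_co_k5.BitsLocal
import Pool.Agent.Work.MP_974d84_co_k5.PatternB

/-!
# Route W, W4: the pattern
-/

set_option linter.unusedSectionVars false

namespace Pool.Agent.K5

open Finset SimpleGraph Pool.Agent.Exp Pool.Agent.Log5 Pool.Agent.Log5.Clu Pool.Agent.K5.PW

open Classical in
/-- The bad events of a start `a`. -/
def PW.badE {V : Type} [Fintype V] [DecidableEq V] (μ : V → V) (π : Equiv.Perm V) (J q : ℕ)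
    (A : Finset V) (e : V × Option Bool) (x : V → Bool) : Prop :=
  e.1 ∈ A ∧ match e.2 with
    | none => ∀ j < q, itw π A j e.1 ∉ Dfc π A (yb π A x)
    | some b => ¬ ∃ c, 1 ≤ c ∧ c ≤ 2 * q ∧ yb π A x ((π ^ c) e.1) = sgb b ∧
        Fav μ π J (yb π A x) (sgb b) ((π ^ (c - 1)) e.1) ∧
        Fav μ π J (yb π A x) (sgb b) ((π ^ c) e.1)

/-- W4 -/
theorem exists_pattern (J R c : ℕ) (hR : 2 * J + 1 ≤ R) : ∃ q : ℕ, 1 ≤ q ∧ ∃ M k₀ : ℕ,
    ∀ {V : Type} [Fintype V] [DecidableEq V] (G : SimpleGraph V) [DecidableRel G.Adj] {μ : V → V}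
    {π : Equiv.Perm V}, Frame G μ π → Gir G k₀ → ∀ A : Finset V, Win G π R q (c * q ^ 2) A →
    ∃ y : V → ℤ, Pattern μ π J q M A y := by
  obtain ⟨q, hq1, hn1, hn2⟩ := num_w4 (2 * (lsts J).card) (72 * 2 ^ R) c
  set B := c * q ^ 2 with hB
  set N := (q + 1) * B + 1 with hN
  refine ⟨q, hq1, 2 * (q * B) + 1, 4 * q + 2 * B + q * B + 4 * J + 20, ?_⟩
  intro V _ _ G _ μ π hf hg A hA
  classical
  have hpow : ∀ v n, 0 < n → n ≤ 2 * q + q * B → (π ^ n) v ≠ v := fun v n h1 h2 =>
    pow_ne hf hg h1 (by omega) v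
  have hd : ∀ v, ∃ n, (π ^ n) v ∈ A := fun v => by
    obtain ⟨n, -, h⟩ := hA.dense v
    exact ⟨n, h⟩
  have hfw : ∀ v, fw π A v + 1 ≤ B := fun v => fw_lt (hA.dense (π v))
  have hwf : ∀ a ∈ A, ∀ j, 1 ≤ j → j ≤ 2 * q → (π ^ j) a ∉ A := fun a ha =>
    window_free hA (fun v n h1 h2 => hpow v n h1 (by omega)) ha
  have hwin : ∀ a ∈ A, ∀ x : V → Bool, ∀ j ≤ 2 * q,
      yb π A x ((π ^ j) a) = (-1) ^ j * yb π A x a := fun a ha x =>
    yb_window x hd (hwf a ha)
  have hu : ∀ (a b : V) (i j m n : ℕ) (c d : List Bool), i ≤ 2 * q → j ≤ 2 * q → m ≤ B →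
      n ≤ B → c.length < J → d.length < J → (π ^ m) b = TT μ π ((π ^ i) a) c →
      (π ^ n) b = TT μ π ((π ^ j) a) d → i = j ∧ m = n ∧ c = d := by
    intro a b i j m n c d h1 h2 h3 h4 h5 h6 h7 h8
    exact tree_uniq hf hg (by omega) h7 h8
  -- coordinates
  have hN1 : ∀ n, n ≤ q * B → n < N := by
    intro n hn
    rw [hN, add_mul]
    omega
  have hBN : ∀ n, n ≤ B → n < N := by
    intro n hn
    rw [hN, add_mul]
    omega
  have hzU : ∀ a, ∀ v ∈ zone G π R q a, ew π A v ∈ Ub G π R q N a := by
    intro a v hv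
    rw [mem_Ub]
    exact ⟨fw π A v + 1, hBN _ (hfw v), v, hv, ew_eq.symm⟩
  have hitU : ∀ a j, j ≤ q → itw π A j a ∈ Ub G π R q N a := by
    intro a j hj
    obtain ⟨f, -, -, h3, h4⟩ := exists_times hA.dense a
    rw [mem_Ub]
    exact ⟨f j, hN1 _ ((h3 j).trans (Nat.mul_le_mul_right _ hj)), a, self_zone a, (h4 j).symm⟩
  have hinjit : ∀ a, ∀ i j, i ≤ q → j ≤ q → itw π A i a = itw π A j a → i = j := by
    intro a
    obtain ⟨f, -, h2, h3, h4⟩ := exists_times hA.dense a
    have hmono : StrictMono f := strictMono_nat_of_lt_succ h2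
    have key : ∀ i j, i < j → j ≤ q → itw π A i a ≠ itw π A j a := by
      intro i j hij hj h
      rw [h4, h4] at h
      have h5 := hmono hij
      have h6 := (h3 j).trans (Nat.mul_le_mul_right B hj)
      apply hpow ((π ^ (f i)) a) (f j - f i) (by omega) (by omega)
      rw [← Equiv.Perm.mul_apply, ← pow_add, Nat.sub_add_cancel h5.le]
      exact h.symm
    intro i j hi hj h
    rcases Nat.lt_trichotomy i j with h1 | h1 | h1
    · exact absurd h (key i j h1 hj)
    · exact h1
    · exact absurd h.symm (key j i h1 hi)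
  have hAit : ∀ a ∈ A, ∀ j, itw π A j a ∈ A := by
    intro a ha j
    cases j with
    | zero => exact ha
    | succ j => rw [itw_succ]; exact ew_mem (hd _)
  -- the local lemma
  obtain ⟨x, hx⟩ := exists_bits (I := V) (E := V × Option Bool)
    (fun e => if e.1 ∈ A then Ub G π R q N e.1 else ∅) (badE μ π J q A)
    (by
      intro e x x' hxx hbad
      obtain ⟨ha, hbad⟩ := hbad
      rw [if_pos ha] at hxx
      have hz : ∀ v ∈ zone G π R q e.1, yb π A x v = yb π A x' v := fun v hv =>
        yb_congr (hxx _ (hzU _ v hv))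
      refine ⟨ha, ?_⟩
      cases he : e.2 with
      | none =>
        rw [he] at hbad
        simp only at hbad ⊢
        intro j hj hD
        apply hbad j hj
        unfold Dfc at hD ⊢
        rw [mem_filter] at hD ⊢
        refine ⟨hD.1, ?_⟩
        set z := itw π A j e.1 with hzd
        have h1 : π (π.symm z) ∈ A := by rw [Equiv.apply_symm_apply]; exact hD.1
        have h2 : yb π A x (π.symm z) = yb π A x' (π.symm z) := by
          apply yb_congr
          rw [ew_zero h1, Equiv.apply_symm_apply]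
          exact hxx _ (hitU _ j (by omega))
        have h3 : yb π A x z = yb π A x' z := by
          apply yb_congr
          rw [hzd, ← itw_succ]
          exact hxx _ (hitU _ (j + 1) (by omega))
        rw [h2, h3]
        exact hD.2
      | some b =>
        rw [he] at hbad
        simp only at hbad ⊢
        rintro ⟨c, h1, h2, h3, h4, h5⟩
        apply hbad
        refine ⟨c, h1, h2, ?_, ?_, ?_⟩
        · rw [hz _ (pow_zone h2 _)]; exact h3
        · intro d hd'
          rw [hz _ (TT_zone hf hR (by omega) hd')]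
          exact h4 d hd'
        · intro d hd'
          rw [hz _ (TT_zone hf hR h2 hd')]
          exact h5 d hd')
    (Δ := 3 * N) (m := N * ((2 * q + 1) * (3 * 2 ^ R)))
    (by rw [hN]; omega)
    (by
      rw [hN]
      have : 0 < (2 * q + 1) * (3 * 2 ^ R) := by positivity
      exact Nat.mul_pos (by omega) this)
    (by
      intro z
      have hsub : (univ.filter fun e : V × Option Bool =>
          z ∈ (if e.1 ∈ A then Ub G π R q N e.1 else ∅)) ⊆
          (A.filter fun a => z ∈ Ub G π R q N a) ×ˢ (univ : Finset (Option Bool)) := by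
        intro e he
        rw [mem_filter] at he
        rw [mem_product, mem_filter]
        by_cases ha : e.1 ∈ A
        · rw [if_pos ha] at he
          exact ⟨⟨ha, he.2⟩, mem_univ _⟩
        · rw [if_neg ha] at he
          exact absurd he.2 (notMem_empty _)
      refine (card_le_card hsub).trans ?_
      rw [card_product]
      have h1 := Ub_deg hA (N := N) z
      have h2 : (univ : Finset (Option Bool)).card = 3 := by decide
      rw [h2, mul_comm]
      exact Nat.mul_le_mul_left _ h1)
    (by
      intro e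
      beta_reduce
      split_ifs
      · exact Ub_card hf R q N e.1
      · rw [card_empty]; exact Nat.zero_le _)
    (by
      rintro ⟨a, o⟩
      by_cases ha : a ∈ A
      swap
      · have : (univ.filter fun x => badE μ π J q A (a, o) x) = ∅ := by
          rw [filter_eq_empty_iff]
          intro x _ hb
          exact ha hb.1
        rw [this, card_empty, mul_zero]
        exact Nat.zero_le _
      have hK : 4 * (3 * N) * (N * ((2 * q + 1) * (3 * 2 ^ R))) * 2 =
          72 * 2 ^ R * N ^ 2 * (2 * q + 1) := by ring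
      cases o with
      | none =>
        set S := univ.filter fun x => badE μ π J q A (a, none) x with hS
        have h1 := near_count hd ha (hinjit a) S (by
          intro x hx
          rw [hS, mem_filter] at hx
          exact hx.2.2)
        have h2 : 2 * (4 * (3 * N) * (N * ((2 * q + 1) * (3 * 2 ^ R)))) ≤ 2 ^ q := by
          rw [mul_comm, hK]
          exact hn2
        have h3 : (4 * (3 * N) * (N * ((2 * q + 1) * (3 * 2 ^ R))) * S.card) * 2 ^ (q + 1) ≤
            2 ^ Fintype.card V * 2 ^ (q + 1) := by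
          calc _ = 4 * (3 * N) * (N * ((2 * q + 1) * (3 * 2 ^ R))) * (S.card * 2 ^ (q + 1)) := by
                ring
            _ ≤ 4 * (3 * N) * (N * ((2 * q + 1) * (3 * 2 ^ R))) * (2 * 2 ^ Fintype.card V) :=
                Nat.mul_le_mul_left _ h1
            _ = 2 * (4 * (3 * N) * (N * ((2 * q + 1) * (3 * 2 ^ R)))) * 2 ^ Fintype.card V := by
                ring
            _ ≤ 2 ^ q * 2 ^ Fintype.card V := Nat.mul_le_mul_right _ h2
            _ ≤ 2 ^ (q + 1) * 2 ^ Fintype.card V :=
                Nat.mul_le_mul_right _ (Nat.pow_le_pow_right (by omega) (by omega))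
            _ = 2 ^ Fintype.card V * 2 ^ (q + 1) := by ring
        exact Nat.le_of_mul_le_mul_right h3 (by positivity)
      | some b =>
        set S := univ.filter fun x => badE μ π J q A (a, some b) x with hS
        set m := 2 * (lsts J).card with hm
        have h1 := fav_count (hu a) hfw (hwin a ha) (sgb b) (sgb_cases b) S (by
          intro x hx
          rw [hS, mem_filter] at hx
          exact hx.2.2)
        have h3 : (4 * (3 * N) * (N * ((2 * q + 1) * (3 * 2 ^ R))) * S.card) * (2 ^ m) ^ q ≤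
            2 ^ Fintype.card V * (2 ^ m) ^ q := by
          calc _ = 4 * (3 * N) * (N * ((2 * q + 1) * (3 * 2 ^ R))) * (S.card * (2 ^ m) ^ q) := by
                ring
            _ ≤ 4 * (3 * N) * (N * ((2 * q + 1) * (3 * 2 ^ R))) *
                (2 * (2 ^ Fintype.card V * (2 ^ m - 1) ^ q)) := Nat.mul_le_mul_left _ h1
            _ = (4 * (3 * N) * (N * ((2 * q + 1) * (3 * 2 ^ R))) * 2 * (2 ^ m - 1) ^ q) *
                2 ^ Fintype.card V := by ring
            _ = (72 * 2 ^ R * N ^ 2 * (2 * q + 1) * (2 ^ m - 1) ^ q) * 2 ^ Fintype.card V := by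
                rw [hK]
            _ ≤ (2 ^ m) ^ q * 2 ^ Fintype.card V := Nat.mul_le_mul_right _ hn1
            _ = 2 ^ Fintype.card V * (2 ^ m) ^ q := by ring
        exact Nat.le_of_mul_le_mul_right h3 (by positivity))
  -- a defect after every vertex
  have hnear : ∀ v, ∃ m, 1 ≤ m ∧ m ≤ q * B ∧ (π ^ m) v ∈ Dfc π A (yb π A x) := by
    intro v
    have ha : ew π A v ∈ A := ew_mem (hd _)
    have h1 := hx (ew π A v, none)
    unfold badE at h1
    simp only [not_and, not_forall, not_not] at h1
    obtain ⟨j, hj, hD⟩ := h1 ha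
    obtain ⟨f, -, -, h3, h4⟩ := exists_times hA.dense (ew π A v)
    refine ⟨f j + (fw π A v + 1), by omega, ?_, ?_⟩
    · have h5 : f j ≤ j * B := h3 j
      have h6 := hfw v
      have h7 : j * B + B ≤ q * B := by
        calc j * B + B = (j + 1) * B := by ring
          _ ≤ q * B := Nat.mul_le_mul_right _ hj
      omega
    · rw [pow_add, Equiv.Perm.mul_apply, ← ew_eq, ← h4]
      exact hD
  refine ⟨yb π A x, ⟨yb_sign x, fun v hv => yb_alt x (hd _) hv, ?_, ?_⟩⟩
  · intro a ha s hs
    obtain ⟨b, rfl⟩ : ∃ b, s = sgb b := by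
      rcases hs with h | h
      · exact ⟨true, h⟩
      · exact ⟨false, h⟩
    have h1 := hx (a, some b)
    unfold badE at h1
    simp only [not_and, not_not] at h1
    exact h1 ha
  · intro v
    obtain ⟨m, hm1, hm2, hm3⟩ := hnear v
    obtain ⟨n, hn1', hn2', hn3⟩ := hnear ((π ^ m) v)
    refine ⟨m, n + m, by omega, by omega, hm3, ?_⟩
    rw [pow_add, Equiv.Perm.mul_apply]
    exact hn3

end Pool.Agent.K5
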