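import Mathlib
import Pool.Agent.Work.MP_974d84_co_k5.MainWC
import Pool.Agent.Work.MP_974d84_co_k5.CoresEx
import Pool.Agent.Work.MP_974d84_co_k5.CoreFacts
import Pool.Agent.Work.MP_974d84_co_k5.CritReal
import Pool.Agent.Work.MP_974d84_co_k5.Centres
import Pool.Agent.Work.MP_974d84_co_k5.Frame
import Pool.Agent.Work.MP_974d84_co_k5.Windows
import Pool.Agent.Work.MP_974d84_co_k5.PatternW
import Pool.Agent.Work.MP_974d84_co_k5.SignsW
import Pool.Agent.Work.MP_974d84_co_k5.RegionFam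

/-!
# Route W, W9: circular flow number at most 4 + eps
-/

set_option linter.unusedSectionVars false

namespace Pool.Agent.K5

open Finset SimpleGraph Pool.Agent.Exp Pool.Agent.Log5 Pool.Agent.Log5.Clu

/-- The first constants. -/
theorem constsW {ε : ℝ} (hε : 0 < ε) : ∃ (e θ η b : ℝ) (J : ℕ), 0 < e ∧ 0 < θ ∧ 0 < η ∧ 0 < b ∧
    20 * η ≤ θ ∧ 1 / 2 + 1 / 2 ^ (J + 2) + e / 2 ≤ (4 + ε - 2) / (4 + ε) ∧
    ∀ (j : ℕ) (t : ℝ), 1 / 2 ^ j ≤ θ → t ≤ η → 4 * b + t ≤ 4 * η ∧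
      123 / 100 * (2 * b + t) + 223 / 100 * (2 * b + (1 / 2 ^ j + 4 * θ)) ≤ e := by
  set e : ℝ := ε / (2 * (4 + ε)) with he
  have he0 : 0 < e := by positivity
  obtain ⟨J, hJ⟩ : ∃ J : ℕ, (1 / 2 : ℝ) ^ J < e / 2 :=
    exists_pow_lt_of_lt_one (by positivity) (by norm_num)
  refine ⟨e, e / 40, e / 800, e / 6400, J, he0, by positivity, by positivity, by positivity, ?_,
    ?_, ?_⟩
  · linarith
  · have h1 : (4 + ε - 2) / (4 + ε) = 1 / 2 + e := by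
      rw [he]
      field_simp
      ring
    have h2 : (1 : ℝ) / 2 ^ (J + 2) ≤ (1 / 2) ^ J := by
      rw [one_div_pow]
      exact one_div_le_one_div_of_le (by positivity)
        (pow_le_pow_right₀ (by norm_num) (by omega))
    rw [h1]
    linarith
  · intro j t h1 h2
    constructor <;> linarith

/-- W9, file MainW.lean (assembly, as M17) -/
theorem main_w {ε : ℝ} (hε : 0 < ε) : ∃ k : ℕ, ∀ {V : Type} [Fintype V] [DecidableEq V]
    (G : SimpleGraph V) [DecidableRel G.Adj], (∀ v, G.degree v = 3) → CycConn G k → Gir G k →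
    (∀ A : Finset V, A.Nonempty → Aᶜ.Nonempty → 2 ≤ dd G A) →
    ∀ F : SimpleGraph V, F ≤ G → (∀ v, (F.neighborSet v).ncard = 2) →
    ∃ f : V → V → ℝ, (∀ u v, f u v = - f v u) ∧ (∀ v, ∑ u, f v u = 0) ∧
      (∀ u v, ¬ G.Adj u v → f u v = 0) ∧ ∀ u v, G.Adj u v → 1 ≤ |f u v| ∧ |f u v| ≤ 3 + ε := by
  obtain ⟨e, θ, η, b, J, he, hθ, hη, hb, hηθ, hJe, hnum⟩ := constsW hε
  obtain ⟨j₁, h, C₁, hh, hsig⟩ := signs_w hb
  obtain ⟨κ, C₂, hrf⟩ := rf_count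
  obtain ⟨j₂, hj₂⟩ : ∃ n : ℕ, (1 / 2 : ℝ) ^ n < θ := exists_pow_lt_of_lt_one hθ (by norm_num)
  obtain ⟨j₀, hj₀⟩ : ∃ j : ℕ, j = j₂ + J + j₁ := ⟨_, rfl⟩
  obtain ⟨R, hR⟩ : ∃ R : ℕ, R = 2 * (j₀ + 1) + 2 := ⟨_, rfl⟩
  obtain ⟨c, hc0, hwin⟩ := exists_windows h R hh κ
  obtain ⟨q, hq1, M, k₃, hpat⟩ := exists_pattern J R c (by omega)
  obtain ⟨D₀, hwin⟩ := hwin q hq1 1
  obtain ⟨R', hR'⟩ : ∃ R' : ℕ, R' = M + 2 * q + R := ⟨_, rfl⟩
  obtain ⟨C₃, hcen⟩ := centres hθ hη hηθ R'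
  obtain ⟨C, hC0, hC1, hC2, hC3⟩ : ∃ C : ℝ, 100 ≤ C ∧ C₁ ≤ C ∧ C₂ ≤ C ∧ C₃ ≤ C :=
    ⟨max (max 100 C₁) (max C₂ C₃), (le_max_left _ _).trans (le_max_left _ _),
      (le_max_right _ _).trans (le_max_left _ _), (le_max_left _ _).trans (le_max_right _ _),
      (le_max_right _ _).trans (le_max_right _ _)⟩
  obtain ⟨k₁, N₁, hsig⟩ := hsig C hC1
  obtain ⟨k₂, N₂, hrf⟩ := hrf C hC2
  obtain ⟨k₄, N₄, hcen⟩ := hcen C hC3
  obtain ⟨N, hN⟩ : ∃ N : ℕ, N = N₁ + N₂ + N₄ := ⟨_, rfl⟩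
  obtain ⟨k₅, hfac⟩ := core_facts hC0 N
  obtain ⟨k₆, hk₆⟩ : ∃ n : ℕ, 5 / η < n := exists_nat_gt _
  obtain ⟨k₀, hk₀⟩ : ∃ k₀ : ℕ, k₀ = k₁ + k₂ + D₀ := ⟨_, rfl⟩
  obtain ⟨k, hk⟩ : ∃ k : ℕ, k = k₀ + k₃ + k₄ + k₅ + (k₆ + 1) + (c * q ^ 2 + 2) + (M + 2) +
    (4 * q + 4 * (j₀ + 1) + 20) := ⟨_, rfl⟩
  refine ⟨k, ?_⟩
  intro V _ _ G _ h3 hc hg hbr F hF hF2
  classical
  obtain ⟨μ, π, hf⟩ := exists_frame h3 F hF hF2
  obtain ⟨r, S, hS⟩ := exists_cores G C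
  have hFa := hfac k (by omega) G h3 hc hg S hS
  have hbr1 : ∀ A : Finset V, A.Nonempty → Aᶜ.Nonempty → 1 ≤ dd G A := fun A h1 h2 =>
    (by norm_num : 1 ≤ 2).trans (hbr A h1 h2)
  -- the windows
  set Fam : Finset (Finset V) := univ.filter fun Z => RF G S Z ∧ k₀ ≤ dd G Z with hFam
  obtain ⟨A, hA, hAthin⟩ := hwin G hf (fun v n h1 h2 => pow_ne hf hg h1 (by omega) v) Fam
    (fun Z hZ => by
      rw [hFam, mem_filter] at hZ
      have := hZ.2.2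
      omega)
    (fun v D => by
      by_cases hD : k₂ ≤ D
      · have h1 := hrf N k (by omega) (by omega) G h3 hbr1 hc hg S hS hFa v D
          (Fam.filter fun Z => v ∈ Z ∧ dd G Z = D) hD (fun Z hZ => by
            rw [mem_filter, hFam, mem_filter] at hZ
            exact ⟨hZ.1.2.1, hZ.2.1, hZ.2.2⟩)
        simpa using h1
      · have h1 : (Fam.filter fun Z => v ∈ Z ∧ dd G Z = D) = ∅ := by
          rw [filter_eq_empty_iff]
          rintro Z hZ ⟨-, hZD⟩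
          rw [hFam, mem_filter] at hZ
          have := hZ.2.2
          omega
        rw [h1, card_empty]
        push_cast
        positivity)
  obtain ⟨y, hy⟩ := hpat G hf (fun Z hZ => hg Z (hZ.trans_le (by omega))) A hA
  have hkr : (k₆ : ℝ) ≤ k := by exact_mod_cast (by omega : k₆ ≤ k)
  have hk₆0 : (0 : ℝ) < k₆ := lt_trans (by positivity) hk₆
  have hk5 : 5 / (k : ℝ) ≤ η := by
    rw [div_lt_iff₀ hη] at hk₆
    rw [div_le_iff₀ (lt_of_lt_of_le hk₆0 hkr)]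
    nlinarith
  have hj : (1 : ℝ) / 2 ^ j₀ ≤ θ := by
    refine le_trans ?_ hj₂.le
    rw [one_div_pow]
    exact one_div_le_one_div_of_le (by positivity) (pow_le_pow_right₀ (by norm_num) (by omega))
  obtain ⟨hn1, hn2⟩ := hnum j₀ (5 / k) hj hk5
  obtain ⟨x, hx, hX⟩ := assembleW (J := J) (j₀ := j₀) (R := R) (q := q) (B := c * q ^ 2) (M := M)
    (R' := R') (N := N) (k := k) (C := C) (b := b) (η := η) (θ := θ) (e := e) h3 hc hg hf hA hy
    (by omega) (by omega) (by omega) (by omega) (by omega) hS hFa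
    (by
      obtain ⟨M', β, e1, e2, e3, e4⟩ := hcen N k (by omega) (by omega) G h3 hbr1 hc hg S hS hFa ∅
        (fun i => by simp)
      exact ⟨M', β, e1, fun i g => (e2 i g).1, e3,
        fun i Z h1 h2 _ h4 => e4 i Z h1 h2 (by omega)⟩)
    (fun T hT hTe w hw0 hw1 hw2 =>
      hsig N k (by omega) (by omega) G h3 hbr1 hc hg S hS hFa T hTe (zone G π R q) w
        (fun a _ => ball_sub_zone (by omega) a)
        (fun a ha a' ha' hne => hA.disj a (mem_filter.1 (hT ha)).1 a' (mem_filter.1 (hT ha')).1 hne)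
        hw0 (fun a s v => (hw1 a s v).trans
          (one_div_le_one_div_of_le (by positivity)
            (pow_le_pow_right₀ (by norm_num) (by omega)))) hw2 k₀ (by omega) (by omega)
        (fun Z hZ hkZ => by
          refine le_trans (Nat.mul_le_mul_left _ (card_le_card ?_))
            (hAthin Z (by rw [hFam, mem_filter]; exact ⟨mem_univ _, hZ, hkZ⟩))
          intro a ha
          rw [mem_filter] at ha ⊢
          exact ⟨(mem_filter.1 (hT ha.1)).1, ha.2⟩))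
    hb.le hθ.le hη.le hn1 hn2
  have h5 : 0 < 4 + ε := by linarith
  obtain ⟨f, f1, f2, f3, f4⟩ := crit_real G (r := 4 + ε) (by linarith) h3 x hx (fun X => by
    have h8 : (0 : ℝ) ≤ dd G X := Nat.cast_nonneg _
    have h6 : |∑ v ∈ X, (x v : ℝ)| ≤ (4 + ε - 2) / (4 + ε) * dd G X :=
      (hX X).trans (mul_le_mul_of_nonneg_right hJe h8)
    have h7 := mul_le_mul_of_nonneg_left h6 h5.le
    refine h7.trans (le_of_eq ?_)
    field_simp)
  refine ⟨f, f1, f2, f3, fun u v huv => ?_⟩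
  obtain ⟨g1, g2⟩ := f4 u v huv
  exact ⟨g1, by linarith⟩

end Pool.Agent.K5
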