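import Mathlib
import Pool.Agent.Work.MP_974d84_co_k5.ChargesMod
import Pool.Agent.Work.MP_974d84_co_exp.Grow

/-!
# ROOM BG, E7a: rounding of small charges on disjoint balls
-/

set_option linter.unusedSectionVars false

namespace Pool.Agent.K5

open Finset SimpleGraph Pool.Agent.Exp Pool.Agent.Log5 Pool.Agent.Log5.Clu

variable {V : Type} [Fintype V] [DecidableEq V] {G : SimpleGraph V} [DecidableRel G.Adj]

namespace RB

theorem RW_univ : RW G (univ : Finset V) = G.Adj := by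
  funext u w
  simp [RW]

/-- Balls in a cubic graph of large girth are as large as possible. -/
theorem ball_lower (h3 : ∀ v, G.degree v = 3) {R k : ℕ} (hg : Gir G k) (hk : 3 * 2 ^ R ≤ k)
    (v : V) : ∀ j ≤ R, 3 * 2 ^ j ≤ (Bl G.Adj j v).card + 2 := by
  have hac : ∀ j ≤ R, (G.induce (Bl G.Adj j v : Set V)).IsAcyclic := by
    intro j hj
    refine hg _ ?_
    have h1 := Bl_card G h3 j v
    have h2 : 3 * 2 ^ j ≤ 3 * 2 ^ R :=
      Nat.mul_le_mul_left _ (Nat.pow_le_pow_right (by norm_num) hj)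
    omega
  intro j
  induction j with
  | zero =>
    intro _
    have : (Bl G.Adj 0 v).card = 1 := by
      have h : Bl G.Adj 0 v = {v} := by
        ext w
        rw [mem_Bl_zero, mem_singleton]
      rw [h, card_singleton]
    omega
  | succ j ih =>
    intro hj
    have h0 := ih (by omega)
    have h1 := grow_step G h3 (Z := univ) (mem_univ v) j (by rw [RW_univ]; exact hac j (by omega))
      (by rw [RW_univ]; exact hac (j + 1) hj)
    have h2 : (bd G (univ : Finset V) (Bl (RW G univ) j v)).card = 0 := by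
      rw [card_eq_zero, bd]
      apply filter_eq_empty_iff.2
      intro p hp
      rw [mem_cut] at hp
      exact absurd (mem_univ _) hp.2.1
    rw [h2, RW_univ, add_zero] at h1
    have h4 : 2 ^ (j + 1) = 2 * 2 ^ j := by ring
    omega

end RB

/-- E7a. -/
theorem round_balls {V : Type} [Fintype V] [DecidableEq V] {G : SimpleGraph V}
    [DecidableRel G.Adj] (h3 : ∀ v, G.degree v = 3) {R₁ k : ℕ} (hR₁ : 2 ≤ R₁)
    (hk : 3 * 2 ^ (R₁ + 2) ≤ k) (hc : CycConn G k) (hg : Gir G k) {Γ : Type} [Fintype Γ]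
    [DecidableEq Γ] (β : Γ → V)
    (hd : ∀ g g', g ≠ g' → Disjoint (Bl G.Adj R₁ (β g)) (Bl G.Adj R₁ (β g'))) (y : Γ → ℝ)
    (hy : ∀ g, |y g| ≤ 5 / 4) {m : ℤ} (hm : ∑ g, y g = 2 * m) :
    ∃ n : Γ → ℤ, (∀ g, n g = 0 ∨ n g = 2 ∨ n g = -2) ∧ ∑ g, (y g + n g) = 0 ∧
      ∀ X : Finset V, (∀ g, Bl G.Adj R₁ (β g) ⊆ X ∨ Disjoint (Bl G.Adj R₁ (β g)) X) →
        |∑ g ∈ univ.filter (fun g => Bl G.Adj R₁ (β g) ⊆ X), (y g + n g)| ≤
          1 / 2 ^ R₁ * dd G X := by
  classical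
  have hkR : 3 * 2 ^ R₁ ≤ k := by
    have : 2 ^ R₁ ≤ 2 ^ (R₁ + 2) := Nat.pow_le_pow_right (by norm_num) (by omega)
    omega
  -- an enumeration
  obtain ⟨r, ⟨e⟩⟩ : ∃ r : ℕ, Nonempty (Γ ≃ Fin r) := ⟨_, ⟨Fintype.equivFin Γ⟩⟩
  set S : Fin r → Finset V := fun i => Bl G.Adj R₁ (β (e.symm i)) with hS
  have hSc : ∀ i, 3 * 2 ^ R₁ ≤ (S i).card + 2 := fun i =>
    RB.ball_lower h3 hg hkR _ R₁ le_rfl
  have hSne : ∀ i, (S i).Nonempty := by
    intro i
    rw [← card_pos]
    have := hSc i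
    have h1 : 1 ≤ 2 ^ R₁ := Nat.one_le_two_pow
    omega
  have hSd : ∀ i j, i ≠ j → Disjoint (S i) (S j) := fun i j hij =>
    hd _ _ fun h => hij (e.symm.injective h)
  have hcut : ∀ X : Finset V, Sat S X → (∃ i, S i ⊆ X) → (∃ i, Disjoint (S i) X) →
      3 * 2 ^ R₁ ≤ dd G X := by
    rintro X - ⟨i, hi⟩ ⟨j, hj⟩
    have hj' : S j ⊆ Xᶜ := fun v hv => mem_compl.2 fun h => Finset.disjoint_left.1 hj hv h
    by_cases h1 : (G.induce (X : Set V)).IsAcyclic
    · have h2 := dd_of_acyclic G h3 ((hSne i).mono hi) h1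
      have h4 := card_le_card hi
      have := hSc i
      omega
    · by_cases h2 : (G.induce ((Xᶜ : Finset V) : Set V)).IsAcyclic
      · have h4 := dd_of_acyclic G h3 ((hSne j).mono hj') h2
        rw [dd_compl] at h4
        have h5 := card_le_card hj'
        have := hSc j
        omega
      · exact hkR.trans (hc X h1 h2)
  have hsum : ∀ f : Γ → ℝ, ∑ i, f (e.symm i) = ∑ g, f g := fun f => Equiv.sum_comp e.symm f
  obtain ⟨z, hz0, hz1, hz2⟩ := core_charges_mod G S hSne hSd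
    (k := 3 * 2 ^ R₁) (by positivity) hcut (fun i => 2 * y (e.symm i)) (n := m)
    (by rw [hsum fun g => 2 * y g, ← mul_sum, hm]; ring) (d := 1) one_pos
  refine ⟨fun g => 2 * z (e g), ?_, ?_, ?_⟩
  · intro g
    have h1 := hz1 (e g)
    rw [Equiv.symm_apply_apply] at h1
    have h2 := hy g
    rw [abs_le] at h1 h2
    have h4 : (z (e g) : ℝ) < 2 := by linarith [h1.2, h2.1]
    have h5 : (-2 : ℝ) < z (e g) := by linarith [h1.1, h2.2]
    have h6 : z (e g) < 2 := by exact_mod_cast h4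
    have h7 : -2 < z (e g) := by exact_mod_cast h5
    have h8 : z (e g) = -1 ∨ z (e g) = 0 ∨ z (e g) = 1 := by omega
    show 2 * z (e g) = 0 ∨ 2 * z (e g) = 2 ∨ 2 * z (e g) = -2
    omega
  · rw [sum_add_distrib, hm]
    have h1 : ∑ g, (((2 * z (e g) : ℤ)) : ℝ) = 2 * ((∑ i, z i : ℤ) : ℝ) := by
      push_cast
      rw [← mul_sum]
      congr 1
      exact Equiv.sum_comp e fun i => (z i : ℝ)
    rw [h1, hz0]
    push_cast
    ring
  · intro X hX
    have h1 := hz2 X fun i => hX _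
    have h2 : ∑ i ∈ univ.filter (fun i => S i ⊆ X), (2 * y (e.symm i) + 4 * (z i : ℝ)) =
        2 * ∑ g ∈ univ.filter (fun g => Bl G.Adj R₁ (β g) ⊆ X),
          (y g + ((2 * z (e g) : ℤ) : ℝ)) := by
      rw [mul_sum, sum_filter, sum_filter, ← Equiv.sum_comp e.symm]
      refine sum_congr rfl fun i _ => ?_
      simp only [hS, Equiv.apply_symm_apply]
      split_ifs
      · push_cast
        ring
      · rfl
    rw [h2, abs_mul, abs_of_pos (by norm_num : (0 : ℝ) < 2)] at h1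
    have h4 : ((4 : ℝ) + 1) / ((3 * 2 ^ R₁ : ℕ) : ℝ) ≤ 2 * (1 / 2 ^ R₁) := by
      push_cast
      rw [div_le_iff₀ (by positivity)]
      field_simp
      norm_num
    have h5 : (0 : ℝ) ≤ dd G X := by positivity
    have h6 := mul_le_mul_of_nonneg_right h4 h5
    linarith

end Pool.Agent.K5
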