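import Mathlib
import Pool.Agent.Work.MP_974d84_co_k5.DefsE
import Pool.Agent.Work.MP_974d84_co_k5.PickZone
import Pool.Agent.Work.MP_974d84_co_k5.LossTree
import Pool.Agent.Work.MP_974d84_co_k5.Cores
import Pool.Agent.Work.MP_974d84_co_k5.SmearEx

/-!
# ROOM BG, E7b: comparison of the charges with the rounded charges
-/

set_option linter.unusedSectionVars false
set_option linter.unusedVariables false

namespace Pool.Agent.K5

open Finset SimpleGraph Pool.Agent.Exp Pool.Agent.Log5 Pool.Agent.Log5.Clu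

variable {V : Type} [Fintype V] [DecidableEq V] {G : SimpleGraph V} [DecidableRel G.Adj]

theorem dd_ball_le (h3 : ∀ v, G.degree v = 3) (j : ℕ) (v : V) :
    dd G (Bl G.Adj j v) ≤ 3 * 2 ^ j := by
  have h1 := LS.dd_joined_le h3 (joined_ball (G := G) j v) ⟨v, Bl_self j v⟩
  have h2 := Bl_card G h3 j v
  omega

theorem sigma_core (h3 : ∀ v, G.degree v = 3) {Γ : Type} [Fintype Γ] [DecidableEq Γ]
    {R₁ h jm : ℕ} (hh : 3 * 2 ^ R₁ ≤ h) (β leaf : Γ → V) (W : Γ → Finset V) (y e : Γ → ℝ)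
    (n : Γ → ℤ) (Φ : Γ → ℝ) (Z : Finset V)
    (hβd : ∀ g g', g ≠ g' → Disjoint (Bl G.Adj R₁ (β g)) (Bl G.Adj R₁ (β g')))
    (hWJ : ∀ g, Joined G (W g)) (hWd : ∀ g g', g ≠ g' → Disjoint (W g) (W g'))
    (hlW : ∀ g, leaf g ∈ W g) (hβW : ∀ g, β g ∈ W g) (hy : ∀ g, |y g| ≤ 1 / 2 ^ jm)
    (he : ∀ g, |e g| ≤ 1) (hn : ∀ g, |(n g : ℝ)| ≤ 2)
    (hround : ∀ X : Finset V, (∀ g, Bl G.Adj R₁ (β g) ⊆ X ∨ Disjoint (Bl G.Adj R₁ (β g)) X) →
      |∑ g ∈ univ.filter (fun g => Bl G.Adj R₁ (β g) ⊆ X), (y g + e g + n g)| ≤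
        1 / 2 ^ R₁ * dd G X)
    (hΦ1 : ∀ g, Bl G.Adj R₁ (β g) ⊆ Z → Φ g = n g + e g)
    (hΦ0 : ∀ g, Disjoint (Bl G.Adj R₁ (β g)) Z → Φ g = 0) (hΦ2 : ∀ g, |Φ g| ≤ 3)
    (hZ : h * (univ.filter fun g => Cuts (Bl G.Adj R₁ (β g)) Z).card ≤ dd G Z) :
    |∑ g, ((if leaf g ∈ Z then y g else 0) + Φ g)| ≤
      (1 / 2 ^ jm + 2 / 2 ^ R₁ + 12 / h) * dd G Z := by
  classical
  have hh0 : 0 < h := lt_of_lt_of_le (by positivity) hh
  have hhr : (0 : ℝ) < h := by exact_mod_cast hh0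
  set C : Finset Γ := univ.filter fun g => Cuts (Bl G.Adj R₁ (β g)) Z with hC
  set Z' : Finset V := Z ∪ C.biUnion fun g => Bl G.Adj R₁ (β g) with hZ'
  have hCmem : ∀ g, g ∉ C → Bl G.Adj R₁ (β g) ⊆ Z ∨ Disjoint (Bl G.Adj R₁ (β g)) Z := by
    intro g hg
    by_contra hcon
    exact hg (mem_filter.2 ⟨mem_univ _, hcon⟩)
  -- the cut of the enlarged set
  have hdd : dd G Z' ≤ 2 * dd G Z := by
    have h1 : dd G Z' ≤ dd G Z + dd G (C.biUnion fun g => Bl G.Adj R₁ (β g)) := LS.dd_split _ _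
    have h2 := dd_biUnion (G := G) C (fun g => Bl G.Adj R₁ (β g))
      fun i _ j _ hij => hβd i j hij
    have h4 : ∑ g ∈ C, dd G (Bl G.Adj R₁ (β g)) ≤ ∑ _g ∈ C, h :=
      sum_le_sum fun g _ => (dd_ball_le h3 R₁ (β g)).trans hh
    rw [sum_const, smul_eq_mul, mul_comm] at h4
    omega
  have hballne : ∀ g, β g ∈ Bl G.Adj R₁ (β g) := fun g => Bl_self R₁ (β g)
  -- the position of the balls
  have hsub : ∀ g, g ∉ C → (Bl G.Adj R₁ (β g) ⊆ Z' ↔ Bl G.Adj R₁ (β g) ⊆ Z) := by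
    intro g hg
    constructor
    · intro h1
      rcases hCmem g hg with h2 | h2
      · exact h2
      · exfalso
        have h4 := h1 (hballne g)
        rw [hZ', mem_union, mem_biUnion] at h4
        rcases h4 with h4 | ⟨g', hg', h4⟩
        · exact Finset.disjoint_left.1 h2 (hballne g) h4
        · exact Finset.disjoint_left.1 (hβd g g' fun h5 => hg (h5 ▸ hg')) (hballne g) h4
    · exact fun h1 => h1.trans subset_union_left
  have hgood : ∀ g, Bl G.Adj R₁ (β g) ⊆ Z' ∨ Disjoint (Bl G.Adj R₁ (β g)) Z' := by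
    intro g
    by_cases hg : g ∈ C
    · left
      intro v hv
      rw [hZ', mem_union, mem_biUnion]
      exact Or.inr ⟨g, hg, hv⟩
    · rcases hCmem g hg with h2 | h2
      · exact Or.inl ((hsub g hg).2 h2)
      · right
        rw [hZ', disjoint_union_right]
        refine ⟨h2, ?_⟩
        rw [disjoint_biUnion_right]
        exact fun g' hg' => hβd g g' fun h5 => hg (h5 ▸ hg')
  have hR := hround Z' hgood
  -- the differences
  set s : Γ → ℝ := fun g => if Bl G.Adj R₁ (β g) ⊆ Z' then 1 else 0 with hs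
  have hs01 : ∀ g, s g = 0 ∨ s g = 1 := by
    intro g
    rw [hs]
    dsimp only
    split_ifs
    · exact Or.inr rfl
    · exact Or.inl rfl
  have hsum : ∑ g ∈ univ.filter (fun g => Bl G.Adj R₁ (β g) ⊆ Z'), (y g + e g + n g) =
      ∑ g, s g * (y g + e g + n g) := by
    rw [sum_filter]
    refine sum_congr rfl fun g _ => ?_
    rw [hs]
    dsimp only
    split_ifs <;> ring
  have hdiff : ∀ g, |((if leaf g ∈ Z then y g else 0) + Φ g) - s g * (y g + e g + n g)| ≤
      (if g ∈ C then 12 else 0) + (if ∃ x ∈ W g, ∃ x' ∈ W g, x ∈ Z ∧ x' ∉ Z then 1 / 2 ^ jm else 0) := by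
    intro g
    have hyg := hy g
    have heg := he g
    have hng := hn g
    have hpw : (1 : ℝ) / 2 ^ jm ≤ 1 := by
      rw [div_le_one (by positivity)]
      exact one_le_pow₀ (by norm_num)
    have hpw0 : (0 : ℝ) < 1 / 2 ^ jm := by positivity
    by_cases hg : g ∈ C
    · rw [if_pos hg]
      have h1 : (0 : ℝ) ≤ (if ∃ x ∈ W g, ∃ x' ∈ W g, x ∈ Z ∧ x' ∉ Z then 1 / 2 ^ jm else 0) := by
        split_ifs
        · exact hpw0.le
        · exact le_rfl
      have h2 : |(if leaf g ∈ Z then y g else 0)| ≤ 1 := by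
        split_ifs
        · exact hyg.trans hpw
        · rw [abs_zero]
          norm_num
      have h4 := hΦ2 g
      have h5 : |s g * (y g + e g + n g)| ≤ 4 := by
        rcases hs01 g with h6 | h6
        · rw [h6, zero_mul, abs_zero]
          norm_num
        · rw [h6, one_mul]
          rw [abs_le] at hyg heg hng ⊢
          constructor <;> linarith
      rw [abs_le] at h2 h4 h5 ⊢
      constructor <;> linarith
    · rw [if_neg hg, zero_add]
      have hs' : s g = if Bl G.Adj R₁ (β g) ⊆ Z then 1 else 0 := by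
        rw [hs]
        dsimp only
        by_cases h1 : Bl G.Adj R₁ (β g) ⊆ Z
        · rw [if_pos ((hsub g hg).2 h1), if_pos h1]
        · rw [if_neg fun h2 => h1 ((hsub g hg).1 h2), if_neg h1]
      have hβs : (β g ∈ Z ∧ Bl G.Adj R₁ (β g) ⊆ Z) ∨
          (β g ∉ Z ∧ ¬ Bl G.Adj R₁ (β g) ⊆ Z ∧ Disjoint (Bl G.Adj R₁ (β g)) Z) := by
        rcases hCmem g hg with h2 | h2
        · exact Or.inl ⟨h2 (hballne g), h2⟩
        · exact Or.inr ⟨fun h4 => Finset.disjoint_left.1 h2 (hballne g) h4,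
            fun h4 => Finset.disjoint_left.1 h2 (hballne g) (h4 (hballne g)), h2⟩
      by_cases hl : leaf g ∈ Z
      · rcases hβs with ⟨h1, h2⟩ | ⟨h1, h2, h4⟩
        · rw [hs', if_pos hl, if_pos h2, hΦ1 g h2]
          have h5 : y g + (n g + e g) - 1 * (y g + e g + n g) = 0 := by ring
          rw [h5, abs_zero]
          split_ifs
          · exact hpw0.le
          · exact le_rfl
        · rw [hs', if_pos hl, if_neg h2, hΦ0 g h4,
            if_pos ⟨leaf g, hlW g, β g, hβW g, hl, h1⟩]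
          simpa using hyg
      · rcases hβs with ⟨h1, h2⟩ | ⟨h1, h2, h4⟩
        · rw [hs', if_neg hl, if_pos h2, hΦ1 g h2,
            if_pos ⟨β g, hβW g, leaf g, hlW g, h1, hl⟩]
          have h5 : (0 : ℝ) + (n g + e g) - 1 * (y g + e g + n g) = - y g := by ring
          rw [h5, abs_neg]
          exact hyg
        · rw [hs', if_neg hl, if_neg h2, hΦ0 g h4]
          have h5 : (0 : ℝ) + 0 - 0 * (y g + e g + n g) = 0 := by ring
          rw [h5, abs_zero]
          split_ifs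
          · exact hpw0.le
          · exact le_rfl
  have hWcard : ((univ.filter fun g : Γ => ∃ x ∈ W g, ∃ x' ∈ W g, x ∈ Z ∧ x' ∉ Z).card : ℝ) ≤
      dd G Z := by
    exact_mod_cast zone_card W hWJ hWd Z _ fun g hg => (mem_filter.1 hg).2
  have hCcard : (C.card : ℝ) ≤ dd G Z / h := by
    rw [le_div_iff₀ hhr, mul_comm]
    exact_mod_cast hZ
  have hsplit : ∑ g, ((if leaf g ∈ Z then y g else 0) + Φ g) =
      ∑ g, s g * (y g + e g + n g) +
        ∑ g, (((if leaf g ∈ Z then y g else 0) + Φ g) - s g * (y g + e g + n g)) := by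
    rw [sum_sub_distrib]
    ring
  have hD : |∑ g, (((if leaf g ∈ Z then y g else 0) + Φ g) - s g * (y g + e g + n g))| ≤
      12 * C.card + 1 / 2 ^ jm *
        (univ.filter fun g : Γ => ∃ x ∈ W g, ∃ x' ∈ W g, x ∈ Z ∧ x' ∉ Z).card := by
    refine (abs_sum_le_sum_abs _ _).trans ((sum_le_sum fun g _ => hdiff g).trans (le_of_eq ?_))
    rw [sum_add_distrib, ← sum_filter, ← sum_filter, sum_const, sum_const, nsmul_eq_mul,
      nsmul_eq_mul, filter_mem_eq_inter, univ_inter]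
    ring
  have hR' : |∑ g, s g * (y g + e g + n g)| ≤ 2 / 2 ^ R₁ * dd G Z := by
    rw [← hsum]
    refine hR.trans ?_
    have h1 : (dd G Z' : ℝ) ≤ 2 * dd G Z := by exact_mod_cast hdd
    calc 1 / 2 ^ R₁ * (dd G Z' : ℝ) ≤ 1 / 2 ^ R₁ * (2 * dd G Z) :=
          mul_le_mul_of_nonneg_left h1 (by positivity)
      _ = 2 / 2 ^ R₁ * dd G Z := by ring
  rw [hsplit]
  refine (abs_add_le _ _).trans ?_
  have h7 : (1 : ℝ) / 2 ^ jm *
      (univ.filter fun g : Γ => ∃ x ∈ W g, ∃ x' ∈ W g, x ∈ Z ∧ x' ∉ Z).card ≤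
      1 / 2 ^ jm * dd G Z := mul_le_mul_of_nonneg_left hWcard (by positivity)
  have h8 : (12 : ℝ) * C.card ≤ 12 / h * dd G Z := by
    have : (12 : ℝ) * C.card ≤ 12 * (dd G Z / h) := by linarith
    refine this.trans (le_of_eq ?_)
    ring
  linarith

end Pool.Agent.K5
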