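import Mathlib
import Pool.Agent.Work.MP_974d84_co_k5.DefsE
import Pool.Agent.Work.MP_974d84_co_k5.MainWB
import Pool.Agent.Work.MP_974d84_co_k5.Words
import Pool.Agent.Work.MP_974d84_co_k5.SigmaCore
import Pool.Agent.Work.MP_974d84_co_k5.SigmaA
import Pool.Agent.Work.MP_974d84_co_k5.RoundBalls

/-!
# ROOM BG, E7b: the charges of the marks and of the reserved defects of the clusters
-/

set_option linter.unusedSectionVars false
set_option linter.unusedVariables false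

namespace Pool.Agent.K5

open Finset SimpleGraph Pool.Agent.Exp Pool.Agent.Log5 Pool.Agent.Log5.Clu

variable {V : Type} [Fintype V] [DecidableEq V] {G : SimpleGraph V} [DecidableRel G.Adj]

theorem exists_ofFn_se {n : ℕ} {c : List Bool} (h : c.length = n) :
    ∃ b : Fin n → Bool, List.ofFn b = c := by
  subst h
  exact ⟨c.get, List.ofFn_get c⟩

/-- The charge of the smeared end on a set. -/
theorem sum_wmm_se {μ : V → V} {π : Equiv.Perm V} {p : V → V → ℝ} {jm : ℕ} {u : V}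
    (hinj : ∀ b b' : Fin jm → Bool, TT μ π (rtm μ p u) (List.ofFn b) =
      TT μ π (rtm μ p u) (List.ofFn b') → b = b') (Z : Finset V) :
    ∑ v ∈ Z, wmm μ π p jm u v =
      ∑ b : Fin jm → Bool, if TT μ π (rtm μ p u) (List.ofFn b) ∈ Z then 1 / 2 ^ jm else 0 := by
  classical
  set L : Finset V := univ.image fun b : Fin jm → Bool => TT μ π (rtm μ p u) (List.ofFn b)
    with hL
  have h1 : ∀ v, wmm μ π p jm u v = if v ∈ L then 1 / 2 ^ jm else 0 := by
    intro v
    unfold wmm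
    by_cases hv : v ∈ L
    · rw [if_pos hv, if_pos]
      obtain ⟨b, -, rfl⟩ := mem_image.1 hv
      exact ⟨List.ofFn b, by rw [List.length_ofFn], rfl⟩
    · rw [if_neg hv, if_neg]
      rintro ⟨c, hc, rfl⟩
      obtain ⟨b, rfl⟩ := exists_ofFn_se hc
      exact hv (mem_image.2 ⟨b, mem_univ _, rfl⟩)
  rw [sum_congr rfl fun v _ => h1 v, ← sum_filter]
  have h2 : Z.filter (fun v => v ∈ L) = L.filter fun v => v ∈ Z := by
    ext v
    rw [mem_filter, mem_filter]
    exact and_comm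
  rw [h2, sum_filter, hL, sum_image]
  intro b _ b' _ hbb
  exact hinj b b' hbb

theorem pow_ne_pow_se {μ : V → V} {π : Equiv.Perm V} (hf : Frame G μ π) {k : ℕ} (hg : Gir G k)
    {i j : ℕ} (hij : i < j) (hk : j + 1 < k) (v : V) : (π ^ i) v ≠ (π ^ j) v := by
  intro h
  have h1 : (π ^ (j - i)) ((π ^ i) v) = (π ^ i) v := by
    rw [← Equiv.Perm.mul_apply, ← pow_add]
    have : j - i + i = j := by omega
    rw [this]
    exact h.symm
  exact pow_ne hf hg (n := j - i) (by omega) (by omega) _ h1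

/-- E7b, file SigmaE.lean: the charges of the marks and of the reserved defects of the clusters. -/
theorem sigma_e {V : Type} [Fintype V] [DecidableEq V] {G : SimpleGraph V} [DecidableRel G.Adj]
    (h3 : ∀ v, G.degree v = 3) {k : ℕ} (hc : CycConn G k) (hg : Gir G k)
    {μ : V → V} {π : Equiv.Perm V} (hf : Frame G μ π) {J j₀ jm q R B M R₁ h : ℕ} {b : ℝ}
    (hR₁ : 2 * M + 2 * q + R ≤ R₁) (hR₂ : 2 ≤ R₁) (hk : 3 * 2 ^ (R₁ + 2) ≤ k)
    (hh : 3 * 2 ^ R₁ ≤ h) (hjm : 3 ≤ jm) (hb : 1 / 2 ^ jm + 2 / 2 ^ R₁ + 12 / h ≤ b)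
    {A : Finset V} (hA : Win G π R q B A) {p : V → V → ℝ} (hp : Marks G p)
    (hpD : FarM G (4 * jm + 10) p) {y : V → ℤ} (hy : PatternE μ π J q M A p y)
    {m₀ : ℤ} (hm₀ : ((Dfc π A y).card : ℝ) = ∑ u ∈ ends p, chm μ p u + 2 * m₀)
    {w : V → ℤ → V → ℝ} (w1 : ∀ a s v, 0 ≤ w a s v) (w2 : ∀ a s v, w a s v ≤ 1 / 2 ^ j₀)
    (w3 : ∀ a ∈ Dfc π A y, ∀ s, (s = 1 ∨ s = -1) → (∀ v, w a s v ≠ 0 → v ∈ zone G π R q a) ∧
      ∑ v, w a s v = 1)
    {n₁ : ℕ} (β : V → (Fin jm → Bool) → V) (W : V → (Fin jm → Bool) → Finset V)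
    (hβ : ∀ u ∈ ends p, ∀ b, Joined G (W u b) ∧ TT μ π (rtm μ p u) (List.ofFn b) ∈ W u b ∧
        β u b ∈ W u b ∧ W u b ⊆ Bl G.Adj (2 * jm + n₁) u ∧
        Bl G.Adj R₁ (β u b) ⊆ Bl G.Adj (2 * jm + n₁) u)
    (hβd : ∀ u ∈ ends p, ∀ b, ∀ u' ∈ ends p, ∀ b', (u, b) ≠ (u', b') →
        Disjoint (W u b) (W u' b') ∧ Disjoint (Bl G.Adj R₁ (β u b)) (Bl G.Adj R₁ (β u' b'))) :
    ∃ (Rm : Finset V) (ηm : V → ℤ), Rm ⊆ Dfc π A y ∧ Even (Dfc π A y \ Rm).card ∧
      (∀ v, ηm v = 1 ∨ ηm v = -1) ∧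
      (∀ a ∈ Rm, ∃ u ∈ ends p, zone G π R q a ⊆ Bl G.Adj (2 * jm + n₁) u) ∧
      (∑ u ∈ ends p, chm μ p u + ∑ a ∈ Rm, (ηm a : ℝ) = 0) ∧
      ∀ Z : Finset V, h * ((ends p ×ˢ (univ : Finset (Fin jm → Bool))).filter fun x =>
          Cuts (Bl G.Adj R₁ (β x.1 x.2)) Z).card ≤ dd G Z →
        |∑ u ∈ ends p, chm μ p u * ∑ v ∈ Z, wmm μ π p jm u v +
          ∑ a ∈ Rm, (ηm a : ℝ) * ∑ v ∈ Z, w a (ηm a) v| ≤ b * dd G Z := by
  classical
  set P : Finset (V × (Fin jm → Bool)) := ends p ×ˢ (univ : Finset (Fin jm → Bool)) with hP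
  set bb : {x // x ∈ P} → V := fun g => β g.1.1 g.1.2 with hbb
  set ll : {x // x ∈ P} → V := fun g => TT μ π (rtm μ p g.1.1) (List.ofFn g.1.2) with hll
  set WW : {x // x ∈ P} → Finset V := fun g => W g.1.1 g.1.2 with hWW
  set yy : {x // x ∈ P} → ℝ := fun g => chm μ p g.1.1 / 2 ^ jm with hyy
  have hgm : ∀ g : {x // x ∈ P}, g.1.1 ∈ ends p := fun g => (mem_product.1 g.2).1
  have hpairne : ∀ g g' : {x // x ∈ P}, g ≠ g' → (g.1.1, g.1.2) ≠ (g'.1.1, g'.1.2) :=
    fun g g' hne h => hne (Subtype.ext h)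
  have hbbd : ∀ g g', g ≠ g' → Disjoint (Bl G.Adj R₁ (bb g)) (Bl G.Adj R₁ (bb g')) :=
    fun g g' hne => (hβd _ (hgm g) _ _ (hgm g') _ (hpairne g g' hne)).2
  have hWd : ∀ g g', g ≠ g' → Disjoint (WW g) (WW g') :=
    fun g g' hne => (hβd _ (hgm g) _ _ (hgm g') _ (hpairne g g' hne)).1
  have hWJ : ∀ g, Joined G (WW g) := fun g => (hβ _ (hgm g) _).1
  have hlW : ∀ g, ll g ∈ WW g := fun g => (hβ _ (hgm g) _).2.1
  have hβW : ∀ g, bb g ∈ WW g := fun g => (hβ _ (hgm g) _).2.2.1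
  have hone : ∀ (g g' : {x // x ∈ P}) v, v ∈ Bl G.Adj R₁ (bb g) → v ∈ Bl G.Adj R₁ (bb g') →
      g = g' := by
    intro g g' v h1 h2
    by_contra hne
    exact Finset.disjoint_left.1 (hbbd g g' hne) h1 h2
  have hP2 : (0 : ℝ) < 2 ^ jm := by positivity
  have hpw8 : (1 : ℝ) / 2 ^ jm ≤ 1 / 8 := by
    have h1 : (8 : ℝ) ≤ 2 ^ jm := by
      calc (8 : ℝ) = 2 ^ 3 := by norm_num
        _ ≤ 2 ^ jm := pow_le_pow_right₀ (by norm_num) hjm
    exact one_div_le_one_div_of_le (by norm_num) h1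
  have hyb : ∀ g, |yy g| ≤ 1 / 2 ^ jm := by
    intro g
    have h1 : |chm μ p g.1.1| ≤ 1 := (abs_chm hpD hp g.1.1).trans (by norm_num)
    rw [hyy]
    dsimp only
    rw [abs_div, abs_of_pos hP2]
    exact div_le_div_of_nonneg_right h1 hP2.le
  -- the total charge
  have hcoe : ∀ f : V × (Fin jm → Bool) → ℝ, ∑ g : {x // x ∈ P}, f g.1 = ∑ x ∈ P, f x :=
    fun f => Finset.sum_coe_sort P f
  have hytot : ∑ g, yy g = ∑ u ∈ ends p, chm μ p u := by
    rw [hyy, hcoe fun x => chm μ p x.1 / 2 ^ jm, hP, sum_product]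
    refine sum_congr rfl fun u _ => ?_
    dsimp only
    rw [sum_const, card_univ, nsmul_eq_mul]
    have h1 : Fintype.card (Fin jm → Bool) = 2 ^ jm := by simp
    rw [h1]
    push_cast
    field_simp
  -- the parity
  obtain ⟨E, hE⟩ : ∃ E : Finset {x // x ∈ P}, Even ((Dfc π A y).card + E.card) := by
    by_cases hev : Even (Dfc π A y).card
    · exact ⟨∅, by simpa using hev⟩
    · have hne : Nonempty {x // x ∈ P} := by
        by_contra hcon
        rw [not_nonempty_iff] at hcon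
        apply hev
        have h1 : ∑ g, yy g = 0 := by
          rw [univ_eq_empty, sum_empty]
        rw [hytot] at h1
        rw [h1, zero_add] at hm₀
        have h2 : ((Dfc π A y).card : ℤ) = 2 * m₀ := by exact_mod_cast hm₀
        have h4 : Even ((Dfc π A y).card : ℤ) := ⟨m₀, by rw [h2]; ring⟩
        exact_mod_cast h4
      obtain ⟨g₀⟩ := hne
      refine ⟨{g₀}, ?_⟩
      rw [card_singleton]
      exact (Nat.not_even_iff_odd.1 hev).add_one
  obtain ⟨t, ht⟩ := hE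
  set e : {x // x ∈ P} → ℝ := fun g => if g ∈ E then 1 else 0 with he
  have hetot : ∑ g, e g = E.card := by
    rw [he, ← sum_filter, sum_const, nsmul_eq_mul, mul_one, filter_mem_eq_inter, univ_inter]
  have heb : ∀ g, |e g| ≤ 1 := by
    intro g
    rw [he]
    dsimp only
    split_ifs
    · rw [abs_one]
    · rw [abs_zero]
      norm_num
  have hytot' : ∑ g, (yy g + e g) = 2 * ((t : ℤ) - m₀ : ℤ) := by
    rw [sum_add_distrib, hytot, hetot]
    have h1 : ((Dfc π A y).card : ℝ) + E.card = t + t := by exact_mod_cast ht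
    push_cast
    linarith
  obtain ⟨n, hn, hn0, hround⟩ := round_balls h3 hR₂ hk hc hg bb hbbd (fun g => yy g + e g)
    (fun g => by
      have h1 := hyb g
      have h2 := heb g
      have h4 := h1.trans hpw8
      refine (abs_add_le _ _).trans ?_
      linarith) hytot'
  have hnb : ∀ g, |(n g : ℝ)| ≤ 2 := by
    intro g
    rcases hn g with h1 | h1 | h1 <;> rw [h1] <;> norm_num
  -- the defects of a cluster
  have hkM : 2 * M + 1 < k := by
    have h1 : R₁ + 2 < 2 ^ (R₁ + 2) := Nat.lt_two_pow_self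
    omega
  have hnear : ∀ g : {x // x ∈ P}, ∃ a₁ a₂ a₃, a₁ ≠ a₂ ∧ a₁ ≠ a₃ ∧ a₂ ≠ a₃ ∧
      a₁ ∈ Dfc π A y ∧ a₂ ∈ Dfc π A y ∧ a₃ ∈ Dfc π A y ∧
      zone G π R q a₁ ⊆ Bl G.Adj R₁ (bb g) ∧ zone G π R q a₂ ⊆ Bl G.Adj R₁ (bb g) ∧
      zone G π R q a₃ ⊆ Bl G.Adj R₁ (bb g) := by
    intro g
    obtain ⟨m, m', h1, h2, h4, h5⟩ := hy.near (bb g)
    obtain ⟨l, l', e1, e2, e4, -⟩ := hy.near ((π ^ M) (bb g))
    rw [← Equiv.Perm.mul_apply, ← pow_add] at e4
    refine ⟨(π ^ m) (bb g), (π ^ m') (bb g), (π ^ (l + M)) (bb g),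
      pow_ne_pow_se hf hg h1 (by omega) _, pow_ne_pow_se hf hg (by omega) (by omega) _,
      pow_ne_pow_se hf hg (by omega) (by omega) _, h4, h5, e4, zone_sub hf (by omega),
      zone_sub hf (by omega), zone_sub hf (by omega)⟩
  choose a₁ a₂ a₃ h12 h13 h23 hD1 hD2 hD3 hz1 hz2 hz3 using hnear
  have hself : ∀ a, a ∈ zone G π R q a := fun a => ball_sub_zone (Nat.zero_le _) _ (Bl_self 0 _)
  have hb1 : ∀ g, a₁ g ∈ Bl G.Adj R₁ (bb g) := fun g => hz1 g (hself _)
  have hb2 : ∀ g, a₂ g ∈ Bl G.Adj R₁ (bb g) := fun g => hz2 g (hself _)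
  have hb3 : ∀ g, a₃ g ∈ Bl G.Adj R₁ (bb g) := fun g => hz3 g (hself _)
  have hi1 : Function.Injective a₁ := fun g g' h =>
    hone g g' _ (hb1 g) (by rw [h]; exact hb1 g')
  have hi2 : Function.Injective a₂ := fun g g' h =>
    hone g g' _ (hb2 g) (by rw [h]; exact hb2 g')
  have hi3 : Function.Injective a₃ := fun g g' h =>
    hone g g' _ (hb3 g) (by rw [h]; exact hb3 g')
  have h12' : ∀ g g', a₁ g ≠ a₂ g' := by
    intro g g' h
    have hgg : g = g' := hone g g' _ (hb1 g) (by rw [h]; exact hb2 g')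
    subst hgg
    exact h12 g h
  have h13' : ∀ g g', a₁ g ≠ a₃ g' := by
    intro g g' h
    have hgg : g = g' := hone g g' _ (hb1 g) (by rw [h]; exact hb3 g')
    subst hgg
    exact h13 g h
  have h23' : ∀ g g', a₂ g ≠ a₃ g' := by
    intro g g' h
    have hgg : g = g' := hone g g' _ (hb2 g) (by rw [h]; exact hb3 g')
    subst hgg
    exact h23 g h
  set N : Finset {x // x ∈ P} := univ.filter fun g => n g ≠ 0 with hN
  set Rm : Finset V := N.image a₁ ∪ (N.image a₂ ∪ E.image a₃) with hRm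
  obtain ⟨ηm, hηm⟩ : ∃ ηm : V → ℤ, ∀ v, ηm v =
      if ∃ g, n g = -2 ∧ (v = a₁ g ∨ v = a₂ g) then -1 else 1 := ⟨_, fun v => rfl⟩
  have hη : ∀ v, ηm v = 1 ∨ ηm v = -1 := by
    intro v
    rw [hηm]
    split_ifs
    · exact Or.inr rfl
    · exact Or.inl rfl
  have hη1 : ∀ g, n g ≠ 0 → 2 * ηm (a₁ g) = n g := by
    intro g hg0
    rw [hηm]
    rcases hn g with h1 | h1 | h1
    · exact absurd h1 hg0
    · rw [if_neg, h1]
      · norm_num
      · rintro ⟨g', hg', h2 | h2⟩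
        · rw [hi1 h2, hg'] at h1
          norm_num at h1
        · exact h12' _ _ h2
    · rw [if_pos ⟨g, h1, Or.inl rfl⟩, h1]
      norm_num
  have hη2 : ∀ g, n g ≠ 0 → 2 * ηm (a₂ g) = n g := by
    intro g hg0
    rw [hηm]
    rcases hn g with h1 | h1 | h1
    · exact absurd h1 hg0
    · rw [if_neg, h1]
      · norm_num
      · rintro ⟨g', hg', h2 | h2⟩
        · exact h12' _ _ h2.symm
        · rw [hi2 h2, hg'] at h1
          norm_num at h1
    · rw [if_pos ⟨g, h1, Or.inr rfl⟩, h1]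
      norm_num
  have hη3 : ∀ g, ηm (a₃ g) = 1 := by
    intro g
    rw [hηm, if_neg]
    rintro ⟨g', hg', h2 | h2⟩
    · exact h13' _ _ h2.symm
    · exact h23' _ _ h2.symm
  have hdis1 : Disjoint (N.image a₁) (N.image a₂ ∪ E.image a₃) := by
    rw [Finset.disjoint_left]
    intro v h1 h2
    obtain ⟨g, -, rfl⟩ := mem_image.1 h1
    rcases mem_union.1 h2 with h4 | h4
    · obtain ⟨g', -, hg'⟩ := mem_image.1 h4
      exact h12' g g' hg'.symm
    · obtain ⟨g', -, hg'⟩ := mem_image.1 h4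
      exact h13' g g' hg'.symm
  have hdis2 : Disjoint (N.image a₂) (E.image a₃) := by
    rw [Finset.disjoint_left]
    intro v h1 h2
    obtain ⟨g, -, rfl⟩ := mem_image.1 h1
    obtain ⟨g', -, hg'⟩ := mem_image.1 h2
    exact h23' g g' hg'.symm
  have hsumRm : ∀ F : V → ℝ, ∑ a ∈ Rm, F a =
      ∑ g, ((if n g ≠ 0 then F (a₁ g) + F (a₂ g) else 0) + if g ∈ E then F (a₃ g) else 0) := by
    intro F
    rw [hRm, sum_union hdis1, sum_union hdis2, sum_image fun _ _ _ _ h => hi1 h,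
      sum_image fun _ _ _ _ h => hi2 h, sum_image fun _ _ _ _ h => hi3 h, sum_add_distrib,
      ← sum_filter, ← sum_filter, sum_add_distrib, filter_mem_eq_inter, univ_inter, add_assoc]
  have hcardRm : Rm.card = 2 * N.card + E.card := by
    rw [hRm, card_union_of_disjoint hdis1, card_union_of_disjoint hdis2,
      card_image_of_injective _ hi1, card_image_of_injective _ hi2,
      card_image_of_injective _ hi3]
    ring
  have hRmD : Rm ⊆ Dfc π A y := by
    intro v hv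
    rw [hRm, mem_union, mem_union] at hv
    rcases hv with hv | hv | hv <;> obtain ⟨g, -, rfl⟩ := mem_image.1 hv
    · exact hD1 g
    · exact hD2 g
    · exact hD3 g
  refine ⟨Rm, ηm, hRmD, ?_, hη, ?_, ?_, ?_⟩
  · have h1 := card_le_card hRmD
    rw [card_sdiff_of_subset hRmD, hcardRm]
    rw [hcardRm] at h1
    exact ⟨t - N.card - E.card, by omega⟩
  · intro v hv
    rw [hRm, mem_union, mem_union] at hv
    rcases hv with hv | hv | hv <;> obtain ⟨g, -, rfl⟩ := mem_image.1 hv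
    · exact ⟨_, hgm g, (hz1 g).trans (hβ _ (hgm g) _).2.2.2.2⟩
    · exact ⟨_, hgm g, (hz2 g).trans (hβ _ (hgm g) _).2.2.2.2⟩
    · exact ⟨_, hgm g, (hz3 g).trans (hβ _ (hgm g) _).2.2.2.2⟩
  · rw [← hytot, hsumRm fun a => (ηm a : ℝ), ← sum_add_distrib]
    refine Eq.trans (sum_congr rfl fun g _ => ?_) hn0
    have h1 : (if n g ≠ 0 then (ηm (a₁ g) : ℝ) + (ηm (a₂ g) : ℝ) else 0) = n g := by
      by_cases h0 : n g = 0
      · rw [if_neg (by simpa using h0), h0, Int.cast_zero]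
      · rw [if_pos h0]
        have h2 : (2 : ℝ) * ηm (a₁ g) = n g := by exact_mod_cast hη1 g h0
        have h4 : (2 : ℝ) * ηm (a₂ g) = n g := by exact_mod_cast hη2 g h0
        linarith
    have h2 : (if g ∈ E then (ηm (a₃ g) : ℝ) else 0) = e g := by
      rw [he, hη3]
      norm_num
    rw [h1, h2]
    ring
  · intro Z hZ
    set F : V → ℝ := fun a => (ηm a : ℝ) * ∑ v ∈ Z, w a (ηm a) v with hF
    -- values of `F`
    have hFin : ∀ a ∈ Dfc π A y, ∀ g, zone G π R q a ⊆ Bl G.Adj R₁ (bb g) →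
        Bl G.Adj R₁ (bb g) ⊆ Z → F a = ηm a := by
      intro a ha g hag hgZ
      rw [hF]
      dsimp only
      have h1 : ∑ v ∈ Z, w a (ηm a) v = 1 := by
        rw [← (w3 a ha _ (hη a)).2]
        refine sum_subset (subset_univ _) fun v _ hv => ?_
        by_contra h0
        exact hv (hgZ (hag ((w3 a ha _ (hη a)).1 v h0)))
      rw [h1, mul_one]
    have hFout : ∀ a ∈ Dfc π A y, ∀ g, zone G π R q a ⊆ Bl G.Adj R₁ (bb g) →
        Disjoint (Bl G.Adj R₁ (bb g)) Z → F a = 0 := by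
      intro a ha g hag hgZ
      rw [hF]
      dsimp only
      have h1 : ∑ v ∈ Z, w a (ηm a) v = 0 := by
        refine sum_eq_zero fun v hv => ?_
        by_contra h0
        exact Finset.disjoint_left.1 hgZ (hag ((w3 a ha _ (hη a)).1 v h0)) hv
      rw [h1, mul_zero]
    have hFb : ∀ a ∈ Dfc π A y, |F a| ≤ 1 := by
      intro a ha
      rw [hF]
      dsimp only
      have h1 : 0 ≤ ∑ v ∈ Z, w a (ηm a) v := sum_nonneg fun v _ => w1 a _ v
      have h2 : ∑ v ∈ Z, w a (ηm a) v ≤ 1 := by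
        rw [← (w3 a ha _ (hη a)).2]
        exact sum_le_sum_of_subset_of_nonneg (subset_univ _) fun v _ _ => w1 a _ v
      rw [abs_mul, abs_of_nonneg h1]
      rcases hη a with h4 | h4 <;> rw [h4] at h2 ⊢ <;> simpa using h2
    have hmain := sigma_core h3 hh bb ll WW yy e n
      (fun g => (if n g ≠ 0 then F (a₁ g) + F (a₂ g) else 0) + if g ∈ E then F (a₃ g) else 0) Z
      hbbd hWJ hWd hlW hβW hyb heb hnb hround
      (by
        intro g hgZ
        have h2 : (if g ∈ E then F (a₃ g) else 0) = e g := by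
          rw [hFin _ (hD3 g) g (hz3 g) hgZ, he, hη3]
          norm_num
        have h1 : (if n g ≠ 0 then F (a₁ g) + F (a₂ g) else 0) = n g := by
          by_cases h0 : n g = 0
          · rw [if_neg (by simpa using h0), h0, Int.cast_zero]
          · rw [if_pos h0, hFin _ (hD1 g) g (hz1 g) hgZ, hFin _ (hD2 g) g (hz2 g) hgZ]
            have h2 : (2 : ℝ) * ηm (a₁ g) = n g := by exact_mod_cast hη1 g h0
            have h4 : (2 : ℝ) * ηm (a₂ g) = n g := by exact_mod_cast hη2 g h0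
            linarith
        rw [h1, h2])
      (by
        intro g hgZ
        rw [hFout _ (hD3 g) g (hz3 g) hgZ, hFout _ (hD1 g) g (hz1 g) hgZ,
          hFout _ (hD2 g) g (hz2 g) hgZ]
        simp)
      (by
        intro g
        have h1 := abs_le.1 (hFb _ (hD1 g))
        have h2 := abs_le.1 (hFb _ (hD2 g))
        have h4 := abs_le.1 (hFb _ (hD3 g))
        rw [abs_le]
        split_ifs <;> constructor <;> linarith)
      (by
        refine le_trans (Nat.mul_le_mul_left _ ?_) hZ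
        refine card_le_card_of_injOn (fun g => g.1) ?_ ?_
        · intro g hg
          rw [mem_coe, mem_filter] at hg ⊢
          exact ⟨g.2, hg.2⟩
        · intro g _ g' _ h
          exact Subtype.ext h)
    have hmarks : ∑ u ∈ ends p, chm μ p u * ∑ v ∈ Z, wmm μ π p jm u v =
        ∑ g, if ll g ∈ Z then yy g else 0 := by
      have h1 : ∑ g : {x // x ∈ P}, (if ll g ∈ Z then yy g else 0) =
          ∑ x ∈ P, if TT μ π (rtm μ p x.1) (List.ofFn x.2) ∈ Z then chm μ p x.1 / 2 ^ jm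
            else 0 :=
        hcoe fun x => if TT μ π (rtm μ p x.1) (List.ofFn x.2) ∈ Z then chm μ p x.1 / 2 ^ jm
            else 0
      rw [h1, hP, sum_product]
      refine sum_congr rfl fun u hu => ?_
      rw [sum_wmm_se (fun b b' hbb' => ?_) Z, mul_sum]
      · refine sum_congr rfl fun b _ => ?_
        dsimp only
        split_ifs
        · ring
        · ring
      · by_contra hne
        have h2 := (hβd u hu b u hu b' fun h => hne (Prod.ext_iff.1 h).2).1
        have h4 := (hβ u hu b').2.1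
        rw [← hbb'] at h4
        exact Finset.disjoint_left.1 h2 (hβ u hu b).2.1 h4
    rw [hmarks, hsumRm F, ← sum_add_distrib]
    exact hmain.trans (mul_le_mul_of_nonneg_right hb (Nat.cast_nonneg _))

end Pool.Agent.K5
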