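import Mathlib
import Pool.Agent.Work.MP_974d84_co_k5.MainEA
import Pool.Agent.Work.MP_974d84_co_k5.MainW
import Pool.Agent.Work.MP_974d84_co_k5.ConstE
import Pool.Agent.Work.MP_974d84_co_k5.ParityE
import Pool.Agent.Work.MP_974d84_co_k5.SparseE
import Pool.Agent.Work.MP_974d84_co_k5.ClustersE
import Pool.Agent.Work.MP_974d84_co_k5.SigmaE
import Pool.Agent.Work.MP_974d84_co_k5.AwayMB
import Pool.Agent.Work.MP_974d84_co_k5.PatternEx
import Pool.Agent.Work.MP_974d84_co_k5.FinalE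

/-!
# The extension theorem, E8: cubic graphs with marked edges
-/

set_option linter.unusedSectionVars false
set_option linter.unusedVariables false

namespace Pool.Agent.K5

open Finset SimpleGraph Pool.Agent.Exp Pool.Agent.Log5 Pool.Agent.Log5.Clu

theorem FarM.mono {V : Type} [Fintype V] [DecidableEq V] {G : SimpleGraph V}
    [DecidableRel G.Adj] {D D' : ℕ} {p : V → V → ℝ} (h : FarM G D p) (hD : D' ≤ D) :
    FarM G D' p := fun u v u' v' h1 h2 h4 => h u v u' v' h1 h2 (Bl_mono hD u h4)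

/-- E8: the cubic graph with marked edges. -/
theorem main_e : ∃ D k : ℕ, ∀ {V : Type} [Fintype V] [DecidableEq V] (G : SimpleGraph V)
    [DecidableRel G.Adj], (∀ v, G.degree v = 3) → CycConn G k → Gir G k →
    (∀ A : Finset V, A.Nonempty → Aᶜ.Nonempty → 2 ≤ dd G A) →
    ∀ F : SimpleGraph V, F ≤ G → (∀ v, (F.neighborSet v).ncard = 2) →
    ∀ p : V → V → ℝ, Marks G p → FarM G D p → (∃ t : ℤ, ∑ u, ∑ v, p u v = 4 * t) →
    ∃ x : V → ℤ, (∀ v, x v = 1 ∨ x v = -1) ∧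
      ∀ X : Finset V, |∑ v ∈ X, ((x v : ℝ) + (∑ u, p v u) / 2)| ≤
        3 / 5 * dd G X - (∑ v ∈ X, ∑ u ∈ Xᶜ, |p v u|) / 2 := by
  -- the numbers
  obtain ⟨e, he⟩ : ∃ e : ℝ, e = 2 / 25 := ⟨_, rfl⟩
  obtain ⟨θ, hθ⟩ : ∃ θ : ℝ, θ = 1 / 500 := ⟨_, rfl⟩
  obtain ⟨η, hη⟩ : ∃ η : ℝ, η = 1 / 10000 := ⟨_, rfl⟩
  obtain ⟨b, hb⟩ : ∃ b : ℝ, b = 1 / 80000 := ⟨_, rfl⟩
  have hb0 : 0 < b := by rw [hb]; norm_num
  have hθ0 : 0 < θ := by rw [hθ]; norm_num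
  have hη0 : 0 < η := by rw [hη]; norm_num
  obtain ⟨j₁, h, C₁, hh, hsig⟩ := signs_w (b := b / 2) (by positivity)
  obtain ⟨κ, C₂, hrf⟩ := rf_count
  obtain ⟨j₂, hj₂⟩ := two_pow_small (b := b / 8) (by positivity)
  obtain ⟨n₀, hn₀, hsm⟩ := sigma_small (b := b / 2) (by positivity)
  obtain ⟨k₆, hk₆0, hk₆⟩ := five_div_small hη0
  obtain ⟨j₀, hj₀⟩ : ∃ j : ℕ, j = j₂ + 3 + j₁ := ⟨_, rfl⟩
  obtain ⟨R, hR⟩ : ∃ R : ℕ, R = 2 * (j₀ + 1) + 2 := ⟨_, rfl⟩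
  obtain ⟨c₀, hc0, hwin⟩ := exists_windows h R hh κ
  obtain ⟨c, hcc, haway⟩ := win_away c₀ R (2 * 3 + 4)
  obtain ⟨q, hq1, M, Dp, kp, hpat⟩ := exists_pattern_e 3 R c (by norm_num) (by omega)
  obtain ⟨Dw, hwin⟩ := hwin q hq1 1
  obtain ⟨Da, ka, haway⟩ := haway q hq1
  obtain ⟨R₁, hR₁⟩ : ∃ R₁ : ℕ, R₁ = 2 * M + 2 * q + R + n₀ + 2 := ⟨_, rfl⟩
  obtain ⟨h₁, hh₁⟩ : ∃ h₁ : ℕ, h₁ = 3 * 2 ^ R₁ := ⟨_, rfl⟩
  have hh₁0 : 0 < h₁ := by rw [hh₁]; positivity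
  obtain ⟨n₁, hclu⟩ := exists_clusters h₁ hh₁0 κ R₁
  obtain ⟨jm, hjm⟩ : ∃ jm : ℕ, jm = n₀ + j₂ + 3 := ⟨_, rfl⟩
  obtain ⟨Dz, Dc, kc, hclu⟩ := hclu jm 1
  obtain ⟨R', hR'⟩ : ∃ R' : ℕ, R' = M + 2 * q + R := ⟨_, rfl⟩
  obtain ⟨R'', hR''⟩ : ∃ R'' : ℕ, R'' = R' + (2 * jm + n₁) := ⟨_, rfl⟩
  obtain ⟨C₃, hcen⟩ := centres hθ0 hη0 (by rw [hθ, hη]; norm_num) R''
  obtain ⟨C, hC0, hC1, hC2, hC3⟩ : ∃ C : ℝ, 100 ≤ C ∧ C₁ ≤ C ∧ C₂ ≤ C ∧ C₃ ≤ C :=
    ⟨max (max 100 C₁) (max C₂ C₃), (le_max_left _ _).trans (le_max_left _ _),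
      (le_max_right _ _).trans (le_max_left _ _), (le_max_left _ _).trans (le_max_right _ _),
      (le_max_right _ _).trans (le_max_right _ _)⟩
  obtain ⟨k₁, N₁, hsig⟩ := hsig C hC1
  obtain ⟨k₂, N₂, hrf⟩ := hrf C hC2
  obtain ⟨k₄, N₄, hcen⟩ := hcen C hC3
  obtain ⟨N, hN⟩ : ∃ N : ℕ, N = N₁ + N₂ + N₄ := ⟨_, rfl⟩
  obtain ⟨k₅, hfac⟩ := core_facts hC0 (8 * N)
  obtain ⟨Ds, hspa⟩ := sparse_marks N
  obtain ⟨k₀, hk₀⟩ : ∃ k₀ : ℕ, k₀ = k₁ + k₂ + Dw + Dz := ⟨_, rfl⟩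
  obtain ⟨D, hD⟩ : ∃ D : ℕ, D = Da + Dp + Dc + Ds + (4 * jm + 10) := ⟨_, rfl⟩
  obtain ⟨k, hk⟩ : ∃ k : ℕ, k = k₀ + ka + kp + kc + k₄ + k₅ + k₆ + Ds + (c₀ * q ^ 2 + 2) +
    (4 * q + 4 * (j₀ + 1) + 20) + (8 * jm + 20) + 3 * 2 ^ (R₁ + 2) + (M + 2) := ⟨_, rfl⟩
  refine ⟨D, k, ?_⟩
  intro V _ _ G _ h3 hc hg hbr F hF hF2 p hp hpD ht
  obtain ⟨t, ht⟩ := ht
  classical
  have hgir : ∀ n, n ≤ k → Gir G n := fun n hn Z hZ => hg Z (hZ.trans_le hn)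
  have hbr1 : ∀ A : Finset V, A.Nonempty → Aᶜ.Nonempty → 1 ≤ dd G A := fun A h1 h2 =>
    (by norm_num : 1 ≤ 2).trans (hbr A h1 h2)
  obtain ⟨μ, π, hf⟩ := exists_frame h3 F hF hF2
  obtain ⟨r, S, hS⟩ := exists_cores G C
  have hFa8 := hfac k (by omega) G h3 hc hg S hS
  have hFa : Facts G C N k S :=
    { large := hFa8.large
      joined := hFa8.joined
      bdry := fun i => (Nat.mul_le_mul_right _ (by omega)).trans (hFa8.bdry i)
      ratio := hFa8.ratio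
      light := hFa8.light
      half := hFa8.half
      sep := hFa8.sep }
  have hsp := hspa G h3 (le_refl (8 * N)) (by omega : Ds ≤ k) hg p hp
    (hpD.mono (by omega)) S hS hFa8
  -- the sets which have to be controlled
  set Fam : Finset (Finset V) := univ.filter fun Z => RF G S Z ∧ k₀ ≤ dd G Z with hFam
  have hFam0 : ∀ Z ∈ Fam, k₀ ≤ dd G Z := fun Z hZ => (mem_filter.1 hZ).2.2
  have hFam1 : ∀ v D', ((Fam.filter fun Z => v ∈ Z ∧ dd G Z = D').card : ℝ) ≤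
      (1 : ℕ) * Real.exp (κ * D') := by
    intro v D'
    by_cases hD' : k₂ ≤ D'
    · have h1 := hrf N k (by omega) (by omega) G h3 hbr1 hc hg S hS hFa v D'
        (Fam.filter fun Z => v ∈ Z ∧ dd G Z = D') hD' (fun Z hZ => by
          rw [mem_filter, hFam, mem_filter] at hZ
          exact ⟨hZ.1.2.1, hZ.2.1, hZ.2.2⟩)
      simpa using h1
    · have h1 : (Fam.filter fun Z => v ∈ Z ∧ dd G Z = D') = ∅ := by
        rw [filter_eq_empty_iff]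
        rintro Z hZ ⟨-, hZD⟩
        have := hFam0 Z hZ
        omega
      rw [h1, card_empty]
      push_cast
      positivity
  -- the windows
  obtain ⟨A₀, hA₀, hA₀thin⟩ := hwin G hf (fun v n h1 h2 => pow_ne hf hg h1 (by omega) v) Fam
    (fun Z hZ => (by omega : Dw ≤ k₀).trans (hFam0 Z hZ)) hFam1
  obtain ⟨A, hAdef⟩ : ∃ A, A = awayM G π R q (2 * 3 + 4) p A₀ := ⟨_, rfl⟩
  have hA : Win G π R q (c * q ^ 2) A := by
    rw [hAdef]
    exact haway G hf (hgir _ (by omega)) p hp (hpD.mono (by omega)) A₀ hA₀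
  have hAsub : A ⊆ A₀ := by
    rw [hAdef]
    exact filter_subset _ _
  have hAp : ∀ a ∈ A, ∀ u ∈ ends p, Disjoint (zone G π R q a) (Bl G.Adj (2 * 3 + 4) u) := by
    intro a ha
    rw [hAdef] at ha
    exact (mem_filter.1 ha).2
  have hAz : ∀ a ∈ A, p (π.symm a) a = 0 := by
    intro a ha
    by_contra hne
    have hu : a ∈ ends p := by
      unfold ends
      rw [mem_filter]
      exact ⟨mem_univ _, π.symm a, by rw [hp.symm]; exact hne⟩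
    exact Finset.disjoint_left.1 (hAp a ha a hu) (ball_sub_zone (by omega : 0 ≤ R) a (Bl_self _ _))
      (Bl_self _ _)
  obtain ⟨y, hy⟩ := hpat G hf (hgir _ (by omega)) p hp (hpD.mono (by omega)) A hA hAp
  obtain ⟨m₀, hm₀⟩ := even_dfc_e hf hp hAz hy t ht
  obtain ⟨w, w1, w2, w3, hfin⟩ := final_e (J := 3) (j₀ := j₀ + 1) (jm := jm) (R := R) (q := q)
    (k := k) (D := D) hf (le_refl 3) (by omega) (by omega) (by omega) hg (by omega) (by omega)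
    (by omega) hA hp hpD hAp hy
  -- the clusters
  obtain ⟨β, W, hβ, hβd, hβthin⟩ := hclu G hf (hgir _ (by omega)) p hp (hpD.mono (by omega)) Fam
    (fun Z hZ => (by omega : Dz ≤ k₀).trans (hFam0 Z hZ)) hFam1
  obtain ⟨Rm, ηm, hRm, hRe, hηm, hRz, hRt, hRb⟩ := sigma_e (b := b / 2) (k := k) (h := h₁)
    (R₁ := R₁) (n₁ := n₁) h3 hc hg hf (by omega) (by omega) (by omega) (le_of_eq hh₁.symm)
    (by omega) (hsm jm R₁ h₁ (by omega) (by omega) (le_of_eq hh₁.symm)) hA hp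
    (hpD.mono (by omega)) hy hm₀ w1 w2 w3 β W hβ hβd
  have hDfcA : Dfc π A y ⊆ A := filter_subset _ _
  have hUd : ∀ a ∈ Dfc π A y, ∀ a' ∈ Dfc π A y, a ≠ a' →
      Disjoint (zone G π R q a) (zone G π R q a') := fun a ha a' ha' hne =>
    hA.disj a (hDfcA ha) a' (hDfcA ha') hne
  obtain ⟨htot, hreg⟩ := marks_region (k := k₀) (D := Dfc π A y) (U := zone G π R q) (b := b / 2)
    h3 hbr1 (fun Z h1 h2 => (by omega : k₀ ≤ k).trans (hc Z h1 h2)) S hp hpD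
    (fun u hu b => (hβ u hu b).2.1) (fun u hu b u' hu' b' hne => (hβd u hu b u' hu' b' hne).1)
    hRm hUd w1 w2 w3 hηm hRt (by
      have e1 := hj₂ jm (by omega)
      have e2 := hj₂ (j₀ + 1) (by omega)
      linarith)
    (fun Z hZ hkZ => hRb Z (hβthin Z (by rw [hFam, mem_filter]; exact ⟨mem_univ _, hZ, hkZ⟩)))
  have hbox := box_e (S := S) (b := b) hRm hRe hηm (by linarith : b / 2 + b / 2 ≤ b) htot hreg
    (fun T hT hTe => hsig N k (by omega) (by omega) G h3 hbr1 hc hg S hS hFa T hTe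
      (zone G π R q) w (fun a _ => ball_sub_zone (by omega) a)
      (fun a ha a' ha' hne => hUd a (hT ha) a' (hT ha') hne) w1 (fun a s v => (w2 a s v).trans
        (one_div_le_one_div_of_le (by positivity)
          (pow_le_pow_right₀ (by norm_num) (by omega)))) (fun a ha => w3 a (hT ha)) k₀ (by omega)
      (by omega) (fun Z hZ hkZ => by
        refine le_trans (Nat.mul_le_mul_left _ (card_le_card ?_))
          (hA₀thin Z (by rw [hFam, mem_filter]; exact ⟨mem_univ _, hZ, hkZ⟩))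
        intro a ha
        rw [mem_filter] at ha ⊢
        exact ⟨hAsub (hDfcA (hT ha.1)), ha.2⟩))
  -- the centres
  have hcen' : ∃ (MM : Fin r → ℕ) (γ : (i : Fin r) → Fin (MM i) → V),
      (∀ i, η * gf C (S i).card ≤ MM i) ∧ (∀ i g, Bl G.Adj R' (γ i g) ⊆ S i) ∧
      (∀ i g, Disjoint (Bl G.Adj R' (γ i g)) Rm) ∧
      (∀ i g g', g ≠ g' → Disjoint (Bl G.Adj R' (γ i g)) (Bl G.Adj R' (γ i g'))) ∧
      ∀ i Z, Z ⊆ S i → Joined G Z → 2 * Z.card ≤ (S i).card → k ≤ dd G Z →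
        ((univ.filter fun g => ¬ Disjoint (Bl G.Adj R' (γ i g)) Z).card : ℝ) ≤ θ * dd G Z := by
    obtain ⟨MM, γ, e1, e2, e3, e4⟩ := hcen N k (by omega) (by omega) G h3 hbr1 hc hg S hS hFa
      (ends p) hsp
    have hsub : ∀ v, Bl G.Adj R' v ⊆ Bl G.Adj R'' v := fun v => Bl_mono (by omega) v
    refine ⟨MM, γ, e1, fun i g => (hsub _).trans (e2 i g).1, fun i g => ?_,
      fun i g g' hne => (e3 i g g' hne).mono (hsub _) (hsub _), fun i Z h1 h2 _ h4 => ?_⟩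
    · rw [Finset.disjoint_left]
      intro a ha hRa
      obtain ⟨u, hu, hzu⟩ := hRz a hRa
      have h5 : a ∈ Bl G.Adj (2 * jm + n₁) u :=
        hzu (ball_sub_zone (by omega : 0 ≤ R) a (Bl_self _ _))
      have h6 : u ∈ Bl G.Adj (2 * jm + n₁) a := Bl_symm (fun _ _ h => h.symm) h5
      have h7 : u ∈ Bl G.Adj R'' (γ i g) := by
        rw [hR'']
        exact Bl_comp ha h6
      exact Finset.disjoint_left.1 (e2 i g).2 h7 hu
    · refine le_trans ?_ (e4 i Z h1 h2 (by omega))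
      have : (univ.filter fun g => ¬ Disjoint (Bl G.Adj R' (γ i g)) Z) ⊆
          univ.filter fun g => ¬ Disjoint (Bl G.Adj R'' (γ i g)) Z := by
        intro g hg'
        rw [mem_filter] at hg' ⊢
        exact ⟨mem_univ _, fun hdis => hg'.2 (hdis.mono_left (hsub _))⟩
      exact_mod_cast card_le_card this
  have hpick : ∀ v, ∃ a₁ a₂, a₁ ≠ a₂ ∧ a₁ ∈ Dfc π A y ∧ a₂ ∈ Dfc π A y ∧
      a₁ ∈ zone G π R q a₁ ∧ a₂ ∈ zone G π R q a₂ ∧
      zone G π R q a₁ ⊆ Bl G.Adj R' v ∧ zone G π R q a₂ ⊆ Bl G.Adj R' v := by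
    intro v
    obtain ⟨m, n, hmn, hnM, h1, h2⟩ := hy.near v
    refine ⟨(π ^ m) v, (π ^ n) v, ?_, h1, h2, ball_sub_zone (by omega : 0 ≤ R) _ (Bl_self _ _),
      ball_sub_zone (by omega : 0 ≤ R) _ (Bl_self _ _), zone_sub hf (by omega),
      zone_sub hf (by omega)⟩
    intro heq
    have h4 : (π ^ (n - m)) ((π ^ m) v) = (π ^ m) v := by
      rw [← Equiv.Perm.mul_apply, ← pow_add, Nat.sub_add_cancel hmn.le]
      exact heq.symm
    exact pow_ne hf hg (by omega : 0 < n - m) (by omega) _ h4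
  have hk5 : (5 : ℝ) / k ≤ η := hk₆ k (by omega)
  have hj3 := hj₂ j₀ (by omega)
  obtain ⟨ε, hε, hεX⟩ := assembleE (j₀ := j₀) (R' := R') (N := N) (k := k) (C := C) (b := b)
    (η := η) (θ := θ) (e := e) h3 hc (by omega) hS hFa (D := Dfc π A y) (U := zone G π R q) hUd
    w1 w2 w3 (fun v => ∑ u ∈ ends p, chm μ p u * wmm μ π p jm u v) hRm hcen' hpick hbox hb0.le
    hθ0.le hη0.le (by rw [hb, hη] at *; linarith) (by rw [hb, hη, hθ, he] at *; linarith)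
  obtain ⟨x, hx, hxX⟩ := hfin ε hε
  refine ⟨x, hx, fun X => ?_⟩
  obtain ⟨hm1, hm2⟩ := marked_cut hp X
  have h5 := hxX X
  have h6 := hεX X
  have h7 : ∑ v ∈ X, ∑ u ∈ ends p, chm μ p u * wmm μ π p jm u v =
      ∑ u ∈ ends p, chm μ p u * ∑ v ∈ X, wmm μ π p jm u v := by
    rw [sum_comm]
    exact sum_congr rfl fun u _ => (mul_sum _ _ _).symm
  rw [h7] at h6
  exact crit_arithE (e := e) (by rw [he]; norm_num) (Nat.cast_nonneg _) hm1 (by exact_mod_cast hm2)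
    h5 h6

end Pool.Agent.K5
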