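import Mathlib
import Pool.Agent.Work.MP_974d84_co_k5.MainEB
import Pool.Agent.Work.MP_974d84_co_k5.AwayM
import Pool.Agent.Work.MP_974d84_co_k5.PatternEx
import Pool.Agent.Work.MP_974d84_co_k5.FinalE

/-!
# Room BG, E8: the cubic graph with marked edges (second proof)
-/

namespace Pool.Agent.K5

open Finset SimpleGraph Pool.Agent.Exp Pool.Agent.Log5 Pool.Agent.Log5.Clu

/-- **The cubic graph with marked edges.** -/
theorem main_e_b : ∃ D k : ℕ, ∀ {V : Type} [Fintype V] [DecidableEq V] (G : SimpleGraph V)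
    [DecidableRel G.Adj], (∀ v, G.degree v = 3) → CycConn G k → Gir G k →
    (∀ A : Finset V, A.Nonempty → Aᶜ.Nonempty → 2 ≤ dd G A) →
    ∀ F : SimpleGraph V, F ≤ G → (∀ v, (F.neighborSet v).ncard = 2) →
    ∀ p : V → V → ℝ, Marks G p → FarM G D p → (∃ t : ℤ, ∑ u, ∑ v, p u v = 4 * t) →
    ∃ x : V → ℤ, (∀ v, x v = 1 ∨ x v = -1) ∧
      ∀ X : Finset V, |∑ v ∈ X, ((x v : ℝ) + (∑ u, p v u) / 2)| ≤
        3 / 5 * dd G X - (∑ v ∈ X, ∑ u ∈ Xᶜ, |p v u|) / 2 :=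
  main_e_of (fun c₀ R ρ => win_away c₀ R ρ) (fun J R c hJ hR => exists_pattern_e J R c hJ hR)
    (fun hf _ _ _ _ _ _ _ _ _ h3J hJ hjm hR hg hk hkm hD _ hA _ hp hpD hAp _ hy =>
      final_e hf h3J hJ hjm hR hg hk hkm hD hA hp hpD hAp hy)

end Pool.Agent.K5
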