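import Mathlib
import Pool.Agent.Work.MP_974d84_co_iso.Pick

/-!
# The choice of the sites: abstract form
-/

set_option linter.unusedSectionVars false

namespace Pool.Agent.K5

open Finset SimpleGraph Pool.Agent.Exp Pool.Agent.Log5 Pool.Agent.Log5.Clu Pool.Agent.Iso5

/-- One candidate for every index, so that every set of the family `Fam` splits few balls. Only
the number of the sets of `Fam` with a given size of the boundary and a given vertex matters. -/
theorem pick_abs (h : ℕ) (hh : 0 < h) (κ : ℝ) : ∃ q₁ : ℕ, 0 < q₁ ∧ ∀ q, q₁ ≤ q →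
    ∀ ρ N₀ : ℕ, ∃ D₀ : ℕ,
    ∀ {V : Type} [Fintype V] [DecidableEq V] (G : SimpleGraph V) [DecidableRel G.Adj],
    (∀ v, G.degree v = 3) → ∀ {ι : Type} [Fintype ι] [DecidableEq ι] (u : ι → Fin q → V),
    (∀ i a j b, (i, a) ≠ (j, b) → Disjoint (Bl G.Adj ρ (u i a)) (Bl G.Adj ρ (u j b))) →
    ∀ Fam : Finset (Finset V), (∀ X ∈ Fam, D₀ ≤ dd G X) →
    (∀ (v : V) (D : ℕ), ((Fam.filter fun X => v ∈ X ∧ dd G X = D).card : ℝ) ≤
      N₀ * Real.exp (κ * D)) →
    ∃ t : ι → Fin q, ∀ X ∈ Fam, ∀ A : Finset ι, (∀ i ∈ A, Spl G ρ X (u i (t i))) →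
      h * A.card ≤ dd G X := by
  classical
  set κ' : ℝ := max κ 0 with hκ'
  have hκ0 : 0 ≤ κ' := le_max_right _ _
  obtain ⟨q₁, hq₁⟩ := exists_nat_ge (2 * Real.exp ((κ' + 3) * h))
  have hq₁r : (0 : ℝ) < q₁ := lt_of_lt_of_le (by positivity) hq₁
  refine ⟨q₁, by exact_mod_cast hq₁r, ?_⟩
  intro q hqq ρ₀ N₀
  have hq : 2 * Real.exp ((κ' + 3) * h) ≤ q := hq₁.trans (by exact_mod_cast hqq)
  set ρ : ℕ := ρ₀ + N₀ with hρdef
  obtain ⟨k, hk⟩ := exists_nat_ge (Real.log (3 * 2 ^ ρ * (q : ℝ)) + 1)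
  have hqr : (0 : ℝ) < q := lt_of_lt_of_le (by positivity) hq
  have hq0 : 0 < q := by exact_mod_cast hqr
  have hk' : 3 * 2 ^ ρ * (q : ℝ) ≤ Real.exp k := by
    rw [← Real.log_le_iff_le_exp (by positivity)]
    linarith
  have hk1 : 1 ≤ k := by
    have h1 : (1 : ℝ) ≤ q := by exact_mod_cast hq0
    have h2 : (1 : ℝ) ≤ 2 ^ ρ := one_le_pow₀ (by norm_num)
    have h3 : (1 : ℝ) ≤ 2 ^ ρ * q := one_le_mul_of_one_le_of_one_le h2 h1
    have h4 : 0 ≤ Real.log (3 * 2 ^ ρ * (q : ℝ)) := Real.log_nonneg (by nlinarith)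
    have h5 : (1 : ℝ) ≤ k := by linarith
    exact_mod_cast h5
  refine ⟨k, ?_⟩
  intro V _ _ G _ h3 ι _ _ u hu Fam hFamD hcount
  have : Nonempty (Fin q) := ⟨⟨0, hq0⟩⟩
  let XX : Finset V → Finset (ι × Fin q) := fun S =>
    univ.filter fun p => Spl G ρ₀ S (u p.1 p.2)
  let F : ℕ → Finset (Finset (ι × Fin q)) := fun D => (Fam.filter fun S => dd G S = D).image XX
  let L : Finset ℕ := (range (Fintype.card (V × V) + 1)).filter fun D => k ≤ D
  have hN2 : (N₀ : ℝ) ≤ 2 ^ N₀ := by exact_mod_cast (Nat.lt_two_pow_self (n := N₀)).le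
  have hcount' : ∀ (v : V) (D : ℕ),
      ((Fam.filter fun X => v ∈ X ∧ dd G X = D).card : ℝ) ≤ 2 ^ N₀ * Real.exp (κ' * D) := by
    intro v D
    refine (hcount v D).trans ?_
    refine mul_le_mul hN2 (Real.exp_le_exp.2 ?_) (Real.exp_pos _).le (by positivity)
    exact mul_le_mul_of_nonneg_right (le_max_left _ _) (Nat.cast_nonneg _)
  have hloc : ∀ (D : ℕ) (i : ι), (((F D).filter fun X => ∃ a, (i, a) ∈ X).card : ℝ) ≤
        3 * 2 ^ ρ * (q : ℝ) * Real.exp (κ' * D) := by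
    intro D i
    let P : Finset V := (univ : Finset (Fin q)).biUnion fun a => Bl G.Adj ρ₀ (u i a)
    have hsub : ((F D).filter fun X => ∃ a, (i, a) ∈ X) ⊆
        P.biUnion fun v => (Fam.filter fun X => v ∈ X ∧ dd G X = D).image XX := by
      intro X hX
      obtain ⟨hXF, a, ha⟩ := mem_filter.1 hX
      obtain ⟨S, hS, rfl⟩ := mem_image.1 hXF
      obtain ⟨hS1, hS2⟩ := mem_filter.1 hS
      obtain ⟨x, y, hx, hy, -, h1, h2⟩ := exists_cut_of_spl (mem_filter.1 ha).2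
      exact mem_biUnion.2 ⟨x, mem_biUnion.2 ⟨a, mem_univ _, hx⟩,
        mem_image.2 ⟨S, mem_filter.2 ⟨hS1, h1, hS2⟩, rfl⟩⟩
    have hP : P.card ≤ q * (3 * 2 ^ ρ₀) := by
      refine (card_biUnion_le_card_mul _ _ (3 * 2 ^ ρ₀) ?_).trans (by simp)
      intro a _
      have := Bl_card G h3 ρ₀ (u i a)
      omega
    have hPr : (P.card : ℝ) ≤ q * (3 * 2 ^ ρ₀) := by exact_mod_cast hP
    calc (((F D).filter fun X => ∃ a, (i, a) ∈ X).card : ℝ)
        ≤ ((P.biUnion fun v => (Fam.filter fun X => v ∈ X ∧ dd G X = D).image XX).card : ℝ) := by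
          exact_mod_cast card_le_card hsub
      _ ≤ ∑ v ∈ P, (((Fam.filter fun X => v ∈ X ∧ dd G X = D).image XX).card : ℝ) := by
          exact_mod_cast card_biUnion_le
      _ ≤ ∑ v ∈ P, 2 ^ N₀ * Real.exp (κ' * D) := by
          refine sum_le_sum fun v _ => le_trans ?_ (hcount' v D)
          exact_mod_cast card_image_le
      _ = P.card * (2 ^ N₀ * Real.exp (κ' * D)) := by rw [sum_const, nsmul_eq_mul]
      _ ≤ (q * (3 * 2 ^ ρ₀)) * (2 ^ N₀ * Real.exp (κ' * D)) :=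
          mul_le_mul_of_nonneg_right hPr (by positivity)
      _ = 3 * 2 ^ ρ * (q : ℝ) * Real.exp (κ' * D) := by
          rw [hρdef, pow_add]
          ring
  obtain ⟨a, ha⟩ := choose_local (I := ι) (A := Fin q) L F (fun D => D) (fun D => D / h + 1)
    (fun _ _ => Nat.le_add_left 1 _)
    (by
      intro D _ X hX
      obtain ⟨S, hS, rfl⟩ := mem_image.1 hX
      have hS' := (mem_filter.1 hS).2
      have := spl_card (κ := ι × Fin q) (fun p => u p.1 p.2)
        (fun x y hxy => hu x.1 x.2 y.1 y.2 hxy) S (XX S) fun x hx => (mem_filter.1 hx).2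
      rw [hS'] at this
      exact this)
    (by
      intro i
      refine le_trans (sum_le_sum fun D hD => ?_) (sum_third L fun D hD =>
        hk1.trans (mem_filter.1 hD).2)
      rw [Fintype.card_fin]
      refine le_trans ?_ (pick_num hh (mem_filter.1 hD).2 (by linarith) hq hk')
      have h1 := hloc D i
      refine mul_le_mul_of_nonneg_right (mul_le_mul_of_nonneg_right
        (le_trans (le_of_eq ?_) h1) (by positivity)) (by positivity)
      congr!)
  refine ⟨a, ?_⟩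
  intro S hS A hA
  have hL : dd G S ∈ L := by
    refine mem_filter.2 ⟨mem_range.2 ?_, hFamD S hS⟩
    have : dd G S ≤ Fintype.card (V × V) := card_le_univ _
    omega
  have h1 := ha (dd G S) hL (XX S) (mem_image.2 ⟨S, mem_filter.2 ⟨hS, rfl⟩, rfl⟩)
  have h2 : A ⊆ (univ.filter fun i => (i, a i) ∈ XX S) := by
    intro i hi
    exact mem_filter.2 ⟨mem_univ _, mem_filter.2 ⟨mem_univ _, hA i hi⟩⟩
  have h4 := card_le_card h2
  have h3 : A.card ≤ dd G S / h := by omega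
  calc h * A.card ≤ h * (dd G S / h) := Nat.mul_le_mul_left _ h3
    _ ≤ dd G S := Nat.mul_div_le _ _

end Pool.Agent.K5
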