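import Mathlib
import Pool.Agent.Work.MP_974d84_co_k5.Defs5
import Pool.Agent.Work.MP_974d84_co_k5.PickAbs

/-!
# The choice of the sites for an abstract family
-/

set_option linter.unusedSectionVars false

namespace Pool.Agent.K5

open Finset SimpleGraph Pool.Agent.Exp Pool.Agent.Log5 Pool.Agent.Log5.Clu

/-- One candidate for every index, so that every set of the family splits few balls. -/
theorem pick_x6 (ρ h : ℕ) (hh : 0 < h) (κ : ℝ) : ∃ q D₀ : ℕ, 0 < q ∧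
    ∀ {V : Type} [Fintype V] [DecidableEq V] (G : SimpleGraph V) [DecidableRel G.Adj],
    (∀ v, G.degree v = 3) → ∀ (w : ℕ) (u : Fin w → Fin q → V),
    (∀ i a j b, (i, a) ≠ (j, b) → Disjoint (Bl G.Adj ρ (u i a)) (Bl G.Adj ρ (u j b))) →
    ∀ Fam : Finset (Finset V), (∀ P ∈ Fam, D₀ ≤ dd G P) →
    (∀ v D, ∀ F ⊆ Fam, (∀ P ∈ F, v ∈ P ∧ dd G P = D) → (F.card : ℝ) ≤ Real.exp (κ * D)) →
    ∃ t : Fin w → Fin q, ∀ P ∈ Fam, ∀ A : Finset (Fin w), (∀ i ∈ A, Sp G ρ P (u i (t i))) →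
      h * A.card ≤ dd G P := by
  obtain ⟨q, hq, H⟩ := pick_abs h hh κ
  obtain ⟨D₀, hD⟩ := H q le_rfl ρ 1
  refine ⟨q, D₀, hq, ?_⟩
  intro V _ _ G _ h3 w u hu Fam hFam hcount
  obtain ⟨t, ht⟩ := hD G h3 u hu Fam hFam (by
    intro v D
    have := hcount v D (Fam.filter fun X => v ∈ X ∧ dd G X = D) (filter_subset _ _)
      fun P hP => (mem_filter.1 hP).2
    simpa using this)
  exact ⟨t, ht⟩

end Pool.Agent.K5
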