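import Mathlib
import Pool.Agent.Work.MP_974d84_co_log.Final
import Pool.Agent.Work.MP_974d84_co_k5.Sites

/-!
# Sites of the odd circuits: the general form (candidates, picks and the choice of Theorem R are
hypotheses)
-/

set_option linter.unusedSectionVars false

namespace Pool.Agent.K5

open Finset SimpleGraph Pool.Agent.Exp Pool.Agent.Log5 Pool.Agent.Log5.Clu

/-- The map `ν` for prescribed sites in the odd circuits of the 2-factor. -/
theorem sites_of {V : Type} [Fintype V] [DecidableEq V] {G : SimpleGraph V} [DecidableRel G.Adj]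
    {k : ℕ} (F : SimpleGraph V) (hF : F ≤ G) (hF2 : ∀ v, (F.neighborSet v).ncard = 2) {w : ℕ}
    (C : Fin w → Finset V) (hCd : ∀ i j, i ≠ j → Disjoint (C i) (C j))
    (hCk : ∀ i, k ≤ (C i).card)
    (hC1 : ∀ i, ∃ c : F.ConnectedComponent, Odd c.supp.ncard ∧ ((C i : Finset V) : Set V) = c.supp)
    (hC2 : ∀ c : F.ConnectedComponent, Odd c.supp.ncard →
      ∃ i, ((C i : Finset V) : Set V) = c.supp)
    (t : Fin w → V) (htC : ∀ i, t i ∈ C i) :
    ∃ ν : V → V, (∀ v, ν (ν v) = v) ∧ (∀ v, ν v = v ↔ ∃ i, t i = v) ∧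
      (∀ v, ν v ≠ v → F.Adj v (ν v)) ∧
      ∀ X : Finset V, k * (X.filter fun v => ν v = v).card ≤ X.card + k * dd G X := by
  classical
  set T : Finset V := univ.image t with hT
  have huniq : ∀ i j, t j ∈ C i → j = i := by
    intro i j h
    by_contra hne
    exact Finset.disjoint_left.1 (hCd j i hne) (htC j) h
  obtain ⟨ν, hν1, hν2, hν3⟩ := exists_nu F hF2 T
    (by
      intro c hc
      obtain ⟨i, hi⟩ := hC2 c hc
      refine ⟨t i, ⟨mem_image_of_mem _ (mem_univ _), hi ▸ htC i⟩, ?_⟩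
      rintro v ⟨hv, hvc⟩
      obtain ⟨j, -, rfl⟩ := mem_image.1 hv
      have h1 : t j ∈ C i := by
        have : t j ∈ ((C i : Finset V) : Set V) := hi ▸ hvc
        exact this
      rw [huniq i j h1])
    (by
      intro c hc v hv hvT
      obtain ⟨j, -, rfl⟩ := mem_image.1 hvT
      obtain ⟨c', hc', hj⟩ := hC1 j
      have h1 : t j ∈ c'.supp := hj ▸ htC j
      rw [ConnectedComponent.mem_supp_iff] at h1 hv
      rw [← hv, h1] at hc
      exact hc hc')
  refine ⟨ν, hν1, fun v => ?_, fun v hv => hν3 v fun h => hv ((hν2 v).2 h), fun X => ?_⟩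
  · rw [hν2 v, hT, mem_image]
    simp
  · -- the sites in `X`
    set J := univ.filter fun i => t i ∈ X with hJ
    have hcard : (X.filter fun v => ν v = v).card ≤ J.card := by
      have hsub : (X.filter fun v => ν v = v) ⊆ J.image t := by
        intro v hv
        rw [mem_filter] at hv
        obtain ⟨i, -, rfl⟩ := mem_image.1 ((hν2 v).1 hv.2)
        exact mem_image_of_mem _ (mem_filter.2 ⟨mem_univ _, hv.1⟩)
      exact (card_le_card hsub).trans card_image_le
    set J1 := J.filter fun i => C i ⊆ X with hJ1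
    set J2 := J.filter fun i => ¬ C i ⊆ X with hJ2
    have hsplit : J1.card + J2.card = J.card := card_filter_add_card_filter_not _
    have b1 : k * J1.card ≤ X.card := by
      have h1 : (J1.biUnion C).card = ∑ i ∈ J1, (C i).card :=
        card_biUnion fun i _ j _ hij => hCd i j hij
      have h2 : (J1.biUnion C).card ≤ X.card := card_le_card fun v hv => by
        obtain ⟨i, hi, hvi⟩ := mem_biUnion.1 hv
        exact (mem_filter.1 hi).2 hvi
      have h4 : J1.card * k ≤ ∑ i ∈ J1, (C i).card := by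
        rw [← smul_eq_mul]
        exact card_nsmul_le_sum _ _ _ fun i _ => hCk i
      rw [mul_comm]
      omega
    have b2 : J2.card ≤ dd G X := by
      have hex : ∀ i, ∃ p : V × V, i ∈ J2 →
          p ∈ Pool.Agent.Work.MP_314beb_co.cut G X ∧ p.1 ∈ C i := by
        intro i
        by_cases hi : i ∈ J2
        swap
        · exact ⟨(t i, t i), fun h => absurd h hi⟩
        rw [hJ2, mem_filter, hJ, mem_filter] at hi
        obtain ⟨y, hy, hyX⟩ := Finset.not_subset.1 hi.2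
        obtain ⟨c, -, hc⟩ := hC1 i
        have h1 : t i ∈ c.supp := hc ▸ htC i
        have h2 : y ∈ c.supp := hc ▸ hy
        obtain ⟨p, hp, hpc⟩ := comp_cross hF c h1 h2 hi.1.2 hyX
        refine ⟨p, fun _ => ⟨hp, ?_⟩⟩
        have : p.1 ∈ ((C i : Finset V) : Set V) := hc ▸ hpc
        exact this
      choose p hp using hex
      refine card_le_card_of_injOn p (fun i hi => (hp i hi).1) ?_
      intro i hi j hj hij
      by_contra hne
      have h1 := (hp i hi).2
      have h2 := (hp j hj).2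
      have hij' : p i = p j := hij
      rw [hij'] at h1
      exact Finset.disjoint_left.1 (hCd i j hne) h1 h2
    calc k * (X.filter fun v => ν v = v).card ≤ k * J.card := Nat.mul_le_mul_left _ hcard
      _ = k * J1.card + k * J2.card := by rw [← hsplit]; ring
      _ ≤ X.card + k * dd G X := add_le_add b1 (Nat.mul_le_mul_left _ b2)

/-- The statement of Theorem R for one value of the constants. -/
def RStat (κ R₀ q₀ s₁ k₀ : ℕ) : Prop := ∀ {V : Type} [Fintype V] [DecidableEq V]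
    (G : SimpleGraph V) [DecidableRel G.Adj], (∀ v, G.degree v = 3) → CycConn G k₀ → Gir G k₀ →
    ∀ (w : ℕ) (u : Fin w → Fin q₀ → V) (X : Fin w → Fin q₀ → Finset V),
    (∀ i a, u i a ∈ X i a ∧ X i a ⊆ Bl G.Adj 1 (u i a) ∧ (X i a).card ≤ 3) →
    (∀ i a j b, (i, a) ≠ (j, b) → Disjoint (Bl G.Adj R₀ (u i a)) (Bl G.Adj R₀ (u j b))) →
    ∃ a : Fin w → Fin q₀, ∀ Q : Finset V,
      s₁ ≤ (Q \ univ.biUnion fun i => X i (a i)).card →
      s₁ ≤ (Qᶜ \ univ.biUnion fun i => X i (a i)).card →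
      κ ≤ ds G (univ.biUnion fun i => X i (a i)) Q

/-- The statement of the choice of the picks for one value of the constants. -/
def PStat (ρ h : ℕ) (κ : ℝ) (q D₀ : ℕ) : Prop :=
    ∀ {V : Type} [Fintype V] [DecidableEq V] (G : SimpleGraph V) [DecidableRel G.Adj],
    (∀ v, G.degree v = 3) → ∀ (w : ℕ) (u : Fin w → Fin q → V),
    (∀ i a j b, (i, a) ≠ (j, b) → Disjoint (Bl G.Adj ρ (u i a)) (Bl G.Adj ρ (u j b))) →
    ∀ Fam : Finset (Finset V), (∀ P ∈ Fam, D₀ ≤ dd G P) →
    (∀ v D, ∀ F ⊆ Fam, (∀ P ∈ F, v ∈ P ∧ dd G P = D) → (F.card : ℝ) ≤ Real.exp (κ * D)) →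
    ∃ t : Fin w → Fin q, ∀ P ∈ Fam, ∀ A : Finset (Fin w), (∀ i ∈ A, Sp G ρ P (u i (t i))) →
      h * A.card ≤ dd G P

/-- The statement of the count for one value of the constants. -/
def FStat (κ C : ℝ) (k₀ N₀ : ℕ) : Prop := ∀ N k, N₀ ≤ N → k₀ ≤ k →
    ∀ {V : Type} [Fintype V] [DecidableEq V] (G : SimpleGraph V) [DecidableRel G.Adj],
    (∀ v, G.degree v = 3) → (∀ A : Finset V, A.Nonempty → Aᶜ.Nonempty → 1 ≤ dd G A) →
    CycConn G k → Gir G k → ∀ {r : ℕ} (S : Fin r → Finset V), Cores G C S → Facts G C N k S →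
    ∀ (v : V) (D : ℕ) (F : Finset (Finset V)), k₀ ≤ D →
    (∀ P ∈ F, v ∈ P ∧ Fm G S P ∧ dd G P = D) → (F.card : ℝ) ≤ Real.exp (κ * D)

/-- The sites from the three statements. -/
theorem sites_exact_of {κ a R₀ q₀ s₁ kR q D₀ : ℕ} (hR : RStat κ R₀ q₀ s₁ kR)
    {κ' C : ℝ} {kF NF : ℕ} (hP : PStat 2 80 κ' q D₀) (hFm : FStat κ' C kF NF) :
    ∃ k₀ : ℕ, ∀ N k, NF ≤ N → k₀ ≤ k → ∀ {V : Type} [Fintype V] [DecidableEq V]
    (G : SimpleGraph V) [DecidableRel G.Adj],
    (∀ v, G.degree v = 3) → (∀ A : Finset V, A.Nonempty → Aᶜ.Nonempty → 2 ≤ dd G A) →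
    CycConn G k → Gir G k → ∀ {r : ℕ} (S : Fin r → Finset V), Cores G C S → Facts G C N k S →
    ∀ F : SimpleGraph V, F ≤ G → (∀ v, (F.neighborSet v).ncard = 2) →
    ∃ μ ν : V → V, (∀ v, μ (μ v) = v) ∧ (∀ v, ν (ν v) = v) ∧ (∀ v, G.Adj v (μ v)) ∧
      (∀ v, ν v ≠ v → G.Adj v (ν v)) ∧ (∀ v, μ v ≠ ν v) ∧
      (∀ v v', ν v = v → ν v' = v' → v ≠ v' → Disjoint (Bl G.Adj a v) (Bl G.Adj a v')) ∧
      (∀ X : Finset V, k * (X.filter fun v => ν v = v).card ≤ X.card + k * dd G X) ∧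
      (∀ P, Fm G S P → k₀ ≤ dd G P → ∀ T' : Finset V, (∀ t ∈ T', ν t = t ∧ Sp G 2 P t) →
        80 * T'.card ≤ dd G P) ∧
      ∀ Q D : Finset V, (∀ v, v ∈ D ↔ ∃ t, ν t = t ∧ (v = t ∨ (G.Adj t v ∧ v ≠ μ t))) →
        s₁ ≤ (Q \ D).card → s₁ ≤ (Qᶜ \ D).card → κ ≤ ds G D Q := by
  classical
  set ρ := max (max a R₀) 2 with hρ
  refine ⟨max (max kF D₀) (max kR ((q₀ * q) * (12 * 4 ^ ρ))), ?_⟩
  intro N k hN hk V _ _ G _ h3 hbr hc hg r S hS hFS F hF hF2
  have hkF : kF ≤ k := le_trans (le_trans (le_max_left _ _) (le_max_left _ _)) hk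
  have hkR : kR ≤ k := le_trans (le_trans (le_max_left _ _) (le_max_right _ _)) hk
  have hkq : (q₀ * q) * (12 * 4 ^ ρ) ≤ k :=
    le_trans (le_trans (le_max_right _ _) (le_max_right _ _)) hk
  obtain ⟨w, hw⟩ : ∃ w, {c : F.ConnectedComponent | Odd c.supp.ncard}.ncard = w := ⟨_, rfl⟩
  obtain ⟨C', hCd, hCk, hC1, hC2⟩ := exists_classes hF hF2 hg hw
  obtain ⟨u, huC, hu⟩ := exists_candidates h3 (q := q₀ * q) (R := ρ) C' hCd
    fun i => hkq.trans (hCk i)
  obtain ⟨μ, hμ1, hμ2, hμ3, hμ4⟩ := exists_mu' h3 F hF hF2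
  -- picks
  set e : Fin w × Fin q₀ ≃ Fin (w * q₀) := finProdFinEquiv with he
  set e' : Fin q₀ × Fin q ≃ Fin (q₀ * q) := finProdFinEquiv with he'
  set u' : Fin (w * q₀) → Fin q → V := fun j b => u (e.symm j).1 (e' ((e.symm j).2, b)) with hu'
  have hu'd : ∀ j b j' b', (j, b) ≠ (j', b') →
      Disjoint (Bl G.Adj ρ (u' j b)) (Bl G.Adj ρ (u' j' b')) := by
    intro j b j' b' hne
    refine hu _ _ _ _ fun h => hne ?_
    rw [Prod.mk.injEq] at h
    obtain ⟨h1, h2⟩ := h
    have h3 := e'.injective h2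
    rw [Prod.mk.injEq] at h3
    have h4 : e.symm j = e.symm j' := Prod.ext h1 h3.1
    rw [e.symm.injective h4, h3.2]
  set k₀ := max (max kF D₀) (max kR ((q₀ * q) * (12 * 4 ^ ρ))) with hk₀
  set Fam : Finset (Finset V) := univ.filter fun P => Fm G S P ∧ k₀ ≤ dd G P with hFam
  obtain ⟨b, hb⟩ := hP G h3 (w * q₀) u'
    (fun i a j b hne => Disjoint.mono (Bl_mono (le_max_right _ _) _) (Bl_mono (le_max_right _ _) _)
      (hu'd i a j b hne)) Fam
    (fun P hP => by
      rw [hFam, mem_filter] at hP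
      exact le_trans (le_trans (le_max_right _ _) (le_max_left _ _)) hP.2.2)
    (by
      intro v D F' hF' hvD
      rcases F'.eq_empty_or_nonempty with h0 | ⟨P, hP⟩
      · rw [h0, card_empty, Nat.cast_zero]
        exact (Real.exp_pos _).le
      · refine hFm N k hN hkF G h3 (fun A h1 h2 => le_trans (by norm_num) (hbr A h1 h2)) hc hg S hS
          hFS v D F' ?_ ?_
        · have h1 := hF' hP
          rw [hFam, mem_filter] at h1
          rw [← (hvD P hP).2]
          exact le_trans (le_trans (le_max_left _ _) (le_max_left _ _)) h1.2.2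
        · intro P hP
          have h1 := hF' hP
          rw [hFam, mem_filter] at h1
          exact ⟨(hvD P hP).1, h1.2.1, (hvD P hP).2⟩)
  -- Theorem R
  set u'' : Fin w → Fin q₀ → V := fun i a => u' (e (i, a)) (b (e (i, a))) with hu''
  set X : V → Finset V := fun t => insert t (univ.filter fun v => G.Adj t v ∧ v ≠ μ t) with hX
  have hXmem : ∀ t v, v ∈ X t ↔ (v = t ∨ (G.Adj t v ∧ v ≠ μ t)) := by
    intro t v
    rw [hX, mem_insert, mem_filter]
    simp
  have hX3 : ∀ t, (X t).card ≤ 3 := by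
    intro t
    have h1 : (univ.filter fun v => G.Adj t v ∧ v ≠ μ t) = (G.neighborFinset t).erase (μ t) := by
      ext v
      simp [and_comm]
    have h2 : ((G.neighborFinset t).erase (μ t)).card + 1 = 3 := by
      rw [card_erase_add_one ((mem_neighborFinset _ _ _).2 (hμ2 t)), card_neighborFinset_eq_degree,
        h3 t]
    have h4 := card_insert_le t (univ.filter fun v => G.Adj t v ∧ v ≠ μ t)
    rw [h1] at h4
    rw [hX]
    simp only
    rw [h1]
    omega
  have hu''d : ∀ i a j b, (i, a) ≠ (j, b) →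
      Disjoint (Bl G.Adj ρ (u'' i a)) (Bl G.Adj ρ (u'' j b)) := by
    intro i a j b' hne
    refine hu'd _ _ _ _ fun h => hne ?_
    rw [Prod.mk.injEq] at h
    exact e.injective h.1
  obtain ⟨c, hcR⟩ := hR G h3 (fun A h1 h2 => hkR.trans (hc A h1 h2)) (gir_mono hkR hg) w u''
    (fun i a => X (u'' i a))
    (fun i a => ⟨mem_insert_self _ _, by
      intro v hv
      rw [hXmem] at hv
      rw [mem_Bl_succ, mem_Bl_zero]
      rcases hv with rfl | hv
      · exact Or.inl rfl
      · exact Or.inr ⟨u'' i a, mem_Bl_zero.2 rfl, hv.1⟩, hX3 _⟩)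
    (fun i a j b hne => Disjoint.mono
      (Bl_mono (le_trans (le_max_right _ _) (le_max_left _ _)) _)
      (Bl_mono (le_trans (le_max_right _ _) (le_max_left _ _)) _) (hu''d i a j b hne))
  set t : Fin w → V := fun i => u'' i (c i) with ht
  have htC : ∀ i, t i ∈ C' i := by
    intro i
    have h1 : t i ∈ C' (e.symm (e (i, c i))).1 :=
      huC (e.symm (e (i, c i))).1 (e' ((e.symm (e (i, c i))).2, b (e (i, c i))))
    have h2 : (e.symm (e (i, c i))).1 = i := by rw [Equiv.symm_apply_apply]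
    rwa [h2] at h1
  obtain ⟨ν, hν1, hν2, hν3, hν4⟩ := sites_of F hF hF2 C' hCd hCk hC1 hC2 t htC
  have htd : ∀ i j, i ≠ j → Disjoint (Bl G.Adj ρ (t i)) (Bl G.Adj ρ (t j)) := fun i j hij =>
    hu''d i (c i) j (c j) fun h => hij (Prod.mk.inj h).1
  have hDeq : (univ.biUnion fun i => X (u'' i (c i))) = univ.biUnion fun i => X (t i) := rfl
  refine ⟨μ, ν, hμ1, hν1, hμ2, fun v hv => hF (hν3 v hv), fun v h => ?_,
    fun v v' hv hv' hne => ?_, hν4, fun P hP hPk T' hT' => ?_, fun Q D hD hQ1 hQ2 => ?_⟩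
  · by_cases hv : ν v = v
    · exact (hμ2 v).ne (h.trans hv).symm
    · exact hμ3 v (h ▸ hν3 v hv)
  · obtain ⟨i, rfl⟩ := (hν2 v).1 hv
    obtain ⟨j, rfl⟩ := (hν2 v').1 hv'
    exact Disjoint.mono (Bl_mono (le_trans (le_max_left _ _) (le_max_left _ _)) _)
      (Bl_mono (le_trans (le_max_left _ _) (le_max_left _ _)) _)
      (htd i j fun h => hne (by rw [h]))
  · set I := univ.filter fun i => t i ∈ T' with hI
    set A : Finset (Fin (w * q₀)) := I.image fun i => e (i, c i) with hA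
    have h1 : T'.card ≤ I.card := by
      have hsub : T' ⊆ I.image t := by
        intro v hv
        obtain ⟨i, rfl⟩ := (hν2 v).1 (hT' v hv).1
        exact mem_image_of_mem _ (mem_filter.2 ⟨mem_univ _, hv⟩)
      exact (card_le_card hsub).trans card_image_le
    have h2 : A.card = I.card := by
      refine card_image_of_injective _ fun i j h => ?_
      have := e.injective h
      exact (Prod.mk.inj this).1
    have h4 := hb P (mem_filter.2 ⟨mem_univ _, hP, hPk⟩) A (by
      intro j hj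
      obtain ⟨i, hi, rfl⟩ := mem_image.1 hj
      exact (hT' _ (mem_filter.1 hi).2).2)
    rw [h2] at h4
    omega
  · have hDD : D = univ.biUnion fun i => X (u'' i (c i)) := by
      ext v
      rw [hD, mem_biUnion]
      constructor
      · rintro ⟨s, hs, hv⟩
        obtain ⟨i, rfl⟩ := (hν2 s).1 hs
        exact ⟨i, mem_univ _, (hXmem _ _).2 hv⟩
      · rintro ⟨i, -, hv⟩
        exact ⟨t i, (hν2 _).2 ⟨i, rfl⟩, (hXmem _ _).1 hv⟩
    rw [hDD] at hQ1 hQ2 ⊢
    exact hcR Q hQ1 hQ2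

end Pool.Agent.K5
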