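import Mathlib
import Pool.Agent.Work.MP_974d84_co_iso.Part

/-!
# Finitely many partitions of a graph which split no set too much, from bounds on the balls
-/

set_option linter.unusedSectionVars false

namespace Pool.Agent.K5

open Finset SimpleGraph Pool.Agent.Exp Pool.Agent.Log5 Pool.Agent.Iso5

variable {V : Type} [Fintype V] [DecidableEq V] {G : SimpleGraph V} [DecidableRel G.Adj]

theorem exists_colour_ub (hub : ∀ j v, (Bl G.Adj j v).card + 2 ≤ 3 * 2 ^ j) (L : ℕ) :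
    ∃ κ : V → Fin (3 * 2 ^ L), ∀ v w, w ∈ Bl G.Adj L v → w ≠ v → κ w ≠ κ v := by
  classical
  have key : ∀ A : Finset V, ∃ κ : V → Fin (3 * 2 ^ L), ∀ v ∈ A, ∀ w ∈ A, w ∈ Bl G.Adj L v →
      w ≠ v → κ w ≠ κ v := by
    intro A
    induction A using Finset.induction with
    | empty => exact ⟨fun _ => ⟨0, by positivity⟩, by simp⟩
    | insert a A ha ih =>
      obtain ⟨κ, hκ⟩ := ih
      have h1 : (((Bl G.Adj L a).erase a).image κ).card < 3 * 2 ^ L := by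
        refine lt_of_le_of_lt card_image_le ?_
        rw [card_erase_of_mem (Bl_self _ _)]
        have := hub L a
        omega
      obtain ⟨q, -, hq⟩ := exists_mem_notMem_of_card_lt_card
        (s := ((Bl G.Adj L a).erase a).image κ) (t := univ) (by simpa using h1)
      refine ⟨Function.update κ a q, ?_⟩
      intro v hv w hw hwv hne
      rw [mem_insert] at hv hw
      by_cases hva : v = a
      · subst hva
        rw [Function.update_of_ne hne, Function.update_self]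
        rintro rfl
        exact hq (mem_image_of_mem _ (mem_erase.2 ⟨hne, hwv⟩))
      · by_cases hwa : w = a
        · subst hwa
          rw [Function.update_of_ne hva, Function.update_self]
          intro h
          exact hq (h ▸ mem_image_of_mem _ (mem_erase.2 ⟨hva, Bl_symm' hwv⟩))
        · rw [Function.update_of_ne hva, Function.update_of_ne hwa]
          exact hκ v (hv.resolve_left hva) w (hw.resolve_left hwa) hwv hne
  obtain ⟨κ, hκ⟩ := key univ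
  exact ⟨κ, fun v w => hκ v (mem_univ _) w (mem_univ _)⟩

section Sel

variable {Q N : ℕ} [NeZero N] {κ : V → Fin Q}

theorem pr_unc_ub (hub : ∀ j v, (Bl G.Adj j v).card + 2 ≤ 3 * 2 ^ j) {r ρ n₀ : ℕ} {v : V}
    (hκ : ∀ x w, w ∈ Bl G.Adj (4 * ρ) x → w ≠ x → κ w ≠ κ x) (hr : 2 * r ≤ ρ)
    (hn : 3 * n₀ ≤ (Bl G.Adj ρ v).card) :
    pr (fun ξ : Fin Q → Fin N => Unc G κ r ρ ξ v) ≤ 3 * (1 - 1 / (N : ℝ)) ^ n₀ +
      (3 * 2 ^ ρ) ^ 2 * (3 * 2 ^ r) ^ 2 / (N : ℝ) ^ 4 +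
      (3 * 2 ^ ρ) * (3 * 2 ^ (2 * r)) ^ 2 / (N : ℝ) ^ 3 := by
  classical
  have hN : (0 : ℝ) < N := by exact_mod_cast Nat.pos_of_ne_zero (NeZero.ne N)
  have hinj : ∀ a ∈ Bl G.Adj (2 * ρ) v, ∀ b ∈ Bl G.Adj (2 * ρ) v, κ a = κ b → a = b := by
    intro a ha b hb hab
    by_contra hne
    exact hκ b a (by
      have := Bl_comp (Bl_symm' hb) ha
      rwa [← two_mul, ← mul_assoc] at this) hne hab
  obtain ⟨A₁, hA₁, hc1⟩ := exists_subset_card_eq (s := Bl G.Adj ρ v) (n := n₀) (by omega)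
  obtain ⟨A₂, hA₂, hc2⟩ := exists_subset_card_eq (s := Bl G.Adj ρ v \ A₁) (n := n₀) (by
    rw [card_sdiff_of_subset hA₁]; omega)
  obtain ⟨A₃, hA₃, hc3⟩ := exists_subset_card_eq (s := (Bl G.Adj ρ v \ A₁) \ A₂) (n := n₀) (by
    rw [card_sdiff_of_subset hA₂, card_sdiff_of_subset hA₁]; omega)
  have hA₂' : A₂ ⊆ Bl G.Adj ρ v := hA₂.trans sdiff_subset
  have hA₃' : A₃ ⊆ Bl G.Adj ρ v := hA₃.trans (sdiff_subset.trans sdiff_subset)
  have h12 : Disjoint A₁ A₂ := (disjoint_sdiff (s := A₁) (t := Bl G.Adj ρ v)).mono_right hA₂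
  have h13 : Disjoint A₁ A₃ := (disjoint_sdiff (s := A₁) (t := Bl G.Adj ρ v)).mono_right
    (hA₃.trans sdiff_subset)
  have h23 : Disjoint A₂ A₃ := (disjoint_sdiff (s := A₂) (t := Bl G.Adj ρ v \ A₁)).mono_right hA₃
  have hsub : ∀ {A : Finset V}, A ⊆ Bl G.Adj ρ v → ∀ a ∈ A, ∀ b ∈ A, κ a = κ b → a = b :=
    fun hA a ha b hb => hinj a (Bl_mono (by omega) _ (hA ha)) b (Bl_mono (by omega) _ (hA hb))
  have hb : ∀ n x, (Bl G.Adj n x).card ≤ 3 * 2 ^ n := fun n x => by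
    have := hub n x; omega
  have hmem : ∀ {n x y}, x ∈ Bl G.Adj ρ v → n ≤ ρ → y ∈ Bl G.Adj n x →
      y ∈ Bl G.Adj (2 * ρ) v := fun hx hn hy => Bl_mono (by omega) _ (Bl_comp hx hy)
  have h4 : pr (fun ξ : Fin Q → Fin N => ∃ x ∈ Bl G.Adj ρ v, ∃ y ∈ Bl G.Adj ρ v,
      ∃ a ∈ Bl G.Adj r x, ∃ b ∈ Bl G.Adj r y,
      (x ≠ y ∧ x ≠ a ∧ x ≠ b ∧ y ≠ a ∧ y ≠ b ∧ a ≠ b) ∧
        ∀ z ∈ ({x, y, a, b} : Finset V), ξ (κ z) = 0) ≤
      ((3 * 2 ^ ρ : ℕ) : ℝ) * (((3 * 2 ^ ρ : ℕ) : ℝ) * (((3 * 2 ^ r : ℕ) : ℝ) *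
        (((3 * 2 ^ r : ℕ) : ℝ) * (1 / (N : ℝ) ^ 4)))) := by
    refine pr_exists_le _ _ (hb _ _) (by positivity) fun x hx => ?_
    refine pr_exists_le _ _ (hb _ _) (by positivity) fun y hy => ?_
    refine pr_exists_le _ _ (hb _ _) (by positivity) fun a ha => ?_
    refine pr_exists_le _ _ (hb _ _) (by positivity) fun b hb => ?_
    by_cases hd : x ≠ y ∧ x ≠ a ∧ x ≠ b ∧ y ≠ a ∧ y ≠ b ∧ a ≠ b
    · have hcard : ({x, y, a, b} : Finset V).card = 4 := by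
        rw [card_insert_of_notMem, card_insert_of_notMem, card_insert_of_notMem, card_singleton]
        · simpa using hd.2.2.2.2.2
        · simp only [mem_insert, mem_singleton]; push Not; exact ⟨hd.2.2.2.1, hd.2.2.2.2.1⟩
        · simp only [mem_insert, mem_singleton]; push Not; exact ⟨hd.1, hd.2.1, hd.2.2.1⟩
      rw [← hcard, ← pr_sel (N := N) κ ({x, y, a, b} : Finset V) ?_]
      · exact pr_mono fun ξ h => h.2
      · have hall : ∀ z ∈ ({x, y, a, b} : Finset V), z ∈ Bl G.Adj (2 * ρ) v := by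
          intro z hz
          simp only [mem_insert, mem_singleton] at hz
          rcases hz with rfl | rfl | rfl | rfl
          · exact Bl_mono (by omega) _ hx
          · exact Bl_mono (by omega) _ hy
          · exact hmem hx (by omega) ha
          · exact hmem hy (by omega) hb
        exact fun z hz w hw => hinj z (hall z hz) w (hall w hw)
    · refine (pr_mono (P' := fun _ => False) fun ξ h => hd h.1).trans ?_
      rw [pr_eq]
      simp only [filter_false, card_empty, Nat.cast_zero, zero_div]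
      positivity
  have h5 : pr (fun ξ : Fin Q → Fin N => ∃ x ∈ Bl G.Adj ρ v, ∃ a ∈ Bl G.Adj (2 * r) x,
      ∃ b ∈ Bl G.Adj (2 * r) x,
      (x ≠ a ∧ x ≠ b ∧ a ≠ b) ∧ ∀ z ∈ ({x, a, b} : Finset V), ξ (κ z) = 0) ≤
      ((3 * 2 ^ ρ : ℕ) : ℝ) * (((3 * 2 ^ (2 * r) : ℕ) : ℝ) * (((3 * 2 ^ (2 * r) : ℕ) : ℝ) *
        (1 / (N : ℝ) ^ 3))) := by
    refine pr_exists_le _ _ (hb _ _) (by positivity) fun x hx => ?_
    refine pr_exists_le _ _ (hb _ _) (by positivity) fun a ha => ?_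
    refine pr_exists_le _ _ (hb _ _) (by positivity) fun b hb => ?_
    by_cases hd : x ≠ a ∧ x ≠ b ∧ a ≠ b
    · have hcard : ({x, a, b} : Finset V).card = 3 := by
        rw [card_insert_of_notMem, card_insert_of_notMem, card_singleton]
        · simpa using hd.2.2
        · simp only [mem_insert, mem_singleton]; push Not; exact ⟨hd.1, hd.2.1⟩
      rw [← hcard, ← pr_sel (N := N) κ ({x, a, b} : Finset V) ?_]
      · exact pr_mono fun ξ h => h.2
      · have hall : ∀ z ∈ ({x, a, b} : Finset V), z ∈ Bl G.Adj (2 * ρ) v := by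
          intro z hz
          simp only [mem_insert, mem_singleton] at hz
          rcases hz with rfl | rfl | rfl
          · exact Bl_mono (by omega) _ hx
          · exact hmem hx (by omega) ha
          · exact hmem hx (by omega) hb
        exact fun z hz w hw => hinj z (hall z hz) w (hall w hw)
    · refine (pr_mono (P' := fun _ => False) fun ξ h => hd h.1).trans ?_
      rw [pr_eq]
      simp only [filter_false, card_empty, Nat.cast_zero, zero_div]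
      positivity
  refine (pr_mono fun ξ h => unc_cases h hA₁ hA₂' hA₃' h12 h13 h23).trans ?_
  refine (pr_or _ _).trans ?_
  have e1 := pr_or (fun ξ : Fin Q → Fin N => ∀ a ∈ A₁, ξ (κ a) ≠ 0)
    (fun ξ : Fin Q → Fin N => ∀ a ∈ A₂, ξ (κ a) ≠ 0)
  rw [pr_unsel κ A₁ (hsub hA₁), pr_unsel κ A₂ (hsub hA₂'), hc1, hc2] at e1
  have e2 := pr_unsel (N := N) κ A₃ (hsub hA₃')
  rw [hc3] at e2
  refine (add_le_add e1 ((pr_or _ _).trans (add_le_add e2.le ((pr_or _ _).trans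
    (add_le_add h4 h5))))).trans ?_
  push_cast
  apply le_of_eq
  ring

end Sel

section Est

variable {Ω : Type} [Fintype Ω] {c : Ω → V → V} {Y : Ω → Finset V} {ρ : ℕ} {p : ℝ}

theorem cross_bound_ub (hub : ∀ j v, (Bl G.Adj j v).card + 2 ≤ 3 * 2 ^ j) (hp : 0 ≤ p) (hcY : ∀ ξ v, c ξ v ∈ Y ξ)
    (hcB : ∀ ξ v, c ξ v ∈ Bl G.Adj ρ v) (hY : ∀ y, pr (fun ξ => y ∈ Y ξ) ≤ p) {S : Finset V}
    {v : V} {j : ℕ} (hj : ∀ y ∈ Bl G.Adj j v, (y ∈ S ↔ v ∈ S)) :
    pr (fun ξ => ¬ (v ∈ S ↔ c ξ v ∈ S)) ≤ ∑ i ∈ Ico j ρ,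
      ∑ e ∈ (cp G S).filter (fun e => e.1 ∈ Bl G.Adj i v), 3 * 2 ^ (ρ - 1 - i) * p := by
  classical
  refine (pr_mono (P' := fun ξ => ∃ i ∈ Ico j ρ,
    ∃ e ∈ (cp G S).filter (fun e => e.1 ∈ Bl G.Adj i v),
      ∃ y ∈ Bl G.Adj (ρ - 1 - i) e.2, y ∈ Y ξ) fun ξ h => ?_).trans ?_
  · obtain ⟨i, hi, x, x', h1, h2, h4, h5, h6⟩ := exists_cross (hcB ξ v) h
    refine ⟨i, mem_Ico.2 ⟨?_, hi⟩, (x, x'), ?_, c ξ v, h4, hcY ξ v⟩
    · by_contra hlt
      have h7 : x' ∈ Bl G.Adj (i + 1) v := mem_Bl_succ.2 (Or.inr ⟨x, h2, h1⟩)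
      have := hj x' (Bl_mono (by omega) _ h7)
      exact h6 this.symm
    · simp only [cp, mem_filter, mem_univ, true_and]
      exact ⟨⟨h1, fun h7 => h6 (h5.trans h7)⟩, h2⟩
  · refine (pr_exists _ _).trans (sum_le_sum fun i _ => ?_)
    refine (pr_exists _ _).trans (sum_le_sum fun e _ => ?_)
    have := pr_exists_le (Bl G.Adj (ρ - 1 - i) e.2) (fun y (ξ : Ω) => y ∈ Y ξ)
      (n := 3 * 2 ^ (ρ - 1 - i)) (by have := hub (ρ - 1 - i) e.2; omega) hp
      (fun y _ => hY y)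
    refine this.trans (le_of_eq ?_)
    push_cast; ring

theorem all_bound_ub (hub : ∀ j v, (Bl G.Adj j v).card + 2 ≤ 3 * 2 ^ j) (hp : 0 ≤ p) (hcY : ∀ ξ v, c ξ v ∈ Y ξ)
    (hcB : ∀ ξ v, c ξ v ∈ Bl G.Adj ρ v) (hY : ∀ y, pr (fun ξ => y ∈ Y ξ) ≤ p) (S : Finset V) :
    ∑ ξ, ((univ.filter fun v => ¬ (v ∈ S ↔ c ξ v ∈ S)).card : ℝ) ≤
      9 * ρ * (2 ^ ρ * p) * dd G S * Fintype.card Ω := by
  classical
  rw [pr_sum]
  refine mul_le_mul_of_nonneg_right ?_ (by positivity)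
  have h1 : ∀ v ∈ (univ : Finset V), pr (fun ξ => ¬ (v ∈ S ↔ c ξ v ∈ S)) ≤
      ∑ i ∈ range ρ, ∑ e ∈ cp G S, if v ∈ Bl G.Adj i e.1 then 3 * 2 ^ (ρ - 1 - i) * p else 0 := by
    intro v _
    have := cross_bound_ub hub hp hcY hcB hY (S := S) (v := v) (j := 0) (by
      intro y hy; rw [mem_Bl_zero] at hy; rw [hy])
    refine this.trans (le_of_eq ?_)
    rw [← range_eq_Ico]
    refine sum_congr rfl fun i _ => ?_
    rw [sum_filter]
    refine sum_congr rfl fun e _ => ?_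
    have : e.1 ∈ Bl G.Adj i v ↔ v ∈ Bl G.Adj i e.1 := ⟨Bl_symm', Bl_symm'⟩
    simp only [this]
  refine (sum_le_sum h1).trans ?_
  rw [sum_comm]
  have h2 : ∀ i ∈ range ρ, ∑ v : V, ∑ e ∈ cp G S,
      (if v ∈ Bl G.Adj i e.1 then 3 * 2 ^ (ρ - 1 - i) * p else 0) ≤
      9 * (2 ^ ρ * p) * dd G S := by
    intro i hi
    rw [mem_range] at hi
    rw [sum_comm]
    have h4 : ∀ e ∈ cp G S, ∑ v : V, (if v ∈ Bl G.Adj i e.1 then 3 * 2 ^ (ρ - 1 - i) * p else 0)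
        ≤ 9 * (2 ^ ρ * p) / 2 := by
      intro e _
      rw [← sum_filter, sum_const, nsmul_eq_mul, filter_mem_eq_inter, univ_inter]
      have h5 : ((Bl G.Adj i e.1).card : ℝ) ≤ 3 * 2 ^ i := by
        have := hub i e.1
        have h6 : (Bl G.Adj i e.1).card ≤ 3 * 2 ^ i := by omega
        exact_mod_cast h6
      have h7 : (2 : ℝ) ^ ρ = 2 * (2 ^ i * 2 ^ (ρ - 1 - i)) := by
        rw [← pow_add, ← pow_succ']
        congr 1; omega
      calc ((Bl G.Adj i e.1).card : ℝ) * (3 * 2 ^ (ρ - 1 - i) * p)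
          ≤ (3 * 2 ^ i) * (3 * 2 ^ (ρ - 1 - i) * p) := by gcongr
        _ = 9 * (2 ^ ρ * p) / 2 := by rw [h7]; ring
    refine (sum_le_sum h4).trans ?_
    rw [sum_const, nsmul_eq_mul, cp_card]
    push_cast
    apply le_of_eq; ring
  refine (sum_le_sum h2).trans ?_
  rw [sum_const, card_range, nsmul_eq_mul]
  apply le_of_eq; ring

end Est

/-- Finitely many partitions into joined classes which are large and of bounded radius, such
that on average no vertex set is changed much when its vertices are replaced by the classes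
whose centres it contains. -/
theorem exists_partitions_ub (hub : ∀ j v, (Bl G.Adj j v).card + 2 ≤ 3 * 2 ^ j) {ρ m s : ℕ} (hm : 4 * ρ ≤ 2 ^ m)
    (hs : 8 * s + 4 * m + 7 ≤ ρ) (hlow : ∀ j ≤ ρ, ∀ v, 2 ^ j ≤ (Bl G.Adj j v).card) :
    ∃ (Ξ : Type) (_ : Fintype Ξ) (_ : Nonempty Ξ) (c : Ξ → V → V),
      Fintype.card Ξ ≤ (2 ^ ρ) ^ (3 * 2 ^ (4 * ρ)) ∧
      (∀ ξ v, Joined G (univ.filter fun y => c ξ y = c ξ v)) ∧
      (∀ ξ v, 2 ^ s ≤ (univ.filter fun y => c ξ y = c ξ v).card) ∧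
      (∀ ξ v, c ξ v ∈ Bl G.Adj ρ v) ∧ (∀ ξ v, c ξ (c ξ v) = c ξ v) ∧
      (∀ S : Finset V, ∑ ξ, ((univ.filter fun v => ¬ (v ∈ S ↔ c ξ v ∈ S)).card : ℝ) ≤
        9 * ρ * 2 ^ (m + 1) * dd G S * Fintype.card Ξ) := by
  classical
  obtain ⟨κ, hκ⟩ := exists_colour_ub hub (4 * ρ)
  have hNz : NeZero (2 ^ (ρ - m)) := ⟨by positivity⟩
  let U : (Fin (3 * 2 ^ (4 * ρ)) → Fin (2 ^ (ρ - m))) → Finset V :=
    fun ξ => univ.filter (Unc G κ (2 * s) ρ ξ)
  have hZ := fun ξ => exists_sep (G := G) (U ξ) (2 * s)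
  choose Z hZU hZ1 hZ2 using hZ
  let Y : (Fin (3 * 2 ^ (4 * ρ)) → Fin (2 ^ (ρ - m))) → Finset V :=
    fun ξ => (univ.filter (Isl G κ (2 * s) ξ)) ∪ Z ξ
  have hcov : ∀ ξ v, ∃ y ∈ Y ξ, y ∈ Bl G.Adj ρ v := by
    intro ξ v
    by_cases hU : Unc G κ (2 * s) ρ ξ v
    · obtain ⟨z, hz, hzv⟩ := hZ2 ξ v (mem_filter.2 ⟨mem_univ _, hU⟩)
      exact ⟨z, mem_union_right _ hz, Bl_mono (by omega) _ hzv⟩
    · unfold Unc at hU
      push Not at hU
      obtain ⟨y, hy, hI⟩ := hU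
      exact ⟨y, mem_union_left _ (mem_filter.2 ⟨mem_univ _, hI⟩), hy⟩
  have hsep : ∀ ξ, ∀ y ∈ Y ξ, ∀ y' ∈ Y ξ, y ≠ y' → y' ∉ Bl G.Adj (2 * s) y := by
    intro ξ y hy y' hy' hne h
    rw [mem_union, mem_filter] at hy hy'
    have hIZ : ∀ a b, Isl G κ (2 * s) ξ a → b ∈ Z ξ → b ∉ Bl G.Adj (2 * s) a := by
      intro a b ha hb hab
      have h1 := hZU ξ hb
      rw [mem_filter] at h1
      exact h1.2 a (Bl_mono (by omega) _ (Bl_symm' hab)) ha
    rcases hy with ⟨-, hy⟩ | hy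
    · rcases hy' with ⟨-, hy'⟩ | hy'
      · exact hne (hy.2 y' h hy'.1).symm
      · exact hIZ y y' hy hy' h
    · rcases hy' with ⟨-, hy'⟩ | hy'
      · exact hIZ y' y hy' hy (Bl_symm' h)
      · exact hZ1 ξ y hy y' hy' hne h
  have hnear := fun ξ => exists_nearest (G := G) (ρ := ρ) (s := s) (by omega) (Y ξ) (hcov ξ)
    (hsep ξ)
  choose c hcY hcB hcJ hcS using hnear
  have hp : (0 : ℝ) ≤ 2 ^ (m + 1) / 2 ^ ρ := by positivity
  have hY : ∀ y, pr (fun ξ => y ∈ Y ξ) ≤ 2 ^ (m + 1) / 2 ^ ρ := by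
    intro y
    refine (pr_mono (P' := fun ξ => (∀ a ∈ ({y} : Finset V), ξ (κ a) = 0) ∨
      Unc G κ (2 * s) ρ ξ y) fun ξ h => ?_).trans ((pr_or _ _).trans ?_)
    · rw [mem_union, mem_filter] at h
      rcases h with ⟨-, h⟩ | h
      · left
        intro a ha
        rw [mem_singleton] at ha
        rw [ha]; exact h.1
      · right
        have := hZU ξ h
        rw [mem_filter] at this
        exact this.2
    · rw [pr_sel κ {y} (by
        intro a ha b hb _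
        rw [mem_singleton] at ha hb
        rw [ha, hb]), card_singleton, pow_one]
      have h1 := pr_unc_ub (κ := κ) (N := 2 ^ (ρ - m)) hub (r := 2 * s) (ρ := ρ)
        (n₀ := 2 ^ (ρ - 2)) (v := y) hκ (by omega) (by
          have h2 := hlow ρ le_rfl y
          have h4 : 2 ^ ρ = 4 * 2 ^ (ρ - 2) := by
            rw [show (4 : ℕ) = 2 ^ 2 by norm_num, ← pow_add]; congr 1; omega
          omega)
      refine (add_le_add le_rfl h1).trans (pnum hm hs)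
  have hself : ∀ ξ v, c ξ (c ξ v) = c ξ v := by
    intro ξ v
    have := hcS ξ v (Bl_self s (c ξ v))
    rw [mem_filter] at this
    exact this.2
  have hpρ : (2 : ℝ) ^ ρ * (2 ^ (m + 1) / 2 ^ ρ) = 2 ^ (m + 1) := by field_simp
  refine ⟨Fin (3 * 2 ^ (4 * ρ)) → Fin (2 ^ (ρ - m)), inferInstance, ⟨fun _ => 0⟩, c, ?_, hcJ,
    fun ξ v => ?_, hcB, hself, fun S => ?_⟩
  · rw [Fintype.card_fun, Fintype.card_fin, Fintype.card_fin]
    exact Nat.pow_le_pow_left (Nat.pow_le_pow_right (by norm_num) (Nat.sub_le _ _)) _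
  · exact (hlow s (by omega) (c ξ v)).trans (card_le_card (hcS ξ v))
  · have := all_bound_ub hub hp hcY hcB hY S
    rw [hpρ] at this
    exact this

end Pool.Agent.K5
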