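import Mathlib
import Pool.Agent.Work.MP_974d84_co_log.BigOf
import Pool.Agent.Work.MP_974d84_co_log.Cluster
import Pool.Agent.Work.MP_974d84_co_exp.Grow
import Pool.Agent.Work.MP_974d84_co_k5.PartG
import Pool.Agent.Work.MP_974d84_co_k5.HyperDef

/-!
# Partitions of the graph outside the candidate sets
-/

set_option linter.unusedSectionVars false

namespace Pool.Agent.K5

open Finset SimpleGraph Pool.Agent.Exp Pool.Agent.Log5 Pool.Agent.Iso5
open Pool.Agent.Work.MP_314beb_co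

variable {V : Type} [Fintype V] [DecidableEq V] {G : SimpleGraph V} [DecidableRel G.Adj]

/-- A joined set contains the edges of a tree. -/
theorem inside_ge {S : Finset V} (hS : Joined G S) (hne : S.Nonempty) :
    2 * S.card ≤ (inside G S).card + 2 := by
  obtain ⟨v, hv⟩ := hne
  have hpos : 0 < S.card := card_pos.2 ⟨v, hv⟩
  obtain ⟨A, hA, -, hc, hi⟩ := grow_edges hS hv (S.card - 1) (by omega)
  have hAS : A = S := eq_of_subset_of_card_le hA (by omega)
  rw [hAS] at hi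
  omega

/-- Balls inside a vertex set are joined. -/
theorem joined_Bl_RW {Z : Finset V} {u : V} (hu : u ∈ Z) (j : ℕ) :
    Joined G (Bl (RW G Z) j u) := by
  induction j with
  | zero =>
    have : Bl (RW G Z) 0 u = {u} := by ext w; rw [mem_Bl_zero, mem_singleton]
    rw [this]
    exact Clu.joined_singleton u
  | succ j ih =>
    intro A hA hne hAW
    by_cases h1 : (A ∩ Bl (RW G Z) j u).Nonempty ∧ ¬ Bl (RW G Z) j u ⊆ A
    · obtain ⟨x, hx, y, hy, hyx, hxy⟩ := ih (A ∩ Bl (RW G Z) j u) inter_subset_right h1.1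
        (fun h => h1.2 (inter_eq_right.1 h))
      exact ⟨x, (mem_inter.1 hx).1, y, Bl_mono (Nat.le_succ j) _ hy,
        fun h => hyx (mem_inter.2 ⟨h, hy⟩), hxy⟩
    · by_cases h2 : Bl (RW G Z) j u ⊆ A
      · obtain ⟨y, hy, hyA⟩ : ∃ y ∈ Bl (RW G Z) (j + 1) u, y ∉ A := by
          by_contra hno
          push Not at hno
          exact hAW (Subset.antisymm hA hno)
        have hy' := hy
        rw [mem_Bl_succ] at hy'
        rcases hy' with hy' | ⟨x, hx, hxy⟩
        · exact absurd (h2 hy') hyA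
        · exact ⟨x, h2 hx, y, hy, hyA, hxy.1⟩
      · have h3 : ∀ x ∈ A, x ∉ Bl (RW G Z) j u := by
          intro x hx hxB
          exact h1 ⟨⟨x, mem_inter.2 ⟨hx, hxB⟩⟩, h2⟩
        obtain ⟨x, hx⟩ := hne
        have hx' := hA hx
        rw [mem_Bl_succ] at hx'
        rcases hx' with hx' | ⟨y, hy, hyx⟩
        · exact absurd hx' (h3 x hx)
        · exact ⟨x, hx, y, Bl_mono (Nat.le_succ j) _ hy, fun h => h3 y h hy, hyx.1.symm⟩

/-- At most one edge leads from a small joined set to another small joined set. -/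
theorem one_edge {A B : Finset V} (hA : Joined G A) (hAn : A.Nonempty) (hB : Joined G B)
    (hBn : B.Nonempty) (hAB : Disjoint A B) (hac : (G.induce ((A ∪ B : Finset V) : Set V)).IsAcyclic)
    {p q : V × V} (hp : p.1 ∈ A ∧ p.2 ∈ B ∧ G.Adj p.1 p.2) (hq : q.1 ∈ A ∧ q.2 ∈ B ∧ G.Adj q.1 q.2) :
    p = q := by
  by_contra hne
  have h1 := inside_ge hA hAn
  have h2 := inside_ge hB hBn
  have h3 := inside_of_acyclic G (hAn.mono subset_union_left) hac
  rw [card_union_of_disjoint hAB] at h3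
  have hAB' : ∀ x, x ∈ A → x ∈ B → False := fun x hx hx' => Finset.disjoint_left.1 hAB hx hx'
  have hsub : (inside G A ∪ inside G B) ∪ {p, q, p.swap, q.swap} ⊆ inside G (A ∪ B) := by
    intro r hr
    rw [mem_inside]
    simp only [mem_union, mem_inside, mem_insert, mem_singleton] at hr
    rcases hr with (hr | hr) | hr | hr | hr | hr
    · exact ⟨mem_union_left _ hr.1, mem_union_left _ hr.2.1, hr.2.2⟩
    · exact ⟨mem_union_right _ hr.1, mem_union_right _ hr.2.1, hr.2.2⟩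
    · subst hr; exact ⟨mem_union_left _ hp.1, mem_union_right _ hp.2.1, hp.2.2⟩
    · subst hr; exact ⟨mem_union_left _ hq.1, mem_union_right _ hq.2.1, hq.2.2⟩
    · subst hr; exact ⟨mem_union_right _ hp.2.1, mem_union_left _ hp.1, hp.2.2.symm⟩
    · subst hr; exact ⟨mem_union_right _ hq.2.1, mem_union_left _ hq.1, hq.2.2.symm⟩
  have hd1 : Disjoint (inside G A) (inside G B) := by
    rw [Finset.disjoint_left]
    intro r h4 h5
    rw [mem_inside] at h4 h5
    exact hAB' _ h4.1 h5.1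
  have hd2 : Disjoint (inside G A ∪ inside G B) {p, q, p.swap, q.swap} := by
    rw [Finset.disjoint_left]
    intro r h4 h5
    simp only [mem_union, mem_inside, mem_insert, mem_singleton] at h4 h5
    rcases h5 with rfl | rfl | rfl | rfl
    · rcases h4 with h4 | h4
      · exact hAB' _ h4.2.1 hp.2.1
      · exact hAB' _ hp.1 h4.1
    · rcases h4 with h4 | h4
      · exact hAB' _ h4.2.1 hq.2.1
      · exact hAB' _ hq.1 h4.1
    · rcases h4 with h4 | h4
      · exact hAB' _ h4.1 hp.2.1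
      · exact hAB' _ hp.1 h4.2.1
    · rcases h4 with h4 | h4
      · exact hAB' _ h4.1 hq.2.1
      · exact hAB' _ hq.1 h4.2.1
  have hc4 : ({p, q, p.swap, q.swap} : Finset (V × V)).card = 4 := by
    have e1 : p ≠ p.swap := fun h => hAB' p.1 hp.1 (by
      have := congrArg Prod.fst h; simp only [Prod.fst_swap] at this; rw [this]; exact hp.2.1)
    have e2 : p ≠ q.swap := fun h => hAB' p.1 hp.1 (by
      have := congrArg Prod.fst h; simp only [Prod.fst_swap] at this; rw [this]; exact hq.2.1)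
    have e3 : q ≠ p.swap := fun h => hAB' q.1 hq.1 (by
      have := congrArg Prod.fst h; simp only [Prod.fst_swap] at this; rw [this]; exact hp.2.1)
    have e4 : q ≠ q.swap := fun h => hAB' q.1 hq.1 (by
      have := congrArg Prod.fst h; simp only [Prod.fst_swap] at this; rw [this]; exact hq.2.1)
    have e5 : p.swap ≠ q.swap := fun h => hne (Prod.swap_injective h)
    rw [card_insert_of_notMem, card_insert_of_notMem, card_insert_of_notMem, card_singleton]
    · rwa [mem_singleton]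
    · simp only [mem_insert, mem_singleton]; push Not; exact ⟨e3, e4⟩
    · simp only [mem_insert, mem_singleton]; push Not; exact ⟨hne, e1, e2⟩
  have h4 := card_le_card hsub
  rw [card_union_of_disjoint hd2, card_union_of_disjoint hd1, hc4] at h4
  omega

variable {U : Type} [Fintype U] [DecidableEq U] {X : U → Finset V}

/-- Balls in the graph outside the candidate sets are balls inside the rest. -/
theorem Bl_G0 (j : ℕ) (v : WV X) :
    (Bl (G0 G X).Adj j v).map ⟨Subtype.val, Subtype.val_injective⟩ =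
      Bl (RW G (univ.biUnion X)ᶜ) j v.1 := by
  induction j with
  | zero =>
    ext w
    rw [mem_Bl_zero, mem_map]
    simp only [mem_Bl_zero, Function.Embedding.coeFn_mk]
    constructor
    · rintro ⟨a, rfl, rfl⟩; rfl
    · rintro rfl; exact ⟨v, rfl, rfl⟩
  | succ j ih =>
    ext w
    rw [mem_Bl_succ, ← ih, mem_map]
    simp only [mem_Bl_succ, Function.Embedding.coeFn_mk, mem_map]
    constructor
    · rintro ⟨a, h | ⟨b, hb, hba⟩, rfl⟩
      · exact Or.inl ⟨a, h, rfl⟩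
      · exact Or.inr ⟨b.1, ⟨b, hb, rfl⟩, hba, mem_compl.2 b.2, mem_compl.2 a.2⟩
    · rintro (⟨a, ha, rfl⟩ | ⟨_, ⟨b, hb, rfl⟩, hbw, -, hw⟩)
      · exact ⟨a, Or.inl ha, rfl⟩
      · exact ⟨⟨w, mem_compl.1 hw⟩, Or.inr ⟨b, hb, hbw⟩, rfl⟩

theorem Bl_G0_card (j : ℕ) (v : WV X) :
    (Bl (G0 G X).Adj j v).card = (Bl (RW G (univ.biUnion X)ᶜ) j v.1).card := by
  rw [← Bl_G0, card_map]

theorem Bl_G0_upper (h3 : ∀ v, G.degree v = 3) (j : ℕ) (v : WV X) :
    (Bl (G0 G X).Adj j v).card + 2 ≤ 3 * 2 ^ j := by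
  have h1 := Bl_card G h3 j v.1
  have h2 : (Bl (RW G (univ.biUnion X)ᶜ) j v.1).card ≤ (Bl G.Adj j v.1).card :=
    card_le_card (Bl_rel (fun _ _ h => h.1) _ _)
  rw [Bl_G0_card]
  omega

theorem Bl_G0_lower (h3 : ∀ v, G.degree v = 3) (hX : Cand G X) {ρ : ℕ}
    (hfar : ∀ u u', u ≠ u' → ∀ x ∈ X u, ∀ y ∈ X u', y ∉ Bl G.Adj (2 * ρ) x)
    (hg : Gir G (3 * 2 ^ ρ + 3)) {j : ℕ} (hj : j ≤ ρ) (v : WV X) :
    2 ^ j ≤ (Bl (G0 G X).Adj j v).card := by
  rw [Bl_G0_card]
  set Z := (univ.biUnion X)ᶜ with hZ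
  have hv : v.1 ∈ Z := mem_compl.2 v.2
  have hsize : ∀ i ≤ ρ, (Bl (RW G Z) i v.1).card + 2 ≤ 3 * 2 ^ ρ := by
    intro i hi
    have h1 := Bl_card G h3 i v.1
    have h2 : (Bl (RW G Z) i v.1).card ≤ (Bl G.Adj i v.1).card :=
      card_le_card (Bl_rel (fun _ _ h => h.1) _ _)
    have h4 : 2 ^ i ≤ 2 ^ ρ := Nat.pow_le_pow_right (by norm_num) hi
    omega
  have hb : ∀ i, i + 1 ≤ ρ → (bd G Z (Bl (RW G Z) i v.1)).card ≤ 1 := by
    intro i hi
    rw [card_le_one]
    intro p hp q hq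
    rw [mem_bd, mem_cut] at hp hq
    obtain ⟨⟨hp1, hp2, hp3⟩, hpB⟩ := hp
    obtain ⟨⟨hq1, hq2, hq3⟩, hqB⟩ := hq
    rw [hZ, mem_compl, not_not, mem_biUnion] at hp2 hq2
    obtain ⟨a, -, ha⟩ := hp2
    obtain ⟨b, -, hb⟩ := hq2
    have hsub : ∀ {y}, y ∈ Bl (RW G Z) i v.1 → y ∈ Bl G.Adj i v.1 := fun h =>
      Bl_rel (fun _ _ h => h.1) _ _ h
    by_cases hab : a = b
    · subst hab
      have hd : Disjoint (Bl (RW G Z) i v.1) (X a) := by
        rw [Finset.disjoint_left]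
        intro x hx hx'
        exact mem_compl.1 (Bl_RW_sub hv i hx) (mem_biUnion.2 ⟨a, mem_univ _, hx'⟩)
      refine one_edge (joined_Bl_RW hv i) ⟨v.1, Bl_self _ _⟩ (hX.joined a) (hX.ne a) hd ?_
        ⟨hpB, ha, hp3⟩ ⟨hqB, hb, hq3⟩
      apply hg
      have h1 := card_union_le (Bl (RW G Z) i v.1) (X a)
      have h2 := hsize i (by omega)
      have h4 := hX.card a
      omega
    · exfalso
      refine hfar a b hab p.2 ha q.2 hb ?_
      have e1 : p.1 ∈ Bl G.Adj 1 p.2 := mem_Bl_succ.2 (Or.inr ⟨p.2, mem_Bl_zero.2 rfl, hp3.symm⟩)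
      have e2 : v.1 ∈ Bl G.Adj i p.1 := Bl_symm' (hsub hpB)
      have e3 : q.1 ∈ Bl G.Adj i v.1 := hsub hqB
      have e4 : q.2 ∈ Bl G.Adj 1 q.1 := mem_Bl_succ.2 (Or.inr ⟨q.1, mem_Bl_zero.2 rfl, hq3⟩)
      exact Bl_mono (by omega) _ (Bl_comp e1 (Bl_comp e2 (Bl_comp e3 e4)))
  have key : ∀ i, i ≤ ρ → 2 ^ (i + 1) ≤ (Bl (RW G Z) i v.1).card + 1 := by
    intro i
    induction i with
    | zero => intro _; simp [Bl]
    | succ i ih =>
      intro hi
      have h1 := ih (by omega)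
      have h2 := grow_step G h3 hv i (hg _ (by have := hsize i (by omega); omega))
        (hg _ (by have := hsize (i + 1) hi; omega))
      have h4 := hb i hi
      have h5 : 2 ^ (i + 1 + 1) = 2 * 2 ^ (i + 1) := by ring
      omega
  have h1 := key j hj
  have h2 : 2 ^ (j + 1) = 2 * 2 ^ j := by ring
  have h4 : 1 ≤ 2 ^ j := Nat.one_le_two_pow
  omega

/-- Finitely many partitions of the graph outside the candidate sets. -/
theorem exists_partitions_G0 (h3 : ∀ v, G.degree v = 3) (hX : Cand G X) {ρ m s : ℕ}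
    (hm : 4 * ρ ≤ 2 ^ m) (hs : 8 * s + 4 * m + 7 ≤ ρ)
    (hfar : ∀ u u', u ≠ u' → ∀ x ∈ X u, ∀ y ∈ X u', y ∉ Bl G.Adj (2 * ρ) x)
    (hg : Gir G (3 * 2 ^ ρ + 3)) :
    ∃ (Ξ : Type) (_ : Fintype Ξ) (_ : Nonempty Ξ) (c : Ξ → WV X → WV X),
      Fintype.card Ξ ≤ (2 ^ ρ) ^ (3 * 2 ^ (4 * ρ)) ∧
      (∀ ξ v, Joined (G0 G X) (univ.filter fun y => c ξ y = c ξ v)) ∧
      (∀ ξ v, 2 ^ s ≤ (univ.filter fun y => c ξ y = c ξ v).card) ∧
      (∀ ξ v, c ξ v ∈ Bl (G0 G X).Adj ρ v) ∧ (∀ ξ v, c ξ (c ξ v) = c ξ v) ∧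
      ∀ S : Finset (WV X), ∑ ξ, ((univ.filter fun v => ¬ (v ∈ S ↔ c ξ v ∈ S)).card : ℝ) ≤
        9 * ρ * 2 ^ (m + 1) * dd (G0 G X) S * Fintype.card Ξ :=
  exists_partitions_ub (Bl_G0_upper h3) hm hs fun _ hj v => Bl_G0_lower h3 hX hfar hg hj v

end Pool.Agent.K5
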