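import Mathlib
import Pool.Agent.Work.MP_974d84_co_k5.HyperDef
import Pool.Agent.Work.MP_974d84_co_k5.Hyper

/-!
# Rounding of an edge cut to a union of classes
-/

set_option linter.unusedSectionVars false

namespace Pool.Agent.K5

open Finset SimpleGraph Pool.Agent.Exp Pool.Agent.Log5
open Pool.Agent.Work.MP_314beb_co (cut)

variable {V U : Type} [Fintype V] [DecidableEq V] [Fintype U] [DecidableEq U]
  {G : SimpleGraph V} [DecidableRel G.Adj] {X : U → Finset V}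

/-- The edges from `Q` to the rest outside `D`, as ordered pairs. -/
def eQ (G : SimpleGraph V) [DecidableRel G.Adj] (D Q : Finset V) : Finset (V × V) :=
  univ.filter fun p => p.1 ∈ Q ∧ p.2 ∉ Q ∧ p.2 ∉ D ∧ G.Adj p.1 p.2

theorem mem_eQ {D Q : Finset V} {p : V × V} :
    p ∈ eQ G D Q ↔ p.1 ∈ Q ∧ p.2 ∉ Q ∧ p.2 ∉ D ∧ G.Adj p.1 p.2 := by
  simp [eQ]

/-- The other side has the same edges. -/
theorem eQ_swap {D Q : Finset V} (hQ : Disjoint Q D) :
    (eQ G D ((univ \ D) \ Q)).card = (eQ G D Q).card := by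
  refine card_bij (fun p _ => (p.2, p.1)) ?_ ?_ ?_
  · intro p hp
    rw [mem_eQ] at hp ⊢
    obtain ⟨h1, h2, h3, h4⟩ := hp
    rw [mem_sdiff, mem_sdiff] at h1 h2
    refine ⟨?_, h1.2, h1.1.2, h4.symm⟩
    by_contra h5
    exact h2 ⟨⟨mem_univ _, h3⟩, h5⟩
  · rintro ⟨a, b⟩ _ ⟨a', b'⟩ _ h
    simp only [Prod.mk.injEq] at h
    rw [h.1, h.2]
  · intro p hp
    rw [mem_eQ] at hp
    obtain ⟨h1, h2, h3, h4⟩ := hp
    refine ⟨(p.2, p.1), ?_, rfl⟩
    rw [mem_eQ]
    refine ⟨mem_sdiff.2 ⟨mem_sdiff.2 ⟨mem_univ _, h3⟩, h2⟩, fun h5 => (mem_sdiff.1 h5).2 h1,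
      fun h5 => Finset.disjoint_left.1 hQ h1 h5, h4.symm⟩

/-- The outer neighbours. -/
def Nb (G : SimpleGraph V) [DecidableRel G.Adj] (X : U → Finset V) (u : U) : Finset V :=
  univ.filter fun y => y ∉ univ.biUnion X ∧ ∃ x ∈ X u, G.Adj x y

theorem mem_Nb {u : U} {y : V} :
    y ∈ Nb G X u ↔ y ∉ univ.biUnion X ∧ ∃ x ∈ X u, G.Adj x y := by
  simp [Nb]

theorem Cand.nbr (hX : Cand G X) {u : U} {x y : V} (hx : x ∈ X u) (hxy : G.Adj x y) :
    y ∈ X u ∨ y ∈ Nb G X u := by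
  by_cases hy : y ∈ X u
  · exact Or.inl hy
  · refine Or.inr (mem_Nb.2 ⟨fun h => ?_, x, hx, hxy⟩)
    obtain ⟨u', -, hu'⟩ := mem_biUnion.1 h
    have hne : u ≠ u' := fun h1 => hy (h1 ▸ hu')
    exact hX.nadj u u' hne x hx y hu' hxy

theorem Cand.nb_ne (h3 : ∀ v, G.degree v = 3) (hX : Cand G X) (u : U) : (Nb G X u).Nonempty := by
  obtain ⟨x, hx⟩ := hX.ne u
  by_contra hcon
  rw [not_nonempty_iff_eq_empty] at hcon
  have h1 : insert x (G.neighborFinset x) ⊆ X u := by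
    intro y hy
    rcases mem_insert.1 hy with rfl | hy
    · exact hx
    · rw [mem_neighborFinset] at hy
      rcases hX.nbr hx hy with h | h
      · exact h
      · rw [hcon] at h
        exact absurd h (notMem_empty _)
  have h2 := card_le_card h1
  rw [card_insert_of_notMem (by rw [mem_neighborFinset]; exact G.loopless.irrefl x),
    card_neighborFinset_eq_degree, h3] at h2
  have h4 := hX.card u
  omega

/-- A closed neighbourhood. -/
def Yc (G : SimpleGraph V) [DecidableRel G.Adj] (X : U → Finset V) (u : U) : Finset V :=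
  X u ∪ Nb G X u

theorem Cand.yc_joined (hX : Cand G X) (u : U) : Joined G (Yc G X u) := by
  intro A hA hne hne'
  by_cases h1 : ∃ x ∈ X u, x ∈ A
  · by_cases h2 : X u ⊆ A
    · -- an outer neighbour is missing
      have : ∃ y ∈ Yc G X u, y ∉ A := by
        by_contra hcon
        push Not at hcon
        exact hne' (hA.antisymm hcon)
      obtain ⟨y, hy, hyA⟩ := this
      rcases mem_union.1 hy with h | h
      · exact absurd (h2 h) hyA
      · obtain ⟨-, x, hx, hxy⟩ := mem_Nb.1 h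
        exact ⟨x, h2 hx, y, hy, hyA, hxy⟩
    · obtain ⟨x, hx, hxA⟩ := h1
      obtain ⟨x', h3, y', h4, h5, h6⟩ := hX.joined u (A ∩ X u) inter_subset_right
        ⟨x, mem_inter.2 ⟨hxA, hx⟩⟩ (fun h => h2 (by
          intro z hz
          rw [← h] at hz
          exact (mem_inter.1 hz).1))
      exact ⟨x', (mem_inter.1 h3).1, y', mem_union_left _ h4,
        fun h => h5 (mem_inter.2 ⟨h, h4⟩), h6⟩
  · push Not at h1
    obtain ⟨y, hy⟩ := hne
    rcases mem_union.1 (hA hy) with h | h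
    · exact absurd hy (h1 y h)
    · obtain ⟨-, x, hx, hxy⟩ := mem_Nb.1 h
      exact ⟨y, hy, x, mem_union_left _ hx, h1 x hx, hxy.symm⟩

theorem Cand.yc_disj (hX : Cand G X) {u u' : U} (h : u ≠ u') {z : V} (h1 : z ∈ Yc G X u)
    (h2 : z ∈ Yc G X u') : False := by
  rcases mem_union.1 h1 with a | a <;> rcases mem_union.1 h2 with b | b
  · exact hX.disj u u' h z a z b rfl
  · exact (mem_Nb.1 b).1 (mem_biUnion.2 ⟨u, mem_univ _, a⟩)
  · exact (mem_Nb.1 a).1 (mem_biUnion.2 ⟨u', mem_univ _, b⟩)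
  · obtain ⟨-, x, hx, hxz⟩ := mem_Nb.1 a
    obtain ⟨-, y, hy, hyz⟩ := mem_Nb.1 b
    exact hX.far u u' h x hx y hy z hxz hyz

/-- A closed neighbourhood outside `D` which is split by `Q` contains an edge of the cut. -/
theorem Cand.yc_edge (hX : Cand G X) {D Q : Finset V} {u : U} (hD : Disjoint (Yc G X u) D)
    {y z : V} (hy : y ∈ Yc G X u) (hyQ : y ∈ Q) (hz : z ∈ Yc G X u) (hzQ : z ∉ Q) :
    ∃ p ∈ eQ G D Q, p.1 ∈ Yc G X u := by
  obtain ⟨x, h1, w, h2, h4, h5⟩ := hX.yc_joined u (Yc G X u ∩ Q) inter_subset_left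
    ⟨y, mem_inter.2 ⟨hy, hyQ⟩⟩ (fun h => hzQ (by rw [← h] at hz; exact (mem_inter.1 hz).2))
  refine ⟨(x, w), mem_eQ.2 ⟨(mem_inter.1 h1).2, fun h => h4 (mem_inter.2 ⟨h2, h⟩),
    fun h => Finset.disjoint_left.1 hD h2 h, h5⟩, (mem_inter.1 h1).1⟩

theorem Cand.yc_D (hX : Cand G X) {ch : Finset U} {u : U} (hu : u ∉ ch) :
    Disjoint (Yc G X u) (ch.biUnion X) := by
  rw [Finset.disjoint_left]
  intro z hz hz'
  obtain ⟨u', hu', hzu'⟩ := mem_biUnion.1 hz'
  have hne : u ≠ u' := fun h => hu (h ▸ hu')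
  exact hX.yc_disj hne hz (mem_union_left _ hzu')

/-- Injection of a set of candidates into a set of pairs. -/
theorem Cand.card_le_pairs (hX : Cand G X) (T : Finset U) (E : Finset (V × V))
    (h : ∀ u ∈ T, ∃ p ∈ E, p.1 ∈ Yc G X u) : T.card ≤ E.card := by
  classical
  have h' : ∀ u : U, ∃ p : V × V, u ∈ T → p ∈ E ∧ p.1 ∈ Yc G X u := by
    intro u
    by_cases hu : u ∈ T
    · obtain ⟨p, h1, h2⟩ := h u hu
      exact ⟨p, fun _ => ⟨h1, h2⟩⟩
    · obtain ⟨x, -⟩ := hX.ne u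
      exact ⟨(x, x), fun h1 => absurd h1 hu⟩
  choose f hf using h'
  refine card_le_card_of_injOn f (fun u hu => (hf u hu).1) ?_
  intro u hu u' hu' he
  by_contra hne
  have h1 := (hf u hu).2
  rw [he] at h1
  exact hX.yc_disj hne h1 (hf u' hu').2

/-- Injection of a set of candidates into a set of vertices. -/
theorem Cand.card_le_verts (hX : Cand G X) (T : Finset U) (E : Finset (WV X))
    (h : ∀ u ∈ T, ∃ w ∈ E, w.1 ∈ Yc G X u) : T.card ≤ E.card := by
  classical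
  rcases T.eq_empty_or_nonempty with rfl | ⟨u0, hu0⟩
  · simp
  obtain ⟨w0, -, -⟩ := h u0 hu0
  have h' : ∀ u : U, ∃ p : WV X, u ∈ T → p ∈ E ∧ p.1 ∈ Yc G X u := by
    intro u
    by_cases hu : u ∈ T
    · obtain ⟨p, h1, h2⟩ := h u hu
      exact ⟨p, fun _ => ⟨h1, h2⟩⟩
    · exact ⟨w0, fun h1 => absurd h1 hu⟩
  choose f hf using h'
  refine card_le_card_of_injOn f (fun u hu => (hf u hu).1) ?_
  intro u hu u' hu' he
  by_contra hne
  have h1 := (hf u hu).2
  rw [he] at h1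
  exact hX.yc_disj hne h1 (hf u' hu').2

/-- The trace on the vertices outside all candidate sets. -/
def tr (X : U → Finset V) (Q : Finset V) : Finset (WV X) := univ.filter fun v => v.1 ∈ Q

theorem mem_tr {Q : Finset V} {v : WV X} : v ∈ tr X Q ↔ v.1 ∈ Q := by
  simp [tr]

/-- Most vertices of `Q` lie outside the candidate sets. -/
theorem Cand.card_le_tr (h3 : ∀ v, G.degree v = 3) (hX : Cand G X) {ch : Finset U}
    {Q : Finset V} (hQ : Disjoint Q (ch.biUnion X)) :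
    Q.card ≤ 4 * (tr X Q).card + 3 * (eQ G (ch.biUnion X) Q).card := by
  classical
  set T : Finset U := univ.filter fun u => u ∉ ch ∧ ∃ x ∈ X u, x ∈ Q with hT
  have h1 : Q ⊆ (tr X Q).image Subtype.val ∪ T.biUnion X := by
    intro x hx
    by_cases h : x ∈ univ.biUnion X
    · obtain ⟨u, -, hu⟩ := mem_biUnion.1 h
      refine mem_union_right _ (mem_biUnion.2 ⟨u, ?_, hu⟩)
      rw [hT, mem_filter]
      refine ⟨mem_univ _, fun h5 => ?_, x, hu, hx⟩
      exact Finset.disjoint_left.1 hQ hx (mem_biUnion.2 ⟨u, h5, hu⟩)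
    · exact mem_union_left _ (mem_image.2 ⟨⟨x, h⟩, mem_tr.2 hx, rfl⟩)
  have h2 : Q.card ≤ (tr X Q).card + 3 * T.card := by
    refine (card_le_card h1).trans ((card_union_le _ _).trans (Nat.add_le_add card_image_le ?_))
    refine card_biUnion_le.trans ?_
    rw [mul_comm, ← smul_eq_mul, ← sum_const]
    exact sum_le_sum fun u _ => hX.card u
  set T1 : Finset U := T.filter fun u => ∃ z ∈ Yc G X u, z ∉ Q with hT1
  set T2 : Finset U := T.filter fun u => ¬ ∃ z ∈ Yc G X u, z ∉ Q with hT2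
  have h4 : T.card = T1.card + T2.card := (card_filter_add_card_filter_not _).symm
  have h5 : T1.card ≤ (eQ G (ch.biUnion X) Q).card := by
    refine hX.card_le_pairs _ _ fun u hu => ?_
    rw [hT1, mem_filter, hT, mem_filter] at hu
    obtain ⟨⟨-, hu1, x, hx, hxQ⟩, z, hz, hzQ⟩ := hu
    exact hX.yc_edge (hX.yc_D hu1) (mem_union_left _ hx) hxQ hz hzQ
  have h6 : T2.card ≤ (tr X Q).card := by
    refine hX.card_le_verts _ _ fun u hu => ?_
    rw [hT2, mem_filter] at hu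
    obtain ⟨-, hu2⟩ := hu
    push Not at hu2
    obtain ⟨y, hy⟩ := hX.nb_ne h3 u
    exact ⟨⟨y, (mem_Nb.1 hy).1⟩, mem_tr.2 (hu2 y (mem_union_right _ hy)), mem_union_right _ hy⟩
  omega

theorem inr_mem {u : U} {w : WV X} : w ∈ inc G X (Sum.inr u) ↔ w.1 ∈ Nb G X u := by
  rw [mem_inc_inr, mem_Nb]
  exact ⟨fun h => ⟨w.2, h⟩, fun h => h.2⟩

/-- **Rounding.** -/
theorem rounding (h3 : ∀ v, G.degree v = 3) (hX : Cand G X) {Ξ : Type} [Fintype Ξ] [Nonempty Ξ]
    (c : Ξ → WV X → WV X) {B : ℝ} (hB0 : 0 ≤ B)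
    (hB : ∀ S : Finset (WV X), ∑ ξ, ((univ.filter fun v => ¬ (v ∈ S ↔ c ξ v ∈ S)).card : ℝ) ≤
      B * dd (G0 G X) S * Fintype.card Ξ)
    {ch : Finset U} {κ κ₃ : ℕ}
    (hsel : ∀ ξ (S : Finset (WV X)), (∀ v w, c ξ v = c ξ w → (v ∈ S ↔ w ∈ S)) → S.Nonempty →
      Sᶜ.Nonempty → ∀ T : Finset U, (∀ u, u ∈ T ↔ u ∈ ch ∧ Cuts (inc G X) S (Sum.inr u)) →
      ∀ T' : Finset ((WV X × WV X) ⊕ U), (∀ e, e ∈ T' ↔ Cuts (inc G X) S e) →
      κ₃ + T.card ≤ T'.card)
    (hκ : (3 + 7 * B) * κ < κ₃) {Q : Finset V} (hQ : Disjoint Q (ch.biUnion X))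
    (h1 : 4 * B * κ + 3 * κ < Q.card)
    (h2 : 4 * B * κ + 3 * κ < ((univ \ ch.biUnion X) \ Q).card) :
    κ ≤ (eQ G (ch.biUnion X) Q).card := by
  classical
  by_contra hlt
  push Not at hlt
  set D := ch.biUnion X with hD
  set E := eQ G D Q with hE
  set S : Finset (WV X) := tr X Q with hS
  have hsub : (fun p : WV X × WV X => (p.1.1, p.2.1)).Injective := by
    rintro ⟨a, b⟩ ⟨a', b'⟩ h
    simp only [Prod.mk.injEq] at h
    exact Prod.ext (Subtype.ext h.1) (Subtype.ext h.2)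
  have hDW : ∀ w : WV X, w.1 ∉ D := by
    intro w hw
    obtain ⟨u, -, hu⟩ := mem_biUnion.1 hw
    exact w.2 (mem_biUnion.2 ⟨u, mem_univ _, hu⟩)
  have hdd : dd (G0 G X) S ≤ E.card := by
    unfold dd
    refine card_le_card_of_injOn (fun p => (p.1.1, p.2.1)) (fun p hp => ?_) hsub.injOn
    have hp' := (mem_cut (G0 G X)).1 hp
    obtain ⟨a1, a2, a3⟩ := hp'
    exact mem_eQ.2 ⟨mem_tr.1 a1, fun h => a2 (mem_tr.2 h), hDW _, a3⟩
  -- the choice of `ξ`
  have hex : ∃ ξ, ((univ.filter fun v => ¬ (v ∈ S ↔ c ξ v ∈ S)).card : ℝ) ≤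
      B * dd (G0 G X) S := by
    by_contra hcon
    rw [not_exists] at hcon
    have h4 : ∑ _ξ : Ξ, B * (dd (G0 G X) S : ℝ) <
        ∑ ξ, ((univ.filter fun v => ¬ (v ∈ S ↔ c ξ v ∈ S)).card : ℝ) :=
      sum_lt_sum_of_nonempty univ_nonempty fun ξ _ => not_le.1 (hcon ξ)
    rw [sum_const, nsmul_eq_mul, card_univ] at h4
    have := hB S
    linarith
  obtain ⟨ξ, hξ⟩ := hex
  set Δ : Finset (WV X) := univ.filter fun v => ¬ (v ∈ S ↔ c ξ v ∈ S) with hΔ
  set S' : Finset (WV X) := univ.filter fun v => c ξ v ∈ S with hS'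
  have memΔ : ∀ v, v ∈ Δ ↔ ¬ (v ∈ S ↔ v ∈ S') := by
    intro v
    rw [hΔ, hS', mem_filter, mem_filter]
    simp
  have hEk : (E.card : ℝ) < κ := by exact_mod_cast hlt
  have hddk : (dd (G0 G X) S : ℝ) ≤ E.card := by exact_mod_cast hdd
  have hΔk : (Δ.card : ℝ) ≤ B * E.card := hξ.trans (mul_le_mul_of_nonneg_left hddk hB0)
  have hΔk' : (Δ.card : ℝ) ≤ B * κ := hΔk.trans (mul_le_mul_of_nonneg_left hEk.le hB0)
  -- nontrivial
  have g1 : (Δ.card : ℝ) < S.card := by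
    have h5 := hX.card_le_tr h3 hQ
    rw [← hE] at h5
    have h6 : (Q.card : ℝ) ≤ 4 * S.card + 3 * E.card := by exact_mod_cast h5
    linarith
  have g2 : (Δ.card : ℝ) < Sᶜ.card := by
    have hQ' : Disjoint ((univ \ D) \ Q) D := by
      rw [Finset.disjoint_left]
      intro x hx hx'
      exact (mem_sdiff.1 (mem_sdiff.1 hx).1).2 hx'
    have h5 := hX.card_le_tr h3 (ch := ch) hQ'
    rw [← hD, eQ_swap hQ, ← hE] at h5
    have h7 : tr X ((univ \ D) \ Q) = Sᶜ := by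
      ext v
      rw [mem_tr, mem_compl, hS, mem_tr, mem_sdiff, mem_sdiff]
      exact ⟨fun h => h.2, fun h => ⟨⟨mem_univ _, hDW v⟩, h⟩⟩
    rw [h7] at h5
    have h6 : (((univ \ D) \ Q).card : ℝ) ≤ 4 * Sᶜ.card + 3 * E.card := by exact_mod_cast h5
    linarith
  have ne1 : S'.Nonempty := by
    by_contra hcon
    rw [not_nonempty_iff_eq_empty] at hcon
    have h5 : S ⊆ Δ := by
      intro v hv
      rw [memΔ, hcon]
      intro h
      exact absurd (h.1 hv) (notMem_empty _)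
    have h6 : (S.card : ℝ) ≤ Δ.card := by exact_mod_cast card_le_card h5
    linarith
  have ne2 : S'ᶜ.Nonempty := by
    by_contra hcon
    rw [not_nonempty_iff_eq_empty, compl_eq_empty_iff] at hcon
    have h5 : Sᶜ ⊆ Δ := by
      intro v hv
      rw [memΔ, hcon]
      intro h
      exact (mem_compl.1 hv) (h.2 (mem_univ _))
    have h6 : (Sᶜ.card : ℝ) ≤ Δ.card := by exact_mod_cast card_le_card h5
    linarith
  have hclo : ∀ v w, c ξ v = c ξ w → (v ∈ S' ↔ w ∈ S') := by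
    intro v w h
    rw [hS', mem_filter, mem_filter, h]
    simp
  -- the elements split by `S'`
  set P' : Finset (WV X × WV X) := univ.filter fun p => Cuts (inc G X) S' (Sum.inl p) with hP'
  set T1 : Finset U := univ.filter fun u => u ∈ ch ∧ Cuts (inc G X) S' (Sum.inr u) with hT1
  set T2 : Finset U := univ.filter fun u => u ∉ ch ∧ Cuts (inc G X) S' (Sum.inr u) with hT2
  have h5 := hsel ξ S' hclo ne1 ne2 T1 (fun u => by rw [hT1, mem_filter]; simp)
    (P'.disjSum (T1 ∪ T2)) (fun e => by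
      rcases e with p | u
      · rw [inl_mem_disjSum, hP', mem_filter]; simp
      · rw [inr_mem_disjSum, mem_union, hT1, hT2, mem_filter, mem_filter]
        by_cases hu : u ∈ ch <;> simp [hu])
  rw [card_disjSum] at h5
  have h6 : κ₃ ≤ P'.card + T2.card := by
    have := card_union_le T1 T2
    omega
  -- pairs
  set P : Finset (WV X × WV X) := univ.filter fun p => Cuts (inc G X) S (Sum.inl p) with hP
  have pcut : ∀ (R : Finset (WV X)) (p : WV X × WV X), Cuts (inc G X) R (Sum.inl p) ↔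
      G.Adj p.1.1 p.2.1 ∧ ¬ (p.1 ∈ R ↔ p.2 ∈ R) := by
    intro R p
    constructor
    · rintro ⟨⟨v, hv, hvR⟩, w, hw, hwR⟩
      rw [mem_inc_inl] at hv hw
      refine ⟨hv.1, fun h => ?_⟩
      rcases hv.2 with rfl | rfl <;> rcases hw.2 with rfl | rfl
      · exact hwR hvR
      · exact hwR (h.1 hvR)
      · exact hwR (h.2 hvR)
      · exact hwR hvR
    · rintro ⟨ha, h⟩
      by_cases h7 : p.1 ∈ R
      · exact ⟨⟨p.1, mem_inc_inl.2 ⟨ha, Or.inl rfl⟩, h7⟩, p.2, mem_inc_inl.2 ⟨ha, Or.inr rfl⟩,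
          fun h8 => h ⟨fun _ => h8, fun _ => h7⟩⟩
      · exact ⟨⟨p.2, mem_inc_inl.2 ⟨ha, Or.inr rfl⟩, by
          by_contra h8
          exact h ⟨fun h9 => absurd h9 h7, fun h9 => absurd h9 h8⟩⟩, p.1,
          mem_inc_inl.2 ⟨ha, Or.inl rfl⟩, h7⟩
  have hPc : P.card ≤ 2 * E.card := by
    have hsub2 : P ⊆ (cut (G0 G X) S) ∪ (cut (G0 G X) S).image Prod.swap := by
      intro p hp
      rw [hP, mem_filter, pcut] at hp
      obtain ⟨-, ha, h⟩ := hp
      rw [mem_union]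
      by_cases h7 : p.1 ∈ S
      · exact Or.inl ((mem_cut (G0 G X)).2 ⟨h7, fun h8 => h ⟨fun _ => h8, fun _ => h7⟩, ha⟩)
      · refine Or.inr (mem_image.2 ⟨(p.2, p.1), (mem_cut (G0 G X)).2 ⟨?_, h7, ha.symm⟩, rfl⟩)
        by_contra h8
        exact h ⟨fun h9 => absurd h9 h7, fun h9 => absurd h9 h8⟩
    refine (card_le_card hsub2).trans ((card_union_le _ _).trans ?_)
    have h8 : ((cut (G0 G X) S).image Prod.swap).card ≤ dd (G0 G X) S := card_image_le
    have h9 : (cut (G0 G X) S).card = dd (G0 G X) S := rfl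
    omega
  set PΔ : Finset (WV X × WV X) :=
    univ.filter fun p => G.Adj p.1.1 p.2.1 ∧ (p.1 ∈ Δ ∨ p.2 ∈ Δ) with hPΔ
  have hP'sub : P' ⊆ P ∪ PΔ := by
    intro p hp
    rw [hP', mem_filter, pcut] at hp
    rw [mem_union, hP, hPΔ, mem_filter, mem_filter, pcut]
    by_cases h7 : p.1 ∈ Δ ∨ p.2 ∈ Δ
    · exact Or.inr ⟨mem_univ _, hp.2.1, h7⟩
    · push Not at h7
      refine Or.inl ⟨mem_univ _, hp.2.1, ?_⟩
      have a1 := h7.1
      have a2 := h7.2
      rw [memΔ, not_not] at a1 a2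
      rw [a1, a2]
      exact hp.2.2
  have hPΔc : PΔ.card ≤ 6 * Δ.card := by
    have hsub3 : PΔ ⊆ (Δ.biUnion fun v => (univ.filter fun w : WV X => G.Adj v.1 w.1).image
        fun w => (v, w)) ∪ (Δ.biUnion fun v => (univ.filter fun w : WV X => G.Adj v.1 w.1).image
        fun w => (w, v)) := by
      rintro ⟨a, b⟩ hp
      rw [hPΔ, mem_filter] at hp
      obtain ⟨-, ha, h⟩ := hp
      rw [mem_union, mem_biUnion, mem_biUnion]
      rcases h with h | h
      · exact Or.inl ⟨a, h, mem_image.2 ⟨b, mem_filter.2 ⟨mem_univ _, ha⟩, rfl⟩⟩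
      · exact Or.inr ⟨b, h, mem_image.2 ⟨a, mem_filter.2 ⟨mem_univ _, ha.symm⟩, rfl⟩⟩
    have hnb : ∀ v : WV X, (univ.filter fun w : WV X => G.Adj v.1 w.1).card ≤ 3 := by
      intro v
      rw [← h3 v.1, ← card_neighborFinset_eq_degree]
      refine card_le_card_of_injOn Subtype.val (fun w hw => ?_) Subtype.val_injective.injOn
      have := (mem_filter.1 hw).2
      exact (mem_neighborFinset _ _ _).2 this
    have hb : ∀ f : WV X → WV X → WV X × WV X, (Δ.biUnion fun v =>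
        (univ.filter fun w : WV X => G.Adj v.1 w.1).image fun w => f v w).card ≤ 3 * Δ.card := by
      intro f
      refine card_biUnion_le.trans ?_
      rw [mul_comm, ← smul_eq_mul, ← sum_const]
      exact sum_le_sum fun v _ => card_image_le.trans (hnb v)
    have h7 := hb fun v w => (v, w)
    have h8 := hb fun v w => (w, v)
    have h9 := (card_le_card hsub3).trans (card_union_le _ _)
    omega
  -- candidates
  have hT2c : T2.card ≤ E.card + Δ.card := by
    set T3 : Finset U := T2.filter fun u => Cuts (inc G X) S (Sum.inr u) with hT3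
    set T4 : Finset U := T2.filter fun u => ¬ Cuts (inc G X) S (Sum.inr u) with hT4
    have h7 : T2.card = T3.card + T4.card := (card_filter_add_card_filter_not _).symm
    have h8 : T3.card ≤ E.card := by
      refine hX.card_le_pairs _ _ fun u hu => ?_
      rw [hT3, mem_filter, hT2, mem_filter] at hu
      obtain ⟨⟨-, hu1, -⟩, ⟨v, hv, hvS⟩, w, hw, hwS⟩ := hu
      rw [inr_mem] at hv hw
      rw [hS, mem_tr] at hvS hwS
      exact hX.yc_edge (hX.yc_D hu1) (mem_union_right _ hv) hvS (mem_union_right _ hw) hwS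
    have h9 : T4.card ≤ Δ.card := by
      refine hX.card_le_verts _ _ fun u hu => ?_
      rw [hT4, mem_filter, hT2, mem_filter] at hu
      obtain ⟨⟨-, hu1, ⟨v, hv, hvS⟩, w, hw, hwS⟩, hn⟩ := hu
      have hv' := hv
      have hw' := hw
      rw [inr_mem] at hv' hw'
      by_cases a1 : v ∈ S
      · by_cases a2 : w ∈ S
        · exact ⟨w, (memΔ w).2 fun h => hwS (h.1 a2), mem_union_right _ hw'⟩
        · exact absurd ⟨⟨v, hv, a1⟩, w, hw, a2⟩ hn
      · exact ⟨v, (memΔ v).2 fun h => a1 (h.2 hvS), mem_union_right _ hv'⟩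
    omega
  have h7 : κ₃ ≤ 3 * E.card + 7 * Δ.card := by
    have := (card_le_card hP'sub).trans (card_union_le _ _)
    omega
  have h8 : (κ₃ : ℝ) ≤ 3 * E.card + 7 * Δ.card := by exact_mod_cast h7
  nlinarith [hκ, hΔk, hEk, hB0]

end Pool.Agent.K5
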