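import Mathlib
import Pool.Agent.Work.MP_974d84_co_k5.HyperLow
import Pool.Agent.Work.MP_974d84_co_k5.Round
import Pool.Agent.Work.MP_974d84_co_k5.Params
import Pool.Agent.Work.MP_974d84_co_k5.R1

/-!
# The choice of the sites
-/

set_option linter.unusedSectionVars false

namespace Pool.Agent.K5

open Finset SimpleGraph Pool.Agent.Exp Pool.Agent.Log5

variable {V U ι : Type} [Fintype V] [DecidableEq V] [Fintype U] [DecidableEq U] [Fintype ι]
  [DecidableEq ι] {G : SimpleGraph V} [DecidableRel G.Adj] {X : U → Finset V}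

open Classical in
/-- **Choice of the sites, from the partitions.** -/
theorem choose_sites (h3 : ∀ v, G.degree v = 3) {k : ℕ} (hc : CycConn G k) (hX : Cand G X)
    {Ξ : Type} [Fintype Ξ] [Nonempty Ξ] (c : Ξ → WV X → WV X) {B κ κ₃ K : ℕ}
    (hcls : ∀ ξ v, K ≤ (univ.filter fun y => c ξ y = c ξ v).card)
    (hB : ∀ S : Finset (WV X), ∑ ξ, ((univ.filter fun v => ¬ (v ∈ S ↔ c ξ v ∈ S)).card : ℝ) ≤
      (B : ℝ) * dd (G0 G X) S * Fintype.card Ξ)
    (hKk : K ≤ k) (hK : 50 * κ₃ ≤ K) (hκ : (3 + 7 * B) * κ < κ₃)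
    (A : ι → Finset U) (hA : ∀ i j, i ≠ j → Disjoint (A i) (A j))
    (hq : ∀ i, 2 ^ Fintype.card Ξ ≤ (A i).card) :
    ∃ a : ι → U, (∀ i, a i ∈ A i) ∧ ∀ Q : Finset V, Disjoint Q ((univ.image a).biUnion X) →
      (4 * B + 3) * κ < Q.card → (4 * B + 3) * κ < ((univ \ (univ.image a).biUnion X) \ Q).card →
      κ ≤ (eQ G ((univ.image a).biUnion X) Q).card := by
  obtain ⟨a, ha, hsel⟩ := hyper_select (inc G X) (fun ξ => Setoid.ker (c ξ)) κ₃
    (fun ξ r hr h2 => hyper_con r h3 hc hX hKk hK (Setoid.ker (c ξ)) (fun v => by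
      refine (hcls ξ v).trans (card_le_card fun y hy => ?_)
      rw [mem_filter] at hy ⊢
      exact ⟨mem_univ _, hy.2⟩) hr h2)
    (fun i => (A i).map ⟨(Sum.inr : U → (WV X × WV X) ⊕ U), Sum.inr_injective⟩)
    (fun i j hij => by
      rw [Finset.disjoint_left]
      intro e he he'
      obtain ⟨u, hu, rfl⟩ := mem_map.1 he
      obtain ⟨u', hu', h⟩ := mem_map.1 he'
      have h1 : u' = u := Sum.inr_injective h
      subst h1
      exact Finset.disjoint_left.1 (hA i j hij) hu hu')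
    (fun i => by rw [card_map]; exact hq i)
  have h1 : ∀ i, ∃ u, u ∈ A i ∧ (Sum.inr u : (WV X × WV X) ⊕ U) = a i := by
    intro i
    obtain ⟨u, hu, h⟩ := mem_map.1 (ha i)
    exact ⟨u, hu, h⟩
  choose a' ha' hae using h1
  have hinj : Function.Injective a' := by
    intro i j hij
    by_contra hne
    exact Finset.disjoint_left.1 (hA i j hne) (ha' i) (hij ▸ ha' j)
  refine ⟨a', ha', fun Q hQ q1 q2 => ?_⟩
  refine rounding h3 hX c (B := (B : ℝ)) (by positivity) hB (κ := κ) (κ₃ := κ₃) ?_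
    (by exact_mod_cast hκ) hQ ?_ ?_
  · intro ξ S hS ne1 ne2 T hT T' hT'
    obtain ⟨w, hw⟩ := ne2
    have h5 := hsel ξ S (fun v w h => hS v w h) ne1 ⟨w, mem_compl.1 hw⟩
    have e1 : T = (univ.filter fun i => Cuts (inc G X) S (a i)).image a' := by
      ext u
      rw [hT, mem_image, mem_image]
      constructor
      · rintro ⟨⟨i, -, rfl⟩, h6⟩
        refine ⟨i, mem_filter.2 ⟨mem_univ _, ?_⟩, rfl⟩
        rw [← hae]
        exact h6
      · rintro ⟨i, hi, rfl⟩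
        refine ⟨⟨i, mem_univ _, rfl⟩, ?_⟩
        rw [hae]
        exact (mem_filter.1 hi).2
    have e2 : T' = univ.filter fun e => Cuts (inc G X) S e := by
      ext e
      rw [hT', mem_filter]
      simp
    rw [e1, card_image_of_injective _ hinj, e2]
    convert h5
  · have : (4 * (B : ℝ) * κ + 3 * κ) = (((4 * B + 3) * κ : ℕ) : ℝ) := by push_cast; ring
    rw [this]
    exact_mod_cast q1
  · have : (4 * (B : ℝ) * κ + 3 * κ) = (((4 * B + 3) * κ : ℕ) : ℝ) := by push_cast; ring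
    rw [this]
    exact_mod_cast q2

/-- The constants. -/
theorem site_params (κ : ℕ) : ∃ ρ m s : ℕ, 4 * ρ ≤ 2 ^ m ∧ 8 * s + 4 * m + 7 ≤ ρ ∧
    50 * ((3 + 7 * (9 * ρ * 2 ^ (m + 1))) * κ + 1) ≤ 2 ^ s := by
  obtain ⟨ρ, m, s, b, τ, h1, h2, h3, h4, h5, h6, h7⟩ := params (b' := 1 / (κ + 1)) (by positivity)
  refine ⟨ρ, m, s, h1, h2, ?_⟩
  set B : ℝ := 9 * ρ * 2 ^ (m + 1) with hB
  have hB0 : 0 ≤ B := by positivity
  set N : ℝ := ((2 ^ s : ℕ) : ℝ) with hN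
  have hN0 : 0 < N := by positivity
  have k1 : 0 < (κ : ℝ) + 1 := by positivity
  -- `b ≤ 1 / ((κ + 1) (1 + 3 B))`
  have g1 : b * ((1 + 3 * B) * (κ + 1)) ≤ 1 := by
    have := mul_le_mul_of_nonneg_right h6 k1.le
    rw [one_div, inv_mul_cancel₀ k1.ne'] at this
    linarith
  have g2 : 8 / Real.sqrt N ≤ b ^ 2 / 16 := by linarith
  have hs : 0 < Real.sqrt N := Real.sqrt_pos.2 hN0
  have g3 : 128 ≤ b ^ 2 * Real.sqrt N := by
    rw [div_le_iff₀ hs] at g2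
    linarith
  have g4 : 128 ^ 2 ≤ b ^ 4 * N := by
    have h8 : (128 : ℝ) ^ 2 ≤ (b ^ 2 * Real.sqrt N) ^ 2 := pow_le_pow_left₀ (by norm_num) g3 2
    have h9 : (b ^ 2 * Real.sqrt N) ^ 2 = b ^ 4 * N := by
      rw [mul_pow, Real.sq_sqrt hN0.le]
      ring
    linarith
  set M : ℝ := (1 + 3 * B) * (κ + 1) with hM
  have hM1 : 1 ≤ M := by
    have : 0 ≤ B * κ := by positivity
    rw [hM]
    nlinarith
  have g5 : b ^ 4 * M ^ 4 ≤ 1 := by
    rw [← mul_pow]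
    exact pow_le_one₀ (by positivity) g1
  have g6 : (128 : ℝ) ^ 2 * M ^ 4 ≤ N := by
    have h8 : b ^ 4 * N * M ^ 4 ≤ N := by nlinarith
    have h9 : (128 : ℝ) ^ 2 * M ^ 4 ≤ b ^ 4 * N * M ^ 4 :=
      mul_le_mul_of_nonneg_right g4 (by positivity)
    linarith
  have g7 : M ≤ M ^ 4 := by
    calc M = M ^ 1 := (pow_one M).symm
      _ ≤ M ^ 4 := pow_le_pow_right₀ hM1 (by norm_num)
  have g8 : 50 * ((3 + 7 * B) * κ + 1) ≤ 200 * M := by
    have : 0 ≤ B * κ := by positivity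
    rw [hM]
    nlinarith
  have g9 : 50 * ((3 + 7 * B) * κ + 1) ≤ N := by nlinarith
  have g10 : ((50 * ((3 + 7 * (9 * ρ * 2 ^ (m + 1))) * κ + 1) : ℕ) : ℝ) ≤ ((2 ^ s : ℕ) : ℝ) := by
    push_cast
    push_cast [hB, hN] at g9
    linarith
  exact_mod_cast g10

/-- **Theorem R.** One can choose one candidate set from every group so that, after all chosen
sets have been deleted, all edge cuts with two large sides still have at least `κ` edges. -/
theorem theorem_R_gen (κ : ℕ) : ∃ q₀ s₁ k₀ R₀ : ℕ, ∀ k, k₀ ≤ k → ∀ {V : Type} [Fintype V]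
    [DecidableEq V] (G : SimpleGraph V) [DecidableRel G.Adj], (∀ v, G.degree v = 3) →
    CycConn G k → Gir G k → ∀ {U : Type} [Fintype U] [DecidableEq U] (X : U → Finset V),
    Cand G X → (∀ u u', u ≠ u' → ∀ x ∈ X u, ∀ y ∈ X u', y ∉ Bl G.Adj R₀ x) →
    ∀ {ι : Type} [Fintype ι] [DecidableEq ι] (A : ι → Finset U),
    (∀ i j, i ≠ j → Disjoint (A i) (A j)) → (∀ i, q₀ ≤ (A i).card) →
    ∃ a : ι → U, (∀ i, a i ∈ A i) ∧ ∀ Q : Finset V, Disjoint Q ((univ.image a).biUnion X) →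
      s₁ ≤ Q.card → s₁ ≤ ((univ \ (univ.image a).biUnion X) \ Q).card →
      κ ≤ (eQ G ((univ.image a).biUnion X) Q).card := by
  obtain ⟨ρ, m, s, h1, h2, h3⟩ := site_params κ
  refine ⟨2 ^ (2 ^ ρ) ^ (3 * 2 ^ (4 * ρ)), (4 * (9 * ρ * 2 ^ (m + 1)) + 3) * κ + 1,
    max (2 ^ s) (3 * 2 ^ ρ + 3), 2 * ρ, ?_⟩
  intro k hk V _ _ G _ hdeg hc hg U _ _ X hX hfar ι _ _ A hA hq
  have hk1 : 2 ^ s ≤ k := (le_max_left _ _).trans hk
  have hk2 : 3 * 2 ^ ρ + 3 ≤ k := (le_max_right _ _).trans hk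
  have hg' : Gir G (3 * 2 ^ ρ + 3) := fun S hS => hg S (hS.trans_le hk2)
  obtain ⟨Ξ, _, _, c, c1, -, c3, -, -, c6⟩ := exists_partitions_G0 hdeg hX h1 h2 hfar hg'
  obtain ⟨a, ha, h⟩ := choose_sites hdeg hc hX c (B := 9 * ρ * 2 ^ (m + 1)) (κ := κ)
    (κ₃ := (3 + 7 * (9 * ρ * 2 ^ (m + 1))) * κ + 1) (K := 2 ^ s) c3
    (fun S => by
      push_cast
      convert c6 S) hk1 h3 (Nat.lt_succ_self _) A hA
    (fun i => (Nat.pow_le_pow_right (by norm_num) c1).trans (hq i))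
  exact ⟨a, ha, fun Q hQ q1 q2 => h Q hQ q1 q2⟩

end Pool.Agent.K5
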