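import Mathlib
import Pool.Agent.Work.MP_974d84_co_k5.R3
import Pool.Agent.Work.MP_974d84_co_k5.Defs5

/-!
# The choice of the sites, with all small cuts outside the triples still large
-/

set_option linter.unusedSectionVars false

namespace Pool.Agent.K5

open Finset SimpleGraph Pool.Agent.Exp Pool.Agent.Log5 Pool.Agent.Log5.Clu

/-- A set with a centre is joined. -/
theorem joined_centre {V : Type} [Fintype V] [DecidableEq V] {G : SimpleGraph V}
    {X : Finset V} {t : V} (ht : t ∈ X) (hX : X ⊆ Bl G.Adj 1 t) : Joined G X := by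
  have hadj : ∀ y ∈ X, y ≠ t → G.Adj t y := by
    intro y hy hne
    rcases mem_Bl_succ.1 (hX hy) with h | ⟨u, hu, huy⟩
    · exact absurd (mem_Bl_zero.1 h) hne
    · rw [mem_Bl_zero] at hu
      rw [hu] at huy
      exact huy
  intro A hA hne hne'
  by_cases h : t ∈ A
  · obtain ⟨y, hy, hyA⟩ : ∃ y ∈ X, y ∉ A := by
      by_contra hcon
      push Not at hcon
      exact hne' (hA.antisymm hcon)
    exact ⟨t, h, y, hy, hyA, hadj y hy fun h1 => hyA (h1 ▸ h)⟩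
  · obtain ⟨y, hy⟩ := hne
    exact ⟨y, hy, t, ht, h, (hadj y (hA hy) fun h1 => h (h1 ▸ hy)).symm⟩

/-- X1 (note 8516) -/
theorem theorem_R (κ : ℕ) : ∃ R₀ q₀ s₁ k₀ : ℕ, 0 < q₀ ∧ ∀ {V : Type} [Fintype V] [DecidableEq V]
    (G : SimpleGraph V) [DecidableRel G.Adj], (∀ v, G.degree v = 3) → CycConn G k₀ → Gir G k₀ →
    ∀ (w : ℕ) (u : Fin w → Fin q₀ → V) (X : Fin w → Fin q₀ → Finset V),
    (∀ i a, u i a ∈ X i a ∧ X i a ⊆ Bl G.Adj 1 (u i a) ∧ (X i a).card ≤ 3) →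
    (∀ i a j b, (i, a) ≠ (j, b) → Disjoint (Bl G.Adj R₀ (u i a)) (Bl G.Adj R₀ (u j b))) →
    ∃ a : Fin w → Fin q₀, ∀ Q : Finset V,
      s₁ ≤ (Q \ univ.biUnion fun i => X i (a i)).card →
      s₁ ≤ (Qᶜ \ univ.biUnion fun i => X i (a i)).card →
      κ ≤ ds G (univ.biUnion fun i => X i (a i)) Q := by
  obtain ⟨q₀, s₁, k₀, R₀, hmain⟩ := theorem_R_gen κ
  refine ⟨R₀ + 3, q₀ + 1, s₁, k₀, Nat.succ_pos _, ?_⟩
  intro V _ _ G _ h3 hc hg w u X hX hR
  have hsym : ∀ a b, G.Adj a b → G.Adj b a := fun a b h => h.symm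
  have hsep : ∀ p p' : Fin w × Fin (q₀ + 1), p ≠ p' → ∀ x ∈ X p.1 p.2, ∀ y ∈ X p'.1 p'.2,
      y ∉ Bl G.Adj (R₀ + 2) x := by
    intro p p' hne x hx y hy hxy
    have h1 : x ∈ Bl G.Adj 1 (u p.1 p.2) := (hX p.1 p.2).2.1 hx
    have h2 : y ∈ Bl G.Adj 1 (u p'.1 p'.2) := (hX p'.1 p'.2).2.1 hy
    have h4 : y ∈ Bl G.Adj (R₀ + 3) (u p.1 p.2) := by
      have := Bl_comp h1 hxy
      rwa [show 1 + (R₀ + 2) = R₀ + 3 by ring] at this
    have h5 : y ∈ Bl G.Adj (R₀ + 3) (u p'.1 p'.2) := Bl_mono (by omega) _ h2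
    exact Finset.disjoint_left.1 (hR p.1 p.2 p'.1 p'.2 hne) h4 h5
  have hcand : Cand G fun p : Fin w × Fin (q₀ + 1) => X p.1 p.2 := {
    ne := fun p => ⟨u p.1 p.2, (hX p.1 p.2).1⟩
    joined := fun p => joined_centre (hX p.1 p.2).1 (hX p.1 p.2).2.1
    card := fun p => (hX p.1 p.2).2.2
    disj := fun p p' hne x hx y hy h => by
      refine hsep p p' hne x hx y hy ?_
      rw [h]
      exact Bl_self _ _
    nadj := fun p p' hne x hx y hy h => hsep p p' hne x hx y hy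
      (Bl_mono (by omega) _ (mem_Bl_succ.2 (Or.inr ⟨x, mem_Bl_zero.2 rfl, h⟩) :
        y ∈ Bl G.Adj (0 + 1) x))
    far := fun p p' hne x hx y hy z h1 h2 => by
      refine hsep p p' hne x hx y hy (Bl_mono (show 1 + 1 ≤ R₀ + 2 by omega) _ ?_)
      exact mem_Bl_succ.2 (Or.inr ⟨z, (mem_Bl_succ.2 (Or.inr ⟨x, mem_Bl_zero.2 rfl, h1⟩) :
        z ∈ Bl G.Adj (0 + 1) x), h2.symm⟩) }
  obtain ⟨a, ha, h⟩ := hmain k₀ le_rfl G h3 hc hg (fun p : Fin w × Fin (q₀ + 1) => X p.1 p.2)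
    hcand (fun p p' hne x hx y hy h => hsep p p' hne x hx y hy (Bl_mono (by omega) _ h))
    (fun i : Fin w => univ.map ⟨fun b : Fin (q₀ + 1) => (i, b), fun b b' h => (Prod.mk.inj h).2⟩)
    (fun i j hij => by
      rw [Finset.disjoint_left]
      intro p hp hp'
      obtain ⟨b, -, rfl⟩ := mem_map.1 hp
      obtain ⟨b', -, h⟩ := mem_map.1 hp'
      exact hij (Prod.mk.inj h).1.symm)
    (fun i => by
      rw [card_map, card_univ, Fintype.card_fin]
      omega)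
  have ha' : ∀ i, ∃ b : Fin (q₀ + 1), a i = (i, b) := by
    intro i
    obtain ⟨b, -, hb⟩ := mem_map.1 (ha i)
    exact ⟨b, hb.symm⟩
  choose b hb using ha'
  have hD : (univ.image a).biUnion (fun p : Fin w × Fin (q₀ + 1) => X p.1 p.2) =
      univ.biUnion fun i => X i (b i) := by
    ext v
    rw [mem_biUnion, mem_biUnion]
    constructor
    · rintro ⟨p, hp, hv⟩
      obtain ⟨i, -, rfl⟩ := mem_image.1 hp
      rw [hb] at hv
      exact ⟨i, mem_univ _, hv⟩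
    · rintro ⟨i, -, hv⟩
      refine ⟨a i, mem_image_of_mem _ (mem_univ _), ?_⟩
      rw [hb]
      exact hv
  refine ⟨b, fun Q q1 q2 => ?_⟩
  set D := univ.biUnion fun i => X i (b i) with hDdef
  have h1 := h (Q \ D) (by rw [hD]; exact sdiff_disjoint) q1 (by
    rw [hD]
    have : (univ \ D) \ (Q \ D) = Qᶜ \ D := by
      ext v
      simp only [mem_sdiff, mem_univ, true_and, mem_compl]
      tauto
    rw [this]
    exact q2)
  rw [hD] at h1
  have h2 : eQ G D (Q \ D) = (univ : Finset (V × V)).filter fun p =>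
      p.1 ∈ Q ∧ p.2 ∉ Q ∧ p.1 ∉ D ∧ p.2 ∉ D ∧ G.Adj p.1 p.2 := by
    ext p
    rw [mem_eQ, mem_filter, mem_sdiff, mem_sdiff]
    simp only [mem_univ, true_and]
    tauto
  rw [h2] at h1
  exact h1

end Pool.Agent.K5
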