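import Mathlib
import Pool.Agent.Work.MP_974d84_co_k5.SitesOf
import Pool.Agent.Work.MP_974d84_co_k5.PickX6
import Pool.Agent.Work.MP_974d84_co_k5.FamCount
import Pool.Agent.Work.MP_974d84_co_k5.TheoremR

/-!
# Module X8: the sites of the odd circuits
-/

set_option linter.unusedSectionVars false

namespace Pool.Agent.K5

open Finset SimpleGraph Pool.Agent.Exp Pool.Agent.Log5 Pool.Agent.Log5.Clu

theorem sites_exact (κ a : ℕ) : ∃ (C₀ : ℝ) (s₁ : ℕ), ∀ C, C₀ ≤ C → ∃ k₀ N₀ : ℕ, ∀ N k, N₀ ≤ N →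
    k₀ ≤ k → ∀ {V : Type} [Fintype V] [DecidableEq V] (G : SimpleGraph V) [DecidableRel G.Adj],
    (∀ v, G.degree v = 3) → (∀ A : Finset V, A.Nonempty → Aᶜ.Nonempty → 2 ≤ dd G A) →
    CycConn G k → Gir G k → ∀ {r : ℕ} (S : Fin r → Finset V), Cores G C S → Facts G C N k S →
    ∀ F : SimpleGraph V, F ≤ G → (∀ v, (F.neighborSet v).ncard = 2) →
    ∃ μ ν : V → V, (∀ v, μ (μ v) = v) ∧ (∀ v, ν (ν v) = v) ∧ (∀ v, G.Adj v (μ v)) ∧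
      (∀ v, ν v ≠ v → G.Adj v (ν v)) ∧ (∀ v, μ v ≠ ν v) ∧
      (∀ v v', ν v = v → ν v' = v' → v ≠ v' → Disjoint (Bl G.Adj a v) (Bl G.Adj a v')) ∧
      (∀ X : Finset V, k * (X.filter fun v => ν v = v).card ≤ X.card + k * dd G X) ∧
      (∀ P, Fm G S P → k₀ ≤ dd G P → ∀ T' : Finset V, (∀ t ∈ T', ν t = t ∧ Sp G 2 P t) →
        80 * T'.card ≤ dd G P) ∧
      ∀ Q D : Finset V, (∀ v, v ∈ D ↔ ∃ t, ν t = t ∧ (v = t ∨ (G.Adj t v ∧ v ≠ μ t))) →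
        s₁ ≤ (Q \ D).card → s₁ ≤ (Qᶜ \ D).card → κ ≤ ds G D Q := by
  obtain ⟨R₀, q₀, s₁, kR, hq₀, hR⟩ := theorem_R κ
  obtain ⟨κ', C₀, hF⟩ := fam_count
  obtain ⟨q, D₀, hq, hP⟩ := pick_x6 2 80 (by norm_num) κ'
  refine ⟨C₀, s₁, fun C hC => ?_⟩
  obtain ⟨kF, NF, hFm⟩ := hF C hC
  obtain ⟨k₀, hk₀⟩ := sites_exact_of (a := a) (κ := κ) (R₀ := R₀) (q₀ := q₀) (s₁ := s₁) (kR := kR)
    (q := q) (D₀ := D₀) (κ' := κ') (C := C) (kF := kF) (NF := NF) @hR @hP @hFm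
  exact ⟨k₀, NF, @hk₀⟩

end Pool.Agent.K5
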