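import Mathlib
import Pool.Agent.Work.MP_974d84_co_k5.SmallLab
import Pool.Agent.Work.MP_974d84_co_k5.CritReal

/-!
# Circulations with values between 1 and 4 in cubic graphs with at most six vertices
-/

namespace Pool.Agent.K5

open Finset SimpleGraph Pool.Agent.Exp

/-- **Cubic graphs with at most six vertices.** -/
theorem small_real {V : Type} [Fintype V] [DecidableEq V] (G : SimpleGraph V) [DecidableRel G.Adj]
    (h3 : ∀ v, G.degree v = 3) (h6 : Fintype.card V ≤ 6)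
    (_hbr : ∀ S : Finset V, S.Nonempty → Sᶜ.Nonempty → 2 ≤ dd G S) :
    ∃ f : V → V → ℝ, (∀ u v, f u v = - f v u) ∧ (∀ v, ∑ u, f v u = 0) ∧
      (∀ u v, ¬ G.Adj u v → f u v = 0) ∧ ∀ u v, G.Adj u v → 1 ≤ |f u v| ∧ |f u v| ≤ 4 := by
  obtain ⟨x, hx, hX⟩ := small_labels h3 h6
  obtain ⟨f, h1, h2, h4, h5⟩ := crit_real G (r := 5) (by norm_num) h3 x hx fun X => by
    have h := hX X
    have h' : ((5 * |∑ v ∈ X, x v| : ℤ) : ℝ) ≤ ((3 * dd G X : ℤ) : ℝ) := by exact_mod_cast h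
    push_cast at h'
    linarith
  refine ⟨f, h1, h2, h4, fun u v huv => ⟨(h5 u v huv).1, (h5 u v huv).2.trans (by norm_num)⟩⟩

end Pool.Agent.K5
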