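import Mathlib
import Pool.Agent.Work.MP_974d84_co_log.Comp
import Pool.Agent.Work.MP_974d84_co_log.Girth
import Pool.Agent.Work.MP_974d84_co_iso.Part
import Pool.Agent.Work.MP_974d84_co_k5.CoresEx
import Pool.Agent.Work.MP_974d84_co_k5.CoreFacts
import Pool.Agent.Work.MP_974d84_co_k5.CritReal
import Pool.Agent.Work.MP_974d84_co_k5.SmallReal
import Pool.Agent.Work.MP_974d84_co_k5.Centres
import Pool.Agent.Work.MP_974d84_co_k5.SitesExact
import Pool.Agent.Work.MP_974d84_co_k5.MainXA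
import Pool.Agent.Work.MP_974d84_co_k5.ConstX

/-!
# ROOM K5, X9: nowhere-zero flows of cubic graphs of large cyclic connectivity
-/

set_option linter.unusedSectionVars false

namespace Pool.Agent.K5

open Finset SimpleGraph Pool.Agent.Exp Pool.Agent.Log5 Pool.Agent.Log5.Clu MP974d84

/-- **The exact theorem.** -/
theorem main_exact : ∃ k : ℕ, ∀ {V : Type} [Fintype V] [DecidableEq V]
    (G : SimpleGraph V) [DecidableRel G.Adj], (∀ v, G.degree v = 3) → CycConn G k →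
    ∀ F : SimpleGraph V, F ≤ G → (∀ v, (F.neighborSet v).ncard = 2) →
    ∀ i : ℕ, 5 ≤ i → HasNZFlow (ZMod i) G := by
  obtain ⟨θ, η, ρ, m, s, a, κ, b, τ, b₁, hθ, hη, hηθ, hθ2, hρm, hρs, hb, hb1, hτ, hτs, ha, hρa,
    hba, hκ, hb₁0, hb₁, hn1, hn2⟩ := constsX 10
  obtain ⟨R, hR⟩ : ∃ R : ℕ, R = 12 * a + 10 := ⟨_, rfl⟩
  obtain ⟨C₁, hcen⟩ := centres_strong hθ hη hηθ R
  obtain ⟨C₂, hsig⟩ := region_signs hb hb1 hτ ρ s a hτs hba
  obtain ⟨C₃, s₁, hsit⟩ := sites_exact κ a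
  obtain ⟨C, hC1, hC2, hC3, hC4⟩ : ∃ C : ℝ, 100 ≤ C ∧ C₁ ≤ C ∧ C₂ ≤ C ∧ C₃ ≤ C :=
    ⟨max 100 (max C₁ (max C₂ C₃)), le_max_left _ _, (le_max_left _ _).trans (le_max_right _ _),
      (le_max_left _ _).trans ((le_max_right _ _).trans (le_max_right _ _)),
      (le_max_right _ _).trans ((le_max_right _ _).trans (le_max_right _ _))⟩
  obtain ⟨k₂, N₂, hcen⟩ := hcen C hC2
  obtain ⟨k₃, N₃, hsig⟩ := hsig C hC3
  obtain ⟨k₄, N₄, hsit⟩ := hsit C hC4
  obtain ⟨N, hN⟩ : ∃ N : ℕ, N = N₂ + N₃ + N₄ + 3600 := ⟨_, rfl⟩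
  obtain ⟨k₅, hfac⟩ := core_facts hC1 N
  obtain ⟨k, hk⟩ : ∃ k : ℕ, k = k₂ + k₃ + k₄ + k₅ + N + 2 * s₁ + (24 * a + 40) +
    3 * 2 ^ a + (2 * ρ + 2) + 10 := ⟨_, rfl⟩
  have hpow : 0 < 2 ^ a := by positivity
  refine ⟨k, ?_⟩
  intro V _ _ G _ h3 hc F hF hF2
  have hbr := no_bridge h3 hc (by omega)
  rcases gir_of_cyc h3 hc with hg | hn6
  · by_cases hV : Nonempty V
    · obtain ⟨r, S, hS⟩ := exists_cores G C
      have hFa := hfac k (by omega) G h3 hc hg S hS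
      have hbr1 : ∀ A : Finset V, A.Nonempty → Aᶜ.Nonempty → 1 ≤ dd G A := fun A h1 h2 =>
        (by norm_num : 1 ≤ 2).trans (hbr A h1 h2)
      obtain ⟨Ξ, hΞ1, hΞ2, c, hΞ, hcj, hcs, hcb, -, hcB, -⟩ :=
        Pool.Agent.Iso5.exists_partitions (G := G) h3 hρm hρs
          (fun A hA => hg A (hA.trans_le (by omega : 2 * ρ + 2 ≤ k)))
      obtain ⟨μ, ν, hμ, hν, hμa, hνa, hne, hT0, hTk, h80, hsep⟩ :=
        hsit N k (by omega) (by omega) G h3 hbr hc hg S hS hFa F hF hF2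
      exact XA.assembleX (a := a) (N := N) (k := k) (k₁ := k₂ + k₄) (κ := κ) (s₁ := s₁) (C := C)
        (b := b) (B := 9 * ρ * 2 ^ (m + 1)) (η := η) (θ := θ) (b₁ := b₁) (by linarith) h3 hc hg ha
        (by omega) (by omega) (by omega) (by omega) (by omega) (by omega) hS hFa μ ν hμ hν hμa
        hνa hne hT0 hTk
        (fun P hP hPk T' hT' => h80 P hP (by omega) T' hT')
        hsep
        (fun T hT => by
          obtain ⟨M, β, e1, e2, e3, e4, e5⟩ :=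
            hcen N k (by omega) (by omega) G h3 hbr1 hc S hS hFa T hT
          subst hR
          exact ⟨M, β, e1, e2, e3, e4, fun i Z h1 h2 h4 => e5 i Z h1 h2 (by omega)⟩)
        Ξ c hcB
        (fun m p q hp hq hpq hJ w hw =>
          hsig N k (by omega) (by omega) G h3 hbr1 hc hg S hS hFa Ξ hΞ c hcj hcs hcb m p q hp hq
            hpq hJ w hw)
        hb.le (by positivity) hθ.le hθ2 hη.le (by linarith) hκ hb₁0 hb₁ hn1 hn2
    · rw [not_nonempty_iff] at hV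
      exact flow_of_real (f := fun _ _ => 0) (fun u => (IsEmpty.false u).elim)
        (fun u => (IsEmpty.false u).elim) (fun u => (IsEmpty.false u).elim)
        (fun u => (IsEmpty.false u).elim)
  · obtain ⟨f, f1, f2, f3, f4⟩ := small_real G h3 hn6 hbr
    exact flow_of_real f1 f2 f3 f4

end Pool.Agent.K5
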