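import Mathlib
import Pool.Agent.Work.MP_974d84_co_k5.MainGC
import Pool.Agent.Work.MP_974d84_co_k5.ConstG
import Pool.Agent.Work.MP_974d84_co_k5.CoreFactsG
import Pool.Agent.Work.MP_974d84_co_k5.CentresG
import Pool.Agent.Work.MP_974d84_co_k5.RegionFamG
import Pool.Agent.Work.MP_974d84_co_k5.SignsG
import Pool.Agent.Work.MP_974d84_co_k5.CoresEx
import Pool.Agent.Work.MP_974d84_co_k5.CritReal
import Pool.Agent.Work.MP_974d84_co_k5.Frame
import Pool.Agent.Work.MP_974d84_co_k5.Windows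
import Pool.Agent.Work.MP_974d84_co_k5.PatternW
import Pool.Agent.Work.MP_974d84_co_k5.MainWB

/-!
# Theorem (G): large girth and explicit cyclic connectivity
-/

set_option linter.unusedSectionVars false

namespace Pool.Agent.K5

open Finset SimpleGraph Pool.Agent.Exp Pool.Agent.Log5 Pool.Agent.Log5.Clu

/-- **Theorem (G).** Cubic graphs of cyclic connectivity `κ` and large girth have circular flow
number at most `4 κ / (κ - 4) + ε`. -/
theorem main_g {κ : ℕ} (hκ : 5 ≤ κ) {ε : ℝ} (hε : 0 < ε) : ∃ g : ℕ, ∀ {V : Type} [Fintype V]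
    [DecidableEq V] (G : SimpleGraph V) [DecidableRel G.Adj], (∀ v, G.degree v = 3) →
    CycConn G κ → Gir G g → (∀ A : Finset V, A.Nonempty → Aᶜ.Nonempty → 2 ≤ dd G A) →
    ∀ F : SimpleGraph V, F ≤ G → (∀ v, (F.neighborSet v).ncard = 2) →
    ∃ f : V → V → ℝ, (∀ u v, f u v = - f v u) ∧ (∀ v, ∑ u, f v u = 0) ∧
      (∀ u v, ¬ G.Adj u v → f u v = 0) ∧
      ∀ u v, G.Adj u v → 1 ≤ |f u v| ∧ |f u v| ≤ 4 * κ / (κ - 4) - 1 + ε := by
  obtain ⟨e, δ, θ, η, b, J, hδ, hθ, hη, hb, hηθ, hJe, hnum⟩ := constsG hκ hε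
  obtain ⟨j₁, h, C₁, hh, hsig⟩ := signs_g hb
  obtain ⟨cr, C₂, hrf⟩ := rf_countG
  obtain ⟨j₂, hj₂⟩ : ∃ n : ℕ, (1 / 2 : ℝ) ^ n < θ := exists_pow_lt_of_lt_one hθ (by norm_num)
  obtain ⟨j₀, hj₀⟩ : ∃ j : ℕ, j = j₂ + J + j₁ := ⟨_, rfl⟩
  obtain ⟨R, hR⟩ : ∃ R : ℕ, R = 2 * (j₀ + 1) + 2 := ⟨_, rfl⟩
  obtain ⟨c, hc0, hwin⟩ := exists_windows h R hh cr
  obtain ⟨q, hq1, M, k₃, hpat⟩ := exists_pattern J R c (by omega)
  obtain ⟨D₀, hwin⟩ := hwin q hq1 1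
  obtain ⟨R', hR'⟩ : ∃ R' : ℕ, R' = M + 2 * q + R := ⟨_, rfl⟩
  obtain ⟨C₃, hcen⟩ := centresG hθ hη hηθ R'
  obtain ⟨C, hC0, hC1, hC2, hC3⟩ : ∃ C : ℝ, 100 ≤ C ∧ C₁ ≤ C ∧ C₂ ≤ C ∧ C₃ ≤ C :=
    ⟨max (max 100 C₁) (max C₂ C₃), (le_max_left _ _).trans (le_max_left _ _),
      (le_max_right _ _).trans (le_max_left _ _), (le_max_left _ _).trans (le_max_right _ _),
      (le_max_right _ _).trans (le_max_right _ _)⟩
  obtain ⟨k₁, N₁, hsig⟩ := hsig C hC1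
  obtain ⟨k₂, hrf⟩ := hrf C hC2
  obtain ⟨k₄, N₄, hcen⟩ := hcen C hC3
  obtain ⟨N, hN⟩ : ∃ N : ℕ, N = N₁ + N₄ := ⟨_, rfl⟩
  obtain ⟨k₆, hk₆⟩ : ∃ n : ℕ, 5 / η < n := exists_nat_gt _
  obtain ⟨k₀, hk₀⟩ : ∃ k₀ : ℕ, k₀ = k₁ + k₂ + D₀ := ⟨_, rfl⟩
  obtain ⟨k, hk⟩ : ∃ k : ℕ, k = k₀ + k₃ + k₄ + (k₆ + 1) + (c * q ^ 2 + 2) + (M + 2) +
    (4 * q + 4 * (j₀ + 1) + 20) := ⟨_, rfl⟩
  obtain ⟨g₁, hfac⟩ := core_factsG hC0 N k κ hδ
  refine ⟨g₁ + k, ?_⟩
  intro V _ _ G _ h3 hc hgg hbr F hF hF2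
  classical
  have hg : Gir G k := fun A hA => hgg A (by omega)
  obtain ⟨μ, π, hf⟩ := exists_frame h3 F hF hF2
  obtain ⟨r, S, hS⟩ := exists_cores G C
  have hFa := hfac G h3 hc (fun A hA => hgg A (by omega)) S hS
  have hbr1 : ∀ A : Finset V, A.Nonempty → Aᶜ.Nonempty → 1 ≤ dd G A := fun A h1 h2 =>
    (by norm_num : 1 ≤ 2).trans (hbr A h1 h2)
  -- the windows
  set Fam : Finset (Finset V) := univ.filter fun Z => RF G S Z ∧ k₀ ≤ dd G Z with hFam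
  obtain ⟨A, hA, hAthin⟩ := hwin G hf (fun v n h1 h2 => pow_ne hf hg h1 (by omega) v) Fam
    (fun Z hZ => by
      rw [hFam, mem_filter] at hZ
      have := hZ.2.2
      omega)
    (fun v D => by
      by_cases hD : k₂ ≤ D
      · have h1 := hrf G hbr1 S hS v D
          (Fam.filter fun Z => v ∈ Z ∧ dd G Z = D) hD (fun Z hZ => by
            rw [mem_filter, hFam, mem_filter] at hZ
            exact ⟨hZ.1.2.1, hZ.2.1, hZ.2.2⟩)
        simpa using h1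
      · have h1 : (Fam.filter fun Z => v ∈ Z ∧ dd G Z = D) = ∅ := by
          rw [filter_eq_empty_iff]
          rintro Z hZ ⟨-, hZD⟩
          rw [hFam, mem_filter] at hZ
          have := hZ.2.2
          omega
        rw [h1, card_empty]
        push_cast
        positivity)
  obtain ⟨y, hy⟩ := hpat G hf (fun Z hZ => hg Z (hZ.trans_le (by omega))) A hA
  have hkr : (k₆ : ℝ) ≤ k := by exact_mod_cast (by omega : k₆ ≤ k)
  have hk₆0 : (0 : ℝ) < k₆ := lt_trans (by positivity) hk₆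
  have hk5 : 5 / (k : ℝ) ≤ η := by
    rw [div_lt_iff₀ hη] at hk₆
    rw [div_le_iff₀ (lt_of_lt_of_le hk₆0 hkr)]
    nlinarith
  have hj : (1 : ℝ) / 2 ^ j₀ ≤ θ := by
    refine le_trans ?_ hj₂.le
    rw [one_div_pow]
    exact one_div_le_one_div_of_le (by positivity) (pow_le_pow_right₀ (by norm_num) (by omega))
  obtain ⟨hn1, hn2⟩ := hnum j₀ (5 / k) hj hk5
  obtain ⟨x, hx, hX⟩ := assembleG (J := J) (j₀ := j₀) (R := R) (q := q) (B := c * q ^ 2) (M := M)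
    (R' := R') (N := N) (k := k) (κ := κ) (C := C) (b := b) (η := η) (θ := θ) (e := e) (δ := δ)
    h3 hg (by omega) hδ hf hA hy
    (by omega) (by omega) (by omega) (by omega) (by omega) hS hFa
    (by
      obtain ⟨M', β, e1, e2, e3, e4⟩ := hcen N k κ δ (by omega) (by omega) G h3 hbr1 S hS hFa
      exact ⟨M', β, e1, e2, e3, fun i Z h1 h2 _ h4 => e4 i Z h1 h2 (by omega)⟩)
    (fun T hT hTe w hw0 hw1 hw2 =>
      hsig N k κ δ (by omega) (by omega) G h3 hbr1 hg S hS hFa T hTe (zone G π R q) w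
        (fun a _ => ball_sub_zone (by omega) a)
        (fun a ha a' ha' hne => hA.disj a (mem_filter.1 (hT ha)).1 a' (mem_filter.1 (hT ha')).1 hne)
        hw0 (fun a s v => (hw1 a s v).trans
          (one_div_le_one_div_of_le (by positivity)
            (pow_le_pow_right₀ (by norm_num) (by omega)))) hw2 k₀ (by omega) (by omega)
        (fun Z hZ hkZ => by
          refine le_trans (Nat.mul_le_mul_left _ (card_le_card ?_))
            (hAthin Z (by rw [hFam, mem_filter]; exact ⟨mem_univ _, hZ, hkZ⟩))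
          intro a ha
          rw [mem_filter] at ha ⊢
          exact ⟨(mem_filter.1 (hT ha.1)).1, ha.2⟩))
    hb.le hθ.le hη.le hn1 hn2
  have hκ4 : (0 : ℝ) < (κ : ℝ) - 4 := by
    have : (5 : ℝ) ≤ κ := by exact_mod_cast hκ
    linarith
  have hκ0 : (4 : ℝ) ≤ 4 * κ / (κ - 4) := by
    rw [le_div_iff₀ hκ4]
    linarith
  set ρ : ℝ := 4 * κ / (κ - 4) + ε with hρ
  have h5 : 0 < ρ := by linarith
  obtain ⟨f, f1, f2, f3, f4⟩ := crit_real G (r := ρ) (by linarith) h3 x hx (fun X => by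
    have h8 : (0 : ℝ) ≤ dd G X := Nat.cast_nonneg _
    have h6 : |∑ v ∈ X, (x v : ℝ)| ≤ (ρ - 2) / ρ * dd G X :=
      (hX X).trans (mul_le_mul_of_nonneg_right hJe h8)
    have h7 := mul_le_mul_of_nonneg_left h6 h5.le
    refine h7.trans (le_of_eq ?_)
    field_simp)
  refine ⟨f, f1, f2, f3, fun u v huv => ?_⟩
  obtain ⟨g1, g2⟩ := f4 u v huv
  exact ⟨g1, by linarith⟩

end Pool.Agent.K5
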