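import Mathlib
import Pool.Agent.Work.MP_974d84_co_log.Comp
import Pool.Agent.Work.MP_974d84_co_log.Girth
import Pool.Agent.Work.MP_974d84_co_iso.Part
import Pool.Agent.Work.MP_974d84_co_k5.CoresEx
import Pool.Agent.Work.MP_974d84_co_k5.CoreFacts
import Pool.Agent.Work.MP_974d84_co_k5.CritReal
import Pool.Agent.Work.MP_974d84_co_k5.SmallReal
import Pool.Agent.Work.MP_974d84_co_k5.Centres
import Pool.Agent.Work.MP_974d84_co_k5.MainB
import Pool.Agent.Work.MP_974d84_co_k5.MainConst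

/-!
# ROOM K5, M17: real circulations of cubic graphs of large cyclic connectivity
-/

set_option linter.unusedSectionVars false

namespace Pool.Agent.K5

open Finset SimpleGraph Pool.Agent.Exp Pool.Agent.Log5 Pool.Agent.Log5.Clu

/-- **Theorem (K_eps).** -/
theorem main {ε : ℝ} (hε : 0 < ε) : ∃ k : ℕ, ∀ {V : Type} [Fintype V] [DecidableEq V]
    (G : SimpleGraph V) [DecidableRel G.Adj], (∀ v, G.degree v = 3) → CycConn G k →
    ∀ F : SimpleGraph V, F ≤ G → (∀ v, (F.neighborSet v).ncard = 2) →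
    ∃ f : V → V → ℝ, (∀ u v, f u v = - f v u) ∧ (∀ v, ∑ u, f v u = 0) ∧
      (∀ u v, ¬ G.Adj u v → f u v = 0) ∧ ∀ u v, G.Adj u v → 1 ≤ |f u v| ∧ |f u v| ≤ 4 + ε := by
  obtain ⟨θ, η, ρ, m, s, a, k₁, b, τ, hθ, hη, hηθ, hρm, hρs, hb, hb1, hτ, hτs, ha, hρa, hba, hk₁,
    hnum⟩ := consts2 hε
  obtain ⟨R, hR⟩ : ∃ R : ℕ, R = 12 * a + 10 := ⟨_, rfl⟩
  obtain ⟨C₁, hcen⟩ := centres hθ hη hηθ R
  obtain ⟨C₂, hsig⟩ := region_signs hb hb1 hτ ρ s a hτs hba
  obtain ⟨C, hC1, hC2, hC3⟩ : ∃ C : ℝ, 100 ≤ C ∧ C₁ ≤ C ∧ C₂ ≤ C :=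
    ⟨max 100 (max C₁ C₂), le_max_left _ _, (le_max_left _ _).trans (le_max_right _ _),
      (le_max_right _ _).trans (le_max_right _ _)⟩
  obtain ⟨k₂, N₂, hcen⟩ := hcen C hC2
  obtain ⟨k₃, N₃, hsig⟩ := hsig C hC3
  obtain ⟨N, hN⟩ : ∃ N : ℕ, N = N₂ + N₃ := ⟨_, rfl⟩
  obtain ⟨k₄, hfac⟩ := core_facts hC1 N
  obtain ⟨k, hk⟩ : ∃ k : ℕ, k = k₁ + k₂ + k₃ + k₄ + N + 12 * 4 ^ a + (24 * a + 40) +
    3 * 2 ^ (a + 2) + (2 * ρ + 2) := ⟨_, rfl⟩
  refine ⟨k, ?_⟩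
  intro V _ _ G _ h3 hc F hF hF2
  have hbr := no_bridge h3 hc (by omega)
  rcases gir_of_cyc h3 hc with hg | hn6
  · by_cases hV : Nonempty V
    · obtain ⟨r, S, hS⟩ := exists_cores G C
      have hFa := hfac k (by omega) G h3 hc hg S hS
      have hbr1 : ∀ A : Finset V, A.Nonempty → Aᶜ.Nonempty → 1 ≤ dd G A := fun A h1 h2 =>
        (by norm_num : 1 ≤ 2).trans (hbr A h1 h2)
      obtain ⟨Ξ, hΞ1, hΞ2, c, hΞ, hcj, hcs, hcb, -, hcB, -⟩ :=
        Pool.Agent.Iso5.exists_partitions (G := G) h3 hρm hρs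
          (fun A hA => hg A (hA.trans_le (by omega : 2 * ρ + 2 ≤ k)))
      obtain ⟨hn1, hn2⟩ := hnum k (by omega) _ rfl
      obtain ⟨x, hx, hX⟩ := assembleK (a := a) (R := R) (N := N) (k := k) (C := C) (b := b)
        (B := 9 * ρ * 2 ^ (m + 1)) (η := η) (θ := θ) (e := 4 * ε / (5 * (5 + ε))) h3 hc hg hbr ha
        (by omega) (by omega) (by omega) (by omega) (by omega) F hF hF2 hS hFa
        (fun T hT => by
          obtain ⟨M, β, e1, e2, e3, e4⟩ := hcen N k (by omega) (by omega) G h3 hbr1 hc hg S hS hFa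
            T hT
          exact ⟨M, β, e1, e2, e3, fun i Z h1 h2 _ h4 => e4 i Z h1 h2 (by omega)⟩)
        Ξ c hcB
        (fun m p q hp hq hpq hJ w hw =>
          hsig N k (by omega) (by omega) G h3 hbr1 hc hg S hS hFa Ξ hΞ c hcj hcs hcb m p q hp hq
            hpq hJ w hw)
        hb.le (by positivity) hθ.le hη.le rfl hn1 hn2
      have h5 : 0 < 5 + ε := by linarith
      obtain ⟨f, f1, f2, f3, f4⟩ := crit_real G (r := 5 + ε) (by linarith) h3 x hx (fun X => by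
        have h6 := mul_le_mul_of_nonneg_left (hX X) h5.le
        refine h6.trans (le_of_eq ?_)
        field_simp
        ring)
      refine ⟨f, f1, f2, f3, fun u v huv => ?_⟩
      obtain ⟨g1, g2⟩ := f4 u v huv
      exact ⟨g1, by linarith⟩
    · rw [not_nonempty_iff] at hV
      exact ⟨fun _ _ => 0, fun u => (IsEmpty.false u).elim, fun u => (IsEmpty.false u).elim,
        fun u => (IsEmpty.false u).elim, fun u => (IsEmpty.false u).elim⟩
  · obtain ⟨f, f1, f2, f3, f4⟩ := small_real G h3 hn6 hbr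
    refine ⟨f, f1, f2, f3, fun u v huv => ?_⟩
    obtain ⟨g1, g2⟩ := f4 u v huv
    exact ⟨g1, by linarith⟩

end Pool.Agent.K5
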