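import Mathlib
import Pool.Agent.Work.MP_974d84_co_k5.Defs5

/-!
# ROOM K5, module M17: the bound on the smeared charges
-/

set_option linter.unusedSectionVars false

namespace Pool.Agent.K5

open Finset SimpleGraph Pool.Agent.Exp Pool.Agent.Log5 Pool.Agent.Log5.Clu

variable {V : Type} [Fintype V] [DecidableEq V] (G : SimpleGraph V) [DecidableRel G.Adj]

/-- Long strands `σ` (with average `σ'`), integers `z` and gadget charges `q` together. The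
hypothesis `htog` is the conclusion of `toggle`. -/
theorem main_part {k r : ℕ} {S : Fin r → Finset V}
    (hdisj : ∀ i j, i ≠ j → Disjoint (S i) (S j))
    {σ σ' : V → ℝ} {δ₁ b₁ c₁ : ℝ} (hδ₁ : 0 ≤ δ₁) (hb₁ : 0 ≤ b₁) (hc₁ : 0 ≤ c₁)
    (hdiff : ∀ X : Finset V, |∑ v ∈ X, σ' v - ∑ v ∈ X, σ v| ≤ δ₁ * dd G X)
    (hreg : ∀ R, Region S R → ∀ X ⊆ R, |∑ v ∈ X, σ' v| ≤ b₁ * dd G X)
    (z : Fin r → ℤ)
    (hz : ∀ X, Sat S X → |∑ v ∈ X, σ' v + 4 * ∑ i ∈ univ.filter (fun i => S i ⊆ X), (z i : ℝ)| ≤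
        (b₁ + 5 / k) * dd G X)
    (q : Fin r → V → ℝ) (hq0 : ∀ i v, q i v ≠ 0 → v ∈ S i) (hq4 : ∀ i, ∑ v, q i v = 4 * z i)
    (hqA : ∀ i, ∀ A ⊆ S i, 2 * A.card ≤ (S i).card → |∑ v ∈ A, q i v| ≤ c₁ * dd G A)
    (X X' : Finset V) (A : Fin r → Finset V)
    (hA : ∀ i, A i ⊆ S i ∧ 2 * (A i).card ≤ (S i).card) (hX' : Sat S X')
    (h123 : 100 * dd G X' ≤ 123 * dd G X) (h223 : 100 * ∑ i, dd G (A i) ≤ 223 * dd G X)
    (htog : ∀ σ : V → ℝ, |∑ v ∈ X, σ v| ≤ |∑ v ∈ X', σ v| + ∑ i, |∑ v ∈ A i, σ v|) :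
    |∑ v ∈ X, (σ v + ∑ i, q i v)| ≤
      (123 / 100 * (δ₁ + b₁ + 5 / k) + 223 / 100 * (δ₁ + b₁ + c₁)) * dd G X := by
  have hk5 : (0 : ℝ) ≤ 5 / k := by positivity
  -- the saturated part
  have hq1 : ∀ i, ∑ v ∈ X', q i v = if S i ⊆ X' then 4 * (z i : ℝ) else 0 := by
    intro i
    by_cases h : S i ⊆ X'
    · rw [if_pos h, ← hq4 i]
      refine sum_subset (subset_univ _) fun v _ hv => ?_
      by_contra h0
      exact hv (h (hq0 i v h0))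
    · rw [if_neg h]
      refine sum_eq_zero fun v hv => ?_
      by_contra h0
      have h1 := hq0 i v h0
      rcases hX' i with h2 | h2
      · exact h h2
      · exact Finset.disjoint_left.1 h2 h1 hv
  have hX1 : |∑ v ∈ X', (σ v + ∑ i, q i v)| ≤ (δ₁ + b₁ + 5 / k) * dd G X' := by
    have e1 : ∑ v ∈ X', (σ v + ∑ i, q i v) =
        (∑ v ∈ X', σ' v + 4 * ∑ i ∈ univ.filter (fun i => S i ⊆ X'), (z i : ℝ)) -
          (∑ v ∈ X', σ' v - ∑ v ∈ X', σ v) := by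
      rw [sum_add_distrib, sum_comm, sum_congr rfl fun i _ => hq1 i, ← sum_filter, ← mul_sum]
      ring
    rw [e1]
    refine (abs_sub _ _).trans ?_
    have h1 := hz X' hX'
    have h2 := hdiff X'
    linarith
  -- the parts inside the cores
  have hA1 : ∀ i, |∑ v ∈ A i, (σ v + ∑ j, q j v)| ≤ (δ₁ + b₁ + c₁) * dd G (A i) := by
    intro i
    have e2 : ∑ v ∈ A i, ∑ j, q j v = ∑ v ∈ A i, q i v := by
      refine sum_congr rfl fun v hv => ?_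
      refine sum_eq_single i (fun j _ hj => ?_) (fun h => absurd (mem_univ _) h)
      by_contra h0
      exact Finset.disjoint_left.1 (hdisj j i hj) (hq0 j v h0) ((hA i).1 hv)
    have e1 : ∑ v ∈ A i, (σ v + ∑ j, q j v) =
        (∑ v ∈ A i, σ' v + ∑ v ∈ A i, q i v) - (∑ v ∈ A i, σ' v - ∑ v ∈ A i, σ v) := by
      rw [sum_add_distrib, e2]
      ring
    rw [e1]
    refine (abs_sub _ _).trans ?_
    have h0 := abs_add_le (∑ v ∈ A i, σ' v) (∑ v ∈ A i, q i v)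
    have h1 := hreg (S i) (Or.inl ⟨i, rfl⟩) (A i) (hA i).1
    have h2 := hdiff (A i)
    have h3 := hqA i (A i) (hA i).1 (hA i).2
    linarith
  have h1 := htog fun v => σ v + ∑ i, q i v
  have h2 : ∑ i, |∑ v ∈ A i, (σ v + ∑ j, q j v)| ≤ (δ₁ + b₁ + c₁) * ∑ i, (dd G (A i) : ℝ) := by
    rw [mul_sum]
    exact sum_le_sum fun i _ => hA1 i
  have h3 : (dd G X' : ℝ) ≤ 123 / 100 * dd G X := by
    have : (100 * dd G X' : ℝ) ≤ 123 * dd G X := by exact_mod_cast h123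
    linarith
  have h4 : ∑ i, (dd G (A i) : ℝ) ≤ 223 / 100 * dd G X := by
    have : (100 * ∑ i, (dd G (A i) : ℝ)) ≤ 223 * dd G X := by exact_mod_cast h223
    linarith
  have h5 : (δ₁ + b₁ + 5 / k) * dd G X' ≤ (δ₁ + b₁ + 5 / k) * (123 / 100 * dd G X) :=
    mul_le_mul_of_nonneg_left h3 (by linarith)
  have h6 : (δ₁ + b₁ + c₁) * ∑ i, (dd G (A i) : ℝ) ≤ (δ₁ + b₁ + c₁) * (223 / 100 * dd G X) :=
    mul_le_mul_of_nonneg_left h4 (by linarith)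
  calc |∑ v ∈ X, (σ v + ∑ i, q i v)| ≤ (δ₁ + b₁ + 5 / k) * (123 / 100 * dd G X) +
        (δ₁ + b₁ + c₁) * (223 / 100 * dd G X) := by linarith
    _ = _ := by ring

/-- The same without the average `σ'`. -/
theorem main_part2 {k r : ℕ} {S : Fin r → Finset V}
    (hdisj : ∀ i j, i ≠ j → Disjoint (S i) (S j))
    {σ : V → ℝ} {b₁ c₁ : ℝ} (hb₁ : 0 ≤ b₁) (hc₁ : 0 ≤ c₁)
    (hreg : ∀ R, Region S R → ∀ X ⊆ R, |∑ v ∈ X, σ v| ≤ b₁ * dd G X)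
    (z : Fin r → ℤ)
    (hz : ∀ X, Sat S X → |∑ v ∈ X, σ v + 4 * ∑ i ∈ univ.filter (fun i => S i ⊆ X), (z i : ℝ)| ≤
        (b₁ + 5 / k) * dd G X)
    (q : Fin r → V → ℝ) (hq0 : ∀ i v, q i v ≠ 0 → v ∈ S i) (hq4 : ∀ i, ∑ v, q i v = 4 * z i)
    (hqA : ∀ i, ∀ A ⊆ S i, 2 * A.card ≤ (S i).card → |∑ v ∈ A, q i v| ≤ c₁ * dd G A)
    (X X' : Finset V) (A : Fin r → Finset V)
    (hA : ∀ i, A i ⊆ S i ∧ 2 * (A i).card ≤ (S i).card) (hX' : Sat S X')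
    (h123 : 100 * dd G X' ≤ 123 * dd G X) (h223 : 100 * ∑ i, dd G (A i) ≤ 223 * dd G X)
    (htog : ∀ σ : V → ℝ, |∑ v ∈ X, σ v| ≤ |∑ v ∈ X', σ v| + ∑ i, |∑ v ∈ A i, σ v|) :
    |∑ v ∈ X, (σ v + ∑ i, q i v)| ≤
      (123 / 100 * (b₁ + 5 / k) + 223 / 100 * (b₁ + c₁)) * dd G X := by
  have h := main_part G hdisj (σ := σ) (σ' := σ) (δ₁ := 0) le_rfl hb₁ hc₁
    (fun X => by simp) hreg z hz q hq0 hq4 hqA X X' A hA hX' h123 h223 htog
  simpa using h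

end Pool.Agent.K5
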