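import Mathlib
import Pool.Agent.Work.MP_974d84_co_k5.MainA
import Pool.Agent.Work.MP_974d84_co_k5.GPathEx
import Pool.Agent.Work.MP_974d84_co_k5.Defs5
import Pool.Agent.Work.MP_974d84_co_iso.Near

/-!
# ROOM K5, assembly, part 1: the paths of all gadgets and the set of all sites
-/

set_option linter.unusedSectionVars false

namespace Pool.Agent.K5

open Finset SimpleGraph Pool.Agent.Exp Pool.Agent.Log5 Pool.Agent.Log5.Clu

variable {V : Type} [Fintype V] [DecidableEq V] {G : SimpleGraph V} [DecidableRel G.Adj]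

/-- All sites: the fixed points of `ν` and the sites of the gadgets. -/
noncomputable def sit {V Γ : Type} [Fintype V] (ν : V → V) (a : ℕ) (P : Γ → ℕ → V) : Finset V := by
  classical
  exact univ.filter fun v => ν v = v ∨ ∃ g, ∃ i ∈ gidx a, v = P g i

theorem mem_sit {Γ : Type} {ν : V → V} {a : ℕ} {P : Γ → ℕ → V} {v : V} :
    v ∈ sit ν a P ↔ (ν v = v ∨ ∃ g, ∃ i ∈ gidx a, v = P g i) := by
  unfold sit
  simp

theorem gidx_far {a i j : ℕ} (hi : i ∈ gidx a) (hj : j ∈ gidx a) (h : i < j) :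
    i + (2 * a + 1) ≤ j := by
  simp only [gidx, mem_insert, mem_singleton] at hi hj
  omega

/-- The paths of all gadgets. -/
theorem exists_paths (h3 : ∀ v, G.degree v = 3) {k a : ℕ} (hg : Gir G k)
    (hk : 24 * a + 40 ≤ k) (μ ν : V → V) (hμ : ∀ v, μ (μ v) = v) (hν : ∀ v, ν (ν v) = v)
    (hμa : ∀ v, G.Adj v (μ v)) (hνa : ∀ v, ν v ≠ v → G.Adj v (ν v)) (hne : ∀ v, μ v ≠ ν v)
    (hν0 : ∀ v v', ν v = v → ν v' = v' → v ≠ v' → Disjoint (Bl G.Adj a v) (Bl G.Adj a v'))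
    {Γ : Type} (β : Γ → V) (hβν : ∀ g, ∀ v ∈ Bl G.Adj (12 * a + 10) (β g), ν v ≠ v)
    (hβ : ∀ g g', g ≠ g' →
      Disjoint (Bl G.Adj (12 * a + 10) (β g)) (Bl G.Adj (12 * a + 10) (β g'))) :
    ∃ P : Γ → ℕ → V, (∀ g, GPath G μ ν a (P g)) ∧
      (∀ g, ∀ i ≤ 10 * a + 7, P g i ∈ Bl G.Adj i (β g)) ∧
      (∀ g i g' i', i ≤ 10 * a + 7 → i' ≤ 10 * a + 7 → P g i = P g' i' → g = g' ∧ i = i') ∧
      (∀ g, ∀ i ≤ 10 * a + 7, Bl G.Adj a (P g i) ⊆ Bl G.Adj (12 * a + 10) (β g)) ∧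
      ∀ t ∈ sit ν a P, ∀ t' ∈ sit ν a P, t ≠ t' →
        Disjoint (Bl G.Adj a t) (Bl G.Adj a t') := by
  have h1 := fun g => exists_gpath h3 hg hk μ ν hμ hν hμa hνa hne (β g)
    (fun v hv => hβν g v (Bl_mono (by omega) _ hv))
  choose P hP1 hP2 hP3 hP4 using h1
  have hball : ∀ g, ∀ i ≤ 10 * a + 7, Bl G.Adj a (P g i) ⊆ Bl G.Adj (12 * a + 10) (β g) := by
    intro g i hi x hx
    exact Bl_mono (by omega) _ (Bl_comp (hP2 g i hi) hx)
  have hinj : ∀ g i g' i', i ≤ 10 * a + 7 → i' ≤ 10 * a + 7 → P g i = P g' i' →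
      g = g' ∧ i = i' := by
    intro g i g' i' hi hi' h
    have hgg : g = g' := by
      by_contra hne'
      have h5 := hball g i hi (Bl_self a _)
      have h6 := hball g' i' hi' (Bl_self a _)
      rw [← h] at h6
      exact Finset.disjoint_left.1 (hβ g g' hne') h5 h6
    subst hgg
    exact ⟨rfl, hP3 g i i' hi hi' h⟩
  have key : ∀ t, ν t = t → ∀ g, ∀ i ≤ 10 * a + 7, Disjoint (Bl G.Adj a t) (Bl G.Adj a (P g i)) := by
    intro t ht g i hi
    rw [Finset.disjoint_left]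
    intro z hz1 hz2
    have h5 : z ∈ Bl G.Adj (i + a) (β g) := Bl_comp (hP2 g i hi) hz2
    have h6 : t ∈ Bl G.Adj (i + a + a) (β g) := Bl_comp h5 (Bl_symm (fun _ _ h => h.symm) hz1)
    exact hβν g t (Bl_mono (by omega) _ h6) ht
  refine ⟨P, hP1, hP2, hinj, hball, ?_⟩
  intro t ht t' ht' hne'
  rw [mem_sit] at ht ht'
  rcases ht with ht | ⟨g, i, hi, rfl⟩
  · rcases ht' with ht' | ⟨g', i', hi', rfl⟩
    · exact hν0 t t' ht ht' hne'
    · exact key t ht g' i' (gidx_le hi')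
  · rcases ht' with ht' | ⟨g', i', hi', rfl⟩
    · exact (key t' ht' g i (gidx_le hi)).symm
    · by_cases hgg : g = g'
      · subst hgg
        rcases lt_trichotomy i i' with h | h | h
        · exact hP4 g i i' (gidx_le hi') (gidx_far hi hi' h)
        · exact absurd (by rw [h]) hne'
        · exact (hP4 g i' i (gidx_le hi) (gidx_far hi' hi h)).symm
      · exact Disjoint.mono (hball g i (gidx_le hi)) (hball g' i' (gidx_le hi')) (hβ g g' hgg)

end Pool.Agent.K5
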