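import Mathlib
import Pool.Agent.Work.MP_974d84_co_k5.Sys1

/-!
# ROOM K5, assembly, part 2: the sum over all sites
-/

set_option linter.unusedSectionVars false

namespace Pool.Agent.K5

open Finset SimpleGraph Pool.Agent.Exp Pool.Agent.Log5 Pool.Agent.Log5.Clu

variable {V : Type} [Fintype V] [DecidableEq V]

/-- The inner sites of a gadget. -/
def ginn (a : ℕ) : Finset ℕ := {2 * a + 1, 4 * a + 3, 6 * a + 4, 8 * a + 6}

theorem ginn_sub {a i : ℕ} (h : i ∈ ginn a) : i ∈ gidx a := by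
  simp only [ginn, gidx, mem_insert, mem_singleton] at h ⊢
  tauto

/-- The sum over all sites. -/
theorem sum_sit {Γ : Type} [Fintype Γ] [DecidableEq Γ] {ν : V → V} {a : ℕ} {P : Γ → ℕ → V}
    (hinj : ∀ g i g' i', i ≤ 10 * a + 7 → i' ≤ 10 * a + 7 → P g i = P g' i' → g = g' ∧ i = i')
    (hfix : ∀ g, ∀ i ≤ 10 * a + 7, ν (P g i) ≠ P g i)
    {m : ℕ} {p q : Fin m → V} (hp : Function.Injective p) (hq : Function.Injective q)
    (hpq : ∀ i j, p i ≠ q j)
    (hT : ∀ v, ((∃ j, p j = v) ∨ ∃ j, q j = v) ↔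
      (ν v = v ∨ ∃ g, v = P g 0 ∨ v = P g (10 * a + 7)))
    {ε : Fin m → ℤ} {η₁ η₂ : Γ → ℤ} {x : V → ℤ}
    (hxp : ∀ j, x (p j) = ε j ∧ x (q j) = - ε j)
    (hxg : ∀ g, x (P g (2 * a + 1)) = η₁ g ∧ x (P g (4 * a + 3)) = η₁ g ∧
      x (P g (6 * a + 4)) = η₂ g ∧ x (P g (8 * a + 6)) = η₂ g) (f : V → ℝ) :
    ∑ t ∈ sit ν a P, (x t : ℝ) * f t = ∑ j, (ε j : ℝ) * (f (p j) - f (q j)) +
      ∑ g, ((η₁ g : ℝ) * (f (P g (2 * a + 1)) + f (P g (4 * a + 3))) +
        (η₂ g : ℝ) * (f (P g (6 * a + 4)) + f (P g (8 * a + 6)))) := by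
  classical
  have hle : ∀ i ∈ ginn a, i ≤ 10 * a + 7 := fun i hi => gidx_le (ginn_sub hi)
  have hset : sit ν a P = (univ.image p ∪ univ.image q) ∪
      ((univ : Finset Γ) ×ˢ ginn a).image fun y => P y.1 y.2 := by
    ext v
    rw [mem_sit, mem_union, mem_union]
    have h1 : (v ∈ univ.image p ∨ v ∈ univ.image q) ↔
        (ν v = v ∨ ∃ g, v = P g 0 ∨ v = P g (10 * a + 7)) := by
      rw [← hT v]
      simp
    rw [h1]
    constructor
    · rintro (h | ⟨g, i, hi, rfl⟩)
      · exact Or.inl (Or.inl h)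
      · simp only [gidx, mem_insert, mem_singleton] at hi
        rcases hi with rfl | rfl | rfl | rfl | rfl | rfl
        · exact Or.inl (Or.inr ⟨g, Or.inl rfl⟩)
        · exact Or.inr (mem_image.2 ⟨(g, 2 * a + 1), by simp [ginn], rfl⟩)
        · exact Or.inr (mem_image.2 ⟨(g, 4 * a + 3), by simp [ginn], rfl⟩)
        · exact Or.inr (mem_image.2 ⟨(g, 6 * a + 4), by simp [ginn], rfl⟩)
        · exact Or.inr (mem_image.2 ⟨(g, 8 * a + 6), by simp [ginn], rfl⟩)
        · exact Or.inl (Or.inr ⟨g, Or.inr rfl⟩)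
    · rintro ((h | ⟨g, h | h⟩) | h)
      · exact Or.inl h
      · exact Or.inr ⟨g, 0, by simp [gidx], h⟩
      · exact Or.inr ⟨g, 10 * a + 7, by simp [gidx], h⟩
      · obtain ⟨⟨g, i⟩, hgi, rfl⟩ := mem_image.1 h
        exact Or.inr ⟨g, i, ginn_sub (mem_product.1 hgi).2, rfl⟩
  have hd1 : Disjoint (univ.image p) (univ.image q) := by
    rw [Finset.disjoint_left]
    intro v hv hv'
    obtain ⟨i, -, rfl⟩ := mem_image.1 hv
    obtain ⟨j, -, h⟩ := mem_image.1 hv'
    exact hpq i j h.symm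
  have hd2 : Disjoint (univ.image p ∪ univ.image q)
      (((univ : Finset Γ) ×ˢ ginn a).image fun y => P y.1 y.2) := by
    rw [Finset.disjoint_left]
    intro v hv hv'
    obtain ⟨⟨g, i⟩, hgi, rfl⟩ := mem_image.1 hv'
    have hi := (mem_product.1 hgi).2
    have h1 : (∃ j, p j = P g i) ∨ ∃ j, q j = P g i := by
      rw [mem_union, mem_image, mem_image] at hv
      rcases hv with ⟨j, -, h⟩ | ⟨j, -, h⟩
      · exact Or.inl ⟨j, h⟩
      · exact Or.inr ⟨j, h⟩
    rw [hT] at h1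
    rcases h1 with h1 | ⟨g', h1 | h1⟩
    · exact hfix g i (hle i hi) h1
    · have h2 := (hinj g i g' 0 (hle i hi) (by omega) h1).2
      simp only [ginn, mem_insert, mem_singleton] at hi
      omega
    · have h2 := (hinj g i g' (10 * a + 7) (hle i hi) le_rfl h1).2
      simp only [ginn, mem_insert, mem_singleton] at hi
      omega
  rw [hset, sum_union hd2, sum_union hd1, sum_image fun i _ j _ h => hp h,
    sum_image fun i _ j _ h => hq h, sum_image, sum_product]
  · congr 1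
    · rw [← sum_add_distrib]
      refine sum_congr rfl fun j _ => ?_
      rw [(hxp j).1, (hxp j).2]
      push_cast
      ring
    · refine sum_congr rfl fun g _ => ?_
      obtain ⟨e1, e2, e3, e4⟩ := hxg g
      unfold ginn
      rw [sum_insert, sum_insert, sum_insert, sum_singleton, e1, e2, e3, e4]
      · ring
      · simp only [mem_singleton]; omega
      · simp only [mem_insert, mem_singleton]; omega
      · simp only [mem_insert, mem_singleton]; omega
  · rintro ⟨g, i⟩ h1 ⟨g', i'⟩ h2 h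
    have h1' := mem_product.1 h1
    have h2' := mem_product.1 h2
    obtain ⟨rfl, rfl⟩ := hinj g i g' i' (hle i h1'.2) (hle i' h2'.2) h
    rfl

end Pool.Agent.K5
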