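import Mathlib
import Pool.Agent.Work.MP_974d84_co_k5.Sys2
import Pool.Agent.Work.MP_974d84_co_k5.SmearExact

/-!
# ROOM K5, assembly, part 3: the triples and the smears of all sites
-/

set_option linter.unusedSectionVars false

namespace Pool.Agent.K5

open Finset SimpleGraph Pool.Agent.Exp Pool.Agent.Log5 Pool.Agent.Log5.Clu

variable {V : Type} [Fintype V] [DecidableEq V] {G : SimpleGraph V} [DecidableRel G.Adj]

/-- The triple of a site. -/
noncomputable def trp (G H : SimpleGraph V) (t : V) : Finset V := by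
  classical
  exact univ.filter fun y => y = t ∨ (G.Adj t y ∧ ¬ H.Adj t y)

theorem mem_trp {H : SimpleGraph V} {t y : V} :
    y ∈ trp G H t ↔ (y = t ∨ (G.Adj t y ∧ ¬ H.Adj t y)) := by
  unfold trp
  simp

theorem trp_ball {H : SimpleGraph V} (t : V) : trp G H t ⊆ Bl G.Adj 1 t := by
  intro y hy
  rw [mem_trp] at hy
  rcases hy with rfl | hy
  · exact Bl_self 1 y
  · exact mem_Bl_succ.2 (Or.inr ⟨t, mem_Bl_zero.2 rfl, hy.1⟩)

/-- The triples are small sets around far apart vertices. -/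
theorem trp_triples (h3 : ∀ v, G.degree v = 3) {H : SimpleGraph V} (hH : H ≤ G) {T : Finset V}
    (hdeg : ∀ v, (H.neighborSet v).ncard = if v ∈ T then 1 else 2) {a : ℕ}
    (hT : ∀ t ∈ T, ∀ t' ∈ T, t ≠ t' → Disjoint (Bl G.Adj a t) (Bl G.Adj a t')) :
    Triples G a T (trp G H) where
  mem := fun t _ => mem_trp.2 (Or.inl rfl)
  ball := fun t _ => trp_ball t
  card := by
    classical
    intro t ht
    have h1 : (H.neighborSet t).ncard = 1 := by rw [hdeg t, if_pos ht]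
    have h2 : (H.neighborFinset t).card = 1 := by
      rw [← h1, Set.ncard_eq_toFinset_card']
      rfl
    have h4 : H.neighborFinset t ⊆ G.neighborFinset t := by
      intro y hy
      rw [mem_neighborFinset] at hy ⊢
      exact hH hy
    have h5 : (G.neighborFinset t \ H.neighborFinset t).card = 2 := by
      rw [card_sdiff_of_subset h4, h2]
      have : (G.neighborFinset t).card = 3 := h3 t
      omega
    have h6 : trp G H t ⊆ insert t (G.neighborFinset t \ H.neighborFinset t) := by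
      intro y hy
      rw [mem_trp] at hy
      rw [mem_insert, mem_sdiff, mem_neighborFinset, mem_neighborFinset]
      exact hy
    calc (trp G H t).card ≤ (insert t (G.neighborFinset t \ H.neighborFinset t)).card :=
          card_le_card h6
      _ ≤ (G.neighborFinset t \ H.neighborFinset t).card + 1 := card_insert_le _ _
      _ = 3 := by rw [h5]
  disj := hT

/-- The smears of all sites. -/
theorem exists_smears (h3 : ∀ v, G.degree v = 3) {k a : ℕ} (hg : Gir G k)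
    (hk : 3 * 2 ^ a ≤ k) (ha : 2 ≤ a) {H : SimpleGraph V} (hH : H ≤ G) {T : Finset V}
    (hdeg : ∀ v, (H.neighborSet v).ncard = if v ∈ T then 1 else 2)
    (hT : ∀ t ∈ T, ∀ t' ∈ T, t ≠ t' → Disjoint (Bl G.Adj a t) (Bl G.Adj a t')) :
    ∃ (φ : V → V → V → ℝ) (w : V → V → ℝ),
      (∀ t ∈ T, ∀ u v, φ t u v = - φ t v u) ∧
      (∀ t ∈ T, ∀ u v, φ t u v ≠ 0 → G.Adj u v ∧ u ∈ Bl G.Adj a t ∧ v ∈ Bl G.Adj a t) ∧
      (∀ t ∈ T, ∀ u v, |φ t u v| ≤ 2 / 5) ∧ (∀ t ∈ T, ∀ u v, H.Adj u v → |φ t u v| ≤ 1 / 5) ∧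
      (∀ t ∈ T, ∀ v, ∑ u, φ t v u = (if v = t then 1 else 0) - w t v) ∧
      (∀ t ∈ T, ∀ u v, u ∉ trp G H t → v ∉ trp G H t → |φ t u v| ≤ 1 / 10) ∧
      (∀ t ∈ T, ∀ v, w t v ≠ 0 → v ∉ T.biUnion (trp G H)) ∧
      (∀ t v, w t v ≠ 0 → t ∈ T) ∧ Smear G a T w := by
  classical
  have h1 : ∀ t, ∃ (φ : V → V → ℝ) (w : V → ℝ), t ∈ T → ((∀ u v, φ u v = - φ v u) ∧
      (∀ u v, φ u v ≠ 0 → G.Adj u v ∧ u ∈ Bl G.Adj a t ∧ v ∈ Bl G.Adj a t) ∧
      (∀ u v, |φ u v| ≤ 2 / 5) ∧ (∀ u v, H.Adj u v → |φ u v| ≤ 1 / 5) ∧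
      (∀ D : Finset V, t ∈ D → (∀ y, G.Adj t y → ¬ H.Adj t y → y ∈ D) →
        ∀ u v, u ∉ D → v ∉ D → |φ u v| ≤ 1 / 10) ∧
      (∀ v, 0 ≤ w v) ∧ (∀ v, w v ≤ 1 / 2 ^ a) ∧ (∀ v, w v ≠ 0 → v ∈ Bl G.Adj a t) ∧
      (∀ v, w v ≠ 0 → v ∉ Bl G.Adj (a - 1) t) ∧
      ∑ v, w v = 1 ∧ ∀ v, ∑ u, φ v u = (if v = t then 1 else 0) - w v) := by
    intro t
    by_cases ht : t ∈ T
    · obtain ⟨φ, w, h⟩ := smear_exact h3 hg hk (by omega) H hH t (by rw [hdeg t, if_pos ht])
      exact ⟨φ, w, fun _ => h⟩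
    · exact ⟨0, 0, fun h => absurd h ht⟩
  choose φ w hφw using h1
  refine ⟨φ, fun t v => if t ∈ T then w t v else 0, fun t ht => (hφw t ht).1,
    fun t ht => (hφw t ht).2.1, fun t ht => (hφw t ht).2.2.1, fun t ht => (hφw t ht).2.2.2.1,
    fun t ht v => ?_, fun t ht u v hu hv => ?_, fun t ht v hv => ?_, fun t v hv => ?_, ?_⟩
  · simp only [if_pos ht]
    exact (hφw t ht).2.2.2.2.2.2.2.2.2.2 v
  · exact (hφw t ht).2.2.2.2.1 (trp G H t) (mem_trp.2 (Or.inl rfl))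
      (fun y h1 h2 => mem_trp.2 (Or.inr ⟨h1, h2⟩)) u v hu hv
  · simp only [if_pos ht] at hv
    have h2 := (hφw t ht).2.2.2.2.2.2.2.1 v hv
    have h4 := (hφw t ht).2.2.2.2.2.2.2.2.1 v hv
    intro hvD
    obtain ⟨t', ht', hvt⟩ := mem_biUnion.1 hvD
    have h5 := trp_ball t' hvt
    by_cases htt : t' = t
    · subst htt
      exact h4 (Bl_mono (by omega) _ h5)
    · exact Finset.disjoint_left.1 (hT t' ht' t ht htt) (Bl_mono (by omega) _ h5) h2
  · by_contra h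
    exact hv (if_neg h)
  · refine ⟨fun t v => ?_, fun t v => ?_, fun t v hv => ?_, fun t ht => ?_, hT⟩
    · by_cases ht : t ∈ T
      · simp only [if_pos ht]
        exact (hφw t ht).2.2.2.2.2.1 v
      · simp [if_neg ht]
    · by_cases ht : t ∈ T
      · simp only [if_pos ht]
        exact (hφw t ht).2.2.2.2.2.2.1 v
      · simp only [if_neg ht]
        positivity
    · by_cases ht : t ∈ T
      · simp only [if_pos ht] at hv
        exact (hφw t ht).2.2.2.2.2.2.2.1 v hv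
      · exact absurd (if_neg ht) hv
    · simp only [if_pos ht]
      exact (hφw t ht).2.2.2.2.2.2.2.2.2.1

end Pool.Agent.K5
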