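import Pool.Agent.Work.MP_974d84_co_k5.Sys1

/-!
# ROOM K5, assembly, part 4: the set of all sites is thin
-/

set_option linter.unusedSectionVars false

namespace Pool.Agent.K5

open Finset SimpleGraph Pool.Agent.Exp Pool.Agent.Log5 Pool.Agent.Log5.Clu

variable {V : Type} [Fintype V] [DecidableEq V] {G : SimpleGraph V} [DecidableRel G.Adj]

/-- The bonds of the regions split few of the sites. -/
theorem thin_sit {θ : ℝ} {a k₁ r : ℕ} {S : Fin r → Finset V}
    (hd : ∀ i j, i ≠ j → Disjoint (S i) (S j)) {ν : V → V} {Γ : Type} [Fintype Γ]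
    [DecidableEq Γ] {P : Γ → ℕ → V} {β : Γ → V} {co : Γ → Fin r} (ha : 2 ≤ a)
    (hθ : 480 * θ ≤ 1) (hβS : ∀ g, Bl G.Adj (12 * a + 10) (β g) ⊆ S (co g))
    (hP : ∀ g, ∀ i ≤ 10 * a + 7, Bl G.Adj a (P g i) ⊆ Bl G.Adj (12 * a + 10) (β g))
    (hβ : ∀ i Z, Z ⊆ S i → Joined G Z → k₁ ≤ dd G Z →
      ((univ.filter fun g => co g = i ∧ ¬ Disjoint (Bl G.Adj (12 * a + 10) (β g)) Z).card : ℝ)
        ≤ θ * dd G Z)
    (h0 : ∀ P', Fm G S P' → k₁ ≤ dd G P' → ∀ T' : Finset V,
      (∀ t ∈ T', ν t = t ∧ Sp G 2 P' t) → 80 * T'.card ≤ dd G P') :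
    ∀ P', Fm G S P' → k₁ ≤ dd G P' → ∀ T' ⊆ sit ν a P, (∀ t ∈ T', Sp G 2 P' t) →
      40 * T'.card ≤ dd G P' := by
  classical
  intro P' hF hk T' hT hSp
  have h1 := h0 P' hF hk (T'.filter fun t => ν t = t) (by
    intro t ht
    rw [mem_filter] at ht
    exact ⟨ht.2, hSp t ht.1⟩)
  -- a gadget site which is split lies in a core with a ball that meets `P'`
  have hmeet : ∀ t ∈ T', ¬ ν t = t → ∃ g, ∃ i ∈ gidx a, t = P g i ∧
      ∃ x ∈ Bl G.Adj (12 * a + 10) (β g), x ∈ P' := by
    intro t ht hν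
    rcases mem_sit.1 (hT ht) with h | ⟨g, i, hi, hti⟩
    · exact absurd h hν
    · refine ⟨g, i, hi, hti, ?_⟩
      obtain ⟨x, hx, hxs⟩ := hSp t ht
      have hsub := hP g i (gidx_le hi)
      rw [← hti] at hsub
      by_cases htP : t ∈ P'
      · exact ⟨t, hsub (Bl_self a t), htP⟩
      · refine ⟨x, hsub (Bl_mono ha _ hx), ?_⟩
        by_contra hxP
        exact hxs ⟨fun h => absurd h hxP, fun h => absurd h htP⟩
  have h2 : 80 * (T'.filter fun t => ¬ ν t = t).card ≤ dd G P' := by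
    rcases hF with hF | ⟨j, hj1, hj2, hj3, _, _⟩
    · have : (T'.filter fun t => ¬ ν t = t) = ∅ := by
        rw [eq_empty_iff_forall_notMem]
        intro t ht
        rw [mem_filter] at ht
        obtain ⟨g, i, hi, hti, x, hx, hxP⟩ := hmeet t ht.1 ht.2
        have h3 := hF.sub hxP
        rw [mem_compl, mem_biUnion] at h3
        exact h3 ⟨co g, mem_univ _, hβS g hx⟩
      rw [this, card_empty]
      omega
    · set E := univ.filter fun g => co g = j ∧ ¬ Disjoint (Bl G.Adj (12 * a + 10) (β g)) P'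
        with hE
      have h3 : ((E.card : ℕ) : ℝ) ≤ θ * dd G P' := hβ j P' hj1 hj3 hk
      have h4 : (T'.filter fun t => ¬ ν t = t) ⊆ (E ×ˢ gidx a).image fun p => P p.1 p.2 := by
        intro t ht
        rw [mem_filter] at ht
        obtain ⟨g, i, hi, hti, x, hx, hxP⟩ := hmeet t ht.1 ht.2
        rw [mem_image]
        refine ⟨(g, i), ?_, hti.symm⟩
        rw [mem_product]
        refine ⟨?_, hi⟩
        rw [hE, mem_filter]
        refine ⟨mem_univ _, ?_, fun h => Finset.disjoint_left.1 h hx hxP⟩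
        by_contra hne
        exact Finset.disjoint_left.1 (hd (co g) j hne) (hβS g hx) (hj1 hxP)
      have h5 : (gidx a).card ≤ 6 := by
        unfold gidx
        exact card_le_six
      have h6 : (T'.filter fun t => ¬ ν t = t).card ≤ E.card * 6 := by
        refine (card_le_card h4).trans (card_image_le.trans ?_)
        rw [card_product]
        exact Nat.mul_le_mul_left _ h5
      have h7 : ((T'.filter fun t => ¬ ν t = t).card : ℝ) ≤ E.card * 6 := by exact_mod_cast h6
      have h8 : (0 : ℝ) ≤ dd G P' := Nat.cast_nonneg _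
      have h9 : 480 * θ * dd G P' ≤ 1 * dd G P' := mul_le_mul_of_nonneg_right hθ h8
      have h10 : (80 : ℝ) * ((T'.filter fun t => ¬ ν t = t).card : ℝ) ≤ dd G P' := by
        nlinarith
      exact_mod_cast h10
  have h3 := card_filter_add_card_filter_not (s := T') (fun t => ν t = t)
  omega

end Pool.Agent.K5
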