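import Mathlib
import Pool.Agent.Work.MP_974d84_co_k5.Sys1

/-!
# ROOM K5, assembly, part 5: the union of the triples has few vertices in every core
-/

set_option linter.unusedSectionVars false

namespace Pool.Agent.K5

open Finset SimpleGraph Pool.Agent.Exp Pool.Agent.Log5 Pool.Agent.Log5.Clu

variable {V : Type} [Fintype V] [DecidableEq V] {G : SimpleGraph V} [DecidableRel G.Adj]

theorem gidx_card (a : ℕ) : (gidx a).card ≤ 6 := by
  unfold gidx
  exact card_le_six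

/-- The triples have few vertices in the cores. -/
theorem card_D_inter {a N k r : ℕ} {S : Fin r → Finset V}
    (hd : ∀ i j, i ≠ j → Disjoint (S i) (S j)) {ν : V → V} {Γ : Type} [Fintype Γ] [DecidableEq Γ]
    {P : Γ → ℕ → V} {β : Γ → V} {co : Γ → Fin r}
    (hβS : ∀ g, Bl G.Adj (12 * a + 10) (β g) ⊆ S (co g))
    (hP : ∀ g, ∀ i ≤ 10 * a + 7, Bl G.Adj a (P g i) ⊆ Bl G.Adj (12 * a + 10) (β g))
    {M : Fin r → ℕ} (hM : ∀ i, (univ.filter fun g => co g = i).card ≤ M i)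
    (hMs : ∀ i, 180 * M i ≤ (S i).card) (hN : 200 ≤ N) (hk : 200 ≤ k)
    (hbd : ∀ i, N * dd G (S i) ≤ (S i).card)
    (hfix : ∀ X : Finset V, k * (X.filter fun v => ν v = v).card ≤ X.card + k * dd G X)
    {X : V → Finset V} (hX : Triples G a (sit ν a P) X) (i : Fin r) :
    6 * ((sit ν a P).biUnion X ∩ S i).card ≤ (S i).card := by
  classical
  set F₁ : Finset V := (S i).filter fun v => ν v = v with hF₁
  set F₂ : Finset V := (S i).filter fun v => ∃ t, t ∉ S i ∧ G.Adj v t with hF₂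
  set F₃ : Finset (Γ × ℕ) := (univ.filter fun g => co g = i) ×ˢ gidx a with hF₃
  have hsub : (sit ν a P).biUnion X ∩ S i ⊆
      (F₁.biUnion X ∪ F₂) ∪ F₃.biUnion fun p => X (P p.1 p.2) := by
    intro v hv
    obtain ⟨hv1, hv2⟩ := mem_inter.1 hv
    obtain ⟨t, ht, hvt⟩ := mem_biUnion.1 hv1
    by_cases htS : t ∈ S i
    · rcases mem_sit.1 ht with h | ⟨g, j, hj, rfl⟩
      · exact mem_union_left _ (mem_union_left _
          (mem_biUnion.2 ⟨t, mem_filter.2 ⟨htS, h⟩, hvt⟩))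
      · refine mem_union_right _ (mem_biUnion.2 ⟨(g, j), mem_product.2 ⟨?_, hj⟩, hvt⟩)
        refine mem_filter.2 ⟨mem_univ _, ?_⟩
        by_contra hne
        have h1 : P g j ∈ S (co g) := hβS g (hP g j (gidx_le hj) (Bl_self a _))
        exact Finset.disjoint_left.1 (hd _ _ hne) h1 htS
    · refine mem_union_left _ (mem_union_right _ (mem_filter.2 ⟨hv2, t, htS, ?_⟩))
      have h1 := hX.ball t ht hvt
      rw [mem_Bl_succ] at h1
      rcases h1 with h1 | ⟨y, hy, hyv⟩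
      · rw [mem_Bl_zero] at h1
        exact absurd (h1 ▸ hv2) htS
      · rw [mem_Bl_zero] at hy
        subst hy
        exact hyv.symm
  have c1 : (F₁.biUnion X).card ≤ F₁.card * 3 := by
    refine card_biUnion_le_card_mul _ _ _ fun t ht => hX.card t ?_
    exact mem_sit.2 (Or.inl (mem_filter.1 ht).2)
  have c2 : F₂.card ≤ dd G (S i) := by
    have h1 : F₂ ⊆ (Pool.Agent.Work.MP_314beb_co.cut G (S i)).image Prod.fst := by
      intro v hv
      obtain ⟨hv1, t, ht, hvt⟩ := mem_filter.1 hv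
      exact mem_image.2 ⟨(v, t), (mem_cut G).2 ⟨hv1, ht, hvt⟩, rfl⟩
    exact (card_le_card h1).trans card_image_le
  have c3 : (F₃.biUnion fun p => X (P p.1 p.2)).card ≤ M i * 6 * 3 := by
    refine (card_biUnion_le_card_mul _ _ 3 fun p hp => hX.card _ ?_).trans ?_
    · exact mem_sit.2 (Or.inr ⟨p.1, p.2, (mem_product.1 hp).2, rfl⟩)
    · refine Nat.mul_le_mul_right _ ?_
      rw [hF₃, card_product]
      exact Nat.mul_le_mul (hM i) (gidx_card a)
  have c4 := (card_le_card hsub).trans ((card_union_le _ _).trans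
    (Nat.add_le_add_right (card_union_le _ _) _))
  have h1 := hfix (S i)
  rw [← hF₁] at h1
  have h2 := hbd i
  have h3 := hMs i
  have h4 : 200 * dd G (S i) ≤ (S i).card := (Nat.mul_le_mul_right _ hN).trans h2
  have h5 : 200 * F₁.card ≤ (S i).card + 200 * dd G (S i) := by
    by_cases h : F₁.card ≤ dd G (S i)
    · omega
    · obtain ⟨e, he⟩ := Nat.exists_eq_add_of_lt (not_le.1 h)
      rw [he] at h1 ⊢
      have h6 : k * (e + 1) ≤ (S i).card := by
        have : k * (dd G (S i) + e + 1) = k * dd G (S i) + k * (e + 1) := by ring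
        omega
      have h7 : 200 * (e + 1) ≤ (S i).card := (Nat.mul_le_mul_right _ hk).trans h6
      omega
  omega

/-- Cuts which split no core do not see the triples of the gadgets. -/
theorem sep_D {a r : ℕ} {S : Fin r → Finset V} {ν : V → V} {Γ : Type} [Fintype Γ] [DecidableEq Γ]
    {P : Γ → ℕ → V} {β : Γ → V} {co : Γ → Fin r} (ha : 2 ≤ a)
    (hβS : ∀ g, Bl G.Adj (12 * a + 10) (β g) ⊆ S (co g))
    (hP : ∀ g, ∀ i ≤ 10 * a + 7, Bl G.Adj a (P g i) ⊆ Bl G.Adj (12 * a + 10) (β g))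
    {X : V → Finset V} (hX : Triples G a (sit ν a P) X) {D₀ : Finset V}
    (hD₀ : ∀ v, v ∈ D₀ ↔ ∃ t, ν t = t ∧ v ∈ X t) {Q : Finset V} (hQ : Sat S Q) :
    ds G ((sit ν a P).biUnion X) Q = ds G D₀ Q := by
  classical
  have key : ∀ u v, u ∈ (sit ν a P).biUnion X → G.Adj u v → ¬ (u ∈ Q ↔ v ∈ Q) → u ∈ D₀ := by
    intro u v hu huv hQuv
    obtain ⟨t, ht, hut⟩ := mem_biUnion.1 hu
    rcases mem_sit.1 ht with h | ⟨g, j, hj, rfl⟩
    · exact (hD₀ u).2 ⟨t, h, hut⟩
    · exfalso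
      have h1 := hX.ball _ ht hut
      have h2 : v ∈ Bl G.Adj 2 (P g j) := mem_Bl_succ.2 (Or.inr ⟨u, h1, huv⟩)
      have h3 : u ∈ S (co g) := hβS g (hP g j (gidx_le hj) (Bl_mono (by omega) _ h1))
      have h4 : v ∈ S (co g) := hβS g (hP g j (gidx_le hj) (Bl_mono ha _ h2))
      rcases hQ (co g) with h | h
      · exact hQuv ⟨fun _ => h h4, fun _ => h h3⟩
      · exact hQuv ⟨fun h5 => absurd h5 (Finset.disjoint_left.1 h h3),
          fun h5 => absurd h5 (Finset.disjoint_left.1 h h4)⟩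
  have hsub : ∀ v, v ∈ D₀ → v ∈ (sit ν a P).biUnion X := by
    intro v hv
    obtain ⟨t, ht, hvt⟩ := (hD₀ v).1 hv
    exact mem_biUnion.2 ⟨t, mem_sit.2 (Or.inl ht), hvt⟩
  unfold ds
  congr 1
  ext p
  simp only [mem_filter, mem_univ, true_and]
  constructor
  · rintro ⟨a1, a2, a3, a4, a5⟩
    exact ⟨a1, a2, fun h => a3 (hsub _ h), fun h => a4 (hsub _ h), a5⟩
  · rintro ⟨a1, a2, a3, a4, a5⟩
    refine ⟨a1, a2, fun h => a3 (key p.1 p.2 h a5 fun h' => a2 (h'.1 a1)),
      fun h => a4 (key p.2 p.1 h a5.symm fun h' => a2 (h'.2 a1)), a5⟩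

end Pool.Agent.K5
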