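import Mathlib
import Pool.Agent.Work.MP_974d84_co_k5.Sys3
import Pool.Agent.Work.MP_974d84_co_k5.Gadgets
import Pool.Agent.Work.MP_974d84_co_k5.Average
import Pool.Agent.Work.MP_974d84_co_k5.QBound
import Pool.Agent.Work.MP_974d84_co_k5.CutExact
import Pool.Agent.Work.MP_974d84_co_k5.FinalExactX
import Pool.Agent.Work.MP_974d84_co_k5.CritReal
import Pool.Agent.Work.MP_974d84_co_k5.Sys4
import Pool.Agent.Work.MP_974d84_co_k5.Sys5
import Pool.Agent.Work.MP_974d84_co_k5.LossCore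
import Pool.Agent.Work.MP_974d84_co_k5.LossOut
import Pool.Agent.Work.MP_974d84_co_k5.RegionSigns

/-!
# ROOM K5, X9: the assembly of the exact theorem for one graph
-/

set_option linter.unusedSectionVars false
set_option linter.unusedVariables false

namespace Pool.Agent.K5.XA

open Finset SimpleGraph Pool.Agent.Exp Pool.Agent.Log5 Pool.Agent.Log5.Clu Pool.Agent.K5 MP974d84

variable {V : Type} [Fintype V] [DecidableEq V] {G : SimpleGraph V} [DecidableRel G.Adj]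

/-- The charge of a strand vector is small at every vertex. -/
theorem sw_small {a m : ℕ} {w : V → V → ℝ} {p q : Fin m → V} {ε : Fin m → ℤ}
    (hp : Function.Injective p) (hq : Function.Injective q) (hpq : ∀ i j, p i ≠ q j)
    (hε : ∀ j, ε j = 1 ∨ ε j = -1) (h0 : ∀ t v, 0 ≤ w t v) (h1 : ∀ t v, w t v ≤ 1 / 2 ^ a)
    (h2 : ∀ t v, w t v ≠ 0 → v ∈ Bl G.Adj a t)
    (hT : ∀ t ∈ univ.image p ∪ univ.image q, ∀ t' ∈ univ.image p ∪ univ.image q, t ≠ t' →
      Disjoint (Bl G.Adj a t) (Bl G.Adj a t')) (v : V) :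
    |sw w p q ε v| ≤ 1 / 2 ^ a := by
  refine le_trans ?_ (sum_w_le h0 h1 h2 hT v)
  rw [sum_union, sum_image fun _ _ _ _ h => hp h, sum_image fun _ _ _ _ h => hq h,
    ← sum_add_distrib]
  · unfold sw
    refine (abs_sum_le_sum_abs _ _).trans (sum_le_sum fun j _ => ?_)
    have a1 := h0 (p j) v
    have a2 := h0 (q j) v
    rw [abs_le]
    rcases hε j with h | h <;> rw [h] <;> push_cast <;> constructor <;> linarith
  · rw [Finset.disjoint_left]
    intro u hu1 hu2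
    obtain ⟨i, -, rfl⟩ := mem_image.1 hu1
    obtain ⟨j, -, hj⟩ := mem_image.1 hu2
    exact hpq i j hj.symm

theorem sw_zero {m : ℕ} {w : V → V → ℝ} {p q : Fin m → V} {ε : Fin m → ℤ}
    (h1 : ∀ j, ∑ v, w (p j) v = 1) (h2 : ∀ j, ∑ v, w (q j) v = 1) :
    ∑ v, sw w p q ε v = 0 := by
  unfold sw
  rw [sum_comm]
  refine sum_eq_zero fun j _ => ?_
  rw [← mul_sum, sum_sub_distrib, h1, h2]
  ring

/-- Few sites in a core. -/
theorem sites_core {N k c d t : ℕ} (hk : 0 < k) (hN : N ≤ k) (h1 : k * t ≤ c + k * d)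
    (h2 : N * d ≤ c) : N * t ≤ 2 * c := by
  have h5 : k * (N * t) ≤ k * (2 * c) := by
    calc k * (N * t) = N * (k * t) := by ring
      _ ≤ N * (c + k * d) := Nat.mul_le_mul_left _ h1
      _ = N * c + k * (N * d) := by ring
      _ ≤ k * c + k * c := Nat.add_le_add (Nat.mul_le_mul_right _ hN) (Nat.mul_le_mul_left _ h2)
      _ = k * (2 * c) := by ring
  exact Nat.le_of_mul_le_mul_left h5 hk

theorem acyclic_mono' {A B : Finset V} (h : A ⊆ B) (hB : (G.induce (B : Set V)).IsAcyclic) :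
    (G.induce (A : Set V)).IsAcyclic :=
  hB.comap (SimpleGraph.induceHomOfLE G (by exact_mod_cast h)).toHom
    (SimpleGraph.induceHomOfLE G (by exact_mod_cast h)).injective

/-- There is a core, and it contains a cycle. -/
theorem cores_cyclic [Nonempty V] (h3 : ∀ v, G.degree v = 3) {C : ℝ} (hC : 0 < C) {r : ℕ}
    {S : Fin r → Finset V} (hS : Cores G C S) :
    ¬ (G.induce ((univ.biUnion S : Finset V) : Set V)).IsAcyclic := by
  classical
  have hr : ∃ i : Fin r, True := by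
    by_contra hr
    push Not at hr
    have h1 := hS.out univ ⟨Classical.arbitrary V, mem_univ _⟩ fun i => (hr i).elim
    have h2 : dd G (univ : Finset V) = 0 := by
      unfold dd
      rw [card_eq_zero, Finset.eq_empty_iff_forall_notMem]
      intro p hp
      rw [mem_cut] at hp
      exact hp.2.1 (mem_univ _)
    rw [h2] at h1
    have h4 : 0 < gf C (univ : Finset V).card := by
      unfold gf
      have h5 : (1 : ℝ) ≤ (univ : Finset V).card := by
        have : 0 < (univ : Finset V).card := card_pos.2 ⟨Classical.arbitrary V, mem_univ _⟩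
        exact_mod_cast this
      have h6 := Real.log_nonneg h5
      exact lt_min (by linarith) (by positivity)
    push_cast at h1
    linarith
  obtain ⟨i, -⟩ := hr
  intro hac
  have h1 : (G.induce (S i : Set V)).IsAcyclic :=
    acyclic_mono' (fun v hv => mem_biUnion.2 ⟨i, mem_univ _, hv⟩) hac
  have h2 := dd_of_acyclic G h3 (S := S i) (hS.ne i) h1
  have h4 := hS.viol i
  have h5 : gf C (S i).card ≤ (S i).card + 2 := min_le_left _ _
  have h6 : (((S i).card + 2 : ℕ) : ℝ) ≤ dd G (S i) := by exact_mod_cast h2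
  push_cast at h6
  linarith

theorem assembleX [Nonempty V] {a N k k₁ κ s₁ : ℕ} {C b B η θ b₁ : ℝ} (hC : 0 < C)
    (h3 : ∀ v, G.degree v = 3) (hc : CycConn G k) (hg : Gir G k)
    (ha : 10 ≤ a) (hk2 : 24 * a + 40 ≤ k) (hk3 : 3 * 2 ^ a ≤ k) (hk1 : k₁ + 10 ≤ k)
    (hNk : N ≤ k) (hN : 3600 ≤ N) (hs₁ : 2 * s₁ ≤ k)
    {r : ℕ} {S : Fin r → Finset V} (hS : Cores G C S) (hFa : Facts G C N k S)
    (μ ν : V → V) (hμ : ∀ v, μ (μ v) = v) (hν : ∀ v, ν (ν v) = v) (hμa : ∀ v, G.Adj v (μ v))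
    (hνa : ∀ v, ν v ≠ v → G.Adj v (ν v)) (hne : ∀ v, μ v ≠ ν v)
    (hT0 : ∀ v v', ν v = v → ν v' = v' → v ≠ v' → Disjoint (Bl G.Adj a v) (Bl G.Adj a v'))
    (hTk : ∀ X : Finset V, k * (X.filter fun v => ν v = v).card ≤ X.card + k * dd G X)
    (h80 : ∀ P, Fm G S P → k₁ ≤ dd G P → ∀ T' : Finset V, (∀ t ∈ T', ν t = t ∧ Sp G 2 P t) →
      80 * T'.card ≤ dd G P)
    (hsep : ∀ Q D : Finset V, (∀ v, v ∈ D ↔ ∃ t, ν t = t ∧ (v = t ∨ (G.Adj t v ∧ v ≠ μ t))) →
      s₁ ≤ (Q \ D).card → s₁ ≤ (Qᶜ \ D).card → κ ≤ ds G D Q)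
    (hcen : ∀ T : Finset V, (∀ i, N * (T ∩ S i).card ≤ 2 * (S i).card) →
      ∃ (M : Fin r → ℕ) (β : (i : Fin r) → Fin (M i) → V), (∀ i, η * gf C (S i).card ≤ M i) ∧
      (∀ i, (M i : ℝ) ≤ 2 * η * gf C (S i).card) ∧
      (∀ i g, Bl G.Adj (12 * a + 10) (β i g) ⊆ S i ∧
        Disjoint (Bl G.Adj (12 * a + 10) (β i g)) T) ∧
      (∀ i g g', g ≠ g' →
        Disjoint (Bl G.Adj (12 * a + 10) (β i g)) (Bl G.Adj (12 * a + 10) (β i g'))) ∧
      ∀ i Z, Z ⊆ S i → Joined G Z → k₁ ≤ dd G Z →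
        ((univ.filter fun g => ¬ Disjoint (Bl G.Adj (12 * a + 10) (β i g)) Z).card : ℝ) ≤
          θ * dd G Z)
    (Ξ : Type) [Fintype Ξ] [Nonempty Ξ] (c : Ξ → V → V)
    (hcB : ∀ X : Finset V, ∑ ξ, ((univ.filter fun v => ¬ (v ∈ X ↔ c ξ v ∈ X)).card : ℝ) ≤
      B * dd G X * Fintype.card Ξ)
    (hsigns : ∀ (m : ℕ) (p q : Fin m → V), Function.Injective p → Function.Injective q →
      (∀ i j, p i ≠ q j) → (∀ (X : Finset V) (J : Finset (Fin m)),
        (∀ j ∈ J, ¬ (p j ∈ X ↔ q j ∈ X)) → J.card ≤ dd G X) →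
      ∀ w : V → V → ℝ, Smear G a (univ.image p ∪ univ.image q) w →
      ∃ ε : Fin m → ℤ, (∀ j, ε j = 1 ∨ ε j = -1) ∧ ∀ ξ R, Region S R → ∀ A, A ⊆ pre (c ξ) R →
        Clo (c ξ) A → |∑ v ∈ A, sw w p q ε v| ≤ b * dd G A)
    (hb0 : 0 ≤ b) (hB : 0 ≤ B) (hθ : 0 ≤ θ) (hθ2 : 480 * θ ≤ 1) (hη : 0 ≤ η) (hη1 : η ≤ 1) (hκ : 0 < κ)
    (hb₁0 : 0 ≤ b₁) (hb₁ : b₁ = b * (1 + 3 * B) + 1 / 2 ^ a * B)
    (hn1 : 4 * b₁ + 5 / κ ≤ 4 * η)
    (hn2 : 22 * b₁ + 7 * (2 / 2 ^ a + 4 * θ) + 25 / κ ≤ 1 / 10) :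
    ∀ i : ℕ, 5 ≤ i → HasNZFlow (ZMod i) G := by
  classical
  have hk0 : 0 < k := by omega
  have hkr : (0 : ℝ) < k := by exact_mod_cast hk0
  set T₀ : Finset V := univ.filter fun v => ν v = v with hT₀
  have hT0N : ∀ i, N * (T₀ ∩ S i).card ≤ 2 * (S i).card := by
    intro i
    have h2 : T₀ ∩ S i = (S i).filter fun v => ν v = v := by
      ext v
      rw [hT₀, mem_inter, mem_filter, mem_filter]
      simp only [mem_univ, true_and]
      exact and_comm
    rw [h2]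
    exact sites_core hk0 hNk (hTk (S i)) (hFa.bdry i)
  obtain ⟨M, β, hM, hM2, hβS, hβd, hβZ⟩ := hcen T₀ hT0N
  have hβdd : ∀ g g' : (i : Fin r) × Fin (M i), g ≠ g' →
      Disjoint (Bl G.Adj (12 * a + 10) (β g.1 g.2)) (Bl G.Adj (12 * a + 10) (β g'.1 g'.2)) := by
    rintro ⟨i, g⟩ ⟨i', g'⟩ hgg
    by_cases h : i = i'
    · subst h
      exact hβd i g g' fun h => hgg (by rw [h])
    · exact (hS.disj i i' h).mono (hβS i g).1 (hβS i' g').1
  have hβν : ∀ g : (i : Fin r) × Fin (M i), ∀ v ∈ Bl G.Adj (12 * a + 10) (β g.1 g.2),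
      ν v ≠ v := by
    rintro ⟨i, g⟩ v hv h
    refine Finset.disjoint_left.1 (hβS i g).2 hv ?_
    rw [hT₀, mem_filter]
    exact ⟨mem_univ _, h⟩
  obtain ⟨P, hP, hPb, hinj, hPR, hTd⟩ := exists_paths h3 hg hk2 μ ν hμ hν hμa hνa hne hT0
    (fun g : (i : Fin r) × Fin (M i) => β g.1 g.2) hβν hβdd
  obtain ⟨H, m, p, q, hH, hHμ, hHd, hp, hq, hpq, hpqT, hJ, hx⟩ :=
    gadgets_x h3 μ ν hμ hν hμa hνa hne a P hP hinj
  set T : Finset V := sit ν a P with hTdef
  have hmT : ∀ v, v ∈ T ↔ (ν v = v ∨ ∃ g, ∃ i ∈ gidx a, v = P g i) := fun v => mem_sit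
  have hdeg : ∀ v, (H.neighborSet v).ncard = if v ∈ T then 1 else 2 := by
    intro v
    rw [hHd v]
    by_cases h : v ∈ T
    · rw [if_pos h, if_pos ((hmT v).1 h)]
    · rw [if_neg h, if_neg fun h' => h ((hmT v).2 h')]
  have hTri : Triples G a T (trp G H) := trp_triples h3 hH hdeg hTd
  set D : Finset V := T.biUnion (trp G H) with hD
  obtain ⟨φ, w, hφ1, hφ2, hφ4, hφ5, hφ6, hφ7, hφ8, hwT, hSmT⟩ :=
    exists_smears h3 hg hk3 (by omega) hH hdeg hTd
  have hpT : ∀ j, p j ∈ T := by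
    intro j
    rw [hmT]
    rcases (hpqT (p j)).1 (Or.inl ⟨j, rfl⟩) with h | ⟨g, h | h⟩
    · exact Or.inl h
    · exact Or.inr ⟨g, 0, mem_gidx.2 (by omega), h⟩
    · exact Or.inr ⟨g, 10 * a + 7, mem_gidx.2 (by omega), h⟩
  have hqT : ∀ j, q j ∈ T := by
    intro j
    rw [hmT]
    rcases (hpqT (q j)).1 (Or.inr ⟨j, rfl⟩) with h | ⟨g, h | h⟩
    · exact Or.inl h
    · exact Or.inr ⟨g, 0, mem_gidx.2 (by omega), h⟩
    · exact Or.inr ⟨g, 10 * a + 7, mem_gidx.2 (by omega), h⟩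
  have hPT : ∀ (g : (i : Fin r) × Fin (M i)), ∀ i ∈ gidx a, P g i ∈ T := by
    intro g i hi
    rw [hmT]
    exact Or.inr ⟨g, i, hi, rfl⟩
  have hpqsub : ∀ t ∈ univ.image p ∪ univ.image q, t ∈ T := by
    intro t ht
    rw [mem_union, mem_image, mem_image] at ht
    rcases ht with ⟨j, -, rfl⟩ | ⟨j, -, rfl⟩
    · exact hpT j
    · exact hqT j
  have hSm : Smear G a (univ.image p ∪ univ.image q) w :=
    ⟨hSmT.nonneg, hSmT.small, hSmT.ball, fun t ht => hSmT.total t (hpqsub t ht),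
      fun t ht t' ht' hne' => hTd t (hpqsub t ht) t' (hpqsub t' ht') hne'⟩
  obtain ⟨ε, hε, hεA⟩ := hsigns m p q hp hq hpq hJ w hSm
  have hσb : ∀ v, |sw w p q ε v| ≤ 1 / 2 ^ a :=
    sw_small hp hq hpq hε hSmT.nonneg hSmT.small hSmT.ball hSm.disj
  have hσ2 := average_region h3 c hb0 (by positivity) hcB hσb S hεA
  rw [← hb₁] at hσ2
  have h0 : ∑ v, sw w p q ε v = 0 :=
    sw_zero (fun j => hSmT.total _ (hpT j)) fun j => hSmT.total _ (hqT j)
  have hσD : ∀ v ∈ D, sw w p q ε v = 0 := by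
    intro v hv
    unfold sw
    refine sum_eq_zero fun j _ => ?_
    have e1 : w (p j) v = 0 := by
      by_contra h
      exact hφ8 _ (hpT j) v h hv
    have e2 : w (q j) v = 0 := by
      by_contra h
      exact hφ8 _ (hqT j) v h hv
    rw [e1, e2]
    ring
  -- thinness and the loss lemmas
  have hthin : ∀ P', Fm G S P' → k₁ ≤ dd G P' → ∀ T' ⊆ T, (∀ t ∈ T', Sp G 2 P' t) →
      40 * T'.card ≤ dd G P' := by
    refine thin_sit (co := fun g : (i : Fin r) × Fin (M i) => g.1) hS.disj (by omega) hθ2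
      (fun g => (hβS g.1 g.2).1) hPR ?_ h80
    intro i Z hZ hZj hZk
    refine le_trans ?_ (hβZ i Z hZ hZj hZk)
    have : (univ.filter fun g : (i : Fin r) × Fin (M i) => g.1 = i ∧
        ¬ Disjoint (Bl G.Adj (12 * a + 10) (β g.1 g.2)) Z).card ≤
        (univ.filter fun g => ¬ Disjoint (Bl G.Adj (12 * a + 10) (β i g)) Z).card := by
      refine (card_le_card fun g hg => ?_).trans
        (card_image_le (s := univ.filter fun g => ¬ Disjoint (Bl G.Adj (12 * a + 10) (β i g)) Z)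
          (f := fun g => (⟨i, g⟩ : (i : Fin r) × Fin (M i))))
      obtain ⟨j, g⟩ := g
      obtain ⟨h1, h2⟩ := (mem_filter.1 hg).2
      dsimp only at h1 h2
      subst h1
      exact mem_image.2 ⟨g, mem_filter.2 ⟨mem_univ _, h2⟩, rfl⟩
    exact_mod_cast this
  have hMc : ∀ i, (univ.filter fun g : (i : Fin r) × Fin (M i) => g.1 = i).card ≤ M i := by
    intro i
    refine (card_le_card fun g hg => ?_).trans
      ((card_image_le (s := (univ : Finset (Fin (M i))))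
        (f := fun g => (⟨i, g⟩ : (i : Fin r) × Fin (M i)))).trans (by simp))
    obtain ⟨j, g⟩ := g
    have h1 := (mem_filter.1 hg).2
    dsimp only at h1
    subst h1
    exact mem_image.2 ⟨g, mem_univ _, rfl⟩
  have hMs : ∀ i, 180 * M i ≤ (S i).card := by
    intro i
    have h1 := hM2 i
    have h2 := hFa.half i (S i) (Subset.refl _) (by omega)
    have h4 : 3600 * dd G (S i) ≤ (S i).card :=
      (Nat.mul_le_mul_right _ hN).trans (hFa.bdry i)
    have h5 : (3600 * dd G (S i) : ℝ) ≤ (S i).card := by exact_mod_cast h4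
    have h6 : (0 : ℝ) ≤ dd G (S i) := Nat.cast_nonneg _
    have h7 : 2 * η * gf C (S i).card ≤ 2 * η * (10 * dd G (S i)) :=
      mul_le_mul_of_nonneg_left h2 (by linarith)
    have h8 : 2 * η * (10 * (dd G (S i) : ℝ)) ≤ 2 * 1 * (10 * dd G (S i)) :=
      mul_le_mul_of_nonneg_right (by linarith) (by linarith)
    have h9 : (180 * (M i : ℝ)) ≤ (S i).card := by linarith
    exact_mod_cast h9
  have hfew : ∀ i, 6 * (D ∩ S i).card ≤ (S i).card :=
    fun i => card_D_inter (co := fun g : (i : Fin r) × Fin (M i) => g.1) hS.disj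
      (fun g => (hβS g.1 g.2).1) hPR hMc hMs (by omega : 200 ≤ N) (by omega : 200 ≤ k) hFa.bdry
      hTk hTri i
  have hSk : ∀ i, k ≤ (S i).card := hFa.large
  have hcyc : ¬ (G.induce (((univ.biUnion S)ᶜᶜ : Finset V) : Set V)).IsAcyclic := by
    rw [compl_compl]
    exact cores_cyclic h3 hC hS
  have hXL : CX.XLoss G S D := by
    refine ⟨hS.disj, hFa.ratio, hfew, fun i => ?_, fun A hA => ?_, fun i A hA => ?_⟩
    · rw [Finset.nonempty_iff_ne_empty]
      intro h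
      have h1 : S i ⊆ D ∩ S i := fun v hv => mem_inter.2 ⟨by
        by_contra hvD
        have : v ∈ S i \ D := mem_sdiff.2 ⟨hv, hvD⟩
        rw [h] at this
        simp at this, hv⟩
      have h2 := card_le_card h1
      have h4 := hfew i
      have h5 := hSk i
      omega
    · exact loss_out h3 hc hg hk1 ha hcyc hTri (fun P' hP' _ hk' T' hT' hsp =>
        hthin P' (Or.inl hP') hk' T' hT' hsp) A hA
    · exact loss_core h3 hc hg hk1 ha (hFa.joined i) (hSk i) (hFa.ratio i) hTri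
        (fun P' h1 h2 h4 h5 h6 h7 T' hT' hsp =>
          hthin P' (Or.inr ⟨i, h1, h2, h4, h5, h6⟩) h7 T' hT' hsp) A hA
  -- separation of the cores
  have hsep' : ∀ Q : Finset V, Sat S Q → (∃ i, S i ⊆ Q) → (∃ i, Disjoint (S i) Q) →
      κ ≤ ds G D Q := by
    intro Q hQ hin hout
    obtain ⟨D₀, hD₀⟩ : ∃ D₀ : Finset V, ∀ v, v ∈ D₀ ↔ ∃ t, ν t = t ∧ v ∈ trp G H t :=
      ⟨univ.filter fun v => ∃ t, ν t = t ∧ v ∈ trp G H t, fun v => by rw [mem_filter]; simp⟩
    have hD₀D : D₀ ⊆ D := by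
      intro v hv
      obtain ⟨t, ht, hvt⟩ := (hD₀ v).1 hv
      exact mem_biUnion.2 ⟨t, (hmT t).2 (Or.inl ht), hvt⟩
    have hchar : ∀ v, v ∈ D₀ ↔ ∃ t, ν t = t ∧ (v = t ∨ (G.Adj t v ∧ v ≠ μ t)) := by
      intro v
      rw [hD₀]
      refine exists_congr fun t => and_congr_right fun ht => ?_
      rw [mem_trp]
      refine or_congr_right (and_congr_right fun hadj => not_congr ?_)
      have hn1 : (H.neighborSet t).ncard = 1 := by
        rw [hdeg t, if_pos ((hmT t).2 (Or.inl ht))]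
      obtain ⟨y, hy⟩ := Set.ncard_eq_one.1 hn1
      have e1 : ∀ u, H.Adj t u ↔ u = y := by
        intro u
        have : u ∈ H.neighborSet t ↔ u ∈ ({y} : Set V) := by rw [hy]
        simpa using this
      rw [e1, (e1 (μ t)).1 (hHμ t ht)]
    have h1 : ds G D Q = ds G D₀ Q :=
      sep_D (co := fun g : (i : Fin r) × Fin (M i) => g.1) (by omega)
        (fun g => (hβS g.1 g.2).1) hPR hTri hD₀ hQ
    rw [h1]
    have hbig : ∀ i, s₁ ≤ (S i \ D₀).card := by
      intro i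
      have h2 : (S i).card ≤ (S i \ D₀).card + (D ∩ S i).card := by
        have h4 : S i ⊆ (S i \ D₀) ∪ (D ∩ S i) := by
          intro v hv
          by_cases hvD : v ∈ D₀
          · exact mem_union_right _ (mem_inter.2 ⟨hD₀D hvD, hv⟩)
          · exact mem_union_left _ (mem_sdiff.2 ⟨hv, hvD⟩)
        exact (card_le_card h4).trans (card_union_le _ _)
      have h4 := hfew i
      have h5 := hSk i
      omega
    obtain ⟨i, hi⟩ := hin
    obtain ⟨j, hj⟩ := hout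
    refine hsep Q D₀ hchar ((hbig i).trans (card_le_card (sdiff_subset_sdiff hi (Subset.refl _))))
      ((hbig j).trans (card_le_card (sdiff_subset_sdiff (fun v hv => ?_) (Subset.refl _))))
    exact mem_compl.2 fun h => Finset.disjoint_left.1 hj hv h
  obtain ⟨z, hz1, hz2⟩ := CX.exists_z hXL hκ hsep' h0 hσD hb₁0 (hσ2 _ (Or.inr rfl))
  have hκr : (0 : ℝ) < κ := by exact_mod_cast hκ
  have hzM : ∀ i, (z i).natAbs ≤ M i := by
    intro i
    have h1 : (dd G (S i) : ℝ) ≤ gf C (S i).card := (hS.viol i).le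
    have h2 : (4 * b₁ + 5 / κ) * dd G (S i) ≤ 4 * η * dd G (S i) :=
      mul_le_mul_of_nonneg_right hn1 (Nat.cast_nonneg _)
    have h4 : η * dd G (S i) ≤ η * gf C (S i).card := mul_le_mul_of_nonneg_left h1 hη
    have h5 := hM i
    have h6 := hz1 i
    have h6' := hσ2 _ (Or.inl ⟨i, rfl⟩) (S i) (Subset.refl _)
    have h7 : |(z i : ℝ)| ≤ M i := by linarith
    have h8 : ((z i).natAbs : ℝ) = |(z i : ℝ)| := by
      rw [Nat.cast_natAbs, Int.cast_abs]
    rw [← h8] at h7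
    exact_mod_cast h7
  -- the signs of the gadgets
  obtain ⟨η₁, hη₁⟩ : ∃ η₁ : ((i : Fin r) × Fin (M i)) → ℤ, ∀ g, η₁ g =
      if (g.2 : ℕ) < (z g.1).natAbs then (z g.1).sign else 1 := ⟨_, fun g => rfl⟩
  obtain ⟨η₂, hη₂⟩ : ∃ η₂ : ((i : Fin r) × Fin (M i)) → ℤ, ∀ g, η₂ g =
      if (g.2 : ℕ) < (z g.1).natAbs then (z g.1).sign else -1 := ⟨_, fun g => rfl⟩
  have hη₁' : ∀ g, η₁ g = 1 ∨ η₁ g = -1 := by
    intro g
    rw [hη₁ g]
    split_ifs with h
    · exact sign_pm h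
    · exact Or.inl rfl
  have hη₂' : ∀ g, η₂ g = 1 ∨ η₂ g = -1 := by
    intro g
    rw [hη₂ g]
    split_ifs with h
    · exact sign_pm h
    · exact Or.inr rfl
  obtain ⟨x, hx1, hx2, hx3, hx4⟩ := hx ε η₁ η₂ hε hη₁' hη₂'
  set qq : V → ℝ := fun v => ∑ g, gch a w (P g) (η₁ g) (η₂ g) v with hqq
  have hfixP : ∀ g, ∀ i ≤ 10 * a + 7, ν (P g i) ≠ P g i := fun g i hi =>
    hβν g _ (Bl_mono (by omega) _ (hPb g i hi))
  have hsplit : ∀ X : Finset V, ∑ t ∈ T, (x t : ℝ) * ∑ v ∈ X, w t v =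
      ∑ v ∈ X, (sw w p q ε v + qq v) := by
    intro X
    have e1 : ∑ v ∈ X, (sw w p q ε v + qq v) = ∑ v ∈ X, sw w p q ε v + ∑ v ∈ X, qq v :=
      sum_add_distrib
    rw [sum_sites hinj hfixP hp hq hpq hpqT hmT, e1]
    congr 1
    · rw [← sum_add_distrib]
      unfold sw
      rw [sum_comm]
      refine sum_congr rfl fun j _ => ?_
      rw [(hx3 j).1, (hx3 j).2, ← mul_sum, sum_sub_distrib]
      push_cast
      ring
    · rw [hqq]
      dsimp only
      rw [sum_comm]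
      refine sum_congr rfl fun g _ => ?_
      unfold gch
      rw [sum_add_distrib, ← mul_sum, ← mul_sum, sum_add_distrib, sum_add_distrib,
        (hx4 g).1, (hx4 g).2.1, (hx4 g).2.2.1, (hx4 g).2.2.2]
      ring
  -- the support of the gadget charges
  have hwS : ∀ (g : (i : Fin r) × Fin (M i)), ∀ i ∈ gidx a, ∀ v, w (P g i) v ≠ 0 →
      v ∈ Bl G.Adj (12 * a + 10) (β g.1 g.2) := fun g i hi v hv =>
    hPR g i (gidx_le hi) (hSmT.ball _ v hv)
  have hwS' : ∀ (g : (i : Fin r) × Fin (M i)), ∀ i ∈ gidx a, ∀ v, w (P g i) v ≠ 0 →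
      v ∈ S g.1 := fun g i hi v hv => (hβS g.1 g.2).1 (hwS g i hi v hv)
  have hqD : ∀ v ∈ D, qq v = 0 := by
    intro v hv
    rw [hqq]
    dsimp only
    refine sum_eq_zero fun g _ => ?_
    by_contra hc'
    obtain ⟨i, hi, hiv⟩ := gch_ne hc'
    exact hφ8 _ (hPT g i hi) v hiv hv
  have hqW : ∀ v, (∀ i, v ∉ S i) → qq v = 0 := by
    intro v hv
    rw [hqq]
    dsimp only
    refine sum_eq_zero fun g _ => ?_
    by_contra hc'
    obtain ⟨i, hi, hiv⟩ := gch_ne hc'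
    exact hv g.1 (hwS' g i hi v hiv)
  have hq1 : ∀ i, ∑ v ∈ S i, qq v = 4 * z i := by
    intro i
    rw [hqq]
    dsimp only
    rw [sum_comm]
    have h1 : ∀ g : (i : Fin r) × Fin (M i), ∑ v ∈ S i, gch a w (P g) (η₁ g) (η₂ g) v =
        (2 * η₁ g + 2 * η₂ g) * (if g.1 = i then 1 else 0) := by
      intro g
      refine gch_sum fun j hj => ?_
      by_cases h : g.1 = i
      · rw [if_pos h, ← hSmT.total _ (hPT g j hj)]
        refine sum_subset (subset_univ _) fun v _ hv => ?_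
        by_contra hc'
        exact hv (h ▸ hwS' g j hj v hc')
      · rw [if_neg h]
        refine sum_eq_zero fun v hv => ?_
        by_contra hc'
        exact Finset.disjoint_left.1 (hS.disj g.1 i h) (hwS' g j hj v hc') hv
    rw [sum_congr rfl fun g _ => h1 g, Fintype.sum_sigma, sum_eq_single i]
    · rw [← sum_signs (hzM i)]
      refine sum_congr rfl fun g _ => ?_
      rw [hη₁, hη₂]
      simp
    · intro j _ hj
      refine sum_eq_zero fun g _ => ?_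
      rw [if_neg hj, mul_zero]
    · intro h
      exact absurd (mem_univ _) h
  have hgd : ∀ (g : (i : Fin r) × Fin (M i)), ∀ i ∈ gidx a, ∀ j ∈ gidx a, i ≠ j →
      Disjoint (Bl G.Adj a (P g i)) (Bl G.Adj a (P g j)) := by
    intro g i hi j hj hij
    exact hTd _ (hPT g i hi) _ (hPT g j hj) fun h =>
      hij (hinj g i g j (gidx_le hi) (gidx_le hj) h).2
  have hq2 : ∀ i, ∀ A ⊆ S i, 3 * A.card ≤ 2 * (S i).card →
      |∑ v ∈ A, qq v| ≤ (2 / 2 ^ a + 4 * θ) * dd G A := by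
    intro i A hA hA2
    have h1 : ∑ v ∈ A, qq v =
        ∑ v ∈ A, ∑ g : Fin (M i), gch a w (P ⟨i, g⟩) (η₁ ⟨i, g⟩) (η₂ ⟨i, g⟩) v := by
      refine sum_congr rfl fun v hv => ?_
      rw [hqq]
      dsimp only
      rw [Fintype.sum_sigma, sum_eq_single i]
      · intro i' _ hi'
        refine sum_eq_zero fun g _ => ?_
        by_contra hc'
        obtain ⟨j, hj, hjv⟩ := gch_ne hc'
        exact Finset.disjoint_left.1 (hS.disj i' i hi') (hwS' ⟨i', g⟩ j hj v hjv) (hA hv)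
      · intro h
        exact absurd (mem_univ _) h
    rw [h1]
    refine q_bound_two h3 hS hFa hc hθ i (β i)
      (fun g v => gch a w (P ⟨i, g⟩) (η₁ ⟨i, g⟩) (η₂ ⟨i, g⟩) v) (hβd i) ?_ ?_ ?_
      (by omega : k₁ ≤ k) (hβZ i) A hA hA2
    · intro g v hv
      obtain ⟨j, hj, hjv⟩ := gch_ne hv
      exact hwS ⟨i, g⟩ j hj v hjv
    · intro g v
      exact gch_small (G := G) hSmT.nonneg hSmT.small hSmT.ball
        (fun i' j' hi' hj' h => (hinj ⟨i, g⟩ i' ⟨i, g⟩ j' hi' hj' h).2)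
        (hgd ⟨i, g⟩) (hη₁' _) (hη₂' _) v
    · intro g
      exact gch_total hSmT.nonneg (fun j hj => hSmT.total _ (hPT ⟨i, g⟩ j hj)) (hη₁' _) (hη₂' _)
  have hcut : ∀ Z : Finset V, Disjoint Z D →
      |∑ t ∈ T, (x t : ℝ) * ∑ v ∈ Z, w t v| ≤ 1 / 10 * ds G D Z := by
    intro Z hZ
    rw [hsplit Z]
    refine CX.cut_exact hXL hσD hqD hqW hq1 hb₁0 (by positivity)
      (β := 3 * b₁ + 5 / κ) (by positivity) hz2 (fun i => hσ2 _ (Or.inl ⟨i, rfl⟩)) hq2 ?_ Z hZ
    have h7 : (25 : ℝ) / κ = 5 * (5 / κ) := by ring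
    rw [h7] at hn2
    linarith
  exact flow_of_signs_all h3 hx1 fun Z =>
    Pool.Agent.K5.final_exact h3 hH hdeg hx1 hx2 hTd hφ1 hφ2 hφ4 hφ5 hφ6 (trp G H) hφ7
      (fun t ht v hv => by
        by_contra h
        exact hφ8 t ht v h hv)
      (fun Y hY => by
        have := hcut Y hY
        rwa [X2.ds_eq_ee G hY] at this) Z

end Pool.Agent.K5.XA
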