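import Mathlib
import Pool.Agent.Work.MP_974d84_co_k5.Words
import Pool.Agent.Work.MP_974d84_co_k5.PatternA
import Pool.Agent.Work.MP_974d84_co_k5.DefsE

/-!
# ROOM BG, E4: the prescribed signs near the marks (words)
-/

set_option linter.unusedSectionVars false

namespace Pool.Agent.K5.MW

open Finset SimpleGraph Pool.Agent.Exp Pool.Agent.Log5 Pool.Agent.Log5.Clu Pool.Agent.K5
  Pool.Agent.K5.Wd

variable {V : Type} [Fintype V] [DecidableEq V]

/-- The vertices with a prescribed sign near the end `u` of the marked edge `u v`. -/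
def Pr (μ : V → V) (π : Equiv.Perm V) (J : ℕ) (σ : V → V → ℤ) (u v t : V) (s : ℤ) : Prop :=
  (t = u ∧ s = σ u v) ∨
    ∃ c : List Bool, c.length < J ∧ t = TT μ π u c ∧ s = if v = μ u then σ u v else - σ u v

variable {G : SimpleGraph V} [DecidableRel G.Adj] {μ : V → V} {π : Equiv.Perm V}

/-- The word without its last letter. -/
def tw0 : List Bool → List (Option Bool)
  | [] => []
  | b :: c => none :: some b :: tw0 c

theorem tw_eq (c : List Bool) : tw c = tw0 c ++ [none] := by
  induction c with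
  | nil => rfl
  | cons b c ih => simp [tw, tw0, ih]

theorem length_tw0 (c : List Bool) : (tw0 c).length = 2 * c.length := by
  induction c with
  | nil => rfl
  | cons b c ih =>
    show ((tw0 c).length + 1) + 1 = 2 * (c.length + 1)
    omega

theorem red_tw0 (c : List Bool) (m : ℕ) (b : Bool) :
    Red (List.replicate m (some b) ++ tw0 c) := by
  have h := red_sandwich m 0 b true c
  rw [tw_eq, List.replicate_zero, List.append_nil, ← List.append_assoc] at h
  exact h.left_of_append

theorem act_tw0 (hf : Frame G μ π) (u : V) (c : List Bool) :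
    act μ π (tw0 c) u = TT μ π (μ u) c := by
  rw [← act_tw, tw_eq, act_append]
  show _ = act μ π (tw0 c) (μ (μ u))
  rw [hf.mu_mu]

theorem none_rep {n : ℕ} {b : Bool} : none ∉ List.replicate n (some b) := by
  intro h
  have := List.eq_of_mem_replicate h
  simp at this

theorem pow_inj' (hf : Frame G μ π) {k : ℕ} (hg : Gir G k) {m n : ℕ} (hk : m + n + 1 < k)
    {z : V} (h : (π ^ m) z = (π ^ n) z) : m = n := by
  have h1 := act_uniq hf hg (red_replicate m true) (red_replicate n true)
    (by simpa using hk) (v := z) (by rw [act_rep_true, act_rep_true, h])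
  simpa using congrArg List.length h1

/-- Prescribed vertices of the same end. -/
theorem pr_same (hf : Frame G μ π) {k : ℕ} (hg : Gir G k) {J L : ℕ} {σ : V → V → ℤ}
    {u v t t' z : V} {s s' : ℤ} {m n : ℕ} (hk : 2 * L + 4 * J + 12 < k) (hm : m ≤ L)
    (hn : n ≤ L) (h1 : Pr μ π J σ u v t s) (h2 : Pr μ π J σ u v t' s') (e1 : (π ^ m) z = t)
    (e2 : (π ^ n) z = t') : t = t' ∧ s = s' ∧ m = n := by
  rcases h1 with ⟨rfl, rfl⟩ | ⟨c, hc, ht, rfl⟩ <;> rcases h2 with ⟨r1, rfl⟩ | ⟨c', hc', ht', rfl⟩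
  · subst r1
    exact ⟨rfl, rfl, pow_inj' hf hg (by omega) (e1.trans e2.symm)⟩
  · exfalso
    refine tree_ne hf hg (a := z) (i := m) (m := 0) (n := n) (c := c') (by omega) ?_
    rw [e1, pow_zero, Equiv.Perm.one_apply, ← ht', e2]
  · exfalso
    subst r1
    refine tree_ne hf hg (a := z) (i := n) (m := 0) (n := m) (c := c) (by omega) ?_
    rw [e2, pow_zero, Equiv.Perm.one_apply, ← ht, e1]
  · have h3 := tree_uniq hf hg (a := u) (b := z) (i := 0) (j := 0) (m := m) (n := n) (c := c)
      (d := c') (by omega) (by rw [e1, ht]; rfl) (by rw [e2, ht']; rfl)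
    obtain ⟨-, h4, h5⟩ := h3
    subst h4 h5
    exact ⟨by rw [ht, ht'], rfl, rfl⟩

/-- Prescribed vertices of the two ends of a marked third edge. -/
theorem pr_third (hf : Frame G μ π) {k : ℕ} (hg : Gir G k) {J L : ℕ} {σ : V → V → ℤ}
    (hσ : ∀ u v, σ u v = σ v u)
    {u t t' z : V} {s s' : ℤ} {m n : ℕ} (hk : 2 * L + 4 * J + 12 < k) (hm : m ≤ L)
    (hn : n ≤ L) (h1 : Pr μ π J σ u (μ u) t s) (h2 : Pr μ π J σ (μ u) u t' s')
    (e1 : (π ^ m) z = t) (e2 : (π ^ n) z = t') : t = t' ∧ s = s' ∧ m = n := by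
  have hs : s = σ u (μ u) := by
    rcases h1 with ⟨-, h⟩ | ⟨c, -, -, h⟩
    · exact h
    · rw [h, if_pos rfl]
  have hs' : s' = σ u (μ u) := by
    rcases h2 with ⟨-, h⟩ | ⟨c, -, -, h⟩
    · rw [h, hσ]
    · rw [h, if_pos (hf.mu_mu u).symm, hσ]
  have hw1 : ∃ w : List (Option Bool), t = act μ π w u ∧ (w = [] ∨ ∃ c : List Bool,
      c.length < J ∧ w = tw c) := by
    rcases h1 with ⟨h, -⟩ | ⟨c, hc, h, -⟩
    · exact ⟨[], h, Or.inl rfl⟩
    · exact ⟨tw c, by rw [act_tw, h], Or.inr ⟨c, hc, rfl⟩⟩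
  have hw2 : ∃ w : List (Option Bool), t' = act μ π w u ∧ (w = [none] ∨ ∃ c : List Bool,
      c.length < J ∧ w = tw0 c) := by
    rcases h2 with ⟨h, -⟩ | ⟨c, hc, h, -⟩
    · exact ⟨[none], h, Or.inl rfl⟩
    · exact ⟨tw0 c, by rw [act_tw0 hf, h], Or.inr ⟨c, hc, rfl⟩⟩
  obtain ⟨w1, ht1, hw1⟩ := hw1
  obtain ⟨w2, ht2, hw2⟩ := hw2
  have hz1 : act μ π (List.replicate m (some false) ++ w1) u = z := by
    rw [act_append, ← ht1, ← e1, act_rep_false]
  have hz2 : act μ π (List.replicate n (some false) ++ w2) u = z := by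
    rw [act_append, ← ht2, ← e2, act_rep_false]
  have r1 : Red (List.replicate m (some false) ++ w1) := by
    rcases hw1 with rfl | ⟨c, -, rfl⟩
    · rw [List.append_nil]; exact red_replicate _ _
    · simpa using red_sandwich m 0 false true c
  have r2 : Red (List.replicate n (some false) ++ w2) := by
    rcases hw2 with rfl | ⟨c, -, rfl⟩
    · simpa [tw] using red_sandwich n 0 false true []
    · exact red_tw0 c n false
  have l1 : w1.length ≤ 2 * J := by
    rcases hw1 with rfl | ⟨c, hc, rfl⟩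
    · simp
    · rw [length_tw]; omega
  have l2 : w2.length ≤ 2 * J + 1 := by
    rcases hw2 with rfl | ⟨c, hc, rfl⟩
    · simp
    · rw [length_tw0]; omega
  have heq := act_uniq hf hg r1 r2 (by
    simp only [List.length_append, List.length_replicate]
    omega) (hz1.trans hz2.symm)
  have key : w1 = w2 ∧ m = n := by
    rcases hw1 with rfl | ⟨c, hc, rfl⟩
    · rcases hw2 with rfl | ⟨c', hc', rfl⟩
      · exfalso
        rw [List.append_nil] at heq
        apply none_rep (n := m) (b := false)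
        rw [heq]
        simp
      · cases c' with
        | nil =>
          refine ⟨rfl, ?_⟩
          simpa [tw0] using congrArg List.length heq
        | cons b c' =>
          exfalso
          rw [List.append_nil] at heq
          apply none_rep (n := m) (b := false)
          rw [heq]
          simp [tw0]
    · have hh : ∃ x, tw c = none :: x := by
        cases c with
        | nil => exact ⟨_, rfl⟩
        | cons b c => exact ⟨_, rfl⟩
      obtain ⟨x, hx⟩ := hh
      rcases hw2 with rfl | ⟨c', hc', rfl⟩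
      · rw [hx] at heq ⊢
        obtain ⟨h3, h4⟩ := rep_none heq
        exact ⟨by rw [h4], h3⟩
      · cases c' with
        | nil =>
          exfalso
          rw [show tw0 [] = [] from rfl, List.append_nil] at heq
          apply none_rep (n := n) (b := false)
          rw [← heq, hx]
          simp
        | cons b c' =>
          have hx' : tw0 (b :: c') = none :: (some b :: tw0 c') := rfl
          rw [hx, hx'] at heq
          obtain ⟨h3, h4⟩ := rep_none heq
          refine ⟨by rw [hx, hx', h4], h3⟩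
  obtain ⟨h3, h4⟩ := key
  exact ⟨by rw [ht1, ht2, h3], hs.trans hs'.symm, h4⟩

/-- Prescribed vertices of the two ends of a marked circuit edge. -/
theorem pr_circ (hf : Frame G μ π) {k : ℕ} (hg : Gir G k) {J L : ℕ} {σ : V → V → ℤ}
    {u v v' t t' z : V} {s s' : ℤ} {m n : ℕ} (hk : 2 * L + 4 * J + 12 < k) (hm : m ≤ L)
    (hn : n ≤ L) (h1 : Pr μ π J σ u v t s) (h2 : Pr μ π J σ (π u) v' t' s')
    (e1 : (π ^ m) z = t) (e2 : (π ^ n) z = t') : t = u ∧ t' = π u ∧ n = m + 1 := by
  rcases h1 with ⟨h1, -⟩ | ⟨c, hc, ht, -⟩ <;> rcases h2 with ⟨h2, -⟩ | ⟨c', hc', ht', -⟩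
  · refine ⟨h1, h2, pow_inj' hf hg (z := z) (by omega) ?_⟩
    rw [e2, h2, pow_succ', Equiv.Perm.mul_apply, e1, h1]
  · exfalso
    refine tree_ne hf hg (a := z) (i := m + 1) (m := 0) (n := n) (c := c') (by omega) ?_
    rw [pow_succ', Equiv.Perm.mul_apply, e1, h1, pow_zero, Equiv.Perm.one_apply, ← ht', e2]
  · exfalso
    rcases n with _ | n
    · refine tree_ne hf hg (a := u) (i := 0) (m := 0) (n := m + 1) (c := c) (by omega) ?_
      rw [pow_zero, Equiv.Perm.one_apply] at e2
      rw [pow_zero, Equiv.Perm.one_apply, Equiv.Perm.one_apply, ← ht, ← e1, e2, h2,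
        pow_succ, Equiv.Perm.mul_apply]
    · have e3 : (π ^ n) z = u := by
        have : π ((π ^ n) z) = π u := by rw [← h2, ← e2, pow_succ', Equiv.Perm.mul_apply]
        exact π.injective this
      refine tree_ne hf hg (a := z) (i := n) (m := 0) (n := m) (c := c) (by omega) ?_
      rw [e3, pow_zero, Equiv.Perm.one_apply, ← ht, e1]
  · exfalso
    have h3 := tree_uniq hf hg (a := u) (b := z) (i := 0) (j := 1) (m := m) (n := n) (c := c)
      (d := c') (by omega) (by rw [e1, ht]; rfl) (by rw [e2, ht']; rfl)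
    omega

theorem pr_word {J : ℕ} {σ : V → V → ℤ} {u v t : V} {s : ℤ} (h : Pr μ π J σ u v t s) :
    ∃ w : List (Option Bool), t = act μ π w u ∧ w.length ≤ 2 * J ∧
      (w = [] ∨ ∃ c : List Bool, c.length < J ∧ w = tw c) := by
  rcases h with ⟨h, -⟩ | ⟨c, hc, h, -⟩
  · exact ⟨[], h, by simp, Or.inl rfl⟩
  · exact ⟨tw c, by rw [act_tw, h], by rw [length_tw]; omega, Or.inr ⟨c, hc, rfl⟩⟩

theorem pr_ball (hf : Frame G μ π) {J : ℕ} {σ : V → V → ℤ} {u v t : V} {s : ℤ}
    (h : Pr μ π J σ u v t s) : t ∈ Bl G.Adj (2 * J) u := by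
  obtain ⟨w, hw, hl, -⟩ := pr_word h
  rw [hw]
  exact Bl_mono hl _ (act_mem_Bl hf w u)

/-- The other end is near. -/
theorem pr_near (hf : Frame G μ π) {J L : ℕ} {σ : V → V → ℤ} {u v u' v' t t' z : V} {s s' : ℤ}
    {m n : ℕ} (hm : m ≤ L) (hn : n ≤ L) (h1 : Pr μ π J σ u v t s)
    (h2 : Pr μ π J σ u' v' t' s') (e1 : (π ^ m) z = t) (e2 : (π ^ n) z = t') :
    u' ∈ Bl G.Adj (2 * L + 4 * J) u := by
  obtain ⟨w, hw, hl, -⟩ := pr_word h1
  obtain ⟨w', hw', hl', -⟩ := pr_word h2
  have h : act μ π (winv w' ++ (List.replicate n (some true) ++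
      (List.replicate m (some false) ++ w))) u = u' := by
    rw [act_append, act_append, act_append, ← hw, ← e1, act_rep_false, act_rep_true, e2, hw',
      act_winv hf]
  rw [← h]
  refine Bl_mono ?_ _ (act_mem_Bl hf _ u)
  simp only [List.length_append, List.length_replicate, length_winv]
  omega

/-- Two prescribed vertices on a short arc. -/
theorem pr_uniq (hf : Frame G μ π) {k D : ℕ} (hg : Gir G k) {p : V → V → ℝ} (hp : Marks G p)
    (hD : FarM G D p) {J L : ℕ} {σ : V → V → ℤ} (hσ : ∀ u v, σ u v = σ v u)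
    (hk : 2 * L + 4 * J + 12 < k) (hDL : 2 * L + 4 * J ≤ D) {u v u' v' t t' z : V} {s s' : ℤ}
    {m n : ℕ} (hm : m ≤ L) (hn : n ≤ L) (hu : p u v ≠ 0) (hu' : p u' v' ≠ 0)
    (h1 : Pr μ π J σ u v t s) (h2 : Pr μ π J σ u' v' t' s') (e1 : (π ^ m) z = t)
    (e2 : (π ^ n) z = t') :
    (t = t' ∧ s = s' ∧ m = n) ∨ (t' = π t ∧ n = m + 1 ∧ p t (π t) ≠ 0) ∨
      (t = π t' ∧ m = n + 1 ∧ p t' (π t') ≠ 0) := by
  have hb := Bl_mono hDL u (pr_near hf hm hn h1 h2 e1 e2)
  rcases hD u v u' v' hu hu' hb with ⟨r1, r2⟩ | ⟨r1, r2⟩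
  · subst r1 r2
    exact Or.inl (pr_same hf hg hk hm hn h1 h2 e1 e2)
  · subst r1 r2
    rcases (hf.adj _ _).1 (hp.adj _ _ hu) with h | h | h
    · subst h
      exact Or.inl (pr_third hf hg hσ hk hm hn h1 h2 e1 e2)
    · subst h
      obtain ⟨h3, h4, h5⟩ := pr_circ hf hg hk hm hn h1 h2 e1 e2
      refine Or.inr (Or.inl ⟨by rw [h4, h3], h5, ?_⟩)
      rw [h3]
      exact hu
    · have h' : v' = π u' := by rw [h, Equiv.apply_symm_apply]
      subst h'
      obtain ⟨h3, h4, h5⟩ := pr_circ hf hg hk hn hm h2 h1 e2 e1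
      refine Or.inr (Or.inr ⟨by rw [h4, h3], h5, ?_⟩)
      rw [h3]
      exact hu'

/-- At most two prescribed vertices on a short arc. -/
theorem arc_two (hf : Frame G μ π) {k D : ℕ} (hg : Gir G k) {p : V → V → ℝ} (hp : Marks G p)
    (hD : FarM G D p) {J L : ℕ} {σ : V → V → ℤ} (hσ : ∀ u v, σ u v = σ v u)
    (hk : 2 * L + 4 * J + 12 < k) (hDL : 2 * L + 4 * J ≤ D) (z : V) (T : Finset ℕ)
    (hT : ∀ n ∈ T, n ≤ L ∧ ∃ u v s, p u v ≠ 0 ∧ Pr μ π J σ u v ((π ^ n) z) s) :
    T.card ≤ 2 := by
  classical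
  by_contra hc
  push Not at hc
  obtain ⟨a, ha, b, hb, c, hc', hab, hac, hbc⟩ := two_lt_card.1 hc
  have key : ∀ m ∈ T, ∀ n ∈ T, m ≠ n → n = m + 1 ∨ m = n + 1 := by
    intro m hm n hn hmn
    obtain ⟨hm1, u, v, s, hu, h1⟩ := hT m hm
    obtain ⟨hn1, u', v', s', hu', h2⟩ := hT n hn
    rcases pr_uniq hf hg hp hD hσ hk hDL hm1 hn1 hu hu' h1 h2 rfl rfl with h | h | h
    · exact absurd h.2.2 hmn
    · exact Or.inl h.2.1
    · exact Or.inr h.2.1
  have k1 := key a ha b hb hab
  have k2 := key a ha c hc' hac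
  have k3 := key b hb c hc' hbc
  omega

theorem rep_none' {P Q : List (Option Bool)} {i j : ℕ} {b : Bool}
    (h : P ++ none :: List.replicate i (some b) = Q ++ none :: List.replicate j (some b)) :
    i = j := by
  have h1 := congrArg List.reverse h
  simp only [List.reverse_append, List.reverse_cons, List.reverse_replicate, List.append_assoc,
    List.singleton_append] at h1
  exact (rep_none h1).1

/-- The word from a window to the end of a mark. -/
theorem path_word (hf : Frame G μ π) {J : ℕ} {σ : V → V → ℤ} {u v t a z : V} {s : ℤ} {i m n : ℕ}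
    {c : List Bool} (h : Pr μ π J σ u v t s) (e1 : (π ^ m) z = TT μ π ((π ^ i) a) c)
    (e2 : (π ^ n) z = t) (hmn : m ≠ n) : ∃ P : List (Option Bool),
      Red (P ++ none :: List.replicate i (some true)) ∧
      P.length ≤ 2 * J + m + n + 2 * c.length ∧
      act μ π (P ++ none :: List.replicate i (some true)) a = u := by
  obtain ⟨w, hw, hl, hw'⟩ := pr_word h
  -- the steps
  have hst : ∃ (b : Bool) (l : ℕ), 0 < l ∧ l ≤ m + n ∧
      act μ π (List.replicate l (some b)) (TT μ π ((π ^ i) a) c) = t := by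
    rcases Nat.lt_or_ge m n with h1 | h1
    · refine ⟨true, n - m, by omega, by omega, ?_⟩
      rw [act_rep_true, ← e1, ← Equiv.Perm.mul_apply, ← pow_add, Nat.sub_add_cancel h1.le, e2]
    · refine ⟨false, m - n, by omega, by omega, ?_⟩
      have h2 : TT μ π ((π ^ i) a) c = (π ^ (m - n)) t := by
        rw [← e1, ← e2, ← Equiv.Perm.mul_apply, ← pow_add, Nat.sub_add_cancel h1]
      rw [h2, act_rep_false]
  obtain ⟨b, l, hl0, hl1, hl2⟩ := hst
  refine ⟨winv w ++ (List.replicate l (some b) ++ tw0 c), ?_, ?_, ?_⟩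
  · have e : winv w ++ (List.replicate l (some b) ++ tw0 c) ++
        none :: List.replicate i (some true) =
        winv w ++ (List.replicate l (some b) ++ (tw c ++ List.replicate i (some true))) := by
      rw [tw_eq]
      simp [List.append_assoc]
    rw [e]
    unfold Red
    rw [List.isChain_append]
    refine ⟨?_, red_sandwich l i b true c, ?_⟩
    · have hr : Red w := by
        rcases hw' with rfl | ⟨c', -, rfl⟩
        · exact List.isChain_nil
        · simpa using red_sandwich 0 0 true true c'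
      exact red_winv hr
    · intro x hx y hy
      have hx' : x = none := by
        rcases hw' with rfl | ⟨c', -, rfl⟩
        · simp [winv] at hx
        · have hh : ∃ r, tw c' = none :: r := by
            cases c' with
            | nil => exact ⟨_, rfl⟩
            | cons b c => exact ⟨_, rfl⟩
          obtain ⟨r, hr⟩ := hh
          rw [hr, winv_cons] at hx
          simpa [linv, eq_comm] using hx
      obtain ⟨l', rfl⟩ : ∃ l', l = l' + 1 := ⟨l - 1, by omega⟩
      rw [List.replicate_succ] at hy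
      have hy' : y = some b := by simpa [eq_comm] using hy
      rw [hx', hy']
      simp [linv]
  · simp only [List.length_append, List.length_replicate, length_winv, length_tw0]
    omega
  · have e : winv w ++ (List.replicate l (some b) ++ tw0 c) ++
        none :: List.replicate i (some true) =
        winv w ++ (List.replicate l (some b) ++ (tw c ++ List.replicate i (some true))) := by
      rw [tw_eq]
      simp [List.append_assoc]
    rw [e, act_append, act_append, act_append, act_rep_true, act_tw, hl2, hw, act_winv hf]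

/-- One end of a mark sees at most one place of a window. -/
theorem place_uniq (hf : Frame G μ π) {k : ℕ} (hg : Gir G k) {J B q : ℕ} {σ : V → V → ℤ}
    (hk : 4 * q + 4 * B + 8 * J + 8 < k) {u v v' t t' a z z' : V} {s s' : ℤ} {i i' m n m' n' : ℕ}
    {c c' : List Bool} (hc : c.length < J) (hc' : c'.length < J) (hi : i ≤ 2 * q)
    (hi' : i' ≤ 2 * q) (hm : m ≤ B) (hn : n ≤ B) (hm' : m' ≤ B) (hn' : n' ≤ B)
    (h : Pr μ π J σ u v t s) (h' : Pr μ π J σ u v' t' s')
    (e1 : (π ^ m) z = TT μ π ((π ^ i) a) c) (e2 : (π ^ n) z = t)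
    (e1' : (π ^ m') z' = TT μ π ((π ^ i') a) c') (e2' : (π ^ n') z' = t')
    (hmn : m ≠ n) (hmn' : m' ≠ n') : i = i' := by
  obtain ⟨P, r1, l1, p1⟩ := path_word hf h e1 e2 hmn
  obtain ⟨Q, r2, l2, p2⟩ := path_word hf h' e1' e2' hmn'
  have h1 := act_uniq hf hg r1 r2 (by
    simp only [List.length_append, List.length_cons, List.length_replicate]
    omega) (p1.trans p2.symm)
  exact rep_none' h1

end Pool.Agent.K5.MW
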