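import Mathlib
import Pool.Agent.Work.MP_974d84_co_k5.MarkWd

/-!
# ROOM BG, E4: the prescribed bits
-/

set_option linter.unusedSectionVars false

namespace Pool.Agent.K5.MW

open Finset SimpleGraph Pool.Agent.Exp Pool.Agent.Log5 Pool.Agent.Log5.Clu Pool.Agent.K5
  Pool.Agent.K5.Wd Pool.Agent.K5.PW

variable {V : Type} [Fintype V] [DecidableEq V]

open Classical in
/-- The starts of the windows and the second ends of the marked circuit edges. -/
noncomputable def Ap (π : Equiv.Perm V) (A : Finset V) (p : V → V → ℝ) : Finset V :=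
  A ∪ univ.filter fun v => p (π.symm v) v ≠ 0

open Classical in
/-- The ends of the segments with a prescribed vertex. -/
noncomputable def Fxs (μ : V → V) (π : Equiv.Perm V) (J : ℕ) (A : Finset V) (p : V → V → ℝ)
    (σ : V → V → ℤ) : Finset V :=
  univ.filter fun z => ∃ u v t s, p u v ≠ 0 ∧ Pr μ π J σ u v t s ∧ ew π (Ap π A p) t = z

variable {G : SimpleGraph V} [DecidableRel G.Adj] {μ : V → V} {π : Equiv.Perm V}
  {p : V → V → ℝ} {A : Finset V}

theorem mem_Ap {v : V} : v ∈ Ap π A p ↔ v ∈ A ∨ p (π.symm v) v ≠ 0 := by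
  unfold Ap
  rw [mem_union, mem_filter]
  simp

theorem sub_Ap : A ⊆ Ap π A p := fun _ h => mem_Ap.2 (Or.inl h)

theorem mark_Ap {v : V} (h : p v (π v) ≠ 0) : π v ∈ Ap π A p :=
  mem_Ap.2 (Or.inr (by rwa [Equiv.symm_apply_apply]))

theorem mem_Fxs {J : ℕ} {σ : V → V → ℤ} {z : V} : z ∈ Fxs μ π J A p σ ↔
    ∃ u v t s, p u v ≠ 0 ∧ Pr μ π J σ u v t s ∧ ew π (Ap π A p) t = z := by
  classical
  unfold Fxs
  simp

theorem ap_free {J : ℕ} {σ : V → V → ℤ} : ∀ z ∈ Ap π A p, z ∉ Fxs μ π J A p σ → z ∈ A := by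
  intro z hz hF
  rcases mem_Ap.1 hz with h | h
  · exact h
  · exfalso
    apply hF
    refine mem_Fxs.2 ⟨π.symm z, z, π.symm z, σ (π.symm z) z, h, Or.inl ⟨rfl, rfl⟩, ?_⟩
    rw [ew_zero (by rwa [Equiv.apply_symm_apply]), Equiv.apply_symm_apply]

theorem pr_sign {J : ℕ} {σ : V → V → ℤ} {u v t : V} {s : ℤ} (hσ : σ u v = 1 ∨ σ u v = -1)
    (h : Pr μ π J σ u v t s) : s = 1 ∨ s = -1 := by
  rcases h with ⟨-, h⟩ | ⟨c, -, -, h⟩
  · rw [h]; exact hσ
  · rw [h]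
    split_ifs
    · exact hσ
    · rcases hσ with h' | h' <;> rw [h'] <;> simp

/-- Going back from the next start. -/
theorem back_ew {B : ℕ} {v : V} (h : fw π A v + 1 ≤ B) :
    (π ^ (B - (fw π A v + 1))) ((π ^ B).symm (ew π A v)) = v := by
  rw [ew_eq]
  have h2 : (π ^ B).symm = (π ^ (B - (fw π A v + 1))).symm * (π ^ (fw π A v + 1)).symm := by
    rw [← Equiv.Perm.inv_def, ← Equiv.Perm.inv_def, ← Equiv.Perm.inv_def, ← mul_inv_rev,
      ← pow_add]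
    congr 2
    omega
  rw [h2, Equiv.Perm.mul_apply, Equiv.symm_apply_apply, Equiv.apply_symm_apply]

/-- The prescriptions are consistent. -/
theorem exists_x0 (hf : Frame G μ π) {k D : ℕ} (hg : Gir G k) (hp : Marks G p)
    (hD : FarM G D p) {J B : ℕ} {σ : V → V → ℤ} (hσ : ∀ u v, σ u v = σ v u)
    (hσ1 : ∀ u v, p u v ≠ 0 → σ u v = 1 ∨ σ u v = -1)
    (hd : ∀ v, ∃ n < B, (π ^ n) v ∈ A) (hk : 2 * B + 4 * J + 12 < k)
    (hDL : 2 * B + 4 * J ≤ D) : ∃ x₀ : V → Bool, ∀ x : V → Bool,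
      (∀ z ∈ Fxs μ π J A p σ, x z = x₀ z) → ∀ u v t s, p u v ≠ 0 → Pr μ π J σ u v t s →
        yb π (Ap π A p) x t = s := by
  classical
  set A1 := Ap π A p with hA1
  have hd1 : ∀ v, ∃ n < B, (π ^ n) v ∈ A1 := fun v => by
    obtain ⟨n, h1, h2⟩ := hd v
    exact ⟨n, h1, sub_Ap h2⟩
  have hfw : ∀ v, fw π A1 v + 1 ≤ B := fun v => fw_lt (hd1 (π v))
  let Q : V → V × ℤ → Prop := fun z q =>
    (∃ u v, p u v ≠ 0 ∧ Pr μ π J σ u v q.1 q.2) ∧ ew π A1 q.1 = z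
  let x₀ : V → Bool := fun z =>
    if h : ∃ q, Q z q then decide ((-1 : ℤ) ^ fw π A1 h.choose.1 = h.choose.2) else true
  refine ⟨x₀, fun x hx u v t s hu h => ?_⟩
  have hex : ∃ q, Q (ew π A1 t) q := ⟨(t, s), ⟨u, v, hu, h⟩, rfl⟩
  have hxz : x (ew π A1 t) = x₀ (ew π A1 t) := hx _ (mem_Fxs.2 ⟨u, v, t, s, hu, h, rfl⟩)
  have hx0 : x₀ (ew π A1 t) = decide ((-1 : ℤ) ^ fw π A1 hex.choose.1 = hex.choose.2) := by
    simp only [x₀]
    rw [dif_pos hex]
  obtain ⟨⟨u', v', hu', h'⟩, he⟩ := hex.choose_spec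
  set t' := hex.choose.1
  set s' := hex.choose.2
  have b1 := back_ew (hfw t)
  have b2 := back_ew (hfw t')
  rw [he] at b2
  have hts : t = t' ∧ s = s' := by
    rcases pr_uniq hf hg hp hD hσ hk hDL (Nat.sub_le _ _) (Nat.sub_le _ _) hu hu' h h' b1 b2 with
      h1 | h1 | h1
    · exact ⟨h1.1, h1.2.1⟩
    · exfalso
      have h2 : ew π A1 t = π t := ew_zero (mark_Ap h1.2.2)
      have h3 : (π ^ (fw π A1 t' + 1)) t' = t' := by
        rw [← ew_eq, he, h2, ← h1.1]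
      exact pow_ne hf hg (Nat.succ_pos _) (by have := hfw t'; omega) _ h3
    · exfalso
      have h2 : ew π A1 t' = π t' := ew_zero (mark_Ap h1.2.2)
      have h3 : (π ^ (fw π A1 t + 1)) t = t := by
        rw [← ew_eq, ← he, h2, ← h1.1]
      exact pow_ne hf hg (Nat.succ_pos _) (by have := hfw t; omega) _ h3
  unfold yb
  rw [hxz, hx0, ← hts.1, ← hts.2]
  have hs := pr_sign (hσ1 u v hu) h
  rcases neg_one_pow_cases (fw π A1 t) with h5 | h5 <;> rcases hs with h6 | h6 <;>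
    rw [h5, h6] <;> simp [sgb]

/-- Few prescribed bits along a circuit. -/
theorem few_run (hf : Frame G μ π) {k D : ℕ} (hg : Gir G k) (hp : Marks G p)
    (hD : FarM G D p) {J B N L : ℕ} {σ : V → V → ℤ} (hσ : ∀ u v, σ u v = σ v u)
    (hd : ∀ v, ∃ n < B, (π ^ n) v ∈ A) (hL : (N + 1) * B ≤ L) (hk : 2 * L + 4 * J + 12 < k)
    (hDL : 2 * L + 4 * J ≤ D) (a : V)
    (hinj : ∀ i j, i ≤ N → j ≤ N → itw π (Ap π A p) i a = itw π (Ap π A p) j a → i = j) :
    ((range N).filter fun j => itw π (Ap π A p) j a ∈ Fxs μ π J A p σ).card ≤ 2 := by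
  classical
  set A1 := Ap π A p with hA1
  have hd1 : ∀ v, ∃ n < B, (π ^ n) v ∈ A1 := fun v => by
    obtain ⟨n, h1, h2⟩ := hd v
    exact ⟨n, h1, sub_Ap h2⟩
  have hfw : ∀ v, fw π A1 v + 1 ≤ B := fun v => fw_lt (hd1 (π v))
  obtain ⟨f, -, -, h3, h4⟩ := exists_times hd1 a
  have key : ∀ j, ∃ n, (j < N ∧ itw π A1 j a ∈ Fxs μ π J A p σ) → n ≤ L ∧
      (∃ u v s, p u v ≠ 0 ∧ Pr μ π J σ u v ((π ^ n) ((π ^ B).symm a)) s) ∧
      ew π A1 ((π ^ n) ((π ^ B).symm a)) = itw π A1 j a := by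
    intro j
    by_cases hj : j < N ∧ itw π A1 j a ∈ Fxs μ π J A p σ
    swap
    · exact ⟨0, fun h => absurd h hj⟩
    obtain ⟨hj, hF⟩ := hj
    obtain ⟨u, v, t, s, hu, h, he⟩ := mem_Fxs.1 hF
    have hft := hfw t
    have hn : (π ^ (B + f j - (fw π A1 t + 1))) ((π ^ B).symm a) = t := by
      apply (π ^ (fw π A1 t + 1)).injective
      rw [← Equiv.Perm.mul_apply, ← pow_add,
        show fw π A1 t + 1 + (B + f j - (fw π A1 t + 1)) = f j + B by omega, pow_add,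
        Equiv.Perm.mul_apply, Equiv.apply_symm_apply, ← h4 j, ← ew_eq]
      exact he.symm
    refine ⟨B + f j - (fw π A1 t + 1), fun _ => ⟨?_, ⟨u, v, s, hu, by rw [hn]; exact h⟩,
      by rw [hn]; exact he⟩⟩
    have h5 := h3 j
    have h6 : j * B ≤ N * B := Nat.mul_le_mul_right _ hj.le
    have h7 : (N + 1) * B = N * B + B := by ring
    omega
  choose g hg' using key
  refine (card_le_card_of_injOn (t := ((range N).filter fun j =>
    itw π A1 j a ∈ Fxs μ π J A p σ).image g) g (fun j hj => mem_coe.2 (mem_image_of_mem g hj))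
      ?_).trans ?_
  · intro i hi j hj hij
    rw [mem_coe, mem_filter, mem_range] at hi hj
    have h1 := (hg' i hi).2.2
    have h2 := (hg' j hj).2.2
    rw [← hij, h1] at h2
    exact hinj i j hi.1.le hj.1.le h2
  · refine arc_two hf hg hp hD hσ hk hDL ((π ^ B).symm a) _ ?_
    intro n hn
    rw [mem_image] at hn
    obtain ⟨j, hj, rfl⟩ := hn
    rw [mem_filter, mem_range] at hj
    exact ⟨(hg' j hj).1, (hg' j hj).2.1⟩

open Classical in
/-- The spoiled places of a window. -/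
noncomputable def Bdw (μ : V → V) (π : Equiv.Perm V) (J q : ℕ) (A : Finset V) (p : V → V → ℝ)
    (σ : V → V → ℤ) (a : V) : Finset ℕ :=
  (range (2 * q + 1)).filter fun i => ∃ c : List Bool, c.length < J ∧
    ew π (Ap π A p) (TT μ π ((π ^ i) a) c) ∈ Fxs μ π J A p σ

theorem bdw_free {J q : ℕ} {σ : V → V → ℤ} {a : V} : ∀ i ≤ 2 * q, i ∉ Bdw μ π J q A p σ a →
    ∀ c : List Bool, c.length < J →
      ew π (Ap π A p) (TT μ π ((π ^ i) a) c) ∉ Fxs μ π J A p σ := by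
  classical
  intro i hi hB c hc h
  apply hB
  unfold Bdw
  rw [mem_filter, mem_range]
  exact ⟨by omega, c, hc, h⟩

/-- At most two spoiled places in a window. -/
theorem few_win (hf : Frame G μ π) {k D : ℕ} (hg : Gir G k) (hD : FarM G D p) {J B R q : ℕ}
    {σ : V → V → ℤ} (hd : ∀ v, ∃ n < B, (π ^ n) v ∈ A) (hR : 2 * J + 1 ≤ R)
    (hk : 4 * q + 4 * B + 8 * J + 8 < k) (hDL : 4 * q + 4 * B + 8 * J + 2 ≤ D) {a : V}
    (hA : ∀ u ∈ ends p, Disjoint (zone G π R q a) (Bl G.Adj (2 * J + 4) u)) :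
    (Bdw μ π J q A p σ a).card ≤ 2 := by
  classical
  set A1 := Ap π A p with hA1
  have hd1 : ∀ v, ∃ n < B, (π ^ n) v ∈ A1 := fun v => by
    obtain ⟨n, h1, h2⟩ := hd v
    exact ⟨n, h1, sub_Ap h2⟩
  have hfw : ∀ v, fw π A1 v + 1 ≤ B := fun v => fw_lt (hd1 (π v))
  -- the data of a spoiled place
  have key : ∀ i, ∃ (c : List Bool) (u v t : V) (s : ℤ), i ∈ Bdw μ π J q A p σ a →
      i ≤ 2 * q ∧ c.length < J ∧ p u v ≠ 0 ∧ Pr μ π J σ u v t s ∧
      ew π A1 (TT μ π ((π ^ i) a) c) = ew π A1 t := by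
    intro i
    by_cases hi : i ∈ Bdw μ π J q A p σ a
    swap
    · exact ⟨[], a, a, a, 0, fun h => absurd h hi⟩
    have hi' := hi
    unfold Bdw at hi'
    rw [mem_filter, mem_range] at hi'
    obtain ⟨h1, c, hc, h2⟩ := hi'
    obtain ⟨u, v, t, s, hu, h, he⟩ := mem_Fxs.1 h2
    exact ⟨c, u, v, t, s, fun _ => ⟨by omega, hc, hu, h, he.symm⟩⟩
  choose c u v t s hkey using key
  -- the arcs
  have harc : ∀ i ∈ Bdw μ π J q A p σ a, ∃ (z : V) (m n : ℕ), m ≤ B ∧ n ≤ B ∧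
      (π ^ m) z = TT μ π ((π ^ i) a) (c i) ∧ (π ^ n) z = t i ∧ m ≠ n := by
    intro i hi
    obtain ⟨h1, h2, h3, h4, h5⟩ := hkey i hi
    have b1 := back_ew (hfw (TT μ π ((π ^ i) a) (c i)))
    have b2 := back_ew (hfw (t i))
    rw [h5] at b1
    refine ⟨_, _, _, Nat.sub_le _ _, Nat.sub_le _ _, b1, b2, ?_⟩
    intro hmn
    rw [hmn] at b1
    have h6 : TT μ π ((π ^ i) a) (c i) = t i := b1.symm.trans b2
    have h7 : u i ∈ ends p := by
      unfold ends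
      rw [mem_filter]
      exact ⟨mem_univ _, _, h3⟩
    refine Finset.disjoint_left.1 (hA (u i) h7) (TT_zone hf hR h1 h2) ?_
    rw [h6]
    exact Bl_mono (by omega) _ (pr_ball hf h4)
  -- the words
  have hword : ∀ i ∈ Bdw μ π J q A p σ a, ∃ w : List (Option Bool),
      w.length ≤ 2 * q + 2 * B + 4 * J + 1 ∧ act μ π w a = u i := by
    intro i hi
    obtain ⟨h1, h2, h3, h4, h5⟩ := hkey i hi
    obtain ⟨z, m, n, hm, hn, e1, e2, hmn⟩ := harc i hi
    obtain ⟨P, -, l1, p1⟩ := path_word hf h4 e1 e2 hmn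
    refine ⟨_, ?_, p1⟩
    simp only [List.length_append, List.length_cons, List.length_replicate]
    omega
  have hinj : Set.InjOn u (Bdw μ π J q A p σ a : Set ℕ) := by
    intro i hi j hj hij
    rw [mem_coe] at hi hj
    obtain ⟨h1, h2, h3, h4, h5⟩ := hkey i hi
    obtain ⟨h1', h2', h3', h4', h5'⟩ := hkey j hj
    obtain ⟨z, m, n, hm, hn, e1, e2, hmn⟩ := harc i hi
    obtain ⟨z', m', n', hm', hn', e1', e2', hmn'⟩ := harc j hj
    rw [← hij] at h4'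
    exact place_uniq hf hg hk h2 h2' h1 h1' hm hn hm' hn' h4 h4' e1 e2 e1' e2' hmn hmn'
  rcases (Bdw μ π J q A p σ a).eq_empty_or_nonempty with he | ⟨i₀, hi₀⟩
  · rw [he]
    simp
  obtain ⟨w₀, hl₀, hw₀⟩ := hword i₀ hi₀
  have h3₀ := (hkey i₀ hi₀).2.2.1
  have hmap : ∀ i ∈ Bdw μ π J q A p σ a, u i ∈ ({u i₀, v i₀} : Finset V) := by
    intro i hi
    obtain ⟨w, hl, hw⟩ := hword i hi
    have h1 : act μ π (w ++ winv w₀) (u i₀) = u i := by
      rw [act_append, ← hw₀, act_winv hf, hw]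
    have h2 : u i ∈ Bl G.Adj D (u i₀) := by
      rw [← h1]
      refine Bl_mono ?_ _ (act_mem_Bl hf _ _)
      rw [List.length_append, length_winv]
      omega
    rw [mem_insert, mem_singleton]
    rcases hD _ _ _ _ h3₀ (hkey i hi).2.2.1 h2 with h | h
    · exact Or.inl h.1
    · exact Or.inr h.1
  exact (card_le_card_of_injOn u hmap hinj).trans card_le_two

/-- The clauses of the marks. -/
theorem marks_ok (hf : Frame G μ π) (hp : Marks G p) {J : ℕ} {σ : V → V → ℤ}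
    (hσ : ∀ u v, σ u v = σ v u) {y : V → ℤ}
    (hy : ∀ u v t s, p u v ≠ 0 → Pr μ π J σ u v t s → y t = s) :
    (∀ v, p v (π v) ≠ 0 → y v = σ v (π v) ∧ y (π v) = σ v (π v) ∧
      Fav μ π J y (σ v (π v)) v ∧ Fav μ π J y (σ v (π v)) (π v)) ∧
    ∀ v, p v (μ v) ≠ 0 → Fav μ π J y (- σ v (μ v)) v := by
  constructor
  · intro v hv
    have hv' : p (π v) v ≠ 0 := by rw [hp.symm]; exact hv
    have n1 : π v ≠ μ v := (hf.mu_ne v).symm
    have n2 : v ≠ μ (π v) := by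
      intro h
      apply hf.mu_ne' (π v)
      rw [← h, Equiv.symm_apply_apply]
    refine ⟨hy _ _ _ _ hv (Or.inl ⟨rfl, rfl⟩), ?_, fun c hc => ?_, fun c hc => ?_⟩
    · rw [hy _ _ _ _ hv' (Or.inl ⟨rfl, rfl⟩), hσ]
    · exact hy _ _ _ _ hv (Or.inr ⟨c, hc, rfl, by rw [if_neg n1]⟩)
    · exact hy _ _ _ _ hv' (Or.inr ⟨c, hc, rfl, by rw [if_neg n2, hσ]⟩)
  · intro v hv c hc
    rw [neg_neg]
    exact hy _ _ _ _ hv (Or.inr ⟨c, hc, rfl, by rw [if_pos rfl]⟩)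

end Pool.Agent.K5.MW
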