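import Pool.Agent.Work.MP_974d84_co_k5.LsvT

/-! ROOM K5, theorem (BG), helper31: N4, the charges of the marks are carried by ordinary defects.

`T` is the set of all ordinary defects, `A ⊆ T` the candidates. The candidate `a` has a prescribed
fractional charge `t a * u a` (spread with the weight of the sign `- t a`). We select some of the
candidates, which get the sign `- t a`, such that the selected ones cancel the prescribed charges up
to the error `e`, and give balanced signs to all the other defects. -/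

open Finset

namespace Pool.Agent.K5.Lsv

/-- **N4, abstract form.** `g` is either `fun _ s => s` or a prescribed sign. -/
theorem marks_abs {V 𝒳 : Type*} [DecidableEq V] (T A : Finset V) (hA : A ⊆ T)
    (W : V → ℤ → 𝒳 → ℝ) (e : 𝒳 → ℝ) (he : ∀ X, 0 ≤ e X)
    (h : ∀ T' ⊆ T, Even T'.card → ∀ g : V → ℤ → ℤ, (∀ a s, (s = 1 ∨ s = -1) →
      (g a s = 1 ∨ g a s = -1)) → ∃ ε : V → ℤ, (∀ v, ε v = 1 ∨ ε v = -1) ∧
      ∑ a ∈ T', ε a = 0 ∧ ∀ X, |∑ a ∈ T', (ε a : ℝ) * W a (g a (ε a)) X| ≤ e X)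
    (t : V → ℤ) (ht : ∀ a, t a = 1 ∨ t a = -1)
    (u : V → ℝ) (hu : ∀ a ∈ A, 0 ≤ u a ∧ u a ≤ 1) (n : ℤ) (hn : ∑ a ∈ A, (t a : ℝ) * u a = n)
    (hpar : Even ((T.card : ℤ) + n)) :
    ∃ ε : V → ℤ, (∀ v, ε v = 1 ∨ ε v = -1) ∧ ∑ a ∈ T, ε a = -n ∧
      ∀ X, |∑ a ∈ T, (ε a : ℝ) * W a (ε a) X + ∑ a ∈ A, ((t a : ℝ) * u a) * W a (-t a) X| ≤
        2 * e X := by
  classical
  -- the rounding
  have hround := round_signed (ι := {a // a ∈ A}) (𝒳 := 𝒳) (fun i X => W i (-t i) X) e he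
    (fun T' hT' => by
      obtain ⟨ε, h1, h2, h3⟩ := h (T'.map (Function.Embedding.subtype _))
        (fun a ha => by
          rw [mem_map] at ha
          obtain ⟨i, -, hi⟩ := ha
          rw [← hi]
          exact hA i.2)
        (by rw [card_map]; exact hT') (fun a _ => -t a)
        (fun a s _ => by
          rcases ht a with h4 | h4
          · right; simp [h4]
          · left; simp [h4])
      refine ⟨fun i => ε i, fun i => h1 i, ?_, fun X => ?_⟩
      · rw [sum_map] at h2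
        exact h2
      · have h4 := h3 X
        rw [sum_map] at h4
        exact h4)
    (fun i => t i) (fun i => ht i) (fun i => u i) (fun i => hu i i.2) n
    (by
      rw [← hn, ← sum_attach A]
      rfl)
  obtain ⟨u₀, h1, h2, h3⟩ := hround
  set u' : V → ℤ := fun a => if ha : a ∈ A then u₀ ⟨a, ha⟩ else 0 with hu'
  have hu'A : ∀ i : {a // a ∈ A}, u' i = u₀ i := by
    intro i
    simp [hu']
  have hu01 : ∀ a, u' a = 0 ∨ u' a = 1 := by
    intro a
    by_cases ha : a ∈ A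
    · simp only [hu', ha, dif_pos]
      exact h1 _
    · left
      simp [hu', ha]
  have hsum : ∑ a ∈ A, t a * u' a = n := by
    rw [← h2, ← sum_attach A]
    refine sum_congr rfl fun i _ => ?_
    rw [hu'A i]
  have herr : ∀ X, |∑ a ∈ A, (t a : ℝ) * ((u' a : ℝ) - u a) * W a (-t a) X| ≤ e X := by
    intro X
    rw [← sum_attach A]
    refine le_trans (le_of_eq ?_) (h3 X)
    congr 1
    refine sum_congr rfl fun i _ => ?_
    rw [hu'A i]
  -- the selected defects
  set Sl : Finset V := A.filter fun a => u' a = 1 with hSl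
  have hSlT : Sl ⊆ T := (filter_subset _ _).trans hA
  have hfl : ∀ f : V → ℝ, ∑ a ∈ Sl, f a = ∑ a ∈ A, (u' a : ℝ) * f a := by
    intro f
    rw [hSl, sum_filter]
    refine sum_congr rfl fun a _ => ?_
    rcases hu01 a with h4 | h4 <;> simp [h4]
  have hflZ : ∀ f : V → ℤ, ∑ a ∈ Sl, f a = ∑ a ∈ A, u' a * f a := by
    intro f
    rw [hSl, sum_filter]
    refine sum_congr rfl fun a _ => ?_
    rcases hu01 a with h4 | h4 <;> simp [h4]
  have hpar' : Even (T \ Sl).card := by
    have h4 : (T \ Sl).card + Sl.card = T.card := card_sdiff_add_card_eq_card hSlT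
    have h5 : (Sl.card : ℤ) = ∑ a ∈ Sl, (1 : ℤ) := by simp
    have h6 : Even ((Sl.card : ℤ) - n) := by
      rw [h5, ← hsum, hflZ, ← sum_sub_distrib]
      refine even_sum _ fun a _ => ?_
      rcases ht a with h7 | h7
      · simp [h7]
      · rw [h7]
        exact ⟨u' a, by ring⟩
    have h7 : Even (((T \ Sl).card : ℤ)) := by
      have h8 : ((T \ Sl).card : ℤ) = ((T.card : ℤ) + n) - ((Sl.card : ℤ) - n) - 2 * n := by
        have h9 : (((T \ Sl).card : ℤ)) + (Sl.card : ℤ) = T.card := by exact_mod_cast h4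
        linarith
      rw [h8]
      exact (hpar.sub h6).sub ⟨n, by ring⟩
    exact_mod_cast h7
  obtain ⟨ε₀, h4, h5, h6⟩ := h (T \ Sl) sdiff_subset hpar' (fun _ s => s) (fun _ s hs => hs)
  refine ⟨fun a => if a ∈ Sl then -t a else ε₀ a, fun v => ?_, ?_, fun X => ?_⟩
  · by_cases hv : v ∈ Sl
    · simp only [hv, if_true]
      rcases ht v with h7 | h7
      · right; simp [h7]
      · left; simp [h7]
    · simp only [hv, if_false]
      exact h4 v
  · rw [← sum_sdiff hSlT]
    have h7 : ∑ x ∈ T \ Sl, (if x ∈ Sl then -t x else ε₀ x) = ∑ x ∈ T \ Sl, ε₀ x :=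
      sum_congr rfl fun a ha => by
        rw [if_neg (mem_sdiff.1 ha).2]
    have h8 : ∑ x ∈ Sl, (if x ∈ Sl then -t x else ε₀ x) = ∑ x ∈ Sl, -t x :=
      sum_congr rfl fun a ha => by
        rw [if_pos ha]
    rw [h7, h8, h5, zero_add, hflZ, ← hsum, ← sum_neg_distrib]
    exact sum_congr rfl fun a _ => by ring
  · rw [← sum_sdiff hSlT]
    have h7 : ∑ x ∈ T \ Sl, (((if x ∈ Sl then -t x else ε₀ x : ℤ)) : ℝ) *
        W x (if x ∈ Sl then -t x else ε₀ x) X = ∑ x ∈ T \ Sl, (ε₀ x : ℝ) * W x (ε₀ x) X :=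
      sum_congr rfl fun a ha => by
        rw [if_neg (mem_sdiff.1 ha).2]
    have h8 : ∑ x ∈ Sl, (((if x ∈ Sl then -t x else ε₀ x : ℤ)) : ℝ) *
        W x (if x ∈ Sl then -t x else ε₀ x) X = ∑ x ∈ Sl, ((-t x : ℤ) : ℝ) * W x (-t x) X :=
      sum_congr rfl fun a ha => by
        rw [if_pos ha]
    have h9 : ∑ x ∈ Sl, ((-t x : ℤ) : ℝ) * W x (-t x) X =
        -∑ a ∈ A, (t a : ℝ) * ((u' a : ℝ) - u a) * W a (-t a) X -
          ∑ a ∈ A, ((t a : ℝ) * u a) * W a (-t a) X := by
      rw [hfl, ← sum_neg_distrib, ← sum_sub_distrib]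
      refine sum_congr rfl fun a _ => ?_
      push_cast
      ring
    have h10 : ∑ x ∈ T \ Sl, (((if x ∈ Sl then -t x else ε₀ x : ℤ)) : ℝ) *
        W x (if x ∈ Sl then -t x else ε₀ x) X + ∑ x ∈ Sl, (((if x ∈ Sl then -t x else ε₀ x : ℤ)) :
          ℝ) * W x (if x ∈ Sl then -t x else ε₀ x) X +
        ∑ a ∈ A, ((t a : ℝ) * u a) * W a (-t a) X =
        ∑ x ∈ T \ Sl, (ε₀ x : ℝ) * W x (ε₀ x) X -
          ∑ a ∈ A, (t a : ℝ) * ((u' a : ℝ) - u a) * W a (-t a) X := by
      rw [h7, h8, h9]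
      ring
    have h11 := h6 X
    have h12 := herr X
    refine le_trans (le_of_eq (congrArg _ h10)) ?_
    rw [abs_le] at h11 h12 ⊢
    constructor <;> linarith [h11.1, h11.2, h12.1, h12.2]

end Pool.Agent.K5.Lsv
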