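import Pool.Agent.Work.MP_974d84_co_k5.MarksAbs
import Pool.Agent.Work.MP_974d84_co_k5.SignsG

/-! ROOM K5, theorem (BG), helper31: N4 on top of `signs_g`. The fractional charges `t a * u a` of
the candidates `a ∈ A ⊆ T` (spread by `w a (-t a)`) and the signs `ε` of all ordinary defects
(spread by `w a (ε a)`) cancel up to `b * dd G X` in every region. -/

open Finset

namespace Pool.Agent.K5

open Finset SimpleGraph Pool.Agent.Exp Pool.Agent.Log5 Pool.Agent.Log5.Clu Pool.Agent.Iso5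
  Pool.Agent.Work.MP_314beb_co

/-- **N4.** -/
theorem marks_g {b : ℝ} (hb : 0 < b) : ∃ (j₁ h : ℕ) (C₀ : ℝ), 0 < h ∧ ∀ C, C₀ ≤ C →
    ∃ k₀ N₀ : ℕ, ∀ N k κ : ℕ, ∀ δ : ℝ, N₀ ≤ N → k₀ ≤ k →
    ∀ {V : Type} [Fintype V] [DecidableEq V]
    (G : SimpleGraph V) [DecidableRel G.Adj], (∀ v, G.degree v = 3) →
    (∀ A : Finset V, A.Nonempty → Aᶜ.Nonempty → 1 ≤ dd G A) → Gir G k →
    ∀ {r : ℕ} (S : Fin r → Finset V), Cores G C S → FactsG G C N k κ δ S →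
    ∀ T A : Finset V, A ⊆ T → ∀ (t : V → ℤ) (u : V → ℝ) (n : ℤ),
    (∀ a, t a = 1 ∨ t a = -1) → (∀ a ∈ A, 0 ≤ u a ∧ u a ≤ 1) →
    ∑ a ∈ A, (t a : ℝ) * u a = n → Even ((T.card : ℤ) + n) →
    ∀ (U : V → Finset V) (w : V → ℤ → V → ℝ),
    (∀ a ∈ T, Bl G.Adj j₁ a ⊆ U a) → (∀ a ∈ T, ∀ a' ∈ T, a ≠ a' → Disjoint (U a) (U a')) →
    (∀ a s v, 0 ≤ w a s v) → (∀ a s v, w a s v ≤ 1 / 2 ^ j₁) →
    (∀ a ∈ T, ∀ s, (s = 1 ∨ s = -1) → (∀ v, w a s v ≠ 0 → v ∈ U a) ∧ ∑ v, w a s v = 1) →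
    (∀ k₁, k₀ ≤ k₁ → k₁ ≤ k →
      (∀ Z, RF G S Z → k₁ ≤ dd G Z → h * (T.filter fun a => Cuts (U a) Z).card ≤ dd G Z) →
      ∃ ε : V → ℤ, (∀ v, ε v = 1 ∨ ε v = -1) ∧ ∑ a ∈ T, ε a = -n ∧
        ∀ R, Region S R → ∀ X ⊆ R,
          |∑ a ∈ T, (ε a : ℝ) * ∑ v ∈ X, w a (ε a) v +
            ∑ a ∈ A, ((t a : ℝ) * u a) * ∑ v ∈ X, w a (-t a) v| ≤ b * dd G X) := by
  classical
  obtain ⟨j₁, h, C₀, hh, hC⟩ := signs_g (b := b / 2) (by positivity)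
  refine ⟨j₁, h, C₀, hh, fun C hCC => ?_⟩
  obtain ⟨k₀, N₀, hk⟩ := hC C hCC
  refine ⟨k₀, N₀, ?_⟩
  intro N k κ δ hN hkk V _ _ G _ h3 hdd hgir r S hS hF T A hA t u n ht hu hn hpar U w hU hUd hw0
    hw1 hw k₁ hk₁ hk₁k hthin
  obtain ⟨ε, h1, h2, h4⟩ := Lsv.marks_abs T A hA (𝒳 := {X : Finset V // ∃ R, Region S R ∧ X ⊆ R})
    (fun a s X => ∑ v ∈ X.1, w a s v) (fun X => b / 2 * dd G X.1) (fun X => by positivity)
    (fun T' hT' hev g hg => by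
      obtain ⟨ε, h1, h2, h4⟩ := hk N k κ δ hN hkk G h3 hdd hgir S hS hF T' hev U
        (fun a s => w a (g a s)) (fun a ha => hU a (hT' ha))
        (fun a ha a' ha' hne => hUd a (hT' ha) a' (hT' ha') hne) (fun a s v => hw0 _ _ _)
        (fun a s v => hw1 _ _ _) (fun a ha s hs => hw a (hT' ha) _ (hg a s hs)) k₁ hk₁ hk₁k
        (fun Z hZ hZk => le_trans (Nat.mul_le_mul_left _ (card_le_card
          (filter_subset_filter _ hT'))) (hthin Z hZ hZk))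
      exact ⟨ε, h1, h2, fun X => by
        obtain ⟨R, hR, hXR⟩ := X.2
        exact h4 R hR X.1 hXR⟩) t ht u hu n hn hpar
  refine ⟨ε, h1, h2, fun R hR X hX => ?_⟩
  have h5 := h4 ⟨X, R, hR, hX⟩
  have h6 : 2 * (b / 2 * (dd G X : ℝ)) = b * dd G X := by ring
  rw [← h6]
  exact h5

end Pool.Agent.K5
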