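import Mathlib
import Pool.Agent.Work.MP_974d84_co_k5.DefsM

/-!
# The number of flows of a multigraph which vanish outside a set of edges
-/

set_option linter.unusedSectionVars false

namespace Pool.Agent.K5.Mat

open Finset

variable {ι : Type} [Fintype ι] [DecidableEq ι] {W : Type} [Fintype W] [DecidableEq W]

/-- Two vertices are connected by edges in `Y`. -/
def cn (s t : ι → W) (Y : Finset ι) : Setoid W :=
  Relation.EqvGen.setoid fun a b => ∃ j ∈ Y, a = s j ∧ b = t j

/-- The number of components of the multigraph with the edges `Y`. -/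
noncomputable def nc (s t : ι → W) (Y : Finset ι) : ℕ := Nat.card (Quotient (cn s t Y))

theorem cn_edge (s t : ι → W) {Y : Finset ι} {j : ι} (hj : j ∈ Y) : (cn s t Y).r (s j) (t j) :=
  Relation.EqvGen.rel _ _ ⟨j, hj, rfl, rfl⟩

/-- The boundary of a function on the edges in `Y`. -/
def bdry (F : Type) [AddCommGroup F] (s t : ι → W) (Y : Finset ι) :
    ({j // j ∈ Y} → F) →+ (W → F) where
  toFun f := fun w => (∑ j, if s j.1 = w then f j else 0) - ∑ j, if t j.1 = w then f j else 0
  map_zero' := by
    funext w
    simp
  map_add' f g := by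
    funext w
    simp only [Pi.add_apply, ite_add_zero, sum_add_distrib]
    abel

/-- The sums over the components. -/
noncomputable def csum (F : Type) [AddCommGroup F] (s t : ι → W) (Y : Finset ι) :
    (W → F) →+ (Quotient (cn s t Y) → F) :=
  letI : DecidableEq (Quotient (cn s t Y)) := Classical.decEq _
  { toFun := fun g q => ∑ w, if Quotient.mk _ w = q then g w else 0
    map_zero' := by
      funext q
      simp
    map_add' := fun f g => by
      funext q
      simp only [Pi.add_apply, ite_add_zero, sum_add_distrib] }

section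

variable {F : Type} [AddCommGroup F] {s t : ι → W} {Y : Finset ι}

theorem bdry_apply (f : {j // j ∈ Y} → F) (w : W) : bdry F s t Y f w =
    (∑ j, if s j.1 = w then f j else 0) - ∑ j, if t j.1 = w then f j else 0 := rfl

theorem csum_apply [DecidableEq (Quotient (cn s t Y))] (g : W → F) (q : Quotient (cn s t Y)) :
    csum F s t Y g q = ∑ w, if Quotient.mk _ w = q then g w else 0 := by
  unfold csum
  simp only [AddMonoidHom.coe_mk, ZeroHom.coe_mk]
  refine sum_congr rfl fun w _ => ?_
  split_ifs <;> rfl

theorem bdry_single (j : {j // j ∈ Y}) (x : F) :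
    bdry F s t Y (Pi.single j x) = Pi.single (s j.1) x - Pi.single (t j.1) x := by
  funext w
  rw [bdry_apply, Pi.sub_apply, Pi.single_apply, Pi.single_apply]
  congr 1
  · rw [sum_eq_single j (fun i _ hi => by rw [Pi.single_eq_of_ne hi, ite_self])
      (fun h => absurd (mem_univ _) h), Pi.single_eq_same]
    by_cases h : s j.1 = w
    · rw [if_pos h, if_pos h.symm]
    · rw [if_neg h, if_neg fun h' => h h'.symm]
  · rw [sum_eq_single j (fun i _ hi => by rw [Pi.single_eq_of_ne hi, ite_self])
      (fun h => absurd (mem_univ _) h), Pi.single_eq_same]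
    by_cases h : t j.1 = w
    · rw [if_pos h, if_pos h.symm]
    · rw [if_neg h, if_neg fun h' => h h'.symm]

theorem single_sub_mem {a b : W} (h : (cn s t Y).r a b) (x : F) :
    Pi.single a x - Pi.single b x ∈ (bdry F s t Y).range := by
  have key : ∀ a b, Relation.EqvGen (fun a b => ∃ j ∈ Y, a = s j ∧ b = t j) a b →
      Pi.single a x - Pi.single b x ∈ (bdry F s t Y).range := by
    intro a b h
    induction h with
    | rel a b h =>
      obtain ⟨j, hj, rfl, rfl⟩ := h
      exact ⟨Pi.single ⟨j, hj⟩ x, bdry_single ⟨j, hj⟩ x⟩
    | refl a => rw [sub_self]; exact zero_mem _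
    | symm a b _ ih =>
      rw [← neg_sub]
      exact neg_mem ih
    | trans a b c _ _ ih1 ih2 =>
      rw [← sub_add_sub_cancel _ (Pi.single b x)]
      exact add_mem ih1 ih2
  exact key a b h

/-- The boundaries are the functions whose sums over the components are zero. -/
theorem range_bdry : (bdry F s t Y).range = (csum F s t Y).ker := by
  classical
  ext g
  constructor
  · rintro ⟨f, rfl⟩
    rw [AddMonoidHom.mem_ker]
    funext q
    rw [csum_apply, Pi.zero_apply]
    simp only [bdry_apply]
    have h1 : ∀ w, (if Quotient.mk (cn s t Y) w = q then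
        ((∑ j : {j // j ∈ Y}, if s j.1 = w then f j else 0) -
          ∑ j : {j // j ∈ Y}, if t j.1 = w then f j else 0) else 0) =
        (∑ j : {j // j ∈ Y}, if s j.1 = w then (if Quotient.mk (cn s t Y) w = q then f j else 0)
          else 0) - ∑ j : {j // j ∈ Y}, if t j.1 = w then
          (if Quotient.mk (cn s t Y) w = q then f j else 0) else 0 := by
      intro w
      by_cases h : Quotient.mk (cn s t Y) w = q
      · rw [if_pos h]
        simp only [if_pos h]
      · rw [if_neg h]
        simp only [if_neg h, ite_self, sum_const_zero, sub_self]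
    rw [sum_congr rfl fun w _ => h1 w, sum_sub_distrib, sum_comm, sum_comm (s := univ) (t := univ)
      (f := fun w (j : {j // j ∈ Y}) => if t j.1 = w then
        (if Quotient.mk (cn s t Y) w = q then f j else 0) else 0), ← sum_sub_distrib]
    refine sum_eq_zero fun j _ => ?_
    rw [sum_ite_eq, sum_ite_eq, if_pos (mem_univ _), if_pos (mem_univ _)]
    have h2 : Quotient.mk (cn s t Y) (s j.1) = Quotient.mk (cn s t Y) (t j.1) :=
      Quotient.sound (cn_edge s t j.2)
    rw [h2, sub_self]
  · intro hg
    rw [AddMonoidHom.mem_ker] at hg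
    have h1 : g = ∑ w, (Pi.single w (g w) - Pi.single (Quotient.mk (cn s t Y) w).out (g w)) +
        ∑ w, Pi.single (Quotient.mk (cn s t Y) w).out (g w) := by
      rw [sum_sub_distrib, sub_add_cancel]
      exact (Finset.univ_sum_single g).symm
    have h2 : ∑ w, (Pi.single (Quotient.mk (cn s t Y) w).out (g w) : W → F) = 0 := by
      funext v
      rw [Finset.sum_apply, Pi.zero_apply]
      have h3 := congrFun hg (Quotient.mk (cn s t Y) v)
      rw [csum_apply, Pi.zero_apply] at h3
      by_cases hv : (Quotient.mk (cn s t Y) v).out = v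
      · rw [← h3]
        refine sum_congr rfl fun w _ => ?_
        rw [Pi.single_apply]
        by_cases h : Quotient.mk (cn s t Y) w = Quotient.mk (cn s t Y) v
        · rw [if_pos h, if_pos (by rw [h, hv])]
        · rw [if_neg h, if_neg]
          intro h'
          apply h
          rw [h', Quotient.out_eq]
      · refine sum_eq_zero fun w _ => ?_
        rw [Pi.single_apply, if_neg]
        intro h'
        apply hv
        have h4 : Quotient.mk (cn s t Y) v = Quotient.mk (cn s t Y) w := by
          rw [h', Quotient.out_eq]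
        rw [h4, ← h']
    rw [h1, h2, add_zero]
    refine sum_mem fun w _ => single_sub_mem ?_ _
    exact (cn s t Y).symm (Quotient.exact (Quotient.out_eq _))

theorem csum_surj : Function.Surjective (csum F s t Y) := by
  classical
  intro h
  refine ⟨fun w => if (Quotient.mk (cn s t Y) w).out = w then h (Quotient.mk _ w) else 0, ?_⟩
  funext q
  rw [csum_apply, sum_eq_single q.out]
  · rw [Quotient.out_eq, if_pos rfl, if_pos rfl]
  · intro w _ hw
    by_cases h1 : Quotient.mk (cn s t Y) w = q
    · rw [if_pos h1, h1, if_neg hw.symm]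
    · rw [if_neg h1]
  · exact fun h => absurd (mem_univ _) h

/-- **The number of flows**, first form. -/
theorem card_ker [Finite F] : Nat.card (bdry F s t Y).ker * Nat.card F ^ Fintype.card W =
    Nat.card F ^ (Y.card + nc s t Y) := by
  classical
  have : Finite (Quotient (cn s t Y)) := Quotient.finite _
  have h1 : Nat.card ({j // j ∈ Y} → F) =
      Nat.card (bdry F s t Y).range * Nat.card (bdry F s t Y).ker := by
    rw [AddSubgroup.card_eq_card_quotient_mul_card_addSubgroup (bdry F s t Y).ker]
    congr 1
    exact Nat.card_congr (QuotientAddGroup.quotientKerEquivRange (bdry F s t Y)).toEquiv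
  have h2 : Nat.card (W → F) =
      Nat.card (csum F s t Y).range * Nat.card (csum F s t Y).ker := by
    rw [AddSubgroup.card_eq_card_quotient_mul_card_addSubgroup (csum F s t Y).ker]
    congr 1
    exact Nat.card_congr (QuotientAddGroup.quotientKerEquivRange (csum F s t Y)).toEquiv
  have h3 : Nat.card (csum F s t Y).range = Nat.card F ^ nc s t Y := by
    rw [AddMonoidHom.range_eq_top.2 csum_surj, AddSubgroup.card_top, Nat.card_fun]
    rfl
  rw [Nat.card_fun, Nat.card_eq_fintype_card (α := {j // j ∈ Y}), Fintype.card_coe] at h1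
  rw [Nat.card_fun, Nat.card_eq_fintype_card (α := W), h3, ← range_bdry] at h2
  rw [h2, pow_add, h1]
  ring

end

/-- The flows which vanish outside `Y`. -/
noncomputable def floEquiv (F : Type) [AddCommGroup F] (s t : ι → W) (Y : Finset ι) :
    {f : ι → F | Flo s t f ∧ ∀ j, j ∉ Y → f j = 0} ≃ (bdry F s t Y).ker where
  toFun f := ⟨fun j => f.1 j.1, by
    rw [AddMonoidHom.mem_ker]
    funext w
    rw [bdry_apply, Pi.zero_apply, sub_eq_zero]
    have h1 := f.2.1 w
    rw [sum_filter, sum_filter] at h1
    have key : ∀ g : ι → W, (∑ j, if g j = w then f.1 j else 0) =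
        ∑ j : {j // j ∈ Y}, if g j.1 = w then f.1 j.1 else 0 := by
      intro g
      rw [Finset.sum_coe_sort Y (fun j => if g j = w then f.1 j else 0)]
      symm
      refine sum_subset (subset_univ _) fun j _ hj => ?_
      rw [f.2.2 j hj, ite_self]
    rw [key, key] at h1
    exact h1⟩
  invFun f := ⟨fun j => if h : j ∈ Y then f.1 ⟨j, h⟩ else 0, by
    refine ⟨fun w => ?_, fun j hj => dif_neg hj⟩
    have h1 := congrFun (AddMonoidHom.mem_ker.1 f.2) w
    rw [bdry_apply, Pi.zero_apply, sub_eq_zero] at h1
    rw [sum_filter, sum_filter]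
    have key : ∀ g : ι → W,
        (∑ j, if g j = w then (if h : j ∈ Y then f.1 ⟨j, h⟩ else 0) else 0) =
        ∑ j : {j // j ∈ Y}, if g j.1 = w then f.1 j else 0 := by
      intro g
      rw [← sum_subset (subset_univ Y) fun j _ hj => by rw [dif_neg hj, ite_self],
        ← Finset.sum_coe_sort Y (fun j => if g j = w then
          (if h : j ∈ Y then f.1 ⟨j, h⟩ else 0) else 0)]
      refine sum_congr rfl fun j _ => ?_
      rw [dif_pos j.2]
    rw [key, key]
    exact h1⟩
  left_inv f := by
    apply Subtype.ext
    funext j
    by_cases h : j ∈ Y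
    · simp only [dif_pos h]
    · simp only [dif_neg h]
      exact (f.2.2 j h).symm
  right_inv f := by
    apply Subtype.ext
    funext j
    simp only [dif_pos j.2]

/-- **The number of flows which vanish outside `Y`.** -/
theorem card_flo {F : Type} [AddCommGroup F] [Finite F] (s t : ι → W) (Y : Finset ι) :
    {f : ι → F | Flo s t f ∧ ∀ j, j ∉ Y → f j = 0}.ncard * Nat.card F ^ Fintype.card W =
    Nat.card F ^ (Y.card + nc s t Y) := by
  rw [← card_ker (F := F) (s := s) (t := t) (Y := Y)]
  congr 1
  exact Nat.card_congr (floEquiv F s t Y)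

end Pool.Agent.K5.Mat
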