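import Mathlib
import Pool.Agent.Work.MP_974d84_co_k5.MatFlow

/-!
# The characteristic polynomial of a cographic matroid counts nowhere-zero flows
-/

set_option linter.unusedSectionVars false

namespace Pool.Agent.K5.Mat

open Finset

variable {ι : Type} [Fintype ι] [DecidableEq ι] {W : Type} [Fintype W] [DecidableEq W]

/-- The functions which are constant along the edges in `Y`. -/
def lc (s t : ι → W) (Y : Finset ι) : AddSubgroup (W → ZMod 2) where
  carrier := {S | ∀ j ∈ Y, S (s j) = S (t j)}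
  zero_mem' := fun _ _ => rfl
  add_mem' := fun {a b} ha hb j hj => by
    show a (s j) + b (s j) = a (t j) + b (t j)
    rw [ha j hj, hb j hj]
  neg_mem' := fun {a} ha j hj => by
    show - a (s j) = - a (t j)
    rw [ha j hj]

theorem mem_lc {s t : ι → W} {Y : Finset ι} {S : W → ZMod 2} :
    S ∈ lc s t Y ↔ ∀ j ∈ Y, S (s j) = S (t j) := Iff.rfl

/-- The functions which are constant along the edges are the functions on the components. -/
noncomputable def lcEquiv (s t : ι → W) (Y : Finset ι) :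
    lc s t Y ≃ (Quotient (cn s t Y) → ZMod 2) where
  toFun S := Quotient.lift S.1 fun a b h => by
    have key : ∀ a b, Relation.EqvGen (fun a b => ∃ j ∈ Y, a = s j ∧ b = t j) a b →
        S.1 a = S.1 b := by
      intro a b h
      induction h with
      | rel a b h =>
        obtain ⟨j, hj, rfl, rfl⟩ := h
        exact S.2 j hj
      | refl a => rfl
      | symm a b _ ih => exact ih.symm
      | trans a b c _ _ ih1 ih2 => exact ih1.trans ih2
    exact key a b h
  invFun T := ⟨fun w => T (Quotient.mk _ w), fun j hj =>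
    congrArg T (Quotient.sound (cn_edge s t hj))⟩
  left_inv S := by
    apply Subtype.ext
    funext w
    rfl
  right_inv T := by
    funext q
    induction q using Quotient.inductionOn with
    | _ w => rfl

theorem card_lc (s t : ι → W) (Y : Finset ι) : Nat.card (lc s t Y) = 2 ^ nc s t Y := by
  have : Finite (Quotient (cn s t Y)) := Quotient.finite _
  rw [Nat.card_congr (lcEquiv s t Y), Nat.card_fun, Nat.card_zmod]
  rfl

/-- The combinations of the vectors in `X`. -/
def comb {m : ℕ} (A : ι → Fin m → ZMod 2) (X : Finset ι) :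
    ({j // j ∈ X} → ZMod 2) →ₗ[ZMod 2] (Fin m → ZMod 2) :=
  Fintype.linearCombination (ZMod 2) fun j : {j // j ∈ X} => A j.1

theorem comb_apply {m : ℕ} (A : ι → Fin m → ZMod 2) (X : Finset ι)
    (c : {j // j ∈ X} → ZMod 2) : comb A X c = ∑ j, c j • A j.1 :=
  Fintype.linearCombination_apply _ _ _

theorem range_comb {m : ℕ} (A : ι → Fin m → ZMod 2) (X : Finset ι) :
    LinearMap.range (comb A X) = Submodule.span (ZMod 2) (A '' (X : Set ι)) := by
  unfold comb
  rw [Fintype.range_linearCombination]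
  congr 1
  ext v
  constructor
  · rintro ⟨j, rfl⟩
    exact ⟨j.1, mem_coe.2 j.2, rfl⟩
  · rintro ⟨j, hj, rfl⟩
    exact ⟨⟨j, mem_coe.1 hj⟩, rfl⟩

theorem card_ker_comb {m : ℕ} (A : ι → Fin m → ZMod 2) (X : Finset ι) :
    Nat.card (LinearMap.ker (comb A X)) * 2 ^ rk A (X : Set ι) = 2 ^ X.card := by
  have h1 := LinearMap.finrank_range_add_finrank_ker (comb A X)
  rw [range_comb, Module.finrank_fintype_fun_eq_card, Fintype.card_coe] at h1
  have h2 : Nat.card (LinearMap.ker (comb A X)) =
      2 ^ Module.finrank (ZMod 2) (LinearMap.ker (comb A X)) := by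
    have := Module.natCard_eq_pow_finrank (K := ZMod 2) (V := LinearMap.ker (comb A X))
    rwa [Nat.card_zmod] at this
  rw [h2, ← pow_add, ← h1, add_comm]
  rfl

/-- From functions on the vertices to linear dependencies. -/
def cutMap (s t : ι → W) (X : Finset ι) : (lc s t Xᶜ) →+ ({j // j ∈ X} → ZMod 2) where
  toFun S := fun j => S.1 (s j.1) + S.1 (t j.1)
  map_zero' := by
    funext j
    simp
  map_add' S T := by
    funext j
    show (S.1 (s j.1) + T.1 (s j.1)) + (S.1 (t j.1) + T.1 (t j.1)) = _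
    simp only [Pi.add_apply]
    abel

theorem z2 {a b : ZMod 2} : a + b = 0 ↔ a = b := by
  revert a b
  decide

/-- The sum of a function which vanishes outside `X`. -/
theorem sum_ext {m : ℕ} (A : ι → Fin m → ZMod 2) (X : Finset ι) (c : ι → ZMod 2)
    (hc : ∀ j, j ∉ X → c j = 0) : ∑ j, c j • A j = comb A X fun j => c j.1 := by
  rw [comb_apply, Finset.sum_coe_sort X (fun j => c j • A j)]
  symm
  refine sum_subset (subset_univ _) fun j _ hj => ?_
  rw [hc j hj, zero_smul]

theorem range_cutMap {m : ℕ} {A : ι → Fin m → ZMod 2} {s t : ι → W} (h : Cog A s t)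
    (X : Finset ι) : ((cutMap s t X).range : Set ({j // j ∈ X} → ZMod 2)) =
      (LinearMap.ker (comb A X) : Set ({j // j ∈ X} → ZMod 2)) := by
  ext c
  simp only [SetLike.mem_coe]
  constructor
  · rintro ⟨S, rfl⟩
    rw [LinearMap.mem_ker]
    have h1 := (h fun j => S.1 (s j) + S.1 (t j)).2 ⟨S.1, fun _ => rfl⟩
    rw [sum_ext A X _ fun j hj => z2.2 (S.2 j (mem_compl.2 hj))] at h1
    exact h1
  · intro hc
    rw [LinearMap.mem_ker] at hc
    have h1 := (h fun j => if h : j ∈ X then c ⟨j, h⟩ else 0).1 (by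
      rw [sum_ext A X _ fun j hj => dif_neg hj, ← hc]
      congr 1
      funext j
      rw [dif_pos j.2])
    obtain ⟨S, hS⟩ := h1
    refine ⟨⟨S, fun j hj => ?_⟩, ?_⟩
    · have h2 := hS j
      rw [dif_neg (mem_compl.1 hj)] at h2
      exact z2.1 h2.symm
    · funext j
      have h2 := hS j.1
      rw [dif_pos j.2] at h2
      exact h2.symm

theorem card_ker_cutMap (s t : ι → W) (X : Finset ι) :
    Nat.card (cutMap s t X).ker = Nat.card (lc s t univ) := by
  refine Nat.card_congr ⟨fun S => ⟨S.1.1, fun j _ => ?_⟩, fun S => ⟨⟨S.1, fun j _ => S.2 j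
    (mem_univ _)⟩, ?_⟩, fun S => ?_, fun S => ?_⟩
  · by_cases hj : j ∈ X
    · exact z2.1 (congrFun (AddMonoidHom.mem_ker.1 S.2) ⟨j, hj⟩)
    · exact S.1.2 j (mem_compl.2 hj)
  · rw [AddMonoidHom.mem_ker]
    funext j
    exact z2.2 (S.2 j.1 (mem_univ _))
  · rfl
  · rfl

/-- **The rank of a set of elements of a cographic matroid.** -/
theorem rk_eq {m : ℕ} {A : ι → Fin m → ZMod 2} {s t : ι → W} (h : Cog A s t) (X : Finset ι) :
    rk A (X : Set ι) + nc s t Xᶜ = X.card + nc s t univ := by
  have h1 : Nat.card (lc s t Xᶜ) =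
      Nat.card (cutMap s t X).range * Nat.card (cutMap s t X).ker := by
    rw [AddSubgroup.card_eq_card_quotient_mul_card_addSubgroup (cutMap s t X).ker]
    congr 1
    exact Nat.card_congr (QuotientAddGroup.quotientKerEquivRange (cutMap s t X)).toEquiv
  have h2 : Nat.card (cutMap s t X).range = Nat.card (LinearMap.ker (comb A X)) :=
    Nat.card_congr (Equiv.setCongr (range_cutMap h X))
  rw [card_lc, h2, card_ker_cutMap, card_lc] at h1
  have h3 := card_ker_comb A X
  have h4 : 2 ^ (rk A (X : Set ι) + nc s t Xᶜ) = 2 ^ (X.card + nc s t univ) := by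
    rw [pow_add, pow_add, h1, ← h3]
    ring
  exact Nat.pow_right_injective le_rfl h4

theorem nc_empty (s t : ι → W) : nc s t ∅ = Fintype.card W := by
  have h1 := card_lc s t ∅
  have h2 : Nat.card (lc s t ∅) = 2 ^ Fintype.card W := by
    have h3 : lc s t ∅ = ⊤ := by
      ext S
      simp [mem_lc]
    rw [h3, AddSubgroup.card_top, Nat.card_fun, Nat.card_zmod, Nat.card_eq_fintype_card]
  rw [h1] at h2
  exact Nat.pow_right_injective le_rfl h2

/-- **The number of flows which vanish on `X`.** -/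
theorem card_flo_rk {m : ℕ} {A : ι → Fin m → ZMod 2} {s t : ι → W} (h : Cog A s t) {k : ℕ}
    (hk : 0 < k) (X : Finset ι) : {f : ι → ZMod k | Flo s t f ∧ ∀ j ∈ X, f j = 0}.ncard =
      k ^ (rk A Set.univ - rk A (X : Set ι)) := by
  have : NeZero k := ⟨hk.ne'⟩
  have h1 := card_flo (F := ZMod k) s t Xᶜ
  rw [Nat.card_zmod] at h1
  have h2 := rk_eq h X
  have h3 := rk_eq h univ
  rw [compl_univ, nc_empty, coe_univ] at h3
  have h4 : rk A (X : Set ι) ≤ rk A Set.univ :=
    Submodule.finrank_mono (Submodule.span_mono (Set.image_mono (Set.subset_univ _)))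
  have h5 : X.card + Xᶜ.card = Fintype.card ι := card_add_card_compl X
  rw [card_univ] at h3
  have h6 : Xᶜ.card + nc s t Xᶜ = (rk A Set.univ - rk A (X : Set ι)) + Fintype.card W := by
    omega
  rw [h6, pow_add] at h1
  have h7 : {f : ι → ZMod k | Flo s t f ∧ ∀ j ∈ X, f j = 0} =
      {f : ι → ZMod k | Flo s t f ∧ ∀ j, j ∉ Xᶜ → f j = 0} := by
    ext f
    simp only [Set.mem_ofPred_eq, mem_compl, not_not]
  rw [h7]
  exact Nat.eq_of_mul_eq_mul_right (pow_pos hk _) h1

/-- **The characteristic polynomial counts the nowhere-zero flows.** -/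
theorem chi_eq {m : ℕ} {A : ι → Fin m → ZMod 2} {s t : ι → W} (h : Cog A s t) {k : ℕ}
    (hk : 0 < k) : chi A k = ({f : ι → ZMod k | Flo s t f ∧ ∀ j, f j ≠ 0}.ncard : ℤ) := by
  classical
  have : NeZero k := ⟨hk.ne'⟩
  unfold chi
  have h0 : ∀ (p : (ι → ZMod k) → Prop) [DecidablePred p], ({f : ι → ZMod k | p f}.ncard : ℤ) =
      ∑ f : ι → ZMod k, if p f then (1 : ℤ) else 0 := by
    intro p _
    rw [sum_boole, ← Set.ncard_coe_finset]
    congr 2
    ext f
    simp
  have h1 : ∀ X : Finset ι, (k : ℤ) ^ (rk A Set.univ - rk A (X : Set ι)) =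
      ∑ f : ι → ZMod k, if Flo s t f ∧ ∀ j ∈ X, f j = 0 then (1 : ℤ) else 0 := by
    intro X
    rw [← h0, card_flo_rk h hk X]
    push_cast
    rfl
  rw [h0, sum_congr rfl fun X _ => by rw [h1 X, mul_sum], sum_comm]
  refine sum_congr rfl fun f _ => ?_
  by_cases hf : Flo s t f
  · have h2 : ∀ X : Finset ι, (-1 : ℤ) ^ X.card *
        (if Flo s t f ∧ ∀ j ∈ X, f j = 0 then (1 : ℤ) else 0) =
        if X ⊆ univ.filter (fun j => f j = 0) then (-1 : ℤ) ^ X.card else 0 := by
      intro X
      have h3 : (Flo s t f ∧ ∀ j ∈ X, f j = 0) ↔ X ⊆ univ.filter (fun j => f j = 0) := by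
        rw [and_iff_right hf]
        constructor
        · intro h4 j hj
          rw [mem_filter]
          exact ⟨mem_univ _, h4 j hj⟩
        · intro h4 j hj
          exact (mem_filter.1 (h4 hj)).2
      by_cases h5 : X ⊆ univ.filter (fun j => f j = 0)
      · rw [if_pos (h3.2 h5), if_pos h5, mul_one]
      · rw [if_neg (fun h6 => h5 (h3.1 h6)), if_neg h5, mul_zero]
    rw [sum_congr rfl fun X _ => h2 X, ← sum_filter,
      show (univ.filter fun X : Finset ι => X ⊆ univ.filter (fun j => f j = 0)) =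
        (univ.filter (fun j => f j = 0)).powerset by ext X; simp [mem_powerset],
      sum_powerset_neg_one_pow_card]
    have h6 : (univ.filter (fun j => f j = 0)) = ∅ ↔ ∀ j, f j ≠ 0 := by
      rw [filter_eq_empty_iff]
      exact ⟨fun h7 j => h7 (mem_univ j), fun h7 j _ => h7 j⟩
    by_cases h7 : ∀ j, f j ≠ 0
    · rw [if_pos (h6.2 h7), if_pos ⟨hf, h7⟩]
    · rw [if_neg (fun h8 => h7 (h6.1 h8)), if_neg (fun h8 => h7 h8.2)]
  · rw [if_neg fun h2 => hf h2.1]
    refine sum_eq_zero fun X _ => ?_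
    rw [if_neg fun h2 => hf h2.1, mul_zero]

end Pool.Agent.K5.Mat
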