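import Mathlib
import Pool.Agent.Work.MP_974d84_co_k5.DefsM

/-!
# The matroid form: cuts of graphs with many common vertices
-/

set_option linter.unusedSectionVars false

namespace Pool.Agent.K5.Mat

open Finset SimpleGraph

/-- M4 -/
theorem cut_of_vconn {V : Type} [Fintype V] [DecidableEq V] {G : SimpleGraph V}
    [DecidableRel G.Adj] {k : ℕ} (hv : VConn G k) (S : Finset V)
    (h1 : ¬ (G.induce (S : Set V)).IsAcyclic)
    (h2 : ¬ (G.induce ((Sᶜ : Finset V) : Set V)).IsAcyclic) :
    k ≤ (G.interedges S Sᶜ).card := by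
  classical
  -- the edges with an end in `S`
  let H : SimpleGraph V := {
    Adj := fun u v => G.Adj u v ∧ (u ∈ S ∨ v ∈ S)
    symm := ⟨fun u v h => ⟨h.1.symm, h.2.symm⟩⟩
    loopless := ⟨fun u h => h.1.ne rfl⟩ }
  have hH : H ≤ G := fun u v h => h.1
  have a1 : ¬ H.IsAcyclic := by
    intro h
    refine h1 ?_
    let f : G.induce (S : Set V) →g H := {
      toFun := fun x => x.1
      map_rel' := fun {x y} hxy => ⟨hxy, Or.inl x.2⟩ }
    exact h.comap f Subtype.val_injective
  have a2 : ¬ (G \ H).IsAcyclic := by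
    intro h
    refine h2 ?_
    let f : G.induce ((Sᶜ : Finset V) : Set V) →g (G \ H) := {
      toFun := fun x => x.1
      map_rel' := fun {x y} hxy => by
        refine ⟨hxy, fun h3 => ?_⟩
        have hx := x.2
        have hy := y.2
        rw [Finset.mem_coe, mem_compl] at hx hy
        rcases h3.2 with h4 | h4
        · exact hx h4
        · exact hy h4 }
    exact h.comap f Subtype.val_injective
  refine (hv H hH a1 a2).trans ?_
  have key : {v | (∃ u, H.Adj v u) ∧ ∃ u, (G \ H).Adj v u} ⊆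
      ((G.interedges S Sᶜ).image Prod.snd : Finset V) := by
    rintro v ⟨⟨u, hu⟩, u', hu'⟩
    have hvS : v ∉ S := fun h => hu'.2 ⟨hu'.1, Or.inl h⟩
    have huS : u ∈ S := hu.2.resolve_left hvS
    rw [Finset.mem_coe, mem_image]
    refine ⟨(u, v), ?_, rfl⟩
    rw [SimpleGraph.mem_interedges_iff]
    exact ⟨huS, mem_compl.2 hvS, hu.1.symm⟩
  calc {v | (∃ u, H.Adj v u) ∧ ∃ u, (G \ H).Adj v u}.ncard
      ≤ (((G.interedges S Sᶜ).image Prod.snd : Finset V) : Set V).ncard :=
        Set.ncard_le_ncard key (Finset.finite_toSet _)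
    _ = ((G.interedges S Sᶜ).image Prod.snd).card := Set.ncard_coe_finset _
    _ ≤ (G.interedges S Sᶜ).card := card_image_le

end Pool.Agent.K5.Mat
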