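import Mathlib
import Pool.Agent.Work.MP_974d84_co_k5.DefsM

/-!
# The matroid form: expansion of the vertices of large degree
-/

set_option linter.unusedSectionVars false

namespace Pool.Agent.K5.Mat

open Finset SimpleGraph

section split
variable {V : Type} [DecidableEq V] (v : V) (σ : V → Prop) [DecidablePred σ]

/-- The old vertex. -/
def prj (p : Option V) : V := p.getD v

/-- The end at `x` of the edge between `x` and `y`. -/
def lf (x y : V) : Option V := if x = v ∧ σ y then none else some x

theorem prj_lf (x y : V) : prj v (lf v σ x y) = x := by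
  unfold prj lf
  by_cases h : x = v ∧ σ y
  · rw [if_pos h]
    exact h.1.symm
  · rw [if_neg h]
    rfl

/-- The graph with the vertex `v` split into `none` and `some v`, joined by an edge. -/
def spG (G : SimpleGraph V) : SimpleGraph (Option V) where
  Adj p q := (p = none ∧ q = some v) ∨ (p = some v ∧ q = none) ∨
    (G.Adj (prj v p) (prj v q) ∧ p = lf v σ (prj v p) (prj v q) ∧
      q = lf v σ (prj v q) (prj v p))
  symm := ⟨by
    rintro p q (h | h | h)
    · exact Or.inr (Or.inl ⟨h.2, h.1⟩)
    · exact Or.inl ⟨h.2, h.1⟩
    · exact Or.inr (Or.inr ⟨h.1.symm, h.2.2, h.2.1⟩)⟩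
  loopless := ⟨by
    rintro p (h | h | h)
    · exact absurd (h.1.symm.trans h.2) (by simp)
    · exact absurd (h.2.symm.trans h.1) (by simp)
    · exact G.irrefl h.1⟩

/-- The old edges of a graph on the new vertices. -/
def des (H : SimpleGraph (Option V)) : SimpleGraph V where
  Adj x y := H.Adj (lf v σ x y) (lf v σ y x)
  symm := ⟨fun _ _ h => h.symm⟩
  loopless := ⟨fun _ h => H.irrefl h⟩

theorem des_adj {H : SimpleGraph (Option V)} {x y : V} :
    (des v σ H).Adj x y ↔ H.Adj (lf v σ x y) (lf v σ y x) := Iff.rfl

theorem lf_ne (x y : V) : ¬ (lf v σ x y = none ∧ lf v σ y x = some v) := by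
  rintro ⟨h1, h2⟩
  have e1 := prj_lf v σ x y
  have e2 := prj_lf v σ y x
  rw [h1] at e1
  rw [h2] at e2
  have e3 : v = x := e1
  have e4 : v = y := e2
  subst e3
  subst e4
  rw [h1] at h2
  exact absurd h2 (by simp)

theorem des_spG (G : SimpleGraph V) : des v σ (spG v σ G) = G := by
  ext x y
  rw [des_adj]
  constructor
  · rintro (h | h | h)
    · exact absurd h (lf_ne v σ x y)
    · exact absurd ⟨h.2, h.1⟩ (lf_ne v σ y x)
    · rw [prj_lf, prj_lf] at h
      exact h.1
  · intro h
    refine Or.inr (Or.inr ?_)
    rw [prj_lf, prj_lf]
    exact ⟨h, rfl, rfl⟩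

theorem des_sdiff (A B : SimpleGraph (Option V)) :
    des v σ (A \ B) = des v σ A \ des v σ B := by
  ext x y
  rw [sdiff_adj, des_adj, des_adj, des_adj, sdiff_adj]

theorem des_mono {A B : SimpleGraph (Option V)} (h : A ≤ B) : des v σ A ≤ des v σ B :=
  fun _ _ hxy => h hxy

variable {v σ} {G : SimpleGraph V} {H : SimpleGraph (Option V)}

/-- An edge is the new edge or an old edge. -/
theorem edge_cases (hH : H ≤ spG v σ G) {p q : Option V} (h : H.Adj p q) :
    (p = none ∧ q = some v) ∨ (p = some v ∧ q = none) ∨
    ((des v σ H).Adj (prj v p) (prj v q) ∧ p = lf v σ (prj v p) (prj v q) ∧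
      q = lf v σ (prj v q) (prj v p)) := by
  rcases hH h with h1 | h1 | h1
  · exact Or.inl h1
  · exact Or.inr (Or.inl h1)
  · refine Or.inr (Or.inr ⟨?_, h1.2.1, h1.2.2⟩)
    rw [des_adj, ← h1.2.1, ← h1.2.2]
    exact h

/-- Removing an old edge in both graphs. -/
theorem reach_map (hH : H ≤ spG v σ G) {x y : V} {p q : Option V}
    (h : (H.deleteEdges {s(lf v σ x y, lf v σ y x)}).Reachable p q) :
    ((des v σ H).deleteEdges {s(x, y)}).Reachable (prj v p) (prj v q) := by
  rw [reachable_iff_reflTransGen] at h
  induction h with
  | refl => exact Reachable.refl _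
  | @tail a b _ hab ih =>
    refine ih.trans ?_
    rw [deleteEdges_adj] at hab
    rcases edge_cases hH hab.1 with h1 | h1 | h1
    · rw [h1.1, h1.2]
      exact Reachable.refl _
    · rw [h1.1, h1.2]
      exact Reachable.refl _
    · refine Adj.reachable ?_
      rw [deleteEdges_adj]
      refine ⟨h1.1, ?_⟩
      intro h2
      rw [Set.mem_singleton_iff, Sym2.eq_iff] at h2
      apply hab.2
      rw [Set.mem_singleton_iff, Sym2.eq_iff]
      rcases h2 with ⟨h3, h4⟩ | ⟨h3, h4⟩
      · left
        rw [← h3, ← h4]
        exact h1.2
      · right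
        rw [← h3, ← h4]
        exact h1.2

/-- A walk which avoids the new vertex. -/
theorem walk_map (hH : H ≤ spG v σ G) {y : V} (hy : σ y) {p q : Option V} (w : H.Walk p q)
    (hw : none ∉ w.support) :
    ((des v σ H).deleteEdges {s(v, y)}).Reachable (prj v p) (prj v q) := by
  induction w with
  | nil => exact Reachable.refl _
  | @cons a b c hab w ih =>
    rw [Walk.support_cons, List.mem_cons, not_or] at hw
    refine Reachable.trans ?_ (ih hw.2)
    have ha : a ≠ none := fun h => hw.1 h.symm
    have hb : b ≠ none := fun h => hw.2 (h ▸ w.start_mem_support)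
    rcases edge_cases hH hab with h1 | h1 | h1
    · exact absurd h1.1 ha
    · exact absurd h1.2 hb
    · refine Adj.reachable ?_
      rw [deleteEdges_adj]
      refine ⟨h1.1, ?_⟩
      intro h2
      rw [Set.mem_singleton_iff, Sym2.eq_iff] at h2
      rcases h2 with ⟨h3, h4⟩ | ⟨h3, h4⟩
      · apply ha
        rw [h1.2.1, h3, h4]
        unfold lf
        rw [if_pos ⟨rfl, hy⟩]
      · apply hb
        rw [h1.2.2, h3, h4]
        unfold lf
        rw [if_pos ⟨rfl, hy⟩]

/-- If the old edges form a forest, then all the edges form a forest. -/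
theorem acyclic_of_des (hH : H ≤ spG v σ G) (h : (des v σ H).IsAcyclic) : H.IsAcyclic := by
  rw [isAcyclic_iff_forall_adj_isBridge] at h ⊢
  -- the new edge
  have hnew : H.Adj none (some v) → ¬ (H.deleteEdges {s(none, some v)}).Reachable none
      (some v) := by
    intro _ hr
    obtain ⟨w, hw⟩ := hr.exists_isPath
    cases w with
    | @cons _ b _ hab w =>
      rw [Walk.cons_isPath_iff] at hw
      rw [deleteEdges_adj] at hab
      rcases edge_cases hH hab.1 with h1 | h1 | h1
      · apply hab.2
        rw [Set.mem_singleton_iff, h1.2]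
      · exact absurd h1.1 (by simp)
      · have hn : (none : Option V) = lf v σ v (prj v b) := h1.2.1
        have hσ : σ (prj v b) := by
          by_contra hcon
          unfold lf at hn
          rw [if_neg (fun h2 => hcon h2.2)] at hn
          exact absurd hn (by simp)
        have hadj : (des v σ H).Adj v (prj v b) := h1.1
        have h2 := h hadj
        rw [isBridge_iff] at h2
        apply h2
        have hsupp : none ∉ (w.mapLe (deleteEdges_le {s(none, some v)})).support := by
          rw [Walk.support_mapLe_eq_support]
          exact hw.2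
        have h3 := walk_map hH hσ (w.mapLe (deleteEdges_le {s(none, some v)})) hsupp
        exact h3.symm
  intro p q hpq
  rw [isBridge_iff]
  rcases edge_cases hH hpq with h1 | h1 | h1
  · obtain ⟨rfl, rfl⟩ := h1
    exact hnew hpq
  · obtain ⟨rfl, rfl⟩ := h1
    intro hr
    refine hnew hpq.symm ?_
    rw [Sym2.eq_swap]
    exact hr.symm
  · intro hr
    have h2 := h h1.1
    rw [isBridge_iff] at h2
    apply h2
    apply reach_map hH
    rw [← h1.2.1, ← h1.2.2]
    exact hr

theorem VConn.split {k : ℕ} [Finite V] (hv : VConn G k) : VConn (spG v σ G) k := by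
  intro H hH h1 h2
  have h3 : ¬ (des v σ H).IsAcyclic := fun h => h1 (acyclic_of_des hH h)
  have h4 : ¬ (G \ des v σ H).IsAcyclic := by
    intro h
    apply h2
    refine acyclic_of_des (G := G) (v := v) (σ := σ) sdiff_le ?_
    rw [des_sdiff, des_spG]
    exact h
  have h5 : des v σ H ≤ G := by
    have := des_mono v σ hH
    rwa [des_spG] at this
  refine (hv _ h5 h3 h4).trans ?_
  have hsub : {x | (∃ u, (des v σ H).Adj x u) ∧ ∃ u, (G \ des v σ H).Adj x u} ⊆
      prj v '' {p | (∃ q, H.Adj p q) ∧ ∃ q, (spG v σ G \ H).Adj p q} := by
    rintro x ⟨⟨u, hu⟩, u', hu'⟩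
    have hu2 : (spG v σ G \ H).Adj (lf v σ x u') (lf v σ u' x) := by
      have : (des v σ (spG v σ G \ H)).Adj x u' := by
        rw [des_sdiff, des_spG]
        exact hu'
      exact this
    rw [des_adj] at hu
    by_cases hpp : lf v σ x u = lf v σ x u'
    · exact ⟨lf v σ x u, ⟨⟨_, hu⟩, ⟨_, hpp ▸ hu2⟩⟩, prj_lf v σ x u⟩
    · have hx : x = v := by
        by_contra hx
        apply hpp
        unfold lf
        rw [if_neg fun h => hx h.1, if_neg fun h => hx h.1]
      have hnew : (spG v σ G).Adj (lf v σ x u) (lf v σ x u') := by
        unfold lf at hpp ⊢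
        rw [hx] at hpp ⊢
        by_cases h6 : v = v ∧ σ u <;> by_cases h7 : v = v ∧ σ u'
        · rw [if_pos h6, if_pos h7] at hpp
          exact absurd rfl hpp
        · rw [if_pos h6, if_neg h7]
          exact Or.inl ⟨rfl, rfl⟩
        · rw [if_neg h6, if_pos h7]
          exact Or.inr (Or.inl ⟨rfl, rfl⟩)
        · rw [if_neg h6, if_neg h7] at hpp
          exact absurd rfl hpp
      by_cases hin : H.Adj (lf v σ x u) (lf v σ x u')
      · exact ⟨lf v σ x u', ⟨⟨_, hin.symm⟩, ⟨_, hu2⟩⟩, prj_lf v σ x u'⟩
      · refine ⟨lf v σ x u, ⟨⟨_, hu⟩, ⟨lf v σ x u', ?_⟩⟩, prj_lf v σ x u⟩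
        rw [sdiff_adj]
        exact ⟨hnew, hin⟩
  exact (Set.ncard_le_ncard hsub (Set.toFinite _)).trans
    (Set.ncard_image_le (Set.toFinite _))

end split

section flow
variable {V : Type} [Fintype V] [DecidableEq V] {v : V} {σ : V → Prop} [DecidablePred σ]
  {G : SimpleGraph V}

theorem spG_some_v {u : V} (hu : σ u) : ¬ (spG v σ G).Adj (some v) (some u) := by
  rintro (h | h | h)
  · exact absurd h.1 (by simp)
  · exact absurd h.2 (by simp)
  · have h2 : some v = lf v σ v u := h.2.1
    unfold lf at h2
    rw [if_pos ⟨rfl, hu⟩] at h2
    exact absurd h2 (by simp)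

theorem spG_none_some {u : V} (huv : u ≠ v) (hu : ¬ σ u) : ¬ (spG v σ G).Adj none (some u) := by
  rintro (h | h | h)
  · exact huv (Option.some.inj h.2)
  · exact absurd h.1 (by simp)
  · have h2 : (none : Option V) = lf v σ v u := h.2.1
    unfold lf at h2
    rw [if_neg fun h3 => hu h3.2] at h2
    exact absurd h2 (by simp)

theorem GP.of_split {F : Type} [AddCommGroup F] {P : F → Prop} (hσv : ¬ σ v)
    (h : GP P (spG v σ G)) : GP P G := by
  obtain ⟨f, hf1, hf2, hf3, hf4⟩ := h
  refine ⟨fun x y => f (lf v σ x y) (lf v σ y x), fun x y => hf1 _ _, ?_, ?_, ?_⟩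
  · intro x
    by_cases hx : x = v
    · subst hx
      have e1 : ∀ u, lf x σ u x = some u := by
        intro u
        unfold lf
        rw [if_neg fun h => hσv h.2]
      simp only [e1]
      have e2 : ∀ u, f (lf x σ x u) (some u) =
          (if σ u then f none (some u) else 0) + if σ u then 0 else f (some x) (some u) := by
        intro u
        unfold lf
        by_cases hu : σ u
        · simp [hu]
        · simp [hu]
      rw [sum_congr rfl fun u _ => e2 u, sum_add_distrib]
      have e3 : ∑ u, (if σ u then 0 else f (some x) (some u)) = - f (some x) none := by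
        have h1 := hf2 (some x)
        rw [Fintype.sum_option] at h1
        have h2 : ∑ u, (if σ u then 0 else f (some x) (some u)) =
            ∑ u, f (some x) (some u) := by
          refine sum_congr rfl fun u _ => ?_
          by_cases hu : σ u
          · rw [if_pos hu, hf3 _ _ (spG_some_v hu)]
          · rw [if_neg hu]
        rw [h2]
        exact eq_neg_of_add_eq_zero_right h1
      have e4 : ∑ u, (if σ u then f none (some u) else 0) = - f none (some x) := by
        have h1 := hf2 none
        rw [Fintype.sum_option, hf3 none none (fun h => (spG x σ G).irrefl h), zero_add] at h1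
        have h2 : ∑ u, f none (some u) = ∑ u, ((if σ u then f none (some u) else 0) +
            if u = x then f none (some x) else 0) := by
          refine sum_congr rfl fun u _ => ?_
          by_cases hu : u = x
          · subst hu
            simp [hσv]
          · by_cases hs : σ u
            · simp [hs, hu]
            · simp [hs, hu, hf3 _ _ (spG_none_some (G := G) hu hs)]
        rw [h2, sum_add_distrib, sum_ite_eq' univ x] at h1
        simp only [mem_univ, if_true] at h1
        exact eq_neg_of_add_eq_zero_left h1
      rw [e3, e4, hf1 none (some x)]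
      simp
    · have e1 : ∀ u, lf v σ x u = some x := by
        intro u
        unfold lf
        rw [if_neg fun h => hx h.1]
      simp only [e1]
      have h1 := hf2 (some x)
      rw [Fintype.sum_option] at h1
      by_cases hs : σ x
      · have h2 : ¬ (spG v σ G).Adj (some x) (some v) := fun h3 => spG_some_v hs h3.symm
        have e2 : ∀ u, f (some x) (lf v σ u x) =
            f (some x) (some u) + if u = v then f (some x) none else 0 := by
          intro u
          unfold lf
          by_cases hu : u = v
          · subst hu
            simp [hs, hf3 _ _ h2]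
          · simp [hu]
        rw [sum_congr rfl fun u _ => e2 u, sum_add_distrib, sum_ite_eq' univ v]
        simp only [mem_univ, if_true]
        rw [add_comm]
        exact h1
      · have h2 : ¬ (spG v σ G).Adj (some x) none := fun h3 =>
          spG_none_some hx hs h3.symm
        rw [hf3 _ _ h2, zero_add] at h1
        rw [← h1]
        refine sum_congr rfl fun u _ => ?_
        unfold lf
        rw [if_neg fun h => hs h.2]
  · intro x y hxy
    apply hf3
    intro h
    apply hxy
    have : (des v σ (spG v σ G)).Adj x y := h
    rwa [des_spG] at this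
  · intro x y hxy
    apply hf4
    have : (des v σ (spG v σ G)).Adj x y := by
      rw [des_spG]
      exact hxy
    exact this

end flow

section degree
variable {V : Type} [Fintype V] [DecidableEq V] {v a b : V} {G : SimpleGraph V}

theorem ncard_none (hva : G.Adj v a) (hvb : G.Adj v b) (hab : a ≠ b) :
    ((spG v (fun y => y = a ∨ y = b) G).neighborSet none).ncard = 3 := by
  have h1 : (spG v (fun y => y = a ∨ y = b) G).neighborSet none =
      {some v, some a, some b} := by
    ext q
    rw [mem_neighborSet]
    simp only [Set.mem_insert_iff, Set.mem_singleton_iff]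
    constructor
    · rintro (h | h | h)
      · exact Or.inl h.2
      · exact absurd h.1 (by simp)
      · right
        have h2 : (none : Option V) = lf v (fun y => y = a ∨ y = b) v (prj v q) := h.2.1
        have h3 : prj v q = a ∨ prj v q = b := by
          by_contra hcon
          unfold lf at h2
          rw [if_neg fun h4 => hcon h4.2] at h2
          exact absurd h2 (by simp)
        rcases q with _ | q
        · exfalso
          rcases h3 with h3 | h3
          · exact hva.ne h3
          · exact hvb.ne h3
        · rcases h3 with h3 | h3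
          · exact Or.inl (congrArg some h3)
          · exact Or.inr (congrArg some h3)
    · rintro (rfl | rfl | rfl)
      · exact Or.inl ⟨rfl, rfl⟩
      · refine Or.inr (Or.inr ⟨hva, ?_, ?_⟩)
        · change none = lf v (fun y => y = a ∨ y = b) v a
          unfold lf
          rw [if_pos ⟨rfl, Or.inl rfl⟩]
        · change some a = lf v (fun y => y = a ∨ y = b) a v
          unfold lf
          rw [if_neg fun h => hva.ne h.1.symm]
      · refine Or.inr (Or.inr ⟨hvb, ?_, ?_⟩)
        · change none = lf v (fun y => y = a ∨ y = b) v b
          unfold lf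
          rw [if_pos ⟨rfl, Or.inr rfl⟩]
        · change some b = lf v (fun y => y = a ∨ y = b) b v
          unfold lf
          rw [if_neg fun h => hvb.ne h.1.symm]
  rw [h1, Set.ncard_eq_three]
  refine ⟨some v, some a, some b, ?_, ?_, ?_, rfl⟩
  · simpa using hva.ne
  · simpa using hvb.ne
  · simpa using hab

theorem ncard_some {x : V} (hx : x ≠ v) :
    ((spG v (fun y => y = a ∨ y = b) G).neighborSet (some x)).ncard = (G.neighborSet x).ncard := by
  symm
  refine Set.ncard_congr (fun y _ => lf v (fun y => y = a ∨ y = b) y x) ?_ ?_ ?_
  · intro y hy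
    rw [mem_neighborSet] at hy ⊢
    have h1 : (des v (fun y => y = a ∨ y = b) (spG v (fun y => y = a ∨ y = b) G)).Adj x y := by
      rw [des_spG]
      exact hy
    rw [des_adj] at h1
    have h2 : lf v (fun y => y = a ∨ y = b) x y = some x := by
      unfold lf
      rw [if_neg fun h => hx h.1]
    rwa [h2] at h1
  · intro y z _ _ h
    have := congrArg (prj v) h
    rwa [prj_lf, prj_lf] at this
  · intro q hq
    rw [mem_neighborSet] at hq
    refine ⟨prj v q, ?_, ?_⟩
    · rcases hq with h | h | h
      · exact absurd h.1 (by simp)
      · exact absurd (Option.some.inj h.1) hx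
      · exact h.1
    · rcases hq with h | h | h
      · exact absurd h.1 (by simp)
      · exact absurd (Option.some.inj h.1) hx
      · exact h.2.2.symm

theorem ncard_self (hva : G.Adj v a) (hvb : G.Adj v b) (hab : a ≠ b) :
    ((spG v (fun y => y = a ∨ y = b) G).neighborSet (some v)).ncard + 1 =
      (G.neighborSet v).ncard := by
  have h1 : (spG v (fun y => y = a ∨ y = b) G).neighborSet (some v) =
      insert none (some '' (G.neighborSet v \ {a, b})) := by
    ext q
    rw [mem_neighborSet]
    simp only [Set.mem_insert_iff, Set.mem_image, Set.mem_sdiff, Set.mem_singleton_iff,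
      mem_neighborSet]
    constructor
    · rintro (h | h | h)
      · exact absurd h.1 (by simp)
      · exact Or.inl h.2
      · right
        have h2 : some v = lf v (fun y => y = a ∨ y = b) v (prj v q) := h.2.1
        have h3 : ¬ (prj v q = a ∨ prj v q = b) := by
          intro hcon
          unfold lf at h2
          rw [if_pos ⟨rfl, hcon⟩] at h2
          exact absurd h2 (by simp)
        refine ⟨prj v q, ⟨h.1, h3⟩, ?_⟩
        rcases q with _ | q
        · exact absurd h.1 G.irrefl
        · rfl
    · rintro (rfl | ⟨y, ⟨hy1, hy2⟩, rfl⟩)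
      · exact Or.inr (Or.inl ⟨rfl, rfl⟩)
      · refine Or.inr (Or.inr ⟨hy1, ?_, ?_⟩)
        · change some v = lf v (fun y => y = a ∨ y = b) v y
          unfold lf
          rw [if_neg fun h => hy2 h.2]
        · change some y = lf v (fun y => y = a ∨ y = b) y v
          unfold lf
          rw [if_neg fun h => hy1.ne h.1.symm]
  have hsub : ({a, b} : Set V) ⊆ G.neighborSet v := by
    rintro x (rfl | rfl)
    · exact hva
    · exact hvb
  have h2 := Set.ncard_sdiff_add_ncard_of_subset hsub (Set.toFinite _)
  rw [Set.ncard_pair hab] at h2
  rw [h1, Set.ncard_insert_of_notMem (by simp) (Set.toFinite _),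
    Set.ncard_image_of_injective _ (Option.some_injective V)]
  omega

end degree

theorem degree_eq_ncard {V : Type} [Fintype V] (G : SimpleGraph V) [DecidableRel G.Adj] (v : V) :
    G.degree v = (G.neighborSet v).ncard := by
  rw [← card_neighborSet_eq_degree, Set.ncard_eq_toFinset_card', Set.toFinset_card]

/-- M3: from cubic graphs to graphs with all degrees at least three. -/
theorem expand {F : Type} [AddCommGroup F] {P : F → Prop} {k : ℕ}
    (h : ∀ (V : Type) [Fintype V] [DecidableEq V] (G : SimpleGraph V) [DecidableRel G.Adj],
      (∀ v, G.degree v = 3) → VConn G k → GP P G)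
    (V : Type) [Fintype V] [DecidableEq V] (G : SimpleGraph V) [DecidableRel G.Adj]
    (h3 : ∀ v, 3 ≤ G.degree v) (hv : VConn G k) : GP P G := by
  have key : ∀ n : ℕ, ∀ (V : Type) [Fintype V] [DecidableEq V] (G : SimpleGraph V),
      ∑ v, ((G.neighborSet v).ncard - 3) = n → (∀ v, 3 ≤ (G.neighborSet v).ncard) →
      VConn G k → GP P G := by
    intro n
    induction n using Nat.strong_induction_on with
    | _ n ih =>
      intro V _ _ G hn h3 hv
      classical
      by_cases hall : ∀ v, (G.neighborSet v).ncard = 3
      · exact h V G (fun v => (degree_eq_ncard G v).trans (hall v)) hv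
      · push Not at hall
        obtain ⟨v, hv3⟩ := hall
        have hv4 : 4 ≤ (G.neighborSet v).ncard := by
          have := h3 v
          omega
        obtain ⟨a, b, ha, hb, hab⟩ := (Set.one_lt_ncard_iff (Set.toFinite _)).1
          (by omega : 1 < (G.neighborSet v).ncard)
        have hσv : ¬ (v = a ∨ v = b) := by
          rintro (rfl | rfl)
          · exact G.irrefl ha
          · exact G.irrefl hb
        refine GP.of_split (v := v) (σ := fun y => y = a ∨ y = b) hσv ?_
        refine ih _ ?_ (Option V) (spG v (fun y => y = a ∨ y = b) G) rfl ?_ hv.split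
        · rw [Fintype.sum_option, ncard_none ha hb hab, Nat.sub_self, zero_add, ← hn]
          refine sum_lt_sum (fun x _ => ?_) ⟨v, mem_univ _, ?_⟩
          · by_cases hx : x = v
            · subst hx
              have := ncard_self ha hb hab
              omega
            · rw [ncard_some hx]
          · have := ncard_self ha hb hab
            omega
        · intro p
          rcases p with _ | x
          · rw [ncard_none ha hb hab]
          · by_cases hx : x = v
            · subst hx
              have := ncard_self ha hb hab
              omega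
            · rw [ncard_some hx]
              exact h3 x
  refine key _ V G rfl (fun v => ?_) hv
  rw [← degree_eq_ncard]
  exact h3 v

end Pool.Agent.K5.Mat
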