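import Mathlib
import Pool.Agent.Work.MP_974d84_co_k5.CatA

/-!
# The caterpillar expansion of a graph: from cubic graphs to graphs with degrees at least three
-/

set_option linter.unusedSectionVars false
set_option linter.unusedVariables false

namespace Pool.Agent.K5.Mat.Cat

open Finset SimpleGraph Pool.Agent.K5.Mat
open Pool.Agent.Exp (acyclic_edges inside_card mem_cut mem_inside)
open Pool.Agent.Work.MP_314beb_co (cut inside even_inside sum_degree_eq_cut_add_inside)

variable {V : Type} [Fintype V] [DecidableEq V] {G : SimpleGraph V} [DecidableRel G.Adj]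

/-- The image of a subgraph of the expansion. -/
def img (K : SimpleGraph (EV G)) : SimpleGraph V where
  Adj u v := u ≠ v ∧ ∃ x y : EV G, x.1 = u ∧ y.1 = v ∧ K.Adj x y
  symm := ⟨fun _ _ h => ⟨h.1.symm, by
    obtain ⟨-, x, y, h1, h2, h3⟩ := h
    exact ⟨y, x, h2, h1, h3.symm⟩⟩⟩
  loopless := ⟨fun _ h => h.1 rfl⟩

theorem img_mono {K K' : SimpleGraph (EV G)} (h : K ≤ K') : img K ≤ img K' := by
  rintro u v ⟨hne, x, y, h1, h2, h3⟩
  exact ⟨hne, x, y, h1, h2, h h3⟩

theorem img_adj (h3 : ∀ v, 3 ≤ G.degree v) {K : SimpleGraph (EV G)} (hK : K ≤ EG G) {u v : V} :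
    (img K).Adj u v ↔ u ≠ v ∧ K.Adj (lft h3 u v) (lft h3 v u) := by
  constructor
  · rintro ⟨hne, x, y, rfl, rfl, h⟩
    obtain ⟨-, h1, h2⟩ := adj_out h3 (hK h) hne
    refine ⟨hne, ?_⟩
    rw [← h1, ← h2]
    exact h
  · rintro ⟨hne, h⟩
    exact ⟨hne, _, _, rfl, rfl, h⟩

theorem img_le (h3 : ∀ v, 3 ≤ G.degree v) {K : SimpleGraph (EV G)} (hK : K ≤ EG G) :
    img K ≤ G := by
  rintro u v ⟨hne, x, y, rfl, rfl, h⟩
  exact (adj_out h3 (hK h) hne).1

theorem ev_img (h3 : ∀ v, 3 ≤ G.degree v) {K : SimpleGraph (EV G)} (hK : K ≤ EG G) (hE : Ev K) :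
    Ev (img K) := by
  classical
  refine ⟨?_, fun v => ?_⟩
  · -- an edge between different fibres
    by_contra hcon
    push Not at hcon
    have hin : ∀ x y, K.Adj x y → x.1 = y.1 := by
      intro x y hxy
      by_contra hne
      exact hcon x.1 y.1 ⟨hne, x, y, rfl, rfl, hxy⟩
    obtain ⟨a, b, hab⟩ := hE.1
    obtain ⟨x, hx, hmin⟩ := exists_min_image
      ((univ : Finset (EV G)).filter fun x => ∃ y, K.Adj x y) (fun x => (x.2 : ℕ))
      ⟨a, mem_filter.2 ⟨mem_univ _, b, hab⟩⟩
    obtain ⟨y, hy⟩ := (mem_filter.1 hx).2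
    have hnext : ∀ z, K.Adj x z → x.1 = z.1 ∧ (z.2 : ℕ) = x.2 + 1 := by
      intro z hz
      have h1 := hin x z hz
      refine ⟨h1, ?_⟩
      rcases hK hz with ⟨-, h2 | h2⟩ | ⟨h2, -⟩
      · exact h2.symm
      · have h4 := hmin z (mem_filter.2 ⟨mem_univ _, x, hz.symm⟩)
        omega
      · rw [h1] at h2
        exact absurd h2 (G.loopless.irrefl _)
    have hone : K.neighborSet x = {y} := by
      ext z
      rw [mem_neighborSet, Set.mem_singleton_iff]
      constructor
      · intro hz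
        obtain ⟨h1, h2⟩ := hnext z hz
        obtain ⟨h4, h5⟩ := hnext y hy
        exact ev_ext (h1.symm.trans h4) (h2.trans h5.symm)
      · rintro rfl
        exact hy
    have h6 := hE.2 x
    rw [hone, Set.ncard_singleton] at h6
    exact absurd h6 (by decide)
  · -- parity
    let S : Finset (EV G) := univ.filter fun x => x.1 = v
    have hS : ∀ x, x ∈ S ↔ x.1 = v := fun x => by simp [S]
    have h1 := sum_degree_eq_cut_add_inside K S
    have h2 := even_inside K S
    have h4 : Even (∑ x ∈ S, K.degree x) := by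
      refine even_sum _ fun x _ => ?_
      have h5 := hE.2 x
      have h6 : (K.neighborSet x).ncard = K.degree x := by
        rw [← K.card_neighborFinset_eq_degree, ← Set.ncard_coe_finset, K.coe_neighborFinset]
      rwa [h6] at h5
    have h5 : Even (cut K S).card := by
      rw [h1] at h4
      exact (Nat.even_add.1 h4).2 h2
    have h6 : ((img K).neighborSet v).ncard = (cut K S).card := by
      have h7 : (img K).neighborSet v = ((univ.filter fun u => (img K).Adj v u : Finset V) : Set V) := by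
        ext u
        simp
      rw [h7, Set.ncard_coe_finset]
      refine card_bij (fun u _ => (lft h3 v u, lft h3 u v)) ?_ ?_ ?_
      · intro u hu
        have h8 := (img_adj h3 hK).1 (mem_filter.1 hu).2
        rw [mem_cut, hS, hS]
        exact ⟨rfl, fun h9 => h8.1 h9.symm, h8.2⟩
      · intro u _ u' _ h
        exact congrArg (fun p : EV G × EV G => p.2.1) h
      · rintro ⟨x, y⟩ hp
        rw [mem_cut, hS, hS] at hp
        obtain ⟨h8, h9, h10⟩ := hp
        dsimp only at h8 h9 h10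
        have hne : x.1 ≠ y.1 := by
          rw [h8]
          exact fun h => h9 h.symm
        obtain ⟨-, h11, h12⟩ := adj_out h3 (hK h10) hne
        refine ⟨y.1, mem_filter.2 ⟨mem_univ _, ?_, x, y, h8, rfl, h10⟩, ?_⟩
        · exact fun h => h9 h.symm
        · rw [← h8, ← h11, ← h12]
    rw [h6]
    exact h5

/-- **The expansion keeps the vertex connectivity of edge partitions.** -/
theorem vconn (h3 : ∀ v, 3 ≤ G.degree v) {k : ℕ} (hv : VConn G k) : VConn (EG G) k := by
  classical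
  intro H' hH' h1 h2
  obtain ⟨K1, hK1, hE1⟩ := exists_ev h1
  obtain ⟨K2, hK2, hE2⟩ := exists_ev h2
  have hH : img H' ≤ G := img_le h3 hH'
  have hK2' : K2 ≤ EG G := hK2.trans sdiff_le
  have h4 : ¬ (img H').IsAcyclic := fun h =>
    not_acyclic_of_ev (ev_img h3 (hK1.trans hH') hE1) (h.anti (img_mono hK1))
  have h5 : ¬ (G \ img H').IsAcyclic := fun h => by
    refine not_acyclic_of_ev (ev_img h3 hK2' hE2) (h.anti ?_)
    intro u v huv
    rw [sdiff_adj]
    refine ⟨img_le h3 hK2' huv, fun h6 => ?_⟩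
    have h7 := (img_adj h3 hK2').1 huv
    have h8 := (img_adj h3 hH').1 h6
    have h9 := hK2 h7.2
    rw [sdiff_adj] at h9
    exact h9.2 h8.2
  refine (hv (img H') hH h4 h5).trans ?_
  have hclaim : ∀ v, ((∃ u, (img H').Adj v u) ∧ ∃ u, (G \ img H').Adj v u) →
      ∃ x : EV G, ((∃ y, H'.Adj x y) ∧ ∃ y, (EG G \ H').Adj x y) ∧ x.1 = v := by
    rintro v ⟨⟨u, hu⟩, u', hu'⟩
    by_contra hcon
    push Not at hcon
    have hall : ∀ x : EV G, x.1 = v → (∃ y, H'.Adj x y) → ∀ y, (EG G).Adj x y → H'.Adj x y := by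
      intro x hx hy y hxy
      by_contra h6
      exact hcon x ⟨hy, y, (sdiff_adj _ _ _ _).2 ⟨hxy, h6⟩⟩ hx
    have hstep : ∀ x y : EV G, x.1 = v → y.1 = v → (EG G).Adj x y → (∃ z, H'.Adj x z) →
        ∃ z, H'.Adj y z := fun x y hx _ hxy hz => ⟨x, (hall x hx hz y hxy).symm⟩
    have hzero : ∀ (j : ℕ) (hj : j < G.degree v - 2) (h0 : 0 < G.degree v - 2),
        (∃ z, H'.Adj (⟨v, ⟨j, hj⟩⟩ : EV G) z) ↔ ∃ z, H'.Adj (⟨v, ⟨0, h0⟩⟩ : EV G) z := by
      intro j
      induction j with
      | zero => intro _ _; exact Iff.rfl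
      | succ j ih =>
        intro hj h0
        have hadj : (EG G).Adj (⟨v, ⟨j, by omega⟩⟩ : EV G) ⟨v, ⟨j + 1, hj⟩⟩ :=
          Or.inl ⟨rfl, Or.inl rfl⟩
        rw [← ih (by omega) h0]
        exact ⟨hstep _ _ rfl rfl hadj.symm, hstep _ _ rfl rfl hadj⟩
    have h0 : 0 < G.degree v - 2 := by
      have := h3 v
      omega
    have h6 : ∃ z, H'.Adj (lft h3 v u) z := ⟨_, ((img_adj h3 hH').1 hu).2⟩
    rw [sdiff_adj] at hu'
    have h7 : (∃ z, H'.Adj (lft h3 v u') z) :=
      (hzero _ (att_lt h3 v u') h0).2 ((hzero _ (att_lt h3 v u) h0).1 h6)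
    have h8 := hall (lft h3 v u') rfl h7 _ (adj_lft h3 hu'.1)
    exact hu'.2 ((img_adj h3 hH').2 ⟨hu'.1.ne, h8⟩)
  have hsub : {v | (∃ u, (img H').Adj v u) ∧ ∃ u, (G \ img H').Adj v u} ⊆
      (fun x : EV G => x.1) '' {x | (∃ y, H'.Adj x y) ∧ ∃ y, (EG G \ H').Adj x y} := by
    intro v hv
    obtain ⟨x, hx, hx'⟩ := hclaim v hv
    exact ⟨x, hx, hx'⟩
  exact (Set.ncard_le_ncard hsub (Set.toFinite _)).trans (Set.ncard_image_le (Set.toFinite _))

/-- **The expansion and flows.** -/
theorem gp (h3 : ∀ v, 3 ≤ G.degree v) {F : Type} [AddCommGroup F] {P : F → Prop}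
    (h : GP P (EG G)) : GP P G := by
  classical
  obtain ⟨f, hanti, hsum, hsupp, hP⟩ := h
  refine ⟨fun u v => if G.Adj u v then f (lft h3 u v) (lft h3 v u) else 0, ?_, ?_, ?_, ?_⟩
  · intro u v
    by_cases huv : G.Adj u v
    · simp only [if_pos huv, if_pos huv.symm]
      exact hanti _ _
    · have h1 : ¬ G.Adj v u := fun h => huv h.symm
      simp only [if_neg huv, if_neg h1, neg_zero]
  · intro v
    let S : Finset (EV G) := univ.filter fun x => x.1 = v
    have hS : ∀ x, x ∈ S ↔ x.1 = v := fun x => by simp [S]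
    have h1 : ∑ p ∈ S ×ˢ (univ : Finset (EV G)), f p.1 p.2 = 0 := by
      rw [sum_product]
      exact sum_eq_zero fun x _ => hsum x
    have h2 : ∑ p ∈ S ×ˢ S, f p.1 p.2 = 0 := by
      refine sum_involution (fun p _ => (p.2, p.1)) ?_ ?_ ?_ ?_
      · rintro ⟨x, y⟩ _
        dsimp only
        rw [hanti x y, neg_add_cancel]
      · rintro ⟨x, y⟩ _ hne heq
        have h5 : y = x := congrArg Prod.fst heq
        subst h5
        exact hne (hsupp _ _ (EG G).irrefl)
      · rintro ⟨x, y⟩ hp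
        rw [mem_product] at hp ⊢
        exact ⟨hp.2, hp.1⟩
      · rintro ⟨x, y⟩ _
        rfl
    have h4 : ∑ p ∈ S ×ˢ Sᶜ, f p.1 p.2 = 0 := by
      have h5 : ∑ p ∈ S ×ˢ (univ : Finset (EV G)), f p.1 p.2 =
          ∑ p ∈ S ×ˢ S, f p.1 p.2 + ∑ p ∈ S ×ˢ Sᶜ, f p.1 p.2 := by
        rw [← sum_union]
        · congr 1
          ext ⟨x, y⟩
          simp only [mem_product, mem_univ, and_true, mem_union, mem_compl]
          tauto
        · rw [Finset.disjoint_left]
          rintro ⟨x, y⟩ hp hp'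
          rw [mem_product] at hp hp'
          exact (mem_compl.1 hp'.2) hp.2
      rw [h1, h2, zero_add] at h5
      exact h5.symm
    have h6 : ∑ u ∈ univ.filter (fun u => G.Adj v u), f (lft h3 v u) (lft h3 u v) =
        ∑ p ∈ (univ.filter fun u => G.Adj v u).image fun u => (lft h3 v u, lft h3 u v),
          f p.1 p.2 := by
      rw [sum_image]
      intro u _ u' _ huu
      exact congrArg (fun p : EV G × EV G => p.2.1) huu
    show ∑ u, (if G.Adj v u then f (lft h3 v u) (lft h3 u v) else 0) = 0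
    rw [← sum_filter, h6, ← h4]
    refine sum_subset ?_ ?_
    · intro p hp
      obtain ⟨u, hu, rfl⟩ := mem_image.1 hp
      rw [mem_product, mem_compl, hS, hS]
      exact ⟨rfl, fun h7 => (mem_filter.1 hu).2.ne h7.symm⟩
    · rintro ⟨x, y⟩ hp hp'
      rw [mem_product, mem_compl, hS, hS] at hp
      dsimp only at hp ⊢
      refine hsupp _ _ fun hxy => hp' ?_
      have hne : x.1 ≠ y.1 := by
        rw [hp.1]
        exact fun h => hp.2 h.symm
      obtain ⟨h7, h8, h9⟩ := adj_out h3 hxy hne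
      rw [mem_image]
      refine ⟨y.1, mem_filter.2 ⟨mem_univ _, ?_⟩, ?_⟩
      · rw [← hp.1]
        exact h7
      · rw [← hp.1, ← h8, ← h9]
  · intro u v huv
    exact if_neg huv
  · intro u v huv
    simp only [if_pos huv]
    exact hP _ _ (adj_lft h3 huv)

/-- **From cubic graphs to graphs with all degrees at least three.** -/
theorem expand {F : Type} [AddCommGroup F] {P : F → Prop} {k : ℕ}
    (h : ∀ (V : Type) [Fintype V] [DecidableEq V] (G : SimpleGraph V) [DecidableRel G.Adj],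
      (∀ v, G.degree v = 3) → VConn G k → GP P G)
    (V : Type) [Fintype V] [DecidableEq V] (G : SimpleGraph V) [DecidableRel G.Adj]
    (h3 : ∀ v, 3 ≤ G.degree v) (hv : VConn G k) : GP P G := by
  classical
  refine gp h3 (h (EV G) (EG G) (fun x => ?_) (vconn h3 hv))
  rw [← deg_three h3 x, ← (EG G).card_neighborFinset_eq_degree, ← Set.ncard_coe_finset,
    (EG G).coe_neighborFinset]

end Pool.Agent.K5.Mat.Cat
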