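import Mathlib
import Pool.Agent.Work.MP_974d84_co_k5.DefsM

/-!
# The matroid form (M): from vertically connected cographic matroids to simple graphs
-/

set_option linter.unusedSectionVars false

namespace Pool.Agent.K5.Mat

open Finset SimpleGraph

variable {ι : Type} [Fintype ι] [DecidableEq ι] {W : Type} [Fintype W] [DecidableEq W]

section basic

variable {m : ℕ} {A : ι → Fin m → ZMod 2}

theorem z2_cases (x : ZMod 2) : x = 0 ∨ x = 1 := by
  revert x; decide

theorem z2_add_self (x : ZMod 2) : x + x = 0 := by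
  revert x; decide

theorem z2_eq_of_add {x y : ZMod 2} (h : x + y = 0) : x = y := by
  revert x y; decide

theorem vec_add_self (v : Fin m → ZMod 2) : v + v = 0 := by
  funext i
  exact z2_add_self _

/-- Elements of a span as sums. -/
theorem mem_span_iff {X : Set ι} {v : Fin m → ZMod 2} :
    v ∈ Submodule.span (ZMod 2) (A '' X) ↔
      ∃ c : ι → ZMod 2, (∀ j, j ∉ X → c j = 0) ∧ ∑ j, c j • A j = v := by
  rw [Finsupp.mem_span_image_iff_linearCombination]
  constructor
  · rintro ⟨l, hl, rfl⟩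
    refine ⟨l, fun j hj => ?_, ?_⟩
    · by_contra hne
      exact hj (hl (by simpa using hne))
    · rw [Finsupp.linearCombination_apply, Finsupp.sum_fintype]
      intro i
      simp
  · rintro ⟨c, hc, rfl⟩
    refine ⟨Finsupp.equivFunOnFinite.symm c, ?_, ?_⟩
    · intro j hj
      by_contra hjX
      exact (Finsupp.mem_support_iff.1 hj) (hc j hjX)
    · rw [Finsupp.linearCombination_apply, Finsupp.sum_fintype]
      · rfl
      · intro i
        simp

/-- A dependency gives a cut. -/
theorem cut_of_mem {s t : ι → W} (h : Cog A s t) {X : Set ι} {e : ι} (he : e ∉ X)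
    (hmem : A e ∈ Submodule.span (ZMod 2) (A '' X)) :
    ∃ S : W → ZMod 2, S (s e) ≠ S (t e) ∧ ∀ j, j ∉ X → j ≠ e → S (s j) = S (t j) := by
  obtain ⟨c, hc, hsum⟩ := mem_span_iff.1 hmem
  have h0 : ∑ j, (c j + if j = e then 1 else 0) • A j = 0 := by
    simp only [add_smul, sum_add_distrib, hsum, ite_smul, one_smul, zero_smul, sum_ite_eq', mem_univ,
      if_true]
    exact vec_add_self _
  obtain ⟨S, hS⟩ := (h _).1 h0
  refine ⟨S, ?_, ?_⟩
  · intro heq
    have := hS e
    rw [heq, z2_add_self, hc e he, if_pos rfl, zero_add] at this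
    exact one_ne_zero this
  · intro j hj hje
    have := hS j
    rw [hc j hj, if_neg hje, zero_add] at this
    exact z2_eq_of_add this.symm

theorem rk_mono {X Y : Set ι} (h : X ⊆ Y) : rk A X ≤ rk A Y :=
  Submodule.finrank_mono (Submodule.span_mono (Set.image_mono h))

theorem rk_lt_of_notMem {X : Set ι} {e : ι} (h : A e ∉ Submodule.span (ZMod 2) (A '' X)) :
    rk A X < rk A Set.univ := by
  refine Submodule.finrank_lt_finrank_of_lt (lt_of_le_of_ne
    (Submodule.span_mono (Set.image_mono (Set.subset_univ X))) ?_)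
  intro heq
  apply h
  rw [heq]
  exact Submodule.subset_span ⟨e, Set.mem_univ _, rfl⟩

theorem rk_le_ncard (X : Set ι) : rk A X ≤ X.ncard := by
  classical
  have h1 : A '' X = ((X.toFinset.image A : Finset (Fin m → ZMod 2)) : Set _) := by
    simp
  unfold rk
  rw [h1]
  refine (finrank_span_finset_le_card _).trans (card_image_le.trans ?_)
  rw [Set.ncard_eq_toFinset_card']

end basic

/-- The intersection of the spans of complementary sets is spanned by the common vertices. -/
theorem rk_add_le {m : ℕ} {A : ι → Fin m → ZMod 2} {s t : ι → W} (h : Cog A s t) (X : Set ι) :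
    rk A X + rk A Xᶜ ≤ rk A Set.univ +
      {w | (∃ j ∈ X, s j = w ∨ t j = w) ∧ ∃ j ∈ Xᶜ, s j = w ∨ t j = w}.ncard := by
  classical
  set C : Set W := {w | (∃ j ∈ X, s j = w ∨ t j = w) ∧ ∃ j ∈ Xᶜ, s j = w ∨ t j = w} with hC
  set b : W → Fin m → ZMod 2 := fun w =>
    ∑ j, (if j ∈ X then ((if s j = w then 1 else 0) + (if t j = w then 1 else 0) : ZMod 2)
      else 0) • A j with hb
  have hsup : Submodule.span (ZMod 2) (A '' X) ⊔ Submodule.span (ZMod 2) (A '' Xᶜ) =
      Submodule.span (ZMod 2) (A '' Set.univ) := by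
    rw [← Submodule.span_union, ← Set.image_union, Set.union_compl_self]
  have hinf : Submodule.span (ZMod 2) (A '' X) ⊓ Submodule.span (ZMod 2) (A '' Xᶜ) ≤
      Submodule.span (ZMod 2) ((C.toFinset.image b : Finset (Fin m → ZMod 2)) : Set (Fin m → ZMod 2)) := by
    rintro v ⟨hv1, hv2⟩
    obtain ⟨c, hc, hcs⟩ := mem_span_iff.1 hv1
    obtain ⟨c', hc', hcs'⟩ := mem_span_iff.1 hv2
    have h0 : ∑ j, (c j + c' j) • A j = 0 := by
      simp only [add_smul, sum_add_distrib, hcs, hcs']
      exact vec_add_self _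
    obtain ⟨S, hS⟩ := (h _).1 h0
    have hv : v = ∑ w, S w • b w := by
      rw [← hcs]
      simp only [hb, smul_sum, smul_smul]
      rw [sum_comm]
      refine sum_congr rfl fun j _ => ?_
      rw [← sum_smul]
      congr 1
      by_cases hj : j ∈ X
      · have h1 : c' j = 0 := hc' j (fun h => h hj)
        have h2 := hS j
        rw [h1, add_zero] at h2
        rw [h2]
        simp [hj, mul_add, sum_add_distrib]
      · simp [hj, hc j hj]
    rw [hv]
    refine Submodule.sum_mem _ fun w _ => Submodule.smul_mem _ _ ?_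
    by_cases hw : w ∈ C
    · refine Submodule.subset_span ?_
      simp only [coe_image, Set.coe_toFinset]
      exact ⟨w, hw, rfl⟩
    · have hbw : b w = 0 := by
        by_cases h1 : ∃ j ∈ X, s j = w ∨ t j = w
        · have h2 : ¬ ∃ j ∈ Xᶜ, s j = w ∨ t j = w := fun h2 => hw ⟨h1, h2⟩
          have h3 := (h fun j => (if s j = w then 1 else 0) + (if t j = w then 1 else 0)).2
            ⟨fun u => if u = w then 1 else 0, fun j => rfl⟩
          rw [← h3]
          simp only [hb]
          refine sum_congr rfl fun j _ => ?_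
          by_cases hj : j ∈ X
          · simp [hj]
          · have h4 : s j ≠ w := fun h => h2 ⟨j, hj, Or.inl h⟩
            have h5 : t j ≠ w := fun h => h2 ⟨j, hj, Or.inr h⟩
            simp [hj, h4, h5]
        · simp only [hb]
          refine sum_eq_zero fun j _ => ?_
          by_cases hj : j ∈ X
          · have h4 : s j ≠ w := fun h => h1 ⟨j, hj, Or.inl h⟩
            have h5 : t j ≠ w := fun h => h1 ⟨j, hj, Or.inr h⟩
            simp [h4, h5]
          · simp [hj]
      rw [hbw]
      exact Submodule.zero_mem _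
  have h1 := Submodule.finrank_sup_add_finrank_inf_eq (Submodule.span (ZMod 2) (A '' X))
    (Submodule.span (ZMod 2) (A '' Xᶜ))
  have h2 := Submodule.finrank_mono hinf
  have h3 : Module.finrank (ZMod 2) (Submodule.span (ZMod 2)
      ((C.toFinset.image b : Finset (Fin m → ZMod 2)) : Set (Fin m → ZMod 2))) ≤ C.ncard := by
    refine (finrank_span_finset_le_card _).trans (card_image_le.trans ?_)
    rw [Set.ncard_eq_toFinset_card']
  rw [hsup] at h1
  unfold rk
  omega

/-- All vertices may be supposed to be ends of edges. -/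
theorem exists_cover {m : ℕ} {A : ι → Fin m → ZMod 2} {s t : ι → W} (h : Cog A s t) :
    ∃ (V : Type) (_ : Fintype V) (_ : DecidableEq V) (s' t' : ι → V), Cog A s' t' ∧
      (∀ v, ∃ j, s' j = v ∨ t' j = v) ∧
      ∀ {F : Type} [AddCommGroup F] {P : F → Prop}, MP P s' t' → MP P s t := by
  classical
  refine ⟨{w : W // ∃ j, s j = w ∨ t j = w}, inferInstance, inferInstance,
    fun j => ⟨s j, j, Or.inl rfl⟩, fun j => ⟨t j, j, Or.inr rfl⟩, ?_, ?_, ?_⟩
  · intro c
    rw [h c]
    constructor
    · rintro ⟨S, hS⟩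
      exact ⟨fun v => S v.1, hS⟩
    · rintro ⟨S, hS⟩
      refine ⟨fun w => if hw : ∃ j, s j = w ∨ t j = w then S ⟨w, hw⟩ else 0, fun j => ?_⟩
      have h1 : ∃ i, s i = s j ∨ t i = s j := ⟨j, Or.inl rfl⟩
      have h2 : ∃ i, s i = t j ∨ t i = t j := ⟨j, Or.inr rfl⟩
      simp only [dif_pos h1, dif_pos h2]
      exact hS j
  · rintro ⟨w, j, hj⟩
    refine ⟨j, hj.imp (fun h => ?_) fun h => ?_⟩
    · exact Subtype.ext h
    · exact Subtype.ext h
  · rintro F _ P ⟨f, hf, hP⟩
    refine ⟨f, fun w => ?_, hP⟩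
    by_cases hw : ∃ j, s j = w ∨ t j = w
    · have := hf ⟨w, hw⟩
      simpa only [Subtype.mk.injEq] using this
    · rw [filter_false_of_mem, filter_false_of_mem]
      · exact fun j _ h => hw ⟨j, Or.inr h⟩
      · exact fun j _ h => hw ⟨j, Or.inl h⟩


section graph

variable {m : ℕ} {A : ι → Fin m → ZMod 2} {s t : ι → W}

/-- The simple graph of a multigraph without loops. -/
def gr (s t : ι → W) : SimpleGraph W where
  Adj u v := u ≠ v ∧ ∃ j, s(s j, t j) = s(u, v)
  symm := ⟨by
    rintro u v ⟨h, j, hj⟩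
    exact ⟨h.symm, j, by rw [hj, Sym2.eq_swap]⟩⟩
  loopless := ⟨fun u h => h.1 rfl⟩

/-- A set of elements which misses a cyclic graph does not span. -/
theorem rk_lt_of_cyclic (h : Cog A s t) {H : SimpleGraph W} (hH : H ≤ gr s t)
    (hc : ¬ H.IsAcyclic) {X : Set ι} (hX : ∀ j ∈ X, ¬ H.Adj (s j) (t j)) :
    rk A X < rk A Set.univ := by
  rw [SimpleGraph.isAcyclic_iff_forall_adj_isBridge] at hc
  simp only [not_forall] at hc
  obtain ⟨u, v, huv, hb⟩ := hc
  rw [SimpleGraph.isBridge_iff, not_not] at hb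
  obtain ⟨-, e, he⟩ := hH huv
  have heH : H.Adj (s e) (t e) := by
    rcases Sym2.eq_iff.1 he with ⟨h1, h2⟩ | ⟨h1, h2⟩
    · rw [h1, h2]
      exact huv
    · rw [h1, h2]
      exact huv.symm
  refine rk_lt_of_notMem (e := e) fun hmem => ?_
  obtain ⟨S, hS, hS'⟩ := cut_of_mem h (fun heX => hX e heX heH) hmem
  have key : ∀ a b, (H.deleteEdges {s(u, v)}).Adj a b → S a = S b := by
    intro a b hab
    rw [SimpleGraph.deleteEdges_adj] at hab
    obtain ⟨hab1, hab2⟩ := hab
    obtain ⟨hne, j, hj⟩ := hH hab1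
    have hjH : H.Adj (s j) (t j) := by
      rcases Sym2.eq_iff.1 hj with ⟨h1, h2⟩ | ⟨h1, h2⟩
      · rw [h1, h2]
        exact hab1
      · rw [h1, h2]
        exact hab1.symm
    have hje : j ≠ e := by
      rintro rfl
      apply hab2
      rw [Set.mem_singleton_iff, ← hj, he]
    have h1 := hS' j (fun hjX => hX j hjX hjH) hje
    rcases Sym2.eq_iff.1 hj with ⟨h3, h4⟩ | ⟨h3, h4⟩
    · rw [← h3, ← h4, h1]
    · rw [← h3, ← h4, h1]
  have hSuv : S u = S v := by
    obtain ⟨p⟩ := hb
    have key2 : ∀ a b (_ : (H.deleteEdges {s(u, v)}).Walk a b), S a = S b := by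
      intro a b q
      induction q with
      | nil => rfl
      | cons hab _ ih => exact (key _ _ hab).trans ih
    exact key2 _ _ p
  apply hS
  rcases Sym2.eq_iff.1 he with ⟨h3, h4⟩ | ⟨h3, h4⟩
  · rw [h3, h4, hSuv]
  · rw [h3, h4, hSuv]

theorem no_loop (h : Cog A s t) (hr : 2 ≤ rk A Set.univ) {k : ℕ} (hk : 1 ≤ k) (hv : VC A k)
    (j : ι) : s j ≠ t j := by
  intro hst
  have h1 : rk A {j}ᶜ < rk A Set.univ := by
    refine rk_lt_of_notMem (e := j) fun hmem => ?_
    obtain ⟨S, hS, -⟩ := cut_of_mem h (by simp) hmem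
    exact hS (by rw [hst])
  have h2 : rk A {j} ≤ 1 := (rk_le_ncard _).trans (by simp)
  have := hv {j} (by omega) h1
  omega

theorem no_par (h : Cog A s t) (hr : 3 ≤ rk A Set.univ) {k : ℕ} (hk : 2 ≤ k) (hv : VC A k)
    {i j : ι} (hst : s(s i, t i) = s(s j, t j)) : i = j := by
  by_contra hij
  have h1 : rk A {i, j}ᶜ < rk A Set.univ := by
    refine rk_lt_of_notMem (e := i) fun hmem => ?_
    obtain ⟨S, hS, hS'⟩ := cut_of_mem h (by simp) hmem
    have := hS' j (by simp) (Ne.symm hij)
    apply hS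
    rcases Sym2.eq_iff.1 hst with ⟨h3, h4⟩ | ⟨h3, h4⟩
    · rw [h3, h4, this]
    · rw [h3, h4, this]
  have h2 : rk A {i, j} ≤ 2 := (rk_le_ncard _).trans (Set.ncard_pair hij).le
  have := hv {i, j} (by omega) h1
  omega

/-- The other end of an edge. -/
def oth (s t : ι → W) (w : W) (j : ι) : W := if s j = w then t j else s j

theorem oth_spec {w : W} {j : ι} (hj : s j = w ∨ t j = w) : s(s j, t j) = s(w, oth s t w j) := by
  unfold oth
  split_ifs with h
  · rw [h]
  · rcases hj with hj | hj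
    · exact absurd hj h
    · rw [hj, Sym2.eq_swap]

theorem star_sum (h : Cog A s t) (hl : ∀ j, s j ≠ t j) (w : W) :
    ∑ j ∈ univ.filter (fun j => s j = w ∨ t j = w), A j = 0 := by
  rw [← (h fun j => (if s j = w then 1 else 0) + (if t j = w then 1 else 0)).2
    ⟨fun u => if u = w then 1 else 0, fun j => rfl⟩, sum_filter]
  refine sum_congr rfl fun j _ => ?_
  by_cases h1 : s j = w
  · have h2 : t j ≠ w := fun h2 => hl j (h1.trans h2.symm)
    simp [h1, h2]
  · by_cases h2 : t j = w
    · simp [h1, h2]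
    · simp [h1, h2]

theorem star_card (h : Cog A s t) (hl : ∀ j, s j ≠ t j) (h0 : ∀ j, A j ≠ 0)
    (hi : Function.Injective A) {w : W} (hw : ∃ j, s j = w ∨ t j = w) :
    3 ≤ (univ.filter (fun j => s j = w ∨ t j = w)).card := by
  have h1 := star_sum h hl w
  set E := univ.filter (fun j => s j = w ∨ t j = w) with hE
  by_contra hlt
  have h2 : E.card = 0 ∨ E.card = 1 ∨ E.card = 2 := by omega
  rcases h2 with h2 | h2 | h2
  · obtain ⟨j, hj⟩ := hw
    have : j ∈ E := by simp [hE, hj]
    rw [card_eq_zero.1 h2] at this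
    simp at this
  · obtain ⟨j, hj⟩ := card_eq_one.1 h2
    rw [hj, sum_singleton] at h1
    exact h0 j h1
  · obtain ⟨i, j, hij, hj⟩ := card_eq_two.1 h2
    rw [hj, sum_pair hij] at h1
    apply hij
    apply hi
    have h3 : A i + A i = A i + A j := by rw [h1, vec_add_self]
    exact add_left_cancel h3

theorem degree_gr (hl : ∀ j, s j ≠ t j) (hp : ∀ i j, s(s i, t i) = s(s j, t j) → i = j)
    [DecidableRel (gr s t).Adj] (w : W) :
    (gr s t).degree w = (univ.filter (fun j => s j = w ∨ t j = w)).card := by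
  rw [← SimpleGraph.card_neighborFinset_eq_degree]
  have h1 : (gr s t).neighborFinset w =
      (univ.filter (fun j => s j = w ∨ t j = w)).image (oth s t w) := by
    ext u
    rw [SimpleGraph.mem_neighborFinset, mem_image]
    constructor
    · rintro ⟨hne, j, hj⟩
      have hw : s j = w ∨ t j = w := by
        rcases Sym2.eq_iff.1 hj with ⟨h3, h4⟩ | ⟨h3, h4⟩
        · exact Or.inl h3
        · exact Or.inr h4
      refine ⟨j, by simp [hw], ?_⟩
      have := (oth_spec hw).symm.trans hj
      rcases Sym2.eq_iff.1 this with ⟨h3, h4⟩ | ⟨h3, h4⟩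
      · exact h4
      · exact absurd h3 hne
    · rintro ⟨j, hj, rfl⟩
      have hw : s j = w ∨ t j = w := by simpa using hj
      refine ⟨?_, j, oth_spec hw⟩
      intro h
      have h2 := oth_spec hw
      rw [← h] at h2
      rcases Sym2.eq_iff.1 h2 with ⟨h3, h4⟩ | ⟨h3, h4⟩
      · exact hl j (h3.trans h4.symm)
      · exact hl j (h3.trans h4.symm)
  rw [h1, card_image_of_injOn]
  intro i hi j hj hij
  have h2 : s i = w ∨ t i = w := by simpa using hi
  have h3 : s j = w ∨ t j = w := by simpa using hj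
  apply hp
  have h4 : oth s t w i = oth s t w j := hij
  rw [oth_spec h2, oth_spec h3, h4]

/-- Flows of the simple graph give flows of the multigraph. -/
theorem mp_of_gp (hl : ∀ j, s j ≠ t j) (hp : ∀ i j, s(s i, t i) = s(s j, t j) → i = j)
    {F : Type} [AddCommGroup F] {P : F → Prop} (hG : GP P (gr s t)) : MP P s t := by
  classical
  obtain ⟨f, hf1, hf2, hf3, hf4⟩ := hG
  refine ⟨fun j => f (s j) (t j), ?_, fun j => hf4 _ _ ⟨hl j, j, rfl⟩⟩
  intro w
  have h1 : ∑ u, f w u = ∑ u, ∑ j, if s(s j, t j) = s(w, u) then f w u else 0 := by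
    refine sum_congr rfl fun u _ => ?_
    by_cases hu : (gr s t).Adj w u
    · obtain ⟨hne, j, hj⟩ := hu
      rw [sum_eq_single j, if_pos hj]
      · intro i _ hij
        rw [if_neg]
        intro h
        exact hij (hp _ _ (h.trans hj.symm))
      · simp
    · rw [hf3 w u hu]
      simp
  have h2 : ∑ u, (∑ j, if s(s j, t j) = s(w, u) then f w u else 0) =
      ∑ j, ((if s j = w then f (s j) (t j) else 0) - (if t j = w then f (s j) (t j) else 0)) := by
    rw [sum_comm]
    refine sum_congr rfl fun j _ => ?_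
    by_cases h3 : s j = w
    · have h4 : t j ≠ w := fun h4 => hl j (h3.trans h4.symm)
      rw [sum_eq_single (t j), if_pos (by rw [h3]), if_pos h3, if_neg h4, sub_zero, h3]
      · intro u _ hu
        rw [if_neg]
        intro h
        rcases Sym2.eq_iff.1 h with ⟨h5, h6⟩ | ⟨h5, h6⟩
        · exact hu h6.symm
        · exact h4 h6
      · simp
    · by_cases h4 : t j = w
      · rw [sum_eq_single (s j), if_pos (by rw [h4, Sym2.eq_swap]), if_neg h3, if_pos h4, zero_sub,
          ← hf1, h4]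
        · intro u _ hu
          rw [if_neg]
          intro h
          rcases Sym2.eq_iff.1 h with ⟨h5, h6⟩ | ⟨h5, h6⟩
          · exact h3 h5
          · exact hu h5.symm
        · simp
      · rw [if_neg h3, if_neg h4, sub_zero]
        refine sum_eq_zero fun u _ => ?_
        rw [if_neg]
        intro h
        rcases Sym2.eq_iff.1 h with ⟨h5, h6⟩ | ⟨h5, h6⟩
        · exact h3 h5
        · exact h4 h6
  rw [← h1, hf2 w, sum_sub_distrib, ← sum_filter, ← sum_filter] at h2
  exact sub_eq_zero.1 h2.symm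

/-- The connectivity of the simple graph. -/
theorem vconn_gr (h : Cog A s t) (hl : ∀ j, s j ≠ t j) {k : ℕ} (hv : VC A k) :
    VConn (gr s t) k := by
  intro H hH h1 h2
  set X : Set ι := {j | H.Adj (s j) (t j)} with hX
  have h3 : rk A Xᶜ < rk A Set.univ := rk_lt_of_cyclic h hH h1 fun j hj => hj
  have h4 : rk A X < rk A Set.univ := by
    refine rk_lt_of_cyclic h sdiff_le h2 fun j hj hj' => ?_
    rw [SimpleGraph.sdiff_adj] at hj'
    exact hj'.2 hj
  have h5 := hv X h4 h3
  have h6 := rk_add_le h X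
  have h7 : {w | (∃ j ∈ X, s j = w ∨ t j = w) ∧ ∃ j ∈ Xᶜ, s j = w ∨ t j = w}.ncard ≤
      {v | (∃ u, H.Adj v u) ∧ ∃ u, (gr s t \ H).Adj v u}.ncard := by
    refine Set.ncard_le_ncard ?_ (Set.toFinite _)
    rintro w ⟨⟨i, hi, hiw⟩, j, hj, hjw⟩
    refine ⟨?_, ?_⟩
    · rcases hiw with hiw | hiw
      · exact ⟨t i, by rw [← hiw]; exact hi⟩
      · exact ⟨s i, by rw [← hiw]; exact SimpleGraph.Adj.symm hi⟩
    · have h8 : (gr s t \ H).Adj (s j) (t j) := by
        rw [SimpleGraph.sdiff_adj]
        exact ⟨⟨hl j, j, rfl⟩, hj⟩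
      rcases hjw with hjw | hjw
      · exact ⟨t j, by rw [← hjw]; exact h8⟩
      · exact ⟨s j, by rw [← hjw]; exact h8.symm⟩
  omega

end graph

/-- M2b: rank at least three. -/
theorem to_graph {m : ℕ} {A : ι → Fin m → ZMod 2} (h0 : ∀ j, A j ≠ 0)
    (hi : Function.Injective A) {s t : ι → W} (h : Cog A s t) (hr : 3 ≤ rk A Set.univ) {k : ℕ}
    (hk : 2 ≤ k) (hv : VC A k) : ∃ (V : Type) (_ : Fintype V) (_ : DecidableEq V)
      (G : SimpleGraph V) (_ : DecidableRel G.Adj), (∀ v, 3 ≤ G.degree v) ∧ VConn G k ∧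
      ∀ {F : Type} [AddCommGroup F] {P : F → Prop}, (∀ x, P x → P (-x)) → GP P G → MP P s t := by
  classical
  obtain ⟨V, _, _, s', t', h', hcov, hmp⟩ := exists_cover h
  have hl : ∀ j, s' j ≠ t' j := no_loop h' (by omega) (by omega) hv
  have hp : ∀ i j, s(s' i, t' i) = s(s' j, t' j) → i = j := fun i j => no_par h' hr hk hv
  refine ⟨V, inferInstance, inferInstance, gr s' t', Classical.decRel _, ?_, vconn_gr h' hl hv, ?_⟩
  · intro v
    rw [degree_gr hl hp]
    exact star_card h' hl h0 hi (hcov v)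
  · intro F _ P _ hG
    exact hmp (mp_of_gp hl hp hG)

end Pool.Agent.K5.Mat
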