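import Mathlib
import Pool.Agent.Work.MP_974d84_co_k5.DefsM

/-!
# The matroid form (M): parallel elements
-/

set_option linter.unusedSectionVars false
set_option linter.unusedVariables false

namespace Pool.Agent.K5.Mat

open Finset SimpleGraph

variable {ι : Type} [Fintype ι] [DecidableEq ι] {W : Type} [Fintype W] [DecidableEq W]

namespace Par

/-- The net flow through a cut vanishes. -/
theorem cut_sum {F : Type} [AddCommGroup F] {s t : ι → W} {f : ι → F} (hf : Flo s t f)
    (S : W → ZMod 2) :
    ∑ j, (if S (s j) = 1 then f j else 0) = ∑ j, (if S (t j) = 1 then f j else 0) := by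
  have key : ∀ g : ι → W, ∑ w ∈ univ.filter (fun w => S w = 1),
      ∑ j ∈ univ.filter (fun j => g j = w), f j = ∑ j, (if S (g j) = 1 then f j else 0) := by
    intro g
    simp only [sum_filter]
    have : ∀ w, (if S w = 1 then ∑ j, (if g j = w then f j else 0) else 0)
        = ∑ j, (if g j = w then (if S w = 1 then f j else 0) else 0) := by
      intro w
      by_cases h : S w = 1
      · simp [h]
      · simp [h]
    rw [sum_congr rfl fun w _ => this w, sum_comm]
    refine sum_congr rfl fun j _ => ?_
    rw [sum_ite_eq]
    simp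
  rw [← key s, ← key t]
  exact sum_congr rfl fun w _ => hf w

theorem sum_sub {M : Type*} [AddCommMonoid M] (G : ι → M) (a : ι) (h : G a = 0) :
    ∑ i : {j // j ≠ a}, G i.1 = ∑ i, G i := by
  rw [Fintype.sum_eq_add_sum_subtype_ne G a, h, zero_add]

/-- A set of elements other than `e'`, with `e'` added if `e` is in it. -/
def hat {e e' : ι} (hne : e ≠ e') (X : Set {j // j ≠ e'}) : Set ι :=
  {j | (∃ hj : j ≠ e', (⟨j, hj⟩ : {j // j ≠ e'}) ∈ X) ∨
    (j = e' ∧ (⟨e, hne⟩ : {j // j ≠ e'}) ∈ X)}

theorem hat_compl {e e' : ι} (hne : e ≠ e') (X : Set {j // j ≠ e'}) :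
    (hat hne X)ᶜ = hat hne Xᶜ := by
  ext j
  simp only [hat, Set.mem_compl_iff, Set.mem_ofPred_eq]
  by_cases hj : j = e'
  · simp [hj]
  · simp [hj]

theorem hat_univ {e e' : ι} (hne : e ≠ e') : hat hne Set.univ = Set.univ := by
  ext j
  simp only [hat, Set.mem_univ, and_true, Set.mem_ofPred_eq, exists_prop, iff_true]
  exact (em (j = e')).symm

theorem img {m : ℕ} {A : ι → Fin m → ZMod 2} {e e' : ι} (hne : e ≠ e') (he : A e = A e')
    (X : Set {j // j ≠ e'}) : (fun j : {j // j ≠ e'} => A j.1) '' X = A '' hat hne X := by
  ext v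
  simp only [hat, Set.mem_image, Set.mem_ofPred_eq]
  constructor
  · rintro ⟨j, hj, rfl⟩
    exact ⟨j.1, Or.inl ⟨j.2, hj⟩, rfl⟩
  · rintro ⟨j, ⟨hj, hX⟩ | ⟨rfl, hX⟩, rfl⟩
    · exact ⟨⟨j, hj⟩, hX, rfl⟩
    · exact ⟨⟨e, hne⟩, hX, he⟩

theorem rk_hat {m : ℕ} {A : ι → Fin m → ZMod 2} {e e' : ι} (hne : e ≠ e') (he : A e = A e')
    (X : Set {j // j ≠ e'}) : rk (fun j : {j // j ≠ e'} => A j.1) X = rk A (hat hne X) := by
  unfold rk
  rw [img hne he]

end Par

open Par in
/-- M0. Parallel elements: contraction of an edge. -/
theorem par_step {m : ℕ} {A : ι → Fin m → ZMod 2} (h0 : ∀ j, A j ≠ 0) {s t : ι → W}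
    (h : Cog A s t) {k : ℕ} (hv : VC A k) {e e' : ι} (hne : e ≠ e') (he : A e = A e') :
    ∃ s' t' : {j // j ≠ e'} → W, Cog (fun j : {j // j ≠ e'} => A j.1) s' t' ∧
      VC (fun j : {j // j ≠ e'} => A j.1) k ∧
      ∀ {F : Type} [AddCommGroup F] {P : F → Prop}, (∀ x, P x → P (-x)) → MP P s' t' →
        MP P s t := by
  classical
  -- the cut `{e, e'}`
  obtain ⟨S, hS⟩ := (h (fun j => if j = e ∨ j = e' then 1 else 0)).1 (by
    have h1 : ∀ j, (if j = e ∨ j = e' then (1 : ZMod 2) else 0) • A j
        = (if j = e then A e else 0) + (if j = e' then A e' else 0) := by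
      intro j
      by_cases h1 : j = e
      · have : ¬ e = e' := hne
        subst h1
        simp [this]
      · by_cases h2 : j = e'
        · subst h2
          simp [h1]
        · simp [h1, h2]
    rw [sum_congr rfl fun j _ => h1 j, sum_add_distrib, sum_ite_eq', sum_ite_eq']
    simp only [mem_univ, if_true]
    rw [← he]
    funext i
    have h2 : ∀ a : ZMod 2, a + a = 0 := by decide
    exact h2 _)
  have hSe : S (s e) + S (t e) = 1 := by rw [← hS e]; simp
  have hSe' : S (s e') + S (t e') = 1 := by rw [← hS e']; simp
  have hSj : ∀ j, j ≠ e → j ≠ e' → S (s j) = S (t j) := by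
    intro j h1 h2
    have h3 := hS j
    simp only [h1, h2, or_self, if_false] at h3
    have h4 : ∀ a b : ZMod 2, 0 = a + b → a = b := by decide
    exact h4 _ _ h3
  have hxy : s e' ≠ t e' := by
    intro hxy
    rw [hxy] at hSe'
    have h2 : ∀ a : ZMod 2, a + a ≠ 1 := by decide
    exact h2 _ hSe'
  let r : W → W := fun w => if w = t e' then s e' else w
  have hrt : r (t e') = s e' := if_pos rfl
  have hrs : r (s e') = s e' := if_neg hxy
  have hrw : ∀ w, w ≠ t e' → r w = w := fun w hw => if_neg hw
  refine ⟨fun j => r (s j.1), fun j => r (t j.1), ?_, ?_, ?_⟩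
  · intro c
    let c' : ι → ZMod 2 := fun j => if hj : j ≠ e' then c ⟨j, hj⟩ else 0
    have hc' : ∀ j : {j // j ≠ e'}, c' j.1 = c j := fun j => dif_pos j.2
    have hce : c' e' = 0 := dif_neg (by simp)
    have hext : ∑ j : {j // j ≠ e'}, c j • A j.1 = ∑ j, c' j • A j := by
      rw [← sum_sub (fun j => c' j • A j) e' (by rw [hce, zero_smul])]
      exact sum_congr rfl fun j _ => by rw [hc']
    rw [hext, h c']
    constructor
    · rintro ⟨U, hU⟩
      have h1 : U (s e') = U (t e') := by
        have h2 := hU e'
        rw [hce] at h2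
        have h4 : ∀ a b : ZMod 2, 0 = a + b → a = b := by decide
        exact h4 _ _ h2
      have h3 : ∀ w, U (r w) = U w := by
        intro w
        by_cases hw : w = t e'
        · rw [hw, hrt, h1]
        · rw [hrw w hw]
      refine ⟨U, fun j => ?_⟩
      rw [h3, h3, ← hc', hU]
    · rintro ⟨U, hU⟩
      refine ⟨fun w => U (r w), fun j => ?_⟩
      by_cases hj : j = e'
      · subst hj
        rw [hce]
        show 0 = U (r (s j)) + U (r (t j))
        rw [hrs, hrt]
        have h2 : ∀ a : ZMod 2, 0 = a + a := by decide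
        exact h2 _
      · have := hU ⟨j, hj⟩
        rw [← this]
        exact hc' ⟨j, hj⟩
  · intro X h1 h2
    rw [rk_hat hne he, rk_hat hne he] at h1 h2 ⊢
    rw [rk_hat hne he]
    rw [hat_univ] at h1 h2 ⊢
    rw [← hat_compl] at h2 ⊢
    exact hv (hat hne X) h1 h2
  · intro F _ P hP hf
    obtain ⟨f', hf', hPf⟩ := hf
    -- the values on the edges other than `e'`
    let g : ι → F := fun j => if hj : j ≠ e' then f' ⟨j, hj⟩ else 0
    have hg : ∀ j : {j // j ≠ e'}, g j.1 = f' j := fun j => dif_pos j.2
    have hge : g e' = 0 := dif_neg (by simp)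
    have hsub : ∀ (u : ι → W) (w : W),
        ∑ j ∈ univ.filter (fun j : {j // j ≠ e'} => r (u j.1) = w), f' j
          = ∑ j ∈ univ.filter (fun j => r (u j) = w), g j := by
      intro u w
      rw [sum_filter, sum_filter, ← sum_sub (fun j => if r (u j) = w then g j else 0) e'
        (by simp [hge])]
      exact sum_congr rfl fun j _ => by rw [hg]
    have hcons : ∀ w, ∑ j ∈ univ.filter (fun j => r (s j) = w), g j
        = ∑ j ∈ univ.filter (fun j => r (t j) = w), g j := by
      intro w
      rw [← hsub s, ← hsub t]
      exact hf' w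
    -- the value on `e'`
    let a : F := ∑ j ∈ univ.filter (fun j => t j = s e'), g j
      - ∑ j ∈ univ.filter (fun j => s j = s e'), g j
    let f : ι → F := fun j => if j = e' then a else g j
    have hfe' : f e' = a := if_pos rfl
    have hfj : ∀ j, j ≠ e' → f j = g j := fun j hj => if_neg hj
    have hsplit : ∀ (u : ι → W) (w : W), ∑ j ∈ univ.filter (fun j => u j = w), f j
        = ∑ j ∈ univ.filter (fun j => u j = w), g j + (if u e' = w then a else 0) := by
      intro u w
      rw [sum_filter, sum_filter]
      have h1 : ∀ j, (if u j = w then f j else 0)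
          = (if u j = w then g j else 0) + (if j = e' then (if u e' = w then a else 0) else 0) := by
        intro j
        by_cases hj : j = e'
        · subst hj
          rw [hfe', hge, if_pos rfl]
          split_ifs <;> simp
        · rw [hfj j hj, if_neg hj, add_zero]
      rw [sum_congr rfl fun j _ => h1 j, sum_add_distrib, sum_ite_eq']
      simp
    have hmerge : ∀ u : ι → W, ∑ j ∈ univ.filter (fun j => r (u j) = s e'), g j
        = ∑ j ∈ univ.filter (fun j => u j = s e'), g j
          + ∑ j ∈ univ.filter (fun j => u j = t e'), g j := by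
      intro u
      rw [← sum_union]
      · refine sum_congr ?_ fun _ _ => rfl
        ext j
        simp only [mem_filter, mem_univ, true_and, mem_union]
        constructor
        · intro h1
          by_cases h2 : u j = t e'
          · exact Or.inr h2
          · rw [hrw _ h2] at h1
            exact Or.inl h1
        · rintro (h1 | h1)
          · rw [h1, hrs]
          · rw [h1, hrt]
      · refine Finset.disjoint_left.2 fun j h1 h2 => ?_
        simp only [mem_filter, mem_univ, true_and] at h1 h2
        exact hxy (h1.symm.trans h2)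
    have hother : ∀ (u : ι → W) (w : W), w ≠ s e' → w ≠ t e' →
        univ.filter (fun j => r (u j) = w) = univ.filter (fun j => u j = w) := by
      intro u w h1 h2
      ext j
      simp only [mem_filter, mem_univ, true_and]
      constructor
      · intro h3
        by_cases h4 : u j = t e'
        · rw [h4, hrt] at h3
          exact absurd h3.symm h1
        · rwa [hrw _ h4] at h3
      · intro h3
        rw [h3, hrw _ h2]
    have hFlo : Flo s t f := by
      intro w
      rw [hsplit, hsplit]
      have hx := hcons (s e')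
      rw [hmerge, hmerge] at hx
      by_cases h1 : w = s e'
      · subst h1
        rw [if_pos rfl, if_neg (fun h2 => hxy h2.symm), add_zero]
        simp only [a]
        abel
      · by_cases h2 : w = t e'
        · subst h2
          rw [if_pos rfl, if_neg hxy, add_zero]
          have : ∑ j ∈ univ.filter (fun j => s j = t e'), g j
              = ∑ j ∈ univ.filter (fun j => t j = s e'), g j
                + ∑ j ∈ univ.filter (fun j => t j = t e'), g j
                - ∑ j ∈ univ.filter (fun j => s j = s e'), g j := by
            rw [← hx]; abel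
          rw [this]
          simp only [a]
          abel
        · rw [if_neg (fun h3 => h1 h3.symm), if_neg (fun h3 => h2 h3.symm), add_zero, add_zero]
          have h3 := hcons w
          rwa [hother s w h1 h2, hother t w h1 h2] at h3
    refine ⟨f, hFlo, fun j => ?_⟩
    by_cases hj : j = e'
    · subst hj
      -- the flow through the cut `{e, e'}`
      have h1 := cut_sum hFlo S
      have h2 : ∀ u : ι → W, (∑ i, (if S (u i) = 1 then f i else 0))
          = (if S (u e) = 1 then f e else 0) + ((if S (u j) = 1 then f j else 0)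
            + ∑ i ∈ (univ.erase e).erase j, (if S (u i) = 1 then f i else 0)) := by
        intro u
        rw [← add_sum_erase univ _ (mem_univ e), ← add_sum_erase (univ.erase e) _
          (mem_erase.2 ⟨hne.symm, mem_univ j⟩)]
      rw [h2 s, h2 t] at h1
      have h3 : ∑ i ∈ (univ.erase e).erase j, (if S (s i) = 1 then f i else 0)
          = ∑ i ∈ (univ.erase e).erase j, (if S (t i) = 1 then f i else 0) := by
        refine sum_congr rfl fun i hi => ?_
        rw [mem_erase, mem_erase] at hi
        rw [hSj i hi.2.1 hi.1]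
      rw [h3, ← add_assoc, ← add_assoc] at h1
      have h4 := add_right_cancel h1
      have hPe : P (f e) := by
        rw [hfj e hne]
        have := hg ⟨e, hne⟩
        simp only at this
        rw [this]
        exact hPf _
      have z : ∀ a b : ZMod 2, a + b = 1 → (a = 1 ∧ b ≠ 1) ∨ (a ≠ 1 ∧ b = 1) := by decide
      rcases z _ _ hSe with ⟨a1, a2⟩ | ⟨a1, a2⟩ <;> rcases z _ _ hSe' with ⟨b1, b2⟩ | ⟨b1, b2⟩
      · rw [if_pos a1, if_pos b1, if_neg a2, if_neg b2, add_zero] at h4
        have : f j = - f e := by rw [eq_neg_iff_add_eq_zero, add_comm]; exact h4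
        rw [this]
        exact hP _ hPe
      · rw [if_pos a1, if_neg b1, if_neg a2, if_pos b2, add_zero, zero_add] at h4
        rw [← h4]
        exact hPe
      · rw [if_neg a1, if_pos b1, if_pos a2, if_neg b2, add_zero, zero_add] at h4
        rw [h4]
        exact hPe
      · rw [if_neg a1, if_neg b1, if_pos a2, if_pos b2, add_zero] at h4
        have : f j = - f e := by rw [eq_neg_iff_add_eq_zero, add_comm]; exact h4.symm
        rw [this]
        exact hP _ hPe
    · rw [hfj j hj]
      have := hg ⟨j, hj⟩
      simp only at this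
      rw [this]
      exact hPf _

end Pool.Agent.K5.Mat
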