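import Mathlib
import Pool.Agent.Work.MP_974d84_co_k5.DefsM

/-!
# The matroid form (M): rank at most two
-/

set_option linter.unusedSectionVars false

namespace Pool.Agent.K5.Mat

open Finset SimpleGraph

variable {ι : Type} [Fintype ι] [DecidableEq ι] {W : Type} [Fintype W] [DecidableEq W]

theorem zmod2_cases (x : ZMod 2) : x = 0 ∨ x = 1 := by
  revert x
  decide

/-- There are at most three different nonzero vectors of rank at most two. -/
theorem card_le_three {m : ℕ} {A : ι → Fin m → ZMod 2} (h0 : ∀ j, A j ≠ 0)
    (hi : Function.Injective A) (hr : rk A Set.univ ≤ 2) : Fintype.card ι ≤ 3 := by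
  classical
  set N : Submodule (ZMod 2) (Fin m → ZMod 2) := Submodule.span (ZMod 2) (A '' Set.univ) with hN
  have : Fintype N := Fintype.ofFinite N
  have h1 : Fintype.card N = 2 ^ Module.finrank (ZMod 2) N := by
    rw [Module.card_eq_pow_finrank (K := ZMod 2) (V := N), ZMod.card]
  have h2 : Fintype.card N ≤ 4 := by
    rw [h1]
    calc 2 ^ Module.finrank (ZMod 2) N ≤ 2 ^ 2 := Nat.pow_le_pow_right (by norm_num) hr
      _ = 4 := by norm_num
  have hm : ∀ j, A j ∈ N := fun j => Submodule.subset_span ⟨j, Set.mem_univ j, rfl⟩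
  let g : Option ι → N := fun o => o.elim 0 fun j => ⟨A j, hm j⟩
  have hg : Function.Injective g := by
    intro x y hxy
    cases x with
    | none =>
      cases y with
      | none => rfl
      | some j => exact absurd (congrArg Subtype.val hxy).symm (h0 j)
    | some i =>
      cases y with
      | none => exact absurd (congrArg Subtype.val hxy) (h0 i)
      | some j => exact congrArg some (hi (congrArg Subtype.val hxy))
  have h3 := Fintype.card_le_of_injective g hg
  rw [Fintype.card_option] at h3
  omega

/-- **M2a**: rank at most two. -/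
theorem small_rank {m : ℕ} {A : ι → Fin m → ZMod 2} (h0 : ∀ j, A j ≠ 0)
    (hi : Function.Injective A) {s t : ι → W} (h : Cog A s t) (hr : rk A Set.univ ≤ 2)
    {F : Type} [AddCommGroup F] {P : F → Prop} (hP : ∀ x, P x → P (-x)) {a : F} (ha : P a)
    (ha2 : P (a + a)) : MP P s t := by
  classical
  have hcard := card_le_three h0 hi hr
  -- a dependency which is not zero is the sum of all vectors
  have key : ∀ c : ι → ZMod 2, ∑ j, c j • A j = 0 → (∃ j, c j ≠ 0) →
      (∀ j, c j = 1) ∧ Fintype.card ι = 3 := by
    intro c hc hne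
    set T : Finset ι := univ.filter fun j => c j = 1 with hT
    have hsum : ∑ j ∈ T, A j = 0 := by
      rw [← hc, hT, sum_filter]
      refine sum_congr rfl fun j _ => ?_
      rcases zmod2_cases (c j) with h1 | h1 <;> simp [h1]
    have h1 : T.Nonempty := by
      obtain ⟨j, hj⟩ := hne
      exact ⟨j, mem_filter.2 ⟨mem_univ _, (zmod2_cases (c j)).resolve_left hj⟩⟩
    have h2 : T.card ≠ 1 := by
      intro h2
      obtain ⟨j, hj⟩ := card_eq_one.1 h2
      rw [hj, sum_singleton] at hsum
      exact h0 j hsum
    have h3 : T.card ≠ 2 := by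
      intro h3
      obtain ⟨i, j, hij, hj⟩ := card_eq_two.1 h3
      rw [hj, sum_pair hij] at hsum
      refine hij (hi ?_)
      funext x
      have h4 := congrFun hsum x
      have h5 : ∀ x y : ZMod 2, x + y = 0 → x = y := by decide
      exact h5 _ _ h4
    have h4 : T.card ≤ Fintype.card ι := card_le_univ T
    have h5 : 1 ≤ T.card := h1.card_pos
    have h6 : T.card = Fintype.card ι := by omega
    have h7 : T = univ := (card_eq_iff_eq_univ T).1 h6
    refine ⟨fun j => ?_, by omega⟩
    have h8 : j ∈ T := by rw [h7]; exact mem_univ j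
    exact (mem_filter.1 h8).2
  by_cases hl : ∀ j, s j = t j
  · exact ⟨fun _ => a, fun w => by simp [hl], fun _ => ha⟩
  push Not at hl
  obtain ⟨j₀, hj₀⟩ := hl
  have hcut : ∀ S : W → ZMod 2, S (s j₀) + S (t j₀) ≠ 0 →
      (∀ j, S (s j) + S (t j) = 1) ∧ Fintype.card ι = 3 := fun S hS =>
    key (fun j => S (s j) + S (t j)) ((h _).2 ⟨S, fun _ => rfl⟩) ⟨j₀, hS⟩
  -- the ends of all edges
  have hends : ∀ u, (u = s j₀ ∨ u = t j₀) → ∀ j, (s j = u ∧ t j ≠ u) ∨ (s j ≠ u ∧ t j = u) := by
    intro u hu j
    have h1 := (hcut (fun v => if v = u then 1 else 0) (by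
      rcases hu with rfl | rfl
      · simp [hj₀.symm]
      · simp [hj₀])).1 j
    by_cases h2 : s j = u
    · by_cases h3 : t j = u
      · exfalso
        have h4 : ∀ x : ZMod 2, x + x ≠ 1 := by decide
        rw [h2, h3] at h1
        exact h4 _ h1
      · exact Or.inl ⟨h2, h3⟩
    · by_cases h3 : t j = u
      · exact Or.inr ⟨h2, h3⟩
      · exfalso
        rw [if_neg h2, if_neg h3, add_zero] at h1
        exact zero_ne_one h1
  have h3 : Fintype.card ι = 3 := (hcut (fun v => if v = s j₀ then 1 else 0) (by
    simp [hj₀.symm])).2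
  -- the flow
  let f : ι → F := fun j => if j = j₀ then a + a else if s j = s j₀ then - a else a
  let e : W → ℤ := fun w => (if w = s j₀ then 1 else 0) - (if w = t j₀ then 1 else 0)
  have hD : ∀ w j, ((if s j = w then f j else 0) - (if t j = w then f j else 0) : F) =
      e w • (if j = j₀ then a + a else - a) := by
    intro w j
    by_cases hj : j = j₀
    · subst hj
      simp only [f, e, if_true]
      by_cases h4 : w = s j
      · have h5 : ¬ t j = w := fun h5 => hj₀ (by rw [h5, h4])
        have h6 : ¬ w = t j := fun h6 => h5 h6.symm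
        rw [if_pos h4.symm, if_neg h5, if_pos h4, if_neg h6]
        simp
      · have h5 : ¬ s j = w := fun h5 => h4 h5.symm
        by_cases h6 : w = t j
        · rw [if_neg h5, if_pos h6.symm, if_neg h4, if_pos h6]
          simp
        · have h7 : ¬ t j = w := fun h7 => h6 h7.symm
          rw [if_neg h5, if_neg h7, if_neg h4, if_neg h6]
          simp
    · simp only [f, e, if_neg hj]
      rcases hends (s j₀) (Or.inl rfl) j with ⟨h4, h5⟩ | ⟨h4, h5⟩
      · have h6 : t j = t j₀ := by
          rcases hends (t j₀) (Or.inr rfl) j with ⟨h6, h7⟩ | ⟨h6, h7⟩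
          · exact absurd (h4.symm.trans h6) hj₀
          · exact h7
        rw [if_pos h4, h4, h6]
        by_cases h7 : w = s j₀
        · have h8 : ¬ w = t j₀ := fun h8 => hj₀ (h7.symm.trans h8)
          rw [if_pos h7.symm, if_pos h7, if_neg h8, if_neg (fun h => h8 h.symm)]
          simp
        · by_cases h8 : w = t j₀
          · rw [if_neg (fun h => h7 h.symm), if_neg h7, if_pos h8.symm, if_pos h8]
            simp
          · rw [if_neg (fun h => h7 h.symm), if_neg h7, if_neg (fun h => h8 h.symm), if_neg h8]
            simp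
      · have h6 : s j = t j₀ := by
          rcases hends (t j₀) (Or.inr rfl) j with ⟨h6, h7⟩ | ⟨h6, h7⟩
          · exact h6
          · exact absurd (h5.symm.trans h7) hj₀
        rw [if_neg h4, h5, h6]
        by_cases h7 : w = s j₀
        · have h8 : ¬ w = t j₀ := fun h8 => hj₀ (h7.symm.trans h8)
          rw [if_neg (fun h => h8 h.symm), if_pos h7.symm, if_pos h7, if_neg h8]
          simp
        · by_cases h8 : w = t j₀
          · rw [if_pos h8.symm, if_neg (fun h => h7 h.symm), if_neg h7, if_pos h8]
            simp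
          · rw [if_neg (fun h => h8 h.symm), if_neg (fun h => h7 h.symm), if_neg h7, if_neg h8]
            simp
  refine ⟨f, fun w => ?_, fun j => ?_⟩
  · rw [sum_filter, sum_filter, ← sub_eq_zero, ← sum_sub_distrib]
    rw [sum_congr rfl fun j _ => hD w j, ← smul_sum]
    have h4 : ∑ j : ι, (if j = j₀ then a + a else - a) = 0 := by
      rw [← add_sum_erase univ _ (mem_univ j₀), if_pos rfl]
      rw [sum_congr rfl fun j hj => if_neg (ne_of_mem_erase hj), sum_const,
        card_erase_of_mem (mem_univ _), card_univ, h3]
      simp [two_smul]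
    rw [h4, smul_zero]
  · show P (if j = j₀ then a + a else if s j = s j₀ then - a else a)
    split_ifs
    · exact ha2
    · exact hP _ ha
    · exact ha

end Pool.Agent.K5.Mat
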