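import Mathlib
import Pool.Agent.Work.MP_974d84_co_k5.MatGraph
import Pool.Agent.Work.MP_974d84_co_k5.MatSmall
import Pool.Agent.Work.MP_974d84_co_k5.MatPar
import Pool.Agent.Work.MP_974d84_co_k5.MatCut
import Pool.Agent.Work.MP_974d84_co_k5.MatExpand

/-!
# The matroid form (M): the composition
-/

set_option linter.unusedSectionVars false

namespace Pool.Agent.K5.Mat

open Finset SimpleGraph MP974d84


theorem vconn_mono {V : Type} {G : SimpleGraph V} {k k' : ℕ} (hk : k ≤ k') (h : VConn G k') :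
    VConn G k := fun H h1 h2 h3 => hk.trans (h H h1 h2 h3)

/-- Composition for vectors which are pairwise different. -/
theorem form_inj {ι : Type} [Fintype ι] [DecidableEq ι] {W : Type} [Fintype W] [DecidableEq W]
    {F : Type} [AddCommGroup F] {P : F → Prop} (hP : ∀ x, P x → P (-x)) {a : F}
    (ha : P a) (ha2 : P (a + a)) {k : ℕ}
    (h : ∀ (V : Type) [Fintype V] [DecidableEq V] (G : SimpleGraph V) [DecidableRel G.Adj],
      G.IsRegularOfDegree 3 → (∀ S : Finset V, ¬ (G.induce (S : Set V)).IsAcyclic →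
      ¬ (G.induce ((Sᶜ : Finset V) : Set V)).IsAcyclic → k ≤ (G.interedges S Sᶜ).card) → GP P G)
    {m : ℕ} {A : ι → Fin m → ZMod 2} (h0 : ∀ j, A j ≠ 0) (hi : Function.Injective A)
    {s t : ι → W} (hc : Cog A s t) (hv : VC A (max k 2)) : MP P s t := by
  by_cases hr : 3 ≤ rk A Set.univ
  · obtain ⟨V, _, _, G, _, h3, hG, hmp⟩ := to_graph h0 hi hc hr (le_max_right k 2) hv
    refine hmp hP (expand (k := max k 2) ?_ V G h3 hG)
    intro V' _ _ G' _ h3' hG'
    exact h V' G' h3' fun S h1 h2 => (le_max_left k 2).trans (cut_of_vconn hG' S h1 h2)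
  · exact small_rank h0 hi hc (by omega) hP ha ha2

/-- The composition by induction on the number of elements. -/
theorem form_aux {F : Type} [AddCommGroup F] {P : F → Prop} (hP : ∀ x, P x → P (-x)) {a : F}
    (ha : P a) (ha2 : P (a + a)) {k : ℕ}
    (h : ∀ (V : Type) [Fintype V] [DecidableEq V] (G : SimpleGraph V) [DecidableRel G.Adj],
      G.IsRegularOfDegree 3 → (∀ S : Finset V, ¬ (G.induce (S : Set V)).IsAcyclic →
      ¬ (G.induce ((Sᶜ : Finset V) : Set V)).IsAcyclic → k ≤ (G.interedges S Sᶜ).card) → GP P G)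
    {W : Type} [Fintype W] [DecidableEq W] {m : ℕ} (n : ℕ) :
    ∀ {ι : Type} [Fintype ι] [DecidableEq ι], Fintype.card ι = n →
      ∀ {A : ι → Fin m → ZMod 2}, (∀ j, A j ≠ 0) → ∀ {s t : ι → W}, Cog A s t →
      VC A (max k 2) → MP P s t := by
  induction n using Nat.strong_induction_on with
  | _ n ih =>
    intro ι _ _ hn A h0 s t hc hv
    by_cases hi : Function.Injective A
    · exact form_inj hP ha ha2 h h0 hi hc hv
    · rw [Function.Injective] at hi
      simp only [not_forall] at hi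
      obtain ⟨e, e', he, hne⟩ := hi
      obtain ⟨s', t', hc', hv', hmp⟩ := par_step h0 hc hv hne he
      refine hmp hP (ih (Fintype.card {j // j ≠ e'}) ?_ rfl (fun j => h0 j.1) hc' hv')
      rw [← hn]
      exact Fintype.card_subtype_lt (x := e') (by simp)

/-- M5: the composition. -/
theorem matroid_form {ι : Type} [Fintype ι] [DecidableEq ι] {W : Type} [Fintype W]
    [DecidableEq W] {F : Type} [AddCommGroup F] {P : F → Prop} (hP : ∀ x, P x → P (-x)) {a : F}
    (ha : P a) (ha2 : P (a + a)) {k : ℕ}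
    (h : ∀ (V : Type) [Fintype V] [DecidableEq V] (G : SimpleGraph V) [DecidableRel G.Adj],
      G.IsRegularOfDegree 3 → (∀ S : Finset V, ¬ (G.induce (S : Set V)).IsAcyclic →
      ¬ (G.induce ((Sᶜ : Finset V) : Set V)).IsAcyclic → k ≤ (G.interedges S Sᶜ).card) → GP P G)
    {m : ℕ} {A : ι → Fin m → ZMod 2} (h0 : ∀ j, A j ≠ 0) {s t : ι → W} (hc : Cog A s t)
    (hv : VC A (max k 2)) : MP P s t :=
  form_aux hP ha ha2 h (Fintype.card ι) rfl h0 hc hv

end Pool.Agent.K5.Mat
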