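import Mathlib
import Pool.Agent.Work.MP_974d84_co_k5.MatMain
import Pool.Agent.Work.MP_974d84_co_k5.MatChi

/-!
# The matroid form of the theorem on nowhere-zero flows
-/

set_option linter.unusedSectionVars false

namespace Pool.Agent.K5.Mat

open Finset SimpleGraph MP974d84

/-- M6: the characteristic polynomials of highly vertically connected cographic matroids. -/
theorem matroid_five (h : ∃ k : ℕ, ∀ (V : Type) [Fintype V] [DecidableEq V] (G : SimpleGraph V)
    [DecidableRel G.Adj], G.IsRegularOfDegree 3 →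
    (∀ S : Finset V, ¬ (G.induce (S : Set V)).IsAcyclic →
      ¬ (G.induce ((Sᶜ : Finset V) : Set V)).IsAcyclic → k ≤ (G.interedges S Sᶜ).card) →
    ∀ i : ℕ, 5 ≤ i → HasNZFlow (ZMod i) G) :
    ∃ k₀ : ℕ, ∀ (n m : ℕ) (A : Fin n → Fin m → ZMod 2), (∀ j, A j ≠ 0) →
      (∃ (p : ℕ) (s t : Fin n → Fin p), ∀ c : Fin n → ZMod 2,
        ∑ j, c j • A j = 0 ↔ ∃ S : Fin p → ZMod 2, ∀ j, c j = S (s j) + S (t j)) →
      (∀ X : Set (Fin n),
        Module.finrank (ZMod 2) (Submodule.span (ZMod 2) (A '' X)) <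
          Module.finrank (ZMod 2) (Submodule.span (ZMod 2) (Set.range A)) →
        Module.finrank (ZMod 2) (Submodule.span (ZMod 2) (A '' Xᶜ)) <
          Module.finrank (ZMod 2) (Submodule.span (ZMod 2) (Set.range A)) →
        k₀ + Module.finrank (ZMod 2) (Submodule.span (ZMod 2) (Set.range A)) ≤
          Module.finrank (ZMod 2) (Submodule.span (ZMod 2) (A '' X)) +
          Module.finrank (ZMod 2) (Submodule.span (ZMod 2) (A '' Xᶜ))) →
      ∀ k : ℕ, 5 ≤ k →
        (∑ X : Finset (Fin n), (-1 : ℤ) ^ X.card *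
          (k : ℤ) ^ (Module.finrank (ZMod 2) (Submodule.span (ZMod 2) (Set.range A)) -
            Module.finrank (ZMod 2) (Submodule.span (ZMod 2) (A '' (X : Set (Fin n)))))) ≠ 0 := by
  obtain ⟨k, hk⟩ := h
  refine ⟨max k 2, ?_⟩
  rintro n m A h0 ⟨p, s, t, hc⟩ hv i hi
  have hrk : ∀ X : Set (Fin n), rk A X = Module.finrank (ZMod 2)
      (Submodule.span (ZMod 2) (A '' X)) := fun X => rfl
  have hru : rk A Set.univ = Module.finrank (ZMod 2)
      (Submodule.span (ZMod 2) (Set.range A)) := by rw [hrk, Set.image_univ]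
  have hcog : Cog A s t := hc
  have hvc : VC A (max k 2) := by
    intro X h1 h2
    rw [hru] at h1 h2 ⊢
    exact hv X h1 h2
  have : NeZero i := ⟨by omega⟩
  have h1 : (1 : ZMod i) ≠ 0 := by
    intro h
    have : ((1 : ℕ) : ZMod i) = 0 := by simpa using h
    rw [ZMod.natCast_eq_zero_iff] at this
    have := Nat.le_of_dvd one_pos this
    omega
  have h2 : (1 : ZMod i) + 1 ≠ 0 := by
    intro h
    have : ((2 : ℕ) : ZMod i) = 0 := by
      have h' : (1 : ZMod i) + 1 = 2 := by norm_num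
      rw [h'] at h
      simpa using h
    rw [ZMod.natCast_eq_zero_iff] at this
    have := Nat.le_of_dvd two_pos this
    omega
  obtain ⟨f, hf, hf0⟩ := matroid_form (F := ZMod i) (P := fun x => x ≠ 0)
    (fun x hx => neg_ne_zero.2 hx) h1 h2 (k := k) (fun V _ _ G _ h3 hS => by
      obtain ⟨f, h1, h2, h4⟩ := hk V G h3 hS i hi
      exact ⟨f, h1, h4, fun u v huv => by
        by_contra h; exact huv ((h2 u v).1 h), fun u v huv => (h2 u v).2 huv⟩) h0 hcog hvc
  have hchi := chi_eq hcog (k := i) (by omega)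
  have hpos : 0 < {f : Fin n → ZMod i | Flo s t f ∧ ∀ j, f j ≠ 0}.ncard := by
    rw [Set.ncard_pos (Set.toFinite _)]
    exact ⟨f, hf, hf0⟩
  have hne : chi A i ≠ 0 := by
    rw [hchi]
    exact_mod_cast hpos.ne'
  unfold chi at hne
  rw [hru] at hne
  exact hne

end Pool.Agent.K5.Mat
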