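import Mathlib
import Pool.Agent.Work.MP_974d84_co_k5.DefsMG
import Pool.Agent.Work.MP_974d84_co_k5.MatExpand

/-!
# The matroid form (MG): expansion of the vertices of large degree
-/

set_option linter.unusedSectionVars false

namespace Pool.Agent.K5.Mat

open Finset SimpleGraph

theorem GConn.split {V : Type} [DecidableEq V] {v : V} {σ : V → Prop} [DecidablePred σ]
    {G : SimpleGraph V} {g : ℕ} [Finite V] (hg : GConn G g) : GConn (spG v σ G) g := by
  intro H hH h1 h2
  have h3 : ¬ (des v σ H).IsAcyclic := fun h => h1 (acyclic_of_des hH h)
  have h4 : ¬ (G \ des v σ H).IsAcyclic := by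
    intro h
    apply h2
    refine acyclic_of_des (G := G) (v := v) (σ := σ) sdiff_le ?_
    rw [des_sdiff, des_spG]
    exact h
  have h5 : des v σ H ≤ G := by
    have := des_mono v σ hH
    rwa [des_spG] at this
  refine (hg _ h5 h3 h4).trans ?_
  have hsub : (des v σ H).edgeSet ⊆ Sym2.map (prj v) '' H.edgeSet := by
    intro e he
    induction e with
    | _ x y =>
      rw [mem_edgeSet, des_adj] at he
      refine ⟨s(lf v σ x y, lf v σ y x), he, ?_⟩
      rw [Sym2.map_mk, prj_lf, prj_lf]
  exact (Set.ncard_le_ncard hsub (Set.toFinite _)).trans (Set.ncard_image_le (Set.toFinite _))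

/-- MG3: from cubic graphs to graphs with all degrees at least three. -/
theorem expand_g {F : Type} [AddCommGroup F] {P : F → Prop} {k g : ℕ}
    (h : ∀ (V : Type) [Fintype V] [DecidableEq V] (G : SimpleGraph V) [DecidableRel G.Adj],
      (∀ v, G.degree v = 3) → VConn G k → GConn G g → GP P G)
    (V : Type) [Fintype V] [DecidableEq V] (G : SimpleGraph V) [DecidableRel G.Adj]
    (h3 : ∀ v, 3 ≤ G.degree v) (hv : VConn G k) (hg : GConn G g) : GP P G := by
  have key : ∀ n : ℕ, ∀ (V : Type) [Fintype V] [DecidableEq V] (G : SimpleGraph V),
      ∑ v, ((G.neighborSet v).ncard - 3) = n → (∀ v, 3 ≤ (G.neighborSet v).ncard) →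
      VConn G k → GConn G g → GP P G := by
    intro n
    induction n using Nat.strong_induction_on with
    | _ n ih =>
      intro V _ _ G hn h3 hv hg
      classical
      by_cases hall : ∀ v, (G.neighborSet v).ncard = 3
      · exact h V G (fun v => (degree_eq_ncard G v).trans (hall v)) hv hg
      · push Not at hall
        obtain ⟨v, hv3⟩ := hall
        have hv4 : 4 ≤ (G.neighborSet v).ncard := by
          have := h3 v
          omega
        obtain ⟨a, b, ha, hb, hab⟩ := (Set.one_lt_ncard_iff (Set.toFinite _)).1
          (by omega : 1 < (G.neighborSet v).ncard)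
        have hσv : ¬ (v = a ∨ v = b) := by
          rintro (rfl | rfl)
          · exact G.irrefl ha
          · exact G.irrefl hb
        refine GP.of_split (v := v) (σ := fun y => y = a ∨ y = b) hσv ?_
        refine ih _ ?_ (Option V) (spG v (fun y => y = a ∨ y = b) G) rfl ?_ hv.split hg.split
        · rw [Fintype.sum_option, ncard_none ha hb hab, Nat.sub_self, zero_add, ← hn]
          refine sum_lt_sum (fun x _ => ?_) ⟨v, mem_univ _, ?_⟩
          · by_cases hx : x = v
            · subst hx
              have := ncard_self ha hb hab
              omega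
            · rw [ncard_some hx]
          · have := ncard_self ha hb hab
            omega
        · intro p
          rcases p with _ | x
          · rw [ncard_none ha hb hab]
          · by_cases hx : x = v
            · subst hx
              have := ncard_self ha hb hab
              omega
            · rw [ncard_some hx]
              exact h3 x
  refine key _ V G rfl (fun v => ?_) hv hg
  rw [← degree_eq_ncard]
  exact h3 v

end Pool.Agent.K5.Mat
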