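import Mathlib
import Pool.Agent.Work.MP_974d84_co_k5.DefsMG

/-!
# The matroid form (MG): small sets with a circuit
-/

set_option linter.unusedSectionVars false

namespace Pool.Agent.K5.Mat

open Finset SimpleGraph

theorem acyclic_induce_of_le {V : Type} {G H : SimpleGraph V} {s : Set V}
    (h : ∀ x ∈ s, ∀ y ∈ s, G.Adj x y → H.Adj x y) (hH : H.IsAcyclic) :
    (G.induce s).IsAcyclic := by
  refine IsAcyclic.comap (G' := H) ⟨fun x => x.1, ?_⟩ Subtype.val_injective hH
  intro a b hab
  exact h _ a.2 _ b.2 hab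

/-- MG4b. If every part with a circuit of a partition of the edges with circuits in both parts
has at least `3 g` edges, then a set of less than `g` vertices with a circuit has a complement
without a circuit. -/
theorem short_of_gconn {V : Type} [Fintype V] [DecidableEq V] {G : SimpleGraph V}
    [DecidableRel G.Adj] (h3 : ∀ v, G.degree v = 3) {g : ℕ} (hg : GConn G (3 * g))
    (A : Finset V) (hA : A.card < g) (h1 : ¬ (G.induce (A : Set V)).IsAcyclic) :
    (G.induce ((Aᶜ : Finset V) : Set V)).IsAcyclic := by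
  by_contra h2
  set H : SimpleGraph V :=
    { Adj := fun x y => G.Adj x y ∧ x ∈ A ∧ y ∈ A
      symm := ⟨fun _ _ h => ⟨h.1.symm, h.2.2, h.2.1⟩⟩
      loopless := ⟨fun _ h => G.irrefl h.1⟩ } with hH
  have hHG : H ≤ G := fun _ _ h => h.1
  have e1 : ¬ H.IsAcyclic := by
    intro h
    apply h1
    refine acyclic_induce_of_le (H := H) (fun x hx y hy hxy => ?_) h
    exact ⟨hxy, hx, hy⟩
  have e2 : ¬ (G \ H).IsAcyclic := by
    intro h
    apply h2
    refine acyclic_induce_of_le (H := G \ H) (fun x hx y hy hxy => ?_) h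
    rw [sdiff_adj]
    exact ⟨hxy, fun hcon => (mem_compl.1 (mem_coe.1 hx)) hcon.2.1⟩
  have e3 := hg H hHG e1 e2
  have hsub : H.edgeSet ⊆ ((A.biUnion fun v => G.incidenceFinset v : Finset (Sym2 V)) :
      Set (Sym2 V)) := by
    intro e he
    induction e with
    | _ x y =>
      rw [mem_edgeSet] at he
      rw [mem_coe, mem_biUnion]
      refine ⟨x, he.2.1, ?_⟩
      rw [mem_incidenceFinset]
      exact ⟨he.1, Sym2.mem_mk_left x y⟩
  have e4 := Set.ncard_le_ncard hsub (Finset.finite_toSet _)
  rw [Set.ncard_coe_finset] at e4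
  have e5 : (A.biUnion fun v => G.incidenceFinset v).card ≤ ∑ v ∈ A, 3 := by
    refine card_biUnion_le.trans (sum_le_sum fun v _ => ?_)
    rw [card_incidenceFinset_eq_degree, h3 v]
  rw [sum_const, smul_eq_mul] at e5
  omega

end Pool.Agent.K5.Mat
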