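import Mathlib
import Pool.Agent.Work.MP_974d84_co_k5.DefsMG
import Pool.Agent.Work.MP_974d84_co_k5.MatGraph

/-!
# The matroid form (MG): the simple graph and its girth condition
-/

set_option linter.unusedSectionVars false

namespace Pool.Agent.K5.Mat

open Finset SimpleGraph

variable {ι : Type} [Fintype ι] [DecidableEq ι] {W : Type} [Fintype W] [DecidableEq W]

theorem rk_le_image {m : ℕ} {A : ι → Fin m → ZMod 2} (X : Set ι) : rk A X ≤ (A '' X).ncard := by
  classical
  have h1 : A '' X = ((X.toFinset.image A : Finset (Fin m → ZMod 2)) : Set _) := by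
    simp
  unfold rk
  rw [h1, Set.ncard_coe_finset]
  exact finrank_span_finset_le_card _

/-- Vertical connectivity `g` implies the condition on the cogirth: (MG) contains (M). -/
theorem gc_of_vc {m : ℕ} {A : ι → Fin m → ZMod 2} {g : ℕ} (h : VC A g) : GC A g := by
  intro X h1 h2
  have h3 := h X h1 h2
  have h4 := rk_le_image (A := A) X
  omega

theorem gconn_gr {m : ℕ} {A : ι → Fin m → ZMod 2} {s t : ι → W} (h : Cog A s t)
    (hp : ∀ i j, s(s i, t i) = s(s j, t j) → i = j) {g : ℕ} (hg : GC A g) :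
    GConn (gr s t) g := by
  intro H hH h1 h2
  set X : Set ι := {j | H.Adj (s j) (t j)} with hX
  have h3 : rk A Xᶜ < rk A Set.univ := rk_lt_of_cyclic h hH h1 fun j hj => hj
  have h4 : rk A X < rk A Set.univ := by
    refine rk_lt_of_cyclic h sdiff_le h2 fun j hj hj' => ?_
    rw [SimpleGraph.sdiff_adj] at hj'
    exact hj'.2 hj
  have h5 := hg X h4 h3
  have h6 : (A '' X).ncard ≤ X.ncard := Set.ncard_image_le (Set.toFinite _)
  have h7 : X.ncard ≤ H.edgeSet.ncard := by
    refine Set.ncard_le_ncard_of_injOn (fun j => s(s j, t j)) ?_ ?_ (Set.toFinite _)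
    · intro j hj
      exact (SimpleGraph.mem_edgeSet H).2 hj
    · intro i _ j _ hij
      exact hp _ _ hij
  omega

/-- The sharp form of `rk_add_le`: the vectors of the common vertices have sum zero. -/
theorem rk_add_lt {m : ℕ} {A : ι → Fin m → ZMod 2} {s t : ι → W} (h : Cog A s t) (X : Set ι)
    (hne : {w | (∃ j ∈ X, s j = w ∨ t j = w) ∧ ∃ j ∈ Xᶜ, s j = w ∨ t j = w}.Nonempty) :
    rk A X + rk A Xᶜ < rk A Set.univ +
      {w | (∃ j ∈ X, s j = w ∨ t j = w) ∧ ∃ j ∈ Xᶜ, s j = w ∨ t j = w}.ncard := by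
  classical
  set C : Set W := {w | (∃ j ∈ X, s j = w ∨ t j = w) ∧ ∃ j ∈ Xᶜ, s j = w ∨ t j = w} with hC
  obtain ⟨w₀, hw₀⟩ := hne
  set b : W → Fin m → ZMod 2 := fun w =>
    ∑ j, (if j ∈ X then ((if s j = w then 1 else 0) + (if t j = w then 1 else 0) : ZMod 2)
      else 0) • A j with hb
  have hsup : Submodule.span (ZMod 2) (A '' X) ⊔ Submodule.span (ZMod 2) (A '' Xᶜ) =
      Submodule.span (ZMod 2) (A '' Set.univ) := by
    rw [← Submodule.span_union, ← Set.image_union, Set.union_compl_self]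
  have hbsum : ∑ w, b w = 0 := by
    simp only [hb]
    rw [sum_comm]
    refine sum_eq_zero fun j _ => ?_
    rw [← sum_smul]
    by_cases hj : j ∈ X
    · simp only [hj, if_true, sum_add_distrib, sum_ite_eq, mem_univ]
      rw [z2_add_self, zero_smul]
    · simp [hj]
  have hbout : ∀ w, w ∉ C → b w = 0 := by
    intro w hw
    by_cases h1 : ∃ j ∈ X, s j = w ∨ t j = w
    · have h2 : ¬ ∃ j ∈ Xᶜ, s j = w ∨ t j = w := fun h2 => hw ⟨h1, h2⟩
      have h3 := (h fun j => (if s j = w then 1 else 0) + (if t j = w then 1 else 0)).2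
        ⟨fun u => if u = w then 1 else 0, fun j => rfl⟩
      rw [← h3]
      simp only [hb]
      refine sum_congr rfl fun j _ => ?_
      by_cases hj : j ∈ X
      · simp [hj]
      · have h4 : s j ≠ w := fun h => h2 ⟨j, hj, Or.inl h⟩
        have h5 : t j ≠ w := fun h => h2 ⟨j, hj, Or.inr h⟩
        simp [hj, h4, h5]
    · simp only [hb]
      refine sum_eq_zero fun j _ => ?_
      by_cases hj : j ∈ X
      · have h4 : s j ≠ w := fun h => h1 ⟨j, hj, Or.inl h⟩
        have h5 : t j ≠ w := fun h => h1 ⟨j, hj, Or.inr h⟩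
        simp [h4, h5]
      · simp [hj]
  have hinf : Submodule.span (ZMod 2) (A '' X) ⊓ Submodule.span (ZMod 2) (A '' Xᶜ) ≤
      Submodule.span (ZMod 2)
        (((C.toFinset.erase w₀).image b : Finset (Fin m → ZMod 2)) : Set (Fin m → ZMod 2)) := by
    rintro v ⟨hv1, hv2⟩
    obtain ⟨c, hc, hcs⟩ := mem_span_iff.1 hv1
    obtain ⟨c', hc', hcs'⟩ := mem_span_iff.1 hv2
    have h0 : ∑ j, (c j + c' j) • A j = 0 := by
      simp only [add_smul, sum_add_distrib, hcs, hcs']
      exact vec_add_self _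
    obtain ⟨S, hS⟩ := (h _).1 h0
    have hv : v = ∑ w, S w • b w := by
      rw [← hcs]
      simp only [hb, smul_sum, smul_smul]
      rw [sum_comm]
      refine sum_congr rfl fun j _ => ?_
      rw [← sum_smul]
      congr 1
      by_cases hj : j ∈ X
      · have h1 : c' j = 0 := hc' j (fun h => h hj)
        have h2 := hS j
        rw [h1, add_zero] at h2
        rw [h2]
        simp [hj, mul_add, sum_add_distrib]
      · simp [hj, hc j hj]
    have hv' : v = ∑ w, (S w + S w₀) • b w := by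
      simp only [add_smul, sum_add_distrib]
      rw [← smul_sum, hbsum, smul_zero, add_zero]
      exact hv
    rw [hv']
    refine Submodule.sum_mem _ fun w _ => ?_
    by_cases hw : w ∈ C
    · by_cases hw0 : w = w₀
      · rw [hw0, z2_add_self, zero_smul]
        exact Submodule.zero_mem _
      · refine Submodule.smul_mem _ _ (Submodule.subset_span ?_)
        simp only [coe_image, coe_erase, Set.coe_toFinset]
        exact ⟨w, ⟨hw, hw0⟩, rfl⟩
    · rw [hbout w hw, smul_zero]
      exact Submodule.zero_mem _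
  have h1 := Submodule.finrank_sup_add_finrank_inf_eq (Submodule.span (ZMod 2) (A '' X))
    (Submodule.span (ZMod 2) (A '' Xᶜ))
  have h2 := Submodule.finrank_mono hinf
  have h3 : Module.finrank (ZMod 2) (Submodule.span (ZMod 2)
      (((C.toFinset.erase w₀).image b : Finset (Fin m → ZMod 2)) : Set (Fin m → ZMod 2))) + 1 ≤
        C.ncard := by
    have h4 : Module.finrank (ZMod 2) (Submodule.span (ZMod 2)
        (((C.toFinset.erase w₀).image b : Finset (Fin m → ZMod 2)) : Set (Fin m → ZMod 2))) ≤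
          (C.toFinset.erase w₀).card := (finrank_span_finset_le_card _).trans card_image_le
    have h5 : w₀ ∈ C.toFinset := by
      rw [Set.mem_toFinset]
      exact hw₀
    have h6 := card_erase_add_one h5
    rw [Set.ncard_eq_toFinset_card' C]
    omega
  rw [hsup] at h1
  unfold rk
  omega

/-- The connectivity of the simple graph, sharp form. -/
theorem vconn_gr_succ {m : ℕ} {A : ι → Fin m → ZMod 2} {s t : ι → W} (h : Cog A s t)
    (hl : ∀ j, s j ≠ t j) {k : ℕ} (hk : 1 ≤ k) (hv : VC A k) : VConn (gr s t) (k + 1) := by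
  intro H hH h1 h2
  set X : Set ι := {j | H.Adj (s j) (t j)} with hX
  have h3 : rk A Xᶜ < rk A Set.univ := rk_lt_of_cyclic h hH h1 fun j hj => hj
  have h4 : rk A X < rk A Set.univ := by
    refine rk_lt_of_cyclic h sdiff_le h2 fun j hj hj' => ?_
    rw [SimpleGraph.sdiff_adj] at hj'
    exact hj'.2 hj
  have h5 := hv X h4 h3
  have h7 : {w | (∃ j ∈ X, s j = w ∨ t j = w) ∧ ∃ j ∈ Xᶜ, s j = w ∨ t j = w}.ncard ≤
      {v | (∃ u, H.Adj v u) ∧ ∃ u, (gr s t \ H).Adj v u}.ncard := by
    refine Set.ncard_le_ncard ?_ (Set.toFinite _)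
    rintro w ⟨⟨i, hi, hiw⟩, j, hj, hjw⟩
    refine ⟨?_, ?_⟩
    · rcases hiw with hiw | hiw
      · exact ⟨t i, by rw [← hiw]; exact hi⟩
      · exact ⟨s i, by rw [← hiw]; exact SimpleGraph.Adj.symm hi⟩
    · have h8 : (gr s t \ H).Adj (s j) (t j) := by
        rw [SimpleGraph.sdiff_adj]
        exact ⟨⟨hl j, j, rfl⟩, hj⟩
      rcases hjw with hjw | hjw
      · exact ⟨t j, by rw [← hjw]; exact h8⟩
      · exact ⟨s j, by rw [← hjw]; exact h8.symm⟩
  have hne : {w | (∃ j ∈ X, s j = w ∨ t j = w) ∧ ∃ j ∈ Xᶜ, s j = w ∨ t j = w}.Nonempty := by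
    have h6 := rk_add_le h X
    rw [← Set.ncard_pos (Set.toFinite _)]
    omega
  have h6 := rk_add_lt h X hne
  omega

/-- MG2: rank at least three, with the condition on the cogirth. -/
theorem to_graph_g {m : ℕ} {A : ι → Fin m → ZMod 2} (h0 : ∀ j, A j ≠ 0)
    (hi : Function.Injective A) {s t : ι → W} (h : Cog A s t) (hr : 3 ≤ rk A Set.univ) {k : ℕ}
    (hk : 2 ≤ k) (hv : VC A k) {g : ℕ} (hg : GC A g) : ∃ (V : Type) (_ : Fintype V)
      (_ : DecidableEq V) (G : SimpleGraph V) (_ : DecidableRel G.Adj), (∀ v, 3 ≤ G.degree v) ∧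
      VConn G k ∧ GConn G g ∧
      ∀ {F : Type} [AddCommGroup F] {P : F → Prop}, (∀ x, P x → P (-x)) → GP P G → MP P s t := by
  classical
  obtain ⟨V, _, _, s', t', h', hcov, hmp⟩ := exists_cover h
  have hl : ∀ j, s' j ≠ t' j := no_loop h' (by omega) (by omega) hv
  have hp : ∀ i j, s(s' i, t' i) = s(s' j, t' j) → i = j := fun i j => no_par h' hr hk hv
  refine ⟨V, inferInstance, inferInstance, gr s' t', Classical.decRel _, ?_, vconn_gr h' hl hv,
    gconn_gr h' hp hg, ?_⟩
  · intro v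
    rw [degree_gr hl hp]
    exact star_card h' hl h0 hi (hcov v)
  · intro F _ P _ hG
    exact hmp (mp_of_gp hl hp hG)

/-- MG2, sharp form: connectivity `k + 1` of the graph. -/
theorem to_graph_s {m : ℕ} {A : ι → Fin m → ZMod 2} (h0 : ∀ j, A j ≠ 0)
    (hi : Function.Injective A) {s t : ι → W} (h : Cog A s t) (hr : 3 ≤ rk A Set.univ) {k : ℕ}
    (hk : 2 ≤ k) (hv : VC A k) {g : ℕ} (hg : GC A g) : ∃ (V : Type) (_ : Fintype V)
      (_ : DecidableEq V) (G : SimpleGraph V) (_ : DecidableRel G.Adj), (∀ v, 3 ≤ G.degree v) ∧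
      VConn G (k + 1) ∧ GConn G g ∧
      ∀ {F : Type} [AddCommGroup F] {P : F → Prop}, (∀ x, P x → P (-x)) → GP P G → MP P s t := by
  classical
  obtain ⟨V, _, _, s', t', h', hcov, hmp⟩ := exists_cover h
  have hl : ∀ j, s' j ≠ t' j := no_loop h' (by omega) (by omega) hv
  have hp : ∀ i j, s(s' i, t' i) = s(s' j, t' j) → i = j := fun i j => no_par h' hr hk hv
  refine ⟨V, inferInstance, inferInstance, gr s' t', Classical.decRel _, ?_,
    vconn_gr_succ h' hl (by omega) hv, gconn_gr h' hp hg, ?_⟩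
  · intro v
    rw [degree_gr hl hp]
    exact star_card h' hl h0 hi (hcov v)
  · intro F _ P _ hG
    exact hmp (mp_of_gp hl hp hG)

end Pool.Agent.K5.Mat
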