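import Mathlib
import Pool.Agent.Work.MP_974d84_co_k5.DefsMG
import Pool.Agent.Work.MP_974d84_co_k5.MatPar

/-!
# The matroid form (MG): parallel elements
-/

set_option linter.unusedSectionVars false

namespace Pool.Agent.K5.Mat

open Finset SimpleGraph

variable {ι : Type} [Fintype ι] [DecidableEq ι]

/-- MG0. The second condition passes to the matroid without one of two parallel elements. -/
theorem gc_par {m : ℕ} {A : ι → Fin m → ZMod 2} {g : ℕ} (hg : GC A g) {e e' : ι} (hne : e ≠ e')
    (he : A e = A e') : GC (fun j : {j // j ≠ e'} => A j.1) g := by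
  intro X h1 h2
  rw [Par.rk_hat hne he, Par.rk_hat hne he, Par.hat_univ] at h1 h2
  rw [← Par.hat_compl] at h2
  rw [Par.img hne he]
  exact hg (Par.hat hne X) h1 h2

end Pool.Agent.K5.Mat
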