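import Mathlib
import Pool.Agent.Work.MP_974d84_co_k5.MgGraph
import Pool.Agent.Work.MP_974d84_co_k5.MgExpand
import Pool.Agent.Work.MP_974d84_co_k5.MgPar
import Pool.Agent.Work.MP_974d84_co_k5.MgGirA
import Pool.Agent.Work.MP_974d84_co_k5.MgGirB
import Pool.Agent.Work.MP_974d84_co_k5.MatSmall
import Pool.Agent.Work.MP_974d84_co_k5.MatPar
import Pool.Agent.Work.MP_974d84_co_k5.MatCut
import Pool.Agent.Work.MP_974d84_co_k5.Defs5
import Pool.Agent.Work.MP_974d84_co_k5.MatChi

/-!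
# The matroid form (MG): the composition
-/

set_option linter.unusedSectionVars false

namespace Pool.Agent.K5.Mat

open Finset SimpleGraph MP974d84

/-- Composition for vectors which are pairwise different. -/
theorem form_inj_g {ι : Type} [Fintype ι] [DecidableEq ι] {W : Type} [Fintype W]
    [DecidableEq W] {F : Type} [AddCommGroup F] {P : F → Prop} (hP : ∀ x, P x → P (-x)) {a : F}
    (ha : P a) (ha2 : P (a + a)) {k g : ℕ}
    (h : ∀ (V : Type) [Fintype V] [DecidableEq V] (G : SimpleGraph V) [DecidableRel G.Adj],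
      (∀ v, G.degree v = 3) → (∀ S : Finset V, ¬ (G.induce (S : Set V)).IsAcyclic →
      ¬ (G.induce ((Sᶜ : Finset V) : Set V)).IsAcyclic → k + 1 ≤ (G.interedges S Sᶜ).card) →
      (Pool.Agent.Log5.Gir G g ∨ Fintype.card V ≤ 6) → GP P G)
    {m : ℕ} {A : ι → Fin m → ZMod 2} (h0 : ∀ j, A j ≠ 0) (hi : Function.Injective A)
    {s t : ι → W} (hc : Cog A s t) (hk : 2 ≤ k) (hv : VC A k) (hg : GC A (3 * g)) :
    MP P s t := by
  by_cases hr : 3 ≤ rk A Set.univ
  · obtain ⟨V, _, _, G, _, h3, hG, hG', hmp⟩ := to_graph_s h0 hi hc hr hk hv hg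
    refine hmp hP (expand_g (k := k + 1) (g := 3 * g) ?_ V G h3 hG hG')
    intro V' _ _ G' _ h3' hV' hg'
    exact h V' G' h3' (fun S h1 h2 => cut_of_vconn hV' S h1 h2)
      (gir_of_short h3' (short_of_gconn h3' hg'))
  · exact small_rank h0 hi hc (by omega) hP ha ha2

/-- The composition by induction on the number of elements. -/
theorem form_aux_g {F : Type} [AddCommGroup F] {P : F → Prop} (hP : ∀ x, P x → P (-x)) {a : F}
    (ha : P a) (ha2 : P (a + a)) {k g : ℕ} (hk : 2 ≤ k)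
    (h : ∀ (V : Type) [Fintype V] [DecidableEq V] (G : SimpleGraph V) [DecidableRel G.Adj],
      (∀ v, G.degree v = 3) → (∀ S : Finset V, ¬ (G.induce (S : Set V)).IsAcyclic →
      ¬ (G.induce ((Sᶜ : Finset V) : Set V)).IsAcyclic → k + 1 ≤ (G.interedges S Sᶜ).card) →
      (Pool.Agent.Log5.Gir G g ∨ Fintype.card V ≤ 6) → GP P G)
    {W : Type} [Fintype W] [DecidableEq W] {m : ℕ} (n : ℕ) :
    ∀ {ι : Type} [Fintype ι] [DecidableEq ι], Fintype.card ι = n →
      ∀ {A : ι → Fin m → ZMod 2}, (∀ j, A j ≠ 0) → ∀ {s t : ι → W}, Cog A s t →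
      VC A k → GC A (3 * g) → MP P s t := by
  induction n using Nat.strong_induction_on with
  | _ n ih =>
    intro ι _ _ hn A h0 s t hc hv hg
    by_cases hi : Function.Injective A
    · exact form_inj_g hP ha ha2 h h0 hi hc hk hv hg
    · rw [Function.Injective] at hi
      simp only [not_forall] at hi
      obtain ⟨e, e', he, hne⟩ := hi
      obtain ⟨s', t', hc', hv', hmp⟩ := par_step h0 hc hv hne he
      refine hmp hP (ih (Fintype.card {j // j ≠ e'}) ?_ rfl (fun j => h0 j.1) hc' hv'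
        (gc_par hg hne he))
      rw [← hn]
      exact Fintype.card_subtype_lt (x := e') (by simp)

/-- MG5: the composition. -/
theorem matroid_form_g {ι : Type} [Fintype ι] [DecidableEq ι] {W : Type} [Fintype W]
    [DecidableEq W] {F : Type} [AddCommGroup F] {P : F → Prop} (hP : ∀ x, P x → P (-x)) {a : F}
    (ha : P a) (ha2 : P (a + a)) {k g : ℕ} (hk : 2 ≤ k)
    (h : ∀ (V : Type) [Fintype V] [DecidableEq V] (G : SimpleGraph V) [DecidableRel G.Adj],
      (∀ v, G.degree v = 3) → (∀ S : Finset V, ¬ (G.induce (S : Set V)).IsAcyclic →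
      ¬ (G.induce ((Sᶜ : Finset V) : Set V)).IsAcyclic → k + 1 ≤ (G.interedges S Sᶜ).card) →
      (Pool.Agent.Log5.Gir G g ∨ Fintype.card V ≤ 6) → GP P G)
    {m : ℕ} {A : ι → Fin m → ZMod 2} (h0 : ∀ j, A j ≠ 0) {s t : ι → W} (hc : Cog A s t)
    (hv : VC A k) (hg : GC A (3 * g)) : MP P s t :=
  form_aux_g hP ha ha2 hk h (Fintype.card ι) rfl h0 hc hv hg

/-- MG6: the characteristic polynomials of cographic matroids of vertical connectivity `κ` and
large cogirth. -/
theorem matroid_five_g {κ : ℕ} (hκ : 3 ≤ κ) (h : ∃ g : ℕ, ∀ (V : Type) [Fintype V]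
    [DecidableEq V] (G : SimpleGraph V) [DecidableRel G.Adj], (∀ v, G.degree v = 3) →
    (∀ S : Finset V, ¬ (G.induce (S : Set V)).IsAcyclic →
      ¬ (G.induce ((Sᶜ : Finset V) : Set V)).IsAcyclic → κ ≤ (G.interedges S Sᶜ).card) →
    (Pool.Agent.Log5.Gir G g ∨ Fintype.card V ≤ 6) →
    ∀ i : ℕ, 5 ≤ i → HasNZFlow (ZMod i) G) :
    ∃ g : ℕ, ∀ (n m : ℕ) (A : Fin n → Fin m → ZMod 2), (∀ j, A j ≠ 0) →
      (∃ (p : ℕ) (s t : Fin n → Fin p), ∀ c : Fin n → ZMod 2,
        ∑ j, c j • A j = 0 ↔ ∃ S : Fin p → ZMod 2, ∀ j, c j = S (s j) + S (t j)) →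
      (∀ X : Set (Fin n),
        Module.finrank (ZMod 2) (Submodule.span (ZMod 2) (A '' X)) <
          Module.finrank (ZMod 2) (Submodule.span (ZMod 2) (Set.range A)) →
        Module.finrank (ZMod 2) (Submodule.span (ZMod 2) (A '' Xᶜ)) <
          Module.finrank (ZMod 2) (Submodule.span (ZMod 2) (Set.range A)) →
        κ + Module.finrank (ZMod 2) (Submodule.span (ZMod 2) (Set.range A)) ≤
          Module.finrank (ZMod 2) (Submodule.span (ZMod 2) (A '' X)) +
          Module.finrank (ZMod 2) (Submodule.span (ZMod 2) (A '' Xᶜ)) + 1 ∧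
        g ≤ (A '' X).ncard) →
      ∀ k : ℕ, 5 ≤ k →
        (∑ X : Finset (Fin n), (-1 : ℤ) ^ X.card *
          (k : ℤ) ^ (Module.finrank (ZMod 2) (Submodule.span (ZMod 2) (Set.range A)) -
            Module.finrank (ZMod 2) (Submodule.span (ZMod 2) (A '' (X : Set (Fin n)))))) ≠ 0 := by
  obtain ⟨g, hg⟩ := h
  refine ⟨3 * g, ?_⟩
  rintro n m A h0 ⟨p, s, t, hc⟩ hv i hi
  obtain ⟨k, rfl⟩ : ∃ k, κ = k + 1 := ⟨κ - 1, by omega⟩
  have hru : rk A Set.univ = Module.finrank (ZMod 2)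
      (Submodule.span (ZMod 2) (Set.range A)) := by
    unfold rk
    rw [Set.image_univ]
  have hvc : VC A k := by
    intro X h1 h2
    rw [hru] at h1 h2 ⊢
    have := (hv X h1 h2).1
    unfold rk
    omega
  have hgc : GC A (3 * g) := by
    intro X h1 h2
    rw [hru] at h1 h2
    exact (hv X h1 h2).2
  have hnt : Nontrivial (ZMod i) := ZMod.nontrivial_iff.2 (by omega)
  have h2 : (1 : ZMod i) + 1 ≠ 0 := by
    intro h
    have h3 : ((2 : ℕ) : ZMod i) = 0 := by
      push_cast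
      rw [← h]
      norm_num
    rw [ZMod.natCast_eq_zero_iff] at h3
    have := Nat.le_of_dvd (by norm_num) h3
    omega
  obtain ⟨f, hf, hf'⟩ := matroid_form_g (F := ZMod i) (P := fun x => x ≠ 0)
    (fun x hx => neg_ne_zero.2 hx) (a := 1) one_ne_zero h2 (k := k) (g := g) (by omega)
    (fun V _ _ G _ h3 hS hG => by
      obtain ⟨f, h1, h2, h4⟩ := hg V G h3 hS hG i hi
      exact ⟨f, h1, h4, fun u v huv => by
        by_contra h; exact huv ((h2 u v).1 h), fun u v huv => (h2 u v).2 huv⟩) h0 hc hvc hgc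
  have : NeZero i := ⟨by omega⟩
  have hpos : 0 < {f : Fin n → ZMod i | Flo s t f ∧ ∀ j, f j ≠ 0}.ncard := by
    rw [Set.ncard_pos (Set.toFinite _)]
    exact ⟨f, hf, hf'⟩
  have hne : chi A i ≠ 0 := by
    rw [chi_eq hc (by omega)]
    exact_mod_cast hpos.ne'
  unfold chi at hne
  rw [hru] at hne
  exact hne

end Pool.Agent.K5.Mat
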