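import Mathlib
import Pool.Agent.Work.MP_974d84_co_k5.ExtGlue
import Pool.Agent.Work.MP_974d84_co_k5.Bead

/-!
# From contractions to local replacements

A vertex set `P` whose boundary edges are far apart is replaced by a ring of triangles; the
new graph is simple, cubic and bridgeless, it agrees with `G` outside `P`, and it has fewer
vertices. So a nowhere-zero flow of this local replacement gives one of the contraction `G / P`.
-/

set_option linter.unusedSectionVars false

namespace Pool.Agent.K5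

open Finset SimpleGraph Pool.Agent.Exp Pool.Agent.Log5 Pool.Agent.Log5.Clu MP974d84
open Pool.Agent.Work.MP_314beb_co

/-- Adjacency in a ring of `k + 2` triangles. -/
def RAdj {k : ℕ} (r s : Fin (k + 2) × Fin 3) : Prop :=
  (r.1 = s.1 ∧ r.2 ≠ s.2) ∨ (r.2 = 1 ∧ s.2 = 2 ∧ s.1 = r.1 + 1) ∨
    (r.2 = 2 ∧ s.2 = 1 ∧ r.1 = s.1 + 1)

instance {k : ℕ} : DecidableRel (RAdj (k := k)) := fun _ _ => by
  unfold RAdj
  infer_instance

theorem RAdj.symm' {k : ℕ} {r s : Fin (k + 2) × Fin 3} (h : RAdj r s) : RAdj s r := by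
  rcases h with ⟨h1, h2⟩ | ⟨h1, h2, h3⟩ | ⟨h1, h2, h3⟩
  · exact Or.inl ⟨h1.symm, h2.symm⟩
  · exact Or.inr (Or.inr ⟨h2, h1, h3⟩)
  · exact Or.inr (Or.inl ⟨h2, h1, h3⟩)

theorem RAdj.irr {k : ℕ} {r : Fin (k + 2) × Fin 3} : ¬ RAdj r r := by
  rintro (⟨-, h⟩ | ⟨h1, h2, -⟩ | ⟨h1, h2, -⟩)
  · exact h rfl
  · rw [h1] at h2
    exact absurd h2 (by decide)
  · rw [h1] at h2
    exact absurd h2 (by decide)

/-- The next vertex on the Hamilton circuit of the ring. -/
def rnx {k : ℕ} (r : Fin (k + 2) × Fin 3) : Fin (k + 2) × Fin 3 :=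
  if r.2 = 0 then (r.1, 1) else if r.2 = 1 then (r.1 + 1, 2) else (r.1, 0)

theorem fin3 (a : Fin 3) : a = 0 ∨ a = 1 ∨ a = 2 := by
  revert a
  decide

theorem rnx_adj {k : ℕ} (r : Fin (k + 2) × Fin 3) : RAdj r (rnx r) := by
  obtain ⟨i, a⟩ := r
  rcases fin3 a with rfl | rfl | rfl
  · exact Or.inl ⟨rfl, by simp [rnx]⟩
  · exact Or.inr (Or.inl ⟨rfl, rfl, rfl⟩)
  · exact Or.inl ⟨by simp [rnx], by simp [rnx]⟩

theorem rnx_rnx {k : ℕ} (r : Fin (k + 2) × Fin 3) : rnx (rnx r) ≠ r := by
  obtain ⟨i, a⟩ := r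
  intro h
  have h1 := congrArg Prod.snd h
  rcases fin3 a with rfl | rfl | rfl <;> simp [rnx] at h1

theorem rnx3 {k : ℕ} (i : Fin (k + 2)) (a : Fin 3) : rnx (rnx (rnx (i, a))) = (i + 1, a) := by
  rcases fin3 a with rfl | rfl | rfl <;> simp [rnx]

theorem nsmul_one_fin {k : ℕ} (x : Fin (k + 2)) : x.val • (1 : Fin (k + 2)) = x := by
  have h : ∀ n (hn : n < k + 2), n • (1 : Fin (k + 2)) = ⟨n, hn⟩ := by
    intro n
    induction n with
    | zero => intro hn; rw [zero_nsmul]; rfl
    | succ n ih =>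
      intro hn
      rw [succ_nsmul, ih (by omega)]
      refine Fin.ext ?_
      rw [Fin.val_add]
      have h1 : ((1 : Fin (k + 2)) : ℕ) = 1 := rfl
      rw [h1]
      exact Nat.mod_eq_of_lt hn
  exact h x.val x.isLt

theorem ring_closed {k : ℕ} (T : Fin (k + 2) × Fin 3 → Prop) (hT : ∀ r, T r → T (rnx r))
    {r₀ : Fin (k + 2) × Fin 3} (h0 : T r₀) : ∀ r, T r := by
  have h1 : ∀ i a, T (i, a) → ∀ b, T (i + 1, b) := by
    intro i a h
    have h3 : ∀ j c, T (j, c) → T (j + 1, c) := fun j c hc => by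
      rw [← rnx3]
      exact hT _ (hT _ (hT _ hc))
    have h4 : ∀ c, T (i + 1, c) := by
      intro b
      have e0 : T (i, 0) → T (i, 1) := fun h => by
        have := hT _ h
        simpa [rnx] using this
      have e1 : T (i, 1) → T (i + 1, 2) := fun h => by
        have := hT _ h
        simpa [rnx] using this
      have e2 : T (i, 2) → T (i, 0) := fun h => by
        have := hT _ h
        simpa [rnx] using this
      have f2 : T (i + 1, 2) → T (i + 1, 0) := fun h => by
        have := hT _ h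
        simpa [rnx] using this
      have f0 : T (i + 1, 0) → T (i + 1, 1) := fun h => by
        have := hT _ h
        simpa [rnx] using this
      have g1 : T (i, 1) := by
        rcases fin3 a with rfl | rfl | rfl
        · exact e0 h
        · exact h
        · exact e0 (e2 h)
      have g2 := e1 g1
      rcases fin3 b with rfl | rfl | rfl
      · exact f2 g2
      · exact f0 (f2 g2)
      · exact g2
    exact h4
  obtain ⟨i₀, a₀⟩ := r₀
  have h2 : ∀ n : ℕ, ∀ b, T (i₀ + 1 + n • (1 : Fin (k + 2)), b) := by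
    intro n
    induction n with
    | zero => intro b; simpa using h1 i₀ a₀ h0 b
    | succ n ih =>
      intro b
      have := h1 _ 0 (ih 0) b
      rw [add_assoc] at this
      rw [succ_nsmul]
      exact this
  rintro ⟨j, b⟩
  have h5 : i₀ + 1 + (j - (i₀ + 1)).val • (1 : Fin (k + 2)) = j := by
    rw [nsmul_one_fin]
    abel
  rw [← h5]
  exact h2 _ b

variable {V : Type} [Fintype V] [DecidableEq V]

/-- The graph in which the vertex set `P` is replaced by a ring of triangles. -/
def ringG (G : SimpleGraph V) (P : Finset V) {k : ℕ} (o : Fin (k + 2) → V) :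
    SimpleGraph ({v // v ∉ P} ⊕ (Fin (k + 2) × Fin 3)) where
  Adj x y := match x, y with
    | Sum.inl u, Sum.inl v => G.Adj u.1 v.1
    | Sum.inl u, Sum.inr s => s.2 = 0 ∧ o s.1 = u.1
    | Sum.inr r, Sum.inl v => r.2 = 0 ∧ o r.1 = v.1
    | Sum.inr r, Sum.inr s => RAdj r s
  symm := ⟨by
    rintro (u | r) (v | s) h
    · exact h.symm
    · exact h
    · exact h
    · exact RAdj.symm' h⟩
  loopless := ⟨by
    rintro (u | r) h
    · exact G.loopless.irrefl _ h
    · exact RAdj.irr h⟩

/-- The boundary edges of `P`. -/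
structure Bds (G : SimpleGraph V) (P : Finset V) {k : ℕ} (β o : Fin (k + 2) → V) : Prop where
  inj : Function.Injective β
  mem : ∀ i, β i ∈ P
  out : ∀ i, o i ∉ P
  adj : ∀ i, G.Adj (β i) (o i)
  all : ∀ u v, u ∈ P → v ∉ P → G.Adj u v → ∃ i, u = β i ∧ v = o i

section

variable {G : SimpleGraph V} {P : Finset V} {k : ℕ} {β o : Fin (k + 2) → V}

/-- The projection to the old vertices. -/
def rpr (P : Finset V) {k : ℕ} (β : Fin (k + 2) → V) : {v // v ∉ P} ⊕ (Fin (k + 2) × Fin 3) → V
  | Sum.inl u => u.1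
  | Sum.inr r => β r.1

open Classical in
theorem ring_degree [DecidableRel G.Adj] (h3 : ∀ v, G.degree v = 3) (hB : Bds G P β o) (w) :
    (ringG G P o).degree w = 3 := by
  rcases w with v | ⟨i, a⟩
  · refine Eq.trans ?_ (h3 v.1)
    rw [← card_neighborFinset_eq_degree, ← card_neighborFinset_eq_degree]
    refine card_bij (fun x _ => rpr P β x) ?_ ?_ ?_
    · rintro (u | s) hx
      · rw [mem_neighborFinset] at hx ⊢
        exact hx
      · rw [mem_neighborFinset] at hx ⊢
        have hx' : s.2 = 0 ∧ o s.1 = v.1 := hx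
        rw [← hx'.2]
        exact (hB.adj s.1).symm
    · rintro (u | s) hx (u' | s') hx' h
      · exact congrArg Sum.inl (Subtype.ext h)
      · have h' : u.1 = β s'.1 := h
        exact absurd (h' ▸ hB.mem s'.1) u.2
      · have h' : β s.1 = u'.1 := h
        exact absurd (h' ▸ hB.mem s.1) u'.2
      · rw [mem_neighborFinset] at hx hx'
        have h1 : s.2 = 0 ∧ o s.1 = v.1 := hx
        have h2 : s'.2 = 0 ∧ o s'.1 = v.1 := hx'
        exact congrArg Sum.inr (Prod.ext (hB.inj h) (h1.1.trans h2.1.symm))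
    · intro u hu
      rw [mem_neighborFinset] at hu
      by_cases huP : u ∈ P
      · obtain ⟨i, h1, h2⟩ := hB.all u v.1 huP v.2 hu.symm
        refine ⟨Sum.inr (i, 0), ?_, h1.symm⟩
        rw [mem_neighborFinset]
        exact ⟨rfl, h2.symm⟩
      · refine ⟨Sum.inl ⟨u, huP⟩, ?_, rfl⟩
        rw [mem_neighborFinset]
        exact hu
  · rw [← card_neighborFinset_eq_degree]
    rcases fin3 a with rfl | rfl | rfl
    · have h1 : (ringG G P o).neighborFinset (Sum.inr (i, 0)) =
          {Sum.inl ⟨o i, hB.out i⟩, Sum.inr (i, 1), Sum.inr (i, 2)} := by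
        ext x
        rw [mem_neighborFinset]
        simp only [mem_insert, mem_singleton]
        rcases x with u | ⟨j, b⟩
        · constructor
          · rintro ⟨-, h⟩
            exact Or.inl (congrArg Sum.inl (Subtype.ext h.symm))
          · rintro (h | h | h)
            · exact ⟨rfl, (congrArg Subtype.val (Sum.inl.inj h)).symm⟩
            · exact absurd h (by simp)
            · exact absurd h (by simp)
        · constructor
          · rintro (⟨h1, h2⟩ | ⟨h1, h2, h3⟩ | ⟨h1, h2, h3⟩)
            · change i = j at h1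
              change (0 : Fin 3) ≠ b at h2
              subst h1
              rcases fin3 b with rfl | rfl | rfl
              · exact absurd rfl h2
              · exact Or.inr (Or.inl rfl)
              · exact Or.inr (Or.inr rfl)
            · exact absurd h1 (by simp)
            · exact absurd h1 (by simp)
          · rintro (h | h | h)
            · exact absurd h (by simp)
            · obtain ⟨rfl, rfl⟩ := Prod.mk.inj (Sum.inr.inj h)
              exact Or.inl ⟨rfl, by simp⟩
            · obtain ⟨rfl, rfl⟩ := Prod.mk.inj (Sum.inr.inj h)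
              exact Or.inl ⟨rfl, by simp⟩
      rw [h1]
      rw [card_insert_of_notMem (by simp), card_insert_of_notMem (by simp), card_singleton]
    · have h1 : (ringG G P o).neighborFinset (Sum.inr (i, 1)) =
          {Sum.inr (i, 0), Sum.inr (i, 2), Sum.inr (i + 1, 2)} := by
        ext x
        rw [mem_neighborFinset]
        simp only [mem_insert, mem_singleton]
        rcases x with u | ⟨j, b⟩
        · constructor
          · rintro ⟨h, -⟩
            exact absurd h (by simp)
          · rintro (h | h | h) <;> exact absurd h (by simp)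
        · constructor
          · rintro (⟨h1, h2⟩ | ⟨h1, h2, h3⟩ | ⟨h1, h2, h3⟩)
            · change i = j at h1
              change (1 : Fin 3) ≠ b at h2
              subst h1
              rcases fin3 b with rfl | rfl | rfl
              · exact Or.inl rfl
              · exact absurd rfl h2
              · exact Or.inr (Or.inl rfl)
            · change b = 2 at h2
              change j = i + 1 at h3
              subst h2 h3
              exact Or.inr (Or.inr rfl)
            · exact absurd h1 (by simp)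
          · rintro (h | h | h)
            · obtain ⟨rfl, rfl⟩ := Prod.mk.inj (Sum.inr.inj h)
              exact Or.inl ⟨rfl, by simp⟩
            · obtain ⟨rfl, rfl⟩ := Prod.mk.inj (Sum.inr.inj h)
              exact Or.inl ⟨rfl, by simp⟩
            · obtain ⟨rfl, rfl⟩ := Prod.mk.inj (Sum.inr.inj h)
              exact Or.inr (Or.inl ⟨rfl, rfl, rfl⟩)
      rw [h1]
      rw [card_insert_of_notMem (by simp), card_insert_of_notMem (by simp), card_singleton]
    · have h1 : (ringG G P o).neighborFinset (Sum.inr (i, 2)) =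
          {Sum.inr (i, 0), Sum.inr (i, 1), Sum.inr (i - 1, 1)} := by
        ext x
        rw [mem_neighborFinset]
        simp only [mem_insert, mem_singleton]
        rcases x with u | ⟨j, b⟩
        · constructor
          · rintro ⟨h, -⟩
            exact absurd h (by simp)
          · rintro (h | h | h) <;> exact absurd h (by simp)
        · constructor
          · rintro (⟨h1, h2⟩ | ⟨h1, h2, h3⟩ | ⟨h1, h2, h3⟩)
            · change i = j at h1
              change (2 : Fin 3) ≠ b at h2
              subst h1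
              rcases fin3 b with rfl | rfl | rfl
              · exact Or.inl rfl
              · exact Or.inr (Or.inl rfl)
              · exact absurd rfl h2
            · exact absurd h1 (by simp)
            · change b = 1 at h2
              change i = j + 1 at h3
              subst h2
              refine Or.inr (Or.inr ?_)
              rw [h3, add_sub_cancel_right]
          · rintro (h | h | h)
            · obtain ⟨rfl, rfl⟩ := Prod.mk.inj (Sum.inr.inj h)
              exact Or.inl ⟨rfl, by simp⟩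
            · obtain ⟨rfl, rfl⟩ := Prod.mk.inj (Sum.inr.inj h)
              exact Or.inl ⟨rfl, by simp⟩
            · obtain ⟨rfl, rfl⟩ := Prod.mk.inj (Sum.inr.inj h)
              exact Or.inr (Or.inr ⟨rfl, rfl, by simp⟩)
      have h2 : i ≠ i - 1 := fun h => one_ne_zero (sub_eq_self.1 h.symm)
      rw [h1]
      rw [card_insert_of_notMem (by simp), card_insert_of_notMem (by simp [h2]), card_singleton]

/-- The new graph is bridgeless and connected. -/
theorem ring_cut [DecidableRel G.Adj] [DecidableRel (ringG G P o).Adj]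
    (hbr : ∀ A : Finset V, A.Nonempty → Aᶜ.Nonempty → 2 ≤ dd G A)
    (hB : Bds G P β o) (A : Finset ({v // v ∉ P} ⊕ (Fin (k + 2) × Fin 3))) (hA : A.Nonempty)
    (hA' : Aᶜ.Nonempty) : 2 ≤ dd (ringG G P o) A := by
  classical
  by_cases hs : (∀ r, Sum.inr r ∈ A) ∨ ∀ r, Sum.inr r ∉ A
  · -- the ring is not split
    let A' : Finset V := univ.filter fun v =>
      (v ∈ P ∧ Sum.inr ((0 : Fin (k + 2)), (0 : Fin 3)) ∈ A) ∨ ∃ h : v ∉ P, Sum.inl ⟨v, h⟩ ∈ A
    have hin : ∀ v, v ∈ P → (v ∈ A' ↔ Sum.inr ((0 : Fin (k + 2)), (0 : Fin 3)) ∈ A) := by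
      intro v hv
      simp only [A', mem_filter, mem_univ, true_and]
      constructor
      · rintro (h | ⟨h, _⟩)
        · exact h.2
        · exact absurd hv h
      · exact fun h => Or.inl ⟨hv, h⟩
    have hout : ∀ v (hv : v ∉ P), (v ∈ A' ↔ Sum.inl ⟨v, hv⟩ ∈ A) := by
      intro v hv
      simp only [A', mem_filter, mem_univ, true_and]
      constructor
      · rintro (h | ⟨_, h⟩)
        · exact absurd h.1 hv
        · exact h
      · exact fun h => Or.inr ⟨hv, h⟩
    have hring : ∀ r r', Sum.inr r ∈ A → Sum.inr r' ∈ A := by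
      rcases hs with hs | hs
      · exact fun _ r' _ => hs r'
      · exact fun r _ h => absurd h (hs r)
    have hPne : P.Nonempty := ⟨β 0, hB.mem 0⟩
    have h1 : A'.Nonempty := by
      obtain ⟨x, hx⟩ := hA
      rcases x with u | r
      · exact ⟨u.1, (hout u.1 u.2).2 hx⟩
      · exact ⟨β 0, (hin _ (hB.mem 0)).2 (hring _ _ hx)⟩
    have h2 : A'ᶜ.Nonempty := by
      obtain ⟨x, hx⟩ := hA'
      rw [mem_compl] at hx
      rcases x with u | r
      · exact ⟨u.1, mem_compl.2 fun h => hx ((hout u.1 u.2).1 h)⟩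
      · refine ⟨β 0, mem_compl.2 fun h => hx ?_⟩
        exact hring _ _ ((hin _ (hB.mem 0)).1 h)
    refine (hbr A' h1 h2).trans ?_
    -- the old cut edges
    let φ : V × V → ({v // v ∉ P} ⊕ (Fin (k + 2) × Fin 3)) × ({v // v ∉ P} ⊕ (Fin (k + 2) × Fin 3))
      → Prop := fun p q => rpr P β q.1 = p.1 ∧ rpr P β q.2 = p.2
    have h3 : ∀ p ∈ cut G A', ∃ q ∈ cut (ringG G P o) A, φ p q := by
      rintro ⟨u, v⟩ hp
      rw [mem_cut] at hp
      obtain ⟨hu, hv, huv⟩ := hp
      change u ∈ A' at hu
      change v ∉ A' at hv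
      change G.Adj u v at huv
      by_cases huP : u ∈ P <;> by_cases hvP : v ∈ P
      · exact absurd ((hin v hvP).2 ((hin u huP).1 hu)) hv
      · obtain ⟨i, e1, e2⟩ := hB.all u v huP hvP huv
        refine ⟨(Sum.inr (i, 0), Sum.inl ⟨v, hvP⟩), ?_, e1.symm, rfl⟩
        rw [mem_cut]
        exact ⟨hring _ _ ((hin u huP).1 hu), fun h => hv ((hout v hvP).2 h), rfl, e2.symm⟩
      · obtain ⟨i, e1, e2⟩ := hB.all v u hvP huP huv.symm
        refine ⟨(Sum.inl ⟨u, huP⟩, Sum.inr (i, 0)), ?_, rfl, e1.symm⟩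
        rw [mem_cut]
        exact ⟨(hout u huP).1 hu, fun h => hv ((hin v hvP).2 (hring _ _ h)), rfl, e2.symm⟩
      · refine ⟨(Sum.inl ⟨u, huP⟩, Sum.inl ⟨v, hvP⟩), ?_, rfl, rfl⟩
        rw [mem_cut]
        exact ⟨(hout u huP).1 hu, fun h => hv ((hout v hvP).2 h), huv⟩
    choose! g hg using h3
    refine card_le_card_of_injOn g (fun p hp => (hg p hp).1) ?_
    intro p hp p' hp' h
    have e1 := (hg p hp).2
    have e2 := (hg p' hp').2
    rw [h] at e1
    exact Prod.ext (e1.1.symm.trans e2.1) (e1.2.symm.trans e2.2)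
  · -- the ring is split
    push Not at hs
    obtain ⟨⟨r₁, hr₁⟩, r₂, hr₂⟩ := hs
    have h1 : ∃ r, Sum.inr r ∈ A ∧ Sum.inr (rnx r) ∉ A := by
      by_contra h
      push Not at h
      exact hr₁ (ring_closed (fun r => Sum.inr r ∈ A) h hr₂ r₁)
    have h2 : ∃ r, Sum.inr r ∉ A ∧ Sum.inr (rnx r) ∈ A := by
      by_contra h
      push Not at h
      exact (ring_closed (fun r => Sum.inr r ∉ A) h hr₁ r₂) hr₂
    obtain ⟨r, h3, h4⟩ := h1
    obtain ⟨s, h5, h6⟩ := h2
    have h7 : ({(Sum.inr r, Sum.inr (rnx r)), (Sum.inr (rnx s), Sum.inr s)} :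
        Finset (({v // v ∉ P} ⊕ (Fin (k + 2) × Fin 3)) × ({v // v ∉ P} ⊕ (Fin (k + 2) × Fin 3))))
        ⊆ cut (ringG G P o) A := by
      intro p hp
      rw [mem_insert, mem_singleton] at hp
      rw [mem_cut]
      rcases hp with rfl | rfl
      · exact ⟨h3, h4, rnx_adj r⟩
      · exact ⟨h6, h5, (rnx_adj s).symm'⟩
    refine le_trans ?_ (card_le_card h7)
    rw [card_pair]
    intro h
    have e1 := Sum.inr.inj (congrArg Prod.fst h)
    have e2 := Sum.inr.inj (congrArg Prod.snd h)
    rw [e1] at e2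
    exact rnx_rnx s e2

open Classical in
/-- The restriction of a flow of the new graph. -/
theorem ring_flow [DecidableRel G.Adj] (hB : Bds G P β o)
    (h : HasNZFlow (ZMod 5) (ringG G P o)) : ContrFlow G P := by
  obtain ⟨g, g1, g2, g3⟩ := h
  let f : V → V → ZMod 5 := fun u v =>
    if hu : u ∈ P then if hv : v ∈ P then 0 else
      ∑ i, if β i = u then g (Sum.inr (i, 0)) (Sum.inl ⟨v, hv⟩) else 0
    else if hv : v ∈ P then ∑ i, if β i = v then g (Sum.inl ⟨u, hu⟩) (Sum.inr (i, 0)) else 0 else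
      g (Sum.inl ⟨u, hu⟩) (Sum.inl ⟨v, hv⟩)
  have f1 : ∀ u v, u ∈ P → v ∈ P → f u v = 0 := fun u v hu hv => by simp [f, hu, hv]
  have f2 : ∀ u v (hu : u ∈ P) (hv : v ∉ P), f u v =
      ∑ i, if β i = u then g (Sum.inr (i, 0)) (Sum.inl ⟨v, hv⟩) else 0 := fun u v hu hv => by
    simp [f, hu, hv]
  have f3 : ∀ u v (hu : u ∉ P) (hv : v ∈ P), f u v =
      ∑ i, if β i = v then g (Sum.inl ⟨u, hu⟩) (Sum.inr (i, 0)) else 0 := fun u v hu hv => by
    simp [f, hu, hv]
  have f4 : ∀ u v (hu : u ∉ P) (hv : v ∉ P), f u v = g (Sum.inl ⟨u, hu⟩) (Sum.inl ⟨v, hv⟩) :=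
    fun u v hu hv => by simp [f, hu, hv]
  have anti : ∀ u v, f u v = - f v u := by
    intro u v
    by_cases hu : u ∈ P <;> by_cases hv : v ∈ P
    · rw [f1 u v hu hv, f1 v u hv hu, neg_zero]
    · rw [f2 u v hu hv, f3 v u hv hu, ← sum_neg_distrib]
      refine sum_congr rfl fun i _ => ?_
      split_ifs
      · exact g1 _ _
      · exact neg_zero.symm
    · rw [f3 u v hu hv, f2 v u hv hu, ← sum_neg_distrib]
      refine sum_congr rfl fun i _ => ?_
      split_ifs
      · exact g1 _ _
      · exact neg_zero.symm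
    · rw [f4 u v hu hv, f4 v u hv hu]
      exact g1 _ _
  have nz : ∀ u v, u ∈ P → v ∉ P → (f u v ≠ 0 ↔ G.Adj u v) := by
    intro u v hu hv
    rw [f2 u v hu hv]
    by_cases hi : ∃ i, β i = u
    · obtain ⟨i, rfl⟩ := hi
      rw [sum_eq_single i (fun j _ hj => if_neg fun h => hj (hB.inj h))
        (fun h => absurd (mem_univ i) h), if_pos rfl, g2]
      constructor
      · rintro ⟨-, h⟩
        have h' : o i = v := h
        rw [← h']
        exact hB.adj i
      · intro h
        obtain ⟨j, e1, e2⟩ := hB.all _ _ hu hv h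
        have e3 := hB.inj e1
        subst e3
        exact ⟨rfl, e2.symm⟩
    · constructor
      · intro h
        exact absurd (sum_eq_zero fun i _ => if_neg fun h' => hi ⟨i, h'⟩) h
      · intro h
        obtain ⟨j, e1, -⟩ := hB.all _ _ hu hv h
        exact absurd ⟨j, e1.symm⟩ hi
  refine ⟨f, anti, fun u v => ?_, fun v hv => ?_⟩
  · by_cases hu : u ∈ P <;> by_cases hv : v ∈ P
    · constructor
      · intro h
        exact absurd (f1 u v hu hv) h
      · rintro ⟨-, h⟩
        exact absurd ⟨hu, hv⟩ h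
    · rw [nz u v hu hv]
      exact ⟨fun h => ⟨h, fun h' => hv h'.2⟩, fun h => h.1⟩
    · rw [anti u v, neg_ne_zero, nz v u hv hu]
      exact ⟨fun h => ⟨h.symm, fun h' => hu h'.1⟩, fun h => h.1.symm⟩
    · rw [f4 u v hu hv, g2]
      exact ⟨fun h => ⟨h, fun h' => hu h'.1⟩, fun h => h.1⟩
  · have h1 := g3 (Sum.inl ⟨v, hv⟩)
    rw [Fintype.sum_sum_type, Fintype.sum_prod_type] at h1
    rw [← h1, ← sum_add_sum_compl P, add_comm]
    congr 1
    · have h2 : ∑ x : {v // v ∉ P}, g (Sum.inl ⟨v, hv⟩) (Sum.inl x) =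
          ∑ x : {v // v ∉ P}, f v x.1 := sum_congr rfl fun x _ => (f4 v x.1 hv x.2).symm
      rw [h2]
      exact (sum_subtype Pᶜ (fun x => mem_compl) (fun x => f v x))
    · rw [sum_congr rfl fun u hu => f3 v u hv hu, sum_comm]
      refine sum_congr rfl fun i _ => ?_
      rw [sum_ite_eq P (β i), if_pos (hB.mem i), Fin.sum_univ_three]
      have e1 : g (Sum.inl ⟨v, hv⟩) (Sum.inr (i, 1)) = 0 := by
        by_contra h
        exact absurd ((g2 _ _).1 h).1 (by simp)
      have e2 : g (Sum.inl ⟨v, hv⟩) (Sum.inr (i, 2)) = 0 := by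
        by_contra h
        exact absurd ((g2 _ _).1 h).1 (by simp)
      rw [e1, e2, add_zero, add_zero]

end

section

variable {G : SimpleGraph V} [DecidableRel G.Adj] {P : Finset V}

theorem two_le_ee {Q : Finset V} {u v w z : V} (hu : u ∈ Q) (hv : v ∈ Q) (hw : w ∉ P)
    (hz : z ∉ P) (huw : G.Adj u w) (hvz : G.Adj v z) (hne : (u, w) ≠ (v, z)) :
    2 ≤ ee G Q Pᶜ := by
  unfold ee
  refine le_trans ?_ (card_le_card (s := {(u, w), (v, z)}) ?_)
  · rw [card_pair hne]
  · intro p hp
    rw [mem_insert, mem_singleton] at hp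
    rcases hp with rfl | rfl
    · exact mem_filter.2 ⟨mem_univ _, hu, mem_compl.2 hw, huw⟩
    · exact mem_filter.2 ⟨mem_univ _, hv, mem_compl.2 hz, hvz⟩

theorem farB_uniq {D : ℕ} (hF : FarB G D P) (hD : 1 ≤ D) {v w w' : V} (hv : v ∈ P) (hw : w ∉ P)
    (hw' : w' ∉ P) (h : G.Adj v w) (h' : G.Adj v w') : w = w' := by
  by_contra hne
  have h1 : (G.induce (({v} : Finset V) : Set V)).Connected := by
    rw [coe_singleton]
    exact SimpleGraph.Connected.mk (by
      rintro ⟨a, ha⟩ ⟨b, hb⟩
      rw [Set.mem_singleton_iff] at ha hb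
      subst ha hb
      exact Reachable.refl _)
  have h2 := hF {v} (singleton_subset_iff.2 hv) (by rw [card_singleton]; exact hD) h1
  have h3 := two_le_ee (P := P) (mem_singleton_self v) (mem_singleton_self v) hw hw' h h'
    (fun h => hne (congrArg Prod.snd h))
  omega

/-- Four vertices near a boundary vertex. -/
theorem four_near (h3 : ∀ v, G.degree v = 3) {D : ℕ} (hF : FarB G D P) (hD : 2 ≤ D) {b w : V}
    (hb : b ∈ P) (hw : w ∉ P) (hbw : G.Adj b w) : ∃ N ⊆ P, b ∈ N ∧ N.card = 4 ∧
      (G.induce (N : Set V)).Connected := by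
  -- the neighbours of the boundary vertex
  have h1 : (G.neighborFinset b).card = 3 := by rw [card_neighborFinset_eq_degree, h3]
  have h2 : ((G.neighborFinset b).erase w).card = 2 := by
    rw [card_erase_of_mem (by rwa [mem_neighborFinset]), h1]
  obtain ⟨c₁, c₂, hc, hcc⟩ := card_eq_two.1 h2
  have hm : ∀ c, c ∈ (G.neighborFinset b).erase w → G.Adj b c ∧ c ∈ P := by
    intro c hc
    rw [mem_erase, mem_neighborFinset] at hc
    refine ⟨hc.2, ?_⟩
    by_contra hcP
    exact hc.1 (farB_uniq hF (by omega) hb hcP hw hc.2 hbw)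
  obtain ⟨a1, m1⟩ := hm c₁ (by rw [hcc]; simp)
  obtain ⟨a2, m2⟩ := hm c₂ (by rw [hcc]; simp)
  -- the first neighbour is not a boundary vertex
  have hin : ∀ z, G.Adj c₁ z → z ∈ P := by
    intro z hz
    by_contra hzP
    have h4 : (G.induce (({b, c₁} : Finset V) : Set V)).Connected := by
      rw [coe_pair]
      exact induce_pair_connected_of_adj a1
    have h5 := hF {b, c₁} (by
      intro x hx
      rw [mem_insert, mem_singleton] at hx
      rcases hx with rfl | rfl
      · exact hb
      · exact m1) ((card_le_two).trans hD) h4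
    have h6 := two_le_ee (P := P) (Q := {b, c₁}) (by simp) (by simp) hw hzP hbw hz
      (fun h => a1.ne (congrArg Prod.fst h))
    omega
  have h7 : (((G.neighborFinset c₁).erase b).erase c₂).Nonempty := by
    rw [← card_pos]
    have h8 : (G.neighborFinset c₁).card = 3 := by rw [card_neighborFinset_eq_degree, h3]
    have h9 := pred_card_le_card_erase (s := G.neighborFinset c₁) (a := b)
    have h10 := pred_card_le_card_erase (s := (G.neighborFinset c₁).erase b) (a := c₂)
    omega
  obtain ⟨d, hd⟩ := h7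
  rw [mem_erase, mem_erase, mem_neighborFinset] at hd
  obtain ⟨d2, d1, d3⟩ := hd
  refine ⟨{b, c₁, c₂, d}, ?_, by simp, ?_, ?_⟩
  · intro x hx
    simp only [mem_insert, mem_singleton] at hx
    rcases hx with rfl | rfl | rfl | rfl
    · exact hb
    · exact m1
    · exact m2
    · exact hin _ d3
  · rw [card_insert_of_notMem, card_insert_of_notMem, card_insert_of_notMem, card_singleton]
    · simp only [mem_singleton]
      exact fun h => d2 h.symm
    · simp only [mem_insert, mem_singleton, not_or]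
      exact ⟨hc, d3.ne⟩
    · simp only [mem_insert, mem_singleton, not_or]
      exact ⟨a1.ne, a2.ne, fun h => d1 h.symm⟩
  · have e1 : (G.induce ({b, c₁} : Set V)).Connected := induce_pair_connected_of_adj a1
    have e2 : (G.induce ({b, c₂} : Set V)).Connected := induce_pair_connected_of_adj a2
    have e3 : (G.induce ({c₁, d} : Set V)).Connected := induce_pair_connected_of_adj d3
    have e4 := induce_union_connected e1.preconnected e2.preconnected
      ⟨b, by simp, by simp⟩
    have e5 := induce_union_connected e4.preconnected e3.preconnected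
      ⟨c₁, by simp, by simp⟩
    have e6 : (({b, c₁, c₂, d} : Finset V) : Set V) = ({b, c₁} ∪ {b, c₂}) ∪ {c₁, d} := by
      ext x
      simp only [coe_insert, coe_singleton, Set.mem_insert_iff, Set.mem_singleton_iff,
        Set.mem_union]
      tauto
    rw [e6]
    exact e5

/-- The boundary data of `P`. -/
theorem exists_bds (hd : 2 ≤ dd G P)
    (hone : ∀ v ∈ P, ∀ w w', w ∉ P → w' ∉ P → G.Adj v w → G.Adj v w' → w = w') :
    ∃ (k : ℕ) (β o : Fin (k + 2) → V), Bds G P β o := by
  classical
  let B : Finset V := P.filter fun v => ∃ w, w ∉ P ∧ G.Adj v w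
  have h1 : dd G P ≤ B.card := by
    unfold dd
    refine card_le_card_of_injOn Prod.fst ?_ ?_
    · intro p hp
      rw [mem_coe, mem_cut] at hp
      exact mem_coe.2 (mem_filter.2 ⟨hp.1, p.2, hp.2.1, hp.2.2⟩)
    · intro p hp q hq h
      rw [mem_coe, mem_cut] at hp hq
      refine Prod.ext h (hone p.1 hp.1 _ _ hp.2.1 hq.2.1 hp.2.2 ?_)
      rw [h]
      exact hq.2.2
  obtain ⟨k, hk⟩ : ∃ k, B.card = k + 2 := ⟨B.card - 2, by omega⟩
  let e := (B.equivFinOfCardEq hk).symm
  have h2 : ∀ i, (e i).1 ∈ P ∧ ∃ w, w ∉ P ∧ G.Adj (e i).1 w := fun i => mem_filter.1 (e i).2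
  choose o ho using fun i => (h2 i).2
  refine ⟨k, fun i => (e i).1, o, fun i j h => e.injective (Subtype.ext h), fun i => (h2 i).1,
    fun i => (ho i).1, fun i => (ho i).2, fun u v hu hv huv => ?_⟩
  have h4 : u ∈ B := mem_filter.2 ⟨hu, v, hv, huv⟩
  refine ⟨e.symm ⟨u, h4⟩, by rw [Equiv.apply_symm_apply], ?_⟩
  refine hone u hu _ _ hv (ho _).1 huv ?_
  have h5 := (ho (e.symm ⟨u, h4⟩)).2
  rw [Equiv.apply_symm_apply] at h5
  exact h5

/-- A set whose boundary edges are far apart has more than `3 (k + 2)` vertices, where `k + 2` is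
the number of its boundary edges. -/
theorem ring_small (h3 : ∀ v, G.degree v = 3) {D : ℕ} (hD : 8 ≤ D) (hF : FarB G D P) {k : ℕ}
    {β o : Fin (k + 2) → V} (hB : Bds G P β o) : 4 * (k + 2) ≤ P.card := by
  classical
  have h1 : ∀ i, ∃ N ⊆ P, β i ∈ N ∧ N.card = 4 ∧ (G.induce (N : Set V)).Connected := fun i =>
    four_near h3 hF (by omega) (hB.mem i) (hB.out i) (hB.adj i)
  choose N hN1 hN2 hN3 hN4 using h1
  have hdisj : ∀ i ∈ (univ : Finset (Fin (k + 2))), ∀ j ∈ (univ : Finset (Fin (k + 2))),
      i ≠ j → Disjoint (N i) (N j) := by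
    intro i _ j _ hij
    by_contra hd
    rw [not_disjoint_iff] at hd
    obtain ⟨x, hx, hx'⟩ := hd
    have h4 : (G.induce ((N i ∪ N j : Finset V) : Set V)).Connected := by
      rw [coe_union]
      exact induce_union_connected (hN4 i).preconnected (hN4 j).preconnected ⟨x, hx, hx'⟩
    have h5 := hF (N i ∪ N j) (union_subset (hN1 i) (hN1 j))
      ((card_union_le _ _).trans (by rw [hN3, hN3]; exact hD)) h4
    have h6 := two_le_ee (P := P) (mem_union_left (N j) (hN2 i)) (mem_union_right (N i) (hN2 j))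
      (hB.out i) (hB.out j) (hB.adj i) (hB.adj j) (fun h => hij (hB.inj (congrArg Prod.fst h)))
    omega
  have h4 : (univ.biUnion N).card = ∑ i, (N i).card := card_biUnion hdisj
  rw [sum_congr rfl fun i _ => hN3 i, sum_const, card_univ, Fintype.card_fin, smul_eq_mul]
    at h4
  have h5 : (univ.biUnion N).card ≤ P.card := card_le_card (biUnion_subset.2 fun i _ => hN1 i)
  omega

/-- **Contractions from local replacements.** It is enough that the simple cubic bridgeless graphs
which arise from `G` if `P` is replaced by fewer vertices have a nowhere-zero flow. -/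
theorem contr_of_local (h3 : ∀ v, G.degree v = 3)
    (hbr : ∀ A : Finset V, A.Nonempty → Aᶜ.Nonempty → 2 ≤ dd G A) {D : ℕ} (hD : 8 ≤ D)
    (hP : P.Nonempty) (hP' : Pᶜ.Nonempty) (hF : FarB G D P)
    (hloc : ∀ (Q : Type) [Fintype Q] [DecidableEq Q] (H : SimpleGraph ({v // v ∉ P} ⊕ Q))
      [DecidableRel H.Adj], Fintype.card Q < P.card →
      (∀ u v : {v // v ∉ P}, H.Adj (Sum.inl u) (Sum.inl v) ↔ G.Adj u v) →
      (∀ v, H.degree v = 3) →
      (∀ A : Finset ({v // v ∉ P} ⊕ Q), A.Nonempty → Aᶜ.Nonempty → 2 ≤ dd H A) →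
      HasNZFlow (ZMod 5) H) : ContrFlow G P := by
  classical
  obtain ⟨k, β, o, hB⟩ := exists_bds (hbr P hP hP')
    fun v hv w w' hw hw' h h' => farB_uniq hF (by omega) hv hw hw' h h'
  have h2 := ring_small h3 hD hF hB
  refine ring_flow hB (hloc _ (ringG G P o) ?_ (fun u v => Iff.rfl) (ring_degree h3 hB)
    (ring_cut hbr hB))
  rw [Fintype.card_prod, Fintype.card_fin, Fintype.card_fin]
  omega

/-- **Local minimality.** A cubic graph with a reducible set has a nowhere-zero flow if all its
local replacements have one. -/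
theorem flow_of_local (h3 : ∀ v, G.degree v = 3)
    (hbr : ∀ A : Finset V, A.Nonempty → Aᶜ.Nonempty → 2 ≤ dd G A) {D : ℕ} (hD : 8 ≤ D)
    (hP : P.Nonempty) (hF : FarB G D P) (hext : ∀ φ, BdryOK G P φ → ExtFlow G P φ)
    (hloc : P ≠ univ → ∀ (Q : Type) [Fintype Q] [DecidableEq Q]
      (H : SimpleGraph ({v // v ∉ P} ⊕ Q)) [DecidableRel H.Adj], Fintype.card Q < P.card →
      (∀ u v : {v // v ∉ P}, H.Adj (Sum.inl u) (Sum.inl v) ↔ G.Adj u v) →
      (∀ v, H.degree v = 3) →
      (∀ A : Finset ({v // v ∉ P} ⊕ Q), A.Nonempty → Aᶜ.Nonempty → 2 ≤ dd H A) →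
      HasNZFlow (ZMod 5) H) : HasNZFlow (ZMod 5) G := by
  by_cases hu : P = univ
  · subst hu
    obtain ⟨f, h1, h2, h4⟩ := hext (fun _ => 0) ⟨fun v _ => by simp, by simp⟩
    exact ⟨f, h1, fun u v => by simpa using h2 u v, fun v => by simpa using h4 v (mem_univ v)⟩
  · have hP' : Pᶜ.Nonempty := by
      rw [nonempty_iff_ne_empty]
      exact fun h => hu (by rw [← compl_compl P, h, compl_empty])
    exact ext_glue (fun v hv w w' hw hw' h h' => farB_uniq hF (by omega) hv hw hw' h h')
      (contr_of_local h3 hbr hD hP hP' hF (hloc hu)) hext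

end

end Pool.Agent.K5
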