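import Mathlib

/-!
# Explicit growth of the constants (ROOM BG): the distance of the marks is polylogarithmic
-/

namespace Pool.Agent.K5

open Filter Topology

theorem log_le_sqrt_numE {q : ℝ} (hq : 0 < q) : Real.log q ≤ Real.sqrt q := by
  have hs : 0 < Real.sqrt q := Real.sqrt_pos.2 hq
  have h1 : Real.log q = 2 * Real.log (Real.sqrt q) := by
    conv_lhs => rw [← Real.sq_sqrt hq.le]
    rw [Real.log_pow]
    norm_num
  have h2 : Real.log (Real.sqrt q / 2) ≤ Real.sqrt q / 2 - 1 :=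
    Real.log_le_sub_one_of_pos (by positivity)
  rw [Real.log_div hs.ne' (by norm_num)] at h2
  have h3 : Real.log 2 < 1 := by
    have := Real.log_two_lt_d9
    linarith
  linarith

/-- Explicit form of `exists_pow_small`. -/
theorem pow_smallE (m A q : ℕ) (hq : 4 ^ (m + 1) * A ^ 2 ≤ q) :
    (A : ℝ) * (q : ℝ) ^ A * (1 - (1 / 2) ^ m) ^ q ≤ 1 := by
  rcases Nat.eq_zero_or_pos A with hA | hA
  · subst hA
    simp
  have hq0 : 0 < q := lt_of_lt_of_le (by positivity) hq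
  have hqR : (0 : ℝ) < q := by exact_mod_cast hq0
  have hAR : (1 : ℝ) ≤ A := by exact_mod_cast hA
  have hA0 : (0 : ℝ) < A := by linarith
  have hqq : (4 : ℝ) ^ (m + 1) * A ^ 2 ≤ q := by exact_mod_cast hq
  have hP : (0 : ℝ) < 2 ^ (m + 1) := by positivity
  have h4 : (4 : ℝ) ^ (m + 1) = (2 ^ (m + 1)) ^ 2 := by
    rw [← pow_mul, mul_comm, pow_mul]
    norm_num
  -- `2 ^ (m + 1) * A ≤ √q`
  have h1 : 2 ^ (m + 1) * (A : ℝ) ≤ Real.sqrt q := by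
    apply Real.le_sqrt_of_sq_le
    rw [mul_pow, ← h4]
    exact hqq
  have hsq : Real.sqrt q * Real.sqrt q = q := Real.mul_self_sqrt hqR.le
  have hs0 : 0 < Real.sqrt q := Real.sqrt_pos.2 hqR
  have hs1 : 1 ≤ Real.sqrt q := by
    rw [Real.one_le_sqrt]
    exact_mod_cast hq0
  have h2 := log_le_sqrt_numE hqR
  have h3 : Real.log A ≤ A := (Real.log_le_sub_one_of_pos hA0).trans (by linarith)
  -- the exponential bound
  have hr0 : (0 : ℝ) ≤ 1 - (1 / 2) ^ m := by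
    have : ((1 : ℝ) / 2) ^ m ≤ 1 := pow_le_one₀ (by norm_num) (by norm_num)
    linarith
  have h5 : (1 - (1 / 2 : ℝ) ^ m) ^ q ≤ Real.exp (-(q / 2 ^ m)) := by
    have h6 : (1 - (1 / 2 : ℝ) ^ m) ≤ Real.exp (-((1 / 2) ^ m)) := by
      have := Real.add_one_le_exp (-((1 / 2 : ℝ) ^ m))
      linarith
    calc (1 - (1 / 2 : ℝ) ^ m) ^ q ≤ Real.exp (-((1 / 2) ^ m)) ^ q := pow_le_pow_left₀ hr0 h6 q
      _ = Real.exp (-(q / 2 ^ m)) := by
          rw [← Real.exp_nat_mul]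
          congr 1
          rw [one_div_pow]
          ring
  have h7 : (A : ℝ) * (q : ℝ) ^ A = Real.exp (Real.log A + A * Real.log q) := by
    rw [Real.exp_add, Real.exp_log hA0, mul_comm (A : ℝ) (Real.log q), Real.exp_mul,
      Real.exp_log hqR, Real.rpow_natCast]
  rw [h7]
  calc Real.exp (Real.log A + A * Real.log q) * (1 - (1 / 2 : ℝ) ^ m) ^ q
      ≤ Real.exp (Real.log A + A * Real.log q) * Real.exp (-(q / 2 ^ m)) :=
        mul_le_mul_of_nonneg_left h5 (Real.exp_pos _).le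
    _ = Real.exp (Real.log A + A * Real.log q - q / 2 ^ m) := by
        rw [← Real.exp_add]
        congr 1
    _ ≤ 1 := by
        rw [Real.exp_le_one_iff]
        have h8 : (q : ℝ) / 2 ^ m = 2 * (q / 2 ^ (m + 1)) := by
          rw [pow_succ]
          field_simp
        have h9 : Real.log A ≤ q / 2 ^ (m + 1) := by
          rw [le_div_iff₀ hP]
          nlinarith
        have h10 : A * Real.log q ≤ q / 2 ^ (m + 1) := by
          rw [le_div_iff₀ hP]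
          calc A * Real.log q * 2 ^ (m + 1) ≤ A * Real.sqrt q * 2 ^ (m + 1) := by
                gcongr
            _ = (2 ^ (m + 1) * A) * Real.sqrt q := by ring
            _ ≤ Real.sqrt q * Real.sqrt q := mul_le_mul_of_nonneg_right h1 hs0.le
            _ = q := hsq
        linarith

/-- Explicit form of `nat_pow_small`. -/
theorem nat_pow_smallE (m A q : ℕ) (hq : 4 ^ (m + 1) * A ^ 2 ≤ q) :
    A * q ^ A * (2 ^ m - 1) ^ q ≤ (2 ^ m) ^ q := by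
  have h := pow_smallE m A q hq
  have h2 : (0 : ℝ) < (2 ^ m) ^ q := by positivity
  have h3 : ((1 : ℝ) - (1 / 2) ^ m) ^ q * (2 ^ m) ^ q = (2 ^ m - 1) ^ q := by
    rw [← mul_pow]
    congr 1
    rw [sub_mul, one_mul, ← mul_pow]
    norm_num
  have h4 : ((2 ^ m - 1 : ℕ) : ℝ) = 2 ^ m - 1 := by
    push_cast [Nat.one_le_two_pow]
    ring
  have h5 : (A : ℝ) * (q : ℝ) ^ A * (2 ^ m - 1) ^ q ≤ (2 ^ m) ^ q := by
    rw [← h3]
    calc (A : ℝ) * (q : ℝ) ^ A * (((1 : ℝ) - (1 / 2) ^ m) ^ q * (2 ^ m) ^ q)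
        = (A : ℝ) * (q : ℝ) ^ A * ((1 : ℝ) - (1 / 2) ^ m) ^ q * (2 ^ m) ^ q := by ring
      _ ≤ 1 * (2 ^ m) ^ q := mul_le_mul_of_nonneg_right h h2.le
      _ = (2 ^ m) ^ q := one_mul _
  have h6 : ((A * q ^ A * (2 ^ m - 1) ^ q : ℕ) : ℝ) ≤ (((2 ^ m) ^ q : ℕ) : ℝ) := by
    rw [Nat.cast_mul, Nat.cast_mul, Nat.cast_pow, Nat.cast_pow, h4]
    push_cast
    exact h5
  exact_mod_cast h6

/-- The explicit number of windows in the pattern lemma. -/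
def qE (m K c : ℕ) : ℕ := 4 ^ (m + 2) * (3 * K * (2 * c + 1) ^ 2 + 7) ^ 2

theorem qE_pos (m K c : ℕ) : 1 ≤ qE m K c := by
  unfold qE
  exact Nat.one_le_iff_ne_zero.2 (by positivity)

/-- Explicit form of `num_w4`. -/
theorem num_w4E (m K c : ℕ) {q : ℕ} (hqE : qE m K c ≤ q) : 1 ≤ q ∧
    K * ((q + 1) * (c * q ^ 2) + 1) ^ 2 * (2 * q + 1) * (2 ^ m - 1) ^ q ≤ (2 ^ m) ^ q ∧
    K * ((q + 1) * (c * q ^ 2) + 1) ^ 2 * (2 * q + 1) ≤ 2 ^ q := by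
  have hq1 : 1 ≤ q := (qE_pos m K c).trans hqE
  set A : ℕ := 3 * K * (2 * c + 1) ^ 2 + 7 with hA
  have hm1 : 4 ^ (m + 1) * A ^ 2 ≤ q := by
    refine le_trans (Nat.mul_le_mul_right _ ?_) hqE
    exact Nat.pow_le_pow_right (by norm_num) (by omega)
  have hm2 : 4 ^ (1 + 1) * A ^ 2 ≤ q := by
    refine le_trans (Nat.mul_le_mul_right _ ?_) hqE
    exact Nat.pow_le_pow_right (by norm_num) (by omega)
  have hb : K * ((q + 1) * (c * q ^ 2) + 1) ^ 2 * (2 * q + 1) ≤ A * q ^ A := by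
    have e1 : (q + 1) * (c * q ^ 2) + 1 ≤ (2 * c + 1) * q ^ 3 := by
      have e2 : 1 ≤ q ^ 3 := Nat.one_le_pow _ _ hq1
      have e3 : (q + 1) * (c * q ^ 2) ≤ (2 * q) * (c * q ^ 2) :=
        Nat.mul_le_mul_right _ (by omega)
      calc (q + 1) * (c * q ^ 2) + 1 ≤ (2 * q) * (c * q ^ 2) + q ^ 3 := Nat.add_le_add e3 e2
        _ = (2 * c + 1) * q ^ 3 := by ring
    have e4 : 2 * q + 1 ≤ 3 * q := by omega
    calc K * ((q + 1) * (c * q ^ 2) + 1) ^ 2 * (2 * q + 1)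
        ≤ K * ((2 * c + 1) * q ^ 3) ^ 2 * (3 * q) :=
          Nat.mul_le_mul (Nat.mul_le_mul_left _ (Nat.pow_le_pow_left e1 2)) e4
      _ = (3 * K * (2 * c + 1) ^ 2) * q ^ 7 := by ring
      _ ≤ A * q ^ A := Nat.mul_le_mul (by omega) (Nat.pow_le_pow_right hq1 (by omega))
  refine ⟨hq1, ?_, ?_⟩
  · exact le_trans (Nat.mul_le_mul_right _ hb) (nat_pow_smallE m A q hm1)
  · have h3 := nat_pow_smallE 1 A q hm2
    have h4 : (2 ^ 1 - 1) ^ q = 1 := by norm_num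
    rw [h4, mul_one] at h3
    exact le_trans hb (by simpa using h3)

/-- The parameters with the factor `Λ = 2 ^ (2 ^ n)`: the radius of the smearing is only
`O(n)`. -/
theorem paramsE {b' : ℝ} (hb' : 0 < b') : ∃ (X : ℝ) (n₀ : ℕ), 1 ≤ X ∧ ∀ n : ℕ, n₀ ≤ n →
    ∃ (ρ m s : ℕ) (b τ : ℝ), 4 * ρ ≤ 2 ^ m ∧
    8 * s + 4 * m + 7 ≤ ρ ∧ 0 < b ∧ b ≤ 1 ∧ 0 < τ ∧
    b * (1 + 3 * (9 * ρ * 2 ^ (m + 1))) ≤ b' ∧
    8 / Real.sqrt ((2 ^ s : ℕ) : ℝ) + τ ≤ b ^ 2 / (16 * 2 ^ (2 ^ n)) ∧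
    (9 * ρ * 2 ^ (m + 1) : ℝ) ≤ X * 4 ^ n ∧ 1 / b ≤ X * 4 ^ n ∧ ρ ≤ 64 * 2 ^ n := by
  set c : ℝ := min b' 1 with hc
  have hc0 : 0 < c := lt_min hb' one_pos
  have hc1 : c ≤ 1 := min_le_right _ _
  have hcb : c ≤ b' := min_le_left _ _
  have ht := tendsto_pow_const_div_const_pow_of_one_lt (r := (2 : ℝ)) 4 (by norm_num)
  have hε : (0 : ℝ) < c ^ 2 / 2 ^ 50 := by positivity
  obtain ⟨N, hN⟩ := eventually_atTop.1 (ht.eventually (gt_mem_nhds hε))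
  have hX : (1 : ℝ) ≤ 2 ^ 21 / c := by
    rw [le_div_iff₀ hc0]
    linarith [show (1 : ℝ) ≤ 2 ^ 21 by norm_num]
  refine ⟨2 ^ 21 / c, max N 3, hX, fun n hn => ?_⟩
  have hn3 : 3 ≤ n := (le_max_right _ _).trans hn
  set M : ℕ := 2 ^ n with hM
  have hMn : n < M := Nat.lt_two_pow_self
  have hMN : N ≤ M := by
    have : N ≤ n := (le_max_left _ _).trans hn
    omega
  have hM1 : (1 : ℝ) ≤ M := by
    have : 1 ≤ M := by omega
    exact_mod_cast this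
  have hM0 : (0 : ℝ) < M := by linarith
  have hM4 : (4 : ℝ) ^ n = (M : ℝ) ^ 2 := by
    rw [hM]
    push_cast
    rw [← pow_mul, mul_comm, pow_mul]
    norm_num
  have hlin : ∀ j : ℕ, 3 ≤ j → 16 * j + 156 ≤ 128 * 2 ^ j := by
    intro j hj
    induction j, hj using Nat.le_induction with
    | base => norm_num
    | succ j hj ih =>
      have : 2 ^ (j + 1) = 2 * 2 ^ j := by ring
      have h8 : 1 ≤ 2 ^ j := Nat.one_le_two_pow
      omega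
  have hl := hlin n hn3
  have hkey := hN M hMN
  rw [div_lt_div_iff₀ (by positivity) (by positivity)] at hkey
  have hρ : ((32 * M + 4 * n + 39 : ℕ) : ℝ) ≤ 64 * M := by
    have : 32 * M + 4 * n + 39 ≤ 64 * M := by omega
    exact_mod_cast this
  have h2 : (2 : ℝ) ^ (n + 8 + 1) = 512 * M := by
    rw [hM]
    push_cast
    ring
  have hB : (9 * ((32 * M + 4 * n + 39 : ℕ) : ℝ) * 2 ^ (n + 8 + 1)) ≤ 294912 * (M : ℝ) ^ 2 := by
    rw [h2]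
    nlinarith
  have hb0 : 0 < c / (2 ^ 21 * (M : ℝ) ^ 2) := by positivity
  refine ⟨32 * M + 4 * n + 39, n + 8, 4 * M, c / (2 ^ 21 * (M : ℝ) ^ 2),
    (c / (2 ^ 21 * (M : ℝ) ^ 2)) ^ 2 / (32 * 2 ^ M), ?_, ?_, hb0, ?_, ?_, ?_, ?_, ?_, ?_, ?_⟩
  · have : 2 ^ (n + 8) = 256 * 2 ^ n := by ring
    rw [this]
    omega
  · omega
  · rw [div_le_one (by positivity)]
    nlinarith
  · positivity
  · have h3 : 1 + 3 * (9 * ((32 * M + 4 * n + 39 : ℕ) : ℝ) * 2 ^ (n + 8 + 1))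
        ≤ 2 ^ 21 * (M : ℝ) ^ 2 := by
      nlinarith
    calc c / (2 ^ 21 * (M : ℝ) ^ 2) * (1 + 3 * (9 * ((32 * M + 4 * n + 39 : ℕ) : ℝ)
          * 2 ^ (n + 8 + 1))) ≤ c / (2 ^ 21 * (M : ℝ) ^ 2) * (2 ^ 21 * (M : ℝ) ^ 2) :=
          mul_le_mul_of_nonneg_left h3 hb0.le
      _ = c := by field_simp
      _ ≤ b' := hcb
  · -- the entropy
    have h4 : Real.sqrt ((2 ^ (4 * M) : ℕ) : ℝ) = 2 ^ (2 * M) := by
      rw [show (4 * M) = (2 * M) * 2 by ring, pow_mul]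
      push_cast
      rw [Real.sqrt_sq (by positivity)]
    rw [h4]
    have hP : (0 : ℝ) < 2 ^ M := by positivity
    have h5 : (2 : ℝ) ^ (2 * M) = 2 ^ M * 2 ^ M := by rw [two_mul, pow_add]
    have h6 : 8 / (2 : ℝ) ^ (2 * M) ≤ (c / (2 ^ 21 * (M : ℝ) ^ 2)) ^ 2 / (32 * 2 ^ M) := by
      rw [h5, div_pow, div_div, div_le_div_iff₀ (by positivity) (by positivity)]
      have h7 : (M : ℝ) ^ 4 * 2 ^ 50 ≤ c ^ 2 * 2 ^ M := hkey.le
      have h8 : 8 * (((2 : ℝ) ^ 21 * (M : ℝ) ^ 2) ^ 2 * (32 * 2 ^ M)) =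
          (M : ℝ) ^ 4 * 2 ^ 50 * 2 ^ M := by ring
      rw [h8]
      calc (M : ℝ) ^ 4 * 2 ^ 50 * 2 ^ M ≤ c ^ 2 * 2 ^ M * 2 ^ M :=
            mul_le_mul_of_nonneg_right h7 hP.le
        _ = c ^ 2 * (2 ^ M * 2 ^ M) := by ring
    have h9 : (c / (2 ^ 21 * (M : ℝ) ^ 2)) ^ 2 / (16 * 2 ^ (2 ^ n)) =
        (c / (2 ^ 21 * (M : ℝ) ^ 2)) ^ 2 / (32 * 2 ^ M) +
        (c / (2 ^ 21 * (M : ℝ) ^ 2)) ^ 2 / (32 * 2 ^ M) := by
      rw [← hM]
      field_simp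
      norm_num
    rw [h9]
    linarith
  · refine hB.trans ?_
    rw [hM4]
    have : (294912 : ℝ) ≤ 2 ^ 21 / c := by
      rw [le_div_iff₀ hc0]
      nlinarith
    exact mul_le_mul_of_nonneg_right this (by positivity)
  · rw [hM4]
    apply le_of_eq
    field_simp
  · omega

/-- The smearing radius: `2 ^ j` is polynomial in `2 ^ n`. -/
theorem exists_radiusE (Y : ℝ) (hY : 1 ≤ Y) (n : ℕ) : ∃ j : ℕ, Y * 4 ^ n ≤ 2 ^ j ∧
    (2 : ℝ) ^ j ≤ 2 * Y * 4 ^ n := by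
  have h0 : (1 : ℝ) ≤ Y * 4 ^ n := by
    have : (1 : ℝ) ≤ 4 ^ n := one_le_pow₀ (by norm_num)
    nlinarith
  have hex : ∃ j : ℕ, Y * 4 ^ n ≤ 2 ^ j := by
    obtain ⟨j, hj⟩ := pow_unbounded_of_one_lt (Y * 4 ^ n) (one_lt_two : (1 : ℝ) < 2)
    exact ⟨j, hj.le⟩
  classical
  refine ⟨Nat.find hex, Nat.find_spec hex, ?_⟩
  rcases Nat.eq_zero_or_pos (Nat.find hex) with h | h
  · rw [h, pow_zero]
    linarith
  · have h1 := Nat.find_min hex (Nat.sub_lt h one_pos)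
    push Not at h1
    have h2 : (2 : ℝ) ^ (Nat.find hex) = 2 * 2 ^ (Nat.find hex - 1) := by
      rw [← pow_succ']
      congr 1
      omega
    rw [h2]
    linarith

/-- Polylogarithmic functions of `Λ = 2 ^ (2 ^ n)` are small. -/
theorem polylogE (a E : ℕ) : ∃ n₀ : ℕ, ∀ n : ℕ, n₀ ≤ n → a * (2 ^ n) ^ E ≤ 2 ^ (2 ^ n) := by
  have ht := tendsto_pow_const_div_const_pow_of_one_lt (r := (2 : ℝ)) E (by norm_num)
  have hε : (0 : ℝ) < 1 / (a + 1) := by positivity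
  obtain ⟨N, hN⟩ := eventually_atTop.1 (ht.eventually (gt_mem_nhds hε))
  refine ⟨N, fun n hn => ?_⟩
  have h1 : N ≤ 2 ^ n := hn.trans (Nat.lt_two_pow_self).le
  have h2 := hN (2 ^ n) h1
  rw [div_lt_div_iff₀ (by positivity) (by positivity)] at h2
  have h3 : ((a * (2 ^ n) ^ E : ℕ) : ℝ) ≤ ((2 ^ (2 ^ n) : ℕ) : ℝ) := by
    push_cast at h2 ⊢
    have h4 : (0 : ℝ) ≤ (2 ^ n) ^ E := by positivity
    nlinarith
  exact_mod_cast h3

end Pool.Agent.K5
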