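import Mathlib
import Pool.Agent.Work.MP_974d84_co_exp.Base

/-!
# Pairing an even set of vertices along edge-disjoint paths (W5)

A pairing of `T` with the least total distance: every cut separates at most as many pairs as it
has edges.
-/

set_option linter.unusedSectionVars false

namespace Pool.Agent.K5.W

open Finset SimpleGraph Pool.Agent.Exp Pool.Agent.Work.MP_314beb_co

section geo

variable {V : Type} {G : SimpleGraph V}

/-- A geodesic leaves `X` through an edge. -/
theorem geo_cross (hc : G.Connected) (X : Set V) : ∀ (n : ℕ) (p q : V), G.dist p q = n → p ∈ X →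
    q ∉ X → ∃ u v, u ∈ X ∧ v ∉ X ∧ G.Adj u v ∧ G.dist p u + 1 + G.dist v q = G.dist p q := by
  intro n
  induction n with
  | zero =>
    intro p q h hp hq
    exfalso
    have := (hc.dist_eq_zero_iff).1 h
    exact hq (this ▸ hp)
  | succ n ih =>
    intro p q h hp hq
    obtain ⟨w, hw⟩ := hc.exists_walk_length_eq_dist p q
    cases w with
    | nil => rw [SimpleGraph.dist_self] at h; omega
    | @cons _ p' _ ha w' =>
      rw [Walk.length_cons] at hw
      have h1 : G.dist p' q ≤ w'.length := dist_le w'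
      have h2 : G.dist p q ≤ G.dist p p' + G.dist p' q := hc.dist_triangle
      have h3 : G.dist p p' = 1 := dist_eq_one_iff_adj.2 ha
      have h4 : G.dist p' q = n := by omega
      by_cases hp' : p' ∈ X
      · obtain ⟨u, v, hu, hv, huv, he⟩ := ih p' q h4 hp' hq
        refine ⟨u, v, hu, hv, huv, ?_⟩
        have h5 : G.dist p u ≤ G.dist p p' + G.dist p' u := hc.dist_triangle
        have h6 : G.dist p q ≤ G.dist p u + G.dist u q := hc.dist_triangle
        have h7 : G.dist u q ≤ G.dist u v + G.dist v q := hc.dist_triangle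
        have h8 : G.dist u v = 1 := dist_eq_one_iff_adj.2 huv
        omega
      · refine ⟨p, p', hp, hp', ha, ?_⟩
        rw [SimpleGraph.dist_self]
        omega

end geo

section pairing

variable {V : Type} [Fintype V] [DecidableEq V] (G : SimpleGraph V) [DecidableRel G.Adj]

/-- Connected, from the cuts. -/
theorem connected_of_cuts [Nonempty V]
    (h1 : ∀ A : Finset V, A.Nonempty → Aᶜ.Nonempty → 1 ≤ dd G A) : G.Connected := by
  classical
  rw [connected_iff]
  refine ⟨fun u v => ?_, inferInstance⟩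
  by_contra huv
  let A : Finset V := univ.filter fun x => G.Reachable u x
  have hA := h1 A ⟨u, by simp [A]⟩ ⟨v, by simpa [A] using huv⟩
  obtain ⟨p, hp⟩ := card_pos.1 (lt_of_lt_of_le Nat.zero_lt_one hA)
  rw [mem_cut] at hp
  obtain ⟨ha, hb, hab⟩ := hp
  simp only [A, mem_filter, mem_univ, true_and] at ha hb
  exact hb (ha.trans hab.reachable)

/-- The cost of a pairing. -/
noncomputable def cost {m : ℕ} (c : Fin m × Bool → V) : ℕ :=
  ∑ k, G.dist (c (k, true)) (c (k, false))

variable {G}

theorem dist_bool {m : ℕ} (c : Fin m × Bool → V) (k : Fin m) (b : Bool) :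
    G.dist (c (k, true)) (c (k, false)) = G.dist (c (k, b)) (c (k, !b)) := by
  cases b
  · simp [dist_comm]
  · simp

theorem cost_swap_lt {m : ℕ} (c : Fin m × Bool → V) {i j : Fin m} (hij : i ≠ j) (a b : Bool)
    (h : G.dist (c (i, a)) (c (j, b)) + G.dist (c (i, !a)) (c (j, !b)) <
      G.dist (c (i, a)) (c (i, !a)) + G.dist (c (j, b)) (c (j, !b))) :
    cost G (c ∘ Equiv.swap (i, !a) (j, b)) < cost G c := by
  classical
  have hji : j ≠ i := fun h => hij h.symm
  set σ := Equiv.swap ((i, !a) : Fin m × Bool) (j, b) with hσ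
  have e1 : σ (i, a) = (i, a) := by
    apply Equiv.swap_apply_of_ne_of_ne
    · intro h; cases a <;> simp at h
    · intro h; exact hij (congrArg Prod.fst h)
  have e2 : σ (i, !a) = (j, b) := Equiv.swap_apply_left _ _
  have e3 : σ (j, b) = (i, !a) := Equiv.swap_apply_right _ _
  have e4 : σ (j, !b) = (j, !b) := by
    apply Equiv.swap_apply_of_ne_of_ne
    · intro h; exact hji (congrArg Prod.fst h)
    · intro h; cases b <;> simp at h
  have hrest : ∀ k, k ≠ i → k ≠ j → ∀ d, σ (k, d) = (k, d) := by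
    intro k h1 h2 d
    apply Equiv.swap_apply_of_ne_of_ne
    · intro h; exact h1 (congrArg Prod.fst h)
    · intro h; exact h2 (congrArg Prod.fst h)
  unfold cost
  have hi : i ∈ (univ : Finset (Fin m)) := mem_univ _
  have hj : j ∈ (univ : Finset (Fin m)).erase i := mem_erase.2 ⟨hji, mem_univ _⟩
  rw [← add_sum_erase _ _ hi, ← add_sum_erase _ _ hj,
    ← add_sum_erase (a := i) univ (fun k => G.dist (c (k, true)) (c (k, false))) hi,
    ← add_sum_erase (a := j) (univ.erase i) (fun k => G.dist (c (k, true)) (c (k, false))) hj]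
  have hsum : ∑ k ∈ (univ.erase i).erase j, G.dist ((c ∘ σ) (k, true)) ((c ∘ σ) (k, false)) =
      ∑ k ∈ (univ.erase i).erase j, G.dist (c (k, true)) (c (k, false)) := by
    refine sum_congr rfl fun k hk => ?_
    rw [mem_erase, mem_erase] at hk
    simp only [Function.comp_apply]
    rw [hrest k hk.2.1 hk.1, hrest k hk.2.1 hk.1]
  rw [hsum, dist_bool (c ∘ σ) i a, dist_bool (c ∘ σ) j b, dist_bool c i a, dist_bool c j b]
  simp only [Function.comp_apply]
  rw [e1, e2, e3, e4]
  rw [dist_comm (u := c (i, !a)) (v := c (j, !b))] at h ⊢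
  omega

/-- **Pairing.** -/
theorem exists_pairing (h1 : ∀ A : Finset V, A.Nonempty → Aᶜ.Nonempty → 1 ≤ dd G A)
    (T : Finset V) (hT : Even T.card) : ∃ (m : ℕ) (p q : Fin m → V), Function.Injective p ∧
      Function.Injective q ∧ (∀ i j, p i ≠ q j) ∧ (∀ v, v ∈ T ↔ (∃ j, p j = v) ∨ ∃ j, q j = v) ∧
      ∀ (X : Finset V) (J : Finset (Fin m)), (∀ j ∈ J, ¬ (p j ∈ X ↔ q j ∈ X)) →
        J.card ≤ dd G X := by
  classical
  obtain ⟨m, hm⟩ := hT
  have hcard : Fintype.card (Fin m × Bool) = Fintype.card T := by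
    rw [Fintype.card_prod, Fintype.card_fin, Fintype.card_bool, Fintype.card_coe]; omega
  obtain ⟨f₀⟩ : Nonempty (Fin m × Bool ≃ T) := ⟨Fintype.equivOfCardEq hcard⟩
  let C : Equiv.Perm (Fin m × Bool) → (Fin m × Bool → V) := fun σ z => (f₀ (σ z) : V)
  obtain ⟨σ, -, hσ⟩ := exists_min_image (univ : Finset (Equiv.Perm (Fin m × Bool)))
    (fun σ => cost G (C σ)) univ_nonempty
  have hinj : Function.Injective (C σ) := by
    intro x y h
    exact σ.injective (f₀.injective (Subtype.ext h))
  refine ⟨m, fun j => C σ (j, true), fun j => C σ (j, false), ?_, ?_, ?_, ?_, ?_⟩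
  · intro i j h
    exact congrArg Prod.fst (hinj h)
  · intro i j h
    exact congrArg Prod.fst (hinj h)
  · intro i j h
    have := congrArg Prod.snd (hinj h)
    simp at this
  · intro v
    constructor
    · intro hv
      obtain ⟨⟨k, b⟩, hz⟩ : ∃ z, C σ z = v :=
        ⟨σ.symm (f₀.symm ⟨v, hv⟩), by simp [C]⟩
      cases b
      · exact Or.inr ⟨k, hz⟩
      · exact Or.inl ⟨k, hz⟩
    · rintro (⟨j, rfl⟩ | ⟨j, rfl⟩)
      · exact (f₀ (σ (j, true))).2
      · exact (f₀ (σ (j, false))).2
  · intro X J hJ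
    rcases J.eq_empty_or_nonempty with rfl | ⟨j₀, hj₀⟩
    · simp
    have : Nonempty V := ⟨C σ (j₀, true)⟩
    have hc := connected_of_cuts G h1
    have hb : ∀ j ∈ J, ∃ b : Bool, C σ (j, b) ∈ X ∧ C σ (j, !b) ∉ X := by
      intro j hj
      have := hJ j hj
      by_cases hx : C σ (j, true) ∈ X
      · refine ⟨true, hx, fun hy => this ⟨fun _ => hy, fun _ => hx⟩⟩
      · refine ⟨false, ?_, hx⟩
        by_contra hy
        exact this ⟨fun h => absurd h hx, fun h => absurd h hy⟩
    have hg : ∀ j ∈ J, ∃ (b : Bool) (e : V × V), e ∈ cut G X ∧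
        G.dist (C σ (j, b)) e.1 + 1 + G.dist e.2 (C σ (j, !b)) =
          G.dist (C σ (j, b)) (C σ (j, !b)) := by
      intro j hj
      obtain ⟨b, hx, hy⟩ := hb j hj
      obtain ⟨u, v, hu, hv, huv, he⟩ := geo_cross hc (X : Set V) _ _ _ rfl
        (mem_coe.2 hx) (by simpa using hy)
      exact ⟨b, (u, v), (mem_cut G).2 ⟨by simpa using hu, by simpa using hv, huv⟩, he⟩
    choose! bb ee hee hde using hg
    refine card_le_card_of_injOn ee (fun j hj => hee j hj) ?_
    intro i hi j hj hij
    by_contra hne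
    have hi' := hde i hi
    have hj' := hde j hj
    rw [← hij] at hj'
    have h2 := cost_swap_lt (G := G) (C σ) hne (bb i) (bb j) (by
      have t1 : G.dist (C σ (i, bb i)) (C σ (j, bb j)) ≤
          G.dist (C σ (i, bb i)) (ee i).1 + G.dist (ee i).1 (C σ (j, bb j)) := hc.dist_triangle
      have t2 : G.dist (C σ (i, !bb i)) (C σ (j, !bb j)) ≤
          G.dist (C σ (i, !bb i)) (ee i).2 + G.dist (ee i).2 (C σ (j, !bb j)) := hc.dist_triangle
      have t3 : G.dist (ee i).1 (C σ (j, bb j)) = G.dist (C σ (j, bb j)) (ee i).1 := dist_comm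
      have t4 : G.dist (C σ (i, !bb i)) (ee i).2 = G.dist (ee i).2 (C σ (i, !bb i)) := dist_comm
      omega)
    have h3 := hσ ((Equiv.swap (i, !bb i) (j, bb j)).trans σ) (mem_univ _)
    have h4 : C ((Equiv.swap (i, !bb i) (j, bb j)).trans σ) =
        C σ ∘ Equiv.swap (i, !bb i) (j, bb j) := by
      funext z; rfl
    simp only [h4] at h3
    omega

end pairing

end Pool.Agent.K5.W
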