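import Mathlib
import Pool.Agent.Work.MP_974d84_co_k5.DefsW

/-!
# The last start before a vertex (W4)
-/

set_option linter.unusedSectionVars false

namespace Pool.Agent.K5

open Finset SimpleGraph

/-- The sign of a bit. -/
def sg (x : Bool) : ℤ := if x then 1 else -1

theorem sg_not (x : Bool) : sg (!x) = - sg x := by cases x <;> rfl

theorem sg_pm (x : Bool) : sg x = 1 ∨ sg x = -1 := by cases x <;> simp [sg]

theorem sg_inj {x y : Bool} (h : sg x = sg y) : x = y := by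
  cases x <;> cases y <;> simp [sg] at h ⊢

theorem exists_sg {s : ℤ} (h : s = 1 ∨ s = -1) : ∃ x, sg x = s := by
  rcases h with rfl | rfl
  · exact ⟨true, rfl⟩
  · exact ⟨false, rfl⟩

variable {V : Type} [Fintype V] [DecidableEq V] (π : Equiv.Perm V) (A : Finset V)

theorem pow_add_apply (m n : ℕ) (v : V) : (π ^ (m + n)) v = (π ^ m) ((π ^ n) v) := by
  rw [pow_add, Equiv.Perm.mul_apply]

theorem pow_one_add_apply (n : ℕ) (v : V) : (π ^ (n + 1)) v = π ((π ^ n) v) := by
  rw [pow_succ', Equiv.Perm.mul_apply]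

theorem symm_pow_apply {m n : ℕ} (h : m ≤ n) (v : V) :
    (π ^ m).symm ((π ^ n) v) = (π ^ (n - m)) v := by
  rw [Equiv.symm_apply_eq, ← pow_add_apply]
  congr 2
  omega

open Classical in
/-- The distance to the last start. -/
noncomputable def dst (v : V) : ℕ :=
  if h : ∃ n, (π ^ n).symm v ∈ A then Nat.find h else 0

/-- The last start. -/
noncomputable def st (v : V) : V := (π ^ dst π A v).symm v

open Classical in
/-- The number of vertices up to the next start. -/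
noncomputable def gap (v : V) : ℕ :=
  if h : ∃ n, (π ^ (n + 1)) v ∈ A then Nat.find h else 0

/-- The position of the `i`-th start after `a`. -/
noncomputable def pos (a : V) : ℕ → ℕ
  | 0 => 0
  | i + 1 => pos a i + (gap π A ((π ^ pos a i) a) + 1)

variable {π A} {B : ℕ}

theorem back (hd : ∀ v, ∃ n < B, (π ^ n) v ∈ A) (v : V) : ∃ n < B, (π ^ n).symm v ∈ A := by
  obtain ⟨n, hn, h⟩ := hd ((π ^ (B - 1)).symm v)
  refine ⟨B - 1 - n, by omega, ?_⟩
  have h1 : (π ^ (B - 1 - n)).symm v = (π ^ n) ((π ^ (B - 1)).symm v) := by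
    rw [Equiv.symm_apply_eq, ← pow_add_apply, show B - 1 - n + n = B - 1 by omega,
      Equiv.apply_symm_apply]
  rw [h1]
  exact h

theorem dst_lt (hd : ∀ v, ∃ n < B, (π ^ n) v ∈ A) (v : V) : dst π A v < B := by
  classical
  obtain ⟨n, hn, h⟩ := back hd v
  have h1 : ∃ n, (π ^ n).symm v ∈ A := ⟨n, h⟩
  unfold dst
  rw [dif_pos h1]
  exact (Nat.find_min' h1 h).trans_lt hn

theorem st_mem (hd : ∀ v, ∃ n < B, (π ^ n) v ∈ A) (v : V) : st π A v ∈ A := by
  classical
  obtain ⟨n, hn, h⟩ := back hd v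
  have h1 : ∃ n, (π ^ n).symm v ∈ A := ⟨n, h⟩
  unfold st dst
  rw [dif_pos h1]
  exact Nat.find_spec h1

theorem pow_dst (v : V) : (π ^ dst π A v) (st π A v) = v := by
  unfold st
  rw [Equiv.apply_symm_apply]

theorem not_mem_of_lt_dst {v : V} {n : ℕ} (h : n < dst π A v) : (π ^ n).symm v ∉ A := by
  classical
  intro h2
  have h1 : ∃ n, (π ^ n).symm v ∈ A := ⟨n, h2⟩
  unfold dst at h
  rw [dif_pos h1] at h
  exact Nat.find_min h1 h h2

/-- The vertices after a start. -/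
theorem dst_pow {a : V} (ha : a ∈ A) {j : ℕ} (h : ∀ i, 1 ≤ i → i ≤ j → (π ^ i) a ∉ A) :
    dst π A ((π ^ j) a) = j ∧ st π A ((π ^ j) a) = a := by
  classical
  have h0 : (π ^ j).symm ((π ^ j) a) ∈ A := by rw [Equiv.symm_apply_apply]; exact ha
  have h1 : ∃ n, (π ^ n).symm ((π ^ j) a) ∈ A := ⟨j, h0⟩
  have h2 : dst π A ((π ^ j) a) = j := by
    unfold dst
    rw [dif_pos h1, Nat.find_eq_iff]
    refine ⟨h0, fun n hn h3 => ?_⟩
    rw [symm_pow_apply π hn.le] at h3
    exact h (j - n) (by omega) (by omega) h3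
  refine ⟨h2, ?_⟩
  unfold st
  rw [h2, Equiv.symm_apply_apply]

theorem dst_start {a : V} (ha : a ∈ A) : dst π A a = 0 ∧ st π A a = a :=
  dst_pow (j := 0) ha fun i h1 h2 => by omega

/-- One step which does not enter a start. -/
theorem dst_succ (hd : ∀ v, ∃ n < B, (π ^ n) v ∈ A) {v : V} (hv : π v ∉ A) :
    dst π A (π v) = dst π A v + 1 ∧ st π A (π v) = st π A v := by
  have h1 : (π ^ (dst π A v + 1)) (st π A v) = π v := by
    rw [pow_one_add_apply, pow_dst]
  have h2 := dst_pow (π := π) (j := dst π A v + 1) (st_mem hd v) (fun i hi1 hi2 => by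
    rcases Nat.lt_or_ge i (dst π A v + 1) with h3 | h3
    · have h4 := not_mem_of_lt_dst (π := π) (A := A) (v := v) (n := dst π A v - i) (by omega)
      have h5 : (π ^ (dst π A v - i)).symm v = (π ^ i) (st π A v) := by
        rw [Equiv.symm_apply_eq, ← pow_add_apply, show dst π A v - i + i = dst π A v by omega,
          pow_dst]
      rwa [h5] at h4
    · obtain rfl : i = dst π A v + 1 := by omega
      rw [h1]
      exact hv)
  rw [h1] at h2
  exact h2

theorem gap_lt (hd : ∀ v, ∃ n < B, (π ^ n) v ∈ A) (v : V) : gap π A v < B := by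
  classical
  obtain ⟨n, hn, h⟩ := hd (π v)
  have h0 : (π ^ (n + 1)) v ∈ A := by
    rw [pow_add_apply π n 1, pow_one]
    exact h
  have h1 : ∃ n, (π ^ (n + 1)) v ∈ A := ⟨n, h0⟩
  unfold gap
  rw [dif_pos h1]
  exact (Nat.find_min' h1 h0).trans_lt hn

theorem gap_mem (hd : ∀ v, ∃ n < B, (π ^ n) v ∈ A) (v : V) : (π ^ (gap π A v + 1)) v ∈ A := by
  classical
  obtain ⟨n, hn, h⟩ := hd (π v)
  have h0 : (π ^ (n + 1)) v ∈ A := by
    rw [pow_add_apply π n 1, pow_one]
    exact h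
  have h1 : ∃ n, (π ^ (n + 1)) v ∈ A := ⟨n, h0⟩
  unfold gap
  rw [dif_pos h1]
  exact Nat.find_spec h1

theorem not_mem_gap {v : V} {i : ℕ} (h1 : 1 ≤ i) (h2 : i ≤ gap π A v) : (π ^ i) v ∉ A := by
  classical
  intro h3
  obtain ⟨j, rfl⟩ : ∃ j, i = j + 1 := ⟨i - 1, by omega⟩
  have h4 : ∃ n, (π ^ (n + 1)) v ∈ A := ⟨j, h3⟩
  unfold gap at h2
  rw [dif_pos h4] at h2
  have := Nat.find_min' h4 h3
  omega

theorem pos_succ (a : V) (i : ℕ) :
    (π ^ pos π A a (i + 1)) a = (π ^ (gap π A ((π ^ pos π A a i) a) + 1)) ((π ^ pos π A a i) a) := by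
  rw [← pow_add_apply]
  congr 2
  show pos π A a i + _ = _
  rw [add_comm]

theorem pos_mem (hd : ∀ v, ∃ n < B, (π ^ n) v ∈ A) {a : V} (ha : a ∈ A) (i : ℕ) :
    (π ^ pos π A a i) a ∈ A := by
  cases i with
  | zero => exact ha
  | succ i =>
    rw [pos_succ]
    exact gap_mem hd _

theorem pos_lt {a : V} {i j : ℕ} (h : i < j) : pos π A a i < pos π A a j := by
  induction j, h using Nat.le_induction with
  | base =>
    show _ < pos π A a i + (_ + 1)
    omega
  | succ j _ ih =>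
    show _ < pos π A a j + (_ + 1)
    omega

theorem pos_le (hd : ∀ v, ∃ n < B, (π ^ n) v ∈ A) (a : V) (i : ℕ) : pos π A a i ≤ i * B := by
  induction i with
  | zero => exact Nat.zero_le _
  | succ i ih =>
    have h1 := gap_lt hd ((π ^ pos π A a i) a)
    show pos π A a i + (_ + 1) ≤ _
    rw [Nat.succ_mul]
    omega

/-- The pattern of the bits `b`. -/
noncomputable def ptn (π : Equiv.Perm V) (A : Finset V) (b : V → Bool) (v : V) : ℤ :=
  sg (xor (b (st π A v)) (decide (Odd (dst π A v))))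

theorem odd_succ (n : ℕ) : decide (Odd (n + 1)) = !decide (Odd n) := by
  by_cases h : Odd n
  · have h1 : ¬ Odd (n + 1) := fun h' => (Nat.odd_add_one.1 h') h
    simp [h, h1]
  · have h1 : Odd (n + 1) := Nat.odd_add_one.2 h
    simp [h, h1]

theorem ptn_alt (hd : ∀ v, ∃ n < B, (π ^ n) v ∈ A) (b : V → Bool) {v : V} (hv : π v ∉ A) :
    ptn π A b (π v) = - ptn π A b v := by
  obtain ⟨h1, h2⟩ := dst_succ hd hv
  unfold ptn
  rw [h1, h2, odd_succ, ← sg_not]
  congr 1
  cases b (st π A v) <;> cases decide (Odd (dst π A v)) <;> rfl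

theorem ptn_pow (b : V → Bool) {a : V} (ha : a ∈ A) {j : ℕ}
    (h : ∀ i, 1 ≤ i → i ≤ j → (π ^ i) a ∉ A) :
    ptn π A b ((π ^ j) a) = sg (xor (b a) (decide (Odd j))) := by
  obtain ⟨h1, h2⟩ := dst_pow ha h
  unfold ptn
  rw [h1, h2]

/-- The defects in terms of the bits. -/
theorem mem_dfc (hd : ∀ v, ∃ n < B, (π ^ n) v ∈ A) (b : V → Bool) {a : V} (ha : a ∈ A)
    (h : b ((π ^ (gap π A a + 1)) a) = xor (b a) (decide (Odd (gap π A a)))) :
    (π ^ (gap π A a + 1)) a ∈ Dfc π A (ptn π A b) := by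
  have h0 := gap_mem hd a
  unfold Dfc
  rw [mem_filter]
  refine ⟨h0, ?_⟩
  have h1 : π.symm ((π ^ (gap π A a + 1)) a) = (π ^ gap π A a) a := by
    rw [pow_one_add_apply, Equiv.symm_apply_apply]
  rw [h1, ptn_pow b ha fun i hi1 hi2 => not_mem_gap hi1 hi2, ← h]
  have h2 := dst_start (π := π) h0
  unfold ptn
  rw [h2.1, h2.2]
  cases b ((π ^ (gap π A a + 1)) a) <;> simp

end Pool.Agent.K5
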