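import Mathlib

/-!
# Route W, pattern: the choice of the number of places
-/

set_option linter.unusedSectionVars false

namespace Pool.Agent.K5

open Filter Topology

/-- Polynomials against exponentials. -/
theorem exists_q_gen (m K : ℕ) : ∃ q₀ : ℕ, ∀ q, q₀ ≤ q → ∀ (v D m' : ℕ), v ≤ K * q ^ K →
    D ≤ K * q ^ K → m' ≤ m → 4 * (v : ℝ) * D * (1 - (1 / 2) ^ m') ^ q ≤ 1 := by
  set r : ℝ := 1 - (1 / 2) ^ m with hr
  have hr1 : r < 1 := by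
    have : (0 : ℝ) < (1 / 2) ^ m := by positivity
    rw [hr]
    linarith
  have hr0 : 0 ≤ r := by
    have : ((1 : ℝ) / 2) ^ m ≤ 1 := pow_le_one₀ (by norm_num) (by norm_num)
    rw [hr]
    linarith
  have h1 := (tendsto_pow_const_mul_const_pow_of_lt_one (2 * K) hr0 hr1).const_mul
    (4 * (K : ℝ) * K)
  rw [mul_zero] at h1
  have h2 : ∀ᶠ q : ℕ in atTop, 4 * (K : ℝ) * K * ((q : ℝ) ^ (2 * K) * r ^ q) ≤ 1 :=
    (h1.eventually (gt_mem_nhds (show (0 : ℝ) < 1 by norm_num))).mono fun _ h => h.le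
  obtain ⟨q₀, hq₀⟩ := eventually_atTop.1 h2
  refine ⟨q₀, fun q hq v D m' hv hD hm' => ?_⟩
  have hv' : (v : ℝ) ≤ K * (q : ℝ) ^ K := by exact_mod_cast hv
  have hD' : (D : ℝ) ≤ K * (q : ℝ) ^ K := by exact_mod_cast hD
  have h3 : (1 - ((1 : ℝ) / 2) ^ m') ^ q ≤ r ^ q := by
    have h4 : ((1 : ℝ) / 2) ^ m ≤ (1 / 2) ^ m' :=
      pow_le_pow_of_le_one (by norm_num) (by norm_num) hm'
    have h5 : ((1 : ℝ) / 2) ^ m' ≤ 1 := pow_le_one₀ (by norm_num) (by norm_num)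
    refine pow_le_pow_left₀ (by linarith) ?_ q
    rw [hr]
    linarith
  have h6 : (0 : ℝ) ≤ (1 - ((1 : ℝ) / 2) ^ m') ^ q := by
    have h5 : ((1 : ℝ) / 2) ^ m' ≤ 1 := pow_le_one₀ (by norm_num) (by norm_num)
    exact pow_nonneg (by linarith) q
  have hv0 : (0 : ℝ) ≤ v := Nat.cast_nonneg v
  have hD0 : (0 : ℝ) ≤ D := Nat.cast_nonneg D
  have hK0 : (0 : ℝ) ≤ K * (q : ℝ) ^ K := hv0.trans hv'
  calc 4 * (v : ℝ) * D * (1 - (1 / 2) ^ m') ^ q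
      ≤ 4 * (K * (q : ℝ) ^ K) * (K * (q : ℝ) ^ K) * r ^ q := by
        refine mul_le_mul ?_ h3 h6 (by positivity)
        refine mul_le_mul ?_ hD' hD0 (by positivity)
        linarith
    _ = 4 * (K : ℝ) * K * ((q : ℝ) ^ (2 * K) * r ^ q) := by
        rw [show (q : ℝ) ^ (2 * K) = (q : ℝ) ^ K * (q : ℝ) ^ K by rw [← pow_add]; ring_nf]
        ring
    _ ≤ 1 := hq₀ q hq

/-- The choice of the number of places in helper24's form. -/
theorem exists_q (m c : ℕ) : ∃ q, 1 ≤ q ∧ ∀ m', m' ≤ m →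
    4 * ((2 * q * m : ℕ) : ℝ) *
      ((2 * (c * q ^ 2 + 1) + 2 * ((4 * q + 2) * (c * q ^ 2)) + 1 : ℕ) : ℝ) *
      (1 - (1 / 2) ^ m') ^ q ≤ 1 := by
  obtain ⟨q₀, h⟩ := exists_q_gen m (2 * m + 16 * c + 3)
  refine ⟨max q₀ 1, le_max_right _ _, fun m' hm' => ?_⟩
  set q := max q₀ 1 with hq
  have hq1 : 1 ≤ q := le_max_right _ _
  have key : ∀ j, j ≤ 2 * m + 16 * c + 3 → q ^ j ≤ q ^ (2 * m + 16 * c + 3) := fun j hj =>
    Nat.pow_le_pow_right hq1 hj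
  refine h q (le_max_left _ _) _ _ m' ?_ ?_ hm'
  · have h1 := key 1 (by omega)
    rw [pow_one] at h1
    calc 2 * q * m = 2 * m * q := by ring
      _ ≤ (2 * m + 16 * c + 3) * q ^ (2 * m + 16 * c + 3) :=
        Nat.mul_le_mul (by omega) h1
  · have h3 := key 3 (by omega)
    have h2 : q ^ 2 ≤ q ^ 3 := Nat.pow_le_pow_right hq1 (by omega)
    have h1 : 1 ≤ q ^ 3 := Nat.one_le_pow _ _ hq1
    calc 2 * (c * q ^ 2 + 1) + 2 * ((4 * q + 2) * (c * q ^ 2)) + 1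
        = 8 * c * q ^ 3 + 6 * c * q ^ 2 + 3 := by ring
      _ ≤ 8 * c * q ^ 3 + 6 * c * q ^ 3 + 3 * q ^ 3 := by
        have := Nat.mul_le_mul_left (6 * c) h2
        omega
      _ = (14 * c + 3) * q ^ 3 := by ring
      _ ≤ (2 * m + 16 * c + 3) * q ^ (2 * m + 16 * c + 3) := Nat.mul_le_mul (by omega) h3

end Pool.Agent.K5
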