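import Mathlib
import Pool.Agent.Work.MP_974d84_co_k5.Defs5

/-!
# ROOM K5, theorem (K_eps): the statements of the modules (nobody imports this file)
-/

set_option linter.unusedSectionVars false

namespace Pool.Agent.K5.Plan

open Finset SimpleGraph Pool.Agent.Exp Pool.Agent.Log5 Pool.Agent.Log5.Clu Pool.Agent.K5

/-- M0, file Sites.lean: one site in every odd circuit of the 2-factor (log/: exists_mu',
exists_nu, exists_classes, exists_candidates with q = 1) -/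
theorem sites {V : Type} [Fintype V] [DecidableEq V] {G : SimpleGraph V} [DecidableRel G.Adj]
    (h3 : ∀ v, G.degree v = 3) {k a : ℕ} (hg : Gir G k) (hk : 12 * 4 ^ a ≤ k)
    (hbr : ∀ S : Finset V, S.Nonempty → Sᶜ.Nonempty → 2 ≤ dd G S)
    (F : SimpleGraph V) (hF : F ≤ G) (hF2 : ∀ v, (F.neighborSet v).ncard = 2) :
    ∃ μ ν : V → V, (∀ v, μ (μ v) = v) ∧ (∀ v, ν (ν v) = v) ∧ (∀ v, G.Adj v (μ v)) ∧
      (∀ v, ν v ≠ v → G.Adj v (ν v)) ∧ (∀ v, μ v ≠ ν v) ∧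
      (∀ v v', ν v = v → ν v' = v' → v ≠ v' → Disjoint (Bl G.Adj a v) (Bl G.Adj a v')) ∧
      ∀ X : Finset V, k * (X.filter fun v => ν v = v).card ≤ X.card + k * dd G X := by
  sorry

/-- M1, file CritReal.lean -/
theorem crit_real {V : Type} [Fintype V] [DecidableEq V] (G : SimpleGraph V) [DecidableRel G.Adj]
    {r : ℝ} (hr : 2 < r) (h3 : ∀ v, G.degree v = 3) (x : V → ℤ) (hx : ∀ v, x v = 1 ∨ x v = -1)
    (hX : ∀ X : Finset V, r * |∑ v ∈ X, (x v : ℝ)| ≤ (r - 2) * dd G X) :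
    ∃ f : V → V → ℝ, (∀ u v, f u v = - f v u) ∧ (∀ v, ∑ u, f v u = 0) ∧
      (∀ u v, ¬ G.Adj u v → f u v = 0) ∧ ∀ u v, G.Adj u v → 1 ≤ |f u v| ∧ |f u v| ≤ r - 1 := by
  sorry

/-- M1b, file SmallReal.lean (at most 6 vertices, no bridge; integer flow with values 1..4) -/
theorem small_real {V : Type} [Fintype V] [DecidableEq V] (G : SimpleGraph V) [DecidableRel G.Adj]
    (h3 : ∀ v, G.degree v = 3) (h6 : Fintype.card V ≤ 6)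
    (hbr : ∀ S : Finset V, S.Nonempty → Sᶜ.Nonempty → 2 ≤ dd G S) :
    ∃ f : V → V → ℝ, (∀ u v, f u v = - f v u) ∧ (∀ v, ∑ u, f v u = 0) ∧
      (∀ u v, ¬ G.Adj u v → f u v = 0) ∧ ∀ u v, G.Adj u v → 1 ≤ |f u v| ∧ |f u v| ≤ 4 := by
  sorry

/-- M2, file CoresEx.lean -/
theorem exists_cores {V : Type} [Fintype V] [DecidableEq V] (G : SimpleGraph V)
    [DecidableRel G.Adj] (C : ℝ) : ∃ (r : ℕ) (S : Fin r → Finset V), Cores G C S := by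
  sorry

/-- M2a, file Gf.lean: the function `gf` -/
theorem gf_mono {C : ℝ} (hC : 100 ≤ C) {a b : ℕ} (ha : 1 ≤ a) (hab : a ≤ b) : gf C a ≤ gf C b := by
  sorry

theorem gf_subadd {C : ℝ} (hC : 100 ≤ C) {a b : ℕ} (ha : 1 ≤ a) (hb : 1 ≤ b) :
    gf C (a + b) ≤ gf C a + gf C b := by
  sorry

/-- M3, file CoreFacts.lean -/
theorem core_facts {C : ℝ} (hC : 100 ≤ C) (N : ℕ) : ∃ k₀ : ℕ, ∀ k, k₀ ≤ k → ∀ {V : Type}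
    [Fintype V] [DecidableEq V] (G : SimpleGraph V) [DecidableRel G.Adj],
    (∀ v, G.degree v = 3) → CycConn G k → Gir G k → ∀ {r : ℕ} (S : Fin r → Finset V),
    Cores G C S → Facts G C N k S := by
  sorry

/-- M4, file Toggle.lean -/
theorem toggle {V : Type} [Fintype V] [DecidableEq V] (G : SimpleGraph V) [DecidableRel G.Adj]
    {C : ℝ} {N k r : ℕ} {S : Fin r → Finset V} (hS : Cores G C S) (hF : Facts G C N k S)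
    (X : Finset V) : ∃ (X' : Finset V) (A : Fin r → Finset V),
      (∀ i, A i ⊆ S i ∧ 2 * (A i).card ≤ (S i).card) ∧ Sat S X' ∧
      100 * dd G X' ≤ 123 * dd G X ∧ 100 * ∑ i, dd G (A i) ≤ 223 * dd G X ∧
      ∀ σ : V → ℝ, |∑ v ∈ X, σ v| ≤ |∑ v ∈ X', σ v| + ∑ i, |∑ v ∈ A i, σ v| := by
  sorry

/-- M5, file RegionCount.lean -/
theorem region_count {τ : ℝ} (hτ : 0 < τ) : ∃ C₀ : ℝ, 1 ≤ C₀ ∧ ∀ C : ℝ, C₀ ≤ C → ∀ {V : Type}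
    [Fintype V] [DecidableEq V] (G : SimpleGraph V) [DecidableRel G.Adj] (Y : Finset V),
    (∀ A ⊆ Y, A.Nonempty → Aᶜ.Nonempty → 1 ≤ dd G A) →
    ∀ (K : ℕ) (c : V → V), 1 ≤ K → (∀ x, Joined G (cls c x)) → (∀ x, K ≤ (cls c x).card) →
    Clo c Y → (∀ A ⊆ Y, A.Nonempty → Clo c A → 2 * A.card ≤ Y.card →
      A.card ≤ dd G A ∨ C * (1 + Real.log A.card) ^ 2 ≤ dd G A) →
    ∀ (t : V) (D : ℕ) (F : Finset (Finset V)), C ≤ D →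
    (∀ Z ∈ F, t ∈ Z ∧ RBond G Y c Z ∧ dd G Z = D) →
    (F.card : ℝ) ≤ Real.exp ((8 / Real.sqrt K + τ) * D) := by
  sorry

/-- M5b, file RegionCount.lean -/
theorem region_count_two : ∃ C₀ κ₀ : ℝ, 1 ≤ C₀ ∧ ∀ C : ℝ, C₀ ≤ C → ∀ {V : Type}
    [Fintype V] [DecidableEq V] (G : SimpleGraph V) [DecidableRel G.Adj] (Y : Finset V),
    (∀ A ⊆ Y, A.Nonempty → Aᶜ.Nonempty → 1 ≤ dd G A) →
    (∀ A ⊆ Y, A.Nonempty → 2 * A.card ≤ Y.card →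
      A.card ≤ 3 * dd G A ∨ C * (1 + Real.log A.card) ^ 2 ≤ dd G A) →
    ∀ (t : V) (D : ℕ) (F : Finset (Finset V)), C ≤ D →
    (∀ Z ∈ F, t ∈ Z ∧ RBond G Y id Z ∧ dd G Z = D) →
    (F.card : ℝ) ≤ Real.exp (κ₀ * D) := by
  sorry

/-- M6, file SignsSmear.lean -/
theorem signs_smear {b κ : ℝ} (hb : 0 < b) (hb1 : b ≤ 1) (hκ : κ ≤ b ^ 2 / 16) (N₀ : ℕ) :
    ∃ D₀ : ℕ, ∀ {V : Type} [Fintype V] [DecidableEq V] (d : Finset V → ℕ) (m : ℕ)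
    (w : Fin m → V → ℝ) (U : Fin m → Finset V) (Fam : Finset (Finset V)),
    (∀ j, (U j).card ≤ N₀) → (∀ j v, w j v ≠ 0 → v ∈ U j) →
    (∀ j, ∀ X ∈ Fam, |∑ v ∈ X, w j v| ≤ 1) →
    (∀ X ∈ Fam, (univ.filter fun j => ∑ v ∈ X, w j v ≠ 0).card ≤ 2 * d X) →
    (∀ X ∈ Fam, D₀ ≤ d X) →
    (∀ v D, ((Fam.filter fun X => v ∈ X ∧ d X = D).card : ℝ) ≤ N₀ * Real.exp (κ * D)) →
    ∃ ε : Fin m → ℤ, (∀ j, ε j = 1 ∨ ε j = -1) ∧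
      ∀ X ∈ Fam, |∑ j, (ε j : ℝ) * ∑ v ∈ X, w j v| ≤ b * d X := by
  sorry

/-- M7, file RegionSplit.lean -/
theorem region_split {V : Type} [Fintype V] [DecidableEq V] {G : SimpleGraph V}
    [DecidableRel G.Adj] {c : V → V} (hc : ∀ x, Joined G (cls c x))
    (hbr : ∀ S : Finset V, S.Nonempty → Sᶜ.Nonempty → 1 ≤ dd G S) {Y : Finset V} (hY : Clo c Y)
    {σ : V → ℝ} (h0 : ∑ v, σ v = 0) {b : ℝ} (hb0 : 0 ≤ b)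
    (hb : ∀ Z, RBond G Y c Z → Zᶜ.Nonempty → |∑ v ∈ Z, σ v| ≤ b * dd G Z)
    (S : Finset V) (hSY : S ⊆ Y) (hS : Clo c S) : |∑ v ∈ S, σ v| ≤ b * dd G S := by
  sorry

/-- M8, file SmearEx.lean: non-backtracking dispersal from a vertex `t` of `H`-degree one -/
theorem smear_one {V : Type} [Fintype V] [DecidableEq V] {G : SimpleGraph V} [DecidableRel G.Adj]
    (h3 : ∀ v, G.degree v = 3) {k j₀ : ℕ} (hg : Gir G k) (hk : 3 * 2 ^ (j₀ + 2) ≤ k) (hj : 1 ≤ j₀)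
    (H : SimpleGraph V) (hH : H ≤ G) (t : V)
    (hHt : (H.neighborSet t).ncard = 1)
    (hHv : ∀ v ∈ Bl G.Adj j₀ t, v ≠ t → (H.neighborSet v).ncard = 2) :
    ∃ (φ : V → V → ℝ) (w : V → ℝ), (∀ u v, φ u v = - φ v u) ∧
      (∀ u v, φ u v ≠ 0 → G.Adj u v ∧ u ∈ Bl G.Adj j₀ t ∧ v ∈ Bl G.Adj j₀ t) ∧
      (∀ u v, |φ u v| ≤ 2 / 5) ∧ (∀ u v, H.Adj u v → |φ u v| ≤ 1 / 5) ∧
      (∀ u v, ¬ (u = t ∨ (G.Adj t u ∧ ¬ H.Adj t u)) → ¬ (v = t ∨ (G.Adj t v ∧ ¬ H.Adj t v)) →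
        |φ u v| ≤ 1 / 10) ∧
      (∀ v, 0 ≤ w v) ∧ (∀ v, w v ≤ 1 / 2 ^ j₀) ∧
      (∀ v, w v ≠ 0 → v ∈ Bl G.Adj j₀ t ∧ v ∉ Bl G.Adj (j₀ - 1) t) ∧
      ∑ v, w v = 1 ∧ ∀ v, ∑ u, φ v u = (if v = t then 1 else 0) - w v := by
  sorry

/-- M9a, file CoreCharges.lean: real charges -/
theorem core_charges_real {V : Type} [Fintype V] [DecidableEq V] (G : SimpleGraph V)
    [DecidableRel G.Adj] {r : ℕ} (S : Fin r → Finset V) (hne : ∀ i, (S i).Nonempty)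
    (hd : ∀ i j, i ≠ j → Disjoint (S i) (S j)) {k : ℕ} (hk : 0 < k)
    (hcut : ∀ X : Finset V, Sat S X → (∃ i, S i ⊆ X) → (∃ i, Disjoint (S i) X) → k ≤ dd G X)
    (a : Fin r → ℝ) (ha : ∑ i, a i = 0) :
    ∃ z : Fin r → ℤ, ∑ i, z i = 0 ∧ ∀ X, Sat S X →
      |∑ i ∈ univ.filter (fun i => S i ⊆ X), (a i + 4 * z i)| ≤ 5 / k * dd G X := by
  sorry

/-- M9b, file CoreFlow.lean: Hoffman with free boundary in the cores, then M9a -/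
theorem core_flow {V : Type} [Fintype V] [DecidableEq V] (G : SimpleGraph V)
    [DecidableRel G.Adj] {r : ℕ} (S : Fin r → Finset V) (hne : ∀ i, (S i).Nonempty)
    (hd : ∀ i j, i ≠ j → Disjoint (S i) (S j)) {k : ℕ} (hk : 0 < k)
    (hcut : ∀ X : Finset V, Sat S X → (∃ i, S i ⊆ X) → (∃ i, Disjoint (S i) X) → k ≤ dd G X)
    {σ : V → ℝ} (h0 : ∑ v, σ v = 0) {b : ℝ} (hb0 : 0 ≤ b)
    (hW : ∀ X : Finset V, (∀ i, Disjoint X (S i)) → |∑ v ∈ X, σ v| ≤ b * dd G X) :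
    ∃ z : Fin r → ℤ, (∀ i, 4 * |(z i : ℝ)| ≤ |∑ v ∈ S i, σ v| + (b + 5 / k) * dd G (S i)) ∧
      ∀ X, Sat S X → |∑ v ∈ X, σ v + 4 * ∑ i ∈ univ.filter (fun i => S i ⊆ X), (z i : ℝ)| ≤
        (b + 5 / k) * dd G X := by
  sorry

variable {V' : Type}

/-- The vertices where the gadget with the path `P` has its sites. -/
def gidx (a : ℕ) : Finset ℕ := {0, 2 * a + 1, 4 * a + 3, 6 * a + 4, 8 * a + 6, 10 * a + 7}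

/-- A gadget path: `ν`, third edge alternately on `[0, 2a+1]` and `[8a+6, 10a+7]`, `μ`, `ν`
alternately on `[2a+1, 4a+3]` and `[6a+4, 8a+6]`, `μ`, third edge on `[4a+3, 6a+4]`. -/
structure GPath (G : SimpleGraph V') (μ ν : V' → V') (a : ℕ) (P : ℕ → V') : Prop where
  fix : ∀ i ≤ 10 * a + 7, ν (P i) ≠ P i
  nu : ∀ i < 10 * a + 7, Even i → ¬ (4 * a + 3 ≤ i ∧ i < 6 * a + 4) → P (i + 1) = ν (P i)
  mu : ∀ i < 10 * a + 7, Odd i → 2 * a + 1 ≤ i → i < 8 * a + 6 → P (i + 1) = μ (P i)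
  third : ∀ i < 10 * a + 7, (Even i ∧ 4 * a + 3 ≤ i ∧ i < 6 * a + 4) ∨
    (Odd i ∧ (i < 2 * a + 1 ∨ 8 * a + 6 ≤ i)) →
    G.Adj (P i) (P (i + 1)) ∧ P (i + 1) ≠ μ (P i) ∧ P (i + 1) ≠ ν (P i)

/-- M10a, file GPathEx.lean -/
theorem exists_gpath {V : Type} [Fintype V] [DecidableEq V] {G : SimpleGraph V}
    [DecidableRel G.Adj] (h3 : ∀ v, G.degree v = 3) {k a : ℕ} (hg : Gir G k)
    (hk : 24 * a + 40 ≤ k) (μ ν : V → V) (hμ : ∀ v, μ (μ v) = v) (hν : ∀ v, ν (ν v) = v)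
    (hμa : ∀ v, G.Adj v (μ v)) (hνa : ∀ v, ν v ≠ v → G.Adj v (ν v)) (hne : ∀ v, μ v ≠ ν v)
    (v₀ : V) (hv₀ : ∀ v ∈ Bl G.Adj (10 * a + 8) v₀, ν v ≠ v) :
    ∃ P : ℕ → V, GPath G μ ν a P ∧ (∀ i ≤ 10 * a + 7, P i ∈ Bl G.Adj i v₀) ∧
      (∀ i j, i ≤ 10 * a + 7 → j ≤ 10 * a + 7 → P i = P j → i = j) ∧
      ∀ i j, j ≤ 10 * a + 7 → i + (2 * a + 1) ≤ j → Disjoint (Bl G.Adj a (P i)) (Bl G.Adj a (P j)) := by
  sorry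

/-- M10b, file Gadgets.lean -/
theorem gadgets {V : Type} [Fintype V] [DecidableEq V] {G : SimpleGraph V} [DecidableRel G.Adj]
    (h3 : ∀ v, G.degree v = 3) (μ ν : V → V) (hμ : ∀ v, μ (μ v) = v) (hν : ∀ v, ν (ν v) = v)
    (hμa : ∀ v, G.Adj v (μ v)) (hνa : ∀ v, ν v ≠ v → G.Adj v (ν v)) (hne : ∀ v, μ v ≠ ν v)
    (a : ℕ) {Γ : Type} [Fintype Γ] [DecidableEq Γ] (P : Γ → ℕ → V)
    (hP : ∀ g, GPath G μ ν a (P g))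
    (hinj : ∀ g i g' i', i ≤ 10 * a + 7 → i' ≤ 10 * a + 7 → P g i = P g' i' → g = g' ∧ i = i') :
    ∃ (H : SimpleGraph V) (m : ℕ) (p q : Fin m → V), H ≤ G ∧
      (∀ v, (H.neighborSet v).ncard =
        if (ν v = v ∨ ∃ g, ∃ i ∈ gidx a, v = P g i) then 1 else 2) ∧
      Function.Injective p ∧ Function.Injective q ∧ (∀ i j, p i ≠ q j) ∧
      (∀ v, ((∃ j, p j = v) ∨ ∃ j, q j = v) ↔ (ν v = v ∨ ∃ g, v = P g 0 ∨ v = P g (10 * a + 7))) ∧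
      (∀ (X : Finset V) (J : Finset (Fin m)), (∀ j ∈ J, ¬ (p j ∈ X ↔ q j ∈ X)) →
        J.card ≤ dd G X) ∧
      ∀ (ε : Fin m → ℤ) (η₁ η₂ : Γ → ℤ), (∀ j, ε j = 1 ∨ ε j = -1) →
        (∀ g, η₁ g = 1 ∨ η₁ g = -1) → (∀ g, η₂ g = 1 ∨ η₂ g = -1) →
        ∃ x : V → ℤ, (∀ v, x v = 1 ∨ x v = -1) ∧ (∀ u v, H.Adj u v → x u = - x v) ∧
          (∀ j, x (p j) = ε j ∧ x (q j) = - ε j) ∧
          ∀ g, x (P g (2 * a + 1)) = η₁ g ∧ x (P g (4 * a + 3)) = η₁ g ∧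
            x (P g (6 * a + 4)) = η₂ g ∧ x (P g (8 * a + 6)) = η₂ g := by
  sorry

/-- M11, file Centres.lean -/
theorem centres {θ η C : ℝ} (hθ : 0 < θ) (hη : 0 < η) (hηθ : 20 * η ≤ θ) (R : ℕ) :
    ∃ C₀ : ℝ, ∀ C, C₀ ≤ C → ∃ (k₀ N₀ : ℕ), ∀ N k, N₀ ≤ N → k₀ ≤ k → ∀ {V : Type} [Fintype V]
    [DecidableEq V] (G : SimpleGraph V) [DecidableRel G.Adj], (∀ v, G.degree v = 3) →
    (∀ A : Finset V, A.Nonempty → Aᶜ.Nonempty → 1 ≤ dd G A) → CycConn G k → Gir G k →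
    ∀ {r : ℕ} (S : Fin r → Finset V), Cores G C S → Facts G C N k S → ∀ T : Finset V,
    (∀ i, N * (T ∩ S i).card ≤ 2 * (S i).card) →
    ∃ (M : Fin r → ℕ) (β : (i : Fin r) → Fin (M i) → V), (∀ i, η * gf C (S i).card ≤ M i) ∧
      (∀ i g, Bl G.Adj R (β i g) ⊆ S i ∧ Disjoint (Bl G.Adj R (β i g)) T) ∧
      (∀ i g g', g ≠ g' → Disjoint (Bl G.Adj R (β i g)) (Bl G.Adj R (β i g'))) ∧
      ∀ i Z, Z ⊆ S i → Joined G Z → k₀ ≤ dd G Z →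
        ((univ.filter fun g => ¬ Disjoint (Bl G.Adj R (β i g)) Z).card : ℝ) ≤ θ * dd G Z := by
  sorry

/-- M12, file FinalIneq.lean -/
theorem final_ineq {V : Type} [Fintype V] [DecidableEq V] {G : SimpleGraph V} [DecidableRel G.Adj]
    (h3 : ∀ v, G.degree v = 3) {H : SimpleGraph V} (hH : H ≤ G) {T : Finset V}
    (hdeg : ∀ v, (H.neighborSet v).ncard = if v ∈ T then 1 else 2) {x : V → ℤ}
    (hx : ∀ v, x v = 1 ∨ x v = -1) (halt : ∀ u v, H.Adj u v → x u = - x v) {j₀ : ℕ}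
    (hT : ∀ t ∈ T, ∀ t' ∈ T, t ≠ t' → Disjoint (Bl G.Adj j₀ t) (Bl G.Adj j₀ t'))
    {φ : V → V → V → ℝ} {w : V → V → ℝ} (h1 : ∀ t ∈ T, ∀ u v, φ t u v = - φ t v u)
    (h2 : ∀ t ∈ T, ∀ u v, φ t u v ≠ 0 → G.Adj u v ∧ u ∈ Bl G.Adj j₀ t ∧ v ∈ Bl G.Adj j₀ t)
    (h4 : ∀ t ∈ T, ∀ u v, |φ t u v| ≤ 2 / 5) (h5 : ∀ t ∈ T, ∀ u v, H.Adj u v → |φ t u v| ≤ 1 / 5)
    (h6 : ∀ t ∈ T, ∀ v, ∑ u, φ t v u = (if v = t then 1 else 0) - w t v) (X : Finset V) :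
    |∑ v ∈ X, (x v : ℝ)| ≤ 3 / 5 * dd G X + |∑ t ∈ T, (x t : ℝ) * ∑ v ∈ X, w t v| / 2 := by
  sorry

/-- The weights of the strand ends. -/
def sw {m : ℕ} (w : V' → V' → ℝ) (p q : Fin m → V') (ε : Fin m → ℤ) (v : V') : ℝ :=
  ∑ j, (ε j : ℝ) * (w (p j) v - w (q j) v)

/-- M13, file RegionSigns.lean (uses M5, M6, M7) -/
theorem region_signs {b κ τ : ℝ} (hb : 0 < b) (hb1 : b ≤ 1) (hτ : 0 < τ) (ρ s j₀ : ℕ)
    (hs : 8 / Real.sqrt ((2 ^ s : ℕ) : ℝ) + τ ≤ b ^ 2 / 16) (hj : 1 ≤ b * 2 ^ j₀) :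
    ∃ C₀ : ℝ, ∀ C, C₀ ≤ C → ∃ k₀ N₀ : ℕ, ∀ N k, N₀ ≤ N → k₀ ≤ k → ∀ {V : Type} [Fintype V]
    [DecidableEq V] (G : SimpleGraph V) [DecidableRel G.Adj], (∀ v, G.degree v = 3) →
    (∀ A : Finset V, A.Nonempty → Aᶜ.Nonempty → 1 ≤ dd G A) → CycConn G k → Gir G k →
    ∀ {r : ℕ} (S : Fin r → Finset V), Cores G C S → Facts G C N k S →
    ∀ (Ξ : Type) [Fintype Ξ], Fintype.card Ξ ≤ (2 ^ ρ) ^ (3 * 2 ^ (4 * ρ)) →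
    ∀ c : Ξ → V → V, (∀ ξ x, Joined G (cls (c ξ) x)) → (∀ ξ x, 2 ^ s ≤ (cls (c ξ) x).card) →
    (∀ ξ v, c ξ v ∈ Bl G.Adj ρ v) → ∀ (m : ℕ) (p q : Fin m → V), Function.Injective p →
    Function.Injective q → (∀ i j, p i ≠ q j) →
    (∀ (X : Finset V) (J : Finset (Fin m)), (∀ j ∈ J, ¬ (p j ∈ X ↔ q j ∈ X)) →
      J.card ≤ dd G X) →
    ∀ w : V → V → ℝ, Smear G j₀ (univ.image p ∪ univ.image q) w →
    ∃ ε : Fin m → ℤ, (∀ j, ε j = 1 ∨ ε j = -1) ∧ ∀ ξ R, Region S R → ∀ A, A ⊆ pre (c ξ) R →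
      Clo (c ξ) A → |∑ v ∈ A, sw w p q ε v| ≤ b * dd G A := by
  sorry

/-- M14, file Average.lean -/
theorem average_all {V : Type} [Fintype V] [DecidableEq V] {G : SimpleGraph V}
    [DecidableRel G.Adj] (h3 : ∀ v, G.degree v = 3) {Ξ : Type} [Fintype Ξ] [Nonempty Ξ]
    (c : Ξ → V → V) {B b δ : ℝ} (hb0 : 0 ≤ b) (hδ : 0 ≤ δ)
    (hB : ∀ X : Finset V, ∑ ξ, ((univ.filter fun v => ¬ (v ∈ X ↔ c ξ v ∈ X)).card : ℝ) ≤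
      B * dd G X * Fintype.card Ξ) {σ : V → ℝ} (hσ : ∀ v, |σ v| ≤ δ) {r : ℕ}
    (S : Fin r → Finset V)
    (hreg : ∀ ξ R, Region S R → ∀ A, A ⊆ pre (c ξ) R → Clo (c ξ) A →
      |∑ v ∈ A, σ v| ≤ b * dd G A) :
    ∀ R, Region S R → ∀ X ⊆ R, |∑ v ∈ X, σ v| ≤ (b * (1 + 3 * B) + δ * B) * dd G X := by
  sorry

/-- M15, file Params.lean -/
theorem params {b' : ℝ} (hb' : 0 < b') : ∃ (ρ m s : ℕ) (b τ : ℝ), 4 * ρ ≤ 2 ^ m ∧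
    8 * s + 4 * m + 7 ≤ ρ ∧ 0 < b ∧ b ≤ 1 ∧ 0 < τ ∧
    b * (1 + 3 * (9 * ρ * 2 ^ (m + 1))) ≤ b' ∧
    8 / Real.sqrt ((2 ^ s : ℕ) : ℝ) + τ ≤ b ^ 2 / 16 := by
  sorry

/-- M16, file QBound.lean: the gadget charges inside a core -/
theorem q_bound {V : Type} [Fintype V] [DecidableEq V] {G : SimpleGraph V} [DecidableRel G.Adj]
    (h3 : ∀ v, G.degree v = 3) {C : ℝ} {N k r : ℕ} {S : Fin r → Finset V} (hS : Cores G C S)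
    (hF : Facts G C N k S) (hc : CycConn G k) {j₀ R : ℕ} {θ : ℝ} (hθ : 0 ≤ θ) (i : Fin r)
    {Γ : Type} [Fintype Γ] [DecidableEq Γ] (β : Γ → V) (σ : Γ → V → ℝ)
    (hdisj : ∀ g g', g ≠ g' → Disjoint (Bl G.Adj R (β g)) (Bl G.Adj R (β g')))
    (hσ0 : ∀ g v, σ g v ≠ 0 → v ∈ Bl G.Adj R (β g)) (hσ1 : ∀ g v, |σ g v| ≤ 1 / 2 ^ j₀)
    (hσ4 : ∀ g, ∑ v, |σ g v| ≤ 4)
    {k₁ : ℕ} (hk₁ : k₁ ≤ k) (hβ : ∀ Z, Z ⊆ S i → Joined G Z → k₁ ≤ dd G Z →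
        ((univ.filter fun g => ¬ Disjoint (Bl G.Adj R (β g)) Z).card : ℝ) ≤ θ * dd G Z)
    (A : Finset V) (hA : A ⊆ S i) (hA2 : 3 * A.card ≤ 2 * (S i).card) :
    |∑ v ∈ A, ∑ g, σ g v| ≤ (2 / 2 ^ j₀ + 4 * θ) * dd G A := by
  sorry

/-- M17, file MainK.lean (assembly) -/
theorem main {ε : ℝ} (hε : 0 < ε) : ∃ k : ℕ, ∀ {V : Type} [Fintype V] [DecidableEq V]
    (G : SimpleGraph V) [DecidableRel G.Adj], (∀ v, G.degree v = 3) → CycConn G k →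
    ∀ F : SimpleGraph V, F ≤ G → (∀ v, (F.neighborSet v).ncard = 2) →
    ∃ f : V → V → ℝ, (∀ u v, f u v = - f v u) ∧ (∀ v, ∑ u, f v u = 0) ∧
      (∀ u v, ¬ G.Adj u v → f u v = 0) ∧ ∀ u v, G.Adj u v → 1 ≤ |f u v| ∧ |f u v| ≤ 4 + ε := by
  sorry

end Pool.Agent.K5.Plan
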