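import Mathlib
import Pool.Agent.Work.MP_974d84_co_k5.DefsE

/-!
# ROOM BG: the statements of the modules (nobody imports this file)
-/

set_option linter.unusedSectionVars false

namespace Pool.Agent.K5.PlanE

open Finset SimpleGraph Pool.Agent.Exp Pool.Agent.Log5 Pool.Agent.Log5.Clu Pool.Agent.K5

/-- E3, file AwayM.lean: removing the windows near the marks keeps the windows dense. -/
theorem win_away (c₀ R ρ : ℕ) : ∃ c : ℕ, c₀ ≤ c ∧ ∀ q, 1 ≤ q → ∃ D k : ℕ,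
    ∀ {V : Type} [Fintype V] [DecidableEq V] (G : SimpleGraph V) [DecidableRel G.Adj] {μ : V → V}
    {π : Equiv.Perm V}, Frame G μ π → Gir G k → ∀ p : V → V → ℝ, Marks G p → FarM G D p →
    ∀ A : Finset V, Win G π R q (c₀ * q ^ 2) A →
      Win G π R q (c * q ^ 2) (awayM G π R q ρ p A) := by
  sorry

/-- E4, file PatternEx.lean: as `exists_pattern`, with the bits of the segments which meet the
trees of the marks prescribed (boundedly many per mark; use tests without these segments). -/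
theorem exists_pattern_e (J R c : ℕ) (hJ : 1 ≤ J) (hR : 2 * J + 1 ≤ R) : ∃ q : ℕ, 1 ≤ q ∧
    ∃ M D k₀ : ℕ, ∀ {V : Type} [Fintype V] [DecidableEq V] (G : SimpleGraph V)
    [DecidableRel G.Adj] {μ : V → V} {π : Equiv.Perm V}, Frame G μ π → Gir G k₀ →
    ∀ p : V → V → ℝ, Marks G p → FarM G D p → ∀ A : Finset V, Win G π R q (c * q ^ 2) A →
    (∀ a ∈ A, ∀ u ∈ ends p, Disjoint (zone G π R q a) (Bl G.Adj (2 * J + 4) u)) →
    ∃ y : V → ℤ, PatternE μ π J q M A p y := by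
  sorry

/-- E4b, file ParityE.lean: the number of defects -/
theorem even_dfc_e {V : Type} [Fintype V] [DecidableEq V] {G : SimpleGraph V}
    [DecidableRel G.Adj] {μ : V → V} {π : Equiv.Perm V} (hf : Frame G μ π) {J q M : ℕ}
    {A : Finset V} {p : V → V → ℝ} (hp : Marks G p) {y : V → ℤ}
    (hA : ∀ a ∈ A, p (π.symm a) a = 0) (hy : PatternE μ π J q M A p y) (t : ℤ)
    (ht : ∑ u, ∑ v, p u v = 4 * t) :
    ∃ m : ℤ, ((Dfc π A y).card : ℝ) = ∑ u ∈ ends p, chm μ p u + 2 * m := by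
  sorry

/-- E5, file FinalE.lean: the labels and the flows; `J ≥ 3`. Loads: circuit edges
`1/2 + 1/2^(J+2) + (2/5)/2^(J+1)`, third edges `1/2 + (2/5)/2^J`, marked edges 0. -/
theorem final_e {V : Type} [Fintype V] [DecidableEq V] {G : SimpleGraph V} [DecidableRel G.Adj]
    {μ : V → V} {π : Equiv.Perm V} (hf : Frame G μ π) {J j₀ jm R q B M k D : ℕ} (h3J : 3 ≤ J)
    (hJ : J ≤ j₀) (hjm : J ≤ jm) (hR : 2 * j₀ + 2 ≤ R) (hg : Gir G k)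
    (hk : 4 * q + 4 * j₀ + 20 ≤ k) (hkm : 8 * jm + 20 ≤ k) (hD : 4 * jm + 10 ≤ D) {A : Finset V}
    (hA : Win G π R q B A) {p : V → V → ℝ} (hp : Marks G p) (hpD : FarM G D p)
    (hAp : ∀ a ∈ A, ∀ u ∈ ends p, Disjoint (zone G π R q a) (Bl G.Adj (2 * J + 4) u))
    {y : V → ℤ} (hy : PatternE μ π J q M A p y) :
    ∃ w : V → ℤ → V → ℝ, (∀ a s v, 0 ≤ w a s v) ∧ (∀ a s v, w a s v ≤ 1 / 2 ^ j₀) ∧
      (∀ a ∈ Dfc π A y, ∀ s, (s = 1 ∨ s = -1) → (∀ v, w a s v ≠ 0 → v ∈ zone G π R q a) ∧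
        ∑ v, w a s v = 1) ∧
      ∀ ε : V → ℤ, (∀ v, ε v = 1 ∨ ε v = -1) → ∃ x : V → ℤ, (∀ v, x v = 1 ∨ x v = -1) ∧
        ∀ X : Finset V, |∑ v ∈ X, ((x v : ℝ) + (∑ u, p v u) / 2)| ≤ 14 / 25 * dM G p X +
          |∑ a ∈ Dfc π A y, (ε a : ℝ) * ∑ v ∈ X, w a (ε a) v +
            ∑ u ∈ ends p, chm μ p u * ∑ v ∈ X, wmm μ π p jm u v| := by
  sorry

/-- E6, file ClustersE.lean (uses pick_zone): one cluster behind every leaf of every mark end.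
`W u b` is a path from the leaf to the centre `β u b` of the cluster. -/
theorem exists_clusters (h : ℕ) (hh : 0 < h) (κ : ℝ) (R₁ : ℕ) : ∃ n₁ : ℕ, ∀ jm N₀ : ℕ,
    ∃ D₀ D k : ℕ, ∀ {V : Type} [Fintype V] [DecidableEq V] (G : SimpleGraph V)
    [DecidableRel G.Adj] {μ : V → V} {π : Equiv.Perm V}, Frame G μ π → Gir G k →
    ∀ p : V → V → ℝ, Marks G p → FarM G D p →
    ∀ Fam : Finset (Finset V), (∀ Z ∈ Fam, D₀ ≤ dd G Z) →
    (∀ v D', ((Fam.filter fun Z => v ∈ Z ∧ dd G Z = D').card : ℝ) ≤ N₀ * Real.exp (κ * D')) →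
    ∃ (β : V → (Fin jm → Bool) → V) (W : V → (Fin jm → Bool) → Finset V),
      (∀ u ∈ ends p, ∀ b, Joined G (W u b) ∧ TT μ π (rtm μ p u) (List.ofFn b) ∈ W u b ∧
        β u b ∈ W u b ∧ W u b ⊆ Bl G.Adj (2 * jm + n₁) u ∧
        Bl G.Adj R₁ (β u b) ⊆ Bl G.Adj (2 * jm + n₁) u) ∧
      (∀ u ∈ ends p, ∀ b, ∀ u' ∈ ends p, ∀ b', (u, b) ≠ (u', b') →
        Disjoint (W u b) (W u' b') ∧ Disjoint (Bl G.Adj R₁ (β u b)) (Bl G.Adj R₁ (β u' b'))) ∧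
      ∀ Z ∈ Fam, h * ((ends p ×ˢ (univ : Finset (Fin jm → Bool))).filter fun x =>
        Cuts (Bl G.Adj R₁ (β x.1 x.2)) Z).card ≤ dd G Z := by
  sorry

/-- E7a, file RoundE.lean (uses core_charges_real with the balls as terminals): rounding of
small charges on disjoint balls to even integers of absolute value at most two. -/
theorem round_balls {V : Type} [Fintype V] [DecidableEq V] {G : SimpleGraph V}
    [DecidableRel G.Adj] (h3 : ∀ v, G.degree v = 3) {R₁ k : ℕ} (hR₁ : 2 ≤ R₁)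
    (hk : 3 * 2 ^ (R₁ + 2) ≤ k) (hc : CycConn G k) (hg : Gir G k) {Γ : Type} [Fintype Γ]
    [DecidableEq Γ] (β : Γ → V)
    (hd : ∀ g g', g ≠ g' → Disjoint (Bl G.Adj R₁ (β g)) (Bl G.Adj R₁ (β g'))) (y : Γ → ℝ)
    (hy : ∀ g, |y g| ≤ 5 / 4) {m : ℤ} (hm : ∑ g, y g = 2 * m) :
    ∃ n : Γ → ℤ, (∀ g, n g = 0 ∨ n g = 2 ∨ n g = -2) ∧ ∑ g, (y g + n g) = 0 ∧
      ∀ X : Finset V, (∀ g, Bl G.Adj R₁ (β g) ⊆ X ∨ Disjoint (Bl G.Adj R₁ (β g)) X) →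
        |∑ g ∈ univ.filter (fun g => Bl G.Adj R₁ (β g) ⊆ X), (y g + n g)| ≤
          1 / 2 ^ R₁ * dd G X := by
  sorry

/-- E7b, file SigmaE.lean: the charges of the marks and of the reserved defects of the clusters. -/
theorem sigma_e {V : Type} [Fintype V] [DecidableEq V] {G : SimpleGraph V} [DecidableRel G.Adj]
    (h3 : ∀ v, G.degree v = 3) {k : ℕ} (hc : CycConn G k) (hg : Gir G k)
    {μ : V → V} {π : Equiv.Perm V} (hf : Frame G μ π) {J j₀ jm q R B M R₁ h : ℕ} {b : ℝ}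
    (hR₁ : 2 * M + 2 * q + R ≤ R₁) (hR₂ : 2 ≤ R₁) (hk : 3 * 2 ^ (R₁ + 2) ≤ k)
    (hh : 3 * 2 ^ R₁ ≤ h) (hjm : 3 ≤ jm) (hb : 1 / 2 ^ jm + 2 / 2 ^ R₁ + 12 / h ≤ b)
    {A : Finset V} (hA : Win G π R q B A) {p : V → V → ℝ} (hp : Marks G p)
    (hpD : FarM G (4 * jm + 10) p) {y : V → ℤ} (hy : PatternE μ π J q M A p y)
    {m₀ : ℤ} (hm₀ : ((Dfc π A y).card : ℝ) = ∑ u ∈ ends p, chm μ p u + 2 * m₀)
    {w : V → ℤ → V → ℝ} (w1 : ∀ a s v, 0 ≤ w a s v) (w2 : ∀ a s v, w a s v ≤ 1 / 2 ^ j₀)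
    (w3 : ∀ a ∈ Dfc π A y, ∀ s, (s = 1 ∨ s = -1) → (∀ v, w a s v ≠ 0 → v ∈ zone G π R q a) ∧
      ∑ v, w a s v = 1)
    {n₁ : ℕ} (β : V → (Fin jm → Bool) → V) (W : V → (Fin jm → Bool) → Finset V)
    (hβ : ∀ u ∈ ends p, ∀ b, Joined G (W u b) ∧ TT μ π (rtm μ p u) (List.ofFn b) ∈ W u b ∧
        β u b ∈ W u b ∧ W u b ⊆ Bl G.Adj (2 * jm + n₁) u ∧
        Bl G.Adj R₁ (β u b) ⊆ Bl G.Adj (2 * jm + n₁) u)
    (hβd : ∀ u ∈ ends p, ∀ b, ∀ u' ∈ ends p, ∀ b', (u, b) ≠ (u', b') →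
        Disjoint (W u b) (W u' b') ∧ Disjoint (Bl G.Adj R₁ (β u b)) (Bl G.Adj R₁ (β u' b'))) :
    ∃ (Rm : Finset V) (ηm : V → ℤ), Rm ⊆ Dfc π A y ∧ Even (Dfc π A y \ Rm).card ∧
      (∀ v, ηm v = 1 ∨ ηm v = -1) ∧
      (∀ a ∈ Rm, ∃ u ∈ ends p, zone G π R q a ⊆ Bl G.Adj (2 * jm + n₁) u) ∧
      (∑ u ∈ ends p, chm μ p u + ∑ a ∈ Rm, (ηm a : ℝ) = 0) ∧
      ∀ Z : Finset V, h * ((ends p ×ˢ (univ : Finset (Fin jm → Bool))).filter fun x =>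
          Cuts (Bl G.Adj R₁ (β x.1 x.2)) Z).card ≤ dd G Z →
        |∑ u ∈ ends p, chm μ p u * ∑ v ∈ Z, wmm μ π p jm u v +
          ∑ a ∈ Rm, (ηm a : ℝ) * ∑ v ∈ Z, w a (ηm a) v| ≤ b * dd G Z := by
  sorry

/-- E8a, file SparseE.lean: the marks are sparse in the cores. -/
theorem sparse_marks (N : ℕ) : ∃ D : ℕ, ∀ {V : Type} [Fintype V] [DecidableEq V]
    (G : SimpleGraph V) [DecidableRel G.Adj], (∀ v, G.degree v = 3) → ∀ {C : ℝ} {N' k : ℕ},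
    8 * N ≤ N' → D ≤ k → Gir G k → ∀ p : V → V → ℝ, Marks G p → FarM G D p →
    ∀ {r : ℕ} (S : Fin r → Finset V), Cores G C S → Facts G C N' k S →
    ∀ i, N * (ends p ∩ S i).card ≤ 2 * (S i).card := by
  sorry

/-- E8, file MainE.lean (assembly, as MainW): the cubic graph with marked edges. -/
theorem main_e : ∃ D k : ℕ, ∀ {V : Type} [Fintype V] [DecidableEq V] (G : SimpleGraph V)
    [DecidableRel G.Adj], (∀ v, G.degree v = 3) → CycConn G k → Gir G k →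
    (∀ A : Finset V, A.Nonempty → Aᶜ.Nonempty → 2 ≤ dd G A) →
    ∀ F : SimpleGraph V, F ≤ G → (∀ v, (F.neighborSet v).ncard = 2) →
    ∀ p : V → V → ℝ, Marks G p → FarM G D p → (∃ t : ℤ, ∑ u, ∑ v, p u v = 4 * t) →
    ∃ x : V → ℤ, (∀ v, x v = 1 ∨ x v = -1) ∧
      ∀ X : Finset V, |∑ v ∈ X, ((x v : ℝ) + (∑ u, p v u) / 2)| ≤
        3 / 5 * dd G X - (∑ v ∈ X, ∑ u ∈ Xᶜ, |p v u|) / 2 := by
  sorry

/-- The charge of a boundary value (as in ExtHoff.lean). -/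
noncomputable def q5 (a : ZMod 5) : ℝ := if a = 0 then 0 else (2 * (a.val : ℝ) - 5) / 5

/-- E2, files Suppress*.lean: suppressing the boundary vertices of a bead (type
`{v // v ∈ P ∧ no neighbour outside}`, marked edge = the two neighbours in `P` of a boundary
vertex `v`, with `p = q - sign q`, `q = q5 (φ v)`; label of the boundary vertex `- sign q`).
Proof from `main_e` and `exists_two_factor`. -/
theorem ext_signs (hmain : ∃ D k : ℕ, ∀ {V : Type} [Fintype V] [DecidableEq V]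
      (G : SimpleGraph V) [DecidableRel G.Adj], (∀ v, G.degree v = 3) → CycConn G k → Gir G k →
      (∀ A : Finset V, A.Nonempty → Aᶜ.Nonempty → 2 ≤ dd G A) →
      ∀ F : SimpleGraph V, F ≤ G → (∀ v, (F.neighborSet v).ncard = 2) →
      ∀ p : V → V → ℝ, Marks G p → FarM G D p → (∃ t : ℤ, ∑ u, ∑ v, p u v = 4 * t) →
      ∃ x : V → ℤ, (∀ v, x v = 1 ∨ x v = -1) ∧
        ∀ X : Finset V, |∑ v ∈ X, ((x v : ℝ) + (∑ u, p v u) / 2)| ≤
          3 / 5 * dd G X - (∑ v ∈ X, ∑ u ∈ Xᶜ, |p v u|) / 2) :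
    ∃ D K : ℕ, ∀ {V : Type} [Fintype V] [DecidableEq V] (G : SimpleGraph V)
    [DecidableRel G.Adj], (∀ v, G.degree v = 3) → Gir G K → ∀ P : Finset V, IsBead G D K P →
    ∀ φ : V → ZMod 5, (∀ v ∈ P, φ v ≠ 0 ↔ ∃ u, u ∉ P ∧ G.Adj v u) → ∑ v ∈ P, φ v = 0 →
    ∃ x : V → ℤ, (∀ v ∈ P, x v = 1 ∨ x v = -1) ∧
      ∀ Y ⊆ P, |∑ v ∈ Y, ((x v : ℝ) + q5 (φ v))| ≤ 3 / 5 * ee G Y (P \ Y) := by
  sorry

/-- E9, file Bead.lean -/
theorem bead (D K : ℕ) : ∃ k N : ℕ, ∀ {V : Type} [Fintype V] [DecidableEq V]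
    (G : SimpleGraph V) [DecidableRel G.Adj], (∀ v, G.degree v = 3) →
    (∀ A : Finset V, A.Nonempty → Aᶜ.Nonempty → 1 ≤ dd G A) → Gir G N → ¬ CycConn G k →
    ∃ P : Finset V, P ≠ univ ∧ IsBead G D K P := by
  sorry

/-- E10, file Contract.lean: the contraction theorem (`ContrFlow`, `BdryOK`, `ExtFlow` as in
ExtGlue.lean); `main_g` or `main_exact` for the graphs with `CycConn G k`. -/
theorem contraction : ∃ N : ℕ, ∀ {V : Type} [Fintype V] [DecidableEq V] (G : SimpleGraph V)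
    [DecidableRel G.Adj], (∀ v, G.degree v = 3) →
    (∀ A : Finset V, A.Nonempty → Aᶜ.Nonempty → 2 ≤ dd G A) → Gir G N →
    (∀ P : Finset V, P ≠ univ → ¬ (G.induce (P : Set V)).IsAcyclic →
      ∃ f : V → V → ZMod 5, (∀ u v, f u v = - f v u) ∧
        (∀ u v, f u v ≠ 0 ↔ (G.Adj u v ∧ ¬ (u ∈ P ∧ v ∈ P))) ∧
        ∀ v, v ∉ P → ∑ u, f v u = 0) →
    ∃ f : V → V → ZMod 5, (∀ u v, f u v = - f v u) ∧ (∀ u v, f u v ≠ 0 ↔ G.Adj u v) ∧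
      ∀ v, ∑ u, f v u = 0 := by
  sorry

end Pool.Agent.K5.PlanE
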