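import Mathlib
import Pool.Agent.Work.MP_974d84_co_k5.DefsG

/-!
# THEOREM (G): large girth and explicit cyclic connectivity `κ`; the statements of the modules
(nobody imports this file)
-/

set_option linter.unusedSectionVars false
set_option linter.unusedVariables false

namespace Pool.Agent.K5.PlanG

open Finset SimpleGraph Pool.Agent.Exp Pool.Agent.Log5 Pool.Agent.Log5.Clu Pool.Agent.K5

/-- G1, file CoreFactsG.lean (facts_A, facts_B with `κ`; `ratio` with `1 + δ`: gf s - gf (s - a)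
`≤ δ' gf a`; `small` from light and girth; `half` from Facts.half). -/
theorem core_factsG {C : ℝ} (hC : 100 ≤ C) (N k κ : ℕ) {δ : ℝ} (hδ : 0 < δ) : ∃ g : ℕ,
    ∀ {V : Type} [Fintype V] [DecidableEq V] (G : SimpleGraph V) [DecidableRel G.Adj],
    (∀ v, G.degree v = 3) → CycConn G κ → Gir G g → ∀ {r : ℕ} (S : Fin r → Finset V),
    Cores G C S → FactsG G C N k κ δ S := by
  sorry

/-- G2, file QBoundG.lean: `q_bound` with the region fact in place of `CycConn`. -/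
theorem q_boundG {V : Type} [Fintype V] [DecidableEq V] {G : SimpleGraph V} [DecidableRel G.Adj]
    {C : ℝ} {N k κ r : ℕ} {δ : ℝ} {S : Fin r → Finset V} (hS : Cores G C S)
    (hF : FactsG G C N k κ δ S) {j₀ R : ℕ} {θ : ℝ} (hθ : 0 ≤ θ) (i : Fin r)
    {Γ : Type} [Fintype Γ] [DecidableEq Γ] (β : Γ → V) (σ : Γ → V → ℝ)
    (hdisj : ∀ g g', g ≠ g' → Disjoint (Bl G.Adj R (β g)) (Bl G.Adj R (β g')))
    (hσ0 : ∀ g v, σ g v ≠ 0 → v ∈ Bl G.Adj R (β g)) (hσ1 : ∀ g v, |σ g v| ≤ 1 / 2 ^ j₀)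
    (hσ4 : ∀ g, ∑ v, |σ g v| ≤ 4)
    (hβ : ∀ Z, Z ⊆ S i → Joined G Z → 2 * Z.card ≤ (S i).card → k ≤ dd G Z →
        ((univ.filter fun g => ¬ Disjoint (Bl G.Adj R (β g)) Z).card : ℝ) ≤ θ * dd G Z)
    (A : Finset V) (hA : A ⊆ S i) (hA2 : 2 * A.card ≤ (S i).card) :
    |∑ v ∈ A, ∑ g, σ g v| ≤ (1 / 2 ^ j₀ + 4 * θ) * dd G A := by
  sorry

/-- G3, file CentresG.lean (centres_core and centres; `CycConn` was only used for `k₀ ≤ dd G F`: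
now if `dd G F < k₀ ≤ k` then `F.card + 2 ≤ dd G F`, `dd G Z ≤ Z.card + 2 ≤ F.card + 2`). -/
theorem centresG {θ η : ℝ} (hθ : 0 < θ) (hη : 0 < η) (hηθ : 20 * η ≤ θ) (R : ℕ) :
    ∃ C₀ : ℝ, ∀ C, C₀ ≤ C → ∃ (k₀ N₀ : ℕ), ∀ N k κ : ℕ, ∀ δ : ℝ, N₀ ≤ N → k₀ ≤ k →
    ∀ {V : Type} [Fintype V]
    [DecidableEq V] (G : SimpleGraph V) [DecidableRel G.Adj], (∀ v, G.degree v = 3) →
    (∀ A : Finset V, A.Nonempty → Aᶜ.Nonempty → 1 ≤ dd G A) →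
    ∀ {r : ℕ} (S : Fin r → Finset V), Cores G C S → FactsG G C N k κ δ S →
    ∃ (M : Fin r → ℕ) (β : (i : Fin r) → Fin (M i) → V), (∀ i, η * gf C (S i).card ≤ M i) ∧
      (∀ i g, Bl G.Adj R (β i g) ⊆ S i) ∧
      (∀ i g g', g ≠ g' → Disjoint (Bl G.Adj R (β i g)) (Bl G.Adj R (β i g'))) ∧
      ∀ i Z, Z ⊆ S i → Joined G Z → k₀ ≤ dd G Z →
        ((univ.filter fun g => ¬ Disjoint (Bl G.Adj R (β i g)) Z).card : ℝ) ≤ θ * dd G Z := by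
  sorry

/-- G4a, file RegionFamG.lean (the proof of rf_count does not use the connectivity). -/
theorem rf_countG : ∃ (c C₀ : ℝ), ∀ C, C₀ ≤ C → ∃ k₀ : ℕ,
    ∀ {V : Type} [Fintype V] [DecidableEq V] (G : SimpleGraph V) [DecidableRel G.Adj],
    (∀ A : Finset V, A.Nonempty → Aᶜ.Nonempty → 1 ≤ dd G A) →
    ∀ {r : ℕ} (S : Fin r → Finset V), Cores G C S →
    ∀ (v : V) (D : ℕ) (F : Finset (Finset V)), k₀ ≤ D →
    (∀ Z ∈ F, RF G S Z ∧ v ∈ Z ∧ dd G Z = D) → (F.card : ℝ) ≤ Real.exp (c * D) := by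
  sorry

/-- G4b, file RegionCloseG.lean (close_region; `dd G Z < k₁ ≤ k` gives `Z.card ≤ dd G Z` by
`FactsG.reg`). -/
theorem rf_closeG {V : Type} [Fintype V] [DecidableEq V] {G : SimpleGraph V}
    [DecidableRel G.Adj]
    (hbr : ∀ A : Finset V, A.Nonempty → Aᶜ.Nonempty → 1 ≤ dd G A)
    {C : ℝ} {N k κ r : ℕ} {δ : ℝ} {S : Fin r → Finset V} (hS : Cores G C S)
    (hF : FactsG G C N k κ δ S) {k₁ : ℕ} (hk₁ : k₁ ≤ k) {σ : V → ℝ} (h0 : ∑ v, σ v = 0) {b : ℝ}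
    (hσ : ∀ v, |σ v| ≤ b) (hb : ∀ Z, RF G S Z → k₁ ≤ dd G Z → |∑ v ∈ Z, σ v| ≤ b * dd G Z)
    (R : Finset V) (hR : Region S R) (X : Finset V) (hX : X ⊆ R) :
    |∑ v ∈ X, σ v| ≤ b * dd G X := by
  sorry

/-- G5a, file RegionMaj.lean (from maj_cluster, hL_step, PhiO_le, as region_sum and
region_count_gen with `L = 1`): the number of ALL closed bonds of a proper region with a large
side and a small cut. -/
theorem maj_count {τ : ℝ} (hτ : 0 < τ) : ∃ C₀ : ℝ, 1 ≤ C₀ ∧ ∀ C : ℝ, C₀ ≤ C → ∀ {V : Type}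
    [Fintype V] [DecidableEq V] (G : SimpleGraph V) [DecidableRel G.Adj],
    ∀ (K : ℕ) (c : V → V), 1 ≤ K → (∀ x, K ≤ (cls c x).card) →
    ∀ Y : Finset V, Clo c Y → Yᶜ.Nonempty →
    (∀ A ⊆ Y, A.Nonempty → Aᶜ.Nonempty → 1 ≤ dd G A) →
    (∀ A ⊆ Y, A.Nonempty → Clo c A → 2 * A.card ≤ Y.card →
      A.card ≤ dd G A ∨ C * (1 + Real.log A.card) ^ 2 ≤ dd G A) →
    ∀ (D : ℕ) (F : Finset (Finset V)),
    (∀ Z ∈ F, RBond G Y c Z ∧ Y.card < 2 * Z.card ∧ dd G Z ≤ D) →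
    (F.card : ℝ) ≤ Real.exp ((8 / Real.sqrt K + τ) * D) := by
  sorry

/-- G5b, file DecompG.lean (from decomp; the boundaries are disjoint, so no bond occurs twice):
finitely many exceptional bonds only cost a constant. -/
theorem decomp_exc {V : Type} [Fintype V] [DecidableEq V] {G : SimpleGraph V}
    [DecidableRel G.Adj] {c : V → V} (hc : ∀ x, Joined G (cls c x)) {Y : Finset V}
    (hbr : ∀ S ⊆ Y, S.Nonempty → Sᶜ.Nonempty → 1 ≤ dd G S) {σ : V → ℝ} (h0 : ∑ v, σ v = 0)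
    {b M : ℝ} (hb : 0 ≤ b) (hM : 0 ≤ M) (E : Finset (Finset V))
    (h1 : ∀ Z, RBond G Y c Z → Zᶜ.Nonempty → Z ∉ E → |∑ v ∈ Z, σ v| ≤ b * dd G Z)
    (h2 : ∀ Z ∈ E, |∑ v ∈ Z, σ v| ≤ M) (A : Finset V) (hA : A ⊆ Y) (hcl : Clo c A) :
    |∑ v ∈ A, σ v| ≤ b * dd G A + E.card * M := by
  sorry

/-- G5c, file RegionSignsG.lean (M13 with a constant). -/
theorem region_signsG {b τ : ℝ} (hb : 0 < b) (hb1 : b ≤ 1) (hτ : 0 < τ) (ρ s j₀ : ℕ)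
    (hs : 8 / Real.sqrt ((2 ^ s : ℕ) : ℝ) + τ ≤ b ^ 2 / 16) (hj : 1 ≤ b * 2 ^ j₀) :
    ∃ C₀ c₄ : ℝ, 0 ≤ c₄ ∧ ∀ C, C₀ ≤ C → ∃ k₀ N₀ : ℕ, ∀ N k κ : ℕ, ∀ δ : ℝ, N₀ ≤ N → k₀ ≤ k →
    ∀ {V : Type} [Fintype V]
    [DecidableEq V] (G : SimpleGraph V) [DecidableRel G.Adj], (∀ v, G.degree v = 3) →
    (∀ A : Finset V, A.Nonempty → Aᶜ.Nonempty → 1 ≤ dd G A) →
    ∀ {r : ℕ} (S : Fin r → Finset V), Cores G C S → FactsG G C N k κ δ S →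
    ∀ (Ξ : Type) [Fintype Ξ], Fintype.card Ξ ≤ (2 ^ ρ) ^ (3 * 2 ^ (4 * ρ)) →
    ∀ c : Ξ → V → V, (∀ ξ x, Joined G (cls (c ξ) x)) → (∀ ξ x, 2 ^ s ≤ (cls (c ξ) x).card) →
    (∀ ξ v, c ξ v ∈ Bl G.Adj ρ v) → ∀ (m : ℕ) (p q : Fin m → V), Function.Injective p →
    Function.Injective q → (∀ i j, p i ≠ q j) →
    (∀ (X : Finset V) (J : Finset (Fin m)), (∀ j ∈ J, ¬ (p j ∈ X ↔ q j ∈ X)) →
      J.card ≤ dd G X) →
    ∀ w : V → V → ℝ, Smear G j₀ (univ.image p ∪ univ.image q) w →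
    ∃ ε : Fin m → ℤ, (∀ j, ε j = 1 ∨ ε j = -1) ∧ ∀ ξ R, Region S R → ∀ A, A ⊆ pre (c ξ) R →
      Clo (c ξ) A →
      |∑ v ∈ A, ∑ j, (ε j : ℝ) * (w (p j) v - w (q j) v)| ≤ b * dd G A + c₄ := by
  sorry

/-- G6a, file AverageG.lean (average_all / average_region with a constant). -/
theorem average_regionG {V : Type} [Fintype V] [DecidableEq V] {G : SimpleGraph V}
    [DecidableRel G.Adj] (h3 : ∀ v, G.degree v = 3) {Ξ : Type} [Fintype Ξ] [Nonempty Ξ]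
    (c : Ξ → V → V) {B b δ c₄ : ℝ} (hb0 : 0 ≤ b) (hδ : 0 ≤ δ)
    (hB : ∀ X : Finset V, ∑ ξ, ((univ.filter fun v => ¬ (v ∈ X ↔ c ξ v ∈ X)).card : ℝ) ≤
      B * dd G X * Fintype.card Ξ) {σ : V → ℝ} (hσ : ∀ v, |σ v| ≤ δ) {r : ℕ}
    (S : Fin r → Finset V)
    (hreg : ∀ ξ R, Region S R → ∀ A, A ⊆ pre (c ξ) R → Clo (c ξ) A →
      |∑ v ∈ A, σ v| ≤ b * dd G A + c₄) :
    ∀ R, Region S R → ∀ X ⊆ R,
      |∑ v ∈ X, σ v| ≤ (b * (1 + 3 * B) + δ * B) * dd G X + c₄ := by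
  sorry

/-- G6b, file SignsG.lean (signs_w; the first part: `|X| ≤ dd X` if `dd X < k` (FactsG.reg), and
`c₄ ≤ (b / 4) * k ≤ (b / 4) * dd X` otherwise; the second part: rf_closeG). -/
theorem signs_g {b : ℝ} (hb : 0 < b) : ∃ (j₁ h : ℕ) (C₀ : ℝ), 0 < h ∧ ∀ C, C₀ ≤ C →
    ∃ k₀ N₀ : ℕ, ∀ N k κ : ℕ, ∀ δ : ℝ, N₀ ≤ N → k₀ ≤ k →
    ∀ {V : Type} [Fintype V] [DecidableEq V]
    (G : SimpleGraph V) [DecidableRel G.Adj], (∀ v, G.degree v = 3) →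
    (∀ A : Finset V, A.Nonempty → Aᶜ.Nonempty → 1 ≤ dd G A) → Gir G k →
    ∀ {r : ℕ} (S : Fin r → Finset V), Cores G C S → FactsG G C N k κ δ S →
    ∀ T : Finset V, Even T.card → ∀ (U : V → Finset V) (w : V → ℤ → V → ℝ),
    (∀ a ∈ T, Bl G.Adj j₁ a ⊆ U a) → (∀ a ∈ T, ∀ a' ∈ T, a ≠ a' → Disjoint (U a) (U a')) →
    (∀ a s v, 0 ≤ w a s v) → (∀ a s v, w a s v ≤ 1 / 2 ^ j₁) →
    (∀ a ∈ T, ∀ s, (s = 1 ∨ s = -1) → (∀ v, w a s v ≠ 0 → v ∈ U a) ∧ ∑ v, w a s v = 1) →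
    (∀ k₁, k₀ ≤ k₁ → k₁ ≤ k →
      (∀ Z, RF G S Z → k₁ ≤ dd G Z → h * (T.filter fun a => Cuts (U a) Z).card ≤ dd G Z) →
      ∃ ε : V → ℤ, (∀ v, ε v = 1 ∨ ε v = -1) ∧ ∑ a ∈ T, ε a = 0 ∧
        ∀ R, Region S R → ∀ X ⊆ R,
          |∑ a ∈ T, (ε a : ℝ) * ∑ v ∈ X, w a (ε a) v| ≤ b * dd G X) := by
  sorry

/-- G7a, file ChargesG.lean: `core_charges` with a bound for every single charge (every core gets
a pendant terminal which is joined to it by exactly `2 k` edges; `charges_of_terminals` as it is;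
terminals `Sum.inl i`, vertices `Sum.inr (c v)`). -/
theorem core_chargesG {V : Type*} [Fintype V] [DecidableEq V] {G : SimpleGraph V}
    [DecidableRel G.Adj] {ι : Type*} [Fintype ι] [DecidableEq ι]
    (S : ι → Finset V) (hne : ∀ i, (S i).Nonempty)
    (hd : ∀ i j, i ≠ j → Disjoint (S i) (S j)) {k : ℕ} (hk : 0 < k)
    (hcut : ∀ X : Finset V, (∀ i, S i ⊆ X ∨ Disjoint (S i) X) → (∃ i, S i ⊆ X) →
      (∃ i, Disjoint (S i) X) → k ≤ dd G X)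
    {q : ℕ} (hq : 0 < q) (b : ι → ℤ) (hb : (q : ℤ) ∣ ∑ i, b i) :
    ∃ β : ι → ℤ, (∀ i, (q : ℤ) ∣ β i - b i) ∧ ∑ i, β i = 0 ∧ (∀ i, |(β i : ℝ)| ≤ q) ∧
      ∀ X : Finset V, (∀ i, S i ⊆ X ∨ Disjoint (S i) X) →
        |((∑ i ∈ univ.filter (fun i => S i ⊆ X), β i : ℤ) : ℝ)| ≤ q / k * dd G X := by
  sorry

/-- G7b, file CoreFlowG.lean (core_charges_real with the scale `N ≥ r / δ`, core_flow). -/
theorem core_flowG {V : Type} [Fintype V] [DecidableEq V] (G : SimpleGraph V)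
    [DecidableRel G.Adj] {r : ℕ} (S : Fin r → Finset V) (hne : ∀ i, (S i).Nonempty)
    (hd : ∀ i j, i ≠ j → Disjoint (S i) (S j)) {k : ℕ} (hk : 0 < k)
    (hcut : ∀ X : Finset V, Sat S X → (∃ i, S i ⊆ X) → (∃ i, Disjoint (S i) X) → k ≤ dd G X)
    {σ : V → ℝ} (h0 : ∑ v, σ v = 0) {b : ℝ} (hb0 : 0 ≤ b)
    (hW : ∀ X : Finset V, (∀ i, Disjoint X (S i)) → |∑ v ∈ X, σ v| ≤ b * dd G X)
    {δ : ℝ} (hδ : 0 < δ) :
    ∃ z : Fin r → ℤ, (∀ i, 4 * |(z i : ℝ)| ≤ |∑ v ∈ S i, σ v| + b * dd G (S i) + 5) ∧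
      ∀ X, Sat S X → |∑ v ∈ X, σ v + 4 * ∑ i ∈ univ.filter (fun i => S i ⊆ X), (z i : ℝ)| ≤
        (b + (4 / k + δ)) * dd G X := by
  sorry

/-- G8, file ToggleG.lean (toggle and combine with the ratio `1 + δ`). -/
theorem combineG {V : Type} [Fintype V] [DecidableEq V] {G : SimpleGraph V} [DecidableRel G.Adj]
    {C : ℝ} {N k κ r : ℕ} {δ : ℝ} (hδ : 0 ≤ δ) {S : Fin r → Finset V} (hS : Cores G C S)
    (hF : FactsG G C N k κ δ S) {σ q : V → ℝ} {b₁ k₁ e₂ e : ℝ}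
    (h2 : ∀ R, Region S R → ∀ X ⊆ R, |∑ v ∈ X, σ v| ≤ b₁ * dd G X)
    (h3 : ∀ X, Sat S X → |∑ v ∈ X, σ v + ∑ v ∈ X, q v| ≤ k₁ * dd G X)
    (h4 : ∀ i, ∀ A ⊆ S i, 2 * A.card ≤ (S i).card → |∑ v ∈ A, q v| ≤ e₂ * dd G A)
    (he₁ : 0 ≤ k₁) (he₂ : 0 ≤ b₁ + e₂)
    (hnum : (1 + δ) * k₁ + (2 + δ) * (b₁ + e₂) ≤ e) (X : Finset V) :
    |∑ v ∈ X, (σ v + q v)| ≤ e * dd G X := by
  sorry

/-- G9a, file MainGC.lean (assembleW with FactsG; `κ` is the real cyclic connectivity). -/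
theorem assembleG {V : Type} [Fintype V] [DecidableEq V] {G : SimpleGraph V} [DecidableRel G.Adj]
    {J j₀ R q B M R' N k κ : ℕ} {C b η θ e δ : ℝ}
    (h3 : ∀ v, G.degree v = 3) (hg : Gir G k) (hκ : 0 < κ) (hδ : 0 < δ)
    {μ : V → V} {π : Equiv.Perm V} (hf : Frame G μ π)
    {A : Finset V} (hA : Win G π R q B A) {y : V → ℤ} (hy : Pattern μ π J q M A y)
    (hkM : M + 2 ≤ k) (hJ : J ≤ j₀ + 1) (hR : 2 * (j₀ + 1) + 2 ≤ R)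
    (hkq : 4 * q + 4 * (j₀ + 1) + 20 ≤ k) (hR' : M + 2 * q + R ≤ R')
    {r : ℕ} {S : Fin r → Finset V} (hS : Cores G C S) (hFa : FactsG G C N k κ δ S)
    (hcen : ∃ (M : Fin r → ℕ) (β : (i : Fin r) → Fin (M i) → V),
      (∀ i, η * gf C (S i).card ≤ M i) ∧ (∀ i g, Bl G.Adj R' (β i g) ⊆ S i) ∧
      (∀ i g g', g ≠ g' → Disjoint (Bl G.Adj R' (β i g)) (Bl G.Adj R' (β i g'))) ∧
      ∀ i Z, Z ⊆ S i → Joined G Z → 2 * Z.card ≤ (S i).card → k ≤ dd G Z →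
        ((univ.filter fun g => ¬ Disjoint (Bl G.Adj R' (β i g)) Z).card : ℝ) ≤ θ * dd G Z)
    (hsigns : ∀ T ⊆ Dfc π A y, Even T.card → ∀ w : V → ℤ → V → ℝ,
      (∀ a s v, 0 ≤ w a s v) → (∀ a s v, w a s v ≤ 1 / 2 ^ (j₀ + 1)) →
      (∀ a ∈ T, ∀ s, (s = 1 ∨ s = -1) → (∀ v, w a s v ≠ 0 → v ∈ zone G π R q a) ∧
        ∑ v, w a s v = 1) →
      ∃ ε : V → ℤ, (∀ v, ε v = 1 ∨ ε v = -1) ∧ ∑ a ∈ T, ε a = 0 ∧
        ∀ R, Region S R → ∀ X ⊆ R,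
          |∑ a ∈ T, (ε a : ℝ) * ∑ v ∈ X, w a (ε a) v| ≤ b * dd G X)
    (hb0 : 0 ≤ b) (hθ : 0 ≤ θ) (hη : 0 ≤ η)
    (hn1 : 4 * b + 5 / k ≤ 4 * η)
    (hn2 : (1 + δ) * (2 * b + (4 / κ + δ)) + (2 + δ) * (2 * b + (1 / 2 ^ j₀ + 4 * θ)) ≤ e) :
    ∃ x : V → ℤ, (∀ v, x v = 1 ∨ x v = -1) ∧
      ∀ X : Finset V, |∑ v ∈ X, (x v : ℝ)| ≤ (1 / 2 + 1 / 2 ^ (J + 2) + e / 2) * dd G X := by
  sorry

/-- G9b, file ConstG.lean: the first constants. -/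
theorem constsG {κ : ℕ} (hκ : 5 ≤ κ) {ε : ℝ} (hε : 0 < ε) :
    ∃ (e δ θ η b : ℝ) (J : ℕ), 0 < δ ∧ 0 < θ ∧ 0 < η ∧ 0 < b ∧
    20 * η ≤ θ ∧
    1 / 2 + 1 / 2 ^ (J + 2) + e / 2 ≤ (4 * κ / (κ - 4) + ε - 2) / (4 * κ / (κ - 4) + ε) ∧
    ∀ (j : ℕ) (t : ℝ), 1 / 2 ^ j ≤ θ → t ≤ η → 4 * b + t ≤ 4 * η ∧
      (1 + δ) * (2 * b + (4 / κ + δ)) + (2 + δ) * (2 * b + (1 / 2 ^ j + 4 * θ)) ≤ e := by
  sorry

/-- G10, file MainG.lean: **Theorem (G).** Circular flow number at most `4 κ / (κ - 4) + ε`; this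
is below `5` for `κ ≥ 21`. -/
theorem main_g {κ : ℕ} (hκ : 5 ≤ κ) {ε : ℝ} (hε : 0 < ε) : ∃ g : ℕ, ∀ {V : Type} [Fintype V]
    [DecidableEq V] (G : SimpleGraph V) [DecidableRel G.Adj], (∀ v, G.degree v = 3) →
    CycConn G κ → Gir G g → (∀ A : Finset V, A.Nonempty → Aᶜ.Nonempty → 2 ≤ dd G A) →
    ∀ F : SimpleGraph V, F ≤ G → (∀ v, (F.neighborSet v).ncard = 2) →
    ∃ f : V → V → ℝ, (∀ u v, f u v = - f v u) ∧ (∀ v, ∑ u, f v u = 0) ∧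
      (∀ u v, ¬ G.Adj u v → f u v = 0) ∧
      ∀ u v, G.Adj u v → 1 ≤ |f u v| ∧ |f u v| ≤ 4 * κ / (κ - 4) - 1 + ε := by
  sorry

end Pool.Agent.K5.PlanG
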