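import Mathlib
import Pool.Agent.Work.MP_974d84_co_k5.DefsGl

/-!
# GLUING: the statements of the modules (nobody imports this file)
-/

set_option linter.unusedSectionVars false

namespace Pool.Agent.K5.PlanG

open Finset SimpleGraph Pool.Agent.Exp Pool.Agent.K5 Pool.Agent.K5.Gl MP974d84

/-- G1, file GlCyc.lean -/
theorem cyc_iff {V : Type} [Fintype V] [DecidableEq V] (G : SimpleGraph V) [DecidableRel G.Adj]
    (X : Finset V) : Cyc G X ↔ ∃ A ⊆ X, A.Nonempty ∧ ∀ v ∈ A, 2 ≤ dg G A v := by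
  sorry

/-- G2a, file GlSup.lean -/
theorem sup_deg {V : Type} [Fintype V] [DecidableEq V] {G : SimpleGraph V} [DecidableRel G.Adj]
    {K : ℕ} {Q : Finset V} (hQ : St G K Q) (hK : 6 ≤ K) : (sup G Q).IsRegularOfDegree 3 := by
  sorry

/-- G2b, file GlSupCyc.lean -/
theorem sup_cyc {V : Type} [Fintype V] [DecidableEq V] {G : SimpleGraph V} [DecidableRel G.Adj]
    {K : ℕ} {Q : Finset V} (hQ : St G K Q) (hK : 6 ≤ K) (S : Finset (ST G Q))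
    (h1 : ¬ ((sup G Q).induce (S : Set (ST G Q))).IsAcyclic)
    (h2 : ¬ ((sup G Q).induce ((Sᶜ : Finset (ST G Q)) : Set (ST G Q))).IsAcyclic) :
    K ≤ ((sup G Q).interedges S Sᶜ).card := by
  sorry

/-- G2c, file GlSupFlow.lean -/
theorem sup_flow {V : Type} [Fintype V] [DecidableEq V] {G : SimpleGraph V} [DecidableRel G.Adj]
    {K : ℕ} {Q : Finset V} (hQ : St G K Q) (hK : 6 ≤ K) {r : ℝ} (f : ST G Q → ST G Q → ℝ)
    (hf : ∀ u v, f u v = - f v u) (h0 : ∀ v, ∑ u, f v u = 0)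
    (hn : ∀ u v, ¬ (sup G Q).Adj u v → f u v = 0)
    (h1 : ∀ u v, (sup G Q).Adj u v → 1 ≤ |f u v| ∧ |f u v| ≤ r) : Sol G Q r 0 := by
  sorry

/-- G4, file GlPack.lean -/
theorem pack {V : Type} [Fintype V] [DecidableEq V] {G : SimpleGraph V} [DecidableRel G.Adj]
    {K : ℕ} {Q : Finset V} (hQ : St G K Q) {r : ℕ} (hr : 2 * r ≤ K) (hr1 : 1 ≤ r) {X : Finset V}
    (hX : X ⊆ Q) (hJ : Joined G X) (h2 : 2 ≤ (X ∩ sp G Q).card) :
    r * (X ∩ sp G Q).card ≤ X.card := by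
  sorry

/-- G5, file GlBond.lean -/
theorem bond_red {V : Type} [Fintype V] [DecidableEq V] (G : SimpleGraph V) [DecidableRel G.Adj]
    (Q : Finset V) (hQ : Joined G Q) (ρ : V → ℝ) (h0 : ∑ v ∈ Q, ρ v = 0) {c : ℝ} (hc : 0 ≤ c)
    (h : ∀ Z ⊆ Q, Z.Nonempty → (Q \ Z).Nonempty → Joined G Z → Joined G (Q \ Z) →
      |∑ v ∈ Z, ρ v| ≤ c * ee G Z (Q \ Z)) (S : Finset V) (hS : S ⊆ Q) :
    |∑ v ∈ S, ρ v| ≤ c * ee G S (Q \ S) := by
  sorry

/-- G6, file GlUnit.lean: unit demands -/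
theorem unit_sol {V : Type} [Fintype V] [DecidableEq V] {G : SimpleGraph V} [DecidableRel G.Adj]
    {K : ℕ} {Q : Finset V} (hQ : St G K Q) (hK : 12 ≤ K) (hf : Sol G Q (31 / 10) 0) (b : V → ℝ)
    (hb : ∀ v ∈ sp G Q, |b v| ≤ 1) (hb0 : ∀ v ∈ Q, v ∉ sp G Q → b v = 0)
    (h0 : ∑ v ∈ Q, b v = 0) : Sol G Q 4 b := by
  sorry

/-- G7, file GlPeel.lean -/
theorem peel {V : Type} [Fintype V] [DecidableEq V] {G : SimpleGraph V} [DecidableRel G.Adj]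
    {K : ℕ} {Q : Finset V} (hQ : St G (2 * K + 2) Q) (hK : 2 ≤ K) (A : Finset V)
    (hA : A ⊆ sp G Q) : St G K (Q \ A) ∧
      sp G (Q \ A) = (sp G Q \ A) ∪ ((Q \ A).filter fun v => ∃ a ∈ A, G.Adj a v) := by
  sorry

/-- G8, file GlExt.lean: all boundary values extend -/
theorem ext_sol {K : ℕ} (hK : 12 ≤ K)
    (hbase : ∀ {V : Type} [Fintype V] [DecidableEq V] (G : SimpleGraph V) [DecidableRel G.Adj]
      (Q : Finset V), St G K Q → Sol G Q (31 / 10) 0)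
    {V : Type} [Fintype V] [DecidableEq V] {G : SimpleGraph V} [DecidableRel G.Adj]
    {Q : Finset V} (hQ : St G (4 * K + 6) Q) (b : V → ℤ)
    (hb : ∀ v ∈ sp G Q, b v ≠ 0 ∧ |b v| ≤ 4) (hb0 : ∀ v ∈ Q, v ∉ sp G Q → b v = 0)
    (h0 : ∑ v ∈ Q, b v = 0) : Sol G Q 4 fun v => (b v : ℝ) := by
  sorry

/-- G9, file GlMain.lean: pieces and single vertices -/
theorem glue_main {K : ℕ}
    (hext : ∀ {V : Type} [Fintype V] [DecidableEq V] (G : SimpleGraph V) [DecidableRel G.Adj]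
      (Q : Finset V), St G K Q → ∀ b : V → ℤ, (∀ v ∈ sp G Q, b v ≠ 0 ∧ |b v| ≤ 4) →
      (∀ v ∈ Q, v ∉ sp G Q → b v = 0) → ∑ v ∈ Q, b v = 0 → Sol G Q 4 fun v => (b v : ℝ))
    {V : Type} [Fintype V] [DecidableEq V] (G : SimpleGraph V) [DecidableRel G.Adj]
    (h3 : ∀ v, G.degree v = 3) {p : ℕ} (c : V → Fin p)
    (hc : ∀ i, (univ.filter fun v => c v = i).card ≤ 1 ∨ St G K (univ.filter fun v => c v = i))
    (g : V → V → ℤ) (hg : ∀ u v, g u v = - g v u)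
    (hg1 : ∀ u v, g u v ≠ 0 ↔ G.Adj u v ∧ c u ≠ c v) (hg4 : ∀ u v, |g u v| ≤ 4)
    (hg0 : ∀ i, ∑ v ∈ univ.filter (fun v => c v = i), ∑ u, g v u = 0) :
    ∀ i : ℕ, 5 ≤ i → HasNZFlow (ZMod i) G := by
  sorry

/-- G10, file GlQuot.lean: four edges leave every union of classes -/
theorem quot_flow {V : Type} [Fintype V] [DecidableEq V] (G : SimpleGraph V) [DecidableRel G.Adj]
    {p : ℕ} (c : V → Fin p)
    (h4 : ∀ I : Finset (Fin p), (∃ v, c v ∈ I) → (∃ v, c v ∉ I) →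
      4 ≤ dd G (univ.filter fun v => c v ∈ I)) :
    ∃ g : V → V → ℤ, (∀ u v, g u v = - g v u) ∧ (∀ u v, g u v ≠ 0 ↔ G.Adj u v ∧ c u ≠ c v) ∧
      (∀ u v, |g u v| ≤ 4) ∧ ∀ i, ∑ v ∈ univ.filter (fun v => c v = i), ∑ u, g v u = 0 := by
  sorry

end Pool.Agent.K5.PlanG
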