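import Mathlib
import Pool.Agent.Work.MP_974d84_co_k5.DefsM

/-!
# The matroid form (M): the statements of the modules (nobody imports this file)
-/

set_option linter.unusedSectionVars false

namespace Pool.Agent.K5.PlanM

open Finset SimpleGraph Pool.Agent.K5.Mat MP974d84

variable {ι : Type} [Fintype ι] [DecidableEq ι] {W : Type} [Fintype W] [DecidableEq W]

/-- M1, file MatChi.lean: the characteristic polynomial counts the nowhere-zero flows. -/
theorem chi_eq {m : ℕ} {A : ι → Fin m → ZMod 2} {s t : ι → W} (h : Cog A s t) {k : ℕ}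
    (hk : 0 < k) : chi A k = ({f : ι → ZMod k | Flo s t f ∧ ∀ j, f j ≠ 0}.ncard : ℤ) := by
  sorry

/-- M0, file MatPar.lean: reduction to vectors which are pairwise different. The graph of the
vectors other than `A e'` is the contraction of the edge `e'`. -/
theorem par_step {m : ℕ} {A : ι → Fin m → ZMod 2} (h0 : ∀ j, A j ≠ 0) {s t : ι → W}
    (h : Cog A s t) {k : ℕ} (hv : VC A k) {e e' : ι} (hne : e ≠ e') (he : A e = A e') :
    ∃ s' t' : {j // j ≠ e'} → W, Cog (fun j : {j // j ≠ e'} => A j.1) s' t' ∧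
      VC (fun j : {j // j ≠ e'} => A j.1) k ∧
      ∀ {F : Type} [AddCommGroup F] {P : F → Prop}, (∀ x, P x → P (-x)) → MP P s' t' →
        MP P s t := by
  sorry

/-- M2a, file MatSmall.lean: rank at most two. -/
theorem small_rank {m : ℕ} {A : ι → Fin m → ZMod 2} (h0 : ∀ j, A j ≠ 0)
    (hi : Function.Injective A) {s t : ι → W} (h : Cog A s t) (hr : rk A Set.univ ≤ 2)
    {F : Type} [AddCommGroup F] {P : F → Prop} (hP : ∀ x, P x → P (-x)) {a : F} (ha : P a)
    (ha2 : P (a + a)) : MP P s t := by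
  sorry

/-- M2b, file MatGraph.lean: rank at least three. -/
theorem to_graph {m : ℕ} {A : ι → Fin m → ZMod 2} (h0 : ∀ j, A j ≠ 0)
    (hi : Function.Injective A) {s t : ι → W} (h : Cog A s t) (hr : 3 ≤ rk A Set.univ) {k : ℕ}
    (hk : 2 ≤ k) (hv : VC A k) : ∃ (V : Type) (_ : Fintype V) (_ : DecidableEq V)
      (G : SimpleGraph V) (_ : DecidableRel G.Adj), (∀ v, 3 ≤ G.degree v) ∧ VConn G k ∧
      ∀ {F : Type} [AddCommGroup F] {P : F → Prop}, (∀ x, P x → P (-x)) → GP P G → MP P s t := by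
  sorry

/-- M3, file MatExpand.lean: from cubic graphs to graphs with all degrees at least three. -/
theorem expand {F : Type} [AddCommGroup F] {P : F → Prop} {k : ℕ}
    (h : ∀ (V : Type) [Fintype V] [DecidableEq V] (G : SimpleGraph V) [DecidableRel G.Adj],
      (∀ v, G.degree v = 3) → VConn G k → GP P G)
    (V : Type) [Fintype V] [DecidableEq V] (G : SimpleGraph V) [DecidableRel G.Adj]
    (h3 : ∀ v, 3 ≤ G.degree v) (hv : VConn G k) : GP P G := by
  sorry

/-- M4, file MatCut.lean -/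
theorem cut_of_vconn {V : Type} [Fintype V] [DecidableEq V] {G : SimpleGraph V}
    [DecidableRel G.Adj] {k : ℕ} (hv : VConn G k) (S : Finset V)
    (h1 : ¬ (G.induce (S : Set V)).IsAcyclic)
    (h2 : ¬ (G.induce ((Sᶜ : Finset V) : Set V)).IsAcyclic) :
    k ≤ (G.interedges S Sᶜ).card := by
  sorry

/-- M5, file MatMain.lean: composition -/
theorem matroid_form {F : Type} [AddCommGroup F] {P : F → Prop} (hP : ∀ x, P x → P (-x)) {a : F}
    (ha : P a) (ha2 : P (a + a)) {k : ℕ}
    (h : ∀ (V : Type) [Fintype V] [DecidableEq V] (G : SimpleGraph V) [DecidableRel G.Adj],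
      G.IsRegularOfDegree 3 → (∀ S : Finset V, ¬ (G.induce (S : Set V)).IsAcyclic →
      ¬ (G.induce ((Sᶜ : Finset V) : Set V)).IsAcyclic → k ≤ (G.interedges S Sᶜ).card) → GP P G)
    {m : ℕ} {A : ι → Fin m → ZMod 2} (h0 : ∀ j, A j ≠ 0) {s t : ι → W} (hc : Cog A s t)
    (hv : VC A (max k 2)) : MP P s t := by
  sorry

/-- M6, the hand-in from the exact form (a similar form with line W: the same `k` also gives
real circulations with `1 ≤ |f| ≤ 3 + ε`) -/
theorem matroid_five (h : ∃ k : ℕ, ∀ (V : Type) [Fintype V] [DecidableEq V] (G : SimpleGraph V)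
    [DecidableRel G.Adj], G.IsRegularOfDegree 3 →
    (∀ S : Finset V, ¬ (G.induce (S : Set V)).IsAcyclic →
      ¬ (G.induce ((Sᶜ : Finset V) : Set V)).IsAcyclic → k ≤ (G.interedges S Sᶜ).card) →
    ∀ i : ℕ, 5 ≤ i → HasNZFlow (ZMod i) G) :
    ∃ k₀ : ℕ, ∀ (n m : ℕ) (A : Fin n → Fin m → ZMod 2), (∀ j, A j ≠ 0) →
      (∃ (p : ℕ) (s t : Fin n → Fin p), ∀ c : Fin n → ZMod 2,
        ∑ j, c j • A j = 0 ↔ ∃ S : Fin p → ZMod 2, ∀ j, c j = S (s j) + S (t j)) →
      (∀ X : Set (Fin n),
        Module.finrank (ZMod 2) (Submodule.span (ZMod 2) (A '' X)) <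
          Module.finrank (ZMod 2) (Submodule.span (ZMod 2) (Set.range A)) →
        Module.finrank (ZMod 2) (Submodule.span (ZMod 2) (A '' Xᶜ)) <
          Module.finrank (ZMod 2) (Submodule.span (ZMod 2) (Set.range A)) →
        k₀ + Module.finrank (ZMod 2) (Submodule.span (ZMod 2) (Set.range A)) ≤
          Module.finrank (ZMod 2) (Submodule.span (ZMod 2) (A '' X)) +
          Module.finrank (ZMod 2) (Submodule.span (ZMod 2) (A '' Xᶜ))) →
      ∀ k : ℕ, 5 ≤ k →
        (∑ X : Finset (Fin n), (-1 : ℤ) ^ X.card *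
          (k : ℤ) ^ (Module.finrank (ZMod 2) (Submodule.span (ZMod 2) (Set.range A)) -
            Module.finrank (ZMod 2) (Submodule.span (ZMod 2) (A '' (X : Set (Fin n)))))) ≠ 0 := by
  sorry

end Pool.Agent.K5.PlanM
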