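import Mathlib
import Pool.Agent.Work.MP_974d84_co_k5.DefsMG
import Pool.Agent.Work.MP_974d84_co_k5.Defs5

/-!
# The matroid form (MG): the statements of the modules (nobody imports this file)
-/

set_option linter.unusedSectionVars false

namespace Pool.Agent.K5.PlanMG

open Finset SimpleGraph Pool.Agent.K5.Mat MP974d84

variable {ι : Type} [Fintype ι] [DecidableEq ι] {W : Type} [Fintype W] [DecidableEq W]

/-- MG0, file MgPar.lean: addition to `par_step`. -/
theorem gc_par {m : ℕ} {A : ι → Fin m → ZMod 2} {g : ℕ} (hg : GC A g) {e e' : ι} (hne : e ≠ e')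
    (he : A e = A e') : GC (fun j : {j // j ≠ e'} => A j.1) g := by
  sorry

/-- MG2, file MgGraph.lean -/
theorem to_graph_g {m : ℕ} {A : ι → Fin m → ZMod 2} (h0 : ∀ j, A j ≠ 0)
    (hi : Function.Injective A) {s t : ι → W} (h : Cog A s t) (hr : 3 ≤ rk A Set.univ) {k : ℕ}
    (hk : 2 ≤ k) (hv : VC A k) {g : ℕ} (hg : GC A g) : ∃ (V : Type) (_ : Fintype V)
      (_ : DecidableEq V) (G : SimpleGraph V) (_ : DecidableRel G.Adj), (∀ v, 3 ≤ G.degree v) ∧
      VConn G k ∧ GConn G g ∧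
      ∀ {F : Type} [AddCommGroup F] {P : F → Prop}, (∀ x, P x → P (-x)) → GP P G → MP P s t := by
  sorry

/-- MG3, file MgExpand.lean -/
theorem expand_g {F : Type} [AddCommGroup F] {P : F → Prop} {k g : ℕ}
    (h : ∀ (V : Type) [Fintype V] [DecidableEq V] (G : SimpleGraph V) [DecidableRel G.Adj],
      (∀ v, G.degree v = 3) → VConn G k → GConn G g → GP P G)
    (V : Type) [Fintype V] [DecidableEq V] (G : SimpleGraph V) [DecidableRel G.Adj]
    (h3 : ∀ v, 3 ≤ G.degree v) (hv : VConn G k) (hg : GConn G g) : GP P G := by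
  sorry

/-- MG4a, file MgGir.lean: as `gir_of_cyc` -/
theorem gir_of_short {V : Type} [Fintype V] [DecidableEq V] {G : SimpleGraph V}
    [DecidableRel G.Adj] (h3 : ∀ v, G.degree v = 3) {k : ℕ}
    (hc : ∀ A : Finset V, A.card < k → ¬ (G.induce (A : Set V)).IsAcyclic →
      (G.induce ((Aᶜ : Finset V) : Set V)).IsAcyclic) :
    Pool.Agent.Log5.Gir G k ∨ Fintype.card V ≤ 6 := by
  sorry

/-- MG4b, file MgGir.lean -/
theorem short_of_gconn {V : Type} [Fintype V] [DecidableEq V] {G : SimpleGraph V}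
    [DecidableRel G.Adj] (h3 : ∀ v, G.degree v = 3) {g : ℕ} (hg : GConn G (3 * g))
    (A : Finset V) (hA : A.card < g) (h1 : ¬ (G.induce (A : Set V)).IsAcyclic) :
    (G.induce ((Aᶜ : Finset V) : Set V)).IsAcyclic := by
  sorry

/-- MG5, file MgMain.lean -/
theorem matroid_form_g {F : Type} [AddCommGroup F] {P : F → Prop} (hP : ∀ x, P x → P (-x)) {a : F}
    (ha : P a) (ha2 : P (a + a)) {k g : ℕ}
    (h : ∀ (V : Type) [Fintype V] [DecidableEq V] (G : SimpleGraph V) [DecidableRel G.Adj],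
      (∀ v, G.degree v = 3) → (∀ S : Finset V, ¬ (G.induce (S : Set V)).IsAcyclic →
      ¬ (G.induce ((Sᶜ : Finset V) : Set V)).IsAcyclic → k ≤ (G.interedges S Sᶜ).card) →
      (Pool.Agent.Log5.Gir G g ∨ Fintype.card V ≤ 6) → GP P G)
    {m : ℕ} {A : ι → Fin m → ZMod 2} (h0 : ∀ j, A j ≠ 0) {s t : ι → W} (hc : Cog A s t)
    (hv : VC A (max k 2)) (hg : GC A (3 * g)) : MP P s t := by
  sorry

/-- (MG) contains (M). -/
theorem gc_of_vc {m : ℕ} {A : ι → Fin m → ZMod 2} {g : ℕ} (h : VC A g) : GC A g := by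
  sorry

end Pool.Agent.K5.PlanMG
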