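import Mathlib
import Pool.Agent.Work.MP_974d84_co_k5.DefsW

/-!
# ROUTE W (circular flow number at most 4 + eps): the statements of the modules
(nobody imports this file)
-/

set_option linter.unusedSectionVars false

namespace Pool.Agent.K5.PlanW

open Finset SimpleGraph Pool.Agent.Exp Pool.Agent.Log5 Pool.Agent.Log5.Clu Pool.Agent.K5

/-- W0a, file Words.lean: reduced words act freely -/
theorem act_uniq {V : Type} [Fintype V] [DecidableEq V] {G : SimpleGraph V} [DecidableRel G.Adj]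
    {μ : V → V} {π : Equiv.Perm V} (hf : Frame G μ π) {k : ℕ} (hg : Gir G k)
    {w w' : List (Option Bool)} (hw : Red w) (hw' : Red w') (hk : w.length + w'.length + 1 < k)
    {v : V} (h : act μ π w v = act μ π w' v) : w = w' := by
  sorry

/-- W0b, file Words.lean: consequences -/
theorem pow_ne {V : Type} [Fintype V] [DecidableEq V] {G : SimpleGraph V} [DecidableRel G.Adj]
    {μ : V → V} {π : Equiv.Perm V} (hf : Frame G μ π) {k : ℕ} (hg : Gir G k) {n : ℕ} (hn : 0 < n)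
    (hk : n + 1 < k) (v : V) : (π ^ n) v ≠ v := by
  sorry

/-- W0b: two tree vertices of a window which are near to each other along the circuits agree. -/
theorem tree_uniq {V : Type} [Fintype V] [DecidableEq V] {G : SimpleGraph V} [DecidableRel G.Adj]
    {μ : V → V} {π : Equiv.Perm V} (hf : Frame G μ π) {k : ℕ} (hg : Gir G k) {a b : V}
    {i j m n : ℕ} {c d : List Bool} (hk : i + j + m + n + 2 * c.length + 2 * d.length + 8 < k)
    (h1 : (π ^ m) b = TT μ π ((π ^ i) a) c) (h2 : (π ^ n) b = TT μ π ((π ^ j) a) d) :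
    i = j ∧ m = n ∧ c = d := by
  sorry

/-- W0b: tree vertices of a window are far from the window along the circuits. -/
theorem tree_ne {V : Type} [Fintype V] [DecidableEq V] {G : SimpleGraph V} [DecidableRel G.Adj]
    {μ : V → V} {π : Equiv.Perm V} (hf : Frame G μ π) {k : ℕ} (hg : Gir G k) {a : V}
    {i m n : ℕ} {c : List Bool} (hk : i + m + n + 2 * c.length + 4 < k) :
    (π ^ m) (TT μ π ((π ^ i) a) c) ≠ (π ^ n) a := by
  sorry

/-- W1, file Frame.lean -/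
theorem exists_frame {V : Type} [Fintype V] [DecidableEq V] {G : SimpleGraph V}
    [DecidableRel G.Adj] (h3 : ∀ v, G.degree v = 3) (F : SimpleGraph V) (hF : F ≤ G)
    (hF2 : ∀ v, (F.neighborSet v).ncard = 2) : ∃ (μ : V → V) (π : Equiv.Perm V), Frame G μ π := by
  sorry

/-- W2, file BlocksW.lean (maximal family of disjoint arcs of length `M`) -/
theorem exists_arcs {V : Type} [Fintype V] [DecidableEq V] {π : Equiv.Perm V} {M : ℕ}
    (hM : 0 < M) (hπ : ∀ v n, 0 < n → n < M → (π ^ n) v ≠ v) : ∃ I : Finset V,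
      (∀ a ∈ I, ∀ b ∈ I, ∀ m < M, ∀ n < M, (π ^ m) a = (π ^ n) b → a = b ∧ m = n) ∧
      ∀ v, ∃ n < 2 * M, (π ^ n) v ∈ I := by
  sorry

/-- W3a, file PickZone.lean (from PickAbs.lean): one candidate zone for every index. -/
theorem pick_zone (h : ℕ) (hh : 0 < h) (κ : ℝ) : ∃ L : ℕ, 0 < L ∧ ∀ n N₀ : ℕ, ∃ D₀ : ℕ,
    ∀ {V : Type} [Fintype V] [DecidableEq V] (G : SimpleGraph V) [DecidableRel G.Adj]
    {ι : Type} [Fintype ι] [DecidableEq ι] (U : ι → Fin L → Finset V),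
    (∀ i a, Joined G (U i a)) → (∀ i a, (U i a).card ≤ n) →
    (∀ i a j b, (i, a) ≠ (j, b) → Disjoint (U i a) (U j b)) →
    ∀ Fam : Finset (Finset V), (∀ Z ∈ Fam, D₀ ≤ dd G Z) →
    (∀ v D, ((Fam.filter fun Z => v ∈ Z ∧ dd G Z = D).card : ℝ) ≤ N₀ * Real.exp (κ * D)) →
    ∃ t : ι → Fin L, ∀ Z ∈ Fam, h * (univ.filter fun i => Cuts (U i (t i)) Z).card ≤ dd G Z := by
  sorry

/-- W3, file Windows.lean (uses W2, W3a): blocks of `M` vertices, `L` candidates in each of them with disjoint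
zones (exists_transversal with `Δ = (2 q + 1) ^ 2 * 3 * 4 ^ R`), then pick_zone. -/
theorem exists_windows (h R : ℕ) (hh : 0 < h) (κ : ℝ) : ∃ c : ℕ, 0 < c ∧ ∀ q, 1 ≤ q →
    ∀ N₀ : ℕ, ∃ D₀ : ℕ, ∀ {V : Type} [Fintype V] [DecidableEq V] (G : SimpleGraph V)
    [DecidableRel G.Adj] {μ : V → V} {π : Equiv.Perm V}, Frame G μ π →
    (∀ v n, 0 < n → n < c * q ^ 2 → (π ^ n) v ≠ v) →
    ∀ Fam : Finset (Finset V), (∀ Z ∈ Fam, D₀ ≤ dd G Z) →
    (∀ v D, ((Fam.filter fun Z => v ∈ Z ∧ dd G Z = D).card : ℝ) ≤ N₀ * Real.exp (κ * D)) →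
    ∃ A, Win G π R q (c * q ^ 2) A ∧
      ∀ Z ∈ Fam, h * (A.filter fun a => Cuts (zone G π R q a) Z).card ≤ dd G Z := by
  sorry

/-- W4a, file BitsLocal.lean: the symmetric local lemma for bits (Rosenfeld's counting). -/
theorem exists_bits {I E : Type} [Fintype I] [DecidableEq I] [Fintype E] (U : E → Finset I)
    (bad : E → (I → Bool) → Prop) [∀ e x, Decidable (bad e x)]
    (hdep : ∀ e x y, (∀ i ∈ U e, x i = y i) → bad e x → bad e y) {Δ m : ℕ} (hΔ1 : 1 ≤ Δ)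
    (hm1 : 1 ≤ m)
    (hΔ : ∀ i, (univ.filter fun e => i ∈ U e).card ≤ Δ) (hm : ∀ e, (U e).card ≤ m)
    (hbad : ∀ e, 4 * Δ * m * (univ.filter fun x => bad e x).card ≤ 2 ^ Fintype.card I) :
    ∃ x, ∀ e, ¬ bad e x := by
  sorry

/-- W4b, file BitsCount.lean: no one of `q` disjoint sets of `m` bits shows its pattern. -/
theorem count_avoid {I : Type} [Fintype I] [DecidableEq I] {q m : ℕ} (T : Fin q → Finset I)
    (hd : ∀ a b, a ≠ b → Disjoint (T a) (T b)) (hc : ∀ a, (T a).card = m)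
    (pat : Fin q → I → Bool) :
    (univ.filter fun x : I → Bool => ∀ a, ∃ i ∈ T a, x i ≠ pat a i).card * (2 ^ m) ^ q =
      2 ^ Fintype.card I * (2 ^ m - 1) ^ q := by
  sorry

/-- W4, file PatternW.lean -/
theorem exists_pattern (J R c : ℕ) (hR : 2 * J + 1 ≤ R) : ∃ q : ℕ, 1 ≤ q ∧ ∃ M k₀ : ℕ,
    ∀ {V : Type} [Fintype V] [DecidableEq V] (G : SimpleGraph V) [DecidableRel G.Adj] {μ : V → V}
    {π : Equiv.Perm V}, Frame G μ π → Gir G k₀ → ∀ A : Finset V, Win G π R q (c * q ^ 2) A →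
    ∃ y : V → ℤ, Pattern μ π J q M A y := by
  sorry

/-- W5, file PairingW.lean: perfect matching of minimal total distance -/
theorem exists_pairing {V : Type} [Fintype V] [DecidableEq V] (G : SimpleGraph V)
    [DecidableRel G.Adj] (hbr : ∀ A : Finset V, A.Nonempty → Aᶜ.Nonempty → 1 ≤ dd G A)
    (T : Finset V) (hT : Even T.card) : ∃ (m : ℕ) (p q : Fin m → V), Function.Injective p ∧
      Function.Injective q ∧ (∀ i j, p i ≠ q j) ∧ (∀ v, v ∈ T ↔ (∃ j, p j = v) ∨ ∃ j, q j = v) ∧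
      ∀ (X : Finset V) (J : Finset (Fin m)), (∀ j ∈ J, ¬ (p j ∈ X ↔ q j ∈ X)) →
        J.card ≤ dd G X := by
  sorry

/-- W5b, file PairingW.lean: the number of defects is even -/
theorem even_dfc {V : Type} [Fintype V] [DecidableEq V] {G : SimpleGraph V} [DecidableRel G.Adj]
    {μ : V → V} {π : Equiv.Perm V} (hf : Frame G μ π) {J q M : ℕ} {A : Finset V} {y : V → ℤ}
    (hy : Pattern μ π J q M A y) : Even (Dfc π A y).card := by
  sorry

/-- W6, file LocalW.lean: the flow of a defect end. The flow is the sum of the arcs of the tree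
behind the third edge of `v` up to the level `j₀`, with the values `1 / 2 ^ level`. -/
theorem end_flow {V : Type} [Fintype V] [DecidableEq V] {G : SimpleGraph V} [DecidableRel G.Adj]
    {μ : V → V} {π : Equiv.Perm V} (hf : Frame G μ π) {k j₀ : ℕ} (hg : Gir G k)
    (hk : 4 * j₀ + 12 ≤ k) (v : V) : ∃ (φ : V → V → ℝ) (w : V → ℝ),
      (∀ u u', φ u u' = - φ u' u) ∧
      (∀ u u', |φ u u'| ≤ 1) ∧
      (∀ u u', φ u u' ≠ 0 → (u' = μ u ∧ ((∃ c : List Bool, c.length ≤ j₀ ∧ u = TT μ π v c) ∨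
          ∃ c : List Bool, c.length ≤ j₀ ∧ u' = TT μ π v c)) ∨
        (∃ (c : List Bool) (b : Bool), c.length < j₀ ∧ u = TT μ π v c ∧ u' = stp π b u ∧
          φ u u' = 1 / 2 ^ (c.length + 1)) ∨
        ∃ (c : List Bool) (b : Bool), c.length < j₀ ∧ u' = TT μ π v c ∧ u = stp π b u' ∧
          φ u u' = - (1 / 2 ^ (c.length + 1))) ∧
      (∀ u, 0 ≤ w u) ∧ (∀ u, w u ≤ 1 / 2 ^ j₀) ∧
      (∀ u, w u ≠ 0 → ∃ c : List Bool, c.length = j₀ ∧ u = TT μ π v c) ∧ ∑ u, w u = 1 ∧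
      ∀ u, ∑ u', φ u u' = (if u = v then 1 else 0) - w u := by
  sorry

/-- W7, file FinalW.lean: for every choice of the signs of the defects there is `x`. -/
theorem final_w {V : Type} [Fintype V] [DecidableEq V] {G : SimpleGraph V} [DecidableRel G.Adj]
    {μ : V → V} {π : Equiv.Perm V} (hf : Frame G μ π) {J j₀ R q B M k : ℕ} (hJ : J ≤ j₀)
    (hR : 2 * j₀ + 2 ≤ R) (hg : Gir G k) (hk : 4 * q + 4 * j₀ + 20 ≤ k) {A : Finset V}
    (hA : Win G π R q B A) {y : V → ℤ} (hy : Pattern μ π J q M A y) :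
    ∃ w : V → ℤ → V → ℝ, (∀ a s v, 0 ≤ w a s v) ∧ (∀ a s v, w a s v ≤ 1 / 2 ^ j₀) ∧
      (∀ a ∈ Dfc π A y, ∀ s, (s = 1 ∨ s = -1) → (∀ v, w a s v ≠ 0 → v ∈ zone G π R q a) ∧
        ∑ v, w a s v = 1) ∧
      ∀ ε : V → ℤ, (∀ v, ε v = 1 ∨ ε v = -1) → ∃ x : V → ℤ, (∀ v, x v = 1 ∨ x v = -1) ∧
        ∀ X : Finset V, |∑ v ∈ X, (x v : ℝ)| ≤ (1 / 2 + 1 / 2 ^ (J + 2)) * dd G X +
          |∑ a ∈ Dfc π A y, (ε a : ℝ) * ∑ v ∈ X, w a (ε a) v| := by
  sorry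

/-- W8a, file RegionFam.lean (uses M5b): the family `RF` is locally small. -/
theorem rf_count : ∃ (κ C₀ : ℝ), ∀ C, C₀ ≤ C → ∃ k₀ N₀ : ℕ, ∀ N k, N₀ ≤ N → k₀ ≤ k →
    ∀ {V : Type} [Fintype V] [DecidableEq V] (G : SimpleGraph V) [DecidableRel G.Adj],
    (∀ v, G.degree v = 3) → (∀ A : Finset V, A.Nonempty → Aᶜ.Nonempty → 1 ≤ dd G A) →
    CycConn G k → Gir G k → ∀ {r : ℕ} (S : Fin r → Finset V), Cores G C S → Facts G C N k S →
    ∀ (v : V) (D : ℕ) (F : Finset (Finset V)), k₀ ≤ D →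
    (∀ Z ∈ F, RF G S Z ∧ v ∈ Z ∧ dd G Z = D) → (F.card : ℝ) ≤ Real.exp (κ * D) := by
  sorry

/-- W8b, file RegionClose.lean (uses M7 with `c = id` and acyclic sets): bounds for `RF` give
bounds for all subsets of the regions. -/
theorem rf_close {V : Type} [Fintype V] [DecidableEq V] {G : SimpleGraph V}
    [DecidableRel G.Adj] (h3 : ∀ v, G.degree v = 3)
    (hbr : ∀ A : Finset V, A.Nonempty → Aᶜ.Nonempty → 1 ≤ dd G A) {k : ℕ} (hc : CycConn G k)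
    {r : ℕ} (S : Fin r → Finset V) {σ : V → ℝ} (h0 : ∑ v, σ v = 0) {b : ℝ}
    (hσ : ∀ v, |σ v| ≤ b) (hb : ∀ Z, RF G S Z → k ≤ dd G Z → |∑ v ∈ Z, σ v| ≤ b * dd G Z)
    (R : Finset V) (hR : Region S R) (X : Finset V) (hX : X ⊆ R) :
    |∑ v ∈ X, σ v| ≤ b * dd G X := by
  sorry

/-- W8c, file SignsW.lean (uses W5, M13, M14, M15, W8b, exists_partitions): signs of the
defects. Proof: a measure `w₀ a` on `Bl j₁ a` (uniform) for M13; the difference
`ε a * (w a (ε a) - w₀ a)` vanishes on `Z` if `Z` does not split `U a`. -/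
theorem signs_w {b : ℝ} (hb : 0 < b) : ∃ (j₁ h : ℕ) (C₀ : ℝ), 0 < h ∧ ∀ C, C₀ ≤ C →
    ∃ k₀ N₀ : ℕ, ∀ N k, N₀ ≤ N → k₀ ≤ k → ∀ {V : Type} [Fintype V] [DecidableEq V]
    (G : SimpleGraph V) [DecidableRel G.Adj], (∀ v, G.degree v = 3) →
    (∀ A : Finset V, A.Nonempty → Aᶜ.Nonempty → 1 ≤ dd G A) → CycConn G k → Gir G k →
    ∀ {r : ℕ} (S : Fin r → Finset V), Cores G C S → Facts G C N k S →
    ∀ T : Finset V, Even T.card → ∀ (U : V → Finset V) (w : V → ℤ → V → ℝ),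
    (∀ a ∈ T, Bl G.Adj j₁ a ⊆ U a) → (∀ a ∈ T, ∀ a' ∈ T, a ≠ a' → Disjoint (U a) (U a')) →
    (∀ a s v, 0 ≤ w a s v) → (∀ a s v, w a s v ≤ 1 / 2 ^ j₁) →
    (∀ a ∈ T, ∀ s, (s = 1 ∨ s = -1) → (∀ v, w a s v ≠ 0 → v ∈ U a) ∧ ∑ v, w a s v = 1) →
    (∀ k₁, k₀ ≤ k₁ → k₁ ≤ k →
      (∀ Z, RF G S Z → k₁ ≤ dd G Z → h * (T.filter fun a => Cuts (U a) Z).card ≤ dd G Z) →
      ∃ ε : V → ℤ, (∀ v, ε v = 1 ∨ ε v = -1) ∧ ∑ a ∈ T, ε a = 0 ∧
        ∀ R, Region S R → ∀ X ⊆ R,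
          |∑ a ∈ T, (ε a : ℝ) * ∑ v ∈ X, w a (ε a) v| ≤ b * dd G X) := by
  sorry

/-- W9, file MainW.lean (assembly, as M17) -/
theorem main_w {ε : ℝ} (hε : 0 < ε) : ∃ k : ℕ, ∀ {V : Type} [Fintype V] [DecidableEq V]
    (G : SimpleGraph V) [DecidableRel G.Adj], (∀ v, G.degree v = 3) → CycConn G k → Gir G k →
    (∀ A : Finset V, A.Nonempty → Aᶜ.Nonempty → 2 ≤ dd G A) →
    ∀ F : SimpleGraph V, F ≤ G → (∀ v, (F.neighborSet v).ncard = 2) →
    ∃ f : V → V → ℝ, (∀ u v, f u v = - f v u) ∧ (∀ v, ∑ u, f v u = 0) ∧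
      (∀ u v, ¬ G.Adj u v → f u v = 0) ∧ ∀ u v, G.Adj u v → 1 ≤ |f u v| ∧ |f u v| ≤ 3 + ε := by
  sorry

/-- W10, file SmallThree.lean: graphs which violate `Gir` have at most 6 vertices and are
3-edge-colourable. -/
theorem small_three {V : Type} [Fintype V] [DecidableEq V] (G : SimpleGraph V)
    [DecidableRel G.Adj] (h3 : ∀ v, G.degree v = 3) (h6 : Fintype.card V ≤ 6)
    (hbr : ∀ S : Finset V, S.Nonempty → Sᶜ.Nonempty → 2 ≤ dd G S) :
    ∃ f : V → V → ℝ, (∀ u v, f u v = - f v u) ∧ (∀ v, ∑ u, f v u = 0) ∧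
      (∀ u v, ¬ G.Adj u v → f u v = 0) ∧ ∀ u v, G.Adj u v → 1 ≤ |f u v| ∧ |f u v| ≤ 3 := by
  sorry

end Pool.Agent.K5.PlanW
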