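import Mathlib
import Pool.Agent.Work.MP_974d84_co.Defs
import Pool.Agent.Work.MP_974d84_co_k5.Defs5

/-!
# ROOM K5, the EXACT theorem: the statements of the additional modules (nobody imports this file)
-/

set_option linter.unusedSectionVars false

namespace Pool.Agent.K5.PlanX

open Finset SimpleGraph Pool.Agent.Exp Pool.Agent.Log5 Pool.Agent.Log5.Clu Pool.Agent.K5 MP974d84

/-- X1, file TheoremR.lean (note 8516) -/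
theorem theorem_R (κ : ℕ) : ∃ R₀ q₀ s₁ k₀ : ℕ, 0 < q₀ ∧ ∀ {V : Type} [Fintype V] [DecidableEq V]
    (G : SimpleGraph V) [DecidableRel G.Adj], (∀ v, G.degree v = 3) → CycConn G k₀ → Gir G k₀ →
    ∀ (w : ℕ) (u : Fin w → Fin q₀ → V) (X : Fin w → Fin q₀ → Finset V),
    (∀ i a, u i a ∈ X i a ∧ X i a ⊆ Bl G.Adj 1 (u i a) ∧ (X i a).card ≤ 3) →
    (∀ i a j b, (i, a) ≠ (j, b) → Disjoint (Bl G.Adj R₀ (u i a)) (Bl G.Adj R₀ (u j b))) →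
    ∃ a : Fin w → Fin q₀, ∀ Q : Finset V,
      s₁ ≤ (Q \ univ.biUnion fun i => X i (a i)).card →
      s₁ ≤ (Qᶜ \ univ.biUnion fun i => X i (a i)).card →
      κ ≤ ds G (univ.biUnion fun i => X i (a i)) Q := by
  sorry

/-- X2, file FinalExactX.lean -/
theorem final_exact {V : Type} [Fintype V] [DecidableEq V] {G : SimpleGraph V} [DecidableRel G.Adj]
    (h3 : ∀ v, G.degree v = 3) {H : SimpleGraph V} (hH : H ≤ G) {T : Finset V}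
    (hdeg : ∀ v, (H.neighborSet v).ncard = if v ∈ T then 1 else 2) {x : V → ℤ}
    (hx : ∀ v, x v = 1 ∨ x v = -1) (halt : ∀ u v, H.Adj u v → x u = - x v) {j₀ : ℕ}
    (hT : ∀ t ∈ T, ∀ t' ∈ T, t ≠ t' → Disjoint (Bl G.Adj j₀ t) (Bl G.Adj j₀ t'))
    {X : V → Finset V} (hX : ∀ t ∈ T, ∀ y, y ∈ X t ↔ (y = t ∨ (G.Adj t y ∧ ¬ H.Adj t y)))
    {φ : V → V → V → ℝ} {w : V → V → ℝ} (h1 : ∀ t ∈ T, ∀ u v, φ t u v = - φ t v u)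
    (h2 : ∀ t ∈ T, ∀ u v, φ t u v ≠ 0 → G.Adj u v ∧ u ∈ Bl G.Adj j₀ t ∧ v ∈ Bl G.Adj j₀ t)
    (h4 : ∀ t ∈ T, ∀ u v, |φ t u v| ≤ 2 / 5) (h5 : ∀ t ∈ T, ∀ u v, H.Adj u v → |φ t u v| ≤ 1 / 5)
    (h6 : ∀ t ∈ T, ∀ v, ∑ u, φ t v u = (if v = t then 1 else 0) - w t v)
    (h7 : ∀ t ∈ T, ∀ u v, u ∉ X t → v ∉ X t → |φ t u v| ≤ 1 / 10)
    (h8 : ∀ t ∈ T, ∀ v, w t v ≠ 0 → v ∉ T.biUnion X)
    (h9 : ∑ v, (x v : ℝ) = 0)
    (hcut : ∀ Z : Finset V, Disjoint Z (T.biUnion X) →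
      |∑ t ∈ T, (x t : ℝ) * ∑ v ∈ Z, w t v| ≤ 1 / 10 * ds G (T.biUnion X) Z) (Z : Finset V) :
    5 * |∑ v ∈ Z, x v| ≤ 3 * (dd G Z : ℤ) := by
  sorry

/-- X3, file LossCore.lean -/
theorem loss_core {V : Type} [Fintype V] [DecidableEq V] {G : SimpleGraph V} [DecidableRel G.Adj]
    (h3 : ∀ v, G.degree v = 3) {k k₁ R : ℕ} (hc : CycConn G k) (hg : Gir G k) (hk : k₁ + 10 ≤ k)
    (hR : 10 ≤ R) {S : Finset V} (hSj : Joined G S) (hSk : k ≤ S.card)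
    (hratio : ∀ A ⊆ S, 3 * A.card ≤ 2 * S.card → 100 * ee G A Sᶜ ≤ 123 * ee G A (S \ A))
    {T : Finset V} {X : V → Finset V} (hX : Triples G R T X)
    (hthin : ∀ P ⊆ S, P.Nonempty → Joined G P → Joined G (S \ P) → 2 * P.card ≤ S.card →
      k₁ ≤ dd G P → ∀ T' ⊆ T, (∀ t ∈ T', Sp G 2 P t) → 40 * T'.card ≤ dd G P)
    (A : Finset V) (hA : A ⊆ S \ T.biUnion X) :
    ∃ B : Finset V, A ⊆ B ∧ B ⊆ A ∪ T.biUnion X ∧ B ⊆ S ∧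
      ee G B (S \ B) ≤ 3 * ee G A ((S \ T.biUnion X) \ A) := by
  sorry

/-- X4, file LossOut.lean -/
theorem loss_out {V : Type} [Fintype V] [DecidableEq V] {G : SimpleGraph V} [DecidableRel G.Adj]
    (h3 : ∀ v, G.degree v = 3) {k k₁ R : ℕ} (hc : CycConn G k) (hg : Gir G k) (hk : k₁ + 10 ≤ k)
    (hR : 10 ≤ R) {W : Finset V} (hW : ¬ (G.induce ((Wᶜ : Finset V) : Set V)).IsAcyclic)
    {T : Finset V} {X : V → Finset V} (hX : Triples G R T X)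
    (hthin : ∀ P, RBond G W id P → Pᶜ.Nonempty → k₁ ≤ dd G P →
      ∀ T' ⊆ T, (∀ t ∈ T', Sp G 2 P t) → 40 * T'.card ≤ dd G P)
    (A : Finset V) (hA : A ⊆ W \ T.biUnion X) :
    ∃ B : Finset V, A ⊆ B ∧ B ⊆ A ∪ T.biUnion X ∧ B ⊆ W ∧ dd G B ≤ 3 * ds G (T.biUnion X) A := by
  sorry

/-- X5, file ToggleStar.lean -/
theorem toggle_star {V : Type} [Fintype V] [DecidableEq V] (G : SimpleGraph V) [DecidableRel G.Adj]
    {r : ℕ} {S : Fin r → Finset V} (hd : ∀ i j, i ≠ j → Disjoint (S i) (S j)) {D : Finset V}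
    (hratio : ∀ i, ∀ A ⊆ S i \ D, 2 * A.card ≤ (S i).card →
      ee G A ((S i)ᶜ \ D) ≤ 4 * ee G A ((S i \ D) \ A))
    (X : Finset V) (hX : Disjoint X D) : ∃ (X' : Finset V) (A : Fin r → Finset V),
      (∀ i, A i ⊆ S i \ D ∧ 2 * (A i).card ≤ (S i).card) ∧ Disjoint X' D ∧
      (∀ i, S i \ D ⊆ X' ∨ Disjoint (S i) X') ∧ ds G D X' ≤ 5 * ds G D X ∧
      ∑ i, ee G (A i) ((S i \ D) \ A i) ≤ ds G D X ∧
      ∀ σ : V → ℝ, |∑ v ∈ X, σ v| ≤ |∑ v ∈ X', σ v| + ∑ i, |∑ v ∈ A i, σ v| := by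
  sorry

/-- X6, file PickFam.lean (from iso/Pick.lean) -/
theorem pick_fam (ρ h : ℕ) (hh : 0 < h) (κ : ℝ) : ∃ q D₀ : ℕ, 0 < q ∧
    ∀ {V : Type} [Fintype V] [DecidableEq V] (G : SimpleGraph V) [DecidableRel G.Adj],
    (∀ v, G.degree v = 3) → ∀ (w : ℕ) (u : Fin w → Fin q → V),
    (∀ i a j b, (i, a) ≠ (j, b) → Disjoint (Bl G.Adj ρ (u i a)) (Bl G.Adj ρ (u j b))) →
    ∀ Fam : Finset (Finset V), (∀ P ∈ Fam, D₀ ≤ dd G P) →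
    (∀ v D, ∀ F ⊆ Fam, (∀ P ∈ F, v ∈ P ∧ dd G P = D) → (F.card : ℝ) ≤ Real.exp (κ * D)) →
    ∃ t : Fin w → Fin q, ∀ P ∈ Fam, ∀ A : Finset (Fin w), (∀ i ∈ A, Sp G ρ P (u i (t i))) →
      h * A.card ≤ dd G P := by
  sorry

/-- X7, file FamCount.lean (uses M5b in `G` and in `G.induce (S i)`) -/
theorem fam_count : ∃ (κ C₀ : ℝ), ∀ C, C₀ ≤ C → ∃ k₀ N₀ : ℕ, ∀ N k, N₀ ≤ N → k₀ ≤ k →
    ∀ {V : Type} [Fintype V] [DecidableEq V] (G : SimpleGraph V) [DecidableRel G.Adj],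
    (∀ v, G.degree v = 3) → (∀ A : Finset V, A.Nonempty → Aᶜ.Nonempty → 1 ≤ dd G A) →
    CycConn G k → Gir G k → ∀ {r : ℕ} (S : Fin r → Finset V), Cores G C S → Facts G C N k S →
    ∀ (v : V) (D : ℕ) (F : Finset (Finset V)), k₀ ≤ D →
    (∀ P ∈ F, v ∈ P ∧ Fm G S P ∧ dd G P = D) → (F.card : ℝ) ≤ Real.exp (κ * D) := by
  sorry

/-- X8, file SitesExact.lean: the sites of the odd circuits (uses M0, X1, X6, X7) -/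
theorem sites_exact (κ a : ℕ) : ∃ (C₀ : ℝ) (s₁ : ℕ), ∀ C, C₀ ≤ C → ∃ k₀ N₀ : ℕ, ∀ N k, N₀ ≤ N →
    k₀ ≤ k → ∀ {V : Type} [Fintype V] [DecidableEq V] (G : SimpleGraph V) [DecidableRel G.Adj],
    (∀ v, G.degree v = 3) → (∀ A : Finset V, A.Nonempty → Aᶜ.Nonempty → 2 ≤ dd G A) →
    CycConn G k → Gir G k → ∀ {r : ℕ} (S : Fin r → Finset V), Cores G C S → Facts G C N k S →
    ∀ F : SimpleGraph V, F ≤ G → (∀ v, (F.neighborSet v).ncard = 2) →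
    ∃ μ ν : V → V, (∀ v, μ (μ v) = v) ∧ (∀ v, ν (ν v) = v) ∧ (∀ v, G.Adj v (μ v)) ∧
      (∀ v, ν v ≠ v → G.Adj v (ν v)) ∧ (∀ v, μ v ≠ ν v) ∧
      (∀ v v', ν v = v → ν v' = v' → v ≠ v' → Disjoint (Bl G.Adj a v) (Bl G.Adj a v')) ∧
      (∀ X : Finset V, k * (X.filter fun v => ν v = v).card ≤ X.card + k * dd G X) ∧
      (∀ P, Fm G S P → k₀ ≤ dd G P → ∀ T' : Finset V, (∀ t ∈ T', ν t = t ∧ Sp G 2 P t) →
        80 * T'.card ≤ dd G P) ∧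
      ∀ Q D : Finset V, (∀ v, v ∈ D ↔ ∃ t, ν t = t ∧ (v = t ∨ (G.Adj t v ∧ v ≠ μ t))) →
        s₁ ≤ (Q \ D).card → s₁ ≤ (Qᶜ \ D).card → κ ≤ ds G D Q := by
  sorry

/-- X9, file MainExact.lean (assembly) -/
theorem main_exact : ∃ k : ℕ, ∀ {V : Type} [Fintype V] [DecidableEq V]
    (G : SimpleGraph V) [DecidableRel G.Adj], (∀ v, G.degree v = 3) → CycConn G k →
    ∀ F : SimpleGraph V, F ≤ G → (∀ v, (F.neighborSet v).ncard = 2) →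
    ∀ i : ℕ, 5 ≤ i → HasNZFlow (ZMod i) G := by
  sorry

end Pool.Agent.K5.PlanX
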