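import Mathlib
import Pool.Agent.Work.MP_974d84_co.Hoffman

/-!
# From real flows modulo `r` to real flows
-/

set_option linter.unusedSectionVars false

namespace Pool.Agent.K5

open Finset SimpleGraph

/-- **Tutte's theorem for real flows.** A real `g` with `1 ≤ |g| ≤ r - 1` on the edges all of whose
divergences are multiples of `r` can be changed by multiples of `r` into a flow with the same
bounds. -/
theorem real_of_mod {V : Type} [Fintype V] [DecidableEq V] {G : SimpleGraph V} {r : ℝ} (hr : 0 < r)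
    (g : V → V → ℝ) (ga : ∀ u v, g u v = - g v u) (g0 : ∀ u v, ¬ G.Adj u v → g u v = 0)
    (g1 : ∀ u v, G.Adj u v → 1 ≤ |g u v| ∧ |g u v| ≤ r - 1)
    (gd : ∀ v, ∃ k : ℤ, ∑ u, g v u = r * k) :
    ∃ f : V → V → ℝ, (∀ u v, f u v = - f v u) ∧ (∀ u v, ¬ G.Adj u v → f u v = 0) ∧
      (∀ u v, G.Adj u v → 1 ≤ |f u v| ∧ |f u v| ≤ r - 1) ∧ (∀ v, ∑ u, f v u = 0) ∧
      ∀ u v, ∃ h : ℤ, f u v = g u v - r * h := by
  classical
  choose k hk using gd
  let c : V → V → ℤ := fun u v => if 0 < g u v then 1 else 0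
  have hc0 : ∀ u v, 0 ≤ c u v := fun u v => by
    simp only [c]
    split_ifs <;> norm_num
  have hgc : ∀ u v, g u v ≤ r * c u v := by
    intro u v
    by_cases h : G.Adj u v
    · have h1 := (g1 u v h).2
      by_cases h2 : 0 < g u v
      · simp only [c, if_pos h2]
        rw [abs_of_pos h2] at h1
        push_cast
        linarith
      · simp only [c, if_neg h2]
        push_cast
        linarith
    · rw [g0 u v h]
      have : (0 : ℝ) ≤ c u v := by exact_mod_cast hc0 u v
      positivity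
  have hinner : ∀ Z : Finset V, ∑ v ∈ Z, ∑ w ∈ Z, g v w = 0 := by
    intro Z
    have h1 : ∑ v ∈ Z, ∑ w ∈ Z, g v w = ∑ v ∈ Z, ∑ w ∈ Z, g w v := sum_comm
    have h2 : ∑ v ∈ Z, ∑ w ∈ Z, g w v = - ∑ v ∈ Z, ∑ w ∈ Z, g v w := by
      rw [← sum_neg_distrib]
      refine sum_congr rfl fun v _ => ?_
      rw [← sum_neg_distrib]
      exact sum_congr rfl fun w _ => ga w v
    linarith
  have hcutk : ∀ Z : Finset V, ((∑ v ∈ Z, k v : ℤ) : ℝ) * r = ∑ v ∈ Z, ∑ w ∈ Zᶜ, g v w := by
    intro Z
    have h1 : ∑ v ∈ Z, ∑ w, g v w = ∑ v ∈ Z, ∑ w ∈ Zᶜ, g v w := by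
      have h2 : ∀ v, ∑ w, g v w = ∑ w ∈ Z, g v w + ∑ w ∈ Zᶜ, g v w := fun v =>
        (sum_add_sum_compl Z _).symm
      simp only [h2, sum_add_distrib, hinner Z, zero_add]
    rw [← h1]
    push_cast
    rw [sum_mul]
    refine sum_congr rfl fun v _ => ?_
    rw [hk v]
    ring
  obtain ⟨h, ha, hu, hd⟩ := MP974d84.hoffman c k (fun _ _ => 0) (fun _ _ => by simp)
    (fun v w => hc0 v w) (by
      have h1 := hcutk univ
      rw [compl_univ] at h1
      simp only [sum_empty, sum_const_zero] at h1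
      have h2 : ((∑ v, k v : ℤ) : ℝ) = 0 := by
        rcases mul_eq_zero.1 h1 with h2 | h2
        · exact h2
        · exact absurd h2 hr.ne'
      exact_mod_cast h2) (fun Z => by
      have h1 := hcutk Z
      have h2 : ∑ v ∈ Z, ∑ w ∈ Zᶜ, g v w ≤ ∑ v ∈ Z, ∑ w ∈ Zᶜ, r * (c v w : ℝ) :=
        sum_le_sum fun v _ => sum_le_sum fun w _ => hgc v w
      have h3 : ∑ v ∈ Z, ∑ w ∈ Zᶜ, r * (c v w : ℝ) =
          ((∑ v ∈ Z, ∑ w ∈ Zᶜ, c v w : ℤ) : ℝ) * r := by
        push_cast
        rw [sum_mul]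
        refine sum_congr rfl fun v _ => ?_
        rw [sum_mul]
        exact sum_congr rfl fun w _ => mul_comm _ _
      have h4 : ((∑ v ∈ Z, k v : ℤ) : ℝ) * r ≤ ((∑ v ∈ Z, ∑ w ∈ Zᶜ, c v w : ℤ) : ℝ) * r := by
        rw [h1, ← h3]
        exact h2
      have h5 := le_of_mul_le_mul_right h4 hr
      exact_mod_cast h5)
  refine ⟨fun u v => g u v - r * h u v, fun u v => ?_, fun u v huv => ?_, fun u v huv => ?_,
    fun v => ?_, fun u v => ⟨h u v, rfl⟩⟩
  · show g u v - r * h u v = -(g v u - r * h v u)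
    rw [ga u v, ha u v]
    push_cast
    ring
  · have h1 := g0 u v huv
    have h1' := g0 v u fun h => huv h.symm
    have h2 := hu u v
    have h3 := hu v u
    simp only [c, h1, h1', lt_irrefl, if_false] at h2 h3
    have h4 : h u v = 0 := by
      have := ha u v
      omega
    show g u v - r * h u v = 0
    rw [h1, h4]
    simp
  · have h2 := hu u v
    have h3 := hu v u
    have h4 := ha u v
    obtain ⟨e1, e2⟩ := g1 u v huv
    show 1 ≤ |g u v - r * h u v| ∧ |g u v - r * h u v| ≤ r - 1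
    rcases lt_trichotomy (g u v) 0 with hlt | heq | hgt
    · have h5 : ¬ 0 < g u v := not_lt.2 hlt.le
      have h6 : 0 < g v u := by
        have := ga u v
        linarith
      simp only [c, if_neg h5, if_pos h6] at h2 h3
      rw [abs_of_neg hlt] at e1 e2
      have h7 : h u v = 0 ∨ h u v = -1 := by omega
      rcases h7 with h7 | h7
      · rw [h7]
        simp only [Int.cast_zero, mul_zero, sub_zero]
        rw [abs_of_neg hlt]
        exact ⟨e1, e2⟩
      · rw [h7]
        push_cast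
        rw [abs_of_pos (by linarith)]
        constructor <;> linarith
    · rw [heq, abs_zero] at e1
      linarith
    · have h5 : ¬ 0 < g v u := by
        have := ga u v
        linarith
      simp only [c, if_pos hgt, if_neg h5] at h2 h3
      rw [abs_of_pos hgt] at e1 e2
      have h7 : h u v = 0 ∨ h u v = 1 := by omega
      rcases h7 with h7 | h7
      · rw [h7]
        simp only [Int.cast_zero, mul_zero, sub_zero]
        rw [abs_of_pos hgt]
        exact ⟨e1, e2⟩
      · rw [h7]
        push_cast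
        rw [abs_of_neg (by linarith)]
        constructor <;> linarith
  · show ∑ u, (g v u - r * h v u) = 0
    have h1 : ∑ u, (h v u : ℝ) = k v := by exact_mod_cast hd v
    rw [sum_sub_distrib, ← mul_sum, h1, hk v, sub_self]

end Pool.Agent.K5
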