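import Mathlib
import Pool.Agent.Work.MP_974d84_co_k5.Decomp

/-!
# Module X3a: a linear bound for optimal sets follows from the optimal bonds of the region
-/

set_option linter.unusedSectionVars false
set_option linter.unusedVariables false

namespace Pool.Agent.K5

open Finset SimpleGraph Pool.Agent.Exp Pool.Agent.Log5 Pool.Agent.Log5.Clu
open Pool.Agent.Work.MP_314beb_co

/-- Optimality passes to the bonds: the form for lists. -/
theorem region_opt_list {V : Type} [Fintype V] [DecidableEq V] {G : SimpleGraph V}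
    [DecidableRel G.Adj] {Y : Finset V}
    (hbr : ∀ S ⊆ Y, S.Nonempty → Sᶜ.Nonempty → 1 ≤ dd G S)
    (w : V → V → ℝ) (hw : ∀ u v, w u v = w v u) (hw0 : ∀ u v, 0 ≤ w u v)
    (lam : V → V → ℝ) (hsymm : ∀ u v, lam u v = lam v u) (D' : Finset V)
    (hb : ∀ Z, RBond G Y id Z → Zᶜ.Nonempty →
      (∀ E, E ⊆ D' → bs G w Z ≤ bs G w (symmDiff Z E)) → bs G lam Z ≤ 0)
    (S : Finset V) (hSY : S ⊆ Y)
    (hS : ∀ E, E ⊆ D' → bs G w S ≤ bs G w (symmDiff S E)) : bs G lam S ≤ 0 := by
  have hc : ∀ x : V, Joined G (cls id x) := by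
    intro x A hA hne hAx
    exfalso
    apply hAx
    refine hA.antisymm ?_
    intro y hy
    have hy' : y = x := mem_cls.1 hy
    obtain ⟨z, hz⟩ := hne
    have hz' : z = x := mem_cls.1 (hA hz)
    rw [hy', ← hz']
    exact hz
  have hS' : Clo id S := by
    intro x y hxy
    have : x = y := hxy
    rw [this]
  obtain ⟨L, h1, h2, -, h4⟩ := decomp hc hbr S hSY hS'
  rw [h2 lam hsymm]
  have key : ∀ Z ∈ L, bs G lam Z ≤ 0 := by
    intro Z hZ
    refine hb Z (h1 Z hZ).1 (h1 Z hZ).2.1 fun E hE => ?_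
    have a1 := h4 w hw hw0 Z hZ E
    have a2 := hS E hE
    linarith
  clear h1 h2 h4
  induction L with
  | nil => simp
  | cons a L ih =>
    rw [List.map_cons, List.sum_cons]
    have b1 := key a List.mem_cons_self
    have b2 := ih fun Z hZ => key Z (List.mem_cons_of_mem a hZ)
    linarith

/-- Optimality passes to the bonds of the region. -/
theorem region_opt {V : Type} [Fintype V] [DecidableEq V] {G : SimpleGraph V}
    [DecidableRel G.Adj] (hbr : ∀ S : Finset V, S.Nonempty → Sᶜ.Nonempty → 1 ≤ dd G S)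
    {Y : Finset V} (lam : V → V → ℝ) (hsymm : ∀ u v, lam u v = lam v u) (D' : Finset V)
    (hb : ∀ Z, RBond G Y id Z → Zᶜ.Nonempty →
      (∀ E, E ⊆ D' → dd G Z ≤ dd G (symmDiff Z E)) → ∑ p ∈ cut G Z, lam p.1 p.2 ≤ 0)
    (S : Finset V) (hSY : S ⊆ Y) (hS : ∀ E, E ⊆ D' → dd G S ≤ dd G (symmDiff S E)) :
    ∑ p ∈ cut G S, lam p.1 p.2 ≤ 0 := by
  refine region_opt_list (fun S _ => hbr S) (fun _ _ => 1) (fun _ _ => rfl)
    (fun _ _ => zero_le_one) lam hsymm D' ?_ S hSY ?_
  · intro Z h1 h2 h3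
    refine hb Z h1 h2 fun E hE => ?_
    have := h3 E hE
    rw [bs_one, bs_one] at this
    exact_mod_cast this
  · intro E hE
    rw [bs_one, bs_one]
    exact_mod_cast hS E hE

end Pool.Agent.K5
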