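import Mathlib
import Pool.Agent.Work.MP_974d84_co_k5.Words
import Pool.Agent.Work.MP_974d84_co_k5.PairingW

/-!
# Route W, assembly: two reserved defects for every gadget
-/

set_option linter.unusedSectionVars false

namespace Pool.Agent.K5

open Finset SimpleGraph Pool.Agent.Exp Pool.Agent.Log5 Pool.Agent.Log5.Clu

variable {V : Type} [Fintype V] [DecidableEq V] {G : SimpleGraph V} [DecidableRel G.Adj]
  {μ : V → V} {π : Equiv.Perm V}

/-- The zone of a window which starts near `v` lies near `v`. -/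
theorem zone_sub (hf : Frame G μ π) {R q m M n : ℕ} (hm : m ≤ M) (hn : M + 2 * q + R ≤ n) (v : V) :
    zone G π R q ((π ^ m) v) ⊆ Bl G.Adj n v := by
  intro x hx
  unfold zone at hx
  obtain ⟨j, hj, hx⟩ := mem_biUnion.1 hx
  rw [mem_range] at hj
  have h1 : (π ^ j) ((π ^ m) v) ∈ Bl G.Adj (m + j) v :=
    Bl_comp (pow_mem_Bl hf m v) (pow_mem_Bl hf j _)
  exact Bl_mono (by omega) v (Bl_comp h1 hx)

/-- Two reserved defects for every gadget. -/
theorem reserve (hf : Frame G μ π) {k : ℕ} (hg : Gir G k) {J R q M n : ℕ} (hk : M + 1 < k)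
    {A : Finset V} {y : V → ℤ} (hy : Pattern μ π J q M A y) {Γ : Type} [Fintype Γ]
    [DecidableEq Γ] (hn : M + 2 * q + R ≤ n) (β : Γ → V)
    (hβ : ∀ g g', g ≠ g' → Disjoint (Bl G.Adj n (β g)) (Bl G.Adj n (β g'))) :
    ∃ a₁ a₂ : Γ → V, (∀ g, a₁ g ∈ Dfc π A y) ∧ (∀ g, a₂ g ∈ Dfc π A y) ∧
      (∀ g, zone G π R q (a₁ g) ⊆ Bl G.Adj n (β g)) ∧
      (∀ g, zone G π R q (a₂ g) ⊆ Bl G.Adj n (β g)) ∧
      Function.Injective a₁ ∧ Function.Injective a₂ ∧ (∀ g g', a₁ g ≠ a₂ g') ∧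
      Even (Dfc π A y \ (univ.image a₁ ∪ univ.image a₂)).card ∧
      ∀ f : V → ℝ, ∑ a ∈ Dfc π A y, f a =
        ∑ a ∈ Dfc π A y \ (univ.image a₁ ∪ univ.image a₂), f a + ∑ g, (f (a₁ g) + f (a₂ g)) := by
  choose i j hij hjM hi hj using fun g => hy.near (β g)
  set a₁ : Γ → V := fun g => (π ^ i g) (β g) with ha₁
  set a₂ : Γ → V := fun g => (π ^ j g) (β g) with ha₂
  have hz₁ : ∀ g, zone G π R q (a₁ g) ⊆ Bl G.Adj n (β g) := fun g =>
    zone_sub hf ((hij g).le.trans (hjM g).le) hn _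
  have hz₂ : ∀ g, zone G π R q (a₂ g) ⊆ Bl G.Adj n (β g) := fun g =>
    zone_sub hf (hjM g).le hn _
  have hself : ∀ a : V, a ∈ zone G π R q a := by
    intro a
    unfold zone
    exact mem_biUnion.2 ⟨0, mem_range.2 (by omega), by simpa using Bl_self R a⟩
  have h1 : ∀ g, a₁ g ∈ Bl G.Adj n (β g) := fun g => hz₁ g (hself _)
  have h2 : ∀ g, a₂ g ∈ Bl G.Adj n (β g) := fun g => hz₂ g (hself _)
  have hsame : ∀ g, a₁ g ≠ a₂ g := by
    intro g h
    have e1 : (π ^ j g) (β g) = (π ^ (j g - i g)) ((π ^ i g) (β g)) := by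
      rw [← Equiv.Perm.mul_apply, ← pow_add, Nat.sub_add_cancel (hij g).le]
    have e2 : (π ^ (j g - i g)) ((π ^ i g) (β g)) = (π ^ i g) (β g) := by
      rw [← e1]
      exact h.symm
    have := hij g
    have := hjM g
    exact pow_ne hf hg (n := j g - i g) (by omega) (by omega) _ e2
  have inj₁ : Function.Injective a₁ := by
    intro g g' h
    by_contra hne
    exact Finset.disjoint_left.1 (hβ g g' hne) (h1 g) (by rw [h]; exact h1 g')
  have inj₂ : Function.Injective a₂ := by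
    intro g g' h
    by_contra hne
    exact Finset.disjoint_left.1 (hβ g g' hne) (h2 g) (by rw [h]; exact h2 g')
  have hne : ∀ g g', a₁ g ≠ a₂ g' := by
    intro g g' h
    by_cases hgg : g = g'
    · subst hgg
      exact hsame g h
    · exact Finset.disjoint_left.1 (hβ g g' hgg) (h1 g) (by rw [h]; exact h2 g')
  have hdisj : Disjoint (univ.image a₁) (univ.image a₂) := by
    rw [Finset.disjoint_left]
    intro x hx hx'
    obtain ⟨g, -, rfl⟩ := mem_image.1 hx
    obtain ⟨g', -, h⟩ := mem_image.1 hx'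
    exact hne g g' h.symm
  have hsub : univ.image a₁ ∪ univ.image a₂ ⊆ Dfc π A y := by
    intro x hx
    rcases mem_union.1 hx with h | h
    · obtain ⟨g, -, rfl⟩ := mem_image.1 h
      exact hi g
    · obtain ⟨g, -, rfl⟩ := mem_image.1 h
      exact hj g
  refine ⟨a₁, a₂, hi, hj, hz₁, hz₂, inj₁, inj₂, hne, ?_, fun f => ?_⟩
  · have e1 := even_dfc hf hy
    have e2 : (univ.image a₁ ∪ univ.image a₂).card = Fintype.card Γ + Fintype.card Γ := by
      rw [card_union_of_disjoint hdisj, card_image_of_injective _ inj₁,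
        card_image_of_injective _ inj₂, card_univ]
    have e3 := card_sdiff_add_card_eq_card hsub
    rw [e2] at e3
    rw [← e3] at e1
    rcases e1 with ⟨t, ht⟩
    exact ⟨t - Fintype.card Γ, by omega⟩
  · rw [← sum_sdiff hsub, sum_union hdisj, sum_image fun g _ g' _ h => inj₁ h,
      sum_image fun g _ g' _ h => inj₂ h, sum_add_distrib]

/-- The signs of all defects from the signs of the free ones and of the reserved ones. -/
theorem glue_signs {Γ : Type} [Fintype Γ] [DecidableEq Γ] {a₁ a₂ : Γ → V}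
    (inj₁ : Function.Injective a₁) (inj₂ : Function.Injective a₂) (hne : ∀ g g', a₁ g ≠ a₂ g')
    (ε : V → ℤ) (hε : ∀ v, ε v = 1 ∨ ε v = -1) (s₁ s₂ : Γ → ℤ) (h₁ : ∀ g, s₁ g = 1 ∨ s₁ g = -1)
    (h₂ : ∀ g, s₂ g = 1 ∨ s₂ g = -1) : ∃ ε' : V → ℤ, (∀ v, ε' v = 1 ∨ ε' v = -1) ∧
      (∀ g, ε' (a₁ g) = s₁ g) ∧ (∀ g, ε' (a₂ g) = s₂ g) ∧
      ∀ v, v ∉ univ.image a₁ ∪ univ.image a₂ → ε' v = ε v := by
  classical
  refine ⟨fun v => if h : ∃ g, a₁ g = v then s₁ h.choose else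
    if h : ∃ g, a₂ g = v then s₂ h.choose else ε v, fun v => ?_, fun g => ?_, fun g => ?_,
    fun v hv => ?_⟩
  · dsimp only
    split_ifs with h h'
    · exact h₁ _
    · exact h₂ _
    · exact hε v
  · have h : ∃ g', a₁ g' = a₁ g := ⟨g, rfl⟩
    dsimp only
    rw [dif_pos h, inj₁ h.choose_spec]
  · have h : ∃ g', a₂ g' = a₂ g := ⟨g, rfl⟩
    have h' : ¬ ∃ g', a₁ g' = a₂ g := fun ⟨g', e⟩ => hne g' g e
    dsimp only
    rw [dif_neg h', dif_pos h, inj₂ h.choose_spec]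
  · have h : ¬ ∃ g, a₁ g = v := fun ⟨g, e⟩ => hv (mem_union_left _ (by
      rw [← e]
      exact mem_image_of_mem _ (mem_univ _)))
    have h' : ¬ ∃ g, a₂ g = v := fun ⟨g, e⟩ => hv (mem_union_right _ (by
      rw [← e]
      exact mem_image_of_mem _ (mem_univ _)))
    dsimp only
    rw [dif_neg h, dif_neg h']

end Pool.Agent.K5
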