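import Mathlib

/-!
# Rounding a real vector by rounds of signs (linear discrepancy by hereditary discrepancy)
-/

set_option linter.unusedSectionVars false

namespace Pool.Agent.K5

open Finset

namespace RoundE

variable {ι κ : Type*} [DecidableEq ι]

theorem even_sum_odd (F : Finset ι) (g : ι → ℤ) (h : ∀ t ∈ F, Odd (g t)) :
    Even (∑ t ∈ F, g t) ↔ Even F.card := by
  induction F using Finset.induction_on with
  | empty => simp
  | insert t F ht IH =>
    have h1 : Odd (g t) := h t (mem_insert_self _ _)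
    rw [sum_insert ht, card_insert_of_notMem ht, Int.even_add, Nat.even_add_one,
      IH fun u hu => h u (mem_insert_of_mem hu)]
    have h2 : ¬ Even (g t) := by rwa [Int.not_even_iff_odd]
    tauto

/-- the dyadic rounds -/
theorem rounds (T : Finset ι) (μ : κ → ι → ℝ) (B : κ → ℝ)
    (hsig : ∀ T' ⊆ T, Even T'.card → ∃ ε : ι → ℤ, (∀ t, ε t = 1 ∨ ε t = -1) ∧
      ∑ t ∈ T', ε t = 0 ∧ ∀ x, |∑ t ∈ T', (ε t : ℝ) * μ x t| ≤ B x)
    (s : ι → ℤ) (hs : ∀ t, s t = 1 ∨ s t = -1) (Q : ℤ) (i : ℕ) :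
    ∀ m : ι → ℤ, (∀ t, 0 ≤ m t ∧ m t ≤ 2 ^ i) → ∑ t ∈ T, s t * m t = Q * 2 ^ i →
      ∃ n : ι → ℤ, (∀ t, n t = 0 ∨ n t = 1) ∧ ∑ t ∈ T, s t * n t = Q ∧
        ∀ x, |∑ t ∈ T, (s t : ℝ) * ((m t : ℝ) / 2 ^ i - n t) * μ x t| ≤
          (1 - 1 / 2 ^ i) * B x := by
  induction i with
  | zero =>
    intro m hm hQ
    refine ⟨m, fun t => ?_, by simpa using hQ, fun x => ?_⟩
    · have := hm t
      simp only [pow_zero] at this
      omega
    · simp
  | succ i ih =>
    intro m hm hQ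
    set T' := T.filter fun t => Odd (m t) with hT'
    have hev : Even T'.card := by
      have h1 : Even (∑ t ∈ T, s t * m t) := by
        rw [hQ, pow_succ]
        exact ⟨Q * 2 ^ i, by ring⟩
      have h2 : (∑ t ∈ T, s t * m t) = ∑ t ∈ T', s t * m t +
          ∑ t ∈ T.filter (fun t => ¬ Odd (m t)), s t * m t := by
        rw [hT', sum_filter_add_sum_filter_not]
      have h3 : Even (∑ t ∈ T.filter (fun t => ¬ Odd (m t)), s t * m t) := by
        apply Finset.even_sum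
        intro t ht
        have := (mem_filter.1 ht).2
        rw [Int.not_odd_iff_even] at this
        exact this.mul_left _
      have h4 : Even (∑ t ∈ T', s t * m t) := by
        rw [h2, Int.even_add] at h1
        exact h1.2 h3
      refine (even_sum_odd T' (fun t => s t * m t) fun t ht => ?_).1 h4
      have h7 := (mem_filter.1 ht).2
      rcases hs t with h | h
      · simp only [h, one_mul]; exact h7
      · simp only [h, neg_one_mul]; exact h7.neg
    obtain ⟨ε, hε, hε0, hεx⟩ := hsig T' (filter_subset _ _) hev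
    have hss : ∀ t, s t * s t = 1 := fun t => by rcases hs t with h | h <;> rw [h] <;> norm_num
    -- the numerators of the next level
    have hdiv : ∀ t, ∃ p : ℤ, 2 * p = m t + (if Odd (m t) then s t * ε t else 0) := by
      intro t
      split_ifs with h
      · obtain ⟨q, hq⟩ := h
        rcases hs t with h1 | h1 <;> rcases hε t with h2 | h2 <;> rw [h1, h2, hq]
        · exact ⟨q + 1, by ring⟩
        · exact ⟨q, by ring⟩
        · exact ⟨q, by ring⟩
        · exact ⟨q + 1, by ring⟩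
      · rw [Int.not_odd_iff_even] at h
        obtain ⟨q, hq⟩ := h
        exact ⟨q, by omega⟩
    choose p hp using hdiv
    have hp2 : ∀ t, 0 ≤ p t ∧ p t ≤ 2 ^ i := by
      intro t
      have h1 := hp t
      have h2 := hm t
      rw [pow_succ] at h2
      split_ifs at h1 with h
      · obtain ⟨q, hq⟩ := h
        have h3 : s t * ε t = 1 ∨ s t * ε t = -1 := by
          rcases hs t with h1 | h1 <;> rcases hε t with h2 | h2 <;> rw [h1, h2] <;> norm_num
        rcases h3 with h3 | h3 <;> rw [h3] at h1 <;> omega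
      · omega
    have hpQ : ∑ t ∈ T, s t * p t = Q * 2 ^ i := by
      have h1 : 2 * ∑ t ∈ T, s t * p t = ∑ t ∈ T, s t * m t +
          ∑ t ∈ T, (if Odd (m t) then ε t else 0) := by
        rw [mul_sum, ← sum_add_distrib]
        refine sum_congr rfl fun t _ => ?_
        have h2 := hp t
        calc 2 * (s t * p t) = s t * (2 * p t) := by ring
          _ = s t * m t + (if Odd (m t) then ε t else 0) := by
              rw [h2, mul_add]
              congr 1
              split_ifs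
              · rw [← mul_assoc, hss, one_mul]
              · simp
      rw [← sum_filter, ← hT', hε0, add_zero, hQ, pow_succ] at h1
      linarith
    obtain ⟨n, hn, hnQ, hnx⟩ := ih p hp2 hpQ
    refine ⟨n, hn, hnQ, fun x => ?_⟩
    have h2i : (0 : ℝ) < 2 ^ i := by positivity
    have key : ∑ t ∈ T, (s t : ℝ) * ((m t : ℝ) / 2 ^ (i + 1) - n t) * μ x t =
        ∑ t ∈ T, (s t : ℝ) * ((p t : ℝ) / 2 ^ i - n t) * μ x t -
          1 / 2 ^ (i + 1) * ∑ t ∈ T', (ε t : ℝ) * μ x t := by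
      rw [hT', sum_filter, mul_sum, ← sum_sub_distrib]
      refine sum_congr rfl fun t _ => ?_
      have h1 : (2 : ℝ) * p t = m t + (if Odd (m t) then (s t : ℝ) * ε t else 0) := by
        have h2 := hp t
        have h3 : ((2 * p t : ℤ) : ℝ) = ((m t + (if Odd (m t) then s t * ε t else 0) : ℤ) : ℝ) := by
          rw [h2]
        push_cast at h3
        rw [h3]
      have hsr : (s t : ℝ) * s t = 1 := by exact_mod_cast hss t
      have h4 : (p t : ℝ) / 2 ^ i = (m t : ℝ) / 2 ^ (i + 1) +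
          1 / 2 ^ (i + 1) * (if Odd (m t) then (s t : ℝ) * ε t else 0) := by
        rw [pow_succ]
        field_simp
        linarith
      rw [h4]
      split_ifs
      · have h5 : (s t : ℝ) * (1 / 2 ^ (i + 1) * ((s t : ℝ) * ε t)) =
            1 / 2 ^ (i + 1) * ε t := by
          calc (s t : ℝ) * (1 / 2 ^ (i + 1) * ((s t : ℝ) * ε t)) =
              ((s t : ℝ) * s t) * (1 / 2 ^ (i + 1) * ε t) := by ring
            _ = _ := by rw [hsr, one_mul]
        linear_combination (-μ x t) * h5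
      · ring
    rw [key]
    have h1 := hnx x
    have h2 := hεx x
    have h3 : |1 / 2 ^ (i + 1) * ∑ t ∈ T', (ε t : ℝ) * μ x t| ≤ 1 / 2 ^ (i + 1) * B x := by
      rw [abs_mul, abs_of_pos (by positivity : (0 : ℝ) < 1 / 2 ^ (i + 1))]
      exact mul_le_mul_of_nonneg_left h2 (by positivity)
    have h4 : (1 - 1 / 2 ^ i) * B x + 1 / 2 ^ (i + 1) * B x = (1 - 1 / 2 ^ (i + 1)) * B x := by
      rw [pow_succ]
      field_simp
      ring
    calc _ ≤ |∑ t ∈ T, (s t : ℝ) * ((p t : ℝ) / 2 ^ i - n t) * μ x t| +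
          |1 / 2 ^ (i + 1) * ∑ t ∈ T', (ε t : ℝ) * μ x t| := abs_sub _ _
      _ ≤ _ := by rw [← h4]; exact add_le_add h1 h3

/-- integers near real numbers with the same sum -/
theorem exists_int (T : Finset ι) (b : ι → ℝ) (N : ℤ) (hN : ∑ t ∈ T, b t = N) :
    ∃ c : ι → ℤ, (∀ t, ⌊b t⌋ ≤ c t ∧ c t ≤ ⌈b t⌉) ∧ ∑ t ∈ T, c t = N := by
  set P := T.filter fun t => ⌊b t⌋ ≠ ⌈b t⌉ with hP
  have h1 : ∀ t, ⌊b t⌋ ≤ ⌈b t⌉ := fun t => Int.floor_le_ceil _
  have h2 : ∀ t, ⌈b t⌉ ≤ ⌊b t⌋ + 1 := fun t => Int.ceil_le_floor_add_one _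
  have h3 : ∑ t ∈ T, ⌊b t⌋ ≤ N := by
    have : (∑ t ∈ T, (⌊b t⌋ : ℝ)) ≤ ∑ t ∈ T, b t := sum_le_sum fun t _ => Int.floor_le _
    rw [hN] at this
    exact_mod_cast this
  have h4 : N ≤ ∑ t ∈ T, ⌊b t⌋ + P.card := by
    have h5 : ∑ t ∈ T, b t ≤ ∑ t ∈ T, (⌈b t⌉ : ℝ) := sum_le_sum fun t _ => Int.le_ceil _
    rw [hN] at h5
    have h6 : N ≤ ∑ t ∈ T, ⌈b t⌉ := by exact_mod_cast h5
    refine h6.trans ?_
    rw [hP, card_filter]
    push_cast
    rw [← sum_add_distrib]
    refine sum_le_sum fun t _ => ?_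
    split_ifs with h
    · exact h2 t
    · push Not at h
      rw [h, add_zero]
  obtain ⟨F, hF, hFc⟩ := Finset.exists_subset_card_eq (s := P)
    (n := (N - ∑ t ∈ T, ⌊b t⌋).toNat) (by omega)
  refine ⟨fun t => ⌊b t⌋ + if t ∈ F then 1 else 0, fun t => ?_, ?_⟩
  · show ⌊b t⌋ ≤ ⌊b t⌋ + (if t ∈ F then 1 else 0) ∧ ⌊b t⌋ + (if t ∈ F then 1 else 0) ≤ ⌈b t⌉
    split_ifs with h
    · have h5 := (mem_filter.1 (hF h)).2
      have h6 := h1 t
      have h7 := h2 t
      constructor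
      · linarith
      · omega
    · have := h1 t
      omega
  · rw [sum_add_distrib, sum_ite_mem, inter_eq_right.2 (hF.trans (filter_subset _ _))]
    simp only [sum_const, nsmul_eq_mul, mul_one, hFc]
    rw [Int.toNat_of_nonneg (by linarith)]
    ring

end RoundE

/-- **Linear discrepancy.** If every even subfamily of the tokens `T` has signs with total `0` and
small sums for all tests `x`, then every real vector with values in `[0, 1]` and integral signed
total can be rounded to `0` and `1` with the same bound. -/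
theorem round_e {ι κ : Type*} [DecidableEq ι] (T : Finset ι) (μ : κ → ι → ℝ) (B : κ → ℝ)
    (hμ : ∀ x t, |μ x t| ≤ 1)
    (hsig : ∀ T' ⊆ T, Even T'.card → ∃ ε : ι → ℤ, (∀ t, ε t = 1 ∨ ε t = -1) ∧
      ∑ t ∈ T', ε t = 0 ∧ ∀ x, |∑ t ∈ T', (ε t : ℝ) * μ x t| ≤ B x)
    (s : ι → ℤ) (hs : ∀ t, s t = 1 ∨ s t = -1) (a : ι → ℝ) (ha : ∀ t, 0 ≤ a t ∧ a t ≤ 1)
    (Q : ℤ) (hQ : ∑ t ∈ T, (s t : ℝ) * a t = Q) {δ : ℝ} (hδ : 0 < δ) :
    ∃ n : ι → ℤ, (∀ t, n t = 0 ∨ n t = 1) ∧ ∑ t ∈ T, s t * n t = Q ∧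
      ∀ x, |∑ t ∈ T, (s t : ℝ) * (a t - n t) * μ x t| ≤ B x + δ := by
  obtain ⟨L, hL⟩ : ∃ L : ℕ, (T.card : ℝ) / 2 ^ L ≤ δ := by
    obtain ⟨L, hL⟩ := pow_unbounded_of_one_lt ((T.card : ℝ) / δ) (one_lt_two)
    refine ⟨L, ?_⟩
    rw [div_le_iff₀ (by positivity)]
    rw [div_lt_iff₀ hδ] at hL
    linarith
  obtain ⟨c, hc, hcN⟩ := RoundE.exists_int T (fun t => (s t : ℝ) * (2 ^ L * a t)) (Q * 2 ^ L) (by
    push_cast
    rw [← hQ, sum_mul]
    exact sum_congr rfl fun t _ => by ring)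
  have hss : ∀ t, s t * s t = 1 := fun t => by rcases hs t with h | h <;> rw [h] <;> norm_num
  have hpos : (0 : ℝ) < 2 ^ L := by positivity
  have hB : ∀ x, 0 ≤ B x := by
    intro x
    obtain ⟨ε, _, _, h⟩ := hsig ∅ (empty_subset _) (by simp)
    simpa using h x
  obtain ⟨n, hn, hnQ, hnx⟩ := RoundE.rounds T μ B hsig s hs Q L (fun t => s t * c t) (by
    intro t
    have h1 := hc t
    have h2 := ha t
    have h3 : 0 ≤ 2 ^ L * a t := by nlinarith [h2.1]
    have h4 : 2 ^ L * a t ≤ 2 ^ L := by nlinarith [h2.2]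
    rcases hs t with h | h
    · rw [h] at h1 ⊢
      simp only [Int.cast_one, one_mul] at h1 ⊢
      constructor
      · exact (Int.floor_nonneg.2 h3).trans h1.1
      · refine h1.2.trans (Int.ceil_le.2 ?_)
        push_cast
        exact h4
    · rw [h] at h1 ⊢
      simp only [Int.cast_neg, Int.cast_one, neg_mul, one_mul] at h1 ⊢
      rw [Int.floor_neg, Int.ceil_neg] at h1
      constructor
      · have := (Int.floor_nonneg.2 h3)
        linarith [h1.2]
      · have h5 : ⌈2 ^ L * a t⌉ ≤ 2 ^ L := Int.ceil_le.2 (by push_cast; exact h4)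
        linarith [h1.1]) (by
    rw [← hcN]
    exact sum_congr rfl fun t _ => by rw [← mul_assoc, hss, one_mul])
  refine ⟨n, hn, hnQ, fun x => ?_⟩
  have h1 : ∑ t ∈ T, (s t : ℝ) * (a t - n t) * μ x t =
      ∑ t ∈ T, (s t : ℝ) * (((s t * c t : ℤ) : ℝ) / 2 ^ L - n t) * μ x t +
        ∑ t ∈ T, ((s t : ℝ) * (2 ^ L * a t) - c t) / 2 ^ L * μ x t := by
    rw [← sum_add_distrib]
    refine sum_congr rfl fun t _ => ?_
    have hsr : (s t : ℝ) * s t = 1 := by exact_mod_cast hss t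
    push_cast
    have h2 : (s t : ℝ) * ((s t : ℝ) * c t / 2 ^ L) = c t / 2 ^ L := by
      calc (s t : ℝ) * ((s t : ℝ) * c t / 2 ^ L) = ((s t : ℝ) * s t) * c t / 2 ^ L := by ring
        _ = _ := by rw [hsr, one_mul]
    have h3 : ((s t : ℝ) * (2 ^ L * a t) - c t) / 2 ^ L = (s t : ℝ) * a t - c t / 2 ^ L := by
      field_simp
    rw [h3]
    linear_combination (-μ x t) * h2
  have h2 : |∑ t ∈ T, ((s t : ℝ) * (2 ^ L * a t) - c t) / 2 ^ L * μ x t| ≤ δ := by
    refine le_trans (abs_sum_le_sum_abs _ _) (le_trans (sum_le_sum (g := fun _ => 1 / 2 ^ L)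
      fun t _ => ?_) ?_)
    · rw [abs_mul, abs_div, abs_of_pos hpos]
      have h3 : |(s t : ℝ) * (2 ^ L * a t) - c t| ≤ 1 := by
        have h4 := hc t
        have h5 : ((⌊(s t : ℝ) * (2 ^ L * a t)⌋ : ℤ) : ℝ) ≤ c t := by exact_mod_cast h4.1
        have h6 : (c t : ℝ) ≤ ⌈(s t : ℝ) * (2 ^ L * a t)⌉ := by exact_mod_cast h4.2
        have h7 := Int.sub_one_lt_floor ((s t : ℝ) * (2 ^ L * a t))
        have h8 := Int.ceil_lt_add_one ((s t : ℝ) * (2 ^ L * a t))
        rw [abs_le]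
        constructor <;> linarith
      calc |(s t : ℝ) * (2 ^ L * a t) - c t| / 2 ^ L * |μ x t| ≤ 1 / 2 ^ L * 1 := by
            apply mul_le_mul _ (hμ x t) (abs_nonneg _) (by positivity)
            exact div_le_div_of_nonneg_right h3 hpos.le
        _ = 1 / 2 ^ L := mul_one _
    · rw [sum_const, nsmul_eq_mul]
      calc (T.card : ℝ) * (1 / 2 ^ L) = (T.card : ℝ) / 2 ^ L := by ring
        _ ≤ δ := hL
  have h3 := hnx x
  have h4 : (1 - 1 / 2 ^ L) * B x ≤ B x := by
    have : (0 : ℝ) ≤ 1 / 2 ^ L := by positivity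
    nlinarith [hB x]
  rw [h1]
  calc _ ≤ _ + _ := abs_add_le _ _
    _ ≤ B x + δ := add_le_add (h3.trans h4) h2

end Pool.Agent.K5
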