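import Mathlib

/-!
# Rounding by levels (abstract part of the signs with targets)
-/

set_option linter.unusedSectionVars false

namespace Pool.Agent.K5

open Finset

section

variable {V : Type} [DecidableEq V]

/-- Dyadic approximation with the right sum. -/
theorem dyadic_approx (T : Finset V) (ρ : V → ℝ) (h0 : ∀ a ∈ T, 0 ≤ ρ a) (h1 : ∀ a ∈ T, ρ a ≤ 1)
    (n : ℤ) (hn : ∑ a ∈ T, ρ a = n) (L : ℕ) : ∃ x : V → ℤ, (∀ a ∈ T, 0 ≤ x a) ∧
      (∀ a ∈ T, x a ≤ 2 ^ L) ∧ (∀ a ∈ T, |ρ a - x a / 2 ^ L| ≤ 1 / 2 ^ L) ∧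
      ∑ a ∈ T, x a = n * 2 ^ L := by
  classical
  set f : V → ℤ := fun a => ⌊ρ a * 2 ^ L⌋ with hf
  have hP : (0 : ℝ) < 2 ^ L := by positivity
  have hf1 : ∀ a, (f a : ℝ) ≤ ρ a * 2 ^ L := fun a => Int.floor_le _
  have hf2 : ∀ a, ρ a * 2 ^ L < f a + 1 := fun a => Int.lt_floor_add_one _
  have hf0 : ∀ a ∈ T, 0 ≤ f a := fun a ha => Int.floor_nonneg.2 (mul_nonneg (h0 a ha) hP.le)
  set Q : Finset V := T.filter fun a => (f a : ℝ) ≠ ρ a * 2 ^ L with hQ
  have hsum : ∑ a ∈ T, (ρ a * 2 ^ L - f a) = ((n * 2 ^ L - ∑ a ∈ T, f a : ℤ) : ℝ) := by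
    rw [sum_sub_distrib, ← sum_mul, hn]
    push_cast
    ring
  have hsumQ : ∑ a ∈ T, (ρ a * 2 ^ L - f a) = ∑ a ∈ Q, (ρ a * 2 ^ L - f a) := by
    rw [hQ, sum_filter]
    refine sum_congr rfl fun a _ => ?_
    by_cases h : (f a : ℝ) ≠ ρ a * 2 ^ L
    · rw [if_pos h]
    · rw [if_neg h]
      push Not at h
      rw [h, sub_self]
  have hm0 : 0 ≤ n * 2 ^ L - ∑ a ∈ T, f a := by
    have : (0 : ℝ) ≤ ((n * 2 ^ L - ∑ a ∈ T, f a : ℤ) : ℝ) := by
      rw [← hsum]
      exact sum_nonneg fun a _ => sub_nonneg.2 (hf1 a)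
    exact_mod_cast this
  have hm1 : n * 2 ^ L - ∑ a ∈ T, f a ≤ Q.card := by
    have : ((n * 2 ^ L - ∑ a ∈ T, f a : ℤ) : ℝ) ≤ Q.card := by
      rw [← hsum, hsumQ, card_eq_sum_ones, Nat.cast_sum]
      refine sum_le_sum fun a _ => ?_
      have := hf2 a
      push_cast
      linarith
    exact_mod_cast this
  obtain ⟨m, hm⟩ := Int.eq_ofNat_of_zero_le hm0
  obtain ⟨Q', hQ', hQc⟩ := exists_subset_card_eq (s := Q) (n := m) (by rw [hm] at hm1; exact_mod_cast hm1)
  refine ⟨fun a => f a + if a ∈ Q' then 1 else 0, ?_, ?_, ?_, ?_⟩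
  · intro a ha
    have := hf0 a ha
    beta_reduce
    split_ifs <;> omega
  · intro a ha
    beta_reduce
    split_ifs with h
    · have h2 := (mem_filter.1 (hQ' h)).2
      have h3 : (f a : ℝ) < 2 ^ L := by
        refine lt_of_lt_of_le (lt_of_le_of_ne (hf1 a) h2) ?_
        have := mul_le_mul_of_nonneg_right (h1 a ha) hP.le
        linarith
      have h4 : f a < 2 ^ L := by exact_mod_cast h3
      omega
    · have h3 : (f a : ℝ) ≤ 2 ^ L := by
        have := mul_le_mul_of_nonneg_right (h1 a ha) hP.le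
        have := hf1 a
        linarith
      have h4 : f a ≤ 2 ^ L := by exact_mod_cast h3
      omega
  · intro a _
    have h3 := hf1 a
    have h4 := hf2 a
    have h5 : ρ a - ((f a + if a ∈ Q' then 1 else 0 : ℤ) : ℝ) / 2 ^ L =
        (ρ a * 2 ^ L - ((f a + if a ∈ Q' then 1 else 0 : ℤ) : ℝ)) / 2 ^ L := by
      field_simp
    rw [h5, abs_div, abs_of_pos hP]
    refine div_le_div_of_nonneg_right ?_ hP.le
    rw [abs_le]
    push_cast
    split_ifs <;> constructor <;> linarith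
  · rw [sum_add_distrib, sum_ite_mem, inter_eq_right.2 (hQ'.trans (filter_subset _ _))]
    simp only [sum_const, nsmul_eq_mul, mul_one, hQc]
    have : n * 2 ^ L - ∑ a ∈ T, f a = m := hm
    linarith

/-- Rounding of dyadic numbers, level by level. -/
theorem round_dyadic {ι : Type} (T : Finset V) (F : ι → V → ℝ) (D : ι → ℝ) {β : ℝ}
    (H : ∀ T' ⊆ T, Even T'.card → ∃ ε : V → ℤ, (∀ v, ε v = 1 ∨ ε v = -1) ∧
      ∑ a ∈ T', ε a = 0 ∧ ∀ i, |∑ a ∈ T', (ε a : ℝ) * F i a| ≤ β * D i) (n : ℤ) (L : ℕ) :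
    ∀ x : V → ℤ, (∀ a ∈ T, 0 ≤ x a) → (∀ a ∈ T, x a ≤ 2 ^ L) → ∑ a ∈ T, x a = n * 2 ^ L →
      ∃ ξ : V → ℤ, (∀ a ∈ T, ξ a = 0 ∨ ξ a = 1) ∧ ∑ a ∈ T, ξ a = n ∧
        ∀ i, |∑ a ∈ T, ((x a : ℝ) / 2 ^ L - ξ a) * F i a| ≤ β * (1 - 1 / 2 ^ L) * D i := by
  classical
  induction L with
  | zero =>
    intro x h0 h1 hs
    refine ⟨x, fun a ha => ?_, by simpa using hs, fun i => ?_⟩
    · have := h0 a ha
      have := h1 a ha
      simp only [pow_zero] at this
      omega
    · simp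
  | succ L ih =>
    intro x h0 h1 hs
    set T' : Finset V := T.filter fun a => Odd (x a) with hT'
    have hT'T : T' ⊆ T := filter_subset _ _
    have hev : Even T'.card := by
      have h2 : Even (∑ a ∈ T, x a) := by
        rw [hs, pow_succ]
        exact ⟨n * 2 ^ L, by ring⟩
      have h3 : ∑ a ∈ T, x a = 2 * ∑ a ∈ T, x a / 2 + (T'.card : ℤ) := by
        rw [hT', card_filter, mul_sum]
        push_cast
        rw [← sum_add_distrib]
        refine sum_congr rfl fun a _ => ?_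
        by_cases h : Odd (x a)
        · rw [if_pos h]
          obtain ⟨k, hk⟩ := h
          omega
        · rw [if_neg h]
          rw [Int.not_odd_iff_even] at h
          obtain ⟨k, hk⟩ := h
          omega
      rw [h3] at h2
      have h4 : Even (T'.card : ℤ) := by
        obtain ⟨k, hk⟩ := h2
        exact ⟨k - ∑ a ∈ T, x a / 2, by omega⟩
      exact_mod_cast h4
    obtain ⟨ε, hε, hε0, hεb⟩ := H T' hT'T hev
    set e : V → ℤ := fun a => if a ∈ T' then ε a else 0 with he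
    have h2 : ∀ a ∈ T, ∃ y : ℤ, x a + e a = 2 * y := by
      intro a ha
      have : Even (x a + e a) := by
        rw [he]
        beta_reduce
        by_cases h : a ∈ T'
        · rw [if_pos h]
          have h3 := (mem_filter.1 h).2
          refine h3.add_odd ?_
          rcases hε a with h | h <;> rw [h] <;> decide
        · rw [if_neg h, add_zero]
          rw [hT', mem_filter] at h
          rw [← Int.not_odd_iff_even]
          exact fun h' => h ⟨ha, h'⟩
      obtain ⟨y, hy⟩ := this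
      exact ⟨y, by omega⟩
    choose! y hy using h2
    have hE : ∀ a ∈ T, e a = 0 ∨ (Odd (x a) ∧ (e a = 1 ∨ e a = -1)) := by
      intro a _
      rw [he]
      beta_reduce
      by_cases h : a ∈ T'
      · rw [if_pos h]
        exact Or.inr ⟨(mem_filter.1 h).2, hε a⟩
      · rw [if_neg h]
        exact Or.inl rfl
    have hsum : ∑ a ∈ T, e a = 0 := by
      rw [he, ← sum_filter]
      rw [show T.filter (fun a => a ∈ T') = T' by
        ext a
        rw [mem_filter]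
        exact ⟨fun h => h.2, fun h => ⟨hT'T h, h⟩⟩]
      exact hε0
    obtain ⟨ξ, hξ1, hξ2, hξ3⟩ := ih y (by
      intro a ha
      have h3 := hy a ha
      have h4 := h0 a ha
      rcases hE a ha with h | ⟨⟨k, hk⟩, h⟩
      · omega
      · rcases h with h | h <;> omega) (by
      intro a ha
      have h3 := hy a ha
      have h4 := h1 a ha
      rw [pow_succ] at h4
      rcases hE a ha with h | ⟨⟨k, hk⟩, h⟩
      · omega
      · rcases h with h | h <;> omega) (by
      have h3 : ∑ a ∈ T, (x a + e a) = ∑ a ∈ T, 2 * y a := sum_congr rfl hy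
      rw [sum_add_distrib, hsum, hs, ← mul_sum, pow_succ] at h3
      linarith)
    refine ⟨ξ, hξ1, hξ2, fun i => ?_⟩
    have h5 : ∑ a ∈ T, ((x a : ℝ) / 2 ^ (L + 1) - ξ a) * F i a =
        ∑ a ∈ T, ((y a : ℝ) / 2 ^ L - ξ a) * F i a -
          1 / 2 ^ (L + 1) * ∑ a ∈ T', (ε a : ℝ) * F i a := by
      have h6 : ∑ a ∈ T', (ε a : ℝ) * F i a = ∑ a ∈ T, (e a : ℝ) * F i a := by
        rw [← sum_subset hT'T]
        · refine sum_congr rfl fun a ha => ?_
          rw [he]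
          beta_reduce
          rw [if_pos ha]
        · intro a _ ha
          rw [he]
          beta_reduce
          rw [if_neg ha]
          simp
      rw [h6, mul_sum, ← sum_sub_distrib]
      refine sum_congr rfl fun a ha => ?_
      have h7 : (x a : ℝ) + e a = 2 * y a := by exact_mod_cast hy a ha
      have h8 : (x a : ℝ) = 2 * y a - e a := by linarith
      rw [h8, pow_succ]
      field_simp
      ring
    rw [h5]
    refine (abs_sub _ _).trans ?_
    have h9 := hξ3 i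
    have h10 := hεb i
    rw [abs_mul, abs_of_pos (by positivity : (0 : ℝ) < 1 / 2 ^ (L + 1))]
    have h11 : 1 / 2 ^ (L + 1) * |∑ a ∈ T', (ε a : ℝ) * F i a| ≤ 1 / 2 ^ (L + 1) * (β * D i) :=
      mul_le_mul_of_nonneg_left h10 (by positivity)
    have h12 : β * (1 - 1 / 2 ^ (L + 1)) * D i =
        β * (1 - 1 / 2 ^ L) * D i + 1 / 2 ^ (L + 1) * (β * D i) := by
      rw [pow_succ]
      field_simp
      ring
    rw [h12]
    exact add_le_add h9 h11

/-- Signs with prescribed mean values, from signs with mean value `0` of all even subsets. -/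
theorem round_signs {ι : Type} (T : Finset V) (F : ι → V → ℝ) (D : ι → ℝ) {β γ : ℝ}
    (hβ : 0 ≤ β) (hγ : 0 < γ) (hD : ∀ i, 1 ≤ D i) (hF : ∀ i, ∀ a ∈ T, |F i a| ≤ 1)
    (H : ∀ T' ⊆ T, Even T'.card → ∃ ε : V → ℤ, (∀ v, ε v = 1 ∨ ε v = -1) ∧
      ∑ a ∈ T', ε a = 0 ∧ ∀ i, |∑ a ∈ T', (ε a : ℝ) * F i a| ≤ β * D i) (τ : V → ℝ)
    (hτ : ∀ a ∈ T, |τ a| ≤ 1) (z : ℤ) (hz : ∑ a ∈ T, τ a = z) (hpar : Even ((T.card : ℤ) + z)) :
    ∃ ε : V → ℤ, (∀ v, ε v = 1 ∨ ε v = -1) ∧ ∑ a ∈ T, ε a = z ∧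
      ∀ i, |∑ a ∈ T, ((ε a : ℝ) - τ a) * F i a| ≤ (2 * β + γ) * D i := by
  classical
  obtain ⟨n, hn⟩ := hpar
  obtain ⟨L, hL⟩ := pow_unbounded_of_one_lt (2 * T.card / γ) (one_lt_two : (1 : ℝ) < 2)
  have hP : (0 : ℝ) < 2 ^ L := by positivity
  have hLγ : 2 * (1 / 2 ^ L * T.card) ≤ γ := by
    rw [div_lt_iff₀ hγ] at hL
    rw [show 2 * (1 / 2 ^ L * (T.card : ℝ)) = 2 * T.card / 2 ^ L by ring, div_le_iff₀ hP]
    linarith
  have hn' : (T.card : ℝ) + z = n + n := by exact_mod_cast hn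
  obtain ⟨x, hx0, hx1, hx2, hx3⟩ := dyadic_approx T (fun a => (1 + τ a) / 2)
    (fun a ha => by have := abs_le.1 (hτ a ha); linarith)
    (fun a ha => by have := abs_le.1 (hτ a ha); linarith) n (by
      rw [← sum_div, sum_add_distrib, sum_const, nsmul_eq_mul, mul_one, hz]
      linarith) L
  obtain ⟨ξ, hξ1, hξ2, hξ3⟩ := round_dyadic T F D H n L x hx0 hx1 hx3
  refine ⟨fun a => if ξ a = 1 then 1 else -1, fun v => ?_, ?_, fun i => ?_⟩
  · beta_reduce
    split_ifs <;> simp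
  · have h1 : ∑ a ∈ T, (if ξ a = 1 then (1 : ℤ) else -1) = ∑ a ∈ T, (2 * ξ a - 1) := by
      refine sum_congr rfl fun a ha => ?_
      rcases hξ1 a ha with h | h <;> rw [h] <;> norm_num
    rw [h1, sum_sub_distrib, ← mul_sum, hξ2, sum_const, nsmul_eq_mul, mul_one]
    linarith
  · have h1 : ∑ a ∈ T, (((if ξ a = 1 then 1 else -1 : ℤ) : ℝ) - τ a) * F i a =
        -(2 * ∑ a ∈ T, ((x a : ℝ) / 2 ^ L - ξ a) * F i a +
          2 * ∑ a ∈ T, ((1 + τ a) / 2 - (x a : ℝ) / 2 ^ L) * F i a) := by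
      rw [mul_sum, mul_sum, ← sum_add_distrib, ← sum_neg_distrib]
      refine sum_congr rfl fun a ha => ?_
      have h2 : ((if ξ a = 1 then 1 else -1 : ℤ) : ℝ) = 2 * ξ a - 1 := by
        rcases hξ1 a ha with h | h <;> rw [h] <;> norm_num
      rw [h2]
      ring
    rw [h1, abs_neg]
    refine (abs_add_le _ _).trans ?_
    have h3 := hξ3 i
    have h4 : |∑ a ∈ T, ((1 + τ a) / 2 - (x a : ℝ) / 2 ^ L) * F i a| ≤ 1 / 2 ^ L * T.card := by
      refine (abs_sum_le_sum_abs _ _).trans ?_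
      have h5 : ∀ a ∈ T, |((1 + τ a) / 2 - (x a : ℝ) / 2 ^ L) * F i a| ≤ 1 / 2 ^ L := by
        intro a ha
        rw [abs_mul]
        have h6 := hx2 a ha
        have h7 := hF i a ha
        have h8 := mul_le_mul h6 h7 (abs_nonneg _) (by positivity)
        linarith
      refine (sum_le_sum h5).trans ?_
      rw [sum_const, nsmul_eq_mul]
      linarith
    have hDi := hD i
    have h6 : β * (1 - 1 / 2 ^ L) * D i ≤ β * D i := by
      have h7 : 1 - 1 / (2 : ℝ) ^ L ≤ 1 := by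
        have : (0 : ℝ) ≤ 1 / 2 ^ L := by positivity
        linarith
      have h8 := mul_le_mul_of_nonneg_left h7 hβ
      have h9 := mul_le_mul_of_nonneg_right h8 (by linarith : (0 : ℝ) ≤ D i)
      linarith
    rw [abs_mul, abs_mul, abs_of_pos (by norm_num : (0 : ℝ) < 2)]
    have h7 : γ * 1 ≤ γ * D i := mul_le_mul_of_nonneg_left hDi hγ.le
    linarith

end

end Pool.Agent.K5
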