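import Mathlib

/-!
# Selection of deletable elements (a theorem of Rado type for partition functions)
-/

set_option linter.unusedSectionVars false

namespace Pool.Agent.K5.Sel

open Finset

section Abstract

variable {E : Type} [DecidableEq E] {L : Type} {D : L → Finset E} {r : L → ℤ}

/-- **Rado's theorem** for a family of pairs `(D P, r P)` closed under meet and join, by Welsh's
argument. -/
theorem rado_aux (meet join : L → L → L)
    (hm : ∀ P Q, D (meet P Q) ⊆ D P ∪ D Q) (hj : ∀ P Q, D (join P Q) ⊆ D P ∩ D Q)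
    (hr : ∀ P Q, r P + r Q ≤ r (meet P Q) + r (join P Q)) (P₀ : L) (hP₀ : D P₀ = ∅)
    (hr₀ : r P₀ = 0) {I : Type} [Fintype I] [DecidableEq I] (n : ℕ) : ∀ (A : I → Finset E),
    (∑ i, (A i).card = n) →
    (∀ (J : Finset I) (P : L), (J.card : ℤ) + r P ≤ ((J.biUnion A ∪ D P).card : ℤ)) →
    ∃ a : I → E, (∀ i, a i ∈ A i) ∧
      ∀ (J : Finset I) (P : L), (J.card : ℤ) + r P ≤ ((J.image a ∪ D P).card : ℤ) := by
  induction n using Nat.strong_induction_on with
  | _ n ih =>
  intro A hA hok
  have hne : ∀ i, 1 ≤ (A i).card := by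
    intro i
    have := hok {i} P₀
    simp only [card_singleton, singleton_biUnion, hP₀, union_empty, hr₀] at this
    omega
  by_cases h1 : ∀ i, (A i).card = 1
  · choose a ha using fun i => card_eq_one.1 (h1 i)
    refine ⟨a, fun i => by rw [ha i]; exact mem_singleton_self _, fun J P => ?_⟩
    have h2 : J.image a = J.biUnion A := by
      ext x
      simp only [mem_image, mem_biUnion]
      constructor
      · rintro ⟨i, hi, rfl⟩
        exact ⟨i, hi, by rw [ha i]; exact mem_singleton_self _⟩
      · rintro ⟨i, hi, hx⟩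
        rw [ha i, mem_singleton] at hx
        exact ⟨i, hi, hx.symm⟩
    rw [h2]
    exact hok J P
  · push Not at h1
    obtain ⟨e, he⟩ := h1
    have he2 : 1 < (A e).card := by
      have := hne e
      omega
    obtain ⟨x, hx, y, hy, hxy⟩ := one_lt_card.1 he2
    -- removing an element keeps the sizes down
    have hsmall : ∀ z ∈ A e, ∑ i, (Function.update A e ((A e).erase z) i).card < n := by
      intro z hz
      rw [← hA]
      refine sum_lt_sum (fun i _ => ?_) ⟨e, mem_univ _, ?_⟩
      · rcases eq_or_ne i e with rfl | h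
        · rw [Function.update_self]
          exact card_le_card (erase_subset _ _)
        · rw [Function.update_of_ne h]
      · rw [Function.update_self]
        exact card_erase_lt_of_mem hz
    have hstep : ∀ z ∈ A e, (∀ (J : Finset I) (P : L), (J.card : ℤ) + r P ≤
        ((J.biUnion (Function.update A e ((A e).erase z)) ∪ D P).card : ℤ)) →
        ∃ a : I → E, (∀ i, a i ∈ A i) ∧
          ∀ (J : Finset I) (P : L), (J.card : ℤ) + r P ≤ ((J.image a ∪ D P).card : ℤ) := by
      intro z hz h
      obtain ⟨a, ha1, ha2⟩ := ih _ (hsmall z hz) _ rfl h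
      refine ⟨a, fun i => ?_, ha2⟩
      have := ha1 i
      rcases eq_or_ne i e with rfl | h
      · rw [Function.update_self] at this
        exact mem_of_mem_erase this
      · rwa [Function.update_of_ne h] at this
    by_contra hcon
    have h2 : ∀ z ∈ A e, ∃ (J : Finset I) (P : L),
        ((J.biUnion (Function.update A e ((A e).erase z)) ∪ D P).card : ℤ) < (J.card : ℤ) + r P := by
      intro z hz
      by_contra h
      push Not at h
      exact hcon (hstep z hz h)
    -- the violators contain `e`
    have h3 : ∀ z ∈ A e, ∃ (J : Finset I) (P : L), e ∈ J ∧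
        ((J.biUnion (Function.update A e ((A e).erase z)) ∪ D P).card : ℤ) < (J.card : ℤ) + r P := by
      intro z hz
      obtain ⟨J, P, h⟩ := h2 z hz
      refine ⟨J, P, ?_, h⟩
      by_contra heJ
      have h4 : J.biUnion (Function.update A e ((A e).erase z)) = J.biUnion A := by
        refine biUnion_congr rfl fun i hi => ?_
        rw [Function.update_of_ne]
        rintro rfl
        exact heJ hi
      rw [h4] at h
      have := hok J P
      omega
    obtain ⟨J1, P1, he1, hv1⟩ := h3 x hx
    obtain ⟨J2, P2, he2', hv2⟩ := h3 y hy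
    set U1 := J1.biUnion (Function.update A e ((A e).erase x)) ∪ D P1 with hU1
    set U2 := J2.biUnion (Function.update A e ((A e).erase y)) ∪ D P2 with hU2
    have h5 : (J1 ∪ J2).biUnion A ∪ D (meet P1 P2) ⊆ U1 ∪ U2 := by
      intro w hw
      rw [mem_union] at hw
      rcases hw with hw | hw
      · rw [mem_biUnion] at hw
        obtain ⟨i, hi, hwi⟩ := hw
        rcases eq_or_ne i e with rfl | hie
        · rcases eq_or_ne w x with rfl | hwx
          · refine mem_union_right _ (mem_union_left _ (mem_biUnion.2 ⟨i, he2', ?_⟩))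
            rw [Function.update_self]
            exact mem_erase.2 ⟨hxy, hwi⟩
          · refine mem_union_left _ (mem_union_left _ (mem_biUnion.2 ⟨i, he1, ?_⟩))
            rw [Function.update_self]
            exact mem_erase.2 ⟨hwx, hwi⟩
        · rcases mem_union.1 hi with h | h
          · refine mem_union_left _ (mem_union_left _ (mem_biUnion.2 ⟨i, h, ?_⟩))
            rwa [Function.update_of_ne hie]
          · refine mem_union_right _ (mem_union_left _ (mem_biUnion.2 ⟨i, h, ?_⟩))
            rwa [Function.update_of_ne hie]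
      · rcases mem_union.1 (hm P1 P2 hw) with h | h
        · exact mem_union_left _ (mem_union_right _ h)
        · exact mem_union_right _ (mem_union_right _ h)
    have h6 : ((J1 ∩ J2).erase e).biUnion A ∪ D (join P1 P2) ⊆ U1 ∩ U2 := by
      intro w hw
      rw [mem_union] at hw
      rcases hw with hw | hw
      · rw [mem_biUnion] at hw
        obtain ⟨i, hi, hwi⟩ := hw
        obtain ⟨hie, hi'⟩ := mem_erase.1 hi
        obtain ⟨hi1, hi2⟩ := mem_inter.1 hi'
        refine mem_inter.2 ⟨mem_union_left _ (mem_biUnion.2 ⟨i, hi1, ?_⟩),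
          mem_union_left _ (mem_biUnion.2 ⟨i, hi2, ?_⟩)⟩
        · rwa [Function.update_of_ne hie]
        · rwa [Function.update_of_ne hie]
      · obtain ⟨h, h'⟩ := mem_inter.1 (hj P1 P2 hw)
        exact mem_inter.2 ⟨mem_union_right _ h, mem_union_right _ h'⟩
    have h7 := hok (J1 ∪ J2) (meet P1 P2)
    have h8 := hok ((J1 ∩ J2).erase e) (join P1 P2)
    have h9 := card_le_card h5
    have h10 := card_le_card h6
    have h11 := card_union_add_card_inter U1 U2
    have h12 := card_union_add_card_inter J1 J2
    have h13 : ((J1 ∩ J2).erase e).card + 1 = (J1 ∩ J2).card :=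
      card_erase_add_one (mem_inter.2 ⟨he1, he2'⟩)
    have h14 := hr P1 P2
    omega

/-- Selection of `q` elements in each group. -/
theorem select_aux (meet join : L → L → L)
    (hm : ∀ P Q, D (meet P Q) ⊆ D P ∪ D Q) (hj : ∀ P Q, D (join P Q) ⊆ D P ∩ D Q)
    (hr : ∀ P Q, r P + r Q ≤ r (meet P Q) + r (join P Q)) (P₀ : L) (hP₀ : D P₀ = ∅)
    (hr₀ : r P₀ = 0) (hD : ∀ P, 2 * r P ≤ (D P).card) {I : Type} [Fintype I] [DecidableEq I]
    (A : I → Finset E) (hA : ∀ i j, i ≠ j → Disjoint (A i) (A j)) (q : ℕ)
    (hq : ∀ i, 2 * q ≤ (A i).card) :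
    ∃ A' : I → Finset E, (∀ i, A' i ⊆ A i) ∧ (∀ i, q ≤ (A' i).card) ∧
      ∀ P, r P ≤ ((D P \ univ.biUnion A').card : ℤ) := by
  have hok : ∀ (J : Finset (I × Fin q)) (P : L),
      (J.card : ℤ) + r P ≤ ((J.biUnion (fun p => A p.1) ∪ D P).card : ℤ) := by
    intro J P
    have h1 : J.card ≤ q * (J.image Prod.fst).card := by
      have h2 : J ⊆ (J.image Prod.fst) ×ˢ (univ : Finset (Fin q)) := by
        intro p hp
        exact mem_product.2 ⟨mem_image_of_mem _ hp, mem_univ _⟩
      have := card_le_card h2
      rw [card_product, card_univ, Fintype.card_fin, mul_comm] at this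
      exact this
    have h3 : J.biUnion (fun p => A p.1) = (J.image Prod.fst).biUnion A := by
      rw [image_biUnion]
    have h4 : ((J.image Prod.fst).biUnion A).card = ∑ i ∈ J.image Prod.fst, (A i).card :=
      card_biUnion fun i _ j _ h => hA i j h
    have h5 : (J.image Prod.fst).card * (2 * q) ≤ ∑ i ∈ J.image Prod.fst, (A i).card := by
      rw [← smul_eq_mul]
      exact card_nsmul_le_sum _ _ _ fun i _ => hq i
    have h6 : ((J.image Prod.fst).biUnion A).card ≤ (J.biUnion (fun p => A p.1) ∪ D P).card := by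
      rw [h3]
      exact card_le_card subset_union_left
    have h7 : (D P).card ≤ (J.biUnion (fun p => A p.1) ∪ D P).card :=
      card_le_card subset_union_right
    have h8 := hD P
    have h9 : 2 * J.card ≤ ((J.image Prod.fst).biUnion A).card := by
      rw [h4]
      calc 2 * J.card ≤ 2 * (q * (J.image Prod.fst).card) := by omega
        _ = (J.image Prod.fst).card * (2 * q) := by ring
        _ ≤ _ := h5
    omega
  obtain ⟨a, ha1, ha2⟩ := rado_aux meet join hm hj hr P₀ hP₀ hr₀ _
    (fun p : I × Fin q => A p.1) rfl hok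
  have hinj : Function.Injective a := by
    have h1 := ha2 univ P₀
    rw [hP₀, union_empty, hr₀, add_zero] at h1
    have h2 : (univ.image a).card = (univ : Finset (I × Fin q)).card :=
      le_antisymm card_image_le (by exact_mod_cast h1)
    intro p p' h
    exact (card_image_iff.1 h2) (mem_coe.2 (mem_univ _)) (mem_coe.2 (mem_univ _)) h
  refine ⟨fun i => univ.image fun j => a (i, j), fun i x hx => ?_, fun i => ?_, fun P => ?_⟩
  · obtain ⟨j, -, rfl⟩ := mem_image.1 hx
    exact ha1 (i, j)
  · rw [card_image_of_injective _ fun j j' h => by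
      have := hinj h
      simpa using this, card_univ, Fintype.card_fin]
  · set J : Finset (I × Fin q) := univ.filter fun p => a p ∈ D P with hJ
    have h1 := ha2 J P
    have h2 : J.image a ∪ D P = D P := by
      rw [union_eq_right]
      intro x hx
      obtain ⟨p, hp, rfl⟩ := mem_image.1 hx
      exact (mem_filter.1 hp).2
    rw [h2] at h1
    have h3 : D P ∩ univ.biUnion (fun i => univ.image fun j => a (i, j)) = J.image a := by
      ext x
      simp only [mem_inter, mem_biUnion, mem_univ, true_and, mem_image, hJ, mem_filter]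
      constructor
      · rintro ⟨hx, i, j, rfl⟩
        exact ⟨(i, j), hx, rfl⟩
      · rintro ⟨p, hp, rfl⟩
        exact ⟨hp, p.1, p.2, rfl⟩
    have h4 : (D P \ univ.biUnion (fun i => univ.image fun j => a (i, j))).card + J.card =
        (D P).card := by
      rw [← card_image_of_injective J hinj, ← h3]
      exact card_sdiff_add_card_inter _ _
    omega

end Abstract

/-! ### Partitions -/

section Partition

variable {W : Type} [Fintype W]

/-- The functions which are constant on the classes. -/
def constOn (P : Setoid W) : Submodule ℚ (W → ℚ) where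
  carrier := {f | ∀ x y, P x y → f x = f y}
  add_mem' := by
    intro f g hf hg x y h
    simp [hf x y h, hg x y h]
  zero_mem' := by
    intro x y _
    rfl
  smul_mem' := by
    intro c f hf x y h
    simp [hf x y h]

/-- The number of classes. -/
noncomputable def np (P : Setoid W) : ℕ := Nat.card (Quotient P)

theorem finrank_constOn (P : Setoid W) : Module.finrank ℚ (constOn P) = np P := by
  classical
  let e : (Quotient P → ℚ) ≃ₗ[ℚ] constOn P :=
    { toFun := fun g => ⟨fun x => g (Quotient.mk P x), fun x y h => by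
        show g _ = g _
        rw [Quotient.sound h]⟩
      map_add' := fun g g' => rfl
      map_smul' := fun c g => rfl
      invFun := fun f => fun z => Quotient.lift (f : W → ℚ) (fun x y h => f.2 x y h) z
      left_inv := fun g => by
        funext z
        induction z using Quotient.inductionOn with
        | _ x => rfl
      right_inv := fun f => by
        ext x
        rfl }
  haveI : Fintype (Quotient P) := Fintype.ofFinite _
  rw [← e.finrank_eq, Module.finrank_fintype_fun_eq_card, np, Nat.card_eq_fintype_card]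

theorem np_add (P Q : Setoid W) : np P + np Q ≤ np (P ⊓ Q) + np (P ⊔ Q) := by
  have h1 := Submodule.finrank_sup_add_finrank_inf_eq (constOn P) (constOn Q)
  have h2 : constOn P ⊔ constOn Q ≤ constOn (P ⊓ Q) := by
    refine sup_le ?_ ?_
    · intro f hf x y h
      exact hf x y h.1
    · intro f hf x y h
      exact hf x y h.2
  have h3 : constOn P ⊓ constOn Q ≤ constOn (P ⊔ Q) := by
    rintro f ⟨hf, hg⟩ x y h
    rw [Setoid.sup_def] at h
    induction h with
    | rel x y h =>
      rcases h with h | h
      · exact hf x y h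
      · exact hg x y h
    | refl x => rfl
    | symm x y _ ih => exact ih.symm
    | trans x y z _ _ ih1 ih2 => exact ih1.trans ih2
  have h4 := Submodule.finrank_mono h2
  have h5 := Submodule.finrank_mono h3
  rw [finrank_constOn] at h4 h5
  rw [finrank_constOn, finrank_constOn] at h1
  omega

theorem np_top [Nonempty W] : np (⊤ : Setoid W) = 1 := by
  rw [np, Nat.card_eq_one_iff_unique]
  constructor
  · constructor
    intro x y
    induction x using Quotient.inductionOn with
    | _ x =>
    induction y using Quotient.inductionOn with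
    | _ y => exact Quotient.sound trivial
  · obtain ⟨w⟩ := ‹Nonempty W›
    exact ⟨Quotient.mk _ w⟩

theorem np_pos [Nonempty W] (P : Setoid W) : 1 ≤ np P := by
  rw [np]
  haveI : Nonempty (Quotient P) := by
    obtain ⟨w⟩ := ‹Nonempty W›
    exact ⟨Quotient.mk _ w⟩
  exact Nat.one_le_iff_ne_zero.2 Nat.card_pos.ne'

variable {E : Type} [Fintype E] [DecidableEq E]

open Classical in
/-- The elements which are not inside one class. -/
noncomputable def crs (inc : E → Finset W) (P : Setoid W) : Finset E :=
  univ.filter fun e => ¬ ∀ x ∈ inc e, ∀ y ∈ inc e, P x y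

theorem mem_crs {inc : E → Finset W} {P : Setoid W} {e : E} :
    e ∈ crs inc P ↔ ¬ ∀ x ∈ inc e, ∀ y ∈ inc e, P x y := by
  classical
  simp [crs]

theorem crs_inf (inc : E → Finset W) (P Q : Setoid W) : crs inc (P ⊓ Q) ⊆ crs inc P ∪ crs inc Q := by
  intro e he
  rw [mem_union, mem_crs, mem_crs]
  rw [mem_crs] at he
  by_contra h
  push Not at h
  exact he fun x hx y hy => ⟨h.1 x hx y hy, h.2 x hx y hy⟩

theorem crs_sup (inc : E → Finset W) (P Q : Setoid W) : crs inc (P ⊔ Q) ⊆ crs inc P ∩ crs inc Q := by
  intro e he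
  rw [mem_inter, mem_crs, mem_crs]
  rw [mem_crs] at he
  refine ⟨fun h => he fun x hx y hy => ?_, fun h => he fun x hx y hy => ?_⟩
  · exact (le_sup_left : P ≤ P ⊔ Q) (h x hx y hy)
  · exact (le_sup_right : Q ≤ P ⊔ Q) (h x hx y hy)

theorem crs_top (inc : E → Finset W) : crs inc (⊤ : Setoid W) = ∅ := by
  rw [eq_empty_iff_forall_notMem]
  intro e he
  exact mem_crs.1 he fun x _ y _ => trivial

/-- **Selection.** If every partition which is coarser than `K` is crossed by many elements, then
half of every group of elements can be chosen such that all chosen elements may be deleted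
together. -/
theorem select [Nonempty W] (inc : E → Finset W) (K : Setoid W) {κ : ℕ}
    (h : ∀ P : Setoid W, K ≤ P → 2 ≤ np P → 2 * κ * np P ≤ (crs inc P).card)
    {I : Type} [Fintype I] [DecidableEq I] (A : I → Finset E)
    (hA : ∀ i j, i ≠ j → Disjoint (A i) (A j)) (q : ℕ) (hq : ∀ i, 2 * q ≤ (A i).card) :
    ∃ A' : I → Finset E, (∀ i, A' i ⊆ A i) ∧ (∀ i, q ≤ (A' i).card) ∧
      ∀ P : Setoid W, K ≤ P → κ * (np P - 1) ≤ (crs inc P \ univ.biUnion A').card := by
  obtain ⟨A', h1, h2, h3⟩ := select_aux (L := {P : Setoid W // K ≤ P}) (D := fun P => crs inc P.1)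
    (r := fun P => (κ : ℤ) * ((np P.1 : ℤ) - 1))
    (fun P Q => ⟨P.1 ⊓ Q.1, le_inf P.2 Q.2⟩) (fun P Q => ⟨P.1 ⊔ Q.1, P.2.trans le_sup_left⟩)
    (fun P Q => crs_inf _ _ _) (fun P Q => crs_sup _ _ _)
    (fun P Q => by
      have := np_add P.1 Q.1
      have h1 : ((np P.1 : ℤ) - 1) + ((np Q.1 : ℤ) - 1) ≤
          ((np (P.1 ⊓ Q.1) : ℤ) - 1) + ((np (P.1 ⊔ Q.1) : ℤ) - 1) := by omega
      have h2 := mul_le_mul_of_nonneg_left h1 (Int.natCast_nonneg κ)
      linarith)
    ⟨⊤, le_top⟩ (crs_top _) (by simp [np_top])
    (fun P => by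
      rcases le_or_gt 2 (np P.1) with h4 | h4
      · have h5 := h P.1 P.2 h4
        have h6 : ((2 * κ * np P.1 : ℕ) : ℤ) ≤ ((crs inc P.1).card : ℤ) := by exact_mod_cast h5
        push_cast at h6
        have h7 : (0 : ℤ) ≤ κ := Int.natCast_nonneg κ
        linarith
      · have h5 := np_pos P.1
        have h6 : np P.1 = 1 := by omega
        rw [h6]
        simp) A hA q hq
  refine ⟨A', h1, h2, fun P hP => ?_⟩
  have h4 := h3 ⟨P, hP⟩
  have h5 := np_pos P
  have h6 : ((κ * (np P - 1) : ℕ) : ℤ) = (κ : ℤ) * ((np P : ℤ) - 1) := by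
    push_cast [Nat.cast_sub h5]
    ring
  have h7 : ((κ * (np P - 1) : ℕ) : ℤ) ≤ ((crs inc P \ univ.biUnion A').card : ℤ) := by
    rw [h6]
    exact h4
  exact_mod_cast h7

/-- **One selection for finitely many hypergraphs.** -/
theorem select_all [Nonempty W] {κ : ℕ} {I : Type} [Fintype I] [DecidableEq I] (N : ℕ)
    (inc : Fin N → E → Finset W) (K : Fin N → Setoid W)
    (h : ∀ ξ, ∀ P : Setoid W, K ξ ≤ P → 2 ≤ np P → 2 * κ * np P ≤ (crs (inc ξ) P).card)
    (A : I → Finset E) (hA : ∀ i j, i ≠ j → Disjoint (A i) (A j))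
    (hq : ∀ i, 2 ^ N ≤ (A i).card) :
    ∃ a : I → E, (∀ i, a i ∈ A i) ∧ ∀ ξ, ∀ P : Setoid W, K ξ ≤ P →
      κ * (np P - 1) ≤ (crs (inc ξ) P \ univ.image a).card := by
  have key : ∀ n ≤ N, ∃ A' : I → Finset E, (∀ i, A' i ⊆ A i) ∧ (∀ i, 2 ^ (N - n) ≤ (A' i).card) ∧
      ∀ ξ : Fin N, ξ.1 < n → ∀ P : Setoid W, K ξ ≤ P →
        κ * (np P - 1) ≤ (crs (inc ξ) P \ univ.biUnion A').card := by
    intro n
    induction n with
    | zero => exact fun _ => ⟨A, fun i => subset_rfl, fun i => by simpa using hq i,
        fun ξ hξ => absurd hξ (Nat.not_lt_zero _)⟩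
    | succ n ih =>
      intro hn
      obtain ⟨A1, h1, h2, h3⟩ := ih (by omega)
      obtain ⟨A2, h4, h5, h6⟩ := select (inc ⟨n, hn⟩) (K ⟨n, hn⟩) (h ⟨n, hn⟩) A1
        (fun i j hij => (hA i j hij).mono (h1 i) (h1 j)) (2 ^ (N - (n + 1))) (fun i => by
          have := h2 i
          rw [← pow_succ']
          have h7 : N - (n + 1) + 1 = N - n := by omega
          rwa [h7])
      refine ⟨A2, fun i => (h4 i).trans (h1 i), h5, fun ξ hξ P hP => ?_⟩
      rcases Nat.lt_succ_iff_lt_or_eq.1 hξ with h7 | h7
      · refine (h3 ξ h7 P hP).trans (card_le_card (sdiff_subset_sdiff subset_rfl ?_))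
        exact biUnion_subset.2 fun i hi => (h4 i).trans (subset_biUnion_of_mem A1 hi)
      · have h8 : ξ = ⟨n, hn⟩ := Fin.ext h7
        subst h8
        exact h6 P hP
  obtain ⟨A', h1, h2, h3⟩ := key N le_rfl
  have h4 : ∀ i, (A' i).Nonempty := by
    intro i
    have := h2 i
    rw [Nat.sub_self, pow_zero] at this
    exact card_pos.1 (by omega)
  choose a ha using h4
  refine ⟨a, fun i => h1 i (ha i), fun ξ P hP => ?_⟩
  refine (h3 ξ ξ.2 P hP).trans (card_le_card (sdiff_subset_sdiff subset_rfl ?_))
  intro x hx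
  obtain ⟨i, -, rfl⟩ := mem_image.1 hx
  exact mem_biUnion.2 ⟨i, mem_univ _, ha i⟩

end Partition

end Pool.Agent.K5.Sel
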