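import Mathlib
import Pool.Agent.Work.MP_974d84_co_k5.DefsW

/-!
# Shifting the defects inside their windows
-/

set_option linter.unusedSectionVars false

namespace Pool.Agent.K5

open Finset SimpleGraph Pool.Agent.Exp Pool.Agent.Log5 Pool.Agent.Log5.Clu

variable {V : Type} [Fintype V] [DecidableEq V]

open Classical in
/-- The labels with the defects shifted to the places `c a`. -/
noncomputable def shf (π : Equiv.Perm V) (A : Finset V) (y : V → ℤ) (c : V → ℕ) (v : V) : ℤ :=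
  if ∃ a ∈ Dfc π A y, ∃ j < c a, v = (π ^ j) a then - y v else y v

theorem mem_zone_self {G : SimpleGraph V} [DecidableRel G.Adj] {π : Equiv.Perm V} {R q : ℕ}
    {a : V} {j : ℕ} (hj : j ≤ 2 * q) : (π ^ j) a ∈ zone G π R q a := by
  unfold zone
  rw [mem_biUnion]
  exact ⟨j, mem_range.2 (by omega), Bl_self R _⟩

/-- Positions in windows are unique. -/
theorem win_uniq {G : SimpleGraph V} [DecidableRel G.Adj] {π : Equiv.Perm V} {R q B : ℕ}
    {A : Finset V} (hA : Win G π R q B A)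
    (hp : ∀ v n, 0 < n → n ≤ 2 * q → (π ^ n) v ≠ v) {a a' : V} (ha : a ∈ A) (ha' : a' ∈ A)
    {i j : ℕ} (hi : i ≤ 2 * q) (hj : j ≤ 2 * q) (h : (π ^ i) a = (π ^ j) a') :
    a = a' ∧ i = j := by
  have h1 : a = a' := by
    by_contra hne
    have h2 := hA.disj a ha a' ha' hne
    exact disjoint_left.1 h2 (mem_zone_self hi) (h ▸ mem_zone_self hj)
  subst h1
  refine ⟨rfl, ?_⟩
  rcases lt_trichotomy i j with hij | hij | hij
  · exfalso
    refine hp a (j - i) (by omega) (by omega) ?_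
    have h3 : (π ^ i) ((π ^ (j - i)) a) = (π ^ i) a := by
      rw [← Equiv.Perm.mul_apply, ← pow_add, Nat.add_sub_cancel' hij.le, ← h]
    exact (π ^ i).injective h3
  · exact hij
  · exfalso
    refine hp a (i - j) (by omega) (by omega) ?_
    have h3 : (π ^ j) ((π ^ (i - j)) a) = (π ^ j) a := by
      rw [← Equiv.Perm.mul_apply, ← pow_add, Nat.add_sub_cancel' hij.le, h]
    exact (π ^ j).injective h3

section

variable {G : SimpleGraph V} [DecidableRel G.Adj] {μ : V → V} {π : Equiv.Perm V} {J R q B M : ℕ}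
  {A : Finset V} {y : V → ℤ} {c : V → ℕ}

theorem shf_sign (hy : Pattern μ π J q M A y) (v : V) :
    shf π A y c v = 1 ∨ shf π A y c v = -1 := by
  unfold shf
  rcases hy.sign v with h | h <;> split_ifs <;> simp [h]

theorem shf_of_not (v : V) (h : ∀ a ∈ A, ∀ j ≤ 2 * q, v ≠ (π ^ j) a)
    (hc : ∀ a ∈ Dfc π A y, 1 ≤ c a ∧ c a ≤ 2 * q) : shf π A y c v = y v := by
  unfold shf
  rw [if_neg]
  rintro ⟨a, ha, j, hj, rfl⟩
  exact h a (mem_filter.1 ha).1 j (by have := (hc a ha).2; omega) rfl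

theorem shf_left (hA : Win G π R q B A)
    (hp : ∀ v n, 0 < n → n ≤ 2 * q → (π ^ n) v ≠ v) (hy : Pattern μ π J q M A y)
    (hc : ∀ a ∈ Dfc π A y, 1 ≤ c a ∧ c a ≤ 2 * q) {a : V} (ha : a ∈ Dfc π A y) :
    shf π A y c ((π ^ (c a - 1)) a) = y ((π ^ c a) a) := by
  have haA := (mem_filter.1 ha).1
  have h1 := hc a ha
  unfold shf
  rw [if_pos ⟨a, ha, c a - 1, by omega, rfl⟩]
  have h2 : (π ^ c a) a = π ((π ^ (c a - 1)) a) := by
    rw [← Equiv.Perm.mul_apply, ← pow_succ', Nat.sub_add_cancel h1.1]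
  rw [h2, hy.alt]
  intro h3
  rw [← h2] at h3
  have h4 := win_uniq hA hp h3 haA (i := 0) (j := c a) (by omega) h1.2 rfl
  omega

theorem shf_right (hA : Win G π R q B A)
    (hp : ∀ v n, 0 < n → n ≤ 2 * q → (π ^ n) v ≠ v)
    (hc : ∀ a ∈ Dfc π A y, 1 ≤ c a ∧ c a ≤ 2 * q) {a : V} (ha : a ∈ Dfc π A y) :
    shf π A y c ((π ^ c a) a) = y ((π ^ c a) a) := by
  unfold shf
  rw [if_neg]
  rintro ⟨a', ha', j, hj, h⟩
  have h1 := hc a ha
  have h2 := hc a' ha'
  obtain ⟨h3, h4⟩ := win_uniq hA hp (mem_filter.1 ha).1 (mem_filter.1 ha').1 h1.2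
    (by omega : j ≤ 2 * q) h
  subst h3
  omega

/-- Away from the defect edges the labels alternate. -/
theorem shf_alt (hA : Win G π R q B A)
    (hp : ∀ v n, 0 < n → n ≤ 2 * q → (π ^ n) v ≠ v) (hy : Pattern μ π J q M A y)
    (hc : ∀ a ∈ Dfc π A y, 1 ≤ c a ∧ c a ≤ 2 * q) {v : V}
    (hv : ∀ a ∈ Dfc π A y, v ≠ (π ^ (c a - 1)) a) :
    shf π A y c (π v) = - shf π A y c v := by
  by_cases h0 : π v ∈ Dfc π A y
  · have h1 : shf π A y c (π v) = - y (π v) := by
      unfold shf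
      rw [if_pos ⟨π v, h0, 0, by have := (hc _ h0).1; omega, by simp⟩]
    have h2 : shf π A y c v = y v := by
      unfold shf
      rw [if_neg]
      rintro ⟨a', ha', j, hj, h⟩
      have h3 := hc a' ha'
      have h4 : π v = (π ^ (j + 1)) a' := by rw [h, ← Equiv.Perm.mul_apply, ← pow_succ']
      obtain ⟨h5, h6⟩ := win_uniq hA hp (mem_filter.1 h0).1 (mem_filter.1 ha').1
        (i := 0) (j := j + 1) (by omega) (by omega) (by simpa using h4)
      omega
    have h3 := (mem_filter.1 h0).2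
    rw [Equiv.symm_apply_apply] at h3
    rw [h1, h2, h3]
  · have hy' : y (π v) = - y v := by
      by_cases h1 : π v ∈ A
      · have h2 : y v ≠ y (π v) := fun h => h0 (mem_filter.2 ⟨h1, by
          rw [Equiv.symm_apply_apply]; exact h⟩)
        rcases hy.sign v with h3 | h3 <;> rcases hy.sign (π v) with h4 | h4 <;> omega
      · exact hy.alt v h1
    have hiff : (∃ a ∈ Dfc π A y, ∃ j < c a, π v = (π ^ j) a) ↔
        ∃ a ∈ Dfc π A y, ∃ j < c a, v = (π ^ j) a := by
      constructor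
      · rintro ⟨a, ha, j, hj, h⟩
        rcases Nat.eq_zero_or_pos j with hj0 | hj0
        · subst hj0
          exfalso
          exact h0 (by simpa using h ▸ ha)
        · refine ⟨a, ha, j - 1, by omega, π.injective ?_⟩
          rw [h, ← Equiv.Perm.mul_apply, ← pow_succ', Nat.sub_add_cancel hj0]
      · rintro ⟨a, ha, j, hj, h⟩
        refine ⟨a, ha, j + 1, ?_, by rw [h, ← Equiv.Perm.mul_apply, ← pow_succ']⟩
        by_contra hcon
        have : j = c a - 1 := by omega
        subst this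
        exact hv a ha h
    unfold shf
    by_cases h1 : ∃ a ∈ Dfc π A y, ∃ j < c a, v = (π ^ j) a
    · rw [if_pos (hiff.2 h1), if_pos h1, hy']
    · rw [if_neg (fun h => h1 (hiff.1 h)), if_neg h1, hy']

theorem shf_sum (hA : Win G π R q B A)
    (hp : ∀ v n, 0 < n → n ≤ 2 * q → (π ^ n) v ≠ v) (hy : Pattern μ π J q M A y)
    (hc : ∀ a ∈ Dfc π A y, 1 ≤ c a ∧ c a ≤ 2 * q) :
    ∑ v, shf π A y c v = ∑ a ∈ Dfc π A y, y ((π ^ c a) a) := by
  have h1 : ∑ v, (shf π A y c v + shf π A y c (π v)) = 2 * ∑ v, shf π A y c v := by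
    rw [sum_add_distrib, Equiv.sum_comp π (fun v => shf π A y c v)]
    ring
  have h2 : ∑ v, (shf π A y c v + shf π A y c (π v)) =
      ∑ v ∈ (Dfc π A y).image fun a => (π ^ (c a - 1)) a,
        (shf π A y c v + shf π A y c (π v)) := by
    symm
    refine sum_subset (subset_univ _) fun v _ hv => ?_
    rw [shf_alt hA hp hy hc (fun a ha h => hv (mem_image.2 ⟨a, ha, h.symm⟩))]
    ring
  rw [sum_image] at h2
  · have h3 : ∀ a ∈ Dfc π A y, shf π A y c ((π ^ (c a - 1)) a) +
        shf π A y c (π ((π ^ (c a - 1)) a)) = 2 * y ((π ^ c a) a) := by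
      intro a ha
      have h4 : π ((π ^ (c a - 1)) a) = (π ^ c a) a := by
        rw [← Equiv.Perm.mul_apply, ← pow_succ', Nat.sub_add_cancel (hc a ha).1]
      rw [shf_left hA hp hy hc ha, h4, shf_right hA hp hc ha]
      ring
    rw [sum_congr rfl h3, ← mul_sum] at h2
    linarith
  · intro a ha a' ha' h
    have h3 := hc a ha
    have h4 := hc a' ha'
    exact (win_uniq hA hp (mem_filter.1 ha).1 (mem_filter.1 ha').1 (by omega) (by omega) h).1

end

end Pool.Agent.K5
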