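import Mathlib
import Pool.Agent.Work.MP_974d84_co_k5.SigmaA

/-!
# Room BG: the choice of the reserved defects of the clusters
-/

set_option linter.unusedSectionVars false

namespace Pool.Agent.K5

open Finset SimpleGraph Pool.Agent.Exp Pool.Agent.Log5 Pool.Agent.Log5.Clu
  Pool.Agent.Work.MP_314beb_co

/-- In every ball `B g` we choose `|n g|` defects, all with the sign of `n g`. -/
theorem choose_defects {V : Type} [Fintype V] [DecidableEq V] {Γ : Type} [Fintype Γ]
    [DecidableEq Γ] (B : Γ → Finset V) (hB : ∀ g g', g ≠ g' → Disjoint (B g) (B g'))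
    (D : Finset V) (U : V → Finset V)
    (h4 : ∀ g, ∃ f : Fin 4 → V, Function.Injective f ∧ ∀ i, f i ∈ D ∧ f i ∈ B g ∧ U (f i) ⊆ B g)
    (n : Γ → ℤ) (hn : ∀ g, (n g).natAbs ≤ 4) :
    ∃ (E : Γ → Finset V) (s : Γ → ℤ) (Rm : Finset V) (η : V → ℤ),
      (∀ g, s g = 1 ∨ s g = -1) ∧ (∀ g, ∀ a ∈ E g, a ∈ D ∧ a ∈ B g ∧ U a ⊆ B g) ∧
      (∀ g, (E g).card = (n g).natAbs) ∧ (∀ g, s g * (E g).card = n g) ∧
      (∀ a, η a = 1 ∨ η a = -1) ∧ (∀ a, a ∈ Rm ↔ ∃ g, a ∈ E g) ∧
      (∀ g, ∀ a ∈ E g, η a = s g) ∧ Rm.card = ∑ g, (n g).natAbs ∧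
      ∀ F : V → ℤ → ℝ, ∑ a ∈ Rm, (η a : ℝ) * F a (η a) =
        ∑ g, (s g : ℝ) * ∑ a ∈ E g, F a (s g) := by
  classical
  choose f hf1 hf2 using h4
  have hcard : ∀ g, ∃ I : Finset (Fin 4), I.card = (n g).natAbs := by
    intro g
    obtain ⟨I, -, hI⟩ := exists_subset_card_eq
      (s := (univ : Finset (Fin 4))) (n := (n g).natAbs) (by simpa using hn g)
    exact ⟨I, hI⟩
  choose I hI using hcard
  set E : Γ → Finset V := fun g => (I g).image (f g) with hE
  set s : Γ → ℤ := fun g => if 0 ≤ n g then 1 else -1 with hs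
  have hs1 : ∀ g, s g = 1 ∨ s g = -1 := by
    intro g
    simp only [hs]
    split_ifs
    · exact Or.inl rfl
    · exact Or.inr rfl
  have hEc : ∀ g, (E g).card = (n g).natAbs := by
    intro g
    rw [hE]
    simp only
    rw [card_image_of_injective _ (hf1 g), hI g]
  have hEB : ∀ g, ∀ a ∈ E g, a ∈ D ∧ a ∈ B g ∧ U a ⊆ B g := by
    intro g a ha
    obtain ⟨i, -, rfl⟩ := mem_image.1 ha
    exact hf2 g i
  have hEd : ∀ g g', g ≠ g' → Disjoint (E g) (E g') := by
    intro g g' hne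
    rw [Finset.disjoint_left]
    intro a ha ha'
    exact Finset.disjoint_left.1 (hB g g' hne) (hEB g a ha).2.1 (hEB g' a ha').2.1
  have huniq : ∀ g g' a, a ∈ E g → a ∈ E g' → g = g' := by
    intro g g' a ha ha'
    by_contra hne
    exact Finset.disjoint_left.1 (hEd g g' hne) ha ha'
  set η : V → ℤ := fun a => if h : ∃ g, a ∈ E g then s h.choose else 1 with hη
  have hηE : ∀ g, ∀ a ∈ E g, η a = s g := by
    intro g a ha
    have h : ∃ g, a ∈ E g := ⟨g, ha⟩
    simp only [hη, dif_pos h]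
    rw [huniq _ _ _ h.choose_spec ha]
  refine ⟨E, s, univ.biUnion E, η, hs1, hEB, hEc, ?_, ?_, ?_, hηE, ?_, ?_⟩
  · intro g
    rw [hEc]
    simp only [hs]
    split_ifs with h
    · rw [one_mul, Int.natAbs_of_nonneg h]
    · have : ((n g).natAbs : ℤ) = - n g := by
        rw [← Int.natAbs_neg]
        exact Int.natAbs_of_nonneg (by omega)
      rw [this]
      ring
  · intro a
    simp only [hη]
    split_ifs with h
    · exact hs1 _
    · exact Or.inl rfl
  · intro a
    simp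
  · rw [card_biUnion fun g _ g' _ hne => hEd g g' hne]
    exact sum_congr rfl fun g _ => hEc g
  · intro F
    rw [sum_biUnion fun g _ g' _ hne => hEd g g' hne]
    refine sum_congr rfl fun g _ => ?_
    rw [mul_sum]
    exact sum_congr rfl fun a ha => by rw [hηE g a ha]

end Pool.Agent.K5
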