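import Mathlib
import Pool.Agent.Work.MP_974d84_co_k5.SigmaA
import Pool.Agent.Work.MP_974d84_co_k5.LossTree

/-!
# Room BG: the bound for one set
-/

set_option linter.unusedSectionVars false

namespace Pool.Agent.K5

open Finset SimpleGraph Pool.Agent.Exp Pool.Agent.Log5 Pool.Agent.Log5.Clu
  Pool.Agent.Work.MP_314beb_co

/-- Adding balls. -/
theorem dd_union_balls {V : Type} [Fintype V] [DecidableEq V] {G : SimpleGraph V}
    [DecidableRel G.Adj] {Γ : Type} [DecidableEq Γ] (B : Γ → Finset V) {h : ℕ}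
    (hdd : ∀ g, dd G (B g) ≤ h) (I : Finset Γ) (Z : Finset V) :
    dd G (Z ∪ I.biUnion B) ≤ dd G Z + h * I.card := by
  classical
  induction I using Finset.induction_on with
  | empty => simp
  | insert g I hg ih =>
    have e1 : Z ∪ (insert g I).biUnion B = (Z ∪ I.biUnion B) ∪ B g := by
      rw [biUnion_insert, union_comm (B g), union_assoc]
    rw [e1, card_insert_of_notMem hg]
    have e2 := LS.dd_split (G := G) (Z ∪ I.biUnion B) (B g)
    have e3 := hdd g
    nlinarith

/-- The bound for one set `Z`. -/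
theorem sigma_bound {V : Type} [Fintype V] [DecidableEq V] {G : SimpleGraph V}
    [DecidableRel G.Adj] {Γ : Type} [Fintype Γ] [DecidableEq Γ] (B W : Γ → Finset V)
    (leaf β : Γ → V) (hB : ∀ g g', g ≠ g' → Disjoint (B g) (B g')) (hW : ∀ g, Joined G (W g))
    (hWd : ∀ g g', g ≠ g' → Disjoint (W g) (W g')) (hleaf : ∀ g, leaf g ∈ W g)
    (hβ : ∀ g, β g ∈ W g) (hβB : ∀ g, β g ∈ B g) {h : ℕ} (hh0 : 0 < h)
    (hdd : ∀ g, dd G (B g) ≤ h) {δ ρ : ℝ} (y : Γ → ℝ) (e n : Γ → ℤ) (hδ : 0 ≤ δ) (hδ1 : δ ≤ 1)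
    (hy : ∀ g, |y g| ≤ δ) (he : ∀ g, e g = 0 ∨ e g = 1)
    (hn : ∀ g, n g = 0 ∨ n g = 2 ∨ n g = -2) (hρ : 0 ≤ ρ)
    (hX : ∀ X : Finset V, (∀ g, B g ⊆ X ∨ Disjoint (B g) X) →
      |∑ g ∈ univ.filter (fun g => B g ⊆ X), (y g + e g + n g)| ≤ ρ * dd G X)
    (c : Γ → ℝ) (Z : Finset V) (hc1 : ∀ g, B g ⊆ Z → c g = n g + e g)
    (hc0 : ∀ g, Disjoint (B g) Z → c g = 0) (hc3 : ∀ g, |c g| ≤ 3)
    (hZ : h * (univ.filter fun g => Cuts (B g) Z).card ≤ dd G Z) :
    |∑ g, (if leaf g ∈ Z then y g else 0) + ∑ g, c g| ≤ (δ + 2 * ρ + 12 / h) * dd G Z := by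
  classical
  set I : Finset Γ := univ.filter fun g => Cuts (B g) Z with hI
  set X : Finset V := Z ∪ I.biUnion B with hXd
  have hmemI : ∀ g, g ∈ I ↔ Cuts (B g) Z := fun g => by
    rw [hI, mem_filter]
    exact ⟨fun h => h.2, fun h => ⟨mem_univ _, h⟩⟩
  have hBne : ∀ g, (B g).Nonempty := fun g => ⟨_, hβB g⟩
  -- the balls are not split by `X`
  have hsub : ∀ g, g ∈ I → B g ⊆ X := fun g hg =>
    (subset_biUnion_of_mem B hg).trans subset_union_right
  have hdis : ∀ g, g ∉ I → Disjoint (B g) Z → Disjoint (B g) X := by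
    intro g hg hd
    rw [hXd, Finset.disjoint_union_right]
    refine ⟨hd, ?_⟩
    rw [Finset.disjoint_biUnion_right]
    intro g' hg'
    exact hB g g' fun h => hg (h ▸ hg')
  have hXs : ∀ g, B g ⊆ X ∨ Disjoint (B g) X := by
    intro g
    by_cases hg : g ∈ I
    · exact Or.inl (hsub g hg)
    · have h1 : B g ⊆ Z ∨ Disjoint (B g) Z := by
        by_contra h
        exact hg ((hmemI g).2 h)
      rcases h1 with h1 | h1
      · exact Or.inl (h1.trans subset_union_left)
      · exact Or.inr (hdis g hg h1)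
  have hddX : (dd G X : ℝ) ≤ 2 * dd G Z := by
    have h1 := dd_union_balls B hdd I Z
    have h2 : dd G X ≤ 2 * dd G Z := by
      rw [hXd]
      omega
    exact_mod_cast h2
  have hmain := hX X hXs
  -- the errors
  set J : Finset Γ := univ.filter fun g => ∃ u ∈ W g, ∃ v ∈ W g, u ∈ Z ∧ v ∉ Z with hJ
  have hJc : (J.card : ℝ) ≤ dd G Z := by
    have := cut_joined J W (fun g _ => hW g) (fun g _ g' _ h => hWd g g' h) Z
      (fun g hg => (mem_filter.1 hg).2)
    exact_mod_cast this
  have hIc : 12 * (I.card : ℝ) ≤ 12 / h * dd G Z := by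
    have h1 : (h : ℝ) * I.card ≤ dd G Z := by exact_mod_cast hZ
    have h2 : (0 : ℝ) < h := by exact_mod_cast hh0
    rw [div_mul_eq_mul_div, le_div_iff₀ h2]
    linarith
  have herr : ∀ g, |(if leaf g ∈ Z then y g else 0) + c g -
      (if B g ⊆ X then y g + e g + n g else 0)| ≤
      (if g ∈ I then 12 else 0) + if g ∈ J then δ else 0 := by
    intro g
    have hyg := hy g
    have hJ0 : (0 : ℝ) ≤ if g ∈ J then δ else 0 := by split_ifs <;> linarith
    have hleafabs : |(if leaf g ∈ Z then y g else 0)| ≤ δ := by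
      split_ifs
      · exact hyg
      · rw [abs_zero]; exact hδ
    by_cases hg : g ∈ I
    · rw [if_pos hg, if_pos (hsub g hg)]
      have h1 : |y g + e g + n g| ≤ δ + 3 := by
        have a1 : |(e g : ℝ)| ≤ 1 := by rcases he g with h | h <;> rw [h] <;> simp
        have a2 : |(n g : ℝ)| ≤ 2 := by rcases hn g with h | h | h <;> rw [h] <;> simp
        have a3 := abs_add_le (y g + e g) (n g)
        have a4 := abs_add_le (y g) (e g)
        linarith
      have h2 := hc3 g
      have h3 := abs_sub (((if leaf g ∈ Z then y g else 0) : ℝ) + c g) (y g + e g + n g)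
      have h4 := abs_add_le (((if leaf g ∈ Z then y g else 0) : ℝ)) (c g)
      linarith
    · rw [if_neg hg, zero_add]
      have h1 : B g ⊆ Z ∨ Disjoint (B g) Z := by
        by_contra h
        exact hg ((hmemI g).2 h)
      rcases h1 with h1 | h1
      · rw [if_pos (h1.trans subset_union_left), hc1 g h1]
        by_cases hl : leaf g ∈ Z
        · rw [if_pos hl]
          have : y g + (n g + e g) - (y g + e g + n g) = (0 : ℝ) := by ring
          rw [this, abs_zero]
          exact hJ0
        · rw [if_neg hl]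
          have hgJ : g ∈ J := by
            rw [hJ, mem_filter]
            exact ⟨mem_univ _, β g, hβ g, leaf g, hleaf g, h1 (hβB g), hl⟩
          rw [if_pos hgJ]
          have : 0 + (n g + e g) - (y g + e g + n g) = -(y g) := by ring
          rw [this, abs_neg]
          exact hyg
      · have hnX : ¬ B g ⊆ X := by
          intro h
          have h2 := hdis g hg h1
          obtain ⟨v, hv⟩ := hBne g
          exact Finset.disjoint_left.1 h2 hv (h hv)
        rw [if_neg hnX, hc0 g h1]
        by_cases hl : leaf g ∈ Z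
        · have hgJ : g ∈ J := by
            rw [hJ, mem_filter]
            refine ⟨mem_univ _, leaf g, hleaf g, β g, hβ g, hl, fun h => ?_⟩
            exact Finset.disjoint_left.1 h1 (hβB g) h
          rw [if_pos hgJ, if_pos hl, add_zero, sub_zero]
          exact hyg
        · rw [if_neg hl, add_zero, sub_zero, abs_zero]
          exact hJ0
  have hsum : ∑ g, (if leaf g ∈ Z then y g else 0) + ∑ g, c g =
      ∑ g ∈ univ.filter (fun g => B g ⊆ X), (y g + e g + n g) +
      ∑ g, ((if leaf g ∈ Z then y g else 0) + c g -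
        (if B g ⊆ X then y g + e g + n g else 0)) := by
    rw [sum_filter, ← sum_add_distrib, ← sum_add_distrib]
    refine sum_congr rfl fun g _ => ?_
    ring
  have herr2 : |∑ g, ((if leaf g ∈ Z then y g else 0) + c g -
      (if B g ⊆ X then y g + e g + n g else 0))| ≤ 12 * I.card + δ * J.card := by
    refine (abs_sum_le_sum_abs _ _).trans ((sum_le_sum fun g _ => herr g).trans (le_of_eq ?_))
    rw [sum_add_distrib, ← sum_filter, ← sum_filter, sum_const, sum_const, nsmul_eq_mul,
      nsmul_eq_mul]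
    have a1 : univ.filter (fun g => g ∈ I) = I := by ext g; simp
    have a2 : univ.filter (fun g => g ∈ J) = J := by ext g; simp
    rw [a1, a2]
    ring
  rw [hsum]
  refine (abs_add_le _ _).trans ?_
  have b1 : ρ * dd G X ≤ ρ * (2 * dd G Z) := mul_le_mul_of_nonneg_left hddX hρ
  have b2 : δ * J.card ≤ δ * dd G Z := mul_le_mul_of_nonneg_left hJc hδ
  have b3 : (δ + 2 * ρ + 12 / h) * dd G Z = δ * dd G Z + ρ * (2 * dd G Z) + 12 / h * dd G Z := by
    ring
  rw [b3]
  linarith

end Pool.Agent.K5
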