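import Mathlib
import Pool.Agent.Work.MP_974d84_co_k5.Sites
import Pool.Agent.Work.MP_974d84_co_k5.HyperDef

/-!
# Many candidate sites in every odd circuit of a 2-factor, and their triples
-/

set_option linter.unusedSectionVars false

namespace Pool.Agent.K5

open Finset SimpleGraph Pool.Agent.Exp Pool.Agent.Log5 Pool.Agent.Log5.Clu

theorem Bl_mid {V : Type} [Fintype V] [DecidableEq V] {R : V → V → Prop} {m n : ℕ} {x y : V}
    (h : y ∈ Bl R (m + n) x) : ∃ z, z ∈ Bl R m x ∧ y ∈ Bl R n z := by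
  induction n generalizing y with
  | zero => exact ⟨y, h, Bl_self _ _⟩
  | succ n ih =>
    rw [← Nat.add_assoc, mem_Bl_succ] at h
    rcases h with h | ⟨z, hz, hzy⟩
    · obtain ⟨z, h1, h2⟩ := ih h
      exact ⟨z, h1, Bl_mono (Nat.le_succ n) _ h2⟩
    · obtain ⟨w, h1, h2⟩ := ih hz
      exact ⟨w, h1, mem_Bl_succ.2 (Or.inr ⟨z, h2, hzy⟩)⟩

/-- `q` candidates in every odd circuit; every choice of one candidate per circuit gives the
fixed points of an involution along the 2-factor. -/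
theorem sites_q {V : Type} [Fintype V] [DecidableEq V] {G : SimpleGraph V} [DecidableRel G.Adj]
    (h3 : ∀ v, G.degree v = 3) {k a q : ℕ} (hg : Gir G k) (hk : q * (12 * 4 ^ a) ≤ k)
    (F : SimpleGraph V) (hF : F ≤ G) (hF2 : ∀ v, (F.neighborSet v).ncard = 2) :
    ∃ (w : ℕ) (μ : V → V) (u : Fin w → Fin q → V), (∀ v, μ (μ v) = v) ∧ (∀ v, G.Adj v (μ v)) ∧
      (∀ v, ¬ F.Adj v (μ v)) ∧ (∀ v x, G.Adj v x → ¬ F.Adj v x → x = μ v) ∧
      (∀ i b j d, (i, b) ≠ (j, d) → Disjoint (Bl G.Adj a (u i b)) (Bl G.Adj a (u j d))) ∧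
      ∀ ch : Fin w → Fin q, ∃ ν : V → V, (∀ v, ν (ν v) = v) ∧
        (∀ v, ν v ≠ v → F.Adj v (ν v)) ∧ (∀ v, μ v ≠ ν v) ∧
        (∀ v, ν v = v ↔ ∃ i, v = u i (ch i)) ∧
        ∀ X : Finset V, k * (X.filter fun v => ν v = v).card ≤ X.card + k * dd G X := by
  classical
  obtain ⟨C, hCd, hCk, hC1, hC2⟩ := exists_classes hF hF2 hg rfl
  obtain ⟨u, huC, hu⟩ := exists_candidates h3 (q := q) (R := a) C hCd
    fun i => hk.trans (hCk i)
  obtain ⟨μ, hμ1, hμ2, hμ3, hμ4⟩ := exists_mu' h3 F hF hF2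
  refine ⟨_, μ, u, hμ1, hμ2, hμ3, hμ4, hu, fun ch => ?_⟩
  set t := fun i => u i (ch i) with ht
  have htC : ∀ i, t i ∈ C i := fun i => huC i (ch i)
  set T : Finset V := univ.image t with hT
  have huniq : ∀ i j, t j ∈ C i → j = i := by
    intro i j h
    by_contra hne
    exact Finset.disjoint_left.1 (hCd j i hne) (htC j) h
  obtain ⟨ν, hν1, hν2, hν3⟩ := exists_nu F hF2 T
    (by
      intro c hc
      obtain ⟨i, hi⟩ := hC2 c hc
      refine ⟨t i, ⟨mem_image_of_mem _ (mem_univ _), hi ▸ htC i⟩, ?_⟩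
      rintro v ⟨hv, hvc⟩
      obtain ⟨j, -, rfl⟩ := mem_image.1 hv
      have h1 : t j ∈ C i := by
        have : t j ∈ ((C i : Finset V) : Set V) := hi ▸ hvc
        exact this
      rw [huniq i j h1])
    (by
      intro c hc v hv hvT
      obtain ⟨j, -, rfl⟩ := mem_image.1 hvT
      obtain ⟨c', hc', hj⟩ := hC1 j
      have h1 : t j ∈ c'.supp := hj ▸ htC j
      rw [ConnectedComponent.mem_supp_iff] at h1 hv
      rw [← hv, h1] at hc
      exact hc hc')
  refine ⟨ν, hν1, fun v hv => hν3 v fun h => hv ((hν2 v).2 h), fun v h => ?_, fun v => ?_,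
    fun X => ?_⟩
  · by_cases hv : v ∈ T
    · exact (hμ2 v).ne (h.trans ((hν2 v).2 hv)).symm
    · exact hμ3 v (h ▸ hν3 v hv)
  · rw [hν2, hT, mem_image]
    constructor
    · rintro ⟨i, -, rfl⟩; exact ⟨i, rfl⟩
    · rintro ⟨i, rfl⟩; exact ⟨i, mem_univ _, rfl⟩
  · -- the sites in `X`
    set J := univ.filter fun i => t i ∈ X with hJ
    have hcard : (X.filter fun v => ν v = v).card ≤ J.card := by
      have hsub : (X.filter fun v => ν v = v) ⊆ J.image t := by
        intro v hv
        rw [mem_filter] at hv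
        obtain ⟨i, -, rfl⟩ := mem_image.1 ((hν2 v).1 hv.2)
        exact mem_image_of_mem _ (mem_filter.2 ⟨mem_univ _, hv.1⟩)
      exact (card_le_card hsub).trans card_image_le
    set J1 := J.filter fun i => C i ⊆ X with hJ1
    set J2 := J.filter fun i => ¬ C i ⊆ X with hJ2
    have hsplit : J1.card + J2.card = J.card := card_filter_add_card_filter_not _
    have b1 : k * J1.card ≤ X.card := by
      have h1 : (J1.biUnion C).card = ∑ i ∈ J1, (C i).card :=
        card_biUnion fun i _ j _ hij => hCd i j hij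
      have h2 : (J1.biUnion C).card ≤ X.card := card_le_card fun v hv => by
        obtain ⟨i, hi, hvi⟩ := mem_biUnion.1 hv
        exact (mem_filter.1 hi).2 hvi
      have h4 : J1.card * k ≤ ∑ i ∈ J1, (C i).card := by
        rw [← smul_eq_mul]
        exact card_nsmul_le_sum _ _ _ fun i _ => hCk i
      rw [mul_comm]
      omega
    have b2 : J2.card ≤ dd G X := by
      have hex : ∀ i, ∃ p : V × V, i ∈ J2 →
          p ∈ Pool.Agent.Work.MP_314beb_co.cut G X ∧ p.1 ∈ C i := by
        intro i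
        by_cases hi : i ∈ J2
        swap
        · exact ⟨(t i, t i), fun h => absurd h hi⟩
        rw [hJ2, mem_filter, hJ, mem_filter] at hi
        obtain ⟨y, hy, hyX⟩ := Finset.not_subset.1 hi.2
        obtain ⟨c, -, hc⟩ := hC1 i
        have h1 : t i ∈ c.supp := hc ▸ htC i
        have h2 : y ∈ c.supp := hc ▸ hy
        obtain ⟨p, hp, hpc⟩ := comp_cross hF c h1 h2 hi.1.2 hyX
        refine ⟨p, fun _ => ⟨hp, ?_⟩⟩
        have : p.1 ∈ ((C i : Finset V) : Set V) := hc ▸ hpc
        exact this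
      choose p hp using hex
      refine card_le_card_of_injOn p (fun i hi => (hp i hi).1) ?_
      intro i hi j hj hij
      by_contra hne
      have h1 := (hp i hi).2
      have h2 := (hp j hj).2
      have hij' : p i = p j := hij
      rw [hij'] at h1
      exact Finset.disjoint_left.1 (hCd i j hne) h1 h2
    calc k * (X.filter fun v => ν v = v).card ≤ k * J.card := Nat.mul_le_mul_left _ hcard
      _ = k * J1.card + k * J2.card := by rw [← hsplit]; ring
      _ ≤ X.card + k * dd G X := add_le_add b1 (Nat.mul_le_mul_left _ b2)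

open Classical in
/-- The triple of a site: the site and its neighbours in the 2-factor. -/
noncomputable def trip {V : Type} [Fintype V] (F : SimpleGraph V) (t : V) : Finset V :=
  univ.filter fun v => v = t ∨ F.Adj t v

theorem mem_trip {V : Type} [Fintype V] {F : SimpleGraph V} {t v : V} :
    v ∈ trip F t ↔ v = t ∨ F.Adj t v := by simp [trip]

variable {V : Type} [Fintype V] [DecidableEq V] {G : SimpleGraph V} [DecidableRel G.Adj]

theorem trip_card {F : SimpleGraph V} (hF2 : ∀ v, (F.neighborSet v).ncard = 2) (t : V) :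
    (trip F t).card = 3 := by
  classical
  have h : trip F t = insert t (F.neighborFinset t) := by
    ext v
    rw [mem_trip, mem_insert, mem_neighborFinset]
  have h2 : (F.neighborFinset t).card = 2 := by
    rw [← hF2 t, Set.ncard_eq_toFinset_card']
    rfl
  rw [h, card_insert_of_notMem (by rw [mem_neighborFinset]; exact F.loopless.irrefl t), h2]

theorem trip_joined {F : SimpleGraph V} (hF : F ≤ G) (t : V) : Joined G (trip F t) := by
  intro A hA hne hAW
  by_cases ht : t ∈ A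
  · obtain ⟨y, hy, hyA⟩ : ∃ y ∈ trip F t, y ∉ A := by
      by_contra hno
      push Not at hno
      exact hAW (Subset.antisymm hA hno)
    refine ⟨t, ht, y, hy, hyA, hF ?_⟩
    exact (mem_trip.1 hy).resolve_left (by rintro rfl; exact hyA ht)
  · obtain ⟨x, hx⟩ := hne
    refine ⟨x, hx, t, mem_trip.2 (Or.inl rfl), ht, hF ?_⟩
    exact ((mem_trip.1 (hA hx)).resolve_left (by rintro rfl; exact ht hx)).symm

theorem trip_ball {F : SimpleGraph V} (hF : F ≤ G) {t x : V} (hx : x ∈ trip F t) :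
    x ∈ Bl G.Adj 1 t := by
  rcases mem_trip.1 hx with rfl | h
  · exact Bl_self _ _
  · exact mem_Bl_succ.2 (Or.inr ⟨t, mem_Bl_zero.2 rfl, hF h⟩)

/-- The triples of sites which are far apart are candidate sets. -/
theorem trip_cand {U : Type} [Fintype U] [DecidableEq U] {F : SimpleGraph V} (hF : F ≤ G)
    (hF2 : ∀ v, (F.neighborSet v).ncard = 2) (u : U → V) {a : ℕ} (ha : 2 ≤ a)
    (hd : ∀ p q, p ≠ q → Disjoint (Bl G.Adj a (u p)) (Bl G.Adj a (u q))) :
    Cand G fun p => trip F (u p) where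
  ne p := ⟨u p, mem_trip.2 (Or.inl rfl)⟩
  joined p := trip_joined hF (u p)
  card p := (trip_card hF2 (u p)).le
  disj p q hpq x hx y hy hxy := by
    subst hxy
    exact Finset.disjoint_left.1 (hd p q hpq) (Bl_mono (by omega) _ (trip_ball hF hx))
      (Bl_mono (by omega) _ (trip_ball hF hy))
  nadj p q hpq x hx y hy hxy := by
    have h1 : y ∈ Bl G.Adj 1 x := mem_Bl_succ.2 (Or.inr ⟨x, mem_Bl_zero.2 rfl, hxy⟩)
    exact Finset.disjoint_left.1 (hd p q hpq)
      (Bl_mono (by omega) _ (Bl_comp (trip_ball hF hx) h1))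
      (Bl_mono (by omega) _ (trip_ball hF hy))
  far p q hpq x hx y hy z hxz hyz := by
    have h1 : z ∈ Bl G.Adj 1 x := mem_Bl_succ.2 (Or.inr ⟨x, mem_Bl_zero.2 rfl, hxz⟩)
    have h2 : z ∈ Bl G.Adj 1 y := mem_Bl_succ.2 (Or.inr ⟨y, mem_Bl_zero.2 rfl, hyz⟩)
    exact Finset.disjoint_left.1 (hd p q hpq)
      (Bl_mono (by omega) _ (Bl_comp (trip_ball hF hx) h1))
      (Bl_mono (by omega) _ (Bl_comp (trip_ball hF hy) h2))

/-- The triples of sites which are far apart are far apart. -/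
theorem trip_far {U : Type} [Fintype U] [DecidableEq U] {F : SimpleGraph V} (hF : F ≤ G)
    (u : U → V) {a ρ : ℕ} (ha : ρ + 1 ≤ a)
    (hd : ∀ p q, p ≠ q → Disjoint (Bl G.Adj a (u p)) (Bl G.Adj a (u q))) (p q : U) (hpq : p ≠ q) :
    ∀ x ∈ trip F (u p), ∀ y ∈ trip F (u q), y ∉ Bl G.Adj (2 * ρ) x := by
  intro x hx y hy hxy
  rw [two_mul] at hxy
  obtain ⟨z, hz1, hz2⟩ := Bl_mid hxy
  have hz3 : z ∈ Bl G.Adj ρ y := Bl_symm (fun _ _ h => h.symm) hz2
  exact Finset.disjoint_left.1 (hd p q hpq)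
    (Bl_mono (by omega) _ (Bl_comp (trip_ball hF hx) hz1))
    (Bl_mono (by omega) _ (Bl_comp (trip_ball hF hy) hz3))

end Pool.Agent.K5
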