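import Mathlib
import Pool.Agent.Work.MP_974d84_co_k5.LossTree

/-!
# Small trees lose at most two thirds of an optimal cut
-/

set_option linter.unusedSectionVars false
set_option linter.unusedVariables false

namespace Pool.Agent.K5

open Finset SimpleGraph Pool.Agent.Exp Pool.Agent.Log5 Pool.Agent.Log5.Clu

namespace ST

variable {V : Type} [Fintype V] [DecidableEq V]

/-- The graph inside `S`, on all vertices. -/
def ins (G : SimpleGraph V) (S : Finset V) : SimpleGraph V :=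
  SimpleGraph.mk (fun u v => G.Adj u v ∧ u ∈ S ∧ v ∈ S)
    ⟨fun _ _ h => ⟨h.1.symm, h.2.2, h.2.1⟩⟩ ⟨fun _ h => G.irrefl h.1⟩

instance (G : SimpleGraph V) [DecidableRel G.Adj] (S : Finset V) :
    DecidableRel (ins G S).Adj :=
  fun u v => inferInstanceAs (Decidable (G.Adj u v ∧ u ∈ S ∧ v ∈ S))

theorem ins_adj {G : SimpleGraph V} {S : Finset V} {u v : V} :
    (ins G S).Adj u v ↔ G.Adj u v ∧ u ∈ S ∧ v ∈ S := Iff.rfl

variable {G : SimpleGraph V} [DecidableRel G.Adj]

theorem dd_ins {P S : Finset V} (h : P ⊆ S) : dd (ins G S) P = ee G P (S \ P) := by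
  unfold dd ee
  congr 1
  ext p
  simp only [mem_cut, mem_filter, mem_univ, true_and, mem_sdiff, ins_adj]
  constructor
  · rintro ⟨h1, h2, h3, h4, h5⟩
    exact ⟨h1, ⟨h5, h2⟩, h3⟩
  · rintro ⟨h1, ⟨h5, h2⟩, h3⟩
    exact ⟨h1, h2, h3, h h1, h5⟩

theorem joined_triple {t : V} {X : Finset V} (ht : t ∈ X) (hb : X ⊆ Bl G.Adj 1 t) :
    Joined G X := by
  have hadj : ∀ x ∈ X, x ≠ t → G.Adj t x := by
    intro x hx hne
    have h := hb hx
    rw [mem_Bl_succ, mem_Bl_zero] at h
    rcases h with h | ⟨u, hu, hux⟩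
    · exact absurd h hne
    · rw [mem_Bl_zero] at hu
      rw [← hu]; exact hux
  intro A hA hne hAX
  by_cases h : t ∈ A
  · obtain ⟨y, hy, hyA⟩ : ∃ y ∈ X, y ∉ A := by
      by_contra hc
      push Not at hc
      exact hAX (Subset.antisymm hA hc)
    exact ⟨t, h, y, hy, hyA, hadj y hy (fun h' => hyA (h' ▸ h))⟩
  · obtain ⟨x, hx⟩ := hne
    exact ⟨x, hx, t, ht, h, (hadj x (hA hx) (fun h' => h (h' ▸ hx))).symm⟩

end ST

open Pool.Agent.K5.ST

/-- X3b. A small tree whose cut is optimal at the triples loses at most two thirds of its edges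
when the edges at the triples are deleted. -/
theorem small_touch {V : Type} [Fintype V] [DecidableEq V] {G : SimpleGraph V}
    [DecidableRel G.Adj] (h3 : ∀ v, G.degree v = 3) {k R : ℕ} (hg : Gir G k)
    {P S : Finset V} (hP : Joined G P) (hne : P.Nonempty) (hPk : P.card + 7 ≤ k) (hPS : P ⊆ S)
    {T : Finset V} {X : V → Finset V} (hX : Triples G R T X) (hR : 10 ≤ R)
    (hopt : ∀ E ⊆ P ∩ T.biUnion X, ee G P (S \ P) ≤ ee G (P \ E) (S \ (P \ E)))
    (hlow : 100 * (P.card + 2) ≤ 223 * ee G P (S \ P)) :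
    3 * ((univ : Finset (V × V)).filter fun p => p.1 ∈ P ∧ p.2 ∈ S \ P ∧ G.Adj p.1 p.2 ∧
      (p.1 ∈ T.biUnion X ∨ p.2 ∈ T.biUnion X)).card ≤ 2 * ee G P (S \ P) := by
  classical
  have hins : ins G S ≤ G := fun u v h => h.1
  have hd := dd_ins (G := G) hPS
  have hddG : dd G P ≤ P.card + 2 := LS.dd_joined_le h3 hP hne
  have hO : LS.Opt (ins G S) (T.biUnion X ∩ P) P := by
    intro E hE
    have hEP : E ⊆ P := fun v hv => (mem_inter.1 (hE hv)).2
    have hs : symmDiff P E = P \ E := by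
      ext v
      rw [mem_symmDiff, mem_sdiff]
      constructor
      · rintro (h | h)
        · exact h
        · exact absurd (hEP h.1) h.2
      · exact fun h => Or.inl h
    rw [hs, hd, dd_ins (sdiff_subset.trans hPS)]
    exact hopt E (by rw [inter_comm]; exact hE)
  have key := LS.loss_tree (G := G) h3 hg (R := R) (by omega) (T := T) (X := X)
    (fun t ht => ⟨t, hX.mem t ht⟩) (fun t ht => joined_triple (hX.mem t ht) (hX.ball t ht))
    hX.card hX.ball hX.disj hins hP hne (by omega) (Subset.refl P) (by rw [hd]; omega) hO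
  have hsplit : dd (ins G S) P = dd (LS.gstar (ins G S) (T.biUnion X)) P +
      ((univ : Finset (V × V)).filter fun p => p.1 ∈ P ∧ p.2 ∈ S \ P ∧ G.Adj p.1 p.2 ∧
      (p.1 ∈ T.biUnion X ∨ p.2 ∈ T.biUnion X)).card := by
    unfold dd
    rw [← card_filter_add_card_filter_not
      (s := Pool.Agent.Work.MP_314beb_co.cut (ins G S) P)
      (fun p : V × V => ¬ (p.1 ∈ T.biUnion X ∨ p.2 ∈ T.biUnion X))]
    congr 1
    · congr 1
      ext p
      rw [mem_filter, mem_cut, mem_cut, LS.gstar_adj]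
      tauto
    · congr 1
      ext p
      rw [mem_filter, mem_cut, mem_filter, not_not, ins_adj, mem_sdiff]
      constructor
      · rintro ⟨⟨h1, h2, h4, h5, h6⟩, h7⟩
        exact ⟨mem_univ _, h1, ⟨h6, h2⟩, h4, h7⟩
      · rintro ⟨-, h1, ⟨h6, h2⟩, h4, h7⟩
        exact ⟨⟨h1, h2, h4, hPS h1, h6⟩, h7⟩
  omega

end Pool.Agent.K5
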