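import Mathlib
import Pool.Agent.Work.MP_974d84_co_k5.ExtGlue

/-!
# Contractions in a smallest counterexample

If all simple cubic graphs without bridges on fewer vertices than `G` have nowhere-zero
`ZMod 5`-flows, then so has the contraction `G / P` of a set `P` in which every vertex has at most
one neighbour outside.
-/

set_option linter.unusedSectionVars false

namespace Pool.Agent.K5

open Finset SimpleGraph MP974d84

/-- No edge cut has exactly one edge. -/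
def NoBr {V : Type} (G : SimpleGraph V) : Prop :=
  ∀ S : Set V, ∀ u ∈ S, ∀ v, v ∉ S → G.Adj u v →
    ∃ u' ∈ S, ∃ v', v' ∉ S ∧ G.Adj u' v' ∧ ¬ (u' = u ∧ v' = v)

/-- Cubic graphs. -/
def Cub {V : Type} (G : SimpleGraph V) : Prop := ∀ v, (G.neighborSet v).ncard = 3

/-- Cubic bridgeless graphs on fewer than `n` vertices have nowhere-zero `ZMod 5`-flows. -/
def SmallerOK (n : ℕ) : Prop :=
  ∀ (W : Type) [Fintype W] (H : SimpleGraph W), Cub H → NoBr H → Fintype.card W < n →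
    HasNZFlow (ZMod 5) H

section

variable {V : Type} [Fintype V] [DecidableEq V] {G : SimpleGraph V}

/-- The graph which replaces `P`: `B` is the boundary, `B'` the new vertex set. -/
structure Gad (P B B' : Finset V) (C : V → V → Prop) : Prop where
  sub : B ⊆ B'
  sub' : B' ⊆ P
  mem : ∀ u v, C u v → u ∈ B' ∧ v ∈ B'
  symm : ∀ u v, C u v → C v u
  irr : ∀ u, ¬ C u u
  two : ∀ u ∈ B, ∃ N : Finset V, N.card = 2 ∧ ∀ w, C u w ↔ w ∈ N
  three : ∀ u ∈ B', u ∉ B → ∃ N : Finset V, N.card = 3 ∧ ∀ w, C u w ↔ w ∈ N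
  cut : ∀ S : Set V, (∃ u ∈ B', u ∈ S) → (∃ v ∈ B', v ∉ S) → ∃ x y x' y',
    x ∈ S ∧ y ∉ S ∧ C x y ∧ x' ∈ S ∧ y' ∉ S ∧ C x' y' ∧ ¬ (x' = x ∧ y' = y)

/-- `G` with `P` replaced. -/
def quo (G : SimpleGraph V) {P B B' : Finset V} {C : V → V → Prop} (hC : Gad P B B' C) :
    SimpleGraph {v : V // v ∉ P ∨ v ∈ B'} where
  Adj u v := (G.Adj u.1 v.1 ∧ ¬ (u.1 ∈ P ∧ v.1 ∈ P)) ∨ C u.1 v.1
  symm := ⟨fun u v h => by
    rcases h with h | h
    · exact Or.inl ⟨h.1.symm, fun h1 => h.2 ⟨h1.2, h1.1⟩⟩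
    · exact Or.inr (hC.symm _ _ h)⟩
  loopless := ⟨fun u h => by
    rcases h with h | h
    · exact h.1.ne rfl
    · exact hC.irr _ h⟩

theorem quo_adj {P B B' : Finset V} {C : V → V → Prop} (hC : Gad P B B' C)
    {u v : {v : V // v ∉ P ∨ v ∈ B'}} :
    (quo G hC).Adj u v ↔ (G.Adj u.1 v.1 ∧ ¬ (u.1 ∈ P ∧ v.1 ∈ P)) ∨ C u.1 v.1 := Iff.rfl

theorem quo_cub (h3 : Cub G) {P B B' : Finset V} {C : V → V → Prop} (hC : Gad P B B' C)
    (hB : ∀ v, v ∈ B ↔ v ∈ P ∧ ∃ w, w ∉ P ∧ G.Adj v w)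
    (hb : ∀ v ∈ P, ∀ w w', w ∉ P → w' ∉ P → G.Adj v w → G.Adj v w' → w = w') :
    Cub (quo G hC) := by
  intro u
  have himg : (Subtype.val '' ((quo G hC).neighborSet u)).ncard =
      ((quo G hC).neighborSet u).ncard := Set.ncard_image_of_injective _ Subtype.val_injective
  rw [← himg]
  by_cases huP : u.1 ∈ P
  · have huB' : u.1 ∈ B' := u.2.resolve_left fun h => h huP
    by_cases huB : u.1 ∈ B
    · obtain ⟨o, ho, huo⟩ := ((hB _).1 huB).2
      obtain ⟨N, hN, hCN⟩ := hC.two _ huB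
      have hoN : o ∉ N := fun h => ho (hC.sub' (hC.mem _ _ ((hCN o).2 h)).2)
      have h1 : Subtype.val '' ((quo G hC).neighborSet u) = ((insert o N : Finset V) : Set V) := by
        ext w
        simp only [Set.mem_image, mem_neighborSet, quo_adj, coe_insert, Set.mem_insert_iff,
          mem_coe]
        constructor
        · rintro ⟨w', h | h, rfl⟩
          · left
            exact hb _ huP _ _ (fun h2 => h.2 ⟨huP, h2⟩) ho h.1 huo
          · right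
            exact (hCN _).1 h
        · rintro (rfl | h)
          · exact ⟨⟨w, Or.inl ho⟩, Or.inl ⟨huo, fun h2 => ho h2.2⟩, rfl⟩
          · have h2 := (hCN _).2 h
            exact ⟨⟨w, Or.inr (hC.mem _ _ h2).2⟩, Or.inr h2, rfl⟩
      rw [h1, Set.ncard_coe_finset, card_insert_of_notMem hoN, hN]
    · obtain ⟨N, hN, hCN⟩ := hC.three _ huB' huB
      have h1 : Subtype.val '' ((quo G hC).neighborSet u) = (N : Set V) := by
        ext w
        simp only [Set.mem_image, mem_neighborSet, quo_adj, mem_coe]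
        constructor
        · rintro ⟨w', h | h, rfl⟩
          · exact absurd ((hB _).2 ⟨huP, w'.1, fun h2 => h.2 ⟨huP, h2⟩, h.1⟩) huB
          · exact (hCN _).1 h
        · intro h
          have h2 := (hCN _).2 h
          exact ⟨⟨w, Or.inr (hC.mem _ _ h2).2⟩, Or.inr h2, rfl⟩
      rw [h1, Set.ncard_coe_finset, hN]
  · have h1 : Subtype.val '' ((quo G hC).neighborSet u) = G.neighborSet u.1 := by
      ext w
      simp only [Set.mem_image, mem_neighborSet, quo_adj]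
      constructor
      · rintro ⟨w', h | h, rfl⟩
        · exact h.1
        · exact absurd (hC.sub' (hC.mem _ _ h).1) huP
      · intro h
        have hw : w ∉ P ∨ w ∈ B' := by
          by_cases hwP : w ∈ P
          · exact Or.inr (hC.sub ((hB w).2 ⟨hwP, u.1, huP, h.symm⟩))
          · exact Or.inl hwP
        exact ⟨⟨w, hw⟩, Or.inl ⟨h, fun h2 => huP h2.1⟩, rfl⟩
    rw [h1]
    exact h3 _

theorem quo_nobr (hbr : NoBr G) {P B B' : Finset V} {C : V → V → Prop} (hC : Gad P B B' C)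
    (hB : ∀ v, v ∈ B ↔ v ∈ P ∧ ∃ w, w ∉ P ∧ G.Adj v w) : NoBr (quo G hC) := by
  intro S u hu v hv huv
  have hW : ∀ w ∈ B', w ∉ P ∨ w ∈ B' := fun w h => Or.inr h
  by_cases h1 : ∃ x : {v : V // v ∉ P ∨ v ∈ B'}, x.1 ∈ B' ∧ x ∈ S
  · by_cases h2 : ∃ x : {v : V // v ∉ P ∨ v ∈ B'}, x.1 ∈ B' ∧ x ∉ S
    · obtain ⟨a, haB, haS⟩ := h1
      obtain ⟨b, hbB, hbS⟩ := h2
      obtain ⟨x, y, x', y', hx, hy, hxy, hx', hy', hxy', hne⟩ :=
        hC.cut {w | ∃ h : w ∉ P ∨ w ∈ B', (⟨w, h⟩ : {v : V // v ∉ P ∨ v ∈ B'}) ∈ S}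
          ⟨a.1, haB, a.2, haS⟩ ⟨b.1, hbB, fun ⟨h, h'⟩ => hbS h'⟩
      obtain ⟨hxW, hxS⟩ := hx
      obtain ⟨hxW', hxS'⟩ := hx'
      have hyW : y ∉ P ∨ y ∈ B' := Or.inr (hC.mem _ _ hxy).2
      have hyW' : y' ∉ P ∨ y' ∈ B' := Or.inr (hC.mem _ _ hxy').2
      by_cases h3 : x = u.1 ∧ y = v.1
      · refine ⟨⟨x', hxW'⟩, hxS', ⟨y', hyW'⟩, fun h => hy' ⟨hyW', h⟩, Or.inr hxy', ?_⟩
        rintro ⟨h4, h5⟩
        exact hne ⟨(congrArg Subtype.val h4).trans h3.1.symm,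
          (congrArg Subtype.val h5).trans h3.2.symm⟩
      · refine ⟨⟨x, hxW⟩, hxS, ⟨y, hyW⟩, fun h => hy ⟨hyW, h⟩, Or.inr hxy, ?_⟩
        rintro ⟨h4, h5⟩
        exact h3 ⟨congrArg Subtype.val h4, congrArg Subtype.val h5⟩
    · -- the gadget is inside `S`
      push Not at h2
      have hall : ∀ w (h : w ∉ P ∨ w ∈ B'), w ∈ P →
          (⟨w, h⟩ : {v : V // v ∉ P ∨ v ∈ B'}) ∈ S := fun w h hw =>
        h2 ⟨w, h⟩ (h.resolve_left fun h' => h' hw)
      have hvP : v.1 ∉ P := fun h => hv (hall v.1 v.2 h)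
      have hGuv : G.Adj u.1 v.1 := by
        rcases huv with h | h
        · exact h.1
        · exact absurd (hC.sub' (hC.mem _ _ h).2) hvP
      obtain ⟨a, ha, b, hb, hab, hne⟩ := hbr
        {w | w ∈ P ∨ ∃ h : w ∉ P ∨ w ∈ B', (⟨w, h⟩ : {v : V // v ∉ P ∨ v ∈ B'}) ∈ S}
        u.1 (Or.inr ⟨u.2, hu⟩) v.1 (by
          rintro (h | ⟨h, h'⟩)
          · exact hvP h
          · exact hv h') hGuv
      have hbP : b ∉ P := fun h => hb (Or.inl h)
      have haW : a ∉ P ∨ a ∈ B' := by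
        by_cases haP : a ∈ P
        · exact Or.inr (hC.sub ((hB a).2 ⟨haP, b, hbP, hab⟩))
        · exact Or.inl haP
      have haS : (⟨a, haW⟩ : {v : V // v ∉ P ∨ v ∈ B'}) ∈ S := by
        rcases ha with h | ⟨h, h'⟩
        · exact hall a haW h
        · exact h'
      refine ⟨⟨a, haW⟩, haS, ⟨b, Or.inl hbP⟩, fun h => hb (Or.inr ⟨Or.inl hbP, h⟩),
        Or.inl ⟨hab, fun h => hbP h.2⟩, ?_⟩
      rintro ⟨h4, h5⟩
      exact hne ⟨congrArg Subtype.val h4, congrArg Subtype.val h5⟩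
  · push Not at h1
    have hno : ∀ w (h : w ∉ P ∨ w ∈ B'), w ∈ P →
        (⟨w, h⟩ : {v : V // v ∉ P ∨ v ∈ B'}) ∉ S := fun w h hw =>
      h1 ⟨w, h⟩ (h.resolve_left fun h' => h' hw)
    have huP : u.1 ∉ P := fun h => hno u.1 u.2 h hu
    have hGuv : G.Adj u.1 v.1 := by
      rcases huv with h | h
      · exact h.1
      · exact absurd (hC.sub' (hC.mem _ _ h).1) huP
    obtain ⟨a, ha, b, hb, hab, hne⟩ := hbr
      {w | ∃ h : w ∉ P ∨ w ∈ B', (⟨w, h⟩ : {v : V // v ∉ P ∨ v ∈ B'}) ∈ S}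
      u.1 ⟨u.2, hu⟩ v.1 (fun ⟨h, h'⟩ => hv h') hGuv
    obtain ⟨haW, haS⟩ := ha
    have haP : a ∉ P := fun h => hno a haW h haS
    have hbW : b ∉ P ∨ b ∈ B' := by
      by_cases hbP : b ∈ P
      · exact Or.inr (hC.sub ((hB b).2 ⟨hbP, a, haP, hab.symm⟩))
      · exact Or.inl hbP
    refine ⟨⟨a, haW⟩, haS, ⟨b, hbW⟩, fun h => hb ⟨hbW, h⟩,
      Or.inl ⟨hab, fun h => haP h.1⟩, ?_⟩
    rintro ⟨h4, h5⟩
    exact hne ⟨congrArg Subtype.val h4, congrArg Subtype.val h5⟩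

/-- The flow of the smaller graph. -/
theorem contr_of_gad (h3 : Cub G) (hbr : NoBr G) {P B B' : Finset V} {C : V → V → Prop}
    (hC : Gad P B B' C) (hB : ∀ v, v ∈ B ↔ v ∈ P ∧ ∃ w, w ∉ P ∧ G.Adj v w)
    (hb : ∀ v ∈ P, ∀ w w', w ∉ P → w' ∉ P → G.Adj v w → G.Adj v w' → w = w')
    (hlt : ∃ v ∈ P, v ∉ B') (hs : SmallerOK (Fintype.card V)) : ContrFlow G P := by
  classical
  have hcard : Fintype.card {v : V // v ∉ P ∨ v ∈ B'} < Fintype.card V := by
    obtain ⟨v, hv, hv'⟩ := hlt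
    exact Fintype.card_subtype_lt (x := v) (fun h => h.elim (fun h => h hv) hv')
  obtain ⟨f, hfa, hfn, hfc⟩ := hs {v : V // v ∉ P ∨ v ∈ B'} (quo G hC) (quo_cub h3 hC hB hb)
    (quo_nobr hbr hC hB) hcard
  let g : V → V → ZMod 5 := fun u v =>
    if h : (u ∉ P ∨ u ∈ B') ∧ (v ∉ P ∨ v ∈ B') ∧ ¬ (u ∈ P ∧ v ∈ P) then
      f ⟨u, h.1⟩ ⟨v, h.2.1⟩ else 0
  have hW : ∀ u v, G.Adj u v → ¬ (u ∈ P ∧ v ∈ P) → u ∉ P ∨ u ∈ B' := by
    intro u v huv hnot
    by_cases hu : u ∈ P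
    · exact Or.inr (hC.sub ((hB u).2 ⟨hu, v, fun hv => hnot ⟨hu, hv⟩, huv⟩))
    · exact Or.inl hu
  refine ⟨g, fun u v => ?_, fun u v => ?_, fun v hv => ?_⟩
  · by_cases h : (u ∉ P ∨ u ∈ B') ∧ (v ∉ P ∨ v ∈ B') ∧ ¬ (u ∈ P ∧ v ∈ P)
    · have h' : (v ∉ P ∨ v ∈ B') ∧ (u ∉ P ∨ u ∈ B') ∧ ¬ (v ∈ P ∧ u ∈ P) :=
        ⟨h.2.1, h.1, fun h1 => h.2.2 ⟨h1.2, h1.1⟩⟩
      simp only [g, dif_pos h, dif_pos h']
      exact hfa _ _
    · have h' : ¬ ((v ∉ P ∨ v ∈ B') ∧ (u ∉ P ∨ u ∈ B') ∧ ¬ (v ∈ P ∧ u ∈ P)) :=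
        fun h1 => h ⟨h1.2.1, h1.1, fun h2 => h1.2.2 ⟨h2.2, h2.1⟩⟩
      simp only [g, dif_neg h, dif_neg h', neg_zero]
  · by_cases h : (u ∉ P ∨ u ∈ B') ∧ (v ∉ P ∨ v ∈ B') ∧ ¬ (u ∈ P ∧ v ∈ P)
    · simp only [g, dif_pos h]
      rw [hfn, quo_adj]
      constructor
      · rintro (h1 | h1)
        · exact h1
        · exact absurd ⟨hC.sub' (hC.mem _ _ h1).1, hC.sub' (hC.mem _ _ h1).2⟩ h.2.2
      · exact fun h1 => Or.inl h1
    · simp only [g, dif_neg h]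
      constructor
      · intro h1
        exact absurd rfl h1
      · rintro ⟨h1, h2⟩
        exact absurd ⟨hW u v h1 h2, hW v u h1.symm fun h4 => h2 ⟨h4.2, h4.1⟩, h2⟩ h
  · have h1 : ∑ u, g v u = ∑ u : {v : V // v ∉ P ∨ v ∈ B'}, g v u.1 := by
      rw [← Finset.sum_subtype ((univ : Finset V).filter fun u => u ∉ P ∨ u ∈ B')
        (fun u => by simp) (fun u => g v u)]
      refine (sum_filter_of_ne fun u _ hu => ?_).symm
      by_contra h
      exact hu (dif_neg fun h' => h h'.2.1)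
    have h2 : ∀ u : {v : V // v ∉ P ∨ v ∈ B'}, g v u.1 = f ⟨v, Or.inl hv⟩ u := by
      intro u
      have h : (v ∉ P ∨ v ∈ B') ∧ (u.1 ∉ P ∨ u.1 ∈ B') ∧ ¬ (v ∈ P ∧ u.1 ∈ P) :=
        ⟨Or.inl hv, u.2, fun h => hv h.1⟩
      simp only [g, dif_pos h]
    rw [h1, sum_congr rfl fun u _ => h2 u]
    exact hfc _

/-- The empty gadget. -/
theorem gad_empty (P : Finset V) : Gad P ∅ ∅ (fun _ _ : V => False) where
  sub := subset_rfl
  sub' := empty_subset _
  mem _ _ h := h.elim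
  symm _ _ h := h
  irr _ h := h
  two u hu := absurd hu (notMem_empty u)
  three u hu := absurd hu (notMem_empty u)
  cut _ := fun ⟨u, hu, _⟩ => absurd hu (notMem_empty u)

/-- The circuit. -/
theorem gad_cycle {P B : Finset V} (hBP : B ⊆ P) (h3 : 3 ≤ B.card) :
    ∃ C : V → V → Prop, Gad P B B C := by
  obtain ⟨σ, hσ, hσs⟩ := B.exists_cycleOn
  have hmem : ∀ u, u ∈ B → σ u ∈ B := fun u hu => by
    have := hσ.1.mapsTo (x := u) (by exact_mod_cast hu)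
    exact_mod_cast this
  have hmem' : ∀ u, u ∈ B → σ.symm u ∈ B := fun u hu => by
    by_contra h
    have h1 : σ (σ.symm u) = σ.symm u := by
      by_contra h2
      exact h (hσs (Equiv.Perm.mem_support.2 h2))
    rw [Equiv.apply_symm_apply] at h1
    exact h (h1 ▸ hu)
  have hne1 : ∀ u, u ∈ B → σ u ≠ u := fun u hu h => by
    have h1 := (hσ.pow_apply_eq hu (n := 1)).1 (by simpa using h)
    have := Nat.le_of_dvd one_pos h1
    omega
  have hne2 : ∀ u, u ∈ B → σ (σ u) ≠ u := fun u hu h => by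
    have h1 := (hσ.pow_apply_eq hu (n := 2)).1 (by simpa [pow_two] using h)
    have := Nat.le_of_dvd two_pos h1
    omega
  have hclo : ∀ S : Set V, ∀ u ∈ B, u ∈ S → (∀ x ∈ B, x ∈ S → σ x ∈ S) → ∀ v ∈ B, v ∈ S := by
    intro S u hu huS h v hv
    obtain ⟨n, -, rfl⟩ := hσ.exists_pow_eq hu hv
    have h1 : ∀ n : ℕ, (σ ^ n) u ∈ B ∧ (σ ^ n) u ∈ S := by
      intro n
      induction n with
      | zero => exact ⟨hu, huS⟩
      | succ n ih =>
        rw [pow_succ', Equiv.Perm.mul_apply]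
        exact ⟨hmem _ ih.1, h _ ih.1 ih.2⟩
    exact (h1 n).2
  refine ⟨fun u v => u ∈ B ∧ v ∈ B ∧ (v = σ u ∨ u = σ v), subset_rfl, hBP,
    fun u v h => ⟨h.1, h.2.1⟩, fun u v h => ⟨h.2.1, h.1, h.2.2.symm⟩, fun u h => ?_,
    fun u hu => ⟨{σ u, σ.symm u}, ?_, fun w => ?_⟩, fun u hu hu' => absurd hu hu', ?_⟩
  · rcases h.2.2 with h1 | h1 <;> exact hne1 u h.1 h1.symm
  · refine card_pair fun h => hne2 u hu ?_
    rw [h, Equiv.apply_symm_apply]
  · rw [mem_insert, mem_singleton]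
    constructor
    · rintro ⟨_, _, h | h⟩
      · exact Or.inl h
      · right
        rw [h, Equiv.symm_apply_apply]
    · rintro (rfl | rfl)
      · exact ⟨hu, hmem u hu, Or.inl rfl⟩
      · exact ⟨hu, hmem' u hu, Or.inr (Equiv.apply_symm_apply _ _).symm⟩
  · rintro S ⟨u, hu, huS⟩ ⟨v, hv, hvS⟩
    have h1 : ∃ x ∈ B, x ∈ S ∧ σ x ∉ S := by
      by_contra h
      push Not at h
      exact hvS (hclo S u hu huS (fun x hx hxS => h x hx hxS) v hv)
    have h2 : ∃ x ∈ B, x ∉ S ∧ σ x ∈ S := by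
      by_contra h
      push Not at h
      exact hclo Sᶜ v hv hvS (fun x hx hxS => h x hx hxS) u hu huS
    obtain ⟨x, hx, hxS, hσx⟩ := h1
    obtain ⟨y, hy, hyS, hσy⟩ := h2
    refine ⟨x, σ x, σ y, y, hxS, hσx, ⟨hx, hmem x hx, Or.inl rfl⟩, hσy, hyS,
      ⟨hmem y hy, hy, Or.inr rfl⟩, ?_⟩
    rintro ⟨h3, h4⟩
    refine hne2 y hy ?_
    rw [h3, h4]

/-- `K₄` minus an edge. -/
theorem gad_four {P B : Finset V} (hBP : B ⊆ P) (hB2 : B.card = 2) {p q : V} (hpP : p ∈ P)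
    (hqP : q ∈ P) (hpq : p ≠ q) (hp : p ∉ B) (hq : q ∉ B) :
    ∃ C : V → V → Prop, Gad P B (insert p (insert q B)) C := by
  have hpm : p ∈ insert p (insert q B) := mem_insert_self _ _
  have hqm : q ∈ insert p (insert q B) := mem_insert_of_mem (mem_insert_self _ _)
  have hBm : ∀ u ∈ B, u ∈ insert p (insert q B) := fun u hu =>
    mem_insert_of_mem (mem_insert_of_mem hu)
  refine ⟨fun u v => (u ∈ B ∧ (v = p ∨ v = q)) ∨ ((u = p ∨ u = q) ∧ v ∈ B) ∨
      (u = p ∧ v = q) ∨ (u = q ∧ v = p), ?_, ?_, ?_, ?_, ?_, ?_, ?_, ?_⟩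
  · exact fun u hu => hBm u hu
  · intro v hv
    rcases mem_insert.1 hv with rfl | hv
    · exact hpP
    · rcases mem_insert.1 hv with rfl | hv
      · exact hqP
      · exact hBP hv
  · rintro u v (⟨h1, rfl | rfl⟩ | ⟨rfl | rfl, h2⟩ | ⟨rfl, rfl⟩ | ⟨rfl, rfl⟩)
    · exact ⟨hBm u h1, hpm⟩
    · exact ⟨hBm u h1, hqm⟩
    · exact ⟨hpm, hBm v h2⟩
    · exact ⟨hqm, hBm v h2⟩
    · exact ⟨hpm, hqm⟩
    · exact ⟨hqm, hpm⟩
  · rintro u v (⟨h1, h2⟩ | ⟨h1, h2⟩ | ⟨h1, h2⟩ | ⟨h1, h2⟩)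
    · exact Or.inr (Or.inl ⟨h2, h1⟩)
    · exact Or.inl ⟨h2, h1⟩
    · exact Or.inr (Or.inr (Or.inr ⟨h2, h1⟩))
    · exact Or.inr (Or.inr (Or.inl ⟨h2, h1⟩))
  · rintro u (⟨h1, rfl | rfl⟩ | ⟨rfl | rfl, h2⟩ | ⟨h1, h2⟩ | ⟨h1, h2⟩)
    · exact hp h1
    · exact hq h1
    · exact hp h2
    · exact hq h2
    · exact hpq (h1.symm.trans h2)
    · exact hpq (h2.symm.trans h1)
  · intro u hu
    refine ⟨{p, q}, card_pair hpq, fun w => ?_⟩
    rw [mem_insert, mem_singleton]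
    constructor
    · rintro (⟨-, h2⟩ | ⟨rfl | rfl, -⟩ | ⟨rfl, -⟩ | ⟨rfl, -⟩)
      · exact h2
      · exact absurd hu hp
      · exact absurd hu hq
      · exact absurd hu hp
      · exact absurd hu hq
    · exact fun h => Or.inl ⟨hu, h⟩
  · intro u hu hu'
    rcases mem_insert.1 hu with rfl | hu
    · refine ⟨insert q B, by rw [card_insert_of_notMem hq, hB2], fun w => ?_⟩
      rw [mem_insert]
      constructor
      · rintro (⟨h1, -⟩ | ⟨-, h2⟩ | ⟨-, h2⟩ | ⟨h1, -⟩)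
        · exact absurd h1 hu'
        · exact Or.inr h2
        · exact Or.inl h2
        · exact absurd h1 hpq
      · rintro (h | h)
        · exact Or.inr (Or.inr (Or.inl ⟨rfl, h⟩))
        · exact Or.inr (Or.inl ⟨Or.inl rfl, h⟩)
    · rcases mem_insert.1 hu with rfl | hu
      · refine ⟨insert p B, by rw [card_insert_of_notMem hp, hB2], fun w => ?_⟩
        rw [mem_insert]
        constructor
        · rintro (⟨h1, -⟩ | ⟨-, h2⟩ | ⟨h1, -⟩ | ⟨-, h2⟩)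
          · exact absurd h1 hu'
          · exact Or.inr h2
          · exact absurd h1.symm hpq
          · exact Or.inl h2
        · rintro (h | h)
          · exact Or.inr (Or.inr (Or.inr ⟨rfl, h⟩))
          · exact Or.inr (Or.inl ⟨Or.inr rfl, h⟩)
      · exact absurd hu hu'
  · rintro S ⟨u, hu, huS⟩ ⟨v, hv, hvS⟩
    have hBne : B.Nonempty := card_pos.1 (by omega)
    obtain ⟨a, ha⟩ := hBne
    by_cases h1 : p ∈ S <;> by_cases h2 : q ∈ S
    · have h3 : ∃ b ∈ B, b ∉ S := by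
        rcases mem_insert.1 hv with rfl | hv
        · exact absurd h1 hvS
        · rcases mem_insert.1 hv with rfl | hv
          · exact absurd h2 hvS
          · exact ⟨v, hv, hvS⟩
      obtain ⟨b, hb, hbS⟩ := h3
      exact ⟨p, b, q, b, h1, hbS, Or.inr (Or.inl ⟨Or.inl rfl, hb⟩), h2, hbS,
        Or.inr (Or.inl ⟨Or.inr rfl, hb⟩), fun h => hpq h.1.symm⟩
    · by_cases h3 : a ∈ S
      · exact ⟨p, q, a, q, h1, h2, Or.inr (Or.inr (Or.inl ⟨rfl, rfl⟩)), h3, h2,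
          Or.inl ⟨ha, Or.inr rfl⟩, fun h => hp (h.1 ▸ ha)⟩
      · exact ⟨p, q, p, a, h1, h2, Or.inr (Or.inr (Or.inl ⟨rfl, rfl⟩)), h1, h3,
          Or.inr (Or.inl ⟨Or.inl rfl, ha⟩), fun h => hq (h.2 ▸ ha)⟩
    · by_cases h3 : a ∈ S
      · exact ⟨q, p, a, p, h2, h1, Or.inr (Or.inr (Or.inr ⟨rfl, rfl⟩)), h3, h1,
          Or.inl ⟨ha, Or.inl rfl⟩, fun h => hq (h.1 ▸ ha)⟩
      · exact ⟨q, p, q, a, h2, h1, Or.inr (Or.inr (Or.inr ⟨rfl, rfl⟩)), h2, h3,
          Or.inr (Or.inl ⟨Or.inr rfl, ha⟩), fun h => hp (h.2 ▸ ha)⟩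
    · have h3 : ∃ b ∈ B, b ∈ S := by
        rcases mem_insert.1 hu with rfl | hu
        · exact absurd huS h1
        · rcases mem_insert.1 hu with rfl | hu
          · exact absurd huS h2
          · exact ⟨u, hu, huS⟩
      obtain ⟨b, hb, hbS⟩ := h3
      exact ⟨b, p, b, q, hbS, h1, Or.inl ⟨hb, Or.inl rfl⟩, hbS, h2,
        Or.inl ⟨hb, Or.inr rfl⟩, fun h => hpq h.2.symm⟩

/-- **Contractions in a smallest counterexample.** -/
theorem contr_of_smaller (h3 : Cub G) (hbr : NoBr G) {P : Finset V}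
    (hb : ∀ v ∈ P, ∀ w w', w ∉ P → w' ∉ P → G.Adj v w → G.Adj v w' → w = w')
    {Q : Finset V} (hQ : Q ⊆ P) (hQ3 : 3 ≤ Q.card) (hQin : ∀ v ∈ Q, ∀ w, G.Adj v w → w ∈ P)
    (hs : SmallerOK (Fintype.card V)) : ContrFlow G P := by
  classical
  set B := P.filter fun v => ∃ w, w ∉ P ∧ G.Adj v w with hBdef
  have hB : ∀ v, v ∈ B ↔ v ∈ P ∧ ∃ w, w ∉ P ∧ G.Adj v w := fun v => mem_filter
  have hBP : B ⊆ P := filter_subset _ _
  have hQB : ∀ v ∈ Q, v ∉ B := fun v hv h => by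
    obtain ⟨-, w, hw, hvw⟩ := (hB v).1 h
    exact hw (hQin v hv w hvw)
  obtain ⟨p, q, r, hp, hq, hr, hpq, hpr, hqr⟩ := (two_lt_card_iff (s := Q)).1 (by omega)
  rcases Nat.lt_or_ge B.card 3 with hlt | hge
  · interval_cases hc : B.card
    · have hB0 : B = ∅ := card_eq_zero.1 hc
      refine contr_of_gad h3 hbr (gad_empty P) (B := ∅) (fun v => ?_) hb
        ⟨p, hQ hp, notMem_empty _⟩ hs
      rw [← hB0]
      exact hB v
    · exfalso
      obtain ⟨b, hb1⟩ := card_eq_one.1 hc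
      obtain ⟨hbP, w, hw, hbw⟩ := (hB b).1 (by rw [hb1]; exact mem_singleton_self b)
      obtain ⟨u', hu', v', hv', huv', hne⟩ := hbr (P : Set V) b (by exact_mod_cast hbP) w
        (by exact_mod_cast hw) hbw
      have hu'P : u' ∈ P := by exact_mod_cast hu'
      have hv'P : v' ∉ P := by exact_mod_cast hv'
      have h4 : u' ∈ B := (hB u').2 ⟨hu'P, v', hv'P, huv'⟩
      rw [hb1, mem_singleton] at h4
      subst h4
      exact hne ⟨rfl, hb u' hu'P _ _ hv'P hw huv' hbw⟩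
    · obtain ⟨C, hC⟩ := gad_four hBP hc (hQ hp) (hQ hq) hpq (hQB p hp) (hQB q hq)
      refine contr_of_gad h3 hbr hC hB hb ⟨r, hQ hr, ?_⟩ hs
      rw [mem_insert, mem_insert, not_or, not_or]
      exact ⟨hpr.symm, hqr.symm, hQB r hr⟩
  · obtain ⟨C, hC⟩ := gad_cycle hBP hge
    exact contr_of_gad h3 hbr hC hB hb ⟨p, hQ hp, hQB p hp⟩ hs

/-- A smallest counterexample is connected. -/
theorem nz_of_disc (h3 : Cub G) (hbr : NoBr G) {P : Finset V} (hP : P.Nonempty)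
    (hP' : Pᶜ.Nonempty) (hno : ∀ u ∈ P, ∀ v, v ∉ P → ¬ G.Adj u v)
    (hs : SmallerOK (Fintype.card V)) : HasNZFlow (ZMod 5) G := by
  classical
  have hone : ∀ Q : Finset V, (∀ u ∈ Q, ∀ v, v ∉ Q → ¬ G.Adj u v) → Q.Nonempty →
      ContrFlow G Q := by
    intro Q hQ hne
    obtain ⟨v, hv⟩ := hne
    refine contr_of_gad h3 hbr (gad_empty Q) (fun v => ?_) (fun v hv w w' hw _ hvw _ =>
      absurd hvw (hQ v hv w hw)) ⟨v, hv, notMem_empty _⟩ hs
    constructor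
    · intro h
      exact absurd h (notMem_empty _)
    · rintro ⟨h1, w, h2, h3⟩
      exact absurd h3 (hQ v h1 w h2)
  obtain ⟨f, hfa, hfn, hfc⟩ := hone P hno hP
  obtain ⟨g, hga, hgn, hgc⟩ := hone Pᶜ (fun u hu v hv huv =>
    hno v (by simpa using hv) u (by simpa using hu) huv.symm) hP'
  refine ⟨fun u v => f u v + g u v, fun u v => ?_, fun u v => ?_, fun v => ?_⟩
  · show f u v + g u v = -(f v u + g v u)
    rw [hfa u v, hga u v]
    ring
  · show f u v + g u v ≠ 0 ↔ G.Adj u v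
    by_cases huv : G.Adj u v
    · simp only [huv, iff_true]
      by_cases hu : u ∈ P
      · have hv : v ∈ P := by
          by_contra h
          exact hno u hu v h huv
        have h1 : f u v = 0 := by
          by_contra h
          exact ((hfn u v).1 h).2 ⟨hu, hv⟩
        rw [h1, zero_add]
        exact (hgn u v).2 ⟨huv, fun h => (mem_compl.1 h.1) hu⟩
      · have hv : v ∉ P := fun h => hno v h u hu huv.symm
        have h1 : g u v = 0 := by
          by_contra h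
          exact ((hgn u v).1 h).2 ⟨mem_compl.2 hu, mem_compl.2 hv⟩
        rw [h1, add_zero]
        exact (hfn u v).2 ⟨huv, fun h => hu h.1⟩
    · simp only [huv, iff_false, not_not]
      have h1 : f u v = 0 := by
        by_contra h
        exact huv ((hfn u v).1 h).1
      have h2 : g u v = 0 := by
        by_contra h
        exact huv ((hgn u v).1 h).1
      rw [h1, h2, add_zero]
  · show ∑ u, (f v u + g v u) = 0
    rw [sum_add_distrib]
    by_cases hv : v ∈ P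
    · have h1 : ∑ u, f v u = 0 := sum_eq_zero fun u _ => by
        by_contra h
        have h2 := (hfn v u).1 h
        exact hno v hv u (fun h3 => h2.2 ⟨hv, h3⟩) h2.1
      rw [h1, zero_add]
      exact hgc v (by simpa using hv)
    · have h1 : ∑ u, g v u = 0 := sum_eq_zero fun u _ => by
        by_contra h
        have h2 := (hgn v u).1 h
        have h4 : u ∈ P := by
          by_contra h5
          exact h2.2 ⟨mem_compl.2 hv, mem_compl.2 h5⟩
        exact hno u h4 v hv h2.1.symm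
      rw [h1, add_zero]
      exact hfc v hv

end

end Pool.Agent.K5
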