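import Mathlib

/-!
# Splitting off at vertices outside a set of terminals in an Eulerian multigraph

A multigraph is a pair of maps `s t : E → V`.  All cuts are even and every cut which separates two
terminals has at least `2 m` edges.  Then pairs of edges can be split off at all vertices outside
the set of terminals, such that the cuts which separate two terminals keep at least `2 m` edges.
A pair of edges `v u`, `v w` is replaced by an edge `u w` and a loop at `v`.
-/

set_option autoImplicit false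
set_option linter.unusedSectionVars false

namespace Pool.Agent.Term5

open Finset

universe u w

variable {V : Type u} {E : Type w} [Fintype V] [DecidableEq V] [Fintype E] [DecidableEq E]

/-- The number of edges between `X` and the complement. -/
def dcut (s t : E → V) (X : Finset V) : ℤ := ∑ e, if (s e ∈ X ↔ t e ∈ X) then 0 else 1

/-- The net outflow. -/
def nets (s t : E → V) (f : E → ℤ) (v : V) : ℤ :=
  ∑ e, ((if s e = v then f e else 0) - if t e = v then f e else 0)

/-- `X` separates two terminals. -/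
def Sep (T X : Finset V) : Prop := (∃ a ∈ T, a ∈ X) ∧ ∃ b ∈ T, b ∉ X

theorem dcut_nonneg (s t : E → V) (X : Finset V) : 0 ≤ dcut s t X :=
  Finset.sum_nonneg fun e _ => by split_ifs <;> norm_num

theorem dcut_compl (s t : E → V) (X : Finset V) : dcut s t Xᶜ = dcut s t X := by
  unfold dcut
  refine Finset.sum_congr rfl fun e _ => ?_
  simp only [mem_compl]
  by_cases h1 : s e ∈ X <;> by_cases h2 : t e ∈ X <;> simp [h1, h2]

theorem submod (s t : E → V) (X Y : Finset V) :
    dcut s t (X ∩ Y) + dcut s t (X ∪ Y) ≤ dcut s t X + dcut s t Y := by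
  unfold dcut
  rw [← Finset.sum_add_distrib, ← Finset.sum_add_distrib]
  refine Finset.sum_le_sum fun e _ => ?_
  by_cases h1 : s e ∈ X <;> by_cases h2 : t e ∈ X <;> by_cases h3 : s e ∈ Y <;>
    by_cases h4 : t e ∈ Y <;> simp [h1, h2, h3, h4]

/-- The posimodular inequality, with the contribution of an edge from the intersection to the
complement of the union. -/
theorem posimod (s t : E → V) (X Y : Finset V) {e : E}
    (he : (s e ∉ X ∧ s e ∉ Y ∧ t e ∈ X ∧ t e ∈ Y) ∨ (t e ∉ X ∧ t e ∉ Y ∧ s e ∈ X ∧ s e ∈ Y)) :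
    dcut s t (X \ Y) + dcut s t (Y \ X) + 2 ≤ dcut s t X + dcut s t Y := by
  have key : ∀ f : E, (if (s f ∈ X \ Y ↔ t f ∈ X \ Y) then (0 : ℤ) else 1) +
      (if (s f ∈ Y \ X ↔ t f ∈ Y \ X) then 0 else 1) + (if f = e then 2 else 0) ≤
      (if (s f ∈ X ↔ t f ∈ X) then 0 else 1) + if (s f ∈ Y ↔ t f ∈ Y) then 0 else 1 := by
    intro f
    by_cases hf : f = e
    · subst hf
      rcases he with ⟨h1, h2, h3, h4⟩ | ⟨h1, h2, h3, h4⟩ <;> simp [h1, h2, h3, h4]
    · by_cases h1 : s f ∈ X <;> by_cases h2 : t f ∈ X <;> by_cases h3 : s f ∈ Y <;>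
        by_cases h4 : t f ∈ Y <;> simp [h1, h2, h3, h4, hf]
  have h := Finset.sum_le_sum fun (f : E) (_ : f ∈ (univ : Finset E)) => key f
  rw [Finset.sum_add_distrib, Finset.sum_add_distrib, Finset.sum_add_distrib] at h
  simpa [dcut] using h

/-- The number of edges between `v` and `X`. -/
def dto (s t : E → V) (v : V) (X : Finset V) : ℤ :=
  ∑ e, if (s e = v ∧ t e ∈ X) ∨ (t e = v ∧ s e ∈ X) then 1 else 0

theorem dcut_insert (s t : E → V) {v : V} {X : Finset V} (hv : v ∉ X) :
    dcut s t (insert v X) + 2 * dto s t v X = dcut s t X + dcut s t {v} := by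
  unfold dcut dto
  rw [Finset.mul_sum, ← Finset.sum_add_distrib, ← Finset.sum_add_distrib]
  refine Finset.sum_congr rfl fun e _ => ?_
  by_cases h1 : s e = v <;> by_cases h2 : t e = v
  · simp [h1, h2, hv]
  · by_cases h3 : t e ∈ X <;> simp [h1, h2, h3, hv]
  · by_cases h3 : s e ∈ X <;> simp [h1, h2, h3, hv]
  · by_cases h3 : s e ∈ X <;> by_cases h4 : t e ∈ X <;> simp [h1, h2, h3, h4]

theorem sum_two {c c' : E → ℤ} {e f : E} (hef : e ≠ f)
    (h : ∀ g, g ≠ e → g ≠ f → c' g = c g) :
    ∑ g, c' g = ∑ g, c g + (c' e + c' f - c e - c f) := by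
  have h1 : ∑ g, (c' g - c g) = ∑ g ∈ {e, f}, (c' g - c g) := by
    refine (Finset.sum_subset (Finset.subset_univ _) fun g _ hg => ?_).symm
    simp only [mem_insert, mem_singleton, not_or] at hg
    rw [h g hg.1 hg.2, sub_self]
  rw [Finset.sum_sub_distrib, Finset.sum_pair hef] at h1
  linarith

section split

variable (s t : E → V) (e f : E) (v u w : V)

/-- The new first ends. -/
def ns : E → V := fun g => if g = e then u else if g = f then v else s g

/-- The new second ends. -/
def nt : E → V := fun g => if g = e then w else if g = f then v else t g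

variable {s t e f v u w}

theorem dcut_split (hef : e ≠ f) (he : (s e = v ∧ t e = u) ∨ (s e = u ∧ t e = v))
    (hf : (s f = v ∧ t f = w) ∨ (s f = w ∧ t f = v)) (X : Finset V) :
    dcut (ns s e f v u) (nt t e f v w) X =
      dcut s t X - if (u ∈ X ↔ w ∈ X) ∧ ¬ (v ∈ X ↔ u ∈ X) then 2 else 0 := by
  unfold dcut
  rw [sum_two (c := fun g => if (s g ∈ X ↔ t g ∈ X) then 0 else 1) hef (fun g h1 h2 => by
    simp only [ns, nt, if_neg h1, if_neg h2])]
  have e1 : ns s e f v u e = u := if_pos rfl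
  have e2 : nt t e f v w e = w := if_pos rfl
  have e3 : ns s e f v u f = v := by simp [ns, hef.symm]
  have e4 : nt t e f v w f = v := by simp [nt, hef.symm]
  rw [e1, e2, e3, e4]
  rcases he with ⟨h1, h2⟩ | ⟨h1, h2⟩ <;> rcases hf with ⟨h3, h4⟩ | ⟨h3, h4⟩ <;>
    simp only [h1, h2, h3, h4] <;>
    by_cases p1 : u ∈ X <;> by_cases p2 : v ∈ X <;> by_cases p3 : w ∈ X <;>
    simp [p1, p2, p3] <;> ring

theorem nets_split (hef : e ≠ f) (huv : u ≠ v) (hwv : w ≠ v)
    (he : (s e = v ∧ t e = u) ∨ (s e = u ∧ t e = v))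
    (hf : (s f = v ∧ t f = w) ∨ (s f = w ∧ t f = v)) (σ' : E → ℤ)
    (h' : ∀ g, σ' g = 1 ∨ σ' g = -1) :
    ∃ σ : E → ℤ, (∀ g, σ g = 1 ∨ σ g = -1) ∧
      ∀ x, nets s t σ x = nets (ns s e f v u) (nt t e f v w) σ' x := by
  refine ⟨fun g => if g = e then (if s e = u then σ' e else - σ' e) else
    if g = f then (if s f = v then σ' e else - σ' e) else σ' g, fun g => ?_, fun x => ?_⟩
  · have h1 := h' e
    have h2 := h' g
    have h3 : - σ' e = 1 ∨ - σ' e = -1 := by
      rcases h1 with h | h <;> rw [h] <;> simp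
    dsimp only
    split_ifs
    · exact h1
    · exact h3
    · exact h1
    · exact h3
    · exact h2
  · unfold nets
    rw [sum_two (c := fun g => (if ns s e f v u g = x then σ' g else 0) -
      if nt t e f v w g = x then σ' g else 0) hef (fun g h1 h2 => by
      simp only [ns, nt, if_neg h1, if_neg h2])]
    have e1 : ns s e f v u e = u := if_pos rfl
    have e2 : nt t e f v w e = w := if_pos rfl
    have e3 : ns s e f v u f = v := by simp [ns, hef.symm]
    have e4 : nt t e f v w f = v := by simp [nt, hef.symm]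
    simp only [e1, e2, e3, e4, if_true, if_neg hef.symm]
    rcases he with ⟨h1, h2⟩ | ⟨h1, h2⟩ <;> rcases hf with ⟨h3, h4⟩ | ⟨h3, h4⟩ <;>
      simp only [h1, h2, h3, h4, if_neg huv.symm, if_neg hwv, if_true] <;>
      by_cases p1 : u = x <;> by_cases p2 : v = x <;> by_cases p3 : w = x <;>
      simp [p1, p2, p3]

end split

/-- The number of edges which are not loops. -/
def nloop (s t : E → V) : ℕ := (univ.filter fun e => s e ≠ t e).card

theorem one_le_dcut_single {s t : E → V} {v : V} {e : E}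
    (he : ¬ (s e = v ↔ t e = v)) : 1 ≤ dcut s t {v} := by
  unfold dcut
  have h := Finset.single_le_sum (f := fun g => if (s g ∈ ({v} : Finset V) ↔ t g ∈ ({v} : Finset V))
    then (0 : ℤ) else 1) (fun g _ => by split_ifs <;> norm_num) (mem_univ e)
  simp only [mem_singleton, if_neg he] at h
  simpa using h

/-- **One splitting step.** -/
theorem split_step {m : ℤ} {T : Finset V} {s t : E → V} (heven : ∀ X, Even (dcut s t X))
    (hcut : ∀ X, Sep T X → 2 * m ≤ dcut s t X) {v : V} (hv : v ∉ T) {e : E}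
    (he : ¬ (s e = v ↔ t e = v)) :
    ∃ s' t' : E → V, (∀ X, Even (dcut s' t' X)) ∧ (∀ X, Sep T X → 2 * m ≤ dcut s' t' X) ∧
      (∀ X, dcut s' t' X ≤ dcut s t X) ∧
      nloop s' t' < nloop s t ∧ ∀ σ' : E → ℤ, (∀ g, σ' g = 1 ∨ σ' g = -1) →
        ∃ σ : E → ℤ, (∀ g, σ g = 1 ∨ σ g = -1) ∧ ∀ x, nets s t σ x = nets s' t' σ' x := by
  classical
  -- the other end of `e`
  obtain ⟨u, huv, heu⟩ : ∃ u, u ≠ v ∧ ((s e = v ∧ t e = u) ∨ (s e = u ∧ t e = v)) := by
    by_cases h1 : s e = v
    · have h2 : t e ≠ v := fun h => he ⟨fun _ => h, fun _ => h1⟩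
      exact ⟨t e, h2, Or.inl ⟨h1, rfl⟩⟩
    · have h2 : t e = v := by
        by_contra h
        exact he ⟨fun h' => absurd h' h1, fun h' => absurd h' h⟩
      exact ⟨s e, h1, Or.inr ⟨rfl, h2⟩⟩
  set P : Finset V → Prop := fun X => Sep T X ∧ dcut s t X = 2 * m ∧ v ∉ X ∧ u ∈ X with hP
  have hunion : ∀ X Y, P X → P Y → P (X ∪ Y) := by
    rintro X Y ⟨⟨⟨a, a1, a2⟩, b, b1, b2⟩, x2, x3, x4⟩ ⟨⟨⟨c, c1, c2⟩, d, d1, d2⟩, y2, y3, y4⟩
    have h1 := posimod s t X Y (e := e) (by
      rcases heu with ⟨h1, h2⟩ | ⟨h1, h2⟩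
      · rw [h1, h2]; exact Or.inl ⟨x3, y3, x4, y4⟩
      · rw [h1, h2]; exact Or.inr ⟨x3, y3, x4, y4⟩)
    have h2 := submod s t X Y
    have nested : (∀ z ∈ T, z ∈ X → z ∈ Y) ∨ ∀ z ∈ T, z ∈ Y → z ∈ X := by
      by_contra hcon
      push Not at hcon
      obtain ⟨⟨z, z1, z2, z3⟩, z', w1, w2, w3⟩ := hcon
      have g1 := hcut (X \ Y) ⟨⟨z, z1, mem_sdiff.2 ⟨z2, z3⟩⟩, z', w1, fun h =>
        w3 (mem_sdiff.1 h).1⟩
      have g2 := hcut (Y \ X) ⟨⟨z', w1, mem_sdiff.2 ⟨w2, w3⟩⟩, z, z1, fun h =>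
        z3 (mem_sdiff.1 h).1⟩
      linarith
    have hsep : Sep T (X ∩ Y) ∧ Sep T (X ∪ Y) := by
      rcases nested with h | h
      · exact ⟨⟨⟨a, a1, mem_inter.2 ⟨a2, h a a1 a2⟩⟩, b, b1, fun h' => b2 (mem_inter.1 h').1⟩,
          ⟨a, a1, mem_union_left _ a2⟩, d, d1, fun h' => by
            rcases mem_union.1 h' with h' | h'
            · exact d2 (h d d1 h')
            · exact d2 h'⟩
      · exact ⟨⟨⟨c, c1, mem_inter.2 ⟨h c c1 c2, c2⟩⟩, d, d1, fun h' => d2 (mem_inter.1 h').2⟩,
          ⟨a, a1, mem_union_left _ a2⟩, b, b1, fun h' => by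
            rcases mem_union.1 h' with h' | h'
            · exact b2 h'
            · exact b2 (h b b1 h')⟩
    have g1 := hcut _ hsep.1
    have g2 := hcut _ hsep.2
    refine ⟨hsep.2, by linarith, ?_, mem_union_left _ x4⟩
    intro h
    rcases mem_union.1 h with h | h
    · exact x3 h
    · exact y3 h
  -- the second edge
  obtain ⟨f, w, hef, hwv, hfw, hbad⟩ : ∃ f w, e ≠ f ∧ w ≠ v ∧
      ((s f = v ∧ t f = w) ∨ (s f = w ∧ t f = v)) ∧ ∀ X, P X → w ∉ X := by
    have other : ∀ g : E, ¬ (s g = v ↔ t g = v) →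
        ∃ w, w ≠ v ∧ ((s g = v ∧ t g = w) ∨ (s g = w ∧ t g = v)) := by
      intro g hg
      by_cases h1 : s g = v
      · have h2 : t g ≠ v := fun h => hg ⟨fun _ => h, fun _ => h1⟩
        exact ⟨t g, h2, Or.inl ⟨h1, rfl⟩⟩
      · have h2 : t g = v := by
          by_contra h
          exact hg ⟨fun h' => absurd h' h1, fun h' => absurd h' h⟩
        exact ⟨s g, h1, Or.inr ⟨rfl, h2⟩⟩
    by_cases hne : ∃ X, P X
    · -- the largest tight set
      obtain ⟨X0, hX0⟩ := hne
      have hmax : ∃ X, P X ∧ ∀ Y, P Y → Y ⊆ X := by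
        obtain ⟨X, hX, hX2⟩ := Finset.exists_max_image (univ.filter fun X => P X)
          (fun X => X.card) ⟨X0, mem_filter.2 ⟨mem_univ _, hX0⟩⟩
        refine ⟨X, (mem_filter.1 hX).2, fun Y hY => ?_⟩
        have h1 := hX2 (X ∪ Y) (mem_filter.2 ⟨mem_univ _, hunion X Y (mem_filter.1 hX).2 hY⟩)
        have h2 := Finset.eq_of_subset_of_card_le (subset_union_left (s₁ := X) (s₂ := Y)) h1
        rw [h2]
        exact subset_union_right
      obtain ⟨X, hX, hX2⟩ := hmax
      have h1 := dcut_insert s t (v := v) (X := X) hX.2.2.1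
      have h2 : 2 * m ≤ dcut s t (insert v X) := by
        refine hcut _ ?_
        obtain ⟨⟨⟨a, a1, a2⟩, b, b1, b2⟩, -⟩ := hX
        exact ⟨⟨a, a1, mem_insert_of_mem a2⟩, b, b1, fun h => by
          rcases mem_insert.1 h with h | h
          · exact hv (h ▸ b1)
          · exact b2 h⟩
      have h3 : 2 * dto s t v X ≤ dcut s t {v} := by
        have := hX.2.1
        linarith
      have h4 := one_le_dcut_single (s := s) (t := t) he
      obtain ⟨f, hf⟩ : ∃ f, ¬ (s f = v ↔ t f = v) ∧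
          ¬ ((s f = v ∧ t f ∈ X) ∨ (t f = v ∧ s f ∈ X)) := by
        by_contra hcon0
        have hcon : ∀ f, ¬ (s f = v ↔ t f = v) →
            ((s f = v ∧ t f ∈ X) ∨ (t f = v ∧ s f ∈ X)) :=
          fun f hf => by_contra fun h => hcon0 ⟨f, hf, h⟩
        have : dcut s t {v} ≤ dto s t v X := by
          unfold dcut dto
          refine Finset.sum_le_sum fun g _ => ?_
          by_cases hg : s g = v ↔ t g = v
          · simp only [mem_singleton, if_pos hg]
            split_ifs <;> norm_num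
          · have := hcon g hg
            simp only [mem_singleton, if_neg hg, if_pos this]
            exact le_rfl
        linarith
      obtain ⟨w, w1, w2⟩ := other f hf.1
      have hwX : w ∉ X := by
        intro h
        refine hf.2 ?_
        rcases w2 with ⟨h1, h2⟩ | ⟨h1, h2⟩
        · exact Or.inl ⟨h1, h2 ▸ h⟩
        · exact Or.inr ⟨h2, h1 ▸ h⟩
      refine ⟨f, w, ?_, w1, w2, fun Y hY h => hwX (hX2 Y hY h)⟩
      rintro rfl
      have : w = u := by
        rcases w2 with ⟨h1, h2⟩ | ⟨h1, h2⟩ <;> rcases heu with ⟨h3, h4⟩ | ⟨h3, h4⟩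
        · exact h2.symm.trans h4
        · exact absurd (h4.symm.trans h2) fun h => w1 h.symm
        · exact absurd (h3.symm.trans h1) fun h => w1 h.symm
        · exact h1.symm.trans h3
      exact hwX (this ▸ hX.2.2.2)
    · push Not at hne
      obtain ⟨f, hf, hf2⟩ : ∃ f, e ≠ f ∧ ¬ (s f = v ↔ t f = v) := by
        by_contra hcon
        push Not at hcon
        have h1 : dcut s t {v} = 1 := by
          unfold dcut
          rw [Finset.sum_eq_single e]
          · simp only [mem_singleton, if_neg he]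
          · intro g _ hg
            simp only [mem_singleton]
            exact if_pos (hcon g hg.symm)
          · intro h
            exact absurd (mem_univ _) h
        have := heven {v}
        rw [h1] at this
        exact absurd this (by decide)
      obtain ⟨w, w1, w2⟩ := other f hf2
      exact ⟨f, w, hf, w1, w2, fun X hX => absurd hX (hne X)⟩
  refine ⟨ns s e f v u, nt t e f v w, fun X => ?_, fun X hX => ?_, fun X => ?_, ?_, ?_⟩
  · rw [dcut_split hef heu hfw]
    refine (heven X).sub ?_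
    split_ifs
    · exact even_two
    · exact Even.zero
  · rw [dcut_split hef heu hfw]
    have h1 := hcut X hX
    split_ifs with hc
    · by_contra hcon
      obtain ⟨k, hk⟩ := heven X
      have h2 : dcut s t X = 2 * m := by omega
      by_cases hu : u ∈ X
      · exact hbad X ⟨hX, h2, fun h => hc.2 ⟨fun _ => hu, fun _ => h⟩, hu⟩ (hc.1.1 hu)
      · have hw : w ∉ X := fun h => hu (hc.1.2 h)
        have hvX : v ∈ X := by
          by_contra h
          exact hc.2 ⟨fun h' => absurd h' h, fun h' => absurd h' hu⟩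
        obtain ⟨⟨a, a1, a2⟩, b, b1, b2⟩ := hX
        refine hbad Xᶜ ⟨⟨⟨b, b1, mem_compl.2 b2⟩, a, a1, fun h => mem_compl.1 h a2⟩, ?_, ?_, ?_⟩
          (mem_compl.2 hw)
        · rw [dcut_compl]; exact h2
        · exact fun h => mem_compl.1 h hvX
        · exact mem_compl.2 hu
    · linarith
  · rw [dcut_split hef heu hfw]
    split_ifs <;> linarith
  · unfold nloop
    refine Finset.card_lt_card ⟨fun g hg => ?_, fun hsub => ?_⟩
    · rw [mem_filter] at hg ⊢
      refine ⟨mem_univ _, ?_⟩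
      by_cases h1 : g = e
      · rw [h1]
        rcases heu with ⟨h2, h3⟩ | ⟨h2, h3⟩ <;> rw [h2, h3]
        · exact huv.symm
        · exact huv
      · by_cases h2 : g = f
        · exfalso
          refine hg.2 ?_
          simp [ns, nt, h2, hef.symm]
        · have := hg.2
          simpa only [ns, nt, if_neg h1, if_neg h2] using this
    · have hf : f ∈ univ.filter fun g => s g ≠ t g := by
        rw [mem_filter]
        refine ⟨mem_univ _, ?_⟩
        rcases hfw with ⟨h2, h3⟩ | ⟨h2, h3⟩ <;> rw [h2, h3]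
        · exact hwv.symm
        · exact hwv
      have := (mem_filter.1 (hsub hf)).2
      refine this ?_
      simp [ns, nt, hef.symm]
  · exact fun σ' h' => nets_split hef huv hwv heu hfw σ' h'

/-- **Splitting off all vertices outside the terminals.** -/
theorem split_all {m : ℤ} {T : Finset V} : ∀ (n : ℕ) (s t : E → V), nloop s t ≤ n →
    (∀ X, Even (dcut s t X)) → (∀ X, Sep T X → 2 * m ≤ dcut s t X) →
    ∃ s' t' : E → V, (∀ v, v ∉ T → ∀ e, s' e = v ↔ t' e = v) ∧ (∀ X, Even (dcut s' t' X)) ∧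
      (∀ X, Sep T X → 2 * m ≤ dcut s' t' X) ∧ (∀ X, dcut s' t' X ≤ dcut s t X) ∧
      ∀ σ' : E → ℤ, (∀ g, σ' g = 1 ∨ σ' g = -1) →
        ∃ σ : E → ℤ, (∀ g, σ g = 1 ∨ σ g = -1) ∧ ∀ x, nets s t σ x = nets s' t' σ' x := by
  intro n
  induction n with
  | zero =>
    intro s t hn h1 h2
    refine ⟨s, t, fun v _ e => ?_, h1, h2, fun X => le_rfl, fun σ' h' => ⟨σ', h', fun _ => rfl⟩⟩
    have h3 : s e = t e := by
      by_contra h
      have : 0 < nloop s t := Finset.card_pos.2 ⟨e, mem_filter.2 ⟨mem_univ _, h⟩⟩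
      omega
    rw [h3]
  | succ n ih =>
    intro s t hn h1 h2
    by_cases h : ∀ v, v ∉ T → ∀ e, s e = v ↔ t e = v
    · exact ⟨s, t, h, h1, h2, fun X => le_rfl, fun σ' h' => ⟨σ', h', fun _ => rfl⟩⟩
    · push Not at h
      obtain ⟨v, hv, e, he⟩ := h
      have he' : ¬ (s e = v ↔ t e = v) := by
        rcases he with ⟨h3, h4⟩ | ⟨h3, h4⟩
        · exact fun h => h4 (h.1 h3)
        · exact fun h => h3 (h.2 h4)
      obtain ⟨s1, t1, g1, g2, g5, g3, g4⟩ := split_step h1 h2 hv he'
      obtain ⟨s2, t2, k1, k2, k3, k5, k4⟩ := ih s1 t1 (by omega) g1 g2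
      refine ⟨s2, t2, k1, k2, k3, fun X => (k5 X).trans (g5 X), fun σ' h' => ?_⟩
      obtain ⟨σ1, r1, r2⟩ := k4 σ' h'
      obtain ⟨σ, r3, r4⟩ := g4 σ1 r1
      exact ⟨σ, r3, fun x => (r4 x).trans (r2 x)⟩

end Pool.Agent.Term5
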