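import Mathlib

/-!
# Lovasz splitting off, Steiner form

Symmetric nonnegative integer weights on pairs, all cuts even, every cut that separates the
terminals `U` of weight at least `2 κ`. Then all weight at the other vertices can be split off.
-/

set_option linter.unusedSectionVars false

namespace Pool.Agent.K5

open Finset

variable {V : Type*} [Fintype V] [DecidableEq V]

/-- The weight of the cut. -/
def wc (w : V → V → ℤ) (X : Finset V) : ℤ := ∑ u, ∑ v, if u ∈ X ∧ v ∉ X then w u v else 0

/-- A unit weight on one ordered pair. -/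
def un (a b : V) : V → V → ℤ := fun x y => if x = a ∧ y = b then 1 else 0

theorem wc_un (a b : V) (X : Finset V) : wc (un a b) X = if a ∈ X ∧ b ∉ X then 1 else 0 := by
  unfold wc un
  rw [sum_eq_single a]
  · rw [sum_eq_single b]
    · simp
    · intro y _ hy
      simp [hy]
    · simp
  · intro x _ hx
    simp [hx]
  · simp

theorem wc_add (w w' : V → V → ℤ) (X : Finset V) : wc (w + w') X = wc w X + wc w' X := by
  unfold wc
  rw [← sum_add_distrib]
  refine sum_congr rfl fun u _ => ?_
  rw [← sum_add_distrib]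
  refine sum_congr rfl fun v _ => ?_
  split_ifs <;> simp

theorem wc_sub (w w' : V → V → ℤ) (X : Finset V) : wc (w - w') X = wc w X - wc w' X := by
  unfold wc
  rw [← sum_sub_distrib]
  refine sum_congr rfl fun u _ => ?_
  rw [← sum_sub_distrib]
  refine sum_congr rfl fun v _ => ?_
  split_ifs <;> simp

theorem wc_compl {w : V → V → ℤ} (hs : ∀ u v, w u v = w v u) (X : Finset V) :
    wc w Xᶜ = wc w X := by
  unfold wc
  rw [sum_comm]
  refine sum_congr rfl fun u _ => sum_congr rfl fun v _ => ?_
  rw [hs u v]
  by_cases h1 : u ∈ X <;> by_cases h2 : v ∈ X <;> simp [h1, h2]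

theorem wc_nonneg {w : V → V → ℤ} (h0 : ∀ u v, 0 ≤ w u v) (X : Finset V) : 0 ≤ wc w X := by
  refine sum_nonneg fun u _ => sum_nonneg fun v _ => ?_
  split_ifs
  · exact h0 u v
  · exact le_rfl

theorem wc_submod {w : V → V → ℤ} (h0 : ∀ u v, 0 ≤ w u v) (A B : Finset V) :
    wc w (A ∩ B) + wc w (A ∪ B) ≤ wc w A + wc w B := by
  unfold wc
  rw [← sum_add_distrib, ← sum_add_distrib]
  refine sum_le_sum fun u _ => ?_
  rw [← sum_add_distrib, ← sum_add_distrib]
  refine sum_le_sum fun v _ => ?_
  have := h0 u v
  by_cases h1 : u ∈ A <;> by_cases h2 : v ∈ A <;> by_cases h3 : u ∈ B <;> by_cases h4 : v ∈ B <;>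
    simp [h1, h2, h3, h4, this]

theorem wc_submod_strong {w : V → V → ℤ} (h0 : ∀ u v, 0 ≤ w u v) (hs : ∀ u v, w u v = w v u)
    (A B : Finset V) {a b : V} (ha : a ∈ A) (ha' : a ∉ B) (hb : b ∈ B) (hb' : b ∉ A)
    (hw : 1 ≤ w a b) :
    wc w (A ∩ B) + wc w (A ∪ B) + 2 ≤ wc w A + wc w B := by
  have hab : a ≠ b := fun h => hb' (h ▸ ha)
  set w' := w - un a b - un b a with hw'
  have h0' : ∀ u v, 0 ≤ w' u v := by
    intro u v
    simp only [hw', Pi.sub_apply, un]
    have h1 := h0 u v
    by_cases h2 : u = a ∧ v = b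
    · rw [if_pos h2, if_neg (fun h => hab (h2.1.symm.trans h.1)), h2.1, h2.2]
      omega
    · rw [if_neg h2]
      by_cases h3 : u = b ∧ v = a
      · rw [if_pos h3, h3.1, h3.2, hs b a]
        omega
      · rw [if_neg h3]
        omega
  have key := wc_submod h0' A B
  simp only [hw', wc_sub, wc_un] at key
  simp only [mem_inter, mem_union, ha, ha', hb, hb'] at key
  simp at key
  linarith

/-- Total weight off the diagonal. -/
def tot (w : V → V → ℤ) : ℤ := ∑ u, ∑ v, if u ≠ v then w u v else 0

theorem tot_un (a b : V) : tot (un a b) = if a ≠ b then 1 else 0 := by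
  unfold tot un
  rw [sum_eq_single a]
  · rw [sum_eq_single b]
    · simp
    · intro y _ hy
      simp [hy]
    · simp
  · intro x _ hx
    simp [hx]
  · simp

theorem tot_add (w w' : V → V → ℤ) : tot (w + w') = tot w + tot w' := by
  unfold tot
  rw [← sum_add_distrib]
  refine sum_congr rfl fun u _ => ?_
  rw [← sum_add_distrib]
  refine sum_congr rfl fun v _ => ?_
  split_ifs <;> simp

theorem tot_sub (w w' : V → V → ℤ) : tot (w - w') = tot w - tot w' := by
  unfold tot
  rw [← sum_sub_distrib]
  refine sum_congr rfl fun u _ => ?_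
  rw [← sum_sub_distrib]
  refine sum_congr rfl fun v _ => ?_
  split_ifs <;> simp

theorem tot_nonneg {w : V → V → ℤ} (h0 : ∀ u v, 0 ≤ w u v) : 0 ≤ tot w := by
  refine sum_nonneg fun u _ => sum_nonneg fun v _ => ?_
  split_ifs
  · exact h0 u v
  · exact le_rfl

/-- Splitting off the pair `su, sv`. -/
def splw (w : V → V → ℤ) (s u v : V) : V → V → ℤ :=
  w - un s u - un u s - un s v - un v s + un u v + un v u

theorem wc_spl (w : V → V → ℤ) (s u v : V) (X : Finset V) :
    wc (splw w s u v) X = wc w X -
      if (s ∈ X ∧ u ∉ X ∧ v ∉ X) ∨ (s ∉ X ∧ u ∈ X ∧ v ∈ X) then 2 else 0 := by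
  unfold splw
  simp only [wc_add, wc_sub, wc_un]
  by_cases h1 : s ∈ X <;> by_cases h2 : u ∈ X <;> by_cases h3 : v ∈ X <;> simp [h1, h2, h3] <;> ring

theorem tot_spl (w : V → V → ℤ) {s u v : V} (hu : s ≠ u) (hv : s ≠ v) :
    tot (splw w s u v) ≤ tot w - 2 := by
  unfold splw
  simp only [tot_add, tot_sub, tot_un, hu, hv, hu.symm, hv.symm, ne_eq, not_false_eq_true, if_true]
  split_ifs <;> linarith

theorem spl_symm {w : V → V → ℤ} (hs : ∀ u v, w u v = w v u) (s u v : V) (x y : V) :
    splw w s u v x y = splw w s u v y x := by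
  have e : ∀ a b : V, un a b x y = un b a y x := by
    intro a b
    unfold un
    congr 1
    exact propext and_comm
  simp only [splw, Pi.add_apply, Pi.sub_apply, hs x y, e]
  ring

theorem spl_nonneg {w : V → V → ℤ} (h0 : ∀ u v, 0 ≤ w u v) (hs : ∀ u v, w u v = w v u)
    {s u v : V} (hu : s ≠ u) (hv : s ≠ v) (hwu : 1 ≤ w s u) (hwv : 1 ≤ w s v)
    (huv : u = v → 2 ≤ w s u) (x y : V) : 0 ≤ splw w s u v x y := by
  have h1 := h0 x y
  have h2 : ∀ a b : V, 0 ≤ un a b x y := by
    intro a b; unfold un; split_ifs <;> norm_num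
  have hA := h2 u v
  have hB := h2 v u
  simp only [splw, Pi.add_apply, Pi.sub_apply]
  have key : un s u x y + un u s x y + un s v x y + un v s x y ≤ w x y := by
    unfold un
    by_cases hx : x = s
    · subst hx
      rw [if_neg (c := x = u ∧ y = x) (fun h => hu h.1), if_neg (c := x = v ∧ y = x) (fun h => hv h.1)]
      by_cases hyu : y = u
      · subst hyu
        by_cases hyv : y = v
        · subst hyv
          have := huv rfl
          simp; omega
        · simp [hyv]; omega
      · by_cases hyv : y = v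
        · subst hyv
          simp [hyu]; omega
        · simp [hyu, hyv]; omega
    · by_cases hy : y = s
      · subst hy
        rw [hs x y]
        by_cases hyu : x = u
        · subst hyu
          by_cases hyv : x = v
          · subst hyv
            have := huv rfl
            simp [hx]; omega
          · simp [hx, hyv]; omega
        · by_cases hyv : x = v
          · subst hyv
            simp [hx, hyu]; omega
          · simp [hx, hyu, hyv]; rw [← hs x y]; omega
      · simp [hx, hy]; omega
  linarith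

/-- `X` separates the terminals. -/
def Sep (U X : Finset V) : Prop := (∃ u ∈ U, u ∈ X) ∧ ∃ u ∈ U, u ∉ X

theorem Sep.compl {U X : Finset V} (h : Sep U X) : Sep U Xᶜ := by
  obtain ⟨⟨a, ha, ha'⟩, b, hb, hb'⟩ := h
  exact ⟨⟨b, hb, by simpa using hb'⟩, a, ha, by simpa using ha'⟩

/-- **Lovasz**: one splitting. -/
theorem exists_split (U : Finset V) (κ : ℤ) (w : V → V → ℤ) (h0 : ∀ u v, 0 ≤ w u v)
    (hs : ∀ u v, w u v = w v u) (hev : ∀ X, Even (wc w X)) (hcut : ∀ X, Sep U X → 2 * κ ≤ wc w X)
    {s u : V} (hsU : s ∉ U) (hu : s ≠ u) (hwu : 1 ≤ w s u) :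
    ∃ v, s ≠ v ∧ 1 ≤ w s v ∧ (u = v → 2 ≤ w s u) ∧
      ∀ X, Sep U X → 2 * κ ≤ wc (splw w s u v) X := by
  classical
  by_contra hcon
  push Not at hcon
  -- not splittable: a tight set
  have htight : ∀ v, s ≠ v → 1 ≤ w s v → (u = v → 2 ≤ w s u) →
      ∃ X, Sep U X ∧ s ∉ X ∧ u ∈ X ∧ v ∈ X ∧ wc w X = 2 * κ := by
    intro v hv hwv huv
    obtain ⟨X, hX, hlt⟩ := hcon v hv hwv huv
    rw [wc_spl] at hlt
    have h1 := hcut X hX
    obtain ⟨j, hj⟩ := hev X
    have hcase : (s ∈ X ∧ u ∉ X ∧ v ∉ X) ∨ (s ∉ X ∧ u ∈ X ∧ v ∈ X) := by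
      by_contra h
      rw [if_neg h] at hlt
      omega
    rw [if_pos hcase] at hlt
    have h2 : wc w X = 2 * κ := by omega
    rcases hcase with h | h
    · exact ⟨Xᶜ, hX.compl, by simpa using h.1, by simpa using h.2.1, by simpa using h.2.2,
        by rw [wc_compl hs]; exact h2⟩
    · exact ⟨X, hX, h.1, h.2.1, h.2.2, h2⟩
  have hdeg : wc w {s} = ∑ v, if v ≠ s then w s v else 0 := by
    unfold wc
    rw [sum_eq_single s]
    · refine sum_congr rfl fun v _ => ?_
      simp
    · intro x _ hx
      simp [hx]
    · simp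
  set T : Finset (Finset V) := univ.filter fun X =>
    Sep U X ∧ s ∉ X ∧ u ∈ X ∧ wc w X = 2 * κ with hT
  have hTne : T.Nonempty := by
    by_contra hTn
    have hnone : ∀ v, s ≠ v → 1 ≤ w s v → (u = v → 2 ≤ w s u) → False := by
      intro v h1 h2 h3
      obtain ⟨X, hX⟩ := htight v h1 h2 h3
      exact hTn ⟨X, by simp only [hT, mem_filter, mem_univ, true_and]; exact
        ⟨hX.1, hX.2.1, hX.2.2.1, hX.2.2.2.2⟩⟩
    have h1 : w s u = 1 := by
      by_contra h
      exact hnone u hu hwu fun _ => by omega
    have h2 : wc w {s} = 1 := by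
      rw [hdeg, sum_eq_single u]
      · rw [if_pos hu.symm, h1]
      · intro v _ hv
        split_ifs with h
        · by_contra h3
          have := h0 s v
          exact hnone v (Ne.symm h) (by omega) fun h4 => absurd h4.symm hv
        · rfl
      · simp
    have h3 := hev {s}
    rw [h2] at h3
    exact absurd h3 (by decide)
  obtain ⟨X, hXT, hXmax⟩ := T.exists_max_image Finset.card hTne
  have hX : Sep U X ∧ s ∉ X ∧ u ∈ X ∧ wc w X = 2 * κ := by
    have := hXT
    simp only [hT, mem_filter, mem_univ, true_and] at this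
    exact this
  obtain ⟨hXs, hsX, huX, hXt⟩ := hX
  -- a neighbour outside `X`
  obtain ⟨v, hvs, hwv, hvX⟩ : ∃ v, v ≠ s ∧ 1 ≤ w s v ∧ v ∉ X := by
    by_contra hno
    push Not at hno
    have hsep : Sep U (insert s X) := by
      obtain ⟨⟨a, ha, ha'⟩, b, hb, hb'⟩ := hXs
      exact ⟨⟨a, ha, mem_insert_of_mem ha'⟩, b, hb, by
        rw [mem_insert]; rintro (h | h)
        · exact hsU (h ▸ hb)
        · exact hb' h⟩
    have h1 := hcut _ hsep
    have h2 : wc w (insert s X) + w u s + w s u ≤ wc w X + w u s := by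
      have h3 : wc w (insert s X) + w s u ≤ wc w X := by
        have e : wc w X = ∑ a, ∑ b, if b ∈ X ∧ a ∉ X then w a b else 0 := by
          unfold wc
          rw [sum_comm]
          refine sum_congr rfl fun a _ => sum_congr rfl fun b _ => ?_
          rw [hs a b]
        have e2 : ∀ a b, (if a ∈ insert s X ∧ b ∉ insert s X then w a b else 0) ≤
            if a ∈ X ∧ b ∉ X then w a b else 0 := by
          intro a b
          by_cases ha : a = s
          · subst ha
            by_cases hb : b ∈ insert a X
            · simp [hb]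
              split_ifs
              · exact h0 a b
              · exact le_rfl
            · have hba : b ≠ a := fun h => hb (by simp [h])
              have hbX : b ∉ X := fun h => hb (mem_insert_of_mem h)
              have : w a b = 0 := by
                have h4 := h0 a b
                by_contra h5
                exact hbX (hno b hba (by omega))
              simp [this]
          · by_cases haX : a ∈ X
            · by_cases hb : b ∈ insert s X
              · simp only [hb, not_true_eq_false, and_false, if_false]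
                split_ifs
                · exact h0 a b
                · exact le_rfl
              · have hbX : b ∉ X := fun h => hb (mem_insert_of_mem h)
                simp [haX, hb, hbX]
            · have : a ∉ insert s X := by simp [ha, haX]
              simp only [this, false_and, if_false]
              split_ifs
              · exact h0 a b
              · exact le_rfl
        have e3 : ∀ a b, (if a ∈ insert s X ∧ b ∉ insert s X then w a b else 0)
            + (if a = u ∧ b = s then w a b else 0) ≤ if a ∈ X ∧ b ∉ X then w a b else 0 := by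
          intro a b
          by_cases hab : a = u ∧ b = s
          · obtain ⟨rfl, rfl⟩ := hab
            simp [huX, hsX]
          · rw [if_neg hab, add_zero]
            exact e2 a b
        have e4 : ∑ a, ∑ b, (if a = u ∧ b = s then w a b else 0) = w u s := by
          rw [sum_eq_single u]
          · rw [sum_eq_single s]
            · simp
            · intro y _ hy; simp [hy]
            · simp
          · intro x _ hx; simp [hx]
          · simp
        calc wc w (insert s X) + w s u = wc w (insert s X) + w u s := by rw [hs s u]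
          _ = ∑ a, ∑ b, ((if a ∈ insert s X ∧ b ∉ insert s X then w a b else 0)
              + (if a = u ∧ b = s then w a b else 0)) := by
              rw [← e4]
              unfold wc
              rw [← sum_add_distrib]
              refine sum_congr rfl fun a _ => ?_
              rw [← sum_add_distrib]
          _ ≤ wc w X := by
              unfold wc
              exact sum_le_sum fun a _ => sum_le_sum fun b _ => e3 a b
      linarith
    linarith
  obtain ⟨Y, hYs, hsY, huY, hvY, hYt⟩ := htight v hvs.symm hwv fun h => absurd (h ▸ huX) hvX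
  by_cases hcase : (∃ a ∈ U, a ∈ X ∩ Y) ∧ ∃ b ∈ U, b ∉ X ∪ Y
  · obtain ⟨⟨a, ha, haXY⟩, b, hb, hbXY⟩ := hcase
    have hI : Sep U (X ∩ Y) := ⟨⟨a, ha, haXY⟩, b, hb, fun h => hbXY (mem_union_left _ (mem_inter.1 h).1)⟩
    have hJ : Sep U (X ∪ Y) := ⟨⟨a, ha, mem_union_left _ (mem_inter.1 haXY).1⟩, b, hb, hbXY⟩
    have h1 := hcut _ hI
    have h2 := hcut _ hJ
    have h3 := wc_submod h0 X Y
    have h4 : wc w (X ∪ Y) = 2 * κ := by linarith
    have h5 : X ∪ Y ∈ T := by
      simp only [hT, mem_filter, mem_univ, true_and]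
      exact ⟨hJ, by simp [hsX, hsY], mem_union_left _ huX, h4⟩
    have h6 := hXmax _ h5
    have h7 : X.card < (X ∪ Y).card := by
      refine card_lt_card ⟨subset_union_left, fun h => hvX (h (mem_union_right _ hvY))⟩
    omega
  · -- posimodular case
    have h1 : Sep U (X \ Y) ∧ Sep U (Y \ X) := by
      obtain ⟨⟨a, ha, ha'⟩, b, hb, hb'⟩ := hXs
      obtain ⟨⟨c, hc, hc'⟩, d, hd, hd'⟩ := hYs
      rw [not_and_or] at hcase
      rcases hcase with h | h
      · push Not at h
        have haY : a ∉ Y := fun h' => h a ha (mem_inter.2 ⟨ha', h'⟩)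
        have hcX : c ∉ X := fun h' => h c hc (mem_inter.2 ⟨h', hc'⟩)
        exact ⟨⟨⟨a, ha, by simp [ha', haY]⟩, c, hc, by simp [hcX]⟩,
          ⟨c, hc, by simp [hc', hcX]⟩, a, ha, by simp [haY]⟩
      · push Not at h
        have hbY : b ∈ Y := (mem_union.1 (h b hb)).resolve_left hb'
        have hdX : d ∈ X := (mem_union.1 (h d hd)).resolve_right hd'
        exact ⟨⟨⟨d, hd, by simp [hdX, hd']⟩, b, hb, by simp [hb']⟩,
          ⟨b, hb, by simp [hbY, hb']⟩, d, hd, by simp [hd']⟩
    have h2 := hcut _ h1.1
    have h3 := hcut _ h1.2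
    have h4 := wc_submod_strong h0 hs X Yᶜ huX (by simpa using huY) (by simpa using hsY) hsX
      (by rw [hs]; exact hwu)
    have e1 : X ∩ Yᶜ = X \ Y := by ext; simp
    have e2 : X ∪ Yᶜ = (Y \ X)ᶜ := by ext; simp; tauto
    rw [e1, e2, wc_compl hs, wc_compl hs] at h4
    linarith

/-- **Steiner splitting off**. -/
theorem split_off (U : Finset V) (κ : ℤ) : ∀ (n : ℕ) (w : V → V → ℤ), tot w ≤ n →
    (∀ u v, 0 ≤ w u v) → (∀ u v, w u v = w v u) → (∀ X, Even (wc w X)) →
    (∀ X, Sep U X → 2 * κ ≤ wc w X) →
    ∃ w' : V → V → ℤ, (∀ u v, 0 ≤ w' u v) ∧ (∀ u v, w' u v = w' v u) ∧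
      (∀ s, s ∉ U → ∀ u, s ≠ u → w' s u = 0) ∧ (∀ X, wc w' X ≤ wc w X) ∧
      ∀ X, Sep U X → 2 * κ ≤ wc w' X := by
  intro n
  induction n using Nat.strong_induction_on with
  | _ n ih =>
    intro w hn h0 hs hev hcut
    by_cases hdone : ∀ s, s ∉ U → ∀ u, s ≠ u → w s u = 0
    · exact ⟨w, h0, hs, hdone, fun X => le_rfl, hcut⟩
    · push Not at hdone
      obtain ⟨s, hsU, u, hu, hwu⟩ := hdone
      have hwu1 : 1 ≤ w s u := by
        have := h0 s u
        omega
      obtain ⟨v, hv, hwv, huv, hcut'⟩ := exists_split U κ w h0 hs hev hcut hsU hu hwu1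
      have ht := tot_spl w hu hv
      have h0' := spl_nonneg h0 hs hu hv hwu1 hwv huv
      have ht0 := tot_nonneg h0'
      have hle : ∀ X, wc (splw w s u v) X ≤ wc w X := by
        intro X
        rw [wc_spl]
        split_ifs <;> linarith
      obtain ⟨w', h1, h2, h3, h4, h5⟩ := ih (n - 2) (by omega) (splw w s u v) (by omega) h0'
        (fun x y => spl_symm hs s u v x y) (by
          intro X
          rw [wc_spl]
          split_ifs
          · exact (hev X).sub (by decide)
          · simpa using hev X) hcut'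
      exact ⟨w', h1, h2, h3, fun X => (h4 X).trans (hle X), h5⟩

end Pool.Agent.K5
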