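import Mathlib
import Pool.Agent.Work.MP_974d84_co_k5.SupFar
import Pool.Agent.Work.MP_974d84_co_k5.ExtHoff

/-!
# Suppressing the boundary of a bead: the marked edges and their charges
-/

set_option linter.unusedSectionVars false

namespace Pool.Agent.K5

open Finset SimpleGraph Pool.Agent.Exp Pool.Agent.Log5 Pool.Agent.Log5.Clu

variable {V : Type} [Fintype V] [DecidableEq V]

variable {G : SimpleGraph V} [DecidableRel G.Adj] {P : Finset V}

/-- A connected set of at most four vertices of `P` contains at most one mark. -/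
theorem mks_one {D : ℕ} (hfar : FarB G D P) {m m' : V} (hm : m ∈ mks G P)
    (hm' : m' ∈ mks G P) {Q : Finset V} (hQP : Q ⊆ P) (hQ : Q.card ≤ D)
    (hc : (G.induce (Q : Set V)).Connected) (h1 : m ∈ Q) (h2 : m' ∈ Q) : m = m' := by
  by_contra hmm
  obtain ⟨hmP, w, hw, hwP⟩ := mks_out hm
  obtain ⟨hmP', w', hw', hwP'⟩ := mks_out hm'
  have h3 := hfar Q hQP hQ hc
  have h4 : ({(m, w), (m', w')} : Finset (V × V)) ⊆
      (univ : Finset (V × V)).filter fun p => p.1 ∈ Q ∧ p.2 ∈ Pᶜ ∧ G.Adj p.1 p.2 := by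
    intro p hp
    simp only [mem_insert, mem_singleton] at hp
    rw [mem_filter]
    rcases hp with rfl | rfl
    · exact ⟨mem_univ _, h1, mem_compl.2 hwP, hw⟩
    · exact ⟨mem_univ _, h2, mem_compl.2 hwP', hw'⟩
  have h5 := card_le_card h4
  rw [card_pair (fun e => hmm (congrArg Prod.fst e))] at h5
  unfold ee at h3
  omega

/-- The neighbours of a mark. -/
theorem mks_nbrs {N : ℕ} (hS : SupH G N P) {m : V} (hm : m ∈ mks G P) :
    ∃ a b : {v // v ∈ unm G P}, a ≠ b ∧ G.Adj m a ∧ G.Adj m b ∧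
      ∀ w : {v // v ∈ unm G P}, G.Adj m w → w = a ∨ w = b := by
  obtain ⟨hmP, o, ho, hoP⟩ := mks_out hm
  have hfar := hS.far
  -- at most one neighbour outside
  have hout : ∀ w, G.Adj m w → w ∉ P → w = o := by
    intro w hw hwP
    by_contra hwo
    have h3 := hfar {m} (singleton_subset_iff.2 hmP) (by simp) (conn_single m)
    have h4 : ({(m, w), (m, o)} : Finset (V × V)) ⊆
        (univ : Finset (V × V)).filter fun p => p.1 ∈ ({m} : Finset V) ∧ p.2 ∈ Pᶜ ∧
          G.Adj p.1 p.2 := by
      intro p hp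
      simp only [mem_insert, mem_singleton] at hp
      rw [mem_filter]
      rcases hp with rfl | rfl
      · exact ⟨mem_univ _, mem_singleton_self _, mem_compl.2 hwP, hw⟩
      · exact ⟨mem_univ _, mem_singleton_self _, mem_compl.2 hoP, ho⟩
    have h5 := card_le_card h4
    rw [card_pair (fun e => hwo (congrArg Prod.snd e))] at h5
    unfold ee at h3
    omega
  -- neighbours inside are no marks
  have hin : ∀ w, G.Adj m w → w ∈ P → w ∈ unm G P := by
    intro w hw hwP
    rw [unm, mem_filter]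
    refine ⟨hwP, fun u hu => ?_⟩
    by_contra huP
    have hwm : w ∈ mks G P := by
      rw [mks, mem_filter]
      exact ⟨hwP, u, huP, hu⟩
    have h1 : (G.induce ((insert w {m} : Finset V) : Set V)).Connected :=
      conn_insert (conn_single m) (mem_singleton_self m) hw
    have h2 := mks_one hfar hm hwm (Q := insert w {m}) (by
      rw [insert_subset_iff, singleton_subset_iff]
      exact ⟨hwP, hmP⟩) (by
      have := card_insert_le w ({m} : Finset V)
      rw [card_singleton] at this
      omega) h1 (mem_insert_of_mem (mem_singleton_self m)) (mem_insert_self _ _)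
    exact G.ne_of_adj hw h2
  have h1 : (G.neighborFinset m).card = 3 := by
    rw [card_neighborFinset_eq_degree, hS.h3]
  have h2 : ((G.neighborFinset m).erase o).card = 2 := by
    rw [card_erase_of_mem ((mem_neighborFinset _ _ _).2 ho), h1]
  obtain ⟨a, b, hab, he⟩ := card_eq_two.1 h2
  have hmem : ∀ w, w ∈ ({a, b} : Finset V) ↔ w ≠ o ∧ G.Adj m w := by
    intro w
    rw [← he, mem_erase, mem_neighborFinset]
  have ha := (hmem a).1 (by simp)
  have hb := (hmem b).1 (by simp)
  have haP : a ∈ P := by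
    by_contra h
    exact ha.1 (hout a ha.2 h)
  have hbP : b ∈ P := by
    by_contra h
    exact hb.1 (hout b hb.2 h)
  refine ⟨⟨a, hin a ha.2 haP⟩, ⟨b, hin b hb.2 hbP⟩, fun h => hab (congrArg Subtype.val h),
    ha.2, hb.2, fun w hw => ?_⟩
  have hwP : (w : V) ∈ P := (mem_filter.1 w.2).1
  have h4 := (hmem w).2 ⟨fun h => hoP (h ▸ hwP), hw⟩
  simp only [mem_insert, mem_singleton] at h4
  rcases h4 with h4 | h4
  · exact Or.inl (Subtype.ext h4)
  · exact Or.inr (Subtype.ext h4)

/-- The charge of a marked edge is the charge of its mark. -/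
theorem supC_eq {N : ℕ} (hS : SupH G N P) (c : V → ℝ) {m : V} (hm : m ∈ mks G P)
    {u v : {v // v ∈ unm G P}} (huv : u ≠ v) (hu : G.Adj m u) (hv : G.Adj m v) :
    supC G P c u v = c m := by
  unfold supC
  rw [sum_eq_single m, if_pos ⟨huv, hu, hv⟩]
  · intro m' hm' hne
    refine if_neg ?_
    rintro ⟨-, hu', hv'⟩
    have huP : (u : V) ∈ P := (mem_filter.1 u.2).1
    have h1 : (G.induce ((insert m' (insert m {(u : V)}) : Finset V) : Set V)).Connected :=
      conn_insert (conn_insert (conn_single (u : V)) (mem_singleton_self _) hu.symm)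
        (mem_insert_of_mem (mem_singleton_self _)) hu'.symm
    refine hne (mks_one hS.far hm hm' (Q := insert m' (insert m {(u : V)})) ?_ ?_ h1 ?_ ?_).symm
    · rw [insert_subset_iff, insert_subset_iff, singleton_subset_iff]
      exact ⟨(mks_out hm').1, (mks_out hm).1, huP⟩
    · have h2 := card_insert_le m' (insert m ({(u : V)} : Finset V))
      have h3 := card_insert_le m ({(u : V)} : Finset V)
      rw [card_singleton] at h3
      omega
    · exact mem_insert_of_mem (mem_insert_self _ _)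
    · exact mem_insert_self _ _
  · exact fun h => absurd hm h

/-- S4: the marked edges. -/
theorem supC_marks {N : ℕ} (hS : SupH G N P) {c : V → ℝ}
    (hc : ∀ m ∈ mks G P, |c m| = 2 / 5 ∨ |c m| = 4 / 5) : Marks (supG G P) (supC G P c) where
  symm u v := by
    unfold supC
    refine sum_congr rfl fun m _ => ?_
    by_cases h : u ≠ v ∧ G.Adj m u ∧ G.Adj m v
    · rw [if_pos h, if_pos ⟨h.1.symm, h.2.2, h.2.1⟩]
    · rw [if_neg h, if_neg fun h' => h ⟨h'.1.symm, h'.2.2, h'.2.1⟩]
  adj u v h := by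
    obtain ⟨m, hm, huv, hu, hv⟩ := supC_ne h
    exact ⟨huv, Or.inr ⟨m, hm, hu, hv⟩⟩
  val u v h := by
    obtain ⟨m, hm, huv, hu, hv⟩ := supC_ne h
    rw [supC_eq hS c hm huv hu hv]
    exact hc m hm

/-- The total charge. -/
theorem supC_total {N : ℕ} (hS : SupH G N P) (c : V → ℝ) :
    ∑ u, ∑ v, supC G P c u v = 2 * ∑ m ∈ mks G P, c m := by
  classical
  have h1 : ∑ u, ∑ v, supC G P c u v = ∑ m ∈ mks G P, ∑ u : {v // v ∈ unm G P},
      ∑ v : {v // v ∈ unm G P}, if u ≠ v ∧ G.Adj m u ∧ G.Adj m v then c m else 0 := by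
    unfold supC
    rw [sum_comm]
    rw [← sum_comm]
    rw [sum_congr rfl fun u _ => sum_comm]
    rw [sum_comm]
  rw [h1, mul_sum]
  refine sum_congr rfl fun m hm => ?_
  obtain ⟨a, b, hab, ha, hb, hw⟩ := mks_nbrs hS hm
  have h2 : ∀ u : {v // v ∈ unm G P}, ∑ v : {v // v ∈ unm G P},
      (if u ≠ v ∧ G.Adj m u ∧ G.Adj m v then c m else 0) =
        (if u = a then c m else 0) + if u = b then c m else 0 := by
    intro u
    by_cases hu : G.Adj m u
    · rcases hw u hu with rfl | rfl
      · rw [if_pos rfl, if_neg hab, add_zero, sum_eq_single b]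
        · rw [if_pos ⟨hab, hu, hb⟩]
        · intro v _ hvb
          refine if_neg ?_
          rintro ⟨h3, -, h4⟩
          rcases hw v h4 with h5 | h5
          · exact h3 h5.symm
          · exact hvb h5
        · exact fun h => absurd (mem_univ _) h
      · rw [if_neg (Ne.symm hab), if_pos rfl, zero_add, sum_eq_single a]
        · rw [if_pos ⟨Ne.symm hab, hu, ha⟩]
        · intro v _ hva
          refine if_neg ?_
          rintro ⟨h3, -, h4⟩
          rcases hw v h4 with h5 | h5
          · exact hva h5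
          · exact h3 h5.symm
        · exact fun h => absurd (mem_univ _) h
    · have hua : u ≠ a := fun h => hu (h ▸ ha)
      have hub : u ≠ b := fun h => hu (h ▸ hb)
      rw [if_neg hua, if_neg hub, add_zero]
      refine sum_eq_zero fun v _ => if_neg ?_
      rintro ⟨-, h4, -⟩
      exact hu h4
  rw [sum_congr rfl fun u _ => h2 u, sum_add_distrib, sum_ite_eq' univ a, sum_ite_eq' univ b,
    if_pos (mem_univ _), if_pos (mem_univ _)]
  ring

/-- The sign of a boundary value. -/
noncomputable def s5 (a : ZMod 5) : ℤ := if 3 ≤ a.val then -1 else 1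

theorem s5_pm (a : ZMod 5) : s5 a = 1 ∨ s5 a = -1 := by
  unfold s5
  split_ifs
  · exact Or.inr rfl
  · exact Or.inl rfl

theorem s5_add (a : ZMod 5) (ha : a ≠ 0) :
    (s5 a : ℝ) + q5 a = 2 * (a.val : ℝ) / 5 - if 3 ≤ a.val then 2 else 0 := by
  unfold s5 q5
  rw [if_neg ha]
  by_cases h : 3 ≤ a.val
  · rw [if_pos h, if_pos h]
    push_cast
    ring
  · rw [if_neg h, if_neg h]
    push_cast
    ring

/-- The charge of the mark. -/
theorem s5_val (a : ZMod 5) (ha : a ≠ 0) :
    |(s5 a : ℝ) + q5 a| = 2 / 5 ∨ |(s5 a : ℝ) + q5 a| = 4 / 5 := by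
  rw [s5_add a ha]
  have h : a.val = 1 ∨ a.val = 2 ∨ a.val = 3 ∨ a.val = 4 := by
    have h1 := a.val_lt
    have h2 : a.val ≠ 0 := fun h => ha ((ZMod.val_eq_zero a).1 h)
    omega
  rcases h with h | h | h | h <;> rw [h]
  · left
    norm_num
  · right
    norm_num
  · right
    norm_num [abs_of_neg]
  · left
    norm_num [abs_of_neg]

/-- Parity of the total charge. -/
theorem s5_sum {s : Finset V} {φ : V → ZMod 5} (h0 : ∀ v ∈ s, φ v ≠ 0)
    (h : ∑ v ∈ s, φ v = 0) : ∃ t : ℤ, ∑ v ∈ s, ((s5 (φ v) : ℝ) + q5 (φ v)) = 2 * t := by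
  have h1 : ((∑ v ∈ s, (φ v).val : ℕ) : ZMod 5) = 0 := by
    rw [Nat.cast_sum, ← h]
    exact sum_congr rfl fun v _ => ZMod.natCast_zmod_val (φ v)
  rw [ZMod.natCast_eq_zero_iff] at h1
  obtain ⟨j, hj⟩ := h1
  refine ⟨j - (s.filter fun v => 3 ≤ (φ v).val).card, ?_⟩
  rw [sum_congr rfl fun v hv => s5_add (φ v) (h0 v hv), sum_sub_distrib, ← sum_div, ← mul_sum,
    ← Nat.cast_sum, hj, ← sum_filter, sum_const, nsmul_eq_mul]
  push_cast
  ring

end Pool.Agent.K5
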