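import Mathlib
import Pool.Agent.Work.MP_974d84_co_k5.DefsW

/-!
# Tours: an enumeration of the vertices which crosses every cut few times, and blocks

In a connected graph there is an enumeration of the vertices which crosses every set `X` at most
`2 dd X` times.  So every set `T` of vertices can be cut into blocks of a given size, up to a few
vertices, such that every set `X` splits at most `2 dd X` blocks.
-/

set_option linter.unusedSectionVars false

namespace Pool.Agent.K5

open Finset SimpleGraph Pool.Agent.Exp Pool.Agent.Log5 Pool.Agent.Log5.Clu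
  Pool.Agent.Work.MP_314beb_co

section

variable {V : Type} [DecidableEq V]

/-- `1` if `X` separates `a` and `b`. -/
def sep (X : Finset V) (a b : V) : ℕ := if a ∈ X ↔ b ∈ X then 0 else 1

/-- The number of times the list crosses the border of `X`. -/
def crs (X : Finset V) : List V → ℕ
  | [] => 0
  | [_] => 0
  | a :: b :: l => sep X a b + crs X (b :: l)

theorem sep_le (X : Finset V) (a b c : V) : sep X a c ≤ sep X a b + sep X b c := by
  unfold sep
  by_cases h1 : a ∈ X <;> by_cases h2 : b ∈ X <;> by_cases h3 : c ∈ X <;> simp [h1, h2, h3]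

theorem sep_comm (X : Finset V) (a b : V) : sep X a b = sep X b a := by
  unfold sep
  by_cases h1 : a ∈ X <;> by_cases h2 : b ∈ X <;> simp [h1, h2]

theorem crs_insert (X : Finset V) (p w : V) (l : List V) :
    crs X (p :: w :: l) ≤ crs X (p :: l) + 2 * sep X p w := by
  cases l with
  | nil => simp only [crs]; omega
  | cons z l =>
    simp only [crs]
    have h1 := sep_le X w p z
    rw [sep_comm X w p] at h1
    omega

theorem crs_append (X : Finset V) (p : V) (l₂ : List V) : ∀ l₁ : List V,
    crs X (l₁ ++ p :: l₂) = crs X (l₁ ++ [p]) + crs X (p :: l₂)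
  | [] => by simp [crs]
  | [a] => by
    show crs X (a :: p :: l₂) = crs X [a, p] + crs X (p :: l₂)
    simp only [crs]
    omega
  | a :: b :: l => by
    have h := crs_append X p l₂ (b :: l)
    simp only [List.cons_append] at h ⊢
    simp only [crs]
    omega

theorem crs_two (X : Finset V) (l₂ : List V) : ∀ l₁ : List V,
    crs X l₁ + crs X l₂ ≤ crs X (l₁ ++ l₂)
  | [] => by simp [crs]
  | [a] => by
    cases l₂ with
    | nil => simp [crs]
    | cons b l =>
      show crs X [a] + crs X (b :: l) ≤ crs X (a :: b :: l)
      simp only [crs]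
      omega
  | a :: b :: l => by
    have h := crs_two X l₂ (b :: l)
    simp only [List.cons_append] at h ⊢
    simp only [crs]
    omega

theorem crs_cons_le (X : Finset V) (a b : V) (l : List V) :
    crs X (a :: l) ≤ sep X a b + crs X (b :: l) := by
  cases l with
  | nil => simp [crs]
  | cons c l =>
    simp only [crs]
    have h := sep_le X a b c
    omega

theorem crs_sublist_aux (X : Finset V) {l' l : List V} (h : l'.Sublist l) :
    ∀ a, crs X (a :: l') ≤ crs X (a :: l) := by
  induction h with
  | slnil => exact fun a => le_rfl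
  | cons b _ ih =>
    intro a
    refine (crs_cons_le X a b _).trans ?_
    show _ ≤ sep X a b + crs X (b :: _)
    have := ih b
    omega
  | cons_cons b _ ih =>
    intro a
    show sep X a b + crs X (b :: _) ≤ sep X a b + crs X (b :: _)
    have := ih b
    omega

theorem crs_tail_le (X : Finset V) (a : V) (l : List V) : crs X l ≤ crs X (a :: l) := by
  cases l with
  | nil => simp [crs]
  | cons b l => simp only [crs]; omega

/-- Sublists have fewer crossings. -/
theorem crs_sublist (X : Finset V) {l' l : List V} (h : l'.Sublist l) : crs X l' ≤ crs X l := by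
  induction h with
  | slnil => exact le_rfl
  | cons b _ ih => exact ih.trans (crs_tail_le X b _)
  | cons_cons b h _ => exact crs_sublist_aux X h b

/-- Without crossings all elements are on the same side. -/
theorem side_of_crs (X : Finset V) : ∀ (l : List V) (a : V), crs X (a :: l) = 0 →
    ∀ b ∈ l, (a ∈ X ↔ b ∈ X)
  | [], _, _, b, hb => absurd hb (by simp)
  | c :: l, a, h, b, hb => by
    simp only [crs] at h
    have h1 : (a ∈ X ↔ c ∈ X) := by
      by_contra h'
      have : sep X a c = 1 := if_neg h'
      omega
    rcases List.mem_cons.1 hb with rfl | hb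
    · exact h1
    · exact h1.trans (side_of_crs X l c (by omega) b hb)

/-- A split list crosses the border. -/
theorem one_le_crs (X : Finset V) {l : List V} (h : Cuts l.toFinset X) : 1 ≤ crs X l := by
  by_contra h'
  have h0 : crs X l = 0 := by omega
  apply h
  cases l with
  | nil => exact Or.inr (by simp)
  | cons a l =>
    have h1 := side_of_crs X l a h0
    by_cases ha : a ∈ X
    · left
      intro b hb
      rcases List.mem_cons.1 (List.mem_toFinset.1 hb) with rfl | hb
      · exact ha
      · exact (h1 b hb).1 ha
    · right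
      rw [Finset.disjoint_left]
      intro b hb hbX
      rcases List.mem_cons.1 (List.mem_toFinset.1 hb) with rfl | hb
      · exact ha hbX
      · exact ha ((h1 b hb).2 hbX)

/-- Blocks of size `q` from a list. -/
theorem blocks_of_list {q : ℕ} (hq : 0 < q) : ∀ (n : ℕ) (l : List V), l.length ≤ n → l.Nodup →
    ∃ B : Finset (Finset V), (∀ b ∈ B, b.card = q ∧ b ⊆ l.toFinset) ∧
      (∀ b ∈ B, ∀ b' ∈ B, b ≠ b' → Disjoint b b') ∧ (l.toFinset \ B.biUnion id).card < q ∧
      ∀ X, (B.filter fun b => Cuts b X).card ≤ crs X l := by
  intro n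
  induction n with
  | zero =>
    intro l hl _
    have : l = [] := List.length_eq_zero_iff.1 (by omega)
    subst this
    exact ⟨∅, by simp, by simp, by simpa using hq, by simp⟩
  | succ n ih =>
    intro l hl hnd
    by_cases hlt : l.length < q
    · refine ⟨∅, by simp, by simp, ?_, by simp⟩
      have := List.toFinset_card_le l
      simp only [biUnion_empty, sdiff_empty]
      omega
    · have hsplit : l.take q ++ l.drop q = l := List.take_append_drop q l
      have hnd' : (l.take q ++ l.drop q).Nodup := by rw [hsplit]; exact hnd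
      obtain ⟨hn1, hn2, hdis⟩ := List.nodup_append.1 hnd'
      obtain ⟨B, hB1, hB2, hB3, hB4⟩ := ih (l.drop q) (by rw [List.length_drop]; omega) hn2
      have hl1 : ((l.take q).toFinset).card = q := by
        rw [List.toFinset_card_of_nodup hn1, List.length_take]
        omega
      have htf : l.toFinset = (l.take q).toFinset ∪ (l.drop q).toFinset := by
        rw [← List.toFinset_append, hsplit]
      have hd12 : Disjoint (l.take q).toFinset (l.drop q).toFinset := by
        rw [Finset.disjoint_left]
        intro a ha hb
        exact hdis a (List.mem_toFinset.1 ha) a (List.mem_toFinset.1 hb) rfl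
      have hdB : ∀ b ∈ B, Disjoint (l.take q).toFinset b := fun b hb =>
        hd12.mono_right (hB1 b hb).2
      refine ⟨insert (l.take q).toFinset B, ?_, ?_, ?_, ?_⟩
      · intro b hb
        rcases mem_insert.1 hb with rfl | hb
        · exact ⟨hl1, by rw [htf]; exact subset_union_left⟩
        · exact ⟨(hB1 b hb).1, (hB1 b hb).2.trans (by rw [htf]; exact subset_union_right)⟩
      · intro b hb b' hb' hne
        rcases mem_insert.1 hb with rfl | hb <;> rcases mem_insert.1 hb' with rfl | hb'
        · exact absurd rfl hne
        · exact hdB b' hb'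
        · exact (hdB b hb).symm
        · exact hB2 b hb b' hb' hne
      · refine lt_of_le_of_lt (card_le_card ?_) hB3
        intro a ha
        rw [mem_sdiff, htf, mem_union, biUnion_insert, mem_union] at ha
        rw [mem_sdiff]
        obtain ⟨ha1, ha2⟩ := ha
        push Not at ha2
        refine ⟨ha1.resolve_left fun h => ha2.1 h, ha2.2⟩
      · intro X
        have h2 := crs_two X (l.drop q) (l.take q)
        rw [hsplit] at h2
        rw [filter_insert]
        have h3 := hB4 X
        split_ifs with hc
        · have h1 := one_le_crs X hc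
          refine (card_insert_le _ _).trans ?_
          omega
        · omega

end

section

variable {V : Type} [Fintype V] [DecidableEq V] {G : SimpleGraph V} [DecidableRel G.Adj]

/-- **Tour lemma.** -/
theorem exists_tour (hbr : ∀ A : Finset V, A.Nonempty → Aᶜ.Nonempty → 1 ≤ dd G A) :
    ∃ l : List V, l.Nodup ∧ (∀ v, v ∈ l) ∧ ∀ X : Finset V, crs X l ≤ 2 * dd G X := by
  classical
  have key : ∀ n, n ≤ Fintype.card V → ∃ l : List V, l.Nodup ∧ l.length = n ∧
      ∀ X : Finset V, crs X l ≤ 2 * ((cut G X ∪ cut G Xᶜ).filter fun p =>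
        p.1 ∈ l ∧ p.2 ∈ l ∧ p.1 ∈ X).card := by
    intro n
    induction n with
    | zero => exact fun _ => ⟨[], List.nodup_nil, rfl, fun X => by simp [crs]⟩
    | succ n ih =>
      intro hn
      obtain ⟨l, hnd, hlen, hl⟩ := ih (by omega)
      by_cases hl0 : l = []
      · subst hl0
        simp only [List.length_nil] at hlen
        subst hlen
        have : Nonempty V := Fintype.card_pos_iff.1 (by omega)
        exact ⟨[Classical.arbitrary V], List.nodup_singleton _, rfl, fun X => by simp [crs]⟩
      · have hne : (l.toFinset)ᶜ.Nonempty := by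
          rw [← card_pos, card_compl, List.toFinset_card_of_nodup hnd]
          omega
        have hne' : (l.toFinset).Nonempty := by
          rw [nonempty_iff_ne_empty]
          intro h
          exact hl0 (List.toFinset_eq_empty_iff l |>.1 h)
        have h1 := hbr _ hne' hne
        obtain ⟨⟨p, w⟩, hpw⟩ := card_pos.1 (show 0 < (cut G l.toFinset).card from h1)
        rw [mem_cut] at hpw
        obtain ⟨hp, hw, hadj⟩ := hpw
        simp only at hp hw hadj
        rw [List.mem_toFinset] at hp hw
        obtain ⟨l₁, l₂, rfl⟩ := List.append_of_mem hp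
        have hmem : ∀ v, v ∈ l₁ ++ p :: w :: l₂ ↔ v = w ∨ v ∈ l₁ ++ p :: l₂ := by
          intro v
          simp only [List.mem_append, List.mem_cons]
          tauto
        refine ⟨l₁ ++ p :: w :: l₂, ?_, ?_, fun X => ?_⟩
        · have hperm : (l₁ ++ p :: w :: l₂).Perm (w :: (l₁ ++ p :: l₂)) := by
            have h2 : (l₁ ++ p :: w :: l₂) = (l₁ ++ [p]) ++ w :: l₂ := by simp
            have h3 : (l₁ ++ p :: l₂) = (l₁ ++ [p]) ++ l₂ := by simp
            rw [h2, h3]
            exact List.perm_middle
          rw [hperm.nodup_iff]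
          exact List.nodup_cons.2 ⟨hw, hnd⟩
        · rw [← hlen]
          simp only [List.length_append, List.length_cons]
          omega
        · have h2 := crs_append X p (w :: l₂) l₁
          have h3 := crs_append X p l₂ l₁
          have h4 := crs_insert X p w l₂
          have h5 := hl X
          have h6 : ((cut G X ∪ cut G Xᶜ).filter fun q =>
              q.1 ∈ l₁ ++ p :: l₂ ∧ q.2 ∈ l₁ ++ p :: l₂ ∧ q.1 ∈ X).card + sep X p w ≤
              ((cut G X ∪ cut G Xᶜ).filter fun q =>
                q.1 ∈ l₁ ++ p :: w :: l₂ ∧ q.2 ∈ l₁ ++ p :: w :: l₂ ∧ q.1 ∈ X).card := by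
            have hsub : ((cut G X ∪ cut G Xᶜ).filter fun q =>
                q.1 ∈ l₁ ++ p :: l₂ ∧ q.2 ∈ l₁ ++ p :: l₂ ∧ q.1 ∈ X) ⊆
                ((cut G X ∪ cut G Xᶜ).filter fun q =>
                q.1 ∈ l₁ ++ p :: w :: l₂ ∧ q.2 ∈ l₁ ++ p :: w :: l₂ ∧ q.1 ∈ X) := by
              intro q hq
              rw [mem_filter] at hq ⊢
              exact ⟨hq.1, (hmem _).2 (Or.inr hq.2.1), (hmem _).2 (Or.inr hq.2.2.1), hq.2.2.2⟩
            by_cases hs : (p ∈ X ↔ w ∈ X)
            · have h7 : sep X p w = 0 := if_pos hs
              rw [h7]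
              exact card_le_card hsub
            · have h7 : sep X p w = 1 := if_neg hs
              rw [h7]
              refine Nat.succ_le_of_lt (card_lt_card ⟨hsub, ?_⟩)
              intro hsub'
              by_cases hpX : p ∈ X
              · have hwX : w ∉ X := fun h => hs ⟨fun _ => h, fun _ => hpX⟩
                have h8 : (p, w) ∈ ((cut G X ∪ cut G Xᶜ).filter fun q =>
                    q.1 ∈ l₁ ++ p :: w :: l₂ ∧ q.2 ∈ l₁ ++ p :: w :: l₂ ∧ q.1 ∈ X) := by
                  rw [mem_filter, mem_union, mem_cut]
                  exact ⟨Or.inl ⟨hpX, hwX, hadj⟩, (hmem _).2 (Or.inr hp), (hmem _).2 (Or.inl rfl),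
                    hpX⟩
                exact hw (mem_filter.1 (hsub' h8)).2.2.1
              · have hwX : w ∈ X := by
                  by_contra h
                  exact hs ⟨fun h' => absurd h' hpX, fun h' => absurd h' h⟩
                have h8 : (w, p) ∈ ((cut G X ∪ cut G Xᶜ).filter fun q =>
                    q.1 ∈ l₁ ++ p :: w :: l₂ ∧ q.2 ∈ l₁ ++ p :: w :: l₂ ∧ q.1 ∈ X) := by
                  rw [mem_filter, mem_union, mem_cut]
                  exact ⟨Or.inl ⟨hwX, hpX, hadj.symm⟩, (hmem _).2 (Or.inl rfl), (hmem _).2 (Or.inr hp),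
                    hwX⟩
                exact hw (mem_filter.1 (hsub' h8)).2.1
          omega
  obtain ⟨l, hnd, hlen, hl⟩ := key _ le_rfl
  have hall : ∀ v, v ∈ l := by
    intro v
    have h1 : l.toFinset = univ := by
      rw [← card_eq_iff_eq_univ, List.toFinset_card_of_nodup hnd, hlen]
    rw [← List.mem_toFinset, h1]
    exact mem_univ v
  refine ⟨l, hnd, hall, fun X => (hl X).trans (Nat.mul_le_mul_left 2 ?_)⟩
  refine card_le_card fun q hq => ?_
  rw [mem_filter, mem_union] at hq
  obtain ⟨hq1 | hq1, -, -, hq4⟩ := hq
  · exact hq1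
  · exact absurd hq4 (mem_compl.1 (mem_cut G |>.1 hq1).1)

/-- **Blocks.** Every set `T` of vertices of a connected graph is, up to fewer than `q` vertices,
a disjoint union of blocks of size `q` such that every set `X` splits at most `2 dd X` of them. -/
theorem exists_blocks (hbr : ∀ A : Finset V, A.Nonempty → Aᶜ.Nonempty → 1 ≤ dd G A) {q : ℕ}
    (hq : 0 < q) (T : Finset V) :
    ∃ B : Finset (Finset V), (∀ b ∈ B, b.card = q ∧ b ⊆ T) ∧
      (∀ b ∈ B, ∀ b' ∈ B, b ≠ b' → Disjoint b b') ∧ (T \ B.biUnion id).card < q ∧
      ∀ X, (B.filter fun b => Cuts b X).card ≤ 2 * dd G X := by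
  classical
  obtain ⟨l, hnd, hall, hl⟩ := exists_tour (G := G) hbr
  obtain ⟨B, hB1, hB2, hB3, hB4⟩ := blocks_of_list hq (l.filter (· ∈ T)).length
    (l.filter (· ∈ T)) le_rfl (hnd.filter _)
  have hT : (l.filter (· ∈ T)).toFinset = T := by
    ext v
    simp [hall v]
  rw [hT] at hB1 hB3
  exact ⟨B, hB1, hB2, hB3, fun X => (hB4 X).trans ((crs_sublist X List.filter_sublist).trans (hl X))⟩

end

end Pool.Agent.K5
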