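import Mathlib
import Pool.Agent.Work.MP_974d84_co_k5.CutExact

/-!
# The exact line: separation of the cores and thinness of the sites
-/

set_option linter.unusedSectionVars false
set_option linter.unusedVariables false

namespace Pool.Agent.K5.CX

open Finset SimpleGraph Pool.Agent.Exp Pool.Agent.Log5 Pool.Agent.Log5.Clu Pool.Agent.K5

variable {V : Type} [Fintype V] [DecidableEq V] {G : SimpleGraph V} [DecidableRel G.Adj]
  {r : ℕ} {S : Fin r → Finset V}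

/-- The separation of the cores for the larger set `D`. -/
theorem sep_of {D₀ D : Finset V}
    (hdeep : ∀ v ∈ D, v ∉ D₀ → ∃ i, v ∈ S i ∧ ∀ w, G.Adj v w → w ∈ S i) {s₁ κ : ℕ}
    (hX8 : ∀ Q : Finset V, s₁ ≤ (Q \ D₀).card → s₁ ≤ (Qᶜ \ D₀).card → κ ≤ ds G D₀ Q)
    (hbig : ∀ i, s₁ ≤ (S i \ D₀).card) (Q : Finset V) (hQ : Sat S Q) (h1 : ∃ i, S i ⊆ Q)
    (h2 : ∃ i, Disjoint (S i) Q) : κ ≤ ds G D Q := by
  obtain ⟨i, hi⟩ := h1
  obtain ⟨j, hj⟩ := h2
  have h3 : s₁ ≤ (Q \ D₀).card := (hbig i).trans (card_le_card (sdiff_subset_sdiff hi le_rfl))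
  have h4 : s₁ ≤ (Qᶜ \ D₀).card := (hbig j).trans (card_le_card (sdiff_subset_sdiff (by
    intro v hv
    rw [mem_compl]
    exact Finset.disjoint_left.1 hj hv) le_rfl))
  refine (hX8 Q h3 h4).trans ?_
  unfold ds
  refine card_le_card fun p hp => ?_
  simp only [mem_filter, mem_univ, true_and] at hp ⊢
  obtain ⟨h5, h6, h7, h8, h9⟩ := hp
  refine ⟨h5, h6, fun h => ?_, fun h => ?_, h9⟩
  · obtain ⟨l, hl, hl'⟩ := hdeep _ h h7
    rcases hQ l with h10 | h10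
    · exact h6 (h10 (hl' _ h9))
    · exact Finset.disjoint_left.1 h10 hl h5
  · obtain ⟨l, hl, hl'⟩ := hdeep _ h h8
    rcases hQ l with h10 | h10
    · exact h6 (h10 hl)
    · exact Finset.disjoint_left.1 h10 (hl' _ h9.symm) h5

/-- Two thin sets of sites. -/
theorem thin_union {T₀ T₁ : Finset V} {k₁ : ℕ}
    (h0 : ∀ P, Fm G S P → k₁ ≤ dd G P → ∀ T' ⊆ T₀, (∀ t ∈ T', Sp G 2 P t) →
      80 * T'.card ≤ dd G P)
    (h1 : ∀ P, Fm G S P → k₁ ≤ dd G P → ∀ T' ⊆ T₁, (∀ t ∈ T', Sp G 2 P t) →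
      80 * T'.card ≤ dd G P) (P : Finset V) (hP : Fm G S P) (hk : k₁ ≤ dd G P) (T' : Finset V)
    (hT : T' ⊆ T₀ ∪ T₁) (hs : ∀ t ∈ T', Sp G 2 P t) : 40 * T'.card ≤ dd G P := by
  have h2 := h0 P hP hk (T' ∩ T₀) inter_subset_right fun t ht => hs t (mem_inter.1 ht).1
  have h3 := h1 P hP hk (T' \ T₀) (by
    intro t ht
    rw [mem_sdiff] at ht
    rcases mem_union.1 (hT ht.1) with h | h
    · exact absurd h ht.2
    · exact h) fun t ht => hs t (mem_sdiff.1 ht).1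
  have h4 : (T' \ T₀).card + (T' ∩ T₀).card = T'.card := card_sdiff_add_card_inter T' T₀
  omega

/-- The sites of the gadgets are thin. -/
theorem thin_gadgets (hd : ∀ i j, i ≠ j → Disjoint (S i) (S j)) {M : Fin r → ℕ}
    (β : (i : Fin r) → Fin (M i) → V) {R : ℕ} (hβ : ∀ i g, Bl G.Adj R (β i g) ⊆ S i)
    (site : (i : Fin r) → Fin (M i) → Finset V) (h6 : ∀ i g, (site i g).card ≤ 6)
    (hball : ∀ i g, ∀ t ∈ site i g, Bl G.Adj 2 t ⊆ Bl G.Adj R (β i g)) {T₁ : Finset V}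
    (hT : ∀ t ∈ T₁, ∃ i g, t ∈ site i g) {θ : ℝ} (hθ : 480 * θ ≤ 1) {k₁ : ℕ}
    (hM : ∀ i Z, Z ⊆ S i → Joined G Z → k₁ ≤ dd G Z →
      ((univ.filter fun g => ¬ Disjoint (Bl G.Adj R (β i g)) Z).card : ℝ) ≤ θ * dd G Z)
    (P : Finset V) (hP : Fm G S P) (hk : k₁ ≤ dd G P) (T' : Finset V) (hT' : T' ⊆ T₁)
    (hs : ∀ t ∈ T', Sp G 2 P t) : 80 * T'.card ≤ dd G P := by
  classical
  have hmeet : ∀ t ∈ T', ∃ i g, t ∈ site i g ∧ ∃ v ∈ P, v ∈ Bl G.Adj R (β i g) := by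
    intro t ht
    obtain ⟨i, g, hg⟩ := hT t (hT' ht)
    obtain ⟨x, hx, hx'⟩ := hs t ht
    refine ⟨i, g, hg, ?_⟩
    by_cases hxP : x ∈ P
    · exact ⟨x, hxP, hball i g t hg hx⟩
    · have htP : t ∈ P := by
        by_contra htP
        exact hx' ⟨fun h => absurd h hxP, fun h => absurd h htP⟩
      exact ⟨t, htP, hball i g t hg (Bl_self 2 t)⟩
  rcases hP with hP | ⟨i, hPS, -, hPj, -, -⟩
  · have : T' = ∅ := by
      rw [eq_empty_iff_forall_notMem]
      intro t ht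
      obtain ⟨i, g, -, v, hv, hv'⟩ := hmeet t ht
      have h1 := hP.sub hv
      rw [mem_compl, mem_biUnion] at h1
      exact h1 ⟨i, mem_univ _, hβ i g hv'⟩
    rw [this, card_empty, mul_zero]
    exact Nat.zero_le _
  · have h1 : T' ⊆ (univ.filter fun g => ¬ Disjoint (Bl G.Adj R (β i g)) P).biUnion (site i) := by
      intro t ht
      obtain ⟨j, g, hg, v, hv, hv'⟩ := hmeet t ht
      have hij : j = i := by
        by_contra hij
        exact Finset.disjoint_left.1 (hd j i hij) (hβ j g hv') (hPS hv)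
      subst hij
      rw [mem_biUnion]
      refine ⟨g, mem_filter.2 ⟨mem_univ _, fun h => ?_⟩, hg⟩
      exact Finset.disjoint_left.1 h hv' hv
    have h2 : T'.card ≤ (univ.filter fun g => ¬ Disjoint (Bl G.Adj R (β i g)) P).card * 6 :=
      (card_le_card h1).trans (card_biUnion_le_card_mul _ _ _ fun g _ => h6 i g)
    have h3 := hM i P hPS hPj hk
    have h4 : (T'.card : ℝ) ≤
        ((univ.filter fun g => ¬ Disjoint (Bl G.Adj R (β i g)) P).card : ℝ) * 6 := by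
      exact_mod_cast h2
    have h5 : (0 : ℝ) ≤ dd G P := Nat.cast_nonneg _
    have h6 : 80 * (T'.card : ℝ) ≤ dd G P := by
      calc 80 * (T'.card : ℝ) ≤ 80 * (θ * dd G P * 6) := by nlinarith
        _ = 480 * θ * dd G P := by ring
        _ ≤ 1 * dd G P := mul_le_mul_of_nonneg_right hθ h5
        _ = dd G P := one_mul _
    exact_mod_cast h6

end Pool.Agent.K5.CX
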