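import Mathlib
import Pool.Agent.Work.MP_974d84_co_k5.CutExact
import Pool.Agent.Work.MP_974d84_co_k5.LossCore
import Pool.Agent.Work.MP_974d84_co_k5.LossOut

/-!
# The exact line: the loss at the sites
-/

set_option linter.unusedSectionVars false
set_option linter.unusedVariables false

namespace Pool.Agent.K5.CX

open Finset SimpleGraph Pool.Agent.Exp Pool.Agent.Log5 Pool.Agent.Log5.Clu Pool.Agent.K5

variable {V : Type} [Fintype V] [DecidableEq V] {G : SimpleGraph V} [DecidableRel G.Adj]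

/-- The union of the cores is not acyclic. -/
theorem cores_not_acyclic {r : ℕ} {S : Fin r → Finset V} (i : Fin r)
    (h : ¬ (G.induce (S i : Set V)).IsAcyclic) :
    ¬ (G.induce ((univ.biUnion S : Finset V) : Set V)).IsAcyclic := by
  intro hac
  refine h ?_
  have hsub : (S i : Set V) ⊆ ((univ.biUnion S : Finset V) : Set V) := by
    intro v hv
    rw [mem_coe, mem_biUnion]
    exact ⟨i, mem_univ _, hv⟩
  exact hac.comap (SimpleGraph.induceHomOfLE G hsub).toHom
    (SimpleGraph.induceHomOfLE G hsub).injective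

/-- **The loss at the sites**: the hypotheses of the exact cut bound. -/
theorem xloss_of {k k₁ R r : ℕ} {S : Fin r → Finset V} {T : Finset V} {X : V → Finset V}
    (h3 : ∀ v, G.degree v = 3) (hc : CycConn G k) (hg : Gir G k) (hk : k₁ + 10 ≤ k) (hR : 10 ≤ R)
    (hd : ∀ i j, i ≠ j → Disjoint (S i) (S j)) (hj : ∀ i, Joined G (S i))
    (hl : ∀ i, k ≤ (S i).card)
    (hratio : ∀ i, ∀ A ⊆ S i, 3 * A.card ≤ 2 * (S i).card →
      100 * ee G A (S i)ᶜ ≤ 123 * ee G A (S i \ A))
    (hX : Triples G R T X)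
    (hthin : ∀ P, Fm G S P → k₁ ≤ dd G P → ∀ T' ⊆ T, (∀ t ∈ T', Sp G 2 P t) →
      40 * T'.card ≤ dd G P)
    (hfew : ∀ i, 6 * (T.biUnion X ∩ S i).card ≤ (S i).card)
    (hcyc : ¬ (G.induce ((univ.biUnion S : Finset V) : Set V)).IsAcyclic) :
    XLoss G S (T.biUnion X) where
  disj := hd
  ratio := hratio
  few := hfew
  ne i := by
    rw [← card_pos]
    have h1 := hfew i
    have h2 := hl i
    have h4 : (S i \ T.biUnion X).card + (T.biUnion X ∩ S i).card = (S i).card := by
      rw [inter_comm]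
      exact card_sdiff_add_card_inter (S i) (T.biUnion X)
    omega
  out A hA := loss_out h3 hc hg hk hR (by rw [compl_compl]; exact hcyc) hX
    (fun P hP _ h1 T' hT' h2 => hthin P (Or.inl hP) h1 T' hT' h2) A hA
  core i A hA := loss_core h3 hc hg hk hR (hj i) (hl i) (hratio i) hX
    (fun P hP hne hj' hj'' hc' h1 T' hT' h2 =>
      hthin P (Or.inr ⟨i, hP, hne, hj', hj'', hc'⟩) h1 T' hT' h2) A hA

end Pool.Agent.K5.CX
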